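import Mathlib

/-!
Counting multisets of multiplicities: definitions.
-/

namespace Pool.Agent.Work.MP_0421d9_ag.AA

/-- the number of conditions imposed by a point of multiplicity `v` -/
def tr (v : ℕ) : ℕ := (v + 1).choose 2

/-- the number of conditions imposed by `f i` points of multiplicity `i + 1` for all `i < V` -/
def wt {V : ℕ} (f : Fin V → ℕ) : ℕ := ∑ i, f i * tr (i + 1)

/-- the configurations with at most `n` conditions -/
def FF (V n : ℕ) : Finset (Fin V → ℕ) :=
  (Fintype.piFinset (fun _ => Finset.range (n + 1))).filter (fun f => wt f ≤ n)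

/-- the generating function -/
noncomputable def ZZ (V : ℕ) (x : ℝ) : ℝ := ∏ i : Fin V, (1 - Real.exp (-(x * tr (i + 1))))⁻¹

theorem tr_pos {v : ℕ} (hv : 1 ≤ v) : 1 ≤ tr v := by
  unfold tr
  exact Nat.choose_pos (by omega)

theorem two_mul_tr (v : ℕ) : 2 * tr v = v * (v + 1) := by
  unfold tr
  rw [Nat.choose_two_right, Nat.add_sub_cancel, mul_comm (v + 1) v, Nat.mul_div_cancel']
  exact (Nat.even_mul_succ_self v).two_dvd

theorem le_wt {V : ℕ} (f : Fin V → ℕ) (i : Fin V) : f i * tr (i + 1) ≤ wt f :=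
  Finset.single_le_sum (f := fun i => f i * tr (i + 1)) (fun _ _ => Nat.zero_le _)
    (Finset.mem_univ i)

theorem mem_FF {V n : ℕ} {f : Fin V → ℕ} : f ∈ FF V n ↔ wt f ≤ n := by
  unfold FF
  rw [Finset.mem_filter, Fintype.mem_piFinset]
  refine ⟨fun h => h.2, fun h => ⟨fun i => ?_, h⟩⟩
  rw [Finset.mem_range]
  have h1 := le_wt f i
  have h2 := tr_pos (v := i + 1) (by omega)
  have h3 : f i * 1 ≤ f i * tr (i + 1) := Nat.mul_le_mul_left _ h2
  omega

theorem zero_mem_FF (V n : ℕ) : (0 : Fin V → ℕ) ∈ FF V n := by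
  rw [mem_FF]
  unfold wt
  simp

end Pool.Agent.Work.MP_0421d9_ag.AA
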