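import Pool.Agent.Work.MP_0421d9_ag.AA0

/-!
Counting multisets of multiplicities: the generating function.
-/

namespace Pool.Agent.Work.MP_0421d9_ag.AA

open Finset

theorem exp_sum_eq {V : ℕ} (y : Fin V → ℝ) (f : Fin V → ℕ) :
    Real.exp (-∑ i, y i * f i) = ∏ i, Real.exp (-y i) ^ f i := by
  rw [← Finset.sum_neg_distrib, Real.exp_sum]
  refine Finset.prod_congr rfl fun i _ => ?_
  rw [← Real.exp_nat_mul]
  congr 1
  ring

theorem sum_pi {V : ℕ} (y : Fin V → ℝ) (L : ℕ) :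
    ∑ f ∈ Fintype.piFinset (fun _ : Fin V => range L), Real.exp (-∑ i, y i * f i) =
      ∏ i, ∑ k ∈ range L, Real.exp (-y i) ^ k := by
  rw [Finset.prod_univ_sum]
  exact sum_congr rfl fun f _ => exp_sum_eq y f

theorem geom_le {y : ℝ} (hy : 0 < y) (L : ℕ) :
    ∑ k ∈ range L, Real.exp (-y) ^ k ≤ (1 - Real.exp (-y))⁻¹ := by
  have h0 : 0 ≤ Real.exp (-y) := (Real.exp_pos _).le
  have h1 : Real.exp (-y) < 1 := Real.exp_lt_one_iff.2 (by linarith)
  rw [← tsum_geometric_of_lt_one h0 h1]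
  exact (summable_geometric_of_lt_one h0 h1).sum_le_tsum _ (fun k _ => pow_nonneg h0 k)

/-- upper bound for the generating function -/
theorem sum_le_prod {V : ℕ} (y : Fin V → ℝ) (hy : ∀ i, 0 < y i) (A : Finset (Fin V → ℕ)) :
    ∑ f ∈ A, Real.exp (-∑ i, y i * f i) ≤ ∏ i, (1 - Real.exp (-y i))⁻¹ := by
  obtain ⟨L, hL⟩ : ∃ L : ℕ, ∀ f ∈ A, ∀ i, f i < L := by
    refine ⟨(∑ f ∈ A, ∑ i, f i) + 1, fun f hf i => ?_⟩
    have h1 : f i ≤ ∑ i, f i := single_le_sum (fun _ _ => Nat.zero_le _) (mem_univ i)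
    have h2 : (∑ i, f i) ≤ ∑ f ∈ A, ∑ i, f i :=
      single_le_sum (f := fun f : Fin V → ℕ => ∑ i, f i) (fun _ _ => Nat.zero_le _) hf
    omega
  calc ∑ f ∈ A, Real.exp (-∑ i, y i * f i)
      ≤ ∑ f ∈ Fintype.piFinset (fun _ : Fin V => range L), Real.exp (-∑ i, y i * f i) := by
        refine sum_le_sum_of_subset_of_nonneg (fun f hf => ?_) fun _ _ _ => (Real.exp_pos _).le
        rw [Fintype.mem_piFinset]
        exact fun i => mem_range.2 (hL f hf i)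
    _ = ∏ i, ∑ k ∈ range L, Real.exp (-y i) ^ k := sum_pi y L
    _ ≤ ∏ i, (1 - Real.exp (-y i))⁻¹ :=
        prod_le_prod (fun i _ => sum_nonneg fun k _ => pow_nonneg (Real.exp_pos _).le k)
          fun i _ => geom_le (hy i) L

/-- lower bound for the truncated generating function -/
theorem prod_le_sum {V : ℕ} (y : Fin V → ℝ) (hy : ∀ i, 0 < y i) {δ : ℝ} (hδ : 0 < δ) :
    ∃ L₀ : ℕ, ∀ L : ℕ, L₀ ≤ L → (∏ i, (1 - Real.exp (-y i))⁻¹) * (1 - δ) ≤
      ∑ f ∈ Fintype.piFinset (fun _ : Fin V => range L), Real.exp (-∑ i, y i * f i) := by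
  have h0 : ∀ i, 0 ≤ Real.exp (-y i) := fun i => (Real.exp_pos _).le
  have h1 : ∀ i, Real.exp (-y i) < 1 := fun i => Real.exp_lt_one_iff.2 (by linarith [hy i])
  have hlim : Filter.Tendsto (fun L : ℕ => ∏ i, ∑ k ∈ range L, Real.exp (-y i) ^ k)
      Filter.atTop (nhds (∏ i, (1 - Real.exp (-y i))⁻¹)) := by
    refine tendsto_finsetProd _ fun i _ => ?_
    exact (hasSum_geometric_of_lt_one (h0 i) (h1 i)).tendsto_sum_nat
  have hZ : 0 < ∏ i, (1 - Real.exp (-y i))⁻¹ :=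
    prod_pos fun i _ => inv_pos.2 (by linarith [h1 i])
  have hlt : (∏ i, (1 - Real.exp (-y i))⁻¹) * (1 - δ) < ∏ i, (1 - Real.exp (-y i))⁻¹ := by
    nlinarith
  obtain ⟨L₀, hL₀⟩ := Filter.eventually_atTop.1 (hlim.eventually_const_lt hlt)
  refine ⟨L₀, fun L hL => ?_⟩
  rw [sum_pi]
  exact (hL₀ L hL).le

end Pool.Agent.Work.MP_0421d9_ag.AA
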