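import Pool.Agent.Work.MP_0421d9_ag.AA1

/-!
Counting multisets of multiplicities: three bounds.
-/

namespace Pool.Agent.Work.MP_0421d9_ag.AA

open Finset

theorem wt_cast {V : ℕ} (x : ℝ) (f : Fin V → ℕ) :
    x * (wt f : ℝ) = ∑ i : Fin V, x * tr (i + 1) * f i := by
  unfold wt
  push_cast
  rw [Finset.mul_sum]
  exact sum_congr rfl fun i _ => by ring

theorem tr_pos' {x : ℝ} (hx : 0 < x) {V : ℕ} (i : Fin V) : 0 < x * (tr (i + 1) : ℝ) := by
  have h : (1 : ℝ) ≤ tr ((i : ℕ) + 1) := by exact_mod_cast tr_pos (v := (i : ℕ) + 1) (by omega)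
  have : (0 : ℝ) < tr ((i : ℕ) + 1) := by linarith
  exact mul_pos hx this

theorem tr_mono {u v : ℕ} (h : u ≤ v) : tr u ≤ tr v := by
  have h1 := two_mul_tr u
  have h2 := two_mul_tr v
  have h3 : u * (u + 1) ≤ v * (v + 1) := Nat.mul_le_mul h (by omega)
  omega

/-- few configurations with a large part -/
theorem large_part {x : ℝ} (hx : 0 < x) (V n V0 : ℕ) :
    (((FF V n).filter (fun f => ∃ i : Fin V, V0 ≤ (i : ℕ) + 1 ∧ f i ≠ 0)).card : ℝ) ≤
      V * Real.exp (-(x * tr V0)) * Real.exp (x * n) * ZZ V x := by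
  classical
  have hZ0 : 0 ≤ ZZ V x := by
    unfold ZZ
    refine prod_nonneg fun i _ => inv_nonneg.2 ?_
    have := Real.exp_lt_one_iff.2 (neg_lt_zero.2 (tr_pos' hx i))
    linarith
  have hone : ∀ i : Fin V, V0 ≤ (i : ℕ) + 1 → (((FF V n).filter (fun f => f i ≠ 0)).card : ℝ) ≤
      Real.exp (-(x * tr V0)) * Real.exp (x * n) * ZZ V x := by
    intro i hi
    -- remove one copy of the part
    set S := (FF V n).filter (fun f => f i ≠ 0) with hS
    let φ : (Fin V → ℕ) → (Fin V → ℕ) := fun f => Function.update f i (f i - 1)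
    have hinj : Set.InjOn φ S := by
      intro f hf g hg hfg
      have hf' : f i ≠ 0 := (mem_filter.1 hf).2
      have hg' : g i ≠ 0 := (mem_filter.1 hg).2
      funext j
      have h1 := congrFun hfg j
      simp only [φ] at h1
      by_cases hj : j = i
      · subst hj
        rw [Function.update_self, Function.update_self] at h1
        omega
      · rwa [Function.update_of_ne hj, Function.update_of_ne hj] at h1
    have hwt : ∀ f ∈ S, wt (φ f) + tr (i + 1) = wt f := by
      intro f hf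
      have hf' : f i ≠ 0 := (mem_filter.1 hf).2
      unfold wt
      rw [← add_sum_erase univ _ (mem_univ i), ← add_sum_erase univ (fun j => f j * tr (j + 1))
        (mem_univ i)]
      have h1 : ∑ j ∈ univ.erase i, φ f j * tr (j + 1) = ∑ j ∈ univ.erase i, f j * tr (j + 1) := by
        refine sum_congr rfl fun j hj => ?_
        simp only [φ]
        rw [Function.update_of_ne (ne_of_mem_erase hj)]
      have h2 : φ f i = f i - 1 := by simp [φ]
      rw [h1, h2]
      have h3 : f i = f i - 1 + 1 := by omega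
      have h4 : f i * tr (i + 1) = (f i - 1) * tr (i + 1) + tr (i + 1) := by
        conv_lhs => rw [h3]
        ring
      omega
    calc (S.card : ℝ) = ∑ f ∈ S, (1 : ℝ) := by rw [sum_const, nsmul_eq_mul, mul_one]
      _ ≤ ∑ f ∈ S, Real.exp (x * n) * Real.exp (-(x * tr V0)) *
            Real.exp (-∑ j : Fin V, x * tr (j + 1) * φ f j) := by
          refine sum_le_sum fun f hf => ?_
          rw [← Real.exp_add, ← Real.exp_add, ← wt_cast]
          refine Real.one_le_exp ?_
          have h1 := hwt f hf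
          have h2 : wt f ≤ n := mem_FF.1 (mem_filter.1 hf).1
          have h3 : tr V0 ≤ tr (i + 1) := tr_mono hi
          have h4 : wt (φ f) + tr V0 ≤ n := by omega
          have h5 : (wt (φ f) : ℝ) + tr V0 ≤ n := by exact_mod_cast h4
          nlinarith
      _ = Real.exp (x * n) * Real.exp (-(x * tr V0)) *
            ∑ g ∈ S.image φ, Real.exp (-∑ j : Fin V, x * tr (j + 1) * g j) := by
          rw [← mul_sum, sum_image hinj]
      _ ≤ Real.exp (x * n) * Real.exp (-(x * tr V0)) * ZZ V x := by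
          refine mul_le_mul_of_nonneg_left ?_ (by positivity)
          exact sum_le_prod (fun j : Fin V => x * (tr (j + 1) : ℝ)) (fun j => tr_pos' hx j) _
      _ = _ := by ring
  have hsub : (FF V n).filter (fun f => ∃ i : Fin V, V0 ≤ (i : ℕ) + 1 ∧ f i ≠ 0) ⊆
      (univ.filter (fun i : Fin V => V0 ≤ (i : ℕ) + 1)).biUnion
        (fun i => (FF V n).filter (fun f => f i ≠ 0)) := by
    intro f hf
    rw [mem_filter] at hf
    obtain ⟨hf, i, hi, hne⟩ := hf
    rw [mem_biUnion]
    exact ⟨i, mem_filter.2 ⟨mem_univ _, hi⟩, mem_filter.2 ⟨hf, hne⟩⟩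
  have h1 : (((FF V n).filter (fun f => ∃ i : Fin V, V0 ≤ (i : ℕ) + 1 ∧ f i ≠ 0)).card : ℝ) ≤
      ∑ i ∈ univ.filter (fun i : Fin V => V0 ≤ (i : ℕ) + 1),
        (((FF V n).filter (fun f => f i ≠ 0)).card : ℝ) := by
    exact_mod_cast (card_le_card hsub).trans card_biUnion_le
  refine h1.trans ?_
  calc ∑ i ∈ univ.filter (fun i : Fin V => V0 ≤ (i : ℕ) + 1),
        (((FF V n).filter (fun f => f i ≠ 0)).card : ℝ)
      ≤ ∑ i ∈ univ.filter (fun i : Fin V => V0 ≤ (i : ℕ) + 1),
          (Real.exp (-(x * tr V0)) * Real.exp (x * n) * ZZ V x) :=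
        sum_le_sum fun i hi => hone i (mem_filter.1 hi).2
    _ = ((univ.filter (fun i : Fin V => V0 ≤ (i : ℕ) + 1)).card : ℝ) *
          (Real.exp (-(x * tr V0)) * Real.exp (x * n) * ZZ V x) := by
        rw [sum_const, nsmul_eq_mul]
    _ ≤ V * (Real.exp (-(x * tr V0)) * Real.exp (x * n) * ZZ V x) := by
        refine mul_le_mul_of_nonneg_right ?_ (by positivity)
        have := card_le_univ (univ.filter (fun i : Fin V => V0 ≤ (i : ℕ) + 1))
        rw [Fintype.card_fin] at this
        exact_mod_cast this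
    _ = _ := by ring

theorem exp_three_lt : Real.exp 3 < 21 := by
  have h1 := Real.exp_one_lt_d9
  have h2 : Real.exp 3 = Real.exp 1 ^ 3 := by
    rw [← Real.exp_nat_mul]; norm_num
  rw [h2]
  have h3 : Real.exp 1 ^ 3 ≤ (2.7182818286 : ℝ) ^ 3 := by
    have := (Real.exp_pos 1).le
    gcongr
  refine lt_of_le_of_lt h3 (by norm_num)

/-- the ratio of two factors -/
theorem ratio_le {a : ℝ} (ha : 0 < a) (h : 42 * a ≤ 1) :
    (1 - Real.exp (-(42 * a)))⁻¹ ≤ Real.exp (-3) * (1 - Real.exp (-a))⁻¹ := by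
  have h1 : 1 - a ≤ Real.exp (-a) := by
    have := Real.add_one_le_exp (-a)
    linarith
  have h2 : Real.exp (-(42 * a)) ≤ 1 - 21 * a := by
    -- exp(-b) ≤ 1 - b/2 for 0 ≤ b ≤ 1
    have hb0 : 0 ≤ 42 * a := by linarith
    have h3 : Real.exp (-(42 * a)) * (1 + 42 * a) ≤ 1 := by
      have h4 := Real.add_one_le_exp (42 * a)
      have h5 : Real.exp (-(42 * a)) * Real.exp (42 * a) = 1 := by
        rw [← Real.exp_add]; simp
      have h6 := Real.exp_pos (-(42 * a))
      nlinarith
    have h7 : 1 ≤ (1 - 21 * a) * (1 + 42 * a) := by nlinarith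
    have h8 : 0 < 1 + 42 * a := by linarith
    by_contra hlt
    push Not at hlt
    nlinarith
  have h3 : 0 < 1 - Real.exp (-a) := by
    have := Real.exp_lt_one_iff.2 (neg_lt_zero.2 ha)
    linarith
  have h4 : 0 < 1 - Real.exp (-(42 * a)) := by linarith
  have h5 : Real.exp 3 * (1 - Real.exp (-a)) ≤ 1 - Real.exp (-(42 * a)) := by
    have := exp_three_lt
    nlinarith
  rw [Real.exp_neg 3, ← mul_inv]
  exact inv_anti₀ (by positivity) h5

/-- few configurations with a light bottom -/
theorem light {x : ℝ} (hx : 0 < x) (V n u : ℕ) (huV : u ≤ V) (hu : 42 * x * tr u ≤ 1) (Y : ℝ) :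
    (((FF V n).filter (fun f => ((∑ i ∈ univ.filter (fun i : Fin V => (i : ℕ) + 1 ≤ u),
      f i * tr (i + 1) : ℕ) : ℝ) ≤ Y)).card : ℝ) ≤
      Real.exp (41 * x * Y - 3 * u) * Real.exp (x * n) * ZZ V x := by
  classical
  set U : Finset (Fin V) := univ.filter (fun i : Fin V => (i : ℕ) + 1 ≤ u) with hU
  have hUc : U.card = u := by
    have h1 : U = (univ : Finset (Fin V)).filter (fun i : Fin V => (i : ℕ) < u) := by
      rw [hU]
      refine filter_congr fun i _ => ?_
      omega
    rw [h1, Fin.card_filter_val_lt, min_eq_right huV]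
  set S := (FF V n).filter (fun f => ((∑ i ∈ U, f i * tr (i + 1) : ℕ) : ℝ) ≤ Y) with hS
  let y : Fin V → ℝ := fun i => if i ∈ U then 42 * (x * tr (i + 1)) else x * tr (i + 1)
  have hy : ∀ i, 0 < y i := by
    intro i
    have := tr_pos' hx i
    simp only [y]
    split_ifs <;> linarith
  have hexp : ∀ f : Fin V → ℕ, ∑ i, y i * f i =
      x * wt f + 41 * x * ((∑ i ∈ U, f i * tr (i + 1) : ℕ) : ℝ) := by
    intro f
    have h1 : ∀ i, y i * f i = x * tr (i + 1) * f i +
        (if i ∈ U then 41 * x * (f i * tr (i + 1) : ℝ) else 0) := by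
      intro i
      simp only [y]
      split_ifs <;> ring
    rw [sum_congr rfl fun i _ => h1 i, sum_add_distrib, ← wt_cast, sum_ite_mem, univ_inter,
      ← mul_sum]
    push_cast
    rfl
  calc (S.card : ℝ) = ∑ f ∈ S, (1 : ℝ) := by rw [sum_const, nsmul_eq_mul, mul_one]
    _ ≤ ∑ f ∈ S, Real.exp (41 * x * Y) * Real.exp (x * n) * Real.exp (-∑ i, y i * f i) := by
        refine sum_le_sum fun f hf => ?_
        rw [← Real.exp_add, ← Real.exp_add, hexp]
        refine Real.one_le_exp ?_
        rw [hS, mem_filter] at hf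
        have h2 : (wt f : ℝ) ≤ n := by exact_mod_cast mem_FF.1 hf.1
        have h3 := hf.2
        have h4 : x * (wt f : ℝ) ≤ x * n := mul_le_mul_of_nonneg_left h2 hx.le
        have h5 : 41 * x * ((∑ i ∈ U, f i * tr (i + 1) : ℕ) : ℝ) ≤ 41 * x * Y :=
          mul_le_mul_of_nonneg_left h3 (by positivity)
        linarith
    _ = Real.exp (41 * x * Y) * Real.exp (x * n) * ∑ f ∈ S, Real.exp (-∑ i, y i * f i) := by
        rw [← mul_sum]
    _ ≤ Real.exp (41 * x * Y) * Real.exp (x * n) * ∏ i, (1 - Real.exp (-y i))⁻¹ :=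
        mul_le_mul_of_nonneg_left (sum_le_prod y hy S) (by positivity)
    _ ≤ Real.exp (41 * x * Y) * Real.exp (x * n) * (Real.exp (-3) ^ u * ZZ V x) := by
        refine mul_le_mul_of_nonneg_left ?_ (by positivity)
        have h1 : Real.exp (-3) ^ u = ∏ i : Fin V, (if i ∈ U then Real.exp (-3) else 1) := by
          rw [prod_ite_mem, univ_inter, prod_const, hUc]
        unfold ZZ
        rw [h1, ← prod_mul_distrib]
        refine prod_le_prod (fun i _ => ?_) (fun i _ => ?_)
        · have := Real.exp_lt_one_iff.2 (neg_lt_zero.2 (hy i))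
          exact inv_nonneg.2 (by linarith)
        · simp only [y]
          by_cases hi : i ∈ U
          · rw [if_pos hi, if_pos hi]
            refine ratio_le (tr_pos' hx i) ?_
            have h2 : (i : ℕ) + 1 ≤ u := (mem_filter.1 hi).2
            have h3 : (tr (i + 1) : ℝ) ≤ tr u := by exact_mod_cast tr_mono h2
            have h4 : 42 * x * (tr (i + 1) : ℝ) ≤ 42 * x * tr u :=
              mul_le_mul_of_nonneg_left h3 (by positivity)
            linarith
          · rw [if_neg hi, if_neg hi, one_mul]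
    _ = _ := by
        rw [← Real.exp_nat_mul, sub_eq_add_neg, Real.exp_add]
        ring_nf

/-- few configurations with few simple points and many points of a given multiplicity -/
theorem few_ones {V n : ℕ} (i0 i : Fin V) (hi0 : (i0 : ℕ) = 0) (hi : 1 ≤ (i : ℕ)) (X I : ℕ) :
    ((FF V n).filter (fun f => f i0 ≤ X ∧ I ≤ f i)).card * (I + 1) ≤
      (X / tr (i + 1) + 1) * (FF V n).card := by
  classical
  set S := (FF V n).filter (fun f => f i0 ≤ X ∧ I ≤ f i) with hS
  set T := tr (i + 1) with hT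
  have hT1 : 1 ≤ T := tr_pos (by omega)
  have hne : i ≠ i0 := fun h => by rw [h] at hi; omega
  have ht0 : tr ((i0 : ℕ) + 1) = 1 := by rw [hi0]; rfl
  let φ : (Fin V → ℕ) × ℕ → (Fin V → ℕ) := fun p =>
    Function.update (Function.update p.1 i (p.1 i - p.2)) i0 (p.1 i0 + p.2 * T)
  have hφ0 : ∀ p, φ p i0 = p.1 i0 + p.2 * T := fun p => by simp [φ]
  have hφ1 : ∀ p, φ p i = p.1 i - p.2 := fun p => by simp [φ, hne]
  have hφ2 : ∀ p j, j ≠ i → j ≠ i0 → φ p j = p.1 j := fun p j h1 h2 => by simp [φ, h1, h2]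
  have hcard : (S ×ˢ range (I + 1)).card = S.card * (I + 1) := by
    rw [card_product, card_range]
  rw [← hcard]
  refine (card_le_mul_card_image_of_maps_to (f := φ) (t := FF V n) ?_ (X / T + 1) ?_)
  · intro p hp
    rw [mem_product, mem_range, hS, mem_filter] at hp
    obtain ⟨⟨h1, h2, h3⟩, h4⟩ := hp
    rw [mem_FF] at h1 ⊢
    refine le_trans (le_of_eq ?_) h1
    unfold wt
    rw [← add_sum_erase univ _ (mem_univ i0), ← add_sum_erase univ (fun j => p.1 j * tr (j + 1))
      (mem_univ i0)]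
    have hmem : i ∈ univ.erase i0 := mem_erase.2 ⟨hne, mem_univ _⟩
    rw [← add_sum_erase _ _ hmem, ← add_sum_erase _ (fun j => p.1 j * tr (j + 1)) hmem]
    have h5 : ∑ j ∈ (univ.erase i0).erase i, φ p j * tr (j + 1) =
        ∑ j ∈ (univ.erase i0).erase i, p.1 j * tr (j + 1) := by
      refine sum_congr rfl fun j hj => ?_
      rw [hφ2 p j (ne_of_mem_erase hj) (ne_of_mem_erase (mem_of_mem_erase hj))]
    rw [h5, hφ0, hφ1, ht0, ← hT]
    have h6 : p.2 ≤ p.1 i := by omega
    obtain ⟨c, hc⟩ := Nat.exists_eq_add_of_le h6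
    rw [hc]
    have : p.2 + c - p.2 = c := by omega
    rw [this]
    ring
  · intro g hg
    -- the fibre embeds in `range (X / T + 1)`
    rw [← card_range (X / T + 1)]
    refine card_le_card_of_injOn (fun p => g i0 / T - p.2) ?_ ?_
    · intro p hp
      rw [mem_coe, mem_filter, mem_product, mem_range, hS, mem_filter] at hp
      obtain ⟨⟨⟨h1, h2, h3⟩, h4⟩, h5⟩ := hp
      rw [mem_coe, mem_range]
      have h6 : g i0 = p.1 i0 + p.2 * T := by rw [← h5, hφ0]
      have h7 : g i0 / T = p.1 i0 / T + p.2 := by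
        rw [h6, Nat.add_mul_div_right _ _ hT1]
      have h8 : p.1 i0 / T ≤ X / T := Nat.div_le_div_right h2
      change g i0 / T - p.2 < X / T + 1
      rw [h7, Nat.add_sub_cancel]
      exact Nat.lt_succ_of_le h8
    · intro p hp q hq hpq
      rw [mem_coe, mem_filter, mem_product, mem_range, hS, mem_filter] at hp hq
      obtain ⟨⟨⟨h1, h2, h3⟩, h4⟩, h5⟩ := hp
      obtain ⟨⟨⟨h1', h2', h3'⟩, h4'⟩, h5'⟩ := hq
      have h6 : g i0 = p.1 i0 + p.2 * T := by rw [← h5, hφ0]
      have h6' : g i0 = q.1 i0 + q.2 * T := by rw [← h5', hφ0]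
      have h7 : g i0 / T = p.1 i0 / T + p.2 := by
        rw [h6, Nat.add_mul_div_right _ _ hT1]
      have h7' : g i0 / T = q.1 i0 / T + q.2 := by
        rw [h6', Nat.add_mul_div_right _ _ hT1]
      have h9 : p.2 ≤ g i0 / T := h7 ▸ Nat.le_add_left _ _
      have h9' : q.2 ≤ g i0 / T := h7' ▸ Nat.le_add_left _ _
      change g i0 / T - p.2 = g i0 / T - q.2 at hpq
      clear h7 h7'
      generalize g i0 / T = w at hpq h9 h9'
      have hk : p.2 = q.2 := by omega
      refine Prod.ext (funext fun j => ?_) hk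
      by_cases hj : j = i
      · subst hj
        have e1 := hφ1 p
        have e2 := hφ1 q
        rw [h5] at e1
        rw [h5'] at e2
        omega
      · by_cases hj' : j = i0
        · subst hj'
          rw [hk] at h6
          omega
        · rw [← hφ2 p j hj hj', ← hφ2 q j hj hj', h5, h5']

end Pool.Agent.Work.MP_0421d9_ag.AA
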