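import Pool.Agent.Work.MP_0421d9_ag.AA0

/-!
Counting multisets of multiplicities: bounds for the logarithm of the generating function.
-/

namespace Pool.Agent.Work.MP_0421d9_ag.AA

open Real

/-- `-log (1 - exp (-y))` -/
noncomputable def gl (y : ℝ) : ℝ := -log (1 - exp (-y))

/-- the logarithm of the generating function -/
noncomputable def LZ (V : ℕ) (x : ℝ) : ℝ := ∑ i : Fin V, gl (x * tr (i + 1))

theorem one_sub_exp_pos {y : ℝ} (hy : 0 < y) : 0 < 1 - exp (-y) := by
  have : exp (-y) < 1 := by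
    rw [exp_lt_one_iff]
    linarith
  linarith

theorem tr_real_pos {v : ℕ} (hv : 1 ≤ v) : (1 : ℝ) ≤ tr v := by
  exact_mod_cast tr_pos hv

theorem ZZ_eq {V : ℕ} {x : ℝ} (hx : 0 < x) : ZZ V x = exp (LZ V x) := by
  unfold ZZ LZ
  rw [exp_sum]
  refine Finset.prod_congr rfl (fun i _ => ?_)
  unfold gl
  have h1 := tr_real_pos (v := i + 1) (by omega)
  rw [Real.exp_neg (Real.log _), exp_log (one_sub_exp_pos (by positivity))]

theorem ZZ_pos {V : ℕ} {x : ℝ} (hx : 0 < x) : 0 < ZZ V x := by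
  rw [ZZ_eq hx]
  exact exp_pos _

theorem gl_nonneg {y : ℝ} (hy : 0 < y) : 0 ≤ gl y := by
  unfold gl
  have h1 := one_sub_exp_pos hy
  have h2 : log (1 - exp (-y)) ≤ 0 := log_nonpos h1.le (by have := exp_pos (-y); linarith)
  linarith

theorem gl_anti {y z : ℝ} (hy : 0 < y) (hyz : y ≤ z) : gl z ≤ gl y := by
  unfold gl
  have h1 := one_sub_exp_pos hy
  have h2 : exp (-z) ≤ exp (-y) := exp_le_exp.mpr (by linarith)
  have h3 : log (1 - exp (-y)) ≤ log (1 - exp (-z)) := log_le_log h1 (by linarith)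
  linarith

/-- `gl y ≤ 1 / y` -/
theorem gl_le_inv {y : ℝ} (hy : 0 < y) : gl y ≤ 1 / y := by
  have h1 := one_sub_exp_pos hy
  have h2 : gl y = log (1 / (1 - exp (-y))) := by
    unfold gl
    rw [one_div, log_inv]
  rw [h2]
  have h3 : 1 / (1 - exp (-y)) ≤ 1 + 1 / y := by
    rw [div_le_iff₀ h1]
    have h4 : y + 1 ≤ exp y := add_one_le_exp y
    have h5 : exp (-y) * exp y = 1 := by rw [← exp_add]; simp
    have h6 : exp (-y) * (y + 1) ≤ 1 :=
      (mul_le_mul_of_nonneg_left h4 (exp_pos _).le).trans h5.le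
    have e1 : (1 + 1 / y) * (1 - exp (-y)) = 1 + (1 - exp (-y) * (y + 1)) / y := by
      field_simp
      ring
    rw [e1]
    have h7 : 0 ≤ (1 - exp (-y) * (y + 1)) / y := div_nonneg (by linarith) hy.le
    linarith
  calc log (1 / (1 - exp (-y))) ≤ 1 / (1 - exp (-y)) - 1 :=
        log_le_sub_one_of_pos (div_pos one_pos h1)
    _ ≤ 1 / y := by linarith

/-- `gl y ≤ log (1 + 1 / y)` -/
theorem gl_le_log {y : ℝ} (hy : 0 < y) : gl y ≤ log (1 + 1 / y) := by
  have h1 := one_sub_exp_pos hy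
  have h2 : gl y = log (1 / (1 - exp (-y))) := by
    unfold gl
    rw [one_div, log_inv]
  rw [h2]
  apply log_le_log (div_pos one_pos h1)
  rw [div_le_iff₀ h1]
  have h4 : y + 1 ≤ exp y := add_one_le_exp y
  have h5 : exp (-y) * exp y = 1 := by rw [← exp_add]; simp
  have h6 : exp (-y) * (y + 1) ≤ 1 :=
    (mul_le_mul_of_nonneg_left h4 (exp_pos _).le).trans h5.le
  have e1 : (1 + 1 / y) * (1 - exp (-y)) = 1 + (1 - exp (-y) * (y + 1)) / y := by
    field_simp
    ring
  rw [e1]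
  have h7 : 0 ≤ (1 - exp (-y) * (y + 1)) / y := div_nonneg (by linarith) hy.le
  linarith

/-- `log (1 / y) ≤ gl y` -/
theorem neg_log_le_gl {y : ℝ} (hy : 0 < y) : -log y ≤ gl y := by
  unfold gl
  have h1 := one_sub_exp_pos hy
  have h2 : 1 - exp (-y) ≤ y := by
    have := add_one_le_exp (-y)
    linarith
  have h3 := log_le_log h1 h2
  linarith

theorem LZ_nonneg {V : ℕ} {x : ℝ} (hx : 0 < x) : 0 ≤ LZ V x := by
  unfold LZ
  refine Finset.sum_nonneg (fun i _ => gl_nonneg ?_)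
  have h1 := tr_real_pos (v := i + 1) (by omega)
  positivity

theorem LZ_anti {V : ℕ} {x z : ℝ} (hx : 0 < x) (hxz : x ≤ z) : LZ V z ≤ LZ V x := by
  unfold LZ
  refine Finset.sum_le_sum (fun i _ => ?_)
  have h1 := tr_real_pos (v := i + 1) (by omega)
  exact gl_anti (by positivity) (mul_le_mul_of_nonneg_right hxz (by linarith))

theorem tr_cast (v : ℕ) : (tr v : ℝ) = v * (v + 1) / 2 := by
  have h := two_mul_tr v
  have h2 : (2 : ℝ) * tr v = v * (v + 1) := by exact_mod_cast h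
  linarith

/-- the tail of the sum of the `1 / tr v` -/
theorem sum_inv_tr (a : ℕ) (ha : 1 ≤ a) (V : ℕ) :
    ∑ v ∈ Finset.Ico a V, 1 / (tr (v + 1) : ℝ) ≤ 2 / a := by
  have h1 : ∀ W, a ≤ W → ∑ v ∈ Finset.Ico a W, 1 / (tr (v + 1) : ℝ) = 2 / (a + 1) - 2 / (W + 1) := by
    intro W hW
    induction W, hW using Nat.le_induction with
    | base => simp
    | succ W hW ih =>
      rw [Finset.sum_Ico_succ_top hW, ih, tr_cast]
      push_cast
      have h2 : (0 : ℝ) < a := by exact_mod_cast ha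
      field_simp
      ring
  have h0 : (0 : ℝ) < a := by exact_mod_cast ha
  rcases Nat.lt_or_ge V a with hV | hV
  · rw [Finset.Ico_eq_empty (by omega), Finset.sum_empty]
    positivity
  · rw [h1 V hV]
    have h2 : (0 : ℝ) ≤ 2 / (V + 1) := by positivity
    have h3 : (2 : ℝ) / (a + 1) ≤ 2 / a := div_le_div_of_nonneg_left (by norm_num) h0 (by linarith)
    linarith

/-- upper bound for the logarithm of the generating function -/
theorem LZ_le {V : ℕ} {x : ℝ} (hx : 0 < x) {a : ℕ} (ha : 1 ≤ a) :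
    LZ V x ≤ a * log (1 + 1 / x) + 2 / (a * x) := by
  unfold LZ
  rw [Fin.sum_univ_eq_sum_range (fun i => gl (x * tr (i + 1))) V]
  have hpos : ∀ i : ℕ, 0 < x * tr (i + 1) := fun i => by
    have h1 := tr_real_pos (v := i + 1) (by omega)
    positivity
  have h1 : ∑ i ∈ Finset.range V, gl (x * tr (i + 1)) ≤
      ∑ i ∈ Finset.range a, gl (x * tr (i + 1)) + ∑ i ∈ Finset.Ico a V, gl (x * tr (i + 1)) := by
    rcases Nat.lt_or_ge V a with hV | hV
    · rw [Finset.Ico_eq_empty (by omega), Finset.sum_empty, add_zero]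
      exact Finset.sum_le_sum_of_subset_of_nonneg (Finset.range_subset_range.mpr hV.le)
        (fun i _ _ => gl_nonneg (hpos i))
    · rw [Finset.sum_range_add_sum_Ico _ hV]
  refine h1.trans (add_le_add ?_ ?_)
  · calc ∑ i ∈ Finset.range a, gl (x * tr (i + 1))
        ≤ ∑ _i ∈ Finset.range a, log (1 + 1 / x) := by
          refine Finset.sum_le_sum (fun i _ => ?_)
          refine (gl_anti hx ?_).trans (gl_le_log hx)
          have h2 := tr_real_pos (v := i + 1) (by omega)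
          nlinarith
      _ = a * log (1 + 1 / x) := by rw [Finset.sum_const, Finset.card_range, nsmul_eq_mul]
  · calc ∑ i ∈ Finset.Ico a V, gl (x * tr (i + 1))
        ≤ ∑ i ∈ Finset.Ico a V, 1 / x * (1 / (tr (i + 1) : ℝ)) := by
          refine Finset.sum_le_sum (fun i _ => ?_)
          rw [one_div_mul_one_div]
          exact gl_le_inv (hpos i)
      _ = 1 / x * ∑ i ∈ Finset.Ico a V, 1 / (tr (i + 1) : ℝ) := by rw [Finset.mul_sum]
      _ ≤ 1 / x * (2 / a) :=
          mul_le_mul_of_nonneg_left (sum_inv_tr a ha V) (by positivity)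
      _ = 2 / (a * x) := by
          have h0 : (0 : ℝ) < a := by exact_mod_cast ha
          field_simp

/-- lower bound for the logarithm of the generating function -/
theorem le_LZ {V a : ℕ} {x : ℝ} (hx : 0 < x) (haV : a ≤ V) (ha : 4 * x * a ^ 2 ≤ 1) :
    (a : ℝ) ≤ LZ V x := by
  unfold LZ
  rw [Fin.sum_univ_eq_sum_range (fun i => gl (x * tr (i + 1))) V]
  have hpos : ∀ i : ℕ, 0 < x * tr (i + 1) := fun i => by
    have h1 := tr_real_pos (v := i + 1) (by omega)
    positivity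
  calc (a : ℝ) = ∑ _i ∈ Finset.range a, (1 : ℝ) := by simp
    _ ≤ ∑ i ∈ Finset.range a, gl (x * tr (i + 1)) := by
        refine Finset.sum_le_sum (fun i hi => ?_)
        have hi' : i + 1 ≤ a := by
          have := Finset.mem_range.mp hi
          omega
        refine le_trans ?_ (neg_log_le_gl (hpos i))
        have h1 : (tr (i + 1) : ℝ) ≤ a ^ 2 := by
          rw [tr_cast]
          have h2 : ((i + 1 : ℕ) : ℝ) ≤ a := by exact_mod_cast hi'
          have h3 : (1 : ℝ) ≤ ((i + 1 : ℕ) : ℝ) := by push_cast; linarith [Nat.cast_nonneg (α := ℝ) i]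
          nlinarith
        have h2 : x * tr (i + 1) ≤ 1 / 4 := by nlinarith
        have h3 : log (x * tr (i + 1)) ≤ log (1 / 4) := log_le_log (hpos i) h2
        have h4 : log (1 / 4 : ℝ) = -(2 * log 2) := by
          rw [one_div, log_inv]
          have : (4 : ℝ) = 2 ^ 2 := by norm_num
          rw [this, log_pow]
          norm_num
        have h5 := log_two_gt_d9
        rw [h4] at h3
        linarith
    _ ≤ ∑ i ∈ Finset.range V, gl (x * tr (i + 1)) :=
        Finset.sum_le_sum_of_subset_of_nonneg (Finset.range_subset_range.mpr haV)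
          (fun i _ _ => gl_nonneg (hpos i))

/-! ### second differences -/

/-- a sum of powers -/
theorem geom_ge {q : ℝ} (hq : 0 ≤ q) (k : ℕ) :
    ((k : ℝ) + 1) ^ 2 * q ^ k ≤ (∑ i ∈ Finset.range (k + 1), q ^ i) ^ 2 := by
  have hs : 0 ≤ sqrt q := sqrt_nonneg q
  have hsq : sqrt q ^ 2 = q := sq_sqrt hq
  have h1 : ∑ i ∈ Finset.range (k + 1), q ^ i = ∑ i ∈ Finset.range (k + 1), q ^ (k - i) := by
    rw [← Finset.sum_range_reflect]
    refine Finset.sum_congr rfl (fun i _ => ?_)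
    congr 1
  have h2 : ∀ i ∈ Finset.range (k + 1), 2 * sqrt q ^ k ≤ q ^ i + q ^ (k - i) := by
    intro i hi
    have hi' : i ≤ k := by
      have := Finset.mem_range.mp hi
      omega
    have e1 : sqrt q ^ k = sqrt q ^ i * sqrt q ^ (k - i) := by
      rw [← pow_add]
      congr 1
      omega
    have e2 : q ^ i = (sqrt q ^ i) ^ 2 := by rw [← pow_mul, mul_comm, pow_mul, hsq]
    have e3 : q ^ (k - i) = (sqrt q ^ (k - i)) ^ 2 := by rw [← pow_mul, mul_comm, pow_mul, hsq]
    rw [e1, e2, e3]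
    nlinarith [sq_nonneg (sqrt q ^ i - sqrt q ^ (k - i))]
  have h3 := Finset.sum_le_sum h2
  rw [Finset.sum_const, Finset.card_range, Finset.sum_add_distrib, ← h1, nsmul_eq_mul] at h3
  have h4 : ((k : ℝ) + 1) * sqrt q ^ k ≤ ∑ i ∈ Finset.range (k + 1), q ^ i := by
    push_cast at h3
    linarith
  have h5 : (((k : ℝ) + 1) * sqrt q ^ k) ^ 2 ≤ (∑ i ∈ Finset.range (k + 1), q ^ i) ^ 2 :=
    pow_le_pow_left₀ (by positivity) h4 2
  have e4 : (((k : ℝ) + 1) * sqrt q ^ k) ^ 2 = ((k : ℝ) + 1) ^ 2 * q ^ k := by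
    rw [mul_pow, ← pow_mul, mul_comm k 2, pow_mul, hsq]
  rw [e4] at h5
  exact h5

/-- the second difference of `gl` -/
theorem gl_second {h : ℝ} (hh : 0 < h) {k : ℕ} (hk : 1 ≤ k) :
    gl (k * h) + gl ((k + 2) * h) - 2 * gl ((k + 1) * h) ≤ 2 / ((k : ℝ) + 1) ^ 2 ∧
    gl (k * h) + gl ((k + 2) * h) - 2 * gl ((k + 1) * h) ≤ 2 * exp (-(k * h)) := by
  have hk' : (1 : ℝ) ≤ k := by exact_mod_cast hk
  obtain ⟨q, hq⟩ : ∃ q, q = exp (-h) := ⟨_, rfl⟩
  have hq0 : 0 < q := by rw [hq]; exact exp_pos _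
  have hq1 : q < 1 := by
    rw [hq, exp_lt_one_iff]
    linarith
  have ek : exp (-(k * h)) = q ^ k := by
    rw [hq, ← exp_nat_mul]
    congr 1
    ring
  have ek1 : exp (-((k + 1) * h)) = q ^ (k + 1) := by
    rw [hq, ← exp_nat_mul]
    congr 1
    push_cast
    ring
  have ek2 : exp (-((k + 2) * h)) = q ^ (k + 2) := by
    rw [hq, ← exp_nat_mul]
    congr 1
    push_cast
    ring
  have hA : 0 < 1 - q ^ k := by
    have := pow_lt_one₀ hq0.le hq1 (by omega : k ≠ 0)
    linarith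
  have hB : 0 < 1 - q ^ (k + 2) := by
    have := pow_lt_one₀ hq0.le hq1 (by omega : k + 2 ≠ 0)
    linarith
  have hC : 0 < 1 - q ^ (k + 1) := by
    have := pow_lt_one₀ hq0.le hq1 (by omega : k + 1 ≠ 0)
    linarith
  obtain ⟨S, hS⟩ : ∃ S, S = ∑ i ∈ Finset.range (k + 1), q ^ i := ⟨_, rfl⟩
  have hS1 : 1 ≤ S := by
    rw [hS, Finset.sum_range_succ']
    have : 0 ≤ ∑ i ∈ Finset.range k, q ^ (i + 1) :=
      Finset.sum_nonneg (fun i _ => by positivity)
    simpa using this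
  have hCS : 1 - q ^ (k + 1) = (1 - q) * S := by
    rw [hS, mul_comm]
    have := geom_sum_mul q (k + 1)
    linarith
  obtain ⟨ρ, hρ⟩ : ∃ ρ, ρ = q ^ k / S ^ 2 := ⟨_, rfl⟩
  have hρ0 : 0 ≤ ρ := by rw [hρ]; positivity
  have hρ1 : ρ ≤ q ^ k := by
    rw [hρ]
    apply div_le_self (by positivity)
    nlinarith
  have hρ2 : ρ ≤ 1 / ((k : ℝ) + 1) ^ 2 := by
    rw [hρ, div_le_div_iff₀ (by positivity) (by positivity)]
    have := geom_ge hq0.le k
    rw [← hS] at this
    linarith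
  have hρ3 : ρ ≤ 1 / 4 := by
    refine hρ2.trans ?_
    rw [div_le_div_iff₀ (by positivity) (by norm_num)]
    nlinarith
  have hprod : (1 - q ^ k) * (1 - q ^ (k + 2)) = (1 - q ^ (k + 1)) ^ 2 * (1 - ρ) := by
    have h1 : (1 - q ^ (k + 1)) ^ 2 * ρ = q ^ k * (1 - q) ^ 2 := by
      rw [hρ, hCS]
      have : S ^ 2 ≠ 0 := by positivity
      field_simp
    have h2 : (1 - q ^ (k + 1)) ^ 2 * (1 - ρ) = (1 - q ^ (k + 1)) ^ 2 - q ^ k * (1 - q) ^ 2 := by
      rw [mul_sub, mul_one, h1]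
    rw [h2]
    ring
  have hlog : gl (k * h) + gl ((k + 2) * h) - 2 * gl ((k + 1) * h) = -log (1 - ρ) := by
    unfold gl
    rw [ek, ek1, ek2]
    have h1 := congrArg log hprod
    rw [log_mul hA.ne' hB.ne', log_mul (by positivity) (by linarith), log_pow] at h1
    push_cast at h1
    linarith
  have h2 : -log (1 - ρ) ≤ 2 * ρ := by
    have h3 : (0 : ℝ) < 1 - ρ := by linarith
    have h4 : -log (1 - ρ) = log (1 / (1 - ρ)) := by rw [one_div, log_inv]
    rw [h4]
    refine (log_le_sub_one_of_pos (by positivity)).trans ?_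
    have h5 : 1 / (1 - ρ) ≤ 1 + 2 * ρ := by
      rw [div_le_iff₀ h3]
      nlinarith
    linarith
  rw [hlog, ek]
  constructor
  · calc -log (1 - ρ) ≤ 2 * ρ := h2
      _ ≤ 2 * (1 / ((k : ℝ) + 1) ^ 2) := by linarith
      _ = 2 / ((k : ℝ) + 1) ^ 2 := by ring
  · linarith

end Pool.Agent.Work.MP_0421d9_ag.AA
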