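import Pool.Agent.Work.MP_0421d9_ag.AA1
import Pool.Agent.Work.MP_0421d9_ag.AA2
import Pool.Agent.Work.MP_0421d9_ag.AA3

/-!
Counting multisets of multiplicities: lower bound for their number by the generating function at
the saddle point.
-/

namespace Pool.Agent.Work.MP_0421d9_ag.AA

open Real

/-- the second difference of the logarithm of the generating function -/
theorem LZ_second {V : ℕ} {lam : ℝ} (hl : 0 < lam) {k : ℕ} (hk : 1 ≤ k) (v : ℕ) :
    LZ V (k * lam) + LZ V ((k + 2) * lam) - 2 * LZ V ((k + 1) * lam) ≤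
      v * (2 / ((k : ℝ) + 1) ^ 2) + V * (2 * exp (-(k * lam * tr (v + 1)))) := by
  have hk0 : (0 : ℝ) < k := by exact_mod_cast (by omega : 0 < k)
  unfold LZ
  rw [← Finset.sum_add_distrib, Finset.mul_sum, ← Finset.sum_sub_distrib]
  rw [Fin.sum_univ_eq_sum_range (fun i => gl (k * lam * tr (i + 1)) +
    gl ((k + 2) * lam * tr (i + 1)) - 2 * gl ((k + 1) * lam * tr (i + 1))) V]
  have hterm : ∀ i : ℕ, gl (k * lam * tr (i + 1)) +
      gl ((k + 2) * lam * tr (i + 1)) - 2 * gl ((k + 1) * lam * tr (i + 1)) ≤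
      2 / ((k : ℝ) + 1) ^ 2 ∧ gl (k * lam * tr (i + 1)) +
      gl ((k + 2) * lam * tr (i + 1)) - 2 * gl ((k + 1) * lam * tr (i + 1)) ≤
      2 * exp (-(k * lam * tr (i + 1))) := by
    intro i
    have h1 := tr_real_pos (v := i + 1) (by omega)
    have h2 := gl_second (h := lam * tr (i + 1)) (by positivity) hk
    rw [mul_assoc, mul_assoc, mul_assoc]
    exact h2
  have hexp : ∀ i : ℕ, v ≤ i → 2 * exp (-(k * lam * tr (i + 1))) ≤
      2 * exp (-(k * lam * tr (v + 1))) := by
    intro i hi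
    have h1 : (tr (v + 1) : ℝ) ≤ tr (i + 1) := by
      exact_mod_cast Nat.choose_le_choose 2 (by omega)
    have h2 : k * lam * tr (v + 1) ≤ k * lam * tr (i + 1) :=
      mul_le_mul_of_nonneg_left h1 (by positivity)
    have h3 : exp (-(k * lam * tr (i + 1))) ≤ exp (-(k * lam * tr (v + 1))) :=
      exp_le_exp.mpr (by linarith)
    linarith
  have hsplit : ∀ i ∈ Finset.range V, gl (k * lam * tr (i + 1)) +
      gl ((k + 2) * lam * tr (i + 1)) - 2 * gl ((k + 1) * lam * tr (i + 1)) ≤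
      (if i < v then 2 / ((k : ℝ) + 1) ^ 2 else 0) + 2 * exp (-(k * lam * tr (v + 1))) := by
    intro i _
    have h0 : 0 < exp (-(k * lam * tr (v + 1))) := exp_pos _
    split_ifs with h
    · have := (hterm i).1
      linarith
    · have h1 := (hterm i).2
      have h2 := hexp i (by omega)
      linarith
  refine (Finset.sum_le_sum hsplit).trans ?_
  rw [Finset.sum_add_distrib, Finset.sum_const, Finset.card_range, nsmul_eq_mul]
  refine add_le_add ?_ le_rfl
  rw [← Finset.sum_filter, Finset.sum_const, nsmul_eq_mul]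
  refine mul_le_mul_of_nonneg_right ?_ (by positivity)
  have h1 : ((Finset.range V).filter (fun i => i < v)).card ≤ v := by
    calc ((Finset.range V).filter (fun i => i < v)).card ≤ (Finset.range v).card := by
          apply Finset.card_le_card
          intro i hi
          rw [Finset.mem_filter] at hi
          exact Finset.mem_range.mpr hi.2
      _ = v := Finset.card_range v
  exact_mod_cast h1

/-- the exponent -/
noncomputable def Fx (V : ℕ) (lam c : ℝ) (j : ℕ) : ℝ := LZ V (j * lam) + j * lam * c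

/-- the discrete saddle point -/
theorem exists_saddle (V : ℕ) {lam c : ℝ} (hl : 0 < lam) (hc : 0 < c) :
    ∃ j : ℕ, 1 ≤ j ∧ ∀ i : ℕ, 1 ≤ i → Fx V lam c j ≤ Fx V lam c i := by
  obtain ⟨J, hJ⟩ := exists_nat_gt (Fx V lam c 1 / (lam * c))
  obtain ⟨j, hj, hmin⟩ := Finset.exists_min_image (Finset.Icc 1 (J + 1)) (Fx V lam c)
    ⟨1, Finset.mem_Icc.mpr ⟨le_rfl, by omega⟩⟩
  have hj' := Finset.mem_Icc.mp hj
  refine ⟨j, hj'.1, fun i hi => ?_⟩
  rcases Nat.lt_or_ge (J + 1) i with h | h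
  · have h1 := hmin 1 (Finset.mem_Icc.mpr ⟨le_rfl, by omega⟩)
    have h2 : Fx V lam c 1 < J * (lam * c) := by
      rwa [div_lt_iff₀ (by positivity)] at hJ
    have h3 : (J : ℝ) * (lam * c) ≤ i * (lam * c) :=
      mul_le_mul_of_nonneg_right (by exact_mod_cast (by omega : J ≤ i)) (by positivity)
    have h4 : (i : ℝ) * lam * c ≤ Fx V lam c i := by
      unfold Fx
      have h5 : 0 ≤ LZ V (i * lam) := by
        apply LZ_nonneg
        have : (0 : ℝ) < i := by exact_mod_cast hi
        positivity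
      linarith
    have e1 : (i : ℝ) * (lam * c) = i * lam * c := by ring
    linarith
  · exact hmin i (Finset.mem_Icc.mpr ⟨hi, h⟩)

theorem sum_wt_le {V : ℕ} {x : ℝ} (hx : 0 < x) (A : Finset (Fin V → ℕ)) :
    ∑ f ∈ A, exp (-(x * wt f)) ≤ ZZ V x := by
  have h := sum_le_prod (V := V) (fun i => x * tr (i + 1)) (fun i => by
    have h1 := tr_real_pos (v := i + 1) (by omega)
    positivity) A
  unfold ZZ
  refine le_trans (le_of_eq (Finset.sum_congr rfl (fun f _ => ?_))) h
  rw [wt_cast]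

/-- **Lower bound for the number of configurations.** -/
theorem count_lower {V n k : ℕ} {K lam : ℝ} (hK : 0 < K) (hlam : lam * K = 3) (hk : 1 ≤ k)
    (hmin : ∀ i : ℕ, 1 ≤ i → Fx V lam (n - K) (k + 1) ≤ Fx V lam (n - K) i)
    (hε : LZ V (k * lam) + LZ V ((k + 2) * lam) - 2 * LZ V ((k + 1) * lam) ≤ 1 / 2) :
    1 / 2 * exp ((k + 1) * lam * (n - 2 * K)) * ZZ V ((k + 1) * lam) ≤ (FF V n).card := by
  classical
  have hl : 0 < lam := by
    by_contra hcon
    push Not at hcon
    nlinarith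
  have hk0 : (1 : ℝ) ≤ k := by exact_mod_cast hk
  obtain ⟨x, hx⟩ : ∃ x, x = ((k : ℝ) + 1) * lam := ⟨_, rfl⟩
  have hx0 : 0 < x := by rw [hx]; positivity
  have hxm : (k : ℝ) * lam = x - lam := by rw [hx]; ring
  have hxp : ((k : ℝ) + 2) * lam = x + lam := by rw [hx]; ring
  have hxm0 : 0 < x - lam := by rw [← hxm]; positivity
  rw [hxm, hxp, ← hx] at hε
  rw [← hx]
  -- minimality
  have m1 := hmin k hk
  have m2 := hmin (k + 2) (by omega)
  unfold Fx at m1 m2
  push_cast at m1 m2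
  rw [hxm, ← hx] at m1
  rw [hxp, ← hx] at m2
  have n1 : LZ V (x - lam) ≤ LZ V x + lam * (n - K) + 1 / 2 := by linarith
  have n2 : LZ V (x + lam) ≤ LZ V x - lam * (n - K) + 1 / 2 := by linarith
  -- the box
  obtain ⟨L0, hL0⟩ := prod_le_sum (V := V) (fun i => x * tr (i + 1)) (fun i => by
    have h1 := tr_real_pos (v := i + 1) (by omega)
    positivity) (δ := 1 / 10) (by norm_num)
  have hbox := hL0 L0 le_rfl
  obtain ⟨Bx, hBx⟩ : ∃ Bx, Bx = Fintype.piFinset (fun _ : Fin V => Finset.range L0) := ⟨_, rfl⟩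
  rw [← hBx] at hbox
  have hbox' : ZZ V x * (1 - 1 / 10) ≤ ∑ f ∈ Bx, exp (-(x * wt f)) := by
    refine le_trans hbox (le_of_eq (Finset.sum_congr rfl (fun f _ => ?_)))
    rw [wt_cast]
  have hZ := ZZ_pos (V := V) hx0
  have hexp3 : exp (-(5 / 2) : ℝ) ≤ 1 / 10 := by
    have h1 : (10 : ℝ) ≤ exp (5 / 2) := by
      have h2 := Real.exp_one_gt_d9
      have h3 : exp (5 / 2) = exp 1 * exp 1 * exp (1 / 2) := by
        rw [← exp_add, ← exp_add]; norm_num
      have h4 : (1 + 1 / 2 : ℝ) ≤ exp (1 / 2) := by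
        have := add_one_le_exp (1 / 2 : ℝ)
        linarith
      rw [h3]
      have h5 : (7 : ℝ) ≤ exp 1 * exp 1 := by nlinarith
      nlinarith
    rw [exp_neg, ← one_div, div_le_div_iff₀ (exp_pos _) (by norm_num)]
    linarith
  -- large configurations
  have hbig : ∑ f ∈ Bx.filter (fun f => (n : ℝ) < wt f), exp (-(x * wt f)) ≤
      1 / 10 * ZZ V x := by
    calc ∑ f ∈ Bx.filter (fun f => (n : ℝ) < wt f), exp (-(x * wt f))
        ≤ ∑ f ∈ Bx.filter (fun f => (n : ℝ) < wt f),
            exp (-(lam * n)) * exp (-((x - lam) * wt f)) := by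
          refine Finset.sum_le_sum (fun f hf => ?_)
          rw [← exp_add]
          apply exp_le_exp.mpr
          have h1 := (Finset.mem_filter.mp hf).2
          nlinarith
      _ = exp (-(lam * n)) * ∑ f ∈ Bx.filter (fun f => (n : ℝ) < wt f),
            exp (-((x - lam) * wt f)) := by rw [Finset.mul_sum]
      _ ≤ exp (-(lam * n)) * ZZ V (x - lam) :=
          mul_le_mul_of_nonneg_left (sum_wt_le hxm0 _) (exp_pos _).le
      _ ≤ exp (-(5 / 2)) * ZZ V x := by
          rw [ZZ_eq hxm0, ZZ_eq hx0, ← exp_add, ← exp_add]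
          apply exp_le_exp.mpr
          linarith
      _ ≤ 1 / 10 * ZZ V x := mul_le_mul_of_nonneg_right hexp3 hZ.le
  -- small configurations
  have hsmall : ∑ f ∈ Bx.filter (fun f => (wt f : ℝ) < n - 2 * K), exp (-(x * wt f)) ≤
      1 / 10 * ZZ V x := by
    calc ∑ f ∈ Bx.filter (fun f => (wt f : ℝ) < n - 2 * K), exp (-(x * wt f))
        ≤ ∑ f ∈ Bx.filter (fun f => (wt f : ℝ) < n - 2 * K),
            exp (lam * (n - 2 * K)) * exp (-((x + lam) * wt f)) := by
          refine Finset.sum_le_sum (fun f hf => ?_)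
          rw [← exp_add]
          apply exp_le_exp.mpr
          have h1 := (Finset.mem_filter.mp hf).2
          nlinarith
      _ = exp (lam * (n - 2 * K)) * ∑ f ∈ Bx.filter (fun f => (wt f : ℝ) < n - 2 * K),
            exp (-((x + lam) * wt f)) := by rw [Finset.mul_sum]
      _ ≤ exp (lam * (n - 2 * K)) * ZZ V (x + lam) :=
          mul_le_mul_of_nonneg_left (sum_wt_le (by linarith) _) (exp_pos _).le
      _ ≤ exp (-(5 / 2)) * ZZ V x := by
          rw [ZZ_eq (by linarith : 0 < x + lam), ZZ_eq hx0, ← exp_add, ← exp_add]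
          apply exp_le_exp.mpr
          linarith
      _ ≤ 1 / 10 * ZZ V x := mul_le_mul_of_nonneg_right hexp3 hZ.le
  -- the middle
  obtain ⟨Md, hMd⟩ : ∃ Md, Md = Bx.filter (fun f => (n : ℝ) - 2 * K ≤ wt f ∧ (wt f : ℝ) ≤ n) :=
    ⟨_, rfl⟩
  have hsum : ∑ f ∈ Bx, exp (-(x * wt f)) ≤ ∑ f ∈ Md, exp (-(x * wt f)) +
      (∑ f ∈ Bx.filter (fun f => (n : ℝ) < wt f), exp (-(x * wt f)) +
      ∑ f ∈ Bx.filter (fun f => (wt f : ℝ) < n - 2 * K), exp (-(x * wt f))) := by
    rw [hMd, Finset.sum_filter, Finset.sum_filter, Finset.sum_filter, ← Finset.sum_add_distrib,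
      ← Finset.sum_add_distrib]
    refine Finset.sum_le_sum (fun f _ => ?_)
    have h0 := exp_pos (-(x * wt f))
    by_cases h1 : (n : ℝ) < wt f
    · rw [if_pos h1]
      split_ifs <;> linarith
    · by_cases h2 : (wt f : ℝ) < n - 2 * K
      · rw [if_pos h2]
        split_ifs <;> linarith
      · push Not at h1 h2
        rw [if_pos ⟨h2, h1⟩]
        split_ifs <;> linarith
  have hmid : 1 / 2 * ZZ V x ≤ ∑ f ∈ Md, exp (-(x * wt f)) := by linarith
  have hcard : (Md.card : ℝ) ≤ (FF V n).card := by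
    have h1 : Md.card ≤ (FF V n).card := by
      apply Finset.card_le_card
      intro f hf
      rw [hMd, Finset.mem_filter] at hf
      rw [mem_FF]
      exact_mod_cast hf.2.2
    exact_mod_cast h1
  have hup : ∑ f ∈ Md, exp (-(x * wt f)) ≤ Md.card * exp (-(x * (n - 2 * K))) := by
    rw [← nsmul_eq_mul]
    apply Finset.sum_le_card_nsmul
    intro f hf
    rw [hMd, Finset.mem_filter] at hf
    apply exp_le_exp.mpr
    have := mul_le_mul_of_nonneg_left hf.2.1 hx0.le
    linarith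
  have h1 : 1 / 2 * ZZ V x ≤ (FF V n).card * exp (-(x * (n - 2 * K))) :=
    hmid.trans (hup.trans (mul_le_mul_of_nonneg_right hcard (exp_pos _).le))
  have h2 : exp (x * (n - 2 * K)) * exp (-(x * (n - 2 * K))) = 1 := by
    rw [← exp_add]
    simp
  have h3 := mul_le_mul_of_nonneg_left h1 (exp_pos (x * (n - 2 * K))).le
  calc 1 / 2 * exp (x * (n - 2 * K)) * ZZ V x = exp (x * (n - 2 * K)) * (1 / 2 * ZZ V x) := by ring
    _ ≤ exp (x * (n - 2 * K)) * ((FF V n).card * exp (-(x * (n - 2 * K)))) := h3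
    _ = (FF V n).card * (exp (x * (n - 2 * K)) * exp (-(x * (n - 2 * K)))) := by ring
    _ = (FF V n).card := by rw [h2, mul_one]

end Pool.Agent.Work.MP_0421d9_ag.AA
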