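import Pool.Agent.Work.MP_0421d9_ag.AA4

/-!
Counting multisets of multiplicities: the saddle point for a large number of conditions.
-/

namespace Pool.Agent.Work.MP_0421d9_ag.AA

open Real Filter

/-- comparison of powers -/
theorem ev_rpow {a b : ℝ} (hab : a < b) (C : ℝ) :
    ∀ᶠ n : ℕ in atTop, C * (n : ℝ) ^ a ≤ (n : ℝ) ^ b := by
  have h1 : Tendsto (fun n : ℕ => (n : ℝ) ^ (b - a)) atTop atTop :=
    (tendsto_rpow_atTop (by linarith)).comp tendsto_natCast_atTop_atTop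
  filter_upwards [h1.eventually_ge_atTop C, eventually_gt_atTop 0] with n hn h0
  have h0' : (0 : ℝ) < n := by exact_mod_cast h0
  have e1 : (n : ℝ) ^ b = (n : ℝ) ^ (b - a) * (n : ℝ) ^ a := by
    rw [← rpow_add h0']
    congr 1
    ring
  rw [e1]
  exact mul_le_mul_of_nonneg_right hn (rpow_nonneg h0'.le a)

/-- powers are large -/
theorem ev_const {b : ℝ} (hb : 0 < b) (C : ℝ) : ∀ᶠ n : ℕ in atTop, C ≤ (n : ℝ) ^ b := by
  have := ev_rpow hb C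
  simpa using this

/-- powers and logarithms -/
theorem ev_log {b : ℝ} (hb : 0 < b) (C : ℝ) :
    ∀ᶠ n : ℕ in atTop, C * log (n : ℝ) ≤ (n : ℝ) ^ b := by
  have h1 : (fun x : ℝ => log x) =o[atTop] (fun x => x ^ b) := isLittleO_log_rpow_atTop hb
  have h2 := h1.comp_tendsto tendsto_natCast_atTop_atTop
  have h3 := h2.def (c := 1 / (|C| + 1)) (by positivity)
  filter_upwards [h3, eventually_ge_atTop 1] with n hn h0
  have h0' : (1 : ℝ) ≤ n := by exact_mod_cast h0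
  have hlog : 0 ≤ log (n : ℝ) := log_nonneg h0'
  simp only [Function.comp_apply, norm_eq_abs] at hn
  rw [abs_of_nonneg hlog, abs_of_nonneg (rpow_nonneg (by linarith) b), div_mul_eq_mul_div, one_mul,
    le_div_iff₀ (by positivity)] at hn
  calc C * log (n : ℝ) ≤ |C| * log n := mul_le_mul_of_nonneg_right (le_abs_self C) hlog
    _ ≤ log n * (|C| + 1) := by nlinarith
    _ ≤ (n : ℝ) ^ b := hn

/-- exponentials beat powers -/
theorem ev_exp {b c : ℝ} (hb : 0 < b) (hc : 0 < c) (a C : ℝ) :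
    ∀ᶠ n : ℕ in atTop, (n : ℝ) ^ a * exp (-(c * (n : ℝ) ^ b)) ≤ exp (-C) := by
  filter_upwards [ev_log (half_pos hb) (|a| / c), ev_rpow (show b / 2 < b by linarith) 2,
    ev_const hb (2 * C / c), eventually_ge_atTop 1] with n h1 h2 h3 h0
  have h0' : (1 : ℝ) ≤ n := by exact_mod_cast h0
  have h4 : (n : ℝ) ^ a = exp (a * log n) := by
    rw [rpow_def_of_pos (by linarith)]
    ring_nf
  rw [h4, ← exp_add]
  apply exp_le_exp.mpr
  have hlog : 0 ≤ log (n : ℝ) := log_nonneg h0'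
  have h5 : a * log n ≤ |a| * log n := mul_le_mul_of_nonneg_right (le_abs_self a) hlog
  have h6 : |a| * log n = c * (|a| / c * log n) := by field_simp
  have h7 : c * (|a| / c * log n) ≤ c * (n : ℝ) ^ (b / 2) := mul_le_mul_of_nonneg_left h1 hc.le
  have h8 : c * (2 * (n : ℝ) ^ (b / 2)) ≤ c * (n : ℝ) ^ b := mul_le_mul_of_nonneg_left h2 hc.le
  have h9 : c * (2 * C / c) ≤ c * (n : ℝ) ^ b := mul_le_mul_of_nonneg_left h3 hc.le
  have h10 : c * (2 * C / c) = 2 * C := by field_simp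
  linarith

/-- the value of the exponent at a comparison point -/
theorem Fx_le : ∀ᶠ n : ℕ in atTop, ∀ lam c : ℝ, 0 < lam → lam ≤ (n : ℝ) ^ (-(2 / 3) : ℝ) →
    0 ≤ c → c ≤ n → ∃ i : ℕ, 1 ≤ i ∧ Fx n lam c i ≤ (n : ℝ) ^ (1 / 3 + 1 / 2000 : ℝ) / 8 := by
  filter_upwards [ev_log (show (0 : ℝ) < 1 / 2000 by norm_num) 64,
    ev_const (show (0 : ℝ) < 1 / 2000 by norm_num) 96, eventually_ge_atTop 2] with n h1 h2 h0
  intro lam c hl hlx hc0 hc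
  have h0' : (2 : ℝ) ≤ n := by exact_mod_cast h0
  have hN : (0 : ℝ) < n := by linarith
  obtain ⟨x0, hx0⟩ : ∃ x0, x0 = (n : ℝ) ^ (-(2 / 3) : ℝ) := ⟨_, rfl⟩
  rw [← hx0] at hlx
  have hx0p : 0 < x0 := by rw [hx0]; positivity
  obtain ⟨i, hi1, hi2⟩ : ∃ i : ℕ, x0 ≤ i * lam ∧ i * lam ≤ 2 * x0 := by
    refine ⟨⌈x0 / lam⌉₊, ?_, ?_⟩
    · have h3 := Nat.le_ceil (x0 / lam)
      rwa [div_le_iff₀ hl] at h3
    · have h3 := (Nat.ceil_lt_add_one (show 0 ≤ x0 / lam by positivity)).le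
      have h4 := mul_le_mul_of_nonneg_right h3 hl.le
      have h5 : (x0 / lam + 1) * lam = x0 + lam := by field_simp
      linarith
  have hi0 : 1 ≤ i := by
    by_contra hcon
    have h3 : i = 0 := by omega
    rw [h3] at hi1
    simp only [Nat.cast_zero, zero_mul] at hi1
    linarith
  refine ⟨i, hi0, ?_⟩
  unfold Fx
  have h3 : LZ n (i * lam) ≤ LZ n x0 := LZ_anti hx0p hi1
  obtain ⟨a, ha⟩ : ∃ a : ℕ, a = ⌈(n : ℝ) ^ (1 / 3 : ℝ)⌉₊ := ⟨_, rfl⟩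
  have hp1 : (1 : ℝ) ≤ (n : ℝ) ^ (1 / 3 : ℝ) := one_le_rpow (by linarith) (by norm_num)
  have ha1 : (n : ℝ) ^ (1 / 3 : ℝ) ≤ a := by rw [ha]; exact Nat.le_ceil _
  have ha2 : (a : ℝ) ≤ 2 * (n : ℝ) ^ (1 / 3 : ℝ) := by
    have h4 := (Nat.ceil_lt_add_one (show (0 : ℝ) ≤ (n : ℝ) ^ (1 / 3 : ℝ) by positivity)).le
    rw [← ha] at h4
    linarith
  have ha0 : 1 ≤ a := by
    have : (1 : ℝ) ≤ a := hp1.trans ha1
    exact_mod_cast this
  have h4 := LZ_le (V := n) hx0p ha0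
  have hinv : 1 / x0 = (n : ℝ) ^ (2 / 3 : ℝ) := by
    rw [hx0, rpow_neg hN.le, one_div, inv_inv]
  have hlog : log (1 + 1 / x0) ≤ 2 * log n := by
    have h5 : 1 + 1 / x0 ≤ (n : ℝ) ^ (2 : ℝ) := by
      rw [hinv]
      have h6 : (n : ℝ) ^ (2 / 3 : ℝ) ≤ (n : ℝ) ^ (1 : ℝ) :=
        rpow_le_rpow_of_exponent_le (by linarith) (by norm_num)
      rw [rpow_one] at h6
      have h7 : (n : ℝ) ^ (2 : ℝ) = n * n := by
        rw [show (2 : ℝ) = 1 + 1 by norm_num, rpow_add hN, rpow_one]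
      rw [h7]
      nlinarith
    have h6 := log_le_log (by positivity) h5
    rwa [log_rpow hN] at h6
  have hax : (n : ℝ) ^ (-(1 / 3) : ℝ) ≤ a * x0 := by
    have h5 : (n : ℝ) ^ (-(1 / 3) : ℝ) = (n : ℝ) ^ (1 / 3 : ℝ) * x0 := by
      rw [hx0, ← rpow_add hN]
      norm_num
    rw [h5]
    exact mul_le_mul_of_nonneg_right ha1 hx0p.le
  have h5 : 2 / (a * x0) ≤ 2 * (n : ℝ) ^ (1 / 3 : ℝ) := by
    have h6 : (n : ℝ) ^ (1 / 3 : ℝ) = 1 / (n : ℝ) ^ (-(1 / 3) : ℝ) := by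
      rw [rpow_neg hN.le]
      exact ((one_div _).trans (inv_inv _)).symm
    rw [h6]
    have h7 : (0 : ℝ) < (n : ℝ) ^ (-(1 / 3) : ℝ) := by positivity
    calc 2 / (a * x0) ≤ 2 / (n : ℝ) ^ (-(1 / 3) : ℝ) :=
          div_le_div_of_nonneg_left (by norm_num) h7 hax
      _ = 2 * (1 / (n : ℝ) ^ (-(1 / 3) : ℝ)) := by ring
  have h6 : (i : ℝ) * lam * c ≤ 2 * (n : ℝ) ^ (1 / 3 : ℝ) := by
    have h7 : 2 * x0 * n = 2 * (n : ℝ) ^ (1 / 3 : ℝ) := by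
      rw [hx0, mul_assoc]
      congr 1
      nth_rewrite 2 [← rpow_one (n : ℝ)]
      rw [← rpow_add hN]
      norm_num
    rw [← h7]
    have h8 : 0 ≤ (i : ℝ) * lam := by positivity
    exact mul_le_mul hi2 hc hc0 (by positivity)
  have hlog0 : 0 ≤ log (n : ℝ) := log_nonneg (by linarith)
  have h7 : (a : ℝ) * log (1 + 1 / x0) ≤ 2 * (n : ℝ) ^ (1 / 3 : ℝ) * (2 * log n) :=
    (mul_le_mul_of_nonneg_left hlog (by positivity)).trans
      (mul_le_mul_of_nonneg_right ha2 (by positivity))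
  have h8 : (n : ℝ) ^ (1 / 3 + 1 / 2000 : ℝ) = (n : ℝ) ^ (1 / 3 : ℝ) * (n : ℝ) ^ (1 / 2000 : ℝ) :=
    rpow_add hN _ _
  rw [h8]
  have h9 : 4 * log n + 4 ≤ (n : ℝ) ^ (1 / 2000 : ℝ) / 8 := by linarith
  have h10 := mul_le_mul_of_nonneg_left h9 (show (0 : ℝ) ≤ (n : ℝ) ^ (1 / 3 : ℝ) by positivity)
  linarith

/-- **The saddle point.** -/
theorem saddle_asymp : ∀ᶠ n : ℕ in atTop, ∃ x : ℝ, (n : ℝ) ^ (-(2 / 3) - 1 / 1000 : ℝ) ≤ x ∧
    x ≤ (n : ℝ) ^ (-(2 / 3) + 1 / 1000 : ℝ) ∧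
    1 / 2 * exp (x * (n - 2 * (n : ℝ) ^ (17 / 20 : ℝ))) * ZZ n x ≤ (FF n n).card := by
  filter_upwards [Fx_le, ev_rpow (show (17 / 20 : ℝ) < 1 by norm_num) 2,
    ev_rpow (show (-(17 / 20) : ℝ) < -(2 / 3) by norm_num) 3,
    ev_rpow (show (1 / 3 + 1 / 2000 : ℝ) < 1 by norm_num) 1,
    ev_const (show (0 : ℝ) < 1 / 3 + 1 / 2000 by norm_num) 8,
    ev_const (show (0 : ℝ) < 11 / 60 - 1 / 1000 by norm_num) 6,
    ev_rpow (show (1 / 3 + 2 / 1000 : ℝ) < 11 / 30 - 2 / 1000 by norm_num) 144,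
    ev_exp (show (0 : ℝ) < 3 / 1000 by norm_num) (show (0 : ℝ) < 1 / 4 by norm_num) 1 4,
    eventually_ge_atTop 2] with n hF g1 g2 g3 g4 g5 g6 g7 h0
  have h0' : (2 : ℝ) ≤ n := by exact_mod_cast h0
  have hN : (0 : ℝ) < n := lt_of_lt_of_le two_pos h0'
  rw [rpow_one] at g1 g3
  obtain ⟨K, hK⟩ : ∃ K, K = (n : ℝ) ^ (17 / 20 : ℝ) := ⟨_, rfl⟩
  rw [← hK] at g1 ⊢
  have hK0 : 0 < K := by rw [hK]; positivity
  obtain ⟨lam, hlam⟩ : ∃ lam, lam = 3 / K := ⟨_, rfl⟩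
  have hl0 : 0 < lam := by rw [hlam]; positivity
  have hlK : lam * K = 3 := by rw [hlam]; field_simp
  have hlam' : lam = 3 * (n : ℝ) ^ (-(17 / 20) : ℝ) := by
    rw [hlam, hK, rpow_neg hN.le]
    rfl
  have hlx : lam ≤ (n : ℝ) ^ (-(2 / 3) : ℝ) := by rw [hlam']; exact g2
  obtain ⟨i, hi, hFi⟩ := hF lam (n - K) hl0 hlx (by linarith) (by linarith)
  obtain ⟨j, hj, hmin⟩ := exists_saddle n (c := n - K) hl0 (by linarith)
  have hFj := (hmin i hi).trans hFi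
  obtain ⟨T, hT⟩ : ∃ T, T = (n : ℝ) ^ (1 / 3 + 1 / 2000 : ℝ) := ⟨_, rfl⟩
  rw [← hT] at hFj g3 g4
  obtain ⟨x, hx⟩ : ∃ x, x = (j : ℝ) * lam := ⟨_, rfl⟩
  have hj0 : (1 : ℝ) ≤ j := by exact_mod_cast hj
  have hx0 : 0 < x := by rw [hx]; positivity
  unfold Fx at hFj
  rw [← hx] at hFj
  have hLZ0 := LZ_nonneg (V := n) hx0
  -- upper bound
  have hup : x ≤ (n : ℝ) ^ (-(2 / 3) + 1 / 1000 : ℝ) := by
    have h1 : x * (n / 2) ≤ x * (n - K) := mul_le_mul_of_nonneg_left (by linarith) hx0.le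
    have h2 : x * n ≤ T := by linarith
    have h3 : T = (n : ℝ) ^ (-(2 / 3) + 1 / 2000 : ℝ) * n := by
      rw [hT]
      nth_rewrite 3 [← rpow_one (n : ℝ)]
      rw [← rpow_add hN]
      norm_num
    rw [h3] at h2
    have h4 := le_of_mul_le_mul_right h2 hN
    exact h4.trans (rpow_le_rpow_of_exponent_le (by linarith) (by norm_num))
  -- lower bound
  have hlow : (n : ℝ) ^ (-(2 / 3) - 1 / 1000 : ℝ) ≤ x := by
    by_contra hcon
    push Not at hcon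
    obtain ⟨a, ha⟩ : ∃ a : ℕ, a = ⌊T / 2⌋₊ := ⟨_, rfl⟩
    have hT0 : 0 ≤ T / 2 := by linarith
    have ha1 : (a : ℝ) ≤ T / 2 := by rw [ha]; exact Nat.floor_le hT0
    have ha2 : T / 2 < a + 1 := by rw [ha]; exact Nat.lt_floor_add_one _
    have haV : a ≤ n := by
      have : (a : ℝ) ≤ n := by linarith
      exact_mod_cast this
    have h1 : 4 * x * a ^ 2 ≤ 1 := by
      have h2 : (a : ℝ) ^ 2 ≤ (T / 2) ^ 2 := pow_le_pow_left₀ (Nat.cast_nonneg _) ha1 2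
      have h3 : (n : ℝ) ^ (-(2 / 3) - 1 / 1000 : ℝ) * T ^ 2 = 1 := by
        rw [hT, ← rpow_natCast, ← rpow_mul hN.le, ← rpow_add hN]
        norm_num
      calc 4 * x * a ^ 2 ≤ 4 * (n : ℝ) ^ (-(2 / 3) - 1 / 1000 : ℝ) * (T / 2) ^ 2 := by
            apply mul_le_mul (by linarith) h2 (by positivity) (by positivity)
        _ = (n : ℝ) ^ (-(2 / 3) - 1 / 1000 : ℝ) * T ^ 2 := by ring
        _ = 1 := h3
    have h2 := le_LZ hx0 haV h1
    have h3 : 0 ≤ x * (n - K) := mul_nonneg hx0.le (by linarith)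
    linarith
  refine ⟨x, hlow, hup, ?_⟩
  -- the number `j`
  have hjx : (j : ℝ) = x * K / 3 := by
    rw [hx, mul_assoc, hlK]
    ring
  have hj1 : (n : ℝ) ^ (11 / 60 - 1 / 1000 : ℝ) / 3 ≤ j := by
    rw [hjx]
    have h1 : (n : ℝ) ^ (11 / 60 - 1 / 1000 : ℝ) = (n : ℝ) ^ (-(2 / 3) - 1 / 1000 : ℝ) * K := by
      rw [hK, ← rpow_add hN]
      norm_num
    rw [h1]
    have := mul_le_mul_of_nonneg_right hlow hK0.le
    linarith
  have hj2 : 2 ≤ j := by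
    have : (2 : ℝ) ≤ j := by linarith
    exact_mod_cast this
  obtain ⟨k, rfl⟩ : ∃ k, j = k + 1 := ⟨j - 1, by omega⟩
  have hk : 1 ≤ k := by omega
  have hxk : x = ((k : ℝ) + 1) * lam := by
    rw [hx]
    push_cast
    ring
  have hkey := count_lower (V := n) (n := n) hK0 hlK hk hmin ?_
  · rw [← hxk] at hkey
    exact hkey
  -- the second difference
  obtain ⟨v, hv⟩ : ∃ v : ℕ, v = ⌈(n : ℝ) ^ (1 / 3 + 2 / 1000 : ℝ)⌉₊ := ⟨_, rfl⟩
  have hp1 : (1 : ℝ) ≤ (n : ℝ) ^ (1 / 3 + 2 / 1000 : ℝ) :=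
    one_le_rpow (by linarith) (by norm_num)
  have hv1 : (n : ℝ) ^ (1 / 3 + 2 / 1000 : ℝ) ≤ v := by rw [hv]; exact Nat.le_ceil _
  have hv2 : (v : ℝ) ≤ 2 * (n : ℝ) ^ (1 / 3 + 2 / 1000 : ℝ) := by
    have h4 := (Nat.ceil_lt_add_one (show (0 : ℝ) ≤ (n : ℝ) ^ (1 / 3 + 2 / 1000 : ℝ) by
      positivity)).le
    rw [← hv] at h4
    linarith
  refine (LZ_second (V := n) hl0 hk v).trans ?_
  have b1 : (v : ℝ) * (2 / ((k : ℝ) + 1) ^ 2) ≤ 1 / 4 := by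
    have hk1 : (n : ℝ) ^ (11 / 60 - 1 / 1000 : ℝ) / 3 ≤ (k : ℝ) + 1 := by
      push_cast at hj1
      exact hj1
    have h1 : ((n : ℝ) ^ (11 / 60 - 1 / 1000 : ℝ) / 3) ^ 2 ≤ ((k : ℝ) + 1) ^ 2 :=
      pow_le_pow_left₀ (by positivity) hk1 2
    have h2 : ((n : ℝ) ^ (11 / 60 - 1 / 1000 : ℝ) / 3) ^ 2 =
        (n : ℝ) ^ (11 / 30 - 2 / 1000 : ℝ) / 9 := by
      rw [div_pow, ← rpow_natCast, ← rpow_mul hN.le]
      norm_num
    rw [h2] at h1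
    have h3 : (0 : ℝ) < ((k : ℝ) + 1) ^ 2 := by positivity
    rw [mul_div_assoc', div_le_div_iff₀ h3 (by norm_num)]
    linarith
  have b2 : (n : ℝ) * (2 * exp (-(k * lam * tr (v + 1)))) ≤ 1 / 4 := by
    have h1 : (n : ℝ) ^ (3 / 1000 : ℝ) / 4 ≤ k * lam * tr (v + 1) := by
      have h2 : x / 2 ≤ k * lam := by
        rw [hxk]
        have : (1 : ℝ) ≤ k := by exact_mod_cast hk
        nlinarith
      have h3 : ((n : ℝ) ^ (1 / 3 + 2 / 1000 : ℝ)) ^ 2 / 2 ≤ tr (v + 1) := by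
        rw [tr_cast]
        push_cast
        have h5 : ((n : ℝ) ^ (1 / 3 + 2 / 1000 : ℝ)) ^ 2 ≤ (v : ℝ) ^ 2 :=
          pow_le_pow_left₀ (by positivity) hv1 2
        nlinarith [Nat.cast_nonneg (α := ℝ) v]
      have h4 : (n : ℝ) ^ (3 / 1000 : ℝ) = (n : ℝ) ^ (-(2 / 3) - 1 / 1000 : ℝ) *
          ((n : ℝ) ^ (1 / 3 + 2 / 1000 : ℝ)) ^ 2 := by
        rw [← rpow_natCast, ← rpow_mul hN.le, ← rpow_add hN]
        norm_num
      have h5 : (n : ℝ) ^ (-(2 / 3) - 1 / 1000 : ℝ) / 2 ≤ k * lam := by linarith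
      have h6 := mul_le_mul h5 h3 (by positivity) (by positivity)
      rw [h4]
      linarith
    have h2 : exp (-(k * lam * tr (v + 1))) ≤ exp (-(1 / 4 * (n : ℝ) ^ (3 / 1000 : ℝ))) :=
      exp_le_exp.mpr (by linarith)
    rw [rpow_one] at g7
    have h3 : exp (-4 : ℝ) ≤ 1 / 8 := by
      have h4 := add_one_le_exp (1 : ℝ)
      have h5 : exp (4 : ℝ) = exp 1 * exp 1 * exp 1 * exp 1 := by
        rw [← exp_add, ← exp_add, ← exp_add]; norm_num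
      rw [exp_neg, ← one_div, div_le_div_iff₀ (exp_pos _) (by norm_num), h5]
      have h6 : (4 : ℝ) ≤ exp 1 * exp 1 := by nlinarith
      nlinarith
    have h4 := mul_le_mul_of_nonneg_left h2 hN.le
    linarith
  linarith

end Pool.Agent.Work.MP_0421d9_ag.AA
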