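import Pool.Agent.Work.MP_0421d9_ag.AA5

/-!
Counting multisets of multiplicities: almost all of them have many small multiplicities.
-/

namespace Pool.Agent.Work.MP_0421d9_ag.AA

open Real Filter

/-- the number of conditions imposed by the points of multiplicity at most `u` -/
def tail {V : ℕ} (u : ℕ) (f : Fin V → ℕ) : ℕ :=
  ∑ i ∈ Finset.univ.filter (fun i : Fin V => (i : ℕ) + 1 ≤ u), f i * tr (i + 1)

/-- the bound for the multiplicities -/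
noncomputable def Mx (n : ℕ) : ℕ := ⌈(n : ℝ) ^ (428 / 1000 : ℝ)⌉₊

/-- the bound for the small multiplicities -/
noncomputable def Ux (n : ℕ) : ℕ := ⌈(n : ℝ) ^ (1 / 5 : ℝ)⌉₊

/-- typical configurations -/
def Nice (n : ℕ) {V : ℕ} (f : Fin V → ℕ) : Prop :=
  (∀ i : Fin V, Mx n ≤ (i : ℕ) + 1 → f i = 0) ∧
  (∀ i : Fin V, (i : ℕ) = 0 → Mx n + 2 < f i) ∧
  (n : ℝ) ^ (865 / 1000 : ℝ) ≤ tail (Ux n) f

theorem tr_le_sq {v : ℕ} (hv : 1 ≤ v) : (tr v : ℝ) ≤ (v : ℝ) ^ 2 := by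
  rw [tr_cast]
  have : (1 : ℝ) ≤ v := by exact_mod_cast hv
  nlinarith

theorem sq_le_tr (v : ℕ) : (v : ℝ) ^ 2 / 2 ≤ tr v := by
  rw [tr_cast]
  nlinarith [Nat.cast_nonneg (α := ℝ) v]

/-- the first kind of exceptions -/
theorem bad_large {ε : ℝ} (hε : 0 < ε) : ∀ᶠ n : ℕ in atTop, ∀ x : ℝ,
    (n : ℝ) ^ (-(2 / 3) - 1 / 1000 : ℝ) ≤ x →
    1 / 2 * exp (x * (n - 2 * (n : ℝ) ^ (17 / 20 : ℝ))) * ZZ n x ≤ (FF n n).card →
    (((FF n n).filter (fun f => ∃ i : Fin n, Mx n ≤ (i : ℕ) + 1 ∧ f i ≠ 0)).card : ℝ) ≤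
      ε * (FF n n).card := by
  filter_upwards [ev_rpow (show (17 / 20 : ℝ) < 856 / 1000 by norm_num) 8,
    ev_exp (show (0 : ℝ) < 188 / 1000 by norm_num) (show (0 : ℝ) < 1 / 4 by norm_num) 1
      (-log (ε / 2)), eventually_ge_atTop 2] with n g1 g2 h0
  intro x hx hsad
  have h0' : (2 : ℝ) ≤ n := by exact_mod_cast h0
  have hN : (0 : ℝ) < n := lt_of_lt_of_le two_pos h0'
  have hx0 : 0 < x := lt_of_lt_of_le (by positivity) hx
  have hM : (n : ℝ) ^ (428 / 1000 : ℝ) ≤ Mx n := Nat.le_ceil _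
  have hM1 : 1 ≤ Mx n := by
    have h1 : (1 : ℝ) ≤ (n : ℝ) ^ (428 / 1000 : ℝ) := one_le_rpow (by linarith) (by norm_num)
    have : (1 : ℝ) ≤ Mx n := h1.trans hM
    exact_mod_cast this
  refine (large_part hx0 n n (Mx n)).trans ?_
  have htr : (n : ℝ) ^ (856 / 1000 : ℝ) / 2 ≤ tr (Mx n) := by
    refine le_trans ?_ (sq_le_tr (Mx n))
    have h1 : ((n : ℝ) ^ (428 / 1000 : ℝ)) ^ 2 ≤ (Mx n : ℝ) ^ 2 :=
      pow_le_pow_left₀ (by positivity) hM 2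
    have h2 : ((n : ℝ) ^ (428 / 1000 : ℝ)) ^ 2 = (n : ℝ) ^ (856 / 1000 : ℝ) := by
      rw [← rpow_natCast, ← rpow_mul hN.le]
      norm_num
    rw [h2] at h1
    linarith
  have hex : -(x * tr (Mx n)) + x * n ≤
      x * (n - 2 * (n : ℝ) ^ (17 / 20 : ℝ)) - 1 / 4 * (n : ℝ) ^ (188 / 1000 : ℝ) := by
    have h1 : (n : ℝ) ^ (188 / 1000 : ℝ) ≤ x * (n : ℝ) ^ (856 / 1000 : ℝ) := by
      have h2 : (n : ℝ) ^ (188 / 1000 : ℝ) ≤
          (n : ℝ) ^ (-(2 / 3) - 1 / 1000 : ℝ) * (n : ℝ) ^ (856 / 1000 : ℝ) := by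
        rw [← rpow_add hN]
        exact rpow_le_rpow_of_exponent_le (by linarith) (by norm_num)
      exact h2.trans (mul_le_mul_of_nonneg_right hx (by positivity))
    have h3 := mul_le_mul_of_nonneg_left htr hx0.le
    have h4 := mul_le_mul_of_nonneg_left g1 hx0.le
    have e1 : x * ((n : ℝ) ^ (856 / 1000 : ℝ) / 2) = x * (n : ℝ) ^ (856 / 1000 : ℝ) / 2 := by ring
    have e2 : x * (8 * (n : ℝ) ^ (17 / 20 : ℝ)) = 8 * (x * (n : ℝ) ^ (17 / 20 : ℝ)) := by ring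
    have e3 : x * (n - 2 * (n : ℝ) ^ (17 / 20 : ℝ)) = x * n - 2 * (x * (n : ℝ) ^ (17 / 20 : ℝ)) := by
      ring
    rw [e3]
    linarith
  rw [rpow_one, neg_neg, exp_log (by positivity)] at g2
  have hZ := ZZ_pos (V := n) hx0
  calc (n : ℝ) * exp (-(x * tr (Mx n))) * exp (x * n) * ZZ n x
      = (n : ℝ) * exp (-(x * tr (Mx n)) + x * n) * ZZ n x := by rw [exp_add]; ring
    _ ≤ (n : ℝ) * exp (x * (n - 2 * (n : ℝ) ^ (17 / 20 : ℝ)) -
          1 / 4 * (n : ℝ) ^ (188 / 1000 : ℝ)) * ZZ n x := by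
        apply mul_le_mul_of_nonneg_right _ hZ.le
        exact mul_le_mul_of_nonneg_left (exp_le_exp.mpr hex) hN.le
    _ = 2 * ((n : ℝ) * exp (-(1 / 4 * (n : ℝ) ^ (188 / 1000 : ℝ)))) *
          (1 / 2 * exp (x * (n - 2 * (n : ℝ) ^ (17 / 20 : ℝ))) * ZZ n x) := by
        rw [sub_eq_add_neg (x * (n - 2 * (n : ℝ) ^ (17 / 20 : ℝ))), exp_add]
        ring
    _ ≤ 2 * (ε / 2) * (FF n n).card := by
        apply mul_le_mul _ hsad (by positivity) (by positivity)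
        linarith
    _ = ε * (FF n n).card := by ring

/-- the second kind of exceptions -/
theorem bad_tail {ε : ℝ} (hε : 0 < ε) : ∀ᶠ n : ℕ in atTop, ∀ x : ℝ, 0 < x →
    x ≤ (n : ℝ) ^ (-(2 / 3) + 1 / 1000 : ℝ) →
    1 / 2 * exp (x * (n - 2 * (n : ℝ) ^ (17 / 20 : ℝ))) * ZZ n x ≤ (FF n n).card →
    (((FF n n).filter (fun f => (tail (Ux n) f : ℝ) ≤ Ux n / (41 * x))).card : ℝ) ≤
      ε * (FF n n).card := by
  filter_upwards [ev_rpow (show (-(2 / 3) + 1 / 1000 + 17 / 20 : ℝ) < 1 / 5 by norm_num) 2,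
    ev_rpow (show (-(2 / 3) + 1 / 1000 + 2 / 5 : ℝ) < 0 by norm_num) 168,
    ev_rpow (show (1 / 5 : ℝ) < 1 by norm_num) 2,
    ev_exp (show (0 : ℝ) < 1 / 5 by norm_num) (show (0 : ℝ) < 1 by norm_num) 0
      (-log (ε / 2)), eventually_ge_atTop 2] with n g1 g2 g3 g4 h0
  intro x hx0 hx hsad
  have h0' : (2 : ℝ) ≤ n := by exact_mod_cast h0
  have hN : (0 : ℝ) < n := lt_of_lt_of_le two_pos h0'
  rw [rpow_zero] at g2
  rw [rpow_one] at g3
  rw [rpow_zero, neg_neg, exp_log (by positivity), one_mul, one_mul] at g4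
  have hp1 : (1 : ℝ) ≤ (n : ℝ) ^ (1 / 5 : ℝ) := one_le_rpow (by linarith) (by norm_num)
  have hU : (n : ℝ) ^ (1 / 5 : ℝ) ≤ Ux n := Nat.le_ceil _
  have hU2 : (Ux n : ℝ) ≤ 2 * (n : ℝ) ^ (1 / 5 : ℝ) := by
    have h4 := (Nat.ceil_lt_add_one (show (0 : ℝ) ≤ (n : ℝ) ^ (1 / 5 : ℝ) by positivity)).le
    have h5 : (Ux n : ℝ) = (⌈(n : ℝ) ^ (1 / 5 : ℝ)⌉₊ : ℝ) := rfl
    rw [h5]
    linarith
  have hU1 : 1 ≤ Ux n := by
    have : (1 : ℝ) ≤ Ux n := hp1.trans hU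
    exact_mod_cast this
  have hUn : Ux n ≤ n := by
    have : (Ux n : ℝ) ≤ n := by linarith
    exact_mod_cast this
  have htr : 42 * x * tr (Ux n) ≤ 1 := by
    have h1 : (tr (Ux n) : ℝ) ≤ 4 * (n : ℝ) ^ (2 / 5 : ℝ) := by
      refine (tr_le_sq hU1).trans ?_
      have h2 : (Ux n : ℝ) ^ 2 ≤ (2 * (n : ℝ) ^ (1 / 5 : ℝ)) ^ 2 :=
        pow_le_pow_left₀ (by positivity) hU2 2
      have h3 : (2 * (n : ℝ) ^ (1 / 5 : ℝ)) ^ 2 = 4 * (n : ℝ) ^ (2 / 5 : ℝ) := by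
        rw [mul_pow, ← rpow_natCast ((n : ℝ) ^ (1 / 5 : ℝ)), ← rpow_mul hN.le]
        norm_num
      rwa [h3] at h2
    have h2 : x * tr (Ux n) ≤ (n : ℝ) ^ (-(2 / 3) + 1 / 1000 : ℝ) * (4 * (n : ℝ) ^ (2 / 5 : ℝ)) :=
      mul_le_mul hx h1 (by positivity) (by positivity)
    have h3 : (n : ℝ) ^ (-(2 / 3) + 1 / 1000 : ℝ) * (4 * (n : ℝ) ^ (2 / 5 : ℝ)) =
        4 * (n : ℝ) ^ (-(2 / 3) + 1 / 1000 + 2 / 5 : ℝ) := by
      rw [rpow_add hN (-(2 / 3) + 1 / 1000) (2 / 5)]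
      ring
    rw [h3] at h2
    linarith
  refine (light hx0 n n (Ux n) hUn htr (Ux n / (41 * x))).trans ?_
  have hex : 41 * x * ((Ux n : ℝ) / (41 * x)) - 3 * Ux n + x * n ≤
      x * (n - 2 * (n : ℝ) ^ (17 / 20 : ℝ)) - (n : ℝ) ^ (1 / 5 : ℝ) := by
    have h1 : 41 * x * ((Ux n : ℝ) / (41 * x)) = Ux n := by field_simp
    have h2 : x * (n : ℝ) ^ (17 / 20 : ℝ) ≤ (n : ℝ) ^ (-(2 / 3) + 1 / 1000 + 17 / 20 : ℝ) := by
      rw [rpow_add hN (-(2 / 3) + 1 / 1000) (17 / 20)]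
      exact mul_le_mul_of_nonneg_right hx (by positivity)
    have e3 : x * (n - 2 * (n : ℝ) ^ (17 / 20 : ℝ)) = x * n - 2 * (x * (n : ℝ) ^ (17 / 20 : ℝ)) := by
      ring
    rw [e3, h1]
    linarith
  have hZ := ZZ_pos (V := n) hx0
  calc exp (41 * x * ((Ux n : ℝ) / (41 * x)) - 3 * Ux n) * exp (x * n) * ZZ n x
      = exp (41 * x * ((Ux n : ℝ) / (41 * x)) - 3 * Ux n + x * n) * ZZ n x := by
        rw [exp_add (41 * x * ((Ux n : ℝ) / (41 * x)) - 3 * Ux n)]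
    _ ≤ exp (x * (n - 2 * (n : ℝ) ^ (17 / 20 : ℝ)) - (n : ℝ) ^ (1 / 5 : ℝ)) * ZZ n x :=
        mul_le_mul_of_nonneg_right (exp_le_exp.mpr hex) hZ.le
    _ = 2 * exp (-(n : ℝ) ^ (1 / 5 : ℝ)) *
          (1 / 2 * exp (x * (n - 2 * (n : ℝ) ^ (17 / 20 : ℝ))) * ZZ n x) := by
        rw [sub_eq_add_neg (x * (n - 2 * (n : ℝ) ^ (17 / 20 : ℝ))), exp_add]
        ring
    _ ≤ 2 * (ε / 2) * (FF n n).card := by
        apply mul_le_mul _ hsad (by positivity) (by positivity)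
        linarith
    _ = ε * (FF n n).card := by ring

/-- the third kind of exceptions -/
theorem bad_few {ε : ℝ} (hε : 0 < ε) : ∀ᶠ n : ℕ in atTop, ∀ x : ℝ, 0 < x →
    x ≤ (n : ℝ) ^ (-(2 / 3) + 1 / 1000 : ℝ) →
    (((FF n n).filter (fun f => (∃ i : Fin n, (i : ℕ) = 0 ∧ f i ≤ Mx n + 2) ∧
      (Ux n : ℝ) / (41 * x) < tail (Ux n) f)).card : ℝ) ≤ ε * (FF n n).card := by
  classical
  filter_upwards [ev_rpow (show (-(2 / 3) + 1 / 1000 + 428 / 1000 : ℝ) < 0 by norm_num) 164,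
    ev_rpow (show (2 / 5 : ℝ) < 428 / 1000 by norm_num) 1,
    ev_rpow (show (-(2 / 3) + 1 / 1000 + 1 / 5 + 428 / 1000 : ℝ) < -(1 / 100) by norm_num) 656,
    ev_const (show (0 : ℝ) < 1 / 100 by norm_num) (1 / ε),
    eventually_ge_atTop 2] with n g1 g2 g3 g4 h0
  intro x hx0 hx
  have h0' : (2 : ℝ) ≤ n := by exact_mod_cast h0
  have hN : (0 : ℝ) < n := lt_of_lt_of_le two_pos h0'
  rw [rpow_zero] at g1
  rw [one_mul] at g2
  have hp1 : (1 : ℝ) ≤ (n : ℝ) ^ (1 / 5 : ℝ) := one_le_rpow (by linarith) (by norm_num)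
  have hp2 : (1 : ℝ) ≤ (n : ℝ) ^ (428 / 1000 : ℝ) := one_le_rpow (by linarith) (by norm_num)
  have hU : (n : ℝ) ^ (1 / 5 : ℝ) ≤ Ux n := Nat.le_ceil _
  have hU2 : (Ux n : ℝ) ≤ 2 * (n : ℝ) ^ (1 / 5 : ℝ) := by
    have h4 := (Nat.ceil_lt_add_one (show (0 : ℝ) ≤ (n : ℝ) ^ (1 / 5 : ℝ) by positivity)).le
    have h5 : (Ux n : ℝ) = (⌈(n : ℝ) ^ (1 / 5 : ℝ)⌉₊ : ℝ) := rfl
    rw [h5]
    linarith
  have hU1 : 1 ≤ Ux n := by
    have : (1 : ℝ) ≤ Ux n := hp1.trans hU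
    exact_mod_cast this
  have hM2 : (Mx n : ℝ) + 2 ≤ 4 * (n : ℝ) ^ (428 / 1000 : ℝ) := by
    have h4 := (Nat.ceil_lt_add_one (show (0 : ℝ) ≤ (n : ℝ) ^ (428 / 1000 : ℝ) by positivity)).le
    have h5 : (Mx n : ℝ) = (⌈(n : ℝ) ^ (428 / 1000 : ℝ)⌉₊ : ℝ) := rfl
    rw [h5]
    linarith
  have htr : (tr (Ux n) : ℝ) ≤ 4 * (n : ℝ) ^ (428 / 1000 : ℝ) := by
    refine (tr_le_sq hU1).trans ?_
    have h2 : (Ux n : ℝ) ^ 2 ≤ (2 * (n : ℝ) ^ (1 / 5 : ℝ)) ^ 2 :=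
      pow_le_pow_left₀ (by positivity) hU2 2
    have h3 : (2 * (n : ℝ) ^ (1 / 5 : ℝ)) ^ 2 = 4 * (n : ℝ) ^ (2 / 5 : ℝ) := by
      rw [mul_pow, ← rpow_natCast ((n : ℝ) ^ (1 / 5 : ℝ)), ← rpow_mul hN.le]
      norm_num
    rw [h3] at h2
    linarith
  -- the bound for one multiplicity
  obtain ⟨Iv, hIv⟩ : ∃ Iv : Fin n → ℕ, Iv = fun i : Fin n =>
    ⌊1 / (41 * x * tr ((i : ℕ) + 1))⌋₊ := ⟨_, rfl⟩
  obtain ⟨S, hS⟩ : ∃ S : Finset (Fin n), S = Finset.univ.filter (fun i : Fin n =>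
    1 ≤ (i : ℕ) ∧ (i : ℕ) + 1 ≤ Ux n) := ⟨_, rfl⟩
  have hi0 : (⟨0, by omega⟩ : Fin n).val = 0 := rfl
  obtain ⟨i0, hi0⟩ : ∃ i0 : Fin n, (i0 : ℕ) = 0 := ⟨⟨0, by omega⟩, rfl⟩
  have hsub : (FF n n).filter (fun f => (∃ i : Fin n, (i : ℕ) = 0 ∧ f i ≤ Mx n + 2) ∧
      (Ux n : ℝ) / (41 * x) < tail (Ux n) f) ⊆
      S.biUnion (fun i => (FF n n).filter (fun f => f i0 ≤ Mx n + 2 ∧ Iv i ≤ f i)) := by
    intro f hf
    rw [Finset.mem_filter] at hf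
    obtain ⟨hf1, ⟨i', hi', hfi'⟩, hf2⟩ := hf
    have hii : i' = i0 := Fin.ext (hi'.trans hi0.symm)
    rw [hii] at hfi'
    rw [Finset.mem_biUnion]
    by_contra hcon
    push Not at hcon
    have hall : ∀ i ∈ Finset.univ.filter (fun i : Fin n => (i : ℕ) + 1 ≤ Ux n),
        ((f i * tr ((i : ℕ) + 1) : ℕ) : ℝ) ≤ 1 / (41 * x) := by
      intro i hi
      have hiu := (Finset.mem_filter.mp hi).2
      have ht := tr_real_pos (v := (i : ℕ) + 1) (by omega)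
      push_cast
      rcases Nat.eq_zero_or_pos (i : ℕ) with hiz | hiz
      · have e1 : i = i0 := Fin.ext (hiz.trans hi0.symm)
        have e2 : tr ((i : ℕ) + 1) = 1 := by rw [hiz]; rfl
        rw [e2, Nat.cast_one, mul_one, e1, le_div_iff₀ (by positivity)]
        have h1 : (f i0 : ℝ) ≤ 4 * (n : ℝ) ^ (428 / 1000 : ℝ) := by
          have : (f i0 : ℝ) ≤ ((Mx n + 2 : ℕ) : ℝ) := by exact_mod_cast hfi'
          push_cast at this
          linarith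
        have h2 : x * (n : ℝ) ^ (428 / 1000 : ℝ) ≤
            (n : ℝ) ^ (-(2 / 3) + 1 / 1000 + 428 / 1000 : ℝ) := by
          rw [rpow_add hN (-(2 / 3) + 1 / 1000) (428 / 1000)]
          exact mul_le_mul_of_nonneg_right hx (by positivity)
        have h3 := mul_le_mul_of_nonneg_right h1 hx0.le
        nlinarith
      · have h1 : ¬ (f i0 ≤ Mx n + 2 ∧ Iv i ≤ f i) := by
          intro h2
          exact hcon i (by rw [hS, Finset.mem_filter]; exact ⟨Finset.mem_univ _, hiz, hiu⟩)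
            (Finset.mem_filter.mpr ⟨hf1, h2⟩)
        have h2 : f i < Iv i := by
          by_contra h3
          exact h1 ⟨hfi', by omega⟩
        have h3 : (f i : ℝ) ≤ 1 / (41 * x * tr ((i : ℕ) + 1)) := by
          have h4 : (Iv i : ℝ) ≤ 1 / (41 * x * tr ((i : ℕ) + 1)) := by
            rw [hIv]
            exact Nat.floor_le (by positivity)
          have h5 : (f i : ℝ) ≤ Iv i := by exact_mod_cast h2.le
          linarith
        have h4 := mul_le_mul_of_nonneg_right h3 (by linarith : (0 : ℝ) ≤ tr ((i : ℕ) + 1))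
        have h5 : 1 / (41 * x * tr ((i : ℕ) + 1)) * (tr ((i : ℕ) + 1) : ℝ) = 1 / (41 * x) := by
          field_simp
        rwa [h5] at h4
    have h1 : (tail (Ux n) f : ℝ) ≤ (Ux n : ℝ) * (1 / (41 * x)) := by
      unfold tail
      rw [Nat.cast_sum]
      refine (Finset.sum_le_card_nsmul _ _ _ hall).trans ?_
      rw [nsmul_eq_mul]
      apply mul_le_mul_of_nonneg_right _ (by positivity)
      have h2 : (Finset.univ.filter (fun i : Fin n => (i : ℕ) + 1 ≤ Ux n)).card ≤ Ux n := by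
        calc (Finset.univ.filter (fun i : Fin n => (i : ℕ) + 1 ≤ Ux n)).card
            = ((Finset.univ.filter (fun i : Fin n => (i : ℕ) + 1 ≤ Ux n)).image
                (fun i : Fin n => (i : ℕ))).card :=
              (Finset.card_image_of_injective _ Fin.val_injective).symm
          _ ≤ (Finset.range (Ux n)).card := by
              apply Finset.card_le_card
              intro v hv
              rw [Finset.mem_image] at hv
              obtain ⟨i, hi, rfl⟩ := hv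
              rw [Finset.mem_range]
              have := (Finset.mem_filter.mp hi).2
              omega
          _ = Ux n := Finset.card_range _
      exact_mod_cast h2
    have h2 : (Ux n : ℝ) * (1 / (41 * x)) = (Ux n : ℝ) / (41 * x) := by ring
    rw [h2] at h1
    linarith
  have hone : ∀ i ∈ S, (((FF n n).filter (fun f => f i0 ≤ Mx n + 2 ∧ Iv i ≤ f i)).card : ℝ) ≤
      41 * x * (8 * (n : ℝ) ^ (428 / 1000 : ℝ)) * (FF n n).card := by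
    intro i hi
    rw [hS, Finset.mem_filter] at hi
    have ht := tr_real_pos (v := (i : ℕ) + 1) (by omega)
    have h1 := few_ones (n := n) i0 i hi0 hi.2.1 (Mx n + 2) (Iv i)
    have h2 : (((FF n n).filter (fun f => f i0 ≤ Mx n + 2 ∧ Iv i ≤ f i)).card : ℝ) *
        ((Iv i : ℝ) + 1) ≤ (((Mx n + 2) / tr ((i : ℕ) + 1) : ℕ) + 1) * (FF n n).card := by
      exact_mod_cast h1
    have h3 : 1 / (41 * x * tr ((i : ℕ) + 1)) ≤ (Iv i : ℝ) + 1 := by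
      rw [hIv]
      exact (Nat.lt_floor_add_one _).le
    have h4 : (((Mx n + 2) / tr ((i : ℕ) + 1) : ℕ) : ℝ) ≤
        (Mx n + 2) / (tr ((i : ℕ) + 1) : ℝ) := by
      have := Nat.cast_div_le (α := ℝ) (m := Mx n + 2) (n := tr ((i : ℕ) + 1))
      push_cast at this
      exact this
    obtain ⟨Cc, hCc⟩ : ∃ Cc : ℝ, Cc = (((FF n n).filter (fun f => f i0 ≤ Mx n + 2 ∧
      Iv i ≤ f i)).card : ℝ) := ⟨_, rfl⟩
    rw [← hCc] at h2 ⊢
    have hCc0 : 0 ≤ Cc := by rw [hCc]; exact Nat.cast_nonneg _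
    obtain ⟨Tt, hTt⟩ : ∃ Tt : ℝ, Tt = (tr ((i : ℕ) + 1) : ℝ) := ⟨_, rfl⟩
    rw [← hTt] at ht h3 h4
    obtain ⟨Fc, hFc⟩ : ∃ Fc : ℝ, Fc = ((FF n n).card : ℝ) := ⟨_, rfl⟩
    obtain ⟨Mc, hMc⟩ : ∃ Mc : ℝ, Mc = (Mx n : ℝ) := ⟨_, rfl⟩
    have hFF0 : 0 ≤ Fc := by rw [hFc]; exact Nat.cast_nonneg _
    rw [← hFc] at h2 ⊢
    rw [← hMc] at h4 hM2
    have h5 : Cc * (1 / (41 * x * Tt)) ≤ ((Mc + 2) / Tt + 1) * Fc :=
      (mul_le_mul_of_nonneg_left h3 hCc0).trans (h2.trans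
        (mul_le_mul_of_nonneg_right (by linarith) hFF0))
    have h6 : Cc = (41 * x * Tt) * (Cc * (1 / (41 * x * Tt))) := by field_simp
    rw [h6]
    have h7 : (41 * x * Tt) * (Cc * (1 / (41 * x * Tt))) ≤
        (41 * x * Tt) * (((Mc + 2) / Tt + 1) * Fc) :=
      mul_le_mul_of_nonneg_left h5 (by positivity)
    refine h7.trans ?_
    have h8 : (41 * x * Tt) * (((Mc + 2) / Tt + 1) * Fc) =
        41 * x * (Mc + 2 + Tt) * Fc := by
      have hTt0 : Tt ≠ 0 := by linarith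
      field_simp
    rw [h8]
    apply mul_le_mul_of_nonneg_right _ hFF0
    apply mul_le_mul_of_nonneg_left _ (by positivity)
    have h9 : Tt ≤ tr (Ux n) := by
      rw [hTt]
      exact_mod_cast tr_mono hi.2.2
    linarith
  have hcardS : (S.card : ℝ) ≤ 2 * (n : ℝ) ^ (1 / 5 : ℝ) := by
    refine le_trans ?_ hU2
    have h2 : S.card ≤ Ux n := by
      calc S.card = (S.image (fun i : Fin n => (i : ℕ))).card :=
            (Finset.card_image_of_injective _ Fin.val_injective).symm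
        _ ≤ (Finset.range (Ux n)).card := by
            apply Finset.card_le_card
            intro v hv
            rw [Finset.mem_image] at hv
            obtain ⟨i, hi, rfl⟩ := hv
            rw [hS] at hi
            rw [Finset.mem_range]
            have := (Finset.mem_filter.mp hi).2.2
            omega
        _ = Ux n := Finset.card_range _
    exact_mod_cast h2
  have hFF0 : (0 : ℝ) ≤ (FF n n).card := Nat.cast_nonneg _
  have h1 : (((FF n n).filter (fun f => (∃ i : Fin n, (i : ℕ) = 0 ∧ f i ≤ Mx n + 2) ∧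
      (Ux n : ℝ) / (41 * x) < tail (Ux n) f)).card : ℝ) ≤
      ∑ i ∈ S, (((FF n n).filter (fun f => f i0 ≤ Mx n + 2 ∧ Iv i ≤ f i)).card : ℝ) := by
    have h2 := (Finset.card_le_card hsub).trans Finset.card_biUnion_le
    exact_mod_cast h2
  refine h1.trans ((Finset.sum_le_card_nsmul _ _ _ hone).trans ?_)
  rw [nsmul_eq_mul]
  have h2 : (S.card : ℝ) * (41 * x * (8 * (n : ℝ) ^ (428 / 1000 : ℝ)) * (FF n n).card) =
      (S.card * (328 * (x * (n : ℝ) ^ (428 / 1000 : ℝ)))) * (FF n n).card := by ring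
  rw [h2]
  apply mul_le_mul_of_nonneg_right _ hFF0
  have h3 : x * (n : ℝ) ^ (428 / 1000 : ℝ) ≤
      (n : ℝ) ^ (-(2 / 3) + 1 / 1000 : ℝ) * (n : ℝ) ^ (428 / 1000 : ℝ) :=
    mul_le_mul_of_nonneg_right hx (by positivity)
  have h4 : (S.card : ℝ) * (328 * (x * (n : ℝ) ^ (428 / 1000 : ℝ))) ≤
      2 * (n : ℝ) ^ (1 / 5 : ℝ) * (328 * ((n : ℝ) ^ (-(2 / 3) + 1 / 1000 : ℝ) *
        (n : ℝ) ^ (428 / 1000 : ℝ))) :=
    mul_le_mul hcardS (by linarith) (by positivity) (by positivity)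
  have h5 : 2 * (n : ℝ) ^ (1 / 5 : ℝ) * (328 * ((n : ℝ) ^ (-(2 / 3) + 1 / 1000 : ℝ) *
        (n : ℝ) ^ (428 / 1000 : ℝ))) =
      656 * (n : ℝ) ^ (-(2 / 3) + 1 / 1000 + 1 / 5 + 428 / 1000 : ℝ) := by
    rw [rpow_add hN (-(2 / 3) + 1 / 1000 + 1 / 5) (428 / 1000),
      rpow_add hN (-(2 / 3) + 1 / 1000) (1 / 5)]
    ring
  rw [h5] at h4
  have h6 : (n : ℝ) ^ (-(1 / 100) : ℝ) ≤ ε := by
    rw [rpow_neg hN.le, inv_le_comm₀ (by positivity) hε, ← one_div]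
    exact g4
  linarith

/-- **Almost all configurations are typical.** -/
theorem most_nice {ε : ℝ} (hε : 0 < ε) : ∀ᶠ n : ℕ in atTop,
    (Set.ncard {f : Fin n → ℕ | wt f ≤ n ∧ ¬ Nice n f} : ℝ) ≤ ε * (FF n n).card := by
  classical
  filter_upwards [saddle_asymp, bad_large (ε := ε / 3) (by positivity),
    bad_tail (ε := ε / 3) (by positivity), bad_few (ε := ε / 3) (by positivity),
    ev_rpow (show (865 / 1000 : ℝ) < 1 / 5 + (2 / 3 - 1 / 1000) by norm_num) 41,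
    eventually_ge_atTop 2] with n hs h1 h2 h3 g1 h0
  have h0' : (2 : ℝ) ≤ n := by exact_mod_cast h0
  have hN : (0 : ℝ) < n := lt_of_lt_of_le two_pos h0'
  obtain ⟨x, hx1, hx2, hx3⟩ := hs
  have hx0 : 0 < x := lt_of_lt_of_le (by positivity) hx1
  have b1 := h1 x hx1 hx3
  have b2 := h2 x hx0 hx2 hx3
  have b3 := h3 x hx0 hx2
  have hY : (n : ℝ) ^ (865 / 1000 : ℝ) ≤ (Ux n : ℝ) / (41 * x) := by
    rw [le_div_iff₀ (by positivity)]
    have hU : (n : ℝ) ^ (1 / 5 : ℝ) ≤ Ux n := Nat.le_ceil _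
    have h4 : (n : ℝ) ^ (865 / 1000 : ℝ) * (41 * x) ≤
        (n : ℝ) ^ (1 / 5 + (2 / 3 - 1 / 1000) : ℝ) * (n : ℝ) ^ (-(2 / 3) + 1 / 1000 : ℝ) := by
      calc (n : ℝ) ^ (865 / 1000 : ℝ) * (41 * x) = (41 * (n : ℝ) ^ (865 / 1000 : ℝ)) * x := by ring
        _ ≤ (n : ℝ) ^ (1 / 5 + (2 / 3 - 1 / 1000) : ℝ) * (n : ℝ) ^ (-(2 / 3) + 1 / 1000 : ℝ) :=
            mul_le_mul g1 hx2 hx0.le (by positivity)
    rw [← rpow_add hN] at h4
    have e1 : (1 / 5 + (2 / 3 - 1 / 1000) + (-(2 / 3) + 1 / 1000) : ℝ) = 1 / 5 := by norm_num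
    rw [e1] at h4
    exact h4.trans hU
  have hsub : {f : Fin n → ℕ | wt f ≤ n ∧ ¬ Nice n f} ⊆
      (((FF n n).filter (fun f => ∃ i : Fin n, Mx n ≤ (i : ℕ) + 1 ∧ f i ≠ 0) ∪
      (FF n n).filter (fun f => (tail (Ux n) f : ℝ) ≤ Ux n / (41 * x)) ∪
      (FF n n).filter (fun f => (∃ i : Fin n, (i : ℕ) = 0 ∧ f i ≤ Mx n + 2) ∧
      (Ux n : ℝ) / (41 * x) < tail (Ux n) f) : Finset (Fin n → ℕ)) : Set (Fin n → ℕ)) := by
    rintro f ⟨hf1, hf2⟩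
    rw [Finset.mem_coe, Finset.mem_union, Finset.mem_union, Finset.mem_filter, Finset.mem_filter,
      Finset.mem_filter, mem_FF]
    by_contra hcon
    push Not at hcon
    obtain ⟨⟨c1, c2⟩, c3⟩ := hcon
    apply hf2
    have d1 := c1 hf1
    have d2 := c2 hf1
    refine ⟨fun i hi => d1 i hi, fun i hi => ?_, (hY.trans d2.le)⟩
    by_contra h5
    push Not at h5
    have := c3 hf1 ⟨i, hi, h5⟩
    linarith
  have h4 := Set.ncard_le_ncard hsub (Finset.finite_toSet _)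
  rw [Set.ncard_coe_finset] at h4
  have h5 := h4.trans ((Finset.card_union_le _ _).trans
    (Nat.add_le_add_right (Finset.card_union_le _ _) _))
  have h6 : (Set.ncard {f : Fin n → ℕ | wt f ≤ n ∧ ¬ Nice n f} : ℝ) ≤
      (((FF n n).filter (fun f => ∃ i : Fin n, Mx n ≤ (i : ℕ) + 1 ∧ f i ≠ 0)).card : ℝ) +
      (((FF n n).filter (fun f => (tail (Ux n) f : ℝ) ≤ Ux n / (41 * x))).card : ℝ) +
      (((FF n n).filter (fun f => (∃ i : Fin n, (i : ℕ) = 0 ∧ f i ≤ Mx n + 2) ∧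
      (Ux n : ℝ) / (41 * x) < tail (Ux n) f)).card : ℝ) := by
    exact_mod_cast h5
  linarith

end Pool.Agent.Work.MP_0421d9_ag.AA
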