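import Pool.Agent.Work.MP_0421d9_ag.FStrip

/-!
Exact addition of points of small multiplicity: the systems which have maximal rank in all degrees
stay so if sufficiently many points of small multiplicity are added.
-/

namespace Pool.Agent.Work.MP_0421d9_ag.LD

open MvPolynomial Module

/-! ### numbers -/

theorem fA_mono {D K K' : ℕ} (h : K ≤ K') : fA D K ≤ fA D K' := by
  induction K', h using Nat.le_induction with
  | base => exact le_rfl
  | succ n hn ih =>
    rw [fA_succ]
    omega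

theorem fA_split {D u j : ℕ} (h : u ≤ D) : fA D (u + j) = fA D u + fA (D - u) j := by
  induction j with
  | zero => rfl
  | succ j ih =>
    have e1 : u + (j + 1) = (u + j) + 1 := by omega
    rw [e1, fA_succ, fA_succ, ih]
    omega

theorem fA_total (D : ℕ) : fA D (D + 1) = (D + 2).choose 2 := by
  have h1 := fA_eq (D := D) (H := D + 1) le_rfl
  have h2 : 2 * (D + 1).choose 2 = D * (D + 1) := tr_two_choose D
  have h3 : (D + 2).choose 2 = (D + 1) + (D + 1).choose 2 := by
    rw [Nat.choose_succ_succ' (D + 1) 1, Nat.choose_one_right]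
  have e1 : (D + 1) * (D + 1) = D * (D + 1) + (D + 1) := by ring
  omega

/-- the rows -/
theorem fA_choose {D u : ℕ} (h : u ≤ D) : fA D u + (D - u + 2).choose 2 = (D + 2).choose 2 := by
  have h1 := fA_split (D := D) (u := u) (j := D - u + 1) h
  have e1 : u + (D - u + 1) = D + 1 := by omega
  rw [e1, fA_total, fA_total] at h1
  exact h1.symm

/-- the position of a number between the rows -/
theorem fA_position {D σ : ℕ} (h : σ < fA D (D + 1)) :
    ∃ K A, K ≤ D ∧ σ = fA D K + A ∧ A < D + 1 - K := by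
  classical
  have hex : ∃ K, σ < fA D (K + 1) := ⟨D, h⟩
  have h1 := Nat.find_spec hex
  set K := Nat.find hex with hK
  have h2 : K ≤ D := Nat.find_min' hex h
  have h3 : fA D K ≤ σ := by
    rcases Nat.eq_zero_or_pos K with h0 | h0
    · rw [h0, fA_zero]
      exact Nat.zero_le _
    · have h4 := Nat.find_min hex (m := K - 1) (by omega)
      have e1 : K - 1 + 1 = K := by omega
      rw [e1] at h4
      omega
  rw [fA_succ] at h1
  exact ⟨K, σ - fA D K, h2, by omega, by omega⟩

/-! ### critical degrees -/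

/-- maximal rank in all degrees -/
def PRm {r : ℕ} (y : Fin r → ℕ) : Prop :=
  ∀ D, hPm D y = (D + 2).choose 2 - ∑ i, (y i + 1).choose 2

theorem exists_crit {N : ℕ} (hN : 1 ≤ N) : ∃ D, (D + 1).choose 2 < N ∧ N ≤ (D + 2).choose 2 := by
  classical
  have hex : ∃ D, N ≤ (D + 2).choose 2 := by
    refine ⟨N, ?_⟩
    have h1 := fA_total N
    have h2 : fA N 1 ≤ fA N (N + 1) := fA_mono (by omega)
    rw [fA_succ, fA_zero] at h2
    omega
  have h1 := Nat.find_spec hex
  set D := Nat.find hex with hD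
  refine ⟨D, ?_, h1⟩
  rcases Nat.eq_zero_or_pos D with h0 | h0
  · rw [h0]
    have : (0 + 1).choose 2 = 0 := rfl
    omega
  · have h2 := Nat.find_min hex (m := D - 1) (by omega)
    have e1 : D - 1 + 2 = D + 1 := by omega
    rw [e1] at h2
    omega

theorem hPm_mono' {r D D' : ℕ} (y : Fin r → ℕ) (h : D ≤ D') : hPm D y ≤ hPm D' y := by
  induction D', h using Nat.le_induction with
  | base => exact le_rfl
  | succ n _ ih => exact ih.trans (hPm_le_succ n y)

theorem PRm_of_crit {r D : ℕ} {y : Fin r → ℕ} (h1 : (D + 1).choose 2 < ∑ i, (y i + 1).choose 2)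
    (h2 : ∑ i, (y i + 1).choose 2 ≤ (D + 2).choose 2)
    (hreg : hPm D y = (D + 2).choose 2 - ∑ i, (y i + 1).choose 2)
    (hemp : hPm (D - 1) y = (D - 1 + 2).choose 2 - ∑ i, (y i + 1).choose 2) : PRm y := by
  intro D'
  rcases Nat.lt_or_ge D' D with h | h
  · have e1 : D - 1 + 2 = D + 1 := by omega
    rw [e1] at hemp
    have h3 : hPm D' y ≤ hPm (D - 1) y := hPm_mono' y (by omega)
    have h4 : (D' + 2).choose 2 ≤ (D + 1).choose 2 := Nat.choose_le_choose 2 (by omega)
    omega
  · have h3 : finrank ℂ (linSys D (gpt r) y) + ∑ i, (y i + 1).choose 2 = (D + 2).choose 2 := by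
      change hPm D y + _ = _
      omega
    have h4 := linSys_reg_mono y (fun i => generic_coord_ne (gpt_generic r) i 2) h h3
    change hPm D' y + _ = _ at h4
    omega

/-- a strip preserves maximal rank -/
theorem exact_of_strip {r D κ A : ℕ} {y y' : Fin r → ℕ} (h : PRm y') (hs : StripM D κ A y y') :
    hPm D y = (D + 2).choose 2 - ∑ i, (y i + 1).choose 2 := by
  obtain ⟨h1, h2, h3, h4, h5, h6⟩ := hs.count
  have h7 := hs.le
  have h8 := MM.hPm_count D y
  rw [h (D - κ), h (D - κ - 1)] at h7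
  rcases le_max_iff.mp h7 with h9 | h9 <;> omega

/-- the points outside of `P` -/
def offF {r : ℕ} (P : Finset (Fin r)) (y : Fin r → ℕ) : Fin r → ℕ :=
  fun i => if i ∈ P then 0 else y i

theorem sum_offF {r : ℕ} (P : Finset (Fin r)) (y : Fin r → ℕ) :
    ∑ i, (offF P y i + 1).choose 2 + ∑ i ∈ P, (y i + 1).choose 2 = ∑ i, (y i + 1).choose 2 := by
  classical
  have h1 : ∑ i ∈ P, (y i + 1).choose 2 = ∑ i, (if i ∈ P then (y i + 1).choose 2 else 0) := by
    rw [Finset.sum_ite_mem, Finset.univ_inter]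
  rw [h1, ← Finset.sum_add_distrib]
  refine Finset.sum_congr rfl (fun i _ => ?_)
  unfold offF
  split_ifs
  · have : (0 + 1).choose 2 = 0 := rfl
    omega
  · omega

theorem enum_finset' {r : ℕ} (P : Finset (Fin r)) :
    ∃ e : Fin P.card → Fin r, Function.Injective e ∧ (∀ k, e k ∈ P) ∧
      (∀ i ∈ P, ∃ k, e k = i) ∧ ∀ f : Fin r → ℕ, ∑ k, f (e k) = ∑ i ∈ P, f i := by
  let g : Fin P.card ≃ P := P.equivFin.symm
  refine ⟨fun k => (g k).1, fun a b hab => g.injective (Subtype.ext hab), fun k => (g k).2,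
    fun i hi => ⟨g.symm ⟨i, hi⟩, by simp⟩, fun f => ?_⟩
  rw [← Finset.sum_coe_sort P f]
  exact Equiv.sum_comp g (fun i : P => f i.1)

/-- a strip made of the points in `P` -/
theorem strip_of_finset {r D κ A : ℕ} {y : Fin r → ℕ} (P : Finset (Fin r)) (hκ : 1 ≤ κ)
    (hκD : κ + 1 ≤ D) (hP : ∀ i ∈ P, y i ≤ κ)
    (hA : ∑ i ∈ P, (y i + 1).choose 2 = fA D κ + A) (h1 : (κ - 1).choose 2 < A)
    (h2 : A + κ.choose 2 + 2 ≤ D - κ + 1) : StripM D κ A y (offF P y) := by
  classical
  obtain ⟨e, he, heP, hePs, hesum⟩ := enum_finset' P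
  have hek : ∀ k, (y ∘ e) k ≤ κ := fun k => hP _ (heP k)
  have hS : ∑ k, ((y ∘ e) k + 1).choose 2 = ∑ i ∈ P, (y i + 1).choose 2 :=
    hesum (fun i => (y i + 1).choose 2)
  have hz : hFm D (κ - 1) (y ∘ e) = 0 := by
    by_contra hcon
    have e1 : {α : Fin 3 →₀ ℕ | α 2 ≤ κ - 1} = {α | α 2 < κ} := by
      ext α
      simp only [Set.mem_ofPred_eq]
      omega
    unfold hFm at hcon
    rw [e1] at hcon
    have h3 : ∃ i, (y ∘ e) i ≠ 0 := by
      by_contra h4
      push Not at h4
      have h5 : ∑ k, ((y ∘ e) k + 1).choose 2 = 0 :=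
        Finset.sum_eq_zero (fun k _ => by rw [h4 k]; rfl)
      omega
    have h4 := strip_window1 hek (by omega) h3 hcon
    rw [hS, hA] at h4
    omega
  have hfull : hFm D κ (y ∘ e) ≤ D - κ + 1 - A := by
    have e1 : {α : Fin 3 →₀ ℕ | α 2 ≤ κ} = {α | α 2 < κ + 1} := by
      ext α
      simp only [Set.mem_ofPred_eq]
      omega
    unfold hFm
    rw [e1]
    have h3 := fA_succ D κ
    have h4 := strip_window2 (D := D) (H := κ + 1) (k := y ∘ e)
      (fun k => (hek k).trans (Nat.le_succ κ)) (by omega) (by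
        rw [hS, hA, h3, Nat.add_sub_cancel]
        omega)
    rw [hS, hA, h3] at h4
    omega
  have hfA := fA_eq (D := D) (H := κ) (by omega)
  have h5 : A + κ * (D + 1) = ∑ k, (y (e k) + 1).choose 2 + κ.choose 2 := by
    have h6 : ∑ k, (y (e k) + 1).choose 2 = fA D κ + A := by rw [← hA]; exact hS
    omega
  have hoff : offF P y = rest e y := by
    funext i
    unfold offF
    by_cases hi : i ∈ P
    · rw [if_pos hi]
      obtain ⟨k, rfl⟩ := hePs i hi
      rw [rest_mem]
    · rw [if_neg hi]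
      exact (rest_not_mem (fun ⟨k, hk⟩ => hi (hk ▸ heP k))).symm
  exact ⟨P.card, e, he, hκ, hκD, by omega, h5, hfull, hz, hoff⟩

end Pool.Agent.Work.MP_0421d9_ag.LD
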