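import Pool.Agent.Work.MP_0421d9_ag.LMix
import Pool.Agent.Work.MP_0421d9_ag.AA6
import Pool.Agent.Work.MP_0421d9_ag.HExact

/-!
Systems with many points of small multiplicity: both halves of the question in all degrees.
-/

namespace Pool.Agent.Work.MP_0421d9_ag.AA

open MvPolynomial Module

/-- the conclusion of the question, in degree `d` -/
def Holds {r : ℕ} (d : ℕ) (p : Fin r → Fin 3 → ℂ) (m : Fin r → ℕ) : Prop :=
  finrank ℂ (linSys d p m) = (d + 2).choose 2 - ∑ i, (m i + 1).choose 2 ∧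
  (linSys d p m ≠ ⊥ →
    (∃ F ∈ linSys d p m, Squarefree F) ∧
    (∀ s : Fin (finrank ℂ (linSys d p m) - 1) → Fin 3 → ℂ, GenericPoints (Sum.elim p s) →
      ∀ F ∈ linSys d p m, F ≠ 0 → (∀ l, eval (s l) F = 0) → SmoothOnBlowup p m F) ∧
    (∃ F ∈ linSys d p m, F ≠ 0 ∧ SmoothOnBlowup p m F))

/-- the points of small multiplicity -/
theorem large_add {r : ℕ} (u : ℕ) (m : Fin r → ℕ) :
    LD.bigC ∅ u m + ∑ i ∈ Finset.univ.filter (fun i => m i ≤ u), (m i + 1).choose 2 =
      ∑ i, (m i + 1).choose 2 := by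
  unfold LD.bigC
  rw [← Finset.sum_filter_add_sum_filter_not Finset.univ
    (fun i => i ∈ (∅ : Finset (Fin r)) ∨ u < m i)]
  congr 1
  refine Finset.sum_congr (Finset.filter_congr (fun i _ => ?_)) (fun _ _ => rfl)
  simp

/-- the systems in degree `d` -/
theorem three_of_tail {r d M u n D : ℕ} {m : Fin r → ℕ} (hu : 1 ≤ u) (huM : u ≤ M)
    (hn : ∑ i, (m i + 1).choose 2 ≤ n) (hD : 4 * n ≤ D ^ 2) (hDu : 12 * (u + 1) ≤ D)
    (htail : 2 * ((M + 4 * (u + 1) ^ 2) * M + 3 * (u + 1) * D) ≤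
      ∑ i ∈ Finset.univ.filter (fun i => m i ≤ u), (m i + 1).choose 2)
    (hd : 32 * (u + 1) ^ 2 ≤ d) : Three u M M d ∅ m := by
  have hadd := large_add u m
  obtain ⟨T, hT⟩ : ∃ T, T = ∑ i ∈ Finset.univ.filter (fun i => m i ≤ u), (m i + 1).choose 2 :=
    ⟨_, rfl⟩
  rw [← hT] at hadd htail
  refine ⟨hu, huM, hd, LD.Rg_empty _ m, Or.inr ?_⟩
  · rcases Nat.lt_or_ge D d with h | h
    · left
      have h1 : 3 * (u + 1) * d * 4 ≤ d * d := by
        calc 3 * (u + 1) * d * 4 = (12 * (u + 1)) * d := by ring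
          _ ≤ d * d := Nat.mul_le_mul_right d (by omega)
      have h2 : D ^ 2 ≤ d * d := by
        rw [sq]
        exact Nat.mul_le_mul h.le h.le
      have h3 := LD.tr_two_choose (d + 1)
      have h4 : (d + 1) * (d + 1 + 1) = d * d + 3 * d + 2 := by ring
      have e1 : d + 1 + 1 = d + 2 := rfl
      rw [e1] at h3 h4
      omega
    · right
      have h1 : 3 * (u + 1) * d ≤ 3 * (u + 1) * D := Nat.mul_le_mul_left _ h
      omega

/-- **All degrees.** -/
theorem holds_of_tail {r M u n D : ℕ} (p : Fin r → Fin 3 → ℂ) (hp : GenericPoints p)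
    (m : Fin r → ℕ) (hu : 1 ≤ u) (huM : u ≤ M) (hM : ∀ i, m i ≤ M)
    (h1 : M < (Finset.univ.filter (fun i => m i = 1)).card)
    (hn : ∑ i, (m i + 1).choose 2 ≤ n) (hD : 4 * n ≤ D ^ 2) (hDu : 12 * (u + 1) ≤ D)
    (htail : 2 * ((3 * (M + 1) + 10 * (u + 1) ^ 2) * (M + 1) + 3 * (u + 1) * D) ≤
      ∑ i ∈ Finset.univ.filter (fun i => m i ≤ u), (m i + 1).choose 2)
    (h32 : (32 * (u + 1) ^ 2 + 2) ^ 2 ≤
      ∑ i ∈ Finset.univ.filter (fun i => m i ≤ u), (m i + 1).choose 2) (d : ℕ) :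
    Holds d p m := by
  classical
  have hadd := large_add u m
  have htail' : 2 * ((M + 1 + 4 * (u + 1) ^ 2) * (M + 1) + 3 * (u + 1) * D) ≤
      ∑ i ∈ Finset.univ.filter (fun i => m i ≤ u), (m i + 1).choose 2 :=
    le_trans (Nat.mul_le_mul_left 2 (Nat.add_le_add_right (Nat.mul_le_mul_right _ (by omega)) _))
      htail
  have htail'' : 2 * ((M + 4 * (u + 1) ^ 2) * M + 3 * (u + 1) * D) ≤
      ∑ i ∈ Finset.univ.filter (fun i => m i ≤ u), (m i + 1).choose 2 :=
    le_trans (Nat.mul_le_mul_left 2 (Nat.add_le_add_right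
      (Nat.mul_le_mul (by omega) (by omega)) _)) htail'
  obtain ⟨T, hT⟩ : ∃ T, T = ∑ i ∈ Finset.univ.filter (fun i => m i ≤ u), (m i + 1).choose 2 :=
    ⟨_, rfl⟩
  rcases Nat.lt_or_ge d (32 * (u + 1) ^ 2) with hd | hd
  · -- small degree: the system is empty
    obtain ⟨e, he⟩ : ∃ e, e = 32 * (u + 1) ^ 2 := ⟨_, rfl⟩
    have h2 := (three_of_tail (d := e) hu huM hn hD hDu htail'' he.ge).ns le_rfl hM
      (fun i _ => hM i)
    have h3 : (e + 2).choose 2 ≤ ∑ i, (m i + 1).choose 2 := by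
      have h4 := LD.tr_two_choose (e + 1)
      have h5 : (e + 1) * (e + 1 + 1) = e * e + 3 * e + 2 := by ring
      have h6 : (e + 2) ^ 2 = e * e + 4 * e + 4 := by ring
      have e1 : e + 1 + 1 = e + 2 := rfl
      rw [e1] at h4 h5
      rw [← he, ← hT] at h32
      rw [← hT] at hadd
      omega
    have h5 : finrank ℂ (linSys d p m) = 0 := by
      rw [LD.hPm_eq hp]
      have := LD.hPm_mono' m (show d ≤ e by omega)
      omega
    have h6 : (d + 2).choose 2 ≤ (e + 2).choose 2 := Nat.choose_le_choose 2 (by omega)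
    have hfin : Module.Finite ℂ (linSys d p m) :=
      Submodule.finiteDimensional_of_le (linSys_le d p _)
    refine ⟨?_, fun hne => absurd (Submodule.finrank_eq_zero.mp h5) hne⟩
    rw [h5]
    omega
  · have hg := three_of_tail (d := d) hu huM hn hD hDu htail'' hd
    have hg' := three_of_tail (d := d) (M := M + 1) hu (by omega) hn hD hDu htail' hd
    refine ⟨?_, fun hne => ?_⟩
    · rw [LD.hPm_eq hp]
      exact hg.ns le_rfl hM (fun i _ => hM i)
    · obtain ⟨f₁, hf₁, hf₁0⟩ := Submodule.exists_mem_ne_zero_of_ne_bot hne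
      have hmd : ∀ i, m i ≤ d := fun i => le_of_vanishTo hf₁.1 hf₁0 (hf₁.2 i)
      refine hg'.smooth hp le_rfl hM (fun i _ => hM i) (k' := d) (fun i _ => hmd i) ?_ hne
      have h3 : exempt (∅ : Finset (Fin r)) (finrank ℂ (linSys d p m) +
          (Finset.univ.filter (fun j => m j = 1)).card) m = ∅ := by
        unfold exempt
        rw [Finset.filter_eq_empty_iff]
        intro i _ h4
        have := hM i
        rcases h4 with h4 | h4
        · exact absurd h4 (Finset.notMem_empty i)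
        · omega
      rw [h3, Finset.sum_empty, Nat.add_zero]
      exact Nat.choose_le_choose 2 (Nat.le_succ d)

end Pool.Agent.Work.MP_0421d9_ag.AA
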