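import Pool.Agent.Work.MP_0421d9_ag.AA6

/-!
Counting multisets of multiplicities: the proportion of the typical multisets.
-/

namespace Pool.Agent.Work.MP_0421d9_ag.AA

open Filter

/-- the number of conditions imposed by points with the multiplicities in `s` -/
def conditions (s : Multiset ℕ) : ℕ := (s.map (fun v => (v + 1).choose 2)).sum

/-- the multisets of positive integers with at most `n` conditions -/
def systems (n : ℕ) : Set (Multiset ℕ) := {s | 0 ∉ s ∧ conditions s ≤ n}

/-- the numbers of points of each multiplicity -/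
def cts (n : ℕ) (s : Multiset ℕ) : Fin n → ℕ := fun i => s.count ((i : ℕ) + 1)

/-- the multiset with given numbers of points of each multiplicity -/
def toMs {n : ℕ} (f : Fin n → ℕ) : Multiset ℕ :=
  ∑ i, Multiset.replicate (f i) ((i : ℕ) + 1)

theorem le_choose (v : ℕ) : v ≤ (v + 1).choose 2 := by
  have h := two_mul_tr v
  unfold tr at h
  nlinarith [Nat.zero_le v, h, Nat.le_self_pow (n := 2) (by norm_num) v]

theorem bound_of_mem {n : ℕ} {s : Multiset ℕ} (hs : s ∈ systems n) {v : ℕ} (hv : v ∈ s) :
    1 ≤ v ∧ v ≤ n := by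
  obtain ⟨h0, h1⟩ := hs
  refine ⟨Nat.one_le_iff_ne_zero.mpr (fun h => h0 (h ▸ hv)), ?_⟩
  have h2 : (v + 1).choose 2 ≤ conditions s := by
    unfold conditions
    exact Multiset.le_sum_of_mem (Multiset.mem_map_of_mem (fun v => (v + 1).choose 2) hv)
  exact (le_choose v).trans (h2.trans h1)

theorem wt_cts {n : ℕ} {s : Multiset ℕ} (hs : s ∈ systems n) : wt (cts n s) = conditions s := by
  classical
  unfold conditions
  rw [Finset.sum_multiset_map_count]
  unfold wt cts
  have h1 : ∑ i : Fin n, s.count ((i : ℕ) + 1) * tr ((i : ℕ) + 1) =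
      ∑ v ∈ Finset.univ.image (fun i : Fin n => (i : ℕ) + 1), s.count v * tr v := by
    rw [Finset.sum_image]
    intro i _ j _ h
    exact Fin.ext (by simpa using h)
  rw [h1]
  symm
  apply Finset.sum_subset
  · intro v hv
    rw [Multiset.mem_toFinset] at hv
    have h2 := bound_of_mem hs hv
    rw [Finset.mem_image]
    exact ⟨⟨v - 1, by omega⟩, Finset.mem_univ _, by simp only; omega⟩
  · intro v _ hv
    rw [Multiset.mem_toFinset] at hv
    rw [Multiset.count_eq_zero_of_notMem hv, zero_smul]

theorem cts_inj {n : ℕ} : Set.InjOn (cts n) (systems n) := by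
  intro s hs s' hs' h
  ext v
  rcases Nat.eq_zero_or_pos v with rfl | hv
  · rw [Multiset.count_eq_zero_of_notMem hs.1, Multiset.count_eq_zero_of_notMem hs'.1]
  · by_cases hvn : v ≤ n
    · have h1 := congrFun h ⟨v - 1, by omega⟩
      unfold cts at h1
      simp only at h1
      rwa [Nat.sub_add_cancel hv] at h1
    · rw [Multiset.count_eq_zero_of_notMem (fun h2 => hvn (bound_of_mem hs h2).2),
        Multiset.count_eq_zero_of_notMem (fun h2 => hvn (bound_of_mem hs' h2).2)]

theorem count_toMs {n : ℕ} (f : Fin n → ℕ) (v : ℕ) :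
    (toMs f).count v = ∑ i : Fin n, if (i : ℕ) + 1 = v then f i else 0 := by
  unfold toMs
  rw [Multiset.count_sum']
  apply Finset.sum_congr rfl
  intro i _
  rw [Multiset.count_replicate]

theorem cts_toMs {n : ℕ} (f : Fin n → ℕ) : cts n (toMs f) = f := by
  funext i
  unfold cts
  rw [count_toMs, Finset.sum_eq_single i]
  · simp
  · intro j _ hj
    rw [if_neg]
    intro h
    exact hj (Fin.ext (by omega))
  · intro h
    exact absurd (Finset.mem_univ _) h

theorem conditions_toMs {n : ℕ} (f : Fin n → ℕ) : conditions (toMs f) = wt f := by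
  have hadd : ∀ S : Finset (Fin n), conditions
      (∑ i ∈ S, Multiset.replicate (f i) ((i : ℕ) + 1)) = ∑ i ∈ S, f i * tr ((i : ℕ) + 1) := by
    intro S
    induction S using Finset.induction_on with
    | empty => rfl
    | insert a S ha ih =>
      rw [Finset.sum_insert ha, Finset.sum_insert ha, ← ih]
      unfold conditions
      rw [Multiset.map_add, Multiset.sum_add, Multiset.map_replicate, Multiset.sum_replicate,
        smul_eq_mul]
      rfl
  exact hadd Finset.univ

theorem toMs_mem {n : ℕ} {f : Fin n → ℕ} (hf : wt f ≤ n) : toMs f ∈ systems n := by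
  refine ⟨?_, by rw [conditions_toMs]; exact hf⟩
  intro h
  have h1 := Multiset.count_pos.mpr h
  rw [count_toMs] at h1
  rw [Finset.sum_eq_zero (fun i _ => if_neg (Nat.succ_ne_zero _))] at h1
  exact lt_irrefl _ h1

theorem image_cts (n : ℕ) : cts n '' systems n = (FF n n : Set (Fin n → ℕ)) := by
  ext f
  rw [Set.mem_image, Finset.mem_coe, mem_FF]
  constructor
  · rintro ⟨s, hs, rfl⟩
    rw [wt_cts hs]
    exact hs.2
  · intro hf
    exact ⟨toMs f, toMs_mem hf, cts_toMs f⟩

theorem finite_systems (n : ℕ) : (systems n).Finite := by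
  apply Set.Finite.of_finite_image _ cts_inj
  rw [image_cts]
  exact Finset.finite_toSet _

theorem ncard_systems (n : ℕ) : (systems n).ncard = (FF n n).card := by
  rw [← Set.InjOn.ncard_image cts_inj, image_cts, Set.ncard_coe_finset]

/-- a property of almost all multisets -/
theorem tendsto_of_nice {P : Multiset ℕ → Prop} (h : ∀ᶠ n : ℕ in atTop, ∀ s ∈ systems n,
    Nice n (fun i : Fin n => s.count ((i : ℕ) + 1)) → P s) :
    (∀ n, (systems n).Finite) ∧
    Tendsto (fun n : ℕ => (({s ∈ systems n | P s} : Set (Multiset ℕ)).ncard : ℝ) /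
      (systems n).ncard) atTop (nhds 1) := by
  classical
  refine ⟨finite_systems, ?_⟩
  rw [Metric.tendsto_nhds]
  intro ε hε
  filter_upwards [h, most_nice (ε := ε / 2) (by positivity)] with n h1 h2
  have hfin := finite_systems n
  have hpos : (0 : ℝ) < (FF n n).card := by
    exact_mod_cast Finset.card_pos.mpr ⟨0, zero_mem_FF n n⟩
  have hbad : (({s ∈ systems n | ¬ P s} : Set (Multiset ℕ)).ncard : ℝ) ≤
      ε / 2 * (FF n n).card := by
    refine le_trans ?_ h2
    have hinj : Set.InjOn (cts n) {s ∈ systems n | ¬ P s} :=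
      cts_inj.mono (fun s hs => hs.1)
    rw [← Set.InjOn.ncard_image hinj]
    have hsub : cts n '' {s ∈ systems n | ¬ P s} ⊆ {f : Fin n → ℕ | wt f ≤ n ∧ ¬ Nice n f} := by
      rintro f ⟨s, ⟨hs, hPs⟩, rfl⟩
      refine ⟨by rw [wt_cts hs]; exact hs.2, fun hn => hPs (h1 s hs hn)⟩
    have hfin2 : ({f : Fin n → ℕ | wt f ≤ n ∧ ¬ Nice n f}).Finite := by
      apply (Finset.finite_toSet (FF n n)).subset
      intro f hf
      rw [Finset.mem_coe, mem_FF]
      exact hf.1
    exact_mod_cast Set.ncard_le_ncard hsub hfin2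
  have hsum : (({s ∈ systems n | P s} : Set (Multiset ℕ)).ncard : ℝ) +
      (({s ∈ systems n | ¬ P s} : Set (Multiset ℕ)).ncard : ℝ) = (FF n n).card := by
    rw [← ncard_systems n]
    have hdisj : Disjoint {s ∈ systems n | P s} {s ∈ systems n | ¬ P s} := by
      rw [Set.disjoint_left]
      exact fun s hs hs' => hs'.2 hs.2
    have hun : {s ∈ systems n | P s} ∪ {s ∈ systems n | ¬ P s} = systems n := by
      ext s
      simp only [Set.mem_union, Set.mem_ofPred_eq]
      tauto
    have := Set.ncard_union_eq hdisj (hfin.subset (fun s hs => hs.1))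
      (hfin.subset (fun s hs => hs.1))
    rw [hun] at this
    exact_mod_cast this.symm
  rw [ncard_systems, Real.dist_eq]
  have h3 : (({s ∈ systems n | P s} : Set (Multiset ℕ)).ncard : ℝ) / (FF n n).card - 1 =
      -((({s ∈ systems n | ¬ P s} : Set (Multiset ℕ)).ncard : ℝ) / (FF n n).card) := by
    rw [← hsum]
    rw [← hsum] at hpos
    field_simp
    ring
  rw [h3, abs_neg, abs_of_nonneg (by positivity), div_lt_iff₀ hpos]
  nlinarith

end Pool.Agent.Work.MP_0421d9_ag.AA
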