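import Pool.Agent.Work.MP_0421d9_ag.AA7
import Pool.Agent.Work.MP_0421d9_ag.AA8

/-!
Both halves of the question in all degrees for almost all multisets of multiplicities.
-/

namespace Pool.Agent.Work.MP_0421d9_ag.AA

open Real Filter

theorem sum_map_univ {r : ℕ} (m : Fin r → ℕ) (g : ℕ → ℕ) :
    ((Finset.univ.val.map m).map g).sum = ∑ i, g (m i) := by
  rw [Multiset.map_map]
  rfl

theorem card_eq_count {r : ℕ} (m : Fin r → ℕ) (v : ℕ) :
    (Finset.univ.filter (fun i => m i = v)).card = (Finset.univ.val.map m).count v := by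
  rw [Multiset.count_map]
  have h1 : (Finset.univ.filter (fun i => m i = v)).card =
      Multiset.card (Multiset.filter (fun i => m i = v) (Finset.univ : Finset (Fin r)).val) := rfl
  rw [h1, Multiset.filter_congr (fun i _ => eq_comm)]

/-- the small multiplicities -/
theorem tail_eq {r n u : ℕ} (m : Fin r → ℕ) (h0 : ∀ i, m i ≠ 0) (hn : ∀ i, m i ≤ n) :
    tail u (fun i : Fin n => (Finset.univ.val.map m).count ((i : ℕ) + 1)) =
      ∑ i ∈ Finset.univ.filter (fun i => m i ≤ u), (m i + 1).choose 2 := by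
  classical
  unfold tail
  simp only [← card_eq_count]
  -- sum over the values
  rw [← Finset.sum_fiberwise_of_maps_to (s := Finset.univ.filter (fun i => m i ≤ u))
    (t := (Finset.univ.filter (fun i : Fin n => (i : ℕ) + 1 ≤ u)).image (fun i : Fin n => (i : ℕ) + 1))
    (g := m)]
  · rw [Finset.sum_image (fun a _ b _ hab => Fin.ext (Nat.add_right_cancel hab))]
    refine Finset.sum_congr rfl (fun j hj => ?_)
    have hj' := (Finset.mem_filter.mp hj).2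
    have h1 : ∀ i ∈ (Finset.univ.filter (fun i => m i ≤ u)).filter
        (fun i => m i = (j : ℕ) + 1), (m i + 1).choose 2 = tr ((j : ℕ) + 1) := by
      intro i hi
      rw [(Finset.mem_filter.mp hi).2]
      rfl
    rw [Finset.sum_congr rfl h1, Finset.sum_const, smul_eq_mul]
    congr 2
    ext i
    simp only [Finset.mem_filter, Finset.mem_univ, true_and]
    constructor
    · intro h
      exact ⟨by omega, h⟩
    · intro h
      exact h.2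
  · intro i hi
    have hi' := (Finset.mem_filter.mp hi).2
    have h1 := h0 i
    have h2 := hn i
    rw [Finset.mem_image]
    refine ⟨⟨m i - 1, by omega⟩, ?_, ?_⟩
    · rw [Finset.mem_filter]
      refine ⟨Finset.mem_univ _, ?_⟩
      dsimp only
      omega
    · dsimp only
      omega

/-- the numerical conditions for a large number of conditions -/
theorem ev_numbers : ∀ᶠ n : ℕ in atTop, 2 ≤ n ∧ 1 ≤ Ux n ∧ Ux n ≤ Mx n ∧
    12 * (Ux n + 1) ≤ 2 * Nat.sqrt n + 2 ∧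
    ((2 * ((3 * (Mx n + 1) + 10 * (Ux n + 1) ^ 2) * (Mx n + 1) +
      3 * (Ux n + 1) * (2 * Nat.sqrt n + 2)) : ℕ) : ℝ) ≤ (n : ℝ) ^ (865 / 1000 : ℝ) ∧
    (((32 * (Ux n + 1) ^ 2 + 2) ^ 2 : ℕ) : ℝ) ≤ (n : ℝ) ^ (865 / 1000 : ℝ) := by
  filter_upwards [eventually_ge_atTop 2,
    ev_rpow (show (1 / 5 : ℝ) < 1 / 2 by norm_num) 18,
    ev_rpow (show (856 / 1000 : ℝ) < 865 / 1000 by norm_num) 162,
    ev_rpow (show (828 / 1000 : ℝ) < 865 / 1000 by norm_num) 1620,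
    ev_rpow (show (7 / 10 : ℝ) < 865 / 1000 by norm_num) 216,
    ev_rpow (show (4 / 5 : ℝ) < 865 / 1000 by norm_num) 100000] with n h0 g1 g2 g3 g4 g5
  have h0' : (2 : ℝ) ≤ n := by exact_mod_cast h0
  have hN : (0 : ℝ) < n := lt_of_lt_of_le two_pos h0'
  have hp1 : (1 : ℝ) ≤ (n : ℝ) ^ (1 / 5 : ℝ) := one_le_rpow (by linarith) (by norm_num)
  have hp2 : (1 : ℝ) ≤ (n : ℝ) ^ (428 / 1000 : ℝ) := one_le_rpow (by linarith) (by norm_num)
  have hp3 : (1 : ℝ) ≤ (n : ℝ) ^ (1 / 2 : ℝ) := one_le_rpow (by linarith) (by norm_num)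
  have hU : (n : ℝ) ^ (1 / 5 : ℝ) ≤ Ux n := Nat.le_ceil _
  have hU2 : (Ux n : ℝ) + 1 ≤ 3 * (n : ℝ) ^ (1 / 5 : ℝ) := by
    have h4 := (Nat.ceil_lt_add_one (show (0 : ℝ) ≤ (n : ℝ) ^ (1 / 5 : ℝ) by positivity)).le
    have h5 : (Ux n : ℝ) = (⌈(n : ℝ) ^ (1 / 5 : ℝ)⌉₊ : ℝ) := rfl
    rw [h5]
    linarith
  have hM2 : (Mx n : ℝ) + 1 ≤ 3 * (n : ℝ) ^ (428 / 1000 : ℝ) := by
    have h4 := (Nat.ceil_lt_add_one (show (0 : ℝ) ≤ (n : ℝ) ^ (428 / 1000 : ℝ) by positivity)).le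
    have h5 : (Mx n : ℝ) = (⌈(n : ℝ) ^ (428 / 1000 : ℝ)⌉₊ : ℝ) := rfl
    rw [h5]
    linarith
  have hU1 : 1 ≤ Ux n := by
    have : (1 : ℝ) ≤ Ux n := hp1.trans hU
    exact_mod_cast this
  have hUM : Ux n ≤ Mx n :=
    Nat.ceil_le_ceil (rpow_le_rpow_of_exponent_le (by linarith) (by norm_num))
  have hhalf : (n : ℝ) ^ (1 / 2 : ℝ) = sqrt n := by rw [sqrt_eq_rpow]
  have hs1 : (Nat.sqrt n : ℝ) ≤ (n : ℝ) ^ (1 / 2 : ℝ) := by
    rw [hhalf]
    exact Real.nat_sqrt_le_real_sqrt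
  have hs2 : (n : ℝ) ^ (1 / 2 : ℝ) ≤ (Nat.sqrt n : ℝ) + 1 := by
    rw [hhalf]
    exact Real.real_sqrt_le_nat_sqrt_succ
  have hD : (2 : ℝ) * Nat.sqrt n + 2 ≤ 4 * (n : ℝ) ^ (1 / 2 : ℝ) := by linarith
  refine ⟨h0, hU1, hUM, ?_, ?_, ?_⟩
  · have h1 : (12 : ℝ) * ((Ux n : ℝ) + 1) ≤ 2 * Nat.sqrt n + 2 := by linarith
    exact_mod_cast h1
  · push_cast
    obtain ⟨a, ha⟩ : ∃ a, a = (n : ℝ) ^ (1 / 5 : ℝ) := ⟨_, rfl⟩
    obtain ⟨b, hb⟩ : ∃ b, b = (n : ℝ) ^ (428 / 1000 : ℝ) := ⟨_, rfl⟩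
    obtain ⟨c, hc⟩ : ∃ c, c = (n : ℝ) ^ (1 / 2 : ℝ) := ⟨_, rfl⟩
    have e1 : (n : ℝ) ^ (856 / 1000 : ℝ) = b ^ 2 := by
      rw [hb, ← rpow_natCast, ← rpow_mul hN.le]
      norm_num
    have e2 : (n : ℝ) ^ (828 / 1000 : ℝ) = a ^ 2 * b := by
      rw [ha, hb, ← rpow_natCast, ← rpow_mul hN.le, ← rpow_add hN]
      norm_num
    have e3 : (n : ℝ) ^ (7 / 10 : ℝ) = a * c := by
      rw [ha, hc, ← rpow_add hN]
      norm_num
    rw [e1] at g2
    rw [e2] at g3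
    rw [e3] at g4
    rw [← ha] at hU2
    rw [← hb] at hM2
    rw [← hc] at hD
    have ha0 : 0 ≤ a := by rw [ha]; positivity
    have hb0 : 0 ≤ b := by rw [hb]; positivity
    have hc0 : 0 ≤ c := by rw [hc]; positivity
    have k0 : (0 : ℝ) ≤ (Ux n : ℝ) + 1 := by positivity
    have k1 : (0 : ℝ) ≤ (Mx n : ℝ) + 1 := by positivity
    have k2 : ((Mx n : ℝ) + 1) ^ 2 ≤ (3 * b) ^ 2 := pow_le_pow_left₀ k1 hM2 2
    have k3 : ((Ux n : ℝ) + 1) ^ 2 ≤ (3 * a) ^ 2 := pow_le_pow_left₀ k0 hU2 2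
    have k4 : ((Ux n : ℝ) + 1) ^ 2 * ((Mx n : ℝ) + 1) ≤ (3 * a) ^ 2 * (3 * b) :=
      mul_le_mul k3 hM2 k1 (by positivity)
    have k5 : ((Ux n : ℝ) + 1) * (2 * Nat.sqrt n + 2) ≤ (3 * a) * (4 * c) :=
      mul_le_mul hU2 hD (by positivity) (by positivity)
    have k6 : (3 * a) ^ 2 * (3 * b) = 27 * (a ^ 2 * b) := by ring
    have k7 : (3 * a) * (4 * c) = 12 * (a * c) := by ring
    have k8 : (3 * b) ^ 2 = 9 * b ^ 2 := by ring
    rw [k8] at k2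
    rw [k6] at k4
    rw [k7] at k5
    have k9 : 2 * ((3 * ((Mx n : ℝ) + 1) + 10 * ((Ux n : ℝ) + 1) ^ 2) * ((Mx n : ℝ) + 1) +
        3 * ((Ux n : ℝ) + 1) * (2 * Nat.sqrt n + 2)) =
        6 * ((Mx n : ℝ) + 1) ^ 2 + 20 * (((Ux n : ℝ) + 1) ^ 2 * ((Mx n : ℝ) + 1)) +
        6 * (((Ux n : ℝ) + 1) * (2 * Nat.sqrt n + 2)) := by ring
    rw [k9]
    linarith
  · push_cast
    obtain ⟨a, ha⟩ : ∃ a, a = (n : ℝ) ^ (1 / 5 : ℝ) := ⟨_, rfl⟩
    rw [← ha] at hU2 hp1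
    have ha0 : 0 ≤ a := by rw [ha]; positivity
    have e1 : (n : ℝ) ^ (4 / 5 : ℝ) = a ^ 4 := by
      rw [ha, ← rpow_natCast, ← rpow_mul hN.le]
      norm_num
    rw [e1] at g5
    have k0 : (0 : ℝ) ≤ (Ux n : ℝ) + 1 := by positivity
    have k3 : ((Ux n : ℝ) + 1) ^ 2 ≤ (3 * a) ^ 2 := pow_le_pow_left₀ k0 hU2 2
    have k4 : 32 * ((Ux n : ℝ) + 1) ^ 2 + 2 ≤ 290 * a ^ 2 := by nlinarith
    have k5 : (32 * ((Ux n : ℝ) + 1) ^ 2 + 2) ^ 2 ≤ (290 * a ^ 2) ^ 2 :=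
      pow_le_pow_left₀ (by positivity) k4 2
    have k6 : (290 * a ^ 2) ^ 2 = 84100 * a ^ 4 := by ring
    rw [k6] at k5
    have k7 : 0 ≤ a ^ 4 := by positivity
    linarith

/-- typical multisets of multiplicities -/
theorem fine_of_nice : ∀ᶠ n : ℕ in atTop, ∀ s ∈ systems n,
    Nice n (fun i : Fin n => s.count ((i : ℕ) + 1)) → ∀ (r : ℕ) (m : Fin r → ℕ),
    Finset.univ.val.map m = s → ∀ p : Fin r → Fin 3 → ℂ, GenericPoints p → ∀ d, Holds d p m := by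
  filter_upwards [ev_numbers] with n hnum
  obtain ⟨h2, hu, huM, h12, htail, h32⟩ := hnum
  rintro s ⟨hs0, hsn⟩ ⟨hN1, hN2, hN3⟩ r m hm p hp d
  have hcond : ∑ i, (m i + 1).choose 2 ≤ n := by
    unfold conditions at hsn
    rw [← hm, sum_map_univ] at hsn
    exact hsn
  have hmem : ∀ i, m i ∈ s := fun i => by
    rw [← hm]
    exact Multiset.mem_map_of_mem m (Finset.mem_univ i)
  have hm0 : ∀ i, m i ≠ 0 := fun i h => hs0 (h ▸ hmem i)
  have hmn : ∀ i, m i ≤ n := by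
    intro i
    have h3 : (m i + 1).choose 2 ≤ ∑ i, (m i + 1).choose 2 :=
      Finset.single_le_sum (f := fun i => (m i + 1).choose 2) (fun _ _ => Nat.zero_le _)
        (Finset.mem_univ i)
    have h4 := two_mul_tr (m i)
    unfold tr at h4
    have h5 := hm0 i
    have h6 : m i * 2 ≤ m i * (m i + 1) := Nat.mul_le_mul_left _ (by omega)
    omega
  have hM : ∀ i, m i ≤ Mx n := by
    intro i
    by_contra hcon
    have h3 := hm0 i
    have h4 := hmn i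
    have h5 := hN1 ⟨m i - 1, by omega⟩ (by
      dsimp only
      omega)
    dsimp only at h5
    rw [Nat.sub_add_cancel (by omega), Multiset.count_eq_zero] at h5
    exact h5 (hmem i)
  have hsimple : Mx n < (Finset.univ.filter (fun i => m i = 1)).card := by
    have h3 := hN2 ⟨0, by omega⟩ rfl
    dsimp only at h3
    rw [card_eq_count, hm]
    simp only [Nat.zero_add] at h3
    omega
  rw [← hm, tail_eq m hm0 hmn] at hN3
  have htail' := htail.trans hN3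
  have h32' := h32.trans hN3
  refine holds_of_tail p hp m hu huM hM hsimple hcond (D := 2 * Nat.sqrt n + 2) ?_ h12
    (by exact_mod_cast htail') (by exact_mod_cast h32') d
  have h3 := Nat.lt_succ_sqrt n
  have h4 : (2 * Nat.sqrt n + 2) ^ 2 = 4 * ((Nat.sqrt n).succ * (Nat.sqrt n).succ) := by
    rw [Nat.succ_eq_add_one]
    ring
  rw [h4]
  omega

end Pool.Agent.Work.MP_0421d9_ag.AA
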