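import Pool.Agent.Work.MP_0421d9_ag.Outside

/-!
Transversality of the rigid member to the exceptional curves.
-/

set_option linter.unusedSectionVars false

namespace Pool.Agent.Work.MP_0421d9_ag

open MvPolynomial

variable {ι κ : Type} [Fintype ι] [Fintype κ] [DecidableEq ι] [DecidableEq κ]

variable {d : ℕ} {P : ι ⊕ κ → V3} {E : ι ⊕ κ → Fin 3 → Derivation ℚ ℂ ℂ} {m : ι → ℕ} {F : R3}

/-- the direction `u` at the point `p` is a multiple tangent direction of `F`, where `F` has
multiplicity at least `m` at `p` -/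
def BadDir (d : ℕ) (F : R3) (p : V3) (m : ℕ) (u : V3) : Prop :=
  B (lin p ^ (d - m) * lin u ^ m) F = 0 ∧
    (1 ≤ m → ∀ w, B (lin p ^ (d - m) * (lin u ^ (m - 1) * lin w)) F = 0)

namespace Rigid

theorem bad_mem_J (S : Rigid d P E m F) {i : ι} {u : V3}
    (h : BadDir d F (P (Sum.inl i)) (m i) u) :
    lin (P (Sum.inl i)) ^ (d - m i) * lin u ^ m i ∈ J d (fun i => P (Sum.inl i)) m := by
  apply S.memJ _ h.1
  · intro k v
    have h1 := D_B (mv E (Sum.inr k) v) (lin (P (Sum.inl i)) ^ (d - m i) * lin u ^ m i) F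
    rw [h.1, map_zero, cD_mul, cD_lin_pow_ne S.hE (by simp), zero_mul, zero_add,
      cD_lin_pow_eq] at h1
    have h2 : lin (P (Sum.inl i)) ^ (d - m i) * (C (m i : ℂ) * (lin u ^ (m i - 1) *
        lin (fun l => mv E (Sum.inr k) v (u l)))) = C (m i : ℂ) *
        (lin (P (Sum.inl i)) ^ (d - m i) * (lin u ^ (m i - 1) *
          lin (fun l => mv E (Sum.inr k) v (u l)))) := by ring
    rw [h2, B_C_mul_left] at h1
    rcases Nat.eq_zero_or_pos (m i) with hz | hz
    · have h3 : (m i : ℂ) = 0 := by rw [hz, Nat.cast_zero]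
      rw [h3, zero_mul, zero_add] at h1
      exact h1.symm
    · rw [h.2 hz, mul_zero, zero_add] at h1
      exact h1.symm
  · have := (lin_isHomogeneous_pow (P (Sum.inl i)) (d - m i)).mul (lin_isHomogeneous_pow u (m i))
    rwa [Nat.sub_add_cancel (S.hm i)] at this

/-- no bad direction at the points where the hypothesis holds -/
theorem no_bad_full (S : Rigid d P E m F) (hsq : Squarefree F) {i : ι}
    (hfull : 3 ≤ m i → Full d (fun i => P (Sum.inl i)) m i) {u : V3}
    (hu : cr (P (Sum.inl i)) u ≠ 0) (h : BadDir d F (P (Sum.inl i)) (m i) u) : False := by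
  by_cases h3 : 3 ≤ m i
  · have h1 := hfull h3 (lin u ^ m i) (lin_isHomogeneous_pow u (m i)) (S.bad_mem_J h)
    exact hu (lin_dvd_lin ((lin_prime (gp1 S.hE _)).dvd_of_dvd_pow h1))
  · have hcases : m i = 0 ∨ m i = 1 ∨ m i = 2 := by omega
    rcases hcases with h4 | h4 | h4
    · apply S.R0 i h4
      have := h.1
      rwa [h4, pow_zero, mul_one, Nat.sub_zero] at this
    · apply S.R1 i h4
      intro v
      have := h.2 (by omega) v
      rwa [h4, Nat.sub_self, pow_zero, one_mul] at this
    · apply hu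
      apply S.R2 hsq i h4
      intro v
      have := h.2 (by omega) v
      rwa [h4, (by norm_num : 2 - 1 = 1), pow_one] at this

/-- no bad direction at the three remaining points -/
theorem no_bad_special (S : Rigid d P E m F) (hsq : Squarefree F) {a b c : ι} (hab : a ≠ b)
    (hac : a ≠ c) (hbc : b ≠ c) (hex : ∃ e, e ≠ a ∧ e ≠ b ∧ e ≠ c)
    (hfull : ∀ j, j ≠ a → j ≠ b → j ≠ c → 3 ≤ m j → Full d (fun i => P (Sum.inl i)) m j)
    {u : V3} (hu : cr (P (Sum.inl a)) u ≠ 0) (h : BadDir d F (P (Sum.inl a)) (m a) u) :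
    False := by
  rcases Nat.eq_zero_or_pos (m a) with hz | hz
  · apply S.R0 a hz
    have := h.1
    rwa [hz, pow_zero, mul_one, Nat.sub_zero] at this
  set p : ι → V3 := fun i => P (Sum.inl i) with hp
  have hN : ∀ G ∈ HH m, Psi d p m G = 0 → G = 0 := fun G hG h0 =>
    S.unique_rel hsq hab hac hbc hfull hG h0
  have hJ : lin (p a) ^ (d - m a) * lin u ^ m a ∈ J d p m := S.bad_mem_J h
  obtain ⟨G, hG', hGq⟩ := mem_J.mp hJ
  have hG : G ∈ HH m := mem_HH.mpr hG'
  rw [← Psi_apply] at hGq
  have hma : lin u ^ (m a - 1) ∈ Hm (m a) := by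
    obtain ⟨n, hn⟩ : ∃ n, m a = n + 1 := ⟨m a - 1, by omega⟩
    rw [hn, mem_Hm_succ, Nat.add_sub_cancel]
    exact lin_isHomogeneous_pow u n
  have hmane : (m a : ℂ) ≠ 0 := by
    rw [Nat.cast_ne_zero]; omega
  -- the derivative along the motion of another point
  have hcD : ∀ j, j ≠ a → ∀ v, cD (mv E (Sum.inl j) v) (Psi d p m G) =
      C (m a : ℂ) * (lin (p a) ^ (d - m a) * (lin u ^ (m a - 1) *
        lin (fun l => mv E (Sum.inl j) v (u l)))) := by
    intro j hj v
    rw [hGq, cD_mul, cD_lin_pow_ne S.hE (by simpa using hj.symm), zero_mul, zero_add,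
      cD_lin_pow_eq]
    ring
  -- expression when the derivative of `u` lies in the plane of `p a` and `u`
  have hexp : ∀ (s t : ℂ), C (m a : ℂ) * (lin (p a) ^ (d - m a) * (lin u ^ (m a - 1) *
        lin (s • p a + t • u))) =
      lin (p a) ^ (d + 1 - m a) * (C ((m a : ℂ) * s) * lin u ^ (m a - 1)) +
        C ((m a : ℂ) * t) * (lin (p a) ^ (d - m a) * lin u ^ m a) := by
    intro s t
    have e1 : lin (p a) ^ (d + 1 - m a) = lin (p a) ^ (d - m a) * lin (p a) := by
      rw [← pow_succ]
      congr 1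
      have := S.hm a
      omega
    have e2 : lin u ^ m a = lin u ^ (m a - 1) * lin u := by
      rw [← pow_succ]
      congr 1
      omega
    rw [e1, e2, lin_add, lin_smul, lin_smul, map_mul, map_mul]
    ring
  -- good directions for `j`
  have hgood : ∀ j, ∃ (v : V3) (s t : ℂ), cr (p j) v ≠ 0 ∧
      (fun l => mv E (Sum.inl j) v (u l)) = s • p a + t • u := by
    intro j
    obtain ⟨v, hv0, hv⟩ := exists_ker_ne (gp1 S.hE (Sum.inl j))
        (evQ (QL E (Sum.inl j) u) (cr (p a) u))
    obtain ⟨s, t, hst⟩ := exists_comb hu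
      (show eval (QL E (Sum.inl j) u v) (xl (p a) u) = 0 from hv0)
    exact ⟨v, s, t, hv, hst⟩
  have hdivG : ∀ j, j ≠ a → j ≠ b → j ≠ c → lin (p j) ∣ G j := by
    intro j hja hjb hjc
    have hκ : ((d + 1 - m j : ℕ) : ℂ) ≠ 0 := by
      rw [Nat.cast_ne_zero]
      have := S.hm j
      omega
    have h1 : ∀ v, C ((d + 1 - m j : ℕ) : ℂ) * (lin (p j) ^ (d - m j) * (lin v * G j)) =
        C (m a : ℂ) * (lin (p a) ^ (d - m a) * (lin u ^ (m a - 1) *
        lin (fun l => mv E (Sum.inl j) v (u l)))) -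
          Psi d p m (fun i => cD (mv E (Sum.inl j) v) (G i)) := by
      intro v
      have h2 := cD_Psi S.hE S.hm (G := G) j v
      rw [← hcD j hja v]
      have h2' : cD (mv E (Sum.inl j) v) (Psi d p m G) =
        C ((d + 1 - m j : ℕ) : ℂ) * (lin (p j) ^ (d - m j) * (lin v * G j)) +
        Psi d p m (fun i => cD (mv E (Sum.inl j) v) (G i)) := h2
      rw [h2']
      ring
    apply S.div hsq (hfull j hja hjb hjc) (hG' j)
    · intro v
      have h2 := congrArg (fun z => B z F) (h1 v)
      simp only [map_sub, LinearMap.sub_apply, B_C_mul_left] at h2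
      rw [h.2 hz, mul_zero, S.B_J (Psi_mem_J (HH_cD _ hG)), sub_zero] at h2
      exact (mul_eq_zero.mp h2).resolve_left hκ
    · obtain ⟨v, s, t, hv, hst⟩ := hgood j
      refine ⟨v, hv, ?_⟩
      apply mem_of_C_mul_mem hκ
      rw [h1 v, hst, hexp]
      apply Submodule.sub_mem _ _ (Psi_mem_J (HH_cD _ hG))
      apply Submodule.add_mem
      · apply summand_mem_J
        exact C_mul_mem _ hma
      · exact C_mul_mem _ hJ
  have hzero : ∀ j, j ≠ a → j ≠ b → j ≠ c → G j = 0 := by
    intro j hja hjb hjc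
    by_contra hne
    have h1 := hG' j
    rcases Nat.eq_zero_or_pos (m j) with hzj | hzj
    · rw [hzj, mem_Hm_zero] at h1
      exact hne h1
    · obtain ⟨n, hn⟩ : ∃ n, m j = n + 1 := ⟨m j - 1, by omega⟩
      rw [hn, mem_Hm_succ] at h1
      obtain ⟨s', e, G', hse, hjG, hhom, hnd⟩ :=
        exists_lin_factorization (p := p j) n (G j) h1 hne
      cases s' with
      | zero =>
        apply hnd
        have := hdivG j hja hjb hjc
        rwa [hjG, pow_zero, one_mul] at this
      | succ s' =>
        obtain ⟨v, s, t, hv, hst⟩ := hgood j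
        refine S.contra hN hG hjG hhom (by omega) hnd hv
          (X := Pi.single a (C ((m a : ℂ) * s) * lin u ^ (m a - 1)) + ((m a : ℂ) * t) • G)
          ?_ ?_ ?_
        · apply Submodule.add_mem _ _ (Submodule.smul_mem _ _ hG)
          rw [mem_HH]
          intro i
          by_cases hia : i = a
          · subst hia
            rw [Pi.single_eq_same]
            exact C_mul_mem _ hma
          · rw [Pi.single_eq_of_ne hia]
            exact zero_mem _
        · change Psi d p m _ = cD _ (Psi d p m G)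
          rw [hcD j hja v, hst, hexp, map_add, map_smul, hGq, smul_eq_C_mul]
          congr 1
          rw [Psi_apply, Finset.sum_eq_single a]
          · rw [Pi.single_eq_same]
          · intro i _ hia
            rw [Pi.single_eq_of_ne hia, mul_zero]
          · intro h'
            exact absurd (Finset.mem_univ a) h'
        · rw [Pi.add_apply, Pi.single_eq_of_ne hja, zero_add, Pi.smul_apply, smul_eq_C_mul, hjG]
          exact Dvd.dvd.mul_left (Dvd.intro _ rfl) _
  -- test forms
  have hrel : lin (p a) ^ (d - m a) * lin u ^ m a = lin (p a) ^ (d + 1 - m a) * G a +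
      lin (p b) ^ (d + 1 - m b) * G b + lin (p c) ^ (d + 1 - m c) * G c := by
    rw [← hGq, Psi_apply]
    apply sum_eq_three hab hac hbc
    intro i hia hib hic
    rw [hzero i hia hib hic, mul_zero]
  obtain ⟨e, hea, heb, hec⟩ := hex
  have htot := S.four hsq hab hac hea.symm hbc heb.symm hec.symm
  have hpab := S.pair hsq hab
  have hpac := S.pair hsq hac
  have hmb := S.hm b
  have hmc := S.hm c
  have hma' := S.hm a
  have hdet := S.det hbc hab.symm hac.symm
  by_cases hub : eval u (xl (p a) (p b)) = 0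
  · have huc : eval u (xl (p a) (p c)) ≠ 0 := fun h' =>
      two_lines (S.cr_ne hab) (S.det hac hab hbc.symm) hu hub h'
    have hnb : m a + m b ≤ d := by
      by_contra hcon
      exact not_tangent_bad_line S.hom hsq (S.cr_ne hab) (S.vanish a) (S.vanish b) hz
        (by omega) hub hu (h.2 hz)
    exact test_dir (α := 0) (β := m a) (zero_add _) hma' hdet (Or.inl rfl) (Or.inr huc)
      (by omega) (by omega) hrel
  by_cases huc : eval u (xl (p a) (p c)) = 0
  · have hnc : m a + m c ≤ d := by
      by_contra hcon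
      exact not_tangent_bad_line S.hom hsq (S.cr_ne hac) (S.vanish a) (S.vanish c) hz
        (by omega) huc hu (h.2 hz)
    exact test_dir (α := m a) (β := 0) (add_zero _) hma' hdet (Or.inr hub) (Or.inl rfl)
      (by omega) (by omega) hrel
  rcases Nat.lt_or_ge d (m a + m b) with h5 | h5
  · exact test_dir (α := m a - (d - m b)) (β := d - m b) (by omega) hma' hdet (Or.inr hub)
      (Or.inr huc) (by omega) (by omega) hrel
  · exact test_dir (α := 0) (β := m a) (zero_add _) hma' hdet (Or.inl rfl) (Or.inr huc)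
      (by omega) (by omega) hrel

/-- no bad direction at all -/
theorem no_bad (S : Rigid d P E m F) (hsq : Squarefree F) {a b c : ι} (hab : a ≠ b)
    (hac : a ≠ c) (hbc : b ≠ c) (hex : ∃ e, e ≠ a ∧ e ≠ b ∧ e ≠ c)
    (hfull : ∀ j, j ≠ a → j ≠ b → j ≠ c → 3 ≤ m j → Full d (fun i => P (Sum.inl i)) m j)
    {i : ι} {u : V3} (hu : cr (P (Sum.inl i)) u ≠ 0) (h : BadDir d F (P (Sum.inl i)) (m i) u) :
    False := by
  by_cases hia : i = a
  · subst hia
    exact S.no_bad_special hsq hab hac hbc hex hfull hu h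
  by_cases hib : i = b
  · subst hib
    obtain ⟨e, h1, h2, h3⟩ := hex
    exact S.no_bad_special hsq hab.symm hbc hac ⟨e, h2, h1, h3⟩
      (fun j hj1 hj2 hj3 => hfull j hj2 hj1 hj3) hu h
  by_cases hic : i = c
  · subst hic
    obtain ⟨e, h1, h2, h3⟩ := hex
    exact S.no_bad_special hsq hac.symm hbc.symm hab ⟨e, h3, h1, h2⟩
      (fun j hj1 hj2 hj3 => hfull j hj2 hj3 hj1) hu h
  exact S.no_bad_full hsq (hfull i hia hib hic) hu h

end Rigid

end Pool.Agent.Work.MP_0421d9_ag
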