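import Pool.Agent.Work.MP_0421d9_ag.CoefD

/-!
The apolarity pairing on `ℂ[x₀,x₁,x₂]`.
-/

namespace Pool.Agent.Work.MP_0421d9_ag

open MvPolynomial

/-- `α!` -/
def wt (α : Fin 3 →₀ ℕ) : ℕ := ∏ i, (α i).factorial

theorem wt_ne_zero (α : Fin 3 →₀ ℕ) : (wt α : ℂ) ≠ 0 := by
  unfold wt
  rw [Nat.cast_ne_zero]
  exact Finset.prod_ne_zero_iff.mpr (fun i _ => Nat.factorial_ne_zero _)

theorem wt_add_single (α : Fin 3 →₀ ℕ) (i : Fin 3) :
    wt (α + Finsupp.single i 1) = (α i + 1) * wt α := by
  classical
  unfold wt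
  rw [← Finset.mul_prod_erase _ _ (Finset.mem_univ i), ← Finset.mul_prod_erase _ _
    (Finset.mem_univ i), ← mul_assoc]
  congr 1
  · simp [Nat.factorial_succ]
  · refine Finset.prod_congr rfl (fun j hj => ?_)
    have : j ≠ i := Finset.ne_of_mem_erase hj
    simp [this.symm]

/-- the apolarity pairing -/
noncomputable def B : R3 →ₗ[ℂ] R3 →ₗ[ℂ] ℂ :=
  (basisMonomials (Fin 3) ℂ).constr ℂ (fun α => (wt α : ℂ) • lcoeff ℂ α)

theorem B_monomial (α : Fin 3 →₀ ℕ) (a : ℂ) (f : R3) :
    B (monomial α a) f = a * (wt α * coeff α f) := by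
  have h : (monomial α a : R3) = a • (basisMonomials (Fin 3) ℂ α) := by
    rw [coe_basisMonomials, smul_monomial, smul_eq_mul, mul_one]
  rw [h, map_smul, LinearMap.smul_apply, B, Module.Basis.constr_basis, smul_eq_mul]
  simp [lcoeff]

theorem B_monomial_right (α : Fin 3 →₀ ℕ) (a : ℂ) (A : R3) :
    B A (monomial α a) = a * (wt α * coeff α A) := by
  classical
  induction A using MvPolynomial.induction_on' with
  | monomial β b =>
    rw [B_monomial, coeff_monomial, coeff_monomial]
    by_cases h : α = β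
    · subst h; simp; ring
    · rw [if_neg h, if_neg (Ne.symm h)]; simp
  | add p q hp hq =>
    rw [map_add, LinearMap.add_apply, hp, hq, coeff_add]
    ring

theorem B_symm (A f : R3) : B A f = B f A := by
  induction A using MvPolynomial.induction_on' with
  | monomial β b => rw [B_monomial, B_monomial_right]
  | add p q hp hq => rw [map_add, LinearMap.add_apply, hp, hq, map_add]

theorem B_C_mul_left (c : ℂ) (A f : R3) : B (C c * A) f = c * B A f := by
  rw [← smul_eq_C_mul, map_smul, LinearMap.smul_apply, smul_eq_mul]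

theorem B_C_mul_right (c : ℂ) (A f : R3) : B A (C c * f) = c * B A f := by
  rw [← smul_eq_C_mul, map_smul, smul_eq_mul]

theorem B_X_mul (i : Fin 3) (A f : R3) : B (X i * A) f = B A (pderiv i f) := by
  induction A using MvPolynomial.induction_on' with
  | monomial β b =>
    rw [B_monomial, coeff_pderiv, X, monomial_mul, B_monomial, one_mul, add_comm _ β,
      wt_add_single]
    push_cast
    ring
  | add p q hp hq => rw [mul_add, map_add, LinearMap.add_apply, hp, hq, map_add,
      LinearMap.add_apply]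

/-- derivative in direction `v` -/
noncomputable def dir (v : V3) : Derivation ℂ R3 R3 := ∑ i, v i • pderiv i

theorem dir_apply (v : V3) (f : R3) : dir v f = ∑ i, C (v i) * pderiv i f := by
  simp [dir, Fin.sum_univ_three, smul_eq_C_mul]

theorem B_lin_mul (v : V3) (A f : R3) : B (lin v * A) f = B A (dir v f) := by
  rw [dir_apply, map_sum, lin, Finset.sum_mul, map_sum, LinearMap.sum_apply]
  refine Finset.sum_congr rfl (fun i _ => ?_)
  rw [mul_assoc, B_C_mul_left, B_X_mul, B_C_mul_right]

theorem B_lin_pow_mul (v : V3) (n : ℕ) (A f : R3) :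
    B (lin v ^ n * A) f = B A ((dir v)^[n] f) := by
  induction n generalizing f with
  | zero => simp
  | succ n ih => rw [pow_succ', mul_assoc, B_lin_mul, ih, Function.iterate_succ_apply]

theorem dir_isHomogeneous (v : V3) {f : R3} {n : ℕ} (hf : f.IsHomogeneous n) :
    (dir v f).IsHomogeneous (n - 1) := by
  rw [dir_apply]
  apply IsHomogeneous.sum
  intro i _
  exact (hf.pderiv).C_mul _

theorem dir_iterate_isHomogeneous (v : V3) (k : ℕ) {f : R3} {n : ℕ} (hf : f.IsHomogeneous n) :
    ((dir v)^[k] f).IsHomogeneous (n - k) := by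
  induction k generalizing f n with
  | zero => simpa using hf
  | succ k ih =>
    rw [Function.iterate_succ_apply]
    have := ih (dir_isHomogeneous v hf)
    rwa [Nat.sub_sub, add_comm] at this

theorem dir_lin (v w : V3) : dir v (lin w) = C (eval v (lin w)) := by
  rw [dir_apply, eval_lin, map_sum]
  refine Finset.sum_congr rfl (fun i _ => ?_)
  rw [pderiv_lin, ← map_mul, mul_comm]

theorem dir_C (v : V3) (c : ℂ) : dir v (C c) = 0 := by
  rw [dir_apply]; simp

theorem dir_mul (v : V3) (f g : R3) : dir v (f * g) = dir v f * g + f * dir v g := by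
  rw [Derivation.leibniz, smul_eq_mul, smul_eq_mul]
  ring

theorem dir_C_mul (v : V3) (c : ℂ) (g : R3) : dir v (C c * g) = C c * dir v g := by
  rw [dir_mul, dir_C, zero_mul, zero_add]

theorem dir_pow (v : V3) (f : R3) (n : ℕ) : dir v (f ^ n) = C (n : ℂ) * (f ^ (n - 1) * dir v f) := by
  rw [Derivation.leibniz_pow, smul_eq_mul, nsmul_eq_mul, map_natCast]

theorem eval_dir_self {f : R3} {n : ℕ} (hf : f.IsHomogeneous n) (a : V3) :
    eval a (dir a f) = n * eval a f := by
  have h := congrArg (eval a) hf.sum_X_mul_pderiv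
  rw [map_sum] at h
  rw [dir_apply, map_sum]
  simp only [map_mul, eval_X, eval_C, nsmul_eq_mul, map_natCast] at h ⊢
  exact h

theorem B_one_C (c : ℂ) : B 1 (C c) = c := by
  have : (1 : R3) = monomial 0 1 := rfl
  rw [this, B_monomial]
  simp [wt]

theorem B_lin_pow {f : R3} {n : ℕ} (hf : f.IsHomogeneous n) (a : V3) :
    B (lin a ^ n) f = n.factorial * eval a f := by
  induction n generalizing f with
  | zero =>
    have h0 : f = C (coeff 0 f) := by
      have := (MvPolynomial.totalDegree_eq_zero_iff_eq_C).mp (Nat.le_zero.mp hf.totalDegree_le)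
      exact this
    rw [h0, pow_zero, B_one_C]
    simp
  | succ n ih =>
    have h1 : (dir a f).IsHomogeneous n := by
      simpa using dir_isHomogeneous a hf
    rw [pow_succ', B_lin_mul, ih h1, eval_dir_self hf, Nat.factorial_succ]
    push_cast
    ring

theorem D_B (D : Derivation ℚ ℂ ℂ) (A f : R3) : D (B A f) = B (cD D A) f + B A (cD D f) := by
  induction A using MvPolynomial.induction_on' with
  | monomial β b =>
    rw [cD_monomial, B_monomial, B_monomial, B_monomial, Derivation.leibniz, Derivation.leibniz,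
      coeff_cD, Derivation.map_natCast]
    simp only [smul_eq_mul]
    ring
  | add p q hp hq =>
    simp only [map_add, LinearMap.add_apply, hp, hq]
    ring

theorem B_eq_zero_of_isHomogeneous_ne {A f : R3} {m n : ℕ} (hA : A.IsHomogeneous m)
    (hf : f.IsHomogeneous n) (h : m ≠ n) : B A f = 0 := by
  rw [A.as_sum, map_sum, LinearMap.sum_apply]
  refine Finset.sum_eq_zero (fun α hα => ?_)
  rw [B_monomial]
  by_contra hc
  apply h
  have h1 := hA (mem_support_iff.mp hα)
  have h2 : coeff α f ≠ 0 := by
    intro h0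
    apply hc
    rw [h0]; ring
  rw [← h1, ← hf h2]

/-- nondegeneracy -/
theorem eq_zero_of_B_right {f : R3} {n : ℕ} (hf : f.IsHomogeneous n)
    (h : ∀ A : R3, A.IsHomogeneous n → B A f = 0) : f = 0 := by
  ext α
  rw [coeff_zero]
  by_contra hc
  have h1 := hf hc
  have h2 := h (monomial α 1) (by
    apply isHomogeneous_monomial
    rw [← h1, Finsupp.degree_eq_weight_one]; rfl)
  rw [B_monomial, one_mul] at h2
  rcases mul_eq_zero.mp h2 with h3 | h3
  · exact wt_ne_zero α h3
  · exact hc h3

theorem eq_zero_of_B_left {A : R3} {n : ℕ} (hA : A.IsHomogeneous n)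
    (h : ∀ f : R3, f.IsHomogeneous n → B A f = 0) : A = 0 :=
  eq_zero_of_B_right hA (fun f hf => by rw [B_symm]; exact h f hf)

end Pool.Agent.Work.MP_0421d9_ag
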