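import Pool.Agent.Work.MP_0421d9_ag.Generic

/-!
Generic simple points impose independent conditions; extension of generic families of points.
-/

set_option linter.unusedSectionVars false

namespace Pool.Agent.Work.MP_0421d9_ag

open MvPolynomial Module

/-- generic points exist relative to given generic points -/
theorem exists_extension {ι κ : Type} [Finite ι] [Finite κ] (p : ι → V3)
    (hp : AlgebraicIndependent ℚ (fun z : ι × Fin 3 => p z.1 z.2)) :
    ∃ s : κ → V3, AlgebraicIndependent ℚ (fun z : (ι ⊕ κ) × Fin 3 => Sum.elim p s z.1 z.2) := by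
  classical
  obtain ⟨t, ht, ht'⟩ := exists_isTranscendenceBasis_superset hp.coe_range
  have hcard : Cardinal.mk ℂ = Cardinal.mk t :=
    IsAlgClosed.cardinal_eq_cardinal_transcendence_basis_of_aleph0_lt' _ ht'
      Cardinal.mk_le_aleph0 (by rw [Cardinal.mk_complex]; exact Cardinal.aleph0_lt_continuum)
  have hinf : t.Infinite := by
    rw [← Set.infinite_coe_iff, Cardinal.infinite_iff, ← hcard, Cardinal.mk_complex]
    exact Cardinal.aleph0_le_continuum
  have hinf' : (t \ Set.range (fun z : ι × Fin 3 => p z.1 z.2)).Infinite :=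
    hinf.sdiff (Set.finite_range _)
  obtain ⟨f, hf, hfinj⟩ : ∃ f : κ × Fin 3 → ℂ, (∀ z, f z ∈ t ∧
      f z ∉ Set.range (fun z : ι × Fin 3 => p z.1 z.2)) ∧ Function.Injective f := by
    obtain ⟨n, ⟨e⟩⟩ := Finite.exists_equiv_fin (κ × Fin 3)
    refine ⟨fun z => (hinf'.natEmbedding _ (e z)).1, fun z => (hinf'.natEmbedding _ (e z)).2, ?_⟩
    intro z z' h
    have h1 := Subtype.ext h
    have h2 := (hinf'.natEmbedding _).injective h1
    exact e.injective (Fin.ext h2)
  refine ⟨fun k l => f (k, l), ?_⟩
  have hmem : ∀ z : (ι ⊕ κ) × Fin 3, Sum.elim p (fun k l => f (k, l)) z.1 z.2 ∈ t := by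
    rintro ⟨i | k, l⟩
    · exact ht ⟨(i, l), rfl⟩
    · exact (hf (k, l)).1
  have hinj : ∀ z z' : (ι ⊕ κ) × Fin 3, Sum.elim p (fun k l => f (k, l)) z.1 z.2 =
      Sum.elim p (fun k l => f (k, l)) z'.1 z'.2 → z = z' := by
    rintro ⟨i | k, l⟩ ⟨i' | k', l'⟩ h
    · have h2 := hp.injective (a₁ := (i, l)) (a₂ := (i', l')) h
      rw [Prod.mk.injEq] at h2
      rw [h2.1, h2.2]
    · exact absurd ⟨(i, l), h⟩ (hf (k', l')).2
    · exact absurd ⟨(i', l'), h.symm⟩ (hf (k, l)).2
    · have h2 := hfinj h
      rw [Prod.mk.injEq] at h2
      obtain ⟨h3, h4⟩ := h2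
      change l = l' at h4
      rw [h3, h4]
  exact ht'.1.comp (fun z : (ι ⊕ κ) × Fin 3 =>
      (⟨Sum.elim p (fun k l => f (k, l)) z.1 z.2, hmem z⟩ : t))
    (fun z z' h => hinj z z' (congrArg Subtype.val h))

instance finite_linSys {ι : Type} (d : ℕ) (p : ι → V3) (m : ι → ℕ) :
    Module.Finite ℂ (linSys d p m) :=
  Submodule.finiteDimensional_of_le (linSys_le d p m)

/-- evaluation as a linear map -/
noncomputable def evl (a : V3) : R3 →ₗ[ℂ] ℂ where
  toFun f := eval a f
  map_add' f g := map_add _ f g
  map_smul' c f := by
    rw [smul_eval, RingHom.id_apply, smul_eq_mul]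

theorem vanishTo_zero (f : R3) (a : V3) : VanishTo f a 0 := fun k hk => absurd hk (Nat.not_lt_zero k)

theorem vanishTo_one_iff' {f : R3} {a : V3} : VanishTo f a 1 ↔ eval a f = 0 := by
  have h1 : homogeneousComponent 0 (translate a f) = C (eval a f) := by
    rw [homogeneousComponent_zero]
    have h2 := eval_translate a 0 f
    rw [add_zero, eval_zero, constantCoeff_eq] at h2
    rw [h2]
  constructor
  · intro h
    have h2 := h 0 one_pos
    rw [h1] at h2
    exact C_eq_zero.mp h2
  · intro h k hk
    have hk0 : k = 0 := by omega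
    rw [hk0, h1, h, C_0]

variable {ι κ : Type} [DecidableEq ι] [DecidableEq κ]

/-- multiplicities: `m` at the first points, one at the points of `T` -/
def MT (m : ι → ℕ) (T : Finset κ) : ι ⊕ κ → ℕ := Sum.elim m (fun k => if k ∈ T then 1 else 0)

theorem finrank_drop {d : ℕ} {P : ι ⊕ κ → V3} {E : ι ⊕ κ → Fin 3 → Derivation ℚ ℂ ℂ}
    (hE : IsDual P E) {m : ι → ℕ} (hm : ∀ i, m i ≤ d + 1) (T : Finset κ) :
    finrank ℂ (linSys d P (MT m T)) =
      finrank ℂ (linSys d (fun i => P (Sum.inl i)) m) - T.card := by
  induction T using Finset.induction_on with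
  | empty =>
    have : linSys d P (MT m (∅ : Finset κ)) = linSys d (fun i => P (Sum.inl i)) m := by
      ext F
      constructor
      · rintro ⟨h1, h2⟩
        exact ⟨h1, fun i => h2 (Sum.inl i)⟩
      · rintro ⟨h1, h2⟩
        refine ⟨h1, ?_⟩
        rintro (i | k)
        · exact h2 i
        · exact vanishTo_zero F _
    rw [this, Finset.card_empty, Nat.sub_zero]
  | insert k T hk ih =>
    rw [Finset.card_insert_of_notMem hk, ← Nat.sub_sub, ← ih]
    set W := linSys d P (MT m T) with hW
    have hW' : linSys d P (MT m (insert k T)) = W ⊓ LinearMap.ker (evl (P (Sum.inr k))) := by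
      ext F
      constructor
      · rintro ⟨h1, h2⟩
        refine ⟨⟨h1, ?_⟩, ?_⟩
        · rintro (i | l)
          · exact h2 (Sum.inl i)
          · have h3 := h2 (Sum.inr l)
            apply h3.mono
            simp only [MT, Sum.elim_inr, Finset.mem_insert]
            split_ifs <;> first | omega | tauto
        · have h3 := h2 (Sum.inr k)
          change VanishTo F _ (if k ∈ insert k T then 1 else 0) at h3
          rw [if_pos (Finset.mem_insert_self k T)] at h3
          exact vanishTo_one_iff'.mp h3
      · rintro ⟨⟨h1, h2⟩, h3⟩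
        refine ⟨h1, ?_⟩
        rintro (i | l)
        · exact h2 (Sum.inl i)
        · have h4 := h2 (Sum.inr l)
          change VanishTo F _ (if l ∈ insert k T then 1 else 0)
          change VanishTo F _ (if l ∈ T then 1 else 0) at h4
          by_cases hl : l = k
          · subst hl
            rw [if_pos (Finset.mem_insert_self l T)]
            exact vanishTo_one_iff'.mpr h3
          · by_cases hlT : l ∈ T
            · rw [if_pos (Finset.mem_insert_of_mem hlT)]
              rwa [if_pos hlT] at h4
            · rw [if_neg (by simp [hl, hlT])]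
              exact vanishTo_zero F _
    rw [hW']
    by_cases hbot : W = ⊥
    · rw [hbot, bot_inf_eq, finrank_bot]
    · have hex : ∃ f ∈ W, eval (P (Sum.inr k)) f ≠ 0 := by
        by_contra hcon
        push Not at hcon
        apply hbot
        apply lemmaZ (d := d) W (fun f hf => hf.1) (P (Sum.inr k)) (E (Sum.inr k))
        · intro l l'
          rw [hE]
          simp
        · intro l f hf
          apply linSys_cD_mem _ hf
          · intro x
            by_cases hx : x = Sum.inr k
            · right
              rw [hx]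
              change VanishTo _ _ (if k ∈ T then 1 else 0)
              rw [if_neg hk]
              exact vanishTo_zero _ _
            · left
              intro l'
              rw [hE, if_neg]
              rintro ⟨h', -⟩
              exact hx h'.symm
          · rintro (i | l')
            · exact hm i
            · change (if l' ∈ T then 1 else 0) ≤ d + 1
              split_ifs <;> omega
        · exact hcon
      obtain ⟨f, hf, hfne⟩ := hex
      set L : W →ₗ[ℂ] ℂ := (evl (P (Sum.inr k))).domRestrict W with hL
      have h1 := LinearMap.finrank_range_add_finrank_ker L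
      have h2 : LinearMap.range L = ⊤ := by
        apply LinearMap.range_eq_top.mpr
        intro c
        refine ⟨(c / eval (P (Sum.inr k)) f) • ⟨f, hf⟩, ?_⟩
        rw [map_smul, hL]
        change _ • eval (P (Sum.inr k)) f = c
        rw [smul_eq_mul, div_mul_cancel₀ _ hfne]
      have h3 : finrank ℂ (LinearMap.ker L) =
          finrank ℂ ↥(W ⊓ LinearMap.ker (evl (P (Sum.inr k)))) := by
        have h4 : LinearMap.ker L = (W ⊓ LinearMap.ker (evl (P (Sum.inr k)))).comap W.subtype := by
          ext x
          simp [hL]
        rw [h4]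
        exact (Submodule.comapSubtypeEquivOfLe inf_le_left).finrank_eq
      rw [h2, finrank_top, Module.finrank_self, h3] at h1
      omega

end Pool.Agent.Work.MP_0421d9_ag
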