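import Pool.Agent.Work.MP_0421d9_ag.Chart
import Pool.Agent.Work.MP_0421d9_ag.Drop

/-!
Consequences of dimension counts, and construction of rigid configurations.
-/

set_option linter.unusedSectionVars false

namespace Pool.Agent.Work.MP_0421d9_ag

open MvPolynomial Module

section dims

variable {ι : Type} [Fintype ι] [DecidableEq ι]

/-- if the parametrisation of the inverse system is injective, the system is nonspecial -/
theorem finrank_of_unique {d : ℕ} {p : ι → V3} {m : ι → ℕ} (hm : ∀ i, m i ≤ d + 1)
    (h : ∀ G ∈ HH m, Psi d p m G = 0 → G = 0) :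
    finrank ℂ (linSys d p m) + ∑ i, (m i + 1).choose 2 = (d + 2).choose 2 := by
  rw [← finrank_linSys_add (p := p) hm]
  congr 1
  have h1 : finrank ℂ (J d p m) = finrank ℂ (HH m) := by
    unfold J
    have hinj : Function.Injective ((Psi d p m).domRestrict (HH m)) := by
      rw [← LinearMap.ker_eq_bot, Submodule.eq_bot_iff]
      rintro ⟨G, hG⟩ h0
      exact Subtype.ext (h G hG h0)
    rw [← LinearMap.finrank_range_of_inj hinj, LinearMap.range_domRestrict]
  have h2 : finrank ℂ (HH m) = ∑ i, finrank ℂ (Hm (m i)) := by
    let e : (HH m) ≃ₗ[ℂ] (∀ i, Hm (m i)) :=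
      { toFun := fun G i => ⟨G.1 i, mem_HH.mp G.2 i⟩
        invFun := fun G => ⟨fun i => (G i).1, mem_HH.mpr (fun i => (G i).2)⟩
        left_inv := fun G => rfl
        right_inv := fun G => rfl
        map_add' := fun G G' => rfl
        map_smul' := fun c G => rfl }
    rw [e.finrank_eq, Module.finrank_pi_fintype]
  rw [h1, h2]
  exact Finset.sum_congr rfl (fun i _ => (finrank_Hm (m i)).symm)

/-- if vanishing to one more order at `p i` imposes the maximal number `m i + 1` of conditions,
then the system restricts to a complete series on the exceptional curve -/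
theorem full_of_finrank {d : ℕ} {p : ι → V3} {m : ι → ℕ} (hm : ∀ i, m i ≤ d) {i : ι}
    (hp : p i ≠ 0)
    (h : finrank ℂ (linSys d p m) =
      finrank ℂ (linSys d p (Function.update m i (m i + 1))) + (m i + 1)) :
    Rigid.Full d p m i := by
  set m' := Function.update m i (m i + 1) with hm'
  have hmi : m' i = m i + 1 := by rw [hm', Function.update_self]
  have hmj : ∀ j, j ≠ i → m' j = m j := fun j hj => by rw [hm', Function.update_of_ne hj]
  have hle : ∀ j, m j ≤ d + 1 := fun j => (hm j).trans (Nat.le_succ d)
  have hle' : ∀ j, m' j ≤ d + 1 := by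
    intro j
    by_cases hj : j = i
    · rw [hj, hmi]
      have := hm i
      omega
    · rw [hmj j hj]
      exact hle j
  have h1 := finrank_linSys_add (p := p) hle
  have h2 := finrank_linSys_add (p := p) hle'
  have h3 : finrank ℂ (J d p m') = finrank ℂ (J d p m) + (m i + 1) := by omega
  -- the additional summand
  set μ : R3 →ₗ[ℂ] R3 := LinearMap.mulLeft ℂ (lin (p i) ^ (d - m i)) with hμ
  set W : Submodule ℂ R3 := (Rd (m i)).map μ with hW
  have hexp : d + 1 - m' i = d - m i := by rw [hmi]; omega
  have hJW : J d p m' = J d p m ⊔ W := by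
    apply le_antisymm
    · intro A hA
      obtain ⟨G, hG, rfl⟩ := mem_J.mp hA
      apply Submodule.sum_mem
      intro j _
      by_cases hj : j = i
      · subst hj
        apply Submodule.mem_sup_right
        rw [hexp]
        refine ⟨G j, ?_, rfl⟩
        have := hG j
        rw [hmi] at this
        exact this
      · apply Submodule.mem_sup_left
        have := hG j
        rw [hmj j hj] at this ⊢
        exact summand_mem_J j this
    · apply sup_le
      · intro A hA
        obtain ⟨G, hG, rfl⟩ := mem_J.mp hA
        apply Submodule.sum_mem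
        intro j _
        by_cases hj : j = i
        · subst hj
          have e1 : lin (p j) ^ (d + 1 - m j) * G j =
              lin (p j) ^ (d + 1 - m' j) * (lin (p j) * G j) := by
            rw [hexp, (by have := hm j; omega : d + 1 - m j = d - m j + 1), pow_succ, mul_assoc]
          rw [e1]
          apply summand_mem_J
          rw [hmi]
          have := mul_mem_Hm_succ (lin_isHomogeneous (p j)) (hG j)
          exact this
        · have e1 : lin (p j) ^ (d + 1 - m j) * G j = lin (p j) ^ (d + 1 - m' j) * G j := by
            rw [hmj j hj]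
          rw [e1]
          apply summand_mem_J
          rw [hmj j hj]
          exact hG j
      · rintro _ ⟨U, hU, rfl⟩
        have e1 : μ U = lin (p i) ^ (d + 1 - m' i) * U := by
          rw [hexp]; rfl
        rw [e1]
        apply summand_mem_J
        rw [hmi]
        exact hU
  -- quotient map
  set π := (J d p m).mkQ with hπ
  have hfinJ : Module.Finite ℂ (J d p m) := Submodule.finiteDimensional_of_le (J_le hle)
  have hfinJ' : Module.Finite ℂ (J d p m') := Submodule.finiteDimensional_of_le (J_le hle')
  have h4 : finrank ℂ ((J d p m').map π) + finrank ℂ (J d p m) = finrank ℂ (J d p m') := by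
    have e1 := LinearMap.finrank_range_add_finrank_ker (π.domRestrict (J d p m'))
    rw [LinearMap.range_domRestrict] at e1
    have e2 : LinearMap.ker (π.domRestrict (J d p m')) = (J d p m).comap (J d p m').subtype := by
      ext x
      simp [hπ]
    have e3 : J d p m ≤ J d p m' := by rw [hJW]; exact le_sup_left
    rw [e2, (Submodule.comapSubtypeEquivOfLe e3).finrank_eq] at e1
    exact e1
  have h5 : (J d p m').map π = LinearMap.range ((π ∘ₗ μ).domRestrict (Rd (m i))) := by
    rw [LinearMap.range_domRestrict, hJW, Submodule.map_sup, Submodule.map_comp, ← hW]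
    have : (J d p m).map π = ⊥ := by
      rw [hπ, Submodule.mkQ_map_self]
    rw [this, bot_sup_eq]
  set f := (π ∘ₗ μ).domRestrict (Rd (m i)) with hf
  have h6 := LinearMap.finrank_range_add_finrank_ker f
  rw [← h5, finrank_Rd] at h6
  have h7 : (m i + 2).choose 2 = (m i + 1).choose 2 + (m i + 1) := by
    rw [Nat.choose_succ_succ' (m i + 1) 1, Nat.choose_one_right]
    ring
  have h8 : finrank ℂ (LinearMap.ker f) = (m i + 1).choose 2 := by omega
  -- the obvious kernel
  set K₀ : Submodule ℂ R3 := (Hm (m i)).map (LinearMap.mulLeft ℂ (lin (p i))) with hK₀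
  have h9 : finrank ℂ K₀ = (m i + 1).choose 2 := by
    rw [← finrank_Hm (m i)]
    have hinj : Function.Injective ((LinearMap.mulLeft ℂ (lin (p i))).domRestrict (Hm (m i))) := by
      rw [← LinearMap.ker_eq_bot, Submodule.eq_bot_iff]
      rintro ⟨G, hG⟩ h0
      apply Subtype.ext
      have h0' : lin (p i) * G = 0 := h0
      exact (mul_eq_zero.mp h0').resolve_left (fun h' => hp (lin_eq_zero.mp h'))
    rw [← LinearMap.finrank_range_of_inj hinj, LinearMap.range_domRestrict]
  have h10 : K₀ ≤ (LinearMap.ker f).map (Rd (m i)).subtype := by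
    rintro _ ⟨G, hG, rfl⟩
    have hhom : (lin (p i) * G).IsHomogeneous (m i) := by
      have := mul_mem_Hm_succ (lin_isHomogeneous (p i)) hG
      exact this
    refine ⟨⟨lin (p i) * G, hhom⟩, ?_, rfl⟩
    rw [SetLike.mem_coe, LinearMap.mem_ker, hf]
    change π (μ (lin (p i) * G)) = 0
    rw [hπ, Submodule.mkQ_apply, Submodule.Quotient.mk_eq_zero]
    have e1 : μ (lin (p i) * G) = lin (p i) ^ (d + 1 - m i) * G := by
      rw [hμ, (by have := hm i; omega : d + 1 - m i = d - m i + 1), pow_succ, mul_assoc]
      rfl
    rw [e1]
    exact summand_mem_J i hG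
  have h11 : K₀ = (LinearMap.ker f).map (Rd (m i)).subtype := by
    have hfin : Module.Finite ℂ ((LinearMap.ker f).map (Rd (m i)).subtype) := by
      infer_instance
    apply Submodule.eq_of_le_of_finrank_eq h10
    rw [h9, Submodule.finrank_map_subtype_eq, h8]
  intro U hU hUJ
  have h12 : U ∈ (LinearMap.ker f).map (Rd (m i)).subtype := by
    refine ⟨⟨U, hU⟩, ?_, rfl⟩
    rw [SetLike.mem_coe, LinearMap.mem_ker, hf]
    change π (μ U) = 0
    rw [hπ, Submodule.mkQ_apply, Submodule.Quotient.mk_eq_zero]
    exact hUJ
  rw [← h11] at h12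
  obtain ⟨G, -, rfl⟩ := h12
  exact Dvd.intro _ rfl

end dims

end Pool.Agent.Work.MP_0421d9_ag
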