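import Pool.Agent.Work.MP_0421d9_ag.Singular

/-!
Second part of the study of singular points of squarefree forms under derivations.
-/

namespace Pool.Agent.Work.MP_0421d9_ag

open MvPolynomial

theorem pderiv_comm (i j : Fin 3) (f : R3) : pderiv i (pderiv j f) = pderiv j (pderiv i f) := by
  classical
  ext m
  rw [coeff_pderiv, coeff_pderiv, coeff_pderiv, coeff_pderiv]
  by_cases h : i = j
  · subst h; rfl
  · rw [Finsupp.add_apply, Finsupp.add_apply, Finsupp.single_eq_of_ne (Ne.symm h),
      Finsupp.single_eq_of_ne h, add_assoc m, add_comm (Finsupp.single i 1), ← add_assoc m]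
    push_cast
    ring

theorem sum_three {β : Type} [AddCommMonoid β] {i j k : Fin 3} (hij : i ≠ j) (hik : i ≠ k)
    (hjk : j ≠ k) (f : Fin 3 → β) : ∑ l, f l = f i + f j + f k := by
  rw [Fin.sum_univ_three]
  fin_cases i <;> fin_cases j <;> fin_cases k <;> simp_all <;> abel

theorem fin_three : ∀ i j k l : Fin 3, i ≠ j → i ≠ k → j ≠ k → l = i ∨ l = j ∨ l = k := by
  decide

theorem cD_iterate_pderiv (D : Derivation ℚ ℂ ℂ) (k : Fin 3) (n : ℕ) (f : R3) :
    (cD D)^[n] (pderiv k f) = pderiv k ((cD D)^[n] f) := by
  induction n generalizing f with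
  | zero => rfl
  | succ n ih => rw [Function.iterate_succ_apply, cD_pderiv, ih, ← Function.iterate_succ_apply]

/-- polynomials not involving the variable `k` all of whose iterated coefficient derivatives
vanish on the line through `a` -/
def InN (D : Derivation ℚ ℂ ℂ) (a : V3) (k : Fin 3) (h : R3) : Prop :=
  pderiv k h = 0 ∧ ∀ n : ℕ, evL a ((cD D)^[n] h) = 0

theorem evL_dir (a v : V3) (f : R3) {i j k : Fin 3} (hij : i ≠ j) (hik : i ≠ k) (hjk : j ≠ k)
    (hf : pderiv k f = 0) : evL a (dir v f) =
      Polynomial.C (v i) * evL a (pderiv i f) + Polynomial.C (v j) * evL a (pderiv j f) := by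
  rw [dir_apply, sum_three hij hik hjk, hf, mul_zero, add_zero, map_add, map_mul, map_mul, evL_C,
    evL_C]

theorem InN_pderiv {D : Derivation ℚ ℂ ℂ} {a : V3} {i j k : Fin 3} (hij : i ≠ j) (hik : i ≠ k)
    (hjk : j ≠ k) (hdet : a i * D (a j) ≠ a j * D (a i)) {f : R3} (hf : InN D a k f) :
    InN D a k (pderiv i f) := by
  refine ⟨?_, fun n => ?_⟩
  · rw [pderiv_comm, hf.1, map_zero]
  · rw [cD_iterate_pderiv]
    set g := (cD D)^[n] f with hg
    have h1 : evL a g = 0 := hf.2 n
    have h2 : evL a (cD D g) = 0 := by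
      rw [hg, ← Function.iterate_succ_apply' (cD D)]
      exact hf.2 (n + 1)
    have h3 : pderiv k g = 0 := by
      rw [hg, ← cD_iterate_pderiv, hf.1]
      exact iterate_map_zero (cD D) n
    have e1 : evL a (dir a g) = 0 := by
      rw [← derivative_evL, h1, map_zero]
    have e2 := evL_dir_D D a h1 h2
    rw [evL_dir a _ g hij hik hjk h3] at e1 e2
    have e3 : Polynomial.C (a i * D (a j) - a j * D (a i)) * evL a (pderiv i g) = 0 := by
      rw [map_sub, map_mul, map_mul]
      linear_combination Polynomial.C (D (a j)) * e1 - Polynomial.C (a j) * e2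
    rcases mul_eq_zero.mp e3 with h | h
    · exact absurd (sub_eq_zero.mp (Polynomial.C_eq_zero.mp h)) hdet
    · exact h

theorem InN_eq_zero {D : Derivation ℚ ℂ ℂ} {a : V3} {i j k : Fin 3} (hij : i ≠ j) (hik : i ≠ k)
    (hjk : j ≠ k) (hdet : a i * D (a j) ≠ a j * D (a i)) (n : ℕ) :
    ∀ f : R3, (∀ α, coeff α f ≠ 0 → α.degree ≤ n) → InN D a k f → f = 0 := by
  have hconst : ∀ f : R3, (∀ α, coeff α f ≠ 0 → α = 0) → InN D a k f → f = 0 := by
    intro f hα hf
    have h0 : f = C (coeff 0 f) := by
      ext α
      rw [coeff_C]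
      split_ifs with h
      · rw [h]
      · by_contra hc
        exact h (hα α hc).symm
    have h1 : evL a f = 0 := hf.2 0
    rw [h0, evL_C, Polynomial.C_eq_zero] at h1
    rw [h0, h1, C_0]
  induction n with
  | zero =>
    intro f hα hf
    apply hconst f _ hf
    intro α h
    have := hα α h
    exact (Finsupp.degree_eq_zero_iff α).mp (Nat.le_zero.mp this)
  | succ n ih =>
    intro f hα hf
    have hdeg : ∀ l, ∀ α, coeff α (pderiv l f) ≠ 0 → α.degree ≤ n := by
      intro l α h
      rw [coeff_pderiv] at h
      have h1 := hα _ (left_ne_zero_of_mul h)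
      rw [map_add, Finsupp.degree_single] at h1
      omega
    have hi := ih _ (hdeg i) (InN_pderiv hij hik hjk hdet hf)
    have hj := ih _ (hdeg j) (InN_pderiv hij.symm hjk hik (Ne.symm hdet) hf)
    have hk := hf.1
    apply hconst f _ hf
    intro α hc
    have hl : ∀ l, pderiv l f = 0 → α l = 0 := by
      intro l hl
      by_contra h
      have h1 := congrArg (coeff (α - Finsupp.single l 1)) hl
      rw [coeff_pderiv, coeff_zero] at h1
      have h2 : α - Finsupp.single l 1 + Finsupp.single l 1 = α := by
        apply tsub_add_cancel_of_le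
        rw [Finsupp.single_le_iff]
        omega
      rw [h2] at h1
      rcases mul_eq_zero.mp h1 with h3 | h3
      · exact hc h3
      · exact Nat.cast_add_one_ne_zero _ h3
    ext l
    have : l = i ∨ l = j ∨ l = k := fin_three i j k l hij hik hjk
    rcases this with h | h | h
    · rw [h]; exact hl i hi
    · rw [h]; exact hl j hj
    · rw [h]; exact hl k hk

theorem exists_irreducible_factor (a : V3) {F : R3} (hF0 : F ≠ 0) (hF : evL a F = 0) :
    ∃ π, Irreducible π ∧ π ∣ F ∧ evL a π = 0 := by
  obtain ⟨s, hs, u, hu⟩ := WfDvdMonoid.exists_factors F hF0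
  have h1 : evL a s.prod = 0 := by
    have h2 : evL a s.prod * evL a (u : R3) = 0 := by
      rw [← map_mul, hu, hF]
    rcases mul_eq_zero.mp h2 with h | h
    · exact h
    · exfalso
      have : IsUnit (evL a (u : R3)) := u.isUnit.map (evL a)
      rw [h] at this
      exact not_isUnit_zero this
  rw [map_multiset_prod, Multiset.prod_eq_zero_iff, Multiset.mem_map] at h1
  obtain ⟨π, hπ, h0⟩ := h1
  exact ⟨π, hs π hπ, (Multiset.dvd_prod hπ).trans (Dvd.intro _ hu), h0⟩

theorem cD_eq_of_dvd {D : Derivation ℚ ℂ ℂ} {π : R3} (h : π ∣ cD D π) :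
    ∃ c : ℂ, cD D π = C c * π := by
  obtain ⟨g, hg⟩ := h
  by_cases hπ : π = 0
  · exact ⟨0, by rw [hπ, map_zero, mul_zero]⟩
  by_cases hg0 : g = 0
  · exact ⟨0, by rw [hg, hg0, mul_zero, C_0, zero_mul]⟩
  have h1 : (cD D π).totalDegree ≤ π.totalDegree := by
    apply totalDegree_le_of_support_subset
    intro α hα
    rw [mem_support_iff, coeff_cD] at hα
    rw [mem_support_iff]
    intro h0
    exact hα (by rw [h0, map_zero])
  rw [hg, totalDegree_mul_of_isDomain hπ hg0] at h1
  have h2 : g.totalDegree = 0 := by omega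
  rw [totalDegree_eq_zero_iff_eq_C] at h2
  exact ⟨coeff 0 g, by rw [hg, ← h2, mul_comm]⟩

theorem cD_factor {D : Derivation ℚ ℂ ℂ} {F π G : R3} {c : ℂ} (hπ : Irreducible π)
    (hF : F = π * G) (hG : ¬ π ∣ G) (hD : cD D F = C c * F) : ∃ c' : ℂ, cD D π = C c' * π := by
  apply cD_eq_of_dvd
  have h1 : cD D π * G = π * (C c * G - cD D G) := by
    have := hD
    rw [hF, cD_mul] at this
    linear_combination this
  have h2 : π ∣ cD D π * G := ⟨_, h1⟩
  exact (hπ.prime.dvd_or_dvd h2).resolve_right hG

/-- A singular point of a squarefree form whose coefficients are killed (up to a factor) by a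
derivation is constant up to scaling. -/
theorem singular_constant {D : Derivation ℚ ℂ ℂ} {F : R3} {d : ℕ} (hF : F.IsHomogeneous d)
    (hsq : Squarefree F) {c : ℂ} (hD : cD D F = C c * F) {a : V3} (ha0 : eval a F = 0)
    (ha : ∀ k, eval a (pderiv k F) = 0) (i j : Fin 3) : a i * D (a j) = a j * D (a i) := by
  have hF0 : F ≠ 0 := hsq.ne_zero
  by_cases hij : i = j
  · rw [hij]
  by_contra hdet
  obtain ⟨k, hik, hjk⟩ : ∃ k : Fin 3, i ≠ k ∧ j ≠ k := by
    fin_cases i <;> fin_cases j <;> simp_all <;> decide
  have e0 : evL a F = 0 := evL_hom a hF ha0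
  have e1 : ∀ l, evL a (pderiv l F) = 0 := fun l => evL_hom a (hF.pderiv) (ha l)
  obtain ⟨π, hπ, ⟨G, hG⟩, hπa⟩ := exists_irreducible_factor a hF0 e0
  have hπG : ¬ π ∣ G := by
    rintro ⟨G', hG'⟩
    have : π * π ∣ F := ⟨G', by rw [hG, hG', mul_assoc]⟩
    exact hπ.not_isUnit (hsq π this)
  obtain ⟨c1, hc1⟩ := cD_factor hπ hG hπG hD
  -- a second polynomial
  obtain ⟨h, hh, hha, c2, hc2⟩ : ∃ h, ¬ π ∣ h ∧ evL a h = 0 ∧ ∃ c2 : ℂ, cD D h = C c2 * h := by
    by_cases hGa : evL a G = 0
    · have hG0 : G ≠ 0 := by
        rintro rfl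
        exact hπG (dvd_zero _)
      obtain ⟨π', hπ', ⟨G', hG'⟩, hπ'a⟩ := exists_irreducible_factor a hG0 hGa
      have hF' : F = π' * (π * G') := by rw [hG, hG']; ring
      have hnd : ¬ π' ∣ π * G' := by
        rintro ⟨G'', hG''⟩
        have : π' * π' ∣ F := ⟨G'', by rw [hF', hG'', mul_assoc]⟩
        exact hπ'.not_isUnit (hsq π' this)
      obtain ⟨c2, hc2⟩ := cD_factor hπ' hF' hnd hD
      refine ⟨π', ?_, hπ'a, c2, hc2⟩
      intro hdv
      exact hπG (hdv.trans ⟨G', hG'⟩)
    · have h2 : ∀ l, evL a (pderiv l π) = 0 := by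
        intro l
        have := e1 l
        rw [hG, pderiv_mul, map_add, map_mul, map_mul, hπa, zero_mul, add_zero] at this
        exact (mul_eq_zero.mp this).resolve_right hGa
      obtain ⟨l, hl⟩ : ∃ l, pderiv l π ≠ 0 := by
        by_contra hcon
        push Not at hcon
        have hC : π = C (coeff 0 π) := by
          ext α
          rw [coeff_C]
          split_ifs with h
          · rw [h]
          · by_contra hc
            apply h
            symm
            ext l
            rw [Finsupp.zero_apply]
            by_contra h'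
            have h1 := congrArg (coeff (α - Finsupp.single l 1)) (hcon l)
            rw [coeff_pderiv, coeff_zero] at h1
            have h2 : α - Finsupp.single l 1 + Finsupp.single l 1 = α := by
              apply tsub_add_cancel_of_le
              rw [Finsupp.single_le_iff]
              omega
            rw [h2] at h1
            rcases mul_eq_zero.mp h1 with h3 | h3
            · exact hc h3
            · exact Nat.cast_add_one_ne_zero _ h3
        have h0 : coeff 0 π = 0 := by
          rw [hC, evL_C, Polynomial.C_eq_zero] at hπa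
          exact hπa
        rw [h0, C_0] at hC
        exact hπ.ne_zero hC
      refine ⟨pderiv l π, ?_, h2 l, c1, by rw [cD_pderiv, hc1, pderiv_C_mul]⟩
      rintro ⟨g, hg⟩
      have hg0 : g ≠ 0 := by
        rintro rfl
        exact hl (by rw [hg, mul_zero])
      have h3 : (pderiv l π).totalDegree < π.totalDegree ∨ (pderiv l π).totalDegree = 0 := by
        by_cases h : (pderiv l π).totalDegree = 0
        · right; exact h
        · left
          rw [totalDegree, Finset.sup_lt_iff]
          · intro α hα
            rw [mem_support_iff, coeff_pderiv] at hα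
            have h4 := le_totalDegree (mem_support_iff.mpr (left_ne_zero_of_mul hα))
            have h5 : (α + Finsupp.single l 1).sum (fun _ e => e) = α.sum (fun _ e => e) + 1 := by
              rw [Finsupp.sum_add_index' (fun _ => rfl) (fun _ _ _ => rfl),
                Finsupp.sum_single_index rfl]
            rw [h5] at h4
            exact h4
          · have h4 : 0 < π.totalDegree := by
              rcases Nat.eq_zero_or_pos π.totalDegree with h5 | h5
              · exfalso
                rw [totalDegree_eq_zero_iff_eq_C] at h5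
                apply hl
                rw [h5, pderiv_C]
              · exact h5
            exact h4
      have h6 := congrArg totalDegree hg
      rw [totalDegree_mul_of_isDomain hπ.ne_zero hg0] at h6
      have h7 : 0 < π.totalDegree := by
        rcases Nat.eq_zero_or_pos π.totalDegree with h5 | h5
        · exfalso
          rw [totalDegree_eq_zero_iff_eq_C] at h5
          apply hl
          rw [h5, pderiv_C]
        · exact h5
      omega
  obtain ⟨u, v, hne, hk⟩ := exists_elim hπ hh k
  have hstab : ∀ n : ℕ, ∃ u' v' : R3, (cD D)^[n] (u * π + v * h) = u' * π + v' * h := by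
    intro n
    induction n with
    | zero => exact ⟨u, v, rfl⟩
    | succ n ih =>
      obtain ⟨u', v', huv⟩ := ih
      refine ⟨cD D u' + u' * C c1, cD D v' + v' * C c2, ?_⟩
      rw [Function.iterate_succ_apply', huv, map_add, cD_mul, cD_mul, hc1, hc2]
      ring
  have hN : InN D a k (u * π + v * h) := by
    refine ⟨hk, fun n => ?_⟩
    obtain ⟨u', v', huv⟩ := hstab n
    rw [huv, map_add, map_mul, map_mul, hπa, hha, mul_zero, mul_zero, add_zero]
  apply hne
  refine InN_eq_zero hij hik hjk hdet (u * π + v * h).totalDegree _ ?_ hN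
  intro α hα
  have := le_totalDegree (mem_support_iff.mpr hα)
  rwa [Finsupp.degree_apply]

end Pool.Agent.Work.MP_0421d9_ag
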