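import Pool.Agent.Work.MP_0421d9_ag.Generic
import Pool.Agent.Work.MP_0421d9_ag.Singular2

/-!
Lines through two points and divisibility by their equations.
-/

namespace Pool.Agent.Work.MP_0421d9_ag

open MvPolynomial

/-- cross product -/
def cr (a b : V3) : V3 := ![a 1 * b 2 - a 2 * b 1, a 2 * b 0 - a 0 * b 2, a 0 * b 1 - a 1 * b 0]

/-- equation of the line through `a` and `b` -/
noncomputable def xl (a b : V3) : R3 := lin (cr a b)

theorem eval_xl (a b u : V3) : eval u (xl a b) =
    (a 1 * b 2 - a 2 * b 1) * u 0 + (a 2 * b 0 - a 0 * b 2) * u 1 +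
      (a 0 * b 1 - a 1 * b 0) * u 2 := by
  unfold xl cr
  rw [eval_lin, Fin.sum_univ_three]
  rfl

theorem eval_xl_left (a b : V3) : eval a (xl a b) = 0 := by
  rw [eval_xl]; ring

theorem eval_xl_right (a b : V3) : eval b (xl a b) = 0 := by
  rw [eval_xl]; ring

theorem xl_symm (a b : V3) : xl a b = C (-1) * xl b a := by
  unfold xl
  rw [← lin_smul]
  congr 1
  ext i
  fin_cases i <;> simp [cr] <;> ring

theorem xl_ne_zero {a b : V3} (h : cr a b ≠ 0) : xl a b ≠ 0 := fun h' => h (lin_eq_zero.mp h')

theorem exists_comb {a b u : V3} (h : cr a b ≠ 0) (hu : eval u (xl a b) = 0) :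
    ∃ s t : ℂ, u = s • a + t • b := by
  rw [eval_xl] at hu
  have h1 : ∃ i, cr a b i ≠ 0 := by
    by_contra hcon
    push Not at hcon
    exact h (funext hcon)
  obtain ⟨i, hi⟩ := h1
  fin_cases i
  · have h0 : a 1 * b 2 - a 2 * b 1 ≠ 0 := hi
    refine ⟨(u 1 * b 2 - u 2 * b 1) / (a 1 * b 2 - a 2 * b 1),
      (a 1 * u 2 - a 2 * u 1) / (a 1 * b 2 - a 2 * b 1), ?_⟩
    ext l
    rw [Pi.add_apply, Pi.smul_apply, Pi.smul_apply, smul_eq_mul, smul_eq_mul,
      div_mul_eq_mul_div, div_mul_eq_mul_div, ← add_div, eq_div_iff h0]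
    fin_cases l <;> simp only [Fin.zero_eta, Fin.mk_one, Fin.reduceFinMk] <;>
      first
        | ring1
        | linear_combination hu
  · have h0 : a 2 * b 0 - a 0 * b 2 ≠ 0 := hi
    refine ⟨(u 2 * b 0 - u 0 * b 2) / (a 2 * b 0 - a 0 * b 2),
      (a 2 * u 0 - a 0 * u 2) / (a 2 * b 0 - a 0 * b 2), ?_⟩
    ext l
    rw [Pi.add_apply, Pi.smul_apply, Pi.smul_apply, smul_eq_mul, smul_eq_mul,
      div_mul_eq_mul_div, div_mul_eq_mul_div, ← add_div, eq_div_iff h0]
    fin_cases l <;> simp only [Fin.zero_eta, Fin.mk_one, Fin.reduceFinMk] <;>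
      first
        | ring1
        | linear_combination hu
  · have h0 : a 0 * b 1 - a 1 * b 0 ≠ 0 := hi
    refine ⟨(u 0 * b 1 - u 1 * b 0) / (a 0 * b 1 - a 1 * b 0),
      (a 0 * u 1 - a 1 * u 0) / (a 0 * b 1 - a 1 * b 0), ?_⟩
    ext l
    rw [Pi.add_apply, Pi.smul_apply, Pi.smul_apply, smul_eq_mul, smul_eq_mul,
      div_mul_eq_mul_div, div_mul_eq_mul_div, ← add_div, eq_div_iff h0]
    fin_cases l <;> simp only [Fin.zero_eta, Fin.mk_one, Fin.reduceFinMk] <;>
      first
        | ring1
        | linear_combination hu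

theorem exists_smul_of_cr_eq_zero {a b : V3} (ha : a ≠ 0) (h : cr a b = 0) :
    ∃ s : ℂ, b = s • a := by
  have h0 : a 1 * b 2 - a 2 * b 1 = 0 := congrFun h 0
  have h1 : a 2 * b 0 - a 0 * b 2 = 0 := congrFun h 1
  have h2 : a 0 * b 1 - a 1 * b 0 = 0 := congrFun h 2
  obtain ⟨i, hi⟩ : ∃ i, a i ≠ 0 := by
    by_contra hcon
    push Not at hcon
    exact ha (funext hcon)
  refine ⟨b i / a i, ?_⟩
  ext l
  simp only [Pi.smul_apply, smul_eq_mul]
  rw [div_mul_eq_mul_div, eq_div_iff hi]
  fin_cases i <;> fin_cases l <;> simp only [Fin.zero_eta, Fin.mk_one, Fin.reduceFinMk] <;>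
    first
      | ring1
      | linear_combination h0
      | linear_combination -h0
      | linear_combination h1
      | linear_combination -h1
      | linear_combination h2
      | linear_combination -h2

theorem sub_aeval_mem {I : Ideal R3} {g : Fin 3 → R3} (hg : ∀ l, X l - g l ∈ I) (f : R3) :
    f - aeval g f ∈ I := by
  induction f using MvPolynomial.induction_on with
  | C c =>
    rw [← algebraMap_eq, AlgHom.commutes, sub_self]
    exact zero_mem _
  | add p q hp hq =>
    rw [map_add]
    have : p + q - (aeval g p + aeval g q) = (p - aeval g p) + (q - aeval g q) := by ring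
    rw [this]
    exact add_mem hp hq
  | mul_X p n hp =>
    rw [map_mul, aeval_X]
    have : p * X n - aeval g p * g n = X n * (p - aeval g p) + aeval g p * (X n - g n) := by ring
    rw [this]
    exact add_mem (I.mul_mem_left _ hp) (I.mul_mem_left _ (hg n))

/-- a polynomial vanishing on a plane through the origin is divisible by its equation -/
theorem lin_dvd_of_eval {v : V3} (hv : v ≠ 0) {f : R3}
    (h : ∀ u, eval u (lin v) = 0 → eval u f = 0) : lin v ∣ f := by
  obtain ⟨i, hi⟩ : ∃ i, v i ≠ 0 := by
    by_contra hcon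
    push Not at hcon
    exact hv (funext hcon)
  set g : Fin 3 → R3 := fun l => X l - C (if l = i then (v i)⁻¹ else 0) * lin v with hgdef
  have hg : ∀ l, X l - g l ∈ Ideal.span {lin v} := by
    intro l
    rw [hgdef]
    simp only [sub_sub_cancel]
    exact Ideal.mul_mem_left _ _ (Ideal.mem_span_singleton_self _)
  have h1 := sub_aeval_mem hg f
  have h2 : aeval g f = 0 := by
    apply MvPolynomial.funext
    intro y
    rw [map_zero]
    have h3 : ∀ p : R3, eval y (aeval g p) = eval (fun l => eval y (g l)) p := by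
      intro p
      induction p using MvPolynomial.induction_on with
      | C c => rw [← algebraMap_eq, AlgHom.commutes, algebraMap_eq, eval_C, eval_C]
      | add p q hp hq => rw [map_add, map_add, hp, hq, map_add]
      | mul_X p n hp => rw [map_mul, aeval_X, map_mul, hp, map_mul, eval_X]
    rw [h3]
    apply h
    have h4 : ∀ l, eval y (g l) = y l - (if l = i then (v i)⁻¹ else 0) * eval y (lin v) := by
      intro l
      rw [hgdef]
      simp only [map_sub, eval_X, map_mul, eval_C]
    rw [eval_lin]
    simp only [h4, mul_sub, Finset.sum_sub_distrib]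
    have h5 : ∑ x, v x * ((if x = i then (v i)⁻¹ else 0) * eval y (lin v)) = eval y (lin v) := by
      rw [Finset.sum_eq_single i]
      · rw [if_pos rfl]
        field_simp
      · intro j _ hj
        rw [if_neg hj]; ring
      · simp
    rw [h5, eval_lin]
    ring
  rw [h2, sub_zero] at h1
  exact Ideal.mem_span_singleton.mp h1

theorem xl_dvd {a b : V3} (hab : cr a b ≠ 0) {f : R3} {e : ℕ} (hf : f.IsHomogeneous e)
    (h : ∀ i ≤ e, B (lin a ^ i * lin b ^ (e - i)) f = 0) : xl a b ∣ f := by
  apply lin_dvd_of_eval hab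
  intro u hu
  obtain ⟨s, t, rfl⟩ := exists_comb hab hu
  have h1 := B_lin_pow hf (s • a + t • b)
  rw [lin_add, add_pow, map_sum, LinearMap.sum_apply] at h1
  have h2 : ∑ m ∈ Finset.range (e + 1),
      B (lin (s • a) ^ m * lin (t • b) ^ (e - m) * ((e.choose m : ℕ) : R3)) f = 0 := by
    refine Finset.sum_eq_zero (fun m hm => ?_)
    have h3 : lin (s • a) ^ m * lin (t • b) ^ (e - m) * ((e.choose m : ℕ) : R3) =
        C (s ^ m * t ^ (e - m) * (e.choose m : ℂ)) * (lin a ^ m * lin b ^ (e - m)) := by
      rw [lin_smul, lin_smul, mul_pow, mul_pow]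
      simp only [map_mul, map_pow, map_natCast]
      ring
    rw [h3, B_C_mul_left, h m (Nat.lt_succ_iff.mp (Finset.mem_range.mp hm)), mul_zero]
  rw [h2] at h1
  have h4 : (e.factorial : ℂ) ≠ 0 := by exact_mod_cast Nat.factorial_ne_zero e
  exact (mul_eq_zero.mp h1.symm).resolve_left h4

theorem B_eq_zero_of_vanishTo {f : R3} {e : ℕ} (hf : f.IsHomogeneous e) {a : V3} {μ : ℕ}
    (h : VanishTo f a μ) {n k : ℕ} (hk : k < μ) (hnk : n + k = e) (A : R3) :
    B (lin a ^ n * A) f = 0 := by
  have h1 := h k hk
  have hke : k ≤ e := by omega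
  rw [taylor_component hf a hke] at h1
  have h2 : (((e - k).factorial : ℂ)⁻¹) ≠ 0 := inv_ne_zero (by
    exact_mod_cast Nat.factorial_ne_zero _)
  rw [B_lin_pow_mul, (by omega : n = e - k)]
  rcases mul_eq_zero.mp h1 with h3 | h3
  · exfalso
    rw [C_eq_zero] at h3
    exact h2 h3
  · rw [h3, map_zero]

/-- Bezout for a line -/
theorem xl_dvd_of_vanishTo {a b : V3} (hab : cr a b ≠ 0) {f : R3} {e : ℕ}
    (hf : f.IsHomogeneous e) {μ ν : ℕ} (ha : VanishTo f a μ) (hb : VanishTo f b ν)
    (h : e + 1 ≤ μ + ν) : xl a b ∣ f := by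
  apply xl_dvd hab hf
  intro i hi
  by_cases h1 : e - i < μ
  · exact B_eq_zero_of_vanishTo hf ha h1 (by omega) _
  · rw [mul_comm]
    exact B_eq_zero_of_vanishTo hf hb (by omega : i < ν) (by omega) _

theorem homogeneousComponent_mul {A : R3} {n : ℕ} (hA : A.IsHomogeneous n) (k : ℕ) (h : R3) :
    homogeneousComponent (n + k) (A * h) = A * homogeneousComponent k h := by
  conv_lhs => rw [← sum_homogeneousComponent h]
  rw [Finset.mul_sum, map_sum]
  by_cases hk : k ∈ Finset.range (h.totalDegree + 1)
  · rw [Finset.sum_eq_single k]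
    · exact homogeneousComponent_eq_self (hA.mul (homogeneousComponent_isHomogeneous k h))
    · intro j _ hj
      rw [homogeneousComponent_of_mem (hA.mul (homogeneousComponent_isHomogeneous j h)), if_neg]
      omega
    · intro hk'
      exact absurd hk hk'
  · have h1 : homogeneousComponent k h = 0 := by
      apply homogeneousComponent_eq_zero
      rw [Finset.mem_range] at hk
      omega
    rw [h1, mul_zero]
    refine Finset.sum_eq_zero (fun j hj => ?_)
    rw [homogeneousComponent_of_mem (hA.mul (homogeneousComponent_isHomogeneous j h)), if_neg]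
    rw [Finset.mem_range] at hj hk
    omega

theorem homogeneousComponent_mul_lt {A : R3} {n : ℕ} (hA : A.IsHomogeneous n) {k : ℕ} (hk : k < n)
    (h : R3) : homogeneousComponent k (A * h) = 0 := by
  conv_lhs => rw [← sum_homogeneousComponent h]
  rw [Finset.mul_sum, map_sum]
  refine Finset.sum_eq_zero (fun j _ => ?_)
  rw [homogeneousComponent_of_mem (hA.mul (homogeneousComponent_isHomogeneous j h)), if_neg]
  omega

theorem translate_mul (a : V3) (f g : R3) : translate a (f * g) = translate a f * translate a g := by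
  unfold translate
  rw [map_mul]

theorem translate_lin (a v : V3) : translate a (lin v) = C (eval a (lin v)) + lin v := by
  unfold translate
  rw [eval_lin]
  unfold lin
  simp only [map_sum, map_mul, aeval_X, algHom_C, algebraMap_eq, mul_add, Finset.sum_add_distrib]

/-- division of a form by a linear form, away from its zeros -/
theorem vanishTo_of_mul_ne {v : V3} {g : R3} {p : V3} {μ : ℕ} (h : VanishTo (lin v * g) p μ)
    (hp : eval p (lin v) ≠ 0) : VanishTo g p μ := by
  intro k
  induction k with
  | zero =>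
    intro hk
    have h1 := h 0 hk
    rw [translate_mul, translate_lin, add_mul, map_add, homogeneousComponent_C_mul,
      homogeneousComponent_mul_lt (lin_isHomogeneous v) one_pos, add_zero] at h1
    rcases mul_eq_zero.mp h1 with h2 | h2
    · rw [C_eq_zero] at h2
      exact absurd h2 hp
    · exact h2
  | succ k ih =>
    intro hk
    have h1 := h (k + 1) hk
    rw [translate_mul, translate_lin, add_mul, map_add, homogeneousComponent_C_mul, add_comm k 1,
      homogeneousComponent_mul (lin_isHomogeneous v), ih (by omega), mul_zero, add_zero] at h1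
    rw [add_comm k 1]
    rcases mul_eq_zero.mp h1 with h2 | h2
    · rw [C_eq_zero] at h2
      exact absurd h2 hp
    · exact h2

/-- division of a form by a linear form, at one of its zeros -/
theorem vanishTo_of_mul_eq {v : V3} (hv : v ≠ 0) {g : R3} {p : V3} {μ : ℕ}
    (h : VanishTo (lin v * g) p μ)
    (hp : eval p (lin v) = 0) : VanishTo g p (μ - 1) := by
  intro k hk
  have h1 := h (1 + k) (by omega)
  rw [translate_mul, translate_lin, hp, C_0, zero_add,
    homogeneousComponent_mul (lin_isHomogeneous v)] at h1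
  exact (mul_eq_zero.mp h1).resolve_left (fun h' => hv (lin_eq_zero.mp h'))

theorem exists_factor {v : V3} {f : R3} {d : ℕ} (hf : f.IsHomogeneous d)
    (hf0 : f ≠ 0) (h : lin v ∣ f) : ∃ e g, d = e + 1 ∧ IsHomogeneous g e ∧ f = lin v * g := by
  obtain ⟨g, hg⟩ := h
  cases d with
  | zero =>
    exfalso
    apply hf0
    rw [← homogeneousComponent_eq_self hf, hg]
    exact homogeneousComponent_mul_lt (lin_isHomogeneous v) one_pos g
  | succ e =>
    refine ⟨e, homogeneousComponent e g, rfl, homogeneousComponent_isHomogeneous e g, ?_⟩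
    rw [← homogeneousComponent_mul (lin_isHomogeneous v), ← hg, add_comm 1 e,
      homogeneousComponent_eq_self hf]

end Pool.Agent.Work.MP_0421d9_ag
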