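import Pool.Agent.Work.MP_0421d9_ag.Order69
import Pool.Agent.Work.MP_0421d9_ag.Lines

/-!
A new flag on a suitable line cuts down all linear systems of bounded degree as much as possible.
-/

namespace Pool.Agent.Work.MP_0421d9_ag.LD

open MvPolynomial Module

theorem finrank_eq_ker_add_map {E F : Type} [AddCommGroup E] [Module ℂ E] [AddCommGroup F]
    [Module ℂ F] (φ : E →ₗ[ℂ] F) (T : Submodule ℂ E) [Module.Finite ℂ T] :
    finrank ℂ T = finrank ℂ ↥(T ⊓ LinearMap.ker φ) + finrank ℂ ↥(T.map φ) := by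
  have h1 := LinearMap.finrank_range_add_finrank_ker (φ ∘ₗ T.subtype)
  have h2 : LinearMap.range (φ ∘ₗ T.subtype) = T.map φ := by
    rw [LinearMap.range_comp, Submodule.range_subtype]
  have h3 : LinearMap.ker (φ ∘ₗ T.subtype) = (LinearMap.ker φ).comap T.subtype := by
    rw [LinearMap.ker_comp]
  rw [h2, h3, ← finrank_inf_eq] at h1
  omega

theorem coeff_eq_zero_of_mul {a b : Polynomial ℂ} {A : ℕ} (ha : a.coeff 0 ≠ 0)
    (h : ∀ k < A, (a * b).coeff k = 0) : ∀ k < A, b.coeff k = 0 := by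
  rw [← Polynomial.X_pow_dvd_iff] at h ⊢
  refine Prime.pow_dvd_of_dvd_mul_left Polynomial.prime_X A ?_ h
  rw [Polynomial.X_dvd_iff]
  exact ha

theorem onLine_lin (q v w : V3) : onLine q v (lin w) =
    Polynomial.C (eval q (lin w)) + Polynomial.C (eval v (lin w)) * Polynomial.X := by
  rw [eval_lin, eval_lin]
  unfold onLine lin
  simp only [map_sum, map_mul, aeval_X, algHom_C, Polynomial.algebraMap_eq, mul_add,
    Finset.sum_add_distrib, Finset.sum_mul]
  congr 1
  exact Finset.sum_congr rfl (fun i _ => by ring)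

theorem eval_onLine (q v : V3) (c : ℂ) (F : R3) :
    (onLine q v F).eval c = eval (q + c • v) F := by
  unfold onLine
  induction F using MvPolynomial.induction_on with
  | C a => simp
  | add f g hf hg => rw [map_add, Polynomial.eval_add, hf, hg, map_add]
  | mul_X f i hf =>
    rw [map_mul, Polynomial.eval_mul, hf, map_mul, aeval_X, eval_X]
    simp only [Polynomial.eval_add, Polynomial.eval_C, Polynomial.eval_mul, Polynomial.eval_X,
      Pi.add_apply, Pi.smul_apply, smul_eq_mul]
    ring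

theorem onLine_shift (q v : V3) (c : ℂ) (F : R3) :
    onLine (q + c • v) v F = (onLine q v F).comp (Polynomial.X + Polynomial.C c) := by
  apply Polynomial.funext
  intro t
  rw [Polynomial.eval_comp, eval_onLine, eval_onLine]
  congr 2
  simp only [Polynomial.eval_add, Polynomial.eval_X, Polynomial.eval_C]
  rw [add_smul]
  abel

theorem eval_smul_of_homogeneous {F : R3} {d : ℕ} (hF : F.IsHomogeneous d) (c : ℂ) (u : V3) :
    eval (c • u) F = c ^ d * eval u F := by
  rw [eval_eq, eval_eq, Finset.mul_sum]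
  refine Finset.sum_congr rfl (fun α hα => ?_)
  have h1 : ∑ i, α i = d := by
    have := hF (mem_support_iff.mp hα)
    rw [Finsupp.weight_apply, Finsupp.sum_fintype] at this
    · simpa using this
    · simp
  have h2 : ∏ i, (c • u) i ^ α i = c ^ d * ∏ i, u i ^ α i := by
    rw [← h1, ← Finset.prod_pow_eq_pow_sum, ← Finset.prod_mul_distrib]
    exact Finset.prod_congr rfl (fun i _ => by rw [Pi.smul_apply, smul_eq_mul, mul_pow])
  have h3 : ∏ i ∈ α.support, (c • u) i ^ α i = ∏ i, (c • u) i ^ α i := by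
    apply Finset.prod_subset (Finset.subset_univ _)
    intro i _ hi
    rw [Finsupp.notMem_support_iff.mp hi, pow_zero]
  have h4 : ∏ i ∈ α.support, u i ^ α i = ∏ i, u i ^ α i := by
    apply Finset.prod_subset (Finset.subset_univ _)
    intro i _ hi
    rw [Finsupp.notMem_support_iff.mp hi, pow_zero]
  rw [h3, h4, h2]
  ring

/-- a form which vanishes on the line through `q` with direction `v` is divisible by its
equation -/
theorem lin_dvd_of_onLine {w : V3} (hw0 : w 0 ≠ 0) {F : R3} {d : ℕ} (hF : F.IsHomogeneous d)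
    (h : onLine ![-w 1, w 0, 0] ![-w 2, 0, w 0] F = 0) : lin w ∣ F := by
  have hw : w ≠ 0 := fun h' => hw0 (by rw [h']; rfl)
  set q : V3 := ![-w 1, w 0, 0] with hq
  set v : V3 := ![-w 2, 0, w 0] with hv
  apply lin_dvd_of_eval hw
  intro u hu
  rw [eval_lin, Fin.sum_univ_three] at hu
  have hu' : u = (u 1 / w 0) • q + (u 2 / w 0) • v := by
    ext i
    rw [Pi.add_apply, Pi.smul_apply, Pi.smul_apply, smul_eq_mul, smul_eq_mul]
    fin_cases i
    · simp only [hq, hv, Fin.zero_eta, Matrix.cons_val_zero]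
      field_simp
      linear_combination hu
    · simp only [hq, hv, Fin.mk_one, Matrix.cons_val_one, Matrix.cons_val_zero]
      field_simp
      ring
    · simp only [hq, hv, Fin.reduceFinMk, Matrix.cons_val]
      field_simp
      ring
  -- the values on the whole plane
  have h1 : ∀ a b : ℂ, a ≠ 0 → eval (a • q + b • v) F = 0 := by
    intro a b ha
    have h2 : a • q + b • v = a • (q + (b / a) • v) := by
      rw [smul_add, smul_smul, mul_div_cancel₀ _ ha]
    rw [h2, eval_smul_of_homogeneous hF, ← eval_onLine, h, Polynomial.eval_zero, mul_zero]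
  have h2 : ∀ b : ℂ, onLine (b • v) q F = 0 := by
    intro b
    have h3 : Polynomial.X * onLine (b • v) q F = 0 := by
      apply Polynomial.funext
      intro t
      rw [Polynomial.eval_mul, Polynomial.eval_X, Polynomial.eval_zero]
      by_cases ht : t = 0
      · rw [ht, zero_mul]
      · rw [eval_onLine, add_comm, h1 t b ht, mul_zero]
    exact (mul_eq_zero.mp h3).resolve_left Polynomial.X_ne_zero
  rw [hu', add_comm, ← eval_onLine, h2, Polynomial.eval_zero]

/-- division by the equation of a line through none of the points -/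
theorem Sys_divide {r : ℕ} {y : Fin r → ℕ} {e : ℕ} {A : ℕ → ℕ} {p : Fin r → V3}
    {q v : ℕ → V3} {D : ℕ} {w : V3} (hwp : ∀ i, eval (p i) (lin w) ≠ 0)
    (hwq : ∀ l < e, eval (q l) (lin w) ≠ 0) {F : R3} (hF : F ∈ Sys (D + 1) y e A p q v)
    (hdvd : lin w ∣ F) : ∃ g ∈ Sys D y e A p q v, F = lin w * g := by
  by_cases hF0 : F = 0
  · exact ⟨0, Submodule.zero_mem _, by rw [hF0, mul_zero]⟩
  obtain ⟨h1, h2, h3⟩ := mem_Sys.mp hF
  obtain ⟨d, g, hd, hg, hfg⟩ := exists_factor h1 hF0 hdvd
  obtain rfl : D = d := by omega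
  refine ⟨g, mem_Sys.mpr ⟨hg, fun i => ?_, fun l hl => ?_⟩, hfg⟩
  · refine vanishTo_of_mul_ne ?_ (hwp i)
    rw [← hfg]
    exact h2 i
  · rw [mem_flagSub]
    apply coeff_eq_zero_of_mul (a := onLine (q l) (v l) (lin w))
    · rw [onLine_lin]
      simpa using hwq l hl
    · rw [← map_mul, ← hfg]
      exact h3 l hl

/-- a line through none of finitely many points -/
theorem exists_avoiding {r : ℕ} (p : Fin r → V3) (hp : ∀ i, p i ≠ 0) (e : ℕ) (q : ℕ → V3)
    (hq : ∀ l < e, q l ≠ 0) :
    ∃ w : V3, w 0 ≠ 0 ∧ (∀ i, eval (p i) (lin w) ≠ 0) ∧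
      ∀ l < e, eval (q l) (lin w) ≠ 0 := by
  classical
  have h1 : (X 0 : R3) * ((∏ i, lin (p i)) * ∏ l ∈ Finset.range e, lin (q l)) ≠ 0 := by
    refine mul_ne_zero (X_ne_zero _) (mul_ne_zero ?_ ?_)
    · exact Finset.prod_ne_zero_iff.mpr fun i _ => fun h => hp i (lin_eq_zero.mp h)
    · exact Finset.prod_ne_zero_iff.mpr fun l hl => fun h =>
        hq l (Finset.mem_range.mp hl) (lin_eq_zero.mp h)
  obtain ⟨w, hw⟩ : ∃ w, eval w ((X 0 : R3) * ((∏ i, lin (p i)) *
      ∏ l ∈ Finset.range e, lin (q l))) ≠ 0 := by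
    by_contra hcon
    push Not at hcon
    exact h1 (MvPolynomial.funext (fun u => by rw [hcon u, map_zero]))
  rw [map_mul, map_mul, eval_X, map_prod, map_prod] at hw
  have h2 := left_ne_zero_of_mul hw
  have h3 := left_ne_zero_of_mul (right_ne_zero_of_mul hw)
  have h4 := right_ne_zero_of_mul (right_ne_zero_of_mul hw)
  refine ⟨w, h2, fun i => ?_, fun l hl => ?_⟩
  · rw [eval_lin_comm]
    exact Finset.prod_ne_zero_iff.mp h3 i (Finset.mem_univ i)
  · rw [eval_lin_comm]
    exact Finset.prod_ne_zero_iff.mp h4 l (Finset.mem_range.mpr hl)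

/-- for given points and flags there is a new flag which cuts down the systems of all degrees
`D + 1`, `D ≤ N`, as much as possible -/
theorem flag_step {r : ℕ} (y : Fin r → ℕ) (e : ℕ) (A : ℕ → ℕ) (p : Fin r → V3)
    (hp : ∀ i, p i ≠ 0) (q v : ℕ → V3) (hq : ∀ l < e, q l ≠ 0) (B N : ℕ) :
    ∃ q' v' : V3, q' ≠ 0 ∧ ∀ D ≤ N,
      finrank ℂ ↥(Sys (D + 1) y e A p q v ⊓ flagSub q' v' B) ≤
        max (finrank ℂ (Sys (D + 1) y e A p q v) - B) (finrank ℂ (Sys D y e A p q v)) := by
  classical
  obtain ⟨w, hw0, hwp, hwq⟩ := exists_avoiding p hp e q hq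
  set q₀ : V3 := ![-w 1, w 0, 0] with hq₀
  set v₀ : V3 := ![-w 2, 0, w 0] with hv₀
  let φ : R3 →ₗ[ℂ] Polynomial ℂ := (onLine q₀ v₀).toLinearMap
  have hφ : ∀ F, φ F = onLine q₀ v₀ F := fun F => rfl
  have hfin : ∀ D, Module.Finite ℂ ↥((Sys D y e A p q v).map φ) := fun D => inferInstance
  choose h hh0 hh using fun D =>
    @order_generic ((Sys (D + 1) y e A p q v).map φ) (hfin (D + 1)) B
  have hprod : (∏ D ∈ Finset.range (N + 1), h D) ≠ 0 :=
    Finset.prod_ne_zero_iff.mpr fun D _ => hh0 D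
  obtain ⟨c, hc, -⟩ := exists_eval_ne hprod (one_ne_zero (α := Polynomial ℂ))
  rw [Polynomial.eval_prod] at hc
  refine ⟨q₀ + c • v₀, v₀, ?_, fun D hD => ?_⟩
  · intro h0
    have h1 := congrFun h0 1
    rw [Pi.add_apply, Pi.smul_apply, smul_eq_mul] at h1
    apply hw0
    simpa [hq₀, hv₀] using h1
  · have hcD : (h D).eval c ≠ 0 :=
      Finset.prod_ne_zero_iff.mp hc D (Finset.mem_range.mpr (by omega))
    have h1 := hh D c hcD
    -- the new flag in terms of the image
    have hflag : flagSub (q₀ + c • v₀) v₀ B = (ordSub c B).comap φ := by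
      ext F
      rw [mem_flagSub, Submodule.mem_comap, hφ]
      simp only [onLine_shift]
      exact Iff.rfl
    set S := Sys (D + 1) y e A p q v with hS
    have hker : finrank ℂ ↥(S ⊓ LinearMap.ker φ) ≤ finrank ℂ (Sys D y e A p q v) := by
      have h2 : S ⊓ LinearMap.ker φ ≤
          (Sys D y e A p q v).map (LinearMap.mulLeft ℂ (lin w)) := by
        intro F hF
        obtain ⟨h3, h4⟩ := Submodule.mem_inf.mp hF
        rw [LinearMap.mem_ker, hφ] at h4
        obtain ⟨g, hg, hFg⟩ := Sys_divide hwp hwq h3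
          (lin_dvd_of_onLine hw0 (mem_Sys.mp h3).1 h4)
        exact ⟨g, hg, hFg.symm⟩
      exact (Submodule.finrank_mono h2).trans (Submodule.finrank_map_le _ _)
    have hT : finrank ℂ ↥(S ⊓ (ordSub c B).comap φ) ≤
        finrank ℂ ↥(S ⊓ LinearMap.ker φ) + (finrank ℂ ↥(S.map φ) - B) := by
      have hfT : Module.Finite ℂ ↥(S ⊓ (ordSub c B).comap φ) :=
        Submodule.finiteDimensional_of_le inf_le_left
      rw [finrank_eq_ker_add_map φ (S ⊓ (ordSub c B).comap φ)]
      have hfK : Module.Finite ℂ ↥(S ⊓ LinearMap.ker φ) :=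
        Submodule.finiteDimensional_of_le inf_le_left
      have hfM : Module.Finite ℂ ↥(S.map φ ⊓ ordSub c B) :=
        Submodule.finiteDimensional_of_le inf_le_left
      refine add_le_add ?_ ?_
      · apply Submodule.finrank_mono
        exact inf_le_inf_right _ inf_le_left
      · refine le_trans (Submodule.finrank_mono ?_) h1
        rintro _ ⟨F, hF, rfl⟩
        obtain ⟨h3, h4⟩ := Submodule.mem_inf.mp hF
        exact Submodule.mem_inf.mpr ⟨⟨F, h3, rfl⟩, h4⟩
    rw [hflag]
    have h5 := finrank_eq_ker_add_map φ S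
    refine hT.trans ?_
    rcases Nat.lt_or_ge (finrank ℂ ↥(S.map φ)) B with h6 | h6
    · refine le_trans ?_ (le_max_right _ _)
      omega
    · refine le_trans ?_ (le_max_left _ _)
      omega

end Pool.Agent.Work.MP_0421d9_ag.LD
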