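import Pool.Agent.Work.MP_0421d9_ag.Unif4

/-!
Uniform systems: final form of the bounds, examples attaining both of them, emptiness, and Nagata's
inequality for small multiplicities.
-/

set_option linter.unusedSectionVars false

namespace Pool.Agent.Work.MP_0421d9_ag

open MvPolynomial Module

/-- **Special uniform systems.** -/
theorem uniform_window {r m d : ℕ} {p : Fin r → V3} (hr : 2 ≤ r) (hp : GenericPoints p)
    (hpos : linSys d p (fun _ => m) ≠ ⊥)
    (h : finrank ℂ (linSys d p (fun _ => m)) + r * (m + 1).choose 2 ≠ (d + 2).choose 2) :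
    ∃ e, 1 ≤ e ∧ e + 1 ≤ m ∧
      finrank ℂ (linSys d p (fun _ => m)) ≤ uniformBound r (e + 1) ∧
      finrank ℂ (linSys d p (fun _ => m)) + r * (m + 1).choose 2 ≤
        (d + 2).choose 2 + (m - e + 1).choose 2 := by
  obtain ⟨q, rfl⟩ : ∃ q, r = q + 1 := ⟨r - 1, by omega⟩
  obtain ⟨e, h1, h2, h3, h4⟩ := unif_window hp (by omega) (Fintype.card_fin _) hpos h
  refine ⟨e, h1, h2, ?_, h4⟩
  rw [uniformBound_eq (by omega), Nat.add_sub_cancel]
  exact h3

/-- emptiness -/
theorem uniform_empty {r m d : ℕ} {p : Fin r → V3} (hr : 2 ≤ r) (hp : GenericPoints p)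
    (h : (d + 2).choose 2 + m.choose 2 ≤ r * (m + 1).choose 2) :
    linSys d p (fun _ => m) = ⊥ := by
  by_contra hne
  have hfin : Module.Finite ℂ (linSys d p (fun _ => m)) :=
    Submodule.finiteDimensional_of_le (linSys_le d p _)
  have hpos' : finrank ℂ (linSys d p (fun _ => m)) ≠ 0 := fun h0 =>
    hne (Submodule.finrank_eq_zero.mp h0)
  by_cases hs : finrank ℂ (linSys d p (fun _ => m)) + r * (m + 1).choose 2 = (d + 2).choose 2
  · omega
  · obtain ⟨e, h1, h2, h3, h4⟩ := uniform_window hr hp hne hs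
    have h5 : (m - e + 1).choose 2 ≤ m.choose 2 := Nat.choose_le_choose 2 (by omega)
    omega

theorem two_mul_choose (n : ℕ) : 2 * (n + 1).choose 2 = n * (n + 1) := by
  induction n with
  | zero => rfl
  | succ n ih =>
    have := choose_two_succ n
    rw [this, Nat.mul_add, ih]
    ring

theorem two_mul_choose_two (n : ℕ) : 2 * (n + 2).choose 2 = (n + 1) * (n + 2) :=
  two_mul_choose (n + 1)

theorem two_mul_choose' {m : ℕ} (hm : 1 ≤ m) : 2 * m.choose 2 + m = m * m := by
  obtain ⟨n, rfl⟩ : ∃ n, m = n + 1 := ⟨m - 1, by omega⟩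
  rw [two_mul_choose]
  ring

/-- Nagata's inequality -/
theorem nagata {r m d : ℕ} {p : Fin r → V3} (hp : GenericPoints p) (hm : 1 ≤ m)
    (hmr : m ≤ r + 1) (hr : 9 * r < (r + 1 - m) * (r + 1 - m))
    (hne : linSys d p (fun _ => m) ≠ ⊥) : r * (m * m) < d * d := by
  have hr2 : 2 ≤ r := by
    by_contra hcon
    have : r = 0 ∨ r = 1 := by omega
    rcases this with rfl | rfl
    · have : m = 1 := by omega
      subst this
      norm_num at hr
    · have : m = 1 ∨ m = 2 := by omega
      rcases this with rfl | rfl <;> norm_num at hr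
  by_contra hcon
  push Not at hcon
  apply hne
  apply uniform_empty hr2 hp
  by_contra hc
  push Not at hc
  obtain ⟨t, ht⟩ : ∃ t, r + 1 = m + t := ⟨r + 1 - m, by omega⟩
  have ht' : r + 1 - m = t := by omega
  rw [ht'] at hr
  have h1 := two_mul_choose_two d
  have h2 := two_mul_choose m
  have h3 := two_mul_choose' hm
  have h4 : 2 * (r * (m + 1).choose 2) = r * (m * (m + 1)) := by rw [← h2]; ring
  have h5 : r * (m * (m + 1)) + m + 2 ≤ (d + 1) * (d + 2) + m * m := by omega
  have h6 : r * (m * (m + 1)) = r * (m * m) + r * m := by ring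
  have h7 : (d + 1) * (d + 2) = d * d + 3 * d + 2 := by ring
  have h8 : r * m + m = m * m + t * m := by
    have : (r + 1) * m = (m + t) * m := by rw [ht]
    linarith
  have h9' : t * m ≤ 3 * d := by omega
  have h10 : (t * m) * (t * m) ≤ (3 * d) * (3 * d) := Nat.mul_le_mul h9' h9'
  have h11 : (9 * r + 1) * (m * m) ≤ (t * t) * (m * m) := Nat.mul_le_mul_right _ hr
  have h12 : (t * m) * (t * m) = (t * t) * (m * m) := by ring
  have h13 : (3 * d) * (3 * d) = 9 * (d * d) := by ring
  have h14 : (9 * r + 1) * (m * m) = 9 * (r * (m * m)) + m * m := by ring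
  have h15 : 1 ≤ m * m := Nat.mul_pos hm hm
  omega

theorem uniformBound_mono {q x y : ℕ} (h : x < y) (hy : 1 ≤ y) :
    uniformBound (q + 1) (x + 1) < uniformBound (q + 1) (y + 1) := by
  unfold uniformBound
  simp only [Nat.add_sub_cancel]
  have h1 : (x + 1).choose 2 < (y + 1).choose 2 := by
    have e1 := two_mul_choose x
    have e2 := two_mul_choose y
    have e3 : x * (x + 1) < y * (y + 1) := by
      have : x * (x + 1) ≤ x * (y + 1) := Nat.mul_le_mul_left _ (by omega)
      have : x * (y + 1) < y * (y + 1) := Nat.mul_lt_mul_of_pos_right h (by omega)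
      omega
    omega
  have h2 : ∑ k ∈ Finset.range (x + 1), (x - (k + 1) * q) ≤
      ∑ k ∈ Finset.range (y + 1), (y - (k + 1) * q) := by
    have h3 : ∑ k ∈ Finset.range (x + 1), (x - (k + 1) * q) ≤
        ∑ k ∈ Finset.range (x + 1), (y - (k + 1) * q) :=
      Finset.sum_le_sum (fun k _ => by omega)
    refine h3.trans ?_
    apply Finset.sum_le_sum_of_subset
    intro k hk
    rw [Finset.mem_range] at *
    omega
  omega

/-- examples from a rigid curve through the points -/
theorem attained {q a : ℕ} (hq : 1 ≤ q) {p : Fin (q + 1) → V3} (hp : GenericPoints p)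
    (ha : q + 2 ≤ (a + 2).choose 2) {d' m' k b : ℕ} (hm' : m' ≤ d' + 1)
    (h1 : b + (q + 1) * (m' + 1).choose 2 = (d' + 2).choose 2)
    (h2 : b + (q + 1) * (m' + (k + 2) + 1).choose 2 =
      (d' + (k + 2) * a + 2).choose 2 + (k + 2).choose 2)
    (h3 : uniformBound (q + 1) (m' + 1 + 1) = b) (hb : 1 ≤ b) :
    finrank ℂ (linSys (d' + (k + 2) * a) p (fun _ => m' + (k + 2))) = b := by
  have hk : 1 ≤ (k + 2).choose 2 := Nat.choose_pos (by omega)
  -- the rigid curve
  have e1 := chi_le (d := a) (p := p) (m := fun _ => 1) (fun _ => by omega)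
  rw [Finset.sum_const, Finset.card_univ, Fintype.card_fin, smul_eq_mul] at e1
  have e2 : (1 + 1 : ℕ).choose 2 = 1 := rfl
  rw [e2, mul_one] at e1
  have e3 : 0 < finrank ℂ (linSys a p (fun _ => 1)) := by omega
  obtain ⟨⟨A, hA⟩, hA0⟩ := Module.finrank_pos_iff_exists_ne_zero.mp e3
  have hA0' : A ≠ 0 := fun h => hA0 (Subtype.ext h)
  have hpow : ∀ n : ℕ, (A ^ n).IsHomogeneous (n * a) ∧ ∀ i, VanishTo (A ^ n) (p i) n := by
    intro n
    induction n with
    | zero =>
      refine ⟨?_, fun i => vanishTo_zero _ _⟩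
      rw [pow_zero, zero_mul]
      exact isHomogeneous_one _ _
    | succ n ih =>
      refine ⟨?_, fun i => ?_⟩
      · have := ih.1.mul hA.1
        rw [pow_succ, add_mul, one_mul]
        exact this
      · rw [pow_succ]
        exact vanishTo_mul (ih.2 i) (hA.2 i)
  -- lower bound
  have e4 : b ≤ finrank ℂ (linSys d' p (fun _ => m')) := by
    have e5 := chi_le (d := d') (p := p) (m := fun _ => m') (fun _ => hm')
    rw [Finset.sum_const, Finset.card_univ, Fintype.card_fin, smul_eq_mul] at e5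
    omega
  have e5 : b ≤ finrank ℂ (linSys (d' + (k + 2) * a) p (fun _ => m' + (k + 2))) := by
    refine e4.trans ?_
    rw [← finrank_map_mulLeft (pow_ne_zero (k + 2) hA0')]
    apply Submodule.finrank_mono
    rintro _ ⟨g, hg, rfl⟩
    change A ^ (k + 2) * g ∈ _
    refine ⟨?_, fun i => ?_⟩
    · have := (hpow (k + 2)).1.mul hg.1
      rwa [add_comm ((k + 2) * a)] at this
    · have h4 := vanishTo_mul ((hpow (k + 2)).2 i) (hg.2 i)
      change VanishTo (A ^ (k + 2) * g) (p i) (m' + (k + 2))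
      rwa [(by rfl : k + 2 + (fun _ : Fin (q + 1) => m') i = k + 2 + m'),
        add_comm (k + 2) m'] at h4
  -- upper bound
  have hne : linSys (d' + (k + 2) * a) p (fun _ => m' + (k + 2)) ≠ ⊥ := by
    intro h0
    rw [h0, finrank_bot] at e5
    omega
  obtain ⟨e, f1, f2, f3, f4⟩ := uniform_window (by omega) hp hne (by omega)
  have f5 : m' + 1 ≤ e := by
    by_contra hcon
    have := uniformBound_mono (q := q) (x := e) (y := m' + 1) (by omega) (by omega)
    omega
  have f6 : (m' + (k + 2) - e + 1).choose 2 ≤ (k + 2).choose 2 :=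
    Nat.choose_le_choose 2 (by omega)
  omega

theorem two_sharp {p : Fin 2 → V3} (hp : GenericPoints p) (x k : ℕ) :
    finrank ℂ (linSys (2 * x + (k + 2)) p (fun _ => x + (k + 2))) = uniformBound 2 (x + 2) ∧
    uniformBound 2 (x + 2) + 2 * (x + (k + 2) + 1).choose 2 =
      (2 * x + (k + 2) + 2).choose 2 + (k + 2).choose 2 := by
  have hb : uniformBound 2 (x + 2) = (x + 1) * (x + 1) := bound_two x
  have e1 := two_mul_choose x
  have e2 := two_mul_choose_two (2 * x)
  have e3 := two_mul_choose (x + (k + 2))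
  have e4 := two_mul_choose_two (2 * x + (k + 2))
  have e5 := two_mul_choose_two k
  have h1 : (x + 1) * (x + 1) + 2 * (x + 1).choose 2 = (2 * x + 2).choose 2 := by
    have : 2 * ((x + 1) * (x + 1)) + 2 * (x * (x + 1)) = (2 * x + 1) * (2 * x + 2) := by ring
    omega
  have h2 : (x + 1) * (x + 1) + 2 * (x + (k + 2) + 1).choose 2 =
      (2 * x + (k + 2) + 2).choose 2 + (k + 2).choose 2 := by
    have : 2 * ((x + 1) * (x + 1)) + 2 * ((x + (k + 2)) * (x + (k + 2) + 1)) =
        (2 * x + (k + 2) + 1) * (2 * x + (k + 2) + 2) + (k + 1) * (k + 2) := by ring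
    omega
  refine ⟨?_, by rw [hb]; exact h2⟩
  have h3 := attained (q := 1) (a := 1) le_rfl hp (by decide) (d' := 2 * x) (m' := x) (k := k)
    (b := (x + 1) * (x + 1)) (by omega) h1 (by rw [mul_one]; exact h2) hb
    (Nat.mul_pos (Nat.succ_pos x) (Nat.succ_pos x))
  rw [hb, ← h3, mul_one]

theorem five_sharp {p : Fin 5 → V3} (hp : GenericPoints p) (κ k : ℕ) :
    finrank ℂ (linSys (5 * κ + 2 * (k + 2)) p (fun _ => 2 * κ + (k + 2))) =
      uniformBound 5 (2 * κ + 2) ∧
    uniformBound 5 (2 * κ + 2) + 5 * (2 * κ + (k + 2) + 1).choose 2 =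
      (5 * κ + 2 * (k + 2) + 2).choose 2 + (k + 2).choose 2 := by
  have hb := bound_five κ
  set b := uniformBound 5 (2 * κ + 2) with hbdef
  have e0 := choose_five κ
  have e3 := two_mul_choose (2 * κ + (k + 2))
  have e4 := two_mul_choose_two (5 * κ + 2 * (k + 2))
  have e5 := two_mul_choose_two k
  have h1 : b + 5 * (2 * κ + 1).choose 2 = (5 * κ + 2).choose 2 := by omega
  have h2 : b + 5 * (2 * κ + (k + 2) + 1).choose 2 =
      (5 * κ + 2 * (k + 2) + 2).choose 2 + (k + 2).choose 2 := by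
    have : (5 * κ * κ + 5 * κ + 2) + 5 * ((2 * κ + (k + 2)) * (2 * κ + (k + 2) + 1)) =
        (5 * κ + 2 * (k + 2) + 1) * (5 * κ + 2 * (k + 2) + 2) + (k + 1) * (k + 2) := by ring
    omega
  refine ⟨?_, h2⟩
  have h3 := attained (q := 4) (a := 2) (by norm_num) hp (by decide) (d' := 5 * κ)
    (m' := 2 * κ) (k := k) (b := b) (by omega) h1 (by rw [mul_comm (k + 2) 2]; exact h2)
    rfl (by omega)
  rw [mul_comm (k + 2) 2] at h3
  exact h3

end Pool.Agent.Work.MP_0421d9_ag
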