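import Pool.Agent.Work.MP_0421d9_ag.Gen2
import Pool.Agent.Work.MP_0421d9_ag.Unif5

/-!
The window outside which planar linear systems with generic base points are empty or nonspecial.
-/

set_option linter.unusedSectionVars false

namespace Pool.Agent.Work.MP_0421d9_ag

open MvPolynomial Module

theorem sum_image_choose_le {r : ℕ} {m : Fin r → ℕ} {M : ℕ} (hM : ∀ i, m i ≤ M) :
    ∑ a ∈ Finset.univ.image m, a.choose 2 ≤ (M + 1).choose 3 := by
  have h1 : Finset.univ.image m ⊆ Finset.range (M + 1) := by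
    intro a ha
    obtain ⟨i, -, rfl⟩ := Finset.mem_image.mp ha
    exact Finset.mem_range.mpr (Nat.lt_succ_of_le (hM i))
  have h2 : ∑ a ∈ Finset.range (M + 1), a.choose 2 = (M + 1).choose 3 := by
    clear h1 hM
    induction M with
    | zero => rfl
    | succ M ih =>
      rw [Finset.sum_range_succ, ih, Nat.choose_succ_succ' (M + 1) 2]
      ring
  rw [← h2]
  exact Finset.sum_le_sum_of_subset h1

theorem window_empty {r d M : ℕ} {p : Fin r → Fin 3 → ℂ} (hp : GenericPoints p) {m : Fin r → ℕ}
    (hM : ∀ i, m i ≤ M)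
    (h : (d + 2).choose 2 + (M + 1).choose 3 ≤ ∑ i, (m i + 1).choose 2) : linSys d p m = ⊥ := by
  by_contra hne
  have hfin : Module.Finite ℂ (linSys d p m) :=
    Submodule.finiteDimensional_of_le (linSys_le d p _)
  have hpos' : finrank ℂ (linSys d p m) ≠ 0 := fun h0 =>
    hne (Submodule.finrank_eq_zero.mp h0)
  have h1 := super_window hp hne
  have h2 := sum_image_choose_le hM
  omega

theorem window_nonspecial {r d M : ℕ} {p : Fin r → Fin 3 → ℂ} (hp : GenericPoints p)
    {m : Fin r → ℕ} (hM : ∀ i, m i ≤ M)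
    (h : ∑ i, (m i + 1).choose 2 + (M - 1) * (M - 1) < (d + 2).choose 2) :
    finrank ℂ (linSys d p m) + ∑ i, (m i + 1).choose 2 = (d + 2).choose 2 := by
  have hfin : Module.Finite ℂ (linSys d p m) :=
    Submodule.finiteDimensional_of_le (linSys_le d p _)
  by_contra hcon
  by_cases hmd : ∀ i, m i ≤ d + 1
  · have h1 := chi_le (d := d) (p := p) hmd
    have hne : linSys d p m ≠ ⊥ := by
      intro h0
      rw [h0, finrank_bot] at h1
      omega
    obtain ⟨i, j, -, h2⟩ := special_le hp hne hcon
    have h3 : (m i - 1) * (m j - 1) ≤ (M - 1) * (M - 1) :=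
      Nat.mul_le_mul (Nat.sub_le_sub_right (hM i) 1) (Nat.sub_le_sub_right (hM j) 1)
    omega
  · push Not at hmd
    obtain ⟨i, hi⟩ := hmd
    have h1 : (m i + 1).choose 2 ≤ ∑ l, (m l + 1).choose 2 :=
      Finset.single_le_sum (f := fun l => (m l + 1).choose 2) (fun l _ => Nat.zero_le _)
        (Finset.mem_univ i)
    have h2 : (d + 2).choose 2 ≤ (m i + 1).choose 2 := Nat.choose_le_choose 2 (by omega)
    omega

/-- equality in the bound for the superabundance -/
theorem window_attained {p : Fin 2 → V3} (hp : GenericPoints p) (k : ℕ) :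
    finrank ℂ (linSys (k + 2) p (fun _ => k + 2)) + ∑ _i : Fin 2, (k + 2 + 1).choose 2 =
      (k + 2 + 2).choose 2 +
        ∑ a ∈ Finset.univ.image (fun _ : Fin 2 => k + 2), a.choose 2 := by
  obtain ⟨h1, h2⟩ := two_sharp hp 0 k
  have h3 : 2 * 0 + (k + 2) = k + 2 := by ring
  rw [h3] at h1
  have h4 : uniformBound 2 (0 + 2) + 2 * (k + 2 + 1).choose 2 =
      (k + 2 + 2).choose 2 + (k + 2).choose 2 := by
    rw [h3] at h2
    exact h2
  rw [h1, Finset.sum_const, Finset.card_univ, Fintype.card_fin, smul_eq_mul, h4]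
  have h5 : Finset.univ.image (fun _ : Fin 2 => k + 2) = {k + 2} := by
    ext a
    simp only [Finset.mem_image, Finset.mem_univ, true_and, Finset.mem_singleton]
    constructor
    · rintro ⟨-, h⟩; exact h.symm
    · intro h; exact ⟨0, h.symm⟩
  rw [h5, Finset.sum_singleton]

end Pool.Agent.Work.MP_0421d9_ag
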