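import Pool.Agent.Work.MP_0421d9_ag.Transfer69
import Pool.Agent.Work.MP_0421d9_ag.Gen3
import Pool.Agent.Work.MP_0421d9_ag.FlagStep69

/-!
The base case: few points of multiplicity at most `M` and many flags.
-/

namespace Pool.Agent.Work.MP_0421d9_ag.LD

open MvPolynomial Module

/-- the statement of `flag_step` -/
def FlagStep : Prop :=
  ∀ {r : ℕ} (y : Fin r → ℕ) (e : ℕ) (A : ℕ → ℕ) (p : Fin r → V3) (_ : ∀ i, p i ≠ 0)
    (q v : ℕ → V3) (_ : ∀ l < e, q l ≠ 0) (B N : ℕ),
    ∃ q' v' : V3, q' ≠ 0 ∧ ∀ D ≤ N,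
      finrank ℂ ↥(Sys (D + 1) y e A p q v ⊓ flagSub q' v' B) ≤
        max (finrank ℂ (Sys (D + 1) y e A p q v) - B) (finrank ℂ (Sys D y e A p q v))

/-- one more flag -/
theorem Sys_succ {r : ℕ} (D : ℕ) (y : Fin r → ℕ) (e : ℕ) (A : ℕ → ℕ) (p : Fin r → V3)
    (q v : ℕ → V3) (q' v' : V3) :
    Sys D y (e + 1) A p (Function.update q e q') (Function.update v e v') =
      Sys D y e A p q v ⊓ flagSub q' v' (A e) := by
  ext F
  rw [mem_Sys, Submodule.mem_inf, mem_Sys]
  constructor
  · rintro ⟨h1, h2, h3⟩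
    refine ⟨⟨h1, h2, fun l hl => ?_⟩, ?_⟩
    · have h4 := h3 l (by omega)
      rwa [Function.update_of_ne (by omega), Function.update_of_ne (by omega)] at h4
    · have h4 := h3 e (by omega)
      rwa [Function.update_self, Function.update_self] at h4
  · rintro ⟨⟨h1, h2, h3⟩, h4⟩
    refine ⟨h1, h2, fun l hl => ?_⟩
    by_cases hle : l = e
    · subst hle
      rwa [Function.update_self, Function.update_self]
    · rw [Function.update_of_ne hle, Function.update_of_ne hle]
      exact h3 l (by omega)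

/-- the dimension of a generic system with multiplicities at most `M` -/
theorem generic_bound {r d M : ℕ} {p : Fin r → V3} (hp : GenericPoints p) {m : Fin r → ℕ}
    (hM : ∀ i, m i ≤ M) :
    finrank ℂ (linSys d p m) ≤ max ((d + 2).choose 2 - ∑ i, (m i + 1).choose 2)
      (if ∑ i, (m i + 1).choose 2 < (d + 2).choose 2 + (M + 1).choose 3 then (M - 1) * (M - 1)
        else 0) := by
  by_cases h0 : linSys d p m = ⊥
  · rw [h0, finrank_bot]
    exact Nat.zero_le _
  by_cases h1 : finrank ℂ (linSys d p m) + ∑ i, (m i + 1).choose 2 = (d + 2).choose 2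
  · exact le_max_of_le_left (by omega)
  · obtain ⟨i, j, -, h2⟩ := special_le hp h0 h1
    have h3 : (m i - 1) * (m j - 1) ≤ (M - 1) * (M - 1) :=
      Nat.mul_le_mul (Nat.sub_le_sub_right (hM i) 1) (Nat.sub_le_sub_right (hM j) 1)
    have h4 : ∑ i, (m i + 1).choose 2 < (d + 2).choose 2 + (M + 1).choose 3 := by
      by_contra hcon
      exact h0 (window_empty hp hM (not_lt.mp hcon))
    rw [if_pos h4]
    exact le_max_of_le_right (h2.trans h3)

theorem base_of (hflag : FlagStep) {r M : ℕ} {p : Fin r → V3} (hp : GenericPoints p)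
    (y : Fin r → ℕ) (hy : ∀ i, y i ≤ M) (δ e : ℕ) (A : ℕ → ℕ)
    (hA : ∀ l < e, (M - 1) * (M - 1) ≤ A l) (hA' : ∀ l < e, A l + e ≤ δ + 1)
    (hend : (δ - e + 2).choose 2 + (M + 1).choose 3 ≤ ∑ i, (y i + 1).choose 2) (he : e ≤ δ) :
    Good δ y e A ((δ + 2).choose 2 - (∑ i, (y i + 1).choose 2 + ∑ l ∈ Finset.range e, A l)) := by
  set S := ∑ i, (y i + 1).choose 2 with hS
  set c₃ := (M + 1).choose 3 with hc₃
  set K := (M - 1) * (M - 1) with hK
  let a : ℕ → ℕ := fun t => if S < (δ - t + 2).choose 2 + c₃ then K else 0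
  have haK : ∀ t, a t ≤ K := by
    intro t
    show (if S < (δ - t + 2).choose 2 + c₃ then K else 0) ≤ K
    split_ifs
    · exact le_rfl
    · exact Nat.zero_le _
  have hp0 : ∀ i, p i ≠ 0 := by
    intro i h
    have h1 : p i 0 = 0 := by rw [h]; rfl
    exact hp.ne_zero (i, 0) h1
  have key : ∀ i, i ≤ e → ∃ q v : ℕ → V3, (∀ l < i, q l ≠ 0) ∧ ∀ j, i + j ≤ e →
      finrank ℂ (Sys (δ - j) y i A p q v) ≤
        max ((δ - j + 2).choose 2 - (S + ∑ l ∈ Finset.range i, A l)) (a (i + j)) := by
    intro i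
    induction i with
    | zero =>
      intro _
      refine ⟨fun _ => 0, fun _ => 0, fun l hl => absurd hl (Nat.not_lt_zero l), fun j _ => ?_⟩
      rw [finrank_Sys_zero, Finset.range_zero, Finset.sum_empty, add_zero, Nat.zero_add]
      exact generic_bound hp hy
    | succ i ih =>
      intro hi
      obtain ⟨q, v, hq, h1⟩ := ih (by omega)
      obtain ⟨q', v', hq', h2⟩ := hflag y i A p hp0 q v hq (A i) δ
      refine ⟨Function.update q i q', Function.update v i v', fun l hl => ?_, fun j hj => ?_⟩
      · by_cases hle : l = i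
        · subst hle
          rwa [Function.update_self]
        · rw [Function.update_of_ne hle]
          exact hq l (by omega)
      · have e1 : δ - j = δ - (j + 1) + 1 := by omega
        have h3 := h2 (δ - (j + 1)) (Nat.sub_le _ _)
        rw [← e1] at h3
        rw [Sys_succ]
        refine h3.trans ?_
        have h4 := h1 j (by omega)
        have h5 := h1 (j + 1) (by omega)
        have h6 : (δ - j + 2).choose 2 = (δ - (j + 1) + 2).choose 2 + (δ - (j + 1) + 2) := by
          have e2 : δ - j + 2 = (δ - (j + 1) + 2) + 1 := by omega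
          rw [e2, Nat.choose_succ_succ' _ 1, Nat.choose_one_right]
          ring
        have h7 := hA i (by omega)
        have h8 := hA' i (by omega)
        have h9 := haK (i + j)
        have e3 : i + (j + 1) = i + 1 + j := by omega
        rw [e3] at h5
        rw [Finset.sum_range_succ]
        generalize (∑ l ∈ Finset.range i, A l) = s at *
        generalize a (i + j) = a₁ at *
        generalize a (i + 1 + j) = a₂ at *
        generalize (δ - j + 2).choose 2 = n₁ at *
        generalize (δ - (j + 1) + 2).choose 2 = n₂ at *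
        generalize finrank ℂ (Sys (δ - j) y i A p q v) = f₁ at *
        generalize finrank ℂ (Sys (δ - (j + 1)) y i A p q v) = f₂ at *
        rw [le_max_iff] at h4 h5
        rw [max_le_iff, le_max_iff, le_max_iff]
        constructor
        · left
          rcases h4 with h4 | h4
          · omega
          · omega
        · rcases h5 with h5 | h5
          · left; omega
          · right; exact h5
  obtain ⟨q, v, -, h1⟩ := key e le_rfl
  refine ⟨p, q, v, ?_⟩
  have h2 := h1 0 (by omega)
  have h3 : a e = 0 := by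
    show (if S < (δ - e + 2).choose 2 + c₃ then K else 0) = 0
    rw [if_neg (not_lt.mpr hend)]
  rw [Nat.sub_zero, add_zero, h3] at h2
  simpa using h2

theorem flagStep_all : FlagStep := fun y e A p hp q v hq B N => flag_step y e A p hp q v hq B N

theorem base {r M : ℕ} {p : Fin r → V3} (hp : GenericPoints p) (y : Fin r → ℕ)
    (hy : ∀ i, y i ≤ M) (δ e : ℕ) (A : ℕ → ℕ) (hA : ∀ l < e, (M - 1) * (M - 1) ≤ A l)
    (hA' : ∀ l < e, A l + e ≤ δ + 1)
    (hend : (δ - e + 2).choose 2 + (M + 1).choose 3 ≤ ∑ i, (y i + 1).choose 2) (he : e ≤ δ) :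
    Good δ y e A ((δ + 2).choose 2 - (∑ i, (y i + 1).choose 2 + ∑ l ∈ Finset.range e, A l)) :=
  base_of flagStep_all hp y hy δ e A hA hA' hend he

end Pool.Agent.Work.MP_0421d9_ag.LD
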