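import Pool.Agent.Work.MP_0421d9_ag.Along

/-!
The local equation on the blow-up.
-/

set_option linter.unusedSectionVars false

namespace Pool.Agent.Work.MP_0421d9_ag

open MvPolynomial

/-- substitution of the chart `(s, t) ↦ a + s (u + t w)` of the blow-up -/
noncomputable def chartSub (a u w : V3) : R3 →ₐ[ℂ] MvPolynomial (Fin 2) ℂ :=
  aeval (fun k => C (a k) + X 0 * (C (u k) + X 1 * C (w k)))

/-- substitution of `u + t w` -/
noncomputable def dirSub (u w : V3) : R3 →ₐ[ℂ] MvPolynomial (Fin 2) ℂ :=
  aeval (fun k => C (u k) + X 1 * C (w k))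

theorem chartSub_eq (a u w : V3) (F : R3) : chartSub a u w F =
    aeval (fun k => X 0 * (C (u k) + X 1 * C (w k)) : Fin 3 → MvPolynomial (Fin 2) ℂ)
      (translate a F) := by
  unfold chartSub translate
  induction F using MvPolynomial.induction_on with
  | C c => rw [algHom_C, algHom_C, AlgHom.commutes]
  | add p q hp hq => rw [map_add, map_add, map_add, hp, hq]
  | mul_X p n hp =>
    rw [map_mul, map_mul, map_mul, hp, aeval_X, aeval_X, map_add, aeval_X, algHom_C]
    rfl

theorem aeval_smul_homogeneous {T : R3} {n : ℕ} (hT : T.IsHomogeneous n)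
    (x : MvPolynomial (Fin 2) ℂ) (y : Fin 3 → MvPolynomial (Fin 2) ℂ) :
    aeval (fun k => x * y k) T = x ^ n * aeval y T := by
  rw [T.as_sum, map_sum, map_sum, Finset.mul_sum]
  refine Finset.sum_congr rfl (fun α hα => ?_)
  rw [aeval_monomial, aeval_monomial]
  have h1 : (α.prod fun i k => (x * y i) ^ k) = x ^ n * α.prod fun i k => y i ^ k := by
    have h2 := hT (mem_support_iff.mp hα)
    rw [← h2, Finsupp.prod_fintype _ _ (fun i => pow_zero _),
      Finsupp.prod_fintype _ _ (fun i => pow_zero _), Finsupp.weight_apply,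
      Finsupp.sum_fintype _ _ (fun i => by simp)]
    simp only [Fin.prod_univ_three, Fin.sum_univ_three, Pi.one_apply, smul_eq_mul, mul_one,
      mul_pow, pow_add]
    ring
  rw [h1]
  ring

theorem eval_dirSub (u w : V3) (T : R3) : eval 0 (dirSub u w T) = eval u T := by
  unfold dirSub
  induction T using MvPolynomial.induction_on with
  | C c => rw [algHom_C, algebraMap_eq, eval_C, eval_C]
  | add p q hp hq => rw [map_add, map_add, map_add, hp, hq]
  | mul_X p n hp =>
    rw [map_mul, map_mul, map_mul, hp, aeval_X, eval_X, map_add, eval_C, map_mul, eval_X, eval_C]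
    simp

theorem eval_pderiv_dirSub (u w : V3) (T : R3) :
    eval 0 (pderiv 1 (dirSub u w T)) = eval u (dir w T) := by
  induction T using MvPolynomial.induction_on with
  | C c =>
    rw [dir_C, dirSub, algHom_C, algebraMap_eq, pderiv_C, map_zero, map_zero]
  | add p q hp hq => rw [map_add, map_add, map_add, hp, hq, map_add, map_add]
  | mul_X p n hp =>
    have h1 : dirSub u w (X n) = C (u n) + X 1 * C (w n) := by
      unfold dirSub
      rw [aeval_X]
    have h2 : pderiv 1 (dirSub u w (X n)) = C (w n) := by
      rw [h1, map_add, pderiv_C, zero_add, mul_comm, pderiv_C_mul, pderiv_X_self, mul_one]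
    have h3 : dir w (X n) = C (w n) := by
      rw [dir_apply, Finset.sum_eq_single n]
      · rw [pderiv_X_self, mul_one]
      · intro j _ hj
        rw [pderiv_X_of_ne hj.symm, mul_zero]
      · simp
    rw [map_mul, pderiv_mul, map_add, map_mul, map_mul, hp, h2, eval_dirSub, eval_dirSub, eval_C,
      eval_X, dir_mul, h3, map_add, map_mul, map_mul, eval_X, eval_C]

theorem B_taylor {F : R3} {d : ℕ} (hF : F.IsHomogeneous d) (a : V3) {k : ℕ} (hk : k ≤ d) (A : R3) :
    B (lin a ^ (d - k) * A) F =
      (d - k).factorial * B A (homogeneousComponent k (translate a F)) := by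
  have h2 : ((d - k).factorial : ℂ) ≠ 0 := by exact_mod_cast Nat.factorial_ne_zero _
  rw [taylor_component hF a hk, B_C_mul_right, B_lin_pow_mul, mul_inv_cancel_left₀ h2]

/-- local equation on the blow-up of a form without bad directions -/
theorem chart {F : R3} {d m : ℕ} (hF : F.IsHomogeneous d) (hm : m ≤ d) {a u w : V3}
    (hv : VanishTo F a m) (hdet : eval w (xl a u) ≠ 0) (hbad : ¬ BadDir d F a m u) :
    ∃ g : MvPolynomial (Fin 2) ℂ,
      aeval (fun k => C (a k) + X 0 * (C (u k) + X 1 * C (w k))) F = X 0 ^ m * g ∧
      (eval 0 g = 0 → eval 0 (pderiv 1 g) ≠ 0) := by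
  set T : ℕ → R3 := fun k => homogeneousComponent k (translate a F) with hT
  have hThom : ∀ k, (T k).IsHomogeneous k := fun k => homogeneousComponent_isHomogeneous k _
  refine ⟨∑ k ∈ Finset.range (d + 1 - m), X 0 ^ k * dirSub u w (T (m + k)), ?_, ?_⟩
  · change chartSub a u w F = _
    rw [chartSub_eq]
    have h1 : translate a F = ∑ k ∈ Finset.range (d + 1), T k := by
      have h2 := sum_homogeneousComponent (translate a F)
      have h3 : (translate a F).totalDegree + 1 ≤ d + 1 := by
        have : (translate a F).totalDegree ≤ d := by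
          rw [translate_eq hF]
          apply totalDegree_finsetSum_le
          intro n _
          refine (totalDegree_mul _ _).trans ?_
          rw [totalDegree_C, zero_add]
          exact (dir_iterate_isHomogeneous a n hF).totalDegree_le.trans (Nat.sub_le _ _)
        omega
      rw [← h2]
      apply Finset.sum_subset (Finset.range_mono h3)
      intro k _ hk
      rw [Finset.mem_range, not_lt] at hk
      exact homogeneousComponent_eq_zero _ _ (by omega)
    rw [h1, map_sum, Finset.mul_sum]
    have h4 : ∀ k, aeval (fun k => X 0 * (C (u k) + X 1 * C (w k)) :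
        Fin 3 → MvPolynomial (Fin 2) ℂ) (T k) = X 0 ^ k * dirSub u w (T k) := fun k =>
      aeval_smul_homogeneous (hThom k) _ _
    rw [Finset.sum_congr rfl (fun k _ => h4 k), (by omega : d + 1 = m + (d + 1 - m)),
      Finset.sum_range_add]
    have h5 : ∑ x ∈ Finset.range m, (X 0 ^ x * dirSub u w (T x) : MvPolynomial (Fin 2) ℂ) = 0 := by
      refine Finset.sum_eq_zero (fun x hx => ?_)
      rw [Finset.mem_range] at hx
      have : T x = 0 := hv x hx
      rw [this, map_zero, mul_zero]
    rw [h5, zero_add, (by omega : m + (d + 1 - m) - m = d + 1 - m)]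
    refine Finset.sum_congr rfl (fun k _ => ?_)
    rw [pow_add, mul_assoc]
  · have hpos : 0 < d + 1 - m := by omega
    obtain ⟨n, hn⟩ : ∃ n, d + 1 - m = n + 1 := ⟨d + 1 - m - 1, by omega⟩
    rw [hn, Finset.sum_range_succ']
    have e1 : eval 0 (∑ k ∈ Finset.range n, (X 0 ^ (k + 1) * dirSub u w (T (m + (k + 1))) :
        MvPolynomial (Fin 2) ℂ)) = 0 := by
      rw [map_sum]
      refine Finset.sum_eq_zero (fun k _ => ?_)
      rw [map_mul, map_pow, eval_X]
      simp
    have e2 : eval 0 (pderiv 1 (∑ k ∈ Finset.range n, (X 0 ^ (k + 1) *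
        dirSub u w (T (m + (k + 1))) : MvPolynomial (Fin 2) ℂ))) = 0 := by
      rw [map_sum, map_sum]
      refine Finset.sum_eq_zero (fun k _ => ?_)
      rw [pderiv_mul, pderiv_pow, pderiv_X_of_ne (by decide), mul_zero, zero_mul, zero_add, map_mul,
        map_pow, eval_X]
      simp
    rw [map_add, map_add, map_add, e1, e2, zero_add, zero_add, pow_zero, one_mul, add_zero,
      eval_dirSub, eval_pderiv_dirSub]
    intro h0 h1
    apply hbad
    have hfac : ∀ n : ℕ, (n.factorial : ℂ) ≠ 0 := fun n => by
      exact_mod_cast Nat.factorial_ne_zero n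
    refine ⟨?_, ?_⟩
    · rw [B_taylor hF a hm, B_lin_pow (hThom m), h0, mul_zero, mul_zero]
    · intro hm1 w'
      obtain ⟨m', rfl⟩ : ∃ m', m = m' + 1 := ⟨m - 1, by omega⟩
      rw [B_taylor hF a hm, Nat.add_sub_cancel, mul_comm (lin u ^ m'), B_lin_mul]
      have hd1 : ∀ x, (dir x (T (m' + 1))).IsHomogeneous m' := fun x => by
        simpa using dir_isHomogeneous x (hThom (m' + 1))
      change _ * B (lin u ^ m') (dir w' (T (m' + 1))) = 0
      rw [B_lin_pow (hd1 w')]
      -- the derivative in the direction `a` vanishes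
      have ha : dir a (T (m' + 1)) = 0 := by
        have e3 : T (m' + 1) = C (((d - (m' + 1)).factorial : ℂ)⁻¹) *
          (dir a)^[d - (m' + 1)] F := taylor_component hF a hm
        rw [e3, dir_C_mul, ← Function.iterate_succ_apply' (dir a)]
        have e4 : homogeneousComponent m' (translate a F) = 0 := hv m' (by omega)
        rw [taylor_component hF a (by omega : m' ≤ d)] at e4
        rcases mul_eq_zero.mp e4 with h | h
        · exfalso
          rw [C_eq_zero] at h
          exact inv_ne_zero (hfac _) h
        · rw [(by omega : (d - (m' + 1)).succ = d - m'), h, mul_zero]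
      have hu : eval u (dir u (T (m' + 1))) = 0 := by
        rw [eval_dir_self (hThom (m' + 1)), h0, mul_zero]
      -- every direction is a combination
      have hcr : cr a u ≠ 0 := by
        intro h
        apply hdet
        rw [xl, h, lin_zero, map_zero]
      have hcomb : ∃ x y z : ℂ, w' = x • a + y • u + z • w := by
        set z := eval w' (xl a u) / eval w (xl a u) with hz
        have h5 : eval (w' - z • w) (xl a u) = 0 := by
          have h6 : eval (w' - z • w) (xl a u) = eval w' (xl a u) - z * eval w (xl a u) := by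
            rw [eval_xl, eval_xl, eval_xl]
            simp only [Pi.sub_apply, Pi.smul_apply, smul_eq_mul]
            ring
          rw [h6, hz, div_mul_cancel₀ _ hdet, sub_self]
        obtain ⟨x, y, hxy⟩ := exists_comb hcr h5
        exact ⟨x, y, z, by rw [← hxy, sub_add_cancel]⟩
      obtain ⟨x, y, z, rfl⟩ := hcomb
      have h7 : dir (x • a + y • u + z • w) (T (m' + 1)) = C x * dir a (T (m' + 1)) +
          C y * dir u (T (m' + 1)) + C z * dir w (T (m' + 1)) := by
        simp only [dir_apply, Fin.sum_univ_three, Pi.add_apply, Pi.smul_apply, smul_eq_mul,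
          map_add, map_mul]
        ring
      have h8 : eval u (dir w (T (m' + 1))) = 0 := h1
      rw [h7, map_add, map_add, map_mul, map_mul, map_mul, ha, hu, h8, map_zero]
      ring

end Pool.Agent.Work.MP_0421d9_ag
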