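import Mathlib

/-!
Coefficientwise derivations of `ℂ[x₀,x₁,x₂]` and linear forms.
-/

namespace Pool.Agent.Work.MP_0421d9_ag

open MvPolynomial

/-- the polynomial ring in three variables -/
abbrev R3 := MvPolynomial (Fin 3) ℂ

/-- vectors of `ℂ³` -/
abbrev V3 := Fin 3 → ℂ

/-! ### coefficientwise derivation -/

section cD

variable {σ : Type}

/-- apply the derivation `D` to all coefficients (underlying function) -/
noncomputable def cDfun (D : Derivation ℚ ℂ ℂ) (f : MvPolynomial σ ℂ) : MvPolynomial σ ℂ :=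
  ∑ α ∈ f.support, monomial α (D (coeff α f))

theorem coeff_cDfun (D : Derivation ℚ ℂ ℂ) (f : MvPolynomial σ ℂ) (α : σ →₀ ℕ) :
    coeff α (cDfun D f) = D (coeff α f) := by
  classical
  unfold cDfun
  rw [coeff_sum]
  simp only [coeff_monomial]
  rw [Finset.sum_ite_eq' f.support α]
  split_ifs with h
  · rfl
  · rw [notMem_support_iff.mp h, map_zero]

/-- the derivation of `ℂ[x]` acting on coefficients -/
noncomputable def cD (D : Derivation ℚ ℂ ℂ) : Derivation ℚ (MvPolynomial σ ℂ) (MvPolynomial σ ℂ) :=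
  Derivation.mk'
    { toFun := cDfun D
      map_add' := fun f g => by
        ext α
        simp [coeff_cDfun]
      map_smul' := fun c f => by
        ext α
        simp [coeff_cDfun] }
    (fun f g => by
      classical
      ext α
      change coeff α (cDfun D (f * g)) = coeff α (f • cDfun D g + g • cDfun D f)
      rw [coeff_cDfun, coeff_mul, map_sum, smul_eq_mul, smul_eq_mul, coeff_add, coeff_mul,
        mul_comm g, coeff_mul, ← Finset.sum_add_distrib]
      refine Finset.sum_congr rfl (fun x _ => ?_)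
      rw [Derivation.leibniz, coeff_cDfun, coeff_cDfun, smul_eq_mul, smul_eq_mul]
      ring)

theorem coeff_cD (D : Derivation ℚ ℂ ℂ) (f : MvPolynomial σ ℂ) (α : σ →₀ ℕ) :
    coeff α (cD D f) = D (coeff α f) := coeff_cDfun D f α

@[simp] theorem cD_C (D : Derivation ℚ ℂ ℂ) (a : ℂ) :
    cD D (C a : MvPolynomial σ ℂ) = C (D a) := by
  classical
  ext α
  rw [coeff_cD, coeff_C, coeff_C]
  split_ifs <;> simp

@[simp] theorem cD_X (D : Derivation ℚ ℂ ℂ) (i : σ) :
    cD D (X i : MvPolynomial σ ℂ) = 0 := by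
  classical
  ext α
  rw [coeff_cD, coeff_X, coeff_zero]
  split_ifs <;> simp

theorem cD_monomial (D : Derivation ℚ ℂ ℂ) (α : σ →₀ ℕ) (a : ℂ) :
    cD D (monomial α a : MvPolynomial σ ℂ) = monomial α (D a) := by
  classical
  ext β
  rw [coeff_cD, coeff_monomial, coeff_monomial]
  split_ifs <;> simp

theorem cD_mul (D : Derivation ℚ ℂ ℂ) (f g : MvPolynomial σ ℂ) :
    cD D (f * g) = cD D f * g + f * cD D g := by
  rw [Derivation.leibniz, smul_eq_mul, smul_eq_mul]
  ring

theorem cD_C_mul (D : Derivation ℚ ℂ ℂ) (a : ℂ) (f : MvPolynomial σ ℂ) :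
    cD D (C a * f) = C (D a) * f + C a * cD D f := by
  rw [cD_mul, cD_C]

theorem cD_pow (D : Derivation ℚ ℂ ℂ) (f : MvPolynomial σ ℂ) (n : ℕ) :
    cD D (f ^ n) = C (n : ℂ) * (f ^ (n - 1) * cD D f) := by
  rw [Derivation.leibniz_pow, smul_eq_mul, nsmul_eq_mul, map_natCast]

theorem cD_smul (D : Derivation ℚ ℂ ℂ) (a : ℂ) (f : MvPolynomial σ ℂ) :
    cD D (a • f) = D a • f + a • cD D f := by
  rw [smul_eq_C_mul, cD_C_mul, smul_eq_C_mul, smul_eq_C_mul]

theorem cD_add_left (D E : Derivation ℚ ℂ ℂ) (f : MvPolynomial σ ℂ) :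
    cD (D + E) f = cD D f + cD E f := by
  ext α
  simp [coeff_cD]

theorem cD_smul_left (c : ℂ) (D : Derivation ℚ ℂ ℂ) (f : MvPolynomial σ ℂ) :
    cD (c • D) f = c • cD D f := by
  ext α
  simp [coeff_cD]

theorem cD_sum_left {ι : Type} (s : Finset ι) (D : ι → Derivation ℚ ℂ ℂ) (f : MvPolynomial σ ℂ) :
    cD (∑ i ∈ s, D i) f = ∑ i ∈ s, cD (D i) f := by
  classical
  induction s using Finset.induction_on with
  | empty =>
    ext α
    simp [coeff_cD]
  | insert a s ha ih => rw [Finset.sum_insert ha, Finset.sum_insert ha, cD_add_left, ih]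

theorem cD_isHomogeneous (D : Derivation ℚ ℂ ℂ) {f : MvPolynomial σ ℂ} {n : ℕ}
    (hf : f.IsHomogeneous n) : (cD D f).IsHomogeneous n := by
  intro α hα
  apply hf
  intro h
  apply hα
  rw [coeff_cD, h, map_zero]

theorem cD_pderiv (D : Derivation ℚ ℂ ℂ) (i : σ) (f : MvPolynomial σ ℂ) :
    cD D (pderiv i f) = pderiv i (cD D f) := by
  classical
  induction f using MvPolynomial.induction_on with
  | C a => simp
  | add p q hp hq => simp [hp, hq]
  | mul_X p n hp =>
    simp only [Derivation.leibniz, smul_eq_mul, map_add, cD_X, hp, pderiv_X, mul_zero, zero_add]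
    by_cases h : i = n
    · subst h
      simp only [Pi.single_eq_same, Derivation.map_one_eq_zero, mul_zero, zero_add, mul_one]
      ring
    · rw [Pi.single_eq_of_ne (fun h' => h h'.symm)]
      simp

/-- chain rule for evaluation -/
theorem D_eval [Fintype σ] (D : Derivation ℚ ℂ ℂ) (a : σ → ℂ) (f : MvPolynomial σ ℂ) :
    D (eval a f) = eval a (cD D f) + ∑ i, D (a i) * eval a (pderiv i f) := by
  classical
  induction f using MvPolynomial.induction_on with
  | C b => simp
  | add p q hp hq =>
    simp only [map_add, hp, hq, mul_add, Finset.sum_add_distrib]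
    ring
  | mul_X p n hp =>
    have h1 : ∀ i, D (a i) * eval a (pderiv i (p * X n)) =
        D (a i) * (eval a p * eval a (pderiv i (X n : MvPolynomial σ ℂ))) +
        a n * (D (a i) * eval a (pderiv i p)) := fun i => by
      rw [Derivation.leibniz, smul_eq_mul, smul_eq_mul, map_add, map_mul, map_mul, eval_X]
      ring
    rw [Finset.sum_congr rfl (fun i _ => h1 i), Finset.sum_add_distrib, ← Finset.mul_sum]
    have h2 : ∑ i, D (a i) * (eval a p * eval a (pderiv i (X n : MvPolynomial σ ℂ))) =
        D (a n) * eval a p := by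
      rw [Finset.sum_eq_single n]
      · rw [pderiv_X_self]; simp
      · intro b _ hb
        rw [pderiv_X_of_ne hb.symm]
        simp
      · simp
    rw [h2, cD_mul, cD_X, map_mul, eval_X, Derivation.leibniz, hp]
    simp only [smul_eq_mul, mul_zero, add_zero, map_mul, eval_X]
    ring

end cD

/-- linear form with coefficient vector `v` -/
noncomputable def lin (v : V3) : R3 := ∑ i, C (v i) * X i

theorem lin_add (v w : V3) : lin (v + w) = lin v + lin w := by
  simp [lin, add_mul, Finset.sum_add_distrib]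

theorem lin_smul (c : ℂ) (v : V3) : lin (c • v) = C c * lin v := by
  simp [lin, Finset.mul_sum, mul_assoc]

theorem lin_zero : lin 0 = 0 := by simp [lin]

theorem lin_isHomogeneous (v : V3) : (lin v).IsHomogeneous 1 := by
  unfold lin
  apply IsHomogeneous.sum
  intro i _
  have := (isHomogeneous_X ℂ i).C_mul (v i)
  exact this

theorem cD_lin (D : Derivation ℚ ℂ ℂ) (v : V3) : cD D (lin v) = lin (fun i => D (v i)) := by
  unfold lin
  rw [map_sum]
  refine Finset.sum_congr rfl (fun i _ => ?_)
  rw [cD_C_mul, cD_X, mul_zero, add_zero]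

theorem eval_lin (u v : V3) : eval u (lin v) = ∑ i, v i * u i := by
  simp [lin]

theorem eval_lin_comm (u v : V3) : eval u (lin v) = eval v (lin u) := by
  rw [eval_lin, eval_lin]
  exact Finset.sum_congr rfl (fun i _ => mul_comm _ _)

theorem coeff_lin (v : V3) (i : Fin 3) : coeff (Finsupp.single i 1) (lin v) = v i := by
  classical
  unfold lin
  rw [coeff_sum, Finset.sum_eq_single i]
  · rw [coeff_C_mul, coeff_X]; simp
  · intro j _ hj
    rw [coeff_C_mul, coeff_X, if_neg, mul_zero]
    intro h
    exact hj ((Finsupp.single_left_injective one_ne_zero) h)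
  · simp

theorem lin_injective : Function.Injective lin := by
  intro v w h
  ext i
  rw [← coeff_lin v i, ← coeff_lin w i, h]

theorem lin_eq_zero {v : V3} : lin v = 0 ↔ v = 0 := by
  constructor
  · intro h
    apply lin_injective
    rw [h, lin_zero]
  · rintro rfl
    exact lin_zero

theorem pderiv_lin (i : Fin 3) (v : V3) : pderiv i (lin v) = C (v i) := by
  classical
  unfold lin
  rw [map_sum, Finset.sum_eq_single i]
  · rw [pderiv_C_mul, pderiv_X_self, mul_one]
  · intro j _ hj
    rw [pderiv_C_mul, pderiv_X_of_ne hj, mul_zero]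
  · simp

end Pool.Agent.Work.MP_0421d9_ag
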