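import Pool.Agent.Work.MP_0421d9_ag.Nc7

/-!
Nonspeciality and smoothness of the general member of a planar linear system with general multiple
base points, when the system cuts out a complete linear series on all but three of the exceptional
curves of multiplicity at least three.

Two consequences: the question has a positive answer whenever at most three of the multiplicities
exceed two; and, for all multiplicities, the general member is reduced and smooth as soon as the
systems `L - E_i` (with the simple points forgotten) are nonspecial of expected dimension at least
`-1`, for all the indices with `m i ≥ 2`.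
-/

namespace Pool.Agent.Work.MP_0421d9_ag.CompleteSeriesOld

open MvPolynomial Module Pool.Agent.Work.MP_0421d9_ag

/-- Let `p i` be generic points of the plane, `m i ≥ 0`, and let `L` be the system of the plane
curves of degree `d` with multiplicity at least `m i` at `p i`. Suppose that, for all but at most
three of the indices with `m i ≥ 3`, the system obtained from `L` by forgetting the simple points
restricts to the complete linear series on `E_i` (its members with multiplicity at least `m i + 1`
at `p i` form a subspace of the largest possible codimension `m i + 1`). Suppose moreover
* either that `L` has a reduced member,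
* or that `L` is nonempty, that the degree is at least the sum of any two of the (at most three)
  excepted multiplicities, and that the series is also complete for the other `i` with `m i = 2`.

Then `L` has a reduced member, it is nonspecial, and its general member is a smooth curve on the
blow-up, which meets all the exceptional curves transversally. -/
theorem result {r d : ℕ} (p : Fin r → Fin 3 → ℂ) (hp : GenericPoints p) (m : Fin r → ℕ)
    (I : Finset (Fin r)) (hI : I.card ≤ 3)
    (hcomplete : ∀ i ∉ I, 3 ≤ m i →
      finrank ℂ (linSys d p (dropSimple m)) =
        finrank ℂ (linSys d p (Function.update (dropSimple m) i (m i + 1))) + (m i + 1))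
    (hred : (∃ F ∈ linSys d p m, Squarefree F) ∨
      (linSys d p m ≠ ⊥ ∧ (∀ i ∈ I, ∀ j ∈ I, i ≠ j → m i + m j ≤ d) ∧
        ∀ i ∉ I, m i = 2 → finrank ℂ (linSys d p (dropSimple m)) =
          finrank ℂ (linSys d p (Function.update (dropSimple m) i (m i + 1))) + (m i + 1))) :
    (∃ F ∈ linSys d p m, Squarefree F) ∧
    finrank ℂ (linSys d p m) + ∑ i, (m i + 1).choose 2 = (d + 2).choose 2 ∧
    (∀ s : Fin (finrank ℂ (linSys d p m) - 1) → Fin 3 → ℂ, GenericPoints (Sum.elim p s) →
      ∀ F ∈ linSys d p m, F ≠ 0 → (∀ k, eval (s k) F = 0) → SmoothOnBlowup p m F) ∧
    (∃ F ∈ linSys d p m, F ≠ 0 ∧ SmoothOnBlowup p m F) :=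
  complete_final p hp m I hI hcomplete hred

end Pool.Agent.Work.MP_0421d9_ag.CompleteSeriesOld
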