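import Pool.Agent.Work.MP_0421d9_ag.Def69

/-!
The conditions on forms given by points and flags depend polynomially on the points and flags.
-/

namespace Pool.Agent.Work.MP_0421d9_ag.LD

open MvPolynomial Module

theorem vanishTo_iff_coeff {F : R3} {a : V3} {m : ℕ} :
    VanishTo F a m ↔ ∀ β : Fin 3 →₀ ℕ, β.degree < m → coeff β (translate a F) = 0 := by
  constructor
  · intro h β hβ
    have h1 := congrArg (coeff β) (h β.degree hβ)
    rw [coeff_homogeneousComponent, if_pos rfl, coeff_zero] at h1
    exact h1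
  · intro h k hk
    ext β
    rw [coeff_homogeneousComponent, coeff_zero]
    split_ifs with h1
    · exact h β (h1 ▸ hk)
    · rfl

/-- translation by a point depending on a parameter -/
noncomputable def translateP (p : Fin 3 → Polynomial ℂ) :
    R3 →ₐ[ℂ] MvPolynomial (Fin 3) (Polynomial ℂ) :=
  aeval (fun k => C (p k) + X k)

theorem map_translateP (p : Fin 3 → Polynomial ℂ) (F : R3) (τ : ℂ) :
    map (Polynomial.evalRingHom τ) (translateP p F) =
      translate (fun k => (p k).eval τ) F := by
  unfold translateP translate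
  induction F using MvPolynomial.induction_on with
  | C c =>
    rw [algHom_C, algHom_C]
    have h1 : (algebraMap ℂ (MvPolynomial (Fin 3) (Polynomial ℂ))) c = C (Polynomial.C c) := rfl
    rw [h1, map_C]
    simp
  | add f g hf hg => rw [map_add, map_add, map_add, hf, hg]
  | mul_X f k hf =>
    rw [map_mul, map_mul, map_mul, hf, aeval_X, aeval_X]
    congr 1
    rw [map_add, map_C, map_X]
    simp

theorem eval_coeff_translateP (p : Fin 3 → Polynomial ℂ) (F : R3) (τ : ℂ) (β : Fin 3 →₀ ℕ) :
    (coeff β (translateP p F)).eval τ = coeff β (translate (fun k => (p k).eval τ) F) := by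
  rw [← map_translateP, coeff_map]
  rfl

instance finite_lt (m : ℕ) : Finite {β : Fin 3 →₀ ℕ // β.degree < m} := by
  have h : {β : Fin 3 →₀ ℕ | β.degree < m}.Finite :=
    (Finsupp.finite_of_degree_le m).subset (fun β hβ => by
      have h1 : β.degree < m := hβ
      exact h1.le)
  exact h

theorem polyFam_van (p : Fin 3 → Polynomial ℂ) (m : ℕ) :
    PolyFam (fun τ => vanSub (fun k => (p k).eval τ) m) := by
  refine ⟨{β : Fin 3 →₀ ℕ // β.degree < m}, inferInstance,
    { toFun := fun F β => coeff β.1 (translateP p F)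
      map_add' := fun F G => by funext β; simp
      map_smul' := fun c F => by funext β; simp [coeff_smul] }, fun τ => ?_⟩
  ext F
  rw [mem_vanSub, vanishTo_iff_coeff, mem_Z]
  constructor
  · intro h β
    have h1 := h β.1 β.2
    rw [← eval_coeff_translateP] at h1
    exact h1
  · intro h β hβ
    rw [← eval_coeff_translateP]
    exact h ⟨β, hβ⟩

/-- restriction to a line depending on a parameter -/
noncomputable def onLineP (q v : Fin 3 → Polynomial ℂ) :
    R3 →ₐ[ℂ] Polynomial (Polynomial ℂ) :=
  aeval (fun i => Polynomial.C (q i) + Polynomial.C (v i) * Polynomial.X)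

theorem map_onLineP (q v : Fin 3 → Polynomial ℂ) (F : R3) (τ : ℂ) :
    Polynomial.map (Polynomial.evalRingHom τ) (onLineP q v F) =
      onLine (fun k => (q k).eval τ) (fun k => (v k).eval τ) F := by
  unfold onLineP onLine
  induction F using MvPolynomial.induction_on with
  | C c =>
    rw [algHom_C, algHom_C]
    have h1 : (algebraMap ℂ (Polynomial (Polynomial ℂ))) c = Polynomial.C (Polynomial.C c) := rfl
    rw [h1, Polynomial.map_C]
    simp
  | add f g hf hg => rw [map_add, map_add, Polynomial.map_add, hf, hg]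
  | mul_X f k hf =>
    rw [map_mul, map_mul, Polynomial.map_mul, hf, aeval_X, aeval_X]
    congr 1
    simp

theorem polyFam_flag (q v : Fin 3 → Polynomial ℂ) (A : ℕ) :
    PolyFam (fun τ => flagSub (fun k => (q k).eval τ) (fun k => (v k).eval τ) A) := by
  refine ⟨Fin A, inferInstance,
    { toFun := fun F k => (onLineP q v F).coeff k
      map_add' := fun F G => by funext β; simp
      map_smul' := fun c F => by funext β; simp [Polynomial.coeff_smul] }, fun τ => ?_⟩
  have h0 : ∀ (F : R3) (k : ℕ), ((onLineP q v F).coeff k).eval τ =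
      (onLine (fun k => (q k).eval τ) (fun k => (v k).eval τ) F).coeff k := by
    intro F k
    rw [← map_onLineP, Polynomial.coeff_map]
    rfl
  ext F
  rw [mem_flagSub, mem_Z]
  constructor
  · intro h k
    have h1 := h k.1 k.2
    rw [← h0] at h1
    exact h1
  · intro h k hk
    rw [← h0]
    exact h ⟨k, hk⟩

/-- the systems with points and flags depending polynomially on a parameter -/
theorem polyFam_Sys {r : ℕ} (y : Fin r → ℕ) (e : ℕ) (A : ℕ → ℕ)
    (p : Fin r → Fin 3 → Polynomial ℂ) (q v : ℕ → Fin 3 → Polynomial ℂ) :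
    PolyFam (fun τ => (⨅ i, vanSub (fun k => (p i k).eval τ) (y i)) ⊓
      ⨅ l : Fin e, flagSub (fun k => (q l k).eval τ) (fun k => (v l k).eval τ) (A l)) :=
  PolyFam.inf (PolyFam.iInf fun i => polyFam_van (p i) (y i))
    (PolyFam.iInf fun l : Fin e => polyFam_flag (q l) (v l) (A l))

theorem Sys_eq {r : ℕ} (D : ℕ) (y : Fin r → ℕ) (e : ℕ) (A : ℕ → ℕ) (p : Fin r → V3)
    (q v : ℕ → V3) : Sys D y e A p q v =
      Rd D ⊓ ((⨅ i, vanSub (p i) (y i)) ⊓ ⨅ l : Fin e, flagSub (q l) (v l) (A l)) := by
  ext F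
  rw [mem_Sys, Submodule.mem_inf, Submodule.mem_inf, Submodule.mem_iInf, Submodule.mem_iInf]
  constructor
  · rintro ⟨h1, h2, h3⟩
    exact ⟨h1, h2, fun l => h3 l l.2⟩
  · rintro ⟨h1, h2, h3⟩
    exact ⟨h1, h2, fun l hl => h3 ⟨l, hl⟩⟩

/-- semicontinuity for the systems: moving the points and the flags on straight lines -/
theorem Sys_semicont {r : ℕ} (D : ℕ) (y : Fin r → ℕ) (e : ℕ) (A : ℕ → ℕ)
    (p p' : Fin r → V3) (q v q' v' : ℕ → V3) :
    ∃ g : Polynomial ℂ, g ≠ 0 ∧ ∀ τ, g.eval τ ≠ 0 →
      finrank ℂ (Sys D y e A (fun i k => p i k + τ * (p' i k - p i k))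
        (fun l k => q l k + τ * (q' l k - q l k)) (fun l k => v l k + τ * (v' l k - v l k))) ≤
      finrank ℂ (Sys D y e A p q v) := by
  have h := polyFam_Sys y e A
    (fun i k => Polynomial.C (p i k) + Polynomial.X * Polynomial.C (p' i k - p i k))
    (fun l k => Polynomial.C (q l k) + Polynomial.X * Polynomial.C (q' l k - q l k))
    (fun l k => Polynomial.C (v l k) + Polynomial.X * Polynomial.C (v' l k - v l k))
  simp only [Polynomial.eval_add, Polynomial.eval_mul, Polynomial.eval_C, Polynomial.eval_X] at h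
  obtain ⟨g, hg, h1⟩ := h.semicont (Rd D) 0
  refine ⟨g, ne_zero_of_eval hg, fun τ hτ => ?_⟩
  have h2 := h1 τ hτ
  have h3 : ((⨅ i, vanSub (fun k => p i k + 0 * (p' i k - p i k)) (y i)) ⊓
      ⨅ l : Fin e, flagSub (fun k => q l k + 0 * (q' l k - q l k))
        (fun k => v l k + 0 * (v' l k - v l k)) (A l)) =
      ((⨅ i, vanSub (p i) (y i)) ⊓ ⨅ l : Fin e, flagSub (q l) (v l) (A l)) := by
    simp only [zero_mul, add_zero]
  rw [h3, ← Sys_eq] at h2
  rw [Sys_eq]
  exact h2

end Pool.Agent.Work.MP_0421d9_ag.LD
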