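import Pool.Agent.Work.MP_0421d9_ag.Rigid

/-!
The main argument: nonspeciality and smoothness of the rigid member.
-/

set_option linter.unusedSectionVars false

namespace Pool.Agent.Work.MP_0421d9_ag

open MvPolynomial

variable {ι κ : Type} [Fintype ι] [Fintype κ] [DecidableEq ι] [DecidableEq κ]

namespace Rigid

variable {d : ℕ} {P : ι ⊕ κ → V3} {E : ι ⊕ κ → Fin 3 → Derivation ℚ ℂ ℂ} {m : ι → ℕ} {F : R3}

theorem B_J (S : Rigid d P E m F) {A : R3} (hA : A ∈ J d (fun i => P (Sum.inl i)) m) :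
    B A F = 0 := B_J_linSys S.hm' hA S.memV

/-- multiplicity exactly `m i`, in terms of the pairing -/
theorem exact_mult (S : Rigid d P E m F) (i : ι) (hd : m i + 1 ≤ d + 1)
    (h : ∀ G : R3, G.IsHomogeneous (m i) → B (lin (P (Sum.inl i)) ^ (d - m i) * G) F = 0) :
    False := by
  apply not_vanishTo_succ S.hE S.hM S.hF S.hF0 S.huniq (Sum.inl i)
  change VanishTo F (P (Sum.inl i)) (m i + 1)
  rw [vanishTo_iff S.hom _ hd]
  intro G hG
  rw [mem_Hm_succ] at hG
  have := h G hG
  rwa [(by omega : d - m i = d + 1 - (m i + 1))] at this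

theorem R0 (S : Rigid d P E m F) (i : ι) (hi : m i = 0)
    (h : B (lin (P (Sum.inl i)) ^ d) F = 0) : False := by
  apply S.exact_mult i (by omega)
  intro G hG
  rw [hi] at hG
  have h0 : G = C (coeff 0 G) :=
    (MvPolynomial.totalDegree_eq_zero_iff_eq_C).mp (Nat.le_zero.mp hG.totalDegree_le)
  rw [h0, mul_comm, B_C_mul_left, hi, Nat.sub_zero, h, mul_zero]

theorem R1 (S : Rigid d P E m F) (i : ι) (hi : m i = 1)
    (h : ∀ v, B (lin (P (Sum.inl i)) ^ (d - 1) * lin v) F = 0) : False := by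
  apply S.exact_mult i (by have := S.hm i; omega)
  intro G hG
  rw [hi] at hG
  obtain ⟨w, rfl⟩ := eq_lin_of_isHomogeneous hG
  rw [hi]
  exact h w

/-- at a double point the Hessian of `F` has the smallest possible kernel -/
theorem R2 (S : Rigid d P E m F) (hsq : Squarefree F) (i : ι) (hi : m i = 2) {w : V3}
    (h : ∀ v, B (lin (P (Sum.inl i)) ^ (d - 2) * (lin w * lin v)) F = 0) :
    cr (P (Sum.inl i)) w = 0 := by
  set D := mv E (Sum.inl i) w with hD
  have hd : 2 ≤ d := by have := S.hm i; omega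
  have h1 : VanishTo (cD D F) (P (Sum.inl i)) 2 := by
    rw [vanishTo_iff (cD_isHomogeneous D S.hom) _ (by omega)]
    intro G hG
    rw [mem_Hm_succ] at hG
    obtain ⟨v, rfl⟩ := eq_lin_of_isHomogeneous hG
    have hF2 : ∀ G ∈ Hm 2, B (lin (P (Sum.inl i)) ^ (d + 1 - 2) * G) F = 0 := by
      have := (vanishTo_iff S.hom (P (Sum.inl i)) (S.hm' i)).mp (S.vanish i)
      rwa [hi] at this
    have h2 := D_B D (lin (P (Sum.inl i)) ^ (d + 1 - 2) * lin v) F
    rw [hF2 _ (mem_Hm_succ.mpr (lin_isHomogeneous v)), map_zero, cD_mul, map_add,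
      LinearMap.add_apply, hF2 _ (cD_mem_Hm D (mem_Hm_succ.mpr (lin_isHomogeneous v))),
      add_zero, cD_pow, hD, cD_lin_self S.hE] at h2
    have h3 : C (((d + 1 - 2 : ℕ) : ℂ)) * (lin (P (Sum.inl i)) ^ (d + 1 - 2 - 1) * lin w) * lin v =
        C (((d + 1 - 2 : ℕ) : ℂ)) * (lin (P (Sum.inl i)) ^ (d - 2) * (lin w * lin v)) := by
      rw [(by omega : d + 1 - 2 - 1 = d - 2)]
      ring
    rw [h3, B_C_mul_left, h v, mul_zero, zero_add] at h2
    exact h2.symm
  have h2 : cD D F ∈ linSys d P (Sum.elim m fun _ => 1) := by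
    apply linSys_cD_mem (fun x => (S.hM x).trans (Nat.le_succ d)) S.hF
    intro x
    by_cases hx : x = Sum.inl i
    · right
      rw [hx]
      change VanishTo _ _ (m i)
      rw [hi]
      exact h1
    · left
      intro l
      exact mv_ne S.hE hx w l
  obtain ⟨c, hc⟩ := S.huniq _ h2
  have hd1 : F.IsHomogeneous d := S.hom
  have hv2 := S.vanish i
  rw [hi] at hv2
  have h3 : ∀ k, eval (P (Sum.inl i)) (pderiv k F) = 0 := by
    intro k
    have h4 := (vanishTo_iff S.hom (P (Sum.inl i)) (by omega)).mp hv2 (X k)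
      (mem_Hm_succ.mpr (isHomogeneous_X ℂ k))
    rw [mul_comm, B_X_mul] at h4
    have h5 := B_lin_pow (S.hom.pderiv (i := k)) (P (Sum.inl i))
    rw [(by omega : d + 1 - 2 = d - 1)] at h4
    rw [h4] at h5
    have h6 : ((d - 1).factorial : ℂ) ≠ 0 := by exact_mod_cast Nat.factorial_ne_zero _
    exact (mul_eq_zero.mp h5.symm).resolve_left h6
  have h0 : eval (P (Sum.inl i)) F = 0 := vanishTo_one_iff.mp (hv2.mono (by omega))
  have h7 := singular_constant S.hom hsq hc h0 h3
  have h8 : ∀ l, D (P (Sum.inl i) l) = w l := fun l => mv_self S.hE _ w l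
  ext l
  have h9 := h7 1 2
  have h10 := h7 2 0
  have h11 := h7 0 1
  rw [h8, h8] at h9 h10 h11
  fin_cases l
  · simp only [cr]
    simpa [sub_eq_zero] using h9
  · simp only [cr]
    simpa [sub_eq_zero] using h10
  · simp only [cr]
    simpa [sub_eq_zero] using h11

/-- the hypothesis at a point: the system restricts to a complete series on the exceptional
curve -/
def Full (d : ℕ) (p : ι → V3) (m : ι → ℕ) (i : ι) : Prop :=
  ∀ U : R3, U.IsHomogeneous (m i) → lin (p i) ^ (d - m i) * U ∈ J d p m → lin (p i) ∣ U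

/-- Divisibility lemma -/
theorem div (S : Rigid d P E m F) (hsq : Squarefree F) {i : ι}
    (hfull : 3 ≤ m i → Full d (fun i => P (Sum.inl i)) m i) {G : R3} (hG : G ∈ Hm (m i))
    (ha : ∀ v, B (lin (P (Sum.inl i)) ^ (d - m i) * (lin v * G)) F = 0)
    (hb : ∃ v, cr (P (Sum.inl i)) v ≠ 0 ∧
      lin (P (Sum.inl i)) ^ (d - m i) * (lin v * G) ∈ J d (fun i => P (Sum.inl i)) m) :
    lin (P (Sum.inl i)) ∣ G := by
  have hp : P (Sum.inl i) ≠ 0 := gp1 S.hE _
  by_cases h3 : 3 ≤ m i
  · obtain ⟨v, hv, hJ⟩ := hb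
    apply lin_dvd_of_mul hp hv
    apply hfull h3 _ _ hJ
    obtain ⟨n, hn⟩ : ∃ n, m i = n + 1 := ⟨m i - 1, by omega⟩
    rw [hn] at hG ⊢
    rw [mem_Hm_succ] at hG
    have := (lin_isHomogeneous v).mul hG
    rwa [add_comm] at this
  · have hcases : m i = 0 ∨ m i = 1 ∨ m i = 2 := by omega
    rcases hcases with h | h | h
    · rw [h, mem_Hm_zero] at hG
      rw [hG]
      exact dvd_zero _
    · rw [h] at hG
      have hG' : G.IsHomogeneous 0 := hG
      have h0 : G = C (coeff 0 G) :=
        (MvPolynomial.totalDegree_eq_zero_iff_eq_C).mp (Nat.le_zero.mp hG'.totalDegree_le)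
      by_cases hc : coeff 0 G = 0
      · rw [h0, hc, C_0]
        exact dvd_zero _
      · exfalso
        apply S.R1 i h
        intro v
        have h1 := ha v
        have h2 : lin (P (Sum.inl i)) ^ (d - m i) * (lin v * G) =
            C (coeff 0 G) * (lin (P (Sum.inl i)) ^ (d - 1) * lin v) := by
          rw [h, mul_comm (lin v), ← mul_assoc, mul_comm _ G, mul_assoc, ← h0]
        rw [h2, B_C_mul_left] at h1
        exact (mul_eq_zero.mp h1).resolve_left hc
    · rw [h] at hG
      have hG' : G.IsHomogeneous 1 := hG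
      obtain ⟨w, rfl⟩ := eq_lin_of_isHomogeneous hG'
      have h1 : cr (P (Sum.inl i)) w = 0 := by
        apply S.R2 hsq i h
        intro v
        have := ha v
        rwa [h, mul_comm (lin v)] at this
      obtain ⟨s, rfl⟩ := exists_smul_of_cr_eq_zero hp h1
      rw [lin_smul]
      exact Dvd.intro_left _ rfl

end Rigid

/-! ### derivatives of relations -/

section relations

variable {d : ℕ} {P : ι ⊕ κ → V3} {E : ι ⊕ κ → Fin 3 → Derivation ℚ ℂ ℂ} {m : ι → ℕ}

/-- first derivative of a relation along a motion of the point `j`, pairing version -/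
theorem cD_Psi (hE : IsDual P E) (hm : ∀ i, m i ≤ d) {G : ι → R3} (j : ι) (v : V3) :
    cD (mv E (Sum.inl j) v) (Psi d (fun i => P (Sum.inl i)) m G) =
      C ((d + 1 - m j : ℕ) : ℂ) * (lin (P (Sum.inl j)) ^ (d - m j) * (lin v * G j)) +
      Psi d (fun i => P (Sum.inl i)) m (fun i => cD (mv E (Sum.inl j) v) (G i)) := by
  rw [Psi_apply, Psi_apply, map_sum]
  have h1 : ∀ i, cD (mv E (Sum.inl j) v) (lin (P (Sum.inl i)) ^ (d + 1 - m i) * G i) =
      (if i = j then C ((d + 1 - m j : ℕ) : ℂ) *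
        (lin (P (Sum.inl j)) ^ (d - m j) * (lin v * G j)) else 0) +
      lin (P (Sum.inl i)) ^ (d + 1 - m i) * cD (mv E (Sum.inl j) v) (G i) := by
    intro i
    by_cases h : i = j
    · subst h
      rw [if_pos rfl, cD_mul, cD_pow, cD_lin_self hE,
        (by have := hm i; omega : d + 1 - m i - 1 = d - m i)]
      ring
    · rw [if_neg h, cD_mul, cD_lin_pow_ne hE (by simpa using h), zero_mul]
  rw [Finset.sum_congr rfl (fun i _ => h1 i), Finset.sum_add_distrib, Finset.sum_ite_eq' _ j,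
    if_pos (Finset.mem_univ j)]

/-- derivative of a relation along a motion of a point fixed by it -/
theorem cD_Psi_fixed (hE : IsDual P E) {G : ι → R3} {k : κ} (v : V3) :
    cD (mv E (Sum.inr k) v) (Psi d (fun i => P (Sum.inl i)) m G) =
      Psi d (fun i => P (Sum.inl i)) m (fun i => cD (mv E (Sum.inr k) v) (G i)) := by
  rw [Psi_apply, Psi_apply, map_sum]
  refine Finset.sum_congr rfl (fun i _ => ?_)
  rw [cD_mul, cD_lin_pow_ne hE (by simp), zero_mul, zero_add]

/-- derivative of a relation whose `j` component is divisible -/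
theorem cD_Psi_div (hE : IsDual P E) {G : ι → R3} (j : ι) (v : V3)
    {s : ℕ} {G' : R3} (hG : G j = lin (P (Sum.inl j)) ^ (s + 1) * G') :
    cD (mv E (Sum.inl j) v) (Psi d (fun i => P (Sum.inl i)) m G) =
      Psi d (fun i => P (Sum.inl i)) m
        (Function.update (fun i => cD (mv E (Sum.inl j) v) (G i)) j
          (lin (P (Sum.inl j)) ^ s * (C ((d + 1 - m j + (s + 1) : ℕ) : ℂ) * (lin v * G') +
            lin (P (Sum.inl j)) * cD (mv E (Sum.inl j) v) G'))) := by
  rw [Psi_apply, Psi_apply, map_sum]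
  refine Finset.sum_congr rfl (fun i _ => ?_)
  by_cases h : i = j
  · subst h
    rw [Function.update_self, hG]
    have e1 : lin (P (Sum.inl i)) ^ (d + 1 - m i) * (lin (P (Sum.inl i)) ^ (s + 1) * G') =
        lin (P (Sum.inl i)) ^ (d + 1 - m i + (s + 1)) * G' := by
      rw [pow_add]; ring
    rw [e1, cD_mul, cD_pow, cD_lin_self hE,
      (by omega : d + 1 - m i + (s + 1) - 1 = d + 1 - m i + s)]
    rw [pow_add _ (d + 1 - m i) s, pow_add _ (d + 1 - m i) (s + 1), pow_succ]
    ring
  · rw [Function.update_of_ne h, cD_mul, cD_lin_pow_ne hE (by simpa using h), zero_mul, zero_add]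

theorem update_mem_HH {G : ι → R3} (D : Derivation ℚ ℂ ℂ) (hG : G ∈ HH m) {j : ι} {K : R3}
    (hK : K ∈ Hm (m j)) : Function.update (fun i => cD D (G i)) j K ∈ HH m := by
  rw [mem_HH] at *
  intro i
  by_cases h : i = j
  · subst h
    rwa [Function.update_self]
  · rw [Function.update_of_ne h]
    exact cD_mem_Hm D (hG i)

theorem comp_mem_Hm {a v : V3} {s e : ℕ} {G' : R3} (D : Derivation ℚ ℂ ℂ) (c : ℂ)
    (hG' : G'.IsHomogeneous e) {n : ℕ} (hn : n = s + 1 + e + 1) :
    lin a ^ s * (C c * (lin v * G') + lin a * cD D G') ∈ Hm n := by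
  subst hn
  rw [mem_Hm_succ]
  have h1 : (C c * (lin v * G')).IsHomogeneous (1 + e) :=
    ((lin_isHomogeneous v).mul hG').C_mul c
  have h2 : (lin a * cD D G').IsHomogeneous (1 + e) :=
    (lin_isHomogeneous a).mul (cD_isHomogeneous D hG')
  have h3 := (lin_isHomogeneous_pow a s).mul (h1.add h2)
  rwa [← add_assoc] at h3

end relations

end Pool.Agent.Work.MP_0421d9_ag
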