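import Pool.Agent.Work.MP_0421d9_ag.Core

/-!
The main argument, second part: nonspeciality.
-/

set_option linter.unusedSectionVars false

namespace Pool.Agent.Work.MP_0421d9_ag

open MvPolynomial

section linalg

theorem exists_cr_ne {p : V3} (hp : p ≠ 0) : ∃ v, cr p v ≠ 0 := by
  by_contra hcon
  push Not at hcon
  apply hp
  have h0 := hcon (Pi.single 0 1)
  have h1 := hcon (Pi.single 1 1)
  have h01 := congrFun h0 1
  have h02 := congrFun h0 2
  have h12 := congrFun h1 2
  simp [cr] at h01 h02 h12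
  ext l
  fin_cases l
  · exact h12
  · exact h02
  · exact h01

theorem exists_ker_ne {p : V3} (hp : p ≠ 0) (L : V3 →ₗ[ℂ] ℂ) : ∃ v, L v = 0 ∧ cr p v ≠ 0 := by
  by_contra hcon
  push Not at hcon
  have h1 : LinearMap.ker L ≤ Submodule.span ℂ {p} := by
    intro v hv
    obtain ⟨s, hs⟩ := exists_smul_of_cr_eq_zero hp (hcon v hv)
    rw [hs]
    exact Submodule.smul_mem _ _ (Submodule.mem_span_singleton_self p)
  have h2 := LinearMap.finrank_range_add_finrank_ker L
  have h3 : Module.finrank ℂ (LinearMap.range L) ≤ 1 := by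
    have := Submodule.finrank_le (LinearMap.range L)
    rwa [Module.finrank_self] at this
  have h4 : Module.finrank ℂ (LinearMap.ker L) ≤ 1 := by
    refine (Submodule.finrank_mono h1).trans ?_
    exact (finrank_span_singleton hp).le
  have h5 : Module.finrank ℂ V3 = 3 := by simp
  omega

theorem exists_solution {p q : V3} (hp : p ≠ 0) (hq : q ≠ 0) (L : V3 →ₗ[ℂ] V3)
    (h : ∀ (v : V3) (c : ℂ), L v = c • q → cr p v = 0) (w : V3) :
    ∃ (v : V3) (c : ℂ), L v = w + c • q := by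
  set T : (V3 × ℂ) →ₗ[ℂ] V3 := L.coprod (-(LinearMap.toSpanSingleton ℂ V3 q)) with hT
  have hTapp : ∀ v c, T (v, c) = L v - c • q := by
    intro v c
    rw [hT, LinearMap.coprod_apply, LinearMap.neg_apply, LinearMap.toSpanSingleton_apply,
      sub_eq_add_neg]
  have h1 : Module.finrank ℂ (LinearMap.ker T) ≤ 1 := by
    set π : LinearMap.ker T →ₗ[ℂ] V3 := (LinearMap.fst ℂ V3 ℂ) ∘ₗ (LinearMap.ker T).subtype with hπ
    have hinj : Function.Injective π := by
      rw [← LinearMap.ker_eq_bot, Submodule.eq_bot_iff]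
      rintro ⟨⟨v, c⟩, hvc⟩ hv
      have hv0 : v = 0 := hv
      have h2 : T (v, c) = 0 := hvc
      rw [hTapp, hv0, map_zero, zero_sub, neg_eq_zero, smul_eq_zero] at h2
      have hc : c = 0 := h2.resolve_right hq
      subst hv0
      subst hc
      rfl
    have h3 : LinearMap.range π ≤ Submodule.span ℂ {p} := by
      rintro _ ⟨⟨⟨v, c⟩, hvc⟩, rfl⟩
      change v ∈ _
      have h2 : T (v, c) = 0 := hvc
      rw [hTapp, sub_eq_zero] at h2
      obtain ⟨s, hs⟩ := exists_smul_of_cr_eq_zero hp (h v c h2)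
      rw [hs]
      exact Submodule.smul_mem _ _ (Submodule.mem_span_singleton_self p)
    rw [← LinearMap.finrank_range_of_inj hinj]
    refine (Submodule.finrank_mono h3).trans ?_
    exact (finrank_span_singleton hp).le
  have h2 := LinearMap.finrank_range_add_finrank_ker T
  have h5 : Module.finrank ℂ (V3 × ℂ) = 4 := by simp
  have h6 : Module.finrank ℂ V3 = 3 := by simp
  have h7 : LinearMap.range T = ⊤ := by
    apply Submodule.eq_top_of_finrank_eq
    have := Submodule.finrank_le (LinearMap.range T)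
    omega
  have h8 : w ∈ LinearMap.range T := by rw [h7]; trivial
  obtain ⟨⟨v, c⟩, hvc⟩ := h8
  refine ⟨v, c, ?_⟩
  rw [hTapp] at hvc
  rw [← hvc, sub_add_cancel]

/-- the derivative of a vector along the motion of a point, as a linear map -/
noncomputable def QL {ι : Type} (E : ι → Fin 3 → Derivation ℚ ℂ ℂ) (x : ι) (q : V3) :
    V3 →ₗ[ℂ] V3 where
  toFun v := fun l => mv E x v (q l)
  map_add' v w := by
    ext l
    exact mv_add E x v w (q l)
  map_smul' c v := by
    ext l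
    exact mv_smul E x c v (q l)

theorem QL_apply {ι : Type} (E : ι → Fin 3 → Derivation ℚ ℂ ℂ) (x : ι) (q v : V3) :
    QL E x q v = fun l => mv E x v (q l) := rfl

/-- evaluation of a linear form along a linear map -/
noncomputable def evQ (L : V3 →ₗ[ℂ] V3) (r : V3) : V3 →ₗ[ℂ] ℂ where
  toFun v := eval (L v) (lin r)
  map_add' v w := by
    rw [map_add, eval_lin, eval_lin, eval_lin, ← Finset.sum_add_distrib]
    exact Finset.sum_congr rfl (fun i _ => mul_add _ _ _)
  map_smul' c v := by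
    rw [map_smul, eval_lin, eval_lin, RingHom.id_apply, smul_eq_mul, Finset.mul_sum]
    refine Finset.sum_congr rfl (fun i _ => ?_)
    rw [Pi.smul_apply, smul_eq_mul]
    ring

end linalg

section sums

theorem sum_eq_three {ι : Type} [Fintype ι] [DecidableEq ι] {f : ι → R3} {a b c : ι} (hab : a ≠ b)
    (hac : a ≠ c) (hbc : b ≠ c) (h : ∀ i, i ≠ a → i ≠ b → i ≠ c → f i = 0) :
    ∑ i, f i = f a + f b + f c := by
  have h1 : ∑ i ∈ ({a, b, c} : Finset ι), f i = ∑ i, f i := by
    apply Finset.sum_subset (Finset.subset_univ _)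
    intro i _ hi
    simp only [Finset.mem_insert, Finset.mem_singleton, not_or] at hi
    exact h i hi.1 hi.2.1 hi.2.2
  rw [← h1, Finset.sum_insert (by simp [hab, hac]), Finset.sum_insert (by simp [hbc]),
    Finset.sum_singleton]
  ring

theorem sum_eq_four {ι : Type} [Fintype ι] [DecidableEq ι] {f : ι → R3} {a b c e : ι} (hab : a ≠ b)
    (hac : a ≠ c) (hae : a ≠ e) (hbc : b ≠ c) (hbe : b ≠ e) (hce : c ≠ e)
    (h : ∀ i, i ≠ a → i ≠ b → i ≠ c → i ≠ e → f i = 0) :
    ∑ i, f i = f a + f b + f c + f e := by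
  have h1 : ∑ i ∈ ({a, b, c, e} : Finset ι), f i = ∑ i, f i := by
    apply Finset.sum_subset (Finset.subset_univ _)
    intro i _ hi
    simp only [Finset.mem_insert, Finset.mem_singleton, not_or] at hi
    exact h i hi.1 hi.2.1 hi.2.2.1 hi.2.2.2
  rw [← h1, Finset.sum_insert (by simp [hab, hac, hae]), Finset.sum_insert (by simp [hbc, hbe]),
    Finset.sum_insert (by simp [hce]), Finset.sum_singleton]
  ring

end sums

variable {ι κ : Type} [Fintype ι] [Fintype κ] [DecidableEq ι] [DecidableEq κ]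

variable {d : ℕ} {P : ι ⊕ κ → V3} {E : ι ⊕ κ → Fin 3 → Derivation ℚ ℂ ℂ} {m : ι → ℕ} {F : R3}

theorem mem_of_C_mul_mem {W : Submodule ℂ R3} {c : ℂ} (hc : c ≠ 0) {A : R3}
    (h : C c * A ∈ W) : A ∈ W := by
  rw [← smul_eq_C_mul] at h
  have := Submodule.smul_mem W c⁻¹ h
  rwa [smul_smul, inv_mul_cancel₀ hc, one_smul] at this

theorem C_mul_mem {W : Submodule ℂ R3} (c : ℂ) {A : R3} (h : A ∈ W) : C c * A ∈ W := by
  rw [← smul_eq_C_mul]
  exact Submodule.smul_mem W c h

theorem Psi_mem_J {p : ι → V3} {G : ι → R3} (hG : G ∈ HH m) : Psi d p m G ∈ J d p m :=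
  Submodule.mem_map_of_mem hG

theorem not_dvd_comp {p v : V3} (hp : p ≠ 0) (hv : cr p v ≠ 0) {G' K : R3} (hG' : ¬ lin p ∣ G')
    {c : ℂ} (hc : c ≠ 0) : ¬ lin p ∣ C c * (lin v * G') + lin p * K := by
  intro h
  rw [dvd_add_left (Dvd.intro _ rfl)] at h
  have h1 : lin p ∣ lin v * G' := by
    have := Dvd.dvd.mul_left h (C c⁻¹)
    rwa [← mul_assoc, ← map_mul, inv_mul_cancel₀ hc, C_1, one_mul] at this
  exact hG' (lin_dvd_of_mul hp hv h1)

namespace Rigid

theorem claim1 (S : Rigid d P E m F) (hsq : Squarefree F) {j : ι}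
    (hfull : 3 ≤ m j → Full d (fun i => P (Sum.inl i)) m j) {G : ι → R3} (hG : G ∈ HH m)
    (h0 : Psi d (fun i => P (Sum.inl i)) m G = 0) : lin (P (Sum.inl j)) ∣ G j := by
  have h1 : ∀ v, lin (P (Sum.inl j)) ^ (d - m j) * (lin v * G j) ∈
      J d (fun i => P (Sum.inl i)) m := by
    intro v
    have h2 := cD_Psi S.hE S.hm (G := G) j v
    rw [h0, map_zero] at h2
    have h3 : C ((d + 1 - m j : ℕ) : ℂ) * (lin (P (Sum.inl j)) ^ (d - m j) * (lin v * G j)) =
        - Psi d (fun i => P (Sum.inl i)) m (fun i => cD (mv E (Sum.inl j) v) (G i)) :=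
      eq_neg_of_add_eq_zero_left h2.symm
    have h4 : ((d + 1 - m j : ℕ) : ℂ) ≠ 0 := by
      rw [Nat.cast_ne_zero]
      have := S.hm j
      omega
    apply mem_of_C_mul_mem h4
    rw [h3]
    apply Submodule.neg_mem
    apply Psi_mem_J
    rw [mem_HH] at *
    exact fun i => cD_mem_Hm _ (hG i)
  obtain ⟨v, hv⟩ := exists_cr_ne (gp1 S.hE (Sum.inl j))
  exact S.div hsq hfull (mem_HH.mp hG j) (fun v => S.B_J (h1 v)) ⟨v, hv, h1 v⟩

theorem claim2 (S : Rigid d P E m F) (hsq : Squarefree F) {j : ι}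
    (hfull : 3 ≤ m j → Full d (fun i => P (Sum.inl i)) m j) (s : ℕ) : ∀ (G : ι → R3),
    G ∈ HH m → Psi d (fun i => P (Sum.inl i)) m G = 0 → ∀ (e : ℕ) (G' : R3),
    G j = lin (P (Sum.inl j)) ^ s * G' → G'.IsHomogeneous e → m j = s + e + 1 →
    ¬ lin (P (Sum.inl j)) ∣ G' → False := by
  induction s with
  | zero =>
    intro G hG h0 e G' hj _ _ hnd
    apply hnd
    have := S.claim1 hsq hfull hG h0
    rwa [hj, pow_zero, one_mul] at this
  | succ s ih =>
    intro G hG h0 e G' hj hhom hmj hnd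
    have hp := gp1 S.hE (Sum.inl j)
    obtain ⟨v, hv⟩ := exists_cr_ne hp
    have h1 := cD_Psi_div (m := m) (d := d) S.hE j v hj
    rw [h0, map_zero] at h1
    have hκ : ((d + 1 - m j + (s + 1) : ℕ) : ℂ) ≠ 0 := by
      rw [Nat.cast_ne_zero]; omega
    refine ih _ (update_mem_HH (mv E (Sum.inl j) v) hG
      (comp_mem_Hm (mv E (Sum.inl j) v) _ hhom hmj)) h1.symm (1 + e)
      (C ((d + 1 - m j + (s + 1) : ℕ) : ℂ) * (lin v * G') +
            lin (P (Sum.inl j)) * cD (mv E (Sum.inl j) v) G')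
      (Function.update_self _ _ _) ?_ (by omega) (not_dvd_comp hp hv hnd hκ)
    exact (((lin_isHomogeneous v).mul hhom).C_mul _).add
      ((lin_isHomogeneous _).mul (cD_isHomogeneous _ hhom))

theorem claim3 (S : Rigid d P E m F) (hsq : Squarefree F) {j : ι}
    (hfull : 3 ≤ m j → Full d (fun i => P (Sum.inl i)) m j) {G : ι → R3} (hG : G ∈ HH m)
    (h0 : Psi d (fun i => P (Sum.inl i)) m G = 0) : G j = 0 := by
  by_contra hne
  have h1 := mem_HH.mp hG j
  rcases Nat.eq_zero_or_pos (m j) with hz | hz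
  · rw [hz, mem_Hm_zero] at h1
    exact hne h1
  · obtain ⟨n, hn⟩ : ∃ n, m j = n + 1 := ⟨m j - 1, by omega⟩
    rw [hn, mem_Hm_succ] at h1
    obtain ⟨s, e, G', hse, hjG, hhom, hnd⟩ :=
      exists_lin_factorization (p := P (Sum.inl j)) n (G j) h1 hne
    exact S.claim2 hsq hfull s G hG h0 e G' hjG hhom (by omega) hnd

/-- uniqueness of relations: the system is nonspecial -/
theorem unique_rel (S : Rigid d P E m F) (hsq : Squarefree F) {a b c : ι} (hab : a ≠ b)
    (hac : a ≠ c) (hbc : b ≠ c)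
    (hfull : ∀ j, j ≠ a → j ≠ b → j ≠ c → 3 ≤ m j → Full d (fun i => P (Sum.inl i)) m j)
    {G : ι → R3} (hG : G ∈ HH m)
    (h0 : Psi d (fun i => P (Sum.inl i)) m G = 0) : G = 0 := by
  have h1 : ∀ j, j ≠ a → j ≠ b → j ≠ c → G j = 0 := fun j ha hb hc =>
    S.claim3 hsq (hfull j ha hb hc) hG h0
  have h2 : Psi d (fun i => P (Sum.inl i)) m G =
      lin (P (Sum.inl a)) ^ (d + 1 - m a) * G a + lin (P (Sum.inl b)) ^ (d + 1 - m b) * G b +
      lin (P (Sum.inl c)) ^ (d + 1 - m c) * G c := by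
    rw [Psi_apply]
    apply sum_eq_three hab hac hbc
    intro i hia hib hic
    rw [h1 i hia hib hic, mul_zero]
  rw [h0] at h2
  have hpair : ∀ x y : ι, x ≠ y → m x + m y ≤ d + 1 := fun x y hxy =>
    pair_le S.hom hsq (gp2 S.hE (x := Sum.inl x) (y := Sum.inl y) (by simpa using hxy))
      (S.vanish x) (S.vanish y)
  have hdet : ∀ x y z : ι, x ≠ y → x ≠ z → y ≠ z →
      eval (P (Sum.inl z)) (xl (P (Sum.inl x)) (P (Sum.inl y))) ≠ 0 := fun x y z hxy hxz hyz =>
    gp3 S.hE (x := Sum.inl x) (y := Sum.inl y) (z := Sum.inl z) (by simpa using hxy)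
      (by simpa using hxz) (by simpa using hyz)
  have hGm := mem_HH.mp hG
  have ha : G a = 0 := three_points (hdet b c a hbc hab.symm hac.symm) (S.hm a) (hpair a b hab)
    (hpair a c hac) (hGm a) h2.symm
  have hb : G b = 0 := three_points (Gb := G a) (Gc := G c) (hdet a c b hac hab hbc.symm) (S.hm b) (hpair b a hab.symm)
    (hpair b c hbc) (hGm b) (by linear_combination -h2)
  have hc : G c = 0 := three_points (Gb := G a) (Gc := G b) (hdet a b c hab hac hbc) (S.hm c) (hpair c a hac.symm)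
    (hpair c b hbc.symm) (hGm c) (by linear_combination -h2)
  funext i
  by_cases hia : i = a
  · rw [hia, ha]; rfl
  · by_cases hib : i = b
    · rw [hib, hb]; rfl
    · by_cases hic : i = c
      · rw [hic, hc]; rfl
      · rw [h1 i hia hib hic]; rfl

/-- comparison of two expressions of the derivative of a relation -/
theorem contra (S : Rigid d P E m F)
    (hN : ∀ G ∈ HH m, Psi d (fun i => P (Sum.inl i)) m G = 0 → G = 0)
    {G : ι → R3} (hG : G ∈ HH m) {j : ι} {s e : ℕ} {G' : R3}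
    (hj : G j = lin (P (Sum.inl j)) ^ (s + 1) * G') (hhom : G'.IsHomogeneous e)
    (hmj : m j = s + 1 + e + 1) (hnd : ¬ lin (P (Sum.inl j)) ∣ G') {v : V3}
    (hv : cr (P (Sum.inl j)) v ≠ 0) {X : ι → R3} (hX : X ∈ HH m)
    (hXP : Psi d (fun i => P (Sum.inl i)) m X =
      cD (mv E (Sum.inl j) v) (Psi d (fun i => P (Sum.inl i)) m G))
    (hdiv : lin (P (Sum.inl j)) ^ (s + 1) ∣ X j) : False := by
  have hp := gp1 S.hE (Sum.inl j)
  have h1 := cD_Psi_div (m := m) (d := d) S.hE j v hj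
  have hκ : ((d + 1 - m j + (s + 1) : ℕ) : ℂ) ≠ 0 := by
    rw [Nat.cast_ne_zero]; omega
  set Y := Function.update (fun i => cD (mv E (Sum.inl j) v) (G i)) j
          (lin (P (Sum.inl j)) ^ s * (C ((d + 1 - m j + (s + 1) : ℕ) : ℂ) * (lin v * G') +
            lin (P (Sum.inl j)) * cD (mv E (Sum.inl j) v) G')) with hY
  have hYm : Y ∈ HH m := update_mem_HH (mv E (Sum.inl j) v) hG
      (comp_mem_Hm (mv E (Sum.inl j) v) _ hhom hmj)
  have h2 : X - Y = 0 := by
    apply hN _ (Submodule.sub_mem _ hX hYm)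
    rw [map_sub, hXP, h1, sub_self]
  have h3 : X j = Y j := by
    rw [sub_eq_zero.mp h2]
  rw [h3, hY, Function.update_self, pow_succ] at hdiv
  have h4 := (mul_dvd_mul_iff_left (pow_ne_zero s (lin_prime hp).ne_zero)).mp hdiv
  exact not_dvd_comp hp hv hnd hκ h4

end Rigid

end Pool.Agent.Work.MP_0421d9_ag
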