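import Pool.Agent.Work.MP_0421d9_ag.Core2

/-!
The main argument, third part: smoothness.
-/

set_option linter.unusedSectionVars false

namespace Pool.Agent.Work.MP_0421d9_ag

open MvPolynomial

variable {ι κ : Type} [Fintype ι] [Fintype κ] [DecidableEq ι] [DecidableEq κ]

variable {d : ℕ} {P : ι ⊕ κ → V3} {E : ι ⊕ κ → Fin 3 → Derivation ℚ ℂ ℂ} {m : ι → ℕ} {F : R3}

theorem cD_lin_pow_eq (D : Derivation ℚ ℂ ℂ) (q : V3) (n : ℕ) :
    cD D (lin q ^ n) = C (n : ℂ) * (lin q ^ (n - 1) * lin (fun l => D (q l))) := by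
  rw [cD_pow, cD_lin]

theorem cD_lin_pow_prop {D : Derivation ℚ ℂ ℂ} {q : V3} {c : ℂ} (h : (fun l => D (q l)) = c • q)
    (n : ℕ) : cD D (lin q ^ n) = C (n * c) * lin q ^ n := by
  rw [cD_lin_pow_eq, h, lin_smul]
  cases n with
  | zero => simp
  | succ n =>
    rw [Nat.add_sub_cancel, pow_succ, map_mul]
    ring

theorem HH_cD {G : ι → R3} (D : Derivation ℚ ℂ ℂ) (hG : G ∈ HH m) :
    (fun i => cD D (G i)) ∈ HH m := by
  rw [mem_HH] at *
  exact fun i => cD_mem_Hm _ (hG i)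

theorem two_lines {a b c q : V3} (hab : cr a b ≠ 0) (hdet : eval b (xl a c) ≠ 0)
    (hqa : cr a q ≠ 0) (h1 : eval q (xl a b) = 0) (h2 : eval q (xl a c) = 0) : False := by
  obtain ⟨s, t, hst⟩ := exists_comb hab h1
  have h3 : eval q (xl a c) = t * eval b (xl a c) := by
    rw [hst, eval_xl, eval_xl]
    simp only [Pi.add_apply, Pi.smul_apply, smul_eq_mul]
    ring
  rw [h3] at h2
  have ht : t = 0 := (mul_eq_zero.mp h2).resolve_right hdet
  apply hqa
  rw [hst, ht, zero_smul, add_zero]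
  exact cr_smul_self s a

theorem eval_xl_symm_zero {a b q : V3} (h : eval q (xl a b) = 0) : eval q (xl b a) = 0 := by
  rw [xl_symm, map_mul, h, mul_zero]

theorem lin_pow_mul_isHomogeneous (a u w : V3) {d m : ℕ} (hm : m + 1 ≤ d) :
    (lin a ^ (d - (m + 1)) * (lin u ^ m * lin w)).IsHomogeneous d := by
  have h1 := (lin_isHomogeneous_pow a (d - (m + 1))).mul
    ((lin_isHomogeneous_pow u m).mul (lin_isHomogeneous w))
  rwa [(by omega : d - (m + 1) + (m + 1) = d)] at h1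

namespace Rigid

/-- numerical facts for a rigid squarefree member -/
theorem pair (S : Rigid d P E m F) (hsq : Squarefree F) {x y : ι} (hxy : x ≠ y) :
    m x + m y ≤ d + 1 :=
  pair_le S.hom hsq (gp2 S.hE (x := Sum.inl x) (y := Sum.inl y) (by simpa using hxy))
      (S.vanish x) (S.vanish y)

theorem det (S : Rigid d P E m F) {x y z : ι} (hxy : x ≠ y) (hxz : x ≠ z) (hyz : y ≠ z) :
    eval (P (Sum.inl z)) (xl (P (Sum.inl x)) (P (Sum.inl y))) ≠ 0 :=
  gp3 S.hE (x := Sum.inl x) (y := Sum.inl y) (z := Sum.inl z) (by simpa using hxy)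
      (by simpa using hxz) (by simpa using hyz)

theorem cr_ne (S : Rigid d P E m F) {x y : ι} (hxy : x ≠ y) :
    cr (P (Sum.inl x)) (P (Sum.inl y)) ≠ 0 :=
  gp2 S.hE (x := Sum.inl x) (y := Sum.inl y) (by simpa using hxy)

theorem four (S : Rigid d P E m F) (hsq : Squarefree F) {a b c e : ι} (hab : a ≠ b)
    (hac : a ≠ c) (hae : a ≠ e) (hbc : b ≠ c) (hbe : b ≠ e) (hce : c ≠ e) :
    m a + m b + m c + m e ≤ 2 * d :=
  four_le S.hom hsq (S.cr_ne hab) (S.cr_ne hce) (S.det hce hac.symm hae.symm)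
    (S.det hce hbc.symm hbe.symm) (S.det hab hac hbc) (S.det hab hae hbe)
    (S.vanish a) (S.vanish b) (S.vanish c) (S.vanish e)

/-- application of the test forms to one partition of four points -/
theorem test_partition (S : Rigid d P E m F) (hsq : Squarefree F) {a b c e : ι} (hab : a ≠ b)
    (hac : a ≠ c) (hae : a ≠ e) (hbc : b ≠ c) (hbe : b ≠ e) (hce : c ≠ e)
    {q : V3} (hq : ∀ i : ι, cr (P (Sum.inl i)) q ≠ 0)
    (hsing : ∀ k, eval q (pderiv k F) = 0)
    (h1 : eval q (xl (P (Sum.inl a)) (P (Sum.inl c))) ≠ 0)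
    (h2 : eval q (xl (P (Sum.inl a)) (P (Sum.inl e))) ≠ 0)
    (h3 : eval q (xl (P (Sum.inl b)) (P (Sum.inl c))) ≠ 0)
    (h4 : eval q (xl (P (Sum.inl b)) (P (Sum.inl e))) ≠ 0)
    {Ga Gb Gc Ge : R3} (hGe : m e = 0 → Ge = 0)
    (h : lin q ^ d = lin (P (Sum.inl a)) ^ (d + 1 - m a) * Ga +
      lin (P (Sum.inl b)) ^ (d + 1 - m b) * Gb + lin (P (Sum.inl c)) ^ (d + 1 - m c) * Gc +
      lin (P (Sum.inl e)) ^ (d + 1 - m e) * (lin (P (Sum.inl e)) * Ge)) : False := by
  have hpab := S.pair hsq hab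
  refine test_point h1 h2 h3 h4 (S.hm a) (S.hm b) (S.hm c) ?_ (S.pair hsq hce)
    (S.four hsq hab hac hae hbc hbe hce) hGe h
  rcases Nat.lt_or_ge d (m a + m b) with h5 | h5
  · right
    refine ⟨by omega, fun h6 => ?_⟩
    exact not_singular_on_bad_line S.hom hsq (S.cr_ne hab) (S.vanish a) (S.vanish b) (by omega)
      h6 (hq a) (hq b) hsing
  · left; exact h5

theorem test_four (S : Rigid d P E m F) (hsq : Squarefree F) {a b c e : ι} (hab : a ≠ b)
    (hac : a ≠ c) (hae : a ≠ e) (hbc : b ≠ c) (hbe : b ≠ e) (hce : c ≠ e)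
    {q : V3} (hq : ∀ i : ι, cr (P (Sum.inl i)) q ≠ 0)
    (hsing : ∀ k, eval q (pderiv k F) = 0)
    {Ga Gb Gc Ge : R3} (hGe : m e = 0 → Ge = 0)
    (h : lin q ^ d = lin (P (Sum.inl a)) ^ (d + 1 - m a) * Ga +
      lin (P (Sum.inl b)) ^ (d + 1 - m b) * Gb + lin (P (Sum.inl c)) ^ (d + 1 - m c) * Gc +
      lin (P (Sum.inl e)) ^ (d + 1 - m e) * (lin (P (Sum.inl e)) * Ge)) : False := by
  -- two lines through a common point
  have key : ∀ {x y z : ι}, x ≠ y → x ≠ z → y ≠ z →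
      eval q (xl (P (Sum.inl x)) (P (Sum.inl y))) = 0 →
      eval q (xl (P (Sum.inl x)) (P (Sum.inl z))) ≠ 0 := by
    intro x y z hxy hxz hyz h1 h2
    exact two_lines (S.cr_ne hxy) (S.det hxz hxy hyz.symm) (hq x) h1 h2
  have sy : ∀ {x y : ι}, eval q (xl (P (Sum.inl x)) (P (Sum.inl y))) = 0 →
      eval q (xl (P (Sum.inl y)) (P (Sum.inl x))) = 0 := fun h => eval_xl_symm_zero h
  have sn : ∀ {x y : ι}, eval q (xl (P (Sum.inl x)) (P (Sum.inl y))) ≠ 0 →
      eval q (xl (P (Sum.inl y)) (P (Sum.inl x))) ≠ 0 := fun h h' => h (sy h')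
  by_cases l1 : eval q (xl (P (Sum.inl a)) (P (Sum.inl c))) = 0
  · -- partition ac | be
    refine S.test_partition hsq (a := a) (b := c) (c := b) (e := e) hac hab hae hbc.symm hce hbe
      hq hsing (key hac hab hbc.symm l1) (key hac hae hce l1)
      (key hac.symm hbc.symm hab (sy l1)) (key hac.symm hce hae (sy l1)) hGe
      (Ga := Ga) (Gb := Gc) (Gc := Gb) (by rw [h]; ring)
  by_cases l2 : eval q (xl (P (Sum.inl b)) (P (Sum.inl e))) = 0
  · refine S.test_partition hsq (a := a) (b := c) (c := b) (e := e) hac hab hae hbc.symm hce hbe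
      hq hsing (sn (key hbe hab.symm hae.symm l2)) (sn (key hbe.symm hae.symm hab.symm (sy l2)))
      (sn (key hbe hbc hce.symm l2)) (sn (key hbe.symm hce.symm hbc (sy l2))) hGe
      (Ga := Ga) (Gb := Gc) (Gc := Gb) (by rw [h]; ring)
  by_cases l3 : eval q (xl (P (Sum.inl b)) (P (Sum.inl c))) = 0
  · -- partition bc | ae
    refine S.test_partition hsq (a := b) (b := c) (c := a) (e := e) hbc hab.symm hbe hac.symm hce
      hae hq hsing (key hbc hab.symm hac.symm l3) (key hbc hbe hce l3)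
      (key hbc.symm hac.symm hab.symm (sy l3)) (key hbc.symm hce hbe (sy l3)) hGe
      (Ga := Gb) (Gb := Gc) (Gc := Ga) (by rw [h]; ring)
  by_cases l4 : eval q (xl (P (Sum.inl a)) (P (Sum.inl e))) = 0
  · refine S.test_partition hsq (a := b) (b := c) (c := a) (e := e) hbc hab.symm hbe hac.symm hce
      hae hq hsing (sn (key hae hab hbe.symm l4)) (sn (key hae.symm hbe.symm hab (sy l4)))
      (sn (key hae hac hce.symm l4)) (sn (key hae.symm hce.symm hac (sy l4))) hGe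
      (Ga := Gb) (Gb := Gc) (Gc := Ga) (by rw [h]; ring)
  exact S.test_partition hsq hab hac hae hbc hbe hce hq hsing l1 l4 l3 l2 hGe h

end Rigid

end Pool.Agent.Work.MP_0421d9_ag
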