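import Pool.Agent.Work.MP_0421d9_ag.Cond69

/-!
The cut lemma: moving points to infinity along a one-parameter group cuts off a part of the
monomials.
-/

namespace Pool.Agent.Work.MP_0421d9_ag.LD

open MvPolynomial Module

/-- scaling of the coordinates -/
noncomputable def scl (t : V3) : R3 →ₐ[ℂ] R3 := aeval (fun i => C (t i) * X i)

theorem scl_monomial (t : V3) (β : Fin 3 →₀ ℕ) (a : ℂ) :
    scl t (monomial β a) = monomial β ((∏ i, t i ^ β i) * a) := by
  unfold scl
  rw [aeval_monomial, Finsupp.prod_fintype _ _ (fun i => pow_zero _)]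
  have h1 : ∏ i, (C (t i) * X i : R3) ^ β i = monomial β (∏ i, t i ^ β i) := by
    simp only [mul_pow, Finset.prod_mul_distrib]
    rw [monomial_eq, Finsupp.prod_fintype _ _ (fun i => pow_zero _), map_prod]
    simp only [map_pow]
  rw [h1, algebraMap_eq, C_mul_monomial, mul_comm]

theorem coeff_scl (t : V3) (F : R3) (β : Fin 3 →₀ ℕ) :
    coeff β (scl t F) = (∏ i, t i ^ β i) * coeff β F := by
  induction F using MvPolynomial.induction_on' with
  | monomial γ a =>
    rw [scl_monomial, coeff_monomial, coeff_monomial]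
    split_ifs with h
    · rw [h]
    · rw [mul_zero]
  | add f g hf hg => rw [map_add, coeff_add, coeff_add, hf, hg, mul_add]

theorem translate_scl (t a : V3) (F : R3) :
    translate a (scl t F) = scl t (translate (fun i => t i * a i) F) := by
  unfold translate scl
  induction F using MvPolynomial.induction_on with
  | C c => simp
  | add f g hf hg => rw [map_add, map_add, map_add, map_add, hf, hg]
  | mul_X f k hf =>
    rw [map_mul, map_mul, map_mul, map_mul, hf, aeval_X, aeval_X]
    congr 1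
    simp only [map_mul, map_add, algHom_C, aeval_X, algebraMap_eq]
    ring

theorem vanishTo_scl {t a : V3} {m : ℕ} {F : R3} (h : VanishTo F (fun i => t i * a i) m) :
    VanishTo (scl t F) a m := by
  rw [vanishTo_iff_coeff] at h ⊢
  intro β hβ
  rw [translate_scl, coeff_scl, h β hβ, mul_zero]

theorem prod_pow_wt (w : Fin 3 → ℕ) (τ : ℂ) (β : Fin 3 →₀ ℕ) :
    ∏ i, (τ ^ w i) ^ β i = τ ^ wt3 w β := by
  simp only [← pow_mul]
  rw [Finset.prod_pow_eq_pow_sum]
  rfl

theorem degree_set_finite (D : ℕ) : {β : Fin 3 →₀ ℕ | β.degree = D}.Finite :=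
  (Finsupp.finite_of_degree_le D).subset (fun β hβ => by
    have h1 : β.degree = D := hβ
    exact h1.le)

theorem degree_of_mem_support {F : R3} {D : ℕ} (hF : F.IsHomogeneous D) {β : Fin 3 →₀ ℕ}
    (hβ : coeff β F ≠ 0) : β.degree = D := by
  by_contra hcon
  exact hβ (hF.coeff_eq_zero hcon)

theorem cut {D : ℕ} (w : Fin 3 → ℕ) (c : ℕ) {κ : Type} [Finite κ] (p : κ → V3) (m : κ → ℕ)
    (T : Set (Fin 3 →₀ ℕ))
    (hkill : ∀ G : R3, G.IsHomogeneous D → (∀ α ∈ G.support, α ∈ T ∧ wt3 w α ≤ c) →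
      (∀ k, VanishTo G (p k) (m k)) → G = 0)
    (U : Submodule ℂ R3) (hU : ∀ F ∈ U, F.IsHomogeneous D ∧ ∀ α ∈ F.support, α ∈ T) :
    ∃ τ : ℂ, τ ≠ 0 ∧ finrank ℂ ↥(U ⊓ ⨅ k, vanSub (fun i => τ ^ w i * p k i) (m k)) ≤
      finrank ℂ ↥(U ⊓ offSub {α | wt3 w α ≤ c}) := by
  classical
  have hUD : U ≤ Rd D := fun F hF => (hU F hF).1
  have hfinU : Module.Finite ℂ U := Submodule.finiteDimensional_of_le hUD
  let Dset : Finset (Fin 3 →₀ ℕ) := (degree_set_finite D).toFinset
  have hDset : ∀ β, β ∈ Dset ↔ β.degree = D := fun β => by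
    simp [Dset]
  let S : Set (Fin 3 →₀ ℕ) := {α | α.degree = D ∧ α ∈ T ∧ wt3 w α ≤ c}
  have hSfin : Finite S := (degree_set_finite D).subset (fun α hα => hα.1)
  let KS : Submodule ℂ R3 := offSub Sᶜ
  have hKS : ∀ G ∈ KS, G.IsHomogeneous D ∧ ∀ α ∈ G.support, α ∈ T ∧ wt3 w α ≤ c := by
    intro G hG
    have h1 : ∀ α, coeff α G ≠ 0 → α ∈ S := by
      intro α hα
      by_contra hcon
      exact hα (hG α hcon)
    refine ⟨?_, fun α hα => (h1 α (mem_support_iff.mp hα)).2⟩
    intro α hα
    have h2 := (h1 α hα).1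
    rw [← h2]
    simp [Finsupp.degree_eq_sum, Finsupp.weight_apply, Finsupp.sum_fintype]
  let Φ : R3 →ₗ[ℂ] ((k : κ) × {β : Fin 3 →₀ ℕ // β.degree < m k} → ℂ) :=
    { toFun := fun F z => coeff z.2.1 (translate (p z.1) F)
      map_add' := fun F G => by funext z; simp [translate]
      map_smul' := fun a F => by funext z; simp [translate] }
  have hΦ : ∀ F, (∀ k, VanishTo F (p k) (m k)) ↔ Φ F = 0 := by
    intro F
    constructor
    · intro h
      funext z
      exact vanishTo_iff_coeff.mp (h z.1) z.2.1 z.2.2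
    · intro h k
      rw [vanishTo_iff_coeff]
      intro β hβ
      exact congrFun h ⟨k, ⟨β, hβ⟩⟩
  have hinj : Function.Injective (Φ ∘ₗ KS.subtype) := by
    rw [← LinearMap.ker_eq_bot, Submodule.eq_bot_iff]
    intro G hG
    rw [LinearMap.mem_ker, LinearMap.comp_apply] at hG
    have h1 := hKS G.1 G.2
    exact Subtype.ext (hkill G.1 h1.1 h1.2 ((hΦ G.1).mpr hG))
  obtain ⟨L, hL⟩ := LinearMap.exists_leftInverse_of_injective _ (LinearMap.ker_eq_bot.mpr hinj)
  let ψ : (Fin 3 →₀ ℕ) → R3 →ₗ[ℂ] ℂ := fun α =>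
    { toFun := fun F => coeff α (L (Φ F) : R3)
      map_add' := fun F G => by simp
      map_smul' := fun a F => by simp }
  have hψS : ∀ α, ∀ G ∈ KS, ψ α G = coeff α G := by
    intro α G hG
    have h1 : L (Φ G) = ⟨G, hG⟩ := LinearMap.congr_fun hL ⟨G, hG⟩
    change coeff α (L (Φ G) : R3) = _
    rw [h1]
  have hψ0 : ∀ α F, (∀ k, VanishTo F (p k) (m k)) → ψ α F = 0 := by
    intro α F hF
    change coeff α (L (Φ F) : R3) = _
    rw [(hΦ F).mp hF]
    simp
  have hmon : ∀ α β, β ∈ S → ψ α (monomial β 1) = if β = α then 1 else 0 := by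
    intro α β hβ
    rw [hψS α _ ?_, coeff_monomial]
    intro γ hγ
    rw [coeff_monomial, if_neg]
    rintro rfl
    exact hγ hβ
  have hexp : ∀ α, ∀ F : R3, F.IsHomogeneous D →
      ψ α F = ∑ β ∈ Dset, coeff β F * ψ α (monomial β 1) := by
    intro α F hF
    have h1 : F = ∑ β ∈ Dset, monomial β (coeff β F) := by
      ext γ
      rw [coeff_sum]
      simp only [coeff_monomial]
      rw [Finset.sum_ite_eq' Dset γ]
      split_ifs with h2
      · rfl
      · by_contra hcon
        exact h2 ((hDset γ).mpr (degree_of_mem_support hF hcon))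
    conv_lhs => rw [h1]
    rw [map_sum]
    refine Finset.sum_congr rfl (fun β _ => ?_)
    have h2 : (monomial β (coeff β F) : R3) = coeff β F • monomial β 1 := by
      rw [smul_monomial, smul_eq_mul, mul_one]
    rw [h2, map_smul, smul_eq_mul]
  let P : R3 →ₗ[ℂ] (S → Polynomial ℂ) :=
    { toFun := fun F α => Polynomial.C (coeff α.1 F) +
        ∑ β ∈ Dset.filter (fun β => ¬ wt3 w β ≤ c),
          Polynomial.C (coeff β F * ψ α.1 (monomial β 1)) * Polynomial.X ^ (wt3 w β - wt3 w α.1)
      map_add' := fun F G => by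
        funext α
        simp only [coeff_add, add_mul, map_add, Finset.sum_add_distrib, Pi.add_apply]
        ring
      map_smul' := fun a F => by
        funext α
        simp only [coeff_smul, smul_eq_mul, map_mul, Pi.smul_apply, RingHom.id_apply, smul_add,
          Finset.smul_sum, Polynomial.smul_eq_C_mul, mul_assoc] }
  have hP : ∀ F τ (α : S), (P F α).eval τ = coeff α.1 F +
      ∑ β ∈ Dset.filter (fun β => ¬ wt3 w β ≤ c),
        coeff β F * ψ α.1 (monomial β 1) * τ ^ (wt3 w β - wt3 w α.1) := by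
    intro F τ α
    change Polynomial.eval τ (Polynomial.C (coeff α.1 F) + _) = _
    simp only [Polynomial.eval_add, Polynomial.eval_C, Polynomial.eval_finsetSum,
      Polynomial.eval_mul, Polynomial.eval_pow, Polynomial.eval_X]
  obtain ⟨g, hg, h1⟩ := semicont P U 0
  obtain ⟨τ, hτ, hτ0⟩ := exists_eval_ne (ne_zero_of_eval hg) (Polynomial.X_ne_zero (R := ℂ))
  rw [Polynomial.eval_X] at hτ0
  refine ⟨τ, hτ0, ?_⟩
  have h2 := h1 τ hτ
  have h3 : U ⊓ Z P 0 = U ⊓ offSub {α | wt3 w α ≤ c} := by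
    ext F
    rw [Submodule.mem_inf, Submodule.mem_inf, mem_Z, mem_offSub]
    refine and_congr_right (fun hF => ?_)
    have h4 : ∀ α : S, (P F α).eval 0 = coeff α.1 F := by
      intro α
      rw [hP, Finset.sum_eq_zero, add_zero]
      intro β hβ
      have h5 := (Finset.mem_filter.mp hβ).2
      have h6 := α.2.2.2
      rw [zero_pow (by omega), mul_zero]
    constructor
    · intro h α hα
      by_contra hcon
      have h5 := (hU F hF).2 α (mem_support_iff.mpr hcon)
      have h6 := h ⟨α, degree_of_mem_support (hU F hF).1 hcon, h5, hα⟩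
      rw [h4] at h6
      exact hcon h6
    · intro h α
      rw [h4]
      exact h α.1 α.2.2.2
  rw [h3] at h2
  have h4 : U ⊓ ⨅ k, vanSub (fun i => τ ^ w i * p k i) (m k) ≤ U ⊓ Z P τ := by
    intro F hF
    rw [Submodule.mem_inf, Submodule.mem_iInf] at hF
    refine ⟨hF.1, fun α => ?_⟩
    have h5 : ∀ k, VanishTo (scl (fun i => τ ^ w i) F) (p k) (m k) := fun k =>
      vanishTo_scl (hF.2 k)
    have hFD := (hU F hF.1).1
    have h6 : (scl (fun i => τ ^ w i) F).IsHomogeneous D := by
      intro β hβ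
      rw [coeff_scl] at hβ
      exact hFD (right_ne_zero_of_mul hβ)
    have h7 := hψ0 α.1 _ h5
    rw [hexp α.1 _ h6] at h7
    have h8 : ∀ β ∈ Dset.filter (fun β => wt3 w β ≤ c),
        coeff β (scl (fun i => τ ^ w i) F) * ψ α.1 (monomial β 1) =
        if β = α.1 then τ ^ wt3 w α.1 * coeff α.1 F else 0 := by
      intro β hβ
      rw [coeff_scl, prod_pow_wt]
      by_cases h9 : β ∈ T
      · rw [hmon α.1 β ⟨(hDset β).mp (Finset.mem_filter.mp hβ).1, h9,
          (Finset.mem_filter.mp hβ).2⟩]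
        split_ifs with h10
        · rw [h10, mul_one]
        · rw [mul_zero]
      · have h10 : coeff β F = 0 := by
          by_contra hcon
          exact h9 ((hU F hF.1).2 β (mem_support_iff.mpr hcon))
        rw [h10, mul_zero, zero_mul, if_neg]
        rintro rfl
        exact h9 α.2.2.1
    rw [← Finset.sum_filter_add_sum_filter_not Dset (fun β => wt3 w β ≤ c),
      Finset.sum_congr rfl h8, Finset.sum_ite_eq', if_pos (Finset.mem_filter.mpr
        ⟨(hDset α.1).mpr α.2.1, α.2.2.2⟩)] at h7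
    have h9 : τ ^ wt3 w α.1 * (P F α).eval τ = 0 := by
      rw [hP, mul_add, Finset.mul_sum, ← h7]
      congr 1
      refine Finset.sum_congr rfl (fun β hβ => ?_)
      have h10 := (Finset.mem_filter.mp hβ).2
      have h11 := α.2.2.2
      rw [coeff_scl, prod_pow_wt]
      have h12 : τ ^ wt3 w β = τ ^ wt3 w α.1 * τ ^ (wt3 w β - wt3 w α.1) := by
        rw [← pow_add]
        congr 1
        omega
      rw [h12]
      ring
    exact (mul_eq_zero.mp h9).resolve_left (pow_ne_zero _ hτ0)
  have hfin2 : Module.Finite ℂ ↥(U ⊓ Z P τ) :=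
    Submodule.finiteDimensional_of_le (inf_le_left.trans hUD)
  exact (Submodule.finrank_mono h4).trans h2

end Pool.Agent.Work.MP_0421d9_ag.LD
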