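import Pool.Agent.Work.MP_0421d9_ag.Taylor

/-!
Duality between linear systems and inverse systems.
-/

namespace Pool.Agent.Work.MP_0421d9_ag

open MvPolynomial Module

section

/-- forms of degree `d` -/
noncomputable abbrev Rd (d : ℕ) : Submodule ℂ R3 := homogeneousSubmodule (Fin 3) ℂ d

instance finite_Rd (d : ℕ) : Module.Finite ℂ (Rd d) :=
  Module.Finite.iff_fg.mpr (homogeneousSubmodule_fg (Fin 3) ℂ d)

theorem finrank_Rd (d : ℕ) : finrank ℂ (Rd d) = (d + 2).choose 2 := by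
  classical
  have h1 : Rd d = AddMonoidAlgebra.supported ℂ ℂ {α : Fin 3 →₀ ℕ | α.degree = d} :=
    homogeneousSubmodule_eq_finsupp_supported (Fin 3) ℂ d
  have h2 : {α : Fin 3 →₀ ℕ | α.degree = d} = ↑((Finset.univ : Finset (Fin 3)).finsuppAntidiag d) := by
    ext α
    rw [Finset.mem_coe, Finset.mem_finsuppAntidiag]
    change α.degree = d ↔ _
    rw [Finsupp.degree_eq_sum]
    simp
  have h3 : finrank ℂ (Rd d) =
      finrank ℂ ({α : Fin 3 →₀ ℕ | α.degree = d} →₀ ℂ) := by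
    rw [h1]
    exact (AddMonoidAlgebra.supportedEquivFinsupp
      (R := ℂ) (S := ℂ) {α : Fin 3 →₀ ℕ | α.degree = d}).finrank_eq
  rw [h3, h2]
  have h4 : Fintype ((Finset.univ : Finset (Fin 3)).finsuppAntidiag d) := inferInstance
  rw [Module.finrank_finsupp_self]
  have h5 := Finset.card_finsuppAntidiag_nat_eq_choose (s := (Finset.univ : Finset (Fin 3))) d
  rw [Finset.card_univ, Fintype.card_fin] at h5
  have h7 : 3 + d - 1 = d + 2 := by omega
  rw [h7, Nat.choose_symm_of_eq_add (rfl : d + 2 = d + 2)] at h5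
  rw [← h5]
  exact Fintype.card_coe _

end

variable {ι : Type} [Fintype ι]

/-- the parametrisation of the inverse system -/
noncomputable def Psi (d : ℕ) (p : ι → V3) (m : ι → ℕ) : (ι → R3) →ₗ[ℂ] R3 :=
  ∑ i, (LinearMap.mulLeft ℂ (lin (p i) ^ (d + 1 - m i))) ∘ₗ LinearMap.proj i

theorem Psi_apply (d : ℕ) (p : ι → V3) (m : ι → ℕ) (G : ι → R3) :
    Psi d p m G = ∑ i, lin (p i) ^ (d + 1 - m i) * G i := by
  simp [Psi]

/-- admissible families -/
noncomputable def HH (m : ι → ℕ) : Submodule ℂ (ι → R3) :=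
  Submodule.pi Set.univ (fun i => Hm (m i))

omit [Fintype ι] in
theorem mem_HH {m : ι → ℕ} {G : ι → R3} : G ∈ HH m ↔ ∀ i, G i ∈ Hm (m i) := by
  simp [HH]

/-- the inverse system -/
noncomputable def J (d : ℕ) (p : ι → V3) (m : ι → ℕ) : Submodule ℂ R3 := (HH m).map (Psi d p m)

theorem mem_J {d : ℕ} {p : ι → V3} {m : ι → ℕ} {A : R3} :
    A ∈ J d p m ↔ ∃ G : ι → R3, (∀ i, G i ∈ Hm (m i)) ∧
      ∑ i, lin (p i) ^ (d + 1 - m i) * G i = A := by
  unfold J
  rw [Submodule.mem_map]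
  simp only [mem_HH, Psi_apply]

theorem summand_isHomogeneous {d m : ℕ} (hm : m ≤ d + 1) (a : V3) {G : R3} (hG : G ∈ Hm m) :
    (lin a ^ (d + 1 - m) * G).IsHomogeneous d := by
  cases m with
  | zero =>
    rw [mem_Hm_zero] at hG
    rw [hG, mul_zero]
    exact isHomogeneous_zero _ _ _
  | succ n =>
    have := (lin_isHomogeneous_pow a (d + 1 - (n + 1))).mul (mem_Hm_succ.mp hG)
    rwa [(by omega : d + 1 - (n + 1) + n = d)] at this

theorem summand_mem_J {d : ℕ} {p : ι → V3} {m : ι → ℕ} (i : ι) {G : R3} (hG : G ∈ Hm (m i)) :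
    lin (p i) ^ (d + 1 - m i) * G ∈ J d p m := by
  classical
  rw [mem_J]
  refine ⟨Pi.single i G, fun j => ?_, ?_⟩
  · by_cases h : j = i
    · subst h
      rwa [Pi.single_eq_same]
    · rw [Pi.single_eq_of_ne h]
      exact zero_mem _
  · rw [Finset.sum_eq_single i]
    · rw [Pi.single_eq_same]
    · intro j _ hj
      rw [Pi.single_eq_of_ne hj, mul_zero]
    · simp

theorem J_le {d : ℕ} {p : ι → V3} {m : ι → ℕ} (hm : ∀ i, m i ≤ d + 1) : J d p m ≤ Rd d := by
  intro A hA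
  obtain ⟨G, hG, rfl⟩ := mem_J.mp hA
  exact IsHomogeneous.sum _ _ _ (fun i _ => summand_isHomogeneous (hm i) _ (hG i))

theorem B_J_linSys {d : ℕ} {p : ι → V3} {m : ι → ℕ} (hm : ∀ i, m i ≤ d + 1) {A F : R3}
    (hA : A ∈ J d p m) (hF : F ∈ linSys d p m) : B A F = 0 := by
  obtain ⟨G, hG, rfl⟩ := mem_J.mp hA
  rw [map_sum, LinearMap.sum_apply]
  exact Finset.sum_eq_zero (fun i _ => ((mem_linSys_iff hm).mp hF).2 i (G i) (hG i))

/-- the restricted pairing -/
noncomputable def Bd (d : ℕ) : LinearMap.BilinForm ℂ (Rd d) := LinearMap.BilinForm.restrict B (Rd d)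

theorem Bd_apply (d : ℕ) (A f : Rd d) : Bd d A f = B A.1 f.1 := rfl

theorem Bd_nondegenerate (d : ℕ) : (Bd d).Nondegenerate := by
  constructor
  · intro A h
    apply Subtype.ext
    exact eq_zero_of_B_left A.2 (fun f hf => h ⟨f, hf⟩)
  · intro f h
    apply Subtype.ext
    exact eq_zero_of_B_right f.2 (fun A hA => h ⟨A, hA⟩)

theorem Bd_isRefl (d : ℕ) : (Bd d).IsRefl := by
  intro A f h
  rw [Bd_apply, B_symm]
  exact h

omit [Fintype ι] in
theorem linSys_le (d : ℕ) (p : ι → V3) (m : ι → ℕ) : linSys d p m ≤ Rd d := fun _ hF => hF.1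

theorem orthogonal_J {d : ℕ} {p : ι → V3} {m : ι → ℕ} (hm : ∀ i, m i ≤ d + 1) :
    (Bd d).orthogonal ((J d p m).comap (Rd d).subtype) =
      (linSys d p m).comap (Rd d).subtype := by
  ext f
  rw [LinearMap.BilinForm.mem_orthogonal_iff, Submodule.mem_comap]
  constructor
  · intro h
    rw [mem_linSys_iff hm]
    refine ⟨f.2, fun i G hG => ?_⟩
    exact h ⟨_, summand_isHomogeneous (hm i) (p i) hG⟩ (summand_mem_J i hG)
  · intro h A hA
    exact B_J_linSys hm hA h

/-- duality: a form killing the linear system lies in the inverse system -/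
theorem mem_J_of_B {d : ℕ} {p : ι → V3} {m : ι → ℕ} (hm : ∀ i, m i ≤ d + 1) {A : R3}
    (hA : A.IsHomogeneous d) (h : ∀ F ∈ linSys d p m, B A F = 0) : A ∈ J d p m := by
  have h1 := LinearMap.BilinForm.orthogonal_orthogonal (Bd_nondegenerate d) (Bd_isRefl d)
    ((J d p m).comap (Rd d).subtype)
  rw [orthogonal_J hm] at h1
  have h2 : (⟨A, hA⟩ : Rd d) ∈ (J d p m).comap (Rd d).subtype := by
    rw [← h1, LinearMap.BilinForm.mem_orthogonal_iff]
    intro F hF
    change B F.1 A = 0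
    rw [B_symm]
    exact h F.1 hF
  exact h2

theorem finrank_linSys_add {d : ℕ} {p : ι → V3} {m : ι → ℕ} (hm : ∀ i, m i ≤ d + 1) :
    finrank ℂ (linSys d p m) + finrank ℂ (J d p m) = (d + 2).choose 2 := by
  have h1 := LinearMap.BilinForm.finrank_orthogonal (Bd_nondegenerate d)
    ((J d p m).comap (Rd d).subtype)
  rw [orthogonal_J hm, finrank_Rd] at h1
  have h2 : finrank ℂ ((J d p m).comap (Rd d).subtype) = finrank ℂ (J d p m) :=
    (Submodule.comapSubtypeEquivOfLe (J_le hm)).finrank_eq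
  have h3 : finrank ℂ ((linSys d p m).comap (Rd d).subtype) = finrank ℂ (linSys d p m) :=
    (Submodule.comapSubtypeEquivOfLe (linSys_le d p m)).finrank_eq
  have h4 : finrank ℂ ((J d p m).comap (Rd d).subtype) ≤ (d + 2).choose 2 := by
    rw [← finrank_Rd]
    exact Submodule.finrank_le _
  omega

theorem finrank_Hm (m : ℕ) : finrank ℂ (Hm m) = (m + 1).choose 2 := by
  cases m with
  | zero => exact finrank_bot _ _
  | succ n => exact finrank_Rd n

instance finite_Hm (m : ℕ) : Module.Finite ℂ (Hm m) := by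
  cases m with
  | zero =>
    change Module.Finite ℂ (⊥ : Submodule ℂ R3)
    infer_instance
  | succ n => exact finite_Rd n

end Pool.Agent.Work.MP_0421d9_ag
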