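import Pool.Agent.Work.MP_0421d9_ag.Semi69
import Pool.Agent.Work.MP_0421d9_ag.Duality

/-!
Linear systems of plane curves with assigned multiplicities and with assigned orders of vanishing
along lines (flags).
-/

namespace Pool.Agent.Work.MP_0421d9_ag.LD

open MvPolynomial Module

/-- the polynomial `F (q + s v)` in the variable `s` -/
noncomputable def onLine (q v : V3) : R3 →ₐ[ℂ] Polynomial ℂ :=
  aeval (fun i => Polynomial.C (q i) + Polynomial.C (v i) * Polynomial.X)

/-- the polynomials `F` for which `F (q + s v)` vanishes to order at least `A` at `s = 0` -/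
noncomputable def flagSub (q v : V3) (A : ℕ) : Submodule ℂ R3 where
  carrier := {F | ∀ k < A, (onLine q v F).coeff k = 0}
  zero_mem' := by intro k _; simp
  add_mem' := by
    intro F G hF hG k hk
    rw [map_add, Polynomial.coeff_add, hF k hk, hG k hk, add_zero]
  smul_mem' := by
    intro c F hF k hk
    rw [map_smul, Polynomial.coeff_smul, hF k hk, smul_zero]

theorem mem_flagSub {q v : V3} {A : ℕ} {F : R3} :
    F ∈ flagSub q v A ↔ ∀ k < A, (onLine q v F).coeff k = 0 := Iff.rfl

/-- the polynomials which vanish to order at least `m` at `a` -/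
noncomputable def vanSub (a : V3) (m : ℕ) : Submodule ℂ R3 where
  carrier := {F | VanishTo F a m}
  zero_mem' := by intro k _; simp [translate]
  add_mem' := by
    intro F G hF hG k hk
    have h1 := hF k hk
    have h2 := hG k hk
    unfold translate at *
    rw [map_add, map_add, h1, h2, add_zero]
  smul_mem' := by
    intro c F hF k hk
    have h1 := hF k hk
    unfold translate at *
    rw [map_smul, map_smul, h1, smul_zero]

theorem mem_vanSub {a : V3} {m : ℕ} {F : R3} : F ∈ vanSub a m ↔ VanishTo F a m := Iff.rfl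

/-- the polynomials without terms `x ^ α`, `α ∈ T` -/
noncomputable def offSub (T : Set (Fin 3 →₀ ℕ)) : Submodule ℂ R3 where
  carrier := {F | ∀ α ∈ T, coeff α F = 0}
  zero_mem' := by intro k _; simp
  add_mem' := by
    intro F G hF hG α hα
    rw [coeff_add, hF α hα, hG α hα, add_zero]
  smul_mem' := by
    intro c F hF α hα
    rw [coeff_smul, hF α hα, smul_zero]

theorem mem_offSub {T : Set (Fin 3 →₀ ℕ)} {F : R3} :
    F ∈ offSub T ↔ ∀ α ∈ T, coeff α F = 0 := Iff.rfl

/-- weight of an exponent -/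
def wt3 (w : Fin 3 → ℕ) (α : Fin 3 →₀ ℕ) : ℕ := ∑ i, w i * α i

/-- forms of degree `D` with multiplicity at least `y i` at `p i`, and which vanish to order at
least `A l` at `q l` along the line through `q l` with the direction `v l`, for `l < e` -/
noncomputable def Sys {r : ℕ} (D : ℕ) (y : Fin r → ℕ) (e : ℕ) (A : ℕ → ℕ) (p : Fin r → V3)
    (q v : ℕ → V3) : Submodule ℂ R3 :=
  linSys D p y ⊓ ⨅ l : Fin e, flagSub (q l) (v l) (A l)

theorem mem_Sys {r : ℕ} {D : ℕ} {y : Fin r → ℕ} {e : ℕ} {A : ℕ → ℕ} {p : Fin r → V3}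
    {q v : ℕ → V3} {F : R3} : F ∈ Sys D y e A p q v ↔
      F.IsHomogeneous D ∧ (∀ i, VanishTo F (p i) (y i)) ∧
        ∀ l < e, F ∈ flagSub (q l) (v l) (A l) := by
  unfold Sys
  rw [Submodule.mem_inf, Submodule.mem_iInf]
  constructor
  · rintro ⟨⟨h1, h2⟩, h3⟩
    exact ⟨h1, h2, fun l hl => h3 ⟨l, hl⟩⟩
  · rintro ⟨h1, h2, h3⟩
    exact ⟨⟨h1, h2⟩, fun l => h3 l l.2⟩

theorem Sys_le {r : ℕ} (D : ℕ) (y : Fin r → ℕ) (e : ℕ) (A : ℕ → ℕ) (p : Fin r → V3)
    (q v : ℕ → V3) : Sys D y e A p q v ≤ Rd D := fun _ hF => (mem_Sys.mp hF).1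

instance finite_Sys {r : ℕ} (D : ℕ) (y : Fin r → ℕ) (e : ℕ) (A : ℕ → ℕ) (p : Fin r → V3)
    (q v : ℕ → V3) : Module.Finite ℂ (Sys D y e A p q v) :=
  Submodule.finiteDimensional_of_le (Sys_le D y e A p q v)

/-- for some position of the points and of the flags, the dimension is at most `n` -/
def Good {r : ℕ} (D : ℕ) (y : Fin r → ℕ) (e : ℕ) (A : ℕ → ℕ) (n : ℕ) : Prop :=
  ∃ (p : Fin r → V3) (q v : ℕ → V3), finrank ℂ (Sys D y e A p q v) ≤ n

/-- for some points `p k` with nonzero coordinates, there is no form of degree `D` with support in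
`T` and with multiplicity at least `u` at all of the `n` points -/
def Kills (D u n : ℕ) (T : Set (Fin 3 →₀ ℕ)) : Prop :=
  ∃ p : Fin n → V3, (∀ k i, p k i ≠ 0) ∧ ∀ G : R3, G.IsHomogeneous D →
    (∀ α ∈ G.support, α ∈ T) → (∀ k, VanishTo G (p k) u) → G = 0

/-- polynomials in one variable which vanish to order at least `A` at `c` -/
noncomputable def ordSub (c : ℂ) (A : ℕ) : Submodule ℂ (Polynomial ℂ) where
  carrier := {g | ∀ k < A, (g.comp (Polynomial.X + Polynomial.C c)).coeff k = 0}
  zero_mem' := by intro k _; simp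
  add_mem' := by
    intro F G hF hG k hk
    rw [Polynomial.add_comp, Polynomial.coeff_add, hF k hk, hG k hk, add_zero]
  smul_mem' := by
    intro c F hF k hk
    rw [Polynomial.smul_comp, Polynomial.coeff_smul, hF k hk, smul_zero]

end Pool.Agent.Work.MP_0421d9_ag.LD
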