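import Mathlib

/-!
Plane linear systems with assigned multiple base points, and smoothness of their members on the
blow-up of the plane at the base points.
-/

namespace Pool.Agent.Work.MP_0421d9_ag

open MvPolynomial

/-- The polynomial `F (a + Y)` in the variables `Y = (Y₀, Y₁, Y₂)`. -/
noncomputable def translate (a : Fin 3 → ℂ) (F : MvPolynomial (Fin 3) ℂ) :
    MvPolynomial (Fin 3) ℂ :=
  aeval (fun k => C (a k) + X k) F

/-- `F` vanishes to order at least `m` at `a`: the polynomial `F (a + Y)` has no term of degree
less than `m`. For a form `F` and `a ≠ 0` this says that the plane curve `F = 0` has multiplicity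
at least `m` at the point with homogeneous coordinates `a`. -/
def VanishTo (F : MvPolynomial (Fin 3) ℂ) (a : Fin 3 → ℂ) (m : ℕ) : Prop :=
  ∀ k < m, homogeneousComponent k (translate a F) = 0

/-- The vector space of ternary forms of degree `d` which vanish to order at least `m i` at `p i`
for all `i`. The projective space of lines in this vector space is the linear system
`|dH - ∑ m_i E_i|` on the blow-up of the plane at the points `p i`. -/
noncomputable def linSys {ι : Type} (d : ℕ) (p : ι → Fin 3 → ℂ) (m : ι → ℕ) :
    Submodule ℂ (MvPolynomial (Fin 3) ℂ) where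
  carrier := {F | F.IsHomogeneous d ∧ ∀ i, VanishTo F (p i) (m i)}
  zero_mem' := ⟨isHomogeneous_zero _ _ _, fun i k _ => by simp [translate]⟩
  add_mem' := fun {F G} hF hG => ⟨hF.1.add hG.1, fun i k hk => by
    have h1 := hF.2 i k hk
    have h2 := hG.2 i k hk
    unfold translate at *
    rw [map_add, map_add, h1, h2, add_zero]⟩
  smul_mem' := fun c F hF => ⟨by
    rw [smul_eq_C_mul]
    exact hF.1.C_mul c, fun i k hk => by
    have h1 := hF.2 i k hk
    unfold translate at *
    rw [map_smul, map_smul, h1, smul_zero]⟩

/-- The points `p i` are generic: all their coordinates together are algebraically independent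
over the rational numbers. -/
def GenericPoints {ι : Type} (p : ι → Fin 3 → ℂ) : Prop :=
  AlgebraicIndependent ℚ (fun z : ι × Fin 3 => p z.1 z.2)

/-- The member of `|dH - ∑ m_i E_i|` on the blow-up `X` of the plane at the points `p i` which is
defined by `F` is a smooth curve on `X` meeting each `E_i` transversally:
* at a point `q` of the plane different from all the points `p i`, if `F` vanishes at `q` then some
  first partial derivative of `F` does not;
* at the point of `E_i` given by the direction `u`, in the coordinates `(s, t)` of the blow-up with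
  `(s, t) ↦ p i + s (u + t w)` and `E_i = {s = 0}`, one has `F (p i + s (u + t w)) = s ^ m_i g (s, t)`
  with a polynomial `g` (the local equation of the curve) such that `g (0, 0) = 0` implies
  `∂g/∂t (0, 0) ≠ 0`. -/
def SmoothOnBlowup {ι : Type} (p : ι → Fin 3 → ℂ) (m : ι → ℕ) (F : MvPolynomial (Fin 3) ℂ) :
    Prop :=
  (∀ q : Fin 3 → ℂ, q ≠ 0 → (∀ i, ∀ c : ℂ, q ≠ c • p i) → eval q F = 0 →
    ∃ k, eval q (pderiv k F) ≠ 0) ∧
  (∀ i, ∀ u w : Fin 3 → ℂ, LinearIndependent ℂ ![p i, u, w] →
    ∃ g : MvPolynomial (Fin 2) ℂ,
      aeval (fun k => C (p i k) + X 0 * (C (u k) + X 1 * C (w k))) F = X 0 ^ m i * g ∧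
      (eval 0 g = 0 → eval 0 (pderiv 1 g) ≠ 0))

/-- The multiplicities `m` with the simple points forgotten. -/
def dropSimple {ι : Type} (m : ι → ℕ) : ι → ℕ := fun i => if m i = 1 then 0 else m i

end Pool.Agent.Work.MP_0421d9_ag
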