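import Mathlib

/-!
Existence of derivations of the complex numbers with prescribed values on an
algebraically independent family.
-/

set_option linter.style.haveILetI false

namespace Pool.Agent.Work.MP_0421d9_ag

open TensorProduct MvPolynomial

open scoped IntermediateField.algebraAdjoinAdjoin in
theorem formallyEtale_adjoin {ι : Type} (x : ι → ℂ)
   [Algebra.IsAlgebraic (IntermediateField.adjoin ℚ (Set.range x)) ℂ] :
    Algebra.FormallyEtale (Algebra.adjoin ℚ (Set.range x)) ℂ := by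
  have : Algebra.FormallyEtale (Algebra.adjoin ℚ (Set.range x))
      (IntermediateField.adjoin ℚ (Set.range x)) :=
    .of_isLocalization (nonZeroDivisors _)
  have : Algebra.FormallyEtale (IntermediateField.adjoin ℚ (Set.range x)) ℂ :=
    Algebra.FormallyEtale.of_isSeparable _ ℂ
  exact .comp _ (IntermediateField.adjoin ℚ (Set.range x)) _

theorem exists_derivation_aux {ι : Type} (x : ι → ℂ) (hx : IsTranscendenceBasis ℚ x) (c : ι → ℂ) :
    ∃ D : Derivation ℚ ℂ ℂ, ∀ i, D (x i) = c i := by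
  classical
  have hai := hx.1
  letI : Algebra (MvPolynomial ι ℚ) ℂ := (aeval x : MvPolynomial ι ℚ →ₐ[ℚ] ℂ).toRingHom.toAlgebra
  haveI : IsScalarTower ℚ (MvPolynomial ι ℚ) ℂ := by
    refine IsScalarTower.of_algebraMap_eq (fun r => ?_)
    change _ = (aeval x : MvPolynomial ι ℚ →ₐ[ℚ] ℂ) (algebraMap ℚ _ r)
    simp
  haveI : Algebra.IsAlgebraic (IntermediateField.adjoin ℚ (Set.range x)) ℂ := hx.isAlgebraic_field
  haveI : Algebra.FormallyEtale (MvPolynomial ι ℚ) ℂ := by
    letI : Algebra (MvPolynomial ι ℚ) (Algebra.adjoin ℚ (Set.range x)) :=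
      (hai.aevalEquiv.toAlgHom.toRingHom).toAlgebra
    have : IsScalarTower (MvPolynomial ι ℚ) (Algebra.adjoin ℚ (Set.range x)) ℂ := by
      refine IsScalarTower.of_algebraMap_eq (fun r => ?_)
      change (aeval x : MvPolynomial ι ℚ →ₐ[ℚ] ℂ) r =
        ((hai.aevalEquiv r : Algebra.adjoin ℚ (Set.range x)) : ℂ)
      simp
    have h1 := formallyEtale_adjoin x
    have h2 : Algebra.FormallyEtale (MvPolynomial ι ℚ) (Algebra.adjoin ℚ (Set.range x)) := by
      refine Algebra.FormallyEtale.of_equiv (A := MvPolynomial ι ℚ)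
        { hai.aevalEquiv.toRingEquiv with
          commutes' := ?_ }
      intro r
      rfl
    exact .comp _ (Algebra.adjoin ℚ (Set.range x)) _
  let D0 : Derivation ℚ (MvPolynomial ι ℚ) ℂ := mkDerivation ℚ c
  let L0 : Ω[(MvPolynomial ι ℚ)⁄ℚ] →ₗ[MvPolynomial ι ℚ] ℂ := D0.liftKaehlerDifferential
  let L1 : ℂ ⊗[MvPolynomial ι ℚ] Ω[(MvPolynomial ι ℚ)⁄ℚ] →ₗ[ℂ] ℂ :=
    LinearMap.liftBaseChange ℂ L0
  let e := KaehlerDifferential.tensorKaehlerEquivOfFormallyEtale ℚ (MvPolynomial ι ℚ) ℂ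
  let L2 : Ω[ℂ⁄ℚ] →ₗ[ℂ] ℂ := L1 ∘ₗ e.symm.toLinearMap
  refine ⟨L2.compDer (KaehlerDifferential.D ℚ ℂ), fun i => ?_⟩
  have h1 : x i = algebraMap (MvPolynomial ι ℚ) ℂ (X i) := by
    change _ = (aeval x : MvPolynomial ι ℚ →ₐ[ℚ] ℂ) (X i)
    simp
  change L1 (e.symm (KaehlerDifferential.D ℚ ℂ (x i))) = c i
  rw [h1, KaehlerDifferential.tensorKaehlerEquivOfFormallyEtale_symm_D_algebraMap]
  simp [L1, L0, D0, mkDerivation_X]

/-- Existence of derivations with prescribed values on an algebraically independent family. -/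
theorem exists_derivation {ι : Type} (x : ι → ℂ) (hx : AlgebraicIndependent ℚ x) (c : ι → ℂ) :
    ∃ D : Derivation ℚ ℂ ℂ, ∀ i, D (x i) = c i := by
  classical
  obtain ⟨s, hs, hs'⟩ := exists_isTranscendenceBasis_superset hx.coe_range
  have hinj := hx.injective
  obtain ⟨D, hD⟩ := exists_derivation_aux ((↑) : s → ℂ) hs'
    (fun y => if h : ∃ i, x i = y then c h.choose else 0)
  refine ⟨D, fun i => ?_⟩
  have h := hD ⟨x i, hs (Set.mem_range_self i)⟩
  have hex : ∃ j, x j = x i := ⟨i, rfl⟩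
  have h2 : hex.choose = i := hinj hex.choose_spec
  rw [h]
  simp only [hex, dif_pos]
  rw [h2]

end Pool.Agent.Work.MP_0421d9_ag
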