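import Pool.Agent.Work.MP_0421d9_ag.UMain

/-!
Planar linear systems with general base points of the same multiplicity `m`: if there are at least
`400 m` points, all of them (in all degrees) are nonspecial.
-/

namespace Pool.Agent.Work.MP_0421d9_ag.EqualMultiplicitiesOld

open MvPolynomial Module Pool.Agent.Work.MP_0421d9_ag

/-- Let `p i`, `i < r`, be generic points of the plane, and let `L` be the system of the plane curves
of degree `d` with multiplicity at least `m` at all of the points `p i`. If `r ≥ 400 m`, then `L` is
nonspecial: the space of its equations has the dimension
`(d + 2).choose 2 - r * (m + 1).choose 2`, or `0` if this number is negative. -/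
theorem result {m r d : ℕ} (hr : 400 * m ≤ r) (p : Fin r → Fin 3 → ℂ) (hp : GenericPoints p) :
    finrank ℂ (linSys d p (fun _ => m)) = (d + 2).choose 2 - r * (m + 1).choose 2 :=
  LD.uniform_main hr hp

end Pool.Agent.Work.MP_0421d9_ag.EqualMultiplicitiesOld
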