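import Pool.Agent.Work.MP_0421d9_ag.FStrip

/-!
Systems with many conditions imposed by points of small multiplicity, with less of them.
-/

namespace Pool.Agent.Work.MP_0421d9_ag.LD

open MvPolynomial Module

theorem le_sq_self' (u : ℕ) : u + 1 ≤ (u + 1) ^ 2 := by
  have e0 : (u + 1) ^ 2 = (u + 1) * (u + 1) := sq _
  have h3 : (u + 1) * 1 ≤ (u + 1) * (u + 1) := Nat.mul_le_mul_left _ (by omega)
  omega

/-- numbers in the first case -/
theorem fm_num {u M M₂ d N : ℕ} (hu : 1 ≤ u) (huM₂ : u ≤ M₂) (hMd : M ≤ d)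
    (hd : 32 * (u + 1) ^ 2 ≤ d)
    (h : 2 * N + 6 * (M₂ * M) + 18 * ((u + 1) ^ 2 * M) + 6 * ((u + 1) * d) ≤
      (d + 2) * (d + 1)) :
    ∃ q D₁ g, d = D₁ + q * (u + 1) ∧ q * (u + 1) ≤ 9 * (u + 1) ^ 2 ∧
      6 * (M₂ * M) + 2 * N ≤ (D₁ + 2) * (D₁ + 1) ∧
      2 * N + 6 * (u * M) + (2 * u + 1) * (D₁ + 1) ≤ (D₁ + 2) * (D₁ + 1) ∧
      u.choose 2 + 2 ≤ g ∧ 2 * g + (u + 1).choose 2 + u ≤ D₁ + 1 ∧
      3 * (u * M) ≤ g * q := by
  obtain ⟨q, hq⟩ : ∃ q, q = 9 * (u * M) / d + 1 := ⟨_, rfl⟩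
  have hd1 : 1 ≤ d := by
    have := le_sq_self' u
    omega
  have hq1 : q ≤ 9 * u + 1 := by
    have h1 : 9 * (u * M) / d ≤ 9 * u := by
      apply Nat.div_le_of_le_mul
      have h2 : u * M ≤ u * d := Nat.mul_le_mul_left u hMd
      have e1 : d * (9 * u) = 9 * (u * d) := by ring
      omega
    omega
  have hq2 : 9 * (u * M) ≤ d * q := by
    have h1 := Nat.lt_mul_div_succ (9 * (u * M)) (b := d) (by omega)
    rw [hq]
    exact h1.le
  have hq3 : d * q ≤ 9 * (u * M) + d := by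
    have h1 := Nat.mul_div_le (9 * (u * M)) d
    have e1 : d * q = d * (9 * (u * M) / d) + d := by rw [hq]; ring
    omega
  have hΔ : q * (u + 1) ≤ 9 * (u + 1) ^ 2 := by
    have h1 : q * (u + 1) ≤ 9 * (u + 1) * (u + 1) := Nat.mul_le_mul_right _ (by omega)
    have e1 : 9 * (u + 1) * (u + 1) = 9 * (u + 1) ^ 2 := by ring
    omega
  obtain ⟨s, hs⟩ : ∃ s, s = (u + 1) ^ 2 := ⟨_, rfl⟩
  have e0 : (u + 1) ^ 2 = u * u + 2 * u + 1 := by ring
  have hs2 : s = u * u + 2 * u + 1 := by rw [hs, e0]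
  have huu : 1 * u ≤ u * u := Nat.mul_le_mul_right u hu
  rw [← hs] at h hΔ hd ⊢
  obtain ⟨D₁, hD₁⟩ : ∃ D₁, d = D₁ + q * (u + 1) := ⟨d - q * (u + 1), by omega⟩
  set Δ := q * (u + 1) with hΔdef
  have hc1 : (u + 1).choose 2 = u + u.choose 2 := by
    rw [Nat.choose_succ_succ' u 1, Nat.choose_one_right]
  have hc2 : 2 * (u + 1).choose 2 = u * (u + 1) := tr_two_choose u
  have e2 : u * (u + 1) = u * u + u := by ring
  -- the loss
  have hdiff : (d + 2) * (d + 1) ≤ (D₁ + 2) * (D₁ + 1) + Δ * (2 * d + 3) := by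
    have e4 : (d + 2) * (d + 1) = (D₁ + 2) * (D₁ + 1) + Δ * (d + D₁ + 3) := by
      rw [hD₁]
      ring
    rw [e4]
    apply Nat.add_le_add_left
    exact Nat.mul_le_mul_left _ (by omega)
  have hloss : Δ * (2 * d + 3) ≤ 18 * (s * M) + 3 * ((u + 1) * d) := by
    have e5 : Δ * (2 * d + 3) = 2 * ((u + 1) * (d * q)) + 3 * Δ := by rw [hΔdef]; ring
    have h1 : (u + 1) * (d * q) ≤ (u + 1) * (9 * (u * M) + d) := Nat.mul_le_mul_left _ hq3
    have e6 : (u + 1) * (9 * (u * M) + d) = 9 * (u * (u + 1) * M) + (u + 1) * d := by ring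
    have h2 : u * (u + 1) * M ≤ s * M := Nat.mul_le_mul_right M (by omega)
    have h3 : 2 * d ≤ (u + 1) * d := Nat.mul_le_mul_right d (by omega)
    omega
  have hroom : (2 * u + 1) * (D₁ + 1) ≤ 3 * ((u + 1) * d) := by
    have h1 : (2 * u + 1) * (D₁ + 1) ≤ (2 * u + 1) * (d + 1) := Nat.mul_le_mul_left _ (by omega)
    have e7 : (2 * u + 1) * (d + 1) = 2 * ((u + 1) * d) + (2 * u + 1) - d := by
      have e8 : (2 * u + 1) * (d + 1) + d = 2 * ((u + 1) * d) + (2 * u + 1) := by ring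
      omega
    have h3 : 2 * d ≤ (u + 1) * d := Nat.mul_le_mul_right d (by omega)
    omega
  have huM : 6 * (u * M) ≤ 6 * (M₂ * M) :=
    Nat.mul_le_mul_left 6 (Nat.mul_le_mul_right M huM₂)
  refine ⟨q, D₁, (D₁ + 1 - u - (u + 1).choose 2) / 2, hD₁, hΔ, ?_, ?_, ?_, ?_, ?_⟩
  · omega
  · omega
  · omega
  · omega
  · obtain ⟨g, hg⟩ : ∃ g, g = (D₁ + 1 - u - (u + 1).choose 2) / 2 := ⟨_, rfl⟩
    rw [← hg]
    have h3 : d ≤ 3 * g := by omega
    have h4 : d * q ≤ 3 * g * q := Nat.mul_le_mul_right q h3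
    have e6 : 3 * g * q = 3 * (g * q) := by ring
    omega

/-- the number of conditions imposed by the points in `I` and the points of multiplicity greater
than `u` -/
def bigC {r : ℕ} (I : Finset (Fin r)) (u : ℕ) (m : Fin r → ℕ) : ℕ :=
  ∑ i ∈ Finset.univ.filter (fun i => i ∈ I ∨ u < m i), (m i + 1).choose 2

/-- the number of conditions imposed by the other points -/
def smallC {r : ℕ} (I : Finset (Fin r)) (u : ℕ) (m : Fin r → ℕ) : ℕ :=
  ∑ i ∈ Finset.univ.filter (fun i => i ∉ I ∧ m i ≤ u), (m i + 1).choose 2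

theorem sum_big_small {r : ℕ} (I : Finset (Fin r)) (u : ℕ) (m : Fin r → ℕ) :
    ∑ i, (m i + 1).choose 2 = bigC I u m + smallC I u m := by
  unfold bigC smallC
  rw [← Finset.sum_filter_add_sum_filter_not Finset.univ (fun i => i ∈ I ∨ u < m i)]
  congr 1
  apply Finset.sum_congr _ (fun _ _ => rfl)
  ext i
  simp only [Finset.mem_filter, Finset.mem_univ, true_and, not_or, not_lt]

/-- the numbers `m i`, `i ∈ I`, and their sums in pairs are at most `d - t` -/
def Apart {r : ℕ} (d t : ℕ) (I : Finset (Fin r)) (m : Fin r → ℕ) : Prop :=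
  t ≤ d ∧ (∀ i ∈ I, m i + t ≤ d) ∧ ∀ i ∈ I, ∀ j ∈ I, i ≠ j → m i + m j + t ≤ d

theorem Apart.regular {r d t D : ℕ} {p : Fin r → V3} (hp : GenericPoints p) {m : Fin r → ℕ}
    {I : Finset (Fin r)} (hI : I.card ≤ 3) (h : Apart d t I m) (hD : d ≤ D + t) :
    finrank ℂ (linSys D p (onB I m)) + ∑ i ∈ I, (m i + 1).choose 2 = (D + 2).choose 2 := by
  obtain ⟨-, h1, h2⟩ := h
  apply three_regular hp m hI
  · intro i hi
    have := h1 i hi
    omega
  · intro i hi j hj hij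
    have := h2 i hi j hj hij
    omega

theorem fbig_aux {r u M M₂ d : ℕ} {p : Fin r → V3} (hp : GenericPoints p) {m : Fin r → ℕ}
    {I : Finset (Fin r)} (hI : I.card ≤ 3) (hM : ∀ i, m i ≤ M) (hM₂ : ∀ i, i ∉ I → m i ≤ M₂)
    (hMM : M₂ ≤ M) (hMd : M ≤ d) (hu : 1 ≤ u) (huM : u ≤ M₂) (hd : 32 * (u + 1) ^ 2 ≤ d)
    (hA : Apart d (9 * (u + 1) ^ 2) I m)
    (h : bigC I u m + 3 * (M₂ * M) + 9 * ((u + 1) ^ 2 * M) + 3 * ((u + 1) * d) ≤
      (d + 2).choose 2) :
    finrank ℂ (linSys d p m) = (d + 2).choose 2 - ∑ i, (m i + 1).choose 2 := by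
  classical
  unfold bigC at h
  set B := Finset.univ.filter (fun i => i ∈ I ∨ u < m i) with hB
  have hIB : I ⊆ B := fun i hi => Finset.mem_filter.mpr ⟨Finset.mem_univ _, Or.inl hi⟩
  have hsmall : ∀ i, i ∉ B → m i ≤ u := by
    intro i hi
    by_contra hcon
    exact hi (Finset.mem_filter.mpr ⟨Finset.mem_univ _, Or.inr (by omega)⟩)
  have hdc := tm_choose d
  obtain ⟨q, D₁, g, hD₁, hΔ, c1, c2, c3, c4, c5⟩ := fm_num (N := ∑ i ∈ B, (m i + 1).choose 2)
    hu huM hMd hd (by omega)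
  -- the points of `B` are regular in degree `D₁`
  have hregB : finrank ℂ (linSys D₁ p (onB B m)) + ∑ i ∈ B, (m i + 1).choose 2 =
      (D₁ + 2).choose 2 := by
    rw [hPm_eq hp, ← sum_onB]
    refine tr_regular (u := M₂) (M := M) I (by omega) hMM (fun i => (onB_le B m i).trans (hM i))
      (fun i hi => (onB_le B m i).trans (hM₂ i hi)) ?_ ?_
    · rw [onB_onB hIB, ← hPm_eq hp, sum_onB]
      exact hA.regular hp hI (by omega)
    · rw [sum_onB]
      have := tm_choose D₁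
      omega
  refine rel_main2 (M := M) (D₁ := D₁) (g := g) hp B hu
    (huM.trans hMM) hM hsmall hregB c2 c3 c4 (by omega) ?_
  have e3 : d - D₁ = q * (u + 1) := by
    rw [hD₁, Nat.add_sub_cancel_left]
  rw [e3, Nat.mul_div_cancel _ (by omega)]
  exact c5

theorem ns_of_gt {r d : ℕ} {p : Fin r → V3} {m : Fin r → ℕ} (h : ∃ i, d < m i) :
    finrank ℂ (linSys d p m) = (d + 2).choose 2 - ∑ i, (m i + 1).choose 2 := by
  obtain ⟨i, hi⟩ := h
  have h3 := finrank_linSys_zero_of_gt (d := d) (p := p) (m := m) (i := i) hi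
  have h4 : (m i + 1).choose 2 ≤ ∑ l, (m l + 1).choose 2 :=
    Finset.single_le_sum (f := fun l => (m l + 1).choose 2) (fun l _ => Nat.zero_le _)
      (Finset.mem_univ i)
  have h5 : (d + 2).choose 2 ≤ (m i + 1).choose 2 := Nat.choose_le_choose 2 (by omega)
  omega

/-- **Few large points.** Let `I` be a set of at most three points. If the points of multiplicity
greater than `u` leave sufficiently many curves, then the system is nonspecial, for arbitrarily
many points of multiplicity at most `u`. -/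
theorem fbig {r u M M₂ d : ℕ} {p : Fin r → V3} (hp : GenericPoints p) {m : Fin r → ℕ}
    {I : Finset (Fin r)} (hI : I.card ≤ 3) (hM : ∀ i, m i ≤ M) (hM₂ : ∀ i, i ∉ I → m i ≤ M₂)
    (hMM : M₂ ≤ M) (hu : 1 ≤ u) (huM : u ≤ M₂) (hd : 32 * (u + 1) ^ 2 ≤ d)
    (hA : Apart d (9 * (u + 1) ^ 2) I m)
    (h : bigC I u m + 3 * (M₂ * M) + 9 * ((u + 1) ^ 2 * M) + 3 * ((u + 1) * d) ≤
      (d + 2).choose 2) :
    finrank ℂ (linSys d p m) = (d + 2).choose 2 - ∑ i, (m i + 1).choose 2 := by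
  by_cases hmd : ∀ i, m i ≤ d
  swap
  · push Not at hmd
    exact ns_of_gt hmd
  have hud := le_sq_self' u
  refine fbig_aux (u := u) (M := min M d) (M₂ := min M₂ d) hp hI
    (fun i => le_min (hM i) (hmd i)) (fun i hi => le_min (hM₂ i hi) (hmd i)) (by omega)
    (min_le_right _ _) hu (by omega) hd hA ?_
  have h3 : min M₂ d * min M d ≤ M₂ * M := Nat.mul_le_mul (min_le_left _ _) (min_le_left _ _)
  have h4 : (u + 1) ^ 2 * min M d ≤ (u + 1) ^ 2 * M := Nat.mul_le_mul_left _ (min_le_left _ _)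
  omega

/-- **Many points of small multiplicity.** Let `I` be a set of at most three points. If the points
of multiplicity at most `u` outside of `I` impose sufficiently many conditions, then the system is
nonspecial. -/
theorem fsmall {r u M M₂ d : ℕ} {p : Fin r → V3} (hp : GenericPoints p) {m : Fin r → ℕ}
    {I : Finset (Fin r)} (hI : I.card ≤ 3) (hM : ∀ i, m i ≤ M) (hM₂ : ∀ i, i ∉ I → m i ≤ M₂)
    (hMM : M₂ ≤ M) (hu : 1 ≤ u) (huM : u ≤ M₂) (hd : 32 * (u + 1) ^ 2 ≤ d)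
    (hA : Apart d (9 * (u + 1) ^ 2) I m)
    (hS : 6 * (M₂ * M) + 9 * ((u + 1) ^ 2 * M) + 3 * ((u + 1) * d) ≤ smallC I u m) :
    finrank ℂ (linSys d p m) = (d + 2).choose 2 - ∑ i, (m i + 1).choose 2 := by
  have hsum := sum_big_small I u m
  by_cases hcase : bigC I u m + 3 * (M₂ * M) + 9 * ((u + 1) ^ 2 * M) + 3 * ((u + 1) * d) ≤
      (d + 2).choose 2
  · exact fbig hp hI hM hM₂ hMM hu huM hd hA hcase
  · -- the system is empty
    have hneg : (d + 2).choose 2 + 3 * (M₂ * M) < ∑ i, (m i + 1).choose 2 := by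
      omega
    have hempty : linSys d p m = ⊥ := by
      by_contra hne
      have hreg : finrank ℂ (linSys d p (onB I m)) + ∑ i, (onB I m i + 1).choose 2 =
          (d + 2).choose 2 := by
        rw [sum_onB]
        exact hA.regular hp hI (by omega)
      obtain ⟨S₁, hS₁, h3, h4⟩ := two_window hp (u := M₂) (M := M) (by omega) hMM hM I hM₂ hreg hne
        (by omega)
      omega
    rw [hempty, finrank_bot]
    omega

end Pool.Agent.Work.MP_0421d9_ag.LD
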