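import Pool.Agent.Work.MP_0421d9_ag.MRank

/-!
Growth of the rank along a fibre of the blow-up of the plane at a point, for linear systems with
generic points of arbitrary multiplicities: forms of degree `D` and of degree less than `H` in
`X 2`, as `D` grows.
-/

namespace Pool.Agent.Work.MP_0421d9_ag.LD

open MvPolynomial Module

namespace Rkf

open Rk (cD_X' cD_C' vanishTo_cD_dir vanishTo_pderiv vanishTo_fixed vanishTo_dir vanishTo_moved rho
  rho_apply ex3_add single0 single1 single2 coeff_X_mul_of_eq coeff_X_mul_eq_zero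
  exists_of_coeff_X_mul rho_cD coeff_cD_ne exists_derivation_moving dir_two
  pderiv_two_coeff_ne eq_top_of_stable exists_div_X0)

section

variable {H N : ℕ} {k : Fin N → ℕ}

/-- the systems -/
noncomputable def V (H : ℕ) {N : ℕ} (k : Fin N → ℕ) (D : ℕ) : Submodule ℂ R3 :=
  TSm D {α | α 2 < H} k (gpt N)

/-- the ranks along the fibre -/
noncomputable def W (H : ℕ) {N : ℕ} (k : Fin N → ℕ) (D : ℕ) : Submodule ℂ (Fin H → ℂ) :=
  (V H k D).map (rho H D)

theorem mem_V {D : ℕ} {F : R3} : F ∈ V H k D ↔ F.IsHomogeneous D ∧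
    (∀ i, VanishTo F (gpt N i) (k i)) ∧ ∀ α, coeff α F ≠ 0 → α 2 < H := mem_TSm

/-- `V` in terms of the support -/
theorem mem_V' {D : ℕ} {F : R3} (h1 : ∀ α, coeff α F ≠ 0 →
    α.degree = D ∧ α 2 < H) (h2 : ∀ i, VanishTo F (gpt N i) (k i)) :
    F ∈ V H k D := by
  rw [mem_V]
  refine ⟨fun α hα => ?_, h2, fun α hα => (h1 α hα).2⟩
  have h3 := (h1 α hα).1
  rw [Finsupp.degree_eq_sum] at h3
  rw [Finsupp.weight_apply, Finsupp.sum_fintype]
  · simpa using h3
  · simp

theorem V_spec {D : ℕ} {F : R3} (hF : F ∈ V H k D) : ∀ α, coeff α F ≠ 0 →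
    α.degree = D ∧ α 2 < H := by
  intro α hα
  rw [mem_V] at hF
  exact ⟨degree_of_mem_support hF.1 hα, hF.2.2 α hα⟩

theorem finrank_V (D : ℕ) : finrank ℂ (V H k D) = hTm D {α | α 2 < H} k := rfl

instance finite_V (D : ℕ) : Module.Finite ℂ (V H k D) := finite_TSm _ _ _ _

theorem X1_mem {D : ℕ} {F : R3} (hF : F ∈ V H k D) :
    X 1 * F ∈ V H k (D + 1) := by
  refine mem_V' (fun α hα => ?_) (fun i => vanishTo_X_mul 1 ((mem_V.mp hF).2.1 i))
  obtain ⟨β, rfl, hβ⟩ := exists_of_coeff_X_mul hα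
  obtain ⟨h1, h2⟩ := V_spec hF β hβ
  rw [map_add, Finsupp.degree_single, Finsupp.add_apply,
    Finsupp.single_eq_of_ne (by decide)]
  omega

theorem degree_ex3 (a b c : ℕ) : (ex3 a b c).degree = a + b + c := by
  rw [degree_three, ex3_zero, ex3_one, ex3_two]

/-- multiplication by `X 1` does not change the values on the fibre -/
theorem rho_X1 {D : ℕ} {F : R3} (hF : ∀ α, coeff α F ≠ 0 → α.degree = D) :
    rho H (D + 1) (X 1 * F) = rho H D F := by
  funext c
  rw [rho_apply, rho_apply]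
  rcases Nat.lt_or_ge D c with h | h
  · have h1 : coeff (ex3 0 (D - c) c) F = 0 := by
      by_contra hcon
      have h2 := hF _ hcon
      rw [degree_ex3] at h2
      omega
    rw [h1]
    apply coeff_X_mul_eq_zero
    rw [ex3_one]
    omega
  · apply coeff_X_mul_of_eq
    rw [single1, ex3_add]
    congr 1
    omega

theorem W_le_succ {D : ℕ} : W H k D ≤ W H k (D + 1) := by
  rintro _ ⟨F, hF, rfl⟩
  exact ⟨X 1 * F, X1_mem hF, rho_X1 (fun α hα => (V_spec hF α hα).1)⟩

/-- a derivation which fixes all points -/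
theorem cD_fixed_mem {D : ℕ} {Δ : Derivation ℚ ℂ ℂ} (hΔ : ∀ i l, Δ (gpt N i l) = 0) {F : R3}
    (hF : F ∈ V H k D) : cD Δ F ∈ V H k D :=
  mem_V' (fun α hα => V_spec hF α (coeff_cD_ne hα))
    (fun i => vanishTo_fixed Δ (hΔ i) ((mem_V.mp hF).2.1 i))

/-- a derivation which moves only the point `j` -/
theorem cD_moved_mem {D : ℕ} {Δ : Derivation ℚ ℂ ℂ} {j : Fin N}
    (hΔ : ∀ i, i ≠ j → ∀ l, Δ (gpt N i l) = 0) {F : R3}
    (hF : F ∈ V H k D) :
    (C (gpt N j 1) * X 0 - C (gpt N j 0) * X 1) * cD Δ F ∈ V H k (D + 1) := by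
  have hV := (mem_V.mp hF).2.1
  refine mem_V' (fun α hα => ?_) (fun i => ?_)
  · have h1 : (C (gpt N j 1) * X 0 - C (gpt N j 0) * X 1) * cD Δ F =
        C (gpt N j 1) * (X 0 * cD Δ F) - C (gpt N j 0) * (X 1 * cD Δ F) := by ring
    rw [h1, coeff_sub, coeff_C_mul, coeff_C_mul] at hα
    have h2 : coeff α (X 0 * cD Δ F) ≠ 0 ∨ coeff α (X 1 * cD Δ F) ≠ 0 := by
      by_contra hcon
      push Not at hcon
      rw [hcon.1, hcon.2, mul_zero, mul_zero, sub_zero] at hα
      exact hα rfl
    rcases h2 with h2 | h2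
    · obtain ⟨β, rfl, hβ⟩ := exists_of_coeff_X_mul h2
      obtain ⟨h3, h4⟩ := V_spec hF β (coeff_cD_ne hβ)
      rw [map_add, Finsupp.degree_single, Finsupp.add_apply,
        Finsupp.single_eq_of_ne (by decide)]
      omega
    · obtain ⟨β, rfl, hβ⟩ := exists_of_coeff_X_mul h2
      obtain ⟨h3, h4⟩ := V_spec hF β (coeff_cD_ne hβ)
      rw [map_add, Finsupp.degree_single, Finsupp.add_apply,
        Finsupp.single_eq_of_ne (by decide)]
      omega
  · by_cases hi : i = j
    · subst hi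
      have h1 : VanishTo (C (gpt N i 1) * X 0 - C (gpt N i 0) * X 1) (gpt N i) 1 := by
        rw [vanishTo_one_iff', map_sub, map_mul, map_mul, eval_C, eval_C, eval_X, eval_X]
        ring
      exact (vanishTo_mul h1 (vanishTo_moved Δ (hV i))).mono (by omega)
    · have h1 := vanishTo_mul (vanishTo_zero (C (gpt N j 1) * X 0 - C (gpt N j 0) * X 1)
        (gpt N i)) (vanishTo_fixed Δ (hΔ i hi) (hV i))
      rwa [zero_add] at h1

theorem rho_moved {D : ℕ} (a b : ℂ) {G : R3} (hG : ∀ α, coeff α G ≠ 0 → α.degree = D) :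
    rho H (D + 1) ((C a * X 0 - C b * X 1) * G) = (-b) • rho H D G := by
  have h1 : (C a * X 0 - C b * X 1) * G = a • (X 0 * G) - b • (X 1 * G) := by
    rw [smul_eq_C_mul, smul_eq_C_mul]
    ring
  rw [h1, map_sub, map_smul, map_smul, rho_X1 hG]
  have h2 : rho H (D + 1) (X 0 * G) = 0 := by
    funext c
    rw [rho_apply, coeff_X_mul_eq_zero (ex3_zero _ _ _), Pi.zero_apply]
  rw [h2, smul_zero, zero_sub, neg_smul]

/-- every derivation maps `W D` to `W (D + 1)` -/
theorem deriv_mem {D : ℕ} (Δ : Derivation ℚ ℂ ℂ) {g : Fin H → ℂ}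
    (hg : g ∈ W H k D) : (fun c => Δ (g c)) ∈ W H k (D + 1) := by
  classical
  obtain ⟨E, hE⟩ := exists_dual (gpt N) (gpt_generic N)
  obtain ⟨F, hF, rfl⟩ := hg
  set Δj : Fin N → Derivation ℚ ℂ ℂ := fun j => mv E j (fun l => Δ (gpt N j l)) with hΔj
  set Δ0 : Derivation ℚ ℂ ℂ := Δ - ∑ j, Δj j with hΔ0
  have hval : ∀ j i l, Δj j (gpt N i l) = if i = j then Δ (gpt N i l) else 0 := by
    intro j i l
    split_ifs with h
    · subst h
      exact mv_self hE i _ l
    · exact mv_ne hE h _ l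
  have hsum : ∀ c : ℂ, (∑ j, Δj j) c = ∑ j, Δj j c := by
    intro c
    have h1 : ∀ s : Finset (Fin N), (∑ j ∈ s, Δj j) c = ∑ j ∈ s, Δj j c := by
      intro s
      induction s using Finset.induction_on with
      | empty => simp
      | insert a s ha ih =>
        rw [Finset.sum_insert ha, Finset.sum_insert ha, Derivation.add_apply, ih]
    exact h1 Finset.univ
  have h0 : ∀ i l, Δ0 (gpt N i l) = 0 := by
    intro i l
    rw [hΔ0, Derivation.sub_apply, hsum]
    have h1 : ∑ j, Δj j (gpt N i l) = Δ (gpt N i l) := by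
      rw [Finset.sum_eq_single i]
      · rw [hval, if_pos rfl]
      · intro j _ hj
        rw [hval, if_neg hj.symm]
      · intro h
        exact absurd (Finset.mem_univ i) h
    rw [h1, sub_self]
  have hdec : (fun c => Δ (rho H D F c)) =
      (fun c => Δ0 (rho H D F c)) + ∑ j, (fun c => Δj j (rho H D F c)) := by
    funext c
    rw [Pi.add_apply, Finset.sum_apply, hΔ0, Derivation.sub_apply, hsum]
    ring
  rw [hdec]
  refine Submodule.add_mem _ ?_ (Submodule.sum_mem _ fun j _ => ?_)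
  · apply W_le_succ
    exact ⟨cD Δ0 F, cD_fixed_mem h0 hF, rho_cD _ _ _⟩
  · have h1 : (C (gpt N j 1) * X 0 - C (gpt N j 0) * X 1) * cD (Δj j) F ∈ V H k (D + 1) :=
      cD_moved_mem (fun i hi l => by rw [hval, if_neg hi]) hF
    have h2 := Submodule.mem_map_of_mem (f := rho H (D + 1)) h1
    rw [rho_moved (D := D) _ _ (fun α hα => (V_spec hF α (coeff_cD_ne hα)).1), rho_cD] at h2
    have h3 := Submodule.smul_mem _ (-(gpt N j 0))⁻¹ h2
    rw [smul_smul, inv_mul_cancel₀ (neg_ne_zero.mpr (gpt_ne j 0)), one_smul] at h3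
    exact h3

theorem dn_mem {D : ℕ} {g : Fin H → ℂ} (hg : g ∈ W H k D) :
    Rk.dn g ∈ W H k (D + 1) := by
  have hg' := hg
  obtain ⟨F, hF, rfl⟩ := hg
  have hV := (mem_V.mp hF).2.1
  obtain ⟨Δ, hΔ⟩ := exists_derivation_moving (N := N) (fun i => gpt N i 1)
  have h1 : cD Δ F + X 1 * pderiv 2 F ∈ V H k D := by
    refine mem_V' (fun α hα => ?_) (fun i => ?_)
    · by_cases h2 : coeff α (cD Δ F) = 0
      · rw [coeff_add, h2, zero_add] at hα
        obtain ⟨β, rfl, hβ⟩ := exists_of_coeff_X_mul hα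
        obtain ⟨h3, h4⟩ := V_spec hF _ (pderiv_two_coeff_ne hβ)
        rw [map_add, Finsupp.degree_single] at h3
        rw [Finsupp.add_apply, Finsupp.single_eq_same] at h4
        rw [map_add, Finsupp.degree_single, Finsupp.add_apply,
          Finsupp.single_eq_of_ne (by decide)]
        omega
      · exact V_spec hF α (coeff_cD_ne h2)
    · have h2 := vanishTo_cD_dir Δ (hV i)
      rw [hΔ i, dir_two] at h2
      have h3 : VanishTo (X 1 - C (gpt N i 1)) (gpt N i) 1 := by
        rw [vanishTo_one_iff', map_sub, eval_X, eval_C, sub_self]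
      have h4 := (vanishTo_mul h3 (vanishTo_pderiv 2 (hV i))).mono (by omega : k i ≤ 1 + (k i - 1))
      have h5 := (vanSub (gpt N i) (k i)).add_mem h2 h4
      have h6 : cD Δ F + X 1 * pderiv 2 F = cD Δ F + C (gpt N i 1) * pderiv 2 F +
          (X 1 - C (gpt N i 1)) * pderiv 2 F := by ring
      rw [h6]
      exact h5
  have h2 := W_le_succ (Submodule.mem_map_of_mem (f := rho H D) h1)
  rw [map_add, rho_cD] at h2
  have h3 := Submodule.sub_mem _ h2 (deriv_mem Δ hg')
  rw [add_sub_cancel_left] at h3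
  have h4 : Rk.dn (rho H D F) = rho H D (X 1 * pderiv 2 F) := by
    funext c
    have hc := c.2
    rw [rho_apply]
    unfold Rk.dn
    split_ifs with h
    · rw [rho_apply]
      change _ * coeff (ex3 0 (D - (c + 1)) (c + 1)) F = _
      rcases Nat.lt_or_ge D (c + 1) with h5 | h5
      · have h6 : coeff (ex3 0 (D - (c + 1)) (c + 1)) F = 0 := by
          by_contra hcon
          have h7 := (V_spec hF _ hcon).1
          rw [degree_ex3] at h7
          omega
        rw [h6, mul_zero]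
        symm
        apply coeff_X_mul_eq_zero
        rw [ex3_one]
        omega
      · rw [coeff_X_mul_of_eq (β := ex3 0 (D - (c + 1)) c), coeff_pderiv]
        · rw [single2, ex3_add, ex3_two]
          simp only [Nat.add_zero]
          ring
        · rw [single1, ex3_add]
          congr 1
          omega
    · symm
      by_contra hcon
      obtain ⟨β, hβ, hβ'⟩ := exists_of_coeff_X_mul hcon
      obtain ⟨h5, h6⟩ := V_spec hF _ (pderiv_two_coeff_ne hβ')
      rw [Finsupp.add_apply, Finsupp.single_eq_same] at h6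
      have h8 := DFunLike.congr_fun hβ 2
      rw [ex3_two, Finsupp.add_apply, Finsupp.single_eq_of_ne (by decide)] at h8
      omega
  rw [h4]
  exact h3

theorem up_mem {D : ℕ} {g : Fin H → ℂ} (hg : g ∈ W H k D) :
    Rk.up g ∈ W H k (D + 1) := by
  have hg' := hg
  obtain ⟨F, hF, rfl⟩ := hg
  have hV := (mem_V.mp hF).2.1
  obtain ⟨Δ, hΔ⟩ := exists_derivation_moving (N := N) (fun i => gpt N i 2 ^ 2 / gpt N i 1)
  have h1 : X 1 * cD Δ F + X 2 * th 2 (H - 1) F ∈ V H k (D + 1) := by
    refine mem_V' (fun α hα => ?_) (fun i => ?_)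
    · by_cases h2 : coeff α (X 1 * cD Δ F) = 0
      · rw [coeff_add, h2, zero_add] at hα
        obtain ⟨β, rfl, hβ⟩ := exists_of_coeff_X_mul hα
        rw [coeff_th] at hβ
        obtain ⟨h3, h4⟩ := V_spec hF _ (right_ne_zero_of_mul hβ)
        have h6 : β 2 ≠ H - 1 := by
          intro h7
          apply left_ne_zero_of_mul hβ
          rw [h7, sub_self]
        rw [map_add, Finsupp.degree_single, Finsupp.add_apply,
          Finsupp.single_eq_same]
        omega
      · obtain ⟨β, rfl, hβ⟩ := exists_of_coeff_X_mul h2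
        obtain ⟨h3, h4⟩ := V_spec hF β (coeff_cD_ne hβ)
        rw [map_add, Finsupp.degree_single, Finsupp.add_apply,
          Finsupp.single_eq_of_ne (by decide)]
        omega
    · have h2 := vanishTo_cD_dir Δ (hV i)
      rw [hΔ i, dir_two] at h2
      have h2' := vanishTo_X_mul 1 h2
      have h3 : VanishTo (X 2 ^ 2 - C (gpt N i 2 ^ 2 / gpt N i 1) * X 1) (gpt N i) 1 := by
        rw [vanishTo_one_iff', map_sub, map_pow, map_mul, eval_X, eval_C, eval_X,
          div_mul_cancel₀ _ (gpt_ne i 1), sub_self]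
      have h4 := (vanishTo_mul h3 (vanishTo_pderiv 2 (hV i))).mono (by omega : k i ≤ 1 + (k i - 1))
      have h5 := vanishTo_mul (vanishTo_zero (C ((H - 1 : ℕ) : ℂ) * X 2) (gpt N i)) (hV i)
      rw [zero_add] at h5
      have h6 := (vanSub (gpt N i) (k i)).sub_mem ((vanSub (gpt N i) (k i)).add_mem h2' h4) h5
      have h7 : X 1 * cD Δ F + X 2 * th 2 (H - 1) F =
          X 1 * (cD Δ F + C (gpt N i 2 ^ 2 / gpt N i 1) * pderiv 2 F) +
          (X 2 ^ 2 - C (gpt N i 2 ^ 2 / gpt N i 1) * X 1) * pderiv 2 F -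
          C ((H - 1 : ℕ) : ℂ) * X 2 * F := by
        unfold LD.th
        ring
      rw [h7]
      exact h6
  have h2 := Submodule.mem_map_of_mem (f := rho H (D + 1)) h1
  rw [map_add, rho_X1 (D := D) (fun α hα => (V_spec hF α (coeff_cD_ne hα)).1), rho_cD] at h2
  have h3 := Submodule.sub_mem _ h2 (deriv_mem Δ hg')
  rw [add_sub_cancel_left] at h3
  have h4 : Rk.up (rho H D F) = rho H (D + 1) (X 2 * th 2 (H - 1) F) := by
    funext c
    have hc := c.2
    rw [rho_apply]
    unfold Rk.up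
    split_ifs with h
    · rw [coeff_X_mul_of_eq (β := ex3 0 (D - (c - 1)) (c - 1)), coeff_th, rho_apply,
        ex3_two]
      · congr 1
        obtain ⟨c', hc'⟩ : ∃ c', (c : ℕ) = c' + 1 := ⟨c - 1, by omega⟩
        obtain ⟨H', hH'⟩ : ∃ H', H = H' + 1 := ⟨H - 1, by omega⟩
        rw [hc', Nat.add_sub_cancel]
        rw [show H - 1 = H' by omega]
        rw [show (H : ℂ) = H' + 1 by rw [hH']; push_cast; rfl]
        push_cast
        ring
      · rw [single2, ex3_add]
        congr 1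
        · omega
        · omega
    · rw [coeff_X_mul_eq_zero]
      rw [ex3_two]
      omega
  rw [h4]
  exact h3

/-! ### the dimension of `W` -/

theorem finrank_ker (D : ℕ) :
    finrank ℂ ↥(V H k (D + 1) ⊓ LinearMap.ker (rho H (D + 1))) = hTm D {α | α 2 < H} k := by
  have hmap : V H k (D + 1) ⊓ LinearMap.ker (rho H (D + 1)) =
      (V H k D).map (LinearMap.mulLeft ℂ (X 0 : R3)) := by
    apply le_antisymm
    · rintro F ⟨hF, hF'⟩
      have hF2 := mem_V.mp hF
      obtain ⟨G, hG1, hG2, hG3⟩ := exists_div_X0 hF2.1 (fun α hα => by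
        by_contra hcon
        rw [MvPolynomial.mem_support_iff] at hα
        obtain ⟨h1, h2⟩ := V_spec hF α hα
        have h4 := congrFun (LinearMap.mem_ker.mp hF') ⟨α 2, h2⟩
        rw [rho_apply, Pi.zero_apply] at h4
        apply hα
        have h5 : ex3 0 (D + 1 - (⟨α 2, h2⟩ : Fin H)) (⟨α 2, h2⟩ : Fin H) = α := by
          conv_rhs => rw [eq_ex3 α]
          rw [degree_three] at h1
          change ex3 0 (D + 1 - α 2) (α 2) = _
          congr 1
          · omega
          · omega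
        rwa [h5] at h4)
      refine ⟨G, ?_, by rw [LinearMap.mulLeft_apply, hG2]⟩
      refine mem_V.mpr ⟨hG1, fun i => ?_, fun β hβ => ?_⟩
      · have h1 := hF2.2.1 i
        have h2 : (X 0 : R3) = lin ![1, 0, 0] := by
          unfold lin
          simp [Fin.sum_univ_three]
        rw [hG2, h2] at h1
        refine vanishTo_of_mul_ne h1 ?_
        rw [← h2, eval_X]
        exact gpt_ne i 0
      · rw [hG3] at hβ
        obtain ⟨h1, h2⟩ := V_spec hF _ hβ
        rw [Finsupp.add_apply, Finsupp.single_eq_of_ne (by decide), zero_add] at h2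
        exact h2
    · rintro _ ⟨G, hG, rfl⟩
      rw [LinearMap.mulLeft_apply]
      refine Submodule.mem_inf.mpr ⟨?_, ?_⟩
      · refine mem_V' (fun α hα => ?_) (fun i => vanishTo_X_mul 0 ((mem_V.mp hG).2.1 i))
        obtain ⟨β, rfl, hβ⟩ := exists_of_coeff_X_mul hα
        obtain ⟨h1, h2⟩ := V_spec hG β hβ
        rw [map_add, Finsupp.degree_single, Finsupp.add_apply,
          Finsupp.single_eq_of_ne (by decide)]
        omega
      · rw [LinearMap.mem_ker]
        funext c
        rw [rho_apply, coeff_X_mul_eq_zero (ex3_zero _ _ _), Pi.zero_apply]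
  rw [hmap, finrank_map_mulLeft (X_ne_zero _)]
  exact finrank_V D

end

end Rkf

/-- growth of the rank -/
theorem rank_growth_f {H N : ℕ} {k : Fin N → ℕ} : ∃ w : ℕ → ℕ,
    (∀ D, hTm (D + 1) {α | α 2 < H} k = hTm D {α | α 2 < H} k + w D) ∧ (∀ D, w D ≤ H) ∧
      (∀ D, w D ≤ w (D + 1)) ∧ ∀ D, 0 < w D → w D < H → w D < w (D + 1) := by
  refine ⟨fun D => finrank ℂ (Rkf.W H k (D + 1)), fun D => ?_, fun D => ?_, fun D => ?_,
    fun D h0 h1 => ?_⟩
  · have h1 := finrank_eq_ker_add_map (Rk.rho H (D + 1)) (Rkf.V H k (D + 1))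
    rw [Rkf.finrank_V, Rkf.finrank_ker] at h1
    exact h1
  · refine (Submodule.finrank_le _).trans ?_
    rw [finrank_fin_fun]
  · exact Submodule.finrank_mono Rkf.W_le_succ
  · have hle : Rkf.W H k (D + 1) ≤ Rkf.W H k (D + 1 + 1) := Rkf.W_le_succ
    refine lt_of_le_of_ne (Submodule.finrank_mono hle) (fun heq => ?_)
    have h2 : Rkf.W H k (D + 1) = Rkf.W H k (D + 1 + 1) := Submodule.eq_of_le_of_finrank_eq hle heq
    have h3 : Rkf.W H k (D + 1) ≠ ⊥ := by
      intro h4
      change 0 < finrank ℂ ↥(Rkf.W H k (D + 1)) at h0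
      rw [h4, finrank_bot] at h0
      exact absurd h0 (lt_irrefl 0)
    have h4 := Rk.eq_top_of_stable (Rkf.W H k (D + 1)) h3
      (fun g hg => by rw [h2]; exact Rkf.dn_mem hg)
      (fun g hg => by rw [h2]; exact Rkf.up_mem hg)
    change finrank ℂ ↥(Rkf.W H k (D + 1)) < H at h1
    rw [h4, finrank_top, finrank_fin_fun] at h1
    exact absurd h1 (lt_irrefl _)

end Pool.Agent.Work.MP_0421d9_ag.LD
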