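import Pool.Agent.Work.MP_0421d9_ag.FMas

/-!
The relative theorem with explicit numbers.
-/

namespace Pool.Agent.Work.MP_0421d9_ag.LD

open MvPolynomial Module

/-- **Relative theorem.** Let the points in `B` impose independent conditions in degree `D`, with
room for the points of multiplicity at most `u`. Then every system in degree `d ≥ D + 8 (u + 1) ^ 2`
which consists of these points and of arbitrarily many points of multiplicity at most `u` is
nonspecial. -/
theorem rel_clean {r u M D d : ℕ} {p : Fin r → V3} (hp : GenericPoints p) {m : Fin r → ℕ}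
    (B : Finset (Fin r)) (hM : ∀ i, m i ≤ M) (hu : 1 ≤ u) (huM : u ≤ M)
    (hms : ∀ i, i ∉ B → m i ≤ u) (hD : 4 * (u + 1) ^ 2 ≤ D)
    (hreg : finrank ℂ (linSys D p (fun i => if i ∈ B then m i else 0)) +
      ∑ i ∈ B, (m i + 1).choose 2 = (D + 2).choose 2)
    (hroom : ∑ i ∈ B, (m i + 1).choose 2 + 3 * (u * M) + (u + 1) * (D + 1) ≤ (D + 2).choose 2)
    (hd : D + 8 * (u + 1) ^ 2 ≤ d) :
    finrank ℂ (linSys d p m) = (d + 2).choose 2 - ∑ i, (m i + 1).choose 2 := by
  have h0 := le_sq_self' u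
  obtain ⟨s, hs⟩ : ∃ s, s = (u + 1) ^ 2 := ⟨_, rfl⟩
  have e0 : (u + 1) ^ 2 = u * u + 2 * u + 1 := by ring
  have hs2 : s = u * u + 2 * u + 1 := by rw [hs, e0]
  rw [← hs] at h0 hD
  have hmD : ∀ i, m i ≤ D := by
    intro i
    by_cases hi : i ∈ B
    · have h1 : (m i + 1).choose 2 ≤ ∑ i ∈ B, (m i + 1).choose 2 :=
        Finset.single_le_sum (f := fun l => (m l + 1).choose 2) (fun l _ => Nat.zero_le _) hi
      by_contra hcon
      have h2 : (D + 2).choose 2 ≤ (m i + 1).choose 2 := Nat.choose_le_choose 2 (by omega)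
      have h3 : 1 * 1 ≤ (u + 1) * (D + 1) := Nat.mul_le_mul (by omega) (by omega)
      omega
    · have := hms i hi
      omega
  have hc1 : (u + 1).choose 2 = u + u.choose 2 := by
    rw [Nat.choose_succ_succ' u 1, Nat.choose_one_right]
  have hc2 : 2 * (u + 1).choose 2 = u * (u + 1) := tr_two_choose u
  have e2 : u * (u + 1) = u * u + u := by ring
  obtain ⟨g, hg⟩ : ∃ g, g = (D + 1 - u - (u + 1).choose 2) / 2 := ⟨_, rfl⟩
  have hg3 : 3 * D ≤ 8 * g := by omega
  have hdc := tm_choose D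
  have huM' : u * min M D ≤ u * M := Nat.mul_le_mul_left u (min_le_left _ _)
  have e3 : (2 * u + 1) * (D + 1) + (D + 1) = 2 * ((u + 1) * (D + 1)) := by ring
  refine rel_main2 (M := min M D) (D₁ := D) (g := g) hp B hu (by omega)
    (fun i => le_min (hM i) (hmD i)) hms hreg (by omega) (by omega) (by omega) (by omega) ?_
  have hq : 8 * (u + 1) ≤ (d - D) / (u + 1) := by
    rw [Nat.le_div_iff_mul_le (by omega)]
    have e4 : 8 * (u + 1) * (u + 1) = 8 * (u + 1) ^ 2 := by ring
    omega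
  calc 3 * (u * min M D) ≤ 3 * (u * D) :=
        Nat.mul_le_mul_left 3 (Nat.mul_le_mul_left u (min_le_right _ _))
    _ = u * (3 * D) := by ring
    _ ≤ u * (8 * g) := Nat.mul_le_mul_left u hg3
    _ ≤ (u + 1) * (8 * g) := Nat.mul_le_mul_right _ (by omega)
    _ = g * (8 * (u + 1)) := by ring
    _ ≤ g * ((d - D) / (u + 1)) := Nat.mul_le_mul_left g hq

end Pool.Agent.Work.MP_0421d9_ag.LD
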