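import Pool.Agent.Work.MP_0421d9_ag.One69
import Pool.Agent.Work.MP_0421d9_ag.Cut69

/-!
A strip of monomials is cut into triangles, each of which is killed by one point.
-/

namespace Pool.Agent.Work.MP_0421d9_ag.LD

open MvPolynomial Module

/-- peeling off one piece -/
theorem Kills.peel {D u n : ℕ} {T T' : Set (Fin 3 →₀ ℕ)} (w : Fin 3 → ℕ) (c : ℕ)
    (hkill : ∀ G : R3, G.IsHomogeneous D → (∀ α ∈ G.support, α ∈ T ∧ wt3 w α ≤ c) →
      VanishTo G 1 u → G = 0)
    (hsub : ∀ α : Fin 3 →₀ ℕ, α ∈ T → ¬ wt3 w α ≤ c → α ∈ T')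
    (hK : Kills D u n T') : Kills D u (n + 1) T := by
  obtain ⟨p, hp, hK⟩ := hK
  let U : Submodule ℂ R3 :=
    { carrier := {F | F.IsHomogeneous D ∧ (∀ α ∈ F.support, α ∈ T) ∧ ∀ k, VanishTo F (p k) u}
      zero_mem' := ⟨isHomogeneous_zero _ _ _, by simp, fun k => (vanSub (p k) u).zero_mem⟩
      add_mem' := by
        rintro F G ⟨h1, h2, h3⟩ ⟨h4, h5, h6⟩
        refine ⟨h1.add h4, ?_, fun k => (vanSub (p k) u).add_mem (h3 k) (h6 k)⟩
        intro α hα
        rw [MvPolynomial.mem_support_iff, coeff_add] at hα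
        by_cases h7 : coeff α F = 0
        · rw [h7, zero_add] at hα
          exact h5 α (MvPolynomial.mem_support_iff.mpr hα)
        · exact h2 α (MvPolynomial.mem_support_iff.mpr h7)
      smul_mem' := by
        rintro a F ⟨h1, h2, h3⟩
        refine ⟨by rw [smul_eq_C_mul]; exact h1.C_mul a, ?_,
          fun k => (vanSub (p k) u).smul_mem a (h3 k)⟩
        intro α hα
        rw [MvPolynomial.mem_support_iff, coeff_smul, smul_eq_mul] at hα
        exact h2 α (MvPolynomial.mem_support_iff.mpr (right_ne_zero_of_mul hα)) }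
  have hU : ∀ F ∈ U, F.IsHomogeneous D ∧ ∀ α ∈ F.support, α ∈ T := fun F hF => ⟨hF.1, hF.2.1⟩
  obtain ⟨τ, hτ, hle⟩ := cut w c (κ := Unit) (fun _ => 1) (fun _ => u) T
    (fun G h1 h2 h3 => hkill G h1 h2 (h3 ())) U hU
  have hbot : U ⊓ offSub {α | wt3 w α ≤ c} = ⊥ := by
    rw [Submodule.eq_bot_iff]
    rintro F ⟨⟨h1, h2, h3⟩, h4⟩
    refine hK F h1 (fun α hα => ?_) h3
    refine hsub α (h2 α hα) (fun h5 => ?_)
    exact (MvPolynomial.mem_support_iff.mp hα) (h4 α h5)
  rw [hbot, finrank_bot, Nat.le_zero] at hle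
  have hUD : U ≤ Rd D := fun F hF => hF.1
  have hfin : Module.Finite ℂ
      ↥(U ⊓ ⨅ _ : Unit, vanSub (fun i => τ ^ w i * (1 : V3) i) u) :=
    Submodule.finiteDimensional_of_le (inf_le_left.trans hUD)
  have hbot2 := Submodule.finrank_eq_zero.mp hle
  refine ⟨Fin.snoc p (fun i => τ ^ w i * (1 : V3) i), ?_, ?_⟩
  · intro k i
    refine Fin.lastCases ?_ (fun k => ?_) k
    · rw [Fin.snoc_last]
      exact mul_ne_zero (pow_ne_zero _ hτ) one_ne_zero
    · rw [Fin.snoc_castSucc]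
      exact hp k i
  · intro G h1 h2 h3
    have h4 : G ∈ U ⊓ ⨅ _ : Unit, vanSub (fun i => τ ^ w i * (1 : V3) i) u := by
      rw [Submodule.mem_inf, Submodule.mem_iInf]
      refine ⟨⟨h1, h2, fun k => ?_⟩, fun _ => ?_⟩
      · have h5 := h3 (Fin.castSucc k)
        rw [Fin.snoc_castSucc] at h5
        exact h5
      · have h5 := h3 (Fin.last n)
        rw [Fin.snoc_last] at h5
        exact h5
    rw [hbot2, Submodule.mem_bot] at h4
    exact h4

theorem Kills.mono {D u n : ℕ} {T T' : Set (Fin 3 →₀ ℕ)} (hK : Kills D u n T')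
    (h : ∀ α : Fin 3 →₀ ℕ, α.degree = D → α ∈ T → α ∈ T') : Kills D u n T := by
  obtain ⟨p, hp, hK⟩ := hK
  refine ⟨p, hp, fun G h1 h2 h3 => hK G h1 (fun α hα => ?_) h3⟩
  exact h α (degree_of_mem_support h1 (MvPolynomial.mem_support_iff.mp hα)) (h2 α hα)

theorem deg_eq {G : R3} {D : ℕ} (hG : G.IsHomogeneous D) {α : Fin 3 →₀ ℕ} (hα : α ∈ G.support) :
    α 0 + α 1 + α 2 = D := by
  have h1 := degree_of_mem_support hG (MvPolynomial.mem_support_iff.mp hα)
  rw [Finsupp.degree_eq_sum, Fin.sum_univ_three] at h1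
  exact h1

theorem ext02 {G : R3} {D : ℕ} (hG : G.IsHomogeneous D) {α β : Fin 3 →₀ ℕ} (hα : α ∈ G.support)
    (hβ : β ∈ G.support) (h0 : α 0 = β 0) (h2 : α 2 = β 2) : α = β := by
  have h3 := deg_eq hG hα
  have h4 := deg_eq hG hβ
  ext i
  fin_cases i
  · exact h0
  · change α 1 = β 1
    omega
  · exact h2

theorem one_ne (i : Fin 3) : (1 : V3) i ≠ 0 := one_ne_zero

/-- the corner triangle on the right of the strip -/
theorem tri_right {G : R3} {D u : ℕ} (hG : G.IsHomogeneous D)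
    (hs : ∀ α ∈ G.support, α 1 + α 2 + 1 ≤ u) (hv : VanishTo G 1 u) : G = 0 := by
  refine one_point one_ne hv 0 2 (fun a => D - a + 1) (fun a => Finset.range (D - a + 1)) ?_ ?_ ?_
    ?_ ?_
  · intro α hα
    have h1 := hs α hα
    have h2 := deg_eq hG hα
    omega
  · intro α hα β hβ h
    have h2 := deg_eq hG hα
    have h3 := deg_eq hG hβ
    omega
  · intro α hα β hβ h0 h2
    exact ext02 hG hα hβ h0 h2
  · intro α hα
    have h2 := deg_eq hG hα
    rw [Finset.mem_range]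
    omega
  · intro α hα
    rw [Finset.card_range]

/-- the corner triangle with the corner `(R, 0)` -/
theorem tri_corner {G : R3} {D u R : ℕ} (hG : G.IsHomogeneous D)
    (hs : ∀ α ∈ G.support, α 0 ≤ R ∧ R + α 2 + 1 ≤ u + α 0) (hv : VanishTo G 1 u) : G = 0 := by
  refine one_point one_ne hv 0 2 (fun a => u - (R - a)) (fun a => Finset.range (u - (R - a)))
    ?_ ?_ ?_ ?_ ?_
  · intro α hα
    have h1 := hs α hα
    omega
  · intro α hα β hβ h
    have h1 := hs α hα
    have h2 := hs β hβ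
    omega
  · intro α hα β hβ h0 h2
    exact ext02 hG hα hβ h0 h2
  · intro α hα
    have h1 := hs α hα
    rw [Finset.mem_range]
    omega
  · intro α hα
    rw [Finset.card_range]

/-- the rest of a block of `u + 1` columns of height `u` -/
theorem rest_wide {G : R3} {D u R : ℕ} (hG : G.IsHomogeneous D) (hR : u ≤ R)
    (hs : ∀ α ∈ G.support, R ≤ α 0 + u ∧ α 0 ≤ R ∧ u + α 0 ≤ R + α 2 ∧ α 2 < u)
    (hv : VanishTo G 1 u) : G = 0 := by
  refine one_point one_ne hv 2 0 (fun c => c + 1) (fun c => Finset.Icc (R - u) (R - u + c))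
    ?_ ?_ ?_ ?_ ?_
  · intro α hα
    have h1 := hs α hα
    omega
  · intro α hα β hβ h
    omega
  · intro α hα β hβ h0 h2
    exact ext02 hG hα hβ h2 h0
  · intro α hα
    have h1 := hs α hα
    rw [Finset.mem_Icc]
    omega
  · intro α hα
    rw [Nat.card_Icc]
    omega

/-- the rest of a block of `u` columns of height `u + 1` -/
theorem rest_high {G : R3} {D u R : ℕ} (hG : G.IsHomogeneous D)
    (hs : ∀ α ∈ G.support, R + 1 ≤ α 0 + u ∧ α 0 ≤ R ∧ u + α 0 ≤ R + α 2 ∧ α 2 ≤ u)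
    (hv : VanishTo G 1 u) : G = 0 := by
  refine one_point one_ne hv 0 2 (fun a => R - a + 1) (fun a => Finset.Icc (u - (R - a)) u)
    ?_ ?_ ?_ ?_ ?_
  · intro α hα
    have h1 := hs α hα
    omega
  · intro α hα β hβ h
    have h1 := hs α hα
    have h2 := hs β hβ
    omega
  · intro α hα β hβ h0 h2
    exact ext02 hG hα hβ h0 h2
  · intro α hα
    have h1 := hs α hα
    rw [Finset.mem_Icc]
    omega
  · intro α hα
    have h1 := hs α hα
    rw [Nat.card_Icc]
    omega

/-- the part of the strip to the left of the column `R` -/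
def strip (D u A R : ℕ) : Set (Fin 3 →₀ ℕ) :=
  {α | α 0 + α 1 + α 2 = D ∧ α 0 < R ∧ (α 2 < u ∨ (α 2 = u ∧ α 0 < A))}

theorem wt011 (α : Fin 3 →₀ ℕ) : wt3 ![0, 1, 1] α = α 1 + α 2 := by
  unfold wt3
  rw [Fin.sum_univ_three]
  simp

theorem wt012 (α : Fin 3 →₀ ℕ) : wt3 ![0, 1, 2] α = α 1 + 2 * α 2 := by
  unfold wt3
  rw [Fin.sum_univ_three]
  simp

theorem step_high {D u A R n : ℕ} (hu : 1 ≤ u) (hA : R + u ≤ A) (hD : R + u ≤ D + 1)
    (hK : Kills D u n (strip D u A R)) : Kills D u (n + 2) (strip D u A (R + u)) := by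
  -- the corner is `R + u - 1`
  have h1 : Kills D u (n + 1)
      {α | α ∈ strip D u A (R + u) ∧ ¬ wt3 ![0, 1, 2] α ≤ D - (R + u - 1) + u - 1} := by
    refine Kills.peel (w := ![0, 1, 1]) (c := D - R) ?_ ?_ hK
    · intro G hG hs hv
      refine rest_high (R := R + u - 1) hG ?_ hv
      intro α hα
      obtain ⟨⟨⟨h2, h3, h4⟩, h5⟩, h6⟩ := hs α hα
      rw [wt012] at h5
      rw [wt011] at h6
      omega
    · intro α hα h2
      obtain ⟨⟨h3, h4, h5⟩, h6⟩ := hα
      rw [wt011] at h2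
      exact ⟨h3, by omega, h5⟩
  refine Kills.peel (w := ![0, 1, 2]) (c := D - (R + u - 1) + u - 1) ?_ ?_ h1
  · intro G hG hs hv
    refine tri_corner (R := R + u - 1) hG ?_ hv
    intro α hα
    obtain ⟨⟨h2, h3, h4⟩, h5⟩ := hs α hα
    rw [wt012] at h5
    omega
  · intro α hα h2
    exact ⟨hα, h2⟩

theorem step_wide {D u A R n : ℕ} (hu : 1 ≤ u) (hA : A ≤ R) (hD : R + u ≤ D)
    (hK : Kills D u n (strip D u A R)) : Kills D u (n + 2) (strip D u A (R + (u + 1))) := by
  -- the corner is `R + u`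
  have h1 : Kills D u (n + 1)
      {α | α ∈ strip D u A (R + (u + 1)) ∧ ¬ wt3 ![0, 1, 2] α ≤ D - (R + u) + u - 1} := by
    refine Kills.peel (w := ![0, 1, 1]) (c := D - R) ?_ ?_ hK
    · intro G hG hs hv
      refine rest_wide (R := R + u) hG (by omega) ?_ hv
      intro α hα
      obtain ⟨⟨⟨h2, h3, h4⟩, h5⟩, h6⟩ := hs α hα
      rw [wt012] at h5
      rw [wt011] at h6
      omega
    · intro α hα h2
      obtain ⟨⟨h3, h4, h5⟩, h6⟩ := hα
      rw [wt011] at h2
      exact ⟨h3, by omega, h5⟩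
  refine Kills.peel (w := ![0, 1, 2]) (c := D - (R + u) + u - 1) ?_ ?_ h1
  · intro G hG hs hv
    refine tri_corner (R := R + u) hG ?_ hv
    intro α hα
    obtain ⟨⟨h2, h3, h4⟩, h5⟩ := hs α hα
    rw [wt012] at h5
    omega
  · intro α hα h2
    exact ⟨hα, h2⟩

theorem kills_high {D u A : ℕ} (hu : 1 ≤ u) (j : ℕ) (hA : j * u ≤ A) (hD : j * u ≤ D + 1) :
    Kills D u (2 * j) (strip D u A (j * u)) := by
  induction j with
  | zero =>
    refine ⟨fun k => 1, fun k i => one_ne_zero, fun G _ h2 _ => ?_⟩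
    rw [← MvPolynomial.support_eq_empty, Finset.eq_empty_iff_forall_notMem]
    intro α hα
    obtain ⟨_, h3, _⟩ := h2 α hα
    omega
  | succ j ih =>
    have e : (j + 1) * u = j * u + u := by ring
    rw [e] at hA hD ⊢
    have e2 : 2 * (j + 1) = 2 * j + 2 := by ring
    rw [e2]
    exact step_high hu hA hD (ih (by omega) (by omega))

theorem kills_wide {D u A : ℕ} (hu : 1 ≤ u) (a j : ℕ) (hA : A = a * u)
    (hD : A + j * (u + 1) ≤ D + 1) :
    Kills D u (2 * (a + j)) (strip D u A (A + j * (u + 1))) := by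
  induction j with
  | zero =>
    rw [Nat.zero_mul, Nat.add_zero] at hD ⊢
    have h := kills_high (D := D) (A := A) hu a hA.ge (by omega)
    rw [← hA] at h
    exact h
  | succ j ih =>
    have e : A + (j + 1) * (u + 1) = A + j * (u + 1) + (u + 1) := by ring
    rw [e] at hD ⊢
    have e2 : 2 * (a + (j + 1)) = 2 * (a + j) + 2 := by ring
    rw [e2]
    exact step_wide hu (by omega) (by omega) (ih (by omega))

theorem kills_strip (u a b δ : ℕ) (hu : 1 ≤ u) (h : δ + 1 = a * u + b * (u + 1)) :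
    Kills (δ + u) u (2 * (a + b) + 1) {α | α 2 < u ∨ (α 2 = u ∧ α 0 < a * u)} := by
  have h1 := kills_wide (D := δ + u) (A := a * u) hu a b rfl (by omega)
  rw [← h] at h1
  have h2 : Kills (δ + u) u (2 * (a + b) + 1) (strip (δ + u) u (a * u) (δ + u + 1)) := by
    refine Kills.peel (w := ![0, 1, 1]) (c := u - 1) ?_ ?_ h1
    · intro G hG hs hv
      refine tri_right hG ?_ hv
      intro α hα
      obtain ⟨_, h5⟩ := hs α hα
      rw [wt011] at h5
      omega
    · intro α hα h2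
      obtain ⟨h3, h4, h5⟩ := hα
      rw [wt011] at h2
      exact ⟨h3, by omega, h5⟩
  refine h2.mono ?_
  intro α hα hT
  rw [Finsupp.degree_eq_sum, Fin.sum_univ_three] at hα
  exact ⟨hα, by omega, hT⟩

end Pool.Agent.Work.MP_0421d9_ag.LD
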