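import Pool.Agent.Work.MP_0421d9_ag.Upper5

/-!
Automorphisms of the complex numbers permuting generic points, and the resulting symmetry of the
dimensions of linear systems.
-/

set_option linter.unusedSectionVars false

namespace Pool.Agent.Work.MP_0421d9_ag

open MvPolynomial Module

/-- automorphisms of the complex numbers permuting generic points -/
theorem exists_auto {ι : Type} {p : ι → V3}
    (hp : AlgebraicIndependent ℚ (fun z : ι × Fin 3 => p z.1 z.2)) (π : Equiv.Perm ι) :
    ∃ σ : ℂ ≃+* ℂ, ∀ i k, σ (p i k) = p (π i) k := by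
  classical
  obtain ⟨t, ht, ht'⟩ := exists_isTranscendenceBasis_superset hp.coe_range
  let f : ι × Fin 3 → t := fun z => ⟨p z.1 z.2, ht ⟨z, rfl⟩⟩
  have hf : Function.Injective f := fun z z' h => hp.injective (congrArg Subtype.val h)
  let e₀ : Equiv.Perm (ι × Fin 3) := Equiv.prodCongr π (Equiv.refl _)
  let e : Equiv.Perm t := e₀.extendDomain (Equiv.ofInjective f hf)
  have he : ∀ z, e (f z) = f (e₀ z) := fun z =>
    Equiv.Perm.extendDomain_apply_image e₀ (Equiv.ofInjective f hf) z
  let _ := IsAlgClosed.isAlgClosure_of_transcendence_basis (Subtype.val : t → ℂ) ht'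
  let e1 : Algebra.adjoin ℚ (Set.range (Subtype.val : t → ℂ)) ≃+*
      Algebra.adjoin ℚ (Set.range (Subtype.val : t → ℂ)) :=
    (ht'.1.aevalEquiv.symm.toRingEquiv.trans
      (MvPolynomial.renameEquiv ℚ e).toRingEquiv).trans ht'.1.aevalEquiv.toRingEquiv
  have h1 : ∀ b : t, algebraMap (Algebra.adjoin ℚ (Set.range (Subtype.val : t → ℂ))) ℂ
      (ht'.1.aevalEquiv (X b)) = b := by
    intro b
    rw [ht'.1.algebraMap_aevalEquiv, aeval_X]
  refine ⟨IsAlgClosure.equivOfEquiv ℂ ℂ e1, fun i k => ?_⟩
  have h2 := h1 (f (i, k))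
  have h3 : (f (i, k) : ℂ) = p i k := rfl
  rw [← h3, ← h2, IsAlgClosure.equivOfEquiv_algebraMap]
  have h4 : e1 (ht'.1.aevalEquiv (X (f (i, k)))) = ht'.1.aevalEquiv (X (e (f (i, k)))) := by
    change ht'.1.aevalEquiv (MvPolynomial.renameEquiv ℚ e
      (ht'.1.aevalEquiv.symm (ht'.1.aevalEquiv (X (f (i, k)))))) = _
    rw [AlgEquiv.symm_apply_apply, renameEquiv_apply, rename_X]
  rw [h4, h1, he]
  rfl

section map

variable (σ : ℂ ≃+* ℂ)

theorem map_translate (a : V3) (F : R3) :
    map σ.toRingHom (translate a F) = translate (fun k => σ (a k)) (map σ.toRingHom F) := by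
  unfold translate
  induction F using MvPolynomial.induction_on with
  | C c => simp
  | add f g hf hg => rw [map_add, map_add, map_add, map_add, hf, hg]
  | mul_X f k hf => rw [map_mul, map_mul, map_mul, map_mul, hf]; simp

theorem map_component (n : ℕ) (F : R3) :
    homogeneousComponent n (map σ.toRingHom F) = map σ.toRingHom (homogeneousComponent n F) := by
  ext α
  rw [coeff_homogeneousComponent, coeff_map, coeff_map, coeff_homogeneousComponent]
  split_ifs
  · rfl
  · rw [map_zero]

theorem map_vanishTo {F : R3} {a : V3} {n : ℕ} (h : VanishTo F a n) :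
    VanishTo (map σ.toRingHom F) (fun k => σ (a k)) n := by
  intro k hk
  rw [← map_translate, map_component, h k hk, map_zero]

theorem map_mem_linSys {ι : Type} {d : ℕ} {p : ι → V3} {m : ι → ℕ} {F : R3}
    (h : F ∈ linSys d p m) : map σ.toRingHom F ∈ linSys d (fun i k => σ (p i k)) m :=
  ⟨h.1.map _, fun i => map_vanishTo σ (h.2 i)⟩

theorem map_map_symm (F : R3) : map σ.toRingHom (map σ.symm.toRingHom F) = F := by
  rw [map_map]
  have : σ.toRingHom.comp σ.symm.toRingHom = RingHom.id ℂ := by
    ext x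
    simp
  rw [this, map_id]

theorem map_symm_map (F : R3) : map σ.symm.toRingHom (map σ.toRingHom F) = F := by
  rw [map_map]
  have : σ.symm.toRingHom.comp σ.toRingHom = RingHom.id ℂ := by
    ext x
    simp
  rw [this, map_id]

theorem finrank_linSys_map {ι : Type} (d : ℕ) (p : ι → V3) (m : ι → ℕ) :
    finrank ℂ (linSys d p m) = finrank ℂ (linSys d (fun i k => σ (p i k)) m) := by
  have h1 : ∀ F ∈ linSys d (fun i k => σ (p i k)) m, map σ.symm.toRingHom F ∈ linSys d p m := by
    intro F hF
    have h2 := map_mem_linSys σ.symm hF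
    have h3 : (fun (i : ι) (k : Fin 3) => σ.symm (σ (p i k))) = p := by
      funext i k
      exact σ.symm_apply_apply _
    rwa [h3] at h2
  let j : linSys d p m ≃+ linSys d (fun i k => σ (p i k)) m :=
    { toFun := fun F => ⟨map σ.toRingHom F.1, map_mem_linSys σ F.2⟩
      invFun := fun F => ⟨map σ.symm.toRingHom F.1, h1 F.1 F.2⟩
      left_inv := fun F => Subtype.ext (map_symm_map σ F.1)
      right_inv := fun F => Subtype.ext (map_map_symm σ F.1)
      map_add' := fun F G => Subtype.ext (map_add _ F.1 G.1) }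
  have h2 := rank_eq_of_equiv_equiv (fun c : ℂ => σ c) j σ.bijective (by
    intro c F
    apply Subtype.ext
    change map σ.toRingHom (c • F.1) = σ c • map σ.toRingHom F.1
    rw [smul_eq_C_mul, smul_eq_C_mul, map_mul, map_C]
    rfl)
  unfold Module.finrank
  rw [h2]

theorem linSys_reindex {ι : Type} (d : ℕ) (p : ι → V3) (m : ι → ℕ) (π : Equiv.Perm ι) :
    linSys d (fun i => p (π i)) (fun i => m (π i)) = linSys d p m := by
  ext F
  constructor
  · rintro ⟨h1, h2⟩
    refine ⟨h1, fun i => ?_⟩
    have h3 := h2 (π.symm i)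
    simp only [Equiv.apply_symm_apply] at h3
    exact h3
  · rintro ⟨h1, h2⟩
    exact ⟨h1, fun i => h2 (π i)⟩

/-- symmetry -/
theorem finrank_linSys_perm {ι : Type} (d : ℕ) {p : ι → V3}
    (hp : AlgebraicIndependent ℚ (fun z : ι × Fin 3 => p z.1 z.2)) (m : ι → ℕ)
    (π : Equiv.Perm ι) :
    finrank ℂ (linSys d p (fun i => m (π i))) = finrank ℂ (linSys d p m) := by
  obtain ⟨σ, hσ⟩ := exists_auto hp π
  have h1 := finrank_linSys_map σ d p (fun i => m (π i))
  have h2 : (fun (i : ι) (k : Fin 3) => σ (p i k)) = fun i => p (π i) := by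
    funext i k
    exact hσ i k
  rw [h1, h2, linSys_reindex]

end map

end Pool.Agent.Work.MP_0421d9_ag
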