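import Pool.Agent.Work.MP_0421d9_ag.Cond69
import Pool.Agent.Work.MP_0421d9_ag.Unif1

/-!
Generic points give linear systems of the smallest dimension.
-/

namespace Pool.Agent.Work.MP_0421d9_ag.LD

open MvPolynomial Module

/-- on a line through a generic point almost all points are generic -/
theorem exists_line {σ : Type} [Finite σ] (x z : σ → ℂ) (hz : AlgebraicIndependent ℚ z)
    {S : Set ℂ} (hS : S.Countable) :
    ∃ t : ℂ, t ∉ S ∧ AlgebraicIndependent ℚ (fun i => x i + t * (z i - x i)) := by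
  classical
  let P : MvPolynomial σ ℚ → Polynomial ℂ := fun h =>
    aeval (fun i => Polynomial.C (x i) + Polynomial.X * Polynomial.C (z i - x i)) h
  have hP : ∀ h t, (P h).eval t = aeval (fun i => x i + t * (z i - x i)) h := by
    intro h t
    induction h using MvPolynomial.induction_on with
    | C c =>
      simp only [P, algHom_C]
      rw [IsScalarTower.algebraMap_apply ℚ ℂ (Polynomial ℂ)]
      simp
    | add f g hf hg =>
      simp only [P, map_add, Polynomial.eval_add] at *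
      rw [hf, hg]
    | mul_X f k hf =>
      simp only [P, map_mul, aeval_X, Polynomial.eval_mul] at *
      rw [hf]
      simp
  have hne : ∀ h, h ≠ 0 → P h ≠ 0 := by
    intro h hh h0
    apply hh
    have h1 := hP h 1
    rw [h0, Polynomial.eval_zero] at h1
    have h2 : (fun i => x i + 1 * (z i - x i)) = z := by
      funext i; ring
    rw [h2] at h1
    exact (algebraicIndependent_iff.mp hz) h h1.symm
  have hcM : Countable (MvPolynomial σ ℚ) := by
    rw [← Cardinal.mk_le_aleph0_iff]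
    refine (MvPolynomial.cardinalMk_le_max (σ := σ) (R := ℚ)).trans ?_
    simp only [max_le_iff]
    exact ⟨⟨Cardinal.mk_le_aleph0, Cardinal.mk_le_aleph0⟩, le_rfl⟩
  have hc : (⋃ h : {h : MvPolynomial σ ℚ // h ≠ 0}, {t : ℂ | (P h).eval t = 0}).Countable := by
    refine Set.countable_iUnion fun h => Set.Finite.countable ?_
    refine ((P h.1).roots.toFinset.finite_toSet).subset ?_
    intro t ht
    rw [Finset.mem_coe, Multiset.mem_toFinset, Polynomial.mem_roots (hne h.1 h.2)]
    exact ht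
  have hex : ∃ t : ℂ, t ∉ S ∪ ⋃ h : {h : MvPolynomial σ ℚ // h ≠ 0}, {t : ℂ | (P h).eval t = 0} := by
    by_contra hcon
    push Not at hcon
    exact not_countable_complex ((hS.union hc).mono fun t _ => hcon t)
  obtain ⟨t, ht⟩ := hex
  rw [Set.mem_union, not_or] at ht
  refine ⟨t, ht.1, ?_⟩
  rw [algebraicIndependent_iff]
  intro h h0
  by_contra hh
  apply ht.2
  rw [Set.mem_iUnion]
  refine ⟨⟨h, hh⟩, ?_⟩
  show (P h).eval t = 0
  rw [hP, h0]

theorem Sys_zero {r : ℕ} (D : ℕ) (y : Fin r → ℕ) (A : ℕ → ℕ) (p : Fin r → V3) (q v : ℕ → V3) :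
    Sys D y 0 A p q v = linSys D p y := by
  ext F
  rw [mem_Sys]
  constructor
  · rintro ⟨h1, h2, -⟩
    exact ⟨h1, h2⟩
  · rintro ⟨h1, h2⟩
    exact ⟨h1, h2, fun l hl => absurd hl (Nat.not_lt_zero l)⟩

theorem finrank_Sys_zero {r : ℕ} (D : ℕ) (y : Fin r → ℕ) (A : ℕ → ℕ) (p : Fin r → V3)
    (q v : ℕ → V3) : finrank ℂ (Sys D y 0 A p q v) = finrank ℂ (linSys D p y) := by
  rw [Sys_zero]

theorem generic_le {r : ℕ} {p : Fin r → V3} (hp : GenericPoints p) (d : ℕ) (y : Fin r → ℕ)
    (p₀ : Fin r → V3) : finrank ℂ (linSys d p y) ≤ finrank ℂ (linSys d p₀ y) := by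
  classical
  obtain ⟨c₁, hc₁⟩ := exists_extension (κ := Fin r) p hp
  obtain ⟨g, hg, h1⟩ := Sys_semicont d y 0 (fun _ => 0) p₀ c₁ (fun _ => 0) (fun _ => 0)
    (fun _ => 0) (fun _ => 0)
  simp only [finrank_Sys_zero] at h1
  obtain ⟨t, ht, hind⟩ := exists_line
    (fun z : (Fin r ⊕ Fin r) × Fin 3 => Sum.elim p p₀ z.1 z.2) _ hc₁
    (S := {t | g.eval t = 0}) (Set.Finite.countable (by
      refine (g.roots.toFinset.finite_toSet).subset ?_
      intro t ht
      rw [Finset.mem_coe, Multiset.mem_toFinset, Polynomial.mem_roots hg]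
      exact ht))
  have h2 := h1 t ht
  set c : Fin r → V3 := fun i k => p₀ i k + t * (c₁ i k - p₀ i k) with hc
  have h3 : (fun z : (Fin r ⊕ Fin r) × Fin 3 => (fun z : (Fin r ⊕ Fin r) × Fin 3 =>
      Sum.elim p p₀ z.1 z.2) z + t * ((fun z : (Fin r ⊕ Fin r) × Fin 3 =>
      Sum.elim p c₁ z.1 z.2) z - (fun z : (Fin r ⊕ Fin r) × Fin 3 => Sum.elim p p₀ z.1 z.2) z)) =
      fun z => Sum.elim p c z.1 z.2 := by
    funext z
    rcases z with ⟨i | i, k⟩
    · simp
    · simp [hc]
  rw [h3] at hind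
  obtain ⟨s, hs⟩ := exists_auto hind (Equiv.sumComm (Fin r) (Fin r))
  have h4 : (fun (i : Fin r) (k : Fin 3) => s (p i k)) = c := by
    funext i k
    exact hs (Sum.inl i) k
  rw [finrank_linSys_map s d p y, h4]
  exact h2

end Pool.Agent.Work.MP_0421d9_ag.LD
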