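import Pool.Agent.Work.MP_0421d9_ag.LD11
import Pool.Agent.Work.MP_0421d9_ag.Num69

/-!
Planar linear systems of degree at least `3 * M ^ 2` with generic base points of multiplicities at
most `M`: dimension (all degrees when there are enough points) and smoothness.
-/

set_option linter.unusedSectionVars false

namespace Pool.Agent.Work.MP_0421d9_ag

open MvPolynomial Module

/-- nonspeciality in all degrees when there are enough conditions -/
theorem nonspecial_of_many {r d M : ℕ} {p : Fin r → Fin 3 → ℂ} (hp : GenericPoints p)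
    {m : Fin r → ℕ} (hM : ∀ i, m i ≤ M)
    (h : (3 * M ^ 2 + 1).choose 2 + (M + 1).choose 3 ≤ ∑ i, (m i + 1).choose 2) :
    finrank ℂ (linSys d p m) = (d + 2).choose 2 - ∑ i, (m i + 1).choose 2 := by
  by_cases hd : 3 * M ^ 2 ≤ d
  · exact LD.main hp hM hd
  · have h1 : (d + 2).choose 2 ≤ (3 * M ^ 2 + 1).choose 2 := Nat.choose_le_choose 2 (by omega)
    rw [window_empty hp hM (by omega), finrank_bot]
    omega

/-- **Smoothness in large degree.** -/
theorem main_large_sq {r d M : ℕ} (p : Fin r → Fin 3 → ℂ) (hp : GenericPoints p) (m : Fin r → ℕ)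
    (hM : ∀ i, m i ≤ M) (hd : 3 * (M + 1) ^ 2 ≤ d)
    (I : Finset (Fin r)) (hI : I.card ≤ 3)
    (hχ : ∀ i ∉ I, 2 ≤ m i → ∑ j, (dropSimple m j + 1).choose 2 + m i < (d + 2).choose 2)
    (hne : linSys d p m ≠ ⊥) :
    (∃ F ∈ linSys d p m, Squarefree F) ∧
    finrank ℂ (linSys d p m) + ∑ i, (m i + 1).choose 2 = (d + 2).choose 2 ∧
    (∀ s : Fin (finrank ℂ (linSys d p m) - 1) → Fin 3 → ℂ, GenericPoints (Sum.elim p s) →
      ∀ F ∈ linSys d p m, F ≠ 0 → (∀ k, eval (s k) F = 0) → SmoothOnBlowup p m F) ∧
    (∃ F ∈ linSys d p m, F ≠ 0 ∧ SmoothOnBlowup p m F) := by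
  have hdM : ∀ i, dropSimple m i ≤ M := fun i => (dropSimple_le m i).trans (hM i)
  have h0 := LD.main (d := d) hp (M := M + 1) (fun i => (hdM i).trans (Nat.le_succ M)) hd
  have hcomp : ∀ i ∉ I, 2 ≤ m i → finrank ℂ (linSys d p (dropSimple m)) =
      finrank ℂ (linSys d p (Function.update (dropSimple m) i (m i + 1))) + (m i + 1) := by
    intro i hi hmi
    have hyi : dropSimple m i = m i := by
      unfold dropSimple
      rw [if_neg (by omega)]
    have h1 := LD.main (d := d) (M := M + 1)
      (m := Function.update (dropSimple m) i (m i + 1)) hp (fun j => by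
        by_cases hj : j = i
        · rw [hj, Function.update_self]
          have := hM i
          omega
        · rw [Function.update_of_ne hj]
          exact (hdM j).trans (Nat.le_succ M)) hd
    have h2 := sum_update_succ (dropSimple m) i
    rw [hyi] at h2
    have h6 := hχ i hi hmi
    rw [h0, h1, h2]
    omega
  refine complete_final p hp m I hI (fun i hi h => hcomp i hi (by omega))
    (Or.inr ⟨hne, fun i _ j _ _ => ?_, fun i hi h => hcomp i hi (by omega)⟩)
  have h4 : 2 * M ≤ 3 * (M + 1) ^ 2 := by nlinarith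
  have h5 := hM i
  have h6 := hM j
  omega

end Pool.Agent.Work.MP_0421d9_ag
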