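import Pool.Agent.Work.MP_0421d9_ag.MFinal
import Pool.Agent.Work.MP_0421d9_ag.LE1

/-!
Systems with arbitrary multiplicities at most `M` in degrees `d` with `d ^ 2 ≥ 14400 M ^ 3`:
all degrees when there are enough conditions, and smoothness of the general member.
-/

set_option linter.unusedSectionVars false

namespace Pool.Agent.Work.MP_0421d9_ag

open MvPolynomial Module

/-- if the number of conditions is at least `7400 * M ^ 3`, then the degree is large or the system
is empty -/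
theorem window_of_many {r d M : ℕ} {p : Fin r → Fin 3 → ℂ} (hp : GenericPoints p)
    {m : Fin r → ℕ} (hM : ∀ i, m i ≤ M) (h : 7400 * M ^ 3 ≤ ∑ i, (m i + 1).choose 2)
    (hd : ¬ 14400 * M ^ 3 ≤ d ^ 2) :
    linSys d p m = ⊥ ∧ (d + 2).choose 2 ≤ ∑ i, (m i + 1).choose 2 := by
  push Not at hd
  have hM1 : 1 ≤ M := by
    by_contra hcon
    have h0 : M = 0 := by omega
    subst h0
    simp at hd
  have h1 : (M + 1).choose 3 ≤ M ^ 3 := by
    obtain ⟨k, rfl⟩ : ∃ k, M = k + 1 := ⟨M - 1, by omega⟩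
    have h2 := Nat.descFactorial_eq_factorial_mul_choose (k + 1 + 1) 3
    have h3 : (k + 1 + 1).descFactorial 3 = k * ((k + 1) * (k + 2)) := by
      simp [Nat.descFactorial]
    have h4 : Nat.factorial 3 = 6 := rfl
    rw [h3, h4] at h2
    have h5 : k * ((k + 1) * (k + 2)) ≤ 6 * (k + 1) ^ 3 := by
      calc k * ((k + 1) * (k + 2)) ≤ (k + 1) * ((k + 1) * (6 * (k + 1))) :=
            Nat.mul_le_mul (by omega) (Nat.mul_le_mul le_rfl (by omega))
        _ = 6 * (k + 1) ^ 3 := by ring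
    omega
  have h2 : 2 * (d + 2).choose 2 = (d + 1) * (d + 2) := two_mul_choose_two d
  have h3 : d ≤ 120 * M ^ 3 := by
    by_contra hcon
    push Not at hcon
    have h4 : (120 * M ^ 3) ^ 2 ≤ d ^ 2 := Nat.pow_le_pow_left hcon.le 2
    have h5 : M ^ 3 ≤ M ^ 3 * M ^ 3 := Nat.le_mul_of_pos_left _ (by positivity)
    nlinarith
  have h4 : 1 ≤ M ^ 3 := Nat.one_le_pow _ _ hM1
  have h5 : (d + 2).choose 2 + (M + 1).choose 3 ≤ ∑ i, (m i + 1).choose 2 := by
    nlinarith
  exact ⟨window_empty hp hM h5, by omega⟩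

/-- nonspeciality in all degrees when there are enough conditions -/
theorem mixed_of_many {r d M : ℕ} {p : Fin r → Fin 3 → ℂ} (hp : GenericPoints p)
    {m : Fin r → ℕ} (hM : ∀ i, m i ≤ M)
    (h : 14400 * M ^ 3 ≤ d ^ 2 ∨ 7400 * M ^ 3 ≤ ∑ i, (m i + 1).choose 2) :
    finrank ℂ (linSys d p m) = (d + 2).choose 2 - ∑ i, (m i + 1).choose 2 := by
  by_cases hd : 14400 * M ^ 3 ≤ d ^ 2
  · exact LD.mixed_main hp hM hd
  · rcases h with h | h
    · exact absurd h hd
    · obtain ⟨h1, h2⟩ := window_of_many hp hM h hd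
      rw [h1, finrank_bot]
      omega

/-- **Smoothness in large degree.** -/
theorem mixed_large_sq {r d M : ℕ} (p : Fin r → Fin 3 → ℂ) (hp : GenericPoints p) (m : Fin r → ℕ)
    (hM : ∀ i, m i ≤ M)
    (hd : 14400 * (M + 1) ^ 3 ≤ d ^ 2 ∨ 7400 * (M + 1) ^ 3 ≤ ∑ i, (m i + 1).choose 2)
    (I : Finset (Fin r)) (hI : I.card ≤ 3)
    (hχ : ∀ i ∉ I, 2 ≤ m i → ∑ j, (dropSimple m j + 1).choose 2 + m i < (d + 2).choose 2)
    (hne : linSys d p m ≠ ⊥) :
    (∃ F ∈ linSys d p m, Squarefree F) ∧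
    finrank ℂ (linSys d p m) + ∑ i, (m i + 1).choose 2 = (d + 2).choose 2 ∧
    (∀ s : Fin (finrank ℂ (linSys d p m) - 1) → Fin 3 → ℂ, GenericPoints (Sum.elim p s) →
      ∀ F ∈ linSys d p m, F ≠ 0 → (∀ k, eval (s k) F = 0) → SmoothOnBlowup p m F) ∧
    (∃ F ∈ linSys d p m, F ≠ 0 ∧ SmoothOnBlowup p m F) := by
  have hd' : 14400 * (M + 1) ^ 3 ≤ d ^ 2 := by
    by_contra hcon
    rcases hd with hd | hd
    · exact hcon hd
    · exact hne (window_of_many hp (fun i => (hM i).trans (Nat.le_succ M)) hd hcon).1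
  have hdM : ∀ i, dropSimple m i ≤ M := fun i => (dropSimple_le m i).trans (hM i)
  have h0 := LD.mixed_main (d := d) hp (M := M + 1) (fun i => (hdM i).trans (Nat.le_succ M)) hd'
  have hcomp : ∀ i ∉ I, 2 ≤ m i → finrank ℂ (linSys d p (dropSimple m)) =
      finrank ℂ (linSys d p (Function.update (dropSimple m) i (m i + 1))) + (m i + 1) := by
    intro i hi hmi
    have hyi : dropSimple m i = m i := by
      unfold dropSimple
      rw [if_neg (by omega)]
    have h1 := LD.mixed_main (d := d) (M := M + 1)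
      (m := Function.update (dropSimple m) i (m i + 1)) hp (fun j => by
        by_cases hj : j = i
        · rw [hj, Function.update_self]
          have := hM i
          omega
        · rw [Function.update_of_ne hj]
          exact (hdM j).trans (Nat.le_succ M)) hd'
    have h2 := sum_update_succ (dropSimple m) i
    rw [hyi] at h2
    have h6 := hχ i hi hmi
    rw [h0, h1, h2]
    omega
  refine complete_final p hp m I hI (fun i hi h => hcomp i hi (by omega))
    (Or.inr ⟨hne, fun i _ j _ _ => ?_, fun i hi h => hcomp i hi (by omega)⟩)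
  have h4 : 2 * M ≤ d := by
    by_contra hcon
    push Not at hcon
    have h5 : d ^ 2 < (2 * M) ^ 2 := Nat.pow_lt_pow_left hcon (by norm_num)
    have h6 : (2 * M) ^ 2 ≤ 14400 * (M + 1) ^ 3 := by
      have h7 : M ^ 2 ≤ (M + 1) ^ 3 := by
        calc M ^ 2 ≤ (M + 1) ^ 2 := Nat.pow_le_pow_left (Nat.le_succ M) 2
          _ ≤ (M + 1) ^ 3 := Nat.pow_le_pow_right (by omega) (by norm_num)
      nlinarith
    omega
  have h5 := hM i
  have h6 := hM j
  omega

end Pool.Agent.Work.MP_0421d9_ag
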