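import Pool.Agent.Work.MP_0421d9_ag.SPos1

/-!
Base point freeness and separation properties of large generic systems.
-/

set_option linter.unusedSectionVars false

namespace Pool.Agent.Work.MP_0421d9_ag.SM

open MvPolynomial Module

/-- the parametrisation of the inverse system of a nonspecial system is injective -/
theorem Psi_eq_zero {ι : Type} [Fintype ι] [DecidableEq ι] {d : ℕ} {p : ι → V3} {m : ι → ℕ}
    (hm : ∀ i, m i ≤ d + 1)
    (h : finrank ℂ (linSys d p m) + ∑ i, (m i + 1).choose 2 ≤ (d + 2).choose 2) {G : ι → R3}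
    (hG : ∀ i, G i ∈ Hm (m i)) (h0 : ∑ i, lin (p i) ^ (d + 1 - m i) * G i = 0) (i : ι) :
    G i = 0 := by
  let e : (HH m) ≃ₗ[ℂ] (∀ i, Hm (m i)) :=
    { toFun := fun G i => ⟨G.1 i, mem_HH.mp G.2 i⟩
      invFun := fun G => ⟨fun i => (G i).1, mem_HH.mpr fun i => (G i).2⟩
      left_inv := fun _ => rfl
      right_inv := fun _ => rfl
      map_add' := fun _ _ => rfl
      map_smul' := fun _ _ => rfl }
  have hf : Module.Finite ℂ (HH m) := Module.Finite.equiv e.symm
  have h1 := LinearMap.finrank_range_add_finrank_ker ((Psi d p m).domRestrict (HH m))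
  have h2 : LinearMap.range ((Psi d p m).domRestrict (HH m)) = J d p m := by
    rw [LinearMap.range_domRestrict]
    rfl
  rw [h2, finrank_HH] at h1
  have h3 := finrank_linSys_add (p := p) hm
  have h4 : finrank ℂ (LinearMap.ker ((Psi d p m).domRestrict (HH m))) = 0 := by omega
  have h5 := Submodule.finrank_eq_zero.mp h4
  have h6 : (⟨G, mem_HH.mpr hG⟩ : HH m) ∈ LinearMap.ker ((Psi d p m).domRestrict (HH m)) := by
    rw [LinearMap.mem_ker, LinearMap.domRestrict_apply, Psi_apply]
    exact h0
  rw [h5, Submodule.mem_bot] at h6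
  exact congrFun (congrArg Subtype.val h6) i

/-- the part at the point `p j` of an element of the inverse system -/
theorem dvd_of_mem_J {ι : Type} [Fintype ι] [DecidableEq ι] {d : ℕ} {p : ι → V3} {m : ι → ℕ}
    (j : ι) (hm : ∀ i, m i ≤ d)
    (h : finrank ℂ (linSys d p (Function.update m j (m j + 1))) +
      ∑ i, (Function.update m j (m j + 1) i + 1).choose 2 ≤ (d + 2).choose 2)
    {Q : R3} (hQ : Q.IsHomogeneous (m j)) (hJ : lin (p j) ^ (d - m j) * Q ∈ J d p m) :
    lin (p j) ∣ Q := by
  obtain ⟨G, hG, hsum⟩ := mem_J.mp hJ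
  have hm' : ∀ i, Function.update m j (m j + 1) i ≤ d + 1 := by
    intro i
    by_cases hi : i = j
    · rw [hi, Function.update_self]
      have := hm j
      omega
    · rw [Function.update_of_ne hi]
      have := hm i
      omega
  have hGm : ∀ i, Function.update (fun i => - G i) j (Q - lin (p j) * G j) i ∈
      Hm (Function.update m j (m j + 1) i) := by
    intro i
    by_cases hi : i = j
    · rw [hi, Function.update_self, Function.update_self]
      refine Submodule.sub_mem _ (mem_Hm_succ.mpr hQ) ?_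
      have := mul_mem_Hm_succ (lin_isHomogeneous (p j)) (hG j)
      exact this
    · rw [Function.update_of_ne hi, Function.update_of_ne hi]
      exact Submodule.neg_mem _ (hG i)
  have h0 : ∑ i, lin (p i) ^ (d + 1 - Function.update m j (m j + 1) i) *
      Function.update (fun i => - G i) j (Q - lin (p j) * G j) i = 0 := by
    rw [← Finset.add_sum_erase _ _ (Finset.mem_univ j), Function.update_self,
      Function.update_self]
    rw [← Finset.add_sum_erase _ _ (Finset.mem_univ j)] at hsum
    have h1 : ∑ x ∈ Finset.univ.erase j, lin (p x) ^ (d + 1 - Function.update m j (m j + 1) x) *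
        Function.update (fun i => - G i) j (Q - lin (p j) * G j) x =
        - ∑ x ∈ Finset.univ.erase j, lin (p x) ^ (d + 1 - m x) * G x := by
      rw [← Finset.sum_neg_distrib]
      refine Finset.sum_congr rfl (fun i hi => ?_)
      have hi' := Finset.ne_of_mem_erase hi
      rw [Function.update_of_ne hi', Function.update_of_ne hi', mul_neg]
    rw [h1, eq_sub_of_add_eq' hsum]
    have h2 : d + 1 - m j = (d - m j) + 1 := by
      have := hm j
      omega
    have h3 : d + 1 - (m j + 1) = d - m j := by omega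
    rw [h2, h3, pow_succ]
    ring
  have h4 := Psi_eq_zero hm' h hGm h0 j
  rw [Function.update_self] at h4
  exact ⟨G j, sub_eq_zero.mp h4⟩

theorem p2_pow_pred_mul (A : R3) {n : ℕ} (hn : 1 ≤ n) : A ^ n = A ^ (n - 1) * A := by
  rw [← pow_succ, Nat.sub_add_cancel hn]

section move

variable {ι : Type} [Fintype ι] [DecidableEq ι] {n : ℕ} {p : ι → V3} {y : ι → ℕ} {x : V3}
  {E : ι → Fin 3 → Derivation ℚ ℂ ℂ}

theorem move_mem (hE : IsDual p E) {G : ι → R3} (hG : ∀ i, G i ∈ Hm (y i))
    (h : ∑ i, lin (p i) ^ (n + 1 - y i) * G i = lin x ^ n) (i : ι) (w : V3) :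
    C (n : ℂ) * (lin x ^ (n - 1) * lin (fun k => mv E i w (x k))) -
      lin (p i) ^ (n - y i) * (C ((n + 1 - y i : ℕ) : ℂ) * (lin w * G i)) ∈ J n p y := by
  have h1 := congrArg (cD (mv E i w)) h
  rw [map_sum, cD_pow, cD_lin] at h1
  rw [← h1, mem_J]
  refine ⟨fun j => cD (mv E i w) (G j), fun j => cD_mem_Hm _ (hG j), ?_⟩
  rw [eq_sub_iff_add_eq]
  have h2 : ∀ j, cD (mv E i w) (lin (p j) ^ (n + 1 - y j) * G j) =
      lin (p j) ^ (n + 1 - y j) * cD (mv E i w) (G j) +
      (if j = i then lin (p i) ^ (n - y i) * (C ((n + 1 - y i : ℕ) : ℂ) * (lin w * G i))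
        else 0) := by
    intro j
    rw [cD_mul]
    split_ifs with hj
    · rw [hj, cD_pow, cD_lin_self hE, (by omega : n + 1 - y i - 1 = n - y i)]
      ring
    · rw [cD_lin_pow_ne hE hj, zero_mul, zero_add, add_zero]
  rw [Finset.sum_congr rfl (fun j _ => h2 j), Finset.sum_add_distrib,
    Finset.sum_ite_eq' Finset.univ i, if_pos (Finset.mem_univ i)]

/-- the derivations moving one point move `x` in all directions -/
theorem move_surj (hE : IsDual p E) (hy : ∀ i, y i ≤ n) {G : ι → R3}
    (hG : ∀ i, G i ∈ Hm (y i)) (hx : x ≠ 0)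
    (h : ∑ i, lin (p i) ^ (n + 1 - y i) * G i = lin x ^ n) (i : ι) (hGi : ¬ lin (p i) ∣ G i)
    (hdim : finrank ℂ (linSys n p (Function.update y i (y i + 1))) +
      ∑ k, (Function.update y i (y i + 1) k + 1).choose 2 ≤ (n + 2).choose 2) (v : V3) :
    ∃ (w : V3) (c : ℂ), ∀ k, v k = mv E i w (x k) + c * x k := by
  have hpi := gp1 hE i
  have hyi : 1 ≤ y i := by
    by_contra hcon
    have h0 : y i = 0 := by omega
    have := hG i
    rw [h0, mem_Hm_zero] at this
    rw [this] at hGi
    exact hGi (dvd_zero _)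
  have hGh : (G i).IsHomogeneous (y i - 1) := by
    have := hG i
    rw [(by omega : y i = (y i - 1) + 1), mem_Hm_succ] at this
    exact this
  have key : ∀ (w : V3) (c : ℂ), (∀ k, mv E i w (x k) = c * x k) → cr (p i) w = 0 := by
    intro w c hw
    have h1 := move_mem hE hG h i w
    have h2 : (fun k => mv E i w (x k)) = c • x := funext hw
    rw [h2, lin_smul] at h1
    by_contra hcr
    have h3 : C (n : ℂ) * (lin x ^ (n - 1) * (C c * lin x)) ∈ J n p y := by
      have hn : 1 ≤ n := hyi.trans (hy i)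
      have h4 : C (n : ℂ) * (lin x ^ (n - 1) * (C c * lin x)) = ((n : ℂ) * c) • lin x ^ n := by
        rw [smul_eq_C_mul, C_mul, p2_pow_pred_mul (lin x) hn]
        ring
      rw [h4]
      exact Submodule.smul_mem _ _ (mem_J.mpr ⟨G, hG, h⟩)
    have h4 := Submodule.sub_mem _ h3 h1
    rw [sub_sub_cancel] at h4
    have h5 := dvd_of_mem_J i hy hdim (Q := C ((n + 1 - y i : ℕ) : ℂ) * (lin w * G i)) (by
      have := ((lin_isHomogeneous w).mul hGh).C_mul ((n + 1 - y i : ℕ) : ℂ)
      rwa [(by omega : 1 + (y i - 1) = y i)] at this) h4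
    have h6 : ((n + 1 - y i : ℕ) : ℂ) ≠ 0 := by
      have := hy i
      exact_mod_cast (by omega : n + 1 - y i ≠ 0)
    have h7 : IsUnit (C ((n + 1 - y i : ℕ) : ℂ) : R3) := (isUnit_iff_ne_zero.mpr h6).map C
    rw [h7.dvd_mul_left] at h5
    exact hGi (lin_dvd_of_mul hpi hcr h5)
  -- linear algebra
  let f : (V3 × ℂ) →ₗ[ℂ] V3 :=
    { toFun := fun z k => mv E i z.1 (x k) + z.2 * x k
      map_add' := fun z z' => by
        funext k
        simp only [Prod.fst_add, Prod.snd_add, Pi.add_apply, mv_add]
        ring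
      map_smul' := fun a z => by
        funext k
        simp only [Prod.smul_fst, Prod.smul_snd, Pi.smul_apply, smul_eq_mul, mv_smul,
          RingHom.id_apply]
        ring }
  have hf : ∀ z k, f z k = mv E i z.1 (x k) + z.2 * x k := fun z k => rfl
  have hker : finrank ℂ (LinearMap.ker f) ≤ 1 := by
    have h1 : Function.Injective ((LinearMap.fst ℂ V3 ℂ).domRestrict (LinearMap.ker f)) := by
      rw [injective_iff_map_eq_zero]
      rintro ⟨z, hz⟩ hz0
      rw [LinearMap.domRestrict_apply, LinearMap.fst_apply] at hz0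
      have hz' := LinearMap.mem_ker.mp hz
      obtain ⟨k, hk⟩ : ∃ k, x k ≠ 0 := by
        by_contra hcon
        push Not at hcon
        exact hx (funext hcon)
      have h2 := congrFun hz' k
      have h3 : mv E i (0 : V3) (x k) = 0 := by
        have := mv_smul E i 0 (0 : V3) (x k)
        rwa [zero_mul, smul_zero] at this
      have hz0' : z.1 = 0 := hz0
      rw [hf, hz0', h3, zero_add] at h2
      have h4 : z.2 = 0 := (mul_eq_zero.mp h2).resolve_right hk
      exact Subtype.ext (Prod.ext hz0' h4)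
    have h2 := LinearMap.finrank_range_of_inj h1
    rw [← h2]
    have h3 : LinearMap.range ((LinearMap.fst ℂ V3 ℂ).domRestrict (LinearMap.ker f)) ≤
        Submodule.span ℂ {p i} := by
      rintro _ ⟨⟨z, hz⟩, rfl⟩
      rw [LinearMap.domRestrict_apply, LinearMap.fst_apply]
      have hz' := LinearMap.mem_ker.mp hz
      have h4 := key z.1 (- z.2) (fun k => by
        have := congrFun hz' k
        rw [hf] at this
        rw [eq_neg_of_add_eq_zero_left this]
        ring)
      obtain ⟨s, hs⟩ := exists_smul_of_cr_eq_zero hpi h4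
      rw [Submodule.mem_span_singleton]
      exact ⟨s, hs.symm⟩
    exact (Submodule.finrank_mono h3).trans (finrank_span_singleton hpi).le
  have hrange : LinearMap.range f = ⊤ := by
    apply Submodule.eq_top_of_finrank_eq
    apply le_antisymm (Submodule.finrank_le _)
    have h1 := LinearMap.finrank_range_add_finrank_ker f
    rw [Module.finrank_prod, Module.finrank_fin_fun, Module.finrank_self] at h1
    rw [Module.finrank_fin_fun]
    omega
  obtain ⟨z, hz⟩ : v ∈ LinearMap.range f := hrange ▸ Submodule.mem_top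
  exact ⟨z.1, z.2, fun k => by rw [← hz, hf]⟩

/-- two points cannot contribute effectively to the expression of a power -/
theorem move_two (hE : IsDual p E) (hy : ∀ i, y i ≤ n) {G : ι → R3}
    (hG : ∀ i, G i ∈ Hm (y i)) (hx : x ≠ 0)
    (h : ∑ i, lin (p i) ^ (n + 1 - y i) * G i = lin x ^ n) {i j : ι} (hij : i ≠ j)
    (hyj : y j + 1 ≤ n)
    (hGi : ¬ lin (p i) ∣ G i) (hGj : ¬ lin (p j) ∣ G j)
    (hdj : finrank ℂ (linSys n p (Function.update y j (y j + 1))) +
      ∑ k, (Function.update y j (y j + 1) k + 1).choose 2 ≤ (n + 2).choose 2)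
    (hdij : finrank ℂ (linSys n p (Function.update (Function.update y j (y j + 1)) i (y i + 1))) +
      ∑ k, (Function.update (Function.update y j (y j + 1)) i (y i + 1) k + 1).choose 2 ≤
        (n + 2).choose 2) : False := by
  have hpi := gp1 hE i
  have hyi : 1 ≤ y i := by
    by_contra hcon
    have h0 : y i = 0 := by omega
    have := hG i
    rw [h0, mem_Hm_zero] at this
    rw [this] at hGi
    exact hGi (dvd_zero _)
  have hGh : (G i).IsHomogeneous (y i - 1) := by
    have := hG i
    rw [(by omega : y i = (y i - 1) + 1), mem_Hm_succ] at this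
    exact this
  -- a direction independent of `p i`
  obtain ⟨w, hw⟩ : ∃ w, cr (p i) w ≠ 0 := ⟨p j, gp2 hE hij⟩
  obtain ⟨w', c, hv⟩ := move_surj hE hy hG hx h j hGj hdj (fun k => mv E i w (x k))
  have h1 := move_mem hE hG h i w
  have h2 := move_mem hE hG h j w'
  have hle : J n p y ≤ J n p (Function.update y j (y j + 1)) := by
    intro A hA
    obtain ⟨G', hG', rfl⟩ := mem_J.mp hA
    rw [mem_J]
    refine ⟨Function.update G' j (lin (p j) * G' j), fun k => ?_, ?_⟩
    · by_cases hk : k = j
      · rw [hk, Function.update_self, Function.update_self]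
        exact mul_mem_Hm_succ (lin_isHomogeneous (p j)) (hG' j)
      · rw [Function.update_of_ne hk, Function.update_of_ne hk]
        exact hG' k
    · refine Finset.sum_congr rfl (fun k _ => ?_)
      by_cases hk : k = j
      · rw [hk, Function.update_self, Function.update_self,
          (by omega : n + 1 - y j = (n + 1 - (y j + 1)) + 1), pow_succ]
        ring
      · rw [Function.update_of_ne hk, Function.update_of_ne hk]
  have h3 : C (n : ℂ) * (lin x ^ (n - 1) * lin (fun k => mv E i w (x k))) ∈
      J n p (Function.update y j (y j + 1)) := by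
    have hn : 1 ≤ n := hyi.trans (hy i)
    have h4 : (fun k => mv E i w (x k)) = (fun k => mv E j w' (x k)) + c • x := by
      funext k
      rw [hv k]
      rfl
    have h5 : C (n : ℂ) * (lin x ^ (n - 1) * lin (fun k => mv E i w (x k))) =
        (C (n : ℂ) * (lin x ^ (n - 1) * lin (fun k => mv E j w' (x k))) -
          lin (p j) ^ (n - y j) * (C ((n + 1 - y j : ℕ) : ℂ) * (lin w' * G j))) +
        lin (p j) ^ (n - y j) * (C ((n + 1 - y j : ℕ) : ℂ) * (lin w' * G j)) +
        ((n : ℂ) * c) • lin x ^ n := by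
      rw [h4, lin_add, lin_smul, smul_eq_C_mul, C_mul, p2_pow_pred_mul (lin x) hn]
      ring
    rw [h5]
    refine Submodule.add_mem _ (Submodule.add_mem _ (hle h2) ?_)
      (Submodule.smul_mem _ _ (hle (mem_J.mpr ⟨G, hG, h⟩)))
    have h6 := summand_mem_J (d := n) (p := p) (m := Function.update y j (y j + 1)) j
      (G := C ((n + 1 - y j : ℕ) : ℂ) * (lin w' * G j)) (by
        rw [Function.update_self]
        have := mul_mem_Hm_succ (lin_isHomogeneous w') (hG j)
        rw [← smul_eq_C_mul]
        exact Submodule.smul_mem _ _ this)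
    rw [Function.update_self, (by omega : n + 1 - (y j + 1) = n - y j)] at h6
    exact h6
  have h4 := Submodule.sub_mem _ h3 (hle h1)
  rw [sub_sub_cancel] at h4
  have hyi' : Function.update y j (y j + 1) i = y i := Function.update_of_ne hij _ _
  rw [← hyi'] at hdij
  have h5 := dvd_of_mem_J (m := Function.update y j (y j + 1)) i (fun k => by
      by_cases hk : k = j
      · rw [hk, Function.update_self]
        exact hyj
      · rw [Function.update_of_ne hk]
        exact hy k) hdij (Q := C ((n + 1 - y i : ℕ) : ℂ) * (lin w * G i)) (by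
      rw [hyi']
      have := ((lin_isHomogeneous w).mul hGh).C_mul ((n + 1 - y i : ℕ) : ℂ)
      rwa [(by omega : 1 + (y i - 1) = y i)] at this) (by
      rw [hyi']
      exact h4)
  have h6 : ((n + 1 - y i : ℕ) : ℂ) ≠ 0 := by
    have := hy i
    exact_mod_cast (by omega : n + 1 - y i ≠ 0)
  have h7 : IsUnit (C ((n + 1 - y i : ℕ) : ℂ) : R3) := (isUnit_iff_ne_zero.mpr h6).map C
  rw [h7.dvd_mul_left] at h5
  exact hGi (lin_dvd_of_mul hpi hw h5)

end move

theorem finrank_gen {ι : Type} [Fintype ι] {n M : ℕ} {p : ι → V3}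
    (hp : AlgebraicIndependent ℚ (fun z : ι × Fin 3 => p z.1 z.2)) {y : ι → ℕ}
    (hy : ∀ i, y i ≤ M) (hn : 3 * M ^ 2 ≤ n) :
    finrank ℂ (linSys n p y) = (n + 2).choose 2 - ∑ i, (y i + 1).choose 2 := by
  let e : ι ≃ Fin (Fintype.card ι) := Fintype.equivFin ι
  have h1 : GenericPoints (fun k => p (e.symm k)) := by
    have := hp.comp (fun z : Fin (Fintype.card ι) × Fin 3 => (e.symm z.1, z.2))
      (fun z z' h => by
        rw [Prod.mk.injEq] at h
        exact Prod.ext (e.symm.injective h.1) h.2)
    exact this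
  have h2 := LD.main h1 (m := fun k => y (e.symm k)) (fun k => hy _) hn
  have h3 : linSys n (fun k => p (e.symm k)) (fun k => y (e.symm k)) = linSys n p y := by
    ext F
    constructor
    · rintro ⟨hF, hv⟩
      refine ⟨hF, fun i => ?_⟩
      have := hv (e i)
      simpa only [Equiv.symm_apply_apply] using this
    · rintro ⟨hF, hv⟩
      exact ⟨hF, fun k => hv _⟩
  rw [h3] at h2
  rw [h2]
  congr 1
  exact e.symm.sum_comp (fun i => (y i + 1).choose 2)

/-- the power of a linear form is not in the inverse system -/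
theorem not_mem_J {ι : Type} [Fintype ι] [DecidableEq ι] {n M : ℕ} {p : ι → V3}
    {E : ι → Fin 3 → Derivation ℚ ℂ ℂ} (hE : IsDual p E)
    (hp : AlgebraicIndependent ℚ (fun z : ι × Fin 3 => p z.1 z.2))
    (hn : 3 * (M + 2) ^ 2 ≤ n) {x : V3} (hx : x ≠ 0) (hxp : ∀ i, cr (p i) x ≠ 0) :
    ∀ (N : ℕ) (y : ι → ℕ), (∀ i, y i ≤ M) → ∑ i, y i ≤ N →
      ∑ i, (y i + 1).choose 2 + (2 * M + 2) ≤ (n + 2).choose 2 → lin x ^ n ∉ J n p y := by
  intro N
  induction N with
  | zero =>
    intro y _ hN _ hJ
    obtain ⟨G, hG, hsum⟩ := mem_J.mp hJ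
    have h1 : lin x ^ n = 0 := by
      rw [← hsum]
      refine Finset.sum_eq_zero (fun i _ => ?_)
      have h2 : y i = 0 := by
        have := Finset.single_le_sum (f := y) (fun i _ => Nat.zero_le (y i)) (Finset.mem_univ i)
        omega
      have h3 := hG i
      rw [h2, mem_Hm_zero] at h3
      rw [h3, mul_zero]
    exact hx (lin_eq_zero.mp (eq_zero_of_pow_eq_zero h1))
  | succ N ih =>
    intro y hy hN hχ hJ
    obtain ⟨G, hG, hsum⟩ := mem_J.mp hJ
    have hMn : M + 1 ≤ n := by nlinarith
    have hyn : ∀ i, y i ≤ n := fun i => (hy i).trans (by omega)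
    by_cases hA : ∃ i, 1 ≤ y i ∧ lin (p i) ∣ G i
    · obtain ⟨i, hi1, hi2⟩ := hA
      obtain ⟨g, hg, hGg⟩ : ∃ g, g ∈ Hm (y i - 1) ∧ G i = lin (p i) * g := by
        by_cases h0 : G i = 0
        · exact ⟨0, zero_mem _, by rw [h0, mul_zero]⟩
        · have h1 : (G i).IsHomogeneous (y i - 1) := by
            have := hG i
            rw [(by omega : y i = (y i - 1) + 1), mem_Hm_succ] at this
            exact this
          obtain ⟨e, g, hd, hg, hGg⟩ := exists_factor h1 h0 hi2
          refine ⟨g, ?_, hGg⟩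
          rw [hd, mem_Hm_succ]
          exact hg
      refine ih (Function.update y i (y i - 1)) (fun k => ?_) ?_ ?_ ?_
      · by_cases hk : k = i
        · rw [hk, Function.update_self]
          have := hy i
          omega
        · rw [Function.update_of_ne hk]
          exact hy k
      · rw [← Finset.add_sum_erase _ _ (Finset.mem_univ i), Function.update_self]
        rw [← Finset.add_sum_erase _ _ (Finset.mem_univ i)] at hN
        have h1 : ∑ k ∈ Finset.univ.erase i, Function.update y i (y i - 1) k =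
            ∑ k ∈ Finset.univ.erase i, y k := Finset.sum_congr rfl (fun k hk => by
          rw [Function.update_of_ne (Finset.ne_of_mem_erase hk)])
        omega
      · refine le_trans (Nat.add_le_add_right (Finset.sum_le_sum (fun k _ => ?_)) _) hχ
        apply Nat.choose_le_choose
        by_cases hk : k = i
        · rw [hk, Function.update_self]
          omega
        · rw [Function.update_of_ne hk]
      · rw [mem_J]
        refine ⟨Function.update G i g, fun k => ?_, ?_⟩
        · by_cases hk : k = i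
          · rw [hk, Function.update_self, Function.update_self]
            exact hg
          · rw [Function.update_of_ne hk, Function.update_of_ne hk]
            exact hG k
        · rw [← hsum]
          refine Finset.sum_congr rfl (fun k _ => ?_)
          by_cases hk : k = i
          · rw [hk, Function.update_self, Function.update_self, hGg,
              (by have := hyn i; omega : n + 1 - (y i - 1) = (n + 1 - y i) + 1), pow_succ]
            ring
          · rw [Function.update_of_ne hk, Function.update_of_ne hk]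
    · push Not at hA
      have hdim : ∀ y' : ι → ℕ, (∀ i, y' i ≤ M + 1) →
          ∑ i, (y' i + 1).choose 2 ≤ (n + 2).choose 2 →
          finrank ℂ (linSys n p y') + ∑ i, (y' i + 1).choose 2 ≤ (n + 2).choose 2 := by
        intro y' h1 h2
        rw [finrank_gen hp h1 (by nlinarith)]
        omega
      by_cases hB : ∃ i, 1 ≤ y i
      · obtain ⟨i, hi⟩ := hB
        have hGi := hA i hi
        have hC : ∀ j, j ≠ i → G j = 0 := by
          intro j hji
          by_contra hGj0
          have hj : 1 ≤ y j := by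
            by_contra hcon
            have h0 : y j = 0 := by omega
            have := hG j
            rw [h0, mem_Hm_zero] at this
            exact hGj0 this
          have hGj := hA j hj
          have hyi := hy i
          have hyj := hy j
          have hs1 := sum_update_succ y j
          have hs2 := sum_update_succ (Function.update y j (y j + 1)) i
          have hyi' : Function.update y j (y j + 1) i = y i := Function.update_of_ne hji.symm _ _
          rw [hyi'] at hs2
          refine move_two hE hyn hG hx hsum (Ne.symm hji) (by omega) hGi hGj ?_ ?_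
          · apply hdim
            · intro k
              by_cases hk : k = j
              · rw [hk, Function.update_self]
                omega
              · rw [Function.update_of_ne hk]
                have := hy k
                omega
            · omega
          · apply hdim
            · intro k
              by_cases hk : k = i
              · rw [hk, Function.update_self]
                omega
              · rw [Function.update_of_ne hk]
                by_cases hk' : k = j
                · rw [hk', Function.update_self]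
                  omega
                · rw [Function.update_of_ne hk']
                  have := hy k
                  omega
            · omega
        rw [Finset.sum_eq_single i (fun j _ hj => by rw [hC j hj, mul_zero])
          (fun h => absurd (Finset.mem_univ i) h)] at hsum
        have h1 : lin (p i) ∣ lin x ^ n := by
          rw [← hsum, (by have := hyn i; omega : n + 1 - y i = (n - y i) + 1), pow_succ]
          exact ⟨lin (p i) ^ (n - y i) * G i, by ring⟩
        exact hxp i (lin_dvd_lin ((lin_prime (gp1 hE i)).dvd_of_dvd_pow h1))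
      · push Not at hB
        refine ih y hy ?_ hχ hJ
        rw [Finset.sum_eq_zero (fun i _ => by have := hB i; omega)]
        exact Nat.zero_le _

/-- base point freeness, generic points -/
theorem bpf {ι : Type} [Fintype ι] [DecidableEq ι] [Nonempty ι] {n M : ℕ} {p : ι → V3}
    (hp : AlgebraicIndependent ℚ (fun z : ι × Fin 3 => p z.1 z.2)) {y : ι → ℕ}
    (hy : ∀ i, y i ≤ M) (hn : 3 * (M + 2) ^ 2 ≤ n)
    (hχ : ∑ i, (y i + 1).choose 2 + (3 * M + 4) ≤ (n + 2).choose 2)
    {x : V3} (hx : x ≠ 0) (hxp : ∀ i, cr (p i) x ≠ 0) :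
    ∃ H ∈ linSys n p y, eval x H ≠ 0 := by
  obtain ⟨E, hE⟩ := exists_dual p hp
  by_contra hcon
  push Not at hcon
  refine not_mem_J hE hp hn hx hxp _ y hy le_rfl (by omega) ?_
  apply mem_J_of_B (fun i => by have := hy i; nlinarith) (lin_isHomogeneous_pow x n)
  intro F hF
  rw [B_lin_pow hF.1, hcon F hF, mul_zero]
theorem p2_eval_subM (A : Matrix (Fin 3) (Fin 3) ℂ) (x : V3) (F : R3) :
    eval x (LD.subM A F) = eval (A.mulVec x) F := by
  induction F using MvPolynomial.induction_on with
  | C c => rw [LD.subM_C, eval_C, eval_C]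
  | add f g hf hg => rw [map_add, map_add, map_add, hf, hg]
  | mul_X f k hf => rw [map_mul, map_mul, map_mul, hf, LD.subM_X, LD.eval_lin_row, eval_X]

theorem p2_cr_mulVec {A B' : Matrix (Fin 3) (Fin 3) ℂ} (hBA : B' * A = 1) {u v : V3} (hu : u ≠ 0)
    (h : cr u v ≠ 0) : cr (A.mulVec u) (A.mulVec v) ≠ 0 := by
  intro h0
  have h1 : ∀ z : V3, B'.mulVec (A.mulVec z) = z := fun z => by
    rw [Matrix.mulVec_mulVec, hBA, Matrix.one_mulVec]
  have h2 : A.mulVec u ≠ 0 := by
    intro h3
    apply hu
    rw [← h1 u, h3, Matrix.mulVec_zero]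
  obtain ⟨s, hs⟩ := exists_smul_of_cr_eq_zero h2 h0
  apply h
  have h3 : v = s • u := by
    rw [← h1 v, hs, Matrix.mulVec_smul, h1 u]
  rw [h3]
  exact cr_smul_self s u

theorem p2_subM_linSys {ι : Type} {A : Matrix (Fin 3) (Fin 3) ℂ} {n : ℕ} {q : ι → V3} {y : ι → ℕ}
    {F : R3} (h : F ∈ linSys n (fun i => A.mulVec (q i)) y) : LD.subM A F ∈ linSys n q y :=
  ⟨LD.subM_isHomogeneous A h.1, fun i => LD.vanishTo_subM A (h.2 i)⟩

theorem p2_fl_ne_zero (c : ℂ) : fl c ≠ 0 := by
  intro h
  have := congrFun h 1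
  simp [fl] at this

/-- base point freeness, two points on the line `z = 0` -/
theorem sep1 {ι : Type} [Fintype ι] [DecidableEq ι] {n M : ℕ} {p : ι → V3} {c : Fin 2 → ℂ}
    (hx : Ind p c) {y : ι ⊕ Fin 2 → ℕ} (hy : ∀ i, y i ≤ M) (hn : 3 * (M + 2) ^ 2 ≤ n)
    (hχ : ∑ i, (y i + 1).choose 2 + (3 * M + 4) ≤ (n + 2).choose 2)
    {x : V3} (hx0 : x ≠ 0) (hxp : ∀ i, cr (p i) x ≠ 0) (hxc : ∀ j, cr (fl (c j)) x ≠ 0) :
    ∃ H ∈ linSys n (Sum.elim p (fun j => fl (c j))) y, eval x H ≠ 0 := by
  obtain ⟨A, B', hAB, hBA, hind⟩ := flags_position hx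
  have hp0 : ∀ i, Sum.elim p (fun j => fl (c j)) i ≠ 0 := by
    rintro (i | j)
    · intro h
      apply hxp i
      have : p i = 0 := h
      rw [this]
      ext l
      fin_cases l <;> simp [cr]
    · exact p2_fl_ne_zero (c j)
  have h1 : ∀ i, cr (A.mulVec (Sum.elim p (fun j => fl (c j)) i)) (A.mulVec x) ≠ 0 := by
    intro i
    refine p2_cr_mulVec hBA (hp0 i) ?_
    rcases i with i | j
    · exact hxp i
    · exact hxc j
  have h2 : A.mulVec x ≠ 0 := by
    intro h3
    apply hx0
    rw [← Matrix.one_mulVec x, ← hBA, ← Matrix.mulVec_mulVec, h3, Matrix.mulVec_zero]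
  obtain ⟨H, hH, hHx⟩ := bpf (p := fun z => A.mulVec (Sum.elim p (fun j => fl (c j)) z)) hind hy
    hn hχ h2 h1
  exact ⟨LD.subM A H, p2_subM_linSys hH, by rw [p2_eval_subM]; exact hHx⟩

/-- separation of tangent directions -/
theorem sep2 {ι : Type} [Fintype ι] [DecidableEq ι] {n M : ℕ} {p : ι → V3} {c : Fin 2 → ℂ}
    (hx : Ind p c) {y : ι ⊕ Fin 2 → ℕ} (hy : ∀ i, y i ≤ M) (hn : 3 * (M + 2) ^ 2 ≤ n)
    (hχ : ∑ i, (y i + 1).choose 2 + (3 * M + 4) ≤ (n + 2).choose 2)
    (i : ι) {v : V3} (hv : cr (p i) v ≠ 0) :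
    ∃ H ∈ linSys n (Sum.elim p (fun j => fl (c j))) y,
      B (lin (p i) ^ (n - y (Sum.inl i)) * lin v ^ y (Sum.inl i)) H ≠ 0 := by
  by_contra hcon
  push Not at hcon
  have hMn : M ≤ n := by nlinarith
  have hyn : ∀ i, y i ≤ n := fun i => (hy i).trans hMn
  have h1 : lin (p i) ^ (n - y (Sum.inl i)) * lin v ^ y (Sum.inl i) ∈
      J n (Sum.elim p (fun j => fl (c j))) y := by
    refine mem_J_of_B (fun k => (hyn k).trans (Nat.le_succ n)) ?_ hcon
    have h2 := (lin_isHomogeneous_pow (p i) (n - y (Sum.inl i))).mul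
      (lin_isHomogeneous_pow v (y (Sum.inl i)))
    rwa [Nat.sub_add_cancel (hyn _)] at h2
  have h2 := sum_update_succ y (Sum.inl i)
  have hyi := hy (Sum.inl i)
  have h3 := dvd_of_mem_J (p := Sum.elim p (fun j => fl (c j))) (Sum.inl i) hyn (by
    rw [finrank_flags hx (M := M + 1) (fun k => by
      by_cases hk : k = Sum.inl i
      · rw [hk, Function.update_self]
        omega
      · rw [Function.update_of_ne hk]
        have := hy k
        omega) (by nlinarith)]
    omega) (lin_isHomogeneous_pow v (y (Sum.inl i))) h1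
  have hp0 : p i ≠ 0 := by
    intro h
    apply hv
    rw [h]
    ext l
    fin_cases l <;> simp [cr]
  exact hv (lin_dvd_lin ((lin_prime hp0).dvd_of_dvd_pow h3))

theorem p2_B_X_pow_mul (k : Fin 3) (i : ℕ) (A f : R3) :
    B (A * X k ^ i) f = B A ((pderiv k)^[i] f) := by
  induction i generalizing f with
  | zero => rw [pow_zero, mul_one, Function.iterate_zero, id]
  | succ i ih =>
    rw [Function.iterate_succ_apply, ← ih, ← B_X_mul]
    congr 2
    ring

theorem p2_pderiv_iterate_isHomogeneous (k : Fin 3) (i : ℕ) {f : R3} {n : ℕ}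
    (hf : f.IsHomogeneous n) : ((pderiv k)^[i] f).IsHomogeneous (n - i) := by
  induction i generalizing f n with
  | zero => exact hf
  | succ i ih =>
    rw [Function.iterate_succ_apply]
    have := ih (hf.pderiv (i := k))
    rwa [(by omega : n - 1 - i = n - (i + 1))] at this

theorem B_fder (c : ℂ) (i : ℕ) {H : R3} {n : ℕ} (hH : H.IsHomogeneous n) :
    B (lin (fl c) ^ (n - i) * X 0 ^ i) H = (n - i).factorial * fder c i H := by
  rw [p2_B_X_pow_mul, B_lin_pow (p2_pderiv_iterate_isHomogeneous 0 i hH)]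
  rfl

/-- a member with assigned contact with the line `z = 0`, smooth there -/
theorem sep3 {ι : Type} [Fintype ι] [DecidableEq ι] {n M u : ℕ} {p : ι → V3} {c : Fin 2 → ℂ}
    (hx : Ind p c) {y : ι → ℕ} (hy : ∀ i, y i ≤ M) (hu : u ≤ M) (hn : 3 * (M + 2) ^ 2 ≤ n)
    (hχ : ∑ i, (y i + 1).choose 2 + (u + 2).choose 2 ≤ (n + 2).choose 2) (hu1 : 1 ≤ u) :
    ∃ H ∈ linSys n p y, (∀ i < u, fder (c 0) i H = 0) ∧ eval (fl (c 0)) (pderiv 2 H) ≠ 0 := by
  by_contra hcon
  push Not at hcon
  have hMn : M + 1 ≤ n := by nlinarith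
  have hyn : ∀ i, y i ≤ n := fun i => (hy i).trans (by omega)
  set a := fl (c 0) with ha
  let V := linSys n p y
  let L : Fin u → (V →ₗ[ℂ] ℂ) := fun i => (B (lin a ^ (n - i) * X 0 ^ (i : ℕ))) ∘ₗ V.subtype
  let K : V →ₗ[ℂ] ℂ := (B (lin a ^ (n - 1) * X 2 ^ 1)) ∘ₗ V.subtype
  have h1 : ⨅ i, LinearMap.ker (L i) ≤ LinearMap.ker K := by
    intro H hH
    rw [Submodule.mem_iInf] at hH
    rw [LinearMap.mem_ker]
    have h2 : ∀ i < u, fder (c 0) i H.1 = 0 := by
      intro i hi
      have h3 := LinearMap.mem_ker.mp (hH ⟨i, hi⟩)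
      have h4 : B (lin (fl (c 0)) ^ (n - i) * X 0 ^ i) H.1 = 0 := h3
      rw [B_fder _ _ H.2.1] at h4
      exact (mul_eq_zero.mp h4).resolve_left (by exact_mod_cast Nat.factorial_ne_zero _)
    have h3 := hcon H.1 H.2 h2
    change B (lin a ^ (n - 1) * X 2 ^ 1) H.1 = 0
    rw [p2_B_X_pow_mul, Function.iterate_one, B_lin_pow H.2.1.pderiv, h3, mul_zero]
  obtain ⟨e, he⟩ := (Submodule.mem_span_range_iff_exists_fun ℂ).mp (mem_span_of_iInf_ker_le_ker h1)
  -- the form
  set Q : R3 := lin a ^ (u - 1) * X 2 - ∑ i : Fin u, C (e i) * (lin a ^ (u - i) * X 0 ^ (i : ℕ))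
    with hQ
  have hXh : ∀ (k : Fin 3) (i : ℕ), (X k ^ i : R3).IsHomogeneous i := fun k i => by
    have := (isHomogeneous_X ℂ k).pow i
    rwa [one_mul] at this
  have hQh : Q.IsHomogeneous u := by
    rw [hQ]
    refine IsHomogeneous.sub ?_ (IsHomogeneous.sum _ _ _ (fun i _ => IsHomogeneous.C_mul ?_ _))
    · have := (lin_isHomogeneous_pow a (u - 1)).mul (isHomogeneous_X ℂ (2 : Fin 3))
      rwa [Nat.sub_add_cancel hu1] at this
    · have := (lin_isHomogeneous_pow a (u - i)).mul (hXh 0 i)
      rwa [Nat.sub_add_cancel i.2.le] at this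
  have hA : lin a ^ (n - u) * Q = lin a ^ (n - 1) * X 2 -
      ∑ i : Fin u, C (e i) * (lin a ^ (n - i) * X 0 ^ (i : ℕ)) := by
    rw [hQ, mul_sub, Finset.mul_sum, ← mul_assoc, ← pow_add,
      (by omega : n - u + (u - 1) = n - 1)]
    congr 1
    refine Finset.sum_congr rfl (fun i _ => ?_)
    rw [(by have := i.2; omega : n - (i : ℕ) = (n - u) + (u - i)), pow_add]
    ring
  have hAJ : lin a ^ (n - u) * Q ∈ J n p y := by
    refine mem_J_of_B (fun k => (hyn k).trans (Nat.le_succ n)) ?_ ?_
    · have := (lin_isHomogeneous_pow a (n - u)).mul hQh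
      rwa [Nat.sub_add_cancel (by omega)] at this
    · intro H hH
      have h2 := LinearMap.congr_fun he ⟨H, hH⟩
      rw [LinearMap.sum_apply] at h2
      rw [hA, map_sub, map_sum, LinearMap.sub_apply, LinearMap.sum_apply, sub_eq_zero]
      have h3 : K ⟨H, hH⟩ = B (lin a ^ (n - 1) * X 2) H := by
        change B (lin a ^ (n - 1) * X 2 ^ 1) H = _
        rw [pow_one]
      rw [← h3, ← h2]
      refine Finset.sum_congr rfl (fun i _ => ?_)
      rw [B_C_mul_left]
      rfl
  obtain ⟨G, hG, hsum⟩ := mem_J.mp hAJ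
  have hm' : ∀ i, (Sum.elim y ![u + 1, 0] : ι ⊕ Fin 2 → ℕ) i ≤ M + 1 := by
    rintro (i | j)
    · have := hy i
      simp only [Sum.elim_inl]
      omega
    · fin_cases j
      · simp only [Sum.elim_inr, Fin.zero_eta, Matrix.cons_val_zero]
        omega
      · simp
  have hs : ∑ i, ((Sum.elim y ![u + 1, 0] : ι ⊕ Fin 2 → ℕ) i + 1).choose 2 =
      ∑ i, (y i + 1).choose 2 + (u + 2).choose 2 := by
    rw [Fintype.sum_sum_type, Fin.sum_univ_two]
    simp
  have h2 := Psi_eq_zero (d := n) (p := Sum.elim p (fun j => fl (c j)))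
    (m := Sum.elim y ![u + 1, 0]) (fun i => (hm' i).trans (by omega)) (by
      rw [finrank_flags hx hm' (by nlinarith)]
      omega) (G := Sum.elim G ![- Q, 0]) (by
      rintro (i | j)
      · exact hG i
      · fin_cases j
        · exact Submodule.neg_mem _ (mem_Hm_succ.mpr hQh)
        · exact zero_mem _) (by
      rw [Fintype.sum_sum_type, Fin.sum_univ_two]
      simp only [Sum.elim_inl, Sum.elim_inr, Matrix.cons_val_zero, Matrix.cons_val_one, mul_zero,
        add_zero]
      rw [hsum, (by omega : n + 1 - (u + 1) = n - u)]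
      ring) (Sum.inr 0)
  have h3 : Q = 0 := by
    have : - Q = 0 := h2
    exact neg_eq_zero.mp this
  have h4 := congrArg (pderiv (2 : Fin 3)) h3
  have ha2 : pderiv (2 : Fin 3) (lin a) = 0 := by
    rw [pderiv_lin]
    simp [ha, fl]
  have h5 : ∀ k : ℕ, pderiv (2 : Fin 3) (lin a ^ k) = 0 := fun k => by
    rw [Derivation.leibniz_pow, ha2, smul_zero, smul_zero]
  have h6 : ∀ k : ℕ, pderiv (2 : Fin 3) (X 0 ^ k : R3) = 0 := fun k => by
    rw [Derivation.leibniz_pow, pderiv_X_of_ne (by decide), smul_zero, smul_zero]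
  rw [hQ, map_sub, map_sum, map_zero] at h4
  have h7 : ∀ i : Fin u, pderiv (2 : Fin 3) (C (e i) * (lin a ^ (u - i) * X 0 ^ (i : ℕ))) = 0 := by
    intro i
    rw [pderiv_C_mul, Derivation.leibniz, h5, h6, smul_zero, smul_zero, add_zero, mul_zero]
  rw [Finset.sum_eq_zero (fun i _ => h7 i), sub_zero, Derivation.leibniz, h5, smul_zero,
    add_zero, pderiv_X_self, smul_eq_mul, mul_one] at h4
  have h8 : lin a ≠ 0 := fun h => p2_fl_ne_zero (c 0) (lin_eq_zero.mp h)
  exact h8 (eq_zero_of_pow_eq_zero h4)

end Pool.Agent.Work.MP_0421d9_ag.SM
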