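import Pool.Agent.Work.MP_0421d9_ag.SLimit
import Pool.Agent.Work.MP_0421d9_ag.SNum
import Pool.Agent.Work.MP_0421d9_ag.SPos2

/-!
Smoothness of planar linear systems of large degree: reduction to the rigid case, conclusion.
-/

set_option linter.unusedSectionVars false

namespace Pool.Agent.Work.MP_0421d9_ag.SM

open MvPolynomial Module

/-! ### Members which are not bad are smooth and reduced -/

theorem smooth_of_not_bad {ι : Type} {d : ℕ} {p : ι → V3} {m : ι → ℕ} {F : R3}
    (hp : ∀ i, p i ≠ 0) (hF : F ∈ linSys d p m) (hF0 : F ≠ 0) (h : ¬ Bad d p m F) :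
    SmoothOnBlowup p m F := by
  refine ⟨?_, ?_⟩
  · intro q hq hqp _
    by_contra hcon
    push Not at hcon
    exact h (Or.inl ⟨q, hq, fun i => cr_ne_zero_of (hp i) (hqp i), hcon⟩)
  · intro i u w hlin
    have hpi : p i ≠ 0 := hp i
    have hu : cr (p i) u ≠ 0 := by
      intro h0
      obtain ⟨c, hc⟩ := exists_smul_of_cr_eq_zero hpi h0
      have h1 := Fintype.linearIndependent_iff.mp hlin ![c, -1, 0] (by
        rw [Fin.sum_univ_three]
        simp only [Matrix.cons_val]
        rw [hc]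
        module)
      have h2 := h1 1
      simp at h2
    have hdet : eval w (xl (p i) u) ≠ 0 := by
      intro h0
      obtain ⟨x, y, hxy⟩ := exists_comb hu h0
      have h1 := Fintype.linearIndependent_iff.mp hlin ![x, y, -1] (by
        rw [Fin.sum_univ_three]
        simp only [Matrix.cons_val]
        rw [hxy]
        module)
      have h2 := h1 2
      simp at h2
    have hmi : m i ≤ d := le_of_vanishTo hF.1 hF0 (hF.2 i)
    exact chart hF.1 hmi (hF.2 i) hdet (fun hbad => h (Or.inr ⟨i, u, hu, hbad⟩))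

/-- a form of positive degree has a zero on each line -/
theorem exists_zero_line {v w : V3} {h : R3} {e : ℕ} (he : 1 ≤ e) (hh : h.IsHomogeneous e) :
    (∃ t : ℂ, eval (w + t • v) h = 0) ∨ eval v h = 0 := by
  by_contra hcon
  push Not at hcon
  obtain ⟨h1, hv⟩ := hcon
  have h2 : ∀ s : ℂ, s ≠ 0 → eval (v + s • w) h = s ^ e * eval (w + s⁻¹ • v) h := by
    intro s hs
    rw [← eval_smul_form hh]
    congr 1
    rw [smul_add, smul_smul, mul_inv_cancel₀ hs, one_smul, add_comm]
  have h3 : ∀ s : ℂ, eval (v + s • w) h ≠ 0 := by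
    intro s
    by_cases hs : s = 0
    · rw [hs, zero_smul, add_zero]
      exact hv
    · rw [h2 s hs]
      exact mul_ne_zero (pow_ne_zero _ hs) (h1 _)
  rcases exists_root_or_const w v h with ⟨t, ht⟩ | ⟨c, hc⟩
  · exact h1 t ht
  rcases exists_root_or_const v w h with ⟨t, ht⟩ | ⟨c', hc'⟩
  · exact h3 t ht
  have h4 := h2 1 one_ne_zero
  have h5 := h2 2 two_ne_zero
  rw [hc', hc] at h4 h5
  have hc0 : c ≠ 0 := by
    rw [← hc 0]
    exact h1 0
  rw [h4, one_pow, one_mul] at h5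
  have h6 : (2 : ℂ) ^ e = 1 := by
    have h7 : c * (2 ^ e - 1) = 0 := by linear_combination -h5
    have h8 := (mul_eq_zero.mp h7).resolve_left hc0
    linear_combination h8
  have h7 : ((2 ^ e : ℕ) : ℂ) = ((1 : ℕ) : ℂ) := by
    push_cast
    exact h6
  have h8 : 2 ^ e = 1 := by exact_mod_cast h7
  have h9 : 1 < 2 ^ e := Nat.one_lt_two_pow (by omega)
  omega

/-- a form of positive degree has a zero outside finitely many points -/
theorem exists_zero_outside {ι : Type} [Fintype ι] {p : ι → V3} (hp : ∀ i, p i ≠ 0) {h : R3}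
    {e : ℕ} (he : 1 ≤ e) (hh : h.IsHomogeneous e) :
    ∃ q : V3, q ≠ 0 ∧ (∀ i, cr (p i) q ≠ 0) ∧ eval q h = 0 := by
  have h1 : (X 0 * ∏ i, lin (p i) : R3) ≠ 0 := by
    refine mul_ne_zero (X_ne_zero _) (Finset.prod_ne_zero_iff.mpr (fun i _ => ?_))
    exact fun h0 => hp i (lin_eq_zero.mp h0)
  obtain ⟨v, hv⟩ : ∃ v : V3, eval v (X 0 * ∏ i, lin (p i) : R3) ≠ 0 := by
    by_contra hcon
    push Not at hcon
    apply h1
    apply MvPolynomial.funext
    intro y
    rw [hcon y, map_zero]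
  rw [map_mul, eval_X, map_prod] at hv
  have hv0 : v 0 ≠ 0 := left_ne_zero_of_mul hv
  have hvp : ∀ i, eval (p i) (lin v) ≠ 0 := by
    intro i
    rw [← eval_lin_comm]
    exact (Finset.prod_ne_zero_iff.mp (right_ne_zero_of_mul hv)) i (Finset.mem_univ i)
  have key : ∀ q : V3, q ≠ 0 → eval q (lin v) = 0 → ∀ i, cr (p i) q ≠ 0 := by
    intro q hq0 hq i h0
    obtain ⟨c, hc⟩ := exists_smul_of_cr_eq_zero (hp i) h0
    have hc0 : c ≠ 0 := by
      rintro rfl
      exact hq0 (by rw [hc, zero_smul])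
    rw [hc, eval_smul_form (lin_isHomogeneous v), pow_one] at hq
    exact hvp i ((mul_eq_zero.mp hq).resolve_left hc0)
  rcases exists_zero_line (v := ![-v 2, 0, v 0]) (w := ![-v 1, v 0, 0]) he hh with ⟨t, ht⟩ | h0
  · have hq0 : (![-v 1, v 0, 0] + t • ![-v 2, 0, v 0] : V3) ≠ 0 := by
      intro h0
      have h2 := congrFun h0 1
      simp at h2
      exact hv0 h2
    refine ⟨_, hq0, key _ hq0 ?_, ht⟩
    rw [eval_lin, Fin.sum_univ_three]
    simp
    ring
  · have hq0 : (![-v 2, 0, v 0] : V3) ≠ 0 := by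
      intro h0
      have h2 := congrFun h0 2
      simp at h2
      exact hv0 h2
    refine ⟨_, hq0, key _ hq0 ?_, h0⟩
    rw [eval_lin, Fin.sum_univ_three]
    simp
    ring

theorem squarefree_of_not_bad {ι : Type} [Fintype ι] {d : ℕ} {p : ι → V3} {m : ι → ℕ} {F : R3}
    (hp : ∀ i, p i ≠ 0) (hF : F ∈ linSys d p m) (hF0 : F ≠ 0) (h : ¬ Bad d p m F) :
    Squarefree F := by
  intro G hG
  by_contra hunit
  obtain ⟨H, hH⟩ := hG
  have h1 : F = G * (G * H) := by rw [hH, mul_assoc]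
  obtain ⟨e, b, -, hGhom, -⟩ := isHomogeneous_factor (A := G) (G := G * H) (d := d)
    (by rw [← h1]; exact hF.1) (by rw [← h1]; exact hF0)
  have hG0 : G ≠ 0 := by
    rintro rfl
    exact hF0 (by rw [h1, zero_mul])
  have he : 1 ≤ e := by
    by_contra hcon
    have he0 : e = 0 := by omega
    rw [he0] at hGhom
    have h2 : G = C (coeff 0 G) :=
      (MvPolynomial.totalDegree_eq_zero_iff_eq_C).mp (Nat.le_zero.mp hGhom.totalDegree_le)
    apply hunit
    rw [h2]
    apply IsUnit.map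
    rw [isUnit_iff_ne_zero]
    intro h3
    exact hG0 (by rw [h2, h3, C_0])
  obtain ⟨q, hq0, hqp, hq⟩ := exists_zero_outside hp he hGhom
  refine h (Or.inl ⟨q, hq0, hqp, fun k => ?_⟩)
  rw [h1, pderiv_mul, pderiv_mul]
  simp only [map_add, map_mul, hq, zero_mul, mul_zero, add_zero]

/-! ### Adding simple points -/

theorem sum_simple {r k : ℕ} (m : Fin r → ℕ) :
    ∑ x : Fin r ⊕ Fin k, (Sum.elim m (fun _ => 1) x + 1).choose 2 =
      ∑ i, (m i + 1).choose 2 + k := by
  rw [Fintype.sum_sum_type]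
  congr 1
  change ∑ _x : Fin k, (1 + 1).choose 2 = k
  rw [Finset.sum_const, Finset.card_univ, Fintype.card_fin, smul_eq_mul]
  exact Nat.mul_one k

theorem card_simple {r k : ℕ} (m : Fin r → ℕ) :
    (Finset.univ.filter (fun x : Fin r ⊕ Fin k => Sum.elim m (fun _ => 1) x = 1)).card =
      (Finset.univ.filter (fun i => m i = 1)).card + k := by
  rw [Finset.card_filter, Finset.card_filter, Fintype.sum_sum_type]
  congr 1
  change ∑ _x : Fin k, (if (1 : ℕ) = 1 then 1 else 0) = k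
  rw [if_pos rfl, Finset.sum_const, Finset.card_univ, Fintype.card_fin, smul_eq_mul]
  exact Nat.mul_one k

theorem badDir_of_singular {d : ℕ} {F : R3} (hF : F.IsHomogeneous d) {s : V3}
    (hs : ∀ l, eval s (pderiv l F) = 0) (v : V3) : BadDir d F s 1 v := by
  have key : ∀ w : V3, B (lin s ^ (d - 1) * lin w) F = 0 := by
    intro w
    rw [mul_comm, B_lin_mul, B_lin_pow (dir_isHomogeneous w hF), dir_apply, map_sum,
      Finset.sum_eq_zero, mul_zero]
    intro l _
    rw [map_mul, hs l, mul_zero]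
  refine ⟨?_, fun _ w => ?_⟩
  · rw [pow_one]
    exact key v
  · rw [Nat.sub_self, pow_zero, one_mul]
    exact key w

theorem not_bad_of_extended {ι κ : Type} {d : ℕ} {p : ι → V3} {s : κ → V3} {m : ι → ℕ} {F : R3}
    (hF : F.IsHomogeneous d) (hs : ∀ k, s k ≠ 0)
    (h : ¬ Bad d (Sum.elim p s) (Sum.elim m (fun _ => 1)) F) : ¬ Bad d p m F := by
  intro hb
  apply h
  rcases hb with ⟨q, hq0, hqp, hq⟩ | ⟨i, u, hu, hb⟩
  · by_cases hc : ∀ k, cr (s k) q ≠ 0
    · refine Or.inl ⟨q, hq0, ?_, hq⟩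
      rintro (i | k)
      · exact hqp i
      · exact hc k
    · push Not at hc
      obtain ⟨k, hk⟩ := hc
      obtain ⟨c, hc⟩ := exists_smul_of_cr_eq_zero (hs k) hk
      have hc0 : c ≠ 0 := by
        rintro rfl
        exact hq0 (by rw [hc, zero_smul])
      have hsing : ∀ l, eval (s k) (pderiv l F) = 0 := by
        intro l
        have h1 := hq l
        rw [hc, eval_smul_form hF.pderiv] at h1
        exact (mul_eq_zero.mp h1).resolve_left (pow_ne_zero _ hc0)
      obtain ⟨v, w, hv, -⟩ := exists_indep (hs k)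
      exact Or.inr ⟨Sum.inr k, v, hv, badDir_of_singular hF hsing v⟩
  · exact Or.inr ⟨Sum.inl i, u, hu, hb⟩

theorem point_ne_zero {ι : Type} {p : ι → V3}
    (hp : AlgebraicIndependent ℚ (fun z : ι × Fin 3 => p z.1 z.2)) (i : ι) : p i ≠ 0 := by
  intro h0
  exact hp.ne_zero (i, 0) (congrFun h0 0)

/-! ### Relabelling -/

theorem bad_equiv {κ κ' : Type} {d : ℕ} {p : κ → V3} {m : κ → ℕ} {F : R3} (e : κ' ≃ κ) :
    Bad d (fun x => p (e x)) (fun x => m (e x)) F ↔ Bad d p m F := by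
  constructor
  · rintro (⟨q, hq0, hqp, hq⟩ | ⟨i, u, hu, hb⟩)
    · refine Or.inl ⟨q, hq0, fun i => ?_, hq⟩
      have h1 : cr (p (e (e.symm i))) q ≠ 0 := hqp (e.symm i)
      rwa [e.apply_symm_apply] at h1
    · exact Or.inr ⟨e i, u, hu, hb⟩
  · rintro (⟨q, hq0, hqp, hq⟩ | ⟨i, u, hu, hb⟩)
    · exact Or.inl ⟨q, hq0, fun x => hqp (e x), hq⟩
    · have h1 : cr (p (e (e.symm i))) u ≠ 0 := by
        rw [e.apply_symm_apply]
        exact hu
      have h2 : BadDir d F (p (e (e.symm i))) (m (e (e.symm i))) u := by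
        rw [e.apply_symm_apply]
        exact hb
      exact Or.inr ⟨e.symm i, u, h1, h2⟩

/-! ### Rigid systems with few simple points -/

theorem exists_split {r N : ℕ} (T : Finset (Fin r)) (hT : T.card = N) :
    ∃ e : {i : Fin r // ¬ i ∈ T} ⊕ Fin N ≃ Fin r, ∀ k, e (Sum.inr k) ∈ T := by
  let eT : Fin N ≃ {i : Fin r // i ∈ T} := (T.equivFinOfCardEq hT).symm
  exact ⟨((Equiv.refl _).sumCongr eT).trans
    ((Equiv.sumComm _ _).trans (Equiv.sumCompl (fun i => i ∈ T))), fun k => (eT k).2⟩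

theorem chi_strip {n u a β S N R : ℕ} (hN : N = 2 * (β + 1 + a) + 1)
    (hnβ : n + 1 = (u + 1) * (β + 1) + u * a)
    (hsum : S + N * (u + 1).choose 2 = R) (hχ : R + 1 = (n + u + 2).choose 2) :
    S + (u * a + 1) = (n + 2).choose 2 := by
  have h2 := two_mul_choose u
  have h3 := two_mul_choose (n + 1)
  have h4 := two_mul_choose (n + u + 1)
  have h5 : n + 1 + 1 = n + 2 := rfl
  have h6 : n + u + 1 + 1 = n + u + 2 := rfl
  rw [h5] at h3
  rw [h6] at h4
  subst hN
  rw [← hsum] at hχ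
  generalize (u + 1).choose 2 = c1 at *
  generalize (n + 2).choose 2 = c2 at *
  generalize (n + u + 2).choose 2 = c3 at *
  zify at h2 h3 h4 hχ hnβ ⊢
  have h7 : (2 : ℤ) * (S + (u * a + 1)) = 2 * c2 := by
    linear_combination 2 * hχ - (2 * (β + 1 + a) + 1 : ℤ) * h2 + h4 - h3 + 2 * (u : ℤ) * hnβ
  exact mul_left_cancel₀ (by norm_num) h7

theorem rigid_aux {κ : Type} [Fintype κ] [DecidableEq κ] {r M n u a β : ℕ} {p : Fin r → V3}
    (hp : GenericPoints p) {m : Fin r → ℕ}
    (hM : ∀ i, m i ≤ M) (hu : 2 ≤ u) (huM : u ≤ M)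
    (hn : 3 * (M + 2) ^ 2 ≤ n) (ha : M ^ 2 + 2 * M + 3 ≤ u * a)
    (hnβ : n + 1 = (u + 1) * (β + 1) + u * a)
    (hχ : ∑ i, (m i + 1).choose 2 + 1 = (n + u + 2).choose 2)
    (e : κ ⊕ Fin (2 * (β + 1 + a) + 1) ≃ Fin r) (he : ∀ k, m (e (Sum.inr k)) = u) {F : R3}
    (hF : F ∈ linSys (n + u) p m) (hF0 : F ≠ 0) : ¬ Bad (n + u) p m F := by
  have hme : Sum.elim (fun i : κ => m (e (Sum.inl i)))
      (fun _ : Fin (2 * (β + 1 + a) + 1) => u) = fun x => m (e x) := by
    funext x
    rcases x with i | k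
    · rfl
    · exact (he k).symm
  have hp' : AlgebraicIndependent ℚ
      (fun z : (κ ⊕ Fin (2 * (β + 1 + a) + 1)) × Fin 3 => (fun x => p (e x)) z.1 z.2) := by
    have h2 := AlgebraicIndependent.comp hp
      (fun z : (κ ⊕ Fin (2 * (β + 1 + a) + 1)) × Fin 3 => (e z.1, z.2))
      (fun z z' h => by
        have h7 := congrArg Prod.fst h
        have h8 := congrArg Prod.snd h
        exact Prod.ext (e.injective h7) h8)
    exact h2
  have hsum : ∑ i : κ, (m (e (Sum.inl i)) + 1).choose 2 +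
      (2 * (β + 1 + a) + 1) * (u + 1).choose 2 = ∑ i, (m i + 1).choose 2 := by
    rw [← e.sum_comp, Fintype.sum_sum_type]
    congr 1
    rw [Finset.sum_congr rfl (fun k _ => by rw [he k]), Finset.sum_const, Finset.card_univ,
      Fintype.card_fin, smul_eq_mul]
  have hχ' := chi_strip rfl hnβ hsum hχ
  have hF' : F ∈ linSys (n + u) (fun x => p (e x))
      (Sum.elim (fun i : κ => m (e (Sum.inl i))) (fun _ => u)) := by
    rw [hme]
    exact ⟨hF.1, fun x => hF.2 (e x)⟩
  have hfin := strip_not_bad (n := n) (M := M) (u := u) (a := a) (β := β)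
    (p := fun x => p (e x)) (m := fun i => m (e (Sum.inl i))) hp' (fun i => hM _) hu huM hn ha
    hnβ hχ' hF' hF0
  intro hb
  apply hfin
  rw [hme]
  exact (bad_equiv e).mpr hb

theorem rigid_not_bad {r d M : ℕ} {p : Fin r → V3} (hp : GenericPoints p) {m : Fin r → ℕ}
    (hM : ∀ i, m i ≤ M) (hM2 : 2 ≤ M) (hd : 3 * (M + 2) ^ 2 + M ≤ d)
    (hχ : ∑ i, (m i + 1).choose 2 + 1 = (d + 2).choose 2)
    (h1 : (Finset.univ.filter (fun i => m i = 1)).card ≤ M) {F : R3}
    (hF : F ∈ linSys d p m) (hF0 : F ≠ 0) : ¬ Bad d p m F := by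
  classical
  obtain ⟨u, a, β, n, hu, huM, ha, hdn, hnβ, hcard⟩ := exists_strip hM hM2 hd hχ h1
  subst hdn
  obtain ⟨T, hTS, hT⟩ := Finset.exists_subset_card_eq hcard
  have hTu : ∀ i ∈ T, m i = u := fun i hi => (Finset.mem_filter.mp (hTS hi)).2
  obtain ⟨e, he⟩ := exists_split T hT
  exact rigid_aux hp hM hu huM (by omega) ha hnβ hχ e (fun k => hTu _ (he k)) hF hF0

/-! ### The general case -/

theorem sum_dropSimple {r : ℕ} (m : Fin r → ℕ) :
    ∑ j, (dropSimple m j + 1).choose 2 + (Finset.univ.filter (fun i => m i = 1)).card =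
      ∑ j, (m j + 1).choose 2 := by
  rw [Finset.card_filter, ← Finset.sum_add_distrib]
  refine Finset.sum_congr rfl (fun j _ => ?_)
  unfold dropSimple
  split_ifs with h
  · rw [h]
    rfl
  · rfl

/-- members of a rigid subsystem (some simple points added) are not bad -/
theorem not_bad_of_simple {r d M k : ℕ} {p : Fin r → V3} {m : Fin r → ℕ} {s : Fin k → V3}
    (hps : GenericPoints (Sum.elim p s))
    (hM : ∀ i, m i ≤ M) (hM2 : 2 ≤ M) (hd : 3 * (M + 2) ^ 2 + M ≤ d)
    (hχ : ∑ i, (m i + 1).choose 2 + k + 1 = (d + 2).choose 2)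
    (h1 : (Finset.univ.filter (fun i => m i = 1)).card + k ≤ M) {F : R3}
    (hF : F ∈ linSys d p m) (hF0 : F ≠ 0) (hFs : ∀ j, eval (s j) F = 0) : ¬ Bad d p m F := by
  classical
  apply not_bad_of_extended (s := s) hF.1 (fun j => point_ne_zero hps (Sum.inr j))
  let e : Fin (r + k) ≃ Fin r ⊕ Fin k := finSumFinEquiv.symm
  rw [← bad_equiv e]
  have hF' : F ∈ linSys d (fun x => Sum.elim p s (e x)) (fun x => Sum.elim m (fun _ => 1) (e x)) := by
    refine ⟨hF.1, fun x => ?_⟩
    have h2 : ∀ y : Fin r ⊕ Fin k, VanishTo F (Sum.elim p s y) (Sum.elim m (fun _ => 1) y) := by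
      rintro (i | j)
      · exact hF.2 i
      · exact vanishTo_one_iff.mpr (hFs j)
    exact h2 (e x)
  refine rigid_not_bad (M := M) ?_ ?_ hM2 hd ?_ ?_ hF' hF0
  · have h2 := AlgebraicIndependent.comp hps
      (fun z : Fin (r + k) × Fin 3 => (e z.1, z.2))
      (fun z z' h => by
        have h7 := congrArg Prod.fst h
        have h8 := congrArg Prod.snd h
        exact Prod.ext (e.injective h7) h8)
    exact h2
  · intro x
    have h2 : ∀ y : Fin r ⊕ Fin k, Sum.elim m (fun _ => 1) y ≤ M := by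
      rintro (i | j)
      · exact hM i
      · exact (by norm_num : 1 ≤ 2).trans hM2
    exact h2 (e x)
  · rw [e.sum_comp (fun y => (Sum.elim m (fun _ => 1) y + 1).choose 2), sum_simple]
    exact hχ
  · have h2 : (Finset.univ.filter (fun x => Sum.elim m (fun _ : Fin k => 1) (e x) = 1)).card =
        (Finset.univ.filter (fun y => Sum.elim m (fun _ : Fin k => 1) y = 1)).card := by
      rw [Finset.card_filter, Finset.card_filter]
      exact e.sum_comp (fun y => if Sum.elim m (fun _ : Fin k => 1) y = 1 then 1 else 0)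
    rw [h2, card_simple]
    exact h1

theorem main_all {r d M : ℕ} (p : Fin r → Fin 3 → ℂ) (hp : GenericPoints p) (m : Fin r → ℕ)
    (hM : ∀ i, m i ≤ M)
    (hd : 3 * (M + 2) ^ 2 + M ≤ d ∨
      (3 * (M + 2) ^ 2 + M + 1).choose 2 + (M + 1).choose 3 ≤ ∑ i, (m i + 1).choose 2)
    (hne : linSys d p m ≠ ⊥) :
    (∃ F ∈ linSys d p m, Squarefree F) ∧
    finrank ℂ (linSys d p m) + ∑ i, (m i + 1).choose 2 = (d + 2).choose 2 ∧
    (∀ s : Fin (finrank ℂ (linSys d p m) - 1) → Fin 3 → ℂ, GenericPoints (Sum.elim p s) →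
      ∀ F ∈ linSys d p m, F ≠ 0 → (∀ k, eval (s k) F = 0) → SmoothOnBlowup p m F) ∧
    (∃ F ∈ linSys d p m, F ≠ 0 ∧ SmoothOnBlowup p m F) := by
  have hd' : 3 * (M + 2) ^ 2 + M ≤ d := by
    rcases hd with hd | hd
    · exact hd
    · by_contra hcon
      apply hne
      apply window_empty hp hM
      have h1 : (d + 2).choose 2 ≤ (3 * (M + 2) ^ 2 + M + 1).choose 2 :=
        Nat.choose_le_choose 2 (by omega)
      omega
  have hpos : finrank ℂ (linSys d p m) ≠ 0 := by
    intro h0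
    exact hne (Submodule.finrank_eq_zero.mp h0)
  have hdim := LD.main (d := d) hp hM (by nlinarith)
  have hsum := sum_dropSimple m
  by_cases hbig : M + 1 ≤ finrank ℂ (linSys d p m) +
      (Finset.univ.filter (fun i => m i = 1)).card
  · refine main_large_sq p hp m hM (by nlinarith) ∅ (by simp) (fun i _ _ => ?_) hne
    have := hM i
    omega
  · by_cases hM2 : 2 ≤ M
    · have hχ : ∑ i, (m i + 1).choose 2 + (finrank ℂ (linSys d p m) - 1) + 1 =
          (d + 2).choose 2 := by omega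
      have hkey : ∀ s : Fin (finrank ℂ (linSys d p m) - 1) → Fin 3 → ℂ,
          GenericPoints (Sum.elim p s) → ∀ F ∈ linSys d p m, F ≠ 0 → (∀ k, eval (s k) F = 0) →
          ¬ Bad d p m F := fun s hs F hF hF0 hFs =>
        not_bad_of_simple hs hM hM2 hd' hχ (by omega) hF hF0 hFs
      obtain ⟨s, hs⟩ := exists_extension (κ := Fin (finrank ℂ (linSys d p m) - 1)) p hp
      have hfin := finrank_gen (n := d) (M := M) hs (y := Sum.elim m (fun _ => 1)) (by
        rintro (i | j)
        · exact hM i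
        · exact (by norm_num : 1 ≤ 2).trans hM2) (by nlinarith)
      rw [sum_simple] at hfin
      have hne' : linSys d (Sum.elim p s) (Sum.elim m (fun _ => 1)) ≠ ⊥ := by
        intro h0
        rw [h0, finrank_bot] at hfin
        omega
      obtain ⟨F, hF, hF0⟩ := Submodule.exists_mem_ne_zero_of_ne_bot hne'
      have hFm : F ∈ linSys d p m := ⟨hF.1, fun i => hF.2 (Sum.inl i)⟩
      have hFs : ∀ k, eval (s k) F = 0 := fun k => vanishTo_one_iff.mp (hF.2 (Sum.inr k))
      have hpn : ∀ i, p i ≠ 0 := fun i => point_ne_zero hp i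
      have hnb := hkey s hs F hFm hF0 hFs
      exact ⟨⟨F, hFm, squarefree_of_not_bad hpn hFm hF0 hnb⟩, by omega,
        fun s hs F hF hF0 hFs => smooth_of_not_bad hpn hF hF0 (hkey s hs F hF hF0 hFs),
        F, hFm, hF0, smooth_of_not_bad hpn hFm hF0 hnb⟩
    · refine main_large_sq p hp m hM (by nlinarith) ∅ (by simp) (fun i _ hi => ?_) hne
      have := hM i
      omega

end Pool.Agent.Work.MP_0421d9_ag.SM
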