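import Pool.Agent.Work.MP_0421d9_ag.FMas
import Pool.Agent.Work.MP_0421d9_ag.SFinal
import Pool.Agent.Work.MP_0421d9_ag.MSmooth

/-!
Both halves for systems with three arbitrary points, and for systems with many points of small
multiplicity.
-/

set_option linter.unusedSectionVars false

namespace Pool.Agent.Work.MP_0421d9_ag

open MvPolynomial Module LD

/-- smoothness from the nonspeciality of the neighbouring systems -/
theorem smooth_of_neighbours {r d : ℕ} (p : Fin r → Fin 3 → ℂ) (hp : GenericPoints p)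
    (m : Fin r → ℕ)
    (hm : finrank ℂ (linSys d p m) = (d + 2).choose 2 - ∑ j, (m j + 1).choose 2)
    (h0 : finrank ℂ (linSys d p (dropSimple m)) =
      (d + 2).choose 2 - ∑ j, (dropSimple m j + 1).choose 2)
    (h1 : ∀ i, 2 ≤ m i → finrank ℂ (linSys d p (Function.update (dropSimple m) i (m i + 1))) =
      (d + 2).choose 2 - ∑ j, (Function.update (dropSimple m) i (m i + 1) j + 1).choose 2)
    (hJ : (Finset.univ.filter (fun i => 2 ≤ m i ∧ finrank ℂ (linSys d p m) +
      (Finset.univ.filter (fun j => m j = 1)).card ≤ m i)).card ≤ 3)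
    (hpair : ∀ i j, i ≠ j → m i + m j ≤ d) (hne : linSys d p m ≠ ⊥) :
    (∃ F ∈ linSys d p m, Squarefree F) ∧
    (∀ s : Fin (finrank ℂ (linSys d p m) - 1) → Fin 3 → ℂ, GenericPoints (Sum.elim p s) →
      ∀ F ∈ linSys d p m, F ≠ 0 → (∀ k, eval (s k) F = 0) → SmoothOnBlowup p m F) ∧
    (∃ F ∈ linSys d p m, F ≠ 0 ∧ SmoothOnBlowup p m F) := by
  have hpos : finrank ℂ (linSys d p m) ≠ 0 := by
    intro h2
    exact hne (Submodule.finrank_eq_zero.mp h2)
  have hsum := SM.sum_dropSimple m
  set J := Finset.univ.filter (fun i => 2 ≤ m i ∧ finrank ℂ (linSys d p m) +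
      (Finset.univ.filter (fun j => m j = 1)).card ≤ m i) with hJdef
  have hcomp : ∀ i ∉ J, 2 ≤ m i → finrank ℂ (linSys d p (dropSimple m)) =
      finrank ℂ (linSys d p (Function.update (dropSimple m) i (m i + 1))) + (m i + 1) := by
    intro i hi hmi
    have hyi : dropSimple m i = m i := by
      unfold dropSimple
      rw [if_neg (by omega)]
    have h2 := sum_update_succ (dropSimple m) i
    rw [hyi] at h2
    have h5 : ¬ (finrank ℂ (linSys d p m) +
        (Finset.univ.filter (fun j => m j = 1)).card ≤ m i) := by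
      intro h6
      exact hi (Finset.mem_filter.mpr ⟨Finset.mem_univ i, hmi, h6⟩)
    rw [h0, h1 i hmi, h2]
    omega
  obtain ⟨a1, -, a3, a4⟩ := complete_final p hp m J hJ (fun i hi h => hcomp i hi (by omega))
    (Or.inr ⟨hne, fun i _ j _ hij => hpair i j hij, fun i hi h => hcomp i hi (by omega)⟩)
  exact ⟨a1, a3, a4⟩

/-- at most one multiplicity is raised, by one -/
def Nbr {r : ℕ} (m m' : Fin r → ℕ) : Prop :=
  (∀ i, m' i ≤ m i) ∨ ∃ i₀, m' i₀ ≤ m i₀ + 1 ∧ ∀ i, i ≠ i₀ → m' i ≤ m i

theorem nbr_drop {r : ℕ} (m : Fin r → ℕ) : Nbr m (dropSimple m) := Or.inl (dropSimple_le m)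

theorem nbr_raise {r : ℕ} (m : Fin r → ℕ) (i : Fin r) :
    Nbr m (Function.update (dropSimple m) i (m i + 1)) := by
  refine Or.inr ⟨i, ?_, fun j hj => ?_⟩
  · rw [Function.update_self]
  · rw [Function.update_of_ne hj]
    exact dropSimple_le m j

/-! ### three arbitrary points -/

theorem three_nbr {r u d : ℕ} {p : Fin r → Fin 3 → ℂ} (hp : GenericPoints p) {m m' : Fin r → ℕ}
    {I : Finset (Fin r)} (hI : I.card ≤ 3) (hms : ∀ i, i ∉ I → m i ≤ u)
    (hA : Apart d (7 * (u + 1) ^ 2 + 15 * (u + 1)) I m) (hn : Nbr m m') :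
    finrank ℂ (linSys d p m') = (d + 2).choose 2 - ∑ j, (m' j + 1).choose 2 := by
  obtain ⟨a0, a1, a2⟩ := hA
  have e1 : 7 * (u + 1) ^ 2 + 15 * (u + 1) = 7 * u ^ 2 + 15 * u + (14 * u + 22) := by ring
  rcases hn with hn | ⟨i₀, h1, h2⟩
  · exact three_main hp hI (fun i hi => (hn i).trans (hms i hi)) (by omega)
      (fun i hi => by have := a1 i hi; have := hn i; omega)
      (fun i hi j hj hij => by have := a2 i hi j hj hij; have := hn i; have := hn j; omega)
  · by_cases hi₀ : i₀ ∈ I
    · have hle : ∀ i, m' i ≤ m i + 1 := by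
        intro i
        by_cases hi : i = i₀
        · rw [hi]
          exact h1
        · exact (h2 i hi).trans (Nat.le_succ _)
      refine three_main (u := u) hp hI (fun i hi => ?_) (by omega)
        (fun i hi => by have := a1 i hi; have := hle i; omega)
        (fun i hi j hj hij => by have := a2 i hi j hj hij; have := hle i; have := hle j; omega)
      refine (h2 i ?_).trans (hms i hi)
      rintro rfl
      exact hi hi₀
    · have hne : ∀ i ∈ I, i ≠ i₀ := by
        rintro i hi rfl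
        exact hi₀ hi
      refine three_main (u := u + 1) hp hI (fun i hi => ?_) a0
        (fun i hi => by have := a1 i hi; have := h2 i (hne i hi); omega)
        (fun i hi j hj hij => by
          have := a2 i hi j hj hij; have := h2 i (hne i hi); have := h2 j (hne j hj); omega)
      by_cases hi' : i = i₀
      · rw [hi']
        have := hms i₀ hi₀
        omega
      · exact (h2 i hi').trans ((hms i hi).trans (Nat.le_succ _))

theorem three_pair {r u d : ℕ} {m : Fin r → ℕ}
    {I : Finset (Fin r)} (hms : ∀ i, i ∉ I → m i ≤ u)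
    (hA : Apart d (7 * (u + 1) ^ 2 + 15 * (u + 1)) I m) (i j : Fin r) (hij : i ≠ j) :
    m i + m j ≤ d := by
  obtain ⟨a0, a1, a2⟩ := hA
  by_cases hi : i ∈ I
  · by_cases hj : j ∈ I
    · have := a2 i hi j hj hij
      omega
    · have := a1 i hi
      have := hms j hj
      omega
  · by_cases hj : j ∈ I
    · have := a1 j hj
      have := hms i hi
      omega
    · have := hms i hi
      have := hms j hj
      omega

/-! ### many points of small multiplicity -/

/-- the room -/
def room (d M k u : ℕ) : ℕ := (3 * k + 10 * (u + 1) ^ 2) * M + 3 * (u + 1) * d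

/-- there are few conditions at the points of `I` and at the points of multiplicity greater
than `u`, or many conditions at the other points -/
def TwoScale {r : ℕ} (d M k u : ℕ) (I : Finset (Fin r)) (m : Fin r → ℕ) : Prop :=
  1 ≤ u ∧ u ≤ k ∧ 32 * (u + 1) ^ 2 ≤ d ∧ Apart d (10 * (u + 1) ^ 2) I m ∧
    (bigC I u m + room d M k u ≤ (d + 2).choose 2 ∨ 2 * room d M k u ≤ smallC I u m)

theorem bigC_nbr {r u M : ℕ} {I : Finset (Fin r)} {m m' : Fin r → ℕ} (hM : ∀ i, m i ≤ M)
    (hn : Nbr m m') : bigC I u m' ≤ bigC I u m + (M + 1) + (u + 2).choose 2 := by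
  classical
  have hb : ∀ m : Fin r → ℕ, bigC I u m =
      ∑ i, (if i ∈ I ∨ u < m i then (m i + 1).choose 2 else 0) := by
    intro m
    unfold bigC
    rw [Finset.sum_filter]
  have hle : ∀ i, m' i ≤ m i → (if i ∈ I ∨ u < m' i then (m' i + 1).choose 2 else 0) ≤
      (if i ∈ I ∨ u < m i then (m i + 1).choose 2 else 0) := by
    intro i hi
    split_ifs with h1 h2
    · exact Nat.choose_le_choose 2 (by omega)
    · exfalso
      apply h2
      rcases h1 with h1 | h1
      · exact Or.inl h1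
      · exact Or.inr (by omega)
    · exact Nat.zero_le _
    · exact le_rfl
  rw [hb m, hb m']
  rcases hn with hn | ⟨i₀, h1, h2⟩
  · have h3 := Finset.sum_le_sum (s := Finset.univ) (fun i _ => hle i (hn i))
    omega
  · rw [← Finset.add_sum_erase _ _ (Finset.mem_univ i₀),
      ← Finset.add_sum_erase _ (fun i => if i ∈ I ∨ u < m i then (m i + 1).choose 2 else 0)
        (Finset.mem_univ i₀)]
    have h3 := Finset.sum_le_sum (s := Finset.univ.erase i₀)
      (fun i hi => hle i (h2 i (Finset.ne_of_mem_erase hi)))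
    have h4 : (m i₀ + 2).choose 2 = (m i₀ + 1) + (m i₀ + 1).choose 2 := by
      rw [Nat.choose_succ_succ' (m i₀ + 1) 1, Nat.choose_one_right]
    have h5 : (if i₀ ∈ I ∨ u < m' i₀ then (m' i₀ + 1).choose 2 else 0) ≤
        (if i₀ ∈ I ∨ u < m i₀ then (m i₀ + 1).choose 2 else 0) + (M + 1) + (u + 2).choose 2 := by
      have h6 : (m' i₀ + 1).choose 2 ≤ (m i₀ + 2).choose 2 := Nat.choose_le_choose 2 (by omega)
      have h7 := hM i₀
      split_ifs with h8 h9
      · omega
      · rw [not_or] at h9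
        have h10 : (m i₀ + 2).choose 2 ≤ (u + 2).choose 2 := Nat.choose_le_choose 2 (by omega)
        omega
      · exact Nat.zero_le _
      · exact Nat.zero_le _
    omega

theorem room_ge {d M k u : ℕ} (hu : 1 ≤ u) (huk : u ≤ k + 1) (hkM : k ≤ M) :
    (M + 1) + (u + 2).choose 2 + 3 * ((k + 1) * (M + 1)) + 9 * ((u + 1) ^ 2 * (M + 1)) +
      3 * ((u + 1) * d) ≤ room d (M + 1) (k + 1) u := by
  unfold room
  have e1 : (3 * (k + 1) + 10 * (u + 1) ^ 2) * (M + 1) + 3 * (u + 1) * d =
      3 * ((k + 1) * (M + 1)) + 9 * ((u + 1) ^ 2 * (M + 1)) + (u + 1) ^ 2 * (M + 1) +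
        3 * ((u + 1) * d) := by ring
  have e2 : 2 * (u + 2).choose 2 = (u + 1) * (u + 2) := by
    have h := tr_two_choose (u + 1)
    rw [h]
  have e3 : (u + 1) ^ 2 * (M + 1) = (u * (u + 2)) * (M + 1) + (M + 1) := by ring
  have h1 : (u * (u + 2)) * u ≤ (u * (u + 2)) * (M + 1) := Nat.mul_le_mul_left _ (by omega)
  have h2 : (u + 2) * (u + 1) ≤ (u + 2) * (2 * (u * u)) := by
    apply Nat.mul_le_mul_left
    have h3 : u * 1 ≤ u * u := Nat.mul_le_mul_left u hu
    omega
  have e4 : (u + 2) * (2 * (u * u)) = 2 * ((u * (u + 2)) * u) := by ring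
  have e5 : (u + 2) * (u + 1) = (u + 1) * (u + 2) := by ring
  omega

theorem few_nbr {r d M k u : ℕ} {p : Fin r → Fin 3 → ℂ} (hp : GenericPoints p)
    {m m' : Fin r → ℕ} {I : Finset (Fin r)} (hI : I.card ≤ 3) (hM : ∀ i, m i ≤ M)
    (hk : ∀ i, i ∉ I → m i ≤ k) (hu : 1 ≤ u) (huk : u ≤ k + 1) (hkM : k ≤ M)
    (hd : 32 * (u + 1) ^ 2 ≤ d) (hA : Apart d (10 * (u + 1) ^ 2) I m)
    (h : bigC I u m + room d (M + 1) (k + 1) u ≤ (d + 2).choose 2) (hn : Nbr m m') :
    finrank ℂ (linSys d p m') = (d + 2).choose 2 - ∑ j, (m' j + 1).choose 2 := by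
  have h1 := bigC_nbr (I := I) (u := u) hM hn
  have h2 := room_ge (d := d) hu huk hkM
  have hle : ∀ i, m' i ≤ m i + 1 := by
    intro i
    rcases hn with hn | ⟨i₀, h1, h2⟩
    · exact (hn i).trans (Nat.le_succ _)
    · by_cases hi : i = i₀
      · rw [hi]
        exact h1
      · exact (h2 i hi).trans (Nat.le_succ _)
  obtain ⟨a0, a1, a2⟩ := hA
  have h3 := le_sq_self' u
  have hsum : ∀ i ∈ I, ∀ j ∈ I, i ≠ j → m' i + m' j ≤ m i + m j + 1 := by
    intro i _ j _ hij
    rcases hn with hn | ⟨i₀, h1, h2⟩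
    · have := hn i
      have := hn j
      omega
    · by_cases hi : i = i₀
      · have h4 : j ≠ i₀ := fun h => hij (hi.trans h.symm)
        have := h2 j h4
        have := hle i
        omega
      · have := h2 i hi
        have := hle j
        omega
  refine fbig (u := u) (M := M + 1) (M₂ := k + 1) hp hI (fun i => ?_) (fun i hi => ?_) (by omega)
    hu (by omega) hd ⟨by omega, fun i hi => ?_, fun i hi j hj hij => ?_⟩ ?_
  · have := hle i
    have := hM i
    omega
  · have := hle i
    have := hk i hi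
    omega
  · have := hle i
    have := a1 i hi
    omega
  · have := hsum i hi j hj hij
    have := a2 i hi j hj hij
    omega
  · omega

theorem few_pair {r d M k u : ℕ} {m : Fin r → ℕ} {I : Finset (Fin r)} (hM : ∀ i, m i ≤ M)
    (hk : ∀ i, i ∉ I → m i ≤ k) (hu : 1 ≤ u) (huk : u ≤ k + 1) (hkM : k ≤ M)
    (hd : 32 * (u + 1) ^ 2 ≤ d) (hA : Apart d (10 * (u + 1) ^ 2) I m)
    (h : bigC I u m + room d (M + 1) (k + 1) u ≤ (d + 2).choose 2) (i j : Fin r) (hij : i ≠ j) :
    m i + m j ≤ d := by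
  classical
  by_cases hI : i ∈ I ∧ j ∈ I
  · have := hA.2.2 i hI.1 j hI.2 hij
    omega
  have hprod : m i * m j ≤ k * M := by
    by_cases hi : i ∈ I
    · have hj : j ∉ I := fun hj => hI ⟨hi, hj⟩
      rw [mul_comm]
      exact Nat.mul_le_mul (hk j hj) (hM i)
    · exact Nat.mul_le_mul (hk i hi) (hM j)
  have hf : ∀ l, (m l + 1).choose 2 ≤
      (if l ∈ I ∨ u < m l then (m l + 1).choose 2 else 0) + (u + 1).choose 2 := by
    intro l
    split_ifs with h1
    · exact Nat.le_add_right _ _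
    · rw [not_or, not_lt] at h1
      rw [Nat.zero_add]
      exact Nat.choose_le_choose 2 (by omega)
  have hsum : (if i ∈ I ∨ u < m i then (m i + 1).choose 2 else 0) +
      (if j ∈ I ∨ u < m j then (m j + 1).choose 2 else 0) ≤ bigC I u m := by
    unfold bigC
    rw [Finset.sum_filter]
    have h1 := Finset.sum_pair (f := fun l => if l ∈ I ∨ u < m l then (m l + 1).choose 2 else 0)
      hij
    rw [← h1]
    exact Finset.sum_le_sum_of_subset (Finset.subset_univ _)
  have h1 := hf i
  have h2 := hf j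
  have h3 := room_ge (d := d) hu huk hkM
  have e1 : 2 * (m i + 1).choose 2 = m i * (m i + 1) := tr_two_choose _
  have e2 : 2 * (m j + 1).choose 2 = m j * (m j + 1) := tr_two_choose _
  have e3 : 2 * (u + 1).choose 2 = u * (u + 1) := tr_two_choose _
  have e4 : 2 * (d + 2).choose 2 = (d + 2) * (d + 1) := tm_choose d
  have e5 : m i * (m i + 1) = m i * m i + m i := by ring
  have e6 : m j * (m j + 1) = m j * m j + m j := by ring
  have e7 : (d + 2) * (d + 1) = d * d + 3 * d + 2 := by ring
  have e8 : (m i + m j) * (m i + m j) = m i * m i + m j * m j + 2 * (m i * m j) := by ring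
  have e9 : (k + 1) * (M + 1) = k * M + k + M + 1 := by ring
  have e10 : u * (u + 1) ≤ (u + 1) ^ 2 * (M + 1) := by
    rw [sq]
    calc u * (u + 1) ≤ (u + 1) * (u + 1) := Nat.mul_le_mul_right _ (Nat.le_succ u)
      _ ≤ (u + 1) * (u + 1) * (M + 1) := Nat.le_mul_of_pos_right _ (by omega)
  have e11 : 2 * d ≤ (u + 1) * d := Nat.mul_le_mul_right d (by omega)
  have h4 : (m i + m j) * (m i + m j) ≤ d * d := by omega
  exact Nat.mul_self_le_mul_self_iff.mp h4

/-- nonspeciality -/
theorem TwoScale.nonspecial {r d M k u : ℕ} {p : Fin r → Fin 3 → ℂ} (hp : GenericPoints p)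
    {m : Fin r → ℕ} {I : Finset (Fin r)} (hI : I.card ≤ 3) (hM : ∀ i, m i ≤ M)
    (hk : ∀ i, i ∉ I → m i ≤ k) (hkM : k ≤ M) (h : TwoScale d M k u I m) :
    finrank ℂ (linSys d p m) = (d + 2).choose 2 - ∑ j, (m j + 1).choose 2 := by
  obtain ⟨hu, huk, hd, ⟨a0, a1, a2⟩, h⟩ := h
  have hA : Apart d (9 * (u + 1) ^ 2) I m := ⟨by omega, fun i hi => by have := a1 i hi; omega,
    fun i hi j hj hij => by have := a2 i hi j hj hij; omega⟩
  have e1 : room d M k u = 3 * (k * M) + 9 * ((u + 1) ^ 2 * M) + (u + 1) ^ 2 * M +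
      3 * ((u + 1) * d) := by
    unfold room
    ring
  rcases h with h | h
  · exact fbig hp hI hM hk hkM hu huk hd hA (by omega)
  · exact fsmall hp hI hM hk hkM hu huk hd hA (by omega)

/-- if the system is nonempty, then the large points leave sufficiently many curves -/
theorem TwoScale.few {r d M k u : ℕ} {p : Fin r → Fin 3 → ℂ} (hp : GenericPoints p)
    {m : Fin r → ℕ} {I : Finset (Fin r)} (hI : I.card ≤ 3) (hM : ∀ i, m i ≤ M)
    (hk : ∀ i, i ∉ I → m i ≤ k) (hkM : k ≤ M) (h : TwoScale d (M + 1) (k + 1) u I m)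
    (hne : linSys d p m ≠ ⊥) :
    bigC I u m + room d (M + 1) (k + 1) u ≤ (d + 2).choose 2 := by
  have h1 := h.nonspecial hp hI (fun i => (hM i).trans (Nat.le_succ M))
    (fun i hi => (hk i hi).trans (Nat.le_succ k)) (by omega)
  have hpos : finrank ℂ (linSys d p m) ≠ 0 := by
    intro h2
    exact hne (Submodule.finrank_eq_zero.mp h2)
  have h2 := sum_big_small I u m
  obtain ⟨hu, huk, hd, hA, h⟩ := h
  rcases h with h | h
  · exact h
  · omega

end Pool.Agent.Work.MP_0421d9_ag
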