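import Pool.Agent.Work.MP_0421d9_ag.TThree

/-!
Systems with many conditions imposed by points of small multiplicity.
-/

namespace Pool.Agent.Work.MP_0421d9_ag.LD

open MvPolynomial Module

theorem tm_choose (d : ℕ) : 2 * (d + 2).choose 2 = (d + 2) * (d + 1) := by
  have h := tr_two_choose (d + 1)
  rw [h]
  ring

theorem onB_onB {r : ℕ} {I B : Finset (Fin r)} (h : I ⊆ B) (m : Fin r → ℕ) :
    onB I (onB B m) = onB I m := by
  funext i
  unfold onB
  split_ifs with h1 h2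
  · rfl
  · exact absurd (h h1) h2
  · rfl

theorem onB_of_mem {r : ℕ} {B : Finset (Fin r)} {m : Fin r → ℕ} {i : Fin r} (h : i ∈ B) :
    onB B m i = m i := if_pos h

/-- numbers in the first case -/
theorem tm_num {u M M₂ d N : ℕ} (hu : 1 ≤ u) (hd : 1 ≤ d) (hMd : M ≤ d)
    (h : 2 * N + 6 * (M₂ * M) + 32 * ((u + 1) ^ 2 * d) ≤ (d + 2) * (d + 1)) :
    ∃ q D₁, d = D₁ + q * (u + 1) ∧ q * (u + 1) ≤ 9 * (u + 1) ^ 2 ∧
      6 * (M₂ * M) + 2 * N ≤ (D₁ + 2) * (D₁ + 1) ∧
      2 * N + 6 * (u * M) + (D₁ + 1) * (u * (u + 3)) ≤ (D₁ + 2) * (D₁ + 1) ∧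
      3 * (u * M) ≤ (D₁ + 2 - u * (u + 1)) / 2 * q ∧ u * (u + 1) ≤ D₁ + 2 := by
  obtain ⟨q, hq⟩ : ∃ q, q = 9 * (u * M) / d + 1 := ⟨_, rfl⟩
  have hq1 : q ≤ 9 * u + 1 := by
    have h1 : 9 * (u * M) / d ≤ 9 * u := by
      apply Nat.div_le_of_le_mul
      have h2 : u * M ≤ u * d := Nat.mul_le_mul_left u hMd
      have e1 : d * (9 * u) = 9 * (u * d) := by ring
      omega
    omega
  have hq2 : 9 * (u * M) ≤ d * q := by
    have h1 := Nat.lt_mul_div_succ (9 * (u * M)) (b := d) (by omega)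
    rw [hq]
    exact h1.le
  have hΔ : q * (u + 1) ≤ 9 * (u + 1) ^ 2 := by
    have h1 : q * (u + 1) ≤ 9 * (u + 1) * (u + 1) := Nat.mul_le_mul_right _ (by omega)
    have e1 : 9 * (u + 1) * (u + 1) = 9 * (u + 1) ^ 2 := by ring
    omega
  obtain ⟨s, hs⟩ : ∃ s, s = (u + 1) ^ 2 := ⟨_, rfl⟩
  have hs4 : 4 ≤ s := by
    rw [hs]
    have : 2 * 2 ≤ (u + 1) * (u + 1) := Nat.mul_le_mul (by omega) (by omega)
    have e1 : (u + 1) ^ 2 = (u + 1) * (u + 1) := sq _
    omega
  rw [← hs] at h hΔ ⊢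
  have hd2 : 32 * s ≤ d + 3 := by
    by_contra hcon
    have h1 : (d + 4) * d ≤ 32 * s * d := Nat.mul_le_mul_right d (by omega)
    have e1 : (d + 4) * d = d * d + 4 * d := by ring
    have e2 : (d + 2) * (d + 1) = d * d + 3 * d + 2 := by ring
    have e3 : 32 * s * d = 32 * (s * d) := by ring
    have h2 : 4 * d ≤ s * d := Nat.mul_le_mul_right d hs4
    -- `d ≤ 2`
    have h3 : d ≤ 2 := by omega
    have h4 : d * d ≤ 2 * d := Nat.mul_le_mul_right d h3
    omega
  obtain ⟨D₁, hD₁⟩ : ∃ D₁, d = D₁ + q * (u + 1) := ⟨d - q * (u + 1), by omega⟩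
  have e1 : (u + 1) ^ 2 = u * u + 2 * u + 1 := by ring
  have e2 : u * (u + 1) = u * u + u := by ring
  have e3 : u * (u + 3) = u * u + 3 * u := by ring
  have huu : 1 * u ≤ u * u := Nat.mul_le_mul_right u hu
  set Δ := q * (u + 1) with hΔdef
  have hdiff : (d + 2) * (d + 1) ≤ (D₁ + 2) * (D₁ + 1) + Δ * (2 * d + 3) := by
    have e4 : (d + 2) * (d + 1) = (D₁ + 2) * (D₁ + 1) + Δ * (d + D₁ + 3) := by
      rw [hD₁]
      ring
    rw [e4]
    apply Nat.add_le_add_left
    exact Nat.mul_le_mul_left _ (by omega)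
  have hΔ2 : Δ * (2 * d + 3) ≤ 9 * s * (2 * d + 3) := Nat.mul_le_mul_right _ hΔ
  have e5 : 9 * s * (2 * d + 3) = 18 * (s * d) + 27 * s := by ring
  have h27 : 27 * s ≤ s * d := by
    rw [mul_comm]
    exact Nat.mul_le_mul_left s (by omega)
  refine ⟨q, D₁, hD₁, hΔ, ?_, ?_, ?_, ?_⟩
  · omega
  · have h3 : (D₁ + 1) * (u * (u + 3)) ≤ (d + 1) * (2 * s) := Nat.mul_le_mul (by omega) (by omega)
    have e6 : (d + 1) * (2 * s) = 2 * (s * d) + 2 * s := by ring
    have h4 : 6 * (u * M) ≤ 6 * (s * d) := by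
      apply Nat.mul_le_mul_left
      exact Nat.mul_le_mul (by omega) hMd
    omega
  · obtain ⟨g, hg⟩ : ∃ g, g = (D₁ + 2 - u * (u + 1)) / 2 := ⟨_, rfl⟩
    rw [← hg]
    have h3 : d ≤ 3 * g := by omega
    have h4 : d * q ≤ 3 * g * q := Nat.mul_le_mul_right q h3
    have e6 : 3 * g * q = 3 * (g * q) := by ring
    omega
  · omega

theorem master_aux {r u M M₂ d : ℕ} {p : Fin r → V3} (hp : GenericPoints p) {m : Fin r → ℕ}
    {I : Finset (Fin r)} (hI : I.card ≤ 3) (hM : ∀ i, m i ≤ M) (hM₂ : ∀ i, i ∉ I → m i ≤ M₂)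
    (hMM : M₂ ≤ M) (hMd : M ≤ d) (hu : 1 ≤ u) (huM : u ≤ M₂)
    (h1 : ∀ i ∈ I, m i + 9 * (u + 1) ^ 2 ≤ d)
    (h2 : ∀ i ∈ I, ∀ j ∈ I, i ≠ j → m i + m j + 9 * (u + 1) ^ 2 ≤ d)
    (hS : 6 * (M₂ * M) + 16 * ((u + 1) ^ 2 * d) ≤
      ∑ i ∈ Finset.univ.filter (fun i => i ∉ I ∧ m i ≤ u), (m i + 1).choose 2) :
    finrank ℂ (linSys d p m) = (d + 2).choose 2 - ∑ i, (m i + 1).choose 2 := by
  classical
  set B := Finset.univ.filter (fun i => i ∈ I ∨ u < m i) with hB
  have hIB : I ⊆ B := fun i hi => Finset.mem_filter.mpr ⟨Finset.mem_univ _, Or.inl hi⟩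
  have hsmall : ∀ i, i ∉ B → m i ≤ u := by
    intro i hi
    by_contra hcon
    exact hi (Finset.mem_filter.mpr ⟨Finset.mem_univ _, Or.inr (by omega)⟩)
  have hsum : ∑ i, (m i + 1).choose 2 = ∑ i ∈ B, (m i + 1).choose 2 +
      ∑ i ∈ Finset.univ.filter (fun i => i ∉ I ∧ m i ≤ u), (m i + 1).choose 2 := by
    rw [← Finset.sum_filter_add_sum_filter_not Finset.univ (fun i => i ∈ I ∨ u < m i)]
    congr 1
    apply Finset.sum_congr _ (fun _ _ => rfl)
    ext i
    simp only [Finset.mem_filter, Finset.mem_univ, true_and, not_or, not_lt]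
  have hdc := tm_choose d
  by_cases hcase : 2 * ∑ i ∈ B, (m i + 1).choose 2 + 6 * (M₂ * M) + 32 * ((u + 1) ^ 2 * d) ≤
      (d + 2) * (d + 1)
  · obtain ⟨q, D₁, hD₁, hΔ, c1, c2, c3, c4⟩ := tm_num hu (by omega) hMd hcase
    have hregI : ∀ D, D₁ ≤ D →
        finrank ℂ (linSys D p (onB I m)) + ∑ i ∈ I, (m i + 1).choose 2 = (D + 2).choose 2 := by
      intro D hD
      apply three_regular hp m hI
      · intro i hi
        have := h1 i hi
        omega
      · intro i hi j hj hij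
        have := h2 i hi j hj hij
        omega
    -- the points of `B` are regular in degree `D₁`
    have hregB : finrank ℂ (linSys D₁ p (onB B m)) + ∑ i ∈ B, (m i + 1).choose 2 =
        (D₁ + 2).choose 2 := by
      rw [hPm_eq hp, ← sum_onB]
      refine tr_regular (u := M₂) (M := M) I (by omega) hMM (fun i => (onB_le B m i).trans (hM i))
        (fun i hi => (onB_le B m i).trans (hM₂ i hi)) ?_ ?_
      · rw [onB_onB hIB, ← hPm_eq hp, sum_onB]
        exact hregI D₁ le_rfl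
      · rw [sum_onB]
        have := tm_choose D₁
        omega
    refine rel_main (M := M) (D₁ := D₁) (g := (D₁ + 2 - u * (u + 1)) / 2) hp B hu
      (huM.trans hMM) hM hsmall hregB c2 (by omega) (by omega) ?_
    have e3 : d - D₁ = q * (u + 1) := by
      rw [hD₁, Nat.add_sub_cancel_left]
    rw [e3, Nat.mul_div_cancel _ (by omega)]
    exact c3
  · -- the system is empty
    have hneg : (d + 2).choose 2 + 3 * (M₂ * M) < ∑ i, (m i + 1).choose 2 := by
      have e1 : 32 * ((u + 1) ^ 2 * d) = 2 * (16 * ((u + 1) ^ 2 * d)) := by ring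
      omega
    have hempty : linSys d p m = ⊥ := by
      by_contra hne
      have hreg : finrank ℂ (linSys d p (onB I m)) + ∑ i, (onB I m i + 1).choose 2 =
          (d + 2).choose 2 := by
        rw [sum_onB]
        apply three_regular hp m hI
        · intro i hi
          have := h1 i hi
          omega
        · intro i hi j hj hij
          have := h2 i hi j hj hij
          omega
      obtain ⟨S₁, hS₁, h3, h4⟩ := two_window hp (u := M₂) (M := M) (by omega) hMM hM I hM₂ hreg hne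
        (by omega)
      omega
    rw [hempty, finrank_bot]
    omega

/-- **Many points of small multiplicity.** Let `I` be a set of at most three points. If the points
of multiplicity at most `u` outside of `I` impose sufficiently many conditions, then the system is
nonspecial. -/
theorem master {r u M M₂ d : ℕ} {p : Fin r → V3} (hp : GenericPoints p) {m : Fin r → ℕ}
    {I : Finset (Fin r)} (hI : I.card ≤ 3) (hM : ∀ i, m i ≤ M) (hM₂ : ∀ i, i ∉ I → m i ≤ M₂)
    (hMM : M₂ ≤ M) (hu : 1 ≤ u) (huM : u ≤ M₂)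
    (h1 : ∀ i ∈ I, m i + 9 * (u + 1) ^ 2 ≤ d)
    (h2 : ∀ i ∈ I, ∀ j ∈ I, i ≠ j → m i + m j + 9 * (u + 1) ^ 2 ≤ d)
    (hS : 6 * (M₂ * M) + 16 * ((u + 1) ^ 2 * d) ≤
      ∑ i ∈ Finset.univ.filter (fun i => i ∉ I ∧ m i ≤ u), (m i + 1).choose 2) :
    finrank ℂ (linSys d p m) = (d + 2).choose 2 - ∑ i, (m i + 1).choose 2 := by
  by_cases hmd : ∀ i, m i ≤ d
  swap
  · push Not at hmd
    obtain ⟨i, hi⟩ := hmd
    have h3 := finrank_linSys_zero_of_gt (d := d) (p := p) (m := m) (i := i) hi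
    have h4 : (m i + 1).choose 2 ≤ ∑ l, (m l + 1).choose 2 :=
      Finset.single_le_sum (f := fun l => (m l + 1).choose 2) (fun l _ => Nat.zero_le _)
        (Finset.mem_univ i)
    have h5 : (d + 2).choose 2 ≤ (m i + 1).choose 2 := Nat.choose_le_choose 2 (by omega)
    omega
  have hd : 1 ≤ d := by
    by_contra hcon
    have h3 : ∀ i ∈ Finset.univ.filter (fun i => i ∉ I ∧ m i ≤ u), (m i + 1).choose 2 = 0 := by
      intro i _
      have h4 : m i = 0 := by
        have := hmd i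
        omega
      rw [h4]
      rfl
    rw [Finset.sum_eq_zero h3] at hS
    have h4 : 1 ≤ M₂ * M := Nat.mul_pos (by omega) (by omega)
    omega
  have hud : (min u d + 1) ^ 2 ≤ (u + 1) ^ 2 := Nat.pow_le_pow_left (by omega) 2
  refine master_aux (u := min u d) (M := min M d) (M₂ := min M₂ d) hp hI
    (fun i => le_min (hM i) (hmd i)) (fun i hi => le_min (hM₂ i hi) (hmd i)) (by omega)
    (min_le_right _ _) (by omega) (by omega)
    (fun i hi => by have := h1 i hi; omega) (fun i hi j hj hij => by have := h2 i hi j hj hij; omega)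
    ?_
  have h3 : min M₂ d * min M d ≤ M₂ * M := Nat.mul_le_mul (min_le_left _ _) (min_le_left _ _)
  have h4 : (min u d + 1) ^ 2 * d ≤ (u + 1) ^ 2 * d := Nat.mul_le_mul_right d hud
  have h5 : Finset.univ.filter (fun i => i ∉ I ∧ m i ≤ u) =
      Finset.univ.filter (fun i => i ∉ I ∧ m i ≤ min u d) := by
    apply Finset.filter_congr
    intro i _
    have := hmd i
    constructor
    · rintro ⟨h6, h7⟩
      exact ⟨h6, by omega⟩
    · rintro ⟨h6, h7⟩
      exact ⟨h6, by omega⟩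
  rw [h5] at hS
  omega

end Pool.Agent.Work.MP_0421d9_ag.LD
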