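import Pool.Agent.Work.MP_0421d9_ag.FWin
import Pool.Agent.Work.MP_0421d9_ag.TMas

/-!
Strips made of points of arbitrary multiplicities at most `u`, and the relative theorem with less
room.
-/

namespace Pool.Agent.Work.MP_0421d9_ag.LD

open MvPolynomial Module

theorem greedy {α : Type*} [DecidableEq α] {f : α → ℕ} {W T : ℕ} (Q : Finset α)
    (hf : ∀ i ∈ Q, f i ≤ W) (hT : T ≤ ∑ i ∈ Q, f i) :
    ∃ P ⊆ Q, T ≤ ∑ i ∈ P, f i ∧ ∑ i ∈ P, f i ≤ T + W := by
  induction Q using Finset.induction_on with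
  | empty => exact ⟨∅, Finset.Subset.refl _, hT, by simp⟩
  | insert a Q ha ih =>
    rw [Finset.sum_insert ha] at hT
    rcases Nat.lt_or_ge (∑ i ∈ Q, f i) T with h | h
    · refine ⟨insert a Q, Finset.Subset.refl _, ?_, ?_⟩
      · rw [Finset.sum_insert ha]
        exact hT
      · rw [Finset.sum_insert ha]
        have := hf a (Finset.mem_insert_self _ _)
        omega
    · obtain ⟨P, hP, h1, h2⟩ := ih (fun i hi => hf i (Finset.mem_insert_of_mem hi)) h
      exact ⟨P, hP.trans (Finset.subset_insert _ _), h1, h2⟩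

theorem enum_finset {r : ℕ} (P : Finset (Fin r)) :
    ∃ e : Fin P.card → Fin r, Function.Injective e ∧ (∀ k, e k ∈ P) ∧
      ∀ f : Fin r → ℕ, ∑ k, f (e k) = ∑ i ∈ P, f i := by
  let g : Fin P.card ≃ P := P.equivFin.symm
  refine ⟨fun k => (g k).1, fun a b hab => g.injective (Subtype.ext hab), fun k => (g k).2,
    fun f => ?_⟩
  rw [← Finset.sum_coe_sort P f]
  exact Equiv.sum_comp g (fun i : P => f i.1)

/-- the points outside `B` -/
def offP {r : ℕ} (B : Finset (Fin r)) : Finset (Fin r) := Finset.univ.filter (fun i => i ∉ B)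

theorem sum_offP {r : ℕ} (B : Finset (Fin r)) (f : Fin r → ℕ) :
    ∑ i, f i = ∑ i ∈ B, f i + ∑ i ∈ offP B, f i := by
  classical
  rw [← Finset.sum_filter_add_sum_filter_not Finset.univ (fun i => i ∈ B)]
  congr 1
  apply Finset.sum_congr _ (fun _ _ => rfl)
  ext i
  simp

/-- a strip made of points outside `B`, which have multiplicity at most `u` -/
theorem fs_strip {r D u g : ℕ} {y : Fin r → ℕ} (B : Finset (Fin r)) (hu : 1 ≤ u)
    (hms : ∀ i, i ∉ B → y i ≤ u) (huD : u + 1 ≤ D) (hg1 : u.choose 2 + 2 ≤ g)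
    (hg2 : 2 * g + (u + 1).choose 2 + u ≤ D + 1)
    (hsum : fA D u + g ≤ ∑ i ∈ offP B, (y i + 1).choose 2) :
    ∃ (A : ℕ) (y' : Fin r → ℕ), StripM D u A y y' ∧ g ≤ A ∧ g + A ≤ D - u + 1 ∧
      (∀ i ∈ B, y' i = y i) := by
  classical
  have hW : ∀ i ∈ offP B, (y i + 1).choose 2 ≤ (u + 1).choose 2 := fun i hi =>
    Nat.choose_le_choose 2 (Nat.succ_le_succ (hms i (Finset.mem_filter.mp hi).2))
  obtain ⟨P, hP, h1, h2⟩ := greedy (offP B) hW hsum
  obtain ⟨e, he, heP, hesum⟩ := enum_finset P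
  have heB : ∀ k, e k ∉ B := fun k => (Finset.mem_filter.mp (hP (heP k))).2
  have hek : ∀ k, (y ∘ e) k ≤ u := fun k => hms _ (heB k)
  have hS : ∑ k, ((y ∘ e) k + 1).choose 2 = ∑ i ∈ P, (y i + 1).choose 2 :=
    hesum (fun i => (y i + 1).choose 2)
  obtain ⟨A, hA⟩ : ∃ A, ∑ i ∈ P, (y i + 1).choose 2 = fA D u + A :=
    ⟨∑ i ∈ P, (y i + 1).choose 2 - fA D u, by omega⟩
  have hAg : g ≤ A := by omega
  have hAle : A ≤ g + (u + 1).choose 2 := by omega
  have hc : (u - 1).choose 2 ≤ u.choose 2 := Nat.choose_le_choose 2 (Nat.sub_le u 1)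
  have hz : hFm D (u - 1) (y ∘ e) = 0 := by
    by_contra hcon
    have e1 : {α : Fin 3 →₀ ℕ | α 2 ≤ u - 1} = {α | α 2 < u} := by
      ext α
      simp only [Set.mem_ofPred_eq]
      omega
    unfold hFm at hcon
    rw [e1] at hcon
    have h3 : ∃ i, (y ∘ e) i ≠ 0 := by
      by_contra h4
      push Not at h4
      have h5 : ∑ k, ((y ∘ e) k + 1).choose 2 = 0 :=
        Finset.sum_eq_zero (fun k _ => by rw [h4 k]; rfl)
      omega
    have h4 := strip_window1 hek (by omega) h3 hcon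
    rw [hS, hA] at h4
    omega
  have hfull : hFm D u (y ∘ e) ≤ D - u + 1 - A := by
    have e1 : {α : Fin 3 →₀ ℕ | α 2 ≤ u} = {α | α 2 < u + 1} := by
      ext α
      simp only [Set.mem_ofPred_eq]
      omega
    unfold hFm
    rw [e1]
    have h3 := fA_succ D u
    have h4 := strip_window2 (D := D) (H := u + 1) (k := y ∘ e)
      (fun k => (hek k).trans (Nat.le_succ u)) (by omega) (by
        rw [hS, hA, h3, Nat.add_sub_cancel]
        omega)
    rw [hS, hA, h3] at h4
    omega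
  have hfA := fA_eq (D := D) (H := u) (by omega)
  have h5 : A + u * (D + 1) = ∑ k, (y (e k) + 1).choose 2 + u.choose 2 := by
    have h6 : ∑ k, (y (e k) + 1).choose 2 = fA D u + A := by rw [← hA]; exact hS
    omega
  refine ⟨A, rest e y, ⟨P.card, e, he, hu, huD, by omega, h5, hfull, hz, rfl⟩, hAg, by omega,
    fun i hi => rest_not_mem (fun ⟨k, hk⟩ => heB k (hk ▸ hi))⟩

theorem fs_room {N W u D₁ : ℕ} (h : N + W + (2 * u + 1) * (D₁ + 1) ≤ (D₁ + 2) * (D₁ + 1)) {D : ℕ}
    (hD : D₁ ≤ D) : N + W + (2 * u + 1) * (D + 1) ≤ (D + 2) * (D + 1) := by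
  have hroom : 2 * u + 1 ≤ D₁ + 2 := by
    have h3 : (2 * u + 1) * (D₁ + 1) ≤ (D₁ + 2) * (D₁ + 1) := by omega
    exact Nat.le_of_mul_le_mul_right h3 (by omega)
  induction D, hD using Nat.le_induction with
  | base => exact h
  | succ n hn ih =>
    have e1 : (2 * u + 1) * (n + 1 + 1) = (2 * u + 1) * (n + 1) + (2 * u + 1) := by ring
    have e2 : (n + 1 + 2) * (n + 1 + 1) = (n + 2) * (n + 1) + 2 * (n + 2) := by ring
    rw [e1, e2]
    omega

theorem rel_aux2 {r u M D₁ g : ℕ} {m : Fin r → ℕ} (B : Finset (Fin r)) (hu : 1 ≤ u)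
    (huM : u ≤ M) (hM : ∀ i, m i ≤ M) (hms : ∀ i, i ∉ B → m i ≤ u)
    (hreg : hPm D₁ (onB B m) + ∑ i, (onB B m i + 1).choose 2 = (D₁ + 2).choose 2)
    (h2 : 2 * ∑ i, (onB B m i + 1).choose 2 + 6 * (u * M) + (2 * u + 1) * (D₁ + 1) ≤
      (D₁ + 2) * (D₁ + 1))
    (hg1 : u.choose 2 + 2 ≤ g) (hg2 : 2 * g + (u + 1).choose 2 + u ≤ D₁ + 1) :
    ∀ D, D₁ ≤ D → ∀ (y : Fin r → ℕ) (U S : ℕ),
    (∀ i ∈ B, y i = m i) → (∀ i, y i ≤ m i) →
    3 * (u * M) ≤ U + S + g * ((D - D₁) / (u + 1)) →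
    (hPm D y : ℤ) ≤ max (U : ℤ) (MM.chi D y + S) := by
  intro D
  induction D using Nat.strong_induction_on with
  | _ D ih =>
  intro hD y U S hyB hym hpot
  have hyM : ∀ i, y i ≤ M := fun i => (hym i).trans (hM i)
  have hyu : ∀ i, i ∉ B → y i ≤ u := fun i hi => (hym i).trans (hms i hi)
  have hregy : hPm D (onB B y) + ∑ i, (onB B y i + 1).choose 2 = (D + 2).choose 2 := by
    rw [onB_congr hyB]
    exact linSys_reg_mono (onB B m) (fun i => generic_coord_ne (gpt_generic r) i 2) hD hreg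
  rcases Nat.lt_or_ge (U + S) (3 * (u * M)) with hUS | hUS
  swap
  · exact tr_base B hu huM hyM hyu hregy hUS
  have hK : 1 ≤ (D - D₁) / (u + 1) := by
    rcases Nat.eq_zero_or_pos ((D - D₁) / (u + 1)) with h0 | h0
    · rw [h0, Nat.mul_zero] at hpot
      omega
    · exact h0
  have hDu : u + 1 ≤ D - D₁ := by
    rw [Nat.le_div_iff_mul_le (by omega)] at hK
    omega
  rcases Nat.lt_or_ge (∑ i ∈ offP B, (y i + 1).choose 2) (fA D u + g) with hfew | hmany
  · have hfA := fA_eq (D := D) (H := u) (by omega)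
    have h3 : 2 * ∑ i, (onB B m i + 1).choose 2 + 6 * (u * M) + (2 * u + 1) * (D + 1) ≤
        (D + 2) * (D + 1) := fs_room h2 hD
    have h4 := sum_offP B (fun i => (y i + 1).choose 2)
    have h5 : ∑ i ∈ B, (y i + 1).choose 2 = ∑ i, (onB B m i + 1).choose 2 := by
      rw [← sum_onB, onB_congr hyB]
    have h6 : 2 * (D + 2).choose 2 = (D + 2) * (D + 1) := by
      have h6 := tr_two_choose (D + 1)
      rw [h6]
      ring
    have e3 : (2 * u + 1) * (D + 1) = 2 * (u * (D + 1)) + (D + 1) := by ring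
    have h7 := tr_regular B hu huM hyM hyu hregy (by omega)
    apply le_max_of_le_right
    unfold MM.chi
    have h8 : ((hPm D y + ∑ i, (y i + 1).choose 2 : ℕ) : ℤ) =
        (((D + 2).choose 2 : ℕ) : ℤ) := by rw [h7]
    push_cast at h8 ⊢
    linarith
  obtain ⟨A, y', hs, hA, hA', hy'B⟩ := fs_strip (g := g) B hu hyu (by omega) hg1 (by omega) hmany
  obtain ⟨h1, h2', h3, h4, h5, h6⟩ := hs.count
  have hle := hs.le
  have hyB' : ∀ i ∈ B, y' i = m i := fun i hi => (hy'B i hi).trans (hyB i hi)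
  have hym' : ∀ i, y' i ≤ m i := by
    intro i
    rcases h4 i with h | h
    · rw [h]
      exact hym i
    · rw [h]
      exact Nat.zero_le _
  have hdiv : ∀ D', D ≤ D' + (u + 1) → D₁ ≤ D' →
      g * ((D - D₁) / (u + 1)) ≤ g * ((D' - D₁) / (u + 1)) + g := by
    intro D' h1 h3
    have h4 : (D - D₁) / (u + 1) ≤ (D' - D₁) / (u + 1) + 1 := by
      rw [← Nat.add_div_right _ (by omega : 0 < u + 1)]
      exact Nat.div_le_div_right (by omega)
    have h5 := Nat.mul_le_mul_left g h4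
    rw [Nat.mul_add, Nat.mul_one] at h5
    exact h5
  have c1 := ih (D - u) (by omega) (by omega) y' (U + A) S hyB' hym' (by
    have := hdiv (D - u) (by omega) (by omega)
    omega)
  have c2 := ih (D - u - 1) (by omega) (by omega) y' U (S + (D - u + 1 - A)) hyB' hym' (by
    have := hdiv (D - u - 1) (by omega) (by omega)
    omega)
  have e1 : MM.chi (D - u) y' = MM.chi D y + A := by
    unfold MM.chi
    have h10 : (((D + 2).choose 2 + A + ∑ i, (y' i + 1).choose 2 : ℕ) : ℤ) =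
        (((D - u + 2).choose 2 + ∑ i, (y i + 1).choose 2 : ℕ) : ℤ) := by rw [h5]
    push_cast at h10 ⊢
    linarith
  have e2 : MM.chi (D - u - 1) y' = MM.chi D y - ((D - u + 1 - A : ℕ) : ℤ) := by
    have h11 : (((D - u + 2).choose 2 : ℕ) : ℤ) =
        (((D - u - 1 + 2).choose 2 + (D - u + 1) : ℕ) : ℤ) := by rw [h6]
    have h12 : ((D - u + 1 - A : ℕ) : ℤ) = ((D - u + 1 : ℕ) : ℤ) - A := Nat.cast_sub h3
    have h13 : MM.chi (D - u) y' = MM.chi (D - u - 1) y' + ((D - u + 1 : ℕ) : ℤ) := by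
      unfold MM.chi
      rw [h11]
      push_cast
      ring
    rw [h12]
    linarith
  rw [e1] at c1
  rw [e2] at c2
  push_cast at c1 c2
  have h14 : (hPm D y : ℤ) ≤ max ((hPm (D - u) y' : ℤ) - A) (hPm (D - u - 1) y' : ℤ) ∨
      (hPm D y : ℤ) ≤ 0 := by
    rcases le_max_iff.mp hle with h | h
    · rcases Nat.lt_or_ge (hPm (D - u) y') A with h' | h'
      · right
        have : hPm D y = 0 := by omega
        rw [this]
        simp
      · left
        apply le_max_of_le_left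
        have : ((hPm (D - u) y' - A : ℕ) : ℤ) = (hPm (D - u) y' : ℤ) - A := Nat.cast_sub h'
        rw [← this]
        exact_mod_cast h
    · left
      apply le_max_of_le_right
      exact_mod_cast h
  rcases h14 with h14 | h14
  · rcases le_max_iff.mp h14 with h15 | h15
    · rcases le_max_iff.mp c1 with h16 | h16
      · apply le_max_of_le_left
        linarith
      · apply le_max_of_le_right
        linarith
    · rcases le_max_iff.mp c2 with h16 | h16
      · apply le_max_of_le_left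
        linarith
      · apply le_max_of_le_right
        linarith
  · apply le_max_of_le_left
    exact h14.trans (by positivity)

/-- **The relative theorem.** Let the points in `B` impose independent conditions in degree `D₁`,
with room to spare; then arbitrarily many points of multiplicity at most `u` can be added in
degree `d`. -/
theorem rel_main2 {r u M D₁ d g : ℕ} {p : Fin r → V3} (hp : GenericPoints p) {m : Fin r → ℕ}
    (B : Finset (Fin r)) (hu : 1 ≤ u) (huM : u ≤ M) (hM : ∀ i, m i ≤ M)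
    (hms : ∀ i, i ∉ B → m i ≤ u)
    (hreg : finrank ℂ (linSys D₁ p (onB B m)) + ∑ i ∈ B, (m i + 1).choose 2 =
      (D₁ + 2).choose 2)
    (h2 : 2 * ∑ i ∈ B, (m i + 1).choose 2 + 6 * (u * M) + (2 * u + 1) * (D₁ + 1) ≤
      (D₁ + 2) * (D₁ + 1))
    (hg1 : u.choose 2 + 2 ≤ g) (hg2 : 2 * g + (u + 1).choose 2 + u ≤ D₁ + 1) (hd : D₁ ≤ d)
    (hK : 3 * (u * M) ≤ g * ((d - D₁) / (u + 1))) :
    finrank ℂ (linSys d p m) = (d + 2).choose 2 - ∑ i, (m i + 1).choose 2 := by
  rw [hPm_eq hp] at hreg ⊢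
  rw [← sum_onB] at hreg h2
  have h1 := rel_aux2 B hu huM hM hms hreg h2 hg1 hg2 d hd m 0 0 (fun _ _ => rfl)
    (fun _ => le_rfl) (by omega)
  have h3 := MM.hPm_count d m
  unfold MM.chi at h1
  simp only [Nat.cast_zero, add_zero] at h1
  rcases le_max_iff.mp h1 with h4 | h4
  · have h5 : hPm d m = 0 := by
      have : hPm d m ≤ 0 := by exact_mod_cast h4
      omega
    omega
  · have h5 : hPm d m + ∑ i, (m i + 1).choose 2 ≤ (d + 2).choose 2 := by
      have h6 : (hPm d m : ℤ) + ((∑ i, (m i + 1).choose 2 : ℕ) : ℤ) ≤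
          (((d + 2).choose 2 : ℕ) : ℤ) := by linarith
      exact_mod_cast h6
    omega

end Pool.Agent.Work.MP_0421d9_ag.LD
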