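import Pool.Agent.Work.MP_0421d9_ag.UDefs

/-!
U2: many columns. Regularity on `P¹ × P¹` for `k ≤ H`, `N k ≤ L`, by points on a line (helper25).
-/

namespace Pool.Agent.Work.MP_0421d9_ag.LD

open MvPolynomial Module

namespace UA

/-- `X 0 ↦ x`, `X 1 ↦ s`, `X 2 ↦ y` -/
noncomputable def rh (s : ℂ) (x : Polynomial ℂ) : R3 →ₐ[ℂ] Polynomial (Polynomial ℂ) :=
  aeval ![Polynomial.C x, Polynomial.C (Polynomial.C s), Polynomial.X]

theorem rh_coeff (s : ℂ) (x : Polynomial ℂ) (F : R3) (c : ℕ) :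
    (rh s x F).coeff c = ∑ α ∈ F.support, if α 2 = c then
      Polynomial.C (coeff α F * s ^ α 1) * x ^ α 0 else 0 := by
  unfold rh
  rw [aeval_def, eval₂_eq', Polynomial.finsetSum_coeff]
  refine Finset.sum_congr rfl fun α _ => ?_
  rw [Fin.prod_univ_three]
  simp only [Matrix.cons_val_zero, Matrix.cons_val_one, Matrix.cons_val]
  have h1 : (algebraMap ℂ (Polynomial (Polynomial ℂ))) (coeff α F) =
      Polynomial.C (Polynomial.C (coeff α F)) := rfl
  rw [h1, ← Polynomial.C_pow, ← Polynomial.C_pow, ← mul_assoc, ← Polynomial.C_mul,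
    ← Polynomial.C_mul, Polynomial.coeff_C_mul, Polynomial.coeff_X_pow]
  split_ifs with h2 h3 h3
  · rw [mul_one, map_mul, Polynomial.C_pow]
    ring
  · exact absurd h2.symm h3
  · exact absurd h3.symm h2
  · rw [mul_zero]

/-- the rows -/
noncomputable def rw' (F : R3) (c : ℕ) : Polynomial ℂ := (rh 1 Polynomial.X F).coeff c

theorem rw'_coeff (F : R3) (c a : ℕ) : (rw' F c).coeff a =
    ∑ α ∈ F.support, if α 2 = c ∧ α 0 = a then coeff α F else 0 := by
  unfold rw'
  rw [rh_coeff, Polynomial.finsetSum_coeff]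
  refine Finset.sum_congr rfl fun α _ => ?_
  by_cases h2 : α 2 = c
  · rw [if_pos h2, one_pow, mul_one, Polynomial.coeff_C_mul, Polynomial.coeff_X_pow]
    by_cases h3 : α 0 = a
    · rw [if_pos h3.symm, if_pos ⟨h2, h3⟩, mul_one]
    · rw [if_neg (fun h => h3 h.symm), if_neg (fun h => h3 h.2), mul_zero]
  · rw [if_neg h2, if_neg (fun h => h2 h.1), Polynomial.coeff_zero]

theorem rw'_coeff_hom {D : ℕ} {F : R3} (hF : F.IsHomogeneous D) (β : Fin 3 →₀ ℕ)
    (hβ : β.degree = D) : (rw' F (β 2)).coeff (β 0) = coeff β F := by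
  rw [rw'_coeff, Finset.sum_eq_single β]
  · rw [if_pos ⟨rfl, rfl⟩]
  · intro α hα hne
    rw [if_neg]
    rintro ⟨h2, h0⟩
    apply hne
    have hαD : α.degree = D := by
      have h4 : Finsupp.weight 1 α = D := hF (mem_support_iff.mp hα)
      have h5 : α.degree = Finsupp.weight 1 α :=
        congrArg (fun f => f α) (Finsupp.degree_eq_weight_one (σ := Fin 3) (R := ℕ))
      rw [h5, h4]
    rw [Finsupp.degree_eq_sum, Fin.sum_univ_three] at hαD hβ
    ext i
    fin_cases i
    · exact h0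
    · change α 1 = β 1
      omega
    · exact h2
  · intro hβ'
    rw [if_pos ⟨rfl, rfl⟩]
    exact notMem_support_iff.mp hβ'

theorem translate_rh (x : ℂ) (F : R3) :
    rh 0 Polynomial.X (translate ![x, 1, 0] F) = rh 1 (Polynomial.X + Polynomial.C x) F := by
  unfold rh translate
  rw [← AlgHom.comp_apply, comp_aeval]
  congr 2
  funext i
  fin_cases i
  · simp
    ring
  · simp
  · simp

theorem rh_comp (x : ℂ) (F : R3) (c : ℕ) : (rh 1 (Polynomial.X + Polynomial.C x) F).coeff c =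
    (rw' F c).comp (Polynomial.X + Polynomial.C x) := by
  unfold rw'
  rw [rh_coeff, rh_coeff, Polynomial.sum_comp]
  refine Finset.sum_congr rfl fun α _ => ?_
  split_ifs
  · rw [Polynomial.mul_comp, Polynomial.C_comp, Polynomial.pow_comp, Polynomial.X_comp]
  · rw [Polynomial.zero_comp]

theorem rh_zero_coeff (G : R3) (c a : ℕ) {m : ℕ} (hG : ∀ β : Fin 3 →₀ ℕ, β.degree < m →
    coeff β G = 0) (h : a + c < m) : ((rh 0 Polynomial.X G).coeff c).coeff a = 0 := by
  rw [rh_coeff, Polynomial.finsetSum_coeff]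
  refine Finset.sum_eq_zero fun α hα => ?_
  split_ifs with h2
  · rw [Polynomial.coeff_C_mul, Polynomial.coeff_X_pow]
    by_cases h1 : α 1 = 0
    · by_cases h3 : a = α 0
      · exfalso
        apply mem_support_iff.mp hα
        apply hG
        rw [Finsupp.degree_eq_sum, Fin.sum_univ_three]
        omega
      · rw [if_neg h3, mul_zero]
    · rw [zero_pow h1, mul_zero, zero_mul]
  · rw [Polynomial.coeff_zero]

theorem pow_dvd_rw' {F : R3} {x : ℂ} {m : ℕ} (h : VanishTo F ![x, 1, 0] m) (c : ℕ) :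
    (Polynomial.X - Polynomial.C x) ^ (m - c) ∣ rw' F c := by
  rw [Polynomial.X_sub_C_pow_dvd_iff, Polynomial.X_pow_dvd_iff]
  intro d hd
  rw [← rh_comp, ← translate_rh]
  exact rh_zero_coeff _ c d (vanishTo_iff_coeff.mp h) (by omega)

theorem sum_sub (k : ℕ) : ∑ c ∈ Finset.range k, (k - c) = (k + 1).choose 2 := by
  induction k with
  | zero => rfl
  | succ k ih =>
    rw [Finset.sum_range_succ', Finset.sum_congr rfl (fun c _ => Nat.add_sub_add_right k 1 c), ih,
      Nat.choose_succ_succ' (k + 1) 1, Nat.choose_one_right, Nat.sub_zero, add_comm]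

theorem sum_sub' {k H : ℕ} (h : k ≤ H) : ∑ c ∈ Finset.range H, (k - c) = (k + 1).choose 2 := by
  rw [← sum_sub k]
  symm
  apply Finset.sum_subset (Finset.range_mono h)
  intro c _ hc
  rw [Finset.mem_range] at hc
  omega

/-- the polynomials of degree less than `L` divisible by `P` of degree `n` -/
noncomputable def Wd (P : Polynomial ℂ) (L n : ℕ) : Submodule ℂ (Polynomial ℂ) :=
  (Polynomial.degreeLT ℂ (L - n)).map (LinearMap.mulLeft ℂ P)

theorem mem_Wd {P f : Polynomial ℂ} {L n : ℕ} (hP : P ≠ 0) (hn : P.natDegree = n) (h : P ∣ f)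
    (hf : ∀ a, L ≤ a → f.coeff a = 0) : f ∈ Wd P L n := by
  obtain ⟨g, rfl⟩ := h
  refine ⟨g, ?_, rfl⟩
  rw [SetLike.mem_coe, Polynomial.mem_degreeLT]
  by_cases hg : g = 0
  · rw [hg, Polynomial.degree_zero]
    exact WithBot.bot_lt_coe _
  have h1 : (P * g).natDegree < L := by
    by_contra hcon
    have h2 := hf _ (not_lt.mp hcon)
    rw [Polynomial.coeff_natDegree, Polynomial.leadingCoeff_eq_zero] at h2
    exact (mul_ne_zero hP hg) h2
  rw [Polynomial.natDegree_mul hP hg, hn] at h1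
  rw [Polynomial.degree_eq_natDegree hg]
  exact_mod_cast (by omega : g.natDegree < L - n)

instance finite_Wd (P : Polynomial ℂ) (L n : ℕ) : Module.Finite ℂ (Wd P L n) := by
  have h : Module.Finite ℂ (Polynomial.degreeLT ℂ (L - n)) :=
    Module.Finite.equiv (Polynomial.degreeLTEquiv ℂ (L - n)).symm
  exact Module.Finite.map _ _

theorem finrank_Wd_le (P : Polynomial ℂ) (L n : ℕ) : finrank ℂ (Wd P L n) ≤ L - n := by
  unfold Wd
  refine (Submodule.finrank_map_le _ _).trans ?_
  rw [LinearEquiv.finrank_eq (Polynomial.degreeLTEquiv ℂ (L - n))]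
  simp

/-- the special points -/
noncomputable def sp (N : ℕ) (i : Fin N) : V3 := ![((i : ℕ) : ℂ), 1, 0]

noncomputable def Pp (N n : ℕ) : Polynomial ℂ :=
  ∏ i : Fin N, (Polynomial.X - Polynomial.C ((i : ℕ) : ℂ)) ^ n

theorem Pp_ne_zero (N n : ℕ) : Pp N n ≠ 0 :=
  Finset.prod_ne_zero_iff.mpr fun _ _ => pow_ne_zero _ (Polynomial.X_sub_C_ne_zero _)

theorem natDegree_Pp (N n : ℕ) : (Pp N n).natDegree = N * n := by
  unfold Pp
  rw [Polynomial.natDegree_prod _ _
    (fun _ _ => pow_ne_zero _ (Polynomial.X_sub_C_ne_zero _))]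
  rw [Finset.sum_congr rfl (fun i _ => by
    rw [Polynomial.natDegree_pow, Polynomial.natDegree_X_sub_C, mul_one]), Finset.sum_const,
    Finset.card_univ, Fintype.card_fin, smul_eq_mul]

theorem Pp_dvd {N n : ℕ} {f : Polynomial ℂ}
    (h : ∀ i : Fin N, (Polynomial.X - Polynomial.C ((i : ℕ) : ℂ)) ^ n ∣ f) : Pp N n ∣ f := by
  unfold Pp
  refine Finset.prod_dvd_of_coprime ?_ (fun i _ => h i)
  intro i _ j _ hij
  apply IsCoprime.pow
  apply Polynomial.pairwise_coprime_X_sub_C (s := fun i : Fin N => ((i : ℕ) : ℂ)) ?_ hij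
  intro a b hab
  exact Fin.ext (Nat.cast_injective hab)

/-- the rows as a linear map -/
noncomputable def rwL (c : ℕ) : R3 →ₗ[ℂ] Polynomial ℂ where
  toFun F := rw' F c
  map_add' F G := by
    unfold rw'
    rw [map_add, Polynomial.coeff_add]
  map_smul' a F := by
    unfold rw'
    rw [map_smul, Polynomial.coeff_smul]
    rfl

theorem upper {H L k N : ℕ} (hH : 1 ≤ H) (hL : 1 ≤ L) :
    hR H L k N ≤ ∑ c ∈ Finset.range H, (L - N * (k - c)) := by
  refine (hT_le (sp N)).trans ?_
  let Φ : TS (H + L - 2) (rect H L) k (sp N) →ₗ[ℂ] ((c : Fin H) → Wd (Pp N (k - c)) L (N * (k - c))) :=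
    LinearMap.pi fun c => LinearMap.codRestrict _ ((rwL c).comp (Submodule.subtype _)) (by
      rintro ⟨F, hF⟩
      obtain ⟨h1, h2, h3⟩ := mem_TS.mp hF
      change rw' F c ∈ _
      refine mem_Wd (Pp_ne_zero _ _) (natDegree_Pp _ _) (Pp_dvd fun i => pow_dvd_rw' (h2 i) c) ?_
      intro a ha
      rw [rw'_coeff]
      refine Finset.sum_eq_zero fun α hα => ?_
      rw [if_neg]
      rintro ⟨-, h0⟩
      have h4 : α 0 < L := (h3 α (mem_support_iff.mp hα)).2
      omega)
  have hΦ : Function.Injective Φ := by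
    rw [← LinearMap.ker_eq_bot, LinearMap.ker_eq_bot']
    rintro ⟨F, hF⟩ h0
    obtain ⟨h1, h2, h3⟩ := mem_TS.mp hF
    rw [Submodule.mk_eq_zero]
    ext β
    rw [coeff_zero]
    by_contra hβ
    obtain ⟨h4, h5⟩ := h3 β hβ
    apply hβ
    rw [← rw'_coeff_hom h1 β (by
      have h6 : Finsupp.weight 1 β = H + L - 2 := h1 hβ
      have h7 : β.degree = Finsupp.weight 1 β :=
        congrArg (fun f => f β) (Finsupp.degree_eq_weight_one (σ := Fin 3) (R := ℕ))
      rw [h7, h6])]
    have h8 : rw' F (β 2) = 0 := congrArg Subtype.val (congrFun h0 ⟨β 2, h4⟩)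
    rw [h8, Polynomial.coeff_zero]
  refine (LinearMap.finrank_le_finrank_of_injective hΦ).trans ?_
  rw [Module.finrank_pi_fintype, Finset.sum_range]
  exact Finset.sum_le_sum fun c _ => finrank_Wd_le _ _ _

end UA

theorem hR_large {H L k N : ℕ} (hk : k ≤ H) (hL : N * k ≤ L) :
    hR H L k N + N * (k + 1).choose 2 = H * L := by
  rcases Nat.eq_zero_or_pos H with h0 | hH
  · subst h0
    obtain rfl : k = 0 := by omega
    rw [hR_zero]
    simp
  rcases Nat.eq_zero_or_pos L with h0 | hL'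
  · subst h0
    rw [hR_zero_right]
    rcases Nat.mul_eq_zero.mp (Nat.le_zero.mp hL) with h | h
    · rw [h]; simp
    · rw [h]; simp
  refine le_antisymm ?_ (hR_count H L k N)
  have h1 := UA.upper (k := k) (N := N) hH hL'
  have h2 : ∑ c ∈ Finset.range H, (L - N * (k - c)) + N * (k + 1).choose 2 = H * L := by
    rw [← UA.sum_sub' hk, Finset.mul_sum, ← Finset.sum_add_distrib]
    have h3 : ∀ c ∈ Finset.range H, L - N * (k - c) + N * (k - c) = L := by
      intro c _
      have h4 : N * (k - c) ≤ N * k := Nat.mul_le_mul_left N (Nat.sub_le k c)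
      omega
    rw [Finset.sum_congr rfl h3, Finset.sum_const, Finset.card_range, smul_eq_mul]
  omega

end Pool.Agent.Work.MP_0421d9_ag.LD
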