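import Pool.Agent.Work.MP_0421d9_ag.MDefs
import Pool.Agent.Work.MP_0421d9_ag.UAnchor

/-!
Many columns. Regularity on `P¹ × P¹` for `k i ≤ H`, `∑ k i ≤ L`, by points on a line (helper25).
-/

namespace Pool.Agent.Work.MP_0421d9_ag.LD

open MvPolynomial Module

namespace UAm

open UA (rh rw' rw'_coeff rw'_coeff_hom pow_dvd_rw' sum_sub' Wd mem_Wd finrank_Wd_le sp rwL)

noncomputable def Pp {N : ℕ} (n : Fin N → ℕ) : Polynomial ℂ :=
  ∏ i : Fin N, (Polynomial.X - Polynomial.C ((i : ℕ) : ℂ)) ^ n i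

theorem Pp_ne_zero {N : ℕ} (n : Fin N → ℕ) : Pp n ≠ 0 :=
  Finset.prod_ne_zero_iff.mpr fun _ _ => pow_ne_zero _ (Polynomial.X_sub_C_ne_zero _)

theorem natDegree_Pp {N : ℕ} (n : Fin N → ℕ) : (Pp n).natDegree = ∑ i, n i := by
  unfold Pp
  rw [Polynomial.natDegree_prod _ _
    (fun _ _ => pow_ne_zero _ (Polynomial.X_sub_C_ne_zero _))]
  exact Finset.sum_congr rfl (fun i _ => by
    rw [Polynomial.natDegree_pow, Polynomial.natDegree_X_sub_C, mul_one])

theorem Pp_dvd {N : ℕ} {n : Fin N → ℕ} {f : Polynomial ℂ}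
    (h : ∀ i : Fin N, (Polynomial.X - Polynomial.C ((i : ℕ) : ℂ)) ^ n i ∣ f) : Pp n ∣ f := by
  unfold Pp
  refine Finset.prod_dvd_of_coprime ?_ (fun i _ => h i)
  intro i _ j _ hij
  apply IsCoprime.pow
  apply Polynomial.pairwise_coprime_X_sub_C (s := fun i : Fin N => ((i : ℕ) : ℂ)) ?_ hij
  intro a b hab
  exact Fin.ext (Nat.cast_injective hab)

theorem upper {H L N : ℕ} {k : Fin N → ℕ} :
    hRm H L k ≤ ∑ c ∈ Finset.range H, (L - ∑ i, (k i - c)) := by
  refine (hTm_le (sp N)).trans ?_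
  let Φ : TSm (H + L - 2) (rect H L) k (sp N) →ₗ[ℂ]
      ((c : Fin H) → Wd (Pp (fun i => k i - c)) L (∑ i, (k i - c))) :=
    LinearMap.pi fun c => LinearMap.codRestrict _ ((rwL c).comp (Submodule.subtype _)) (by
      rintro ⟨F, hF⟩
      obtain ⟨h1, h2, h3⟩ := mem_TSm.mp hF
      change rw' F c ∈ _
      refine mem_Wd (Pp_ne_zero _) (natDegree_Pp _) (Pp_dvd fun i => pow_dvd_rw' (h2 i) c) ?_
      intro a ha
      rw [rw'_coeff]
      refine Finset.sum_eq_zero fun α hα => ?_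
      rw [if_neg]
      rintro ⟨-, h0⟩
      have h4 : α 0 < L := (h3 α (mem_support_iff.mp hα)).2
      omega)
  have hΦ : Function.Injective Φ := by
    rw [← LinearMap.ker_eq_bot, LinearMap.ker_eq_bot']
    rintro ⟨F, hF⟩ h0
    obtain ⟨h1, h2, h3⟩ := mem_TSm.mp hF
    rw [Submodule.mk_eq_zero]
    ext β
    rw [coeff_zero]
    by_contra hβ
    obtain ⟨h4, h5⟩ := h3 β hβ
    apply hβ
    rw [← rw'_coeff_hom h1 β (by
      have h6 : Finsupp.weight 1 β = H + L - 2 := h1 hβ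
      have h7 : β.degree = Finsupp.weight 1 β :=
        congrArg (fun f => f β) (Finsupp.degree_eq_weight_one (σ := Fin 3) (R := ℕ))
      rw [h7, h6])]
    have h8 : rw' F (β 2) = 0 := congrArg Subtype.val (congrFun h0 ⟨β 2, h4⟩)
    rw [h8, Polynomial.coeff_zero]
  refine (LinearMap.finrank_le_finrank_of_injective hΦ).trans ?_
  rw [Module.finrank_pi_fintype, Finset.sum_range]
  exact Finset.sum_le_sum fun c _ => finrank_Wd_le _ _ _

end UAm

theorem hRm_large {H L N : ℕ} {k : Fin N → ℕ} (hk : ∀ i, k i ≤ H) (hL : ∑ i, k i ≤ L) :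
    hRm H L k + ∑ i, (k i + 1).choose 2 = H * L := by
  refine le_antisymm ?_ (hRm_count H L k)
  have h1 := UAm.upper (H := H) (L := L) (k := k)
  have h2 : ∑ c ∈ Finset.range H, (L - ∑ i, (k i - c)) + ∑ i, (k i + 1).choose 2 = H * L := by
    rw [← Finset.sum_congr rfl (fun i _ => UA.sum_sub' (hk i)), Finset.sum_comm,
      ← Finset.sum_add_distrib]
    have h3 : ∀ c ∈ Finset.range H, L - ∑ i, (k i - c) + ∑ i, (k i - c) = L := by
      intro c _
      have h4 : ∑ i, (k i - c) ≤ ∑ i, k i := Finset.sum_le_sum (fun i _ => Nat.sub_le _ _)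
      omega
    rw [Finset.sum_congr rfl h3, Finset.sum_const, Finset.card_range, smul_eq_mul]
  omega

end Pool.Agent.Work.MP_0421d9_ag.LD
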