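import Pool.Agent.Work.MP_0421d9_ag.URank
import Pool.Agent.Work.MP_0421d9_ag.UAnchor

/-!
Windows on `P¹ × P¹`: with few or many conditions the dimension is the expected one up to
`(H - 1).choose 2`.
-/

namespace Pool.Agent.Work.MP_0421d9_ag.LD

open MvPolynomial Module

theorem uw_choose_pred (x : ℕ) : x.choose 2 = (x - 1).choose 2 + (x - 1) := by
  rcases Nat.eq_zero_or_pos x with hx | hx
  · subst hx
    rfl
  · obtain ⟨y, rfl⟩ : ∃ y, x = y + 1 := ⟨x - 1, by omega⟩
    rw [Nat.add_sub_cancel, Nat.choose_succ_succ' y 1, Nat.choose_one_right, add_comm]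

/-- a sequence with growing increments, from below -/
theorem uw_low {H L : ℕ} {h w : ℕ → ℕ} (h1 : ∀ L, h (L + 1) = h L + w L)
    (h3 : ∀ L, w L ≤ w (L + 1)) (h4 : ∀ L, 0 < w L → w L < H → w L < w (L + 1))
    (h2 : ∀ L, w L ≤ H) (hL : 1 ≤ w L) :
    ∀ J, min H (1 + J) ≤ w (L + J) ∧
      J * H + (H - 1 - J).choose 2 ≤ (h (L + 1 + J) - h (L + 1)) + (H - 1).choose 2 ∧
      h (L + 1) ≤ h (L + 1 + J) := by
  intro J
  induction J with
  | zero =>
    refine ⟨?_, ?_, le_refl _⟩
    · rw [Nat.add_zero, Nat.add_zero]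
      exact (min_le_right _ _).trans hL
    · simp
  | succ J ih =>
    obtain ⟨i1, i2, i3⟩ := ih
    have j1 : min H (1 + (J + 1)) ≤ w (L + (J + 1)) := by
      have k1 := h2 (L + J)
      have k2 := h3 (L + J)
      have k3 := h4 (L + J)
      have k4 : L + (J + 1) = L + J + 1 := by omega
      rw [k4]
      rcases Nat.lt_or_ge (w (L + J)) H with k5 | k5
      · have k6 : 0 < w (L + J) := by
          have : 0 < min H (1 + J) := by
            apply lt_min <;> omega
          omega
        have k7 := k3 k6 k5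
        have k8 : 1 + J ≤ w (L + J) := by
          by_contra hcon
          have : min H (1 + J) ≤ w (L + J) := i1
          rcases Nat.le_total H (1 + J) with k9 | k9
          · rw [min_eq_left k9] at this
            omega
          · rw [min_eq_right k9] at this
            omega
        exact (min_le_right _ _).trans (by omega)
      · exact (min_le_left _ _).trans (by omega)
    have j2 : h (L + 1 + (J + 1)) = h (L + 1 + J) + w (L + (J + 1)) := by
      have k1 : L + 1 + (J + 1) = L + 1 + J + 1 := by omega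
      have k2 : L + (J + 1) = L + 1 + J := by omega
      rw [k1, h1, k2]
    refine ⟨j1, ?_, by omega⟩
    have j3 := uw_choose_pred (H - 1 - J)
    have j4 : H - 1 - J - 1 = H - 1 - (J + 1) := by omega
    rw [j4] at j3
    have j5 : H ≤ min H (1 + (J + 1)) + (H - 1 - (J + 1)) := by
      rcases Nat.le_total H (1 + (J + 1)) with k9 | k9
      · rw [min_eq_left k9]
        omega
      · rw [min_eq_right k9]
        omega
    have j6 : (J + 1) * H = J * H + H := by ring
    rw [j2, j6]
    omega

/-- a sequence with growing increments, from above -/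
theorem uw_high {H L : ℕ} {h w : ℕ → ℕ} (h1 : ∀ L, h (L + 1) = h L + w L)
    (h4 : ∀ L, 0 < w L → w L < H → w L < w (L + 1))
    (h3 : ∀ L, w L ≤ w (L + 1)) (hL : w L < H) :
    ∀ n, n ≤ L → w (L - n) ≤ H - 1 - n ∧
      h L + (H - 1 - n).choose 2 ≤ h (L - n) + (H - 1).choose 2 := by
  intro n
  induction n with
  | zero =>
    intro _
    rw [Nat.sub_zero, Nat.sub_zero]
    exact ⟨by omega, le_refl _⟩
  | succ n ih =>
    intro hn
    obtain ⟨i1, i2⟩ := ih (by omega)
    have k1 : L - n = L - (n + 1) + 1 := by omega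
    have k2 := h3 (L - (n + 1))
    have k3 := h4 (L - (n + 1))
    have k4 := h1 (L - (n + 1))
    rw [← k1] at k2 k3 k4
    have k5 : w (L - (n + 1)) ≤ H - 1 - (n + 1) := by
      rcases Nat.eq_zero_or_pos (w (L - (n + 1))) with k6 | k6
      · omega
      · have k7 := k3 k6 (by omega)
        omega
    refine ⟨k5, ?_⟩
    have j3 := uw_choose_pred (H - 1 - n)
    have j4 : H - 1 - n - 1 = H - 1 - (n + 1) := by omega
    rw [j4] at j3
    omega

theorem rect_window1 {H L k N : ℕ} (hk : k ≤ H) (h : hR H L k N ≠ 0) :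
    hR H L k N + N * (k + 1).choose 2 ≤ H * L + (H - 1).choose 2 := by
  have hH : 1 ≤ H := by
    rcases Nat.eq_zero_or_pos H with h0 | h0
    · exact absurd (by rw [h0]; exact hR_zero L k N) h
    · exact h0
  obtain ⟨w, h1, h2, h3, h4⟩ := rank_growth (k := k) (N := N) hH
  have hmono : ∀ i j, i ≤ j → w i ≤ w j := fun i j hij => monotone_nat_of_le_succ h3 hij
  obtain ⟨L', rfl⟩ : ∃ L', L = L' + 1 := by
    rcases Nat.eq_zero_or_pos L with h0 | h0
    · exact absurd (by rw [h0]; exact hR_zero_right H k N) h
    · exact ⟨L - 1, by omega⟩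
  have hw : 1 ≤ w L' := by
    by_contra hcon
    have h5 : ∀ j, j ≤ L' → w j = 0 := fun j hj => by
      have := hmono j L' hj
      omega
    have h6 : ∀ j, j ≤ L' + 1 → hR H j k N = 0 := by
      intro j
      induction j with
      | zero => intro _; exact hR_zero_right H k N
      | succ j ih =>
        intro hj
        rw [h1, ih (by omega), h5 j (by omega)]
    exact h (h6 _ (le_refl _))
  obtain ⟨-, h6, h7⟩ := uw_low (H := H) (L := L') (h := fun L => hR H L k N) (w := w) h1 h3 h4 h2
    hw (N * k)
  have h8 := hR_large (H := H) (L := L' + 1 + N * k) (k := k) (N := N) hk (by omega)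
  have h9 : H * (L' + 1 + N * k) = H * (L' + 1) + N * k * H := by ring
  rw [h9] at h8
  omega

theorem rect_window2 {H L k N : ℕ} (hk : k ≤ H)
    (h : N * (k + 1).choose 2 + (H - 1).choose 2 ≤ H * L) :
    hR H L k N + N * (k + 1).choose 2 = H * L := by
  rcases Nat.eq_zero_or_pos H with hH | hH
  · subst hH
    rw [hR_zero]
    omega
  obtain ⟨w, h1, h2, h3, h4⟩ := rank_growth (k := k) (N := N) hH
  have hcount := hR_count H L k N
  rcases Nat.lt_or_ge (w L) H with h5 | h5
  · obtain ⟨-, h6⟩ := uw_high (H := H) (L := L) (h := fun L => hR H L k N) (w := w) h1 h4 h3 h5 L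
      (le_refl _)
    rw [Nat.sub_self, hR_zero_right] at h6
    omega
  · have h6 : ∀ J, hR H (L + J) k N = hR H L k N + J * H ∧ w (L + J) = H := by
      intro J
      induction J with
      | zero =>
        have := h2 L
        exact ⟨by simp, by rw [Nat.add_zero]; omega⟩
      | succ J ih =>
        obtain ⟨i1, i2⟩ := ih
        have k1 : L + (J + 1) = L + J + 1 := by omega
        have k2 := h2 (L + J + 1)
        have k3 := h3 (L + J)
        rw [k1, h1, i1, i2]
        exact ⟨by ring, by omega⟩
    have h8 := hR_large (H := H) (L := L + N * k) (k := k) (N := N) hk (by omega)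
    rw [(h6 (N * k)).1] at h8
    have h9 : H * (L + N * k) = H * L + N * k * H := by ring
    rw [h9] at h8
    omega

end Pool.Agent.Work.MP_0421d9_ag.LD
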