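import Pool.Agent.Work.MP_0421d9_ag.FRank
import Pool.Agent.Work.MP_0421d9_ag.MAnchor
import Pool.Agent.Work.MP_0421d9_ag.UWin

/-!
Windows for the forms of degree `D` and of degree less than `H` in `X 2`, with generic points of
arbitrary multiplicities: with few or many conditions the dimension is the expected one.
-/

namespace Pool.Agent.Work.MP_0421d9_ag.LD

open MvPolynomial Module

/-- the number of monomials of degree `D` and of degree less than `H` in `X 2` -/
def fA (D H : ℕ) : ℕ := ∑ c ∈ Finset.range H, (D + 1 - c)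

theorem fA_zero (D : ℕ) : fA D 0 = 0 := rfl

theorem fA_succ (D H : ℕ) : fA D (H + 1) = fA D H + (D + 1 - H) := Finset.sum_range_succ _ _

theorem fA_succ_left {D H : ℕ} (h : H ≤ D + 2) : fA (D + 1) H = fA D H + H := by
  induction H with
  | zero => rfl
  | succ n ih =>
    rw [fA_succ, fA_succ, ih (by omega)]
    omega

theorem fA_add {D H : ℕ} (h : H ≤ D + 2) (J : ℕ) : fA (D + J) H = fA D H + J * H := by
  induction J with
  | zero => simp
  | succ J ih =>
    have e1 : D + (J + 1) = D + J + 1 := by omega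
    rw [e1, fA_succ_left (by omega), ih]
    ring

theorem fA_eq {D H : ℕ} (h : H ≤ D + 1) : fA D H + H.choose 2 = H * (D + 1) := by
  induction H with
  | zero => rw [fA_zero]; simp
  | succ n ih =>
    have h1 := ih (by omega)
    have h2 : (n + 1).choose 2 = n + n.choose 2 := by
      rw [Nat.choose_succ_succ' n 1, Nat.choose_one_right]
    have e1 : (n + 1) * (D + 1) = n * (D + 1) + (D + 1) := by ring
    rw [fA_succ, h2, e1]
    omega

/-! ### many columns -/

namespace Fw

open UA (rw' rw'_coeff rw'_coeff_hom pow_dvd_rw' Wd mem_Wd finrank_Wd_le sp rwL)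
open UAm (Pp Pp_ne_zero natDegree_Pp Pp_dvd)

theorem upper {D H N : ℕ} {k : Fin N → ℕ} :
    hTm D {α | α 2 < H} k ≤ ∑ c ∈ Finset.range H, (D + 1 - c - ∑ i, (k i - c)) := by
  refine (hTm_le (sp N)).trans ?_
  let Φ : TSm D {α | α 2 < H} k (sp N) →ₗ[ℂ]
      ((c : Fin H) → Wd (Pp (fun i => k i - c)) (D + 1 - c) (∑ i, (k i - c))) :=
    LinearMap.pi fun c => LinearMap.codRestrict _ ((rwL c).comp (Submodule.subtype _)) (by
      rintro ⟨F, hF⟩
      obtain ⟨h1, h2, h3⟩ := mem_TSm.mp hF
      change rw' F c ∈ _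
      refine mem_Wd (Pp_ne_zero _) (natDegree_Pp _) (Pp_dvd fun i => pow_dvd_rw' (h2 i) c) ?_
      intro a ha
      rw [rw'_coeff]
      refine Finset.sum_eq_zero fun α hα => ?_
      rw [if_neg]
      rintro ⟨h5, h0⟩
      have h4 := degree_of_mem_support h1 (mem_support_iff.mp hα)
      rw [degree_three] at h4
      omega)
  have hΦ : Function.Injective Φ := by
    rw [← LinearMap.ker_eq_bot, LinearMap.ker_eq_bot']
    rintro ⟨F, hF⟩ h0
    obtain ⟨h1, h2, h3⟩ := mem_TSm.mp hF
    rw [Submodule.mk_eq_zero]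
    ext β
    rw [coeff_zero]
    by_contra hβ
    have h4 := h3 β hβ
    apply hβ
    rw [← rw'_coeff_hom h1 β (degree_of_mem_support h1 hβ)]
    have h8 : rw' F (β 2) = 0 := congrArg Subtype.val (congrFun h0 ⟨β 2, h4⟩)
    rw [h8, Polynomial.coeff_zero]
  refine (LinearMap.finrank_le_finrank_of_injective hΦ).trans ?_
  rw [Module.finrank_pi_fintype, Finset.sum_range]
  exact Finset.sum_le_sum fun c _ => finrank_Wd_le _ _ _

/-- many columns: the conditions are independent -/
theorem large {D H N : ℕ} {k : Fin N → ℕ} (hk : ∀ i, k i ≤ H) (hD : ∑ i, k i + H ≤ D) :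
    hTm D {α | α 2 < H} k + ∑ i, (k i + 1).choose 2 ≤ fA D H := by
  have h1 := upper (D := D) (H := H) (k := k)
  have h2 : ∑ c ∈ Finset.range H, (D + 1 - c - ∑ i, (k i - c)) + ∑ i, (k i + 1).choose 2 =
      fA D H := by
    rw [← Finset.sum_congr rfl (fun i _ => UA.sum_sub' (hk i)), Finset.sum_comm,
      ← Finset.sum_add_distrib]
    refine Finset.sum_congr rfl fun c hc => ?_
    rw [Finset.mem_range] at hc
    have h4 : ∑ i, (k i - c) ≤ ∑ i, k i := Finset.sum_le_sum (fun i _ => Nat.sub_le _ _)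
    omega
  omega

/-- the number of monomials in a row -/
theorem row (n N : ℕ) : n + 1 ≤ hTm n {α | α 2 < 1} (fun _ : Fin N => 0) := by
  rw [hTm_zero_fam (m := 0)]
  have h1 := hR_no_points 1 (n + 1) 0
  unfold hR at h1
  have e1 : 1 + (n + 1) - 2 = n := by omega
  rw [e1, Nat.one_mul] at h1
  rw [← h1]
  exact hT_mono (fun α _ hα => hα.1)

theorem no_points {D N : ℕ} : ∀ H, H ≤ D + 1 →
    fA D H ≤ hTm D {α | α 2 < H} (fun _ : Fin N => 0) := by
  intro H
  induction H with
  | zero => intro _; exact Nat.zero_le _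
  | succ H ih =>
    intro hH
    have h1 := ih (by omega)
    set V := TSm D {α | α 2 < H} (fun _ : Fin N => 0) (gpt N) with hV
    set V' := TSm D {α | α 2 < H + 1} (fun _ : Fin N => 0) (gpt N) with hV'
    set W := (TSm (D - H) {α | α 2 < 1} (fun _ : Fin N => 0) (gpt N)).map
      (LinearMap.mulLeft ℂ (X 2 ^ H : R3)) with hW
    have hXne : (X 2 ^ H : R3) ≠ 0 := pow_ne_zero _ (X_ne_zero _)
    have hWdim : D - H + 1 ≤ finrank ℂ W := by
      rw [hW, finrank_map_mulLeft hXne]
      exact row (D - H) N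
    have hz : ∀ (F : R3) (a : V3), VanishTo F a 0 := fun F a j hj => absurd hj (Nat.not_lt_zero j)
    have hWexp : ∀ F ∈ W, F.IsHomogeneous D ∧ ∀ α, coeff α F ≠ 0 → α 2 = H := by
      rintro F ⟨G, hG, rfl⟩
      change (X 2 ^ H * G).IsHomogeneous D ∧ ∀ α, coeff α (X 2 ^ H * G) ≠ 0 → _
      rw [SetLike.mem_coe, mem_TSm] at hG
      obtain ⟨g1, -, g2⟩ := hG
      refine ⟨?_, fun α hα => ?_⟩
      · have h3 := ((isHomogeneous_X ℂ (2 : Fin 3)).pow H).mul g1
        rw [Nat.one_mul] at h3
        have e1 : H + (D - H) = D := by omega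
        rwa [e1] at h3
      · rw [X_pow_eq_monomial, coeff_monomial_mul'] at hα
        split_ifs at hα with h4
        · rw [one_mul] at hα
          have h5 : (α - Finsupp.single 2 H : Fin 3 →₀ ℕ) 2 < 1 := g2 _ hα
          have h6 : (Finsupp.single 2 H : Fin 3 →₀ ℕ) 2 ≤ α 2 := h4 2
          rw [Finsupp.coe_tsub, Pi.sub_apply, Finsupp.single_eq_same] at h5
          rw [Finsupp.single_eq_same] at h6
          omega
        · exact absurd rfl hα
    have hle1 : W ≤ V' := by
      intro F hF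
      obtain ⟨h3, h4⟩ := hWexp F hF
      rw [hV', mem_TSm]
      exact ⟨h3, fun i => hz _ _, fun α hα => by
        change α 2 < H + 1
        rw [h4 α hα]
        exact Nat.lt_succ_self H⟩
    have hle2 : V ≤ V' := by
      intro F hF
      rw [hV, mem_TSm] at hF
      rw [hV', mem_TSm]
      exact ⟨hF.1, hF.2.1, fun α hα => Nat.lt_succ_of_lt (hF.2.2 α hα)⟩
    have hdisj : V ⊓ W = ⊥ := by
      rw [Submodule.eq_bot_iff]
      rintro F ⟨hF1, hF2⟩
      rw [SetLike.mem_coe, hV, mem_TSm] at hF1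
      ext α
      rw [coeff_zero]
      by_contra hcon
      have h3 : α 2 < H := hF1.2.2 α hcon
      have h4 := (hWexp F hF2).2 α hcon
      omega
    have hfin : Module.Finite ℂ V' := finite_TSm _ _ _ _
    have hfin1 : Module.Finite ℂ W := Submodule.finiteDimensional_of_le hle1
    have hfin2 : Module.Finite ℂ V := finite_TSm _ _ _ _
    have h3 := Submodule.finrank_sup_add_finrank_inf_eq V W
    rw [hdisj, finrank_bot, Nat.add_zero] at h3
    have h4 : finrank ℂ ↥(V ⊔ W) ≤ finrank ℂ V' := Submodule.finrank_mono (sup_le hle2 hle1)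
    rw [fA_succ]
    change fA D H ≤ finrank ℂ V at h1
    change _ ≤ finrank ℂ V'
    have e1 : D + 1 - H = D - H + 1 := by omega
    rw [e1]
    calc fA D H + (D - H + 1) ≤ finrank ℂ V + finrank ℂ W := Nat.add_le_add h1 hWdim
      _ = finrank ℂ ↥(V ⊔ W) := h3.symm
      _ ≤ finrank ℂ V' := h4

/-- the expected dimension is a lower bound -/
theorem count {D H N : ℕ} {k : Fin N → ℕ} (hH : H ≤ D + 1) :
    fA D H ≤ hTm D {α | α 2 < H} k + ∑ i, (k i + 1).choose 2 := by
  have h1 := no_points (D := D) (N := N) H hH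
  rw [hTm_zero_fam (m := 0)] at h1
  exact h1.trans (hTm_drop (D := D) (k := k) (T := {α | α 2 < H}) (m := 0))

end Fw

/-- few forms: either no forms at all, or almost the expected number -/
theorem strip_window1 {D H N : ℕ} {k : Fin N → ℕ} (hk : ∀ i, k i ≤ H) (hH : H ≤ D + 1)
    (h0 : ∃ i, k i ≠ 0) (h : hTm D {α | α 2 < H} k ≠ 0) :
    hTm D {α | α 2 < H} k + ∑ i, (k i + 1).choose 2 ≤ fA D H + (H - 1).choose 2 := by
  obtain ⟨w, h1, h2, h3, h4⟩ := rank_growth_f (H := H) (k := k)
  have hmono : ∀ i j, i ≤ j → w i ≤ w j := fun i j hij => monotone_nat_of_le_succ h3 hij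
  have hzero : hTm 0 {α | α 2 < H} k = 0 := by
    obtain ⟨i, hi⟩ := h0
    unfold hTm
    rw [Submodule.finrank_eq_zero, Submodule.eq_bot_iff]
    intro F hF
    rw [mem_TSm] at hF
    exact eq_zero_of_vanishTo hF.1 (Nat.pos_of_ne_zero hi) (hF.2.1 i)
  obtain ⟨D', rfl⟩ : ∃ D', D = D' + 1 := by
    rcases Nat.eq_zero_or_pos D with h5 | h5
    · subst h5
      exact absurd hzero h
    · exact ⟨D - 1, by omega⟩
  have hw : 1 ≤ w D' := by
    by_contra hcon
    have h5 : ∀ j, j ≤ D' → w j = 0 := fun j hj => by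
      have := hmono j D' hj
      omega
    have h6 : ∀ j, j ≤ D' + 1 → hTm j {α | α 2 < H} k = 0 := by
      intro j
      induction j with
      | zero => intro _; exact hzero
      | succ j ih =>
        intro hj
        rw [h1, ih (by omega), h5 j (by omega)]
    exact h (h6 _ (le_refl _))
  obtain ⟨-, h6, h7⟩ := uw_low (H := H) (L := D') (h := fun D => hTm D {α | α 2 < H} k)
    (w := w) h1 h3 h4 h2 hw (∑ i, k i + H)
  have h8 := Fw.large (H := H) (D := D' + 1 + (∑ i, k i + H)) (k := k) hk (by omega)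
  rw [fA_add (by omega)] at h8
  omega

/-- many forms: the expected number -/
theorem strip_window2 {D H N : ℕ} {k : Fin N → ℕ} (hk : ∀ i, k i ≤ H) (hH : H ≤ D + 1)
    (h : ∑ i, (k i + 1).choose 2 + (H - 1).choose 2 + 2 ≤ fA D H) :
    hTm D {α | α 2 < H} k + ∑ i, (k i + 1).choose 2 = fA D H := by
  obtain ⟨w, h1, h2, h3, h4⟩ := rank_growth_f (H := H) (k := k)
  have hcount := Fw.count (k := k) hH
  rcases Nat.lt_or_ge (w D) H with h5 | h5
  · obtain ⟨-, h6⟩ := uw_high (H := H) (L := D) (h := fun D => hTm D {α | α 2 < H} k) (w := w)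
      h1 h4 h3 h5 D (le_refl _)
    rw [Nat.sub_self] at h6
    have h7 : hTm 0 {α | α 2 < H} k ≤ 1 := by
      unfold hTm
      have h8 : TSm 0 {α | α 2 < H} k (gpt N) ≤ Rd 0 := TSm_le _ _ _ _
      have h9 := Submodule.finrank_mono h8
      rw [finrank_Rd] at h9
      exact h9
    omega
  · have h6 : ∀ J, hTm (D + J) {α | α 2 < H} k = hTm D {α | α 2 < H} k + J * H ∧
        w (D + J) = H := by
      intro J
      induction J with
      | zero =>
        have := h2 D
        exact ⟨by simp, by rw [Nat.add_zero]; omega⟩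
      | succ J ih =>
        obtain ⟨i1, i2⟩ := ih
        have k1 : D + (J + 1) = D + J + 1 := by omega
        have k2 := h2 (D + J + 1)
        have k3 := h3 (D + J)
        rw [k1, h1, i1, i2]
        exact ⟨by ring, by omega⟩
    have h8 := Fw.large (H := H) (D := D + (∑ i, k i + H)) (k := k) hk (by omega)
    rw [(h6 (∑ i, k i + H)).1, fA_add (by omega)] at h8
    omega

end Pool.Agent.Work.MP_0421d9_ag.LD
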