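import Pool.Agent.Work.MP_0421d9_ag.Main

/-!
The final statement.
-/

set_option linter.unusedSectionVars false

namespace Pool.Agent.Work.MP_0421d9_ag

open MvPolynomial Module

section final

variable {r n d : ℕ} {p : Fin r → V3} {s : Fin n → V3} {t : Fin 4 → V3} {m : Fin r → ℕ}

theorem card_T1 : (T1 m n).card = Fintype.card {i : Fin r // m i = 1} := by
  unfold T1
  rw [Finset.card_map, Finset.card_univ]

/-- dimension of the rigid system -/
theorem finrank_all {E : IT m ⊕ KT m n → Fin 3 → Derivation ℚ ℂ ℂ} (hE : IsDual (PP p s t m) E)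
    (hm : ∀ i, m i ≤ d) (hn : n + 1 = finrank ℂ (linSys d p m)) :
    finrank ℂ (linSys d (PP p s t m) (Sum.elim (mm m) (fun _ => 1))) = 1 ∧
    finrank ℂ (linSys d (fun i => PP p s t m (Sum.inl i)) (mm m)) =
      finrank ℂ (linSys d p m) + Fintype.card {i : Fin r // m i = 1} := by
  have hmm : ∀ x, mm m x ≤ d + 1 := by
    rintro (⟨i, hi⟩ | x)
    · exact (hm i).trans (Nat.le_succ d)
    · exact Nat.zero_le _
  have h1 := finrank_drop hE hmm (Finset.univ : Finset (KT m n))
  have h2 := finrank_drop hE hmm (T1 m n)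
  rw [linSys_T1, card_T1] at h2
  rw [MT_univ, Finset.card_univ, Fintype.card_sum, Fintype.card_fin] at h1
  constructor <;> omega

theorem rigid_of {E : IT m ⊕ KT m n → Fin 3 → Derivation ℚ ℂ ℂ} (hE : IsDual (PP p s t m) E)
    (hm : ∀ i, m i ≤ d) (hn : n + 1 = finrank ℂ (linSys d p m)) {F : R3}
    (hF : F ∈ linSys d p m) (hF0 : F ≠ 0) (hs : ∀ k, eval (s k) F = 0) :
    Rigid d (PP p s t m) E (mm m) F := by
  have h1 := (finrank_all hE hm hn).1
  have hFm : F ∈ linSys d (PP p s t m) (Sum.elim (mm m) (fun _ => 1)) :=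
    (mem_all p s t m).mpr ⟨hF, hs⟩
  refine ⟨hE, hFm, hF0, ?_⟩
  intro f hf
  have h2 := (finrank_eq_one_iff_of_nonzero' (⟨F, hFm⟩ : linSys d (PP p s t m)
    (Sum.elim (mm m) (fun _ => 1))) (by
      intro h
      exact hF0 (congrArg Subtype.val h))).mp h1 ⟨f, hf⟩
  obtain ⟨c, hc⟩ := h2
  refine ⟨c, ?_⟩
  have := congrArg Subtype.val hc
  rw [← smul_eq_C_mul]
  exact this.symm

theorem exists_rigid {E : IT m ⊕ KT m n → Fin 3 → Derivation ℚ ℂ ℂ}
    (hE : IsDual (PP p s t m) E)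
    (hm : ∀ i, m i ≤ d) (hn : n + 1 = finrank ℂ (linSys d p m)) :
    ∃ F ∈ linSys d p m, F ≠ 0 ∧ ∀ k, eval (s k) F = 0 := by
  have h1 := (finrank_all hE hm hn).1
  obtain ⟨⟨F, hF⟩, hF0⟩ := Module.finrank_pos_iff_exists_ne_zero.mp (h1 ▸ one_pos)
  obtain ⟨h2, h3⟩ := (mem_all p s t m).mp hF
  exact ⟨F, h2, fun h => hF0 (Subtype.ext h), h3⟩

/-- choice of the three special indices -/
theorem exists_three (m : Fin r → ℕ) (I : Finset (Fin r)) (hI : I.card ≤ 3) :
    ∃ a b c : IT m, a ≠ b ∧ a ≠ c ∧ b ≠ c ∧ (∃ e, e ≠ a ∧ e ≠ b ∧ e ≠ c) ∧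
      ∀ i : {i : Fin r // m i ≠ 1}, i.1 ∈ I → (Sum.inl i : IT m) = a ∨ (Sum.inl i : IT m) = b ∨
        (Sum.inl i : IT m) = c := by
  classical
  set I' : Finset (IT m) := (I.subtype (fun i => m i ≠ 1)).map ⟨Sum.inl, Sum.inl_injective⟩
    with hI'
  have h1 : I'.card ≤ 3 := by
    rw [hI', Finset.card_map, Finset.card_subtype]
    exact (Finset.card_filter_le _ _).trans hI
  have h4 : 4 ≤ Fintype.card (IT m) := by
    rw [Fintype.card_sum, Fintype.card_fin]
    omega
  obtain ⟨T, hT, hTc⟩ := Finset.exists_superset_card_eq h1 (by omega : 3 ≤ Fintype.card (IT m))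
  obtain ⟨a, b, c, hab, hac, hbc, hTabc⟩ := Finset.card_eq_three.mp hTc
  refine ⟨a, b, c, hab, hac, hbc, ?_, ?_⟩
  · obtain ⟨e, -, he⟩ := Finset.exists_mem_notMem_of_card_lt_card
      (s := T) (t := Finset.univ) (by rw [hTc, Finset.card_univ]; omega)
    rw [hTabc] at he
    simp only [Finset.mem_insert, Finset.mem_singleton, not_or] at he
    exact ⟨e, he.1, he.2.1, he.2.2⟩
  · intro i hi
    have h5 : (Sum.inl i : IT m) ∈ I' := by
      rw [hI', Finset.mem_map]
      exact ⟨i, Finset.mem_subtype.mpr hi, rfl⟩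
    have h6 := hT h5
    rw [hTabc] at h6
    simpa only [Finset.mem_insert, Finset.mem_singleton] using h6

theorem hfull_of (hm : ∀ i, m i ≤ d) (hP : ∀ x, PP p s t m x ≠ 0) {I : Finset (Fin r)}
    (hcomplete : ∀ i ∉ I, 3 ≤ m i →
      finrank ℂ (linSys d p (dropSimple m)) =
        finrank ℂ (linSys d p (Function.update (dropSimple m) i (m i + 1))) + (m i + 1))
    {a b c : IT m} (habc : ∀ i : {i : Fin r // m i ≠ 1}, i.1 ∈ I → (Sum.inl i : IT m) = a ∨
      (Sum.inl i : IT m) = b ∨ (Sum.inl i : IT m) = c) :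
    ∀ j, j ≠ a → j ≠ b → j ≠ c → 3 ≤ mm m j →
      Rigid.Full d (fun i => PP p s t m (Sum.inl i)) (mm m) j := by
  rintro (i | x) hja hjb hjc h3
  · apply full_of_finrank
    · rintro (⟨i, hi⟩ | x)
      · exact hm i
      · exact Nat.zero_le _
    · exact hP _
    · rw [linSys_core, linSys_core_update]
      apply hcomplete i.1
      · intro hiI
        rcases habc i hiI with h | h | h
        · exact hja h
        · exact hjb h
        · exact hjc h
      · exact h3
  · change 3 ≤ 0 at h3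
    omega

theorem cr_ne_zero_of {a q : V3} (ha : a ≠ 0) (h : ∀ c : ℂ, q ≠ c • a) : cr a q ≠ 0 := by
  intro h0
  obtain ⟨c, hc⟩ := exists_smul_of_cr_eq_zero ha h0
  exact h c hc

theorem smooth_of {E : IT m ⊕ KT m n → Fin 3 → Derivation ℚ ℂ ℂ}
    {F : R3} (S : Rigid d (PP p s t m) E (mm m) F) (hFp : F ∈ linSys d p m) (hsq : Squarefree F)
    {a b c : IT m} (hab : a ≠ b) (hac : a ≠ c) (hbc : b ≠ c) (hex : ∃ e, e ≠ a ∧ e ≠ b ∧ e ≠ c)
    (hfull : ∀ j, j ≠ a → j ≠ b → j ≠ c → 3 ≤ mm m j →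
      Rigid.Full d (fun i => PP p s t m (Sum.inl i)) (mm m) j) :
    SmoothOnBlowup p m F := by
  refine ⟨?_, ?_⟩
  · intro q hq hqp hq0
    by_contra hcon
    push Not at hcon
    apply S.no_singularity hsq hab hac hbc hex hfull (q := q) _ hq0 hcon
    rintro (⟨i, hi⟩ | x)
    · exact cr_ne_zero_of (gp1 S.hE _) (hqp i)
    · intro h0
      obtain ⟨c, hc⟩ := exists_smul_of_cr_eq_zero (gp1 S.hE _) h0
      have hc0 : c ≠ 0 := by
        rintro rfl
        exact hq (by rw [hc, zero_smul])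
      apply S.R0 (Sum.inr x) rfl
      have h1 := B_lin_pow S.hom q
      rw [hq0, mul_zero, hc, lin_smul, mul_pow, ← map_pow, B_C_mul_left] at h1
      exact (mul_eq_zero.mp h1).resolve_left (pow_ne_zero _ hc0)
  · intro i u w hlin
    have hpu : LinearIndependent ℂ ![p i, u] := by
      have h1 := hlin.comp ![0, 1] (by decide)
      convert h1 using 1
      ext j
      fin_cases j <;> rfl
    have hpi : p i ≠ 0 := hlin.ne_zero 0
    have hu : cr (p i) u ≠ 0 := by
      intro h0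
      obtain ⟨c, hc⟩ := exists_smul_of_cr_eq_zero hpi h0
      have h1 := (LinearIndependent.pair_iff.mp hpu) c (-1) (by rw [hc]; simp)
      simp at h1
    have hdet : eval w (xl (p i) u) ≠ 0 := by
      intro h0
      obtain ⟨x, y, hxy⟩ := exists_comb hu h0
      have h1 := Fintype.linearIndependent_iff.mp hlin ![x, y, -1] (by
        rw [Fin.sum_univ_three]
        simp only [Matrix.cons_val]
        rw [hxy]
        module)
      have h2 := h1 2
      simp at h2
    have hmi : m i ≤ d := by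
      have := S.hF0
      exact le_of_vanishTo S.hom S.hF0 (hFp.2 i)
    apply chart S.hom hmi (hFp.2 i) hdet
    intro hbad
    by_cases hi : m i = 1
    · -- simple point
      apply not_vanishTo_succ S.hE S.hM S.hF S.hF0 S.huniq (Sum.inr (Sum.inl ⟨i, hi⟩))
      change VanishTo F (p i) (1 + 1)
      rw [vanishTo_iff S.hom _ (by omega)]
      intro G hG
      rw [mem_Hm_succ] at hG
      obtain ⟨v, rfl⟩ := eq_lin_of_isHomogeneous hG
      have h1 := hbad.2 (by omega) v
      rw [hi, Nat.sub_self, pow_zero, one_mul] at h1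
      rwa [(by omega : d + 1 - (1 + 1) = d - 1)]
    · exact S.no_bad hsq hab hac hbc hex hfull (i := Sum.inl ⟨i, hi⟩) hu hbad

end final

/-- **Main theorem.** -/
theorem main_theorem {r d : ℕ} (p : Fin r → Fin 3 → ℂ) (hp : GenericPoints p) (m : Fin r → ℕ)
    (I : Finset (Fin r)) (hI : I.card ≤ 3)
    (hcomplete : ∀ i ∉ I, 3 ≤ m i →
      finrank ℂ (linSys d p (dropSimple m)) =
        finrank ℂ (linSys d p (Function.update (dropSimple m) i (m i + 1))) + (m i + 1))
    (hred : ∃ F ∈ linSys d p m, Squarefree F) :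
    finrank ℂ (linSys d p m) + ∑ i, (m i + 1).choose 2 = (d + 2).choose 2 ∧
    (∀ s : Fin (finrank ℂ (linSys d p m) - 1) → Fin 3 → ℂ, GenericPoints (Sum.elim p s) →
      ∀ F ∈ linSys d p m, F ≠ 0 → (∀ k, eval (s k) F = 0) → SmoothOnBlowup p m F) ∧
    (∃ F ∈ linSys d p m, F ≠ 0 ∧ SmoothOnBlowup p m F) := by
  obtain ⟨f₀, hf₀, hsq₀⟩ := hred
  have hm : ∀ i, m i ≤ d := fun i => le_of_vanishTo hf₀.1 hsq₀.ne_zero (hf₀.2 i)
  have hpos : 0 < finrank ℂ (linSys d p m) := by
    rw [Module.finrank_pos_iff_exists_ne_zero]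
    exact ⟨⟨f₀, hf₀⟩, fun h => hsq₀.ne_zero (congrArg Subtype.val h)⟩
  set n := finrank ℂ (linSys d p m) - 1 with hn
  have hn' : n + 1 = finrank ℂ (linSys d p m) := by omega
  obtain ⟨a, b, c, hab, hac, hbc, hex, habc⟩ := exists_three m I hI
  -- the construction for given simple points
  have key : ∀ s : Fin n → V3, GenericPoints (Sum.elim p s) →
      ∃ (t : Fin 4 → V3) (E : IT m ⊕ KT m n → Fin 3 → Derivation ℚ ℂ ℂ),
        IsDual (PP p s t m) E := by
    intro s hs
    obtain ⟨t, ht⟩ := exists_extension (κ := Fin 4) (Sum.elim p s) hs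
    obtain ⟨E, hE⟩ := exists_dual _ (PP_generic p s t m ht)
    exact ⟨t, E, hE⟩
  have hf₀core : f₀ ∈ linSys d p (dropSimple m) := by
    refine ⟨hf₀.1, fun i => ?_⟩
    apply (hf₀.2 i).mono
    unfold dropSimple
    split_ifs <;> omega
  have hsmooth : ∀ s : Fin n → V3, GenericPoints (Sum.elim p s) →
      ∀ F ∈ linSys d p m, F ≠ 0 → (∀ k, eval (s k) F = 0) → SmoothOnBlowup p m F := by
    intro s hs F hF hF0 hFs
    obtain ⟨t, E, hE⟩ := key s hs
    have S := rigid_of hE hm hn' hF hF0 hFs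
    have hsq := S.squarefree (by rw [linSys_core]; exact hf₀core) hsq₀
    exact smooth_of S hF hsq hab hac hbc hex
      (hfull_of hm (fun x => gp1 hE x) hcomplete habc)
  obtain ⟨s, hs⟩ := exists_extension (κ := Fin n) p hp
  obtain ⟨t, E, hE⟩ := key s hs
  obtain ⟨F, hF, hF0, hFs⟩ := exists_rigid hE hm hn'
  refine ⟨?_, hsmooth, F, hF, hF0, hsmooth s hs F hF hF0 hFs⟩
  have S := rigid_of hE hm hn' hF hF0 hFs
  have hsq := S.squarefree (by rw [linSys_core]; exact hf₀core) hsq₀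
  have hfull := hfull_of hm (fun x => gp1 hE x) hcomplete habc
  have h1 := finrank_of_unique S.hm' (fun G hG h0 => S.unique_rel hsq hab hac hbc hfull hG h0)
  have h2 := (finrank_all hE hm hn').2
  have h3 : ∑ x : IT m, (mm m x + 1).choose 2 =
      ∑ i : {i : Fin r // ¬ m i = 1}, (m i + 1).choose 2 := by
    rw [Fintype.sum_sum_type]
    have : ∑ x : Fin 4, (mm m (Sum.inr x) + 1).choose 2 = 0 :=
      Finset.sum_eq_zero (fun x _ => rfl)
    rw [this, add_zero]
    rfl
  have h4 : ∑ i : {i : Fin r // m i = 1}, (m i + 1).choose 2 =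
      Fintype.card {i : Fin r // m i = 1} := by
    have h6 : ∀ i : {i : Fin r // m i = 1}, (m i.1 + 1).choose 2 = 1 := fun i => by
      rw [i.2]
      rfl
    rw [Finset.sum_congr rfl (fun i _ => h6 i), Finset.sum_const, Finset.card_univ, smul_eq_mul,
      mul_one]
  have h5 := Fintype.sum_subtype_add_sum_subtype (fun i => m i = 1)
    (fun i => (m i + 1).choose 2)
  rw [h3, h2] at h1
  rw [← h5, h4]
  omega

end Pool.Agent.Work.MP_0421d9_ag
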