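import Pool.Agent.Work.MP_0421d9_ag.MCount

/-!
The number of blocks of degrees in which the balanced strips of a pool exist, compared to a larger
potential.
-/

namespace Pool.Agent.Work.MP_0421d9_ag.LD

/-- the good blocks fill a part of the interval -/
theorem count_len {M d U V : ℕ} (hM : 1600 ≤ M) (hd : 14400 * M ^ 3 ≤ d ^ 2)
    (hU : U ≤ M) (hV : 1 ≤ V) (hVU : V ≤ U)
    (hw : 225 * ((U - V) * (U - V)) ≤ V) :
    d ≤ 130 * (2 * M * nb (d / 2) (2 * M) (PG U V) d) := by
  have h0 := count_big hM hd
  have hwd := count_width hd hU hVU hw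
  have hVV : 4 * (V * V) ≤ 4 * (U * U) := Nat.mul_le_mul_left _ (Nat.mul_le_mul hVU hVU)
  rcases Nat.lt_or_ge (99 * d) (300 * (U * U)) with hA | hA
  · rcases Nat.lt_or_ge (297 * d) (400 * (U * U)) with hB | hB
    · rcases Nat.lt_or_ge (693 * d) (400 * (U * U)) with hC | hC
      · -- the general case
        set F := U * U / d with hFdef
        have hd0 : 0 < d := by omega
        have hF : F * d ≤ U * U := Nat.div_mul_le_self _ _
        have hF' : U * U < (F + 1) * d := by
          have h1 := Nat.lt_mul_div_succ (U * U) hd0
          rw [mul_comm (F + 1) d]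
          exact h1
        have hF1 : 1 ≤ F := by
          rw [hFdef, Nat.le_div_iff_mul_le hd0]
          omega
        set K := (F + 1) / 2 with hK
        have hx1 : ∀ n, F + 2 ≤ n → 4 * (U * U) ≤ (4 * n - 3) * d := by
          intro n hn
          have h1 : 4 * (F + 1) ≤ 4 * n - 3 := by omega
          have h2 := Nat.mul_le_mul_right d h1
          have e1 : 4 * (F + 1) * d = 4 * ((F + 1) * d) := by ring
          rw [e1] at h2
          omega
        have hx2 : ∀ n, n < F + 2 + K → (4 * n - 1) * d ≤ 2 * (4 * (U * U)) := by
          intro n hn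
          rcases Nat.lt_or_ge F 3 with h3 | h3
          · have h4 : F = 1 ∨ F = 2 := by omega
            rcases h4 with h4 | h4
            · have h5 : 4 * n - 1 ≤ 11 := by omega
              have h6 := Nat.mul_le_mul_right d h5
              omega
            · have h5 : 4 * n - 1 ≤ 15 := by omega
              have h6 := Nat.mul_le_mul_right d h5
              rw [h4] at hF
              omega
          · have h5 : 4 * n - 1 ≤ 8 * F := by omega
            have h6 := Nat.mul_le_mul_right d h5
            have e1 : 8 * F * d = 8 * (F * d) := by ring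
            rw [e1] at h6
            omega
        have hlen : ∀ n, F + 2 ≤ n → n < F + 2 + K →
            4 * (U * U) / (4 * n - 1) + d / (9 * (F + 1)) + 2 * (2 * M) ≤
              4 * (V * V) / (4 * n - 3) - 3 * U - 1 := by
          intro n hn hn'
          obtain ⟨x, hx⟩ : ∃ x, x = 4 * n - 3 := ⟨_, rfl⟩
          have hx' : 4 * n - 1 = x + 2 := by omega
          have h7 := hx1 n hn
          have h8 := hx2 n hn'
          rw [hx'] at h8 ⊢
          rw [← hx] at h7 ⊢
          have h9 := count_length hM hd hU hF hF1 h7 h8 (by omega) (by omega) hwd (by omega)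
          omega
        have hchain := nb_chain (D₁ := d / 2) (L := 2 * M) (c := d / (9 * (F + 1))) (K := K)
          (n₀ := F + 2) (a := fun n => 4 * (U * U) / (4 * n - 1))
          (b := fun n => 4 * (V * V) / (4 * n - 3) - 3 * U - 1) (G := PG U V) (by omega)
          (fun n hn hn' => by
            change d / 2 ≤ 4 * (U * U) / (4 * n - 1)
            rw [Nat.le_div_iff_mul_le (by omega)]
            have h1 := hx2 n hn'
            have h2 : (d / 2) * 2 ≤ d := Nat.div_mul_le_self _ _
            have h3 : (d / 2) * 2 * (4 * n - 1) ≤ d * (4 * n - 1) := Nat.mul_le_mul_right _ h2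
            have e1 : (d / 2) * 2 * (4 * n - 1) = 2 * ((d / 2) * (4 * n - 1)) := by ring
            have e2 : d * (4 * n - 1) = (4 * n - 1) * d := by ring
            rw [e1, e2] at h3
            omega)
          (fun n hn hn' D' h1 h2 => by
            change 4 * (U * U) / (4 * n - 1) < D' at h1
            change D' ≤ 4 * (V * V) / (4 * n - 3) - 3 * U - 1 at h2
            refine Or.inr ⟨n, by omega, ?_, ?_⟩
            · have h3 := Nat.lt_mul_div_succ (4 * (U * U)) (b := 4 * n - 1) (by omega)
              exact h3.le.trans (Nat.mul_le_mul_left _ (by omega))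
            · have h0' : 1 ≤ D' := Nat.one_le_of_lt h1
              have h3 : D' + 1 + 3 * U ≤ 4 * (V * V) / (4 * n - 3) := by omega
              exact (Nat.mul_le_mul_left _ h3).trans (Nat.mul_div_le _ _))
          (fun n hn hn' => hlen n hn hn')
          (fun n hn hn' => by
            change 4 * (V * V) / (4 * (n + 1) - 3) - 3 * U - 1 ≤ 4 * (U * U) / (4 * n - 1)
            have h1 : 4 * (V * V) / (4 * (n + 1) - 3) ≤ 4 * (U * U) / (4 * n - 1) :=
              Nat.div_le_div hVV (by omega) (by omega)
            exact le_trans (le_trans (Nat.sub_le _ _) (Nat.sub_le _ _)) h1)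
          K le_rfl d (by
            right
            change 4 * (V * V) / (4 * (F + 2 + K - K) - 3) - 3 * U - 1 ≤ d
            have e1 : F + 2 + K - K = F + 2 := by omega
            rw [e1]
            have h1 := hx1 (F + 2) le_rfl
            have h2 : 4 * (V * V) / (4 * (F + 2) - 3) ≤ d := by
              apply Nat.div_le_of_le_mul
              exact hVV.trans h1
            omega)
        -- the final estimate
        set c := d / (9 * (F + 1)) with hc
        have h1 : d < 9 * (F + 1) * (c + 1) := Nat.lt_mul_div_succ d (by omega)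
        have h2 : F + 1 ≤ 4 * K := by omega
        have h3 : 9 * (F + 1) * (c + 1) ≤ 9 * (4 * K) * (c + 1) :=
          Nat.mul_le_mul_right _ (Nat.mul_le_mul_left _ h2)
        have e1 : 9 * (4 * K) * (c + 1) = 36 * (c * K) + 36 * K := by ring
        rw [e1] at h3
        have h4 : 4800 * F ≤ M := by
          have h5 : M * (4800 * F) ≤ M * M := by
            have h6 : F * (4800 * M) ≤ F * d := Nat.mul_le_mul_left _ h0
            have h7 : U * U ≤ M * M := Nat.mul_le_mul hU hU
            have e2 : M * (4800 * F) = F * (4800 * M) := by ring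
            omega
          exact Nat.le_of_mul_le_mul_left h5 (by omega)
        have h5 : d ≤ 72 * (c * K) := by omega
        omega
      · -- U ^ 2 between 0.7425 d and 1.7325 d
        apply count_one (G := PG U V) (a := max (d / 2) (4 * (U * U) / 7))
          (b := min d (4 * (V * V) / 5 - 3 * U - 1)) hM (le_max_left _ _) (min_le_left _ _)
        · intro D' h1 h2
          refine Or.inr ⟨2, by omega, ?_, ?_⟩
          · have h3 : 4 * (U * U) / 7 < D' := lt_of_le_of_lt (le_max_right _ _) h1
            have e1 : (4 * 2 - 1) * (D' + 1) = 7 * (D' + 1) := rfl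
            rw [e1]
            omega
          · have h3 : D' ≤ 4 * (V * V) / 5 - 3 * U - 1 := le_trans h2 (min_le_right _ _)
            have e1 : (4 * 2 - 3) * (D' + 1 + 3 * U) = 5 * (D' + 1 + 3 * U) := rfl
            rw [e1]
            omega
        · omega
        · omega
    · -- U ^ 2 between 0.33 d and 0.7425 d
      apply count_one (G := PG U V) (a := max (d / 2) (4 * (U * U) / 3)) (b := d) hM
        (le_max_left _ _) le_rfl
      · intro D' h1 h2
        refine Or.inr ⟨1, le_rfl, ?_, ?_⟩
        · have h3 : 4 * (U * U) / 3 < D' := lt_of_le_of_lt (le_max_right _ _) h1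
          have e1 : (4 * 1 - 1) * (D' + 1) = 3 * (D' + 1) := rfl
          rw [e1]
          omega
        · have e1 : (4 * 1 - 3) * (D' + 1 + 3 * U) = D' + 1 + 3 * U := by ring
          rw [e1]
          omega
      · omega
      · omega
  · apply count_one (G := PG U V) (a := max (d / 2) (3 * (U * U))) (b := d) hM
      (le_max_left _ _) le_rfl
    · intro D' h1 h2
      left
      have h3 : 3 * (U * U) < D' := lt_of_le_of_lt (le_max_right _ _) h1
      omega
    · omega
    · omega


/-- the potential needed for a window `3 u M` -/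
theorem count_rel {u M d U V : ℕ} (hu : 1600 ≤ u) (huM : u ≤ M) (hd : 40000 * u ^ 2 * M ≤ d ^ 2)
    (hU : U ≤ u) (hV : 1 ≤ V) (hVU : V ≤ U) (hw : 225 * ((U - V) * (U - V)) ≤ V) :
    3 * (u * M) ≤ (d / 50) * nb (d / 2) (2 * u) (PG U V) d := by
  have hd' : 14400 * u ^ 3 ≤ d ^ 2 := by
    have h1 : u ^ 2 * u ≤ u ^ 2 * M := Nat.mul_le_mul_left _ huM
    have e1 : u ^ 3 = u ^ 2 * u := by ring
    have e2 : 40000 * u ^ 2 * M = 40000 * (u ^ 2 * M) := by ring
    omega
  have h := count_len hu hd' hU hV hVU hw
  set x := nb (d / 2) (2 * u) (PG U V) d with hx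
  have h0 := count_big hu hd'
  have h1 : d ≤ 51 * (d / 50) := by omega
  have h2 : d * d ≤ (51 * (d / 50)) * (130 * (2 * u * x)) := Nat.mul_le_mul h1 h
  have h3 : u * (40000 * (u * M)) ≤ u * (13260 * ((d / 50) * x)) := by
    have e1 : u * (40000 * (u * M)) = 40000 * u ^ 2 * M := by ring
    have e2 : u * (13260 * ((d / 50) * x)) = (51 * (d / 50)) * (130 * (2 * u * x)) := by ring
    have e3 : d ^ 2 = d * d := by ring
    rw [e1, e2]
    rw [e3] at hd
    exact hd.trans h2
  have h4 := Nat.le_of_mul_le_mul_left h3 (by omega : 0 < u)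
  omega

end Pool.Agent.Work.MP_0421d9_ag.LD
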