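import Pool.Agent.Work.MP_0421d9_ag.MPG
import Mathlib.Tactic.Ring
import Mathlib.Tactic.Linarith

/-!
The number of blocks of degrees in which the balanced strips of a pool exist.
-/

namespace Pool.Agent.Work.MP_0421d9_ag.LD

theorem nb_mono {D₁ L : ℕ} {G : ℕ → Prop} {D D' : ℕ} (h : D ≤ D') :
    nb D₁ L G D ≤ nb D₁ L G D' := by
  classical
  unfold nb
  apply Finset.card_le_card
  intro i hi
  rw [Finset.mem_filter, Finset.mem_range] at hi ⊢
  exact ⟨by omega, hi.2.1, by omega, hi.2.2.2⟩

theorem nb_step {D₁ L a b : ℕ} {G : ℕ → Prop} (hL : 1 ≤ L) (hab : a ≤ b) (ha : D₁ ≤ a)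
    (h : ∀ D', a < D' → D' ≤ b → G D') :
    L * nb D₁ L G a + b ≤ L * nb D₁ L G b + a + 2 * L := by
  classical
  have h1 : ∀ i ∈ Finset.Ico (a / L + 1) (b / L), a < L * i ∧ L * (i + 1) ≤ b := by
    intro i hi
    rw [Finset.mem_Ico] at hi
    constructor
    · have h2 := Nat.lt_mul_div_succ a hL
      exact lt_of_lt_of_le h2 (Nat.mul_le_mul_left _ hi.1)
    · have h2 := Nat.mul_div_le b L
      exact le_trans (Nat.mul_le_mul_left _ hi.2) h2
  have h2 : nb D₁ L G a + (Finset.Ico (a / L + 1) (b / L)).card ≤ nb D₁ L G b := by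
    unfold nb
    rw [← Finset.card_union_of_disjoint]
    · apply Finset.card_le_card
      intro i hi
      rw [Finset.mem_union] at hi
      rw [Finset.mem_filter, Finset.mem_range]
      rcases hi with hi | hi
      · rw [Finset.mem_filter, Finset.mem_range] at hi
        exact ⟨by omega, hi.2.1, by omega, hi.2.2.2⟩
      · obtain ⟨h3, h4⟩ := h1 i hi
        have h5 : L * (i + 1) = L * i + L := by ring
        have h6 : i ≤ L * i := Nat.le_mul_of_pos_left i hL
        refine ⟨by omega, by omega, by omega, fun D' h7 h8 => h D' (by omega) (by omega)⟩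
    · rw [Finset.disjoint_left]
      intro i hi hi'
      rw [Finset.mem_filter] at hi
      have h3 := h1 i hi'
      omega
  rw [Nat.card_Ico] at h2
  have h3 := Nat.lt_mul_div_succ b hL
  have h4 := Nat.mul_div_le a L
  have h5 : L * (nb D₁ L G a + (b / L - (a / L + 1))) ≤ L * nb D₁ L G b :=
    Nat.mul_le_mul_left _ h2
  have h6 : b / L ≤ (b / L - (a / L + 1)) + (a / L + 1) := by omega
  have h7 := Nat.mul_le_mul_left L h6
  have e1 : L * (b / L + 1) = L * (b / L) + L := by ring
  have e2 : L * (nb D₁ L G a + (b / L - (a / L + 1))) =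
      L * nb D₁ L G a + L * (b / L - (a / L + 1)) := by ring
  have e3 : L * ((b / L - (a / L + 1)) + (a / L + 1)) =
      L * (b / L - (a / L + 1)) + (L * (a / L) + L) := by ring
  rw [e1] at h3
  rw [e2] at h5
  rw [e3] at h7
  omega

theorem nb_chain {D₁ L c K n₀ : ℕ} {a b : ℕ → ℕ} {G : ℕ → Prop} (hL : 1 ≤ L)
    (h1 : ∀ n, n₀ ≤ n → n < n₀ + K → D₁ ≤ a n)
    (h2 : ∀ n, n₀ ≤ n → n < n₀ + K → ∀ D', a n < D' → D' ≤ b n → G D')
    (h3 : ∀ n, n₀ ≤ n → n < n₀ + K → a n + c + 2 * L ≤ b n)
    (h4 : ∀ n, n₀ ≤ n → n + 1 < n₀ + K → b (n + 1) ≤ a n) :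
    ∀ j, j ≤ K → ∀ x, (j = 0 ∨ b (n₀ + K - j) ≤ x) → c * j ≤ L * nb D₁ L G x := by
  intro j
  induction j with
  | zero =>
    intro _ x _
    rw [Nat.mul_zero]
    exact Nat.zero_le _
  | succ j ih =>
    intro hj x hx
    have hx' : b (n₀ + K - (j + 1)) ≤ x := by
      rcases hx with hx | hx
      · omega
      · exact hx
    set n := n₀ + K - (j + 1) with hn
    have hn1 : n₀ ≤ n := by omega
    have hn2 : n < n₀ + K := by omega
    have h5 := ih (by omega) (a n) (by
      rcases Nat.eq_zero_or_pos j with h0 | h0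
      · exact Or.inl h0
      · right
        have e1 : n₀ + K - j = n + 1 := by omega
        rw [e1]
        exact h4 n hn1 (by omega))
    have h6 := h3 n hn1 hn2
    have h7 := nb_step (G := G) hL (show a n ≤ b n by omega) (h1 n hn1 hn2) (h2 n hn1 hn2)
    have h8 : L * nb D₁ L G (b n) ≤ L * nb D₁ L G x := Nat.mul_le_mul_left _ (nb_mono hx')
    have e2 : c * (j + 1) = c * j + c := by ring
    rw [e2]
    omega

/-- one interval is enough if it is long -/
theorem count_one {M d a b : ℕ} {G : ℕ → Prop} (hM : 1600 ≤ M)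
    (ha : d / 2 ≤ a) (hb : b ≤ d) (h : ∀ D', a < D' → D' ≤ b → G D') (hab : a ≤ b)
    (hlen : d + 130 * (a + 4 * M) ≤ 130 * b) :
    d ≤ 130 * (2 * M * nb (d / 2) (2 * M) G d) := by
  have h1 := nb_step (G := G) (L := 2 * M) (by omega) hab ha h
  have h2 : 2 * M * nb (d / 2) (2 * M) G b ≤ 2 * M * nb (d / 2) (2 * M) G d :=
    Nat.mul_le_mul_left _ (nb_mono hb)
  omega

/-- the length of the intervals -/
theorem count_length {M d U V F x : ℕ} (hM : 1600 ≤ M) (hd : 14400 * M ^ 3 ≤ d ^ 2) (hU : U ≤ M)
    (hF : F * d ≤ U * U) (hF1 : 1 ≤ F) (hx1 : 4 * (U * U) ≤ x * d)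
    (hx2 : (x + 2) * d ≤ 2 * (4 * (U * U))) (hx3 : x < 8 * (F + 1)) (hx0 : 1 ≤ x)
    (hV : 225 * (4 * (U * U)) ≤ 225 * (4 * (V * V)) + d) (hU1 : 1 ≤ U) :
    4 * (U * U) / (x + 2) + d / (9 * (F + 1)) + 4 * M + 3 * U + 1 ≤ 4 * (V * V) / x := by
  set a := 4 * (U * U) / (x + 2) with ha
  set c := d / (9 * (F + 1)) with hc
  set b := 4 * (V * V) / x with hb
  by_contra hcon
  push Not at hcon
  set s := c + 4 * M + 3 * U + 1 with hs
  have h1 : a * (x + 2) ≤ 4 * (U * U) := Nat.div_mul_le_self _ _
  have h2 : 4 * (V * V) < (b + 1) * x := by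
    have h3 := Nat.lt_mul_div_succ (4 * (V * V)) hx0
    rw [mul_comm (b + 1) x]
    exact h3
  have h3 : b + 1 ≤ a + s := by omega
  have h4 : 4 * (V * V) < (a + s) * x := lt_of_lt_of_le h2 (Nat.mul_le_mul_right _ h3)
  have h5 : 9 * (F + 1) * c ≤ d := Nat.mul_div_le _ _
  set Q := 4 * (U * U) with hQ
  set W := 4 * (V * V) with hW
  have hQ0 : 0 < Q := by
    have h6 : 0 < U * U := Nat.mul_pos hU1 hU1
    omega
  -- 225 s x (x + 2) > 448 Q
  have h6 : W * (x + 2) < (Q + s * (x + 2)) * x := by
    have h7 : W * (x + 2) < (a + s) * x * (x + 2) := Nat.mul_lt_mul_of_pos_right h4 (by omega)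
    have h8 : (a + s) * x * (x + 2) ≤ (Q + s * (x + 2)) * x := by
      have h9 : (a * (x + 2)) * x ≤ Q * x := Nat.mul_le_mul_right _ h1
      have e1 : (a + s) * x * (x + 2) = (a * (x + 2)) * x + s * (x + 2) * x := by ring
      have e2 : (Q + s * (x + 2)) * x = Q * x + s * (x + 2) * x := by ring
      rw [e1, e2]
      exact Nat.add_le_add_right h9 _
    exact lt_of_lt_of_le h7 h8
  have h7 : 448 * Q < 225 * (s * x * (x + 2)) := by
    have h8 : 225 * Q * (x + 2) ≤ (225 * W + d) * (x + 2) := Nat.mul_le_mul_right _ hV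
    have e1 : 225 * Q * (x + 2) = 225 * (Q * x) + 450 * Q := by ring
    have e2 : (225 * W + d) * (x + 2) = 225 * (W * (x + 2)) + (x + 2) * d := by ring
    have e3 : (Q + s * (x + 2)) * x = Q * x + s * x * (x + 2) := by ring
    rw [e1, e2] at h8
    rw [e3] at h6
    omega
  -- multiply by d
  have h8 : 448 * Q * d < 225 * (s * x) * (2 * Q) := by
    have h9 : 448 * Q * d < 225 * (s * x * (x + 2)) * d := by
      apply Nat.mul_lt_mul_of_pos_right h7
      by_contra h0
      have h10 : d = 0 := by omega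
      rw [h10, Nat.mul_zero] at hx1
      omega
    have h10 : 225 * (s * x * (x + 2)) * d = 225 * (s * x) * ((x + 2) * d) := by ring
    rw [h10] at h9
    exact lt_of_lt_of_le h9 (Nat.mul_le_mul_left _ hx2)
  have h9 : 448 * d < 450 * (s * x) := by
    have h10 : Q * (448 * d) < Q * (450 * (s * x)) := by
      have e1 : Q * (448 * d) = 448 * Q * d := by ring
      have e2 : Q * (450 * (s * x)) = 225 * (s * x) * (2 * Q) := by ring
      rw [e1, e2]
      exact h8
    exact Nat.lt_of_mul_lt_mul_left h10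
  have h10 : s * x ≤ s * (8 * (F + 1)) := Nat.mul_le_mul_left _ hx3.le
  have h11 : 448 * d < 3600 * (s * (F + 1)) := by
    have e1 : s * (8 * (F + 1)) = 8 * (s * (F + 1)) := by ring
    rw [e1] at h10
    omega
  have h12 : s ≤ c + 8 * M := by omega
  have h13 : 448 * d < 400 * d + 28800 * (M * (F + 1)) := by
    have h14 : s * (F + 1) ≤ (c + 8 * M) * (F + 1) := Nat.mul_le_mul_right _ h12
    have e1 : (c + 8 * M) * (F + 1) = (F + 1) * c + 8 * (M * (F + 1)) := by ring
    have e2 : 9 * (F + 1) * c = 9 * ((F + 1) * c) := by ring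
    rw [e1] at h14
    rw [e2] at h5
    omega
  have h14 : 48 * d < 57600 * (M * F) := by
    have h15 : M * 1 ≤ M * F := Nat.mul_le_mul_left _ hF1
    have e1 : M * (F + 1) = M * F + M := by ring
    rw [e1] at h13
    omega
  have h15 : 48 * d * d < 57600 * (M * F) * d := by
    apply Nat.mul_lt_mul_of_pos_right h14
    by_contra h0
    have h10 : d = 0 := by omega
    rw [h10, Nat.mul_zero] at hx1
    omega
  have h16 : 57600 * (M * F) * d ≤ 57600 * (M * (U * U)) := by
    have h17 : M * (F * d) ≤ M * (U * U) := Nat.mul_le_mul_left _ hF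
    have e1 : 57600 * (M * F) * d = 57600 * (M * (F * d)) := by ring
    rw [e1]
    exact Nat.mul_le_mul_left _ h17
  have h17 : M * (U * U) ≤ M ^ 3 := by
    have h18 : U * U ≤ M * M := Nat.mul_le_mul hU hU
    have h19 : M * (U * U) ≤ M * (M * M) := Nat.mul_le_mul_left _ h18
    have e1 : M * (M * M) = M ^ 3 := by ring
    omega
  have e1 : 48 * d * d = 48 * d ^ 2 := by ring
  rw [e1] at h15
  omega

theorem count_big {M d : ℕ} (hM : 1600 ≤ M) (hd : 14400 * M ^ 3 ≤ d ^ 2) : 4800 * M ≤ d := by
  have h1 : (4800 * M) ^ 2 ≤ d ^ 2 := by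
    refine le_trans ?_ hd
    have h2 : 1600 * M ^ 2 ≤ M * M ^ 2 := Nat.mul_le_mul_right _ hM
    have e1 : (4800 * M) ^ 2 = 14400 * (1600 * M ^ 2) := by ring
    have e2 : 14400 * M ^ 3 = 14400 * (M * M ^ 2) := by ring
    rw [e1, e2]
    exact Nat.mul_le_mul_left _ h2
  exact (Nat.pow_le_pow_iff_left (by norm_num)).mp h1

theorem count_fin {M d x : ℕ} (hM : 1600 ≤ M) (hd : 14400 * M ^ 3 ≤ d ^ 2)
    (h : d ≤ 130 * (2 * M * x)) : M * M ≤ (d / 50) * x := by
  have h0 := count_big hM hd
  have h1 : d ≤ 51 * (d / 50) := by omega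
  have h2 : d * d ≤ (51 * (d / 50)) * (130 * (2 * M * x)) := Nat.mul_le_mul h1 h
  have h3 : M * (14400 * (M * M)) ≤ M * (13260 * ((d / 50) * x)) := by
    have e1 : M * (14400 * (M * M)) = 14400 * M ^ 3 := by ring
    have e2 : M * (13260 * ((d / 50) * x)) = (51 * (d / 50)) * (130 * (2 * M * x)) := by ring
    have e3 : d ^ 2 = d * d := by ring
    rw [e1, e2]
    rw [e3] at hd
    exact hd.trans h2
  have h4 := Nat.le_of_mul_le_mul_left h3 (by omega : 0 < M)
  omega

theorem count_width {M d U V : ℕ} (hd : 14400 * M ^ 3 ≤ d ^ 2) (hU : U ≤ M) (hVU : V ≤ U)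
    (hw : 225 * ((U - V) * (U - V)) ≤ V) :
    225 * (4 * (U * U)) ≤ 225 * (4 * (V * V)) + d := by
  obtain ⟨w, rfl⟩ : ∃ w, U = V + w := ⟨U - V, by omega⟩
  have e0 : V + w - V = w := by omega
  rw [e0] at hw
  set U := V + w with hU'
  have h1 : 1800 * (U * w) ≤ d := by
    have h2 : (1800 * (U * w)) ^ 2 ≤ d ^ 2 := by
      refine le_trans ?_ hd
      have e1 : (1800 * (U * w)) ^ 2 = 14400 * (U ^ 2 * (225 * (w * w))) := by ring
      have h3 : 225 * (w * w) ≤ M := by omega
      have h4 : U ^ 2 ≤ M ^ 2 := Nat.pow_le_pow_left hU 2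
      have h5 : U ^ 2 * (225 * (w * w)) ≤ M ^ 2 * M := Nat.mul_le_mul h4 h3
      have e2 : M ^ 3 = M ^ 2 * M := by ring
      rw [e1, e2]
      exact Nat.mul_le_mul_left _ h5
    exact (Nat.pow_le_pow_iff_left (by norm_num)).mp h2
  have e2 : U * U = V * V + w * (2 * V + w) := by
    rw [hU']
    ring
  have h3 : w * (2 * V + w) ≤ 2 * (U * w) := by
    have h4 : w * (2 * V + w) ≤ w * (2 * U) := Nat.mul_le_mul_left _ (by omega)
    have e3 : w * (2 * U) = 2 * (U * w) := by ring
    omega
  omega

theorem count_blocks {M d U V : ℕ} (hM : 1600 ≤ M) (hd : 14400 * M ^ 3 ≤ d ^ 2)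
    (hd' : d ≤ 3 * (M * M)) (hU : U ≤ M) (hV : 1 ≤ V) (hVU : V ≤ U)
    (hw : 225 * ((U - V) * (U - V)) ≤ V) :
    M * M ≤ (d / 50) * nb (d / 2) (2 * M) (PG U V) d := by
  apply count_fin hM hd
  have h0 := count_big hM hd
  have hwd := count_width hd hU hVU hw
  have hVV : 4 * (V * V) ≤ 4 * (U * U) := Nat.mul_le_mul_left _ (Nat.mul_le_mul hVU hVU)
  rcases Nat.lt_or_ge (99 * d) (300 * (U * U)) with hA | hA
  · rcases Nat.lt_or_ge (297 * d) (400 * (U * U)) with hB | hB
    · rcases Nat.lt_or_ge (693 * d) (400 * (U * U)) with hC | hC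
      · -- the general case
        set F := U * U / d with hFdef
        have hd0 : 0 < d := by omega
        have hF : F * d ≤ U * U := Nat.div_mul_le_self _ _
        have hF' : U * U < (F + 1) * d := by
          have h1 := Nat.lt_mul_div_succ (U * U) hd0
          rw [mul_comm (F + 1) d]
          exact h1
        have hF1 : 1 ≤ F := by
          rw [hFdef, Nat.le_div_iff_mul_le hd0]
          omega
        set K := (F + 1) / 2 with hK
        have hx1 : ∀ n, F + 2 ≤ n → 4 * (U * U) ≤ (4 * n - 3) * d := by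
          intro n hn
          have h1 : 4 * (F + 1) ≤ 4 * n - 3 := by omega
          have h2 := Nat.mul_le_mul_right d h1
          have e1 : 4 * (F + 1) * d = 4 * ((F + 1) * d) := by ring
          rw [e1] at h2
          omega
        have hx2 : ∀ n, n < F + 2 + K → (4 * n - 1) * d ≤ 2 * (4 * (U * U)) := by
          intro n hn
          rcases Nat.lt_or_ge F 3 with h3 | h3
          · have h4 : F = 1 ∨ F = 2 := by omega
            rcases h4 with h4 | h4
            · have h5 : 4 * n - 1 ≤ 11 := by omega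
              have h6 := Nat.mul_le_mul_right d h5
              omega
            · have h5 : 4 * n - 1 ≤ 15 := by omega
              have h6 := Nat.mul_le_mul_right d h5
              rw [h4] at hF
              omega
          · have h5 : 4 * n - 1 ≤ 8 * F := by omega
            have h6 := Nat.mul_le_mul_right d h5
            have e1 : 8 * F * d = 8 * (F * d) := by ring
            rw [e1] at h6
            omega
        have hlen : ∀ n, F + 2 ≤ n → n < F + 2 + K →
            4 * (U * U) / (4 * n - 1) + d / (9 * (F + 1)) + 2 * (2 * M) ≤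
              4 * (V * V) / (4 * n - 3) - 3 * U - 1 := by
          intro n hn hn'
          obtain ⟨x, hx⟩ : ∃ x, x = 4 * n - 3 := ⟨_, rfl⟩
          have hx' : 4 * n - 1 = x + 2 := by omega
          have h7 := hx1 n hn
          have h8 := hx2 n hn'
          rw [hx'] at h8 ⊢
          rw [← hx] at h7 ⊢
          have h9 := count_length hM hd hU hF hF1 h7 h8 (by omega) (by omega) hwd (by omega)
          omega
        have hchain := nb_chain (D₁ := d / 2) (L := 2 * M) (c := d / (9 * (F + 1))) (K := K)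
          (n₀ := F + 2) (a := fun n => 4 * (U * U) / (4 * n - 1))
          (b := fun n => 4 * (V * V) / (4 * n - 3) - 3 * U - 1) (G := PG U V) (by omega)
          (fun n hn hn' => by
            change d / 2 ≤ 4 * (U * U) / (4 * n - 1)
            rw [Nat.le_div_iff_mul_le (by omega)]
            have h1 := hx2 n hn'
            have h2 : (d / 2) * 2 ≤ d := Nat.div_mul_le_self _ _
            have h3 : (d / 2) * 2 * (4 * n - 1) ≤ d * (4 * n - 1) := Nat.mul_le_mul_right _ h2
            have e1 : (d / 2) * 2 * (4 * n - 1) = 2 * ((d / 2) * (4 * n - 1)) := by ring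
            have e2 : d * (4 * n - 1) = (4 * n - 1) * d := by ring
            rw [e1, e2] at h3
            omega)
          (fun n hn hn' D' h1 h2 => by
            change 4 * (U * U) / (4 * n - 1) < D' at h1
            change D' ≤ 4 * (V * V) / (4 * n - 3) - 3 * U - 1 at h2
            refine Or.inr ⟨n, by omega, ?_, ?_⟩
            · have h3 := Nat.lt_mul_div_succ (4 * (U * U)) (b := 4 * n - 1) (by omega)
              exact h3.le.trans (Nat.mul_le_mul_left _ (by omega))
            · have h0' : 1 ≤ D' := Nat.one_le_of_lt h1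
              have h3 : D' + 1 + 3 * U ≤ 4 * (V * V) / (4 * n - 3) := by omega
              exact (Nat.mul_le_mul_left _ h3).trans (Nat.mul_div_le _ _))
          (fun n hn hn' => hlen n hn hn')
          (fun n hn hn' => by
            change 4 * (V * V) / (4 * (n + 1) - 3) - 3 * U - 1 ≤ 4 * (U * U) / (4 * n - 1)
            have h1 : 4 * (V * V) / (4 * (n + 1) - 3) ≤ 4 * (U * U) / (4 * n - 1) :=
              Nat.div_le_div hVV (by omega) (by omega)
            exact le_trans (le_trans (Nat.sub_le _ _) (Nat.sub_le _ _)) h1)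
          K le_rfl d (by
            right
            change 4 * (V * V) / (4 * (F + 2 + K - K) - 3) - 3 * U - 1 ≤ d
            have e1 : F + 2 + K - K = F + 2 := by omega
            rw [e1]
            have h1 := hx1 (F + 2) le_rfl
            have h2 : 4 * (V * V) / (4 * (F + 2) - 3) ≤ d := by
              apply Nat.div_le_of_le_mul
              exact hVV.trans h1
            omega)
        -- the final estimate
        set c := d / (9 * (F + 1)) with hc
        have h1 : d < 9 * (F + 1) * (c + 1) := Nat.lt_mul_div_succ d (by omega)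
        have h2 : F + 1 ≤ 4 * K := by omega
        have h3 : 9 * (F + 1) * (c + 1) ≤ 9 * (4 * K) * (c + 1) :=
          Nat.mul_le_mul_right _ (Nat.mul_le_mul_left _ h2)
        have e1 : 9 * (4 * K) * (c + 1) = 36 * (c * K) + 36 * K := by ring
        rw [e1] at h3
        have h4 : 4800 * F ≤ M := by
          have h5 : M * (4800 * F) ≤ M * M := by
            have h6 : F * (4800 * M) ≤ F * d := Nat.mul_le_mul_left _ h0
            have h7 : U * U ≤ M * M := Nat.mul_le_mul hU hU
            have e2 : M * (4800 * F) = F * (4800 * M) := by ring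
            omega
          exact Nat.le_of_mul_le_mul_left h5 (by omega)
        have h5 : d ≤ 72 * (c * K) := by omega
        omega
      · -- U ^ 2 between 0.7425 d and 1.7325 d
        apply count_one (G := PG U V) (a := max (d / 2) (4 * (U * U) / 7))
          (b := min d (4 * (V * V) / 5 - 3 * U - 1)) hM (le_max_left _ _) (min_le_left _ _)
        · intro D' h1 h2
          refine Or.inr ⟨2, by omega, ?_, ?_⟩
          · have h3 : 4 * (U * U) / 7 < D' := lt_of_le_of_lt (le_max_right _ _) h1
            have e1 : (4 * 2 - 1) * (D' + 1) = 7 * (D' + 1) := rfl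
            rw [e1]
            omega
          · have h3 : D' ≤ 4 * (V * V) / 5 - 3 * U - 1 := le_trans h2 (min_le_right _ _)
            have e1 : (4 * 2 - 3) * (D' + 1 + 3 * U) = 5 * (D' + 1 + 3 * U) := rfl
            rw [e1]
            omega
        · omega
        · omega
    · -- U ^ 2 between 0.33 d and 0.7425 d
      apply count_one (G := PG U V) (a := max (d / 2) (4 * (U * U) / 3)) (b := d) hM
        (le_max_left _ _) le_rfl
      · intro D' h1 h2
        refine Or.inr ⟨1, le_rfl, ?_, ?_⟩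
        · have h3 : 4 * (U * U) / 3 < D' := lt_of_le_of_lt (le_max_right _ _) h1
          have e1 : (4 * 1 - 1) * (D' + 1) = 3 * (D' + 1) := rfl
          rw [e1]
          omega
        · have e1 : (4 * 1 - 3) * (D' + 1 + 3 * U) = D' + 1 + 3 * U := by ring
          rw [e1]
          omega
      · omega
      · omega
  · apply count_one (G := PG U V) (a := max (d / 2) (3 * (U * U))) (b := d) hM
      (le_max_left _ _) le_rfl
    · intro D' h1 h2
      left
      have h3 : 3 * (U * U) < D' := lt_of_le_of_lt (le_max_right _ _) h1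
      omega
    · omega
    · omega

end Pool.Agent.Work.MP_0421d9_ag.LD
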