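import Mathlib.Data.Finset.Card
import Mathlib.Order.Interval.Finset.Nat

/-!
The arithmetic condition for balanced strips, and the number of good blocks of degrees.
-/

namespace Pool.Agent.Work.MP_0421d9_ag.LD

/-- the arithmetic condition for balanced strips in a pool with multiplicities in `[V, U]` -/
def PG (U V D : ℕ) : Prop :=
  3 * (U * U) ≤ D + 1 ∨ ∃ n, 1 ≤ n ∧ 4 * (U * U) ≤ (4 * n - 1) * (D + 1) ∧
    (4 * n - 3) * (D + 1 + 3 * U) ≤ 4 * (V * V)

open Classical in
/-- the number of blocks `(L i, L (i + 1)]` with `D₁ ≤ L i < D` on which `G` holds -/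
noncomputable def nb (D₁ L : ℕ) (G : ℕ → Prop) (D : ℕ) : ℕ :=
  ((Finset.range D).filter (fun i => D₁ ≤ L * i ∧ L * i < D ∧
    ∀ D', L * i < D' → D' ≤ L * (i + 1) → G D')).card

end Pool.Agent.Work.MP_0421d9_ag.LD
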