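import Pool.Agent.Work.MP_0421d9_ag.Gen1

/-!
The square root window: for special nonempty systems with multiplicities at most `M` the square
roots of the dimension and of the superabundance add up to at most `M`.
-/

set_option linter.unusedSectionVars false

namespace Pool.Agent.Work.MP_0421d9_ag

open MvPolynomial Module

section sq

variable {ι : Type} [Fintype ι] [DecidableEq ι] {d : ℕ} {p : ι → V3}
  {E : ι → Fin 3 → Derivation ℚ ℂ ℂ}

/-- the chain argument, when all the codimensions are bounded -/
theorem chain_all (hE : IsDual p E) (i : ι) (K : ℕ) : ∀ (N : ℕ) (y : ι → ℕ), cc d p y i ≤ N →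
    cc d p y i ≤ y i →
    (∀ j, j ≠ i → 1 ≤ y j → cc d p (up (dn y j) i) j ≤ K) →
    finrank ℂ (linSys d p (up y i)) ≤ N * K := by
  intro N
  induction N with
  | zero =>
    intro y hN _ _
    have h1 := finrank_eq_zero_of_cc hE i (d + 1) y (by omega) (Nat.le_zero.mp hN)
    have h2 := cc_add (d := d) (p := p) y i
    omega
  | succ N ih =>
    intro y hN hc hy
    by_cases hV : finrank ℂ (linSys d p (up y i)) = 0
    · rw [hV]; exact Nat.zero_le _
    have hyu := le_of_finrank_pos hV
    have hyd : ∀ l, y l ≤ d := fun l => (le_up y i l).trans (hyu l)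
    have hyi : y i + 1 ≤ d := by
      have := hyu i
      rwa [up_self] at this
    have hpos : 0 < cc d p y i := by
      rcases Nat.eq_zero_or_pos (cc d p y i) with h0 | h0
      · exfalso
        apply hV
        have h1 := finrank_eq_zero_of_cc hE i (d + 1) y (by omega) h0
        have h2 := cc_add (d := d) (p := p) y i
        omega
      · exact h0
    obtain ⟨j, hji, hyj, hlt, hcj⟩ := activity hE hyd i hyi hc hpos
    set z := dn y j with hz
    have hyz : up z j = y := up_dn hyj
    have hzj : z j = y j - 1 := dn_self y j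
    have hcj' : cc d p (up z i) j ≤ y j - 1 := hcj
    have hzi : ∀ l, up z i l ≤ d := by
      intro l
      by_cases hl : l = i
      · rw [hl, up_self, hz, dn_ne _ hji.symm]; exact hyi
      · rw [up_ne _ hl]
        exact (dn_le y j l).trans (hyd l)
    have hcK : cc d p (up z i) j ≤ K := hy j hji hyj
    have hzij : up z i j = z j := up_ne _ hji
    have hcost : cc d p (up y i) j ≤ cc d p (up z i) j := by
      have h1 := cc_up_self hE hzi j (by rw [hzij, hzj]; exact hcj')
      rwa [up_comm, hyz] at h1
    have h3 := cc_add (d := d) (p := p) (up y i) j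
    have h4 : finrank ℂ (linSys d p (up (up y j) i)) ≤ N * K := by
      apply ih (up y j) (by omega)
      · rw [up_ne _ hji.symm]; omega
      · intro l hli hyl
        by_cases hlj : l = j
        · subst hlj
          have e1 : dn (up y l) l = y := by
            funext x
            by_cases hx : x = l
            · rw [hx, dn_self, up_self]; omega
            · rw [dn_ne _ hx, up_ne _ hx]
          rw [e1]
          exact hcost.trans hcK
        · rw [up_ne _ hlj] at hyl
          have e1 : up (dn (up y j) l) i = up (up (dn y l) i) j := by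
            rw [up_comm (dn y l) i j]
            congr 1
            funext x
            by_cases hx : x = l
            · rw [hx, dn_self, up_ne _ hlj, up_ne _ hlj, dn_self]
            · rw [dn_ne _ hx]
              by_cases hx' : x = j
              · rw [hx', up_self, up_self, dn_ne _ (fun h => hlj h.symm)]
              · rw [up_ne _ hx', up_ne _ hx', dn_ne _ hx]
          rw [e1]
          exact (cc_mono _ hlj).trans (hy l hli hyl)
    rw [up_comm y i j] at h3
    rw [h3, Nat.succ_mul]
    omega

/-- a special system does not cut out a complete series at some point -/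
theorem exists_defect (hE : IsDual p E) {m : ι → ℕ}
    (h : (d + 2).choose 2 < finrank ℂ (linSys d p m) + ∑ i, (m i + 1).choose 2) :
    ∃ i, 1 ≤ m i ∧ cc d p (dn m i) i ≤ m i - 1 := by
  obtain ⟨y, i, hy, hc⟩ := exists_incomplete (∑ i, m i) m le_rfl h
  have hyi : y i + 1 ≤ m i := by
    have := hy i
    rwa [up_self] at this
  refine ⟨i, by omega, ?_⟩
  set y' : ι → ℕ := Function.update m i (y i) with hy'
  have hy'i : y' i = y i := by rw [hy', Function.update_self]
  have h3 : cc d p y' i ≤ cc d p y i := by
    apply cc_mono_le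
    · intro l
      by_cases hl : l = i
      · rw [hl, hy'i]
      · rw [hy', Function.update_of_ne hl]
        have := hy l
        rwa [up_ne _ hl] at this
    · exact hy'i.symm
  have h5 := cc_update_le hE (y := y') (i := i) (c := y i) (h3.trans hc) (by rw [hy'i])
    (m i - 1 - y i)
  have h6 : Function.update y' i (y' i + (m i - 1 - y i)) = dn m i := by
    rw [hy'i, hy', Function.update_idem, (by omega : y i + (m i - 1 - y i) = m i - 1)]
    rfl
  rw [h6] at h5
  omega

theorem sq_arith {M c c' e e' X S δ : ℕ} (h1 : c + e = M) (h2 : c' + e' = M) (hδ : δ ≤ e)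
    (hc : X ≤ c * c) (hcc : c < c') (h : e' * (X + c) + c' * S ≤ c' * e' * M) :
    e * X + c * (S + δ) ≤ c * e * M := by
  obtain ⟨t, rfl⟩ : ∃ t, c' = c + t := ⟨c' - c, by omega⟩
  have ht : 1 ≤ t := by omega
  have he : e = e' + t := by omega
  subst he
  have h1' : M = c + (e' + t) := h1.symm
  subst h1'
  have h3 : c * δ ≤ c * (e' + t) := Nat.mul_le_mul_left _ hδ
  -- it is enough to bound `e * (X + c) + c * S`
  have key : (c + t) * ((e' + t) * (X + c) + c * S) ≤
      (c + t) * (c * (e' + t) * (c + (e' + t))) := by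
    have h4 : c * (e' * (X + c) + (c + t) * S) ≤ c * ((c + t) * e' * (c + (e' + t))) :=
      Nat.mul_le_mul_left _ h
    have h5 : X + c ≤ c * (c + t) := by
      calc X + c ≤ c * c + c * t := Nat.add_le_add hc (Nat.le_mul_of_pos_right c ht)
        _ = c * (c + t) := by ring
    have h6 : (X + c) * (t * (c + (e' + t))) ≤ c * (c + t) * (t * (c + (e' + t))) :=
      Nat.mul_le_mul_right _ h5
    calc (c + t) * ((e' + t) * (X + c) + c * S)
        = c * (e' * (X + c) + (c + t) * S) + (X + c) * (t * (c + (e' + t))) := by ring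
      _ ≤ c * ((c + t) * e' * (c + (e' + t))) + c * (c + t) * (t * (c + (e' + t))) :=
          Nat.add_le_add h4 h6
      _ = (c + t) * (c * (e' + t) * (c + (e' + t))) := by ring
  rcases Nat.eq_zero_or_pos (c + t) with h0 | h0
  · omega
  have key' := Nat.le_of_mul_le_mul_left key h0
  calc (e' + t) * X + c * (S + δ) = (e' + t) * X + c * S + c * δ := by ring
    _ ≤ (e' + t) * X + c * S + c * (e' + t) := Nat.add_le_add_left h3 _
    _ = (e' + t) * (X + c) + c * S := by ring
    _ ≤ _ := key'

/-- **The square root window.** -/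
theorem sq_aux (hE : IsDual p E) (M : ℕ) : ∀ (N : ℕ) (m : ι → ℕ) (S : ℕ), ∑ l, m l ≤ N →
    (∀ i, m i ≤ M) → finrank ℂ (linSys d p m) ≠ 0 →
    finrank ℂ (linSys d p m) + ∑ i, (m i + 1).choose 2 = (d + 2).choose 2 + S → 1 ≤ S →
    ∃ c e, 1 ≤ c ∧ 1 ≤ e ∧ c + e = M ∧
      e * finrank ℂ (linSys d p m) + c * S ≤ c * e * M := by
  intro N
  induction N with
  | zero =>
    intro m S hN hM hne hS hS1
    exfalso
    obtain ⟨i, hi, -⟩ := exists_defect (d := d) hE (m := m) (by omega)
    have := Finset.single_le_sum (f := m) (fun j _ => Nat.zero_le (m j)) (Finset.mem_univ i)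
    omega
  | succ N ih =>
    intro m S hN hM hne hS hS1
    have hd := le_of_finrank_pos hne
    obtain ⟨i, hi, hci⟩ := exists_defect (d := d) hE (m := m) (by omega)
    obtain ⟨j, hj, hmax⟩ := Finset.exists_max_image (Finset.univ.filter (fun x => 1 ≤ m x))
      (fun x => cc d p (dn m x) x) ⟨i, Finset.mem_filter.mpr ⟨Finset.mem_univ _, hi⟩⟩
    rw [Finset.mem_filter] at hj
    obtain ⟨-, hj⟩ := hj
    have hmax' : ∀ l, 1 ≤ m l → cc d p (dn m l) l ≤ cc d p (dn m j) j := fun l hl =>
      hmax l (Finset.mem_filter.mpr ⟨Finset.mem_univ _, hl⟩)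
    set X := finrank ℂ (linSys d p m) with hX
    set c := cc d p (dn m j) j with hc
    -- the dimension is at most `c * c`
    have hXc : X ≤ c * c := by
      have h1 := chain_all hE i c (cc d p (dn m i) i) (dn m i) le_rfl
        (by rw [dn_self]; exact hci) (by
        intro l hli hl
        rw [dn_ne _ hli] at hl
        rw [dn_comm m hli.symm, up_dn (by rw [dn_ne _ hli.symm]; exact hi)]
        exact hmax' l hl)
      rw [up_dn hi] at h1
      exact h1.trans (Nat.mul_le_mul_right _ (hmax' i hi))
    have hc1 : 1 ≤ c := by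
      rcases Nat.eq_zero_or_pos c with h0 | h0
      · rw [h0] at hXc
        omega
      · exact h0
    have hcj : c ≤ m j := by
      have h1 := cc_le hE (y := dn m j) (fun l => (dn_le m j l).trans (hd l)) j
      rw [dn_self] at h1
      omega
    have hX' : finrank ℂ (linSys d p (dn m j)) = X + c := by
      have h1 := cc_add (d := d) (p := p) (dn m j) j
      rw [up_dn hj] at h1
      exact h1
    have hsg : ∑ l, (m l + 1).choose 2 = ∑ l, (dn m j l + 1).choose 2 + m j := by
      have h1 := sum_choose_up (dn m j) j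
      rw [up_dn hj, dn_self] at h1
      omega
    have hmM := hM j
    have hchi := chi_le (d := d) (p := p) (m := dn m j)
      (fun l => ((dn_le m j l).trans (hd l)).trans (Nat.le_succ d))
    obtain ⟨δ, hδ⟩ : ∃ δ, m j = c + δ := ⟨m j - c, by omega⟩
    obtain ⟨S', hS'⟩ : ∃ S', S = S' + δ := ⟨S - δ, by omega⟩
    have hS'' : finrank ℂ (linSys d p (dn m j)) + ∑ l, (dn m j l + 1).choose 2 =
        (d + 2).choose 2 + S' := by omega
    rcases Nat.eq_zero_or_pos S' with h0 | h0
    · -- the next system is nonspecial
      refine ⟨c, M - c, hc1, by omega, by omega, ?_⟩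
      obtain ⟨e, he⟩ : ∃ e, M = c + e := ⟨M - c, by omega⟩
      have he1 : 1 ≤ e := by omega
      have hSe : S ≤ e := by omega
      have e1 : M - c = e := by omega
      rw [e1]
      calc e * X + c * S ≤ e * (c * c) + c * e :=
            Nat.add_le_add (Nat.mul_le_mul_left _ hXc) (Nat.mul_le_mul_left _ hSe)
        _ = c * e * (c + 1) := by ring
        _ ≤ c * e * M := Nat.mul_le_mul_left _ (by omega)
    · have hsum : ∑ l, dn m j l ≤ N := by
        have h2 : ∑ l, dn m j l + 1 = ∑ l, m l := by
          rw [← Finset.add_sum_erase _ _ (Finset.mem_univ j),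
            ← Finset.add_sum_erase _ m (Finset.mem_univ j), dn_self]
          have h3 : ∑ l ∈ Finset.univ.erase j, dn m j l = ∑ l ∈ Finset.univ.erase j, m l := by
            refine Finset.sum_congr rfl (fun l hl => ?_)
            rw [dn_ne _ (Finset.ne_of_mem_erase hl)]
          omega
        omega
      obtain ⟨c', e', hc', he', hce, hle⟩ := ih (dn m j) S' hsum
        (fun l => (dn_le m j l).trans (hM l)) (by omega) hS'' h0
      rw [hX'] at hle
      rcases Nat.lt_or_ge c c' with h1 | h1
      · -- the first part of the window moves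
        refine ⟨c, M - c, hc1, by omega, by omega, ?_⟩
        rw [hS']
        exact sq_arith (M := M) (by omega) hce (by omega) hXc h1 hle
      · refine ⟨c', e', hc', he', hce, ?_⟩
        rcases Nat.eq_zero_or_pos δ with hδ0 | hδ0
        · rw [hS', hδ0, Nat.add_zero]
          refine le_trans ?_ hle
          exact Nat.add_le_add_right (Nat.mul_le_mul_left _ (Nat.le_add_right _ _)) _
        · have h2 : c' * δ ≤ e' * c := by
            have h3 : δ ≤ e' := by omega
            calc c' * δ ≤ c * e' := Nat.mul_le_mul h1 h3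
              _ = e' * c := Nat.mul_comm _ _
          calc e' * X + c' * S = e' * X + c' * S' + c' * δ := by rw [hS']; ring
            _ ≤ e' * X + c' * S' + e' * c := Nat.add_le_add_left h2 _
            _ = e' * (X + c) + c' * S' := by ring
            _ ≤ _ := hle

/-- **The square root window.** -/
theorem sq_window (hp : GenericPoints p) {m : ι → ℕ} {M : ℕ} (hM : ∀ i, m i ≤ M)
    (hne : linSys d p m ≠ ⊥)
    (h : finrank ℂ (linSys d p m) + ∑ i, (m i + 1).choose 2 ≠ (d + 2).choose 2) :
    ∃ c e S, 1 ≤ c ∧ 1 ≤ e ∧ c + e = M ∧ 1 ≤ S ∧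
      finrank ℂ (linSys d p m) + ∑ i, (m i + 1).choose 2 = (d + 2).choose 2 + S ∧
      e * finrank ℂ (linSys d p m) + c * S ≤ c * e * M := by
  obtain ⟨E, hE⟩ := exists_dual p hp
  have hfin : Module.Finite ℂ (linSys d p m) :=
    Submodule.finiteDimensional_of_le (linSys_le d p _)
  have hne' : finrank ℂ (linSys d p m) ≠ 0 := fun h0 =>
    hne (Submodule.finrank_eq_zero.mp h0)
  have h1 := chi_le (d := d) (p := p) (m := m)
    (fun i => (le_of_finrank_pos hne' i).trans (Nat.le_succ d))
  obtain ⟨S, hS⟩ : ∃ S, finrank ℂ (linSys d p m) + ∑ i, (m i + 1).choose 2 =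
      (d + 2).choose 2 + S := ⟨_, (Nat.add_sub_cancel' h1).symm⟩
  have hS1 : 1 ≤ S := by omega
  obtain ⟨c, e, h2, h3, h4, h5⟩ := sq_aux hE M (∑ l, m l) m S le_rfl hM hne' hS hS1
  exact ⟨c, e, S, h2, h3, h4, hS1, hS, h5⟩

end sq

end Pool.Agent.Work.MP_0421d9_ag
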