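import Pool.Agent.Work.MP_0421d9_ag.MPlane
import Pool.Agent.Work.MP_0421d9_ag.MPG
import Pool.Agent.Work.MP_0421d9_ag.Sq69

/-!
Systems with arbitrary multiplicities: the induction along the strips.
-/

namespace Pool.Agent.Work.MP_0421d9_ag.LD

open MvPolynomial Module

namespace MM

theorem mem_nbset {D₁ L : ℕ} {G : ℕ → Prop} {D : ℕ} (hL : 1 ≤ L) [DecidablePred (fun i =>
    D₁ ≤ L * i ∧ L * i < D ∧ ∀ D', L * i < D' → D' ≤ L * (i + 1) → G D')] {i : ℕ} :
    i ∈ (Finset.range D).filter (fun i => D₁ ≤ L * i ∧ L * i < D ∧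
      ∀ D', L * i < D' → D' ≤ L * (i + 1) → G D') ↔
    D₁ ≤ L * i ∧ L * i < D ∧ ∀ D', L * i < D' → D' ≤ L * (i + 1) → G D' := by
  rw [Finset.mem_filter, Finset.mem_range]
  constructor
  · exact fun h => h.2
  · refine fun h => ⟨?_, h⟩
    have h1 : 1 * i ≤ L * i := Nat.mul_le_mul_right i hL
    omega

theorem nb_step {D₁ L : ℕ} {G : ℕ → Prop} {D D' : ℕ} (hL : 1 ≤ L) (h' : D ≤ D' + L) :
    nb D₁ L G D ≤ nb D₁ L G D' + 1 := by
  classical
  unfold nb
  set S := (Finset.range D).filter (fun i => D₁ ≤ L * i ∧ L * i < D ∧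
    ∀ D', L * i < D' → D' ≤ L * (i + 1) → G D') with hS
  set S' := (Finset.range D').filter (fun i => D₁ ≤ L * i ∧ L * i < D' ∧
    ∀ D', L * i < D' → D' ≤ L * (i + 1) → G D') with hS'
  have h1 : (S \ S').card ≤ 1 := by
    rw [Finset.card_le_one]
    have key : ∀ a ∈ S \ S', D' ≤ L * a ∧ L * a < D := by
      intro a ha
      rw [Finset.mem_sdiff, hS, hS', mem_nbset hL, mem_nbset hL] at ha
      obtain ⟨⟨h2, h3, h4⟩, h5⟩ := ha
      refine ⟨?_, h3⟩
      by_contra hcon
      exact h5 ⟨h2, by omega, h4⟩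
    have key2 : ∀ a ∈ S \ S', ∀ b ∈ S \ S', a < b → False := by
      intro a ha b hb hab
      have h2 := key a ha
      have h3 := key b hb
      have h4 : L * (a + 1) ≤ L * b := Nat.mul_le_mul_left L hab
      rw [Nat.mul_add, Nat.mul_one] at h4
      omega
    intro a ha b hb
    rcases Nat.lt_trichotomy a b with h2 | h2 | h2
    · exact (key2 a ha b hb h2).elim
    · exact h2
    · exact (key2 b hb a ha h2).elim
  have h2 : S.card ≤ (S \ S').card + S'.card := by
    have h3 := Finset.card_le_card (Finset.subset_union_right (s₁ := S') (s₂ := S))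
    have h4 := Finset.card_sdiff_add_card S S'
    have h5 : (S ∪ S').card = (S' ∪ S).card := by rw [Finset.union_comm]
    omega
  omega

theorem nb_bad {D₁ L : ℕ} {G : ℕ → Prop} {D D' : ℕ} (hL : 1 ≤ L) (h' : D ≤ D' + L)
    (hG : ¬ G D) : nb D₁ L G D ≤ nb D₁ L G D' := by
  classical
  unfold nb
  apply Finset.card_le_card
  intro i hi
  rw [mem_nbset hL] at hi ⊢
  obtain ⟨h2, h3, h4⟩ := hi
  refine ⟨h2, ?_, h4⟩
  by_contra hcon
  exact hG (h4 D h3 (by rw [Nat.mul_add, Nat.mul_one]; omega))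

theorem nb_pos {D₁ L : ℕ} {G : ℕ → Prop} {D : ℕ} (hL : 1 ≤ L) (h : nb D₁ L G D ≠ 0) :
    D₁ < D := by
  classical
  unfold nb at h
  obtain ⟨i, hi⟩ := Finset.card_ne_zero.mp h
  rw [mem_nbset hL] at hi
  omega

theorem hPm_count {r : ℕ} (D : ℕ) (y : Fin r → ℕ) :
    (D + 2).choose 2 ≤ hPm D y + ∑ i, (y i + 1).choose 2 := by
  by_cases hmd : ∀ i, y i ≤ D + 1
  · exact chi_le (d := D) (p := gpt r) hmd
  · push Not at hmd
    obtain ⟨i, hi⟩ := hmd
    have h1 : (y i + 1).choose 2 ≤ ∑ l, (y l + 1).choose 2 :=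
      Finset.single_le_sum (f := fun l => (y l + 1).choose 2) (fun l _ => Nat.zero_le _)
        (Finset.mem_univ i)
    have h2 : (D + 2).choose 2 ≤ (y i + 1).choose 2 := Nat.choose_le_choose 2 (by omega)
    omega

/-- the expected dimension -/
def chi {r : ℕ} (D : ℕ) (y : Fin r → ℕ) : ℤ :=
  (((D + 2).choose 2 : ℕ) : ℤ) - ((∑ i, (y i + 1).choose 2 : ℕ) : ℤ)

theorem base {r M D U S : ℕ} {y : Fin r → ℕ} (hy : ∀ i, y i ≤ M) (h : M * M ≤ U + S) :
    (hPm D y : ℤ) ≤ max (U : ℤ) (chi D y + S) := by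
  have hp := gpt_generic r
  by_cases h0 : linSys D (gpt r) y = ⊥
  · have h1 : hPm D y = 0 := by
      unfold hPm
      rw [h0, finrank_bot]
    rw [h1]
    exact le_max_of_le_left (by positivity)
  by_cases h1 : finrank ℂ (linSys D (gpt r) y) + ∑ i, (y i + 1).choose 2 = (D + 2).choose 2
  · apply le_max_of_le_right
    unfold chi hPm
    have h2 : ((finrank ℂ (linSys D (gpt r) y) + ∑ i, (y i + 1).choose 2 : ℕ) : ℤ) =
        (((D + 2).choose 2 : ℕ) : ℤ) := by rw [h1]
    push_cast at h2 ⊢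
    linarith
  obtain ⟨c, e, S₁, hc, he, hce, hS₁, h2, h3⟩ := sq_window hp hy h0 h1
  by_contra hcon
  rw [not_le, max_lt_iff] at hcon
  obtain ⟨h4, h5⟩ := hcon
  have h4' : U + 1 ≤ hPm D y := by exact_mod_cast h4
  have h5' : S + 1 ≤ S₁ := by
    unfold chi at h5
    have h6 : ((finrank ℂ (linSys D (gpt r) y) + ∑ i, (y i + 1).choose 2 : ℕ) : ℤ) =
        (((D + 2).choose 2 + S₁ : ℕ) : ℤ) := by rw [h2]
    have h7 : hPm D y = finrank ℂ (linSys D (gpt r) y) := rfl
    rw [h7] at h5
    push_cast at h5 h6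
    have h8 : (S : ℤ) + 1 ≤ S₁ := by linarith
    exact_mod_cast h8
  have h8 : e * (U + 1) + c * (S + 1) ≤ c * e * M :=
    (Nat.add_le_add (Nat.mul_le_mul_left e h4') (Nat.mul_le_mul_left c h5')).trans h3
  have h9 : c * e * (M * M) ≤ c * e * (U + S) := Nat.mul_le_mul_left _ h
  have h10 : (e * (U + 1) + c * (S + 1)) * (c + e) ≤ c * e * M * (c + e) :=
    Nat.mul_le_mul_right _ h8
  have h11 : (e * (U + 1) + c * (S + 1)) * (c + e) =
      c * e * (U + S) + (e * e * U + c * c * S) + (e + c) * (c + e) := by ring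
  have h12 : c * e * M * (c + e) = c * e * (M * M) := by rw [hce]; ring
  have h13 : 1 ≤ (e + c) * (c + e) := Nat.mul_pos (by omega) (by omega)
  omega

end MM

/-- the induction, with all numerical facts as hypotheses -/
theorem main_induction' {r M d D₁ L g : ℕ}
    (Av : ℕ → (Fin r → ℕ) → Prop) (Gd : ℕ → ℕ → Prop) (hL : 1 ≤ L)
    (hav : ∀ s y y', (∀ i, y' i = y i ∨ y' i = 0) → Av s y' → Av s y)
    (hexact : ∀ s (y : Fin r → ℕ) D, (∀ i, y i ≤ M) → Av s y → D₁ < D → D ≤ d →
      ∃ κ A y', StripM D κ A y y' ∧ κ + 1 ≤ L)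
    (hgood : ∀ s (y : Fin r → ℕ) D, (∀ i, y i ≤ M) → Av s y → D₁ < D → D ≤ d → Gd s D →
      ∃ κ A y', StripM D κ A y y' ∧ κ + 1 ≤ L ∧ g ≤ A ∧ g + A ≤ D - κ + 1)
    (hnone : ∀ (y : Fin r → ℕ) D, (∀ i, y i ≤ M) → D₁ < D + L → (∀ s, ¬ Av s y) →
      ∑ i, (y i + 1).choose 2 + (M - 1) * (M - 1) < (D + 2).choose 2)
    {m : Fin r → ℕ} (hm : ∀ i, m i ≤ M)
    (hcount : ∀ s, Av s m → M * M ≤ g * nb D₁ L (Gd s) d) (hd : D₁ < d + L) :
    hPm d m = (d + 2).choose 2 - ∑ i, (m i + 1).choose 2 := by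
  have claim : ∀ D, ∀ (y : Fin r → ℕ) (U S : ℕ), D ≤ d → D₁ < D + L → (∀ i, y i ≤ M) →
      (∀ s, Av s y → M * M ≤ U + S + g * nb D₁ L (Gd s) D) →
      (hPm D y : ℤ) ≤ max (U : ℤ) (MM.chi D y + S) := by
    intro D
    induction D using Nat.strong_induction_on with
    | _ D ih =>
    intro y U S hDd hD hy hpot
    rcases Nat.lt_or_ge (U + S) (M * M) with hUS | hUS
    swap
    · exact MM.base hy hUS
    by_cases hnoav : ∀ s, ¬ Av s y
    · have h1 := hnone y D hy hD hnoav
      have h2 := window_nonspecial (gpt_generic r) hy h1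
      apply le_max_of_le_right
      unfold MM.chi hPm
      have h3 : ((finrank ℂ (linSys D (gpt r) y) + ∑ i, (y i + 1).choose 2 : ℕ) : ℤ) =
          (((D + 2).choose 2 : ℕ) : ℤ) := by rw [h2]
      push_cast at h3 ⊢
      linarith
    push Not at hnoav
    obtain ⟨s₀, hs₀⟩ := hnoav
    have hDD : D₁ < D := by
      apply MM.nb_pos hL (G := Gd s₀)
      intro h0
      have h1 := hpot s₀ hs₀
      rw [h0, Nat.mul_zero] at h1
      omega
    -- a step along a strip
    have step : ∀ κ A y', StripM D κ A y y' → κ + 1 ≤ L →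
        (∀ s, Av s y' → ∀ D', D ≤ D' + L → D' < D →
          g * nb D₁ L (Gd s) D ≤ g * nb D₁ L (Gd s) D' + A ∧
          g * nb D₁ L (Gd s) D ≤ g * nb D₁ L (Gd s) D' + (D - κ + 1 - A)) →
        (hPm D y : ℤ) ≤ max (U : ℤ) (MM.chi D y + S) := by
      intro κ A y' hs hκL hg
      obtain ⟨h1, h2, h3, h4, h5, h6⟩ := hs.count
      have h7 := hs.le
      have hy' : ∀ i, y' i ≤ M := by
        intro i
        rcases h4 i with h | h
        · rw [h]; exact hy i
        · rw [h]; exact Nat.zero_le _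
      have c1 := ih (D - κ) (by omega) y' (U + A) S (by omega) (by omega) hy' (by
        intro s hs'
        have h8 := hpot s (hav s y y' h4 hs')
        have h9 := (hg s hs' (D - κ) (by omega) (by omega)).1
        omega)
      have c2 := ih (D - κ - 1) (by omega) y' U (S + (D - κ + 1 - A)) (by omega) (by omega) hy' (by
        intro s hs'
        have h8 := hpot s (hav s y y' h4 hs')
        have h9 := (hg s hs' (D - κ - 1) (by omega) (by omega)).2
        omega)
      have e1 : MM.chi (D - κ) y' = MM.chi D y + A := by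
        unfold MM.chi
        have h10 : (((D + 2).choose 2 + A + ∑ i, (y' i + 1).choose 2 : ℕ) : ℤ) =
            (((D - κ + 2).choose 2 + ∑ i, (y i + 1).choose 2 : ℕ) : ℤ) := by rw [h5]
        push_cast at h10 ⊢
        linarith
      have e2 : MM.chi (D - κ - 1) y' = MM.chi D y - ((D - κ + 1 - A : ℕ) : ℤ) := by
        have h11 : (((D - κ + 2).choose 2 : ℕ) : ℤ) =
            (((D - κ - 1 + 2).choose 2 + (D - κ + 1) : ℕ) : ℤ) := by rw [h6]
        have h12 : ((D - κ + 1 - A : ℕ) : ℤ) = ((D - κ + 1 : ℕ) : ℤ) - A := Nat.cast_sub h3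
        have h13 : MM.chi (D - κ) y' = MM.chi (D - κ - 1) y' + ((D - κ + 1 : ℕ) : ℤ) := by
          unfold MM.chi
          rw [h11]
          push_cast
          ring
        rw [h12]
        linarith
      rw [e1] at c1
      rw [e2] at c2
      push_cast at c1 c2
      have h14 : (hPm D y : ℤ) ≤ max ((hPm (D - κ) y' : ℤ) - A) (hPm (D - κ - 1) y' : ℤ) ∨
          (hPm D y : ℤ) ≤ 0 := by
        rcases le_max_iff.mp h7 with h | h
        · rcases Nat.lt_or_ge (hPm (D - κ) y') A with h' | h'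
          · right
            have : hPm D y = 0 := by omega
            rw [this]
            simp
          · left
            apply le_max_of_le_left
            have : ((hPm (D - κ) y' - A : ℕ) : ℤ) = (hPm (D - κ) y' : ℤ) - A := Nat.cast_sub h'
            rw [← this]
            exact_mod_cast h
        · left
          apply le_max_of_le_right
          exact_mod_cast h
      rcases h14 with h14 | h14
      · rcases le_max_iff.mp h14 with h15 | h15
        · rcases le_max_iff.mp c1 with h16 | h16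
          · apply le_max_of_le_left
            linarith
          · apply le_max_of_le_right
            linarith
        · rcases le_max_iff.mp c2 with h16 | h16
          · apply le_max_of_le_left
            linarith
          · apply le_max_of_le_right
            linarith
      · apply le_max_of_le_left
        exact h14.trans (by positivity)
    by_cases hgd : ∃ s, Av s y ∧ Gd s D
    · obtain ⟨s, hs, hsG⟩ := hgd
      obtain ⟨κ, A, y', h1, h2, h3, h4⟩ := hgood s y D hy hs hDD hDd hsG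
      refine step κ A y' h1 h2 (fun s' _ D' h5 _ => ?_)
      have h6 := MM.nb_step (D₁ := D₁) (G := Gd s') hL h5
      have h7 : g * nb D₁ L (Gd s') D ≤ g * (nb D₁ L (Gd s') D' + 1) := Nat.mul_le_mul_left g h6
      rw [Nat.mul_add, Nat.mul_one] at h7
      omega
    · push Not at hgd
      obtain ⟨κ, A, y', h1, h2⟩ := hexact s₀ y D hy hs₀ hDD hDd
      refine step κ A y' h1 h2 (fun s' hs' D' h5 _ => ?_)
      have h4 := h1.count.2.2.2.1
      have h6 := MM.nb_bad (D₁ := D₁) (G := Gd s') hL h5 (hgd s' (hav s' y y' h4 hs'))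
      have h7 : g * nb D₁ L (Gd s') D ≤ g * nb D₁ L (Gd s') D' := Nat.mul_le_mul_left g h6
      omega
  have h1 := claim d m 0 0 le_rfl hd hm (fun s hs => by
    have := hcount s hs
    omega)
  have h2 := MM.hPm_count d m
  unfold MM.chi at h1
  simp only [Nat.cast_zero, add_zero] at h1
  rcases le_max_iff.mp h1 with h3 | h3
  · have h4 : hPm d m = 0 := by
      have : hPm d m ≤ 0 := by exact_mod_cast h3
      omega
    omega
  · have h4 : hPm d m + ∑ i, (m i + 1).choose 2 ≤ (d + 2).choose 2 := by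
      have h5 : (hPm d m : ℤ) + ((∑ i, (m i + 1).choose 2 : ℕ) : ℤ) ≤
          (((d + 2).choose 2 : ℕ) : ℤ) := by linarith
      exact_mod_cast h5
    omega

end Pool.Agent.Work.MP_0421d9_ag.LD
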