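import Pool.Agent.Work.MP_0421d9_ag.MNode
import Pool.Agent.Work.MP_0421d9_ag.MMain
import Pool.Agent.Work.MP_0421d9_ag.MCount

/-!
Systems with arbitrary multiplicities at most `M` in degrees `d` with `d ^ 2 ≥ 14400 M ^ 3`.
-/

namespace Pool.Agent.Work.MP_0421d9_ag.LD

open MvPolynomial Module

theorem pool_subset {r s : ℕ} {y y' : Fin r → ℕ} (h : ∀ i, y' i = y i ∨ y' i = 0) :
    pool y' s ⊆ pool y s := by
  intro i hi
  unfold pool at hi ⊢
  rw [Finset.mem_filter] at hi ⊢
  rcases h i with h1 | h1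
  · rw [← h1]
    exact ⟨Finset.mem_univ _, hi.2⟩
  · exact absurd h1 hi.2.1

/-- all the systems with multiplicities at most `M` are nonspecial in degree `d` if
`14400 * M ^ 3 ≤ d ^ 2` -/
theorem mixed_main {r M d : ℕ} {p : Fin r → V3} (hp : GenericPoints p) {m : Fin r → ℕ}
    (hm : ∀ i, m i ≤ M) (hd : 14400 * M ^ 3 ≤ d ^ 2) :
    finrank ℂ (linSys d p m) = (d + 2).choose 2 - ∑ i, (m i + 1).choose 2 := by
  rcases Nat.lt_or_ge d (3 * M ^ 2) with h | h
  swap
  · exact LD.main hp hm h
  have hM : 1600 ≤ M := by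
    by_contra hcon
    push Not at hcon
    rcases Nat.eq_zero_or_pos M with h0 | h0
    · subst h0
      omega
    · have h1 : d ^ 2 < (3 * M ^ 2) ^ 2 := Nat.pow_lt_pow_left h (by norm_num)
      have h2 : (3 * M ^ 2) ^ 2 = 9 * M * M ^ 3 := by ring
      rw [h2] at h1
      have h3 : 9 * M * M ^ 3 ≤ 14400 * M ^ 3 := Nat.mul_le_mul_right _ (by omega)
      omega
  have hd0 : 1 ≤ d := by
    rcases Nat.eq_zero_or_pos d with h0 | h0
    · subst h0
      have h1 : 0 < 14400 * M ^ 3 := by positivity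
      omega
    · exact h0
  rw [hPm_eq hp]
  refine main_induction' (M := M) (D₁ := d / 2) (L := 2 * M) (g := d / 50)
    (fun s y => Avail M d s y) (fun s D => PG (hi M s) (lo s) D) (by omega) ?_ ?_ ?_ ?_ hm ?_
    (by omega)
  · intro s y y' hyy h1
    unfold Avail at h1 ⊢
    exact h1.trans (Nat.mul_le_mul_left 2 (Nat.mul_le_mul_left _
      (Finset.card_le_card (pool_subset hyy))))
  · intro s y D hy hs h1 h2
    exact node_exact' hM hd hy hs h1 h2
  · intro s y D hy hs h1 h2 h3
    exact node_good' hM hd hy hs h1 h2 h3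
  · intro y D hy h1 h2
    exact none_avail hM hd hy h1 h2
  · intro s hs
    have hne : (pool m s).Nonempty := by
      rw [← Finset.card_pos]
      unfold Avail at hs
      rcases Nat.eq_zero_or_pos (pool m s).card with h0 | h0
      · rw [h0] at hs
        omega
      · exact h0
    obtain ⟨i, hi⟩ := hne
    obtain ⟨h1, h2, h3, h4, h5⟩ := pool_bounds hm hi
    exact count_blocks hM hd (by nlinarith) h4 h1 (h2.trans h3) h5

end Pool.Agent.Work.MP_0421d9_ag.LD
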