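import Pool.Agent.Work.MP_0421d9_ag.TRel
import Pool.Agent.Work.MP_0421d9_ag.MFinal
import Pool.Agent.Work.MP_0421d9_ag.FRel
import Pool.Agent.Work.MP_0421d9_ag.GCount

/-!
The relative theorem for points of multiplicity up to `c d ^ (2 / 3)`: the induction along the
strips, relative to a set of points of larger multiplicities.
-/

namespace Pool.Agent.Work.MP_0421d9_ag.LD

open MvPolynomial Module

/-- the induction, with all numerical facts as hypotheses -/
theorem main_induction_rel {r u M d D₁ L g : ℕ} (B : Finset (Fin r)) {m : Fin r → ℕ}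
    (hu : 1 ≤ u) (huM : u ≤ M) (hM : ∀ i, m i ≤ M) (hms : ∀ i, i ∉ B → m i ≤ u)
    (Av : ℕ → (Fin r → ℕ) → Prop) (Gd : ℕ → ℕ → Prop) (hL : 1 ≤ L)
    (hreg : ∀ D, D₁ < D + L → hPm D (onB B m) + ∑ i, (onB B m i + 1).choose 2 = (D + 2).choose 2)
    (hav : ∀ s y y', (∀ i, y' i = y i ∨ y' i = 0) → Av s y' → Av s y)
    (hexact : ∀ s (y : Fin r → ℕ) D, (∀ i, i ∉ B → y i ≤ u) → Av s y → D₁ < D → D ≤ d →
      ∃ κ A y', StripM D κ A y y' ∧ κ + 1 ≤ L ∧ ∀ i ∈ B, y' i = y i)
    (hgood : ∀ s (y : Fin r → ℕ) D, (∀ i, i ∉ B → y i ≤ u) → Av s y → D₁ < D → D ≤ d →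
      Gd s D → ∃ κ A y', StripM D κ A y y' ∧ κ + 1 ≤ L ∧ g ≤ A ∧ g + A ≤ D - κ + 1 ∧
        ∀ i ∈ B, y' i = y i)
    (hnone : ∀ (y : Fin r → ℕ) D, (∀ i ∈ B, y i = m i) → (∀ i, i ∉ B → y i ≤ u) →
      D₁ < D + L → (∀ s, ¬ Av s y) →
      3 * (u * M) + ∑ i, (y i + 1).choose 2 ≤ (D + 2).choose 2)
    (hcount : ∀ s, Av s m → 3 * (u * M) ≤ g * nb D₁ L (Gd s) d) (hd : D₁ < d + L) :
    hPm d m = (d + 2).choose 2 - ∑ i, (m i + 1).choose 2 := by
  have claim : ∀ D, ∀ (y : Fin r → ℕ) (U S : ℕ), D ≤ d → D₁ < D + L → (∀ i ∈ B, y i = m i) →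
      (∀ i, y i ≤ m i) →
      (∀ s, Av s y → 3 * (u * M) ≤ U + S + g * nb D₁ L (Gd s) D) →
      (hPm D y : ℤ) ≤ max (U : ℤ) (MM.chi D y + S) := by
    intro D
    induction D using Nat.strong_induction_on with
    | _ D ih =>
    intro y U S hDd hD hyB hym hpot
    have hyM : ∀ i, y i ≤ M := fun i => (hym i).trans (hM i)
    have hyu : ∀ i, i ∉ B → y i ≤ u := fun i hi => (hym i).trans (hms i hi)
    have hregy : hPm D (onB B y) + ∑ i, (onB B y i + 1).choose 2 = (D + 2).choose 2 := by
      rw [onB_congr hyB]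
      exact hreg D hD
    rcases Nat.lt_or_ge (U + S) (3 * (u * M)) with hUS | hUS
    swap
    · exact tr_base B hu huM hyM hyu hregy hUS
    by_cases hnoav : ∀ s, ¬ Av s y
    · have h1 := hnone y D hyB hyu hD hnoav
      have h2 : finrank ℂ (linSys D (gpt r) y) + ∑ i, (y i + 1).choose 2 = (D + 2).choose 2 :=
        tr_regular B hu huM hyM hyu hregy h1
      apply le_max_of_le_right
      unfold MM.chi hPm
      have h3 : ((finrank ℂ (linSys D (gpt r) y) + ∑ i, (y i + 1).choose 2 : ℕ) : ℤ) =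
          (((D + 2).choose 2 : ℕ) : ℤ) := by rw [h2]
      push_cast at h3 ⊢
      linarith
    push Not at hnoav
    obtain ⟨s₀, hs₀⟩ := hnoav
    have hDD : D₁ < D := by
      apply MM.nb_pos hL (G := Gd s₀)
      intro h0
      have h1 := hpot s₀ hs₀
      rw [h0, Nat.mul_zero] at h1
      omega
    -- a step along a strip
    have step : ∀ κ A y', StripM D κ A y y' → κ + 1 ≤ L → (∀ i ∈ B, y' i = y i) →
        (∀ s, Av s y' → ∀ D', D ≤ D' + L → D' < D →
          g * nb D₁ L (Gd s) D ≤ g * nb D₁ L (Gd s) D' + A ∧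
          g * nb D₁ L (Gd s) D ≤ g * nb D₁ L (Gd s) D' + (D - κ + 1 - A)) →
        (hPm D y : ℤ) ≤ max (U : ℤ) (MM.chi D y + S) := by
      intro κ A y' hs hκL hy'B hg
      obtain ⟨h1, h2, h3, h4, h5, h6⟩ := hs.count
      have h7 := hs.le
      have hyB' : ∀ i ∈ B, y' i = m i := fun i hi => (hy'B i hi).trans (hyB i hi)
      have hym' : ∀ i, y' i ≤ m i := by
        intro i
        rcases h4 i with h | h
        · rw [h]; exact hym i
        · rw [h]; exact Nat.zero_le _
      have c1 := ih (D - κ) (by omega) y' (U + A) S (by omega) (by omega) hyB' hym' (by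
        intro s hs'
        have h8 := hpot s (hav s y y' h4 hs')
        have h9 := (hg s hs' (D - κ) (by omega) (by omega)).1
        omega)
      have c2 := ih (D - κ - 1) (by omega) y' U (S + (D - κ + 1 - A)) (by omega) (by omega)
        hyB' hym' (by
        intro s hs'
        have h8 := hpot s (hav s y y' h4 hs')
        have h9 := (hg s hs' (D - κ - 1) (by omega) (by omega)).2
        omega)
      have e1 : MM.chi (D - κ) y' = MM.chi D y + A := by
        unfold MM.chi
        have h10 : (((D + 2).choose 2 + A + ∑ i, (y' i + 1).choose 2 : ℕ) : ℤ) =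
            (((D - κ + 2).choose 2 + ∑ i, (y i + 1).choose 2 : ℕ) : ℤ) := by rw [h5]
        push_cast at h10 ⊢
        linarith
      have e2 : MM.chi (D - κ - 1) y' = MM.chi D y - ((D - κ + 1 - A : ℕ) : ℤ) := by
        have h11 : (((D - κ + 2).choose 2 : ℕ) : ℤ) =
            (((D - κ - 1 + 2).choose 2 + (D - κ + 1) : ℕ) : ℤ) := by rw [h6]
        have h12 : ((D - κ + 1 - A : ℕ) : ℤ) = ((D - κ + 1 : ℕ) : ℤ) - A := Nat.cast_sub h3
        have h13 : MM.chi (D - κ) y' = MM.chi (D - κ - 1) y' + ((D - κ + 1 : ℕ) : ℤ) := by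
          unfold MM.chi
          rw [h11]
          push_cast
          ring
        rw [h12]
        linarith
      rw [e1] at c1
      rw [e2] at c2
      push_cast at c1 c2
      have h14 : (hPm D y : ℤ) ≤ max ((hPm (D - κ) y' : ℤ) - A) (hPm (D - κ - 1) y' : ℤ) ∨
          (hPm D y : ℤ) ≤ 0 := by
        rcases le_max_iff.mp h7 with h | h
        · rcases Nat.lt_or_ge (hPm (D - κ) y') A with h' | h'
          · right
            have : hPm D y = 0 := by omega
            rw [this]
            simp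
          · left
            apply le_max_of_le_left
            have : ((hPm (D - κ) y' - A : ℕ) : ℤ) = (hPm (D - κ) y' : ℤ) - A := Nat.cast_sub h'
            rw [← this]
            exact_mod_cast h
        · left
          apply le_max_of_le_right
          exact_mod_cast h
      rcases h14 with h14 | h14
      · rcases le_max_iff.mp h14 with h15 | h15
        · rcases le_max_iff.mp c1 with h16 | h16
          · apply le_max_of_le_left
            linarith
          · apply le_max_of_le_right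
            linarith
        · rcases le_max_iff.mp c2 with h16 | h16
          · apply le_max_of_le_left
            linarith
          · apply le_max_of_le_right
            linarith
      · apply le_max_of_le_left
        exact h14.trans (by positivity)
    by_cases hgd : ∃ s, Av s y ∧ Gd s D
    · obtain ⟨s, hs, hsG⟩ := hgd
      obtain ⟨κ, A, y', h1, h2, h3, h4, hB⟩ := hgood s y D hyu hs hDD hDd hsG
      refine step κ A y' h1 h2 hB (fun s' _ D' h5 _ => ?_)
      have h6 := MM.nb_step (D₁ := D₁) (G := Gd s') hL h5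
      have h7 : g * nb D₁ L (Gd s') D ≤ g * (nb D₁ L (Gd s') D' + 1) := Nat.mul_le_mul_left g h6
      rw [Nat.mul_add, Nat.mul_one] at h7
      omega
    · push Not at hgd
      obtain ⟨κ, A, y', h1, h2, hB⟩ := hexact s₀ y D hyu hs₀ hDD hDd
      refine step κ A y' h1 h2 hB (fun s' hs' D' h5 _ => ?_)
      have h4 := h1.count.2.2.2.1
      have h6 := MM.nb_bad (D₁ := D₁) (G := Gd s') hL h5 (hgd s' (hav s' y y' h4 hs'))
      have h7 : g * nb D₁ L (Gd s') D ≤ g * nb D₁ L (Gd s') D' := Nat.mul_le_mul_left g h6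
      omega
  have h1 := claim d m 0 0 le_rfl hd (fun _ _ => rfl) (fun _ => le_rfl) (fun s hs => by
    have := hcount s hs
    omega)
  have h2 := MM.hPm_count d m
  unfold MM.chi at h1
  simp only [Nat.cast_zero, add_zero] at h1
  rcases le_max_iff.mp h1 with h3 | h3
  · have h4 : hPm d m = 0 := by
      have : hPm d m ≤ 0 := by exact_mod_cast h3
      omega
    omega
  · have h4 : hPm d m + ∑ i, (m i + 1).choose 2 ≤ (d + 2).choose 2 := by
      have h5 : (hPm d m : ℤ) + ((∑ i, (m i + 1).choose 2 : ℕ) : ℤ) ≤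
          (((d + 2).choose 2 : ℕ) : ℤ) := by linarith
      exact_mod_cast h5
    omega

end Pool.Agent.Work.MP_0421d9_ag.LD
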