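import Pool.Agent.Work.MP_0421d9_ag.GInd

/-!
Few large points and arbitrarily many points of multiplicity at most `u`, where
`40000 u ^ 2 M ≤ d ^ 2`.
-/

namespace Pool.Agent.Work.MP_0421d9_ag.LD

open MvPolynomial Module

theorem strip_lift {r r' D κ A : ℕ} {y : Fin r → ℕ} {ι : Fin r' → Fin r}
    (hι : Function.Injective ι) {z' : Fin r' → ℕ} (h : StripM D κ A (y ∘ ι) z') :
    ∃ y', StripM D κ A y y' ∧ ∀ i, i ∉ Set.range ι → y' i = y i := by
  obtain ⟨N, e, he, h1, h2, h3, h4, h5, h6, -⟩ := h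
  exact ⟨rest (ι ∘ e) y, ⟨N, ι ∘ e, hι.comp he, h1, h2, h3, h4, h5, h6, rfl⟩,
    fun i hi => rest_not_mem (fun ⟨k, hk⟩ => hi ⟨e k, hk⟩)⟩

/-- the pools without many points impose few conditions -/
theorem none_rel {r u d : ℕ} {z : Fin r → ℕ} (hu : 1600 ≤ u) (hd : 40000 * u ^ 3 ≤ d ^ 2)
    (hz : ∀ i, z i ≤ u) (h : ∀ s, ¬ Avail u d s z) :
    21600000 * ∑ i, (z i + 1).choose 2 ≤ 1358100 * d ^ 2 := by
  set S := Nat.sqrt (900 * u) with hS
  set T := ∑ i, (z i + 1).choose 2 with hT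
  have hS1 : S * S ≤ 900 * u := Nat.sqrt_le _
  have hS2 : 1200 ≤ S := by
    rw [hS, Nat.le_sqrt]; omega
  have hS3 : S ^ 3 ≤ 135 * d := by
    have h1 : (S ^ 3) ^ 2 ≤ (135 * d) ^ 2 := by
      calc (S ^ 3) ^ 2 = (S * S) ^ 3 := by ring
        _ ≤ (900 * u) ^ 3 := Nat.pow_le_pow_left hS1 3
        _ = 18225 * (40000 * u ^ 3) := by ring
        _ ≤ 18225 * d ^ 2 := Nat.mul_le_mul_left _ hd
        _ = (135 * d) ^ 2 := by ring
    exact (Nat.pow_le_pow_iff_left (by norm_num)).mp h1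
  have hT1 : 21600 * T ≤ 5 * d * ((S + 1) * ((S + 2) * (2 * S + 3) + 5394)) := by
    rw [← mpool_sum_sq, hT, mpool_sum hz, ← hS]
    calc 21600 * ∑ s ∈ Finset.range (S + 1), ∑ i ∈ pool z s, (z i + 1).choose 2
        = 6 * ∑ s ∈ Finset.range (S + 1), 3600 * ∑ i ∈ pool z s, (z i + 1).choose 2 := by
          rw [← Finset.mul_sum]; ring
      _ ≤ 6 * ∑ s ∈ Finset.range (S + 1), 5 * d * ((s + 1) * (s + 1) + 899) := by
          apply Nat.mul_le_mul_left
          apply Finset.sum_le_sum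
          intro s _
          exact mpool_one hz (h s)
      _ = 5 * d * (6 * ∑ s ∈ Finset.range (S + 1), ((s + 1) * (s + 1) + 899)) := by
          rw [← Finset.mul_sum]; ring
  have hS4 : 1000 * ((S + 1) * ((S + 2) * (2 * S + 3) + 5394)) ≤ 2012 * S ^ 3 :=
    mpool_cube hS2
  calc 21600000 * T = 1000 * (21600 * T) := by ring
    _ ≤ 1000 * (5 * d * ((S + 1) * ((S + 2) * (2 * S + 3) + 5394))) := Nat.mul_le_mul_left _ hT1
    _ = 5 * d * (1000 * ((S + 1) * ((S + 2) * (2 * S + 3) + 5394))) := by ring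
    _ ≤ 5 * d * (2012 * (135 * d)) :=
        Nat.mul_le_mul_left _ (hS4.trans (Nat.mul_le_mul_left _ hS3))
    _ = 1358100 * d ^ 2 := by ring

/-- the window in half the degree -/
theorem half_reg {r M d D N : ℕ} {y : Fin r → ℕ} (hy : ∀ i, y i ≤ M)
    (hN : ∑ i, (y i + 1).choose 2 = N) (h1 : 25 * N ≤ d ^ 2) (h2 : M * M + M ≤ 2 * N)
    (hM : 1 ≤ M) (hD : 1999 * d ≤ 4000 * D) :
    hPm D y + ∑ i, (y i + 1).choose 2 = (D + 2).choose 2 := by
  have h3 := tm_choose D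
  have e1 : (D + 2) * (D + 1) = D * D + 3 * D + 2 := by ring
  have e2 : (M - 1) * (M - 1) ≤ M * M := Nat.mul_le_mul (Nat.sub_le _ _) (Nat.sub_le _ _)
  have hDD : 3996001 * (d * d) ≤ 16000000 * (D * D) := by
    calc 3996001 * (d * d) = (1999 * d) * (1999 * d) := by ring
      _ ≤ (4000 * D) * (4000 * D) := Nat.mul_le_mul hD hD
      _ = 16000000 * (D * D) := by ring
  have e3 : d ^ 2 = d * d := sq d
  rw [e3] at h1
  exact window_nonspecial (gpt_generic r) hy (by rw [hN]; omega)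

/-- large `u` -/
theorem scale_M {r u M d : ℕ} {m : Fin r → ℕ} (hM : ∀ i, m i ≤ M) (hu : 1600 ≤ u) (huM : u ≤ M)
    (hd : 40000 * u ^ 2 * M ≤ d ^ 2) (hN : 25 * bigC ∅ u m ≤ d ^ 2)
    (hMN : M * M + M ≤ 2 * bigC ∅ u m) :
    hPm d m = (d + 2).choose 2 - ∑ i, (m i + 1).choose 2 := by
  classical
  set B := Finset.univ.filter (fun i => i ∈ (∅ : Finset (Fin r)) ∨ u < m i) with hB
  have hsmall : ∀ i, i ∉ B → m i ≤ u := by
    intro i hi
    by_contra hcon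
    exact hi (Finset.mem_filter.mpr ⟨Finset.mem_univ _, Or.inr (by omega)⟩)
  obtain ⟨N, hNdef⟩ : ∃ N, N = bigC ∅ u m := ⟨_, rfl⟩
  have hNB : ∑ i ∈ B, (m i + 1).choose 2 = N := by rw [hNdef]; rfl
  rw [← hNdef] at hN hMN
  have hd3 : 40000 * u ^ 3 ≤ d ^ 2 := by
    have h1 : u ^ 2 * u ≤ u ^ 2 * M := Nat.mul_le_mul_left _ huM
    have e1 : u ^ 3 = u ^ 2 * u := by ring
    have e2 : 40000 * u ^ 2 * M = 40000 * (u ^ 2 * M) := by ring
    omega
  have hd' : 14400 * u ^ 3 ≤ d ^ 2 := by omega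
  have h8 : 8000 * u ≤ d := by
    have h1 : (8000 * u) ^ 2 ≤ d ^ 2 := by
      calc (8000 * u) ^ 2 = 40000 * (1600 * u ^ 2) := by ring
        _ ≤ 40000 * (u * u ^ 2) := by gcongr
        _ = 40000 * u ^ 3 := by ring
        _ ≤ d ^ 2 := hd3
    exact (Nat.pow_le_pow_iff_left (by norm_num)).mp h1
  have hdd : d ^ 2 = d * d := sq d
  have huMd : 64000000 * (u * M) ≤ d ^ 2 := by
    calc 64000000 * (u * M) = 40000 * 1600 * (u * M) := by ring
      _ ≤ 40000 * u * (u * M) := Nat.mul_le_mul_right _ (Nat.mul_le_mul_left _ hu)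
      _ = 40000 * u ^ 2 * M := by ring
      _ ≤ d ^ 2 := hd
  -- the points outside `B`
  obtain ⟨ι, hι, hιB, hιsum⟩ := enum_finset (offP B)
  have hoff : ∀ k, ι k ∉ B := fun k => (Finset.mem_filter.mp (hιB k)).2
  have hBr : ∀ i ∈ B, i ∉ Set.range ι := by
    rintro i hi ⟨k, rfl⟩
    exact hoff k hi
  refine main_induction_rel (u := u) (M := M) (d := d) (D₁ := d / 2) (L := 2 * u) (g := d / 50) B
    (by omega) huM hM hsmall (fun s y => Avail u d s (y ∘ ι))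
    (fun s D => PG (hi u s) (lo s) D) (by omega) ?_ ?_ ?_ ?_ ?_ ?_ (by omega)
  · intro D hD
    refine half_reg (N := N) (fun i => (onB_le B m i).trans (hM i)) ?_ hN hMN (by omega) (by omega)
    rw [sum_onB]
    exact hNB
  · intro s y y' hyy h1
    unfold Avail at h1 ⊢
    exact h1.trans (Nat.mul_le_mul_left 2 (Nat.mul_le_mul_left _
      (Finset.card_le_card (pool_subset (fun k => hyy (ι k))))))
  · intro s y D hy hs h1 h2
    obtain ⟨κ, A, z', h3, h4⟩ := node_exact' (y := y ∘ ι) hu hd' (fun k => hy _ (hoff k)) hs h1 h2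
    obtain ⟨y', h5, h6⟩ := strip_lift hι h3
    exact ⟨κ, A, y', h5, h4, fun i hi => h6 i (hBr i hi)⟩
  · intro s y D hy hs h1 h2 h3
    obtain ⟨κ, A, z', h4, h5, h6, h7⟩ := node_good' (y := y ∘ ι) hu hd' (fun k => hy _ (hoff k))
      hs h1 h2 h3
    obtain ⟨y', h8, h9⟩ := strip_lift hι h4
    exact ⟨κ, A, y', h8, h5, h6, h7, fun i hi => h9 i (hBr i hi)⟩
  · intro y D hyB hyu hD hno
    have h1 := none_rel (z := y ∘ ι) hu hd3 (fun k => hyu _ (hoff k)) hno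
    have h2 := sum_offP B (fun i => (y i + 1).choose 2)
    have h3 : ∑ i ∈ B, (y i + 1).choose 2 = N := by
      rw [← hNB]
      exact Finset.sum_congr rfl (fun i hi => by rw [hyB i hi])
    have h4 : ∑ k, ((y ∘ ι) k + 1).choose 2 = ∑ i ∈ offP B, (y i + 1).choose 2 :=
      hιsum (fun i => (y i + 1).choose 2)
    rw [h4] at h1
    have h5 := tm_choose D
    have e1 : (D + 2) * (D + 1) = D * D + 3 * D + 2 := by ring
    have hD' : 1999 * d ≤ 4000 * D := by omega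
    have hDD : 3996001 * (d * d) ≤ 16000000 * (D * D) := by
      calc 3996001 * (d * d) = (1999 * d) * (1999 * d) := by ring
        _ ≤ (4000 * D) * (4000 * D) := Nat.mul_le_mul hD' hD'
        _ = 16000000 * (D * D) := by ring
    rw [hdd] at h1 hN huMd
    omega
  · intro s hs
    have hne : (pool (m ∘ ι) s).Nonempty := by
      rw [← Finset.card_pos]
      unfold Avail at hs
      rcases Nat.eq_zero_or_pos (pool (m ∘ ι) s).card with h0 | h0
      · rw [h0] at hs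
        omega
      · exact h0
    obtain ⟨i, hi'⟩ := hne
    obtain ⟨h1, h2, h3, h4, h5⟩ := pool_bounds (M := u) (fun k => hsmall _ (hoff k)) hi'
    exact count_rel hu huM hd h4 h1 (h2.trans h3) h5

/-- large degree compared to `u ^ 2` -/
theorem scale_F {r u M d : ℕ} {m : Fin r → ℕ} (hM : ∀ i, m i ≤ M) (hu : 1 ≤ u) (huM : u ≤ M)
    (hd : 40000 * u ^ 2 * M ≤ d ^ 2) (hdu : 10 * (u + 1) ^ 2 ≤ 3 * d)
    (hN : 25 * bigC ∅ u m ≤ d ^ 2) (hMN : M * M + M ≤ 2 * bigC ∅ u m) :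
    hPm d m = (d + 2).choose 2 - ∑ i, (m i + 1).choose 2 := by
  classical
  set B := Finset.univ.filter (fun i => i ∈ (∅ : Finset (Fin r)) ∨ u < m i) with hB
  have hsmall : ∀ i, i ∉ B → m i ≤ u := by
    intro i hi
    by_contra hcon
    exact hi (Finset.mem_filter.mpr ⟨Finset.mem_univ _, Or.inr (by omega)⟩)
  obtain ⟨N, hNdef⟩ : ∃ N, N = bigC ∅ u m := ⟨_, rfl⟩
  have hNB : ∑ i ∈ B, (m i + 1).choose 2 = N := by rw [hNdef]; rfl
  rw [← hNdef] at hN hMN
  have hdd : d ^ 2 = d * d := sq d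
  have e0 : (u + 1) ^ 2 = u * u + 2 * u + 1 := by ring
  have huu : 1 * u ≤ u * u := Nat.mul_le_mul_right u hu
  have h200 : 200 * u ≤ d := by
    have h1 : (200 * u) ^ 2 ≤ d ^ 2 := by
      calc (200 * u) ^ 2 = 40000 * u ^ 2 * 1 := by ring
        _ ≤ 40000 * u ^ 2 * M := Nat.mul_le_mul_left _ (by omega)
        _ ≤ d ^ 2 := hd
    exact (Nat.pow_le_pow_iff_left (by norm_num)).mp h1
  have huMd : 40000 * (u * M) ≤ d ^ 2 := by
    calc 40000 * (u * M) = 40000 * 1 * (u * M) := by ring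
      _ ≤ 40000 * u * (u * M) := Nat.mul_le_mul_right _ (Nat.mul_le_mul_left _ hu)
      _ = 40000 * u ^ 2 * M := by ring
      _ ≤ d ^ 2 := hd
  have hc1 : (u + 1).choose 2 = u + u.choose 2 := by
    rw [Nat.choose_succ_succ' u 1, Nat.choose_one_right]
  have hc2 : 2 * (u + 1).choose 2 = u * (u + 1) := tr_two_choose u
  have e2 : u * (u + 1) = u * u + u := by ring
  obtain ⟨D₁, hD₁⟩ : ∃ D₁, D₁ = d - d / 2 := ⟨_, rfl⟩
  obtain ⟨g, hg⟩ : ∃ g, g = (D₁ + 1 - u - (u + 1).choose 2) / 2 := ⟨_, rfl⟩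
  have hg6 : d ≤ 6 * g := by omega
  have hreg : hPm D₁ (onB B m) + ∑ i ∈ B, (m i + 1).choose 2 = (D₁ + 2).choose 2 := by
    rw [← sum_onB]
    refine half_reg (N := N) (fun i => (onB_le B m i).trans (hM i)) ?_ hN hMN (by omega) (by omega)
    rw [sum_onB]
    exact hNB
  rw [← hPm_eq (gpt_generic r)] at hreg ⊢
  refine rel_main2 (M := M) (D₁ := D₁) (g := g) (gpt_generic r) B hu huM hM hsmall hreg ?_
    (by omega) (by omega) (by omega) ?_
  · rw [hNB]
    have h1 : (2 * u + 1) * (D₁ + 1) * 100 ≤ 3 * (d * (D₁ + 1)) := by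
      have h2 : (2 * u + 1) * 100 ≤ 3 * d := by omega
      have h3 := Nat.mul_le_mul_right (D₁ + 1) h2
      have e3 : (2 * u + 1) * 100 * (D₁ + 1) = (2 * u + 1) * (D₁ + 1) * 100 := by ring
      have e4 : 3 * d * (D₁ + 1) = 3 * (d * (D₁ + 1)) := by ring
      omega
    have h4 : d * (D₁ + 1) ≤ 2 * D₁ * (D₁ + 1) := Nat.mul_le_mul_right _ (by omega)
    have h5 : d * d ≤ (2 * D₁) * (2 * D₁) := Nat.mul_le_mul (by omega) (by omega)
    have e5 : (2 * D₁) * (2 * D₁) = 4 * (D₁ * D₁) := by ring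
    have e6 : 2 * D₁ * (D₁ + 1) = 2 * (D₁ * D₁) + 2 * D₁ := by ring
    have e7 : (D₁ + 2) * (D₁ + 1) = D₁ * D₁ + 3 * D₁ + 2 := by ring
    rw [hdd] at hN huMd
    omega
  · have hK : d ≤ 6 * u * ((d - D₁) / (u + 1)) := by
      obtain ⟨K, hK⟩ : ∃ K, K = (d - D₁) / (u + 1) := ⟨_, rfl⟩
      rw [← hK]
      have h1 : d - D₁ < (u + 1) * (K + 1) := by
        rw [hK]
        exact Nat.lt_mul_div_succ _ (by omega)
      have h2 : (u + 1) * (K + 1) ≤ 2 * u * (K + 1) := Nat.mul_le_mul_right _ (by omega)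
      have e3 : 2 * u * (K + 1) = 2 * (u * K) + 2 * u := by ring
      have e4 : 6 * u * K = 6 * (u * K) := by ring
      omega
    have h1 : d * d ≤ (6 * g) * (6 * u * ((d - D₁) / (u + 1))) := Nat.mul_le_mul hg6 hK
    have h2 : u * (40000 * (u * M)) ≤ u * (36 * (g * ((d - D₁) / (u + 1)))) := by
      calc u * (40000 * (u * M)) = 40000 * u ^ 2 * M := by ring
        _ ≤ d * d := by rw [← hdd]; exact hd
        _ ≤ (6 * g) * (6 * u * ((d - D₁) / (u + 1))) := h1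
        _ = u * (36 * (g * ((d - D₁) / (u + 1)))) := by ring
    have h3 := Nat.le_of_mul_le_mul_left h2 (by omega : 0 < u)
    omega

/-- **Few large points.** If `40000 u ^ 2 M ≤ d ^ 2` and the points of multiplicity greater than
`u` impose at most `d ^ 2 / 25` conditions, then the system is nonspecial, for arbitrarily many
points of multiplicity at most `u`. -/
theorem scale_main {r u M d : ℕ} {p : Fin r → V3} (hp : GenericPoints p) {m : Fin r → ℕ}
    (hM : ∀ i, m i ≤ M) (hu : 1 ≤ u) (hd : 40000 * u ^ 2 * M ≤ d ^ 2)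
    (hN : 25 * bigC ∅ u m ≤ d ^ 2) :
    finrank ℂ (linSys d p m) = (d + 2).choose 2 - ∑ i, (m i + 1).choose 2 := by
  classical
  by_cases hall : ∀ i, m i ≤ u
  · apply mixed_main hp (M := min u M) (fun i => le_min (hall i) (hM i))
    have h1 : min u M ^ 3 ≤ u ^ 2 * M := by
      have e1 : min u M ^ 3 = min u M ^ 2 * min u M := by ring
      rw [e1]
      exact Nat.mul_le_mul (Nat.pow_le_pow_left (min_le_left _ _) 2) (min_le_right _ _)
    have e2 : 40000 * u ^ 2 * M = 40000 * (u ^ 2 * M) := by ring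
    omega
  push Not at hall
  obtain ⟨i₁, hi₁⟩ := hall
  obtain ⟨i₀, -, hmax⟩ := Finset.exists_max_image Finset.univ m ⟨i₁, Finset.mem_univ _⟩
  have hM' : ∀ i, m i ≤ m i₀ := fun i => hmax i (Finset.mem_univ _)
  have huM' : u < m i₀ := lt_of_lt_of_le hi₁ (hM' i₁)
  have hd' : 40000 * u ^ 2 * m i₀ ≤ d ^ 2 := (Nat.mul_le_mul_left _ (hM i₀)).trans hd
  have hMN : m i₀ * m i₀ + m i₀ ≤ 2 * bigC ∅ u m := by
    have h1 : (m i₀ + 1).choose 2 ≤ bigC ∅ u m := by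
      unfold bigC
      exact Finset.single_le_sum (f := fun l => (m l + 1).choose 2) (fun l _ => Nat.zero_le _)
        (Finset.mem_filter.mpr ⟨Finset.mem_univ i₀, Or.inr huM'⟩)
    have h2 : 2 * (m i₀ + 1).choose 2 = m i₀ * (m i₀ + 1) := tr_two_choose _
    have e1 : m i₀ * (m i₀ + 1) = m i₀ * m i₀ + m i₀ := by ring
    omega
  rw [hPm_eq hp]
  rcases Nat.lt_or_ge (3 * d) (10 * (u + 1) ^ 2) with hdu | hdu
  swap
  · exact scale_F hM' hu huM'.le hd' hdu hN hMN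
  refine scale_M hM' ?_ huM'.le hd' hN hMN
  by_contra hcon
  push Not at hcon
  have h1 : 40000 * u ^ 3 ≤ d ^ 2 := by
    have h2 : u ^ 2 * u ≤ u ^ 2 * m i₀ := Nat.mul_le_mul_left _ huM'.le
    have e1 : u ^ 3 = u ^ 2 * u := by ring
    have e2 : 40000 * u ^ 2 * m i₀ = 40000 * (u ^ 2 * m i₀) := by ring
    omega
  have h2 : 9 * d ^ 2 ≤ 100 * (u + 1) ^ 4 := by
    have h3 : (3 * d) ^ 2 ≤ (10 * (u + 1) ^ 2) ^ 2 := Nat.pow_le_pow_left hdu.le 2
    have e1 : (3 * d) ^ 2 = 9 * d ^ 2 := by ring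
    have e2 : (10 * (u + 1) ^ 2) ^ 2 = 100 * (u + 1) ^ 4 := by ring
    omega
  have h3 : 3600 * u ^ 3 ≤ (u + 1) ^ 4 := by omega
  have h4 : d ≠ 0 := by
    rintro rfl
    have h5 : 1 ≤ u ^ 3 := Nat.one_le_pow _ _ hu
    omega
  have h0 : 1 ≤ u ^ 3 := Nat.one_le_pow _ _ hu
  have e4 : (u + 1) ^ 4 = (u + 1) * (u + 1) ^ 3 := by ring
  rcases Nat.lt_or_ge u 449 with h5 | h5
  · have h6 : (u + 1) ^ 3 ≤ 8 * u ^ 3 := by
      calc (u + 1) ^ 3 ≤ (2 * u) ^ 3 := Nat.pow_le_pow_left (by omega) 3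
        _ = 8 * u ^ 3 := by ring
    have h7 : (u + 1) * (u + 1) ^ 3 ≤ 449 * (8 * u ^ 3) := Nat.mul_le_mul (by omega) h6
    omega
  · have h6 : (u + 1) ^ 3 ≤ 2 * u ^ 3 := by
      have e5 : (u + 1) ^ 3 = u ^ 3 + 3 * u ^ 2 + 3 * u + 1 := by ring
      have h7 : 449 * u ^ 2 ≤ u ^ 3 := by
        have e6 : u ^ 3 = u * u ^ 2 := by ring
        rw [e6]
        exact Nat.mul_le_mul_right _ h5
      have h8 : u ≤ u ^ 2 := by
        rw [sq]
        exact Nat.le_mul_of_pos_left u hu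
      omega
    have h7 : (u + 1) * (u + 1) ^ 3 ≤ 1600 * (2 * u ^ 3) := Nat.mul_le_mul (by omega) h6
    omega

end Pool.Agent.Work.MP_0421d9_ag.LD
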