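import Pool.Agent.Work.MP_0421d9_ag.GRel
import Pool.Agent.Work.MP_0421d9_ag.FSmooth

/-!
Both halves for systems with few large points.
-/

namespace Pool.Agent.Work.MP_0421d9_ag

open MvPolynomial Module LD

theorem scale_nbr {r u M d : ℕ} {p : Fin r → Fin 3 → ℂ} (hp : GenericPoints p)
    {m m' : Fin r → ℕ} (hM : ∀ i, m i ≤ M) (hu : 1 ≤ u)
    (hd : 40000 * u ^ 2 * (M + 1) ≤ d ^ 2) (hN : 26 * bigC ∅ u m ≤ d ^ 2) (hn : Nbr m m') :
    finrank ℂ (linSys d p m') = (d + 2).choose 2 - ∑ j, (m' j + 1).choose 2 := by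
  have h1 := bigC_nbr (I := ∅) (u := u) hM hn
  refine scale_main hp (M := M + 1) (u := u) (fun i => ?_) hu hd ?_
  · rcases hn with hn | ⟨i₀, h1, h2⟩
    · exact (hn i).trans ((hM i).trans (Nat.le_succ _))
    · by_cases hi : i = i₀
      · have := hM i₀
        rw [hi]
        omega
      · exact (h2 i hi).trans ((hM i).trans (Nat.le_succ _))
  · have e2 : 2 * (u + 2).choose 2 = (u + 1) * (u + 2) := by
      have h := tr_two_choose (u + 1)
      rw [h]
    have h3 : (u + 1) * (u + 2) ≤ (2 * u) * (3 * u) := Nat.mul_le_mul (by omega) (by omega)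
    have e3 : (2 * u) * (3 * u) = 6 * u ^ 2 := by ring
    have h4 : 1 ≤ u ^ 2 := Nat.one_le_pow _ _ hu
    have h5 : 40000 * 1 * (M + 1) ≤ 40000 * u ^ 2 * (M + 1) :=
      Nat.mul_le_mul_right _ (Nat.mul_le_mul_left _ h4)
    have h6 : 40000 * u ^ 2 * 1 ≤ 40000 * u ^ 2 * (M + 1) := Nat.mul_le_mul_left _ (by omega)
    omega

theorem scale_pair {r u M d : ℕ} {m : Fin r → ℕ} (hu : 1 ≤ u)
    (hd : 40000 * u ^ 2 * (M + 1) ≤ d ^ 2) (hN : 26 * bigC ∅ u m ≤ d ^ 2) (i j : Fin r)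
    (_hij : i ≠ j) : m i + m j ≤ d := by
  have h200 : 200 * u ≤ d := by
    have h1 : (200 * u) ^ 2 ≤ d ^ 2 := by
      calc (200 * u) ^ 2 = 40000 * u ^ 2 * 1 := by ring
        _ ≤ 40000 * u ^ 2 * (M + 1) := Nat.mul_le_mul_left _ (by omega)
        _ ≤ d ^ 2 := hd
    exact (Nat.pow_le_pow_iff_left (by norm_num)).mp h1
  have key : ∀ l, 3 * m l ≤ d := by
    intro l
    rcases Nat.lt_or_ge u (m l) with hl | hl
    · have h1 : (m l + 1).choose 2 ≤ bigC ∅ u m := by
        unfold bigC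
        exact Finset.single_le_sum (f := fun l => (m l + 1).choose 2) (fun l _ => Nat.zero_le _)
          (Finset.mem_filter.mpr ⟨Finset.mem_univ l, Or.inr hl⟩)
      have h2 : 2 * (m l + 1).choose 2 = m l * (m l + 1) := tr_two_choose _
      have e1 : m l * (m l + 1) = m l ^ 2 + m l := by ring
      have h3 : (3 * m l) ^ 2 ≤ d ^ 2 := by
        have e2 : (3 * m l) ^ 2 = 9 * m l ^ 2 := by ring
        omega
      exact (Nat.pow_le_pow_iff_left (by norm_num)).mp h3
    · omega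
  have := key i
  have := key j
  omega

end Pool.Agent.Work.MP_0421d9_ag
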