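import Pool.Agent.Work.MP_0421d9_ag.Upper4

/-!
The lower bound for the dimension of a linear system, and a family of special systems attaining
the upper bound.
-/

set_option linter.unusedSectionVars false

namespace Pool.Agent.Work.MP_0421d9_ag

open MvPolynomial Module

section lower

variable {ι : Type} [Fintype ι] [DecidableEq ι]

theorem finrank_HH (m : ι → ℕ) : finrank ℂ (HH m) = ∑ i, (m i + 1).choose 2 := by
  have h2 : finrank ℂ (HH m) = ∑ i, finrank ℂ (Hm (m i)) := by
    let e : (HH m) ≃ₗ[ℂ] (∀ i, Hm (m i)) :=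
      { toFun := fun G i => ⟨G.1 i, mem_HH.mp G.2 i⟩
        invFun := fun G => ⟨fun i => (G i).1, mem_HH.mpr fun i => (G i).2⟩
        left_inv := fun _ => rfl
        right_inv := fun _ => rfl
        map_add' := fun _ _ => rfl
        map_smul' := fun _ _ => rfl }
    rw [e.finrank_eq, Module.finrank_pi_fintype]
  rw [h2]
  exact Finset.sum_congr rfl (fun i _ => finrank_Hm _)

/-- the dimension is at least the virtual dimension -/
theorem chi_le {d : ℕ} {p : ι → V3} {m : ι → ℕ} (hm : ∀ i, m i ≤ d + 1) :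
    (d + 2).choose 2 ≤ finrank ℂ (linSys d p m) + ∑ i, (m i + 1).choose 2 := by
  rw [← finrank_linSys_add (p := p) hm, ← finrank_HH]
  have h1 : finrank ℂ (J d p m) ≤ finrank ℂ (HH m) := by
    let e : (HH m) ≃ₗ[ℂ] (∀ i, Hm (m i)) :=
      { toFun := fun G i => ⟨G.1 i, mem_HH.mp G.2 i⟩
        invFun := fun G => ⟨fun i => (G i).1, mem_HH.mpr fun i => (G i).2⟩
        left_inv := fun _ => rfl
        right_inv := fun _ => rfl
        map_add' := fun _ _ => rfl
        map_smul' := fun _ _ => rfl }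
    have hf : Module.Finite ℂ (HH m) := Module.Finite.equiv e.symm
    exact Submodule.finrank_map_le _ _
  omega

theorem vanishTo_lin_mul {v : V3} {g : R3} {a : V3} {μ : ℕ} (ha : eval a (lin v) = 0)
    (h : VanishTo g a μ) : VanishTo (lin v * g) a (μ + 1) := by
  intro k hk
  rw [translate_mul, translate_lin, ha, C_0, zero_add]
  cases k with
  | zero => exact homogeneousComponent_mul_lt (lin_isHomogeneous v) one_pos _
  | succ k =>
    rw [add_comm k 1, homogeneousComponent_mul (lin_isHomogeneous v), h k (by omega), mul_zero]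

theorem choose_two_eq (α β : ℕ) :
    (α + β + 2).choose 2 = (α + 1) * (β + 1) + ((α + 1).choose 2 + (β + 1).choose 2) := by
  induction α with
  | zero =>
    have : (0 + β + 2).choose 2 = (β + 1).choose 2 + (β + 1) := by
      rw [zero_add]
      exact choose_two_succ β
    rw [this]
    simp only [zero_add, one_mul]
    have : (1 : ℕ).choose 2 = 0 := rfl
    omega
  | succ α ih =>
    have h1 : (α + 1 + β + 2).choose 2 = (α + β + 2).choose 2 + (α + β + 2) := by
      rw [(by ring : α + 1 + β + 2 = (α + β + 1) + 2)]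
      exact choose_two_succ (α + β + 1)
    have h2 : (α + 1 + 1).choose 2 = (α + 1).choose 2 + (α + 1) := choose_two_succ α
    rw [h1, h2, ih]
    ring

theorem two_lower {p : Fin 2 → V3} (h : cr (p 0) (p 1) ≠ 0) (α β : ℕ) :
    (α + 1) * (β + 1) ≤ finrank ℂ (linSys (α + β + 2) p ![α + 2, β + 2]) := by
  have h1 : (α + 1) * (β + 1) ≤ finrank ℂ (linSys (α + β) p ![α, β]) := by
    have h2 := chi_le (d := α + β) (p := p) (m := ![α, β]) (by
      intro i
      fin_cases i
      · change α ≤ α + β + 1; omega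
      · change β ≤ α + β + 1; omega)
    rw [Fin.sum_univ_two] at h2
    simp only [Matrix.cons_val_zero, Matrix.cons_val_one] at h2
    rw [choose_two_eq] at h2
    omega
  refine h1.trans ?_
  set A : R3 := lin (cr (p 0) (p 1)) * lin (cr (p 0) (p 1)) with hA
  have hA0 : A ≠ 0 := mul_ne_zero (lin_ne_zero h) (lin_ne_zero h)
  rw [← finrank_map_mulLeft hA0]
  apply Submodule.finrank_mono
  rintro _ ⟨g, hg, rfl⟩
  change A * g ∈ _
  refine ⟨?_, ?_⟩
  · have h3 := ((lin_isHomogeneous (cr (p 0) (p 1))).mul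
      (lin_isHomogeneous (cr (p 0) (p 1)))).mul hg.1
    rwa [(by ring : 1 + 1 + (α + β) = α + β + 2)] at h3
  · have e0 : eval (p 0) (lin (cr (p 0) (p 1))) = 0 := eval_xl_left _ _
    have e1 : eval (p 1) (lin (cr (p 0) (p 1))) = 0 := eval_xl_right _ _
    intro i
    fin_cases i
    · change VanishTo (A * g) (p 0) (α + 2)
      rw [hA, mul_assoc]
      exact vanishTo_lin_mul e0 (vanishTo_lin_mul e0 (hg.2 0))
    · change VanishTo (A * g) (p 1) (β + 2)
      rw [hA, mul_assoc]
      exact vanishTo_lin_mul e1 (vanishTo_lin_mul e1 (hg.2 1))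

theorem two_special {p : Fin 2 → V3} (h : cr (p 0) (p 1) ≠ 0) (α β : ℕ) :
    (α + β + 2 + 2).choose 2 < finrank ℂ (linSys (α + β + 2) p ![α + 2, β + 2]) +
      ∑ i, ((![α + 2, β + 2] : Fin 2 → ℕ) i + 1).choose 2 := by
  rw [Fin.sum_univ_two]
  simp only [Matrix.cons_val_zero, Matrix.cons_val_one]
  have h1 := two_lower h α β
  have h2 := choose_two_eq (α + 1) (β + 1)
  have h3 : (α + 1 + (β + 1) + 2).choose 2 = (α + β + 2 + 2).choose 2 := by
    congr 1
    ring
  have h4 : (α + 2 + 1).choose 2 = (α + 1 + 1).choose 2 + (α + 1 + 1) := choose_two_succ (α + 1)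
  have h5 : (β + 2 + 1).choose 2 = (β + 1 + 1).choose 2 + (β + 1 + 1) := choose_two_succ (β + 1)
  have h6 : (α + 1 + 1) * (β + 1 + 1) = (α + 1) * (β + 1) + (α + 1) + (β + 1) + 1 := by ring
  rw [h3] at h2
  omega

end lower

/-- **Special systems are small.** -/
theorem special_le {ι : Type} [Fintype ι] [DecidableEq ι] {d : ℕ} {p : ι → V3}
    (hp : GenericPoints p) {m : ι → ℕ} (hpos : linSys d p m ≠ ⊥)
    (h : finrank ℂ (linSys d p m) + ∑ i, (m i + 1).choose 2 ≠ (d + 2).choose 2) :
    ∃ i j, i ≠ j ∧ finrank ℂ (linSys d p m) ≤ (m i - 1) * (m j - 1) := by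
  obtain ⟨E, hE⟩ := exists_dual p hp
  have hfin : Module.Finite ℂ (linSys d p m) :=
    Submodule.finiteDimensional_of_le (linSys_le d p m)
  have hpos' : 0 < finrank ℂ (linSys d p m) := by
    rw [Nat.pos_iff_ne_zero]
    intro h0
    exact hpos (Submodule.finrank_eq_zero.mp h0)
  have hm : ∀ i, m i ≤ d + 1 := fun i =>
    (le_of_finrank_pos (by omega : finrank ℂ (linSys d p m) ≠ 0) i).trans (Nat.le_succ d)
  have h1 := chi_le (d := d) (p := p) hm
  exact special_bound hE hpos' (by omega)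

theorem special_attained {p : Fin 2 → V3} (hp : GenericPoints p) (α β : ℕ) :
    finrank ℂ (linSys (α + β + 2) p ![α + 2, β + 2]) = (α + 1) * (β + 1) ∧
    (α + β + 2 + 2).choose 2 < finrank ℂ (linSys (α + β + 2) p ![α + 2, β + 2]) +
      ∑ i, ((![α + 2, β + 2] : Fin 2 → ℕ) i + 1).choose 2 := by
  obtain ⟨E, hE⟩ := exists_dual p hp
  have hcr : cr (p 0) (p 1) ≠ 0 := gp2 hE (by decide)
  have h1 := two_lower hcr α β
  have h2 := two_special hcr α β
  refine ⟨le_antisymm ?_ h1, h2⟩
  have hpos : 0 < finrank ℂ (linSys (α + β + 2) p ![α + 2, β + 2]) :=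
    lt_of_lt_of_le (Nat.mul_pos (Nat.succ_pos α) (Nat.succ_pos β)) h1
  obtain ⟨i, j, hij, h3⟩ := special_bound hE hpos h2
  refine h3.trans (le_of_eq ?_)
  fin_cases i <;> fin_cases j
  · exact absurd rfl hij
  · rfl
  · change (β + 2 - 1) * (α + 2 - 1) = (α + 1) * (β + 1)
    rw [mul_comm]
    rfl
  · exact absurd rfl hij

end Pool.Agent.Work.MP_0421d9_ag
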