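import Pool.Agent.Work.MP_0421d9_ag.RAlong
import Pool.Agent.Work.MP_0421d9_ag.Final
import Pool.Agent.Work.MP_0421d9_ag.Upper5

/-!
Nonspeciality and smoothness of the general member, in a numerical range.
-/

set_option linter.unusedSectionVars false

namespace Pool.Agent.Work.MP_0421d9_ag

open MvPolynomial Module

section full

variable {ι : Type} [Fintype ι] [DecidableEq ι] {d : ℕ} {p : ι → V3}
  {E : ι → Fin 3 → Derivation ℚ ℂ ℂ}

/-- at most `m i + 1` conditions are imposed by raising the multiplicity at `i` by one -/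
theorem cc_le (hE : IsDual p E) {y : ι → ℕ} (hy : ∀ i, y i ≤ d) (i : ι) :
    cc d p y i ≤ y i + 1 := by
  have hp : p i ≠ 0 := gp1 hE i
  have h1 := Submodule.finrank_mono (K0_le (p := p) hy i)
  rw [finrank_map_mulLeft (lin_ne_zero hp), finrank_Hm] at h1
  have h3 := cc_UU hy i hp
  have h4 := choose_two_succ (y i)
  omega

/-- numerical criterion for completeness -/
theorem full_of_numeric (hE : IsDual p E) {y : ι → ℕ} (hy : ∀ i, y i ≤ d) (i : ι) {M : ℕ}
    (hM : ∀ j, y j ≤ M)
    (hnum : ∑ l, (y l + 1).choose 2 + M * y i < (d + 2).choose 2) : Rigid.Full d p y i := by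
  have h1 := chi_le (d := d) (p := p) (fun i => (hy i).trans (Nat.le_succ d))
  have h2 : y i < cc d p y i := by
    by_contra hcon
    have h3 := (finrank_le_of_incomplete hE (not_lt.mp hcon) (M := M) (fun j _ => hM j)).1
    rw [mul_comm] at h3
    omega
  have h3 := cc_le hE hy i
  apply full_of_finrank hy (gp1 hE i)
  have h4 := cc_add (d := d) (p := p) y i
  change finrank ℂ (linSys d p y) = finrank ℂ (linSys d p (up y i)) + (y i + 1)
  omega

end full

section final

variable {r n d : ℕ} {p : Fin r → V3} {s : Fin n → V3} {t : Fin 4 → V3} {m : Fin r → ℕ}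

/-- choice of the three special indices, among the given ones and the dummies -/
theorem exists_three' (m : Fin r → ℕ) (I : Finset (Fin r)) (hI : I.card ≤ 3) :
    ∃ a b c : IT m, a ≠ b ∧ a ≠ c ∧ b ≠ c ∧ (∃ e, e ≠ a ∧ e ≠ b ∧ e ≠ c) ∧
      (∀ i : {i : Fin r // m i ≠ 1}, i.1 ∈ I → (Sum.inl i : IT m) = a ∨ (Sum.inl i : IT m) = b ∨
        (Sum.inl i : IT m) = c) ∧
      (∀ i : {i : Fin r // m i ≠ 1}, ((Sum.inl i : IT m) = a ∨ (Sum.inl i : IT m) = b ∨
        (Sum.inl i : IT m) = c) → i.1 ∈ I) := by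
  classical
  set I' : Finset (IT m) := (I.subtype (fun i => m i ≠ 1)).map ⟨Sum.inl, Sum.inl_injective⟩
    with hI'
  set D : Finset (IT m) := (Finset.univ : Finset (Fin 4)).map ⟨Sum.inr, Sum.inr_injective⟩
    with hD
  have h1 : I'.card ≤ 3 := by
    rw [hI', Finset.card_map, Finset.card_subtype]
    exact (Finset.card_filter_le _ _).trans hI
  have h4 : 4 ≤ (I' ∪ D).card := by
    have h5 : D.card = 4 := by rw [hD, Finset.card_map, Finset.card_univ, Fintype.card_fin]
    calc 4 = D.card := h5.symm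
      _ ≤ (I' ∪ D).card := Finset.card_le_card Finset.subset_union_right
  obtain ⟨T, hT, hT', hTc⟩ := Finset.exists_subsuperset_card_eq
    (Finset.subset_union_left (s₁ := I') (s₂ := D)) h1 (by omega : 3 ≤ (I' ∪ D).card)
  obtain ⟨a, b, c, hab, hac, hbc, hTabc⟩ := Finset.card_eq_three.mp hTc
  refine ⟨a, b, c, hab, hac, hbc, ?_, ?_, ?_⟩
  · obtain ⟨e, -, he⟩ := Finset.exists_mem_notMem_of_card_lt_card
      (s := T) (t := I' ∪ D) (by omega)
    rw [hTabc] at he
    simp only [Finset.mem_insert, Finset.mem_singleton, not_or] at he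
    exact ⟨e, he.1, he.2.1, he.2.2⟩
  · intro i hi
    have h5 : (Sum.inl i : IT m) ∈ I' := by
      rw [hI', Finset.mem_map]
      exact ⟨i, Finset.mem_subtype.mpr hi, rfl⟩
    have h6 := hT h5
    rw [hTabc] at h6
    simpa only [Finset.mem_insert, Finset.mem_singleton] using h6
  · intro i hi
    have h5 : (Sum.inl i : IT m) ∈ T := by
      rw [hTabc]
      simpa only [Finset.mem_insert, Finset.mem_singleton] using hi
    have h6 := hT' h5
    rw [Finset.mem_union] at h6
    rcases h6 with h6 | h6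
    · rw [hI', Finset.mem_map] at h6
      obtain ⟨j, hj, hji⟩ := h6
      have h7 : j = i := Sum.inl_injective hji
      rw [← h7]
      exact Finset.mem_subtype.mp hj
    · rw [hD, Finset.mem_map] at h6
      obtain ⟨j, -, hji⟩ := h6
      exact absurd hji (by simp)

theorem smooth_of' {E : IT m ⊕ KT m n → Fin 3 → Derivation ℚ ℂ ℂ}
    {F : R3} (S : Rigid d (PP p s t m) E (mm m) F) (hFp : F ∈ linSys d p m) (hsq : Squarefree F)
    {a b c : IT m} (hab : a ≠ b) (hac : a ≠ c) (hbc : b ≠ c) (hex : ∃ e, e ≠ a ∧ e ≠ b ∧ e ≠ c)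
    {ρ : IT m → ℕ} (hfull : Rigid.HF d (fun i => PP p s t m (Sum.inl i)) (mm m) ρ a b c) :
    SmoothOnBlowup p m F := by
  refine ⟨?_, ?_⟩
  · intro q hq hqp hq0
    by_contra hcon
    push Not at hcon
    apply S.no_singularity' hsq hab hac hbc hex hfull (q := q) _ hq0 hcon
    rintro (⟨i, hi⟩ | x)
    · exact cr_ne_zero_of (gp1 S.hE _) (hqp i)
    · intro h0
      obtain ⟨c, hc⟩ := exists_smul_of_cr_eq_zero (gp1 S.hE _) h0
      have hc0 : c ≠ 0 := by
        rintro rfl
        exact hq (by rw [hc, zero_smul])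
      apply S.R0 (Sum.inr x) rfl
      have h1 := B_lin_pow S.hom q
      rw [hq0, mul_zero, hc, lin_smul, mul_pow, ← map_pow, B_C_mul_left] at h1
      exact (mul_eq_zero.mp h1).resolve_left (pow_ne_zero _ hc0)
  · intro i u w hlin
    have hpu : LinearIndependent ℂ ![p i, u] := by
      have h1 := hlin.comp ![0, 1] (by decide)
      convert h1 using 1
      ext j
      fin_cases j <;> rfl
    have hpi : p i ≠ 0 := hlin.ne_zero 0
    have hu : cr (p i) u ≠ 0 := by
      intro h0
      obtain ⟨c, hc⟩ := exists_smul_of_cr_eq_zero hpi h0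
      have h1 := (LinearIndependent.pair_iff.mp hpu) c (-1) (by rw [hc]; simp)
      simp at h1
    have hdet : eval w (xl (p i) u) ≠ 0 := by
      intro h0
      obtain ⟨x, y, hxy⟩ := exists_comb hu h0
      have h1 := Fintype.linearIndependent_iff.mp hlin ![x, y, -1] (by
        rw [Fin.sum_univ_three]
        simp only [Matrix.cons_val]
        rw [hxy]
        module)
      have h2 := h1 2
      simp at h2
    have hmi : m i ≤ d := by
      have := S.hF0
      exact le_of_vanishTo S.hom S.hF0 (hFp.2 i)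
    apply chart S.hom hmi (hFp.2 i) hdet
    intro hbad
    by_cases hi : m i = 1
    · -- simple point
      apply not_vanishTo_succ S.hE S.hM S.hF S.hF0 S.huniq (Sum.inr (Sum.inl ⟨i, hi⟩))
      change VanishTo F (p i) (1 + 1)
      rw [vanishTo_iff S.hom _ (by omega)]
      intro G hG
      rw [mem_Hm_succ] at hG
      obtain ⟨v, rfl⟩ := eq_lin_of_isHomogeneous hG
      have h1 := hbad.2 (by omega) v
      rw [hi, Nat.sub_self, pow_zero, one_mul] at h1
      rwa [(by omega : d + 1 - (1 + 1) = d - 1)]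
    · exact S.no_bad' hsq hab hac hbc hex hfull (i := Sum.inl ⟨i, hi⟩) hu hbad

/-- rank of the indices: dummies first -/
def rk (m : Fin r → ℕ) : IT m → ℕ := Sum.elim (fun i => (i.1 : ℕ)) (fun _ => 0)

theorem HF_of_numeric {E : IT m ⊕ KT m n → Fin 3 → Derivation ℚ ℂ ℂ}
    (hE : IsDual (PP p s t m) E) (hm : ∀ i, m i ≤ d) (hanti : Antitone m)
    (hnum : ∀ i k : Fin r, 3 ≤ (k : ℕ) → 3 ≤ m k →
      ∑ j ∈ Finset.univ.filter (fun j : Fin r => (j : ℕ) ≤ k + 1), (m j + 1).choose 2 + m i * m k < (d + 2).choose 2)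
    {a b c : IT m}
    (habc : ∀ i : {i : Fin r // m i ≠ 1}, (i.1 : ℕ) < 3 → (Sum.inl i : IT m) = a ∨
      (Sum.inl i : IT m) = b ∨ (Sum.inl i : IT m) = c)
    (habc' : ∀ i : {i : Fin r // m i ≠ 1}, ((Sum.inl i : IT m) = a ∨
      (Sum.inl i : IT m) = b ∨ (Sum.inl i : IT m) = c) → (i.1 : ℕ) < 3) :
    Rigid.HF d (fun i => PP p s t m (Sum.inl i)) (mm m) (rk m) a b c := by
  classical
  rintro (⟨k, hk⟩ | x) hja hjb hjc h3 e
  swap
  · change 3 ≤ 0 at h3
    omega
  have h3' : 3 ≤ m k := h3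
  have hk3 : 3 ≤ (k : ℕ) := by
    by_contra hcon
    rcases habc ⟨k, hk⟩ (show (k : ℕ) < 3 by omega) with h | h | h
    · exact hja h
    · exact hjb h
    · exact hjc h
  have hE' : IsDual (fun i => PP p s t m (Sum.inl i)) (fun i => E (Sum.inl i)) := by
    intro x k y l
    rw [hE (Sum.inl x) k (Sum.inl y) l]
    simp only [Sum.inl.injEq]
  set W := KW (rk m) a b c (rk m (Sum.inl ⟨k, hk⟩)) e with hW
  have hWk : W (Sum.inl ⟨k, hk⟩) := Or.inl le_rfl
  have hyk : rs W (mm m) (Sum.inl ⟨k, hk⟩) = m k := rs_of hWk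
  have hr : 0 < r := by have := k.2; omega
  have hle0 : ∀ i : Fin r, m i ≤ m ⟨0, hr⟩ := fun i => hanti (Fin.mk_le_of_le_val (Nat.zero_le _))
  have hmm : ∀ x, mm m x ≤ m ⟨0, hr⟩ := by
    rintro (⟨i, hi⟩ | x)
    · exact hle0 i
    · exact Nat.zero_le _
  have hmd : ∀ x, mm m x ≤ d := by
    rintro (⟨i, hi⟩ | x)
    · exact hm i
    · exact Nat.zero_le _
  apply full_of_numeric hE' (fun x => (rs_le W (mm m) x).trans (hmd x)) _ (M := m ⟨0, hr⟩)
    (fun x => (rs_le W (mm m) x).trans (hmm x))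
  rw [hyk]
  refine lt_of_le_of_lt ?_ (hnum ⟨0, hr⟩ k hk3 h3')
  apply Nat.add_le_add_right
  -- the sum over the kept indices
  rw [Fintype.sum_sum_type]
  have hzero : ∑ x : Fin 4, (rs W (mm m) (Sum.inr x) + 1).choose 2 = 0 := by
    refine Finset.sum_eq_zero (fun x _ => ?_)
    have : rs W (mm m) (Sum.inr x) = 0 := Nat.le_zero.mp (rs_le W (mm m) (Sum.inr x))
    rw [this]
    rfl
  rw [hzero, add_zero]
  -- kept indices of large rank
  have hkept : ∀ i : {i : Fin r // m i ≠ 1}, (k : ℕ) < i.1 → W (Sum.inl i) → e = Sum.inl i := by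
    intro i hi hWi
    rcases hWi with h | h | h | h | h
    · have h' : (i.1 : ℕ) ≤ k := h
      omega
    · have := habc' i (Or.inl h); omega
    · have := habc' i (Or.inr (Or.inl h)); omega
    · have := habc' i (Or.inr (Or.inr h)); omega
    · exact h.symm
  have hf : ∀ i : {i : Fin r // m i ≠ 1}, (rs W (mm m) (Sum.inl i) + 1).choose 2 ≤
      (m i.1 + 1).choose 2 := fun i => Nat.choose_le_choose 2 (Nat.succ_le_succ (rs_le W _ _))
  by_cases he : ∃ l : {i : Fin r // m i ≠ 1}, e = Sum.inl l ∧ (k : ℕ) < l.1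
  · obtain ⟨l, hel, hkl⟩ := he
    have hk1 : (k : ℕ) + 1 < r := by have := l.1.2; omega
    set k' : Fin r := ⟨k + 1, hk1⟩ with hk'
    have hml : m l.1 ≤ m k' := hanti (by
      rw [Fin.le_def]
      exact hkl)
    have h1 : ∑ i : {i : Fin r // m i ≠ 1}, (rs W (mm m) (Sum.inl i) + 1).choose 2 ≤
        ∑ i : {i : Fin r // m i ≠ 1}, ((if (i.1 : ℕ) ≤ k then (m i.1 + 1).choose 2 else 0) +
          (if i = l then (m l.1 + 1).choose 2 else 0)) := by
      refine Finset.sum_le_sum (fun i _ => ?_)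
      by_cases hik : (i.1 : ℕ) ≤ k
      · rw [if_pos hik]
        exact (hf i).trans (Nat.le_add_right _ _)
      · rw [if_neg hik, zero_add]
        by_cases hWi : W (Sum.inl i)
        · have h2 := hkept i (by omega) hWi
          rw [hel] at h2
          have h3 : i = l := (Sum.inl_injective h2).symm
          rw [if_pos h3, ← h3]
          exact hf i
        · rw [rs_not hWi]
          exact Nat.zero_le _
    refine h1.trans ?_
    rw [Finset.sum_add_distrib, Finset.sum_ite_eq' Finset.univ l, if_pos (Finset.mem_univ _)]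
    have h2 : ∑ i : {i : Fin r // m i ≠ 1},
        (if (i.1 : ℕ) ≤ k then (m i.1 + 1).choose 2 else 0) ≤
        ∑ i : Fin r, (if (i : ℕ) ≤ k then (m i + 1).choose 2 else 0) := by
      have h4 := Fintype.sum_subtype_add_sum_subtype (fun i => m i ≠ 1)
        (fun i : Fin r => (if (i : ℕ) ≤ k then (m i + 1).choose 2 else 0))
      omega
    have h3 : ∑ j ∈ Finset.univ.filter (fun j : Fin r => (j : ℕ) ≤ k + 1), (m j + 1).choose 2 =
        ∑ i : Fin r, (if (i : ℕ) ≤ k then (m i + 1).choose 2 else 0) + (m k' + 1).choose 2 := by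
      rw [Finset.sum_filter]
      have h5 : ∀ i : Fin r, (if (i : ℕ) ≤ k + 1 then (m i + 1).choose 2 else 0) =
          (if (i : ℕ) ≤ k then (m i + 1).choose 2 else 0) +
            (if i = k' then (m k' + 1).choose 2 else 0) := by
        intro i
        by_cases h6 : i = k'
        · subst h6
          have h7 : ((k' : Fin r) : ℕ) = k + 1 := rfl
          rw [if_pos (show (k' : ℕ) ≤ k + 1 by omega), if_neg (show ¬ (k' : ℕ) ≤ k by omega),
            if_pos (rfl : k' = k'), zero_add]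
        · rw [if_neg h6, add_zero]
          have h7 : (i : ℕ) ≠ k + 1 := fun h => h6 (Fin.ext h)
          by_cases h8 : (i : ℕ) ≤ k
          · rw [if_pos h8, if_pos (by omega)]
          · rw [if_neg h8, if_neg (by omega)]
      rw [Finset.sum_congr rfl (fun i _ => h5 i), Finset.sum_add_distrib,
        Finset.sum_ite_eq' Finset.univ k', if_pos (Finset.mem_univ _)]
    rw [h3]
    exact Nat.add_le_add h2 (Nat.choose_le_choose 2 (Nat.succ_le_succ hml))
  · push Not at he
    have h1 : ∑ i : {i : Fin r // m i ≠ 1}, (rs W (mm m) (Sum.inl i) + 1).choose 2 ≤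
        ∑ i : {i : Fin r // m i ≠ 1}, (if (i.1 : ℕ) ≤ k + 1 then (m i.1 + 1).choose 2 else 0) := by
      refine Finset.sum_le_sum (fun i _ => ?_)
      by_cases hik : (i.1 : ℕ) ≤ k
      · rw [if_pos (by omega)]
        exact hf i
      · have hWi : ¬ W (Sum.inl i) := fun h => by
          have h2 := he i (hkept i (by omega) h)
          omega
        rw [rs_not hWi]
        exact Nat.zero_le _
    refine h1.trans ?_
    rw [Finset.sum_filter]
    have h4 := Fintype.sum_subtype_add_sum_subtype (fun i => m i ≠ 1)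
      (fun i : Fin r => (if (i : ℕ) ≤ k + 1 then (m i + 1).choose 2 else 0))
    omega

end final

/-- **Main theorem**, recursive version. -/
theorem main_rec {r d : ℕ} (p : Fin r → Fin 3 → ℂ) (hp : GenericPoints p) (m : Fin r → ℕ)
    {ρ : IT m → ℕ} {a b c : IT m} (hab : a ≠ b) (hac : a ≠ c) (hbc : b ≠ c)
    (hex : ∃ e, e ≠ a ∧ e ≠ b ∧ e ≠ c)
    (hHF : (∀ i, m i ≤ d) → ∀ (n : ℕ) (s : Fin n → V3) (t : Fin 4 → V3)
      (E : IT m ⊕ KT m n → Fin 3 → Derivation ℚ ℂ ℂ), IsDual (PP p s t m) E →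
      Rigid.HF d (fun i => PP p s t m (Sum.inl i)) (mm m) ρ a b c)
    (hred : ∃ F ∈ linSys d p m, Squarefree F) :
    finrank ℂ (linSys d p m) + ∑ i, (m i + 1).choose 2 = (d + 2).choose 2 ∧
    (∀ s : Fin (finrank ℂ (linSys d p m) - 1) → Fin 3 → ℂ, GenericPoints (Sum.elim p s) →
      ∀ F ∈ linSys d p m, F ≠ 0 → (∀ k, eval (s k) F = 0) → SmoothOnBlowup p m F) ∧
    (∃ F ∈ linSys d p m, F ≠ 0 ∧ SmoothOnBlowup p m F) := by
  obtain ⟨f₀, hf₀, hsq₀⟩ := hred
  have hm : ∀ i, m i ≤ d := fun i => le_of_vanishTo hf₀.1 hsq₀.ne_zero (hf₀.2 i)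
  have hpos : 0 < finrank ℂ (linSys d p m) := by
    rw [Module.finrank_pos_iff_exists_ne_zero]
    exact ⟨⟨f₀, hf₀⟩, fun h => hsq₀.ne_zero (congrArg Subtype.val h)⟩
  set n := finrank ℂ (linSys d p m) - 1 with hn
  have hn' : n + 1 = finrank ℂ (linSys d p m) := by omega
  -- the construction for given simple points
  have key : ∀ s : Fin n → V3, GenericPoints (Sum.elim p s) →
      ∃ (t : Fin 4 → V3) (E : IT m ⊕ KT m n → Fin 3 → Derivation ℚ ℂ ℂ),
        IsDual (PP p s t m) E := by
    intro s hs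
    obtain ⟨t, ht⟩ := exists_extension (κ := Fin 4) (Sum.elim p s) hs
    obtain ⟨E, hE⟩ := exists_dual _ (PP_generic p s t m ht)
    exact ⟨t, E, hE⟩
  have hf₀core : f₀ ∈ linSys d p (dropSimple m) := by
    refine ⟨hf₀.1, fun i => ?_⟩
    apply (hf₀.2 i).mono
    unfold dropSimple
    split_ifs <;> omega
  have hsmooth : ∀ s : Fin n → V3, GenericPoints (Sum.elim p s) →
      ∀ F ∈ linSys d p m, F ≠ 0 → (∀ k, eval (s k) F = 0) → SmoothOnBlowup p m F := by
    intro s hs F hF hF0 hFs
    obtain ⟨t, E, hE⟩ := key s hs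
    have S := rigid_of hE hm hn' hF hF0 hFs
    have hsq := S.squarefree (by rw [linSys_core]; exact hf₀core) hsq₀
    exact smooth_of' S hF hsq hab hac hbc hex (hHF hm n s t E hE)
  obtain ⟨s, hs⟩ := exists_extension (κ := Fin n) p hp
  obtain ⟨t, E, hE⟩ := key s hs
  obtain ⟨F, hF, hF0, hFs⟩ := exists_rigid hE hm hn'
  refine ⟨?_, hsmooth, F, hF, hF0, hsmooth s hs F hF hF0 hFs⟩
  have S := rigid_of hE hm hn' hF hF0 hFs
  have hsq := S.squarefree (by rw [linSys_core]; exact hf₀core) hsq₀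
  have hfull := hHF hm n s t E hE
  have h1 := finrank_of_unique S.hm' (fun G hG h0 => S.unique_rel' hsq hab hac hbc hfull hG h0)
  have h2 := (finrank_all hE hm hn').2
  have h3 : ∑ x : IT m, (mm m x + 1).choose 2 =
      ∑ i : {i : Fin r // ¬ m i = 1}, (m i + 1).choose 2 := by
    rw [Fintype.sum_sum_type]
    have : ∑ x : Fin 4, (mm m (Sum.inr x) + 1).choose 2 = 0 :=
      Finset.sum_eq_zero (fun x _ => rfl)
    rw [this, add_zero]
    rfl
  have h4 : ∑ i : {i : Fin r // m i = 1}, (m i + 1).choose 2 =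
      Fintype.card {i : Fin r // m i = 1} := by
    have h6 : ∀ i : {i : Fin r // m i = 1}, (m i.1 + 1).choose 2 = 1 := fun i => by
      rw [i.2]
      rfl
    rw [Finset.sum_congr rfl (fun i _ => h6 i), Finset.sum_const, Finset.card_univ, smul_eq_mul,
      mul_one]
  have h5 := Fintype.sum_subtype_add_sum_subtype (fun i => m i = 1)
    (fun i => (m i + 1).choose 2)
  rw [h3, h2] at h1
  rw [← h5, h4]
  omega

/-- **Numerical theorem.** -/
theorem main_numeric {r d : ℕ} (p : Fin r → Fin 3 → ℂ) (hp : GenericPoints p) (m : Fin r → ℕ)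
    (hanti : Antitone m)
    (hnum : ∀ i k : Fin r, 3 ≤ (k : ℕ) → 3 ≤ m k →
      ∑ j ∈ Finset.univ.filter (fun j : Fin r => (j : ℕ) ≤ k + 1), (m j + 1).choose 2 + m i * m k < (d + 2).choose 2)
    (hred : ∃ F ∈ linSys d p m, Squarefree F) :
    finrank ℂ (linSys d p m) + ∑ i, (m i + 1).choose 2 = (d + 2).choose 2 ∧
    (∀ s : Fin (finrank ℂ (linSys d p m) - 1) → Fin 3 → ℂ, GenericPoints (Sum.elim p s) →
      ∀ F ∈ linSys d p m, F ≠ 0 → (∀ k, eval (s k) F = 0) → SmoothOnBlowup p m F) ∧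
    (∃ F ∈ linSys d p m, F ≠ 0 ∧ SmoothOnBlowup p m F) := by
  obtain ⟨a, b, c, hab, hac, hbc, hex, habc, habc'⟩ := exists_three' m
    (Finset.univ.filter (fun i : Fin r => (i : ℕ) < 3)) (by
      have h1 : (Finset.univ.filter (fun i : Fin r => (i : ℕ) < 3)).card ≤
          (Finset.range 3).card := by
        apply Finset.card_le_card_of_injOn (fun i : Fin r => (i : ℕ))
        · intro i hi
          simpa using hi
        · intro i _ j _ h
          exact Fin.ext h
      simpa using h1)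
  simp only [Finset.mem_filter, Finset.mem_univ, true_and] at habc habc'
  exact main_rec p hp m hab hac hbc hex
    (fun hm n s t E hE => HF_of_numeric hE hm hanti hnum habc habc') hred

end Pool.Agent.Work.MP_0421d9_ag
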