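import Pool.Agent.Work.MP_0421d9_ag.Unif4
import Pool.Agent.Work.MP_0421d9_ag.RFinal

/-!
The superabundance of an arbitrary nonempty system: lowering the multiplicities one at a time, in
such a way that equal multiplicities stay almost equal.
-/

set_option linter.unusedSectionVars false

namespace Pool.Agent.Work.MP_0421d9_ag

open MvPolynomial Module

section gen

variable {ι : Type} [Fintype ι] [DecidableEq ι] {d : ℕ} {p : ι → V3}
  {E : ι → Fin 3 → Derivation ℚ ℂ ℂ}

/-- lowering the multiplicity at `i` by one -/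
def dn (y : ι → ℕ) (i : ι) : ι → ℕ := Function.update y i (y i - 1)

theorem dn_self (y : ι → ℕ) (i : ι) : dn y i i = y i - 1 := Function.update_self _ _ _

theorem dn_ne (y : ι → ℕ) {i j : ι} (h : j ≠ i) : dn y i j = y j := Function.update_of_ne h _ _

theorem dn_le (y : ι → ℕ) (i j : ι) : dn y i j ≤ y j := by
  by_cases h : j = i
  · rw [h, dn_self]; exact Nat.sub_le _ _
  · rw [dn_ne y h]

theorem up_dn {y : ι → ℕ} {i : ι} (h : 1 ≤ y i) : up (dn y i) i = y := (up_down h).symm

theorem dn_comm (y : ι → ℕ) {i j : ι} (h : i ≠ j) : dn (dn y i) j = dn (dn y j) i := by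
  funext l
  by_cases hi : l = i
  · subst hi
    rw [dn_ne _ h, dn_self, dn_self, dn_ne _ h]
  · by_cases hj : l = j
    · subst hj
      rw [dn_self, dn_ne _ hi, dn_ne _ hi, dn_self]
    · rw [dn_ne _ hj, dn_ne _ hi, dn_ne _ hi, dn_ne _ hj]

theorem cc_perm (hp : GenericPoints p) (y : ι → ℕ) (π : Equiv.Perm ι) (i : ι) :
    cc d p (fun l => y (π l)) i = cc d p y (π i) := by
  have h1 : up (fun l => y (π l)) i = fun l => up y (π i) (π l) := by
    funext l
    by_cases hl : l = i
    · rw [hl, up_self, up_self]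
    · rw [up_ne _ hl, up_ne _ (fun h => hl (π.injective h))]
  unfold cc
  rw [h1, finrank_linSys_perm d hp y π, finrank_linSys_perm d hp (up y (π i)) π]

theorem cc_swap (hp : GenericPoints p) {y y' : ι → ℕ} {i j : ι} (hi : y i = y' j)
    (hj : y j = y' i) (hl : ∀ l, l ≠ i → l ≠ j → y l = y' l) (k : ι) :
    cc d p y k = cc d p y' (Equiv.swap i j k) := by
  rw [← cc_perm hp]
  congr 1
  funext l
  by_cases h1 : l = i
  · rw [h1, Equiv.swap_apply_left]; exact hi
  · by_cases h2 : l = j
    · rw [h2, Equiv.swap_apply_right]; exact hj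
    · rw [Equiv.swap_apply_of_ne_of_ne h1 h2]; exact hl l h1 h2

/-- moving `j` sends the dual leading forms at `i` to those of the system with the multiplicity
raised at `j` -/
theorem cD_mem_UU_up (hE : IsDual p E) {y : ι → ℕ} (hy : ∀ l, y l ≤ d) {i j : ι} (hji : j ≠ i)
    (w : V3) {U : R3} (hU : U ∈ UU d p y i) : cD (mv E j w) U ∈ UU d p (up y j) i := by
  have e2 : up y j i = y i := up_ne y hji.symm
  rw [mem_UU] at hU
  rw [mem_UU, e2]
  refine ⟨cD_isHomogeneous _ hU.1, ?_⟩
  have h2 := cD_mem_J_up hE hy j w hU.2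
  rwa [cD_mul, cD_lin_pow_ne hE hji.symm, zero_mul, zero_add] at h2

/-- a point of multiplicity zero is not active -/
theorem cD_mem_UU_of_zero (hE : IsDual p E) {y : ι → ℕ} {i j : ι} (hji : j ≠ i)
    (hj : y j = 0) (w : V3) {U : R3} (hU : U ∈ UU d p y i) : cD (mv E j w) U ∈ UU d p y i := by
  rw [mem_UU] at hU ⊢
  refine ⟨cD_isHomogeneous _ hU.1, ?_⟩
  obtain ⟨G, hG, hGU⟩ := mem_J.mp hU.2
  have h2 := congrArg (cD (mv E j w)) hGU
  rw [cD_mul (mv E j w) (lin (p i) ^ (d - y i)), cD_lin_pow_ne hE hji.symm, zero_mul,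
    zero_add, map_sum] at h2
  rw [← h2]
  apply Submodule.sum_mem
  intro l _
  by_cases hl : l = j
  · subst hl
    have h3 := hG l
    rw [hj, mem_Hm_zero] at h3
    rw [h3, mul_zero, map_zero]
    exact zero_mem _
  · rw [cD_mul, cD_lin_pow_ne hE hl, zero_mul, zero_add]
    exact summand_mem_J l (cD_mem_Hm _ (hG l))

/-- the points of maximal current multiplicity among those of the same final multiplicity -/
def Top (m y : ι → ℕ) (i : ι) : Prop := ∀ l, m l = m i → y l ≤ y i

/-- equal final multiplicities are almost equal -/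
def Bal (m y : ι → ℕ) : Prop := ∀ l l', m l = m l' → y l ≤ y l' + 1

theorem exists_top (m y : ι → ℕ) (l : ι) : ∃ i, m i = m l ∧ Top m y i := by
  obtain ⟨i, hi, hmax⟩ := Finset.exists_max_image (Finset.univ.filter (fun x => m x = m l)) y
    ⟨l, Finset.mem_filter.mpr ⟨Finset.mem_univ _, rfl⟩⟩
  rw [Finset.mem_filter] at hi
  refine ⟨i, hi.2, fun x hx => hmax x ?_⟩
  rw [Finset.mem_filter]
  exact ⟨Finset.mem_univ _, hx.trans hi.2⟩

theorem bal_dn {m y : ι → ℕ} (hb : Bal m y) {j : ι} (hj : Top m y j) : Bal m (dn y j) := by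
  intro l l' hll
  by_cases h1 : l' = j
  · subst h1
    rw [dn_self]
    by_cases h2 : l = l'
    · subst h2
      rw [dn_self]; omega
    · rw [dn_ne _ h2]
      have := hj l hll
      omega
  · rw [dn_ne _ h1]
    exact (dn_le y j l).trans (hb l l' hll)

/-- the current superabundance of the last condition at `i` -/
noncomputable def kk (d : ℕ) (p : ι → V3) (y : ι → ℕ) (i : ι) : ℕ := y i - cc d p (dn y i) i

theorem kk_up (hE : IsDual p E) {y : ι → ℕ} {i : ι} (hy : 1 ≤ y i) (hd : ∀ l, y l ≤ d) :
    kk d p y i + cc d p (dn y i) i = y i := by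
  have h1 := cc_le hE (y := dn y i) (fun l => (dn_le y i l).trans (hd l)) i
  rw [dn_self] at h1
  unfold kk
  omega

theorem gg_dn (hE : IsDual p E) {y : ι → ℕ} {i : ι} (hy : 1 ≤ y i) (hd : ∀ l, y l ≤ d) :
    gg d p y = gg d p (dn y i) + kk d p y i := by
  have h1 := gg_up (d := d) (p := p) (dn y i) i
  rw [up_dn hy, dn_self] at h1
  have h2 := kk_up hE hy hd
  omega

/-- lowering the same multiplicity twice -/
theorem kk_dn_self (hE : IsDual p E) {y : ι → ℕ} {i : ι} (hy : 1 ≤ y i) (hd : ∀ l, y l ≤ d) :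
    kk d p (dn y i) i ≤ kk d p y i - 1 := by
  have hd1 : ∀ l, dn y i l ≤ d := fun l => (dn_le y i l).trans (hd l)
  rcases Nat.eq_zero_or_pos (dn y i i) with h0 | h0
  · have : kk d p (dn y i) i = 0 := by
      unfold kk
      omega
    omega
  have h1 := kk_up hE hy hd
  have h2 := kk_up hE h0 hd1
  by_cases hc : cc d p (dn (dn y i) i) i ≤ dn (dn y i) i i
  · have h3 := cc_up_self hE (m := dn (dn y i) i) (fun l => (dn_le _ i l).trans (hd1 l)) i hc
    rw [up_dn h0] at h3
    rw [dn_self] at h0 h2
    omega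
  · rw [dn_self] at hc
    omega

/-- new top points after a top point has been lowered -/
theorem kk_new (hp : GenericPoints p) (hE : IsDual p E) {m y : ι → ℕ} (hb : Bal m y)
    (hd : ∀ l, y l ≤ d) {j : ι} (hj : Top m y j) (hyj : 1 ≤ y j) {l : ι}
    (hl : Top m (dn y j) l) (hyl : 1 ≤ dn y j l) :
    (l ≠ j ∧ Top m y l ∧ dn y j l = y l ∧ kk d p (dn y j) l ≤ kk d p y l) ∨
    (m l = m j ∧ kk d p (dn y j) l ≤ kk d p y j - 1 ∧ (l = j ∨ ¬ Top m y l)) := by
  by_cases h : l ≠ j ∧ Top m y l
  · left
    refine ⟨h.1, h.2, dn_ne _ h.1, ?_⟩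
    have h1 : cc d p (dn y l) l ≤ cc d p (dn (dn y j) l) l := by
      apply cc_mono_le
      · intro x
        by_cases hx : x = l
        · rw [hx, dn_self, dn_self, dn_ne _ h.1]
        · rw [dn_ne _ hx, dn_ne _ hx]
          exact dn_le y j x
      · rw [dn_self, dn_self, dn_ne _ h.1]
    unfold kk
    rw [dn_ne _ h.1]
    omega
  · right
    have hkey : m l = m j ∧ dn y j l = dn y j j ∧ (l = j ∨ ¬ Top m y l) := by
      by_cases hlj : l = j
      · subst hlj
        exact ⟨rfl, rfl, Or.inl rfl⟩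
      · have hnt : ¬ Top m y l := fun h' => h ⟨hlj, h'⟩
        have hnt' := hnt
        unfold Top at hnt
        push Not at hnt
        obtain ⟨x, hx, hyx⟩ := hnt
        have hxj : x = j := by
          by_contra hxj
          have h1 := hl x hx
          rw [dn_ne _ hxj, dn_ne _ hlj] at h1
          omega
        subst hxj
        refine ⟨hx.symm, ?_, Or.inr hnt'⟩
        rw [dn_ne _ hlj, dn_self]
        have h2 := hb x l hx
        omega
    obtain ⟨h1, h2, h3⟩ := hkey
    refine ⟨h1, ?_, h3⟩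
    have h4 : kk d p (dn y j) l = kk d p (dn y j) j := by
      unfold kk
      rw [h2]
      congr 1
      have h5 := cc_swap (d := d) hp (y := dn (dn y j) l) (y' := dn (dn y j) j) (i := l) (j := j) (by
          rw [dn_self, dn_self, h2]) (by
          by_cases hlj : l = j
          · rw [hlj]
          · rw [dn_ne _ (fun h => hlj h.symm), dn_ne _ hlj, h2]) (by
          intro x hx hx'
          rw [dn_ne _ hx, dn_ne (dn y j) hx']) l
      rw [h5, Equiv.swap_apply_left]
    rw [h4]
    exact kk_dn_self hE hyj hd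

/-- equal superabundances at points of the same kind -/
theorem kk_eq (hp : GenericPoints p) {y : ι → ℕ} {i l : ι} (h : y l = y i) :
    kk d p y l = kk d p y i := by
  unfold kk
  rw [h]
  congr 1
  have h5 := cc_swap (d := d) hp (y := dn y l) (y' := dn y i) (i := l) (j := i) (by
      rw [dn_self, dn_self, h]) (by
      by_cases hlj : l = i
      · rw [hlj]
      · rw [dn_ne _ (fun h => hlj h.symm), dn_ne _ hlj, h]) (by
      intro x hx hx'
      rw [dn_ne _ hx, dn_ne _ hx']) l
  rw [h5, Equiv.swap_apply_left]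

/-- **Key step.** -/
theorem exists_step (hp : GenericPoints p) (hE : IsDual p E) {m y : ι → ℕ} (hb : Bal m y)
    (hne : finrank ℂ (linSys d p y) ≠ 0) {i : ι} (hi : Top m y i) (hyi : 1 ≤ y i)
    (hpos : 1 ≤ kk d p y i) (hmax : ∀ l, Top m y l → 1 ≤ y l → kk d p y l ≤ kk d p y i) :
    ∃ j, Top m y j ∧ 1 ≤ y j ∧ ∀ l, m l = m i → Top m (dn y j) l → 1 ≤ dn y j l →
      kk d p (dn y j) l ≤ kk d p y i - 1 := by
  have hd := le_of_finrank_pos hne
  by_cases huniq : ∀ l, m l = m i → y l = y i → l = i
  · -- `i` is the only top point of its class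
    refine ⟨i, hi, hyi, fun l hl hlt hyl => ?_⟩
    rcases kk_new hp hE hb hd hi hyi hlt hyl with ⟨h1, h2, -, -⟩ | ⟨-, h2, -⟩
    · exfalso
      apply h1
      apply huniq l hl
      exact le_antisymm (hi l hl) (h2 i hl.symm)
    · exact h2
  push Not at huniq
  obtain ⟨l₀, hl₀, hyl₀, hl₀i⟩ := huniq
  have hl₀t : Top m y l₀ := fun l hl => by
    rw [hyl₀]
    exact hi l (hl.trans hl₀)
  set z := dn y i with hz
  have hzd : ∀ l, z l ≤ d := fun l => (dn_le y i l).trans (hd l)
  have hzi : z i = y i - 1 := dn_self y i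
  have hk := kk_up hE hyi hd
  rw [← hz] at hk
  have hzne : finrank ℂ (linSys d p z) ≠ 0 := by
    intro h0
    apply hne
    have h1 : finrank ℂ (linSys d p y) ≤ finrank ℂ (linSys d p z) :=
      Submodule.finrank_mono (linSys_mono (dn_le y i))
    omega
  have hc : cc d p z i ≤ z i := by rw [hzi]; omega
  have hcpos : 0 < cc d p z i := by
    rcases Nat.eq_zero_or_pos (cc d p z i) with h0 | h0
    · exact absurd (finrank_eq_zero_of_cc hE i (d + 1) z (by omega) h0) hzne
    · exact h0
  obtain ⟨j, hji, w, U, hU, hDU⟩ := exists_active hE hzd i hc hcpos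
  have hzj : z j = y j := dn_ne y hji
  have hyj : 1 ≤ y j := by
    by_contra h0
    exact hDU (cD_mem_UU_of_zero hE hji (by omega) w hU)
  -- the top point `j'` of the class of `j`
  obtain ⟨j', hj't, hj'i, hmj, hj'⟩ : ∃ j', Top m y j' ∧ j' ≠ i ∧ m j' = m j ∧
      (j' = j ∨ (j' ≠ j ∧ y j' = y j + 1)) := by
    by_cases hjt : Top m y j
    · exact ⟨j, hjt, hji, rfl, Or.inl rfl⟩
    · have hex : ∃ j', Top m y j' ∧ j' ≠ i ∧ m j' = m j := by
        by_cases hmji : m j = m i
        · exact ⟨l₀, hl₀t, hl₀i, hl₀.trans hmji.symm⟩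
        · obtain ⟨x, hx, hxt⟩ := exists_top m y j
          refine ⟨x, hxt, ?_, hx⟩
          rintro rfl
          exact hmji hx.symm
      obtain ⟨j', h1, h2, h3⟩ := hex
      refine ⟨j', h1, h2, h3, Or.inr ⟨?_, ?_⟩⟩
      · rintro rfl
        exact hjt h1
      · unfold Top at hjt
        push Not at hjt
        obtain ⟨x, hx, hyx⟩ := hjt
        have h4 := h1 x (hx.trans h3.symm)
        have h5 := hb j' j h3
        omega
  have hyj' : 1 ≤ y j' := by
    rcases hj' with rfl | ⟨-, h⟩
    · exact hyj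
    · omega
  have hzj' : z j' = y j' := dn_ne y hj'i
  -- strict increase
  set x := dn z j' with hx
  have hxup : up x j' = z := up_dn (by rw [hzj']; exact hyj')
  have hxd : ∀ l, x l ≤ d := fun l => (dn_le z j' l).trans (hzd l)
  have hxi : x i = z i := dn_ne z hj'i.symm
  have hxj' : x j' = y j' - 1 := by rw [hx, dn_self, hzj']
  have hstrict : cc d p z i < cc d p x i := by
    by_contra hcon
    push Not at hcon
    have hd' := hd j'
    have e1 : UU d p x i = UU d p z i := by
      have h1 := UU_eq_up hE hxd hj'i (by rw [hxj']; omega) (by rw [hxup]; exact hcon)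
      rwa [hxup] at h1
    rcases hj' with rfl | ⟨hjj, hyjj⟩
    · have h1 := cD_mem_UU_up hE hxd hj'i w (show U ∈ UU d p x i by rw [e1]; exact hU)
      rw [hxup] at h1
      exact hDU h1
    · have hxj : x j = y j := by rw [hx, dn_ne z (fun h => hjj h.symm), hzj]
      have e2 : cc d p (up x j) i = cc d p z i := by
        have h1 := cc_swap (d := d) hp (y := up x j) (y' := up x j') (i := j) (j := j') (by
          rw [up_self, up_self, hxj, hxj']; omega) (by
          rw [up_ne _ hjj, up_ne _ (fun h => hjj h.symm), hxj', hxj]; omega) (by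
          intro l hl hl'
          rw [up_ne _ hl, up_ne _ hl']) i
        rw [h1, hxup, Equiv.swap_apply_of_ne_of_ne hji.symm hj'i.symm]
      have e3 : UU d p x i = UU d p (up x j) i := by
        apply UU_eq_up hE hxd hji
        · rw [hxj]
          omega
        · rw [e2]
          exact hcon
      have h1 := cD_mem_UU_up hE hxd hji w (show U ∈ UU d p x i by rw [e1]; exact hU)
      rw [← e3, e1] at h1
      exact hDU h1
  refine ⟨j', hj't, hyj', fun l hl hlt hyl => ?_⟩
  have hki : kk d p (dn y j') i ≤ kk d p y i - 1 := by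
    have h1 : dn (dn y j') i = x := by rw [hx, hz, dn_comm y hj'i]
    have h2 : dn y j' i = y i := dn_ne y hj'i.symm
    have h3 : kk d p (dn y j') i = y i - cc d p x i := by
      unfold kk
      rw [h1, h2]
    omega
  rcases kk_new hp hE hb hd hj't hyj' hlt hyl with ⟨h1, h2, h3, -⟩ | ⟨-, h2, -⟩
  · have h4 : dn y j' l = dn y j' i := by
      rw [h3, dn_ne y hj'i.symm]
      exact le_antisymm (hi l hl) (h2 i hl.symm)
    rw [kk_eq hp h4]
    exact hki
  · exact h2.trans (Nat.sub_le_sub_right (hmax j' hj't hyj') 1)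

/-- **Superabundance along the descent.** -/
theorem super_aux (hp : GenericPoints p) (hE : IsDual p E) (m : ι → ℕ) : ∀ (N : ℕ) (y : ι → ℕ),
    ∑ l, y l ≤ N → Bal m y → finrank ℂ (linSys d p y) ≠ 0 → ∀ β : ℕ → ℕ,
    (∀ i, Top m y i → 1 ≤ y i → kk d p y i ≤ β (m i)) →
    gg d p y ≤ (d + 2).choose 2 + ∑ a ∈ Finset.univ.image m, (β a + 1).choose 2 := by
  intro N
  induction N with
  | zero =>
    intro y hN hb hne β hβ
    have h0 : ∀ i, y i = 0 := by
      intro i
      have := Finset.single_le_sum (f := y) (fun j _ => Nat.zero_le (y j)) (Finset.mem_univ i)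
      omega
    have h1 : gg d p y ≤ (d + 2).choose 2 := by
      unfold gg
      have h5 : ∑ l : ι, (y l + 1).choose 2 = 0 := by
        refine Finset.sum_eq_zero (fun l _ => ?_)
        rw [h0 l]
        rfl
      rw [h5, add_zero, ← finrank_Rd d]
      exact Submodule.finrank_mono (linSys_le d p _)
    omega
  | succ N ih =>
    intro y hN hb hne β hβ
    have hd := le_of_finrank_pos hne
    by_cases h0 : ∀ i, y i = 0
    · exact ih y (by rw [Finset.sum_eq_zero (fun i _ => h0 i)]; exact Nat.zero_le _) hb hne β hβ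
    push Not at h0
    obtain ⟨l, hl⟩ := h0
    classical
    obtain ⟨i₀, hi₀, hi₀t⟩ := exists_top m y l
    have hyi₀ : 1 ≤ y i₀ := by
      have := hi₀t l hi₀.symm
      omega
    obtain ⟨i, hi, hmax⟩ := Finset.exists_max_image
      (Finset.univ.filter (fun x => Top m y x ∧ 1 ≤ y x)) (kk d p y)
      ⟨i₀, Finset.mem_filter.mpr ⟨Finset.mem_univ _, hi₀t, hyi₀⟩⟩
    rw [Finset.mem_filter] at hi
    obtain ⟨-, hit, hyi⟩ := hi
    have hmax' : ∀ l, Top m y l → 1 ≤ y l → kk d p y l ≤ kk d p y i := fun l h1 h2 =>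
      hmax l (Finset.mem_filter.mpr ⟨Finset.mem_univ _, h1, h2⟩)
    -- general facts on a step
    have hsum : ∀ j, 1 ≤ y j → ∑ l, dn y j l ≤ N := by
      intro j hj
      have h2 : ∑ l, dn y j l + 1 = ∑ l, y l := by
        rw [← Finset.add_sum_erase _ _ (Finset.mem_univ j),
          ← Finset.add_sum_erase _ y (Finset.mem_univ j), dn_self]
        have h3 : ∑ l ∈ Finset.univ.erase j, dn y j l = ∑ l ∈ Finset.univ.erase j, y l := by
          refine Finset.sum_congr rfl (fun l hl => ?_)
          rw [dn_ne _ (Finset.ne_of_mem_erase hl)]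
        omega
      omega
    have hne' : ∀ j, finrank ℂ (linSys d p (dn y j)) ≠ 0 := by
      intro j h1
      apply hne
      have h2 : finrank ℂ (linSys d p y) ≤ finrank ℂ (linSys d p (dn y j)) :=
        Submodule.finrank_mono (linSys_mono (dn_le y j))
      omega
    rcases Nat.eq_zero_or_pos (kk d p y i) with hB | hB
    · -- nothing to gain
      have h1 := ih (dn y i) (hsum i hyi) (bal_dn hb hit) (hne' i) β (by
        intro l hlt hyl
        rcases kk_new hp hE hb hd hit hyi hlt hyl with ⟨-, h2, h3, h4⟩ | ⟨-, h2, -⟩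
        · exact h4.trans (hβ l h2 (by rw [← h3]; exact hyl))
        · omega)
      rw [gg_dn hE hyi hd, hB]
      omega
    · obtain ⟨j, hjt, hyj, hstep⟩ := exists_step hp hE hb hne hit hyi hB hmax'
      set B := kk d p y i with hBdef
      have h1 := ih (dn y j) (hsum j hyj) (bal_dn hb hjt) (hne' j)
        (Function.update β (m i) (B - 1)) (by
        intro l hlt hyl
        by_cases hml : m l = m i
        · rw [hml, Function.update_self]
          exact hstep l hml hlt hyl
        · rw [Function.update_of_ne hml]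
          rcases kk_new hp hE hb hd hjt hyj hlt hyl with ⟨-, h2, h3, h4⟩ | ⟨h2, h3, -⟩
          · exact h4.trans (hβ l h2 (by rw [← h3]; exact hyl))
          · have h4 := hβ j hjt hyj
            rw [← h2] at h4
            omega)
      rw [gg_dn hE hyj hd]
      have hmem : m i ∈ Finset.univ.image m := Finset.mem_image_of_mem m (Finset.mem_univ i)
      rw [← Finset.add_sum_erase _ _ hmem] at h1
      rw [← Finset.add_sum_erase _ _ hmem]
      rw [Function.update_self] at h1
      have h2 : ∑ a ∈ (Finset.univ.image m).erase (m i),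
          (Function.update β (m i) (B - 1) a + 1).choose 2 =
          ∑ a ∈ (Finset.univ.image m).erase (m i), (β a + 1).choose 2 := by
        refine Finset.sum_congr rfl (fun a ha => ?_)
        rw [Function.update_of_ne (Finset.ne_of_mem_erase ha)]
      rw [h2] at h1
      have h3 := hmax' j hjt hyj
      have h4 : (B + 1).choose 2 ≤ (β (m i) + 1).choose 2 :=
        Nat.choose_le_choose 2 (Nat.succ_le_succ (hβ i hit hyi))
      have h5 : (B + 1).choose 2 = (B - 1 + 1).choose 2 + B := by
        obtain ⟨b, hb'⟩ : ∃ b, B = b + 1 := ⟨B - 1, by omega⟩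
        rw [hb', Nat.add_sub_cancel]
        exact choose_two_succ b
      omega

/-- **Superabundance of a nonempty system.** -/
theorem super_le (hp : GenericPoints p) (hE : IsDual p E) {m : ι → ℕ}
    (hne : finrank ℂ (linSys d p m) ≠ 0) {β : ℕ → ℕ}
    (hβ : ∀ i, 1 ≤ m i → kk d p m i ≤ β (m i)) :
    finrank ℂ (linSys d p m) + ∑ i, (m i + 1).choose 2 ≤
      (d + 2).choose 2 + ∑ a ∈ Finset.univ.image m, (β a + 1).choose 2 :=
  super_aux hp hE m (∑ l, m l) m le_rfl (fun l l' h => by omega) hne β (fun i _ h => hβ i h)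

theorem kk_le (hE : IsDual p E) {m : ι → ℕ} (hne : finrank ℂ (linSys d p m) ≠ 0) {i : ι}
    (hi : 1 ≤ m i) : kk d p m i ≤ m i - 1 := by
  have h0 : 0 < cc d p (dn m i) i := by
    rcases Nat.eq_zero_or_pos (cc d p (dn m i) i) with h0 | h0
    · exfalso
      have h1 := finrank_eq_zero_of_cc hE i (d + 1) (dn m i) (by omega) h0
      apply hne
      have h2 : finrank ℂ (linSys d p m) ≤ finrank ℂ (linSys d p (dn m i)) :=
        Submodule.finrank_mono (linSys_mono (dn_le m i))
      omega
    · exact h0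
  unfold kk
  omega

/-- the superabundance is at most the sum of `μ (μ - 1) / 2` over the distinct multiplicities -/
theorem super_window (hp : GenericPoints p) {m : ι → ℕ} (hne : linSys d p m ≠ ⊥) :
    finrank ℂ (linSys d p m) + ∑ i, (m i + 1).choose 2 ≤
      (d + 2).choose 2 + ∑ a ∈ Finset.univ.image m, a.choose 2 := by
  obtain ⟨E, hE⟩ := exists_dual p hp
  have hfin : Module.Finite ℂ (linSys d p m) :=
    Submodule.finiteDimensional_of_le (linSys_le d p _)
  have hne' : finrank ℂ (linSys d p m) ≠ 0 := fun h0 =>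
    hne (Submodule.finrank_eq_zero.mp h0)
  have h1 := super_le hp hE hne' (β := fun a => a - 1) (fun i hi => kk_le hE hne' hi)
  have h2 : ∑ a ∈ Finset.univ.image m, (a - 1 + 1).choose 2 =
      ∑ a ∈ Finset.univ.image m, a.choose 2 := by
    refine Finset.sum_congr rfl (fun a _ => ?_)
    rcases Nat.eq_zero_or_pos a with h | h
    · rw [h]; rfl
    · rw [Nat.sub_add_cancel h]
  rwa [h2] at h1

end gen

end Pool.Agent.Work.MP_0421d9_ag
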