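import Pool.Agent.Work.MP_0421d9_ag.Gen1

/-!
The superabundance of a system with a reduced member.
-/

set_option linter.unusedSectionVars false

namespace Pool.Agent.Work.MP_0421d9_ag

open MvPolynomial Module

theorem exists_indep {p : V3} (hp : p ≠ 0) :
    ∃ v₁ v₂ : V3, cr p v₁ ≠ 0 ∧ ∀ c : ℂ, cr p (v₂ + c • v₁) ≠ 0 := by
  obtain ⟨v₁, hv₁⟩ := exists_cr_ne hp
  obtain ⟨k, hk⟩ : ∃ k, cr p v₁ k ≠ 0 := by
    by_contra hcon
    push Not at hcon
    exact hv₁ (funext hcon)
  refine ⟨v₁, Pi.single k 1, hv₁, fun c hc => ?_⟩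
  obtain ⟨c', hc'⟩ := exists_smul_of_cr_eq_zero hp hc
  have h1 : (Pi.single k 1 : V3) = c' • p + (-c) • v₁ := by
    rw [← hc']
    module
  have h2 : eval (Pi.single k 1 : V3) (lin (cr p v₁)) = cr p v₁ k := by
    rw [eval_lin, Finset.sum_eq_single k]
    · rw [Pi.single_eq_same, mul_one]
    · intro b _ hb
      rw [Pi.single_eq_of_ne hb, mul_zero]
    · intro h; exact absurd (Finset.mem_univ k) h
  have e0 : eval p (lin (cr p v₁)) = 0 := eval_xl_left _ _
  have e1 : eval v₁ (lin (cr p v₁)) = 0 := eval_xl_right _ _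
  apply hk
  rw [← h2, h1, eval_lin_comm, lin_add, lin_smul, lin_smul, map_add, map_mul, map_mul,
    eval_lin_comm _ p, eval_lin_comm _ v₁, e0, e1, mul_zero, mul_zero, add_zero]

theorem mv_comb {ι : Type} (E : ι → Fin 3 → Derivation ℚ ℂ ℂ) (x : ι) (v w : V3) (c : ℂ) (F : R3) :
    cD (mv E x (v + c • w)) F = cD (mv E x v) F + c • cD (mv E x w) F := by
  ext α
  rw [coeff_add, coeff_smul, coeff_cD, coeff_cD, coeff_cD, mv_add, mv_smul, smul_eq_mul]

section red

variable {r n d : ℕ} {p : Fin r → V3} {s : Fin n → V3} {t : Fin 4 → V3} {m : Fin r → ℕ}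

/-- lowering a multiplicity at least two of a reduced rigid system gives at least two new
dimensions -/
theorem two_le_cc {E : IT m ⊕ KT m n → Fin 3 → Derivation ℚ ℂ ℂ} {F : R3}
    (S : Rigid d (PP p s t m) E (mm m) F) (hFp : F ∈ linSys d p m) (hsq : Squarefree F)
    {i : Fin r} (hi : 2 ≤ m i) : 2 ≤ cc d p (dn m i) i := by
  classical
  have hi1 : m i ≠ 1 := by omega
  set x : IT m ⊕ KT m n := Sum.inl (Sum.inl ⟨i, hi1⟩) with hx
  have hPx : PP p s t m x = p i := rfl
  have hm : ∀ l, m l ≤ d := fun l => le_of_vanishTo S.hom S.hF0 (hFp.2 l)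
  have hpi : p i ≠ 0 := by rw [← hPx]; exact gp1 S.hE x
  have hfix : ∀ l, l ≠ i → ∀ v k, mv E x v (p l k) = 0 := by
    intro l hl v k
    by_cases h1 : m l = 1
    · exact mv_ne S.hE (x := x) (y := Sum.inr (Sum.inl ⟨l, h1⟩)) (by rw [hx]; simp) v k
    · exact mv_ne S.hE (x := x) (y := Sum.inl (Sum.inl ⟨l, h1⟩)) (by
        rw [hx]
        simpa using hl) v k
  have hA : ∀ v, cD (mv E x v) F ∈ linSys d p (dn m i) := by
    intro v
    refine ⟨cD_isHomogeneous _ S.hom, fun l => ?_⟩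
    by_cases hl : l = i
    · subst hl
      rw [dn_self]
      exact vanishTo_cD _ S.hom ((hm l).trans (Nat.le_succ d)) (hFp.2 l)
    · rw [dn_ne _ hl]
      exact vanishTo_cD_fixed (hfix l hl v) S.hom ((hm l).trans (Nat.le_succ d)) (hFp.2 l)
  have hB : ∀ v, cD (mv E x v) F ∈ linSys d p m → cr (p i) v = 0 := by
    intro v hv
    have h1 : cD (mv E x v) F ∈ linSys d (PP p s t m) (Sum.elim (mm m) (fun _ => 1)) := by
      rw [mem_all]
      refine ⟨hv, fun k => ?_⟩
      apply vanishTo_one_iff.mp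
      have h1d : 1 ≤ d + 1 := by omega
      have hk : VanishTo F (PP p s t m (Sum.inr (Sum.inr k))) 1 := S.hF.2 (Sum.inr (Sum.inr k))
      have hfk : ∀ l, mv E x v (PP p s t m (Sum.inr (Sum.inr k)) l) = 0 := fun l =>
        mv_ne S.hE (x := x) (y := Sum.inr (Sum.inr k)) (by rw [hx]; simp) v l
      exact vanishTo_cD_fixed hfk S.hom h1d hk
    obtain ⟨c, hc⟩ := S.huniq _ h1
    have hv2 : VanishTo F (p i) 2 := (hFp.2 i).mono hi
    have h3 : ∀ k, eval (p i) (pderiv k F) = 0 := by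
      intro k
      have h4 := (vanishTo_iff S.hom (p i) (by have := hm i; omega)).mp hv2 (X k)
        (mem_Hm_succ.mpr (isHomogeneous_X ℂ k))
      rw [mul_comm, B_X_mul] at h4
      have h5 := B_lin_pow (S.hom.pderiv (i := k)) (p i)
      rw [(by omega : d + 1 - 2 = d - 1)] at h4
      rw [h4] at h5
      have h6 : ((d - 1).factorial : ℂ) ≠ 0 := by exact_mod_cast Nat.factorial_ne_zero _
      exact (mul_eq_zero.mp h5.symm).resolve_left h6
    have h0 : eval (p i) F = 0 := vanishTo_one_iff.mp (hv2.mono (by omega))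
    have h7 := singular_constant S.hom hsq hc h0 h3
    have h8 : ∀ l, mv E x v (p i l) = v l := fun l => mv_self S.hE x v l
    ext l
    have h9 := h7 1 2
    have h10 := h7 2 0
    have h11 := h7 0 1
    rw [h8, h8] at h9 h10 h11
    fin_cases l
    · simp only [cr]
      simpa [sub_eq_zero] using h9
    · simp only [cr]
      simpa [sub_eq_zero] using h10
    · simp only [cr]
      simpa [sub_eq_zero] using h11
  obtain ⟨v₁, v₂, hv₁, hv₂⟩ := exists_indep hpi
  set g₁ := cD (mv E x v₁) F with hg₁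
  set g₂ := cD (mv E x v₂) F with hg₂
  have hfin : Module.Finite ℂ (linSys d p (dn m i)) :=
    Submodule.finiteDimensional_of_le (linSys_le d p _)
  set L := linSys d p m with hL
  have hLA : L ≤ linSys d p (dn m i) := linSys_mono (dn_le m i)
  have hg₁A : Submodule.span ℂ {g₁} ≤ linSys d p (dn m i) := by
    rw [Submodule.span_singleton_le_iff_mem]
    exact hA v₁
  have hg₂A : Submodule.span ℂ {g₂} ≤ linSys d p (dn m i) := by
    rw [Submodule.span_singleton_le_iff_mem]
    exact hA v₂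
  have hfin1 : Module.Finite ℂ (L ⊔ Submodule.span ℂ {g₁} : Submodule ℂ R3) :=
    Submodule.finiteDimensional_of_le (sup_le hLA hg₁A)
  have hfin2 : Module.Finite ℂ (L ⊔ Submodule.span ℂ {g₁} ⊔ Submodule.span ℂ {g₂} :
      Submodule ℂ R3) := Submodule.finiteDimensional_of_le (sup_le (sup_le hLA hg₁A) hg₂A)
  have h1 : L < L ⊔ Submodule.span ℂ {g₁} := by
    refine lt_of_le_of_ne le_sup_left ?_
    intro h
    apply hv₁
    apply hB
    change g₁ ∈ L
    rw [h]
    exact Submodule.mem_sup_right (Submodule.mem_span_singleton_self g₁)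
  have h2 : L ⊔ Submodule.span ℂ {g₁} <
      L ⊔ Submodule.span ℂ {g₁} ⊔ Submodule.span ℂ {g₂} := by
    refine lt_of_le_of_ne le_sup_left ?_
    intro h
    have h3 : g₂ ∈ L ⊔ Submodule.span ℂ {g₁} := by
      rw [h]
      exact Submodule.mem_sup_right (Submodule.mem_span_singleton_self g₂)
    obtain ⟨b, hb, y, hy, hby⟩ := Submodule.mem_sup.mp h3
    obtain ⟨c, rfl⟩ := Submodule.mem_span_singleton.mp hy
    apply hv₂ (-c)
    apply hB
    rw [mv_comb, ← hg₁, ← hg₂, ← hby]
    have : b + c • g₁ + (-c) • g₁ = b := by module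
    rw [this]
    exact hb
  have h3 := Submodule.finrank_lt_finrank_of_lt h1
  have h4 := Submodule.finrank_lt_finrank_of_lt h2
  have h5 := Submodule.finrank_mono (sup_le (sup_le hLA hg₁A) hg₂A)
  have h6 := cc_add (d := d) (p := p) (dn m i) i
  rw [up_dn (by omega : 1 ≤ m i), ← hL] at h6
  omega

end red

/-- the rigid member and its derivations -/
theorem exists_rigid_member {r d : ℕ} (p : Fin r → Fin 3 → ℂ) (hp : GenericPoints p)
    (m : Fin r → ℕ) (hm : ∀ i, m i ≤ d) (hpos : linSys d p m ≠ ⊥) :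
    ∃ (n : ℕ) (s : Fin n → V3) (t : Fin 4 → V3) (E : IT m ⊕ KT m n → Fin 3 → Derivation ℚ ℂ ℂ)
      (F : R3), n + 1 = finrank ℂ (linSys d p m) ∧ F ∈ linSys d p m ∧
      Rigid d (PP p s t m) E (mm m) F := by
  have hfin : Module.Finite ℂ (linSys d p m) :=
    Submodule.finiteDimensional_of_le (linSys_le d p _)
  have hpos' : finrank ℂ (linSys d p m) ≠ 0 := fun h0 =>
    hpos (Submodule.finrank_eq_zero.mp h0)
  set n := finrank ℂ (linSys d p m) - 1 with hn
  have hn' : n + 1 = finrank ℂ (linSys d p m) := by omega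
  obtain ⟨s, hs⟩ := exists_extension (κ := Fin n) p hp
  obtain ⟨t, ht⟩ := exists_extension (κ := Fin 4) (Sum.elim p s) hs
  obtain ⟨E, hE⟩ := exists_dual _ (PP_generic p s t m ht)
  obtain ⟨F, hF, hF0, hFs⟩ := exists_rigid hE hm hn'
  exact ⟨n, s, t, E, F, hn', hF, rigid_of hE hm hn' hF hF0 hFs⟩

/-- **Superabundance of a system with a reduced member.** -/
theorem super_reduced {r d : ℕ} {p : Fin r → Fin 3 → ℂ} (hp : GenericPoints p) {m : Fin r → ℕ}
    (hred : ∃ F ∈ linSys d p m, Squarefree F) :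
    finrank ℂ (linSys d p m) + ∑ i, (m i + 1).choose 2 ≤
      (d + 2).choose 2 + ∑ a ∈ Finset.univ.image m, (a - 1).choose 2 := by
  obtain ⟨f₀, hf₀, hsq₀⟩ := hred
  have hm : ∀ i, m i ≤ d := fun i => le_of_vanishTo hf₀.1 hsq₀.ne_zero (hf₀.2 i)
  have hne : linSys d p m ≠ ⊥ := fun h => by
    rw [h, Submodule.mem_bot] at hf₀
    exact hsq₀.ne_zero hf₀
  obtain ⟨n, s, t, E, F, hn, hF, S⟩ := exists_rigid_member p hp m hm hne
  have hf₀core : f₀ ∈ linSys d p (dropSimple m) := by
    refine ⟨hf₀.1, fun i => ?_⟩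
    apply (hf₀.2 i).mono
    unfold dropSimple
    split_ifs <;> omega
  have hsq := S.squarefree (by rw [linSys_core]; exact hf₀core) hsq₀
  obtain ⟨E', hE'⟩ := exists_dual p hp
  have hne' : finrank ℂ (linSys d p m) ≠ 0 := by omega
  have h1 := super_le hp hE' hne' (β := fun a => a - 2) (fun i hi => by
    rcases Nat.lt_or_ge (m i) 2 with h | h
    · have := kk_le hE' hne' hi
      omega
    · have h2 := two_le_cc S hF hsq h
      unfold kk
      omega)
  have h2 : ∑ a ∈ Finset.univ.image m, (a - 2 + 1).choose 2 =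
      ∑ a ∈ Finset.univ.image m, (a - 1).choose 2 := by
    refine Finset.sum_congr rfl (fun a _ => ?_)
    rcases Nat.lt_or_ge a 2 with h | h
    · have : a = 0 ∨ a = 1 := by omega
      rcases this with rfl | rfl <;> rfl
    · rw [(by omega : a - 2 + 1 = a - 1)]
  rwa [h2] at h1

end Pool.Agent.Work.MP_0421d9_ag
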