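import Pool.Agent.Work.MP_0421d9_ag.Gen3

/-!
Special planar linear systems with general base points live in a window: bounds for the dimension
and for the superabundance which involve neither the degree nor the number of points.
-/

namespace Pool.Agent.Work.MP_0421d9_ag.GeneralWindowOld

open MvPolynomial Module Pool.Agent.Work.MP_0421d9_ag

/-- Let `L` be the system of the plane curves of degree `d` with multiplicity at least `m i` at
generic points `p i`; `h⁰` is the dimension of the vector space of its equations, its virtual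
dimension is `χ = (d + 2).choose 2 - ∑ (m i + 1).choose 2`, its superabundance is `h¹ = h⁰ - χ`.

* If `L` is nonempty and special, then `h⁰ ≤ (m i - 1) (m j - 1)` for some `i ≠ j`, and `h¹` is at
  most the sum of `μ (μ - 1) / 2` over the distinct values `μ` of the multiplicities; if moreover
  `L` has a reduced member, `h¹` is at most the sum of `(μ - 1) (μ - 2) / 2` over these values.
* Hence, if all the multiplicities are at most `M`, then `L` is empty when
  `χ ≤ - (M + 1).choose 3`, and it is nonspecial when `χ > (M - 1) ^ 2`.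
* Both bounds of the first item are attained, the first one for all pairs of multiplicities
  (two points, degree `α + β + 2`, multiplicities `α + 2`, `β + 2`), the second one for two points
  of multiplicity `k + 2` and the degree `k + 2`, for all `k`. -/
theorem result :
    (∀ (r d : ℕ) (p : Fin r → Fin 3 → ℂ), GenericPoints p → ∀ m : Fin r → ℕ,
      linSys d p m ≠ ⊥ →
      finrank ℂ (linSys d p m) + ∑ i, (m i + 1).choose 2 ≠ (d + 2).choose 2 →
      (∃ i j, i ≠ j ∧ finrank ℂ (linSys d p m) ≤ (m i - 1) * (m j - 1)) ∧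
      finrank ℂ (linSys d p m) + ∑ i, (m i + 1).choose 2 ≤
        (d + 2).choose 2 + ∑ μ ∈ Finset.univ.image m, μ.choose 2 ∧
      ((∃ F ∈ linSys d p m, Squarefree F) →
        finrank ℂ (linSys d p m) + ∑ i, (m i + 1).choose 2 ≤
          (d + 2).choose 2 + ∑ μ ∈ Finset.univ.image m, (μ - 1).choose 2)) ∧
    (∀ (r d M : ℕ) (p : Fin r → Fin 3 → ℂ), GenericPoints p → ∀ m : Fin r → ℕ, (∀ i, m i ≤ M) →
      ((d + 2).choose 2 + (M + 1).choose 3 ≤ ∑ i, (m i + 1).choose 2 → linSys d p m = ⊥) ∧
      (∑ i, (m i + 1).choose 2 + (M - 1) * (M - 1) < (d + 2).choose 2 →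
        finrank ℂ (linSys d p m) + ∑ i, (m i + 1).choose 2 = (d + 2).choose 2)) ∧
    (∀ (α β : ℕ) (p : Fin 2 → Fin 3 → ℂ), GenericPoints p →
      finrank ℂ (linSys (α + β + 2) p ![α + 2, β + 2]) = (α + 1) * (β + 1) ∧
      (α + β + 2 + 2).choose 2 < finrank ℂ (linSys (α + β + 2) p ![α + 2, β + 2]) +
        ∑ i, ((![α + 2, β + 2] : Fin 2 → ℕ) i + 1).choose 2) ∧
    (∀ (k : ℕ) (p : Fin 2 → Fin 3 → ℂ), GenericPoints p →
      finrank ℂ (linSys (k + 2) p (fun _ => k + 2)) + ∑ _i : Fin 2, (k + 2 + 1).choose 2 =
        (k + 2 + 2).choose 2 +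
          ∑ μ ∈ Finset.univ.image (fun _ : Fin 2 => k + 2), μ.choose 2) :=
  ⟨fun _ _ _ hp _ hpos h => ⟨special_le hp hpos h, super_window hp hpos,
      fun hred => super_reduced hp hred⟩,
    fun _ _ _ _ hp _ hM => ⟨window_empty hp hM, window_nonspecial hp hM⟩,
    fun α β _ hp => special_attained hp α β,
    fun k _ hp => window_attained hp k⟩

end Pool.Agent.Work.MP_0421d9_ag.GeneralWindowOld
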