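import Pool.Agent.Work.MP_0421d9_ag.Deriv
import Pool.Agent.Work.MP_0421d9_ag.Duality

/-!
Derivations moving the points, and their effect on linear systems.
-/

namespace Pool.Agent.Work.MP_0421d9_ag

open MvPolynomial Module

theorem cD_lin_pow_of_fixed {D : Derivation ℚ ℂ ℂ} {a : V3} (hD : ∀ l, D (a l) = 0) (n : ℕ) :
    cD D (lin a ^ n) = 0 := by
  have h : (fun i => D (a i)) = 0 := funext hD
  rw [cD_pow, cD_lin, h, lin_zero, mul_zero, mul_zero]

theorem vanishTo_cD_fixed {D : Derivation ℚ ℂ ℂ} {a : V3} (hD : ∀ l, D (a l) = 0) {F : R3}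
    {d m : ℕ} (hF : F.IsHomogeneous d) (hm : m ≤ d + 1) (h : VanishTo F a m) :
    VanishTo (cD D F) a m := by
  rw [vanishTo_iff hF a hm] at h
  rw [vanishTo_iff (cD_isHomogeneous D hF) a hm]
  intro G hG
  have h1 := D_B D (lin a ^ (d + 1 - m) * G) F
  rw [h G hG, map_zero, cD_mul, cD_lin_pow_of_fixed hD, zero_mul, zero_add,
    h _ (cD_mem_Hm D hG), zero_add] at h1
  exact h1.symm

theorem mul_mem_Hm_succ {A G : R3} {m n : ℕ} (hA : A.IsHomogeneous n) (hG : G ∈ Hm m) :
    A * G ∈ Hm (m + n) := by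
  cases m with
  | zero =>
    rw [mem_Hm_zero] at hG
    rw [hG, mul_zero]
    exact zero_mem _
  | succ k =>
    have h : A * G ∈ Hm (k + n + 1) := by
      rw [mem_Hm_succ, add_comm k n]
      exact hA.mul hG
    rwa [(by ring : k + 1 + n = k + n + 1)]

theorem vanishTo_cD (D : Derivation ℚ ℂ ℂ) {a : V3} {F : R3}
    {d m : ℕ} (hF : F.IsHomogeneous d) (hm : m ≤ d + 1) (h : VanishTo F a m) :
    VanishTo (cD D F) a (m - 1) := by
  cases m with
  | zero => intro k hk; omega
  | succ m =>
    rw [vanishTo_iff hF a hm] at h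
    rw [vanishTo_iff (cD_isHomogeneous D hF) a (by omega)]
    rw [Nat.add_sub_cancel]
    intro G hG
    have h1 := D_B D (lin a ^ (d + 1 - m) * G) F
    have e1 : d + 1 - m = d + 1 - (m + 1) + 1 := by omega
    have h2 : B (lin a ^ (d + 1 - m) * G) F = 0 := by
      rw [e1, pow_succ, mul_assoc]
      exact h _ (mul_mem_Hm_succ (lin_isHomogeneous a) hG)
    have h3 : B (cD D (lin a ^ (d + 1 - m) * G)) F = 0 := by
      rw [cD_mul, cD_pow, map_add, LinearMap.add_apply]
      have h4 : B (C ((d + 1 - m : ℕ) : ℂ) * (lin a ^ (d + 1 - m - 1) * cD D (lin a)) * G) F = 0 := by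
        rw [mul_assoc, B_C_mul_left, cD_lin, mul_assoc, (by omega : d + 1 - m - 1 = d + 1 - (m + 1)),
          h _ (mul_mem_Hm_succ (lin_isHomogeneous _) hG), mul_zero]
      have h5 : B (lin a ^ (d + 1 - m) * cD D G) F = 0 := by
        rw [e1, pow_succ, mul_assoc]
        exact h _ (mul_mem_Hm_succ (lin_isHomogeneous a) (cD_mem_Hm D hG))
      rw [h4, h5, add_zero]
    rw [h2, map_zero, h3, zero_add] at h1
    exact h1.symm

theorem isHomogeneous_succ_sum {G : R3} {n : ℕ} (hG : G.IsHomogeneous (n + 1)) :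
    C ((n + 1 : ℕ) : ℂ) * G = ∑ k, X k * pderiv k G := by
  rw [hG.sum_X_mul_pderiv, nsmul_eq_mul, map_natCast]

/-- Lemma Z: a space of forms stable under the derivations moving the point `a`, all of whose
members vanish at `a`, is zero. -/
theorem lemmaZ {d : ℕ} (W : Submodule ℂ R3) (hW : W ≤ Rd d) (a : V3)
    (D : Fin 3 → Derivation ℚ ℂ ℂ) (hD : ∀ k l, D k (a l) = if k = l then 1 else 0)
    (hst : ∀ k, ∀ f ∈ W, cD (D k) f ∈ W) (hv : ∀ f ∈ W, eval a f = 0) : W = ⊥ := by
  have key : ∀ n ≤ d, ∀ f ∈ W, ∀ G : R3, G.IsHomogeneous n → B (lin a ^ (d - n) * G) f = 0 := by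
    intro n
    induction n with
    | zero =>
      intro _ f hf G hG
      have h0 : G = C (coeff 0 G) :=
        (MvPolynomial.totalDegree_eq_zero_iff_eq_C).mp (Nat.le_zero.mp hG.totalDegree_le)
      rw [h0, mul_comm, B_C_mul_left, Nat.sub_zero, B_lin_pow (hW hf), hv f hf]
      simp
    | succ n ih =>
      intro hn f hf G hG
      have hn' : n ≤ d := by omega
      have h1 : ∀ k, B (lin a ^ (d - (n + 1)) * (X k * pderiv k G)) f = 0 := by
        intro k
        have hG' : (pderiv k G).IsHomogeneous n := by simpa using hG.pderiv (i := k)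
        have h2 := D_B (D k) (lin a ^ (d - n) * pderiv k G) f
        rw [ih hn' f hf _ hG', map_zero, ih hn' _ (hst k f hf) _ hG', add_zero, cD_mul, map_add,
          LinearMap.add_apply, ih hn' f hf _ (cD_isHomogeneous (D k) hG'), add_zero, cD_pow,
          cD_lin] at h2
        have h3 : lin (fun i => D k (a i)) = X k := by
          unfold lin
          rw [Finset.sum_eq_single k]
          · beta_reduce
            rw [hD, if_pos rfl, C_1, one_mul]
          · intro j _ hj
            beta_reduce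
            rw [hD, if_neg (Ne.symm hj), C_0, zero_mul]
          · simp
        rw [h3, mul_assoc, B_C_mul_left, mul_assoc] at h2
        have h4 : ((d - n : ℕ) : ℂ) ≠ 0 := by
          rw [Nat.cast_ne_zero]; omega
        have h5 := (mul_eq_zero.mp h2.symm).resolve_left h4
        rwa [(by omega : d - n - 1 = d - (n + 1))] at h5
      have h6 : B (C ((n + 1 : ℕ) : ℂ) * (lin a ^ (d - (n + 1)) * G)) f = 0 := by
        have : C ((n + 1 : ℕ) : ℂ) * (lin a ^ (d - (n + 1)) * G) =
            lin a ^ (d - (n + 1)) * ∑ k, X k * pderiv k G := by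
          rw [← isHomogeneous_succ_sum hG]
          ring
        rw [this, Finset.mul_sum, map_sum, LinearMap.sum_apply]
        exact Finset.sum_eq_zero (fun k _ => h1 k)
      rw [B_C_mul_left] at h6
      have h7 : ((n + 1 : ℕ) : ℂ) ≠ 0 := by
        rw [Nat.cast_ne_zero]; omega
      exact (mul_eq_zero.mp h6).resolve_left h7
  rw [Submodule.eq_bot_iff]
  intro f hf
  apply eq_zero_of_B_right (hW hf)
  intro A hA
  have := key d le_rfl f hf A hA
  rwa [Nat.sub_self, pow_zero, one_mul] at this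

section dual

variable {ι : Type} [DecidableEq ι]

/-- the derivations `E x k` are dual to the coordinates of the points -/
def IsDual (P : ι → V3) (E : ι → Fin 3 → Derivation ℚ ℂ ℂ) : Prop :=
  ∀ x k y l, E x k (P y l) = if x = y ∧ k = l then 1 else 0

theorem exists_dual (P : ι → V3) (hP : AlgebraicIndependent ℚ (fun z : ι × Fin 3 => P z.1 z.2)) :
    ∃ E, IsDual P E := by
  classical
  have h : ∀ x : ι × Fin 3, ∃ D : Derivation ℚ ℂ ℂ, ∀ y : ι × Fin 3,
      D (P y.1 y.2) = if x = y then 1 else 0 :=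
    fun x => exists_derivation (fun z : ι × Fin 3 => P z.1 z.2) hP (fun y => if x = y then 1 else 0)
  choose D hD using h
  refine ⟨fun x k => D (x, k), fun x k y l => ?_⟩
  rw [hD (x, k) (y, l)]
  simp only [Prod.mk.injEq]

/-- the derivation moving the point `x` in direction `v` -/
noncomputable def mv (E : ι → Fin 3 → Derivation ℚ ℂ ℂ) (x : ι) (v : V3) : Derivation ℚ ℂ ℂ :=
  v 0 • E x 0 + v 1 • E x 1 + v 2 • E x 2

theorem mv_self {P : ι → V3} {E : ι → Fin 3 → Derivation ℚ ℂ ℂ} (hE : IsDual P E) (x : ι) (v : V3)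
    (l : Fin 3) : mv E x v (P x l) = v l := by
  unfold mv
  simp only [Derivation.add_apply, Derivation.smul_apply, hE x, smul_eq_mul, true_and]
  fin_cases l <;> simp

theorem mv_ne {P : ι → V3} {E : ι → Fin 3 → Derivation ℚ ℂ ℂ} (hE : IsDual P E) {x y : ι}
    (h : y ≠ x) (v : V3) (l : Fin 3) : mv E x v (P y l) = 0 := by
  unfold mv
  simp only [Derivation.add_apply, Derivation.smul_apply, hE x, smul_eq_mul]
  simp [h.symm]

omit [DecidableEq ι] in
theorem mv_add (E : ι → Fin 3 → Derivation ℚ ℂ ℂ) (x : ι) (v w : V3) (a : ℂ) :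
    mv E x (v + w) a = mv E x v a + mv E x w a := by
  unfold mv
  simp only [Derivation.add_apply, Derivation.smul_apply, smul_eq_mul, Pi.add_apply]
  ring

omit [DecidableEq ι] in
theorem mv_smul (E : ι → Fin 3 → Derivation ℚ ℂ ℂ) (x : ι) (c : ℂ) (v : V3) (a : ℂ) :
    mv E x (c • v) a = c * mv E x v a := by
  unfold mv
  simp only [Derivation.add_apply, Derivation.smul_apply, smul_eq_mul, Pi.smul_apply]
  ring

theorem cD_lin_self {P : ι → V3} {E : ι → Fin 3 → Derivation ℚ ℂ ℂ} (hE : IsDual P E) (x : ι)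
    (v : V3) : cD (mv E x v) (lin (P x)) = lin v := by
  rw [cD_lin]
  congr 1
  funext l
  exact mv_self hE x v l

theorem cD_lin_pow_ne {P : ι → V3} {E : ι → Fin 3 → Derivation ℚ ℂ ℂ} (hE : IsDual P E) {x y : ι}
    (h : y ≠ x) (v : V3) (n : ℕ) : cD (mv E x v) (lin (P y) ^ n) = 0 :=
  cD_lin_pow_of_fixed (fun l => mv_ne hE h v l) n

end dual

theorem linSys_cD_mem {ι : Type} {P : ι → V3} {M : ι → ℕ} {d : ℕ} (hM : ∀ i, M i ≤ d + 1)
    {D : Derivation ℚ ℂ ℂ} {F : R3} (hF : F ∈ linSys d P M)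
    (hD : ∀ i, (∀ l, D (P i l) = 0) ∨ VanishTo (cD D F) (P i) (M i)) :
    cD D F ∈ linSys d P M := by
  refine ⟨cD_isHomogeneous D hF.1, fun i => ?_⟩
  rcases hD i with h | h
  · exact vanishTo_cD_fixed h hF.1 (hM i) (hF.2 i)
  · exact h

/-- the unique member of a rigid generic system has multiplicity exactly `M x` at `P x` -/
theorem not_vanishTo_succ {ι : Type} [DecidableEq ι] {P : ι → V3}
    {E : ι → Fin 3 → Derivation ℚ ℂ ℂ} (hE : IsDual P E) {M : ι → ℕ} {d : ℕ}
    (hM : ∀ i, M i ≤ d) {F : R3} (hF : F ∈ linSys d P M) (hF0 : F ≠ 0)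
    (huniq : ∀ f ∈ linSys d P M, ∃ c : ℂ, f = C c * F) (x : ι) :
    ¬ VanishTo F (P x) (M x + 1) := by
  intro hx
  have h1 : ∀ k, ∃ c : ℂ, cD (E x k) F = C c * F := by
    intro k
    apply huniq
    apply linSys_cD_mem (fun i => (hM i).trans (Nat.le_succ d)) hF
    intro i
    by_cases h : i = x
    · right
      subst h
      have := vanishTo_cD (E i k) hF.1 (by have := hM i; omega) hx
      rwa [Nat.add_sub_cancel] at this
    · left
      intro l
      rw [hE x k i l, if_neg]
      rintro ⟨h', -⟩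
      exact h h'.symm
  have h2 : Submodule.span ℂ {F} = ⊥ := by
    apply lemmaZ (d := d) _ _ (P x) (E x)
    · intro k l
      rw [hE x k x l]
      simp
    · intro k f hf
      obtain ⟨c, rfl⟩ := Submodule.mem_span_singleton.mp hf
      obtain ⟨c', hc'⟩ := h1 k
      rw [cD_smul, hc', ← smul_eq_C_mul, smul_smul, ← add_smul]
      exact Submodule.smul_mem _ _ (Submodule.mem_span_singleton_self F)
    · intro f hf
      obtain ⟨c, rfl⟩ := Submodule.mem_span_singleton.mp hf
      rw [smul_eval]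
      have h3 := (vanishTo_iff hF.1 (P x) (by have := hM x; omega)).mp
        (hx.mono (by omega : 1 ≤ M x + 1)) 1 (by
          change (1 : R3) ∈ Hm (0 + 1)
          rw [mem_Hm_succ]
          exact isHomogeneous_one _ _)
      rw [mul_one, Nat.add_sub_cancel, B_lin_pow hF.1] at h3
      have h4 : (d.factorial : ℂ) ≠ 0 := by exact_mod_cast Nat.factorial_ne_zero d
      rw [(mul_eq_zero.mp h3).resolve_left h4, mul_zero]
    · rw [Submodule.span_le, Set.singleton_subset_iff]
      exact hF.1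
  rw [Submodule.span_singleton_eq_bot] at h2
  exact hF0 h2

end Pool.Agent.Work.MP_0421d9_ag
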