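import Pool.Agent.Work.MP_0421d9_ag.HInd

/-!
Exact addition of points of small multiplicity: arbitrarily many points, in a fixed degree.
-/

namespace Pool.Agent.Work.MP_0421d9_ag.LD

open MvPolynomial Module

/-! ### further points -/

theorem hPm_append_zero {r : ℕ} (D n : ℕ) (m : Fin r → ℕ) :
    hPm D (Fin.append m (fun _ : Fin n => 0)) = hPm D m := by
  rw [hPm_eq_hTm, hPm_eq_hTm, hTm_comp_eq (e := Fin.castAdd n) (Fin.castAdd_injective r n)]
  · congr 1
    funext i
    exact Fin.append_left _ _ i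
  · intro i
    refine Fin.addCases (fun j hj => ?_) (fun j _ => ?_) i
    · exact absurd ⟨j, rfl⟩ hj
    · exact Fin.append_right _ _ j

theorem sum_append {r n : ℕ} (m : Fin r → ℕ) (k : Fin n → ℕ) (f : ℕ → ℕ) :
    ∑ i, f (Fin.append m k i) = ∑ i, f (m i) + ∑ j, f (k j) := by
  rw [Fin.sum_univ_add]
  congr 1
  · exact Finset.sum_congr rfl (fun i _ => by rw [Fin.append_left])
  · exact Finset.sum_congr rfl (fun i _ => by rw [Fin.append_right])

theorem hPm_append_le {r n : ℕ} (D : ℕ) (m : Fin r → ℕ) (k : Fin n → ℕ) :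
    hPm D m ≤ hPm D (Fin.append m k) + ∑ j, (k j + 1).choose 2 := by
  classical
  have h1 := hTm_drop_set (D := D) (k := Fin.append m k) (T := Set.univ)
    (Finset.univ.map (Fin.natAddEmb r))
  have h2 : (fun i => if i ∈ (Finset.univ.map (Fin.natAddEmb r) : Finset (Fin (r + n))) then 0
      else Fin.append m k i) = Fin.append m (fun _ : Fin n => 0) := by
    funext i
    refine Fin.addCases (fun j => ?_) (fun j => ?_) i
    · rw [Fin.append_left, Fin.append_left, if_neg]
      intro h
      rw [Finset.mem_map] at h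
      obtain ⟨a, -, ha⟩ := h
      have h3 := congrArg Fin.val ha
      have h4 : (Fin.natAddEmb r a : Fin (r + n)).1 = r + a.1 := rfl
      have h5 : (Fin.castAdd n j).1 = j.1 := rfl
      have h6 := j.2
      omega
    · have h3 : Fin.natAdd r j ∈ (Finset.univ.map (Fin.natAddEmb r) : Finset (Fin (r + n))) :=
        Finset.mem_map_of_mem (Fin.natAddEmb r) (Finset.mem_univ j)
      rw [if_pos h3, Fin.append_right]
  rw [h2, Finset.sum_map, ← hPm_eq_hTm, ← hPm_eq_hTm, hPm_append_zero] at h1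
  refine h1.trans (Nat.add_le_add_left (le_of_eq ?_) _)
  refine Finset.sum_congr rfl (fun j _ => ?_)
  have h3 : Fin.append m k (Fin.natAddEmb r j) = k j := Fin.append_right _ _ j
  rw [h3]

theorem onB_append {r n : ℕ} (B : Finset (Fin r)) (m : Fin r → ℕ) (k : Fin n → ℕ) :
    onB (B.map (Fin.castAddEmb n)) (Fin.append m k) =
      Fin.append (onB B m) (fun _ : Fin n => 0) := by
  funext i
  unfold onB
  refine Fin.addCases (fun j => ?_) (fun j => ?_) i
  · rw [Fin.append_left, Fin.append_left]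
    have h : Fin.castAdd n j ∈ B.map (Fin.castAddEmb n) ↔ j ∈ B :=
      Finset.mem_map' (Fin.castAddEmb n)
    by_cases hj : j ∈ B
    · rw [if_pos (h.mpr hj), if_pos hj]
    · rw [if_neg (fun h' => hj (h.mp h')), if_neg hj]
  · have h7 : Fin.natAdd r j ∉ B.map (Fin.castAddEmb n) := by
      intro h
      rw [Finset.mem_map] at h
      obtain ⟨a, -, ha⟩ := h
      have h3 := congrArg Fin.val ha
      have h4 : (Fin.natAdd r j).1 = r + j.1 := rfl
      have h5 : (Fin.castAddEmb n a : Fin (r + n)).1 = a.1 := rfl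
      have h6 := a.2
      omega
    rw [if_neg h7, Fin.append_right]

theorem PRm_append_zero {r : ℕ} (n : ℕ) {m : Fin r → ℕ} (h : PRm m) :
    PRm (Fin.append m (fun _ : Fin n => 0)) := by
  intro D
  rw [hPm_append_zero, h D, sum_append m _ (fun x => (x + 1).choose 2)]
  have : ∑ _j : Fin n, (0 + 1).choose 2 = 0 := Finset.sum_eq_zero (fun _ _ => rfl)
  rw [this]
  rfl

/-! ### numbers -/

theorem fA_mono_left {D D' j : ℕ} (h : D ≤ D') : fA D j ≤ fA D' j := by
  induction j with
  | zero => rfl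
  | succ j ih =>
    rw [fA_succ, fA_succ]
    omega

theorem hadd_crit {u d D N σ : ℕ} (hu : 1 ≤ u) (hd : N + (2 * u + 1) * (d + 1) ≤ (d + 2).choose 2)
    (hD : (D + 1).choose 2 < N + σ) (hσ : σ < fA D (2 * u + 1)) : D ≤ d := by
  by_contra hcon
  push Not at hcon
  obtain ⟨t, rfl⟩ : ∃ t, D = d + 1 + t := ⟨D - (d + 1), by omega⟩
  have h1 := tm_choose d
  have e1 : (d + 2) * (d + 1) = (d + 1) * (d + 2) := by ring
  have hd4 : 4 * u ≤ d := by
    by_contra h2
    have h3 : (d + 2) * (d + 1) < 2 * ((2 * u + 1) * (d + 1)) := by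
      have h4 : (d + 2) * (d + 1) < (4 * u + 2) * (d + 1) :=
        Nat.mul_lt_mul_of_pos_right (by omega) (by omega)
      calc (d + 2) * (d + 1) < (4 * u + 2) * (d + 1) := h4
        _ = 2 * ((2 * u + 1) * (d + 1)) := by ring
    omega
  obtain ⟨s, rfl⟩ : ∃ s, d = 4 * u + s := ⟨d - 4 * u, by omega⟩
  have h2 := fA_choose (D := 4 * u + s + 1 + t) (u := 2 * u + 1) (by omega)
  have e2 : 4 * u + s + 1 + t - (2 * u + 1) + 2 = (2 * u + s + t + 1) + 1 := by omega
  have h3 := tr_two_choose (2 * u + s + t + 1)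
  have h4 : (4 * u + s + 1 + t + 2).choose 2 =
      (4 * u + s + 1 + t + 1) + (4 * u + s + 1 + t + 1).choose 2 := by
    rw [Nat.choose_succ_succ' (4 * u + s + 1 + t + 1) 1, Nat.choose_one_right]
  rw [e2] at h2
  have e3 : (2 * u + s + t + 1) * (2 * u + s + t + 1 + 1) =
      4 * (u * u) + 4 * (u * s) + 4 * (u * t) + 6 * u + s * s + 2 * (s * t) + t * t + 3 * s +
        3 * t + 2 := by ring
  have e4 : (4 * u + s + 2) * (4 * u + s + 1) = 16 * (u * u) + 8 * (u * s) + s * s + 12 * u +
      3 * s + 2 := by ring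
  have e5 : (2 * u + 1) * (4 * u + s + 1) = 8 * (u * u) + 2 * (u * s) + 6 * u + s + 1 := by ring
  rw [e3] at h3
  rw [e4] at h1
  rw [e5] at hd
  have h5 : 1 * u ≤ u * u := Nat.mul_le_mul_right u hu
  have h6 : 1 * t ≤ u * t := Nat.mul_le_mul_right t hu
  omega

/-- **Exact addition.** Let the points in `B` have maximal rank in all degrees, with at least
`(20 (u + 1) ^ 2 + 2).choose 2` conditions, and let the other points have multiplicity at most
`u`. Then the system has the expected dimension in all degrees `d` in which the points in `B`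
leave at least `(2 u + 1) (d + 1)` curves. -/
theorem exact_add {r u d : ℕ} (hu : 1 ≤ u) (B : Finset (Fin r)) (m : Fin r → ℕ)
    (hms : ∀ i, i ∉ B → m i ≤ u) (hB : PRm (onB B m))
    (hNB : (20 * (u + 1) ^ 2 + 2).choose 2 ≤ ∑ i, (onB B m i + 1).choose 2)
    (hd : ∑ i, (onB B m i + 1).choose 2 + (2 * u + 1) * (d + 1) ≤ (d + 2).choose 2) :
    hPm d m = (d + 2).choose 2 - ∑ i, (m i + 1).choose 2 := by
  classical
  have hsum := sum_offP B (fun i => (m i + 1).choose 2)
  have hsB : ∑ i ∈ B, (m i + 1).choose 2 = ∑ i, (onB B m i + 1).choose 2 := (sum_onB B m).symm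
  obtain ⟨N, hN⟩ : ∃ N, N = ∑ i, (onB B m i + 1).choose 2 := ⟨_, rfl⟩
  obtain ⟨T, hT⟩ : ∃ T, T = ∑ i, (m i + 1).choose 2 := ⟨_, rfl⟩
  obtain ⟨σ, hσ⟩ : ∃ σ, σ = ∑ i ∈ offP B, (m i + 1).choose 2 := ⟨_, rfl⟩
  rw [hsB, ← hN, ← hT, ← hσ] at hsum
  rw [← hN] at hd
  have hN1 : 1 ≤ N := by
    have h1 : 1 ≤ (20 * (u + 1) ^ 2 + 2).choose 2 := Nat.choose_pos (by omega)
    omega
  obtain ⟨D, hD1, hD2⟩ := exists_crit (N := T) (by omega)
  rcases Nat.lt_or_ge σ (fA D (2 * u + 1)) with h | h
  · -- few points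
    have hDd : D ≤ d := hadd_crit (N := N) hu hd (by omega) h
    have hσd : σ < fA d (2 * u + 1) := lt_of_lt_of_le h (fA_mono_left hDd)
    have hfA := fA_eq (D := d) (H := 2 * u + 1) (by
      by_contra hcon
      have h1 := tm_choose d
      have h2 : (d + 2) * (d + 1) ≤ (2 * u + 1) * (d + 1) := Nat.mul_le_mul_right _ (by omega)
      have h3 : 0 < (2 * u + 1) * (d + 1) := Nat.mul_pos (by omega) (by omega)
      omega)
    have hc : (u + 1).choose 2 ≤ (2 * u + 1).choose 2 := Nat.choose_le_choose 2 (by omega)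
    have hW1 : 1 ≤ (u + 1).choose 2 := Nat.choose_pos (by omega)
    -- the number of further points
    obtain ⟨W, hW⟩ : ∃ W, W = (u + 1).choose 2 := ⟨_, rfl⟩
    rw [← hW] at hc hW1
    obtain ⟨n, hn1, hn2⟩ : ∃ n, fA d (2 * u + 1) ≤ σ + n * W ∧
        σ + n * W ≤ fA d (2 * u + 1) + W := by
      refine ⟨(fA d (2 * u + 1) - σ) / W + 1, ?_, ?_⟩
      · have h1 := Nat.div_add_mod (fA d (2 * u + 1) - σ) W
        have h2 := Nat.mod_lt (fA d (2 * u + 1) - σ) hW1
        have e1 : ((fA d (2 * u + 1) - σ) / W + 1) * W = W * ((fA d (2 * u + 1) - σ) / W) + W := by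
          ring
        omega
      · have h1 := Nat.div_mul_le_self (fA d (2 * u + 1) - σ) W
        have e1 : ((fA d (2 * u + 1) - σ) / W + 1) * W = (fA d (2 * u + 1) - σ) / W * W + W := by
          ring
        omega
    have hlin : (2 * u + 1) * (d + 1) = fA d (2 * u + 1) + (2 * u + 1).choose 2 := by
      omega
    obtain ⟨mp, hmp⟩ : ∃ mp : Fin (r + n) → ℕ, mp = Fin.append m (fun _ : Fin n => u) := ⟨_, rfl⟩
    obtain ⟨Bp, hBp⟩ : ∃ Bp : Finset (Fin (r + n)), Bp = B.map (Fin.castAddEmb n) := ⟨_, rfl⟩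
    have hon : onB Bp mp = Fin.append (onB B m) (fun _ : Fin n => 0) := by
      rw [hBp, hmp]
      exact onB_append B m _
    have hz : ∑ _j : Fin n, (0 + 1).choose 2 = 0 := Finset.sum_eq_zero (fun _ _ => rfl)
    have hNp : ∑ i, (onB Bp mp i + 1).choose 2 = N := by
      rw [hon, sum_append (onB B m) _ (fun x => (x + 1).choose 2), hz, Nat.add_zero, hN]
    have hTp : ∑ i, (mp i + 1).choose 2 = T + n * W := by
      rw [hmp, sum_append m _ (fun x => (x + 1).choose 2), ← hT, hW]
      congr 1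
      rw [Finset.sum_const, Finset.card_univ, Fintype.card_fin, smul_eq_mul]
    have hsump := sum_offP Bp (fun i => (mp i + 1).choose 2)
    have hsBp : ∑ i ∈ Bp, (mp i + 1).choose 2 = ∑ i, (onB Bp mp i + 1).choose 2 :=
      (sum_onB Bp mp).symm
    rw [hsBp, hNp, hTp] at hsump
    have hPR : PRm mp := by
      refine exact_ind (r := r + n) hu Bp mp (fun i => ?_) ?_ (by rw [hNp, hN]; exact hNB)
        _ mp (fun _ _ => rfl) (fun _ => le_rfl) le_rfl (fun D' hD1' hD2' => ?_)
      · rw [hmp, hBp]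
        refine Fin.addCases (fun j hj => ?_) (fun j _ => ?_) i
        · rw [Fin.append_left]
          refine hms j (fun hjB => hj ?_)
          exact Finset.mem_map_of_mem (Fin.castAddEmb n) hjB
        · rw [Fin.append_right]
      · rw [hon]
        exact PRm_append_zero n hB
      · right
        left
        rw [hTp] at hD1' hD2'
        have hD' : D' ≤ d := by
          by_contra hcon
          have h1 : (d + 2).choose 2 ≤ (D' + 1).choose 2 := Nat.choose_le_choose 2 (by omega)
          omega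
        have h2 : fA D' (2 * u + 1) ≤ fA d (2 * u + 1) := fA_mono_left hD'
        omega
    have h1 := hPR d
    have h2 := hPm_append_le d m (fun _ : Fin n => u)
    rw [← hmp] at h2
    have h3 : ∑ _j : Fin n, (u + 1).choose 2 = n * W := by
      rw [Finset.sum_const, Finset.card_univ, Fintype.card_fin, smul_eq_mul, hW]
    rw [h3] at h2
    rw [hTp] at h1
    have h4 := hPm_count d m
    rw [← hT] at h4 ⊢
    omega
  · -- many points
    have hPR : PRm m := by
      refine exact_ind hu B m hms hB hNB _ m (fun _ _ => rfl) (fun _ => le_rfl) le_rfl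
        (fun D' hD1' hD2' => ?_)
      rw [← hT] at hD1' hD2'
      rw [← hσ]
      have hDD : D' = D := by
        by_contra hcon
        rcases Nat.lt_or_ge D' D with h1 | h1
        · have h2 : (D' + 2).choose 2 ≤ (D + 1).choose 2 := Nat.choose_le_choose 2 (by omega)
          omega
        · have h2 : (D + 2).choose 2 ≤ (D' + 1).choose 2 := Nat.choose_le_choose 2 (by omega)
          omega
      rw [hDD]
      exact Or.inr (Or.inl h)
    exact hPR d

end Pool.Agent.Work.MP_0421d9_ag.LD
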