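import Pool.Agent.Work.MP_0421d9_ag.HExact
import Pool.Agent.Work.MP_0421d9_ag.TMas

/-!
Exact addition of points of small multiplicity: the induction.
-/

namespace Pool.Agent.Work.MP_0421d9_ag.LD

open MvPolynomial Module

/-- the margin -/
def gg (u : ℕ) : ℕ := (2 * u + 3).choose 2 + 3

/-- the number of conditions allows strips -/
def HOK (u D σ : ℕ) : Prop :=
  fA D (2 * u + 1) ≤ σ ∨ ∃ κ A, u ≤ κ ∧ κ ≤ 2 * u ∧ σ = fA D κ + A ∧ gg u ≤ A ∧
    A + gg u ≤ D - κ + 1

theorem gg_eq (u : ℕ) : gg u = 2 * (u * u) + 5 * u + 6 := by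
  have h := tr_two_choose (2 * u + 2)
  have e1 : (2 * u + 2) * (2 * u + 2 + 1) = 2 * (2 * (u * u) + 5 * u + 3) := by ring
  have e2 : 2 * u + 2 + 1 = 2 * u + 3 := by omega
  rw [e1, e2] at h
  unfold gg
  omega

/-- the first rows of a slightly smaller degree -/
theorem fA_pred {E j : ℕ} (hE : 1 ≤ E) (hj : j ≤ E + 1) : fA E j = fA (E - 1) j + j := by
  obtain ⟨e, rfl⟩ : ∃ e, E = e + 1 := ⟨E - 1, by omega⟩
  rw [Nat.add_sub_cancel]
  exact fA_succ_left (by omega)

theorem hx_ok {u D E K j A₀ A₁ σ' D' : ℕ} (hu : 1 ≤ u) (hD : 20 * (u + 1) ^ 2 ≤ D)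
    (hE : E + u = D) (hj : j + u = K) (hK : 2 * u + 1 ≤ K) (hKD : K ≤ D) (hA₀ : A₀ + K < D + 1)
    (hσ' : σ' + A₁ = fA E j + A₀) (hD' : D' = E ∨ D' = E - 1)
    (hA : (3 * u + 3 ≤ K ∧ A₁ + 2 * u ≤ E) ∨
      (K ≤ 3 * u + 2 ∧ gg u + 2 * u + 4 ≤ A₁ ∧ A₁ + gg u ≤ A₀) ∨
      (K ≤ 3 * u + 2 ∧ A₀ + gg u + 2 * u + 2 ≤ A₁ ∧ A₁ + gg u + K ≤ D)) : HOK u D' σ' := by
  have hg := gg_eq u
  have e0 : (u + 1) ^ 2 = u * u + 2 * u + 1 := by ring
  have huu : 1 * u ≤ u * u := Nat.mul_le_mul_right u hu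
  rcases hA with ⟨hA1, hA2⟩ | ⟨hA1, hA2, hA3⟩ | ⟨hA1, hA2, hA3⟩
  · -- many rows
    left
    have h1 : fA E (2 * u + 2) ≤ fA E j := fA_mono (by omega)
    have h2 := fA_succ E (2 * u + 1)
    have e1 : 2 * u + 1 + 1 = 2 * u + 2 := by omega
    rw [e1] at h2
    rcases hD' with rfl | rfl
    · omega
    · have h3 := fA_pred (E := E) (j := 2 * u + 1) (by omega) (by omega)
      omega
  · rcases Nat.lt_or_ge j (2 * u + 1) with hj1 | hj1
    · right
      refine ⟨j, ?_⟩
      rcases hD' with rfl | rfl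
      · exact ⟨A₀ - A₁, by omega, by omega, by omega, by omega, by omega⟩
      · have h3 := fA_pred (E := E) (j := j) (by omega) (by omega)
        exact ⟨A₀ - A₁ + j, by omega, by omega, by omega, by omega, by omega⟩
    · left
      have h1 : fA E (2 * u + 1) ≤ fA E j := fA_mono hj1
      rcases hD' with rfl | rfl
      · omega
      · have h3 := fA_pred (E := E) (j := 2 * u + 1) (by omega) (by omega)
        omega
  · obtain ⟨i, rfl⟩ : ∃ i, j = i + 1 := ⟨j - 1, by omega⟩
    rw [fA_succ] at hσ'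
    rcases Nat.lt_or_ge i (2 * u + 1) with hj1 | hj1
    · right
      refine ⟨i, ?_⟩
      rcases hD' with rfl | rfl
      · exact ⟨D' + 1 - i + A₀ - A₁, by omega, by omega, by omega, by omega, by omega⟩
      · have h3 := fA_pred (E := E) (j := i) (by omega) (by omega)
        exact ⟨E + 1 - i + A₀ - A₁ + i, by omega, by omega, by omega, by omega, by omega⟩
    · left
      have h1 : fA E (2 * u + 1) ≤ fA E i := fA_mono hj1
      rcases hD' with rfl | rfl
      · omega
      · have h3 := fA_pred (E := E) (j := 2 * u + 1) (by omega) (by omega)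
        omega

/-- the number of conditions in the first strip -/
theorem hx_choice {u D K A₀ : ℕ} (hu : 1 ≤ u) (hD : 20 * (u + 1) ^ 2 ≤ D)
    (hKD : K ≤ D) (hA₀ : A₀ + K < D + 1) :
    ∃ A, gg u ≤ A ∧ A + (u + 1).choose 2 + u.choose 2 + 3 * u + 3 ≤ D ∧
      ∀ A₁, A ≤ A₁ → A₁ ≤ A + (u + 1).choose 2 →
        (3 * u + 3 ≤ K ∧ A₁ + 2 * u + u ≤ D) ∨
        (K ≤ 3 * u + 2 ∧ gg u + 2 * u + 4 ≤ A₁ ∧ A₁ + gg u ≤ A₀) ∨
        (K ≤ 3 * u + 2 ∧ A₀ + gg u + 2 * u + 2 ≤ A₁ ∧ A₁ + gg u + K ≤ D) := by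
  have hg := gg_eq u
  have e0 : (u + 1) ^ 2 = u * u + 2 * u + 1 := by ring
  have huu : 1 * u ≤ u * u := Nat.mul_le_mul_right u hu
  have hc2 : 2 * (u + 1).choose 2 = u * (u + 1) := tr_two_choose u
  have e2 : u * (u + 1) = u * u + u := by ring
  have hc1 : (u + 1).choose 2 = u + u.choose 2 := by
    rw [Nat.choose_succ_succ' u 1, Nat.choose_one_right]
  by_cases hcase : 3 * u + 3 ≤ K ∨ 2 * gg u + 2 * u + 4 + (u + 1).choose 2 ≤ A₀
  · refine ⟨gg u + 2 * u + 4, by omega, by omega, fun A₁ h1 h2 => ?_⟩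
    rcases Nat.lt_or_ge K (3 * u + 3) with h3 | h3
    · right
      left
      omega
    · left
      omega
  · push Not at hcase
    refine ⟨2 * gg u + 2 * u + 4 + (u + 1).choose 2 + gg u + 2 * u + 2, by omega, by omega,
      fun A₁ h1 h2 => ?_⟩
    right
    right
    omega

/-- **Exact addition.** -/
theorem exact_ind {r u : ℕ} (hu : 1 ≤ u) (B : Finset (Fin r)) (m : Fin r → ℕ)
    (hms : ∀ i, i ∉ B → m i ≤ u) (hB : PRm (onB B m))
    (hNB : (20 * (u + 1) ^ 2 + 2).choose 2 ≤ ∑ i, (onB B m i + 1).choose 2) :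
    ∀ (n : ℕ) (y : Fin r → ℕ), (∀ i ∈ B, y i = m i) → (∀ i, y i ≤ m i) →
      ∑ i ∈ offP B, (y i + 1).choose 2 ≤ n →
      (∀ D, (D + 1).choose 2 < ∑ i, (y i + 1).choose 2 →
        ∑ i, (y i + 1).choose 2 ≤ (D + 2).choose 2 →
        ∑ i ∈ offP B, (y i + 1).choose 2 = 0 ∨ HOK u D (∑ i ∈ offP B, (y i + 1).choose 2)) →
      PRm y := by
  classical
  intro n
  induction n using Nat.strong_induction_on with
  | _ n ih =>
  intro y hyB hym hn hok
  have hyu : ∀ i, i ∉ B → y i ≤ u := fun i hi => (hym i).trans (hms i hi)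
  have hsum := sum_offP B (fun i => (y i + 1).choose 2)
  have hsB : ∑ i ∈ B, (y i + 1).choose 2 = ∑ i, (onB B m i + 1).choose 2 := by
    rw [← sum_onB, onB_congr hyB]
  obtain ⟨N, hN⟩ : ∃ N, N = ∑ i, (onB B m i + 1).choose 2 := ⟨_, rfl⟩
  obtain ⟨Ty, hT⟩ : ∃ Ty, Ty = ∑ i, (y i + 1).choose 2 := ⟨_, rfl⟩
  obtain ⟨σ, hσ⟩ : ∃ σ, σ = ∑ i ∈ offP B, (y i + 1).choose 2 := ⟨_, rfl⟩
  rw [hsB, ← hN, ← hT, ← hσ] at hsum
  rw [← hN] at hNB
  have hT1 : 1 ≤ Ty := by
    have h1 : 1 ≤ (20 * (u + 1) ^ 2 + 2).choose 2 := Nat.choose_pos (by omega)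
    omega
  have hN1 : 1 ≤ N := by
    have h1 : 1 ≤ (20 * (u + 1) ^ 2 + 2).choose 2 := Nat.choose_pos (by omega)
    omega
  obtain ⟨D, hD1, hD2⟩ := exists_crit hT1
  have hD : 20 * (u + 1) ^ 2 ≤ D := by
    by_contra hcon
    have h1 : (D + 2).choose 2 < (20 * (u + 1) ^ 2 + 2).choose 2 := by
      have h2 : (D + 3).choose 2 ≤ (20 * (u + 1) ^ 2 + 2).choose 2 :=
        Nat.choose_le_choose 2 (by omega)
      have h3 : (D + 3).choose 2 = (D + 2) + (D + 2).choose 2 := by
        rw [Nat.choose_succ_succ' (D + 2) 1, Nat.choose_one_right]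
      omega
    omega
  have h0 : u + 1 ≤ (u + 1) ^ 2 := by nlinarith
  rcases hok D (by rw [← hT]; exact hD1) (by rw [← hT]; exact hD2) with h | h
  · -- no further points
    have hy : y = onB B m := by
      funext i
      unfold onB
      split_ifs with hi
      · exact hyB i hi
      · have h1 : (y i + 1).choose 2 ≤ ∑ i ∈ offP B, (y i + 1).choose 2 :=
          Finset.single_le_sum (f := fun l => (y l + 1).choose 2) (fun l _ => Nat.zero_le _)
            (Finset.mem_filter.mpr ⟨Finset.mem_univ i, hi⟩)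
        by_contra hne
        have h2 : (2 : ℕ).choose 2 ≤ (y i + 1).choose 2 := Nat.choose_le_choose 2 (by omega)
        have h3 : (2 : ℕ).choose 2 = 1 := rfl
        omega
    rw [hy]
    exact hB
  rw [← hσ] at h
  have hg := gg_eq u
  have e0 : (u + 1) ^ 2 = u * u + 2 * u + 1 := by ring
  have huu : 1 * u ≤ u * u := Nat.mul_le_mul_right u hu
  rcases Nat.lt_or_ge σ (fA D (2 * u + 1)) with hlt | hge
  · -- one strip
    rcases h with h | ⟨κ, A, h1, h2, h3, h4, h5⟩
    · omega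
    have hκc : κ.choose 2 ≤ (2 * u).choose 2 := Nat.choose_le_choose 2 h2
    have hκc' : (κ - 1).choose 2 ≤ κ.choose 2 := Nat.choose_le_choose 2 (Nat.sub_le _ _)
    have hc3 : 2 * (2 * u + 1).choose 2 = 2 * u * (2 * u + 1) := tr_two_choose (2 * u)
    have hc4 : (2 * u + 1).choose 2 = 2 * u + (2 * u).choose 2 := by
      rw [Nat.choose_succ_succ' (2 * u) 1, Nat.choose_one_right]
    have e3 : 2 * u * (2 * u + 1) = 4 * (u * u) + 2 * u := by ring
    have hs1 := strip_of_finset (D := D) (A := A) (y := y) (offP B) (κ := κ) (by omega) (by omega)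
      (fun i hi => (hyu i (Finset.mem_filter.mp hi).2).trans h1) (by rw [← hσ, h3])
      (by omega) (by omega)
    have hfp := fA_pred (E := D) (j := κ) (by omega) (by omega)
    have hs2 := strip_of_finset (D := D - 1) (A := A + κ) (y := y) (offP B) (κ := κ) (by omega)
      (by omega) (fun i hi => (hyu i (Finset.mem_filter.mp hi).2).trans h1)
      (by rw [← hσ, h3, hfp]; omega) (by omega) (by omega)
    have hoff : offF (offP B) y = onB B m := by
      funext i
      unfold offF onB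
      by_cases hi : i ∈ B
      · have hi' : i ∉ offP B := fun h => (Finset.mem_filter.mp h).2 hi
        rw [if_neg hi', if_pos hi]
        exact hyB i hi
      · have hi' : i ∈ offP B := Finset.mem_filter.mpr ⟨Finset.mem_univ i, hi⟩
        rw [if_pos hi', if_neg hi]
    rw [hoff] at hs1 hs2
    exact PRm_of_crit (by rw [← hT]; exact hD1) (by rw [← hT]; exact hD2)
      (exact_of_strip hB hs1) (exact_of_strip hB hs2)
  · -- many points
    have htot := fA_total D
    obtain ⟨K, A₀, hKD, hσ0, hA₀⟩ := fA_position (D := D) (σ := σ) (by omega)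
    have hK : 2 * u + 1 ≤ K := by
      by_contra hcon
      have h1 : fA D (K + 1) ≤ fA D (2 * u + 1) := fA_mono (by omega)
      rw [fA_succ] at h1
      omega
    obtain ⟨A, hA1, hA2, hA3⟩ := hx_choice (K := K) (A₀ := A₀) hu hD hKD (by omega)
    have hc1 : (u + 1).choose 2 = u + u.choose 2 := by
      rw [Nat.choose_succ_succ' u 1, Nat.choose_one_right]
    have hW : ∀ i ∈ offP B, (y i + 1).choose 2 ≤ (u + 1).choose 2 := fun i hi =>
      Nat.choose_le_choose 2 (Nat.succ_le_succ (hyu i (Finset.mem_filter.mp hi).2))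
    have hfit : fA D u + A ≤ σ := by
      have h1 : fA D (u + 1) ≤ fA D K := fA_mono (by omega)
      rw [fA_succ] at h1
      omega
    obtain ⟨P, hP, hP1, hP2⟩ := greedy (T := fA D u + A) (offP B) hW (by rw [← hσ]; exact hfit)
    obtain ⟨A₁, hA₁⟩ : ∃ A₁, ∑ i ∈ P, (y i + 1).choose 2 = fA D u + A₁ :=
      ⟨∑ i ∈ P, (y i + 1).choose 2 - fA D u, by omega⟩
    rw [hA₁] at hP1 hP2
    have hPu : ∀ i ∈ P, y i ≤ u := fun i hi => hyu i (Finset.mem_filter.mp (hP hi)).2
    have hc5 : (u - 1).choose 2 ≤ u.choose 2 := Nat.choose_le_choose 2 (Nat.sub_le _ _)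
    have hc6 : 2 * (u + 1).choose 2 = u * (u + 1) := tr_two_choose u
    have e2 : u * (u + 1) = u * u + u := by ring
    have hs1 := strip_of_finset (D := D) (A := A₁) (y := y) P (κ := u) hu (by omega)
      hPu hA₁ (by omega) (by omega)
    have hfp := fA_pred (E := D) (j := u) (by omega) (by omega)
    have hs2 := strip_of_finset (D := D - 1) (A := A₁ + u) (y := y) P (κ := u) hu
      (by omega) hPu (by rw [hA₁, hfp]; omega) (by omega) (by omega)
    -- the remaining points
    have hsum' := sum_offF P y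
    rw [hA₁, ← hT] at hsum'
    have hyB' : ∀ i ∈ B, offF P y i = m i := by
      intro i hi
      unfold offF
      rw [if_neg (fun h => (Finset.mem_filter.mp (hP h)).2 hi)]
      exact hyB i hi
    have hym' : ∀ i, offF P y i ≤ m i := by
      intro i
      unfold offF
      split_ifs
      · exact Nat.zero_le _
      · exact hym i
    have hsumB' := sum_offP B (fun i => (offF P y i + 1).choose 2)
    have hsB' : ∑ i ∈ B, (offF P y i + 1).choose 2 = N := by
      rw [hN, ← hsB]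
      exact Finset.sum_congr rfl (fun i hi => by rw [hyB' i hi, hyB i hi])
    rw [hsB'] at hsumB'
    obtain ⟨σ', hσ'⟩ : ∃ σ', σ' = ∑ i ∈ offP B, (offF P y i + 1).choose 2 := ⟨_, rfl⟩
    obtain ⟨T', hT'⟩ : ∃ T', T' = ∑ i, (offF P y i + 1).choose 2 := ⟨_, rfl⟩
    rw [← hT', ← hσ'] at hsumB'
    rw [← hT'] at hsum'
    have hfc := fA_choose (D := D) (u := u) (by omega)
    have hsplit := fA_split (D := D) (u := u) (j := K - u) (by omega)
    have e4 : u + (K - u) = K := by omega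
    rw [e4] at hsplit
    have hy' : PRm (offF P y) := by
      refine ih σ' (by omega) (offF P y) hyB' hym' (by rw [← hσ']) ?_
      intro D' hD1' hD2'
      rw [← hT'] at hD1' hD2'
      rw [← hσ']
      right
      -- the critical degree
      have hE : D' = D - u ∨ D' = D - u - 1 := by
        have k1 : (D - u + 2).choose 2 = (D - u + 1) + (D - u + 1).choose 2 := by
          rw [Nat.choose_succ_succ' (D - u + 1) 1, Nat.choose_one_right]
        have k2 : (D - u + 1).choose 2 = (D - u) + (D - u).choose 2 := by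
          rw [Nat.choose_succ_succ' (D - u) 1, Nat.choose_one_right]
        have k3 : (D + 2).choose 2 = (D + 1) + (D + 1).choose 2 := by
          rw [Nat.choose_succ_succ' (D + 1) 1, Nat.choose_one_right]
        by_contra hcon
        push Not at hcon
        rcases Nat.lt_or_ge D' (D - u) with h1 | h1
        · have h2 : (D' + 2).choose 2 ≤ (D - u).choose 2 := Nat.choose_le_choose 2 (by omega)
          omega
        · have h2 : (D - u + 2).choose 2 ≤ (D' + 1).choose 2 := Nat.choose_le_choose 2 (by omega)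
          omega
      refine hx_ok (D := D) (E := D - u) (K := K) (j := K - u) (A₀ := A₀) (A₁ := A₁) hu hD
        (by omega) (by omega) hK hKD (by omega) (by omega) hE ?_
      have h3 := hA3 A₁ (by omega) (by omega)
      omega
    exact PRm_of_crit (by rw [← hT]; exact hD1) (by rw [← hT]; exact hD2)
      (exact_of_strip hy' hs1) (exact_of_strip hy' hs2)

end Pool.Agent.Work.MP_0421d9_ag.LD
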