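import Pool.Agent.Work.MP_0421d9_ag.WSmooth

/-!
Planar linear systems with `r` general base points of the same multiplicity `m`. For every `A` and
all sufficiently large `r`, all of them (in all degrees `d`) are nonspecial, except possibly if
`m > r ^ A` and `|d / m - √r| < r ^ (-A)`, and the general member of a nonempty system is reduced
and smooth on the blow-up (if `m ≤ r ^ (A + 3)`, except possibly in the degree in which the space
of the equations has a dimension between `1` and `m`).

Idea of the proof. For `m ≤ r ^ A`: strips of `κ` rows of the triangle of monomials are filled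
exactly by `2 t + 1` points, so that both residual systems have the expected dimension; a chain of
such strips leads from `r` points to a square number of points, for which all degrees are treated
by strips of `m` rows. That a strip is exact is a statement on `P¹ × P¹` for points of much smaller
multiplicity `k`, after elementary transformations at the points. On `P¹ × P¹` one proceeds by
induction on the exponent: rectangles `H × L` with `L ≥ C k ^ (1 + θ)` are cut into strips of height
close to `(1 + a / n) k`, which are treated by further elementary transformations (the Euclidean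
algorithm for `a` and `n`) and by the case of the exponent `1 + θ` for points of multiplicity about
`k ^ (1 / (1 + θ))`. The same chain of strips is used with one of the points of multiplicity
`m + 1`: in a strip of `m` rows the line through this point splits off. Hence the system cuts out a
complete linear series on each exceptional curve if it has dimension greater than `m`, and this
implies the smoothness of the general member.

For `m > r ^ A`: if points of multiplicity `μ` impose independent conditions in degree `e`, then,
by multiplication of the jets of forms, points of multiplicity `t μ` impose independent conditions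
in degree `t (e + 1) - 1`; and a curve of degree `d` with multiplicities `m` and with
`d (e + 1) < r m μ` would lead to too many curves of degree `t (e + 1) - 1` with multiplicities
`t μ`. This is applied to `μ` about `r ^ (A + 1)` and the smallest possible `e`.
-/

namespace Pool.Agent.Work.MP_0421d9_ag.HomRes

open MvPolynomial Module Pool.Agent.Work.MP_0421d9_ag

/-- For every `A > 0` there is a constant `R` with the following properties. Let `p i`, `i < r`, be
generic points of the plane and let `L` be the system of the plane curves of degree `d` with
multiplicity at least `m` at all of the points `p i`.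

* If `r ≥ 400 m`, or if `r ≥ R` and `m ≤ r ^ A`, or if `r ≥ R` and `|d - m √r| ≥ m r ^ (-A)`, then
  `L` is nonspecial: the space of its equations has the dimension
  `(d + 2).choose 2 - r * (m + 1).choose 2`, or `0` if this number is negative.
* If `r ≥ 60000 m`, or if `r ≥ R` and `m ≤ r ^ A`, or if `r ≥ R` and `|d - m √r| ≥ m r ^ (-A)`, and
  if `L` is nonempty, and if `m ≤ 1`, or the space of the equations has dimension greater than `m`,
  or `d ≥ 3 (m + 2) ^ 2 + m`, or `m > r ^ (A + 3)`, then `L` has a reduced member, and its general
  member is a smooth curve on the blow-up, which meets all the exceptional curves transversally.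
  More precisely, this holds for all the members through `dim L` further generic points. -/
theorem result {A : ℝ} (hA : 0 < A) : ∃ R : ℝ, ∀ m r d : ℕ,
    ∀ p : Fin r → Fin 3 → ℂ, GenericPoints p →
    ((400 * m ≤ r ∨ (R ≤ r ∧ ((m : ℝ) ≤ (r : ℝ) ^ A ∨
        (m : ℝ) ≤ (r : ℝ) ^ A * |(d : ℝ) - √r * m|))) →
      finrank ℂ (linSys d p (fun _ => m)) = (d + 2).choose 2 - r * (m + 1).choose 2) ∧
    ((60000 * m ≤ r ∨ (R ≤ r ∧ ((m : ℝ) ≤ (r : ℝ) ^ A ∨
        (m : ℝ) ≤ (r : ℝ) ^ A * |(d : ℝ) - √r * m|))) →
      linSys d p (fun _ => m) ≠ ⊥ →
      (m ≤ 1 ∨ m < finrank ℂ (linSys d p (fun _ => m)) ∨ 3 * (m + 2) ^ 2 + m ≤ d ∨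
        (r : ℝ) ^ (A + 3) < m) →
      (∃ F ∈ linSys d p (fun _ => m), Squarefree F) ∧
      (∀ s : Fin (finrank ℂ (linSys d p (fun _ => m)) - 1) → Fin 3 → ℂ,
        GenericPoints (Sum.elim p s) → ∀ F ∈ linSys d p (fun _ => m), F ≠ 0 →
          (∀ k, eval (s k) F = 0) → SmoothOnBlowup p (fun _ => m) F) ∧
      (∃ F ∈ linSys d p (fun _ => m), F ≠ 0 ∧ SmoothOnBlowup p (fun _ => m) F)) := by
  obtain ⟨R, hR⟩ := window_smooth hA
  refine ⟨R, fun m r d p hp => ⟨?_, ?_⟩⟩
  · rintro (h | ⟨h1, h2⟩)
    · exact LD.uniform_main h hp
    · exact (hR m r d h1 h2 p hp).1
  · rintro (h | ⟨h1, h2⟩) hne hlarge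
    · refine homogeneous_smooth' hp (fun hm => ?_) (LD.uniform_main (by omega) hp) hne ?_
      · obtain ⟨r', rfl⟩ : ∃ r', r = r' + 1 := ⟨r - 1, by omega⟩
        exact ⟨r', rfl, LD.PX_of_many hm h⟩
      · rcases hlarge with h3 | h3 | h3 | h3
        · exact Or.inl h3
        · exact Or.inr (Or.inl h3)
        · exact Or.inr (Or.inr h3)
        · refine Or.inl ?_
          by_contra hm
          have hr1 : 1 ≤ r := by omega
          have h4 : (1 : ℝ) ≤ r := by exact_mod_cast hr1
          have h5 : (r : ℝ) ^ (1 : ℝ) ≤ (r : ℝ) ^ (A + 3) :=
            Real.rpow_le_rpow_of_exponent_le h4 (by linarith)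
          rw [Real.rpow_one] at h5
          have h6 : (m : ℝ) ≤ r := by
            have : m ≤ r := by omega
            exact_mod_cast this
          linarith
    · exact (hR m r d h1 h2 p hp).2 hne hlarge

end Pool.Agent.Work.MP_0421d9_ag.HomRes
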