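import Pool.Agent.Work.MP_0421d9_ag.Numerics

/-!
Rigid systems: the unique member through generic simple points controls the whole system.
-/

set_option linter.unusedSectionVars false

namespace Pool.Agent.Work.MP_0421d9_ag

open MvPolynomial

theorem lin_prime {v : V3} (hv : v ≠ 0) : Prime (lin v) := by
  apply Irreducible.prime
  obtain ⟨i, hi⟩ : ∃ i, v i ≠ 0 := by
    by_contra hcon
    push Not at hcon
    exact hv (funext hcon)
  apply irreducible_of_totalDegree_eq_one
  · apply le_antisymm (lin_isHomogeneous v).totalDegree_le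
    have h1 : coeff (Finsupp.single i 1) (lin v) ≠ 0 := by
      rw [coeff_lin]; exact hi
    have := le_totalDegree (mem_support_iff.mpr h1)
    simpa using this
  · intro x hx
    have h1 := hx (Finsupp.single i 1)
    rw [coeff_lin] at h1
    exact isUnit_of_dvd_unit h1 (IsUnit.mk0 _ hi)

theorem lin_dvd_lin {p v : V3} (h : lin p ∣ lin v) : cr p v = 0 := by
  by_cases hv : v = 0
  · rw [hv]
    ext l
    fin_cases l <;> simp [cr]
  obtain ⟨e, g, hd, hg, hvg⟩ := exists_factor (lin_isHomogeneous v)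
    (fun h' => hv (lin_eq_zero.mp h')) h
  have he : e = 0 := by omega
  subst he
  have h0 : g = C (coeff 0 g) :=
    (MvPolynomial.totalDegree_eq_zero_iff_eq_C).mp (Nat.le_zero.mp hg.totalDegree_le)
  have h1 : v = (coeff 0 g) • p := by
    apply lin_injective
    rw [lin_smul, hvg, mul_comm, ← h0]
  rw [h1]
  exact cr_smul_self _ _

theorem lin_dvd_of_mul {p v : V3} (hp : p ≠ 0) (hcr : cr p v ≠ 0) {G : R3}
    (h : lin p ∣ lin v * G) : lin p ∣ G := by
  rcases (lin_prime hp).dvd_or_dvd h with h1 | h1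
  · exact absurd (lin_dvd_lin h1) hcr
  · exact h1

theorem eq_lin_of_isHomogeneous {G : R3} (hG : G.IsHomogeneous 1) : ∃ w, G = lin w := by
  refine ⟨fun k => coeff 0 (pderiv k G), ?_⟩
  have h1 := isHomogeneous_succ_sum (n := 0) hG
  rw [zero_add, Nat.cast_one, C_1, one_mul] at h1
  rw [h1]
  unfold lin
  refine Finset.sum_congr rfl (fun k _ => ?_)
  have h2 : (pderiv k G).IsHomogeneous 0 := hG.pderiv
  have h0 : pderiv k G = C (coeff 0 (pderiv k G)) :=
    (MvPolynomial.totalDegree_eq_zero_iff_eq_C).mp (Nat.le_zero.mp h2.totalDegree_le)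
  rw [← h1, mul_comm, ← h0]

theorem exists_lin_factorization {p : V3} : ∀ (n : ℕ) (G : R3),
    G.IsHomogeneous n → G ≠ 0 → ∃ (s e : ℕ) (G' : R3), n = s + e ∧ G = lin p ^ s * G' ∧
      G'.IsHomogeneous e ∧ ¬ lin p ∣ G' := by
  intro n
  induction n with
  | zero =>
    intro G hG hG0
    by_cases h : lin p ∣ G
    · obtain ⟨e, g, hd, -, -⟩ := exists_factor hG hG0 h
      omega
    · exact ⟨0, 0, G, rfl, by rw [pow_zero, one_mul], hG, h⟩
  | succ n ih =>
    intro G hG hG0
    by_cases h : lin p ∣ G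
    · obtain ⟨e, g, hd, hg, hGg⟩ := exists_factor hG hG0 h
      have he : e = n := by omega
      subst he
      have hg0 : g ≠ 0 := by
        rintro rfl
        exact hG0 (by rw [hGg, mul_zero])
      obtain ⟨s, e', G', h1, h2, h3, h4⟩ := ih g hg hg0
      exact ⟨s + 1, e', G', by omega, by rw [hGg, h2, pow_succ']; ring, h3, h4⟩
    · exact ⟨0, n + 1, G, by omega, by rw [pow_zero, one_mul], hG, h⟩

theorem vanishTo_one_iff {f : R3} {a : V3} : VanishTo f a 1 ↔ eval a f = 0 := by
  have h1 : homogeneousComponent 0 (translate a f) = C (eval a f) := by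
    rw [homogeneousComponent_zero]
    have h2 := eval_translate a 0 f
    rw [add_zero, eval_zero, constantCoeff_eq] at h2
    rw [h2]
  constructor
  · intro h
    have h2 := h 0 one_pos
    rw [h1] at h2
    exact C_eq_zero.mp h2
  · intro h k hk
    have hk0 : k = 0 := by omega
    rw [hk0, h1, h, C_0]

variable {ι κ : Type} [Fintype ι] [Fintype κ] [DecidableEq ι] [DecidableEq κ]

/-- A rigid configuration: `F` is, up to scaling, the only form of degree `d` with multiplicities
`m i` at the points `P (inl i)` passing through the points `P (inr k)`. -/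
structure Rigid (d : ℕ) (P : ι ⊕ κ → V3) (E : ι ⊕ κ → Fin 3 → Derivation ℚ ℂ ℂ) (m : ι → ℕ)
    (F : R3) : Prop where
  hE : IsDual P E
  hF : F ∈ linSys d P (Sum.elim m fun _ => 1)
  hF0 : F ≠ 0
  huniq : ∀ f ∈ linSys d P (Sum.elim m fun _ => 1), ∃ c : ℂ, f = C c * F

namespace Rigid

variable {d : ℕ} {P : ι ⊕ κ → V3} {E : ι ⊕ κ → Fin 3 → Derivation ℚ ℂ ℂ} {m : ι → ℕ} {F : R3}

theorem hom (S : Rigid d P E m F) : F.IsHomogeneous d := S.hF.1

theorem hM (S : Rigid d P E m F) (x : ι ⊕ κ) : (Sum.elim m (fun _ => 1) : ι ⊕ κ → ℕ) x ≤ d :=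
  le_of_vanishTo S.hom S.hF0 (S.hF.2 x)

theorem hm (S : Rigid d P E m F) (i : ι) : m i ≤ d := S.hM (Sum.inl i)

theorem hm' (S : Rigid d P E m F) (i : ι) : m i ≤ d + 1 := (S.hm i).trans (Nat.le_succ d)

theorem vanish (S : Rigid d P E m F) (i : ι) : VanishTo F (P (Sum.inl i)) (m i) :=
  S.hF.2 (Sum.inl i)

theorem eval_simple (S : Rigid d P E m F) (k : κ) : eval (P (Sum.inr k)) F = 0 :=
  vanishTo_one_iff.mp (S.hF.2 (Sum.inr k))

theorem memV (S : Rigid d P E m F) : F ∈ linSys d (fun i => P (Sum.inl i)) m :=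
  ⟨S.hom, S.vanish⟩

/-- stability of the system under the derivations moving only the simple points -/
theorem stable (S : Rigid d P E m F) {f : R3} (hf : f ∈ linSys d (fun i => P (Sum.inl i)) m)
    (k : κ) (v : V3) : cD (mv E (Sum.inr k) v) f ∈ linSys d (fun i => P (Sum.inl i)) m := by
  apply linSys_cD_mem S.hm' hf
  intro i
  left
  intro l
  exact mv_ne S.hE (by simp) v l

theorem exists_move (S : Rigid d P E m F) (k : κ) :
    ∃ v : V3, eval (P (Sum.inr k)) (cD (mv E (Sum.inr k) v) F) ≠ 0 := by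
  by_contra hcon
  push Not at hcon
  have hd : 1 ≤ d := S.hM (Sum.inr k)
  apply not_vanishTo_succ S.hE S.hM S.hF S.hF0 S.huniq (Sum.inr k)
  change VanishTo F (P (Sum.inr k)) (1 + 1)
  rw [vanishTo_iff S.hom _ (by omega)]
  intro G hG
  rw [mem_Hm_succ] at hG
  obtain ⟨v, rfl⟩ := eq_lin_of_isHomogeneous hG
  have h1 := D_B (mv E (Sum.inr k) v) (lin (P (Sum.inr k)) ^ d) F
  rw [B_lin_pow S.hom, S.eval_simple k, mul_zero, map_zero,
    B_lin_pow (cD_isHomogeneous _ S.hom), hcon v, mul_zero, add_zero, cD_pow, cD_lin_self S.hE,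
    B_C_mul_left] at h1
  have h2 : (d : ℂ) ≠ 0 := by
    rw [Nat.cast_ne_zero]; omega
  exact (mul_eq_zero.mp h1.symm).resolve_left h2

theorem eval_move_ne (S : Rigid d P E m F) {k l : κ} (h : l ≠ k) (v : V3) :
    eval (P (Sum.inr l)) (cD (mv E (Sum.inr k) v) F) = 0 := by
  have h1 : VanishTo F (P (Sum.inr l)) 1 := S.hF.2 (Sum.inr l)
  have hd : 1 ≤ d := S.hM (Sum.inr k)
  apply vanishTo_one_iff.mp
  apply vanishTo_cD_fixed _ S.hom (by omega) h1
  intro n
  apply mv_ne S.hE
  intro h'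
  exact h (Sum.inr.inj h')

/-- The system is spanned by `F` and its derivatives along motions of the simple points. -/
theorem span (S : Rigid d P E m F) {f : R3} (hf : f ∈ linSys d (fun i => P (Sum.inl i)) m) :
    f ∈ Submodule.span ℂ ({F} ∪ Set.range
      (fun x : κ × V3 => cD (mv E (Sum.inr x.1) x.2) F)) := by
  choose v hv using S.exists_move
  set g : κ → R3 := fun k => cD (mv E (Sum.inr k) (v k)) F with hg
  set c : κ → ℂ := fun k => eval (P (Sum.inr k)) f / eval (P (Sum.inr k)) (g k) with hc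
  have h1 : f - ∑ k, c k • g k ∈ linSys d (fun i => P (Sum.inl i)) m := by
    apply Submodule.sub_mem _ hf
    apply Submodule.sum_mem
    intro k _
    exact Submodule.smul_mem _ _ (S.stable S.memV k (v k))
  have h2 : f - ∑ k, c k • g k ∈ linSys d P (Sum.elim m fun _ => 1) := by
    refine ⟨h1.1, ?_⟩
    rintro (i | l)
    · exact h1.2 i
    · apply vanishTo_one_iff.mpr
      rw [map_sub, map_sum, Finset.sum_eq_single l]
      · rw [smul_eval, hc]
        simp only
        rw [div_mul_cancel₀ _ (hv l), sub_self]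
      · intro k _ hk
        rw [smul_eval, hg]
        simp only
        rw [S.eval_move_ne hk.symm, mul_zero]
      · intro h
        exact absurd (Finset.mem_univ _) h
  obtain ⟨a, ha⟩ := S.huniq _ h2
  have h3 : f = a • F + ∑ k, c k • g k := by
    rw [smul_eq_C_mul, ← ha]
    ring
  rw [h3]
  apply Submodule.add_mem
  · apply Submodule.smul_mem
    apply Submodule.subset_span
    left
    exact Set.mem_singleton F
  · apply Submodule.sum_mem
    intro k _
    apply Submodule.smul_mem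
    apply Submodule.subset_span
    right
    exact ⟨(k, v k), rfl⟩

/-- A form pairing to zero with `F` and its derivatives along motions of the simple points lies in
the inverse system. -/
theorem memJ (S : Rigid d P E m F) {A : R3} (hA : A.IsHomogeneous d) (h0 : B A F = 0)
    (h1 : ∀ k v, B A (cD (mv E (Sum.inr k) v) F) = 0) : A ∈ J d (fun i => P (Sum.inl i)) m := by
  apply mem_J_of_B S.hm' hA
  intro f hf
  refine Submodule.span_induction (p := fun x _ => B A x = 0) ?_ ?_ ?_ ?_ (S.span hf)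
  · rintro x (hx | ⟨⟨k, v⟩, rfl⟩)
    · rw [Set.mem_singleton_iff] at hx
      rw [hx, h0]
    · exact h1 k v
  · exact map_zero _
  · intro x y _ _ hx hy
    rw [map_add, hx, hy, add_zero]
  · intro a x _ hx
    rw [map_smul, hx, smul_zero]

/-- divisibility of `F` and its derivatives passes to the whole system -/
theorem dvd_all (S : Rigid d P E m F) {π : R3} (h0 : π ∣ F)
    (h1 : ∀ k v, π ∣ cD (mv E (Sum.inr k) v) F) {f : R3}
    (hf : f ∈ linSys d (fun i => P (Sum.inl i)) m) : π ∣ f := by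
  refine Submodule.span_induction (p := fun x _ => π ∣ x) ?_ ?_ ?_ ?_ (S.span hf)
  · rintro x (hx | ⟨⟨k, v⟩, rfl⟩)
    · rw [Set.mem_singleton_iff] at hx
      rw [hx]
      exact h0
    · exact h1 k v
  · exact dvd_zero _
  · intro x y _ _ hx hy
    exact dvd_add hx hy
  · intro a x _ hx
    rw [smul_eq_C_mul]
    exact Dvd.dvd.mul_left hx _

/-- if the system contains a squarefree form, then the rigid member is squarefree -/
theorem squarefree (S : Rigid d P E m F) {f₀ : R3}
    (hf₀ : f₀ ∈ linSys d (fun i => P (Sum.inl i)) m) (hsq : Squarefree f₀) : Squarefree F := by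
  rw [squarefree_iff_irreducible_sq_not_dvd_of_ne_zero S.hF0]
  rintro π hπ ⟨g, hg⟩
  have h1 : ∀ k v, π ∣ cD (mv E (Sum.inr k) v) F := by
    intro k v
    rw [hg, cD_mul, cD_mul]
    refine ⟨(2 : R3) * cD (mv E (Sum.inr k) v) π * g + π * cD (mv E (Sum.inr k) v) g, ?_⟩
    ring
  have h2 : ∀ f ∈ linSys d (fun i => P (Sum.inl i)) m, π ∣ f := fun f hf =>
    S.dvd_all ⟨π * g, by rw [hg, mul_assoc]⟩ h1 hf
  obtain ⟨g₀, hg₀⟩ := h2 f₀ hf₀
  have hπg₀ : ¬ π ∣ g₀ := by
    rintro ⟨g', hg'⟩
    have : π * π ∣ f₀ := ⟨g', by rw [hg₀, hg', mul_assoc]⟩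
    exact hπ.not_isUnit (hsq π this)
  have h3 : ∀ k v, π ∣ cD (mv E (Sum.inr k) v) π := by
    intro k v
    have h4 := h2 _ (S.stable hf₀ k v)
    rw [hg₀, cD_mul] at h4
    have h5 : π ∣ cD (mv E (Sum.inr k) v) π * g₀ := by
      rwa [dvd_add_left (Dvd.intro _ rfl)] at h4
    exact (hπ.prime.dvd_or_dvd h5).resolve_right hπg₀
  have h6 : π * π ∣ f₀ := by
    apply S.dvd_all ⟨g, hg⟩ _ hf₀
    intro k v
    obtain ⟨t, ht⟩ := h3 k v
    rw [hg, cD_mul, cD_mul, ht]
    refine ⟨(2 : R3) * t * g + cD (mv E (Sum.inr k) v) g, ?_⟩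
    ring
  exact hπ.not_isUnit (hsq π h6)

end Rigid

end Pool.Agent.Work.MP_0421d9_ag
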