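import Pool.Agent.Work.MP_0421d9_ag.Num69

/-!
Forms with prescribed monomials and with assigned multiplicities at generic points.
-/

namespace Pool.Agent.Work.MP_0421d9_ag.LD

open MvPolynomial Module

/-- forms of degree `D` with all exponents in `T`, with multiplicity at least `m` at the points -/
noncomputable def TS {N : ℕ} (D : ℕ) (T : Set (Fin 3 →₀ ℕ)) (m : ℕ) (p : Fin N → V3) :
    Submodule ℂ R3 := linSys D p (fun _ => m) ⊓ offSub Tᶜ

theorem mem_TS {N D m : ℕ} {T : Set (Fin 3 →₀ ℕ)} {p : Fin N → V3} {F : R3} : F ∈ TS D T m p ↔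
    F.IsHomogeneous D ∧ (∀ i, VanishTo F (p i) m) ∧ ∀ α, coeff α F ≠ 0 → α ∈ T := by
  unfold TS
  rw [Submodule.mem_inf, mem_offSub]
  constructor
  · rintro ⟨⟨h1, h2⟩, h3⟩
    refine ⟨h1, h2, fun α hα => ?_⟩
    by_contra hcon
    exact hα (h3 α hcon)
  · rintro ⟨h1, h2, h3⟩
    refine ⟨⟨h1, h2⟩, fun α hα => ?_⟩
    by_contra hcon
    exact hα (h3 α hcon)

theorem TS_le {N : ℕ} (D : ℕ) (T : Set (Fin 3 →₀ ℕ)) (m : ℕ) (p : Fin N → V3) :
    TS D T m p ≤ Rd D := fun _ hF => (mem_TS.mp hF).1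

instance finite_TS {N : ℕ} (D : ℕ) (T : Set (Fin 3 →₀ ℕ)) (m : ℕ) (p : Fin N → V3) :
    Module.Finite ℂ (TS D T m p) :=
  Submodule.finiteDimensional_of_le (TS_le D T m p)

theorem exists_generic (N : ℕ) : ∃ p : Fin N → V3, GenericPoints p := by
  obtain ⟨s, hs⟩ := exists_extension (ι := Fin 0) (κ := Fin N) (fun i => i.elim0)
    (algebraicIndependent_empty_type)
  refine ⟨s, ?_⟩
  have h1 := AlgebraicIndependent.comp hs
    (fun z : Fin N × Fin 3 => ((Sum.inr z.1, z.2) : (Fin 0 ⊕ Fin N) × Fin 3)) (by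
      rintro ⟨a, b⟩ ⟨c, d⟩ h
      simp only [Prod.mk.injEq, Sum.inr.injEq] at h
      exact Prod.ext h.1 h.2)
  exact h1

/-- some generic points -/
noncomputable def gpt (N : ℕ) : Fin N → V3 := (exists_generic N).choose

theorem gpt_generic (N : ℕ) : GenericPoints (gpt N) := (exists_generic N).choose_spec

/-- the dimension for generic points -/
noncomputable def hT (D : ℕ) (T : Set (Fin 3 →₀ ℕ)) (m N : ℕ) : ℕ := finrank ℂ (TS D T m (gpt N))

/-! ### generic points give the smallest dimension -/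

section map

variable (σ : ℂ ≃+* ℂ)

theorem map_mem_TS {N D m : ℕ} {T : Set (Fin 3 →₀ ℕ)} {p : Fin N → V3} {F : R3}
    (h : F ∈ TS D T m p) : map σ.toRingHom F ∈ TS D T m (fun i k => σ (p i k)) := by
  rw [mem_TS] at h ⊢
  obtain ⟨h1, h2, h3⟩ := h
  have h4 : F ∈ linSys D p (fun _ => m) := ⟨h1, h2⟩
  have h5 := map_mem_linSys σ h4
  refine ⟨h5.1, h5.2, fun α hα => h3 α fun h6 => hα ?_⟩
  rw [coeff_map, h6, map_zero]

theorem finrank_TS_map {N : ℕ} (D : ℕ) (T : Set (Fin 3 →₀ ℕ)) (m : ℕ) (p : Fin N → V3) :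
    finrank ℂ (TS D T m p) = finrank ℂ (TS D T m (fun i k => σ (p i k))) := by
  have h1 : ∀ F ∈ TS D T m (fun i k => σ (p i k)), map σ.symm.toRingHom F ∈ TS D T m p := by
    intro F hF
    have h2 := map_mem_TS σ.symm hF
    have h3 : (fun (i : Fin N) (k : Fin 3) => σ.symm (σ (p i k))) = p := by
      funext i k
      exact σ.symm_apply_apply _
    rwa [h3] at h2
  let j : TS D T m p ≃+ TS D T m (fun i k => σ (p i k)) :=
    { toFun := fun F => ⟨map σ.toRingHom F.1, map_mem_TS σ F.2⟩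
      invFun := fun F => ⟨map σ.symm.toRingHom F.1, h1 F.1 F.2⟩
      left_inv := fun F => Subtype.ext (map_symm_map σ F.1)
      right_inv := fun F => Subtype.ext (map_map_symm σ F.1)
      map_add' := fun F G => Subtype.ext (map_add _ F.1 G.1) }
  have h2 := rank_eq_of_equiv_equiv (fun c : ℂ => σ c) j σ.bijective (by
    intro c F
    apply Subtype.ext
    change map σ.toRingHom (c • F.1) = σ c • map σ.toRingHom F.1
    rw [smul_eq_C_mul, smul_eq_C_mul, map_mul, map_C]
    rfl)
  unfold Module.finrank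
  rw [h2]

end map

theorem TS_eq {N : ℕ} (D : ℕ) (T : Set (Fin 3 →₀ ℕ)) (m : ℕ) (p : Fin N → V3) :
    TS D T m p = (Rd D ⊓ offSub Tᶜ) ⊓ ⨅ i, vanSub (p i) m := by
  ext F
  rw [mem_TS, Submodule.mem_inf, Submodule.mem_inf, Submodule.mem_iInf, mem_offSub]
  constructor
  · rintro ⟨h1, h2, h3⟩
    refine ⟨⟨h1, fun α hα => ?_⟩, h2⟩
    by_contra hcon
    exact hα (h3 α hcon)
  · rintro ⟨⟨h1, h3⟩, h2⟩
    refine ⟨h1, h2, fun α hα => ?_⟩
    by_contra hcon
    exact hα (h3 α hcon)

theorem TS_generic_le {N D m : ℕ} {T : Set (Fin 3 →₀ ℕ)} {p : Fin N → V3} (hp : GenericPoints p)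
    (p₀ : Fin N → V3) : finrank ℂ (TS D T m p) ≤ finrank ℂ (TS D T m p₀) := by
  classical
  obtain ⟨c₁, hc₁⟩ := exists_extension (κ := Fin N) p hp
  have hfam : PolyFam (fun τ => ⨅ i, vanSub (fun k => (Polynomial.C (p₀ i k) +
      Polynomial.X * Polynomial.C (c₁ i k - p₀ i k)).eval τ) m) :=
    PolyFam.iInf (fun i => polyFam_van (fun k => Polynomial.C (p₀ i k) +
      Polynomial.X * Polynomial.C (c₁ i k - p₀ i k)) m)
  have hfin : Module.Finite ℂ ↥(Rd D ⊓ offSub Tᶜ : Submodule ℂ R3) :=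
    Submodule.finiteDimensional_of_le inf_le_left
  obtain ⟨g, hg, h1⟩ := hfam.semicont (Rd D ⊓ offSub Tᶜ) 0
  have h1' : ∀ τ, g.eval τ ≠ 0 →
      finrank ℂ (TS D T m (fun i k => p₀ i k + τ * (c₁ i k - p₀ i k))) ≤
        finrank ℂ (TS D T m p₀) := by
    intro τ hτ
    have h2 := h1 τ hτ
    rw [TS_eq, TS_eq]
    have e1 : ∀ τ : ℂ, (fun i : Fin N => vanSub (fun k => (Polynomial.C (p₀ i k) +
        Polynomial.X * Polynomial.C (c₁ i k - p₀ i k)).eval τ) m) =
        fun i => vanSub (fun k => p₀ i k + τ * (c₁ i k - p₀ i k)) m := by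
      intro τ
      funext i
      congr 1
      funext k
      simp only [Polynomial.eval_add, Polynomial.eval_mul, Polynomial.eval_C, Polynomial.eval_X]
    have e2 : (fun i : Fin N => vanSub (fun k => p₀ i k + 0 * (c₁ i k - p₀ i k)) m) =
        fun i => vanSub (p₀ i) m := by
      funext i
      congr 1
      funext k
      ring
    rw [e1, e1, e2] at h2
    exact h2
  obtain ⟨t, ht, hind⟩ := exists_line
    (fun z : (Fin N ⊕ Fin N) × Fin 3 => Sum.elim p p₀ z.1 z.2) _ hc₁
    (S := {t | g.eval t = 0}) (Set.Finite.countable (by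
      refine (g.roots.toFinset.finite_toSet).subset ?_
      intro t ht
      rw [Finset.mem_coe, Multiset.mem_toFinset, Polynomial.mem_roots (ne_zero_of_eval hg)]
      exact ht))
  have h2 := h1' t ht
  set c : Fin N → V3 := fun i k => p₀ i k + t * (c₁ i k - p₀ i k) with hc
  have h3 : (fun z : (Fin N ⊕ Fin N) × Fin 3 => (fun z : (Fin N ⊕ Fin N) × Fin 3 =>
      Sum.elim p p₀ z.1 z.2) z + t * ((fun z : (Fin N ⊕ Fin N) × Fin 3 =>
      Sum.elim p c₁ z.1 z.2) z - (fun z : (Fin N ⊕ Fin N) × Fin 3 => Sum.elim p p₀ z.1 z.2) z)) =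
      fun z => Sum.elim p c z.1 z.2 := by
    funext z
    rcases z with ⟨i | i, k⟩
    · simp
    · simp [hc]
  rw [h3] at hind
  obtain ⟨s, hs⟩ := exists_auto hind (Equiv.sumComm (Fin N) (Fin N))
  have h4 : (fun (i : Fin N) (k : Fin 3) => s (p i k)) = c := by
    funext i k
    exact hs (Sum.inl i) k
  rw [finrank_TS_map s D T m p, h4]
  exact h2

/-- semicontinuity: arbitrary points bound the generic value -/
theorem hT_le {N D m : ℕ} {T : Set (Fin 3 →₀ ℕ)} (p : Fin N → V3) :
    hT D T m N ≤ finrank ℂ (TS D T m p) :=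
  TS_generic_le (gpt_generic N) p

theorem hT_eq {N D m : ℕ} {T : Set (Fin 3 →₀ ℕ)} {p : Fin N → V3} (hp : GenericPoints p) :
    finrank ℂ (TS D T m p) = hT D T m N :=
  le_antisymm (TS_generic_le hp _) (hT_le p)

theorem hT_mono {D m N : ℕ} {T T' : Set (Fin 3 →₀ ℕ)} (h : ∀ α, α.degree = D → α ∈ T → α ∈ T') :
    hT D T m N ≤ hT D T' m N := by
  unfold hT
  apply Submodule.finrank_mono
  intro F hF
  rw [mem_TS] at hF ⊢
  obtain ⟨h1, h2, h3⟩ := hF
  exact ⟨h1, h2, fun α hα => h α (degree_of_mem_support h1 hα) (h3 α hα)⟩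

theorem hT_eq_zero {D m N : ℕ} {T : Set (Fin 3 →₀ ℕ)} (h : ∀ α, α.degree = D → α ∉ T) :
    hT D T m N = 0 := by
  unfold hT
  rw [Submodule.finrank_eq_zero, Submodule.eq_bot_iff]
  intro F hF
  rw [mem_TS] at hF
  obtain ⟨h1, h2, h3⟩ := hF
  ext α
  rw [coeff_zero]
  by_contra hα
  exact h α (degree_of_mem_support h1 hα) (h3 α hα)

/-! ### the number of conditions -/

/-- vanishing to order `m` at a point imposes at most `(m + 1).choose 2` conditions -/
theorem finrank_le_van {D m : ℕ} (a : V3) (U : Submodule ℂ R3) (hU : U ≤ Rd D) :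
    finrank ℂ U ≤ finrank ℂ ↥(U ⊓ vanSub a m) + (m + 1).choose 2 := by
  have hfin : Module.Finite ℂ U := Submodule.finiteDimensional_of_le hU
  rcases Nat.lt_or_ge (D + 1) m with hm | hm
  · have h1 := Submodule.finrank_mono hU
    rw [finrank_Rd] at h1
    have h2 : (D + 2).choose 2 ≤ (m + 1).choose 2 := Nat.choose_le_choose 2 (by omega)
    omega
  · let Φ : R3 →ₗ[ℂ] (Hm m →ₗ[ℂ] ℂ) :=
      { toFun := fun F => (B.flip F) ∘ₗ
          (LinearMap.mulLeft ℂ (lin a ^ (D + 1 - m))) ∘ₗ (Hm m).subtype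
        map_add' := fun F G => by
          ext A
          simp
        map_smul' := fun c F => by
          ext A
          simp }
    have hΦ : ∀ F (G : Hm m), Φ F G = B (lin a ^ (D + 1 - m) * G.1) F := fun F G => rfl
    have h1 : U ⊓ LinearMap.ker Φ ≤ U ⊓ vanSub a m := by
      rintro F ⟨h2, h3⟩
      refine ⟨h2, ?_⟩
      have h4 := LinearMap.mem_ker.mp h3
      change VanishTo F a m
      rw [vanishTo_iff (hU h2) a hm]
      intro G hG
      have h5 := hΦ F ⟨G, hG⟩
      rw [h4] at h5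
      exact h5.symm
    have h2 := finrank_eq_ker_add_map Φ U
    have h3 : finrank ℂ ↥(U.map Φ) ≤ (m + 1).choose 2 := by
      refine (Submodule.finrank_le _).trans ?_
      have h4 : finrank ℂ (Hm m →ₗ[ℂ] ℂ) = finrank ℂ (Hm m) := Subspace.dual_finrank_eq
      rw [h4, finrank_Hm]
    have hfin2 : Module.Finite ℂ ↥(U ⊓ vanSub a m) :=
      Submodule.finiteDimensional_of_le inf_le_left
    have h4 := Submodule.finrank_mono h1
    omega

theorem generic_castLE {N N' : ℕ} (h : N' ≤ N) {p : Fin N → V3} (hp : GenericPoints p) :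
    GenericPoints (fun i : Fin N' => p (Fin.castLE h i)) := by
  have h1 := AlgebraicIndependent.comp hp
    (fun z : Fin N' × Fin 3 => ((Fin.castLE h z.1, z.2) : Fin N × Fin 3)) (by
      rintro ⟨a, b⟩ ⟨c, d⟩ h
      simp only [Prod.mk.injEq] at h
      exact Prod.ext (Fin.castLE_injective _ h.1) h.2)
  exact h1

theorem hT_drop_one {D m N : ℕ} {T : Set (Fin 3 →₀ ℕ)} :
    hT D T m N ≤ hT D T m (N + 1) + (m + 1).choose 2 := by
  have hp := gpt_generic (N + 1)
  have hp' := generic_castLE (Nat.le_succ N) hp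
  rw [← hT_eq (D := D) (m := m) (T := T) hp, ← hT_eq (D := D) (m := m) (T := T) hp']
  refine (finrank_le_van (m := m) (gpt (N + 1) (Fin.last N)) _ (TS_le _ _ _ _)).trans ?_
  apply Nat.add_le_add_right
  apply Submodule.finrank_mono
  rintro F ⟨h1, h2⟩
  rw [SetLike.mem_coe, mem_TS] at h1
  obtain ⟨h3, h4, h5⟩ := h1
  rw [mem_TS]
  refine ⟨h3, fun i => ?_, h5⟩
  refine Fin.lastCases ?_ (fun j => ?_) i
  · exact h2
  · exact h4 j

/-- a point imposes at most `(m + 1).choose 2` conditions -/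
theorem hT_drop {D m N N' : ℕ} {T : Set (Fin 3 →₀ ℕ)} (h : N' ≤ N) :
    hT D T m N' ≤ hT D T m N + (N - N') * (m + 1).choose 2 := by
  induction N, h using Nat.le_induction with
  | base => simp
  | succ n hn ih =>
    have h1 := hT_drop_one (D := D) (m := m) (N := n) (T := T)
    have e1 : n + 1 - N' = (n - N') + 1 := by omega
    rw [e1, Nat.add_mul, Nat.one_mul]
    omega

/-- more points, smaller systems -/
theorem hT_anti {D m N N' : ℕ} {T : Set (Fin 3 →₀ ℕ)} (h : N' ≤ N) :
    hT D T m N ≤ hT D T m N' := by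
  have hp := gpt_generic N
  rw [← hT_eq (D := D) (m := m) (T := T) (generic_castLE h hp)]
  apply Submodule.finrank_mono
  intro F hF
  rw [mem_TS] at hF ⊢
  obtain ⟨h1, h2, h3⟩ := hF
  exact ⟨h1, fun i => h2 _, h3⟩

/-! ### permutations of the coordinates -/

theorem translate_rename (σ : Equiv.Perm (Fin 3)) (a : V3) (F : R3) :
    translate a (rename σ F) = rename σ (translate (fun i => a (σ i)) F) := by
  unfold translate
  induction F using MvPolynomial.induction_on with
  | C c => simp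
  | add f g hf hg => simp only [map_add, hf, hg]
  | mul_X f k hf =>
    rw [map_mul, map_mul, hf, map_mul, map_mul, rename_X, aeval_X, aeval_X, map_add, rename_C,
      rename_X]

theorem vanishTo_rename (σ : Equiv.Perm (Fin 3)) {a : V3} {m : ℕ} {F : R3} :
    VanishTo (rename σ F) a m ↔ VanishTo F (fun i => a (σ i)) m := by
  rw [vanishTo_iff_coeff, vanishTo_iff_coeff]
  constructor
  · intro h β hβ
    have h1 := h (β.mapDomain σ) (by rwa [Finsupp.degree_mapDomain])
    rwa [translate_rename, coeff_rename_mapDomain _ σ.injective] at h1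
  · intro h β hβ
    have h1 : β = (β.mapDomain σ.symm).mapDomain σ := by
      rw [← Finsupp.mapDomain_comp]
      simp
    rw [translate_rename, h1, coeff_rename_mapDomain _ σ.injective]
    apply h
    rwa [Finsupp.degree_mapDomain]

theorem coeff_rename' (σ : Equiv.Perm (Fin 3)) (F : R3) (β : Fin 3 →₀ ℕ) :
    coeff β (rename σ F) = coeff (β.mapDomain σ.symm) F := by
  have h1 : β = (β.mapDomain σ.symm).mapDomain σ := by
    rw [← Finsupp.mapDomain_comp]
    simp
  conv_lhs => rw [h1]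
  rw [coeff_rename_mapDomain _ σ.injective]

theorem mapDomain_symm_mapDomain (σ : Equiv.Perm (Fin 3)) (β : Fin 3 →₀ ℕ) :
    (β.mapDomain σ.symm).mapDomain σ = β := by
  rw [← Finsupp.mapDomain_comp]
  simp

theorem mapDomain_mapDomain_symm (σ : Equiv.Perm (Fin 3)) (β : Fin 3 →₀ ℕ) :
    (β.mapDomain σ).mapDomain σ.symm = β := by
  rw [← Finsupp.mapDomain_comp]
  simp

theorem hT_perm_le (σ : Equiv.Perm (Fin 3)) {D m N : ℕ} {T : Set (Fin 3 →₀ ℕ)} :
    hT D {α | α.mapDomain σ ∈ T} m N ≤ hT D T m N := by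
  have hp := gpt_generic N
  have hp' : GenericPoints (fun i k => gpt N i (σ.symm k)) := by
    have h1 := AlgebraicIndependent.comp hp
      (fun z : Fin N × Fin 3 => ((z.1, σ.symm z.2) : Fin N × Fin 3)) (by
        rintro ⟨a, b⟩ ⟨c, d⟩ h
        simp only [Prod.mk.injEq, EmbeddingLike.apply_eq_iff_eq] at h
        exact Prod.ext h.1 h.2)
    exact h1
  rw [← hT_eq (D := D) (m := m) (T := T) hp']
  unfold hT
  let φ : TS D {α : Fin 3 →₀ ℕ | α.mapDomain σ ∈ T} m (gpt N) →ₗ[ℂ]
      TS D T m (fun i k => gpt N i (σ.symm k)) :=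
    { toFun := fun F => ⟨rename σ F.1, by
        have h1 := mem_TS.mp F.2
        obtain ⟨h2, h3, h4⟩ := h1
        rw [mem_TS]
        refine ⟨h2.rename_isHomogeneous, fun i => ?_, fun α hα => ?_⟩
        · rw [vanishTo_rename]
          have e1 : (fun k => gpt N i (σ.symm (σ k))) = gpt N i := by
            funext k
            rw [Equiv.symm_apply_apply]
          rw [e1]
          exact h3 i
        · rw [coeff_rename'] at hα
          have h5 := h4 _ hα
          change (α.mapDomain σ.symm).mapDomain σ ∈ T at h5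
          rwa [mapDomain_symm_mapDomain] at h5⟩
      map_add' := fun F G => Subtype.ext (by simp)
      map_smul' := fun c F => Subtype.ext (by simp) }
  apply LinearMap.finrank_le_finrank_of_injective (f := φ)
  intro F G h
  apply Subtype.ext
  have h1 := congrArg Subtype.val h
  exact rename_injective σ σ.injective h1

/-- permutation of the coordinates -/
theorem hT_perm (σ : Equiv.Perm (Fin 3)) {D m N : ℕ} {T : Set (Fin 3 →₀ ℕ)} :
    hT D {α | α.mapDomain σ ∈ T} m N = hT D T m N := by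
  refine le_antisymm (hT_perm_le σ) ?_
  have h1 := hT_perm_le σ.symm (D := D) (m := m) (N := N)
    (T := {α : Fin 3 →₀ ℕ | α.mapDomain σ ∈ T})
  have h2 : {α : Fin 3 →₀ ℕ | α.mapDomain σ.symm ∈ {α : Fin 3 →₀ ℕ | α.mapDomain σ ∈ T}} = T := by
    ext α
    change (α.mapDomain σ.symm).mapDomain σ ∈ T ↔ α ∈ T
    rw [mapDomain_symm_mapDomain]
  rwa [h2] at h1

theorem Kills.perm (σ : Equiv.Perm (Fin 3)) {D m N : ℕ} {T : Set (Fin 3 →₀ ℕ)}
    (h : Kills D m N T) : Kills D m N {α | α.mapDomain σ ∈ T} := by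
  obtain ⟨p, hp, h⟩ := h
  refine ⟨fun i k => p i (σ k), fun i k => hp i _, fun G h1 h2 h3 => ?_⟩
  apply rename_injective σ σ.injective
  rw [map_zero]
  refine h _ h1.rename_isHomogeneous (fun α hα => ?_) (fun i => ?_)
  · rw [MvPolynomial.mem_support_iff, coeff_rename'] at hα
    have h4 := h2 _ (MvPolynomial.mem_support_iff.mpr hα)
    change (α.mapDomain σ.symm).mapDomain σ ∈ T at h4
    rwa [mapDomain_symm_mapDomain] at h4
  · rw [vanishTo_rename]
    exact h3 i

/-! ### rectangles -/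

/-- `H` rows and `L` columns -/
def rect (H L : ℕ) : Set (Fin 3 →₀ ℕ) := {α | α 2 < H ∧ α 0 < L}

/-- bidegree `(H - 1, L - 1)` on `P¹ × P¹` with `N` points of multiplicity `k` -/
noncomputable def hR (H L k N : ℕ) : ℕ := hT (H + L - 2) (rect H L) k N

/-- forms of degree `D` and of degree at most `κ` in `X 2` -/
noncomputable def hF (D κ m N : ℕ) : ℕ := hT D {α | α 2 ≤ κ} m N

/-- the plane -/
noncomputable def hP (D m N : ℕ) : ℕ := hT D Set.univ m N

theorem hR_zero (L k N : ℕ) : hR 0 L k N = 0 :=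
  hT_eq_zero (fun _ _ h => Nat.not_lt_zero _ h.1)

theorem hR_zero_right (H k N : ℕ) : hR H 0 k N = 0 :=
  hT_eq_zero (fun _ _ h => Nat.not_lt_zero _ h.2)

/-- an exponent -/
noncomputable def ex3 (a b c : ℕ) : Fin 3 →₀ ℕ :=
  Finsupp.single 0 a + Finsupp.single 1 b + Finsupp.single 2 c

theorem ex3_zero (a b c : ℕ) : ex3 a b c 0 = a := by simp [ex3]
theorem ex3_one (a b c : ℕ) : ex3 a b c 1 = b := by simp [ex3]
theorem ex3_two (a b c : ℕ) : ex3 a b c 2 = c := by simp [ex3]

theorem eq_ex3 (α : Fin 3 →₀ ℕ) : α = ex3 (α 0) (α 1) (α 2) := by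
  ext i
  fin_cases i
  · exact (ex3_zero _ _ _).symm
  · exact (ex3_one _ _ _).symm
  · exact (ex3_two _ _ _).symm

theorem degree_three (α : Fin 3 →₀ ℕ) : α.degree = α 0 + α 1 + α 2 := by
  rw [Finsupp.degree_eq_sum, Fin.sum_univ_three]

theorem hR_no_points (H L k : ℕ) : hR H L k 0 = H * L := by
  classical
  unfold hR hT
  set D := H + L - 2 with hD
  let ex : Fin H × Fin L → (Fin 3 →₀ ℕ) := fun z => ex3 z.2 (D - z.2 - z.1) z.1
  have hex0 : ∀ z, ex z 0 = z.2 := fun z => ex3_zero _ _ _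
  have hex2 : ∀ z, ex z 2 = z.1 := fun z => ex3_two _ _ _
  have hexd : ∀ z, (ex z).degree = D := by
    intro z
    rw [degree_three, hex0, hex2]
    change (z.2 : ℕ) + ex3 z.2 (D - z.2 - z.1) z.1 1 + z.1 = D
    rw [ex3_one]
    have h1 := z.1.2
    have h2 := z.2.2
    omega
  have hexinj : Function.Injective ex := by
    intro z w h
    have h1 := DFunLike.congr_fun h 0
    have h2 := DFunLike.congr_fun h 2
    rw [hex0, hex0] at h1
    rw [hex2, hex2] at h2
    exact Prod.ext (Fin.ext h2) (Fin.ext h1)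
  let φ : TS D (rect H L) k (gpt 0) →ₗ[ℂ] (Fin H × Fin L → ℂ) :=
    { toFun := fun F z => coeff (ex z) F.1
      map_add' := fun F G => by
        funext z
        simp
      map_smul' := fun c F => by
        funext z
        simp }
  have hφ : ∀ F z, φ F z = coeff (ex z) F.1 := fun F z => rfl
  have hbij : Function.Bijective φ := by
    constructor
    · intro F G h
      apply Subtype.ext
      ext α
      have hF := mem_TS.mp F.2
      have hG := mem_TS.mp G.2
      by_cases hα : α.degree = D ∧ α ∈ rect H L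
      · obtain ⟨h1, h2, h3⟩ := hα
        have h4 := congrFun h (⟨α 2, h2⟩, ⟨α 0, h3⟩)
        rw [hφ, hφ] at h4
        have h5 : ex (⟨α 2, h2⟩, ⟨α 0, h3⟩) = α := by
          conv_rhs => rw [eq_ex3 α]
          change ex3 (α 0) (D - α 0 - α 2) (α 2) = _
          congr 1
          rw [degree_three] at h1
          omega
        rwa [h5] at h4
      · have h1 : ∀ P : R3, P ∈ TS D (rect H L) k (gpt 0) → coeff α P = 0 := by
          intro P hP
          by_contra hcon
          obtain ⟨h2, h3, h4⟩ := mem_TS.mp hP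
          exact hα ⟨degree_of_mem_support h2 hcon, h4 α hcon⟩
        rw [h1 F.1 F.2, h1 G.1 G.2]
    · intro g
      have hmem : (∑ z, monomial (ex z) (g z) : R3) ∈ TS D (rect H L) k (gpt 0) := by
        refine Submodule.sum_mem _ (fun z _ => ?_)
        rw [mem_TS]
        refine ⟨isHomogeneous_monomial _ (hexd z), fun i => i.elim0, fun α hα => ?_⟩
        rw [coeff_monomial] at hα
        split_ifs at hα with h1
        · rw [← h1]
          constructor
          · rw [hex2]; exact z.1.2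
          · rw [hex0]; exact z.2.2
        · exact absurd rfl hα
      refine ⟨⟨_, hmem⟩, ?_⟩
      funext w
      rw [hφ]
      change coeff (ex w) (∑ z, monomial (ex z) (g z) : R3) = g w
      rw [coeff_sum, Finset.sum_eq_single w]
      · rw [coeff_monomial, if_pos rfl]
      · intro z _ hz
        rw [coeff_monomial, if_neg (fun h => hz (hexinj h))]
      · intro h
        exact absurd (Finset.mem_univ w) h
  rw [(LinearEquiv.ofBijective φ hbij).finrank_eq, finrank_fintype_fun_eq_card,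
    Fintype.card_prod, Fintype.card_fin, Fintype.card_fin]

theorem hR_count (H L k N : ℕ) : H * L ≤ hR H L k N + N * (k + 1).choose 2 := by
  rw [← hR_no_points H L k]
  have h1 := hT_drop (D := H + L - 2) (m := k) (T := rect H L) (Nat.zero_le N)
  rw [Nat.sub_zero] at h1
  exact h1

theorem vanishTo_X_mul (i : Fin 3) {F : R3} {a : V3} {m : ℕ} (h : VanishTo F a m) :
    VanishTo (X i * F) a m := by
  have h1 : VanishTo (X i : R3) a 0 := fun k hk => absurd hk (Nat.not_lt_zero k)
  have h2 := vanishTo_mul h1 h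
  rwa [Nat.zero_add] at h2

theorem X_mul_le {D m N : ℕ} {T T' : Set (Fin 3 →₀ ℕ)}
    (hT' : ∀ α, α ∈ T → α + Finsupp.single 1 1 ∈ T') : hT D T m N ≤ hT (D + 1) T' m N := by
  unfold hT
  let φ : TS D T m (gpt N) →ₗ[ℂ] TS (D + 1) T' m (gpt N) :=
    { toFun := fun F => ⟨X 1 * F.1, by
        obtain ⟨h1, h2, h3⟩ := mem_TS.mp F.2
        rw [mem_TS]
        refine ⟨?_, fun i => vanishTo_X_mul 1 (h2 i), fun α hα => ?_⟩
        · have h4 := (isHomogeneous_X ℂ (1 : Fin 3)).mul h1
          rwa [add_comm] at h4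
        · rw [coeff_X_mul'] at hα
          split_ifs at hα with h4
          · have h5 := hT' _ (h3 _ hα)
            rwa [tsub_add_cancel_of_le] at h5
            rw [Finsupp.single_le_iff]
            exact Nat.one_le_iff_ne_zero.mpr (Finsupp.mem_support_iff.mp h4)
          · exact absurd rfl hα⟩
      map_add' := fun F G => Subtype.ext (by
        change X 1 * (F.1 + G.1) = X 1 * F.1 + X 1 * G.1
        ring)
      map_smul' := fun c F => Subtype.ext (by
        change X 1 * (c • F.1) = c • (X 1 * F.1)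
        rw [mul_smul_comm]) }
  apply LinearMap.finrank_le_finrank_of_injective (f := φ)
  intro F G h
  apply Subtype.ext
  have h1 : X 1 * F.1 = X 1 * G.1 := congrArg Subtype.val h
  exact mul_left_cancel₀ (X_ne_zero _) h1

theorem hR_le_succ (H L k N : ℕ) : hR H L k N ≤ hR (H + 1) L k N := by
  rcases Nat.eq_zero_or_pos L with hL | hL
  · subst hL
    rw [hR_zero_right]
    exact Nat.zero_le _
  rcases Nat.eq_zero_or_pos H with hH | hH
  · subst hH
    rw [hR_zero]
    exact Nat.zero_le _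
  unfold hR
  have e1 : H + 1 + L - 2 = (H + L - 2) + 1 := by omega
  rw [e1]
  apply X_mul_le
  intro α hα
  constructor
  · rw [Finsupp.add_apply, Finsupp.single_eq_of_ne (by decide), add_zero]
    exact Nat.lt_succ_of_lt hα.1
  · rw [Finsupp.add_apply, Finsupp.single_eq_of_ne (by decide), add_zero]
    exact hα.2

theorem hP_le_succ (D m N : ℕ) : hP D m N ≤ hP (D + 1) m N :=
  X_mul_le (fun _ _ => trivial)

theorem gpt_ne {N : ℕ} (i : Fin N) (l : Fin 3) : gpt N i l ≠ 0 :=
  (gpt_generic N).ne_zero (i, l)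

theorem hR_succ_le (H L k N : ℕ) : hR (H + 1) L k N ≤ hR H L k N + L := by
  rcases Nat.eq_zero_or_pos L with hL | hL
  · subst hL
    rw [hR_zero_right]
    exact Nat.zero_le _
  rcases Nat.eq_zero_or_pos H with hH | hH
  · subst hH
    rw [hR_zero]
    have h1 : hR (0 + 1) L k N ≤ hR (0 + 1) L k 0 := hT_anti (Nat.zero_le N)
    rw [hR_no_points] at h1
    omega
  unfold hR hT
  have e1 : H + 1 + L - 2 = (H + L - 2) + 1 := by omega
  rw [e1]
  set D := H + L - 2 with hD
  set V := TS (D + 1) (rect (H + 1) L) k (gpt N) with hV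
  let ρ : R3 →ₗ[ℂ] (Fin L → ℂ) :=
    { toFun := fun F j => coeff (ex3 j (D + 1 - j) 0) F
      map_add' := fun F G => by
        funext z
        simp
      map_smul' := fun c F => by
        funext z
        simp }
  have h1 := finrank_eq_ker_add_map ρ V
  have h2 : finrank ℂ ↥(V.map ρ) ≤ L := by
    refine (Submodule.finrank_le _).trans ?_
    rw [finrank_fin_fun]
  have h3 : V ⊓ LinearMap.ker ρ ≤
      (TS D (rect H L) k (gpt N)).map (LinearMap.mulLeft ℂ (X 2 ^ 1 : R3)) := by
    rintro F ⟨hF, hF'⟩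
    rw [SetLike.mem_coe, hV, mem_TS] at hF
    obtain ⟨h4, h5, h6⟩ := hF
    have h7 := LinearMap.mem_ker.mp hF'
    obtain ⟨G, hG1, hG2, hG3⟩ := exists_div_X2 (δ := D) (u := 1) h4 (fun α hα => by
      by_contra hcon
      have h8 := h6 α (mem_support_iff.mp hα)
      have h9 := congrFun h7 ⟨α 0, h8.2⟩
      have h10 := deg_eq h4 hα
      have h11 : ex3 (α 0) (D + 1 - α 0) 0 = α := by
        conv_rhs => rw [eq_ex3 α]
        congr 1
        · omega
        · omega
      change coeff (ex3 (α 0) (D + 1 - α 0) 0) F = 0 at h9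
      rw [h11] at h9
      exact mem_support_iff.mp hα h9)
    refine Submodule.mem_map.mpr ⟨G, ?_, by rw [LinearMap.mulLeft_apply, hG2]⟩
    rw [mem_TS]
    refine ⟨hG1, fun i => ?_, fun β hβ => ?_⟩
    · have h8 := h5 i
      rw [hG2] at h8
      exact vanishTo_of_X2_pow_mul (gpt_ne i 2) h8
    · rw [hG3] at hβ
      have h8 := h6 _ hβ
      constructor
      · have h9 := h8.1
        rw [Finsupp.add_apply, Finsupp.single_eq_same] at h9
        omega
      · have h9 := h8.2
        rwa [Finsupp.add_apply, Finsupp.single_eq_of_ne (by decide), zero_add] at h9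
  have h4 := (Submodule.finrank_mono h3).trans (Submodule.finrank_map_le _ _)
  omega

/-! ### the plane -/

theorem TS_univ {N : ℕ} (D m : ℕ) (p : Fin N → V3) :
    TS D Set.univ m p = linSys D p (fun _ => m) := by
  ext F
  rw [mem_TS]
  constructor
  · rintro ⟨h1, h2, -⟩
    exact ⟨h1, h2⟩
  · rintro ⟨h1, h2⟩
    exact ⟨h1, h2, fun _ _ => trivial⟩

theorem hP_eq {D m N : ℕ} {p : Fin N → V3} (hp : GenericPoints p) :
    finrank ℂ (linSys D p (fun _ => m)) = hP D m N := by
  unfold hP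
  rw [← hT_eq hp, TS_univ]

theorem hP_count (D m N : ℕ) : (D + 2).choose 2 ≤ hP D m N + N * (m + 1).choose 2 := by
  have h1 := hT_drop (D := D) (m := m) (T := Set.univ) (Nat.zero_le N)
  rw [Nat.sub_zero] at h1
  refine le_trans (le_of_eq ?_) h1
  unfold hT
  have h2 : TS D Set.univ m (gpt 0) = Rd D := by
    ext F
    rw [mem_TS]
    constructor
    · rintro ⟨h1, -⟩
      exact h1
    · intro h1
      exact ⟨h1, fun i => i.elim0, fun _ _ => trivial⟩
  rw [h2, finrank_Rd]

end Pool.Agent.Work.MP_0421d9_ag.LD
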