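import Pool.Agent.Work.MP_0421d9_ag.Lines

/-!
The matrix of the elementary transformations at `2 t + 1` generic points.
-/

namespace Pool.Agent.Work.MP_0421d9_ag.LD

open MvPolynomial Module

/-- a binary form in `X 2`, `X 1` -/
noncomputable def bin (n : ℕ) (f : Polynomial ℂ) : R3 :=
  ∑ j ∈ Finset.range (n + 1), C (f.coeff j) * X 2 ^ j * X 1 ^ (n - j)

/-- the coefficients of the transformation -/
structure ET {N : ℕ} (t : ℕ) (x c : Fin N → ℂ) where
  (A B C' E : Polynomial ℂ)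
  (dA : A.natDegree ≤ t)
  (dC : C'.natDegree ≤ t)
  (dB : B.natDegree ≤ t + 1)
  (dE : E.natDegree ≤ t + 1)
  (hA : ∀ i, A.eval (x i) = c i * C'.eval (x i))
  (hB : ∀ i, B.eval (x i) = c i * E.eval (x i))
  (hC : ∀ i, C'.eval (x i) ≠ 0)
  (hdet : A * E - B * C' ≠ 0)

namespace Mx

theorem gen_ne {N : ℕ} {q : Fin N → V3} (hq : GenericPoints q) (i : Fin N) (l : Fin 3) :
    q i l ≠ 0 := by
  have h := hq.ne_zero (i, l)
  exact h

theorem gen_injective {N : ℕ} {q : Fin N → V3} (hq : GenericPoints q) :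
    Function.Injective (fun i => q i 2 / q i 1) := by
  intro i j hij
  by_contra hne
  have h1 : q i 2 * q j 1 - q j 2 * q i 1 = 0 := by
    have h2 := gen_ne hq i 1
    have h3 := gen_ne hq j 1
    simp only at hij
    rw [div_eq_div_iff h2 h3] at hij
    rw [hij, sub_self]
  have h4 := (algebraicIndependent_iff.mp hq)
    (X (i, 2) * X (j, 1) - X (j, 2) * X (i, 1)) (by
      rw [map_sub, map_mul, map_mul, aeval_X, aeval_X, aeval_X, aeval_X]
      exact h1)
  have h5 := congrArg (eval (fun z : Fin N × Fin 3 =>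
    if z = (i, 2) ∨ z = (j, 1) then (1 : ℚ) else 0)) h4
  rw [map_sub, map_mul, map_mul, eval_X, eval_X, eval_X, eval_X, map_zero] at h5
  have hne' : j ≠ i := fun h => hne h.symm
  simp [hne, hne'] at h5

/-- the universal matrix -/
noncomputable def UM {N : ℕ} (t : ℕ) (σ : Fin (2 * t) → Fin N) :
    Matrix (Fin (2 * t)) (Fin (2 * t)) (MvPolynomial (Fin N × Fin 3) ℚ) :=
  fun i j => if (j : ℕ) < t then X (σ i, 2) ^ (j : ℕ) * X (σ i, 1) ^ (t - j) else
    - (X (σ i, 0) * (X (σ i, 2) ^ ((j : ℕ) - t) * X (σ i, 1) ^ (t - 1 - ((j : ℕ) - t))))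

theorem UM_det_ne {N t : ℕ} {σ : Fin (2 * t) → Fin N} (hσ : Function.Injective σ) :
    (UM t σ).det ≠ 0 := by
  intro h
  let v : Fin N × Fin 3 → ℚ := fun z => ![-((z.1 : ℕ) : ℚ) ^ t, 1, ((z.1 : ℕ) : ℚ)] z.2
  have h1 := congrArg (eval v) h
  rw [RingHom.map_det, map_zero] at h1
  have h2 : (eval v).mapMatrix (UM t σ) =
      Matrix.vandermonde (fun i : Fin (2 * t) => ((σ i : ℕ) : ℚ)) := by
    ext i j
    rw [RingHom.mapMatrix_apply, Matrix.map_apply, Matrix.vandermonde_apply]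
    unfold UM
    split_ifs with hj
    · rw [map_mul, map_pow, map_pow, eval_X, eval_X]
      simp [v]
    · rw [map_neg, map_mul, map_mul, map_pow, map_pow, eval_X, eval_X, eval_X]
      simp only [v, Matrix.cons_val_zero, Matrix.cons_val_one, Matrix.cons_val, one_pow, mul_one,
        neg_mul, neg_neg]
      rw [← pow_add]
      congr 1
      omega
  rw [h2] at h1
  refine Matrix.det_vandermonde_ne_zero_iff.mpr ?_ h1
  intro i j hij
  apply hσ
  apply Fin.ext
  have h3 : ((σ i : ℕ) : ℚ) = ((σ j : ℕ) : ℚ) := hij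
  exact_mod_cast h3

/-- no solutions of small degree -/
theorem small {N t : ℕ} {q : Fin N → V3} (hq : GenericPoints q)
    {σ : Fin (2 * t) → Fin N} (hσ : Function.Injective σ) {A C' : Polynomial ℂ}
    (hA : A ∈ Polynomial.degreeLT ℂ t) (hC : C' ∈ Polynomial.degreeLT ℂ t)
    (h : ∀ i, A.eval (q (σ i) 2 / q (σ i) 1) =
      (q (σ i) 0 / q (σ i) 1) * C'.eval (q (σ i) 2 / q (σ i) 1)) : A = 0 ∧ C' = 0 := by
  have hA' : ∀ n, t ≤ n → A.coeff n = 0 := fun n hn =>
    Polynomial.coeff_eq_zero_of_degree_lt (lt_of_lt_of_le (Polynomial.mem_degreeLT.mp hA)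
      (by exact_mod_cast hn))
  have hC' : ∀ n, t ≤ n → C'.coeff n = 0 := fun n hn =>
    Polynomial.coeff_eq_zero_of_degree_lt (lt_of_lt_of_le (Polynomial.mem_degreeLT.mp hC)
      (by exact_mod_cast hn))
  let a : MvPolynomial (Fin N × Fin 3) ℚ →ₐ[ℚ] ℂ := aeval (fun z => q z.1 z.2)
  have hdet : (a.toRingHom.mapMatrix (UM t σ)).det ≠ 0 := by
    rw [← RingHom.map_det]
    intro h0
    exact UM_det_ne hσ ((algebraicIndependent_iff.mp hq) _ h0)
  let v : Fin (2 * t) → ℂ := fun j => if (j : ℕ) < t then A.coeff j else C'.coeff ((j : ℕ) - t)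
  have hv : (a.toRingHom.mapMatrix (UM t σ)).mulVec v = 0 := by
    funext i
    have hq1 := gen_ne hq (σ i) 1
    have h1 := h i
    rw [Polynomial.eval_eq_sum_range' (n := t) _, Polynomial.eval_eq_sum_range' (n := t) _] at h1
    rotate_left
    · rcases Nat.eq_zero_or_pos t with h0 | h0
      · subst h0; exact i.elim0
      · by_contra hcon
        have h2 : C'.coeff C'.natDegree = 0 := hC' _ (by omega)
        have h3 := Polynomial.leadingCoeff_eq_zero.mp h2
        rw [h3, Polynomial.natDegree_zero] at hcon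
        omega
    · rcases Nat.eq_zero_or_pos t with h0 | h0
      · subst h0; exact i.elim0
      · by_contra hcon
        have h2 : A.coeff A.natDegree = 0 := hA' _ (by omega)
        have h3 := Polynomial.leadingCoeff_eq_zero.mp h2
        rw [h3, Polynomial.natDegree_zero] at hcon
        omega
    have h4 : (a.toRingHom.mapMatrix (UM t σ)).mulVec v i =
        ∑ j ∈ Finset.range (2 * t), (if j < t then
          q (σ i) 2 ^ j * q (σ i) 1 ^ (t - j) * A.coeff j else
          -(q (σ i) 0 * (q (σ i) 2 ^ (j - t) * q (σ i) 1 ^ (t - 1 - (j - t)))) *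
            C'.coeff (j - t)) := by
      rw [Matrix.mulVec, dotProduct, Finset.sum_range]
      refine Finset.sum_congr rfl (fun j _ => ?_)
      rw [RingHom.mapMatrix_apply, Matrix.map_apply]
      unfold UM
      simp only [v]
      split_ifs with hj
      · congr 1
        change a _ = _
        simp only [a, map_mul, map_pow, aeval_X]
      · congr 1
        change a _ = _
        simp only [a, map_mul, map_pow, map_neg, aeval_X]
    rw [h4, Pi.zero_apply, two_mul, Finset.sum_range_add]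
    have h5 : ∑ j ∈ Finset.range t, (if j < t then
          q (σ i) 2 ^ j * q (σ i) 1 ^ (t - j) * A.coeff j else
          -(q (σ i) 0 * (q (σ i) 2 ^ (j - t) * q (σ i) 1 ^ (t - 1 - (j - t)))) *
            C'.coeff (j - t)) =
        q (σ i) 1 ^ t * ∑ j ∈ Finset.range t, A.coeff j * (q (σ i) 2 / q (σ i) 1) ^ j := by
      rw [Finset.mul_sum]
      refine Finset.sum_congr rfl (fun j hj => ?_)
      rw [Finset.mem_range] at hj
      rw [if_pos hj]
      have e : q (σ i) 1 ^ t = q (σ i) 1 ^ (t - j) * q (σ i) 1 ^ j := by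
        rw [← pow_add]; congr 1; omega
      rw [e, div_pow]
      field_simp
    have h6 : ∑ j ∈ Finset.range t, (if t + j < t then
          q (σ i) 2 ^ (t + j) * q (σ i) 1 ^ (t - (t + j)) * A.coeff (t + j) else
          -(q (σ i) 0 * (q (σ i) 2 ^ (t + j - t) * q (σ i) 1 ^ (t - 1 - (t + j - t)))) *
            C'.coeff (t + j - t)) =
        -(q (σ i) 1 ^ t * (q (σ i) 0 / q (σ i) 1 *
          ∑ j ∈ Finset.range t, C'.coeff j * (q (σ i) 2 / q (σ i) 1) ^ j)) := by
      rw [Finset.mul_sum, Finset.mul_sum, ← Finset.sum_neg_distrib]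
      refine Finset.sum_congr rfl (fun j hj => ?_)
      rw [Finset.mem_range] at hj
      rw [if_neg (by omega), Nat.add_sub_cancel_left]
      have e : q (σ i) 1 ^ t = q (σ i) 1 ^ (t - 1 - j) * (q (σ i) 1 ^ j * q (σ i) 1) := by
        rw [← pow_succ, ← pow_add]; congr 1; omega
      rw [e, div_pow]
      field_simp
    rw [h5, h6, h1]
    ring
  have hv0 : v = 0 := by
    by_contra hne
    exact hdet (Matrix.exists_mulVec_eq_zero_iff.mp ⟨v, hne, hv⟩)
  constructor
  · ext n
    rw [Polynomial.coeff_zero]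
    rcases Nat.lt_or_ge n t with hn | hn
    · have h1 := congrFun hv0 ⟨n, by omega⟩
      simp only [v, Pi.zero_apply] at h1
      rwa [if_pos hn] at h1
    · exact hA' n hn
  · ext n
    rw [Polynomial.coeff_zero]
    rcases Nat.lt_or_ge n t with hn | hn
    · have h1 := congrFun hv0 ⟨t + n, by omega⟩
      simp only [v, Pi.zero_apply] at h1
      rwa [if_neg (by omega), Nat.add_sub_cancel_left] at h1
    · exact hC' n hn

/-- the solutions of the conditions, of degree `< n` -/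
noncomputable def Sol {N : ℕ} (x c : Fin N → ℂ) (n : ℕ) :
    (Polynomial.degreeLT ℂ n × Polynomial.degreeLT ℂ n) →ₗ[ℂ] (Fin N → ℂ) :=
  LinearMap.pi (fun i => (Polynomial.leval (x i)) ∘ₗ (Polynomial.degreeLT ℂ n).subtype ∘ₗ
    LinearMap.fst ℂ _ _ - c i • ((Polynomial.leval (x i)) ∘ₗ
      (Polynomial.degreeLT ℂ n).subtype ∘ₗ LinearMap.snd ℂ _ _))

theorem Sol_apply {N : ℕ} (x c : Fin N → ℂ) (n : ℕ)
    (f : Polynomial.degreeLT ℂ n × Polynomial.degreeLT ℂ n) (i : Fin N) :
    Sol x c n f i = (f.1 : Polynomial ℂ).eval (x i) - c i * (f.2 : Polynomial ℂ).eval (x i) :=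
  rfl

theorem finrank_dom (n : ℕ) :
    finrank ℂ (Polynomial.degreeLT ℂ n × Polynomial.degreeLT ℂ n) = 2 * n := by
  rw [finrank_prod, (Polynomial.degreeLTEquiv ℂ n).finrank_eq, finrank_fin_fun]
  ring

instance (n : ℕ) : Module.Finite ℂ (Polynomial.degreeLT ℂ n) :=
  Module.Finite.equiv (Polynomial.degreeLTEquiv ℂ n).symm

theorem natDegree_le_of_mem {n : ℕ} {f : Polynomial ℂ} (h : f ∈ Polynomial.degreeLT ℂ (n + 1)) :
    f.natDegree ≤ n := by
  rw [Polynomial.mem_degreeLT] at h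
  rw [Polynomial.natDegree_le_iff_degree_le]
  exact Order.le_of_lt_succ (by exact_mod_cast h)

theorem mem_of_natDegree_lt {n : ℕ} {f : Polynomial ℂ} (h : f.natDegree < n) :
    f ∈ Polynomial.degreeLT ℂ n := by
  rw [Polynomial.mem_degreeLT]
  exact (Polynomial.degree_le_natDegree).trans_lt (by exact_mod_cast h)

end Mx

theorem exists_ET {t : ℕ} (ht : 1 ≤ t) {q : Fin (2 * t + 1) → V3} (hq : GenericPoints q) :
    Nonempty (ET t (fun i => q i 2 / q i 1) (fun i => q i 0 / q i 1)) := by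
  classical
  set x : Fin (2 * t + 1) → ℂ := fun i => q i 2 / q i 1 with hx
  set c : Fin (2 * t + 1) → ℂ := fun i => q i 0 / q i 1 with hc
  have hinj : Function.Injective x := Mx.gen_injective hq
  -- no solutions of small degree, one point left out
  have small : ∀ (i₀ : Fin (2 * t + 1)) (A C' : Polynomial ℂ), A ∈ Polynomial.degreeLT ℂ t →
      C' ∈ Polynomial.degreeLT ℂ t → (∀ i, i ≠ i₀ → A.eval (x i) = c i * C'.eval (x i)) →
      A = 0 ∧ C' = 0 := by
    intro i₀ A C' hA hC h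
    exact Mx.small hq (σ := fun j => i₀.succAbove j) (Fin.succAbove_right_injective) hA hC
      (fun i => h _ (Fin.succAbove_ne i₀ i))
  -- the first row
  obtain ⟨f, hfk, hf0⟩ : ∃ f, Mx.Sol x c (t + 1) f = 0 ∧ f ≠ 0 := by
    have h1 : LinearMap.ker (Mx.Sol x c (t + 1)) ≠ ⊥ := by
      apply LinearMap.ker_ne_bot_of_finrank_lt
      rw [Mx.finrank_dom, finrank_fin_fun]
      omega
    obtain ⟨f, hf, hf0⟩ := Submodule.exists_mem_ne_zero_of_ne_bot h1
    exact ⟨f, LinearMap.mem_ker.mp hf, hf0⟩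
  obtain ⟨⟨A, hA⟩, ⟨C', hC'⟩⟩ := f
  have hAC : ∀ i, A.eval (x i) = c i * C'.eval (x i) := by
    intro i
    have h1 := congrFun hfk i
    rw [Mx.Sol_apply, Pi.zero_apply, sub_eq_zero] at h1
    exact h1
  have hne : ¬ (A = 0 ∧ C' = 0) := by
    rintro ⟨rfl, rfl⟩
    exact hf0 rfl
  -- no common root
  have hroot : ∀ ξ : ℂ, ¬ (A.eval ξ = 0 ∧ C'.eval ξ = 0) := by
    rintro ξ ⟨h1, h2⟩
    obtain ⟨A', hA'⟩ := Polynomial.dvd_iff_isRoot.mpr h1
    obtain ⟨C₁, hC₁⟩ := Polynomial.dvd_iff_isRoot.mpr h2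
    have hmem : ∀ P P' : Polynomial ℂ, P ∈ Polynomial.degreeLT ℂ (t + 1) →
        P = (Polynomial.X - Polynomial.C ξ) * P' → P' ∈ Polynomial.degreeLT ℂ t := by
      intro P P' hP hPP
      by_cases h0 : P' = 0
      · rw [h0]; exact Submodule.zero_mem _
      · apply Mx.mem_of_natDegree_lt
        have h3 := Mx.natDegree_le_of_mem hP
        rw [hPP, Polynomial.natDegree_mul (Polynomial.X_sub_C_ne_zero ξ) h0,
          Polynomial.natDegree_X_sub_C] at h3
        omega
    obtain ⟨i₀, hi₀⟩ : ∃ i₀, ∀ i, i ≠ i₀ → x i ≠ ξ := by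
      by_cases h3 : ∃ i₀, x i₀ = ξ
      · obtain ⟨i₀, h3⟩ := h3
        exact ⟨i₀, fun i hi h4 => hi (hinj (h4.trans h3.symm))⟩
      · push Not at h3
        exact ⟨0, fun i _ => h3 i⟩
    obtain ⟨h3, h4⟩ := small i₀ A' C₁ (hmem A A' hA hA') (hmem C' C₁ hC' hC₁) (fun i hi => by
      have h5 := hAC i
      rw [hA', hC₁, Polynomial.eval_mul, Polynomial.eval_mul, Polynomial.eval_sub,
        Polynomial.eval_X, Polynomial.eval_C] at h5
      have h6 := sub_ne_zero.mpr (hi₀ i hi)
      apply mul_left_cancel₀ h6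
      rw [h5]
      ring)
    apply hne
    rw [hA', hC₁, h3, h4, mul_zero]
    exact ⟨rfl, rfl⟩
  have hCx : ∀ i, C'.eval (x i) ≠ 0 := by
    intro i h1
    apply hroot (x i)
    rw [hAC i, h1, mul_zero]
    exact ⟨rfl, rfl⟩
  have hC0 : C' ≠ 0 := by
    intro h1
    apply hCx 0
    rw [h1, Polynomial.eval_zero]
  have hcop : IsCoprime A C' := by
    refine (Polynomial.isCoprime_iff_aeval_ne_zero_of_isAlgClosed (k := ℂ) ℂ A C').mpr
      (fun ξ => ?_)
    rw [Polynomial.coe_aeval_eq_eval]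
    by_contra hcon
    push Not at hcon
    exact hroot ξ hcon
  -- the second row
  have hup : ∀ P ∈ Polynomial.degreeLT ℂ (t + 1), P ∈ Polynomial.degreeLT ℂ (t + 2) := by
    intro P hP
    exact Polynomial.degreeLT_mono (by omega) hP
  have hupX : ∀ P ∈ Polynomial.degreeLT ℂ (t + 1),
      Polynomial.X * P ∈ Polynomial.degreeLT ℂ (t + 2) := by
    intro P hP
    apply Mx.mem_of_natDegree_lt
    have h1 := Mx.natDegree_le_of_mem hP
    have h2 := Polynomial.natDegree_mul_le (p := Polynomial.X) (q := P)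
    rw [Polynomial.natDegree_X] at h2
    omega
  let g₀ : Polynomial.degreeLT ℂ (t + 2) × Polynomial.degreeLT ℂ (t + 2) :=
    (⟨A, hup A hA⟩, ⟨C', hup C' hC'⟩)
  let g₁ : Polynomial.degreeLT ℂ (t + 2) × Polynomial.degreeLT ℂ (t + 2) :=
    (⟨Polynomial.X * A, hupX A hA⟩, ⟨Polynomial.X * C', hupX C' hC'⟩)
  obtain ⟨g, hgk, hg⟩ : ∃ g, Mx.Sol x c (t + 2) g = 0 ∧
      g ∉ Submodule.span ℂ {g₀, g₁} := by
    by_contra hcon
    push Not at hcon
    have h1 : LinearMap.ker (Mx.Sol x c (t + 2)) ≤ Submodule.span ℂ {g₀, g₁} :=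
      fun g hg => hcon g (LinearMap.mem_ker.mp hg)
    have h2 := Submodule.finrank_mono h1
    have h3 : finrank ℂ (Submodule.span ℂ ({g₀, g₁} : Set
        (Polynomial.degreeLT ℂ (t + 2) × Polynomial.degreeLT ℂ (t + 2)))) ≤ 2 := by
      have h4 := finrank_span_finset_le_card (R := ℂ) ({g₀, g₁} : Finset
        (Polynomial.degreeLT ℂ (t + 2) × Polynomial.degreeLT ℂ (t + 2)))
      rw [Finset.coe_insert, Finset.coe_singleton] at h4
      exact h4.trans Finset.card_le_two
    have h4 := LinearMap.finrank_range_add_finrank_ker (Mx.Sol x c (t + 2))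
    rw [Mx.finrank_dom] at h4
    have h5 := Submodule.finrank_le (LinearMap.range (Mx.Sol x c (t + 2)))
    rw [finrank_fin_fun] at h5
    omega
  obtain ⟨⟨B, hB⟩, ⟨E, hE⟩⟩ := g
  have hBE : ∀ i, B.eval (x i) = c i * E.eval (x i) := by
    intro i
    have h1 := congrFun hgk i
    rw [Mx.Sol_apply, Pi.zero_apply, sub_eq_zero] at h1
    exact h1
  refine ⟨⟨A, B, C', E, Mx.natDegree_le_of_mem hA, Mx.natDegree_le_of_mem hC',
    Mx.natDegree_le_of_mem hB, Mx.natDegree_le_of_mem hE, hAC, hBE, hCx, ?_⟩⟩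
  intro hdet
  apply hg
  have h1 : A * E = B * C' := sub_eq_zero.mp hdet
  have h2 : C' ∣ E := by
    have h3 : C' ∣ A * E := by rw [h1]; exact dvd_mul_left _ _
    exact hcop.symm.dvd_of_dvd_mul_left h3
  obtain ⟨h, hh⟩ := h2
  have h3 : B = A * h := by
    have h4 : B * C' = (A * h) * C' := by rw [← h1, hh]; ring
    exact mul_right_cancel₀ hC0 h4
  -- the degree of `h`
  have h4 : h.natDegree ≤ 1 := by
    by_cases hh0 : h = 0
    · rw [hh0, Polynomial.natDegree_zero]; omega
    by_contra hcon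
    have h5 : C'.natDegree < t := by
      have h6 := Mx.natDegree_le_of_mem hE
      rw [hh, Polynomial.natDegree_mul hC0 hh0] at h6
      omega
    have h7 : A.natDegree < t := by
      by_cases hA0 : A = 0
      · rw [hA0, Polynomial.natDegree_zero]; omega
      have h6 := Mx.natDegree_le_of_mem hB
      rw [h3, Polynomial.natDegree_mul hA0 hh0] at h6
      omega
    exact hne (small 0 A C' (Mx.mem_of_natDegree_lt h7) (Mx.mem_of_natDegree_lt h5)
      (fun i _ => hAC i))
  have h5 : h = Polynomial.C (h.coeff 1) * Polynomial.X + Polynomial.C (h.coeff 0) :=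
    Polynomial.eq_X_add_C_of_natDegree_le_one h4
  rw [Submodule.mem_span_pair]
  refine ⟨h.coeff 0, h.coeff 1, ?_⟩
  apply Prod.ext
  · apply Subtype.ext
    change h.coeff 0 • A + h.coeff 1 • (Polynomial.X * A) = B
    rw [h3]
    conv_rhs => rw [h5]
    rw [Polynomial.smul_eq_C_mul, Polynomial.smul_eq_C_mul]
    ring
  · apply Subtype.ext
    change h.coeff 0 • C' + h.coeff 1 • (Polynomial.X * C') = E
    rw [hh]
    conv_rhs => rw [h5]
    rw [Polynomial.smul_eq_C_mul, Polynomial.smul_eq_C_mul]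
    ring

end Pool.Agent.Work.MP_0421d9_ag.LD
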