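import Pool.Agent.Work.MP_0421d9_ag.MDefs
import Pool.Agent.Work.MP_0421d9_ag.UTrans

/-!
Elementary transformations for arbitrary multiplicities (helper7, after UTrans): systems of forms
of bounded degree in one variable with `2 t + 1` points of multiplicities `u i` are transformed
into systems on `P¹ × P¹` with points of multiplicities `κ - u i`.
-/

namespace Pool.Agent.Work.MP_0421d9_ag.LD

open MvPolynomial Module

namespace Tr

section

variable {t N : ℕ} {x c : Fin N → ℂ} (e : ET t x c)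

theorem isRelPrime_lv' {a b : ℂ} (h : a ≠ b) (m n : ℕ) :
    IsRelPrime (lin (lv a) ^ m) (lin (lv b) ^ n) := by
  have h1 : IsRelPrime (lin (lv a)) (lin (lv b)) := by
    rw [(lin_prime (lv_ne_zero a)).irreducible.isRelPrime_iff_not_dvd]
    exact lin_lv_not_dvd h
  exact h1.pow

/-- the product of the fibres with multiplicities -/
noncomputable def Prm (x : Fin N → ℂ) (u : Fin N → ℕ) : R3 := ∏ i, lin (lv (x i)) ^ u i

theorem Prm_isHomogeneous (u : Fin N → ℕ) : (Prm x u).IsHomogeneous (∑ i, u i) := by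
  unfold Prm
  have h1 := IsHomogeneous.prod Finset.univ (fun i => lin (lv (x i)) ^ u i) (fun i => 1 * u i)
    (fun i _ => (lin_isHomogeneous (lv (x i))).pow (u i))
  simpa only [one_mul] using h1

theorem Prm_ne_zero (u : Fin N → ℕ) : Prm x u ≠ 0 :=
  Finset.prod_ne_zero_iff.mpr fun i _ => pow_ne_zero _ (lin_prime (lv_ne_zero _)).ne_zero

theorem degreeOf_Prm (u : Fin N → ℕ) : degreeOf 2 (Prm x u) = ∑ i, u i := by
  unfold Prm
  rw [degreeOf_prod_eq _ _ (fun i _ => pow_ne_zero _ (lin_prime (lv_ne_zero _)).ne_zero)]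
  refine Finset.sum_congr rfl (fun i _ => ?_)
  rw [degreeOf_pow_eq _ _ _ (lin_prime (lv_ne_zero _)).ne_zero, degreeOf_lv, mul_one]

theorem Prm_dvd {κ D : ℕ} {u : Fin N → ℕ} (hx : Function.Injective x) (hD : κ ≤ D) {F : R3}
    (hF : F.IsHomogeneous D) (h0 : ∀ α, coeff α F ≠ 0 → α 0 ≤ κ)
    (hv : ∀ i, VanishTo F (pp e i) (u i)) : Prm x u ∣ psi e κ F := by
  unfold Prm
  refine Fintype.prod_dvd_of_isRelPrime ?_ (fun i => lv_pow_dvd e hD hF h0 (hv i))
  intro i j hij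
  exact isRelPrime_lv' (fun h => hij (hx h)) _ _

/-- the quotient -/
theorem exists_quot_m {κ D H : ℕ} {u : Fin N → ℕ} (hx : Function.Injective x)
    (hu : ∀ i, u i ≤ κ) (hD : κ ≤ D)
    (hH : H + ∑ i, u i = D + κ * t + 1) {q : Fin N → V3} (hq1 : ∀ i, q i 1 ≠ 0)
    (hqx : ∀ i, q i 2 = x i * q i 1) (hqc : ∀ i, c i * q i 1 = q i 0)
    {F : R3} (hF : F.IsHomogeneous D) (h0 : ∀ α, coeff α F ≠ 0 → α 0 ≤ κ)
    (hv : ∀ i, VanishTo F (pp e i) (u i)) :
    ∃ G ∈ TSm (H + (κ + 1) - 2) (rect H (κ + 1)) (fun i => κ - u i) q,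
      psi e κ F = Prm x u * G := by
  by_cases hpsi : psi e κ F = 0
  · exact ⟨0, Submodule.zero_mem _, by rw [hpsi, mul_zero]⟩
  obtain ⟨G₀, hG₀⟩ := Prm_dvd e hx hD hF h0 hv
  have hhom := psi_isHomogeneous e hF h0
  -- the degree
  have hdeg : ∑ i, u i ≤ D + κ * (t + 1) := by
    by_contra hcon
    apply hpsi
    rw [← homogeneousComponent_eq_self hhom, hG₀]
    exact homogeneousComponent_mul_lt (Prm_isHomogeneous u) (by omega) G₀
  set d := D + κ * (t + 1) - ∑ i, u i with hd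
  set G := homogeneousComponent d G₀ with hG
  have hPG : psi e κ F = Prm x u * G := by
    rw [hG, ← homogeneousComponent_mul (Prm_isHomogeneous u), ← hG₀]
    have e1 : ∑ i, u i + d = D + κ * (t + 1) := by omega
    rw [e1, homogeneousComponent_eq_self hhom]
  have hG0 : G ≠ 0 := by
    intro h
    exact hpsi (by rw [hPG, h, mul_zero])
  have hGhom : G.IsHomogeneous d := homogeneousComponent_isHomogeneous d G₀
  have hdeg0 : degreeOf 0 G ≤ κ := by
    have h1 : degreeOf 0 (psi e κ F) ≤ κ :=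
      degreeOf_psi e (fun α hα => degreeOf_pm_zero e (h0 α (mem_support_iff.mp hα)))
    rw [hPG, degreeOf_mul_eq (Prm_ne_zero u) hG0] at h1
    omega
  have hdeg2 : degreeOf 2 G + ∑ i, u i ≤ D + κ * t := by
    have h1 : degreeOf 2 (psi e κ F) ≤ D + κ * t :=
      degreeOf_psi e (fun α hα => degreeOf_pm_two e (h0 α (mem_support_iff.mp hα))
        (deg_eq hF hα))
    rw [hPG, degreeOf_mul_eq (Prm_ne_zero u) hG0, degreeOf_Prm] at h1
    omega
  refine ⟨G, ?_, hPG⟩
  rw [mem_TSm]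
  refine ⟨?_, fun i => ?_, fun α hα => ?_⟩
  · have e1 : H + (κ + 1) - 2 = d := by
      rw [hd]
      have e2 : κ * (t + 1) = κ * t + κ := by ring
      omega
    rw [e1]
    exact hGhom
  · have h1 := vanishTo_psi e h0 (hqx i) (hqc i)
    rw [hPG] at h1
    have h2 : Prm x u = lin (lv (x i)) ^ u i *
        ∏ j ∈ Finset.univ.erase i, lin (lv (x j)) ^ u j := by
      exact (Finset.mul_prod_erase Finset.univ (fun j => lin (lv (x j)) ^ u j)
        (Finset.mem_univ i)).symm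
    rw [h2, mul_assoc] at h1
    have h3 := vanishTo_of_pow_mul (lv_ne_zero _) (by rw [eval_lv, hqx i, sub_self]) h1
    refine vanishTo_of_eval_ne h3 ?_
    rw [map_prod]
    refine Finset.prod_ne_zero_iff.mpr (fun j hj => ?_)
    rw [map_pow, eval_lv, hqx i, ← sub_mul]
    refine pow_ne_zero _ (mul_ne_zero (sub_ne_zero.mpr fun h => ?_) (hq1 i))
    exact (Finset.ne_of_mem_erase hj) (hx h).symm
  · have h1 := monomial_le_degreeOf 0 (mem_support_iff.mpr hα)
    have h2 := monomial_le_degreeOf 2 (mem_support_iff.mpr hα)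
    constructor
    · omega
    · omega

end

end Tr

theorem hFm_swap {N : ℕ} (D κ : ℕ) (u : Fin N → ℕ) : hFm D κ u = hTm D {α | α 0 ≤ κ} u := by
  unfold hFm
  rw [← hTm_perm (Equiv.swap 0 2) (T := {α | α 0 ≤ κ})]
  congr 1
  ext α
  have h1 : (α.mapDomain (Equiv.swap (0 : Fin 3) 2)) 0 = α 2 := by
    have h2 := Finsupp.mapDomain_apply (Equiv.swap (0 : Fin 3) 2).injective α 2
    rwa [Equiv.swap_apply_right] at h2
  change α 2 ≤ κ ↔ (α.mapDomain (Equiv.swap (0 : Fin 3) 2)) 0 ≤ κ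
  rw [h1]

theorem transform_m {D κ t H : ℕ} {u : Fin (2 * t + 1) → ℕ} (ht : 1 ≤ t) (hu : ∀ i, u i ≤ κ)
    (hD : κ ≤ D) (hH : H + ∑ i, u i = D + κ * t + 1) :
    hFm D κ u ≤ hRm H (κ + 1) (fun i => κ - u i) := by
  classical
  set q := gpt (2 * t + 1) with hq
  have hgen := gpt_generic (2 * t + 1)
  rw [← hq] at hgen
  obtain ⟨e⟩ := exists_ET ht hgen
  have hx := Tr.gen_injective hgen
  rw [hFm_swap]
  refine (hTm_le (Tr.pp e)).trans ?_
  unfold hRm hTm
  rw [← hq]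
  set V := TSm D {α : Fin 3 →₀ ℕ | α 0 ≤ κ} u (Tr.pp e) with hV
  set W := TSm (H + (κ + 1) - 2) (rect H (κ + 1)) (fun i => κ - u i) q with hW
  have hmem : ∀ F ∈ V, F.IsHomogeneous D ∧ (∀ i, VanishTo F (Tr.pp e i) (u i)) ∧
      ∀ α, coeff α F ≠ 0 → α 0 ≤ κ := by
    intro F hF
    rw [hV, mem_TSm] at hF
    exact hF
  have h1 : V.map (Tr.psi e κ) ≤
      W.map (LinearMap.mulLeft ℂ (Tr.Prm (fun i => q i 2 / q i 1) u)) := by
    rintro _ ⟨F, hF, rfl⟩
    obtain ⟨h2, h3, h4⟩ := hmem F hF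
    obtain ⟨G, hG, hFG⟩ := Tr.exists_quot_m e hx hu hD hH (q := q)
      (fun i => Tr.gen_ne hgen i 1)
      (fun i => by rw [div_mul_cancel₀ _ (Tr.gen_ne hgen i 1)])
      (fun i => by rw [div_mul_cancel₀ _ (Tr.gen_ne hgen i 1)]) h2 h4 h3
    exact ⟨G, hG, by rw [LinearMap.mulLeft_apply, ← hFG]⟩
  have h2 : finrank ℂ V = finrank ℂ ↥(V.map (Tr.psi e κ)) := by
    have h3 : Function.Injective ((Tr.psi e κ) ∘ₗ V.subtype) := by
      rw [← LinearMap.ker_eq_bot, Submodule.eq_bot_iff]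
      intro F hF
      rw [LinearMap.mem_ker, LinearMap.comp_apply] at hF
      apply Subtype.ext
      obtain ⟨h4, h5, h6⟩ := hmem F.1 F.2
      refine Tr.eq_zero_of_aeval_th e h4 ⟨0, by omega⟩ ?_
      rw [Tr.aeval_th e hD h4 h6]
      change Tr.psi e κ F.1 = 0 at hF
      rw [hF, mul_zero]
    have h4 := LinearMap.finrank_range_of_inj h3
    rw [LinearMap.range_comp, Submodule.range_subtype] at h4
    exact h4.symm
  rw [h2]
  exact (Submodule.finrank_mono h1).trans (Submodule.finrank_map_le _ _)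

/-- no hypothesis `u i ≤ κ` -/
theorem transform_empty_m {D κ t : ℕ} {u : Fin (2 * t + 1) → ℕ} (ht : 1 ≤ t) (hD : κ ≤ D)
    (h : D + κ * t < ∑ i, u i) : hFm D κ u = 0 := by
  classical
  set q := gpt (2 * t + 1) with hq
  have hgen := gpt_generic (2 * t + 1)
  rw [← hq] at hgen
  obtain ⟨e⟩ := exists_ET ht hgen
  have hx := Tr.gen_injective hgen
  rw [hFm_swap, ← Nat.le_zero]
  refine (hTm_le (Tr.pp e)).trans ?_
  rw [Nat.le_zero, Submodule.finrank_eq_zero, Submodule.eq_bot_iff]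
  intro F hF
  rw [mem_TSm] at hF
  obtain ⟨h2, h3, h4⟩ := hF
  have h5 := Tr.Prm_dvd e hx hD h2 h4 h3
  have h6 : Tr.psi e κ F = 0 := by
    by_contra hpsi
    obtain ⟨G, hG⟩ := h5
    have hG0 : G ≠ 0 := by
      rintro rfl
      rw [mul_zero] at hG
      exact hpsi hG
    have h7 : degreeOf 2 (Tr.psi e κ F) ≤ D + κ * t :=
      Tr.degreeOf_psi e (fun α hα => Tr.degreeOf_pm_two e (h4 α (mem_support_iff.mp hα))
        (deg_eq h2 hα))
    rw [hG, degreeOf_mul_eq (Tr.Prm_ne_zero u) hG0, Tr.degreeOf_Prm] at h7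
    omega
  refine Tr.eq_zero_of_aeval_th e h2 ⟨0, by omega⟩ ?_
  rw [Tr.aeval_th e hD h2 h4, h6, mul_zero]

end Pool.Agent.Work.MP_0421d9_ag.LD
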