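import Pool.Agent.Work.MP_0421d9_ag.JNs
import Pool.Agent.Work.MP_0421d9_ag.MTrans

/-!
Three points of arbitrary multiplicities and points of small multiplicity: few rows, and the
nonspeciality.
-/

namespace Pool.Agent.Work.MP_0421d9_ag.LD

open MvPolynomial Module

/-- few rows -/
theorem far3_window {u D M a b : ℕ} (hM : 1 ≤ M) (hMD : M ≤ D) (ha : a ≤ D - M + 1)
    (hb : b ≤ D - M + 1) (hu : u ≤ D - M + 1) : Far3 u D M a b ((D - M).choose 2 + 2) := by
  classical
  intro r y i₁ i₂ i₃ hs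
  obtain ⟨h, hh⟩ : ∃ h, h = D - M + 1 := ⟨_, rfl⟩
  have hch := fA_choose (D := D) (u := h) (by omega)
  have e1 : D - h + 2 = M + 1 := by omega
  rw [e1] at hch
  obtain ⟨k, hk⟩ : ∃ k, k = Function.update y i₁ 0 := ⟨_, rfl⟩
  have hle : hPm D y ≤ hTm D {α | α 2 < h} k := by
    have g1 := hPm_le_point (D := D) y i₁ (by rw [hs.e1]; exact hMD)
    rw [hs.e1, ← hk, ← hFm_swap] at g1
    change _ ≤ hTm D {α | α 2 ≤ D - M} k at g1
    have g2 : {α : Fin 3 →₀ ℕ | α 2 < h} = {α | α 2 ≤ D - M} := by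
      ext α
      simp only [Set.mem_ofPred_eq]
      omega
    rw [g2]
    exact g1
  have hkh : ∀ i, k i ≤ h := by
    intro i
    rw [hk]
    by_cases g1 : i = i₁
    · rw [g1, Function.update_self]
      exact Nat.zero_le _
    · rw [Function.update_of_ne g1]
      by_cases g2 : i = i₂
      · rw [g2, hs.e2, hh]
        exact ha
      · by_cases g3 : i = i₃
        · rw [g3, hs.e3, hh]
          exact hb
        · rw [hh]
          exact (hs.small i g1 g2 g3).trans hu
  have hsum : ∑ i, (k i + 1).choose 2 + (M + 1).choose 2 = ∑ i, (y i + 1).choose 2 := by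
    rw [← Finset.add_sum_erase _ _ (Finset.mem_univ i₁),
      ← Finset.add_sum_erase _ (fun i => (y i + 1).choose 2) (Finset.mem_univ i₁), hk,
      Function.update_self, hs.e1]
    have g1 : ∑ i ∈ Finset.univ.erase i₁, (Function.update y i₁ 0 i + 1).choose 2 =
        ∑ i ∈ Finset.univ.erase i₁, (y i + 1).choose 2 :=
      Finset.sum_congr rfl (fun i hi => by
        rw [Function.update_of_ne (Finset.ne_of_mem_erase hi)])
    have g2 : (0 + 1).choose 2 = 0 := rfl
    rw [g1, g2]
    omega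
  have e2 : D - M = h - 1 := by omega
  rw [e2]
  have hcount := hPm_count D y
  refine ⟨fun g => ?_, fun g => ?_⟩
  · have h0 : hTm D {α | α 2 < h} k = 0 := by
      by_contra hcon
      have h3 : ∃ i, k i ≠ 0 := by
        by_contra h4
        push Not at h4
        have h5 : ∑ i, (k i + 1).choose 2 = 0 :=
          Finset.sum_eq_zero (fun i _ => by rw [h4 i]; rfl)
        omega
      have h4 := strip_window1 hkh (by omega) h3 hcon
      omega
    omega
  · have h4 := strip_window2 (D := D) (H := h) hkh (by omega) (by omega)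
    omega

/-- **The step along a general line.** -/
theorem ex3_stepP {u D κ M a b F : ℕ} (hu : 1 ≤ u) (huκ : u ≤ κ) (hκD : κ + 1 ≤ D)
    (h1 : Far3 u (D - κ) M a b F) (h2 : Far3 u (D - κ - 1) M a b F)
    (hF : κ.choose 2 ≤ F) (hn : 2 * F + 3 * (u + 1).choose 2 + 3 ≤ D - κ + 1)
    (hN : (M + 1).choose 2 + (a + 1).choose 2 + (b + 1).choose 2 + F + 3 * (u + 1).choose 2 + 1 ≤
      (D - κ + 2).choose 2) : Ex3 u D M a b := by
  classical
  have hch := fA_choose (D := D) (u := κ) (by omega)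
  refine ex3_of_near hu (by omega) (fun r y i₁ i₂ i₃ hs hn1 hn2 => ?_)
  have hsum := hs.sum
  obtain ⟨W, hW⟩ : ∃ W, W = (u + 1).choose 2 := ⟨_, rfl⟩
  rw [← hW] at hn hN hn1 hn2
  have hWs : ∀ i ∈ sml i₁ i₂ i₃, (y i + 1).choose 2 ≤ W := by
    intro i hi
    rw [mem_sml] at hi
    rw [hW]
    exact Nat.choose_le_choose 2 (Nat.succ_le_succ (hs.small i hi.1 hi.2.1 hi.2.2))
  obtain ⟨P, hP, h3, h4⟩ := greedy (T := fA D κ + (W + F + 1)) (sml i₁ i₂ i₃) hWs (by omega)
  obtain ⟨A, hA⟩ : ∃ A, ∑ i ∈ P, (y i + 1).choose 2 = fA D κ + A :=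
    ⟨∑ i ∈ P, (y i + 1).choose 2 - fA D κ, by omega⟩
  have hc : (κ - 1).choose 2 ≤ κ.choose 2 := Nat.choose_le_choose 2 (Nat.sub_le _ _)
  have hstrip := strip_of_finset (D := D) (κ := κ) (A := A) (y := y) P (by omega) hκD
    (fun i hi => by
      have := hP hi
      rw [mem_sml] at this
      exact (hs.small i this.1 this.2.1 this.2.2).trans huκ)
    hA (by omega) (by omega)
  have hle := hstrip.le
  have hs' := hs.offF hP
  have hoffs := sum_offF P y
  have h5 := h1 r _ i₁ i₂ i₃ hs'
  have h6 := h2 r _ i₁ i₂ i₃ hs'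
  have hcount := hPm_count D y
  have hrow : (D - κ + 2).choose 2 = (D - κ + 1) + (D - κ - 1 + 2).choose 2 := by
    have e1 : D - κ - 1 + 2 = D - κ + 1 := by omega
    rw [e1, Nat.choose_succ_succ' (D - κ + 1) 1, Nat.choose_one_right]
  have h7 := h5.2 (by omega)
  have h8 := h6.1 (by omega)
  rcases le_max_iff.mp hle with h9 | h9 <;> omega

theorem two_mul_choose_succ (n : ℕ) : 2 * (n + 1).choose 2 = n * n + n := by
  rw [tr_two_choose]
  ring

theorem two_mul_choose_two (n : ℕ) : 2 * (n + 2).choose 2 = n * n + 3 * n + 2 := by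
  have h := tr_two_choose (n + 1)
  have e1 : (n + 1) * (n + 1 + 1) = n * n + 3 * n + 2 := by ring
  rw [e1] at h
  exact h

/-- numbers for the base -/
theorem base_num {u M a b ab D κ : ℕ} (hu : 1 ≤ u) (hM : 11 * (u + 1) ^ 2 ≤ M)
    (ha2 : a ≤ 2 * u) (hb2 : b ≤ 2 * u) (hab : a ≤ ab) (hab' : u ≤ ab) (hD : M + ab ≤ D - κ) :
    2 * ((3 * u).choose 2 + 2) + 3 * (u + 1).choose 2 + 3 ≤ D - κ + 1 ∧
    (M + 1).choose 2 + (a + 1).choose 2 + (b + 1).choose 2 + ((3 * u).choose 2 + 2) +
      3 * (u + 1).choose 2 + 1 ≤ (D - κ + 2).choose 2 := by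
  have e0 : (u + 1) ^ 2 = u * u + 2 * u + 1 := by ring
  have h1 : (M + ab + 2).choose 2 ≤ (D - κ + 2).choose 2 := Nat.choose_le_choose 2 (by omega)
  have c1 := two_mul_choose_two (M + ab)
  have c2 := two_mul_choose_succ M
  have c3 := two_mul_choose_succ a
  have c4 := two_mul_choose_succ b
  have c5 := two_mul_choose_succ u
  have c6 : 2 * (3 * u).choose 2 + 3 * u = 9 * (u * u) := by
    obtain ⟨v, rfl⟩ : ∃ v, u = v + 1 := ⟨u - 1, by omega⟩
    have h2 := two_mul_choose_succ (3 * v + 2)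
    have e1 : 3 * (v + 1) = 3 * v + 2 + 1 := by ring
    rw [e1, h2]
    ring
  have c7 : (M + ab) * (M + ab) = M * M + 2 * (M * ab) + ab * ab := by ring
  have h3 : a * a ≤ ab * ab := Nat.mul_le_mul hab hab
  have h4 : b * b ≤ 4 * (u * u) := by
    calc b * b ≤ (2 * u) * (2 * u) := Nat.mul_le_mul hb2 hb2
      _ = 4 * (u * u) := by ring
  have h5 : M * u ≤ M * ab := Nat.mul_le_mul_left M hab'
  have h6 : M * 1 ≤ M * u := Nat.mul_le_mul_left M hu
  omega

/-- few rows: the base of the induction -/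
theorem ex3_base {u M : ℕ} (hu : 1 ≤ u) (hM : 11 * (u + 1) ^ 2 ≤ M) {a b : ℕ} (hba : b ≤ a)
    (ha2 : a ≤ 2 * u) : ∀ D, M + max a u + max b u ≤ D → Ex3 u D M a b := by
  intro D
  induction D using Nat.strong_induction_on with
  | _ D ih =>
  intro hD
  obtain ⟨ab, hab⟩ : ∃ ab, ab = max a u := ⟨_, rfl⟩
  obtain ⟨bb, hbb⟩ : ∃ bb, bb = max b u := ⟨_, rfl⟩
  rw [← hab, ← hbb] at hD ih
  have e0 : (u + 1) ^ 2 = u * u + 2 * u + 1 := by ring
  have c5 := two_mul_choose_succ u
  rcases Nat.lt_or_ge D (M + ab + bb + (u + 1)) with h | h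
  · obtain ⟨hn, hN⟩ := base_num (κ := bb) (D := D) (ab := ab) hu hM ha2 (hba.trans ha2)
      (by omega) (by omega) (by omega)
    have w1 : Far3 u (D - bb) M a b ((3 * u).choose 2 + 2) := by
      refine (far3_window (by omega) (by omega) (by omega) (by omega) (by omega)).mono ?_
      have : (D - bb - M).choose 2 ≤ (3 * u).choose 2 := Nat.choose_le_choose 2 (by omega)
      omega
    have w2 : Far3 u (D - bb - 1) M a b ((3 * u).choose 2 + 2) := by
      refine (far3_window (by omega) (by omega) (by omega) (by omega) (by omega)).mono ?_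
      have : (D - bb - 1 - M).choose 2 ≤ (3 * u).choose 2 := Nat.choose_le_choose 2 (by omega)
      omega
    refine ex3_stepP hu (by omega) (by omega) w1 w2 ?_ hn hN
    have : bb.choose 2 ≤ (3 * u).choose 2 := Nat.choose_le_choose 2 (by omega)
    omega
  · obtain ⟨hn, hN⟩ := base_num (κ := u) (D := D) (ab := ab) hu hM ha2 (hba.trans ha2)
      (by omega) (by omega) (by omega)
    refine ex3_stepP (F := (3 * u).choose 2 + 2) hu le_rfl (by omega)
      (ih (D - u) (by omega) (by omega)).far (ih (D - u - 1) (by omega) (by omega)).far ?_ hn hN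
    have : u.choose 2 ≤ (3 * u).choose 2 := Nat.choose_le_choose 2 (by omega)
    omega

/-- three points impose independent conditions -/
theorem three_choose {D M a b : ℕ} (h : M + a + b ≤ D + 1) :
    (M + 1).choose 2 + (a + 1).choose 2 + (b + 1).choose 2 ≤ (D + 2).choose 2 := by
  have h1 := two_mul_choose_two D
  have c2 := two_mul_choose_succ M
  have c3 := two_mul_choose_succ a
  have c4 := two_mul_choose_succ b
  have h2 : (M + a + b) * (M + a + b) ≤ (D + 1) * (D + 1) := Nat.mul_le_mul h h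
  have e1 : (M + a + b) * (M + a + b) = M * M + a * a + b * b + 2 * (M * a) + 2 * (M * b) +
      2 * (a * b) := by ring
  have e2 : (D + 1) * (D + 1) = D * D + 2 * D + 1 := by ring
  omega

/-- **Three points of arbitrary multiplicities**, one of them at least `11 (u + 1) ^ 2`, and points
of multiplicity at most `u`. -/
theorem ex3_main {u M : ℕ} (hu : 1 ≤ u) (hM : 11 * (u + 1) ^ 2 ≤ M) :
    ∀ n a b D, a + b = n → M + max a u + max b u ≤ D → Ex3 u D M a b := by
  intro n
  induction n using Nat.strong_induction_on with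
  | _ n ih =>
  have key : ∀ a b D, a + b = n → M + max a u + max b u ≤ D → 2 * u + 1 ≤ a → Ex3 u D M a b := by
    intro a b D hab hD ha
    have e0 : (u + 1) ^ 2 = u * u + 2 * u + 1 := by ring
    refine ex3_step2 hu (by omega) (by omega) (by omega) ?_
      (ih (a - u + b) (by omega) (a - u) b (D - u) rfl (by omega))
      (ih (a - u - 1 + b) (by omega) (a - u - 1) b (D - u - 1) rfl (by omega))
    exact three_choose (by omega)
  intro a b D hab hD
  rcases Nat.lt_or_ge (2 * u) a with h1 | h1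
  · exact key a b D hab hD h1
  rcases Nat.lt_or_ge (2 * u) b with h2 | h2
  · exact (key b a D (by omega) (by omega) h2).symm
  rcases Nat.le_total b a with h3 | h3
  · exact ex3_base hu hM h3 h1 D hD
  · exact (ex3_base hu hM h3 h2 D (by omega)).symm

end Pool.Agent.Work.MP_0421d9_ag.LD
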