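import Pool.Agent.Work.MP_0421d9_ag.Num69

/-!
Orders of vanishing: products, sums, composition, divisibility by powers of a linear form.
-/

namespace Pool.Agent.Work.MP_0421d9_ag.LD

open MvPolynomial Module

theorem VanishTo.mul {f g : R3} {a : V3} {m n : ℕ} (hf : VanishTo f a m) (hg : VanishTo g a n) :
    VanishTo (f * g) a (m + n) := by
  intro k hk
  rw [translate_mul]
  conv_lhs => rw [← sum_homogeneousComponent (translate a f)]
  rw [Finset.sum_mul, map_sum]
  refine Finset.sum_eq_zero (fun j _ => ?_)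
  have hn := homogeneousComponent_isHomogeneous j (translate a f)
  by_cases h1 : j < m
  · rw [hf j h1, zero_mul, map_zero]
  · by_cases h2 : k < j
    · exact homogeneousComponent_mul_lt hn h2 _
    · obtain ⟨l, rfl⟩ : ∃ l, k = j + l := ⟨k - j, by omega⟩
      rw [homogeneousComponent_mul hn, hg l (by omega), mul_zero]

theorem VanishTo.add {f g : R3} {a : V3} {m : ℕ} (hf : VanishTo f a m) (hg : VanishTo g a m) :
    VanishTo (f + g) a m :=
  (vanSub a m).add_mem hf hg

theorem uv_zero (f : R3) (a : V3) : VanishTo f a 0 := by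
  intro k hk
  omega

theorem uv_pow {f : R3} {a : V3} (h : VanishTo f a 1) : ∀ n : ℕ, VanishTo (f ^ n) a n := by
  intro n
  induction n with
  | zero => exact uv_zero _ _
  | succ n ih =>
    rw [pow_succ]
    exact VanishTo.mul ih h

theorem uv_prod {ι : Type} (s : Finset ι) (f : ι → R3) (n : ι → ℕ) {a : V3}
    (h : ∀ i ∈ s, VanishTo (f i) a (n i)) : VanishTo (∏ i ∈ s, f i) a (∑ i ∈ s, n i) := by
  classical
  induction s using Finset.induction_on with
  | empty => exact uv_zero _ _
  | insert i s hi ih =>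
    rw [Finset.prod_insert hi, Finset.sum_insert hi]
    exact VanishTo.mul (h i (Finset.mem_insert_self i s))
      (ih fun j hj => h j (Finset.mem_insert_of_mem hj))

theorem uv_translate_zero (f : R3) : translate 0 f = f := by
  unfold translate
  have h : (fun i : Fin 3 => C ((0 : V3) i) + X i : Fin 3 → R3) = X := by
    funext i
    rw [Pi.zero_apply, C_0, zero_add]
  rw [h, aeval_X_left, AlgHom.id_apply]

theorem uv_aeval {η : Fin 3 → R3} {a : V3} (hη : ∀ i, VanishTo (η i) a 1) {G : R3} {m : ℕ}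
    (hG : ∀ α : Fin 3 →₀ ℕ, coeff α G ≠ 0 → m ≤ α.degree) : VanishTo (aeval η G) a m := by
  rw [aeval_def, eval₂_eq']
  refine (vanSub a m).sum_mem fun α hα => ?_
  have h1 := uv_prod Finset.univ (fun i => η i ^ α i) (fun i => α i)
    (fun i _ => uv_pow (hη i) (α i))
  have h2 := VanishTo.mul (uv_zero (algebraMap ℂ R3 (coeff α G)) a) h1
  refine h2.mono ?_
  have h3 := hG α (mem_support_iff.mp hα)
  rw [Finsupp.degree_eq_sum] at h3
  omega

/-- composition -/
theorem vanishTo_comp (φ : Fin 3 → R3) {F : R3} {u : V3} {m : ℕ}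
    (h : VanishTo F (fun i => eval u (φ i)) m) : VanishTo (aeval φ F) u m := by
  set b : V3 := fun i => eval u (φ i) with hb
  have h1 : aeval φ F = aeval (fun i => φ i - C (b i)) (translate b F) := by
    unfold translate
    rw [← AlgHom.comp_apply, comp_aeval]
    congr 2
    funext i
    rw [map_add, aeval_X, ← algebraMap_eq, AlgHom.commutes, algebraMap_eq]
    ring
  rw [h1]
  refine uv_aeval (fun i => ?_) (fun α hα => ?_)
  · rw [vanishTo_one_iff', map_sub, eval_C, hb, sub_self]
  · by_contra hcon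
    exact hα (vanishTo_iff_coeff.mp h α (by omega))

theorem vanishTo_smul {F : R3} {D : ℕ} (hF : F.IsHomogeneous D) {u : V3} {m : ℕ} {c : ℂ}
    (hc : c ≠ 0) (h : VanishTo F u m) : VanishTo F (c • u) m := by
  have h1 := vanishTo_comp (fun i => C c⁻¹ * X i) (F := F) (u := c • u) (m := m) (by
    have e1 : (fun i : Fin 3 => eval (c • u) (C c⁻¹ * X i : R3)) = u := by
      funext i
      rw [map_mul, eval_C, eval_X, Pi.smul_apply, smul_eq_mul, inv_mul_cancel_left₀ hc]
    rw [e1]
    exact h)
  have h2 : aeval (fun i => C c⁻¹ * X i : Fin 3 → R3) F = C (c⁻¹ ^ D) * F := by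
    rw [aeval_def, eval₂_eq']
    conv_rhs => rw [F.as_sum]
    rw [Finset.mul_sum]
    refine Finset.sum_congr rfl fun α hα => ?_
    have h3 : ∑ i, α i = D := by
      have h4 : Finsupp.weight 1 α = D := hF (mem_support_iff.mp hα)
      have h5 : α.degree = Finsupp.weight 1 α :=
        congrArg (fun f => f α) (Finsupp.degree_eq_weight_one (σ := Fin 3) (R := ℕ))
      rw [← h4, ← h5, Finsupp.degree_eq_sum]
    rw [Finset.prod_congr rfl (fun i _ => mul_pow (C c⁻¹ : R3) (X i) (α i)),
      Finset.prod_mul_distrib, Finset.prod_pow_eq_pow_sum, h3, algebraMap_eq, monomial_eq,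
      Finsupp.prod_fintype _ _ (fun i => pow_zero _), C_pow]
    ring
  rw [h2] at h1
  have h3 := VanishTo.mul (uv_zero (C (c ^ D)) (c • u)) h1
  rw [← mul_assoc, ← C_mul, ← mul_pow, mul_inv_cancel₀ hc, one_pow, C_1, one_mul, zero_add] at h3
  exact h3

/-- vanishing along a line -/
theorem lin_pow_dvd {v : V3} (hv : v ≠ 0) {W : R3} (hW : ¬ lin v ∣ W) :
    ∀ {m : ℕ} {F : R3}, (∀ u : V3, eval u (lin v) = 0 → eval u W ≠ 0 → VanishTo F u m) →
      lin v ^ m ∣ F := by
  intro m
  induction m with
  | zero =>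
    intro F _
    rw [pow_zero]
    exact one_dvd _
  | succ m ih =>
    intro F hF
    have h1 : lin v ∣ F * W := by
      apply lin_dvd_of_eval hv
      intro u hu
      rw [map_mul]
      by_cases h : eval u W = 0
      · rw [h, mul_zero]
      · rw [vanishTo_one_iff'.mp ((hF u hu h).mono (by omega)), zero_mul]
    obtain ⟨G, rfl⟩ := ((lin_prime hv).dvd_or_dvd h1).resolve_right hW
    rw [pow_succ, mul_comm (lin v ^ m)]
    refine mul_dvd_mul_left _ (ih fun u hu hW' => ?_)
    exact vanishTo_of_mul_eq hv (hF u hu hW') hu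

end Pool.Agent.Work.MP_0421d9_ag.LD
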