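import Pool.Agent.Work.MP_0421d9_ag.MDefs
import Pool.Agent.Work.MP_0421d9_ag.UVan

/-!
Monomial transformations: a monomial map `φ` of the plane, and the induced map of the exponents.
-/

namespace Pool.Agent.Work.MP_0421d9_ag.LD

open MvPolynomial Module

/-- the linear map given by a map of the exponents -/
noncomputable def trm (ρ : (Fin 3 →₀ ℕ) → (Fin 3 →₀ ℕ)) : R3 →ₗ[ℂ] R3 :=
  (basisMonomials (Fin 3) ℂ).constr ℂ (fun α => monomial (ρ α) (1 : ℂ))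

theorem trm_monomial (ρ : (Fin 3 →₀ ℕ) → (Fin 3 →₀ ℕ)) (α : Fin 3 →₀ ℕ) (c : ℂ) :
    trm ρ (monomial α c) = monomial (ρ α) c := by
  have h1 : trm ρ (monomial α 1) = monomial (ρ α) (1 : ℂ) := by
    have h2 := (basisMonomials (Fin 3) ℂ).constr_basis ℂ (fun α => monomial (ρ α) (1 : ℂ)) α
    rw [coe_basisMonomials] at h2
    exact h2
  have h3 : (monomial α c : R3) = c • monomial α 1 := by
    rw [smul_monomial, smul_eq_mul, mul_one]
  rw [h3, map_smul, h1, smul_monomial, smul_eq_mul, mul_one]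

theorem trm_apply (ρ : (Fin 3 →₀ ℕ) → (Fin 3 →₀ ℕ)) (F : R3) :
    trm ρ F = ∑ α ∈ F.support, monomial (ρ α) (coeff α F) := by
  conv_lhs => rw [F.as_sum]
  rw [map_sum]
  exact Finset.sum_congr rfl (fun α _ => trm_monomial _ _ _)

theorem coeff_trm {ρ : (Fin 3 →₀ ℕ) → (Fin 3 →₀ ℕ)} {F : R3} {β : Fin 3 →₀ ℕ}
    (h : coeff β (trm ρ F) ≠ 0) : ∃ α, coeff α F ≠ 0 ∧ ρ α = β := by
  classical
  rw [trm_apply, coeff_sum] at h
  obtain ⟨α, hα, hα'⟩ := Finset.exists_ne_zero_of_sum_ne_zero h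
  rw [coeff_monomial] at hα'
  exact ⟨α, mem_support_iff.mp hα, (ite_ne_right_iff.mp hα').1⟩

theorem trm_eq_zero {ρ : (Fin 3 →₀ ℕ) → (Fin 3 →₀ ℕ)} {F : R3}
    (hρ : ∀ α β, coeff α F ≠ 0 → coeff β F ≠ 0 → ρ α = ρ β → α = β) (h : trm ρ F = 0) : F = 0 := by
  classical
  ext α
  rw [coeff_zero]
  by_contra hcon
  have h1 := congrArg (coeff (ρ α)) h
  rw [trm_apply, coeff_sum, coeff_zero, Finset.sum_eq_single α] at h1
  · rw [coeff_monomial, if_pos rfl] at h1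
    exact hcon h1
  · intro β hβ hne
    rw [coeff_monomial, if_neg]
    intro h2
    exact hne (hρ β α (mem_support_iff.mp hβ) hcon h2)
  · intro h2
    rw [notMem_support_iff.mp h2, map_zero, coeff_zero]

theorem vanishTo_of_X_pow_mul' {q : V3} (i : Fin 3) (hq : q i ≠ 0) {μ : ℕ} (k : ℕ) {g : R3}
    (h : VanishTo (X i ^ k * g) q μ) : VanishTo g q μ := by
  have h1 : lin (Pi.single i 1) = (X i : R3) := by
    unfold lin
    rw [Finset.sum_eq_single i]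
    · rw [Pi.single_eq_same, C_1, one_mul]
    · intro j _ hj
      rw [Pi.single_eq_of_ne hj, C_0, zero_mul]
    · intro h2
      exact absurd (Finset.mem_univ i) h2
  induction k with
  | zero => rwa [pow_zero, one_mul] at h
  | succ k ih =>
    apply ih
    rw [pow_succ', mul_assoc, ← h1] at h
    rw [← h1]
    exact vanishTo_of_mul_ne h (by rw [h1, eval_X]; exact hq)

theorem vanishTo_of_monomial_mul {q : V3} (hq : ∀ i, q i ≠ 0) {μ : ℕ} (c : Fin 3 →₀ ℕ) {g : R3}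
    (h : VanishTo (monomial c (1 : ℂ) * g) q μ) : VanishTo g q μ := by
  have h1 : (monomial c (1 : ℂ) : R3) = X 0 ^ c 0 * (X 1 ^ c 1 * X 2 ^ c 2) := by
    rw [monomial_eq, C_1, one_mul, Finsupp.prod_fintype _ _ (fun i => pow_zero _),
      Fin.prod_univ_three, mul_assoc]
  rw [h1, mul_assoc, mul_assoc] at h
  exact vanishTo_of_X_pow_mul' 2 (hq 2) _
    (vanishTo_of_X_pow_mul' 1 (hq 1) _ (vanishTo_of_X_pow_mul' 0 (hq 0) _ h))

/-- the monomial map -/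
noncomputable def mmap (φ : Fin 3 → (Fin 3 →₀ ℕ)) (q : V3) : V3 :=
  fun i => eval q (monomial (φ i) (1 : ℂ))

theorem mmap_ne {φ : Fin 3 → (Fin 3 →₀ ℕ)} {q : V3} (hq : ∀ i, q i ≠ 0) (i : Fin 3) :
    mmap φ q i ≠ 0 := by
  unfold mmap
  rw [eval_monomial, one_mul, Finsupp.prod_fintype _ _ (fun i => pow_zero _),
    Finset.prod_ne_zero_iff]
  intro j _
  exact pow_ne_zero _ (hq j)

theorem aeval_monomials (φ : Fin 3 → (Fin 3 →₀ ℕ)) (α : Fin 3 →₀ ℕ) (c : ℂ) :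
    aeval (fun i => (monomial (φ i) (1 : ℂ) : R3)) (monomial α c : R3) =
      monomial (∑ i, α i • φ i) c := by
  rw [aeval_monomial, Finsupp.prod_fintype _ _ (fun i => pow_zero _), algebraMap_eq]
  have h1 : ∀ i, (monomial (φ i) (1 : ℂ) : R3) ^ α i = monomial (α i • φ i) 1 := by
    intro i
    rw [monomial_pow, one_pow]
  rw [Finset.prod_congr rfl (fun i _ => h1 i), Fin.prod_univ_three, monomial_mul, monomial_mul,
    C_mul_monomial, Fin.sum_univ_three, mul_one, mul_one, mul_one]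

theorem vanishTo_trm {φ : Fin 3 → (Fin 3 →₀ ℕ)} {ρ : (Fin 3 →₀ ℕ) → (Fin 3 →₀ ℕ)}
    {c : Fin 3 →₀ ℕ} {F : R3} (h : ∀ α, coeff α F ≠ 0 → ∑ i, α i • φ i = c + ρ α) {q : V3}
    (hq : ∀ i, q i ≠ 0) {m : ℕ} (hF : VanishTo F (mmap φ q) m) : VanishTo (trm ρ F) q m := by
  have h1 := vanishTo_comp (fun i => (monomial (φ i) (1 : ℂ) : R3)) (F := F) (u := q) (m := m) hF
  have h2 : aeval (fun i => (monomial (φ i) (1 : ℂ) : R3)) F = monomial c 1 * trm ρ F := by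
    rw [trm_apply, Finset.mul_sum]
    conv_lhs => rw [F.as_sum]
    rw [map_sum]
    refine Finset.sum_congr rfl (fun α hα => ?_)
    rw [aeval_monomials, h α (mem_support_iff.mp hα), monomial_mul, one_mul]
  rw [h2] at h1
  exact vanishTo_of_monomial_mul hq c h1

/-- data of a monomial transformation: it maps the exponents in `T` of degree `D` injectively to
exponents in `T'` of degree `D'` -/
structure MT (D D' : ℕ) (T T' : Set (Fin 3 →₀ ℕ)) where
  /-- the monomials -/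
  φ : Fin 3 → (Fin 3 →₀ ℕ)
  /-- the map of the exponents -/
  ρ : (Fin 3 →₀ ℕ) → (Fin 3 →₀ ℕ)
  /-- the common factor -/
  c : Fin 3 →₀ ℕ
  hρ : ∀ α, α.degree = D → α ∈ T → (ρ α).degree = D' ∧ ρ α ∈ T' ∧ ∑ i, α i • φ i = c + ρ α
  hinj : ∀ α β, α.degree = D → β.degree = D → α ∈ T → β ∈ T → ρ α = ρ β → α = β

theorem isHomogeneous_of_support {F : R3} {D : ℕ} (h : ∀ α, coeff α F ≠ 0 → α.degree = D) :
    F.IsHomogeneous D := by
  intro α hα
  have h3 := h α hα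
  rw [Finsupp.degree_eq_sum] at h3
  rw [Finsupp.weight_apply, Finsupp.sum_fintype]
  · simpa using h3
  · simp

theorem MT.mem {D D' : ℕ} {T T' : Set (Fin 3 →₀ ℕ)} (t : MT D D' T T') {N : ℕ} {k : Fin N → ℕ}
    {p : Fin N → V3} (hp : ∀ i j, p i j ≠ 0) {F : R3}
    (hF : F ∈ TSm D T k (fun i => mmap t.φ (p i))) : trm t.ρ F ∈ TSm D' T' k p := by
  obtain ⟨h1, h2, h3⟩ := mem_TSm.mp hF
  have h4 : ∀ α, coeff α F ≠ 0 → (t.ρ α).degree = D' ∧ t.ρ α ∈ T' ∧
      ∑ i, α i • t.φ i = t.c + t.ρ α := fun α hα => t.hρ α (degree_of_mem_support h1 hα) (h3 α hα)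
  refine mem_TSm.mpr ⟨isHomogeneous_of_support (fun β hβ => ?_), fun i => ?_, fun β hβ => ?_⟩
  · obtain ⟨α, hα, rfl⟩ := coeff_trm hβ
    exact (h4 α hα).1
  · exact vanishTo_trm (fun α hα => (h4 α hα).2.2) (hp i) (h2 i)
  · obtain ⟨α, hα, rfl⟩ := coeff_trm hβ
    exact (h4 α hα).2.1

theorem MT.eq_zero {D D' : ℕ} {T T' : Set (Fin 3 →₀ ℕ)} (t : MT D D' T T') {F : R3}
    (h1 : F.IsHomogeneous D) (h3 : ∀ α, coeff α F ≠ 0 → α ∈ T) (h : trm t.ρ F = 0) : F = 0 :=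
  trm_eq_zero (fun α β hα hβ hαβ => t.hinj α β (degree_of_mem_support h1 hα)
    (degree_of_mem_support h1 hβ) (h3 α hα) (h3 β hβ) hαβ) h

/-- a monomial transformation and the dimension -/
theorem MT.le {D D' : ℕ} {T T' : Set (Fin 3 →₀ ℕ)} (t : MT D D' T T') {N : ℕ} (k : Fin N → ℕ) :
    hTm D T k ≤ hTm D' T' k := by
  refine (hTm_le (fun i => mmap t.φ (gpt N i))).trans ?_
  have hp : ∀ i j, gpt N i j ≠ 0 := gpt_ne
  let f : TSm D T k (fun i => mmap t.φ (gpt N i)) →ₗ[ℂ] TSm D' T' k (gpt N) :=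
    LinearMap.codRestrict _ ((trm t.ρ).comp (Submodule.subtype _)) (fun F => t.mem hp F.2)
  have hf : Function.Injective f := by
    rw [← LinearMap.ker_eq_bot, LinearMap.ker_eq_bot']
    rintro ⟨F, hF⟩ h0
    obtain ⟨h1, h2, h3⟩ := mem_TSm.mp hF
    rw [Submodule.mk_eq_zero]
    exact t.eq_zero h1 h3 (congrArg Subtype.val h0)
  exact LinearMap.finrank_le_finrank_of_injective hf

/-- a monomial transformation and killing -/
theorem MT.kills {D D' : ℕ} {T T' : Set (Fin 3 →₀ ℕ)} (t : MT D D' T T') {N : ℕ} {k : Fin N → ℕ}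
    (h : Killsm D' k T') : Killsm D k T := by
  obtain ⟨p, hp, h⟩ := h
  refine ⟨fun i => mmap t.φ (p i), fun i j => mmap_ne (hp i) j, fun G h1 h2 h3 => ?_⟩
  have h4 : G ∈ TSm D T k (fun i => mmap t.φ (p i)) :=
    mem_TSm.mpr ⟨h1, h3, fun α hα => h2 α (mem_support_iff.mpr hα)⟩
  have h5 := mem_TSm.mp (t.mem hp h4)
  refine t.eq_zero h1 (fun α hα => h2 α (mem_support_iff.mpr hα)) (h _ h5.1 (fun α hα => ?_) h5.2.1)
  exact h5.2.2 α (mem_support_iff.mp hα)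

end Pool.Agent.Work.MP_0421d9_ag.LD
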