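import Pool.Agent.Work.MP_0421d9_ag.MRank
import Pool.Agent.Work.MP_0421d9_ag.MAnchor
import Pool.Agent.Work.MP_0421d9_ag.UWin

/-!
Windows on `P¹ × P¹` for arbitrary multiplicities: with few or many conditions the dimension is
the expected one up to `(H - 1).choose 2` (helper25, after UWin of helper79).
-/

namespace Pool.Agent.Work.MP_0421d9_ag.LD

open MvPolynomial Module

theorem rectm_window1 {H L N : ℕ} {k : Fin N → ℕ} (hk : ∀ i, k i ≤ H) (h : hRm H L k ≠ 0) :
    hRm H L k + ∑ i, (k i + 1).choose 2 ≤ H * L + (H - 1).choose 2 := by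
  have hH : 1 ≤ H := by
    rcases Nat.eq_zero_or_pos H with h0 | h0
    · exact absurd (by rw [h0]; exact hRm_zero L k) h
    · exact h0
  obtain ⟨w, h1, h2, h3, h4⟩ := rank_growth_m (k := k) hH
  have hmono : ∀ i j, i ≤ j → w i ≤ w j := fun i j hij => monotone_nat_of_le_succ h3 hij
  obtain ⟨L', rfl⟩ : ∃ L', L = L' + 1 := by
    rcases Nat.eq_zero_or_pos L with h0 | h0
    · exact absurd (by rw [h0]; exact hRm_zero_right H k) h
    · exact ⟨L - 1, by omega⟩
  have hw : 1 ≤ w L' := by
    by_contra hcon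
    have h5 : ∀ j, j ≤ L' → w j = 0 := fun j hj => by
      have := hmono j L' hj
      omega
    have h6 : ∀ j, j ≤ L' + 1 → hRm H j k = 0 := by
      intro j
      induction j with
      | zero => intro _; exact hRm_zero_right H k
      | succ j ih =>
        intro hj
        rw [h1, ih (by omega), h5 j (by omega)]
    exact h (h6 _ (le_refl _))
  obtain ⟨-, h6, h7⟩ := uw_low (H := H) (L := L') (h := fun L => hRm H L k) (w := w) h1 h3 h4 h2
    hw (∑ i, k i)
  have h8 := hRm_large (H := H) (L := L' + 1 + ∑ i, k i) (k := k) hk (by omega)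
  have h9 : H * (L' + 1 + ∑ i, k i) = H * (L' + 1) + (∑ i, k i) * H := by ring
  rw [h9] at h8
  omega

theorem rectm_window2 {H L N : ℕ} {k : Fin N → ℕ} (hk : ∀ i, k i ≤ H)
    (h : ∑ i, (k i + 1).choose 2 + (H - 1).choose 2 ≤ H * L) :
    hRm H L k + ∑ i, (k i + 1).choose 2 = H * L := by
  rcases Nat.eq_zero_or_pos H with hH | hH
  · subst hH
    rw [hRm_zero]
    omega
  obtain ⟨w, h1, h2, h3, h4⟩ := rank_growth_m (k := k) hH
  have hcount := hRm_count H L k
  rcases Nat.lt_or_ge (w L) H with h5 | h5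
  · obtain ⟨-, h6⟩ := uw_high (H := H) (L := L) (h := fun L => hRm H L k) (w := w) h1 h4 h3 h5 L
      (le_refl _)
    rw [Nat.sub_self, hRm_zero_right] at h6
    omega
  · have h6 : ∀ J, hRm H (L + J) k = hRm H L k + J * H ∧ w (L + J) = H := by
      intro J
      induction J with
      | zero =>
        have := h2 L
        exact ⟨by simp, by rw [Nat.add_zero]; omega⟩
      | succ J ih =>
        obtain ⟨i1, i2⟩ := ih
        have k1 : L + (J + 1) = L + J + 1 := by omega
        have k2 := h2 (L + J + 1)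
        have k3 := h3 (L + J)
        rw [k1, h1, i1, i2]
        exact ⟨by ring, by omega⟩
    have h8 := hRm_large (H := H) (L := L + ∑ i, k i) (k := k) hk (by omega)
    rw [(h6 (∑ i, k i)).1] at h8
    have h9 : H * (L + ∑ i, k i) = H * L + (∑ i, k i) * H := by ring
    rw [h9] at h8
    omega

theorem choose_pred_le {a b : ℕ} (hab : a ≤ b) : 2 * (a - 1).choose 2 ≤ a * b := by
  rw [Nat.choose_two_right]
  refine (Nat.mul_div_le _ 2).trans ?_
  refine Nat.mul_le_mul ?_ ?_
  · omega
  · omega

/-- half of the conditions: exactness, whatever the shape -/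
theorem rect_half {H L N : ℕ} {k : Fin N → ℕ} (hH : ∀ i, k i ≤ H) (hL : ∀ i, k i ≤ L)
    (h : 2 * ∑ i, (k i + 1).choose 2 ≤ H * L) :
    hRm H L k + ∑ i, (k i + 1).choose 2 = H * L := by
  rcases Nat.le_total H L with h1 | h1
  · have h2 := choose_pred_le h1
    exact rectm_window2 hH (by omega)
  · have h2 := choose_pred_le h1
    rw [Nat.mul_comm L H] at h2
    have h3 := rectm_window2 (H := L) (L := H) hL (by rw [Nat.mul_comm L H]; omega)
    rw [hRm_swap, h3, Nat.mul_comm]

end Pool.Agent.Work.MP_0421d9_ag.LD
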