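import Pool.Agent.Work.MP_0421d9_ag.JPeel
import Pool.Agent.Work.MP_0421d9_ag.JTrans
import Pool.Agent.Work.MP_0421d9_ag.MWin
import Pool.Agent.Work.MP_0421d9_ag.HExact

/-!
Cremona transformations, reflections, and strips along a line through a multiple point.
-/

namespace Pool.Agent.Work.MP_0421d9_ag.LD

open MvPolynomial Module

theorem ex3_degree (a b c : ℕ) : (ex3 a b c).degree = a + b + c := by
  rw [degree_three, ex3_zero, ex3_one, ex3_two]

theorem ex3_eq {α : Fin 3 →₀ ℕ} {a b c : ℕ} (h0 : α 0 = a) (h1 : α 1 = b) (h2 : α 2 = c) :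
    α = ex3 a b c := by
  rw [eq_ex3 α, h0, h1, h2]

theorem smul_sum_three (α : Fin 3 →₀ ℕ) (φ : Fin 3 → (Fin 3 →₀ ℕ)) (j : Fin 3) :
    (∑ i, α i • φ i) j = α 0 * φ 0 j + α 1 * φ 1 j + α 2 * φ 2 j := by
  rw [Fin.sum_univ_three, Finsupp.add_apply, Finsupp.add_apply, Finsupp.smul_apply,
    Finsupp.smul_apply, Finsupp.smul_apply, smul_eq_mul, smul_eq_mul, smul_eq_mul]

/-- the Cremona transformation -/
noncomputable def mtCrem {D : ℕ} {c : Fin 3 → ℕ} (hD : D ≤ c 0 + c 1 + c 2)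
    (hc : ∀ i, c i ≤ D) : MT D (c 0 + c 1 + c 2 - D) {α | ∀ i, α i ≤ c i} {α | ∀ i, α i ≤ c i} where
  φ := ![ex3 0 1 1, ex3 1 0 1, ex3 1 1 0]
  ρ := fun α => ex3 (c 0 - α 0) (c 1 - α 1) (c 2 - α 2)
  c := ex3 (D - c 0) (D - c 1) (D - c 2)
  hρ := by
    intro α hα hT
    rw [degree_three] at hα
    have h0 := hT 0
    have h1 := hT 1
    have h2 := hT 2
    have c0 := hc 0
    have c1 := hc 1
    have c2 := hc 2
    refine ⟨?_, ?_, ?_⟩
    · rw [ex3_degree]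
      omega
    · intro i
      fin_cases i
      · change ex3 _ _ _ 0 ≤ c 0
        rw [ex3_zero]
        omega
      · change ex3 _ _ _ 1 ≤ c 1
        rw [ex3_one]
        omega
      · change ex3 _ _ _ 2 ≤ c 2
        rw [ex3_two]
        omega
    · ext j
      rw [smul_sum_three, Finsupp.add_apply]
      fin_cases j
      · change α 0 * ex3 0 1 1 0 + α 1 * ex3 1 0 1 0 + α 2 * ex3 1 1 0 0 =
          ex3 _ _ _ 0 + ex3 _ _ _ 0
        rw [ex3_zero, ex3_zero, ex3_zero, ex3_zero, ex3_zero]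
        omega
      · change α 0 * ex3 0 1 1 1 + α 1 * ex3 1 0 1 1 + α 2 * ex3 1 1 0 1 =
          ex3 _ _ _ 1 + ex3 _ _ _ 1
        rw [ex3_one, ex3_one, ex3_one, ex3_one, ex3_one]
        omega
      · change α 0 * ex3 0 1 1 2 + α 1 * ex3 1 0 1 2 + α 2 * ex3 1 1 0 2 =
          ex3 _ _ _ 2 + ex3 _ _ _ 2
        rw [ex3_two, ex3_two, ex3_two, ex3_two, ex3_two]
        omega
  hinj := by
    intro α β hα hβ hT hT' h
    have h0 := congrArg (fun γ => γ 0) h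
    have h1 := congrArg (fun γ => γ 1) h
    have h2 := congrArg (fun γ => γ 2) h
    simp only [ex3_zero, ex3_one, ex3_two] at h0 h1 h2
    have a0 := hT 0
    have a1 := hT 1
    have a2 := hT 2
    have b0 := hT' 0
    have b1 := hT' 1
    have b2 := hT' 2
    rw [eq_ex3 α, eq_ex3 β]
    congr 1 <;> omega

/-- the reflection of a rectangle -/
noncomputable def mtRefl {D E κ A : ℕ} (hD : E + κ ≤ D) (hA : A ≤ E + 1) :
    MT D D {α | α 0 ≤ E ∧ (α 2 < κ ∨ (α 2 = κ ∧ α 0 < A))}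
      {α | α 0 ≤ E ∧ (α 2 < κ ∨ (α 2 = κ ∧ E + 1 - A ≤ α 0))} where
  φ := ![ex3 0 2 0, ex3 1 1 0, ex3 1 0 1]
  ρ := fun α => ex3 (E - α 0) (D - E + α 0 - α 2) (α 2)
  c := ex3 (D - E) E 0
  hρ := by
    rintro α hα ⟨hE, hT⟩
    rw [degree_three] at hα
    refine ⟨?_, ?_, ?_⟩
    · rw [ex3_degree]
      omega
    · change ex3 _ _ _ 0 ≤ E ∧ (ex3 _ _ _ 2 < κ ∨ (ex3 _ _ _ 2 = κ ∧ E + 1 - A ≤ ex3 _ _ _ 0))
      rw [ex3_zero, ex3_two]
      omega
    · ext j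
      rw [smul_sum_three, Finsupp.add_apply]
      fin_cases j
      · change α 0 * ex3 0 2 0 0 + α 1 * ex3 1 1 0 0 + α 2 * ex3 1 0 1 0 =
          ex3 _ _ _ 0 + ex3 _ _ _ 0
        rw [ex3_zero, ex3_zero, ex3_zero, ex3_zero, ex3_zero]
        omega
      · change α 0 * ex3 0 2 0 1 + α 1 * ex3 1 1 0 1 + α 2 * ex3 1 0 1 1 =
          ex3 _ _ _ 1 + ex3 _ _ _ 1
        rw [ex3_one, ex3_one, ex3_one, ex3_one, ex3_one]
        omega
      · change α 0 * ex3 0 2 0 2 + α 1 * ex3 1 1 0 2 + α 2 * ex3 1 0 1 2 =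
          ex3 _ _ _ 2 + ex3 _ _ _ 2
        rw [ex3_two, ex3_two, ex3_two, ex3_two, ex3_two]
        omega
  hinj := by
    rintro α β hα hβ ⟨hE, hT⟩ ⟨hE', hT'⟩ h
    rw [degree_three] at hα hβ
    have h0 := congrArg (fun γ => γ 0) h
    have h2 := congrArg (fun γ => γ 2) h
    simp only [ex3_zero, ex3_two] at h0 h2
    rw [eq_ex3 α, eq_ex3 β]
    congr 1 <;> omega

/-- division by a power of `X 1` -/
noncomputable def mtShift {D H L : ℕ} (hD : H + L - 2 ≤ D) :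
    MT D (H + L - 2) (rect H L) (rect H L) where
  φ := ![ex3 1 0 0, ex3 0 1 0, ex3 0 0 1]
  ρ := fun α => ex3 (α 0) (α 1 - (D - (H + L - 2))) (α 2)
  c := ex3 0 (D - (H + L - 2)) 0
  hρ := by
    rintro α hα ⟨hH, hL⟩
    rw [degree_three] at hα
    refine ⟨?_, ?_, ?_⟩
    · rw [ex3_degree]
      omega
    · change ex3 _ _ _ 2 < H ∧ ex3 _ _ _ 0 < L
      rw [ex3_zero, ex3_two]
      exact ⟨hH, hL⟩
    · ext j
      rw [smul_sum_three, Finsupp.add_apply]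
      fin_cases j
      · change α 0 * ex3 1 0 0 0 + α 1 * ex3 0 1 0 0 + α 2 * ex3 0 0 1 0 =
          ex3 _ _ _ 0 + ex3 _ _ _ 0
        rw [ex3_zero, ex3_zero, ex3_zero, ex3_zero, ex3_zero]
        omega
      · change α 0 * ex3 1 0 0 1 + α 1 * ex3 0 1 0 1 + α 2 * ex3 0 0 1 1 =
          ex3 _ _ _ 1 + ex3 _ _ _ 1
        rw [ex3_one, ex3_one, ex3_one, ex3_one, ex3_one]
        omega
      · change α 0 * ex3 1 0 0 2 + α 1 * ex3 0 1 0 2 + α 2 * ex3 0 0 1 2 =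
          ex3 _ _ _ 2 + ex3 _ _ _ 2
        rw [ex3_two, ex3_two, ex3_two, ex3_two, ex3_two]
        omega
  hinj := by
    rintro α β hα hβ ⟨hH, hL⟩ ⟨hH', hL'⟩ h
    rw [degree_three] at hα hβ
    have h0 := congrArg (fun γ => γ 0) h
    have h2 := congrArg (fun γ => γ 2) h
    simp only [ex3_zero, ex3_two] at h0 h2
    rw [eq_ex3 α, eq_ex3 β]
    congr 1 <;> omega

/-- rectangles -/
theorem hTm_rect_le {D H L N : ℕ} (hD : H + L - 2 ≤ D) (k : Fin N → ℕ) :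
    hTm D (rect H L) k ≤ hRm H L k := (mtShift hD).le k

/-- the Cremona transformation preserves the dimension -/
theorem crem_le {D N : ℕ} {c : Fin 3 → ℕ} (hD : D ≤ c 0 + c 1 + c 2) (hc : ∀ i, c i ≤ D)
    (k : Fin N → ℕ) : hTm D {α | ∀ i, α i ≤ c i} k ≤
      hTm (c 0 + c 1 + c 2 - D) {α | ∀ i, α i ≤ c i} k := (mtCrem hD hc).le k

/-- killing, with exponents at the end of the last row -/
theorem kills_top {D κ N B : ℕ} {u : Fin N → ℕ} {T : Set (Fin 3 →₀ ℕ)} (hκ : 1 ≤ κ)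
    (hT' : ∀ α β : Fin 3 →₀ ℕ, α ∈ T → β 2 = α 2 → β 0 ≤ α 0 → β 0 + β 1 = α 0 + α 1 → β ∈ T)
    (h1 : hTm D {α | α ∈ T ∧ α 2 ≤ κ} u ≤ B) (h0 : hTm D {α | α ∈ T ∧ α 2 ≤ κ - 1} u = 0) :
    Killsm D u {α | α ∈ T ∧ (α 2 < κ ∨ (α 2 = κ ∧ B ≤ α 0))} := by
  classical
  set V := TSm D {α : Fin 3 →₀ ℕ | α ∈ T ∧ α 2 ≤ κ} u (gpt N) with hV
  obtain ⟨h, hh0, hh⟩ := order_generic (V.map (topc κ)) B
  set g : Polynomial ℂ := ∏ i : Fin N, (Polynomial.C (gpt N i 0) -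
    Polynomial.X * Polynomial.C (gpt N i 1)) with hg
  have hg0 : g ≠ 0 := by
    rw [hg, Finset.prod_ne_zero_iff]
    intro i _ h2
    have h3 := congrArg (Polynomial.eval 0) h2
    simp only [Polynomial.eval_sub, Polynomial.eval_mul, Polynomial.eval_C, Polynomial.eval_X,
      zero_mul, sub_zero, Polynomial.eval_zero] at h3
    exact gpt_ne i 0 h3
  obtain ⟨c, hc, hc'⟩ := exists_eval_ne hh0 hg0
  have hne : ∀ i, gpt N i 0 - c * gpt N i 1 ≠ 0 := by
    rw [hg, Polynomial.eval_prod, Finset.prod_ne_zero_iff] at hc'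
    intro i
    have h2 := hc' i (Finset.mem_univ i)
    rw [Polynomial.eval_sub, Polynomial.eval_mul, Polynomial.eval_C, Polynomial.eval_C,
      Polynomial.eval_X] at h2
    exact h2
  have h2 := hh c hc
  have h3 : finrank ℂ ↥(V.map (topc κ)) ≤ B := (Submodule.finrank_map_le _ _).trans h1
  have h4 : V.map (topc κ) ⊓ ordSub c B = ⊥ := by
    have hfin : Module.Finite ℂ ↥(V.map (topc κ) ⊓ ordSub c B) :=
      Submodule.finiteDimensional_of_le inf_le_left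
    rw [← Submodule.finrank_eq_zero (R := ℂ)]
    omega
  have h5 : TSm D {α : Fin 3 →₀ ℕ | α ∈ T ∧ α 2 ≤ κ - 1} u (gpt N) = ⊥ := by
    rw [← Submodule.finrank_eq_zero (R := ℂ)]
    exact h0
  refine ⟨fun i => (shear c).mulVec (gpt N i), ?_, ?_⟩
  · intro i k
    simp only [shear_mulVec]
    fin_cases k
    · exact hne i
    · exact gpt_ne i 1
    · exact gpt_ne i 2
  · intro G hG1 hG2 hG3
    have h6 : subM (shear c) G ∈ V := by
      rw [hV, mem_TSm]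
      refine ⟨subM_isHomogeneous _ hG1, fun i => vanishTo_subM _ (hG3 i), fun β hβ => ?_⟩
      obtain ⟨α, hα, h7, h8, h9⟩ := coeff_shear c G β hβ
      have h10 := hG2 α (mem_support_iff.mpr hα)
      change α ∈ T ∧ (α 2 < κ ∨ (α 2 = κ ∧ B ≤ α 0)) at h10
      refine ⟨hT' α β h10.1 h7 h8 h9, ?_⟩
      rcases h10.2 with h11 | h11 <;> omega
    have h7 : topc κ (subM (shear c) G) ∈ V.map (topc κ) ⊓ ordSub c B := by
      refine Submodule.mem_inf.mpr ⟨⟨_, h6, rfl⟩, ?_⟩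
      intro k hk
      rw [topc_shear, ← onLine_shear, onLine_e1_e0, Polynomial.finsetSum_coeff]
      refine Finset.sum_eq_zero (fun β hβ => ?_)
      rw [Polynomial.coeff_C_mul_X_pow]
      split_ifs with h8 h9
      · exfalso
        have h10 := mem_support_iff.mp hβ
        rw [coeff_divMonomial] at h10
        have h11 := hG2 _ (mem_support_iff.mpr h10)
        have e0' : (Finsupp.single (2 : Fin 3) κ + β) 0 = β 0 := by
          rw [Finsupp.add_apply, Finsupp.single_eq_of_ne (by decide), zero_add]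
        have e2' : (Finsupp.single (2 : Fin 3) κ + β) 2 = κ + β 2 := by
          rw [Finsupp.add_apply, Finsupp.single_eq_same]
        rcases h11 with ⟨-, h11 | ⟨-, h11⟩⟩
        · rw [e2'] at h11
          omega
        · rw [e0'] at h11
          omega
      · rw [mul_zero]
      · rfl
    rw [h4, Submodule.mem_bot] at h7
    have h8 : subM (shear c) G ∈ TSm D {α : Fin 3 →₀ ℕ | α ∈ T ∧ α 2 ≤ κ - 1} u (gpt N) := by
      obtain ⟨h9, h10, h11⟩ := mem_TSm.mp h6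
      rw [mem_TSm]
      refine ⟨h9, h10, fun α hα => ?_⟩
      have h12 := h11 α hα
      change α ∈ T ∧ α 2 ≤ κ at h12
      refine ⟨h12.1, ?_⟩
      by_contra hcon
      have h13 : α 2 = κ := by omega
      apply hα
      rw [← topc_coeff h9 h13 (degree_of_mem_support h9 hα), h7, Polynomial.coeff_zero]
    rw [h5, Submodule.mem_bot] at h8
    have h9 := congrArg (subM (shear (-c))) h8
    have h10 : shear c * shear (-c) = 1 := by
      have h11 := shear_mul (-c)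
      rwa [neg_neg] at h11
    rwa [subM_subM, h10, subM_one, map_zero] at h9

/-- a strip along a line through a multiple point: the exponents of `X 0` are at most `E` -/
theorem strip_rect {r D κ A E : ℕ} {y : Fin r → ℕ} (P : Finset (Fin r)) (hκ : 1 ≤ κ)
    (hD : E + κ + 1 ≤ D) (hP : ∀ i ∈ P, y i ≤ κ)
    (hA : ∑ i ∈ P, (y i + 1).choose 2 = κ * (E + 1) + A) (h1 : (κ - 1).choose 2 < A)
    (h2 : A + κ.choose 2 ≤ E + 1) :
    hTm D {α | α 0 ≤ E} y ≤ max (hTm (D - κ) {α | α 0 ≤ E} (offF P y) - A)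
      (hTm (D - κ - 1) {α | α 0 ≤ E} (offF P y)) := by
  classical
  obtain ⟨e, he, heP, hePs, hesum⟩ := enum_finset' P
  have hek : ∀ k, (y ∘ e) k ≤ κ := fun k => hP _ (heP k)
  have hS : ∑ k, ((y ∘ e) k + 1).choose 2 = ∑ i ∈ P, (y i + 1).choose 2 :=
    hesum (fun i => (y i + 1).choose 2)
  have hTs : ∀ α β : Fin 3 →₀ ℕ, α ∈ {α : Fin 3 →₀ ℕ | α 0 ≤ E} → β 2 = α 2 → β 0 ≤ α 0 →
      β 0 + β 1 = α 0 + α 1 → β ∈ {α : Fin 3 →₀ ℕ | α 0 ≤ E} :=
    fun α β hα _ h _ => h.trans hα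
  have hreg : ∀ κ' : ℕ, hTm D {α | α ∈ {α : Fin 3 →₀ ℕ | α 0 ≤ E} ∧ α 2 ≤ κ'} (y ∘ e) =
      hTm D (rect (κ' + 1) (E + 1)) (y ∘ e) := by
    intro κ'
    congr 1
    ext α
    change (α 0 ≤ E ∧ α 2 ≤ κ') ↔ (α 2 < κ' + 1 ∧ α 0 < E + 1)
    omega
  have hz : hTm D {α | α ∈ {α : Fin 3 →₀ ℕ | α 0 ≤ E} ∧ α 2 ≤ κ - 1} (y ∘ e) = 0 := by
    rw [hreg]
    have e1 : κ - 1 + 1 = κ := by omega
    rw [e1]
    have h3 := hTm_rect_le (D := D) (H := κ) (L := E + 1) (by omega) (y ∘ e)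
    have h4 : hRm κ (E + 1) (y ∘ e) = 0 := by
      by_contra hcon
      have h5 := rectm_window1 hek hcon
      rw [hS, hA] at h5
      omega
    omega
  have hfull : hTm D {α | α ∈ {α : Fin 3 →₀ ℕ | α 0 ≤ E} ∧ α 2 ≤ κ} (y ∘ e) ≤ E + 1 - A := by
    rw [hreg]
    have h3 := hTm_rect_le (D := D) (H := κ + 1) (L := E + 1) (by omega) (y ∘ e)
    have e1 : (κ + 1) * (E + 1) = κ * (E + 1) + (E + 1) := by ring
    have h4 := rectm_window2 (H := κ + 1) (L := E + 1) (k := y ∘ e)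
      (fun k => (hek k).trans (Nat.le_succ κ)) (by
        rw [hS, hA, e1, Nat.add_sub_cancel]
        omega)
    rw [hS, hA, e1] at h4
    omega
  have hk1 := kills_top hκ hTs hfull hz
  have hk2 := (mtRefl (D := D) (E := E) (κ := κ) (A := A) (by omega) (by omega)).kills hk1
  obtain ⟨δ, rfl⟩ : ∃ δ, D = δ + 1 + κ := ⟨D - κ - 1, by omega⟩
  have h3 := peelTm (δ := δ) (κ := κ) (A := A) (T := {α : Fin 3 →₀ ℕ | α 0 ≤ E}) (y := y) he hκ
    (by omega) hTs hk2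
  have hoff : offF P y = rest e y := by
    funext i
    unfold offF
    by_cases hi : i ∈ P
    · rw [if_pos hi]
      obtain ⟨k, rfl⟩ := hePs i hi
      rw [rest_mem]
    · rw [if_neg hi]
      exact (rest_not_mem (fun ⟨k, hk⟩ => hi (hk ▸ heP k))).symm
  have hsh : ∀ j : ℕ, {β : Fin 3 →₀ ℕ | β + Finsupp.single 2 j ∈ {α : Fin 3 →₀ ℕ | α 0 ≤ E}} =
      {α : Fin 3 →₀ ℕ | α 0 ≤ E} := by
    intro j
    ext β
    change (β + Finsupp.single 2 j : Fin 3 →₀ ℕ) 0 ≤ E ↔ β 0 ≤ E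
    rw [Finsupp.add_apply, Finsupp.single_eq_of_ne (by decide), add_zero]
  rw [hsh, hsh] at h3
  have e1 : δ + 1 + κ - κ = δ + 1 := by omega
  have e2 : δ + 1 - 1 = δ := by omega
  rw [e1, e2, hoff]
  exact h3

end Pool.Agent.Work.MP_0421d9_ag.LD
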