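import Pool.Agent.Work.MP_0421d9_ag.JBase

/-!
Systems which cannot be reduced by quadratic transformations: three points of arbitrary
multiplicities, and points of small multiplicity.
-/

namespace Pool.Agent.Work.MP_0421d9_ag.LD

open MvPolynomial Module

/-- three distinct indices -/
theorem standard_three {r u d : ℕ} {y : Fin r → ℕ} {i₁ i₂ i₃ : Fin r} (h12 : i₁ ≠ i₂)
    (h13 : i₁ ≠ i₃) (h23 : i₂ ≠ i₃) (hsm : ∀ i, i ≠ i₁ → i ≠ i₂ → i ≠ i₃ → y i ≤ u)
    (hd : max (y i₁) u + max (y i₂) u + max (y i₃) u ≤ d)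
    (hl : 31 * (u + 1) ^ 2 ≤ d ∨ ∃ i, 11 * (u + 1) ^ 2 ≤ y i) :
    hPm d y = (d + 2).choose 2 - ∑ i, (y i + 1).choose 2 := by
  classical
  obtain ⟨I, hI⟩ : ∃ I : Finset (Fin r), I = {i₁, i₂, i₃} := ⟨_, rfl⟩
  have hmem : ∀ i, i ∈ I ↔ i = i₁ ∨ i = i₂ ∨ i = i₃ := by
    intro i
    rw [hI]
    simp
  have hI3 : I.card ≤ 3 := by
    rw [hI]
    exact Finset.card_le_three
  have hsmI : ∀ i, i ∉ I → y i ≤ u := by
    intro i hi
    rw [hmem, not_or, not_or] at hi
    exact hsm i hi.1 hi.2.1 hi.2.2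
  have hgen := gpt_generic r
  have hpair : ∀ i ∈ I, ∀ j ∈ I, i ≠ j → y i + y j ≤ d := by
    intro i hi j hj hij
    rw [hmem] at hi hj
    rcases hi with rfl | rfl | rfl <;> rcases hj with rfl | rfl | rfl <;> omega
  have hone : ∀ i ∈ I, y i ≤ d := by
    intro i hi
    rw [hmem] at hi
    rcases hi with rfl | rfl | rfl <;> omega
  rcases Nat.eq_zero_or_pos u with hu | hu
  · subst hu
    have h3 := three_regular (D := d) hgen y hI3 (fun i hi => by have := hone i hi; omega)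
      (fun i hi j hj hij => by have := hpair i hi j hj hij; omega)
    have h4 : onB I y = y := by
      funext i
      unfold onB
      split_ifs with hi
      · rfl
      · have := hsmI i hi
        omega
    rw [h4] at h3
    have h5 : ∑ i ∈ I, (y i + 1).choose 2 = ∑ i, (y i + 1).choose 2 := by
      rw [← sum_onB, h4]
    change hPm d y + _ = _ at h3
    omega
  have e0 : (u + 1) ^ 2 = u * u + 2 * u + 1 := by ring
  by_cases h1 : 11 * (u + 1) ^ 2 ≤ y i₁
  · exact ex3_main hu h1 _ (y i₂) (y i₃) d rfl (by omega) r y i₁ i₂ i₃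
      ⟨h12, h13, h23, rfl, rfl, rfl, hsm⟩
  by_cases h2 : 11 * (u + 1) ^ 2 ≤ y i₂
  · exact ex3_main hu h2 _ (y i₁) (y i₃) d rfl (by omega) r y i₂ i₁ i₃
      ⟨h12.symm, h23, h13, rfl, rfl, rfl, fun i g1 g2 g3 => hsm i g2 g1 g3⟩
  by_cases h3 : 11 * (u + 1) ^ 2 ≤ y i₃
  · exact ex3_main hu h3 _ (y i₁) (y i₂) d rfl (by omega) r y i₃ i₁ i₂
      ⟨h13.symm, h23.symm, h12, rfl, rfl, rfl, fun i g1 g2 g3 => hsm i g2 g3 g1⟩
  have hd31 : 31 * (u + 1) ^ 2 ≤ d := by
    rcases hl with h | ⟨i, hi⟩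
    · exact h
    · exfalso
      by_cases g1 : i = i₁
      · exact h1 (g1 ▸ hi)
      by_cases g2 : i = i₂
      · exact h2 (g2 ▸ hi)
      by_cases g3 : i = i₃
      · exact h3 (g3 ▸ hi)
      have := hsm i g1 g2 g3
      omega
  have hlt : ∀ i ∈ I, y i + 1 ≤ 11 * (u + 1) ^ 2 := by
    intro i hi
    rw [hmem] at hi
    rcases hi with rfl | rfl | rfl <;> omega
  have e1 : u ^ 2 = u * u := sq u
  have h4 := three_main (p := gpt r) hgen hI3 hsmI (d := d) (by omega)
    (fun i hi => by have := hlt i hi; omega)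
    (fun i hi j hj _ => by have := hlt i hi; have := hlt j hj; omega)
  exact h4

theorem hPm_append_zero' {r : ℕ} (D : ℕ) (m : Fin r → ℕ) :
    hPm D (Fin.append m (fun _ : Fin 3 => 0)) = hPm D m := hPm_append_zero D 3 m

/-- **Theorem.** Let `m i ≤ u` outside of a set `I` of at most three indices; let `d` be at least
the sum of the three numbers `max (m i) u`, `i ∈ I`, completed by `u`. If `d ≥ 31 (u + 1) ^ 2`, or
some `m i ≥ 11 (u + 1) ^ 2`, then the system is nonspecial. -/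
theorem standard_main {r u d : ℕ} {m : Fin r → ℕ} {I : Finset (Fin r)} (hI : I.card ≤ 3)
    (hu : ∀ i, i ∉ I → m i ≤ u) (hd : ∑ i ∈ I, max (m i) u + (3 - I.card) * u ≤ d)
    (hl : 31 * (u + 1) ^ 2 ≤ d ∨ ∃ i, 11 * (u + 1) ^ 2 ≤ m i) :
    hPm d m = (d + 2).choose 2 - ∑ i, (m i + 1).choose 2 := by
  classical
  -- three further points of multiplicity 0
  obtain ⟨y, hy⟩ : ∃ y : Fin (r + 3) → ℕ, y = Fin.append m (fun _ : Fin 3 => 0) := ⟨_, rfl⟩
  have hyl : ∀ i, y (Fin.castAdd 3 i) = m i := fun i => by rw [hy, Fin.append_left]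
  have hyr : ∀ j, y (Fin.natAdd r j) = 0 := fun j => by rw [hy, Fin.append_right]
  obtain ⟨Z, hZ⟩ : ∃ Z : Finset (Fin 3), Z.card = 3 - I.card := by
    obtain ⟨Z, -, hZ⟩ := Finset.exists_subset_card_eq (s := (Finset.univ : Finset (Fin 3)))
      (n := 3 - I.card) (by rw [Finset.card_univ, Fintype.card_fin]; omega)
    exact ⟨Z, hZ⟩
  obtain ⟨J, hJ⟩ : ∃ J : Finset (Fin (r + 3)), J = I.map (Fin.castAddEmb 3) ∪
    Z.map (Fin.natAddEmb r) := ⟨_, rfl⟩
  have hdisj : Disjoint (I.map (Fin.castAddEmb 3)) (Z.map (Fin.natAddEmb r)) := by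
    rw [Finset.disjoint_left]
    intro a ha hb
    rw [Finset.mem_map] at ha hb
    obtain ⟨i, -, hi⟩ := ha
    obtain ⟨j, -, hj⟩ := hb
    have h1 := congrArg Fin.val (hi.trans hj.symm)
    have h2 : (Fin.castAddEmb 3 i : Fin (r + 3)).1 = i.1 := rfl
    have h3 : (Fin.natAddEmb r j : Fin (r + 3)).1 = r + j.1 := rfl
    have h4 := i.2
    omega
  have hJ3 : J.card = 3 := by
    rw [hJ, Finset.card_union_of_disjoint hdisj, Finset.card_map, Finset.card_map, hZ]
    omega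
  have hsumJ : ∑ i ∈ J, max (y i) u = ∑ i ∈ I, max (m i) u + (3 - I.card) * u := by
    rw [hJ, Finset.sum_union hdisj, Finset.sum_map, Finset.sum_map]
    congr 1
    · refine Finset.sum_congr rfl (fun i _ => ?_)
      have h1 : y (Fin.castAddEmb 3 i) = m i := hyl i
      rw [h1]
    · rw [← hZ, ← smul_eq_mul, ← Finset.sum_const]
      refine Finset.sum_congr rfl (fun j _ => ?_)
      have h1 : y (Fin.natAddEmb r j) = 0 := hyr j
      rw [h1]
      exact Nat.zero_max u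
  have huJ : ∀ i, i ∉ J → y i ≤ u := by
    intro i
    refine Fin.addCases (fun j hj => ?_) (fun j _ => ?_) i
    · rw [hyl]
      apply hu
      intro h1
      apply hj
      rw [hJ, Finset.mem_union]
      exact Or.inl (Finset.mem_map_of_mem (Fin.castAddEmb 3) h1)
    · rw [hyr]
      exact Nat.zero_le _
  obtain ⟨i₁, i₂, i₃, h12, h13, h23, hJe⟩ := Finset.card_eq_three.mp hJ3
  have hsum3 : ∑ i ∈ J, max (y i) u = max (y i₁) u + max (y i₂) u + max (y i₃) u := by
    rw [hJe, Finset.sum_insert, Finset.sum_insert, Finset.sum_singleton]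
    · ring
    · rw [Finset.mem_singleton]
      exact h23
    · rw [Finset.mem_insert, Finset.mem_singleton, not_or]
      exact ⟨h12, h13⟩
  have h1 := standard_three (d := d) (y := y) h12 h13 h23 (fun i g1 g2 g3 => by
    apply huJ
    rw [hJe, Finset.mem_insert, Finset.mem_insert, Finset.mem_singleton, not_or, not_or]
    exact ⟨g1, g2, g3⟩) (by omega) (by
    rcases hl with h | ⟨i, hi⟩
    · exact Or.inl h
    · exact Or.inr ⟨Fin.castAdd 3 i, by rw [hyl]; exact hi⟩)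
  rw [hy, hPm_append_zero, sum_append m _ (fun x => (x + 1).choose 2)] at h1
  have h2 : ∑ _j : Fin 3, (0 + 1).choose 2 = 0 := Finset.sum_eq_zero (fun _ _ => rfl)
  rw [h2, Nat.add_zero] at h1
  exact h1

/-! ### quadratic transformations -/

/-- the quadratic transformation centred at the points `a`, `b`, `c` takes the system of the curves
of degree `d` with multiplicities `m` to the one with `d'` and `m'` -/
def Quadratic {r : ℕ} (x x' : ℕ × (Fin r → ℕ)) : Prop :=
  ∃ a b c : Fin r, a ≠ b ∧ a ≠ c ∧ b ≠ c ∧ x.2 a ≤ x.1 ∧ x.2 b ≤ x.1 ∧ x.2 c ≤ x.1 ∧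
    x.2 a + x.2 b ≤ x.1 + 1 ∧ x.2 a + x.2 c ≤ x.1 + 1 ∧ x.2 b + x.2 c ≤ x.1 + 1 ∧
    x'.1 + x.2 a + x.2 b + x.2 c = 2 * x.1 ∧
    x'.2 a = x.1 - x.2 b - x.2 c ∧ x'.2 b = x.1 - x.2 a - x.2 c ∧
    x'.2 c = x.1 - x.2 a - x.2 b ∧ ∀ i, i ≠ a → i ≠ b → i ≠ c → x'.2 i = x.2 i

theorem choose_int (n : ℕ) : (2 : ℤ) * ((n + 1).choose 2 : ℕ) = n * (n + 1) := by
  exact_mod_cast tr_two_choose n

theorem choose_sub_int {n k l : ℕ} (h : k + l ≤ n + 1) :
    (2 : ℤ) * ((n - k - l + 1).choose 2 : ℕ) = ((n : ℤ) - k - l) * ((n : ℤ) - k - l + 1) := by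
  rcases Nat.lt_or_ge n (k + l) with h1 | h1
  · have e1 : n - k - l = 0 := by omega
    have e2 : (n : ℤ) - k - l = -1 := by omega
    rw [e1, e2]
    norm_num
  · obtain ⟨s, rfl⟩ : ∃ s, n = k + l + s := ⟨n - (k + l), by omega⟩
    have e1 : k + l + s - k - l = s := by omega
    rw [e1, choose_int]
    push_cast
    ring

/-- quadratic transformations preserve the expected dimension -/
theorem Quadratic.count {r : ℕ} {x x' : ℕ × (Fin r → ℕ)} (h : Quadratic x x') :
    (x.1 + 2).choose 2 + ∑ i, (x'.2 i + 1).choose 2 =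
      (x'.1 + 2).choose 2 + ∑ i, (x.2 i + 1).choose 2 := by
  classical
  obtain ⟨a, b, c, hab, hac, hbc, -, -, -, p1, p2, p3, hd, ea, eb, ec, hr⟩ := h
  have hsplit : ∀ f : Fin r → ℕ, ∑ i, f i = f a + f b + f c + ∑ i ∈ sml a b c, f i := by
    intro f
    rw [sum_offP {a, b, c} f, Finset.sum_insert, Finset.sum_insert, Finset.sum_singleton]
    · unfold sml
      ring
    · rw [Finset.mem_singleton]
      exact hbc
    · rw [Finset.mem_insert, Finset.mem_singleton, not_or]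
      exact ⟨hab, hac⟩
  rw [hsplit, hsplit, ea, eb, ec]
  have h1 : ∑ i ∈ sml a b c, (x'.2 i + 1).choose 2 = ∑ i ∈ sml a b c, (x.2 i + 1).choose 2 := by
    refine Finset.sum_congr rfl (fun i hi => ?_)
    rw [mem_sml] at hi
    rw [hr i hi.1 hi.2.1 hi.2.2]
  rw [h1]
  have k1 := choose_sub_int p3
  have k2 := choose_sub_int p2
  have k3 := choose_sub_int p1
  have k4 := choose_int (x.2 a)
  have k5 := choose_int (x.2 b)
  have k6 := choose_int (x.2 c)
  have k7 := choose_int (x.1 + 1)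
  have k8 := choose_int (x'.1 + 1)
  have k9 : (x'.1 : ℤ) = 2 * x.1 - x.2 a - x.2 b - x.2 c := by omega
  push_cast at k7 k8
  have e2 : x.1 + 1 + 1 = x.1 + 2 := rfl
  have e3 : x'.1 + 1 + 1 = x'.1 + 2 := rfl
  rw [e2] at k7
  rw [e3, k9] at k8
  zify
  linarith

/-- quadratic transformations do not decrease the dimension -/
theorem Quadratic.le {r : ℕ} {x x' : ℕ × (Fin r → ℕ)} (h : Quadratic x x') :
    hPm x.1 x.2 ≤ hPm x'.1 x'.2 := by
  obtain ⟨a, b, c, hab, hac, hbc, ha, hb, hc, p1, p2, p3, hd, ea, eb, ec, hr⟩ := h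
  have hinj : Function.Injective ![a, b, c] := by
    intro i j hij
    fin_cases i <;> fin_cases j <;> simp_all
  have h1 := crem_hPm_le (D := x.1) (D' := x'.1) x.2 hinj (by
    intro j
    fin_cases j
    · exact ha
    · exact hb
    · exact hc) (by
    change x'.1 + x.2 a + x.2 b + x.2 c = 2 * x.1
    exact hd)
  refine h1.trans (le_of_eq ?_)
  congr 1
  funext l
  by_cases hl : ∃ j, ![a, b, c] j = l
  · obtain ⟨j, rfl⟩ := hl
    rw [hinj.extend_apply]
    fin_cases j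
    · change x'.1 - (x.1 - x.2 a) = x'.2 a
      omega
    · change x'.1 - (x.1 - x.2 b) = x'.2 b
      omega
    · change x'.1 - (x.1 - x.2 c) = x'.2 c
      omega
  · rw [Function.extend_apply' _ _ _ hl]
    symm
    exact hr l (fun h => hl ⟨0, h.symm⟩) (fun h => hl ⟨1, h.symm⟩) (fun h => hl ⟨2, h.symm⟩)

/-- nonspeciality is inherited along quadratic transformations -/
theorem Quadratic.nonspecial {r : ℕ} {x x' : ℕ × (Fin r → ℕ)}
    (h : Relation.ReflTransGen Quadratic x x')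
    (hx : hPm x'.1 x'.2 = (x'.1 + 2).choose 2 - ∑ i, (x'.2 i + 1).choose 2) :
    hPm x.1 x.2 = (x.1 + 2).choose 2 - ∑ i, (x.2 i + 1).choose 2 := by
  induction h using Relation.ReflTransGen.head_induction_on with
  | refl => exact hx
  | @head x₁ x₂ h1 _ ih =>
    have h2 := h1.count
    have h3 := h1.le
    have h4 := hPm_count x₁.1 x₁.2
    omega

end Pool.Agent.Work.MP_0421d9_ag.LD
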