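import Pool.Agent.Work.MP_0421d9_ag.VOdd
import Pool.Agent.Work.MP_0421d9_ag.Transfer69

/-!
Plane systems with one or two points of arbitrary multiplicity: quasi-homogeneous systems and
systems of bidegree `(a, b)` on `P¹ × P¹`.
-/

namespace Pool.Agent.Work.MP_0421d9_ag.LD

open MvPolynomial Module

/-! ### multiplicity at a coordinate point -/

theorem X_dvd_translate (i : Fin 3) (F : R3) :
    (X i : R3) ∣ translate (Pi.single i 1) F - aeval (fun j => if j = i then 1 else X j) F := by
  induction F using MvPolynomial.induction_on with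
  | C c =>
    unfold translate
    rw [algHom_C, algHom_C, sub_self]
    exact dvd_zero _
  | add f g hf hg =>
    have h : translate (Pi.single i 1) (f + g) -
        aeval (fun j => if j = i then (1 : R3) else X j) (f + g) =
        (translate (Pi.single i 1) f - aeval (fun j => if j = i then (1 : R3) else X j) f) +
        (translate (Pi.single i 1) g - aeval (fun j => if j = i then (1 : R3) else X j) g) := by
      unfold translate
      rw [map_add, map_add]
      ring
    rw [h]
    exact dvd_add hf hg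
  | mul_X f k hf =>
    have h1 : (X i : R3) ∣ (C ((Pi.single i 1 : V3) k) + X k) - (if k = i then (1 : R3) else X k) := by
      by_cases hk : k = i
      · subst hk
        rw [if_pos rfl, Pi.single_eq_same, C_1, add_sub_cancel_left]
      · rw [if_neg hk, Pi.single_eq_of_ne hk, C_0, zero_add, sub_self]
        exact dvd_zero _
    have h : translate (Pi.single i 1) (f * X k) -
        aeval (fun j => if j = i then (1 : R3) else X j) (f * X k) =
        (translate (Pi.single i 1) f - aeval (fun j => if j = i then (1 : R3) else X j) f) *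
          (C ((Pi.single i 1 : V3) k) + X k) +
        aeval (fun j => if j = i then (1 : R3) else X j) f *
          ((C ((Pi.single i 1 : V3) k) + X k) - (if k = i then (1 : R3) else X k)) := by
      unfold translate
      rw [map_mul, map_mul, aeval_X, aeval_X]
      ring
    rw [h]
    exact dvd_add (Dvd.dvd.mul_right hf _) (Dvd.dvd.mul_left h1 _)

theorem aeval_one_monomial (i : Fin 3) (γ : Fin 3 →₀ ℕ) (c : ℂ) :
    aeval (fun j => if j = i then (1 : R3) else X j) (monomial γ c) = monomial (γ.erase i) c := by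
  rw [aeval_monomial, monomial_eq (s := γ.erase i)]
  congr 1
  rw [Finsupp.prod_fintype _ _ (fun j => pow_zero _), Finsupp.prod_fintype _ _ (fun j => pow_zero _)]
  refine Finset.prod_congr rfl fun j _ => ?_
  by_cases hj : j = i
  · subst hj
    rw [if_pos rfl, one_pow, Finsupp.erase_same, pow_zero]
  · rw [if_neg hj, Finsupp.erase_ne hj]

theorem degree_erase (i : Fin 3) (α : Fin 3 →₀ ℕ) : (α.erase i).degree + α i = α.degree := by
  have h := Finsupp.erase_add_single i α
  have h2 := congrArg Finsupp.degree h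
  rw [map_add, Finsupp.degree_single] at h2
  exact h2

theorem coeff_translate_single {d : ℕ} {F : R3} (hF : F.IsHomogeneous d) (i : Fin 3)
    {α : Fin 3 →₀ ℕ} (hα : α.degree = d) :
    coeff (α.erase i) (translate (Pi.single i 1) F) = coeff α F := by
  classical
  obtain ⟨G, hG⟩ := X_dvd_translate i F
  have h1 : translate (Pi.single i 1) F =
      aeval (fun j => if j = i then (1 : R3) else X j) F + X i * G := by
    rw [← hG]; ring
  rw [h1, coeff_add, coeff_X_mul', if_neg (by simp), add_zero]
  conv_lhs => rw [F.as_sum]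
  rw [map_sum, coeff_sum]
  simp only [aeval_one_monomial, coeff_monomial]
  have hkey : ∀ γ ∈ F.support, γ.erase i = α.erase i → γ = α := by
    intro γ hγ h
    have hd : γ.degree = d := degree_of_mem_support hF (mem_support_iff.mp hγ)
    have e1 := degree_erase i γ
    have e2 := degree_erase i α
    rw [h] at e1
    have e3 : γ i = α i := by omega
    rw [← Finsupp.erase_add_single i γ, ← Finsupp.erase_add_single i α, h, e3]
  by_cases hs : α ∈ F.support
  · rw [Finset.sum_eq_single α]
    · rw [if_pos rfl]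
    · intro γ hγ hne
      rw [if_neg (fun h => hne (hkey γ hγ h))]
    · exact fun h => absurd hs h
  · rw [notMem_support_iff.mp hs]
    refine Finset.sum_eq_zero fun γ hγ => ?_
    rw [if_neg (fun h => hs (hkey γ hγ h ▸ hγ))]

/-- multiplicity at least `n` at a coordinate point bounds the exponents -/
theorem exp_le_of_vanishTo {d n : ℕ} {F : R3} (hF : F.IsHomogeneous d) {i : Fin 3}
    (h : VanishTo F (Pi.single i 1) n) {α : Fin 3 →₀ ℕ} (hα : coeff α F ≠ 0) : α i + n ≤ d := by
  have hd : α.degree = d := degree_of_mem_support hF hα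
  by_contra hcon
  have e1 := degree_erase i α
  have h1 := vanishTo_iff_coeff.mp h (α.erase i) (by omega)
  rw [coeff_translate_single hF i hd] at h1
  exact hα h1

/-! ### upper bounds by semicontinuity -/

theorem linSys_cons_le {d n m r : ℕ} (hn : n ≤ d) {p : Fin (r + 1) → V3}
    (hp : GenericPoints p) :
    finrank ℂ (linSys d p (Fin.cons n (fun _ => m))) ≤ hF d (d - n) m r := by
  refine (generic_le hp d _ (Fin.cons (Pi.single 2 1) (gpt r))).trans ?_
  refine Submodule.finrank_mono ?_
  intro F hF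
  obtain ⟨h1, h2⟩ := hF
  rw [mem_TS]
  refine ⟨h1, fun i => ?_, fun α hα => ?_⟩
  · have := h2 i.succ
    rwa [Fin.cons_succ, Fin.cons_succ] at this
  · have h3 := h2 0
    rw [Fin.cons_zero, Fin.cons_zero] at h3
    have h4 := exp_le_of_vanishTo h1 h3 hα
    change α 2 ≤ d - n
    omega

theorem linSys_cons2_le {a b m r : ℕ} {p : Fin (r + 2) → V3} (hp : GenericPoints p) :
    finrank ℂ (linSys (a + b) p (Fin.cons a (Fin.cons b (fun _ => m)))) ≤
      hR (a + 1) (b + 1) m r := by
  refine (generic_le hp (a + b) _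
    (Fin.cons (Pi.single 0 1) (Fin.cons (Pi.single 2 1) (gpt r)))).trans ?_
  have hab : a + 1 + (b + 1) - 2 = a + b := by omega
  unfold hR hT
  rw [hab]
  refine Submodule.finrank_mono ?_
  intro F hF
  obtain ⟨h1, h2⟩ := hF
  rw [mem_TS]
  refine ⟨h1, fun i => ?_, fun α hα => ?_⟩
  · have := h2 i.succ.succ
    rwa [Fin.cons_succ, Fin.cons_succ, Fin.cons_succ, Fin.cons_succ] at this
  · have h3 := h2 0
    rw [Fin.cons_zero, Fin.cons_zero] at h3
    have h4 := exp_le_of_vanishTo h1 h3 hα
    have h5 := h2 (Fin.succ 0)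
    rw [Fin.cons_succ, Fin.cons_succ, Fin.cons_zero, Fin.cons_zero] at h5
    have h6 := exp_le_of_vanishTo h1 h5 hα
    change α 2 < a + 1 ∧ α 0 < b + 1
    omega

/-! ### the two families -/

theorem sum_cons (r : ℕ) (n m : ℕ) :
    ∑ i, ((Fin.cons n (fun _ => m) : Fin (r + 1) → ℕ) i + 1).choose 2 =
      (n + 1).choose 2 + r * (m + 1).choose 2 := by
  rw [Fin.sum_univ_succ]
  simp

theorem sum_cons2 (r : ℕ) (a b m : ℕ) :
    ∑ i, ((Fin.cons a (Fin.cons b (fun _ => m)) : Fin (r + 2) → ℕ) i + 1).choose 2 =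
      (a + 1).choose 2 + (b + 1).choose 2 + r * (m + 1).choose 2 := by
  rw [Fin.sum_univ_succ, Fin.sum_univ_succ]
  simp [add_assoc]

/-- the number of monomials -/
theorem choose_rect (a b : ℕ) :
    (a + b + 2).choose 2 = (a + 1).choose 2 + (b + 1).choose 2 + (a + 1) * (b + 1) := by
  have h1 := two_mul_choose_two (a + b)
  have h2 := two_mul_choose a
  have h3 := two_mul_choose b
  have h4 : (a + b + 1) * (a + b + 2) = a * (a + 1) + b * (b + 1) + 2 * ((a + 1) * (b + 1)) := by
    ring
  omega

/-- systems of bidegree `(a, b)` on `P¹ × P¹`, as plane systems -/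
theorem bi_of_QT (hQ : ∀ θ : ℝ, 0 < θ → θ ≤ 1 → QT θ) {ε : ℝ} (hε : 0 < ε) :
    ∃ (η : ℕ) (C : ℝ), ∀ m a b r : ℕ, η * m ≤ a → η * m ≤ b →
      C * (m : ℝ) ^ (1 + ε) ≤ (a + b : ℕ) → ∀ p : Fin (r + 2) → V3, GenericPoints p →
        finrank ℂ (linSys (a + b) p (Fin.cons a (Fin.cons b (fun _ => m)))) =
          (a + b + 2).choose 2 -
            ((a + 1).choose 2 + (b + 1).choose 2 + r * (m + 1).choose 2) := by
  obtain ⟨η, C, hη, hC, hQ'⟩ := hQ (min ε 1) (lt_min hε one_pos) (min_le_right _ _)
  refine ⟨η, 2 * C, fun m a b r ha hb hab p hp => ?_⟩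
  have hMR : MR (a + 1) (b + 1) m r := by
    rcases Nat.eq_zero_or_pos m with hm | hm
    · subst hm
      exact MR_zero_mult _ _ _
    have hm1 : (1 : ℝ) ≤ m := by exact_mod_cast hm
    have hpow : (m : ℝ) ^ (1 + min ε 1) ≤ (m : ℝ) ^ (1 + ε) :=
      Real.rpow_le_rpow_of_exponent_le hm1 (by have := min_le_left ε 1; linarith)
    have hC2 : C * (m : ℝ) ^ (1 + min ε 1) ≤ C * (m : ℝ) ^ (1 + ε) :=
      mul_le_mul_of_nonneg_left hpow (by linarith)
    push_cast at hab
    rcases le_total a b with h | h
    · refine hQ' m (a + 1) (b + 1) r hm (by omega) (by omega) ?_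
      have h' : (a : ℝ) ≤ b := by exact_mod_cast h
      push_cast
      linarith
    · refine (hQ' m (b + 1) (a + 1) r hm (by omega) (by omega) ?_).swap
      have h' : (b : ℝ) ≤ a := by exact_mod_cast h
      push_cast
      linarith
  have hup := linSys_cons2_le (a := a) (b := b) (m := m) hp
  unfold MR at hMR
  rw [hMR] at hup
  have hma : m ≤ a := le_trans (Nat.le_mul_of_pos_left m hη) ha
  have hlow := chi_le (d := a + b) (p := p)
    (m := (Fin.cons a (Fin.cons b (fun _ => m)) : Fin (r + 2) → ℕ)) (by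
      intro i
      refine Fin.cases ?_ (fun i => Fin.cases ?_ (fun i => ?_) i) i
      · rw [Fin.cons_zero]; omega
      · rw [Fin.cons_succ, Fin.cons_zero]; omega
      · rw [Fin.cons_succ, Fin.cons_succ]; omega)
  rw [sum_cons2] at hlow
  have hcr := choose_rect a b
  omega

/-- quasi-homogeneous systems -/
theorem quasi_of_voF {ε : ℝ} (h : ∃ (η : ℕ) (C : ℝ), ∀ m n K N : ℕ, C ≤ m →
    C * (m : ℝ) ^ (1 + ε) ≤ n → η * m ≤ K → voF (n + K) K m N) :
    ∃ (η : ℕ) (C : ℝ), ∀ m n d r : ℕ, C ≤ m → C * (m : ℝ) ^ (1 + ε) ≤ n → n + η * m ≤ d →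
      ∀ p : Fin (r + 1) → V3, GenericPoints p →
        finrank ℂ (linSys d p (Fin.cons n (fun _ => m))) =
          (d + 2).choose 2 - ((n + 1).choose 2 + r * (m + 1).choose 2) := by
  obtain ⟨η, C, hv⟩ := h
  refine ⟨η + 1, C, fun m n d r hm hn hd p hp => ?_⟩
  obtain ⟨K, rfl⟩ : ∃ K, d = n + K := ⟨d - n, by rw [Nat.add_mul] at hd; omega⟩
  rw [Nat.add_mul, Nat.one_mul] at hd
  have h1 := hv m n K r hm hn (by omega)
  have hup := linSys_cons_le (d := n + K) (n := n) (m := m) (by omega) hp
  rw [Nat.add_sub_cancel_left] at hup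
  have hlow := chi_le (d := n + K) (p := p)
    (m := (Fin.cons n (fun _ => m) : Fin (r + 1) → ℕ)) (by
      intro i
      refine Fin.cases ?_ (fun i => ?_) i
      · rw [Fin.cons_zero]; omega
      · rw [Fin.cons_succ]; omega)
  rw [sum_cons] at hlow
  have hcr : voN (n + K) K = ((n + K + 2).choose 2 : ℕ) - ((n + 1).choose 2 : ℕ) := by
    have e1 := two_voN (n + K) K
    have e2 : (2 : ℤ) * (((n + K + 2).choose 2 : ℕ) : ℤ) = (n + K + 1) * (n + K + 2) := by
      exact_mod_cast two_mul_choose_two (n + K)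
    have e3 := vo_two_choose n
    push_cast at e1
    have e4 : (2 : ℤ) * voN (n + K) K =
        2 * ((((n + K + 2).choose 2 : ℕ) : ℤ) - (((n + 1).choose 2 : ℕ) : ℤ)) := by
      linear_combination e1 - e2 + e3
    linarith
  unfold voF at h1
  rw [hcr] at h1
  have h2 : (r : ℤ) * (((m + 1).choose 2 : ℕ) : ℤ) = ((r * (m + 1).choose 2 : ℕ) : ℤ) := by
    push_cast; ring
  rw [h2] at h1
  omega

end Pool.Agent.Work.MP_0421d9_ag.LD
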