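import Pool.Agent.Work.MP_0421d9_ag.TRel
import Pool.Agent.Work.MP_0421d9_ag.VGen

/-!
Three points of arbitrary multiplicities and arbitrarily many points of multiplicity at most `u`.
-/

namespace Pool.Agent.Work.MP_0421d9_ag.LD

open MvPolynomial Module

section corner

variable {κ : Type} {D : ℕ} (f : κ → Fin 3) (m : κ → ℕ)

/-- the forms of degree `D` with the exponents bounded as for a point of multiplicity `m i` at the
coordinate point `f i`, for `i ∈ S` -/
noncomputable def cornV (D : ℕ) (S : Finset κ) : Submodule ℂ R3 :=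
  Rd D ⊓ offSub {α | ∃ i ∈ S, D < α (f i) + m i}

theorem mem_cornV {S : Finset κ} {F : R3} : F ∈ cornV f m D S ↔ F.IsHomogeneous D ∧
    ∀ α, coeff α F ≠ 0 → ∀ i ∈ S, α (f i) + m i ≤ D := by
  unfold cornV
  rw [Submodule.mem_inf, mem_offSub]
  constructor
  · rintro ⟨h1, h2⟩
    refine ⟨h1, fun α hα i hi => ?_⟩
    by_contra hcon
    exact hα (h2 α ⟨i, hi, by omega⟩)
  · rintro ⟨h1, h2⟩
    refine ⟨h1, fun α hα => ?_⟩
    obtain ⟨i, hi, h3⟩ := hα
    by_contra hcon
    have := h2 α hcon i hi
    omega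

theorem cornV_bound [DecidableEq κ] {I : Finset κ} (hf : Set.InjOn f I) (h1 : ∀ i ∈ I, m i ≤ D + 1)
    (h2 : ∀ i ∈ I, ∀ j ∈ I, i ≠ j → m i + m j ≤ D + 1) (S : Finset κ) (hS : S ⊆ I) :
    finrank ℂ (cornV f m D S) + ∑ i ∈ S, (m i + 1).choose 2 ≤ (D + 2).choose 2 := by
  induction S using Finset.induction_on with
  | empty =>
    rw [Finset.sum_empty, Nat.add_zero, ← finrank_Rd]
    exact Submodule.finrank_mono inf_le_left
  | insert k S hk ih =>
    have ih' := ih (fun i hi => hS (Finset.mem_insert_of_mem hi))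
    have hkI : k ∈ I := hS (Finset.mem_insert_self k S)
    set W : Submodule ℂ R3 := (Hm (m k)).map (LinearMap.mulLeft ℂ (X (f k) ^ (D + 1 - m k) : R3))
      with hW
    have hXne : (X (f k) ^ (D + 1 - m k) : R3) ≠ 0 := pow_ne_zero _ (X_ne_zero _)
    have hWdim : finrank ℂ W = (m k + 1).choose 2 := by
      rw [hW, finrank_map_mulLeft hXne, finrank_Hm]
    -- the exponents of the elements of `W`
    have hWexp : ∀ F ∈ W, F.IsHomogeneous D ∧ ∀ α, coeff α F ≠ 0 →
        D < α (f k) + m k ∧ ∀ i, f i ≠ f k → α (f i) + 1 ≤ m k := by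
      intro F hF
      obtain ⟨G, hG, rfl⟩ := hF
      change (X (f k) ^ (D + 1 - m k) * G).IsHomogeneous D ∧ ∀ α,
        coeff α (X (f k) ^ (D + 1 - m k) * G) ≠ 0 → _
      have hG' : G ∈ Hm (m k) := hG
      rcases Nat.eq_zero_or_pos (m k) with h0 | h0
      · rw [h0, mem_Hm_zero] at hG'
        rw [hG', mul_zero]
        refine ⟨isHomogeneous_zero _ _ _, fun α hα => ?_⟩
        rw [coeff_zero] at hα
        exact absurd rfl hα
      obtain ⟨w, hw⟩ : ∃ w, m k = w + 1 := ⟨m k - 1, by omega⟩
      rw [hw, mem_Hm_succ] at hG'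
      have hmk := h1 k hkI
      refine ⟨?_, fun α hα => ?_⟩
      · have h3 := ((isHomogeneous_X ℂ (f k)).pow (D + 1 - m k)).mul hG'
        rw [Nat.one_mul] at h3
        have e1 : D + 1 - m k + w = D := by omega
        rwa [e1] at h3
      · have h3 : X (f k) ^ (D + 1 - m k) * G =
            monomial (Finsupp.single (f k) (D + 1 - m k)) 1 * G := by
          rw [X_pow_eq_monomial]
        rw [h3, coeff_monomial_mul'] at hα
        split_ifs at hα with h4
        · rw [one_mul] at hα
          have h5 := degree_of_mem_support hG' hα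
          have h6 : (Finsupp.single (f k) (D + 1 - m k)) (f k) ≤ α (f k) := h4 (f k)
          rw [Finsupp.single_eq_same] at h6
          have h7 : (α - Finsupp.single (f k) (D + 1 - m k)).degree + (D + 1 - m k) =
              α.degree := by
            have h8 := congrArg Finsupp.degree (tsub_add_cancel_of_le h4)
            rw [map_add, Finsupp.degree_single] at h8
            exact h8
          refine ⟨by omega, fun i hi => ?_⟩
          have h9 : (α - Finsupp.single (f k) (D + 1 - m k)) (f i) = α (f i) := by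
            rw [Finsupp.coe_tsub, Pi.sub_apply, Finsupp.single_eq_of_ne hi, Nat.sub_zero]
          have h10 : (α - Finsupp.single (f k) (D + 1 - m k)) (f i) ≤
              (α - Finsupp.single (f k) (D + 1 - m k)).degree :=
            Finsupp.le_degree (f i) _
          omega
        · exact absurd rfl hα
    have hle1 : W ≤ cornV f m D S := by
      intro F hF
      obtain ⟨h3, h4⟩ := hWexp F hF
      rw [mem_cornV]
      refine ⟨h3, fun α hα i hi => ?_⟩
      have hik : i ≠ k := fun h => hk (h ▸ hi)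
      have hiI : i ∈ I := hS (Finset.mem_insert_of_mem hi)
      have h5 : f i ≠ f k := fun h => hik (hf hiI hkI h)
      have h6 := (h4 α hα).2 i h5
      have h7 := h2 i hiI k hkI hik
      omega
    have hle2 : cornV f m D (insert k S) ≤ cornV f m D S := by
      intro F hF
      rw [mem_cornV] at hF ⊢
      exact ⟨hF.1, fun α hα i hi => hF.2 α hα i (Finset.mem_insert_of_mem hi)⟩
    have hdisj : W ⊓ cornV f m D (insert k S) = ⊥ := by
      rw [Submodule.eq_bot_iff]
      rintro F ⟨hF1, hF2⟩
      obtain ⟨h3, h4⟩ := hWexp F hF1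
      have h5 := (mem_cornV f m).mp hF2
      ext α
      rw [coeff_zero]
      by_contra hcon
      have h6 := (h4 α hcon).1
      have h7 := h5.2 α hcon k (Finset.mem_insert_self k S)
      omega
    have hfin : Module.Finite ℂ (cornV f m D S) :=
      Submodule.finiteDimensional_of_le inf_le_left
    have hfin1 : Module.Finite ℂ W := Submodule.finiteDimensional_of_le hle1
    have hfin2 : Module.Finite ℂ (cornV f m D (insert k S)) :=
      Submodule.finiteDimensional_of_le inf_le_left
    have h3 := Submodule.finrank_sup_add_finrank_inf_eq W (cornV f m D (insert k S))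
    rw [hdisj, finrank_bot, Nat.add_zero, hWdim] at h3
    have h4 : finrank ℂ ↥(W ⊔ cornV f m D (insert k S)) ≤ finrank ℂ (cornV f m D S) :=
      Submodule.finrank_mono (sup_le hle1 hle2)
    rw [Finset.sum_insert hk]
    omega

end corner

/-- at most three points impose independent conditions unless a line through two of them
obstructs -/
theorem three_regular {r D : ℕ} {p : Fin r → V3} (hp : GenericPoints p) (m : Fin r → ℕ)
    {I : Finset (Fin r)} (hI : I.card ≤ 3) (h1 : ∀ i ∈ I, m i ≤ D + 1)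
    (h2 : ∀ i ∈ I, ∀ j ∈ I, i ≠ j → m i + m j ≤ D + 1) :
    finrank ℂ (linSys D p (onB I m)) + ∑ i ∈ I, (m i + 1).choose 2 = (D + 2).choose 2 := by
  classical
  have hcount := linSys_count (d := D) p (onB I m)
  rw [sum_onB] at hcount
  refine le_antisymm ?_ hcount
  let f : Fin r → Fin 3 := fun i => if h : i ∈ I then Fin.castLE hI (I.equivFin ⟨i, h⟩) else 0
  have hf : Set.InjOn f I := by
    intro a ha b hb hab
    have ha' : a ∈ I := ha
    have hb' : b ∈ I := hb
    simp only [f, dif_pos ha', dif_pos hb'] at hab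
    have h3 := I.equivFin.injective (Fin.castLE_injective hI hab)
    exact congrArg Subtype.val h3
  refine le_trans (Nat.add_le_add_right ?_ _) (cornV_bound f m hf h1 h2 I subset_rfl)
  refine (generic_le hp D _ (fun i => Pi.single (f i) 1)).trans ?_
  have hfin : Module.Finite ℂ (cornV f m D I) :=
    Submodule.finiteDimensional_of_le inf_le_left
  apply Submodule.finrank_mono
  intro F hF
  obtain ⟨h3, h4⟩ := hF
  rw [mem_cornV]
  refine ⟨h3, fun α hα i hi => ?_⟩
  have h5 := h4 i
  have h6 : onB I m i = m i := if_pos hi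
  rw [h6] at h5
  exact exp_le_of_vanishTo h3 h5 hα

/-- the room for three points -/
theorem three_room {n a u s D₁ N M : ℕ} (han : a ≤ n) (hs : u * u + 9 * u ≤ s)
    (hD : D₁ = n + a + s) (hN : 2 * N ≤ n * (n + 1) + 2 * (a * (a + 1))) (hM : M = n + u) :
    2 * N + 6 * (u * M) + (D₁ + 1) * (u * (u + 3)) ≤ (D₁ + 2) * (D₁ + 1) := by
  subst hD hM
  have h1 : a * a ≤ a * n := Nat.mul_le_mul_left a han
  have h2 : n * (u * u + 9 * u) ≤ n * s := Nat.mul_le_mul_left n hs
  have h3 : (a + s + 1) * (u * u + 9 * u) ≤ (a + s + 1) * s := Nat.mul_le_mul_left _ hs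
  have h4 : u * u ≤ u * (a + s + 1) := Nat.mul_le_mul_left u (by omega)
  nlinarith

/-- **Three points of arbitrary multiplicities.** Let `m i ≤ u` outside of a set `I` of at most
three points. If `d ≥ m i + m j + 7 u ^ 2 + 15 u` for all `i ≠ j` in `I`, then the system is
nonspecial. -/
theorem three_main {r u d : ℕ} {p : Fin r → V3} (hp : GenericPoints p) {m : Fin r → ℕ}
    {I : Finset (Fin r)} (hI : I.card ≤ 3) (hms : ∀ i, i ∉ I → m i ≤ u)
    (h0 : 7 * u ^ 2 + 15 * u ≤ d) (h1 : ∀ i ∈ I, m i + (7 * u ^ 2 + 15 * u) ≤ d)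
    (h2 : ∀ i ∈ I, ∀ j ∈ I, i ≠ j → m i + m j + (7 * u ^ 2 + 15 * u) ≤ d) :
    finrank ℂ (linSys d p m) = (d + 2).choose 2 - ∑ i, (m i + 1).choose 2 := by
  classical
  rcases Nat.eq_zero_or_pos u with hu | hu
  · subst hu
    have h3 := three_regular (D := d) hp m hI (fun i hi => by have := h1 i hi; omega)
      (fun i hi j hj hij => by have := h2 i hi j hj hij; omega)
    have h4 : onB I m = m := by
      funext i
      unfold onB
      split_ifs with hi
      · rfl
      · have := hms i hi
        omega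
    rw [h4] at h3
    have h5 : ∑ i ∈ I, (m i + 1).choose 2 = ∑ i, (m i + 1).choose 2 := by
      rw [← sum_onB, h4]
    omega
  have e0 : u ^ 2 = u * u := sq u
  rw [e0] at h0 h1 h2
  -- the largest and the second largest multiplicity in `I`
  obtain ⟨n, a, hn, han, hnI, hna, hN⟩ : ∃ n a : ℕ, (∀ i ∈ I, m i ≤ n) ∧ a ≤ n ∧
      n + (7 * (u * u) + 15 * u) ≤ d ∧ n + a + (7 * (u * u) + 15 * u) ≤ d ∧
      2 * ∑ i ∈ I, (m i + 1).choose 2 ≤ n * (n + 1) + 2 * (a * (a + 1)) := by
    rcases I.eq_empty_or_nonempty with hE | hE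
    · refine ⟨0, 0, fun i hi => ?_, le_rfl, by omega, by omega, ?_⟩
      · rw [hE] at hi
        exact absurd hi (Finset.notMem_empty i)
      · rw [hE, Finset.sum_empty]
        omega
    obtain ⟨i₁, hi₁, hmax₁⟩ := Finset.exists_max_image I m hE
    rcases (I.erase i₁).eq_empty_or_nonempty with hE' | hE'
    · refine ⟨m i₁, 0, hmax₁, Nat.zero_le _, h1 i₁ hi₁, h1 i₁ hi₁, ?_⟩
      rw [← Finset.add_sum_erase I _ hi₁, hE', Finset.sum_empty]
      have := tr_two_choose (m i₁)
      omega
    · obtain ⟨i₂, hi₂, hmax₂⟩ := Finset.exists_max_image (I.erase i₁) m hE'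
      rw [Finset.mem_erase] at hi₂
      have h3 := h2 i₁ hi₁ i₂ hi₂.2 (Ne.symm hi₂.1)
      refine ⟨m i₁, m i₂, hmax₁, hmax₁ i₂ hi₂.2, h1 i₁ hi₁, h3, ?_⟩
      rw [← Finset.add_sum_erase I _ hi₁, Nat.mul_add, tr_two_choose]
      apply Nat.add_le_add_left
      have h4 : ∑ i ∈ I.erase i₁, (m i + 1).choose 2 ≤
          (I.erase i₁).card * (m i₂ + 1).choose 2 := by
        rw [← smul_eq_mul]
        exact Finset.sum_le_card_nsmul _ _ _ (fun i hi =>
          Nat.choose_le_choose 2 (Nat.succ_le_succ (hmax₂ i hi)))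
      have h5 : (I.erase i₁).card ≤ 2 := by
        rw [Finset.card_erase_of_mem hi₁]
        omega
      have h6 : (I.erase i₁).card * (m i₂ + 1).choose 2 ≤ 2 * (m i₂ + 1).choose 2 :=
        Nat.mul_le_mul_right _ h5
      have h7 := tr_two_choose (m i₂)
      omega
  have e1 : 6 * (u * (u + 1)) = 6 * (u * u) + 6 * u := by ring
  obtain ⟨D₁, hD₁⟩ : ∃ D₁, d = D₁ + 6 * (u * (u + 1)) := ⟨d - 6 * (u * (u + 1)), by omega⟩
  obtain ⟨s, hs⟩ : ∃ s, D₁ = n + a + s := ⟨D₁ - n - a, by omega⟩
  have hs' : u * u + 9 * u ≤ s := by omega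
  have hroom := three_room (M := n + u) han hs' hs hN rfl
  have e2 : u * (u + 1) = u * u + u := by ring
  refine rel_main (M := n + u) (D₁ := D₁) (g := (D₁ + 2 - u * (u + 1)) / 2) hp I hu (by omega)
    (fun i => ?_) hms ?_ hroom (by omega) (by omega) ?_
  · by_cases hi : i ∈ I
    · have := hn i hi
      omega
    · have := hms i hi
      omega
  · apply three_regular hp m hI
    · intro i hi
      have := hn i hi
      omega
    · intro i hi j hj hij
      have := h2 i hi j hj hij
      omega
  · have e3 : d - D₁ = 6 * u * (u + 1) := by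
      rw [hD₁, Nat.add_sub_cancel_left]
      ring
    rw [e3, Nat.mul_div_cancel _ (by omega)]
    have h3 : n + u ≤ 2 * ((D₁ + 2 - u * (u + 1)) / 2) := by omega
    calc 3 * (u * (n + u)) ≤ 3 * (u * (2 * ((D₁ + 2 - u * (u + 1)) / 2))) :=
          Nat.mul_le_mul_left _ (Nat.mul_le_mul_left _ h3)
      _ = (D₁ + 2 - u * (u + 1)) / 2 * (6 * u) := by ring

end Pool.Agent.Work.MP_0421d9_ag.LD
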