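import Pool.Agent.Work.MP_0421d9_ag.JPos
import Pool.Agent.Work.MP_0421d9_ag.HAdd
import Pool.Agent.Work.MP_0421d9_ag.TThree

/-!
Three points of arbitrary multiplicities and points of small multiplicity: the induction.
-/

namespace Pool.Agent.Work.MP_0421d9_ag.LD

open MvPolynomial Module

/-- three points of multiplicities `M`, `a`, `b`, the others have multiplicity at most `u` -/
structure St3 (u M a b : ℕ) {r : ℕ} (y : Fin r → ℕ) (i₁ i₂ i₃ : Fin r) : Prop where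
  h12 : i₁ ≠ i₂
  h13 : i₁ ≠ i₃
  h23 : i₂ ≠ i₃
  e1 : y i₁ = M
  e2 : y i₂ = a
  e3 : y i₃ = b
  small : ∀ i, i ≠ i₁ → i ≠ i₂ → i ≠ i₃ → y i ≤ u

/-- all these systems have the expected dimension in degree `D` -/
def Ex3 (u D M a b : ℕ) : Prop := ∀ (r : ℕ) (y : Fin r → ℕ) (i₁ i₂ i₃ : Fin r),
  St3 u M a b y i₁ i₂ i₃ → hPm D y = (D + 2).choose 2 - ∑ i, (y i + 1).choose 2

/-- the systems whose expected dimension is not close to zero have the expected dimension -/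
def Far3 (u D M a b F : ℕ) : Prop := ∀ (r : ℕ) (y : Fin r → ℕ) (i₁ i₂ i₃ : Fin r),
  St3 u M a b y i₁ i₂ i₃ → ((D + 2).choose 2 + F ≤ ∑ i, (y i + 1).choose 2 → hPm D y = 0) ∧
    (∑ i, (y i + 1).choose 2 + F ≤ (D + 2).choose 2 →
      hPm D y = (D + 2).choose 2 - ∑ i, (y i + 1).choose 2)

theorem Ex3.far {u D M a b F : ℕ} (h : Ex3 u D M a b) : Far3 u D M a b F := by
  intro r y i₁ i₂ i₃ hs
  have h1 := h r y i₁ i₂ i₃ hs
  exact ⟨fun h2 => by omega, fun _ => h1⟩

theorem Far3.mono {u D M a b F F' : ℕ} (h : Far3 u D M a b F) (hF : F ≤ F') :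
    Far3 u D M a b F' := by
  intro r y i₁ i₂ i₃ hs
  obtain ⟨h1, h2⟩ := h r y i₁ i₂ i₃ hs
  exact ⟨fun h3 => h1 (by omega), fun h3 => h2 (by omega)⟩

theorem Ex3.symm {u D M a b : ℕ} (h : Ex3 u D M a b) : Ex3 u D M b a := by
  intro r y i₁ i₂ i₃ hs
  exact h r y i₁ i₃ i₂ ⟨hs.h13, hs.h12, hs.h23.symm, hs.e1, hs.e3, hs.e2,
    fun i h1 h2 h3 => hs.small i h1 h3 h2⟩

theorem Ex3.rot {u D M a b : ℕ} (h : Ex3 u D M a b) : Ex3 u D a M b := by
  intro r y i₁ i₂ i₃ hs
  exact h r y i₂ i₁ i₃ ⟨hs.h12.symm, hs.h23, hs.h13, hs.e2, hs.e1, hs.e3,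
    fun i h1 h2 h3 => hs.small i h2 h1 h3⟩

/-- the small points -/
def sml {r : ℕ} (i₁ i₂ i₃ : Fin r) : Finset (Fin r) := offP {i₁, i₂, i₃}

theorem mem_sml {r : ℕ} {i₁ i₂ i₃ i : Fin r} : i ∈ sml i₁ i₂ i₃ ↔ i ≠ i₁ ∧ i ≠ i₂ ∧ i ≠ i₃ := by
  unfold sml offP
  rw [Finset.mem_filter]
  simp

theorem St3.sum {u M a b : ℕ} {r : ℕ} {y : Fin r → ℕ} {i₁ i₂ i₃ : Fin r}
    (hs : St3 u M a b y i₁ i₂ i₃) : ∑ i, (y i + 1).choose 2 =
      (M + 1).choose 2 + (a + 1).choose 2 + (b + 1).choose 2 +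
        ∑ i ∈ sml i₁ i₂ i₃, (y i + 1).choose 2 := by
  rw [sum_offP {i₁, i₂, i₃}, Finset.sum_insert, Finset.sum_insert, Finset.sum_singleton, hs.e1,
    hs.e2, hs.e3]
  · unfold sml
    ring
  · rw [Finset.mem_singleton]
    exact hs.h23
  · rw [Finset.mem_insert, Finset.mem_singleton, not_or]
    exact ⟨hs.h12, hs.h13⟩

theorem St3.offF {u M a b : ℕ} {r : ℕ} {y : Fin r → ℕ} {i₁ i₂ i₃ : Fin r}
    (hs : St3 u M a b y i₁ i₂ i₃) {Q : Finset (Fin r)} (hQ : Q ⊆ sml i₁ i₂ i₃) :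
    St3 u M a b (offF Q y) i₁ i₂ i₃ := by
  have hne : ∀ i, i ∉ sml i₁ i₂ i₃ → LD.offF Q y i = y i := by
    intro i hi
    unfold LD.offF
    rw [if_neg (fun h => hi (hQ h))]
  refine ⟨hs.h12, hs.h13, hs.h23, ?_, ?_, ?_, fun i h1 h2 h3 => ?_⟩
  · rw [hne _ (by rw [mem_sml]; simp), hs.e1]
  · rw [hne _ (by rw [mem_sml]; simp), hs.e2]
  · rw [hne _ (by rw [mem_sml]; simp), hs.e3]
  · unfold LD.offF
    split_ifs
    · exact Nat.zero_le _
    · exact hs.small i h1 h2 h3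

theorem St3.append {u M a b : ℕ} {r : ℕ} {y : Fin r → ℕ} {i₁ i₂ i₃ : Fin r}
    (hs : St3 u M a b y i₁ i₂ i₃) (n : ℕ) : St3 u M a b (Fin.append y (fun _ : Fin n => u))
      (Fin.castAdd n i₁) (Fin.castAdd n i₂) (Fin.castAdd n i₃) := by
  have hinj := Fin.castAdd_injective r n
  refine ⟨fun h => hs.h12 (hinj h), fun h => hs.h13 (hinj h), fun h => hs.h23 (hinj h), ?_, ?_, ?_,
    fun i => ?_⟩
  · rw [Fin.append_left, hs.e1]
  · rw [Fin.append_left, hs.e2]
  · rw [Fin.append_left, hs.e3]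
  · refine Fin.addCases (fun j h1 h2 h3 => ?_) (fun j _ _ _ => ?_) i
    · rw [Fin.append_left]
      exact hs.small j (fun h => h1 (by rw [h])) (fun h => h2 (by rw [h]))
        (fun h => h3 (by rw [h]))
    · rw [Fin.append_right]

/-- it suffices to treat the systems whose expected dimension is close to zero -/
theorem ex3_of_near {u D M a b : ℕ} (hu : 1 ≤ u)
    (hN : (M + 1).choose 2 + (a + 1).choose 2 + (b + 1).choose 2 ≤ (D + 2).choose 2)
    (near : ∀ (r : ℕ) (y : Fin r → ℕ) (i₁ i₂ i₃ : Fin r), St3 u M a b y i₁ i₂ i₃ →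
      (D + 2).choose 2 ≤ ∑ i, (y i + 1).choose 2 + (u + 1).choose 2 →
      ∑ i, (y i + 1).choose 2 ≤ (D + 2).choose 2 + (u + 1).choose 2 →
      hPm D y = (D + 2).choose 2 - ∑ i, (y i + 1).choose 2) : Ex3 u D M a b := by
  classical
  intro r y i₁ i₂ i₃ hs
  obtain ⟨W, hW⟩ : ∃ W, W = (u + 1).choose 2 := ⟨_, rfl⟩
  have hW1 : 1 ≤ W := by
    rw [hW]
    exact Nat.choose_pos (by omega)
  have hcount := hPm_count D y
  have hsum := hs.sum
  obtain ⟨T, hT⟩ : ∃ T, T = ∑ i, (y i + 1).choose 2 := ⟨_, rfl⟩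
  obtain ⟨C, hC⟩ : ∃ C, C = (D + 2).choose 2 := ⟨_, rfl⟩
  rw [← hT, ← hC] at hcount ⊢
  rw [← hT] at hsum
  rw [← hC] at hN
  have hWs : ∀ i ∈ sml i₁ i₂ i₃, (y i + 1).choose 2 ≤ W := by
    intro i hi
    rw [mem_sml] at hi
    rw [hW]
    exact Nat.choose_le_choose 2 (Nat.succ_le_succ (hs.small i hi.1 hi.2.1 hi.2.2))
  rcases Nat.lt_or_ge (C + W) T with h1 | h1
  · -- too many conditions: omit some points
    obtain ⟨P, hP, h2, h3⟩ := greedy (T := C - ((M + 1).choose 2 + (a + 1).choose 2 +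
      (b + 1).choose 2)) (sml i₁ i₂ i₃) hWs (by omega)
    have hs' := hs.offF (Q := sml i₁ i₂ i₃ \ P) Finset.sdiff_subset
    have h4 := sum_offF (sml i₁ i₂ i₃ \ P) y
    have h5 := Finset.sum_sdiff (f := fun i => (y i + 1).choose 2) hP
    have h6 := near r _ i₁ i₂ i₃ hs' (by omega) (by omega)
    have h7 : hPm D y ≤ hPm D (LD.offF (sml i₁ i₂ i₃ \ P) y) := by
      apply hPm_anti
      intro i
      unfold LD.offF
      split_ifs
      · exact Nat.zero_le _
      · exact le_rfl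
    omega
  rcases Nat.lt_or_ge (T + W) C with h2 | h2
  · -- few conditions: further points
    have hdm := Nat.div_add_mod (C - T) W
    have hml := Nat.mod_lt (C - T) hW1
    obtain ⟨n, hn⟩ : ∃ n, n = (C - T) / W := ⟨_, rfl⟩
    rw [← hn] at hdm
    have e1 : n * W = W * n := Nat.mul_comm _ _
    have hs' := hs.append n
    have h3 : ∑ i, (Fin.append y (fun _ : Fin n => u) i + 1).choose 2 = T + n * W := by
      rw [sum_append y _ (fun x => (x + 1).choose 2), ← hT, hW]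
      congr 1
      rw [Finset.sum_const, Finset.card_univ, Fintype.card_fin, smul_eq_mul]
    have h4 := near _ _ _ _ _ hs' (by rw [h3]; omega) (by rw [h3]; omega)
    rw [h3] at h4
    have h5 := hPm_append_le D y (fun _ : Fin n => u)
    have h6 : ∑ _j : Fin n, (u + 1).choose 2 = n * W := by
      rw [Finset.sum_const, Finset.card_univ, Fintype.card_fin, smul_eq_mul, hW]
    rw [h6] at h5
    omega
  · have h3 := near r y i₁ i₂ i₃ hs (by omega) (by omega)
    omega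

/-- removing `κ` rows from a system with a point of multiplicity `a` on the line -/
theorem row_id {D a κ : ℕ} (h1 : κ ≤ a) (h2 : a ≤ D) : (D + 2).choose 2 + (a - κ + 1).choose 2 =
    κ * (D - a + 1) + (D - κ + 2).choose 2 + (a + 1).choose 2 := by
  obtain ⟨a', rfl⟩ : ∃ a', a = κ + a' := ⟨a - κ, by omega⟩
  obtain ⟨E, rfl⟩ : ∃ E, D = κ + a' + E := ⟨D - (κ + a'), by omega⟩
  have k1 : κ + a' - κ = a' := by omega
  have k2 : κ + a' + E - (κ + a') = E := by omega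
  have k3 : κ + a' + E - κ = a' + E := by omega
  rw [k1, k2, k3]
  have e1 := tr_two_choose (κ + a' + E + 1)
  have e2 := tr_two_choose a'
  have e3 := tr_two_choose (a' + E + 1)
  have e4 := tr_two_choose (κ + a')
  have k4 : κ + a' + E + 1 + 1 = κ + a' + E + 2 := by omega
  have k5 : a' + E + 1 + 1 = a' + E + 2 := by omega
  rw [k4] at e1
  rw [k5] at e3
  have e5 : (κ + a' + E + 1) * (κ + a' + E + 2) + a' * (a' + 1) =
      2 * (κ * (E + 1)) + (a' + E + 1) * (a' + E + 2) + (κ + a') * (κ + a' + 1) := by ring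
  omega

theorem choose_pred_bound (u : ℕ) : (u - 1).choose 2 + 1 + (u + 1).choose 2 + u.choose 2 ≤
    2 * (u + 1) ^ 2 := by
  have h1 : (u - 1).choose 2 ≤ u.choose 2 := Nat.choose_le_choose 2 (Nat.sub_le _ _)
  have h2 : (u + 1).choose 2 = u + u.choose 2 := by
    rw [Nat.choose_succ_succ' u 1, Nat.choose_one_right]
  have h3 := tr_two_choose u
  have e1 : (u + 1) ^ 2 = u * u + 2 * u + 1 := by ring
  have e2 : u * (u + 1) = u * u + u := by ring
  omega

/-- **The step along a line through the second point.** -/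
theorem ex3_step2 {u D M a b : ℕ} (hu : 1 ≤ u) (ha : u + 1 ≤ a) (haD : a ≤ D)
    (hE : 2 * (u + 1) ^ 2 ≤ D - a + 1)
    (hN : (M + 1).choose 2 + (a - (u + 1) + 1).choose 2 + (b + 1).choose 2 ≤
      (D - (u + 1) + 2).choose 2)
    (h1 : Ex3 u (D - u) M (a - u) b) (h2 : Ex3 u (D - u - 1) M (a - u - 1) b) :
    Ex3 u D M a b := by
  classical
  have hid1 := row_id (D := D) (a := a) (κ := u) (by omega) haD
  have hid2 := row_id (D := D) (a := a) (κ := u + 1) ha haD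
  have e1 : (u + 1) * (D - a + 1) = u * (D - a + 1) + (D - a + 1) := by ring
  rw [e1] at hid2
  have hcb := choose_pred_bound u
  refine ex3_of_near hu (by omega) (fun r y i₁ i₂ i₃ hs hn1 hn2 => ?_)
  have hsum := hs.sum
  have hWs : ∀ i ∈ sml i₁ i₂ i₃, (y i + 1).choose 2 ≤ (u + 1).choose 2 := by
    intro i hi
    rw [mem_sml] at hi
    exact Nat.choose_le_choose 2 (Nat.succ_le_succ (hs.small i hi.1 hi.2.1 hi.2.2))
  obtain ⟨P, hP, h3, h4⟩ := greedy (T := u * (D - a + 1) + ((u - 1).choose 2 + 1))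
    (sml i₁ i₂ i₃) hWs (by omega)
  obtain ⟨A, hA⟩ : ∃ A, ∑ i ∈ P, (y i + 1).choose 2 = u * (D - a + 1) + A :=
    ⟨∑ i ∈ P, (y i + 1).choose 2 - u * (D - a + 1), by omega⟩
  have hi₂ : i₂ ∉ P := fun h => by
    have := hP h
    rw [mem_sml] at this
    exact this.2.1 rfl
  have hstrip := strip_point (D := D) (κ := u) (A := A) (y := y) i₂ P hi₂ hu
    (by rw [hs.e2]; exact ha) (by rw [hs.e2]; exact haD)
    (fun i hi => by
      have := hP hi
      rw [mem_sml] at this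
      exact hs.small i this.1 this.2.1 this.2.2)
    (by rw [hs.e2]; exact hA) (by omega) (by rw [hs.e2]; omega)
  rw [hs.e2] at hstrip
  have hst : ∀ v : ℕ, St3 u M v b (Function.update (offF P y) i₂ v) i₁ i₂ i₃ := by
    intro v
    have hs' := hs.offF hP
    refine ⟨hs.h12, hs.h13, hs.h23, ?_, ?_, ?_, fun i g1 g2 g3 => ?_⟩
    · rw [Function.update_of_ne hs.h12, hs'.e1]
    · rw [Function.update_self]
    · rw [Function.update_of_ne hs.h23.symm, hs'.e3]
    · rw [Function.update_of_ne g2]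
      exact hs'.small i g1 g2 g3
  have hoffs : ∑ i, (offF P y i + 1).choose 2 + (u * (D - a + 1) + A) =
      ∑ i, (y i + 1).choose 2 := by
    rw [← hA]
    exact sum_offF P y
  have hupd : ∀ v : ℕ, ∑ i, (Function.update (offF P y) i₂ v i + 1).choose 2 +
      (a + 1).choose 2 = ∑ i, (offF P y i + 1).choose 2 + (v + 1).choose 2 := by
    intro v
    have g1 := (hst v).sum
    have g2 := (hs.offF hP).sum
    have g3 : ∑ i ∈ sml i₁ i₂ i₃, (Function.update (offF P y) i₂ v i + 1).choose 2 =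
        ∑ i ∈ sml i₁ i₂ i₃, (offF P y i + 1).choose 2 := by
      refine Finset.sum_congr rfl (fun i hi => ?_)
      rw [mem_sml] at hi
      rw [Function.update_of_ne hi.2.1]
    omega
  have h5 := h1 r _ i₁ i₂ i₃ (hst (a - u))
  have h6 := h2 r _ i₁ i₂ i₃ (hst (a - u - 1))
  have h7 := hupd (a - u)
  have h8 := hupd (a - u - 1)
  have hcount := hPm_count D y
  have k1 : D - (u + 1) + 2 = D - u - 1 + 2 := by omega
  have k2 : a - (u + 1) + 1 = a - u - 1 + 1 := by omega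
  rw [k1, k2] at hid2
  rcases le_max_iff.mp hstrip with h9 | h9 <;> omega

end Pool.Agent.Work.MP_0421d9_ag.LD
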