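import Pool.Agent.Work.MP_0421d9_ag.MPlane

/-!
Cutting off rows for systems with restricted support, with a family of multiplicities.
-/

namespace Pool.Agent.Work.MP_0421d9_ag.LD

open MvPolynomial Module

/-- shearing the points -/
theorem subM_shear_memm {D N : ℕ} {k : Fin N → ℕ} {T : Set (Fin 3 →₀ ℕ)} {q : Fin N → V3} {c : ℂ}
    (hT' : ∀ α β : Fin 3 →₀ ℕ, α ∈ T → β 2 = α 2 → β 0 ≤ α 0 → β 0 + β 1 = α 0 + α 1 → β ∈ T)
    {F : R3} (hF : F ∈ TSm D T k (fun i => (shear c).mulVec (q i))) :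
    subM (shear c) F ∈ TSm D T k q := by
  rw [mem_TSm] at hF ⊢
  obtain ⟨h1, h2, h3⟩ := hF
  refine ⟨subM_isHomogeneous _ h1, fun i => vanishTo_subM _ (h2 i), fun β hβ => ?_⟩
  obtain ⟨α, hα, h4, h5, h6⟩ := coeff_shear c F β hβ
  exact hT' α β (h3 α hα) h4 h5 h6

/-- a new flag on the line `X 2 = 0` at a general point -/
theorem flag_dimT {δ r A : ℕ} {y : Fin r → ℕ} {T : Set (Fin 3 →₀ ℕ)} (q : Fin r → V3)
    (hq : ∀ i, q i 2 ≠ 0) :
    ∃ h : Polynomial ℂ, h ≠ 0 ∧ ∀ c, h.eval c ≠ 0 →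
      finrank ℂ ↥(TSm (δ + 1) T y q ⊓ (ordSub c A).comap (onLine e1 e0).toLinearMap) ≤
        max (finrank ℂ (TSm (δ + 1) T y q) - A)
          (finrank ℂ (TSm δ {β | β + Finsupp.single 2 1 ∈ T} y q)) := by
  classical
  let φ : R3 →ₗ[ℂ] Polynomial ℂ := (onLine e1 e0).toLinearMap
  have hφ : ∀ F, φ F = onLine e1 e0 F := fun F => rfl
  set S := TSm (δ + 1) T y q with hS
  have hSfin : Module.Finite ℂ S := finite_TSm _ _ _ _
  have hfin : Module.Finite ℂ ↥(S.map φ) := inferInstance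
  obtain ⟨h, hh0, hh⟩ := @order_generic (S.map φ) hfin A
  refine ⟨h, hh0, fun c hc => ?_⟩
  have h1 := hh c hc
  have hker : finrank ℂ ↥(S ⊓ LinearMap.ker φ) ≤
      finrank ℂ (TSm δ {β | β + Finsupp.single 2 1 ∈ T} y q) := by
    have h2 : S ⊓ LinearMap.ker φ ≤
        (TSm δ {β | β + Finsupp.single 2 1 ∈ T} y q).map
          (LinearMap.mulLeft ℂ (X 2 ^ 1 : R3)) := by
      intro F hF
      obtain ⟨h3, h4⟩ := Submodule.mem_inf.mp hF
      rw [hS, mem_TSm] at h3
      rw [LinearMap.mem_ker, hφ] at h4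
      obtain ⟨G, hG1, hG2, hG3⟩ := exists_div_of_onLine h3.1 h4
      refine ⟨G, ?_, by rw [LinearMap.mulLeft_apply, hG2]⟩
      refine mem_TSm.mpr ⟨hG1, fun i => ?_, fun β hβ => ?_⟩
      · have h5 := h3.2.1 i
        rw [hG2] at h5
        exact vanishTo_of_X2_pow_mul (hq i) h5
      · rw [hG3] at hβ
        have h5 := h3.2.2 _ hβ
        rwa [add_comm] at h5
    have hfin' : Module.Finite ℂ (TSm δ {β | β + Finsupp.single 2 1 ∈ T} y q) :=
      finite_TSm _ _ _ _
    exact (Submodule.finrank_mono h2).trans (Submodule.finrank_map_le _ _)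
  have hT : finrank ℂ ↥(S ⊓ (ordSub c A).comap φ) ≤
      finrank ℂ ↥(S ⊓ LinearMap.ker φ) + (finrank ℂ ↥(S.map φ) - A) := by
    have hfT : Module.Finite ℂ ↥(S ⊓ (ordSub c A).comap φ) :=
      Submodule.finiteDimensional_of_le inf_le_left
    rw [finrank_eq_ker_add_map φ (S ⊓ (ordSub c A).comap φ)]
    have hfK : Module.Finite ℂ ↥(S ⊓ LinearMap.ker φ) :=
      Submodule.finiteDimensional_of_le inf_le_left
    have hfM : Module.Finite ℂ ↥(S.map φ ⊓ ordSub c A) :=
      Submodule.finiteDimensional_of_le inf_le_left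
    refine add_le_add ?_ ?_
    · apply Submodule.finrank_mono
      exact inf_le_inf_right _ inf_le_left
    · refine le_trans (Submodule.finrank_mono ?_) h1
      rintro _ ⟨F, hF, rfl⟩
      obtain ⟨h3, h4⟩ := Submodule.mem_inf.mp hF
      exact Submodule.mem_inf.mpr ⟨⟨F, h3, rfl⟩, h4⟩
  have h5 : finrank ℂ ↥S = finrank ℂ ↥(S ⊓ LinearMap.ker φ) + finrank ℂ ↥(S.map φ) :=
    finrank_eq_ker_add_map φ S
  refine hT.trans ?_
  rcases Nat.lt_or_ge (finrank ℂ ↥(S.map φ)) A with h6 | h6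
  · refine le_trans ?_ (le_max_right _ _)
    omega
  · refine le_trans ?_ (le_max_left _ _)
    omega

/-- **Peeling** for systems with restricted support. -/
theorem peelTm {δ κ r N A : ℕ} {T : Set (Fin 3 →₀ ℕ)} {y : Fin r → ℕ} {e : Fin N → Fin r}
    (he : Function.Injective e) (hκ : 1 ≤ κ) (hA : A ≤ δ + 2)
    (hT' : ∀ α β : Fin 3 →₀ ℕ, α ∈ T → β 2 = α 2 → β 0 ≤ α 0 → β 0 + β 1 = α 0 + α 1 → β ∈ T)
    (hkill : Killsm (δ + 1 + κ) (fun k => y (e k))
      {α | α ∈ T ∧ (α 2 < κ ∨ (α 2 = κ ∧ α 0 < A))}) :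
    hTm (δ + 1 + κ) T y ≤
      max (hTm (δ + 1) {β | β + Finsupp.single 2 κ ∈ T} (rest e y) - A)
        (hTm δ {β | β + Finsupp.single 2 (κ + 1) ∈ T} (rest e y)) := by
  classical
  set q := gpt r with hqdef
  set z := rest e y with hz
  have hq2 : ∀ i, q i 2 ≠ 0 := fun i => generic_coord_ne (gpt_generic r) i 2
  set T1 : Set (Fin 3 →₀ ℕ) := {β | β + Finsupp.single 2 κ ∈ T} with hT1
  have hT1' : ∀ α β : Fin 3 →₀ ℕ, α ∈ T1 → β 2 = α 2 → β 0 ≤ α 0 →
      β 0 + β 1 = α 0 + α 1 → β ∈ T1 := by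
    intro α β hα h2 h0 h1
    refine hT' _ _ hα ?_ ?_ ?_ <;> simp [Finsupp.add_apply, h2, h0, h1]
  obtain ⟨h, hh0, hh⟩ := flag_dimT (δ := δ) (y := z) (A := A) (T := T1) q hq2
  obtain ⟨c, hc, -⟩ := exists_eval_ne hh0 (one_ne_zero (α := Polynomial ℂ))
  have hdim := hh c hc
  have hT2 : {β : Fin 3 →₀ ℕ | β + Finsupp.single 2 1 ∈ T1} =
      {β | β + Finsupp.single 2 (κ + 1) ∈ T} := by
    ext β
    simp only [hT1, Set.mem_ofPred_eq, add_assoc, ← Finsupp.single_add]
    rw [add_comm 1 κ]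
  rw [hT2] at hdim
  refine le_trans ?_ hdim
  -- the sheared points
  set p : Fin r → V3 := fun i => (shear c).mulVec (q i) with hp
  have hp2 : ∀ i, p i 2 ≠ 0 := by
    intro i
    rw [hp]
    simp only [shear_mulVec]
    exact hq2 i
  obtain ⟨P, hP, hkill⟩ := hkill
  let M := δ + 1 + κ + 1
  let w : Fin 3 → ℕ := ![1, 0, M]
  have hw : ∀ α : Fin 3 →₀ ℕ, wt3 w α = α 0 + M * α 2 := by
    intro α
    unfold wt3
    simp [Fin.sum_univ_three, w]
  let c' := M * κ + A - 1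
  have hc' : ∀ α : Fin 3 →₀ ℕ, α.degree = δ + 1 + κ → (wt3 w α ≤ c' ↔
      (α 2 < κ ∨ (α 2 = κ ∧ α 0 < A))) := by
    intro α hα
    rw [hw, Finsupp.degree_eq_sum, Fin.sum_univ_three] at *
    have hMu : 1 ≤ M * κ := Nat.mul_pos (Nat.succ_pos _) hκ
    have h0 : α 0 < M := by omega
    constructor
    · intro h
      by_cases h1 : α 2 < κ
      · exact Or.inl h1
      · right
        have h2 : M * κ ≤ M * α 2 := Nat.mul_le_mul_left _ (by omega)
        have h3 : α 2 = κ := by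
          by_contra hcon
          have h4 : M * (κ + 1) ≤ M * α 2 := Nat.mul_le_mul_left _ (by omega)
          rw [mul_add, mul_one] at h4
          have h5 : M = δ + 1 + κ + 1 := rfl
          have h6 : c' = M * κ + A - 1 := rfl
          omega
        refine ⟨h3, ?_⟩
        rw [h3] at h
        omega
    · rintro (h | ⟨h1, h2⟩)
      · have h3 : M * (α 2 + 1) ≤ M * κ := Nat.mul_le_mul_left _ (by omega)
        rw [mul_add, mul_one] at h3
        omega
      · rw [h1]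
        omega
  have hdeg : ∀ {F : R3}, F.IsHomogeneous (δ + 1 + κ) → ∀ α ∈ F.support,
      α.degree = δ + 1 + κ :=
    fun hF α hα => degree_of_mem_support hF (mem_support_iff.mp hα)
  obtain ⟨τ, hτ, h1⟩ := cut (D := δ + 1 + κ) w c' P (fun k => y (e k)) T
    (fun G hG hG' hG'' => hkill G hG
      (fun α hα => ⟨(hG' α hα).1, (hc' α (hdeg hG α hα)).mp (hG' α hα).2⟩) hG'')
    (TSm (δ + 1 + κ) T z p) (fun F hF => ⟨(mem_TSm.mp hF).1,
      fun α hα => (mem_TSm.mp hF).2.2 α (mem_support_iff.mp hα)⟩)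
  -- the part above
  have h2 : finrank ℂ ↥(TSm (δ + 1 + κ) T z p ⊓ offSub {α | wt3 w α ≤ c'}) ≤
      finrank ℂ ↥(TSm (δ + 1) T1 z q ⊓ (ordSub c A).comap (onLine e1 e0).toLinearMap) := by
    have hfin1 : Module.Finite ℂ (TSm (δ + 1) T1 z q) := finite_TSm _ _ _ _
    have hfin : Module.Finite ℂ ↥(TSm (δ + 1) T1 z q ⊓
        (ordSub c A).comap (onLine e1 e0).toLinearMap) :=
      Submodule.finiteDimensional_of_le inf_le_left
    have h3 : TSm (δ + 1 + κ) T z p ⊓ offSub {α | wt3 w α ≤ c'} ≤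
        (TSm (δ + 1) T1 z q ⊓ (ordSub c A).comap (onLine e1 e0).toLinearMap).map
          (LinearMap.mulLeft ℂ (X 2 ^ κ : R3) ∘ₗ (subM (shear (-c))).toLinearMap) := by
      intro F hF
      rw [Submodule.mem_inf, mem_TSm, mem_offSub] at hF
      obtain ⟨⟨hF1, hF2, hF3⟩, hF4⟩ := hF
      have hF5 : ∀ α : Fin 3 →₀ ℕ, (α 2 < κ ∨ (α 2 = κ ∧ α 0 < A)) → coeff α F = 0 := by
        intro α hα
        by_contra hcon
        have h5 := degree_of_mem_support hF1 hcon
        exact hcon (hF4 α ((hc' α h5).mpr hα))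
      obtain ⟨G, hG1, hG2, hG3⟩ := exists_div_X2 hF1 (fun α hα => by
        by_contra hcon
        exact (mem_support_iff.mp hα) (hF5 α (Or.inl (by omega))))
      have hGp : G ∈ TSm (δ + 1) T1 z p := by
        refine mem_TSm.mpr ⟨hG1, fun i => ?_, fun β hβ => ?_⟩
        · have h5 := hF2 i
          rw [hG2] at h5
          exact vanishTo_of_X2_pow_mul (hp2 i) h5
        · rw [hG3] at hβ
          have h5 := hF3 _ hβ
          rwa [add_comm] at h5
      refine Submodule.mem_map.mpr ⟨subM (shear c) G, Submodule.mem_inf.mpr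
        ⟨subM_shear_memm hT1' hGp, ?_⟩, ?_⟩
      · change onLine e1 e0 (subM (shear c) G) ∈ ordSub c A
        intro k hk
        rw [← onLine_shear, onLine_e1_e0, Polynomial.finsetSum_coeff]
        refine Finset.sum_eq_zero (fun β _ => ?_)
        rw [Polynomial.coeff_C_mul_X_pow]
        split_ifs with h8 h9
        · rw [hG3, hF5 _ (Or.inr ⟨?_, ?_⟩), zero_mul]
          · rw [Finsupp.add_apply, Finsupp.single_eq_same, h9, add_zero]
          · rw [Finsupp.add_apply, Finsupp.single_eq_of_ne (by decide), zero_add]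
            omega
        · rw [mul_zero]
        · rfl
      · rw [LinearMap.comp_apply, LinearMap.mulLeft_apply, AlgHom.toLinearMap_apply, subM_subM]
        have h9 : shear c * shear (-c) = 1 := by
          have h10 := shear_mul (-c)
          rwa [neg_neg] at h10
        rw [h9, subM_one, hG2]
    exact (Submodule.finrank_mono h3).trans (Submodule.finrank_map_le _ _)
  refine le_trans ?_ (h1.trans h2)
  -- all the points
  let P' : Fin r → V3 := Function.extend e (fun k i => τ ^ w i * P k i) p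
  have hP'1 : ∀ k, P' (e k) = fun i => τ ^ w i * P k i := fun k => he.extend_apply _ _ k
  have hP'2 : ∀ i, i ∉ Set.range e → P' i = p i := by
    intro i hi
    exact Function.extend_apply' _ _ _ (fun ⟨k, hk⟩ => hi ⟨k, hk⟩)
  refine (hTm_le P').trans ?_
  have hfin0 : Module.Finite ℂ (TSm (δ + 1 + κ) T z p) := finite_TSm _ _ _ _
  have hfin : Module.Finite ℂ ↥(TSm (δ + 1 + κ) T z p ⊓
      ⨅ k, vanSub (fun i => τ ^ w i * P k i) (y (e k))) :=
    Submodule.finiteDimensional_of_le inf_le_left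
  apply Submodule.finrank_mono
  intro F hF
  obtain ⟨hF1, hF2, hF3⟩ := mem_TSm.mp hF
  rw [Submodule.mem_inf, Submodule.mem_iInf]
  refine ⟨mem_TSm.mpr ⟨hF1, fun i => ?_, hF3⟩, fun k => ?_⟩
  · by_cases hi : i ∈ Set.range e
    · obtain ⟨k, rfl⟩ := hi
      rw [hz, rest_mem]
      exact mp_vanish_zero _ _
    · have h4 := hF2 i
      rw [hP'2 i hi] at h4
      rw [hz, rest_not_mem hi]
      exact h4
  · have h4 := hF2 (e k)
    rw [hP'1] at h4
    exact h4

end Pool.Agent.Work.MP_0421d9_ag.LD
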