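import Pool.Agent.Work.MP_0421d9_ag.JKill
import Pool.Agent.Work.MP_0421d9_ag.VGen

/-!
Points in general position and coordinate points; strips along a line through a multiple point;
the quadratic transformation.
-/

namespace Pool.Agent.Work.MP_0421d9_ag.LD

open MvPolynomial Module

/-- the exponents bound the multiplicity at a coordinate point -/
theorem vanishTo_single {D n : ℕ} {F : R3} (hF : F.IsHomogeneous D) (i : Fin 3)
    (h : ∀ α, coeff α F ≠ 0 → α i + n ≤ D) : VanishTo F (Pi.single i 1) n := by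
  classical
  rw [F.as_sum]
  refine (vanSub (Pi.single i 1) n).sum_mem (fun α hα => ?_)
  have hα' := mem_support_iff.mp hα
  have h1 := h α hα'
  have h2 := degree_of_mem_support hF hα'
  have h3 : VanishTo (∏ j, (X j : R3) ^ α j) (Pi.single i 1)
      (∑ j, if j = i then 0 else α j) := by
    refine uv_prod Finset.univ _ _ (fun j _ => ?_)
    split_ifs with hj
    · exact uv_zero _ _
    · apply uv_pow
      rw [vanishTo_one_iff', eval_X, Pi.single_eq_of_ne hj]
  have h4 := VanishTo.mul (uv_zero (C (coeff α F)) (Pi.single i 1)) h3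
  have h5 : (monomial α (coeff α F) : R3) = C (coeff α F) * ∏ j, (X j : R3) ^ α j := by
    rw [monomial_eq, Finsupp.prod_fintype _ _ (fun i => pow_zero _)]
  change VanishTo (monomial α (coeff α F)) _ _
  rw [h5]
  refine h4.mono ?_
  have h6 : ∑ j, (if j = i then 0 else α j) + α i = α.degree := by
    rw [Finsupp.degree_eq_sum, ← Finset.add_sum_erase _ _ (Finset.mem_univ i), if_pos rfl,
      ← Finset.add_sum_erase _ (fun j => α j) (Finset.mem_univ i)]
    have h7 : ∑ j ∈ Finset.univ.erase i, (if j = i then 0 else α j) =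
        ∑ j ∈ Finset.univ.erase i, α j :=
      Finset.sum_congr rfl (fun j hj => if_neg (Finset.ne_of_mem_erase hj))
    rw [h7]
    omega
  omega

/-- moving the points by a linear map -/
theorem hTm_le_of_move {r D : ℕ} {T : Set (Fin 3 →₀ ℕ)} {z y : Fin r → ℕ}
    {M M' : Matrix (Fin 3) (Fin 3) ℂ} (hM : M * M' = 1) (hM' : M' * M = 1)
    (h : ∀ i, z i = y i ∨ ∃ j, gpt r i = M'.mulVec (Pi.single j 1) ∧
      ∀ α ∈ T, α.degree = D → α j + y i ≤ D) :
    hTm D T z ≤ hPm D y := by
  refine (hTm_le (fun i => M.mulVec (gpt r i))).trans ?_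
  have hfin : Module.Finite ℂ (linSys D (gpt r) y) :=
    Submodule.finiteDimensional_of_le (linSys_le _ _ _)
  have h1 : ∀ F ∈ TSm D T z (fun i => M.mulVec (gpt r i)), subM M F ∈ linSys D (gpt r) y := by
    intro F hF
    obtain ⟨h1, h2, h3⟩ := mem_TSm.mp hF
    refine ⟨subM_isHomogeneous M h1, fun i => ?_⟩
    rcases h i with h4 | ⟨j, h4, h5⟩
    · rw [← h4]
      exact vanishTo_subM M (h2 i)
    · apply vanishTo_subM M
      rw [h4, Matrix.mulVec_mulVec, hM, Matrix.one_mulVec]
      exact vanishTo_single h1 j (fun α hα => h5 α (h3 α hα) (degree_of_mem_support h1 hα))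
  refine LinearMap.finrank_le_finrank_of_injective (f := (subM M).toLinearMap.restrict h1) ?_
  intro G G' h
  have h2 : subM M G.1 = subM M G'.1 := congrArg Subtype.val h
  have h3 := congrArg (subM M') h2
  rw [subM_subM, subM_subM, hM, subM_one, subM_one] at h3
  exact Subtype.ext h3

/-! ### one point -/

theorem hPm_le_point {r D : ℕ} (y : Fin r → ℕ) (i₀ : Fin r) (h : y i₀ ≤ D) :
    hPm D y ≤ hTm D {α | α 0 ≤ D - y i₀} (Function.update y i₀ 0) := by
  rw [hPm_eq_hTm]
  refine (hTm_le (Function.update (gpt r) i₀ (Pi.single 0 1))).trans ?_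
  have hfin : Module.Finite ℂ (TSm D {α | α 0 ≤ D - y i₀} (Function.update y i₀ 0) (gpt r)) :=
    finite_TSm _ _ _ _
  refine Submodule.finrank_mono ?_
  intro F hF
  obtain ⟨h1, h2, -⟩ := mem_TSm.mp hF
  refine mem_TSm.mpr ⟨h1, fun i => ?_, fun α hα => ?_⟩
  · by_cases hi : i = i₀
    · subst hi
      rw [Function.update_self]
      exact uv_zero _ _
    · have h3 := h2 i
      rw [Function.update_of_ne hi] at h3
      rw [Function.update_of_ne hi]
      exact h3
  · have h3 := h2 i₀
    rw [Function.update_self] at h3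
    have h4 := exp_le_of_vanishTo h1 h3 hα
    change α 0 ≤ D - y i₀
    omega

theorem point_le_hPm {r D : ℕ} (E : ℕ) (y : Fin r → ℕ) (i₀ : Fin r) :
    hTm D {α | α 0 ≤ E} (Function.update y i₀ 0) ≤
      hPm D (Function.update y i₀ (D - E)) := by
  have hg : gpt r i₀ 0 ≠ 0 := gpt_ne i₀ 0
  have hdet : (colM (gpt r i₀) e1 e2).det ≠ 0 := by
    rw [colM_det]
    unfold det3
    simp only [e1, e2]
    simpa using hg
  have hU : IsUnit (colM (gpt r i₀) e1 e2).det := isUnit_iff_ne_zero.mpr hdet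
  refine hTm_le_of_move (M := (colM (gpt r i₀) e1 e2)⁻¹) (M' := colM (gpt r i₀) e1 e2)
    (Matrix.nonsing_inv_mul _ hU) (Matrix.mul_nonsing_inv _ hU) (fun i => ?_)
  by_cases hi : i = i₀
  · subst hi
    right
    refine ⟨0, ?_, fun α hα hd => ?_⟩
    · rw [colM_mulVec]
      funext k
      simp
    · rw [Function.update_self]
      change α 0 ≤ E at hα
      rw [degree_three] at hd
      omega
  · left
    rw [Function.update_of_ne hi, Function.update_of_ne hi]

/-- **A strip along a line through a point of high multiplicity.** -/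
theorem strip_point {r D κ A : ℕ} {y : Fin r → ℕ} (i₀ : Fin r) (P : Finset (Fin r)) (hi : i₀ ∉ P)
    (hκ : 1 ≤ κ) (ha : κ + 1 ≤ y i₀) (haD : y i₀ ≤ D) (hP : ∀ i ∈ P, y i ≤ κ)
    (hA : ∑ i ∈ P, (y i + 1).choose 2 = κ * (D - y i₀ + 1) + A) (h1 : (κ - 1).choose 2 < A)
    (h2 : A + κ.choose 2 ≤ D - y i₀ + 1) :
    hPm D y ≤ max (hPm (D - κ) (Function.update (offF P y) i₀ (y i₀ - κ)) - A)
      (hPm (D - κ - 1) (Function.update (offF P y) i₀ (y i₀ - κ - 1))) := by
  have hne : ∀ i ∈ P, i ≠ i₀ := fun i hiP h => hi (h ▸ hiP)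
  have hoff : offF P (Function.update y i₀ 0) = Function.update (offF P y) i₀ 0 := by
    funext i
    unfold offF
    by_cases h3 : i = i₀
    · subst h3
      rw [if_neg hi, Function.update_self, Function.update_self]
    · rw [Function.update_of_ne h3, Function.update_of_ne h3]
  have h3 := strip_rect (D := D) (κ := κ) (A := A) (E := D - y i₀)
    (y := Function.update y i₀ 0) P hκ (by omega)
    (fun i hiP => by rw [Function.update_of_ne (hne i hiP)]; exact hP i hiP)
    (by
      rw [← hA]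
      exact Finset.sum_congr rfl (fun i hiP => by rw [Function.update_of_ne (hne i hiP)]))
    h1 h2
  rw [hoff] at h3
  have h4 := point_le_hPm (D := D - κ) (D - y i₀) (offF P y) i₀
  have h5 := point_le_hPm (D := D - κ - 1) (D - y i₀) (offF P y) i₀
  have e1 : D - κ - (D - y i₀) = y i₀ - κ := by omega
  have e2 : D - κ - 1 - (D - y i₀) = y i₀ - κ - 1 := by omega
  rw [e1] at h4
  rw [e2] at h5
  refine (hPm_le_point y i₀ haD).trans (h3.trans ?_)
  exact max_le_max (Nat.sub_le_sub_right h4 A) h5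

/-! ### three points -/

theorem hPm_le_three {r D : ℕ} (y : Fin r → ℕ) {i : Fin 3 → Fin r} (hinj : Function.Injective i)
    (h : ∀ j, y (i j) ≤ D) :
    hPm D y ≤ hTm D {α | ∀ j, α j ≤ D - y (i j)} (Function.extend i (fun _ => 0) y) := by
  rw [hPm_eq_hTm]
  refine (hTm_le (Function.extend i (fun j => Pi.single j 1) (gpt r))).trans ?_
  have hfin : Module.Finite ℂ (TSm D {α | ∀ j, α j ≤ D - y (i j)}
      (Function.extend i (fun _ => 0) y) (gpt r)) := finite_TSm _ _ _ _
  refine Submodule.finrank_mono ?_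
  intro F hF
  obtain ⟨h1, h2, -⟩ := mem_TSm.mp hF
  refine mem_TSm.mpr ⟨h1, fun l => ?_, fun α hα j => ?_⟩
  · by_cases hl : ∃ j, i j = l
    · obtain ⟨j, rfl⟩ := hl
      rw [hinj.extend_apply]
      exact uv_zero _ _
    · have h3 := h2 l
      rw [Function.extend_apply' _ _ _ hl] at h3
      rw [Function.extend_apply' _ _ _ hl]
      exact h3
  · have h3 := h2 (i j)
    rw [hinj.extend_apply] at h3
    have h4 := exp_le_of_vanishTo h1 h3 hα
    have h5 := h j
    omega

theorem gpt_det3_ne {r : ℕ} {a b c : Fin r} (hab : a ≠ b) (hac : a ≠ c) (hbc : b ≠ c) :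
    det3 (gpt r a) (gpt r b) (gpt r c) ≠ 0 := by
  classical
  have hp := gpt_generic r
  set Q : MvPolynomial (Fin r × Fin 3) ℚ :=
    det3 (fun l => X (a, l)) (fun l => X (b, l)) (fun l => X (c, l)) with hQ
  have h1 : aeval (fun z : Fin r × Fin 3 => gpt r z.1 z.2) Q =
      det3 (gpt r a) (gpt r b) (gpt r c) := by
    rw [hQ]
    unfold det3
    simp only [map_add, map_sub, map_mul, aeval_X]
  rw [← h1]
  intro h2
  have h3 : Q = 0 := by
    have hinj : Function.Injective (aeval (R := ℚ) (fun z : Fin r × Fin 3 => gpt r z.1 z.2)) := hp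
    apply hinj
    rw [h2, map_zero]
  have h4 := congrArg (eval (fun z : Fin r × Fin 3 =>
    if (z.1 = a ∧ z.2 = 0) ∨ (z.1 = b ∧ z.2 = 1) ∨ (z.1 = c ∧ z.2 = 2) then (1 : ℚ) else 0)) h3
  rw [hQ] at h4
  unfold det3 at h4
  simp [hab, hac, hbc, hab.symm, hac.symm, hbc.symm] at h4

theorem three_le_hPm {r D : ℕ} (c : Fin 3 → ℕ) (y : Fin r → ℕ) {i : Fin 3 → Fin r}
    (hinj : Function.Injective i) :
    hTm D {α | ∀ j, α j ≤ c j} (Function.extend i (fun _ => 0) y) ≤
      hPm D (Function.extend i (fun j => D - c j) y) := by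
  have hdet : (colM (gpt r (i 0)) (gpt r (i 1)) (gpt r (i 2))).det ≠ 0 := by
    rw [colM_det]
    exact gpt_det3_ne (fun h => absurd (hinj h) (by decide)) (fun h => absurd (hinj h) (by decide))
      (fun h => absurd (hinj h) (by decide))
  have hU := isUnit_iff_ne_zero.mpr hdet
  refine hTm_le_of_move (M := (colM (gpt r (i 0)) (gpt r (i 1)) (gpt r (i 2)))⁻¹)
    (M' := colM (gpt r (i 0)) (gpt r (i 1)) (gpt r (i 2)))
    (Matrix.nonsing_inv_mul _ hU) (Matrix.mul_nonsing_inv _ hU) (fun l => ?_)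
  by_cases hl : ∃ j, i j = l
  · obtain ⟨j, rfl⟩ := hl
    right
    refine ⟨j, ?_, fun α hα hd => ?_⟩
    · rw [colM_mulVec]
      funext k
      fin_cases j <;> simp
    · rw [hinj.extend_apply]
      have h1 := hα j
      have h2 : α j ≤ α.degree := Finsupp.le_degree j α
      omega
  · left
    rw [Function.extend_apply' _ _ _ hl, Function.extend_apply' _ _ _ hl]

/-- **The quadratic transformation** -/
theorem crem_hPm_le {r D D' : ℕ} (y : Fin r → ℕ) {i : Fin 3 → Fin r} (hinj : Function.Injective i)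
    (h : ∀ j, y (i j) ≤ D) (hD : D' + y (i 0) + y (i 1) + y (i 2) = 2 * D) :
    hPm D y ≤ hPm D' (Function.extend i (fun j => D' - (D - y (i j))) y) := by
  have h0 := h 0
  have h1 := h 1
  have h2 := h 2
  refine (hPm_le_three y hinj h).trans ?_
  refine (crem_le (D := D) (c := fun j => D - y (i j)) (by omega) (fun j => Nat.sub_le _ _)
    _).trans ?_
  have e1 : D - y (i 0) + (D - y (i 1)) + (D - y (i 2)) - D = D' := by omega
  rw [e1]
  exact three_le_hPm _ y hinj

end Pool.Agent.Work.MP_0421d9_ag.LD
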