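import Pool.Agent.Work.MP_0421d9_ag.JMain
import Pool.Agent.Work.MP_0421d9_ag.FSmooth

/-!
Both halves for the systems which cannot be reduced by quadratic transformations.
-/

namespace Pool.Agent.Work.MP_0421d9_ag

open MvPolynomial Module LD

/-- the systems with at most the given multiplicities in `I`, and at most `u + 1` elsewhere -/
theorem standard_nbr {r u d : ℕ} {p : Fin r → Fin 3 → ℂ} (hp : GenericPoints p) {m m' : Fin r → ℕ}
    {I : Finset (Fin r)} (hI : I.card ≤ 3)
    (hd : ∑ i ∈ I, max (m i) (u + 1) + (3 - I.card) * (u + 1) ≤ d)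
    (hl : 31 * (u + 2) ^ 2 ≤ d ∨ ∃ i, 11 * (u + 2) ^ 2 ≤ m i)
    (hm1 : ∀ i ∈ I, m' i ≤ m i) (hm2 : ∀ i, i ∉ I → m' i ≤ u + 1)
    (hm3 : ∀ i, 2 ≤ m i → m i ≤ m' i) :
    finrank ℂ (linSys d p m') = (d + 2).choose 2 - ∑ j, (m' j + 1).choose 2 := by
  rw [hPm_eq hp]
  refine standard_main (u := u + 1) hI hm2 ?_ ?_
  · refine le_trans (Nat.add_le_add_right (Finset.sum_le_sum (fun i hi => ?_)) _) hd
    exact max_le_max_right _ (hm1 i hi)
  · rcases hl with h | ⟨i, hi⟩
    · exact Or.inl h
    · right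
      have h1 : 2 ≤ m i := by
        have h2 : 1 ≤ (u + 2) ^ 2 := Nat.one_le_pow _ _ (by omega)
        omega
      exact ⟨i, hi.trans (hm3 i h1)⟩

/-- **Smoothness.** -/
theorem standard_smooth {r u d : ℕ} (p : Fin r → Fin 3 → ℂ) (hp : GenericPoints p)
    (m : Fin r → ℕ) {I : Finset (Fin r)} (hI : I.card ≤ 3) (hu : ∀ i, i ∉ I → m i ≤ u)
    (hd : ∑ i ∈ I, max (m i) (u + 1) + (3 - I.card) * (u + 1) ≤ d)
    (hl : 31 * (u + 2) ^ 2 ≤ d ∨ ∃ i, 11 * (u + 2) ^ 2 ≤ m i)
    (hJ : ∀ i, i ∉ I → 2 ≤ m i → m i < finrank ℂ (linSys d p m) +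
      (Finset.univ.filter (fun j => m j = 1)).card)
    (hne : linSys d p m ≠ ⊥) :
    (∃ F ∈ linSys d p m, Squarefree F) ∧
    (∀ s : Fin (finrank ℂ (linSys d p m) - 1) → Fin 3 → ℂ, GenericPoints (Sum.elim p s) →
      ∀ F ∈ linSys d p m, F ≠ 0 → (∀ k, eval (s k) F = 0) → SmoothOnBlowup p m F) ∧
    (∃ F ∈ linSys d p m, F ≠ 0 ∧ SmoothOnBlowup p m F) := by
  classical
  have hpos : finrank ℂ (linSys d p m) ≠ 0 := by
    intro h2
    exact hne (Submodule.finrank_eq_zero.mp h2)
  have hsum := SM.sum_dropSimple m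
  have hm : finrank ℂ (linSys d p m) = (d + 2).choose 2 - ∑ j, (m j + 1).choose 2 :=
    standard_nbr hp hI hd hl (fun i _ => le_rfl) (fun i hi => (hu i hi).trans (Nat.le_succ u))
      (fun i _ => le_rfl)
  have h0 : finrank ℂ (linSys d p (dropSimple m)) =
      (d + 2).choose 2 - ∑ j, (dropSimple m j + 1).choose 2 :=
    standard_nbr hp hI hd hl (fun i _ => dropSimple_le m i)
      (fun i hi => (dropSimple_le m i).trans ((hu i hi).trans (Nat.le_succ u))) (fun i hi => by
        unfold dropSimple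
        rw [if_neg (by omega)])
  have hcomp : ∀ i ∉ I, 2 ≤ m i → finrank ℂ (linSys d p (dropSimple m)) =
      finrank ℂ (linSys d p (Function.update (dropSimple m) i (m i + 1))) + (m i + 1) := by
    intro i hi hmi
    have h1 : finrank ℂ (linSys d p (Function.update (dropSimple m) i (m i + 1))) =
        (d + 2).choose 2 - ∑ j, (Function.update (dropSimple m) i (m i + 1) j + 1).choose 2 := by
      refine standard_nbr hp hI hd hl (fun j hj => ?_) (fun j hj => ?_) (fun j hj => ?_)
      · have hji : j ≠ i := fun h => hi (h ▸ hj)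
        rw [Function.update_of_ne hji]
        exact dropSimple_le m j
      · by_cases hji : j = i
        · rw [hji, Function.update_self]
          exact Nat.succ_le_succ (hu i hi)
        · rw [Function.update_of_ne hji]
          exact (dropSimple_le m j).trans ((hu j hj).trans (Nat.le_succ u))
      · by_cases hji : j = i
        · rw [hji, Function.update_self]
          exact Nat.le_succ _
        · rw [Function.update_of_ne hji]
          unfold dropSimple
          rw [if_neg (by omega)]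
    have hyi : dropSimple m i = m i := by
      unfold dropSimple
      rw [if_neg (by omega)]
    have h2 := sum_update_succ (dropSimple m) i
    rw [hyi] at h2
    have h5 := hJ i hi hmi
    rw [h0, h1, h2]
    omega
  have hpair : ∀ i ∈ I, ∀ j ∈ I, i ≠ j → m i + m j ≤ d := by
    intro i hi j hj hij
    have h1 := Finset.sum_le_sum_of_subset (f := fun l => max (m l) (u + 1))
      (Finset.insert_subset hi (Finset.singleton_subset_iff.mpr hj))
    rw [Finset.sum_pair hij] at h1
    have h2 := le_max_left (m i) (u + 1)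
    have h3 := le_max_left (m j) (u + 1)
    omega
  obtain ⟨a1, -, a3, a4⟩ := complete_final p hp m I hI (fun i hi h => hcomp i hi (by omega))
    (Or.inr ⟨hne, hpair, fun i hi h => hcomp i hi (by omega)⟩)
  exact ⟨a1, a3, a4⟩

end Pool.Agent.Work.MP_0421d9_ag
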