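import Pool.Agent.Work.MP_0421d9_ag.Gen3

/-!
Common factors of the members of a linear system: algebraic lemmas.
-/

set_option linter.unusedSectionVars false

namespace Pool.Agent.Work.MP_0421d9_ag

open MvPolynomial Module

/-- lowest homogeneous component -/
theorem exists_order {P : R3} (hP : P ≠ 0) :
    ∃ e, (∀ k < e, homogeneousComponent k P = 0) ∧ homogeneousComponent e P ≠ 0 := by
  classical
  have h : ∃ e, homogeneousComponent e P ≠ 0 := by
    by_contra hcon
    push Not at hcon
    apply hP
    rw [← sum_homogeneousComponent P]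
    exact Finset.sum_eq_zero (fun i _ => hcon i)
  refine ⟨Nat.find h, fun k hk => ?_, Nat.find_spec h⟩
  have := Nat.find_min h hk
  push Not at this
  exact this

/-- the lowest homogeneous component of a product -/
theorem hc_mul_lowest {A G : R3} {a g : ℕ} (hA : ∀ k < a, homogeneousComponent k A = 0)
    (hG : ∀ k < g, homogeneousComponent k G = 0) :
    homogeneousComponent (a + g) (A * G) = homogeneousComponent a A * homogeneousComponent g G := by
  conv_lhs => rw [← sum_homogeneousComponent A]
  rw [Finset.sum_mul, map_sum]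
  have hterm : ∀ n, n ≠ a →
      homogeneousComponent (a + g) (homogeneousComponent n A * G) = 0 := by
    intro n hn
    have hh := homogeneousComponent_isHomogeneous n A
    rcases lt_or_gt_of_ne hn with h | h
    · rw [hA n h, zero_mul, map_zero]
    · by_cases h2 : a + g < n
      · exact homogeneousComponent_mul_lt hh h2 _
      · obtain ⟨l, hl⟩ : ∃ l, a + g = n + l := ⟨a + g - n, by omega⟩
        rw [hl, homogeneousComponent_mul hh, hG l (by omega), mul_zero]
  have hmain : homogeneousComponent (a + g) (homogeneousComponent a A * G) =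
      homogeneousComponent a A * homogeneousComponent g G :=
    homogeneousComponent_mul (homogeneousComponent_isHomogeneous a A) g G
  by_cases ha : a ∈ Finset.range (A.totalDegree + 1)
  · rw [Finset.sum_eq_single a (fun n _ hn => hterm n hn) (fun h => absurd ha h)]
    exact hmain
  · have h1 : homogeneousComponent a A = 0 := by
      apply homogeneousComponent_eq_zero
      rw [Finset.mem_range] at ha
      omega
    rw [h1, zero_mul]
    refine Finset.sum_eq_zero (fun n hn => hterm n ?_)
    rintro rfl
    exact ha hn

theorem le_of_hc_mul {A G : R3} {a n : ℕ} (hA : ∀ k < a, homogeneousComponent k A = 0)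
    (hA' : homogeneousComponent a A ≠ 0) (hn : ∀ k < n, homogeneousComponent k (A * G) = 0) :
    ∀ k, a + k < n → homogeneousComponent k G = 0 := by
  by_cases hG : G = 0
  · intro k _
    rw [hG, map_zero]
  obtain ⟨g, hg, hg'⟩ := exists_order hG
  intro k hk
  apply hg
  by_contra hcon
  push Not at hcon
  have h1 := hn (a + g) (by omega)
  rw [hc_mul_lowest hA hg] at h1
  exact mul_ne_zero hA' hg' h1

/-- a factor of a nonzero form is a form -/
theorem isHomogeneous_factor {A G : R3} {d : ℕ} (h : (A * G).IsHomogeneous d) (h0 : A * G ≠ 0) :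
    ∃ a g, a + g = d ∧ A.IsHomogeneous a ∧ G.IsHomogeneous g := by
  have hA0 : A ≠ 0 := left_ne_zero_of_mul h0
  have hG0 : G ≠ 0 := right_ne_zero_of_mul h0
  obtain ⟨a, ha, ha'⟩ := exists_order hA0
  obtain ⟨g, hg, hg'⟩ := exists_order hG0
  have h1 : homogeneousComponent (a + g) (A * G) ≠ 0 := by
    rw [hc_mul_lowest ha hg]
    exact mul_ne_zero ha' hg'
  have h2 : a + g = d := by
    by_contra hne
    apply h1
    rw [homogeneousComponent_of_mem h, if_neg]
    exact hne
  have h3 : A.totalDegree + G.totalDegree = d := by
    rw [← totalDegree_mul_of_isDomain hA0 hG0]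
    exact h.totalDegree h0
  have key : ∀ {P : R3} {e : ℕ}, (∀ k < e, homogeneousComponent k P = 0) → P.totalDegree ≤ e →
      P.IsHomogeneous e := by
    intro P e h4 h5
    have h6 : P = homogeneousComponent e P := by
      conv_lhs => rw [← sum_homogeneousComponent P]
      by_cases he : e ∈ Finset.range (P.totalDegree + 1)
      · rw [Finset.sum_eq_single e]
        · intro n hn hne
          rw [Finset.mem_range] at hn
          exact h4 n (by omega)
        · intro h; exact absurd he h
      · have h7 : homogeneousComponent e P = 0 := by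
          apply homogeneousComponent_eq_zero
          rw [Finset.mem_range] at he
          omega
        rw [h7]
        refine Finset.sum_eq_zero (fun n hn => ?_)
        rw [Finset.mem_range] at hn he
        exact h4 n (by omega)
    rw [h6]
    exact homogeneousComponent_isHomogeneous e P
  have h4 : ∀ {P : R3} {e : ℕ}, homogeneousComponent e P ≠ 0 → e ≤ P.totalDegree := by
    intro P e h5
    by_contra h6
    exact h5 (homogeneousComponent_eq_zero e P (by omega))
  have h5 := h4 ha'
  have h6 := h4 hg'
  exact ⟨a, g, h2, key ha (by omega), key hg (by omega)⟩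

theorem translate_ne_zero {P : R3} (hP : P ≠ 0) (a : V3) : translate a P ≠ 0 := by
  intro h
  apply hP
  apply MvPolynomial.funext
  intro y
  have h1 := eval_translate a (y - a) P
  rw [h, map_zero, add_sub_cancel] at h1
  rw [← h1, map_zero]

/-- replacing a factor by another one vanishing at least as much -/
theorem vanishTo_swap {π π' g : R3} (hπ : π ≠ 0) {a : V3} {n : ℕ} (h : VanishTo (π * g) a n)
    (hsw : ∀ k, VanishTo π a k → VanishTo π' a k) : VanishTo (π' * g) a n := by
  obtain ⟨e, he, he'⟩ := exists_order (translate_ne_zero hπ a)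
  have h1 : VanishTo g a (n - e) := by
    intro k hk
    unfold VanishTo at h
    rw [translate_mul] at h
    exact le_of_hc_mul he he' h k (by omega)
  have h2 := vanishTo_mul (hsw e he) h1
  exact h2.mono (by omega)

/-- a common factor which can be replaced by another form forces the system to be empty -/
theorem eq_bot_of_swap {ι : Type} {d : ℕ} {p : ι → V3} {m : ι → ℕ} {π π' : R3}
    (hπ : Irreducible π) {e : ℕ} (hπe : π.IsHomogeneous e) (hπe' : π'.IsHomogeneous e)
    (hnd : ¬ π ∣ π') (hsw : ∀ l k, VanishTo π (p l) k → VanishTo π' (p l) k)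
    (hdiv : ∀ f ∈ linSys d p m, π ∣ f) : linSys d p m = ⊥ := by
  have hpr := hπ.prime
  have key : ∀ k, ∀ f ∈ linSys d p m, π ^ (k + 1) ∣ f := by
    intro k
    induction k with
    | zero =>
      intro f hf
      rw [zero_add, pow_one]
      exact hdiv f hf
    | succ k ih =>
      intro f hf
      obtain ⟨g, hg⟩ := ih f hf
      by_cases hf0 : f = 0
      · rw [hf0]; exact dvd_zero _
      have hfe : f = π * (π ^ k * g) := by rw [hg, pow_succ]; ring
      have h1 : π' * (π ^ k * g) ∈ linSys d p m := by
        obtain ⟨a, b, hab, ha, hb⟩ := isHomogeneous_factor (A := π) (G := π ^ k * g) (d := d)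
          (by rw [← hfe]; exact hf.1) (by rw [← hfe]; exact hf0)
        have hae : a = e := ha.inj_right hπe hπ.ne_zero
        refine ⟨?_, fun l => ?_⟩
        · have := hπe'.mul hb
          rwa [← hae, hab] at this
        · apply vanishTo_swap hπ.ne_zero (π := π) _ (hsw l)
          rw [← hfe]
          exact hf.2 l
      have h2 := ih _ h1
      obtain ⟨q, hq⟩ := h2
      have h3 : π ^ k * (π' * g) = π ^ k * (π * q) := by
        calc π ^ k * (π' * g) = π' * (π ^ k * g) := by ring
          _ = π ^ (k + 1) * q := hq
          _ = π ^ k * (π * q) := by rw [pow_succ]; ring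
      have h4 := mul_left_cancel₀ (pow_ne_zero k hπ.ne_zero) h3
      have h5 : π ∣ g := (hpr.dvd_or_dvd ⟨q, h4⟩).resolve_left hnd
      obtain ⟨g', hg'⟩ := h5
      exact ⟨g', by rw [hg, hg', pow_succ _ (k + 1)]; ring⟩
  rw [Submodule.eq_bot_iff]
  intro f hf
  by_contra hf0
  obtain ⟨g, hg⟩ := key d f hf
  obtain ⟨a, b, hab, ha, hb⟩ := isHomogeneous_factor (A := π ^ (d + 1)) (G := g) (d := d)
    (by rw [← hg]; exact hf.1) (by rw [← hg]; exact hf0)
  have hae : a = e * (d + 1) := ha.inj_right (hπe.pow (d + 1)) (pow_ne_zero _ hπ.ne_zero)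
  have h1 : 1 ≤ e := by
    by_contra hcon
    have he0 : e = 0 := by omega
    rw [he0] at hπe
    have h2 : π = C (coeff 0 π) :=
      (totalDegree_eq_zero_iff_eq_C).mp (Nat.le_zero.mp hπe.totalDegree_le)
    apply hπ.not_isUnit
    rw [h2]
    have h3 : coeff 0 π ≠ 0 := by
      intro h4
      rw [h4, C_0] at h2
      exact hπ.ne_zero h2
    exact (IsUnit.mk0 _ h3).map C
  have h2 : d + 1 ≤ e * (d + 1) := Nat.le_mul_of_pos_left _ h1
  omega

end Pool.Agent.Work.MP_0421d9_ag
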