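import Pool.Agent.Work.MP_0421d9_ag.JPos
import Pool.Agent.Work.MP_0421d9_ag.TThree
import Pool.Agent.Work.MP_0421d9_ag.Nc1

/-!
Points on a cuspidal cubic.
-/

namespace Pool.Agent.Work.MP_0421d9_ag.LD

open MvPolynomial Module

/-- the equation of a cuspidal cubic -/
noncomputable def cub : R3 := X 1 ^ 3 - X 0 * X 2 ^ 2

/-- a point of the cubic -/
def cpt (t : ℂ) : V3 := ![1, t ^ 2, t ^ 3]

/-- restriction to the cubic -/
noncomputable def par : R3 →ₐ[ℂ] Polynomial ℂ :=
  aeval ![1, Polynomial.X ^ 2, Polynomial.X ^ 3]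

/-- the weight of an exponent -/
def kw (α : Fin 3 →₀ ℕ) : ℕ := 2 * α 1 + 3 * α 2

theorem par_monomial (α : Fin 3 →₀ ℕ) (c : ℂ) :
    par (monomial α c) = Polynomial.C c * Polynomial.X ^ kw α := by
  unfold par kw
  rw [aeval_monomial, Finsupp.prod_fintype _ _ (fun i => pow_zero _), Fin.prod_univ_three]
  change Polynomial.C c * ((1 : Polynomial ℂ) ^ α 0 * (Polynomial.X ^ 2) ^ α 1 *
    (Polynomial.X ^ 3) ^ α 2) = _
  rw [one_pow, one_mul, ← pow_mul, ← pow_mul, ← pow_add]

theorem par_eq (F : R3) : par F =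
    ∑ α ∈ F.support, Polynomial.C (coeff α F) * Polynomial.X ^ kw α := by
  conv_lhs => rw [F.as_sum]
  rw [map_sum]
  exact Finset.sum_congr rfl (fun α _ => par_monomial α _)

theorem par_coeff (F : R3) (k : ℕ) : (par F).coeff k =
    ∑ α ∈ F.support, if kw α = k then coeff α F else 0 := by
  rw [par_eq, Polynomial.finsetSum_coeff]
  refine Finset.sum_congr rfl (fun α _ => ?_)
  rw [Polynomial.coeff_C_mul_X_pow]
  by_cases h : kw α = k
  · rw [if_pos h, if_pos h.symm]
  · rw [if_neg h, if_neg (fun hh => h hh.symm)]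

theorem par_coeff_one (F : R3) : (par F).coeff 1 = 0 := by
  rw [par_coeff]
  refine Finset.sum_eq_zero (fun α _ => ?_)
  rw [if_neg]
  unfold kw
  omega

theorem kw_le {F : R3} {D : ℕ} (hF : F.IsHomogeneous D) {α : Fin 3 →₀ ℕ} (hα : coeff α F ≠ 0) :
    kw α ≤ 3 * D := by
  have h1 := degree_of_mem_support hF hα
  rw [degree_three] at h1
  unfold kw
  omega

theorem par_natDegree {F : R3} {D : ℕ} (hF : F.IsHomogeneous D) : (par F).natDegree ≤ 3 * D := by
  rw [par_eq]
  refine Polynomial.natDegree_sum_le_of_forall_le _ _ (fun α hα => ?_)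
  refine (Polynomial.natDegree_C_mul_X_pow_le _ _).trans ?_
  exact kw_le hF (mem_support_iff.mp hα)

/-! ### vanishing at a point of the cubic -/

theorem par_dvd {F : R3} {m : ℕ} {t : ℂ} (h : VanishTo F (cpt t) m) :
    (Polynomial.X - Polynomial.C t) ^ m ∣ par F := by
  obtain ⟨v, hv⟩ : ∃ v : Fin 3 → Polynomial ℂ, v = ![0, Polynomial.X + Polynomial.C t,
    Polynomial.X ^ 2 + Polynomial.C t * Polynomial.X + Polynomial.C (t ^ 2)] := ⟨_, rfl⟩
  obtain ⟨ψ, hψ⟩ : ∃ ψ : R3 →ₐ[ℂ] Polynomial ℂ,
    ψ = aeval (fun k => (Polynomial.X - Polynomial.C t) * v k) := ⟨_, rfl⟩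
  have h1 : ∀ G : R3, par G = ψ (translate (cpt t) G) := by
    intro G
    induction G using MvPolynomial.induction_on with
    | C c =>
      unfold translate
      rw [algHom_C, algHom_C, algebraMap_eq, algHom_C]
    | add f g hf hg =>
      rw [map_add, hf, hg]
      unfold translate
      rw [map_add, map_add]
    | mul_X f k hf =>
      rw [map_mul, hf]
      unfold translate
      rw [map_mul, map_mul, aeval_X, map_add, algHom_C, hψ, aeval_X]
      congr 1
      unfold par
      rw [aeval_X, hv]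
      fin_cases k
      · change (1 : Polynomial ℂ) = Polynomial.C 1 + (Polynomial.X - Polynomial.C t) * 0
        rw [map_one, mul_zero, add_zero]
      · change (Polynomial.X ^ 2 : Polynomial ℂ) = Polynomial.C (t ^ 2) +
          (Polynomial.X - Polynomial.C t) * (Polynomial.X + Polynomial.C t)
        rw [Polynomial.C_pow]
        ring
      · change (Polynomial.X ^ 3 : Polynomial ℂ) = Polynomial.C (t ^ 3) +
          (Polynomial.X - Polynomial.C t) * (Polynomial.X ^ 2 + Polynomial.C t * Polynomial.X +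
            Polynomial.C (t ^ 2))
        rw [Polynomial.C_pow, Polynomial.C_pow]
        ring
  rw [h1]
  conv_rhs => rw [← sum_homogeneousComponent (translate (cpt t) F)]
  rw [map_sum]
  refine Finset.dvd_sum (fun k _ => ?_)
  rcases Nat.lt_or_ge k m with hk | hk
  · rw [h k hk, map_zero]
    exact dvd_zero _
  refine (pow_dvd_pow _ hk).trans ?_
  have hh := homogeneousComponent_isHomogeneous k (translate (cpt t) F)
  generalize homogeneousComponent k (translate (cpt t) F) = G at hh ⊢
  rw [G.as_sum, map_sum]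
  refine Finset.dvd_sum (fun β hβ => ?_)
  rw [hψ, aeval_monomial, Finsupp.prod_fintype _ _ (fun i => pow_zero _)]
  refine Dvd.dvd.mul_left ?_ _
  have h2 := degree_of_mem_support hh (mem_support_iff.mp hβ)
  rw [← h2, Finsupp.degree_eq_sum, ← Finset.prod_pow_eq_pow_sum]
  refine Finset.prod_dvd_prod_of_dvd _ _ (fun i _ => ?_)
  exact pow_dvd_pow_of_dvd (Dvd.intro _ rfl) _

theorem par_prod_dvd {N : ℕ} {t : Fin N → ℂ} (ht : Function.Injective t) {F : R3} {a : Fin N → ℕ}
    (h : ∀ i, VanishTo F (cpt (t i)) (a i)) :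
    ∏ i, (Polynomial.X - Polynomial.C (t i)) ^ a i ∣ par F := by
  refine Finset.prod_dvd_of_coprime (fun i _ j _ hij => ?_) (fun i _ => par_dvd (h i))
  exact (Polynomial.pairwise_coprime_X_sub_C ht hij).pow

/-- the dimension of the space of restrictions -/
theorem finrank_par_le {P : Polynomial ℂ} {n s : ℕ} (hP0 : P.coeff 0 ≠ 0)
    (hs : P.natDegree = s) (hn : s + 1 ≤ n) (W : Submodule ℂ (Polynomial ℂ))
    (hW : ∀ f ∈ W, f.natDegree ≤ n ∧ f.coeff 1 = 0 ∧ P ∣ f) : finrank ℂ W ≤ n - s := by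
  have hPne : P ≠ 0 := fun h => hP0 (by rw [h, Polynomial.coeff_zero])
  obtain ⟨E, hE⟩ : ∃ E, E = Polynomial.degreeLT ℂ (n - s + 1) := ⟨_, rfl⟩
  have hEfin : Module.Finite ℂ E := by
    rw [hE]
    exact Module.Finite.equiv (Polynomial.degreeLTEquiv ℂ (n - s + 1)).symm
  have hEdim : finrank ℂ E = n - s + 1 := by
    rw [hE, (Polynomial.degreeLTEquiv ℂ (n - s + 1)).finrank_eq, finrank_fin_fun]
  let lam : Polynomial ℂ →ₗ[ℂ] ℂ := Polynomial.lcoeff ℂ 1 ∘ₗ LinearMap.mulLeft ℂ P
  have hlam : ∀ g, lam g = (P * g).coeff 1 := fun g => rfl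
  have hlt : E ⊓ LinearMap.ker lam < E := by
    refine lt_of_le_of_ne inf_le_left (fun h => ?_)
    have h1 : (Polynomial.X : Polynomial ℂ) ∈ E := by
      rw [hE, Polynomial.mem_degreeLT, Polynomial.degree_X]
      have h2 : (1 : ℕ) < n - s + 1 := by omega
      exact_mod_cast h2
    rw [← h] at h1
    have h2 := LinearMap.mem_ker.mp h1.2
    rw [hlam, Polynomial.coeff_mul_X] at h2
    exact hP0 h2
  have h1 := Submodule.finrank_lt_finrank_of_lt hlt
  rw [hEdim] at h1
  have hfin2 : Module.Finite ℂ ↥(E ⊓ LinearMap.ker lam) :=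
    Submodule.finiteDimensional_of_le inf_le_left
  have h2 : W ≤ (E ⊓ LinearMap.ker lam).map (LinearMap.mulLeft ℂ P) := by
    intro f hf
    obtain ⟨h3, h4, g, hg⟩ := hW f hf
    refine ⟨g, ⟨?_, ?_⟩, hg.symm⟩
    · rw [SetLike.mem_coe, hE, Polynomial.mem_degreeLT]
      by_cases hg0 : g = 0
      · rw [hg0, Polynomial.degree_zero]
        exact WithBot.bot_lt_coe _
      · rw [hg, Polynomial.natDegree_mul hPne hg0, hs] at h3
        rw [Polynomial.degree_eq_natDegree hg0]
        have h5 : g.natDegree < n - s + 1 := by omega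
        exact_mod_cast h5
    · rw [SetLike.mem_coe, LinearMap.mem_ker, hlam, ← hg]
      exact h4
  have hfin3 : Module.Finite ℂ ↥((E ⊓ LinearMap.ker lam).map (LinearMap.mulLeft ℂ P)) :=
    inferInstance
  have h3 := Submodule.finrank_mono h2
  have h4 := Submodule.finrank_map_le (LinearMap.mulLeft ℂ P) (E ⊓ LinearMap.ker lam)
  omega

/-! ### the forms vanishing on the cubic -/

/-- a standard monomial of given degree and weight -/
noncomputable def can (D k : ℕ) : R3 :=
  X 0 ^ (D - 2 * k % 3 - (k - 2 * (2 * k % 3)) / 3) * X 1 ^ (2 * k % 3) *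
    X 2 ^ ((k - 2 * (2 * k % 3)) / 3)

theorem cub_dvd_can {D : ℕ} {α : Fin 3 →₀ ℕ} (hα : α.degree = D) :
    cub ∣ monomial α 1 - can D (kw α) := by
  have h1 : (monomial α (1 : ℂ) : R3) = X 0 ^ α 0 * X 1 ^ α 1 * X 2 ^ α 2 := by
    rw [monomial_eq, Finsupp.prod_fintype _ _ (fun i => pow_zero _), Fin.prod_univ_three, C_1,
      one_mul]
  rw [degree_three] at hα
  obtain ⟨b, hb⟩ : ∃ b, b = α 1 % 3 := ⟨_, rfl⟩
  obtain ⟨j, hj⟩ : ∃ j, j = α 1 / 3 := ⟨_, rfl⟩
  have e1 : α 1 = b + 3 * j := by omega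
  have e2 : 2 * kw α % 3 = b := by
    unfold kw
    omega
  have e3 : (kw α - 2 * b) / 3 = α 2 + 2 * j := by
    unfold kw
    omega
  have e4 : D - b - (α 2 + 2 * j) = α 0 + j := by omega
  have h2 : can D (kw α) = X 0 ^ (α 0 + j) * X 1 ^ b * X 2 ^ (α 2 + 2 * j) := by
    unfold can
    rw [e2, e3, e4]
  have h3 : X 0 ^ α 0 * X 1 ^ α 1 * X 2 ^ α 2 -
      X 0 ^ (α 0 + j) * X 1 ^ b * X 2 ^ (α 2 + 2 * j) =
      (X 0 ^ α 0 * X 1 ^ b * X 2 ^ α 2 : R3) * ((X 1 ^ 3) ^ j - (X 0 * X 2 ^ 2) ^ j) := by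
    rw [e1]
    ring
  rw [h1, h2, h3]
  exact Dvd.dvd.mul_left (sub_dvd_pow_sub_pow _ _ j) _

theorem cub_dvd_of_par {F : R3} {D : ℕ} (hF : F.IsHomogeneous D) (h : par F = 0) : cub ∣ F := by
  classical
  have h1 : ∑ α ∈ F.support, C (coeff α F) * can D (kw α) = 0 := by
    rw [← Finset.sum_fiberwise_of_maps_to (s := F.support) (t := Finset.range (3 * D + 1))
      (g := kw) (fun α hα => by
        rw [Finset.mem_range]
        have := kw_le hF (mem_support_iff.mp hα)
        omega)]
    refine Finset.sum_eq_zero (fun k _ => ?_)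
    have h2 : ∑ α ∈ F.support.filter (fun α => kw α = k), C (coeff α F) * can D (kw α) =
        C ((par F).coeff k) * can D k := by
      rw [par_coeff, map_sum, Finset.sum_mul, Finset.sum_filter]
      refine Finset.sum_congr rfl (fun α _ => ?_)
      split_ifs with h3
      · rw [h3]
      · rw [C_0, zero_mul]
    rw [h2, h, Polynomial.coeff_zero, C_0, zero_mul]
  have h2 : F = ∑ α ∈ F.support, C (coeff α F) * (monomial α 1 - can D (kw α)) := by
    simp only [mul_sub, Finset.sum_sub_distrib]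
    rw [h1, sub_zero]
    conv_lhs => rw [F.as_sum]
    refine Finset.sum_congr rfl (fun α _ => ?_)
    rw [C_mul_monomial, mul_one]
  rw [h2]
  refine Finset.dvd_sum (fun α hα => Dvd.dvd.mul_left (cub_dvd_can ?_) _)
  exact degree_of_mem_support hF (mem_support_iff.mp hα)

theorem cub_isHomogeneous : cub.IsHomogeneous 3 := by
  unfold cub
  refine IsHomogeneous.sub ?_ ?_
  · have h := (isHomogeneous_X ℂ (1 : Fin 3)).pow 3
    exact h
  · have h := (isHomogeneous_X ℂ (0 : Fin 3)).mul ((isHomogeneous_X ℂ (2 : Fin 3)).pow 2)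
    exact h

theorem cub_ne_zero : cub ≠ 0 := by
  intro h
  have h1 := congrArg (eval (![0, 1, 0] : V3)) h
  unfold cub at h1
  simp at h1

/-- the cubic is smooth at the points with `t ≠ 0` -/
theorem cub_not_double {t : ℂ} (ht : t ≠ 0) : ¬ VanishTo cub (cpt t) 2 := by
  intro h
  have h1 : VanishTo (pderiv 1 cub) (cpt t) 1 := Rk.vanishTo_pderiv 1 h
  have h2 := vanishTo_one_iff'.mp h1
  unfold cub cpt at h2
  simp at h2
  exact ht h2

theorem vanishTo_of_cub_mul {G : R3} {t : ℂ} (ht : t ≠ 0) {a : ℕ}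
    (h : VanishTo (cub * G) (cpt t) a) : VanishTo G (cpt t) (a - 1) := by
  obtain ⟨e, he, he'⟩ := exists_order (translate_ne_zero cub_ne_zero (cpt t))
  have he1 : e ≤ 1 := by
    by_contra hcon
    exact cub_not_double ht (fun k hk => he k (by omega))
  intro k hk
  unfold VanishTo at h
  rw [translate_mul] at h
  exact le_of_hc_mul he he' h k (by omega)

/-- **Restriction to the cubic.** -/
theorem cubic_step {N : ℕ} {t : Fin N → ℂ} (ht : Function.Injective t) (ht0 : ∀ i, t i ≠ 0)
    {a : Fin N → ℕ} {D : ℕ} (hs : ∑ i, a i + 1 ≤ 3 * D) :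
    finrank ℂ (linSys D (fun i => cpt (t i)) a) ≤
      finrank ℂ (linSys (D - 3) (fun i => cpt (t i)) (fun i => a i - 1)) +
        (3 * D - ∑ i, a i) := by
  obtain ⟨V, hV⟩ : ∃ V, V = linSys D (fun i => cpt (t i)) a := ⟨_, rfl⟩
  obtain ⟨V', hV'⟩ : ∃ V', V' = linSys (D - 3) (fun i => cpt (t i)) (fun i => a i - 1) := ⟨_, rfl⟩
  rw [← hV, ← hV']
  have hfin : Module.Finite ℂ V := by
    rw [hV]
    exact Submodule.finiteDimensional_of_le (linSys_le _ _ _)
  have hfin' : Module.Finite ℂ V' := by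
    rw [hV']
    exact Submodule.finiteDimensional_of_le (linSys_le _ _ _)
  rw [finrank_eq_ker_add_map par.toLinearMap V]
  apply Nat.add_le_add
  · have h1 : V ⊓ LinearMap.ker par.toLinearMap ≤ V'.map (LinearMap.mulLeft ℂ cub) := by
      rintro F ⟨hF, hF'⟩
      rw [SetLike.mem_coe, hV] at hF
      obtain ⟨hF1, hF2⟩ := hF
      have hF3 : par F = 0 := LinearMap.mem_ker.mp hF'
      obtain ⟨G, hG⟩ := cub_dvd_of_par hF1 hF3
      refine ⟨G, ?_, hG.symm⟩
      rw [SetLike.mem_coe, hV']
      refine ⟨?_, fun i => ?_⟩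
      · by_cases hF0 : F = 0
        · have : G = 0 := by
            rw [hF0] at hG
            rcases mul_eq_zero.mp hG.symm with h | h
            · exact absurd h cub_ne_zero
            · exact h
          rw [this]
          exact isHomogeneous_zero _ _ _
        · rw [hG] at hF1 hF0
          obtain ⟨x, g, hxg, hx, hg⟩ := isHomogeneous_factor hF1 hF0
          have hx3 : x = 3 := hx.inj_right cub_isHomogeneous cub_ne_zero
          have e1 : D - 3 = g := by omega
          rw [e1]
          exact hg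
      · have h2 := hF2 i
        rw [hG] at h2
        exact vanishTo_of_cub_mul (ht0 i) h2
    exact (Submodule.finrank_mono h1).trans (Submodule.finrank_map_le _ _)
  · obtain ⟨P, hP⟩ : ∃ P : Polynomial ℂ, P = ∏ i, (Polynomial.X - Polynomial.C (t i)) ^ a i :=
      ⟨_, rfl⟩
    have hP0 : P.coeff 0 ≠ 0 := by
      rw [Polynomial.coeff_zero_eq_eval_zero, hP, Polynomial.eval_prod, Finset.prod_ne_zero_iff]
      intro i _
      rw [Polynomial.eval_pow]
      apply pow_ne_zero
      simp [ht0 i]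
    have hPd : P.natDegree = ∑ i, a i := by
      rw [hP, Polynomial.natDegree_prod_of_monic _ _
        (fun i _ => (Polynomial.monic_X_sub_C (t i)).pow _)]
      refine Finset.sum_congr rfl (fun i _ => ?_)
      rw [Polynomial.natDegree_pow, Polynomial.natDegree_X_sub_C, mul_one]
    refine finrank_par_le hP0 hPd hs _ ?_
    rintro f ⟨F, hF, rfl⟩
    rw [SetLike.mem_coe, hV] at hF
    refine ⟨par_natDegree hF.1, par_coeff_one F, ?_⟩
    rw [hP]
    exact par_prod_dvd ht hF.2

/-! ### two points -/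

theorem two_regular {t : Fin 9 → ℂ} (ht : Function.Injective t) (ht0 : ∀ i, t i ≠ 0)
    {a : Fin 9 → ℕ} {D : ℕ} {i j : Fin 9} (hij : i ≠ j) (h0 : ∀ l, l ≠ i → l ≠ j → a l = 0)
    (hD : a i + a j ≤ D) :
    finrank ℂ (linSys D (fun i => cpt (t i)) a) + ∑ i, (a i + 1).choose 2 ≤
      (D + 2).choose 2 := by
  classical
  -- a third point
  obtain ⟨k, hik, hjk⟩ : ∃ k : Fin 9, i ≠ k ∧ j ≠ k := by
    have h1 : ∃ k ∈ (Finset.univ : Finset (Fin 9)), k ∉ ({i, j} : Finset (Fin 9)) := by
      by_contra hcon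
      push Not at hcon
      have h2 := Finset.card_le_card (s := (Finset.univ : Finset (Fin 9))) (t := {i, j})
        (fun x hx => hcon x hx)
      have h3 := Finset.card_le_two (a := i) (b := j)
      rw [Finset.card_univ, Fintype.card_fin] at h2
      omega
    obtain ⟨k, -, hk⟩ := h1
    rw [Finset.mem_insert, Finset.mem_singleton, not_or] at hk
    exact ⟨k, Ne.symm hk.1, Ne.symm hk.2⟩
  obtain ⟨G, hG⟩ : ∃ G, G = colM (gpt 9 i) (gpt 9 j) (gpt 9 k) := ⟨_, rfl⟩
  obtain ⟨Q, hQ⟩ : ∃ Q, Q = colM (cpt (t i)) (cpt (t j)) ![1, 0, 0] := ⟨_, rfl⟩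
  have hGdet : G.det ≠ 0 := by
    rw [hG, colM_det]
    exact gpt_det3_ne hij hik hjk
  have hQdet : Q.det ≠ 0 := by
    rw [hQ, colM_det]
    unfold det3 cpt
    have h1 : t i ≠ t j := fun h => hij (ht h)
    have h2 := ht0 i
    have h3 := ht0 j
    simp
    intro h
    have h4 : t i ^ 2 * t j ^ 2 * (t j - t i) = 0 := by
      linear_combination h
    rcases mul_eq_zero.mp h4 with h5 | h5
    · rcases mul_eq_zero.mp h5 with h6 | h6
      · exact h2 (pow_eq_zero_iff (by norm_num) |>.mp h6)
      · exact h3 (pow_eq_zero_iff (by norm_num) |>.mp h6)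
    · exact h1 (sub_eq_zero.mp h5).symm
  have hGU := isUnit_iff_ne_zero.mpr hGdet
  have hQU := isUnit_iff_ne_zero.mpr hQdet
  have hGi : G⁻¹.mulVec (gpt 9 i) = Pi.single 0 1 := by
    have h1 : G.mulVec (Pi.single 0 1) = gpt 9 i := by
      rw [hG, colM_mulVec]
      funext l
      simp
    rw [← h1, Matrix.mulVec_mulVec, Matrix.nonsing_inv_mul _ hGU, Matrix.one_mulVec]
  have hGj : G⁻¹.mulVec (gpt 9 j) = Pi.single 1 1 := by
    have h1 : G.mulVec (Pi.single 1 1) = gpt 9 j := by
      rw [hG, colM_mulVec]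
      funext l
      simp
    rw [← h1, Matrix.mulVec_mulVec, Matrix.nonsing_inv_mul _ hGU, Matrix.one_mulVec]
  have hM1 : (Q * G⁻¹) * (G * Q⁻¹) = 1 := by
    rw [Matrix.mul_assoc, ← Matrix.mul_assoc G⁻¹, Matrix.nonsing_inv_mul _ hGU, Matrix.one_mul,
      Matrix.mul_nonsing_inv _ hQU]
  have hmi : (Q * G⁻¹).mulVec (gpt 9 i) = cpt (t i) := by
    rw [← Matrix.mulVec_mulVec, hGi, hQ, colM_mulVec]
    funext l
    simp
  have hmj : (Q * G⁻¹).mulVec (gpt 9 j) = cpt (t j) := by
    rw [← Matrix.mulVec_mulVec, hGj, hQ, colM_mulVec]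
    funext l
    simp
  obtain ⟨M, hM⟩ : ∃ M, M = Q * G⁻¹ := ⟨_, rfl⟩
  obtain ⟨M', hM'⟩ : ∃ M', M' = G * Q⁻¹ := ⟨_, rfl⟩
  rw [← hM, ← hM'] at hM1
  rw [← hM] at hmi hmj
  have hfin : Module.Finite ℂ (linSys D (gpt 9) a) :=
    Submodule.finiteDimensional_of_le (linSys_le _ _ _)
  have h1 : ∀ F ∈ linSys D (fun i => cpt (t i)) a, subM M F ∈ linSys D (gpt 9) a := by
    intro F hF
    obtain ⟨h1, h2⟩ := hF
    refine ⟨subM_isHomogeneous M h1, fun l => ?_⟩
    by_cases hl : l = i
    · subst hl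
      apply vanishTo_subM
      rw [hmi]
      exact h2 l
    by_cases hl' : l = j
    · subst hl'
      apply vanishTo_subM
      rw [hmj]
      exact h2 l
    rw [h0 l hl hl']
    exact uv_zero _ _
  have h2 : finrank ℂ (linSys D (fun i => cpt (t i)) a) ≤ finrank ℂ (linSys D (gpt 9) a) := by
    refine LinearMap.finrank_le_finrank_of_injective (f := (subM M).toLinearMap.restrict h1) ?_
    intro F F' h
    have h2 : subM M F.1 = subM M F'.1 := congrArg Subtype.val h
    have h3 := congrArg (subM M') h2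
    rw [subM_subM, subM_subM, hM1, subM_one, subM_one] at h3
    exact Subtype.ext h3
  have h3 := three_regular (D := D) (gpt_generic 9) a (I := {i, j})
    ((Finset.card_le_two).trans (by norm_num)) (fun l hl => by
      rw [Finset.mem_insert, Finset.mem_singleton] at hl
      rcases hl with rfl | rfl <;> omega) (fun l hl l' hl' hll => by
      rw [Finset.mem_insert, Finset.mem_singleton] at hl hl'
      rcases hl with rfl | rfl <;> rcases hl' with rfl | rfl <;> first | exact absurd rfl hll | omega)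
  have h4 : onB {i, j} a = a := by
    funext l
    unfold onB
    split_ifs with hl
    · rfl
    · rw [Finset.mem_insert, Finset.mem_singleton, not_or] at hl
      exact (h0 l hl.1 hl.2).symm
  rw [h4] at h3
  have h5 : ∑ l ∈ ({i, j} : Finset (Fin 9)), (a l + 1).choose 2 = ∑ l, (a l + 1).choose 2 := by
    rw [← sum_onB, h4]
  rw [h5] at h3
  omega

/-- **Reduced classes on the cubic.** -/
theorem reduced_regular {t : Fin 9 → ℂ} (ht : Function.Injective t) (ht0 : ∀ i, t i ≠ 0) :
    ∀ (D : ℕ) (a : Fin 9 → ℕ), (∀ i j k, i ≠ j → i ≠ k → j ≠ k → a i + a j + a k ≤ D) →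
      (∑ i, a i + 1 ≤ 3 * D ∨ ∀ i, a i = 0) →
      finrank ℂ (linSys D (fun i => cpt (t i)) a) + ∑ i, (a i + 1).choose 2 ≤
        (D + 2).choose 2 := by
  classical
  intro D
  induction D using Nat.strong_induction_on with
  | _ D ih =>
  intro a hred hK
  by_cases h3 : ∃ i j k, i ≠ j ∧ i ≠ k ∧ j ≠ k ∧ 1 ≤ a i ∧ 1 ≤ a j ∧ 1 ≤ a k
  · obtain ⟨x, y, z, hxy, hxz, hyz, hx, hy, hz⟩ := h3
    have h1 := hred x y z hxy hxz hyz
    have hK' : ∑ i, a i + 1 ≤ 3 * D := by
      rcases hK with h | h
      · exact h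
      · have := h x
        omega
    have hstep := cubic_step ht ht0 (a := a) (D := D) hK'
    obtain ⟨b, hb⟩ : ∃ b : Fin 9 → ℕ, b = fun i => a i - 1 := ⟨_, rfl⟩
    have hbi : ∀ i, b i = a i - 1 := fun i => by rw [hb]
    rw [← hb] at hstep
    have hbred : ∀ i j k, i ≠ j → i ≠ k → j ≠ k → b i + b j + b k ≤ D - 3 := by
      -- among `x, y, z` there is an index different from two given ones
      have hex1 : ∀ i j, ∃ l, l ≠ i ∧ l ≠ j ∧ 1 ≤ a l := by
        intro i j
        by_cases g1 : x ≠ i ∧ x ≠ j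
        · exact ⟨x, g1.1, g1.2, hx⟩
        by_cases g2 : y ≠ i ∧ y ≠ j
        · exact ⟨y, g2.1, g2.2, hy⟩
        refine ⟨z, fun h => ?_, fun h => ?_, hz⟩
        · subst h
          rw [not_and_or, not_not, not_not] at g1 g2
          rcases g1 with g1 | g1
          · exact hxz g1
          rcases g2 with g2 | g2
          · exact hyz g2
          exact hxy (g1.trans g2.symm)
        · subst h
          rw [not_and_or, not_not, not_not] at g1 g2
          rcases g1 with g1 | g1
          · rcases g2 with g2 | g2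
            · exact hxy (g1.trans g2.symm)
            · exact hyz g2
          · exact hxz g1
      have hex2 : ∀ i, ∃ l l', l ≠ i ∧ l' ≠ i ∧ l ≠ l' ∧ 1 ≤ a l ∧ 1 ≤ a l' := by
        intro i
        obtain ⟨l, h1, -, h2⟩ := hex1 i i
        obtain ⟨l', h3, h4, h5⟩ := hex1 i l
        exact ⟨l, l', h1, h3, Ne.symm h4, h2, h5⟩
      have key : ∀ i j k, i ≠ j → i ≠ k → j ≠ k → a k ≤ a i → a k ≤ a j →
          b i + b j + b k ≤ D - 3 := by
        intro i j k hij hik hjk hki hkj
        rw [hbi, hbi, hbi]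
        rcases Nat.eq_zero_or_pos (a k) with hk0 | hk0
        · rcases Nat.eq_zero_or_pos (a i) with hi0 | hi0
          · obtain ⟨l, l', g1, g2, g3, g4, g5⟩ := hex2 j
            have g6 := hred j l l' (Ne.symm g1) (Ne.symm g2) g3
            omega
          rcases Nat.eq_zero_or_pos (a j) with hj0 | hj0
          · obtain ⟨l, l', g1, g2, g3, g4, g5⟩ := hex2 i
            have g6 := hred i l l' (Ne.symm g1) (Ne.symm g2) g3
            omega
          · obtain ⟨l, g1, g2, g3⟩ := hex1 i j
            have g6 := hred i j l hij (Ne.symm g1) (Ne.symm g2)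
            omega
        · have g6 := hred i j k hij hik hjk
          omega
      intro i j k hij hik hjk
      by_cases g1 : a k ≤ a i ∧ a k ≤ a j
      · exact key i j k hij hik hjk g1.1 g1.2
      by_cases g2 : a j ≤ a i ∧ a j ≤ a k
      · have := key i k j hik hij (Ne.symm hjk) g2.1 g2.2
        omega
      · have := key j k i hjk (Ne.symm hij) (Ne.symm hik) (by omega) (by omega)
        omega
    -- the sums
    have hc1 : ∑ i, (a i + 1).choose 2 = ∑ i, (b i + 1).choose 2 + ∑ i, a i := by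
      rw [← Finset.sum_add_distrib]
      refine Finset.sum_congr rfl (fun i _ => ?_)
      rw [hbi]
      rcases Nat.eq_zero_or_pos (a i) with g | g
      · rw [g]
        rfl
      · obtain ⟨w, hw⟩ : ∃ w, a i = w + 1 := ⟨a i - 1, by omega⟩
        rw [hw, Nat.add_sub_cancel, Nat.choose_succ_succ' (w + 1) 1, Nat.choose_one_right]
        ring
    have hc2 : (D + 2).choose 2 = (D - 3 + 2).choose 2 + 3 * D := by
      obtain ⟨w, rfl⟩ : ∃ w, D = w + 3 := ⟨D - 3, by omega⟩
      have e1 : w + 3 - 3 + 2 = w + 2 := by omega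
      have e2 : w + 3 + 2 = w + 2 + 1 + 1 + 1 := by ring
      rw [e1, e2, Nat.choose_succ_succ' (w + 2 + 1 + 1) 1, Nat.choose_succ_succ' (w + 2 + 1) 1,
        Nat.choose_succ_succ' (w + 2) 1, Nat.choose_one_right, Nat.choose_one_right,
        Nat.choose_one_right]
      ring
    have hK2 : ∑ i, b i + 1 ≤ 3 * (D - 3) ∨ ∀ i, b i = 0 := by
      by_cases hb0 : ∀ i, b i = 0
      · exact Or.inr hb0
      left
      push Not at hb0
      obtain ⟨w, hw⟩ := hb0
      have hw1 : 1 ≤ b w := Nat.one_le_iff_ne_zero.mpr hw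
      by_cases ha0 : ∀ i, 1 ≤ a i
      · have h5 : ∑ i, a i = ∑ i, b i + 9 := by
          have h6 : ∑ i : Fin 9, a i = ∑ i : Fin 9, (b i + 1) :=
            Finset.sum_congr rfl (fun i _ => by
              rw [hbi]
              have := ha0 i
              omega)
          rw [h6, Finset.sum_add_distrib, Finset.sum_const, Finset.card_univ, Fintype.card_fin,
            smul_eq_mul, mul_one]
        omega
      · push Not at ha0
        obtain ⟨v, hv⟩ := ha0
        have hbv : b v = 0 := by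
          rw [hbi]
          omega
        -- `b` has a zero entry `v` and a nonzero entry `w`
        have hwv : w ≠ v := by
          intro h
          rw [h] at hw1
          omega
        obtain ⟨σ, hσ0, hσ1⟩ : ∃ σ : Equiv.Perm (Fin 9), σ 0 = v ∧ σ 3 = w := by
          refine ⟨(Equiv.swap 0 v).trans (Equiv.swap ((Equiv.swap 0 v) 3) w), ?_, ?_⟩
          · rw [Equiv.trans_apply, Equiv.swap_apply_left]
            apply Equiv.swap_apply_of_ne_of_ne
            · intro h
              have h6 : (Equiv.swap 0 v) (0 : Fin 9) = (Equiv.swap 0 v) 3 := by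
                rw [Equiv.swap_apply_left]
                exact h
              exact absurd ((Equiv.swap 0 v).injective h6) (by decide)
            · exact Ne.symm hwv
          · rw [Equiv.trans_apply, Equiv.swap_apply_left]
        have hs : ∑ i, b i = ∑ i, b (σ i) := (Equiv.sum_comp σ b).symm
        have hσn : ∀ i j : Fin 9, i ≠ j → σ i ≠ σ j := fun i j h h' => h (σ.injective h')
        have q1 := hbred (σ 1) (σ 2) (σ 3) (hσn _ _ (by decide)) (hσn _ _ (by decide))
          (hσn _ _ (by decide))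
        have q2 := hbred (σ 4) (σ 5) (σ 3) (hσn _ _ (by decide)) (hσn _ _ (by decide))
          (hσn _ _ (by decide))
        have q3 := hbred (σ 6) (σ 7) (σ 8) (hσn _ _ (by decide)) (hσn _ _ (by decide))
          (hσn _ _ (by decide))
        rw [hσ1] at q1 q2
        have hsum : ∑ i, b (σ i) = b (σ 0) + b (σ 1) + b (σ 2) + b (σ 3) + b (σ 4) + b (σ 5) +
            b (σ 6) + b (σ 7) + b (σ 8) := by
          simp [Fin.sum_univ_succ]
          ring
        rw [hs, hsum, hσ0, hσ1, hbv]
        omega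
    have h4 := ih (D - 3) (by omega) b hbred hK2
    omega
  · push Not at h3
    -- at most two multiplicities are different from zero
    by_cases hx : ∃ x, 1 ≤ a x
    · obtain ⟨x, hx⟩ := hx
      by_cases hy : ∃ y, x ≠ y ∧ 1 ≤ a y
      · obtain ⟨y, hxy, hy⟩ := hy
        have h0 : ∀ l, l ≠ x → l ≠ y → a l = 0 := by
          intro l hlx hly
          have := h3 x y l hxy (Ne.symm hlx) (Ne.symm hly) hx hy
          omega
        obtain ⟨k, hik, hjk⟩ : ∃ k : Fin 9, x ≠ k ∧ y ≠ k := by
          have h1 : ∃ k ∈ (Finset.univ : Finset (Fin 9)), k ∉ ({x, y} : Finset (Fin 9)) := by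
            by_contra hcon
            push Not at hcon
            have h2 := Finset.card_le_card (s := (Finset.univ : Finset (Fin 9))) (t := {x, y})
              (fun x hx => hcon x hx)
            have h3 := Finset.card_le_two (a := x) (b := y)
            rw [Finset.card_univ, Fintype.card_fin] at h2
            omega
          obtain ⟨k, -, hk⟩ := h1
          rw [Finset.mem_insert, Finset.mem_singleton, not_or] at hk
          exact ⟨k, Ne.symm hk.1, Ne.symm hk.2⟩
        have h1 := hred x y k hxy hik hjk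
        exact two_regular ht ht0 hxy h0 (by omega)
      · push Not at hy
        have h0 : ∀ l, l ≠ x → a l = 0 := by
          intro l hlx
          have := hy l (Ne.symm hlx)
          omega
        obtain ⟨y, z, hxy, hxz, hyz⟩ : ∃ y z : Fin 9, x ≠ y ∧ x ≠ z ∧ y ≠ z := by
          have hall : ∀ w : Fin 9, ∃ y z : Fin 9, w ≠ y ∧ w ≠ z ∧ y ≠ z := by decide
          exact hall x
        have h1 := hred x y z hxy hxz hyz
        exact two_regular ht ht0 hxy (fun l g1 _ => h0 l g1) (by
          have := h0 y (Ne.symm hxy)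
          omega)
    · push Not at hx
      have h0 : ∀ l, a l = 0 := by
        intro l
        have := hx l
        omega
      exact two_regular (i := 0) (j := 1) ht ht0 (by decide) (fun l _ _ => h0 l) (by
        rw [h0, h0]
        exact Nat.zero_le _)

end Pool.Agent.Work.MP_0421d9_ag.LD
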