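import Mathlib

/-!
Numerical exceptional classes on the blow-up of the plane at nine points.
-/

namespace Pool.Agent.Work.MP_0421d9_ag.LD

/-- numerical exceptional classes: `C ^ 2 = C · K = -1` -/
structure Exc (e : ℤ) (c : Fin 9 → ℤ) : Prop where
  sq : ∑ i, c i ^ 2 = e ^ 2 + 1
  can : ∑ i, c i = 3 * e - 1

theorem Exc.perm {e : ℤ} {c : Fin 9 → ℤ} (h : Exc e c) (σ : Equiv.Perm (Fin 9)) :
    Exc e (c ∘ σ) := by
  refine ⟨?_, ?_⟩
  · rw [← h.sq]
    exact Equiv.sum_comp σ (fun i => c i ^ 2)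
  · rw [← h.can]
    exact Equiv.sum_comp σ c

theorem Exc.nonneg {e : ℤ} {c : Fin 9 → ℤ} (h : Exc e c) : 0 ≤ e := by
  have h1 := sq_sum_le_card_mul_sum_sq (s := (Finset.univ : Finset (Fin 9))) (f := c)
  rw [h.sq, h.can, Finset.card_univ, Fintype.card_fin] at h1
  push_cast at h1
  by_contra hcon
  push Not at hcon
  have h2 : e = -1 := by nlinarith
  have h3 : ∑ i, (c i ^ 2 + c i) = -2 := by
    rw [Finset.sum_add_distrib, h.sq, h.can, h2]
    norm_num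
  have h4 : 0 ≤ ∑ i, (c i ^ 2 + c i) := Finset.sum_nonneg (fun i _ => by
    rcases lt_or_ge (c i) 0 with g | g
    · nlinarith
    · positivity)
  omega

theorem Exc.zero {c : Fin 9 → ℤ} (h : Exc 0 c) (i : Fin 9) : c i ≤ 0 := by
  have h3 : ∑ i, (c i ^ 2 + c i) = 0 := by
    rw [Finset.sum_add_distrib, h.sq, h.can]
    norm_num
  have h4 : ∀ i ∈ (Finset.univ : Finset (Fin 9)), 0 ≤ c i ^ 2 + c i := fun i _ => by
    rcases lt_or_ge (c i) 0 with g | g
    · nlinarith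
    · positivity
  have h5 := (Finset.sum_eq_zero_iff_of_nonneg h4).mp h3 i (Finset.mem_univ i)
  nlinarith [sq_nonneg (c i)]

/-- Cauchy's inequality for a set of indices and its complement -/
theorem Exc.split {e : ℤ} {c : Fin 9 → ℤ} (h : Exc e c) (J : Finset (Fin 9)) {k : ℤ}
    (hk : (J.card : ℤ) = k) (h0 : 0 ≤ k) (h9 : k ≤ 9) :
    k * (3 * e - 1 - ∑ i ∈ J, c i) ^ 2 + (9 - k) * (∑ i ∈ J, c i) ^ 2 ≤
      k * (9 - k) * (e ^ 2 + 1) := by
  have h1 := sq_sum_le_card_mul_sum_sq (s := J) (f := c)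
  have h2 := sq_sum_le_card_mul_sum_sq (s := Jᶜ) (f := c)
  have h3 := Finset.sum_add_sum_compl J c
  have h4 := Finset.sum_add_sum_compl J (fun i => c i ^ 2)
  have h5 : ((Jᶜ).card : ℤ) = 9 - k := by
    rw [Finset.card_compl, Fintype.card_fin]
    have h6 : J.card ≤ 9 := by
      have := Finset.card_le_univ J
      rwa [Fintype.card_fin] at this
    rw [Nat.cast_sub h6, hk]
    rfl
  rw [h.sq] at h4
  rw [h.can] at h3
  rw [h5] at h2
  rw [hk] at h1
  have e1 : 3 * e - 1 - ∑ i ∈ J, c i = ∑ i ∈ Jᶜ, c i := by linarith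
  rw [e1]
  have h7 := mul_le_mul_of_nonneg_left h2 h0
  have h8 := mul_le_mul_of_nonneg_left h1 (by linarith : (0 : ℤ) ≤ 9 - k)
  have h9 : k * (9 - k) * (e ^ 2 + 1) = k * ((9 - k) * ∑ i ∈ Jᶜ, c i ^ 2) +
      (9 - k) * (k * ∑ i ∈ J, c i ^ 2) := by
    rw [← h4]
    ring
  linarith

theorem Exc.coef_nonneg {e : ℤ} {c : Fin 9 → ℤ} (h : Exc e c) (he : 1 ≤ e) (i : Fin 9) :
    0 ≤ c i := by
  have h1 := h.split {i} (k := 1) (by simp) (by norm_num) (by norm_num)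
  rw [Finset.sum_singleton] at h1
  by_contra hcon
  push Not at hcon
  obtain ⟨x, hx⟩ : ∃ x, c i = -x := ⟨-c i, by ring⟩
  rw [hx] at h1 hcon
  have hx1 : 1 ≤ x := by omega
  nlinarith [mul_nonneg (by linarith : (0 : ℤ) ≤ x - 1) (by linarith : (0 : ℤ) ≤ e - 1)]

theorem Exc.coef_le {e : ℤ} {c : Fin 9 → ℤ} (h : Exc e c) (he : 2 ≤ e) (i : Fin 9) :
    6 * c i ≤ 5 * e := by
  have h1 := h.split {i} (k := 1) (by simp) (by norm_num) (by norm_num)
  rw [Finset.sum_singleton] at h1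
  obtain ⟨x, hx⟩ : ∃ x, c i = x := ⟨_, rfl⟩
  rw [hx] at h1 ⊢
  have h2 : (3 * x - e) ^ 2 ≤ 6 * e + 7 - 2 * x := by nlinarith
  by_contra hcon
  push Not at hcon
  have h3 : 3 * e + 1 ≤ 2 * (3 * x - e) := by linarith
  have h4 : (3 * e + 1) ^ 2 ≤ (2 * (3 * x - e)) ^ 2 := by
    apply pow_le_pow_left₀ (by linarith) h3
  have h5 : (3 * e + 1) ^ 2 ≤ 4 * (6 * e + 7 - 2 * x) := by nlinarith
  rcases eq_or_lt_of_le he with h6 | h6
  · subst h6
    have h7 : 2 ≤ x := by omega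
    nlinarith
  · nlinarith

/-- the coefficients of a large class are large -/
theorem Exc.tail {e : ℤ} {c : Fin 9 → ℤ} (h : Exc e c) (he : 2 ≤ e) (J : Finset (Fin 9)) {k : ℤ}
    (hk : (J.card : ℤ) = k) (h0 : 0 ≤ k) (h5 : k ≤ 5) : k * e ≤ 12 * (1 + ∑ i ∈ J, c i) := by
  have h1 := h.split J hk h0 (by linarith)
  have hX : 0 ≤ ∑ i ∈ J, c i := Finset.sum_nonneg (fun i _ => h.coef_nonneg (by linarith) i)
  obtain ⟨X, hXe⟩ : ∃ X, ∑ i ∈ J, c i = X := ⟨_, rfl⟩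
  rw [hXe] at h1 hX ⊢
  by_contra hcon
  push Not at hcon
  obtain ⟨w, hw⟩ : ∃ w, k * e = 12 + 12 * X + w := ⟨k * e - 12 - 12 * X, by ring⟩
  have hw1 : 1 ≤ w := by linarith
  have h2 : k * ((36 - k) * e + w) ^ 2 + (9 - k) * (k * e - 12 - w) ^ 2 ≤
      144 * (k * (9 - k) * (e ^ 2 + 1)) := by
    have e1 : (36 - k) * e + w = 12 * (3 * e - 1 - X) := by linarith
    have e2 : k * e - 12 - w = 12 * X := by linarith
    rw [e1, e2]
    nlinarith
  have h3 : 0 ≤ (9 - k) * (k * e - 12 - w) ^ 2 := mul_nonneg (by linarith) (sq_nonneg _)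
  have h4 : k * ((36 - k) * e) ^ 2 ≤ k * ((36 - k) * e + w) ^ 2 := by
    apply mul_le_mul_of_nonneg_left _ h0
    apply pow_le_pow_left₀
    · exact mul_nonneg (by linarith) (by linarith)
    · linarith
  have h6 : 13 ≤ k * e := by linarith
  have hk' : k = 0 ∨ k = 1 ∨ k = 2 ∨ k = 3 ∨ k = 4 ∨ k = 5 := by omega
  rcases hk' with rfl | rfl | rfl | rfl | rfl | rfl
  · omega
  all_goals nlinarith

/-- the numbers for sorted multiplicities -/
theorem exc_sorted {D τ e a0 a1 a2 a3 a4 a5 a6 a7 a8 c0 c1 c2 c3 c4 c5 c6 c7 c8 : ℤ}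
    (he : 0 ≤ e) (hd : a0 + a1 + a2 ≤ D) (h01 : a1 ≤ a0) (h12 : a2 ≤ a1) (h23 : a3 ≤ a2)
    (h34 : a4 ≤ a3) (h45 : a5 ≤ a4) (h56 : a6 ≤ a5) (h67 : a7 ≤ a6) (h78 : a8 ≤ a7) (h8 : 0 ≤ a8)
    (hK : a0 + a1 + a2 + a3 + a4 + a5 + a6 + a7 + a8 + 12 * τ ≤ 3 * D)
    (hc : c0 + c1 + c2 + c3 + c4 + c5 + c6 + c7 + c8 = 3 * e - 1)
    (b0 : 6 * c0 ≤ 5 * e) (b1 : 6 * c1 ≤ 5 * e) (b2 : 6 * c2 ≤ 5 * e)
    (t5 : 5 * e ≤ 12 * (1 + (c4 + c5 + c6 + c7 + c8))) (t4 : 4 * e ≤ 12 * (1 + (c5 + c6 + c7 + c8)))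
    (t3 : 3 * e ≤ 12 * (1 + (c6 + c7 + c8))) (t2 : 2 * e ≤ 12 * (1 + (c7 + c8)))
    (t1 : e ≤ 12 * (1 + c8)) :
    a0 * c0 + a1 * c1 + a2 * c2 + a3 * c3 + a4 * c4 + a5 * c5 + a6 * c6 + a7 * c7 + a8 * c8 +
      τ * e ≤ D * e := by
  have p0 : 0 ≤ (D - a0 - a1 - a2) * e := mul_nonneg (by linarith) he
  have p1 : 0 ≤ (a0 - a1) * (10 * e - 12 * c0) := mul_nonneg (by linarith) (by linarith)
  have p2 : 0 ≤ (a1 - a2) * (20 * e - 12 * c0 - 12 * c1) := mul_nonneg (by linarith) (by linarith)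
  have p3 : 0 ≤ (a2 - a3) * (30 * e - 12 * c0 - 12 * c1 - 12 * c2) :=
    mul_nonneg (by linarith) (by linarith)
  have p4 : 0 ≤ (a3 - a4) * (12 * (1 + (c4 + c5 + c6 + c7 + c8)) - 5 * e) :=
    mul_nonneg (by linarith) (by linarith)
  have p5 : 0 ≤ (a4 - a5) * (12 * (1 + (c5 + c6 + c7 + c8)) - 4 * e) :=
    mul_nonneg (by linarith) (by linarith)
  have p6 : 0 ≤ (a5 - a6) * (12 * (1 + (c6 + c7 + c8)) - 3 * e) :=
    mul_nonneg (by linarith) (by linarith)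
  have p7 : 0 ≤ (a6 - a7) * (12 * (1 + (c7 + c8)) - 2 * e) :=
    mul_nonneg (by linarith) (by linarith)
  have p8 : 0 ≤ (a7 - a8) * (12 * (1 + c8) - e) := mul_nonneg (by linarith) (by linarith)
  have q : 12 * τ * e ≤ (3 * D - (a0 + a1 + a2 + a3 + a4 + a5 + a6 + a7 + a8)) * e :=
    mul_le_mul_of_nonneg_right (by linarith) he
  have hc8 : c3 = 3 * e - 1 - c0 - c1 - c2 - c4 - c5 - c6 - c7 - c8 := by linarith
  subst hc8
  nlinarith

theorem exc_bound {D τ : ℕ} {a : Fin 9 → ℕ}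
    (hred : ∀ i j k, i ≠ j → i ≠ k → j ≠ k → a i + a j + a k ≤ D)
    (hpair : ∀ i j, i ≠ j → a i + a j + τ ≤ D) (hK : ∑ i, a i + 12 * τ ≤ 3 * D)
    {e : ℤ} {c : Fin 9 → ℤ} (h : Exc e c) : ∑ i, (a i : ℤ) * c i + τ * e ≤ D * e := by
  classical
  -- sorting
  obtain ⟨σ, hσ⟩ : ∃ σ : Equiv.Perm (Fin 9), Antitone (a ∘ σ) := by
    refine ⟨Fin.revPerm.trans (Tuple.sort a), ?_⟩
    intro i j hij
    have h1 := Tuple.monotone_sort a
    exact h1 (Fin.rev_le_rev.mpr hij)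
  have hc := h.perm σ
  have e1 : ∑ i, (a i : ℤ) * c i = ∑ i, ((a ∘ σ) i : ℤ) * (c ∘ σ) i :=
    (Equiv.sum_comp σ (fun i => (a i : ℤ) * c i)).symm
  have e2 : ∑ i, a i = ∑ i, (a ∘ σ) i := (Equiv.sum_comp σ a).symm
  rw [e1]
  rw [e2] at hK
  have hred' : ∀ i j k, i ≠ j → i ≠ k → j ≠ k →
      (a ∘ σ) i + (a ∘ σ) j + (a ∘ σ) k ≤ D := fun i j k g1 g2 g3 =>
    hred _ _ _ (fun hh => g1 (σ.injective hh)) (fun hh => g2 (σ.injective hh))
      (fun hh => g3 (σ.injective hh))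
  have hpair' : ∀ i j, i ≠ j → (a ∘ σ) i + (a ∘ σ) j + τ ≤ D := fun i j g1 =>
    hpair _ _ (fun hh => g1 (σ.injective hh))
  generalize a ∘ σ = a' at *
  generalize c ∘ σ = c' at *
  clear e1 e2 hred hpair h
  have he := hc.nonneg
  rcases eq_or_lt_of_le he with he0 | he0
  · subst he0
    have h1 : ∑ i, (a' i : ℤ) * c' i ≤ 0 := Finset.sum_nonpos (fun i _ =>
      mul_nonpos_of_nonneg_of_nonpos (by positivity) (hc.zero i))
    linarith
  rcases eq_or_lt_of_le (show (1 : ℤ) ≤ e by omega) with he1 | he1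
  · subst he1
    -- lines
    have h1 : ∑ i, (c' i ^ 2 - c' i) = 0 := by
      rw [Finset.sum_sub_distrib, hc.sq, hc.can]
      norm_num
    have h2 : ∀ i ∈ (Finset.univ : Finset (Fin 9)), 0 ≤ c' i ^ 2 - c' i := fun i _ => by
      have := hc.coef_nonneg le_rfl i
      rcases eq_or_lt_of_le this with g | g
      · rw [← g]
        norm_num
      · nlinarith
    have h3 : ∀ i, c' i = 0 ∨ c' i = 1 := by
      intro i
      have h4 := (Finset.sum_eq_zero_iff_of_nonneg h2).mp h1 i (Finset.mem_univ i)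
      have h5 : c' i * (c' i - 1) = 0 := by nlinarith
      rcases mul_eq_zero.mp h5 with g | g
      · exact Or.inl g
      · exact Or.inr (by linarith)
    obtain ⟨S, hS⟩ : ∃ S : Finset (Fin 9), S = Finset.univ.filter (fun i => c' i = 1) := ⟨_, rfl⟩
    have hcS : ∀ i, c' i = if i ∈ S then 1 else 0 := by
      intro i
      rw [hS]
      rcases h3 i with g | g <;> simp [g]
    have hcard : S.card = 2 := by
      have h4 := hc.can
      have h5 : ∑ i, c' i = (S.card : ℤ) := by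
        rw [Finset.sum_congr rfl (fun i _ => hcS i), Finset.sum_ite_mem, Finset.univ_inter,
          Finset.sum_const]
        simp
      rw [h5] at h4
      omega
    obtain ⟨i, j, hij, hSe⟩ := Finset.card_eq_two.mp hcard
    have h6 : ∑ l, (a' l : ℤ) * c' l = a' i + a' j := by
      have h7 : ∀ l ∈ (Finset.univ : Finset (Fin 9)), (a' l : ℤ) * c' l =
          if l ∈ S then (a' l : ℤ) else 0 := by
        intro l _
        rw [hcS l]
        split_ifs <;> simp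
      rw [Finset.sum_congr rfl h7, Finset.sum_ite_mem, Finset.univ_inter, hSe,
        Finset.sum_pair hij]
    rw [h6]
    have h8 := hpair' i j hij
    have h9 : ((a' i + a' j + τ : ℕ) : ℤ) ≤ D := by exact_mod_cast h8
    push_cast at h9
    linarith
  · have he2 : 2 ≤ e := by omega
    have hsum9 : ∀ f : Fin 9 → ℤ, ∑ i, f i = f 0 + f 1 + f 2 + f 3 + f 4 + f 5 + f 6 + f 7 + f 8 :=
      fun f => by simp [Fin.sum_univ_succ]; ring
    have hsum9' : ∀ f : Fin 9 → ℕ, ∑ i, f i = f 0 + f 1 + f 2 + f 3 + f 4 + f 5 + f 6 + f 7 + f 8 :=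
      fun f => by simp [Fin.sum_univ_succ]; ring
    have hcan := hc.can
    rw [hsum9] at hcan ⊢
    rw [hsum9'] at hK
    have m : ∀ i j : Fin 9, i ≤ j → (a' j : ℤ) ≤ a' i := fun i j hij => by exact_mod_cast hσ hij
    have t5 := hc.tail he2 {4, 5, 6, 7, 8} (k := 5) (by rfl) (by norm_num) (by norm_num)
    have t4 := hc.tail he2 {5, 6, 7, 8} (k := 4) (by rfl) (by norm_num) (by norm_num)
    have t3 := hc.tail he2 {6, 7, 8} (k := 3) (by rfl) (by norm_num) (by norm_num)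
    have t2 := hc.tail he2 {7, 8} (k := 2) (by rfl) (by norm_num) (by norm_num)
    have t1 := hc.tail he2 {8} (k := 1) (by rfl) (by norm_num) (by norm_num)
    have s5 : ∑ i ∈ ({4, 5, 6, 7, 8} : Finset (Fin 9)), c' i =
        c' 4 + c' 5 + c' 6 + c' 7 + c' 8 := by
      rw [Finset.sum_insert (by decide), Finset.sum_insert (by decide),
        Finset.sum_insert (by decide), Finset.sum_insert (by decide), Finset.sum_singleton]
      ring
    have s4 : ∑ i ∈ ({5, 6, 7, 8} : Finset (Fin 9)), c' i = c' 5 + c' 6 + c' 7 + c' 8 := by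
      rw [Finset.sum_insert (by decide), Finset.sum_insert (by decide),
        Finset.sum_insert (by decide), Finset.sum_singleton]
      ring
    have s3 : ∑ i ∈ ({6, 7, 8} : Finset (Fin 9)), c' i = c' 6 + c' 7 + c' 8 := by
      rw [Finset.sum_insert (by decide), Finset.sum_insert (by decide), Finset.sum_singleton]
      ring
    have s2 : ∑ i ∈ ({7, 8} : Finset (Fin 9)), c' i = c' 7 + c' 8 := by
      rw [Finset.sum_insert (by decide), Finset.sum_singleton]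
    rw [s5] at t5
    rw [s4] at t4
    rw [s3] at t3
    rw [s2] at t2
    rw [Finset.sum_singleton] at t1
    have hr := hred' 0 1 2 (by decide) (by decide) (by decide)
    have hr' : (a' 0 : ℤ) + a' 1 + a' 2 ≤ D := by exact_mod_cast hr
    have hK' : (a' 0 : ℤ) + a' 1 + a' 2 + a' 3 + a' 4 + a' 5 + a' 6 + a' 7 + a' 8 + 12 * τ ≤
        3 * D := by exact_mod_cast hK
    exact exc_sorted he hr' (m 0 1 (by decide)) (m 1 2 (by decide)) (m 2 3 (by decide))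
      (m 3 4 (by decide)) (m 4 5 (by decide)) (m 5 6 (by decide)) (m 6 7 (by decide))
      (m 7 8 (by decide)) (by positivity) hK' hcan (hc.coef_le he2 0) (hc.coef_le he2 1)
      (hc.coef_le he2 2) t5 t4 t3 t2 (by linarith)

end Pool.Agent.Work.MP_0421d9_ag.LD
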