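import Pool.Agent.Work.MP_0421d9_ag.KStep

/-!
One point of very large multiplicity, some further multiple points, and points of small
multiplicity.
-/

namespace Pool.Agent.Work.MP_0421d9_ag.LD

open MvPolynomial Module

/-- maximal rank unless the expected dimension is close to zero -/
def Far {r : ℕ} (D : ℕ) (y : Fin r → ℕ) (F : ℕ) : Prop :=
  ((D + 2).choose 2 + F ≤ ∑ i, (y i + 1).choose 2 → hPm D y = 0) ∧
    (∑ i, (y i + 1).choose 2 + F ≤ (D + 2).choose 2 →
      hPm D y = (D + 2).choose 2 - ∑ i, (y i + 1).choose 2)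

theorem Far.mono {r : ℕ} {D F F' : ℕ} {y : Fin r → ℕ} (h : Far D y F) (hF : F ≤ F') :
    Far D y F' :=
  ⟨fun h3 => h.1 (by omega), fun h3 => h.2 (by omega)⟩

theorem far_of_exact {r : ℕ} {D F : ℕ} {y : Fin r → ℕ}
    (h : hPm D y = (D + 2).choose 2 - ∑ i, (y i + 1).choose 2) : Far D y F :=
  ⟨fun h3 => by omega, fun _ => h⟩

/-- few rows -/
theorem far_window {r D : ℕ} {y : Fin r → ℕ} {i₁ : Fin r} (hM : 1 ≤ y i₁) (hMD : y i₁ ≤ D)
    (hy : ∀ i, i ≠ i₁ → y i ≤ D - y i₁ + 1) : Far D y ((D - y i₁).choose 2 + 2) := by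
  classical
  obtain ⟨M, hMe⟩ : ∃ M, y i₁ = M := ⟨_, rfl⟩
  rw [hMe] at hM hMD hy ⊢
  obtain ⟨h, hh⟩ : ∃ h, h = D - M + 1 := ⟨_, rfl⟩
  have hch := fA_choose (D := D) (u := h) (by omega)
  have e1 : D - h + 2 = M + 1 := by omega
  rw [e1] at hch
  obtain ⟨k, hk⟩ : ∃ k, k = Function.update y i₁ 0 := ⟨_, rfl⟩
  have hle : hPm D y ≤ hTm D {α | α 2 < h} k := by
    have g1 := hPm_le_point (D := D) y i₁ (by rw [hMe]; exact hMD)
    rw [hMe, ← hk, ← hFm_swap] at g1
    change _ ≤ hTm D {α | α 2 ≤ D - M} k at g1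
    have g2 : {α : Fin 3 →₀ ℕ | α 2 < h} = {α | α 2 ≤ D - M} := by
      ext α
      simp only [Set.mem_ofPred_eq]
      omega
    rw [g2]
    exact g1
  have hkh : ∀ i, k i ≤ h := by
    intro i
    rw [hk]
    by_cases g1 : i = i₁
    · rw [g1, Function.update_self]
      exact Nat.zero_le _
    · rw [Function.update_of_ne g1, hh]
      exact hy i g1
  have hsum : ∑ i, (k i + 1).choose 2 + (M + 1).choose 2 = ∑ i, (y i + 1).choose 2 := by
    rw [← Finset.add_sum_erase _ _ (Finset.mem_univ i₁),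
      ← Finset.add_sum_erase _ (fun i => (y i + 1).choose 2) (Finset.mem_univ i₁), hk,
      Function.update_self, hMe]
    have g1 : ∑ i ∈ Finset.univ.erase i₁, (Function.update y i₁ 0 i + 1).choose 2 =
        ∑ i ∈ Finset.univ.erase i₁, (y i + 1).choose 2 :=
      Finset.sum_congr rfl (fun i hi => by
        rw [Function.update_of_ne (Finset.ne_of_mem_erase hi)])
    have g2 : (0 + 1).choose 2 = 0 := rfl
    rw [g1, g2]
    omega
  have e2 : D - M = h - 1 := by omega
  rw [e2]
  have hcount := hPm_count D y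
  refine ⟨fun g => ?_, fun g => ?_⟩
  · have h0 : hTm D {α | α 2 < h} k = 0 := by
      by_contra hcon
      have h3 : ∃ i, k i ≠ 0 := by
        by_contra h4
        push Not at h4
        have h5 : ∑ i, (k i + 1).choose 2 = 0 :=
          Finset.sum_eq_zero (fun i _ => by rw [h4 i]; rfl)
        omega
      have h4 := strip_window1 hkh (by omega) h3 hcon
      omega
    omega
  · have h4 := strip_window2 (D := D) (H := h) hkh (by omega) (by omega)
    omega

/-- **The step along a general line.** -/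
theorem step_line {r u D κ F : ℕ} {y : Fin r → ℕ} {B : Finset (Fin r)} (hu : 1 ≤ u) (huκ : u ≤ κ)
    (hκD : κ + 1 ≤ D) (hsm : ∀ i, i ∉ B → y i ≤ u) (hF : κ.choose 2 ≤ F)
    (hn : 2 * F + 3 * (u + 1).choose 2 + 3 ≤ D - κ + 1)
    (hN : ∑ i ∈ B, (y i + 1).choose 2 + F + 3 * (u + 1).choose 2 + 1 ≤ (D - κ + 2).choose 2)
    (hn1 : (D + 2).choose 2 ≤ ∑ i, (y i + 1).choose 2 + (u + 1).choose 2)
    (hn2 : ∑ i, (y i + 1).choose 2 ≤ (D + 2).choose 2 + (u + 1).choose 2)
    (h1 : ∀ P ⊆ offP B, Far (D - κ) (offF P y) F)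
    (h2 : ∀ P ⊆ offP B, Far (D - κ - 1) (offF P y) F) :
    hPm D y = (D + 2).choose 2 - ∑ i, (y i + 1).choose 2 := by
  classical
  have hch := fA_choose (D := D) (u := κ) (by omega)
  have hsum := sum_offP B (fun i => (y i + 1).choose 2)
  obtain ⟨W, hW⟩ : ∃ W, W = (u + 1).choose 2 := ⟨_, rfl⟩
  rw [← hW] at hn hN hn1 hn2
  have hWs : ∀ i ∈ offP B, (y i + 1).choose 2 ≤ W := by
    intro i hi
    rw [mem_offP] at hi
    rw [hW]
    exact Nat.choose_le_choose 2 (Nat.succ_le_succ (hsm i hi))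
  obtain ⟨P, hP, h3, h4⟩ := greedy (T := fA D κ + (W + F + 1)) (offP B) hWs (by omega)
  obtain ⟨A, hA⟩ : ∃ A, ∑ i ∈ P, (y i + 1).choose 2 = fA D κ + A :=
    ⟨∑ i ∈ P, (y i + 1).choose 2 - fA D κ, by omega⟩
  have hc : (κ - 1).choose 2 ≤ κ.choose 2 := Nat.choose_le_choose 2 (Nat.sub_le _ _)
  have hstrip := strip_of_finset (D := D) (κ := κ) (A := A) (y := y) P (by omega) hκD
    (fun i hi => by
      have := hP hi
      rw [mem_offP] at this
      exact (hsm i this).trans huκ)
    hA (by omega) (by omega)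
  have hle := hstrip.le
  have hoffs := sum_offF P y
  have h5 := h1 P hP
  have h6 := h2 P hP
  have hcount := hPm_count D y
  have hrow : (D - κ + 2).choose 2 = (D - κ + 1) + (D - κ - 1 + 2).choose 2 := by
    have e1 : D - κ - 1 + 2 = D - κ + 1 := by omega
    rw [e1, Nat.choose_succ_succ' (D - κ + 1) 1, Nat.choose_one_right]
  have h7 := h5.2 (by omega)
  have h8 := h6.1 (by omega)
  rcases le_max_iff.mp hle with h9 | h9 <;> omega

/-- one point `i₁` of very large multiplicity `M`, further points in `J`, all the others have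
multiplicity at most `u`; the degree is `M + c` -/
structure Rul {r : ℕ} (u c : ℕ) (y : Fin r → ℕ) (i₁ : Fin r) (J : Finset (Fin r)) : Prop where
  h1 : i₁ ∉ J
  card : J.card ≤ 8
  small : ∀ i, i ≠ i₁ → i ∉ J → y i ≤ u
  two : 2 * u ≤ c
  one : ∀ i, i ≠ i₁ → y i + u ≤ c
  pair : ∀ i j, i ≠ i₁ → j ≠ i₁ → i ≠ j → y i + y j ≤ c
  big : ∑ i ∈ J, y i + 26 * (u + 1) ^ 2 ≤ 2 * y i₁

theorem Rul.off {r u c : ℕ} {y : Fin r → ℕ} {i₁ : Fin r} {J : Finset (Fin r)}
    (h : Rul u c y i₁ J) {Q : Finset (Fin r)} (hQ : Q ⊆ offP (insert i₁ J)) :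
    Rul u c (offF Q y) i₁ J ∧ offF Q y i₁ = y i₁ := by
  have hq : ∀ i, i ∈ Q → i ≠ i₁ ∧ i ∉ J := by
    intro i hi
    have := hQ hi
    rw [mem_offP, Finset.mem_insert, not_or] at this
    exact this
  have e1 : offF Q y i₁ = y i₁ := offF_of_not_mem (fun hi => (hq _ hi).1 rfl)
  have e2 : ∀ i ∈ J, offF Q y i = y i := fun i hi => offF_of_not_mem (fun h => (hq _ h).2 hi)
  have hle : ∀ i, offF Q y i ≤ y i := by
    intro i
    unfold offF
    split_ifs
    · exact Nat.zero_le _
    · exact le_rfl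
  refine ⟨⟨h.h1, h.card, fun i g1 g2 => (hle i).trans (h.small i g1 g2), h.two,
    fun i g1 => ?_, fun i j g1 g2 g3 => ?_, ?_⟩, e1⟩
  · have := hle i
    have := h.one i g1
    omega
  · have := hle i
    have := hle j
    have := h.pair i j g1 g2 g3
    omega
  · rw [e1, Finset.sum_congr rfl e2]
    exact h.big

theorem Rul.app {r u c : ℕ} {y : Fin r → ℕ} {i₁ : Fin r} {J : Finset (Fin r)}
    (h : Rul u c y i₁ J) (n : ℕ) :
    Rul u c (Fin.append y (fun _ : Fin n => u)) (Fin.castAdd n i₁) (J.map (Fin.castAddEmb n)) := by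
  have hinj := Fin.castAdd_injective r n
  have hcast : ∀ i, Fin.append y (fun _ : Fin n => u) (Fin.castAdd n i) = y i := fun i => by
    rw [Fin.append_left]
  have hnat : ∀ j, Fin.append y (fun _ : Fin n => u) (Fin.natAdd r j) = u := fun j => by
    rw [Fin.append_right]
  refine ⟨?_, by rw [Finset.card_map]; exact h.card, ?_, h.two, ?_, ?_, ?_⟩
  · intro hm
    rw [Finset.mem_map] at hm
    obtain ⟨i, hi, hii⟩ := hm
    have h2 := hinj (hii : Fin.castAdd n i = Fin.castAdd n i₁)
    exact h.h1 (h2 ▸ hi)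
  · intro i
    refine Fin.addCases (fun j g1 g2 => ?_) (fun j _ _ => ?_) i
    · rw [hcast]
      exact h.small j (fun hh => g1 (by rw [hh]))
        (fun hh => g2 (Finset.mem_map_of_mem (Fin.castAddEmb n) hh))
    · rw [hnat]
  · intro i
    refine Fin.addCases (fun j g1 => ?_) (fun j _ => ?_) i
    · rw [hcast]
      exact h.one j (fun hh => g1 (by rw [hh]))
    · rw [hnat]
      have := h.two
      omega
  · intro i
    refine Fin.addCases (fun j => ?_) (fun j => ?_) i
    · intro l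
      refine Fin.addCases (fun k g1 g2 g3 => ?_) (fun k g1 _ _ => ?_) l
      · rw [hcast, hcast]
        exact h.pair j k (fun hh => g1 (by rw [hh])) (fun hh => g2 (by rw [hh]))
          (fun hh => g3 (by rw [hh]))
      · rw [hcast, hnat]
        exact h.one j (fun hh => g1 (by rw [hh]))
    · intro l
      refine Fin.addCases (fun k _ g2 _ => ?_) (fun k _ _ _ => ?_) l
      · rw [hcast, hnat]
        have := h.one k (fun hh => g2 (by rw [hh]))
        omega
      · rw [hnat, hnat]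
        have := h.two
        omega
  · rw [hcast, Finset.sum_map]
    have e1 : ∀ i ∈ J, Fin.append y (fun _ : Fin n => u) (Fin.castAddEmb n i) = y i :=
      fun i _ => hcast i
    rw [Finset.sum_congr rfl e1]
    exact h.big

/-- the points impose at most as many conditions as there are forms -/
theorem count_all {r c : ℕ} {z : Fin r → ℕ} {i₁ : Fin r} (h1 : ∀ i, i ≠ i₁ → z i ≤ c)
    (h2 : ∑ i ∈ Finset.univ.erase i₁, z i ≤ 2 * (z i₁ + 1)) :
    ∑ i, (z i + 1).choose 2 ≤ (z i₁ + c + 2).choose 2 := by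
  classical
  rw [← Finset.add_sum_erase _ _ (Finset.mem_univ i₁)]
  obtain ⟨M, hM⟩ : ∃ M, z i₁ = M := ⟨_, rfl⟩
  rw [hM] at h2 ⊢
  have h3 : 2 * ∑ i ∈ Finset.univ.erase i₁, (z i + 1).choose 2 ≤
      (c + 1) * ∑ i ∈ Finset.univ.erase i₁, z i := by
    rw [Finset.mul_sum, Finset.mul_sum]
    refine Finset.sum_le_sum (fun i hi => ?_)
    rw [tr_two_choose, Nat.mul_comm]
    exact Nat.mul_le_mul_right _ (Nat.succ_le_succ (h1 i (Finset.ne_of_mem_erase hi)))
  have h4 := Nat.mul_le_mul_left (c + 1) h2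
  have h5 := two_mul_choose_two (M + c)
  have h6 := two_mul_choose_succ M
  have e1 : (M + c) * (M + c) = M * M + 2 * (M * c) + c * c := by ring
  have e2 : (c + 1) * (2 * (M + 1)) = 2 * (M * c) + 2 * c + 2 * M + 2 := by ring
  have h7 : c ≤ c * c + c := by omega
  omega

/-- numbers for the base -/
theorem rul_num {u M D κ S : ℕ} (hu : 1 ≤ u) (hM : 13 * (u + 1) ^ 2 ≤ M) (hD : M + u ≤ D - κ)
    (hS : S ≤ (M + 1).choose 2 + 8 * (2 * u + 1).choose 2) :
    2 * ((3 * u).choose 2 + 2) + 3 * (u + 1).choose 2 + 3 ≤ D - κ + 1 ∧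
    S + ((3 * u).choose 2 + 2) + 3 * (u + 1).choose 2 + 1 ≤ (D - κ + 2).choose 2 := by
  have e0 : (u + 1) ^ 2 = u * u + 2 * u + 1 := by ring
  have h1 : (M + u + 2).choose 2 ≤ (D - κ + 2).choose 2 := Nat.choose_le_choose 2 (by omega)
  have c1 := two_mul_choose_two (M + u)
  have c2 := two_mul_choose_succ M
  have c3 := two_mul_choose_succ (2 * u)
  have c5 := two_mul_choose_succ u
  have c6 : 2 * (3 * u).choose 2 + 3 * u = 9 * (u * u) := by
    obtain ⟨v, rfl⟩ : ∃ v, u = v + 1 := ⟨u - 1, by omega⟩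
    have h2 := two_mul_choose_succ (3 * v + 2)
    have e1 : 3 * (v + 1) = 3 * v + 2 + 1 := by ring
    rw [e1, h2]
    ring
  have c7 : (M + u) * (M + u) = M * M + 2 * (M * u) + u * u := by ring
  have c8 : 2 * u * (2 * u) = 4 * (u * u) := by ring
  have h6 : M * 1 ≤ M * u := Nat.mul_le_mul_left M hu
  omega

theorem rul_sum {r u c : ℕ} {y : Fin r → ℕ} {i₁ : Fin r} {J : Finset (Fin r)}
    (h : Rul u c y i₁ J) (hJ : ∀ i, i ≠ i₁ → y i ≤ 2 * u) :
    ∑ i ∈ insert i₁ J, (y i + 1).choose 2 ≤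
      (y i₁ + 1).choose 2 + 8 * (2 * u + 1).choose 2 := by
  classical
  rw [Finset.sum_insert h.h1]
  apply Nat.add_le_add_left
  calc ∑ i ∈ J, (y i + 1).choose 2 ≤ J.card • (2 * u + 1).choose 2 :=
        Finset.sum_le_card_nsmul _ _ _ (fun i hi => Nat.choose_le_choose 2
          (Nat.succ_le_succ (hJ i (fun hh => h.h1 (hh ▸ hi)))))
    _ = J.card * (2 * u + 1).choose 2 := by rw [smul_eq_mul]
    _ ≤ 8 * (2 * u + 1).choose 2 := Nat.mul_le_mul_right _ h.card

/-- the sizes of the two largest multiplicities -/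
theorem rul_two_largest {r u c : ℕ} {y : Fin r → ℕ} {i₁ : Fin r} {J : Finset (Fin r)}
    (h : Rul u c y i₁ J) (hJ : ∀ i, i ≠ i₁ → y i ≤ 2 * u) :
    ∃ a b, u ≤ b ∧ b ≤ a ∧ a ≤ 2 * u ∧ a + b ≤ c ∧ (∀ i, i ≠ i₁ → y i ≤ a) ∧
      ∀ i j, i ≠ i₁ → j ≠ i₁ → i ≠ j → y i + y j ≤ a + b := by
  classical
  have hu2 := h.two
  rcases (Finset.univ.erase i₁).eq_empty_or_nonempty with hE | hE
  · refine ⟨u, u, le_rfl, le_rfl, by omega, by omega, fun i hi => ?_, fun i j hi _ _ => ?_⟩ <;>
    · exfalso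
      have : i ∈ Finset.univ.erase i₁ := Finset.mem_erase.mpr ⟨hi, Finset.mem_univ i⟩
      rw [hE] at this
      exact Finset.notMem_empty i this
  obtain ⟨i₂, hi₂, hmax⟩ := Finset.exists_max_image (Finset.univ.erase i₁) y hE
  rw [Finset.mem_erase] at hi₂
  have hm2 : ∀ i, i ≠ i₁ → y i ≤ y i₂ := fun i hi =>
    hmax i (Finset.mem_erase.mpr ⟨hi, Finset.mem_univ i⟩)
  have g1 := hJ i₂ hi₂.1
  have g2 := h.one i₂ hi₂.1
  rcases ((Finset.univ.erase i₁).erase i₂).eq_empty_or_nonempty with hE' | hE'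
  · refine ⟨max (y i₂) u, u, le_rfl, le_max_right _ _, by omega, by omega,
      fun i hi => (hm2 i hi).trans (le_max_left _ _), fun i j hi hj hij => ?_⟩
    exfalso
    have hall : ∀ l, l ≠ i₁ → l = i₂ := by
      intro l hl
      by_contra hcon
      have : l ∈ (Finset.univ.erase i₁).erase i₂ :=
        Finset.mem_erase.mpr ⟨hcon, Finset.mem_erase.mpr ⟨hl, Finset.mem_univ l⟩⟩
      rw [hE'] at this
      exact Finset.notMem_empty l this
    exact hij ((hall i hi).trans (hall j hj).symm)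
  obtain ⟨i₃, hi₃, hmax'⟩ := Finset.exists_max_image ((Finset.univ.erase i₁).erase i₂) y hE'
  rw [Finset.mem_erase, Finset.mem_erase] at hi₃
  have hm3 : ∀ i, i ≠ i₁ → i ≠ i₂ → y i ≤ y i₃ := fun i hi hi' =>
    hmax' i (Finset.mem_erase.mpr ⟨hi', Finset.mem_erase.mpr ⟨hi, Finset.mem_univ i⟩⟩)
  have g3 := hm2 i₃ hi₃.2.1
  have g4 := h.pair i₂ i₃ hi₂.1 hi₃.2.1 (Ne.symm hi₃.1)
  have g5 := hJ i₃ hi₃.2.1
  refine ⟨max (y i₂) u, max (y i₃) u, le_max_right _ _, by omega, by omega, by omega,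
    fun i hi => (hm2 i hi).trans (le_max_left _ _), fun i j hi hj hij => ?_⟩
  have k1 := hm2 i hi
  have k2 := hm2 j hj
  by_cases k3 : i = i₂
  · have k4 := hm3 j hj (fun hh => hij (k3.trans hh.symm))
    omega
  · have k4 := hm3 i hi k3
    omega

/-- the residual systems are of the same kind -/
theorem Rul.resid {r u c κ n : ℕ} {y : Fin r → ℕ} {i₁ i₂ : Fin r} {J T P : Finset (Fin r)}
    (h : Rul u c y i₁ J) (hT : T ⊆ J) (hcard : T.card = 2 * n + 1) (h2 : i₂ ∈ T)
    (h2u : 2 * u + 1 ≤ y i₂) (hlo : ∀ i ∈ T, u + 1 ≤ y i)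
    (hleft : ∀ i ∈ J, ∀ j ∈ J, i ∉ T → j ∉ T → u < y i → u < y j → i = j)
    (hκ : κ = u ∨ κ = u + 1) (hP : P ⊆ offP (insert i₁ J)) :
    Rul u (c - κ) (res i₁ T n κ P y) i₁ J ∧
      res i₁ T n κ P y i₁ + (c - κ) = y i₁ + c - (n + 1) * κ ∧ κ ≤ c ∧ n * κ ≤ y i₁ := by
  classical
  have hκu : κ ≤ u + 1 := by
    rcases hκ with g | g <;> omega
  have hTc := Finset.card_le_card hT
  have hJc := h.card
  have hn : n ≤ 3 := by omega
  have hnκ : n * κ ≤ 3 * (u + 1) := Nat.mul_le_mul hn hκu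
  have e0 : (u + 1) ^ 2 = u * u + 2 * u + 1 := by ring
  have hbig := h.big
  rw [e0] at hbig
  have h1T : i₁ ∉ T := fun hh => h.h1 (hT hh)
  have hne : i₂ ≠ i₁ := fun hh => h1T (hh ▸ h2)
  have hone2 := h.one i₂ hne
  have hPJ : ∀ i ∈ J, i ∉ P := fun i hi hh => by
    have := hP hh
    rw [mem_offP] at this
    exact this (Finset.mem_insert_of_mem hi)
  have hle : ∀ i, offF P y i ≤ y i := by
    intro i
    unfold offF
    split_ifs
    · exact Nat.zero_le _
    · exact le_rfl
  have hM : n * κ ≤ y i₁ := by omega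
  have hvT : ∀ i ∈ T, res i₁ T n κ P y i = y i - κ := fun i hi =>
    res_mem (fun hh => h1T (hh ▸ hi)) hi
  have hvO : ∀ i, i ≠ i₁ → i ∉ T → res i₁ T n κ P y i ≤ y i := fun i g1 g2 => by
    rw [res_not_mem g1 g2]
    exact hle i
  have hv1 : res i₁ T n κ P y i₁ = y i₁ - n * κ := res_self
  have honeO : ∀ i, i ≠ i₁ → i ∉ T → y i + u ≤ c - κ := by
    intro i g1 g2
    have := h.pair i₂ i hne g1 (fun hh => g2 (hh ▸ h2))
    omega
  have hκc : κ ≤ c := by omega
  refine ⟨⟨h.h1, h.card, fun i g1 g2 => ?_, by omega, fun i g1 => ?_, fun i j g1 g2 g3 => ?_, ?_⟩,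
    ?_, hκc, hM⟩
  · exact (hvO i g1 (fun hh => g2 (hT hh))).trans (h.small i g1 g2)
  · by_cases g2 : i ∈ T
    · rw [hvT i g2]
      have := h.one i g1
      have := hlo i g2
      omega
    · have := hvO i g1 g2
      have := honeO i g1 g2
      omega
  · by_cases k1 : i ∈ T
    · rw [hvT i k1]
      have p1 := hlo i k1
      have p2 := h.pair i j g1 g2 g3
      by_cases k2 : j ∈ T
      · rw [hvT j k2]
        have p3 := hlo j k2
        omega
      · have := hvO j g2 k2
        omega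
    · have p1 := hvO i g1 k1
      by_cases k2 : j ∈ T
      · rw [hvT j k2]
        have p2 := hlo j k2
        have p3 := h.pair i j g1 g2 g3
        omega
      · have p2 := hvO j g2 k2
        have p3 := honeO i g1 k1
        have p4 := honeO j g2 k2
        by_cases k3 : y i ≤ u
        · omega
        by_cases k4 : y j ≤ u
        · omega
        exfalso
        have hiJ : i ∈ J := by
          by_contra hcon
          have := h.small i g1 hcon
          omega
        have hjJ : j ∈ J := by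
          by_contra hcon
          have := h.small j g2 hcon
          omega
        exact g3 (hleft i hiJ j hjJ k1 k2 (by omega) (by omega))
  · have hsum : ∑ i ∈ J, res i₁ T n κ P y i + (2 * n + 1) * κ = ∑ i ∈ J, y i := by
      rw [← Finset.sum_sdiff hT, ← Finset.sum_sdiff hT, Nat.add_assoc, ← hcard]
      have q1 : ∑ i ∈ J \ T, res i₁ T n κ P y i = ∑ i ∈ J \ T, y i :=
        Finset.sum_congr rfl (fun i hi => by
          rw [Finset.mem_sdiff] at hi
          have hii : i ≠ i₁ := fun hh => h.h1 (hh ▸ hi.1)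
          rw [res_not_mem hii hi.2, offF_of_not_mem (hPJ i hi.1)])
      have q2 : ∑ i ∈ T, res i₁ T n κ P y i + T.card * κ = ∑ i ∈ T, y i := by
        rw [← smul_eq_mul, ← Finset.sum_const, ← Finset.sum_add_distrib]
        exact Finset.sum_congr rfl (fun i hi => by
          rw [hvT i hi]
          have := hlo i hi
          omega)
      rw [q1, q2]
    have e1 : (2 * n + 1) * κ = 2 * (n * κ) + κ := by ring
    rw [hv1, e0]
    omega
  · rw [hv1]
    have e1 : (n + 1) * κ = n * κ + κ := by ring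
    omega

/-- **One point of very large multiplicity**, at most eight further multiple points with
`m i + m j ≤ d - M`, and points of multiplicity at most `u`. -/
theorem rul_main {u : ℕ} (hu : 1 ≤ u) : ∀ (c r : ℕ) (y : Fin r → ℕ) (i₁ : Fin r)
    (J : Finset (Fin r)), Rul u c y i₁ J →
    hPm (y i₁ + c) y = (y i₁ + c + 2).choose 2 - ∑ i, (y i + 1).choose 2 := by
  classical
  intro c
  induction c using Nat.strong_induction_on with
  | _ c ih =>
  intro r₀ y₀ i₀ J₀ h₀
  obtain ⟨M, hM⟩ : ∃ M, y₀ i₀ = M := ⟨_, rfl⟩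
  rw [hM]
  have e0 : (u + 1) ^ 2 = u * u + 2 * u + 1 := by ring
  refine of_near (u := u) (D := M + c) hu
    (fun r y B => ∃ i₁ J, B = insert i₁ J ∧ Rul u c y i₁ J ∧ y i₁ = M) ?_ ?_ ?_ ?_ ?_
    (B := insert i₀ J₀) ⟨i₀, J₀, rfl, h₀, hM⟩
  · rintro r y B ⟨i₁, J, rfl, h, -⟩ i hi
    rw [Finset.mem_insert, not_or] at hi
    exact h.small i hi.1 hi.2
  · rintro r y B ⟨i₁, J, rfl, h, hM⟩
    have h1 := count_all (z := onB (insert i₁ J) y) (i₁ := i₁) (c := c) (fun i hi => by
      unfold onB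
      split_ifs
      · have := h.one i hi
        omega
      · exact Nat.zero_le _) (by
      have e1 : onB (insert i₁ J) y i₁ = y i₁ := if_pos (Finset.mem_insert_self i₁ J)
      rw [e1]
      have e2 : ∑ i ∈ Finset.univ.erase i₁, onB (insert i₁ J) y i = ∑ i ∈ J, y i := by
        have hsub : J ⊆ Finset.univ.erase i₁ := fun i hi =>
          Finset.mem_erase.mpr ⟨fun hh => h.h1 (hh ▸ hi), Finset.mem_univ i⟩
        rw [← Finset.sum_subset hsub]
        · exact Finset.sum_congr rfl (fun i hi => if_pos (Finset.mem_insert_of_mem hi))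
        · intro i hi hi'
          unfold onB
          rw [if_neg]
          rw [Finset.mem_insert, not_or]
          exact ⟨Finset.ne_of_mem_erase hi, hi'⟩
      rw [e2]
      have := h.big
      omega)
    rw [sum_onB] at h1
    have e1 : onB (insert i₁ J) y i₁ = M := by
      rw [← hM]
      exact if_pos (Finset.mem_insert_self i₁ J)
    rwa [e1] at h1
  · rintro r y B Q ⟨i₁, J, rfl, h, hM⟩ hQ
    obtain ⟨g1, g2⟩ := h.off hQ
    exact ⟨i₁, J, rfl, g1, g2.trans hM⟩
  · rintro r y B n ⟨i₁, J, rfl, h, hM⟩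
    refine ⟨Fin.castAdd n i₁, J.map (Fin.castAddEmb n), ?_, h.app n, ?_⟩
    · rw [Finset.map_insert]
      rfl
    · rw [Fin.append_left]
      exact hM
  · rintro r y B ⟨i₁, J, rfl, h, hM⟩ hn1 hn2
    have hbig := h.big
    rw [e0] at hbig
    have hsm : ∀ i, i ∉ insert i₁ J → y i ≤ u := by
      intro i hi
      rw [Finset.mem_insert, not_or] at hi
      exact h.small i hi.1 hi.2
    by_cases hlarge : ∃ i, i ≠ i₁ ∧ 2 * u + 1 ≤ y i
    · -- a section through the multiple points
      obtain ⟨J₁, hJ₁⟩ : ∃ J₁, J₁ = J.filter (fun i => u + 1 ≤ y i) := ⟨_, rfl⟩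
      have hJ₁m : ∀ i, i ∈ J₁ ↔ i ∈ J ∧ u + 1 ≤ y i := by
        intro i
        rw [hJ₁, Finset.mem_filter]
      obtain ⟨i₂, hi₂, hi₂'⟩ := hlarge
      have hi₂J : i₂ ∈ J := by
        by_contra hcon
        have := h.small i₂ hi₂ hcon
        omega
      have hi₂J₁ : i₂ ∈ J₁ := (hJ₁m i₂).mpr ⟨hi₂J, by omega⟩
      obtain ⟨T, n, hTJ₁, hcard, hi₂T, hleft⟩ : ∃ (T : Finset (Fin r)) (n : ℕ), T ⊆ J₁ ∧
          T.card = 2 * n + 1 ∧ i₂ ∈ T ∧ ∀ i ∈ J₁, ∀ j ∈ J₁, i ∉ T → j ∉ T → i = j := by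
        rcases Nat.even_or_odd' J₁.card with ⟨n, hn | hn⟩
        · have hpos : 0 < J₁.card := Finset.card_pos.mpr ⟨i₂, hi₂J₁⟩
          obtain ⟨i₃, hi₃⟩ : (J₁.erase i₂).Nonempty := by
            rw [← Finset.card_pos, Finset.card_erase_of_mem hi₂J₁]
            omega
          rw [Finset.mem_erase] at hi₃
          refine ⟨J₁.erase i₃, n - 1, Finset.erase_subset _ _, ?_,
            Finset.mem_erase.mpr ⟨Ne.symm hi₃.1, hi₂J₁⟩, ?_⟩
          · rw [Finset.card_erase_of_mem hi₃.2]
            omega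
          · intro i hi j hj g1 g2
            have q1 : i = i₃ := by
              by_contra hcon
              exact g1 (Finset.mem_erase.mpr ⟨hcon, hi⟩)
            have q2 : j = i₃ := by
              by_contra hcon
              exact g2 (Finset.mem_erase.mpr ⟨hcon, hj⟩)
            exact q1.trans q2.symm
        · exact ⟨J₁, n, Finset.Subset.refl _, hn, hi₂J₁, fun i hi j _ g1 => absurd hi g1⟩
      have hTJ : T ⊆ J := fun i hi => ((hJ₁m i).mp (hTJ₁ hi)).1
      have hTlo : ∀ i ∈ T, u + 1 ≤ y i := fun i hi => ((hJ₁m i).mp (hTJ₁ hi)).2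
      have hTne : ∀ i ∈ T, i ≠ i₁ := fun i hi hh => h.h1 (hh ▸ hTJ hi)
      have hleft' : ∀ i ∈ J, ∀ j ∈ J, i ∉ T → j ∉ T → u < y i → u < y j → i = j :=
        fun i hi j hj g1 g2 g3 g4 => hleft i ((hJ₁m i).mpr ⟨hi, g3⟩) j ((hJ₁m j).mpr ⟨hj, g4⟩) g1 g2
      have hR := fun κ (hκ : κ = u ∨ κ = u + 1) P (hP : P ⊆ offP (insert i₁ J)) =>
        h.resid (κ := κ) (n := n) hTJ hcard hi₂T hi₂' hTlo hleft' hκ hP
      obtain ⟨r1, r2, r3, r4⟩ := hR (u + 1) (Or.inr rfl) (offP (insert i₁ J))
        (Finset.Subset.refl _)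
      refine step_section (B := insert i₁ J) (i₁ := i₁) (i₂ := i₂) hu
        (Finset.mem_insert_self i₁ J) hi₂ n (D := M + c) (c := c) (T := T) hcard hi₂T
        (fun hh => h.h1 (hTJ hh)) (fun i hi => Finset.mem_insert_of_mem (hTJ hi)) hsm
        (by rw [hM]) hTlo (fun i hi => ?_)
        (fun i hi j hj hij => h.pair i j (hTne i hi) (hTne j hj) hij) r4 (by rw [e0]; omega)
        ?_ hn1 hn2 (fun κ hκ P hP => ?_)
      · have := h.one i (hTne i hi)
        omega
      · have q1 := count_all (z := res i₁ T n (u + 1) (offP (insert i₁ J)) y) (i₁ := i₁)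
          (c := c - (u + 1)) (fun i hi => by
            have := r1.one i hi
            omega) (by
          have hsub : J ⊆ Finset.univ.erase i₁ := fun i hi =>
            Finset.mem_erase.mpr ⟨fun hh => h.h1 (hh ▸ hi), Finset.mem_univ i⟩
          rw [← Finset.sum_subset hsub (fun i hi hi' => ?_)]
          · have := r1.big
            omega
          · rw [res_not_mem (Finset.ne_of_mem_erase hi) (fun hh => hi' (hTJ hh))]
            refine offF_of_mem ?_
            rw [mem_offP, Finset.mem_insert, not_or]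
            exact ⟨Finset.ne_of_mem_erase hi, hi'⟩)
        rw [r2, hM] at q1
        exact q1
      · obtain ⟨s1, s2, s3, s4⟩ := hR κ hκ P hP
        have hκ1 : 1 ≤ κ := by
          rcases hκ with g | g <;> omega
        have q1 := ih (c - κ) (by omega) r _ i₁ J s1
        rw [s2, hM] at q1
        exact q1
    · -- a general line
      push Not at hlarge
      have hJ2 : ∀ i, i ≠ i₁ → y i ≤ 2 * u := by
        intro i hi
        have := hlarge i hi
        omega
      obtain ⟨a, b, hub, hba, ha2, habc, hya, hyab⟩ := rul_two_largest h hJ2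
      have hS := rul_sum h hJ2
      rw [hM] at hS
      have hoff1 : ∀ P ⊆ offP (insert i₁ J), Rul u c (offF P y) i₁ J ∧ offF P y i₁ = M := by
        intro P hP
        obtain ⟨g1, g2⟩ := h.off hP
        exact ⟨g1, g2.trans hM⟩
      have hle : ∀ (P : Finset (Fin r)) i, offF P y i ≤ y i := by
        intro P i
        unfold offF
        split_ifs
        · exact Nat.zero_le _
        · exact le_rfl
      rcases Nat.lt_or_ge c (a + b + (u + 1)) with hc | hc
      · obtain ⟨hn, hN⟩ := rul_num (κ := b) (D := M + c) hu (by rw [e0]; omega) (by omega) hS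
        have hw : ∀ κ', (κ' = b ∨ κ' = b + 1) → ∀ P ⊆ offP (insert i₁ J),
            Far (M + c - κ') (offF P y) ((3 * u).choose 2 + 2) := by
          intro κ' hκ' P hP
          obtain ⟨-, g2⟩ := hoff1 P hP
          have g3 := far_window (D := M + c - κ') (y := offF P y) (i₁ := i₁)
            (by rw [g2]; omega) (by rw [g2]; omega) (fun i hi => by
              rw [g2]
              have := hle P i
              have := hya i hi
              omega)
          rw [g2] at g3
          refine g3.mono ?_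
          have : (M + c - κ' - M).choose 2 ≤ (3 * u).choose 2 :=
            Nat.choose_le_choose 2 (by omega)
          omega
        refine step_line hu hub (by omega) hsm ?_ hn hN hn1 hn2 (fun P hP => hw b (Or.inl rfl) P hP)
          (fun P hP => ?_)
        · have : b.choose 2 ≤ (3 * u).choose 2 := Nat.choose_le_choose 2 (by omega)
          omega
        · have e1 : M + c - b - 1 = M + c - (b + 1) := by omega
          rw [e1]
          exact hw (b + 1) (Or.inr rfl) P hP
      · obtain ⟨hn, hN⟩ := rul_num (κ := u) (D := M + c) hu (by rw [e0]; omega) (by omega) hS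
        have hw : ∀ κ', (κ' = u ∨ κ' = u + 1) → ∀ P ⊆ offP (insert i₁ J),
            Far (M + c - κ') (offF P y) ((3 * u).choose 2 + 2) := by
          intro κ' hκ' P hP
          obtain ⟨g1, g2⟩ := hoff1 P hP
          have g3 : Rul u (c - κ') (offF P y) i₁ J := by
            refine ⟨g1.h1, g1.card, g1.small, by omega, fun i hi => ?_, fun i j hi hj hij => ?_,
              g1.big⟩
            · have := hle P i
              have := hya i hi
              omega
            · have := hle P i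
              have := hle P j
              have := hyab i j hi hj hij
              omega
          have g4 := ih (c - κ') (by omega) r _ i₁ J g3
          rw [g2] at g4
          have e1 : M + (c - κ') = M + c - κ' := by omega
          rw [e1] at g4
          exact far_of_exact g4
        refine step_line hu le_rfl (by omega) hsm ?_ hn hN hn1 hn2
          (fun P hP => hw u (Or.inl rfl) P hP) (fun P hP => ?_)
        · have : u.choose 2 ≤ (3 * u).choose 2 := Nat.choose_le_choose 2 (by omega)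
          omega
        · have e1 : M + c - u - 1 = M + c - (u + 1) := by omega
          rw [e1]
          exact hw (u + 1) (Or.inr rfl) P hP

end Pool.Agent.Work.MP_0421d9_ag.LD
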