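import Pool.Agent.Work.MP_0421d9_ag.KReg
import Pool.Agent.Work.MP_0421d9_ag.KRuled
import Pool.Agent.Work.MP_0421d9_ag.FRel

/-!
Nine points of arbitrary multiplicities and points of small multiplicity.
-/

namespace Pool.Agent.Work.MP_0421d9_ag.LD

open MvPolynomial Module

theorem exists_embed {r : ℕ} {B : Finset (Fin r)} (hB : B.card = 9) :
    ∃ (e : Fin 9 → Fin r) (he : Function.Injective e), B = Finset.univ.map ⟨e, he⟩ := by
  classical
  obtain ⟨φ⟩ : Nonempty (B ≃ Fin 9) := ⟨Finset.equivFinOfCardEq hB⟩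
  refine ⟨fun i => (φ.symm i).1, fun i j h => φ.symm.injective (Subtype.ext h), ?_⟩
  ext x
  rw [Finset.mem_map]
  constructor
  · intro hx
    refine ⟨φ ⟨x, hx⟩, Finset.mem_univ _, ?_⟩
    change (φ.symm (φ ⟨x, hx⟩)).1 = x
    rw [φ.symm_apply_apply]
  · rintro ⟨i, -, rfl⟩
    exact (φ.symm i).2

/-- the numbers for the relative theorem -/
theorem nine_room {u x t S Q : ℕ} (ht : t = 8 * (u + 1) ^ 2) (hS : S ≤ 3 * x) (hQ : Q ≤ x ^ 2) :
    Q + S + 6 * (u * x) + 2 * ((u + 1) * (x + t + 1)) ≤ (x + t + 1) * (x + t + 2) := by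
  have e1 : (x + t + 1) * (x + t + 2) = x ^ 2 + 2 * (t * x) + t * t + 3 * x + 3 * t + 2 := by ring
  have e2 : 2 * ((u + 1) * (x + t + 1)) = 2 * ((u + 1) * x) + 2 * ((u + 1) * t) + 2 * (u + 1) := by
    ring
  have h1 : 4 * (u + 1) ≤ t := by
    rw [ht]
    have : (u + 1) ^ 2 = (u + 1) * (u + 1) := sq _
    nlinarith
  have h2 : 4 * (u + 1) * x ≤ t * x := Nat.mul_le_mul_right x h1
  have h3 : 4 * (u + 1) * t ≤ t * t := Nat.mul_le_mul_right t h1
  have e3 : 4 * (u + 1) * x = 4 * (u * x) + 4 * x := by ring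
  have e4 : (u + 1) * x = u * x + x := by ring
  have e5 : 4 * (u + 1) * t = 4 * ((u + 1) * t) := by ring
  omega

/-- nine points of arbitrary multiplicities -/
theorem nine_exact {r u d : ℕ} {m : Fin r → ℕ} {B : Finset (Fin r)} (hB : B.card = 9)
    (hms : ∀ i, i ∉ B → m i ≤ u) (t0 : 3 * u ≤ d) (t1 : ∀ i, m i + 2 * u ≤ d)
    (t2 : ∀ i j, i ≠ j → m i + m j + u ≤ d)
    (t3 : ∀ i j k, i ≠ j → i ≠ k → j ≠ k → m i + m j + m k ≤ d)
    (hK : ∑ i ∈ B, m i + 500 * (u + 1) ^ 2 ≤ 3 * d) :
    hPm d m = (d + 2).choose 2 - ∑ i, (m i + 1).choose 2 := by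
  classical
  obtain ⟨e, he, hBe⟩ := exists_embed hB
  have e0 : (u + 1) ^ 2 = u * u + 2 * u + 1 := by ring
  have hsB : ∑ i ∈ B, m i = ∑ i, (m ∘ e) i := sum_embed m he hBe
  have hcB : ∑ i ∈ B, (m i + 1).choose 2 = ∑ i, ((m ∘ e) i + 1).choose 2 :=
    sum_embed (fun i => (m i + 1).choose 2) he hBe
  have hbound : ∀ τ : ℕ, 12 * τ ≤ 500 * (u + 1) ^ 2 → (∀ i ∈ B, ∀ j ∈ B, i ≠ j →
      m i + m j + τ ≤ d) → τ ≤ d → NefE (d - τ) (m ∘ e) := by
    intro τ hτ hp hτd E c hc
    have hmem : ∀ i, e i ∈ B := fun i => by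
      rw [hBe]
      exact Finset.mem_map_of_mem ⟨e, he⟩ (Finset.mem_univ i)
    have h1 := exc_bound (D := d) (τ := τ) (a := m ∘ e) (fun i j k h1 h2 h3 =>
      t3 _ _ _ (fun h => h1 (he h)) (fun h => h2 (he h)) (fun h => h3 (he h)))
      (fun i j h1 => hp _ (hmem i) _ (hmem j) (fun h => h1 (he h))) (by omega) hc
    rw [Nat.cast_sub hτd]
    nlinarith
  rcases Nat.eq_zero_or_pos u with hu | hu
  · subst hu
    have h1 := hbound 0 (by omega) (fun i _ j _ hij => by
      have := t2 i j hij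
      omega) (Nat.zero_le _)
    rw [Nat.sub_zero] at h1
    have h2 := nefE_regular d _ h1 (by rw [← hsB]; omega)
    have h3 : onB B m = m := by
      funext i
      unfold onB
      split_ifs with hi
      · rfl
      · have := hms i hi
        omega
    have h4 := onB_embed (D := d) (gpt_generic r) m he hBe
    rw [h3] at h4
    have h5 : ∑ i ∈ B, (m i + 1).choose 2 = ∑ i, (m i + 1).choose 2 := by
      rw [← sum_onB, h3]
    change hPm d m = _ at h4
    omega
  obtain ⟨t, ht⟩ : ∃ t, t = 8 * (u + 1) ^ 2 := ⟨_, rfl⟩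
  by_cases hcase : ∀ i ∈ B, ∀ j ∈ B, i ≠ j → m i + m j + 2 * t ≤ d
  · -- the relative theorem
    obtain ⟨i, hi, j, hj, hij⟩ : ∃ i ∈ B, ∃ j ∈ B, i ≠ j := by
      obtain ⟨i, hi, j, hj, hij⟩ := Finset.one_lt_card.mp (by omega : 1 < B.card)
      exact ⟨i, hi, j, hj, hij⟩
    have htd : 2 * t ≤ d := by
      have := hcase i hi j hj hij
      omega
    have hN1 := hbound t (by omega) (fun i hi j hj hij => by
      have := hcase i hi j hj hij
      omega) (by omega)
    have hN2 := hbound (2 * t) (by omega) hcase htd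
    have hreg := nefE_regular (d - t) _ hN1 (by rw [← hsB]; omega)
    have hsq := nefE_sq (d - 2 * t) _ hN2
    obtain ⟨x, hx⟩ : ∃ x, x = d - 2 * t := ⟨_, rfl⟩
    rw [← hx] at hsq
    have hroom := nine_room (u := u) (x := x) (t := t) (S := ∑ i, (m ∘ e) i)
      (Q := ∑ i, (m ∘ e) i ^ 2) ht (by rw [← hsB]; omega) hsq
    have h2c : 2 * ∑ i, ((m ∘ e) i + 1).choose 2 = ∑ i, (m ∘ e) i ^ 2 + ∑ i, (m ∘ e) i := by
      rw [Finset.mul_sum, ← Finset.sum_add_distrib]
      refine Finset.sum_congr rfl (fun i _ => ?_)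
      rw [tr_two_choose]
      ring
    have hxm : ∀ i, m i ≤ x := by
      intro l
      by_cases hl : l ∈ B
      · by_cases hli : l = i
        · have := hcase l hl j hj (by rw [hli]; exact hij)
          omega
        · have := hcase l hl i hi hli
          omega
      · have := hms l hl
        omega
    have hux : u ≤ x := by
      omega
    have h2D := two_mul_choose_two (x + t)
    have e3 : (x + t) * (x + t) + 3 * (x + t) + 2 = (x + t + 1) * (x + t + 2) := by ring
    have hdt : d - t = x + t := by omega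
    have hrel := rel_clean (D := d - t) (d := d) (M := x) (u := u) (gpt_generic r) (m := m) B hxm hu
      hux hms (by omega) (by
        have h4 := onB_embed (D := d - t) (gpt_generic r) m he hBe
        rw [hcB]
        rw [← h4] at hreg
        exact hreg) (by
        rw [hcB, hdt]
        have e4 : 3 * (u * x) * 2 = 6 * (u * x) := by ring
        omega) (by omega)
    exact hrel
  · -- a point of very large multiplicity
    push Not at hcase
    obtain ⟨i, hi, j, hj, hij, hlt⟩ := hcase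
    obtain ⟨i₁, hi₁, hmax⟩ := Finset.exists_max_image B m ⟨i, hi⟩
    have hMi := hmax i hi
    have hMj := hmax j hj
    obtain ⟨s, hs⟩ : ∃ s, s = d - m i - m j := ⟨_, rfl⟩
    have hds := t2 i j hij
    -- the other points
    have hoth : ∀ k ∈ (B.erase i).erase j, m k ≤ s := by
      intro k hk
      rw [Finset.mem_erase, Finset.mem_erase] at hk
      have := t3 i j k hij (Ne.symm hk.2.1) (Ne.symm hk.1)
      omega
    have hcard : ((B.erase i).erase j).card = 7 := by
      rw [Finset.card_erase_of_mem (Finset.mem_erase.mpr ⟨Ne.symm hij, hj⟩),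
        Finset.card_erase_of_mem hi, hB]
    obtain ⟨O, hO⟩ : ∃ O, O = ∑ k ∈ (B.erase i).erase j, m k := ⟨_, rfl⟩
    have hO7 : O ≤ 7 * s := by
      rw [hO, ← hcard, ← smul_eq_mul]
      exact Finset.sum_le_card_nsmul _ _ _ hoth
    have hsum : ∑ k ∈ B, m k = m i + m j + O := by
      rw [hO, ← Finset.add_sum_erase B _ hi,
        ← Finset.add_sum_erase (B.erase i) _ (Finset.mem_erase.mpr ⟨Ne.symm hij, hj⟩)]
      ring
    have hsum1 : ∑ k ∈ B.erase i₁, m k + m i₁ = ∑ k ∈ B, m k := by
      rw [← Finset.add_sum_erase B _ hi₁]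
      ring
    have hM1 := t1 i₁
    have hR : Rul u (d - m i₁) m i₁ (B.erase i₁) := by
      refine ⟨Finset.notMem_erase i₁ B, ?_, fun l h1 h2 => ?_, by omega, fun l h1 => ?_,
        fun l k h1 h2 h3 => ?_, ?_⟩
      · rw [Finset.card_erase_of_mem hi₁, hB]
      · exact hms l (fun h => h2 (Finset.mem_erase.mpr ⟨h1, h⟩))
      · have := t2 i₁ l (Ne.symm h1)
        omega
      · have := t3 i₁ l k (Ne.symm h1) (Ne.symm h2) h3
        omega
      · omega
    have h1 := rul_main hu (d - m i₁) r m i₁ (B.erase i₁) hR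
    have e1 : m i₁ + (d - m i₁) = d := by omega
    rw [e1] at h1
    exact h1

/-- **Theorem.** Let `m i ≤ u` outside of a set `B` of at most nine indices, let the sum of any
three of the multiplicities (completed by `u`) be at most `d`, and let
`∑ i ∈ B, m i + 500 (u + 1) ^ 2 ≤ 3 d`. Then the system is nonspecial. -/
theorem nine_main {r u d : ℕ} {m : Fin r → ℕ} {B : Finset (Fin r)} (hB : B.card ≤ 9)
    (hms : ∀ i, i ∉ B → m i ≤ u)
    (h3 : ∀ J : Finset (Fin r), J.card ≤ 3 → ∑ i ∈ J, m i + (3 - J.card) * u ≤ d)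
    (hK : ∑ i ∈ B, m i + 500 * (u + 1) ^ 2 ≤ 3 * d) :
    hPm d m = (d + 2).choose 2 - ∑ i, (m i + 1).choose 2 := by
  classical
  have s0 : 3 * u ≤ d := by
    have h1 := h3 ∅ (by simp)
    rw [Finset.sum_empty, Finset.card_empty] at h1
    omega
  have s1 : ∀ i, m i + 2 * u ≤ d := by
    intro i
    have h1 := h3 {i} (by rw [Finset.card_singleton]; omega)
    rw [Finset.sum_singleton, Finset.card_singleton] at h1
    omega
  have s2 : ∀ i j, i ≠ j → m i + m j + u ≤ d := by
    intro i j hij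
    have h2 := Finset.card_pair hij
    have h1 := h3 {i, j} (by rw [h2]; omega)
    rw [Finset.sum_pair hij, h2] at h1
    omega
  have s3 : ∀ i j k, i ≠ j → i ≠ k → j ≠ k → m i + m j + m k ≤ d := by
    intro i j k hij hik hjk
    have h2 : ({i, j, k} : Finset (Fin r)).card = 3 :=
      Finset.card_eq_three.mpr ⟨i, j, k, hij, hik, hjk, rfl⟩
    have h1 := h3 {i, j, k} (by rw [h2])
    rw [h2, Finset.sum_insert, Finset.sum_pair hjk] at h1
    · omega
    · rw [Finset.mem_insert, Finset.mem_singleton, not_or]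
      exact ⟨hij, hik⟩
  -- nine further points of multiplicity 0
  obtain ⟨y, hy⟩ : ∃ y : Fin (r + 9) → ℕ, y = Fin.append m (fun _ : Fin 9 => 0) := ⟨_, rfl⟩
  have hyl : ∀ i, y (Fin.castAdd 9 i) = m i := fun i => by rw [hy, Fin.append_left]
  have hyr : ∀ j, y (Fin.natAdd r j) = 0 := fun j => by rw [hy, Fin.append_right]
  obtain ⟨Z, hZ⟩ : ∃ Z : Finset (Fin 9), Z.card = 9 - B.card := by
    obtain ⟨Z, -, hZ⟩ := Finset.exists_subset_card_eq (s := (Finset.univ : Finset (Fin 9)))
      (n := 9 - B.card) (by rw [Finset.card_univ, Fintype.card_fin]; omega)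
    exact ⟨Z, hZ⟩
  obtain ⟨J, hJ⟩ : ∃ J : Finset (Fin (r + 9)), J = B.map (Fin.castAddEmb 9) ∪
    Z.map (Fin.natAddEmb r) := ⟨_, rfl⟩
  have hdisj : Disjoint (B.map (Fin.castAddEmb 9)) (Z.map (Fin.natAddEmb r)) := by
    rw [Finset.disjoint_left]
    intro a ha hb
    rw [Finset.mem_map] at ha hb
    obtain ⟨i, -, hi⟩ := ha
    obtain ⟨j, -, hj⟩ := hb
    have h1 := congrArg Fin.val (hi.trans hj.symm)
    have h2 : (Fin.castAddEmb 9 i : Fin (r + 9)).1 = i.1 := rfl
    have h3 : (Fin.natAddEmb r j : Fin (r + 9)).1 = r + j.1 := rfl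
    have h4 := i.2
    omega
  have hJ9 : J.card = 9 := by
    rw [hJ, Finset.card_union_of_disjoint hdisj, Finset.card_map, Finset.card_map, hZ]
    omega
  have hsumJ : ∑ i ∈ J, y i = ∑ i ∈ B, m i := by
    rw [hJ, Finset.sum_union hdisj, Finset.sum_map, Finset.sum_map]
    have h1 : ∑ x ∈ Z, y (Fin.natAddEmb r x) = 0 := Finset.sum_eq_zero (fun j _ => hyr j)
    rw [h1, Nat.add_zero]
    exact Finset.sum_congr rfl (fun i _ => hyl i)
  have huJ : ∀ i, i ∉ J → y i ≤ u := by
    intro i
    refine Fin.addCases (fun j hj => ?_) (fun j _ => ?_) i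
    · rw [hyl]
      apply hms
      intro h1
      apply hj
      rw [hJ, Finset.mem_union]
      exact Or.inl (Finset.mem_map_of_mem (Fin.castAddEmb 9) h1)
    · rw [hyr]
      exact Nat.zero_le _
  have h1 := nine_exact (u := u) (d := d) (m := y) hJ9 huJ s0 ?_ ?_ ?_ (by rw [hsumJ]; exact hK)
  · rw [hy, hPm_append_zero, sum_append m _ (fun x => (x + 1).choose 2)] at h1
    have h2 : ∑ _j : Fin 9, (0 + 1).choose 2 = 0 := Finset.sum_eq_zero (fun _ _ => rfl)
    rw [h2, Nat.add_zero] at h1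
    exact h1
  · intro i
    refine Fin.addCases (fun j => ?_) (fun j => ?_) i
    · rw [hyl]
      exact s1 j
    · rw [hyr]
      omega
  · intro i
    refine Fin.addCases (fun j => ?_) (fun j => ?_) i
    · intro k
      refine Fin.addCases (fun l hjl => ?_) (fun l _ => ?_) k
      · rw [hyl, hyl]
        exact s2 j l (fun h => hjl (by rw [h]))
      · rw [hyl, hyr]
        have := s1 j
        omega
    · intro k
      refine Fin.addCases (fun l _ => ?_) (fun l _ => ?_) k
      · rw [hyr, hyl]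
        have := s1 l
        omega
      · rw [hyr, hyr]
        omega
  · -- the sum of three
    have two : ∀ i j : Fin (r + 9), i ≠ j → y i + y j ≤ d := by
      intro i
      refine Fin.addCases (fun j => ?_) (fun j => ?_) i
      · intro k
        refine Fin.addCases (fun l hjl => ?_) (fun l _ => ?_) k
        · rw [hyl, hyl]
          have := s2 j l (fun h => hjl (by rw [h]))
          omega
        · rw [hyl, hyr]
          have := s1 j
          omega
      · intro k
        refine Fin.addCases (fun l _ => ?_) (fun l _ => ?_) k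
        · rw [hyr, hyl]
          have := s1 l
          omega
        · rw [hyr, hyr]
          omega
    intro i j k hij hik hjk
    by_cases hi0 : y i = 0
    · have := two j k hjk
      omega
    by_cases hj0 : y j = 0
    · have := two i k hik
      omega
    by_cases hk0 : y k = 0
    · have := two i j hij
      omega
    have hex : ∀ x : Fin (r + 9), y x ≠ 0 → ∃ x', x = Fin.castAdd 9 x' := by
      intro x
      refine Fin.addCases (fun l _ => ⟨l, rfl⟩) (fun l hl => ?_) x
      exact absurd (hyr l) hl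
    obtain ⟨i', rfl⟩ := hex i hi0
    obtain ⟨j', rfl⟩ := hex j hj0
    obtain ⟨k', rfl⟩ := hex k hk0
    rw [hyl, hyl, hyl]
    exact s3 i' j' k' (fun h => hij (by rw [h])) (fun h => hik (by rw [h]))
      (fun h => hjk (by rw [h]))

end Pool.Agent.Work.MP_0421d9_ag.LD
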