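import Pool.Agent.Work.MP_0421d9_ag.KExc
import Pool.Agent.Work.MP_0421d9_ag.KCub
import Pool.Agent.Work.MP_0421d9_ag.JMain

/-!
Classes on the blow-up at nine general points which are nonnegative on the exceptional classes.
-/

namespace Pool.Agent.Work.MP_0421d9_ag.LD

open MvPolynomial Module

theorem sum_diff3 {f g : Fin 9 → ℤ} {i j k : Fin 9} (hij : i ≠ j) (hik : i ≠ k) (hjk : j ≠ k)
    (h : ∀ l, l ≠ i → l ≠ j → l ≠ k → f l = g l) :
    ∑ l, f l = ∑ l, g l + (f i - g i) + (f j - g j) + (f k - g k) := by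
  classical
  have h1 : ∑ l, (f l - g l) = (f i - g i) + (f j - g j) + (f k - g k) := by
    rw [← Finset.sum_subset (Finset.subset_univ {i, j, k})]
    · rw [Finset.sum_insert, Finset.sum_insert, Finset.sum_singleton]
      · ring
      · rw [Finset.mem_singleton]
        exact hjk
      · rw [Finset.mem_insert, Finset.mem_singleton, not_or]
        exact ⟨hij, hik⟩
    · intro l _ hl
      rw [Finset.mem_insert, Finset.mem_insert, Finset.mem_singleton, not_or, not_or] at hl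
      rw [h l hl.1 hl.2.1 hl.2.2, sub_self]
  rw [Finset.sum_sub_distrib] at h1
  linarith

/-- the multiplicities after the reflection -/
def rflc (i j k : Fin 9) (e : ℤ) (c : Fin 9 → ℤ) : Fin 9 → ℤ :=
  fun l => if l = i then e - c j - c k else if l = j then e - c i - c k else
    if l = k then e - c i - c j else c l

section rflc

variable {i j k : Fin 9} (hij : i ≠ j) (hik : i ≠ k) (hjk : j ≠ k) (e : ℤ) (c : Fin 9 → ℤ)

theorem rflc_i : rflc i j k e c i = e - c j - c k := by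
  unfold rflc
  rw [if_pos rfl]

include hij in
theorem rflc_j : rflc i j k e c j = e - c i - c k := by
  unfold rflc
  rw [if_neg (Ne.symm hij), if_pos rfl]

include hik hjk in
theorem rflc_k : rflc i j k e c k = e - c i - c j := by
  unfold rflc
  rw [if_neg (Ne.symm hik), if_neg (Ne.symm hjk), if_pos rfl]

theorem rflc_o {l : Fin 9} (h1 : l ≠ i) (h2 : l ≠ j) (h3 : l ≠ k) : rflc i j k e c l = c l := by
  unfold rflc
  rw [if_neg h1, if_neg h2, if_neg h3]

end rflc

theorem Exc.reflect {e : ℤ} {c : Fin 9 → ℤ} (h : Exc e c) {i j k : Fin 9} (hij : i ≠ j)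
    (hik : i ≠ k) (hjk : j ≠ k) : Exc (2 * e - c i - c j - c k) (rflc i j k e c) := by
  refine ⟨?_, ?_⟩
  · have h1 := sum_diff3 (f := fun l => rflc i j k e c l ^ 2) (g := fun l => c l ^ 2) hij hik hjk
      (fun l g1 g2 g3 => by
        change rflc i j k e c l ^ 2 = c l ^ 2
        rw [rflc_o e c g1 g2 g3])
    rw [h.sq, rflc_i, rflc_j hij, rflc_k hik hjk] at h1
    rw [h1]
    ring
  · have h1 := sum_diff3 (f := rflc i j k e c) (g := c) hij hik hjk
      (fun l g1 g2 g3 => rflc_o e c g1 g2 g3)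
    rw [h.can, rflc_i, rflc_j hij, rflc_k hik hjk] at h1
    rw [h1]
    ring

/-- nonnegative on the exceptional classes -/
def NefE (D : ℕ) (a : Fin 9 → ℕ) : Prop := ∀ e c, Exc e c → ∑ i, (a i : ℤ) * c i ≤ D * e

theorem exc_line {i j : Fin 9} (hij : i ≠ j) :
    Exc 1 (fun l => if l ∈ ({i, j} : Finset (Fin 9)) then 1 else 0) := by
  refine ⟨?_, ?_⟩
  · have h1 : ∀ l ∈ (Finset.univ : Finset (Fin 9)),
        (if l ∈ ({i, j} : Finset (Fin 9)) then (1 : ℤ) else 0) ^ 2 =
          if l ∈ ({i, j} : Finset (Fin 9)) then (1 : ℤ) else 0 := by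
      intro l _
      split_ifs <;> norm_num
    rw [Finset.sum_congr rfl h1, Finset.sum_ite_mem, Finset.univ_inter, Finset.sum_pair hij]
    norm_num
  · rw [Finset.sum_ite_mem, Finset.univ_inter, Finset.sum_pair hij]
    norm_num

theorem NefE.line {D : ℕ} {a : Fin 9 → ℕ} (h : NefE D a) {i j : Fin 9} (hij : i ≠ j) :
    a i + a j ≤ D := by
  have h1 := h 1 _ (exc_line hij)
  have h2 : ∀ l ∈ (Finset.univ : Finset (Fin 9)),
      (a l : ℤ) * (if l ∈ ({i, j} : Finset (Fin 9)) then (1 : ℤ) else 0) =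
        if l ∈ ({i, j} : Finset (Fin 9)) then (a l : ℤ) else 0 := by
    intro l _
    split_ifs <;> simp
  rw [Finset.sum_congr rfl h2, Finset.sum_ite_mem, Finset.univ_inter, Finset.sum_pair hij,
    mul_one] at h1
  exact_mod_cast h1

/-- the quadratic transformation -/
theorem NefE.quadratic {D : ℕ} {a : Fin 9 → ℕ} (h : NefE D a) {i j k : Fin 9} (hij : i ≠ j)
    (hik : i ≠ k) (hjk : j ≠ k) (hD : D < a i + a j + a k) : ∃ D' a', D' < D ∧ NefE D' a' ∧
      Quadratic (D, a) (D', a') ∧ 3 * D' + ∑ l, a l = 3 * D + ∑ l, a' l ∧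
      D' ^ 2 + ∑ l, a l ^ 2 = D ^ 2 + ∑ l, a' l ^ 2 := by
  classical
  have l1 := h.line hij
  have l2 := h.line hik
  have l3 := h.line hjk
  obtain ⟨a', ha'⟩ : ∃ a' : Fin 9 → ℕ, a' = fun l => if l = i then D - a j - a k else
    if l = j then D - a i - a k else if l = k then D - a i - a j else a l := ⟨_, rfl⟩
  obtain ⟨D', hD'⟩ : ∃ D', D' + (a i + a j + a k) = 2 * D := ⟨2 * D - (a i + a j + a k), by omega⟩
  have ei : a' i = D - a j - a k := by
    rw [ha']
    exact if_pos rfl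
  have ej : a' j = D - a i - a k := by
    rw [ha']
    change (if j = i then _ else if j = j then _ else _) = _
    rw [if_neg (Ne.symm hij), if_pos rfl]
  have ek : a' k = D - a i - a j := by
    rw [ha']
    change (if k = i then _ else if k = j then _ else if k = k then _ else _) = _
    rw [if_neg (Ne.symm hik), if_neg (Ne.symm hjk), if_pos rfl]
  have eo : ∀ l, l ≠ i → l ≠ j → l ≠ k → a' l = a l := by
    intro l g1 g2 g3
    rw [ha']
    change (if l = i then _ else if l = j then _ else if l = k then _ else _) = _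
    rw [if_neg g1, if_neg g2, if_neg g3]
  have zi : (a' i : ℤ) = D - a j - a k := by rw [ei]; omega
  have zj : (a' j : ℤ) = D - a i - a k := by rw [ej]; omega
  have zk : (a' k : ℤ) = D - a i - a j := by rw [ek]; omega
  have zD : (D' : ℤ) = 2 * D - a i - a j - a k := by omega
  refine ⟨D', a', by omega, ?_, ?_, ?_, ?_⟩
  · intro e c hc
    have h1 := h _ _ (hc.reflect hij hik hjk)
    have h2 := sum_diff3 (f := fun l => (a' l : ℤ) * c l)
      (g := fun l => (a l : ℤ) * rflc i j k e c l) hij hik hjk (fun l g1 g2 g3 => by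
        change (a' l : ℤ) * c l = (a l : ℤ) * rflc i j k e c l
        rw [rflc_o e c g1 g2 g3, eo l g1 g2 g3])
    rw [rflc_i, rflc_j hij, rflc_k hik hjk, zi, zj, zk] at h2
    rw [zD]
    rw [h2]
    nlinarith
  · refine ⟨i, j, k, hij, hik, hjk, ?_, ?_, ?_, ?_, ?_, ?_, ?_, ei, ej, ek, fun l g1 g2 g3 =>
      eo l g1 g2 g3⟩
    · change a i ≤ D
      omega
    · change a j ≤ D
      omega
    · change a k ≤ D
      omega
    · change a i + a j ≤ D + 1
      omega
    · change a i + a k ≤ D + 1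
      omega
    · change a j + a k ≤ D + 1
      omega
    · change D' + a i + a j + a k = 2 * D
      omega
  · have h2 := sum_diff3 (f := fun l => (a' l : ℤ)) (g := fun l => (a l : ℤ)) hij hik hjk
      (fun l g1 g2 g3 => by
        change (a' l : ℤ) = (a l : ℤ)
        rw [eo l g1 g2 g3])
    rw [zi, zj, zk] at h2
    zify
    linarith
  · have h2 := sum_diff3 (f := fun l => (a' l : ℤ) ^ 2) (g := fun l => (a l : ℤ) ^ 2) hij hik hjk
      (fun l g1 g2 g3 => by
        change (a' l : ℤ) ^ 2 = (a l : ℤ) ^ 2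
        rw [eo l g1 g2 g3])
    rw [zi, zj, zk] at h2
    zify
    rw [zD, h2]
    ring

/-- **Regularity.** -/
theorem nefE_regular : ∀ (D : ℕ) (a : Fin 9 → ℕ), NefE D a → ∑ i, a i + 1 ≤ 3 * D →
    hPm D a + ∑ i, (a i + 1).choose 2 = (D + 2).choose 2 := by
  classical
  intro D
  induction D using Nat.strong_induction_on with
  | _ D ih =>
  intro a hN hK
  by_cases h3 : ∃ i j k, i ≠ j ∧ i ≠ k ∧ j ≠ k ∧ D < a i + a j + a k
  · obtain ⟨i, j, k, hij, hik, hjk, hD⟩ := h3
    obtain ⟨D', a', h1, h2, h3, h4, -⟩ := hN.quadratic hij hik hjk hD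
    have h5 := ih D' h1 a' h2 (by omega)
    have h6 := h3.count
    have h7 := h3.le
    have h8 := hPm_count D a
    dsimp only at h6 h7
    omega
  · push Not at h3
    have h1 := reduced_regular (t := fun i : Fin 9 => ((i : ℕ) : ℂ) + 1) (fun i j hij => by
      have h2 : ((i : ℕ) : ℂ) = ((j : ℕ) : ℂ) := add_right_cancel hij
      exact Fin.ext (by exact_mod_cast h2)) (fun i => Nat.cast_add_one_ne_zero _) D a h3
      (Or.inl hK)
    have h2 := generic_le (gpt_generic 9) D a (fun i => cpt (((i : ℕ) : ℂ) + 1))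
    have h8 := hPm_count D a
    change hPm D a ≤ _ at h2
    omega

theorem sorted_sq {D a0 a1 a2 a3 a4 a5 a6 a7 a8 : ℕ} (hd : a0 + a1 + a2 ≤ D) (h01 : a1 ≤ a0)
    (h12 : a2 ≤ a1) (h23 : a3 ≤ a2) (h34 : a4 ≤ a2) (h45 : a5 ≤ a2) (h56 : a6 ≤ a2)
    (h67 : a7 ≤ a2) (h78 : a8 ≤ a2) :
    a0 ^ 2 + a1 ^ 2 + a2 ^ 2 + a3 ^ 2 + a4 ^ 2 + a5 ^ 2 + a6 ^ 2 + a7 ^ 2 + a8 ^ 2 ≤ D ^ 2 := by
  have h1 := Nat.pow_le_pow_left hd 2
  have e1 : (a0 + a1 + a2) ^ 2 = a0 ^ 2 + a1 ^ 2 + a2 ^ 2 + 2 * (a1 * a0) + 2 * (a2 * a0) +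
      2 * (a2 * a1) := by ring
  have q1 : a2 ^ 2 ≤ a1 * a0 := by
    rw [sq]
    exact Nat.mul_le_mul h12 (h12.trans h01)
  have q2 : a2 ^ 2 ≤ a2 * a0 := by
    rw [sq]
    exact Nat.mul_le_mul le_rfl (h12.trans h01)
  have q3 : a2 ^ 2 ≤ a2 * a1 := by
    rw [sq]
    exact Nat.mul_le_mul le_rfl h12
  have p3 := Nat.pow_le_pow_left h23 2
  have p4 := Nat.pow_le_pow_left h34 2
  have p5 := Nat.pow_le_pow_left h45 2
  have p6 := Nat.pow_le_pow_left h56 2
  have p7 := Nat.pow_le_pow_left h67 2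
  have p8 := Nat.pow_le_pow_left h78 2
  omega

theorem nefE_sq : ∀ (D : ℕ) (a : Fin 9 → ℕ), NefE D a → ∑ i, a i ^ 2 ≤ D ^ 2 := by
  classical
  intro D
  induction D using Nat.strong_induction_on with
  | _ D ih =>
  intro a hN
  by_cases h3 : ∃ i j k, i ≠ j ∧ i ≠ k ∧ j ≠ k ∧ D < a i + a j + a k
  · obtain ⟨i, j, k, hij, hik, hjk, hD⟩ := h3
    obtain ⟨D', a', h1, h2, -, -, h4⟩ := hN.quadratic hij hik hjk hD
    have h5 := ih D' h1 a' h2
    omega
  · push Not at h3
    obtain ⟨σ, hσ⟩ : ∃ σ : Equiv.Perm (Fin 9), Antitone (a ∘ σ) := by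
      refine ⟨Fin.revPerm.trans (Tuple.sort a), ?_⟩
      intro i j hij
      have h1 := Tuple.monotone_sort a
      exact h1 (Fin.rev_le_rev.mpr hij)
    have e2 : ∑ i, a i ^ 2 = ∑ i, (a ∘ σ) i ^ 2 := (Equiv.sum_comp σ (fun i => a i ^ 2)).symm
    have hr := h3 (σ 0) (σ 1) (σ 2) (fun h => absurd (σ.injective h) (by decide))
      (fun h => absurd (σ.injective h) (by decide)) (fun h => absurd (σ.injective h) (by decide))
    rw [e2]
    have hsum : ∀ f : Fin 9 → ℕ, ∑ i, f i =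
        f 0 + f 1 + f 2 + f 3 + f 4 + f 5 + f 6 + f 7 + f 8 :=
      fun f => by simp [Fin.sum_univ_succ]; ring
    rw [hsum]
    exact sorted_sq hr (hσ (show (0 : Fin 9) ≤ 1 by decide)) (hσ (show (1 : Fin 9) ≤ 2 by decide))
      (hσ (show (2 : Fin 9) ≤ 3 by decide)) (hσ (show (2 : Fin 9) ≤ 4 by decide))
      (hσ (show (2 : Fin 9) ≤ 5 by decide)) (hσ (show (2 : Fin 9) ≤ 6 by decide))
      (hσ (show (2 : Fin 9) ≤ 7 by decide)) (hσ (show (2 : Fin 9) ≤ 8 by decide))

/-! ### nine of many points -/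

theorem onB_embed {r D : ℕ} {p : Fin r → V3} (hp : GenericPoints p) (m : Fin r → ℕ)
    {e : Fin 9 → Fin r} (he : Function.Injective e) {B : Finset (Fin r)}
    (hB : B = Finset.univ.map ⟨e, he⟩) :
    finrank ℂ (linSys D p (onB B m)) = hPm D (m ∘ e) := by
  have hgen : GenericPoints (fun i => p (e i)) := by
    have h1 := AlgebraicIndependent.comp hp (fun z : Fin 9 × Fin 3 => ((e z.1, z.2) : Fin r × Fin 3))
      (by
        rintro ⟨a, b⟩ ⟨c, d⟩ h
        simp only [Prod.mk.injEq] at h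
        exact Prod.ext (he h.1) h.2)
    exact h1
  rw [← hPm_eq hgen]
  have h1 : linSys D p (onB B m) = linSys D (fun i => p (e i)) (m ∘ e) := by
    ext F
    constructor
    · rintro ⟨h1, h2⟩
      refine ⟨h1, fun i => ?_⟩
      have h3 := h2 (e i)
      have h4 : onB B m (e i) = m (e i) := by
        unfold onB
        rw [if_pos]
        rw [hB]
        exact Finset.mem_map_of_mem ⟨e, he⟩ (Finset.mem_univ i)
      rw [h4] at h3
      exact h3
    · rintro ⟨h1, h2⟩
      refine ⟨h1, fun i => ?_⟩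
      unfold onB
      split_ifs with hi
      · rw [hB, Finset.mem_map] at hi
        obtain ⟨j, -, rfl⟩ := hi
        exact h2 j
      · exact uv_zero _ _
  rw [h1]

theorem sum_embed {r : ℕ} (f : Fin r → ℕ) {e : Fin 9 → Fin r} (he : Function.Injective e)
    {B : Finset (Fin r)} (hB : B = Finset.univ.map ⟨e, he⟩) : ∑ i ∈ B, f i = ∑ i, f (e i) := by
  rw [hB, Finset.sum_map]
  rfl

end Pool.Agent.Work.MP_0421d9_ag.LD
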