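import Pool.Agent.Work.MP_0421d9_ag.KNine
import Pool.Agent.Work.MP_0421d9_ag.FSmooth

/-!
Nine points of arbitrary multiplicities: both halves.
-/

namespace Pool.Agent.Work.MP_0421d9_ag

open MvPolynomial Module LD

/-- the neighbouring systems -/
theorem nine_nbr {r u d : ℕ} {p : Fin r → Fin 3 → ℂ} (hp : GenericPoints p) {m m' : Fin r → ℕ}
    {B I : Finset (Fin r)} (hB : B.card ≤ 9) (hu : ∀ i, i ∉ B → m i ≤ u)
    (h3 : ∀ J : Finset (Fin r), J.card ≤ 3 → J ≠ I →
      ∑ i ∈ J, m i + (3 - J.card) * (u + 1) < d)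
    (hI3 : ∑ i ∈ I, m i + (3 - I.card) * (u + 1) ≤ d)
    (hK : ∑ i ∈ B, m i + 500 * (u + 2) ^ 2 < 3 * d)
    (hm : (∀ i, m' i ≤ m i) ∨ ∃ i₀, i₀ ∉ I ∧ m' i₀ ≤ m i₀ + 1 ∧ ∀ i, i ≠ i₀ → m' i ≤ m i) :
    finrank ℂ (linSys d p m') = (d + 2).choose 2 - ∑ j, (m' j + 1).choose 2 := by
  classical
  rw [hPm_eq hp]
  -- sums over sets of indices
  have hsum : ∀ J : Finset (Fin r), ∑ i ∈ J, m' i ≤ ∑ i ∈ J, m i + 1 ∧
      (J = I → ∑ i ∈ J, m' i ≤ ∑ i ∈ J, m i) := by
    intro J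
    rcases hm with hm | ⟨i₀, hi₀, h1, h2⟩
    · have := Finset.sum_le_sum (s := J) (fun i _ => hm i)
      exact ⟨by omega, fun _ => this⟩
    · by_cases hJ : i₀ ∈ J
      · refine ⟨?_, fun h => absurd (h ▸ hJ) hi₀⟩
        rw [← Finset.add_sum_erase J _ hJ, ← Finset.add_sum_erase J m hJ]
        have := Finset.sum_le_sum (s := J.erase i₀)
          (fun i hi => h2 i (Finset.ne_of_mem_erase hi))
        omega
      · have := Finset.sum_le_sum (s := J) (fun i hi => h2 i (fun h => hJ (h ▸ hi)))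
        exact ⟨by omega, fun _ => this⟩
  refine nine_main (u := u + 1) (B := B) hB (fun i hi => ?_) (fun J hJ => ?_) ?_
  · have h4 := hu i hi
    rcases hm with hm | ⟨i₀, -, h1, h2⟩
    · have := hm i
      omega
    · by_cases hi0 : i = i₀
      · rw [hi0] at h4 ⊢
        omega
      · have := h2 i hi0
        omega
  · obtain ⟨g1, g2⟩ := hsum J
    by_cases hJI : J = I
    · have := g2 hJI
      rw [hJI] at this ⊢
      omega
    · have := h3 J hJ hJI
      omega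
  · obtain ⟨g1, -⟩ := hsum B
    have e1 : (u + 1 + 1) ^ 2 = (u + 2) ^ 2 := rfl
    rw [e1]
    omega

/-- **Smoothness.** -/
theorem nine_smooth {r u d : ℕ} (p : Fin r → Fin 3 → ℂ) (hp : GenericPoints p)
    (m : Fin r → ℕ) {B I : Finset (Fin r)} (hB : B.card ≤ 9) (hI : I.card ≤ 3)
    (hu : ∀ i, i ∉ B → m i ≤ u)
    (h3 : ∀ J : Finset (Fin r), J.card ≤ 3 → J ≠ I →
      ∑ i ∈ J, m i + (3 - J.card) * (u + 1) < d)
    (hI3 : ∑ i ∈ I, m i + (3 - I.card) * (u + 1) ≤ d)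
    (hK : ∑ i ∈ B, m i + 500 * (u + 2) ^ 2 < 3 * d)
    (hJ : ∀ i, i ∉ I → 2 ≤ m i → m i < finrank ℂ (linSys d p m) +
      (Finset.univ.filter (fun j => m j = 1)).card)
    (hne : linSys d p m ≠ ⊥) :
    (∃ F ∈ linSys d p m, Squarefree F) ∧
    (∀ s : Fin (finrank ℂ (linSys d p m) - 1) → Fin 3 → ℂ, GenericPoints (Sum.elim p s) →
      ∀ F ∈ linSys d p m, F ≠ 0 → (∀ k, eval (s k) F = 0) → SmoothOnBlowup p m F) ∧
    (∃ F ∈ linSys d p m, F ≠ 0 ∧ SmoothOnBlowup p m F) := by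
  classical
  have hpos : finrank ℂ (linSys d p m) ≠ 0 := by
    intro h2
    exact hne (Submodule.finrank_eq_zero.mp h2)
  have hsum := SM.sum_dropSimple m
  have hm : finrank ℂ (linSys d p m) = (d + 2).choose 2 - ∑ j, (m j + 1).choose 2 :=
    nine_nbr hp hB hu h3 hI3 hK (Or.inl fun i => le_rfl)
  have h0 : finrank ℂ (linSys d p (dropSimple m)) =
      (d + 2).choose 2 - ∑ j, (dropSimple m j + 1).choose 2 :=
    nine_nbr hp hB hu h3 hI3 hK (Or.inl (dropSimple_le m))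
  have hcomp : ∀ i ∉ I, 2 ≤ m i → finrank ℂ (linSys d p (dropSimple m)) =
      finrank ℂ (linSys d p (Function.update (dropSimple m) i (m i + 1))) + (m i + 1) := by
    intro i hi hmi
    have h1 : finrank ℂ (linSys d p (Function.update (dropSimple m) i (m i + 1))) =
        (d + 2).choose 2 - ∑ j, (Function.update (dropSimple m) i (m i + 1) j + 1).choose 2 := by
      refine nine_nbr hp hB hu h3 hI3 hK (Or.inr ⟨i, hi, ?_, fun j hj => ?_⟩)
      · rw [Function.update_self]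
      · rw [Function.update_of_ne hj]
        exact dropSimple_le m j
    have hyi : dropSimple m i = m i := by
      unfold dropSimple
      rw [if_neg (by omega)]
    have h2 := sum_update_succ (dropSimple m) i
    rw [hyi] at h2
    have h5 := hJ i hi hmi
    rw [h0, h1, h2]
    omega
  have hpair : ∀ i ∈ I, ∀ j ∈ I, i ≠ j → m i + m j ≤ d := by
    intro i hi j hj hij
    have h1 := Finset.sum_le_sum_of_subset (f := m)
      (Finset.insert_subset hi (Finset.singleton_subset_iff.mpr hj))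
    rw [Finset.sum_pair hij] at h1
    omega
  obtain ⟨a1, -, a3, a4⟩ := complete_final p hp m I hI (fun i hi h => hcomp i hi (by omega))
    (Or.inr ⟨hne, hpair, fun i hi h => hcomp i hi (by omega)⟩)
  exact ⟨a1, a3, a4⟩

end Pool.Agent.Work.MP_0421d9_ag
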