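import Pool.Agent.Work.MP_0421d9_ag.TWin

/-!
The two-scale square root window: if the points in `B` alone impose independent conditions and the
other points have multiplicities at most `u`, then for special nonempty systems the square roots of
the dimension and of the superabundance add up to at most `√(u M)`.
-/

set_option linter.unusedSectionVars false

namespace Pool.Agent.Work.MP_0421d9_ag

open MvPolynomial Module

section kk

variable {d : ℕ}

/-- the arithmetic of a step at a small point, the first part of the window moves -/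
theorem kq_tail {u M c e k' e' X S' δ t : ℕ} (huM : u ≤ M) (ht : 1 ≤ t) (hk : k' = c + t)
    (he : e = e' + t) (hu : k' + e' = u) (hX : u * X ≤ c * c * M) (hδ : δ ≤ e)
    (h : e' * (X + c) + k' * S' ≤ k' * e' * M) :
    e * X + c * (S' + δ) ≤ c * e * M := by
  subst hk he hu
  have hpos : 0 < c + t := by omega
  refine Nat.le_of_mul_le_mul_left ?_ hpos
  have h1 : c * (e' * (X + c) + (c + t) * S') ≤ c * ((c + t) * e' * M) :=
    Nat.mul_le_mul_left _ h
  have h2 : t * ((c + t + e') * X) ≤ t * (c * c * M) := Nat.mul_le_mul_left _ hX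
  have h3 : (c + t) * (c * δ) ≤ (c + t) * (c * (e' + t)) :=
    Nat.mul_le_mul_left _ (Nat.mul_le_mul_left _ hδ)
  have h4 : c * t * (c + t + e') ≤ c * t * (t * M) := by
    apply Nat.mul_le_mul_left
    calc c + t + e' ≤ M := huM
      _ ≤ t * M := Nat.le_mul_of_pos_left M ht
  calc (c + t) * ((e' + t) * X + c * (S' + δ))
      = t * ((c + t + e') * X) + (c * (e' * X + (c + t) * S')) + (c + t) * (c * δ) := by ring
    _ ≤ t * (c * c * M) + (c * (e' * X + (c + t) * S')) + (c + t) * (c * (e' + t)) := by
        gcongr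
    _ = t * (c * c * M) + (c * (e' * (X + c) + (c + t) * S')) + c * t * (c + t + e') := by ring
    _ ≤ t * (c * c * M) + c * ((c + t) * e' * M) + c * t * (t * M) := by
        gcongr
    _ = (c + t) * (c * (e' + t) * M) := by ring

/-- the arithmetic of a step at a large point, the first part of the window moves -/
theorem kq_big {u M c f e k' e' X S' δ t : ℕ} (ht : 1 ≤ t) (hk : k' = f + t)
    (he : e = e' + t) (hu : k' + e' = u) (hX : X ≤ f * c) (hδ : c + δ ≤ M)
    (hcu : c * u ≤ k' * M) (h : e' * (X + c) + k' * S' ≤ k' * e' * M) :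
    e * X + f * (S' + δ) ≤ f * e * M := by
  subst hk he hu
  have hpos : 0 < f + t := by omega
  refine Nat.le_of_mul_le_mul_left ?_ hpos
  obtain ⟨t', rfl⟩ : ∃ t', t = t' + 1 := ⟨t - 1, by omega⟩
  have h1 : f * (e' * (X + c) + (f + (t' + 1)) * S') ≤ f * ((f + (t' + 1)) * e' * M) :=
    Nat.mul_le_mul_left _ h
  have h2 : (t' + 1) * (f + (t' + 1) + e') * X ≤ (t' + 1) * (f + (t' + 1) + e') * (f * c) :=
    Nat.mul_le_mul_left _ hX
  have h3 : (f + (t' + 1)) * (f * (c + δ)) ≤ (f + (t' + 1)) * (f * M) :=
    Nat.mul_le_mul_left _ (Nat.mul_le_mul_left _ hδ)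
  have h4 : f * t' * (c * (f + (t' + 1) + e')) ≤ f * t' * ((f + (t' + 1)) * M) :=
    Nat.mul_le_mul_left _ hcu
  -- everything is added up
  have key : (f + (t' + 1)) * ((e' + (t' + 1)) * X + f * (S' + δ)) +
      (f * e' * c + f * (f + (t' + 1)) * c) ≤
      (f + (t' + 1)) * (f * (e' + (t' + 1)) * M) + (f * e' * c + f * (f + (t' + 1)) * c) := by
    calc (f + (t' + 1)) * ((e' + (t' + 1)) * X + f * (S' + δ)) +
          (f * e' * c + f * (f + (t' + 1)) * c)
        = f * (e' * (X + c) + (f + (t' + 1)) * S') + (t' + 1) * (f + (t' + 1) + e') * X +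
          (f + (t' + 1)) * (f * (c + δ)) := by ring
      _ ≤ f * ((f + (t' + 1)) * e' * M) + (t' + 1) * (f + (t' + 1) + e') * (f * c) +
          (f + (t' + 1)) * (f * M) := by gcongr
      _ = f * ((f + (t' + 1)) * e' * M) + (f + (t' + 1)) * (f * M) +
          f * t' * (c * (f + (t' + 1) + e')) + (f * e' * c + f * (f + (t' + 1)) * c) := by ring
      _ ≤ f * ((f + (t' + 1)) * e' * M) + (f + (t' + 1)) * (f * M) +
          f * t' * ((f + (t' + 1)) * M) + (f * e' * c + f * (f + (t' + 1)) * c) := by gcongr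
      _ = (f + (t' + 1)) * (f * (e' + (t' + 1)) * M) +
          (f * e' * c + f * (f + (t' + 1)) * c) := by ring
  exact Nat.le_of_add_le_add_right key

/-- **The two-scale square root window.** -/
theorem kq_aux {r : ℕ} {p : Fin r → V3} {E : Fin r → Fin 3 → Derivation ℚ ℂ ℂ}
    (hE : IsDual p E) (B : Finset (Fin r)) (u M : ℕ)
    (huM : u ≤ M) : ∀ (N : ℕ) (m : Fin r → ℕ) (S : ℕ), ∑ l, m l ≤ N →
    (∀ i, m i ≤ M) → (∀ i, i ∉ B → m i ≤ u) →
    finrank ℂ (linSys d p (onB B m)) + ∑ i, (onB B m i + 1).choose 2 = (d + 2).choose 2 →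
    finrank ℂ (linSys d p m) ≠ 0 →
    finrank ℂ (linSys d p m) + ∑ i, (m i + 1).choose 2 = (d + 2).choose 2 + S → 1 ≤ S →
    ∃ k e, 1 ≤ k ∧ 1 ≤ e ∧ k + e = u ∧
      e * finrank ℂ (linSys d p m) + k * S ≤ k * e * M := by
  intro N
  induction N with
  | zero =>
    intro m S hN hM hms hB hne hS hS1
    exfalso
    obtain ⟨i, hi, -⟩ := exists_defect (d := d) hE (m := m) (by omega)
    have := Finset.single_le_sum (f := m) (fun j _ => Nat.zero_le (m j)) (Finset.mem_univ i)
    omega
  | succ N ih =>
    intro m S hN hM hms hb hne hS hS1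
    have hd := le_of_finrank_pos hne
    obtain ⟨i, hi0, hci⟩ := exists_defect_above (d := d) hE (b := onB B m) (m := m) hb
      (fun l => by
        unfold onB
        split_ifs
        · exact le_rfl
        · exact Nat.zero_le _) (by omega)
    have hiB : i ∉ B := by
      intro h
      unfold onB at hi0
      rw [if_pos h] at hi0
      omega
    have hi : 1 ≤ m i := by omega
    set X := finrank ℂ (linSys d p m) with hX
    -- the dimension
    have hXK : ∀ K, (∀ l, 1 ≤ m l → cc d p (dn m l) l ≤ K) →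
        X ≤ cc d p (dn m i) i * K := by
      intro K hK
      have h1 := chain_all hE i K (cc d p (dn m i) i) (dn m i) le_rfl
        (by rw [dn_self]; exact hci) (by
        intro l hli hl
        rw [dn_ne _ hli] at hl
        rw [dn_comm m hli.symm, up_dn (by rw [dn_ne _ hli.symm]; exact hi)]
        exact hK l hl)
      rw [up_dn hi] at h1
      exact h1
    have hcle : ∀ l, 1 ≤ m l → cc d p (dn m l) l ≤ m l := by
      intro l hl
      have h1 := cc_le hE (y := dn m l) (fun l' => (dn_le m l l').trans (hd l')) l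
      rw [dn_self] at h1
      omega
    -- the largest value at the small points
    obtain ⟨t, ht, htmax⟩ := Finset.exists_max_image
      (Finset.univ.filter (fun x => x ∉ B ∧ 1 ≤ m x)) (fun x => cc d p (dn m x) x)
      ⟨i, Finset.mem_filter.mpr ⟨Finset.mem_univ _, hiB, hi⟩⟩
    rw [Finset.mem_filter] at ht
    obtain ⟨-, htB, ht1⟩ := ht
    have htmax' : ∀ l, l ∉ B → 1 ≤ m l → cc d p (dn m l) l ≤ cc d p (dn m t) t :=
      fun l hlB hl => htmax l (Finset.mem_filter.mpr ⟨Finset.mem_univ _, hlB, hl⟩)
    obtain ⟨ct, hct⟩ : ∃ ct, ct = cc d p (dn m t) t := ⟨_, rfl⟩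
    rw [← hct] at htmax'
    have hcit : cc d p (dn m i) i ≤ ct := htmax' i hiB hi
    have hctu : ct ≤ u := by
      rw [hct]
      exact (hcle t ht1).trans (hms t htB)
    have hct1 : 1 ≤ ct := by
      rcases Nat.eq_zero_or_pos ct with h0 | h0
      · have h1 : cc d p (dn m i) i = 0 := by omega
        have h2 := hXK (d + 1 + M) (fun l hl => by
          have := hcle l hl
          have := hM l
          omega)
        rw [h1, Nat.zero_mul] at h2
        omega
      · exact h0
    -- one step down
    have hstep : ∀ j, 1 ≤ m j → ∃ δ S', m j = cc d p (dn m j) j + δ ∧ S = S' + δ ∧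
        (1 ≤ S' → ∃ k e, 1 ≤ k ∧ 1 ≤ e ∧ k + e = u ∧
          e * (X + cc d p (dn m j) j) + k * S' ≤ k * e * M) := by
      intro j hj
      have hcj := hcle j hj
      have hX' : finrank ℂ (linSys d p (dn m j)) = X + cc d p (dn m j) j := by
        have h1 := cc_add (d := d) (p := p) (dn m j) j
        rw [up_dn hj] at h1
        exact h1
      have hsg : ∑ l, (m l + 1).choose 2 = ∑ l, (dn m j l + 1).choose 2 + m j := by
        have h1 := sum_choose_up (dn m j) j
        rw [up_dn hj, dn_self] at h1
        omega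
      have hchi := chi_le (d := d) (p := p) (m := dn m j)
        (fun l => ((dn_le m j l).trans (hd l)).trans (Nat.le_succ d))
      obtain ⟨δ, hδ⟩ : ∃ δ, m j = cc d p (dn m j) j + δ := ⟨m j - cc d p (dn m j) j, by omega⟩
      obtain ⟨S', hS'⟩ : ∃ S', S = S' + δ := ⟨S - δ, by omega⟩
      refine ⟨δ, S', hδ, hS', fun h0 => ?_⟩
      have hS'' : finrank ℂ (linSys d p (dn m j)) + ∑ l, (dn m j l + 1).choose 2 =
          (d + 2).choose 2 + S' := by omega
      have hsum : ∑ l, dn m j l ≤ N := by
        have h2 : ∑ l, dn m j l + 1 = ∑ l, m l := by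
          rw [← Finset.add_sum_erase _ _ (Finset.mem_univ j),
            ← Finset.add_sum_erase _ m (Finset.mem_univ j), dn_self]
          have h3 : ∑ l ∈ Finset.univ.erase j, dn m j l = ∑ l ∈ Finset.univ.erase j, m l := by
            refine Finset.sum_congr rfl (fun l hl => ?_)
            rw [dn_ne _ (Finset.ne_of_mem_erase hl)]
          omega
        omega
      have hle := ih (dn m j) S' hsum (fun l => (dn_le m j l).trans (hM l))
        (fun l hl => (dn_le m j l).trans (hms l hl)) (reg_le hE (∑ l, onB B m l) (onB B m) le_rfl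
          (onB_mono B (dn_le m j)) (fun l => (onB_le B m l).trans (hd l)) hb)
        (by omega) hS'' h0
      rw [hX'] at hle
      exact hle
    by_cases hcase : ∀ l, l ∈ B → 1 ≤ m l → cc d p (dn m l) l * u ≤ ct * M
    · -- a step at a small point
      have hXt : u * X ≤ ct * ct * M := by
        rcases Nat.eq_zero_or_pos u with hu0 | hu0
        · omega
        have h1 := hXK (ct * M / u) (fun l hl => by
          rw [Nat.le_div_iff_mul_le hu0]
          by_cases hlB : l ∈ B
          · exact hcase l hlB hl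
          · exact Nat.mul_le_mul (htmax' l hlB hl) huM)
        calc u * X ≤ u * (cc d p (dn m i) i * (ct * M / u)) := Nat.mul_le_mul_left _ h1
          _ = cc d p (dn m i) i * (ct * M / u * u) := by ring
          _ ≤ ct * (ct * M) := Nat.mul_le_mul hcit (Nat.div_mul_le_self _ _)
          _ = ct * ct * M := by ring
      obtain ⟨δ, S', hδ, hS', hind⟩ := hstep t ht1
      rw [← hct] at hδ hind
      have hmt := hms t htB
      rcases Nat.eq_zero_or_pos S' with h0 | h0
      · -- the next system is nonspecial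
        refine ⟨ct, u - ct, hct1, by omega, by omega, ?_⟩
        obtain ⟨e, he⟩ : ∃ e, u = ct + e := ⟨u - ct, by omega⟩
        have he1 : 1 ≤ e := by omega
        have e1 : u - ct = e := by omega
        have hSe : S ≤ e := by omega
        rw [e1]
        have hupos : 0 < u := by omega
        refine Nat.le_of_mul_le_mul_left ?_ hupos
        have h3 : ct * M + u ≤ u * M := by
          rw [he, Nat.add_mul]
          have : ct + e ≤ e * M := by
            calc ct + e = u := he.symm
              _ ≤ M := huM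
              _ ≤ e * M := Nat.le_mul_of_pos_left M he1
          omega
        calc u * (e * X + ct * S) = e * (u * X) + u * (ct * S) := by ring
          _ ≤ e * (ct * ct * M) + u * (ct * e) := by gcongr
          _ = ct * e * (ct * M + u) := by ring
          _ ≤ ct * e * (u * M) := Nat.mul_le_mul_left _ h3
          _ = u * (ct * e * M) := by ring
      · obtain ⟨k', e', hk', he', hke, hle⟩ := hind h0
        rcases Nat.lt_or_ge ct k' with h1 | h1
        · refine ⟨ct, u - ct, hct1, by omega, by omega, ?_⟩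
          rw [hS']
          exact kq_tail (t := k' - ct) huM (by omega) (by omega) (by omega) hke hXt (by omega) hle
        · refine ⟨k', e', hk', he', hke, ?_⟩
          have h2 : k' * δ ≤ e' * ct := by
            calc k' * δ ≤ ct * e' := Nat.mul_le_mul h1 (by omega)
              _ = e' * ct := Nat.mul_comm _ _
          calc e' * X + k' * S = e' * X + k' * S' + k' * δ := by rw [hS']; ring
            _ ≤ e' * X + k' * S' + e' * ct := Nat.add_le_add_left h2 _
            _ = e' * (X + ct) + k' * S' := by ring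
            _ ≤ _ := hle
    · -- a step at a large point
      push Not at hcase
      obtain ⟨l₀, hl₀B, hl₀, hl₀c⟩ := hcase
      obtain ⟨b, hb', hbmax⟩ := Finset.exists_max_image
        (Finset.univ.filter (fun x => x ∈ B ∧ 1 ≤ m x)) (fun x => cc d p (dn m x) x)
        ⟨l₀, Finset.mem_filter.mpr ⟨Finset.mem_univ _, hl₀B, hl₀⟩⟩
      rw [Finset.mem_filter] at hb'
      obtain ⟨-, hbB, hb1⟩ := hb'
      have hbmax' : ∀ l, l ∈ B → 1 ≤ m l → cc d p (dn m l) l ≤ cc d p (dn m b) b :=
        fun l hlB hl => hbmax l (Finset.mem_filter.mpr ⟨Finset.mem_univ _, hlB, hl⟩)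
      obtain ⟨c, hc⟩ : ∃ c, c = cc d p (dn m b) b := ⟨_, rfl⟩
      rw [← hc] at hbmax'
      have hcu : ct * M < c * u :=
        hl₀c.trans_le (Nat.mul_le_mul_right _ (hbmax' l₀ hl₀B hl₀))
      have hctc : ct ≤ c := by
        by_contra hcon
        push Not at hcon
        have h1 : c * u ≤ ct * M := Nat.mul_le_mul hcon.le huM
        omega
      have hXc : X ≤ ct * c := by
        have h1 := hXK c (fun l hl => by
          by_cases hlB : l ∈ B
          · exact hbmax' l hlB hl
          · exact (htmax' l hlB hl).trans hctc)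
        exact h1.trans (Nat.mul_le_mul_right _ hcit)
      obtain ⟨δ, S', hδ, hS', hind⟩ := hstep b hb1
      rw [← hc] at hδ hind
      have hmb := hM b
      have hM0 : 0 < M := by omega
      obtain ⟨f, hf⟩ : ∃ f, f = c * u / M := ⟨_, rfl⟩
      have hctf : ct ≤ f := by
        rw [hf, Nat.le_div_iff_mul_le hM0]
        exact hcu.le
      have hfM : f * M ≤ c * u := by
        rw [hf]
        exact Nat.div_mul_le_self _ _
      have hXf : X ≤ f * c := hXc.trans (Nat.mul_le_mul_right _ hctf)
      rcases Nat.eq_zero_or_pos S' with h0 | h0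
      · -- the next system is nonspecial
        have hcM : c < M := by omega
        have hfu : f < u := by
          by_contra hcon
          push Not at hcon
          have h1 : u * M ≤ f * M := Nat.mul_le_mul_right _ hcon
          have h2 : c * u < M * u := by
            apply Nat.mul_lt_mul_of_pos_right hcM
            omega
          have h3 : M * u = u * M := Nat.mul_comm _ _
          omega
        obtain ⟨e, he⟩ : ∃ e, u = f + (e + 1) := ⟨u - f - 1, by omega⟩
        refine ⟨f, e + 1, by omega, by omega, he.symm, ?_⟩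
        have hSM : c + S ≤ M := by omega
        have h1 : f * (c + S) ≤ f * M := Nat.mul_le_mul_left _ hSM
        have h2 : (e + 1) * X ≤ (e + 1) * (f * c) := Nat.mul_le_mul_left _ hXf
        have h3 : f * e * c ≤ f * e * M := Nat.mul_le_mul_left _ hcM.le
        calc (e + 1) * X + f * S ≤ (e + 1) * (f * c) + f * S := Nat.add_le_add_right h2 _
          _ = f * e * c + f * (c + S) := by ring
          _ ≤ f * e * M + f * M := Nat.add_le_add h3 h1
          _ = f * (e + 1) * M := by ring
      · obtain ⟨k', e', hk', he', hke, hle⟩ := hind h0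
        rcases Nat.lt_or_ge (c * u) (k' * M) with h1 | h1
        · have hfk : f < k' := by
            by_contra hcon
            push Not at hcon
            have h2 : k' * M ≤ f * M := Nat.mul_le_mul_right _ hcon
            omega
          refine ⟨f, u - f, by omega, by omega, by omega, ?_⟩
          rw [hS']
          exact kq_big (t := k' - f) (by omega) (by omega) (by omega) hke hXf (by omega) h1.le hle
        · refine ⟨k', e', hk', he', hke, ?_⟩
          have h2 : k' * δ ≤ e' * c := by
            have h3 : k' * (c + δ) ≤ k' * M := Nat.mul_le_mul_left _ (by omega)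
            have h4 : k' * M ≤ c * (k' + e') := by rw [hke]; exact h1
            have h5 : k' * (c + δ) = k' * c + k' * δ := by ring
            have h6 : c * (k' + e') = k' * c + e' * c := by ring
            omega
          calc e' * X + k' * S = e' * X + k' * S' + k' * δ := by rw [hS']; ring
            _ ≤ e' * X + k' * S' + e' * c := Nat.add_le_add_left h2 _
            _ = e' * (X + c) + k' * S' := by ring
            _ ≤ _ := hle

/-- **The two-scale square root window.** -/
theorem kq_window {r : ℕ} {p : Fin r → V3} (hp : GenericPoints p) {m : Fin r → ℕ} {u M : ℕ}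
    (huM : u ≤ M) (hM : ∀ i, m i ≤ M) (B : Finset (Fin r)) (hms : ∀ i, i ∉ B → m i ≤ u)
    (hB : finrank ℂ (linSys d p (onB B m)) + ∑ i, (onB B m i + 1).choose 2 = (d + 2).choose 2)
    (hne : linSys d p m ≠ ⊥)
    (h : finrank ℂ (linSys d p m) + ∑ i, (m i + 1).choose 2 ≠ (d + 2).choose 2) :
    ∃ k e S, 1 ≤ k ∧ 1 ≤ e ∧ k + e = u ∧ 1 ≤ S ∧
      finrank ℂ (linSys d p m) + ∑ i, (m i + 1).choose 2 = (d + 2).choose 2 + S ∧
      e * finrank ℂ (linSys d p m) + k * S ≤ k * e * M := by
  obtain ⟨E, hE⟩ := exists_dual p hp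
  have hfin : Module.Finite ℂ (linSys d p m) :=
    Submodule.finiteDimensional_of_le (linSys_le d p _)
  have hne' : finrank ℂ (linSys d p m) ≠ 0 := fun h0 =>
    hne (Submodule.finrank_eq_zero.mp h0)
  have h1 := chi_le (d := d) (p := p) (m := m)
    (fun i => (le_of_finrank_pos hne' i).trans (Nat.le_succ d))
  obtain ⟨S, hS⟩ : ∃ S, finrank ℂ (linSys d p m) + ∑ i, (m i + 1).choose 2 =
      (d + 2).choose 2 + S := ⟨_, (Nat.add_sub_cancel' h1).symm⟩
  have hS1 : 1 ≤ S := by omega
  obtain ⟨k, e, h2, h3, h4, h5⟩ := kq_aux hE B u M huM (∑ l, m l) m S le_rfl hM hms hB hne' hS hS1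
  exact ⟨k, e, S, h2, h3, h4, hS1, hS, h5⟩

/-- the dimension of a special system above a nonspecial one -/
theorem special_bound_above {ι : Type} [Fintype ι] [DecidableEq ι] {p : ι → V3}
    {E : ι → Fin 3 → Derivation ℚ ℂ ℂ} (hE : IsDual p E) {b m : ι → ℕ}
    (hb : finrank ℂ (linSys d p b) + ∑ i, (b i + 1).choose 2 = (d + 2).choose 2)
    (hbm : ∀ i, b i ≤ m i) (hpos : 0 < finrank ℂ (linSys d p m))
    (h : (d + 2).choose 2 < finrank ℂ (linSys d p m) + ∑ i, (m i + 1).choose 2) :
    ∃ i j, b i < m i ∧ i ≠ j ∧ finrank ℂ (linSys d p m) ≤ (m i - 1) * (m j - 1) := by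
  obtain ⟨y, i, hy, hby, hc⟩ := exists_incomplete_above hb (∑ i, m i) m le_rfl hbm h
  have h1 : finrank ℂ (linSys d p m) ≤ finrank ℂ (linSys d p (up y i)) :=
    Submodule.finrank_mono (linSys_mono hy)
  -- there is another point
  have hne : ∃ j, j ≠ i := by
    by_contra hcon
    push Not at hcon
    have := (finrank_le_of_incomplete hE hc (M := 0) (fun j hj => absurd (hcon j) hj)).1
    have h2 : finrank ℂ (linSys d p (up y i)) ≤ finrank ℂ (linSys d p y) :=
      Submodule.finrank_mono (linSys_mono (le_up y i))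
    omega
  obtain ⟨j₀, hj₀⟩ := hne
  obtain ⟨j, hj, hjmax⟩ := Finset.exists_max_image (Finset.univ.erase i) m
    ⟨j₀, Finset.mem_erase.mpr ⟨hj₀, Finset.mem_univ _⟩⟩
  have hji := Finset.ne_of_mem_erase hj
  have hyi := hy i
  rw [up_self] at hyi
  refine ⟨i, j, by have := hby i; omega, hji.symm, ?_⟩
  have h2 := (finrank_le_of_incomplete hE hc (M := m j) (fun l hl => by
    refine le_trans ?_ (hjmax l (Finset.mem_erase.mpr ⟨hl, Finset.mem_univ _⟩))
    have := hy l
    rwa [up_ne _ hl] at this)).2
  refine h1.trans (h2.trans ?_)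
  apply Nat.mul_le_mul_right
  omega

/-- the bound for `|χ|` -/
theorem kq_bound {X S k e u M : ℕ} (hk : 1 ≤ k) (he : 1 ≤ e) (hu : k + e = u) (huM : u ≤ M)
    (hS : 1 ≤ S) (h : e * X + k * S ≤ k * e * M) : X < S + (M - 1) * (u - 1) := by
  obtain ⟨f, rfl⟩ : ∃ f, e = f + 1 := ⟨e - 1, by omega⟩
  obtain ⟨g, rfl⟩ : ∃ g, M = k + f + 1 + g := ⟨M - (k + f + 1), by omega⟩
  have e1 : k + f + 1 + g - 1 = k + f + g := by omega
  have e2 : u - 1 = k + f := by omega
  rw [e1, e2]
  by_contra hcon
  push Not at hcon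
  have h1 : (f + 1) * (S + (k + f + g) * (k + f)) ≤ (f + 1) * X := Nat.mul_le_mul_left _ hcon
  have h2 : k * (f + 1) * (k + f + 1 + g) < (f + 1) * (S + (k + f + g) * (k + f)) + k * S := by
    obtain ⟨S', rfl⟩ : ∃ S', S = S' + 1 := ⟨S - 1, by omega⟩
    have h3 : 0 ≤ (f + 1) * S' + k * S' + f * f * (k + f + g) + f * (f + g) := Nat.zero_le _
    nlinarith [Nat.zero_le (f * f * g), Nat.zero_le (f * f * f), Nat.zero_le (f * f * k),
      Nat.zero_le (f * k), Nat.zero_le (f * g), Nat.zero_le (f * f), Nat.zero_le (k * S'),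
      Nat.zero_le (f * S')]
  omega

/-- all the systems outside of the window are nonspecial -/
theorem kq_nonspecial {r : ℕ} {p : Fin r → V3} (hp : GenericPoints p) {m : Fin r → ℕ} {u M : ℕ}
    (huM : u ≤ M) (hM : ∀ i, m i ≤ M) (B : Finset (Fin r)) (hms : ∀ i, i ∉ B → m i ≤ u)
    (hB : finrank ℂ (linSys d p (onB B m)) + ∑ i, (onB B m i + 1).choose 2 = (d + 2).choose 2)
    (h : (d + 2).choose 2 + (M - 1) * (u - 1) ≤ ∑ i, (m i + 1).choose 2 ∨
      ∑ i, (m i + 1).choose 2 + (M - 1) * (u - 1) ≤ (d + 2).choose 2) :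
    finrank ℂ (linSys d p m) = (d + 2).choose 2 - ∑ i, (m i + 1).choose 2 := by
  have hfin : Module.Finite ℂ (linSys d p m) :=
    Submodule.finiteDimensional_of_le (linSys_le d p _)
  by_cases hne : linSys d p m = ⊥
  · have h1 : finrank ℂ (linSys d p m) = 0 := by rw [hne, finrank_bot]
    rw [h1]
    -- the virtual dimension is not positive
    symm
    rw [Nat.sub_eq_zero_iff_le]
    by_contra hcon
    push Not at hcon
    by_cases hm : ∀ i, m i ≤ d + 1
    · have h2 := chi_le (d := d) (p := p) hm
      omega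
    · push Not at hm
      obtain ⟨i, hi⟩ := hm
      have h2 : (m i + 1).choose 2 ≤ ∑ i, (m i + 1).choose 2 :=
        Finset.single_le_sum (f := fun i => (m i + 1).choose 2) (fun _ _ => Nat.zero_le _)
          (Finset.mem_univ i)
      have h3 : (d + 2).choose 2 ≤ (m i + 1).choose 2 := Nat.choose_le_choose 2 (by omega)
      omega
  · have hpos : 1 ≤ finrank ℂ (linSys d p m) := by
      rw [Nat.one_le_iff_ne_zero]
      exact fun h0 => hne (Submodule.finrank_eq_zero.mp h0)
    by_cases hs : finrank ℂ (linSys d p m) + ∑ i, (m i + 1).choose 2 = (d + 2).choose 2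
    · omega
    · exfalso
      obtain ⟨k, e, S, hk, he, hke, hS, hS', hle⟩ := kq_window hp huM hM B hms hB hne hs
      have h1 := kq_bound hk he hke huM hS hle
      have h2 := kq_bound (X := S) (S := finrank ℂ (linSys d p m)) (k := e) (e := k) (u := u)
        (M := M) he hk (by omega) huM hpos (by rw [Nat.mul_comm e k]; omega)
      omega

theorem kq_sqrt_add_le {X S k e u M : ℕ} (hk : 1 ≤ k) (he : 1 ≤ e) (hu : k + e = u)
    (h : e * X + k * S ≤ k * e * M) : √(X : ℝ) + √(S : ℝ) ≤ √((u : ℝ) * M) := by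
  have hx := Real.sq_sqrt (Nat.cast_nonneg (α := ℝ) X)
  have hy := Real.sq_sqrt (Nat.cast_nonneg (α := ℝ) S)
  have hx0 := Real.sqrt_nonneg (X : ℝ)
  have hy0 := Real.sqrt_nonneg (S : ℝ)
  have hk' : (1 : ℝ) ≤ k := by exact_mod_cast hk
  have he' : (1 : ℝ) ≤ e := by exact_mod_cast he
  have hu' : (u : ℝ) = k + e := by rw [← hu]; push_cast; ring
  have h' : (e : ℝ) * X + k * S ≤ k * e * M := by exact_mod_cast h
  set x := √(X : ℝ)
  set y := √(S : ℝ)
  rw [← hx, ← hy] at h'
  apply Real.le_sqrt_of_sq_le
  have h1 : (k * e : ℝ) * (x + y) ^ 2 ≤ (k * e : ℝ) * ((u : ℝ) * M) := by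
    have h2 : (k * e : ℝ) * (x + y) ^ 2 = (u : ℝ) * (e * x ^ 2 + k * y ^ 2) -
        (e * x - k * y) ^ 2 := by rw [hu']; ring
    have h3 : (u : ℝ) * (e * x ^ 2 + k * y ^ 2) ≤ u * (k * e * M) :=
      mul_le_mul_of_nonneg_left h' (Nat.cast_nonneg u)
    nlinarith [sq_nonneg (e * x - k * y : ℝ)]
  have hke : (0 : ℝ) < k * e := by positivity
  exact le_of_mul_le_mul_left h1 hke

end kk

end Pool.Agent.Work.MP_0421d9_ag
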