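import Pool.Agent.Work.MP_0421d9_ag.JMain

/-!
Strips along rational curves through several multiple points.
-/

namespace Pool.Agent.Work.MP_0421d9_ag.LD

open MvPolynomial Module

/-- it suffices to treat the systems whose expected dimension is close to zero -/
theorem of_near {u D : ℕ} (hu : 1 ≤ u) (P : ∀ r : ℕ, (Fin r → ℕ) → Finset (Fin r) → Prop)
    (hsm : ∀ r y B, P r y B → ∀ i, i ∉ B → y i ≤ u)
    (hbase : ∀ r y B, P r y B → ∑ i ∈ B, (y i + 1).choose 2 ≤ (D + 2).choose 2)
    (hoff : ∀ r y B Q, P r y B → Q ⊆ offP B → P r (offF Q y) B)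
    (happ : ∀ r y B n, P r y B → P (r + n) (Fin.append y (fun _ : Fin n => u))
      (B.map (Fin.castAddEmb n)))
    (near : ∀ r y B, P r y B →
      (D + 2).choose 2 ≤ ∑ i, (y i + 1).choose 2 + (u + 1).choose 2 →
      ∑ i, (y i + 1).choose 2 ≤ (D + 2).choose 2 + (u + 1).choose 2 →
      hPm D y = (D + 2).choose 2 - ∑ i, (y i + 1).choose 2) {r : ℕ} {y : Fin r → ℕ}
    {B : Finset (Fin r)} (hP : P r y B) :
    hPm D y = (D + 2).choose 2 - ∑ i, (y i + 1).choose 2 := by
  classical
  obtain ⟨W, hW⟩ : ∃ W, W = (u + 1).choose 2 := ⟨_, rfl⟩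
  have hW1 : 1 ≤ W := by
    rw [hW]
    exact Nat.choose_pos (by omega)
  have hcount := hPm_count D y
  have hN := hbase r y B hP
  have hsum := sum_offP B (fun i => (y i + 1).choose 2)
  obtain ⟨T, hT⟩ : ∃ T, T = ∑ i, (y i + 1).choose 2 := ⟨_, rfl⟩
  obtain ⟨C, hC⟩ : ∃ C, C = (D + 2).choose 2 := ⟨_, rfl⟩
  rw [← hT, ← hC] at hcount ⊢
  rw [← hT] at hsum
  rw [← hC] at hN
  have hWs : ∀ i ∈ offP B, (y i + 1).choose 2 ≤ W := by
    intro i hi
    rw [hW]
    refine Nat.choose_le_choose 2 (Nat.succ_le_succ (hsm r y B hP i ?_))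
    unfold offP at hi
    exact (Finset.mem_filter.mp hi).2
  rcases Nat.lt_or_ge (C + W) T with h1 | h1
  · -- too many conditions: omit some points
    obtain ⟨R, hR, h2, h3⟩ := greedy (T := C - ∑ i ∈ B, (y i + 1).choose 2) (offP B) hWs (by omega)
    have hP' := hoff r y B (offP B \ R) hP Finset.sdiff_subset
    have h4 := sum_offF (offP B \ R) y
    have h5 := Finset.sum_sdiff (f := fun i => (y i + 1).choose 2) hR
    have h6 := near r _ B hP' (by omega) (by omega)
    have h7 : hPm D y ≤ hPm D (LD.offF (offP B \ R) y) := by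
      apply hPm_anti
      intro i
      unfold LD.offF
      split_ifs
      · exact Nat.zero_le _
      · exact le_rfl
    omega
  rcases Nat.lt_or_ge (T + W) C with h2 | h2
  · -- few conditions: further points
    have hdm := Nat.div_add_mod (C - T) W
    have hml := Nat.mod_lt (C - T) hW1
    obtain ⟨n, hn⟩ : ∃ n, n = (C - T) / W := ⟨_, rfl⟩
    rw [← hn] at hdm
    have e1 : n * W = W * n := Nat.mul_comm _ _
    have hP' := happ r y B n hP
    have h3 : ∑ i, (Fin.append y (fun _ : Fin n => u) i + 1).choose 2 = T + n * W := by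
      rw [sum_append y _ (fun x => (x + 1).choose 2), ← hT, hW]
      congr 1
      rw [Finset.sum_const, Finset.card_univ, Fintype.card_fin, smul_eq_mul]
    have h4 := near _ _ _ hP' (by rw [h3]; omega) (by rw [h3]; omega)
    rw [h3] at h4
    have h5 := hPm_append_le D y (fun _ : Fin n => u)
    have h6 : ∑ _j : Fin n, (u + 1).choose 2 = n * W := by
      rw [Finset.sum_const, Finset.card_univ, Fintype.card_fin, smul_eq_mul, hW]
    rw [h6] at h5
    omega
  · have h3 := near r y B hP (by omega) (by omega)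
    omega

/-- The system after the removal of `κ` rows: along a section through the points in `T` -/
def res {r : ℕ} (i₁ : Fin r) (T : Finset (Fin r)) (n κ : ℕ) (P : Finset (Fin r)) (y : Fin r → ℕ) :
    Fin r → ℕ :=
  fun i => if i = i₁ then y i - n * κ else if i ∈ T then y i - κ else offF P y i

theorem offF_of_not_mem {r : ℕ} {P : Finset (Fin r)} {y : Fin r → ℕ} {i : Fin r} (h : i ∉ P) :
    offF P y i = y i := by
  unfold offF
  rw [if_neg h]

theorem offF_of_mem {r : ℕ} {P : Finset (Fin r)} {y : Fin r → ℕ} {i : Fin r} (h : i ∈ P) :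
    offF P y i = 0 := by
  unfold offF
  rw [if_pos h]

theorem mem_offP {r : ℕ} {B : Finset (Fin r)} {i : Fin r} : i ∈ offP B ↔ i ∉ B := by
  unfold offP
  rw [Finset.mem_filter]
  exact ⟨fun h => h.2, fun h => ⟨Finset.mem_univ i, h⟩⟩

theorem res_self {r : ℕ} {i₁ : Fin r} {T : Finset (Fin r)} {n κ : ℕ} {P : Finset (Fin r)}
    {y : Fin r → ℕ} : res i₁ T n κ P y i₁ = y i₁ - n * κ := by
  unfold res
  rw [if_pos rfl]

theorem res_mem {r : ℕ} {i₁ i : Fin r} {T : Finset (Fin r)} {n κ : ℕ} {P : Finset (Fin r)}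
    {y : Fin r → ℕ} (h1 : i ≠ i₁) (h2 : i ∈ T) : res i₁ T n κ P y i = y i - κ := by
  unfold res
  rw [if_neg h1, if_pos h2]

theorem res_not_mem {r : ℕ} {i₁ i : Fin r} {T : Finset (Fin r)} {n κ : ℕ} {P : Finset (Fin r)}
    {y : Fin r → ℕ} (h1 : i ≠ i₁) (h2 : i ∉ T) : res i₁ T n κ P y i = offF P y i := by
  unfold res
  rw [if_neg h1, if_neg h2]

/-- **The step along a line through a multiple point `i₂`.** -/
theorem step_point {r u D : ℕ} {y : Fin r → ℕ} {B : Finset (Fin r)} {i₂ : Fin r} (hu : 1 ≤ u)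
    (hi₂ : i₂ ∈ B) (hsm : ∀ i, i ∉ B → y i ≤ u) (ha : u + 1 ≤ y i₂) (haD : y i₂ ≤ D)
    (hE : 2 * (u + 1) ^ 2 ≤ D - y i₂ + 1)
    (hN : ∑ i, (Function.update (offF (offP B) y) i₂ (y i₂ - (u + 1)) i + 1).choose 2 ≤
      (D - (u + 1) + 2).choose 2)
    (hn1 : (D + 2).choose 2 ≤ ∑ i, (y i + 1).choose 2 + (u + 1).choose 2)
    (hn2 : ∑ i, (y i + 1).choose 2 ≤ (D + 2).choose 2 + (u + 1).choose 2)
    (h1 : ∀ κ, (κ = u ∨ κ = u + 1) → ∀ P ⊆ offP B,
      hPm (D - κ) (Function.update (offF P y) i₂ (y i₂ - κ)) = (D - κ + 2).choose 2 -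
        ∑ i, (Function.update (offF P y) i₂ (y i₂ - κ) i + 1).choose 2) :
    hPm D y = (D + 2).choose 2 - ∑ i, (y i + 1).choose 2 := by
  classical
  obtain ⟨a, hya⟩ : ∃ a, y i₂ = a := ⟨_, rfl⟩
  rw [hya] at ha haD hE hN h1
  have hid1 := row_id (D := D) (a := a) (κ := u) (by omega) haD
  have hid2 := row_id (D := D) (a := a) (κ := u + 1) ha haD
  have e1 : (u + 1) * (D - a + 1) = u * (D - a + 1) + (D - a + 1) := by ring
  rw [e1] at hid2
  have hcb := choose_pred_bound u
  have hsum := sum_offF (offP B) y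
  have hWs : ∀ i ∈ offP B, (y i + 1).choose 2 ≤ (u + 1).choose 2 := by
    intro i hi
    rw [mem_offP] at hi
    exact Nat.choose_le_choose 2 (Nat.succ_le_succ (hsm i hi))
  have hupd : ∀ P ⊆ offP B, ∀ v : ℕ,
      ∑ i, (Function.update (offF P y) i₂ v i + 1).choose 2 + (a + 1).choose 2 =
        ∑ i, (offF P y i + 1).choose 2 + (v + 1).choose 2 := by
    intro P hP v
    have hi : i₂ ∉ P := fun h => by
      have := hP h
      rw [mem_offP] at this
      exact this hi₂
    rw [← Finset.add_sum_erase _ _ (Finset.mem_univ i₂),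
      ← Finset.add_sum_erase _ (fun i => (offF P y i + 1).choose 2) (Finset.mem_univ i₂),
      Function.update_self, offF_of_not_mem hi, hya]
    have g1 : ∑ i ∈ Finset.univ.erase i₂, (Function.update (offF P y) i₂ v i + 1).choose 2 =
        ∑ i ∈ Finset.univ.erase i₂, (offF P y i + 1).choose 2 :=
      Finset.sum_congr rfl (fun i hi => by
        rw [Function.update_of_ne (Finset.ne_of_mem_erase hi)])
    rw [g1]
    ring
  have hu0 := hupd (offP B) (Finset.Subset.refl _) (a - (u + 1))
  obtain ⟨P, hP, h3, h4⟩ := greedy (T := u * (D - a + 1) + ((u - 1).choose 2 + 1))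
    (offP B) hWs (by omega)
  obtain ⟨A, hA⟩ : ∃ A, ∑ i ∈ P, (y i + 1).choose 2 = u * (D - a + 1) + A :=
    ⟨∑ i ∈ P, (y i + 1).choose 2 - u * (D - a + 1), by omega⟩
  have hi : i₂ ∉ P := fun h => by
    have := hP h
    rw [mem_offP] at this
    exact this hi₂
  have hstrip := strip_point (D := D) (κ := u) (A := A) (y := y) i₂ P hi hu
    (by rw [hya]; exact ha) (by rw [hya]; exact haD)
    (fun i hi => by
      have := hP hi
      rw [mem_offP] at this
      exact hsm i this)
    (by rw [hya]; exact hA) (by omega) (by rw [hya]; omega)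
  rw [hya] at hstrip
  have hoffs := sum_offF P y
  have h5 := h1 u (Or.inl rfl) P hP
  have h6 := h1 (u + 1) (Or.inr rfl) P hP
  have h7 := hupd P hP (a - u)
  have h8 := hupd P hP (a - (u + 1))
  have hcount := hPm_count D y
  have k1 : D - u - 1 = D - (u + 1) := by omega
  have k2 : a - u - 1 = a - (u + 1) := by omega
  rw [k1, k2] at hstrip
  rcases le_max_iff.mp hstrip with h9 | h9 <;> omega

/-- **The step along a section through the points in `T`.** -/
theorem step_section {r u : ℕ} (hu : 1 ≤ u) {B : Finset (Fin r)} {i₁ i₂ : Fin r} (hi₁ : i₁ ∈ B)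
    (h21 : i₂ ≠ i₁) (n : ℕ) : ∀ {D c : ℕ} {y : Fin r → ℕ} {T : Finset (Fin r)},
    T.card = 2 * n + 1 → i₂ ∈ T → i₁ ∉ T → T ⊆ B → (∀ i, i ∉ B → y i ≤ u) → y i₁ + c = D →
    (∀ i ∈ T, u + 1 ≤ y i) → (∀ i ∈ T, y i ≤ c) → (∀ i ∈ T, ∀ j ∈ T, i ≠ j → y i + y j ≤ c) →
    n * (u + 1) ≤ y i₁ → 2 * (u + 1) ^ 2 ≤ y i₁ + 1 →
    ∑ i, (res i₁ T n (u + 1) (offP B) y i + 1).choose 2 ≤ (D - (n + 1) * (u + 1) + 2).choose 2 →
    (D + 2).choose 2 ≤ ∑ i, (y i + 1).choose 2 + (u + 1).choose 2 →
    ∑ i, (y i + 1).choose 2 ≤ (D + 2).choose 2 + (u + 1).choose 2 →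
    (∀ κ, (κ = u ∨ κ = u + 1) → ∀ P ⊆ offP B,
      hPm (D - (n + 1) * κ) (res i₁ T n κ P y) = (D - (n + 1) * κ + 2).choose 2 -
        ∑ i, (res i₁ T n κ P y i + 1).choose 2) →
    hPm D y = (D + 2).choose 2 - ∑ i, (y i + 1).choose 2 := by
  classical
  induction n with
  | zero =>
    intro D c y T hT h2T h1T hTB hsm hc hlo hhi hpair hn hM hN hn1 hn2 hres
    have hTe : T = {i₂} := by
      obtain ⟨x, hx⟩ := Finset.card_eq_one.mp (by omega : T.card = 1)
      rw [hx, Finset.mem_singleton] at h2T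
      rw [hx, h2T]
    have hr : ∀ κ P, P ⊆ offP B → res i₁ T 0 κ P y =
        Function.update (offF P y) i₂ (y i₂ - κ) := by
      intro κ P hP
      funext i
      by_cases g1 : i = i₁
      · subst g1
        rw [res_self, Function.update_of_ne (Ne.symm h21), offF_of_not_mem (fun h => by
          have := hP h
          rw [mem_offP] at this
          exact this hi₁), Nat.zero_mul, Nat.sub_zero]
      · by_cases g2 : i = i₂
        · subst g2
          rw [res_mem g1 h2T, Function.update_self]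
        · rw [res_not_mem g1 (by rw [hTe, Finset.mem_singleton]; exact g2),
            Function.update_of_ne g2]
    have g1 := hlo i₂ h2T
    have g2 := hhi i₂ h2T
    rw [hr _ _ (Finset.Subset.refl _)] at hN
    refine step_point hu (hTB h2T) hsm g1 (by omega) (by omega) (by simpa using hN) hn1 hn2 ?_
    intro κ hκ P hP
    have g3 := hres κ hκ P hP
    rw [hr _ _ hP] at g3
    simpa using g3
  | succ n ih =>
    intro D c y T hT h2T h1T hTB hsm hc hlo hhi hpair hn hM hN hn1 hn2 hres
    -- two further points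
    obtain ⟨j, hj⟩ : (T.erase i₂).Nonempty := by
      rw [← Finset.card_pos, Finset.card_erase_of_mem h2T]
      omega
    obtain ⟨k, hk⟩ : ((T.erase i₂).erase j).Nonempty := by
      rw [← Finset.card_pos, Finset.card_erase_of_mem hj, Finset.card_erase_of_mem h2T]
      omega
    rw [Finset.mem_erase] at hj hk
    obtain ⟨hj2, hjT⟩ := hj
    obtain ⟨hkj, hk⟩ := hk
    rw [Finset.mem_erase] at hk
    obtain ⟨hk2, hkT⟩ := hk
    have hj1 : j ≠ i₁ := fun h => h1T (h ▸ hjT)
    have hk1 : k ≠ i₁ := fun h => h1T (h ▸ hkT)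
    obtain ⟨T', hT'⟩ : ∃ T', T' = (T.erase j).erase k := ⟨_, rfl⟩
    have hT'm : ∀ i, i ∈ T' ↔ i ≠ j ∧ i ≠ k ∧ i ∈ T := by
      intro i
      rw [hT', Finset.mem_erase, Finset.mem_erase]
      tauto
    have hkTj : k ∈ T.erase j := Finset.mem_erase.mpr ⟨hkj, hkT⟩
    have hT'c : T'.card = 2 * n + 1 := by
      rw [hT', Finset.card_erase_of_mem hkTj, Finset.card_erase_of_mem hjT]
      omega
    have pj := hlo j hjT
    have pk := hlo k hkT
    have pjk := hpair j hjT k hkT (Ne.symm hkj)
    obtain ⟨s, hs⟩ : ∃ s, s = c - y j - y k := ⟨_, rfl⟩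
    obtain ⟨z, hz⟩ : ∃ z : Fin r → ℕ, z = Function.update (Function.update (Function.update y i₁
      (y i₁ + s)) j (c - y k)) k (c - y j) := ⟨_, rfl⟩
    have z1 : z i₁ = y i₁ + s := by
      rw [hz, Function.update_of_ne (Ne.symm hk1), Function.update_of_ne (Ne.symm hj1),
        Function.update_self]
    have zj : z j = c - y k := by
      rw [hz, Function.update_of_ne (Ne.symm hkj), Function.update_self]
    have zk : z k = c - y j := by
      rw [hz, Function.update_self]
    have zo : ∀ i, i ≠ i₁ → i ≠ j → i ≠ k → z i = y i := by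
      intro i g1 g2 g3
      rw [hz, Function.update_of_ne g3, Function.update_of_ne g2, Function.update_of_ne g1]
    have hQ : Quadratic (D, y) (D + s, z) := by
      refine ⟨i₁, j, k, Ne.symm hj1, Ne.symm hk1, Ne.symm hkj, ?_, ?_, ?_, ?_, ?_, ?_, ?_, ?_, ?_,
        ?_, ?_⟩
      · change y i₁ ≤ D
        omega
      · change y j ≤ D
        omega
      · change y k ≤ D
        omega
      · change y i₁ + y j ≤ D + 1
        omega
      · change y i₁ + y k ≤ D + 1
        omega
      · change y j + y k ≤ D + 1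
        omega
      · change D + s + y i₁ + y j + y k = 2 * D
        omega
      · change z i₁ = D - y j - y k
        rw [z1]
        omega
      · change z j = D - y i₁ - y k
        rw [zj]
        omega
      · change z k = D - y i₁ - y j
        rw [zk]
        omega
      · intro i g1 g2 g3
        exact zo i g1 g2 g3
    have hzc := hQ.count
    dsimp only at hzc
    have hT'z : ∀ i ∈ T', z i = y i ∧ i ∈ T := by
      intro i hi
      rw [hT'm] at hi
      exact ⟨zo i (fun h => h1T (h ▸ hi.2.2)) hi.1 hi.2.1, hi.2.2⟩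
    have hnk : ∀ κ, (κ = u ∨ κ = u + 1) → κ ≤ u + 1 ∧ (n + 1) * κ ≤ y i₁ := by
      rintro κ (rfl | rfl)
      · refine ⟨by omega, le_trans (Nat.mul_le_mul_left _ (Nat.le_succ _)) hn⟩
      · exact ⟨le_rfl, hn⟩
    have hQ2 : ∀ κ, (κ = u ∨ κ = u + 1) → ∀ P ⊆ offP B,
        Quadratic (D + s - (n + 1) * κ, res i₁ T' n κ P z)
          (D - (n + 1 + 1) * κ, res i₁ T (n + 1) κ P y) := by
      intro κ hκ P hP
      obtain ⟨hκu, hκM⟩ := hnk κ hκ
      have e1 : (n + 1) * κ = n * κ + κ := by ring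
      have e2 : (n + 1 + 1) * κ = n * κ + κ + κ := by ring
      have hPj : j ∉ P := fun h => by
        have := hP h
        rw [mem_offP] at this
        exact this (hTB hjT)
      have hPk : k ∉ P := fun h => by
        have := hP h
        rw [mem_offP] at this
        exact this (hTB hkT)
      have x1 : res i₁ T' n κ P z i₁ = y i₁ + s - n * κ := by rw [res_self, z1]
      have xj : res i₁ T' n κ P z j = c - y k := by
        rw [res_not_mem hj1 (by rw [hT'm]; simp), offF_of_not_mem hPj, zj]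
      have xk : res i₁ T' n κ P z k = c - y j := by
        rw [res_not_mem hk1 (by rw [hT'm]; simp), offF_of_not_mem hPk, zk]
      have w1 : res i₁ T (n + 1) κ P y i₁ = y i₁ - (n * κ + κ) := by rw [res_self, e1]
      have wj : res i₁ T (n + 1) κ P y j = y j - κ := res_mem hj1 hjT
      have wk : res i₁ T (n + 1) κ P y k = y k - κ := res_mem hk1 hkT
      rw [e1] at hκM
      refine ⟨i₁, j, k, Ne.symm hj1, Ne.symm hk1, Ne.symm hkj, ?_, ?_, ?_, ?_, ?_, ?_, ?_, ?_, ?_,
        ?_, ?_⟩
      · change res i₁ T' n κ P z i₁ ≤ D + s - (n + 1) * κ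
        rw [x1, e1]
        omega
      · change res i₁ T' n κ P z j ≤ D + s - (n + 1) * κ
        rw [xj, e1]
        omega
      · change res i₁ T' n κ P z k ≤ D + s - (n + 1) * κ
        rw [xk, e1]
        omega
      · change res i₁ T' n κ P z i₁ + res i₁ T' n κ P z j ≤ D + s - (n + 1) * κ + 1
        rw [x1, xj, e1]
        omega
      · change res i₁ T' n κ P z i₁ + res i₁ T' n κ P z k ≤ D + s - (n + 1) * κ + 1
        rw [x1, xk, e1]
        omega
      · change res i₁ T' n κ P z j + res i₁ T' n κ P z k ≤ D + s - (n + 1) * κ + 1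
        rw [xj, xk, e1]
        omega
      · change D - (n + 1 + 1) * κ + res i₁ T' n κ P z i₁ + res i₁ T' n κ P z j +
          res i₁ T' n κ P z k = 2 * (D + s - (n + 1) * κ)
        rw [x1, xj, xk, e1, e2]
        omega
      · change res i₁ T (n + 1) κ P y i₁ = D + s - (n + 1) * κ - res i₁ T' n κ P z j -
          res i₁ T' n κ P z k
        rw [w1, xj, xk, e1]
        omega
      · change res i₁ T (n + 1) κ P y j = D + s - (n + 1) * κ - res i₁ T' n κ P z i₁ -
          res i₁ T' n κ P z k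
        rw [wj, x1, xk, e1]
        omega
      · change res i₁ T (n + 1) κ P y k = D + s - (n + 1) * κ - res i₁ T' n κ P z i₁ -
          res i₁ T' n κ P z j
        rw [wk, x1, xj, e1]
        omega
      · intro i g1 g2 g3
        change res i₁ T (n + 1) κ P y i = res i₁ T' n κ P z i
        by_cases g4 : i ∈ T
        · rw [res_mem g1 g4, res_mem g1 ((hT'm i).mpr ⟨g2, g3, g4⟩), zo i g1 g2 g3]
        · rw [res_not_mem g1 g4, res_not_mem g1 (fun h => g4 ((hT'm i).mp h).2.2)]
          unfold offF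
          rw [zo i g1 g2 g3]
    have hmain : hPm (D + s) z = (D + s + 2).choose 2 - ∑ i, (z i + 1).choose 2 := by
      have hnn : n * (u + 1) ≤ (n + 1) * (u + 1) := Nat.mul_le_mul_right _ (Nat.le_succ n)
      have hN2 := (hQ2 (u + 1) (Or.inr rfl) (offP B) (Finset.Subset.refl _)).count
      dsimp only at hN2
      refine ih (D := D + s) (c := c) (y := z) (T := T') hT'c ((hT'm i₂).mpr
        ⟨Ne.symm hj2, Ne.symm hk2, h2T⟩) (fun h => h1T ((hT'm i₁).mp h).2.2)
        (fun i hi => hTB ((hT'm i).mp hi).2.2) (fun i hi => ?_) (by rw [z1]; omega)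
        (fun i hi => ?_) (fun i hi => ?_) (fun i hi l hl hil => ?_) (by rw [z1]; omega)
        (by rw [z1]; omega) (by omega) (by omega) (by omega) (fun κ hκ P hP => ?_)
      · rw [zo i (fun h => hi (h ▸ hi₁)) (fun h => hi (h ▸ hTB hjT)) (fun h => hi (h ▸ hTB hkT))]
        exact hsm i hi
      · rw [(hT'z i hi).1]
        exact hlo i (hT'z i hi).2
      · rw [(hT'z i hi).1]
        exact hhi i (hT'z i hi).2
      · rw [(hT'z i hi).1, (hT'z l hl).1]
        exact hpair i (hT'z i hi).2 l (hT'z l hl).2 hil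
      · exact Quadratic.nonspecial (Relation.ReflTransGen.single (hQ2 κ hκ P hP))
          (hres κ hκ P hP)
    exact Quadratic.nonspecial (Relation.ReflTransGen.single hQ) hmain

end Pool.Agent.Work.MP_0421d9_ag.LD
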