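import Pool.Agent.Work.MP_0421d9_ag.KNine

/-!
Nine points of arbitrary multiplicities: the window for arbitrary multiplicities of the other
points.
-/

namespace Pool.Agent.Work.MP_0421d9_ag.LD

open MvPolynomial Module

/-- at most nine points with `m i + m j + m k ≤ d` and `∑ m i < 3 d` impose independent
conditions -/
theorem nine_regular {r d : ℕ} {m : Fin r → ℕ} {B : Finset (Fin r)} (hB : B.card ≤ 9)
    (h3 : ∀ J : Finset (Fin r), J.card ≤ 3 → ∑ i ∈ J, m i ≤ d)
    (hK : ∑ i ∈ B, m i < 3 * d) :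
    hPm d (onB B m) + ∑ i ∈ B, (m i + 1).choose 2 = (d + 2).choose 2 := by
  classical
  obtain ⟨y, hy⟩ : ∃ y : Fin (r + 9) → ℕ, y = Fin.append (onB B m) (fun _ : Fin 9 => 0) := ⟨_, rfl⟩
  have hyl : ∀ i, y (Fin.castAdd 9 i) = onB B m i := fun i => by rw [hy, Fin.append_left]
  have hyr : ∀ j, y (Fin.natAdd r j) = 0 := fun j => by rw [hy, Fin.append_right]
  obtain ⟨Z, hZ⟩ : ∃ Z : Finset (Fin 9), Z.card = 9 - B.card := by
    obtain ⟨Z, -, hZ⟩ := Finset.exists_subset_card_eq (s := (Finset.univ : Finset (Fin 9)))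
      (n := 9 - B.card) (by rw [Finset.card_univ, Fintype.card_fin]; omega)
    exact ⟨Z, hZ⟩
  obtain ⟨J, hJ⟩ : ∃ J : Finset (Fin (r + 9)), J = B.map (Fin.castAddEmb 9) ∪
    Z.map (Fin.natAddEmb r) := ⟨_, rfl⟩
  have hdisj : Disjoint (B.map (Fin.castAddEmb 9)) (Z.map (Fin.natAddEmb r)) := by
    rw [Finset.disjoint_left]
    intro a ha hb
    rw [Finset.mem_map] at ha hb
    obtain ⟨i, -, hi⟩ := ha
    obtain ⟨j, -, hj⟩ := hb
    have h1 := congrArg Fin.val (hi.trans hj.symm)
    have h2 : (Fin.castAddEmb 9 i : Fin (r + 9)).1 = i.1 := rfl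
    have h3 : (Fin.natAddEmb r j : Fin (r + 9)).1 = r + j.1 := rfl
    have h4 := i.2
    omega
  have hJ9 : J.card = 9 := by
    rw [hJ, Finset.card_union_of_disjoint hdisj, Finset.card_map, Finset.card_map, hZ]
    omega
  have hsumJ : ∑ i ∈ J, y i = ∑ i ∈ B, m i := by
    rw [hJ, Finset.sum_union hdisj, Finset.sum_map, Finset.sum_map]
    have h1 : ∑ x ∈ Z, y (Fin.natAddEmb r x) = 0 := Finset.sum_eq_zero (fun j _ => hyr j)
    rw [h1, Nat.add_zero]
    exact Finset.sum_congr rfl (fun i hi => (hyl i).trans (if_pos hi))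
  obtain ⟨e, he, hJe⟩ := exists_embed hJ9
  have hyJ : onB J y = y := by
    funext i
    unfold onB
    split_ifs with hi
    · rfl
    · revert hi
      refine Fin.addCases (fun j hj => ?_) (fun j _ => (hyr j).symm) i
      rw [hyl]
      unfold onB
      rw [if_neg]
      intro h1
      apply hj
      rw [hJ, Finset.mem_union]
      exact Or.inl (Finset.mem_map_of_mem (Fin.castAddEmb 9) h1)
  -- sums over three indices
  have hle : ∀ i, onB B m i ≤ m i := onB_le B m
  have hthree : ∀ K : Finset (Fin (r + 9)), K.card ≤ 3 → ∑ i ∈ K, y i ≤ d := by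
    intro K hKc
    obtain ⟨K', hK'⟩ : ∃ K' : Finset (Fin r), K' = Finset.univ.filter
      (fun i => Fin.castAdd 9 i ∈ K) := ⟨_, rfl⟩
    have hsub : K'.map (Fin.castAddEmb 9) ⊆ K := by
      intro x hx
      rw [Finset.mem_map] at hx
      obtain ⟨i, hi, rfl⟩ := hx
      rw [hK', Finset.mem_filter] at hi
      exact hi.2
    have h1 : ∑ i ∈ K, y i = ∑ i ∈ K'.map (Fin.castAddEmb 9), y i := by
      symm
      apply Finset.sum_subset hsub
      intro x hx
      revert hx
      refine Fin.addCases (fun j hj hj' => ?_) (fun j _ _ => hyr j) x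
      exfalso
      apply hj'
      refine Finset.mem_map_of_mem (Fin.castAddEmb 9) ?_
      rw [hK', Finset.mem_filter]
      exact ⟨Finset.mem_univ j, hj⟩
    rw [h1, Finset.sum_map]
    have h2 : K'.card ≤ 3 := by
      have := Finset.card_le_card hsub
      rw [Finset.card_map] at this
      omega
    refine le_trans (Finset.sum_le_sum (fun i _ => ?_)) (h3 K' h2)
    exact (hyl i).le.trans (hle i)
  have hsum9 : ∑ i ∈ B, m i = ∑ i, (y ∘ e) i := by
    rw [← hsumJ]
    exact sum_embed y he hJe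
  have hN : NefE d (y ∘ e) := by
    intro E c hc
    have h1 := exc_bound (D := d) (τ := 0) (a := y ∘ e) (fun i j k g1 g2 g3 => by
      have h2 : ({e i, e j, e k} : Finset (Fin (r + 9))).card = 3 :=
        Finset.card_eq_three.mpr ⟨e i, e j, e k, fun h => g1 (he h), fun h => g2 (he h),
          fun h => g3 (he h), rfl⟩
      have h4 := hthree {e i, e j, e k} (by rw [h2])
      rw [Finset.sum_insert, Finset.sum_pair (fun h => g3 (he h))] at h4
      · change y (e i) + y (e j) + y (e k) ≤ d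
        omega
      · rw [Finset.mem_insert, Finset.mem_singleton, not_or]
        exact ⟨fun h => g1 (he h), fun h => g2 (he h)⟩) (fun i j g1 => by
      have h2 := Finset.card_pair (fun h => g1 (he h) : e i ≠ e j)
      have h4 := hthree {e i, e j} (by rw [h2]; omega)
      rw [Finset.sum_pair (fun h => g1 (he h))] at h4
      exact h4) (by
      rw [← hsum9]
      omega) hc
    simpa using h1
  have hreg := nefE_regular d _ hN (by
    rw [← hsum9]
    omega)
  have h4 := onB_embed (D := d) (gpt_generic (r + 9)) y he hJe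
  rw [hyJ] at h4
  have h5 : ∑ i, ((y ∘ e) i + 1).choose 2 = ∑ i ∈ B, (m i + 1).choose 2 := by
    have h6 := sum_embed (fun i => (y i + 1).choose 2) he hJe
    change ∑ i, (y (e i) + 1).choose 2 = _
    rw [← h6, ← sum_onB, hyJ, hy, sum_append (onB B m) _ (fun x => (x + 1).choose 2), sum_onB]
    have h7 : ∑ _j : Fin 9, (0 + 1).choose 2 = 0 := Finset.sum_eq_zero (fun _ _ => rfl)
    rw [h7, Nat.add_zero]
  rw [h5, ← h4] at hreg
  change hPm d y + _ = _ at hreg
  rw [hy, hPm_append_zero] at hreg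
  exact hreg

/-- **Window theorem.** -/
theorem nine_window {r u M d : ℕ} {m : Fin r → ℕ} {B : Finset (Fin r)} (hB : B.card ≤ 9)
    (hms : ∀ i, i ∉ B → m i ≤ u) (hM : ∀ i, m i ≤ M)
    (h3 : ∀ J : Finset (Fin r), J.card ≤ 3 → ∑ i ∈ J, m i ≤ d) (hK : ∑ i ∈ B, m i < 3 * d)
    (hw : (d + 2).choose 2 + 3 * (u * M) ≤ ∑ i, (m i + 1).choose 2 ∨
      ∑ i, (m i + 1).choose 2 + 3 * (u * M) ≤ (d + 2).choose 2) :
    hPm d m = (d + 2).choose 2 - ∑ i, (m i + 1).choose 2 := by
  classical
  have hreg := nine_regular hB h3 hK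
  rcases Nat.eq_zero_or_pos (min u M) with h0 | h0
  · have h1 : ∀ i, i ∉ B → m i = 0 := by
      intro i hi
      have := hms i hi
      have := hM i
      omega
    have h2 : onB B m = m := by
      funext i
      unfold onB
      split_ifs with hi
      · rfl
      · exact (h1 i hi).symm
    have h4 : ∑ i ∈ B, (m i + 1).choose 2 = ∑ i, (m i + 1).choose 2 := by
      rw [← sum_onB, h2]
    rw [h2, h4] at hreg
    omega
  obtain ⟨v, hv⟩ : ∃ v, v = min u M := ⟨_, rfl⟩
  have hvM : v * M ≤ u * M := Nat.mul_le_mul_right M (by omega)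
  have hmv : ∀ i, i ∉ B → m i ≤ v := fun i hi => by
    have := hms i hi
    have := hM i
    omega
  rw [← sum_onB] at hreg
  rcases hw with hw | hw
  · by_contra hcon
    have h1 : linSys d (gpt r) m ≠ ⊥ := by
      intro h1
      apply hcon
      unfold hPm
      rw [h1, finrank_bot]
      omega
    have h2 : finrank ℂ (linSys d (gpt r) m) ≠ 0 := fun h => h1 (Submodule.finrank_eq_zero.mp h)
    have h3 : 1 ≤ v * M := Nat.mul_pos (by omega) (by omega)
    obtain ⟨S, hS1, hS2, hS3⟩ := two_window (gpt_generic r) (m := m) (u := v) (M := M) (by omega)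
      (by omega) hM B hmv hreg h1 (by omega)
    omega
  · have h1 := tr_regular (u := v) (M := M) B (by omega) (by omega) hM hmv hreg (by omega)
    omega

end Pool.Agent.Work.MP_0421d9_ag.LD
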