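import Pool.Agent.Work.MP_0421d9_ag.LGen

/-!
Explicit conditions for the independence of the conditions.
-/

namespace Pool.Agent.Work.MP_0421d9_ag.LD

open MvPolynomial Module

/-- the degree is large compared to the multiplicities in `B` and their sums in pairs; if `B` has
more than three elements, then the system with these multiplicities is reduced, and has a large
intersection with the anticanonical class -/
def Apt {r : ℕ} (t d : ℕ) (m : Fin r → ℕ) (B : Finset (Fin r)) : Prop :=
  (∀ J ⊆ B, J.card ≤ 2 → ∑ i ∈ J, m i + t ≤ d) ∧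
    (B.card ≤ 3 ∨ ((∀ J ⊆ B, J.card ≤ 3 → ∑ i ∈ J, m i ≤ d) ∧ ∑ i ∈ B, m i + 9 * t ≤ 3 * d))

section Apt

variable {r t d : ℕ} {m : Fin r → ℕ} {B : Finset (Fin r)}

theorem Apt.t0 (h : Apt t d m B) : t ≤ d := by
  have h1 := h.1 ∅ (Finset.empty_subset _) (by simp)
  rw [Finset.sum_empty] at h1
  omega

theorem Apt.t1 (h : Apt t d m B) {i : Fin r} (hi : i ∈ B) : m i + t ≤ d := by
  have h1 := h.1 {i} (Finset.singleton_subset_iff.mpr hi) (by rw [Finset.card_singleton]; omega)
  rw [Finset.sum_singleton] at h1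
  exact h1

theorem Apt.t2 (h : Apt t d m B) {i j : Fin r} (hi : i ∈ B) (hj : j ∈ B) (hij : i ≠ j) :
    m i + m j + t ≤ d := by
  have h1 := h.1 {i, j} (fun l hl => by
    rcases Finset.mem_insert.mp hl with hl | hl
    · rw [hl]
      exact hi
    · rw [Finset.mem_singleton.mp hl]
      exact hj) (by rw [Finset.card_pair hij])
  rw [Finset.sum_pair hij] at h1
  exact h1

theorem Apt.mono (h : Apt t d m B) {m' : Fin r → ℕ} (hm : ∀ i ∈ B, m' i ≤ m i) :
    Apt t d m' B := by
  have hs : ∀ J ⊆ B, ∑ i ∈ J, m' i ≤ ∑ i ∈ J, m i := fun J hJ =>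
    Finset.sum_le_sum (fun i hi => hm i (hJ hi))
  refine ⟨fun J hJ hc => ?_, ?_⟩
  · have h1 := h.1 J hJ hc
    have h2 := hs J hJ
    omega
  · rcases h.2 with h2 | ⟨h2, h3⟩
    · exact Or.inl h2
    · refine Or.inr ⟨fun J hJ hc => ?_, ?_⟩
      · exact (hs J hJ).trans (h2 J hJ hc)
      · have h4 := hs B (Finset.Subset.refl B)
        omega

theorem Apt.anti (h : Apt t d m B) {t' : ℕ} (ht : t' ≤ t) : Apt t' d m B := by
  refine ⟨fun J hJ hc => ?_, ?_⟩
  · have h1 := h.1 J hJ hc
    omega
  · rcases h.2 with h2 | ⟨h2, h3⟩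
    · exact Or.inl h2
    · exact Or.inr ⟨h2, by omega⟩

theorem Apt.pad (h : Apt t d m B) :
    Apt t d (Fin.append m (fun _ : Fin 3 => 0)) (B.map (Fin.castAddEmb 3)) := by
  classical
  have hs : ∀ J : Finset (Fin r), ∑ x ∈ J.map (Fin.castAddEmb 3),
      Fin.append m (fun _ : Fin 3 => 0) x = ∑ x ∈ J, m x := fun J => by
    rw [Finset.sum_map]
    exact Finset.sum_congr rfl (fun x _ => Fin.append_left m _ x)
  refine ⟨fun J hJ hc => ?_, ?_⟩
  · obtain ⟨J', hJ', rfl⟩ := Finset.subset_map_iff.mp hJ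
    rw [Finset.card_map] at hc
    rw [hs]
    exact h.1 J' hJ' hc
  · rcases h.2 with h2 | ⟨h2, h3⟩
    · left
      rw [Finset.card_map]
      exact h2
    · refine Or.inr ⟨fun J hJ hc => ?_, ?_⟩
      · obtain ⟨J', hJ', rfl⟩ := Finset.subset_map_iff.mp hJ
        rw [Finset.card_map] at hc
        rw [hs]
        exact h2 J' hJ' hc
      · rw [hs]
        exact h3

/-- at most three points -/
theorem three_of_card (hr : 3 ≤ r) (hB : B.card ≤ 3) :
    ∃ i j k : Fin r, i ≠ j ∧ i ≠ k ∧ j ≠ k ∧ B ⊆ {i, j, k} := by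
  classical
  obtain ⟨B', h1, h2⟩ := Finset.exists_superset_card_eq hB (by rw [Fintype.card_fin]; exact hr)
  obtain ⟨i, j, k, hij, hik, hjk, rfl⟩ := Finset.card_eq_three.mp h2
  exact ⟨i, j, k, hij, hik, hjk, h1⟩

theorem Apt.pairs (h : Apt t d m B) (i j : Fin r) (hij : i ≠ j) :
    onB B m i + onB B m j + t ≤ d := by
  have h0 := h.t0
  unfold onB
  split_ifs with h1 h2 h2
  · exact h.t2 h1 h2 hij
  · have := h.t1 h1
    omega
  · have := h.t1 h2
    omega
  · omega

theorem sum_three_of_sub {i j k : Fin r} (hij : i ≠ j) (hik : i ≠ k) (hjk : j ≠ k)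
    (hB : B ⊆ {i, j, k}) (f : Fin r → ℤ) (hf : ∀ l, l ∉ B → f l = 0) :
    ∑ l, f l = f i + f j + f k := by
  classical
  rw [← Finset.sum_subset (Finset.subset_univ ({i, j, k} : Finset (Fin r))) (fun l _ hl =>
    hf l (fun h => hl (hB h))), Finset.sum_insert, Finset.sum_pair hjk, add_assoc]
  rw [Finset.mem_insert, Finset.mem_singleton, not_or]
  exact ⟨hij, hik⟩

theorem far_num {x y z D τ e p q s : ℤ} (hx : 0 ≤ x) (hy : 0 ≤ y) (hz : 0 ≤ z)
    (h1 : x + y + τ ≤ D) (h2 : x + z + τ ≤ D) (h3 : y + z + τ ≤ D) (he : 0 ≤ e)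
    (hp : p ≤ e) (hq : q ≤ e) (hs : s ≤ e) (hsum : p + q + s ≤ 2 * e) :
    x * p + y * q + z * s + τ * e ≤ D * e := by
  rcases le_total (x + y + z + τ) D with h | h
  · nlinarith [mul_nonneg hx (sub_nonneg.mpr hp), mul_nonneg hy (sub_nonneg.mpr hq),
      mul_nonneg hz (sub_nonneg.mpr hs), mul_nonneg (sub_nonneg.mpr h) he]
  · nlinarith [mul_nonneg (sub_nonneg.mpr h3) (sub_nonneg.mpr hp),
      mul_nonneg (sub_nonneg.mpr h2) (sub_nonneg.mpr hq),
      mul_nonneg (sub_nonneg.mpr h1) (sub_nonneg.mpr hs),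
      mul_nonneg (sub_nonneg.mpr h) (sub_nonneg.mpr hsum)]

theorem Apt.far (h : Apt t d m B) (hr : 3 ≤ r) {τ : ℕ} (ht : 2 * τ ≤ t) :
    FarN τ d (onB B m) := by
  classical
  rcases h.2 with hB | ⟨h3, h4⟩
  · obtain ⟨i, j, k, hij, hik, hjk, hs⟩ := three_of_card hr hB
    intro e c hc
    have h1 := h.pairs i j hij
    have h2 := h.pairs i k hik
    have h3 := h.pairs j k hjk
    rw [sum_three_of_sub hij hik hjk hs (fun l => (onB B m l : ℤ) * c l) (fun l hl => by
      have h5 : onB B m l = 0 := if_neg hl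
      rw [h5, Nat.cast_zero, zero_mul])]
    exact far_num (Int.natCast_nonneg _) (Int.natCast_nonneg _) (Int.natCast_nonneg _)
      (by exact_mod_cast (by omega : onB B m i + onB B m j + τ ≤ d))
      (by exact_mod_cast (by omega : onB B m i + onB B m k + τ ≤ d))
      (by exact_mod_cast (by omega : onB B m j + onB B m k + τ ≤ d)) hc.nonneg (hc.coef_le i)
      (hc.coef_le j) (hc.coef_le k) (hc.three hij hik hjk)
  · refine far_of_reduced hr (fun i j k hij hik hjk => ?_) (fun i j hij => ?_) ?_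
    · have p1 := h.pairs i j hij
      have p2 := h.pairs i k hik
      have p3 := h.pairs j k hjk
      by_cases hi : i ∈ B
      · by_cases hj : j ∈ B
        · by_cases hk : k ∈ B
          · have h5 := h3 {i, j, k} (fun l hl => by
              rcases Finset.mem_insert.mp hl with hl | hl
              · rw [hl]
                exact hi
              · rcases Finset.mem_insert.mp hl with hl | hl
                · rw [hl]
                  exact hj
                · rw [Finset.mem_singleton.mp hl]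
                  exact hk) (Finset.card_eq_three.mpr ⟨i, j, k, hij, hik, hjk, rfl⟩).le
            rw [Finset.sum_insert, Finset.sum_pair hjk] at h5
            · have e1 : onB B m i = m i := if_pos hi
              have e2 : onB B m j = m j := if_pos hj
              have e3 : onB B m k = m k := if_pos hk
              omega
            · rw [Finset.mem_insert, Finset.mem_singleton, not_or]
              exact ⟨hij, hik⟩
          · have e3 : onB B m k = 0 := if_neg hk
            omega
        · have e3 : onB B m j = 0 := if_neg hj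
          omega
      · have e3 : onB B m i = 0 := if_neg hi
        omega
    · have := h.pairs i j hij
      omega
    · rw [sum_onB_id]
      omega

theorem Apt.can (h : Apt t d m B) (hr : 3 ≤ r) :
    2 * ∑ i ∈ B, m i + 3 * t ≤ 3 * d ∨ ∑ i ∈ B, m i + 9 * t ≤ 3 * d := by
  classical
  rcases h.2 with hB | ⟨h3, h4⟩
  · left
    obtain ⟨i, j, k, hij, hik, hjk, hs⟩ := three_of_card hr hB
    have h1 := h.pairs i j hij
    have h2 := h.pairs i k hik
    have h3 := h.pairs j k hjk
    have h4 := sum_three_of_sub hij hik hjk hs (fun l => (onB B m l : ℤ)) (fun l hl => by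
      have h5 : onB B m l = 0 := if_neg hl
      rw [h5, Nat.cast_zero])
    have h5 : ∑ l, onB B m l = onB B m i + onB B m j + onB B m k := by
      have h6 : ((∑ l, onB B m l : ℕ) : ℤ) = ((onB B m i + onB B m j + onB B m k : ℕ) : ℤ) := by
        push_cast
        exact h4
      exact_mod_cast h6
    rw [sum_onB_id] at h5
    omega
  · exact Or.inr h4

theorem Apt.can_small (h : Apt t d m B) (hr : 3 ≤ r) (hB : B.card ≤ 3) :
    2 * ∑ i ∈ B, m i + 3 * t ≤ 3 * d := by
  rcases h.can hr with h1 | h1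
  · exact h1
  · classical
    obtain ⟨i, j, k, hij, hik, hjk, hs⟩ := three_of_card hr hB
    have h1 := h.pairs i j hij
    have h2 := h.pairs i k hik
    have h3 := h.pairs j k hjk
    have h4 := sum_three_of_sub hij hik hjk hs (fun l => (onB B m l : ℤ)) (fun l hl => by
      have h5 : onB B m l = 0 := if_neg hl
      rw [h5, Nat.cast_zero])
    have h5 : ∑ l, onB B m l = onB B m i + onB B m j + onB B m k := by
      have h6 : ((∑ l, onB B m l : ℕ) : ℤ) = ((onB B m i + onB B m j + onB B m k : ℕ) : ℤ) := by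
        push_cast
        exact h4
      exact_mod_cast h6
    rw [sum_onB_id] at h5
    omega

end Apt

theorem Rg.of_append {r D : ℕ} {a : Fin r → ℕ} (h : Rg D (Fin.append a (fun _ : Fin 3 => 0))) :
    Rg D a := by
  have hz : ∑ _j : Fin 3, (0 + 1).choose 2 = 0 := Finset.sum_eq_zero (fun _ _ => rfl)
  unfold Rg at h ⊢
  rw [hPm_append_zero, sum_append a _ (fun x => (x + 1).choose 2), hz, Nat.add_zero] at h
  exact h

theorem onB_append3 {r : ℕ} (B : Finset (Fin r)) (m : Fin r → ℕ) :
    onB (B.map (Fin.castAddEmb 3)) (Fin.append m (fun _ : Fin 3 => 0)) =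
      Fin.append (onB B m) (fun _ : Fin 3 => 0) := by
  classical
  funext i
  refine Fin.addCases (fun j => ?_) (fun j => ?_) i
  · rw [Fin.append_left]
    unfold onB
    by_cases hj : j ∈ B
    · have h1 : Fin.castAdd 3 j ∈ B.map (Fin.castAddEmb 3) :=
        Finset.mem_map_of_mem (Fin.castAddEmb 3) hj
      rw [if_pos hj, if_pos h1, Fin.append_left]
    · rw [if_neg hj, if_neg]
      intro h
      obtain ⟨l, hl, hlj⟩ := Finset.mem_map.mp h
      have : l = j := Fin.castAdd_injective _ _ hlj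
      exact hj (this ▸ hl)
  · rw [Fin.append_right]
    unfold onB
    split_ifs
    · rw [Fin.append_right]
    · rfl

/-- at most three points -/
theorem indep_small {r D : ℕ} {m : Fin r → ℕ} {B : Finset (Fin r)} (hB : B.card ≤ 3)
    (h : ∀ J ⊆ B, J.card ≤ 2 → ∑ i ∈ J, m i ≤ D) : Rg D (onB B m) := by
  classical
  have hA : Apt 0 D m B := ⟨fun J hJ hc => h J hJ hc, Or.inl hB⟩
  have hA' := hA.pad
  have hc : (B.map (Fin.castAddEmb 3)).card ≤ 3 := by
    rw [Finset.card_map]
    exact hB
  have hr : 3 ≤ r + 3 := by omega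
  have h1 := hA'.can_small hr hc
  have h2 := hA'.far hr (τ := 0) le_rfl
  apply Rg.of_append
  rw [← onB_append3]
  rcases Nat.eq_zero_or_pos D with h0 | h0
  · subst h0
    have h3 : onB (B.map (Fin.castAddEmb 3)) (Fin.append m (fun _ : Fin 3 => 0)) = fun _ => 0 := by
      funext i
      unfold onB
      split_ifs with hi
      · have h4 := hA'.t1 hi
        omega
      · rfl
    rw [h3]
    exact Rg_zero 0
  · have h3 := h2.nef (v := 0) le_rfl (Nat.zero_le _)
    rw [Nat.sub_zero] at h3
    refine nefN_regular hr D _ h3 ?_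
    rw [sum_onB_id]
    omega

/-- any number of points -/
theorem indep_reduced {r D : ℕ} {m : Fin r → ℕ} {B : Finset (Fin r)}
    (h3 : ∀ J ⊆ B, J.card ≤ 3 → ∑ i ∈ J, m i ≤ D) (hK : ∑ i ∈ B, m i < 3 * D) :
    Rg D (onB B m) := by
  classical
  refine B_regular (d := D) (m := onB B m) (fun J hJ => ?_) (by
    rw [sum_onB_id]
    exact hK)
  have h4 : ∑ i ∈ J, onB B m i = ∑ i ∈ J.filter (fun i => i ∈ B), m i := by
    rw [Finset.sum_filter]
    rfl
  rw [h4]
  exact h3 _ (fun i hi => (Finset.mem_filter.mp hi).2)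
    ((Finset.card_filter_le _ _).trans hJ)

end Pool.Agent.Work.MP_0421d9_ag.LD
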