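import Pool.Agent.Work.MP_0421d9_ag.KCub

/-!
Any number of points on the cuspidal cubic.
-/

namespace Pool.Agent.Work.MP_0421d9_ag.LD

open MvPolynomial Module

theorem exists_third {N : ℕ} (hN : 3 ≤ N) (i j : Fin N) : ∃ k : Fin N, i ≠ k ∧ j ≠ k := by
  classical
  have h1 : ∃ k ∈ (Finset.univ : Finset (Fin N)), k ∉ ({i, j} : Finset (Fin N)) := by
    by_contra hcon
    push Not at hcon
    have h2 := Finset.card_le_card (s := (Finset.univ : Finset (Fin N))) (t := {i, j})
      (fun x hx => hcon x hx)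
    have h3 := Finset.card_le_two (a := i) (b := j)
    rw [Finset.card_univ, Fintype.card_fin] at h2
    omega
  obtain ⟨k, -, hk⟩ := h1
  rw [Finset.mem_insert, Finset.mem_singleton, not_or] at hk
  exact ⟨k, Ne.symm hk.1, Ne.symm hk.2⟩

theorem two_regularN {N : ℕ} (hN : 3 ≤ N) {t : Fin N → ℂ} (ht : Function.Injective t)
    (ht0 : ∀ i, t i ≠ 0) {a : Fin N → ℕ} {D : ℕ} {i j : Fin N} (hij : i ≠ j)
    (h0 : ∀ l, l ≠ i → l ≠ j → a l = 0) (hD : a i + a j ≤ D) :
    finrank ℂ (linSys D (fun i => cpt (t i)) a) + ∑ i, (a i + 1).choose 2 ≤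
      (D + 2).choose 2 := by
  classical
  -- a third point
  obtain ⟨k, hik, hjk⟩ := exists_third hN i j
  obtain ⟨G, hG⟩ : ∃ G, G = colM (gpt N i) (gpt N j) (gpt N k) := ⟨_, rfl⟩
  obtain ⟨Q, hQ⟩ : ∃ Q, Q = colM (cpt (t i)) (cpt (t j)) ![1, 0, 0] := ⟨_, rfl⟩
  have hGdet : G.det ≠ 0 := by
    rw [hG, colM_det]
    exact gpt_det3_ne hij hik hjk
  have hQdet : Q.det ≠ 0 := by
    rw [hQ, colM_det]
    unfold det3 cpt
    have h1 : t i ≠ t j := fun h => hij (ht h)
    have h2 := ht0 i
    have h3 := ht0 j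
    simp
    intro h
    have h4 : t i ^ 2 * t j ^ 2 * (t j - t i) = 0 := by
      linear_combination h
    rcases mul_eq_zero.mp h4 with h5 | h5
    · rcases mul_eq_zero.mp h5 with h6 | h6
      · exact h2 (pow_eq_zero_iff (by norm_num) |>.mp h6)
      · exact h3 (pow_eq_zero_iff (by norm_num) |>.mp h6)
    · exact h1 (sub_eq_zero.mp h5).symm
  have hGU := isUnit_iff_ne_zero.mpr hGdet
  have hQU := isUnit_iff_ne_zero.mpr hQdet
  have hGi : G⁻¹.mulVec (gpt N i) = Pi.single 0 1 := by
    have h1 : G.mulVec (Pi.single 0 1) = gpt N i := by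
      rw [hG, colM_mulVec]
      funext l
      simp
    rw [← h1, Matrix.mulVec_mulVec, Matrix.nonsing_inv_mul _ hGU, Matrix.one_mulVec]
  have hGj : G⁻¹.mulVec (gpt N j) = Pi.single 1 1 := by
    have h1 : G.mulVec (Pi.single 1 1) = gpt N j := by
      rw [hG, colM_mulVec]
      funext l
      simp
    rw [← h1, Matrix.mulVec_mulVec, Matrix.nonsing_inv_mul _ hGU, Matrix.one_mulVec]
  have hM1 : (Q * G⁻¹) * (G * Q⁻¹) = 1 := by
    rw [Matrix.mul_assoc, ← Matrix.mul_assoc G⁻¹, Matrix.nonsing_inv_mul _ hGU, Matrix.one_mul,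
      Matrix.mul_nonsing_inv _ hQU]
  have hmi : (Q * G⁻¹).mulVec (gpt N i) = cpt (t i) := by
    rw [← Matrix.mulVec_mulVec, hGi, hQ, colM_mulVec]
    funext l
    simp
  have hmj : (Q * G⁻¹).mulVec (gpt N j) = cpt (t j) := by
    rw [← Matrix.mulVec_mulVec, hGj, hQ, colM_mulVec]
    funext l
    simp
  obtain ⟨M, hM⟩ : ∃ M, M = Q * G⁻¹ := ⟨_, rfl⟩
  obtain ⟨M', hM'⟩ : ∃ M', M' = G * Q⁻¹ := ⟨_, rfl⟩
  rw [← hM, ← hM'] at hM1
  rw [← hM] at hmi hmj
  have hfin : Module.Finite ℂ (linSys D (gpt N) a) :=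
    Submodule.finiteDimensional_of_le (linSys_le _ _ _)
  have h1 : ∀ F ∈ linSys D (fun i => cpt (t i)) a, subM M F ∈ linSys D (gpt N) a := by
    intro F hF
    obtain ⟨h1, h2⟩ := hF
    refine ⟨subM_isHomogeneous M h1, fun l => ?_⟩
    by_cases hl : l = i
    · subst hl
      apply vanishTo_subM
      rw [hmi]
      exact h2 l
    by_cases hl' : l = j
    · subst hl'
      apply vanishTo_subM
      rw [hmj]
      exact h2 l
    rw [h0 l hl hl']
    exact uv_zero _ _
  have h2 : finrank ℂ (linSys D (fun i => cpt (t i)) a) ≤ finrank ℂ (linSys D (gpt N) a) := by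
    refine LinearMap.finrank_le_finrank_of_injective (f := (subM M).toLinearMap.restrict h1) ?_
    intro F F' h
    have h2 : subM M F.1 = subM M F'.1 := congrArg Subtype.val h
    have h3 := congrArg (subM M') h2
    rw [subM_subM, subM_subM, hM1, subM_one, subM_one] at h3
    exact Subtype.ext h3
  have h3 := three_regular (D := D) (gpt_generic N) a (I := {i, j})
    ((Finset.card_le_two).trans (by norm_num)) (fun l hl => by
      rw [Finset.mem_insert, Finset.mem_singleton] at hl
      rcases hl with rfl | rfl <;> omega) (fun l hl l' hl' hll => by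
      rw [Finset.mem_insert, Finset.mem_singleton] at hl hl'
      rcases hl with rfl | rfl <;> rcases hl' with rfl | rfl <;> first | exact absurd rfl hll | omega)
  have h4 : onB {i, j} a = a := by
    funext l
    unfold onB
    split_ifs with hl
    · rfl
    · rw [Finset.mem_insert, Finset.mem_singleton, not_or] at hl
      exact (h0 l hl.1 hl.2).symm
  rw [h4] at h3
  have h5 : ∑ l ∈ ({i, j} : Finset (Fin N)), (a l + 1).choose 2 = ∑ l, (a l + 1).choose 2 := by
    rw [← sum_onB, h4]
  rw [h5] at h3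
  omega

/-- the sum of at most eight numbers -/
theorem sum_eight {α : Type*} [DecidableEq α] {P : Finset α} {b : α → ℕ} {D : ℕ}
    (hP : 3 ≤ P.card) (h8 : P.card ≤ 8)
    (h3 : ∀ i j k, i ≠ j → i ≠ k → j ≠ k → b i + b j + b k ≤ D) :
    3 * ∑ i ∈ P, b i ≤ 8 * D := by
  obtain ⟨x, hx, hxm⟩ := Finset.exists_max_image P b (Finset.card_pos.mp (by omega))
  have hc1 : (P.erase x).card = P.card - 1 := Finset.card_erase_of_mem hx
  obtain ⟨y, hy, hym⟩ := Finset.exists_max_image (P.erase x) b (Finset.card_pos.mp (by omega))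
  have hc2 : ((P.erase x).erase y).card = P.card - 2 := by
    rw [Finset.card_erase_of_mem hy, hc1]
    omega
  obtain ⟨z, hz, hzm⟩ := Finset.exists_max_image ((P.erase x).erase y) b
    (Finset.card_pos.mp (by omega))
  have h1 : ∑ i ∈ (P.erase x).erase y, b i ≤ 6 * b z := by
    calc ∑ i ∈ (P.erase x).erase y, b i ≤ ((P.erase x).erase y).card • b z :=
          Finset.sum_le_card_nsmul _ _ _ hzm
      _ ≤ 6 * b z := by
          rw [smul_eq_mul]
          exact Nat.mul_le_mul_right _ (by omega)
  have h2 : ∑ i ∈ P, b i = b x + (b y + ∑ i ∈ (P.erase x).erase y, b i) := by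
    rw [Finset.add_sum_erase _ _ hy, Finset.add_sum_erase _ _ hx]
  have hzP := Finset.mem_of_mem_erase hz
  have hxy : x ≠ y := fun h => (Finset.ne_of_mem_erase hy) h.symm
  have hyz : y ≠ z := fun h => (Finset.ne_of_mem_erase hz) h.symm
  have hxz : x ≠ z := fun h => (Finset.ne_of_mem_erase hzP) h.symm
  have g1 := h3 x y z hxy hxz hyz
  have g2 := hym z hzP
  have g3 := hxm y (Finset.mem_of_mem_erase hy)
  omega

/-- **Reduced classes on the cubic.** -/
theorem reduced_regularN {N : ℕ} (hN : 3 ≤ N) {t : Fin N → ℂ} (ht : Function.Injective t)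
    (ht0 : ∀ i, t i ≠ 0) :
    ∀ (D : ℕ) (a : Fin N → ℕ), (∀ i j k, i ≠ j → i ≠ k → j ≠ k → a i + a j + a k ≤ D) →
      (∑ i, a i + 1 ≤ 3 * D ∨ ∀ i, a i = 0) →
      finrank ℂ (linSys D (fun i => cpt (t i)) a) + ∑ i, (a i + 1).choose 2 ≤
        (D + 2).choose 2 := by
  classical
  intro D
  induction D using Nat.strong_induction_on with
  | _ D ih =>
  intro a hred hK
  by_cases h3 : ∃ i j k, i ≠ j ∧ i ≠ k ∧ j ≠ k ∧ 1 ≤ a i ∧ 1 ≤ a j ∧ 1 ≤ a k
  · obtain ⟨x, y, z, hxy, hxz, hyz, hx, hy, hz⟩ := h3
    have h1 := hred x y z hxy hxz hyz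
    have hK' : ∑ i, a i + 1 ≤ 3 * D := by
      rcases hK with h | h
      · exact h
      · have := h x
        omega
    have hstep := cubic_step ht ht0 (a := a) (D := D) hK'
    obtain ⟨b, hb⟩ : ∃ b : Fin N → ℕ, b = fun i => a i - 1 := ⟨_, rfl⟩
    have hbi : ∀ i, b i = a i - 1 := fun i => by rw [hb]
    rw [← hb] at hstep
    have hbred : ∀ i j k, i ≠ j → i ≠ k → j ≠ k → b i + b j + b k ≤ D - 3 := by
      -- among `x, y, z` there is an index different from two given ones
      have hex1 : ∀ i j, ∃ l, l ≠ i ∧ l ≠ j ∧ 1 ≤ a l := by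
        intro i j
        by_cases g1 : x ≠ i ∧ x ≠ j
        · exact ⟨x, g1.1, g1.2, hx⟩
        by_cases g2 : y ≠ i ∧ y ≠ j
        · exact ⟨y, g2.1, g2.2, hy⟩
        refine ⟨z, fun h => ?_, fun h => ?_, hz⟩
        · subst h
          rw [not_and_or, not_not, not_not] at g1 g2
          rcases g1 with g1 | g1
          · exact hxz g1
          rcases g2 with g2 | g2
          · exact hyz g2
          exact hxy (g1.trans g2.symm)
        · subst h
          rw [not_and_or, not_not, not_not] at g1 g2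
          rcases g1 with g1 | g1
          · rcases g2 with g2 | g2
            · exact hxy (g1.trans g2.symm)
            · exact hyz g2
          · exact hxz g1
      have hex2 : ∀ i, ∃ l l', l ≠ i ∧ l' ≠ i ∧ l ≠ l' ∧ 1 ≤ a l ∧ 1 ≤ a l' := by
        intro i
        obtain ⟨l, h1, -, h2⟩ := hex1 i i
        obtain ⟨l', h3, h4, h5⟩ := hex1 i l
        exact ⟨l, l', h1, h3, Ne.symm h4, h2, h5⟩
      have key : ∀ i j k, i ≠ j → i ≠ k → j ≠ k → a k ≤ a i → a k ≤ a j →
          b i + b j + b k ≤ D - 3 := by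
        intro i j k hij hik hjk hki hkj
        rw [hbi, hbi, hbi]
        rcases Nat.eq_zero_or_pos (a k) with hk0 | hk0
        · rcases Nat.eq_zero_or_pos (a i) with hi0 | hi0
          · obtain ⟨l, l', g1, g2, g3, g4, g5⟩ := hex2 j
            have g6 := hred j l l' (Ne.symm g1) (Ne.symm g2) g3
            omega
          rcases Nat.eq_zero_or_pos (a j) with hj0 | hj0
          · obtain ⟨l, l', g1, g2, g3, g4, g5⟩ := hex2 i
            have g6 := hred i l l' (Ne.symm g1) (Ne.symm g2) g3
            omega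
          · obtain ⟨l, g1, g2, g3⟩ := hex1 i j
            have g6 := hred i j l hij (Ne.symm g1) (Ne.symm g2)
            omega
        · have g6 := hred i j k hij hik hjk
          omega
      intro i j k hij hik hjk
      by_cases g1 : a k ≤ a i ∧ a k ≤ a j
      · exact key i j k hij hik hjk g1.1 g1.2
      by_cases g2 : a j ≤ a i ∧ a j ≤ a k
      · have := key i k j hik hij (Ne.symm hjk) g2.1 g2.2
        omega
      · have := key j k i hjk (Ne.symm hij) (Ne.symm hik) (by omega) (by omega)
        omega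
    -- the sums
    have hc1 : ∑ i, (a i + 1).choose 2 = ∑ i, (b i + 1).choose 2 + ∑ i, a i := by
      rw [← Finset.sum_add_distrib]
      refine Finset.sum_congr rfl (fun i _ => ?_)
      rw [hbi]
      rcases Nat.eq_zero_or_pos (a i) with g | g
      · rw [g]
        rfl
      · obtain ⟨w, hw⟩ : ∃ w, a i = w + 1 := ⟨a i - 1, by omega⟩
        rw [hw, Nat.add_sub_cancel, Nat.choose_succ_succ' (w + 1) 1, Nat.choose_one_right]
        ring
    have hc2 : (D + 2).choose 2 = (D - 3 + 2).choose 2 + 3 * D := by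
      obtain ⟨w, rfl⟩ : ∃ w, D = w + 3 := ⟨D - 3, by omega⟩
      have e1 : w + 3 - 3 + 2 = w + 2 := by omega
      have e2 : w + 3 + 2 = w + 2 + 1 + 1 + 1 := by ring
      rw [e1, e2, Nat.choose_succ_succ' (w + 2 + 1 + 1) 1, Nat.choose_succ_succ' (w + 2 + 1) 1,
        Nat.choose_succ_succ' (w + 2) 1, Nat.choose_one_right, Nat.choose_one_right,
        Nat.choose_one_right]
      ring
    have hK2 : ∑ i, b i + 1 ≤ 3 * (D - 3) ∨ ∀ i, b i = 0 := by
      by_cases hb0 : ∀ i, b i = 0
      · exact Or.inr hb0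
      left
      push Not at hb0
      obtain ⟨w, hw⟩ := hb0
      have hw1 : 1 ≤ b w := Nat.one_le_iff_ne_zero.mpr hw
      obtain ⟨P, hP⟩ : ∃ P : Finset (Fin N), P = Finset.univ.filter (fun i => 1 ≤ a i) := ⟨_, rfl⟩
      have hPm : ∀ i, i ∈ P ↔ 1 ≤ a i := by
        intro i
        rw [hP, Finset.mem_filter]
        exact ⟨fun h => h.2, fun h => ⟨Finset.mem_univ i, h⟩⟩
      have hsa : ∑ i, a i = ∑ i ∈ P, a i := by
        symm
        apply Finset.sum_subset (Finset.subset_univ P)
        intro i _ hi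
        rw [hPm] at hi
        omega
      have hsb : ∑ i, b i = ∑ i ∈ P, b i := by
        symm
        apply Finset.sum_subset (Finset.subset_univ P)
        intro i _ hi
        rw [hPm] at hi
        rw [hbi]
        omega
      have hab : ∑ i ∈ P, a i = ∑ i ∈ P, b i + P.card := by
        rw [Finset.card_eq_sum_ones, ← Finset.sum_add_distrib]
        refine Finset.sum_congr rfl (fun i hi => ?_)
        rw [hPm] at hi
        rw [hbi]
        omega
      rcases Nat.lt_or_ge P.card 9 with h9 | h9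
      · have hP3 : 3 ≤ P.card := by
          have h5 : ({x, y, z} : Finset (Fin N)) ⊆ P := by
            intro i hi
            rw [Finset.mem_insert, Finset.mem_insert, Finset.mem_singleton] at hi
            rw [hPm]
            rcases hi with rfl | rfl | rfl
            · exact hx
            · exact hy
            · exact hz
          have h6 := Finset.card_le_card h5
          rw [Finset.card_eq_three.mpr ⟨x, y, z, hxy, hxz, hyz, rfl⟩] at h6
          exact h6
        have h7 := sum_eight (b := b) (D := D - 3) hP3 (by omega) hbred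
        have h8 : b w ≤ ∑ i, b i := Finset.single_le_sum (f := b) (fun _ _ => Nat.zero_le _)
          (Finset.mem_univ w)
        omega
      · omega
    have h4 := ih (D - 3) (by omega) b hbred hK2
    omega
  · push Not at h3
    -- at most two multiplicities are different from zero
    by_cases hx : ∃ x, 1 ≤ a x
    · obtain ⟨x, hx⟩ := hx
      by_cases hy : ∃ y, x ≠ y ∧ 1 ≤ a y
      · obtain ⟨y, hxy, hy⟩ := hy
        have h0 : ∀ l, l ≠ x → l ≠ y → a l = 0 := by
          intro l hlx hly
          have := h3 x y l hxy (Ne.symm hlx) (Ne.symm hly) hx hy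
          omega
        obtain ⟨k, hik, hjk⟩ := exists_third hN x y
        have h1 := hred x y k hxy hik hjk
        exact two_regularN hN ht ht0 hxy h0 (by omega)
      · push Not at hy
        have h0 : ∀ l, l ≠ x → a l = 0 := by
          intro l hlx
          have := hy l (Ne.symm hlx)
          omega
        obtain ⟨y, hxy, -⟩ := exists_third hN x x
        obtain ⟨z, hxz, hyz⟩ := exists_third hN x y
        have h1 := hred x y z hxy hxz hyz
        exact two_regularN hN ht ht0 hxy (fun l g1 _ => h0 l g1) (by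
          have := h0 y (Ne.symm hxy)
          omega)
    · push Not at hx
      have h0 : ∀ l, a l = 0 := by
        intro l
        have := hx l
        omega
      obtain ⟨y, hxy, -⟩ := exists_third hN (⟨0, by omega⟩ : Fin N) ⟨0, by omega⟩
      exact two_regularN hN ht ht0 hxy (fun l _ _ => h0 l) (by
        rw [h0, h0]
        exact Nat.zero_le _)

end Pool.Agent.Work.MP_0421d9_ag.LD
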