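import Pool.Agent.Work.MP_0421d9_ag.Nc7

/-!
Linear systems with prescribed monomials, and automorphisms of the complex numbers rescaling the
coordinates of generic points.
-/

set_option linter.unusedSectionVars false

namespace Pool.Agent.Work.MP_0421d9_ag

open MvPolynomial Module

/-- exponents -/
abbrev Ex := Fin 3 →₀ ℕ

/-- the members of a linear system all of whose monomials have exponents in `D` -/
noncomputable def ms {ι : Type} (d : ℕ) (p : ι → V3) (m : ι → ℕ) (D : Ex → Prop) :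
    Submodule ℂ R3 where
  carrier := {F | F ∈ linSys d p m ∧ ∀ α, coeff α F ≠ 0 → D α}
  zero_mem' := ⟨zero_mem _, fun α h => absurd (coeff_zero α) h⟩
  add_mem' := fun {F G} hF hG => ⟨add_mem hF.1 hG.1, fun α h => by
    by_cases h1 : coeff α F = 0
    · apply hG.2
      rw [coeff_add, h1, zero_add] at h
      exact h
    · exact hF.2 α h1⟩
  smul_mem' := fun c F hF => ⟨Submodule.smul_mem _ c hF.1, fun α h => by
    apply hF.2
    rw [coeff_smul] at h
    exact right_ne_zero_of_mul h⟩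

section ms

variable {ι : Type} {d : ℕ} {p : ι → V3} {m : ι → ℕ} {D : Ex → Prop}

theorem mem_ms {F : R3} : F ∈ ms d p m D ↔ F ∈ linSys d p m ∧ ∀ α, coeff α F ≠ 0 → D α := Iff.rfl

theorem ms_le (d : ℕ) (p : ι → V3) (m : ι → ℕ) (D : Ex → Prop) : ms d p m D ≤ Rd d :=
  fun _ hF => hF.1.1

instance ms_finite (d : ℕ) (p : ι → V3) (m : ι → ℕ) (D : Ex → Prop) :
    Module.Finite ℂ (ms d p m D) :=
  Submodule.finiteDimensional_of_le (ms_le d p m D)

theorem ms_mono {m' : ι → ℕ} {D' : Ex → Prop} (hm : ∀ i, m' i ≤ m i)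
    (hD : ∀ α, α.degree = d → D α → D' α) : ms d p m D ≤ ms d p m' D' := by
  intro F hF
  refine ⟨⟨hF.1.1, fun i => (hF.1.2 i).mono (hm i)⟩, fun α h => hD α ?_ (hF.2 α h)⟩
  by_contra hne
  exact h (hF.1.1.coeff_eq_zero hne)

theorem finrank_ms_mono {m' : ι → ℕ} {D' : Ex → Prop} (hm : ∀ i, m' i ≤ m i)
    (hD : ∀ α, α.degree = d → D α → D' α) :
    finrank ℂ (ms d p m D) ≤ finrank ℂ (ms d p m' D') :=
  Submodule.finrank_mono (ms_mono hm hD)

theorem degree_of_coeff {F : R3} (hF : F.IsHomogeneous d) {α : Ex} (h : coeff α F ≠ 0) :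
    α.degree = d := by
  by_contra hne
  exact h (hF.coeff_eq_zero hne)

theorem degree_three (α : Ex) : α.degree = α 0 + α 1 + α 2 := by
  rw [Finsupp.degree_eq_sum, Fin.sum_univ_three]

theorem ms_true : ms d p m (fun _ => True) = linSys d p m := by
  ext F
  exact ⟨fun h => h.1, fun h => ⟨h, fun _ _ => trivial⟩⟩

/-- invariance under automorphisms of the complex numbers -/
theorem finrank_ms_map (σ : ℂ ≃+* ℂ) (d : ℕ) (p : ι → V3) (m : ι → ℕ) (D : Ex → Prop) :
    finrank ℂ (ms d p m D) = finrank ℂ (ms d (fun i k => σ (p i k)) m D) := by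
  have h0 : ∀ (τ : ℂ ≃+* ℂ) (q : ι → V3), ∀ F ∈ ms d q m D,
      map τ.toRingHom F ∈ ms d (fun i k => τ (q i k)) m D := by
    intro τ q F hF
    refine ⟨map_mem_linSys τ hF.1, fun α h => hF.2 α ?_⟩
    intro h0
    apply h
    rw [coeff_map, h0, map_zero]
  have h1 : ∀ F ∈ ms d (fun i k => σ (p i k)) m D, map σ.symm.toRingHom F ∈ ms d p m D := by
    intro F hF
    have h2 := h0 σ.symm _ F hF
    have h3 : (fun (i : ι) (k : Fin 3) => σ.symm (σ (p i k))) = p := by
      funext i k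
      exact σ.symm_apply_apply _
    rwa [h3] at h2
  let j : ms d p m D ≃+ ms d (fun i k => σ (p i k)) m D :=
    { toFun := fun F => ⟨map σ.toRingHom F.1, h0 σ p F.1 F.2⟩
      invFun := fun F => ⟨map σ.symm.toRingHom F.1, h1 F.1 F.2⟩
      left_inv := fun F => Subtype.ext (map_symm_map σ F.1)
      right_inv := fun F => Subtype.ext (map_map_symm σ F.1)
      map_add' := fun F G => Subtype.ext (map_add _ F.1 G.1) }
  have h2 := rank_eq_of_equiv_equiv (fun c : ℂ => σ c) j σ.bijective (by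
    intro c F
    apply Subtype.ext
    change map σ.toRingHom (c • F.1) = σ c • map σ.toRingHom F.1
    rw [smul_eq_C_mul, smul_eq_C_mul, map_mul, map_C]
    rfl)
  unfold Module.finrank
  rw [h2]

end ms

/-- the automorphism of a polynomial ring rescaling the variables -/
noncomputable def scEquiv {τ : Type} (u : τ → ℚ) (hu : ∀ b, u b ≠ 0) :
    MvPolynomial τ ℚ ≃ₐ[ℚ] MvPolynomial τ ℚ :=
  AlgEquiv.ofAlgHom (aeval fun b => C (u b) * X b) (aeval fun b => C (u b)⁻¹ * X b)
    (by
      apply MvPolynomial.algHom_ext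
      intro b
      rw [AlgHom.comp_apply, aeval_X, map_mul, aeval_X, ← algebraMap_eq, AlgHom.commutes,
        AlgHom.id_apply, ← mul_assoc, algebraMap_eq, ← C_mul, inv_mul_cancel₀ (hu b), C_1, one_mul])
    (by
      apply MvPolynomial.algHom_ext
      intro b
      rw [AlgHom.comp_apply, aeval_X, map_mul, aeval_X, ← algebraMap_eq, AlgHom.commutes,
        AlgHom.id_apply, ← mul_assoc, algebraMap_eq, ← C_mul, mul_inv_cancel₀ (hu b), C_1, one_mul])

theorem scEquiv_X {τ : Type} (u : τ → ℚ) (hu : ∀ b, u b ≠ 0) (b : τ) :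
    scEquiv u hu (X b) = C (u b) * X b := by
  change aeval _ (X b) = _
  rw [aeval_X]

/-- automorphisms of the complex numbers rescaling generic points -/
theorem exists_auto_scale {ι : Type} {p : ι → V3} (hp : GenericPoints p) (u : ι → Fin 3 → ℚ)
    (hu : ∀ i k, u i k ≠ 0) :
    ∃ σ : ℂ ≃+* ℂ, ∀ i k, σ (p i k) = (u i k : ℂ) * p i k := by
  classical
  obtain ⟨t, ht, ht'⟩ := exists_isTranscendenceBasis_superset
    (AlgebraicIndependent.coe_range hp)
  let f : ι × Fin 3 → t := fun z => ⟨p z.1 z.2, ht ⟨z, rfl⟩⟩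
  have hf : Function.Injective f := fun z z' h =>
    AlgebraicIndependent.injective hp (congrArg Subtype.val h)
  let v : t → ℚ := fun b => if h : ∃ z, f z = b then u h.choose.1 h.choose.2 else 1
  have hv : ∀ b, v b ≠ 0 := by
    intro b
    by_cases h : ∃ z, f z = b
    · simp only [v, dif_pos h]
      exact hu _ _
    · simp only [v, dif_neg h]
      exact one_ne_zero
  have hvf : ∀ z, v (f z) = u z.1 z.2 := by
    intro z
    have h : ∃ z', f z' = f z := ⟨z, rfl⟩
    have h1 : v (f z) = u h.choose.1 h.choose.2 := dif_pos h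
    rw [h1, hf h.choose_spec]
  let _ := IsAlgClosed.isAlgClosure_of_transcendence_basis (Subtype.val : t → ℂ) ht'
  let e1 : Algebra.adjoin ℚ (Set.range (Subtype.val : t → ℂ)) ≃+*
      Algebra.adjoin ℚ (Set.range (Subtype.val : t → ℂ)) :=
    (ht'.1.aevalEquiv.symm.toRingEquiv.trans
      (scEquiv v hv).toRingEquiv).trans ht'.1.aevalEquiv.toRingEquiv
  have h1 : ∀ b : t, algebraMap (Algebra.adjoin ℚ (Set.range (Subtype.val : t → ℂ))) ℂ
      (ht'.1.aevalEquiv (X b)) = b := by
    intro b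
    rw [ht'.1.algebraMap_aevalEquiv, aeval_X]
  refine ⟨IsAlgClosure.equivOfEquiv ℂ ℂ e1, fun i k => ?_⟩
  have h2 := h1 (f (i, k))
  have h3 : (f (i, k) : ℂ) = p i k := rfl
  have h4 : e1 (ht'.1.aevalEquiv (X (f (i, k)))) =
      ht'.1.aevalEquiv (C (v (f (i, k))) * X (f (i, k))) := by
    change ht'.1.aevalEquiv (scEquiv v hv
      (ht'.1.aevalEquiv.symm (ht'.1.aevalEquiv (X (f (i, k)))))) = _
    rw [AlgEquiv.symm_apply_apply, scEquiv_X]
  have h5 : algebraMap (Algebra.adjoin ℚ (Set.range (Subtype.val : t → ℂ))) ℂ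
      (ht'.1.aevalEquiv (C (v (f (i, k))))) = ((u i k : ℚ) : ℂ) := by
    rw [ht'.1.algebraMap_aevalEquiv, aeval_C, hvf]
    exact eq_ratCast _ _
  rw [← h3]
  conv_lhs => rw [← h2]
  rw [IsAlgClosure.equivOfEquiv_algebraMap, h4, map_mul, map_mul, h1, h5]

/-- rescaling the coordinates of generic points does not change the dimensions -/
theorem finrank_ms_scale {ι : Type} {p : ι → V3} (hp : GenericPoints p) (u : ι → Fin 3 → ℚ)
    (hu : ∀ i k, u i k ≠ 0) (d : ℕ) (m : ι → ℕ) (D : Ex → Prop) :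
    finrank ℂ (ms d p m D) = finrank ℂ (ms d (fun i k => (u i k : ℂ) * p i k) m D) := by
  obtain ⟨σ, hσ⟩ := exists_auto_scale hp u hu
  have h : (fun i k => σ (p i k)) = fun i k => (u i k : ℂ) * p i k := by
    funext i k
    exact hσ i k
  rw [finrank_ms_map σ, h]

end Pool.Agent.Work.MP_0421d9_ag
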