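import Pool.Agent.Work.MP_0421d9_ag.LD9

/-!
Planar linear systems with generic base points of multiplicities at most `M` are nonspecial as soon
as the degree is at least `3 * M ^ 2` plus the sum of `u * (u - 1) / 2` over the distinct
multiplicities `u`: the proof.
-/

set_option linter.unusedSectionVars false

namespace Pool.Agent.Work.MP_0421d9_ag

open MvPolynomial Module

section large

variable {ι : Type} [Fintype ι] [DecidableEq ι] {d M : ℕ} {p : ι → V3} {m : ι → ℕ}

theorem window_rs_le (W : ι → Prop) :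
    ∑ a ∈ Finset.univ.image (rs W m), a.choose 2 ≤ ∑ a ∈ Finset.univ.image m, a.choose 2 := by
  classical
  have h1 : Finset.univ.image (rs W m) ⊆ insert 0 (Finset.univ.image m) := by
    intro a ha
    obtain ⟨i, -, rfl⟩ := Finset.mem_image.mp ha
    by_cases h : W i
    · rw [rs_of h]
      exact Finset.mem_insert_of_mem (Finset.mem_image_of_mem m (Finset.mem_univ i))
    · rw [rs_not h]
      exact Finset.mem_insert_self _ _
  refine (Finset.sum_le_sum_of_subset h1).trans ?_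
  by_cases h : 0 ∈ Finset.univ.image m
  · rw [Finset.insert_eq_of_mem h]
  · rw [Finset.sum_insert h]
    simp

theorem sum_rs_notMem (S : Finset ι) {k : ℕ} (hS : ∀ i ∈ S, m i = k) :
    ∑ i, (rs (fun i => i ∉ S) m i + 1).choose 2 + S.card * (k + 1).choose 2 =
      ∑ i, (m i + 1).choose 2 := by
  classical
  rw [← Finset.sum_add_sum_compl S (fun i => (m i + 1).choose 2),
    ← Finset.sum_add_sum_compl S (fun i => (rs (fun i => i ∉ S) m i + 1).choose 2)]
  have h1 : ∑ i ∈ S, (rs (fun i => i ∉ S) m i + 1).choose 2 = 0 := by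
    refine Finset.sum_eq_zero (fun i hi => ?_)
    rw [rs_not (W := fun i => i ∉ S) (by simpa using hi)]
    rfl
  have h2 : ∑ i ∈ Sᶜ, (rs (fun i => i ∉ S) m i + 1).choose 2 = ∑ i ∈ Sᶜ, (m i + 1).choose 2 := by
    refine Finset.sum_congr rfl (fun i hi => ?_)
    rw [rs_of (W := fun i => i ∉ S) (Finset.mem_compl.mp hi)]
  have h3 : ∑ i ∈ S, (m i + 1).choose 2 = S.card * (k + 1).choose 2 := by
    rw [Finset.sum_congr rfl (fun i hi => by rw [hS i hi]), Finset.sum_const, smul_eq_mul]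
  rw [h1, h2, h3]
  ring

/-- the choice of the number of points -/
theorem exists_number {u k A W d : ℕ} (hk1 : 1 ≤ k) (hkM : k ≤ u + 1) (hA : A ≤ W + u * u)
    (hd : W + 3 * (u + 1) * (u + 1) ≤ d) :
    ∃ t D, t * k + D = d ∧ d + 1 ≤ t * (k + 1) ∧ k ≤ D + 1 ∧
      2 * A + (k + 1) * k ≤ (k + 1) * (2 * (D + 1)) ∧
      (k + 1) * (2 * (D + 1)) ≤ 2 * A + 4 * ((k + 1) * k) := by
  have hk2 : k * k ≤ (u + 1) * (u + 1) := Nat.mul_le_mul hkM hkM
  obtain ⟨q, hq⟩ : ∃ q, q = A / (k + 1) := ⟨_, rfl⟩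
  have he1 : (k + 1) * q ≤ A := by
    rw [hq]
    exact Nat.mul_div_le A (k + 1)
  have he2 : A < (k + 1) * q + (k + 1) := by
    have := Nat.lt_mul_div_succ A (Nat.succ_pos k)
    rw [Nat.succ_eq_add_one, mul_add, mul_one, ← hq] at this
    exact this
  clear hq
  have hkk : (k + 1) * (q + k) = (k + 1) * q + (k + 1) * k := by ring
  have hsq : (u + 1) * (u + 1) = u * u + 2 * u + 1 := by ring
  have h3q : 3 * (u + 1) * (u + 1) = 3 * (u * u) + 6 * u + 3 := by ring
  have hkk2 : (k + 1) * k = k * k + k := by ring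
  have hmain : (k + 1) * (q + k) + k * k ≤ d := by omega
  obtain ⟨t, ht⟩ : ∃ t, t = (d - (q + k)) / k := ⟨_, rfl⟩
  have ht1 : t * k ≤ d - (q + k) := by
    rw [ht]
    exact Nat.div_mul_le_self _ _
  have ht2 : d - (q + k) < t * k + k := by
    have := Nat.lt_mul_div_succ (d - (q + k)) hk1
    rw [mul_add, mul_one, mul_comm k, ← ht] at this
    exact this
  have hkq : (k + 1) * (q + k) = k * (q + k) + (q + k) := by ring
  have ht3 : q + k + k ≤ t := by
    rw [ht, Nat.le_div_iff_mul_le hk1]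
    have h1 : (q + k + k) * k = k * (q + k) + k * k := by ring
    omega
  clear ht
  have hdd : q + k ≤ d := by omega
  refine ⟨t, d - t * k, by omega, ?_, by omega, ?_, ?_⟩
  · have h1 : t * (k + 1) = t * k + t := by ring
    omega
  · have h1 : (k + 1) * (2 * (q + k + 1)) ≤ (k + 1) * (2 * (d - t * k + 1)) :=
      Nat.mul_le_mul_left _ (by omega)
    have h2 : (k + 1) * (2 * (q + k + 1)) = 2 * ((k + 1) * q) + 2 * ((k + 1) * k) +
      2 * (k + 1) := by ring
    omega
  · have h1 : (k + 1) * (2 * (d - t * k + 1)) ≤ (k + 1) * (2 * (q + k + k)) :=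
      Nat.mul_le_mul_left _ (by omega)
    have h2 : (k + 1) * (2 * (q + k + k)) = 2 * ((k + 1) * q) + 4 * ((k + 1) * k) := by ring
    omega

/-- the Euler characteristics of the two parts -/
theorem star_aux {d k t D n b : ℕ} (hD : t * k + D = d) (hn : n + k = d + 1)
    (hb1 : 2 * b + (k + 1) * k = (k + 1) * (2 * (D + 1))) :
    (d + 2) * (d + 1) + 2 * n = (n + 1) * n + 2 * b + 2 * (t * ((k + 1) * k)) := by
  have h5 : t * k + D + 1 = n + k := by omega
  have h4 : d + 2 = n + k + 1 := by omega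
  rw [h4, ← hn]
  have h6 : 2 * b + (k + 1) * k + 2 * (t * ((k + 1) * k)) = (k + 1) * (2 * (n + k)) := by
    rw [hb1, ← h5]
    ring
  nlinarith

/-- the middle range -/
theorem middle_le (hp : GenericPoints p) (hM : ∀ i, m i ≤ M) (hM2 : 2 ≤ M)
    (hd : ∑ a ∈ Finset.univ.image m, a.choose 2 + 3 * M * M ≤ d)
    (h1 : ∑ i, (m i + 1).choose 2 <
      (d + 2).choose 2 + ∑ a ∈ Finset.univ.image m, a.choose 2)
    (h2 : (d + 2).choose 2 ≤ ∑ i, (m i + 1).choose 2 + (M - 1) * (M - 1)) :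
    finrank ℂ (linSys d p m) ≤ (d + 2).choose 2 - ∑ i, (m i + 1).choose 2 := by
  classical
  obtain ⟨k, hk1, hkM, hk⟩ := exists_class hM hM2 h2 (by omega)
  obtain ⟨W, hW⟩ : ∃ W, W = ∑ a ∈ Finset.univ.image m, a.choose 2 := ⟨_, rfl⟩
  obtain ⟨SS, hSS⟩ : ∃ SS, SS = ∑ i, (m i + 1).choose 2 := ⟨_, rfl⟩
  rw [← hW] at hd h1
  rw [← hSS] at h1 h2
  rw [← hSS]
  obtain ⟨A, hA⟩ : ∃ A, A + SS = (d + 2).choose 2 + W := ⟨(d + 2).choose 2 + W - SS, by omega⟩
  obtain ⟨u, rfl⟩ : ∃ u, M = u + 1 := ⟨M - 1, by omega⟩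
  rw [Nat.add_sub_cancel] at h2
  have hAle : A ≤ W + u * u := by omega
  obtain ⟨t, D, hD, hF, hkD, hb2, hb3⟩ := exists_number hk1 hkM hAle hd
  have hcard : 2 * t ≤ (Finset.univ.filter fun i => m i = k).card := by
    have h3 : k * (2 * t) ≤ k * (Finset.univ.filter fun i => m i = k).card := by
      refine le_trans ?_ hk
      have h4 : k * (2 * t) = 2 * (t * k) := by ring
      rw [h4]
      omega
    exact Nat.le_of_mul_le_mul_left h3 hk1
  obtain ⟨S, hSsub, hScard⟩ := Finset.exists_subset_card_eq hcard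
  have hSm : ∀ i ∈ S, m i = k := fun i hi => (Finset.mem_filter.mp (hSsub hi)).2
  have hu : u ≤ u * u := Nat.le_mul_self u
  have h3q : 3 * (u + 1) * (u + 1) = 3 * (u * u) + 6 * u + 3 := by ring
  have hkk : (k + 1) * k ≤ u * u + 3 * u + 2 := by
    have h3 : (k + 1) * k ≤ (u + 1 + 1) * (u + 1) := Nat.mul_le_mul (by omega) hkM
    have h4 : (u + 1 + 1) * (u + 1) = u * u + 3 * u + 2 := by ring
    omega
  have hkd : k + 1 ≤ d := by omega
  obtain ⟨SB, hSB⟩ : ∃ SB, SB = ∑ i, (rs (fun i => i ∉ S) m i + 1).choose 2 := ⟨_, rfl⟩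
  have hSB1 : SB + t * ((k + 1) * k) = SS := by
    have h3 := sum_rs_notMem (m := m) S hSm
    rw [hScard, ← hSB, ← hSS] at h3
    rw [← h3, ← two_choose]
    ring
  obtain ⟨b, hb⟩ : ∃ b, b = ∑ j ∈ Finset.range (k + 1), (d + 1 - t * k - j) := ⟨_, rfl⟩
  have hb1 : 2 * b + (k + 1) * k = (k + 1) * (2 * (D + 1)) := by
    have h3 : d + 1 - t * k = D + 1 := by
      rw [← hD, add_assoc, Nat.add_sub_cancel_left]
    rw [hb, h3]
    exact sum_range_desc k (D + 1) hkD
  -- binomial coefficients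
  obtain ⟨n, hn⟩ : ∃ n, n + k = d + 1 := ⟨d + 1 - k, by omega⟩
  have hc0 : 2 * (d + 2).choose 2 = (d + 2) * (d + 1) := two_choose (d + 1)
  have hc1 : 2 * (d - k + 2).choose 2 = (n + 1) * n := by
    have h3 : d - k + 2 = n + 1 := by omega
    rw [h3]
    exact two_choose n
  have hc2 : 2 * (d - (k + 1) + 2).choose 2 + 2 * n = (n + 1) * n := by
    have h3 : d - (k + 1) + 2 = n := by omega
    obtain ⟨n', hn'⟩ : ∃ n', n = n' + 1 := ⟨n - 1, by omega⟩
    rw [h3, hn', two_choose n']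
    ring
  have hstar := star_aux hD hn hb1
  -- the two systems
  have hP : linSys (d - (k + 1)) p (rs (fun i => i ∉ S) m) = ⊥ := by
    apply empty_of_window hp
    have h3 := window_rs_le (m := m) (fun i => i ∉ S)
    rw [← hW] at h3
    rw [← hSB]
    omega
  have hns : finrank ℂ (linSys (d - k) p (rs (fun i => i ∉ S) m)) + SB =
      (d - k + 2).choose 2 := by
    rw [hSB]
    apply nonspecial_of_window hp (M := u + 1) (fun i => (rs_le _ _ i).trans (hM i))
    rw [Nat.add_sub_cancel, ← hSB]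
    omega
  have hmain := degeneration hp hk1 hkd S hScard.ge (fun i hi => (hSm i hi).ge) hP hF
  rw [← hb] at hmain
  have hn' : d - k + 1 = n := by omega
  rw [hn'] at hmain
  omega

end large

end Pool.Agent.Work.MP_0421d9_ag
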