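import Pool.Agent.Work.MP_0421d9_ag.LD10

/-!
Planar linear systems of large degree with generic base points: dimension and smoothness.
-/

set_option linter.unusedSectionVars false

namespace Pool.Agent.Work.MP_0421d9_ag

open MvPolynomial Module

/-- **Nonspeciality in large degree.** -/
theorem nonspecial_large {ι : Type} [Fintype ι] [DecidableEq ι] {d M : ℕ} {p : ι → V3}
    {m : ι → ℕ} (hp : GenericPoints p) (hM : ∀ i, m i ≤ M)
    (hd : ∑ a ∈ Finset.univ.image m, a.choose 2 + 3 * M * M ≤ d) :
    finrank ℂ (linSys d p m) = (d + 2).choose 2 - ∑ i, (m i + 1).choose 2 := by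
  by_cases h1 : (d + 2).choose 2 + ∑ a ∈ Finset.univ.image m, a.choose 2 ≤
      ∑ i, (m i + 1).choose 2
  · rw [empty_of_window hp h1, finrank_bot]
    omega
  by_cases h2 : ∑ i, (m i + 1).choose 2 + (M - 1) * (M - 1) < (d + 2).choose 2
  · have := nonspecial_of_window hp hM h2
    omega
  push Not at h1 h2
  have hM2 : 2 ≤ M := by
    by_contra hcon
    have h3 : ∑ a ∈ Finset.univ.image m, a.choose 2 = 0 := by
      refine Finset.sum_eq_zero (fun a ha => ?_)
      obtain ⟨i, -, rfl⟩ := Finset.mem_image.mp ha
      exact Nat.choose_eq_zero_of_lt (by have := hM i; omega)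
    have h4 : (M - 1) * (M - 1) = 0 := by
      have : M - 1 = 0 := by omega
      rw [this]
    omega
  apply le_antisymm (middle_le hp hM hM2 hd h1 h2)
  have hMd : M ≤ d := by
    have h3 : M ≤ 3 * M * M := by nlinarith
    omega
  have := chi_le (d := d) (p := p) (m := m) (fun i => by have := hM i; omega)
  omega

theorem dropSimple_choose (x : ℕ) : (if x = 1 then 0 else x).choose 2 = x.choose 2 := by
  split_ifs with h
  · rw [h]; rfl
  · rfl

theorem window_drop_le {ι : Type} [Fintype ι] [DecidableEq ι] (m : ι → ℕ) :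
    ∑ a ∈ Finset.univ.image (dropSimple m), a.choose 2 ≤
      ∑ a ∈ Finset.univ.image m, a.choose 2 := by
  have h : dropSimple m = rs (fun i => m i ≠ 1) m := by
    funext i
    unfold dropSimple rs
    by_cases h : m i = 1
    · simp [h]
    · simp [h]
  rw [h]
  exact window_rs_le _

theorem window_update_le {ι : Type} [Fintype ι] [DecidableEq ι] (m : ι → ℕ) (i : ι) (x : ℕ) :
    ∑ a ∈ Finset.univ.image (Function.update m i x), a.choose 2 ≤
      ∑ a ∈ Finset.univ.image m, a.choose 2 + x.choose 2 := by
  have h1 : Finset.univ.image (Function.update m i x) ⊆ insert x (Finset.univ.image m) := by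
    intro a ha
    obtain ⟨j, -, rfl⟩ := Finset.mem_image.mp ha
    by_cases h : j = i
    · rw [h, Function.update_self]
      exact Finset.mem_insert_self _ _
    · rw [Function.update_of_ne h]
      exact Finset.mem_insert_of_mem (Finset.mem_image_of_mem m (Finset.mem_univ j))
  refine (Finset.sum_le_sum_of_subset h1).trans ?_
  by_cases h : x ∈ Finset.univ.image m
  · rw [Finset.insert_eq_of_mem h]
    exact Nat.le_add_right _ _
  · rw [Finset.sum_insert h, add_comm]

theorem sum_update_succ {ι : Type} [Fintype ι] [DecidableEq ι] (y : ι → ℕ) (i : ι) :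
    ∑ j, (Function.update y i (y i + 1) j + 1).choose 2 = ∑ j, (y j + 1).choose 2 + (y i + 1) := by
  rw [← Finset.add_sum_erase _ _ (Finset.mem_univ i),
    ← Finset.add_sum_erase _ (fun j => (y j + 1).choose 2) (Finset.mem_univ i),
    Function.update_self]
  have h1 : ∑ j ∈ Finset.univ.erase i, (Function.update y i (y i + 1) j + 1).choose 2 =
      ∑ j ∈ Finset.univ.erase i, (y j + 1).choose 2 := by
    refine Finset.sum_congr rfl (fun j hj => ?_)
    rw [Function.update_of_ne (Finset.ne_of_mem_erase hj)]
  rw [h1]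
  have h2 : (y i + 1 + 1).choose 2 = (y i + 1).choose 2 + (y i + 1) := choose_two_succ (y i)
  omega

/-- **Smoothness in large degree.** -/
theorem main_large {r d M : ℕ} (p : Fin r → Fin 3 → ℂ) (hp : GenericPoints p) (m : Fin r → ℕ)
    (hM : ∀ i, m i ≤ M)
    (hd : ∑ a ∈ Finset.univ.image m, a.choose 2 + (M + 1).choose 2 + 3 * (M + 1) * (M + 1) ≤ d)
    (I : Finset (Fin r)) (hI : I.card ≤ 3)
    (hχ : ∀ i ∉ I, 2 ≤ m i → ∑ j, (dropSimple m j + 1).choose 2 + m i < (d + 2).choose 2)
    (hne : linSys d p m ≠ ⊥) :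
    (∃ F ∈ linSys d p m, Squarefree F) ∧
    finrank ℂ (linSys d p m) + ∑ i, (m i + 1).choose 2 = (d + 2).choose 2 ∧
    (∀ s : Fin (finrank ℂ (linSys d p m) - 1) → Fin 3 → ℂ, GenericPoints (Sum.elim p s) →
      ∀ F ∈ linSys d p m, F ≠ 0 → (∀ k, eval (s k) F = 0) → SmoothOnBlowup p m F) ∧
    (∃ F ∈ linSys d p m, F ≠ 0 ∧ SmoothOnBlowup p m F) := by
  have hdM : ∀ i, dropSimple m i ≤ M := fun i => (dropSimple_le m i).trans (hM i)
  have hw := window_drop_le m
  have h3 : 3 * M * M ≤ 3 * (M + 1) * (M + 1) :=
    Nat.mul_le_mul (Nat.mul_le_mul_left _ (Nat.le_succ M)) (Nat.le_succ M)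
  have h0 := nonspecial_large (d := d) hp hdM (by omega)
  have hcomp : ∀ i ∉ I, 2 ≤ m i → finrank ℂ (linSys d p (dropSimple m)) =
      finrank ℂ (linSys d p (Function.update (dropSimple m) i (m i + 1))) + (m i + 1) := by
    intro i hi hmi
    have hyi : dropSimple m i = m i := by
      unfold dropSimple
      rw [if_neg (by omega)]
    have h1 := nonspecial_large (d := d) (M := M + 1)
      (m := Function.update (dropSimple m) i (m i + 1)) hp (fun j => by
        by_cases hj : j = i
        · rw [hj, Function.update_self]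
          have := hM i
          omega
        · rw [Function.update_of_ne hj]
          exact (hdM j).trans (Nat.le_succ M)) (by
        have h4 := window_update_le (dropSimple m) i (m i + 1)
        have h5 : (m i + 1).choose 2 ≤ (M + 1).choose 2 :=
          Nat.choose_le_choose 2 (Nat.succ_le_succ (hM i))
        omega)
    have h2 := sum_update_succ (dropSimple m) i
    rw [hyi] at h2
    have h6 := hχ i hi hmi
    rw [h0, h1, h2]
    omega
  refine complete_final p hp m I hI (fun i hi h => hcomp i hi (by omega))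
    (Or.inr ⟨hne, fun i _ j _ _ => ?_, fun i hi h => hcomp i hi (by omega)⟩)
  have h4 : 2 * M ≤ 3 * (M + 1) * (M + 1) := by nlinarith
  have h5 := hM i
  have h6 := hM j
  omega

end Pool.Agent.Work.MP_0421d9_ag
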