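import Pool.Agent.Work.MP_0421d9_ag.LD1

/-!
Semicontinuity of the dimension of the kernel in a polynomial family of linear maps.
-/

set_option linter.unusedSectionVars false

namespace Pool.Agent.Work.MP_0421d9_ag

open Module

section

variable {W : Type} [AddCommGroup W] [Module ℂ W] [Module.Finite ℂ W]

/-- a polynomial family of endomorphisms which starts with the identity is invertible outside a
finite set of parameters -/
theorem exists_finite_det (K : ℕ) (A : ℕ → W →ₗ[ℂ] W) (h0 : A 0 = LinearMap.id) :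
    ∃ Z : Finset ℂ, ∀ s ∉ Z, LinearMap.ker (∑ k ∈ Finset.range (K + 1), s ^ k • A k) = ⊥ := by
  classical
  let b := Module.finBasis ℂ W
  let M : ℕ → Matrix (Fin (finrank ℂ W)) (Fin (finrank ℂ W)) ℂ := fun k =>
    LinearMap.toMatrix b b (A k)
  let P : Matrix (Fin (finrank ℂ W)) (Fin (finrank ℂ W)) (Polynomial ℂ) :=
    Matrix.of fun i j => ∑ k ∈ Finset.range (K + 1), Polynomial.X ^ k * Polynomial.C (M k i j)
  have hP : ∀ s : ℂ, Polynomial.eval s P.det =
      LinearMap.det (∑ k ∈ Finset.range (K + 1), s ^ k • A k) := by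
    intro s
    rw [← Polynomial.coe_evalRingHom, RingHom.map_det, ← LinearMap.det_toMatrix b]
    congr 1
    ext i j
    rw [RingHom.mapMatrix_apply, Matrix.map_apply, map_sum, Matrix.sum_apply]
    simp only [P, Matrix.of_apply, map_sum]
    refine Finset.sum_congr rfl (fun k _ => ?_)
    rw [Polynomial.coe_evalRingHom, Polynomial.eval_mul, Polynomial.eval_pow, Polynomial.eval_X,
      Polynomial.eval_C, map_smul, Matrix.smul_apply, smul_eq_mul]
  have hne : P.det ≠ 0 := by
    intro h
    have h1 := hP 0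
    rw [h, Polynomial.eval_zero, Finset.sum_range_succ', Finset.sum_eq_zero, zero_add, pow_zero,
      one_smul, h0, LinearMap.det_id] at h1
    · exact zero_ne_one h1
    · intro k _
      rw [zero_pow (Nat.succ_ne_zero k), zero_smul]
  refine ⟨P.det.roots.toFinset, fun s hs => ?_⟩
  rw [Multiset.mem_toFinset, Polynomial.mem_roots hne, Polynomial.IsRoot.def, hP] at hs
  rw [← LinearMap.isUnit_iff_ker_eq_bot, LinearMap.isUnit_iff_isUnit_det]
  exact IsUnit.mk0 _ hs

end

/-- semicontinuity of the kernel -/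
theorem finrank_ker_semicont {E F : Type} [AddCommGroup E] [Module ℂ E] [Module.Finite ℂ E]
    [AddCommGroup F] [Module ℂ F] (K : ℕ) (A : ℕ → E →ₗ[ℂ] F) :
    ∃ Z : Finset ℂ, ∀ s ∉ Z, finrank ℂ (LinearMap.ker (∑ k ∈ Finset.range (K + 1), s ^ k • A k)) ≤
      finrank ℂ (LinearMap.ker (A 0)) := by
  classical
  obtain ⟨W, hW⟩ := Submodule.exists_isCompl (LinearMap.ker (A 0))
  have hinj : LinearMap.ker ((A 0).comp W.subtype) = ⊥ := by
    rw [Submodule.eq_bot_iff]
    intro x hx
    have h1 : (x : E) ∈ LinearMap.ker (A 0) ⊓ W := ⟨hx, x.2⟩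
    rw [hW.inf_eq_bot, Submodule.mem_bot] at h1
    exact Subtype.ext h1
  obtain ⟨Ψ, hΨ⟩ := LinearMap.exists_leftInverse_of_injective _ hinj
  obtain ⟨Z, hZ⟩ := exists_finite_det K (fun k => Ψ.comp ((A k).comp W.subtype)) hΨ
  refine ⟨Z, fun s hs => ?_⟩
  have h1 := hZ s hs
  have h2 : LinearMap.ker (∑ k ∈ Finset.range (K + 1), s ^ k • A k) ⊓ W = ⊥ := by
    rw [Submodule.eq_bot_iff]
    rintro x ⟨hx, hxW⟩
    have h3 : (⟨x, hxW⟩ : W) ∈ LinearMap.ker
        (∑ k ∈ Finset.range (K + 1), s ^ k • (Ψ.comp ((A k).comp W.subtype))) := by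
      rw [LinearMap.mem_ker, LinearMap.sum_apply]
      have h4 : (∑ k ∈ Finset.range (K + 1), s ^ k • A k) x = 0 := hx
      rw [LinearMap.sum_apply] at h4
      have h5 := congrArg Ψ h4
      rw [map_sum, map_zero] at h5
      rw [← h5]
      refine Finset.sum_congr rfl (fun k _ => ?_)
      rw [LinearMap.smul_apply, LinearMap.smul_apply, map_smul]
      rfl
    rw [h1, Submodule.mem_bot] at h3
    exact congrArg Subtype.val h3
  have h3 := Submodule.finrank_sup_add_finrank_inf_eq
    (LinearMap.ker (∑ k ∈ Finset.range (K + 1), s ^ k • A k)) W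
  rw [h2, finrank_bot, add_zero] at h3
  have h4 := Submodule.finrank_add_eq_of_isCompl hW
  have h5 := Submodule.finrank_le
    (LinearMap.ker (∑ k ∈ Finset.range (K + 1), s ^ k • A k) ⊔ W)
  omega

end Pool.Agent.Work.MP_0421d9_ag
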