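import Pool.Agent.Work.MP_0421d9_ag.LD2

/-!
Degeneration of a linear system with generic base points: if the monomials are separated by a
weight into two blocks, and the points are distributed between the two blocks, then the dimension
is at most the sum of the dimensions of the two blocks.
-/

set_option linter.unusedSectionVars false

namespace Pool.Agent.Work.MP_0421d9_ag

open MvPolynomial Module

/-! ### coefficientwise multiplication -/

/-- multiplication of the coefficients by a function of the exponents -/
noncomputable def cm (c : Ex → ℂ) : R3 →ₗ[ℂ] R3 where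
  toFun F := ∑ α ∈ F.support, monomial α (c α * coeff α F)
  map_add' F G := by
    classical
    have h : ∀ F : R3, ∀ β, coeff β (∑ α ∈ F.support, monomial α (c α * coeff α F)) =
        c β * coeff β F := by
      intro F β
      rw [coeff_sum]
      simp only [coeff_monomial]
      rw [Finset.sum_ite_eq' F.support β]
      split_ifs with h
      · rfl
      · rw [notMem_support_iff.mp h, mul_zero]
    ext β
    rw [coeff_add, h, h, h, coeff_add, mul_add]
  map_smul' a F := by
    classical
    have h : ∀ F : R3, ∀ β, coeff β (∑ α ∈ F.support, monomial α (c α * coeff α F)) =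
        c β * coeff β F := by
      intro F β
      rw [coeff_sum]
      simp only [coeff_monomial]
      rw [Finset.sum_ite_eq' F.support β]
      split_ifs with h
      · rfl
      · rw [notMem_support_iff.mp h, mul_zero]
    ext β
    rw [h, RingHom.id_apply, coeff_smul, coeff_smul, h, smul_eq_mul, smul_eq_mul]
    ring

theorem coeff_cm (c : Ex → ℂ) (F : R3) (β : Ex) : coeff β (cm c F) = c β * coeff β F := by
  classical
  change coeff β (∑ α ∈ F.support, monomial α (c α * coeff α F)) = _
  rw [coeff_sum]
  simp only [coeff_monomial]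
  rw [Finset.sum_ite_eq' F.support β]
  split_ifs with h
  · rfl
  · rw [notMem_support_iff.mp h, mul_zero]

theorem cm_isHomogeneous (c : Ex → ℂ) {F : R3} {d : ℕ} (hF : F.IsHomogeneous d) :
    (cm c F).IsHomogeneous d := by
  intro α hα
  apply hF
  rw [coeff_cm] at hα
  exact right_ne_zero_of_mul hα

theorem supp_cm (c : Ex → ℂ) {F : R3} {α : Ex} (h : coeff α (cm c F) ≠ 0) :
    c α ≠ 0 ∧ coeff α F ≠ 0 := by
  rw [coeff_cm] at h
  exact ⟨left_ne_zero_of_mul h, right_ne_zero_of_mul h⟩

/-! ### rescaling of the variables -/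

/-- the weight of an exponent -/
def wg (lam : Fin 3 → ℕ) (α : Ex) : ℕ := lam 0 * α 0 + lam 1 * α 1 + lam 2 * α 2

/-- the substitution `X k ↦ t ^ lam k * X k` -/
noncomputable def sc (lam : Fin 3 → ℕ) (t : ℂ) : R3 →ₐ[ℂ] R3 :=
  aeval fun k => C (t ^ lam k) * X k

theorem coeff_sc (lam : Fin 3 → ℕ) (t : ℂ) (F : R3) (β : Ex) :
    coeff β (sc lam t F) = t ^ wg lam β * coeff β F := by
  classical
  induction F using MvPolynomial.induction_on' with
  | monomial α a =>
    unfold sc
    rw [aeval_monomial, Finsupp.prod_pow, Fin.prod_univ_three]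
    have h1 : (algebraMap ℂ R3) a * ((C (t ^ lam 0) * X 0) ^ α 0 * (C (t ^ lam 1) * X 1) ^ α 1 *
        (C (t ^ lam 2) * X 2) ^ α 2) = C (t ^ wg lam α) * monomial α a := by
      have h2 : (monomial α a : R3) = C a * (X 0 ^ α 0 * X 1 ^ α 1 * X 2 ^ α 2) := by
        rw [monomial_eq, Finsupp.prod_pow, Fin.prod_univ_three]
      rw [h2, algebraMap_eq, mul_pow, mul_pow, mul_pow, ← C_pow, ← C_pow, ← C_pow, wg, pow_add,
        pow_add, pow_mul, pow_mul, pow_mul, C_mul, C_mul]
      ring
    rw [h1, coeff_C_mul, coeff_monomial]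
    split_ifs with h
    · rw [h]
    · rw [mul_zero, mul_zero]
  | add F G hF hG => rw [map_add, coeff_add, coeff_add, hF, hG, mul_add]

theorem component_sc (lam : Fin 3 → ℕ) (t : ℂ) (n : ℕ) (F : R3) :
    homogeneousComponent n (sc lam t F) = sc lam t (homogeneousComponent n F) := by
  ext β
  rw [coeff_homogeneousComponent, coeff_sc, coeff_sc, coeff_homogeneousComponent]
  split_ifs
  · rfl
  · rw [mul_zero]

theorem translate_sc (lam : Fin 3 → ℕ) (t : ℂ) (a : V3) (F : R3) :
    translate a (sc lam t F) = sc lam t (translate (fun k => t ^ lam k * a k) F) := by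
  have key : (aeval (fun k => C (a k) + X k) : R3 →ₐ[ℂ] R3).comp (sc lam t) =
      (sc lam t).comp (aeval fun k => C (t ^ lam k * a k) + X k : R3 →ₐ[ℂ] R3) := by
    apply MvPolynomial.algHom_ext
    intro k
    rw [AlgHom.comp_apply, AlgHom.comp_apply, aeval_X]
    unfold sc
    rw [aeval_X, map_mul, map_add, aeval_X, aeval_X, algHom_C, algHom_C, algebraMap_eq, C_mul]
    ring
  exact DFunLike.congr_fun key F

theorem vanishTo_sc {lam : Fin 3 → ℕ} {t : ℂ} {a : V3} {F : R3} {m : ℕ}
    (h : VanishTo F (fun k => t ^ lam k * a k) m) : VanishTo (sc lam t F) a m := by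
  intro k hk
  rw [translate_sc, component_sc, h k hk, map_zero]

/-! ### the conditions at a point -/

/-- the components of degree less than `n` at the point `a` -/
noncomputable def cond (a : V3) (n : ℕ) : R3 →ₗ[ℂ] (Fin n → R3) :=
  LinearMap.pi fun k => (homogeneousComponent (k : ℕ)).comp
    ((aeval fun l => C (a l) + X l : R3 →ₐ[ℂ] R3).toLinearMap)

theorem cond_eq_zero {a : V3} {n : ℕ} {F : R3} : cond a n F = 0 ↔ VanishTo F a n := by
  constructor
  · intro h k hk
    exact congrFun h ⟨k, hk⟩
  · intro h
    funext k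
    exact h k k.2

/-! ### the degeneration -/

section block

variable {ι : Type} {d : ℕ} {p : ι → V3} {m : ι → ℕ}

open Classical in
/-- the terms of the polynomial family -/
noncomputable def fam (p : ι → V3) (m : ι → ℕ) (W : ι → Prop) (eP eF : Ex → ℕ) (k : ℕ) :
    (R3 × R3) →ₗ[ℂ] (∀ i, Fin (m i) → R3) :=
  LinearMap.pi fun i => (cond (p i) (m i)).comp
    (if W i then
      (if k = 0 then LinearMap.fst ℂ R3 R3 else 0) +
        (cm fun α => if eF α = k then 1 else 0).comp (LinearMap.snd ℂ R3 R3)
    else (cm fun α => if eP α = k then 1 else 0).comp (LinearMap.fst ℂ R3 R3) +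
        (if k = 0 then LinearMap.snd ℂ R3 R3 else 0))

open Classical in
theorem fam_sum (W : ι → Prop) (eP eF : Ex → ℕ) (K : ℕ) (s : ℂ) (G H : R3)
    (hP : ∀ α, coeff α G ≠ 0 → eP α ≤ K) (hF : ∀ α, coeff α H ≠ 0 → eF α ≤ K) (i : ι) :
    (∑ k ∈ Finset.range (K + 1), s ^ k • fam p m W eP eF k) (G, H) i =
      cond (p i) (m i) (if W i then G + cm (fun α => s ^ eF α) H
        else cm (fun α => s ^ eP α) G + H) := by
  have hcm : ∀ (e : Ex → ℕ) (F : R3), (∀ α, coeff α F ≠ 0 → e α ≤ K) →
      ∑ k ∈ Finset.range (K + 1), s ^ k • cm (fun α => if e α = k then 1 else 0) F =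
        cm (fun α => s ^ e α) F := by
    intro e F he
    ext α
    rw [coeff_sum, coeff_cm]
    by_cases h : coeff α F = 0
    · rw [h, mul_zero]
      refine Finset.sum_eq_zero (fun k _ => ?_)
      rw [coeff_smul, coeff_cm, h, mul_zero, smul_zero]
    · rw [Finset.sum_eq_single (e α)]
      · rw [coeff_smul, coeff_cm, if_pos rfl, one_mul, smul_eq_mul]
      · intro k _ hk
        rw [coeff_smul, coeff_cm, if_neg (Ne.symm hk), zero_mul, smul_zero]
      · intro h1
        exact absurd (Finset.mem_range.mpr (Nat.lt_succ_of_le (he α h))) h1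
  have h0 : ∀ F : R3, ∑ k ∈ Finset.range (K + 1), s ^ k • (if k = 0 then F else 0) = F := by
    intro F
    rw [Finset.sum_eq_single 0]
    · rw [if_pos rfl, pow_zero, one_smul]
    · intro k _ hk
      rw [if_neg hk, smul_zero]
    · intro h1
      exact absurd (Finset.mem_range.mpr (Nat.succ_pos K)) h1
  rw [LinearMap.sum_apply, Finset.sum_apply]
  by_cases hW : W i
  · rw [if_pos hW]
    have h1 : ∀ k, (s ^ k • fam p m W eP eF k) (G, H) i = cond (p i) (m i)
        (s ^ k • (if k = 0 then G else 0) +
          s ^ k • cm (fun α => if eF α = k then 1 else 0) H) := by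
      intro k
      rw [LinearMap.smul_apply, Pi.smul_apply]
      unfold fam
      rw [LinearMap.pi_apply, LinearMap.comp_apply, if_pos hW, LinearMap.add_apply,
        LinearMap.comp_apply, LinearMap.snd_apply, ← map_smul, smul_add]
      congr 2
      split_ifs
      · rfl
      · rfl
    rw [Finset.sum_congr rfl (fun k _ => h1 k), ← map_sum, Finset.sum_add_distrib, h0, hcm _ _ hF]
  · rw [if_neg hW]
    have h1 : ∀ k, (s ^ k • fam p m W eP eF k) (G, H) i = cond (p i) (m i)
        (s ^ k • cm (fun α => if eP α = k then 1 else 0) G +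
          s ^ k • (if k = 0 then H else 0)) := by
      intro k
      rw [LinearMap.smul_apply, Pi.smul_apply]
      unfold fam
      rw [LinearMap.pi_apply, LinearMap.comp_apply, if_neg hW, LinearMap.add_apply,
        LinearMap.comp_apply, LinearMap.fst_apply, ← map_smul, smul_add]
      congr 2
      split_ifs
      · rfl
      · rfl
    rw [Finset.sum_congr rfl (fun k _ => h1 k), ← map_sum, Finset.sum_add_distrib, h0, hcm _ _ hP]

end block

end Pool.Agent.Work.MP_0421d9_ag
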