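import Pool.Agent.Work.MP_0421d9_ag.LD3

/-!
The block inequality for linear systems with generic base points.
-/

set_option linter.unusedSectionVars false

namespace Pool.Agent.Work.MP_0421d9_ag

open MvPolynomial Module

theorem wg_le (lam : Fin 3 → ℕ) {α : Ex} {d : ℕ} (h : α.degree = d) :
    wg lam α ≤ (lam 0 + lam 1 + lam 2) * d := by
  rw [degree_three] at h
  unfold wg
  have h0 : lam 0 * α 0 ≤ lam 0 * d := Nat.mul_le_mul_left _ (by omega)
  have h1 : lam 1 * α 1 ≤ lam 1 * d := Nat.mul_le_mul_left _ (by omega)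
  have h2 : lam 2 * α 2 ≤ lam 2 * d := Nat.mul_le_mul_left _ (by omega)
  rw [add_mul, add_mul]
  omega

theorem wg_two (lam : Fin 3 → ℕ) (α : Ex) : wg (fun k => 2 * lam k) α = 2 * wg lam α := by
  unfold wg
  ring

/-- a natural number whose inverse avoids a finite set -/
theorem exists_nat_inv (Z : Finset ℂ) : ∃ t : ℕ, 1 ≤ t ∧ ((t : ℂ))⁻¹ ∉ Z := by
  have hinj : Function.Injective (fun n : ℕ => (((n + 1 : ℕ) : ℂ))⁻¹) := by
    intro a b hab
    have h := inv_injective hab
    have h' : a + 1 = b + 1 := Nat.cast_injective h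
    omega
  obtain ⟨n, hn⟩ := Set.Infinite.exists_notMem_finset (Set.infinite_range_of_injective hinj) Z
  obtain ⟨⟨k, rfl⟩, h⟩ := hn
  exact ⟨k + 1, by omega, h⟩

section block

variable {ι : Type} [Fintype ι] [DecidableEq ι] {d : ℕ} {p : ι → V3} {m : ι → ℕ}

/-- the special member of the family -/
theorem finrank_ker_fam {W : ι → Prop} {DP DF : Ex → Prop} {eP eF : Ex → ℕ}
    (hP : ∀ α, α.degree = d → DP α → 1 ≤ eP α) (hF : ∀ α, α.degree = d → DF α → 1 ≤ eF α) :
    finrank ℂ (LinearMap.ker ((fam p m W eP eF 0).comp (LinearMap.prodMap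
      (ms d p (fun _ => 0) DP).subtype (ms d p (fun _ => 0) DF).subtype))) ≤
      finrank ℂ (ms d p (rs W m) DP) + finrank ℂ (ms d p (rs (fun i => ¬ W i) m) DF) := by
  classical
  have hz : ∀ (e : Ex → ℕ) (D : Ex → Prop), (∀ α, α.degree = d → D α → 1 ≤ e α) →
      ∀ F ∈ ms d p (fun _ => 0) D, cm (fun α => if e α = 0 then 1 else 0) F = 0 := by
    intro e D he F hF
    ext α
    rw [coeff_cm, coeff_zero]
    by_cases h : coeff α F = 0
    · rw [h, mul_zero]
    · have h1 := he α (degree_of_coeff hF.1.1 h) (hF.2 α h)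
      rw [if_neg (by omega), zero_mul]
  set A := (fam p m W eP eF 0).comp (LinearMap.prodMap
      (ms d p (fun _ => 0) DP).subtype (ms d p (fun _ => 0) DF).subtype) with hA
  have hker : ∀ x : (ms d p (fun _ => 0) DP) × (ms d p (fun _ => 0) DF), x ∈ LinearMap.ker A →
      (x.1 : R3) ∈ ms d p (rs W m) DP ∧ (x.2 : R3) ∈ ms d p (rs (fun i => ¬ W i) m) DF := by
    rintro ⟨⟨G, hG⟩, ⟨H, hH⟩⟩ hx
    have h1 : ∀ i, cond (p i) (m i) (if W i then G + cm (fun α => if eF α = 0 then 1 else 0) H
        else cm (fun α => if eP α = 0 then 1 else 0) G + H) = 0 := by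
      intro i
      have h2 := congrFun (LinearMap.mem_ker.mp hx) i
      rw [hA, LinearMap.comp_apply] at h2
      unfold fam at h2
      rw [LinearMap.pi_apply, LinearMap.comp_apply] at h2
      rw [Pi.zero_apply] at h2
      rw [← h2]
      congr 1
      by_cases hW : W i
      · rw [if_pos hW, if_pos hW, if_pos rfl]
        rfl
      · rw [if_neg hW, if_neg hW, if_pos rfl]
        rfl
    refine ⟨⟨⟨hG.1.1, fun i => ?_⟩, hG.2⟩, ⟨⟨hH.1.1, fun i => ?_⟩, hH.2⟩⟩
    · by_cases hW : W i
      · have h2 := h1 i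
        rw [if_pos hW, hz eF DF hF H hH, add_zero, cond_eq_zero] at h2
        rw [rs_of hW]
        exact h2
      · rw [rs_not hW]
        exact fun k hk => absurd hk (Nat.not_lt_zero k)
    · by_cases hW : W i
      · rw [rs_not (W := fun i => ¬ W i) (by simpa using hW)]
        exact fun k hk => absurd hk (Nat.not_lt_zero k)
      · have h2 := h1 i
        rw [if_neg hW, hz eP DP hP G hG, zero_add, cond_eq_zero] at h2
        rw [rs_of (W := fun i => ¬ W i) hW]
        exact h2
  let f : LinearMap.ker A →ₗ[ℂ]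
      (ms d p (rs W m) DP) × (ms d p (rs (fun i => ¬ W i) m) DF) :=
    { toFun := fun x => (⟨(x.1.1 : R3), (hker x.1 x.2).1⟩, ⟨(x.1.2 : R3), (hker x.1 x.2).2⟩)
      map_add' := fun x y => rfl
      map_smul' := fun c x => rfl }
  have hf : Function.Injective f := by
    rintro ⟨⟨⟨G, hG⟩, ⟨H, hH⟩⟩, hx⟩ ⟨⟨⟨G', hG'⟩, ⟨H', hH'⟩⟩, hx'⟩ hxy
    have h1 : G = G' := congrArg (fun z => (z.1 : R3)) hxy
    have h2 : H = H' := congrArg (fun z => (z.2 : R3)) hxy
    subst h1
    subst h2
    rfl
  have h1 := LinearMap.finrank_le_finrank_of_injective hf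
  rwa [Module.finrank_prod] at h1

/-- **Block inequality.** -/
theorem block (hp : GenericPoints p) (W : ι → Prop) {D DP DF : Ex → Prop} (lam : Fin 3 → ℕ)
    (hD : ∀ α, α.degree = d → D α → DP α ∨ DF α)
    (hgap : ∀ α β, α.degree = d → β.degree = d → DP α → DF β → wg lam α < wg lam β) :
    finrank ℂ (ms d p m D) ≤
      finrank ℂ (ms d p (rs W m) DP) + finrank ℂ (ms d p (rs (fun i => ¬ W i) m) DF) := by
  classical
  by_cases hP : ∃ α : Ex, α.degree = d ∧ DP α
  swap
  · have h1 := finrank_ms_mono (d := d) (p := p) (m := m) (D := D) (D' := DF)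
      (rs_le (fun i => ¬ W i) m) (fun α hα h => (hD α hα h).resolve_left
        (fun h' => hP ⟨α, hα, h'⟩))
    omega
  obtain ⟨κ, hκ1, hκ2⟩ : ∃ κ, (∀ α : Ex, α.degree = d → DP α → wg lam α ≤ κ) ∧
      (∀ β : Ex, β.degree = d → DF β → κ < wg lam β) := by
    let S : Set ℕ := {n | ∃ α : Ex, α.degree = d ∧ DP α ∧ wg lam α = n}
    have hS : S.Nonempty := by
      obtain ⟨α, h1, h2⟩ := hP
      exact ⟨_, α, h1, h2, rfl⟩
    have hb : BddAbove S := by
      refine ⟨(lam 0 + lam 1 + lam 2) * d, ?_⟩
      rintro n ⟨α, h1, -, rfl⟩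
      exact wg_le lam h1
    obtain ⟨α, h1, h2, h3⟩ := Nat.sSup_mem hS hb
    refine ⟨sSup S, fun α' h1' h2' => le_csSup hb ⟨α', h1', h2', rfl⟩, fun β h4 h5 => ?_⟩
    rw [← h3]
    exact hgap α β h1 h4 h2 h5
  set eP : Ex → ℕ := fun α => 2 * κ + 1 - 2 * wg lam α with heP
  set eF : Ex → ℕ := fun α => 2 * wg lam α - (2 * κ + 1) with heF
  set K : ℕ := 2 * κ + 1 + 2 * ((lam 0 + lam 1 + lam 2) * d) with hK
  set A : ℕ → ((ms d p (fun _ => 0) DP) × (ms d p (fun _ => 0) DF)) →ₗ[ℂ]
      (∀ i, Fin (m i) → R3) := fun k => (fam p m W eP eF k).comp (LinearMap.prodMap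
      (ms d p (fun _ => 0) DP).subtype (ms d p (fun _ => 0) DF).subtype) with hA
  obtain ⟨Z, hZ⟩ := finrank_ker_semicont K A
  obtain ⟨t, ht, htZ⟩ := exists_nat_inv Z
  have ht0 : (t : ℂ) ≠ 0 := by
    rw [Nat.cast_ne_zero]; omega
  have h1 := hZ _ htZ
  have h2 : finrank ℂ (LinearMap.ker (A 0)) ≤ _ := finrank_ker_fam (m := m) (W := W) (DP := DP)
    (DF := DF) (eP := eP) (eF := eF) (fun α h3 h4 => by
      have := hκ1 α h3 h4
      simp only [heP]
      omega) (fun α h3 h4 => by
      have := hκ2 α h3 h4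
      simp only [heF]
      omega)
  refine le_trans ?_ (h1.trans h2)
  set s : ℂ := (t : ℂ)⁻¹ with hs
  set u : ι → Fin 3 → ℚ := fun i k => if W i then 1 else (t : ℚ) ^ (2 * lam k) with hu
  have hu0 : ∀ i k, u i k ≠ 0 := by
    intro i k
    simp only [hu]
    split_ifs
    · exact one_ne_zero
    · apply pow_ne_zero
      rw [Nat.cast_ne_zero]
      omega
  rw [finrank_ms_scale hp u hu0]
  set q : ι → V3 := fun i k => (u i k : ℂ) * p i k with hq
  have hqW : ∀ i, W i → q i = p i := by
    intro i hi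
    funext k
    simp only [hq, hu, if_pos hi]
    push_cast
    ring
  have hqN : ∀ i, ¬ W i → q i = fun k => (t : ℂ) ^ ((fun k => 2 * lam k) k) * p i k := by
    intro i hi
    funext k
    simp only [hq, hu, if_neg hi]
    push_cast
    ring
  set cP : Ex → ℂ := fun α => if DP α then 1 else 0 with hcP
  set cF : Ex → ℂ := fun α => if DP α then 0 else if DF α then (t : ℂ) ^ eF α else 0 with hcF
  have hGm : ∀ F ∈ ms d q m D, cm cP F ∈ ms d p (fun _ => 0) DP := by
    intro F hF
    refine ⟨⟨cm_isHomogeneous _ hF.1.1, fun i k hk => absurd hk (Nat.not_lt_zero k)⟩, ?_⟩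
    intro α hα
    by_contra hn
    exact (supp_cm _ hα).1 (if_neg hn)
  have hHm : ∀ F ∈ ms d q m D, cm cF F ∈ ms d p (fun _ => 0) DF := by
    intro F hF
    refine ⟨⟨cm_isHomogeneous _ hF.1.1, fun i k hk => absurd hk (Nat.not_lt_zero k)⟩, ?_⟩
    intro α hα
    by_contra hn
    apply (supp_cm _ hα).1
    simp only [hcF]
    split_ifs <;> rfl
  have hst : s * (t : ℂ) = 1 := by
    rw [hs, inv_mul_cancel₀ ht0]
  have hker : ∀ F (hF : F ∈ ms d q m D),
      ((⟨cm cP F, hGm F hF⟩, ⟨cm cF F, hHm F hF⟩) :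
        (ms d p (fun _ => 0) DP) × (ms d p (fun _ => 0) DF)) ∈
        LinearMap.ker (∑ k ∈ Finset.range (K + 1), s ^ k • A k) := by
    intro F hF
    rw [LinearMap.mem_ker]
    have h3 : (∑ k ∈ Finset.range (K + 1), s ^ k • A k)
        (⟨cm cP F, hGm F hF⟩, ⟨cm cF F, hHm F hF⟩) =
        (∑ k ∈ Finset.range (K + 1), s ^ k • fam p m W eP eF k) (cm cP F, cm cF F) := by
      rw [LinearMap.sum_apply, LinearMap.sum_apply]
      rfl
    rw [h3]
    funext i
    rw [fam_sum, Pi.zero_apply]
    · by_cases hW : W i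
      · rw [if_pos hW, cond_eq_zero]
        have h4 : cm cP F + cm (fun α => s ^ eF α) (cm cF F) = F := by
          ext α
          rw [coeff_add, coeff_cm, coeff_cm, coeff_cm]
          by_cases h : coeff α F = 0
          · rw [h, mul_zero, mul_zero, mul_zero, add_zero]
          · have h5 := hD α (degree_of_coeff hF.1.1 h) (hF.2 α h)
            by_cases h6 : DP α
            · simp only [hcP, hcF, if_pos h6]
              ring
            · simp only [hcP, hcF, if_neg h6, if_pos (h5.resolve_left h6)]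
              rw [zero_mul, zero_add, ← mul_assoc, ← mul_pow, hst, one_pow, one_mul]
        rw [h4, ← hqW i hW]
        exact hF.1.2 i
      · rw [if_neg hW, cond_eq_zero]
        have h4 : cm (fun α => s ^ eP α) (cm cP F) + cm cF F =
            (s ^ (2 * κ + 1)) • sc (fun k => 2 * lam k) t F := by
          ext α
          rw [coeff_add, coeff_cm, coeff_cm, coeff_cm, coeff_smul, coeff_sc, wg_two, smul_eq_mul]
          by_cases h : coeff α F = 0
          · rw [h]
            ring
          · have hdeg := degree_of_coeff hF.1.1 h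
            have h5 := hD α hdeg (hF.2 α h)
            by_cases h6 : DP α
            · simp only [hcP, hcF, if_pos h6]
              have h7 := hκ1 α hdeg h6
              have h8 : 2 * κ + 1 = eP α + 2 * wg lam α := by
                simp only [heP]
                omega
              rw [one_mul, zero_mul, add_zero]
              rw [h8, pow_add, mul_assoc, ← mul_assoc (s ^ (2 * wg lam α)), ← mul_pow, hst,
                one_pow, one_mul]
            · have h6' := h5.resolve_left h6
              simp only [hcP, hcF, if_neg h6, if_pos h6']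
              have h7 := hκ2 α hdeg h6'
              have h8 : 2 * wg lam α = (2 * κ + 1) + eF α := by
                simp only [heF]
                omega
              have key : s ^ (2 * κ + 1) * (t : ℂ) ^ (2 * κ + 1) = 1 := by
                rw [← mul_pow, hst, one_pow]
              rw [h8, pow_add (t : ℂ) (2 * κ + 1)]
              linear_combination (-((t : ℂ) ^ eF α * coeff α F)) * key
        rw [h4]
        have h5 : VanishTo (sc (fun k => 2 * lam k) t F) (p i) (m i) := by
          apply vanishTo_sc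
          rw [← hqN i hW]
          exact hF.1.2 i
        rw [← cond_eq_zero] at h5 ⊢
        rw [map_smul, h5, smul_zero]
    · intro α _
      simp only [heP, hK]
      omega
    · intro α hα
      have hdeg := degree_of_coeff (hHm F hF).1.1 hα
      have := wg_le lam hdeg
      simp only [heF, hK]
      omega
  let f : ms d q m D →ₗ[ℂ] LinearMap.ker (∑ k ∈ Finset.range (K + 1), s ^ k • A k) :=
    { toFun := fun F => ⟨(⟨cm cP F.1, hGm F.1 F.2⟩, ⟨cm cF F.1, hHm F.1 F.2⟩), hker F.1 F.2⟩
      map_add' := fun x y => by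
        apply Subtype.ext
        apply Prod.ext
        · exact Subtype.ext (map_add (cm cP) x.1 y.1)
        · exact Subtype.ext (map_add (cm cF) x.1 y.1)
      map_smul' := fun c x => by
        apply Subtype.ext
        apply Prod.ext
        · exact Subtype.ext (map_smul (cm cP) c x.1)
        · exact Subtype.ext (map_smul (cm cF) c x.1) }
  refine LinearMap.finrank_le_finrank_of_injective (f := f) ?_
  rw [injective_iff_map_eq_zero]
  rintro ⟨F, hF⟩ hx
  have hx' := congrArg Subtype.val hx
  have h3 : cm cP F = 0 := congrArg (fun z => (z.1 : R3)) hx'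
  have h4 : cm cF F = 0 := congrArg (fun z => (z.2 : R3)) hx'
  apply Subtype.ext
  change F = 0
  ext α
  rw [coeff_zero]
  by_contra h
  have h5 := hD α (degree_of_coeff hF.1.1 h) (hF.2 α h)
  by_cases h6 : DP α
  · have h7 := congrArg (coeff α) h3
    rw [coeff_cm, coeff_zero] at h7
    simp only [hcP, if_pos h6, one_mul] at h7
    exact h h7
  · have h7 := congrArg (coeff α) h4
    rw [coeff_cm, coeff_zero] at h7
    simp only [hcF, if_neg h6, if_pos (h5.resolve_left h6)] at h7
    rcases mul_eq_zero.mp h7 with h8 | h8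
    · exact pow_ne_zero _ ht0 h8
    · exact h h8

end block

end Pool.Agent.Work.MP_0421d9_ag
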