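import Pool.Agent.Work.MP_0421d9_ag.Unif2

/-!
Uniform systems at five points attaining the bound; final form of the bound.
-/

set_option linter.unusedSectionVars false

namespace Pool.Agent.Work.MP_0421d9_ag

open MvPolynomial Module

/-- The bound for the dimension of the special systems of curves with `r` points of multiplicity
`m`: the sum of `1 + 2 + ... + (m - 1)` and of the positive numbers among
`m - 1 - (r - 1), m - 1 - 2 (r - 1), ...`. For `r ≥ m` it is `m.choose 2`. -/
def uniformBound (r m : ℕ) : ℕ :=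
  m.choose 2 + ∑ k ∈ Finset.range m, (m - 1 - (k + 1) * (r - 1))

theorem sum_eq_stair {q : ℕ} (hq : 1 ≤ q) (m : ℕ) :
    ∑ k ∈ Finset.range m, (m - 1 - (k + 1) * q) = stair q (m - 1 - q) := by
  unfold stair
  have h1 : ∀ k, m - 1 - (k + 1) * q = (m - 1 - q) - k * q := by
    intro k
    rw [add_mul, one_mul, Nat.sub_sub (m - 1), add_comm q]
  rw [Finset.sum_congr rfl (fun k _ => h1 k)]
  rcases Nat.eq_zero_or_pos m with h | h
  · subst h
    simp
  · symm
    apply Finset.sum_subset
    · intro k hk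
      rw [Finset.mem_range] at *
      omega
    · intro k _ hk
      rw [Finset.mem_range] at hk
      have : k ≤ k * q := Nat.le_mul_of_pos_right k hq
      omega

theorem uniformBound_eq {q : ℕ} (hq : 1 ≤ q) (m : ℕ) :
    uniformBound (q + 1) m = m.choose 2 + stair q (m - 1 - q) := by
  unfold uniformBound
  rw [Nat.add_sub_cancel, sum_eq_stair hq]

/-- **Special uniform systems are small.** -/
theorem uniform_special {r m d : ℕ} {p : Fin r → V3} (hr : 2 ≤ r) (hp : GenericPoints p)
    (hpos : linSys d p (fun _ => m) ≠ ⊥)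
    (h : finrank ℂ (linSys d p (fun _ => m)) + r * (m + 1).choose 2 ≠ (d + 2).choose 2) :
    finrank ℂ (linSys d p (fun _ => m)) ≤ uniformBound r m := by
  obtain ⟨q, rfl⟩ : ∃ q, r = q + 1 := ⟨r - 1, by omega⟩
  rw [uniformBound_eq (by omega)]
  exact unif_special hp (by omega) (Fintype.card_fin _) hpos h

theorem vanishTo_mul {f g : R3} {a : V3} {μ ν : ℕ} (hf : VanishTo f a μ) (hg : VanishTo g a ν) :
    VanishTo (f * g) a (μ + ν) := by
  intro k hk
  rw [translate_mul]
  conv_lhs => rw [← sum_homogeneousComponent (translate a f)]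
  rw [Finset.sum_mul, map_sum]
  refine Finset.sum_eq_zero (fun n _ => ?_)
  have hn := homogeneousComponent_isHomogeneous n (translate a f)
  by_cases h1 : n < μ
  · rw [hf n h1, zero_mul, map_zero]
  · by_cases h2 : k < n
    · exact homogeneousComponent_mul_lt hn h2 _
    · obtain ⟨l, rfl⟩ : ∃ l, k = n + l := ⟨k - n, by omega⟩
      rw [homogeneousComponent_mul hn, hg l (by omega), mul_zero]

theorem choose_five (κ : ℕ) :
    2 * (5 * κ + 2).choose 2 = 5 * (2 * (2 * κ + 1).choose 2) + (5 * κ * κ + 5 * κ + 2) := by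
  induction κ with
  | zero => rfl
  | succ κ ih =>
    have h1 : (5 * (κ + 1) + 2).choose 2 = (5 * κ + 2).choose 2 + (25 * κ + 20) := by
      have e1 := choose_two_succ (5 * κ + 5)
      have e2 := choose_two_succ (5 * κ + 4)
      have e3 := choose_two_succ (5 * κ + 3)
      have e4 := choose_two_succ (5 * κ + 2)
      have e5 := choose_two_succ (5 * κ + 1)
      have h0 : 5 * (κ + 1) + 2 = 5 * κ + 5 + 2 := by ring
      rw [h0, e1]
      have f2 : 5 * κ + 5 + 1 = 5 * κ + 4 + 2 := by ring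
      rw [f2, e2]
      have f3 : 5 * κ + 4 + 1 = 5 * κ + 3 + 2 := by ring
      rw [f3, e3]
      have f4 : 5 * κ + 3 + 1 = 5 * κ + 2 + 2 := by ring
      rw [f4, e4]
      have f5 : 5 * κ + 2 + 1 = 5 * κ + 1 + 2 := by ring
      rw [f5, e5]
      have f6 : 5 * κ + 1 + 1 = 5 * κ + 2 := by ring
      rw [f6]
      ring
    have h2 : (2 * (κ + 1) + 1).choose 2 = (2 * κ + 1).choose 2 + (4 * κ + 3) := by
      have e1 := choose_two_succ (2 * κ + 1)
      have e2 := choose_two_succ (2 * κ)
      have h0 : 2 * (κ + 1) + 1 = 2 * κ + 1 + 2 := by ring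
      rw [h0, e1]
      have f2 : 2 * κ + 1 + 1 = 2 * κ + 2 := by ring
      rw [f2, e2]
      ring
    rw [h1, h2]
    have h3 : 5 * (κ + 1) * (κ + 1) + 5 * (κ + 1) + 2 =
        (5 * κ * κ + 5 * κ + 2) + (10 * κ + 10) := by ring
    rw [h3]
    omega

theorem bound_five (κ : ℕ) :
    2 * uniformBound 5 (2 * κ + 2) = 5 * κ * κ + 5 * κ + 2 := by
  have key : ∀ κ, 2 * uniformBound 5 (2 * κ + 2) = 5 * κ * κ + 5 * κ + 2 ∧
      2 * uniformBound 5 (2 * (κ + 1) + 2) = 5 * (κ + 1) * (κ + 1) + 5 * (κ + 1) + 2 := by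
    intro κ
    induction κ with
    | zero => exact ⟨by decide, by decide⟩
    | succ κ ih =>
      refine ⟨ih.2, ?_⟩
      have h1 := ih.1
      rw [uniformBound_eq (by norm_num)] at h1 ⊢
      have e1 : (2 * (κ + 1 + 1) + 2).choose 2 = (2 * κ + 2).choose 2 + (8 * κ + 14) := by
        have f1 := choose_two_succ (2 * κ + 4)
        have f2 := choose_two_succ (2 * κ + 3)
        have f3 := choose_two_succ (2 * κ + 2)
        have f4 := choose_two_succ (2 * κ + 1)
        have g1 : 2 * (κ + 1 + 1) + 2 = 2 * κ + 4 + 2 := by ring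
        rw [g1, f1]
        have g2 : 2 * κ + 4 + 1 = 2 * κ + 3 + 2 := by ring
        rw [g2, f2]
        have g3 : 2 * κ + 3 + 1 = 2 * κ + 2 + 2 := by ring
        rw [g3, f3]
        have g4 : 2 * κ + 2 + 1 = 2 * κ + 1 + 2 := by ring
        rw [g4, f4]
        have g5 : 2 * κ + 1 + 1 = 2 * κ + 2 := by ring
        rw [g5]
        ring
      have e2 : 2 * (κ + 1 + 1) + 2 - 1 - 4 = 2 * κ + 1 := by omega
      have e3 : stair 4 (2 * κ + 1) = (2 * κ + 1) + stair 4 (2 * κ + 2 - 1 - 4) := by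
        have := stair_eq (q := 4) (by norm_num) (2 * κ + 1)
        rw [this]
        congr 2
      rw [e1, e2, e3]
      have h3 : 5 * (κ + 1 + 1) * (κ + 1 + 1) + 5 * (κ + 1 + 1) + 2 =
        (5 * κ * κ + 5 * κ + 2) + (20 * κ + 30) := by ring
      rw [h3]
      omega
  exact (key κ).1

/-- five points of even multiplicity -/
theorem five_attained {p : Fin 5 → V3} (hp : GenericPoints p) (κ : ℕ) :
    finrank ℂ (linSys (5 * κ + 4) p (fun _ => 2 * κ + 2)) = uniformBound 5 (2 * κ + 2) ∧
    (5 * κ + 4 + 2).choose 2 < finrank ℂ (linSys (5 * κ + 4) p (fun _ => 2 * κ + 2)) +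
      5 * (2 * κ + 2 + 1).choose 2 := by
  -- the conic
  have h1 := chi_le (d := 2) (p := p) (m := fun _ => 1) (fun _ => by norm_num)
  rw [Finset.sum_const, Finset.card_univ, Fintype.card_fin] at h1
  have h1' : 1 ≤ finrank ℂ (linSys 2 p (fun _ => 1)) := by
    have e1 : (2 + 2 : ℕ).choose 2 = 6 := rfl
    have e2 : (1 + 1 : ℕ).choose 2 = 1 := rfl
    rw [e1, e2] at h1
    simp only [smul_eq_mul] at h1
    omega
  obtain ⟨⟨A, hA⟩, hA0⟩ := Module.finrank_pos_iff_exists_ne_zero.mp h1'
  have hA0' : A ≠ 0 := fun h => hA0 (Subtype.ext h)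
  -- lower bound
  have h2 : (5 * κ * κ + 5 * κ + 2) ≤ 2 * finrank ℂ (linSys (5 * κ) p (fun _ => 2 * κ)) := by
    have h3 := chi_le (d := 5 * κ) (p := p) (m := fun _ => 2 * κ) (fun _ => by omega)
    rw [Finset.sum_const, Finset.card_univ, Fintype.card_fin, smul_eq_mul] at h3
    have h4 := choose_five κ
    omega
  have h3 : finrank ℂ (linSys (5 * κ) p (fun _ => 2 * κ)) ≤
      finrank ℂ (linSys (5 * κ + 4) p (fun _ => 2 * κ + 2)) := by
    rw [← finrank_map_mulLeft (mul_ne_zero hA0' hA0')]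
    apply Submodule.finrank_mono
    rintro _ ⟨g, hg, rfl⟩
    change A * A * g ∈ _
    refine ⟨?_, fun i => ?_⟩
    · have h4 := (hA.1.mul hA.1).mul hg.1
      rwa [(by ring : 2 + 2 + 5 * κ = 5 * κ + 4)] at h4
    · have h4 := vanishTo_mul (vanishTo_mul (hA.2 i) (hA.2 i)) (hg.2 i)
      rwa [(by ring : 1 + 1 + 2 * κ = 2 * κ + 2)] at h4
  have hb := bound_five κ
  have hsp : (5 * κ + 4 + 2).choose 2 < finrank ℂ (linSys (5 * κ + 4) p (fun _ => 2 * κ + 2)) +
      5 * (2 * κ + 2 + 1).choose 2 := by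
    have e1 : (5 * κ + 4 + 2).choose 2 = (5 * κ + 2).choose 2 + (20 * κ + 14) := by
      have f1 := choose_two_succ (5 * κ + 4)
      have f2 := choose_two_succ (5 * κ + 3)
      have f3 := choose_two_succ (5 * κ + 2)
      have f4 := choose_two_succ (5 * κ + 1)
      rw [f1, (by ring : 5 * κ + 4 + 1 = 5 * κ + 3 + 2), f2,
        (by ring : 5 * κ + 3 + 1 = 5 * κ + 2 + 2), f3,
        (by ring : 5 * κ + 2 + 1 = 5 * κ + 1 + 2), f4, (by ring : 5 * κ + 1 + 1 = 5 * κ + 2)]
      ring
    have e2 : (2 * κ + 2 + 1).choose 2 = (2 * κ + 1).choose 2 + (4 * κ + 3) := by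
      have f1 := choose_two_succ (2 * κ + 1)
      have f2 := choose_two_succ (2 * κ)
      rw [(by ring : 2 * κ + 2 + 1 = 2 * κ + 1 + 2), f1,
        (by ring : 2 * κ + 1 + 1 = 2 * κ + 2), f2]
      ring
    have h4 := choose_five κ
    rw [e1, e2]
    omega
  refine ⟨le_antisymm ?_ (by omega), hsp⟩
  apply uniform_special (by norm_num) hp
  · intro h0
    rw [h0, finrank_bot] at h3
    omega
  · omega

theorem bound_two (α : ℕ) : uniformBound 2 (α + 2) = (α + 1) * (α + 1) := by
  have key : ∀ α : ℕ, stair 1 α = (α + 1).choose 2 := by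
    intro α
    induction α with
    | zero => rfl
    | succ α ih =>
      rw [stair_eq le_rfl, Nat.add_sub_cancel, ih]
      have := choose_two_succ α
      rw [this]
      ring
  have h1 := uniformBound_eq (q := 1) le_rfl (α + 2)
  have h2 : α + 2 - 1 - 1 = α := by omega
  rw [h2, key] at h1
  have h3 := choose_two_eq α α
  have h4 : uniformBound 2 (α + 2) = uniformBound (1 + 1) (α + 2) := rfl
  rw [h4, h1]
  have h5 : ∀ n : ℕ, (n + 2).choose 2 + (n + 1).choose 2 = (n + 1) * (n + 1) := by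
    intro n
    induction n with
    | zero => rfl
    | succ n ih =>
      have f1 := choose_two_succ (n + 1)
      have f2 := choose_two_succ n
      rw [f1, (by ring : (n + 1 + 1).choose 2 = (n + 2).choose 2)]
      have : (n + 1 + 1) * (n + 1 + 1) = (n + 1) * (n + 1) + (2 * n + 3) := by ring
      omega
  exact h5 α

/-- two points -/
theorem two_attained {p : Fin 2 → V3} (hp : GenericPoints p) (α : ℕ) :
    finrank ℂ (linSys (2 * α + 2) p (fun _ => α + 2)) = uniformBound 2 (α + 2) ∧
    (2 * α + 2 + 2).choose 2 < finrank ℂ (linSys (2 * α + 2) p (fun _ => α + 2)) +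
      2 * (α + 2 + 1).choose 2 := by
  have h1 := special_attained hp α α
  have h2 : (![α + 2, α + 2] : Fin 2 → ℕ) = fun _ => α + 2 := by
    funext i
    fin_cases i <;> rfl
  rw [h2, (by ring : α + α + 2 = 2 * α + 2), Finset.sum_const, Finset.card_univ,
    Fintype.card_fin, smul_eq_mul] at h1
  rw [bound_two]
  exact h1

end Pool.Agent.Work.MP_0421d9_ag
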