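import Pool.Agent.Work.MP_0421d9_ag.LD4
import Pool.Agent.Work.MP_0421d9_ag.Unif3

/-!
A point of multiplicity `m` kills a coefficient which is separated from the other exponents by
fewer than `m` coordinate lines.
-/

set_option linter.unusedSectionVars false

namespace Pool.Agent.Work.MP_0421d9_ag

open MvPolynomial Module

theorem translate_pderiv (a : V3) (k : Fin 3) (F : R3) :
    translate a (pderiv k F) = pderiv k (translate a F) := by
  classical
  induction F using MvPolynomial.induction_on with
  | C c =>
    have h : translate a (C c) = C c := by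
      unfold translate
      rw [← algebraMap_eq, AlgHom.commutes]
    rw [pderiv_C, h, pderiv_C]
    unfold translate
    rw [map_zero]
  | add p q hp hq =>
    unfold translate at *
    rw [map_add, map_add, hp, hq, map_add, map_add]
  | mul_X p n hp =>
    have h : translate a (X n) = C (a n) + X n := by
      unfold translate
      rw [aeval_X]
    have h2 : translate a (pderiv k (X n : R3)) = pderiv k (C (a n) + X n : R3) := by
      rw [map_add, pderiv_C, zero_add, pderiv_X]
      unfold translate
      by_cases hk : k = n
      · subst hk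
        rw [Pi.single_eq_same, map_one]
      · rw [Pi.single_eq_of_ne (Ne.symm hk), map_zero]
    have h3 : ∀ f g : R3, translate a (f + g) = translate a f + translate a g := by
      intro f g
      unfold translate
      rw [map_add]
    rw [Derivation.leibniz, smul_eq_mul, smul_eq_mul, h3, translate_mul, translate_mul,
      translate_mul, Derivation.leibniz, smul_eq_mul, smul_eq_mul, hp, h, h2]

theorem component_pderiv (k : Fin 3) (n : ℕ) (F : R3) :
    homogeneousComponent n (pderiv k F) = pderiv k (homogeneousComponent (n + 1) F) := by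
  ext β
  rw [coeff_homogeneousComponent, coeff_pderiv, coeff_pderiv, coeff_homogeneousComponent, map_add,
    Finsupp.degree_single]
  by_cases h : β.degree = n
  · rw [if_pos h, if_pos (by omega)]
  · rw [if_neg h, if_neg (by omega), zero_mul]

theorem vanishTo_pderiv {F : R3} {a : V3} {n : ℕ} (k : Fin 3) (h : VanishTo F a (n + 1)) :
    VanishTo (pderiv k F) a n := by
  intro j hj
  rw [translate_pderiv, component_pderiv, h (j + 1) (by omega), map_zero]

theorem vanishTo_add {F G : R3} {a : V3} {n : ℕ} (hF : VanishTo F a n) (hG : VanishTo G a n) :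
    VanishTo (F + G) a n := by
  intro j hj
  have h3 : translate a (F + G) = translate a F + translate a G := by
    unfold translate
    rw [map_add]
  rw [h3, map_add, hF j hj, hG j hj, add_zero]

theorem vanishTo_smul {F : R3} {a : V3} {n : ℕ} (c : ℂ) (hF : VanishTo F a n) :
    VanishTo (c • F) a n := by
  intro j hj
  have h3 : translate a (c • F) = c • translate a F := by
    unfold translate
    rw [map_smul]
  rw [h3, map_smul, hF j hj, smul_zero]

theorem cm_coord (k : Fin 3) (F : R3) : cm (fun α => (α k : ℂ)) F = X k * pderiv k F := by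
  induction F using MvPolynomial.induction_on' with
  | monomial α a =>
    rw [X_mul_pderiv_monomial]
    ext β
    classical
    rw [coeff_cm, coeff_monomial, coeff_smul, coeff_monomial]
    split_ifs with h
    · rw [h, nsmul_eq_mul]
    · rw [mul_zero, smul_zero]
  | add p q hp hq => rw [map_add, hp, hq, map_add, mul_add]

theorem cm_sub_const (k : Fin 3) (c : ℕ) (F : R3) :
    cm (fun α => (α k : ℂ) - c) F = X k * pderiv k F + (-(c : ℂ)) • F := by
  rw [← cm_coord]
  ext β
  rw [coeff_cm, coeff_add, coeff_cm, coeff_smul, smul_eq_mul]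
  ring

/-- the product of the coordinate lines -/
noncomputable def lp (L : List (Fin 3 × ℕ)) (α : Ex) : ℂ :=
  (L.map fun z => (α z.1 : ℂ) - (z.2 : ℂ)).prod

theorem vanishTo_lp {F : R3} {a : V3} (L : List (Fin 3 × ℕ)) {n : ℕ}
    (h : VanishTo F a (n + L.length)) : VanishTo (cm (lp L) F) a n := by
  induction L generalizing n with
  | nil =>
    have h1 : cm (lp []) F = F := by
      ext β
      rw [coeff_cm]
      unfold lp
      rw [List.map_nil, List.prod_nil, one_mul]
    rw [h1]
    simpa using h
  | cons z L ih =>
    have h1 : cm (lp (z :: L)) F = cm (fun α => (α z.1 : ℂ) - z.2) (cm (lp L) F) := by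
      ext β
      rw [coeff_cm, coeff_cm, coeff_cm]
      unfold lp
      rw [List.map_cons, List.prod_cons, mul_assoc]
    have h2 : VanishTo (cm (lp L) F) a (n + 1) := by
      apply ih
      rw [List.length_cons] at h
      rwa [add_assoc, add_comm 1]
    rw [h1, cm_sub_const]
    refine vanishTo_add ?_ (vanishTo_smul _ (h2.mono (Nat.le_succ n)))
    have h3 := vanishTo_mul (vanishTo_zero (X z.1) a) (vanishTo_pderiv z.1 h2)
    rwa [zero_add] at h3

/-- covering lemma -/
theorem coeff_eq_zero_of_lines {F : R3} {a : V3} {m : ℕ} (ha : ∀ k, a k ≠ 0)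
    (hF : VanishTo F a m) (α : Ex) (L : List (Fin 3 × ℕ)) (hL : L.length < m)
    (h1 : ∀ β, coeff β F ≠ 0 → β ≠ α → ∃ z ∈ L, β z.1 = z.2)
    (h2 : ∀ z ∈ L, α z.1 ≠ z.2) : coeff α F = 0 := by
  classical
  have h3 : VanishTo (cm (lp L) F) a 1 := by
    apply vanishTo_lp
    exact hF.mono (by omega)
  have h4 : cm (lp L) F = monomial α (lp L α * coeff α F) := by
    ext β
    rw [coeff_cm, coeff_monomial]
    split_ifs with h
    · rw [h]
    · by_cases h5 : coeff β F = 0
      · rw [h5, mul_zero]
      · obtain ⟨z, hz, hz'⟩ := h1 β h5 (Ne.symm h)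
        have h6 : lp L β = 0 := by
          unfold lp
          rw [List.prod_eq_zero_iff, List.mem_map]
          exact ⟨z, hz, by rw [hz', sub_self]⟩
        rw [h6, zero_mul]
  rw [vanishTo_one_iff', h4, eval_monomial, Finsupp.prod_pow] at h3
  rcases mul_eq_zero.mp h3 with h5 | h5
  · rcases mul_eq_zero.mp h5 with h6 | h6
    · exfalso
      unfold lp at h6
      rw [List.prod_eq_zero_iff, List.mem_map] at h6
      obtain ⟨z, hz, hz'⟩ := h6
      apply h2 z hz
      rw [sub_eq_zero] at hz'
      exact_mod_cast hz'
    · exact h6
  · exfalso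
    rw [Finset.prod_eq_zero_iff] at h5
    obtain ⟨k, -, hk⟩ := h5
    exact pow_ne_zero _ (ha k) hk

end Pool.Agent.Work.MP_0421d9_ag
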