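import Pool.Agent.Work.MP_0421d9_ag.LD5

/-!
Strips of exponents: two points of multiplicity `k` shift a strip by `2 * k - l`.
-/

set_option linter.unusedSectionVars false

namespace Pool.Agent.Work.MP_0421d9_ag

open MvPolynomial Module

/-! ### counting exponents -/

/-- the exponent with given coordinates -/
noncomputable def ex (a b c : ℕ) : Ex := Finsupp.equivFunOnFinite.symm ![a, b, c]

theorem ex_zero (a b c : ℕ) : ex a b c 0 = a := rfl

theorem ex_one (a b c : ℕ) : ex a b c 1 = b := rfl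

theorem ex_two (a b c : ℕ) : ex a b c 2 = c := rfl

theorem ex_ext {α β : Ex} (h0 : α 0 = β 0) (h1 : α 1 = β 1) (h2 : α 2 = β 2) : α = β := by
  ext k
  fin_cases k
  · exact h0
  · exact h1
  · exact h2

theorem finrank_ms_le_card {ι : Type} {d : ℕ} {p : ι → V3} {m : ι → ℕ} {D : Ex → Prop}
    (S : Finset Ex) (h : ∀ α, α.degree = d → D α → α ∈ S) :
    finrank ℂ (ms d p m D) ≤ S.card := by
  let f : ms d p m D →ₗ[ℂ] (S → ℂ) :=
    { toFun := fun F s => coeff s.1 F.1
      map_add' := fun F G => by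
        funext s
        exact coeff_add _ _ _
      map_smul' := fun c F => by
        funext s
        exact coeff_smul _ _ _ }
  have hf : Function.Injective f := by
    rw [injective_iff_map_eq_zero]
    rintro ⟨F, hF⟩ hx
    apply Subtype.ext
    change F = 0
    ext α
    rw [coeff_zero]
    by_contra hne
    have h1 := h α (degree_of_coeff hF.1.1 hne) (hF.2 α hne)
    exact hne (congrFun hx ⟨α, h1⟩)
  have h1 := LinearMap.finrank_le_finrank_of_injective hf
  rwa [Module.finrank_fintype_fun_eq_card, Fintype.card_coe] at h1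

theorem finrank_strip_zero {ι : Type} {d c l : ℕ} {p : ι → V3} {m : ι → ℕ} :
    finrank ℂ (ms d p m (fun α => c ≤ α 0 ∧ α 2 ≤ l)) ≤
      ∑ j ∈ Finset.range (l + 1), (d + 1 - c - j) := by
  classical
  let S : Finset Ex := (Finset.range (l + 1)).biUnion fun j =>
    (Finset.range (d + 1 - c - j)).image fun x => ex (c + x) (d - j - c - x) j
  refine (finrank_ms_le_card S ?_).trans ?_
  · rintro α hα ⟨h0, h2⟩
    rw [degree_three] at hα
    simp only [S, Finset.mem_biUnion, Finset.mem_image, Finset.mem_range]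
    refine ⟨α 2, by omega, α 0 - c, by omega, ?_⟩
    apply ex_ext
    · rw [ex_zero]; omega
    · rw [ex_one]; omega
    · rw [ex_two]
  · refine Finset.card_biUnion_le.trans (Finset.sum_le_sum fun j _ => ?_)
    exact Finset.card_image_le.trans (Finset.card_range _).le

/-! ### triangles -/

theorem ms_eq_bot_of {ι : Type} {d k : ℕ} {p : ι → V3} {m : ι → ℕ} {D : Ex → Prop} (x : ι)
    (hx : ∀ l, p x l ≠ 0) (hm : k ≤ m x)
    (h : ∀ α : Ex, α.degree = d → D α → ∃ L : List (Fin 3 × ℕ), L.length < k ∧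
      (∀ β : Ex, β.degree = d → D β → β ≠ α → ∃ z ∈ L, β z.1 = z.2) ∧ ∀ z ∈ L, α z.1 ≠ z.2) :
    ms d p m D = ⊥ := by
  rw [Submodule.eq_bot_iff]
  intro F hF
  ext α
  rw [coeff_zero]
  by_contra hne
  obtain ⟨L, hL, h1, h2⟩ := h α (degree_of_coeff hF.1.1 hne) (hF.2 α hne)
  exact hne (coeff_eq_zero_of_lines hx ((hF.1.2 x).mono hm) α L hL
    (fun β hβ => h1 β (degree_of_coeff hF.1.1 hβ) (hF.2 β hβ)) h2)

/-- the lower triangle -/
theorem kill_lower {ι : Type} {d k i0 : ℕ} {p : ι → V3} {m : ι → ℕ} (x : ι)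
    (hx : ∀ l, p x l ≠ 0) (hm : k ≤ m x) {D : Ex → Prop}
    (hD : ∀ α, D α → i0 ≤ α 0 ∧ α 0 + α 2 < i0 + k) :
    ms d p m D = ⊥ := by
  apply ms_eq_bot_of x hx hm
  intro α hα hDα
  have h0 := hD α hDα
  rw [degree_three] at hα
  refine ⟨(List.range (α 0 - i0)).map (fun w => ((0 : Fin 3), i0 + w)) ++
    ((List.range (α 2)).map (fun w => ((2 : Fin 3), w)) ++
    (List.range (min (α 1) (i0 + k - 1 - (α 0 + α 2)))).map
      (fun w => ((1 : Fin 3), α 1 - 1 - w))), ?_, ?_, ?_⟩
  · simp only [List.length_append, List.length_map, List.length_range]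
    omega
  · intro β hβ hDβ hne
    have h1 := hD β hDβ
    rw [degree_three] at hβ
    by_cases c0 : β 0 < α 0
    · refine ⟨((0 : Fin 3), β 0), ?_, rfl⟩
      rw [List.mem_append, List.mem_map]
      refine Or.inl ⟨β 0 - i0, List.mem_range.mpr (by omega), ?_⟩
      rw [Prod.mk.injEq]
      exact ⟨rfl, by omega⟩
    · by_cases c2 : β 2 < α 2
      · refine ⟨((2 : Fin 3), β 2), ?_, rfl⟩
        rw [List.mem_append, List.mem_append, List.mem_map, List.mem_map]
        exact Or.inr (Or.inl ⟨β 2, List.mem_range.mpr c2, rfl⟩)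
      · have c1 : β 1 < α 1 := by
          by_contra hc
          exact hne (ex_ext (by omega) (by omega) (by omega))
        refine ⟨((1 : Fin 3), β 1), ?_, rfl⟩
        rw [List.mem_append, List.mem_append, List.mem_map, List.mem_map, List.mem_map]
        refine Or.inr (Or.inr ⟨α 1 - 1 - β 1, List.mem_range.mpr (by omega), ?_⟩)
        rw [Prod.mk.injEq]
        exact ⟨rfl, by omega⟩
  · intro z hz
    rw [List.mem_append, List.mem_append, List.mem_map, List.mem_map, List.mem_map] at hz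
    rcases hz with ⟨w, hw, rfl⟩ | ⟨w, hw, rfl⟩ | ⟨w, hw, rfl⟩
    · rw [List.mem_range] at hw
      change α 0 ≠ i0 + w
      omega
    · rw [List.mem_range] at hw
      change α 2 ≠ w
      omega
    · rw [List.mem_range] at hw
      change α 1 ≠ α 1 - 1 - w
      omega

/-- the upper triangle -/
theorem kill_upper {ι : Type} {d k i0 l : ℕ} {p : ι → V3} {m : ι → ℕ} (x : ι)
    (hx : ∀ l, p x l ≠ 0) (hm : k ≤ m x) {D : Ex → Prop}
    (hD : ∀ α, D α → i0 ≤ α 0 ∧ α 0 < i0 + k ∧ i0 + l ≤ α 0 + α 2 ∧ α 2 ≤ l) :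
    ms d p m D = ⊥ := by
  apply ms_eq_bot_of x hx hm
  intro α hα hDα
  have h0 := hD α hDα
  rw [degree_three] at hα
  refine ⟨(List.range (i0 + k - 1 - α 0)).map (fun w => ((0 : Fin 3), α 0 + 1 + w)) ++
    ((List.range (l - α 2)).map (fun w => ((2 : Fin 3), α 2 + 1 + w)) ++
    (List.range (α 0 + α 2 - (i0 + l))).map
      (fun w => ((1 : Fin 3), α 1 + 1 + w))), ?_, ?_, ?_⟩
  · simp only [List.length_append, List.length_map, List.length_range]
    omega
  · intro β hβ hDβ hne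
    have h1 := hD β hDβ
    rw [degree_three] at hβ
    by_cases c0 : α 0 < β 0
    · refine ⟨((0 : Fin 3), β 0), ?_, rfl⟩
      rw [List.mem_append, List.mem_map]
      refine Or.inl ⟨β 0 - α 0 - 1, List.mem_range.mpr (by omega), ?_⟩
      rw [Prod.mk.injEq]
      exact ⟨rfl, by omega⟩
    · by_cases c2 : α 2 < β 2
      · refine ⟨((2 : Fin 3), β 2), ?_, rfl⟩
        rw [List.mem_append, List.mem_append, List.mem_map, List.mem_map]
        refine Or.inr (Or.inl ⟨β 2 - α 2 - 1, List.mem_range.mpr (by omega), ?_⟩)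
        rw [Prod.mk.injEq]
        exact ⟨rfl, by omega⟩
      · have c1 : α 1 < β 1 := by
          by_contra hc
          exact hne (ex_ext (by omega) (by omega) (by omega))
        refine ⟨((1 : Fin 3), β 1), ?_, rfl⟩
        rw [List.mem_append, List.mem_append, List.mem_map, List.mem_map, List.mem_map]
        refine Or.inr (Or.inr ⟨β 1 - α 1 - 1, List.mem_range.mpr (by omega), ?_⟩)
        rw [Prod.mk.injEq]
        exact ⟨rfl, by omega⟩
  · intro z hz
    rw [List.mem_append, List.mem_append, List.mem_map, List.mem_map, List.mem_map] at hz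
    rcases hz with ⟨w, hw, rfl⟩ | ⟨w, hw, rfl⟩ | ⟨w, hw, rfl⟩
    · rw [List.mem_range] at hw
      change α 0 ≠ α 0 + 1 + w
      omega
    · rw [List.mem_range] at hw
      change α 2 ≠ α 2 + 1 + w
      omega
    · rw [List.mem_range] at hw
      change α 1 ≠ α 1 + 1 + w
      omega

/-! ### strips -/

section strip

variable {ι : Type} [Fintype ι] [DecidableEq ι] {d : ℕ} {p : ι → V3}

theorem coord_ne_zero (hp : GenericPoints p) (i : ι) (l : Fin 3) : p i l ≠ 0 :=
  AlgebraicIndependent.ne_zero hp (i, l)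

theorem strip_step (hp : GenericPoints p) {k l i0 : ℕ} (hl : l ≤ k) {m : ι → ℕ} {x y : ι}
    (hxy : x ≠ y) (hx : k ≤ m x) (hy : k ≤ m y) :
    finrank ℂ (ms d p m (fun α => i0 ≤ α 0 ∧ α 2 ≤ l)) ≤
      finrank ℂ (ms d p (rs (fun i => ¬ (i = x ∨ i = y)) m)
        (fun α => i0 + (2 * k - l) ≤ α 0 ∧ α 2 ≤ l)) := by
  classical
  have h1 := block (d := d) (m := m) hp (fun i => i = x)
    (D := fun α => i0 ≤ α 0 ∧ α 2 ≤ l)
    (DP := fun α => i0 ≤ α 0 ∧ α 0 + α 2 < i0 + k)
    (DF := fun α => i0 ≤ α 0 ∧ α 2 ≤ l ∧ i0 + k ≤ α 0 + α 2) ![1, 0, 1]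
    (fun α _ h => by omega)
    (fun α β _ _ h h' => by
      change 1 * α 0 + 0 * α 1 + 1 * α 2 < 1 * β 0 + 0 * β 1 + 1 * β 2
      omega)
  have h2 := kill_lower (d := d) (k := k) (i0 := i0) (p := p) (m := rs (fun i => i = x) m) x
    (coord_ne_zero hp x) (by rw [rs_of (W := fun i => i = x) rfl]; exact hx)
    (D := fun α => i0 ≤ α 0 ∧ α 0 + α 2 < i0 + k) (fun α h => h)
  have h3 := block (d := d) (m := rs (fun i => ¬ i = x) m) hp (fun i => i = y)
    (D := fun α => i0 ≤ α 0 ∧ α 2 ≤ l ∧ i0 + k ≤ α 0 + α 2)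
    (DP := fun α => i0 + (k - l) ≤ α 0 ∧ α 0 < i0 + (k - l) + k ∧
      i0 + (k - l) + l ≤ α 0 + α 2 ∧ α 2 ≤ l)
    (DF := fun α => i0 + (2 * k - l) ≤ α 0 ∧ α 2 ≤ l) ![1, 0, 0]
    (fun α _ h => by omega)
    (fun α β _ _ h h' => by
      change 1 * α 0 + 0 * α 1 + 0 * α 2 < 1 * β 0 + 0 * β 1 + 0 * β 2
      omega)
  have h4 := kill_upper (d := d) (k := k) (i0 := i0 + (k - l)) (l := l) (p := p)
    (m := rs (fun i => i = y) (rs (fun i => ¬ i = x) m)) y
    (coord_ne_zero hp y) (by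
      rw [rs_of (W := fun i => i = y) rfl, rs_of (W := fun i => ¬ i = x) (Ne.symm hxy)]
      exact hy)
    (D := fun α => i0 + (k - l) ≤ α 0 ∧ α 0 < i0 + (k - l) + k ∧
      i0 + (k - l) + l ≤ α 0 + α 2 ∧ α 2 ≤ l) (fun α h => h)
  rw [h2, finrank_bot] at h1
  rw [h4, finrank_bot] at h3
  have h5 : rs (fun i => ¬ i = y) (rs (fun i => ¬ i = x) m) =
      rs (fun i => ¬ (i = x ∨ i = y)) m := by
    funext i
    unfold rs
    by_cases c1 : i = x
    · simp [c1]
    · by_cases c2 : i = y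
      · simp [c2]
      · simp [c1, c2]
  rw [h5] at h3
  omega

theorem strip (hp : GenericPoints p) {k l : ℕ} (hl : l ≤ k) (t : ℕ) :
    ∀ (S : Finset ι) (m : ι → ℕ) (i0 : ℕ), 2 * t ≤ S.card → (∀ i ∈ S, k ≤ m i) →
      finrank ℂ (ms d p m (fun α => i0 ≤ α 0 ∧ α 2 ≤ l)) ≤
        ∑ j ∈ Finset.range (l + 1), (d + 1 - (i0 + t * (2 * k - l)) - j) := by
  induction t with
  | zero =>
    intro S m i0 _ _
    rw [zero_mul, add_zero]
    exact finrank_strip_zero
  | succ t ih =>
    intro S m i0 hS hm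
    obtain ⟨x, hx⟩ : S.Nonempty := Finset.card_pos.mp (by omega)
    have hc1 := Finset.card_erase_of_mem hx
    obtain ⟨y, hy⟩ : (S.erase x).Nonempty := Finset.card_pos.mp (by omega)
    have hc2 := Finset.card_erase_of_mem hy
    have hyx := Finset.mem_erase.mp hy
    refine (strip_step hp hl (Ne.symm hyx.1) (hm x hx) (hm y hyx.2)).trans ?_
    have h1 := ih ((S.erase x).erase y) (rs (fun i => ¬ (i = x ∨ i = y)) m)
      (i0 + (2 * k - l)) (by omega) (fun i hi => by
        have h2 := Finset.mem_erase.mp hi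
        have h3 := Finset.mem_erase.mp h2.2
        rw [rs_of (W := fun i => ¬ (i = x ∨ i = y)) (by tauto)]
        exact hm i h3.2)
    have h4 : i0 + (2 * k - l) + t * (2 * k - l) = i0 + (t + 1) * (2 * k - l) := by ring
    rwa [h4] at h1

end strip

end Pool.Agent.Work.MP_0421d9_ag
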