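import Pool.Agent.Work.MP_0421d9_ag.LD6

/-!
Orders on a line of the members of a linear system with generic base points.
-/

set_option linter.unusedSectionVars false

namespace Pool.Agent.Work.MP_0421d9_ag

open MvPolynomial Module

theorem translate_add (q : V3) (F G : R3) : translate q (F + G) = translate q F + translate q G := by
  unfold translate
  rw [map_add]

theorem translate_C (q : V3) (c : ℂ) : translate q (C c) = C c := by
  unfold translate
  rw [← algebraMap_eq, AlgHom.commutes]

theorem translate_X (q : V3) (n : Fin 3) : translate q (X n) = C (q n) + X n := by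
  unfold translate
  rw [aeval_X]

/-- a derivation moving the coordinate `a` of the point `q` -/
theorem cD_translate (D : Derivation ℚ ℂ ℂ) {a : Fin 3} {q : V3}
    (hD : ∀ k, k ≠ a → D (q k) = 0) (F : R3) :
    cD D (translate q F) = translate q (cD D F) + C (D (q a)) * translate q (pderiv a F) := by
  classical
  induction F using MvPolynomial.induction_on with
  | C c =>
    rw [translate_C, cD_C, translate_C, pderiv_C]
    unfold translate
    rw [map_zero, mul_zero, add_zero]
  | add f g hf hg =>
    rw [translate_add, map_add, hf, hg, map_add, translate_add, map_add, translate_add]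
    ring
  | mul_X f n hf =>
    have h1 : cD D (translate q (X n : R3)) = C (D (q n)) := by
      rw [translate_X, map_add, cD_C]
      have : cD D (X n : R3) = 0 := by
        rw [cD_X]
      rw [this, add_zero]
    have h2 : C (D (q n)) = C (D (q a)) * translate q (pderiv a (X n : R3)) := by
      rw [pderiv_X]
      by_cases hk : a = n
      · subst hk
        rw [Pi.single_eq_same]
        unfold translate
        rw [map_one, mul_one]
      · rw [Pi.single_eq_of_ne (Ne.symm hk), hD n (Ne.symm hk)]
        unfold translate
        rw [C_0, map_zero, mul_zero]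
    rw [translate_mul, cD_mul, hf, h1, cD_mul, cD_X, mul_zero, add_zero, translate_mul,
      Derivation.leibniz, smul_eq_mul, smul_eq_mul, translate_add, translate_mul, translate_mul,
      h2]
    ring

theorem isHomogeneous_of_degree {G : R3} {d : ℕ} (h : ∀ α, coeff α G ≠ 0 → α.degree = d) :
    G.IsHomogeneous d := by
  intro α hα
  have := h α hα
  rwa [Finsupp.degree_eq_weight_one] at this

theorem component_cD (D : Derivation ℚ ℂ ℂ) (n : ℕ) (F : R3) :
    homogeneousComponent n (cD D F) = cD D (homogeneousComponent n F) := by
  ext β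
  rw [coeff_homogeneousComponent, coeff_cD, coeff_cD, coeff_homogeneousComponent]
  split_ifs
  · rfl
  · rw [map_zero]

theorem vanishTo_shift (D : Derivation ℚ ℂ ℂ) {a b : Fin 3} {q : V3}
    (hD : ∀ k, k ≠ a → D (q k) = 0) (hDa : D (q a) = q b) {F : R3} {n : ℕ}
    (h : VanishTo F q n) : VanishTo (cD D F + X b * pderiv a F) q n := by
  have key : translate q (cD D F + X b * pderiv a F) =
      cD D (translate q F) + X b * pderiv a (translate q F) := by
    rw [cD_translate D hD, translate_add, translate_mul, translate_X, hDa, translate_pderiv]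
    ring
  intro j hj
  rw [key, map_add, component_cD, h j hj, map_zero, zero_add]
  cases j with
  | zero => exact homogeneousComponent_mul_lt (isHomogeneous_X ℂ b) one_pos _
  | succ j =>
    rw [add_comm j 1, homogeneousComponent_mul (isHomogeneous_X ℂ b), component_pderiv,
      h (j + 1) hj, map_zero, mul_zero]

section orders

variable {ι : Type} {d : ℕ} {p : ι → V3} {m : ι → ℕ}

/-- the members whose row `l` has order at least `e` -/
noncomputable def ord (d : ℕ) (p : ι → V3) (m : ι → ℕ) (D : Ex → Prop) (a : Fin 3) (l e : ℕ) :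
    Submodule ℂ R3 :=
  ms d p m (fun α => D α ∧ (α 2 = l → e ≤ α a))

theorem ord_anti {D : Ex → Prop} {a : Fin 3} {l e e' : ℕ} (h : e ≤ e') :
    ord d p m D a l e' ≤ ord d p m D a l e :=
  ms_mono (fun _ => le_rfl) (fun _ _ h' => ⟨h'.1, fun h2 => h.trans (h'.2 h2)⟩)

theorem ord_zero {D : Ex → Prop} {a : Fin 3} {l : ℕ} : ord d p m D a l 0 = ms d p m D := by
  ext F
  exact ⟨fun h => ⟨h.1, fun α hα => (h.2 α hα).1⟩,
    fun h => ⟨h.1, fun α hα => ⟨h.2 α hα, fun _ => Nat.zero_le _⟩⟩⟩

theorem ord_step (hp : GenericPoints p) {D : Ex → Prop} {a b : Fin 3} (hab : a ≠ b) (ha : a ≠ 2)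
    (hb : b ≠ 2)
    (hst : ∀ α β : Ex, D α → β a + 1 = α a → β b = α b + 1 → β 2 = α 2 → D β) {l e : ℕ}
    (h : ord d p m D a l e = ord d p m D a l (e + 1)) :
    ord d p m D a l (e + 1) = ord d p m D a l (e + 2) := by
  classical
  refine le_antisymm ?_ (ord_anti (by omega))
  intro F hF
  refine ⟨hF.1, fun α hα => ⟨(hF.2 α hα).1, fun hα2 => ?_⟩⟩
  by_contra hcon
  have h1 := (hF.2 α hα).2 hα2
  have h2 : α a = e + 1 := by omega
  obtain ⟨δ, hδ⟩ := exists_derivation (fun z : ι × Fin 3 => p z.1 z.2) hp
    (fun z => if z.2 = a then p z.1 b else 0)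
  have hδ0 : ∀ i k, k ≠ a → δ (p i k) = 0 := by
    intro i k hk
    have := hδ (i, k)
    simpa [hk] using this
  have hδa : ∀ i, δ (p i a) = p i b := by
    intro i
    have := hδ (i, a)
    simpa using this
  set G : R3 := cD δ F + X b * pderiv a F with hG
  have hcoef : ∀ γ : Ex, coeff γ G = δ (coeff γ F) + (if γ b = 0 then 0 else
      coeff (γ - Finsupp.single b 1 + Finsupp.single a 1) F * ((γ a : ℂ) + 1)) := by
    intro γ
    rw [hG, coeff_add, coeff_cD, coeff_X_mul']
    congr 1
    by_cases hγ : γ b = 0
    · rw [if_pos hγ, if_neg]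
      rw [Finsupp.mem_support_iff]
      exact fun h => h hγ
    · rw [if_neg hγ, if_pos (Finsupp.mem_support_iff.mpr hγ), coeff_pderiv]
      congr 2
      rw [Finsupp.tsub_apply, Finsupp.single_apply, if_neg (Ne.symm hab)]
      simp
  have hGmem : G ∈ ord d p m D a l e := by
    refine ⟨⟨?_, fun i => vanishTo_shift δ (hδ0 i) (hδa i) (hF.1.2 i)⟩, ?_⟩
    · apply isHomogeneous_of_degree
      intro γ hγ
      rw [hcoef] at hγ
      by_cases c1 : coeff γ F = 0
      · rw [c1, map_zero, zero_add] at hγ
        split_ifs at hγ with c2
        · exact absurd rfl hγ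
        · have c3 := degree_of_coeff hF.1.1 (left_ne_zero_of_mul hγ)
          have c5 : γ - Finsupp.single b 1 + Finsupp.single b 1 = γ :=
            tsub_add_cancel_of_le (Finsupp.single_le_iff.mpr (by omega))
          have c4 := congrArg Finsupp.degree c5
          rw [map_add, Finsupp.degree_single] at c3 c4
          omega
      · exact degree_of_coeff hF.1.1 c1
    · intro γ hγ
      rw [hcoef] at hγ
      by_cases c1 : coeff γ F = 0
      · rw [c1, map_zero, zero_add] at hγ
        split_ifs at hγ with c2
        · exact absurd rfl hγ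
        · have c3 := hF.2 _ (left_ne_zero_of_mul hγ)
          have e1 : (γ - Finsupp.single b 1 + Finsupp.single a 1 : Ex) a = γ a + 1 := by
            simp [hab]
          have e2 : (γ - Finsupp.single b 1 + Finsupp.single a 1 : Ex) b + 1 = γ b := by
            simp [Ne.symm hab]
            omega
          have e3 : (γ - Finsupp.single b 1 + Finsupp.single a 1 : Ex) 2 = γ 2 := by
            simp [ha, hb]
          refine ⟨hst _ γ c3.1 e1.symm e2.symm e3.symm, fun hγ2 => ?_⟩
          have c4 := c3.2 (e3.trans hγ2)
          omega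
      · have c3 := hF.2 _ c1
        exact ⟨c3.1, fun hγ2 => by
          have := c3.2 hγ2
          omega⟩
  rw [h] at hGmem
  set β : Ex := α - Finsupp.single a 1 + Finsupp.single b 1 with hβ
  have f1 : β a = e := by
    rw [hβ]
    simp [Ne.symm hab, h2]
  have f2 : β 2 = l := by
    rw [hβ]
    simp [ha, hb, hα2]
  have f3 : β b ≠ 0 := by
    rw [hβ]
    simp [Ne.symm hab]
  have f4 : β - Finsupp.single b 1 + Finsupp.single a 1 = α := by
    rw [hβ, add_tsub_cancel_right]
    ext k
    rw [Finsupp.add_apply, Finsupp.tsub_apply, Finsupp.single_apply]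
    split_ifs with hk
    · rw [← hk, h2]
      omega
    · rfl
  have f5 : coeff β F = 0 := by
    by_contra hne
    have := (hF.2 β hne).2 f2
    omega
  have f6 : coeff β G ≠ 0 := by
    rw [hcoef, f5, map_zero, zero_add, if_neg f3, f4, f1]
    apply mul_ne_zero hα
    exact_mod_cast Nat.succ_ne_zero e
  have f7 := (hGmem.2 β f6).2 f2
  omega

theorem orders (hp : GenericPoints p) {D : Ex → Prop} {a b : Fin 3} (hab : a ≠ b) (ha : a ≠ 2)
    (hb : b ≠ 2)
    (hst : ∀ α β : Ex, D α → β a + 1 = α a → β b = α b + 1 → β 2 = α 2 → D β) {l : ℕ}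
    (h : ord d p m D a l (d + 1) = ⊥) (e : ℕ) :
    finrank ℂ (ord d p m D a l e) ≤ finrank ℂ (ms d p m D) - e := by
  have key : ord d p m D a l e ≠ ⊥ →
      finrank ℂ (ord d p m D a l e) + e ≤ finrank ℂ (ms d p m D) := by
    induction e with
    | zero =>
      intro _
      rw [ord_zero, add_zero]
    | succ e ih =>
      intro hne
      have hle := ord_anti (d := d) (p := p) (m := m) (D := D) (a := a) (l := l)
        (Nat.le_succ e)
      have h1 := ih (fun h0 => hne (by
        rw [eq_bot_iff, ← h0]
        exact hle))
      have h2 : ord d p m D a l (e + 1) ≠ ord d p m D a l e := by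
        intro heq
        have h3 : ∀ j, ord d p m D a l (e + 1 + j) = ord d p m D a l e := by
          intro j
          induction j with
          | zero => exact heq
          | succ j ihj =>
            have h4 : ∀ j, ord d p m D a l (e + j) = ord d p m D a l (e + j + 1) := by
              intro j
              induction j with
              | zero => exact heq.symm
              | succ j ihj => exact ord_step hp hab ha hb hst ihj
            have h5 := h4 (j + 1)
            rw [(by ring : e + (j + 1) = e + 1 + j)] at h5
            rw [← ihj, h5, (by ring : e + 1 + (j + 1) = e + 1 + j + 1)]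
        apply hne
        rw [heq, eq_bot_iff, ← h, ← h3 (d + 1)]
        exact ord_anti (by omega)
      have h3 : finrank ℂ (ord d p m D a l (e + 1)) < finrank ℂ (ord d p m D a l e) := by
        have : Module.Finite ℂ (ord d p m D a l e) := ms_finite _ _ _ _
        exact Submodule.finrank_lt_finrank_of_lt (lt_of_le_of_ne hle h2)
      omega
  by_cases hne : ord d p m D a l e = ⊥
  · rw [hne, finrank_bot]
    exact Nat.zero_le _
  · have := key hne
    omega

end orders

end Pool.Agent.Work.MP_0421d9_ag
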