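import Pool.Agent.Work.MP_0421d9_ag.LD7

/-!
The inequality for the dimension of a planar linear system obtained from a degeneration of the
plane in which `2 * t` points of multiplicity `k` are separated from the others.
-/

set_option linter.unusedSectionVars false

namespace Pool.Agent.Work.MP_0421d9_ag

open MvPolynomial Module

theorem lin_single_two : lin (Pi.single 2 1) = (X 2 : R3) := by
  unfold lin
  rw [Fin.sum_univ_three]
  simp

theorem vanishTo_of_X_pow_mul {q : V3} (hq : q 2 ≠ 0) {μ : ℕ} (k : ℕ) {g : R3}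
    (h : VanishTo (X 2 ^ k * g) q μ) : VanishTo g q μ := by
  induction k with
  | zero => rwa [pow_zero, one_mul] at h
  | succ k ih =>
    apply ih
    rw [pow_succ', mul_assoc, ← lin_single_two] at h
    refine vanishTo_of_mul_ne ?_ ?_ (v := Pi.single 2 1)
    · rw [lin_single_two] at h ⊢
      exact h
    · rw [lin_single_two, eval_X]
      exact hq

section rows

variable {ι : Type} {d : ℕ} {p : ι → V3} {m : ι → ℕ}

theorem finrank_ms_row_le {k : ℕ} (hk : k ≤ d) (hp : ∀ i, p i 2 ≠ 0) :
    finrank ℂ (ms d p m (fun α => k ≤ α 2)) ≤ finrank ℂ (linSys (d - k) p m) := by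
  classical
  have hfin : Module.Finite ℂ (linSys (d - k) p m) :=
    Submodule.finiteDimensional_of_le (linSys_le _ p _)
  have hle : ms d p m (fun α => k ≤ α 2) ≤
      (linSys (d - k) p m).map (LinearMap.mulLeft ℂ (X 2 ^ k : R3)) := by
    intro F hF
    set G : R3 := F.divMonomial (Finsupp.single 2 k) with hG
    have h1 : X 2 ^ k * G = F := by
      rw [X_pow_eq_monomial]
      ext β
      rw [coeff_monomial_mul', one_mul]
      split_ifs with h
      · rw [hG, coeff_divMonomial, add_tsub_cancel_of_le h]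
      · by_contra hne
        apply h
        rw [Finsupp.single_le_iff]
        exact hF.2 β (Ne.symm hne)
    refine ⟨G, ⟨?_, fun i => ?_⟩, h1⟩
    · apply isHomogeneous_of_degree
      intro α hα
      rw [hG, coeff_divMonomial] at hα
      have h2 := degree_of_coeff hF.1.1 hα
      rw [map_add, Finsupp.degree_single] at h2
      omega
    · apply vanishTo_of_X_pow_mul (hp i) k
      rw [h1]
      exact hF.1.2 i
  exact (Submodule.finrank_mono hle).trans (Submodule.finrank_map_le _ _)

end rows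

section cm

variable {ι : Type} [Fintype ι] [DecidableEq ι] {d : ℕ} {p : ι → V3}

theorem part_first (hp : GenericPoints p) {m : ι → ℕ} {k : ℕ} (hk : k + 1 ≤ d)
    (h : linSys (d - (k + 1)) p m = ⊥) :
    finrank ℂ (ord d p m (fun α => k ≤ α 2) 0 k (finrank ℂ (linSys (d - k) p m))) = 0 := by
  have hq : ∀ i, p i 2 ≠ 0 := fun i => coord_ne_zero hp i 2
  have h1 : ord d p m (fun α => k ≤ α 2) 0 k (d + 1) = ⊥ := by
    have h2 := finrank_ms_row_le (d := d) (m := m) hk hq
    rw [h, finrank_bot, Nat.le_zero, Submodule.finrank_eq_zero] at h2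
    rw [eq_bot_iff, ← h2]
    apply ms_mono (fun _ => le_rfl)
    rintro α hα ⟨h3, h4⟩
    rw [degree_three] at hα
    by_contra hcon
    have := h4 (by omega)
    omega
  have h2 := orders hp (a := 0) (b := 1) (by decide) (by decide) (by decide)
    (fun α β h3 _ _ h4 => by rw [h4]; exact h3) h1 (finrank ℂ (linSys (d - k) p m))
  have h3 := finrank_ms_row_le (d := d) (m := m) (k := k) (by omega) hq
  omega

theorem part_second (hp : GenericPoints p) {m : ι → ℕ} {k t : ℕ} (hk : 1 ≤ k) (S : Finset ι)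
    (hS : 2 * t ≤ S.card) (hm : ∀ i ∈ S, k ≤ m i) (hF : d + 1 ≤ t * (k + 1)) (e : ℕ) :
    finrank ℂ (ord d p m (fun α => α 2 ≤ k) 1 k e) ≤
      (∑ j ∈ Finset.range (k + 1), (d + 1 - t * k - j)) - e := by
  have h1 : ord d p m (fun α => α 2 ≤ k) 1 k (d + 1) = ⊥ := by
    have h2 := strip (d := d) hp (k := k) (l := k - 1) (by omega) t S m 0 hS hm
    have h3 : ∑ j ∈ Finset.range (k - 1 + 1), (d + 1 - (0 + t * (2 * k - (k - 1))) - j) = 0 := by
      refine Finset.sum_eq_zero (fun j _ => ?_)
      have h4 : 2 * k - (k - 1) = k + 1 := by omega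
      rw [h4]
      omega
    rw [h3, Nat.le_zero, Submodule.finrank_eq_zero] at h2
    rw [eq_bot_iff, ← h2]
    apply ms_mono (fun _ => le_rfl)
    rintro α hα ⟨h3, h4⟩
    rw [degree_three] at hα
    refine ⟨Nat.zero_le _, ?_⟩
    by_contra hcon
    have := h4 (by omega)
    omega
  have h2 := orders hp (a := 1) (b := 0) (by decide) (by decide) (by decide)
    (fun α β h3 _ _ h4 => by rw [h4]; exact h3) h1 e
  have h3 := strip (d := d) hp (k := k) (l := k) le_rfl t S m 0 hS hm
  have h4 : ms d p m (fun α => α 2 ≤ k) = ms d p m (fun α => 0 ≤ α 0 ∧ α 2 ≤ k) :=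
    le_antisymm (ms_mono (fun _ => le_rfl) (fun _ _ h => ⟨Nat.zero_le _, h⟩))
      (ms_mono (fun _ => le_rfl) (fun _ _ h => h.2))
  have h5 : ∑ j ∈ Finset.range (k + 1), (d + 1 - (0 + t * (2 * k - k)) - j) =
      ∑ j ∈ Finset.range (k + 1), (d + 1 - t * k - j) := by
    refine Finset.sum_congr rfl (fun j _ => ?_)
    have h6 : 2 * k - k = k := by omega
    rw [h6, zero_add]
  rw [h4] at h2
  rw [h5] at h3
  omega

/-- **Degeneration inequality.** -/
theorem degeneration (hp : GenericPoints p) {m : ι → ℕ} {k t : ℕ} (hk : 1 ≤ k) (hkd : k + 1 ≤ d)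
    (S : Finset ι) (hS : 2 * t ≤ S.card) (hm : ∀ i ∈ S, k ≤ m i)
    (hP : linSys (d - (k + 1)) p (rs (fun i => i ∉ S) m) = ⊥) (hF : d + 1 ≤ t * (k + 1)) :
    finrank ℂ (linSys d p m) ≤ (∑ j ∈ Finset.range (k + 1), (d + 1 - t * k - j)) -
      (d - k + 1 - finrank ℂ (linSys (d - k) p (rs (fun i => i ∉ S) m))) := by
  set a := finrank ℂ (linSys (d - k) p (rs (fun i => i ∉ S) m)) with ha
  have h1 := block (d := d) (m := m) hp (fun i => i ∉ S) (D := fun _ => True)
    (DP := fun α => k ≤ α 2 ∧ (α 2 = k → a ≤ α 0))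
    (DF := fun α => α 2 ≤ k ∧ (α 2 = k → d - k + 1 - a ≤ α 1)) ![d, d + 1, 0]
    (fun α hα _ => by
      rw [degree_three] at hα
      by_cases c1 : α 2 = k
      · by_cases c2 : a ≤ α 0
        · exact Or.inl ⟨c1.ge, fun _ => c2⟩
        · exact Or.inr ⟨c1.le, fun _ => by omega⟩
      · by_cases c2 : k ≤ α 2
        · exact Or.inl ⟨c2, fun h => absurd h c1⟩
        · exact Or.inr ⟨by omega, fun h => absurd h c1⟩)
    (fun α β hα hβ h h' => by
      rw [degree_three] at hα hβ
      change d * α 0 + (d + 1) * α 1 + 0 * α 2 < d * β 0 + (d + 1) * β 1 + 0 * β 2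
      have e1 : d * α 0 + (d + 1) * α 1 + 0 * α 2 + α 0 = (d + 1) * (α 0 + α 1) := by ring
      have e2 : d * β 0 + (d + 1) * β 1 + 0 * β 2 + β 0 = (d + 1) * (β 0 + β 1) := by ring
      by_cases c1 : α 2 = β 2
      · have c2 : α 2 = k := by omega
        have c3 := h.2 c2
        have c4 := h'.2 (by omega)
        have e3 : α 0 + α 1 = β 0 + β 1 := by omega
        rw [e3] at e1
        omega
      · have e3 : α 0 + α 1 + 1 ≤ β 0 + β 1 := by omega
        have e4 : (d + 1) * (α 0 + α 1 + 1) ≤ (d + 1) * (β 0 + β 1) :=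
          Nat.mul_le_mul_left _ e3
        rw [mul_add, mul_one] at e4
        omega)
  have h2 := part_first (d := d) hp hkd hP
  have h3 := part_second (d := d) hp (m := rs (fun i => ¬ i ∉ S) m) hk S hS
    (fun i hi => by
      rw [rs_of (W := fun i => ¬ i ∉ S) (by simpa using hi)]
      exact hm i hi) hF (d - k + 1 - a)
  rw [ms_true] at h1
  unfold ord at h2 h3
  rw [← ha] at h2
  exact h1.trans ((Nat.add_le_add (le_of_eq h2) h3).trans (zero_add _).le)

end cm

end Pool.Agent.Work.MP_0421d9_ag
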