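import Pool.Agent.Work.MP_0421d9_ag.LD8

/-!
Planar linear systems with generic base points of multiplicities at most `M` are nonspecial as soon
as the degree is at least `3 * M ^ 2` plus the sum of `u * (u - 1) / 2` over the distinct
multiplicities `u`.
-/

set_option linter.unusedSectionVars false

namespace Pool.Agent.Work.MP_0421d9_ag

open MvPolynomial Module

section numeric

theorem sum_range_desc (k D : ℕ) (h : k ≤ D) :
    2 * ∑ j ∈ Finset.range (k + 1), (D - j) + (k + 1) * k = (k + 1) * (2 * D) := by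
  induction k with
  | zero => simp
  | succ k ih =>
    have h1 := ih (by omega)
    rw [Finset.sum_range_succ, mul_add]
    obtain ⟨e, rfl⟩ : ∃ e, D = k + 1 + e := ⟨D - (k + 1), by omega⟩
    have h2 : k + 1 + e - (k + 1) = e := by omega
    rw [h2]
    nlinarith [h1]

theorem two_choose (n : ℕ) : 2 * (n + 1).choose 2 = (n + 1) * n := by
  rw [Nat.choose_two_right, Nat.add_sub_cancel]
  exact Nat.mul_div_cancel' (Nat.even_mul_pred_self (n + 1)).two_dvd

end numeric

section large

variable {ι : Type} [Fintype ι] [DecidableEq ι] {d M : ℕ} {p : ι → V3} {m : ι → ℕ}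

theorem empty_of_window (hp : GenericPoints p)
    (h : (d + 2).choose 2 + ∑ a ∈ Finset.univ.image m, a.choose 2 ≤ ∑ i, (m i + 1).choose 2) :
    linSys d p m = ⊥ := by
  by_contra hne
  have hfin : Module.Finite ℂ (linSys d p m) :=
    Submodule.finiteDimensional_of_le (linSys_le d p _)
  have hpos' : finrank ℂ (linSys d p m) ≠ 0 := fun h0 =>
    hne (Submodule.finrank_eq_zero.mp h0)
  have h1 := super_window hp hne
  omega

theorem nonspecial_of_window (hp : GenericPoints p) (hM : ∀ i, m i ≤ M)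
    (h : ∑ i, (m i + 1).choose 2 + (M - 1) * (M - 1) < (d + 2).choose 2) :
    finrank ℂ (linSys d p m) + ∑ i, (m i + 1).choose 2 = (d + 2).choose 2 := by
  have hfin : Module.Finite ℂ (linSys d p m) :=
    Submodule.finiteDimensional_of_le (linSys_le d p _)
  by_contra hcon
  by_cases hmd : ∀ i, m i ≤ d + 1
  · have h1 := chi_le (d := d) (p := p) hmd
    have hne : linSys d p m ≠ ⊥ := by
      intro h0
      rw [h0, finrank_bot] at h1
      omega
    obtain ⟨i, j, -, h2⟩ := special_le hp hne hcon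
    have h3 : (m i - 1) * (m j - 1) ≤ (M - 1) * (M - 1) :=
      Nat.mul_le_mul (Nat.sub_le_sub_right (hM i) 1) (Nat.sub_le_sub_right (hM j) 1)
    omega
  · push Not at hmd
    obtain ⟨i, hi⟩ := hmd
    have h1 := Finset.single_le_sum (f := fun i => (m i + 1).choose 2)
      (fun i _ => Nat.zero_le _) (Finset.mem_univ i)
    have h2 : (d + 2).choose 2 ≤ (m i + 1).choose 2 := Nat.choose_le_choose 2 (by omega)
    omega

/-- some class of multiplicities is large -/
theorem exists_class (hM : ∀ i, m i ≤ M) (hM2 : 2 ≤ M)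
    (h : (d + 2).choose 2 ≤ ∑ i, (m i + 1).choose 2 + (M - 1) * (M - 1)) (hd : 3 * M * M ≤ d) :
    ∃ k, 1 ≤ k ∧ k ≤ M ∧ 2 * d ≤ k * (Finset.univ.filter fun i => m i = k).card := by
  by_contra hcon
  push Not at hcon
  have h1 : ∑ k ∈ Finset.range (M + 1), ∑ i ∈ Finset.univ.filter (fun i => m i = k),
      2 * (m i + 1).choose 2 = ∑ i, 2 * (m i + 1).choose 2 :=
    Finset.sum_fiberwise_of_maps_to (fun i _ => Finset.mem_range.mpr (by have := hM i; omega)) _
  have h2 : ∀ k ∈ Finset.range (M + 1), ∑ i ∈ Finset.univ.filter (fun i => m i = k),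
      2 * (m i + 1).choose 2 ≤ 2 * d * (k + 1) := by
    intro k hk
    rw [Finset.mem_range] at hk
    have h3 : ∑ i ∈ Finset.univ.filter (fun i => m i = k), 2 * (m i + 1).choose 2 =
        ∑ i ∈ Finset.univ.filter (fun i => m i = k), (k + 1) * k := by
      refine Finset.sum_congr rfl (fun i hi => ?_)
      rw [two_choose, (Finset.mem_filter.mp hi).2]
    rw [h3, Finset.sum_const, smul_eq_mul]
    rcases Nat.eq_zero_or_pos k with h0 | h0
    · rw [h0]
      simp
    · have h4 := hcon k h0 (by omega)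
      calc (Finset.univ.filter fun i => m i = k).card * ((k + 1) * k)
          = k * (Finset.univ.filter fun i => m i = k).card * (k + 1) := by ring
        _ ≤ 2 * d * (k + 1) := Nat.mul_le_mul_right _ h4.le
  have h3 : ∑ i, 2 * (m i + 1).choose 2 ≤ ∑ k ∈ Finset.range (M + 1), 2 * d * (k + 1) := by
    rw [← h1]
    exact Finset.sum_le_sum h2
  have h4 : 2 * ∑ k ∈ Finset.range (M + 1), (k + 1) = (M + 1) * (M + 2) := by
    clear h1 h2 h3 h hcon hM hM2 hd
    induction M with
    | zero => rfl
    | succ M ih =>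
      rw [Finset.sum_range_succ, mul_add, ih]
      ring
  rw [← Finset.mul_sum, ← Finset.mul_sum] at h3
  have h5 : 2 * d * ∑ k ∈ Finset.range (M + 1), (k + 1) = d * ((M + 1) * (M + 2)) := by
    rw [← h4]
    ring
  rw [h5] at h3
  have h6 := two_choose (d + 1)
  obtain ⟨u, rfl⟩ : ∃ u, M = u + 2 := ⟨M - 2, by omega⟩
  have h7 : u + 2 - 1 = u + 1 := by omega
  rw [h7] at h
  have h8 : (d + 1 + 1) * (d + 1) ≤ d * ((u + 2 + 1) * (u + 2 + 2)) + 2 * ((u + 1) * (u + 1)) := by
    rw [← h6]
    have e1 : d + 1 + 1 = d + 2 := rfl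
    rw [e1]
    omega
  have h9 : d * ((u + 2 + 1) * (u + 2 + 2)) ≤ d * d := by
    apply Nat.mul_le_mul_left
    nlinarith
  nlinarith

end large

end Pool.Agent.Work.MP_0421d9_ag
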