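import Mathlib

/-!
Numerical exceptional classes on the blow-up of the plane at any number of points.
-/

namespace Pool.Agent.Work.MP_0421d9_ag.LD

/-- numerical exceptional classes of nonnegative degree: `C ^ 2 = C · K = -1` -/
structure ExcN {N : ℕ} (e : ℤ) (c : Fin N → ℤ) : Prop where
  nonneg : 0 ≤ e
  sq : ∑ i, c i ^ 2 = e ^ 2 + 1
  can : ∑ i, c i = 3 * e - 1

end Pool.Agent.Work.MP_0421d9_ag.LD
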