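import Pool.Agent.Work.MP_0421d9_ag.Nc5

/-!
Smoothness relative to an arbitrary set of exempt points: at the exempt points the hypotheses are
regularity of the exempt points alone, in degree `d - 1` (with one further point) and in degree `d`
(with one multiplicity raised).
-/

set_option linter.unusedSectionVars false

namespace Pool.Agent.Work.MP_0421d9_ag

open MvPolynomial Module

section free

variable {ι : Type} [Fintype ι] [DecidableEq ι]

/-- if the conditions are independent, the parametrisation of the inverse system is injective -/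
theorem inj_of_finrank {d : ℕ} {p : ι → V3} {m : ι → ℕ} (hm : ∀ i, m i ≤ d + 1)
    (h : finrank ℂ (linSys d p m) + ∑ i, (m i + 1).choose 2 = (d + 2).choose 2) :
    ∀ G ∈ HH m, Psi d p m G = 0 → G = 0 := by
  have h0 := finrank_linSys_add (p := p) hm
  have h1 : finrank ℂ (J d p m) = ∑ i, (m i + 1).choose 2 := by omega
  have hfinH : ∀ i, Module.Finite ℂ (Hm (m i)) := by
    intro i
    cases hmi : m i with
    | zero => exact inferInstanceAs (Module.Finite ℂ (⊥ : Submodule ℂ R3))
    | succ n =>
      exact inferInstanceAs (Module.Finite ℂ (Rd n))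
  let e : (HH m) ≃ₗ[ℂ] (∀ i, Hm (m i)) :=
      { toFun := fun G i => ⟨G.1 i, mem_HH.mp G.2 i⟩
        invFun := fun G => ⟨fun i => (G i).1, mem_HH.mpr (fun i => (G i).2)⟩
        left_inv := fun G => rfl
        right_inv := fun G => rfl
        map_add' := fun G G' => rfl
        map_smul' := fun c G => rfl }
  have hfin : Module.Finite ℂ (HH m) := Module.Finite.equiv e.symm
  have h2 : finrank ℂ (HH m) = ∑ i, (m i + 1).choose 2 := by
    rw [e.finrank_eq, Module.finrank_pi_fintype]
    exact Finset.sum_congr rfl (fun i _ => finrank_Hm (m i))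
  have h3 := LinearMap.finrank_range_add_finrank_ker ((Psi d p m).domRestrict (HH m))
  rw [LinearMap.range_domRestrict] at h3
  have h4 : finrank ℂ ((HH m).map (Psi d p m)) = ∑ i, (m i + 1).choose 2 := h1
  rw [h4, h2] at h3
  have h5 : finrank ℂ (LinearMap.ker ((Psi d p m).domRestrict (HH m))) = 0 := by omega
  have h6 := Submodule.finrank_eq_zero.mp h5
  intro G hG hG0
  have h7 : (⟨G, hG⟩ : HH m) ∈ LinearMap.ker ((Psi d p m).domRestrict (HH m)) := by
    rw [LinearMap.mem_ker]
    exact hG0
  rw [h6, Submodule.mem_bot] at h7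
  exact congrArg Subtype.val h7

/-- Castelnuovo-Mumford: if the fat points impose independent conditions in degree `d`, then in
degree `d + 1` the system has no base point outside the points. -/
theorem free_of_inj {d : ℕ} {p : ι → V3} {y : ι → ℕ} (hy : ∀ i, y i ≤ d + 1)
    (hN : ∀ G ∈ HH y, Psi d p y G = 0 → G = 0) {q : V3} (hq0 : q ≠ 0)
    (hq : ∀ i, y i ≠ 0 → cr (p i) q ≠ 0) : lin q ^ (d + 1) ∉ J (d + 1) p y := by
  intro hJ
  obtain ⟨G, hG, hGq⟩ := mem_J.mp hJ
  have key : ∀ i, G i = 0 := by
    intro i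
    by_contra hne
    have hGi := hG i
    rcases Nat.eq_zero_or_pos (y i) with hz | hz
    · rw [hz, mem_Hm_zero] at hGi
      exact hne hGi
    have hcr := hq i (by omega)
    have hpi : p i ≠ 0 := by
      intro h
      apply hcr
      rw [h]
      ext l
      fin_cases l <;> simp [cr]
    -- a direction killing `q` but not `p i`
    obtain ⟨w, hwq, hwp⟩ : ∃ w : V3, eval w (lin q) = 0 ∧ eval w (lin (p i)) ≠ 0 := by
      obtain ⟨k, hk⟩ := Function.ne_iff.mp hcr
      refine ⟨cr q (Pi.single k 1), ?_, ?_⟩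
      · rw [eval_lin]
        simp only [cr, Fin.sum_univ_three, Matrix.cons_val]
        ring
      · rw [eval_lin]
        intro h0
        apply hk
        fin_cases k
        · simp [cr, Fin.sum_univ_three] at h0 ⊢
          linear_combination h0
        · simp [cr, Fin.sum_univ_three] at h0 ⊢
          linear_combination h0
        · simp [cr, Fin.sum_univ_three] at h0 ⊢
          linear_combination h0
    obtain ⟨n, hn⟩ : ∃ n, y i = n + 1 := ⟨y i - 1, by omega⟩
    rw [hn, mem_Hm_succ] at hGi
    obtain ⟨s, e, G', hse, hGG', hG', hnd⟩ :=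
      exists_lin_factorization (p := p i) n (G i) hGi hne
    set K : ι → R3 := fun j => C (((d + 2 - y j : ℕ) : ℂ) * eval w (lin (p j))) * G j +
      lin (p j) * dir w (G j) with hK
    have hKH : K ∈ HH y := by
      rw [mem_HH]
      intro j
      have hGj := hG j
      rcases Nat.eq_zero_or_pos (y j) with hzj | hzj
      · rw [hzj, mem_Hm_zero] at hGj
        rw [hzj, mem_Hm_zero, hK]
        simp only
        rw [hGj, map_zero, mul_zero, mul_zero, add_zero]
      · obtain ⟨n', hn'⟩ : ∃ n', y j = n' + 1 := ⟨y j - 1, by omega⟩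
        rw [hn', mem_Hm_succ] at hGj ⊢
        apply IsHomogeneous.add
        · exact hGj.C_mul _
        · rcases Nat.eq_zero_or_pos n' with hn0 | hn0
          · subst hn0
            have h0 : G j = C (coeff 0 (G j)) :=
              (MvPolynomial.totalDegree_eq_zero_iff_eq_C).mp (Nat.le_zero.mp hGj.totalDegree_le)
            rw [h0, dir_C, mul_zero]
            exact isHomogeneous_zero _ _ _
          · have h1 := (lin_isHomogeneous (p j)).mul (dir_isHomogeneous w hGj)
            rwa [(by omega : 1 + (n' - 1) = n')] at h1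
    have hKP : Psi d p y K = 0 := by
      have h1 : dir w (lin q ^ (d + 1)) = 0 := by
        rw [dir_pow, dir_lin, hwq, C_0, mul_zero, mul_zero]
      rw [← hGq, map_sum] at h1
      rw [Psi_apply, ← h1]
      refine Finset.sum_congr rfl (fun j _ => ?_)
      rcases Nat.eq_zero_or_pos (y j) with hzj | hzj
      · have hGj := hG j
        rw [hzj, mem_Hm_zero] at hGj
        rw [hK]
        simp only
        rw [hGj, map_zero, mul_zero, mul_zero, mul_zero, add_zero, mul_zero, map_zero]
      · have hyj := hy j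
        rw [dir_mul, dir_pow, dir_lin, hK]
        simp only
        rw [(by omega : d + 1 + 1 - y j = (d + 1 - y j) + 1), Nat.add_sub_cancel, pow_succ,
          map_mul]
        ring
    have h1 := congrFun (hN K hKH hKP) i
    rw [hK] at h1
    simp only [Pi.zero_apply] at h1
    rw [hGG'] at h1
    -- divide by the power of the linear form
    have hyi := hy i
    have h2 : lin (p i) ^ s * (C (((d + 2 - y i + s : ℕ) : ℂ) * eval w (lin (p i))) * G' +
        lin (p i) * dir w G') = 0 := by
      rw [← h1, dir_mul, dir_pow, dir_lin]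
      cases s with
      | zero => simp
      | succ s =>
        rw [Nat.add_sub_cancel, pow_succ]
        push_cast
        simp only [map_mul, map_add]
        ring
    have h3 := (mul_eq_zero.mp h2).resolve_left (pow_ne_zero s (lin_prime hpi).ne_zero)
    apply hnd
    have hc : ((d + 2 - y i + s : ℕ) : ℂ) * eval w (lin (p i)) ≠ 0 :=
      mul_ne_zero (Nat.cast_ne_zero.mpr (by omega)) hwp
    have h4 : C (((d + 2 - y i + s : ℕ) : ℂ) * eval w (lin (p i))) * G' =
        lin (p i) * (- dir w G') := by linear_combination h3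
    refine ⟨C (((d + 2 - y i + s : ℕ) : ℂ) * eval w (lin (p i)))⁻¹ * (- dir w G'), ?_⟩
    calc G' = C (((d + 2 - y i + s : ℕ) : ℂ) * eval w (lin (p i)))⁻¹ *
          (C (((d + 2 - y i + s : ℕ) : ℂ) * eval w (lin (p i))) * G') := by
            rw [← mul_assoc, ← map_mul, inv_mul_cancel₀ hc, C_1, one_mul]
      _ = lin (p i) * (C (((d + 2 - y i + s : ℕ) : ℂ) * eval w (lin (p i)))⁻¹ *
          (- dir w G')) := by
            rw [h4]; ring
  have h1 : lin q ^ (d + 1) = 0 := by
    rw [← hGq]
    refine Finset.sum_eq_zero (fun i _ => ?_)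
    rw [key i, mul_zero]
  exact hq0 (lin_eq_zero.mp (pow_eq_zero_iff (Nat.succ_ne_zero d) |>.mp h1))

/-- completeness at a point, from regularity after raising the multiplicity -/
theorem full_of_inj {d : ℕ} {p : ι → V3} {m : ι → ℕ} {i : ι} (hi : m i ≤ d)
    (hN : ∀ G ∈ HH (Function.update m i (m i + 1)),
      Psi d p (Function.update m i (m i + 1)) G = 0 → G = 0) : Rigid.Full d p m i := by
  intro U hU hJ
  obtain ⟨G, hG, hGU⟩ := mem_J.mp hJ
  set K := Function.update G i (lin (p i) * G i - U) with hK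
  have hKH : K ∈ HH (Function.update m i (m i + 1)) := by
    rw [mem_HH]
    intro j
    by_cases hj : j = i
    · subst hj
      rw [hK, Function.update_self, Function.update_self]
      apply Submodule.sub_mem _ _ hU
      exact mul_mem_Hm_succ (lin_isHomogeneous (p j)) (hG j)
    · rw [hK, Function.update_of_ne hj, Function.update_of_ne hj]
      exact hG j
  have hKP : Psi d p (Function.update m i (m i + 1)) K = 0 := by
    rw [Psi_apply]
    have h1 : ∀ j, lin (p j) ^ (d + 1 - Function.update m i (m i + 1) j) * K j =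
        lin (p j) ^ (d + 1 - m j) * G j - (if j = i then lin (p i) ^ (d - m i) * U else 0) := by
      intro j
      by_cases hj : j = i
      · subst hj
        rw [hK, Function.update_self, Function.update_self, if_pos rfl,
          (by omega : d + 1 - (m j + 1) = d - m j), (by omega : d + 1 - m j = d - m j + 1),
          pow_succ]
        ring
      · rw [hK, Function.update_of_ne hj, Function.update_of_ne hj, if_neg hj, sub_zero]
    rw [Finset.sum_congr rfl (fun j _ => h1 j), Finset.sum_sub_distrib, Finset.sum_ite_eq' _ i,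
      if_pos (Finset.mem_univ i), hGU, sub_self]
  have h2 := congrFun (hN K hKH hKP) i
  rw [hK, Function.update_self, Pi.zero_apply, sub_eq_zero] at h2
  exact ⟨G i, h2.symm⟩

/-- no common factor, relative to a set of exempt points -/
theorem rel_no_common {d : ℕ} {p : ι → V3} {E : ι → Fin 3 → Derivation ℚ ℂ ℂ} {m : ι → ℕ}
    {π : R3} (hE : IsDual p E) (hm : ∀ l, m l ≤ d) {W : ι → Prop}
    (hfull : ∀ j, ¬ W j → 1 ≤ m j → Rigid.Full d p m j)
    (hfullW : ∀ j, W j → 1 ≤ m j → Rigid.Full d p (rs W m) j)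
    (hfree : ∀ q : V3, q ≠ 0 → (∀ i, rs W m i ≠ 0 → cr (p i) q ≠ 0) →
      lin q ^ d ∉ J d p (rs W m))
    (hne : linSys d p m ≠ ⊥)
    (hπ : Irreducible π) (hdiv : ∀ f ∈ linSys d p m, π ∣ f) : False := by
  classical
  -- drop the points outside the exempt set
  have key : ∀ T : Finset ι, (∀ j ∈ T, ¬ W j) →
      ∀ f ∈ linSys d p (fun l => if l ∈ T then 0 else m l), π ∣ f := by
    intro T
    induction T using Finset.induction_on with
    | empty =>
      intro _ f hf
      apply hdiv f
      simpa using hf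
    | insert j T hj ih =>
      intro hT f hf
      have ih' := ih (fun l hl => hT l (Finset.mem_insert_of_mem hl))
      set z : ι → ℕ := fun l => if l ∈ T then 0 else m l with hz
      have hzj : z j = m j := by rw [hz]; simp only; rw [if_neg hj]
      have hupd : (fun l => if l ∈ insert j T then 0 else m l) = Function.update z j 0 := by
        funext l
        by_cases hl : l = j
        · subst hl
          rw [Function.update_self, if_pos (Finset.mem_insert_self l T)]
        · rw [Function.update_of_ne hl, hz]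
          simp only [Finset.mem_insert, hl, false_or]
      rw [hupd] at hf
      rcases Nat.eq_zero_or_pos (m j) with h0 | h0
      · rw [← h0, ← hzj, Function.update_eq_self] at hf
        exact ih' f hf
      · have hzm : ∀ l, z l ≤ m l := by
          intro l
          rw [hz]
          simp only
          split_ifs
          · exact Nat.zero_le _
          · exact le_rfl
        exact dvd_drop hE (fun l => (hzm l).trans (hm l))
          (full_mono hm hzm hzj (hfull j (hT j (Finset.mem_insert_self j T)) h0)) hπ ih' f hf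
  have hW : (fun l => if l ∈ Finset.univ.filter (fun l => ¬ W l) then 0 else m l) = rs W m := by
    funext l
    by_cases hl : W l
    · rw [rs_of hl, if_neg]
      simpa using hl
    · rw [rs_not hl, if_pos]
      simpa using hl
  have hdivW := key (Finset.univ.filter (fun l => ¬ W l)) (fun j hj => by simpa using hj)
  rw [hW] at hdivW
  have hneW : linSys d p (rs W m) ≠ ⊥ := by
    intro h
    apply hne
    rw [Submodule.eq_bot_iff]
    intro f hf
    have : f ∈ linSys d p (rs W m) := linSys_mono (rs_le W m) hf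
    rwa [h, Submodule.mem_bot] at this
  obtain ⟨e, he⟩ := isHomogeneous_common hneW hdivW
  have he1 : 1 ≤ e := by
    by_contra hcon
    have he0 : e = 0 := by omega
    rw [he0] at he
    have h2 : π = C (coeff 0 π) :=
      (totalDegree_eq_zero_iff_eq_C).mp (Nat.le_zero.mp he.totalDegree_le)
    apply hπ.not_isUnit
    rw [h2]
    have h3 : coeff 0 π ≠ 0 := by
      intro h4
      rw [h4, C_0] at h2
      exact hπ.ne_zero h2
    exact (IsUnit.mk0 _ h3).map C
  have hp0 : (Pi.single 0 1 : V3) ≠ 0 := by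
    intro h
    have := congrFun h 0
    simp at this
  obtain ⟨q, hcr, hq0⟩ := exists_zero hp0 he1 he
  have hqne : q ≠ 0 := by
    rintro rfl
    exact hcr (cr_zero_right _)
  have hWd : ∀ l, rs W m l ≤ d := fun l => (rs_le W m l).trans (hm l)
  refine hfree q hqne ?_ ?_
  · intro i hi h0
    have hWi : W i := by
      by_contra h
      exact hi (rs_not h)
    have hmi : 1 ≤ m i := by
      rw [rs_of hWi] at hi
      omega
    obtain ⟨c, hc⟩ := exists_smul_of_cr_eq_zero (gp1 hE i) h0
    have hc0 : c ≠ 0 := by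
      rintro rfl
      exact hqne (by rw [hc, zero_smul])
    have h1 := eval_ne_of_full hWd (gp1 hE i) (hfullW i hWi hmi) hπ hdivW
    rw [hc, eval_smul_form he] at hq0
    exact h1 ((mul_eq_zero.mp hq0).resolve_left (pow_ne_zero _ hc0))
  · apply mem_J_of_B (fun l => (hWd l).trans (Nat.le_succ d)) (lin_isHomogeneous_pow q d)
    intro f hf
    obtain ⟨g, hg⟩ := hdivW f hf
    rw [B_lin_pow hf.1, hg, map_mul, hq0, zero_mul, mul_zero]

end free

section rel

variable {ι κ : Type} [Fintype ι] [Fintype κ] [DecidableEq ι] [DecidableEq κ]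

variable {d : ℕ} {P : ι ⊕ κ → V3} {E : ι ⊕ κ → Fin 3 → Derivation ℚ ℂ ℂ} {m : ι → ℕ} {F : R3}

namespace Rigid

/-- the rigid member is smooth away from the multiple points, relative version -/
theorem rel_no_singularity (S : Rigid d P E m F) (hsq : Squarefree F) {W : ι → Prop}
    (hfull : ∀ j, ¬ W j → 3 ≤ m j → Full d (fun i => P (Sum.inl i)) m j)
    (hN : ∀ G ∈ HH m, Psi d (fun i => P (Sum.inl i)) m G = 0 → G = 0)
    {q : V3} (hqne : q ≠ 0)
    (hfree0 : lin q ^ d ∉ J d (fun i => P (Sum.inl i)) (rs W m))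
    (hfree : ∀ e, ¬ W e → 2 ≤ m e →
      lin q ^ d ∉ J d (fun i => P (Sum.inl i)) (Function.update (rs W m) e (m e - 1)))
    (hq0 : eval q F = 0)
    (hsing : ∀ k, eval q (pderiv k F) = 0) : False := by
  set p : ι → V3 := fun i => P (Sum.inl i) with hp
  have hd : 1 ≤ d := by
    by_contra hc
    have hd0 : d = 0 := by omega
    have h1 := S.hom
    rw [hd0] at h1
    have h0 : F = C (coeff 0 F) :=
      (MvPolynomial.totalDegree_eq_zero_iff_eq_C).mp (Nat.le_zero.mp h1.totalDegree_le)
    rw [h0, eval_C] at hq0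
    rw [hq0, C_0] at h0
    exact S.hF0 h0
  obtain ⟨d', rfl⟩ : ∃ d', d = d' + 1 := ⟨d - 1, by omega⟩
  have hdne : ((d' + 1 : ℕ) : ℂ) ≠ 0 := by
    rw [Nat.cast_ne_zero]; omega
  -- the singularity in terms of the pairing
  have hBq : B (lin q ^ (d' + 1)) F = 0 := by
    rw [B_lin_pow S.hom, hq0, mul_zero]
  have hBw : ∀ w, B (lin q ^ d' * lin w) F = 0 := by
    intro w
    have h1 : (dir w F).IsHomogeneous d' := by
      simpa using dir_isHomogeneous w S.hom
    rw [mul_comm, B_lin_mul, B_lin_pow h1, dir_apply, map_sum]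
    have h2 : ∑ k, eval q (C (w k) * pderiv k F) = 0 := by
      refine Finset.sum_eq_zero (fun k _ => ?_)
      rw [map_mul, hsing k, mul_zero]
    rw [h2, mul_zero]
  -- step 1
  have hJ : lin q ^ (d' + 1) ∈ J (d' + 1) p m := by
    apply S.memJ (lin_isHomogeneous_pow q (d' + 1)) hBq
    intro k v
    have h1 := D_B (mv E (Sum.inr k) v) (lin q ^ (d' + 1)) F
    rw [hBq, map_zero, cDq, B_C_mul_left, hBw, mul_zero, zero_add] at h1
    exact h1.symm
  obtain ⟨G, hG', hGq⟩ := mem_J.mp hJ
  have hG : G ∈ HH m := mem_HH.mpr hG'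
  rw [← Psi_apply] at hGq
  -- step 2
  have hT : ∃ w, cr q w ≠ 0 ∧ lin q ^ d' * lin w ∈ J (d' + 1) p m := by
    by_contra hcon
    push Not at hcon
    have hT' : ∀ w, lin q ^ d' * lin w ∈ J (d' + 1) p m → cr q w = 0 := by
      intro w hw
      by_contra h
      exact hcon w h hw
    have hprop : ∀ k v, ∃ c : ℂ, (fun l => mv E (Sum.inr k) v (q l)) = c • q := by
      intro k v
      apply exists_smul_of_cr_eq_zero hqne
      apply hT'
      apply mem_of_C_mul_mem hdne
      rw [← cDq, ← hGq, cD_Psi_fixed S.hE]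
      exact Psi_mem_J (HH_cD _ hG)
    obtain ⟨w, hw⟩ := exists_cr_ne hqne
    apply hw
    apply hT'
    apply S.memJ _ (hBw w)
    · intro k v
      obtain ⟨c, hc⟩ := hprop k v
      have h1 := D_B (mv E (Sum.inr k) v) (lin q ^ d' * lin w) F
      rw [hBw, map_zero, cD_mul, cD_lin_pow_prop hc, cD_lin, map_add, LinearMap.add_apply,
        mul_assoc, B_C_mul_left, hBw, hBw, mul_zero, zero_add, zero_add] at h1
      exact h1.symm
    · exact (lin_isHomogeneous_pow q d').mul (lin_isHomogeneous w)
  obtain ⟨w₀, hw₀, hw₀J⟩ := hT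
  -- step 3: divisibility of the components
  have hdivG : ∀ j, ¬ W j → lin (p j) ∣ G j := by
    intro j hj
    have hκ : ((d' + 1 + 1 - m j : ℕ) : ℂ) ≠ 0 := by
      rw [Nat.cast_ne_zero]
      have := S.hm j
      omega
    have h1 : ∀ v, C ((d' + 1 + 1 - m j : ℕ) : ℂ) * (lin (p j) ^ (d' + 1 - m j) * (lin v * G j)) =
        C ((d' + 1 : ℕ) : ℂ) * (lin q ^ d' * lin (fun l => mv E (Sum.inl j) v (q l))) -
          Psi (d' + 1) p m (fun i => cD (mv E (Sum.inl j) v) (G i)) := by
      intro v
      have h2 := cD_Psi S.hE S.hm (G := G) j v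
      rw [hGq, cDq] at h2
      rw [h2]
      ring
    apply S.div hsq (hfull j hj) (hG' j)
    · intro v
      have h2 := congrArg (fun z => B z F) (h1 v)
      simp only [map_sub, LinearMap.sub_apply, B_C_mul_left] at h2
      rw [hBw, mul_zero, S.B_J (Psi_mem_J (HH_cD _ hG)), sub_zero] at h2
      exact (mul_eq_zero.mp h2).resolve_left hκ
    · obtain ⟨v, hv0, hv⟩ := exists_ker_ne (gp1 S.hE (Sum.inl j))
        (evQ (QL E (Sum.inl j) q) (cr q w₀))
      refine ⟨v, hv, ?_⟩
      apply mem_of_C_mul_mem hκ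
      rw [h1 v]
      apply Submodule.sub_mem _ _ (Psi_mem_J (HH_cD _ hG))
      apply C_mul_mem
      obtain ⟨s, t, hst⟩ := exists_comb hw₀ (show eval (QL E (Sum.inl j) q v) (xl q w₀) = 0 from hv0)
      rw [show (fun l => mv E (Sum.inl j) v (q l)) = s • q + t • w₀ from hst, lin_add, lin_smul,
        lin_smul, mul_add]
      apply Submodule.add_mem
      · have : lin q ^ d' * (C s * lin q) = C s * lin q ^ (d' + 1) := by
          rw [pow_succ]; ring
        rw [this]
        exact C_mul_mem _ hJ
      · have : lin q ^ d' * (C t * lin w₀) = C t * (lin q ^ d' * lin w₀) := by ring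
        rw [this]
        exact C_mul_mem _ hw₀J
  -- step 4: at most one nonzero component outside
  have huniq : ∀ j j', ¬ W j → ¬ W j' → j ≠ j' → G j ≠ 0 → G j' ≠ 0 → False := by
    intro j j' hj hj' hjj hGj hGj'
    obtain ⟨s, n, G₁, e1, e2, e3, e4⟩ := S.exists_fact hG' (hdivG j hj) hGj
    obtain ⟨s', n', G₂, e1', e2', e3', e4'⟩ := S.exists_fact hG' (hdivG j' hj') hGj'
    exact S.two_nonzero hN hqne hG hGq hjj e1 e2 e3 e4 e1' e2' e3' e4'
  -- step 5
  by_cases hZ : ∃ e, ¬ W e ∧ G e ≠ 0
  · obtain ⟨e, he, hGe⟩ := hZ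
    obtain ⟨s, n, G₁, e1, e2, e3, e4⟩ := S.exists_fact hG' (hdivG e he) hGe
    have h2 : 2 ≤ m e := by omega
    apply hfree e he h2
    rw [← hGq, Psi_apply]
    apply Submodule.sum_mem
    intro l _
    by_cases hl : l = e
    · subst hl
      have h7 : lin (p l) ^ (d' + 1 + 1 - m l) * G l =
          lin (p l) ^ (d' + 1 + 1 - Function.update (rs W m) l (m l - 1) l) *
            (lin (p l) ^ s * G₁) := by
        rw [Function.update_self, e1,
          (by have := S.hm l; omega : d' + 1 + 1 - (m l - 1) = d' + 1 + 1 - m l + 1), pow_succ,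
          pow_succ]
        ring
      rw [h7]
      apply summand_mem_J
      rw [Function.update_self, (by omega : m l - 1 = (s + n) + 1), mem_Hm_succ]
      exact (lin_isHomogeneous_pow (p l) s).mul e2
    · by_cases hWl : W l
      · have h7 : m l = Function.update (rs W m) e (m e - 1) l := by
          rw [Function.update_of_ne hl, rs_of hWl]
        rw [h7]
        apply summand_mem_J
        rw [← h7]
        exact hG' l
      · have h8 : G l = 0 := by
          by_contra h
          exact huniq l e hWl he hl h hGe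
        rw [h8, mul_zero]
        exact zero_mem _
  · push Not at hZ
    apply hfree0
    rw [← hGq]
    exact Psi_mem_J_rs hG hZ

/-- no bad direction at the exempt points, relative version -/
theorem rel_no_bad_special (S : Rigid d P E m F) (hsq : Squarefree F) {W : ι → Prop}
    (hfull : ∀ j, ¬ W j → 3 ≤ m j → Full d (fun i => P (Sum.inl i)) m j)
    (hN : ∀ G ∈ HH m, Psi d (fun i => P (Sum.inl i)) m G = 0 → G = 0)
    {a : ι} (ha : W a) (hz : 0 < m a) (hfulla : Full d (fun i => P (Sum.inl i)) (rs W m) a)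
    {u : V3} (hu : cr (P (Sum.inl a)) u ≠ 0) (h : BadDir d F (P (Sum.inl a)) (m a) u) :
    False := by
  set p : ι → V3 := fun i => P (Sum.inl i) with hp
  have hJ : lin (p a) ^ (d - m a) * lin u ^ m a ∈ J d p m := S.bad_mem_J h
  obtain ⟨G, hG', hGq⟩ := mem_J.mp hJ
  have hG : G ∈ HH m := mem_HH.mpr hG'
  rw [← Psi_apply] at hGq
  have hma : lin u ^ (m a - 1) ∈ Hm (m a) := by
    obtain ⟨n, hn⟩ : ∃ n, m a = n + 1 := ⟨m a - 1, by omega⟩
    rw [hn, mem_Hm_succ, Nat.add_sub_cancel]
    exact lin_isHomogeneous_pow u n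
  have hmane : (m a : ℂ) ≠ 0 := by
    rw [Nat.cast_ne_zero]; omega
  -- the derivative along the motion of another point
  have hcD : ∀ j, j ≠ a → ∀ v, cD (mv E (Sum.inl j) v) (Psi d p m G) =
      C (m a : ℂ) * (lin (p a) ^ (d - m a) * (lin u ^ (m a - 1) *
        lin (fun l => mv E (Sum.inl j) v (u l)))) := by
    intro j hj v
    rw [hGq, cD_mul, cD_lin_pow_ne S.hE (by simpa using hj.symm), zero_mul, zero_add,
      cD_lin_pow_eq]
    ring
  -- expression when the derivative of `u` lies in the plane of `p a` and `u`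
  have hexp : ∀ (s t : ℂ), C (m a : ℂ) * (lin (p a) ^ (d - m a) * (lin u ^ (m a - 1) *
        lin (s • p a + t • u))) =
      lin (p a) ^ (d + 1 - m a) * (C ((m a : ℂ) * s) * lin u ^ (m a - 1)) +
        C ((m a : ℂ) * t) * (lin (p a) ^ (d - m a) * lin u ^ m a) := by
    intro s t
    have e1 : lin (p a) ^ (d + 1 - m a) = lin (p a) ^ (d - m a) * lin (p a) := by
      rw [← pow_succ]
      congr 1
      have := S.hm a
      omega
    have e2 : lin u ^ m a = lin u ^ (m a - 1) * lin u := by
      rw [← pow_succ]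
      congr 1
      omega
    rw [e1, e2, lin_add, lin_smul, lin_smul, map_mul, map_mul]
    ring
  -- good directions for `j`
  have hgood : ∀ j, ∃ (v : V3) (s t : ℂ), cr (p j) v ≠ 0 ∧
      (fun l => mv E (Sum.inl j) v (u l)) = s • p a + t • u := by
    intro j
    obtain ⟨v, hv0, hv⟩ := exists_ker_ne (gp1 S.hE (Sum.inl j))
        (evQ (QL E (Sum.inl j) u) (cr (p a) u))
    obtain ⟨s, t, hst⟩ := exists_comb hu
      (show eval (QL E (Sum.inl j) u v) (xl (p a) u) = 0 from hv0)
    exact ⟨v, s, t, hv, hst⟩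
  have hja' : ∀ j, ¬ W j → j ≠ a := by
    rintro j hj rfl
    exact hj ha
  have hdivG : ∀ j, ¬ W j → lin (p j) ∣ G j := by
    intro j hj
    have hja := hja' j hj
    have hκ : ((d + 1 - m j : ℕ) : ℂ) ≠ 0 := by
      rw [Nat.cast_ne_zero]
      have := S.hm j
      omega
    have h1 : ∀ v, C ((d + 1 - m j : ℕ) : ℂ) * (lin (p j) ^ (d - m j) * (lin v * G j)) =
        C (m a : ℂ) * (lin (p a) ^ (d - m a) * (lin u ^ (m a - 1) *
        lin (fun l => mv E (Sum.inl j) v (u l)))) -
          Psi d p m (fun i => cD (mv E (Sum.inl j) v) (G i)) := by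
      intro v
      have h2 := cD_Psi S.hE S.hm (G := G) j v
      rw [← hcD j hja v]
      have h2' : cD (mv E (Sum.inl j) v) (Psi d p m G) =
        C ((d + 1 - m j : ℕ) : ℂ) * (lin (p j) ^ (d - m j) * (lin v * G j)) +
        Psi d p m (fun i => cD (mv E (Sum.inl j) v) (G i)) := h2
      rw [h2']
      ring
    apply S.div hsq (hfull j hj) (hG' j)
    · intro v
      have h2 := congrArg (fun z => B z F) (h1 v)
      simp only [map_sub, LinearMap.sub_apply, B_C_mul_left] at h2
      rw [h.2 hz, mul_zero, S.B_J (Psi_mem_J (HH_cD _ hG)), sub_zero] at h2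
      exact (mul_eq_zero.mp h2).resolve_left hκ
    · obtain ⟨v, s, t, hv, hst⟩ := hgood j
      refine ⟨v, hv, ?_⟩
      apply mem_of_C_mul_mem hκ
      rw [h1 v, hst, hexp]
      apply Submodule.sub_mem _ _ (Psi_mem_J (HH_cD _ hG))
      apply Submodule.add_mem
      · apply summand_mem_J
        exact C_mul_mem _ hma
      · exact C_mul_mem _ hJ
  have hzero : ∀ j, ¬ W j → G j = 0 := by
    intro j hj
    have hja := hja' j hj
    by_contra hne
    obtain ⟨s', e, G', hjG, hhom, hmj, hnd⟩ := S.exists_fact hG' (hdivG j hj) hne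
    obtain ⟨v, s, t, hv, hst⟩ := hgood j
    refine S.contra hN hG hjG hhom hmj hnd hv
      (X := Pi.single a (C ((m a : ℂ) * s) * lin u ^ (m a - 1)) + ((m a : ℂ) * t) • G)
      ?_ ?_ ?_
    · apply Submodule.add_mem _ _ (Submodule.smul_mem _ _ hG)
      rw [mem_HH]
      intro i
      by_cases hia : i = a
      · subst hia
        rw [Pi.single_eq_same]
        exact C_mul_mem _ hma
      · rw [Pi.single_eq_of_ne hia]
        exact zero_mem _
    · change Psi d p m _ = cD _ (Psi d p m G)
      rw [hcD j hja v, hst, hexp, map_add, map_smul, hGq, smul_eq_C_mul]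
      congr 1
      rw [Psi_apply, Finset.sum_eq_single a]
      · rw [Pi.single_eq_same]
      · intro i _ hia
        rw [Pi.single_eq_of_ne hia, mul_zero]
      · intro h'
        exact absurd (Finset.mem_univ a) h'
    · rw [Pi.add_apply, Pi.single_eq_of_ne hja, zero_add, Pi.smul_apply, smul_eq_C_mul, hjG]
      exact Dvd.dvd.mul_left (Dvd.intro _ rfl) _
  have hJW : lin (p a) ^ (d - m a) * lin u ^ m a ∈ J d p (rs W m) := by
    rw [← hGq]
    exact Psi_mem_J_rs hG hzero
  have h1 : lin (p a) ∣ lin u ^ m a := by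
    apply hfulla
    · rw [rs_of ha]
      exact lin_isHomogeneous_pow u (m a)
    · rw [rs_of ha]
      exact hJW
  exact hu (lin_dvd_lin ((lin_prime (gp1 S.hE _)).dvd_of_dvd_pow h1))

/-- no bad direction at all, relative version -/
theorem rel_no_bad (S : Rigid d P E m F) (hsq : Squarefree F) {W : ι → Prop}
    (hfull : ∀ j, ¬ W j → 3 ≤ m j → Full d (fun i => P (Sum.inl i)) m j)
    (hfullW : ∀ j, W j → 3 ≤ m j → Full d (fun i => P (Sum.inl i)) (rs W m) j)
    (hN : ∀ G ∈ HH m, Psi d (fun i => P (Sum.inl i)) m G = 0 → G = 0)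
    {i : ι} {u : V3} (hu : cr (P (Sum.inl i)) u ≠ 0) (h : BadDir d F (P (Sum.inl i)) (m i) u) :
    False := by
  by_cases hW : W i
  · by_cases h3 : 3 ≤ m i
    · exact S.rel_no_bad_special hsq hfull hN hW (by omega) (hfullW i hW h3) hu h
    · exact S.no_bad_full hsq (fun h' => absurd h' h3) hu h
  · exact S.no_bad_full hsq (hfull i hW) hu h

end Rigid

end rel

section final

variable {r n d : ℕ} {p : Fin r → V3} {s : Fin n → V3} {t : Fin 4 → V3} {m : Fin r → ℕ}

/-- injectivity passes from the given points to the multiple and dummy points -/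
theorem inj_core {d' : ℕ} {z : Fin r → ℕ} {y : IT m → ℕ}
    (hy : ∀ i : {i : Fin r // m i ≠ 1}, y (Sum.inl i) = z i.1) (hy0 : ∀ x, y (Sum.inr x) = 0)
    (hN : ∀ G ∈ HH z, Psi d' p z G = 0 → G = 0) :
    ∀ G ∈ HH y, Psi d' (fun i => PP p s t m (Sum.inl i)) y G = 0 → G = 0 := by
  intro G hG hG0
  have hdummy : ∀ x, G (Sum.inr x) = 0 := by
    intro x
    have h1 := mem_HH.mp hG (Sum.inr x)
    rwa [hy0, mem_Hm_zero] at h1
  set K : Fin r → R3 := fun i => if h : m i ≠ 1 then G (Sum.inl ⟨i, h⟩) else 0 with hK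
  have hKH : K ∈ HH z := by
    rw [mem_HH]
    intro i
    by_cases h : m i ≠ 1
    · have h1 := mem_HH.mp hG (Sum.inl ⟨i, h⟩)
      rw [hy] at h1
      rw [hK]
      simp only
      rw [dif_pos h]
      exact h1
    · rw [hK]
      simp only
      rw [dif_neg h]
      exact zero_mem _
  have hKP : Psi d' p z K = 0 := by
    rw [← hG0, Psi_apply, Psi_apply, Fintype.sum_sum_type]
    have h1 : ∑ x : Fin 4, lin (PP p s t m (Sum.inl (Sum.inr x))) ^
        (d' + 1 - y (Sum.inr x)) * G (Sum.inr x) = 0 := by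
      refine Finset.sum_eq_zero (fun x _ => ?_)
      rw [hdummy x, mul_zero]
    rw [h1, add_zero]
    have h2 := Fintype.sum_subtype_add_sum_subtype (fun i => m i ≠ 1)
      (fun i => lin (p i) ^ (d' + 1 - z i) * K i)
    rw [← h2]
    have h3 : ∑ i : {i : Fin r // ¬ m i ≠ 1}, lin (p i.1) ^ (d' + 1 - z i.1) * K i.1 = 0 := by
      refine Finset.sum_eq_zero (fun i _ => ?_)
      rw [hK]
      simp only
      rw [dif_neg i.2, mul_zero]
    rw [h3, add_zero]
    refine Finset.sum_congr rfl (fun i _ => ?_)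
    rw [hK, hy]
    simp only
    rw [dif_pos i.2]
    rfl
  have h1 := hN K hKH hKP
  funext x
  rcases x with i | x
  · have h2 := congrFun h1 i.1
    rw [hK] at h2
    simp only at h2
    rw [dif_pos i.2] at h2
    exact h2
  · exact hdummy x

theorem rel_smooth_of {E : IT m ⊕ KT m n → Fin 3 → Derivation ℚ ℂ ℂ}
    {F : R3} (S : Rigid d (PP p s t m) E (mm m) F) (hFp : F ∈ linSys d p m)
    (hns : ∀ q : V3, q ≠ 0 → (∀ i : IT m, cr (PP p s t m (Sum.inl i)) q ≠ 0) → eval q F = 0 →
      (∀ k, eval q (pderiv k F) = 0) → False)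
    (hnb : ∀ (i : IT m) (u : V3), cr (PP p s t m (Sum.inl i)) u ≠ 0 →
      BadDir d F (PP p s t m (Sum.inl i)) (mm m i) u → False) :
    SmoothOnBlowup p m F := by
  refine ⟨?_, ?_⟩
  · intro q hq hqp hq0
    by_contra hcon
    push Not at hcon
    apply hns q hq _ hq0 hcon
    rintro (⟨i, hi⟩ | x)
    · exact cr_ne_zero_of (gp1 S.hE _) (hqp i)
    · intro h0
      obtain ⟨c, hc⟩ := exists_smul_of_cr_eq_zero (gp1 S.hE _) h0
      have hc0 : c ≠ 0 := by
        rintro rfl
        exact hq (by rw [hc, zero_smul])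
      apply S.R0 (Sum.inr x) rfl
      have h1 := B_lin_pow S.hom q
      rw [hq0, mul_zero, hc, lin_smul, mul_pow, ← map_pow, B_C_mul_left] at h1
      exact (mul_eq_zero.mp h1).resolve_left (pow_ne_zero _ hc0)
  · intro i u w hlin
    have hpu : LinearIndependent ℂ ![p i, u] := by
      have h1 := hlin.comp ![0, 1] (by decide)
      convert h1 using 1
      ext j
      fin_cases j <;> rfl
    have hpi : p i ≠ 0 := hlin.ne_zero 0
    have hu : cr (p i) u ≠ 0 := by
      intro h0
      obtain ⟨c, hc⟩ := exists_smul_of_cr_eq_zero hpi h0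
      have h1 := (LinearIndependent.pair_iff.mp hpu) c (-1) (by rw [hc]; simp)
      simp at h1
    have hdet : eval w (xl (p i) u) ≠ 0 := by
      intro h0
      obtain ⟨x, y, hxy⟩ := exists_comb hu h0
      have h1 := Fintype.linearIndependent_iff.mp hlin ![x, y, -1] (by
        rw [Fin.sum_univ_three]
        simp only [Matrix.cons_val]
        rw [hxy]
        module)
      have h2 := h1 2
      simp at h2
    have hmi : m i ≤ d := by
      have := S.hF0
      exact le_of_vanishTo S.hom S.hF0 (hFp.2 i)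
    apply chart S.hom hmi (hFp.2 i) hdet
    intro hbad
    by_cases hi : m i = 1
    · -- simple point
      apply not_vanishTo_succ S.hE S.hM S.hF S.hF0 S.huniq (Sum.inr (Sum.inl ⟨i, hi⟩))
      change VanishTo F (p i) (1 + 1)
      rw [vanishTo_iff S.hom _ (by omega)]
      intro G hG
      rw [mem_Hm_succ] at hG
      obtain ⟨v, rfl⟩ := eq_lin_of_isHomogeneous hG
      have h1 := hbad.2 (by omega) v
      rw [hi, Nat.sub_self, pow_zero, one_mul] at h1
      rwa [(by omega : d + 1 - (1 + 1) = d - 1)]
    · exact hnb (Sum.inl ⟨i, hi⟩) u hu hbad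

end final

/-- **Smoothness relative to an arbitrary set of exempt points.** -/
theorem rel_final {r d : ℕ} (p : Fin r → Fin 3 → ℂ) (hp : GenericPoints p) (m : Fin r → ℕ)
    (I : Finset (Fin r)) (hd : 1 ≤ d)
    (hreg : finrank ℂ (linSys d p m) + ∑ i, (m i + 1).choose 2 = (d + 2).choose 2)
    (hne : linSys d p m ≠ ⊥)
    (hB0 : finrank ℂ (linSys (d - 1) p (fun i => if i ∈ I then m i else 0)) +
      ∑ i ∈ I, (m i + 1).choose 2 = (d + 1).choose 2)
    (hBe : ∀ e, e ∉ I → 2 ≤ m e →
      finrank ℂ (linSys (d - 1) p (fun i => if i ∈ I then m i else if i = e then m i - 1 else 0)) +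
        (∑ i ∈ I, (m i + 1).choose 2 + (m e).choose 2) = (d + 1).choose 2)
    (hBi : ∀ i ∈ I, 2 ≤ m i →
      finrank ℂ (linSys d p (fun j => if j ∈ I then (if j = i then m i + 1 else m j) else 0)) +
        (∑ j ∈ I, (m j + 1).choose 2 + (m i + 1)) = (d + 2).choose 2)
    (hcomplete : ∀ i ∉ I, 3 ≤ m i →
      finrank ℂ (linSys d p (dropSimple m)) =
        finrank ℂ (linSys d p (Function.update (dropSimple m) i (m i + 1))) + (m i + 1))
    (h : (∃ F ∈ linSys d p m, Squarefree F) ∨
      ∀ i ∉ I, m i = 2 → finrank ℂ (linSys d p (dropSimple m)) =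
          finrank ℂ (linSys d p (Function.update (dropSimple m) i (m i + 1))) + (m i + 1)) :
    (∃ F ∈ linSys d p m, Squarefree F) ∧
    (∀ s : Fin (finrank ℂ (linSys d p m) - 1) → Fin 3 → ℂ, GenericPoints (Sum.elim p s) →
      ∀ F ∈ linSys d p m, F ≠ 0 → (∀ k, eval (s k) F = 0) → SmoothOnBlowup p m F) ∧
    (∃ F ∈ linSys d p m, F ≠ 0 ∧ SmoothOnBlowup p m F) := by
  obtain ⟨d', rfl⟩ : ∃ d', d = d' + 1 := ⟨d - 1, by omega⟩
  rw [Nat.add_sub_cancel] at hB0
  have hBe' : ∀ e, e ∉ I → 2 ≤ m e →
      finrank ℂ (linSys d' p (fun i => if i ∈ I then m i else if i = e then m i - 1 else 0)) +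
        (∑ i ∈ I, (m i + 1).choose 2 + (m e).choose 2) = (d' + 2).choose 2 := hBe
  have hfin : Module.Finite ℂ (linSys (d' + 1) p m) :=
    Submodule.finiteDimensional_of_le (linSys_le (d' + 1) p _)
  obtain ⟨f₁, hf₁, hf₁0⟩ := Submodule.exists_mem_ne_zero_of_ne_bot hne
  have hm : ∀ i, m i ≤ d' + 1 := fun i => le_of_vanishTo hf₁.1 hf₁0 (hf₁.2 i)
  -- the exempt set
  set W : IT m → Prop := Sum.elim (fun i => i.1 ∈ I) (fun _ => False) with hW
  have hWl : ∀ i : {i : Fin r // m i ≠ 1}, W (Sum.inl i) ↔ i.1 ∈ I := fun i => Iff.rfl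
  have hmmd : ∀ x, mm m x ≤ d' + 1 := by
    rintro (⟨i, hi⟩ | x)
    · exact hm i
    · exact Nat.zero_le _
  have hsum : ∀ z : Fin r → ℕ, (∀ i ∉ I, z i = 0) →
      ∑ i, (z i + 1).choose 2 = ∑ i ∈ I, (z i + 1).choose 2 := by
    intro z hz
    symm
    apply Finset.sum_subset (Finset.subset_univ I)
    intro i _ hi
    rw [hz i hi]
    rfl
  -- injectivity statements for the given points
  have iN : ∀ G ∈ HH m, Psi (d' + 1) p m G = 0 → G = 0 :=
    inj_of_finrank (fun i => (hm i).trans (Nat.le_succ _)) hreg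
  set z0 : Fin r → ℕ := fun i => if i ∈ I then m i else 0 with hz0
  have iB0 : ∀ G ∈ HH z0, Psi d' p z0 G = 0 → G = 0 := by
    apply inj_of_finrank
    · intro i
      rw [hz0]
      simp only
      split_ifs
      · exact hm i
      · exact Nat.zero_le _
    · rw [← hB0, hsum z0 (fun i hi => if_neg hi)]
      congr 1
      refine Finset.sum_congr rfl (fun i hi => ?_)
      rw [hz0]
      simp only
      rw [if_pos hi]
  have iBe : ∀ e, e ∉ I → 2 ≤ m e →
      ∀ G ∈ HH (fun i => if i ∈ I then m i else if i = e then m i - 1 else 0),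
        Psi d' p (fun i => if i ∈ I then m i else if i = e then m i - 1 else 0) G = 0 →
          G = 0 := by
    intro e he h2
    apply inj_of_finrank
    · intro i
      have := hm i
      split_ifs <;> omega
    · rw [← hBe' e he h2]
      congr 1
      rw [← Finset.sum_add_sum_compl I]
      congr 1
      · refine Finset.sum_congr rfl (fun i hi => ?_)
        rw [if_pos hi]
      · rw [Finset.sum_eq_single e]
        · rw [if_neg he, if_pos rfl, Nat.sub_add_cancel (by omega)]
        · intro i hi hie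
          rw [if_neg (Finset.mem_compl.mp hi), if_neg hie]
          rfl
        · intro h'
          exact absurd (Finset.mem_compl.mpr he) h'
  have iBi : ∀ i ∈ I, 2 ≤ m i →
      ∀ G ∈ HH (fun j => if j ∈ I then (if j = i then m i + 1 else m j) else 0),
        Psi (d' + 1) p (fun j => if j ∈ I then (if j = i then m i + 1 else m j) else 0) G = 0 →
          G = 0 := by
    intro i hi h2
    apply inj_of_finrank
    · intro j
      have := hm j
      have := hm i
      split_ifs <;> omega
    · rw [← hBi i hi h2, hsum _ (fun j hj => if_neg hj)]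
      congr 1
      rw [← Finset.add_sum_erase I _ hi, ← Finset.add_sum_erase I (fun j => (m j + 1).choose 2) hi]
      rw [if_pos hi, if_pos rfl]
      have h5 : ∑ j ∈ I.erase i, ((if j ∈ I then (if j = i then m i + 1 else m j) else 0) + 1).choose 2
          = ∑ j ∈ I.erase i, (m j + 1).choose 2 := by
        refine Finset.sum_congr rfl (fun j hj => ?_)
        rw [Finset.mem_erase] at hj
        rw [if_pos hj.2, if_neg hj.1]
      rw [h5]
      have h6 : (m i + 1 + 1).choose 2 = (m i + 1).choose 2 + (m i + 1) := by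
        rw [Nat.choose_succ_succ' (m i + 1) 1, Nat.choose_one_right]
        ring
      omega
  -- the consequences on the configuration
  have main : ∀ (n : ℕ) (s : Fin n → V3) (t : Fin 4 → V3)
      (E : IT m ⊕ KT m n → Fin 3 → Derivation ℚ ℂ ℂ), IsDual (PP p s t m) E →
      (∀ G ∈ HH (mm m), Psi (d' + 1) (fun i => PP p s t m (Sum.inl i)) (mm m) G = 0 → G = 0) ∧
      (∀ q : V3, q ≠ 0 →
        (∀ i : IT m, rs W (mm m) i ≠ 0 → cr (PP p s t m (Sum.inl i)) q ≠ 0) →
        lin q ^ (d' + 1) ∉ J (d' + 1) (fun i => PP p s t m (Sum.inl i)) (rs W (mm m))) ∧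
      (∀ q : V3, q ≠ 0 →
        (∀ i : IT m, cr (PP p s t m (Sum.inl i)) q ≠ 0) → ∀ e, ¬ W e → 2 ≤ mm m e →
        lin q ^ (d' + 1) ∉ J (d' + 1) (fun i => PP p s t m (Sum.inl i))
          (Function.update (rs W (mm m)) e (mm m e - 1))) ∧
      (∀ j, W j → 1 ≤ mm m j →
        Rigid.Full (d' + 1) (fun i => PP p s t m (Sum.inl i)) (rs W (mm m)) j) := by
    intro n s t E hE
    have hWz : ∀ i : {i : Fin r // m i ≠ 1}, rs W (mm m) (Sum.inl i) = z0 i.1 := by
      intro i
      rw [hz0]
      simp only
      by_cases hi : i.1 ∈ I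
      · rw [if_pos hi, rs_of ((hWl i).mpr hi)]
        rfl
      · rw [if_neg hi, rs_not (fun h' => hi ((hWl i).mp h'))]
    have hW0 : ∀ x, rs W (mm m) (Sum.inr x) = 0 := fun x =>
      Nat.le_zero.mp (rs_le W (mm m) (Sum.inr x))
    have hrsd : ∀ x, rs W (mm m) x ≤ d' + 1 := fun x => (rs_le W _ x).trans (hmmd x)
    refine ⟨?_, ?_, ?_, ?_⟩
    · exact inj_core (fun i => rfl) (fun x => rfl) iN
    · intro q hq0 hq
      exact free_of_inj hrsd (inj_core hWz hW0 iB0) hq0 hq
    · intro q hq0 hq e he h2
      rcases e with ⟨e, hem⟩ | x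
      · have heI : e ∉ I := fun h' => he ((hWl ⟨e, hem⟩).mpr h')
        have h2' : 2 ≤ m e := h2
        apply free_of_inj _ (inj_core (z := fun i => if i ∈ I then m i else
          if i = e then m i - 1 else 0) _ _ (iBe e heI h2')) hq0 (fun i _ => hq i)
        · intro x
          by_cases hx : x = Sum.inl ⟨e, hem⟩
          · rw [hx, Function.update_self]
            exact (Nat.sub_le _ _).trans (hm e)
          · rw [Function.update_of_ne hx]
            exact hrsd x
        · intro i
          by_cases hx : i.1 = e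
          · have hx' : i = ⟨e, hem⟩ := Subtype.ext hx
            rw [hx', Function.update_self]
            change m e - 1 = _
            rw [if_neg heI, if_pos rfl]
          · rw [Function.update_of_ne (by
              intro h'
              exact hx (congrArg Subtype.val (Sum.inl.inj h'))), hWz i, hz0]
            simp only
            rw [if_neg hx]
        · intro x
          rw [Function.update_of_ne (by simp)]
          exact hW0 x
      · change 2 ≤ 0 at h2
        omega
    · intro j hj h1
      rcases j with ⟨i, him⟩ | x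
      · have hiI : i ∈ I := (hWl ⟨i, him⟩).mp hj
        have h1' : 1 ≤ m i := h1
        have h2 : 2 ≤ m i := by omega
        apply full_of_inj (hrsd _)
        apply inj_core (z := fun j => if j ∈ I then (if j = i then m i + 1 else m j) else 0) _ _
          (iBi i hiI h2)
        · intro j
          by_cases hx : j.1 = i
          · have hx' : j = ⟨i, him⟩ := Subtype.ext hx
            have hz1 : z0 i = m i := if_pos hiI
            rw [hx', Function.update_self, hWz, if_pos hiI, if_pos rfl, hz1]
          · rw [Function.update_of_ne (by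
              intro h'
              exact hx (congrArg Subtype.val (Sum.inl.inj h'))), hWz j, hz0]
            simp only
            rw [if_neg hx]
        · intro x
          rw [Function.update_of_ne (by simp)]
          exact hW0 x
      · exact absurd hj (by simp [hW])
  -- completeness outside the exempt set
  have hfull_of' : ∀ (n : ℕ) (s : Fin n → V3) (t : Fin 4 → V3)
      (E : IT m ⊕ KT m n → Fin 3 → Derivation ℚ ℂ ℂ), IsDual (PP p s t m) E →
      ∀ i : {i : Fin r // m i ≠ 1}, finrank ℂ (linSys (d' + 1) p (dropSimple m)) =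
        finrank ℂ (linSys (d' + 1) p (Function.update (dropSimple m) i.1 (m i.1 + 1))) +
          (m i.1 + 1) →
      Rigid.Full (d' + 1) (fun i => PP p s t m (Sum.inl i)) (mm m) (Sum.inl i) := by
    intro n s t E hE i hi
    apply full_of_finrank hmmd (gp1 hE (Sum.inl (Sum.inl i)))
    rw [linSys_core, linSys_core_update]
    exact hi
  have hfull3 : ∀ (n : ℕ) (s : Fin n → V3) (t : Fin 4 → V3)
      (E : IT m ⊕ KT m n → Fin 3 → Derivation ℚ ℂ ℂ), IsDual (PP p s t m) E →
      ∀ j, ¬ W j → 3 ≤ mm m j →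
        Rigid.Full (d' + 1) (fun i => PP p s t m (Sum.inl i)) (mm m) j := by
    intro n s t E hE j hj h3
    rcases j with i | x
    · exact hfull_of' n s t E hE i (hcomplete i.1 (fun h' => hj ((hWl i).mpr h')) h3)
    · change 3 ≤ 0 at h3
      omega
  -- reducedness
  have hred : ∃ F ∈ linSys (d' + 1) p m, Squarefree F := by
    rcases h with h | h
    · exact h
    obtain ⟨n, s, t, E, F, hn, hF, S⟩ := exists_rigid_member p hp m hm hne
    obtain ⟨-, m1, -, m3⟩ := main n s t E S.hE
    refine ⟨F, hF, S.squarefree_of_no_common ?_⟩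
    intro π hπ hdiv
    have hE' : IsDual (fun i => PP p s t m (Sum.inl i)) (fun i => E (Sum.inl i)) := by
      intro x k y l
      rw [S.hE (Sum.inl x) k (Sum.inl y) l]
      simp only [Sum.inl.injEq]
    refine rel_no_common hE' hmmd ?_ m3 m1 ?_ hπ hdiv
    · intro j hj h1
      rcases j with ⟨i, hi⟩ | x
      · have h1' : 1 ≤ m i := h1
        have hiI : i ∉ I := fun h' => hj ((hWl ⟨i, hi⟩).mpr h')
        by_cases h3 : 3 ≤ m i
        · exact hfull3 n s t E S.hE _ hj h3
        · exact hfull_of' n s t E S.hE ⟨i, hi⟩ (h i hiI (by omega))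
      · change 1 ≤ 0 at h1
        omega
    · rw [linSys_core]
      intro h0
      apply hne
      rw [Submodule.eq_bot_iff]
      intro f hf
      have : f ∈ linSys (d' + 1) p (dropSimple m) := by
        refine ⟨hf.1, fun i => ?_⟩
        apply (hf.2 i).mono
        unfold dropSimple
        split_ifs <;> omega
      rwa [h0, Submodule.mem_bot] at this
  obtain ⟨f₀, hf₀, hsq₀⟩ := hred
  have hpos : 0 < finrank ℂ (linSys (d' + 1) p m) := by
    rw [Module.finrank_pos_iff_exists_ne_zero]
    exact ⟨⟨f₀, hf₀⟩, fun h => hsq₀.ne_zero (congrArg Subtype.val h)⟩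
  set n := finrank ℂ (linSys (d' + 1) p m) - 1 with hn
  have hn' : n + 1 = finrank ℂ (linSys (d' + 1) p m) := by omega
  have key : ∀ s : Fin n → V3, GenericPoints (Sum.elim p s) →
      ∃ (t : Fin 4 → V3) (E : IT m ⊕ KT m n → Fin 3 → Derivation ℚ ℂ ℂ),
        IsDual (PP p s t m) E := by
    intro s hs
    obtain ⟨t, ht⟩ := exists_extension (κ := Fin 4) (Sum.elim p s) hs
    obtain ⟨E, hE⟩ := exists_dual _ (PP_generic p s t m ht)
    exact ⟨t, E, hE⟩
  have hf₀core : f₀ ∈ linSys (d' + 1) p (dropSimple m) := by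
    refine ⟨hf₀.1, fun i => ?_⟩
    apply (hf₀.2 i).mono
    unfold dropSimple
    split_ifs <;> omega
  have hsmooth : ∀ s : Fin n → V3, GenericPoints (Sum.elim p s) →
      ∀ F ∈ linSys (d' + 1) p m, F ≠ 0 → (∀ k, eval (s k) F = 0) → SmoothOnBlowup p m F := by
    intro s hs F hF hF0 hFs
    obtain ⟨t, E, hE⟩ := key s hs
    have S := rigid_of hE hm hn' hF hF0 hFs
    have hsq := S.squarefree (by rw [linSys_core]; exact hf₀core) hsq₀
    obtain ⟨m0, m1, m2, m3⟩ := main n s t E hE
    refine rel_smooth_of S hF ?_ ?_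
    · intro q hq0 hq hqF hqs
      exact S.rel_no_singularity hsq (hfull3 n s t E hE) m0 hq0
        (m1 q hq0 (fun i _ => hq i)) (m2 q hq0 hq) hqF hqs
    · intro i u hu hbad
      exact S.rel_no_bad hsq (hfull3 n s t E hE) (fun j hj h3 => m3 j hj (by omega)) m0 hu hbad
  obtain ⟨s, hs⟩ := exists_extension (κ := Fin n) p hp
  obtain ⟨t, E, hE⟩ := key s hs
  obtain ⟨F, hF, hF0, hFs⟩ := exists_rigid hE hm hn'
  exact ⟨⟨f₀, hf₀, hsq₀⟩, hsmooth, F, hF, hF0, hsmooth s hs F hF hF0 hFs⟩

end Pool.Agent.Work.MP_0421d9_ag
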