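import Pool.Agent.Work.MP_0421d9_ag.LMain
import Pool.Agent.Work.MP_0421d9_ag.RelSmooth
import Pool.Agent.Work.MP_0421d9_ag.FSmooth

/-!
Any number of points of arbitrary multiplicities: the general member.
-/

namespace Pool.Agent.Work.MP_0421d9_ag

open MvPolynomial Module LD

namespace LD

/-- at least three points: raising one multiplicity, or lowering the degree by one -/
theorem B_nef3 {r d : ℕ} (hr : 3 ≤ r) {a : Fin r → ℕ}
    (h2 : ∀ i j, i ≠ j → a i + a j + 2 ≤ d)
    (h3 : ∀ i j k, i ≠ j → i ≠ k → j ≠ k → a i + a j + a k ≤ d)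
    (hK : ∑ i, a i + 18 ≤ 3 * d) :
    hPm (d - 1) a + ∑ i, (a i + 1).choose 2 = (d - 1 + 2).choose 2 ∧
      ∀ i, hPm d (Function.update a i (a i + 1)) +
        ∑ j, (Function.update a i (a i + 1) j + 1).choose 2 = (d + 2).choose 2 := by
  classical
  have hE : ∀ e c, ExcN e c → ∑ i, (a i : ℤ) * c i + e ≤ d * e := fun e c hc => by
    have h1 := excN_bound (τ := 1) hr h3 (fun i j hij => by
      have := h2 i j hij
      omega) (by omega) hc
    push_cast at h1
    linarith
  refine ⟨?_, fun i => ?_⟩
  · refine nefN_regular hr _ _ (fun e c hc => ?_) (by omega)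
    have h1 := hE e c hc
    rw [Nat.cast_sub (by omega)]
    push_cast
    linarith
  · refine nefN_regular hr _ _ (fun e c hc => ?_) ?_
    · have h1 := hE e c hc
      have h4 := hc.coef_le i
      rw [← Finset.add_sum_erase _ _ (Finset.mem_univ i)] at h1 ⊢
      rw [Function.update_self]
      have h5 : ∑ j ∈ Finset.univ.erase i, (Function.update a i (a i + 1) j : ℤ) * c j =
          ∑ j ∈ Finset.univ.erase i, (a j : ℤ) * c j := by
        refine Finset.sum_congr rfl (fun j hj => ?_)
        rw [Function.update_of_ne (Finset.ne_of_mem_erase hj)]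
      rw [h5]
      push_cast
      linarith
    · have h5 := Finset.sum_update_of_mem (Finset.mem_univ i) a (a i + 1)
      have h6 := Finset.add_sum_erase Finset.univ a (Finset.mem_univ i)
      rw [Finset.sdiff_singleton_eq_erase] at h5
      omega

/-- any number of points -/
theorem B_nef {r d : ℕ} {a : Fin r → ℕ} (h1 : ∀ i, a i + 2 ≤ d)
    (h2 : ∀ i j, i ≠ j → a i + a j + 2 ≤ d)
    (h3 : ∀ i j k, i ≠ j → i ≠ k → j ≠ k → a i + a j + a k ≤ d)
    (hK : ∑ i, a i + 18 ≤ 3 * d) :
    hPm (d - 1) a + ∑ i, (a i + 1).choose 2 = (d - 1 + 2).choose 2 ∧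
      ∀ i, hPm d (Function.update a i (a i + 1)) +
        ∑ j, (Function.update a i (a i + 1) j + 1).choose 2 = (d + 2).choose 2 := by
  classical
  have hz : ∑ _j : Fin 3, (0 + 1).choose 2 = 0 := Finset.sum_eq_zero (fun _ _ => rfl)
  obtain ⟨y, hy⟩ : ∃ y : Fin (r + 3) → ℕ, y = Fin.append a (fun _ : Fin 3 => 0) := ⟨_, rfl⟩
  have hyl : ∀ i, y (Fin.castAdd 3 i) = a i := fun i => by rw [hy, Fin.append_left]
  have hyr : ∀ j, y (Fin.natAdd r j) = 0 := fun j => by rw [hy, Fin.append_right]
  have hne : ∀ {i j : Fin r}, Fin.castAdd 3 i ≠ Fin.castAdd 3 j → i ≠ j := fun h h' =>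
    h (congrArg _ h')
  have hd : 18 ≤ 3 * d := by omega
  have g2 : ∀ i j, i ≠ j → y i + y j + 2 ≤ d := by
    intro i j
    refine Fin.addCases (fun i' => ?_) (fun i' => ?_) i <;>
    refine Fin.addCases (fun j' => ?_) (fun j' => ?_) j <;>
    intro hij
    · rw [hyl, hyl]
      exact h2 _ _ (hne hij)
    · rw [hyl, hyr]
      exact h1 _
    · rw [hyr, hyl]
      have := h1 j'
      omega
    · rw [hyr, hyr]
      omega
  have g3 : ∀ i j k, i ≠ j → i ≠ k → j ≠ k → y i + y j + y k ≤ d := by
    intro i j k
    refine Fin.addCases (fun i' => ?_) (fun i' => ?_) i <;>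
    refine Fin.addCases (fun j' => ?_) (fun j' => ?_) j <;>
    refine Fin.addCases (fun k' => ?_) (fun k' => ?_) k <;>
    intro hij hik hjk
    · rw [hyl, hyl, hyl]
      exact h3 _ _ _ (hne hij) (hne hik) (hne hjk)
    · rw [hyl, hyl, hyr]
      have := h2 _ _ (hne hij)
      omega
    · rw [hyl, hyr, hyl]
      have := h2 _ _ (hne hik)
      omega
    · rw [hyl, hyr, hyr]
      have := h1 i'
      omega
    · rw [hyr, hyl, hyl]
      have := h2 _ _ (hne hjk)
      omega
    · rw [hyr, hyl, hyr]
      have := h1 j'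
      omega
    · rw [hyr, hyr, hyl]
      have := h1 k'
      omega
    · rw [hyr, hyr, hyr]
      omega
  have gK : ∑ i, y i + 18 ≤ 3 * d := by
    rw [hy, sum_append a _ (fun x => x), Finset.sum_const_zero]
    exact hK
  obtain ⟨b1, b2⟩ := B_nef3 (by omega : 3 ≤ r + 3) g2 g3 gK
  refine ⟨?_, fun i => ?_⟩
  · rw [hy, hPm_append_zero, sum_append a _ (fun x => (x + 1).choose 2), hz, Nat.add_zero] at b1
    exact b1
  · have b3 := b2 (Fin.castAdd 3 i)
    have h5 : Function.update y (Fin.castAdd 3 i) (y (Fin.castAdd 3 i) + 1) =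
        Fin.append (Function.update a i (a i + 1)) (fun _ : Fin 3 => 0) := by
      funext l
      rw [hyl]
      refine Fin.addCases (fun j => ?_) (fun j => ?_) l
      · rw [Fin.append_left]
        by_cases hj : j = i
        · rw [hj, Function.update_self, Function.update_self]
        · rw [Function.update_of_ne hj, Function.update_of_ne (fun h => hj
            (Fin.castAdd_injective _ _ h)), hyl]
      · rw [Fin.append_right, Function.update_of_ne, hyr]
        intro h
        have h6 := congrArg Fin.val h
        have h7 : (Fin.natAdd r j : Fin (r + 3)).1 = r + j.1 := rfl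
        have h8 : (Fin.castAdd 3 i : Fin (r + 3)).1 = i.1 := rfl
        have h9 := i.2
        omega
    rw [h5, hPm_append_zero, sum_append _ _ (fun x => (x + 1).choose 2), hz, Nat.add_zero] at b3
    exact b3

end LD

/-- the neighbouring systems -/
theorem red_nbr {r u d : ℕ} {p : Fin r → Fin 3 → ℂ} (hp : GenericPoints p) {m m' : Fin r → ℕ}
    {B : Finset (Fin r)} (h : Red (u + 1) d m B) (hu : ∀ i, i ∉ B → m' i ≤ u + 1)
    (hB : ∀ i ∈ B, m' i ≤ m i) :
    finrank ℂ (linSys d p m') = (d + 2).choose 2 - ∑ j, (m' j + 1).choose 2 := by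
  rw [hPm_eq hp]
  refine red_main (u := u + 1) (B := B) ⟨hu, fun J hJ hc => ?_, ?_⟩
  · have h1 := h.sum J hJ hc
    have h2 := Finset.sum_le_sum (s := J) (fun i hi => hB i (hJ hi))
    omega
  · have h1 := h.can
    have h2 := Finset.sum_le_sum (s := B) (fun i hi => hB i hi)
    omega

/-- **Smoothness.** -/
theorem red_smooth {r u d : ℕ} (hu : 1 ≤ u) (p : Fin r → Fin 3 → ℂ) (hp : GenericPoints p)
    (m : Fin r → ℕ) {B : Finset (Fin r)} (h : Red (u + 1) d m B) (hmu : ∀ i, i ∉ B → m i ≤ u)
    (hJ : ∀ i, i ∉ B → 2 ≤ m i → m i < finrank ℂ (linSys d p m) +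
      (Finset.univ.filter (fun j => m j = 1)).card)
    (hne : linSys d p m ≠ ⊥) :
    (∃ F ∈ linSys d p m, Squarefree F) ∧
    (∀ s : Fin (finrank ℂ (linSys d p m) - 1) → Fin 3 → ℂ, GenericPoints (Sum.elim p s) →
      ∀ F ∈ linSys d p m, F ≠ 0 → (∀ k, eval (s k) F = 0) → SmoothOnBlowup p m F) ∧
    (∃ F ∈ linSys d p m, F ≠ 0 ∧ SmoothOnBlowup p m F) := by
  classical
  have t0 := h.t0
  have hcan := h.can
  have hpos : finrank ℂ (linSys d p m) ≠ 0 := by
    intro h2
    exact hne (Submodule.finrank_eq_zero.mp h2)
  have hsum := SM.sum_dropSimple m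
  have hm : finrank ℂ (linSys d p m) = (d + 2).choose 2 - ∑ j, (m j + 1).choose 2 :=
    red_nbr hp h (fun i hi => (hmu i hi).trans (Nat.le_succ u)) (fun i _ => le_rfl)
  have h0 : finrank ℂ (linSys d p (dropSimple m)) =
      (d + 2).choose 2 - ∑ j, (dropSimple m j + 1).choose 2 :=
    red_nbr hp h (fun i hi => (dropSimple_le m i).trans ((hmu i hi).trans (Nat.le_succ u)))
      (fun i _ => dropSimple_le m i)
  have hcomp : ∀ i ∉ B, 2 ≤ m i → finrank ℂ (linSys d p (dropSimple m)) =
      finrank ℂ (linSys d p (Function.update (dropSimple m) i (m i + 1))) + (m i + 1) := by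
    intro i hi hmi
    have h1 : finrank ℂ (linSys d p (Function.update (dropSimple m) i (m i + 1))) =
        (d + 2).choose 2 - ∑ j, (Function.update (dropSimple m) i (m i + 1) j + 1).choose 2 := by
      refine red_nbr hp h (fun j hj => ?_) (fun j hj => ?_)
      · by_cases hij : j = i
        · rw [hij, Function.update_self]
          have := hmu i hi
          omega
        · rw [Function.update_of_ne hij]
          exact (dropSimple_le m j).trans ((hmu j hj).trans (Nat.le_succ u))
      · have hji : j ≠ i := fun h' => hi (h' ▸ hj)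
        rw [Function.update_of_ne hji]
        exact dropSimple_le m j
    have hyi : dropSimple m i = m i := by
      unfold dropSimple
      rw [if_neg (by omega)]
    have h2 := sum_update_succ (dropSimple m) i
    rw [hyi] at h2
    have h5 := hJ i hi hmi
    rw [h0, h1, h2]
    omega
  have e1 : (u + 1 + 1) ^ 2 = u * u + 4 * u + 4 := by ring
  rw [e1] at hcan
  have huu : 1 * u ≤ u * u := Nat.mul_le_mul_right u hu
  have hd1 : 1 ≤ d := by omega
  have hd2 : d - 1 + 2 = d + 1 := by omega
  have c1 : ∀ i, m i + 2 ≤ d := fun i => by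
    have := h.t1 i
    omega
  have c2 : ∀ i j, i ≠ j → m i + m j + 2 ≤ d := fun i j hij => by
    have := h.t2 hij
    omega
  have c3 : ∀ i j k, i ≠ j → i ≠ k → j ≠ k → m i + m j + m k ≤ d := fun i j k a b c => h.t3 a b c
  -- the class of the points in `B`
  obtain ⟨n1, n2⟩ := B_nef (d := d) (a := onB B m)
    (fun i => (Nat.add_le_add_right (onB_le B m i) 2).trans (c1 i))
    (fun i j hij => by
      have := c2 i j hij
      have := onB_le B m i
      have := onB_le B m j
      omega)
    (fun i j k a b c => by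
      have := c3 i j k a b c
      have := onB_le B m i
      have := onB_le B m j
      have := onB_le B m k
      omega) (by rw [sum_onB_id]; omega)
  refine rel_final p hp m B hd1 (by omega) hne ?_ (fun e he h2 => ?_) (fun i hi h2 => ?_)
    (fun i hi h3 => hcomp i hi (by omega)) (Or.inr fun i hi h2 => hcomp i hi (by omega))
  · rw [sum_onB, hd2, ← hPm_eq hp] at n1
    exact n1
  · -- a point of small multiplicity
    obtain ⟨a, ha⟩ : ∃ a : Fin r → ℕ, a = fun i => if i ∈ B then m i else
      if i = e then m i - 1 else 0 := ⟨_, rfl⟩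
    have hle : ∀ i, a i ≤ m i := fun i => by
      rw [ha]
      dsimp only
      split_ifs <;> omega
    have hme := hmu e he
    have hsa : ∑ i, a i = ∑ i ∈ B, m i + (m e - 1) := by
      rw [← Finset.add_sum_erase _ _ (Finset.mem_univ e)]
      have g1 : a e = m e - 1 := by
        rw [ha]
        dsimp only
        rw [if_neg he, if_pos rfl]
      have g2 : ∑ i ∈ Finset.univ.erase e, a i = ∑ i ∈ B, m i := by
        rw [← sum_onB_id B m, ← Finset.add_sum_erase _ (onB B m) (Finset.mem_univ e)]
        have g3 : onB B m e = 0 := if_neg he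
        rw [g3, Nat.zero_add]
        refine Finset.sum_congr rfl (fun i hi => ?_)
        rw [ha]
        unfold onB
        dsimp only
        rw [if_neg (Finset.ne_of_mem_erase hi)]
      rw [g1, g2, Nat.add_comm]
    have hsc : ∑ i, (a i + 1).choose 2 = ∑ i ∈ B, (m i + 1).choose 2 + (m e).choose 2 := by
      rw [← Finset.add_sum_erase _ _ (Finset.mem_univ e)]
      have g1 : a e + 1 = m e := by
        rw [ha]
        dsimp only
        rw [if_neg he, if_pos rfl]
        omega
      have g2 : ∑ i ∈ Finset.univ.erase e, (a i + 1).choose 2 =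
          ∑ i ∈ B, (m i + 1).choose 2 := by
        rw [← sum_onB B m, ← Finset.add_sum_erase _ (fun i => (onB B m i + 1).choose 2)
          (Finset.mem_univ e)]
        have g3 : (onB B m e + 1).choose 2 = 0 := by
          have : onB B m e = 0 := if_neg he
          rw [this]
          rfl
        rw [g3, Nat.zero_add]
        refine Finset.sum_congr rfl (fun i hi => ?_)
        rw [ha]
        unfold onB
        dsimp only
        rw [if_neg (Finset.ne_of_mem_erase hi)]
      rw [g1, g2, Nat.add_comm]
    obtain ⟨k1, -⟩ := B_nef (d := d) (a := a)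
      (fun i => (Nat.add_le_add_right (hle i) 2).trans (c1 i))
      (fun i j hij => by
        have := c2 i j hij
        have := hle i
        have := hle j
        omega)
      (fun i j k a b c => by
        have := c3 i j k a b c
        have := hle i
        have := hle j
        have := hle k
        omega) (by rw [hsa]; omega)
    rw [hsc, hd2, ← hPm_eq hp, ha] at k1
    exact k1
  · -- a point in `B`
    have k1 := n2 i
    have hi' : onB B m i = m i := if_pos hi
    have g1 : Function.update (onB B m) i (onB B m i + 1) =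
        fun j => if j ∈ B then (if j = i then m i + 1 else m j) else 0 := by
      funext j
      by_cases hj : j = i
      · rw [hj, Function.update_self, if_pos hi, if_pos rfl, hi']
      · rw [Function.update_of_ne hj, if_neg hj]
        rfl
    have g2 : ∑ j, (Function.update (onB B m) i (onB B m i + 1) j + 1).choose 2 =
        ∑ j ∈ B, (m j + 1).choose 2 + (m i + 1) := by
      have e2 := sum_update_succ (onB B m) i
      rw [e2, sum_onB, hi']
    rw [g2, g1, ← hPm_eq hp] at k1
    exact k1

end Pool.Agent.Work.MP_0421d9_ag
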