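import Pool.Agent.Work.MP_0421d9_ag.LGen
import Pool.Agent.Work.MP_0421d9_ag.LSmooth
import Pool.Agent.Work.MP_0421d9_ag.GSmooth

/-!
Smoothness of the general member, with all the points of large multiplicity exempt.
-/

namespace Pool.Agent.Work.MP_0421d9_ag

open MvPolynomial Module LD

/-- the points in `B` and those of multiplicity at least `max 2 h` -/
def exempt {r : ℕ} (B : Finset (Fin r)) (h : ℕ) (m : Fin r → ℕ) : Finset (Fin r) :=
  Finset.univ.filter (fun i => i ∈ B ∨ max 2 h ≤ m i)

/-- smoothness from the nonspeciality of the neighbouring systems, with an exempt set -/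
theorem smooth_exempt {r d k : ℕ} (p : Fin r → Fin 3 → ℂ) (hp : GenericPoints p)
    (m : Fin r → ℕ) {B : Finset (Fin r)} (hd : 1 ≤ d) (hk : ∀ i, i ∉ B → m i ≤ k)
    (hns : ∀ m' : Fin r → ℕ, Nbr m m' →
      finrank ℂ (linSys d p m') = (d + 2).choose 2 - ∑ j, (m' j + 1).choose 2)
    (hlow : ∀ m' : Fin r → ℕ, (∀ i, m' i ≤ m i) →
      finrank ℂ (linSys (d - 1) p m') = (d - 1 + 2).choose 2 - ∑ j, (m' j + 1).choose 2)
    (hJ : k.choose 2 + ∑ i ∈ exempt B (finrank ℂ (linSys d p m) +
      (Finset.univ.filter (fun j => m j = 1)).card) m, (m i + 1).choose 2 ≤ (d + 1).choose 2)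
    (hne : linSys d p m ≠ ⊥) :
    (∃ F ∈ linSys d p m, Squarefree F) ∧
    (∀ s : Fin (finrank ℂ (linSys d p m) - 1) → Fin 3 → ℂ, GenericPoints (Sum.elim p s) →
      ∀ F ∈ linSys d p m, F ≠ 0 → (∀ k, eval (s k) F = 0) → SmoothOnBlowup p m F) ∧
    (∃ F ∈ linSys d p m, F ≠ 0 ∧ SmoothOnBlowup p m F) := by
  classical
  have hpos : finrank ℂ (linSys d p m) ≠ 0 := by
    intro h2
    exact hne (Submodule.finrank_eq_zero.mp h2)
  have hsum := SM.sum_dropSimple m
  have hm := hns m (Or.inl fun i => le_rfl)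
  have h0 := hns _ (nbr_drop m)
  obtain ⟨f₁, hf₁, hf₁0⟩ := Submodule.exists_mem_ne_zero_of_ne_bot hne
  have hmd : ∀ i, m i ≤ d := fun i => le_of_vanishTo hf₁.1 hf₁0 (hf₁.2 i)
  obtain ⟨h, hh⟩ : ∃ h, h = finrank ℂ (linSys d p m) +
      (Finset.univ.filter (fun j => m j = 1)).card := ⟨_, rfl⟩
  rw [← hh] at hJ
  obtain ⟨I, hI⟩ : ∃ I, I = exempt B h m := ⟨_, rfl⟩
  rw [← hI] at hJ
  have hmem : ∀ i, i ∉ I → i ∉ B ∧ (2 ≤ m i → m i < h) := by
    intro i hi
    rw [hI] at hi
    unfold exempt at hi
    rw [Finset.mem_filter, not_and, not_or] at hi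
    obtain ⟨h1, h2⟩ := hi (Finset.mem_univ i)
    exact ⟨h1, fun h3 => by omega⟩
  have hcomp : ∀ i ∉ I, 2 ≤ m i → finrank ℂ (linSys d p (dropSimple m)) =
      finrank ℂ (linSys d p (Function.update (dropSimple m) i (m i + 1))) + (m i + 1) := by
    intro i hi hmi
    have hyi : dropSimple m i = m i := by
      unfold dropSimple
      rw [if_neg (by omega)]
    have h2 := sum_update_succ (dropSimple m) i
    rw [hyi] at h2
    have h5 := (hmem i hi).2 hmi
    rw [h0, hns _ (nbr_raise m i), h2]
    omega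
  -- sums over the exempt set
  have hsumI : ∀ a : Fin r → ℕ, (∀ i ∉ I, a i = 0) →
      ∑ i, (a i + 1).choose 2 = ∑ i ∈ I, (a i + 1).choose 2 := by
    intro a ha
    symm
    apply Finset.sum_subset (Finset.subset_univ I)
    intro i _ hi
    rw [ha i hi]
    rfl
  have hd2 : d - 1 + 2 = d + 1 := by omega
  have hc2 : (d + 2).choose 2 = (d + 1) + (d + 1).choose 2 := by
    rw [Nat.choose_succ_succ' (d + 1) 1, Nat.choose_one_right]
  refine rel_final p hp m I hd (by omega) hne ?_ (fun e he h2 => ?_) (fun i hi h2 => ?_)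
    (fun i hi h3 => hcomp i hi (by omega)) (Or.inr fun i hi h2 => hcomp i hi (by omega))
  · have h1 := hlow (fun i => if i ∈ I then m i else 0) (fun i => by
      split_ifs
      · exact le_rfl
      · exact Nat.zero_le _)
    rw [hsumI _ (fun i hi => if_neg hi)] at h1
    have h2 : ∑ i ∈ I, ((if i ∈ I then m i else 0) + 1).choose 2 = ∑ i ∈ I, (m i + 1).choose 2 :=
      Finset.sum_congr rfl (fun i hi => by rw [if_pos hi])
    rw [h2, hd2] at h1
    omega
  · have h1 := hlow (fun i => if i ∈ I then m i else if i = e then m i - 1 else 0) (fun i => by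
      split_ifs <;> omega)
    have h3 : ∑ i, ((if i ∈ I then m i else if i = e then m i - 1 else 0) + 1).choose 2 =
        ∑ i ∈ I, (m i + 1).choose 2 + (m e).choose 2 := by
      rw [← Finset.sum_add_sum_compl I]
      congr 1
      · exact Finset.sum_congr rfl (fun i hi => by rw [if_pos hi])
      · rw [Finset.sum_eq_single e]
        · rw [if_neg he, if_pos rfl, Nat.sub_add_cancel (by omega)]
        · intro i hi hie
          rw [if_neg (Finset.mem_compl.mp hi), if_neg hie]
          rfl
        · intro h3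
          exact absurd (Finset.mem_compl.mpr he) h3
    rw [h3, hd2] at h1
    have h4 : (m e).choose 2 ≤ k.choose 2 := Nat.choose_le_choose 2 (hk e (hmem e he).1)
    omega
  · have h1 := hns (fun j => if j ∈ I then (if j = i then m i + 1 else m j) else 0)
      (Or.inr ⟨i, by dsimp only; rw [if_pos hi, if_pos rfl], fun j hj => by
        dsimp only
        rw [if_neg hj]
        split_ifs
        · exact le_rfl
        · exact Nat.zero_le _⟩)
    have h3 : ∑ j, ((if j ∈ I then (if j = i then m i + 1 else m j) else 0) + 1).choose 2 =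
        ∑ j ∈ I, (m j + 1).choose 2 + (m i + 1) := by
      rw [hsumI _ (fun j hj => if_neg hj), ← Finset.add_sum_erase I _ hi,
        ← Finset.add_sum_erase I (fun j => (m j + 1).choose 2) hi]
      have h4 : ∑ j ∈ I.erase i, ((if j ∈ I then (if j = i then m i + 1 else m j) else 0) + 1).choose 2
          = ∑ j ∈ I.erase i, (m j + 1).choose 2 := by
        refine Finset.sum_congr rfl (fun j hj => ?_)
        rw [if_pos (Finset.mem_of_mem_erase hj), if_neg (Finset.ne_of_mem_erase hj)]
      rw [h4, if_pos hi, if_pos rfl]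
      have h5 : (m i + 1 + 1).choose 2 = (m i + 1) + (m i + 1).choose 2 := by
        rw [Nat.choose_succ_succ' (m i + 1) 1, Nat.choose_one_right]
      omega
    rw [h3] at h1
    have h6 := hmd i
    omega

end Pool.Agent.Work.MP_0421d9_ag
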