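import Pool.Agent.Work.MP_0421d9_ag.LMain

/-!
Systems whose class has large intersection with all the exceptional classes.
-/

namespace Pool.Agent.Work.MP_0421d9_ag.LD

open MvPolynomial Module

/-- the intersection with an exceptional class of degree `e` is at least `τ e` -/
def FarN {N : ℕ} (τ D : ℕ) (a : Fin N → ℕ) : Prop :=
  ∀ e c, ExcN e c → ∑ i, (a i : ℤ) * c i + τ * e ≤ D * e

theorem FarN.nef {N τ D : ℕ} {a : Fin N → ℕ} (h : FarN τ D a) {v : ℕ} (hv : v ≤ τ) (hD : v ≤ D) :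
    NefN (D - v) a := by
  intro e c hc
  have h1 := h e c hc
  have h2 := hc.nonneg
  rw [Nat.cast_sub hD]
  have h3 : (v : ℤ) * e ≤ τ * e := mul_le_mul_of_nonneg_right (by exact_mod_cast hv) h2
  linarith

theorem FarN.sub {N τ D : ℕ} {a : Fin N → ℕ} (h : FarN τ D a) {v : ℕ} (hv : v ≤ τ) (hD : v ≤ D) :
    FarN (τ - v) (D - v) a := by
  intro e c hc
  have h1 := h e c hc
  rw [Nat.cast_sub hD, Nat.cast_sub hv]
  linarith

theorem FarN.mono {N τ τ' D : ℕ} {a : Fin N → ℕ} (h : FarN τ D a) (ht : τ' ≤ τ) :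
    FarN τ' D a := by
  intro e c hc
  have h1 := h e c hc
  have h2 := hc.nonneg
  have h3 : (τ' : ℤ) * e ≤ τ * e := mul_le_mul_of_nonneg_right (by exact_mod_cast ht) h2
  linarith

/-- raising a multiplicity -/
theorem FarN.raise {N τ D : ℕ} {a a' : Fin N → ℕ} (h : FarN (τ + 1) D a) (i : Fin N)
    (hi : a' i ≤ a i + 1) (ha : ∀ j, j ≠ i → a' j = a j) (hi' : a i ≤ a' i) : FarN τ D a' := by
  classical
  intro e c hc
  have h1 := h e c hc
  have h4 := hc.coef_le i
  have h0 := hc.nonneg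
  rw [← Finset.add_sum_erase _ _ (Finset.mem_univ i)] at h1 ⊢
  have h5 : ∑ j ∈ Finset.univ.erase i, (a' j : ℤ) * c j =
      ∑ j ∈ Finset.univ.erase i, (a j : ℤ) * c j := by
    refine Finset.sum_congr rfl (fun j hj => ?_)
    rw [ha j (Finset.ne_of_mem_erase hj)]
  rw [h5]
  have h6 : (a' i : ℤ) * c i ≤ a i * c i + e := by
    rcases Nat.lt_or_ge (a i) (a' i) with h7 | h7
    · have h8 : a' i = a i + 1 := by omega
      rw [h8]
      push_cast
      linarith
    · have h8 : a' i = a i := by omega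
      rw [h8]
      linarith
  push_cast at h1
  linarith

/-- reduced classes with distant pairs -/
theorem far_of_reduced {N : ℕ} (hN : 3 ≤ N) {τ D : ℕ} {a : Fin N → ℕ}
    (hred : ∀ i j k, i ≠ j → i ≠ k → j ≠ k → a i + a j + a k ≤ D)
    (hpair : ∀ i j, i ≠ j → a i + a j + 2 * τ ≤ D) (hK : ∑ i, a i + 18 * τ ≤ 3 * D) :
    FarN τ D a := fun _ _ hc => excN_bound (τ := τ) hN hred hpair hK hc

/-- the multiplicities are not too large -/
theorem FarN.le {N τ D : ℕ} (hN : 3 ≤ N) {a : Fin N → ℕ} (h : FarN τ D a) (i : Fin N) :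
    a i + τ ≤ D := by
  classical
  obtain ⟨j, hij, -⟩ := exists_third hN i i
  have h1 := h _ _ (excN_line hij)
  have h2 : (a i : ℤ) ≤ ∑ l, (a l : ℤ) * (if l ∈ ({i, j} : Finset (Fin N)) then 1 else 0) := by
    refine le_trans (le_of_eq ?_) (Finset.single_le_sum (f := fun l => (a l : ℤ) *
      (if l ∈ ({i, j} : Finset (Fin N)) then 1 else 0)) (fun l _ => ?_) (Finset.mem_univ i))
    · rw [if_pos (Finset.mem_insert_self i _), mul_one]
    · split_ifs
      · rw [mul_one]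
        exact Int.natCast_nonneg _
      · rw [mul_zero]
  rw [mul_one, mul_one] at h1
  have h3 : ((a i + τ : ℕ) : ℤ) ≤ D := by
    push_cast
    linarith
  exact_mod_cast h3

/-- **Systems whose class is far from all the exceptional classes.** -/
theorem far_main {r u d : ℕ} (hr : 3 ≤ r) (hu : 1 ≤ u) {m : Fin r → ℕ} {B : Finset (Fin r)}
    (hms : ∀ i, i ∉ B → m i ≤ u) (hF : FarN (3 * (u + 1) ^ 2) d (onB B m))
    (hd : 6 * (u + 1) ^ 2 ≤ d) (hK : ∑ i ∈ B, m i + 9 * (u + 1) ^ 2 + 1 ≤ 3 * d) :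
    hPm d m = (d + 2).choose 2 - ∑ i, (m i + 1).choose 2 := by
  classical
  have e0 : (u + 1) ^ 2 = u * u + 2 * u + 1 := by ring
  have huu : 1 * u ≤ u * u := Nat.mul_le_mul_right u hu
  have hle := onB_le B m
  rw [← sum_onB_id] at hK
  have hsum := sum_onB B m
  have hF1 := fun i => hF.le hr i
  obtain ⟨a, ha⟩ : ∃ a, a = onB B m := ⟨_, rfl⟩
  rw [← ha] at hF hle hK hsum
  obtain ⟨t, ht⟩ : ∃ t, t = 3 * u * (u + 1) := ⟨_, rfl⟩
  have ht' : t = 3 * (u * u) + 3 * u := by rw [ht]; ring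
  rw [e0] at hF hF1 hd hK
  have hN1 : NefN (d - t) a := hF.nef (by omega) (by omega)
  have hN2 : NefN (d - (t + (2 * u + 1))) a := hF.nef (by omega) (by omega)
  have hreg := nefN_regular hr (d - t) a hN1 (by omega)
  have hsq := nefN_sq hr (d - (t + (2 * u + 1))) a hN2 (by omega)
  obtain ⟨x, hx⟩ : ∃ x, x = d - (t + (2 * u + 1)) := ⟨_, rfl⟩
  rw [← hx] at hsq
  have hdt : d - t = x + (2 * u + 1) := by omega
  have hMx : ∀ i, m i ≤ x := by
    intro i
    by_cases hi : i ∈ B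
    · have h1 := hF1 i
      have h2 : onB B m i = m i := if_pos hi
      omega
    · have := hms i hi
      omega
  obtain ⟨g, hg1, hg2, hg3⟩ := g_num (u := u) (L := d - t) (M := x) hu (by rw [e0]; omega)
    (by omega)
  have h2a := two_mul_sum_choose a
  refine relH_main (M := x) (D₁ := d - t) (g := g) B hu (by omega) hMx hms ?_ ?_ hg1 hg2
    (by omega) ?_
  · rw [← ha, ← hsum]
    exact hreg
  · rw [← hsum, h2a, hdt]
    obtain ⟨v, rfl⟩ : ∃ v, u = v + 1 := ⟨u - 1, by omega⟩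
    have h3 : (x - 1) * (v + 1 - 1) ≤ x * v := Nat.mul_le_mul (Nat.sub_le _ _) (by omega)
    have h4 : ∑ i, a i ≤ 3 * x := by omega
    nlinarith [Nat.zero_le (v * x), Nat.zero_le (v * v), Nat.zero_le x, Nat.zero_le v]
  · have e1 : d - (d - t) = 3 * u * (u + 1) := by omega
    rw [e1, Nat.mul_div_cancel _ (by omega)]
    exact hg3

end Pool.Agent.Work.MP_0421d9_ag.LD
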