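import Pool.Agent.Work.MP_0421d9_ag.LExc0
import Pool.Agent.Work.MP_0421d9_ag.LCub
import Pool.Agent.Work.MP_0421d9_ag.JMain

/-!
Classes on the blow-up at any number of general points which are nonnegative on the numerical
exceptional classes.
-/

namespace Pool.Agent.Work.MP_0421d9_ag.LD

open MvPolynomial Module

theorem sum_diff3N {N : ℕ} {f g : Fin N → ℤ} {i j k : Fin N} (hij : i ≠ j) (hik : i ≠ k)
    (hjk : j ≠ k) (h : ∀ l, l ≠ i → l ≠ j → l ≠ k → f l = g l) :
    ∑ l, f l = ∑ l, g l + (f i - g i) + (f j - g j) + (f k - g k) := by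
  classical
  have h1 : ∑ l, (f l - g l) = (f i - g i) + (f j - g j) + (f k - g k) := by
    rw [← Finset.sum_subset (Finset.subset_univ {i, j, k})]
    · rw [Finset.sum_insert, Finset.sum_insert, Finset.sum_singleton]
      · ring
      · rw [Finset.mem_singleton]
        exact hjk
      · rw [Finset.mem_insert, Finset.mem_singleton, not_or]
        exact ⟨hij, hik⟩
    · intro l _ hl
      rw [Finset.mem_insert, Finset.mem_insert, Finset.mem_singleton, not_or, not_or] at hl
      rw [h l hl.1 hl.2.1 hl.2.2, sub_self]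
  rw [Finset.sum_sub_distrib] at h1
  linarith

/-- the multiplicities after the reflection -/
def rflcN {N : ℕ} (i j k : Fin N) (e : ℤ) (c : Fin N → ℤ) : Fin N → ℤ :=
  fun l => if l = i then e - c j - c k else if l = j then e - c i - c k else
    if l = k then e - c i - c j else c l

section rflcN

variable {N : ℕ} {i j k : Fin N} (hij : i ≠ j) (hik : i ≠ k) (hjk : j ≠ k) (e : ℤ)
  (c : Fin N → ℤ)

theorem rflcN_i : rflcN i j k e c i = e - c j - c k := by
  unfold rflcN
  rw [if_pos rfl]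

include hij in
theorem rflcN_j : rflcN i j k e c j = e - c i - c k := by
  unfold rflcN
  rw [if_neg (Ne.symm hij), if_pos rfl]

include hik hjk in
theorem rflcN_k : rflcN i j k e c k = e - c i - c j := by
  unfold rflcN
  rw [if_neg (Ne.symm hik), if_neg (Ne.symm hjk), if_pos rfl]

theorem rflcN_o {l : Fin N} (h1 : l ≠ i) (h2 : l ≠ j) (h3 : l ≠ k) : rflcN i j k e c l = c l := by
  unfold rflcN
  rw [if_neg h1, if_neg h2, if_neg h3]

end rflcN

theorem ExcN.zero {N : ℕ} {c : Fin N → ℤ} (h : ExcN 0 c) (i : Fin N) : c i ≤ 0 := by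
  have h3 : ∑ i, (c i ^ 2 + c i) = 0 := by
    rw [Finset.sum_add_distrib, h.sq, h.can]
    norm_num
  have h4 : ∀ i ∈ (Finset.univ : Finset (Fin N)), 0 ≤ c i ^ 2 + c i := fun i _ => by
    rcases lt_or_ge (c i) 0 with g | g
    · nlinarith
    · positivity
  have h5 := (Finset.sum_eq_zero_iff_of_nonneg h4).mp h3 i (Finset.mem_univ i)
  nlinarith [sq_nonneg (c i)]

theorem ExcN.one {N : ℕ} {c : Fin N → ℤ} (h : ExcN 1 c) (i : Fin N) : 0 ≤ c i := by
  have h3 : ∑ i, (c i ^ 2 - c i) = 0 := by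
    rw [Finset.sum_sub_distrib, h.sq, h.can]
    norm_num
  have h4 : ∀ i ∈ (Finset.univ : Finset (Fin N)), 0 ≤ c i ^ 2 - c i := fun i _ => by
    rcases lt_or_ge (c i) 1 with g | g
    · nlinarith
    · nlinarith
  have h5 := (Finset.sum_eq_zero_iff_of_nonneg h4).mp h3 i (Finset.mem_univ i)
  nlinarith [sq_nonneg (c i)]

/-- nonnegativity of the degree of the reflection -/
theorem ExcN.three {N : ℕ} {e : ℤ} {c : Fin N → ℤ} (h : ExcN e c) {i j k : Fin N} (hij : i ≠ j)
    (hik : i ≠ k) (hjk : j ≠ k) : c i + c j + c k ≤ 2 * e := by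
  classical
  have h0 := h.nonneg
  rcases eq_or_lt_of_le h0 with he | he
  · subst he
    have h1 := h.zero i
    have h2 := h.zero j
    have h3 := h.zero k
    linarith
  rcases eq_or_lt_of_le (show (1 : ℤ) ≤ e by omega) with he1 | he1
  · subst he1
    have h1 : ∑ l ∈ ({i, j, k} : Finset (Fin N)), c l ≤ ∑ l, c l :=
      Finset.sum_le_sum_of_subset_of_nonneg (Finset.subset_univ _) (fun l _ _ => h.one l)
    rw [Finset.sum_insert, Finset.sum_pair hjk, h.can] at h1
    · linarith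
    · rw [Finset.mem_insert, Finset.mem_singleton, not_or]
      exact ⟨hij, hik⟩
  · have h1 : ∑ l ∈ ({i, j, k} : Finset (Fin N)), c l ^ 2 ≤ ∑ l, c l ^ 2 :=
      Finset.sum_le_sum_of_subset_of_nonneg (Finset.subset_univ _) (fun l _ _ => sq_nonneg _)
    rw [Finset.sum_insert, Finset.sum_pair hjk, h.sq] at h1
    · by_contra hcon
      push Not at hcon
      nlinarith [sq_nonneg (c i - c j), sq_nonneg (c i - c k), sq_nonneg (c j - c k)]
    · rw [Finset.mem_insert, Finset.mem_singleton, not_or]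
      exact ⟨hij, hik⟩

theorem ExcN.reflect {N : ℕ} {e : ℤ} {c : Fin N → ℤ} (h : ExcN e c) {i j k : Fin N} (hij : i ≠ j)
    (hik : i ≠ k) (hjk : j ≠ k) : ExcN (2 * e - c i - c j - c k) (rflcN i j k e c) := by
  refine ⟨?_, ?_, ?_⟩
  · have := h.three hij hik hjk
    linarith
  · have h1 := sum_diff3N (f := fun l => rflcN i j k e c l ^ 2) (g := fun l => c l ^ 2) hij hik hjk
      (fun l g1 g2 g3 => by
        rw [rflcN_o e c g1 g2 g3])
    rw [h.sq, rflcN_i, rflcN_j hij, rflcN_k hik hjk] at h1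
    rw [h1]
    ring
  · have h1 := sum_diff3N (f := rflcN i j k e c) (g := c) hij hik hjk
      (fun l g1 g2 g3 => rflcN_o e c g1 g2 g3)
    rw [h.can, rflcN_i, rflcN_j hij, rflcN_k hik hjk] at h1
    rw [h1]
    ring

/-- nonnegative on the exceptional classes -/
def NefN {N : ℕ} (D : ℕ) (a : Fin N → ℕ) : Prop :=
  ∀ e c, ExcN e c → ∑ i, (a i : ℤ) * c i ≤ D * e

theorem excN_line {N : ℕ} {i j : Fin N} (hij : i ≠ j) :
    ExcN 1 (fun l => if l ∈ ({i, j} : Finset (Fin N)) then 1 else 0) := by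
  refine ⟨by norm_num, ?_, ?_⟩
  · have h1 : ∀ l ∈ (Finset.univ : Finset (Fin N)),
        (if l ∈ ({i, j} : Finset (Fin N)) then (1 : ℤ) else 0) ^ 2 =
          if l ∈ ({i, j} : Finset (Fin N)) then (1 : ℤ) else 0 := by
      intro l _
      split_ifs <;> norm_num
    rw [Finset.sum_congr rfl h1, Finset.sum_ite_mem, Finset.univ_inter, Finset.sum_pair hij]
    norm_num
  · rw [Finset.sum_ite_mem, Finset.univ_inter, Finset.sum_pair hij]
    norm_num

theorem NefN.line {N D : ℕ} {a : Fin N → ℕ} (h : NefN D a) {i j : Fin N} (hij : i ≠ j) :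
    a i + a j ≤ D := by
  have h1 := h 1 _ (excN_line hij)
  have h2 : ∀ l ∈ (Finset.univ : Finset (Fin N)),
      (a l : ℤ) * (if l ∈ ({i, j} : Finset (Fin N)) then (1 : ℤ) else 0) =
        if l ∈ ({i, j} : Finset (Fin N)) then (a l : ℤ) else 0 := by
    intro l _
    split_ifs <;> simp
  rw [Finset.sum_congr rfl h2, Finset.sum_ite_mem, Finset.univ_inter, Finset.sum_pair hij,
    mul_one] at h1
  exact_mod_cast h1

/-- the quadratic transformation -/
theorem NefN.quadratic {N D : ℕ} {a : Fin N → ℕ} (h : NefN D a) {i j k : Fin N} (hij : i ≠ j)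
    (hik : i ≠ k) (hjk : j ≠ k) (hD : D < a i + a j + a k) : ∃ D' a', D' < D ∧ NefN D' a' ∧
      Quadratic (D, a) (D', a') ∧ 3 * D' + ∑ l, a l = 3 * D + ∑ l, a' l ∧
      D' ^ 2 + ∑ l, a l ^ 2 = D ^ 2 + ∑ l, a' l ^ 2 := by
  classical
  have l1 := h.line hij
  have l2 := h.line hik
  have l3 := h.line hjk
  obtain ⟨a', ha'⟩ : ∃ a' : Fin N → ℕ, a' = fun l => if l = i then D - a j - a k else
    if l = j then D - a i - a k else if l = k then D - a i - a j else a l := ⟨_, rfl⟩
  obtain ⟨D', hD'⟩ : ∃ D', D' + (a i + a j + a k) = 2 * D := ⟨2 * D - (a i + a j + a k), by omega⟩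
  have ei : a' i = D - a j - a k := by
    rw [ha']
    exact if_pos rfl
  have ej : a' j = D - a i - a k := by
    rw [ha']
    change (if j = i then _ else if j = j then _ else _) = _
    rw [if_neg (Ne.symm hij), if_pos rfl]
  have ek : a' k = D - a i - a j := by
    rw [ha']
    change (if k = i then _ else if k = j then _ else if k = k then _ else _) = _
    rw [if_neg (Ne.symm hik), if_neg (Ne.symm hjk), if_pos rfl]
  have eo : ∀ l, l ≠ i → l ≠ j → l ≠ k → a' l = a l := by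
    intro l g1 g2 g3
    rw [ha']
    change (if l = i then _ else if l = j then _ else if l = k then _ else _) = _
    rw [if_neg g1, if_neg g2, if_neg g3]
  have zi : (a' i : ℤ) = D - a j - a k := by rw [ei]; omega
  have zj : (a' j : ℤ) = D - a i - a k := by rw [ej]; omega
  have zk : (a' k : ℤ) = D - a i - a j := by rw [ek]; omega
  have zD : (D' : ℤ) = 2 * D - a i - a j - a k := by omega
  refine ⟨D', a', by omega, ?_, ?_, ?_, ?_⟩
  · intro e c hc
    have h1 := h _ _ (hc.reflect hij hik hjk)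
    have h2 := sum_diff3N (f := fun l => (a' l : ℤ) * c l)
      (g := fun l => (a l : ℤ) * rflcN i j k e c l) hij hik hjk (fun l g1 g2 g3 => by
        rw [rflcN_o e c g1 g2 g3, eo l g1 g2 g3])
    rw [rflcN_i, rflcN_j hij, rflcN_k hik hjk, zi, zj, zk] at h2
    rw [zD]
    rw [h2]
    nlinarith
  · refine ⟨i, j, k, hij, hik, hjk, ?_, ?_, ?_, ?_, ?_, ?_, ?_, ei, ej, ek, fun l g1 g2 g3 =>
      eo l g1 g2 g3⟩
    · change a i ≤ D
      omega
    · change a j ≤ D
      omega
    · change a k ≤ D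
      omega
    · change a i + a j ≤ D + 1
      omega
    · change a i + a k ≤ D + 1
      omega
    · change a j + a k ≤ D + 1
      omega
    · change D' + a i + a j + a k = 2 * D
      omega
  · have h2 := sum_diff3N (f := fun l => (a' l : ℤ)) (g := fun l => (a l : ℤ)) hij hik hjk
      (fun l g1 g2 g3 => by
        rw [eo l g1 g2 g3])
    rw [zi, zj, zk] at h2
    zify
    linarith
  · have h2 := sum_diff3N (f := fun l => (a' l : ℤ) ^ 2) (g := fun l => (a l : ℤ) ^ 2) hij hik hjk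
      (fun l g1 g2 g3 => by
        rw [eo l g1 g2 g3])
    rw [zi, zj, zk] at h2
    zify
    rw [zD, h2]
    ring

/-- **Regularity.** -/
theorem nefN_regular {N : ℕ} (hN3 : 3 ≤ N) : ∀ (D : ℕ) (a : Fin N → ℕ), NefN D a →
    ∑ i, a i + 1 ≤ 3 * D → hPm D a + ∑ i, (a i + 1).choose 2 = (D + 2).choose 2 := by
  classical
  intro D
  induction D using Nat.strong_induction_on with
  | _ D ih =>
  intro a hN hK
  by_cases h3 : ∃ i j k, i ≠ j ∧ i ≠ k ∧ j ≠ k ∧ D < a i + a j + a k
  · obtain ⟨i, j, k, hij, hik, hjk, hD⟩ := h3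
    obtain ⟨D', a', h1, h2, h3, h4, -⟩ := hN.quadratic hij hik hjk hD
    have h5 := ih D' h1 a' h2 (by omega)
    have h6 := h3.count
    have h7 := h3.le
    have h8 := hPm_count D a
    dsimp only at h6 h7
    omega
  · push Not at h3
    have h1 := reduced_regularN hN3 (t := fun i : Fin N => ((i : ℕ) : ℂ) + 1) (fun i j hij => by
      have h2 : ((i : ℕ) : ℂ) = ((j : ℕ) : ℂ) := add_right_cancel hij
      exact Fin.ext (by exact_mod_cast h2)) (fun i => Nat.cast_add_one_ne_zero _) D a h3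
      (Or.inl hK)
    have h2 := generic_le (gpt_generic N) D a (fun i => cpt (((i : ℕ) : ℂ) + 1))
    have h8 := hPm_count D a
    change hPm D a ≤ _ at h2
    omega

theorem reduced_sq_num {x y z S D Q : ℕ} (h1 : z ≤ y) (h2 : y ≤ x) (h3 : x + y + z ≤ D)
    (h4 : x + y + S ≤ 3 * D) (hQ : Q ≤ z * S) : x ^ 2 + (y ^ 2 + Q) ≤ D ^ 2 := by
  obtain ⟨β, rfl⟩ : ∃ β, y = z + β := ⟨y - z, by omega⟩
  obtain ⟨α, rfl⟩ : ∃ α, x = z + β + α := ⟨x - (z + β), by omega⟩
  obtain ⟨w, rfl⟩ : ∃ w, D = z + β + α + (z + β) + z + w := ⟨D - (z + β + α + (z + β) + z), by omega⟩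
  have h5 : z * S ≤ z * (7 * z + 4 * β + 2 * α + 3 * w) := Nat.mul_le_mul_left _ (by omega)
  have e1 : (z + β + α + (z + β) + z + w) ^ 2 = (z + β + α) ^ 2 + ((z + β) ^ 2 +
      z * (7 * z + 4 * β + 2 * α + 3 * w)) + (4 * (β * z) + 2 * (α * z) + 3 * (w * z) +
      2 * (β * β) + w * w + 2 * (α * β) + 4 * (β * w) + 2 * (α * w)) := by ring
  rw [e1]
  omega

/-- the self-intersection of a reduced class -/
theorem reduced_sq {N D : ℕ} (hN3 : 3 ≤ N) {a : Fin N → ℕ}
    (h3 : ∀ i j k, i ≠ j → i ≠ k → j ≠ k → a i + a j + a k ≤ D) (hK : ∑ i, a i ≤ 3 * D) :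
    ∑ i, a i ^ 2 ≤ D ^ 2 := by
  classical
  have hcard : (Finset.univ : Finset (Fin N)).card = N := by
    rw [Finset.card_univ, Fintype.card_fin]
  obtain ⟨x, -, hxm⟩ := Finset.exists_max_image (Finset.univ : Finset (Fin N)) a
    (Finset.card_pos.mp (by omega))
  have hc1 : (Finset.univ.erase x).card = N - 1 := by
    rw [Finset.card_erase_of_mem (Finset.mem_univ x), hcard]
  obtain ⟨y, hy, hym⟩ := Finset.exists_max_image (Finset.univ.erase x) a
    (Finset.card_pos.mp (by omega))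
  have hc2 : ((Finset.univ.erase x).erase y).card = N - 2 := by
    rw [Finset.card_erase_of_mem hy, hc1]
    omega
  obtain ⟨z, hz, hzm⟩ := Finset.exists_max_image ((Finset.univ.erase x).erase y) a
    (Finset.card_pos.mp (by omega))
  have hzx := Finset.mem_of_mem_erase hz
  have hxy : x ≠ y := fun h => (Finset.ne_of_mem_erase hy) h.symm
  have hyz : y ≠ z := fun h => (Finset.ne_of_mem_erase hz) h.symm
  have hxz : x ≠ z := fun h => (Finset.ne_of_mem_erase hzx) h.symm
  have g1 := h3 x y z hxy hxz hyz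
  have g2 := hym z hzx
  have g3 := hxm y (Finset.mem_univ y)
  have s1 : ∑ i, a i = a x + (a y + ∑ i ∈ (Finset.univ.erase x).erase y, a i) := by
    rw [Finset.add_sum_erase _ _ hy, Finset.add_sum_erase _ _ (Finset.mem_univ x)]
  have s2 : ∑ i, a i ^ 2 = a x ^ 2 + (a y ^ 2 + ∑ i ∈ (Finset.univ.erase x).erase y, a i ^ 2) := by
    rw [Finset.add_sum_erase _ (fun i => a i ^ 2) hy,
      Finset.add_sum_erase _ (fun i => a i ^ 2) (Finset.mem_univ x)]
  have s3 : ∑ i ∈ (Finset.univ.erase x).erase y, a i ^ 2 ≤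
      a z * ∑ i ∈ (Finset.univ.erase x).erase y, a i := by
    rw [Finset.mul_sum]
    refine Finset.sum_le_sum (fun i hi => ?_)
    rw [sq]
    exact Nat.mul_le_mul_right _ (hzm i hi)
  obtain ⟨S, hS⟩ : ∃ S, S = ∑ i ∈ (Finset.univ.erase x).erase y, a i := ⟨_, rfl⟩
  rw [← hS] at s1 s3
  rw [s2]
  exact reduced_sq_num g2 g3 g1 (by omega) s3

theorem nefN_sq {N : ℕ} (hN3 : 3 ≤ N) : ∀ (D : ℕ) (a : Fin N → ℕ), NefN D a →
    ∑ i, a i ≤ 3 * D → ∑ i, a i ^ 2 ≤ D ^ 2 := by
  classical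
  intro D
  induction D using Nat.strong_induction_on with
  | _ D ih =>
  intro a hN hK
  by_cases h3 : ∃ i j k, i ≠ j ∧ i ≠ k ∧ j ≠ k ∧ D < a i + a j + a k
  · obtain ⟨i, j, k, hij, hik, hjk, hD⟩ := h3
    obtain ⟨D', a', h1, h2, -, h4, h5⟩ := hN.quadratic hij hik hjk hD
    have h6 := ih D' h1 a' h2 (by omega)
    omega
  · push Not at h3
    exact reduced_sq hN3 h3 hK

end Pool.Agent.Work.MP_0421d9_ag.LD
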