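import Pool.Agent.Work.MP_0421d9_ag.KSqrt
import Pool.Agent.Work.MP_0421d9_ag.KStep
import Pool.Agent.Work.MP_0421d9_ag.FRel

/-!
Relative theorems based on the two-scale square root window: strips along general lines, and along
general lines through a point.
-/

namespace Pool.Agent.Work.MP_0421d9_ag.LD

open MvPolynomial Module

theorem kq_sum {X S k e u M : ℕ} (hk : 1 ≤ k) (he : 1 ≤ e) (hu : k + e = u) (huM : u ≤ M)
    (hS : 1 ≤ S) (hX : 1 ≤ X) (h : e * X + k * S ≤ k * e * M) :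
    X + S ≤ (M - 1) * (u - 1) + 1 := by
  -- by symmetry `e ≤ k`
  have key : ∀ {X S k e : ℕ}, 1 ≤ e → e ≤ k → k + e = u → 1 ≤ S →
      e * X + k * S ≤ k * e * M → X + S ≤ (M - 1) * (u - 1) + 1 := by
    intro X S k e he hek hu hS h
    obtain ⟨f, rfl⟩ : ∃ f, e = f + 1 := ⟨e - 1, by omega⟩
    obtain ⟨n, rfl⟩ : ∃ n, k = f + 1 + n := ⟨k - (f + 1), by omega⟩
    obtain ⟨g, rfl⟩ : ∃ g, M = u + g := ⟨M - u, by omega⟩
    subst hu
    have e1 : f + 1 + n + (f + 1) + g - 1 = 2 * f + 1 + n + g := by omega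
    have e2 : f + 1 + n + (f + 1) - 1 = 2 * f + 1 + n := by omega
    rw [e1, e2]
    by_contra hcon
    push Not at hcon
    have h1 : (f + 1) * ((2 * f + 1 + n + g) * (2 * f + 1 + n) + 2) ≤ (f + 1) * (X + S) :=
      Nat.mul_le_mul_left _ hcon
    have h2 : n * 1 ≤ n * S := Nat.mul_le_mul_left n hS
    have h3 : (f + 1) * (X + S) + n * S = (f + 1) * X + (f + 1 + n) * S := by ring
    have h4 : (f + 1 + n) * (f + 1) * (f + 1 + n + (f + 1) + g) + (f + 1) + n ≤
        (f + 1) * ((2 * f + 1 + n + g) * (2 * f + 1 + n) + 2) + n * 1 := by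
      nlinarith [Nat.zero_le (f * f * f), Nat.zero_le (f * f * n), Nat.zero_le (f * f * g),
        Nat.zero_le (f * n * n), Nat.zero_le (f * n * g), Nat.zero_le (f * f),
        Nat.zero_le (f * n), Nat.zero_le (f * g), Nat.zero_le (n * g)]
    omega
  rcases Nat.le_total e k with h1 | h1
  · exact key he h1 hu hS h
  · have h2 := key (X := S) (S := X) (k := e) (e := k) hk h1 (by omega) hX (by
      rw [Nat.mul_comm e k]
      omega)
    omega

/-- the window -/
theorem kq_base {r u M D U S : ℕ} {y : Fin r → ℕ} (B : Finset (Fin r))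
    (huM : u ≤ M) (hM : ∀ i, y i ≤ M) (hms : ∀ i, i ∉ B → y i ≤ u)
    (hreg : hPm D (onB B y) + ∑ i, (onB B y i + 1).choose 2 = (D + 2).choose 2)
    (h : (M - 1) * (u - 1) ≤ U + S) :
    (hPm D y : ℤ) ≤ max (U : ℤ) (MM.chi D y + S) := by
  have hp := gpt_generic r
  by_cases h0 : linSys D (gpt r) y = ⊥
  · have h1 : hPm D y = 0 := by
      unfold hPm
      rw [h0, finrank_bot]
    rw [h1]
    exact le_max_of_le_left (by positivity)
  by_cases h1 : finrank ℂ (linSys D (gpt r) y) + ∑ i, (y i + 1).choose 2 = (D + 2).choose 2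
  · apply le_max_of_le_right
    unfold MM.chi hPm
    have h2 : ((finrank ℂ (linSys D (gpt r) y) + ∑ i, (y i + 1).choose 2 : ℕ) : ℤ) =
        (((D + 2).choose 2 : ℕ) : ℤ) := by rw [h1]
    push_cast at h2 ⊢
    linarith
  obtain ⟨k, e, S₁, hk, he, hke, hS₁, h2, h3⟩ := kq_window hp huM hM B hms hreg h0 h1
  have hfin : Module.Finite ℂ (linSys D (gpt r) y) :=
    Submodule.finiteDimensional_of_le (linSys_le D _ _)
  have hpos : 1 ≤ finrank ℂ (linSys D (gpt r) y) := by
    rw [Nat.one_le_iff_ne_zero]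
    exact fun h0' => h0 (Submodule.finrank_eq_zero.mp h0')
  have h8 := kq_sum hk he hke huM hS₁ hpos h3
  by_contra hcon
  rw [not_le, max_lt_iff] at hcon
  obtain ⟨h4, h5⟩ := hcon
  have h4' : U + 1 ≤ hPm D y := by exact_mod_cast h4
  have h5' : S + 1 ≤ S₁ := by
    unfold MM.chi at h5
    have h6 : ((finrank ℂ (linSys D (gpt r) y) + ∑ i, (y i + 1).choose 2 : ℕ) : ℤ) =
        (((D + 2).choose 2 + S₁ : ℕ) : ℤ) := by rw [h2]
    have h7 : hPm D y = finrank ℂ (linSys D (gpt r) y) := rfl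
    rw [h7] at h5
    push_cast at h5 h6
    have h8 : (S : ℤ) + 1 ≤ S₁ := by linarith
    exact_mod_cast h8
  have h7 : hPm D y = finrank ℂ (linSys D (gpt r) y) := rfl
  omega

/-- a system with many more forms than conditions -/
theorem kq_regular {r u M D : ℕ} {y : Fin r → ℕ} (B : Finset (Fin r))
    (huM : u ≤ M) (hM : ∀ i, y i ≤ M) (hms : ∀ i, i ∉ B → y i ≤ u)
    (hreg : hPm D (onB B y) + ∑ i, (onB B y i + 1).choose 2 = (D + 2).choose 2)
    (h : (M - 1) * (u - 1) + ∑ i, (y i + 1).choose 2 ≤ (D + 2).choose 2) :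
    hPm D y + ∑ i, (y i + 1).choose 2 = (D + 2).choose 2 := by
  have h1 : hPm D y = (D + 2).choose 2 - ∑ i, (y i + 1).choose 2 :=
    kq_nonspecial (gpt_generic r) huM hM B hms hreg (Or.inr (by omega))
  omega

/-! ### strips along general lines -/

theorem relH_aux {r u M D₁ g : ℕ} {m : Fin r → ℕ} (B : Finset (Fin r)) (hu : 1 ≤ u)
    (huM : u ≤ M) (hM : ∀ i, m i ≤ M) (hms : ∀ i, i ∉ B → m i ≤ u)
    (hreg : hPm D₁ (onB B m) + ∑ i, (onB B m i + 1).choose 2 = (D₁ + 2).choose 2)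
    (h2 : 2 * ∑ i, (onB B m i + 1).choose 2 + 2 * ((M - 1) * (u - 1)) +
      (2 * u + 1) * (D₁ + 1) ≤ (D₁ + 2) * (D₁ + 1))
    (hg1 : u.choose 2 + 2 ≤ g) (hg2 : 2 * g + (u + 1).choose 2 + u ≤ D₁ + 1) :
    ∀ D, D₁ ≤ D → ∀ (y : Fin r → ℕ) (U S : ℕ),
    (∀ i ∈ B, y i = m i) → (∀ i, y i ≤ m i) →
    (M - 1) * (u - 1) ≤ U + S + g * ((D - D₁) / (u + 1)) →
    (hPm D y : ℤ) ≤ max (U : ℤ) (MM.chi D y + S) := by
  obtain ⟨W, hW⟩ : ∃ W, W = (M - 1) * (u - 1) := ⟨_, rfl⟩
  rw [← hW] at h2 ⊢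
  intro D
  induction D using Nat.strong_induction_on with
  | _ D ih =>
  intro hD y U S hyB hym hpot
  have hyM : ∀ i, y i ≤ M := fun i => (hym i).trans (hM i)
  have hyu : ∀ i, i ∉ B → y i ≤ u := fun i hi => (hym i).trans (hms i hi)
  have hregy : hPm D (onB B y) + ∑ i, (onB B y i + 1).choose 2 = (D + 2).choose 2 := by
    rw [onB_congr hyB]
    exact linSys_reg_mono (onB B m) (fun i => generic_coord_ne (gpt_generic r) i 2) hD hreg
  rcases Nat.lt_or_ge (U + S) W with hUS | hUS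
  swap
  · exact kq_base B huM hyM hyu hregy (by rw [← hW]; exact hUS)
  have hK : 1 ≤ (D - D₁) / (u + 1) := by
    rcases Nat.eq_zero_or_pos ((D - D₁) / (u + 1)) with h0 | h0
    · rw [h0, Nat.mul_zero] at hpot
      omega
    · exact h0
  have hDu : u + 1 ≤ D - D₁ := by
    rw [Nat.le_div_iff_mul_le (by omega)] at hK
    omega
  rcases Nat.lt_or_ge (∑ i ∈ offP B, (y i + 1).choose 2) (fA D u + g) with hfew | hmany
  · have hfA := fA_eq (D := D) (H := u) (by omega)
    have h3 : 2 * ∑ i, (onB B m i + 1).choose 2 + 2 * W + (2 * u + 1) * (D + 1) ≤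
        (D + 2) * (D + 1) := fs_room h2 hD
    have h4 := sum_offP B (fun i => (y i + 1).choose 2)
    have h5 : ∑ i ∈ B, (y i + 1).choose 2 = ∑ i, (onB B m i + 1).choose 2 := by
      rw [← sum_onB, onB_congr hyB]
    have h6 : 2 * (D + 2).choose 2 = (D + 2) * (D + 1) := by
      have h6 := tr_two_choose (D + 1)
      rw [h6]
      ring
    have e3 : (2 * u + 1) * (D + 1) = 2 * (u * (D + 1)) + (D + 1) := by ring
    have h7 := kq_regular B huM hyM hyu hregy (by rw [← hW]; omega)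
    apply le_max_of_le_right
    unfold MM.chi
    have h8 : ((hPm D y + ∑ i, (y i + 1).choose 2 : ℕ) : ℤ) =
        (((D + 2).choose 2 : ℕ) : ℤ) := by rw [h7]
    push_cast at h8 ⊢
    linarith
  obtain ⟨A, y', hs, hA, hA', hy'B⟩ := fs_strip (g := g) B hu hyu (by omega) hg1 (by omega) hmany
  obtain ⟨h1, h2', h3, h4, h5, h6⟩ := hs.count
  have hle := hs.le
  have hyB' : ∀ i ∈ B, y' i = m i := fun i hi => (hy'B i hi).trans (hyB i hi)
  have hym' : ∀ i, y' i ≤ m i := by
    intro i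
    rcases h4 i with h | h
    · rw [h]
      exact hym i
    · rw [h]
      exact Nat.zero_le _
  have hdiv : ∀ D', D ≤ D' + (u + 1) → D₁ ≤ D' →
      g * ((D - D₁) / (u + 1)) ≤ g * ((D' - D₁) / (u + 1)) + g := by
    intro D' h1 h3
    have h4 : (D - D₁) / (u + 1) ≤ (D' - D₁) / (u + 1) + 1 := by
      rw [← Nat.add_div_right _ (by omega : 0 < u + 1)]
      exact Nat.div_le_div_right (by omega)
    have h5 := Nat.mul_le_mul_left g h4
    rw [Nat.mul_add, Nat.mul_one] at h5
    exact h5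
  have c1 := ih (D - u) (by omega) (by omega) y' (U + A) S hyB' hym' (by
    have := hdiv (D - u) (by omega) (by omega)
    omega)
  have c2 := ih (D - u - 1) (by omega) (by omega) y' U (S + (D - u + 1 - A)) hyB' hym' (by
    have := hdiv (D - u - 1) (by omega) (by omega)
    omega)
  have e1 : MM.chi (D - u) y' = MM.chi D y + A := by
    unfold MM.chi
    have h10 : (((D + 2).choose 2 + A + ∑ i, (y' i + 1).choose 2 : ℕ) : ℤ) =
        (((D - u + 2).choose 2 + ∑ i, (y i + 1).choose 2 : ℕ) : ℤ) := by rw [h5]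
    push_cast at h10 ⊢
    linarith
  have e2 : MM.chi (D - u - 1) y' = MM.chi D y - ((D - u + 1 - A : ℕ) : ℤ) := by
    have h11 : (((D - u + 2).choose 2 : ℕ) : ℤ) =
        (((D - u - 1 + 2).choose 2 + (D - u + 1) : ℕ) : ℤ) := by rw [h6]
    have h12 : ((D - u + 1 - A : ℕ) : ℤ) = ((D - u + 1 : ℕ) : ℤ) - A := Nat.cast_sub h3
    have h13 : MM.chi (D - u) y' = MM.chi (D - u - 1) y' + ((D - u + 1 : ℕ) : ℤ) := by
      unfold MM.chi
      rw [h11]
      push_cast
      ring
    rw [h12]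
    linarith
  rw [e1] at c1
  rw [e2] at c2
  push_cast at c1 c2
  have h14 : (hPm D y : ℤ) ≤ max ((hPm (D - u) y' : ℤ) - A) (hPm (D - u - 1) y' : ℤ) ∨
      (hPm D y : ℤ) ≤ 0 := by
    rcases le_max_iff.mp hle with h | h
    · rcases Nat.lt_or_ge (hPm (D - u) y') A with h' | h'
      · right
        have : hPm D y = 0 := by omega
        rw [this]
        simp
      · left
        apply le_max_of_le_left
        have : ((hPm (D - u) y' - A : ℕ) : ℤ) = (hPm (D - u) y' : ℤ) - A := Nat.cast_sub h'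
        rw [← this]
        exact_mod_cast h
    · left
      apply le_max_of_le_right
      exact_mod_cast h
  rcases h14 with h14 | h14
  · rcases le_max_iff.mp h14 with h15 | h15
    · rcases le_max_iff.mp c1 with h16 | h16
      · apply le_max_of_le_left
        linarith
      · apply le_max_of_le_right
        linarith
    · rcases le_max_iff.mp c2 with h16 | h16
      · apply le_max_of_le_left
        linarith
      · apply le_max_of_le_right
        linarith
  · apply le_max_of_le_left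
    exact h14.trans (by positivity)

theorem exact_of_max {r d : ℕ} {m : Fin r → ℕ} (h1 : (hPm d m : ℤ) ≤ max 0 (MM.chi d m)) :
    hPm d m = (d + 2).choose 2 - ∑ i, (m i + 1).choose 2 := by
  have h3 := MM.hPm_count d m
  unfold MM.chi at h1
  rcases le_max_iff.mp h1 with h4 | h4
  · have h5 : hPm d m = 0 := by
      have : hPm d m ≤ 0 := by exact_mod_cast h4
      omega
    omega
  · have h5 : hPm d m + ∑ i, (m i + 1).choose 2 ≤ (d + 2).choose 2 := by
      have h6 : (hPm d m : ℤ) + ((∑ i, (m i + 1).choose 2 : ℕ) : ℤ) ≤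
          (((d + 2).choose 2 : ℕ) : ℤ) := by linarith
      exact_mod_cast h6
    omega

/-- **The relative theorem**, general lines. -/
theorem relH_main {r u M D₁ d g : ℕ} {m : Fin r → ℕ}
    (B : Finset (Fin r)) (hu : 1 ≤ u) (huM : u ≤ M) (hM : ∀ i, m i ≤ M)
    (hms : ∀ i, i ∉ B → m i ≤ u)
    (hreg : hPm D₁ (onB B m) + ∑ i ∈ B, (m i + 1).choose 2 = (D₁ + 2).choose 2)
    (h2 : 2 * ∑ i ∈ B, (m i + 1).choose 2 + 2 * ((M - 1) * (u - 1)) +
      (2 * u + 1) * (D₁ + 1) ≤ (D₁ + 2) * (D₁ + 1))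
    (hg1 : u.choose 2 + 2 ≤ g) (hg2 : 2 * g + (u + 1).choose 2 + u ≤ D₁ + 1) (hd : D₁ ≤ d)
    (hK : (M - 1) * (u - 1) ≤ g * ((d - D₁) / (u + 1))) :
    hPm d m = (d + 2).choose 2 - ∑ i, (m i + 1).choose 2 := by
  rw [← sum_onB] at hreg h2
  have h1 := relH_aux B hu huM hM hms hreg h2 hg1 hg2 d hd m 0 0 (fun _ _ => rfl)
    (fun _ => le_rfl) (by omega)
  simp only [Nat.cast_zero, add_zero] at h1
  exact exact_of_max h1

/-! ### strips along general lines through a point -/

/-- the system of the points in `B`, with multiplicity `v` at the point `i₂` -/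
def onU {r : ℕ} (B : Finset (Fin r)) (m : Fin r → ℕ) (i₂ : Fin r) (v : ℕ) : Fin r → ℕ :=
  Function.update (onB B m) i₂ v

theorem onB_eq_onU {r : ℕ} {B : Finset (Fin r)} {y m : Fin r → ℕ} {i₂ : Fin r} (hi₂ : i₂ ∈ B)
    (h : ∀ i ∈ B, i ≠ i₂ → y i = m i) : onB B y = onU B m i₂ (y i₂) := by
  funext i
  unfold onU
  by_cases h1 : i = i₂
  · rw [h1, Function.update_self]
    exact if_pos hi₂
  · rw [Function.update_of_ne h1]
    unfold onB
    split_ifs with hi
    · exact h i hi h1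
    · rfl

theorem sum_onU {r : ℕ} {B : Finset (Fin r)} {m : Fin r → ℕ} {i₂ : Fin r} (hi₂ : i₂ ∈ B) (v : ℕ) :
    ∑ i, (onU B m i₂ v i + 1).choose 2 + (m i₂ + 1).choose 2 =
      ∑ i ∈ B, (m i + 1).choose 2 + (v + 1).choose 2 := by
  classical
  rw [← sum_onB (B := B) (m := m), ← Finset.add_sum_erase _ _ (Finset.mem_univ i₂),
    ← Finset.add_sum_erase _ (fun i => (onB B m i + 1).choose 2) (Finset.mem_univ i₂)]
  unfold onU
  rw [Function.update_self]
  have h1 : ∑ i ∈ Finset.univ.erase i₂, (Function.update (onB B m) i₂ v i + 1).choose 2 =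
      ∑ i ∈ Finset.univ.erase i₂, (onB B m i + 1).choose 2 :=
    Finset.sum_congr rfl (fun i hi => by
      rw [Function.update_of_ne (Finset.ne_of_mem_erase hi)])
  have h2 : onB B m i₂ = m i₂ := if_pos hi₂
  rw [h1, h2]
  ring

theorem relP_aux {r u M D₁ d g E : ℕ} {m : Fin r → ℕ} {B : Finset (Fin r)} {i₂ : Fin r}
    (hi₂ : i₂ ∈ B) (hu : 1 ≤ u) (huM : u ≤ M) (hM : ∀ i, m i ≤ M) (hms : ∀ i, i ∉ B → m i ≤ u)
    (hE : m i₂ + E = d) (hED : E ≤ D₁)
    (hreg : ∀ D, D₁ ≤ D → D ≤ d →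
      hPm D (onU B m i₂ (D - E)) + ∑ i, (onU B m i₂ (D - E) i + 1).choose 2 = (D + 2).choose 2)
    (hroom : ∑ i, (onU B m i₂ (D₁ - E) i + 1).choose 2 + (M - 1) * (u - 1) + u * (E + 1) + g ≤
      (D₁ + 2).choose 2)
    (hg1 : u.choose 2 + 2 ≤ g) (hg2 : 2 * g + (u + 1).choose 2 ≤ E + 1) :
    ∀ D, D₁ ≤ D → D ≤ d → ∀ (y : Fin r → ℕ) (U S : ℕ),
    y i₂ + E = D → (∀ i ∈ B, i ≠ i₂ → y i = m i) → (∀ i, i ∉ B → y i ≤ m i) →
    (M - 1) * (u - 1) ≤ U + S + g * ((D - D₁) / (u + 1)) →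
    (hPm D y : ℤ) ≤ max (U : ℤ) (MM.chi D y + S) := by
  classical
  obtain ⟨W, hW⟩ : ∃ W, W = (M - 1) * (u - 1) := ⟨_, rfl⟩
  rw [← hW] at hroom ⊢
  intro D
  induction D using Nat.strong_induction_on with
  | _ D ih =>
  intro hD hDd y U S hy₂ hyB hyo hpot
  have hyM : ∀ i, y i ≤ M := by
    intro i
    by_cases h1 : i ∈ B
    · by_cases h2 : i = i₂
      · have := hM i₂
        rw [h2]
        omega
      · rw [hyB i h1 h2]
        exact hM i
    · exact (hyo i h1).trans (hM i)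
  have hyu : ∀ i, i ∉ B → y i ≤ u := fun i hi => (hyo i hi).trans (hms i hi)
  have hy₂' : y i₂ = D - E := by omega
  have honB : onB B y = onU B m i₂ (D - E) := by
    rw [← hy₂']
    exact onB_eq_onU hi₂ hyB
  have hregy : hPm D (onB B y) + ∑ i, (onB B y i + 1).choose 2 = (D + 2).choose 2 := by
    rw [honB]
    exact hreg D hD hDd
  rcases Nat.lt_or_ge (U + S) W with hUS | hUS
  swap
  · exact kq_base B huM hyM hyu hregy (by rw [← hW]; exact hUS)
  have hK : 1 ≤ (D - D₁) / (u + 1) := by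
    rcases Nat.eq_zero_or_pos ((D - D₁) / (u + 1)) with h0 | h0
    · rw [h0, Nat.mul_zero] at hpot
      omega
    · exact h0
  have hDu : u + 1 ≤ D - D₁ := by
    rw [Nat.le_div_iff_mul_le (by omega)] at hK
    omega
  rcases Nat.lt_or_ge (∑ i ∈ offP B, (y i + 1).choose 2) (u * (E + 1) + g) with hfew | hmany
  · -- the room
    have h4 := sum_offP B (fun i => (y i + 1).choose 2)
    have h5 : ∑ i ∈ B, (y i + 1).choose 2 = ∑ i, (onU B m i₂ (D - E) i + 1).choose 2 := by
      rw [← sum_onB, honB]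
    have h6 := sum_onU (m := m) hi₂ (D - E)
    have h6' := sum_onU (m := m) hi₂ (D₁ - E)
    have h7 := row_id (D := D) (a := D - E) (κ := D - D₁) (by omega) (by omega)
    have e1 : D - E - (D - D₁) = D₁ - E := by omega
    have e2 : D - (D - E) = E := by omega
    have e3 : D - (D - D₁) = D₁ := by omega
    rw [e1, e2, e3] at h7
    have h7' := kq_regular B huM hyM hyu hregy (by rw [← hW]; omega)
    apply le_max_of_le_right
    unfold MM.chi
    have h8 : ((hPm D y + ∑ i, (y i + 1).choose 2 : ℕ) : ℤ) =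
        (((D + 2).choose 2 : ℕ) : ℤ) := by rw [h7']
    push_cast at h8 ⊢
    linarith
  -- a strip
  have hWs : ∀ i ∈ offP B, (y i + 1).choose 2 ≤ (u + 1).choose 2 := by
    intro i hi
    rw [mem_offP] at hi
    exact Nat.choose_le_choose 2 (Nat.succ_le_succ (hyu i hi))
  have hcb : (u - 1).choose 2 ≤ u.choose 2 := Nat.choose_le_choose 2 (Nat.sub_le _ _)
  obtain ⟨P, hP, h3, h4⟩ := greedy (T := u * (E + 1) + g) (offP B) hWs hmany
  obtain ⟨A, hA⟩ : ∃ A, ∑ i ∈ P, (y i + 1).choose 2 = u * (E + 1) + A :=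
    ⟨∑ i ∈ P, (y i + 1).choose 2 - u * (E + 1), by omega⟩
  have hAg : g ≤ A := by omega
  have hAle : A ≤ g + (u + 1).choose 2 := by omega
  have hi : i₂ ∉ P := fun h => by
    have := hP h
    rw [mem_offP] at this
    exact this hi₂
  have e2 : D - y i₂ = E := by omega
  have hstrip := strip_point (D := D) (κ := u) (A := A) (y := y) i₂ P hi hu
    (by omega) (by omega)
    (fun i hi => by
      have := hP hi
      rw [mem_offP] at this
      exact hyu i this)
    (by rw [e2]; exact hA) (by omega) (by rw [e2]; omega)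
  obtain ⟨y₁, hy₁⟩ : ∃ y₁, y₁ = Function.update (offF P y) i₂ (y i₂ - u) := ⟨_, rfl⟩
  obtain ⟨y₂, hy₂e⟩ : ∃ y₂, y₂ = Function.update (offF P y) i₂ (y i₂ - u - 1) := ⟨_, rfl⟩
  rw [← hy₁, ← hy₂e] at hstrip
  -- properties of the new systems
  have hoffle : ∀ i, offF P y i ≤ y i := by
    intro i
    unfold offF
    split_ifs
    · exact Nat.zero_le _
    · exact le_rfl
  have hPB : ∀ i ∈ B, i ∉ P := fun i hiB hiP => by
    have := hP hiP
    rw [mem_offP] at this
    exact this hiB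
  have hB' : ∀ v, ∀ i ∈ B, i ≠ i₂ → Function.update (offF P y) i₂ v i = m i := by
    intro v i hiB hne
    rw [Function.update_of_ne hne, offF_of_not_mem (hPB i hiB)]
    exact hyB i hiB hne
  have hO' : ∀ v, ∀ i, i ∉ B → Function.update (offF P y) i₂ v i ≤ m i := by
    intro v i hiB
    rw [Function.update_of_ne (fun h => hiB (by rw [h]; exact hi₂))]
    exact (hoffle i).trans (hyo i hiB)
  have hdiv : ∀ D', D ≤ D' + (u + 1) → D₁ ≤ D' →
      g * ((D - D₁) / (u + 1)) ≤ g * ((D' - D₁) / (u + 1)) + g := by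
    intro D' h1 h3
    have h4 : (D - D₁) / (u + 1) ≤ (D' - D₁) / (u + 1) + 1 := by
      rw [← Nat.add_div_right _ (by omega : 0 < u + 1)]
      exact Nat.div_le_div_right (by omega)
    have h5 := Nat.mul_le_mul_left g h4
    rw [Nat.mul_add, Nat.mul_one] at h5
    exact h5
  have c1 := ih (D - u) (by omega) (by omega) (by omega) y₁ (U + A) S (by
      rw [hy₁, Function.update_self]
      omega) (by rw [hy₁]; exact hB' _) (by rw [hy₁]; exact hO' _) (by
    have := hdiv (D - u) (by omega) (by omega)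
    omega)
  have c2 := ih (D - u - 1) (by omega) (by omega) (by omega) y₂ U (S + (E + 1 - A)) (by
      rw [hy₂e, Function.update_self]
      omega) (by rw [hy₂e]; exact hB' _) (by rw [hy₂e]; exact hO' _) (by
    have := hdiv (D - u - 1) (by omega) (by omega)
    omega)
  -- the expected dimensions
  have hoffs := sum_offF P y
  have hupd : ∀ v : ℕ, ∑ i, (Function.update (offF P y) i₂ v i + 1).choose 2 +
      (y i₂ + 1).choose 2 = ∑ i, (offF P y i + 1).choose 2 + (v + 1).choose 2 := by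
    intro v
    rw [← Finset.add_sum_erase _ _ (Finset.mem_univ i₂),
      ← Finset.add_sum_erase _ (fun i => (offF P y i + 1).choose 2) (Finset.mem_univ i₂),
      Function.update_self, offF_of_not_mem hi]
    have g1 : ∑ i ∈ Finset.univ.erase i₂, (Function.update (offF P y) i₂ v i + 1).choose 2 =
        ∑ i ∈ Finset.univ.erase i₂, (offF P y i + 1).choose 2 :=
      Finset.sum_congr rfl (fun i hi => by
        rw [Function.update_of_ne (Finset.ne_of_mem_erase hi)])
    rw [g1]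
    ring
  have u1 := hupd (y i₂ - u)
  have u2 := hupd (y i₂ - u - 1)
  rw [← hy₁] at u1
  rw [← hy₂e] at u2
  have r1 := row_id (D := D) (a := y i₂) (κ := u) (by omega) (by omega)
  have r2 := row_id (D := D) (a := y i₂) (κ := u + 1) (by omega) (by omega)
  have k1 : y i₂ - (u + 1) = y i₂ - u - 1 := by omega
  have k2 : D - (u + 1) = D - u - 1 := by omega
  rw [e2] at r1
  rw [e2, k1, k2] at r2
  have e4 : (u + 1) * (E + 1) = u * (E + 1) + (E + 1) := by ring
  rw [e4] at r2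
  have e1 : MM.chi (D - u) y₁ = MM.chi D y + A := by
    unfold MM.chi
    have h10 : (D + 2).choose 2 + A + ∑ i, (y₁ i + 1).choose 2 =
        (D - u + 2).choose 2 + ∑ i, (y i + 1).choose 2 := by omega
    have h11 : (((D + 2).choose 2 + A + ∑ i, (y₁ i + 1).choose 2 : ℕ) : ℤ) =
        (((D - u + 2).choose 2 + ∑ i, (y i + 1).choose 2 : ℕ) : ℤ) := by rw [h10]
    push_cast at h11 ⊢
    linarith
  have e3 : MM.chi (D - u - 1) y₂ = MM.chi D y - ((E + 1 - A : ℕ) : ℤ) := by
    unfold MM.chi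
    have h10 : (D + 2).choose 2 + ∑ i, (y₂ i + 1).choose 2 =
        (D - u - 1 + 2).choose 2 + (E + 1 - A) + ∑ i, (y i + 1).choose 2 := by omega
    have h11 : (((D + 2).choose 2 + ∑ i, (y₂ i + 1).choose 2 : ℕ) : ℤ) =
        (((D - u - 1 + 2).choose 2 + (E + 1 - A) + ∑ i, (y i + 1).choose 2 : ℕ) : ℤ) := by
      rw [h10]
    push_cast at h11 ⊢
    linarith
  rw [e1] at c1
  rw [e3] at c2
  push_cast at c1 c2
  have h14 : (hPm D y : ℤ) ≤ max ((hPm (D - u) y₁ : ℤ) - A) (hPm (D - u - 1) y₂ : ℤ) ∨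
      (hPm D y : ℤ) ≤ 0 := by
    rcases le_max_iff.mp hstrip with h | h
    · rcases Nat.lt_or_ge (hPm (D - u) y₁) A with h' | h'
      · right
        have : hPm D y = 0 := by omega
        rw [this]
        simp
      · left
        apply le_max_of_le_left
        have : ((hPm (D - u) y₁ - A : ℕ) : ℤ) = (hPm (D - u) y₁ : ℤ) - A := Nat.cast_sub h'
        rw [← this]
        exact_mod_cast h
    · left
      apply le_max_of_le_right
      exact_mod_cast h
  rcases h14 with h14 | h14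
  · rcases le_max_iff.mp h14 with h15 | h15
    · rcases le_max_iff.mp c1 with h16 | h16
      · apply le_max_of_le_left
        linarith
      · apply le_max_of_le_right
        linarith
    · rcases le_max_iff.mp c2 with h16 | h16
      · apply le_max_of_le_left
        linarith
      · apply le_max_of_le_right
        linarith
  · apply le_max_of_le_left
    exact h14.trans (by positivity)

/-- **The relative theorem**, lines through a point. -/
theorem relP_main {r u M D₁ d g E : ℕ} {m : Fin r → ℕ} {B : Finset (Fin r)} {i₂ : Fin r}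
    (hi₂ : i₂ ∈ B) (hu : 1 ≤ u) (huM : u ≤ M) (hM : ∀ i, m i ≤ M) (hms : ∀ i, i ∉ B → m i ≤ u)
    (hE : m i₂ + E = d) (hED : E ≤ D₁) (hDd : D₁ ≤ d)
    (hreg : ∀ D, D₁ ≤ D → D ≤ d →
      hPm D (onU B m i₂ (D - E)) + ∑ i, (onU B m i₂ (D - E) i + 1).choose 2 = (D + 2).choose 2)
    (hroom : ∑ i, (onU B m i₂ (D₁ - E) i + 1).choose 2 + (M - 1) * (u - 1) + u * (E + 1) + g ≤
      (D₁ + 2).choose 2)
    (hg1 : u.choose 2 + 2 ≤ g) (hg2 : 2 * g + (u + 1).choose 2 ≤ E + 1)
    (hK : (M - 1) * (u - 1) ≤ g * ((d - D₁) / (u + 1))) :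
    hPm d m = (d + 2).choose 2 - ∑ i, (m i + 1).choose 2 := by
  have h1 := relP_aux hi₂ hu huM hM hms hE hED hreg hroom hg1 hg2 d hDd le_rfl m 0 0 hE
    (fun _ _ _ => rfl) (fun _ _ => le_rfl) (by omega)
  simp only [Nat.cast_zero, add_zero] at h1
  exact exact_of_max h1

end Pool.Agent.Work.MP_0421d9_ag.LD
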