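import Pool.Agent.Work.MP_0421d9_ag.LExc
import Pool.Agent.Work.MP_0421d9_ag.LReg
import Pool.Agent.Work.MP_0421d9_ag.LRul
import Pool.Agent.Work.MP_0421d9_ag.LRel

/-!
Cremona-reduced systems with any number of points of arbitrary multiplicities, and points of small
multiplicity.
-/

namespace Pool.Agent.Work.MP_0421d9_ag.LD

open MvPolynomial Module

theorem ExcN.coef_le {N : ℕ} {e : ℤ} {c : Fin N → ℤ} (h : ExcN e c) (i : Fin N) : c i ≤ e := by
  have h0 := h.nonneg
  rcases eq_or_lt_of_le h0 with he | he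
  · subst he
    exact h.zero i
  have h1 : c i ^ 2 ≤ ∑ l, c l ^ 2 :=
    Finset.single_le_sum (f := fun l => c l ^ 2) (fun l _ => sq_nonneg _) (Finset.mem_univ i)
  rw [h.sq] at h1
  by_contra hcon
  push Not at hcon
  nlinarith

/-- reduced with respect to a set of points, with room for the canonical class -/
structure Red {r : ℕ} (u d : ℕ) (m : Fin r → ℕ) (B : Finset (Fin r)) : Prop where
  small : ∀ i, i ∉ B → m i ≤ u
  sum : ∀ J ⊆ B, J.card ≤ 3 → ∑ i ∈ J, m i + (3 - J.card) * u ≤ d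
  can : ∑ i ∈ B, m i + 100 * (u + 1) ^ 2 ≤ 3 * d

theorem Red.any {r u d : ℕ} {m : Fin r → ℕ} {B : Finset (Fin r)} (h : Red u d m B)
    {J : Finset (Fin r)} (hJ : J.card ≤ 3) : ∑ i ∈ J, m i + (3 - J.card) * u ≤ d := by
  classical
  have h1 := h.sum (J.filter (fun i => i ∈ B)) (fun i hi => (Finset.mem_filter.mp hi).2)
    ((Finset.card_filter_le _ _).trans hJ)
  have h2 := Finset.sum_filter_add_sum_filter_not J (fun i => i ∈ B) m
  have h3 := Finset.card_filter_add_card_filter_not (s := J) (fun i => i ∈ B)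
  have h4 : ∑ i ∈ J.filter (fun i => ¬ i ∈ B), m i ≤ (J.filter (fun i => ¬ i ∈ B)).card * u := by
    rw [← smul_eq_mul]
    exact Finset.sum_le_card_nsmul _ _ _ (fun i hi => h.small i (Finset.mem_filter.mp hi).2)
  obtain ⟨x, hx⟩ : ∃ x, x = (J.filter (fun i => i ∈ B)).card := ⟨_, rfl⟩
  obtain ⟨y, hy⟩ : ∃ y, y = (J.filter (fun i => ¬ i ∈ B)).card := ⟨_, rfl⟩
  rw [← hx] at h1
  rw [← hy] at h4
  have h5 : x + y = J.card := by
    rw [hx, hy]
    exact h3
  have h6 : 3 - x = y + (3 - J.card) := by omega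
  have h7 : (3 - x) * u = y * u + (3 - J.card) * u := by
    rw [h6]
    ring
  omega

theorem Red.t0 {r u d : ℕ} {m : Fin r → ℕ} {B : Finset (Fin r)} (h : Red u d m B) :
    3 * u ≤ d := by
  have h1 := h.any (J := ∅) (by simp)
  rw [Finset.sum_empty, Finset.card_empty] at h1
  omega

theorem Red.t1 {r u d : ℕ} {m : Fin r → ℕ} {B : Finset (Fin r)} (h : Red u d m B) (i : Fin r) :
    m i + 2 * u ≤ d := by
  have h1 := h.any (J := {i}) (by rw [Finset.card_singleton]; omega)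
  rw [Finset.sum_singleton, Finset.card_singleton] at h1
  omega

theorem Red.t2 {r u d : ℕ} {m : Fin r → ℕ} {B : Finset (Fin r)} (h : Red u d m B) {i j : Fin r}
    (hij : i ≠ j) : m i + m j + u ≤ d := by
  have h2 := Finset.card_pair hij
  have h1 := h.any (J := {i, j}) (by rw [h2]; omega)
  rw [Finset.sum_pair hij, h2] at h1
  omega

theorem Red.t3 {r u d : ℕ} {m : Fin r → ℕ} {B : Finset (Fin r)} (h : Red u d m B) {i j k : Fin r}
    (hij : i ≠ j) (hik : i ≠ k) (hjk : j ≠ k) : m i + m j + m k ≤ d := by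
  have h2 : ({i, j, k} : Finset (Fin r)).card = 3 :=
    Finset.card_eq_three.mpr ⟨i, j, k, hij, hik, hjk, rfl⟩
  have h1 := h.any (J := {i, j, k}) (by rw [h2])
  rw [h2, Finset.sum_insert, Finset.sum_pair hjk] at h1
  · omega
  · rw [Finset.mem_insert, Finset.mem_singleton, not_or]
    exact ⟨hij, hik⟩

theorem sum_onB_id {r : ℕ} (B : Finset (Fin r)) (m : Fin r → ℕ) :
    ∑ i, onB B m i = ∑ i ∈ B, m i := by
  unfold onB
  rw [Finset.sum_ite_mem, Finset.univ_inter]

theorem two_mul_sum_choose {r : ℕ} (a : Fin r → ℕ) :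
    2 * ∑ i, (a i + 1).choose 2 = ∑ i, a i ^ 2 + ∑ i, a i := by
  rw [Finset.mul_sum, ← Finset.sum_add_distrib]
  refine Finset.sum_congr rfl (fun i _ => ?_)
  rw [tr_two_choose]
  ring

/-- the numbers for `g` -/
theorem g_num {u L M : ℕ} (hu : 1 ≤ u) (hL : 3 * (u + 1) ^ 2 ≤ L) (hM : M ≤ L) :
    ∃ g, u.choose 2 + 2 ≤ g ∧ 2 * g + (u + 1).choose 2 + u ≤ L + 1 ∧
      (M - 1) * (u - 1) ≤ g * (3 * u) := by
  have e0 : (u + 1) ^ 2 = u * u + 2 * u + 1 := by ring
  have hc1 : (u + 1).choose 2 = u + u.choose 2 := by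
    rw [Nat.choose_succ_succ' u 1, Nat.choose_one_right]
  have hc2 : 2 * (u + 1).choose 2 = u * (u + 1) := tr_two_choose u
  have e2 : u * (u + 1) = u * u + u := by ring
  have huu : 1 * u ≤ u * u := Nat.mul_le_mul_right u hu
  refine ⟨(L + 1 - u - (u + 1).choose 2) / 2, ?_, ?_, ?_⟩
  · omega
  · omega
  · obtain ⟨g, hg⟩ : ∃ g, g = (L + 1 - u - (u + 1).choose 2) / 2 := ⟨_, rfl⟩
    rw [← hg]
    have h1 : M - 1 ≤ 3 * g := by omega
    calc (M - 1) * (u - 1) ≤ (3 * g) * u := Nat.mul_le_mul h1 (by omega)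
      _ = g * (3 * u) := by ring

/-- no two multiplicities with a sum close to the degree -/
theorem red_caseA {r u d : ℕ} (hr : 3 ≤ r) (hu : 1 ≤ u) {m : Fin r → ℕ} {B : Finset (Fin r)}
    (h : Red u d m B) (hA : ∀ i j, i ≠ j → onB B m i + onB B m j + 6 * (u + 1) ^ 2 ≤ d) :
    hPm d m = (d + 2).choose 2 - ∑ i, (m i + 1).choose 2 := by
  classical
  have e0 : (u + 1) ^ 2 = u * u + 2 * u + 1 := by ring
  have huu : 1 * u ≤ u * u := Nat.mul_le_mul_right u hu
  have hle := onB_le B m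
  have hcan := h.can
  rw [← sum_onB_id] at hcan
  have hsum := sum_onB B m
  obtain ⟨a, ha⟩ : ∃ a, a = onB B m := ⟨_, rfl⟩
  rw [← ha] at hA hle hcan hsum
  obtain ⟨t, ht⟩ : ∃ t, t = 3 * u * (u + 1) := ⟨_, rfl⟩
  have ht' : t = 3 * (u * u) + 3 * u := by rw [ht]; ring
  rw [e0] at hA hcan
  -- two indices
  have hij0 : (⟨0, by omega⟩ : Fin r) ≠ ⟨1, by omega⟩ := by
    intro h
    have := congrArg Fin.val h
    simp at this
  have hd6 := hA _ _ hij0
  have hred : ∀ i j k, i ≠ j → i ≠ k → j ≠ k → a i + a j + a k ≤ d := by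
    intro i j k h1 h2 h3
    have g1 := h.t3 h1 h2 h3
    have g2 := hle i
    have g3 := hle j
    have g4 := hle k
    omega
  have hN : ∀ τ : ℕ, τ ≤ 3 * (u * u) + 6 * u + 3 → NefN (d - τ) a := by
    intro τ hτ e c hc
    have h1 := excN_bound (τ := τ) hr hred (fun i j hij => by
      have := hA i j hij
      omega) (by omega) hc
    rw [Nat.cast_sub (by omega)]
    linarith
  have hN1 := hN t (by omega)
  have hN2 := hN (t + (2 * u + 1)) (by omega)
  have hreg := nefN_regular hr (d - t) a hN1 (by omega)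
  have hsq := nefN_sq hr (d - (t + (2 * u + 1))) a hN2 (by omega)
  obtain ⟨x, hx⟩ : ∃ x, x = d - (t + (2 * u + 1)) := ⟨_, rfl⟩
  rw [← hx] at hsq
  have hdt : d - t = x + (2 * u + 1) := by omega
  have hMx : ∀ i, m i ≤ x := by
    intro i
    by_cases hi : i ∈ B
    · obtain ⟨j, hij, -⟩ := exists_third hr i i
      have h1 := hA i j hij
      have h2 : a i = m i := by rw [ha]; exact if_pos hi
      omega
    · have := h.small i hi
      omega
  obtain ⟨g, hg1, hg2, hg3⟩ := g_num (u := u) (L := d - t) (M := x) hu (by rw [e0]; omega)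
    (by omega)
  have h2a := two_mul_sum_choose a
  refine relH_main (M := x) (D₁ := d - t) (g := g) B hu (by omega) hMx h.small ?_ ?_ hg1 hg2
    (by omega) ?_
  · rw [← ha, ← hsum]
    exact hreg
  · rw [← hsum, h2a, hdt]
    obtain ⟨v, rfl⟩ : ∃ v, u = v + 1 := ⟨u - 1, by omega⟩
    have h3 : (x - 1) * (v + 1 - 1) ≤ x * v := Nat.mul_le_mul (Nat.sub_le _ _) (by omega)
    have h4 : ∑ i, a i ≤ 3 * x := by omega
    nlinarith [Nat.zero_le (v * x), Nat.zero_le (v * v), Nat.zero_le x, Nat.zero_le v]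
  · have e1 : d - (d - t) = 3 * u * (u + 1) := by omega
    rw [e1, Nat.mul_div_cancel _ (by omega)]
    exact hg3

/-- the class with two multiplicities diminished -/
def dn2 {r : ℕ} (a : Fin r → ℕ) (i₁ i₂ : Fin r) (v : ℕ) : Fin r → ℕ :=
  fun i => if i = i₁ ∨ i = i₂ then a i - v else a i

theorem sum_two {r : ℕ} (f : Fin r → ℕ) {i₁ i₂ : Fin r} (h : i₂ ≠ i₁) :
    ∑ i, f i = f i₁ + (f i₂ + ∑ i ∈ (Finset.univ.erase i₁).erase i₂, f i) := by
  classical
  rw [Finset.add_sum_erase _ _ (Finset.mem_erase.mpr ⟨h, Finset.mem_univ i₂⟩),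
    Finset.add_sum_erase _ _ (Finset.mem_univ i₁)]

theorem mem_rest {r : ℕ} {i₁ i₂ i : Fin r} (h : i ∈ (Finset.univ.erase i₁).erase i₂) :
    i ≠ i₁ ∧ i ≠ i₂ := by
  rw [Finset.mem_erase, Finset.mem_erase] at h
  exact ⟨h.2.1, h.1⟩

/-- a point of very large multiplicity -/
theorem red_caseB1 {r u d : ℕ} (hu : 1 ≤ u) {m : Fin r → ℕ} {B : Finset (Fin r)}
    (h : Red u d m B) {i₁ : Fin r}
    (hbig : ∑ i ∈ B.erase i₁, m i + 26 * (u + 1) ^ 2 ≤ 2 * m i₁) :
    hPm d m = (d + 2).choose 2 - ∑ i, (m i + 1).choose 2 := by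
  have h1 := h.t1 i₁
  have hR : RulN u (d - m i₁) m i₁ (B.erase i₁) := by
    refine ⟨Finset.notMem_erase i₁ B, fun i h1 h2 => ?_, by omega, fun i h1 => ?_,
      fun i j h1 h2 h3 => ?_, hbig⟩
    · exact h.small i (fun h3 => h2 (Finset.mem_erase.mpr ⟨h1, h3⟩))
    · have := h.t2 h1
      omega
    · have := h.t3 (Ne.symm h1) (Ne.symm h2) h3
      omega
  have h2 := rulN_main hu (d - m i₁) r m i₁ (B.erase i₁) hR
  have e1 : m i₁ + (d - m i₁) = d := by omega
  rw [e1] at h2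
  exact h2

/-- two points of very large multiplicity -/
theorem red_caseB2 {r u d : ℕ} (hr : 3 ≤ r) (hu : 1 ≤ u) {m : Fin r → ℕ} {B : Finset (Fin r)}
    (h : Red u d m B) {i₁ i₂ : Fin r} (h12 : i₂ ≠ i₁) (h2B : i₂ ∈ B)
    (hm21 : m i₂ ≤ m i₁) (h1B : i₁ ∈ B)
    (hmax : ∀ i, i ≠ i₁ → i ≠ i₂ → m i ≤ m i₂)
    (hd : d < m i₁ + m i₂ + 6 * (u + 1) ^ 2) (hbig : 56 * (u + 1) ^ 2 ≤ 3 * m i₂) :
    hPm d m = (d + 2).choose 2 - ∑ i, (m i + 1).choose 2 := by
  classical
  have e0 : (u + 1) ^ 2 = u * u + 2 * u + 1 := by ring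
  have huu : 1 * u ≤ u * u := Nat.mul_le_mul_right u hu
  have hle := onB_le B m
  have hcan := h.can
  rw [← sum_onB_id] at hcan
  have hsum := sum_onB B m
  obtain ⟨a, ha⟩ : ∃ a, a = onB B m := ⟨_, rfl⟩
  rw [← ha] at hle hcan hsum
  rw [e0] at hcan hd hbig
  have ha1 : a i₁ = m i₁ := by rw [ha]; exact if_pos h1B
  have ha2 : a i₂ = m i₂ := by rw [ha]; exact if_pos h2B
  have hpair := h.t2 h12
  obtain ⟨σ, hσ⟩ : ∃ σ, d = m i₁ + m i₂ + σ := ⟨d - (m i₁ + m i₂), by omega⟩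
  have hrest : ∀ i, i ≠ i₁ → i ≠ i₂ → a i ≤ σ := by
    intro i g1 g2
    have g3 := h.t3 (Ne.symm h12) (Ne.symm g1) (Ne.symm g2)
    have g4 := hle i
    omega
  obtain ⟨t, ht⟩ : ∃ t, t = 3 * u * (u + 1) := ⟨_, rfl⟩
  have ht' : t = 3 * (u * u) + 3 * u := by rw [ht]; ring
  -- the diminished classes
  have hb1 : ∀ v, dn2 a i₁ i₂ v i₁ = m i₁ - v := fun v => by
    unfold dn2
    rw [if_pos (Or.inl rfl), ha1]
  have hb2 : ∀ v, dn2 a i₁ i₂ v i₂ = m i₂ - v := fun v => by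
    unfold dn2
    rw [if_pos (Or.inr rfl), ha2]
  have hbo : ∀ v i, i ≠ i₁ → i ≠ i₂ → dn2 a i₁ i₂ v i = a i := fun v i g1 g2 => by
    unfold dn2
    rw [if_neg (not_or.mpr ⟨g1, g2⟩)]
  have hbred : ∀ v, v ≤ t + 2 * u → ∀ i j k, i ≠ j → i ≠ k → j ≠ k →
      dn2 a i₁ i₂ v i + dn2 a i₁ i₂ v j + dn2 a i₁ i₂ v k ≤ d - 2 * v := by
    intro v hv i j k hij hik hjk
    have w1 := hb1 v
    have w2 := hb2 v
    have cases3 : ∀ l, (l = i₁ ∧ dn2 a i₁ i₂ v l = m i₁ - v) ∨
        (l = i₂ ∧ dn2 a i₁ i₂ v l = m i₂ - v) ∨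
        (l ≠ i₁ ∧ l ≠ i₂ ∧ dn2 a i₁ i₂ v l ≤ σ) := by
      intro l
      by_cases g1 : l = i₁
      · left
        exact ⟨g1, by rw [g1]; exact w1⟩
      by_cases g2 : l = i₂
      · right
        left
        exact ⟨g2, by rw [g2]; exact w2⟩
      · right
        right
        exact ⟨g1, g2, by rw [hbo v l g1 g2]; exact hrest l g1 g2⟩
    rcases cases3 i with ⟨g1, g2⟩ | ⟨g1, g2⟩ | ⟨g1, g1', g2⟩ <;>
    rcases cases3 j with ⟨g3, g4⟩ | ⟨g3, g4⟩ | ⟨g3, g3', g4⟩ <;>
    rcases cases3 k with ⟨g5, g6⟩ | ⟨g5, g6⟩ | ⟨g5, g5', g6⟩ <;>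
    first
      | exact absurd (g1.trans g3.symm) hij
      | exact absurd (g1.trans g5.symm) hik
      | exact absurd (g3.trans g5.symm) hjk
      | omega
  have hbpair : ∀ v, v ≤ t + 2 * u → ∀ i j, i ≠ j →
      dn2 a i₁ i₂ v i + dn2 a i₁ i₂ v j + 2 * 0 ≤ d - 2 * v := by
    intro v hv i j hij
    obtain ⟨k, hik, hjk⟩ := exists_third hr i j
    have := hbred v hv i j k hij hik hjk
    omega
  have hasum := sum_two a h12
  have hbsum : ∀ v, v ≤ t + 2 * u → ∑ i, dn2 a i₁ i₂ v i + 2 * v = ∑ i, a i := by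
    intro v hv
    have g1 := hb1 v
    have g2 := hb2 v
    have g3 : ∑ i ∈ (Finset.univ.erase i₁).erase i₂, dn2 a i₁ i₂ v i =
        ∑ i ∈ (Finset.univ.erase i₁).erase i₂, a i :=
      Finset.sum_congr rfl (fun i hi => hbo v i (mem_rest hi).1 (mem_rest hi).2)
    rw [sum_two (dn2 a i₁ i₂ v) h12, hasum, g1, g2, g3, ha1, ha2]
    obtain ⟨z, hz⟩ : ∃ z, z = ∑ i ∈ (Finset.univ.erase i₁).erase i₂, a i := ⟨_, rfl⟩
    rw [← hz]
    omega
  have hEd : m i₂ + (d - m i₂) = d := by omega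
  -- nonnegativity
  have hN : ∀ j, j ≤ t → NefN (d - j) (onU B m i₂ (m i₂ - j)) := by
    intro j hj e c hc
    have h1 := excN_bound (τ := 0) hr (hbred j (by omega)) (hbpair j (by omega)) (by
      have := hbsum j (by omega)
      omega) hc
    have h2 := hc.coef_le i₁
    have h3 : ∑ i, (onU B m i₂ (m i₂ - j) i : ℤ) * c i =
        ∑ i, (dn2 a i₁ i₂ j i : ℤ) * c i + j * c i₁ := by
      rw [← Finset.add_sum_erase _ _ (Finset.mem_univ i₁),
        ← Finset.add_sum_erase _ (fun i => (dn2 a i₁ i₂ j i : ℤ) * c i) (Finset.mem_univ i₁)]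
      have h4 : ∑ i ∈ Finset.univ.erase i₁, (onU B m i₂ (m i₂ - j) i : ℤ) * c i =
          ∑ i ∈ Finset.univ.erase i₁, (dn2 a i₁ i₂ j i : ℤ) * c i := by
        refine Finset.sum_congr rfl (fun i hi => ?_)
        have g1 := Finset.ne_of_mem_erase hi
        by_cases g2 : i = i₂
        · subst g2
          unfold onU
          rw [Function.update_self, hb2]
        · unfold onU
          rw [Function.update_of_ne g2, hbo j i g1 g2, ha]
      have h5 : onU B m i₂ (m i₂ - j) i₁ = m i₁ := by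
        unfold onU
        rw [Function.update_of_ne (Ne.symm h12), ← ha, ha1]
      rw [h4, h5, hb1, Nat.cast_sub (by omega)]
      ring
    rw [h3, Nat.cast_sub (by omega)]
    rw [Nat.cast_sub (by omega)] at h1
    push_cast at h1
    have h6 : (j : ℤ) * c i₁ ≤ j * e := mul_le_mul_of_nonneg_left h2 (Int.natCast_nonneg j)
    linarith
  have hUsum : ∀ j, j ≤ t → ∑ i, onU B m i₂ (m i₂ - j) i + j = ∑ i, a i := by
    intro j hj
    rw [← Finset.add_sum_erase _ _ (Finset.mem_univ i₂),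
      ← Finset.add_sum_erase _ a (Finset.mem_univ i₂), ha2]
    have h4 : ∑ i ∈ Finset.univ.erase i₂, onU B m i₂ (m i₂ - j) i =
        ∑ i ∈ Finset.univ.erase i₂, a i := by
      refine Finset.sum_congr rfl (fun i hi => ?_)
      unfold onU
      rw [Function.update_of_ne (Finset.ne_of_mem_erase hi), ha]
    rw [h4]
    unfold onU
    rw [Function.update_self]
    omega
  -- the numbers
  obtain ⟨L, hL⟩ : ∃ L, d - m i₂ = L := ⟨_, rfl⟩
  have hL' : L = m i₁ + σ := by omega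
  obtain ⟨g, hg1, hg2, hg3⟩ := g_num (u := u) (L := L) (M := m i₁) hu (by rw [e0]; omega)
    (by omega)
  have hMx : ∀ i, m i ≤ m i₁ := by
    intro i
    by_cases g1 : i = i₁
    · rw [g1]
    by_cases g2 : i = i₂
    · rw [g2]
      exact hm21
    · exact (hmax i g1 g2).trans hm21
  refine relP_main (M := m i₁) (D₁ := d - t) (g := g) (E := L) (i₂ := i₂) h2B hu (by omega) hMx
    h.small (by omega) (by omega) (by omega) (fun D hD hDd => ?_) ?_ hg1 (by omega) ?_
  · obtain ⟨j, hj⟩ : ∃ j, j = d - D := ⟨_, rfl⟩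
    have e1 : D - L = m i₂ - j := by omega
    have e2 : D = d - j := by omega
    rw [e1, e2]
    have := hUsum j (by omega)
    exact nefN_regular hr _ _ (hN j (by omega)) (by omega)
  · -- the room
    have e1 : d - t - L = m i₂ - t := by omega
    rw [e1]
    have h1 := two_mul_sum_choose (onU B m i₂ (m i₂ - t))
    have h2 := hUsum t le_rfl
    have h3 := reduced_sq hr (hbred (t + 2 * u) le_rfl) (by
      have := hbsum (t + 2 * u) le_rfl
      omega)
    have h4 : ∑ i, dn2 a i₁ i₂ (t + 2 * u) i ^ 2 = (m i₁ - (t + 2 * u)) ^ 2 +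
        ((m i₂ - (t + 2 * u)) ^ 2 + ∑ i ∈ (Finset.univ.erase i₁).erase i₂, a i ^ 2) := by
      rw [sum_two (fun i => dn2 a i₁ i₂ (t + 2 * u) i ^ 2) h12, hb1, hb2]
      congr 2
      exact Finset.sum_congr rfl (fun i hi => by rw [hbo _ i (mem_rest hi).1 (mem_rest hi).2])
    have h5 : ∑ i, onU B m i₂ (m i₂ - t) i ^ 2 = m i₁ ^ 2 +
        ((m i₂ - t) ^ 2 + ∑ i ∈ (Finset.univ.erase i₁).erase i₂, a i ^ 2) := by
      rw [sum_two (fun i => onU B m i₂ (m i₂ - t) i ^ 2) h12]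
      have g1 : onU B m i₂ (m i₂ - t) i₁ = m i₁ := by
        unfold onU
        rw [Function.update_of_ne (Ne.symm h12), ← ha, ha1]
      have g2 : onU B m i₂ (m i₂ - t) i₂ = m i₂ - t := by
        unfold onU
        rw [Function.update_self]
      rw [g1, g2]
      congr 2
      refine Finset.sum_congr rfl (fun i hi => ?_)
      unfold onU
      rw [Function.update_of_ne (mem_rest hi).2, ha]
    rw [h4] at h3
    rw [h5] at h1
    obtain ⟨Q, hQ⟩ : ∃ Q, Q = ∑ i ∈ (Finset.univ.erase i₁).erase i₂, a i ^ 2 := ⟨_, rfl⟩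
    rw [← hQ] at h1 h3
    have h6 := tm_choose (d - t)
    obtain ⟨S, hS⟩ : ∃ S, S = ∑ i, onU B m i₂ (m i₂ - t) i := ⟨_, rfl⟩
    rw [← hS] at h1 h2
    obtain ⟨C, hC⟩ : ∃ C, C = ∑ i, (onU B m i₂ (m i₂ - t) i + 1).choose 2 := ⟨_, rfl⟩
    rw [← hC] at h1 ⊢
    have hS3 : S ≤ 3 * (d - t) := by omega
    obtain ⟨q, hq⟩ : ∃ q, m i₂ = q + (t + 2 * u) := ⟨m i₂ - (t + 2 * u), by omega⟩
    obtain ⟨p', hp'⟩ : ∃ p', m i₁ = q + p' + (t + 2 * u) := ⟨m i₁ - q - (t + 2 * u), by omega⟩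
    have hqt : t + 2 * u ≤ q := by omega
    have k1 : m i₁ - (t + 2 * u) = q + p' := by omega
    have k2 : m i₂ - (t + 2 * u) = q := by omega
    have k3 : m i₂ - t = q + 2 * u := by omega
    have k4 : d - 2 * (t + 2 * u) = q + p' + q + σ := by omega
    have k5 : d - t = q + p' + q + σ + t + 4 * u := by omega
    rw [k1, k2, k4] at h3
    rw [k3, hp'] at h1
    rw [k5] at h6 hS3
    have h7 : 2 * ((m i₁ - 1) * (u - 1)) + 2 * (m i₁) ≤ 2 * (m i₁ * u) := by
      obtain ⟨v, hv⟩ : ∃ v, u = v + 1 := ⟨u - 1, by omega⟩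
      have h8 : (m i₁ - 1) * (u - 1) ≤ m i₁ * v := Nat.mul_le_mul (Nat.sub_le _ _) (by omega)
      have h9 : m i₁ * u = m i₁ * v + m i₁ := by rw [hv]; ring
      omega
    obtain ⟨X, hX⟩ : ∃ X, X = (m i₁ - 1) * (u - 1) := ⟨_, rfl⟩
    rw [← hX] at h7 ⊢
    rw [hp'] at h7
    rw [hp'] at hL'
    have h8 : 2 * (u * (L + 1)) + 2 * g ≤ 2 * (u * (L + 1)) + (L + 1) := by omega
    have h9 : u * (L + 1) = u * q + u * p' + u * t + 2 * (u * u) + u * σ + u := by
      rw [hL']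
      ring
    have h10 : (q + p' + (t + 2 * u)) * u = u * q + u * p' + u * t + 2 * (u * u) := by ring
    have h11 : (q + p' + q + σ + t + 4 * u + 2) * (q + p' + q + σ + t + 4 * u + 1) =
        (q + p' + q + σ) ^ 2 + 2 * (t + 4 * u) * (q + p' + q + σ) + (t + 4 * u) ^ 2 +
        3 * (q + p' + q + σ + t + 4 * u) + 2 := by ring
    have h12' : (q + p' + (t + 2 * u)) ^ 2 + ((q + 2 * u) ^ 2 + Q) =
        ((q + p') ^ 2 + (q ^ 2 + Q)) + 2 * (t + 2 * u) * (q + p') + (t + 2 * u) ^ 2 +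
        4 * (u * q) + 4 * (u * u) := by ring
    have h13 : 2 * (t + 4 * u) * (q + p' + q + σ) + (t + 4 * u) ^ 2 =
        2 * (t + 2 * u) * (q + p') + (t + 2 * u) ^ 2 + 4 * (u * q) + 4 * (u * p') +
        2 * (t * q) + 8 * (u * q) + 2 * (t * σ) + 8 * (u * σ) + 4 * (t * u) + 12 * (u * u) := by
      ring
    have h14 : u * (t + 2 * u) ≤ u * q := Nat.mul_le_mul_left u hqt
    have e14 : u * (t + 2 * u) = u * t + 2 * (u * u) := by ring
    have h15 : 1 * σ ≤ u * σ := Nat.mul_le_mul_right σ hu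
    have h16 : 1 * q ≤ t * q := Nat.mul_le_mul_right q (by omega)
    have h17 : t * u = u * t := Nat.mul_comm _ _
    have h18 : 1 * p' ≤ u * p' := Nat.mul_le_mul_right p' hu
    rw [k5]
    omega
  · have e1 : d - (d - t) = 3 * u * (u + 1) := by omega
    rw [e1, Nat.mul_div_cancel _ (by omega)]
    exact hg3

/-- the exact dimension, at least three points -/
theorem red_exact {r u d : ℕ} (hr : 3 ≤ r) {m : Fin r → ℕ} {B : Finset (Fin r)}
    (h : Red u d m B) : hPm d m = (d + 2).choose 2 - ∑ i, (m i + 1).choose 2 := by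
  classical
  have hcan := h.can
  rcases Nat.eq_zero_or_pos u with hu | hu
  · subst hu
    have hs : ∑ i, m i = ∑ i ∈ B, m i := by
      rw [← sum_onB_id B m]
      refine Finset.sum_congr rfl (fun i _ => ?_)
      unfold onB
      by_cases hi : i ∈ B
      · rw [if_pos hi]
      · rw [if_neg hi]
        exact Nat.le_zero.mp (h.small i hi)
    have hN : NefN d m := fun e c hc => by
      have h1 := excN_bound (τ := 0) hr (fun i j k a b c => h.t3 a b c) (fun i j hij => by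
        have := h.t2 hij
        omega) (by omega) hc
      push_cast at h1
      linarith
    have h1 := nefN_regular hr d m hN (by omega)
    omega
  by_cases hA : ∀ i j, i ≠ j → onB B m i + onB B m j + 6 * (u + 1) ^ 2 ≤ d
  · exact red_caseA hr hu h hA
  push Not at hA
  obtain ⟨i, j, hij, hlt⟩ := hA
  obtain ⟨a, ha⟩ : ∃ a, a = onB B m := ⟨_, rfl⟩
  have hle : ∀ l, a l ≤ m l := by
    rw [ha]
    exact onB_le B m
  have haB : ∀ l, l ∈ B → a l = m l := fun l hl => by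
    rw [ha]
    exact if_pos hl
  have ha0 : ∀ l, l ∉ B → a l = 0 := fun l hl => by
    rw [ha]
    exact if_neg hl
  rw [← ha] at hlt
  obtain ⟨i₁, -, h1⟩ := Finset.exists_max_image Finset.univ a ⟨i, Finset.mem_univ i⟩
  obtain ⟨k, hk1, -⟩ := exists_third hr i₁ i₁
  obtain ⟨i₂, h2m, h2⟩ := Finset.exists_max_image (Finset.univ.erase i₁) a
    ⟨k, Finset.mem_erase.mpr ⟨Ne.symm hk1, Finset.mem_univ k⟩⟩
  have h21 : i₂ ≠ i₁ := Finset.ne_of_mem_erase h2m
  have g1 : ∀ l, a l ≤ a i₁ := fun l => h1 l (Finset.mem_univ l)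
  have g2 : ∀ l, l ≠ i₁ → a l ≤ a i₂ := fun l hl =>
    h2 l (Finset.mem_erase.mpr ⟨hl, Finset.mem_univ l⟩)
  have hd : d < a i₁ + a i₂ + 6 * (u + 1) ^ 2 := by
    by_cases hi : i = i₁
    · have := g2 j (fun hj => hij (hi.trans hj.symm))
      have := g1 i
      omega
    · have := g2 i hi
      have := g1 j
      omega
  have e0 : (u + 1) ^ 2 = u * u + 2 * u + 1 := by ring
  have hi1 : i₁ ∈ B := by
    by_contra hcon
    have := ha0 i₁ hcon
    have := g1 i₂
    omega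
  have hm1 := haB i₁ hi1
  by_cases hbig : ∑ i ∈ B.erase i₁, m i + 26 * (u + 1) ^ 2 ≤ 2 * m i₁
  · exact red_caseB1 hu h hbig
  have hsB := Finset.add_sum_erase B m hi1
  have hi2 : i₂ ∈ B := by
    by_contra hcon
    have := ha0 i₂ hcon
    omega
  have hm2 := haB i₂ hi2
  refine red_caseB2 hr hu h h21 hi2 ?_ hi1 (fun l l1 l2 => ?_) ?_ ?_
  · have := g1 i₂
    omega
  · by_cases hl : l ∈ B
    · have := g2 l l1
      rw [haB l hl] at this
      omega
    · have := h.small l hl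
      omega
  · omega
  · omega

/-- adding three points of multiplicity zero -/
theorem Red.pad {r u d : ℕ} {m : Fin r → ℕ} {B : Finset (Fin r)} (h : Red u d m B) :
    Red u d (Fin.append m (fun _ : Fin 3 => 0)) (B.map (Fin.castAddEmb 3)) := by
  classical
  refine ⟨?_, ?_, ?_⟩
  · intro i
    refine Fin.addCases (fun j hj => ?_) (fun j _ => ?_) i
    · rw [Fin.append_left]
      exact h.small j (fun h1 => hj (Finset.mem_map_of_mem (Fin.castAddEmb 3) h1))
    · rw [Fin.append_right]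
      exact Nat.zero_le _
  · intro J hJ hc
    obtain ⟨J', hJ', rfl⟩ := Finset.subset_map_iff.mp hJ
    rw [Finset.card_map] at hc ⊢
    rw [Finset.sum_map]
    have h1 := h.sum J' hJ' hc
    have h2 : ∑ x ∈ J', Fin.append m (fun _ : Fin 3 => 0) ((Fin.castAddEmb 3) x) =
        ∑ x ∈ J', m x := Finset.sum_congr rfl (fun x _ => Fin.append_left m _ x)
    rw [h2]
    exact h1
  · rw [Finset.sum_map]
    have h2 : ∑ x ∈ B, Fin.append m (fun _ : Fin 3 => 0) ((Fin.castAddEmb 3) x) =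
        ∑ x ∈ B, m x := Finset.sum_congr rfl (fun x _ => Fin.append_left m _ x)
    rw [h2]
    exact h.can

/-- **Exact dimension.**  Cremona-reduced systems with points of arbitrary multiplicities and
points of small multiplicity. -/
theorem red_main {r u d : ℕ} {m : Fin r → ℕ} {B : Finset (Fin r)} (h : Red u d m B) :
    hPm d m = (d + 2).choose 2 - ∑ i, (m i + 1).choose 2 := by
  have h1 := red_exact (by omega : 3 ≤ r + 3) h.pad
  rw [hPm_append_zero, sum_append m _ (fun x => (x + 1).choose 2)] at h1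
  have h2 : ∑ _j : Fin 3, (0 + 1).choose 2 = 0 := Finset.sum_eq_zero (fun _ _ => rfl)
  rw [h2, Nat.add_zero] at h1
  exact h1

/-- at least three points -/
theorem B_regular3 {r d : ℕ} (hr : 3 ≤ r) {m : Fin r → ℕ}
    (h3 : ∀ J : Finset (Fin r), J.card ≤ 3 → ∑ i ∈ J, m i ≤ d)
    (hK : ∑ i, m i < 3 * d) : hPm d m + ∑ i, (m i + 1).choose 2 = (d + 2).choose 2 := by
  classical
  have s2 : ∀ i j, i ≠ j → m i + m j ≤ d := by
    intro i j hij
    have h2 := Finset.card_pair hij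
    have h1 := h3 {i, j} (by rw [h2]; omega)
    rw [Finset.sum_pair hij] at h1
    omega
  have s3 : ∀ i j k, i ≠ j → i ≠ k → j ≠ k → m i + m j + m k ≤ d := by
    intro i j k hij hik hjk
    have h2 : ({i, j, k} : Finset (Fin r)).card = 3 :=
      Finset.card_eq_three.mpr ⟨i, j, k, hij, hik, hjk, rfl⟩
    have h1 := h3 {i, j, k} (by rw [h2])
    rw [Finset.sum_insert, Finset.sum_pair hjk] at h1
    · omega
    · rw [Finset.mem_insert, Finset.mem_singleton, not_or]
      exact ⟨hij, hik⟩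
  have hN : NefN d m := fun e c hc => by
    have h1 := excN_bound (τ := 0) hr s3 (fun i j hij => by
      have := s2 i j hij
      omega) (by omega) hc
    push_cast at h1
    linarith
  exact nefN_regular hr d m hN (by omega)

/-- **Independent conditions** of the points of a reduced class, of any number. -/
theorem B_regular {r d : ℕ} {m : Fin r → ℕ}
    (h3 : ∀ J : Finset (Fin r), J.card ≤ 3 → ∑ i ∈ J, m i ≤ d)
    (hK : ∑ i, m i < 3 * d) : hPm d m + ∑ i, (m i + 1).choose 2 = (d + 2).choose 2 := by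
  classical
  have hz : ∑ _j : Fin 3, (0 + 1).choose 2 = 0 := Finset.sum_eq_zero (fun _ _ => rfl)
  have h1 := B_regular3 (by omega : 3 ≤ r + 3) (d := d)
    (m := Fin.append m (fun _ : Fin 3 => 0)) (fun J hJ => ?_) ?_
  · rw [hPm_append_zero, sum_append m _ (fun x => (x + 1).choose 2), hz, Nat.add_zero] at h1
    exact h1
  · have h2 : ∑ i ∈ J, Fin.append m (fun _ : Fin 3 => 0) i =
        ∑ i ∈ (J.preimage (Fin.castAddEmb 3) (Fin.castAddEmb 3).injective.injOn), m i := by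
      have h4 : ∑ i ∈ (J.preimage (Fin.castAddEmb 3) (Fin.castAddEmb 3).injective.injOn), m i =
          ∑ i ∈ (J.preimage (Fin.castAddEmb 3) (Fin.castAddEmb 3).injective.injOn),
            Fin.append m (fun _ : Fin 3 => 0) (Fin.castAddEmb 3 i) :=
        Finset.sum_congr rfl (fun x _ => (Fin.append_left m _ x).symm)
      rw [h4]
      refine (Finset.sum_preimage _ J (Fin.castAddEmb 3).injective.injOn _
        (fun x _ hx => ?_)).symm
      revert hx
      refine Fin.addCases (fun j hj => ?_) (fun j _ => ?_) x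
      · exact absurd ⟨j, rfl⟩ hj
      · rw [Fin.append_right]
    rw [h2]
    refine h3 _ ((Finset.card_le_card_of_injOn (Fin.castAddEmb 3) (fun x hx => ?_)
      (Fin.castAddEmb 3).injective.injOn).trans hJ)
    exact Finset.mem_preimage.mp hx
  · rw [sum_append m _ (fun x => x)]
    rw [Finset.sum_const_zero, Nat.add_zero]
    exact hK

end Pool.Agent.Work.MP_0421d9_ag.LD
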