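import Pool.Agent.Work.MP_0421d9_ag.LExempt

/-!
Three scales of multiplicities relative to any set of points which impose independent conditions in
a slightly smaller degree: both halves.
-/

namespace Pool.Agent.Work.MP_0421d9_ag

open MvPolynomial Module LD

namespace LD

/-- the conditions on the middle points -/
def Mid {r : ℕ} (u k M D : ℕ) (B : Finset (Fin r)) (z : Fin r → ℕ) : Prop :=
  (∀ i, i ∉ B → z i ≤ u) ∨ ∑ i ∈ BU B u z, (z i + 1).choose 2 +
      ((k + 4 * u ^ 2 + u) * M + 2 * (u + 1) * D) ≤ (D + 2).choose 2 ∨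
      ∑ i ∈ BU B u z, (z i + 1).choose 2 +
      2 * ((k + 4 * u ^ 2 + u) * M + 2 * (u + 1) * D) ≤ ∑ i, (z i + 1).choose 2

/-- three scales -/
theorem threeR {r D M k u : ℕ} (hu : 1 ≤ u) {z : Fin r → ℕ}
    {B : Finset (Fin r)} (huk : u ≤ k) (hkM : k ≤ M) (hM : ∀ i, z i ≤ M)
    (hk : ∀ i, i ∉ B → z i ≤ k) (hd : 30 * (u + 1) ^ 2 ≤ D)
    (hR : Rg (D - 4 * (u + 1) ^ 2) (onB B z)) (h : Mid u k M D B z) :
    hPm D z = (D + 2).choose 2 - ∑ i, (z i + 1).choose 2 := by
  by_cases hbig : ∃ i, D < z i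
  · rw [← hPm_eq (gpt_generic r)]
    exact ns_of_gt hbig
  push Not at hbig
  have e0 : (u + 1) ^ 2 = u * u + 2 * u + 1 := by ring
  have huu : 1 * u ≤ u * u := Nat.mul_le_mul_right u hu
  have hud : u ≤ D := by
    rw [e0] at hd
    omega
  have hW : (min k D + 4 * u ^ 2 + u) * min M D ≤ (k + 4 * u ^ 2 + u) * M :=
    Nat.mul_le_mul (Nat.add_le_add_right (Nat.add_le_add_right (min_le_left _ _) _) _)
      (min_le_left _ _)
  rcases h with h | h | h
  · exact reg_main hu h (by omega) (hR.mono (by omega))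
  · exact three_roomR (k := min k D) (M := min M D) hu (le_min huk hud)
      (min_le_min_right D hkM) (min_le_right _ _) (fun i => le_min (hM i) (hbig i))
      (fun i hi => le_min (hk i hi) (hbig i)) hR hd (by omega)
  · exact three_tailR (k := min k D) (M := min M D) hu (le_min huk hud)
      (min_le_min_right D hkM) (min_le_right _ _) (fun i => le_min (hM i) (hbig i))
      (fun i hi => le_min (hk i hi) (hbig i)) hR hd (by omega)

end LD

/-- `d ≥ 32 (u + 1) ^ 2`, and `N' + W ≤ (d + 2).choose 2` or `N' + 2 W ≤ N`, for `u < k` -/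
structure Three {r : ℕ} (u k M d : ℕ) (B : Finset (Fin r)) (m : Fin r → ℕ) : Prop where
  hu : 1 ≤ u
  huk : u ≤ k
  hd : 32 * (u + 1) ^ 2 ≤ d
  reg : Rg (d - 5 * (u + 1) ^ 2) (onB B m)
  mid : u = k ∨ bigC B u m + ((k + 4 * (u + 1) ^ 2) * M + 3 * (u + 1) * d) ≤ (d + 2).choose 2 ∨
    bigC B u m + 2 * ((k + 4 * (u + 1) ^ 2) * M + 3 * (u + 1) * d) ≤ ∑ i, (m i + 1).choose 2

section Three

variable {r u k M d : ℕ} {B : Finset (Fin r)} {m : Fin r → ℕ}

theorem sq_ge_four (u : ℕ) (hu : 1 ≤ u) : 4 ≤ (u + 1) ^ 2 := by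
  have e0 : (u + 1) ^ 2 = u * u + 2 * u + 1 := by ring
  have huu : 1 * u ≤ u * u := Nat.mul_le_mul_right u hu
  omega

/-- **Nonspeciality.** -/
theorem Three.ns (h : Three u k M d B m) (hkM : k ≤ M) (hM : ∀ i, m i ≤ M)
    (hk : ∀ i, i ∉ B → m i ≤ k) :
    hPm d m = (d + 2).choose 2 - ∑ i, (m i + 1).choose 2 := by
  obtain ⟨hu, huk, hd, hA, hmid⟩ := h
  have h4 := sq_ge_four u hu
  have e0 : (u + 1) ^ 2 = u * u + 2 * u + 1 := by ring
  refine threeR (M := M) (k := k) (u := u) hu huk hkM hM hk (by omega) (hA.mono (by omega)) ?_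
  have e1 : (k + 4 * (u + 1) ^ 2) * M = (k + 4 * u ^ 2 + u) * M + (7 * u + 4) * M := by ring
  have e2 : 3 * (u + 1) * d = 2 * (u + 1) * d + (u + 1) * d := by ring
  rw [e1, e2] at hmid
  rcases hmid with h1 | h1 | h1
  · left
    intro i hi
    rw [h1]
    exact hk i hi
  · right
    left
    change bigC B u m + _ ≤ _
    omega
  · right
    right
    change bigC B u m + _ ≤ _
    omega

theorem Nbr.le {y z : Fin r → ℕ} (h : Nbr y z) (i : Fin r) : z i ≤ y i + 1 := by
  rcases h with h | ⟨i₀, h1, h2⟩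
  · exact (h i).trans (Nat.le_succ _)
  · by_cases hi : i = i₀
    · rw [hi]
      exact h1
    · exact (h2 i hi).trans (Nat.le_succ _)

theorem bigC_le {u : ℕ} {y z : Fin r → ℕ} (h : ∀ i, z i ≤ y i) : bigC B u z ≤ bigC B u y := by
  classical
  have hb : ∀ m : Fin r → ℕ, bigC B u m =
      ∑ i, (if i ∈ B ∨ u < m i then (m i + 1).choose 2 else 0) := by
    intro m
    unfold bigC
    rw [Finset.sum_filter]
  rw [hb, hb]
  refine Finset.sum_le_sum (fun i _ => ?_)
  have hi := h i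
  split_ifs with h1 h2
  · exact Nat.choose_le_choose 2 (by omega)
  · rw [not_or] at h2
    rcases h1 with h1 | h1
    · exact absurd h1 h2.1
    · omega
  · exact Nat.zero_le _
  · exact le_rfl

/-- the systems with a member: enough room -/
theorem Three.room (h : Three u (k + 1) (M + 1) d B m) (hkM : k ≤ M) (hM : ∀ i, m i ≤ M)
    (hk : ∀ i, i ∉ B → m i ≤ k) (hpos : hPm d m ≠ 0) :
    u = k + 1 ∨ bigC B u m + ((k + 1 + 4 * (u + 1) ^ 2) * (M + 1) + 3 * (u + 1) * d) ≤
      (d + 2).choose 2 := by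
  have h1 := h.ns (by omega) (fun i => (hM i).trans (Nat.le_succ _))
    (fun i hi => (hk i hi).trans (Nat.le_succ _))
  rcases h.mid with h2 | h2 | h2
  · exact Or.inl h2
  · exact Or.inr h2
  · right
    omega

/-- **Nonspeciality of the neighbours.** -/
theorem Three.nbr (h : Three u (k + 1) (M + 1) d B m) (hkM : k ≤ M) (hM : ∀ i, m i ≤ M)
    (hk : ∀ i, i ∉ B → m i ≤ k) (hroom : u = k + 1 ∨
      bigC B u m + ((k + 1 + 4 * (u + 1) ^ 2) * (M + 1) + 3 * (u + 1) * d) ≤ (d + 2).choose 2)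
    {z : Fin r → ℕ} (hn : Nbr m z) :
    hPm d z = (d + 2).choose 2 - ∑ i, (z i + 1).choose 2 := by
  obtain ⟨hu, huk, hd, hA, -⟩ := h
  have h4 := sq_ge_four u hu
  have e0 : (u + 1) ^ 2 = u * u + 2 * u + 1 := by ring
  refine threeR (M := M + 1) (k := k + 1) (u := u) hu huk
    (by omega) (fun i => ?_) (fun i hi => ?_) (by omega) ((hA.nbr hn).mono (by omega)) ?_
  · have := hn.le i
    have := hM i
    omega
  · have := hn.le i
    have := hk i hi
    omega
  · rcases hroom with h1 | h1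
    · left
      intro i hi
      have := hn.le i
      have := hk i hi
      omega
    · right
      left
      change bigC B u z + _ ≤ _
      have h2 := bigC_nbr (I := B) (u := u) hM hn
      have h3 := tr_two_choose (u + 1)
      have e3 : u + 1 + 1 = u + 2 := rfl
      rw [e3] at h3
      have e1 : (k + 1 + 4 * (u + 1) ^ 2) * (M + 1) = (k + 1 + 4 * u ^ 2 + u) * (M + 1) +
        (7 * u + 4) * (M + 1) := by ring
      have e2 : 3 * (u + 1) * d = 2 * (u + 1) * d + (u + 1) * d := by ring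
      have h5 : 11 * (M + 1) ≤ (7 * u + 4) * (M + 1) := Nat.mul_le_mul_right _ (by omega)
      have h6 : (u + 1) * (u + 2) ≤ (u + 1) * d := Nat.mul_le_mul_left _ (by
        rw [e0] at hd
        omega)
      omega

/-- **Nonspeciality in lower degree.** -/
theorem Three.low (h : Three u (k + 1) (M + 1) d B m) (hkM : k ≤ M) (hM : ∀ i, m i ≤ M)
    (hk : ∀ i, i ∉ B → m i ≤ k) (hroom : u = k + 1 ∨
      bigC B u m + ((k + 1 + 4 * (u + 1) ^ 2) * (M + 1) + 3 * (u + 1) * d) ≤ (d + 2).choose 2)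
    {z : Fin r → ℕ} (hz : ∀ i, z i ≤ m i) :
    hPm (d - 1) z = (d - 1 + 2).choose 2 - ∑ i, (z i + 1).choose 2 := by
  obtain ⟨hu, huk, hd, hA, -⟩ := h
  have h4 := sq_ge_four u hu
  refine threeR (M := M + 1) (k := k + 1) (u := u) hu huk
    (by omega) (fun i => ?_) (fun i hi => ?_) (by omega) ((hA.nbr (Or.inl hz)).mono (by omega)) ?_
  · have := hz i
    have := hM i
    omega
  · have := hz i
    have := hk i hi
    omega
  · rcases hroom with h1 | h1
    · left
      intro i hi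
      have := hz i
      have := hk i hi
      omega
    · right
      left
      change bigC B u z + _ ≤ _
      have h2 := bigC_le (B := B) (u := u) hz
      obtain ⟨e, rfl⟩ : ∃ e, d = e + 1 := ⟨d - 1, by omega⟩
      rw [Nat.add_sub_cancel]
      have h3 : (e + 1 + 2).choose 2 = (e + 2) + (e + 2).choose 2 := by
        rw [Nat.choose_succ_succ' (e + 2) 1, Nat.choose_one_right]
      have e1 : (k + 1 + 4 * (u + 1) ^ 2) * (M + 1) = (k + 1 + 4 * u ^ 2 + u) * (M + 1) +
        (7 * u + 4) * (M + 1) := by ring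
      have e2 : 3 * (u + 1) * (e + 1) = 2 * (u + 1) * e + (u + 1) * e + 3 * (u + 1) := by ring
      have h6 : 1 * e ≤ (u + 1) * e := Nat.mul_le_mul_right _ (by omega)
      omega

/-- **Smoothness.** -/
theorem Three.smooth {k' : ℕ} {p : Fin r → Fin 3 → ℂ} (hp : GenericPoints p)
    (h : Three u (k + 1) (M + 1) d B m) (hkM : k ≤ M) (hM : ∀ i, m i ≤ M)
    (hk : ∀ i, i ∉ B → m i ≤ k) (hk' : ∀ i, i ∉ B → m i ≤ k')
    (hJ : k'.choose 2 + ∑ i ∈ exempt B (finrank ℂ (linSys d p m) +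
      (Finset.univ.filter (fun j => m j = 1)).card) m, (m i + 1).choose 2 ≤ (d + 1).choose 2)
    (hne : linSys d p m ≠ ⊥) :
    (∃ F ∈ linSys d p m, Squarefree F) ∧
    (∀ s : Fin (finrank ℂ (linSys d p m) - 1) → Fin 3 → ℂ, GenericPoints (Sum.elim p s) →
      ∀ F ∈ linSys d p m, F ≠ 0 → (∀ k, eval (s k) F = 0) → SmoothOnBlowup p m F) ∧
    (∃ F ∈ linSys d p m, F ≠ 0 ∧ SmoothOnBlowup p m F) := by
  have hroom := h.room hkM hM hk (by
    rw [← hPm_eq hp]
    intro h2
    exact hne (Submodule.finrank_eq_zero.mp h2))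
  have h1 := h.hd
  have h4 := sq_ge_four u h.hu
  refine smooth_exempt p hp m (by omega) hk' (fun z hz => ?_) (fun z hz => ?_) hJ hne
  · rw [hPm_eq hp]
    exact h.nbr hkM hM hk hroom hz
  · rw [hPm_eq hp]
    exact h.low hkM hM hk hroom hz

end Three

/-- few large points: the systems of degree `d - 1` -/
theorem scale_low {r u M d : ℕ} {p : Fin r → Fin 3 → ℂ} (hp : GenericPoints p)
    {m z : Fin r → ℕ} (hM : ∀ i, m i ≤ M) (hu : 1 ≤ u)
    (hd : 40000 * u ^ 2 * (M + 1) ≤ d ^ 2) (hN : 26 * bigC ∅ u m ≤ d ^ 2)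
    (hz : ∀ i, z i ≤ m i) :
    finrank ℂ (linSys (d - 1) p z) = (d - 1 + 2).choose 2 - ∑ j, (z j + 1).choose 2 := by
  have h200 : 200 * u ≤ d := by
    have h1 : (200 * u) ^ 2 ≤ d ^ 2 := by
      calc (200 * u) ^ 2 = 40000 * u ^ 2 * 1 := by ring
        _ ≤ 40000 * u ^ 2 * (M + 1) := Nat.mul_le_mul_left _ (by omega)
        _ ≤ d ^ 2 := hd
    exact (Nat.pow_le_pow_iff_left (by norm_num)).mp h1
  have key : ∀ l, 3 * m l ≤ d := by
    intro l
    rcases Nat.lt_or_ge u (m l) with hl | hl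
    · have h1 : (m l + 1).choose 2 ≤ bigC ∅ u m := by
        unfold bigC
        exact Finset.single_le_sum (f := fun l => (m l + 1).choose 2) (fun l _ => Nat.zero_le _)
          (Finset.mem_filter.mpr ⟨Finset.mem_univ l, Or.inr hl⟩)
      have h2 : 2 * (m l + 1).choose 2 = m l * (m l + 1) := tr_two_choose _
      have e1 : m l * (m l + 1) = m l ^ 2 + m l := by ring
      have h3 : (3 * m l) ^ 2 ≤ d ^ 2 := by
        have e2 : (3 * m l) ^ 2 = 9 * m l ^ 2 := by ring
        omega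
      exact (Nat.pow_le_pow_iff_left (by norm_num)).mp h3
    · omega
  have h2 := bigC_le (B := ∅) (u := u) hz
  obtain ⟨e, rfl⟩ : ∃ e, d = e + 1 := ⟨d - 1, by omega⟩
  rw [Nat.add_sub_cancel]
  have e1 : (e + 1) ^ 2 = e ^ 2 + 2 * e + 1 := by ring
  have he : 199 * e ≤ e ^ 2 := by
    rw [sq]
    exact Nat.mul_le_mul_right e (by omega)
  rw [e1] at hd hN
  refine scale_main hp (M := min M ((e + 1) / 3)) (u := u) (fun i => le_min ((hz i).trans (hM i))
    ((hz i).trans (by have := key i; omega))) hu ?_ (by omega)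
  have e3 : 40000 * u ^ 2 * (M + 1) = 40000 * u ^ 2 * M + 40000 * u ^ 2 := by ring
  rw [e3] at hd
  rcases Nat.lt_or_ge (40000 * u ^ 2) (2 * e + 1) with h3 | h3
  · calc 40000 * u ^ 2 * min M ((e + 1) / 3) ≤ (2 * e + 1) * ((e + 1) / 3) :=
          Nat.mul_le_mul h3.le (min_le_right _ _)
      _ ≤ e ^ 2 := by
        have h4 : (2 * e + 1) * (3 * ((e + 1) / 3)) ≤ (2 * e + 1) * (e + 1) :=
          Nat.mul_le_mul_left _ (by omega)
        have e4 : (2 * e + 1) * (3 * ((e + 1) / 3)) = 3 * ((2 * e + 1) * ((e + 1) / 3)) := by ring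
        have e5 : (2 * e + 1) * (e + 1) = 2 * e ^ 2 + 3 * e + 1 := by ring
        omega
  · calc 40000 * u ^ 2 * min M ((e + 1) / 3) ≤ 40000 * u ^ 2 * M :=
          Nat.mul_le_mul_left _ (min_le_left _ _)
      _ ≤ e ^ 2 := by omega

end Pool.Agent.Work.MP_0421d9_ag
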