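import Pool.Agent.Work.MP_0421d9_ag.LThree

/-!
Raising the degree and one multiplicity by one keeps the conditions independent.
-/

namespace Pool.Agent.Work.MP_0421d9_ag.LD

open MvPolynomial Module

theorem coeff_scale (v : V3) (G : R3) (k : ℕ) :
    (aeval (fun i => Polynomial.C (v i) * Polynomial.X) G : Polynomial ℂ).coeff k =
      eval v (homogeneousComponent k G) := by
  induction G using MvPolynomial.induction_on' with
  | monomial α a =>
    have h1 : (aeval (fun i => Polynomial.C (v i) * Polynomial.X) (monomial α a) : Polynomial ℂ) =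
        Polynomial.C (a * ∏ i, v i ^ α i) * Polynomial.X ^ α.degree := by
      rw [aeval_monomial, Finsupp.prod_fintype _ _ (fun i => by rw [pow_zero])]
      have h2 : ∀ i, (Polynomial.C (v i) * Polynomial.X : Polynomial ℂ) ^ α i =
          Polynomial.C (v i ^ α i) * Polynomial.X ^ α i := fun i => by
        rw [mul_pow, Polynomial.C_pow]
      rw [Finset.prod_congr rfl (fun i _ => h2 i), Finset.prod_mul_distrib,
        Finset.prod_pow_eq_pow_sum, map_mul, map_prod, Finsupp.degree_eq_sum]
      rw [← mul_assoc]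
      rfl
    rw [h1, Polynomial.coeff_C_mul_X_pow]
    rw [homogeneousComponent_of_mem (n := α.degree)
      ((mem_homogeneousSubmodule _ _).mpr (isHomogeneous_monomial a rfl))]
    split_ifs with hk
    · rw [eval_monomial, Finsupp.prod_fintype _ _ (fun i => by rw [pow_zero])]
    · rw [map_zero]
  | add G H hG hH => rw [map_add, Polynomial.coeff_add, hG, hH, map_add, map_add]

theorem coeff_onLine (q v : V3) (F : R3) (k : ℕ) :
    (onLine q v F).coeff k = eval v (homogeneousComponent k (translate q F)) := by
  rw [← coeff_scale]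
  congr 1
  have h1 : onLine q v = (aeval (fun i => Polynomial.C (v i) * Polynomial.X) :
      R3 →ₐ[ℂ] Polynomial ℂ).comp (aeval (fun k => C (q k) + X k)) := by
    apply MvPolynomial.algHom_ext
    intro i
    unfold onLine
    rw [aeval_X, AlgHom.comp_apply, aeval_X, map_add, aeval_X, algHom_C,
      Polynomial.algebraMap_eq]
  rw [h1]
  rfl

theorem onLine_coeff_zero {q v : V3} {F : R3} {d k : ℕ} (hF : F.IsHomogeneous d) (hk : d < k) :
    (onLine q v F).coeff k = 0 := by
  apply Polynomial.coeff_eq_zero_of_natDegree_lt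
  refine lt_of_le_of_lt ?_ hk
  unfold onLine
  refine (MvPolynomial.aeval_natDegree_le F hF.totalDegree_le (n := 1) _ (fun i => ?_)).trans
    (by omega)
  refine (Polynomial.natDegree_add_le _ _).trans (max_le ?_ ?_)
  · rw [Polynomial.natDegree_C]
    exact Nat.zero_le _
  · exact (Polynomial.natDegree_C_mul_le _ _).trans Polynomial.natDegree_X_le

theorem generic_minor_ne {r : ℕ} {p : Fin r → V3} (hp : GenericPoints p) {i j : Fin r}
    (hij : j ≠ i) : p i 1 * p j 0 - p i 0 * p j 1 ≠ 0 := by
  intro h
  have h1 : (X (i, (1 : Fin 3)) * X (j, (0 : Fin 3)) - X (i, (0 : Fin 3)) * X (j, (1 : Fin 3)) :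
      MvPolynomial (Fin r × Fin 3) ℚ) = 0 := by
    apply AlgebraicIndependent.eq_zero_of_aeval_eq_zero hp
    simp only [map_sub, map_mul, aeval_X]
    exact h
  have h2 := congrArg (eval (fun z : Fin r × Fin 3 =>
    if z = (i, (1 : Fin 3)) ∨ z = (j, (0 : Fin 3)) then (1 : ℚ) else 0)) h1
  rw [map_sub, map_mul, map_mul, eval_X, eval_X, eval_X, eval_X, map_zero, if_pos (Or.inl rfl),
    if_pos (Or.inr rfl), if_neg] at h2
  · norm_num at h2
  · rintro (h3 | h3)
    · have h4 : (0 : Fin 3) = 1 := congrArg Prod.snd h3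
      exact absurd h4 (by decide)
    · have := congrArg Prod.fst h3
      exact hij this.symm

/-- **Raising the degree and one multiplicity.** -/
theorem hPm_raise_le {r D : ℕ} (y : Fin r → ℕ) (i : Fin r) (hi : y i ≤ D + 1) :
    hPm (D + 1) (Function.update y i (y i + 1)) ≤ hPm D y + (D + 1 - y i) := by
  classical
  have hp := gpt_generic r
  obtain ⟨p, hpdef⟩ : ∃ p, p = gpt r := ⟨_, rfl⟩
  rw [← hpdef] at hp
  rw [← hPm_eq hp, ← hPm_eq hp]
  set V := linSys (D + 1) p (Function.update y i (y i + 1)) with hV
  have hle : V ≤ Rd (D + 1) := fun F hF => hF.1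
  have hfin : Module.Finite ℂ V := Submodule.finiteDimensional_of_le hle
  have hle' : linSys D p y ≤ Rd D := fun F hF => hF.1
  have hfin' : Module.Finite ℂ (linSys D p y) := Submodule.finiteDimensional_of_le hle'
  -- the line through `p i` and `(0, 0, 1)`
  set w : V3 := ![p i 1, - p i 0, 0] with hw
  have hw0 : w 0 ≠ 0 := by
    rw [hw]
    exact generic_coord_ne hp i 1
  have hwne : w ≠ 0 := fun h => hw0 (by rw [h]; rfl)
  set v : V3 := ![-w 2, 0, w 0] with hv
  have hwi : eval (p i) (lin w) = 0 := by
    rw [eval_lin, Fin.sum_univ_three]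
    simp only [hw, Matrix.cons_val]
    ring
  have hwj : ∀ j, j ≠ i → eval (p j) (lin w) ≠ 0 := by
    intro j hj
    rw [eval_lin, Fin.sum_univ_three]
    have h1 := generic_minor_ne hp hj
    simp only [hw, Matrix.cons_val]
    intro h2
    apply h1
    linear_combination h2
  have hpi : (![-w 1, w 0, 0] : V3) = p i + (- (p i 2 / p i 1)) • v := by
    have h1 := generic_coord_ne hp i 1
    ext k
    rw [Pi.add_apply, Pi.smul_apply, smul_eq_mul]
    fin_cases k
    · simp only [hw, hv, Fin.zero_eta, Matrix.cons_val_zero, Matrix.cons_val]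
      ring
    · simp only [hw, hv, Fin.mk_one, Matrix.cons_val_one, Matrix.cons_val_zero, Matrix.cons_val]
      ring
    · simp only [hw, hv, Fin.reduceFinMk, Matrix.cons_val]
      field_simp
      ring
  let ρ : R3 →ₗ[ℂ] (Fin (D + 1 - y i) → ℂ) :=
    { toFun := fun F k => (onLine (p i) v F).coeff (y i + 1 + k)
      map_add' := fun F G => by
        funext z
        simp
      map_smul' := fun c F => by
        funext z
        simp }
  have h1 := finrank_eq_ker_add_map ρ V
  have h2 : finrank ℂ ↥(V.map ρ) ≤ D + 1 - y i := by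
    refine (Submodule.finrank_le _).trans ?_
    rw [finrank_fin_fun]
  have h3 : V ⊓ LinearMap.ker ρ ≤ (linSys D p y).map (LinearMap.mulLeft ℂ (lin w : R3)) := by
    rintro F ⟨hF, hF'⟩
    obtain ⟨h4, h5⟩ := hF
    have h7 := LinearMap.mem_ker.mp hF'
    have h8 : onLine (p i) v F = 0 := by
      ext k
      rw [Polynomial.coeff_zero]
      rcases Nat.lt_or_ge k (y i + 1) with hk | hk
      · have h9 := h5 i k (by rw [Function.update_self]; exact hk)
        rw [coeff_onLine, h9, map_zero]
      · rcases Nat.lt_or_ge (D + 1) k with hk' | hk'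
        · exact onLine_coeff_zero h4 hk'
        · have h9 := congrFun h7 ⟨k - (y i + 1), by omega⟩
          change (onLine (p i) v F).coeff (y i + 1 + (k - (y i + 1))) = 0 at h9
          rw [Nat.add_sub_cancel' hk] at h9
          exact h9
    have h9 : lin w ∣ F := by
      refine lin_dvd_of_onLine hw0 h4 ?_
      rw [hpi, ← hv, onLine_shift, h8, Polynomial.zero_comp]
    by_cases hF0 : F = 0
    · rw [hF0]
      exact Submodule.zero_mem _
    obtain ⟨e, G, he, hG, hFG⟩ := exists_factor h4 hF0 h9
    obtain rfl : D = e := by omega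
    refine Submodule.mem_map.mpr ⟨G, ⟨hG, fun j => ?_⟩, by rw [LinearMap.mulLeft_apply, hFG]⟩
    have h10 := h5 j
    rw [hFG] at h10
    by_cases hj : j = i
    · rw [hj] at h10 ⊢
      rw [Function.update_self] at h10
      exact vanishTo_of_mul_eq hwne h10 hwi
    · rw [Function.update_of_ne hj] at h10
      exact vanishTo_of_mul_ne h10 (hwj j hj)
  have h4 : finrank ℂ ↥(V ⊓ LinearMap.ker ρ) ≤ finrank ℂ (linSys D p y) :=
    (Submodule.finrank_mono h3).trans (Submodule.finrank_map_le _ _)
  rw [h1]
  exact Nat.add_le_add h4 h2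

end Pool.Agent.Work.MP_0421d9_ag.LD
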