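import Pool.Agent.Work.MP_0421d9_ag.LWinSm

/-!
Cremona-reduced systems: smoothness with an exempt set which imposes not too many conditions.
-/

namespace Pool.Agent.Work.MP_0421d9_ag

open MvPolynomial Module LD

theorem onB_onB_sub {r : ℕ} {B I : Finset (Fin r)} (h : B ⊆ I) (m : Fin r → ℕ) :
    onB B (onB I m) = onB B m := by
  funext i
  unfold onB
  by_cases hi : i ∈ B
  · rw [if_pos hi, if_pos (h hi), if_pos hi]
  · rw [if_neg hi, if_neg hi]

/-- the independence conditions for a larger set, by the window -/
theorem rg_larger {r u d : ℕ} {m : Fin r → ℕ} {B I : Finset (Fin r)} (hu : 1 ≤ u) (hBI : B ⊆ I)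
    (hmd : ∀ i, m i + 2 ≤ d) (hmu : ∀ i, i ∉ B → m i ≤ u) (hud : u * u ≤ d)
    (r0 : Rg (d - 1) (onB B m)) (ri : ∀ i ∈ B, Rg d (Function.update (onB B m) i (m i + 1)))
    (hroom : ∑ i ∈ I, (m i + 1).choose 2 + u * d ≤ (d + 1).choose 2) :
    Rg (d - 1) (onB I m) ∧ (∀ e, e ∉ I → 2 ≤ m e → Rg (d - 1) (withE I m e)) ∧
      ∀ i ∈ I, Rg d (Function.update (onB I m) i (m i + 1)) := by
  classical
  have huu : 1 * u ≤ u * u := Nat.mul_le_mul_right u hu
  obtain ⟨e, rfl⟩ : ∃ e, d = e + 1 := ⟨d - 1, by omega⟩
  rw [Nat.add_sub_cancel] at r0 ⊢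
  have e2 : (e + 1 + 1).choose 2 = (e + 2).choose 2 := rfl
  rw [e2] at hroom
  obtain ⟨v, rfl⟩ : ∃ v, u = v + 1 := ⟨u - 1, by omega⟩
  have e3 : (v + 1) * (e + 1) = v * e + v + e + 1 := by ring
  have e4 : (v + 1) * (v + 1) = v * v + 2 * v + 1 := by ring
  have hw : (e + 1 - 1) * (v + 1 - 1) = v * e := by
    rw [Nat.add_sub_cancel, Nat.add_sub_cancel]
    ring
  refine ⟨?_, fun l hl h2 => ?_, fun i hi => ?_⟩
  · refine kq_regular (M := e + 1) (u := v + 1) B (by omega) (fun i => ?_) (fun i hi => ?_) ?_ ?_
    · have := onB_le I m i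
      have := hmd i
      omega
    · exact (onB_le I m i).trans (hmu i hi)
    · rw [onB_onB_sub hBI]
      exact r0
    · rw [sum_onB, hw]
      omega
  · have hlB : l ∉ B := fun h => hl (hBI h)
    have hml := hmu l hlB
    have hle : ∀ i, withE I m l i ≤ m i := by
      intro i
      unfold withE
      split_ifs <;> omega
    refine kq_regular (M := e + 1) (u := v + 1) B (by omega) (fun i => ?_) (fun i hi => ?_) ?_ ?_
    · have := hle i
      have := hmd i
      omega
    · exact (hle i).trans (hmu i hi)
    · have h1 : onB B (withE I m l) = onB B m := by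
        funext i
        unfold onB withE
        by_cases hi : i ∈ B
        · rw [if_pos hi, if_pos hi, if_pos (hBI hi)]
        · rw [if_neg hi, if_neg hi]
      rw [h1]
      exact r0
    · rw [sum_withE I m hl (by omega), hw]
      have h3 : (m l).choose 2 ≤ (v + 1).choose 2 := Nat.choose_le_choose 2 hml
      have h4 : 2 * (v + 1).choose 2 = v * (v + 1) := tr_two_choose v
      have e5 : v * (v + 1) = v * v + v := by ring
      omega
  · have hsum : ∑ j, (Function.update (onB I m) i (m i + 1) j + 1).choose 2 =
        ∑ j ∈ I, (m j + 1).choose 2 + (m i + 1) := by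
      have h1 := sum_update_succ (onB I m) i
      have h2 : onB I m i = m i := if_pos hi
      rw [h2, sum_onB] at h1
      exact h1
    have hmi := hmd i
    have h3 : (e + 1 + 2).choose 2 = (e + 2) + (e + 2).choose 2 := by
      rw [Nat.choose_succ_succ' (e + 2) 1, Nat.choose_one_right]
    refine kq_regular (M := e + 1) (u := v + 1 + 1) B (by omega) (fun j => ?_) (fun j hj => ?_) ?_ ?_
    · by_cases hji : j = i
      · rw [hji, Function.update_self]
        omega
      · rw [Function.update_of_ne hji]
        have := onB_le I m j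
        have := hmd j
        omega
    · by_cases hji : j = i
      · rw [hji, Function.update_self]
        rw [hji] at hj
        have := hmu i hj
        omega
      · rw [Function.update_of_ne hji]
        have := onB_le I m j
        have := hmu j hj
        omega
    · by_cases hiB : i ∈ B
      · have h1 : onB B (Function.update (onB I m) i (m i + 1)) =
            Function.update (onB B m) i (m i + 1) := by
          funext j
          by_cases hji : j = i
          · rw [hji, Function.update_self]
            unfold onB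
            rw [if_pos hiB, Function.update_self]
          · rw [Function.update_of_ne hji]
            unfold onB
            by_cases hj : j ∈ B
            · rw [if_pos hj, if_pos hj, Function.update_of_ne hji, if_pos (hBI hj)]
            · rw [if_neg hj, if_neg hj]
        rw [h1]
        exact ri i hiB
      · have h1 : onB B (Function.update (onB I m) i (m i + 1)) = onB B m := by
          funext j
          unfold onB
          by_cases hj : j ∈ B
          · have hji : j ≠ i := fun h => hiB (h ▸ hj)
            rw [if_pos hj, if_pos hj, Function.update_of_ne hji, if_pos (hBI hj)]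
          · rw [if_neg hj, if_neg hj]
        rw [h1]
        exact r0.mono (Nat.le_succ e)
    · rw [hsum]
      have e6 : (e + 1 - 1) * (v + 1 + 1 - 1) = v * e + e := by
        rw [Nat.add_sub_cancel, Nat.add_sub_cancel]
        ring
      rw [e6]
      omega

/-- **Smoothness.** -/
theorem red_smooth2 {r u d : ℕ} (hu : 1 ≤ u) (p : Fin r → Fin 3 → ℂ) (hp : GenericPoints p)
    (m : Fin r → ℕ) {B I : Finset (Fin r)} (h : Red (u + 1) d m B) (hmu : ∀ i, i ∉ B → m i ≤ u)
    (hBI : B ⊆ I)
    (hJ : ∀ i, i ∉ I → 2 ≤ m i → m i < finrank ℂ (linSys d p m) +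
      (Finset.univ.filter (fun j => m j = 1)).card)
    (hroom : I = B ∨ ∑ i ∈ I, (m i + 1).choose 2 + u * d ≤ (d + 1).choose 2)
    (hne : linSys d p m ≠ ⊥) :
    (∃ F ∈ linSys d p m, Squarefree F) ∧
    (∀ s : Fin (finrank ℂ (linSys d p m) - 1) → Fin 3 → ℂ, GenericPoints (Sum.elim p s) →
      ∀ F ∈ linSys d p m, F ≠ 0 → (∀ k, eval (s k) F = 0) → SmoothOnBlowup p m F) ∧
    (∃ F ∈ linSys d p m, F ≠ 0 ∧ SmoothOnBlowup p m F) := by
  classical
  have t0 := h.t0
  have hcan := h.can
  have e1 : (u + 1 + 1) ^ 2 = u * u + 4 * u + 4 := by ring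
  rw [e1] at hcan
  have huu : 1 * u ≤ u * u := Nat.mul_le_mul_right u hu
  obtain ⟨b0, be, bi⟩ := B_nef_rg (d := d) hu (m := m) (B := B) h.sum hmu (by omega)
  have hns : ∀ i, i ∉ I → 2 ≤ m i →
      finrank ℂ (linSys d p (Function.update (dropSimple m) i (m i + 1))) = (d + 2).choose 2 -
        ∑ j, (Function.update (dropSimple m) i (m i + 1) j + 1).choose 2 := by
    intro i hi hmi
    have hiB : i ∉ B := fun h' => hi (hBI h')
    refine red_nbr hp h (fun j hj => ?_) (fun j hj => ?_)
    · by_cases hij : j = i
      · rw [hij, Function.update_self]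
        have := hmu i hiB
        omega
      · rw [Function.update_of_ne hij]
        exact (dropSimple_le m j).trans ((hmu j hj).trans (Nat.le_succ u))
    · have hji : j ≠ i := fun h' => hiB (h' ▸ hj)
      rw [Function.update_of_ne hji]
      exact dropSimple_le m j
  have hm := red_nbr hp h (fun i hi => (hmu i hi).trans (Nat.le_succ u)) (fun i _ => le_rfl)
  have h0 := red_nbr (m' := dropSimple m) hp h
    (fun i hi => (dropSimple_le m i).trans ((hmu i hi).trans (Nat.le_succ u)))
    (fun i _ => dropSimple_le m i)
  rcases hroom with hIB | hroom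
  · subst hIB
    exact smooth_rg p hp m (by omega) hm h0 hns hJ hne b0 (fun e he _ => be e he)
      (fun i hi _ => bi i hi)
  · obtain ⟨c0, ce, ci⟩ := rg_larger hu hBI (fun i => by
      have := h.t1 i
      omega) hmu (by omega) b0 bi hroom
    exact smooth_rg p hp m (by omega) hm h0 hns hJ hne c0 ce (fun i hi _ => ci i hi)

/-- one point -/
theorem rg_one {r D : ℕ} {m : Fin r → ℕ} {e : Fin r} (h : m e ≤ D + 1) : Rg D (withE ∅ m e) := by
  classical
  have h1 : withE ∅ m e = onB {e} (fun i => m i - 1) := by
    funext i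
    unfold withE onB
    rw [if_neg (Finset.notMem_empty i)]
    by_cases hi : i = e
    · rw [if_pos hi, if_pos (Finset.mem_singleton.mpr hi)]
    · rw [if_neg hi, if_neg (fun h => hi (Finset.mem_singleton.mp h))]
  rw [h1]
  refine indep_small (by rw [Finset.card_singleton]; omega) (fun J hJ _ => ?_)
  rcases Finset.subset_singleton_iff.mp hJ with hJ | hJ
  · rw [hJ, Finset.sum_empty]
    exact Nat.zero_le _
  · rw [hJ, Finset.sum_singleton]
    omega

end Pool.Agent.Work.MP_0421d9_ag
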