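import Pool.Agent.Work.MP_0421d9_ag.LGen
import Pool.Agent.Work.MP_0421d9_ag.LSmooth

/-!
Smoothness of the general member, in terms of independent conditions.
-/

namespace Pool.Agent.Work.MP_0421d9_ag

open MvPolynomial Module LD

/-- the points in `I`, and the point `e` with its multiplicity lowered by one -/
def withE {r : ℕ} (I : Finset (Fin r)) (m : Fin r → ℕ) (e : Fin r) : Fin r → ℕ :=
  fun i => if i ∈ I then m i else if i = e then m i - 1 else 0

theorem sum_withE {r : ℕ} (I : Finset (Fin r)) (m : Fin r → ℕ) {e : Fin r} (he : e ∉ I)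
    (h2 : 1 ≤ m e) : ∑ i, (withE I m e i + 1).choose 2 =
      ∑ i ∈ I, (m i + 1).choose 2 + (m e).choose 2 := by
  classical
  unfold withE
  rw [← Finset.sum_add_sum_compl I]
  congr 1
  · exact Finset.sum_congr rfl (fun i hi => by rw [if_pos hi])
  · rw [Finset.sum_eq_single e]
    · rw [if_neg he, if_pos rfl, Nat.sub_add_cancel (by omega)]
    · intro i hi hie
      rw [if_neg (Finset.mem_compl.mp hi), if_neg hie]
      rfl
    · intro h3
      exact absurd (Finset.mem_compl.mpr he) h3

/-- smoothness from independent conditions -/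
theorem smooth_rg {r d : ℕ} (p : Fin r → Fin 3 → ℂ) (hp : GenericPoints p)
    (m : Fin r → ℕ) {I : Finset (Fin r)} (hd : 1 ≤ d)
    (hm : finrank ℂ (linSys d p m) = (d + 2).choose 2 - ∑ j, (m j + 1).choose 2)
    (h0 : finrank ℂ (linSys d p (dropSimple m)) =
      (d + 2).choose 2 - ∑ j, (dropSimple m j + 1).choose 2)
    (h1 : ∀ i, i ∉ I → 2 ≤ m i →
      finrank ℂ (linSys d p (Function.update (dropSimple m) i (m i + 1))) =
      (d + 2).choose 2 - ∑ j, (Function.update (dropSimple m) i (m i + 1) j + 1).choose 2)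
    (hJ : ∀ i, i ∉ I → 2 ≤ m i → m i < finrank ℂ (linSys d p m) +
      (Finset.univ.filter (fun j => m j = 1)).card)
    (hne : linSys d p m ≠ ⊥) (r0 : Rg (d - 1) (onB I m))
    (re : ∀ e, e ∉ I → 2 ≤ m e → Rg (d - 1) (withE I m e))
    (ri : ∀ i ∈ I, 2 ≤ m i → Rg d (Function.update (onB I m) i (m i + 1))) :
    (∃ F ∈ linSys d p m, Squarefree F) ∧
    (∀ s : Fin (finrank ℂ (linSys d p m) - 1) → Fin 3 → ℂ, GenericPoints (Sum.elim p s) →
      ∀ F ∈ linSys d p m, F ≠ 0 → (∀ k, eval (s k) F = 0) → SmoothOnBlowup p m F) ∧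
    (∃ F ∈ linSys d p m, F ≠ 0 ∧ SmoothOnBlowup p m F) := by
  classical
  have hpos : finrank ℂ (linSys d p m) ≠ 0 := by
    intro h2
    exact hne (Submodule.finrank_eq_zero.mp h2)
  have hsum := SM.sum_dropSimple m
  have hcomp : ∀ i ∉ I, 2 ≤ m i → finrank ℂ (linSys d p (dropSimple m)) =
      finrank ℂ (linSys d p (Function.update (dropSimple m) i (m i + 1))) + (m i + 1) := by
    intro i hi hmi
    have hyi : dropSimple m i = m i := by
      unfold dropSimple
      rw [if_neg (by omega)]
    have h2 := sum_update_succ (dropSimple m) i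
    rw [hyi] at h2
    have h5 := hJ i hi hmi
    rw [h0, h1 i hi hmi, h2]
    omega
  have hd2 : d - 1 + 2 = d + 1 := by omega
  refine rel_final p hp m I hd (by omega) hne ?_ (fun e he h2 => ?_) (fun i hi h2 => ?_)
    (fun i hi h3 => hcomp i hi (by omega)) (Or.inr fun i hi h2 => hcomp i hi (by omega))
  · unfold Rg at r0
    rw [sum_onB, hd2, ← hPm_eq hp] at r0
    exact r0
  · have k1 := re e he h2
    unfold Rg at k1
    rw [sum_withE I m he (by omega), hd2, ← hPm_eq hp] at k1
    exact k1
  · have k1 := ri i hi h2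
    have hi' : onB I m i = m i := if_pos hi
    have g1 : Function.update (onB I m) i (m i + 1) =
        fun j => if j ∈ I then (if j = i then m i + 1 else m j) else 0 := by
      funext j
      by_cases hj : j = i
      · rw [hj, Function.update_self, if_pos hi, if_pos rfl]
      · rw [Function.update_of_ne hj, if_neg hj]
        rfl
    have g2 : ∑ j, (Function.update (onB I m) i (m i + 1) j + 1).choose 2 =
        ∑ j ∈ I, (m j + 1).choose 2 + (m i + 1) := by
      have e2 := sum_update_succ (onB I m) i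
      rw [hi', sum_onB] at e2
      exact e2
    unfold Rg at k1
    rw [g2, g1, ← hPm_eq hp] at k1
    exact k1

/-- the class of the points in `B` of a reduced class with room for the canonical class -/
theorem B_nef_rg {r d u : ℕ} (hu : 1 ≤ u) {m : Fin r → ℕ} {B : Finset (Fin r)}
    (h3 : ∀ J ⊆ B, J.card ≤ 3 → ∑ i ∈ J, m i + (3 - J.card) * (u + 1) ≤ d)
    (hmu : ∀ i, i ∉ B → m i ≤ u) (hK : ∑ i ∈ B, m i + u + 18 ≤ 3 * d) :
    Rg (d - 1) (onB B m) ∧ (∀ e, e ∉ B → Rg (d - 1) (withE B m e)) ∧
      ∀ i ∈ B, Rg d (Function.update (onB B m) i (m i + 1)) := by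
  classical
  have hany : ∀ J : Finset (Fin r), J.card ≤ 3 → ∑ i ∈ J, m i + (3 - J.card) * (u + 1) ≤ d := by
    intro J hJ
    have h1 := h3 (J.filter (fun i => i ∈ B)) (fun i hi => (Finset.mem_filter.mp hi).2)
      ((Finset.card_filter_le _ _).trans hJ)
    have h2 := Finset.sum_filter_add_sum_filter_not J (fun i => i ∈ B) m
    have h4 := Finset.card_filter_add_card_filter_not (s := J) (fun i => i ∈ B)
    have h5 : ∑ i ∈ J.filter (fun i => ¬ i ∈ B), m i ≤
        (J.filter (fun i => ¬ i ∈ B)).card * (u + 1) := by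
      rw [← smul_eq_mul]
      exact Finset.sum_le_card_nsmul _ _ _ (fun i hi =>
        (hmu i (Finset.mem_filter.mp hi).2).trans (Nat.le_succ u))
    obtain ⟨x, hx⟩ : ∃ x, x = (J.filter (fun i => i ∈ B)).card := ⟨_, rfl⟩
    obtain ⟨y, hy⟩ : ∃ y, y = (J.filter (fun i => ¬ i ∈ B)).card := ⟨_, rfl⟩
    rw [← hx] at h1
    rw [← hy] at h5
    have h6 : x + y = J.card := by
      rw [hx, hy]
      exact h4
    have h7 : 3 - x = y + (3 - J.card) := by omega
    have h8 : (3 - x) * (u + 1) = y * (u + 1) + (3 - J.card) * (u + 1) := by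
      rw [h7]
      ring
    omega
  have c1 : ∀ i, m i + 2 ≤ d := fun i => by
    have h1 := hany {i} (by rw [Finset.card_singleton]; omega)
    rw [Finset.sum_singleton, Finset.card_singleton] at h1
    omega
  have c2 : ∀ i j, i ≠ j → m i + m j + 2 ≤ d := fun i j hij => by
    have h1 := hany {i, j} (by rw [Finset.card_pair hij]; omega)
    rw [Finset.sum_pair hij, Finset.card_pair hij] at h1
    omega
  have c3 : ∀ i j k, i ≠ j → i ≠ k → j ≠ k → m i + m j + m k ≤ d := fun i j k hij hik hjk => by
    have hc : ({i, j, k} : Finset (Fin r)).card = 3 :=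
      Finset.card_eq_three.mpr ⟨i, j, k, hij, hik, hjk, rfl⟩
    have h1 := hany {i, j, k} (by rw [hc])
    rw [Finset.sum_insert, Finset.sum_pair hjk, hc] at h1
    · omega
    · rw [Finset.mem_insert, Finset.mem_singleton, not_or]
      exact ⟨hij, hik⟩
  have key : ∀ a : Fin r → ℕ, (∀ i, a i ≤ m i) → ∑ i, a i + 18 ≤ 3 * d →
      Rg (d - 1) a ∧ ∀ i, Rg d (Function.update a i (a i + 1)) := by
    intro a hle hs
    exact B_nef (d := d) (a := a) (fun i => (Nat.add_le_add_right (hle i) 2).trans (c1 i))
      (fun i j hij => by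
        have := c2 i j hij
        have := hle i
        have := hle j
        omega)
      (fun i j k a b c => by
        have := c3 i j k a b c
        have := hle i
        have := hle j
        have := hle k
        omega) hs
  obtain ⟨n1, n2⟩ := key (onB B m) (onB_le B m) (by rw [sum_onB_id]; omega)
  refine ⟨n1, fun e he => (key (withE B m e) (fun i => ?_) ?_).1, fun i hi => ?_⟩
  · unfold withE
    split_ifs <;> omega
  · have h1 : ∑ i, withE B m e i = ∑ i ∈ B, m i + (m e - 1) := by
      unfold withE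
      rw [← Finset.sum_add_sum_compl B]
      congr 1
      · exact Finset.sum_congr rfl (fun i hi => by rw [if_pos hi])
      · rw [Finset.sum_eq_single e]
        · rw [if_neg he, if_pos rfl]
        · intro i hi hie
          rw [if_neg (Finset.mem_compl.mp hi), if_neg hie]
        · intro h3
          exact absurd (Finset.mem_compl.mpr he) h3
    rw [h1]
    have := hmu e he
    omega
  · have h1 := n2 i
    have h2 : onB B m i = m i := if_pos hi
    rw [h2] at h1
    exact h1

end Pool.Agent.Work.MP_0421d9_ag
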