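import Pool.Agent.Work.MP_0421d9_ag.LFar

/-!
Three scales of multiplicities: any number of points of arbitrary multiplicities, points of
multiplicity at most `k`, and points of multiplicity at most `u`.
-/

namespace Pool.Agent.Work.MP_0421d9_ag.LD

open MvPolynomial Module

/-- the points in `B` and those of multiplicity greater than `u` -/
def BU {r : ℕ} (B : Finset (Fin r)) (u : ℕ) (m : Fin r → ℕ) : Finset (Fin r) :=
  Finset.univ.filter (fun i => i ∈ B ∨ u < m i)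

theorem onB_onB_of_sub {r : ℕ} {B B' : Finset (Fin r)} (h : B ⊆ B') (m : Fin r → ℕ) :
    onB B (onB B' m) = onB B m := by
  funext i
  unfold onB
  by_cases hi : i ∈ B
  · rw [if_pos hi, if_pos (h hi), if_pos hi]
  · rw [if_neg hi, if_neg hi]

/-- the numbers -/
theorem three_num {u k M d g q : ℕ} (hu : 1 ≤ u) (hMd : M ≤ d)
    (hd : 30 * (u + 1) ^ 2 ≤ d) (hg : g = (d - 4 * (u + 1) ^ 2 + 1 - u - (u + 1).choose 2) / 2)
    (hq : q = (M - 1) * (u - 1) / g) {N : ℕ}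
    (hN : N + ((k + 4 * u ^ 2 + u) * M + 2 * (u + 1) * d) ≤ (d + 2).choose 2) :
    d ≤ 4 * g ∧ (u + 1) * (q + 1) ≤ 4 * (u + 1) ^ 2 ∧
    2 * N + 2 * ((M - 1) * (k - 1)) + 2 * ((M - 1) * (u - 1)) +
      (2 * u + 1) * (d - (u + 1) * (q + 1) + 1) ≤
      (d - (u + 1) * (q + 1) + 2) * (d - (u + 1) * (q + 1) + 1) := by
  have e0 : (u + 1) ^ 2 = u * u + 2 * u + 1 := by ring
  have hc2 : 2 * (u + 1).choose 2 = u * (u + 1) := tr_two_choose u
  have e2 : u * (u + 1) = u * u + u := by ring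
  have huu : 1 * u ≤ u * u := Nat.mul_le_mul_right u hu
  have e9 : u ^ 2 = u * u := sq u
  rw [e9] at hN
  rw [e0] at hd hg ⊢
  have hg4 : d ≤ 4 * g := by omega
  have hg0 : 0 < g := by omega
  have hgq : g * q ≤ (M - 1) * (u - 1) := by
    rw [hq]
    exact Nat.mul_div_le _ _
  have hdq : d * q ≤ 4 * ((M - 1) * (u - 1)) := by
    calc d * q ≤ (4 * g) * q := Nat.mul_le_mul_right q hg4
      _ = 4 * (g * q) := by ring
      _ ≤ 4 * ((M - 1) * (u - 1)) := Nat.mul_le_mul_left 4 hgq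
  have hd0 : 0 < d := by omega
  have hq4 : q ≤ 4 * (u - 1) := by
    have h1 : d * q ≤ d * (4 * (u - 1)) := by
      calc d * q ≤ 4 * ((M - 1) * (u - 1)) := hdq
        _ ≤ 4 * (d * (u - 1)) := Nat.mul_le_mul_left 4 (Nat.mul_le_mul_right _ (by omega))
        _ = d * (4 * (u - 1)) := by ring
    exact Nat.le_of_mul_le_mul_left h1 hd0
  obtain ⟨v, rfl⟩ : ∃ v, u = v + 1 := ⟨u - 1, by omega⟩
  rw [Nat.add_sub_cancel] at hq4 hdq ⊢
  obtain ⟨s, hs⟩ : ∃ s, s = (v + 1 + 1) * (q + 1) := ⟨_, rfl⟩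
  have hs1 : s ≤ (v + 1 + 1) * (4 * v + 1) := by
    rw [hs]
    exact Nat.mul_le_mul_left _ (by omega)
  have e3 : (v + 1 + 1) * (4 * v + 1) = 4 * (v * v) + 9 * v + 2 := by ring
  have e4 : (v + 1) * (v + 1) = v * v + 2 * v + 1 := by ring
  rw [← hs]
  rw [e3] at hs1
  rw [e4] at hd hN ⊢
  have hst : s ≤ 4 * (v * v + 2 * v + 1 + 2 * (v + 1) + 1) := by omega
  refine ⟨hg4, hst, ?_⟩
  obtain ⟨D, hD⟩ : ∃ D, d = D + s := ⟨d - s, by omega⟩
  have e5 : d - s = D := by omega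
  rw [e5]
  have h1 := tr_two_choose (d + 1)
  have e6 : d + 1 + 1 = d + 2 := rfl
  rw [e6] at h1
  -- the product
  have hds : d * s ≤ (v + 2) * (4 * ((M - 1) * v)) + (v + 2) * d := by
    calc d * s = (v + 2) * (d * q) + (v + 2) * d := by rw [hs]; ring
      _ ≤ (v + 2) * (4 * ((M - 1) * v)) + (v + 2) * d :=
        Nat.add_le_add_right (Nat.mul_le_mul_left _ hdq) _
  have e7 : (d + 1) * (d + 2) ≤ (D + 2) * (D + 1) + 2 * (d * s) + 3 * s := by
    rw [hD]
    have e8 : (D + s + 1) * (D + s + 2) + s * s =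
      (D + 2) * (D + 1) + 2 * ((D + s) * s) + 3 * s := by ring
    have := Nat.zero_le (s * s)
    omega
  obtain ⟨P, hP⟩ : ∃ P, P = M - 1 := ⟨_, rfl⟩
  have hPM : P ≤ M := by omega
  rw [← hP] at hds ⊢
  have k1 : P * (k - 1) ≤ k * M := by
    calc P * (k - 1) ≤ M * k := Nat.mul_le_mul hPM (Nat.sub_le _ _)
      _ = k * M := Nat.mul_comm _ _
  have k2 : P * v ≤ v * M := by
    calc P * v ≤ M * v := Nat.mul_le_mul_right v hPM
      _ = v * M := Nat.mul_comm _ _
  have k3 : v * (P * v) ≤ v * v * M := by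
    calc v * (P * v) ≤ v * (v * M) := Nat.mul_le_mul_left v k2
      _ = v * v * M := by ring
  have k4 : (v + 2) * (4 * (P * v)) = 4 * (v * (P * v)) + 8 * (P * v) := by ring
  rw [k4] at hds
  have k5 : (k + 4 * (v * v + 2 * v + 1) + (v + 1)) * M +
      2 * (v + 1 + 1) * d = k * M + 4 * (v * v * M) + 9 * (v * M) + 5 * M +
      2 * (v * d) + 4 * d := by ring
  rw [k5] at hN
  have k6 : (v + 2) * d = v * d + 2 * d := by ring
  rw [k6] at hds
  have k7 : (2 * (v + 1) + 1) * (D + 1) ≤ 2 * (v * d) + 3 * d + 2 * v + 3 := by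
    calc (2 * (v + 1) + 1) * (D + 1) ≤ (2 * (v + 1) + 1) * (d + 1) :=
          Nat.mul_le_mul_left _ (by omega)
      _ = 2 * (v * d) + 3 * d + 2 * v + 3 := by ring
  omega

theorem hPm_anti_of_le {r D : ℕ} {m m' : Fin r → ℕ} (h : ∀ i, m' i ≤ m i) :
    hPm D m ≤ hPm D m' := by
  unfold hPm
  have hfin : Module.Finite ℂ (linSys D (gpt r) m') :=
    Submodule.finiteDimensional_of_le (linSys_le D _ _)
  exact Submodule.finrank_mono (fun F hF => ⟨hF.1, fun i => (hF.2 i).mono (h i)⟩)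

/-- a subset of the middle points which leaves little room -/
theorem exists_maximal_subset {ι : Type} [DecidableEq ι] (C : Finset ι) (w : ι → ℕ) {a X K : ℕ}
    (hw : ∀ i ∈ C, w i ≤ K) (h0 : a ≤ X) (h1 : X < a + ∑ i ∈ C, w i) :
    ∃ C' ⊆ C, a + ∑ i ∈ C', w i ≤ X ∧ X < a + ∑ i ∈ C', w i + K := by
  induction C using Finset.induction_on with
  | empty =>
    rw [Finset.sum_empty] at h1
    omega
  | insert i C hi ih =>
    rw [Finset.sum_insert hi] at h1
    rcases Nat.lt_or_ge X (a + ∑ i ∈ C, w i) with h | h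
    · obtain ⟨C', g1, g2, g3⟩ := ih (fun j hj => hw j (Finset.mem_insert_of_mem hj)) h
      exact ⟨C', g1.trans (Finset.subset_insert i C), g2, g3⟩
    · have := hw i (Finset.mem_insert_self i C)
      exact ⟨C, Finset.subset_insert i C, h, by omega⟩

end Pool.Agent.Work.MP_0421d9_ag.LD
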