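import Pool.Agent.Work.MP_0421d9_ag.LSmRg
import Pool.Agent.Work.MP_0421d9_ag.LApt

/-!
Smoothness of the general member above the square root window.
-/

namespace Pool.Agent.Work.MP_0421d9_ag

open MvPolynomial Module LD

/-- adding simple points to a regular system -/
theorem ns_simple {r d : ℕ} {m b : Fin r → ℕ} (hb : Rg d b) (hbm : ∀ i, b i ≤ m i)
    (h1 : ∀ i, b i < m i → m i ≤ 1) :
    hPm d m = (d + 2).choose 2 - ∑ i, (m i + 1).choose 2 := by
  classical
  obtain ⟨E, hE⟩ := exists_dual (gpt r) (gpt_generic r)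
  have h2 := linSys_count (d := d) (gpt r) m
  change _ ≤ hPm d m + _ at h2
  by_cases hpos : hPm d m = 0
  · omega
  · by_contra hcon
    obtain ⟨i, j, hi, -, hX⟩ := special_bound_above (d := d) hE hb hbm (m := m)
      (Nat.pos_of_ne_zero hpos) (by
        change _ < hPm d m + _
        omega)
    have h3 := h1 i hi
    have h4 : m i - 1 = 0 := by omega
    rw [h4, Nat.zero_mul] at hX
    exact hpos (Nat.le_zero.mp hX)

/-- raising one multiplicity, above the window -/
theorem ns_raise {r d M u : ℕ} {y b : Fin r → ℕ} (hb : Rg d b) (hby : ∀ j, b j ≤ y j) {i : Fin r}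
    (hi : b i < y i) (hyi : y i ≤ u + 1) (hu : 1 ≤ u) (huM : u ≤ M)
    (hM : ∀ j, j ≠ i → y j ≤ M) (hms : ∀ j, j ≠ i → b j < y j → y j ≤ u)
    (h : ∑ j, (y j + 1).choose 2 + u * (M - 1) ≤ (d + 2).choose 2) :
    hPm d y = (d + 2).choose 2 - ∑ j, (y j + 1).choose 2 := by
  classical
  obtain ⟨E, hE⟩ := exists_dual (gpt r) (gpt_generic r)
  have h2 := linSys_count (d := d) (gpt r) y
  change _ ≤ hPm d y + _ at h2
  by_cases hpos : hPm d y = 0
  · omega
  · by_contra hcon
    obtain ⟨a, c, ha, hac, hX⟩ := special_bound_above (d := d) hE hb hby (m := y)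
      (Nat.pos_of_ne_zero hpos) (by
        change _ < hPm d y + _
        omega)
    change hPm d y ≤ _ at hX
    have h3 : (y a - 1) * (y c - 1) ≤ u * (M - 1) := by
      obtain ⟨v, rfl⟩ : ∃ v, u = v + 1 := ⟨u - 1, by omega⟩
      obtain ⟨K, rfl⟩ : ∃ K, M = K + 1 := ⟨M - 1, by omega⟩
      have h5 : v * (K + 1) ≤ (v + 1) * K := by
        have e1 : v * (K + 1) = v * K + v := by ring
        have e2 : (v + 1) * K = v * K + K := by ring
        omega
      rw [Nat.add_sub_cancel]
      by_cases hai : a = i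
      · subst hai
        have h4 := hM c (fun h => hac h.symm)
        exact Nat.mul_le_mul (by omega) (by omega)
      · have h4 := hms a hai ha
        have h6 : y c ≤ K + 1 + 1 := by
          by_cases hci : c = i
          · rw [hci]
            omega
          · have := hM c hci
            omega
        exact (Nat.mul_le_mul (by omega : y a - 1 ≤ v) (by omega : y c - 1 ≤ K + 1)).trans h5
    omega

/-- **Smoothness above the window.** -/
theorem window_smooth {r d M u : ℕ} (p : Fin r → Fin 3 → ℂ) (hp : GenericPoints p)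
    (m : Fin r → ℕ) {B : Finset (Fin r)} (hu : 1 ≤ u) (huM : u ≤ M) (hM : ∀ i, m i ≤ M)
    (hms : ∀ i, i ∉ B → m i ≤ u)
    (hχ : ∑ i, (m i + 1).choose 2 + u * M + 1 ≤
      (d + 2).choose 2 + (Finset.univ.filter (fun j => m j = 1)).card)
    (r0 : Rg (d - 1) (onB B m)) (re : ∀ e, e ∉ B → 2 ≤ m e → Rg (d - 1) (withE B m e))
    (ri : ∀ i ∈ B, 2 ≤ m i → Rg d (Function.update (onB B m) i (m i + 1))) :
    finrank ℂ (linSys d p m) = (d + 2).choose 2 - ∑ j, (m j + 1).choose 2 ∧
    (linSys d p m ≠ ⊥ →
    (∃ F ∈ linSys d p m, Squarefree F) ∧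
    (∀ s : Fin (finrank ℂ (linSys d p m) - 1) → Fin 3 → ℂ, GenericPoints (Sum.elim p s) →
      ∀ F ∈ linSys d p m, F ≠ 0 → (∀ k, eval (s k) F = 0) → SmoothOnBlowup p m F) ∧
    (∃ F ∈ linSys d p m, F ≠ 0 ∧ SmoothOnBlowup p m F)) := by
  classical
  have hsum := SM.sum_dropSimple m
  have hdle := dropSimple_le m
  have hrB : Rg d (onB B m) := r0.mono (Nat.sub_le _ _)
  have hrD : Rg d (onB B (dropSimple m)) := hrB.of_le (fun i => by
    unfold onB
    split_ifs
    · exact hdle i
    · exact le_rfl)
  obtain ⟨s, hs⟩ : ∃ s, s = (Finset.univ.filter (fun j => m j = 1)).card := ⟨_, rfl⟩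
  rw [← hs] at hχ hsum
  have huM' : (M - 1) * (u - 1) ≤ u * M := by
    calc (M - 1) * (u - 1) ≤ M * u := Nat.mul_le_mul (Nat.sub_le _ _) (Nat.sub_le _ _)
      _ = u * M := Nat.mul_comm _ _
  have hregD : Rg d (dropSimple m) := by
    refine kq_regular (M := M) (u := u) B huM (fun i => (hdle i).trans (hM i))
      (fun i hi => (hdle i).trans (hms i hi)) hrD ?_
    omega
  have hNS : hPm d m = (d + 2).choose 2 - ∑ j, (m j + 1).choose 2 :=
    ns_simple hregD hdle (fun i hi => by
      unfold dropSimple at hi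
      split_ifs at hi with h
      · omega
      · omega)
  have hNS' : finrank ℂ (linSys d p m) = (d + 2).choose 2 - ∑ j, (m j + 1).choose 2 := by
    rw [hPm_eq hp]
    exact hNS
  refine ⟨hNS', fun hne => ?_⟩
  have hpos : finrank ℂ (linSys d p m) ≠ 0 := by
    intro h2
    exact hne (Submodule.finrank_eq_zero.mp h2)
  obtain ⟨f₁, hf₁, hf₁0⟩ := Submodule.exists_mem_ne_zero_of_ne_bot hne
  have hmd : ∀ i, m i ≤ d := fun i => le_of_vanishTo hf₁.1 hf₁0 (hf₁.2 i)
  have hregD' := hregD
  unfold Rg at hregD'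
  by_cases hd : d = 0
  · -- degree zero
    subst hd
    exfalso
    have h1 : ∀ i, m i = 0 := fun i => Nat.le_zero.mp (hmd i)
    have h2 : s = 0 := by
      rw [hs, Finset.card_eq_zero, Finset.filter_eq_empty_iff]
      intro i _ h3
      rw [h1 i] at h3
      omega
    have h3 : 1 * 1 ≤ u * M := Nat.mul_le_mul hu (by omega)
    have h4 : (0 + 2).choose 2 = 1 := rfl
    omega
  refine smooth_rg p hp m (I := B) (by omega) hNS' ?_ (fun i hi hmi => ?_) (fun i hi hmi => ?_)
    hne r0 re ri
  · rw [hPm_eq hp]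
    omega
  · rw [hPm_eq hp]
    have h2 := sum_update_succ (dropSimple m) i
    have hyi : dropSimple m i = m i := by
      unfold dropSimple
      rw [if_neg (by omega)]
    rw [hyi] at h2
    have hmu := hms i hi
    refine ns_raise (M := M) (u := u) (b := onB B (dropSimple m)) (i := i) hrD (fun j => ?_) ?_ ?_
      hu huM (fun j hj => ?_) (fun j hj hj' => ?_) ?_
    · by_cases hj : j = i
      · rw [hj, Function.update_self]
        have : onB B (dropSimple m) i = 0 := if_neg hi
        omega
      · rw [Function.update_of_ne hj]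
        exact onB_le _ _ _
    · rw [Function.update_self]
      have : onB B (dropSimple m) i = 0 := if_neg hi
      omega
    · rw [Function.update_self]
      omega
    · rw [Function.update_of_ne hj]
      exact (hdle j).trans (hM j)
    · rw [Function.update_of_ne hj] at hj' ⊢
      have hjB : j ∉ B := by
        intro h
        have h5 : onB B (dropSimple m) j = dropSimple m j := if_pos h
        omega
      exact (hdle j).trans (hms j hjB)
    · rw [h2]
      obtain ⟨K, rfl⟩ : ∃ K, M = K + 1 := ⟨M - 1, by omega⟩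
      rw [Nat.add_sub_cancel]
      have e1 : u * (K + 1) = u * K + u := by ring
      omega
  · have hmu := hms i hi
    have h3 : u * 1 ≤ u * M := Nat.mul_le_mul_left u (by omega)
    rw [← hs]
    omega

end Pool.Agent.Work.MP_0421d9_ag
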