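import Pool.Agent.Work.MP_0421d9_ag.SFinal

/-!
Planar linear systems with general base points of multiplicities at most `M`, in large degree:
all of them are empty or nonspecial in degrees at least `3 M ^ 2`, and the general member of every
nonempty one is reduced and smooth on the blow-up in degrees at least `3 (M + 2) ^ 2 + M`. For
systems with sufficiently many base points this covers all the degrees.
-/

namespace Pool.Agent.Work.MP_0421d9_ag.LargeDegreeSmoothOld

open MvPolynomial Module Pool.Agent.Work.MP_0421d9_ag

/-- Let `p i` be generic points of the plane, let `m i ≤ M`, and let `L` be the system of the plane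
curves of degree `d` with multiplicity at least `m i` at `p i`.

* If `d ≥ 3 M ^ 2`, then `L` is nonspecial: the space of its equations has the dimension
  `(d + 2).choose 2 - ∑ (m i + 1).choose 2`, or `0` if this number is negative. If the number
  `∑ (m i + 1).choose 2` of conditions is at least `(3 M ^ 2 + 1).choose 2 + (M + 1).choose 3`,
  then the same is true in all degrees.
* If `d ≥ 3 (M + 2) ^ 2 + M`, or if the number of conditions is at least
  `(3 (M + 2) ^ 2 + M + 1).choose 2 + (M + 1).choose 3`, and if `L` is nonempty, then `L` has a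
  reduced member, and its general member is a smooth curve on the blow-up, which meets all the
  exceptional curves transversally. More precisely, this holds for all the members through
  `dim L` further generic points. -/
theorem result {r d M : ℕ} (p : Fin r → Fin 3 → ℂ) (hp : GenericPoints p) (m : Fin r → ℕ)
    (hM : ∀ i, m i ≤ M) :
    (3 * M ^ 2 ≤ d ∨
        (3 * M ^ 2 + 1).choose 2 + (M + 1).choose 3 ≤ ∑ i, (m i + 1).choose 2 →
      finrank ℂ (linSys d p m) = (d + 2).choose 2 - ∑ i, (m i + 1).choose 2) ∧
    (3 * (M + 2) ^ 2 + M ≤ d ∨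
        (3 * (M + 2) ^ 2 + M + 1).choose 2 + (M + 1).choose 3 ≤ ∑ i, (m i + 1).choose 2 →
      linSys d p m ≠ ⊥ →
      (∃ F ∈ linSys d p m, Squarefree F) ∧
      (∀ s : Fin (finrank ℂ (linSys d p m) - 1) → Fin 3 → ℂ, GenericPoints (Sum.elim p s) →
        ∀ F ∈ linSys d p m, F ≠ 0 → (∀ k, eval (s k) F = 0) → SmoothOnBlowup p m F) ∧
      (∃ F ∈ linSys d p m, F ≠ 0 ∧ SmoothOnBlowup p m F)) :=
  ⟨fun h => h.elim (fun hd => LD.main hp hM hd) (fun h => nonspecial_of_many hp hM h),
    fun hd hne => by
      obtain ⟨h1, -, h3, h4⟩ := SM.main_all p hp m hM hd hne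
      exact ⟨h1, h3, h4⟩⟩

end Pool.Agent.Work.MP_0421d9_ag.LargeDegreeSmoothOld
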