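import Pool.Agent.Work.MP_0421d9_ag.UDefs

/-!
Forms with prescribed monomials and with assigned multiplicities, a family of multiplicities
(helper25, after UDefs of helper79).
-/

namespace Pool.Agent.Work.MP_0421d9_ag.LD

open MvPolynomial Module

/-- forms of degree `D` with all exponents in `T`, with multiplicity at least `k i` at `p i` -/
noncomputable def TSm {N : ℕ} (D : ℕ) (T : Set (Fin 3 →₀ ℕ)) (k : Fin N → ℕ) (p : Fin N → V3) :
    Submodule ℂ R3 := linSys D p k ⊓ offSub Tᶜ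

theorem mem_TSm {N D : ℕ} {k : Fin N → ℕ} {T : Set (Fin 3 →₀ ℕ)} {p : Fin N → V3} {F : R3} :
    F ∈ TSm D T k p ↔
      F.IsHomogeneous D ∧ (∀ i, VanishTo F (p i) (k i)) ∧ ∀ α, coeff α F ≠ 0 → α ∈ T := by
  unfold TSm
  rw [Submodule.mem_inf, mem_offSub]
  constructor
  · rintro ⟨⟨h1, h2⟩, h3⟩
    refine ⟨h1, h2, fun α hα => ?_⟩
    by_contra hcon
    exact hα (h3 α hcon)
  · rintro ⟨h1, h2, h3⟩
    refine ⟨⟨h1, h2⟩, fun α hα => ?_⟩
    by_contra hcon
    exact hα (h3 α hcon)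

theorem TSm_le {N : ℕ} (D : ℕ) (T : Set (Fin 3 →₀ ℕ)) (k : Fin N → ℕ) (p : Fin N → V3) :
    TSm D T k p ≤ Rd D := fun _ hF => (mem_TSm.mp hF).1

instance finite_TSm {N : ℕ} (D : ℕ) (T : Set (Fin 3 →₀ ℕ)) (k : Fin N → ℕ) (p : Fin N → V3) :
    Module.Finite ℂ (TSm D T k p) :=
  Submodule.finiteDimensional_of_le (TSm_le D T k p)

theorem TSm_const {N : ℕ} (D : ℕ) (T : Set (Fin 3 →₀ ℕ)) (m : ℕ) (p : Fin N → V3) :
    TSm D T (fun _ => m) p = TS D T m p := rfl

/-- the dimension for generic points -/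
noncomputable def hTm {N : ℕ} (D : ℕ) (T : Set (Fin 3 →₀ ℕ)) (k : Fin N → ℕ) : ℕ :=
  finrank ℂ (TSm D T k (gpt N))

theorem hTm_const (D : ℕ) (T : Set (Fin 3 →₀ ℕ)) (m N : ℕ) :
    hTm D T (fun _ : Fin N => m) = hT D T m N := rfl

/-! ### generic points give the smallest dimension -/

section map

variable (σ : ℂ ≃+* ℂ)

theorem map_mem_TSm {N D : ℕ} {k : Fin N → ℕ} {T : Set (Fin 3 →₀ ℕ)} {p : Fin N → V3} {F : R3}
    (h : F ∈ TSm D T k p) : map σ.toRingHom F ∈ TSm D T k (fun i l => σ (p i l)) := by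
  rw [mem_TSm] at h ⊢
  obtain ⟨h1, h2, h3⟩ := h
  have h4 : F ∈ linSys D p k := ⟨h1, h2⟩
  have h5 := map_mem_linSys σ h4
  refine ⟨h5.1, h5.2, fun α hα => h3 α fun h6 => hα ?_⟩
  rw [coeff_map, h6, map_zero]

theorem finrank_TSm_map {N : ℕ} (D : ℕ) (T : Set (Fin 3 →₀ ℕ)) (k : Fin N → ℕ) (p : Fin N → V3) :
    finrank ℂ (TSm D T k p) = finrank ℂ (TSm D T k (fun i l => σ (p i l))) := by
  have h1 : ∀ F ∈ TSm D T k (fun i l => σ (p i l)), map σ.symm.toRingHom F ∈ TSm D T k p := by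
    intro F hF
    have h2 := map_mem_TSm σ.symm hF
    have h3 : (fun (i : Fin N) (l : Fin 3) => σ.symm (σ (p i l))) = p := by
      funext i l
      exact σ.symm_apply_apply _
    rwa [h3] at h2
  let j : TSm D T k p ≃+ TSm D T k (fun i l => σ (p i l)) :=
    { toFun := fun F => ⟨map σ.toRingHom F.1, map_mem_TSm σ F.2⟩
      invFun := fun F => ⟨map σ.symm.toRingHom F.1, h1 F.1 F.2⟩
      left_inv := fun F => Subtype.ext (map_symm_map σ F.1)
      right_inv := fun F => Subtype.ext (map_map_symm σ F.1)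
      map_add' := fun F G => Subtype.ext (map_add _ F.1 G.1) }
  have h2 := rank_eq_of_equiv_equiv (fun c : ℂ => σ c) j σ.bijective (by
    intro c F
    apply Subtype.ext
    change map σ.toRingHom (c • F.1) = σ c • map σ.toRingHom F.1
    rw [smul_eq_C_mul, smul_eq_C_mul, map_mul, map_C]
    rfl)
  unfold Module.finrank
  rw [h2]

end map

theorem TSm_eq {N : ℕ} (D : ℕ) (T : Set (Fin 3 →₀ ℕ)) (k : Fin N → ℕ) (p : Fin N → V3) :
    TSm D T k p = (Rd D ⊓ offSub Tᶜ) ⊓ ⨅ i, vanSub (p i) (k i) := by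
  ext F
  rw [mem_TSm, Submodule.mem_inf, Submodule.mem_inf, Submodule.mem_iInf, mem_offSub]
  constructor
  · rintro ⟨h1, h2, h3⟩
    refine ⟨⟨h1, fun α hα => ?_⟩, h2⟩
    by_contra hcon
    exact hα (h3 α hcon)
  · rintro ⟨⟨h1, h3⟩, h2⟩
    refine ⟨h1, h2, fun α hα => ?_⟩
    by_contra hcon
    exact hα (h3 α hcon)

theorem TSm_generic_le {N D : ℕ} {k : Fin N → ℕ} {T : Set (Fin 3 →₀ ℕ)} {p : Fin N → V3}
    (hp : GenericPoints p) (p₀ : Fin N → V3) :
    finrank ℂ (TSm D T k p) ≤ finrank ℂ (TSm D T k p₀) := by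
  classical
  obtain ⟨c₁, hc₁⟩ := exists_extension (κ := Fin N) p hp
  have hfam : PolyFam (fun τ => ⨅ i, vanSub (fun l => (Polynomial.C (p₀ i l) +
      Polynomial.X * Polynomial.C (c₁ i l - p₀ i l)).eval τ) (k i)) :=
    PolyFam.iInf (fun i => polyFam_van (fun l => Polynomial.C (p₀ i l) +
      Polynomial.X * Polynomial.C (c₁ i l - p₀ i l)) (k i))
  have hfin : Module.Finite ℂ ↥(Rd D ⊓ offSub Tᶜ : Submodule ℂ R3) :=
    Submodule.finiteDimensional_of_le inf_le_left
  obtain ⟨g, hg, h1⟩ := hfam.semicont (Rd D ⊓ offSub Tᶜ) 0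
  have h1' : ∀ τ, g.eval τ ≠ 0 →
      finrank ℂ (TSm D T k (fun i l => p₀ i l + τ * (c₁ i l - p₀ i l))) ≤
        finrank ℂ (TSm D T k p₀) := by
    intro τ hτ
    have h2 := h1 τ hτ
    rw [TSm_eq, TSm_eq]
    have e1 : ∀ τ : ℂ, (fun i : Fin N => vanSub (fun l => (Polynomial.C (p₀ i l) +
        Polynomial.X * Polynomial.C (c₁ i l - p₀ i l)).eval τ) (k i)) =
        fun i => vanSub (fun l => p₀ i l + τ * (c₁ i l - p₀ i l)) (k i) := by
      intro τ
      funext i
      congr 1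
      funext l
      simp only [Polynomial.eval_add, Polynomial.eval_mul, Polynomial.eval_C, Polynomial.eval_X]
    have e2 : (fun i : Fin N => vanSub (fun l => p₀ i l + 0 * (c₁ i l - p₀ i l)) (k i)) =
        fun i => vanSub (p₀ i) (k i) := by
      funext i
      congr 1
      funext l
      ring
    rw [e1, e1, e2] at h2
    exact h2
  obtain ⟨t, ht, hind⟩ := exists_line
    (fun z : (Fin N ⊕ Fin N) × Fin 3 => Sum.elim p p₀ z.1 z.2) _ hc₁
    (S := {t | g.eval t = 0}) (Set.Finite.countable (by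
      refine (g.roots.toFinset.finite_toSet).subset ?_
      intro t ht
      rw [Finset.mem_coe, Multiset.mem_toFinset, Polynomial.mem_roots (ne_zero_of_eval hg)]
      exact ht))
  have h2 := h1' t ht
  set c : Fin N → V3 := fun i l => p₀ i l + t * (c₁ i l - p₀ i l) with hc
  have h3 : (fun z : (Fin N ⊕ Fin N) × Fin 3 => (fun z : (Fin N ⊕ Fin N) × Fin 3 =>
      Sum.elim p p₀ z.1 z.2) z + t * ((fun z : (Fin N ⊕ Fin N) × Fin 3 =>
      Sum.elim p c₁ z.1 z.2) z - (fun z : (Fin N ⊕ Fin N) × Fin 3 => Sum.elim p p₀ z.1 z.2) z)) =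
      fun z => Sum.elim p c z.1 z.2 := by
    funext z
    rcases z with ⟨i | i, l⟩
    · simp
    · simp [hc]
  rw [h3] at hind
  obtain ⟨s, hs⟩ := exists_auto hind (Equiv.sumComm (Fin N) (Fin N))
  have h4 : (fun (i : Fin N) (l : Fin 3) => s (p i l)) = c := by
    funext i l
    exact hs (Sum.inl i) l
  rw [finrank_TSm_map s D T k p, h4]
  exact h2

/-- semicontinuity: arbitrary points bound the generic value -/
theorem hTm_le {N D : ℕ} {k : Fin N → ℕ} {T : Set (Fin 3 →₀ ℕ)} (p : Fin N → V3) :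
    hTm D T k ≤ finrank ℂ (TSm D T k p) :=
  TSm_generic_le (gpt_generic N) p

theorem hTm_eq {N D : ℕ} {k : Fin N → ℕ} {T : Set (Fin 3 →₀ ℕ)} {p : Fin N → V3}
    (hp : GenericPoints p) : finrank ℂ (TSm D T k p) = hTm D T k :=
  le_antisymm (TSm_generic_le hp _) (hTm_le p)

theorem hTm_mono {D N : ℕ} {k : Fin N → ℕ} {T T' : Set (Fin 3 →₀ ℕ)}
    (h : ∀ α, α.degree = D → α ∈ T → α ∈ T') : hTm D T k ≤ hTm D T' k := by
  unfold hTm
  apply Submodule.finrank_mono
  intro F hF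
  rw [mem_TSm] at hF ⊢
  obtain ⟨h1, h2, h3⟩ := hF
  exact ⟨h1, h2, fun α hα => h α (degree_of_mem_support h1 hα) (h3 α hα)⟩

theorem hTm_eq_zero {D N : ℕ} {k : Fin N → ℕ} {T : Set (Fin 3 →₀ ℕ)}
    (h : ∀ α, α.degree = D → α ∉ T) : hTm D T k = 0 := by
  unfold hTm
  rw [Submodule.finrank_eq_zero, Submodule.eq_bot_iff]
  intro F hF
  rw [mem_TSm] at hF
  obtain ⟨h1, h2, h3⟩ := hF
  ext α
  rw [coeff_zero]
  by_contra hα
  exact h α (degree_of_mem_support h1 hα) (h3 α hα)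

/-! ### changing the points and the multiplicities -/

theorem generic_injm {N N' : ℕ} {e : Fin N' → Fin N} (he : Function.Injective e)
    {p : Fin N → V3} (hp : GenericPoints p) : GenericPoints (fun i : Fin N' => p (e i)) := by
  have h1 := AlgebraicIndependent.comp hp
    (fun z : Fin N' × Fin 3 => ((e z.1, z.2) : Fin N × Fin 3)) (by
      rintro ⟨a, b⟩ ⟨c, d⟩ h
      simp only [Prod.mk.injEq] at h
      exact Prod.ext (he h.1) h.2)
  exact h1

/-- larger multiplicities, smaller systems -/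
theorem hTm_anti {D N : ℕ} {k k' : Fin N → ℕ} {T : Set (Fin 3 →₀ ℕ)} (h : ∀ i, k i ≤ k' i) :
    hTm D T k' ≤ hTm D T k := by
  unfold hTm
  apply Submodule.finrank_mono
  intro F hF
  rw [mem_TSm] at hF ⊢
  obtain ⟨h1, h2, h3⟩ := hF
  exact ⟨h1, fun i => (h2 i).mono (h i), h3⟩

/-- some of the points -/
theorem hTm_comp_le {D N N' : ℕ} {k : Fin N → ℕ} {T : Set (Fin 3 →₀ ℕ)} {e : Fin N' → Fin N}
    (he : Function.Injective e) : hTm D T k ≤ hTm D T (fun i => k (e i)) := by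
  rw [← hTm_eq (generic_injm he (gpt_generic N))]
  unfold hTm
  apply Submodule.finrank_mono
  intro F hF
  rw [mem_TSm] at hF ⊢
  obtain ⟨h1, h2, h3⟩ := hF
  exact ⟨h1, fun i => h2 _, h3⟩

/-- the points of multiplicity zero do not matter -/
theorem hTm_comp_eq {D N N' : ℕ} {k : Fin N → ℕ} {T : Set (Fin 3 →₀ ℕ)} {e : Fin N' → Fin N}
    (he : Function.Injective e) (h0 : ∀ i, i ∉ Set.range e → k i = 0) :
    hTm D T k = hTm D T (fun i => k (e i)) := by
  refine le_antisymm (hTm_comp_le he) ?_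
  rw [← hTm_eq (generic_injm he (gpt_generic N))]
  unfold hTm
  apply Submodule.finrank_mono
  intro F hF
  rw [mem_TSm] at hF ⊢
  obtain ⟨h1, h2, h3⟩ := hF
  refine ⟨h1, fun i => ?_, h3⟩
  by_cases hi : i ∈ Set.range e
  · obtain ⟨j, rfl⟩ := hi
    exact h2 j
  · rw [h0 i hi]
    intro a ha
    exact absurd ha (Nat.not_lt_zero a)

/-- permutation of the points -/
theorem hTm_equiv {D N N' : ℕ} {k : Fin N → ℕ} {T : Set (Fin 3 →₀ ℕ)} (e : Fin N' ≃ Fin N) :
    hTm D T (fun i => k (e i)) = hTm D T k :=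
  (hTm_comp_eq e.injective (fun i hi => absurd (e.surjective i) hi)).symm

theorem hTm_zero_fam {D N : ℕ} {T : Set (Fin 3 →₀ ℕ)} {m : ℕ} :
    hTm D T (fun _ : Fin N => 0) = hT D T m 0 := by
  have h1 := hTm_comp_eq (D := D) (k := fun _ : Fin N => 0) (T := T)
    (e := (fun i => i.elim0 : Fin 0 → Fin N)) (fun i => i.elim0) (fun _ _ => rfl)
  rw [h1]
  have h2 : (fun i : Fin 0 => (fun _ : Fin N => 0) ((fun i => i.elim0 : Fin 0 → Fin N) i)) =
      fun _ : Fin 0 => m := funext fun i => i.elim0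
  rw [h2]
  rfl

/-! ### the number of conditions -/

/-- a point of multiplicity `k j` imposes at most `(k j + 1).choose 2` conditions -/
theorem hTm_drop_one {D N : ℕ} {k : Fin N → ℕ} {T : Set (Fin 3 →₀ ℕ)} (j : Fin N) :
    hTm D T (Function.update k j 0) ≤ hTm D T k + (k j + 1).choose 2 := by
  unfold hTm
  refine (finrank_le_van (m := k j) (gpt N j) _ (TSm_le _ _ _ _)).trans ?_
  apply Nat.add_le_add_right
  apply Submodule.finrank_mono
  rintro F ⟨h1, h2⟩
  rw [SetLike.mem_coe, mem_TSm] at h1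
  obtain ⟨h3, h4, h5⟩ := h1
  rw [mem_TSm]
  refine ⟨h3, fun i => ?_, h5⟩
  by_cases hi : i = j
  · rw [hi]
    exact h2
  · have h6 := h4 i
    rwa [Function.update_of_ne hi] at h6

theorem hTm_drop_set {D N : ℕ} {k : Fin N → ℕ} {T : Set (Fin 3 →₀ ℕ)} (s : Finset (Fin N)) :
    hTm D T (fun i => if i ∈ s then 0 else k i) ≤ hTm D T k + ∑ i ∈ s, (k i + 1).choose 2 := by
  classical
  induction s using Finset.induction_on with
  | empty => simp
  | insert a s ha ih =>
    rw [Finset.sum_insert ha]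
    have h1 := hTm_drop_one (D := D) (k := fun i => if i ∈ s then 0 else k i) (T := T) a
    have h2 : Function.update (fun i => if i ∈ s then 0 else k i) a 0 =
        fun i => if i ∈ insert a s then 0 else k i := by
      funext i
      by_cases hi : i = a
      · subst hi
        rw [Function.update_self, if_pos (Finset.mem_insert_self _ _)]
      · rw [Function.update_of_ne hi]
        have h3 : i ∈ insert a s ↔ i ∈ s := by
          rw [Finset.mem_insert]
          exact ⟨fun h => h.resolve_left hi, Or.inr⟩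
        simp only [h3]
    rw [h2] at h1
    rw [if_neg ha] at h1
    omega

theorem hTm_drop {D N : ℕ} {k : Fin N → ℕ} {T : Set (Fin 3 →₀ ℕ)} {m : ℕ} :
    hT D T m 0 ≤ hTm D T k + ∑ i, (k i + 1).choose 2 := by
  have h1 := hTm_drop_set (D := D) (k := k) (T := T) Finset.univ
  have h2 : (fun i => if i ∈ (Finset.univ : Finset (Fin N)) then 0 else k i) = fun _ => 0 := by
    funext i
    rw [if_pos (Finset.mem_univ i)]
  rw [h2, hTm_zero_fam (m := m)] at h1
  exact h1

/-- the difference of two families -/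
theorem hTm_drop_le {D N : ℕ} {k k' : Fin N → ℕ} {T : Set (Fin 3 →₀ ℕ)} (s : Finset (Fin N))
    (h : ∀ i, i ∉ s → k i ≤ k' i) :
    hTm D T k' ≤ hTm D T k + ∑ i ∈ s, (k i + 1).choose 2 := by
  refine le_trans ?_ (hTm_drop_set s)
  apply hTm_anti
  intro i
  split_ifs with hi
  · exact Nat.zero_le _
  · exact h i hi

/-! ### permutations of the coordinates -/

theorem hTm_perm_le (σ : Equiv.Perm (Fin 3)) {D N : ℕ} {k : Fin N → ℕ} {T : Set (Fin 3 →₀ ℕ)} :
    hTm D {α | α.mapDomain σ ∈ T} k ≤ hTm D T k := by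
  have hp := gpt_generic N
  have hp' : GenericPoints (fun i l => gpt N i (σ.symm l)) := by
    have h1 := AlgebraicIndependent.comp hp
      (fun z : Fin N × Fin 3 => ((z.1, σ.symm z.2) : Fin N × Fin 3)) (by
        rintro ⟨a, b⟩ ⟨c, d⟩ h
        simp only [Prod.mk.injEq, EmbeddingLike.apply_eq_iff_eq] at h
        exact Prod.ext h.1 h.2)
    exact h1
  rw [← hTm_eq (D := D) (k := k) (T := T) hp']
  unfold hTm
  let φ : TSm D {α : Fin 3 →₀ ℕ | α.mapDomain σ ∈ T} k (gpt N) →ₗ[ℂ]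
      TSm D T k (fun i l => gpt N i (σ.symm l)) :=
    { toFun := fun F => ⟨rename σ F.1, by
        have h1 := mem_TSm.mp F.2
        obtain ⟨h2, h3, h4⟩ := h1
        rw [mem_TSm]
        refine ⟨h2.rename_isHomogeneous, fun i => ?_, fun α hα => ?_⟩
        · rw [vanishTo_rename]
          have e1 : (fun l => gpt N i (σ.symm (σ l))) = gpt N i := by
            funext l
            rw [Equiv.symm_apply_apply]
          rw [e1]
          exact h3 i
        · rw [coeff_rename'] at hα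
          have h5 := h4 _ hα
          change (α.mapDomain σ.symm).mapDomain σ ∈ T at h5
          rwa [mapDomain_symm_mapDomain] at h5⟩
      map_add' := fun F G => Subtype.ext (by simp)
      map_smul' := fun c F => Subtype.ext (by simp) }
  apply LinearMap.finrank_le_finrank_of_injective (f := φ)
  intro F G h
  apply Subtype.ext
  have h1 := congrArg Subtype.val h
  exact rename_injective σ σ.injective h1

/-- permutation of the coordinates -/
theorem hTm_perm (σ : Equiv.Perm (Fin 3)) {D N : ℕ} {k : Fin N → ℕ} {T : Set (Fin 3 →₀ ℕ)} :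
    hTm D {α | α.mapDomain σ ∈ T} k = hTm D T k := by
  refine le_antisymm (hTm_perm_le σ) ?_
  have h1 := hTm_perm_le σ.symm (D := D) (k := k)
    (T := {α : Fin 3 →₀ ℕ | α.mapDomain σ ∈ T})
  have h2 : {α : Fin 3 →₀ ℕ | α.mapDomain σ.symm ∈ {α : Fin 3 →₀ ℕ | α.mapDomain σ ∈ T}} = T := by
    ext α
    change (α.mapDomain σ.symm).mapDomain σ ∈ T ↔ α ∈ T
    rw [mapDomain_symm_mapDomain]
  rwa [h2] at h1

/-- some points kill all forms with the given exponents -/
def Killsm {N : ℕ} (D : ℕ) (u : Fin N → ℕ) (T : Set (Fin 3 →₀ ℕ)) : Prop :=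
  ∃ p : Fin N → V3, (∀ k i, p k i ≠ 0) ∧ ∀ G : R3, G.IsHomogeneous D →
    (∀ α ∈ G.support, α ∈ T) → (∀ k, VanishTo G (p k) (u k)) → G = 0

theorem Killsm_const {D u N : ℕ} {T : Set (Fin 3 →₀ ℕ)} :
    Killsm D (fun _ : Fin N => u) T ↔ Kills D u N T := Iff.rfl

theorem Killsm.mono {D N : ℕ} {u : Fin N → ℕ} {T T' : Set (Fin 3 →₀ ℕ)} (hK : Killsm D u T')
    (h : ∀ α : Fin 3 →₀ ℕ, α.degree = D → α ∈ T → α ∈ T') : Killsm D u T := by
  obtain ⟨p, hp, hK⟩ := hK
  refine ⟨p, hp, fun G h1 h2 h3 => hK G h1 (fun α hα => h α ?_ (h2 α hα)) h3⟩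
  exact degree_of_mem_support h1 (mem_support_iff.mp hα)

theorem Killsm.perm (σ : Equiv.Perm (Fin 3)) {D N : ℕ} {u : Fin N → ℕ} {T : Set (Fin 3 →₀ ℕ)}
    (h : Killsm D u T) : Killsm D u {α | α.mapDomain σ ∈ T} := by
  obtain ⟨p, hp, h⟩ := h
  refine ⟨fun i k => p i (σ k), fun i k => hp i _, fun G h1 h2 h3 => ?_⟩
  apply rename_injective σ σ.injective
  rw [map_zero]
  refine h _ h1.rename_isHomogeneous (fun α hα => ?_) (fun i => ?_)
  · rw [MvPolynomial.mem_support_iff, coeff_rename'] at hα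
    have h4 := h2 _ (MvPolynomial.mem_support_iff.mpr hα)
    change (α.mapDomain σ.symm).mapDomain σ ∈ T at h4
    rwa [mapDomain_symm_mapDomain] at h4
  · rw [vanishTo_rename]
    exact h3 i

/-! ### rectangles, strips, the plane -/

/-- bidegree `(H - 1, L - 1)` on `P¹ × P¹` with points of multiplicities `k i` -/
noncomputable def hRm {N : ℕ} (H L : ℕ) (k : Fin N → ℕ) : ℕ := hTm (H + L - 2) (rect H L) k

/-- forms of degree `D` and of degree at most `κ` in `X 2` -/
noncomputable def hFm {N : ℕ} (D κ : ℕ) (k : Fin N → ℕ) : ℕ := hTm D {α | α 2 ≤ κ} k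

/-- the plane -/
noncomputable def hPm {r : ℕ} (D : ℕ) (y : Fin r → ℕ) : ℕ := finrank ℂ (linSys D (gpt r) y)

/-- the multiplicities off the points `e i` -/
noncomputable def rest {N r : ℕ} (e : Fin N → Fin r) (y : Fin r → ℕ) : Fin r → ℕ := by
  classical
  exact fun i => if i ∈ Set.range e then 0 else y i

theorem rest_mem {N r : ℕ} {e : Fin N → Fin r} {y : Fin r → ℕ} (i : Fin N) :
    rest e y (e i) = 0 := by
  unfold rest
  exact if_pos ⟨i, rfl⟩

theorem rest_not_mem {N r : ℕ} {e : Fin N → Fin r} {y : Fin r → ℕ} {i : Fin r}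
    (h : i ∉ Set.range e) : rest e y i = y i := by
  unfold rest
  exact if_neg h

theorem rest_le {N r : ℕ} (e : Fin N → Fin r) (y : Fin r → ℕ) (i : Fin r) :
    rest e y i ≤ y i := by
  by_cases h : i ∈ Set.range e
  · obtain ⟨j, rfl⟩ := h
    rw [rest_mem]
    exact Nat.zero_le _
  · rw [rest_not_mem h]

theorem hRm_const (H L k N : ℕ) : hRm H L (fun _ : Fin N => k) = hR H L k N := rfl

theorem hFm_const (D κ m N : ℕ) : hFm D κ (fun _ : Fin N => m) = hF D κ m N := rfl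

theorem hRm_zero {N : ℕ} (L : ℕ) (k : Fin N → ℕ) : hRm 0 L k = 0 :=
  hTm_eq_zero (fun _ _ h => Nat.not_lt_zero _ h.1)

theorem hRm_zero_right {N : ℕ} (H : ℕ) (k : Fin N → ℕ) : hRm H 0 k = 0 :=
  hTm_eq_zero (fun _ _ h => Nat.not_lt_zero _ h.2)

theorem hRm_count {N : ℕ} (H L : ℕ) (k : Fin N → ℕ) :
    H * L ≤ hRm H L k + ∑ i, (k i + 1).choose 2 := by
  rw [← hR_no_points H L 0]
  exact hTm_drop (D := H + L - 2) (k := k) (T := rect H L) (m := 0)

theorem hRm_le_mul {N : ℕ} (H L : ℕ) (k : Fin N → ℕ) : hRm H L k ≤ H * L := by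
  rw [← hR_no_points H L 0]
  unfold hR
  rw [← hTm_zero_fam (N := N) (m := 0)]
  exact hTm_anti (fun i => Nat.zero_le _)

theorem X_mul_lem {D N : ℕ} {k : Fin N → ℕ} {T T' : Set (Fin 3 →₀ ℕ)}
    (hT' : ∀ α, α ∈ T → α + Finsupp.single 1 1 ∈ T') : hTm D T k ≤ hTm (D + 1) T' k := by
  unfold hTm
  let φ : TSm D T k (gpt N) →ₗ[ℂ] TSm (D + 1) T' k (gpt N) :=
    { toFun := fun F => ⟨X 1 * F.1, by
        obtain ⟨h1, h2, h3⟩ := mem_TSm.mp F.2
        rw [mem_TSm]
        refine ⟨?_, fun i => vanishTo_X_mul 1 (h2 i), fun α hα => ?_⟩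
        · have h4 := (isHomogeneous_X ℂ (1 : Fin 3)).mul h1
          rwa [add_comm] at h4
        · rw [coeff_X_mul'] at hα
          split_ifs at hα with h4
          · have h5 := hT' _ (h3 _ hα)
            rwa [tsub_add_cancel_of_le] at h5
            rw [Finsupp.single_le_iff]
            exact Nat.one_le_iff_ne_zero.mpr (Finsupp.mem_support_iff.mp h4)
          · exact absurd rfl hα⟩
      map_add' := fun F G => Subtype.ext (by
        change X 1 * (F.1 + G.1) = X 1 * F.1 + X 1 * G.1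
        ring)
      map_smul' := fun c F => Subtype.ext (by
        change X 1 * (c • F.1) = c • (X 1 * F.1)
        rw [mul_smul_comm]) }
  apply LinearMap.finrank_le_finrank_of_injective (f := φ)
  intro F G h
  apply Subtype.ext
  have h1 : X 1 * F.1 = X 1 * G.1 := congrArg Subtype.val h
  exact mul_left_cancel₀ (X_ne_zero _) h1

theorem hRm_le_succ {N : ℕ} (H L : ℕ) (k : Fin N → ℕ) : hRm H L k ≤ hRm (H + 1) L k := by
  rcases Nat.eq_zero_or_pos L with hL | hL
  · subst hL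
    rw [hRm_zero_right]
    exact Nat.zero_le _
  rcases Nat.eq_zero_or_pos H with hH | hH
  · subst hH
    rw [hRm_zero]
    exact Nat.zero_le _
  unfold hRm
  have e1 : H + 1 + L - 2 = (H + L - 2) + 1 := by omega
  rw [e1]
  apply X_mul_lem
  intro α hα
  constructor
  · rw [Finsupp.add_apply, Finsupp.single_eq_of_ne (by decide), add_zero]
    exact Nat.lt_succ_of_lt hα.1
  · rw [Finsupp.add_apply, Finsupp.single_eq_of_ne (by decide), add_zero]
    exact hα.2

theorem hRm_succ_le {N : ℕ} (H L : ℕ) (k : Fin N → ℕ) : hRm (H + 1) L k ≤ hRm H L k + L := by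
  rcases Nat.eq_zero_or_pos L with hL | hL
  · subst hL
    rw [hRm_zero_right]
    exact Nat.zero_le _
  rcases Nat.eq_zero_or_pos H with hH | hH
  · subst hH
    rw [hRm_zero]
    have h1 := hRm_le_mul (0 + 1) L k
    omega
  unfold hRm hTm
  have e1 : H + 1 + L - 2 = (H + L - 2) + 1 := by omega
  rw [e1]
  set D := H + L - 2 with hD
  set V := TSm (D + 1) (rect (H + 1) L) k (gpt N) with hV
  let ρ : R3 →ₗ[ℂ] (Fin L → ℂ) :=
    { toFun := fun F j => coeff (ex3 j (D + 1 - j) 0) F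
      map_add' := fun F G => by
        funext z
        simp
      map_smul' := fun c F => by
        funext z
        simp }
  have h1 := finrank_eq_ker_add_map ρ V
  have h2 : finrank ℂ ↥(V.map ρ) ≤ L := by
    refine (Submodule.finrank_le _).trans ?_
    rw [finrank_fin_fun]
  have h3 : V ⊓ LinearMap.ker ρ ≤
      (TSm D (rect H L) k (gpt N)).map (LinearMap.mulLeft ℂ (X 2 ^ 1 : R3)) := by
    rintro F ⟨hF, hF'⟩
    rw [SetLike.mem_coe, hV, mem_TSm] at hF
    obtain ⟨h4, h5, h6⟩ := hF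
    have h7 := LinearMap.mem_ker.mp hF'
    obtain ⟨G, hG1, hG2, hG3⟩ := exists_div_X2 (δ := D) (u := 1) h4 (fun α hα => by
      by_contra hcon
      have h8 := h6 α (mem_support_iff.mp hα)
      have h9 := congrFun h7 ⟨α 0, h8.2⟩
      have h10 := deg_eq h4 hα
      have h11 : ex3 (α 0) (D + 1 - α 0) 0 = α := by
        conv_rhs => rw [eq_ex3 α]
        congr 1
        · omega
        · omega
      change coeff (ex3 (α 0) (D + 1 - α 0) 0) F = 0 at h9
      rw [h11] at h9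
      exact mem_support_iff.mp hα h9)
    refine Submodule.mem_map.mpr ⟨G, ?_, by rw [LinearMap.mulLeft_apply, hG2]⟩
    rw [mem_TSm]
    refine ⟨hG1, fun i => ?_, fun β hβ => ?_⟩
    · have h8 := h5 i
      rw [hG2] at h8
      exact vanishTo_of_X2_pow_mul (gpt_ne i 2) h8
    · rw [hG3] at hβ
      have h8 := h6 _ hβ
      constructor
      · have h9 := h8.1
        rw [Finsupp.add_apply, Finsupp.single_eq_same] at h9
        omega
      · have h9 := h8.2
        rwa [Finsupp.add_apply, Finsupp.single_eq_of_ne (by decide), zero_add] at h9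
  have h4 := (Submodule.finrank_mono h3).trans (Submodule.finrank_map_le _ _)
  omega

/-- exchange of the two directions -/
theorem hRm_swap {N : ℕ} (H L : ℕ) (k : Fin N → ℕ) : hRm H L k = hRm L H k := by
  unfold hRm
  have h1 := hTm_perm (Equiv.swap (0 : Fin 3) 2) (D := H + L - 2) (k := k) (T := rect L H)
  have h2 : {α : Fin 3 →₀ ℕ | α.mapDomain (Equiv.swap (0 : Fin 3) 2) ∈ rect L H} = rect H L := by
    ext α
    change (α.mapDomain (Equiv.swap (0 : Fin 3) 2)) 2 < L ∧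
      (α.mapDomain (Equiv.swap (0 : Fin 3) 2)) 0 < H ↔ α 2 < H ∧ α 0 < L
    have e2 : (α.mapDomain (Equiv.swap (0 : Fin 3) 2)) 2 = α 0 := by
      have h3 := Finsupp.mapDomain_apply (Equiv.swap (0 : Fin 3) 2).injective α 0
      rwa [Equiv.swap_apply_left] at h3
    have e0 : (α.mapDomain (Equiv.swap (0 : Fin 3) 2)) 0 = α 2 := by
      have h3 := Finsupp.mapDomain_apply (Equiv.swap (0 : Fin 3) 2).injective α 2
      rwa [Equiv.swap_apply_right] at h3
    rw [e2, e0]
    exact and_comm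
  rw [h2] at h1
  rw [h1, Nat.add_comm H L]

/-! ### the plane -/

theorem TSm_univ {N : ℕ} (D : ℕ) (k : Fin N → ℕ) (p : Fin N → V3) :
    TSm D Set.univ k p = linSys D p k := by
  ext F
  rw [mem_TSm]
  constructor
  · rintro ⟨h1, h2, -⟩
    exact ⟨h1, h2⟩
  · rintro ⟨h1, h2⟩
    exact ⟨h1, h2, fun _ _ => trivial⟩

theorem hPm_eq_hTm {r : ℕ} (D : ℕ) (y : Fin r → ℕ) : hPm D y = hTm D Set.univ y := by
  unfold hPm hTm
  rw [TSm_univ]

theorem hPm_const (D m N : ℕ) : hPm D (fun _ : Fin N => m) = hP D m N := by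
  rw [hPm_eq_hTm]
  rfl

theorem hPm_eq {D r : ℕ} {y : Fin r → ℕ} {p : Fin r → V3} (hp : GenericPoints p) :
    finrank ℂ (linSys D p y) = hPm D y := by
  rw [hPm_eq_hTm, ← hTm_eq hp, TSm_univ]

theorem hPm_le_succ {r : ℕ} (D : ℕ) (y : Fin r → ℕ) : hPm D y ≤ hPm (D + 1) y := by
  rw [hPm_eq_hTm, hPm_eq_hTm]
  exact X_mul_lem (fun _ _ => trivial)

theorem hPm_count {r : ℕ} (D : ℕ) (y : Fin r → ℕ) :
    (D + 2).choose 2 ≤ hPm D y + ∑ i, (y i + 1).choose 2 := by
  rw [hPm_eq_hTm]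
  have h1 := hTm_drop (D := D) (k := y) (T := Set.univ) (m := 0)
  refine le_trans ?_ h1
  have h2 := hP_count D 0 0
  unfold hP at h2
  rw [Nat.zero_mul, Nat.add_zero] at h2
  exact h2

theorem hPm_anti {D r : ℕ} {y y' : Fin r → ℕ} (h : ∀ i, y i ≤ y' i) : hPm D y' ≤ hPm D y := by
  rw [hPm_eq_hTm, hPm_eq_hTm]
  exact hTm_anti h

theorem hPm_equiv {D r r' : ℕ} {y : Fin r → ℕ} (e : Fin r' ≃ Fin r) :
    hPm D (fun i => y (e i)) = hPm D y := by
  rw [hPm_eq_hTm, hPm_eq_hTm]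
  exact hTm_equiv e

end Pool.Agent.Work.MP_0421d9_ag.LD
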