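import Pool.Agent.Work.MP_0421d9_ag.UPeel
import Pool.Agent.Work.MP_0421d9_ag.Tile69
import Pool.Agent.Work.MP_0421d9_ag.Unif5
import Mathlib.Algebra.MvPolynomial.Division

/-!
Strips in the plane.
-/

namespace Pool.Agent.Work.MP_0421d9_ag.LD

open MvPolynomial Module

theorem onLine_shear (c : ℂ) (H : R3) :
    onLine e1 e0 H = (onLine e1 e0 (subM (shear c) H)).comp (Polynomial.X + Polynomial.C c) := by
  rw [onLine_subM]
  have h7 : (shear c).mulVec e0 = e0 := by
    rw [shear_mulVec]
    funext i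
    fin_cases i <;> simp [e0]
  have h8 : ((shear c).mulVec e1 + c • e0 : V3) = e1 := by
    rw [shear_mulVec]
    funext i
    fin_cases i <;> simp [e0, e1]
  rw [h7, ← onLine_shift, h8]

/-- the coefficient of `X 2 ^ κ`, as a polynomial in one variable -/
noncomputable def topc (κ : ℕ) : R3 →ₗ[ℂ] Polynomial ℂ where
  toFun F := onLine e1 e0 (divMonomial F (Finsupp.single 2 κ))
  map_add' F G := by rw [add_divMonomial, map_add]
  map_smul' c F := by
    have h1 : divMonomial (c • F) (Finsupp.single 2 κ) =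
        c • divMonomial F (Finsupp.single 2 κ) := by
      ext β
      rw [coeff_divMonomial, coeff_smul, coeff_smul, coeff_divMonomial]
    rw [h1, map_smul]
    rfl

theorem topc_apply (κ : ℕ) (F : R3) :
    topc κ F = onLine e1 e0 (divMonomial F (Finsupp.single 2 κ)) := rfl

theorem divMonomial_isHomogeneous {D κ : ℕ} {F : R3} (hF : F.IsHomogeneous D) :
    (divMonomial F (Finsupp.single 2 κ)).IsHomogeneous (D - κ) := by
  intro β hβ
  rw [coeff_divMonomial] at hβ
  have h1 := degree_of_mem_support hF hβ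
  rw [map_add, Finsupp.degree_single] at h1
  have h2 : Finsupp.weight 1 β = β.degree := by
    rw [Finsupp.degree_eq_weight_one]
    rfl
  rw [h2]
  omega

theorem topc_coeff {D κ : ℕ} {F : R3} (hF : F.IsHomogeneous D) {α : Fin 3 →₀ ℕ}
    (hα : α 2 = κ) (hα' : α.degree = D) : (topc κ F).coeff (α 0) = coeff α F := by
  have h1 : Finsupp.single 2 κ + (α - Finsupp.single 2 κ) = α := by
    apply add_tsub_cancel_of_le
    rw [Finsupp.single_le_iff]
    exact hα.ge
  have h2 : (α - Finsupp.single 2 κ : Fin 3 →₀ ℕ) 0 = α 0 := by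
    rw [Finsupp.tsub_apply, Finsupp.single_eq_of_ne (by decide), Nat.sub_zero]
  have h3 : (α - Finsupp.single 2 κ : Fin 3 →₀ ℕ) 2 = 0 := by
    rw [Finsupp.tsub_apply, Finsupp.single_eq_same, hα, Nat.sub_self]
  have h4 : (α - Finsupp.single 2 κ).degree = D - κ := by
    have h5 := congrArg Finsupp.degree h1
    rw [map_add, Finsupp.degree_single, hα'] at h5
    omega
  rw [topc_apply, ← h2, coeff_onLine_e1_e0 (divMonomial_isHomogeneous hF) h3 h4,
    coeff_divMonomial, h1]

theorem topc_shear (c : ℂ) (κ : ℕ) (G : R3) :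
    topc κ (subM (shear c) G) =
      onLine e1 e0 (subM (shear c) (divMonomial G (Finsupp.single 2 κ))) := by
  rw [topc_apply]
  congr 1
  have h1 := divMonomial_add_modMonomial G (Finsupp.single 2 κ)
  have h2 : subM (shear c) (monomial (Finsupp.single 2 κ) (1 : ℂ)) =
      monomial (Finsupp.single 2 κ) (1 : ℂ) := by
    rw [← X_pow_eq_monomial, map_pow, subM_X, lin_shear2]
  conv_lhs => rw [← h1]
  rw [map_add, map_mul, h2, add_divMonomial, divMonomial_monomial_mul]
  have h3 : divMonomial (subM (shear c) (modMonomial G (Finsupp.single 2 κ)))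
      (Finsupp.single 2 κ) = 0 := by
    ext β
    rw [coeff_divMonomial, coeff_zero]
    by_contra hcon
    obtain ⟨α, h4, h5, -, -⟩ := coeff_shear c _ _ hcon
    apply h4
    apply coeff_modMonomial_of_le
    rw [Finsupp.single_le_iff, ← h5, Finsupp.add_apply, Finsupp.single_eq_same]
    exact Nat.le_add_right _ _
  rw [h3, add_zero]

theorem kills_of_hF {D κ m N B : ℕ} (hκ : 1 ≤ κ) (hD : κ ≤ D) (hB : B ≤ D - κ + 1)
    (h1 : hF D κ m N ≤ B) (h0 : hF D (κ - 1) m N = 0) :
    Kills D m N {α | α 2 < κ ∨ (α 2 = κ ∧ α 0 < D - κ + 1 - B)} := by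
  classical
  set V := TS D {α : Fin 3 →₀ ℕ | α 2 ≤ κ} m (gpt N) with hV
  obtain ⟨h, hh0, hh⟩ := order_generic (V.map (topc κ)) B
  set g : Polynomial ℂ := ∏ i : Fin N, (Polynomial.C (gpt N i 0) -
    Polynomial.X * Polynomial.C (gpt N i 1)) with hg
  have hg0 : g ≠ 0 := by
    rw [hg, Finset.prod_ne_zero_iff]
    intro i _ h2
    have h3 := congrArg (Polynomial.eval 0) h2
    simp only [Polynomial.eval_sub, Polynomial.eval_mul, Polynomial.eval_C, Polynomial.eval_X,
      zero_mul, sub_zero, Polynomial.eval_zero] at h3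
    exact gpt_ne i 0 h3
  obtain ⟨c, hc, hc'⟩ := exists_eval_ne hh0 hg0
  have hne : ∀ i, gpt N i 0 - c * gpt N i 1 ≠ 0 := by
    rw [hg, Polynomial.eval_prod, Finset.prod_ne_zero_iff] at hc'
    intro i
    have h2 := hc' i (Finset.mem_univ i)
    rw [Polynomial.eval_sub, Polynomial.eval_mul, Polynomial.eval_C, Polynomial.eval_C,
      Polynomial.eval_X] at h2
    exact h2
  have h2 := hh c hc
  have h3 : finrank ℂ ↥(V.map (topc κ)) ≤ B := (Submodule.finrank_map_le _ _).trans h1
  have h4 : V.map (topc κ) ⊓ ordSub c B = ⊥ := by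
    have hfin : Module.Finite ℂ ↥(V.map (topc κ) ⊓ ordSub c B) :=
      Submodule.finiteDimensional_of_le inf_le_left
    rw [← Submodule.finrank_eq_zero (R := ℂ)]
    omega
  have h5 : TS D {α : Fin 3 →₀ ℕ | α 2 ≤ κ - 1} m (gpt N) = ⊥ := by
    rw [← Submodule.finrank_eq_zero (R := ℂ)]
    exact h0
  have hK : Kills D m N {α | α 2 < κ ∨ (α 2 = κ ∧ B ≤ α 0)} := by
    refine ⟨fun i => (shear c).mulVec (gpt N i), ?_, ?_⟩
    · intro i k
      simp only [shear_mulVec]
      fin_cases k
      · exact hne i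
      · exact gpt_ne i 1
      · exact gpt_ne i 2
    · intro G hG1 hG2 hG3
      have h6 : subM (shear c) G ∈ V := by
        rw [hV, mem_TS]
        refine ⟨subM_isHomogeneous _ hG1, fun i => vanishTo_subM _ (hG3 i), fun β hβ => ?_⟩
        obtain ⟨α, hα, h7, -, -⟩ := coeff_shear c G β hβ
        have h8 := hG2 α (mem_support_iff.mpr hα)
        change β 2 ≤ κ
        rcases h8 with h8 | h8 <;> omega
      have h7 : topc κ (subM (shear c) G) ∈ V.map (topc κ) ⊓ ordSub c B := by
        refine Submodule.mem_inf.mpr ⟨⟨_, h6, rfl⟩, ?_⟩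
        intro k hk
        rw [topc_shear, ← onLine_shear, onLine_e1_e0, Polynomial.finsetSum_coeff]
        refine Finset.sum_eq_zero (fun β hβ => ?_)
        rw [Polynomial.coeff_C_mul_X_pow]
        split_ifs with h8 h9
        · exfalso
          have h10 := mem_support_iff.mp hβ
          rw [coeff_divMonomial] at h10
          have h11 := hG2 _ (mem_support_iff.mpr h10)
          have e0' : (Finsupp.single (2 : Fin 3) κ + β) 0 = β 0 := by
            rw [Finsupp.add_apply, Finsupp.single_eq_of_ne (by decide), zero_add]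
          have e2' : (Finsupp.single (2 : Fin 3) κ + β) 2 = κ + β 2 := by
            rw [Finsupp.add_apply, Finsupp.single_eq_same]
          rcases h11 with h11 | ⟨-, h11⟩
          · rw [e2'] at h11
            omega
          · rw [e0'] at h11
            omega
        · rw [mul_zero]
        · rfl
      rw [h4, Submodule.mem_bot] at h7
      have h8 : subM (shear c) G ∈ TS D {α : Fin 3 →₀ ℕ | α 2 ≤ κ - 1} m (gpt N) := by
        obtain ⟨h9, h10, h11⟩ := mem_TS.mp h6
        rw [mem_TS]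
        refine ⟨h9, h10, fun α hα => ?_⟩
        have h12 : α 2 ≤ κ := h11 α hα
        change α 2 ≤ κ - 1
        by_contra hcon
        have h13 : α 2 = κ := by omega
        apply hα
        rw [← topc_coeff h9 h13 (degree_of_mem_support h9 hα), h7, Polynomial.coeff_zero]
      rw [h5, Submodule.mem_bot] at h8
      have h9 := congrArg (subM (shear (-c))) h8
      have h10 : shear c * shear (-c) = 1 := by
        have h11 := shear_mul (-c)
        rwa [neg_neg] at h11
      rwa [subM_subM, h10, subM_one, map_zero] at h9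
  refine (Kills.perm (Equiv.swap 0 1) hK).mono ?_
  intro α hα hα'
  rw [degree_three] at hα
  have hinj : Function.Injective (Equiv.swap (0 : Fin 3) 1) := (Equiv.swap (0 : Fin 3) 1).injective
  have e2' : (α.mapDomain (Equiv.swap (0 : Fin 3) 1)) 2 = α 2 := by
    have h6 := Finsupp.mapDomain_apply hinj α 2
    rwa [Equiv.swap_apply_of_ne_of_ne (by decide) (by decide)] at h6
  have e0' : (α.mapDomain (Equiv.swap (0 : Fin 3) 1)) 0 = α 1 := by
    have h6 := Finsupp.mapDomain_apply hinj α 1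
    rwa [Equiv.swap_apply_right] at h6
  change (α.mapDomain (Equiv.swap (0 : Fin 3) 1)) 2 < κ ∨
    ((α.mapDomain (Equiv.swap (0 : Fin 3) 1)) 2 = κ ∧ B ≤ (α.mapDomain (Equiv.swap (0 : Fin 3) 1)) 0)
  rw [e0', e2']
  rcases hα' with h6 | ⟨h6, h7⟩
  · exact Or.inl h6
  · right
    refine ⟨h6, ?_⟩
    omega

theorem plane_strip {D κ m N r B : ℕ} (hκ : 1 ≤ κ) (hD : κ + 1 ≤ D) (hB : B ≤ D - κ + 1)
    (h1 : hF D κ m N ≤ B) (h0 : hF D (κ - 1) m N = 0) :
    hP D m (r + N) ≤ max (hP (D - κ) m r - (D - κ + 1 - B)) (hP (D - κ - 1) m r) := by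
  have hK := kills_of_hF hκ (by omega) hB h1 h0
  obtain ⟨δ, rfl⟩ : ∃ δ, D = δ + 1 + κ := ⟨D - κ - 1, by omega⟩
  have h2 := peel (δ := δ) (κ := κ) (m := m) (r := r) (N := N) (A := δ + 1 + κ - κ + 1 - B)
    (T := Set.univ) hκ (by omega) (fun _ _ _ _ _ _ => trivial)
    (hK.mono (fun α _ hα => hα.2))
  have e1 : δ + 1 + κ - κ = δ + 1 := by omega
  have e2 : δ + 1 - 1 = δ := by omega
  rw [e1] at h2 ⊢
  rw [e2]
  exact h2

theorem plane_strip0 {δ m a b r : ℕ} (hm : 1 ≤ m) (hδ : 1 ≤ δ)
    (h : δ + 1 = a * m + b * (m + 1)) :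
    hP (δ + m) m (r + (2 * (a + b) + 1)) ≤ max (hP δ m r - a * m) (hP (δ - 1) m r) := by
  have hK := kills_strip m a b δ hm h
  obtain ⟨δ', rfl⟩ : ∃ δ', δ = δ' + 1 := ⟨δ - 1, by omega⟩
  have hle : a * m ≤ δ' + 2 := by omega
  have h2 := peel (δ := δ') (κ := m) (m := m) (r := r) (N := 2 * (a + b) + 1) (A := a * m)
    (T := Set.univ) hm hle (fun _ _ _ _ _ _ => trivial)
    (hK.mono (fun α _ hα => hα.2))
  have e2 : δ' + 1 - 1 = δ' := by omega
  rw [e2]
  exact h2

theorem uniformBound_le {r m e : ℕ} (hr : m ≤ r) (he : e + 1 ≤ m) :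
    uniformBound r (e + 1) ≤ m.choose 2 := by
  unfold uniformBound
  have h1 : ∑ k ∈ Finset.range (e + 1), (e + 1 - 1 - (k + 1) * (r - 1)) = 0 := by
    refine Finset.sum_eq_zero (fun k _ => ?_)
    have h2 : 1 * (r - 1) ≤ (k + 1) * (r - 1) := Nat.mul_le_mul_right _ (by omega)
    omega
  rw [h1, add_zero]
  exact Nat.choose_le_choose 2 he

theorem plane_window1 {D m r : ℕ} (hm : 2 ≤ m) (hr : m ≤ r) (h : hP D m r ≠ 0) :
    hP D m r + r * (m + 1).choose 2 ≤ (D + 2).choose 2 + m.choose 2 := by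
  rw [← hP_eq (gpt_generic r)] at h ⊢
  by_cases h1 : finrank ℂ (linSys D (gpt r) (fun _ => m)) + r * (m + 1).choose 2 =
      (D + 2).choose 2
  · omega
  · have hpos : linSys D (gpt r) (fun _ => m) ≠ ⊥ := by
      intro h2
      apply h
      rw [h2, finrank_bot]
    obtain ⟨e, h2, h3, h4, h5⟩ := uniform_window (by omega) (gpt_generic r) hpos h1
    have h6 : (m - e + 1).choose 2 ≤ m.choose 2 := Nat.choose_le_choose 2 (by omega)
    omega

theorem plane_window2 {D m r : ℕ} (hm : 2 ≤ m) (hr : m ≤ r)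
    (h : r * (m + 1).choose 2 + m.choose 2 ≤ (D + 2).choose 2) :
    hP D m r + r * (m + 1).choose 2 = (D + 2).choose 2 := by
  by_contra hcon
  have h0 := hP_count D m r
  have hne : linSys D (gpt r) (fun _ => m) ≠ ⊥ := by
    intro h2
    have h3 := hP_eq (D := D) (m := m) (gpt_generic r)
    rw [h2, finrank_bot] at h3
    omega
  rw [← hP_eq (gpt_generic r)] at h0 hcon
  obtain ⟨e, h2, h3, h4, h5⟩ := uniform_window (by omega) (gpt_generic r) hne hcon
  have h6 := uniformBound_le hr h3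
  omega

end Pool.Agent.Work.MP_0421d9_ag.LD
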