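import Pool.Agent.Work.MP_0421d9_ag.MDefs
import Pool.Agent.Work.MP_0421d9_ag.UPlane

/-!
Strips in the plane, with a family of multiplicities.
-/

namespace Pool.Agent.Work.MP_0421d9_ag.LD

open MvPolynomial Module

/-! ### killing -/

theorem kills_of_hFm {D κ N B : ℕ} {u : Fin N → ℕ} (hκ : 1 ≤ κ) (hD : κ ≤ D)
    (hB : B ≤ D - κ + 1) (h1 : hFm D κ u ≤ B) (h0 : hFm D (κ - 1) u = 0) :
    Killsm D u {α | α 2 < κ ∨ (α 2 = κ ∧ α 0 < D - κ + 1 - B)} := by
  classical
  set V := TSm D {α : Fin 3 →₀ ℕ | α 2 ≤ κ} u (gpt N) with hV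
  obtain ⟨h, hh0, hh⟩ := order_generic (V.map (topc κ)) B
  set g : Polynomial ℂ := ∏ i : Fin N, (Polynomial.C (gpt N i 0) -
    Polynomial.X * Polynomial.C (gpt N i 1)) with hg
  have hg0 : g ≠ 0 := by
    rw [hg, Finset.prod_ne_zero_iff]
    intro i _ h2
    have h3 := congrArg (Polynomial.eval 0) h2
    simp only [Polynomial.eval_sub, Polynomial.eval_mul, Polynomial.eval_C, Polynomial.eval_X,
      zero_mul, sub_zero, Polynomial.eval_zero] at h3
    exact gpt_ne i 0 h3
  obtain ⟨c, hc, hc'⟩ := exists_eval_ne hh0 hg0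
  have hne : ∀ i, gpt N i 0 - c * gpt N i 1 ≠ 0 := by
    rw [hg, Polynomial.eval_prod, Finset.prod_ne_zero_iff] at hc'
    intro i
    have h2 := hc' i (Finset.mem_univ i)
    rw [Polynomial.eval_sub, Polynomial.eval_mul, Polynomial.eval_C, Polynomial.eval_C,
      Polynomial.eval_X] at h2
    exact h2
  have h2 := hh c hc
  have h3 : finrank ℂ ↥(V.map (topc κ)) ≤ B := (Submodule.finrank_map_le _ _).trans h1
  have h4 : V.map (topc κ) ⊓ ordSub c B = ⊥ := by
    have hfin : Module.Finite ℂ ↥(V.map (topc κ) ⊓ ordSub c B) :=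
      Submodule.finiteDimensional_of_le inf_le_left
    rw [← Submodule.finrank_eq_zero (R := ℂ)]
    omega
  have h5 : TSm D {α : Fin 3 →₀ ℕ | α 2 ≤ κ - 1} u (gpt N) = ⊥ := by
    rw [← Submodule.finrank_eq_zero (R := ℂ)]
    exact h0
  have hK : Killsm D u {α | α 2 < κ ∨ (α 2 = κ ∧ B ≤ α 0)} := by
    refine ⟨fun i => (shear c).mulVec (gpt N i), ?_, ?_⟩
    · intro i k
      simp only [shear_mulVec]
      fin_cases k
      · exact hne i
      · exact gpt_ne i 1
      · exact gpt_ne i 2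
    · intro G hG1 hG2 hG3
      have h6 : subM (shear c) G ∈ V := by
        rw [hV, mem_TSm]
        refine ⟨subM_isHomogeneous _ hG1, fun i => vanishTo_subM _ (hG3 i), fun β hβ => ?_⟩
        obtain ⟨α, hα, h7, -, -⟩ := coeff_shear c G β hβ
        have h8 := hG2 α (mem_support_iff.mpr hα)
        change β 2 ≤ κ
        rcases h8 with h8 | h8 <;> omega
      have h7 : topc κ (subM (shear c) G) ∈ V.map (topc κ) ⊓ ordSub c B := by
        refine Submodule.mem_inf.mpr ⟨⟨_, h6, rfl⟩, ?_⟩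
        intro k hk
        rw [topc_shear, ← onLine_shear, onLine_e1_e0, Polynomial.finsetSum_coeff]
        refine Finset.sum_eq_zero (fun β hβ => ?_)
        rw [Polynomial.coeff_C_mul_X_pow]
        split_ifs with h8 h9
        · exfalso
          have h10 := mem_support_iff.mp hβ
          rw [coeff_divMonomial] at h10
          have h11 := hG2 _ (mem_support_iff.mpr h10)
          have e0' : (Finsupp.single (2 : Fin 3) κ + β) 0 = β 0 := by
            rw [Finsupp.add_apply, Finsupp.single_eq_of_ne (by decide), zero_add]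
          have e2' : (Finsupp.single (2 : Fin 3) κ + β) 2 = κ + β 2 := by
            rw [Finsupp.add_apply, Finsupp.single_eq_same]
          rcases h11 with h11 | ⟨-, h11⟩
          · rw [e2'] at h11
            omega
          · rw [e0'] at h11
            omega
        · rw [mul_zero]
        · rfl
      rw [h4, Submodule.mem_bot] at h7
      have h8 : subM (shear c) G ∈ TSm D {α : Fin 3 →₀ ℕ | α 2 ≤ κ - 1} u (gpt N) := by
        obtain ⟨h9, h10, h11⟩ := mem_TSm.mp h6
        rw [mem_TSm]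
        refine ⟨h9, h10, fun α hα => ?_⟩
        have h12 : α 2 ≤ κ := h11 α hα
        change α 2 ≤ κ - 1
        by_contra hcon
        have h13 : α 2 = κ := by omega
        apply hα
        rw [← topc_coeff h9 h13 (degree_of_mem_support h9 hα), h7, Polynomial.coeff_zero]
      rw [h5, Submodule.mem_bot] at h8
      have h9 := congrArg (subM (shear (-c))) h8
      have h10 : shear c * shear (-c) = 1 := by
        have h11 := shear_mul (-c)
        rwa [neg_neg] at h11
      rwa [subM_subM, h10, subM_one, map_zero] at h9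
  refine (Killsm.perm (Equiv.swap 0 1) hK).mono ?_
  intro α hα hα'
  rw [degree_three] at hα
  have hinj : Function.Injective (Equiv.swap (0 : Fin 3) 1) := (Equiv.swap (0 : Fin 3) 1).injective
  have e2' : (α.mapDomain (Equiv.swap (0 : Fin 3) 1)) 2 = α 2 := by
    have h6 := Finsupp.mapDomain_apply hinj α 2
    rwa [Equiv.swap_apply_of_ne_of_ne (by decide) (by decide)] at h6
  have e0' : (α.mapDomain (Equiv.swap (0 : Fin 3) 1)) 0 = α 1 := by
    have h6 := Finsupp.mapDomain_apply hinj α 1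
    rwa [Equiv.swap_apply_right] at h6
  change (α.mapDomain (Equiv.swap (0 : Fin 3) 1)) 2 < κ ∨
    ((α.mapDomain (Equiv.swap (0 : Fin 3) 1)) 2 = κ ∧ B ≤ (α.mapDomain (Equiv.swap (0 : Fin 3) 1)) 0)
  rw [e0', e2']
  rcases hα' with h6 | ⟨h6, h7⟩
  · exact Or.inl h6
  · right
    refine ⟨h6, ?_⟩
    omega

/-! ### peeling -/

/-- sums over the strip and over the rest -/
theorem mp_sum_rest {N r : ℕ} {e : Fin N → Fin r} (he : Function.Injective e) (y : Fin r → ℕ)
    (f : ℕ → ℕ) (hf : f 0 = 0) :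
    ∑ i, f (rest e y i) + ∑ k, f (y (e k)) = ∑ i, f (y i) := by
  classical
  have h1 : ∑ k, f (y (e k)) = ∑ i ∈ Finset.univ.image e, f (y i) := by
    rw [Finset.sum_image (fun a _ b _ h => he h)]
  have h2 : ∑ i, f (rest e y i) = ∑ i ∈ (Finset.univ.image e)ᶜ, f (y i) := by
    rw [← Finset.sum_compl_add_sum (Finset.univ.image e)]
    have h3 : ∑ i ∈ Finset.univ.image e, f (rest e y i) = 0 := by
      refine Finset.sum_eq_zero (fun i hi => ?_)
      obtain ⟨k, -, rfl⟩ := Finset.mem_image.mp hi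
      rw [rest_mem, hf]
    rw [h3, add_zero]
    refine Finset.sum_congr rfl (fun i hi => ?_)
    rw [rest_not_mem]
    rintro ⟨k, rfl⟩
    exact (Finset.mem_compl.mp hi) (Finset.mem_image_of_mem _ (Finset.mem_univ k))
  rw [h1, h2, Finset.sum_compl_add_sum]

/-- a new flag on the line `X 2 = 0` at a general point -/
theorem flag_dimP {δ r A : ℕ} (y : Fin r → ℕ) (q : Fin r → V3) (hq : ∀ i, q i 2 ≠ 0) :
    ∃ h : Polynomial ℂ, h ≠ 0 ∧ ∀ c, h.eval c ≠ 0 →
      finrank ℂ ↥(linSys (δ + 1) q y ⊓ (ordSub c A).comap (onLine e1 e0).toLinearMap) ≤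
        max (finrank ℂ (linSys (δ + 1) q y) - A) (finrank ℂ (linSys δ q y)) := by
  classical
  let φ : R3 →ₗ[ℂ] Polynomial ℂ := (onLine e1 e0).toLinearMap
  have hφ : ∀ F, φ F = onLine e1 e0 F := fun F => rfl
  set S := linSys (δ + 1) q y with hS
  have hSfin : Module.Finite ℂ S :=
    Submodule.finiteDimensional_of_le (linSys_le _ _ _)
  have hSfin' : Module.Finite ℂ (linSys δ q y) :=
    Submodule.finiteDimensional_of_le (linSys_le _ _ _)
  have hfin : Module.Finite ℂ ↥(S.map φ) := inferInstance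
  obtain ⟨h, hh0, hh⟩ := @order_generic (S.map φ) hfin A
  refine ⟨h, hh0, fun c hc => ?_⟩
  have h1 := hh c hc
  have hker : finrank ℂ ↥(S ⊓ LinearMap.ker φ) ≤ finrank ℂ (linSys δ q y) := by
    have h2 : S ⊓ LinearMap.ker φ ≤
        (linSys δ q y).map (LinearMap.mulLeft ℂ (X 2 ^ 1 : R3)) := by
      intro F hF
      obtain ⟨h3, h4⟩ := Submodule.mem_inf.mp hF
      rw [LinearMap.mem_ker, hφ] at h4
      obtain ⟨G, hG1, hG2, hG3⟩ := exists_div_of_onLine h3.1 h4
      refine ⟨G, ⟨hG1, fun i => ?_⟩, by rw [LinearMap.mulLeft_apply, hG2]⟩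
      have h5 := h3.2 i
      rw [hG2] at h5
      exact vanishTo_of_X2_pow_mul (hq i) h5
    exact (Submodule.finrank_mono h2).trans (Submodule.finrank_map_le _ _)
  have hT : finrank ℂ ↥(S ⊓ (ordSub c A).comap φ) ≤
      finrank ℂ ↥(S ⊓ LinearMap.ker φ) + (finrank ℂ ↥(S.map φ) - A) := by
    have hfT : Module.Finite ℂ ↥(S ⊓ (ordSub c A).comap φ) :=
      Submodule.finiteDimensional_of_le inf_le_left
    rw [finrank_eq_ker_add_map φ (S ⊓ (ordSub c A).comap φ)]
    have hfK : Module.Finite ℂ ↥(S ⊓ LinearMap.ker φ) :=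
      Submodule.finiteDimensional_of_le inf_le_left
    have hfM : Module.Finite ℂ ↥(S.map φ ⊓ ordSub c A) :=
      Submodule.finiteDimensional_of_le inf_le_left
    refine add_le_add ?_ ?_
    · apply Submodule.finrank_mono
      exact inf_le_inf_right _ inf_le_left
    · refine le_trans (Submodule.finrank_mono ?_) h1
      rintro _ ⟨F, hF, rfl⟩
      obtain ⟨h3, h4⟩ := Submodule.mem_inf.mp hF
      exact Submodule.mem_inf.mpr ⟨⟨F, h3, rfl⟩, h4⟩
  have h5 : finrank ℂ ↥S = finrank ℂ ↥(S ⊓ LinearMap.ker φ) + finrank ℂ ↥(S.map φ) :=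
    finrank_eq_ker_add_map φ S
  refine hT.trans ?_
  rcases Nat.lt_or_ge (finrank ℂ ↥(S.map φ)) A with h6 | h6
  · refine le_trans ?_ (le_max_right _ _)
    omega
  · refine le_trans ?_ (le_max_left _ _)
    omega

theorem mp_vanish_zero (F : R3) (a : V3) : VanishTo F a 0 := fun k hk => absurd hk (Nat.not_lt_zero k)

theorem peelm {δ κ r N A : ℕ} {y : Fin r → ℕ} {e : Fin N → Fin r} (he : Function.Injective e)
    (hκ : 1 ≤ κ) (hA : A ≤ δ + 2)
    (hkill : Killsm (δ + 1 + κ) (fun k => y (e k)) {α | α 2 < κ ∨ (α 2 = κ ∧ α 0 < A)}) :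
    hPm (δ + 1 + κ) y ≤ max (hPm (δ + 1) (rest e y) - A) (hPm δ (rest e y)) := by
  classical
  set q := gpt r with hqdef
  set z := rest e y with hz
  have hq2 : ∀ i, q i 2 ≠ 0 := fun i => generic_coord_ne (gpt_generic r) i 2
  obtain ⟨h, hh0, hh⟩ := flag_dimP (δ := δ) (A := A) z q hq2
  obtain ⟨c, hc, -⟩ := exists_eval_ne hh0 (one_ne_zero (α := Polynomial ℂ))
  have hdim := hh c hc
  refine le_trans ?_ hdim
  -- the sheared points
  set p : Fin r → V3 := fun i => (shear c).mulVec (q i) with hp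
  have hp2 : ∀ i, p i 2 ≠ 0 := by
    intro i
    rw [hp]
    simp only [shear_mulVec]
    exact hq2 i
  obtain ⟨P, hP, hkill⟩ := hkill
  let M := δ + 1 + κ + 1
  let w : Fin 3 → ℕ := ![1, 0, M]
  have hw : ∀ α : Fin 3 →₀ ℕ, wt3 w α = α 0 + M * α 2 := by
    intro α
    unfold wt3
    simp [Fin.sum_univ_three, w]
  let c' := M * κ + A - 1
  have hc' : ∀ α : Fin 3 →₀ ℕ, α.degree = δ + 1 + κ → (wt3 w α ≤ c' ↔
      (α 2 < κ ∨ (α 2 = κ ∧ α 0 < A))) := by
    intro α hα
    rw [hw, Finsupp.degree_eq_sum, Fin.sum_univ_three] at *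
    have hMu : 1 ≤ M * κ := Nat.mul_pos (Nat.succ_pos _) hκ
    have h0 : α 0 < M := by omega
    constructor
    · intro h
      by_cases h1 : α 2 < κ
      · exact Or.inl h1
      · right
        have h2 : M * κ ≤ M * α 2 := Nat.mul_le_mul_left _ (by omega)
        have h3 : α 2 = κ := by
          by_contra hcon
          have h4 : M * (κ + 1) ≤ M * α 2 := Nat.mul_le_mul_left _ (by omega)
          rw [mul_add, mul_one] at h4
          have h5 : M = δ + 1 + κ + 1 := rfl
          have h6 : c' = M * κ + A - 1 := rfl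
          omega
        refine ⟨h3, ?_⟩
        rw [h3] at h
        omega
    · rintro (h | ⟨h1, h2⟩)
      · have h3 : M * (α 2 + 1) ≤ M * κ := Nat.mul_le_mul_left _ (by omega)
        rw [mul_add, mul_one] at h3
        omega
      · rw [h1]
        omega
  have hdeg : ∀ {F : R3}, F.IsHomogeneous (δ + 1 + κ) → ∀ α ∈ F.support,
      α.degree = δ + 1 + κ :=
    fun hF α hα => degree_of_mem_support hF (mem_support_iff.mp hα)
  obtain ⟨τ, hτ, h1⟩ := cut (D := δ + 1 + κ) w c' P (fun k => y (e k)) Set.univ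
    (fun G hG hG' hG'' => hkill G hG
      (fun α hα => (hc' α (hdeg hG α hα)).mp (hG' α hα).2) hG'')
    (linSys (δ + 1 + κ) p z) (fun F hF => ⟨hF.1, fun α hα => trivial⟩)
  -- the part above
  have h2 : finrank ℂ ↥(linSys (δ + 1 + κ) p z ⊓ offSub {α | wt3 w α ≤ c'}) ≤
      finrank ℂ ↥(linSys (δ + 1) q z ⊓ (ordSub c A).comap (onLine e1 e0).toLinearMap) := by
    have hfin0 : Module.Finite ℂ (linSys (δ + 1) q z) :=
      Submodule.finiteDimensional_of_le (linSys_le _ _ _)
    have hfin : Module.Finite ℂ ↥(linSys (δ + 1) q z ⊓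
        (ordSub c A).comap (onLine e1 e0).toLinearMap) :=
      Submodule.finiteDimensional_of_le inf_le_left
    have h3 : linSys (δ + 1 + κ) p z ⊓ offSub {α | wt3 w α ≤ c'} ≤
        (linSys (δ + 1) q z ⊓ (ordSub c A).comap (onLine e1 e0).toLinearMap).map
          (LinearMap.mulLeft ℂ (X 2 ^ κ : R3) ∘ₗ (subM (shear (-c))).toLinearMap) := by
      intro F hF
      rw [Submodule.mem_inf, mem_offSub] at hF
      obtain ⟨⟨hF1, hF2⟩, hF4⟩ := hF
      have hF5 : ∀ α : Fin 3 →₀ ℕ, (α 2 < κ ∨ (α 2 = κ ∧ α 0 < A)) → coeff α F = 0 := by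
        intro α hα
        by_contra hcon
        have h5 := degree_of_mem_support hF1 hcon
        exact hcon (hF4 α ((hc' α h5).mpr hα))
      obtain ⟨G, hG1, hG2, hG3⟩ := exists_div_X2 hF1 (fun α hα => by
        by_contra hcon
        exact (mem_support_iff.mp hα) (hF5 α (Or.inl (by omega))))
      have hGp : ∀ i, VanishTo G (p i) (z i) := by
        intro i
        have h5 := hF2 i
        rw [hG2] at h5
        exact vanishTo_of_X2_pow_mul (hp2 i) h5
      refine Submodule.mem_map.mpr ⟨subM (shear c) G, Submodule.mem_inf.mpr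
        ⟨⟨subM_isHomogeneous _ hG1, fun i => vanishTo_subM _ (hGp i)⟩, ?_⟩, ?_⟩
      · change onLine e1 e0 (subM (shear c) G) ∈ ordSub c A
        intro k hk
        rw [← onLine_shear, onLine_e1_e0, Polynomial.finsetSum_coeff]
        refine Finset.sum_eq_zero (fun β _ => ?_)
        rw [Polynomial.coeff_C_mul_X_pow]
        split_ifs with h8 h9
        · rw [hG3, hF5 _ (Or.inr ⟨?_, ?_⟩), zero_mul]
          · rw [Finsupp.add_apply, Finsupp.single_eq_same, h9, add_zero]
          · rw [Finsupp.add_apply, Finsupp.single_eq_of_ne (by decide), zero_add]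
            omega
        · rw [mul_zero]
        · rfl
      · rw [LinearMap.comp_apply, LinearMap.mulLeft_apply, AlgHom.toLinearMap_apply, subM_subM]
        have h9 : shear c * shear (-c) = 1 := by
          have h10 := shear_mul (-c)
          rwa [neg_neg] at h10
        rw [h9, subM_one, hG2]
    exact (Submodule.finrank_mono h3).trans (Submodule.finrank_map_le _ _)
  refine le_trans ?_ (h1.trans h2)
  -- all the points
  let P' : Fin r → V3 := Function.extend e (fun k i => τ ^ w i * P k i) p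
  have hP'1 : ∀ k, P' (e k) = fun i => τ ^ w i * P k i := fun k => he.extend_apply _ _ k
  have hP'2 : ∀ i, i ∉ Set.range e → P' i = p i := by
    intro i hi
    exact Function.extend_apply' _ _ _ (fun ⟨k, hk⟩ => hi ⟨k, hk⟩)
  refine (generic_le (gpt_generic r) (δ + 1 + κ) y P').trans ?_
  have hfin0 : Module.Finite ℂ (linSys (δ + 1 + κ) p z) :=
    Submodule.finiteDimensional_of_le (linSys_le _ _ _)
  have hfin : Module.Finite ℂ ↥(linSys (δ + 1 + κ) p z ⊓
      ⨅ k, vanSub (fun i => τ ^ w i * P k i) (y (e k))) :=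
    Submodule.finiteDimensional_of_le inf_le_left
  apply Submodule.finrank_mono
  intro F hF
  obtain ⟨hF1, hF2⟩ := hF
  rw [Submodule.mem_inf, Submodule.mem_iInf]
  refine ⟨⟨hF1, fun i => ?_⟩, fun k => ?_⟩
  · by_cases hi : i ∈ Set.range e
    · obtain ⟨k, rfl⟩ := hi
      rw [hz, rest_mem]
      exact mp_vanish_zero _ _
    · have h4 := hF2 i
      rw [hP'2 i hi] at h4
      rw [hz, rest_not_mem hi]
      exact h4
  · have h4 := hF2 (e k)
    rw [hP'1] at h4
    exact h4

/-- a strip with a family of multiplicities -/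
theorem plane_stripm {r N D κ B : ℕ} {y : Fin r → ℕ} (e : Fin N → Fin r)
    (he : Function.Injective e) (hκ : 1 ≤ κ) (hD : κ + 1 ≤ D) (hB : B ≤ D - κ + 1)
    (h1 : hFm D κ (y ∘ e) ≤ B) (h0 : hFm D (κ - 1) (y ∘ e) = 0) :
    hPm D y ≤ max (hPm (D - κ) (rest e y) - (D - κ + 1 - B)) (hPm (D - κ - 1) (rest e y)) := by
  have hK := kills_of_hFm hκ (by omega) hB h1 h0
  obtain ⟨δ, rfl⟩ : ∃ δ, D = δ + 1 + κ := ⟨D - κ - 1, by omega⟩
  have e1 : δ + 1 + κ - κ = δ + 1 := by omega
  have e2 : δ + 1 - 1 = δ := by omega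
  rw [e1] at hK ⊢
  rw [e2]
  exact peelm (A := δ + 1 + 1 - B) he hκ (by omega) hK

/-- a strip with equal multiplicities and any other points -/
theorem plane_strip_pure {r N D κ m B : ℕ} {y : Fin r → ℕ} (e : Fin N → Fin r)
    (he : Function.Injective e) (hy : ∀ k, y (e k) = m) (hκ : 1 ≤ κ) (hD : κ + 1 ≤ D)
    (hB : B ≤ D - κ + 1) (h1 : hF D κ m N ≤ B) (h0 : hF D (κ - 1) m N = 0) :
    hPm D y ≤ max (hPm (D - κ) (rest e y) - (D - κ + 1 - B)) (hPm (D - κ - 1) (rest e y)) := by
  have hy' : y ∘ e = fun _ => m := funext hy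
  refine plane_stripm e he hκ hD hB ?_ ?_
  · rw [hy', hFm_const]
    exact h1
  · rw [hy', hFm_const]
    exact h0

/-- a strip with equal multiplicities `m`, whose width is `m`, and any other points -/
theorem plane_strip0_pure {δ m a b r : ℕ} {y : Fin r → ℕ} (e : Fin (2 * (a + b) + 1) → Fin r)
    (he : Function.Injective e) (hm : 1 ≤ m) (hδ : 1 ≤ δ) (h : δ + 1 = a * m + b * (m + 1))
    (hy : ∀ k, y (e k) = m) :
    hPm (δ + m) y ≤ max (hPm δ (rest e y) - a * m) (hPm (δ - 1) (rest e y)) := by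
  have hK := Killsm_const.mpr (kills_strip m a b δ hm h)
  obtain ⟨δ', rfl⟩ : ∃ δ', δ = δ' + 1 := ⟨δ - 1, by omega⟩
  have hle : a * m ≤ δ' + 2 := by omega
  have e2 : δ' + 1 - 1 = δ' := by omega
  rw [e2]
  refine peelm he hm hle ?_
  have h2 : (fun k => y (e k)) = fun _ => m := funext hy
  rw [h2]
  exact hK

/-- some of the points fill `κ` rows and a further piece of `A` monomials; `y'` is `y` without
these points -/
def StripM {r : ℕ} (D κ A : ℕ) (y y' : Fin r → ℕ) : Prop :=
  ∃ (N : ℕ) (e : Fin N → Fin r), Function.Injective e ∧ 1 ≤ κ ∧ κ + 1 ≤ D ∧ A ≤ D - κ + 1 ∧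
    A + κ * (D + 1) = ∑ k, (y (e k) + 1).choose 2 + κ.choose 2 ∧
    hFm D κ (y ∘ e) ≤ D - κ + 1 - A ∧ hFm D (κ - 1) (y ∘ e) = 0 ∧ y' = rest e y

theorem StripM.le {r D κ A : ℕ} {y y' : Fin r → ℕ} (hs : StripM D κ A y y') :
    hPm D y ≤ max (hPm (D - κ) y' - A) (hPm (D - κ - 1) y') := by
  obtain ⟨N, e, he, h1, h2, h3, -, h4, h5, rfl⟩ := hs
  have h6 := plane_stripm e he h1 h2 (B := D - κ + 1 - A) (by omega) h4 h5
  have h7 : D - κ + 1 - (D - κ + 1 - A) = A := by omega
  rwa [h7] at h6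

theorem StripM.count {r : ℕ} {D κ A : ℕ} {y y' : Fin r → ℕ} (hs : StripM D κ A y y') :
    1 ≤ κ ∧ κ + 1 ≤ D ∧ A ≤ D - κ + 1 ∧ (∀ i, y' i = y i ∨ y' i = 0) ∧
      (D + 2).choose 2 + A + ∑ i, (y' i + 1).choose 2 =
        (D - κ + 2).choose 2 + ∑ i, (y i + 1).choose 2 ∧
      (D - κ + 2).choose 2 = (D - κ - 1 + 2).choose 2 + (D - κ + 1) := by
  obtain ⟨N, e, he, h1, h2, h3, h4, -, -, rfl⟩ := hs
  refine ⟨h1, h2, h3, fun i => ?_, ?_, ?_⟩
  · by_cases hi : i ∈ Set.range e
    · obtain ⟨k, rfl⟩ := hi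
      right
      exact rest_mem k
    · left
      exact rest_not_mem hi
  · have h5 := mp_sum_rest he y (fun a => (a + 1).choose 2) (by decide)
    have h6 : (D + 2).choose 2 + κ.choose 2 = (D - κ + 2).choose 2 + κ * (D + 1) := by
      obtain ⟨δ, rfl⟩ : ∃ δ, D = δ + κ := ⟨D - κ, by omega⟩
      have e1 : δ + κ - κ = δ := by omega
      rw [e1]
      clear h2 h3 h4
      induction κ with
      | zero => simp
      | succ n ih =>
        rcases Nat.eq_zero_or_pos n with hn | hn
        · subst hn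
          have e2 : (δ + (0 + 1) + 2).choose 2 = (δ + 2) + (δ + 2).choose 2 := by
            have e3 : δ + (0 + 1) + 2 = (δ + 2) + 1 := by omega
            rw [e3, Nat.choose_succ_succ' (δ + 2) 1, Nat.choose_one_right]
          rw [e2]
          have e4 : (0 + 1).choose 2 = 0 := by decide
          rw [e4]
          omega
        · have ih' := ih hn (by omega)
          have e2 : (δ + (n + 1) + 2).choose 2 = (δ + n + 2) + (δ + n + 2).choose 2 := by
            have e3 : δ + (n + 1) + 2 = (δ + n + 2) + 1 := by omega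
            rw [e3, Nat.choose_succ_succ' (δ + n + 2) 1, Nat.choose_one_right]
          have e4 : (n + 1).choose 2 = n + n.choose 2 := by
            rw [Nat.choose_succ_succ' n 1, Nat.choose_one_right]
          rw [e2, e4]
          have e5 : (n + 1) * (δ + (n + 1) + 1) = n * (δ + n + 1) + (n + (δ + n + 2)) := by ring
          rw [e5]
          omega
    omega
  · have e3 : (D - κ + 2).choose 2 = (D - κ - 1 + 2) + (D - κ - 1 + 2).choose 2 := by
      have e4 : D - κ + 2 = (D - κ - 1 + 2) + 1 := by omega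
      rw [e4, Nat.choose_succ_succ' (D - κ - 1 + 2) 1, Nat.choose_one_right]
    rw [e3]
    omega

end Pool.Agent.Work.MP_0421d9_ag.LD
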