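import Pool.Agent.Work.MP_0421d9_ag.MWin
import Pool.Agent.Work.MP_0421d9_ag.MTrans
import Pool.Agent.Work.MP_0421d9_ag.MPlane

/-!
Balanced strips for arbitrary multiplicities (helper7, after the plan of helper79).

`κ = 2 u - q`, the multiplicities on `P¹ × P¹` are `k i = κ - v i`, the bidegree is
`(H - 1, κ)`; there the dimension is the expected one by `rect_half`.
-/

namespace Pool.Agent.Work.MP_0421d9_ag.LD

open MvPolynomial Module

theorem mg_two_choose (n : ℕ) : 2 * (n + 1).choose 2 = n * (n + 1) := by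
  rw [Nat.choose_two_right]
  have h : 2 ∣ (n + 1) * (n + 1 - 1) := by
    rw [Nat.add_sub_cancel, mul_comm]
    exact (Nat.even_mul_succ_self n).two_dvd
  rw [Nat.mul_div_cancel' h, Nat.add_sub_cancel, mul_comm]

/-- `C(v + 1, 2)` for `v = κ - k` -/
theorem mg_choose_sub {v k κ : ℕ} (h : v + k = κ) :
    (v + 1).choose 2 + κ * k + k = (κ + 1).choose 2 + (k + 1).choose 2 := by
  have h1 := mg_two_choose v
  have h2 := mg_two_choose k
  have h3 := mg_two_choose κ
  subst h
  have h4 : 2 * ((v + 1).choose 2 + (v + k) * k + k) =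
      2 * ((v + k + 1).choose 2 + (k + 1).choose 2) := by
    calc 2 * ((v + 1).choose 2 + (v + k) * k + k)
        = 2 * (v + 1).choose 2 + 2 * ((v + k) * k) + 2 * k := by ring
      _ = v * (v + 1) + 2 * ((v + k) * k) + 2 * k := by rw [h1]
      _ = (v + k) * (v + k + 1) + k * (k + 1) := by ring
      _ = 2 * (v + k + 1).choose 2 + 2 * (k + 1).choose 2 := by rw [h3, h2]
      _ = 2 * ((v + k + 1).choose 2 + (k + 1).choose 2) := by ring
  omega

theorem mg_le {B D κ a K b S : ℕ} (h : D + 1 + a + K = κ + B + b + S) (h1 : K ≤ S)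
    (h2 : 8 * a ≤ 7 * b) : B ≤ D - κ + 1 := by omega

/-- balanced strips: `E + Y = q t + H` with `E = D + 1 - u`, `Y = ∑ (u - v k)`,
`κ = 2 u - q`, `k i = κ - v i` -/
theorem good_strip {r D t q H u : ℕ} {y : Fin r → ℕ} (e : Fin (2 * t + 1) → Fin r)
    (he : Function.Injective e) (hu1 : 1 ≤ u) (hv : ∀ k, y (e k) ≤ u)
    (hE : D + 1 + ∑ k, (u - y (e k)) = u + q * t + H) (hq : q ≤ u)
    (h1 : t ≤ 8 * H) (h2 : 8 * H ≤ 7 * t) (ht : 500 ≤ t)
    (hk : ∀ k, 26 * ((2 * u - q - y (e k)) * (2 * u - q - y (e k) + 1)) ≤ u)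
    (hk' : ∀ k, 8 * (2 * u - q - y (e k)) ≤ t) (hD : 4 * u ≤ D) :
    ∃ κ A y', StripM D κ A y y' ∧ κ + q = 2 * u ∧ t * u ≤ 12 * A ∧
      t * u + 12 * A ≤ 12 * (D - κ + 1) := by
  obtain ⟨κ, hκ⟩ : ∃ κ, κ + q = 2 * u := ⟨2 * u - q, by omega⟩
  have hκ' : 2 * u - q = κ := by omega
  simp only [hκ'] at hk hk'
  have hκu : u ≤ κ := by omega
  have hκu2 : κ ≤ 2 * u := by omega
  obtain ⟨k, hkd⟩ : ∃ k : Fin (2 * t + 1) → ℕ, ∀ i, k i = κ - y (e i) :=
    ⟨fun i => κ - y (e i), fun i => rfl⟩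
  simp only [← hkd] at hk hk'
  have hyk : ∀ i, y (e i) + k i = κ := fun i => by
    have := hkd i; have := hv i; omega
  -- sums
  have hcard : ∀ c : ℕ, ∑ _i : Fin (2 * t + 1), c = (2 * t + 1) * c := fun c => by simp
  have hSv : ∑ i, y (e i) + ∑ i, k i = (2 * t + 1) * κ := by
    rw [← Finset.sum_add_distrib, ← hcard]
    exact Finset.sum_congr rfl fun i _ => hyk i
  have hSu : ∑ i, (u - y (e i)) + ∑ i, y (e i) = (2 * t + 1) * u := by
    rw [← Finset.sum_add_distrib, ← hcard]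
    exact Finset.sum_congr rfl fun i _ => Nat.sub_add_cancel (hv i)
  have hκt : κ * t + q * t = 2 * (u * t) := by
    rw [← Nat.add_mul, hκ]; ring
  have hu3 : (2 * t + 1) * u = 2 * (u * t) + u := by ring
  have hHv : H + ∑ i, y (e i) = D + κ * t + 1 := by omega
  -- the number of conditions on `P¹ × P¹`
  set S := ∑ i, (k i + 1).choose 2 with hS
  have hS2 : 52 * S ≤ (2 * t + 1) * u := by
    rw [hS, Finset.mul_sum, ← hcard]
    refine Finset.sum_le_sum fun i _ => ?_
    have a1 := hk i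
    have a2 := mg_two_choose (k i)
    omega
  have htu : u * 500 ≤ u * t := Nat.mul_le_mul_left _ ht
  have hHu : u * t ≤ 8 * (H * κ) := by
    calc u * t ≤ κ * (8 * H) := Nat.mul_le_mul hκu h1
      _ = 8 * (H * κ) := by ring
  have hHκ : H * (κ + 1) = H * κ + H := by ring
  have hhalf : 2 * S ≤ H * (κ + 1) := by omega
  have hrect : hRm H (κ + 1) k + S = H * (κ + 1) :=
    rect_half (fun i => by have := hk' i; omega)
      (fun i => by have := hyk i; omega) hhalf
  -- the identities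
  have hid : ∑ i, (y (e i) + 1).choose 2 + κ * ∑ i, k i + ∑ i, k i =
      (2 * t + 1) * (κ + 1).choose 2 + S := by
    rw [hS, ← hcard, Finset.mul_sum, ← Finset.sum_add_distrib, ← Finset.sum_add_distrib,
      ← Finset.sum_add_distrib]
    exact Finset.sum_congr rfl fun i _ => mg_choose_sub (hyk i)
  have hchoose : κ.choose 2 + κ = (κ + 1).choose 2 := by
    rw [Nat.choose_succ_succ' κ 1, Nat.choose_one_right]; ring
  have h2c := mg_two_choose κ
  -- `B`
  obtain ⟨B, hB⟩ : ∃ B, B + S = H * (κ + 1) := ⟨_, hrect⟩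
  have hBr : hRm H (κ + 1) k = B := by omega
  have hHt : H ≤ t := by omega
  -- `(t - H) κ ≤ A`
  have hkS : ∑ i, k i ≤ S := by
    rw [hS]
    refine Finset.sum_le_sum fun i _ => ?_
    have a1 : (k i + 1).choose 2 = (k i).choose 1 + (k i).choose 2 :=
      Nat.choose_succ_succ' (k i) 1
    rw [Nat.choose_one_right] at a1
    omega
  have hHκt : 8 * (H * κ) ≤ 7 * (κ * t) := by
    calc 8 * (H * κ) = (8 * H) * κ := by ring
      _ ≤ (7 * t) * κ := Nat.mul_le_mul_right _ h2
      _ = 7 * (κ * t) := by ring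
  have h2t : (2 * t + 1) * κ = 2 * (κ * t) + κ := by ring
  have hD2 : D + 1 + H * κ + ∑ i, k i = κ + B + κ * t + S := by omega
  have hut : u * t ≤ κ * t := Nat.mul_le_mul_right _ hκu
  have htu' : t * u = u * t := Nat.mul_comm _ _
  have hAB : B ≤ D - κ + 1 := mg_le hD2 hkS hHκt
  refine ⟨κ, D - κ + 1 - B, rest e y, ⟨2 * t + 1, e, he, by omega, by omega, by omega, ?_, ?_, ?_,
    rfl⟩, hκ, by omega, by omega⟩
  · obtain ⟨A, hA⟩ : ∃ A, A + B = D - κ + 1 := ⟨D - κ + 1 - B, by omega⟩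
    have hA' : D - κ + 1 - B = A := by omega
    rw [hA']
    have hA2 : A + B + κ = D + 1 := by omega
    generalize ∑ i, (y (e i) + 1).choose 2 = s1 at *
    generalize ∑ i, k i = K at *
    generalize ∑ i, y (e i) = W at *
    generalize (κ + 1).choose 2 = c1 at *
    generalize κ.choose 2 = c2 at *
    have e1 : (A : ℤ) + B + κ = D + 1 := by exact_mod_cast hA2
    have e2 : (D : ℤ) + 1 + H * κ + K = κ + B + κ * t + S := by exact_mod_cast hD2
    have e3 : (s1 : ℤ) + κ * K + K = (2 * t + 1) * c1 + S := by exact_mod_cast hid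
    have e4 : (c2 : ℤ) + κ = c1 := by exact_mod_cast hchoose
    have e5 : (2 : ℤ) * c1 = κ * (κ + 1) := by exact_mod_cast h2c
    have e6 : (W : ℤ) + K = (2 * t + 1) * κ := by exact_mod_cast hSv
    have e7 : (H : ℤ) + W = D + κ * t + 1 := by exact_mod_cast hHv
    have e8 : (A : ℤ) + κ * (D + 1) = s1 + c2 := by
      linear_combination e1 + e2 - e3 - e4 + (t + 1 : ℤ) * (-e5) + (κ : ℤ) * e6 - (κ : ℤ) * e7
    exact_mod_cast e8
  · have h5 : D - κ + 1 - (D - κ + 1 - B) = B := by omega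
    rw [h5, ← hBr]
    have h6 := transform_m (D := D) (κ := κ) (t := t) (H := H) (u := y ∘ e) (by omega)
      (fun i => by have := hyk i; simp only [Function.comp]; omega) (by omega) hHv
    have h7 : (fun i => κ - (y ∘ e) i) = k := by
      funext i
      rw [hkd i]; rfl
    rw [h7] at h6
    exact h6
  · apply transform_empty_m (by omega) (by omega)
    have h8 : (κ - 1) * t + t = κ * t := by
      obtain ⟨κ', rfl⟩ : ∃ κ', κ = κ' + 1 := ⟨κ - 1, by omega⟩
      simp only [Nat.add_sub_cancel]; ring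
    simp only [Function.comp]
    omega

end Pool.Agent.Work.MP_0421d9_ag.LD
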