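import Mathlib

/-! Pools of multiplicities (numerical part of the mixed theorem). -/

namespace Pool.Agent.Work.MP_0421d9_ag.LD

/-- the largest multiplicity in the pool `s` -/
def hi (M s : ℕ) : ℕ := min (((s + 1) ^ 2 - 1) / 900) M

/-- the smallest multiplicity in the pool `s` -/
def lo (s : ℕ) : ℕ := (s ^ 2 + 899) / 900

/-- the points in the pool `s` -/
def pool {r : ℕ} (y : Fin r → ℕ) (s : ℕ) : Finset (Fin r) :=
  Finset.univ.filter (fun i => y i ≠ 0 ∧ Nat.sqrt (900 * y i) = s)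

theorem mpool_mem {r s : ℕ} {y : Fin r → ℕ} {i : Fin r} (h : i ∈ pool y s) :
    y i ≠ 0 ∧ s * s ≤ 900 * y i ∧ 900 * y i < (s + 1) * (s + 1) ∧ 30 ≤ s := by
  simp only [pool, Finset.mem_filter, Finset.mem_univ, true_and] at h
  obtain ⟨h0, h1⟩ := h
  have h2 := Nat.sqrt_le (900 * y i)
  have h3 := Nat.lt_succ_sqrt (900 * y i)
  rw [h1] at h2 h3
  refine ⟨h0, h2, h3, ?_⟩
  by_contra hs
  have hs' : s + 1 ≤ 30 := by omega
  have h4 : (s + 1) * (s + 1) ≤ 30 * 30 := Nat.mul_le_mul hs' hs'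
  have h5 : 1 ≤ y i := Nat.one_le_iff_ne_zero.mpr h0
  have h6 : 900 * y i < (s + 1) * (s + 1) := h3
  omega

theorem pool_bounds {r M s : ℕ} {y : Fin r → ℕ} (hy : ∀ i, y i ≤ M) {i : Fin r}
    (hi' : i ∈ pool y s) : 1 ≤ lo s ∧ lo s ≤ y i ∧ y i ≤ hi M s ∧ hi M s ≤ M ∧
      225 * ((hi M s - lo s) * (hi M s - lo s)) ≤ lo s := by
  obtain ⟨h0, h1, h2, h3⟩ := mpool_mem hi'
  have hyi := hy i
  have hsq : s ^ 2 = s * s := sq s
  have hsq1 : (s + 1) ^ 2 = s * s + 2 * s + 1 := by ring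
  have hsq2 : (s + 1) * (s + 1) = s * s + 2 * s + 1 := by ring
  have h30 : 30 * 30 ≤ s * s := Nat.mul_le_mul h3 h3
  have hlo : lo s = (s * s + 899) / 900 := by rw [lo, hsq]
  have hhi : hi M s ≤ (s * s + 2 * s) / 900 := by
    rw [hi, hsq1]; exact min_le_left _ _
  have hhi' : hi M s = min ((s * s + 2 * s) / 900) M := by
    rw [hi, hsq1]; rfl
  generalize hq : s * s = q at *
  refine ⟨by omega, by omega, ?_, ?_, ?_⟩
  · rw [hhi']; apply le_min _ hyi; omega
  · rw [hhi']; exact min_le_right _ _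
  · set a := hi M s
    set b := lo s
    have hab : 450 * (a - b) ≤ s := by omega
    have h5 : (450 * (a - b)) * (450 * (a - b)) ≤ s * s := Nat.mul_le_mul hab hab
    rw [hq] at h5
    have h6 : q ≤ 900 * b := by omega
    have h7 : (450 * (a - b)) * (450 * (a - b)) = 202500 * ((a - b) * (a - b)) := by ring
    rw [h7] at h5
    omega

/-- enough points -/
def Avail {r : ℕ} (M d s : ℕ) (y : Fin r → ℕ) : Prop := 5 * d ≤ 2 * (hi M s * (pool y s).card)

theorem mpool_sum_sq (S : ℕ) : 6 * ∑ s ∈ Finset.range (S + 1), ((s + 1) * (s + 1) + 899) =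
    (S + 1) * ((S + 2) * (2 * S + 3) + 5394) := by
  induction S with
  | zero => simp
  | succ n ih => rw [Finset.sum_range_succ, mul_add, ih]; ring

theorem mpool_sum {r M : ℕ} {y : Fin r → ℕ} (hy : ∀ i, y i ≤ M) :
    ∑ i, (y i + 1).choose 2 =
      ∑ s ∈ Finset.range (Nat.sqrt (900 * M) + 1), ∑ i ∈ pool y s, (y i + 1).choose 2 := by
  have h1 : ∑ i, (y i + 1).choose 2 =
      ∑ i ∈ Finset.univ.filter (fun i => y i ≠ 0), (y i + 1).choose 2 := by
    rw [Finset.sum_filter]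
    apply Finset.sum_congr rfl
    intro i _
    by_cases h : y i = 0
    · simp [h]
    · simp [h]
  rw [h1, ← Finset.sum_fiberwise_of_maps_to
    (t := Finset.range (Nat.sqrt (900 * M) + 1)) (g := fun i => Nat.sqrt (900 * y i))]
  · apply Finset.sum_congr rfl
    intro s _
    rw [Finset.filter_filter]
    rfl
  · intro i _
    rw [Finset.mem_range]
    exact Nat.lt_succ_of_le (Nat.sqrt_le_sqrt (Nat.mul_le_mul_left 900 (hy i)))

theorem mpool_one {r M d s : ℕ} {y : Fin r → ℕ} (hy : ∀ i, y i ≤ M) (h : ¬ Avail M d s y) :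
    3600 * ∑ i ∈ pool y s, (y i + 1).choose 2 ≤ 5 * d * ((s + 1) * (s + 1) + 899) := by
  have h1 : ∑ i ∈ pool y s, (y i + 1).choose 2 ≤ (pool y s).card * (hi M s + 1).choose 2 := by
    rw [← smul_eq_mul]
    apply Finset.sum_le_card_nsmul
    intro i hi'
    have := (pool_bounds hy hi').2.2.1
    exact Nat.choose_le_choose 2 (by omega)
  have h2 : 2 * (hi M s + 1).choose 2 = hi M s * (hi M s + 1) := by
    rw [Nat.choose_two_right, Nat.add_sub_cancel, mul_comm, Nat.div_mul_cancel, mul_comm]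
    rw [mul_comm]; exact (Nat.even_mul_succ_self _).two_dvd
  have h3 : 2 * (hi M s * (pool y s).card) < 5 * d := by
    rw [Avail] at h; omega
  have h4 : 900 * (hi M s + 1) ≤ (s + 1) * (s + 1) + 899 := by
    have h5 : hi M s ≤ ((s + 1) ^ 2 - 1) / 900 := min_le_left _ _
    have h6 : (s + 1) ^ 2 = (s + 1) * (s + 1) := sq _
    have h7 : 1 ≤ (s + 1) * (s + 1) := Nat.one_le_iff_ne_zero.mpr (by positivity)
    rw [h6] at h5
    omega
  calc 3600 * ∑ i ∈ pool y s, (y i + 1).choose 2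
      ≤ 3600 * ((pool y s).card * (hi M s + 1).choose 2) := Nat.mul_le_mul_left _ h1
    _ = 900 * (2 * (pool y s).card) * (2 * (hi M s + 1).choose 2) := by ring
    _ = (2 * (hi M s * (pool y s).card)) * (900 * (hi M s + 1)) := by rw [h2]; ring
    _ ≤ 5 * d * ((s + 1) * (s + 1) + 899) := Nat.mul_le_mul h3.le h4

theorem mpool_cube {S : ℕ} (hS : 1200 ≤ S) :
    1000 * ((S + 1) * ((S + 2) * (2 * S + 3) + 5394)) ≤ 2012 * S ^ 3 := by
  obtain ⟨k, rfl⟩ := Nat.exists_eq_add_of_le hS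
  ring_nf
  nlinarith [Nat.zero_le k, Nat.zero_le (k ^ 2), Nat.zero_le (k ^ 3)]

/-- pigeonhole -/
theorem none_avail {r M d D : ℕ} {y : Fin r → ℕ} (hM : 1600 ≤ M) (hd : 14400 * M ^ 3 ≤ d ^ 2)
    (hy : ∀ i, y i ≤ M) (hD : d / 2 < D + 2 * M) (h : ∀ s, ¬ Avail M d s y) :
    ∑ i, (y i + 1).choose 2 + (M - 1) * (M - 1) < (D + 2).choose 2 := by
  set S := Nat.sqrt (900 * M) with hS
  set T := ∑ i, (y i + 1).choose 2 with hT
  have hS1 : S * S ≤ 900 * M := Nat.sqrt_le _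
  have hS2 : 1200 ≤ S := by
    rw [hS, Nat.le_sqrt]; omega
  have hS3 : S ^ 3 ≤ 225 * d := by
    have h1 : (S ^ 3) ^ 2 ≤ (225 * d) ^ 2 := by
      calc (S ^ 3) ^ 2 = (S * S) ^ 3 := by ring
        _ ≤ (900 * M) ^ 3 := Nat.pow_le_pow_left hS1 3
        _ = 50625 * (14400 * M ^ 3) := by ring
        _ ≤ 50625 * d ^ 2 := Nat.mul_le_mul_left _ hd
        _ = (225 * d) ^ 2 := by ring
    exact (Nat.pow_le_pow_iff_left (by norm_num)).mp h1
  have hT1 : 21600 * T ≤ 5 * d * ((S + 1) * ((S + 2) * (2 * S + 3) + 5394)) := by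
    rw [← mpool_sum_sq, hT, mpool_sum hy, ← hS]
    calc 21600 * ∑ s ∈ Finset.range (S + 1), ∑ i ∈ pool y s, (y i + 1).choose 2
        = 6 * ∑ s ∈ Finset.range (S + 1), 3600 * ∑ i ∈ pool y s, (y i + 1).choose 2 := by
          rw [← Finset.mul_sum]; ring
      _ ≤ 6 * ∑ s ∈ Finset.range (S + 1), 5 * d * ((s + 1) * (s + 1) + 899) := by
          apply Nat.mul_le_mul_left
          apply Finset.sum_le_sum
          intro s _
          exact mpool_one hy (h s)
      _ = 5 * d * (6 * ∑ s ∈ Finset.range (S + 1), ((s + 1) * (s + 1) + 899)) := by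
          rw [← Finset.mul_sum]; ring
  have hS4 : 1000 * ((S + 1) * ((S + 2) * (2 * S + 3) + 5394)) ≤ 2012 * S ^ 3 :=
    mpool_cube hS2
  have hT2 : 21600000 * T ≤ 2263500 * d ^ 2 := by
    calc 21600000 * T = 1000 * (21600 * T) := by ring
      _ ≤ 1000 * (5 * d * ((S + 1) * ((S + 2) * (2 * S + 3) + 5394))) := Nat.mul_le_mul_left _ hT1
      _ = 5 * d * (1000 * ((S + 1) * ((S + 2) * (2 * S + 3) + 5394))) := by ring
      _ ≤ 5 * d * (2012 * (225 * d)) :=
          Nat.mul_le_mul_left _ (hS4.trans (Nat.mul_le_mul_left _ hS3))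
      _ = 2263500 * d ^ 2 := by ring
  have hM2 : 4800 * M ≤ d := by
    have h1 : (4800 * M) ^ 2 ≤ d ^ 2 := by
      calc (4800 * M) ^ 2 = 14400 * (1600 * M ^ 2) := by ring
        _ ≤ 14400 * (M * M ^ 2) := by gcongr
        _ = 14400 * M ^ 3 := by ring
        _ ≤ d ^ 2 := hd
    exact (Nat.pow_le_pow_iff_left (by norm_num)).mp h1
  have hD2 : 1199 * d ≤ 2400 * D := by omega
  have hc : 2 * (D + 2).choose 2 = (D + 2) * (D + 1) := by
    rw [Nat.choose_two_right, show D + 2 - 1 = D + 1 by omega, Nat.mul_div_cancel']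
    rw [mul_comm]; exact (Nat.even_mul_succ_self _).two_dvd
  have hMM : (M - 1) * (M - 1) ≤ M * M := Nat.mul_le_mul (Nat.sub_le _ _) (Nat.sub_le _ _)
  have hMM2 : 23040000 * (M * M) ≤ d * d := by
    calc 23040000 * (M * M) = (4800 * M) * (4800 * M) := by ring
      _ ≤ d * d := Nat.mul_le_mul hM2 hM2
  have hDD : 1437601 * (d * d) ≤ 5760000 * (D * D) := by
    calc 1437601 * (d * d) = (1199 * d) * (1199 * d) := by ring
      _ ≤ (2400 * D) * (2400 * D) := Nat.mul_le_mul hD2 hD2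
      _ = 5760000 * (D * D) := by ring
  have hd0 : 0 < d * d := by
    have : 0 < d := by omega
    positivity
  have hdd : d ^ 2 = d * d := sq d
  rw [hdd] at hT2
  have hc2 : D * D < 2 * (D + 2).choose 2 := by rw [hc]; nlinarith
  omega

end Pool.Agent.Work.MP_0421d9_ag.LD
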