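import Mathlib
import Pool.Agent.Work.MP_0421d9_ag.MPG

/-!
Balanced strips for a pure class: the arithmetic.
-/

namespace Pool.Agent.Work.MP_0421d9_ag.LD

/-- first case of `pure_good` -/
theorem mres_case1 {E u : ℕ} (hu : 1 ≤ u) (hE : 999 * u ≤ E) (h : 3 * (u * u) ≤ E + u) :
    ∃ t H, E = u * t + H ∧ t ≤ 8 * H ∧ 8 * H ≤ 7 * t := by
  obtain ⟨t, ht⟩ : ∃ t, t = 2 * E / (2 * u + 1) := ⟨_, rfl⟩
  have h1 : t * (2 * u + 1) ≤ 2 * E := by rw [ht]; exact Nat.div_mul_le_self _ _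
  have h2 : 2 * E < (t + 1) * (2 * u + 1) := by
    have := Nat.lt_mul_div_succ (2 * E) (show 0 < 2 * u + 1 by omega)
    rw [← ht] at this
    rw [mul_comm (t + 1)]
    exact this
  have e1 : t * (2 * u + 1) = 2 * (u * t) + t := by ring
  have e2 : (t + 1) * (2 * u + 1) = 2 * (u * t) + t + 2 * u + 1 := by ring
  rw [e1] at h1
  rw [e2] at h2
  have h3 : 8 * u ≤ 3 * t := by
    rcases Nat.lt_or_ge u 11 with h10 | h10
    · interval_cases u <;> omega
    · by_contra hc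
      have h4 : 3 * t + 1 ≤ 8 * u := by omega
      have h5 : 3 * (u * t) + u ≤ 8 * (u * u) := by
        calc 3 * (u * t) + u = u * (3 * t + 1) := by ring
          _ ≤ u * (8 * u) := Nat.mul_le_mul_left u h4
          _ = 8 * (u * u) := by ring
      have h6 : 11 * u ≤ u * u := Nat.mul_le_mul_right u h10
      omega
  exact ⟨t, E - u * t, by omega, by omega, by omega⟩

/-- second case of `pure_good`: one of the two divisions falls into the window -/
theorem mres_window {E t n : ℕ} (ht : 1 ≤ t) (hE : t + 1 ≤ E) (hn : 1 ≤ n)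
    (h1 : (4 * n - 3) * (t * (t + 1)) ≤ 4 * E) (h2 : 4 * E ≤ (4 * n - 1) * (t * (t + 1)))
    (hnot : ¬ (t ≤ 8 * (E % t) ∧ 8 * (E % t) ≤ 7 * t)) :
    ∃ q H, E = q * (t + 1) + H ∧ q ≤ E / t ∧ t + 1 ≤ 8 * H ∧ 8 * H ≤ 7 * (t + 1) := by
  have hdiv : E = E / t * t + E % t := (Nat.div_add_mod' E t).symm
  have hmod : E % t < t := Nat.mod_lt _ (by omega)
  obtain ⟨q0, hq0⟩ : ∃ q0, q0 = E / t := ⟨_, rfl⟩
  obtain ⟨H0, hH0⟩ : ∃ H0, H0 = E % t := ⟨_, rfl⟩
  rw [← hq0, ← hH0] at hdiv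
  rw [← hH0] at hmod hnot
  rw [← hq0]
  -- integers
  have z1 : (4 * (n : ℤ) - 3) * (t * (t + 1)) ≤ 4 * E := by
    have : ((4 * n - 3 : ℕ) : ℤ) = 4 * (n : ℤ) - 3 := by omega
    rw [← this]; exact_mod_cast h1
  have z2 : 4 * (E : ℤ) ≤ (4 * (n : ℤ) - 1) * (t * (t + 1)) := by
    have : ((4 * n - 1 : ℕ) : ℤ) = 4 * (n : ℤ) - 1 := by omega
    rw [← this]; exact_mod_cast h2
  have zd : (E : ℤ) = q0 * t + H0 := by exact_mod_cast hdiv
  have zt : (1 : ℤ) ≤ t := by exact_mod_cast ht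
  have zn : (1 : ℤ) ≤ n := by exact_mod_cast hn
  -- finishing from an integer solution
  have key : ∀ c : ℤ, 0 ≤ c → ∀ H' : ℤ, H' = E - ((q0 : ℤ) - c) * (t + 1) →
      (t : ℤ) + 1 ≤ 8 * H' → 8 * H' ≤ 7 * ((t : ℤ) + 1) →
      ∃ q H, E = q * (t + 1) + H ∧ q ≤ q0 ∧ t + 1 ≤ 8 * H ∧ 8 * H ≤ 7 * (t + 1) := by
    intro c hc H' hH' ha hb
    have hEt : (t : ℤ) + 1 ≤ E := by exact_mod_cast hE
    have hpos : 0 ≤ (q0 : ℤ) - c := by
      by_contra hneg
      have h3 : (q0 : ℤ) - c ≤ -1 := by omega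
      have h4 : ((q0 : ℤ) - c) * (t + 1) ≤ -1 * (t + 1) :=
        mul_le_mul_of_nonneg_right h3 (by omega)
      omega
    refine ⟨((q0 : ℤ) - c).toNat, H'.toNat, ?_, by omega, by omega, by omega⟩
    have h5 : (((q0 : ℤ) - c).toNat : ℤ) = (q0 : ℤ) - c := Int.toNat_of_nonneg hpos
    have h6 : (H'.toNat : ℤ) = H' := Int.toNat_of_nonneg (by omega)
    have h7 : (E : ℤ) = (((q0 : ℤ) - c).toNat : ℤ) * ((t : ℤ) + 1) + (H'.toNat : ℤ) := by
      rw [h5, h6, hH']; ring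
    exact_mod_cast h7
  have hcase : 8 * H0 < t ∨ 7 * t < 8 * H0 := by omega
  rcases hcase with hc | hc
  · -- `q = q0 - n`
    have zc : 8 * (H0 : ℤ) < t := by exact_mod_cast hc
    have zH0 : (0 : ℤ) ≤ H0 := by positivity
    refine key n (by omega) _ rfl ?_ ?_
    · -- `t (8 H' - s) ≥ 0`
      have h3 : 0 ≤ (t : ℤ) * (8 * ((E : ℤ) - ((q0 : ℤ) - n) * (t + 1)) - (t + 1)) := by
        have e : (t : ℤ) * (8 * ((E : ℤ) - ((q0 : ℤ) - n) * (t + 1)) - (t + 1)) =
            8 * (n * (t * (t + 1))) - 8 * E + 8 * H0 * (t + 1) - t * (t + 1)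
              + 8 * (E * (t + 1) - (q0 * t + H0) * (t + 1)) := by ring
        rw [e, ← zd]
        nlinarith [mul_nonneg zH0 (by omega : (0 : ℤ) ≤ (t : ℤ) + 1)]
      nlinarith
    · have h3 : 0 ≤ (t : ℤ) * (7 * ((t : ℤ) + 1) - 8 * ((E : ℤ) - ((q0 : ℤ) - n) * (t + 1))) := by
        have e : (t : ℤ) * (7 * ((t : ℤ) + 1) - 8 * ((E : ℤ) - ((q0 : ℤ) - n) * (t + 1))) =
            7 * (t * (t + 1)) - (8 * (n * (t * (t + 1))) - 8 * E + 8 * H0 * (t + 1))
              - 8 * (E * (t + 1) - (q0 * t + H0) * (t + 1)) := by ring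
        rw [e, ← zd]
        nlinarith [mul_le_mul_of_nonneg_right zc.le (by omega : (0 : ℤ) ≤ (t : ℤ) + 1)]
      nlinarith
  · -- `q = q0 - n + 1`
    have zc : 7 * (t : ℤ) < 8 * H0 := by exact_mod_cast hc
    have zm : (H0 : ℤ) < t := by exact_mod_cast hmod
    refine key (n - 1) (by omega) _ rfl ?_ ?_
    · have h3 : 0 ≤ (t : ℤ) * (8 * ((E : ℤ) - ((q0 : ℤ) - (n - 1)) * (t + 1)) - (t + 1)) := by
        have e : (t : ℤ) * (8 * ((E : ℤ) - ((q0 : ℤ) - (n - 1)) * (t + 1)) - (t + 1)) =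
            8 * (n * (t * (t + 1))) - 8 * E + 8 * H0 * (t + 1) - 9 * (t * (t + 1))
              + 8 * (E * (t + 1) - (q0 * t + H0) * (t + 1)) := by ring
        rw [e, ← zd]
        nlinarith [mul_le_mul_of_nonneg_right zc.le (by omega : (0 : ℤ) ≤ (t : ℤ) + 1)]
      nlinarith
    · have h3 : 0 ≤ (t : ℤ) *
          (7 * ((t : ℤ) + 1) - 8 * ((E : ℤ) - ((q0 : ℤ) - (n - 1)) * (t + 1))) := by
        have e : (t : ℤ) *
            (7 * ((t : ℤ) + 1) - 8 * ((E : ℤ) - ((q0 : ℤ) - (n - 1)) * (t + 1))) =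
            15 * (t * (t + 1)) - (8 * (n * (t * (t + 1))) - 8 * E + 8 * H0 * (t + 1))
              - 8 * (E * (t + 1) - (q0 * t + H0) * (t + 1)) := by ring
        rw [e, ← zd]
        nlinarith [mul_le_mul_of_nonneg_right zm.le (by omega : (0 : ℤ) ≤ (t : ℤ) + 1)]
      nlinarith

theorem pure_good {D u : ℕ} (hu : 1 ≤ u) (hD : 1000 * u ≤ D) (h : PG u u D) :
    ∃ t q H, D + 1 = u + q * t + H ∧ q ≤ u ∧ t ≤ 8 * H ∧ 8 * H ≤ 7 * t ∧
      (q = u ∨ (D + 1 ≤ 4 * (u * u) ∧ (u - q) * t ≤ 2 * u + t ∧ D + 1 ≤ u * t + u)) ∧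
      u * (2 * t + 1) ≤ 2 * D + 10 * u ∧ D + 1 ≤ 2 * (u * t) + 2 * u := by
  obtain ⟨E, hE⟩ : ∃ E, D + 1 = u + E := ⟨D + 1 - u, by omega⟩
  rcases h with h | ⟨n, hn, h1, h2⟩
  · obtain ⟨t, H, e1, e2, e3⟩ := mres_case1 (E := E) hu (by omega) (by omega)
    refine ⟨t, u, H, by omega, le_refl u, e2, e3, Or.inl rfl, ?_, ?_⟩
    · have e4 : u * (2 * t + 1) = 2 * (u * t) + u := by ring
      omega
    · have e5 : t ≤ u * t := Nat.le_mul_of_pos_left t hu
      omega
  · -- `t = ⌈E / u⌉`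
    obtain ⟨t, ht⟩ : ∃ t, t = (E + u - 1) / u := ⟨_, rfl⟩
    have a1 : u * t ≤ E + u - 1 := by rw [ht]; exact Nat.mul_div_le _ _
    have a2 : E + u - 1 < u * (t + 1) := by
      rw [ht]; exact Nat.lt_mul_div_succ _ (by omega)
    have e0 : u * (t + 1) = u * t + u := by ring
    rw [e0] at a2
    have a3 : E ≤ u * t := by omega
    have a4 : u * t < E + u := by omega
    have t1 : 1 ≤ t := by
      by_contra hc
      have : t = 0 := by omega
      rw [this] at a3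
      omega
    have e6 : (4 * n - 1) * (D + 1) = (4 * n - 1) * (E + u) := by rw [hE, add_comm u E]
    have e7 : (4 * n - 3) * (D + 1 + 3 * u) = (4 * n - 3) * (E + 4 * u) := by
      rw [hE]; congr 1; ring
    rw [e6] at h1
    rw [e7] at h2
    have uu : 0 < u * u := Nat.mul_pos (by omega) (by omega)
    -- the two bounds
    have b1 : (4 * n - 3) * (t * (t + 1)) ≤ 4 * E := by
      have c1 : (u * t) * (u * t + u) ≤ (E + u) * (E + 2 * u) :=
        Nat.mul_le_mul (by omega) (by omega)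
      have c2 : (E + u) * (E + 2 * u) ≤ E * (E + 4 * u) := by
        have : 2 * u * u ≤ E * u := Nat.mul_le_mul_right u (by omega)
        nlinarith
      have c3 : (4 * n - 3) * (t * (t + 1)) * (u * u) ≤ 4 * E * (u * u) := by
        calc (4 * n - 3) * (t * (t + 1)) * (u * u) = (4 * n - 3) * ((u * t) * (u * t + u)) := by
              ring
          _ ≤ (4 * n - 3) * (E * (E + 4 * u)) := Nat.mul_le_mul_left _ (c1.trans c2)
          _ = (4 * n - 3) * (E + 4 * u) * E := by ring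
          _ ≤ 4 * (u * u) * E := Nat.mul_le_mul_right E h2
          _ = 4 * E * (u * u) := by ring
      exact Nat.le_of_mul_le_mul_right c3 uu
    have b2 : 4 * E ≤ (4 * n - 1) * (t * (t + 1)) := by
      have c1 : E * (E + u) ≤ (u * t) * (u * t + u) := Nat.mul_le_mul a3 (by omega)
      have c3 : 4 * E * (u * u) ≤ (4 * n - 1) * (t * (t + 1)) * (u * u) := by
        calc 4 * E * (u * u) = 4 * (u * u) * E := by ring
          _ ≤ (4 * n - 1) * (E + u) * E := Nat.mul_le_mul_right E h1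
          _ = (4 * n - 1) * (E * (E + u)) := by ring
          _ ≤ (4 * n - 1) * ((u * t) * (u * t + u)) := Nat.mul_le_mul_left _ c1
          _ = (4 * n - 1) * (t * (t + 1)) * (u * u) := by ring
      exact Nat.le_of_mul_le_mul_right c3 uu
    have b3 : D + 1 ≤ 4 * (u * u) := by
      have c1 : 1 * (E + 4 * u) ≤ (4 * n - 3) * (E + 4 * u) :=
        Nat.mul_le_mul_right _ (by omega)
      omega
    have tE : t + 1 ≤ E := by
      have : t ≤ u * t := Nat.le_mul_of_pos_left t hu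
      by_contra hc
      have h3 : E ≤ t := by omega
      have h4 : u * E ≤ u * t := Nat.mul_le_mul_left u h3
      rcases Nat.lt_or_ge 1 u with h5 | h5
      · have h6 : 2 * E ≤ u * E := Nat.mul_le_mul_right E h5
        omega
      · have h6 : u = 1 := by omega
        rw [h6] at b3 hE hD
        omega
    have hq0 : E / t ≤ u := by
      have : E / t ≤ (u * t) / t := Nat.div_le_div_right a3
      rwa [Nat.mul_div_cancel _ (by omega)] at this
    by_cases hwin : t ≤ 8 * (E % t) ∧ 8 * (E % t) ≤ 7 * t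
    · have hdiv : E = E / t * t + E % t := (Nat.div_add_mod' E t).symm
      have hmod : E % t < t := Nat.mod_lt _ (by omega)
      refine ⟨t, E / t, E % t, by omega, hq0, hwin.1, hwin.2, Or.inr ⟨b3, ?_, by omega⟩, ?_,
        by omega⟩
      · have c1 : (u - E / t) * t + E / t * t = u * t := by
          rw [← add_mul]; congr 1; omega
        omega
      · have e4 : u * (2 * t + 1) = 2 * (u * t) + u := by ring
        omega
    · obtain ⟨q, H, c1, c2, c3, c4⟩ := mres_window t1 tE hn b1 b2 hwin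
      have e5 : u * (t + 1) = u * t + u := by ring
      refine ⟨t + 1, q, H, by omega, c2.trans hq0, c3, c4, Or.inr ⟨b3, ?_, by omega⟩, ?_,
        by omega⟩
      · have c5 : (u - q) * (t + 1) + q * (t + 1) = u * (t + 1) := by
          rw [← add_mul]; congr 1; omega
        omega
      · have e4 : u * (2 * (t + 1) + 1) = 2 * (u * t) + 3 * u := by ring
        omega

/-- the size of the multiplicities on `P¹ × P¹` -/
theorem kbound {D u t k w : ℕ} (hw : 225 * (w * w) ≤ u) (hD : 3600 * u ^ 3 ≤ D ^ 2)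
    (ht : D + 1 ≤ u * t + u) (hD' : 1000 * u ≤ D)
    (h : (k * t ≤ u + t ∧ 1 ≤ w) ∨ (k * t ≤ 2 * u + t ∧ w = 0 ∧ D + 1 ≤ 4 * (u * u))) :
    26 * ((k + w) * (k + w + 1)) ≤ u ∧ 8 * (k + w) ≤ t := by
  -- `u ≥ 225`
  have hu : 225 ≤ u := by
    rcases h with ⟨_, h1⟩ | ⟨_, _, h2⟩
    · have : 1 ≤ w * w := Nat.mul_pos h1 h1
      omega
    · by_contra hc
      have hu1 : u ≤ 224 := by omega
      have h3 : D ^ 2 < (4 * (u * u)) ^ 2 := Nat.pow_lt_pow_left (by omega) (by norm_num)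
      have h4 : (4 * (u * u)) ^ 2 = 16 * u * u ^ 3 := by ring
      have h5 : 16 * u * u ^ 3 ≤ 16 * 224 * u ^ 3 := Nat.mul_le_mul_right _ (by omega)
      have h6 : 16 * 224 * u ^ 3 ≤ 3600 * u ^ 3 := Nat.mul_le_mul_right _ (by norm_num)
      omega
  -- real numbers
  obtain ⟨x, hx⟩ : ∃ x : ℝ, x = Real.sqrt u := ⟨_, rfl⟩
  have hxx : x * x = u := by rw [hx]; exact Real.mul_self_sqrt (by positivity)
  have hx0 : 0 ≤ x := by rw [hx]; exact Real.sqrt_nonneg _
  have hx15 : 15 ≤ x := by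
    rw [hx]
    apply Real.le_sqrt_of_sq_le
    have : (225 : ℝ) ≤ u := by exact_mod_cast hu
    linarith
  have rD : 60 * (x * x * x) ≤ (D : ℝ) := by
    have h1 : (3600 : ℝ) * (u : ℝ) ^ 3 ≤ (D : ℝ) ^ 2 := by exact_mod_cast hD
    have h2 : (60 * (x * x * x)) ^ 2 ≤ (D : ℝ) ^ 2 := by
      calc (60 * (x * x * x)) ^ 2 = 3600 * (x * x) ^ 3 := by ring
        _ = 3600 * (u : ℝ) ^ 3 := by rw [hxx]
        _ ≤ _ := h1
    exact le_of_sq_le_sq h2 (by positivity)
  have rt : (D : ℝ) + 1 ≤ x * x * t + x * x := by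
    rw [hxx]; exact_mod_cast ht
  have rt2 : 59.9 * x ≤ t := by
    have h1 : x * x * (60 * x) ≤ x * x * ((t : ℝ) + 1) := by nlinarith
    have h2 : 60 * x ≤ (t : ℝ) + 1 := le_of_mul_le_mul_left h1 (by positivity)
    linarith
  have rw' : 15 * (w : ℝ) ≤ x := by
    have h1 : (225 : ℝ) * ((w : ℝ) * w) ≤ u := by exact_mod_cast hw
    rw [← hxx] at h1
    nlinarith [Nat.cast_nonneg (α := ℝ) w]
  have rk0 : (0 : ℝ) ≤ k := by positivity
  have rw0 : (0 : ℝ) ≤ w := by positivity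
  have rS : (k : ℝ) + w ≤ 1 + 0.0834 * x := by
    rcases h with ⟨h1, _⟩ | ⟨h1, h2, _⟩
    · have r1 : (k : ℝ) * t ≤ x * x + t := by rw [hxx]; exact_mod_cast h1
      have r2 : ((k : ℝ) - 1) * 59.9 ≤ x := by
        by_contra hc
        have r3 : x < ((k : ℝ) - 1) * 59.9 := lt_of_not_ge hc
        have r4 : 0 < (k : ℝ) - 1 := by nlinarith
        have r5 : ((k : ℝ) - 1) * (59.9 * x) ≤ ((k : ℝ) - 1) * t :=
          mul_le_mul_of_nonneg_left rt2 r4.le
        nlinarith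
      nlinarith
    · have r1 : (k : ℝ) * t ≤ 2 * (x * x) + t := by rw [hxx]; exact_mod_cast h1
      have r2 : ((k : ℝ) - 1) * 59.9 ≤ 2 * x := by
        by_contra hc
        have r3 : 2 * x < ((k : ℝ) - 1) * 59.9 := lt_of_not_ge hc
        have r4 : 0 < (k : ℝ) - 1 := by nlinarith
        have r5 : ((k : ℝ) - 1) * (59.9 * x) ≤ ((k : ℝ) - 1) * t :=
          mul_le_mul_of_nonneg_left rt2 r4.le
        nlinarith
      rw [h2]
      push_cast
      nlinarith
  constructor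
  · have r1 : (26 : ℝ) * (((k : ℝ) + w) * ((k : ℝ) + w + 1)) ≤ u := by
      rw [← hxx]
      have r2 : ((k : ℝ) + w) * ((k : ℝ) + w + 1) ≤ (1 + 0.0834 * x) * (2 + 0.0834 * x) :=
        mul_le_mul rS (by linarith) (by positivity) (by positivity)
      nlinarith
    exact_mod_cast r1
  · have r1 : (8 : ℝ) * ((k : ℝ) + w) ≤ t := by nlinarith
    exact_mod_cast r1

end Pool.Agent.Work.MP_0421d9_ag.LD
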