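import Mathlib

/-!
Selection of the points of a balanced strip in a pool of points whose multiplicities are not all
equal: the points are sorted and the smallest defects are exchanged against larger ones until the
remainder falls into the window.
-/

namespace Pool.Agent.Work.MP_0421d9_ag.LD

/-- the defects after exchanging the first `l` points -/
def mselY (J : ℕ → ℕ) (n N l : ℕ) : ℕ :=
  ∑ k ∈ Finset.range N, (if k < l then J (n + k) else J k)

theorem mselY_zero (J : ℕ → ℕ) (n N : ℕ) : mselY J n N 0 = ∑ k ∈ Finset.range N, J k := by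
  unfold mselY
  exact Finset.sum_congr rfl (fun k _ => by simp)

theorem mselY_succ (J : ℕ → ℕ) {n N l : ℕ} (hl : l < N) :
    mselY J n N (l + 1) + J l = mselY J n N l + J (n + l) := by
  unfold mselY
  have h : l ∈ Finset.range N := Finset.mem_range.2 hl
  rw [← Finset.add_sum_erase _ _ h, ← Finset.add_sum_erase (Finset.range N)
    (fun k => if k < l then J (n + k) else J k) h]
  have he : ∑ k ∈ (Finset.range N).erase l, (if k < l + 1 then J (n + k) else J k) =
      ∑ k ∈ (Finset.range N).erase l, (if k < l then J (n + k) else J k) := by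
    refine Finset.sum_congr rfl (fun k hk => ?_)
    have hne : k ≠ l := (Finset.mem_erase.1 hk).1
    by_cases h1 : k < l
    · rw [if_pos h1, if_pos (by omega)]
    · rw [if_neg h1, if_neg (by omega)]
  rw [he]
  simp only [lt_add_iff_pos_right, zero_lt_one, if_true, lt_irrefl, if_false]
  ring

/-- discrete intermediate value: the exchanges reach the window `[A, A + 6 t]` (times 8) -/
theorem msel_window {J : ℕ → ℕ} {n N w c t H A m : ℕ}
    (hJw : ∀ k, k < c → J k ≤ w) (hJn : ∀ l, n + l < c → J l + 1 ≤ J (n + l))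
    (hmN : m ≤ N) (hmc : n + m ≤ c) (hw : 8 * w ≤ 6 * t)
    (hA : 8 * H ≤ A + 6 * t) (hm : A ≤ 8 * (H + m)) :
    ∃ l, l ≤ m ∧ ∃ Δ, mselY J n N l = mselY J n N 0 + Δ ∧ A ≤ 8 * (H + Δ) ∧
      8 * (H + Δ) ≤ A + 6 * t := by
  classical
  have hgrow : ∀ l, l ≤ m → mselY J n N 0 + l ≤ mselY J n N l := by
    intro l
    induction l with
    | zero => intro _; simp
    | succ l ih =>
      intro hl
      have h1 := ih (by omega)
      have h2 := mselY_succ J (n := n) (N := N) (l := l) (by omega)
      have h3 := hJn l (by omega)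
      omega
  have hex : ∃ l, l ≤ m ∧ A ≤ 8 * (H + (mselY J n N l - mselY J n N 0)) :=
    ⟨m, le_refl m, by have := hgrow m (le_refl m); omega⟩
  obtain ⟨hl1, hl2⟩ := Nat.find_spec hex
  set l := Nat.find hex with hldef
  refine ⟨l, hl1, mselY J n N l - mselY J n N 0, ?_, hl2, ?_⟩
  · have := hgrow l hl1; omega
  · rcases Nat.eq_zero_or_pos l with h0 | h0
    · rw [h0]; simpa using hA
    · have hmin := Nat.find_min hex (m := l - 1) (by omega)
      have h4 : ¬ A ≤ 8 * (H + (mselY J n N (l - 1) - mselY J n N 0)) := by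
        intro h; exact hmin ⟨by omega, h⟩
      have h2 := mselY_succ J (n := n) (N := N) (l := l - 1) (by omega)
      rw [show l - 1 + 1 = l by omega] at h2
      have h5 := hJw (n + (l - 1)) (by omega)
      have h6 := hgrow (l - 1) (by omega)
      omega

theorem msel_pred {t : ℕ} (u : ℕ) (h : 1 ≤ t) : (t - 1) * u + u = t * u := by
  obtain ⟨s, rfl⟩ : ∃ s, t = s + 1 := ⟨t - 1, by omega⟩
  rw [Nat.add_sub_cancel]; ring

theorem msel_pred2 {t : ℕ} (w : ℕ) (h : 1 ≤ t) : (2 * (t - 1) + 1) * w + w = 2 * (t * w) := by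
  obtain ⟨s, rfl⟩ : ∃ s, t = s + 1 := ⟨t - 1, by omega⟩
  rw [Nat.add_sub_cancel]; ring

/-- the numerical part of `tune` -/
theorem msel_num {J : ℕ → ℕ} {n w c D u : ℕ}
    (hJw : ∀ k, k < c → J k ≤ w) (hJn : ∀ l, n + l < c → J l + 1 ≤ J (n + l))
    (hw1 : 1 ≤ w) (hw : 225 * (w * w) ≤ u) (hu : 1 ≤ u)
    (hn : 41 * D ≤ 20 * (u * n)) (hcard : 50 * (u * n) + 13 * D ≤ 50 * (u * c))
    (hD : 1000 * u ≤ D) (hD3 : 3600 * u ^ 3 ≤ D ^ 2) :
    ∃ t q H l, 2 * t + 1 ≤ n ∧ l ≤ 2 * t + 1 ∧ n + l ≤ c ∧
      D + 1 + mselY J n (2 * t + 1) l = u + q * t + H ∧ q ≤ u ∧ t ≤ 8 * H ∧ 8 * H ≤ 7 * t ∧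
      (u - q) * t ≤ u + t ∧ D + 1 ≤ u * t + u := by
  classical
  -- the bound for the defects
  have hnc : n ≤ c := by
    by_contra h
    have h1 : c ≤ n := by omega
    have h2 : u * c ≤ u * n := Nat.mul_le_mul_left u h1
    omega
  have hsum : ∀ N, N ≤ n → mselY J n N 0 ≤ N * w := by
    intro N hN
    rw [mselY_zero]
    calc ∑ k ∈ Finset.range N, J k ≤ ∑ k ∈ Finset.range N, w :=
          Finset.sum_le_sum (fun k hk => hJw k (by have := Finset.mem_range.1 hk; omega))
      _ = N * w := by simp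
  have h2w : 225 * w ≤ u := by nlinarith
  have hn1 : 2050 ≤ n := by
    by_contra h
    have h1 : n ≤ 2049 := by omega
    have h2 : u * n ≤ u * 2049 := Nat.mul_le_mul_left u h1
    omega
  -- existence of `t`
  have hex : ∃ t, 2 * t + 1 ≤ n ∧ D + 1 + mselY J n (2 * t + 1) 0 ≤ t * u + u := by
    refine ⟨(n - 1) / 2, by omega, ?_⟩
    set t := (n - 1) / 2 with ht
    have h1 : n ≤ 2 * t + 2 := by omega
    have h2 := hsum (2 * t + 1) (by omega)
    have h3 : 41 * D ≤ 20 * (u * (2 * t + 2)) :=
      hn.trans (Nat.mul_le_mul_left _ (Nat.mul_le_mul_left _ h1))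
    have h4 : 225 * (t * w) ≤ t * u := by
      calc 225 * (t * w) = t * (225 * w) := by ring
        _ ≤ t * u := Nat.mul_le_mul_left t h2w
    have h5 : u * (2 * t + 2) = 2 * (t * u) + 2 * u := by ring
    have h6 : (2 * t + 1) * w = 2 * (t * w) + w := by ring
    rw [h5] at h3
    rw [h6] at h2
    omega
  obtain ⟨ht1, ht2⟩ := Nat.find_spec hex
  set t := Nat.find hex with htdef
  have ht0 : 1 ≤ t := by
    by_contra h
    have : t = 0 := by omega
    rw [this] at ht2
    omega
  have hmin : t * u + u < D + 1 + mselY J n (2 * t + 1) 0 + u := by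
    have h := Nat.find_min hex (m := t - 1) (by omega)
    have h1 : ¬ (D + 1 + mselY J n (2 * (t - 1) + 1) 0 ≤ (t - 1) * u + u) := by
      intro h'; exact h ⟨by omega, h'⟩
    have h2 : mselY J n (2 * (t - 1) + 1) 0 ≤ mselY J n (2 * t + 1) 0 := by
      rw [mselY_zero, mselY_zero]
      exact Finset.sum_le_sum_of_subset (Finset.range_subset_range.2 (by omega))
    have h3 : (t - 1) * u + u = t * u := msel_pred u ht0
    omega
  -- upper bound for `t`
  have hup : 223 * (t * u) ≤ 225 * D := by
    have h := Nat.find_min hex (m := t - 1) (by omega)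
    have h1 : ¬ (D + 1 + mselY J n (2 * (t - 1) + 1) 0 ≤ (t - 1) * u + u) := by
      intro h'; exact h ⟨by omega, h'⟩
    have h2 := hsum (2 * (t - 1) + 1) (by omega)
    have h3 : (t - 1) * u + u = t * u := msel_pred u ht0
    have h4 : 225 * (t * w) ≤ t * u := by
      calc 225 * (t * w) = t * (225 * w) := by ring
        _ ≤ t * u := Nat.mul_le_mul_left t h2w
    have h5 : (2 * (t - 1) + 1) * w + w = 2 * (t * w) := msel_pred2 w ht0
    omega
  -- `t` is large compared with `w`
  have htu : D + 1 ≤ t * u + u := by omega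
  have ht999 : 999 ≤ t := by
    by_contra h
    have h1 : t ≤ 998 := by omega
    have h2 : t * u ≤ 998 * u := Nat.mul_le_mul_right u h1
    omega
  have htw : 8 * w ≤ 6 * t := by
    by_contra h
    have h1 : 6 * t + 1 ≤ 8 * w := by omega
    -- t + 1 ≤ 2 w
    have h2 : t + 1 ≤ 2 * w := by omega
    have h3 : D + 1 ≤ (t + 1) * u := by
      have : (t + 1) * u = t * u + u := by ring
      omega
    have h4 : D ≤ 2 * w * u := by
      have : (t + 1) * u ≤ 2 * w * u := Nat.mul_le_mul_right u h2
      omega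
    have h5 : D ^ 2 ≤ (2 * w * u) ^ 2 := Nat.pow_le_pow_left h4 2
    have h6 : (2 * w * u) ^ 2 = 4 * (w * w) * u ^ 2 := by ring
    have h7 : 225 * (w * w) * u ^ 2 ≤ u ^ 3 := by
      calc 225 * (w * w) * u ^ 2 ≤ u * u ^ 2 := Nat.mul_le_mul_right _ hw
        _ = u ^ 3 := by ring
    have h8 : 1 ≤ u ^ 3 := Nat.one_le_pow _ _ hu
    have h9 : 225 * (4 * (w * w) * u ^ 2) ≤ 4 * u ^ 3 := by nlinarith
    omega
  -- number of available exchanges
  obtain ⟨m, hm⟩ : ∃ m, m = t / 4 + 1 := ⟨_, rfl⟩
  have hmN : m ≤ 2 * t + 1 := by omega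
  have hmc : n + m ≤ c := by
    by_contra h
    have h1 : c + 1 ≤ n + m := by omega
    have h2 : u * (c + 1) ≤ u * (n + m) := Nat.mul_le_mul_left u h1
    have h3 : 4 * m ≤ t + 4 := by omega
    have h4 : u * (4 * m) ≤ u * (t + 4) := Nat.mul_le_mul_left u h3
    have h5 : u * (t + 4) = t * u + 4 * u := by ring
    have h6 : u * (4 * m) = 4 * (u * m) := by ring
    have h7 : u * (n + m) = u * n + u * m := by ring
    have h8 : u * (c + 1) = u * c + u := by ring
    omega
  -- division
  obtain ⟨Y, hY⟩ : ∃ Y, Y = mselY J n (2 * t + 1) 0 := ⟨_, rfl⟩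
  rw [← hY] at ht2 hmin
  obtain ⟨F, hF⟩ : ∃ F, D + 1 + Y = u + F := ⟨D + 1 + Y - u, by omega⟩
  obtain ⟨q, hq⟩ : ∃ q, q = F / t := ⟨_, rfl⟩
  obtain ⟨H, hH⟩ : ∃ H, H = F % t := ⟨_, rfl⟩
  have hdiv : F = q * t + H := by
    rw [hq, hH]; exact (Nat.div_add_mod' F t).symm
  have hHt : H < t := by rw [hH]; exact Nat.mod_lt _ (by omega)
  have hFle : F ≤ t * u := by omega
  have hFge : t * u < F + u := by omega
  have hqu : q ≤ u := by
    have h1 : q * t ≤ t * u := by omega
    have h2 : q * t ≤ u * t := by rw [mul_comm u t]; exact h1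
    exact Nat.le_of_mul_le_mul_right h2 (by omega)
  have hsub : ∀ q', q ≤ q' → (u - q') * t ≤ u + t := by
    intro q' hq'
    have h1 : (u - q') * t ≤ (u - q) * t := Nat.mul_le_mul_right t (by omega)
    have h2 : (u - q) * t + q * t = u * t := by
      rw [← add_mul]; congr 1; omega
    have h3 : u * t = t * u := mul_comm _ _
    omega
  have htu' : D + 1 ≤ u * t + u := by
    have h3 : u * t = t * u := mul_comm _ _
    omega
  by_cases hcase : 8 * H ≤ 7 * t
  · -- the window `[t, 7 t]`
    obtain ⟨l, hlm, Δ, hΔ, h1, h2⟩ := msel_window (J := J) (n := n) (N := 2 * t + 1) (w := w)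
      (c := c) (t := t) (H := H) (A := t) (m := m) hJw hJn hmN hmc htw (by omega) (by omega)
    refine ⟨t, q, H + Δ, l, ht1, by omega, by omega, ?_, hqu, h1, by omega, hsub q (le_refl q),
      htu'⟩
    rw [hΔ, ← hY]
    omega
  · -- the window `[9 t, 15 t]`
    obtain ⟨l, hlm, Δ, hΔ, h1, h2⟩ := msel_window (J := J) (n := n) (N := 2 * t + 1) (w := w)
      (c := c) (t := t) (H := H) (A := 9 * t) (m := m) hJw hJn hmN hmc htw (by omega) (by omega)
    obtain ⟨H', hH'⟩ : ∃ H', H + Δ = t + H' := ⟨H + Δ - t, by omega⟩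
    have hq1 : q + 1 ≤ u := by
      by_contra h
      have h3 : q = u := by omega
      rw [h3] at hdiv
      have h4 : u * t = t * u := mul_comm _ _
      omega
    refine ⟨t, q + 1, H', l, ht1, by omega, by omega, ?_, hq1, by omega, by omega,
      hsub (q + 1) (by omega), htu'⟩
    rw [hΔ, ← hY, add_mul, one_mul]
    omega

/-- sorting a finite set by a function -/
theorem msel_sort {r : ℕ} (P : Finset (Fin r)) (j : Fin r → ℕ) :
    ∃ b : Fin P.card → Fin r, Function.Injective b ∧ (∀ k, b k ∈ P) ∧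
      ∀ k l, k ≤ l → j (b k) ≤ j (b l) := by
  classical
  let f : Fin r ↪ (ℕ ×ₗ Fin r) := ⟨fun i => toLex (j i, i), fun a b h => by
    have := congrArg (fun z => (ofLex z).2) h
    simpa using this⟩
  have hc : (P.map f).card = P.card := Finset.card_map f
  let g := (P.map f).orderEmbOfFin hc
  have hg : ∀ k, ∃ i ∈ P, f i = g k := by
    intro k
    have := Finset.orderEmbOfFin_mem (P.map f) hc k
    exact Finset.mem_map.1 this
  choose b hbP hb using hg
  refine ⟨b, ?_, hbP, ?_⟩
  · intro k l h
    have : g k = g l := by rw [← hb k, ← hb l, h]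
    exact g.injective this
  · intro k l hkl
    have h1 : g k ≤ g l := g.monotone hkl
    rw [← hb k, ← hb l] at h1
    have h2 : toLex (j (b k), b k) ≤ toLex (j (b l), b l) := h1
    rw [Prod.Lex.toLex_le_toLex] at h2
    rcases h2 with h2 | h2
    · exact h2.le
    · exact h2.1.le

/-- `P` : points with multiplicities in `[u - w, u]`; no multiplicity occurs `n` times in `P` -/
theorem tune {r D u w n : ℕ} {y : Fin r → ℕ} (P : Finset (Fin r))
    (hP : ∀ i ∈ P, y i ≤ u ∧ u ≤ y i + w) (hw : 225 * (w * w) ≤ u) (hu : 1 ≤ u)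
    (hcl : ∀ v, (P.filter (fun i => y i = v)).card < n) (hn : 41 * D ≤ 20 * (u * n))
    (hcard : 50 * (u * n) + 13 * D ≤ 50 * (u * P.card)) (hD : 1000 * u ≤ D)
    (hD3 : 3600 * u ^ 3 ≤ D ^ 2) :
    ∃ (t q H : ℕ) (e : Fin (2 * t + 1) → Fin r), Function.Injective e ∧ (∀ k, e k ∈ P) ∧
      D + 1 + ∑ k, (u - y (e k)) = u + q * t + H ∧ q ≤ u ∧ t ≤ 8 * H ∧ 8 * H ≤ 7 * t ∧
      (u - q) * t ≤ u + t ∧ D + 1 ≤ u * t + u := by
  classical
  obtain ⟨b, hbi, hbP, hbm⟩ := msel_sort P (fun i => u - y i)
  have hPn : n < P.card := by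
    by_contra h
    have h2 : u * P.card ≤ u * n := Nat.mul_le_mul_left u (by omega)
    omega
  have hc0 : 0 < P.card := by omega
  -- the sorted sequence on `ℕ`
  let a : ℕ → Fin r := fun k => if h : k < P.card then b ⟨k, h⟩ else b ⟨0, hc0⟩
  have ha : ∀ k (h : k < P.card), a k = b ⟨k, h⟩ := fun k h => by simp only [a, dif_pos h]
  have haP : ∀ k, a k ∈ P := by
    intro k
    simp only [a]
    split_ifs
    · exact hbP _
    · exact hbP _
  have hainj : ∀ k l, k < P.card → l < P.card → a k = a l → k = l := by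
    intro k l hk hl h
    rw [ha k hk, ha l hl] at h
    have := hbi h
    simpa using this
  have hamono : ∀ k l, k ≤ l → l < P.card → u - y (a k) ≤ u - y (a l) := by
    intro k l hkl hl
    rw [ha k (by omega), ha l hl]
    exact hbm _ _ hkl
  obtain ⟨J, hJ⟩ : ∃ J : ℕ → ℕ, J = fun k => u - y (a k) := ⟨_, rfl⟩
  have hJw : ∀ k, k < P.card → J k ≤ w := by
    intro k _
    rw [hJ]
    have := hP (a k) (haP k)
    show u - y (a k) ≤ w
    omega
  have hJn : ∀ l, n + l < P.card → J l + 1 ≤ J (n + l) := by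
    intro l hl
    have h1 : J l ≤ J (n + l) := by rw [hJ]; exact hamono l (n + l) (by omega) hl
    by_contra hcon
    have h2 : J (n + l) = J l := by omega
    -- all `n + 1` points `a l, .., a (l + n)` have the same multiplicity
    have h3 : ∀ k, k < n + 1 → y (a (l + k)) = u - J l := by
      intro k hk
      have e1 : J l ≤ J (l + k) := by rw [hJ]; exact hamono l (l + k) (by omega) (by omega)
      have e2 : J (l + k) ≤ J (n + l) := by
        rw [hJ]; exact hamono (l + k) (n + l) (by omega) hl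
      have e3 : J (l + k) = J l := by omega
      have e4 := (hP (a (l + k)) (haP _)).1
      rw [← e3, hJ]
      show y (a (l + k)) = u - (u - y (a (l + k)))
      omega
    have h4 : (Finset.range (n + 1)).card ≤ (P.filter (fun i => y i = u - J l)).card := by
      refine Finset.card_le_card_of_injOn (fun k => a (l + k)) ?_ ?_
      · intro k hk
        have hk' : k < n + 1 := by simpa using hk
        simp only [Finset.coe_filter, Set.mem_ofPred_eq]
        exact ⟨haP _, h3 k hk'⟩
      · intro k hk k' hk' h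
        have hk1 : k < n + 1 := by simpa using hk
        have hk2 : k' < n + 1 := by simpa using hk'
        have := hainj (l + k) (l + k') (by omega) (by omega) h
        omega
    rw [Finset.card_range] at h4
    have := hcl (u - J l)
    omega
  have hw1 : 1 ≤ w := by
    by_contra h
    have h0 : w = 0 := by omega
    have h1 := hJn 0 (by omega)
    have h2 := hJw (n + 0) (by omega)
    omega
  obtain ⟨t, q, H, l, h1, h2, h3, h4, h5, h6, h7, h8, h9⟩ :=
    msel_num (J := J) (n := n) (w := w) (c := P.card) (D := D) (u := u) hJw hJn hw1 hw hu hn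
      hcard hD hD3
  refine ⟨t, q, H, fun k => if (k : ℕ) < l then a (n + k) else a k, ?_, ?_, ?_, h5, h6, h7, h8,
    h9⟩
  · intro k k' h
    have hk := k.2
    have hk' := k'.2
    by_cases e1 : (k : ℕ) < l
    · by_cases e2 : (k' : ℕ) < l
      · simp only [e1, e2, if_true] at h
        have := hainj _ _ (by omega) (by omega) h
        exact Fin.ext (by omega)
      · simp only [e1, e2, if_true, if_false] at h
        have := hainj _ _ (by omega) (by omega) h
        omega
    · by_cases e2 : (k' : ℕ) < l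
      · simp only [e1, e2, if_true, if_false] at h
        have := hainj _ _ (by omega) (by omega) h
        omega
      · simp only [e1, e2, if_false] at h
        have := hainj _ _ (by omega) (by omega) h
        exact Fin.ext (by omega)
  · intro k
    show (if (k : ℕ) < l then a (n + k) else a k) ∈ P
    split_ifs
    · exact haP _
    · exact haP _
  · have hs : ∑ k : Fin (2 * t + 1), (u - y (if (k : ℕ) < l then a (n + k) else a k)) =
        mselY J n (2 * t + 1) l := by
      unfold mselY
      rw [← Fin.sum_univ_eq_sum_range (fun k => if k < l then J (n + k) else J k)]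
      refine Finset.sum_congr rfl (fun k _ => ?_)
      rw [hJ]
      by_cases e1 : (k : ℕ) < l
      · rw [if_pos e1, if_pos e1]
      · rw [if_neg e1, if_neg e1]
    rw [hs]
    exact h4

end Pool.Agent.Work.MP_0421d9_ag.LD
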