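import Pool.Agent.Work.MP_0421d9_ag.UMove
import Pool.Agent.Work.MP_0421d9_ag.MTrans

/-!
Exact strips for a pure class (helper39, after UMove): the strips of `UMove`, with the dimensions of
the two pieces instead of the consequence for the plane.
-/

namespace Pool.Agent.Work.MP_0421d9_ag.LD

open MvPolynomial Module

/-- `k = 0` strips -/
theorem strip_zero {D u t H : ℕ} (hu : 1 ≤ u) (ht : 1 ≤ t) (hD : u ≤ D) (hH : H ≤ t)
    (h : D + 1 = (t + 1) * u + H) :
    hF D u u (2 * t + 1) ≤ H * (u + 1) ∧ hF D (u - 1) u (2 * t + 1) = 0 := by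
  constructor
  · have h1 := transform (D := D) (κ := u) (m := u) (t := t) (H := H) (k := 0) ht rfl hD (by
      have e1 : (t + 1) * u = t * u + u := by ring
      have e2 : u * (2 * t + 1) = 2 * (t * u) + u := by ring
      have e3 : u * t = t * u := Nat.mul_comm _ _
      omega)
    have h2 : hR H (u + 1) 0 (2 * t + 1) ≤ hR H (u + 1) 0 0 := hT_anti (Nat.zero_le _)
    rw [hR_no_points] at h2
    exact h1.trans h2
  · have h1 := transform_empty_m (D := D) (κ := u - 1) (t := t) (u := fun _ => u) ht (by omega) (by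
      rw [Finset.sum_const, Finset.card_univ, Fintype.card_fin, smul_eq_mul]
      obtain ⟨w, rfl⟩ : ∃ w, u = w + 1 := ⟨u - 1, by omega⟩
      rw [Nat.add_sub_cancel]
      have e1 : (t + 1) * (w + 1) = w * t + t + w + 1 := by ring
      have e2 : (2 * t + 1) * (w + 1) = 2 * (w * t) + 2 * t + w + 1 := by ring
      omega)
    exact h1

/-- a strip which moves, from a regular rectangle -/
theorem um_stripK {m D t ρ k H : ℕ} (hD : D + ρ = m + t * m) (ht : 1 ≤ t) (hm : 1 ≤ m)
    (hk : 1 ≤ k) (hκD : m + k + 1 ≤ D) (hH : H + ρ = t * k + 1)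
    (hreg : hR H (m + k + 1) k (2 * t + 1) + (2 * t + 1) * (k + 1).choose 2 ≤ H * (m + k + 1))
    (hA : ((H : ℤ) - t) * (m + k) ≤ (2 * t + 1) * ((k.choose 2 : ℕ) : ℤ)) :
    ∃ A, A ≤ D - (m + k) + 1 ∧
      A + (m + k) * (D + 1) = (2 * t + 1) * (m + 1).choose 2 + (m + k).choose 2 ∧
      hF D (m + k) m (2 * t + 1) ≤ D - (m + k) + 1 - A := by
  have e1 : 2 * (((k + 1).choose 2 : ℕ) : ℤ) = k * (k + 1) := by
    exact_mod_cast two_mul_choose k
  have e2 : 2 * (((m + 1).choose 2 : ℕ) : ℤ) = m * (m + 1) := by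
    exact_mod_cast two_mul_choose m
  have e3 : 2 * ((k.choose 2 : ℕ) : ℤ) = k * (k - 1) := by
    have h := two_mul_choose' hk
    have h' : ((2 * k.choose 2 + k : ℕ) : ℤ) = ((k * k : ℕ) : ℤ) := by rw [h]
    push_cast at h'
    linear_combination h'
  have e4 : 2 * (((m + k).choose 2 : ℕ) : ℤ) = (m + k) * (m + k - 1) := by
    have h := two_mul_choose' (m := m + k) (by omega)
    have h' : ((2 * (m + k).choose 2 + (m + k) : ℕ) : ℤ) = (((m + k) * (m + k) : ℕ) : ℤ) := by
      rw [h]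
    push_cast at h'
    linear_combination h'
  have hD' : (D : ℤ) + ρ = m + t * m := by exact_mod_cast hD
  have hH' : (H : ℤ) + ρ = t * k + 1 := by exact_mod_cast hH
  set B := H * (m + k + 1) - (2 * t + 1) * (k + 1).choose 2 with hBdef
  have hB0 : (2 * t + 1) * (k + 1).choose 2 ≤ H * (m + k + 1) := by omega
  have hBz : (B : ℤ) = H * (m + k + 1) - (2 * t + 1) * (((k + 1).choose 2 : ℕ) : ℤ) := by
    rw [hBdef, Nat.cast_sub hB0]
    push_cast
    ring
  have hB : B ≤ D - (m + k) + 1 := by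
    have h1 : (B : ℤ) ≤ (((D - (m + k) + 1 : ℕ)) : ℤ) := by
      rw [hBz]
      have h2 : ((D - (m + k) + 1 : ℕ) : ℤ) = D - (m + k) + 1 := by
        push_cast [Nat.cast_sub (by omega : m + k ≤ D)]
        ring
      rw [h2]
      have h3 : (2 : ℤ) * (H * (m + k + 1) - (2 * t + 1) * (((k + 1).choose 2 : ℕ) : ℤ) -
          (D - (m + k) + 1)) = 2 * (((H : ℤ) - t) * (m + k) -
            (2 * t + 1) * ((k.choose 2 : ℕ) : ℤ)) := by
        have h4 : (D : ℤ) = m + t * m - ρ := by linarith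
        have h5 : (H : ℤ) = t * k + 1 - ρ := by linarith
        rw [h4, h5]
        linear_combination -(2 * t + 1 : ℤ) * e1 + (2 * t + 1 : ℤ) * e3
      linarith
    exact_mod_cast h1
  have htr : hF D (m + k) m (2 * t + 1) ≤ B := by
    have h1 := transform (D := D) (κ := m + k) (m := m) (t := t) (H := H) (k := k) ht rfl
      (by omega) (by
        have h2 : ((H + m * (2 * t + 1) : ℕ) : ℤ) = ((D + (m + k) * t + 1 : ℕ) : ℤ) := by
          push_cast
          linear_combination hH' - hD'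
        exact_mod_cast h2)
    omega
  refine ⟨D - (m + k) + 1 - B, by omega, ?_, by omega⟩
  have h1 : ((D - (m + k) + 1 - B + (m + k) * (D + 1) : ℕ) : ℤ) =
      (((2 * t + 1) * (m + 1).choose 2 + (m + k).choose 2 : ℕ) : ℤ) := by
    push_cast [Nat.cast_sub hB, Nat.cast_sub (by omega : m + k ≤ D)]
    rw [hBz]
    have h3 : (2 : ℤ) * ((D : ℤ) - (m + k) + 1 - (H * (m + k + 1) -
        (2 * t + 1) * (((k + 1).choose 2 : ℕ) : ℤ)) + (m + k) * (D + 1)) =
        2 * ((2 * t + 1) * (((m + 1).choose 2 : ℕ) : ℤ) + (((m + k).choose 2 : ℕ) : ℤ)) := by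
      have h4 : (D : ℤ) = m + t * m - ρ := by linarith
      have h5 : (H : ℤ) = t * k + 1 - ρ := by linarith
      rw [h4, h5]
      linear_combination (2 * t + 1 : ℤ) * e1 - (2 * t + 1 : ℤ) * e2 - e4
    linarith
  exact_mod_cast h1

/-- `D = m + t * m - ρ` -/
theorem exists_strip_move {m D t ρ τ : ℕ} (hm : 45 ≤ m) (hD : D + ρ = m + t * m)
    (hτ : 3 * m ≤ τ * τ) (hτ' : (τ - 1) * (τ - 1) ≤ 3 * m) (ht : 121 * m ≤ t * t)
    (hρ : 2 * m ≤ ρ + τ) (hρ' : ρ + t < 3 * m + 4 + τ) :
    ∃ k A, k + 1 ≤ m ∧ m + k + 1 ≤ D ∧ A ≤ D - (m + k) + 1 ∧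
      A + (m + k) * (D + 1) = (2 * t + 1) * (m + 1).choose 2 + (m + k).choose 2 ∧
      hF D (m + k) m (2 * t + 1) ≤ D - (m + k) + 1 - A ∧
      hF D (m + k - 1) m (2 * t + 1) = 0 := by
  obtain ⟨x, rfl⟩ : ∃ x, τ = x + 1 := by
    rcases Nat.eq_zero_or_pos τ with h0 | h0
    · subst h0
      omega
    · exact ⟨τ - 1, by omega⟩
  rw [Nat.add_sub_cancel] at hτ'
  -- linear consequences
  have L3 : 74 ≤ t := by
    by_contra hcon
    have h1 : t * t ≤ 73 * 73 := Nat.mul_le_mul (by omega) (by omega)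
    omega
  have L1 : 6 * x ≤ t := by
    by_contra hcon
    have h1 : (t + 1) * (t + 1) ≤ (6 * x) * (6 * x) := Nat.mul_le_mul (by omega) (by omega)
    have r1 : (t + 1) * (t + 1) = t * t + 2 * t + 1 := by ring
    have r2 : (6 * x) * (6 * x) = 36 * (x * x) := by ring
    omega
  have L4 : 3 * x ≤ m := by
    by_contra hcon
    have h1 : (m + 1) * (m + 1) ≤ (3 * x) * (3 * x) := Nat.mul_le_mul (by omega) (by omega)
    have h2 : 45 * m ≤ m * m := Nat.mul_le_mul_right m hm
    have r1 : (m + 1) * (m + 1) = m * m + 2 * m + 1 := by ring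
    have r2 : (3 * x) * (3 * x) = 9 * (x * x) := by ring
    omega
  have hρ1 : 1 ≤ ρ := by omega
  obtain ⟨c, hc, hc1, hc2⟩ : ∃ c, 1 ≤ c ∧ t * c < ρ + t ∧ ρ ≤ t * c := by
    refine ⟨(ρ - 1) / t + 1, Nat.le_add_left 1 _, ?_, ?_⟩
    · have := Nat.mul_div_le (ρ - 1) t
      have h2 : t * ((ρ - 1) / t + 1) = t * ((ρ - 1) / t) + t := by ring
      omega
    · have := Nat.lt_mul_div_succ (ρ - 1) (by omega : 0 < t)
      omega
  have F0 : t * c < 3 * m + 5 + x := by omega
  have L2 : 35 * c ≤ t := by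
    by_contra hcon
    have h1 : t * (t + 1) ≤ t * (35 * c) := Nat.mul_le_mul_left t (by omega)
    have h2 : t * (35 * c) = 35 * (t * c) := by ring
    have h3 : t * (t + 1) = t * t + t := by ring
    omega
  have L5 : 20 * c ≤ m := by
    by_contra hcon
    have h1 : 74 * c ≤ t * c := Nat.mul_le_mul_right c L3
    omega
  have L6 : 74 * m ≤ t * m := Nat.mul_le_mul_right m L3
  obtain ⟨H, hH⟩ : ∃ H, H + ρ = t * c + 1 := ⟨t * c + 1 - ρ, by omega⟩
  obtain ⟨r1, r2⟩ := um_rect hm hτ' ht hρ hρ' hc hc1 hc2 L3 L1 L4 L2 L5 hH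
  rcases Nat.lt_or_ge (H * (m + c + 1)) ((2 * t + 1) * (c + 1).choose 2) with hneg | hpos
  · -- case B
    have hemp := r2 hneg
    have htr := transform (D := D) (κ := m + c) (m := m) (t := t) (H := H) (k := c) (by omega) rfl
      (by omega) (by
        have h2 : ((H + m * (2 * t + 1) : ℕ) : ℤ) = ((D + (m + c) * t + 1 : ℕ) : ℤ) := by
          have hD' : (D : ℤ) + ρ = m + t * m := by exact_mod_cast hD
          have hH' : (H : ℤ) + ρ = t * c + 1 := by exact_mod_cast hH
          push_cast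
          linear_combination hH' - hD'
        exact_mod_cast h2)
    have hH' : (H + t) + ρ = t * (c + 1) + 1 := by
      have : t * (c + 1) = t * c + t := by ring
      omega
    have hcc : (c + 1) * (c + 1) ≤ m := by
      have h2 : c * (35 * c) ≤ c * t := Nat.mul_le_mul_left c L2
      have h3 : c * (35 * c) = 35 * (c * c) := by ring
      have h4 : c * t = t * c := by ring
      have h5 : (c + 1) * (c + 1) = c * c + 2 * c + 1 := by ring
      omega
    have hpack := rect_pack' (H := H + t) (m := m) (k := c + 1) (t := t) (by omega) hcc (by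
      have h1 : (2 * t + 1) * (c + 1) = 2 * (t * c) + 2 * t + c + 1 := by ring
      rw [h1]
      have h2 : (c + 1 + 1) * (2 * (t * c) + 2 * t + c + 1 + 2 * (m + 2)) ≤
          (c + 2) * (10 * m + 2 * t) := Nat.mul_le_mul_left _ (by omega)
      have h3 : (c + 2) * (10 * m + 2 * t) = 10 * (c + 2) * m + 2 * (t * c) + 4 * t := by ring
      have h4 : 2 * (m + 2) * (t + 1) ≤ 2 * (m + 2) * (H + t) := Nat.mul_le_mul_left _ (by omega)
      have h5 : 2 * (m + 2) * (t + 1) = 2 * (t * m) + 2 * m + 4 * t + 4 := by ring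
      have h6 : (10 * (c + 2) + 6) * m ≤ (2 * t) * m := Nat.mul_le_mul_right m (by omega)
      have h7 : (10 * (c + 2) + 6) * m = 10 * (c + 2) * m + 6 * m := by ring
      have h8 : (2 * t) * m = 2 * (t * m) := by ring
      omega)
    obtain ⟨A, hA1, hA2, hA3⟩ := um_stripK (H := H + t) hD (by omega) (by omega)
      (by omega : 1 ≤ c + 1) (by omega) hH' hpack.le (by
        have h1 : (((H * (m + c + 1) : ℕ)) : ℤ) ≤ (((2 * t + 1) * (c + 1).choose 2 : ℕ) : ℤ) := by
          exact_mod_cast hneg.le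
        push_cast at h1 ⊢
        linarith)
    refine ⟨c + 1, A, by omega, by omega, hA1, hA2, hA3, ?_⟩
    have h1 : m + (c + 1) - 1 = m + c := by omega
    rw [h1]
    omega
  · -- case A
    have hreg := r1 hpos
    have hemp := transform_empty (D := D) (κ := m + c - 1) (m := m) (t := t) (by omega) (by omega)
      (by omega) (by
        have h1 : m + c - 1 = m + (c - 1) := by omega
        have h2 : (c - 1) * t + t = t * c := by
          obtain ⟨y, rfl⟩ : ∃ y, c = y + 1 := ⟨c - 1, by omega⟩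
          rw [Nat.add_sub_cancel]; ring
        have h3 : (m + (c - 1)) * t = t * m + (c - 1) * t := by ring
        have h4 : m * (2 * t + 1) = 2 * (t * m) + m := by ring
        rw [h1, h3, h4]
        omega)
    have hle : H ≤ t := by omega
    obtain ⟨A, hA1, hA2, hA3⟩ := um_stripK (H := H) hD (by omega) (by omega) hc (by omega) hH
      hreg.le (by
        have h1 : ((H : ℤ) - t) * (m + c) ≤ 0 := by
          have h2 : (H : ℤ) ≤ t := by exact_mod_cast hle
          have h3 : (0 : ℤ) ≤ m + c := by positivity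
          exact mul_nonpos_of_nonpos_of_nonneg (by linarith) h3
        have h2 : (0 : ℤ) ≤ (2 * t + 1) * ((c.choose 2 : ℕ) : ℤ) := by positivity
        linarith)
    exact ⟨c, A, by omega, by omega, hA1, hA2, hA3, hemp⟩

theorem exists_stripK {u D : ℕ} (hu : 45 ≤ u) (hD : 144 * u ^ 3 ≤ D ^ 2) (hD' : D ≤ 3 * (u * u)) :
    ∃ κ t A, 1 ≤ κ ∧ κ + 1 ≤ 2 * u ∧ u * (2 * t + 1) ≤ 2 * D + 10 * u ∧ κ + 1 ≤ D ∧
      A ≤ D - κ + 1 ∧ A + κ * (D + 1) = (2 * t + 1) * (u + 1).choose 2 + κ.choose 2 ∧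
      hF D κ u (2 * t + 1) ≤ D - κ + 1 - A ∧ hF D (κ - 1) u (2 * t + 1) = 0 := by
  obtain ⟨τ, hτ, hτ'⟩ : ∃ τ, 3 * u ≤ τ * τ ∧ (τ - 1) * (τ - 1) ≤ 3 * u := by
    refine ⟨Nat.sqrt (3 * u) + 1, (Nat.lt_succ_sqrt (3 * u)).le, ?_⟩
    rw [Nat.add_sub_cancel]
    exact Nat.sqrt_le (3 * u)
  have hτu : τ ≤ u := by
    rcases Nat.eq_zero_or_pos τ with h0 | h0
    · omega
    obtain ⟨s, rfl⟩ : ∃ s, τ = s + 1 := ⟨τ - 1, by omega⟩
    rw [Nat.add_sub_cancel] at hτ'
    by_contra hcon
    have h3 : u * u ≤ s * s := Nat.mul_le_mul (by omega) (by omega)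
    nlinarith
  -- the number of columns
  set t := (D + u - τ + (u - 1)) / u with ht
  have h3 := Nat.div_add_mod (D + u - τ + (u - 1)) u
  have h4 := Nat.mod_lt (D + u - τ + (u - 1)) (by omega : 0 < u)
  rw [← ht] at h3
  have e1 : u * t = t * u := Nat.mul_comm _ _
  have htu : D + u ≤ t * u + τ := by omega
  have htu' : t * u + τ < D + 2 * u := by omega
  have ht2 : 144 * u ≤ t * t := by
    have h5 : D ≤ t * u := by omega
    have h6 : D ^ 2 ≤ (t * u) ^ 2 := Nat.pow_le_pow_left h5 2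
    have h7 : (u * u) * (144 * u) ≤ (u * u) * (t * t) := by
      calc (u * u) * (144 * u) = 144 * u ^ 3 := by ring
        _ ≤ D ^ 2 := hD
        _ ≤ (t * u) ^ 2 := h6
        _ = _ := by ring
    exact Nat.le_of_mul_le_mul_left h7 (by positivity)
  have L3 : 80 ≤ t := by
    by_contra hcon
    have h1 : t * t ≤ 79 * 79 := Nat.mul_le_mul (by omega) (by omega)
    omega
  have L6 : 80 * u ≤ t * u := Nat.mul_le_mul_right u L3
  obtain ⟨ρ, hρ⟩ : ∃ ρ, D + ρ = u + t * u := ⟨u + t * u - D, by omega⟩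
  rcases Nat.lt_or_ge (ρ + t) (3 * u + 4 + τ) with hcase | hcase
  · obtain ⟨k, A, hk, hkD, hA1, hA2, hA3, hA4⟩ := exists_strip_move hu hρ hτ hτ' (by omega)
      (by omega) hcase
    refine ⟨u + k, t, A, by omega, by omega, ?_, hkD, hA1, hA2, hA3, hA4⟩
    have e2 : u * (2 * t + 1) = 2 * (t * u) + u := by ring
    omega
  · clear_value t
    obtain ⟨s, rfl⟩ : ∃ s, t = s + 3 := ⟨t - 3, by omega⟩
    obtain ⟨H, hH⟩ : ∃ H, H + ρ = 3 * u + 1 := ⟨3 * u + 1 - ρ, by omega⟩
    have e2 : (s + 3) * u = s * u + 3 * u := by ring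
    have e3 : (s + 1) * u = s * u + u := by ring
    have e4 : D + 1 = (s + 1) * u + H := by omega
    have hHs : H ≤ s := by omega
    obtain ⟨h5, h6⟩ := strip_zero (D := D) (u := u) (t := s) (H := H) (by omega) (by omega)
      (by omega) hHs e4
    obtain ⟨j, rfl⟩ : ∃ j, s = H + j := ⟨s - H, by omega⟩
    refine ⟨u, H + j, j * u, by omega, by omega, ?_, by omega, ?_, ?_, ?_, h6⟩
    · have e5 : u * (2 * (H + j) + 1) = 2 * ((H + j) * u) + u := by ring
      omega
    · have e5 : (H + j) * u = H * u + j * u := by ring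
      omega
    · have e5 := two_mul_choose u
      have e6 := two_mul_choose' (m := u) (by omega)
      have e7 : 2 * (j * u + u * (D + 1)) =
          2 * ((2 * (H + j) + 1) * (u + 1).choose 2 + u.choose 2) := by
        rw [e4]
        have e8 : 2 * ((2 * (H + j) + 1) * (u + 1).choose 2 + u.choose 2) =
          (2 * (H + j) + 1) * (2 * (u + 1).choose 2) + 2 * u.choose 2 := by ring
        rw [e8, e5]
        have e9 : 2 * u.choose 2 = u * u - u := by omega
        have e10 : u ≤ u * u := by nlinarith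
        zify [e10] at e9 ⊢
        rw [e9]
        ring
      omega
    · refine h5.trans ?_
      have e5 : (H + j) * u = H * u + j * u := by ring
      have e6 : H * (u + 1) = H * u + H := by ring
      omega

end Pool.Agent.Work.MP_0421d9_ag.LD
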