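import Pool.Agent.Work.MP_0421d9_ag.MGood
import Pool.Agent.Work.MP_0421d9_ag.MSel
import Pool.Agent.Work.MP_0421d9_ag.MPool
import Pool.Agent.Work.MP_0421d9_ag.MRes
import Pool.Agent.Work.MP_0421d9_ag.MStrip

/-!
Systems with arbitrary multiplicities: a pool with many points has a strip.
-/

namespace Pool.Agent.Work.MP_0421d9_ag.LD

open MvPolynomial Module

namespace MN

/-- sizes -/
theorem sizes {M d D : ℕ} (hM : 1600 ≤ M) (hd : 14400 * M ^ 3 ≤ d ^ 2) (hD : d / 2 < D) :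
    4800 * M ≤ d ∧ 2400 * M ≤ D ∧ 3600 * M ^ 3 ≤ D ^ 2 ∧ d + 1 ≤ 2 * D := by
  have h1 : 4800 * M ≤ d := by
    by_contra hcon
    have h2 : d < 4800 * M := by omega
    have h3 : d ^ 2 < (4800 * M) ^ 2 := Nat.pow_lt_pow_left h2 (by norm_num)
    have h4 : (4800 * M) ^ 2 = 14400 * (1600 * M ^ 2) := by ring
    have h5 : 1600 * M ^ 2 ≤ M * M ^ 2 := Nat.mul_le_mul_right _ hM
    have h6 : M * M ^ 2 = M ^ 3 := by ring
    omega
  have h2 : d + 1 ≤ 2 * D := by omega
  refine ⟨h1, by omega, ?_, h2⟩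
  have h3 : d ^ 2 ≤ (2 * D) ^ 2 := Nat.pow_le_pow_left (by omega) 2
  have h4 : (2 * D) ^ 2 = 4 * D ^ 2 := by ring
  omega

/-- a family in a large set -/
theorem exists_family {r N : ℕ} {P : Finset (Fin r)} (h : N ≤ P.card) :
    ∃ e : Fin N → Fin r, Function.Injective e ∧ ∀ k, e k ∈ P := by
  let f : Fin P.card ≃ P := P.equivFin.symm
  refine ⟨fun k => (f (Fin.castLE h k)).1, fun a b hab => ?_, fun k => (f _).2⟩
  have h1 := f.injective (Subtype.ext hab)
  exact Fin.castLE_injective h h1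

theorem gain {d D t u A X : ℕ} (hu : 4800 * u ≤ d) (hD : d + 1 ≤ 2 * D)
    (h1 : D + 1 ≤ 2 * (u * t) + 2 * u) (h2 : t * u ≤ 12 * A) (h3 : t * u + 12 * A ≤ 12 * X) :
    d / 50 ≤ A ∧ d / 50 + A ≤ X := by
  have h4 : t * u = u * t := Nat.mul_comm _ _
  have h5 := Nat.div_mul_le_self d 50
  constructor
  · omega
  · omega

theorem PG_mono {U V v D : ℕ} (h1 : V ≤ v) (h2 : v ≤ U) (h : PG U V D) : PG v v D := by
  have h3 : v * v ≤ U * U := Nat.mul_le_mul h2 h2
  have h4 : V * V ≤ v * v := Nat.mul_le_mul h1 h1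
  rcases h with h | ⟨n, h5, h6, h7⟩
  · left
    omega
  · right
    refine ⟨n, h5, by omega, ?_⟩
    have h8 : (4 * n - 3) * (D + 1 + 3 * v) ≤ (4 * n - 3) * (D + 1 + 3 * U) :=
      Nat.mul_le_mul_left _ (by omega)
    omega

/-- a pure class, balanced -/
theorem pure {r M d D v n : ℕ} {y : Fin r → ℕ} (hM : 1600 ≤ M) (hd : 14400 * M ^ 3 ≤ d ^ 2)
    (hD : d / 2 < D) (hD' : D ≤ d) (hv : 1 ≤ v) (hvM : v ≤ M) (P : Finset (Fin r))
    (hP : ∀ i ∈ P, y i = v) (hn : n ≤ P.card) (hvn : 2 * d + 10 * v ≤ v * n)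
    (hg : PG v v D) :
    ∃ κ A y', StripM D κ A y y' ∧ κ + 1 ≤ 2 * M ∧ d / 50 ≤ A ∧ d / 50 + A ≤ D - κ + 1 := by
  obtain ⟨s1, s2, s3, s4⟩ := sizes hM hd hD
  have hD1000 : 1000 * v ≤ D := by omega
  obtain ⟨t, q, H, e1, hq, w1, w2, hk, hN, hlow⟩ := pure_good hv hD1000 hg
  have hNn : 2 * t + 1 ≤ n := by
    have h1 : v * (2 * t + 1) ≤ v * n := by omega
    exact Nat.le_of_mul_le_mul_left h1 hv
  obtain ⟨e, he, heP⟩ := exists_family (hNn.trans hn)
  have hye : ∀ k, y (e k) = v := fun k => hP _ (heP k)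
  have hvt : 1199 ≤ t := by
    by_contra hcon
    have h1 : v * t ≤ v * 1198 := Nat.mul_le_mul_left v (by omega)
    omega
  have hkk : 26 * ((v - q) * (v - q + 1)) ≤ v ∧ 8 * (v - q) ≤ t := by
    rcases hk with hk | ⟨k1, k2, k3⟩
    · rw [hk, Nat.sub_self]
      constructor <;> omega
    · have h3 : 3600 * v ^ 3 ≤ D ^ 2 :=
        (Nat.mul_le_mul_left _ (Nat.pow_le_pow_left hvM 3)).trans s3
      have h4 := kbound (D := D) (u := v) (t := t) (k := v - q) (w := 0) (by simp) h3 k3 hD1000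
        (Or.inr ⟨k2, rfl, k1⟩)
      simpa using h4
  have hsub : ∀ k, 2 * v - q - y (e k) = v - q := by
    intro k
    rw [hye]
    omega
  obtain ⟨κ, A, y', h1, h2, h3, h4⟩ := good_strip (D := D) (t := t) (q := q) (H := H) (u := v)
    (y := y) e he hv (fun k => (hye k).le) (by
      have h5 : ∑ k, (v - y (e k)) = 0 := Finset.sum_eq_zero (fun k _ => by rw [hye, Nat.sub_self])
      rw [h5]
      omega) hq w1 w2 (by omega) (fun k => by rw [hsub]; exact hkk.1)
    (fun k => by rw [hsub]; exact hkk.2) (by omega)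
  have hq1 : 1 ≤ q := by
    by_contra hcon
    have h5 : q = 0 := by omega
    rw [h5, Nat.zero_mul] at e1
    have h6 : 1 * (2 * t + 1) ≤ v * (2 * t + 1) := Nat.mul_le_mul_right _ hv
    omega
  obtain ⟨g1, g2⟩ := gain (d := d) (D := D) (t := t) (u := v) (A := A) (X := D - κ + 1)
    (by omega) s4 hlow h3 h4
  exact ⟨κ, A, y', h1, by omega, g1, g2⟩

/-- a pool without a large class -/
theorem mixed {r M d D s : ℕ} {y : Fin r → ℕ} (hM : 1600 ≤ M) (hd : 14400 * M ^ 3 ≤ d ^ 2)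
    (hy : ∀ i, y i ≤ M) (hs : Avail M d s y) (hD : d / 2 < D) (hD' : D ≤ d)
    (hcl : ∀ v, ((pool y s).filter (fun i => y i = v)).card < 41 * d / (20 * hi M s) + 1) :
    ∃ κ A y', StripM D κ A y y' ∧ κ + 1 ≤ 2 * M ∧ d / 50 ≤ A ∧ d / 50 + A ≤ D - κ + 1 := by
  obtain ⟨s1, s2, s3, s4⟩ := sizes hM hd hD
  have hcard : (pool y s).card ≠ 0 := by
    intro h0
    unfold Avail at hs
    rw [h0, Nat.mul_zero, Nat.mul_zero] at hs
    omega
  obtain ⟨i₀, hi₀⟩ := Finset.card_pos.mp (Nat.pos_of_ne_zero hcard)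
  obtain ⟨b1, b2, b3, b4, b5⟩ := pool_bounds hy hi₀
  unfold Avail at hs
  set u := hi M s with hu
  set l := lo s with hl
  set n := 41 * d / (20 * u) + 1 with hn
  have hu1 : 1 ≤ u := by omega
  have n1 : 41 * d ≤ 20 * (u * n) := by
    have h1 := Nat.lt_mul_div_succ (41 * d) (b := 20 * u) (by omega)
    have h2 : 20 * u * (41 * d / (20 * u) + 1) = 20 * (u * n) := by rw [hn]; ring
    omega
  have n2 : 20 * (u * n) ≤ 41 * d + 20 * u := by
    have h1 := Nat.mul_div_le (41 * d) (20 * u)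
    have h2 : 20 * (u * n) = 20 * u * (41 * d / (20 * u)) + 20 * u := by rw [hn]; ring
    omega
  have hw1 : 1 ≤ u - l := by
    by_contra hcon
    have h1 : ∀ i ∈ pool y s, y i = u := by
      intro i hi'
      obtain ⟨-, c2, c3, -, -⟩ := pool_bounds hy hi'
      rw [← hl] at c2
      rw [← hu] at c3
      omega
    have h2 := hcl u
    rw [Finset.filter_true_of_mem h1] at h2
    have h3 : u * (pool y s).card ≤ u * n := Nat.mul_le_mul_left u (by omega)
    omega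
  have hwu : 225 * ((u - l) * (u - l)) ≤ u := by omega
  have h3 : 3600 * u ^ 3 ≤ D ^ 2 :=
    (Nat.mul_le_mul_left _ (Nat.pow_le_pow_left b4 3)).trans s3
  obtain ⟨t, q, H, e, he, heP, e1, hq, w1, w2, hk, hlow⟩ := tune (D := D) (u := u) (w := u - l)
    (n := n) (y := y) (pool y s) (fun i hi' => by
      obtain ⟨-, c2, c3, -, -⟩ := pool_bounds hy hi'
      rw [← hl] at c2
      rw [← hu] at c3
      exact ⟨c3, by omega⟩) hwu hu1 hcl (by omega) (by omega) (by omega) h3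
  have hut : 2399 ≤ t := by
    by_contra hcon
    have h1 : u * t ≤ u * 2398 := Nat.mul_le_mul_left u (by omega)
    omega
  obtain ⟨k1, k2⟩ := kbound (D := D) (u := u) (t := t) (k := u - q) (w := u - l) hwu h3 hlow
    (by omega) (Or.inl ⟨hk, hw1⟩)
  have hsub : ∀ k, 2 * u - q - y (e k) ≤ u - q + (u - l) := by
    intro k
    obtain ⟨-, c2, c3, -, -⟩ := pool_bounds hy (heP k)
    rw [← hl] at c2
    rw [← hu] at c3
    omega
  obtain ⟨κ, A, y', h1, h2, h4, h5⟩ := good_strip (D := D) (t := t) (q := q) (H := H) (u := u)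
    (y := y) e he hu1 (fun k => by
      obtain ⟨-, -, c3, -, -⟩ := pool_bounds hy (heP k)
      exact c3) e1 hq w1 w2 (by omega) (fun k => by
      have h6 := hsub k
      have h7 : (2 * u - q - y (e k)) * (2 * u - q - y (e k) + 1) ≤
          (u - q + (u - l)) * (u - q + (u - l) + 1) := Nat.mul_le_mul h6 (by omega)
      omega) (fun k => by
      have h6 := hsub k
      omega) (by omega)
  have hq1 : 1 ≤ q := by
    by_contra hcon
    have h6 : q = 0 := by omega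
    rw [h6, Nat.sub_zero] at hk
    have h7 : 1 * 1 ≤ (u - l) * (u - l) := Nat.mul_le_mul hw1 hw1
    have h8 : 2 * t ≤ u * t := Nat.mul_le_mul_right t (by omega)
    have h9 : u * 2399 ≤ u * t := Nat.mul_le_mul_left u hut
    omega
  obtain ⟨g1, g2⟩ := gain (d := d) (D := D) (t := t) (u := u) (A := A) (X := D - κ + 1)
    (by omega) s4 (by omega) h4 h5
  exact ⟨κ, A, y', h1, by omega, g1, g2⟩

/-- the size of a large class -/
theorem class_size {M d s v : ℕ} (h1 : 1 ≤ lo s) (hv1 : lo s ≤ v) (hv2 : v ≤ hi M s)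
    (hM : hi M s ≤ M) (hw : 225 * ((hi M s - lo s) * (hi M s - lo s)) ≤ lo s)
    (hd : 4800 * M ≤ d) : 2 * d + 10 * v ≤ v * (41 * d / (20 * hi M s) + 1) := by
  set u := hi M s with hu
  set l := lo s with hl
  set n := 41 * d / (20 * u) + 1 with hn
  have hu1 : 1 ≤ u := by omega
  have n1 : 41 * d ≤ 20 * (u * n) := by
    have h1 := Nat.lt_mul_div_succ (41 * d) (b := 20 * u) (by omega)
    have h2 : 20 * u * (41 * d / (20 * u) + 1) = 20 * (u * n) := by rw [hn]; ring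
    omega
  have h2 : 225 * (u - l) ≤ l := by
    rcases Nat.eq_zero_or_pos (u - l) with h3 | h3
    · omega
    · have h4 : (u - l) * 1 ≤ (u - l) * (u - l) := Nat.mul_le_mul_left _ h3
      omega
  have h3 : 225 * u ≤ 226 * v := by omega
  have h4 : 225 * u * n ≤ 226 * v * n := Nat.mul_le_mul_right n h3
  have h5 : 225 * u * n = 225 * (u * n) := by ring
  have h6 : 226 * v * n = 226 * (v * n) := by ring
  omega

end MN

/-- an available pool has a balanced strip in every good degree -/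
theorem node_good' {r M d D s : ℕ} {y : Fin r → ℕ} (hM : 1600 ≤ M) (hd : 14400 * M ^ 3 ≤ d ^ 2)
    (hy : ∀ i, y i ≤ M) (hs : Avail M d s y) (hD : d / 2 < D) (hD' : D ≤ d)
    (hg : PG (hi M s) (lo s) D) :
    ∃ κ A y', StripM D κ A y y' ∧ κ + 1 ≤ 2 * M ∧ d / 50 ≤ A ∧ d / 50 + A ≤ D - κ + 1 := by
  obtain ⟨s1, s2, s3, s4⟩ := MN.sizes hM hd hD
  by_cases hcl : ∀ v, ((pool y s).filter (fun i => y i = v)).card < 41 * d / (20 * hi M s) + 1
  · exact MN.mixed hM hd hy hs hD hD' hcl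
  push Not at hcl
  obtain ⟨v, hv⟩ := hcl
  obtain ⟨i, hi'⟩ := Finset.card_pos.mp ((Nat.succ_pos _).trans_le hv)
  rw [Finset.mem_filter] at hi'
  obtain ⟨b1, b2, b3, b4, b5⟩ := pool_bounds hy hi'.1
  rw [hi'.2] at b2 b3
  exact MN.pure hM hd hD hD' (by omega) (by omega) _ (fun i hi => (Finset.mem_filter.mp hi).2) hv
    (MN.class_size b1 b2 b3 b4 b5 s1) (MN.PG_mono b2 b3 hg)

/-- an available pool has an exact strip in every degree -/
theorem node_exact' {r M d D s : ℕ} {y : Fin r → ℕ} (hM : 1600 ≤ M) (hd : 14400 * M ^ 3 ≤ d ^ 2)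
    (hy : ∀ i, y i ≤ M) (hs : Avail M d s y) (hD : d / 2 < D) (hD' : D ≤ d) :
    ∃ κ A y', StripM D κ A y y' ∧ κ + 1 ≤ 2 * M := by
  obtain ⟨s1, s2, s3, s4⟩ := MN.sizes hM hd hD
  by_cases hcl : ∀ v, ((pool y s).filter (fun i => y i = v)).card < 41 * d / (20 * hi M s) + 1
  · obtain ⟨κ, A, y', h1, h2, -, -⟩ := MN.mixed hM hd hy hs hD hD' hcl
    exact ⟨κ, A, y', h1, h2⟩
  push Not at hcl
  obtain ⟨v, hv⟩ := hcl
  obtain ⟨i, hi'⟩ := Finset.card_pos.mp ((Nat.succ_pos _).trans_le hv)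
  rw [Finset.mem_filter] at hi'
  obtain ⟨b1, b2, b3, b4, b5⟩ := pool_bounds hy hi'.1
  rw [hi'.2] at b2 b3
  have hsize := MN.class_size b1 b2 b3 b4 b5 s1
  by_cases hg : PG v v D
  · obtain ⟨κ, A, y', h1, h2, -, -⟩ := MN.pure hM hd hD hD' (by omega) (by omega) _
      (fun i hi => (Finset.mem_filter.mp hi).2) hv hsize hg
    exact ⟨κ, A, y', h1, h2⟩
  · have h1 : D ≤ 3 * (v * v) := by
      by_contra hcon
      exact hg (Or.inl (by omega))
    have hv45 : 45 ≤ v := by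
      by_contra hcon
      have h2 : v * v ≤ 44 * 44 := Nat.mul_le_mul (by omega) (by omega)
      omega
    have h3 : 144 * v ^ 3 ≤ D ^ 2 := by
      have h4 : v ^ 3 ≤ M ^ 3 := Nat.pow_le_pow_left (by omega) 3
      omega
    obtain ⟨κ, t, A, c1, c2, c3, c4, c5, c6, c7, c8⟩ := exists_stripK hv45 h3 h1
    have hNn : 2 * t + 1 ≤ 41 * d / (20 * hi M s) + 1 := by
      have h5 : v * (2 * t + 1) ≤ v * (41 * d / (20 * hi M s) + 1) := by omega
      exact Nat.le_of_mul_le_mul_left h5 (by omega)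
    obtain ⟨e, he, heP⟩ := MN.exists_family (hNn.trans hv)
    have hye : ∀ k, y (e k) = v := fun k => (Finset.mem_filter.mp (heP k)).2
    have hcomp : y ∘ e = fun _ => v := funext hye
    refine ⟨κ, A, rest e y, ⟨2 * t + 1, e, he, c1, c4, c5, ?_, ?_, ?_, rfl⟩, by omega⟩
    · rw [c6]
      congr 1
      rw [Finset.sum_congr rfl (fun k _ => by rw [hye k]), Finset.sum_const, Finset.card_univ,
        Fintype.card_fin, smul_eq_mul]
    · rw [hcomp]
      exact c7
    · rw [hcomp]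
      exact c8

end Pool.Agent.Work.MP_0421d9_ag.LD
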