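import Pool.Agent.Work.MP_0421d9_ag.UDefs

/-!
Growth of the rank along a fibre of `P¹ × P¹`, for linear systems with generic multiple points.
-/

namespace Pool.Agent.Work.MP_0421d9_ag.LD

open MvPolynomial Module

namespace Rk

/-! ### derivations and the order of vanishing -/

theorem cD_X' (Δ : Derivation ℚ ℂ ℂ) (i : Fin 3) : cD Δ (X i : R3) = 0 := by
  unfold MvPolynomial.X
  rw [cD_monomial, Derivation.map_one_eq_zero, monomial_zero]

theorem cD_C' (Δ : Derivation ℚ ℂ ℂ) (c : ℂ) : cD Δ (C c : R3) = C (Δ c) := by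
  change cD Δ (monomial 0 c) = monomial 0 (Δ c)
  rw [cD_monomial]

theorem cD_translate (Δ : Derivation ℚ ℂ ℂ) (a : V3) (F : R3) :
    cD Δ (translate a F) =
      translate a (cD Δ F) + translate a (dir (fun i => Δ (a i)) F) := by
  induction F using MvPolynomial.induction_on with
  | C c =>
    rw [cD_C', dir_C]
    unfold translate
    rw [algHom_C, map_zero, add_zero, algHom_C, algebraMap_eq, cD_C']
  | add f g hf hg =>
    have h1 : translate a (f + g) = translate a f + translate a g := by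
      unfold translate; rw [map_add]
    rw [h1, map_add, hf, hg, map_add, map_add]
    have h2 : ∀ x y : R3, translate a (x + y) = translate a x + translate a y := by
      intro x y; unfold translate; rw [map_add]
    rw [h2, h2]
    ring
  | mul_X f k hf =>
    have hX : translate a (X k) = C (a k) + X k := by
      unfold translate; rw [aeval_X]
    have hC : ∀ c : ℂ, translate a (C c) = C c := by
      intro c
      unfold translate
      rw [algHom_C, algebraMap_eq]
    have hadd : ∀ x y : R3, translate a (x + y) = translate a x + translate a y := by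
      intro x y; unfold translate; rw [map_add]
    have hdX : dir (fun i => Δ (a i)) (X k) = C (Δ (a k)) := by
      rw [dir_apply, Finset.sum_eq_single k]
      · rw [pderiv_X_self, mul_one]
      · intro j _ hj
        rw [pderiv_X_of_ne hj.symm, mul_zero]
      · intro h
        exact absurd (Finset.mem_univ k) h
    rw [translate_mul, hX, cD_mul, hf, cD_mul, cD_X', mul_zero, add_zero, dir_mul, hdX, map_add,
      cD_C', cD_X', add_zero, translate_mul, hX, hadd, translate_mul, translate_mul, hX, hC]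
    ring

theorem vanishTo_cD_dir (Δ : Derivation ℚ ℂ ℂ) {a : V3} {F : R3} {k : ℕ} (h : VanishTo F a k) :
    VanishTo (cD Δ F + dir (fun i => Δ (a i)) F) a k := by
  rw [vanishTo_iff_coeff] at h ⊢
  intro β hβ
  have h1 : translate a (cD Δ F + dir (fun i => Δ (a i)) F) = cD Δ (translate a F) := by
    rw [cD_translate]
    unfold translate
    rw [map_add]
  rw [h1, coeff_cD, h β hβ, map_zero]

theorem vanishTo_pderiv (i : Fin 3) {a : V3} {F : R3} {k : ℕ} (h : VanishTo F a k) :
    VanishTo (pderiv i F) a (k - 1) := by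
  rw [vanishTo_iff_coeff] at h ⊢
  intro β hβ
  rw [← pderiv_translate, coeff_pderiv, h, zero_mul]
  rw [map_add, Finsupp.degree_single]
  omega

theorem vanishTo_fixed (Δ : Derivation ℚ ℂ ℂ) {a : V3} (ha : ∀ i, Δ (a i) = 0) {F : R3} {k : ℕ}
    (h : VanishTo F a k) : VanishTo (cD Δ F) a k := by
  have h1 := vanishTo_cD_dir Δ h
  have h2 : dir (fun i => Δ (a i)) F = 0 := by
    rw [dir_apply]
    refine Finset.sum_eq_zero (fun i _ => ?_)
    simp only [ha, C_0, zero_mul]
  rwa [h2, add_zero] at h1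

theorem vanishTo_dir (v : V3) {a : V3} {F : R3} {k : ℕ} (h : VanishTo F a k) :
    VanishTo (dir v F) a (k - 1) := by
  rw [dir_apply]
  refine (vanSub a (k - 1)).sum_mem (fun i _ => ?_)
  have h1 := vanishTo_mul (vanishTo_zero (C (v i)) a) (vanishTo_pderiv i h)
  rwa [zero_add] at h1

theorem vanishTo_moved (Δ : Derivation ℚ ℂ ℂ) {a : V3} {F : R3} {k : ℕ}
    (h : VanishTo F a k) : VanishTo (cD Δ F) a (k - 1) := by
  have h1 := (vanishTo_cD_dir Δ h).mono (Nat.sub_le k 1)
  have h2 := vanishTo_dir (fun i => Δ (a i)) h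
  have h3 := (vanSub a (k - 1)).sub_mem h1 h2
  rwa [add_sub_cancel_right] at h3

/-! ### the fibre -/

/-- the coefficients along the fibre `X 0 = 0` of a form of degree `D` -/
noncomputable def rho (H D : ℕ) : R3 →ₗ[ℂ] (Fin H → ℂ) where
  toFun F c := coeff (ex3 0 (D - c) c) F
  map_add' F G := by
    funext z
    simp
  map_smul' c F := by
    funext z
    simp

theorem rho_apply (H D : ℕ) (F : R3) (c : Fin H) : rho H D F c = coeff (ex3 0 (D - c) c) F := rfl

theorem ex3_add (a b c a' b' c' : ℕ) : ex3 a b c + ex3 a' b' c' = ex3 (a + a') (b + b') (c + c') := by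
  ext i
  fin_cases i
  · simp [ex3]
  · simp [ex3]
  · simp [ex3]

theorem single1 : (Finsupp.single 1 1 : Fin 3 →₀ ℕ) = ex3 0 1 0 := by
  ext i
  fin_cases i <;> simp [ex3]

theorem single2 : (Finsupp.single 2 1 : Fin 3 →₀ ℕ) = ex3 0 0 1 := by
  ext i
  fin_cases i <;> simp [ex3]

theorem single0 : (Finsupp.single 0 1 : Fin 3 →₀ ℕ) = ex3 1 0 0 := by
  ext i
  fin_cases i <;> simp [ex3]

/-- multiplication by a coordinate -/
theorem coeff_X_mul_of_eq {s : Fin 3} {α β : Fin 3 →₀ ℕ} (h : α = β + Finsupp.single s 1)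
    (F : R3) : coeff α (X s * F) = coeff β F := by
  rw [h, coeff_X_mul', if_pos]
  · rw [add_tsub_cancel_right]
  · rw [Finsupp.mem_support_iff, Finsupp.add_apply, Finsupp.single_eq_same]
    omega

theorem coeff_X_mul_eq_zero {s : Fin 3} {α : Fin 3 →₀ ℕ} (h : α s = 0)
    (F : R3) : coeff α (X s * F) = 0 := by
  rw [coeff_X_mul', if_neg]
  rw [Finsupp.mem_support_iff, not_not]
  exact h

/-- a monomial of `X s * F` comes from a monomial of `F` -/
theorem exists_of_coeff_X_mul {s : Fin 3} {α : Fin 3 →₀ ℕ} {F : R3}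
    (h : coeff α (X s * F) ≠ 0) : ∃ β, α = β + Finsupp.single s 1 ∧ coeff β F ≠ 0 := by
  by_cases hs : α s = 0
  · exact absurd (coeff_X_mul_eq_zero hs F) h
  · have h1 : α = (α - Finsupp.single s 1) + Finsupp.single s 1 := by
      rw [tsub_add_cancel_of_le]
      rw [Finsupp.single_le_iff]
      omega
    exact ⟨_, h1, by rwa [coeff_X_mul_of_eq h1] at h⟩

section

variable {H k N : ℕ}

/-- the systems -/
noncomputable def V (H k N L : ℕ) : Submodule ℂ R3 := TS (H + L - 2) (rect H L) k (gpt N)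

/-- the ranks along the fibre -/
noncomputable def W (H k N L : ℕ) : Submodule ℂ (Fin H → ℂ) := (V H k N L).map (rho H (H + L - 2))

theorem mem_V {L : ℕ} {F : R3} : F ∈ V H k N L ↔ F.IsHomogeneous (H + L - 2) ∧
    (∀ i, VanishTo F (gpt N i) k) ∧ ∀ α, coeff α F ≠ 0 → α 2 < H ∧ α 0 < L := mem_TS

/-- `V` in terms of the support -/
theorem mem_V' {L : ℕ} {F : R3} (h1 : ∀ α, coeff α F ≠ 0 →
    α.degree = H + L - 2 ∧ α 2 < H ∧ α 0 < L) (h2 : ∀ i, VanishTo F (gpt N i) k) :
    F ∈ V H k N L := by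
  rw [mem_V]
  refine ⟨fun α hα => ?_, h2, fun α hα => (h1 α hα).2⟩
  have h3 := (h1 α hα).1
  rw [Finsupp.degree_eq_sum] at h3
  rw [Finsupp.weight_apply, Finsupp.sum_fintype]
  · simpa using h3
  · simp

theorem V_spec {L : ℕ} {F : R3} (hF : F ∈ V H k N L) : ∀ α, coeff α F ≠ 0 →
    α.degree = H + L - 2 ∧ α 2 < H ∧ α 0 < L := by
  intro α hα
  rw [mem_V] at hF
  exact ⟨degree_of_mem_support hF.1 hα, hF.2.2 α hα⟩

theorem finrank_V (L : ℕ) : finrank ℂ (V H k N L) = hR H L k N := rfl

instance finite_V (L : ℕ) : Module.Finite ℂ (V H k N L) := finite_TS _ _ _ _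

theorem X1_mem {L : ℕ} (hL : 1 ≤ L) {F : R3} (hF : F ∈ V H k N L) :
    X 1 * F ∈ V H k N (L + 1) := by
  refine mem_V' (fun α hα => ?_) (fun i => vanishTo_X_mul 1 ((mem_V.mp hF).2.1 i))
  obtain ⟨β, rfl, hβ⟩ := exists_of_coeff_X_mul hα
  obtain ⟨h1, h2, h3⟩ := V_spec hF β hβ
  rw [map_add, Finsupp.degree_single, Finsupp.add_apply, Finsupp.add_apply,
    Finsupp.single_eq_of_ne (by decide), Finsupp.single_eq_of_ne (by decide)]
  omega

theorem rho_X1 {L : ℕ} (hL : 1 ≤ L) (F : R3) :
    rho H (H + (L + 1) - 2) (X 1 * F) = rho H (H + L - 2) F := by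
  funext c
  rw [rho_apply, rho_apply]
  apply coeff_X_mul_of_eq
  rw [single1, ex3_add]
  congr 1
  have := c.2
  omega

theorem W_le_succ {L : ℕ} (hL : 1 ≤ L) : W H k N L ≤ W H k N (L + 1) := by
  rintro _ ⟨F, hF, rfl⟩
  exact ⟨X 1 * F, X1_mem hL hF, rho_X1 hL F⟩

theorem rho_cD (D : ℕ) (Δ : Derivation ℚ ℂ ℂ) (F : R3) :
    rho H D (cD Δ F) = fun c => Δ (rho H D F c) := by
  funext c
  rw [rho_apply, coeff_cD, rho_apply]

theorem coeff_cD_ne {Δ : Derivation ℚ ℂ ℂ} {F : R3} {α : Fin 3 →₀ ℕ}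
    (h : coeff α (cD Δ F) ≠ 0) : coeff α F ≠ 0 := by
  intro h0
  rw [coeff_cD, h0, map_zero] at h
  exact h rfl

/-- a derivation which fixes all points -/
theorem cD_fixed_mem {L : ℕ} {Δ : Derivation ℚ ℂ ℂ} (hΔ : ∀ i l, Δ (gpt N i l) = 0) {F : R3}
    (hF : F ∈ V H k N L) : cD Δ F ∈ V H k N L :=
  mem_V' (fun α hα => V_spec hF α (coeff_cD_ne hα))
    (fun i => vanishTo_fixed Δ (hΔ i) ((mem_V.mp hF).2.1 i))

/-- a derivation which moves only the point `j` -/
theorem cD_moved_mem {L : ℕ} (hL : 1 ≤ L) {Δ : Derivation ℚ ℂ ℂ} {j : Fin N}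
    (hΔ : ∀ i, i ≠ j → ∀ l, Δ (gpt N i l) = 0) {F : R3}
    (hF : F ∈ V H k N L) :
    (C (gpt N j 1) * X 0 - C (gpt N j 0) * X 1) * cD Δ F ∈ V H k N (L + 1) := by
  have hV := (mem_V.mp hF).2.1
  refine mem_V' (fun α hα => ?_) (fun i => ?_)
  · have h1 : (C (gpt N j 1) * X 0 - C (gpt N j 0) * X 1) * cD Δ F =
        C (gpt N j 1) * (X 0 * cD Δ F) - C (gpt N j 0) * (X 1 * cD Δ F) := by ring
    rw [h1, coeff_sub, coeff_C_mul, coeff_C_mul] at hα
    have h2 : coeff α (X 0 * cD Δ F) ≠ 0 ∨ coeff α (X 1 * cD Δ F) ≠ 0 := by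
      by_contra hcon
      push Not at hcon
      rw [hcon.1, hcon.2, mul_zero, mul_zero, sub_zero] at hα
      exact hα rfl
    rcases h2 with h2 | h2
    · obtain ⟨β, rfl, hβ⟩ := exists_of_coeff_X_mul h2
      obtain ⟨h3, h4, h5⟩ := V_spec hF β (coeff_cD_ne hβ)
      rw [map_add, Finsupp.degree_single, Finsupp.add_apply, Finsupp.add_apply,
        Finsupp.single_eq_of_ne (by decide), Finsupp.single_eq_same]
      omega
    · obtain ⟨β, rfl, hβ⟩ := exists_of_coeff_X_mul h2
      obtain ⟨h3, h4, h5⟩ := V_spec hF β (coeff_cD_ne hβ)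
      rw [map_add, Finsupp.degree_single, Finsupp.add_apply, Finsupp.add_apply,
        Finsupp.single_eq_of_ne (by decide), Finsupp.single_eq_of_ne (by decide)]
      omega
  · by_cases hi : i = j
    · subst hi
      have h1 : VanishTo (C (gpt N i 1) * X 0 - C (gpt N i 0) * X 1) (gpt N i) 1 := by
        rw [vanishTo_one_iff', map_sub, map_mul, map_mul, eval_C, eval_C, eval_X, eval_X]
        ring
      exact (vanishTo_mul h1 (vanishTo_moved Δ (hV i))).mono (by omega)
    · have h1 := vanishTo_mul (vanishTo_zero (C (gpt N j 1) * X 0 - C (gpt N j 0) * X 1)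
        (gpt N i)) (vanishTo_fixed Δ (hΔ i hi) (hV i))
      rwa [zero_add] at h1

theorem rho_moved {L : ℕ} (hL : 1 ≤ L) (a b : ℂ) (G : R3) :
    rho H (H + (L + 1) - 2) ((C a * X 0 - C b * X 1) * G) = (-b) • rho H (H + L - 2) G := by
  have h1 : (C a * X 0 - C b * X 1) * G = a • (X 0 * G) - b • (X 1 * G) := by
    rw [smul_eq_C_mul, smul_eq_C_mul]
    ring
  rw [h1, map_sub, map_smul, map_smul, rho_X1 hL]
  have h2 : rho H (H + (L + 1) - 2) (X 0 * G) = 0 := by
    funext c
    rw [rho_apply, coeff_X_mul_eq_zero (ex3_zero _ _ _), Pi.zero_apply]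
  rw [h2, smul_zero, zero_sub, neg_smul]

/-- every derivation maps `W L` to `W (L + 1)` -/
theorem deriv_mem {L : ℕ} (hL : 1 ≤ L) (Δ : Derivation ℚ ℂ ℂ) {g : Fin H → ℂ}
    (hg : g ∈ W H k N L) : (fun c => Δ (g c)) ∈ W H k N (L + 1) := by
  classical
  obtain ⟨E, hE⟩ := exists_dual (gpt N) (gpt_generic N)
  obtain ⟨F, hF, rfl⟩ := hg
  set Δj : Fin N → Derivation ℚ ℂ ℂ := fun j => mv E j (fun l => Δ (gpt N j l)) with hΔj
  set Δ0 : Derivation ℚ ℂ ℂ := Δ - ∑ j, Δj j with hΔ0
  have hval : ∀ j i l, Δj j (gpt N i l) = if i = j then Δ (gpt N i l) else 0 := by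
    intro j i l
    split_ifs with h
    · subst h
      exact mv_self hE i _ l
    · exact mv_ne hE h _ l
  have hsum : ∀ c : ℂ, (∑ j, Δj j) c = ∑ j, Δj j c := by
    intro c
    have h1 : ∀ s : Finset (Fin N), (∑ j ∈ s, Δj j) c = ∑ j ∈ s, Δj j c := by
      intro s
      induction s using Finset.induction_on with
      | empty => simp
      | insert a s ha ih =>
        rw [Finset.sum_insert ha, Finset.sum_insert ha, Derivation.add_apply, ih]
    exact h1 Finset.univ
  have h0 : ∀ i l, Δ0 (gpt N i l) = 0 := by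
    intro i l
    rw [hΔ0, Derivation.sub_apply, hsum]
    have h1 : ∑ j, Δj j (gpt N i l) = Δ (gpt N i l) := by
      rw [Finset.sum_eq_single i]
      · rw [hval, if_pos rfl]
      · intro j _ hj
        rw [hval, if_neg hj.symm]
      · intro h
        exact absurd (Finset.mem_univ i) h
    rw [h1, sub_self]
  have hdec : (fun c => Δ (rho H (H + L - 2) F c)) =
      (fun c => Δ0 (rho H (H + L - 2) F c)) +
        ∑ j, (fun c => Δj j (rho H (H + L - 2) F c)) := by
    funext c
    rw [Pi.add_apply, Finset.sum_apply, hΔ0, Derivation.sub_apply, hsum]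
    ring
  rw [hdec]
  refine Submodule.add_mem _ ?_ (Submodule.sum_mem _ fun j _ => ?_)
  · apply W_le_succ hL
    exact ⟨cD Δ0 F, cD_fixed_mem h0 hF, rho_cD _ _ _⟩
  · have h1 : (C (gpt N j 1) * X 0 - C (gpt N j 0) * X 1) * cD (Δj j) F ∈ V H k N (L + 1) :=
      cD_moved_mem hL (fun i hi l => by rw [hval, if_neg hi]) hF
    have h2 := Submodule.mem_map_of_mem (f := rho H (H + (L + 1) - 2)) h1
    rw [rho_moved hL, rho_cD] at h2
    have h3 := Submodule.smul_mem _ (-(gpt N j 0))⁻¹ h2
    rw [smul_smul, inv_mul_cancel₀ (neg_ne_zero.mpr (gpt_ne j 0)), one_smul] at h3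
    exact h3

/-! ### the two operators -/

/-- `∂` -/
def dn (g : Fin H → ℂ) : Fin H → ℂ := fun c =>
  if h : (c : ℕ) + 1 < H then ((c : ℕ) + 1 : ℂ) * g ⟨c + 1, h⟩ else 0

/-- `z² ∂ - (H - 1) z` -/
def up (g : Fin H → ℂ) : Fin H → ℂ := fun c =>
  if h : 0 < (c : ℕ) then (((c : ℕ) : ℂ) - H) * g ⟨c - 1, by omega⟩ else 0

theorem exists_derivation_moving (v : Fin N → ℂ) : ∃ Δ : Derivation ℚ ℂ ℂ, ∀ i,
    (fun l => Δ (gpt N i l)) = ![0, 0, v i] := by
  obtain ⟨Δ, hΔ⟩ := exists_derivation (fun z : Fin N × Fin 3 => gpt N z.1 z.2) (gpt_generic N)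
    (fun z => (![0, 0, v z.1] : V3) z.2)
  exact ⟨Δ, fun i => funext fun l => hΔ (i, l)⟩

theorem dir_two (a : ℂ) (F : R3) : dir ![0, 0, a] F = C a * pderiv 2 F := by
  rw [dir_apply, Fin.sum_univ_three]
  simp

theorem pderiv_two_coeff_ne {F : R3} {β : Fin 3 →₀ ℕ} (h : coeff β (pderiv 2 F) ≠ 0) :
    coeff (β + Finsupp.single 2 1) F ≠ 0 := by
  intro h0
  rw [coeff_pderiv, h0, zero_mul] at h
  exact h rfl

theorem dn_mem {L : ℕ} (hL : 1 ≤ L) {g : Fin H → ℂ} (hg : g ∈ W H k N L) :
    dn g ∈ W H k N (L + 1) := by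
  have hg' := hg
  obtain ⟨F, hF, rfl⟩ := hg
  have hV := (mem_V.mp hF).2.1
  obtain ⟨Δ, hΔ⟩ := exists_derivation_moving (N := N) (fun i => gpt N i 1)
  have h1 : cD Δ F + X 1 * pderiv 2 F ∈ V H k N L := by
    refine mem_V' (fun α hα => ?_) (fun i => ?_)
    · by_cases h2 : coeff α (cD Δ F) = 0
      · rw [coeff_add, h2, zero_add] at hα
        obtain ⟨β, rfl, hβ⟩ := exists_of_coeff_X_mul hα
        obtain ⟨h3, h4, h5⟩ := V_spec hF _ (pderiv_two_coeff_ne hβ)
        rw [map_add, Finsupp.degree_single] at h3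
        rw [Finsupp.add_apply, Finsupp.single_eq_same] at h4
        rw [Finsupp.add_apply, Finsupp.single_eq_of_ne (by decide)] at h5
        rw [map_add, Finsupp.degree_single, Finsupp.add_apply, Finsupp.add_apply,
          Finsupp.single_eq_of_ne (by decide), Finsupp.single_eq_of_ne (by decide)]
        omega
      · exact V_spec hF α (coeff_cD_ne h2)
    · have h2 := vanishTo_cD_dir Δ (hV i)
      rw [hΔ i, dir_two] at h2
      have h3 : VanishTo (X 1 - C (gpt N i 1)) (gpt N i) 1 := by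
        rw [vanishTo_one_iff', map_sub, eval_X, eval_C, sub_self]
      have h4 := (vanishTo_mul h3 (vanishTo_pderiv 2 (hV i))).mono (by omega : k ≤ 1 + (k - 1))
      have h5 := (vanSub (gpt N i) k).add_mem h2 h4
      have h6 : cD Δ F + X 1 * pderiv 2 F = cD Δ F + C (gpt N i 1) * pderiv 2 F +
          (X 1 - C (gpt N i 1)) * pderiv 2 F := by ring
      rw [h6]
      exact h5
  have h2 := W_le_succ hL (Submodule.mem_map_of_mem (f := rho H (H + L - 2)) h1)
  rw [map_add, rho_cD] at h2
  have h3 := Submodule.sub_mem _ h2 (deriv_mem hL Δ hg')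
  rw [add_sub_cancel_left] at h3
  have h4 : dn (rho H (H + L - 2) F) = rho H (H + L - 2) (X 1 * pderiv 2 F) := by
    funext c
    have hc := c.2
    rw [rho_apply]
    unfold dn
    split_ifs with h
    · rw [coeff_X_mul_of_eq (β := ex3 0 (H + L - 2 - (c + 1)) c), coeff_pderiv, rho_apply]
      · rw [single2, ex3_add, ex3_two]
        simp only [Nat.add_zero]
        ring
      · rw [single1, ex3_add]
        congr 1
        omega
    · symm
      by_contra hcon
      obtain ⟨β, hβ, hβ'⟩ := exists_of_coeff_X_mul hcon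
      obtain ⟨h5, h6, h7⟩ := V_spec hF _ (pderiv_two_coeff_ne hβ')
      rw [Finsupp.add_apply, Finsupp.single_eq_same] at h6
      have h8 := DFunLike.congr_fun hβ 2
      rw [ex3_two, Finsupp.add_apply, Finsupp.single_eq_of_ne (by decide)] at h8
      omega
  rw [h4]
  exact h3

theorem up_mem {L : ℕ} (hL : 1 ≤ L) {g : Fin H → ℂ} (hg : g ∈ W H k N L) :
    up g ∈ W H k N (L + 1) := by
  have hg' := hg
  obtain ⟨F, hF, rfl⟩ := hg
  have hV := (mem_V.mp hF).2.1
  obtain ⟨Δ, hΔ⟩ := exists_derivation_moving (N := N) (fun i => gpt N i 2 ^ 2 / gpt N i 1)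
  have h1 : X 1 * cD Δ F + X 2 * th 2 (H - 1) F ∈ V H k N (L + 1) := by
    refine mem_V' (fun α hα => ?_) (fun i => ?_)
    · by_cases h2 : coeff α (X 1 * cD Δ F) = 0
      · rw [coeff_add, h2, zero_add] at hα
        obtain ⟨β, rfl, hβ⟩ := exists_of_coeff_X_mul hα
        rw [coeff_th] at hβ
        obtain ⟨h3, h4, h5⟩ := V_spec hF _ (right_ne_zero_of_mul hβ)
        have h6 : β 2 ≠ H - 1 := by
          intro h7
          apply left_ne_zero_of_mul hβ
          rw [h7, sub_self]
        rw [map_add, Finsupp.degree_single, Finsupp.add_apply, Finsupp.add_apply,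
          Finsupp.single_eq_same, Finsupp.single_eq_of_ne (by decide)]
        omega
      · obtain ⟨β, rfl, hβ⟩ := exists_of_coeff_X_mul h2
        obtain ⟨h3, h4, h5⟩ := V_spec hF β (coeff_cD_ne hβ)
        rw [map_add, Finsupp.degree_single, Finsupp.add_apply, Finsupp.add_apply,
          Finsupp.single_eq_of_ne (by decide), Finsupp.single_eq_of_ne (by decide)]
        omega
    · have h2 := vanishTo_cD_dir Δ (hV i)
      rw [hΔ i, dir_two] at h2
      have h2' := vanishTo_X_mul 1 h2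
      have h3 : VanishTo (X 2 ^ 2 - C (gpt N i 2 ^ 2 / gpt N i 1) * X 1) (gpt N i) 1 := by
        rw [vanishTo_one_iff', map_sub, map_pow, map_mul, eval_X, eval_C, eval_X,
          div_mul_cancel₀ _ (gpt_ne i 1), sub_self]
      have h4 := (vanishTo_mul h3 (vanishTo_pderiv 2 (hV i))).mono (by omega : k ≤ 1 + (k - 1))
      have h5 := vanishTo_mul (vanishTo_zero (C ((H - 1 : ℕ) : ℂ) * X 2) (gpt N i)) (hV i)
      rw [zero_add] at h5
      have h6 := (vanSub (gpt N i) k).sub_mem ((vanSub (gpt N i) k).add_mem h2' h4) h5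
      have h7 : X 1 * cD Δ F + X 2 * th 2 (H - 1) F =
          X 1 * (cD Δ F + C (gpt N i 2 ^ 2 / gpt N i 1) * pderiv 2 F) +
          (X 2 ^ 2 - C (gpt N i 2 ^ 2 / gpt N i 1) * X 1) * pderiv 2 F -
          C ((H - 1 : ℕ) : ℂ) * X 2 * F := by
        unfold LD.th
        ring
      rw [h7]
      exact h6
  have h2 := Submodule.mem_map_of_mem (f := rho H (H + (L + 1) - 2)) h1
  rw [map_add, rho_X1 hL, rho_cD] at h2
  have h3 := Submodule.sub_mem _ h2 (deriv_mem hL Δ hg')
  rw [add_sub_cancel_left] at h3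
  have h4 : up (rho H (H + L - 2) F) = rho H (H + (L + 1) - 2) (X 2 * th 2 (H - 1) F) := by
    funext c
    have hc := c.2
    rw [rho_apply]
    unfold up
    split_ifs with h
    · rw [coeff_X_mul_of_eq (β := ex3 0 (H + L - 2 - (c - 1)) (c - 1)), coeff_th, rho_apply,
        ex3_two]
      · congr 1
        obtain ⟨c', hc'⟩ : ∃ c', (c : ℕ) = c' + 1 := ⟨c - 1, by omega⟩
        obtain ⟨H', hH'⟩ : ∃ H', H = H' + 1 := ⟨H - 1, by omega⟩
        rw [hc', Nat.add_sub_cancel]
        rw [show H - 1 = H' by omega]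
        rw [show (H : ℂ) = H' + 1 by rw [hH']; push_cast; rfl]
        push_cast
        ring
      · rw [single2, ex3_add]
        congr 1
        · omega
        · omega
    · rw [coeff_X_mul_eq_zero]
      rw [ex3_two]
      omega
  rw [h4]
  exact h3

/-! ### linear algebra -/

theorem eq_top_of_stable (U : Submodule ℂ (Fin H → ℂ)) (hU : U ≠ ⊥)
    (hdn : ∀ g ∈ U, dn g ∈ U) (hup : ∀ g ∈ U, up g ∈ U) : U = ⊤ := by
  classical
  -- the first basis vector
  have h1 : ∀ n : ℕ, ∀ (hn : n < H), ∀ g ∈ U, g ⟨n, hn⟩ ≠ 0 →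
      (∀ c : Fin H, n < c → g c = 0) → Pi.single (⟨0, by omega⟩ : Fin H) (1 : ℂ) ∈ U := by
    intro n
    induction n with
    | zero =>
      intro hn g hg h0 h1
      have h2 : g = g ⟨0, hn⟩ • Pi.single (⟨0, hn⟩ : Fin H) (1 : ℂ) := by
        funext c
        rw [Pi.smul_apply, smul_eq_mul]
        by_cases hc : c = ⟨0, hn⟩
        · rw [hc, Pi.single_eq_same, mul_one]
        · rw [Pi.single_eq_of_ne hc, mul_zero]
          apply h1
          rcases Nat.eq_zero_or_pos (c : ℕ) with h3 | h3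
          · exact absurd (Fin.ext h3) hc
          · exact h3
      rw [h2] at hg
      have h3 := Submodule.smul_mem _ (g ⟨0, hn⟩)⁻¹ hg
      rwa [smul_smul, inv_mul_cancel₀ h0, one_smul] at h3
    | succ n ih =>
      intro hn g hg h0 h1
      refine ih (by omega) (dn g) (hdn g hg) ?_ ?_
      · unfold dn
        rw [dif_pos hn]
        exact mul_ne_zero (by exact_mod_cast Nat.succ_ne_zero n) h0
      · intro c hc
        unfold dn
        split_ifs with h
        · rw [h1 ⟨c + 1, h⟩ (by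
            change n + 1 < (c : ℕ) + 1
            omega), mul_zero]
        · rfl
  obtain ⟨g, hg, hg0⟩ := Submodule.exists_mem_ne_zero_of_ne_bot hU
  have hex : ∃ c : Fin H, g c ≠ 0 := by
    by_contra hcon
    push Not at hcon
    exact hg0 (funext hcon)
  have hne : (Finset.univ.filter (fun c : Fin H => g c ≠ 0)).Nonempty := by
    obtain ⟨c, hc⟩ := hex
    exact ⟨c, by rw [Finset.mem_filter]; exact ⟨Finset.mem_univ _, hc⟩⟩
  obtain ⟨c₀, hc₀, hmax⟩ := Finset.exists_max_image _ (fun c : Fin H => (c : ℕ)) hne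
  rw [Finset.mem_filter] at hc₀
  have he0 := h1 c₀ c₀.2 g hg hc₀.2 (fun c hc => by
    by_contra hcon
    have h2 := hmax c (by rw [Finset.mem_filter]; exact ⟨Finset.mem_univ _, hcon⟩)
    omega)
  -- all basis vectors
  have h2 : ∀ n : ℕ, ∀ (hn : n < H), Pi.single (⟨n, hn⟩ : Fin H) (1 : ℂ) ∈ U := by
    intro n
    induction n with
    | zero => intro hn; exact he0
    | succ n ih =>
      intro hn
      have h3 := hup _ (ih (by omega))
      have h4 : up (Pi.single (⟨n, by omega⟩ : Fin H) (1 : ℂ)) =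
          (((n + 1 : ℕ) : ℂ) - H) • Pi.single (⟨n + 1, hn⟩ : Fin H) (1 : ℂ) := by
        funext c
        rw [Pi.smul_apply, smul_eq_mul]
        unfold up
        by_cases hc : c = ⟨n + 1, hn⟩
        · subst hc
          rw [dif_pos (Nat.succ_pos n), Pi.single_eq_same, mul_one]
          have h5 : (⟨(⟨n + 1, hn⟩ : Fin H) - 1, by omega⟩ : Fin H) = ⟨n, by omega⟩ := by
            apply Fin.ext
            change n + 1 - 1 = n
            omega
          rw [h5, Pi.single_eq_same, mul_one]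
        · rw [Pi.single_eq_of_ne hc, mul_zero]
          split_ifs with h
          · rw [Pi.single_eq_of_ne, mul_zero]
            intro h6
            apply hc
            apply Fin.ext
            have h7 := congrArg Fin.val h6
            change (c : ℕ) - 1 = n at h7
            change (c : ℕ) = n + 1
            omega
          · rfl
      rw [h4] at h3
      have h5 : (((n + 1 : ℕ) : ℂ) - H) ≠ 0 := by
        rw [sub_ne_zero]
        intro h6
        have h7 : n + 1 = H := by exact_mod_cast h6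
        omega
      have h6 := Submodule.smul_mem _ (((n + 1 : ℕ) : ℂ) - H)⁻¹ h3
      rwa [smul_smul, inv_mul_cancel₀ h5, one_smul] at h6
  rw [Submodule.eq_top_iff']
  intro f
  have h3 : f = ∑ c, f c • Pi.single c (1 : ℂ) := by
    funext d
    rw [Finset.sum_apply, Finset.sum_eq_single d]
    · rw [Pi.smul_apply, Pi.single_eq_same, smul_eq_mul, mul_one]
    · intro c _ hc
      rw [Pi.smul_apply, Pi.single_eq_of_ne (Ne.symm hc), smul_zero]
    · intro h
      exact absurd (Finset.mem_univ d) h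
  rw [h3]
  exact Submodule.sum_mem _ (fun c _ => Submodule.smul_mem _ _ (h2 c c.2))

/-! ### the dimension of `W` -/

theorem exists_div_X0 {F : R3} {α₀ : ℕ} (hF : F.IsHomogeneous (α₀ + 1))
    (h : ∀ α ∈ F.support, 1 ≤ α 0) :
    ∃ G : R3, G.IsHomogeneous α₀ ∧ F = X 0 * G ∧
      ∀ β, coeff β G = coeff (Finsupp.single 0 1 + β) F := by
  refine ⟨F.divMonomial (Finsupp.single 0 1), ?_, ?_, fun β => coeff_divMonomial _ _ _⟩
  · intro β hβ
    rw [coeff_divMonomial] at hβ
    have h1 := hF hβ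
    rw [map_add] at h1
    have h2 : Finsupp.weight (1 : Fin 3 → ℕ) (Finsupp.single 0 1) = 1 := by
      rw [Finsupp.weight_single]
      simp
    rw [h2] at h1
    omega
  · ext γ
    have h0 : (X 0 : R3) = monomial (Finsupp.single 0 1) 1 := rfl
    rw [h0, coeff_monomial_mul']
    split_ifs with h1
    · rw [one_mul, coeff_divMonomial, add_tsub_cancel_of_le h1]
    · by_contra hcon
      apply h1
      have h2 := h γ (MvPolynomial.mem_support_iff.mpr hcon)
      rw [Finsupp.single_le_iff]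
      exact h2

theorem finrank_ker (hH : 1 ≤ H) (L : ℕ) :
    finrank ℂ ↥(V H k N (L + 1) ⊓ LinearMap.ker (rho H (H + (L + 1) - 2))) = hR H L k N := by
  rcases Nat.eq_zero_or_pos L with hL | hL
  · subst hL
    rw [hR_zero_right, Submodule.finrank_eq_zero, Submodule.eq_bot_iff]
    rintro F ⟨hF, hF'⟩
    ext α
    rw [coeff_zero]
    by_contra hα
    obtain ⟨h1, h2, h3⟩ := V_spec hF α hα
    have h4 := congrFun (LinearMap.mem_ker.mp hF') ⟨α 2, h2⟩
    rw [rho_apply, Pi.zero_apply] at h4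
    apply hα
    have h5 : ex3 0 (H + (0 + 1) - 2 - (⟨α 2, h2⟩ : Fin H)) (⟨α 2, h2⟩ : Fin H) = α := by
      conv_rhs => rw [eq_ex3 α]
      rw [degree_three] at h1
      change ex3 0 (H + (0 + 1) - 2 - α 2) (α 2) = _
      congr 1
      · omega
      · omega
    rwa [h5] at h4
  · have hmap : V H k N (L + 1) ⊓ LinearMap.ker (rho H (H + (L + 1) - 2)) =
        (V H k N L).map (LinearMap.mulLeft ℂ (X 0 : R3)) := by
      apply le_antisymm
      · rintro F ⟨hF, hF'⟩
        have hF2 := mem_V.mp hF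
        have e1 : H + (L + 1) - 2 = (H + L - 2) + 1 := by omega
        have h0 : F.IsHomogeneous ((H + L - 2) + 1) := by rw [← e1]; exact hF2.1
        obtain ⟨G, hG1, hG2, hG3⟩ := exists_div_X0 h0 (fun α hα => by
          by_contra hcon
          rw [MvPolynomial.mem_support_iff] at hα
          obtain ⟨h1, h2, h3⟩ := V_spec hF α hα
          have h4 := congrFun (LinearMap.mem_ker.mp hF') ⟨α 2, h2⟩
          rw [rho_apply, Pi.zero_apply] at h4
          apply hα
          have h5 : ex3 0 (H + (L + 1) - 2 - (⟨α 2, h2⟩ : Fin H)) (⟨α 2, h2⟩ : Fin H) = α := by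
            conv_rhs => rw [eq_ex3 α]
            rw [degree_three] at h1
            change ex3 0 (H + (L + 1) - 2 - α 2) (α 2) = _
            congr 1
            · omega
            · omega
          rwa [h5] at h4)
        refine ⟨G, ?_, by rw [LinearMap.mulLeft_apply, hG2]⟩
        refine mem_V.mpr ⟨hG1, fun i => ?_, fun β hβ => ?_⟩
        · have h1 := hF2.2.1 i
          have h2 : (X 0 : R3) = lin ![1, 0, 0] := by
            unfold lin
            simp [Fin.sum_univ_three]
          rw [hG2, h2] at h1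
          refine vanishTo_of_mul_ne h1 ?_
          rw [← h2, eval_X]
          exact gpt_ne i 0
        · rw [hG3] at hβ
          obtain ⟨h1, h2, h3⟩ := V_spec hF _ hβ
          rw [Finsupp.add_apply, Finsupp.single_eq_of_ne (by decide), zero_add] at h2
          rw [Finsupp.add_apply, Finsupp.single_eq_same] at h3
          exact ⟨h2, by omega⟩
      · rintro _ ⟨G, hG, rfl⟩
        rw [LinearMap.mulLeft_apply]
        refine Submodule.mem_inf.mpr ⟨?_, ?_⟩
        · refine mem_V' (fun α hα => ?_) (fun i => vanishTo_X_mul 0 ((mem_V.mp hG).2.1 i))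
          obtain ⟨β, rfl, hβ⟩ := exists_of_coeff_X_mul hα
          obtain ⟨h1, h2, h3⟩ := V_spec hG β hβ
          rw [map_add, Finsupp.degree_single, Finsupp.add_apply, Finsupp.add_apply,
            Finsupp.single_eq_of_ne (by decide), Finsupp.single_eq_same]
          omega
        · rw [LinearMap.mem_ker]
          funext c
          rw [rho_apply, coeff_X_mul_eq_zero (ex3_zero _ _ _), Pi.zero_apply]
    rw [hmap, finrank_map_mulLeft (X_ne_zero _)]
    exact finrank_V L

end

end Rk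

/-- growth of the rank -/
theorem rank_growth {H k N : ℕ} (hH : 1 ≤ H) : ∃ w : ℕ → ℕ,
    (∀ L, hR H (L + 1) k N = hR H L k N + w L) ∧ (∀ L, w L ≤ H) ∧ (∀ L, w L ≤ w (L + 1)) ∧
      ∀ L, 0 < w L → w L < H → w L < w (L + 1) := by
  refine ⟨fun L => finrank ℂ (Rk.W H k N (L + 1)), fun L => ?_, fun L => ?_, fun L => ?_,
    fun L h0 h1 => ?_⟩
  · have h1 := finrank_eq_ker_add_map (Rk.rho H (H + (L + 1) - 2)) (Rk.V H k N (L + 1))
    rw [Rk.finrank_V, Rk.finrank_ker hH] at h1
    exact h1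
  · refine (Submodule.finrank_le _).trans ?_
    rw [finrank_fin_fun]
  · exact Submodule.finrank_mono (Rk.W_le_succ (Nat.succ_pos L))
  · have hle : Rk.W H k N (L + 1) ≤ Rk.W H k N (L + 1 + 1) := Rk.W_le_succ (Nat.succ_pos L)
    refine lt_of_le_of_ne (Submodule.finrank_mono hle) (fun heq => ?_)
    have h2 : Rk.W H k N (L + 1) = Rk.W H k N (L + 1 + 1) := Submodule.eq_of_le_of_finrank_eq hle heq
    have h3 : Rk.W H k N (L + 1) ≠ ⊥ := by
      intro h4
      change 0 < finrank ℂ ↥(Rk.W H k N (L + 1)) at h0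
      rw [h4, finrank_bot] at h0
      exact absurd h0 (lt_irrefl 0)
    have h4 := Rk.eq_top_of_stable (Rk.W H k N (L + 1)) h3
      (fun g hg => by rw [h2]; exact Rk.dn_mem (Nat.succ_pos L) hg)
      (fun g hg => by rw [h2]; exact Rk.up_mem (Nat.succ_pos L) hg)
    change finrank ℂ ↥(Rk.W H k N (L + 1)) < H at h1
    rw [h4, finrank_top, finrank_fin_fun] at h1
    exact absurd h1 (lt_irrefl _)

end Pool.Agent.Work.MP_0421d9_ag.LD
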