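import Pool.Agent.Work.MP_0421d9_ag.Assemble

/-!
The main theorem.
-/

set_option linter.unusedSectionVars false

namespace Pool.Agent.Work.MP_0421d9_ag

open MvPolynomial Module

section config

variable {r n d : ℕ} (p : Fin r → V3) (s : Fin n → V3) (t : Fin 4 → V3) (m : Fin r → ℕ)

/-- multiple points and dummy points -/
abbrev IT (m : Fin r → ℕ) : Type := {i : Fin r // m i ≠ 1} ⊕ Fin 4

/-- simple points -/
abbrev KT (m : Fin r → ℕ) (n : ℕ) : Type := {i : Fin r // m i = 1} ⊕ Fin n

/-- all points -/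
noncomputable def PP : IT m ⊕ KT m n → V3 :=
  Sum.elim (Sum.elim (fun i => p i) t) (Sum.elim (fun i => p i) s)

/-- multiplicities -/
def mm : IT m → ℕ := Sum.elim (fun i => m i) (fun _ => 0)

theorem PP_generic (h : AlgebraicIndependent ℚ
    (fun z : ((Fin r ⊕ Fin n) ⊕ Fin 4) × Fin 3 => Sum.elim (Sum.elim p s) t z.1 z.2)) :
    AlgebraicIndependent ℚ (fun z : (IT m ⊕ KT m n) × Fin 3 => PP p s t m z.1 z.2) := by
  let e : IT m ⊕ KT m n → (Fin r ⊕ Fin n) ⊕ Fin 4 :=
    Sum.elim (Sum.elim (fun i => Sum.inl (Sum.inl i.1)) (fun x => Sum.inr x))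
      (Sum.elim (fun i => Sum.inl (Sum.inl i.1)) (fun x => Sum.inl (Sum.inr x)))
  have he : Function.Injective e := by
    rintro ((⟨i, hi⟩ | x) | (⟨i, hi⟩ | x)) ((⟨j, hj⟩ | y) | (⟨j, hj⟩ | y)) h <;>
      simp [e] at h ⊢ <;> first | exact h | (subst h; exact absurd hj hi) |
        (subst h; exact absurd hi hj)
  have h1 : (fun z : (IT m ⊕ KT m n) × Fin 3 => PP p s t m z.1 z.2) =
      (fun z : ((Fin r ⊕ Fin n) ⊕ Fin 4) × Fin 3 => Sum.elim (Sum.elim p s) t z.1 z.2) ∘
        (fun z : (IT m ⊕ KT m n) × Fin 3 => (e z.1, z.2)) := by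
    funext z
    rcases z with ⟨(i | x) | (i | x), l⟩ <;> rfl
  rw [h1]
  apply h.comp
  rintro ⟨x, l⟩ ⟨y, l'⟩ h
  simp only [Prod.mk.injEq] at h
  rw [he h.1, h.2]

theorem linSys_core : linSys d (fun i => PP p s t m (Sum.inl i)) (mm m) =
    linSys d p (dropSimple m) := by
  ext F
  constructor
  · rintro ⟨h1, h2⟩
    refine ⟨h1, fun i => ?_⟩
    unfold dropSimple
    by_cases hi : m i = 1
    · rw [if_pos hi]; exact vanishTo_zero _ _
    · rw [if_neg hi]; exact h2 (Sum.inl ⟨i, hi⟩)
  · rintro ⟨h1, h2⟩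
    refine ⟨h1, ?_⟩
    rintro (⟨i, hi⟩ | x)
    · have := h2 i
      unfold dropSimple at this
      rw [if_neg hi] at this
      exact this
    · exact vanishTo_zero _ _

theorem linSys_core_update (i : {i : Fin r // m i ≠ 1}) :
    linSys d (fun i => PP p s t m (Sum.inl i))
      (Function.update (mm m) (Sum.inl i) (mm m (Sum.inl i) + 1)) =
    linSys d p (Function.update (dropSimple m) i.1 (m i.1 + 1)) := by
  ext F
  constructor
  · rintro ⟨h1, h2⟩
    refine ⟨h1, fun j => ?_⟩
    by_cases hji : j = i.1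
    · subst hji
      rw [Function.update_self]
      have := h2 (Sum.inl i)
      rw [Function.update_self] at this
      exact this
    · rw [Function.update_of_ne hji]
      unfold dropSimple
      by_cases hj : m j = 1
      · rw [if_pos hj]; exact vanishTo_zero _ _
      · rw [if_neg hj]
        have := h2 (Sum.inl ⟨j, hj⟩)
        rw [Function.update_of_ne (by
          intro h
          exact hji (congrArg Subtype.val (Sum.inl.inj h)))] at this
        exact this
  · rintro ⟨h1, h2⟩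
    refine ⟨h1, ?_⟩
    rintro (⟨j, hj⟩ | x)
    · by_cases hji : j = i.1
      · subst hji
        have := h2 i.1
        rw [Function.update_self] at this
        change VanishTo F _ (Function.update (mm m) (Sum.inl i) _ (Sum.inl i))
        rw [Function.update_self]
        exact this
      · have := h2 j
        rw [Function.update_of_ne hji] at this
        unfold dropSimple at this
        rw [if_neg hj] at this
        rw [Function.update_of_ne (by
          intro h
          exact hji (congrArg Subtype.val (Sum.inl.inj h)))]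
        exact this
    · rw [Function.update_of_ne (by simp)]
      exact vanishTo_zero _ _

/-- the given simple points -/
def T1 (m : Fin r → ℕ) (n : ℕ) : Finset (KT m n) :=
  (Finset.univ : Finset {i : Fin r // m i = 1}).map ⟨Sum.inl, Sum.inl_injective⟩

theorem linSys_T1 : linSys d (PP p s t m) (MT (mm m) (T1 m n)) = linSys d p m := by
  have hT : ∀ x : KT m n, x ∈ T1 m n ↔ ∃ i, x = Sum.inl i := by
    intro x
    unfold T1
    simp only [Finset.mem_map, Finset.mem_univ, Function.Embedding.coeFn_mk, true_and]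
    exact ⟨fun ⟨i, hi⟩ => ⟨i, hi.symm⟩, fun ⟨i, hi⟩ => ⟨i, hi.symm⟩⟩
  ext F
  constructor
  · rintro ⟨h1, h2⟩
    refine ⟨h1, fun i => ?_⟩
    by_cases hi : m i = 1
    · have := h2 (Sum.inr (Sum.inl ⟨i, hi⟩))
      change VanishTo F (p i) (if Sum.inl ⟨i, hi⟩ ∈ T1 m n then 1 else 0) at this
      rw [if_pos ((hT _).mpr ⟨_, rfl⟩)] at this
      rwa [hi]
    · exact h2 (Sum.inl (Sum.inl ⟨i, hi⟩))
  · rintro ⟨h1, h2⟩
    refine ⟨h1, ?_⟩
    rintro ((⟨i, hi⟩ | x) | (⟨i, hi⟩ | x))
    · exact h2 i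
    · exact vanishTo_zero _ _
    · have := h2 i
      rw [hi] at this
      change VanishTo F (p i) (if Sum.inl ⟨i, hi⟩ ∈ T1 m n then 1 else 0)
      rwa [if_pos ((hT _).mpr ⟨_, rfl⟩)]
    · change VanishTo F _ (if Sum.inr x ∈ T1 m n then 1 else 0)
      rw [if_neg (by
        rw [hT]
        rintro ⟨i, hi⟩
        exact absurd hi (by simp))]
      exact vanishTo_zero _ _

theorem MT_univ : (MT (mm m) (Finset.univ : Finset (KT m n))) =
    Sum.elim (mm m) (fun _ => 1) := by
  funext x
  rcases x with x | x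
  · rfl
  · change (if x ∈ Finset.univ then 1 else 0) = 1
    rw [if_pos (Finset.mem_univ x)]

theorem mem_all {F : R3} : F ∈ linSys d (PP p s t m) (Sum.elim (mm m) (fun _ => 1)) ↔
    F ∈ linSys d p m ∧ ∀ k, eval (s k) F = 0 := by
  constructor
  · rintro ⟨h1, h2⟩
    refine ⟨⟨h1, fun i => ?_⟩, fun k => ?_⟩
    · by_cases hi : m i = 1
      · rw [hi]
        exact h2 (Sum.inr (Sum.inl ⟨i, hi⟩))
      · exact h2 (Sum.inl (Sum.inl ⟨i, hi⟩))
    · exact vanishTo_one_iff.mp (h2 (Sum.inr (Sum.inr k)))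
  · rintro ⟨⟨h1, h2⟩, h3⟩
    refine ⟨h1, ?_⟩
    rintro ((⟨i, hi⟩ | x) | (⟨i, hi⟩ | x))
    · exact h2 i
    · exact vanishTo_zero _ _
    · have := h2 i
      rw [hi] at this
      exact this
    · exact vanishTo_one_iff.mpr (h3 x)

end config

end Pool.Agent.Work.MP_0421d9_ag
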