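import Pool.Agent.Work.MP_0421d9_ag.Nc1

/-!
Common factors of the members of a linear system: adding a point at which the system cuts out a
complete series.
-/

set_option linter.unusedSectionVars false

namespace Pool.Agent.Work.MP_0421d9_ag

open MvPolynomial Module

/-- separation of a form from a space of forms by the pairing -/
theorem exists_sep {d : ℕ} {N : Submodule ℂ R3} (hN : N ≤ Rd d) {f : R3} (hf : f.IsHomogeneous d)
    (hfN : f ∉ N) : ∃ A : R3, A.IsHomogeneous d ∧ (∀ n ∈ N, B A n = 0) ∧ B A f ≠ 0 := by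
  by_contra hcon
  push Not at hcon
  apply hfN
  have h1 := LinearMap.BilinForm.orthogonal_orthogonal (Bd_nondegenerate d) (Bd_isRefl d)
    (N.comap (Rd d).subtype)
  have h2 : (⟨f, hf⟩ : Rd d) ∈ N.comap (Rd d).subtype := by
    rw [← h1, LinearMap.BilinForm.mem_orthogonal_iff]
    intro A hA
    change B A.1 f = 0
    apply hcon A.1 A.2
    intro n hn
    have h3 := (LinearMap.BilinForm.mem_orthogonal_iff.mp hA) ⟨n, hN hn⟩ hn
    rw [B_symm]
    exact h3
  exact h2

/-- evaluation of a form along a line, as a polynomial in one variable -/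
noncomputable def along (v w : V3) (h : R3) : Polynomial ℂ :=
  aeval (fun l => Polynomial.C (v l) + Polynomial.X * Polynomial.C (w l)) h

theorem eval_along (v w : V3) (h : R3) (t : ℂ) :
    (along v w h).eval t = eval (v + t • w) h := by
  unfold along
  induction h using MvPolynomial.induction_on with
  | C c => simp
  | add p q hp hq => simp only [map_add, Polynomial.eval_add, hp, hq]
  | mul_X p n hp =>
    simp only [map_mul, Polynomial.eval_mul, hp, aeval_X, eval_X, Polynomial.eval_add,
      Polynomial.eval_C, Polynomial.eval_X, Pi.add_apply, Pi.smul_apply, smul_eq_mul]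

theorem exists_root_or_const (v w : V3) (h : R3) :
    (∃ t : ℂ, eval (v + t • w) h = 0) ∨ ∃ c : ℂ, ∀ t : ℂ, eval (v + t • w) h = c := by
  by_cases hdeg : (along v w h).degree = 0
  · right
    refine ⟨(along v w h).coeff 0, fun t => ?_⟩
    rw [← eval_along, Polynomial.eq_C_of_degree_eq_zero hdeg, Polynomial.eval_C,
      Polynomial.coeff_C_zero]
  · left
    obtain ⟨t, ht⟩ := IsAlgClosed.exists_root _ hdeg
    refine ⟨t, ?_⟩
    rw [← eval_along]
    exact ht

theorem eval_smul_form {h : R3} {e : ℕ} (hh : h.IsHomogeneous e) (c : ℂ) (v : V3) :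
    eval (c • v) h = c ^ e * eval v h := by
  have h1 := B_lin_pow hh (c • v)
  rw [lin_smul, mul_pow, ← map_pow, B_C_mul_left, B_lin_pow hh v] at h1
  have h2 : (e.factorial : ℂ) ≠ 0 := by exact_mod_cast Nat.factorial_ne_zero e
  apply mul_left_cancel₀ h2
  rw [← h1]
  ring

/-- a form of positive degree vanishes at some point of any line missing a given point -/
theorem exists_zero {p : V3} (hp : p ≠ 0) {h : R3} {e : ℕ} (he : 1 ≤ e) (hh : h.IsHomogeneous e) :
    ∃ u, cr p u ≠ 0 ∧ eval u h = 0 := by
  obtain ⟨v, w, hv, hw⟩ := exists_indep hp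
  by_contra hcon
  push Not at hcon
  have h1 : ∀ t : ℂ, eval (w + t • v) h ≠ 0 := fun t => hcon _ (hw t)
  have h2 : ∀ s : ℂ, s ≠ 0 → eval (v + s • w) h = s ^ e * eval (w + s⁻¹ • v) h := by
    intro s hs
    rw [← eval_smul_form hh]
    congr 1
    rw [smul_add, smul_smul, mul_inv_cancel₀ hs, one_smul, add_comm]
  have h3 : ∀ s : ℂ, eval (v + s • w) h ≠ 0 := by
    intro s
    by_cases hs : s = 0
    · rw [hs, zero_smul, add_zero]
      exact hcon v hv
    · rw [h2 s hs]
      exact mul_ne_zero (pow_ne_zero _ hs) (h1 _)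
  rcases exists_root_or_const w v h with ⟨t, ht⟩ | ⟨c, hc⟩
  · exact h1 t ht
  rcases exists_root_or_const v w h with ⟨t, ht⟩ | ⟨c', hc'⟩
  · exact h3 t ht
  have h4 := h2 1 one_ne_zero
  have h5 := h2 2 two_ne_zero
  rw [hc', hc] at h4 h5
  have hc0 : c ≠ 0 := by
    rw [← hc 0]
    exact h1 0
  rw [h4, one_pow, one_mul] at h5
  have h6 : (2 : ℂ) ^ e = 1 := by
    have h7 : c * (2 ^ e - 1) = 0 := by linear_combination -h5
    have h8 := (mul_eq_zero.mp h7).resolve_left hc0
    linear_combination h8
  have h7 : ((2 ^ e : ℕ) : ℂ) = ((1 : ℕ) : ℂ) := by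
    push_cast
    exact h6
  have h8 : 2 ^ e = 1 := by exact_mod_cast h7
  have h9 : 1 < 2 ^ e := Nat.one_lt_two_pow (by omega)
  omega

section nc

variable {ι : Type} [Fintype ι] [DecidableEq ι] {d : ℕ} {p : ι → V3}
  {E : ι → Fin 3 → Derivation ℚ ℂ ℂ} {z : ι → ℕ} {π : R3}

theorem isHomogeneous_common (hne : linSys d p z ≠ ⊥)
    (hdiv : ∀ f ∈ linSys d p z, π ∣ f) : ∃ e, π.IsHomogeneous e := by
  obtain ⟨f, hf, hf0⟩ := Submodule.exists_mem_ne_zero_of_ne_bot hne
  obtain ⟨g, hg⟩ := hdiv f hf
  obtain ⟨a, b, -, ha, -⟩ := isHomogeneous_factor (A := π) (G := g) (d := d)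
    (by rw [← hg]; exact hf.1) (by rw [← hg]; exact hf0)
  exact ⟨a, ha⟩

/-- a common factor is fixed, up to a scalar, by the motions of the points off it -/
theorem dvd_cD_of_eval_ne (hE : IsDual p E) (hπ : Irreducible π) (hne : linSys d p z ≠ ⊥)
    (hdiv : ∀ f ∈ linSys d p z, π ∣ f) {j : ι} (hj : eval (p j) π ≠ 0) (v : V3) :
    π ∣ cD (mv E j v) π := by
  obtain ⟨e, he⟩ := isHomogeneous_common hne hdiv
  by_contra hnd
  apply hne
  refine eq_bot_of_swap hπ he (cD_isHomogeneous (mv E j v) he) hnd ?_ hdiv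
  intro l k hk
  by_cases hl : l = j
  · subst hl
    cases k with
    | zero => intro n hn; omega
    | succ k =>
      exfalso
      exact hj (vanishTo_one_iff.mp (hk.mono (by omega)))
  · by_cases hke : k ≤ e + 1
    · exact vanishTo_cD_fixed (fun n => mv_ne hE hl v n) he hke hk
    · exfalso
      exact hπ.ne_zero (eq_zero_of_vanishTo he (by omega : e < k) hk)

/-- the system is nonempty if it cuts out a complete series somewhere -/
theorem ne_bot_of_full (hz : ∀ l, z l ≤ d) {j : ι} (hpj : p j ≠ 0)
    (hfull : Rigid.Full d p z j) : linSys d p z ≠ ⊥ := by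
  intro h0
  obtain ⟨v, hv⟩ := exists_cr_ne hpj
  have h1 : lin (p j) ^ (d - z j) * lin v ^ (z j) ∈ J d p z := by
    apply mem_J_of_B (fun l => (hz l).trans (Nat.le_succ d))
    · have := (lin_isHomogeneous_pow (p j) (d - z j)).mul (lin_isHomogeneous_pow v (z j))
      rwa [Nat.sub_add_cancel (hz j)] at this
    · intro F hF
      rw [h0, Submodule.mem_bot] at hF
      rw [hF, map_zero]
  have h2 := hfull _ (lin_isHomogeneous_pow v (z j)) h1
  have h3 := (lin_prime hpj).dvd_of_dvd_pow h2
  exact hv (lin_dvd_lin h3)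

/-- a common factor does not pass through a point where the system cuts out a complete series -/
theorem eval_ne_of_full (hz : ∀ l, z l ≤ d) {j : ι} (hpj : p j ≠ 0)
    (hfull : Rigid.Full d p z j) (hπ : Irreducible π) (hdiv : ∀ f ∈ linSys d p z, π ∣ f) :
    eval (p j) π ≠ 0 := by
  intro h0
  have hne := ne_bot_of_full hz hpj hfull
  obtain ⟨e, he, he'⟩ := exists_order (translate_ne_zero hπ.ne_zero (p j))
  have he1 : 1 ≤ e := by
    by_contra hcon
    have : e = 0 := by omega
    subst this
    apply he'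
    exact vanishTo_one_iff.mpr h0 0 one_pos
  obtain ⟨u, hu, hu0⟩ := exists_zero hpj he1
    (homogeneousComponent_isHomogeneous e (translate (p j) π))
  have h1 : lin (p j) ^ (d - z j) * lin u ^ (z j) ∈ J d p z := by
    apply mem_J_of_B (fun l => (hz l).trans (Nat.le_succ d))
    · have := (lin_isHomogeneous_pow (p j) (d - z j)).mul (lin_isHomogeneous_pow u (z j))
      rwa [Nat.sub_add_cancel (hz j)] at this
    · intro F hF
      rw [B_lin_pow_mul]
      have hh := dir_iterate_isHomogeneous (p j) (d - z j) hF.1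
      rw [Nat.sub_sub_self (hz j)] at hh
      rw [B_lin_pow hh]
      have h2 := taylor_component hF.1 (p j) (hz j)
      have h3 : (((d - z j).factorial : ℂ)⁻¹) ≠ 0 := inv_ne_zero (by
        exact_mod_cast Nat.factorial_ne_zero _)
      obtain ⟨g, hg⟩ := hdiv F hF
      have h4 : eval u (homogeneousComponent (z j) (translate (p j) F)) = 0 := by
        by_cases hez : e ≤ z j
        · have h5 : VanishTo F (p j) (z j) := hF.2 j
          rw [hg, translate_mul]
          unfold VanishTo at h5
          rw [hg, translate_mul] at h5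
          have h6 := le_of_hc_mul he he' h5
          have h7 := hc_mul_lowest he (g := z j - e) (G := translate (p j) g)
            (fun k hk => h6 k (by omega))
          rw [(by omega : e + (z j - e) = z j)] at h7
          rw [h7, map_mul, hu0, zero_mul]
        · have h5 : VanishTo F (p j) (z j + 1) := by
            have h6 : VanishTo π (p j) e := he
            have h7 := vanishTo_mul h6 (vanishTo_zero g (p j))
            rw [← hg, add_zero] at h7
            exact h7.mono (by omega)
          rw [h5 (z j) (Nat.lt_succ_self _), map_zero]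
      rw [h2, map_mul, eval_C] at h4
      rw [(mul_eq_zero.mp h4).resolve_left h3, mul_zero]
  have h2 := hfull _ (lin_isHomogeneous_pow u (z j)) h1
  have h3 := (lin_prime hpj).dvd_of_dvd_pow h2
  exact hu (lin_dvd_lin h3)

end nc

end Pool.Agent.Work.MP_0421d9_ag
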