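import Pool.Agent.Work.MP_0421d9_ag.Nc2

/-!
Descent of common factors, when the points are dropped one after the other.
-/

set_option linter.unusedSectionVars false

namespace Pool.Agent.Work.MP_0421d9_ag

open MvPolynomial Module

section nc

variable {ι : Type} [Fintype ι] [DecidableEq ι] {d : ℕ} {p : ι → V3}
  {E : ι → Fin 3 → Derivation ℚ ℂ ℂ} {z : ι → ℕ} {π : R3}

theorem cD_Psi' (hE : IsDual p E) (hm : ∀ i, z i ≤ d) {G : ι → R3} (j : ι) (v : V3) :
    cD (mv E j v) (Psi d p z G) =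
      C ((d + 1 - z j : ℕ) : ℂ) * (lin (p j) ^ (d - z j) * (lin v * G j)) +
      Psi d p z (fun i => cD (mv E j v) (G i)) := by
  rw [Psi_apply, Psi_apply, map_sum]
  have h1 : ∀ i, cD (mv E j v) (lin (p i) ^ (d + 1 - z i) * G i) =
      (if i = j then C ((d + 1 - z j : ℕ) : ℂ) *
        (lin (p j) ^ (d - z j) * (lin v * G j)) else 0) +
      lin (p i) ^ (d + 1 - z i) * cD (mv E j v) (G i) := by
    intro i
    by_cases h : i = j
    · subst h
      rw [if_pos rfl, cD_mul, cD_pow, cD_lin_self hE,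
        (by have := hm i; omega : d + 1 - z i - 1 = d - z i)]
      ring
    · rw [if_neg h, cD_mul, cD_lin_pow_ne hE h, zero_mul]
  rw [Finset.sum_congr rfl (fun i _ => h1 i), Finset.sum_add_distrib, Finset.sum_ite_eq' _ j,
    if_pos (Finset.mem_univ j)]

/-- if `z` cuts out a complete series at `j`, the system with the multiplicity at `j` lowered is
spanned by the system and its derivatives along motions of `j`; dual form -/
theorem mem_J_dn (hE : IsDual p E) (hz : ∀ l, z l ≤ d) {j : ι} (hj : 1 ≤ z j)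
    (hfull : Rigid.Full d p z j) {A : R3} (hA : A ∈ J d p z)
    (hDA : ∀ v, cD (mv E j v) A ∈ J d p z) : A ∈ J d p (dn z j) := by
  obtain ⟨G, hG, hGA⟩ := mem_J.mp hA
  have hGA' : Psi d p z G = A := by rw [Psi_apply]; exact hGA
  obtain ⟨v, hv⟩ := exists_cr_ne (gp1 hE j)
  have h1 := cD_Psi' hE hz (G := G) j v
  rw [hGA'] at h1
  have h2 : Psi d p z (fun i => cD (mv E j v) (G i)) ∈ J d p z :=
    mem_J.mpr ⟨_, fun i => cD_mem_Hm _ (hG i), by rw [Psi_apply]⟩
  have h3 : C ((d + 1 - z j : ℕ) : ℂ) * (lin (p j) ^ (d - z j) * (lin v * G j)) ∈ J d p z := by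
    have h4 : C ((d + 1 - z j : ℕ) : ℂ) * (lin (p j) ^ (d - z j) * (lin v * G j)) =
        cD (mv E j v) A - Psi d p z (fun i => cD (mv E j v) (G i)) := by
      rw [h1]; ring
    rw [h4]
    exact Submodule.sub_mem _ (hDA v) h2
  have h4 : lin (p j) ^ (d - z j) * (lin v * G j) ∈ J d p z := by
    rw [← smul_eq_C_mul] at h3
    have h5 : ((d + 1 - z j : ℕ) : ℂ) ≠ 0 := by
      rw [Nat.cast_ne_zero]
      have := hz j
      omega
    exact (Submodule.smul_mem_iff _ h5).mp h3
  have hGj : (G j).IsHomogeneous (z j - 1) := by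
    have h5 := hG j
    obtain ⟨n, hn⟩ : ∃ n, z j = n + 1 := ⟨z j - 1, by omega⟩
    rw [hn, mem_Hm_succ] at h5
    rwa [hn, Nat.add_sub_cancel]
  have h5 : (lin v * G j).IsHomogeneous (z j) := by
    have := (lin_isHomogeneous v).mul hGj
    rwa [(by omega : 1 + (z j - 1) = z j)] at this
  have h6 : lin (p j) ∣ G j := lin_dvd_of_mul (gp1 hE j) hv (hfull _ h5 h4)
  obtain ⟨G', hG', hGG'⟩ := exists_Hm_factor hGj h6
  rw [← hGA]
  apply Submodule.sum_mem
  intro l _
  by_cases hl : l = j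
  · subst hl
    have h7 : lin (p l) ^ (d + 1 - z l) * G l = lin (p l) ^ (d + 1 - dn z l l) * G' := by
      rw [dn_self, hGG', (by have := hz l; omega : d + 1 - (z l - 1) = d + 1 - z l + 1), pow_succ]
      ring
    rw [h7]
    apply summand_mem_J
    rw [dn_self]
    exact hG'
  · have h7 := hG l
    rw [← dn_ne z hl] at h7 ⊢
    exact summand_mem_J l h7

theorem full_dn (hE : IsDual p E) (hz : ∀ l, z l ≤ d) {j : ι} (hj : 1 ≤ z j)
    (hfull : Rigid.Full d p z j) : Rigid.Full d p (dn z j) j := by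
  have hz' : ∀ l, dn z j l ≤ d := fun l => (dn_le z j l).trans (hz l)
  intro U hU hJ
  rw [dn_self] at hU hJ
  obtain ⟨v, hv⟩ := exists_cr_ne (gp1 hE j)
  apply lin_dvd_of_mul (gp1 hE j) hv
  apply hfull
  · have := (lin_isHomogeneous v).mul hU
    rwa [(by omega : 1 + (z j - 1) = z j)] at this
  · have e1 : d - (z j - 1) = d - z j + 1 := by have := hz j; omega
    have h1 : lin (p j) ^ (d - (z j - 1)) * cD (mv E j v) U ∈ J d p z := by
      have h2 : cD (mv E j v) U ∈ Hm (z j) := by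
        obtain ⟨n, hn⟩ : ∃ n, z j = n + 1 := ⟨z j - 1, by omega⟩
        rw [hn, mem_Hm_succ]
        rw [hn, Nat.add_sub_cancel] at hU
        exact cD_isHomogeneous _ hU
      have h3 := summand_mem_J (d := d) (p := p) j h2
      rwa [(by have := hz j; omega : d + 1 - z j = d - (z j - 1))] at h3
    have h2 := cD_mem_J_up hE hz' j v hJ
    rw [up_dn hj, e1, cD_mul, cD_pow, cD_lin_self hE, Nat.add_sub_cancel] at h2
    rw [e1] at h1
    have h3 := Submodule.sub_mem _ h2 h1
    have h4 : C ((d - z j + 1 : ℕ) : ℂ) * (lin (p j) ^ (d - z j) * lin v) * U +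
        lin (p j) ^ (d - z j + 1) * cD (mv E j v) U -
        lin (p j) ^ (d - z j + 1) * cD (mv E j v) U =
        ((d - z j + 1 : ℕ) : ℂ) • (lin (p j) ^ (d - z j) * (lin v * U)) := by
      rw [smul_eq_C_mul]; ring
    rw [h4] at h3
    have h5 : ((d - z j + 1 : ℕ) : ℂ) ≠ 0 := by
      rw [Nat.cast_ne_zero]; omega
    exact (Submodule.smul_mem_iff _ h5).mp h3

/-- a common factor divides the system with the multiplicity lowered -/
theorem dvd_dn (hE : IsDual p E) (hz : ∀ l, z l ≤ d) {j : ι} (hj : 1 ≤ z j)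
    (hfull : Rigid.Full d p z j) (hdiv : ∀ f ∈ linSys d p z, π ∣ f)
    (hD : ∀ v, π ∣ cD (mv E j v) π) : ∀ f ∈ linSys d p (dn z j), π ∣ f := by
  intro f hf
  set N : Submodule ℂ R3 := Rd d ⊓ (Ideal.span {π}).restrictScalars ℂ with hN
  have hmem : ∀ g, g ∈ N ↔ g.IsHomogeneous d ∧ π ∣ g := by
    intro g
    rw [hN, Submodule.mem_inf, Submodule.restrictScalars_mem, Ideal.mem_span_singleton]
    rfl
  suffices h : f ∈ N from ((hmem f).mp h).2
  by_contra hfN
  obtain ⟨A, hA, hAN, hAf⟩ := exists_sep (inf_le_left : N ≤ Rd d) hf.1 hfN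
  apply hAf
  have hz1 : ∀ l, z l ≤ d + 1 := fun l => (hz l).trans (Nat.le_succ d)
  have h1 : A ∈ J d p z := mem_J_of_B hz1 hA (fun F hF => hAN F ((hmem F).mpr ⟨hF.1, hdiv F hF⟩))
  have h2 : ∀ v, cD (mv E j v) A ∈ J d p z := by
    intro v
    apply mem_J_of_B hz1 (cD_isHomogeneous _ hA)
    intro F hF
    obtain ⟨g, hg⟩ := hdiv F hF
    have h3 := D_B (mv E j v) A F
    rw [hAN F ((hmem F).mpr ⟨hF.1, hdiv F hF⟩), map_zero, hAN (cD (mv E j v) F) ((hmem _).mpr
      ⟨cD_isHomogeneous _ hF.1, ?_⟩), add_zero] at h3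
    · exact h3.symm
    · rw [hg, cD_mul]
      exact dvd_add (Dvd.dvd.mul_right (hD v) _) (Dvd.intro _ rfl)
  have h3 := mem_J_dn hE hz hj hfull h1 h2
  exact B_J_linSys (fun l => (dn_le z j l).trans (hz1 l)) h3 hf

/-- a common factor divides the system with the point dropped -/
theorem dvd_drop (hE : IsDual p E) (hz : ∀ l, z l ≤ d) {j : ι}
    (hfull : Rigid.Full d p z j) (hπ : Irreducible π) (hdiv : ∀ f ∈ linSys d p z, π ∣ f) :
    ∀ f ∈ linSys d p (Function.update z j 0), π ∣ f := by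
  have hev := eval_ne_of_full hz (gp1 hE j) hfull hπ hdiv
  have hne := ne_bot_of_full hz (gp1 hE j) hfull
  have hD : ∀ v, π ∣ cD (mv E j v) π := dvd_cD_of_eval_ne hE hπ hne hdiv hev
  have key : ∀ n, ∀ z : ι → ℕ, z j = n → (∀ l, z l ≤ d) → Rigid.Full d p z j →
      (∀ f ∈ linSys d p z, π ∣ f) → ∀ f ∈ linSys d p (Function.update z j 0), π ∣ f := by
    intro n
    induction n with
    | zero =>
      intro z hzj _ _ hdiv
      rw [← hzj, Function.update_eq_self]
      exact hdiv
    | succ n ih =>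
      intro z hzj hz hfull hdiv
      have hj : 1 ≤ z j := by omega
      have h1 := ih (dn z j) (by rw [dn_self]; omega) (fun l => (dn_le z j l).trans (hz l))
        (full_dn hE hz hj hfull) (dvd_dn hE hz hj hfull hdiv hD)
      have h2 : Function.update (dn z j) j 0 = Function.update z j 0 := by
        unfold dn
        rw [Function.update_idem]
      rwa [h2] at h1
  exact key (z j) z rfl hz hfull hdiv

/-- completeness passes to smaller multiplicities at the other points -/
theorem full_mono {z z' : ι → ℕ} (hz' : ∀ l, z' l ≤ d) (hle : ∀ l, z l ≤ z' l) {j : ι}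
    (hj : z j = z' j) (hfull : Rigid.Full d p z' j) : Rigid.Full d p z j := by
  intro U hU hJ
  apply hfull U
  · rwa [← hj]
  · rw [← hj]
    exact J_mono (fun l => (hz' l).trans (Nat.le_succ d)) hle hJ

end nc

end Pool.Agent.Work.MP_0421d9_ag
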