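import Pool.Agent.Work.MP_0421d9_ag.Nc3

/-!
Linear systems without common factor.
-/

set_option linter.unusedSectionVars false

namespace Pool.Agent.Work.MP_0421d9_ag

open MvPolynomial Module

theorem cr_eq_zero_of_dvd {π : R3} (hπ : Irreducible π) {u v : V3} (hu0 : u ≠ 0)
    (hu : π ∣ lin u) (hv : π ∣ lin v) : cr u v = 0 := by
  have h1 : Associated π (lin u) := hπ.associated_of_dvd (lin_prime hu0).irreducible hu
  exact lin_dvd_lin (h1.symm.dvd.trans hv)

theorem vanishTo_pow {f : R3} {a : V3} (h : eval a f = 0) (n : ℕ) : VanishTo (f ^ n) a n := by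
  induction n with
  | zero => exact vanishTo_zero _ _
  | succ n ih =>
    rw [pow_succ]
    exact vanishTo_mul ih (vanishTo_one_iff.mpr h)

section nc

variable {ι : Type} [Fintype ι] [DecidableEq ι] {d : ℕ} {p : ι → V3}
  {E : ι → Fin 3 → Derivation ℚ ℂ ℂ} {z : ι → ℕ} {π : R3}

/-- three points: the monomials in the equations of the three lines have no common factor -/
theorem three_no_common (hE : IsDual p E) {a b c : ι} (hab : a ≠ b) (hac : a ≠ c) (hbc : b ≠ c)
    (h1 : z a + z b ≤ d) (h2 : z a + z c ≤ d) (h3 : z b + z c ≤ d)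
    (h0 : ∀ l, l ≠ a → l ≠ b → l ≠ c → z l = 0) (hπ : Irreducible π)
    (hdiv : ∀ f ∈ linSys d p z, π ∣ f) : False := by
  have hpr := hπ.prime
  -- two lines with a common point do not coincide
  have key : ∀ x y w : ι, x ≠ y → x ≠ w → y ≠ w → π ∣ xl (p x) (p y) → π ∣ xl (p x) (p w) →
      False := by
    intro x y w hxy hxw hyw h4 h5
    have h6 : cr (p x) (p y) ≠ 0 := gp2 hE hxy
    have h7 := cr_eq_zero_of_dvd hπ h6 h4 h5
    obtain ⟨s, hs⟩ := exists_smul_of_cr_eq_zero h6 h7
    have h8 : eval (p y) (xl (p x) (p w)) = 0 := by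
      unfold xl
      rw [hs, lin_smul, map_mul]
      have : eval (p y) (lin (cr (p x) (p y))) = 0 := eval_xl_right _ _
      rw [this, mul_zero]
    exact gp3 hE hxw hxy hyw.symm h8
  have hsymm : ∀ x y : V3, π ∣ xl x y → π ∣ xl y x := by
    intro x y h
    rw [xl_symm]
    exact Dvd.dvd.mul_left h _
  -- the monomial without the line through the two points other than `x`
  have mono : ∀ x y w : ι, x ≠ y → x ≠ w → y ≠ w → z x + z y ≤ d → z x + z w ≤ d →
      z y + z w ≤ d → (∀ l, l ≠ x → l ≠ y → l ≠ w → z l = 0) →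
      π ∣ xl (p x) (p w) ∨ π ∣ xl (p x) (p y) := by
    intro x y w hxy hxw hyw e1 e2 e3 e0
    have h4 : xl (p x) (p w) ^ (z w) * xl (p x) (p y) ^ (d - z w) ∈ linSys d p z := by
      refine ⟨?_, fun l => ?_⟩
      · have := (xl_pow_isHomogeneous (p x) (p w) (z w)).mul
          (xl_pow_isHomogeneous (p x) (p y) (d - z w))
        rwa [(by omega : z w + (d - z w) = d)] at this
      · by_cases hlx : l = x
        · subst hlx
          have h5 := vanishTo_mul (vanishTo_pow (eval_xl_left (p l) (p w)) (z w))
            (vanishTo_pow (eval_xl_left (p l) (p y)) (d - z w))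
          exact h5.mono (by omega)
        · by_cases hly : l = y
          · subst hly
            have h5 := vanishTo_mul (vanishTo_zero (xl (p x) (p w) ^ (z w)) (p l))
              (vanishTo_pow (eval_xl_right (p x) (p l)) (d - z w))
            exact h5.mono (by omega)
          · by_cases hlw : l = w
            · subst hlw
              have h5 := vanishTo_mul (vanishTo_pow (eval_xl_right (p x) (p l)) (z l))
                (vanishTo_zero (xl (p x) (p y) ^ (d - z l)) (p l))
              exact h5.mono (by omega)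
            · rw [e0 l hlx hly hlw]
              exact vanishTo_zero _ _
    rcases hpr.dvd_or_dvd (hdiv _ h4) with h5 | h5
    · exact Or.inl (hpr.dvd_of_dvd_pow h5)
    · exact Or.inr (hpr.dvd_of_dvd_pow h5)
  have ma := mono a b c hab hac hbc h1 h2 h3 h0
  have mb := mono b a c hab.symm hbc hac (by omega) h3 h2 (fun l h4 h5 h6 => h0 l h5 h4 h6)
  have mc := mono c a b hac.symm hbc.symm hab (by omega) (by omega) h1
    (fun l h4 h5 h6 => h0 l h5 h6 h4)
  -- lines ab, ac, bc
  rcases ma with ha | ha
  · -- ac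
    rcases mb with hb | hb
    · -- bc
      exact key c a b hac.symm hbc.symm hab (hsymm _ _ ha) (hsymm _ _ hb)
    · -- ba
      exact key a c b hac hab hbc.symm ha (hsymm _ _ hb)
  · -- ab
    rcases mc with hc | hc
    · -- cb
      exact key b a c hab.symm hbc hac (hsymm _ _ ha) (hsymm _ _ hc)
    · -- ca
      exact key a b c hab hac hbc ha (hsymm _ _ hc)

/-- **No common factor**, when the points outside `a`, `b`, `c` are added one after the other and
each time the system cuts out a complete series on the new exceptional curve. -/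
theorem no_common {m : ι → ℕ} (hE : IsDual p E) (hm : ∀ l, m l ≤ d) {a b c : ι} (hab : a ≠ b)
    (hac : a ≠ c) (hbc : b ≠ c) (h1 : m a + m b ≤ d) (h2 : m a + m c ≤ d) (h3 : m b + m c ≤ d)
    {ρ : ι → ℕ} (hfull : ∀ j, j ≠ a → j ≠ b → j ≠ c → 1 ≤ m j →
      Rigid.Full d p (rs (fun l => ρ l ≤ ρ j ∨ l = a ∨ l = b ∨ l = c) m) j)
    (hπ : Irreducible π) (hdiv : ∀ f ∈ linSys d p m, π ∣ f) : False := by
  classical
  have key : ∀ n, ∀ z : ι → ℕ, (∀ l, z l ≤ m l) → z a = m a → z b = m b → z c = m c →
      (∀ l, l ≠ a → l ≠ b → l ≠ c → z l = 0 ∨ z l = m l) →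
      (Finset.univ.filter (fun l => l ≠ a ∧ l ≠ b ∧ l ≠ c ∧ z l ≠ 0)).card = n →
      (∀ f ∈ linSys d p z, π ∣ f) → False := by
    intro n
    induction n with
    | zero =>
      intro z hz ha hb hc hzl hcard hdiv
      refine three_no_common hE hab hac hbc (by omega) (by omega) (by omega) ?_ hπ hdiv
      intro l hla hlb hlc
      by_contra hl
      rw [Finset.card_eq_zero] at hcard
      have : l ∈ (Finset.univ.filter (fun l => l ≠ a ∧ l ≠ b ∧ l ≠ c ∧ z l ≠ 0)) := by
        rw [Finset.mem_filter]
        exact ⟨Finset.mem_univ _, hla, hlb, hlc, hl⟩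
      rw [hcard] at this
      exact absurd this (Finset.notMem_empty l)
    | succ n ih =>
      intro z hz ha hb hc hzl hcard hdiv
      set S := Finset.univ.filter (fun l => l ≠ a ∧ l ≠ b ∧ l ≠ c ∧ z l ≠ 0) with hS
      have hSne : S.Nonempty := by
        rw [← Finset.card_pos]; omega
      obtain ⟨j, hj, hmax⟩ := Finset.exists_max_image S ρ hSne
      rw [hS, Finset.mem_filter] at hj
      obtain ⟨-, hja, hjb, hjc, hzj⟩ := hj
      have hzjm : z j = m j := (hzl j hja hjb hjc).resolve_left hzj
      have hzd : ∀ l, z l ≤ d := fun l => (hz l).trans (hm l)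
      have hfz : Rigid.Full d p z j := by
        refine full_mono (z' := rs (fun l => ρ l ≤ ρ j ∨ l = a ∨ l = b ∨ l = c) m)
          (fun l => (rs_le _ _ l).trans (hm l)) ?_ ?_ (hfull j hja hjb hjc (by omega))
        · intro l
          by_cases hl : ρ l ≤ ρ j ∨ l = a ∨ l = b ∨ l = c
          · rw [rs_of (W := fun l => ρ l ≤ ρ j ∨ l = a ∨ l = b ∨ l = c) hl]
            exact hz l
          · rw [rs_not (W := fun l => ρ l ≤ ρ j ∨ l = a ∨ l = b ∨ l = c) hl]
            push Not at hl
            by_contra h0
            have hlS : l ∈ S := by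
              rw [hS, Finset.mem_filter]
              exact ⟨Finset.mem_univ _, hl.2.1, hl.2.2.1, hl.2.2.2, by omega⟩
            have := hmax l hlS
            omega
        · rw [rs_of (W := fun l => ρ l ≤ ρ j ∨ l = a ∨ l = b ∨ l = c) (Or.inl le_rfl)]
          exact hzjm
      have hdrop := dvd_drop hE hzd hfz hπ hdiv
      refine ih (Function.update z j 0) ?_ ?_ ?_ ?_ ?_ ?_ hdrop
      · intro l
        by_cases hl : l = j
        · rw [hl, Function.update_self]; exact Nat.zero_le _
        · rw [Function.update_of_ne hl]; exact hz l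
      · rw [Function.update_of_ne hja.symm]; exact ha
      · rw [Function.update_of_ne hjb.symm]; exact hb
      · rw [Function.update_of_ne hjc.symm]; exact hc
      · intro l hla hlb hlc
        by_cases hl : l = j
        · left; rw [hl, Function.update_self]
        · rw [Function.update_of_ne hl]; exact hzl l hla hlb hlc
      · have h4 : Finset.univ.filter (fun l => l ≠ a ∧ l ≠ b ∧ l ≠ c ∧
            Function.update z j 0 l ≠ 0) = S.erase j := by
          ext l
          rw [hS, Finset.mem_erase, Finset.mem_filter, Finset.mem_filter]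
          by_cases hl : l = j
          · subst hl
            simp
          · rw [Function.update_of_ne hl]
            simp [hl]
        rw [h4, Finset.card_erase_of_mem, hcard]
        · rfl
        · rw [hS, Finset.mem_filter]
          exact ⟨Finset.mem_univ _, hja, hjb, hjc, hzj⟩
  exact key _ m (fun _ => le_rfl) rfl rfl rfl (fun _ _ _ _ => Or.inr rfl) rfl hdiv

end nc

namespace Rigid

variable {ι κ : Type} [Fintype ι] [Fintype κ] [DecidableEq ι] [DecidableEq κ]
variable {d : ℕ} {P : ι ⊕ κ → V3} {E : ι ⊕ κ → Fin 3 → Derivation ℚ ℂ ℂ} {m : ι → ℕ} {F : R3}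

/-- the rigid member of a system without common factor is reduced -/
theorem squarefree_of_no_common (S : Rigid d P E m F)
    (hnc : ∀ π : R3, Irreducible π → (∀ f ∈ linSys d (fun i => P (Sum.inl i)) m, π ∣ f) → False) :
    Squarefree F := by
  rw [squarefree_iff_irreducible_sq_not_dvd_of_ne_zero S.hF0]
  rintro π hπ ⟨g, hg⟩
  apply hnc π hπ
  intro f hf
  apply S.dvd_all ⟨π * g, by rw [hg, mul_assoc]⟩ _ hf
  intro k v
  rw [hg, cD_mul, cD_mul]
  refine ⟨(2 : R3) * cD (mv E (Sum.inr k) v) π * g + π * cD (mv E (Sum.inr k) v) g, ?_⟩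
  ring

end Rigid

end Pool.Agent.Work.MP_0421d9_ag
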