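import Pool.Agent.Work.MP_0421d9_ag.Nc4

/-!
Reducedness of the general member, from completeness of the series cut out on the exceptional
curves, or in a numerical range.
-/

set_option linter.unusedSectionVars false

namespace Pool.Agent.Work.MP_0421d9_ag

open MvPolynomial Module

/-- reducedness of the general member -/
theorem exists_squarefree {r d : ℕ} (p : Fin r → Fin 3 → ℂ) (hp : GenericPoints p) (m : Fin r → ℕ)
    {ρ : IT m → ℕ} {a b c : IT m} (hab : a ≠ b) (hac : a ≠ c) (hbc : b ≠ c)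
    (h1 : mm m a + mm m b ≤ d) (h2 : mm m a + mm m c ≤ d) (h3 : mm m b + mm m c ≤ d)
    (hHF : (∀ i, m i ≤ d) → ∀ (n : ℕ) (s : Fin n → V3) (t : Fin 4 → V3)
      (E : IT m ⊕ KT m n → Fin 3 → Derivation ℚ ℂ ℂ), IsDual (PP p s t m) E →
      ∀ j, j ≠ a → j ≠ b → j ≠ c → 1 ≤ mm m j →
        Rigid.Full d (fun i => PP p s t m (Sum.inl i))
          (rs (fun l => ρ l ≤ ρ j ∨ l = a ∨ l = b ∨ l = c) (mm m)) j)
    (hne : linSys d p m ≠ ⊥) : ∃ F ∈ linSys d p m, Squarefree F := by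
  have hfin : Module.Finite ℂ (linSys d p m) :=
    Submodule.finiteDimensional_of_le (linSys_le d p _)
  have hm : ∀ i, m i ≤ d := fun i => by
    obtain ⟨f, hf, hf0⟩ := Submodule.exists_mem_ne_zero_of_ne_bot hne
    exact le_of_vanishTo hf.1 hf0 (hf.2 i)
  obtain ⟨n, s, t, E, F, hn, hF, S⟩ := exists_rigid_member p hp m hm hne
  refine ⟨F, hF, S.squarefree_of_no_common ?_⟩
  intro π hπ hdiv
  have hE' : IsDual (fun i => PP p s t m (Sum.inl i)) (fun i => E (Sum.inl i)) := by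
    intro x k y l
    rw [S.hE (Sum.inl x) k (Sum.inl y) l]
    simp only [Sum.inl.injEq]
  have hmd : ∀ x, mm m x ≤ d := by
    rintro (⟨i, hi⟩ | x)
    · exact hm i
    · exact Nat.zero_le _
  exact no_common hE' hmd hab hac hbc h1 h2 h3 (hHF hm n s t E S.hE) hπ hdiv

section final

variable {r n d : ℕ} {p : Fin r → V3} {s : Fin n → V3} {t : Fin 4 → V3} {m : Fin r → ℕ}

/-- the sum over the kept indices -/
theorem sum_kept {k : Fin r} (hk : m k ≠ 1) (hk3 : 3 ≤ (k : ℕ)) {a b c : IT m}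
    (habc' : ∀ i : {i : Fin r // m i ≠ 1}, ((Sum.inl i : IT m) = a ∨
      (Sum.inl i : IT m) = b ∨ (Sum.inl i : IT m) = c) → (i.1 : ℕ) < 3) :
    ∑ l, (rs (fun l => rk m l ≤ rk m (Sum.inl ⟨k, hk⟩) ∨ l = a ∨ l = b ∨ l = c) (mm m) l + 1).choose 2 ≤
      ∑ j ∈ Finset.univ.filter (fun j : Fin r => (j : ℕ) ≤ k), (m j + 1).choose 2 := by
  classical
  set W : IT m → Prop := fun l => rk m l ≤ rk m (Sum.inl ⟨k, hk⟩) ∨ l = a ∨ l = b ∨ l = c with hW
  rw [Fintype.sum_sum_type]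
  have hzero : ∑ x : Fin 4, (rs W (mm m) (Sum.inr x) + 1).choose 2 = 0 := by
    refine Finset.sum_eq_zero (fun x _ => ?_)
    have : rs W (mm m) (Sum.inr x) = 0 := Nat.le_zero.mp (rs_le W (mm m) (Sum.inr x))
    rw [this]
    rfl
  rw [hzero, add_zero]
  have h1 : ∑ i : {i : Fin r // m i ≠ 1}, (rs W (mm m) (Sum.inl i) + 1).choose 2 ≤
      ∑ i : {i : Fin r // m i ≠ 1}, (if (i.1 : ℕ) ≤ k then (m i.1 + 1).choose 2 else 0) := by
    refine Finset.sum_le_sum (fun i _ => ?_)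
    by_cases hik : (i.1 : ℕ) ≤ k
    · rw [if_pos hik]
      exact Nat.choose_le_choose 2 (Nat.succ_le_succ (rs_le W _ _))
    · have hWi : ¬ W (Sum.inl i) := by
        rintro (h | h)
        · have h' : (i.1 : ℕ) ≤ k := h
          omega
        · have := habc' i h
          omega
      rw [rs_not hWi]
      exact Nat.zero_le _
  refine h1.trans ?_
  rw [Finset.sum_filter]
  have h4 := Fintype.sum_subtype_add_sum_subtype (fun i => m i ≠ 1)
    (fun i : Fin r => (if (i : ℕ) ≤ k then (m i + 1).choose 2 else 0))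
  omega

theorem full_kept_of_numeric {E : IT m ⊕ KT m n → Fin 3 → Derivation ℚ ℂ ℂ}
    (hE : IsDual (PP p s t m) E) (hm : ∀ i, m i ≤ d) (hanti : Antitone m)
    (hnum : ∀ i k : Fin r, 3 ≤ (k : ℕ) → 2 ≤ m k →
      ∑ j ∈ Finset.univ.filter (fun j : Fin r => (j : ℕ) ≤ k), (m j + 1).choose 2 + m i * m k < (d + 2).choose 2)
    {a b c : IT m}
    (habc : ∀ i : {i : Fin r // m i ≠ 1}, (i.1 : ℕ) < 3 → (Sum.inl i : IT m) = a ∨
      (Sum.inl i : IT m) = b ∨ (Sum.inl i : IT m) = c)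
    (habc' : ∀ i : {i : Fin r // m i ≠ 1}, ((Sum.inl i : IT m) = a ∨
      (Sum.inl i : IT m) = b ∨ (Sum.inl i : IT m) = c) → (i.1 : ℕ) < 3) :
    ∀ j, j ≠ a → j ≠ b → j ≠ c → 1 ≤ mm m j →
        Rigid.Full d (fun i => PP p s t m (Sum.inl i))
          (rs (fun l => rk m l ≤ rk m j ∨ l = a ∨ l = b ∨ l = c) (mm m)) j := by
  classical
  rintro (⟨k, hk⟩ | x) hja hjb hjc h1
  swap
  · change 1 ≤ 0 at h1
    omega
  have h1' : 1 ≤ m k := h1
  have h2 : 2 ≤ m k := by omega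
  have hk3 : 3 ≤ (k : ℕ) := by
    by_contra hcon
    rcases habc ⟨k, hk⟩ (show (k : ℕ) < 3 by omega) with h | h | h
    · exact hja h
    · exact hjb h
    · exact hjc h
  have hE' : IsDual (fun i => PP p s t m (Sum.inl i)) (fun i => E (Sum.inl i)) := by
    intro x k y l
    rw [hE (Sum.inl x) k (Sum.inl y) l]
    simp only [Sum.inl.injEq]
  set W : IT m → Prop := fun l => rk m l ≤ rk m (Sum.inl ⟨k, hk⟩) ∨ l = a ∨ l = b ∨ l = c with hW
  have hWk : W (Sum.inl ⟨k, hk⟩) := Or.inl le_rfl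
  have hyk : rs W (mm m) (Sum.inl ⟨k, hk⟩) = m k := rs_of hWk
  have hr : 0 < r := by have := k.2; omega
  have hle0 : ∀ i : Fin r, m i ≤ m ⟨0, hr⟩ := fun i => hanti (Fin.mk_le_of_le_val (Nat.zero_le _))
  have hmm : ∀ x, mm m x ≤ m ⟨0, hr⟩ := by
    rintro (⟨i, hi⟩ | x)
    · exact hle0 i
    · exact Nat.zero_le _
  have hmd : ∀ x, mm m x ≤ d := by
    rintro (⟨i, hi⟩ | x)
    · exact hm i
    · exact Nat.zero_le _
  apply full_of_numeric hE' (fun x => (rs_le W (mm m) x).trans (hmd x)) _ (M := m ⟨0, hr⟩)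
    (fun x => (rs_le W (mm m) x).trans (hmm x))
  rw [hyk]
  refine lt_of_le_of_lt ?_ (hnum ⟨0, hr⟩ k hk3 h2)
  exact Nat.add_le_add_right (sum_kept hk hk3 habc') _

end final

/-- **Numerical theorem**, without assumption of reducedness. -/
theorem main_numeric' {r d : ℕ} (p : Fin r → Fin 3 → ℂ) (hp : GenericPoints p) (m : Fin r → ℕ)
    (hanti : Antitone m)
    (hnum : ∀ i k : Fin r, 3 ≤ (k : ℕ) → 3 ≤ m k →
      ∑ j ∈ Finset.univ.filter (fun j : Fin r => (j : ℕ) ≤ k + 1), (m j + 1).choose 2 + m i * m k < (d + 2).choose 2)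
    (hnum2 : ∀ i k : Fin r, 3 ≤ (k : ℕ) → m k = 2 →
      ∑ j ∈ Finset.univ.filter (fun j : Fin r => (j : ℕ) ≤ k), (m j + 1).choose 2 + m i * m k < (d + 2).choose 2)
    (hpair : ∀ i j, i ≠ j → m i + m j ≤ d) (hne : linSys d p m ≠ ⊥) :
    ∃ F ∈ linSys d p m, Squarefree F := by
  obtain ⟨a, b, c, hab, hac, hbc, hex, habc, habc'⟩ := exists_three' m
    (Finset.univ.filter (fun i : Fin r => (i : ℕ) < 3)) (by
      have h1 : (Finset.univ.filter (fun i : Fin r => (i : ℕ) < 3)).card ≤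
          (Finset.range 3).card := by
        apply Finset.card_le_card_of_injOn (fun i : Fin r => (i : ℕ))
        · intro i hi
          simpa using hi
        · intro i _ j _ h
          exact Fin.ext h
      simpa using h1)
  simp only [Finset.mem_filter, Finset.mem_univ, true_and] at habc habc'
  obtain ⟨f, hf, hf0⟩ := Submodule.exists_mem_ne_zero_of_ne_bot hne
  have hmd : ∀ i, m i ≤ d := fun i => le_of_vanishTo hf.1 hf0 (hf.2 i)
  have hpair' : ∀ x y : IT m, x ≠ y → mm m x + mm m y ≤ d := by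
    rintro (⟨i, hi⟩ | x) (⟨j, hj⟩ | y) hxy
    · exact hpair i j (fun h => hxy (by subst h; rfl))
    · exact hmd i
    · change 0 + m j ≤ d
      rw [zero_add]
      exact hmd j
    · exact Nat.zero_le _
  refine exists_squarefree p hp m (ρ := rk m) hab hac hbc (hpair' a b hab) (hpair' a c hac)
    (hpair' b c hbc) (fun hm n s t E hE => full_kept_of_numeric hE hm hanti ?_ habc habc') hne
  intro i k hk h2
  by_cases h3 : 3 ≤ m k
  · refine lt_of_le_of_lt (Nat.add_le_add_right ?_ _) (hnum i k hk h3)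
    apply Finset.sum_le_sum_of_subset
    intro j hj
    rw [Finset.mem_filter] at hj ⊢
    exact ⟨hj.1, by omega⟩
  · exact hnum2 i k hk (by omega)

/-- **Completeness theorem**, reducedness. -/
theorem main_theorem' {r d : ℕ} (p : Fin r → Fin 3 → ℂ) (hp : GenericPoints p) (m : Fin r → ℕ)
    (I : Finset (Fin r)) (hI : I.card ≤ 3)
    (hcomplete : ∀ i ∉ I, 2 ≤ m i →
      finrank ℂ (linSys d p (dropSimple m)) =
        finrank ℂ (linSys d p (Function.update (dropSimple m) i (m i + 1))) + (m i + 1))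
    (hpair : ∀ i ∈ I, ∀ j ∈ I, i ≠ j → m i + m j ≤ d) (hne : linSys d p m ≠ ⊥) :
    ∃ F ∈ linSys d p m, Squarefree F := by
  obtain ⟨a, b, c, hab, hac, hbc, hex, habc, habc'⟩ := exists_three' m I hI
  obtain ⟨f, hf, hf0⟩ := Submodule.exists_mem_ne_zero_of_ne_bot hne
  have hmd : ∀ i, m i ≤ d := fun i => le_of_vanishTo hf.1 hf0 (hf.2 i)
  have hpair' : ∀ x y : IT m, (x = a ∨ x = b ∨ x = c) → (y = a ∨ y = b ∨ y = c) → x ≠ y →
      mm m x + mm m y ≤ d := by
    rintro (⟨i, hi⟩ | x) (⟨j, hj⟩ | y) hx hy hxy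
    · exact hpair i (habc' ⟨i, hi⟩ hx) j (habc' ⟨j, hj⟩ hy) (fun h => hxy (by subst h; rfl))
    · exact hmd i
    · change 0 + m j ≤ d
      rw [zero_add]
      exact hmd j
    · exact Nat.zero_le _
  refine exists_squarefree p hp m (ρ := fun _ => 0) hab hac hbc
    (hpair' a b (Or.inl rfl) (Or.inr (Or.inl rfl)) hab)
    (hpair' a c (Or.inl rfl) (Or.inr (Or.inr rfl)) hac)
    (hpair' b c (Or.inr (Or.inl rfl)) (Or.inr (Or.inr rfl)) hbc) ?_ hne
  intro hm n s t E hE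
  rintro (⟨i, hi⟩ | x) hja hjb hjc h1
  swap
  · change 1 ≤ 0 at h1
    omega
  have h1' : 1 ≤ m i := h1
  have hiI : i ∉ I := by
    intro h
    rcases habc ⟨i, hi⟩ h with h' | h' | h'
    · exact hja h'
    · exact hjb h'
    · exact hjc h'
  have hmd' : ∀ x, mm m x ≤ d := by
    rintro (⟨i, hi⟩ | x)
    · exact hm i
    · exact Nat.zero_le _
  have hfull : Rigid.Full d (fun i => PP p s t m (Sum.inl i)) (mm m) (Sum.inl ⟨i, hi⟩) := by
    apply full_of_finrank hmd' (gp1 hE (Sum.inl (Sum.inl ⟨i, hi⟩)))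
    rw [linSys_core, linSys_core_update]
    exact hcomplete i hiI (by omega)
  exact full_mono hmd' (fun l => rs_le _ _ l) (rs_of (Or.inl le_rfl)) hfull

end Pool.Agent.Work.MP_0421d9_ag
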