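import Pool.Agent.Work.MP_0421d9_ag.Nc5

/-!
Both halves of the question, without assumption of reducedness: systems with bounded
multiplicities, homogeneous systems, and a numerical range.
-/

set_option linter.unusedSectionVars false

namespace Pool.Agent.Work.MP_0421d9_ag

open MvPolynomial Module

theorem dropSimple_le {ι : Type} (m : ι → ℕ) (i : ι) : dropSimple m i ≤ m i := by
  unfold dropSimple
  split_ifs <;> omega

theorem dropSimple_of_ne {ι : Type} {m : ι → ℕ} {i : ι} (h : m i ≠ 1) : dropSimple m i = m i :=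
  if_neg h

theorem dropSimple_of_eq {ι : Type} {m : ι → ℕ} {i : ι} (h : m i = 1) : dropSimple m i = 0 :=
  if_pos h

/-- completeness everywhere gives both halves of the question -/
theorem main_complete {r d : ℕ} (p : Fin r → Fin 3 → ℂ) (hp : GenericPoints p) (m : Fin r → ℕ)
    (hcomplete : ∀ i, 2 ≤ m i → cc d p (dropSimple m) i = m i + 1)
    (hne : linSys d p m ≠ ⊥) :
    (∃ F ∈ linSys d p m, Squarefree F) ∧
    finrank ℂ (linSys d p m) + ∑ i, (m i + 1).choose 2 = (d + 2).choose 2 ∧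
    (∀ s : Fin (finrank ℂ (linSys d p m) - 1) → Fin 3 → ℂ, GenericPoints (Sum.elim p s) →
      ∀ F ∈ linSys d p m, F ≠ 0 → (∀ k, eval (s k) F = 0) → SmoothOnBlowup p m F) ∧
    (∃ F ∈ linSys d p m, F ≠ 0 ∧ SmoothOnBlowup p m F) := by
  have hc : ∀ i, 2 ≤ m i → finrank ℂ (linSys d p (dropSimple m)) =
      finrank ℂ (linSys d p (Function.update (dropSimple m) i (m i + 1))) + (m i + 1) := by
    intro i hi
    have h1 := cc_add (d := d) (p := p) (dropSimple m) i
    rw [hcomplete i hi] at h1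
    unfold up at h1
    rwa [dropSimple_of_ne (by omega : m i ≠ 1)] at h1
  have hred := main_theorem' p hp m ∅ (by simp) (fun i _ hi => hc i hi)
    (fun i hi => absurd hi (Finset.notMem_empty i)) hne
  exact ⟨hred, main_theorem p hp m ∅ (by simp) (fun i _ hi => hc i (by omega)) hred⟩

/-- **Bounded multiplicities**: both halves of the question. -/
theorem main_bounded {r d M : ℕ} (p : Fin r → Fin 3 → ℂ) (hp : GenericPoints p) (m : Fin r → ℕ)
    (hM : ∀ i, m i ≤ M)
    (hnum : ∑ i, (dropSimple m i + 1).choose 2 + M * M < (d + 2).choose 2)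
    (hne : linSys d p m ≠ ⊥) :
    (∃ F ∈ linSys d p m, Squarefree F) ∧
    finrank ℂ (linSys d p m) + ∑ i, (m i + 1).choose 2 = (d + 2).choose 2 ∧
    (∀ s : Fin (finrank ℂ (linSys d p m) - 1) → Fin 3 → ℂ, GenericPoints (Sum.elim p s) →
      ∀ F ∈ linSys d p m, F ≠ 0 → (∀ k, eval (s k) F = 0) → SmoothOnBlowup p m F) ∧
    (∃ F ∈ linSys d p m, F ≠ 0 ∧ SmoothOnBlowup p m F) := by
  obtain ⟨f, hf, hf0⟩ := Submodule.exists_mem_ne_zero_of_ne_bot hne
  have hmd : ∀ i, m i ≤ d := fun i => le_of_vanishTo hf.1 hf0 (hf.2 i)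
  obtain ⟨E, hE⟩ := exists_dual p hp
  have hy : ∀ i, dropSimple m i ≤ d := fun i => (dropSimple_le m i).trans (hmd i)
  have hyM : ∀ i, dropSimple m i ≤ M := fun i => (dropSimple_le m i).trans (hM i)
  apply main_complete p hp m _ hne
  intro i hi
  have h1 := chi_le (d := d) (p := p) (fun i => (hy i).trans (Nat.le_succ d))
  have h4 : dropSimple m i = m i := dropSimple_of_ne (by omega)
  have h2 : dropSimple m i < cc d p (dropSimple m) i := by
    by_contra hcon
    have h3 := (finrank_le_of_incomplete hE (not_lt.mp hcon) (M := M) (fun j _ => hyM j)).1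
    have h5 : dropSimple m i * M ≤ M * M := Nat.mul_le_mul_right M (hyM i)
    omega
  have h3 := cc_le hE hy i
  omega

/-- removing points of multiplicity zero -/
theorem linSys_subtype {r d : ℕ} (p : Fin r → V3) (T : Finset (Fin r)) {y : Fin r → ℕ}
    (hy : ∀ i ∉ T, y i = 0) :
    linSys d p y = linSys d (fun i : {i // i ∈ T} => p i) (fun i => y i) := by
  ext F
  constructor
  · rintro ⟨h1, h2⟩
    exact ⟨h1, fun i => h2 i.1⟩
  · rintro ⟨h1, h2⟩
    refine ⟨h1, fun i => ?_⟩
    by_cases hi : i ∈ T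
    · exact h2 ⟨i, hi⟩
    · rw [hy i hi]
      exact vanishTo_zero _ _

theorem generic_subtype {r : ℕ} {p : Fin r → V3} (hp : GenericPoints p) (T : Finset (Fin r)) :
    GenericPoints (fun i : {i // i ∈ T} => p i) := by
  have h2 : Function.Injective (fun z : {i // i ∈ T} × Fin 3 => ((z.1 : Fin r), z.2)) := by
    rintro ⟨⟨x, hx⟩, k⟩ ⟨⟨y, hy⟩, l⟩ h
    simp only [Prod.mk.injEq] at h
    obtain ⟨rfl, rfl⟩ := h
    rfl
  have h3 : AlgebraicIndependent ℚ ((fun z : Fin r × Fin 3 => p z.1 z.2) ∘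
      (fun z : {i // i ∈ T} × Fin 3 => ((z.1 : Fin r), z.2))) :=
    AlgebraicIndependent.comp hp _ h2
  exact h3

theorem cc_subtype {r d : ℕ} {p : Fin r → V3} {T : Finset (Fin r)} {y : Fin r → ℕ}
    (hy : ∀ i ∉ T, y i = 0) (i : {i // i ∈ T}) :
    cc d p y i.1 = cc d (fun i : {i // i ∈ T} => p i) (fun i => y i) i := by
  have e2 : linSys d p (up y i.1) =
      linSys d (fun i : {i // i ∈ T} => p i) (up (fun i => y i) i) := by
    rw [linSys_subtype p T (fun j hj => by
      rw [up_ne _ (fun h => hj (by rw [h]; exact i.2))]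
      exact hy j hj)]
    congr 1
    funext j
    by_cases hj : j = i
    · subst hj
      rw [up_self, up_self]
    · rw [up_ne _ hj, up_ne _ (fun h => hj (Subtype.ext h))]
  unfold cc
  rw [linSys_subtype p T hy, e2]

theorem cc_uniform {r d μ : ℕ} {p : Fin r → V3} (hp : GenericPoints p) {T : Finset (Fin r)}
    (hT : 2 ≤ T.card) (hμd : μ ≤ d)
    (hnum : T.card * (μ + 1).choose 2 + uniformBound T.card (μ + 1) < (d + 2).choose 2)
    (i : {i // i ∈ T}) : cc d (fun i : {i // i ∈ T} => p i) (fun _ => μ) i = μ + 1 := by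
  have hp' := generic_subtype hp T
  obtain ⟨E, hE⟩ := exists_dual (fun i : {i // i ∈ T} => p i) hp'
  obtain ⟨q, hq⟩ : ∃ q, T.card = q + 1 := ⟨T.card - 1, by omega⟩
  have hcard : Fintype.card {i // i ∈ T} = q + 1 := by
    rw [Fintype.card_coe, hq]
  rw [hq, uniformBound_eq (by omega)] at hnum
  have h2 := cc_le hE (y := fun _ => μ) (fun _ => hμd) i
  have h3 := chi_le (d := d) (p := fun i : {i // i ∈ T} => p i) (m := fun _ => μ)
    (fun _ => hμd.trans (Nat.le_succ d))
  rw [Finset.sum_const, Finset.card_univ, hcard, smul_eq_mul] at h3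
  by_contra hcon
  have h5 : cc d (fun i : {i // i ∈ T} => p i) (fun _ => μ) i ≤ μ := by
    have h2' : cc d (fun i : {i // i ∈ T} => p i) (fun _ => μ) i ≤ μ + 1 := h2
    omega
  have h6 := unif_incomplete hp' hE (by omega) hcard h5 le_rfl
  have h7 : μ + 1 - 1 - q = μ - q := by omega
  rw [h7] at hnum
  omega

/-- **Homogeneous systems**, with any number of additional simple points. -/
theorem main_uniform {n d μ : ℕ} (p : Fin n → Fin 3 → ℂ) (hp : GenericPoints p) (m : Fin n → ℕ)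
    (T : Finset (Fin n)) (hT : 2 ≤ T.card) (hμ : ∀ i ∈ T, m i = μ) (h1 : ∀ i ∉ T, m i = 1)
    (hnum : T.card * (μ + 1).choose 2 + uniformBound T.card (μ + 1) < (d + 2).choose 2)
    (hne : linSys d p m ≠ ⊥) :
    (∃ F ∈ linSys d p m, Squarefree F) ∧
    finrank ℂ (linSys d p m) + ∑ i, (m i + 1).choose 2 = (d + 2).choose 2 ∧
    (∀ s : Fin (finrank ℂ (linSys d p m) - 1) → Fin 3 → ℂ, GenericPoints (Sum.elim p s) →
      ∀ F ∈ linSys d p m, F ≠ 0 → (∀ k, eval (s k) F = 0) → SmoothOnBlowup p m F) ∧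
    (∃ F ∈ linSys d p m, F ≠ 0 ∧ SmoothOnBlowup p m F) := by
  obtain ⟨f, hf, hf0⟩ := Submodule.exists_mem_ne_zero_of_ne_bot hne
  have hmd : ∀ i, m i ≤ d := fun i => le_of_vanishTo hf.1 hf0 (hf.2 i)
  apply main_complete p hp m _ hne
  intro i hi
  have hiT : i ∈ T := by
    by_contra h
    have := h1 i h
    omega
  have hμ1 : μ ≠ 1 := by
    have := hμ i hiT
    omega
  have hμd : μ ≤ d := by
    have := hμ i hiT
    have := hmd i
    omega
  have h2 := cc_subtype (d := d) (p := p) (T := T) (y := dropSimple m)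
    (fun j hj => dropSimple_of_eq (h1 j hj)) ⟨i, hiT⟩
  have h3 : (fun j : {i // i ∈ T} => dropSimple m j) = fun _ => μ := by
    funext j
    rw [dropSimple_of_ne (by rw [hμ j.1 j.2]; exact hμ1), hμ j.1 j.2]
  rw [h3, cc_uniform hp hT hμd hnum ⟨i, hiT⟩] at h2
  rw [hμ i hiT]
  exact h2

end Pool.Agent.Work.MP_0421d9_ag
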