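import Pool.Agent.Work.MP_0421d9_ag.Nc6

/-!
The numerical range, in terms of the multiplicities different from one.
-/

set_option linter.unusedSectionVars false

namespace Pool.Agent.Work.MP_0421d9_ag

open MvPolynomial Module

/-- criterion for completeness: the system is large -/
theorem full_of_big {ι : Type} [Fintype ι] [DecidableEq ι] {d : ℕ} {p : ι → V3}
    {E : ι → Fin 3 → Derivation ℚ ℂ ℂ} (hE : IsDual p E) {y : ι → ℕ} (hy : ∀ i, y i ≤ d) (i : ι)
    {M : ℕ} (hM : ∀ j, y j ≤ M) (hbig : M * y i < finrank ℂ (linSys d p y)) :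
    Rigid.Full d p y i := by
  have h2 : y i < cc d p y i := by
    by_contra hcon
    have h3 := (finrank_le_of_incomplete hE (not_lt.mp hcon) (M := M) (fun j _ => hM j)).1
    rw [mul_comm] at h3
    omega
  have h3 := cc_le hE hy i
  apply full_of_finrank hy (gp1 hE i)
  have h4 := cc_add (d := d) (p := p) y i
  change finrank ℂ (linSys d p y) = finrank ℂ (linSys d p (up y i)) + (y i + 1)
  omega

theorem finrank_rs_ge {ι : Type} [Fintype ι] [DecidableEq ι] {d : ℕ} {p : ι → V3} (W : ι → Prop) (y : ι → ℕ) :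
    finrank ℂ (linSys d p y) ≤ finrank ℂ (linSys d p (rs W y)) := by
  have hfin : Module.Finite ℂ (linSys d p (rs W y)) :=
    Submodule.finiteDimensional_of_le (linSys_le d p _)
  exact Submodule.finrank_mono (linSys_mono (rs_le W y))

section final

variable {r n d : ℕ} {p : Fin r → V3} {s : Fin n → V3} {t : Fin 4 → V3} {m : Fin r → ℕ}

/-- the number of conditions imposed by the non-simple points among the first `k + 1` -/
def coreSum (m : Fin r → ℕ) (k : ℕ) : ℕ :=
  ∑ j ∈ Finset.univ.filter (fun j : Fin r => (j : ℕ) ≤ k ∧ m j ≠ 1), (m j + 1).choose 2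

theorem coreSum_eq (m : Fin r → ℕ) (k : ℕ) : coreSum m k =
    ∑ i : {i : Fin r // m i ≠ 1}, (if (i.1 : ℕ) ≤ k then (m i.1 + 1).choose 2 else 0) := by
  classical
  unfold coreSum
  rw [Finset.sum_filter]
  have h4 := Fintype.sum_subtype_add_sum_subtype (fun i => m i ≠ 1)
    (fun i : Fin r => (if (i : ℕ) ≤ k ∧ m i ≠ 1 then (m i + 1).choose 2 else 0))
  rw [← h4]
  have h5 : ∑ i : {i : Fin r // ¬ m i ≠ 1},
      (if (i.1 : ℕ) ≤ k ∧ m i.1 ≠ 1 then (m i.1 + 1).choose 2 else 0) = 0 :=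
    Finset.sum_eq_zero (fun i _ => if_neg (fun h => i.2 h.2))
  rw [h5, add_zero]
  refine Finset.sum_congr rfl (fun i _ => ?_)
  by_cases hik : (i.1 : ℕ) ≤ k
  · rw [if_pos ⟨hik, i.2⟩, if_pos hik]
  · rw [if_neg (fun h => hik h.1), if_neg hik]

theorem coreSum_mono (m : Fin r → ℕ) {k k' : ℕ} (h : k ≤ k') : coreSum m k ≤ coreSum m k' := by
  unfold coreSum
  apply Finset.sum_le_sum_of_subset
  intro j hj
  rw [Finset.mem_filter] at hj ⊢
  exact ⟨hj.1, by omega, hj.2.2⟩

theorem HF_of_numeric' {E : IT m ⊕ KT m n → Fin 3 → Derivation ℚ ℂ ℂ}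
    (hE : IsDual (PP p s t m) E) (hm : ∀ i, m i ≤ d) (hanti : Antitone m)
    (hnum : ∀ i k : Fin r, 3 ≤ (k : ℕ) → 3 ≤ m k →
      coreSum m (k + 1) + m i * m k < (d + 2).choose 2 ∨
      m i * m k < finrank ℂ (linSys d p (dropSimple m)))
    {a b c : IT m}
    (habc : ∀ i : {i : Fin r // m i ≠ 1}, (i.1 : ℕ) < 3 → (Sum.inl i : IT m) = a ∨
      (Sum.inl i : IT m) = b ∨ (Sum.inl i : IT m) = c)
    (habc' : ∀ i : {i : Fin r // m i ≠ 1}, ((Sum.inl i : IT m) = a ∨
      (Sum.inl i : IT m) = b ∨ (Sum.inl i : IT m) = c) → (i.1 : ℕ) < 3) :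
    Rigid.HF d (fun i => PP p s t m (Sum.inl i)) (mm m) (rk m) a b c := by
  classical
  rintro (⟨k, hk⟩ | x) hja hjb hjc h3 e
  swap
  · change 3 ≤ 0 at h3
    omega
  have h3' : 3 ≤ m k := h3
  have hk3 : 3 ≤ (k : ℕ) := by
    by_contra hcon
    rcases habc ⟨k, hk⟩ (show (k : ℕ) < 3 by omega) with h | h | h
    · exact hja h
    · exact hjb h
    · exact hjc h
  have hE' : IsDual (fun i => PP p s t m (Sum.inl i)) (fun i => E (Sum.inl i)) := by
    intro x k y l
    rw [hE (Sum.inl x) k (Sum.inl y) l]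
    simp only [Sum.inl.injEq]
  set W := KW (rk m) a b c (rk m (Sum.inl ⟨k, hk⟩)) e with hW
  have hWk : W (Sum.inl ⟨k, hk⟩) := Or.inl le_rfl
  have hyk : rs W (mm m) (Sum.inl ⟨k, hk⟩) = m k := rs_of hWk
  have hr : 0 < r := by have := k.2; omega
  have hle0 : ∀ i : Fin r, m i ≤ m ⟨0, hr⟩ := fun i => hanti (Fin.mk_le_of_le_val (Nat.zero_le _))
  have hmm : ∀ x, mm m x ≤ m ⟨0, hr⟩ := by
    rintro (⟨i, hi⟩ | x)
    · exact hle0 i
    · exact Nat.zero_le _
  have hmd : ∀ x, mm m x ≤ d := by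
    rintro (⟨i, hi⟩ | x)
    · exact hm i
    · exact Nat.zero_le _
  rcases hnum ⟨0, hr⟩ k hk3 h3' with hnum | hbig
  swap
  · apply full_of_big hE' (fun x => (rs_le W (mm m) x).trans (hmd x)) _ (M := m ⟨0, hr⟩)
      (fun x => (rs_le W (mm m) x).trans (hmm x))
    rw [hyk]
    refine lt_of_lt_of_le hbig ?_
    rw [← linSys_core (s := s) (t := t)]
    exact finrank_rs_ge W (mm m)
  apply full_of_numeric hE' (fun x => (rs_le W (mm m) x).trans (hmd x)) _ (M := m ⟨0, hr⟩)
    (fun x => (rs_le W (mm m) x).trans (hmm x))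
  rw [hyk]
  refine lt_of_le_of_lt ?_ hnum
  apply Nat.add_le_add_right
  -- the sum over the kept indices
  rw [Fintype.sum_sum_type]
  have hzero : ∑ x : Fin 4, (rs W (mm m) (Sum.inr x) + 1).choose 2 = 0 := by
    refine Finset.sum_eq_zero (fun x _ => ?_)
    have : rs W (mm m) (Sum.inr x) = 0 := Nat.le_zero.mp (rs_le W (mm m) (Sum.inr x))
    rw [this]
    rfl
  rw [hzero, add_zero]
  -- kept indices of large rank
  have hkept : ∀ i : {i : Fin r // m i ≠ 1}, (k : ℕ) < i.1 → W (Sum.inl i) → e = Sum.inl i := by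
    intro i hi hWi
    rcases hWi with h | h | h | h | h
    · have h' : (i.1 : ℕ) ≤ k := h
      omega
    · have := habc' i (Or.inl h); omega
    · have := habc' i (Or.inr (Or.inl h)); omega
    · have := habc' i (Or.inr (Or.inr h)); omega
    · exact h.symm
  have hf : ∀ i : {i : Fin r // m i ≠ 1}, (rs W (mm m) (Sum.inl i) + 1).choose 2 ≤
      (m i.1 + 1).choose 2 := fun i => Nat.choose_le_choose 2 (Nat.succ_le_succ (rs_le W _ _))
  rw [coreSum_eq]
  by_cases he : ∃ l : {i : Fin r // m i ≠ 1}, e = Sum.inl l ∧ (k : ℕ) < l.1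
  · obtain ⟨l, hel, hkl⟩ := he
    have hk1 : (k : ℕ) + 1 < r := by have := l.1.2; omega
    set k' : Fin r := ⟨k + 1, hk1⟩ with hk'
    have hml : m l.1 ≤ m k' := hanti (by
      rw [Fin.le_def]
      exact hkl)
    have h1 : ∑ i : {i : Fin r // m i ≠ 1}, (rs W (mm m) (Sum.inl i) + 1).choose 2 ≤
        ∑ i : {i : Fin r // m i ≠ 1}, ((if (i.1 : ℕ) ≤ k then (m i.1 + 1).choose 2 else 0) +
          (if i = l then (m l.1 + 1).choose 2 else 0)) := by
      refine Finset.sum_le_sum (fun i _ => ?_)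
      by_cases hik : (i.1 : ℕ) ≤ k
      · rw [if_pos hik]
        exact (hf i).trans (Nat.le_add_right _ _)
      · rw [if_neg hik, zero_add]
        by_cases hWi : W (Sum.inl i)
        · have h2 := hkept i (by omega) hWi
          rw [hel] at h2
          have h3 : i = l := (Sum.inl_injective h2).symm
          rw [if_pos h3, ← h3]
          exact hf i
        · rw [rs_not hWi]
          exact Nat.zero_le _
    refine h1.trans ?_
    rw [Finset.sum_add_distrib, Finset.sum_ite_eq' Finset.univ l, if_pos (Finset.mem_univ _)]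
    by_cases hml1 : m k' = 1
    · -- then `m l = 0`
      have h0 : m l.1 = 0 := by
        have := l.2
        omega
      rw [h0]
      have h2 : (0 + 1).choose 2 = 0 := rfl
      rw [h2, add_zero]
      refine Finset.sum_le_sum (fun i _ => ?_)
      by_cases hik : (i.1 : ℕ) ≤ k
      · rw [if_pos hik, if_pos (by omega)]
      · rw [if_neg hik]
        exact Nat.zero_le _
    · have h3 : ∀ i : {i : Fin r // m i ≠ 1},
          (if (i.1 : ℕ) ≤ k + 1 then (m i.1 + 1).choose 2 else 0) =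
          (if (i.1 : ℕ) ≤ k then (m i.1 + 1).choose 2 else 0) +
            (if i = ⟨k', hml1⟩ then (m k' + 1).choose 2 else 0) := by
        intro i
        by_cases h6 : i = ⟨k', hml1⟩
        · subst h6
          have h7 : ((k' : Fin r) : ℕ) = k + 1 := rfl
          rw [if_pos (show (k' : ℕ) ≤ k + 1 by omega), if_neg (show ¬ (k' : ℕ) ≤ k by omega),
            if_pos rfl, zero_add]
        · rw [if_neg h6, add_zero]
          have h7 : (i.1 : ℕ) ≠ k + 1 := fun h => h6 (Subtype.ext (Fin.ext h))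
          by_cases h8 : (i.1 : ℕ) ≤ k
          · rw [if_pos h8, if_pos (by omega)]
          · rw [if_neg h8, if_neg (by omega)]
      rw [Finset.sum_congr rfl (fun i _ => h3 i), Finset.sum_add_distrib,
        Finset.sum_ite_eq' Finset.univ (⟨k', hml1⟩ : {i : Fin r // m i ≠ 1}),
        if_pos (Finset.mem_univ _)]
      exact Nat.add_le_add_left (Nat.choose_le_choose 2 (Nat.succ_le_succ hml)) _
  · push Not at he
    refine Finset.sum_le_sum (fun i _ => ?_)
    by_cases hik : (i.1 : ℕ) ≤ k + 1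
    · rw [if_pos hik]
      exact hf i
    · have hWi : ¬ W (Sum.inl i) := fun h => by
        have h2 := he i (hkept i (by omega) h)
        omega
      rw [rs_not hWi]
      exact Nat.zero_le _

/-- the sum over the kept indices -/
theorem sum_kept' {k : Fin r} (hk : m k ≠ 1) {a b c : IT m} (hk3 : 3 ≤ (k : ℕ))
    (habc' : ∀ i : {i : Fin r // m i ≠ 1}, ((Sum.inl i : IT m) = a ∨
      (Sum.inl i : IT m) = b ∨ (Sum.inl i : IT m) = c) → (i.1 : ℕ) < 3) :
    ∑ l, (rs (fun l => rk m l ≤ rk m (Sum.inl ⟨k, hk⟩) ∨ l = a ∨ l = b ∨ l = c) (mm m) l + 1).choose 2 ≤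
      coreSum m k := by
  classical
  set W : IT m → Prop := fun l => rk m l ≤ rk m (Sum.inl ⟨k, hk⟩) ∨ l = a ∨ l = b ∨ l = c with hW
  rw [Fintype.sum_sum_type, coreSum_eq]
  have hzero : ∑ x : Fin 4, (rs W (mm m) (Sum.inr x) + 1).choose 2 = 0 := by
    refine Finset.sum_eq_zero (fun x _ => ?_)
    have : rs W (mm m) (Sum.inr x) = 0 := Nat.le_zero.mp (rs_le W (mm m) (Sum.inr x))
    rw [this]
    rfl
  rw [hzero, add_zero]
  refine Finset.sum_le_sum (fun i _ => ?_)
  by_cases hik : (i.1 : ℕ) ≤ k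
  · rw [if_pos hik]
    exact Nat.choose_le_choose 2 (Nat.succ_le_succ (rs_le W _ _))
  · have hWi : ¬ W (Sum.inl i) := by
      rintro (h | h)
      · have h' : (i.1 : ℕ) ≤ k := h
        omega
      · have := habc' i h
        omega
    rw [rs_not hWi]
    exact Nat.zero_le _

theorem full_kept_of_numeric' {E : IT m ⊕ KT m n → Fin 3 → Derivation ℚ ℂ ℂ}
    (hE : IsDual (PP p s t m) E) (hm : ∀ i, m i ≤ d) (hanti : Antitone m)
    (hnum : ∀ i k : Fin r, 3 ≤ (k : ℕ) → 2 ≤ m k →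
      coreSum m k + m i * m k < (d + 2).choose 2 ∨
      m i * m k < finrank ℂ (linSys d p (dropSimple m)))
    {a b c : IT m}
    (habc : ∀ i : {i : Fin r // m i ≠ 1}, (i.1 : ℕ) < 3 → (Sum.inl i : IT m) = a ∨
      (Sum.inl i : IT m) = b ∨ (Sum.inl i : IT m) = c)
    (habc' : ∀ i : {i : Fin r // m i ≠ 1}, ((Sum.inl i : IT m) = a ∨
      (Sum.inl i : IT m) = b ∨ (Sum.inl i : IT m) = c) → (i.1 : ℕ) < 3) :
    ∀ j, j ≠ a → j ≠ b → j ≠ c → 1 ≤ mm m j →
        Rigid.Full d (fun i => PP p s t m (Sum.inl i))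
          (rs (fun l => rk m l ≤ rk m j ∨ l = a ∨ l = b ∨ l = c) (mm m)) j := by
  classical
  rintro (⟨k, hk⟩ | x) hja hjb hjc h1
  swap
  · change 1 ≤ 0 at h1
    omega
  have h1' : 1 ≤ m k := h1
  have h2 : 2 ≤ m k := by omega
  have hk3 : 3 ≤ (k : ℕ) := by
    by_contra hcon
    rcases habc ⟨k, hk⟩ (show (k : ℕ) < 3 by omega) with h | h | h
    · exact hja h
    · exact hjb h
    · exact hjc h
  have hE' : IsDual (fun i => PP p s t m (Sum.inl i)) (fun i => E (Sum.inl i)) := by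
    intro x k y l
    rw [hE (Sum.inl x) k (Sum.inl y) l]
    simp only [Sum.inl.injEq]
  set W : IT m → Prop := fun l => rk m l ≤ rk m (Sum.inl ⟨k, hk⟩) ∨ l = a ∨ l = b ∨ l = c with hW
  have hWk : W (Sum.inl ⟨k, hk⟩) := Or.inl le_rfl
  have hyk : rs W (mm m) (Sum.inl ⟨k, hk⟩) = m k := rs_of hWk
  have hr : 0 < r := by have := k.2; omega
  have hle0 : ∀ i : Fin r, m i ≤ m ⟨0, hr⟩ := fun i => hanti (Fin.mk_le_of_le_val (Nat.zero_le _))
  have hmm : ∀ x, mm m x ≤ m ⟨0, hr⟩ := by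
    rintro (⟨i, hi⟩ | x)
    · exact hle0 i
    · exact Nat.zero_le _
  have hmd : ∀ x, mm m x ≤ d := by
    rintro (⟨i, hi⟩ | x)
    · exact hm i
    · exact Nat.zero_le _
  rcases hnum ⟨0, hr⟩ k hk3 h2 with hnum | hbig
  swap
  · apply full_of_big hE' (fun x => (rs_le W (mm m) x).trans (hmd x)) _ (M := m ⟨0, hr⟩)
      (fun x => (rs_le W (mm m) x).trans (hmm x))
    rw [hyk]
    refine lt_of_lt_of_le hbig ?_
    rw [← linSys_core (s := s) (t := t)]
    exact finrank_rs_ge W (mm m)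
  apply full_of_numeric hE' (fun x => (rs_le W (mm m) x).trans (hmd x)) _ (M := m ⟨0, hr⟩)
    (fun x => (rs_le W (mm m) x).trans (hmm x))
  rw [hyk]
  refine lt_of_le_of_lt ?_ hnum
  exact Nat.add_le_add_right (sum_kept' hk hk3 habc') _

end final

/-- **Numerical range**, final form. -/
theorem numeric_final {r d : ℕ} (p : Fin r → Fin 3 → ℂ) (hp : GenericPoints p) (m : Fin r → ℕ)
    (hanti : Antitone m)
    (hnum : ∀ i k : Fin r, 3 ≤ (k : ℕ) → 3 ≤ m k →
      coreSum m (k + 1) + m i * m k < (d + 2).choose 2 ∨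
      m i * m k < finrank ℂ (linSys d p (dropSimple m)))
    (h : (∃ F ∈ linSys d p m, Squarefree F) ∨
      (linSys d p m ≠ ⊥ ∧ (∀ i j, i ≠ j → m i + m j ≤ d) ∧
        ∀ i k : Fin r, 3 ≤ (k : ℕ) → m k = 2 → coreSum m k + m i * m k < (d + 2).choose 2 ∨
          m i * m k < finrank ℂ (linSys d p (dropSimple m)))) :
    (∃ F ∈ linSys d p m, Squarefree F) ∧
    finrank ℂ (linSys d p m) + ∑ i, (m i + 1).choose 2 = (d + 2).choose 2 ∧
    (∀ s : Fin (finrank ℂ (linSys d p m) - 1) → Fin 3 → ℂ, GenericPoints (Sum.elim p s) →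
      ∀ F ∈ linSys d p m, F ≠ 0 → (∀ k, eval (s k) F = 0) → SmoothOnBlowup p m F) ∧
    (∃ F ∈ linSys d p m, F ≠ 0 ∧ SmoothOnBlowup p m F) := by
  obtain ⟨a, b, c, hab, hac, hbc, hex, habc, habc'⟩ := exists_three' m
    (Finset.univ.filter (fun i : Fin r => (i : ℕ) < 3)) (by
      have h1 : (Finset.univ.filter (fun i : Fin r => (i : ℕ) < 3)).card ≤
          (Finset.range 3).card := by
        apply Finset.card_le_card_of_injOn (fun i : Fin r => (i : ℕ))
        · intro i hi
          simpa using hi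
        · intro i _ j _ h
          exact Fin.ext h
      simpa using h1)
  simp only [Finset.mem_filter, Finset.mem_univ, true_and] at habc habc'
  have hred : ∃ F ∈ linSys d p m, Squarefree F := by
    rcases h with h | ⟨hne, hpair, hnum2⟩
    · exact h
    obtain ⟨f, hf, hf0⟩ := Submodule.exists_mem_ne_zero_of_ne_bot hne
    have hmd : ∀ i, m i ≤ d := fun i => le_of_vanishTo hf.1 hf0 (hf.2 i)
    have hpair' : ∀ x y : IT m, x ≠ y → mm m x + mm m y ≤ d := by
      rintro (⟨i, hi⟩ | x) (⟨j, hj⟩ | y) hxy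
      · exact hpair i j (fun h => hxy (by subst h; rfl))
      · exact hmd i
      · change 0 + m j ≤ d
        rw [zero_add]
        exact hmd j
      · exact Nat.zero_le _
    refine exists_squarefree p hp m (ρ := rk m) hab hac hbc (hpair' a b hab) (hpair' a c hac)
      (hpair' b c hbc) (fun hm n s t E hE => full_kept_of_numeric' hE hm hanti ?_ habc habc') hne
    intro i k hk h2
    by_cases h3 : 3 ≤ m k
    · rcases hnum i k hk h3 with h | h
      · exact Or.inl (lt_of_le_of_lt (Nat.add_le_add_right (coreSum_mono m (Nat.le_succ _)) _) h)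
      · exact Or.inr h
    · exact hnum2 i k hk (by omega)
  exact ⟨hred, main_rec p hp m hab hac hbc hex
    (fun hm n s t E hE => HF_of_numeric' hE hm hanti hnum habc habc') hred⟩

/-- **Completeness theorem**, final form. -/
theorem complete_final {r d : ℕ} (p : Fin r → Fin 3 → ℂ) (hp : GenericPoints p) (m : Fin r → ℕ)
    (I : Finset (Fin r)) (hI : I.card ≤ 3)
    (hcomplete : ∀ i ∉ I, 3 ≤ m i →
      finrank ℂ (linSys d p (dropSimple m)) =
        finrank ℂ (linSys d p (Function.update (dropSimple m) i (m i + 1))) + (m i + 1))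
    (h : (∃ F ∈ linSys d p m, Squarefree F) ∨
      (linSys d p m ≠ ⊥ ∧ (∀ i ∈ I, ∀ j ∈ I, i ≠ j → m i + m j ≤ d) ∧
        ∀ i ∉ I, m i = 2 → finrank ℂ (linSys d p (dropSimple m)) =
          finrank ℂ (linSys d p (Function.update (dropSimple m) i (m i + 1))) + (m i + 1))) :
    (∃ F ∈ linSys d p m, Squarefree F) ∧
    finrank ℂ (linSys d p m) + ∑ i, (m i + 1).choose 2 = (d + 2).choose 2 ∧
    (∀ s : Fin (finrank ℂ (linSys d p m) - 1) → Fin 3 → ℂ, GenericPoints (Sum.elim p s) →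
      ∀ F ∈ linSys d p m, F ≠ 0 → (∀ k, eval (s k) F = 0) → SmoothOnBlowup p m F) ∧
    (∃ F ∈ linSys d p m, F ≠ 0 ∧ SmoothOnBlowup p m F) := by
  have hred : ∃ F ∈ linSys d p m, Squarefree F := by
    rcases h with h | ⟨hne, hpair, h2⟩
    · exact h
    · refine main_theorem' p hp m I hI (fun i hi hi2 => ?_) hpair hne
      by_cases h3 : 3 ≤ m i
      · exact hcomplete i hi h3
      · exact h2 i hi (by omega)
  exact ⟨hred, main_theorem p hp m I hI hcomplete hred⟩

end Pool.Agent.Work.MP_0421d9_ag
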