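import Pool.Agent.Work.MP_0421d9_ag.Nc7

/-!
Both halves of the question (nonspeciality, and smoothness of the general member on the blow-up)
for planar linear systems with general multiple base points, in a numerical range, without
assumption of reducedness; in particular for all the systems with multiplicities at most `M` in
which the points of multiplicity at least two leave a virtual dimension larger than `M ^ 2`.
-/

namespace Pool.Agent.Results.MP_0421d9_ag.NumericRange

open MvPolynomial Module Pool.Agent.Work.MP_0421d9_ag

/-- Let `p i` be generic points of the plane, `m 0 ≥ m 1 ≥ ... ≥ 0`, and let `L` be the system of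
the plane curves of degree `d` with multiplicity at least `m i` at `p i`, and `L₀` the system `L`
with its simple points forgotten. Let `c k` be the number of conditions imposed by the first `k`
points, the simple ones not counted.

First part. Suppose that for every index `k ≥ 3` (so not for the three largest multiplicities) with
`m k ≥ 3` one has `c (k + 1) + m 0 * m k < (d + 2).choose 2`, or that `L₀` has dimension larger
than `m 0 * m k`. Suppose moreover
* either that `L` has a reduced member,
* or that `L` is nonempty, `d ≥ m i + m j` for `i ≠ j`, and that for every index `k ≥ 3` with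
  `m k = 2` one has `c k + m 0 * m k < (d + 2).choose 2`, or `L₀` has dimension larger than
  `m 0 * m k`.

Then `L` has a reduced member, it is nonspecial, and its general member is a smooth curve on the
blow-up, which meets all the exceptional curves transversally.

Second part. The same conclusion holds for a nonempty `L` whose multiplicities (in any order) are
at most `M`, as soon as the virtual dimension of the space of the equations of `L₀` is larger than
`M ^ 2`. -/
theorem result :
    (∀ (r d : ℕ) (p : Fin r → Fin 3 → ℂ), GenericPoints p → ∀ m : Fin r → ℕ, Antitone m →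
      (∀ i k : Fin r, 3 ≤ (k : ℕ) → 3 ≤ m k →
        ∑ j ∈ Finset.univ.filter (fun j : Fin r => (j : ℕ) ≤ k + 1 ∧ m j ≠ 1), (m j + 1).choose 2 +
          m i * m k < (d + 2).choose 2 ∨
        m i * m k < finrank ℂ (linSys d p (dropSimple m))) →
      ((∃ F ∈ linSys d p m, Squarefree F) ∨
        (linSys d p m ≠ ⊥ ∧ (∀ i j, i ≠ j → m i + m j ≤ d) ∧
          ∀ i k : Fin r, 3 ≤ (k : ℕ) → m k = 2 →
            ∑ j ∈ Finset.univ.filter (fun j : Fin r => (j : ℕ) ≤ k ∧ m j ≠ 1), (m j + 1).choose 2 +
              m i * m k < (d + 2).choose 2 ∨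
            m i * m k < finrank ℂ (linSys d p (dropSimple m)))) →
      (∃ F ∈ linSys d p m, Squarefree F) ∧
      finrank ℂ (linSys d p m) + ∑ i, (m i + 1).choose 2 = (d + 2).choose 2 ∧
      (∀ s : Fin (finrank ℂ (linSys d p m) - 1) → Fin 3 → ℂ, GenericPoints (Sum.elim p s) →
        ∀ F ∈ linSys d p m, F ≠ 0 → (∀ k, eval (s k) F = 0) → SmoothOnBlowup p m F) ∧
      (∃ F ∈ linSys d p m, F ≠ 0 ∧ SmoothOnBlowup p m F)) ∧
    (∀ (r d M : ℕ) (p : Fin r → Fin 3 → ℂ), GenericPoints p → ∀ m : Fin r → ℕ, (∀ i, m i ≤ M) →
      ∑ i, (dropSimple m i + 1).choose 2 + M * M < (d + 2).choose 2 →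
      linSys d p m ≠ ⊥ →
      (∃ F ∈ linSys d p m, Squarefree F) ∧
      finrank ℂ (linSys d p m) + ∑ i, (m i + 1).choose 2 = (d + 2).choose 2 ∧
      (∀ s : Fin (finrank ℂ (linSys d p m) - 1) → Fin 3 → ℂ, GenericPoints (Sum.elim p s) →
        ∀ F ∈ linSys d p m, F ≠ 0 → (∀ k, eval (s k) F = 0) → SmoothOnBlowup p m F) ∧
      (∃ F ∈ linSys d p m, F ≠ 0 ∧ SmoothOnBlowup p m F)) :=
  ⟨fun _ _ p hp m hanti hnum h => numeric_final p hp m hanti hnum h,
    fun _ _ _ p hp m hM hnum hne => main_bounded p hp m hM hnum hne⟩

end Pool.Agent.Results.MP_0421d9_ag.NumericRange
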