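import Pool.Agent.Work.MP_0421d9_ag.Tests

/-!
General position of generic points and numerical consequences of the existence of a squarefree
member.
-/

namespace Pool.Agent.Work.MP_0421d9_ag

open MvPolynomial

section position

variable {ι : Type} [DecidableEq ι] {P : ι → V3} {E : ι → Fin 3 → Derivation ℚ ℂ ℂ}

theorem gp1 (hE : IsDual P E) (x : ι) : P x ≠ 0 := by
  intro h
  have h1 := hE x 0 x 0
  rw [h] at h1
  simp at h1

theorem gp2 (hE : IsDual P E) {x y : ι} (hxy : x ≠ y) : cr (P x) (P y) ≠ 0 := by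
  intro h
  have h0 : P x 1 * P y 2 - P x 2 * P y 1 = 0 := congrFun h 0
  have h1 := congrArg (E x 1) h0
  rw [map_sub, Derivation.leibniz, Derivation.leibniz, hE x 1 x 1, hE x 1 x 2, hE x 1 y 1,
    hE x 1 y 2, map_zero] at h1
  simp [hxy] at h1
  have h2 := hE y 2 y 2
  rw [h1, map_zero] at h2
  simp at h2

theorem gp3 (hE : IsDual P E) {x y z : ι} (hxy : x ≠ y) (hxz : x ≠ z) (hyz : y ≠ z) :
    eval (P z) (xl (P x) (P y)) ≠ 0 := by
  intro h
  apply gp2 hE hxy
  rw [eval_xl] at h
  have key : ∀ k, cr (P x) (P y) k = 0 := by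
    intro k
    have h1 := congrArg (E z k) h
    simp only [map_add, map_sub, Derivation.leibniz, hE z k, map_zero, smul_eq_mul] at h1
    simp only [hxz.symm, hyz.symm, false_and, if_false, mul_zero, add_zero, true_and] at h1
    fin_cases k
    · simpa [cr] using h1
    · simpa [cr] using h1
    · simpa [cr] using h1
  exact funext key

end position

theorem not_isUnit_lin (v : V3) : ¬ IsUnit (lin v) := by
  intro h
  have h1 := h.map (eval (0 : V3))
  rw [eval_lin] at h1
  simp at h1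

theorem le_of_vanishTo {F : R3} {d : ℕ} (hF : F.IsHomogeneous d) (hF0 : F ≠ 0) {a : V3} {μ : ℕ}
    (h : VanishTo F a μ) : μ ≤ d := by
  by_contra hc
  exact hF0 (eq_zero_of_vanishTo hF (by omega) h)

theorem not_sq_dvd {F : R3} (hsq : Squarefree F) {v : V3} {g : R3} (hg : F = lin v * g) :
    ¬ lin v ∣ g := by
  rintro ⟨g', rfl⟩
  have : lin v * lin v ∣ F := ⟨g', by rw [hg, mul_assoc]⟩
  exact not_isUnit_lin v (hsq _ this)

theorem pair_le {F : R3} {d : ℕ} (hF : F.IsHomogeneous d) (hsq : Squarefree F) {a b : V3}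
    (hab : cr a b ≠ 0) {μ ν : ℕ} (ha : VanishTo F a μ) (hb : VanishTo F b ν) :
    μ + ν ≤ d + 1 := by
  by_contra hc
  have hμ := le_of_vanishTo hF hsq.ne_zero ha
  have hν := le_of_vanishTo hF hsq.ne_zero hb
  obtain ⟨e, g, hd, hg, hFg⟩ := exists_factor hF hsq.ne_zero
    (xl_dvd_of_vanishTo hab hF ha hb (by omega))
  rw [hFg] at ha hb
  have ha' := vanishTo_of_mul_eq hab ha (eval_xl_left a b)
  have hb' := vanishTo_of_mul_eq hab hb (eval_xl_right a b)
  exact not_sq_dvd hsq hFg (xl_dvd_of_vanishTo hab hg ha' hb' (by omega))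

theorem four_aux {F : R3} {d : ℕ} (hF : F.IsHomogeneous d) (hsq : Squarefree F) {a b c e : V3}
    (hab : cr a b ≠ 0) (hce : cr c e ≠ 0) (hca : eval a (xl c e) ≠ 0) (hcb : eval b (xl c e) ≠ 0)
    (hac : eval c (xl a b) ≠ 0) (hae : eval e (xl a b) ≠ 0) {μa μb μc μe : ℕ}
    (ha : VanishTo F a μa) (hb : VanishTo F b μb) (hc : VanishTo F c μc) (he : VanishTo F e μe)
    (h1 : d ≤ μa + μb) (h2 : d + 1 ≤ μc + μe) : False := by
  have hμc := le_of_vanishTo hF hsq.ne_zero hc
  have hμe := le_of_vanishTo hF hsq.ne_zero he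
  obtain ⟨e1, g, hd, hg, hFg⟩ := exists_factor hF hsq.ne_zero
    (xl_dvd_of_vanishTo hce hF hc he h2)
  have hg0 : g ≠ 0 := by
    rintro rfl
    exact hsq.ne_zero (by rw [hFg, mul_zero])
  rw [hFg] at ha hb hc he
  have ha' := vanishTo_of_mul_ne ha hca
  have hb' := vanishTo_of_mul_ne hb hcb
  have hc' := vanishTo_of_mul_eq hce hc (eval_xl_left c e)
  have he' := vanishTo_of_mul_eq hce he (eval_xl_right c e)
  obtain ⟨e2, g2, hd2, hg2, hgg⟩ := exists_factor hg hg0
    (xl_dvd_of_vanishTo hab hg ha' hb' (by omega))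
  rw [hgg] at hc' he'
  have hc'' := vanishTo_of_mul_ne hc' hac
  have he'' := vanishTo_of_mul_ne he' hae
  have h3 : xl c e ∣ g2 := xl_dvd_of_vanishTo hce hg2 hc'' he'' (by omega)
  apply not_sq_dvd hsq hFg
  rw [hgg]
  exact Dvd.dvd.mul_left h3 _

theorem four_le {F : R3} {d : ℕ} (hF : F.IsHomogeneous d) (hsq : Squarefree F) {a b c e : V3}
    (hab : cr a b ≠ 0) (hce : cr c e ≠ 0) (hca : eval a (xl c e) ≠ 0) (hcb : eval b (xl c e) ≠ 0)
    (hac : eval c (xl a b) ≠ 0) (hae : eval e (xl a b) ≠ 0) {μa μb μc μe : ℕ}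
    (ha : VanishTo F a μa) (hb : VanishTo F b μb) (hc : VanishTo F c μc) (he : VanishTo F e μe) :
    μa + μb + μc + μe ≤ 2 * d := by
  by_contra hcon
  have h1 := pair_le hF hsq hab ha hb
  have h2 := pair_le hF hsq hce hc he
  rcases Nat.lt_or_ge d (μc + μe) with h3 | h3
  · exact four_aux hF hsq hab hce hca hcb hac hae ha hb hc he (by omega) (by omega)
  · exact four_aux hF hsq hce hab hac hae hca hcb hc he ha hb (by omega) (by omega)

theorem cr_self (a : V3) : cr a a = 0 := by
  ext l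
  fin_cases l <;> simp [cr] <;> ring

theorem cr_smul_self (s : ℂ) (a : V3) : cr a (s • a) = 0 := by
  ext l
  fin_cases l <;> simp [cr] <;> ring

theorem not_singular_on_bad_line {F : R3} {d : ℕ} (hF : F.IsHomogeneous d) (hsq : Squarefree F)
    {a b q : V3} (hab : cr a b ≠ 0) {μ ν : ℕ} (ha : VanishTo F a μ) (hb : VanishTo F b ν)
    (hsum : μ + ν = d + 1) (hq : eval q (xl a b) = 0) (hqa : cr a q ≠ 0) (hqb : cr b q ≠ 0)
    (hsing : ∀ k, eval q (pderiv k F) = 0) : False := by
  have hμ := le_of_vanishTo hF hsq.ne_zero ha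
  have hν := le_of_vanishTo hF hsq.ne_zero hb
  obtain ⟨e, g, hd, hg, hFg⟩ := exists_factor hF hsq.ne_zero
    (xl_dvd_of_vanishTo hab hF ha hb (by omega))
  apply not_sq_dvd hsq hFg
  rw [hFg] at ha hb
  have ha' := vanishTo_of_mul_eq hab ha (eval_xl_left a b)
  have hb' := vanishTo_of_mul_eq hab hb (eval_xl_right a b)
  have hgq : eval q g = 0 := by
    obtain ⟨k, hk⟩ : ∃ k, cr a b k ≠ 0 := by
      by_contra hcon
      push Not at hcon
      exact hab (funext hcon)
    have h1 := hsing k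
    rw [hFg, pderiv_mul, pderiv_lin, map_add, map_mul, map_mul, eval_C] at h1
    rw [show eval q (lin (cr a b)) = 0 from hq, zero_mul, add_zero] at h1
    exact (mul_eq_zero.mp h1).resolve_left hk
  obtain ⟨s, t, hst⟩ := exists_comb hab hq
  have hs : s ≠ 0 := by
    rintro rfl
    apply hqb
    rw [hst, zero_smul, zero_add]
    exact cr_smul_self t b
  have ht : t ≠ 0 := by
    rintro rfl
    apply hqa
    rw [hst, zero_smul, add_zero]
    exact cr_smul_self s a
  have key : ∀ i ≤ e, i ≠ ν - 1 → B (lin a ^ i * lin b ^ (e - i)) g = 0 := by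
    intro i hi hne
    by_cases h1 : e - i < μ - 1
    · exact B_eq_zero_of_vanishTo hg ha' h1 (by omega) _
    · rw [mul_comm]
      exact B_eq_zero_of_vanishTo hg hb' (by omega : i < ν - 1) (by omega) _
  apply xl_dvd hab hg
  intro i hi
  by_cases hne : i = ν - 1
  · have h1 := B_lin_pow hg q
    rw [hgq, mul_zero, hst, lin_add, add_pow, map_sum, LinearMap.sum_apply,
      Finset.sum_eq_single (ν - 1)] at h1
    · have h3 : lin (s • a) ^ (ν - 1) * lin (t • b) ^ (e - (ν - 1)) *
          ((e.choose (ν - 1) : ℕ) : R3) =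
          C (s ^ (ν - 1) * t ^ (e - (ν - 1)) * (e.choose (ν - 1) : ℂ)) *
            (lin a ^ (ν - 1) * lin b ^ (e - (ν - 1))) := by
        rw [lin_smul, lin_smul, mul_pow, mul_pow]
        simp only [map_mul, map_pow, map_natCast]
        ring
      rw [h3, B_C_mul_left] at h1
      rw [hne]
      refine (mul_eq_zero.mp h1).resolve_left ?_
      refine mul_ne_zero (mul_ne_zero (pow_ne_zero _ hs) (pow_ne_zero _ ht)) ?_
      rw [Nat.cast_ne_zero]
      exact (Nat.choose_pos (by omega)).ne'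
    · intro m hm hmne
      have h3 : lin (s • a) ^ m * lin (t • b) ^ (e - m) * ((e.choose m : ℕ) : R3) =
          C (s ^ m * t ^ (e - m) * (e.choose m : ℂ)) * (lin a ^ m * lin b ^ (e - m)) := by
        rw [lin_smul, lin_smul, mul_pow, mul_pow]
        simp only [map_mul, map_pow, map_natCast]
        ring
      rw [h3, B_C_mul_left, key m (Nat.lt_succ_iff.mp (Finset.mem_range.mp hm)) hmne, mul_zero]
    · intro h
      exact absurd (Finset.mem_range.mpr (by omega)) h
  · exact key i hi hne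

theorem B_one_eq (f : R3) : B 1 f = eval 0 f := by
  have : (1 : R3) = monomial 0 1 := rfl
  rw [this, B_monomial, eval_zero]
  simp [wt, constantCoeff_eq]

theorem not_tangent_bad_line {F : R3} {d : ℕ} (hF : F.IsHomogeneous d) (hsq : Squarefree F)
    {a b u : V3} (hab : cr a b ≠ 0) {μ ν : ℕ} (ha : VanishTo F a μ) (hb : VanishTo F b ν)
    (hμ0 : 1 ≤ μ)
    (hsum : μ + ν = d + 1) (hu : eval u (xl a b) = 0) (hau : cr a u ≠ 0)
    (hsing : ∀ w, B (lin a ^ (d - μ) * (lin u ^ (μ - 1) * lin w)) F = 0) : False := by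
  have hμ := le_of_vanishTo hF hsq.ne_zero ha
  have hν := le_of_vanishTo hF hsq.ne_zero hb
  obtain ⟨e, g, hd, hg, hFg⟩ := exists_factor hF hsq.ne_zero
    (xl_dvd_of_vanishTo hab hF ha hb (by omega))
  apply not_sq_dvd hsq hFg
  rw [hFg] at ha hb
  have ha' := vanishTo_of_mul_eq hab ha (eval_xl_left a b)
  have hb' := vanishTo_of_mul_eq hab hb (eval_xl_right a b)
  obtain ⟨s, t, hst⟩ := exists_comb hab hu
  have ht : t ≠ 0 := by
    rintro rfl
    apply hau
    rw [hst, zero_smul, add_zero]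
    exact cr_smul_self s a
  have hdu : dir u (xl a b) = 0 := by
    have := dir_lin u (cr a b)
    rw [show xl a b = lin (cr a b) from rfl, this,
      show eval u (lin (cr a b)) = 0 from hu, C_0]
  have h1 : B (lin a ^ (d - μ) * lin u ^ (μ - 1)) g = 0 := by
    obtain ⟨w, hw⟩ : ∃ w, eval w (xl a b) ≠ 0 := by
      by_contra hcon
      push Not at hcon
      apply xl_ne_zero hab
      apply MvPolynomial.funext
      intro w
      rw [hcon w, map_zero]
    have h2 := hsing w
    have e1 : lin a ^ (d - μ) * (lin u ^ (μ - 1) * lin w) =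
        lin w * (lin a ^ (d - μ) * (lin u ^ (μ - 1) * 1)) := by ring
    rw [e1, B_lin_mul, hFg, dir_mul, map_add, B_lin_pow_mul, B_lin_pow_mul, B_lin_pow_mul,
      B_lin_pow_mul] at h2
    have h3 : B 1 ((dir u)^[μ - 1] ((dir a)^[d - μ] (lin (cr a b) * dir w g))) = 0 := by
      change B 1 ((dir u)^[μ - 1] ((dir a)^[d - μ] (xl a b * dir w g))) = 0
      rw [dir_iterate_mul (dir_xl_left a b), dir_iterate_mul hdu, B_one_eq, map_mul,
        show xl a b = lin (cr a b) from rfl, eval_lin]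
      simp
    rw [h3, add_zero, dir_lin] at h2
    have h4 : B 1 ((dir u)^[μ - 1] ((dir a)^[d - μ] (C (eval w (lin (cr a b))) * g))) =
        eval w (lin (cr a b)) * B (lin a ^ (d - μ) * lin u ^ (μ - 1)) g := by
      rw [← B_lin_pow_mul, ← B_lin_pow_mul, mul_one, B_C_mul_right]
    rw [h4] at h2
    exact (mul_eq_zero.mp h2).resolve_left hw
  have h5 : B (lin a ^ (d - μ) * lin b ^ (μ - 1)) g = 0 := by
    rw [hst, lin_add, add_pow, Finset.mul_sum, map_sum, LinearMap.sum_apply,
      Finset.sum_eq_single 0] at h1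
    · have h3 : lin a ^ (d - μ) * (lin (s • a) ^ 0 * lin (t • b) ^ (μ - 1 - 0) *
          (((μ - 1).choose 0 : ℕ) : R3)) =
          C (t ^ (μ - 1)) * (lin a ^ (d - μ) * lin b ^ (μ - 1)) := by
        rw [lin_smul, lin_smul, mul_pow, mul_pow]
        simp only [map_pow, pow_zero, Nat.sub_zero, Nat.choose_zero_right, Nat.cast_one]
        ring
      rw [h3, B_C_mul_left] at h1
      exact (mul_eq_zero.mp h1).resolve_left (pow_ne_zero _ ht)
    · intro m hm hmne
      have hm' := Finset.mem_range.mp hm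
      have h3 : lin a ^ (d - μ) * (lin (s • a) ^ m * lin (t • b) ^ (μ - 1 - m) *
          (((μ - 1).choose m : ℕ) : R3)) =
          C (s ^ m * t ^ (μ - 1 - m) * ((μ - 1).choose m : ℂ)) *
            (lin a ^ (d - μ + m) * lin b ^ (μ - 1 - m)) := by
        rw [lin_smul, lin_smul, mul_pow, mul_pow]
        simp only [map_mul, map_pow, map_natCast]
        ring
      rw [h3, B_C_mul_left, B_eq_zero_of_vanishTo hg ha' (by omega : μ - 1 - m < μ - 1)
        (by omega : d - μ + m + (μ - 1 - m) = e), mul_zero]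
    · intro h
      exact absurd (Finset.mem_range.mpr (by omega)) h
  apply xl_dvd hab hg
  intro i hi
  by_cases h6 : e - i < μ - 1
  · exact B_eq_zero_of_vanishTo hg ha' h6 (by omega) _
  · by_cases h7 : i < ν - 1
    · rw [mul_comm]
      exact B_eq_zero_of_vanishTo hg hb' h7 (by omega) _
    · have h8 : i = d - μ := by omega
      have h9 : e - i = μ - 1 := by omega
      rw [h9, h8]
      exact h5

end Pool.Agent.Work.MP_0421d9_ag
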