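import Pool.Agent.Work.MP_0421d9_ag.Cond69

/-!
The one-point lemma: a form with few terms which vanishes to high order at a point with nonzero
coordinates is zero.
-/

namespace Pool.Agent.Work.MP_0421d9_ag.LD

open MvPolynomial Module

/-- the operator `X s * ∂_s - c` -/
noncomputable def th (s : Fin 3) (c : ℕ) (F : R3) : R3 := X s * pderiv s F - C (c : ℂ) * F

theorem coeff_X_mul_pderiv (s : Fin 3) (F : R3) (β : Fin 3 →₀ ℕ) :
    coeff β (X s * pderiv s F) = (β s : ℂ) * coeff β F := by
  classical
  rw [coeff_X_mul']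
  split_ifs with h
  · rw [coeff_pderiv]
    have h1 : β s ≠ 0 := Finsupp.mem_support_iff.mp h
    have h2 : β - Finsupp.single s 1 + Finsupp.single s 1 = β := by
      ext i
      rw [Finsupp.add_apply, Finsupp.tsub_apply, Finsupp.single_apply]
      split_ifs with hi
      · subst hi; omega
      · omega
    have h3 : (((β - Finsupp.single s 1 : Fin 3 →₀ ℕ) s : ℕ) : ℂ) + 1 = β s := by
      rw [Finsupp.tsub_apply, Finsupp.single_eq_same]
      rw [Nat.cast_sub (by omega)]
      push_cast
      ring
    rw [h2, h3, mul_comm]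
  · rw [Finsupp.notMem_support_iff] at h
    rw [h]; simp

theorem coeff_th (s : Fin 3) (c : ℕ) (F : R3) (β : Fin 3 →₀ ℕ) :
    coeff β (th s c F) = ((β s : ℂ) - c) * coeff β F := by
  unfold th
  rw [coeff_sub, coeff_X_mul_pderiv, coeff_C_mul]
  ring

theorem pderiv_translate (s : Fin 3) (p : V3) (F : R3) :
    pderiv s (translate p F) = translate p (pderiv s F) := by
  unfold translate
  induction F using MvPolynomial.induction_on with
  | C c => simp
  | add f g hf hg => simp only [map_add, hf, hg]
  | mul_X f k hf =>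
    rw [map_mul, Derivation.leibniz, hf, Derivation.leibniz, map_add, smul_eq_mul, smul_eq_mul,
      smul_eq_mul, smul_eq_mul, map_mul, map_mul, aeval_X, map_add, pderiv_C, zero_add]
    congr 2
    by_cases hk : k = s
    · subst hk; simp
    · rw [pderiv_X_of_ne hk]; simp

theorem VanishTo.th {F : R3} {p : V3} {k : ℕ} (h : VanishTo F p (k + 1)) (s : Fin 3) (c : ℕ) :
    VanishTo (th s c F) p k := by
  rw [vanishTo_iff_coeff] at h ⊢
  intro β hβ
  unfold LD.th
  unfold translate at *
  rw [map_sub, map_mul, map_mul, aeval_X, algHom_C, coeff_sub]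
  have h1 : coeff β (aeval (fun k => C (p k) + X k) F) = 0 := h β (by omega)
  have h2 : (algebraMap ℂ (MvPolynomial (Fin 3) ℂ)) (c : ℂ) = C (c : ℂ) := rfl
  have h3 := pderiv_translate s p F
  unfold translate at h3
  rw [h2, coeff_C_mul, h1, mul_zero, sub_zero, ← h3, add_mul, coeff_add, coeff_C_mul,
    coeff_X_mul_pderiv, h1, mul_zero, add_zero, coeff_pderiv, h _ ?_, zero_mul, mul_zero]
  rw [map_add, Finsupp.degree_single]
  omega

/-- composition of the operators `th` -/
noncomputable def thL : List (Fin 3 × ℕ) → R3 → R3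
  | [], F => F
  | x :: l, F => th x.1 x.2 (thL l F)

theorem coeff_thL (l : List (Fin 3 × ℕ)) (F : R3) (β : Fin 3 →₀ ℕ) :
    coeff β (thL l F) = (l.map (fun x => (β x.1 : ℂ) - x.2)).prod * coeff β F := by
  induction l with
  | nil => simp [thL]
  | cons x l ih =>
    rw [thL, coeff_th, ih, List.map_cons, List.prod_cons, mul_assoc]

theorem VanishTo.thL {F : R3} {p : V3} (l : List (Fin 3 × ℕ)) :
    ∀ {k : ℕ}, VanishTo F p (k + l.length) → VanishTo (thL l F) p k := by
  induction l with
  | nil => intro k h; simpa [LD.thL] using h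
  | cons x l ih =>
    intro k h
    rw [LD.thL]
    apply VanishTo.th
    apply ih
    rw [List.length_cons] at h
    have e : k + 1 + l.length = k + (l.length + 1) := by ring
    rw [e]; exact h

/-- one-point lemma. Rows: exponent of `X s`; in a row the exponent of `X t` separates. -/
theorem one_point {F : R3} {p : V3} {m : ℕ} (hp : ∀ i, p i ≠ 0) (hF : VanishTo F p m)
    (s t : Fin 3) (lev : ℕ → ℕ) (B : ℕ → Finset ℕ)
    (hlev : ∀ α ∈ F.support, 1 ≤ lev (α s) ∧ lev (α s) ≤ m)
    (hinj : ∀ α ∈ F.support, ∀ β ∈ F.support, lev (α s) = lev (β s) → α s = β s)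
    (hsep : ∀ α ∈ F.support, ∀ β ∈ F.support, α s = β s → α t = β t → α = β)
    (hB : ∀ α ∈ F.support, α t ∈ B (α s))
    (hc : ∀ α ∈ F.support, (B (α s)).card ≤ lev (α s)) : F = 0 := by
  classical
  by_contra hF0
  have hne : F.support.Nonempty := by
    rw [Finset.nonempty_iff_ne_empty]
    intro h
    exact hF0 (MvPolynomial.support_eq_empty.mp h)
  obtain ⟨α, hα, hmin⟩ := Finset.exists_min_image F.support (fun β => lev (β s)) hne
  set R := (F.support.image (fun β => β s)).erase (α s) with hR
  set B' := (B (α s)).erase (α t) with hB'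
  have hRcard : R.card ≤ m - lev (α s) := by
    have h1 : R.card = (R.image lev).card := by
      rw [Finset.card_image_of_injOn]
      intro c hc c' hc' hcc
      rw [hR, Finset.mem_coe, Finset.mem_erase, Finset.mem_image] at hc hc'
      obtain ⟨_, β, hβ, rfl⟩ := hc
      obtain ⟨_, β', hβ', rfl⟩ := hc'
      exact hinj β hβ β' hβ' hcc
    have h2 : R.image lev ⊆ Finset.Ioc (lev (α s)) m := by
      intro v hv
      rw [Finset.mem_image] at hv
      obtain ⟨c, hc, rfl⟩ := hv
      rw [hR, Finset.mem_erase, Finset.mem_image] at hc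
      obtain ⟨hne, β, hβ, rfl⟩ := hc
      rw [Finset.mem_Ioc]
      refine ⟨lt_of_le_of_ne (hmin β hβ) ?_, (hlev β hβ).2⟩
      intro h
      exact hne (hinj β hβ α hα h.symm)
    rw [h1]
    have h3 := Finset.card_le_card h2
    rwa [Nat.card_Ioc] at h3
  have hB'card : B'.card + 1 ≤ lev (α s) := by
    rw [hB', Finset.card_erase_of_mem (hB α hα)]
    have := hc α hα
    have h1 : 0 < (B (α s)).card := Finset.card_pos.mpr ⟨_, hB α hα⟩
    omega
  have hm := (hlev α hα).2
  set l : List (Fin 3 × ℕ) := R.toList.map (fun c => (s, c)) ++ B'.toList.map (fun c => (t, c))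
    with hl
  have hlen : 1 + l.length ≤ m := by
    rw [hl, List.length_append, List.length_map, List.length_map, Finset.length_toList,
      Finset.length_toList]
    omega
  have hV : VanishTo (thL l F) p 1 := VanishTo.thL l (VanishTo.mono hF hlen)
  have hprod : ∀ β : Fin 3 →₀ ℕ, (l.map (fun x => (β x.1 : ℂ) - x.2)).prod = 0 ↔
      β s ∈ R ∨ β t ∈ B' := by
    intro β
    rw [List.prod_eq_zero_iff, hl, List.map_append, List.mem_append, List.map_map, List.map_map,
      List.mem_map, List.mem_map]
    simp only [Function.comp_apply, sub_eq_zero, Nat.cast_inj, Finset.mem_toList]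
    constructor
    · rintro (⟨c, hc, h⟩ | ⟨c, hc, h⟩)
      · left; rw [h]; exact hc
      · right; rw [h]; exact hc
    · rintro (h | h)
      · left; exact ⟨_, h, rfl⟩
      · right; exact ⟨_, h, rfl⟩
  have hH : thL l F = monomial α (coeff α (thL l F)) := by
    ext β
    rw [coeff_monomial]
    split_ifs with h
    · rw [h]
    · rw [coeff_thL]
      by_cases hβ : β ∈ F.support
      · have h1 : β s ∈ R ∨ β t ∈ B' := by
          by_cases h2 : β s = α s
          · right
            rw [hB', Finset.mem_erase]
            refine ⟨fun h3 => h (hsep α hα β hβ h2.symm h3.symm), ?_⟩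
            rw [← h2]
            exact hB β hβ
          · left
            rw [hR, Finset.mem_erase, Finset.mem_image]
            exact ⟨h2, β, hβ, rfl⟩
        rw [(hprod β).mpr h1, zero_mul]
      · rw [MvPolynomial.notMem_support_iff.mp hβ, mul_zero]
  have hcoef : coeff α (thL l F) ≠ 0 := by
    rw [coeff_thL]
    refine mul_ne_zero ?_ (MvPolynomial.mem_support_iff.mp hα)
    rw [Ne, hprod α, not_or]
    exact ⟨Finset.notMem_erase _ _, Finset.notMem_erase _ _⟩
  -- the value at `p`
  have h0 : eval p (thL l F) = 0 := by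
    have h1 := hV 0 one_pos
    have h2 := eval_translate p 0 (thL l F)
    rw [add_zero] at h2
    rw [← h2]
    have h3 : eval (0 : V3) (translate p (thL l F)) = coeff 0 (translate p (thL l F)) := by
      rw [← MvPolynomial.constantCoeff_eq]
      have := MvPolynomial.eval_zero (σ := Fin 3) (R := ℂ)
      rw [← this]
    rw [h3]
    have h4 := congrArg (coeff 0) h1
    rw [coeff_homogeneousComponent, coeff_zero] at h4
    simpa using h4
  rw [hH, eval_monomial] at h0
  rcases mul_eq_zero.mp h0 with h1 | h1
  · exact hcoef h1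
  · rw [Finsupp.prod, Finset.prod_eq_zero_iff] at h1
    obtain ⟨i, _, hi⟩ := h1
    exact pow_ne_zero (α i) (hp i) hi

end Pool.Agent.Work.MP_0421d9_ag.LD
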