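import Pool.Agent.Work.MP_0421d9_ag.UDefs
import Pool.Agent.Work.MP_0421d9_ag.UVan

/-!
Upper semicontinuity of the dimension of the linear systems in the Zariski topology: nonspeciality
for generic points (algebraically independent coordinates) gives nonspeciality for all the points
outside of the zero set of a nonzero polynomial (helper7, after a request of helper79).
-/

namespace Pool.Agent.Work.MP_0421d9_ag.LD

open MvPolynomial Module

/-! ### semicontinuity with several parameters -/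

section

variable {E : Type} [AddCommGroup E] [Module ℂ E] {σ : Type}

/-- the vectors on which the family `P` vanishes at the parameter `v` -/
def os_Z {ι : Type} (P : E →ₗ[ℂ] (ι → MvPolynomial σ ℂ)) (v : σ → ℂ) : Submodule ℂ E where
  carrier := {e | ∀ i, eval v (P e i) = 0}
  zero_mem' := by intro i; simp
  add_mem' := by
    intro a b ha hb i
    rw [map_add, Pi.add_apply, map_add, ha i, hb i, add_zero]
  smul_mem' := by
    intro c a ha i
    rw [map_smul, Pi.smul_apply, smul_eval, ha i, mul_zero]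

theorem mem_os_Z {ι : Type} {P : E →ₗ[ℂ] (ι → MvPolynomial σ ℂ)} {v : σ → ℂ} {e : E} :
    e ∈ os_Z P v ↔ ∀ i, eval v (P e i) = 0 := Iff.rfl

/-- evaluation as a linear map -/
noncomputable def os_ev (v : σ → ℂ) : MvPolynomial σ ℂ →ₗ[ℂ] ℂ := (aeval v).toLinearMap

theorem os_ev_apply (v : σ → ℂ) (F : MvPolynomial σ ℂ) : os_ev v F = eval v F := by
  unfold os_ev
  rw [AlgHom.toLinearMap_apply, aeval_eq_eval]

theorem os_semicont {ι : Type} [Finite ι] (P : E →ₗ[ℂ] (ι → MvPolynomial σ ℂ))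
    (U : Submodule ℂ E) [Module.Finite ℂ U] (v₀ : σ → ℂ) :
    ∃ g : MvPolynomial σ ℂ, eval v₀ g ≠ 0 ∧ ∀ v, eval v g ≠ 0 →
      finrank ℂ ↥(U ⊓ os_Z P v) ≤ finrank ℂ ↥(U ⊓ os_Z P v₀) := by
  classical
  cases nonempty_fintype ι
  let M : (σ → ℂ) → (U →ₗ[ℂ] (ι → ℂ)) := fun v =>
    ((os_ev v).compLeft ι) ∘ₗ P ∘ₗ U.subtype
  have hM : ∀ v (u : U) i, M v u i = eval v (P u i) := fun v u i => os_ev_apply v _
  have hker : ∀ v, LinearMap.ker (M v) = (os_Z P v).comap U.subtype := by
    intro v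
    ext u
    rw [LinearMap.mem_ker, Submodule.mem_comap, mem_os_Z]
    constructor
    · intro h i
      have h1 := congrFun h i
      rw [hM] at h1
      exact h1
    · intro h
      funext i
      rw [hM]
      exact h i
  obtain ⟨W, hW⟩ := Submodule.exists_isCompl (LinearMap.ker (M v₀))
  let b := Module.finBasis ℂ W
  set n := finrank ℂ W with hn
  have hinj : Function.Injective ((M v₀) ∘ₗ W.subtype) := by
    rw [← LinearMap.ker_eq_bot, Submodule.eq_bot_iff]
    intro w hw
    rw [LinearMap.mem_ker, LinearMap.comp_apply] at hw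
    have h1 : (w : U) ∈ LinearMap.ker (M v₀) ⊓ W := ⟨hw, w.2⟩
    rw [hW.inf_eq_bot, Submodule.mem_bot] at h1
    exact Subtype.ext h1
  obtain ⟨L, hL⟩ := LinearMap.exists_leftInverse_of_injective _ (LinearMap.ker_eq_bot.mpr hinj)
  have hL' : ∀ w : W, L (M v₀ w) = w := fun w => LinearMap.congr_fun hL w
  let N : Matrix (Fin n) (Fin n) (MvPolynomial σ ℂ) := fun i j =>
    ∑ k, C (b.repr (L (Pi.single k 1)) i) * P (b j : U) k
  have hN : ∀ v i j, eval v (N i j) = b.repr (L (M v (b j))) i := by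
    intro v i j
    have h1 : M v (b j) = ∑ k, (eval v (P (b j : U) k)) • (Pi.single k (1 : ℂ) : ι → ℂ) := by
      funext l
      rw [hM, Finset.sum_apply]
      simp [Pi.single_apply]
    rw [h1]
    simp only [N, map_sum, map_mul, eval_C, map_smul, Finsupp.finsetSum_apply,
      Finsupp.smul_apply, smul_eq_mul]
    exact Finset.sum_congr rfl (fun k _ => mul_comm _ _)
  have hdet : ∀ v, eval v N.det =
      (Matrix.of (fun i j => b.repr (L (M v (b j))) i)).det := by
    intro v
    rw [RingHom.map_det]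
    congr 1
    ext i j
    exact hN v i j
  refine ⟨N.det, ?_, fun v hv => ?_⟩
  · rw [hdet]
    have h1 : (Matrix.of (fun i j => b.repr (L (M v₀ (b j))) i) : Matrix (Fin n) (Fin n) ℂ) =
        1 := by
      ext i j
      rw [Matrix.of_apply, hL', Basis.repr_self, Matrix.one_apply, Finsupp.single_apply]
      simp only [eq_comm]
    rw [h1, Matrix.det_one]
    exact one_ne_zero
  · rw [hdet] at hv
    rw [finrank_inf_eq, finrank_inf_eq, ← hker, ← hker]
    have hdisj : Disjoint (LinearMap.ker (M v)) W := by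
      rw [Submodule.disjoint_def]
      intro u hu hw
      let x : Fin n → ℂ := fun j => b.repr ⟨u, hw⟩ j
      have h1 : u = ∑ j, x j • (b j : U) := by
        have h2 := b.sum_repr ⟨u, hw⟩
        have h3 := congrArg (fun w : W => (w : U)) h2
        simp only [Submodule.coe_sum, Submodule.coe_smul] at h3
        exact h3.symm
      have h4 : Matrix.mulVec (Matrix.of (fun i j => b.repr (L (M v (b j))) i)) x = 0 := by
        funext i
        rw [Matrix.mulVec, dotProduct]
        have h5 : b.repr (L (M v u)) i = 0 := by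
          rw [LinearMap.mem_ker.mp hu]
          simp
        rw [h1, map_sum, map_sum, map_sum, Finsupp.finsetSum_apply] at h5
        simp only [map_smul, Finsupp.smul_apply, smul_eq_mul] at h5
        rw [Pi.zero_apply, ← h5]
        exact Finset.sum_congr rfl (fun j _ => mul_comm _ _)
      have h6 : x = 0 := by
        by_contra hx
        exact hv (Matrix.exists_mulVec_eq_zero_iff.mp ⟨x, hx, h4⟩)
      rw [h1]
      simp [h6]
    have h7 := Submodule.finrank_add_finrank_le_of_disjoint hdisj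
    have h8 := Submodule.finrank_add_eq_of_isCompl hW
    omega

end

/-! ### the conditions depend polynomially on the points -/

section

variable {σ : Type}

/-- translation by a point depending on parameters -/
noncomputable def os_tr (p : Fin 3 → MvPolynomial σ ℂ) :
    R3 →ₐ[ℂ] MvPolynomial (Fin 3) (MvPolynomial σ ℂ) :=
  aeval (fun k => C (p k) + X k)

theorem map_os_tr (p : Fin 3 → MvPolynomial σ ℂ) (F : R3) (v : σ → ℂ) :
    map (eval v) (os_tr p F) = translate (fun k => eval v (p k)) F := by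
  unfold os_tr translate
  induction F using MvPolynomial.induction_on with
  | C c =>
    rw [algHom_C, algHom_C]
    have h1 : (algebraMap ℂ (MvPolynomial (Fin 3) (MvPolynomial σ ℂ))) c = C (C c) := rfl
    rw [h1, map_C]
    simp
  | add f g hf hg => rw [map_add, map_add, map_add, hf, hg]
  | mul_X f k hf =>
    rw [map_mul, map_mul, map_mul, hf, aeval_X, aeval_X]
    congr 1
    rw [map_add, map_C, map_X]

theorem eval_coeff_os_tr (p : Fin 3 → MvPolynomial σ ℂ) (F : R3) (v : σ → ℂ)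
    (β : Fin 3 →₀ ℕ) :
    eval v (coeff β (os_tr p F)) = coeff β (translate (fun k => eval v (p k)) F) := by
  rw [← map_os_tr, coeff_map]

theorem linSys_eq_inf {r : ℕ} (d : ℕ) (p : Fin r → V3) (y : Fin r → ℕ) :
    linSys d p y = Rd d ⊓ ⨅ i, vanSub (p i) (y i) := by
  ext F
  rw [Submodule.mem_inf, Submodule.mem_iInf]
  rfl

/-- the dimension is upper semicontinuous in a family of points depending polynomially on
parameters -/
theorem open_family {r d : ℕ} (y : Fin r → ℕ) (q : Fin r → Fin 3 → MvPolynomial σ ℂ)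
    (v₀ : σ → ℂ) : ∃ Φ : MvPolynomial σ ℂ, eval v₀ Φ ≠ 0 ∧ ∀ v, eval v Φ ≠ 0 →
      finrank ℂ (linSys d (fun i k => eval v (q i k)) y) ≤
        finrank ℂ (linSys d (fun i k => eval v₀ (q i k)) y) := by
  let P : R3 →ₗ[ℂ] (((i : Fin r) × {β : Fin 3 →₀ ℕ // β.degree < y i}) → MvPolynomial σ ℂ) :=
    { toFun := fun F z => coeff z.2.1 (os_tr (q z.1) F)
      map_add' := fun F G => by funext β; simp
      map_smul' := fun c F => by funext β; simp [coeff_smul] }
  have hP : ∀ v, Rd d ⊓ os_Z P v = linSys d (fun i k => eval v (q i k)) y := by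
    intro v
    rw [linSys_eq_inf]
    congr 1
    ext F
    rw [mem_os_Z, Submodule.mem_iInf]
    constructor
    · intro h i
      rw [mem_vanSub, vanishTo_iff_coeff]
      intro β hβ
      rw [← eval_coeff_os_tr]
      exact h ⟨i, β, hβ⟩
    · rintro h ⟨i, β, hβ⟩
      have h1 := h i
      rw [mem_vanSub, vanishTo_iff_coeff] at h1
      have h2 := h1 β hβ
      rw [← eval_coeff_os_tr] at h2
      exact h2
  obtain ⟨g, hg, h1⟩ := os_semicont P (Rd d) v₀
  refine ⟨g, hg, fun v hv => ?_⟩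
  have h2 := h1 v hv
  rw [hP, hP] at h2
  exact h2

end

/-! ### special parametrisations -/

/-- the dimension is upper semicontinuous in the points -/
theorem open_le {r d : ℕ} (y : Fin r → ℕ) (p₀ : Fin r → Fin 3 → ℂ) :
    ∃ Φ : MvPolynomial (Fin r × Fin 3) ℂ, eval (fun z => p₀ z.1 z.2) Φ ≠ 0 ∧
      ∀ p : Fin r → Fin 3 → ℂ, eval (fun z => p z.1 z.2) Φ ≠ 0 →
        finrank ℂ (linSys d p y) ≤ finrank ℂ (linSys d p₀ y) := by
  obtain ⟨Φ, h1, h2⟩ := open_family (d := d) y (fun i k => X (i, k)) (fun z => p₀ z.1 z.2)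
  have h4 : ∀ p : Fin r → Fin 3 → ℂ, (fun (i : Fin r) (k : Fin 3) =>
      eval (fun z : Fin r × Fin 3 => p z.1 z.2) (X (i, k) : MvPolynomial (Fin r × Fin 3) ℂ)) =
      p := by
    intro p
    funext i k
    rw [eval_X]
  refine ⟨Φ, h1, fun p hp => ?_⟩
  have h3 := h2 (fun z => p z.1 z.2) hp
  rw [h4, h4] at h3
  exact h3

theorem open_affine {r d : ℕ} (y : Fin r → ℕ) (P₀ : Fin r → Fin 2 → ℂ) :
    ∃ Φ : MvPolynomial (Fin r × Fin 2) ℂ, eval (fun z => P₀ z.1 z.2) Φ ≠ 0 ∧
      ∀ P : Fin r → Fin 2 → ℂ, eval (fun z => P z.1 z.2) Φ ≠ 0 →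
        finrank ℂ (linSys d (fun i => ![P i 0, P i 1, 1]) y) ≤
          finrank ℂ (linSys d (fun i => ![P₀ i 0, P₀ i 1, 1]) y) := by
  obtain ⟨Φ, h1, h2⟩ := open_family (d := d) y
    (fun i => ![X (i, 0), X (i, 1), 1]) (fun z => P₀ z.1 z.2)
  have h4 : ∀ P : Fin r → Fin 2 → ℂ, (fun (i : Fin r) (k : Fin 3) =>
      eval (fun z : Fin r × Fin 2 => P z.1 z.2)
        ((![X (i, 0), X (i, 1), 1] : Fin 3 → MvPolynomial (Fin r × Fin 2) ℂ) k)) =
      fun i => ![P i 0, P i 1, 1] := by
    intro P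
    funext i k
    fin_cases k <;> simp
  refine ⟨Φ, h1, fun P hP => ?_⟩
  have h3 := h2 (fun z => P z.1 z.2) hP
  rw [h4, h4] at h3
  exact h3

/-- the system depends only on the points of the projective plane -/
theorem linSys_smul {r d : ℕ} (y : Fin r → ℕ) (p : Fin r → V3) (c : Fin r → ℂ)
    (hc : ∀ i, c i ≠ 0) : linSys d (fun i => c i • p i) y = linSys d p y := by
  ext F
  constructor
  · rintro ⟨h1, h2⟩
    refine ⟨h1, fun i => ?_⟩
    have h3 := vanishTo_smul h1 (inv_ne_zero (hc i)) (h2 i)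
    rwa [smul_smul, inv_mul_cancel₀ (hc i), one_smul] at h3
  · rintro ⟨h1, h2⟩
    exact ⟨h1, fun i => vanishTo_smul h1 (hc i) (h2 i)⟩

/-- if the dimension is at most `n` for generic points, then it is at most `n` on a nonempty
Zariski open set -/
theorem open_generic {r d n : ℕ} (y : Fin r → ℕ)
    (h : ∀ p : Fin r → Fin 3 → ℂ, GenericPoints p → finrank ℂ (linSys d p y) = n) :
    ∃ Φ : MvPolynomial (Fin r × Fin 2) ℂ, Φ ≠ 0 ∧ ∀ P : Fin r → Fin 2 → ℂ,
      eval (fun z => P z.1 z.2) Φ ≠ 0 →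
        finrank ℂ (linSys d (fun i => ![P i 0, P i 1, 1]) y) ≤ n := by
  have hne : ∀ i, gpt r i 2 ≠ 0 := fun i => (gpt_generic r).ne_zero (i, 2)
  obtain ⟨Φ, h1, h2⟩ := open_affine (d := d) y
    (fun i => ![gpt r i 0 / gpt r i 2, gpt r i 1 / gpt r i 2])
  refine ⟨Φ, fun h3 => h1 (by rw [h3, map_zero]), fun P hP => (h2 P hP).trans ?_⟩
  have h4 : (fun i : Fin r => (![(![gpt r i 0 / gpt r i 2, gpt r i 1 / gpt r i 2] : Fin 2 → ℂ) 0,
      (![gpt r i 0 / gpt r i 2, gpt r i 1 / gpt r i 2] : Fin 2 → ℂ) 1, 1] : Fin 3 → ℂ)) =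
      fun i => (gpt r i 2)⁻¹ • gpt r i := by
    funext i k
    have := hne i
    fin_cases k <;> simp [div_eq_inv_mul, this]
  rw [h4, linSys_smul y _ _ (fun i => inv_ne_zero (hne i)), h _ (gpt_generic r)]

/-! ### all degrees at once -/

/-- the expected dimension is a lower bound, for arbitrary points -/
theorem linSys_count {r d : ℕ} (p : Fin r → V3) (y : Fin r → ℕ) :
    (d + 2).choose 2 ≤ finrank ℂ (linSys d p y) + ∑ i, (y i + 1).choose 2 := by
  classical
  have h : ∀ s : Finset (Fin r), (d + 2).choose 2 ≤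
      finrank ℂ ↥(Rd d ⊓ ⨅ i ∈ s, vanSub (p i) (y i)) + ∑ i ∈ s, (y i + 1).choose 2 := by
    intro s
    induction s using Finset.induction_on with
    | empty =>
      have e1 : (Rd d ⊓ ⨅ i ∈ (∅ : Finset (Fin r)), vanSub (p i) (y i)) = Rd d := by simp
      rw [e1, finrank_Rd]
      exact Nat.le_add_right _ _
    | insert a s ha ih =>
      have h1 := finrank_le_van (m := y a) (p a) (Rd d ⊓ ⨅ i ∈ s, vanSub (p i) (y i))
        inf_le_left
      have h2 : (Rd d ⊓ ⨅ i ∈ insert a s, vanSub (p i) (y i)) =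
          (Rd d ⊓ ⨅ i ∈ s, vanSub (p i) (y i)) ⊓ vanSub (p a) (y a) := by
        rw [Finset.iInf_insert, inf_assoc, inf_comm (vanSub (p a) (y a))]
      rw [h2, Finset.sum_insert ha]
      omega
  have h1 := h Finset.univ
  have e2 : (⨅ i ∈ (Finset.univ : Finset (Fin r)), vanSub (p i) (y i)) =
      ⨅ i, vanSub (p i) (y i) := by simp
  rw [e2, ← linSys_eq_inf] at h1
  exact h1

/-- from degree `d` to degree `d + 1`, for points outside of the line `X 2 = 0` -/
theorem linSys_succ_le {r d : ℕ} {p : Fin r → V3} (y : Fin r → ℕ) (hp : ∀ i, p i 2 ≠ 0) :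
    finrank ℂ (linSys (d + 1) p y) ≤ finrank ℂ (linSys d p y) + (d + 2) := by
  set V := linSys (d + 1) p y with hV
  have hle : V ≤ Rd (d + 1) := fun F hF => hF.1
  have hfin : Module.Finite ℂ V := Submodule.finiteDimensional_of_le hle
  have hle' : linSys d p y ≤ Rd d := fun F hF => hF.1
  have hfin' : Module.Finite ℂ (linSys d p y) := Submodule.finiteDimensional_of_le hle'
  let ρ : R3 →ₗ[ℂ] (Fin (d + 2) → ℂ) :=
    { toFun := fun F j => coeff (ex3 j (d + 1 - j) 0) F
      map_add' := fun F G => by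
        funext z
        simp
      map_smul' := fun c F => by
        funext z
        simp }
  have h1 := finrank_eq_ker_add_map ρ V
  have h2 : finrank ℂ ↥(V.map ρ) ≤ d + 2 := by
    refine (Submodule.finrank_le _).trans ?_
    rw [finrank_fin_fun]
  have h3 : V ⊓ LinearMap.ker ρ ≤
      (linSys d p y).map (LinearMap.mulLeft ℂ (X 2 ^ 1 : R3)) := by
    rintro F ⟨hF, hF'⟩
    obtain ⟨h4, h5⟩ := hF
    have h7 := LinearMap.mem_ker.mp hF'
    obtain ⟨G, hG1, hG2, hG3⟩ := exists_div_X2 (δ := d) (u := 1) h4 (fun α hα => by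
      by_contra hcon
      have h10 := deg_eq h4 hα
      have h9 := congrFun h7 ⟨α 0, by omega⟩
      have h11 : ex3 (α 0) (d + 1 - α 0) 0 = α := by
        conv_rhs => rw [eq_ex3 α]
        congr 1
        · omega
        · omega
      change coeff (ex3 (α 0) (d + 1 - α 0) 0) F = 0 at h9
      rw [h11] at h9
      exact mem_support_iff.mp hα h9)
    refine Submodule.mem_map.mpr ⟨G, ⟨hG1, fun i => ?_⟩, by rw [LinearMap.mulLeft_apply, hG2]⟩
    have h8 := h5 i
    rw [hG2] at h8
    exact vanishTo_of_X2_pow_mul (hp i) h8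
  have h4 : finrank ℂ ↥(V ⊓ LinearMap.ker ρ) ≤ finrank ℂ (linSys d p y) :=
    (Submodule.finrank_mono h3).trans (Submodule.finrank_map_le _ _)
  have h5 : finrank ℂ V ≤ finrank ℂ (linSys d p y) + (d + 2) := by
    rw [h1]
    exact Nat.add_le_add h4 h2
  exact h5

/-- a nonspecial system with at least the expected number of conditions stays nonspecial in
higher degree -/
theorem linSys_reg_mono {r d d' : ℕ} {p : Fin r → V3} (y : Fin r → ℕ) (hp : ∀ i, p i 2 ≠ 0)
    (hd : d ≤ d')
    (h : finrank ℂ (linSys d p y) + ∑ i, (y i + 1).choose 2 = (d + 2).choose 2) :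
    finrank ℂ (linSys d' p y) + ∑ i, (y i + 1).choose 2 = (d' + 2).choose 2 := by
  induction d', hd using Nat.le_induction with
  | base => exact h
  | succ n hn ih =>
    have h1 := linSys_succ_le (d := n) y hp
    have h2 := linSys_count (d := n + 1) p y
    have h3 : (n + 1 + 2).choose 2 = (n + 2).choose 1 + (n + 2).choose 2 :=
      Nat.choose_succ_succ' (n + 2) 1
    rw [Nat.choose_one_right] at h3
    omega

/-- nonspeciality in all the degrees `d ≥ d₀` for generic points gives nonspeciality in all these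
degrees on a nonempty Zariski open set -/
theorem open_from {r : ℕ} (d₀ : ℕ) (y : Fin r → ℕ)
    (h : ∀ d, d₀ ≤ d → ∀ p : Fin r → Fin 3 → ℂ, GenericPoints p →
      finrank ℂ (linSys d p y) = (d + 2).choose 2 - ∑ i, (y i + 1).choose 2) :
    ∃ Φ : MvPolynomial (Fin r × Fin 2) ℂ, Φ ≠ 0 ∧ ∀ P : Fin r → Fin 2 → ℂ,
      eval (fun z => P z.1 z.2) Φ ≠ 0 → ∀ d, d₀ ≤ d →
        finrank ℂ (linSys d (fun i => ![P i 0, P i 1, 1]) y) =
          (d + 2).choose 2 - ∑ i, (y i + 1).choose 2 := by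
  classical
  have h1 : ∀ d, ∃ Φ : MvPolynomial (Fin r × Fin 2) ℂ, Φ ≠ 0 ∧ (d₀ ≤ d →
      ∀ P : Fin r → Fin 2 → ℂ, eval (fun z => P z.1 z.2) Φ ≠ 0 →
        finrank ℂ (linSys d (fun i => ![P i 0, P i 1, 1]) y) =
          (d + 2).choose 2 - ∑ i, (y i + 1).choose 2) := by
    intro d
    by_cases hd : d₀ ≤ d
    · obtain ⟨Φ, h2, h3⟩ := open_generic (d := d) y (h d hd)
      refine ⟨Φ, h2, fun _ P hP => ?_⟩
      have h4 := h3 P hP
      have h5 := linSys_count (d := d) (fun i => ![P i 0, P i 1, 1]) y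
      omega
    · exact ⟨1, one_ne_zero, fun h2 => absurd h2 hd⟩
  choose Φ hΦ0 hΦ using h1
  set d₁ := max d₀ (∑ i, (y i + 1).choose 2) with hd₁
  refine ⟨∏ d ∈ Finset.range (d₁ + 1), Φ d,
    Finset.prod_ne_zero_iff.mpr fun d _ => hΦ0 d, fun P hP d hd => ?_⟩
  rw [map_prod, Finset.prod_ne_zero_iff] at hP
  rcases Nat.lt_or_ge d₁ d with h2 | h2
  · have h3 := hΦ d₁ (le_max_left _ _) P (hP d₁ (Finset.self_mem_range_succ d₁))
    have h4 : ∑ i, (y i + 1).choose 2 ≤ (d₁ + 2).choose 2 := by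
      have h5 : (d₁ + 2).choose 2 = (d₁ + 1).choose 1 + (d₁ + 1).choose 2 :=
        Nat.choose_succ_succ' (d₁ + 1) 1
      rw [Nat.choose_one_right] at h5
      have h6 : ∑ i, (y i + 1).choose 2 ≤ d₁ := le_max_right _ _
      omega
    have h7 := linSys_reg_mono (p := fun i => ![P i 0, P i 1, 1]) y (by simp) h2.le (by omega)
    omega
  · exact hΦ d hd P (hP d (Finset.mem_range.mpr (by omega)))

/-- the same for equal multiplicities and all degrees -/
theorem open_all {r m : ℕ} (h : ∀ d, ∀ p : Fin r → Fin 3 → ℂ, GenericPoints p →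
      finrank ℂ (linSys d p (fun _ => m)) = (d + 2).choose 2 - r * (m + 1).choose 2) :
    ∃ Φ : MvPolynomial (Fin r × Fin 2) ℂ, Φ ≠ 0 ∧ ∀ P : Fin r → Fin 2 → ℂ,
      eval (fun z => P z.1 z.2) Φ ≠ 0 → ∀ d,
        finrank ℂ (linSys d (fun i => ![P i 0, P i 1, 1]) (fun _ => m)) =
          (d + 2).choose 2 - r * (m + 1).choose 2 := by
  have e1 : ∑ _i : Fin r, (m + 1).choose 2 = r * (m + 1).choose 2 := by simp
  obtain ⟨Φ, h1, h2⟩ := open_from (r := r) 0 (fun _ => m) (fun d _ p hp => by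
    rw [e1]; exact h d p hp)
  refine ⟨Φ, h1, fun P hP d => ?_⟩
  have h3 := h2 P hP d (Nat.zero_le d)
  rw [e1] at h3
  exact h3

end Pool.Agent.Work.MP_0421d9_ag.LD
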