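import Pool.Agent.Work.MP_0421d9_ag.Def69

/-!
At a general point, the vanishing orders of a finite dimensional space of polynomials in one
variable are as small as possible.
-/

namespace Pool.Agent.Work.MP_0421d9_ag.LD

open Module

theorem mem_ordSub {c : ℂ} {A : ℕ} {g : Polynomial ℂ} :
    g ∈ ordSub c A ↔ ∀ k < A, (Polynomial.hasseDeriv k g).eval c = 0 := by
  constructor
  · intro h k hk
    rw [← Polynomial.taylor_coeff, Polynomial.taylor_apply]
    exact h k hk
  · intro h k hk
    rw [← Polynomial.taylor_apply, Polynomial.taylor_coeff]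
    exact h k hk

/-- generators with distinct degrees -/
theorem exists_gens : ∀ (N : ℕ) (G : Submodule ℂ (Polynomial ℂ)), Module.Finite ℂ G →
    finrank ℂ G ≤ N → ∃ n ≤ finrank ℂ G, ∃ g : Fin n → Polynomial ℂ,
      (∀ i, g i ∈ G ∧ g i ≠ 0) ∧ Function.Injective (fun i => (g i).natDegree) ∧
        ∀ f ∈ G, ∃ y : Fin n → ℂ, f = ∑ i, y i • g i := by
  classical
  intro N
  induction N with
  | zero =>
    intro G hG hN
    refine ⟨0, Nat.zero_le _, fun i => i.elim0, fun i => i.elim0, fun i => i.elim0, ?_⟩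
    intro f hf
    have h1 : G = ⊥ := Submodule.finrank_eq_zero.mp (Nat.le_zero.mp hN)
    rw [h1, Submodule.mem_bot] at hf
    exact ⟨fun _ => 0, by simp [hf]⟩
  | succ N ih =>
    intro G hG hN
    by_cases h0 : G = ⊥
    · refine ⟨0, Nat.zero_le _, fun i => i.elim0, fun i => i.elim0, fun i => i.elim0, ?_⟩
      intro f hf
      rw [h0, Submodule.mem_bot] at hf
      exact ⟨fun _ => 0, by simp [hf]⟩
    · obtain ⟨f₁, hf₁, hf₁0⟩ := Submodule.exists_mem_ne_zero_of_ne_bot h0
      have hex : ∃ d : ℕ, ∃ f ∈ G, f ≠ 0 ∧ f.natDegree = d := ⟨_, f₁, hf₁, hf₁0, rfl⟩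
      obtain ⟨f, hf, hf0, hfd⟩ := Nat.find_spec hex
      have hmin : ∀ g ∈ G, g ≠ 0 → Nat.find hex ≤ g.natDegree := fun g hg hg0 =>
        Nat.find_min' hex ⟨g, hg, hg0, rfl⟩
      set d := Nat.find hex with hd
      have hlc : f.coeff d ≠ 0 := by
        rw [← hfd]
        exact fun h => hf0 (Polynomial.leadingCoeff_eq_zero.mp h)
      let G' : Submodule ℂ (Polynomial ℂ) := G ⊓ LinearMap.ker (Polynomial.lcoeff ℂ d)
      have hG'mem : ∀ g, g ∈ G' ↔ g ∈ G ∧ g.coeff d = 0 := by
        intro g
        rw [Submodule.mem_inf, LinearMap.mem_ker, Polynomial.lcoeff_apply]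
      have hle : G' ≤ G := inf_le_left
      have hlt : G' < G := by
        refine lt_of_le_of_ne hle (fun h => hlc ?_)
        rw [← h] at hf
        exact ((hG'mem f).mp hf).2
      have hfin : Module.Finite ℂ G' := Submodule.finiteDimensional_of_le hle
      have hrk : finrank ℂ G' < finrank ℂ G := Submodule.finrank_lt_finrank_of_lt hlt
      obtain ⟨n, hn, g, hg, hinj, hspan⟩ := ih G' hfin (by omega)
      have hdeg : ∀ i, d < (g i).natDegree := by
        intro i
        obtain ⟨h1, h2⟩ := (hG'mem _).mp (hg i).1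
        refine lt_of_le_of_ne (hmin _ h1 (hg i).2) (fun h => (hg i).2 ?_)
        rw [h] at h2
        exact Polynomial.leadingCoeff_eq_zero.mp h2
      refine ⟨n + 1, by omega, Fin.cons f g, ?_, ?_, ?_⟩
      · intro i
        refine Fin.cases ⟨hf, hf0⟩ (fun j => ?_) i
        exact ⟨hle (hg j).1, (hg j).2⟩
      · intro i j
        refine Fin.cases ?_ (fun i => ?_) i
        · refine Fin.cases (fun _ => rfl) (fun j hj => ?_) j
          simp only [Fin.cons_zero, Fin.cons_succ] at hj
          have := hdeg j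
          omega
        · refine Fin.cases (fun hj => ?_) (fun j hj => ?_) j
          · simp only [Fin.cons_zero, Fin.cons_succ] at hj
            have := hdeg i
            omega
          · simp only [Fin.cons_succ] at hj
            rw [hinj hj]
      · intro w hw
        have h1 : w - (w.coeff d / f.coeff d) • f ∈ G' := by
          rw [hG'mem]
          refine ⟨G.sub_mem hw (G.smul_mem _ hf), ?_⟩
          rw [Polynomial.coeff_sub, Polynomial.coeff_smul, smul_eq_mul, div_mul_cancel₀ _ hlc,
            sub_self]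
        obtain ⟨y, hy⟩ := hspan _ h1
        refine ⟨Fin.cons (w.coeff d / f.coeff d) y, ?_⟩
        rw [Fin.sum_univ_succ]
        simp only [Fin.cons_zero, Fin.cons_succ]
        rw [← hy]
        abel

theorem det_choose_ne {n : ℕ} {d : Fin n → ℕ} (hd : Function.Injective d) :
    (Matrix.of (fun i j : Fin n => ((d i).choose j : ℂ))).det ≠ 0 := by
  have h1 := Matrix.det_eval_matrixOfPolynomials_eq_det_vandermonde (fun i => (d i : ℂ))
    (fun i : Fin n => descPochhammer ℂ i)
    (fun i => descPochhammer_natDegree ℂ i)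
    (fun i => monic_descPochhammer ℂ i)
  have h2 : (Matrix.vandermonde (fun i => (d i : ℂ))).det ≠ 0 :=
    Matrix.det_vandermonde_ne_zero_iff.mpr (fun i j hij => hd (by exact_mod_cast hij))
  intro h3
  apply h2
  rw [h1]
  have h4 : (Matrix.of (fun i j : Fin n => (descPochhammer ℂ j).eval ((d i : ℕ) : ℂ))) =
      Matrix.of (fun i j : Fin n => ((j : ℕ).factorial : ℂ) *
        (Matrix.of (fun i j : Fin n => ((d i).choose j : ℂ))) i j) := by
    ext i j
    rw [Matrix.of_apply, Matrix.of_apply, Matrix.of_apply, descPochhammer_eval_eq_descFactorial,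
      Nat.descFactorial_eq_factorial_mul_choose]
    push_cast
    rfl
  rw [h4, Matrix.det_mul_row, h3, mul_zero]

/-- at some point all orders of vanishing are small -/
theorem exists_ordSub_eq_bot (n : ℕ) (g : Fin n → Polynomial ℂ) (hg : ∀ i, g i ≠ 0)
    (hinj : Function.Injective (fun i => (g i).natDegree)) :
    ∃ c : ℂ, ∀ y : Fin n → ℂ, (∑ i, y i • g i) ∈ ordSub c n → y = 0 := by
  classical
  let R : Matrix (Fin n) (Fin n) (Polynomial ℂ) := fun i k =>
    ∑ j ∈ Finset.range ((g i).natDegree + 1),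
      Polynomial.C ((g i).coeff j * (j.choose k : ℂ)) * Polynomial.X ^ ((g i).natDegree - j)
  have hR0 : R.det.eval 0 ≠ 0 := by
    rw [← Polynomial.coe_evalRingHom, RingHom.map_det]
    have h1 : (Polynomial.evalRingHom (0 : ℂ)).mapMatrix R =
        Matrix.of (fun i j : Fin n => (g i).leadingCoeff *
          (Matrix.of (fun i j : Fin n => (((g i).natDegree).choose j : ℂ))) i j) := by
      ext i k
      rw [RingHom.mapMatrix_apply, Matrix.map_apply, Polynomial.coe_evalRingHom, Matrix.of_apply,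
        Matrix.of_apply]
      simp only [R]
      rw [Polynomial.eval_finsetSum, Finset.sum_range_succ, Finset.sum_eq_zero]
      · rw [zero_add, Nat.sub_self, pow_zero, mul_one, Polynomial.eval_C]
        rfl
      · intro j hj
        rw [Finset.mem_range] at hj
        rw [Polynomial.eval_mul, Polynomial.eval_pow, Polynomial.eval_X, zero_pow (by omega),
          mul_zero]
    rw [h1, Matrix.det_mul_column]
    refine mul_ne_zero (Finset.prod_ne_zero_iff.mpr fun i _ => ?_) (det_choose_ne hinj)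
    exact fun h => hg i (Polynomial.leadingCoeff_eq_zero.mp h)
  obtain ⟨τ, hτ, hτ0⟩ := exists_eval_ne (ne_zero_of_eval hR0)
    (Polynomial.X_ne_zero (R := ℂ))
  rw [Polynomial.eval_X] at hτ0
  refine ⟨τ⁻¹, fun y hy => ?_⟩
  rw [mem_ordSub] at hy
  have hRe : ∀ i (k : Fin n), (R i k).eval τ =
      τ ^ (g i).natDegree * (τ⁻¹) ^ (k : ℕ) * (Polynomial.hasseDeriv k (g i)).eval τ⁻¹ := by
    intro i k
    rw [Polynomial.hasseDeriv_apply, Polynomial.sum_over_range' _ _ ((g i).natDegree + 1)
      (Nat.lt_succ_self _)]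
    · rw [Polynomial.eval_finsetSum (Finset.range ((g i).natDegree + 1)) _ τ⁻¹, Finset.mul_sum]
      simp only [R]
      rw [Polynomial.eval_finsetSum]
      refine Finset.sum_congr rfl (fun j hj => ?_)
      rw [Finset.mem_range] at hj
      rw [Polynomial.eval_mul, Polynomial.eval_C, Polynomial.eval_pow, Polynomial.eval_X,
        Polynomial.eval_monomial]
      rcases Nat.lt_or_ge j k with hjk | hjk
      · rw [Nat.choose_eq_zero_of_lt hjk]
        simp
      · have h1 : τ ^ ((g i).natDegree - j) = τ ^ (g i).natDegree * (τ⁻¹) ^ j := by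
          rw [inv_pow, ← div_eq_mul_inv, eq_div_iff (pow_ne_zero _ hτ0), ← pow_add]
          congr 1
          omega
        have h2 : (τ⁻¹) ^ j = (τ⁻¹) ^ (k : ℕ) * (τ⁻¹) ^ (j - k) := by
          rw [← pow_add]
          congr 1
          omega
        rw [h1, h2]
        ring
    · intro m
      simp
  have hx : Matrix.vecMul (fun i => y i * (τ ^ (g i).natDegree)⁻¹)
      ((Polynomial.evalRingHom τ).mapMatrix R) = 0 := by
    funext k
    rw [Matrix.vecMul, dotProduct, Pi.zero_apply]
    have h1 := hy k k.2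
    rw [map_sum, Polynomial.eval_finsetSum] at h1
    have h2 : ∑ i, y i * (τ ^ (g i).natDegree)⁻¹ *
        ((Polynomial.evalRingHom τ).mapMatrix R) i k =
        (τ⁻¹) ^ (k : ℕ) * ∑ i, (Polynomial.hasseDeriv (k : ℕ) (y i • g i)).eval τ⁻¹ := by
      rw [Finset.mul_sum]
      refine Finset.sum_congr rfl (fun i _ => ?_)
      rw [RingHom.mapMatrix_apply, Matrix.map_apply, Polynomial.coe_evalRingHom, hRe, map_smul,
        Polynomial.eval_smul, smul_eq_mul]
      field_simp
    rw [h2, h1, mul_zero]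
  have hdet : ((Polynomial.evalRingHom τ).mapMatrix R).det ≠ 0 := by
    rw [← RingHom.map_det, Polynomial.coe_evalRingHom]
    exact hτ
  have hx0 : (fun i => y i * (τ ^ (g i).natDegree)⁻¹) = 0 := by
    by_contra hne
    exact hdet (Matrix.exists_vecMul_eq_zero_iff.mp ⟨_, hne, hx⟩)
  funext i
  have h3 := congrFun hx0 i
  simp only [Pi.zero_apply] at h3
  exact (mul_eq_zero.mp h3).resolve_right (inv_ne_zero (pow_ne_zero _ hτ0))

theorem order_point (G : Submodule ℂ (Polynomial ℂ)) [hG : Module.Finite ℂ G] :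
    ∃ c : ℂ, ∀ A, finrank ℂ ↥(G ⊓ ordSub c A) ≤ finrank ℂ G - A := by
  classical
  obtain ⟨n, hn, g, hg, hinj, hspan⟩ := exists_gens _ G hG le_rfl
  obtain ⟨c, hc⟩ := exists_ordSub_eq_bot n g (fun i => (hg i).2) hinj
  refine ⟨c, fun A => ?_⟩
  set m := finrank ℂ G with hm
  have hbot : ∀ f ∈ G, f ∈ ordSub c m → f = 0 := by
    intro f hf hf'
    obtain ⟨y, hy⟩ := hspan f hf
    have h1 : f ∈ ordSub c n := fun k hk => hf' k (by omega)
    rw [hy] at h1
    rw [hy, hc y h1]
    simp
  have hfin : Module.Finite ℂ ↥(G ⊓ ordSub c A) := Submodule.finiteDimensional_of_le inf_le_left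
  let φ : Polynomial ℂ →ₗ[ℂ] (Fin (m - A) → ℂ) := LinearMap.pi (fun k =>
    (Polynomial.leval c) ∘ₗ (Polynomial.hasseDeriv (A + k)))
  have hφ : ∀ f k, φ f k = (Polynomial.hasseDeriv (A + k) f).eval c := fun f k => rfl
  have hinj' : Function.Injective (φ ∘ₗ (G ⊓ ordSub c A).subtype) := by
    rw [← LinearMap.ker_eq_bot, Submodule.eq_bot_iff]
    intro f hf
    rw [LinearMap.mem_ker, LinearMap.comp_apply] at hf
    apply Subtype.ext
    apply hbot
    · exact (Submodule.mem_inf.mp f.2).1
    · rw [mem_ordSub]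
      intro k hk
      rcases Nat.lt_or_ge k A with hkA | hkA
      · exact mem_ordSub.mp (Submodule.mem_inf.mp f.2).2 k hkA
      · have h2 := congrFun hf ⟨k - A, by omega⟩
        rw [hφ] at h2
        have h3 : A + (k - A) = k := by omega
        simp only [Submodule.subtype_apply, Pi.zero_apply, h3] at h2
        exact h2
  have h4 := LinearMap.finrank_le_finrank_of_injective hinj'
  rw [Module.finrank_fin_fun] at h4
  exact h4

theorem order_generic (G : Submodule ℂ (Polynomial ℂ)) [Module.Finite ℂ G] (A : ℕ) :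
    ∃ h : Polynomial ℂ, h ≠ 0 ∧ ∀ c, h.eval c ≠ 0 →
      finrank ℂ ↥(G ⊓ ordSub c A) ≤ finrank ℂ G - A := by
  classical
  obtain ⟨c₀, hc₀⟩ := order_point G
  let P : Polynomial ℂ →ₗ[ℂ] (Fin A → Polynomial ℂ) :=
    LinearMap.pi (fun k => Polynomial.hasseDeriv (k : ℕ))
  have hP : ∀ c, Z P c = ordSub c A := by
    intro c
    ext f
    rw [mem_Z, mem_ordSub]
    constructor
    · intro h k hk
      exact h ⟨k, hk⟩
    · intro h k
      exact h k k.2
  obtain ⟨h, hh, h1⟩ := semicont P G c₀
  refine ⟨h, ne_zero_of_eval hh, fun c hc => ?_⟩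
  have h2 := h1 c hc
  rw [hP, hP] at h2
  exact h2.trans (hc₀ A)

end Pool.Agent.Work.MP_0421d9_ag.LD
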