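import Pool.Agent.Work.MP_0421d9_ag.Core3

/-!
Smoothness of the rigid member away from the multiple points.
-/

set_option linter.unusedSectionVars false

namespace Pool.Agent.Work.MP_0421d9_ag

open MvPolynomial

variable {ι κ : Type} [Fintype ι] [Fintype κ] [DecidableEq ι] [DecidableEq κ]

variable {d : ℕ} {P : ι ⊕ κ → V3} {E : ι ⊕ κ → Fin 3 → Derivation ℚ ℂ ℂ} {m : ι → ℕ} {F : R3}

theorem cr_zero_right (p : V3) : cr p 0 = 0 := by
  ext l
  fin_cases l <;> simp [cr]

namespace Rigid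

/-- the rigid member is smooth away from the multiple points -/
theorem no_singularity (S : Rigid d P E m F) (hsq : Squarefree F) {a b c : ι} (hab : a ≠ b)
    (hac : a ≠ c) (hbc : b ≠ c) (hex : ∃ e, e ≠ a ∧ e ≠ b ∧ e ≠ c)
    (hfull : ∀ j, j ≠ a → j ≠ b → j ≠ c → 3 ≤ m j → Full d (fun i => P (Sum.inl i)) m j)
    {q : V3} (hq : ∀ i : ι, cr (P (Sum.inl i)) q ≠ 0) (hq0 : eval q F = 0)
    (hsing : ∀ k, eval q (pderiv k F) = 0) : False := by
  set p : ι → V3 := fun i => P (Sum.inl i) with hp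
  have hN : ∀ G ∈ HH m, Psi d p m G = 0 → G = 0 := fun G hG h0 =>
    S.unique_rel hsq hab hac hbc hfull hG h0
  have hqne : q ≠ 0 := by
    intro h
    apply hq a
    rw [h, cr_zero_right]
  have hd : 1 ≤ d := by
    by_contra hc
    have hd0 : d = 0 := by omega
    have h1 := S.hom
    rw [hd0] at h1
    have h0 : F = C (coeff 0 F) :=
      (MvPolynomial.totalDegree_eq_zero_iff_eq_C).mp (Nat.le_zero.mp h1.totalDegree_le)
    rw [h0, eval_C] at hq0
    rw [hq0, C_0] at h0
    exact S.hF0 h0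
  obtain ⟨d', rfl⟩ : ∃ d', d = d' + 1 := ⟨d - 1, by omega⟩
  have hdne : ((d' + 1 : ℕ) : ℂ) ≠ 0 := by
    rw [Nat.cast_ne_zero]; omega
  -- the singularity in terms of the pairing
  have hBq : B (lin q ^ (d' + 1)) F = 0 := by
    rw [B_lin_pow S.hom, hq0, mul_zero]
  have hBw : ∀ w, B (lin q ^ d' * lin w) F = 0 := by
    intro w
    have h1 : (dir w F).IsHomogeneous d' := by
      simpa using dir_isHomogeneous w S.hom
    rw [mul_comm, B_lin_mul, B_lin_pow h1, dir_apply, map_sum]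
    have h2 : ∑ k, eval q (C (w k) * pderiv k F) = 0 := by
      refine Finset.sum_eq_zero (fun k _ => ?_)
      rw [map_mul, hsing k, mul_zero]
    rw [h2, mul_zero]
  have hcDq : ∀ D : Derivation ℚ ℂ ℂ, cD D (lin q ^ (d' + 1)) =
      C ((d' + 1 : ℕ) : ℂ) * (lin q ^ d' * lin (fun l => D (q l))) := by
    intro D
    rw [cD_lin_pow_eq, Nat.add_sub_cancel]
  -- step 1
  have hJ : lin q ^ (d' + 1) ∈ J (d' + 1) p m := by
    apply S.memJ (lin_isHomogeneous_pow q (d' + 1)) hBq
    intro k v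
    have h1 := D_B (mv E (Sum.inr k) v) (lin q ^ (d' + 1)) F
    rw [hBq, map_zero, hcDq, B_C_mul_left, hBw, mul_zero, zero_add] at h1
    exact h1.symm
  obtain ⟨G, hG', hGq⟩ := mem_J.mp hJ
  have hG : G ∈ HH m := mem_HH.mpr hG'
  rw [← Psi_apply] at hGq
  -- step 2
  have hT : ∃ w, cr q w ≠ 0 ∧ lin q ^ d' * lin w ∈ J (d' + 1) p m := by
    by_contra hcon
    push Not at hcon
    have hT' : ∀ w, lin q ^ d' * lin w ∈ J (d' + 1) p m → cr q w = 0 := by
      intro w hw
      by_contra h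
      exact hcon w h hw
    have hprop : ∀ k v, ∃ c : ℂ, (fun l => mv E (Sum.inr k) v (q l)) = c • q := by
      intro k v
      apply exists_smul_of_cr_eq_zero hqne
      apply hT'
      apply mem_of_C_mul_mem hdne
      rw [← hcDq, ← hGq, cD_Psi_fixed S.hE]
      exact Psi_mem_J (HH_cD _ hG)
    obtain ⟨w, hw⟩ := exists_cr_ne hqne
    apply hw
    apply hT'
    apply S.memJ _ (hBw w)
    · intro k v
      obtain ⟨c, hc⟩ := hprop k v
      have h1 := D_B (mv E (Sum.inr k) v) (lin q ^ d' * lin w) F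
      rw [hBw, map_zero, cD_mul, cD_lin_pow_prop hc, cD_lin, map_add, LinearMap.add_apply,
        mul_assoc, B_C_mul_left, hBw, hBw, mul_zero, zero_add, zero_add] at h1
      exact h1.symm
    · exact (lin_isHomogeneous_pow q d').mul (lin_isHomogeneous w)
  obtain ⟨w₀, hw₀, hw₀J⟩ := hT
  -- step 3: divisibility of the components
  have hdivG : ∀ j, j ≠ a → j ≠ b → j ≠ c → lin (p j) ∣ G j := by
    intro j hja hjb hjc
    have hκ : ((d' + 1 + 1 - m j : ℕ) : ℂ) ≠ 0 := by
      rw [Nat.cast_ne_zero]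
      have := S.hm j
      omega
    have h1 : ∀ v, C ((d' + 1 + 1 - m j : ℕ) : ℂ) * (lin (p j) ^ (d' + 1 - m j) * (lin v * G j)) =
        C ((d' + 1 : ℕ) : ℂ) * (lin q ^ d' * lin (fun l => mv E (Sum.inl j) v (q l))) -
          Psi (d' + 1) p m (fun i => cD (mv E (Sum.inl j) v) (G i)) := by
      intro v
      have h2 := cD_Psi S.hE S.hm (G := G) j v
      rw [hGq, hcDq] at h2
      rw [h2]
      ring
    apply S.div hsq (hfull j hja hjb hjc) (hG' j)
    · intro v
      have h2 := congrArg (fun z => B z F) (h1 v)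
      simp only [map_sub, LinearMap.sub_apply, B_C_mul_left] at h2
      rw [hBw, mul_zero, S.B_J (Psi_mem_J (HH_cD _ hG)), sub_zero] at h2
      exact (mul_eq_zero.mp h2).resolve_left hκ
    · obtain ⟨v, hv0, hv⟩ := exists_ker_ne (gp1 S.hE (Sum.inl j))
        (evQ (QL E (Sum.inl j) q) (cr q w₀))
      refine ⟨v, hv, ?_⟩
      apply mem_of_C_mul_mem hκ
      rw [h1 v]
      apply Submodule.sub_mem _ _ (Psi_mem_J (HH_cD _ hG))
      apply C_mul_mem
      obtain ⟨s, t, hst⟩ := exists_comb hw₀ (show eval (QL E (Sum.inl j) q v) (xl q w₀) = 0 from hv0)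
      rw [show (fun l => mv E (Sum.inl j) v (q l)) = s • q + t • w₀ from hst, lin_add, lin_smul,
        lin_smul, mul_add]
      apply Submodule.add_mem
      · have : lin q ^ d' * (C s * lin q) = C s * lin q ^ (d' + 1) := by
          rw [pow_succ]; ring
        rw [this]
        exact C_mul_mem _ hJ
      · have : lin q ^ d' * (C t * lin w₀) = C t * (lin q ^ d' * lin w₀) := by ring
        rw [this]
        exact C_mul_mem _ hw₀J
  -- factorisations
  have hfact : ∀ j, j ≠ a → j ≠ b → j ≠ c → G j ≠ 0 → ∃ (s e : ℕ) (G' : R3),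
      G j = lin (p j) ^ (s + 1) * G' ∧ G'.IsHomogeneous e ∧ m j = s + 1 + e + 1 ∧
      ¬ lin (p j) ∣ G' := by
    intro j hja hjb hjc hne
    have h1 := hG' j
    rcases Nat.eq_zero_or_pos (m j) with hz | hz
    · rw [hz, mem_Hm_zero] at h1
      exact absurd h1 hne
    · obtain ⟨n, hn⟩ : ∃ n, m j = n + 1 := ⟨m j - 1, by omega⟩
      rw [hn, mem_Hm_succ] at h1
      obtain ⟨s, e, G', hse, hjG, hhom, hnd⟩ :=
        exists_lin_factorization (p := p j) n (G j) h1 hne
      cases s with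
      | zero =>
        exfalso
        apply hnd
        have := hdivG j hja hjb hjc
        rwa [hjG, pow_zero, one_mul] at this
      | succ s => exact ⟨s, e, G', hjG, hhom, by omega, hnd⟩
  -- step 4: at most one nonzero component outside
  have huniq : ∀ j j', j ≠ a → j ≠ b → j ≠ c → j' ≠ a → j' ≠ b → j' ≠ c → j ≠ j' →
      G j ≠ 0 → G j' ≠ 0 → False := by
    intro j j' hja hjb hjc hja' hjb' hjc' hjj hj hj'
    obtain ⟨s, e, G₁, h1, h2, h3, h4⟩ := hfact j hja hjb hjc hj
    obtain ⟨s', e', G₂, h1', h2', h3', h4'⟩ := hfact j' hja' hjb' hjc' hj'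
    obtain ⟨v, hv⟩ := exists_cr_ne (gp1 S.hE (Sum.inl j))
    -- the motion of `j'` moves `q` in all directions
    have hsurj := exists_solution (gp1 S.hE (Sum.inl j')) hqne (QL E (Sum.inl j') q) (by
      intro v' c' hv'
      by_contra hcr
      have hv'' : (fun l => mv E (Sum.inl j') v' (q l)) = c' • q := hv'
      refine S.contra hN hG h1' h2' h3' h4' hcr (X := (((d' + 1 : ℕ) : ℂ) * c') • G)
        (Submodule.smul_mem _ _ hG) ?_ ?_
      · change Psi (d' + 1) p m _ = cD _ (Psi (d' + 1) p m G)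
        rw [map_smul, hGq, hcDq, hv'', lin_smul, smul_eq_C_mul, map_mul, pow_succ]
        ring
      · rw [Pi.smul_apply, smul_eq_C_mul, h1']
        exact Dvd.dvd.mul_left (Dvd.intro _ rfl) _)
      (QL E (Sum.inl j) q v)
    obtain ⟨v', c', hvc⟩ := hsurj
    have hvc' : (fun l => mv E (Sum.inl j') v' (q l)) =
        (fun l => mv E (Sum.inl j) v (q l)) + c' • q := hvc
    have h5 := cD_Psi_div (m := m) (d := d' + 1) S.hE j' v' h1'
    set Y := Function.update (fun i => cD (mv E (Sum.inl j') v') (G i)) j'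
          (lin (P (Sum.inl j')) ^ s' * (C ((d' + 1 + 1 - m j' + (s' + 1) : ℕ) : ℂ) *
            (lin v' * G₂) + lin (P (Sum.inl j')) * cD (mv E (Sum.inl j') v') G₂)) with hY
    have hYm : Y ∈ HH m := update_mem_HH (mv E (Sum.inl j') v') hG
        (comp_mem_Hm (mv E (Sum.inl j') v') _ h2' h3')
    refine S.contra hN hG h1 h2 h3 h4 hv (X := Y - (((d' + 1 : ℕ) : ℂ) * c') • G)
      (Submodule.sub_mem _ hYm (Submodule.smul_mem _ _ hG)) ?_ ?_
    · change Psi (d' + 1) p m _ = cD _ (Psi (d' + 1) p m G)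
      have h5' : cD (mv E (Sum.inl j') v') (Psi (d' + 1) p m G) = Psi (d' + 1) p m Y := h5
      rw [map_sub, ← h5', map_smul, hGq, hcDq, hcDq, hvc', lin_add, lin_smul, smul_eq_C_mul,
        map_mul, pow_succ]
      ring
    · rw [Pi.sub_apply, hY, Function.update_of_ne hjj, Pi.smul_apply, smul_eq_C_mul, h1, cD_mul,
        cD_lin_pow_ne S.hE (by simpa using hjj), zero_mul, zero_add]
      exact dvd_sub (Dvd.intro _ rfl) (Dvd.dvd.mul_left (Dvd.intro _ rfl) _)
  -- step 5: the relation is supported on four points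
  obtain ⟨e, hea, heb, hec, hrest⟩ : ∃ e, e ≠ a ∧ e ≠ b ∧ e ≠ c ∧
      ∀ i, i ≠ a → i ≠ b → i ≠ c → i ≠ e → G i = 0 := by
    by_cases h : ∃ j, j ≠ a ∧ j ≠ b ∧ j ≠ c ∧ G j ≠ 0
    · obtain ⟨j, hja, hjb, hjc, hj⟩ := h
      refine ⟨j, hja, hjb, hjc, fun i hia hib hic hij => ?_⟩
      by_contra hi
      exact huniq i j hia hib hic hja hjb hjc hij hi hj
    · push Not at h
      obtain ⟨e, hea, heb, hec⟩ := hex
      exact ⟨e, hea, heb, hec, fun i hia hib hic _ => h i hia hib hic⟩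
  obtain ⟨Ge, hGe⟩ := hdivG e hea heb hec
  refine S.test_four hsq hab hac hea.symm hbc heb.symm hec.symm hq hsing (Ga := G a) (Gb := G b)
    (Gc := G c) (Ge := Ge) ?_ ?_
  · intro he
    have h1 := hG' e
    rw [he, mem_Hm_zero, hGe] at h1
    exact (mul_eq_zero.mp h1).resolve_left (lin_prime (gp1 S.hE (Sum.inl e))).ne_zero
  · rw [← hGq, Psi_apply]
    have h1 := sum_eq_four (f := fun i => lin (p i) ^ (d' + 1 + 1 - m i) * G i) hab hac hea.symm
      hbc heb.symm hec.symm (by
        intro i hia hib hic hie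
        rw [hrest i hia hib hic hie, mul_zero])
    rw [h1, hGe]

end Rigid

end Pool.Agent.Work.MP_0421d9_ag
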