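import Mathlib

/-!
Places of the field of complex numbers with prescribed values at algebraically independent
elements.
-/

namespace Pool.Agent.Work.MP_0421d9_ag

open MvPolynomial Cardinal

/-- a place of the field of complex numbers, with values in the complex numbers: `L a b` says that
`a` is finite at the place and has the value `b` -/
structure Pl where
  L : ℂ → ℂ → Prop
  one : L 1 1
  neg : ∀ {a b}, L a b → L (-a) (-b)
  add : ∀ {a b a' b'}, L a b → L a' b' → L (a + a') (b + b')
  mul : ∀ {a b a' b'}, L a b → L a' b' → L (a * a') (b * b')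
  fn : ∀ {a b b'}, L a b → L a b' → b = b'
  tot : ∀ a, (∃ b, L a b) ∨ L a⁻¹ 0

/-- a field of cardinality at most the continuum embeds into the complex numbers, over a countable
domain -/
theorem exists_embed {R k : Type} [CommRing R] [IsDomain R] [Field k] [Algebra R k]
    [FaithfulSMul R k] [Algebra R ℂ] [FaithfulSMul R ℂ] (hR : #R ≤ ℵ₀) (hk : #k ≤ 𝔠) :
    Nonempty (k →ₐ[R] ℂ) := by
  obtain ⟨s, hs⟩ := exists_isTranscendenceBasis R k
  obtain ⟨t, ht⟩ := exists_isTranscendenceBasis R ℂ
  have hC : ℵ₀ < #ℂ := by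
    rw [Cardinal.mk_complex]
    exact aleph0_lt_continuum
  have h1 : #ℂ = #t :=
    IsAlgClosed.cardinal_eq_cardinal_transcendence_basis_of_aleph0_lt' _ ht hR hC
  have h2 : #s ≤ #t := by
    rw [← h1, Cardinal.mk_complex]
    exact (Cardinal.mk_set_le s).trans hk
  obtain ⟨f⟩ := h2
  have hw : AlgebraicIndependent R (fun a : s => ((f a : t) : ℂ)) := ht.1.comp f f.injective
  let S := Algebra.adjoin R (Set.range (Subtype.val : s → k))
  let φ : S →ₐ[R] ℂ := (aeval (fun a : s => ((f a : t) : ℂ))).comp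
    (hs.1.aevalEquiv.symm : S →ₐ[R] MvPolynomial s R)
  have hφ : Function.Injective φ := by
    intro a b hab
    apply hs.1.aevalEquiv.symm.injective
    exact hw hab
  let _ : Algebra S ℂ := φ.toRingHom.toAlgebra
  have : IsScalarTower R S ℂ := IsScalarTower.of_algebraMap_eq (fun r => (φ.commutes r).symm)
  have : Algebra.IsAlgebraic S k := hs.isAlgebraic
  have : FaithfulSMul S ℂ := (faithfulSMul_iff_algebraMap_injective S ℂ).mpr hφ
  have : Module.IsTorsionFree S ℂ := inferInstance
  have : Module.IsTorsionFree S k := inferInstance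
  let g : k →ₐ[S] ℂ := IsAlgClosed.lift
  exact ⟨g.restrictScalars R⟩

/-- places with prescribed values at algebraically independent elements -/
theorem exists_place {ι : Type} [Finite ι] (x : ι → ℂ) (hx : AlgebraicIndependent ℚ x)
    (y : ι → ℂ) : ∃ P : Pl, ∀ i, P.L (x i) (y i) := by
  let f : MvPolynomial ι ℚ →+* ℂ := (aeval x : MvPolynomial ι ℚ →ₐ[ℚ] ℂ).toRingHom
  let g : MvPolynomial ι ℚ →+* ℂ := (aeval y : MvPolynomial ι ℚ →ₐ[ℚ] ℂ).toRingHom
  have hf : Function.Injective f := hx
  let A : Subring ℂ := f.range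
  let e : MvPolynomial ι ℚ ≃+* A := RingEquiv.ofBijective f.rangeRestrict
    ⟨fun a b h => hf (congrArg Subtype.val h), f.rangeRestrict_surjective⟩
  have he : ∀ p, ((e p : A) : ℂ) = f p := fun p => rfl
  have hker : (RingHom.ker g).IsPrime := RingHom.ker_isPrime g
  let P : Ideal A := (RingHom.ker g).comap (e.symm : A →+* MvPolynomial ι ℚ)
  have hP : P.IsPrime := Ideal.IsPrime.comap _
  have hPm : ∀ p, e p ∈ P ↔ g p = 0 := by
    intro p
    change e.symm (e p) ∈ RingHom.ker g ↔ _
    rw [RingEquiv.symm_apply_apply, RingHom.mem_ker]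
  obtain ⟨V, hV⟩ := (LocalSubring.ofPrime A P).exists_le_valuationSubring
  obtain ⟨hV1, hV2⟩ := hV
  have hAV : A ≤ V.toSubring := (LocalSubring.le_ofPrime A P).trans hV1
  have hmem : ∀ p, f p ∈ V := fun p => hAV ⟨p, rfl⟩
  let ψ : MvPolynomial ι ℚ →+* IsLocalRing.ResidueField V :=
    (IsLocalRing.residue V).comp (f.codRestrict V hmem)
  have hψ : ∀ p, ψ p = 0 ↔ g p = 0 := by
    intro p
    have h1 : IsUnit (algebraMap A (LocalSubring.ofPrime A P).toSubring (e p)) ↔ g p ≠ 0 := by
      rw [IsLocalization.AtPrime.isUnit_to_map_iff (LocalSubring.ofPrime A P).toSubring P,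
        Ideal.mem_primeCompl_iff, hPm]
    have h2 : IsUnit (f.codRestrict V hmem p) ↔
        IsUnit (algebraMap A (LocalSubring.ofPrime A P).toSubring (e p)) := by
      constructor
      · intro h
        exact hV2.map_nonunit _ h
      · intro h
        exact h.map (Subring.inclusion hV1)
    change IsLocalRing.residue V (f.codRestrict V hmem p) = 0 ↔ _
    rw [IsLocalRing.residue_eq_zero_iff, IsLocalRing.mem_maximalIdeal, mem_nonunits_iff, h2, h1,
      not_not]
  let R := MvPolynomial ι ℚ ⧸ RingHom.ker g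
  have : IsDomain R := Ideal.Quotient.isDomain _
  let gk : R →+* IsLocalRing.ResidueField V :=
    Ideal.Quotient.lift (RingHom.ker g) ψ (fun a ha => (hψ a).mpr ha)
  let gC : R →+* ℂ := Ideal.Quotient.lift (RingHom.ker g) g (fun a ha => ha)
  have hgk : Function.Injective gk := by
    rw [injective_iff_map_eq_zero]
    intro a ha
    obtain ⟨p, rfl⟩ := Ideal.Quotient.mk_surjective a
    rw [Ideal.Quotient.lift_mk, hψ] at ha
    exact Ideal.Quotient.eq_zero_iff_mem.mpr ha
  have hgC : Function.Injective gC := by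
    rw [injective_iff_map_eq_zero]
    intro a ha
    obtain ⟨p, rfl⟩ := Ideal.Quotient.mk_surjective a
    have ha' : g p = 0 := ha
    exact Ideal.Quotient.eq_zero_iff_mem.mpr ha'
  let _ : Algebra R (IsLocalRing.ResidueField V) := gk.toAlgebra
  let _ : Algebra R ℂ := gC.toAlgebra
  have : FaithfulSMul R (IsLocalRing.ResidueField V) :=
    (faithfulSMul_iff_algebraMap_injective _ _).mpr hgk
  have : FaithfulSMul R ℂ := (faithfulSMul_iff_algebraMap_injective _ _).mpr hgC
  have hR : #R ≤ ℵ₀ := by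
    have h1 : #R ≤ #(MvPolynomial ι ℚ) := Cardinal.mk_le_of_surjective Ideal.Quotient.mk_surjective
    refine h1.trans (MvPolynomial.cardinalMk_le_max.trans ?_)
    simp
  have hk : #(IsLocalRing.ResidueField V) ≤ 𝔠 := by
    refine (Cardinal.mk_le_of_surjective (IsLocalRing.residue_surjective (R := V))).trans ?_
    rw [← Cardinal.mk_complex]
    exact Cardinal.mk_subtype_le _
  obtain ⟨φ⟩ := exists_embed (R := R) (k := IsLocalRing.ResidueField V) hR hk
  have hφ : ∀ p, φ (ψ p) = g p := by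
    intro p
    have h1 : algebraMap R (IsLocalRing.ResidueField V) (Ideal.Quotient.mk _ p) = ψ p := rfl
    have h2 : algebraMap R ℂ (Ideal.Quotient.mk _ p) = g p := rfl
    rw [← h1, φ.commutes, h2]
  refine ⟨⟨fun a b => ∃ h : a ∈ V, φ (IsLocalRing.residue V ⟨a, h⟩) = b, ?_, ?_, ?_, ?_, ?_, ?_⟩,
    ?_⟩
  · exact ⟨V.one_mem, by
      have : (⟨1, V.one_mem⟩ : V) = 1 := rfl
      rw [this, map_one, map_one]⟩
  · rintro a b ⟨h, rfl⟩
    refine ⟨V.neg_mem _ h, ?_⟩
    have : (⟨-a, V.neg_mem _ h⟩ : V) = -⟨a, h⟩ := rfl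
    rw [this, map_neg, map_neg]
  · rintro a b a' b' ⟨h, rfl⟩ ⟨h', rfl⟩
    refine ⟨V.add_mem _ _ h h', ?_⟩
    have : (⟨a + a', V.add_mem _ _ h h'⟩ : V) = ⟨a, h⟩ + ⟨a', h'⟩ := rfl
    rw [this, map_add, map_add]
  · rintro a b a' b' ⟨h, rfl⟩ ⟨h', rfl⟩
    refine ⟨V.mul_mem _ _ h h', ?_⟩
    have : (⟨a * a', V.mul_mem _ _ h h'⟩ : V) = ⟨a, h⟩ * ⟨a', h'⟩ := rfl
    rw [this, map_mul, map_mul]
  · rintro a b b' ⟨h, rfl⟩ ⟨h', rfl⟩
    rfl
  · intro a
    by_cases ha : a ∈ V
    · exact Or.inl ⟨_, ha, rfl⟩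
    · right
      have hi : a⁻¹ ∈ V := (V.mem_or_inv_mem a).resolve_left ha
      refine ⟨hi, ?_⟩
      have h1 : IsLocalRing.residue V ⟨a⁻¹, hi⟩ = 0 := by
        rw [IsLocalRing.residue_eq_zero_iff, IsLocalRing.mem_maximalIdeal, mem_nonunits_iff]
        intro hu
        obtain ⟨⟨b, hb⟩, h⟩ := isUnit_iff_exists_inv.mp hu
        apply ha
        have h2 : a⁻¹ * b = 1 := congrArg Subtype.val h
        have h3 : a ≠ 0 := by
          rintro rfl
          exact ha V.zero_mem
        have h4 : b = a := by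
          field_simp at h2
          exact h2
        rw [← h4]
        exact hb
      rw [h1, map_zero]
  · intro i
    refine ⟨?_, ?_⟩
    · have := hmem (X i)
      have h2 : f (X i) = x i := aeval_X x i
      rwa [h2] at this
    · have h2 : f (X i) = x i := aeval_X x i
      have h3 : g (X i) = y i := aeval_X y i
      have h4 : x i ∈ V := by
        rw [← h2]
        exact hmem (X i)
      have h5 : (⟨x i, h4⟩ : V) = f.codRestrict V hmem (X i) := Subtype.ext h2.symm
      rw [← h3, ← hφ, h5]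
      rfl

end Pool.Agent.Work.MP_0421d9_ag
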