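import Pool.Agent.Work.MP_0421d9_ag.ROutside

/-!
Transversality to the exceptional curves, when the points are dropped one after the other.
-/

set_option linter.unusedSectionVars false

namespace Pool.Agent.Work.MP_0421d9_ag

open MvPolynomial

variable {ι κ : Type} [Fintype ι] [Fintype κ] [DecidableEq ι] [DecidableEq κ]

variable {d : ℕ} {P : ι ⊕ κ → V3} {E : ι ⊕ κ → Fin 3 → Derivation ℚ ℂ ℂ} {m : ι → ℕ} {F : R3}

namespace Rigid

/-- the components of a bad direction vanish at the points of larger rank -/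
theorem bad_kill (S : Rigid d P E m F) (hsq : Squarefree F) {a b c : ι} (hab : a ≠ b)
    (hac : a ≠ c) (hbc : b ≠ c) {ρ : ι → ℕ}
    (hfull : HF d (fun i => P (Sum.inl i)) m ρ a b c) {i : ι} {u : V3}
    (hu : cr (P (Sum.inl i)) u ≠ 0) (h : BadDir d F (P (Sum.inl i)) (m i) u) (hz : 0 < m i)
    {G : ι → R3} (hG' : ∀ i, G i ∈ Hm (m i))
    (hGq : Psi d (fun i => P (Sum.inl i)) m G =
      lin (P (Sum.inl i)) ^ (d - m i) * lin u ^ m i) :
    ∀ j, j ≠ a → j ≠ b → j ≠ c → j ≠ i → (i = a ∨ i = b ∨ i = c ∨ ρ i < ρ j) → G j = 0 := by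
  set p : ι → V3 := fun i => P (Sum.inl i) with hp
  have hN : ∀ G ∈ HH m, Psi d p m G = 0 → G = 0 := fun G hG h0 =>
    S.unique_rel' hsq hab hac hbc hfull hG h0
  have hG : G ∈ HH m := mem_HH.mpr hG'
  have hma : lin u ^ (m i - 1) ∈ Hm (m i) := by
    obtain ⟨n, hn⟩ : ∃ n, m i = n + 1 := ⟨m i - 1, by omega⟩
    rw [hn, mem_Hm_succ, Nat.add_sub_cancel]
    exact lin_isHomogeneous_pow u n
  -- the derivative along the motion of another point
  have hcD : ∀ j, j ≠ i → ∀ v, cD (mv E (Sum.inl j) v) (Psi d p m G) =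
      C (m i : ℂ) * (lin (p i) ^ (d - m i) * (lin u ^ (m i - 1) *
        lin (fun l => mv E (Sum.inl j) v (u l)))) := by
    intro j hj v
    rw [hGq, cD_mul, cD_lin_pow_ne S.hE (by simpa using hj.symm), zero_mul, zero_add,
      cD_lin_pow_eq]
    ring
  -- expression when the derivative of `u` lies in the plane of `p i` and `u`
  have hexp : ∀ (s t : ℂ), C (m i : ℂ) * (lin (p i) ^ (d - m i) * (lin u ^ (m i - 1) *
        lin (s • p i + t • u))) =
      lin (p i) ^ (d + 1 - m i) * (C ((m i : ℂ) * s) * lin u ^ (m i - 1)) +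
        C ((m i : ℂ) * t) * (lin (p i) ^ (d - m i) * lin u ^ m i) := by
    intro s t
    have e1 : lin (p i) ^ (d + 1 - m i) = lin (p i) ^ (d - m i) * lin (p i) := by
      rw [← pow_succ]
      congr 1
      have := S.hm i
      omega
    have e2 : lin u ^ m i = lin u ^ (m i - 1) * lin u := by
      rw [← pow_succ]
      congr 1
      omega
    rw [e1, e2, lin_add, lin_smul, lin_smul, map_mul, map_mul]
    ring
  -- good directions for `j`
  have hgood : ∀ j, ∃ (v : V3) (s t : ℂ), cr (p j) v ≠ 0 ∧
      (fun l => mv E (Sum.inl j) v (u l)) = s • p i + t • u := by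
    intro j
    obtain ⟨v, hv0, hv⟩ := exists_ker_ne (gp1 S.hE (Sum.inl j))
        (evQ (QL E (Sum.inl j) u) (cr (p i) u))
    obtain ⟨s, t, hst⟩ := exists_comb hu
      (show eval (QL E (Sum.inl j) u v) (xl (p i) u) = 0 from hv0)
    exact ⟨v, s, t, hv, hst⟩
  set R := Finset.univ.sup ρ + 1 with hR
  have hρ : ∀ j, ρ j < R := fun j => Nat.lt_succ_of_le (Finset.le_sup (Finset.mem_univ j))
  have key : ∀ t, ∀ j, j ≠ a → j ≠ b → j ≠ c → j ≠ i → (i = a ∨ i = b ∨ i = c ∨ ρ i < ρ j) →
      R - ρ j ≤ t → G j = 0 := by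
    intro t
    induction t with
    | zero =>
      intro j _ _ _ _ _ ht
      have := hρ j
      omega
    | succ t ih =>
      intro j hja hjb hjc hji hij ht
      have hsupp : ∀ l, ¬ KW ρ a b c (ρ j) j l → G l = 0 := by
        intro l hl
        unfold KW at hl
        push Not at hl
        obtain ⟨h2, h3, h4, h5, h6⟩ := hl
        refine ih l h3 h4 h5 ?_ ?_ ?_
        · rintro rfl
          rcases hij with h7 | h7 | h7 | h7
          · exact h3 h7
          · exact h4 h7
          · exact h5 h7
          · omega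
        · rcases hij with h7 | h7 | h7 | h7
          · exact Or.inl h7
          · exact Or.inr (Or.inl h7)
          · exact Or.inr (Or.inr (Or.inl h7))
          · exact Or.inr (Or.inr (Or.inr (by omega)))
        · have := hρ l
          omega
      have hWi : KW ρ a b c (ρ j) j i := by
        rcases hij with h7 | h7 | h7 | h7
        · exact Or.inr (Or.inl h7)
        · exact Or.inr (Or.inr (Or.inl h7))
        · exact Or.inr (Or.inr (Or.inr (Or.inl h7)))
        · exact Or.inl h7.le
      have hκ : ((d + 1 - m j : ℕ) : ℂ) ≠ 0 := by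
        rw [Nat.cast_ne_zero]
        have := S.hm j
        omega
      have h1 : ∀ v, C ((d + 1 - m j : ℕ) : ℂ) * (lin (p j) ^ (d - m j) * (lin v * G j)) =
          C (m i : ℂ) * (lin (p i) ^ (d - m i) * (lin u ^ (m i - 1) *
          lin (fun l => mv E (Sum.inl j) v (u l)))) -
            Psi d p m (fun i => cD (mv E (Sum.inl j) v) (G i)) := by
        intro v
        have h2 := cD_Psi S.hE S.hm (G := G) j v
        rw [← hcD j hji v]
        have h2' : cD (mv E (Sum.inl j) v) (Psi d p m G) =
          C ((d + 1 - m j : ℕ) : ℂ) * (lin (p j) ^ (d - m j) * (lin v * G j)) +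
          Psi d p m (fun i => cD (mv E (Sum.inl j) v) (G i)) := h2
        rw [h2']
        ring
      have hdiv : lin (p j) ∣ G j := by
        apply S.div' hsq (W := KW ρ a b c (ρ j) j) (Or.inl le_rfl)
          (fun h3 => hfull j hja hjb hjc h3 j) (hG' j)
        · intro v
          have h2 := congrArg (fun z => B z F) (h1 v)
          simp only [map_sub, LinearMap.sub_apply, B_C_mul_left] at h2
          rw [h.2 hz, mul_zero, S.B_J (Psi_mem_J (HH_cD _ hG)), sub_zero] at h2
          exact (mul_eq_zero.mp h2).resolve_left hκ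
        · intro _
          obtain ⟨v, s, t', hv, hst⟩ := hgood j
          refine ⟨v, hv, ?_⟩
          apply mem_of_C_mul_mem hκ
          have h1v := h1 v
          change C ((d + 1 - m j : ℕ) : ℂ) * (lin (p j) ^ (d - m j) * (lin v * G j)) ∈ _
          rw [h1v, hst, hexp]
          have hDG : Psi d p m (fun i => cD (mv E (Sum.inl j) v) (G i)) ∈
              J d p (rs (KW ρ a b c (ρ j) j) m) := by
            apply Psi_mem_J_rs (HH_cD _ hG)
            intro l hl
            change cD _ (G l) = 0
            rw [hsupp l hl, map_zero]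
          apply Submodule.sub_mem _ _ hDG
          apply Submodule.add_mem
          · have h3 := summand_mem_J (d := d) (p := p) (m := rs (KW ρ a b c (ρ j) j) m) i
              (G := C ((m i : ℂ) * s) * lin u ^ (m i - 1)) (by
                rw [rs_of hWi]
                exact C_mul_mem _ hma)
            rwa [rs_of hWi] at h3
          · rw [← hGq]
            exact C_mul_mem _ (Psi_mem_J_rs hG hsupp)
      by_contra hne
      obtain ⟨s', e, G', hjG, hhom, hmj, hnd⟩ := S.exists_fact hG' hdiv hne
      obtain ⟨v, s, t', hv, hst⟩ := hgood j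
      refine S.contra hN hG hjG hhom hmj hnd hv
        (X := Pi.single i (C ((m i : ℂ) * s) * lin u ^ (m i - 1)) + ((m i : ℂ) * t') • G)
        ?_ ?_ ?_
      · apply Submodule.add_mem _ _ (Submodule.smul_mem _ _ hG)
        rw [mem_HH]
        intro l
        by_cases hia : l = i
        · subst hia
          rw [Pi.single_eq_same]
          exact C_mul_mem _ hma
        · rw [Pi.single_eq_of_ne hia]
          exact zero_mem _
      · change Psi d p m _ = cD _ (Psi d p m G)
        rw [hcD j hji v, hst, hexp, map_add, map_smul, hGq, smul_eq_C_mul]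
        congr 1
        rw [Psi_apply, Finset.sum_eq_single i]
        · rw [Pi.single_eq_same]
        · intro l _ hia
          rw [Pi.single_eq_of_ne hia, mul_zero]
        · intro h'
          exact absurd (Finset.mem_univ i) h'
      · rw [Pi.add_apply, Pi.single_eq_of_ne hji, zero_add, Pi.smul_apply, smul_eq_C_mul, hjG]
        exact Dvd.dvd.mul_left (Dvd.intro _ rfl) _
  exact fun j hja hjb hjc hji hij => key _ j hja hjb hjc hji hij le_rfl

/-- no bad direction at the three remaining points -/
theorem no_bad_special' (S : Rigid d P E m F) (hsq : Squarefree F) {a b c : ι} (hab : a ≠ b)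
    (hac : a ≠ c) (hbc : b ≠ c) (hex : ∃ e, e ≠ a ∧ e ≠ b ∧ e ≠ c) {ρ : ι → ℕ}
    (hfull : HF d (fun i => P (Sum.inl i)) m ρ a b c)
    {u : V3} (hu : cr (P (Sum.inl a)) u ≠ 0) (h : BadDir d F (P (Sum.inl a)) (m a) u) :
    False := by
  rcases Nat.eq_zero_or_pos (m a) with hz | hz
  · apply S.R0 a hz
    have := h.1
    rwa [hz, pow_zero, mul_one, Nat.sub_zero] at this
  set p : ι → V3 := fun i => P (Sum.inl i) with hp
  have hJ : lin (p a) ^ (d - m a) * lin u ^ m a ∈ J d p m := S.bad_mem_J h
  obtain ⟨G, hG', hGq⟩ := mem_J.mp hJ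
  rw [← Psi_apply] at hGq
  have hzero : ∀ j, j ≠ a → j ≠ b → j ≠ c → G j = 0 := fun j hja hjb hjc =>
    S.bad_kill hsq hab hac hbc hfull hu h hz hG' hGq j hja hjb hjc hja (Or.inl rfl)
  -- test forms
  have hrel : lin (p a) ^ (d - m a) * lin u ^ m a = lin (p a) ^ (d + 1 - m a) * G a +
      lin (p b) ^ (d + 1 - m b) * G b + lin (p c) ^ (d + 1 - m c) * G c := by
    rw [← hGq, Psi_apply]
    apply sum_eq_three hab hac hbc
    intro i hia hib hic
    rw [hzero i hia hib hic, mul_zero]
  obtain ⟨e, hea, heb, hec⟩ := hex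
  have htot := S.four hsq hab hac hea.symm hbc heb.symm hec.symm
  have hpab := S.pair hsq hab
  have hpac := S.pair hsq hac
  have hmb := S.hm b
  have hmc := S.hm c
  have hma' := S.hm a
  have hdet := S.det hbc hab.symm hac.symm
  by_cases hub : eval u (xl (p a) (p b)) = 0
  · have huc : eval u (xl (p a) (p c)) ≠ 0 := fun h' =>
      two_lines (S.cr_ne hab) (S.det hac hab hbc.symm) hu hub h'
    have hnb : m a + m b ≤ d := by
      by_contra hcon
      exact not_tangent_bad_line S.hom hsq (S.cr_ne hab) (S.vanish a) (S.vanish b) hz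
        (by omega) hub hu (h.2 hz)
    exact test_dir (α := 0) (β := m a) (zero_add _) hma' hdet (Or.inl rfl) (Or.inr huc)
      (by omega) (by omega) hrel
  by_cases huc : eval u (xl (p a) (p c)) = 0
  · have hnc : m a + m c ≤ d := by
      by_contra hcon
      exact not_tangent_bad_line S.hom hsq (S.cr_ne hac) (S.vanish a) (S.vanish c) hz
        (by omega) huc hu (h.2 hz)
    exact test_dir (α := m a) (β := 0) (add_zero _) hma' hdet (Or.inr hub) (Or.inl rfl)
      (by omega) (by omega) hrel
  rcases Nat.lt_or_ge d (m a + m b) with h5 | h5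
  · exact test_dir (α := m a - (d - m b)) (β := d - m b) (by omega) hma' hdet (Or.inr hub)
      (Or.inr huc) (by omega) (by omega) hrel
  · exact test_dir (α := 0) (β := m a) (zero_add _) hma' hdet (Or.inl rfl) (Or.inr huc)
      (by omega) (by omega) hrel

theorem KW_swap (ρ : ι → ℕ) (a b c : ι) (n : ℕ) (e : ι) : KW ρ b a c n e = KW ρ a b c n e := by
  funext l
  unfold KW
  apply propext
  tauto

theorem KW_rot (ρ : ι → ℕ) (a b c : ι) (n : ℕ) (e : ι) : KW ρ c a b n e = KW ρ a b c n e := by
  funext l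
  unfold KW
  apply propext
  tauto

/-- no bad direction at all -/
theorem no_bad' (S : Rigid d P E m F) (hsq : Squarefree F) {a b c : ι} (hab : a ≠ b)
    (hac : a ≠ c) (hbc : b ≠ c) (hex : ∃ e, e ≠ a ∧ e ≠ b ∧ e ≠ c) {ρ : ι → ℕ}
    (hfull : HF d (fun i => P (Sum.inl i)) m ρ a b c)
    {i : ι} {u : V3} (hu : cr (P (Sum.inl i)) u ≠ 0) (h : BadDir d F (P (Sum.inl i)) (m i) u) :
    False := by
  by_cases hia : i = a
  · subst hia
    exact S.no_bad_special' hsq hab hac hbc hex hfull hu h
  by_cases hib : i = b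
  · subst hib
    obtain ⟨e, h1, h2, h3⟩ := hex
    refine S.no_bad_special' hsq hab.symm hbc hac ⟨e, h2, h1, h3⟩ (ρ := ρ) ?_ hu h
    intro j hj1 hj2 hj3 h4 e'
    rw [KW_swap]
    exact hfull j hj2 hj1 hj3 h4 e'
  by_cases hic : i = c
  · subst hic
    obtain ⟨e, h1, h2, h3⟩ := hex
    refine S.no_bad_special' hsq hac.symm hbc.symm hab ⟨e, h3, h1, h2⟩ (ρ := ρ) ?_ hu h
    intro j hj1 hj2 hj3 h4 e'
    rw [KW_rot]
    exact hfull j hj2 hj3 hj1 h4 e'
  by_cases h3 : 3 ≤ m i
  · obtain ⟨G, hG', hGq⟩ := mem_J.mp (S.bad_mem_J h)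
    rw [← Psi_apply] at hGq
    have hzero := S.bad_kill hsq hab hac hbc hfull hu h (by omega) hG' hGq
    have hA : lin (P (Sum.inl i)) ^ (d - m i) * lin u ^ m i ∈
        J d (fun i => P (Sum.inl i)) (rs (KW ρ a b c (ρ i) i) m) := by
      rw [← hGq]
      apply Psi_mem_J_rs (mem_HH.mpr hG')
      intro l hl
      unfold KW at hl
      push Not at hl
      obtain ⟨h2, h3, h4, h5, h6⟩ := hl
      exact hzero l h3 h4 h5 h6 (Or.inr (Or.inr (Or.inr h2)))
    have hWi : KW ρ a b c (ρ i) i i := Or.inl le_rfl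
    have h1 := hfull i hia hib hic h3 i (lin u ^ m i) (by
      rw [rs_of hWi]
      exact lin_isHomogeneous_pow u (m i)) (by
      rw [rs_of hWi]
      exact hA)
    exact hu (lin_dvd_lin ((lin_prime (gp1 S.hE _)).dvd_of_dvd_pow h1))
  · have hcases : m i = 0 ∨ m i = 1 ∨ m i = 2 := by omega
    rcases hcases with h4 | h4 | h4
    · apply S.R0 i h4
      have := h.1
      rwa [h4, pow_zero, mul_one, Nat.sub_zero] at this
    · apply S.R1 i h4
      intro v
      have := h.2 (by omega) v
      rwa [h4, Nat.sub_self, pow_zero, one_mul] at this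
    · apply hu
      apply S.R2 hsq i h4
      intro v
      have := h.2 (by omega) v
      rwa [h4, (by norm_num : 2 - 1 = 1), pow_one] at this

end Rigid

end Pool.Agent.Work.MP_0421d9_ag
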