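import Pool.Agent.Work.MP_0421d9_ag.Along

/-!
Nonspeciality, when the points are dropped one after the other.
-/

set_option linter.unusedSectionVars false

namespace Pool.Agent.Work.MP_0421d9_ag

open MvPolynomial

variable {ι κ : Type} [Fintype ι] [Fintype κ] [DecidableEq ι] [DecidableEq κ]

variable {d : ℕ} {P : ι ⊕ κ → V3} {E : ι ⊕ κ → Fin 3 → Derivation ℚ ℂ ℂ} {m : ι → ℕ} {F : R3}

open Classical in
/-- restriction of the multiplicities to a set of indices -/
noncomputable def rs (W : ι → Prop) (m : ι → ℕ) : ι → ℕ := fun l => if W l then m l else 0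

theorem rs_of {W : ι → Prop} {m : ι → ℕ} {l : ι} (h : W l) : rs W m l = m l := if_pos h

theorem rs_not {W : ι → Prop} {m : ι → ℕ} {l : ι} (h : ¬ W l) : rs W m l = 0 := if_neg h

theorem rs_le (W : ι → Prop) (m : ι → ℕ) (l : ι) : rs W m l ≤ m l := by
  by_cases h : W l
  · rw [rs_of h]
  · rw [rs_not h]; exact Nat.zero_le _

theorem Psi_mem_J_rs {p : ι → V3} {W : ι → Prop} {G : ι → R3} (hG : G ∈ HH m)
    (hs : ∀ l, ¬ W l → G l = 0) : Psi d p m G ∈ J d p (rs W m) := by
  rw [Psi_apply]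
  apply Submodule.sum_mem
  intro l _
  by_cases h : W l
  · have h1 := mem_HH.mp hG l
    rw [← rs_of (m := m) h] at h1
    have h2 := summand_mem_J (d := d) (p := p) l h1
    rwa [rs_of h] at h2
  · rw [hs l h, mul_zero]
    exact zero_mem _

/-- the kept indices -/
def KW (ρ : ι → ℕ) (a b c : ι) (n : ℕ) (e : ι) : ι → Prop :=
  fun l => ρ l ≤ n ∨ l = a ∨ l = b ∨ l = c ∨ l = e

namespace Rigid

/-- Divisibility lemma, relative to a set of kept indices -/
theorem div' (S : Rigid d P E m F) (hsq : Squarefree F) {W : ι → Prop} {i : ι} (hW : W i)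
    (hfull : 3 ≤ m i → Full d (fun i => P (Sum.inl i)) (rs W m) i) {G : R3} (hG : G ∈ Hm (m i))
    (ha : ∀ v, B (lin (P (Sum.inl i)) ^ (d - m i) * (lin v * G)) F = 0)
    (hb : 3 ≤ m i → ∃ v, cr (P (Sum.inl i)) v ≠ 0 ∧
      lin (P (Sum.inl i)) ^ (d - m i) * (lin v * G) ∈ J d (fun i => P (Sum.inl i)) (rs W m)) :
    lin (P (Sum.inl i)) ∣ G := by
  have hp : P (Sum.inl i) ≠ 0 := gp1 S.hE _
  by_cases h3 : 3 ≤ m i
  · obtain ⟨v, hv, hJ⟩ := hb h3
    apply lin_dvd_of_mul hp hv
    apply hfull h3 _ _ (by rw [rs_of hW]; exact hJ)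
    rw [rs_of hW]
    obtain ⟨n, hn⟩ : ∃ n, m i = n + 1 := ⟨m i - 1, by omega⟩
    rw [hn] at hG ⊢
    rw [mem_Hm_succ] at hG
    have := (lin_isHomogeneous v).mul hG
    rwa [add_comm] at this
  · have hcases : m i = 0 ∨ m i = 1 ∨ m i = 2 := by omega
    rcases hcases with h | h | h
    · rw [h, mem_Hm_zero] at hG
      rw [hG]
      exact dvd_zero _
    · rw [h] at hG
      have hG' : G.IsHomogeneous 0 := hG
      have h0 : G = C (coeff 0 G) :=
        (MvPolynomial.totalDegree_eq_zero_iff_eq_C).mp (Nat.le_zero.mp hG'.totalDegree_le)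
      by_cases hc : coeff 0 G = 0
      · rw [h0, hc, C_0]
        exact dvd_zero _
      · exfalso
        apply S.R1 i h
        intro v
        have h1 := ha v
        have h2 : lin (P (Sum.inl i)) ^ (d - m i) * (lin v * G) =
            C (coeff 0 G) * (lin (P (Sum.inl i)) ^ (d - 1) * lin v) := by
          rw [h, mul_comm (lin v), ← mul_assoc, mul_comm _ G, mul_assoc, ← h0]
        rw [h2, B_C_mul_left] at h1
        exact (mul_eq_zero.mp h1).resolve_left hc
    · rw [h] at hG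
      have hG' : G.IsHomogeneous 1 := hG
      obtain ⟨w, rfl⟩ := eq_lin_of_isHomogeneous hG'
      have h1 : cr (P (Sum.inl i)) w = 0 := by
        apply S.R2 hsq i h
        intro v
        have := ha v
        rwa [h, mul_comm (lin v)] at this
      obtain ⟨s, rfl⟩ := exists_smul_of_cr_eq_zero hp h1
      rw [lin_smul]
      exact Dvd.intro_left _ rfl

theorem J_rs_le (S : Rigid d P E m F) (W : ι → Prop) {A : R3}
    (hA : A ∈ J d (fun i => P (Sum.inl i)) (rs W m)) : B A F = 0 := by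
  apply B_J_linSys (fun l => (rs_le W m l).trans (S.hm' l)) hA
  exact ⟨S.hom, fun l => (S.vanish l).mono (rs_le W m l)⟩

theorem claim1' (S : Rigid d P E m F) (hsq : Squarefree F) {W : ι → Prop} {j : ι} (hW : W j)
    (hfull : 3 ≤ m j → Full d (fun i => P (Sum.inl i)) (rs W m) j) {G : ι → R3} (hG : G ∈ HH m)
    (hs : ∀ l, ¬ W l → G l = 0)
    (h0 : Psi d (fun i => P (Sum.inl i)) m G = 0) : lin (P (Sum.inl j)) ∣ G j := by
  have h1 : ∀ v, lin (P (Sum.inl j)) ^ (d - m j) * (lin v * G j) ∈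
      J d (fun i => P (Sum.inl i)) (rs W m) := by
    intro v
    have h2 := cD_Psi S.hE S.hm (G := G) j v
    rw [h0, map_zero] at h2
    have h3 : C ((d + 1 - m j : ℕ) : ℂ) * (lin (P (Sum.inl j)) ^ (d - m j) * (lin v * G j)) =
        - Psi d (fun i => P (Sum.inl i)) m (fun i => cD (mv E (Sum.inl j) v) (G i)) :=
      eq_neg_of_add_eq_zero_left h2.symm
    have h4 : ((d + 1 - m j : ℕ) : ℂ) ≠ 0 := by
      rw [Nat.cast_ne_zero]
      have := S.hm j
      omega
    apply mem_of_C_mul_mem h4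
    rw [h3]
    apply Submodule.neg_mem
    apply Psi_mem_J_rs
    · rw [mem_HH] at *
      exact fun i => cD_mem_Hm _ (hG i)
    · intro l hl
      change cD _ (G l) = 0
      rw [hs l hl, map_zero]
  obtain ⟨v, hv⟩ := exists_cr_ne (gp1 S.hE (Sum.inl j))
  exact S.div' hsq hW hfull (mem_HH.mp hG j) (fun v => S.J_rs_le W (h1 v)) (fun _ => ⟨v, hv, h1 v⟩)

theorem claim2' (S : Rigid d P E m F) (hsq : Squarefree F) {W : ι → Prop} {j : ι} (hW : W j)
    (hfull : 3 ≤ m j → Full d (fun i => P (Sum.inl i)) (rs W m) j) (s : ℕ) : ∀ (G : ι → R3),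
    G ∈ HH m → (∀ l, ¬ W l → G l = 0) →
    Psi d (fun i => P (Sum.inl i)) m G = 0 → ∀ (e : ℕ) (G' : R3),
    G j = lin (P (Sum.inl j)) ^ s * G' → G'.IsHomogeneous e → m j = s + e + 1 →
    ¬ lin (P (Sum.inl j)) ∣ G' → False := by
  induction s with
  | zero =>
    intro G hG hs h0 e G' hj _ _ hnd
    apply hnd
    have := S.claim1' hsq hW hfull hG hs h0
    rwa [hj, pow_zero, one_mul] at this
  | succ s ih =>
    intro G hG hs h0 e G' hj hhom hmj hnd
    have hp := gp1 S.hE (Sum.inl j)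
    obtain ⟨v, hv⟩ := exists_cr_ne hp
    have h1 := cD_Psi_div (m := m) (d := d) S.hE j v hj
    rw [h0, map_zero] at h1
    have hκ : ((d + 1 - m j + (s + 1) : ℕ) : ℂ) ≠ 0 := by
      rw [Nat.cast_ne_zero]; omega
    refine ih _ (update_mem_HH (mv E (Sum.inl j) v) hG
      (comp_mem_Hm (mv E (Sum.inl j) v) _ hhom hmj)) ?_ h1.symm (1 + e)
      (C ((d + 1 - m j + (s + 1) : ℕ) : ℂ) * (lin v * G') +
            lin (P (Sum.inl j)) * cD (mv E (Sum.inl j) v) G')
      (Function.update_self _ _ _) ?_ (by omega) (not_dvd_comp hp hv hnd hκ)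
    · intro l hl
      have hlj : l ≠ j := by
        rintro rfl
        exact hl hW
      rw [Function.update_of_ne hlj, hs l hl, map_zero]
    · exact (((lin_isHomogeneous v).mul hhom).C_mul _).add
        ((lin_isHomogeneous _).mul (cD_isHomogeneous _ hhom))

theorem claim3' (S : Rigid d P E m F) (hsq : Squarefree F) {W : ι → Prop} {j : ι} (hW : W j)
    (hfull : 3 ≤ m j → Full d (fun i => P (Sum.inl i)) (rs W m) j) {G : ι → R3} (hG : G ∈ HH m)
    (hs : ∀ l, ¬ W l → G l = 0)
    (h0 : Psi d (fun i => P (Sum.inl i)) m G = 0) : G j = 0 := by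
  by_contra hne
  have h1 := mem_HH.mp hG j
  rcases Nat.eq_zero_or_pos (m j) with hz | hz
  · rw [hz, mem_Hm_zero] at h1
    exact hne h1
  · obtain ⟨n, hn⟩ : ∃ n, m j = n + 1 := ⟨m j - 1, by omega⟩
    rw [hn, mem_Hm_succ] at h1
    obtain ⟨s, e, G', hse, hjG, hhom, hnd⟩ :=
      exists_lin_factorization (p := P (Sum.inl j)) n (G j) h1 hne
    exact S.claim2' hsq hW hfull s G hG hs h0 e G' hjG hhom (by omega) hnd

/-- the hypothesis: after dropping the points of larger rank, except possibly one, the system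
restricts to the complete series on the exceptional curves of multiplicity at least three -/
def HF (d : ℕ) (p : ι → V3) (m : ι → ℕ) (ρ : ι → ℕ) (a b c : ι) : Prop :=
  ∀ j, j ≠ a → j ≠ b → j ≠ c → 3 ≤ m j → ∀ e, Full d p (rs (KW ρ a b c (ρ j) e) m) j

/-- uniqueness of relations: the system is nonspecial -/
theorem unique_rel' (S : Rigid d P E m F) (hsq : Squarefree F) {a b c : ι} (hab : a ≠ b)
    (hac : a ≠ c) (hbc : b ≠ c) {ρ : ι → ℕ}
    (hfull : HF d (fun i => P (Sum.inl i)) m ρ a b c)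
    {G : ι → R3} (hG : G ∈ HH m)
    (h0 : Psi d (fun i => P (Sum.inl i)) m G = 0) : G = 0 := by
  set R := Finset.univ.sup ρ + 1 with hR
  have hρ : ∀ j, ρ j < R := fun j => Nat.lt_succ_of_le (Finset.le_sup (Finset.mem_univ j))
  have h1' : ∀ t, ∀ j, j ≠ a → j ≠ b → j ≠ c → R - ρ j ≤ t → G j = 0 := by
    intro t
    induction t with
    | zero =>
      intro j _ _ _ ht
      have := hρ j
      omega
    | succ t ih =>
      intro j hja hjb hjc ht
      refine S.claim3' hsq (W := KW ρ a b c (ρ j) j) (Or.inl le_rfl)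
        (fun h3 => hfull j hja hjb hjc h3 j) hG ?_ h0
      intro l hl
      unfold KW at hl
      push Not at hl
      obtain ⟨h2, h3, h4, h5, h6⟩ := hl
      refine ih l h3 h4 h5 ?_
      have := hρ l
      omega
  have h1 : ∀ j, j ≠ a → j ≠ b → j ≠ c → G j = 0 := fun j ha hb hc =>
    h1' _ j ha hb hc le_rfl
  have h2 : Psi d (fun i => P (Sum.inl i)) m G =
      lin (P (Sum.inl a)) ^ (d + 1 - m a) * G a + lin (P (Sum.inl b)) ^ (d + 1 - m b) * G b +
      lin (P (Sum.inl c)) ^ (d + 1 - m c) * G c := by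
    rw [Psi_apply]
    apply sum_eq_three hab hac hbc
    intro i hia hib hic
    rw [h1 i hia hib hic, mul_zero]
  rw [h0] at h2
  have hpair : ∀ x y : ι, x ≠ y → m x + m y ≤ d + 1 := fun x y hxy =>
    pair_le S.hom hsq (gp2 S.hE (x := Sum.inl x) (y := Sum.inl y) (by simpa using hxy))
      (S.vanish x) (S.vanish y)
  have hdet : ∀ x y z : ι, x ≠ y → x ≠ z → y ≠ z →
      eval (P (Sum.inl z)) (xl (P (Sum.inl x)) (P (Sum.inl y))) ≠ 0 := fun x y z hxy hxz hyz =>
    gp3 S.hE (x := Sum.inl x) (y := Sum.inl y) (z := Sum.inl z) (by simpa using hxy)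
      (by simpa using hxz) (by simpa using hyz)
  have hGm := mem_HH.mp hG
  have ha : G a = 0 := three_points (hdet b c a hbc hab.symm hac.symm) (S.hm a) (hpair a b hab)
    (hpair a c hac) (hGm a) h2.symm
  have hb : G b = 0 := three_points (Gb := G a) (Gc := G c) (hdet a c b hac hab hbc.symm) (S.hm b)
    (hpair b a hab.symm) (hpair b c hbc) (hGm b) (by linear_combination -h2)
  have hc : G c = 0 := three_points (Gb := G a) (Gc := G b) (hdet a b c hab hac hbc) (S.hm c)
    (hpair c a hac.symm) (hpair c b hbc.symm) (hGm c) (by linear_combination -h2)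
  funext i
  by_cases hia : i = a
  · rw [hia, ha]; rfl
  · by_cases hib : i = b
    · rw [hib, hb]; rfl
    · by_cases hic : i = c
      · rw [hic, hc]; rfl
      · rw [h1 i hia hib hic]; rfl

/-- A set of forms stable under the motions of the dropped points and orthogonal to `F` lies in
the inverse system of the kept points. -/
theorem absorb (S : Rigid d P E m F) (hsq : Squarefree F) {a b c : ι} {ρ : ι → ℕ}
    (hfull : HF d (fun i => P (Sum.inl i)) m ρ a b c) (n : ℕ) (X : Set R3)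
    (hX : ∀ A ∈ X, A.IsHomogeneous d) (hXF : ∀ A ∈ X, B A F = 0)
    (hκ : ∀ A ∈ X, ∀ k v, cD (mv E (Sum.inr k) v) A ∈ X)
    (hι : ∀ A ∈ X, ∀ j, j ≠ a → j ≠ b → j ≠ c → n < ρ j → ∀ v, cD (mv E (Sum.inl j) v) A ∈ X) :
    ∀ e, ∀ A ∈ X, A ∈ J d (fun i => P (Sum.inl i)) (rs (KW ρ a b c n e) m) := by
  set R := Finset.univ.sup ρ + 1 with hR
  have hρ : ∀ j, ρ j < R := fun j => Nat.lt_succ_of_le (Finset.le_sup (Finset.mem_univ j))
  -- representations
  have hJ : ∀ A ∈ X, A ∈ J d (fun i => P (Sum.inl i)) m := by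
    intro A hA
    apply S.memJ (hX A hA) (hXF A hA)
    intro k v
    have h1 := D_B (mv E (Sum.inr k) v) A F
    rw [hXF A hA, map_zero, hXF _ (hκ A hA k v), zero_add] at h1
    exact h1.symm
  -- one dropped point
  have key : ∀ j, j ≠ a → j ≠ b → j ≠ c → n < ρ j →
      (∀ A ∈ X, ∀ G ∈ HH m, Psi d (fun i => P (Sum.inl i)) m G = A →
        ∀ l, ¬ KW ρ a b c (ρ j) j l → G l = 0) →
      ∀ s : ℕ, ∀ A ∈ X, ∀ G ∈ HH m, Psi d (fun i => P (Sum.inl i)) m G = A →
        ∀ (e : ℕ) (G' : R3), G j = lin (P (Sum.inl j)) ^ s * G' → G'.IsHomogeneous e →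
        m j = s + e + 1 → ¬ lin (P (Sum.inl j)) ∣ G' → False := by
    intro j hja hjb hjc hnj hs s
    have hp := gp1 S.hE (Sum.inl j)
    have hW : KW ρ a b c (ρ j) j j := Or.inl le_rfl
    induction s with
    | zero =>
      intro A hA G hG hGA e G' hj _ _ hnd
      apply hnd
      have hκ' : ((d + 1 - m j : ℕ) : ℂ) ≠ 0 := by
        rw [Nat.cast_ne_zero]
        have := S.hm j
        omega
      have h2 : ∀ v, C ((d + 1 - m j : ℕ) : ℂ) *
          (lin (P (Sum.inl j)) ^ (d - m j) * (lin v * G j)) = cD (mv E (Sum.inl j) v) A -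
            Psi d (fun i => P (Sum.inl i)) m (fun i => cD (mv E (Sum.inl j) v) (G i)) := by
        intro v
        have h3 := cD_Psi S.hE S.hm (G := G) j v
        rw [hGA] at h3
        rw [h3]
        ring
      have h3 : ∀ v, lin (P (Sum.inl j)) ^ (d - m j) * (lin v * G j) ∈
          J d (fun i => P (Sum.inl i)) (rs (KW ρ a b c (ρ j) j) m) := by
        intro v
        apply mem_of_C_mul_mem hκ'
        rw [h2 v]
        apply Submodule.sub_mem
        · have hDA := hι A hA j hja hjb hjc hnj v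
          obtain ⟨G₁, hG₁, hG₁A⟩ := mem_J.mp (hJ _ hDA)
          rw [← Psi_apply] at hG₁A
          rw [← hG₁A]
          exact Psi_mem_J_rs (mem_HH.mpr hG₁) (hs _ hDA G₁ (mem_HH.mpr hG₁) hG₁A)
        · apply Psi_mem_J_rs
          · rw [mem_HH] at *
            exact fun i => cD_mem_Hm _ (hG i)
          · intro l hl
            change cD _ (G l) = 0
            rw [hs A hA G hG hGA l hl, map_zero]
      obtain ⟨v, hv⟩ := exists_cr_ne hp
      have h4 := S.div' hsq hW (fun h3' => hfull j hja hjb hjc h3' j) (mem_HH.mp hG j)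
        (fun v => S.J_rs_le _ (h3 v)) (fun _ => ⟨v, hv, h3 v⟩)
      rwa [hj, pow_zero, one_mul] at h4
    | succ s ih =>
      intro A hA G hG hGA e G' hj hhom hmj hnd
      obtain ⟨v, hv⟩ := exists_cr_ne hp
      have h1 := cD_Psi_div (m := m) (d := d) S.hE j v hj
      rw [hGA] at h1
      have hκ' : ((d + 1 - m j + (s + 1) : ℕ) : ℂ) ≠ 0 := by
        rw [Nat.cast_ne_zero]; omega
      refine ih _ (hι A hA j hja hjb hjc hnj v) _ (update_mem_HH (mv E (Sum.inl j) v) hG
        (comp_mem_Hm (mv E (Sum.inl j) v) _ hhom hmj)) h1.symm (1 + e)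
        (C ((d + 1 - m j + (s + 1) : ℕ) : ℂ) * (lin v * G') +
              lin (P (Sum.inl j)) * cD (mv E (Sum.inl j) v) G')
        (Function.update_self _ _ _) ?_ (by omega) (not_dvd_comp hp hv hnd hκ')
      exact (((lin_isHomogeneous v).mul hhom).C_mul _).add
        ((lin_isHomogeneous _).mul (cD_isHomogeneous _ hhom))
  -- all dropped points
  have hall : ∀ t, ∀ j, j ≠ a → j ≠ b → j ≠ c → n < ρ j → R - ρ j ≤ t →
      ∀ A ∈ X, ∀ G ∈ HH m, Psi d (fun i => P (Sum.inl i)) m G = A → G j = 0 := by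
    intro t
    induction t with
    | zero =>
      intro j _ _ _ _ ht
      have := hρ j
      omega
    | succ t ih =>
      intro j hja hjb hjc hnj ht A hA G hG hGA
      by_contra hne
      have h1 := mem_HH.mp hG j
      rcases Nat.eq_zero_or_pos (m j) with hz | hz
      · rw [hz, mem_Hm_zero] at h1
        exact hne h1
      · obtain ⟨k, hk⟩ : ∃ k, m j = k + 1 := ⟨m j - 1, by omega⟩
        rw [hk, mem_Hm_succ] at h1
        obtain ⟨s, e, G', hse, hjG, hhom, hnd⟩ :=
          exists_lin_factorization (p := P (Sum.inl j)) k (G j) h1 hne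
        refine key j hja hjb hjc hnj ?_ s A hA G hG hGA e G' hjG hhom (by omega) hnd
        intro A' hA' G₁ hG₁ hG₁A l hl
        unfold KW at hl
        push Not at hl
        obtain ⟨h2, h3, h4, h5, h6⟩ := hl
        refine ih l h3 h4 h5 (by omega) ?_ A' hA' G₁ hG₁ hG₁A
        have := hρ l
        omega
  intro e A hA
  obtain ⟨G, hG, hGA⟩ := mem_J.mp (hJ A hA)
  rw [← Psi_apply] at hGA
  rw [← hGA]
  apply Psi_mem_J_rs (mem_HH.mpr hG)
  intro l hl
  unfold KW at hl
  push Not at hl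
  obtain ⟨h2, h3, h4, h5, h6⟩ := hl
  exact hall _ l h3 h4 h5 h2 le_rfl A hA G (mem_HH.mpr hG) hGA

end Rigid

end Pool.Agent.Work.MP_0421d9_ag
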