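import Pool.Agent.Work.MP_0421d9_ag.RCore

/-!
Smoothness away from the multiple points, when the points are dropped one after the other.
-/

set_option linter.unusedSectionVars false

namespace Pool.Agent.Work.MP_0421d9_ag

open MvPolynomial

variable {ι κ : Type} [Fintype ι] [Fintype κ] [DecidableEq ι] [DecidableEq κ]

variable {d : ℕ} {P : ι ⊕ κ → V3} {E : ι ⊕ κ → Fin 3 → Derivation ℚ ℂ ℂ} {m : ι → ℕ} {F : R3}

namespace Rigid

theorem cDq (D : Derivation ℚ ℂ ℂ) (q : V3) (d' : ℕ) : cD D (lin q ^ (d' + 1)) =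
    C ((d' + 1 : ℕ) : ℂ) * (lin q ^ d' * lin (fun l => D (q l))) := by
  rw [cD_lin_pow_eq, Nat.add_sub_cancel]

/-- the point moves when a point with a nonzero divisible component moves -/
theorem moves {d' : ℕ} (S : Rigid (d' + 1) P E m F)
    (hN : ∀ G ∈ HH m, Psi (d' + 1) (fun i => P (Sum.inl i)) m G = 0 → G = 0)
    {q : V3} (hqne : q ≠ 0) {G : ι → R3} (hG : G ∈ HH m)
    (hGq : Psi (d' + 1) (fun i => P (Sum.inl i)) m G = lin q ^ (d' + 1))
    {j : ι} {s e : ℕ} {G₁ : R3} (h1 : G j = lin (P (Sum.inl j)) ^ (s + 1) * G₁)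
    (h2 : G₁.IsHomogeneous e) (h3 : m j = s + 1 + e + 1) (h4 : ¬ lin (P (Sum.inl j)) ∣ G₁)
    {v : V3} (hv : cr (P (Sum.inl j)) v ≠ 0) :
    cr q (fun l => mv E (Sum.inl j) v (q l)) ≠ 0 := by
  intro hcr
  obtain ⟨c', hc'⟩ := exists_smul_of_cr_eq_zero hqne hcr
  refine S.contra hN hG h1 h2 h3 h4 hv (X := (((d' + 1 : ℕ) : ℂ) * c') • G)
    (Submodule.smul_mem _ _ hG) ?_ ?_
  · change Psi (d' + 1) _ m _ = cD _ (Psi (d' + 1) _ m G)
    rw [map_smul, hGq, cDq, hc', lin_smul, smul_eq_C_mul, map_mul, pow_succ]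
    ring
  · rw [Pi.smul_apply, smul_eq_C_mul, h1]
    exact Dvd.dvd.mul_left (Dvd.intro _ rfl) _

/-- two different divisible components cannot both be nonzero -/
theorem two_nonzero {d' : ℕ} (S : Rigid (d' + 1) P E m F)
    (hN : ∀ G ∈ HH m, Psi (d' + 1) (fun i => P (Sum.inl i)) m G = 0 → G = 0)
    {q : V3} (hqne : q ≠ 0) {G : ι → R3} (hG : G ∈ HH m)
    (hGq : Psi (d' + 1) (fun i => P (Sum.inl i)) m G = lin q ^ (d' + 1))
    {j j' : ι} (hjj : j ≠ j') {s e : ℕ} {G₁ : R3} (h1 : G j = lin (P (Sum.inl j)) ^ (s + 1) * G₁)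
    (h2 : G₁.IsHomogeneous e) (h3 : m j = s + 1 + e + 1) (h4 : ¬ lin (P (Sum.inl j)) ∣ G₁)
    {s' e' : ℕ} {G₂ : R3} (h1' : G j' = lin (P (Sum.inl j')) ^ (s' + 1) * G₂)
    (h2' : G₂.IsHomogeneous e') (h3' : m j' = s' + 1 + e' + 1)
    (h4' : ¬ lin (P (Sum.inl j')) ∣ G₂) : False := by
  obtain ⟨v, hv⟩ := exists_cr_ne (gp1 S.hE (Sum.inl j))
  -- the motion of `j'` moves `q` in all directions
  have hsurj := exists_solution (gp1 S.hE (Sum.inl j')) hqne (QL E (Sum.inl j') q) (by
    intro v' c' hv'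
    by_contra hcr
    apply S.moves hN hqne hG hGq h1' h2' h3' h4' hcr
    have hv'' : (fun l => mv E (Sum.inl j') v' (q l)) = c' • q := hv'
    rw [hv'']
    exact cr_smul_self c' q)
    (QL E (Sum.inl j) q v)
  obtain ⟨v', c', hvc⟩ := hsurj
  have hvc' : (fun l => mv E (Sum.inl j') v' (q l)) =
      (fun l => mv E (Sum.inl j) v (q l)) + c' • q := hvc
  have h5 := cD_Psi_div (m := m) (d := d' + 1) S.hE j' v' h1'
  set Y := Function.update (fun i => cD (mv E (Sum.inl j') v') (G i)) j'
        (lin (P (Sum.inl j')) ^ s' * (C ((d' + 1 + 1 - m j' + (s' + 1) : ℕ) : ℂ) *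
          (lin v' * G₂) + lin (P (Sum.inl j')) * cD (mv E (Sum.inl j') v') G₂)) with hY
  have hYm : Y ∈ HH m := update_mem_HH (mv E (Sum.inl j') v') hG
      (comp_mem_Hm (mv E (Sum.inl j') v') _ h2' h3')
  refine S.contra hN hG h1 h2 h3 h4 hv (X := Y - (((d' + 1 : ℕ) : ℂ) * c') • G)
    (Submodule.sub_mem _ hYm (Submodule.smul_mem _ _ hG)) ?_ ?_
  · have h5' : cD (mv E (Sum.inl j') v') (Psi (d' + 1) (fun i => P (Sum.inl i)) m G) =
      Psi (d' + 1) (fun i => P (Sum.inl i)) m Y := h5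
    rw [map_sub, ← h5', map_smul, hGq, cDq, cDq, hvc', lin_add, lin_smul, smul_eq_C_mul,
      map_mul, pow_succ]
    ring
  · rw [Pi.sub_apply, hY, Function.update_of_ne hjj, Pi.smul_apply, smul_eq_C_mul, h1, cD_mul,
      cD_lin_pow_ne S.hE (by simpa using hjj), zero_mul, zero_add]
    exact dvd_sub (Dvd.intro _ rfl) (Dvd.dvd.mul_left (Dvd.intro _ rfl) _)

theorem exists_fact (S : Rigid d P E m F) {G : ι → R3} (hG' : ∀ i, G i ∈ Hm (m i)) {j : ι}
    (hdiv : lin (P (Sum.inl j)) ∣ G j) (hne : G j ≠ 0) : ∃ (s e : ℕ) (G' : R3),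
      G j = lin (P (Sum.inl j)) ^ (s + 1) * G' ∧ G'.IsHomogeneous e ∧ m j = s + 1 + e + 1 ∧
      ¬ lin (P (Sum.inl j)) ∣ G' := by
  have h1 := hG' j
  rcases Nat.eq_zero_or_pos (m j) with hz | hz
  · rw [hz, mem_Hm_zero] at h1
    exact absurd h1 hne
  · obtain ⟨n, hn⟩ : ∃ n, m j = n + 1 := ⟨m j - 1, by omega⟩
    rw [hn, mem_Hm_succ] at h1
    obtain ⟨s, e, G', hse, hjG, hhom, hnd⟩ :=
      exists_lin_factorization (p := P (Sum.inl j)) n (G j) h1 hne
    cases s with
    | zero =>
      exfalso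
      apply hnd
      have := hdiv
      rwa [hjG, pow_zero, one_mul] at this
    | succ s => exact ⟨s, e, G', hjG, hhom, by omega, hnd⟩

/-- the rigid member is smooth away from the multiple points -/
theorem no_singularity' (S : Rigid d P E m F) (hsq : Squarefree F) {a b c : ι} (hab : a ≠ b)
    (hac : a ≠ c) (hbc : b ≠ c) (hex : ∃ e, e ≠ a ∧ e ≠ b ∧ e ≠ c) {ρ : ι → ℕ}
    (hfull : HF d (fun i => P (Sum.inl i)) m ρ a b c)
    {q : V3} (hq : ∀ i : ι, cr (P (Sum.inl i)) q ≠ 0) (hq0 : eval q F = 0)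
    (hsing : ∀ k, eval q (pderiv k F) = 0) : False := by
  set p : ι → V3 := fun i => P (Sum.inl i) with hp
  have hN : ∀ G ∈ HH m, Psi d p m G = 0 → G = 0 := fun G hG h0 =>
    S.unique_rel' hsq hab hac hbc hfull hG h0
  have hqne : q ≠ 0 := by
    intro h
    apply hq a
    rw [h, cr_zero_right]
  have hd : 1 ≤ d := by
    by_contra hc
    have hd0 : d = 0 := by omega
    have h1 := S.hom
    rw [hd0] at h1
    have h0 : F = C (coeff 0 F) :=
      (MvPolynomial.totalDegree_eq_zero_iff_eq_C).mp (Nat.le_zero.mp h1.totalDegree_le)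
    rw [h0, eval_C] at hq0
    rw [hq0, C_0] at h0
    exact S.hF0 h0
  obtain ⟨d', rfl⟩ : ∃ d', d = d' + 1 := ⟨d - 1, by omega⟩
  have hdne : ((d' + 1 : ℕ) : ℂ) ≠ 0 := by
    rw [Nat.cast_ne_zero]; omega
  -- the singularity in terms of the pairing
  have hBq : B (lin q ^ (d' + 1)) F = 0 := by
    rw [B_lin_pow S.hom, hq0, mul_zero]
  have hBw : ∀ w, B (lin q ^ d' * lin w) F = 0 := by
    intro w
    have h1 : (dir w F).IsHomogeneous d' := by
      simpa using dir_isHomogeneous w S.hom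
    rw [mul_comm, B_lin_mul, B_lin_pow h1, dir_apply, map_sum]
    have h2 : ∑ k, eval q (C (w k) * pderiv k F) = 0 := by
      refine Finset.sum_eq_zero (fun k _ => ?_)
      rw [map_mul, hsing k, mul_zero]
    rw [h2, mul_zero]
  -- step 1
  have hJ : lin q ^ (d' + 1) ∈ J (d' + 1) p m := by
    apply S.memJ (lin_isHomogeneous_pow q (d' + 1)) hBq
    intro k v
    have h1 := D_B (mv E (Sum.inr k) v) (lin q ^ (d' + 1)) F
    rw [hBq, map_zero, cDq, B_C_mul_left, hBw, mul_zero, zero_add] at h1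
    exact h1.symm
  obtain ⟨G, hG', hGq⟩ := mem_J.mp hJ
  have hG : G ∈ HH m := mem_HH.mpr hG'
  rw [← Psi_apply] at hGq
  set R := Finset.univ.sup ρ + 1 with hR
  have hρ : ∀ j, ρ j < R := fun j => Nat.lt_succ_of_le (Finset.le_sup (Finset.mem_univ j))
  -- divisibility of the components
  have hdivG' : ∀ t, ∀ j, j ≠ a → j ≠ b → j ≠ c → R - ρ j ≤ t → lin (p j) ∣ G j := by
    intro t
    induction t with
    | zero =>
      intro j _ _ _ ht
      have := hρ j
      omega
    | succ t ih =>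
      intro j hja hjb hjc ht
      have hκ : ((d' + 1 + 1 - m j : ℕ) : ℂ) ≠ 0 := by
        rw [Nat.cast_ne_zero]
        have := S.hm j
        omega
      have h1 : ∀ v, C ((d' + 1 + 1 - m j : ℕ) : ℂ) *
          (lin (p j) ^ (d' + 1 - m j) * (lin v * G j)) =
          C ((d' + 1 : ℕ) : ℂ) * (lin q ^ d' * lin (fun l => mv E (Sum.inl j) v (q l))) -
            Psi (d' + 1) p m (fun i => cD (mv E (Sum.inl j) v) (G i)) := by
        intro v
        have h2 := cD_Psi S.hE S.hm (G := G) j v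
        have h2' : cD (mv E (Sum.inl j) v) (Psi (d' + 1) p m G) =
          C ((d' + 1 + 1 - m j : ℕ) : ℂ) * (lin (p j) ^ (d' + 1 - m j) * (lin v * G j)) +
          Psi (d' + 1) p m (fun i => cD (mv E (Sum.inl j) v) (G i)) := h2
        rw [hGq, cDq] at h2'
        rw [h2']
        ring
      have hpair : ∀ v, B (lin (p j) ^ (d' + 1 - m j) * (lin v * G j)) F = 0 := by
        intro v
        have h2 := congrArg (fun z => B z F) (h1 v)
        simp only [map_sub, LinearMap.sub_apply, B_C_mul_left] at h2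
        rw [hBw, mul_zero, S.B_J (Psi_mem_J (HH_cD _ hG)), sub_zero] at h2
        exact (mul_eq_zero.mp h2).resolve_left hκ
      -- choice of the kept set, and of a second direction
      have hW : ∃ (e : ι) (w₀ : V3), (∀ l, ¬ KW ρ a b c (ρ j) e l → G l = 0) ∧ cr q w₀ ≠ 0 ∧
          lin q ^ d' * lin w₀ ∈ J (d' + 1) p (rs (KW ρ a b c (ρ j) e) m) := by
        by_cases hZ : ∃ e, e ≠ a ∧ e ≠ b ∧ e ≠ c ∧ ρ j < ρ e ∧ G e ≠ 0
        · obtain ⟨e, hea, heb, hec, hje, hGe⟩ := hZ
          have hsupp : ∀ l, ¬ KW ρ a b c (ρ j) e l → G l = 0 := by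
            intro l hl
            unfold KW at hl
            push Not at hl
            obtain ⟨h2, h3, h4, h5, h6⟩ := hl
            by_contra hGl
            obtain ⟨s, n, G₁, e1, e2, e3, e4⟩ := S.exists_fact hG'
              (ih l h3 h4 h5 (by have := hρ l; omega)) hGl
            obtain ⟨s', n', G₂, e1', e2', e3', e4'⟩ := S.exists_fact hG'
              (ih e hea heb hec (by have := hρ e; omega)) hGe
            exact S.two_nonzero hN hqne hG hGq h6 e1 e2 e3 e4 e1' e2' e3' e4'
          obtain ⟨s', n', G₂, e1', e2', e3', e4'⟩ := S.exists_fact hG'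
            (ih e hea heb hec (by have := hρ e; omega)) hGe
          obtain ⟨v, hv⟩ := exists_cr_ne (gp1 S.hE (Sum.inl e))
          refine ⟨e, fun l => mv E (Sum.inl e) v (q l), hsupp,
            S.moves hN hqne hG hGq e1' e2' e3' e4' hv, ?_⟩
          have h5 := cD_Psi_div (m := m) (d := d' + 1) S.hE e v e1'
          have h5' : cD (mv E (Sum.inl e) v) (Psi (d' + 1) p m G) = _ := h5
          rw [hGq, cDq] at h5'
          apply mem_of_C_mul_mem hdne
          rw [h5']
          apply Psi_mem_J_rs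
          · exact update_mem_HH (mv E (Sum.inl e) v) hG
              (comp_mem_Hm (mv E (Sum.inl e) v) _ e2' e3')
          · intro l hl
            have hle : l ≠ e := by
              rintro rfl
              exact hl (Or.inr (Or.inr (Or.inr (Or.inr rfl))))
            rw [Function.update_of_ne hle, hsupp l hl, map_zero]
        · push Not at hZ
          have hsupp : ∀ l, ¬ KW ρ a b c (ρ j) j l → G l = 0 := by
            intro l hl
            unfold KW at hl
            push Not at hl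
            obtain ⟨h2, h3, h4, h5, h6⟩ := hl
            exact hZ l h3 h4 h5 h2
          have hDG : ∀ D : Derivation ℚ ℂ ℂ, Psi (d' + 1) p m (fun i => cD D (G i)) ∈
              J (d' + 1) p (rs (KW ρ a b c (ρ j) j) m) := by
            intro D
            apply Psi_mem_J_rs (HH_cD _ hG)
            intro l hl
            change cD D (G l) = 0
            rw [hsupp l hl, map_zero]
          by_cases hmove : (∃ k v, cr q (fun l => mv E (Sum.inr k) v (q l)) ≠ 0) ∨
              (∃ e, e ≠ a ∧ e ≠ b ∧ e ≠ c ∧ ρ j < ρ e ∧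
                ∃ v, cr q (fun l => mv E (Sum.inl e) v (q l)) ≠ 0)
          · rcases hmove with ⟨k, v, hkv⟩ | ⟨e, hea, heb, hec, hje, v, hev⟩
            · refine ⟨j, _, hsupp, hkv, ?_⟩
              apply mem_of_C_mul_mem hdne
              rw [← cDq, ← hGq, cD_Psi_fixed S.hE]
              exact hDG _
            · refine ⟨j, _, hsupp, hev, ?_⟩
              apply mem_of_C_mul_mem hdne
              have h5 := cD_Psi S.hE S.hm (G := G) e v
              have h5' : cD (mv E (Sum.inl e) v) (Psi (d' + 1) p m G) = _ := h5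
              rw [hGq, cDq] at h5'
              rw [h5', hZ e hea heb hec hje, mul_zero, mul_zero, mul_zero, zero_add]
              exact hDG _
          · push Not at hmove
            obtain ⟨hm1, hm2⟩ := hmove
            obtain ⟨w, hw⟩ := exists_cr_ne hqne
            refine ⟨j, w, hsupp, hw, ?_⟩
            have hst : ∀ D : Derivation ℚ ℂ ℂ, cr q (fun l => D (q l)) = 0 →
                ∀ A ∈ Set.range (fun w : V3 => lin q ^ d' * lin w),
                cD D A ∈ Set.range (fun w : V3 => lin q ^ d' * lin w) := by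
              rintro D hD _ ⟨w, rfl⟩
              obtain ⟨c', hc'⟩ := exists_smul_of_cr_eq_zero hqne hD
              refine ⟨((d' : ℂ) * c') • w + (fun l => D (w l)), ?_⟩
              change lin q ^ d' * lin _ = cD D (lin q ^ d' * lin w)
              rw [cD_mul, cD_lin_pow_prop hc', cD_lin, lin_add, lin_smul]
              ring
            refine S.absorb hsq hfull (ρ j) (Set.range (fun w : V3 => lin q ^ d' * lin w))
              ?_ ?_ ?_ ?_ j _ ⟨w, rfl⟩
            · rintro _ ⟨w, rfl⟩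
              exact (lin_isHomogeneous_pow q d').mul (lin_isHomogeneous w)
            · rintro _ ⟨w, rfl⟩
              exact hBw w
            · intro A hA k v
              exact hst _ (hm1 k v) A hA
            · intro A hA e hea heb hec hje v
              exact hst _ (hm2 e hea heb hec hje v) A hA
      obtain ⟨e, w₀, hsupp, hw₀, hw₀J⟩ := hW
      refine S.div' hsq (W := KW ρ a b c (ρ j) e) (Or.inl le_rfl)
        (fun h3 => hfull j hja hjb hjc h3 e) (hG' j) hpair (fun _ => ?_)
      obtain ⟨v, hv0, hv⟩ := exists_ker_ne (gp1 S.hE (Sum.inl j))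
        (evQ (QL E (Sum.inl j) q) (cr q w₀))
      refine ⟨v, hv, ?_⟩
      apply mem_of_C_mul_mem hκ
      have h1v := h1 v
      change C ((d' + 1 + 1 - m j : ℕ) : ℂ) * (lin (p j) ^ (d' + 1 - m j) * (lin v * G j)) ∈ _
      rw [h1v]
      apply Submodule.sub_mem
      · apply C_mul_mem
        obtain ⟨s, t', hst⟩ := exists_comb hw₀
          (show eval (QL E (Sum.inl j) q v) (xl q w₀) = 0 from hv0)
        rw [show (fun l => mv E (Sum.inl j) v (q l)) = s • q + t' • w₀ from hst, lin_add,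
          lin_smul, lin_smul, mul_add]
        apply Submodule.add_mem
        · have : lin q ^ d' * (C s * lin q) = C s * lin q ^ (d' + 1) := by
            rw [pow_succ]; ring
          rw [this, ← hGq]
          exact C_mul_mem _ (Psi_mem_J_rs hG hsupp)
        · have : lin q ^ d' * (C t' * lin w₀) = C t' * (lin q ^ d' * lin w₀) := by ring
          rw [this]
          exact C_mul_mem _ hw₀J
      · apply Psi_mem_J_rs (HH_cD _ hG)
        intro l hl
        change cD _ (G l) = 0
        rw [hsupp l hl, map_zero]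
  have hdivG : ∀ j, j ≠ a → j ≠ b → j ≠ c → lin (p j) ∣ G j := fun j hja hjb hjc =>
    hdivG' _ j hja hjb hjc le_rfl
  -- at most one nonzero component outside
  have huniq : ∀ j j', j ≠ a → j ≠ b → j ≠ c → j' ≠ a → j' ≠ b → j' ≠ c → j ≠ j' →
      G j ≠ 0 → G j' ≠ 0 → False := by
    intro j j' hja hjb hjc hja' hjb' hjc' hjj hj hj'
    obtain ⟨s, n, G₁, e1, e2, e3, e4⟩ := S.exists_fact hG' (hdivG j hja hjb hjc) hj
    obtain ⟨s', n', G₂, e1', e2', e3', e4'⟩ := S.exists_fact hG' (hdivG j' hja' hjb' hjc') hj'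
    exact S.two_nonzero hN hqne hG hGq hjj e1 e2 e3 e4 e1' e2' e3' e4'
  -- the relation is supported on four points
  obtain ⟨e, hea, heb, hec, hrest⟩ : ∃ e, e ≠ a ∧ e ≠ b ∧ e ≠ c ∧
      ∀ i, i ≠ a → i ≠ b → i ≠ c → i ≠ e → G i = 0 := by
    by_cases h : ∃ j, j ≠ a ∧ j ≠ b ∧ j ≠ c ∧ G j ≠ 0
    · obtain ⟨j, hja, hjb, hjc, hj⟩ := h
      refine ⟨j, hja, hjb, hjc, fun i hia hib hic hij => ?_⟩
      by_contra hi
      exact huniq i j hia hib hic hja hjb hjc hij hi hj
    · push Not at h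
      obtain ⟨e, hea, heb, hec⟩ := hex
      exact ⟨e, hea, heb, hec, fun i hia hib hic _ => h i hia hib hic⟩
  obtain ⟨Ge, hGe⟩ := hdivG e hea heb hec
  refine S.test_four hsq hab hac hea.symm hbc heb.symm hec.symm hq hsing (Ga := G a) (Gb := G b)
    (Gc := G c) (Ge := Ge) ?_ ?_
  · intro he
    have h1 := hG' e
    rw [he, mem_Hm_zero, hGe] at h1
    exact (mul_eq_zero.mp h1).resolve_left (lin_prime (gp1 S.hE (Sum.inl e))).ne_zero
  · rw [← hGq, Psi_apply]
    have h1 := sum_eq_four (f := fun i => lin (p i) ^ (d' + 1 + 1 - m i) * G i) hab hac hea.symm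
      hbc heb.symm hec.symm (by
        intro i hia hib hic hie
        rw [hrest i hia hib hic hie, mul_zero])
    rw [h1, hGe]

end Rigid

end Pool.Agent.Work.MP_0421d9_ag
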