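import Pool.Agent.Work.MP_0421d9_ag.RXPeel
import Pool.Agent.Work.MP_0421d9_ag.UAnchor
import Pool.Agent.Work.MP_0421d9_ag.LRaise

/-!
The plane with riders: simple properties, and the case of simple points.
-/

namespace Pool.Agent.Work.MP_0421d9_ag.LD

open MvPolynomial Module

/-! ### systems for arbitrary points -/

theorem linSys_antiX {ι : Type} {D : ℕ} {p : ι → V3} {m m' : ι → ℕ} (h : ∀ i, m i ≤ m' i) :
    linSys D p m' ≤ linSys D p m := fun _ hF => ⟨hF.1, fun i => (hF.2 i).mono (h i)⟩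

theorem linSys_le_chooseX {ι : Type} (D : ℕ) (p : ι → V3) (m : ι → ℕ) :
    finrank ℂ (linSys D p m) ≤ (D + 2).choose 2 := by
  rw [← finrank_Rd D]
  exact Submodule.finrank_mono (linSys_le _ _ _)

theorem linSys_le_succX {ι : Type} (D : ℕ) (p : ι → V3) (m : ι → ℕ) :
    finrank ℂ (linSys D p m) ≤ finrank ℂ (linSys (D + 1) p m) := by
  let φ : linSys D p m →ₗ[ℂ] linSys (D + 1) p m :=
    { toFun := fun F => ⟨X 1 * F.1, by
        have h4 := (isHomogeneous_X ℂ (1 : Fin 3)).mul F.2.1
        rw [add_comm] at h4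
        exact ⟨h4, fun i => vanishTo_X_mul 1 (F.2.2 i)⟩⟩
      map_add' := fun F G => Subtype.ext (by
        change X 1 * (F.1 + G.1) = X 1 * F.1 + X 1 * G.1
        ring)
      map_smul' := fun c F => Subtype.ext (by
        change X 1 * (c • F.1) = c • (X 1 * F.1)
        rw [mul_smul_comm]) }
  refine LinearMap.finrank_le_finrank_of_injective (f := φ) ?_
  intro F G h
  have h1 : X 1 * F.1 = X 1 * G.1 := congrArg Subtype.val h
  exact Subtype.ext (mul_left_cancel₀ (X_ne_zero 1) h1)

theorem linSys_succ_leX {ι : Type} (D : ℕ) (p : ι → V3) (m : ι → ℕ) (hp : ∀ i, p i 2 ≠ 0) :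
    finrank ℂ (linSys (D + 1) p m) ≤ finrank ℂ (linSys D p m) + (D + 2) := by
  set V := linSys (D + 1) p m with hV
  let ρ : R3 →ₗ[ℂ] (Fin (D + 2) → ℂ) :=
    { toFun := fun F j => coeff (ex3 j (D + 1 - j) 0) F
      map_add' := fun F G => by
        funext z
        simp
      map_smul' := fun c F => by
        funext z
        simp }
  have hfin : Module.Finite ℂ V := Submodule.finiteDimensional_of_le (linSys_le _ _ _)
  have hfin' : Module.Finite ℂ (linSys D p m) :=
    Submodule.finiteDimensional_of_le (linSys_le _ _ _)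
  have h1 : finrank ℂ ↥V = finrank ℂ ↥(V ⊓ LinearMap.ker ρ) + finrank ℂ ↥(V.map ρ) :=
    finrank_eq_ker_add_map ρ V
  have h2 : finrank ℂ ↥(V.map ρ) ≤ D + 2 := by
    refine (Submodule.finrank_le _).trans ?_
    rw [finrank_fin_fun]
  have h3 : V ⊓ LinearMap.ker ρ ≤
      (linSys D p m).map (LinearMap.mulLeft ℂ (X 2 ^ 1 : R3)) := by
    rintro F ⟨hF, hF'⟩
    rw [SetLike.mem_coe, hV] at hF
    obtain ⟨h4, h5⟩ := hF
    have h7 := LinearMap.mem_ker.mp hF'
    obtain ⟨G, hG1, hG2, hG3⟩ := exists_div_X2 (δ := D) (u := 1) h4 (fun α hα => by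
      by_contra hcon
      have h10 := deg_eq h4 hα
      have h12 : α 0 < D + 2 := by omega
      have h9 := congrFun h7 ⟨α 0, h12⟩
      have h11 : ex3 (α 0) (D + 1 - α 0) 0 = α := by
        conv_rhs => rw [eq_ex3 α]
        congr 1
        · omega
        · omega
      change coeff (ex3 (α 0) (D + 1 - α 0) 0) F = 0 at h9
      rw [h11] at h9
      exact mem_support_iff.mp hα h9)
    refine Submodule.mem_map.mpr ⟨G, ⟨hG1, fun i => ?_⟩, by rw [LinearMap.mulLeft_apply, hG2]⟩
    have h8 := h5 i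
    rw [hG2] at h8
    exact vanishTo_of_X2_pow_mul (hp i) h8
  have h4 : finrank ℂ ↥(V ⊓ LinearMap.ker ρ) ≤ finrank ℂ ↥(linSys D p m) :=
    (Submodule.finrank_mono h3).trans (Submodule.finrank_map_le _ _)
  omega

/-- the number of conditions -/
theorem van_count {ι : Type} [Fintype ι] {D : ℕ} (p : ι → V3) (m : ι → ℕ) (S : Finset ι)
    (U : Submodule ℂ R3) (hU : U ≤ Rd D) :
    finrank ℂ U ≤ finrank ℂ ↥(U ⊓ ⨅ i ∈ S, vanSub (p i) (m i)) +
      ∑ i ∈ S, (m i + 1).choose 2 := by
  classical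
  induction S using Finset.induction_on with
  | empty =>
    have e1 : (U ⊓ ⨅ i ∈ (∅ : Finset ι), vanSub (p i) (m i)) = U := by simp
    rw [e1]
    exact Nat.le_add_right _ _
  | insert a S ha ih =>
    rw [Finset.sum_insert ha]
    have h1 := finrank_le_van (m := m a) (p a) (U ⊓ ⨅ i ∈ S, vanSub (p i) (m i))
      (inf_le_left.trans hU)
    have h2 : (U ⊓ ⨅ i ∈ S, vanSub (p i) (m i)) ⊓ vanSub (p a) (m a) =
        U ⊓ ⨅ i ∈ insert a S, vanSub (p i) (m i) := by
      rw [Finset.iInf_insert, inf_assoc, inf_comm (⨅ i ∈ S, vanSub (p i) (m i))]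
    rw [h2] at h1
    omega

theorem linSys_countX {ι : Type} [Fintype ι] (D : ℕ) (p : ι → V3) (m : ι → ℕ) :
    (D + 2).choose 2 ≤ finrank ℂ (linSys D p m) + ∑ i, (m i + 1).choose 2 := by
  have h1 := van_count (D := D) p m Finset.univ (Rd D) le_rfl
  rw [finrank_Rd] at h1
  have h2 : (Rd D ⊓ ⨅ i ∈ (Finset.univ : Finset ι), vanSub (p i) (m i) : Submodule ℂ R3) =
      linSys D p m := by
    rw [linSys_infT]
    simp
  rw [h2] at h1
  exact h1

/-! ### the plane with riders -/

section

variable {r n : ℕ}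

theorem hC_anti {k k' : Fin n → ℕ} {D : ℕ} {y y' : Fin r → ℕ} (hy : ∀ i, y i ≤ y' i)
    (hk : ∀ j, k j ≤ k' j) : hC k' D y' ≤ hC k D y := by
  apply Submodule.finrank_mono
  apply linSys_antiX
  rintro (i | j)
  · exact hy i
  · exact hk j

theorem hC_le_choose (k : Fin n → ℕ) (D : ℕ) (y : Fin r → ℕ) : hC k D y ≤ (D + 2).choose 2 :=
  linSys_le_chooseX _ _ _

theorem hC_le_succ (k : Fin n → ℕ) (D : ℕ) (y : Fin r → ℕ) : hC k D y ≤ hC k (D + 1) y :=
  linSys_le_succX _ _ _

theorem hC_mono (k : Fin n → ℕ) {D D' : ℕ} (h : D ≤ D') (y : Fin r → ℕ) :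
    hC k D y ≤ hC k D' y := by
  induction D', h using Nat.le_induction with
  | base => exact le_rfl
  | succ n _ ih => exact ih.trans (hC_le_succ _ _ _)

theorem hC_succ_le (k : Fin n → ℕ) (D : ℕ) (y : Fin r → ℕ) :
    hC k (D + 1) y ≤ hC k D y + (D + 2) :=
  linSys_succ_leX _ _ _ fun i => conf_ne (gC_generic r n) i 2

theorem hC_count (k : Fin n → ℕ) (D : ℕ) (y : Fin r → ℕ) :
    (D + 2).choose 2 ≤ hC k D y + ∑ i, (y i + 1).choose 2 + ∑ j, (k j + 1).choose 2 := by
  have h1 := linSys_countX D (conf (gC r n)) (Sum.elim y k)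
  rw [Fintype.sum_sum_type] at h1
  simp only [Sum.elim_inl, Sum.elim_inr] at h1
  have h2 : finrank ℂ (linSys D (conf (gC r n)) (Sum.elim y k)) = hC k D y := rfl
  omega

/-- removing some of the points -/
theorem hC_drop (k : Fin n → ℕ) (D : ℕ) (y : Fin r → ℕ) (S : Finset (Fin r)) :
    hC k D (fun i => if i ∈ S then 0 else y i) ≤ hC k D y + ∑ i ∈ S, (y i + 1).choose 2 := by
  classical
  have h1 := van_count (D := D) (fun i : Fin r => conf (gC r n) (Sum.inl i)) y S
    (linSys D (conf (gC r n)) (Sum.elim (fun i => if i ∈ S then 0 else y i) k)) (linSys_le _ _ _)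
  refine h1.trans (Nat.add_le_add_right ?_ _)
  have hfin : Module.Finite ℂ ↥(linSys D (conf (gC r n)) (Sum.elim y k)) :=
    Submodule.finiteDimensional_of_le (linSys_le _ _ _)
  apply Submodule.finrank_mono
  rintro F ⟨hF, hF'⟩
  refine ⟨hF.1, ?_⟩
  rw [SetLike.mem_coe, Submodule.mem_iInf] at hF'
  rintro (i | j)
  · by_cases hi : i ∈ S
    · have h2 := hF' i
      rw [Submodule.mem_iInf] at h2
      exact h2 hi
    · have h2 := hF.2 (Sum.inl i)
      simp only [Sum.elim_inl, if_neg hi] at h2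
      exact h2
  · exact hF.2 (Sum.inr j)

/-- the parameters of some of the points -/
def CImap {r r' n n' : ℕ} (e : Fin r' → Fin r) (f : Fin n' → Fin n) : CI r' n' → CI r n :=
  Sum.map e (Sum.map id f)

theorem CImap_injective {r r' n n' : ℕ} {e : Fin r' → Fin r} {f : Fin n' → Fin n}
    (he : Function.Injective e) (hf : Function.Injective f) : Function.Injective (CImap e f) :=
  Function.Injective.sumMap he (Function.Injective.sumMap Function.injective_id hf)

theorem generic_CI {r r' n n' : ℕ} {e : Fin r' → Fin r} {f : Fin n' → Fin n}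
    (he : Function.Injective e) (hf : Function.Injective f) {x : CI r n → V3}
    (hx : GenericPoints x) : GenericPoints (fun i => x (CImap e f i)) := by
  have h1 := AlgebraicIndependent.comp hx
    (fun z : CI r' n' × Fin 3 => ((CImap e f z.1, z.2) : CI r n × Fin 3)) (by
      rintro ⟨a, b⟩ ⟨c, d⟩ h
      simp only [Prod.mk.injEq] at h
      exact Prod.ext (CImap_injective he hf h.1) h.2)
  exact h1

theorem conf_CI {r r' n n' : ℕ} (e : Fin r' → Fin r) (f : Fin n' → Fin n) (x : CI r n → V3)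
    (i : Fin r' ⊕ Fin n') : conf (fun i => x (CImap e f i)) i = conf x (Sum.map e f i) := by
  rcases i with i | j <;> rfl

/-- some of the points -/
theorem hC_comp_le {r r' n n' : ℕ} {e : Fin r' → Fin r} {f : Fin n' → Fin n}
    (he : Function.Injective e) (hf : Function.Injective f) (k : Fin n → ℕ) (D : ℕ)
    (y : Fin r → ℕ) : hC k D y ≤ hC (fun j => k (f j)) D (fun i => y (e i)) := by
  rw [← hC_eq (generic_CI he hf (gC_generic r n))]
  apply Submodule.finrank_mono
  intro F hF
  refine ⟨hF.1, fun i => ?_⟩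
  rw [conf_CI]
  have h1 := hF.2 (Sum.map e f i)
  rcases i with i | j
  · exact h1
  · exact h1

/-- the points of multiplicity zero do not matter -/
theorem hC_comp_eq {r r' n n' : ℕ} {e : Fin r' → Fin r} {f : Fin n' → Fin n}
    (he : Function.Injective e) (hf : Function.Injective f) {k : Fin n → ℕ} {D : ℕ}
    {y : Fin r → ℕ} (hy : ∀ i, i ∉ Set.range e → y i = 0) (hk : ∀ j, j ∉ Set.range f → k j = 0) :
    hC k D y = hC (fun j => k (f j)) D (fun i => y (e i)) := by
  refine le_antisymm (hC_comp_le he hf k D y) ?_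
  rw [← hC_eq (generic_CI he hf (gC_generic r n))]
  apply Submodule.finrank_mono
  intro F hF
  refine ⟨hF.1, fun i => ?_⟩
  rcases i with i | j
  · by_cases hi : i ∈ Set.range e
    · obtain ⟨i', rfl⟩ := hi
      have h1 := hF.2 (Sum.inl i')
      rw [conf_CI] at h1
      exact h1
    · simp only [Sum.elim_inl]
      rw [hy i hi]
      exact mp_vanish_zero _ _
  · by_cases hj : j ∈ Set.range f
    · obtain ⟨j', rfl⟩ := hj
      have h1 := hF.2 (Sum.inr j')
      rw [conf_CI] at h1
      exact h1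
    · simp only [Sum.elim_inr]
      rw [hk j hj]
      exact mp_vanish_zero _ _

/-- no riders -/
theorem hC_zero (D : ℕ) (y : Fin r → ℕ) : hC (fun _ : Fin n => 0) D y = hPm D y := by
  have hx : GenericPoints (fun i : Fin r => gC r n (Sum.inl i)) := by
    have h1 := AlgebraicIndependent.comp (gC_generic r n)
      (fun z : Fin r × Fin 3 => ((Sum.inl z.1, z.2) : CI r n × Fin 3)) (by
        rintro ⟨a, b⟩ ⟨c, d⟩ h
        simp only [Prod.mk.injEq, Sum.inl.injEq] at h
        exact Prod.ext h.1 h.2)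
    exact h1
  rw [← hPm_eq hx]
  unfold hC
  have h1 : linSys D (conf (gC r n)) (Sum.elim y fun _ : Fin n => 0) =
      linSys D (fun i : Fin r => gC r n (Sum.inl i)) y := by
    ext F
    constructor
    · exact fun hF => ⟨hF.1, fun i => hF.2 (Sum.inl i)⟩
    · intro hF
      refine ⟨hF.1, fun i => ?_⟩
      rcases i with i | j
      · exact hF.2 i
      · exact mp_vanish_zero _ _
  rw [h1]

end

/-! ### riders alone -/

theorem dvd_onLine {q v : V3} {c : ℂ} {m : ℕ} {F : R3} (h : VanishTo F (fun l => q l + c * v l) m) :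
    (Polynomial.X - Polynomial.C c) ^ m ∣ onLine q v F := by
  rw [Polynomial.X_sub_C_pow_dvd_iff, Polynomial.X_pow_dvd_iff]
  intro d hd
  have h1 := onLine_shift q v c F
  rw [← h1, coeff_onLine]
  have h2 : (q + c • v : V3) = fun l => q l + c * v l := by
    funext l
    simp
  rw [h2, h d hd, map_zero]

/-- the points on the line `X 2 = 0` -/
theorem riders_step {n : ℕ} {s : Fin n → ℂ} (hs : Function.Injective s) (k : Fin n → ℕ) (D : ℕ) :
    finrank ℂ (linSys (D + 1) (ride e1 e0 s) k) ≤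
      finrank ℂ (linSys D (ride e1 e0 s) fun j => k j - 1) + (D + 2 - ∑ j, k j) := by
  classical
  set V := linSys (D + 1) (ride e1 e0 s) k with hV
  let φ : R3 →ₗ[ℂ] Polynomial ℂ := (onLine e1 e0).toLinearMap
  have hφ : ∀ F, φ F = onLine e1 e0 F := fun F => rfl
  have hfin : Module.Finite ℂ V := Submodule.finiteDimensional_of_le (linSys_le _ _ _)
  have hfin' : Module.Finite ℂ (linSys D (ride e1 e0 s) fun j => k j - 1) :=
    Submodule.finiteDimensional_of_le (linSys_le _ _ _)
  obtain ⟨P, hP⟩ : ∃ P : Polynomial ℂ, P = ∏ j, (Polynomial.X - Polynomial.C (s j)) ^ k j :=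
    ⟨_, rfl⟩
  have hP0 : P ≠ 0 := by
    rw [hP]
    exact Finset.prod_ne_zero_iff.mpr fun _ _ => pow_ne_zero _ (Polynomial.X_sub_C_ne_zero _)
  have hPd : P.natDegree = ∑ j, k j := by
    rw [hP, Polynomial.natDegree_prod _ _
      (fun _ _ => pow_ne_zero _ (Polynomial.X_sub_C_ne_zero _))]
    refine Finset.sum_congr rfl fun i _ => ?_
    rw [Polynomial.natDegree_pow, Polynomial.natDegree_X_sub_C, mul_one]
  have h1 : finrank ℂ ↥V = finrank ℂ ↥(V ⊓ LinearMap.ker φ) + finrank ℂ ↥(V.map φ) :=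
    finrank_eq_ker_add_map φ V
  have h2 : finrank ℂ ↥(V.map φ) ≤ D + 2 - ∑ j, k j := by
    refine le_trans (Submodule.finrank_mono ?_) (UA.finrank_Wd_le P (D + 2) (∑ j, k j))
    rintro _ ⟨F, hF, rfl⟩
    rw [SetLike.mem_coe, hV] at hF
    refine UA.mem_Wd hP0 hPd ?_ ?_
    · rw [hP, hφ]
      refine Finset.prod_dvd_of_coprime ?_ fun j _ => dvd_onLine (hF.2 j)
      intro i _ j _ hij
      apply IsCoprime.pow
      exact Polynomial.pairwise_coprime_X_sub_C hs hij
    · intro a ha
      exact onLine_coeff_zero hF.1 (by omega)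
  have h3 : finrank ℂ ↥(V ⊓ LinearMap.ker φ) ≤
      finrank ℂ (linSys D (ride e1 e0 s) fun j => k j - 1) := by
    refine le_trans (Submodule.finrank_mono ?_)
      (Submodule.finrank_map_le (LinearMap.mulLeft ℂ (X 2 ^ 1 : R3)) _)
    intro F hF
    obtain ⟨h3, h4⟩ := Submodule.mem_inf.mp hF
    rw [LinearMap.mem_ker, hφ] at h4
    obtain ⟨G, hG1, hG2, hG3⟩ := exists_div_of_onLine h3.1 h4
    refine ⟨G, ⟨hG1, fun j => ?_⟩, by rw [LinearMap.mulLeft_apply, hG2]⟩
    have h5 := h3.2 j
    rw [hG2, pow_one] at h5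
    have h6 : (X 2 : R3) = lin ![0, 0, 1] := by
      simp [lin, Fin.sum_univ_three]
    rw [h6] at h5
    refine vanishTo_of_mul_eq ?_ h5 ?_
    · intro h7
      have := congrFun h7 2
      simp at this
    · rw [← h6, eval_X]
      simp [ride, e0, e1]
  omega

theorem riders_alone {n : ℕ} {s : Fin n → ℂ} (hs : Function.Injective s) (D : ℕ) :
    ∀ k : Fin n → ℕ, ∑ j, k j ≤ D + 1 →
      finrank ℂ (linSys D (ride e1 e0 s) k) + ∑ j, (k j + 1).choose 2 ≤ (D + 2).choose 2 := by
  have hch : ∀ k : Fin n → ℕ, ∑ j, (k j + 1).choose 2 =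
      ∑ j, (k j - 1 + 1).choose 2 + ∑ j, k j := by
    intro k
    rw [← Finset.sum_add_distrib]
    refine Finset.sum_congr rfl fun j _ => ?_
    rcases Nat.eq_zero_or_pos (k j) with h | h
    · rw [h]
      rfl
    · obtain ⟨a, ha⟩ : ∃ a, k j = a + 1 := ⟨k j - 1, by omega⟩
      rw [ha, Nat.add_sub_cancel, Nat.choose_succ_succ' (a + 1) 1, Nat.choose_one_right]
      ring
  induction D with
  | zero =>
    intro k hk
    by_cases h0 : ∀ j, k j = 0
    · have h1 := linSys_le_chooseX 0 (ride e1 e0 s) k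
      have h2 : ∑ j, (k j + 1).choose 2 = 0 := Finset.sum_eq_zero fun j _ => by rw [h0 j]; rfl
      omega
    · push Not at h0
      obtain ⟨j, hj⟩ := h0
      have h1 : ∑ j, (k j + 1).choose 2 ≤ 1 := by
        have h2 : ∀ j, (k j + 1).choose 2 ≤ k j := by
          intro j
          have h3 : k j ≤ 1 := (Finset.single_le_sum (f := k) (fun _ _ => Nat.zero_le _)
            (Finset.mem_univ j)).trans hk
          interval_cases k j <;> decide
        exact (Finset.sum_le_sum fun j _ => h2 j).trans hk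
      have h2 : linSys 0 (ride e1 e0 s) k = ⊥ := by
        rw [Submodule.eq_bot_iff]
        intro F hF
        have h3 := dvd_onLine (q := e1) (v := e0) (c := s j) (m := k j) (F := F) (hF.2 j)
        obtain ⟨c, hc⟩ : ∃ c : ℂ, F = C c := ⟨_, (totalDegree_eq_zero_iff_eq_C.1
          (Nat.le_zero.1 hF.1.totalDegree_le))⟩
        rw [hc] at h3 ⊢
        have h4 : onLine e1 e0 (C c) = Polynomial.C c := by
          unfold onLine
          rw [algHom_C]
          rfl
        rw [h4] at h3
        by_cases hc0 : c = 0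
        · rw [hc0, C_0]
        · exfalso
          have h5 := Polynomial.natDegree_le_of_dvd h3 (Polynomial.C_ne_zero.2 hc0)
          rw [Polynomial.natDegree_pow, Polynomial.natDegree_X_sub_C, Polynomial.natDegree_C] at h5
          omega
      rw [h2, finrank_bot]
      have h3 : (0 + 2).choose 2 = 1 := rfl
      omega
  | succ D ih =>
    intro k hk
    have h1 := riders_step hs k D
    have h2 : ∑ j, (k j - 1) ≤ D + 1 := by
      by_cases h0 : ∀ j, k j = 0
      · rw [Finset.sum_eq_zero fun j _ => by simp [h0 j]]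
        omega
      · push Not at h0
        obtain ⟨j, hj⟩ := h0
        have h3 : ∑ j, (k j - 1) < ∑ j, k j :=
          Finset.sum_lt_sum (fun i _ => Nat.sub_le _ _) ⟨j, Finset.mem_univ j, by omega⟩
        omega
    have h3 := ih (fun j => k j - 1) h2
    have h4 := hch k
    have h5 : (D + 1 + 2).choose 2 = (D + 2).choose 2 + (D + 2) := by
      rw [Nat.choose_succ_succ' (D + 2) 1, Nat.choose_one_right]
      ring
    omega

/-! ### simple points -/

theorem simple_points {ι : Type} [Finite ι] {D : ℕ} {U : Submodule ℂ R3} (hU : U ≤ Rd D)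
    {y : ι → ℕ} (hy : ∀ i, y i ≤ 1) (S : Finset ι) :
    ∃ p : ι → V3, finrank ℂ ↥(U ⊓ ⨅ i ∈ S, vanSub (p i) (y i)) ≤ finrank ℂ U - ∑ i ∈ S, y i := by
  classical
  induction S using Finset.induction_on with
  | empty =>
    have e1 : (U ⊓ ⨅ i ∈ (∅ : Finset ι), vanSub ((fun _ => 0 : ι → V3) i) (y i)) = U := by simp
    refine ⟨fun _ => 0, ?_⟩
    rw [e1]
    simp
  | insert a S ha ih =>
    obtain ⟨p, hp⟩ := ih
    rw [Finset.sum_insert ha]
    obtain ⟨W, hW⟩ : ∃ W, W = U ⊓ ⨅ i ∈ S, vanSub (p i) (y i) := ⟨_, rfl⟩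
    rw [← hW] at hp
    have hWU : W ≤ Rd D := by
      rw [hW]
      exact inf_le_left.trans hU
    have hfin : Module.Finite ℂ W := Submodule.finiteDimensional_of_le hWU
    have hins : ∀ b : V3, (U ⊓ ⨅ i ∈ insert a S, vanSub (Function.update p a b i) (y i)) =
        W ⊓ vanSub b (y a) := by
      intro b
      rw [hW, Finset.iInf_insert, Function.update_self]
      have h1 : (⨅ i ∈ S, vanSub (Function.update p a b i) (y i)) =
          ⨅ i ∈ S, vanSub (p i) (y i) := by
        refine iInf_congr fun i => iInf_congr fun hi => ?_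
        have hne : i ≠ a := fun h => ha (h ▸ hi)
        rw [Function.update_of_ne hne]
      rw [h1, inf_assoc, inf_comm (vanSub b (y a))]
    rcases Nat.eq_zero_or_pos (y a) with h0 | h0
    · refine ⟨Function.update p a 0, ?_⟩
      rw [hins, h0]
      have h1 : finrank ℂ ↥(W ⊓ vanSub 0 0) ≤ finrank ℂ W := Submodule.finrank_mono inf_le_left
      omega
    · have h1 : y a = 1 := le_antisymm (hy a) h0
      by_cases hW0 : W = ⊥
      · refine ⟨Function.update p a 0, ?_⟩
        rw [hins, hW0, bot_inf_eq, finrank_bot]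
        exact Nat.zero_le _
      · obtain ⟨F, hF, hF0⟩ := Submodule.exists_mem_ne_zero_of_ne_bot hW0
        obtain ⟨b, hb⟩ : ∃ b : V3, eval b F ≠ 0 := by
          by_contra hcon
          push Not at hcon
          apply hF0
          apply MvPolynomial.funext
          intro y
          rw [hcon y, map_zero]
        refine ⟨Function.update p a b, ?_⟩
        rw [hins, h1]
        have h2 : W ⊓ vanSub b 1 < W := by
          refine lt_of_le_of_ne inf_le_left ?_
          intro h4
          rw [← h4] at hF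
          exact hb (vanishTo_one_iff.mp hF.2)
        have h3 := Submodule.finrank_lt_finrank_of_lt h2
        omega

/-- simple points and riders -/
theorem hC_simple {r n : ℕ} {k : Fin n → ℕ} {D : ℕ} {y : Fin r → ℕ} (hy : ∀ i, y i ≤ 1)
    (hk : ∑ j, k j ≤ D + 1) :
    hC k D y = (D + 2).choose 2 - (∑ i, (y i + 1).choose 2 + ∑ j, (k j + 1).choose 2) := by
  classical
  have hs : Function.Injective (fun j : Fin n => ((j : ℕ) : ℂ)) := fun a b h =>
    Fin.ext (Nat.cast_injective h)
  have h1 := riders_alone hs D k hk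
  obtain ⟨p, hp⟩ := simple_points (D := D)
    (U := linSys D (ride e1 e0 fun j : Fin n => ((j : ℕ) : ℂ)) k) (linSys_le _ _ _) hy Finset.univ
  have h2 := hC_le' k D y p e1 e0 fun j : Fin n => ((j : ℕ) : ℂ)
  have h3 : linSys D (Sum.elim p (ride e1 e0 fun j : Fin n => ((j : ℕ) : ℂ))) (Sum.elim y k) ≤
      linSys D (ride e1 e0 fun j : Fin n => ((j : ℕ) : ℂ)) k ⊓
        ⨅ i ∈ (Finset.univ : Finset (Fin r)), vanSub (p i) (y i) := by
    intro F hF
    refine ⟨⟨hF.1, fun j => hF.2 (Sum.inr j)⟩, ?_⟩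
    rw [SetLike.mem_coe, Submodule.mem_iInf]
    intro i
    rw [Submodule.mem_iInf]
    intro _
    exact hF.2 (Sum.inl i)
  have hfin : Module.Finite ℂ ↥(linSys D (ride e1 e0 fun j : Fin n => ((j : ℕ) : ℂ)) k ⊓
        ⨅ i ∈ (Finset.univ : Finset (Fin r)), vanSub (p i) (y i)) :=
    Submodule.finiteDimensional_of_le (inf_le_left.trans (linSys_le _ _ _))
  have h4 : finrank ℂ ↥(linSys D (Sum.elim p (ride e1 e0 fun j : Fin n => ((j : ℕ) : ℂ)))
      (Sum.elim y k)) ≤ finrank ℂ ↥(linSys D (ride e1 e0 fun j : Fin n => ((j : ℕ) : ℂ)) k ⊓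
        ⨅ i ∈ (Finset.univ : Finset (Fin r)), vanSub (p i) (y i)) := Submodule.finrank_mono h3
  have h7 := h2.trans (h4.trans (hp.trans
    (Nat.sub_le_sub_right (Nat.le_sub_of_add_le h1) _)))
  clear h2 h3 h4 hp h1
  have h5 := hC_count k D y
  have h6 : ∑ i, (y i + 1).choose 2 = ∑ i, y i := by
    refine Finset.sum_congr rfl fun i _ => ?_
    have h := hy i
    interval_cases y i <;> rfl
  omega

end Pool.Agent.Work.MP_0421d9_ag.LD
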