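import Pool.Agent.Work.MP_0421d9_ag.ZXKill

/-!
Generic points of the plane and further points (riders) on a line: definitions and
semicontinuity.
-/

namespace Pool.Agent.Work.MP_0421d9_ag.LD

open MvPolynomial Module

/-- points on the line through `A` and `B` -/
def ride {n : ℕ} (A B : V3) (s : Fin n → ℂ) : Fin n → V3 := fun j l => A l + s j * B l

/-- the indices of the parameters: `r` points, two points which span the line, and `n` vectors
whose first coordinates are the positions on the line -/
abbrev CI (r n : ℕ) : Type := Fin r ⊕ (Bool ⊕ Fin n)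

/-- the points with the parameters `x` -/
def conf {r n : ℕ} (x : CI r n → V3) : Fin r ⊕ Fin n → V3 :=
  Sum.elim (fun i => x (Sum.inl i)) (ride (x (Sum.inr (Sum.inl false)))
    (x (Sum.inr (Sum.inl true))) fun j => x (Sum.inr (Sum.inr j)) 0)

/-- the parameters of given points -/
def rpar {r n : ℕ} (p : Fin r → V3) (A B : V3) (s : Fin n → ℂ) : CI r n → V3 :=
  Sum.elim p (Sum.elim (fun b => if b then B else A) fun j _ => s j)

theorem conf_rpar {r n : ℕ} (p : Fin r → V3) (A B : V3) (s : Fin n → ℂ) :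
    conf (rpar p A B s) = Sum.elim p (ride A B s) := rfl

theorem exists_genericT (κ : Type) [Finite κ] : ∃ p : κ → V3, GenericPoints p := by
  obtain ⟨s, hs⟩ := exists_extension (ι := Fin 0) (κ := κ) (fun i => i.elim0)
    (algebraicIndependent_empty_type)
  refine ⟨s, ?_⟩
  have h1 := AlgebraicIndependent.comp hs
    (fun z : κ × Fin 3 => ((Sum.inr z.1, z.2) : (Fin 0 ⊕ κ) × Fin 3)) (by
      rintro ⟨a, b⟩ ⟨c, d⟩ h
      simp only [Prod.mk.injEq, Sum.inr.injEq] at h
      exact Prod.ext h.1 h.2)
  exact h1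

/-- generic parameters -/
noncomputable def gC (r n : ℕ) : CI r n → V3 := (exists_genericT (CI r n)).choose

theorem gC_generic (r n : ℕ) : GenericPoints (gC r n) := (exists_genericT (CI r n)).choose_spec

/-- the dimension of the forms of degree `D` with the multiplicities `y` at `r` generic points and
`k` at `n` generic points of a line -/
noncomputable def hC {r n : ℕ} (k : Fin n → ℕ) (D : ℕ) (y : Fin r → ℕ) : ℕ :=
  finrank ℂ (linSys D (conf (gC r n)) (Sum.elim y k))

/-! ### semicontinuity -/

/-- the coordinates of the points on the line between two configurations -/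
noncomputable def confP {r n : ℕ} (x₀ x₁ : CI r n → V3) : Fin r ⊕ Fin n → Fin 3 → Polynomial ℂ :=
  fun i l => match i with
    | Sum.inl i => Polynomial.C (x₀ (Sum.inl i) l) +
        Polynomial.X * Polynomial.C (x₁ (Sum.inl i) l - x₀ (Sum.inl i) l)
    | Sum.inr j => Polynomial.C (x₀ (Sum.inr (Sum.inl false)) l) +
        Polynomial.X * Polynomial.C (x₁ (Sum.inr (Sum.inl false)) l -
          x₀ (Sum.inr (Sum.inl false)) l) +
        (Polynomial.C (x₀ (Sum.inr (Sum.inr j)) 0) + Polynomial.X *
          Polynomial.C (x₁ (Sum.inr (Sum.inr j)) 0 - x₀ (Sum.inr (Sum.inr j)) 0)) *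
        (Polynomial.C (x₀ (Sum.inr (Sum.inl true)) l) +
        Polynomial.X * Polynomial.C (x₁ (Sum.inr (Sum.inl true)) l -
          x₀ (Sum.inr (Sum.inl true)) l))

theorem confP_eval {r n : ℕ} (x₀ x₁ : CI r n → V3) (i : Fin r ⊕ Fin n) (τ : ℂ) :
    (fun l => (confP x₀ x₁ i l).eval τ) = conf (fun z l => x₀ z l + τ * (x₁ z l - x₀ z l)) i := by
  funext l
  rcases i with i | j
  · simp [confP, conf]
  · simp [confP, conf, ride]

theorem linSys_infT {ι : Type} (d : ℕ) (p : ι → V3) (y : ι → ℕ) :
    linSys d p y = Rd d ⊓ ⨅ i, vanSub (p i) (y i) := by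
  ext F
  rw [Submodule.mem_inf, Submodule.mem_iInf]
  rfl

/-- generic parameters give the smallest dimension -/
theorem conf_generic_le {r n D : ℕ} {m : Fin r ⊕ Fin n → ℕ} {x : CI r n → V3}
    (hx : GenericPoints x) (x₀ : CI r n → V3) :
    finrank ℂ (linSys D (conf x) m) ≤ finrank ℂ (linSys D (conf x₀) m) := by
  classical
  obtain ⟨c₁, hc₁⟩ := exists_extension (κ := CI r n) x hx
  have hfam : PolyFam (fun τ => ⨅ i, vanSub (fun l => (confP x₀ c₁ i l).eval τ) (m i)) :=
    PolyFam.iInf (fun i => polyFam_van (confP x₀ c₁ i) (m i))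
  obtain ⟨g, hg, h1⟩ := hfam.semicont (Rd D) 0
  have h1' : ∀ τ, g.eval τ ≠ 0 →
      finrank ℂ (linSys D (conf fun z l => x₀ z l + τ * (c₁ z l - x₀ z l)) m) ≤
        finrank ℂ (linSys D (conf x₀) m) := by
    intro τ hτ
    have h2 := h1 τ hτ
    rw [linSys_infT, linSys_infT]
    have e1 : ∀ τ : ℂ, (fun i : Fin r ⊕ Fin n => vanSub (fun l => (confP x₀ c₁ i l).eval τ) (m i)) =
        fun i => vanSub (conf (fun z l => x₀ z l + τ * (c₁ z l - x₀ z l)) i) (m i) := by
      intro τ
      funext i
      rw [confP_eval]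
    have e2 : (fun (z : CI r n) (l : Fin 3) => x₀ z l + 0 * (c₁ z l - x₀ z l)) = x₀ := by
      funext z l
      ring
    rw [e1, e1, e2] at h2
    exact h2
  obtain ⟨t, ht, hind⟩ := exists_line
    (fun z : (CI r n ⊕ CI r n) × Fin 3 => Sum.elim x x₀ z.1 z.2) _ hc₁
    (S := {t | g.eval t = 0}) (Set.Finite.countable (by
      refine (g.roots.toFinset.finite_toSet).subset ?_
      intro t ht
      rw [Finset.mem_coe, Multiset.mem_toFinset, Polynomial.mem_roots (ne_zero_of_eval hg)]
      exact ht))
  have h2 := h1' t ht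
  set c : CI r n → V3 := fun i l => x₀ i l + t * (c₁ i l - x₀ i l) with hc
  have h3 : (fun z : (CI r n ⊕ CI r n) × Fin 3 => (fun z : (CI r n ⊕ CI r n) × Fin 3 =>
      Sum.elim x x₀ z.1 z.2) z + t * ((fun z : (CI r n ⊕ CI r n) × Fin 3 =>
      Sum.elim x c₁ z.1 z.2) z - (fun z : (CI r n ⊕ CI r n) × Fin 3 =>
      Sum.elim x x₀ z.1 z.2) z)) = fun z => Sum.elim x c z.1 z.2 := by
    funext z
    rcases z with ⟨i | i, l⟩
    · simp
    · simp [hc]
  rw [h3] at hind
  obtain ⟨s, hs⟩ := exists_auto hind (Equiv.sumComm (CI r n) (CI r n))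
  have h4 : (fun (i : CI r n) (l : Fin 3) => s (x i l)) = c := by
    funext i l
    exact hs (Sum.inl i) l
  have h5 : (fun (i : Fin r ⊕ Fin n) (l : Fin 3) => s (conf x i l)) = conf c := by
    rw [← h4]
    funext i l
    rcases i with i | j
    · rfl
    · simp [conf, ride]
  rw [finrank_linSys_map s D (conf x) m, h5]
  exact h2

theorem hC_le {r n : ℕ} (k : Fin n → ℕ) (D : ℕ) (y : Fin r → ℕ) (x₀ : CI r n → V3) :
    hC k D y ≤ finrank ℂ (linSys D (conf x₀) (Sum.elim y k)) :=
  conf_generic_le (gC_generic r n) x₀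

/-- semicontinuity: arbitrary points and arbitrary points on an arbitrary line bound the generic
value -/
theorem hC_le' {r n : ℕ} (k : Fin n → ℕ) (D : ℕ) (y : Fin r → ℕ) (p : Fin r → V3) (A B : V3)
    (s : Fin n → ℂ) :
    hC k D y ≤ finrank ℂ (linSys D (Sum.elim p (ride A B s)) (Sum.elim y k)) :=
  hC_le k D y (rpar p A B s)

theorem hC_eq {r n : ℕ} {k : Fin n → ℕ} {D : ℕ} {y : Fin r → ℕ} {x : CI r n → V3}
    (hx : GenericPoints x) : finrank ℂ (linSys D (conf x) (Sum.elim y k)) = hC k D y :=
  le_antisymm (conf_generic_le hx _) (hC_le k D y x)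

/-- algebraically independent numbers can be extended -/
theorem exists_extensionF {σ κ : Type} [Finite σ] [Finite κ] (z : σ → ℂ)
    (hz : AlgebraicIndependent ℚ z) : ∃ w : κ → ℂ, AlgebraicIndependent ℚ (Sum.elim z w) := by
  classical
  obtain ⟨t, ht, ht'⟩ := exists_isTranscendenceBasis_superset hz.coe_range
  have hcard : Cardinal.mk ℂ = Cardinal.mk t :=
    IsAlgClosed.cardinal_eq_cardinal_transcendence_basis_of_aleph0_lt' _ ht'
      Cardinal.mk_le_aleph0 (by rw [Cardinal.mk_complex]; exact Cardinal.aleph0_lt_continuum)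
  have hinf : t.Infinite := by
    rw [← Set.infinite_coe_iff, Cardinal.infinite_iff, ← hcard, Cardinal.mk_complex]
    exact Cardinal.aleph0_le_continuum
  have hinf' : (t \ Set.range z).Infinite := hinf.sdiff (Set.finite_range _)
  obtain ⟨f, hf, hfinj⟩ : ∃ f : κ → ℂ, (∀ z', f z' ∈ t ∧ f z' ∉ Set.range z) ∧
      Function.Injective f := by
    obtain ⟨n, ⟨e⟩⟩ := Finite.exists_equiv_fin κ
    refine ⟨fun z => (hinf'.natEmbedding _ (e z)).1, fun z => (hinf'.natEmbedding _ (e z)).2, ?_⟩
    intro z z' h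
    have h1 := Subtype.ext h
    have h2 := (hinf'.natEmbedding _).injective h1
    exact e.injective (Fin.ext h2)
  refine ⟨f, ?_⟩
  have hmem : ∀ i : σ ⊕ κ, Sum.elim z f i ∈ t := by
    rintro (i | k)
    · exact ht ⟨i, rfl⟩
    · exact (hf k).1
  have hinj : ∀ i i' : σ ⊕ κ, Sum.elim z f i = Sum.elim z f i' → i = i' := by
    rintro (i | k) (i' | k') h
    · exact congrArg Sum.inl (hz.injective h)
    · exact absurd ⟨i, h⟩ (hf k').2
    · exact absurd ⟨i', h.symm⟩ (hf k).2
    · exact congrArg Sum.inr (hfinj h)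
  exact ht'.1.comp (fun i : σ ⊕ κ => (⟨Sum.elim z f i, hmem i⟩ : t))
    (fun i i' h => hinj i i' (congrArg Subtype.val h))

/-- the parameters of a configuration -/
def rparF {r n : ℕ} (p : Fin r → V3) (A B : V3) (s : Fin n → ℂ) :
    ((Fin r ⊕ Bool) × Fin 3) ⊕ Fin n → ℂ :=
  Sum.elim (fun z => Sum.elim p (fun b => if b then B else A) z.1 z.2) s

/-- every configuration with algebraically independent parameters gives the generic value -/
theorem hC_eq' {r n : ℕ} {k : Fin n → ℕ} {D : ℕ} {y : Fin r → ℕ} {p : Fin r → V3} {A B : V3}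
    {s : Fin n → ℂ} (h : AlgebraicIndependent ℚ (rparF p A B s)) :
    finrank ℂ (linSys D (Sum.elim p (ride A B s)) (Sum.elim y k)) = hC k D y := by
  classical
  obtain ⟨x, hx, hx'⟩ : ∃ x : CI r n → V3, GenericPoints x ∧
      conf x = Sum.elim p (ride A B s) := by
    obtain ⟨w, hw⟩ := exists_extensionF (κ := Fin n × Fin 3) _ h
    refine ⟨fun z l => match z with
      | Sum.inl i => p i l
      | Sum.inr (Sum.inl b) => (if b then B else A) l
      | Sum.inr (Sum.inr j) => if l = 0 then s j else w (j, l), ?_, ?_⟩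
    · let φ : CI r n × Fin 3 → (((Fin r ⊕ Bool) × Fin 3) ⊕ Fin n) ⊕ (Fin n × Fin 3) := fun z =>
        match z.1 with
        | Sum.inl i => Sum.inl (Sum.inl (Sum.inl i, z.2))
        | Sum.inr (Sum.inl b) => Sum.inl (Sum.inl (Sum.inr b, z.2))
        | Sum.inr (Sum.inr j) => if z.2 = 0 then Sum.inl (Sum.inr j) else Sum.inr (j, z.2)
      have hφ : Function.Injective φ := by
        rintro ⟨i | b | j, l⟩ ⟨i' | b' | j', l'⟩ h2 <;> simp only [φ] at h2
        · simp only [Sum.inl.injEq, Prod.mk.injEq] at h2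
          rw [h2.1, h2.2]
        · simp at h2
        · split_ifs at h2 <;> simp at h2
        · simp at h2
        · simp only [Sum.inl.injEq, Sum.inr.injEq, Prod.mk.injEq] at h2
          rw [h2.1, h2.2]
        · split_ifs at h2 <;> simp at h2
        · split_ifs at h2 <;> simp at h2
        · split_ifs at h2 <;> simp at h2
        · by_cases h3 : l = 0
          · by_cases h4 : l' = 0
            · rw [if_pos h3, if_pos h4] at h2
              simp only [Sum.inl.injEq, Sum.inr.injEq] at h2
              rw [h2, h3, h4]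
            · rw [if_pos h3, if_neg h4] at h2
              simp at h2
          · by_cases h4 : l' = 0
            · rw [if_neg h3, if_pos h4] at h2
              simp at h2
            · rw [if_neg h3, if_neg h4] at h2
              simp only [Sum.inr.injEq, Prod.mk.injEq] at h2
              rw [h2.1, h2.2]
      have h2 := hw.comp φ hφ
      refine cast ?_ h2
      congr 1
      funext z
      rcases z with ⟨i | b | j, l⟩
      · rfl
      · rfl
      · simp only [φ, Function.comp]
        split_ifs with h3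
        · rfl
        · rfl
    · funext i l
      rcases i with i | j
      · rfl
      · simp [conf, ride]
  rw [← hx']
  exact hC_eq hx

end Pool.Agent.Work.MP_0421d9_ag.LD
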