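import Pool.Agent.Work.MP_0421d9_ag.RXDefs

/-!
Peeling strips off the plane with riders.
-/

namespace Pool.Agent.Work.MP_0421d9_ag.LD

open MvPolynomial Module

/-- a new flag on the line `X 2 = 0` at a general point -/
theorem flag_dimX {ι : Type} {δ A : ℕ} (y : ι → ℕ) (q : ι → V3) (hq : ∀ i, q i 2 ≠ 0) :
    ∃ h : Polynomial ℂ, h ≠ 0 ∧ ∀ c, h.eval c ≠ 0 →
      finrank ℂ ↥(linSys (δ + 1) q y ⊓ (ordSub c A).comap (onLine e1 e0).toLinearMap) ≤
        max (finrank ℂ (linSys (δ + 1) q y) - A) (finrank ℂ (linSys δ q y)) := by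
  classical
  let φ : R3 →ₗ[ℂ] Polynomial ℂ := (onLine e1 e0).toLinearMap
  have hφ : ∀ F, φ F = onLine e1 e0 F := fun F => rfl
  set S := linSys (δ + 1) q y with hS
  have hSfin : Module.Finite ℂ S :=
    Submodule.finiteDimensional_of_le (linSys_le _ _ _)
  have hSfin' : Module.Finite ℂ (linSys δ q y) :=
    Submodule.finiteDimensional_of_le (linSys_le _ _ _)
  have hfin : Module.Finite ℂ ↥(S.map φ) := inferInstance
  obtain ⟨h, hh0, hh⟩ := @order_generic (S.map φ) hfin A
  refine ⟨h, hh0, fun c hc => ?_⟩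
  have h1 := hh c hc
  have hker : finrank ℂ ↥(S ⊓ LinearMap.ker φ) ≤ finrank ℂ (linSys δ q y) := by
    have h2 : S ⊓ LinearMap.ker φ ≤
        (linSys δ q y).map (LinearMap.mulLeft ℂ (X 2 ^ 1 : R3)) := by
      intro F hF
      obtain ⟨h3, h4⟩ := Submodule.mem_inf.mp hF
      rw [LinearMap.mem_ker, hφ] at h4
      obtain ⟨G, hG1, hG2, hG3⟩ := exists_div_of_onLine h3.1 h4
      refine ⟨G, ⟨hG1, fun i => ?_⟩, by rw [LinearMap.mulLeft_apply, hG2]⟩
      have h5 := h3.2 i
      rw [hG2] at h5
      exact vanishTo_of_X2_pow_mul (hq i) h5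
    exact (Submodule.finrank_mono h2).trans (Submodule.finrank_map_le _ _)
  have hT : finrank ℂ ↥(S ⊓ (ordSub c A).comap φ) ≤
      finrank ℂ ↥(S ⊓ LinearMap.ker φ) + (finrank ℂ ↥(S.map φ) - A) := by
    have hfT : Module.Finite ℂ ↥(S ⊓ (ordSub c A).comap φ) :=
      Submodule.finiteDimensional_of_le inf_le_left
    rw [finrank_eq_ker_add_map φ (S ⊓ (ordSub c A).comap φ)]
    have hfK : Module.Finite ℂ ↥(S ⊓ LinearMap.ker φ) :=
      Submodule.finiteDimensional_of_le inf_le_left
    have hfM : Module.Finite ℂ ↥(S.map φ ⊓ ordSub c A) :=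
      Submodule.finiteDimensional_of_le inf_le_left
    refine add_le_add ?_ ?_
    · apply Submodule.finrank_mono
      exact inf_le_inf_right _ inf_le_left
    · refine le_trans (Submodule.finrank_mono ?_) h1
      rintro _ ⟨F, hF, rfl⟩
      obtain ⟨h3, h4⟩ := Submodule.mem_inf.mp hF
      exact Submodule.mem_inf.mpr ⟨⟨F, h3, rfl⟩, h4⟩
  have h5 : finrank ℂ ↥S = finrank ℂ ↥(S ⊓ LinearMap.ker φ) + finrank ℂ ↥(S.map φ) :=
    finrank_eq_ker_add_map φ S
  refine hT.trans ?_
  rcases Nat.lt_or_ge (finrank ℂ ↥(S.map φ)) A with h6 | h6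
  · refine le_trans ?_ (le_max_right _ _)
    omega
  · refine le_trans ?_ (le_max_left _ _)
    omega

/-- the coordinates of a generic configuration are not zero -/
theorem conf_ne {r n : ℕ} {x : CI r n → V3} (hx : GenericPoints x) (i : Fin r ⊕ Fin n)
    (l : Fin 3) : conf x i l ≠ 0 := by
  rcases i with i | j
  · exact AlgebraicIndependent.ne_zero hx (Sum.inl i, l)
  · intro h0
    let P : MvPolynomial (CI r n × Fin 3) ℚ := X (Sum.inr (Sum.inl false), l) +
      X (Sum.inr (Sum.inr j), 0) * X (Sum.inr (Sum.inl true), l)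
    have h1 : aeval (fun z : CI r n × Fin 3 => x z.1 z.2) P = 0 := by
      simp only [P, map_add, map_mul, aeval_X]
      exact h0
    have h2 : P = 0 := by
      have h3 := (injective_iff_map_eq_zero (aeval (R := ℚ)
        (fun z : CI r n × Fin 3 => x z.1 z.2))).1 hx
      exact h3 P h1
    have h4 := congrArg (eval (fun z : CI r n × Fin 3 =>
      if z = (Sum.inr (Sum.inl false), l) then (1 : ℚ) else 0)) h2
    simp [P] at h4

theorem ride_shear {n : ℕ} (c : ℂ) (A B : V3) (s : Fin n → ℂ) (j : Fin n) :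
    (shear c).mulVec (ride A B s j) = ride ((shear c).mulVec A) ((shear c).mulVec B) s j := by
  rw [shear_mulVec, shear_mulVec, shear_mulVec]
  funext l
  fin_cases l
  · simp [ride]
    ring
  · simp [ride]
  · simp [ride]

/-- peeling strips with riders -/
theorem peel_hC {r n : ℕ} (k : Fin n → ℕ) : Peel (r := r) (hC k) := by
  intro δ κ N A y e he hκ hA hkill
  classical
  set x := gC r n with hxdef
  have hx : GenericPoints x := gC_generic r n
  set q := conf x with hqdef
  set z : Fin r ⊕ Fin n → ℕ := Sum.elim (rest e y) k with hz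
  have hq2 : ∀ i, q i 2 ≠ 0 := fun i => conf_ne hx i 2
  obtain ⟨h, hh0, hh⟩ := flag_dimX (δ := δ) (A := A) z q hq2
  obtain ⟨c, hc, -⟩ := exists_eval_ne hh0 (one_ne_zero (α := Polynomial ℂ))
  have hdim := hh c hc
  refine le_trans ?_ hdim
  -- the sheared points
  set p : Fin r ⊕ Fin n → V3 := fun i => (shear c).mulVec (q i) with hp
  have hp2 : ∀ i, p i 2 ≠ 0 := by
    intro i
    rw [hp]
    simp only [shear_mulVec]
    exact hq2 i
  obtain ⟨P, hP, hkill⟩ := hkill
  let M := δ + 1 + κ + 1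
  let w : Fin 3 → ℕ := ![1, 0, M]
  have hw : ∀ α : Fin 3 →₀ ℕ, wt3 w α = α 0 + M * α 2 := by
    intro α
    unfold wt3
    simp [Fin.sum_univ_three, w]
  let c' := M * κ + A - 1
  have hc' : ∀ α : Fin 3 →₀ ℕ, α.degree = δ + 1 + κ → (wt3 w α ≤ c' ↔
      (α 2 < κ ∨ (α 2 = κ ∧ α 0 < A))) := by
    intro α hα
    rw [hw, Finsupp.degree_eq_sum, Fin.sum_univ_three] at *
    have hMu : 1 ≤ M * κ := Nat.mul_pos (Nat.succ_pos _) hκ
    have h0 : α 0 < M := by omega
    constructor
    · intro h
      by_cases h1 : α 2 < κ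
      · exact Or.inl h1
      · right
        have h2 : M * κ ≤ M * α 2 := Nat.mul_le_mul_left _ (by omega)
        have h3 : α 2 = κ := by
          by_contra hcon
          have h4 : M * (κ + 1) ≤ M * α 2 := Nat.mul_le_mul_left _ (by omega)
          rw [mul_add, mul_one] at h4
          have h5 : M = δ + 1 + κ + 1 := rfl
          have h6 : c' = M * κ + A - 1 := rfl
          omega
        refine ⟨h3, ?_⟩
        rw [h3] at h
        omega
    · rintro (h | ⟨h1, h2⟩)
      · have h3 : M * (α 2 + 1) ≤ M * κ := Nat.mul_le_mul_left _ (by omega)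
        rw [mul_add, mul_one] at h3
        omega
      · rw [h1]
        omega
  have hdeg : ∀ {F : R3}, F.IsHomogeneous (δ + 1 + κ) → ∀ α ∈ F.support,
      α.degree = δ + 1 + κ :=
    fun hF α hα => degree_of_mem_support hF (mem_support_iff.mp hα)
  obtain ⟨τ, hτ, h1⟩ := cut (D := δ + 1 + κ) w c' P (fun k => y (e k)) Set.univ
    (fun G hG hG' hG'' => hkill G hG
      (fun α hα => (hc' α (hdeg hG α hα)).mp (hG' α hα).2) hG'')
    (linSys (δ + 1 + κ) p z) (fun F hF => ⟨hF.1, fun α hα => trivial⟩)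
  -- the part above
  have h2 : finrank ℂ ↥(linSys (δ + 1 + κ) p z ⊓ offSub {α | wt3 w α ≤ c'}) ≤
      finrank ℂ ↥(linSys (δ + 1) q z ⊓ (ordSub c A).comap (onLine e1 e0).toLinearMap) := by
    have hfin0 : Module.Finite ℂ (linSys (δ + 1) q z) :=
      Submodule.finiteDimensional_of_le (linSys_le _ _ _)
    have hfin : Module.Finite ℂ ↥(linSys (δ + 1) q z ⊓
        (ordSub c A).comap (onLine e1 e0).toLinearMap) :=
      Submodule.finiteDimensional_of_le inf_le_left
    have h3 : linSys (δ + 1 + κ) p z ⊓ offSub {α | wt3 w α ≤ c'} ≤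
        (linSys (δ + 1) q z ⊓ (ordSub c A).comap (onLine e1 e0).toLinearMap).map
          (LinearMap.mulLeft ℂ (X 2 ^ κ : R3) ∘ₗ (subM (shear (-c))).toLinearMap) := by
      intro F hF
      rw [Submodule.mem_inf, mem_offSub] at hF
      obtain ⟨⟨hF1, hF2⟩, hF4⟩ := hF
      have hF5 : ∀ α : Fin 3 →₀ ℕ, (α 2 < κ ∨ (α 2 = κ ∧ α 0 < A)) → coeff α F = 0 := by
        intro α hα
        by_contra hcon
        have h5 := degree_of_mem_support hF1 hcon
        exact hcon (hF4 α ((hc' α h5).mpr hα))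
      obtain ⟨G, hG1, hG2, hG3⟩ := exists_div_X2 hF1 (fun α hα => by
        by_contra hcon
        exact (mem_support_iff.mp hα) (hF5 α (Or.inl (by omega))))
      have hGp : ∀ i, VanishTo G (p i) (z i) := by
        intro i
        have h5 := hF2 i
        rw [hG2] at h5
        exact vanishTo_of_X2_pow_mul (hp2 i) h5
      refine Submodule.mem_map.mpr ⟨subM (shear c) G, Submodule.mem_inf.mpr
        ⟨⟨subM_isHomogeneous _ hG1, fun i => vanishTo_subM _ (hGp i)⟩, ?_⟩, ?_⟩
      · change onLine e1 e0 (subM (shear c) G) ∈ ordSub c A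
        intro k hk
        rw [← onLine_shear, onLine_e1_e0, Polynomial.finsetSum_coeff]
        refine Finset.sum_eq_zero (fun β _ => ?_)
        rw [Polynomial.coeff_C_mul_X_pow]
        split_ifs with h8 h9
        · rw [hG3, hF5 _ (Or.inr ⟨?_, ?_⟩), zero_mul]
          · rw [Finsupp.add_apply, Finsupp.single_eq_same, h9, add_zero]
          · rw [Finsupp.add_apply, Finsupp.single_eq_of_ne (by decide), zero_add]
            omega
        · rw [mul_zero]
        · rfl
      · rw [LinearMap.comp_apply, LinearMap.mulLeft_apply, AlgHom.toLinearMap_apply, subM_subM]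
        have h9 : shear c * shear (-c) = 1 := by
          have h10 := shear_mul (-c)
          rwa [neg_neg] at h10
        rw [h9, subM_one, hG2]
    exact (Submodule.finrank_mono h3).trans (Submodule.finrank_map_le _ _)
  refine le_trans ?_ (h1.trans h2)
  -- all the points
  let P' : Fin r → V3 := Function.extend e (fun k i => τ ^ w i * P k i) fun i => p (Sum.inl i)
  have hP'1 : ∀ k, P' (e k) = fun i => τ ^ w i * P k i := fun k => he.extend_apply _ _ k
  have hP'2 : ∀ i, i ∉ Set.range e → P' i = p (Sum.inl i) := by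
    intro i hi
    exact Function.extend_apply' _ _ _ (fun ⟨k, hk⟩ => hi ⟨k, hk⟩)
  refine (hC_le' k (δ + 1 + κ) y P' ((shear c).mulVec (x (Sum.inr (Sum.inl false))))
    ((shear c).mulVec (x (Sum.inr (Sum.inl true)))) fun j => x (Sum.inr (Sum.inr j)) 0).trans ?_
  have hfin0 : Module.Finite ℂ (linSys (δ + 1 + κ) p z) :=
    Submodule.finiteDimensional_of_le (linSys_le _ _ _)
  have hfin : Module.Finite ℂ ↥(linSys (δ + 1 + κ) p z ⊓
      ⨅ k, vanSub (fun i => τ ^ w i * P k i) (y (e k))) :=
    Submodule.finiteDimensional_of_le inf_le_left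
  apply Submodule.finrank_mono
  intro F hF
  obtain ⟨hF1, hF2⟩ := hF
  rw [Submodule.mem_inf, Submodule.mem_iInf]
  refine ⟨⟨hF1, fun i => ?_⟩, fun k => ?_⟩
  · rcases i with i | j
    · by_cases hi : i ∈ Set.range e
      · obtain ⟨k, rfl⟩ := hi
        rw [hz]
        simp only [Sum.elim_inl]
        rw [rest_mem]
        exact mp_vanish_zero _ _
      · have h4 := hF2 (Sum.inl i)
        simp only [Sum.elim_inl] at h4
        rw [hP'2 i hi] at h4
        rw [hz]
        simp only [Sum.elim_inl]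
        rw [rest_not_mem hi]
        exact h4
    · have h4 := hF2 (Sum.inr j)
      simp only [Sum.elim_inr] at h4
      rw [← ride_shear] at h4
      rw [hz]
      simp only [Sum.elim_inr]
      exact h4
  · have h4 := hF2 (Sum.inl (e k))
    simp only [Sum.elim_inl] at h4
    rw [hP'1] at h4
    exact h4

end Pool.Agent.Work.MP_0421d9_ag.LD
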