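import Pool.Agent.Work.MP_0421d9_ag.SBez

/-!
The curve on the product of two lines is smooth.
-/

set_option linter.unusedSectionVars false
set_option linter.unusedVariables false

namespace Pool.Agent.Work.MP_0421d9_ag.SM

open MvPolynomial Module

/-! ### substitutions -/

theorem eval_aeval_gen {σ τ : Type} (g : σ → MvPolynomial τ ℂ) (y : τ → ℂ)
    (G : MvPolynomial σ ℂ) : eval y (aeval g G) = eval (fun i => eval y (g i)) G := by
  induction G using MvPolynomial.induction_on with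
  | C a => rw [algHom_C, algebraMap_eq, eval_C, eval_C]
  | add p q hp hq => rw [map_add, map_add, hp, hq, map_add]
  | mul_X p i hp => rw [map_mul, map_mul, hp, aeval_X, map_mul, eval_X]

theorem cD_aeval {σ τ : Type} [Fintype σ] (D : Derivation ℚ ℂ ℂ) (g : σ → MvPolynomial τ ℂ)
    (G : MvPolynomial σ ℂ) : cD D (aeval g G) = aeval g (cD D G) +
      ∑ i, aeval g (pderiv i G) * cD D (g i) := by
  classical
  induction G using MvPolynomial.induction_on with
  | C a =>
    rw [algHom_C, algebraMap_eq, cD_C, cD_C, algHom_C, algebraMap_eq]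
    simp
  | add p q hp hq =>
    simp only [map_add, hp, hq, add_mul, Finset.sum_add_distrib]
    ring
  | mul_X p n hp =>
    have h1 : ∀ i, aeval g (pderiv i (p * X n)) * cD D (g i) =
        aeval g p * (aeval g (pderiv i (X n : MvPolynomial σ ℂ)) * cD D (g i)) +
        g n * (aeval g (pderiv i p) * cD D (g i)) := fun i => by
      rw [Derivation.leibniz, smul_eq_mul, smul_eq_mul, map_add, map_mul, map_mul, aeval_X]
      ring
    rw [Finset.sum_congr rfl (fun i _ => h1 i), Finset.sum_add_distrib, ← Finset.mul_sum,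
      ← Finset.mul_sum]
    have h2 : ∑ i, aeval g (pderiv i (X n : MvPolynomial σ ℂ)) * cD D (g i) = cD D (g n) := by
      rw [Finset.sum_eq_single n]
      · rw [pderiv_X_self, map_one, one_mul]
      · intro b _ hb
        rw [pderiv_X_of_ne hb.symm, map_zero, zero_mul]
      · simp
    rw [h2, map_mul, aeval_X, cD_mul, hp, cD_mul, cD_X, mul_zero, add_zero, map_mul, aeval_X]
    ring

theorem pderiv_aeval {σ τ : Type} [Fintype σ] (j : τ) (g : σ → MvPolynomial τ ℂ)
    (G : MvPolynomial σ ℂ) : pderiv j (aeval g G) =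
      ∑ i, aeval g (pderiv i G) * pderiv j (g i) := by
  classical
  induction G using MvPolynomial.induction_on with
  | C a =>
    rw [algHom_C, algebraMap_eq, pderiv_C]
    simp
  | add p q hp hq =>
    simp only [map_add, hp, hq, add_mul, Finset.sum_add_distrib]
  | mul_X p n hp =>
    have h1 : ∀ i, aeval g (pderiv i (p * X n)) * pderiv j (g i) =
        aeval g p * (aeval g (pderiv i (X n : MvPolynomial σ ℂ)) * pderiv j (g i)) +
        g n * (aeval g (pderiv i p) * pderiv j (g i)) := fun i => by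
      rw [Derivation.leibniz, smul_eq_mul, smul_eq_mul, map_add, map_mul, map_mul, aeval_X]
      ring
    rw [Finset.sum_congr rfl (fun i _ => h1 i), Finset.sum_add_distrib, ← Finset.mul_sum,
      ← Finset.mul_sum]
    have h2 : ∑ i, aeval g (pderiv i (X n : MvPolynomial σ ℂ)) * pderiv j (g i) =
        pderiv j (g n) := by
      rw [Finset.sum_eq_single n]
      · rw [pderiv_X_self, map_one, one_mul]
      · intro b _ hb
        rw [pderiv_X_of_ne hb.symm, map_zero, zero_mul]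
      · simp
    rw [h2, map_mul, aeval_X, pderiv_mul, hp]
    ring

theorem eval_onC (P Q : R2) (G : R4) (y : V2) :
    eval y (onC P Q G) = eval (pt ![eval y P, eval y Q] y) G := by
  unfold onC
  rw [eval_aeval_gen]
  congr 2
  funext i
  fin_cases i <;> simp [pt]

/-- evaluation in the first two variables -/
noncomputable def ev (θ : V2) : R4 →ₐ[ℂ] R2 := aeval ![C (θ 0), C (θ 1), X 0, X 1]

theorem eval_ev (θ y : V2) (G : R4) : eval y (ev θ G) = eval (pt θ y) G := by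
  unfold ev
  rw [eval_aeval_gen]
  congr 2
  funext i
  fin_cases i <;> simp [pt]

theorem cD_onC (D : Derivation ℚ ℂ ℂ) (P Q : R2) (Φ : R4) :
    cD D (onC P Q Φ) = onC P Q (cD D Φ) + onC P Q (pderiv 0 Φ) * cD D P +
      onC P Q (pderiv 1 Φ) * cD D Q := by
  unfold onC
  rw [cD_aeval, Fin.sum_univ_four]
  simp only [Matrix.cons_val, cD_X, mul_zero, add_zero]
  rw [add_assoc]

theorem pderiv_ev (θ : V2) (G : R4) (j : Fin 2) : pderiv j (ev θ G) =
    ev θ (pderiv 2 G) * pderiv j (X 0) + ev θ (pderiv 3 G) * pderiv j (X 1) := by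
  unfold ev
  rw [pderiv_aeval, Fin.sum_univ_four]
  simp only [Matrix.cons_val, pderiv_C, mul_zero, zero_add]

theorem pderiv_onC_sum (P Q : R2) (G : R4) (j : Fin 2) : pderiv j (onC P Q G) =
    onC P Q (pderiv 0 G) * pderiv j P + onC P Q (pderiv 1 G) * pderiv j Q +
    onC P Q (pderiv 2 G) * pderiv j (X 0) + onC P Q (pderiv 3 G) * pderiv j (X 1) := by
  unfold onC
  rw [pderiv_aeval, Fin.sum_univ_four]
  simp only [Matrix.cons_val]

theorem pderiv_onC (k : Fin 2) (P Q : R2) (Φ : R4) :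
    pderiv k (onC P Q Φ) = onC P Q (pderiv 0 Φ) * pderiv k P + onC P Q (pderiv 1 Φ) * pderiv k Q +
      onC P Q (pderiv (Fin.natAdd 2 k) Φ) := by
  rw [pderiv_onC_sum]
  fin_cases k
  · simp only [Fin.zero_eta]
    rw [pderiv_X_self, pderiv_X_of_ne (by decide), mul_one, mul_zero, add_zero]
    rfl
  · simp only [Fin.mk_one]
    rw [pderiv_X_self, pderiv_X_of_ne (by decide), mul_one, mul_zero, add_zero]
    rfl

/-! ### degrees -/

/-- homogeneous of degree `w` in the first two variables -/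
def DegUV (w : ℕ) (G : R4) : Prop := ∀ α, coeff α G ≠ 0 → α 0 + α 1 = w

theorem BiHom.degUV {w b : ℕ} {G : R4} (h : BiHom w b G) : DegUV w G := fun α hα => (h α hα).1

theorem euler_UV {w : ℕ} {G : R4} (h : DegUV w G) :
    C (w : ℂ) * G = X 0 * pderiv 0 G + X 1 * pderiv 1 G := by
  conv_rhs => rw [G.as_sum]
  conv_lhs => rw [G.as_sum]
  simp only [map_sum, Finset.mul_sum, ← Finset.sum_add_distrib]
  refine Finset.sum_congr rfl (fun α hα => ?_)
  rw [X_mul_pderiv_monomial, X_mul_pderiv_monomial, ← add_smul,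
    h α (MvPolynomial.mem_support_iff.mp hα), nsmul_eq_mul, map_natCast]

theorem BiHom.pderiv0 {u b : ℕ} {G : R4} (hu : 1 ≤ u) (h : BiHom u b G) :
    BiHom (u - 1) b (pderiv 0 G) := by
  intro α hα
  rw [coeff_pderiv] at hα
  have h1 := h _ (left_ne_zero_of_mul hα)
  simp at h1
  omega

theorem BiHom.pderiv1 {u b : ℕ} {G : R4} (hu : 1 ≤ u) (h : BiHom u b G) :
    BiHom (u - 1) b (pderiv 1 G) := by
  intro α hα
  rw [coeff_pderiv] at hα
  have h1 := h _ (left_ne_zero_of_mul hα)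
  simp at h1
  omega

theorem DegUV.pderiv2 {u : ℕ} {G : R4} (h : DegUV u G) : DegUV u (pderiv 2 G) := by
  intro α hα
  rw [coeff_pderiv] at hα
  have h1 := h _ (left_ne_zero_of_mul hα)
  simpa using h1

theorem DegUV.pderiv3 {u : ℕ} {G : R4} (h : DegUV u G) : DegUV u (pderiv 3 G) := by
  intro α hα
  rw [coeff_pderiv] at hα
  have h1 := h _ (left_ne_zero_of_mul hα)
  simpa using h1

theorem eval_pt_smul {w : ℕ} {G : R4} (h : DegUV w G) (μ : ℂ) (θ y : V2) :
    eval (pt (μ • θ) y) G = μ ^ w * eval (pt θ y) G := by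
  rw [eval_eq', eval_eq', Finset.mul_sum]
  refine Finset.sum_congr rfl (fun d hd => ?_)
  have h1 := h d (MvPolynomial.mem_support_iff.mp hd)
  rw [← h1, Fin.prod_univ_four, Fin.prod_univ_four]
  simp only [pt, Pi.smul_apply, smul_eq_mul, Matrix.cons_val]
  rw [mul_pow, mul_pow, pow_add]
  ring

theorem ev_isHomogeneous {w b : ℕ} {G : R4} (h : BiHom w b G) (θ : V2) :
    (ev θ G).IsHomogeneous b := by
  unfold ev
  rw [G.as_sum, map_sum]
  apply IsHomogeneous.sum
  intro α hα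
  have h1 := (h α (MvPolynomial.mem_support_iff.mp hα)).2
  rw [aeval_monomial, Finsupp.prod_fintype _ _ (fun i => pow_zero _), Fin.prod_univ_four,
    algebraMap_eq]
  simp only [Matrix.cons_val]
  rw [← C_pow, ← C_pow]
  have h2 := (isHomogeneous_X_pow (R := ℂ) (0 : Fin 2) (α 2)).mul
    (isHomogeneous_X_pow (R := ℂ) (1 : Fin 2) (α 3))
  rw [h1] at h2
  have h3 : (C (coeff α G) * (C (θ 0 ^ α 0) * C (θ 1 ^ α 1) * X 0 ^ α 2 * X 1 ^ α 3) : R2) =
      C (coeff α G * θ 0 ^ α 0 * θ 1 ^ α 1) * (X 0 ^ α 2 * X 1 ^ α 3) := by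
    rw [map_mul, map_mul]
    ring
  rw [h3]
  exact h2.C_mul _

/-! ### congruences modulo `N` -/

theorem dvd_onC {w : ℕ} {G : R4} (h : DegUV w G) (P Q : R2) (θ : V2) :
    C (θ 1) * P - C (θ 0) * Q ∣ C (θ 0 ^ w) * onC P Q G - P ^ w * ev θ G := by
  unfold onC ev
  conv_rhs => rw [G.as_sum]
  rw [map_sum, map_sum, Finset.mul_sum, Finset.mul_sum, ← Finset.sum_sub_distrib]
  apply Finset.dvd_sum
  intro α hα
  rw [aeval_monomial, aeval_monomial, Finsupp.prod_fintype _ _ (fun i => pow_zero _),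
    Finsupp.prod_fintype _ _ (fun i => pow_zero _), Fin.prod_univ_four, Fin.prod_univ_four,
    algebraMap_eq]
  simp only [Matrix.cons_val]
  have hw := h α (MvPolynomial.mem_support_iff.mp hα)
  obtain ⟨e, he⟩ := sub_dvd_pow_sub_pow (C (θ 0) * Q) (C (θ 1) * P) (α 1)
  refine ⟨-(C (coeff α G) * (P ^ α 0 * C (θ 0) ^ α 0) * X 0 ^ α 2 * X 1 ^ α 3 * e), ?_⟩
  rw [← hw]
  simp only [pow_add, map_mul, C_pow]
  have he' : C (θ 0) ^ α 1 * Q ^ α 1 - C (θ 1) ^ α 1 * P ^ α 1 =
      (C (θ 0) * Q - C (θ 1) * P) * e := by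
    rw [← he]
    ring
  linear_combination (C (coeff α G) * (P ^ α 0 * C (θ 0) ^ α 0) * X 0 ^ α 2 * X 1 ^ α 3) * he'

theorem dvd_onC' {w : ℕ} {G : R4} (h : DegUV w G) (P Q : R2) (θ : V2) :
    C (θ 1) * P - C (θ 0) * Q ∣ C (θ 1 ^ w) * onC P Q G - Q ^ w * ev θ G := by
  unfold onC ev
  conv_rhs => rw [G.as_sum]
  rw [map_sum, map_sum, Finset.mul_sum, Finset.mul_sum, ← Finset.sum_sub_distrib]
  apply Finset.dvd_sum
  intro α hα
  rw [aeval_monomial, aeval_monomial, Finsupp.prod_fintype _ _ (fun i => pow_zero _),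
    Finsupp.prod_fintype _ _ (fun i => pow_zero _), Fin.prod_univ_four, Fin.prod_univ_four,
    algebraMap_eq]
  simp only [Matrix.cons_val]
  have hw := h α (MvPolynomial.mem_support_iff.mp hα)
  obtain ⟨e, he⟩ := sub_dvd_pow_sub_pow (C (θ 1) * P) (C (θ 0) * Q) (α 0)
  refine ⟨C (coeff α G) * (Q ^ α 1 * C (θ 1) ^ α 1) * X 0 ^ α 2 * X 1 ^ α 3 * e, ?_⟩
  rw [← hw]
  simp only [pow_add, map_mul, C_pow]
  have he' : C (θ 1) ^ α 0 * P ^ α 0 - C (θ 0) ^ α 0 * Q ^ α 0 =
      (C (θ 1) * P - C (θ 0) * Q) * e := by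
    rw [← he]
    ring
  linear_combination (C (coeff α G) * (Q ^ α 1 * C (θ 1) ^ α 1) * X 0 ^ α 2 * X 1 ^ α 3) * he'

/-! ### dehomogenisation at a point -/

theorem exists_basis {y : V2} (hy : y ≠ 0) : ∃ z : V2, y 0 * z 1 - y 1 * z 0 ≠ 0 := by
  by_cases h : y 0 = 0
  · refine ⟨![1, 0], ?_⟩
    have h1 : y 1 ≠ 0 := by
      intro h1
      apply hy
      ext i
      fin_cases i
      · exact h
      · exact h1
    simpa [h] using h1
  · refine ⟨![0, 1], ?_⟩
    simpa using h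

/-- linear substitution -/
noncomputable def lsub (y z : V2) : R2 →ₐ[ℂ] R2 := aeval (fun i => C (y i) * X 0 + C (z i) * X 1)

theorem eval_lsub (y z v : V2) (F : R2) : eval v (lsub y z F) = eval (v 0 • y + v 1 • z) F := by
  unfold lsub
  rw [eval_aeval_gen]
  congr 2
  funext i
  simp only [map_add, map_mul, eval_C, eval_X, Pi.add_apply, Pi.smul_apply, smul_eq_mul]
  ring

theorem lsub_isHomogeneous (y z : V2) {F : R2} {n : ℕ} (hF : F.IsHomogeneous n) :
    (lsub y z F).IsHomogeneous n := by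
  have h := hF.aeval (fun i => (C (y i) * X 0 + C (z i) * X 1 : R2)) (n := 1) (fun i =>
    (isHomogeneous_C_mul_X (y i) 0).add (isHomogeneous_C_mul_X (z i) 1))
  rwa [one_mul] at h

theorem exists_lsub_eq {y z : V2} (h : y 0 * z 1 - y 1 * z 0 ≠ 0) {H : R2} {n : ℕ}
    (hH : H.IsHomogeneous n) : ∃ A : R2, A.IsHomogeneous n ∧ lsub y z A = H := by
  set d := y 0 * z 1 - y 1 * z 0 with hd
  refine ⟨aeval ![C (z 1 / d) * X 0 + C (-(z 0) / d) * X 1,
    C (-(y 1) / d) * X 0 + C (y 0 / d) * X 1] H, ?_, ?_⟩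
  · have h1 := hH.aeval (![C (z 1 / d) * X 0 + C (-(z 0) / d) * X 1,
      C (-(y 1) / d) * X 0 + C (y 0 / d) * X 1] : Fin 2 → R2) (n := 1) (fun i => by
        fin_cases i
        · exact (isHomogeneous_C_mul_X _ 0).add (isHomogeneous_C_mul_X _ 1)
        · exact (isHomogeneous_C_mul_X _ 0).add (isHomogeneous_C_mul_X _ 1))
    rwa [one_mul] at h1
  · apply MvPolynomial.funext
    intro v
    rw [eval_lsub, eval_aeval_gen]
    congr 2
    funext i
    fin_cases i
    · simp only [Fin.zero_eta, Matrix.cons_val_zero, map_add, map_mul, eval_C, eval_X,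
        Pi.add_apply, Pi.smul_apply, smul_eq_mul]
      field_simp
      rw [hd]
      ring
    · simp only [Fin.mk_one, Matrix.cons_val, map_add, map_mul, eval_C, eval_X,
        Pi.add_apply, Pi.smul_apply, smul_eq_mul]
      field_simp
      rw [hd]
      ring

theorem smul_add_ne_zero {y z : V2} (h : y 0 * z 1 - y 1 * z 0 ≠ 0) (c : ℂ) :
    c • y + z ≠ 0 := by
  intro h0
  apply h
  have h1 := congrFun h0 0
  have h2 := congrFun h0 1
  simp only [Pi.add_apply, Pi.smul_apply, smul_eq_mul, Pi.zero_apply] at h1 h2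
  linear_combination y 0 * h2 - y 1 * h1

/-- dehomogenisation at the point `y` -/
noncomputable def dz (y z : V2) : R2 →ₐ[ℂ] Polynomial ℂ := deh.comp (lsub y z)

theorem dz_apply (y z : V2) (F : R2) : dz y z F = deh (lsub y z F) := rfl

theorem eval_dz (y z : V2) (F : R2) (c : ℂ) : (dz y z F).eval c = eval (c • y + z) F := by
  rw [dz_apply, eval_deh, eval_lsub]
  simp

theorem natDegree_dz_le (y z : V2) {F : R2} {n : ℕ} (hF : F.IsHomogeneous n) :
    (dz y z F).natDegree ≤ n := natDegree_deh_le (lsub_isHomogeneous y z hF)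

theorem coeff_dz (y z : V2) {F : R2} {n : ℕ} (hF : F.IsHomogeneous n) :
    (dz y z F).coeff n = eval y F := by
  rw [dz_apply, coeff_deh (lsub_isHomogeneous y z hF), eval_lsub]
  simp

theorem eq_zero_of_dz {y z : V2} (h : y 0 * z 1 - y 1 * z 0 ≠ 0) {F : R2} {n : ℕ}
    (hF : F.IsHomogeneous n) (h0 : dz y z F = 0) : F = 0 := by
  have h1 : lsub y z F = 0 := eq_zero_of_deh (lsub_isHomogeneous y z hF) h0
  apply MvPolynomial.funext
  intro w
  rw [map_zero]
  set d := y 0 * z 1 - y 1 * z 0 with hd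
  have h2 : w = ((w 0 * z 1 - w 1 * z 0) / d) • y + ((y 0 * w 1 - y 1 * w 0) / d) • z := by
    ext i
    fin_cases i
    · simp only [Fin.zero_eta, Pi.add_apply, Pi.smul_apply, smul_eq_mul]
      field_simp
      rw [hd]
      ring
    · simp only [Fin.mk_one, Pi.add_apply, Pi.smul_apply, smul_eq_mul]
      field_simp
      rw [hd]
      ring
  have h3 := eval_lsub y z ![(w 0 * z 1 - w 1 * z 0) / d, (y 0 * w 1 - y 1 * w 0) / d] F
  rw [h1, map_zero] at h3
  rw [h2]
  exact h3.symm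

theorem exists_dz_eq {y z : V2} (h : y 0 * z 1 - y 1 * z 0 ≠ 0) {g : Polynomial ℂ} {n : ℕ}
    (hg : g.natDegree ≤ n) : ∃ A : R2, A.IsHomogeneous n ∧ dz y z A = g := by
  obtain ⟨A, hA, h1⟩ := exists_lsub_eq h (homog_isHomogeneous n g)
  exact ⟨A, hA, by rw [dz_apply, h1, deh_homog hg]⟩

theorem core {β v : ℕ} {N W f : R2} {y : V2} (hy : y ≠ 0) (hN : N.IsHomogeneous (β + 1))
    (hf : f.IsHomogeneous β) (hNy : eval y N ≠ 0) (hco : NoCommon W N) {τ : ℂ} (hτ : τ ≠ 0)
    (h : ∀ A : R2, A.IsHomogeneous (β + 1) → ∃ ψ : R2, ψ.IsHomogeneous β ∧ eval y ψ = 0 ∧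
      N ∣ W ^ v * (W * ψ - C τ * f * A)) : f = 0 := by
  by_contra hf0
  obtain ⟨z, hz⟩ := exists_basis hy
  set n := dz y z N with hn
  set w := dz y z W with hw
  set g0 := dz y z f with hg0
  have hg00 : g0 ≠ 0 := fun h0 => hf0 (eq_zero_of_dz hz hf h0)
  have hnc : n.coeff (β + 1) ≠ 0 := by
    rw [hn, coeff_dz y z hN]
    exact hNy
  have hnd : n.natDegree = β + 1 :=
    le_antisymm (natDegree_dz_le y z hN) (Polynomial.le_natDegree_of_ne_zero hnc)
  have hn0 : n ≠ 0 := by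
    intro h0
    rw [h0, Polynomial.coeff_zero] at hnc
    exact hnc rfl
  have hcop : IsCoprime w n := by
    rw [Polynomial.isCoprime_iff_aeval_ne_zero_of_isAlgClosed ℂ ℂ]
    intro a
    rw [Polynomial.coe_aeval_eq_eval, eval_dz, eval_dz]
    exact hco _ (smul_add_ne_zero hz a)
  set g := EuclideanDomain.gcd g0 n with hg
  have hgab : g = g0 * EuclideanDomain.gcdA g0 n + n * EuclideanDomain.gcdB g0 n :=
    EuclideanDomain.gcd_eq_gcd_ab g0 n
  have hgd : g ∣ g0 := EuclideanDomain.gcd_dvd_left g0 n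
  have hg_ne : g ≠ 0 := by
    intro h0
    rw [h0, zero_dvd_iff] at hgd
    exact hg00 hgd
  have hgβ : g.natDegree ≤ β :=
    (Polynomial.natDegree_le_of_dvd hgd hg00).trans (natDegree_dz_le y z hf)
  set e := β - g.natDegree with he
  set A0 := (Polynomial.C τ⁻¹ * w * Polynomial.X ^ e * EuclideanDomain.gcdA g0 n) % n with hA0
  have hA0d : A0.natDegree ≤ β + 1 := by
    rw [← hnd]
    exact (Polynomial.natDegree_mod_lt _ (by rw [hnd]; omega)).le
  obtain ⟨A, hA, hAd⟩ := exists_dz_eq hz hA0d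
  obtain ⟨ψ, hψ, hψy, hdvd⟩ := h A hA
  have h1 : n ∣ w * dz y z ψ - Polynomial.C τ * g0 * A0 := by
    have h2 := map_dvd (dz y z) hdvd
    rw [map_mul, map_pow] at h2
    have h2' := (hcop.symm.pow_right (n := v)).dvd_of_dvd_mul_left h2
    rw [map_sub, map_mul, map_mul, map_mul, hAd] at h2'
    have h3 : dz y z (C τ) = Polynomial.C τ := by
      unfold dz
      rw [algHom_C, ← Polynomial.C_eq_algebraMap]
    rwa [h3] at h2'
  have h2 : n ∣ w * (g * Polynomial.X ^ e) - Polynomial.C τ * g0 * A0 := by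
    set B0 := Polynomial.C τ⁻¹ * w * Polynomial.X ^ e * EuclideanDomain.gcdA g0 n with hB0
    have h3 : n * (B0 / n) + A0 = B0 := EuclideanDomain.div_add_mod B0 n
    refine ⟨w * Polynomial.X ^ e * EuclideanDomain.gcdB g0 n + Polynomial.C τ * g0 * (B0 / n), ?_⟩
    have h4 : (Polynomial.C τ * Polynomial.C τ⁻¹ : Polynomial ℂ) = 1 := by
      rw [← Polynomial.C_mul, mul_inv_cancel₀ hτ, Polynomial.C_1]
    rw [hgab]
    linear_combination (-(Polynomial.C τ * g0)) * h3 -
      (Polynomial.C τ * g0) * hB0 -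
      (g0 * w * Polynomial.X ^ e * EuclideanDomain.gcdA g0 n) * h4
  have h3 : n ∣ w * (dz y z ψ - g * Polynomial.X ^ e) := by
    have h4 := dvd_sub h1 h2
    have h5 : w * dz y z ψ - Polynomial.C τ * g0 * A0 -
      (w * (g * Polynomial.X ^ e) - Polynomial.C τ * g0 * A0) =
      w * (dz y z ψ - g * Polynomial.X ^ e) := by ring
    rwa [h5] at h4
  have h4 : n ∣ dz y z ψ - g * Polynomial.X ^ e := hcop.symm.dvd_of_dvd_mul_left h3
  have hX : (g * Polynomial.X ^ e).natDegree = β := by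
    rw [Polynomial.natDegree_mul hg_ne (pow_ne_zero _ Polynomial.X_ne_zero),
      Polynomial.natDegree_X_pow]
    omega
  have h5 : dz y z ψ - g * Polynomial.X ^ e = 0 := by
    apply Polynomial.eq_zero_of_dvd_of_natDegree_lt h4
    rw [hnd]
    have h6 : (dz y z ψ - g * Polynomial.X ^ e).natDegree ≤ β := by
      refine (Polynomial.natDegree_sub_le _ _).trans (max_le (natDegree_dz_le y z hψ) hX.le)
    omega
  have h6 := congrArg (fun q => Polynomial.coeff q β) h5
  simp only [Polynomial.coeff_sub, Polynomial.coeff_zero] at h6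
  rw [coeff_dz y z hψ, hψy, zero_sub, neg_eq_zero] at h6
  have h7 : (g * Polynomial.X ^ e).coeff (g * Polynomial.X ^ e).natDegree ≠ 0 := by
    rw [Polynomial.coeff_natDegree, Polynomial.leadingCoeff_ne_zero]
    exact mul_ne_zero hg_ne (pow_ne_zero _ Polynomial.X_ne_zero)
  rw [hX] at h7
  exact h7 h6

/-! ### the statement -/

theorem pt_ne (θ y : V2) (G : R4) : eval (pt θ y) G = eval y (ev θ G) := (eval_ev θ y G).symm

/-- the two derivatives in the first two variables -/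
theorem claim {u β : ℕ} (hu : 1 ≤ u) {P Q : R2} (hP : P.IsHomogeneous (β + 1))
    (hQ : Q.IsHomogeneous (β + 1)) (hPQ : NoCommon P Q) {G : R4} (hG : BiHom (u - 1) β G)
    {θ y : V2} (hθ : θ ≠ 0) (hy : y ≠ 0)
    (h : ∀ A : R2, A.IsHomogeneous (β + 1) → ∃ Ψ : R4, BiHom u β Ψ ∧
      onC P Q Ψ = onC P Q G * A ∧ eval (pt θ y) Ψ = 0)
    (hN : θ 1 * eval y P - θ 0 * eval y Q ≠ 0) : ev θ G = 0 := by
  set N : R2 := C (θ 1) * P - C (θ 0) * Q with hNdef
  have hNhom : N.IsHomogeneous (β + 1) := (hP.C_mul _).sub (hQ.C_mul _)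
  have hNy : eval y N ≠ 0 := by
    rw [hNdef, map_sub, map_mul, map_mul, eval_C, eval_C]
    exact hN
  obtain ⟨v, rfl⟩ : ∃ v, u = v + 1 := ⟨u - 1, by omega⟩
  rw [Nat.add_sub_cancel] at hG
  by_cases h0 : θ 0 = 0
  · have h1 : θ 1 ≠ 0 := by
      intro h1
      apply hθ
      ext i
      fin_cases i
      · exact h0
      · exact h1
    have hco : NoCommon Q N := by
      intro x hx
      by_contra hcon
      push Not at hcon
      obtain ⟨h2, h3⟩ := hcon
      rw [hNdef, map_sub, map_mul, map_mul, eval_C, eval_C, h2, mul_zero, sub_zero] at h3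
      rcases hPQ x hx with h4 | h4
      · exact h4 ((mul_eq_zero.mp h3).resolve_left h1)
      · exact h4 h2
    refine core (v := v) hy hNhom (ev_isHomogeneous hG θ) hNy hco h1 (fun A hA => ?_)
    obtain ⟨Ψ, hΨ, hΨA, hΨ0⟩ := h A hA
    refine ⟨ev θ Ψ, ev_isHomogeneous hΨ θ, by rw [eval_ev]; exact hΨ0, ?_⟩
    have h2 := dvd_onC' hΨ.degUV P Q θ
    have h3 := dvd_onC' hG.degUV P Q θ
    rw [← hNdef] at h2 h3
    have h4 : N ∣ Q ^ v * (Q * ev θ Ψ - C (θ 1) * ev θ G * A) := by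
      have h5 := dvd_sub ((h3.mul_left (C (θ 1) * A))) h2
      have h6 : C (θ 1) * A * (C (θ 1 ^ v) * onC P Q G - Q ^ v * ev θ G) -
          (C (θ 1 ^ (v + 1)) * onC P Q Ψ - Q ^ (v + 1) * ev θ Ψ) =
          Q ^ v * (Q * ev θ Ψ - C (θ 1) * ev θ G * A) := by
        rw [hΨA, pow_succ (θ 1), map_mul, pow_succ Q]
        ring
      rwa [h6] at h5
    exact h4
  · have hco : NoCommon P N := by
      intro x hx
      by_contra hcon
      push Not at hcon
      obtain ⟨h2, h3⟩ := hcon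
      rw [hNdef, map_sub, map_mul, map_mul, eval_C, eval_C, h2, mul_zero, zero_sub,
        neg_eq_zero] at h3
      rcases hPQ x hx with h4 | h4
      · exact h4 h2
      · exact h4 ((mul_eq_zero.mp h3).resolve_left h0)
    refine core (v := v) hy hNhom (ev_isHomogeneous hG θ) hNy hco h0 (fun A hA => ?_)
    obtain ⟨Ψ, hΨ, hΨA, hΨ0⟩ := h A hA
    refine ⟨ev θ Ψ, ev_isHomogeneous hΨ θ, by rw [eval_ev]; exact hΨ0, ?_⟩
    have h2 := dvd_onC hΨ.degUV P Q θ
    have h3 := dvd_onC hG.degUV P Q θ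
    rw [← hNdef] at h2 h3
    have h4 : N ∣ P ^ v * (P * ev θ Ψ - C (θ 0) * ev θ G * A) := by
      have h5 := dvd_sub ((h3.mul_left (C (θ 0) * A))) h2
      have h6 : C (θ 0) * A * (C (θ 0 ^ v) * onC P Q G - P ^ v * ev θ G) -
          (C (θ 0 ^ (v + 1)) * onC P Q Ψ - P ^ (v + 1) * ev θ Ψ) =
          P ^ v * (P * ev θ Ψ - C (θ 0) * ev θ G * A) := by
        rw [hΨA, pow_succ (θ 0), map_mul, pow_succ P]
        ring
      rwa [h6] at h5
    exact h4

theorem eval_pt_of_ev {w : ℕ} {G : R4} (hG : DegUV w G) {θ : V2} (h : ev θ G = 0) (μ : ℂ)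
    (y : V2) : eval (pt (μ • θ) y) G = 0 := by
  rw [eval_pt_smul hG, ← eval_ev, h, map_zero, mul_zero]

theorem bc {u β : ℕ} (hu : 1 ≤ u) {P Q s : R2} (hP : P.IsHomogeneous (β + 1))
    (hQ : Q.IsHomogeneous (β + 1)) (hPQ : NoCommon P Q) {Φ : R4} (hΦ : BiHom u β Φ)
    (hs : onC P Q Φ = s) (hnd : NoDouble s) {θ y : V2} (hθ : θ ≠ 0) (hy : y ≠ 0)
    (hDP : ∀ A : R2, A.IsHomogeneous (β + 1) → ∃ D : Derivation ℚ ℂ ℂ, cD D P = A ∧
      cD D Q = 0 ∧ (∃ c : ℂ, cD D s = C c * s) ∧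
      ((∀ k, D (y k) = 0) ∨ (eval (pt θ y) (pderiv 2 Φ) = 0 ∧ eval (pt θ y) (pderiv 3 Φ) = 0)))
    (hDQ : ∀ A : R2, A.IsHomogeneous (β + 1) → ∃ D : Derivation ℚ ℂ ℂ, cD D P = 0 ∧
      cD D Q = A ∧ (∃ c : ℂ, cD D s = C c * s) ∧
      ((∀ k, D (y k) = 0) ∨ (eval (pt θ y) (pderiv 2 Φ) = 0 ∧ eval (pt θ y) (pderiv 3 Φ) = 0)))
    (h0 : eval (pt θ y) (pderiv 0 Φ) = 0) (h1 : eval (pt θ y) (pderiv 1 Φ) = 0)
    (hN : θ 1 * eval y P - θ 0 * eval y Q ≠ 0) : False := by
  have hu0 : (u : ℂ) ≠ 0 := by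
    rw [Nat.cast_ne_zero]
    omega
  have hΦ0 : eval (pt θ y) Φ = 0 := by
    have h2 := congrArg (eval (pt θ y)) (euler_UV hΦ.degUV)
    rw [map_mul, map_add, map_mul, map_mul, h0, h1, mul_zero, mul_zero, add_zero, eval_C] at h2
    exact (mul_eq_zero.mp h2).resolve_left hu0
  have hcDΦ : ∀ (D : Derivation ℚ ℂ ℂ) (w b : ℕ) (G : R4), BiHom w b G →
      BiHom w b (cD D G) := by
    intro D w b G hG α hα
    apply hG
    intro h
    apply hα
    rw [coeff_cD, h, map_zero]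
  have hΨ0 : ∀ (D : Derivation ℚ ℂ ℂ) (c : ℂ), ((∀ k, D (y k) = 0) ∨
      (eval (pt θ y) (pderiv 2 Φ) = 0 ∧ eval (pt θ y) (pderiv 3 Φ) = 0)) →
      eval (pt θ y) (C c * Φ - cD D Φ) = 0 := by
    intro D c hD
    have h2 := D_eval D (pt θ y) Φ
    rw [hΦ0, map_zero, Fin.sum_univ_four, h0, h1, mul_zero, mul_zero, zero_add] at h2
    have h3 : D (pt θ y 2) * eval (pt θ y) (pderiv 2 Φ) +
        D (pt θ y 3) * eval (pt θ y) (pderiv 3 Φ) = 0 := by
      rcases hD with h | ⟨h, h'⟩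
      · have e2 : pt θ y 2 = y 0 := rfl
        have e3 : pt θ y 3 = y 1 := rfl
        rw [e2, e3, h 0, h 1, zero_mul, zero_mul, add_zero]
      · rw [h, h', mul_zero, mul_zero, add_zero]
    rw [zero_add, h3, add_zero] at h2
    rw [map_sub, map_mul, hΦ0, mul_zero, ← h2, sub_zero]
  have hΨb : ∀ (D : Derivation ℚ ℂ ℂ) (c : ℂ), BiHom u β (C c * Φ - cD D Φ) := by
    intro D c α hα
    rw [coeff_sub, coeff_C_mul] at hα
    by_cases h : coeff α Φ = 0
    · rw [h, mul_zero, zero_sub, neg_ne_zero] at hα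
      exact hcDΦ D u β Φ hΦ α hα
    · exact hΦ α h
  have hU : ev θ (pderiv 0 Φ) = 0 := by
    refine claim hu hP hQ hPQ (hΦ.pderiv0 hu) hθ hy (fun A hA => ?_) hN
    obtain ⟨D, hDP', hDQ', ⟨c, hc⟩, hD⟩ := hDP A hA
    refine ⟨C c * Φ - cD D Φ, hΨb D c, ?_, hΨ0 D c hD⟩
    have h2 := cD_onC D P Q Φ
    rw [hs, hc, hDP', hDQ', mul_zero, add_zero] at h2
    have h3 : onC P Q (C c) = C c := by
      unfold onC
      rw [algHom_C, algebraMap_eq]
    rw [map_sub, map_mul, hs, h3, h2]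
    ring
  have hV : ev θ (pderiv 1 Φ) = 0 := by
    refine claim hu hP hQ hPQ (hΦ.pderiv1 hu) hθ hy (fun A hA => ?_) hN
    obtain ⟨D, hDP', hDQ', ⟨c, hc⟩, hD⟩ := hDQ A hA
    refine ⟨C c * Φ - cD D Φ, hΨb D c, ?_, hΨ0 D c hD⟩
    have h2 := cD_onC D P Q Φ
    rw [hs, hc, hDP', hDQ', mul_zero, add_zero] at h2
    have h3 : onC P Q (C c) = C c := by
      unfold onC
      rw [algHom_C, algebraMap_eq]
    rw [map_sub, map_mul, hs, h3, h2]
    ring
  have hE : ev θ Φ = 0 := by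
    have h2 := congrArg (ev θ) (euler_UV hΦ.degUV)
    rw [map_mul, map_add, map_mul, map_mul, hU, hV, mul_zero, mul_zero, add_zero] at h2
    have h3 : ev θ (C (u : ℂ)) = C (u : ℂ) := by
      unfold ev
      rw [algHom_C, algebraMap_eq]
    rw [h3] at h2
    rcases mul_eq_zero.mp h2 with h4 | h4
    · exact absurd ((C_eq_zero).mp h4) hu0
    · exact h4
  have hX2 : ev θ (pderiv 2 Φ) = 0 := by
    have h2 := pderiv_ev θ Φ 0
    rw [hE, map_zero, pderiv_X_self, pderiv_X_of_ne (by decide), mul_one, mul_zero,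
      add_zero] at h2
    exact h2.symm
  have hX3 : ev θ (pderiv 3 Φ) = 0 := by
    have h2 := pderiv_ev θ Φ 1
    rw [hE, map_zero, pderiv_X_self, pderiv_X_of_ne (by decide), mul_one, mul_zero,
      zero_add] at h2
    exact h2.symm
  -- a root of `N`
  set N : R2 := C (θ 1) * P - C (θ 0) * Q with hNdef
  have hNhom : N.IsHomogeneous (β + 1) := (hP.C_mul _).sub (hQ.C_mul _)
  have hNy : eval y N ≠ 0 := by
    rw [hNdef, map_sub, map_mul, map_mul, eval_C, eval_C]
    exact hN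
  obtain ⟨z, hz⟩ := exists_basis hy
  have hnc : (dz y z N).coeff (β + 1) ≠ 0 := by
    rw [coeff_dz y z hNhom]
    exact hNy
  have hdeg : (dz y z N).degree ≠ 0 := by
    intro h
    have h2 := Polynomial.le_natDegree_of_ne_zero hnc
    have h3 : (dz y z N).natDegree = 0 := Polynomial.natDegree_eq_of_degree_eq_some h
    omega
  obtain ⟨c, hc⟩ := IsAlgClosed.exists_root (dz y z N) hdeg
  rw [Polynomial.IsRoot, eval_dz] at hc
  set x := c • y + z with hx
  have hx0 : x ≠ 0 := smul_add_ne_zero hz c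
  have hrel : θ 1 * eval x P = θ 0 * eval x Q := by
    rw [hNdef, map_sub, map_mul, map_mul, eval_C, eval_C, sub_eq_zero] at hc
    exact hc
  obtain ⟨μ, hμ⟩ : ∃ μ : ℂ, ![eval x P, eval x Q] = μ • θ := by
    by_cases h2 : θ 0 = 0
    · have h3 : θ 1 ≠ 0 := by
        intro h3
        apply hθ
        ext i
        fin_cases i
        · exact h2
        · exact h3
      refine ⟨eval x Q / θ 1, ?_⟩
      rw [h2, zero_mul] at hrel
      have h4 := (mul_eq_zero.mp hrel).resolve_left h3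
      ext i
      fin_cases i
      · simp [h2, h4]
      · simp [h3]
    · refine ⟨eval x P / θ 0, ?_⟩
      ext i
      fin_cases i
      · simp [h2]
      · simp only [Fin.mk_one, Matrix.cons_val, Pi.smul_apply, smul_eq_mul]
        field_simp
        linear_combination -hrel
  obtain ⟨k, hk⟩ := hnd x hx0
  apply hk
  rw [← hs, pderiv_onC_sum]
  simp only [map_add, map_mul, eval_onC, hμ]
  rw [eval_pt_of_ev (hΦ.pderiv0 hu).degUV hU, eval_pt_of_ev (hΦ.pderiv1 hu).degUV hV,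
    eval_pt_of_ev hΦ.degUV.pderiv2 hX2, eval_pt_of_ev hΦ.degUV.pderiv3 hX3]
  ring

end Pool.Agent.Work.MP_0421d9_ag.SM
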