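import Pool.Agent.Work.MP_0421d9_ag.SM0

/-!
Binary forms and the Bezout identity.
-/

set_option linter.unusedSectionVars false
set_option linter.unusedVariables false

namespace Pool.Agent.Work.MP_0421d9_ag.SM

open MvPolynomial Module

theorem eval_smul_of_hom {σ : Type} [Fintype σ] {F : MvPolynomial σ ℂ} {n : ℕ}
    (hF : F.IsHomogeneous n) (c : ℂ) (v : σ → ℂ) : eval (c • v) F = c ^ n * eval v F := by
  rw [eval_eq', eval_eq', Finset.mul_sum]
  refine Finset.sum_congr rfl (fun d hd => ?_)
  have h1 := hF (MvPolynomial.mem_support_iff.mp hd)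
  rw [Finsupp.weight_apply, Finsupp.sum_fintype _ _ (fun i => by simp)] at h1
  simp only [Pi.one_apply, smul_eq_mul, mul_one] at h1
  have h2 : ∏ i, (c • v) i ^ d i = c ^ n * ∏ i, v i ^ d i := by
    simp only [Pi.smul_apply, smul_eq_mul, mul_pow, Finset.prod_mul_distrib]
    rw [Finset.prod_pow_eq_pow_sum, h1]
  rw [h2]
  ring

/-- dehomogenisation of binary forms -/
noncomputable def deh : R2 →ₐ[ℂ] Polynomial ℂ := aeval ![Polynomial.X, 1]

theorem eval_deh (F : R2) (c : ℂ) : (deh F).eval c = eval ![c, 1] F := by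
  induction F using MvPolynomial.induction_on with
  | C a =>
    unfold deh
    rw [algHom_C, eval_C, ← Polynomial.C_eq_algebraMap, Polynomial.eval_C]
  | add p q hp hq => rw [map_add, Polynomial.eval_add, hp, hq, map_add]
  | mul_X p i hp =>
    rw [map_mul, Polynomial.eval_mul, hp, map_mul, eval_X]
    congr 1
    unfold deh
    rw [aeval_X]
    fin_cases i <;> simp

/-- a binary form vanishes if its dehomogenisation does -/
theorem eq_zero_of_deh {F : R2} {n : ℕ} (hF : F.IsHomogeneous n) (h : deh F = 0) : F = 0 := by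
  have h1 : ∀ v : V2, v 1 ≠ 0 → eval v F = 0 := by
    intro v hv
    have h2 : v = v 1 • ![v 0 / v 1, 1] := by
      ext i
      fin_cases i
      · simp only [Fin.zero_eta, Pi.smul_apply, Matrix.cons_val_zero, smul_eq_mul]
        field_simp
      · simp
    rw [h2, eval_smul_of_hom hF, ← eval_deh, h, Polynomial.eval_zero, mul_zero]
  have h3 : (X 1 : R2) * F = 0 := by
    apply MvPolynomial.funext
    intro v
    rw [map_mul, eval_X, map_zero]
    by_cases hv : v 1 = 0
    · rw [hv, zero_mul]
    · rw [h1 v hv, mul_zero]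
  exact (mul_eq_zero.mp h3).resolve_left (X_ne_zero 1)

theorem eq_of_deh {F G : R2} {n : ℕ} (hF : F.IsHomogeneous n) (hG : G.IsHomogeneous n)
    (h : deh F = deh G) : F = G := by
  rw [← sub_eq_zero]
  apply eq_zero_of_deh (hF.sub hG)
  rw [map_sub, h, sub_self]

/-- homogenisation -/
noncomputable def homog (n : ℕ) (f : Polynomial ℂ) : R2 :=
  ∑ i ∈ Finset.range (n + 1), C (f.coeff i) * (X 0 ^ i * X 1 ^ (n - i))

theorem homog_isHomogeneous (n : ℕ) (f : Polynomial ℂ) : (homog n f).IsHomogeneous n := by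
  unfold homog
  apply IsHomogeneous.sum
  intro i hi
  apply IsHomogeneous.C_mul
  have h1 := (isHomogeneous_X_pow (R := ℂ) (0 : Fin 2) i).mul
    (isHomogeneous_X_pow (R := ℂ) (1 : Fin 2) (n - i))
  rw [Finset.mem_range] at hi
  rwa [(by omega : i + (n - i) = n)] at h1

theorem deh_X0 : deh (X 0) = Polynomial.X := by
  unfold deh
  rw [aeval_X]
  rfl

theorem deh_X1 : deh (X 1) = 1 := by
  unfold deh
  rw [aeval_X]
  rfl

theorem deh_C (c : ℂ) : deh (C c) = Polynomial.C c := by
  unfold deh
  rw [algHom_C, ← Polynomial.C_eq_algebraMap]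

theorem deh_homog {n : ℕ} {f : Polynomial ℂ} (hf : f.natDegree ≤ n) : deh (homog n f) = f := by
  unfold homog
  rw [map_sum]
  simp only [map_mul, map_pow, deh_X0, deh_X1, deh_C, one_pow, mul_one]
  exact (f.as_sum_range_C_mul_X_pow' (by omega)).symm

theorem homog_deh {n : ℕ} {F : R2} (hF : F.IsHomogeneous n) (h : (deh F).natDegree ≤ n) :
    homog n (deh F) = F :=
  eq_of_deh (homog_isHomogeneous n _) hF (deh_homog h)

theorem natDegree_deh_le {n : ℕ} {F : R2} (hF : F.IsHomogeneous n) : (deh F).natDegree ≤ n := by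
  unfold deh
  rw [F.as_sum, map_sum]
  apply Polynomial.natDegree_sum_le_of_forall_le
  intro d hd
  have h1 := hF (MvPolynomial.mem_support_iff.mp hd)
  rw [Finsupp.weight_apply, Finsupp.sum_fintype _ _ (fun i => by simp)] at h1
  simp only [Pi.one_apply, smul_eq_mul, mul_one, Fin.sum_univ_two] at h1
  rw [aeval_monomial, Finsupp.prod_fintype _ _ (fun i => pow_zero _), Fin.prod_univ_two,
    ← Polynomial.C_eq_algebraMap]
  simp only [Matrix.cons_val_zero, Matrix.cons_val_one, one_pow, mul_one]
  refine (Polynomial.natDegree_C_mul_le _ _).trans ?_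
  rw [Polynomial.natDegree_X_pow]
  omega

theorem coeff_deh {n : ℕ} {F : R2} (hF : F.IsHomogeneous n) :
    (deh F).coeff n = eval ![1, 0] F := by
  conv_rhs => rw [← homog_deh hF (natDegree_deh_le hF)]
  unfold homog
  rw [map_sum, Finset.sum_eq_single n]
  · simp
  · intro i hi hin
    rw [Finset.mem_range] at hi
    have h1 : n - i ≠ 0 := by omega
    simp [h1]
  · intro h
    exact absurd (Finset.mem_range.mpr (by omega)) h

theorem isCoprime_deh {P Q : R2} (hPQ : NoCommon P Q) : IsCoprime (deh P) (deh Q) := by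
  rw [Polynomial.isCoprime_iff_aeval_ne_zero_of_isAlgClosed ℂ ℂ]
  intro a
  rw [Polynomial.coe_aeval_eq_eval, eval_deh, eval_deh]
  apply hPQ
  intro h
  have h1 := congrFun h 1
  simp at h1

theorem exists_TR_aux {t : ℕ} {P Q : R2} (hP : P.IsHomogeneous t) (hQ : Q.IsHomogeneous t)
    (hPQ : NoCommon P Q) (hP1 : eval ![1, 0] P ≠ 0) {Δ : R2} (hΔ : Δ.IsHomogeneous (2 * t + 1)) :
    ∃ T R : R2, T.IsHomogeneous (t + 1) ∧ R.IsHomogeneous (t + 1) ∧ P * R - Q * T = Δ := by
  have hdp : (deh P).natDegree = t := by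
    apply le_antisymm (natDegree_deh_le hP)
    apply Polynomial.le_natDegree_of_ne_zero
    rw [coeff_deh hP]
    exact hP1
  have hp0 : deh P ≠ 0 := by
    intro h
    apply hP1
    rw [← coeff_deh hP, h, Polynomial.coeff_zero]
  obtain ⟨a, b, hab⟩ := isCoprime_deh hPQ
  set p := deh P with hp
  set q := deh Q with hq
  set δ := deh Δ with hδ
  set s := -(δ * b) with hs
  set t0 := s % p with ht0
  set r := δ * a - q * (s / p) with hr
  have hdiv : p * (s / p) + t0 = s := EuclideanDomain.div_add_mod s p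
  have hkey : p * r - q * t0 = δ := by
    have h1 : t0 = s - p * (s / p) := by linear_combination hdiv
    rw [h1, hr, hs]
    linear_combination δ * hab
  have hdt : t0.natDegree ≤ t := by
    rw [← hdp, ht0]
    by_cases hp1 : p.natDegree = 0
    · rw [Polynomial.eq_C_of_natDegree_eq_zero hp1]
      have hu : IsUnit (Polynomial.C (p.coeff 0)) := by
        rw [Polynomial.isUnit_C, isUnit_iff_ne_zero]
        intro h
        apply hp0
        rw [Polynomial.eq_C_of_natDegree_eq_zero hp1, h, Polynomial.C_0]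
      rw [(EuclideanDomain.mod_eq_zero).mpr (hu.dvd), Polynomial.natDegree_zero]
      exact Nat.zero_le _
    · exact (Polynomial.natDegree_mod_lt s hp1).le
  have hdr : r.natDegree ≤ t + 1 := by
    by_cases hr0 : r = 0
    · rw [hr0, Polynomial.natDegree_zero]
      exact Nat.zero_le _
    · have h1 : p * r = δ + q * t0 := by rw [← hkey]; ring
      have h2 : (p * r).natDegree = t + r.natDegree := by
        rw [Polynomial.natDegree_mul hp0 hr0, hdp]
      have h3 : (δ + q * t0).natDegree ≤ 2 * t + 1 := by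
        refine (Polynomial.natDegree_add_le _ _).trans (max_le ?_ ?_)
        · exact natDegree_deh_le hΔ
        · refine Polynomial.natDegree_mul_le.trans ?_
          have : q.natDegree ≤ t := natDegree_deh_le hQ
          omega
      rw [← h1, h2] at h3
      omega
  refine ⟨homog (t + 1) t0, homog (t + 1) r, homog_isHomogeneous _ _, homog_isHomogeneous _ _, ?_⟩
  apply eq_of_deh (n := 2 * t + 1) _ hΔ
  · rw [map_sub, map_mul, map_mul, deh_homog (f := r) hdr, deh_homog (f := t0) (by omega)]
    exact hkey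
  · have e : t + (t + 1) = 2 * t + 1 := by omega
    have h1 := hP.mul (homog_isHomogeneous (t + 1) r)
    have h2 := hQ.mul (homog_isHomogeneous (t + 1) t0)
    rw [e] at h1 h2
    exact h1.sub h2

theorem exists_TR {t : ℕ} {P Q : R2} (hP : P.IsHomogeneous t) (hQ : Q.IsHomogeneous t)
    (hPQ : NoCommon P Q) {Δ : R2} (hΔ : Δ.IsHomogeneous (2 * t + 1)) :
    ∃ T R : R2, T.IsHomogeneous (t + 1) ∧ R.IsHomogeneous (t + 1) ∧ P * R - Q * T = Δ := by
  rcases hPQ ![1, 0] (by
    intro h
    have h1 := congrFun h 0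
    simp at h1) with h | h
  · exact exists_TR_aux hP hQ hPQ h hΔ
  · obtain ⟨T, R, hT, hR, h1⟩ := exists_TR_aux hQ hP (fun y hy => (hPQ y hy).symm) h hΔ
    refine ⟨-R, -T, hR.neg, hT.neg, ?_⟩
    rw [← h1]
    ring

end Pool.Agent.Work.MP_0421d9_ag.SM
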