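import Pool.Agent.Work.MP_0421d9_ag.SPl
import Pool.Agent.Work.MP_0421d9_ag.SBC

/-!
Binary forms with generic coefficients, substitution into bihomogeneous polynomials.
-/

set_option linter.unusedSectionVars false
set_option linter.unusedVariables false

namespace Pool.Agent.Work.MP_0421d9_ag.SM

open MvPolynomial Module

/-! ### binary forms -/

/-- the binary form of degree `k` with the coefficients `c` -/
noncomputable def bf (k : ℕ) (c : Fin (k + 1) → ℂ) : R2 :=
  ∑ i : Fin (k + 1), C (c i) * (X 0 ^ (i : ℕ) * X 1 ^ (k - (i : ℕ)))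

theorem bf_hom (k : ℕ) (c : Fin (k + 1) → ℂ) : (bf k c).IsHomogeneous k := by
  unfold bf
  apply IsHomogeneous.sum
  intro i _
  apply IsHomogeneous.C_mul
  have h1 := (isHomogeneous_X_pow (R := ℂ) (0 : Fin 2) (i : ℕ)).mul
    (isHomogeneous_X_pow (R := ℂ) (1 : Fin 2) (k - (i : ℕ)))
  rwa [(by omega : (i : ℕ) + (k - (i : ℕ)) = k)] at h1

theorem exists_bf {k : ℕ} {A : R2} (hA : A.IsHomogeneous k) : ∃ c, A = bf k c := by
  refine ⟨fun i => (deh A).coeff (i : ℕ), ?_⟩
  conv_lhs => rw [← homog_deh hA (natDegree_deh_le hA)]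
  unfold homog bf
  rw [Finset.sum_range]

theorem cD_bf (D : Derivation ℚ ℂ ℂ) (k : ℕ) (c : Fin (k + 1) → ℂ) :
    cD D (bf k c) = bf k (fun i => D (c i)) := by
  unfold bf
  rw [map_sum]
  refine Finset.sum_congr rfl (fun i _ => ?_)
  rw [cD_C_mul, cD_mul, cD_pow, cD_pow, cD_X, cD_X]
  simp

theorem Gam_hom {a : ℕ} (g : Fin a → ℂ) : (Gam g).IsHomogeneous a := by
  unfold Gam
  have h := IsHomogeneous.prod (Finset.univ : Finset (Fin a))
    (fun j => (X 0 - C (g j) * X 1 : R2)) (fun _ => 1) (fun j _ =>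
      (isHomogeneous_X ℂ 0).sub (isHomogeneous_C_mul_X (g j) 1))
  simpa using h

theorem cD_Gam_fixed {a : ℕ} {g : Fin a → ℂ} {D : Derivation ℚ ℂ ℂ} (h : ∀ j, D (g j) = 0) :
    cD D (Gam g) = 0 := by
  classical
  unfold Gam
  have h1 : ∀ s : Finset (Fin a), cD D (∏ j ∈ s, (X 0 - C (g j) * X 1 : R2)) = 0 := by
    intro s
    induction s using Finset.induction_on with
    | empty =>
      rw [Finset.prod_empty, ← C_1, cD_C]
      simp
    | insert j s hj ih =>
      rw [Finset.prod_insert hj, cD_mul, ih, mul_zero, add_zero, map_sub, cD_X, cD_C_mul, cD_X, h j]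
      simp
  exact h1 Finset.univ

theorem eval_bf (k : ℕ) (c : Fin (k + 1) → ℂ) (y : V2) :
    eval y (bf k c) = ∑ i : Fin (k + 1), c i * (y 0 ^ (i : ℕ) * y 1 ^ (k - (i : ℕ))) := by
  unfold bf
  rw [map_sum]
  simp only [map_mul, map_pow, eval_C, eval_X]

/-- Euler -/
theorem euler2 {F : R2} {n : ℕ} (hF : F.IsHomogeneous n) (y : V2) :
    y 0 * eval y (pderiv 0 F) + y 1 * eval y (pderiv 1 F) = n * eval y F := by
  have h := congrArg (eval y) hF.sum_X_mul_pderiv
  rw [map_sum, Fin.sum_univ_two] at h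
  simp only [map_mul, eval_X, nsmul_eq_mul, map_natCast] at h
  exact h

/-- a form with `A (y) ≠ 0` -/
theorem exists_ne_zero_form (k : ℕ) {y : V2} (hy : y ≠ 0) :
    ∃ A : R2, A.IsHomogeneous k ∧ eval y A ≠ 0 := by
  by_cases h : y 0 = 0
  · refine ⟨X 1 ^ k, isHomogeneous_X_pow _ _, ?_⟩
    rw [map_pow, eval_X]
    apply pow_ne_zero
    intro h1
    apply hy
    ext i
    fin_cases i
    · exact h
    · exact h1
  · refine ⟨X 0 ^ k, isHomogeneous_X_pow _ _, ?_⟩
    rw [map_pow, eval_X]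
    exact pow_ne_zero _ h

theorem bf_noCommon {k : ℕ} {c₁ c₂ : Fin (k + 1) → ℂ}
    (h : AlgebraicIndependent ℚ (Sum.elim c₁ c₂)) : NoCommon (bf k c₁) (bf k c₂) := by
  intro y hy
  by_contra hcon
  push Not at hcon
  obtain ⟨h1, h2⟩ := hcon
  obtain ⟨A, hA, hAy⟩ := exists_ne_zero_form k hy
  obtain ⟨e, rfl⟩ := exists_bf hA
  apply hAy
  by_cases hg : eval y (pderiv 0 (bf k c₂)) = 0 ∧ eval y (pderiv 1 (bf k c₂)) = 0
  · obtain ⟨D, hD⟩ := exists_derivation _ h (Sum.elim (fun _ => 0) e)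
    have h3 := D_eval D y (bf k c₂)
    rw [h2, map_zero, Fin.sum_univ_two, hg.1, hg.2, mul_zero, mul_zero, add_zero, add_zero,
      cD_bf] at h3
    have h4 : (fun i => D (c₂ i)) = e := by
      funext i
      exact hD (Sum.inr i)
    rw [h4] at h3
    exact h3.symm
  · obtain ⟨D, hD⟩ := exists_derivation _ h (Sum.elim e (fun _ => 0))
    have h3 := D_eval D y (bf k c₂)
    have h4 := D_eval D y (bf k c₁)
    have e1 : (fun i => D (c₁ i)) = e := by
      funext i
      exact hD (Sum.inl i)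
    have e2 : (fun i => D (c₂ i)) = fun _ => 0 := by
      funext i
      exact hD (Sum.inr i)
    rw [cD_bf, e2, h2, map_zero, Fin.sum_univ_two, eval_bf] at h3
    simp only [zero_mul, Finset.sum_const_zero, zero_add] at h3
    rw [cD_bf, e1, h1, map_zero, Fin.sum_univ_two] at h4
    have h5 := euler2 (bf_hom k c₂) y
    have h6 := euler2 (bf_hom k c₁) y
    rw [h2, mul_zero] at h5
    rw [h1, mul_zero] at h6
    set a := eval y (pderiv 0 (bf k c₂))
    set b := eval y (pderiv 1 (bf k c₂))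
    set a' := eval y (pderiv 0 (bf k c₁))
    set b' := eval y (pderiv 1 (bf k c₁))
    -- `D y` is proportional to `y`
    have h7 : D (y 0) * y 1 - D (y 1) * y 0 = 0 := by
      by_contra hne
      apply hg
      constructor
      · have : (D (y 0) * y 1 - D (y 1) * y 0) * a = 0 := by
          linear_combination -(y 1) * h3 - D (y 1) * h5
        exact (mul_eq_zero.mp this).resolve_left hne
      · have : (D (y 0) * y 1 - D (y 1) * y 0) * b = 0 := by
          linear_combination (y 0) * h3 + D (y 0) * h5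
        exact (mul_eq_zero.mp this).resolve_left hne
    have h8 : D (y 0) * a' + D (y 1) * b' = 0 := by
      by_cases h0 : y 0 = 0
      · have h1' : y 1 ≠ 0 := by
          intro h1'
          apply hy
          ext i
          fin_cases i
          · exact h0
          · exact h1'
        have : y 1 * (D (y 0) * a' + D (y 1) * b') = 0 := by
          linear_combination a' * h7 + D (y 1) * h6
        exact (mul_eq_zero.mp this).resolve_left h1'
      · have : y 0 * (D (y 0) * a' + D (y 1) * b') = 0 := by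
          linear_combination -b' * h7 + D (y 0) * h6
        exact (mul_eq_zero.mp this).resolve_left h0
    rw [h8, add_zero] at h4
    exact h4.symm

/-- the form `X 1 ^ k` -/
theorem bf_single (k : ℕ) : bf k (Pi.single 0 1) = X 1 ^ k := by
  classical
  unfold bf
  rw [Finset.sum_eq_single 0]
  · simp
  · intro i _ hi
    rw [Pi.single_eq_of_ne hi]
    simp
  · simp

theorem D_eval_bf (D : Derivation ℚ ℂ ℂ) {g : ℂ} (hg : D g = 0) (k : ℕ) (c : Fin (k + 1) → ℂ) :
    D (eval ![g, 1] (bf k c)) = eval ![g, 1] (bf k (fun i => D (c i))) := by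
  rw [D_eval, Fin.sum_univ_two, cD_bf]
  simp [hg]

theorem bf_zero (k : ℕ) : bf k (fun _ => 0) = 0 := by
  unfold bf
  simp

/-- values of generic forms are independent -/
theorem bf_det {k l : ℕ} {g : ℂ} {c₁ c₂ : Fin (k + 1) → ℂ} {e₁ e₂ : Fin (l + 1) → ℂ}
    (h : AlgebraicIndependent ℚ (Sum.elim (fun _ : Unit => g)
      (Sum.elim (Sum.elim c₁ c₂) (Sum.elim e₁ e₂)))) :
    eval ![g, 1] (bf k c₁) * eval ![g, 1] (bf l e₂) -
      eval ![g, 1] (bf k c₂) * eval ![g, 1] (bf l e₁) ≠ 0 := by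
  intro h0
  have h1 : eval ![g, 1] (bf k c₁) = 0 := by
    obtain ⟨D, hD⟩ := exists_derivation _ h (Sum.elim (fun _ => 0)
      (Sum.elim (Sum.elim (fun _ => 0) (fun _ => 0)) (Sum.elim (fun _ => 0) (Pi.single 0 1))))
    have hg : D g = 0 := hD (Sum.inl ())
    have e1 : (fun i => D (c₁ i)) = fun _ => 0 := by
      funext i
      exact hD (Sum.inr (Sum.inl (Sum.inl i)))
    have e2 : (fun i => D (c₂ i)) = fun _ => 0 := by
      funext i
      exact hD (Sum.inr (Sum.inl (Sum.inr i)))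
    have e3 : (fun i => D (e₁ i)) = fun _ => 0 := by
      funext i
      exact hD (Sum.inr (Sum.inr (Sum.inl i)))
    have e4 : (fun i => D (e₂ i)) = Pi.single 0 1 := by
      funext i
      exact hD (Sum.inr (Sum.inr (Sum.inr i)))
    have h2 := congrArg D h0
    rw [map_sub, Derivation.leibniz, Derivation.leibniz, D_eval_bf D hg, D_eval_bf D hg,
      D_eval_bf D hg, D_eval_bf D hg, e1, e2, e3, e4, bf_zero, bf_zero, bf_single, map_zero] at h2
    simpa using h2
  obtain ⟨D, hD⟩ := exists_derivation _ h (Sum.elim (fun _ => 0)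
    (Sum.elim (Sum.elim (Pi.single 0 1) (fun _ => 0)) (Sum.elim (fun _ => 0) (fun _ => 0))))
  have hg : D g = 0 := hD (Sum.inl ())
  have e1 : (fun i => D (c₁ i)) = Pi.single 0 1 := by
    funext i
    exact hD (Sum.inr (Sum.inl (Sum.inl i)))
  have h2 := congrArg D h1
  rw [D_eval_bf D hg, e1, bf_single, map_zero] at h2
  simp at h2

/-! ### substitution -/

theorem onC_hom {P Q : R2} {u b k : ℕ} (hP : P.IsHomogeneous k) (hQ : Q.IsHomogeneous k) {Φ : R4}
    (hΦ : BiHom u b Φ) : (onC P Q Φ).IsHomogeneous (u * k + b) := by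
  unfold onC
  rw [Φ.as_sum, map_sum]
  apply IsHomogeneous.sum
  intro α hα
  obtain ⟨h1, h2⟩ := hΦ α (MvPolynomial.mem_support_iff.mp hα)
  rw [aeval_monomial, Finsupp.prod_fintype _ _ (fun i => pow_zero _), Fin.prod_univ_four,
    algebraMap_eq]
  simp only [Matrix.cons_val]
  apply IsHomogeneous.C_mul
  have h3 := (((hP.pow (α 0)).mul (hQ.pow (α 1))).mul
    (isHomogeneous_X_pow (R := ℂ) (0 : Fin 2) (α 2))).mul
    (isHomogeneous_X_pow (R := ℂ) (1 : Fin 2) (α 3))
  have h4 : k * α 0 + k * α 1 + α 2 + α 3 = u * k + b := by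
    rw [← h1, ← h2]
    ring
  rwa [h4] at h3

theorem onC_mul {P Q G : R2} {u b : ℕ} {Φ : R4} (hΦ : BiHom u b Φ) :
    onC (G * P) (G * Q) Φ = G ^ u * onC P Q Φ := by
  unfold onC
  rw [Φ.as_sum, map_sum, map_sum, Finset.mul_sum]
  refine Finset.sum_congr rfl (fun α hα => ?_)
  obtain ⟨h1, h2⟩ := hΦ α (MvPolynomial.mem_support_iff.mp hα)
  rw [aeval_monomial, aeval_monomial, Finsupp.prod_fintype _ _ (fun i => pow_zero _),
    Finsupp.prod_fintype _ _ (fun i => pow_zero _), Fin.prod_univ_four, Fin.prod_univ_four]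
  simp only [Matrix.cons_val]
  rw [mul_pow, mul_pow, ← h1, pow_add]
  ring

theorem exists_root_form {P : R2} {n : ℕ} (hn : 1 ≤ n) (hP : P.IsHomogeneous n) :
    ∃ y : V2, y ≠ 0 ∧ eval y P = 0 := by
  by_cases h : eval ![1, 0] P = 0
  · refine ⟨![1, 0], ?_, h⟩
    intro h0
    have := congrFun h0 0
    simp at this
  · have h1 : (deh P).natDegree = n := by
      apply le_antisymm (natDegree_deh_le hP)
      apply Polynomial.le_natDegree_of_ne_zero
      rw [coeff_deh hP]
      exact h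
    have h2 : (deh P).degree ≠ 0 := by
      intro h2
      have h3 : (deh P).natDegree = 0 := Polynomial.natDegree_eq_of_degree_eq_some h2
      omega
    obtain ⟨c, hc⟩ := IsAlgClosed.exists_root (deh P) h2
    rw [Polynomial.IsRoot, eval_deh] at hc
    refine ⟨![c, 1], ?_, hc⟩
    intro h0
    have := congrFun h0 1
    simp at this

theorem dvd_small {n b v : ℕ} {N W f : R2} (hN : N.IsHomogeneous n) (hf : f.IsHomogeneous b)
    (hbn : b < n) (hN0 : N ≠ 0) (hco : NoCommon W N) (h : N ∣ W ^ v * f) : f = 0 := by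
  obtain ⟨y, hy⟩ : ∃ y : V2, eval y N ≠ 0 := by
    by_contra hcon
    push Not at hcon
    apply hN0
    apply MvPolynomial.funext
    intro y
    rw [hcon y, map_zero]
  have hy0 : y ≠ 0 := by
    rintro rfl
    apply hy
    have h1 := eval_smul_of_hom hN 0 (0 : V2)
    have hn : n ≠ 0 := by omega
    rw [zero_smul, zero_pow hn, zero_mul] at h1
    exact h1
  obtain ⟨z, hz⟩ := exists_basis hy0
  have hnc : (dz y z N).coeff n ≠ 0 := by
    rw [coeff_dz y z hN]
    exact hy
  have hnd : (dz y z N).natDegree = n :=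
    le_antisymm (natDegree_dz_le y z hN) (Polynomial.le_natDegree_of_ne_zero hnc)
  have hcop : IsCoprime (dz y z W) (dz y z N) := by
    rw [Polynomial.isCoprime_iff_aeval_ne_zero_of_isAlgClosed ℂ ℂ]
    intro a
    rw [Polynomial.coe_aeval_eq_eval, eval_dz, eval_dz]
    exact hco _ (smul_add_ne_zero hz a)
  have h2 := map_dvd (dz y z) h
  rw [map_mul, map_pow] at h2
  have h3 := (hcop.symm.pow_right (n := v)).dvd_of_dvd_mul_left h2
  apply eq_zero_of_dz hz hf
  apply Polynomial.eq_zero_of_dvd_of_natDegree_lt h3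
  rw [hnd]
  exact lt_of_le_of_lt (natDegree_dz_le y z hf) hbn

theorem onC_inj {P Q : R2} {u β : ℕ} (hP : P.IsHomogeneous (β + 1)) (hQ : Q.IsHomogeneous (β + 1))
    (hPQ : NoCommon P Q) {Φ : R4} (hΦ : BiHom u β Φ) (h : onC P Q Φ = 0) : Φ = 0 := by
  have h1 : ∀ θ : V2, θ 0 ≠ 0 → ev θ Φ = 0 := by
    intro θ hθ
    set N : R2 := C (θ 1) * P - C (θ 0) * Q with hNdef
    have hN : N.IsHomogeneous (β + 1) := (hP.C_mul _).sub (hQ.C_mul _)
    have hevN : ∀ y, eval y N = θ 1 * eval y P - θ 0 * eval y Q := by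
      intro y
      rw [hNdef, map_sub, map_mul, map_mul, eval_C, eval_C]
    have hN0 : N ≠ 0 := by
      intro h0
      obtain ⟨y, hy, hy0⟩ := exists_root_form (by omega) hP
      have h2 := hevN y
      rw [h0, map_zero, hy0, mul_zero, zero_sub] at h2
      rcases hPQ y hy with h3 | h3
      · exact h3 hy0
      · exact h3 ((mul_eq_zero.mp (neg_eq_zero.mp h2.symm)).resolve_left hθ)
    have hco : NoCommon P N := by
      intro y hy
      by_contra hcon
      push Not at hcon
      obtain ⟨h2, h3⟩ := hcon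
      rw [hevN, h2, mul_zero, zero_sub] at h3
      rcases hPQ y hy with h4 | h4
      · exact h4 h2
      · exact h4 ((mul_eq_zero.mp (neg_eq_zero.mp h3)).resolve_left hθ)
    have hdvd := dvd_onC hΦ.degUV P Q θ
    rw [← hNdef, h, mul_zero, zero_sub, dvd_neg] at hdvd
    exact dvd_small hN (ev_isHomogeneous hΦ θ) (by omega) hN0 hco hdvd
  have h2 : (X 0 : R4) * Φ = 0 := by
    apply MvPolynomial.funext
    intro v
    rw [map_mul, eval_X, map_zero]
    by_cases hv : v 0 = 0
    · rw [hv, zero_mul]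
    · have h3 := h1 ![v 0, v 1] hv
      have h4 := eval_ev ![v 0, v 1] ![v 2, v 3] Φ
      rw [h3, map_zero] at h4
      have h5 : pt ![v 0, v 1] ![v 2, v 3] = v := by
        funext i
        fin_cases i <;> simp [pt]
      rw [h5] at h4
      rw [← h4, mul_zero]
  exact (mul_eq_zero.mp h2).resolve_left (X_ne_zero 0)

theorem cD_res (D : Derivation ℚ ℂ ℂ) (F : R3) : cD D (res F) = res (cD D F) := by
  unfold res
  rw [cD_aeval, Fin.sum_univ_three]
  simp

/-! ### bihomogeneous polynomials -/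

/-- bihomogeneity: scaling -/
theorem BiHom.eval_scale {u b : ℕ} {Φ : R4} (hΦ : BiHom u b Φ) (c e : ℂ) (θ y : V2) :
    eval (pt (c • θ) (e • y)) Φ = c ^ u * e ^ b * eval (pt θ y) Φ := by
  rw [eval_eq', eval_eq', Finset.mul_sum]
  refine Finset.sum_congr rfl (fun d hd => ?_)
  obtain ⟨h1, h2⟩ := hΦ d (MvPolynomial.mem_support_iff.mp hd)
  rw [← h1, ← h2, Fin.prod_univ_four, Fin.prod_univ_four]
  simp only [pt, Pi.smul_apply, smul_eq_mul, Matrix.cons_val]
  rw [mul_pow, mul_pow, mul_pow, mul_pow, pow_add, pow_add]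
  ring

theorem BiHom.pderiv_left {u b : ℕ} {Φ : R4} (hΦ : BiHom u b Φ) {k : Fin 4} (hk : k = 0 ∨ k = 1) :
    BiHom (u - 1) b (pderiv k Φ) := by
  intro α hα
  rw [coeff_pderiv] at hα
  have h1 := hΦ _ (left_ne_zero_of_mul hα)
  rcases hk with rfl | rfl
  · simp at h1
    omega
  · simp at h1
    omega

theorem BiHom.pderiv_right {u b : ℕ} {Φ : R4} (hΦ : BiHom u b Φ) {k : Fin 4} (hk : k = 2 ∨ k = 3) :
    BiHom u (b - 1) (pderiv k Φ) := by
  intro α hα
  rw [coeff_pderiv] at hα
  have h1 := hΦ _ (left_ne_zero_of_mul hα)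
  rcases hk with rfl | rfl
  · simp at h1
    omega
  · simp at h1
    omega

theorem BiHom.euler_left {u b : ℕ} {Φ : R4} (hΦ : BiHom u b Φ) (θ y : V2) :
    θ 0 * eval (pt θ y) (pderiv 0 Φ) + θ 1 * eval (pt θ y) (pderiv 1 Φ) =
      u * eval (pt θ y) Φ := by
  have h := congrArg (eval (pt θ y)) (euler_UV hΦ.degUV)
  rw [map_mul, map_add, map_mul, map_mul, eval_C, eval_X, eval_X] at h
  exact h.symm

theorem euler_xy {u b : ℕ} {G : R4} (h : BiHom u b G) :
    C (b : ℂ) * G = X 2 * pderiv 2 G + X 3 * pderiv 3 G := by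
  conv_rhs => rw [G.as_sum]
  conv_lhs => rw [G.as_sum]
  simp only [map_sum, Finset.mul_sum, ← Finset.sum_add_distrib]
  refine Finset.sum_congr rfl (fun α hα => ?_)
  rw [X_mul_pderiv_monomial, X_mul_pderiv_monomial, ← add_smul,
    (h α (MvPolynomial.mem_support_iff.mp hα)).2, nsmul_eq_mul, map_natCast]

theorem BiHom.euler_right {u b : ℕ} {Φ : R4} (hΦ : BiHom u b Φ) (θ y : V2) :
    y 0 * eval (pt θ y) (pderiv 2 Φ) + y 1 * eval (pt θ y) (pderiv 3 Φ) =
      b * eval (pt θ y) Φ := by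
  have h := congrArg (eval (pt θ y)) (euler_xy hΦ)
  rw [map_mul, map_add, map_mul, map_mul, eval_C, eval_X, eval_X] at h
  exact h.symm

end Pool.Agent.Work.MP_0421d9_ag.SM
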