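import Pool.Agent.Work.MP_0421d9_ag.SM0

/-!
The coefficient of the highest power of `z` in `Φ (P z - T, Q z - R, x, y)`.
-/

set_option linter.unusedSectionVars false
set_option linter.unusedVariables false

namespace Pool.Agent.Work.MP_0421d9_ag.SM

open MvPolynomial Module

namespace Coef

/-- polynomials in `z` with coefficients in `R2` -/
noncomputable def cz : R3 →ₐ[ℂ] Polynomial R2 :=
  aeval ![Polynomial.C (X 0), Polynomial.C (X 1), Polynomial.X]

theorem cz_emb (A : R2) : cz (emb A) = Polynomial.C A := by
  unfold cz emb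
  induction A using MvPolynomial.induction_on with
  | C a =>
    rw [algHom_C, AlgHom.commutes]
    rfl
  | add p q hp hq => rw [map_add, map_add, hp, hq, map_add]
  | mul_X p i hp =>
    rw [map_mul, map_mul, hp, aeval_X, map_mul]
    congr 1
    fin_cases i
    · simp
    · simp

theorem coeff_cz (f : R3) (i j k : ℕ) :
    coeff (Finsupp.equivFunOnFinite.symm ![i, j, k]) f =
      coeff (Finsupp.equivFunOnFinite.symm ![i, j]) ((cz f).coeff k) := by
  induction f using MvPolynomial.induction_on' with
  | add p q hp hq => rw [coeff_add, hp, hq, map_add, Polynomial.coeff_add, coeff_add]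
  | monomial α a =>
    unfold cz
    rw [aeval_monomial, Finsupp.prod_fintype _ _ (fun i => pow_zero _), Fin.prod_univ_three]
    simp only [Matrix.cons_val]
    have h1 : (algebraMap ℂ (Polynomial R2)) a *
        (Polynomial.C (X 0) ^ α 0 * Polynomial.C (X 1) ^ α 1 * Polynomial.X ^ α 2) =
        Polynomial.C (C a * (X 0 ^ α 0 * X 1 ^ α 1)) * Polynomial.X ^ α 2 := by
      rw [map_mul, map_mul, map_pow, map_pow]
      have : (algebraMap ℂ (Polynomial R2)) a = Polynomial.C (C a) := rfl
      rw [this]
      ring
    rw [h1, Polynomial.coeff_C_mul_X_pow]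
    have h2 : (C a * (X 0 ^ α 0 * X 1 ^ α 1) : R2) =
        monomial (Finsupp.equivFunOnFinite.symm ![α 0, α 1]) a := by
      rw [monomial_eq, Finsupp.prod_fintype _ _ (fun i => pow_zero _), Fin.prod_univ_two]
      simp
    rw [coeff_monomial]
    by_cases hk : k = α 2
    · rw [if_pos hk, h2, coeff_monomial]
      congr 1
      apply propext
      constructor
      · intro h
        rw [h]
        ext l
        fin_cases l <;> simp
      · intro h
        have h0 := DFunLike.congr_fun h 0
        have h1 := DFunLike.congr_fun h 1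
        simp at h0 h1
        ext l
        fin_cases l
        · simpa using h0
        · simpa using h1
        · simpa using hk.symm
    · rw [if_neg hk, coeff_zero, if_neg]
      intro h
      apply hk
      rw [h]
      simp

end Coef

open Coef

/-- the coefficient of the highest power of `z` -/
theorem coeff_onS (P Q T R : R2) {u β : ℕ} {Φ : R4} (hΦ : BiHom u β Φ) (i j : ℕ) :
    coeff (Finsupp.equivFunOnFinite.symm ![i, j, u]) (onS P Q T R Φ) =
      coeff (Finsupp.equivFunOnFinite.symm ![i, j]) (onC P Q Φ) := by
  rw [coeff_cz]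
  congr 1
  unfold onS onC
  conv_lhs => rw [Φ.as_sum]
  conv_rhs => rw [Φ.as_sum]
  rw [map_sum, map_sum, map_sum, Polynomial.finsetSum_coeff]
  refine Finset.sum_congr rfl fun α hα => ?_
  have h1 := (hΦ α (MvPolynomial.mem_support_iff.mp hα)).1
  rw [aeval_monomial, aeval_monomial, Finsupp.prod_fintype _ _ (fun i => pow_zero _),
    Finsupp.prod_fintype _ _ (fun i => pow_zero _), Fin.prod_univ_four, Fin.prod_univ_four,
    algebraMap_eq, algebraMap_eq]
  simp only [Matrix.cons_val]
  set c := coeff α Φ
  have hX0 : (X 0 : R3) = emb (X 0) := by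
    unfold emb
    rw [aeval_X]
    rfl
  have hX1 : (X 1 : R3) = emb (X 1) := by
    unfold emb
    rw [aeval_X]
    rfl
  have hC : (C c : R3) = emb (C c) := by
    unfold emb
    rw [algHom_C]
    rfl
  have hX2 : cz (X 2 : R3) = Polynomial.X := by
    unfold cz
    rw [aeval_X]
    rfl
  rw [hX0, hX1, hC]
  simp only [map_mul, map_pow, map_sub, cz_emb, hX2]
  have hlin : ∀ A B : R2, (Polynomial.C A * Polynomial.X - Polynomial.C B).natDegree ≤ 1 := by
    intro A B
    refine (Polynomial.natDegree_sub_le _ _).trans ?_
    rw [Polynomial.natDegree_C]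
    exact max_le (Polynomial.natDegree_C_mul_le _ _ |>.trans Polynomial.natDegree_X_le) (by omega)
  have hco : ∀ A B : R2, (Polynomial.C A * Polynomial.X - Polynomial.C B).coeff 1 = A := by
    intro A B
    simp [Polynomial.coeff_C]
  have hpow : ∀ (A B : R2) (n : ℕ),
      ((Polynomial.C A * Polynomial.X - Polynomial.C B) ^ n).natDegree ≤ n := by
    intro A B n
    have := Polynomial.natDegree_pow_le_of_le n (hlin A B)
    simpa using this
  have hpc : ∀ (A B : R2) (n : ℕ),
      ((Polynomial.C A * Polynomial.X - Polynomial.C B) ^ n).coeff n = A ^ n := by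
    intro A B n
    have := Polynomial.coeff_pow_of_natDegree_le (m := n) (hlin A B)
    rwa [mul_one, hco] at this
  have h2 : (Polynomial.C (C c) * ((Polynomial.C P * Polynomial.X - Polynomial.C T) ^ α 0 *
      (Polynomial.C Q * Polynomial.X - Polynomial.C R) ^ α 1 *
        Polynomial.C (X 0) ^ α 2 * Polynomial.C (X 1) ^ α 3) : Polynomial R2) =
      ((Polynomial.C P * Polynomial.X - Polynomial.C T) ^ α 0 *
      (Polynomial.C Q * Polynomial.X - Polynomial.C R) ^ α 1) *
        Polynomial.C (C c * (X 0 ^ α 2 * X 1 ^ α 3)) := by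
    simp only [map_mul, map_pow]
    ring
  rw [h2, Polynomial.coeff_mul_C, ← h1,
    Polynomial.coeff_mul_add_eq_of_natDegree_le (hpow P T _) (hpow Q R _), hpc, hpc]
  ring

end Pool.Agent.Work.MP_0421d9_ag.SM
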