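import Pool.Agent.Work.MP_0421d9_ag.SRes

/-!
Coefficients of restrictions to the line `z = 0`.
-/

set_option linter.unusedSectionVars false
set_option linter.unusedVariables false

namespace Pool.Agent.Work.MP_0421d9_ag.SM

open MvPolynomial Module

/-- exponents in two variables -/
noncomputable def e2 (i j : ℕ) : Fin 2 →₀ ℕ := Finsupp.equivFunOnFinite.symm ![i, j]

/-- exponents in three variables -/
noncomputable def e3 (i j k : ℕ) : Fin 3 →₀ ℕ := Finsupp.equivFunOnFinite.symm ![i, j, k]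

theorem e2_eq {α : Fin 2 →₀ ℕ} {i j : ℕ} : α = e2 i j ↔ α 0 = i ∧ α 1 = j := by
  constructor
  · rintro rfl
    exact ⟨rfl, rfl⟩
  · rintro ⟨h0, h1⟩
    ext k
    fin_cases k
    · exact h0
    · exact h1

theorem e3_eq {α : Fin 3 →₀ ℕ} {i j k : ℕ} : α = e3 i j k ↔ α 0 = i ∧ α 1 = j ∧ α 2 = k := by
  constructor
  · rintro rfl
    exact ⟨rfl, rfl, rfl⟩
  · rintro ⟨h0, h1, h2⟩
    ext l
    fin_cases l
    · exact h0
    · exact h1
    · exact h2

theorem mono2 (i j : ℕ) (a : ℂ) : (monomial (e2 i j) a : R2) = C a * (X 0 ^ i * X 1 ^ j) := by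
  rw [X_pow_eq_monomial, X_pow_eq_monomial, monomial_mul, C_mul_monomial, mul_one, mul_one]
  have h : (Finsupp.single 0 i + Finsupp.single 1 j : Fin 2 →₀ ℕ) = e2 i j := by
    rw [e2_eq]
    constructor <;> simp
  rw [h]

theorem mono3 (i j k : ℕ) (a : ℂ) :
    (monomial (e3 i j k) a : R3) = C a * (X 0 ^ i * X 1 ^ j * X 2 ^ k) := by
  rw [X_pow_eq_monomial, X_pow_eq_monomial, X_pow_eq_monomial, monomial_mul, monomial_mul,
    C_mul_monomial, mul_one, mul_one, mul_one]
  have h : (Finsupp.single 0 i + Finsupp.single 1 j + Finsupp.single 2 k : Fin 3 →₀ ℕ) =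
      e3 i j k := by
    rw [e3_eq]
    refine ⟨?_, ?_, ?_⟩ <;> simp
  rw [h]

theorem coeff_res (F : R3) (i j : ℕ) : coeff (e2 i j) (res F) = coeff (e3 i j 0) F := by
  induction F using MvPolynomial.induction_on' with
  | monomial α a =>
    have hα : α = e3 (α 0) (α 1) (α 2) := e3_eq.mpr ⟨rfl, rfl, rfl⟩
    have h1 : res (monomial α a) = C a * (X 0 ^ α 0 * X 1 ^ α 1 * 0 ^ α 2) := by
      conv_lhs => rw [hα, mono3]
      rw [map_mul, map_mul, map_mul, map_pow, map_pow, map_pow, res_X0, res_X1, res_X2, res_C]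
    rw [h1, coeff_monomial]
    rcases Nat.eq_zero_or_pos (α 2) with h2 | h2
    · rw [h2, pow_zero, mul_one, ← mono2, coeff_monomial]
      congr 1
      rw [e3_eq, e2_eq]
      simp only [h2, and_true, eq_iff_iff]
      exact Iff.rfl
    · rw [zero_pow (by omega), mul_zero, mul_zero, coeff_zero, if_neg]
      rw [e3_eq]
      omega
  | add p q hp hq => rw [map_add, coeff_add, coeff_add, hp, hq]

theorem emb_C (c : ℂ) : emb (C c) = C c := by
  unfold emb
  rw [algHom_C]
  rfl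

theorem emb_X0 : emb (X 0) = X 0 := by
  unfold emb
  rw [aeval_X]
  rfl

theorem emb_X1 : emb (X 1) = X 1 := by
  unfold emb
  rw [aeval_X]
  rfl

theorem coeff_emb (f : R2) (α : Fin 3 →₀ ℕ) :
    coeff α (emb f) = if α 2 = 0 then coeff (e2 (α 0) (α 1)) f else 0 := by
  induction f using MvPolynomial.induction_on' with
  | monomial β a =>
    have hβ : β = e2 (β 0) (β 1) := e2_eq.mpr ⟨rfl, rfl⟩
    have h1 : emb (monomial β a) = monomial (e3 (β 0) (β 1) 0) a := by
      conv_lhs => rw [hβ, mono2]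
      rw [map_mul, map_mul, map_pow, map_pow, emb_X0, emb_X1, emb_C, mono3, pow_zero, mul_one]
    rw [h1, coeff_monomial, coeff_monomial]
    by_cases h2 : α 2 = 0
    · rw [if_pos h2]
      congr 1
      rw [e2_eq, eq_iff_iff]
      constructor
      · intro h
        exact ⟨congrArg (fun γ : Fin 3 →₀ ℕ => γ 0) h, congrArg (fun γ : Fin 3 →₀ ℕ => γ 1) h⟩
      · rintro ⟨h3, h4⟩
        symm
        rw [e3_eq]
        exact ⟨h3.symm, h4.symm, h2⟩
    · rw [if_neg h2, if_neg]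
      rw [eq_comm, e3_eq]
      omega
  | add p q hp hq =>
    rw [map_add, coeff_add, hp, hq, coeff_add]
    split_ifs
    · rfl
    · rw [add_zero]

theorem coeff_X2_pow_mul (u : ℕ) (G : R3) (i j k : ℕ) :
    coeff (e3 i j (k + u)) (X 2 ^ u * G) = coeff (e3 i j k) G := by
  rw [X_pow_eq_monomial, coeff_monomial_mul', if_pos, one_mul]
  · congr 1
    rw [e3_eq]
    refine ⟨?_, ?_, ?_⟩
    · simp [e3]
    · simp [e3]
    · simp [e3]
  · rw [Finsupp.single_le_iff]
    simp [e3]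

/-- the part of degree `u` in `z` -/
theorem coeff_top (u : ℕ) (G : R3) (α : Fin 3 →₀ ℕ) :
    coeff α (X 2 ^ u * emb (res G)) = if α 2 = u then coeff α (X 2 ^ u * G) else 0 := by
  have hα : α = e3 (α 0) (α 1) (α 2) := e3_eq.mpr ⟨rfl, rfl, rfl⟩
  by_cases h : u ≤ α 2
  · obtain ⟨k, hk⟩ : ∃ k, α 2 = k + u := ⟨α 2 - u, by omega⟩
    rw [hα, hk, coeff_X2_pow_mul, coeff_X2_pow_mul, coeff_emb]
    have h0 : (e3 (α 0) (α 1) k) 0 = α 0 := rfl
    have h1 : (e3 (α 0) (α 1) k) 1 = α 1 := rfl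
    have h2 : (e3 (α 0) (α 1) k) 2 = k := rfl
    have h3 : (e3 (α 0) (α 1) (k + u)) 2 = k + u := rfl
    rw [h0, h1, h2, h3, coeff_res]
    by_cases hk0 : k = 0
    · subst hk0
      rw [if_pos rfl, if_pos (by omega)]
    · rw [if_neg hk0, if_neg (by omega)]
  · rw [if_neg (by omega)]
    by_contra hne
    exact h (le_of_X2_pow_mul hne)

end Pool.Agent.Work.MP_0421d9_ag.SM
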