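import Pool.Agent.Work.MP_0421d9_ag.SM0

/-!
Algebraically independent families: exchange, extension, derivations.
-/

set_option linter.unusedSectionVars false

namespace Pool.Agent.Work.MP_0421d9_ag.SM

open MvPolynomial Module

/-- exchange: a finite family of the same length which generates an algebraically independent
family (up to algebraic elements) is algebraically independent -/
theorem algInd_exchange {σ : Type} [Finite σ] {y y' : σ → ℂ} (h : AlgebraicIndependent ℚ y)
    (hy : ∀ s, IsAlgebraic (Algebra.adjoin ℚ (Set.range y')) (y s)) :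
    AlgebraicIndependent ℚ y' := by
  classical
  let M : Matroid ℂ := AlgebraicIndependent.matroid ℚ ℂ
  have h1 : M.Indep (Set.range y) := by
    rw [AlgebraicIndependent.matroid_indep_iff]
    exact h.to_subtype_range
  have h2 : Set.range y ⊆ M.closure (Set.range y') := by
    rw [AlgebraicIndependent.matroid_closure_eq]
    rintro _ ⟨s, rfl⟩
    exact hy s
  have h3 : (Set.range y).encard ≤ M.eRk (Set.range y') := by
    rw [← h1.eRk_eq_encard, ← M.eRk_closure_eq (Set.range y')]
    exact M.eRk_mono h2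
  have h4 : (Set.range y).encard = ENat.card σ := by
    rw [← Set.image_univ, h.injective.encard_image, Set.encard_univ]
  have h5 : (Set.range y').encard ≤ ENat.card σ := by
    rw [← Set.image_univ, ← Set.encard_univ]
    exact Set.encard_image_le _ _
  have h6 : M.eRk (Set.range y') ≤ (Set.range y').encard := M.eRk_le_encard _
  have h7 : (Set.range y').encard = ENat.card σ := le_antisymm h5 (by rw [← h4]; exact h3.trans h6)
  have h8 : M.Indep (Set.range y') := by
    rw [Matroid.indep_iff_eRk_eq_encard_of_finite (Set.finite_range _)]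
    exact le_antisymm h6 (by rw [h7, ← h4]; exact h3)
  have hinj : Function.Injective y' := by
    have h9 : (y' '' Set.univ).encard = (Set.univ : Set σ).encard := by
      rw [Set.image_univ, h7, Set.encard_univ]
    have := (Set.finite_univ (α := σ)).injOn_of_encard_image_eq h9
    exact Set.injOn_univ.mp this
  rw [AlgebraicIndependent.matroid_indep_iff] at h8
  exact AlgebraicIndependent.of_subtype_range hinj h8

theorem algInd_div {ι κ : Type} [Finite ι] [Finite κ] (x : ι → ℂ) (z : κ → ℂ) (τ : ℂ)
    (h : AlgebraicIndependent ℚ (Sum.elim (Sum.elim x z) (fun _ : Unit => τ))) :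
    AlgebraicIndependent ℚ (Sum.elim (Sum.elim x (fun j => z j / τ)) (fun _ : Unit => τ)) := by
  have hτ : τ ≠ 0 := h.ne_zero (Sum.inr ())
  apply algInd_exchange h
  set S := Algebra.adjoin ℚ
    (Set.range (Sum.elim (Sum.elim x (fun j => z j / τ)) (fun _ : Unit => τ))) with hS
  have hmem : ∀ a ∈ S, IsAlgebraic S a := fun a ha => isAlgebraic_algebraMap (⟨a, ha⟩ : S)
  have hgen : ∀ s, Sum.elim (Sum.elim x (fun j => z j / τ)) (fun _ : Unit => τ) s ∈ S :=
    fun s => Algebra.subset_adjoin ⟨s, rfl⟩
  have hτS : τ ∈ S := hgen (Sum.inr ())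
  rintro ((i | j) | u)
  · exact hmem _ (hgen (Sum.inl (Sum.inl i)))
  · have h1 : z j / τ ∈ S := hgen (Sum.inl (Sum.inr j))
    have h2 : z j = z j / τ * τ := by field_simp
    apply hmem
    change z j ∈ S
    rw [h2]
    exact mul_mem h1 hτS
  · exact hmem _ hτS

/-- extension of finite algebraically independent families of complex numbers -/
theorem algInd_extend {α β : Type} [Finite α] [Finite β] {y : α → ℂ}
    (hy : AlgebraicIndependent ℚ y) : ∃ w : β → ℂ, AlgebraicIndependent ℚ (Sum.elim y w) := by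
  classical
  obtain ⟨t, ht, ht'⟩ := exists_isTranscendenceBasis_superset hy.coe_range
  have hcard : Cardinal.mk ℂ = Cardinal.mk t :=
    IsAlgClosed.cardinal_eq_cardinal_transcendence_basis_of_aleph0_lt' _ ht'
      Cardinal.mk_le_aleph0 (by rw [Cardinal.mk_complex]; exact Cardinal.aleph0_lt_continuum)
  have hinf : t.Infinite := by
    rw [← Set.infinite_coe_iff, Cardinal.infinite_iff, ← hcard, Cardinal.mk_complex]
    exact Cardinal.aleph0_le_continuum
  have hinf' : (t \ Set.range y).Infinite := hinf.sdiff (Set.finite_range _)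
  obtain ⟨f, hf, hfinj⟩ : ∃ f : β → ℂ, (∀ z, f z ∈ t ∧ f z ∉ Set.range y) ∧
      Function.Injective f := by
    obtain ⟨n, ⟨e⟩⟩ := Finite.exists_equiv_fin β
    refine ⟨fun z => (hinf'.natEmbedding _ (e z)).1, fun z => (hinf'.natEmbedding _ (e z)).2, ?_⟩
    intro z z' h
    have h1 := Subtype.ext h
    have h2 := (hinf'.natEmbedding _).injective h1
    exact e.injective (Fin.ext h2)
  refine ⟨f, ?_⟩
  have hmem : ∀ z : α ⊕ β, Sum.elim y f z ∈ t := by
    rintro (i | k)
    · exact ht ⟨i, rfl⟩
    · exact (hf k).1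
  have hinj : ∀ z z' : α ⊕ β, Sum.elim y f z = Sum.elim y f z' → z = z' := by
    rintro (i | k) (i' | k') h
    · exact congrArg Sum.inl (hy.injective h)
    · exact absurd ⟨i, h⟩ (hf k').2
    · exact absurd ⟨i', h.symm⟩ (hf k).2
    · exact congrArg Sum.inr (hfinj h)
  exact ht'.1.comp (fun z : α ⊕ β => (⟨Sum.elim y f z, hmem z⟩ : t))
    (fun z z' h => hinj z z' (congrArg Subtype.val h))

/-- extension of independent families -/
theorem Ind.extend {ι κ κ' : Type} [Finite ι] [Finite κ] [Finite κ'] {p : ι → V3} {w : κ → ℂ}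
    (h : Ind p w) : ∃ w' : κ' → ℂ, Ind p (Sum.elim w w') := by
  obtain ⟨w', hw'⟩ := algInd_extend (β := κ') h
  refine ⟨w', ?_⟩
  have h1 := hw'.comp (Equiv.sumAssoc (ι × Fin 3) κ κ').symm (Equiv.injective _)
  have h2 : Sum.elim (Sum.elim (fun z : ι × Fin 3 => p z.1 z.2) w) w' ∘
      (Equiv.sumAssoc (ι × Fin 3) κ κ').symm =
      Sum.elim (fun z : ι × Fin 3 => p z.1 z.2) (Sum.elim w w') := by
    funext s
    rcases s with z | k | k' <;> rfl
  rw [h2] at h1
  exact h1

/-- derivations -/
theorem Ind.derivation {ι κ : Type} {p : ι → V3} {w : κ → ℂ} (h : Ind p w) (c : κ → ℂ) :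
    ∃ D : Derivation ℚ ℂ ℂ, (∀ i k, D (p i k) = 0) ∧ ∀ k, D (w k) = c k := by
  obtain ⟨D, hD⟩ := exists_derivation _ h (Sum.elim (fun _ => 0) c)
  exact ⟨D, fun i k => hD (Sum.inl (i, k)), fun k => hD (Sum.inr k)⟩

end Pool.Agent.Work.MP_0421d9_ag.SM
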