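import Pool.Agent.Work.MP_0421d9_ag.SRes

/-!
Flags on the line `z = 0`: the chain argument.
-/

set_option linter.unusedSectionVars false
set_option linter.unusedVariables false

namespace Pool.Agent.Work.MP_0421d9_ag.SM

open MvPolynomial Module

theorem cD_pderiv_iterate (D : Derivation ℚ ℂ ℂ) (k : Fin 3) (i : ℕ) (H : R3) :
    cD D ((pderiv k)^[i] H) = (pderiv k)^[i] (cD D H) := by
  induction i generalizing H with
  | zero => rfl
  | succ i ih => rw [Function.iterate_succ_apply, ih, cD_pderiv, Function.iterate_succ_apply]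

theorem D_fder (D : Derivation ℚ ℂ ℂ) (c : ℂ) (i : ℕ) (H : R3) :
    D (fder c i H) = fder c i (cD D H) + D c * fder c (i + 1) H := by
  unfold fder
  rw [D_eval, cD_pderiv_iterate, Fin.sum_univ_three, Function.iterate_succ_apply']
  simp [fl]

theorem fder_add (c : ℂ) (i : ℕ) (H H' : R3) : fder c i (H + H') = fder c i H + fder c i H' := by
  unfold fder
  rw [iterate_map_add, map_add]

theorem pderiv_iterate_smul (k : Fin 3) (i : ℕ) (a : ℂ) (H : R3) :
    (pderiv k)^[i] (a • H) = a • (pderiv k)^[i] H := by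
  induction i generalizing H with
  | zero => rfl
  | succ i ih => rw [Function.iterate_succ_apply, Derivation.map_smul, ih,
      Function.iterate_succ_apply]

theorem fder_smul (c : ℂ) (i : ℕ) (a : ℂ) (H : R3) : fder c i (a • H) = a * fder c i H := by
  unfold fder
  rw [pderiv_iterate_smul, smul_eval]

/-- the functional `fder c i` -/
noncomputable def fderL (c : ℂ) (i : ℕ) : R3 →ₗ[ℂ] ℂ where
  toFun := fder c i
  map_add' := fder_add c i
  map_smul' a H := fder_smul c i a H

@[simp] theorem fderL_apply (c : ℂ) (i : ℕ) (H : R3) : fderL c i H = fder c i H := rfl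

/-- contact orders along the line -/
noncomputable def FV {a : ℕ} (V : Submodule ℂ R3) (g : Fin a → ℂ) (c : Fin a → ℕ) :
    Submodule ℂ R3 where
  carrier := {H | H ∈ V ∧ ∀ j, ∀ i < c j, fder (g j) i H = 0}
  zero_mem' := ⟨zero_mem _, fun j i _ => by simp [fder]⟩
  add_mem' := fun {x y} hx hy => ⟨add_mem hx.1 hy.1, fun j i h => by
    rw [fder_add, hx.2 j i h, hy.2 j i h, add_zero]⟩
  smul_mem' := fun r x hx => ⟨Submodule.smul_mem _ _ hx.1, fun j i h => by
    rw [fder_smul, hx.2 j i h, mul_zero]⟩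

theorem mem_FV {a : ℕ} {V : Submodule ℂ R3} {g : Fin a → ℂ} {c : Fin a → ℕ} {H : R3} :
    H ∈ FV V g c ↔ H ∈ V ∧ ∀ j, ∀ i < c j, fder (g j) i H = 0 := Iff.rfl

theorem FV_le {a : ℕ} (V : Submodule ℂ R3) (g : Fin a → ℂ) (c : Fin a → ℕ) : FV V g c ≤ V :=
  fun _ h => h.1

theorem finite_of_le_Rd {n : ℕ} {V : Submodule ℂ R3} (hV : V ≤ Rd n) : Module.Finite ℂ V :=
  Submodule.finiteDimensional_of_le hV

/-- a form of degree `n` all of whose derivatives along the line at a point vanish restricts
to zero -/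
theorem res_eq_zero_of_fder {n : ℕ} {H : R3} (hH : H ∈ Rd n) {c : ℂ} (h : ∀ i, fder c i H = 0) :
    res H = 0 := by
  apply eq_zero_of_deh (n := n) (res_hom hH)
  by_contra hne
  have h1 := (fder_eq_zero_iff c ((deh (res H)).natDegree + 1) H).mp (fun i _ => h i)
  have h2 := Polynomial.natDegree_le_of_dvd h1 hne
  rw [Polynomial.natDegree_pow, Polynomial.natDegree_X_sub_C] at h2
  omega

theorem finrank_FV_aux {a n : ℕ} {V : Submodule ℂ R3} (hV : V ≤ Rd n) {g : Fin a → ℂ}
    {D : Fin a → Derivation ℚ ℂ ℂ} (hD : ∀ j k, D j (g k) = if j = k then 1 else 0)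
    (hst : ∀ j, ∀ H ∈ V, cD (D j) H ∈ V) (hinj : ∀ H ∈ V, res H = 0 → H = 0) (N : ℕ) :
    ∀ c : Fin a → ℕ, ∑ j, c j = N → finrank ℂ (FV V g c) = finrank ℂ V - N := by
  classical
  have hfin := finite_of_le_Rd hV
  induction N with
  | zero =>
    intro c hc
    have hc0 : ∀ j, c j = 0 := fun j => by
      have := Finset.sum_eq_zero_iff.mp hc j (Finset.mem_univ j)
      exact this
    have h1 : FV V g c = V := by
      apply le_antisymm (FV_le V g c)
      intro H hH
      refine ⟨hH, fun j i hi => ?_⟩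
      rw [hc0 j] at hi
      exact absurd hi (Nat.not_lt_zero i)
    rw [h1, Nat.sub_zero]
  | succ N ih =>
    intro c hc
    obtain ⟨j, hj⟩ : ∃ j, 0 < c j := by
      by_contra hcon
      push Not at hcon
      have : ∑ j, c j = 0 := Finset.sum_eq_zero (fun j _ => Nat.le_zero.mp (hcon j))
      omega
    set c' : Fin a → ℕ := Function.update c j (c j - 1) with hc'
    have hc'j : c' j = c j - 1 := by rw [hc', Function.update_self]
    have hc'k : ∀ k, k ≠ j → c' k = c k := fun k hk => by
      rw [hc', Function.update_of_ne hk]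
    have hsum : ∑ k, c' k = N := by
      have h1 : ∑ k, c k = c j + ∑ k ∈ Finset.univ.erase j, c k :=
        (Finset.add_sum_erase _ _ (Finset.mem_univ j)).symm
      have h2 : ∑ k, c' k = c' j + ∑ k ∈ Finset.univ.erase j, c' k :=
        (Finset.add_sum_erase _ _ (Finset.mem_univ j)).symm
      have h3 : ∑ k ∈ Finset.univ.erase j, c' k = ∑ k ∈ Finset.univ.erase j, c k :=
        Finset.sum_congr rfl (fun k hk => hc'k k (Finset.ne_of_mem_erase hk))
      rw [hc'j, h3] at h2
      omega
    have hW := ih c' hsum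
    set W := FV V g c' with hWdef
    have hWle : W ≤ V := FV_le V g c'
    have hfinW : Module.Finite ℂ W := Submodule.finiteDimensional_of_le hWle
    have hW' : FV V g c = W ⊓ LinearMap.ker (fderL (g j) (c' j)) := by
      ext H
      constructor
      · rintro ⟨h1, h2⟩
        refine ⟨⟨h1, fun k i hi => ?_⟩, ?_⟩
        · by_cases hk : k = j
          · subst hk
            exact h2 k i (by omega)
          · rw [hc'k k hk] at hi
            exact h2 k i hi
        · exact LinearMap.mem_ker.mpr (h2 j _ (by omega))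
      · rintro ⟨⟨h1, h2⟩, h3⟩
        rw [SetLike.mem_coe, LinearMap.mem_ker, fderL_apply] at h3
        refine ⟨h1, fun k i hi => ?_⟩
        by_cases hk : k = j
        · subst hk
          by_cases hi' : i = c' k
          · rw [hi']
            exact h3
          · exact h2 k i (by omega)
        · apply h2 k i
          rw [hc'k k hk]
          exact hi
    rw [hW']
    by_cases hvan : ∀ H ∈ W, fder (g j) (c' j) H = 0
    · -- the functional vanishes on `W`: then `W = 0`
      have hstW : ∀ H ∈ W, cD (D j) H ∈ W := by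
        intro H hH
        refine ⟨hst j H hH.1, fun k i hi => ?_⟩
        have h1 := D_fder (D j) (g k) i H
        rw [hH.2 k i hi, map_zero, hD] at h1
        by_cases hk : j = k
        · subst hk
          rw [if_pos rfl, one_mul] at h1
          have h2 : fder (g j) (i + 1) H = 0 := by
            by_cases hi' : i + 1 = c' j
            · rw [hi']
              exact hvan H hH
            · exact hH.2 j (i + 1) (by omega)
          rw [h2, add_zero] at h1
          exact h1.symm
        · rw [if_neg hk, zero_mul, add_zero] at h1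
          exact h1.symm
      have hall : ∀ i, ∀ H ∈ W, fder (g j) i H = 0 := by
        intro i
        induction i with
        | zero =>
          intro H hH
          by_cases h0 : c' j = 0
          · rw [← h0]
            exact hvan H hH
          · exact hH.2 j 0 (by omega)
        | succ i ihi =>
          intro H hH
          have h1 := D_fder (D j) (g j) i H
          rw [ihi H hH, map_zero, ihi _ (hstW H hH), hD, if_pos rfl, one_mul, zero_add] at h1
          exact h1.symm
      have hbot : W = ⊥ := by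
        rw [eq_bot_iff]
        intro H hH
        rw [Submodule.mem_bot]
        exact hinj H hH.1 (res_eq_zero_of_fder (hV hH.1) (fun i => hall i H hH))
      rw [hbot, bot_inf_eq, finrank_bot]
      rw [hbot, finrank_bot] at hW
      omega
    · push Not at hvan
      obtain ⟨f, hf, hfne⟩ := hvan
      set L : W →ₗ[ℂ] ℂ := (fderL (g j) (c' j)).domRestrict W with hL
      have h1 := LinearMap.finrank_range_add_finrank_ker L
      have h2 : LinearMap.range L = ⊤ := by
        apply LinearMap.range_eq_top.mpr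
        intro r
        refine ⟨(r / fder (g j) (c' j) f) • ⟨f, hf⟩, ?_⟩
        rw [map_smul, hL]
        change _ • fder (g j) (c' j) f = r
        rw [smul_eq_mul, div_mul_cancel₀ _ hfne]
      have h3 : finrank ℂ (LinearMap.ker L) =
          finrank ℂ ↥(W ⊓ LinearMap.ker (fderL (g j) (c' j))) := by
        have h4 : LinearMap.ker L = (W ⊓ LinearMap.ker (fderL (g j) (c' j))).comap W.subtype := by
          ext x
          simp [hL]
        rw [h4]
        exact (Submodule.comapSubtypeEquivOfLe inf_le_left).finrank_eq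
      rw [h2, finrank_top, Module.finrank_self, h3] at h1
      omega

theorem finrank_FV {a n : ℕ} {V : Submodule ℂ R3} (hV : V ≤ Rd n) {g : Fin a → ℂ}
    {D : Fin a → Derivation ℚ ℂ ℂ} (hD : ∀ j k, D j (g k) = if j = k then 1 else 0)
    (hst : ∀ j, ∀ H ∈ V, cD (D j) H ∈ V) (hinj : ∀ H ∈ V, res H = 0 → H = 0) (c : Fin a → ℕ) :
    finrank ℂ (FV V g c) = finrank ℂ V - ∑ j, c j :=
  finrank_FV_aux hV hD hst hinj _ c rfl

section chain

variable {a n u : ℕ} {V : Submodule ℂ R3} {g : Fin a → ℂ} {D : Fin a → Derivation ℚ ℂ ℂ} {F : R3}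

/-- data: `V` of dimension `u a + 1`, `F` its member with contact order `u` at all `g j` -/
structure Flags (n u : ℕ) (V : Submodule ℂ R3) (g : Fin a → ℂ) (D : Fin a → Derivation ℚ ℂ ℂ)
    (F : R3) : Prop where
  hV : V ≤ Rd n
  hu : 1 ≤ u
  hD : ∀ j k, D j (g k) = if j = k then 1 else 0
  hst : ∀ j, ∀ H ∈ V, cD (D j) H ∈ V
  hinj : ∀ H ∈ V, res H = 0 → H = 0
  hdim : finrank ℂ V = u * a + 1
  hF : F ∈ V
  hF0 : F ≠ 0
  hord : ∀ j, ∀ i < u, fder (g j) i F = 0

theorem Flags.finrank_one (S : Flags n u V g D F) : finrank ℂ (FV V g (fun _ => u)) = 1 := by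
  rw [finrank_FV S.hV S.hD S.hst S.hinj, S.hdim, Finset.sum_const, Finset.card_univ,
    Fintype.card_fin, smul_eq_mul, mul_comm a u]
  omega

theorem Flags.unique (S : Flags n u V g D F) {F' : R3} (h : F' ∈ V)
    (h' : ∀ j, ∀ i < u, fder (g j) i F' = 0) : ∃ c : ℂ, F' = C c * F := by
  have h1 := S.finrank_one
  have hFm : F ∈ FV V g (fun _ => u) := ⟨S.hF, S.hord⟩
  have hne : (⟨F, hFm⟩ : FV V g (fun _ => u)) ≠ 0 := by
    intro h0
    exact S.hF0 (congrArg Subtype.val h0)
  obtain ⟨c, hc⟩ := (finrank_eq_one_iff_of_nonzero' _ hne).mp h1 ⟨F', ⟨h, h'⟩⟩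
  refine ⟨c, ?_⟩
  have h2 := congrArg Subtype.val hc
  change c • F = F' at h2
  rw [← h2, smul_eq_C_mul]

theorem Flags.exact (S : Flags n u V g D F) (j : Fin a) : fder (g j) u F ≠ 0 := by
  classical
  intro h0
  set c : Fin a → ℕ := Function.update (fun _ => u) j (u + 1) with hc
  have hsum : ∑ k, c k = u * a + 1 := by
    have h1 : ∑ k, c k = c j + ∑ k ∈ Finset.univ.erase j, c k :=
      (Finset.add_sum_erase _ _ (Finset.mem_univ j)).symm
    have h3 : ∑ k ∈ Finset.univ.erase j, c k = ∑ k ∈ Finset.univ.erase j, u :=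
      Finset.sum_congr rfl (fun k hk => by
        rw [hc, Function.update_of_ne (Finset.ne_of_mem_erase hk)])
    have h4 : c j = u + 1 := by rw [hc, Function.update_self]
    have h5 : ∑ _k : Fin a, u = u + ∑ k ∈ Finset.univ.erase j, u :=
      (Finset.add_sum_erase Finset.univ (fun _ : Fin a => u) (Finset.mem_univ j)).symm
    rw [Finset.sum_const, Finset.card_univ, Fintype.card_fin, smul_eq_mul] at h5
    rw [h1, h3, h4, mul_comm u a, h5]
    ring
  have h1 := finrank_FV S.hV S.hD S.hst S.hinj c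
  rw [hsum, S.hdim, Nat.sub_self] at h1
  have hfin := finite_of_le_Rd S.hV
  have hfin' : Module.Finite ℂ (FV V g c) := Submodule.finiteDimensional_of_le (FV_le V g c)
  have hbot : FV V g c = ⊥ := Submodule.finrank_eq_zero.mp h1
  have hFm : F ∈ FV V g c := by
    refine ⟨S.hF, fun k i hi => ?_⟩
    by_cases hk : k = j
    · subst hk
      rw [hc, Function.update_self] at hi
      by_cases hi' : i = u
      · rw [hi']
        exact h0
      · exact S.hord k i (by omega)
    · rw [hc, Function.update_of_ne hk] at hi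
      exact S.hord k i hi
  rw [hbot, Submodule.mem_bot] at hFm
  exact S.hF0 hFm

/-- derivatives of the functionals at `F` -/
theorem Flags.fder_cD (S : Flags n u V g D F) (j k : Fin a) {i : ℕ} (hi : i < u) :
    fder (g k) i (cD (D j) F) = if j = k ∧ i + 1 = u then - fder (g j) u F else 0 := by
  have h1 := D_fder (D j) (g k) i F
  rw [S.hord k i hi, map_zero, S.hD] at h1
  by_cases hk : j = k
  · subst hk
    rw [if_pos rfl, one_mul] at h1
    by_cases hi' : i + 1 = u
    · rw [if_pos ⟨rfl, hi'⟩]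
      rw [hi'] at h1
      linear_combination -h1
    · rw [if_neg (fun h => hi' h.2)]
      rw [S.hord j (i + 1) (by omega), add_zero] at h1
      exact h1.symm
  · rw [if_neg (fun h => hk h.1)]
    rw [if_neg hk, zero_mul, add_zero] at h1
    exact h1.symm

/-- functionals killing `F` and its derivatives -/
theorem Flags.repr (S : Flags n u V g D F) (ξ : R3 →ₗ[ℂ] ℂ) (h0 : ξ F = 0)
    (J : Finset (Fin a)) (hJ : ∀ j ∈ J, ξ (cD (D j) F) = 0) :
    ∃ c : Fin a → ℕ → ℂ, (∀ H ∈ V, ξ H = ∑ j, ∑ i ∈ Finset.range u, c j i * fder (g j) i H) ∧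
      ∀ j ∈ J, c j (u - 1) = 0 := by
  classical
  set L : Fin a × Fin u → (V →ₗ[ℂ] ℂ) := fun x => (fderL (g x.1) x.2).domRestrict V with hL
  have hker : ⨅ x, LinearMap.ker (L x) ≤ LinearMap.ker (ξ.domRestrict V) := by
    intro x hx
    rw [Submodule.mem_iInf] at hx
    obtain ⟨c, hc⟩ := S.unique (F' := (x : R3)) x.2 (fun j i hi => hx (j, ⟨i, hi⟩))
    rw [LinearMap.mem_ker, LinearMap.domRestrict_apply, hc, ← smul_eq_C_mul, map_smul, h0,
      smul_zero]
  have h1 := mem_span_of_iInf_ker_le_ker hker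
  obtain ⟨c', hc'⟩ := (Submodule.mem_span_range_iff_exists_fun ℂ).mp h1
  have hrep : ∀ H ∈ V, ξ H = ∑ j, ∑ i ∈ Finset.range u,
      (if h : i < u then c' (j, ⟨i, h⟩) else 0) * fder (g j) i H := by
    intro H hH
    have h2 := LinearMap.congr_fun hc' ⟨H, hH⟩
    rw [LinearMap.domRestrict_apply] at h2
    rw [← h2, LinearMap.sum_apply, Fintype.sum_prod_type]
    refine Finset.sum_congr rfl (fun j _ => ?_)
    rw [Finset.sum_range]
    refine Finset.sum_congr rfl (fun i _ => ?_)
    rw [dif_pos i.2]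
    rfl
  refine ⟨fun j i => if h : i < u then c' (j, ⟨i, h⟩) else 0, hrep, fun j hj => ?_⟩
  have hu := S.hu
  have h2 := hrep _ (S.hst j F S.hF)
  rw [hJ j hj] at h2
  have h3 : ∑ k, ∑ i ∈ Finset.range u,
      (if h : i < u then c' (k, ⟨i, h⟩) else 0) * fder (g k) i (cD (D j) F) =
      (if h : u - 1 < u then c' (j, ⟨u - 1, h⟩) else 0) * (- fder (g j) u F) := by
    rw [Finset.sum_eq_single j]
    · rw [Finset.sum_eq_single (u - 1)]
      · rw [S.fder_cD j j (by omega), if_pos ⟨rfl, by omega⟩]
      · intro i hi hi'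
        rw [S.fder_cD j j (Finset.mem_range.mp hi), if_neg (fun h => hi' (by omega)), mul_zero]
      · intro h
        exact absurd (Finset.mem_range.mpr (by omega)) h
    · intro k _ hk
      apply Finset.sum_eq_zero
      intro i hi
      rw [S.fder_cD j k (Finset.mem_range.mp hi), if_neg (fun h => hk h.1.symm), mul_zero]
    · intro h
      exact absurd (Finset.mem_univ j) h
  rw [h3] at h2
  rcases mul_eq_zero.mp h2.symm with h4 | h4
  · exact h4
  · exact absurd (neg_eq_zero.mp h4) (S.exact j)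

/-- the functionals `fder (g j) i`, `i < u`, are independent on `V` -/
theorem Flags.indep (S : Flags n u V g D F) (d : Fin a → ℕ → ℂ)
    (h : ∀ H ∈ V, ∑ j, ∑ i ∈ Finset.range u, d j i * fder (g j) i H = 0) :
    ∀ j, ∀ i < u, d j i = 0 := by
  classical
  have hfin := finite_of_le_Rd S.hV
  set L : V →ₗ[ℂ] (Fin a × Fin u → ℂ) :=
    LinearMap.pi (fun x => (fderL (g x.1) x.2).domRestrict V) with hL
  have hLa : ∀ (H : V) (x : Fin a × Fin u), L H x = fder (g x.1) x.2 (H : R3) := fun H x => rfl
  have h1 := LinearMap.finrank_range_add_finrank_ker L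
  have h2 : finrank ℂ (LinearMap.ker L) = 1 := by
    have h4 : LinearMap.ker L = (FV V g (fun _ => u)).comap V.subtype := by
      ext x
      rw [LinearMap.mem_ker, Submodule.mem_comap, Submodule.subtype_apply, mem_FV]
      constructor
      · intro h5
        refine ⟨x.2, fun j i hi => ?_⟩
        rw [← hLa x (j, ⟨i, hi⟩), h5]
        rfl
      · rintro ⟨-, h5⟩
        ext y
        rw [hLa]
        exact h5 y.1 y.2 y.2.2
    rw [h4]
    exact (Submodule.comapSubtypeEquivOfLe (FV_le V g _)).finrank_eq.trans S.finrank_one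
  have h3 : LinearMap.range L = ⊤ := by
    apply Submodule.eq_top_of_finrank_eq
    rw [Module.finrank_fintype_fun_eq_card, Fintype.card_prod, Fintype.card_fin, Fintype.card_fin]
    rw [h2, S.hdim] at h1
    rw [mul_comm a u]
    omega
  intro j i hi
  obtain ⟨H, hH⟩ := LinearMap.range_eq_top.mp h3 (Pi.single (j, ⟨i, hi⟩) 1)
  have h4 := h H H.2
  rw [Finset.sum_eq_single j] at h4
  · rw [Finset.sum_eq_single i] at h4
    · have h5 := hLa H (j, ⟨i, hi⟩)
      rw [hH, Pi.single_eq_same] at h5
      rw [← h5, mul_one] at h4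
      exact h4
    · intro i' hi' hne
      have h5 := hLa H (j, ⟨i', Finset.mem_range.mp hi'⟩)
      rw [hH, Pi.single_eq_of_ne (fun h6 => hne (by
        have h7 := (Prod.mk.inj h6).2
        exact congrArg Fin.val h7))] at h5
      rw [← h5, mul_zero]
    · intro h5
      exact absurd (Finset.mem_range.mpr hi) h5
  · intro k _ hk
    apply Finset.sum_eq_zero
    intro i' hi'
    have h5 := hLa H (k, ⟨i', Finset.mem_range.mp hi'⟩)
    rw [hH, Pi.single_eq_of_ne (fun h6 => hk (Prod.mk.inj h6).1)] at h5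
    rw [← h5, mul_zero]
  · intro h5
    exact absurd (Finset.mem_univ j) h5

/-- the value of a combination of the derivations at a coordinate -/
theorem comb_apply (hD : ∀ j k, D j (g k) = if j = k then 1 else 0) (α : Fin a → ℂ) (k : Fin a) :
    (∑ j, α j • D j) (g k) = α k := by
  classical
  have h1 := cD_sum_left (σ := Fin 3) Finset.univ (fun j => α j • D j) (C (g k))
  rw [cD_C] at h1
  have h2 : ∀ j ∈ Finset.univ, cD (α j • D j) (C (g k) : R3) =
      C (α j * if j = k then 1 else 0) := by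
    intro j _
    rw [cD_smul_left, cD_C, hD, smul_eq_C_mul, ← C_mul]
  rw [Finset.sum_congr rfl h2, ← map_sum] at h1
  rw [C_injective _ _ h1]
  simp

theorem Flags.comb_mem (S : Flags n u V g D F) (α : Fin a → ℂ) {H : R3} (hH : H ∈ V) :
    cD (∑ j, α j • D j) H ∈ V := by
  rw [cD_sum_left]
  apply Submodule.sum_mem
  intro j _
  rw [cD_smul_left]
  exact Submodule.smul_mem _ _ (S.hst j H hH)

/-- the chain lemma -/
theorem Flags.kill (S : Flags n u V g D F) (ξ : R3 →ₗ[ℂ] ℂ) {c : Fin a → ℕ → ℂ}
    (hc : ∀ H ∈ V, ξ H = ∑ j, ∑ i ∈ Finset.range u, c j i * fder (g j) i H)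
    (α : Fin a → ℂ) (κ : ℂ)
    (hE : ∀ H ∈ V, (∑ j, α j • D j) (ξ H) = ξ (cD (∑ j, α j • D j) H) + κ * ξ H)
    (htop : ∀ j, α j ≠ 0 → c j (u - 1) = 0) : ∀ j, α j ≠ 0 → ∀ i < u, c j i = 0 := by
  classical
  have hu := S.hu
  set E : Derivation ℚ ℂ ℂ := ∑ j, α j • D j with hEdef
  have hEg : ∀ k, E (g k) = α k := fun k => comb_apply S.hD α k
  have key : ∀ H ∈ V, ∑ j, ∑ i ∈ Finset.range u,
      (E (c j i) - κ * c j i + α j * (if i = 0 then 0 else c j (i - 1))) * fder (g j) i H = 0 := by
    intro H hH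
    have h1 := hE H hH
    rw [hc H hH, hc _ (S.comb_mem α hH), map_sum, Finset.mul_sum, ← Finset.sum_add_distrib] at h1
    rw [← sub_eq_zero, ← Finset.sum_sub_distrib] at h1
    refine Eq.trans ?_ h1
    refine Finset.sum_congr rfl (fun j _ => ?_)
    rw [map_sum, Finset.mul_sum, ← Finset.sum_add_distrib, ← Finset.sum_sub_distrib]
    have h2 : ∀ i ∈ Finset.range u, E (c j i * fder (g j) i H) -
        (c j i * fder (g j) i (cD E H) + κ * (c j i * fder (g j) i H)) =
        (E (c j i) - κ * c j i) * fder (g j) i H + α j * (c j i * fder (g j) (i + 1) H) := by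
      intro i _
      rw [Derivation.leibniz, D_fder, hEg, smul_eq_mul, smul_eq_mul]
      ring
    rw [Finset.sum_congr rfl h2, Finset.sum_add_distrib]
    have h3 : ∀ i ∈ Finset.range u,
        (E (c j i) - κ * c j i + α j * (if i = 0 then 0 else c j (i - 1))) * fder (g j) i H =
        (E (c j i) - κ * c j i) * fder (g j) i H +
          α j * ((if i = 0 then 0 else c j (i - 1)) * fder (g j) i H) := fun i _ => by ring
    rw [Finset.sum_congr rfl h3, Finset.sum_add_distrib]
    congr 1
    rw [← Finset.mul_sum, ← Finset.mul_sum]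
    obtain ⟨w, rfl⟩ : ∃ w, u = w + 1 := ⟨u - 1, by omega⟩
    rw [Finset.sum_range_succ', Finset.sum_range_succ, mul_add, mul_add]
    simp only [Nat.add_sub_cancel, Nat.succ_ne_zero, if_false, if_true, zero_mul, mul_zero,
      add_zero]
    by_cases hα : α j = 0
    · rw [hα]
      ring
    · have h4 := htop j hα
      rw [Nat.add_sub_cancel] at h4
      rw [h4, zero_mul, mul_zero, add_zero]
  have hz := S.indep _ key
  intro j hα
  have hdown : ∀ m < u, c j (u - 1 - m) = 0 := by
    intro m
    induction m with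
    | zero =>
      intro _
      rw [Nat.sub_zero]
      exact htop j hα
    | succ m ih =>
      intro hm
      have h1 := ih (by omega)
      have h2 := hz j (u - 1 - m) (by omega)
      rw [h1, map_zero, mul_zero, sub_zero, zero_add, if_neg (by omega)] at h2
      rcases mul_eq_zero.mp h2 with h3 | h3
      · exact absurd h3 hα
      · rwa [(by omega : u - 1 - m - 1 = u - 1 - (m + 1))] at h3
  intro i hi
  have h1 := hdown (u - 1 - i) (by omega)
  rwa [(by omega : u - 1 - (u - 1 - i) = i)] at h1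

/-- conclusion for functionals which are fixed by all derivations but one -/
theorem Flags.one (S : Flags n u V g D F) (ξ : R3 →ₗ[ℂ] ℂ) (h0 : ξ F = 0) (j₀ : Fin a)
    (h1 : ∀ j, j ≠ j₀ → ξ (cD (D j) F) = 0)
    (hE : ∀ j, j ≠ j₀ → ∀ H ∈ V, D j (ξ H) = ξ (cD (D j) H)) :
    ∀ H ∈ V, (∀ i < u, fder (g j₀) i H = 0) → ξ H = 0 := by
  classical
  obtain ⟨c, hc, hc'⟩ := S.repr ξ h0 (Finset.univ.erase j₀)
    (fun j hj => h1 j (Finset.ne_of_mem_erase hj))
  intro H hH hH0
  rw [hc H hH]
  apply Finset.sum_eq_zero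
  intro j _
  apply Finset.sum_eq_zero
  intro i hi
  rw [Finset.mem_range] at hi
  by_cases hj : j = j₀
  · rw [hj, hH0 i hi, mul_zero]
  · have hsum : (∑ k, (Pi.single j 1 : Fin a → ℂ) k • D k) = D j := by
      rw [Finset.sum_eq_single j]
      · rw [Pi.single_eq_same, one_smul]
      · intro k _ hk
        rw [Pi.single_eq_of_ne hk, zero_smul]
      · intro h
        exact absurd (Finset.mem_univ j) h
    have h2 := S.kill ξ hc (Pi.single j 1) 0 (by
      intro H' hH'
      rw [hsum, zero_mul, add_zero]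
      exact hE j hj H' hH') (by
      intro k hk
      by_cases hkj : k = j
      · rw [hkj]
        exact hc' j (Finset.mem_erase.mpr ⟨hj, Finset.mem_univ j⟩)
      · rw [Pi.single_eq_of_ne hkj] at hk
        exact absurd rfl hk) j (by rw [Pi.single_eq_same]; exact one_ne_zero) i hi
    rw [h2, zero_mul]

/-- conclusion for functionals which can be stopped by a combination of any three flags -/
theorem Flags.two (S : Flags n u V g D F) (ha : 3 ≤ a) (ξ : R3 →ₗ[ℂ] ℂ) (h0 : ξ F = 0)
    (h1 : ∀ j, ξ (cD (D j) F) = 0)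
    (hmove : ∀ J : Finset (Fin a), J.card = 3 → ∃ (α : Fin a → ℂ) (κ : ℂ),
      (∃ j ∈ J, α j ≠ 0) ∧ (∀ j ∉ J, α j = 0) ∧
      ∀ H ∈ V, (∑ j, α j • D j) (ξ H) = ξ (cD (∑ j, α j • D j) H) + κ * ξ H) :
    ∃ j₁ j₂ : Fin a, j₁ ≠ j₂ ∧ ∀ H ∈ V, (∀ i < u - 1, fder (g j₁) i H = 0) →
      (∀ i < u - 1, fder (g j₂) i H = 0) → ξ H = 0 := by
  classical
  obtain ⟨c, hc, hc'⟩ := S.repr ξ h0 Finset.univ (fun j _ => h1 j)
  set T : Finset (Fin a) := Finset.univ.filter (fun j => ∃ i < u, c j i ≠ 0) with hT
  have hcard : T.card ≤ 2 := by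
    by_contra hcon
    push Not at hcon
    obtain ⟨J, hJT, hJ⟩ := Finset.exists_subset_card_eq (s := T) (n := 3) (by omega)
    obtain ⟨α, κ, ⟨j, hj, hαj⟩, -, hE⟩ := hmove J hJ
    have h2 := S.kill ξ hc α κ hE (fun k _ => hc' k (Finset.mem_univ k)) j hαj
    obtain ⟨i, hi, hne⟩ := (Finset.mem_filter.mp (hJT hj)).2
    exact hne (h2 i hi)
  obtain ⟨T', hTT', -, hT'⟩ := Finset.exists_subsuperset_card_eq (Finset.subset_univ T) hcard
    (by rw [Finset.card_univ, Fintype.card_fin]; omega)
  obtain ⟨j₁, j₂, hne, hT2⟩ := Finset.card_eq_two.mp hT'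
  refine ⟨j₁, j₂, hne, fun H hH hH1 hH2 => ?_⟩
  rw [hc H hH]
  apply Finset.sum_eq_zero
  intro j _
  apply Finset.sum_eq_zero
  intro i hi
  rw [Finset.mem_range] at hi
  by_cases hjT : j ∈ T'
  · by_cases hi' : i = u - 1
    · rw [hi', hc' j (Finset.mem_univ j), zero_mul]
    · rw [hT2, Finset.mem_insert, Finset.mem_singleton] at hjT
      rcases hjT with h2 | h2
      · rw [h2, hH1 i (by omega), mul_zero]
      · rw [h2, hH2 i (by omega), mul_zero]
  · have h2 : c j i = 0 := by
      by_contra hne'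
      exact hjT (hTT' (Finset.mem_filter.mpr ⟨Finset.mem_univ j, i, hi, hne'⟩))
    rw [h2, zero_mul]

end chain

end Pool.Agent.Work.MP_0421d9_ag.SM
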