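import Pool.Agent.Work.MP_0421d9_ag.SM0
import Pool.Agent.Work.MP_0421d9_ag.SBez

/-!
Restriction of ternary forms to the line `z = 0`.
-/

set_option linter.unusedSectionVars false
set_option linter.unusedVariables false

namespace Pool.Agent.Work.MP_0421d9_ag.SM

open MvPolynomial Module

theorem Ind.generic {ι κ : Type} {p : ι → V3} {w : κ → ℂ} (h : Ind p w) : GenericPoints p :=
  AlgebraicIndependent.comp h Sum.inl Sum.inl_injective

theorem res_X0 : res (X 0) = X 0 := by
  unfold res
  rw [aeval_X]
  rfl

theorem res_X1 : res (X 1) = X 1 := by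
  unfold res
  rw [aeval_X]
  rfl

theorem res_X2 : res (X 2) = 0 := by
  unfold res
  rw [aeval_X]
  rfl

theorem res_C (c : ℂ) : res (C c) = C c := by
  unfold res
  rw [algHom_C]
  rfl

theorem eval_res (F : R3) (y : V2) : eval y (res F) = eval ![y 0, y 1, 0] F := by
  induction F using MvPolynomial.induction_on with
  | C a => rw [res_C, eval_C, eval_C]
  | add p q hp hq => rw [map_add, map_add, hp, hq, map_add]
  | mul_X p i hp =>
    rw [map_mul, map_mul, hp, map_mul, eval_X]
    congr 1
    fin_cases i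
    · change eval y (res (X 0)) = _
      rw [res_X0, eval_X]
      rfl
    · change eval y (res (X 1)) = _
      rw [res_X1, eval_X]
      rfl
    · change eval y (res (X 2)) = _
      rw [res_X2, map_zero]
      rfl

theorem res_hom {F : R3} {d : ℕ} (hF : F.IsHomogeneous d) : (res F).IsHomogeneous d := by
  have h := hF.aeval (R := ℂ) (n := 1) (![X 0, X 1, 0] : Fin 3 → R2) (fun i => by
    fin_cases i
    · exact isHomogeneous_X ℂ 0
    · exact isHomogeneous_X ℂ 1
    · exact isHomogeneous_zero _ _ _)
  rw [one_mul] at h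
  exact h

theorem res_pderiv_zero (F : R3) : res (pderiv 0 F) = pderiv 0 (res F) := by
  induction F using MvPolynomial.induction_on with
  | C a => rw [pderiv_C, map_zero, res_C, pderiv_C]
  | add p q hp hq => rw [map_add, map_add, hp, hq, map_add, map_add]
  | mul_X p i hp =>
    rw [pderiv_mul, map_add, map_mul, map_mul, hp, map_mul, pderiv_mul]
    congr 2
    fin_cases i
    · change res (pderiv 0 (X 0)) = pderiv 0 (res (X 0))
      rw [res_X0, pderiv_X_self, pderiv_X_self, map_one]
    · change res (pderiv 0 (X 1)) = pderiv 0 (res (X 1))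
      rw [res_X1, pderiv_X_of_ne (by decide), pderiv_X_of_ne (by decide), map_zero]
    · change res (pderiv 0 (X 2)) = pderiv 0 (res (X 2))
      rw [res_X2, pderiv_X_of_ne (by decide), map_zero, map_zero]

theorem res_pderiv_one (F : R3) : res (pderiv 1 F) = pderiv 1 (res F) := by
  induction F using MvPolynomial.induction_on with
  | C a => rw [pderiv_C, map_zero, res_C, pderiv_C]
  | add p q hp hq => rw [map_add, map_add, hp, hq, map_add, map_add]
  | mul_X p i hp =>
    rw [pderiv_mul, map_add, map_mul, map_mul, hp, map_mul, pderiv_mul]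
    congr 2
    fin_cases i
    · change res (pderiv 1 (X 0)) = pderiv 1 (res (X 0))
      rw [res_X0, pderiv_X_of_ne (by decide), pderiv_X_of_ne (by decide), map_zero]
    · change res (pderiv 1 (X 1)) = pderiv 1 (res (X 1))
      rw [res_X1, pderiv_X_self, pderiv_X_self, map_one]
    · change res (pderiv 1 (X 2)) = pderiv 1 (res (X 2))
      rw [res_X2, pderiv_X_of_ne (by decide), map_zero, map_zero]

theorem res_pderiv_zero_iterate (i : ℕ) (F : R3) :
    res ((pderiv 0)^[i] F) = (pderiv 0)^[i] (res F) := by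
  induction i generalizing F with
  | zero => rfl
  | succ i ih => rw [Function.iterate_succ_apply, ih, res_pderiv_zero, Function.iterate_succ_apply]

theorem deriv_deh_X (i : Fin 2) :
    Polynomial.derivative (deh (X i)) = deh (pderiv 0 (X i)) := by
  fin_cases i
  · simp only [Fin.zero_eta, Fin.isValue]
    rw [deh_X0, Polynomial.derivative_X, pderiv_X_self, map_one]
  · simp only [Fin.mk_one, Fin.isValue]
    rw [deh_X1, Polynomial.derivative_one, pderiv_X_of_ne (by decide), map_zero]

theorem deriv_deh (f : R2) : Polynomial.derivative (deh f) = deh (pderiv 0 f) := by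
  induction f using MvPolynomial.induction_on with
  | C a => rw [deh_C, Polynomial.derivative_C, pderiv_C, map_zero]
  | add p q hp hq => rw [map_add, map_add, hp, hq, map_add, map_add]
  | mul_X p i hp =>
    rw [map_mul, Polynomial.derivative_mul, hp, pderiv_mul, map_add, map_mul, map_mul,
      deriv_deh_X]

theorem deriv_deh_iterate (i : ℕ) (f : R2) :
    Polynomial.derivative^[i] (deh f) = deh ((pderiv 0)^[i] f) := by
  induction i generalizing f with
  | zero => rfl
  | succ i ih =>
    rw [Function.iterate_succ_apply, deriv_deh, ih, Function.iterate_succ_apply]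

/-- the derivatives along the line, in terms of the dehomogenised restriction -/
theorem fder_eq (c : ℂ) (i : ℕ) (H : R3) :
    fder c i H = (Polynomial.derivative^[i] (deh (res H))).eval c := by
  rw [deriv_deh_iterate, eval_deh, ← res_pderiv_zero_iterate, eval_res]
  rfl

/-- the derivatives of order less than `k` vanish iff the multiplicity of the root is at
least `k` -/
theorem fder_eq_zero_iff (c : ℂ) (k : ℕ) (H : R3) :
    (∀ i < k, fder c i H = 0) ↔ (Polynomial.X - Polynomial.C c) ^ k ∣ deh (res H) := by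
  simp only [fder_eq]
  by_cases h0 : deh (res H) = 0
  · rw [h0]
    simp
  · rw [← Polynomial.le_rootMultiplicity_iff h0]
    rcases Nat.eq_zero_or_pos k with hk | hk
    · subst hk
      simp
    · obtain ⟨n, rfl⟩ : ∃ n, k = n + 1 := ⟨k - 1, by omega⟩
      rw [Nat.succ_le_iff, Polynomial.lt_rootMultiplicity_iff_isRoot_iterate_derivative h0]
      simp only [Polynomial.IsRoot.def, Nat.lt_succ_iff]

/-- a form without `z`-free monomials is divisible by `z` -/
theorem X2_dvd_of_res {F : R3} (h : res F = 0) : (X 2 : R3) ∣ F := by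
  rw [← lin_single_two]
  apply lin_dvd_of_eval
  · intro h0
    have := congrFun h0 2
    simp at this
  · intro u hu
    rw [lin_single_two, eval_X] at hu
    have h1 := eval_res F ![u 0, u 1]
    rw [h, map_zero] at h1
    have h2 : u = ![![u 0, u 1] 0, ![u 0, u 1] 1, 0] := by
      ext i
      fin_cases i
      · rfl
      · rfl
      · exact hu
    rw [h2]
    exact h1.symm

/-- factoring out a power of `z` -/
theorem exists_z_factor {d k : ℕ} {F : R3} (hF : F.IsHomogeneous d)
    (h : ∀ α, coeff α F ≠ 0 → k ≤ α 2) : ∃ G : R3, G.IsHomogeneous (d - k) ∧ X 2 ^ k * G = F := by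
  set G : R3 := F.divMonomial (Finsupp.single 2 k) with hG
  refine ⟨G, ?_, ?_⟩
  · apply isHomogeneous_of_degree
    intro α hα
    rw [hG, coeff_divMonomial] at hα
    have h2 := degree_of_coeff hF hα
    rw [map_add, Finsupp.degree_single] at h2
    omega
  · rw [X_pow_eq_monomial]
    ext β
    rw [coeff_monomial_mul', one_mul]
    split_ifs with h'
    · rw [hG, coeff_divMonomial, add_tsub_cancel_of_le h']
    · by_contra hne
      apply h'
      rw [Finsupp.single_le_iff]
      exact h β (Ne.symm hne)

theorem le_of_X2_pow_mul {k : ℕ} {G : R3} {α : Fin 3 →₀ ℕ} (h : coeff α (X 2 ^ k * G) ≠ 0) :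
    k ≤ α 2 := by
  rw [X_pow_eq_monomial, coeff_monomial_mul'] at h
  split_ifs at h with h'
  · rwa [Finsupp.single_le_iff] at h'
  · exact absurd rfl h

/-- a member of the system whose restriction to the line is zero -/
theorem eq_zero_of_res {ι : Type} {n : ℕ} {p : ι → V3} {m : ι → ℕ} (hp2 : ∀ i, p i 2 ≠ 0)
    (hlow : linSys (n - 1) p m = ⊥) {H : R3} (hH : H ∈ linSys n p m) (h : res H = 0) :
    H = 0 := by
  obtain ⟨G, hG⟩ := X2_dvd_of_res h
  have h1 : ∀ α, coeff α H ≠ 0 → 1 ≤ α 2 := by
    intro α hα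
    rw [hG, ← pow_one (X 2 : R3)] at hα
    exact le_of_X2_pow_mul hα
  obtain ⟨K, hK, hKH⟩ := exists_z_factor hH.1 h1
  have h2 : K ∈ linSys (n - 1) p m := by
    refine ⟨hK, fun i => ?_⟩
    apply vanishTo_of_X_pow_mul (hp2 i) 1
    rw [hKH]
    exact hH.2 i
  rw [hlow, Submodule.mem_bot] at h2
  rw [← hKH, h2, mul_zero]

theorem deh_Gam {a : ℕ} (g : Fin a → ℂ) :
    deh (Gam g) = ∏ j, (Polynomial.X - Polynomial.C (g j)) := by
  unfold Gam
  rw [map_prod]
  refine Finset.prod_congr rfl (fun j _ => ?_)
  rw [map_sub, map_mul, deh_X0, deh_X1, deh_C, mul_one]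

theorem Gam_isHomogeneous {a : ℕ} (g : Fin a → ℂ) : (Gam g).IsHomogeneous a := by
  unfold Gam
  have h := IsHomogeneous.prod (Finset.univ : Finset (Fin a)) (fun j => X 0 - C (g j) * X 1 : _ → R2)
    (fun _ => 1) (fun j _ => (isHomogeneous_X ℂ 0).sub ((isHomogeneous_X ℂ 1).C_mul (g j)))
  simpa using h

theorem Gam_ne_zero {a : ℕ} (g : Fin a → ℂ) : Gam g ≠ 0 := by
  intro h
  have h1 := deh_Gam g
  rw [h, map_zero] at h1
  exact (Finset.prod_ne_zero_iff.mpr (fun j _ => Polynomial.X_sub_C_ne_zero (g j))) h1.symm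

/-- contact orders from the factor `Γ ^ u` -/
theorem fder_of_Gam {a u : ℕ} {g : Fin a → ℂ} {H : R3} {s : R2} (h : res H = Gam g ^ u * s)
    (j : Fin a) : ∀ i < u, fder (g j) i H = 0 := by
  rw [fder_eq_zero_iff, h, map_mul, map_pow, deh_Gam]
  apply Dvd.dvd.mul_right
  apply pow_dvd_pow_of_dvd
  exact Finset.dvd_prod_of_mem _ (Finset.mem_univ j)

theorem fder_succ_of_Gam {a u : ℕ} {g : Fin a → ℂ} {H : R3} {s : R2}
    (h : res H = Gam g ^ u * s) (j : Fin a) (hs : eval ![g j, 1] s = 0) :
    ∀ i < u + 1, fder (g j) i H = 0 := by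
  rw [fder_eq_zero_iff, h, map_mul, map_pow, deh_Gam, pow_succ]
  apply mul_dvd_mul
  · apply pow_dvd_pow_of_dvd
    exact Finset.dvd_prod_of_mem _ (Finset.mem_univ j)
  · rw [Polynomial.dvd_iff_isRoot, Polynomial.IsRoot.def, eval_deh]
    exact hs

/-- a nonzero form killed up to a factor by a derivation moving `c` does not vanish at `c` -/
theorem generic_root {n : ℕ} {f : R2} (hf : f.IsHomogeneous n) (hf0 : f ≠ 0)
    {D : Derivation ℚ ℂ ℂ} {κ : ℂ} (hD : cD D f = C κ * f) {c : ℂ} (hc : D c = 1) :
    eval ![c, 1] f ≠ 0 := by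
  intro h0
  have hdeh : deh f ≠ 0 := fun h => hf0 (eq_zero_of_deh hf h)
  have hcomm : ∀ i, cD D ((pderiv 0)^[i] f) = C κ * (pderiv 0)^[i] f := by
    intro i
    induction i with
    | zero => exact hD
    | succ i ih =>
      rw [Function.iterate_succ_apply', cD_pderiv, ih, pderiv_C_mul]
  have hall : ∀ i, eval ![c, 1] ((pderiv 0)^[i] f) = 0 := by
    intro i
    induction i with
    | zero => exact h0
    | succ i ih =>
      have h1 := D_eval D ![c, 1] ((pderiv 0)^[i] f)
      rw [ih, map_zero, hcomm, map_mul, ih, mul_zero, zero_add, Fin.sum_univ_two] at h1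
      simp only [Matrix.cons_val_zero, Matrix.cons_val_one, hc, Derivation.map_one_eq_zero,
        one_mul, zero_mul, add_zero] at h1
      rw [Function.iterate_succ_apply']
      exact h1.symm
  have h2 : (Polynomial.X - Polynomial.C c) ^ ((deh f).natDegree + 1) ∣ deh f := by
    rw [← Polynomial.le_rootMultiplicity_iff hdeh, Nat.succ_le_iff,
      Polynomial.lt_rootMultiplicity_iff_isRoot_iterate_derivative hdeh]
    intro i _
    rw [Polynomial.IsRoot.def, deriv_deh_iterate, eval_deh, hall]
  have h3 := Polynomial.natDegree_le_of_dvd h2 hdeh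
  rw [Polynomial.natDegree_pow, Polynomial.natDegree_X_sub_C, mul_one] at h3
  omega

end Pool.Agent.Work.MP_0421d9_ag.SM
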