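import Pool.Agent.Work.MP_0421d9_ag.SMember
import Pool.Agent.Work.MP_0421d9_ag.SBC
import Pool.Agent.Work.MP_0421d9_ag.SBin
import Pool.Agent.Work.MP_0421d9_ag.SRes

/-!
The limit curve on the quadric is smooth.
-/

set_option linter.unusedSectionVars false

namespace Pool.Agent.Work.MP_0421d9_ag.SM

open MvPolynomial Module

theorem slim_bf_zero (k : ℕ) : bf k (fun _ => 0) = 0 := by
  unfold bf
  refine Finset.sum_eq_zero (fun i _ => ?_)
  rw [C_0, zero_mul]

theorem limit_smooth {ι : Type} [Fintype ι] [DecidableEq ι] {n M u a β : ℕ} {p : ι → V3}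
    {g : Fin a → ℂ} {c₁ c₂ : Fin (β + 1 + 1) → ℂ} (hx : Ind p (Sum.elim g (Sum.elim c₁ c₂)))
    {m : ι → ℕ} (hM : ∀ i, m i ≤ M) (hu : 2 ≤ u) (huM : u ≤ M)
    (hn : 3 * (M + 2) ^ 2 ≤ n) (ha : M ^ 2 + 2 * M + 3 ≤ u * a) (hna : u * a < n)
    (hχ : ∑ i, (m i + 1).choose 2 + (u * a + 1) = (n + 2).choose 2)
    (hlow : linSys (n - 1) p m = ⊥) {F : R3} (hF : F ∈ linSys n p m) (hF0 : F ≠ 0) {Φ : R4}
    (hΦ : BiHom u β Φ)
    (hs : res F = Gam g ^ u * onC (bf (β + 1) c₁) (bf (β + 1) c₂) Φ) :
    SmoothΦ Φ ∧ ∀ j, NoDir Φ ![g j, 1] := by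
  have hx' : AlgebraicIndependent ℚ (Sum.elim (fun z : ι × Fin 3 => p z.1 z.2)
    (Sum.elim g (Sum.elim c₁ c₂))) := hx
  have hg : Ind p g := by
    have h1 := hx'.comp (Sum.map id Sum.inl) (Function.Injective.sumMap Function.injective_id
      Sum.inl_injective)
    have h2 : Sum.elim (fun z : ι × Fin 3 => p z.1 z.2) (Sum.elim g (Sum.elim c₁ c₂)) ∘
        Sum.map id Sum.inl = Sum.elim (fun z : ι × Fin 3 => p z.1 z.2) g := by
      funext z
      rcases z with z | z <;> rfl
    rw [h2] at h1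
    exact h1
  have hc : AlgebraicIndependent ℚ (Sum.elim c₁ c₂) := by
    have h1 := hx'.comp (fun z => Sum.inr (Sum.inr z))
      (Sum.inr_injective.comp Sum.inr_injective)
    exact h1
  obtain ⟨-, hnd, hgs, huniq⟩ := flag_member hg hM hu huM hn ha hna hχ hlow hF hF0 hs
  set P := bf (β + 1) c₁ with hPdef
  set Q := bf (β + 1) c₂ with hQdef
  set s := onC P Q Φ with hsdef
  have hPh : P.IsHomogeneous (β + 1) := bf_hom _ _
  have hQh : Q.IsHomogeneous (β + 1) := bf_hom _ _
  have hPQ : NoCommon P Q := bf_noCommon hc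
  -- derivations
  have hder : ∀ e₁ e₂ : Fin (β + 1 + 1) → ℂ, ∃ D : Derivation ℚ ℂ ℂ,
      (∀ j, D (g j) = 0) ∧ cD D P = bf (β + 1) e₁ ∧ cD D Q = bf (β + 1) e₂ ∧
      ∃ c : ℂ, cD D s = C c * s := by
    intro e₁ e₂
    obtain ⟨D, hD⟩ := exists_derivation _ hx' (Sum.elim (fun _ => 0)
      (Sum.elim (fun _ => 0) (Sum.elim e₁ e₂)))
    have h1 : ∀ i k, D (p i k) = 0 := fun i k => hD (Sum.inl (i, k))
    have h2 : ∀ j, D (g j) = 0 := fun j => hD (Sum.inr (Sum.inl j))
    have h3 : ∀ j, D (c₁ j) = e₁ j := fun j => hD (Sum.inr (Sum.inr (Sum.inl j)))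
    have h4 : ∀ j, D (c₂ j) = e₂ j := fun j => hD (Sum.inr (Sum.inr (Sum.inr j)))
    refine ⟨D, h2, ?_, ?_, ?_⟩
    · rw [hPdef, cD_bf]
      congr 1
      exact funext h3
    · rw [hQdef, cD_bf]
      congr 1
      exact funext h4
    · have h5 : cD D F ∈ linSys n p m :=
        linSys_cD_mem (fun i => by have := hM i; nlinarith) hF (fun i => Or.inl (h1 i))
      have h6 : res (cD D F) = Gam g ^ u * cD D s := by
        rw [← cD_res, hs, cD_mul, cD_pow, cD_Gam_fixed h2, mul_zero, mul_zero, zero_mul, zero_add]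
      obtain ⟨c, hc'⟩ := huniq _ h5 ⟨_, h6⟩
      refine ⟨c, ?_⟩
      have h7 : res (C c * F) = C c * res F := by
        rw [map_mul]
        congr 1
        unfold res
        rw [algHom_C, algebraMap_eq]
      rw [hc', h7, hs] at h6
      have h8 : Gam g ^ u ≠ 0 := pow_ne_zero _ (Gam_ne_zero g)
      apply mul_left_cancel₀ h8
      rw [← h6]
      ring
  -- the key statement
  have key : ∀ θ y : V2, θ ≠ 0 → y ≠ 0 → eval (pt θ y) (pderiv 0 Φ) = 0 →
      eval (pt θ y) (pderiv 1 Φ) = 0 →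
      ((eval (pt θ y) (pderiv 2 Φ) = 0 ∧ eval (pt θ y) (pderiv 3 Φ) = 0) ∨
        ∃ j, y = ![g j, 1]) → False := by
    intro θ y hθ hy h0 h1 hcase
    have hyD : ∀ D : Derivation ℚ ℂ ℂ, (∀ j, D (g j) = 0) → (∀ k, D (y k) = 0) ∨
        (eval (pt θ y) (pderiv 2 Φ) = 0 ∧ eval (pt θ y) (pderiv 3 Φ) = 0) := by
      intro D hD
      rcases hcase with h | ⟨j, hj⟩
      · exact Or.inr h
      · left
        intro k
        rw [hj]
        fin_cases k
        · exact hD j
        · exact D.map_one_eq_zero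
    by_cases hN : θ 1 * eval y P - θ 0 * eval y Q ≠ 0
    · refine bc (by omega) hPh hQh hPQ hΦ hsdef.symm hnd hθ hy ?_ ?_ h0 h1 hN
      · intro A hA
        obtain ⟨e, rfl⟩ := exists_bf hA
        obtain ⟨D, h2, h3, h4, h5⟩ := hder e (fun _ => 0)
        exact ⟨D, h3, by rw [h4, slim_bf_zero], h5, hyD D h2⟩
      · intro A hA
        obtain ⟨e, rfl⟩ := exists_bf hA
        obtain ⟨D, h2, h3, h4, h5⟩ := hder (fun _ => 0) e
        exact ⟨D, by rw [h3, slim_bf_zero], h4, h5, hyD D h2⟩
    · push Not at hN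
      obtain ⟨c, hc'⟩ : ∃ c : ℂ, (![eval y P, eval y Q] : V2) = c • θ := by
        by_cases hθ0 : θ 0 = 0
        · have hθ1 : θ 1 ≠ 0 := by
            intro h
            apply hθ
            funext k
            fin_cases k
            · exact hθ0
            · exact h
          refine ⟨eval y Q / θ 1, ?_⟩
          funext k
          fin_cases k
          · rw [hθ0, zero_mul, sub_zero] at hN
            have := (mul_eq_zero.mp hN).resolve_left hθ1
            simp [this, hθ0]
          · simp [hθ1]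
        · refine ⟨eval y P / θ 0, ?_⟩
          funext k
          fin_cases k
          · simp [hθ0]
          · have : eval y Q = eval y P / θ 0 * θ 1 := by
              field_simp
              linear_combination -hN
            simpa using this
      have hev : ∀ {u' b' : ℕ} {Ψ : R4}, BiHom u' b' Ψ → eval y (onC P Q Ψ) =
          c ^ u' * eval (pt θ y) Ψ := by
        intro u' b' Ψ hΨ
        rw [eval_onC, hc']
        have := hΨ.eval_scale c 1 θ y
        rw [one_smul, one_pow, mul_one] at this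
        exact this
      rcases hcase with ⟨h2, h3⟩ | ⟨j, hj⟩
      · obtain ⟨k, hk⟩ := hnd y hy
        apply hk
        rw [hsdef, pderiv_onC, map_add, map_add, map_mul, map_mul,
          hev (hΦ.pderiv_left (Or.inl rfl)), hev (hΦ.pderiv_left (Or.inr rfl)), h0, h1]
        have h4 : eval y (onC P Q (pderiv (Fin.natAdd 2 k) Φ)) = 0 := by
          fin_cases k
          · have h5 := hev (hΦ.pderiv_right (k := 2) (Or.inl rfl))
            rw [h2, mul_zero] at h5
            exact h5
          · have h5 := hev (hΦ.pderiv_right (k := 3) (Or.inr rfl))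
            rw [h3, mul_zero] at h5
            exact h5
        rw [h4]
        ring
      · apply hgs j
        rw [← hj, hev hΦ]
        have h2 := hΦ.euler_left θ y
        rw [h0, h1, mul_zero, mul_zero, add_zero] at h2
        have h3 : (u : ℂ) ≠ 0 := by exact_mod_cast (by omega : u ≠ 0)
        rw [(mul_eq_zero.mp h2.symm).resolve_left h3, mul_zero]
  refine ⟨fun v h01 h23 => ?_, fun j θ hθ => ?_⟩
  · by_contra hcon
    push Not at hcon
    have hv : pt ![v 0, v 1] ![v 2, v 3] = v := by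
      funext k
      fin_cases k <;> rfl
    refine key ![v 0, v 1] ![v 2, v 3] ?_ ?_ ?_ ?_ (Or.inl ⟨?_, ?_⟩)
    · intro h
      rcases h01 with h' | h'
      · exact h' (congrFun h 0)
      · exact h' (congrFun h 1)
    · intro h
      rcases h23 with h' | h'
      · exact h' (congrFun h 0)
      · exact h' (congrFun h 1)
    · rw [hv]; exact hcon 0
    · rw [hv]; exact hcon 1
    · rw [hv]; exact hcon 2
    · rw [hv]; exact hcon 3
  · by_contra hcon
    push Not at hcon
    refine key θ ![g j, 1] hθ ?_ hcon.1 hcon.2 (Or.inr ⟨j, rfl⟩)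
    intro h
    exact one_ne_zero (congrFun h 1)

end Pool.Agent.Work.MP_0421d9_ag.SM
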