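import Pool.Agent.Work.MP_0421d9_ag.SM0

/-!
The substitution `z ↦ τ z`, and division by powers of `z`.
-/

set_option linter.unusedSectionVars false

namespace Pool.Agent.Work.MP_0421d9_ag.SM

open MvPolynomial Module

/-- `F (x, y, z) ↦ F (x, y, τ z)` -/
noncomputable def scz (τ : ℂ) : R3 →ₐ[ℂ] R3 := aeval ![X 0, X 1, C τ * X 2]

/-- `(v₀, v₁, v₂) ↦ (v₀, v₁, v₂ / τ)` -/
noncomputable def scv (τ : ℂ) (v : V3) : V3 := ![v 0, v 1, v 2 / τ]

theorem scz_eq_scl (τ : ℂ) : scz τ = LD.scl ![1, 1, τ] := by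
  unfold scz LD.scl
  congr 1
  funext i
  fin_cases i <;> simp

theorem scz_C (τ c : ℂ) : scz τ (C c) = C c := by
  unfold scz
  rw [algHom_C, algebraMap_eq]

theorem scz_X0 (τ : ℂ) : scz τ (X 0) = X 0 := by
  unfold scz
  rw [aeval_X]
  rfl

theorem scz_X1 (τ : ℂ) : scz τ (X 1) = X 1 := by
  unfold scz
  rw [aeval_X]
  rfl

theorem scz_X2 (τ : ℂ) : scz τ (X 2) = C τ * X 2 := by
  unfold scz
  rw [aeval_X]
  rfl

theorem coeff_scz (τ : ℂ) (F : R3) (α : Fin 3 →₀ ℕ) :
    coeff α (scz τ F) = τ ^ α 2 * coeff α F := by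
  rw [scz_eq_scl, LD.coeff_scl, Fin.prod_univ_three]
  simp

theorem scz_hom (τ : ℂ) {F : R3} {d : ℕ} (hF : F.IsHomogeneous d) :
    (scz τ F).IsHomogeneous d := by
  intro α hα
  rw [coeff_scz] at hα
  exact hF (right_ne_zero_of_mul hα)

theorem scz_monomial (τ : ℂ) (α : Fin 3 →₀ ℕ) (a : ℂ) :
    scz τ (monomial α a) = monomial α (τ ^ α 2 * a) := by
  ext β
  rw [coeff_scz, coeff_monomial, coeff_monomial]
  split_ifs with h
  · rw [h]
  · rw [mul_zero]

theorem B_scz (τ : ℂ) (A F : R3) : B A (scz τ F) = B (scz τ A) F := by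
  induction A using MvPolynomial.induction_on' with
  | monomial β b =>
    rw [scz_monomial, B_monomial, B_monomial, coeff_scz]
    ring
  | add p q hp hq =>
    rw [map_add, LinearMap.add_apply, hp, hq, map_add, map_add, LinearMap.add_apply]

theorem scz_lin' (τ : ℂ) (w : V3) : scz τ (lin w) = lin ![w 0, w 1, τ * w 2] := by
  unfold lin
  rw [Fin.sum_univ_three, Fin.sum_univ_three]
  simp only [map_add, map_mul, scz_C, scz_X0, scz_X1, scz_X2, Matrix.cons_val_zero,
    Matrix.cons_val_one, Matrix.cons_val]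
  ring

theorem scz_lin {τ : ℂ} (hτ : τ ≠ 0) (v : V3) : scz τ (lin (scv τ v)) = lin v := by
  rw [scz_lin']
  congr 1
  funext i
  fin_cases i <;> simp [scv]
  field_simp

theorem vanishTo_scz {τ : ℂ} (hτ : τ ≠ 0) {F : R3} {d : ℕ} (hF : F.IsHomogeneous d) {p : V3}
    {m : ℕ} (h : VanishTo F p m) : VanishTo (scz τ F) (scv τ p) m := by
  rw [scz_eq_scl]
  apply LD.vanishTo_scl
  have h1 : (fun i => (![1, 1, τ] : V3) i * scv τ p i) = p := by
    funext i
    fin_cases i <;> simp [scv]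
    field_simp
  rw [h1]
  exact h

theorem eval_scz {τ : ℂ} (hτ : τ ≠ 0) (q : V3) (F : R3) :
    eval (scv τ q) (scz τ F) = eval q F := by
  induction F using MvPolynomial.induction_on with
  | C c => rw [scz_C, eval_C, eval_C]
  | add f g hf hg => rw [map_add, map_add, map_add, hf, hg]
  | mul_X f k hf =>
    rw [map_mul, map_mul, map_mul, hf]
    congr 1
    fin_cases k
    · change eval (scv τ q) (scz τ (X 0)) = _
      rw [scz_X0, eval_X]
      simp [scv]
    · change eval (scv τ q) (scz τ (X 1)) = _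
      rw [scz_X1, eval_X]
      simp [scv]
    · change eval (scv τ q) (scz τ (X 2)) = _
      rw [scz_X2, map_mul, eval_C, eval_X]
      simp [scv]
      field_simp

theorem pderiv_scz (τ : ℂ) (k : Fin 3) (F : R3) :
    pderiv k (scz τ F) = C ((![1, 1, τ] : V3) k) * scz τ (pderiv k F) := by
  ext α
  rw [coeff_pderiv, coeff_scz, coeff_C_mul, coeff_scz, coeff_pderiv]
  fin_cases k
  · simp
    ring
  · simp
    ring
  · simp
    ring

theorem sing_scz {τ : ℂ} (hτ : τ ≠ 0) {F : R3} {q : V3} (h : ∀ k, eval q (pderiv k F) = 0) :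
    ∀ k, eval (scv τ q) (pderiv k (scz τ F)) = 0 := by
  intro k
  rw [pderiv_scz, map_mul, eval_scz hτ, h k, mul_zero]

theorem badDir_scz {τ : ℂ} (hτ : τ ≠ 0) {d m : ℕ} {F : R3} {p v : V3} (h : BadDir d F p m v) :
    BadDir d (scz τ F) (scv τ p) m (scv τ v) := by
  refine ⟨?_, fun hm w => ?_⟩
  · rw [B_scz, map_mul, map_pow, map_pow, scz_lin hτ, scz_lin hτ]
    exact h.1
  · have h1 : scz τ (lin (scv τ p) ^ (d - m) * (lin (scv τ v) ^ (m - 1) * lin w)) =
        lin p ^ (d - m) * (lin v ^ (m - 1) * lin ![w 0, w 1, τ * w 2]) := by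
      rw [map_mul, map_mul, map_pow, map_pow, scz_lin hτ, scz_lin hτ, scz_lin']
    rw [B_scz, h1]
    exact h.2 hm _

theorem cr_scv {τ : ℂ} (hτ : τ ≠ 0) {p q : V3} (h : cr p q ≠ 0) :
    cr (scv τ p) (scv τ q) ≠ 0 := by
  intro h0
  apply h
  have e0 := congrFun h0 0
  have e1 := congrFun h0 1
  have e2 := congrFun h0 2
  simp only [cr, scv, Matrix.cons_val_zero, Matrix.cons_val_one, Matrix.cons_val,
    Pi.zero_apply] at e0 e1 e2
  funext i
  fin_cases i
  · simp only [cr, Fin.zero_eta, Matrix.cons_val_zero, Pi.zero_apply]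
    have h1 : p 1 * q 2 - p 2 * q 1 = (p 1 * (q 2 / τ) - p 2 / τ * q 1) * τ := by field_simp
    rw [h1, e0, zero_mul]
  · simp only [cr, Fin.mk_one, Matrix.cons_val_one, Matrix.cons_val_zero, Pi.zero_apply]
    have h1 : p 2 * q 0 - p 0 * q 2 = (p 2 / τ * q 0 - p 0 * (q 2 / τ)) * τ := by field_simp
    rw [h1, e1, zero_mul]
  · simp only [cr, Fin.reduceFinMk, Matrix.cons_val, Pi.zero_apply]
    exact e2

/-- lowest component of a product -/
theorem homogeneousComponent_mul_of_low {P G : R3} {m : ℕ}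
    (hG : ∀ k < m, homogeneousComponent k G = 0) :
    homogeneousComponent m (P * G) = C (coeff 0 P) * homogeneousComponent m G := by
  classical
  have hc : ∀ β : Fin 3 →₀ ℕ, β.degree < m → coeff β G = 0 := by
    intro β hβ
    have h1 := congrArg (coeff β) (hG _ hβ)
    rw [coeff_homogeneousComponent, if_pos rfl, coeff_zero] at h1
    exact h1
  ext γ
  rw [coeff_homogeneousComponent, coeff_C_mul, coeff_homogeneousComponent]
  split_ifs with h
  · rw [coeff_mul, Finset.sum_eq_single (0, γ)]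
    · intro b hb hb'
      rw [Finset.HasAntidiagonal.mem_antidiagonal] at hb
      have h1 : b.1 ≠ 0 := by
        intro h2
        apply hb'
        rw [h2, zero_add] at hb
        exact Prod.ext h2 hb
      have h2 : b.2.degree < m := by
        have h3 : b.1.degree + b.2.degree = m := by rw [← map_add, hb, h]
        have h4 : b.1.degree ≠ 0 := by
          intro h5
          exact h1 ((Finsupp.degree_eq_zero_iff _).mp h5)
        omega
      rw [hc _ h2, mul_zero]
    · intro h1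
      exfalso
      apply h1
      rw [Finset.HasAntidiagonal.mem_antidiagonal, zero_add]
  · rw [mul_zero]

theorem translate_X2_pow_mul (p : V3) (u : ℕ) (F : R3) :
    translate p (X 2 ^ u * F) = (C (p 2) + X 2) ^ u * translate p F := by
  unfold translate
  rw [map_mul, map_pow, aeval_X]

theorem coeff_zero_pow (c : ℂ) (u : ℕ) : coeff 0 ((C c + X 2 : R3) ^ u) = c ^ u := by
  have h1 : ∀ P : R3, coeff 0 P = constantCoeff P := fun P => rfl
  rw [h1, map_pow, map_add, constantCoeff_C, constantCoeff_X, add_zero]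

/-- dividing by a power of `z`: the pairing with the lowest term -/
theorem B_z_pow {n m u : ℕ} (hm : m ≤ n) {F : R3} (hF : F.IsHomogeneous n) {p : V3}
    (hv : VanishTo F p m) (A : R3) :
    B (lin p ^ (n + u - m) * A) (X 2 ^ u * F) =
      ((n + u - m).factorial : ℂ) * (p 2 ^ u * (((n - m).factorial : ℂ)⁻¹ *
        B (lin p ^ (n - m) * A) F)) := by
  have h1 : (X 2 ^ u * F : R3).IsHomogeneous (n + u) := by
    have h2 : (X 2 ^ u : R3).IsHomogeneous u := by
      have h3 := (isHomogeneous_X ℂ (2 : Fin 3)).pow u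
      rwa [one_mul] at h3
    rw [add_comm]
    exact h2.mul hF
  have h2 : ((n - m).factorial : ℂ) ≠ 0 := by exact_mod_cast Nat.factorial_ne_zero _
  rw [B_taylor h1 p (by omega : m ≤ n + u), B_taylor hF p hm, translate_X2_pow_mul,
    homogeneousComponent_mul_of_low hv, coeff_zero_pow, B_C_mul_right,
    inv_mul_cancel_left₀ h2]

/-- dividing by a power of `z` -/
theorem badDir_of_z_pow {n m u : ℕ} (hm : m ≤ n) {F : R3} (hF : F.IsHomogeneous n) {p v : V3}
    (hp : p 2 ≠ 0) (hv : VanishTo F p m) (h : BadDir (n + u) (X 2 ^ u * F) p m v) :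
    BadDir n F p m v := by
  have h1 : ((n + u - m).factorial : ℂ) ≠ 0 := by exact_mod_cast Nat.factorial_ne_zero _
  have h2 : ((n - m).factorial : ℂ)⁻¹ ≠ 0 :=
    inv_ne_zero (by exact_mod_cast Nat.factorial_ne_zero _)
  have key : ∀ A : R3, B (lin p ^ (n + u - m) * A) (X 2 ^ u * F) = 0 →
      B (lin p ^ (n - m) * A) F = 0 := by
    intro A hA
    rw [B_z_pow hm hF hv] at hA
    exact (mul_eq_zero.mp ((mul_eq_zero.mp ((mul_eq_zero.mp hA).resolve_left h1)).resolve_left
      (pow_ne_zero _ hp))).resolve_left h2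
  exact ⟨key _ h.1, fun hm1 w => key _ (h.2 hm1 w)⟩

theorem sing_of_z_pow {u : ℕ} {F : R3} {n : ℕ} (hF : F.IsHomogeneous n) {q : V3} (hq : q 2 ≠ 0)
    (h : ∀ k, eval q (pderiv k (X 2 ^ u * F)) = 0) (h0 : 1 ≤ n + u) :
    ∀ k, eval q (pderiv k F) = 0 := by
  have h1 : (X 2 ^ u * F : R3).IsHomogeneous (n + u) := by
    have h2 : (X 2 ^ u : R3).IsHomogeneous u := by
      have h3 := (isHomogeneous_X ℂ (2 : Fin 3)).pow u
      rwa [one_mul] at h3
    rw [add_comm]
    exact h2.mul hF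
  have h2 := congrArg (eval q) h1.sum_X_mul_pderiv
  rw [map_sum, Finset.sum_eq_zero (fun k _ => by rw [map_mul, h k, mul_zero]), map_nsmul,
    map_mul, map_pow, eval_X, nsmul_eq_mul] at h2
  have h3 : ((n + u : ℕ) : ℂ) ≠ 0 := by
    rw [Nat.cast_ne_zero]
    omega
  have h4 : eval q F = 0 :=
    (mul_eq_zero.mp ((mul_eq_zero.mp h2.symm).resolve_left h3)).resolve_left (pow_ne_zero _ hq)
  intro k
  have h5 := h k
  rw [pderiv_mul, map_add, map_mul, map_mul, h4, mul_zero, zero_add, map_pow, eval_X] at h5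
  exact (mul_eq_zero.mp h5).resolve_left (pow_ne_zero _ hq)

end Pool.Agent.Work.MP_0421d9_ag.SM
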