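import Pool.Agent.Work.MP_0421d9_ag.SPl
import Pool.Agent.Work.MP_0421d9_ag.SScale

/-!
Normal form of the limit of a form under `z ↦ τ z`.
-/

set_option linter.unusedSectionVars false
set_option linter.unusedVariables false

namespace Pool.Agent.Work.MP_0421d9_ag.SM

open MvPolynomial Module

theorem L_zero_mul (ρ : Pl) {τ a b : ℂ} (hτ : ρ.L τ 0) {k : ℕ} (hk : k ≠ 0) (h : ρ.L a b) :
    ρ.L (τ ^ k * a) 0 := by
  have h1 := ρ.mul (ρ.pow hτ k) h
  rwa [zero_pow hk, zero_mul] at h1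

theorem limit_form (ρ : Pl) {τ : ℂ} (hτ0 : τ ≠ 0) (hτ : ρ.L τ 0) {u : ℕ} {F : R3}
    (hF0 : F ≠ 0)
    (h1 : ∀ c Fb, ρ.LP (C c * F) Fb → Fb ≠ 0 → ∃ α, coeff α Fb ≠ 0 ∧ α 2 ≤ u)
    (h2 : ∀ c G, ρ.LP (C c * scz τ F) G → G ≠ 0 → ∃ α, coeff α G ≠ 0 ∧ u ≤ α 2) :
    ∃ (c : ℂ) (Fb G : R3), c ≠ 0 ∧ ρ.LP (C c * F) Fb ∧ ρ.LP (C (c / τ ^ u) * scz τ F) G ∧
      Fb ≠ 0 ∧ (∀ α, coeff α Fb ≠ 0 → u ≤ α 2) ∧ (∀ α, coeff α G ≠ 0 → α 2 ≤ u) ∧
      (∀ α, α 2 = u → coeff α Fb = coeff α G) := by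
  obtain ⟨c1, hc1, Fb, hFb, hLF⟩ := Pl.exists_scale_poly ρ hF0
  have hs0 : scz τ F ≠ 0 := by
    intro h
    apply hF0
    ext α
    have h3 := coeff_scz τ F α
    rw [h, coeff_zero] at h3
    rw [coeff_zero]
    exact ((mul_eq_zero.mp h3.symm).resolve_left (pow_ne_zero _ hτ0))
  obtain ⟨c2, hc2, G0, hG0, hLG⟩ := Pl.exists_scale_poly ρ hs0
  obtain ⟨α1, hα1, he1⟩ := h1 c1 Fb hLF hFb
  obtain ⟨α2, hα2, he2⟩ := h2 c2 G0 hLG hG0
  have hF : ∀ α, ρ.L (c1 * coeff α F) (coeff α Fb) := fun α => by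
    have := hLF α
    rwa [coeff_C_mul] at this
  have hG : ∀ α, ρ.L (c2 * (τ ^ α 2 * coeff α F)) (coeff α G0) := fun α => by
    have := hLG α
    rwa [coeff_C_mul, coeff_scz] at this
  have hf1 : coeff α1 F ≠ 0 := by
    intro h
    have h3 := hF α1
    rw [h, mul_zero] at h3
    exact hα1 (ρ.fn h3 (Pl.zero ρ))
  have hf2 : coeff α2 F ≠ 0 := by
    intro h
    have h3 := hG α2
    rw [h, mul_zero, mul_zero] at h3
    exact hα2 (ρ.fn h3 (Pl.zero ρ))
  have hA : ρ.L (c2 * τ ^ α1 2 / c1) (coeff α1 G0 / coeff α1 Fb) := by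
    have h3 := Pl.div ρ (hG α1) (hF α1) hα1
    have e : c2 * (τ ^ α1 2 * coeff α1 F) / (c1 * coeff α1 F) = c2 * τ ^ α1 2 / c1 := by
      field_simp
    rwa [e] at h3
  have hB : ρ.L (c1 / (c2 * τ ^ α2 2)) (coeff α2 Fb / coeff α2 G0) := by
    have h3 := Pl.div ρ (hF α2) (hG α2) hα2
    have e : c1 * coeff α2 F / (c2 * (τ ^ α2 2 * coeff α2 F)) = c1 / (c2 * τ ^ α2 2) := by
      field_simp
    rwa [e] at h3
  set A := coeff α1 G0 / coeff α1 Fb with hAdef
  set B := coeff α2 Fb / coeff α2 G0 with hBdef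
  have hAB := ρ.mul hA hB
  have hee : α1 2 = α2 2 := by
    by_contra hne
    have hlt : α1 2 < α2 2 := lt_of_le_of_ne (he1.trans he2) hne
    have h4 := L_zero_mul ρ hτ (k := α2 2 - α1 2) (by omega) hAB
    have e : τ ^ (α2 2 - α1 2) * (c2 * τ ^ α1 2 / c1 * (c1 / (c2 * τ ^ α2 2))) = 1 := by
      have h5 : τ ^ (α2 2) = τ ^ (α2 2 - α1 2) * τ ^ (α1 2) := by
        rw [← pow_add]
        congr 1
        omega
      rw [h5]
      field_simp
    rw [e] at h4
    exact one_ne_zero (ρ.fn ρ.one h4)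
  have heu1 : α1 2 = u := by omega
  have heu2 : α2 2 = u := by omega
  rw [heu1] at hA
  rw [heu2] at hB
  refine ⟨c1, Fb, C B * G0, hc1, hLF, ?_, hFb, ?_, ?_, ?_⟩
  · have h3 := Pl.LP.C_mul hLG hB
    have e : C (c1 / (c2 * τ ^ u)) * (C c2 * scz τ F) = C (c1 / τ ^ u) * scz τ F := by
      rw [← mul_assoc, ← C_mul]
      congr 2
      field_simp
    rwa [e] at h3
  all_goals
    have hGB : ∀ α, ρ.L (c1 / τ ^ u * (τ ^ α 2 * coeff α F)) (coeff α (C B * G0)) := fun α => by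
      rw [coeff_C_mul]
      have h3 := ρ.mul hB (hG α)
      have e : c1 / (c2 * τ ^ u) * (c2 * (τ ^ α 2 * coeff α F)) =
          c1 / τ ^ u * (τ ^ α 2 * coeff α F) := by
        field_simp
      rwa [e] at h3
  · intro α hα
    by_contra hlt
    push Not at hlt
    apply hα
    have h3 := L_zero_mul ρ hτ (k := u - α 2) (by omega) (hGB α)
    have e : τ ^ (u - α 2) * (c1 / τ ^ u * (τ ^ α 2 * coeff α F)) = c1 * coeff α F := by
      have h5 : τ ^ u = τ ^ (u - α 2) * τ ^ (α 2) := by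
        rw [← pow_add]
        congr 1
        omega
      rw [h5]
      field_simp
    rw [e] at h3
    exact ρ.fn (hF α) h3
  · intro α hα
    by_contra hlt
    push Not at hlt
    apply hα
    have h3 := L_zero_mul ρ hτ (k := α 2 - u) (by omega) (hF α)
    have e : τ ^ (α 2 - u) * (c1 * coeff α F) = c1 / τ ^ u * (τ ^ α 2 * coeff α F) := by
      have h5 : τ ^ α 2 = τ ^ (α 2 - u) * τ ^ u := by
        rw [← pow_add]
        congr 1
        omega
      rw [h5]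
      field_simp
    rw [e] at h3
    exact ρ.fn (hGB α) h3
  · intro α hα
    have h3 := hGB α
    have e : c1 / τ ^ u * (τ ^ α 2 * coeff α F) = c1 * coeff α F := by
      rw [hα]
      field_simp
    rw [e] at h3
    exact ρ.fn (hF α) h3

/-- the neck -/
theorem neck (ρ : Pl) {τ : ℂ} (hτ0 : τ ≠ 0) {u : ℕ} {F Fb G : R3} {c : ℂ}
    (h : ρ.LP (C c * F) Fb) (h' : ρ.LP (C (c / τ ^ u) * scz τ F) G) {b : ℂ} (hb0 : b ≠ 0)
    (hb : ρ.L b 0) (hb' : ρ.L (τ / b) 0) {N : R3}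
    (hN : ∀ α, coeff α N = if α 2 = u then coeff α Fb else 0) :
    ρ.LP (C (c / b ^ u) * scz b F) N := by
  intro α
  have hF : ρ.L (c * coeff α F) (coeff α Fb) := by
    have := h α
    rwa [coeff_C_mul] at this
  have hG : ρ.L (c / τ ^ u * (τ ^ α 2 * coeff α F)) (coeff α G) := by
    have := h' α
    rwa [coeff_C_mul, coeff_scz] at this
  rw [coeff_C_mul, coeff_scz, hN α]
  rcases lt_trichotomy (α 2) u with hlt | heq | hgt
  · rw [if_neg (by omega)]
    have h3 := L_zero_mul ρ hb' (k := u - α 2) (by omega) hG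
    have e : (τ / b) ^ (u - α 2) * (c / τ ^ u * (τ ^ α 2 * coeff α F)) =
        c / b ^ u * (b ^ α 2 * coeff α F) := by
      have h5 : τ ^ u = τ ^ (u - α 2) * τ ^ (α 2) := by
        rw [← pow_add]
        congr 1
        omega
      have h6 : b ^ u = b ^ (u - α 2) * b ^ (α 2) := by
        rw [← pow_add]
        congr 1
        omega
      rw [h5, h6, div_pow]
      field_simp
    rwa [e] at h3
  · rw [if_pos heq, heq]
    have e : c / b ^ u * (b ^ u * coeff α F) = c * coeff α F := by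
      field_simp
    rw [e]
    exact hF
  · rw [if_neg (by omega)]
    have h3 := L_zero_mul ρ hb (k := α 2 - u) (by omega) hF
    have e : b ^ (α 2 - u) * (c * coeff α F) = c / b ^ u * (b ^ α 2 * coeff α F) := by
      have h5 : b ^ α 2 = b ^ (α 2 - u) * b ^ u := by
        rw [← pow_add]
        congr 1
        omega
      rw [h5]
      field_simp
    rwa [e] at h3

end Pool.Agent.Work.MP_0421d9_ag.SM
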