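import Pool.Agent.Work.MP_0421d9_ag.SM0

/-!
Strip data (definitions).
-/

set_option linter.unusedSectionVars false
set_option linter.unusedVariables false

namespace Pool.Agent.Work.MP_0421d9_ag.SM

open MvPolynomial Module

/-- strip data -/
structure Strip (t : ℕ) (P Q T R : R2) (x ζ : Fin (2 * t + 1) → ℂ) : Prop where
  hP : P.IsHomogeneous t
  hQ : Q.IsHomogeneous t
  hT : T.IsHomogeneous (t + 1)
  hR : R.IsHomogeneous (t + 1)
  hx : Function.Injective x
  hdet : P * R - Q * T = ∏ j, (X 0 - C (x j) * X 1)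
  hPx : ∀ j, eval ![x j, 1] P ≠ 0
  hT' : ∀ j, eval ![x j, 1] T = eval ![x j, 1] P * ζ j
  hR' : ∀ j, eval ![x j, 1] R = eval ![x j, 1] Q * ζ j

/-- the points of the strip -/
def sp {t : ℕ} (x ζ : Fin (2 * t + 1) → ℂ) (j : Fin (2 * t + 1)) : V3 := ![x j, 1, ζ j]

end Pool.Agent.Work.MP_0421d9_ag.SM
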