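import Pool.Agent.Work.MP_0421d9_ag.SBC
import Pool.Agent.Work.MP_0421d9_ag.SStripDef

/-!
The part of the limit curve in the strip: smoothness outside the points, tangents at the points.
-/

set_option linter.unusedSectionVars false
set_option linter.unusedVariables false

namespace Pool.Agent.Work.MP_0421d9_ag.SM

open MvPolynomial Module

namespace Side

theorem eval_emb (P : R2) (v : V3) : eval v (emb P) = eval ![v 0, v 1] P := by
  unfold emb
  rw [eval_aeval_gen]
  congr 2
  funext i
  fin_cases i <;> simp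

theorem emb_isHomogeneous {P : R2} {n : ℕ} (h : P.IsHomogeneous n) : (emb P).IsHomogeneous n := by
  unfold emb
  have h1 := h.aeval (![X 0, X 1] : Fin 2 → R3) (n := 1) (fun i => by
    fin_cases i
    · exact isHomogeneous_X _ _
    · exact isHomogeneous_X _ _)
  rwa [one_mul] at h1

theorem pderiv_emb_two (P : R2) : pderiv 2 (emb P) = 0 := by
  unfold emb
  rw [pderiv_aeval, Fin.sum_univ_two]
  simp only [Matrix.cons_val]
  rw [pderiv_X_of_ne (by decide), pderiv_X_of_ne (by decide)]
  simp

theorem eval_onS (P Q T R : R2) (G : R4) (v : V3) :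
    eval v (onS P Q T R G) = eval (pt ![eval ![v 0, v 1] P * v 2 - eval ![v 0, v 1] T,
      eval ![v 0, v 1] Q * v 2 - eval ![v 0, v 1] R] ![v 0, v 1]) G := by
  unfold onS
  rw [eval_aeval_gen]
  congr 2
  funext i
  fin_cases i <;> simp [pt, eval_emb]

theorem onS_isHomogeneous {t u β : ℕ} {P Q T R : R2} (hP : P.IsHomogeneous t)
    (hQ : Q.IsHomogeneous t) (hT : T.IsHomogeneous (t + 1)) (hR : R.IsHomogeneous (t + 1))
    {Φ : R4} (h : BiHom u β Φ) : (onS P Q T R Φ).IsHomogeneous (u * (t + 1) + β) := by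
  have hU : (emb P * X 2 - emb T : R3).IsHomogeneous (t + 1) :=
    ((emb_isHomogeneous hP).mul (isHomogeneous_X _ _)).sub (emb_isHomogeneous hT)
  have hV : (emb Q * X 2 - emb R : R3).IsHomogeneous (t + 1) :=
    ((emb_isHomogeneous hQ).mul (isHomogeneous_X _ _)).sub (emb_isHomogeneous hR)
  unfold onS
  rw [Φ.as_sum, map_sum]
  apply IsHomogeneous.sum
  intro α hα
  have h1 := h α (MvPolynomial.mem_support_iff.mp hα)
  rw [aeval_monomial, Finsupp.prod_fintype _ _ (fun i => pow_zero _), Fin.prod_univ_four,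
    algebraMap_eq]
  simp only [Matrix.cons_val]
  have h2 := (((hU.pow (α 0)).mul (hV.pow (α 1))).mul
    (isHomogeneous_X_pow (R := ℂ) (0 : Fin 3) (α 2))).mul
    (isHomogeneous_X_pow (R := ℂ) (1 : Fin 3) (α 3))
  have h3 : (t + 1) * α 0 + (t + 1) * α 1 + α 2 + α 3 = u * (t + 1) + β := by
    rw [← h1.1, ← h1.2]
    ring
  rw [h3] at h2
  exact h2.C_mul _

theorem pderiv_onS (P Q T R : R2) (G : R4) (j : Fin 3) : pderiv j (onS P Q T R G) =
    onS P Q T R (pderiv 0 G) * pderiv j (emb P * X 2 - emb T) +
    onS P Q T R (pderiv 1 G) * pderiv j (emb Q * X 2 - emb R) +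
    onS P Q T R (pderiv 2 G) * pderiv j (X 0) + onS P Q T R (pderiv 3 G) * pderiv j (X 1) := by
  unfold onS
  rw [pderiv_aeval, Fin.sum_univ_four]
  simp only [Matrix.cons_val]

theorem pderiv_UV (P T : R2) : pderiv 2 (emb P * X 2 - emb T : R3) = emb P := by
  rw [map_sub, pderiv_mul, pderiv_emb_two, pderiv_emb_two, pderiv_X_self]
  ring

theorem euler_zero {G : R3} {n : ℕ} (hG : G.IsHomogeneous n) (hn : 1 ≤ n) {v : V3}
    (h : ∀ k, eval v (pderiv k G) = 0) : eval v G = 0 := by
  have h1 := eval_dir_self hG v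
  rw [dir_apply, map_sum] at h1
  have h2 : ∑ x, eval v (C (v x) * pderiv x G) = 0 := by
    refine Finset.sum_eq_zero fun x _ => ?_
    rw [map_mul, h x, mul_zero]
  rw [h2] at h1
  exact (mul_eq_zero.mp h1.symm).resolve_left (by exact_mod_cast (by omega : n ≠ 0))

theorem onC_isHomogeneous {t u β : ℕ} {P Q : R2} (hP : P.IsHomogeneous t)
    (hQ : Q.IsHomogeneous t) {Φ : R4} (h : BiHom u β Φ) :
    (onC P Q Φ).IsHomogeneous (u * t + β) := by
  unfold onC
  rw [Φ.as_sum, map_sum]
  apply IsHomogeneous.sum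
  intro α hα
  have h1 := h α (MvPolynomial.mem_support_iff.mp hα)
  rw [aeval_monomial, Finsupp.prod_fintype _ _ (fun i => pow_zero _), Fin.prod_univ_four,
    algebraMap_eq]
  simp only [Matrix.cons_val]
  have h2 := (((hP.pow (α 0)).mul (hQ.pow (α 1))).mul
    (isHomogeneous_X_pow (R := ℂ) (0 : Fin 2) (α 2))).mul
    (isHomogeneous_X_pow (R := ℂ) (1 : Fin 2) (α 3))
  have h3 : t * α 0 + t * α 1 + α 2 + α 3 = u * t + β := by
    rw [← h1.1, ← h1.2]
    ring
  rw [h3] at h2
  exact h2.C_mul _

/-- two linear equations with nonzero determinant -/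
theorem cramer {a b c d X Y : ℂ} (hd : a * d - b * c ≠ 0) (h1 : a * X + b * Y = 0)
    (h2 : c * X + d * Y = 0) : X = 0 ∧ Y = 0 := by
  constructor
  · have h : (a * d - b * c) * X = 0 := by linear_combination d * h1 - b * h2
    exact (mul_eq_zero.mp h).resolve_left hd
  · have h : (a * d - b * c) * Y = 0 := by linear_combination a * h2 - c * h1
    exact (mul_eq_zero.mp h).resolve_left hd

theorem hc_zero_translate (q : V3) (f : R3) :
    homogeneousComponent 0 (translate q f) = C (eval q f) := by
  rw [homogeneousComponent_zero]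
  have h2 := eval_translate q 0 f
  rw [add_zero, eval_zero, constantCoeff_eq] at h2
  rw [h2]

theorem hc_one_translate (q : V3) (f : R3) :
    homogeneousComponent 1 (translate q f) = lin (fun k => eval q (pderiv k f)) := by
  induction f using MvPolynomial.induction_on with
  | C a =>
    have h1 : translate q (C a) = C a := by
      unfold translate
      rw [algHom_C, algebraMap_eq]
    rw [h1, homogeneousComponent_of_mem (isHomogeneous_C _ a), if_neg (by decide)]
    simp only [pderiv_C, map_zero]
    exact lin_zero.symm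
  | add f g hf hg =>
    have h1 : translate q (f + g) = translate q f + translate q g := by
      unfold translate
      rw [map_add]
    rw [h1, map_add, hf, hg, ← lin_add]
    congr 1
    funext k
    rw [Pi.add_apply, map_add, map_add]
  | mul_X f i hf =>
    have h1 : translate q (f * X i) = C (q i) * translate q f + X i * translate q f := by
      rw [translate_mul]
      unfold translate
      rw [aeval_X]
      ring
    have h2 : homogeneousComponent 1 (X i * translate q f) = X i * C (eval q f) := by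
      have h3 := homogeneousComponent_mul (isHomogeneous_X ℂ i) 0 (translate q f)
      rw [add_zero, hc_zero_translate] at h3
      exact h3
    rw [h1, map_add, homogeneousComponent_C_mul, hf, h2]
    have h4 : (X i : R3) = lin (Pi.single i 1) := by
      unfold lin
      rw [Finset.sum_eq_single i]
      · simp
      · intro l _ hl
        simp [hl]
      · intro hk
        exact absurd (Finset.mem_univ i) hk
    rw [h4, mul_comm (lin (Pi.single i 1)), ← lin_smul, ← lin_smul, ← lin_add]
    congr 1
    funext k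
    rw [Pi.add_apply, Pi.smul_apply, Pi.smul_apply, ← h4, pderiv_mul, map_add, map_mul, map_mul,
      eval_X, smul_eq_mul, smul_eq_mul]
    by_cases hk : k = i
    · rw [hk, pderiv_X_self, Pi.single_eq_same, map_one]
      ring
    · rw [pderiv_X_of_ne (Ne.symm hk), Pi.single_eq_of_ne hk, map_zero]
      ring

theorem hc_pow_translate {q : V3} {f : R3} (hf : eval q f = 0) (n : ℕ) :
    homogeneousComponent n (translate q (f ^ n)) =
      (homogeneousComponent 1 (translate q f)) ^ n := by
  induction n with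
  | zero =>
    rw [pow_zero, pow_zero, hc_zero_translate, map_one, C_1]
  | succ n ih =>
    rw [pow_succ, translate_mul, hc_mul_lowest (vanishTo_pow hf n) (vanishTo_one_iff'.mpr hf), ih,
      pow_succ]

/-- the leading term of `Φ (U, V; x, y)` at a zero of `U` and `V` -/
theorem hc_aeval {u β : ℕ} {Φ : R4} (hΦ : BiHom u β Φ) {q : V3} {U V : R3} (hU : eval q U = 0)
    (hV : eval q V = 0) :
    homogeneousComponent u (translate q (aeval ![U, V, X 0, X 1] Φ)) =
      aeval ![homogeneousComponent 1 (translate q U), homogeneousComponent 1 (translate q V),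
        C (q 0), C (q 1)] Φ := by
  conv_lhs => rw [Φ.as_sum]
  conv_rhs => rw [Φ.as_sum]
  have h0 : ∀ (s : Finset (Fin 4 →₀ ℕ)) (f : (Fin 4 →₀ ℕ) → R3),
      translate q (∑ α ∈ s, f α) = ∑ α ∈ s, translate q (f α) := by
    intro s f
    unfold translate
    rw [map_sum]
  rw [map_sum, map_sum, h0, map_sum]
  refine Finset.sum_congr rfl fun α hα => ?_
  have h1 := (hΦ α (MvPolynomial.mem_support_iff.mp hα)).1
  rw [aeval_monomial, aeval_monomial, Finsupp.prod_fintype _ _ (fun i => pow_zero _),
    Finsupp.prod_fintype _ _ (fun i => pow_zero _), Fin.prod_univ_four, Fin.prod_univ_four,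
    algebraMap_eq]
  simp only [Matrix.cons_val]
  set c := coeff α Φ
  have h2 : (C c * (U ^ α 0 * V ^ α 1 * X 0 ^ α 2 * X 1 ^ α 3) : R3) =
      U ^ α 0 * V ^ α 1 * (C c * (X 0 ^ α 2 * X 1 ^ α 3)) := by ring
  rw [h2, translate_mul]
  have h3 : u = α 0 + α 1 + 0 := by omega
  conv_lhs => rw [h3]
  rw [hc_mul_lowest (vanishTo_mul (vanishTo_pow hU _) (vanishTo_pow hV _))
    (fun k hk => absurd hk (Nat.not_lt_zero k)), translate_mul,
    hc_mul_lowest (vanishTo_pow hU _) (vanishTo_pow hV _), hc_pow_translate hU,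
    hc_pow_translate hV, hc_zero_translate]
  simp only [map_mul, map_pow, eval_C, eval_X]
  ring

theorem pderiv_emb_zero (P : R2) : pderiv 0 (emb P) = emb (pderiv 0 P) := by
  unfold emb
  rw [pderiv_aeval, Fin.sum_univ_two]
  simp only [Matrix.cons_val]
  rw [pderiv_X_self, pderiv_X_of_ne (by decide), mul_one, mul_zero, add_zero]

theorem eval_pderiv_UV (P T : R2) (q : V3) : eval q (pderiv 0 (emb P * X 2 - emb T : R3)) =
    eval ![q 0, q 1] (pderiv 0 P) * q 2 - eval ![q 0, q 1] (pderiv 0 T) := by
  rw [map_sub, pderiv_mul, pderiv_emb_zero, pderiv_emb_zero, pderiv_X_of_ne (by decide), mul_zero,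
    add_zero, map_sub, map_mul, eval_emb, eval_emb, eval_X]

end Side

open Side

theorem Strip.eval_det {t : ℕ} {P Q T R : R2} {x ζ : Fin (2 * t + 1) → ℂ}
    (S : Strip t P Q T R x ζ) (y : V2) : eval y P * eval y R - eval y Q * eval y T =
      ∏ j, (y 0 - x j * y 1) := by
  have h := congrArg (eval y) S.hdet
  rw [map_sub, map_mul, map_mul, map_prod] at h
  rw [h]
  refine Finset.prod_congr rfl fun j _ => ?_
  rw [map_sub, map_mul, eval_X, eval_X, eval_C]

theorem Strip.smooth_out {t : ℕ} {P Q T R : R2} {x ζ : Fin (2 * t + 1) → ℂ}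
    (S : Strip t P Q T R x ζ) {u β : ℕ} (hu : 1 ≤ u) {Φ : R4} (hΦ : BiHom u β Φ)
    (hsm : SmoothΦ Φ) (hs : ∀ j, eval ![x j, 1] (onC P Q Φ) ≠ 0) {v : V3}
    (hv : v 0 ≠ 0 ∨ v 1 ≠ 0) (hcr : ∀ j, cr (sp x ζ j) v ≠ 0) :
    ∃ k, eval v (pderiv k (onS P Q T R Φ)) ≠ 0 := by
  by_contra hcon
  push Not at hcon
  have hG := onS_isHomogeneous S.hP S.hQ S.hT S.hR hΦ
  have hG0 : eval v (onS P Q T R Φ) = 0 := euler_zero hG (by nlinarith) hcon
  set y : V2 := ![v 0, v 1] with hy
  have hyne : y ≠ 0 := by
    intro h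
    rcases hv with h1 | h1
    · exact h1 (congrFun h 0)
    · exact h1 (congrFun h 1)
  set U := eval y P * v 2 - eval y T with hU
  set V := eval y Q * v 2 - eval y R with hV
  have hdet := S.eval_det y
  by_cases hΔ : ∏ j, (y 0 - x j * y 1) = 0
  · obtain ⟨j, _, hj⟩ := Finset.prod_eq_zero_iff.mp hΔ
    set c := y 1 with hc
    have hc0 : c ≠ 0 := by
      intro h0
      apply hyne
      rw [h0, mul_zero, sub_zero] at hj
      ext i
      fin_cases i
      · exact hj
      · exact h0
    have hyj : y = c • ![x j, 1] := by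
      ext i
      fin_cases i
      · simp only [Fin.zero_eta, Pi.smul_apply, Matrix.cons_val_zero, smul_eq_mul]
        linear_combination hj
      · simp [hc]
    have hμ : v 2 - c * ζ j ≠ 0 := by
      intro h0
      apply hcr j
      have h1 : v 0 = c * x j := by
        have := congrFun hyj 0
        simpa [hy] using this
      have h2 : v 1 = c := rfl
      have h3 : v 2 = c * ζ j := by linear_combination h0
      ext l
      fin_cases l <;> simp [cr, sp, h1, h2, h3] <;> ring
    have hT1 : eval y T = eval y P * (c * ζ j) := by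
      rw [hyj, eval_smul_of_hom S.hT, eval_smul_of_hom S.hP, S.hT' j]
      ring
    have hR1 : eval y R = eval y Q * (c * ζ j) := by
      rw [hyj, eval_smul_of_hom S.hR, eval_smul_of_hom S.hQ, S.hR' j]
      ring
    have h1 : (![U, V] : V2) = (v 2 - c * ζ j) • ![eval y P, eval y Q] := by
      ext i
      fin_cases i
      · simp only [Fin.zero_eta, Pi.smul_apply, Matrix.cons_val_zero, smul_eq_mul]
        rw [hU, hT1]
        ring
      · simp only [Fin.mk_one, Pi.smul_apply, Matrix.cons_val_one, smul_eq_mul]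
        rw [hV, hR1]
        simp
        ring
    rw [eval_onS] at hG0
    change eval (pt ![U, V] y) Φ = 0 at hG0
    rw [h1, eval_pt_smul hΦ.degUV, ← eval_onC, hyj,
      eval_smul_of_hom (onC_isHomogeneous S.hP S.hQ hΦ)] at hG0
    exact mul_ne_zero (pow_ne_zero _ hμ) (mul_ne_zero (pow_ne_zero _ hc0) (hs j)) hG0
  · have hdU : eval y P * V - eval y Q * U ≠ 0 := by
      intro h0
      apply hΔ
      rw [← hdet]
      rw [hU, hV] at h0
      linear_combination -h0
    -- the partial derivatives of `Φ` at the image point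
    have hw : ∀ H : R4, eval v (onS P Q T R H) = eval (pt ![U, V] y) H := fun H =>
      eval_onS P Q T R H v
    have e1 : eval y P * eval (pt ![U, V] y) (pderiv 0 Φ) +
        eval y Q * eval (pt ![U, V] y) (pderiv 1 Φ) = 0 := by
      have h1 := hcon 2
      rw [pderiv_onS, pderiv_UV, pderiv_UV, pderiv_X_of_ne (by decide),
        pderiv_X_of_ne (by decide), mul_zero, mul_zero, add_zero, add_zero, map_add, map_mul,
        map_mul, hw, hw, eval_emb, eval_emb] at h1
      linear_combination h1
    have e2 : U * eval (pt ![U, V] y) (pderiv 0 Φ) + V * eval (pt ![U, V] y) (pderiv 1 Φ) = 0 := by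
      have h1 := congrArg (eval (pt ![U, V] y)) (euler_UV hΦ.degUV)
      rw [hw] at hG0
      rw [map_mul, hG0, mul_zero, map_add, map_mul, map_mul, eval_X, eval_X] at h1
      exact h1.symm
    obtain ⟨f1, f2⟩ := cramer (by
      intro h0
      apply hdU
      linear_combination h0) e1 e2
    have f3 : eval (pt ![U, V] y) (pderiv 2 Φ) = 0 := by
      have h1 := hcon 0
      rw [pderiv_onS, pderiv_X_self, pderiv_X_of_ne (by decide), mul_zero, add_zero, mul_one,
        map_add, map_add, map_mul, map_mul, hw, hw, hw, f1, f2, zero_mul, zero_mul, zero_add,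
        zero_add] at h1
      exact h1
    have f4 : eval (pt ![U, V] y) (pderiv 3 Φ) = 0 := by
      have h1 := hcon 1
      rw [pderiv_onS, pderiv_X_self, pderiv_X_of_ne (by decide), mul_zero, add_zero, mul_one,
        map_add, map_add, map_mul, map_mul, hw, hw, hw, f1, f2, zero_mul, zero_mul, zero_add,
        zero_add] at h1
      exact h1
    have hUV : U ≠ 0 ∨ V ≠ 0 := by
      by_contra hcon2
      push Not at hcon2
      apply hdU
      rw [hcon2.1, hcon2.2]
      ring
    obtain ⟨k, hk⟩ := hsm (pt ![U, V] y) hUV hv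
    apply hk
    fin_cases k
    · exact f1
    · exact f2
    · exact f3
    · exact f4

theorem Strip.det_ne {t : ℕ} {P Q T R : R2} {x ζ : Fin (2 * t + 1) → ℂ}
    (S : Strip t P Q T R x ζ) (j : Fin (2 * t + 1)) :
    (eval ![x j, 1] (pderiv 0 P) * ζ j - eval ![x j, 1] (pderiv 0 T)) * eval ![x j, 1] Q -
      (eval ![x j, 1] (pderiv 0 Q) * ζ j - eval ![x j, 1] (pderiv 0 R)) * eval ![x j, 1] P ≠ 0 := by
  have h := congrArg (fun f => eval ![x j, 1] (pderiv 0 f)) S.hdet
  rw [← Finset.mul_prod_erase _ _ (Finset.mem_univ j), map_sub, pderiv_mul, pderiv_mul,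
    pderiv_mul, map_sub, map_sub, pderiv_C_mul, pderiv_X_self, pderiv_X_of_ne (by decide)] at h
  simp only [map_add, map_mul, map_sub, eval_X, eval_C, Matrix.cons_val_zero, Matrix.cons_val_one,
    mul_one, mul_zero, sub_zero, sub_self, zero_mul, add_zero, map_one, one_mul, map_prod,
    map_zero] at h
  rw [S.hT' j, S.hR' j] at h
  have h2 : ∏ i ∈ Finset.univ.erase j, (x j - x i) ≠ 0 := by
    rw [Finset.prod_ne_zero_iff]
    intro i hi
    rw [sub_ne_zero]
    intro h3
    exact (Finset.mem_erase.mp hi).1 (S.hx h3).symm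
  intro h0
  apply h2
  rw [← h]
  linear_combination h0

theorem Strip.no_tang {t : ℕ} {P Q T R : R2} {x ζ : Fin (2 * t + 1) → ℂ}
    (S : Strip t P Q T R x ζ) {u β : ℕ} (hu : 1 ≤ u) {Φ : R4} (hΦ : BiHom u β Φ)
    (hdir : ∀ j, NoDir Φ ![x j, 1]) {j : Fin (2 * t + 1)} {v : V3} (hcr : cr (sp x ζ j) v ≠ 0) :
    ¬ BadDir (u * (t + 1) + β) (onS P Q T R Φ) (sp x ζ j) u v := by
  intro hb
  have hG := onS_isHomogeneous S.hP S.hQ S.hT S.hR hΦ
  set q : V3 := sp x ζ j with hq
  set U : R3 := emb P * X 2 - emb T with hU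
  set V : R3 := emb Q * X 2 - emb R with hV
  have hUh : U.IsHomogeneous (t + 1) :=
    ((emb_isHomogeneous S.hP).mul (isHomogeneous_X _ _)).sub (emb_isHomogeneous S.hT)
  have hVh : V.IsHomogeneous (t + 1) :=
    ((emb_isHomogeneous S.hQ).mul (isHomogeneous_X _ _)).sub (emb_isHomogeneous S.hR)
  have hq01 : (![q 0, q 1] : V2) = ![x j, 1] := rfl
  have hUq : eval q U = 0 := by
    rw [hU, map_sub, map_mul, eval_emb, eval_emb, eval_X, hq01, S.hT' j]
    exact sub_self _
  have hVq : eval q V = 0 := by
    rw [hV, map_sub, map_mul, eval_emb, eval_emb, eval_X, hq01, S.hR' j]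
    exact sub_self _
  set H := homogeneousComponent u (translate q (onS P Q T R Φ)) with hH
  have hHe : H = aeval ![lin (fun k => eval q (pderiv k U)), lin (fun k => eval q (pderiv k V)),
      C (q 0), C (q 1)] Φ := by
    rw [hH]
    unfold onS
    rw [hc_aeval hΦ hUq hVq, hc_one_translate, hc_one_translate]
  have hle : u ≤ u * (t + 1) + β := by nlinarith
  have hHh : H.IsHomogeneous u := homogeneousComponent_isHomogeneous _ _
  -- all partial derivatives of `H` vanish at `v`
  have hHv : ∀ k, eval v (pderiv k H) = 0 := by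
    intro k
    have h1 := hb.2 hu (Pi.single k 1)
    rw [B_taylor hG q hle, mul_comm (lin v ^ (u - 1)), B_lin_mul] at h1
    have h2 : dir (Pi.single k 1) H = pderiv k H := by
      rw [dir_apply, Finset.sum_eq_single k]
      · simp
      · intro l _ hl
        simp [hl]
      · intro hk
        exact absurd (Finset.mem_univ k) hk
    have h3 := (mul_eq_zero.mp h1).resolve_left (by exact_mod_cast Nat.factorial_ne_zero _)
    change B (lin v ^ (u - 1)) (dir (Pi.single k 1) H) = 0 at h3
    rw [h2, B_lin_pow (hHh.pderiv (i := k))] at h3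
    exact (mul_eq_zero.mp h3).resolve_left (by exact_mod_cast Nat.factorial_ne_zero _)
  set a : V3 := fun k => eval q (pderiv k U) with ha
  set b : V3 := fun k => eval q (pderiv k V) with hb'
  set θ : V2 := ![eval v (lin a), eval v (lin b)] with hθ
  have hpart : ∀ k, a k * eval (pt θ ![x j, 1]) (pderiv 0 Φ) +
      b k * eval (pt θ ![x j, 1]) (pderiv 1 Φ) = 0 := by
    intro k
    have h1 := hHv k
    rw [hHe, pderiv_aeval, Fin.sum_univ_four] at h1
    simp only [Matrix.cons_val, pderiv_C, mul_zero, add_zero] at h1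
    rw [map_add, map_mul, map_mul, eval_aeval_gen, eval_aeval_gen] at h1
    have h2 : (fun i => eval v ((![lin a, lin b, C (q 0), C (q 1)] : Fin 4 → R3) i)) =
        pt θ ![x j, 1] := by
      funext i
      fin_cases i <;> simp [pt, hθ, hq, sp]
    have h3 : ∀ c : V3, eval v (pderiv k (lin c)) = c k := by
      intro c
      unfold lin
      rw [map_sum, map_sum, Finset.sum_eq_single k]
      · rw [pderiv_C_mul, pderiv_X_self, mul_one, eval_C]
      · intro l _ hl
        rw [pderiv_C_mul, pderiv_X_of_ne hl, mul_zero, map_zero]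
      · intro hk
        exact absurd (Finset.mem_univ k) hk
    rw [h2, h3, h3] at h1
    linear_combination h1
  have hdet := S.det_ne j
  have ha2 : a 2 = eval ![x j, 1] P := by
    rw [ha]
    change eval q (pderiv 2 (emb P * X 2 - emb T)) = _
    rw [pderiv_UV, eval_emb, hq01]
  have hb2 : b 2 = eval ![x j, 1] Q := by
    rw [hb']
    change eval q (pderiv 2 (emb Q * X 2 - emb R)) = _
    rw [pderiv_UV, eval_emb, hq01]
  have ha0 : a 0 = eval ![x j, 1] (pderiv 0 P) * ζ j - eval ![x j, 1] (pderiv 0 T) := by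
    rw [ha]
    change eval q (pderiv 0 (emb P * X 2 - emb T)) = _
    rw [eval_pderiv_UV, hq01]
    rfl
  have hb0 : b 0 = eval ![x j, 1] (pderiv 0 Q) * ζ j - eval ![x j, 1] (pderiv 0 R) := by
    rw [hb']
    change eval q (pderiv 0 (emb Q * X 2 - emb R)) = _
    rw [eval_pderiv_UV, hq01]
    rfl
  have hD : a 0 * b 2 - b 0 * a 2 ≠ 0 := by
    rw [ha0, hb0, ha2, hb2]
    exact hdet
  obtain ⟨f1, f2⟩ := cramer hD (hpart 0) (hpart 2)
  have hθ0 : θ ≠ 0 := by
    intro h0
    have g1 : eval v (lin a) = 0 := congrFun h0 0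
    have g2 : eval v (lin b) = 0 := congrFun h0 1
    have k1 : eval q (lin a) = 0 := by
      have h1 := eval_dir_self hUh q
      rw [hUq, mul_zero, dir_apply, map_sum] at h1
      rw [eval_lin]
      rw [← h1]
      refine Finset.sum_congr rfl fun k _ => ?_
      rw [map_mul, eval_C, mul_comm]
    have k2 : eval q (lin b) = 0 := by
      have h1 := eval_dir_self hVh q
      rw [hVq, mul_zero, dir_apply, map_sum] at h1
      rw [eval_lin]
      rw [← h1]
      refine Finset.sum_congr rfl fun k _ => ?_
      rw [map_mul, eval_C, mul_comm]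
    rw [eval_lin, Fin.sum_univ_three] at g1 g2 k1 k2
    have hq1 : q 1 = 1 := rfl
    obtain ⟨m1, m2⟩ := cramer (X := v 0 - v 1 * q 0) (Y := v 2 - v 1 * q 2)
      (a := a 0) (b := a 2) (c := b 0) (d := b 2) (by
        intro h1
        apply hD
        linear_combination h1)
      (by linear_combination g1 - v 1 * k1 + a 1 * v 1 * hq1)
      (by linear_combination g2 - v 1 * k2 + b 1 * v 1 * hq1)
    apply hcr
    have n0 : v 0 = v 1 * q 0 := by linear_combination m1
    have n2 : v 2 = v 1 * q 2 := by linear_combination m2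
    ext l
    fin_cases l <;> simp [cr, n0, n2, hq1] <;> ring
  rcases hdir j θ hθ0 with h1 | h1
  · exact h1 f1
  · exact h1 f2

end Pool.Agent.Work.MP_0421d9_ag.SM
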