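import Pool.Agent.Work.MP_0421d9_ag.SPl

/-!
Specialisation of bad points along a place.
-/

set_option linter.unusedSectionVars false

namespace Pool.Agent.Work.MP_0421d9_ag.SM

open MvPolynomial Module

/-- value of the first nonvanishing term -/
theorem value_sum (P : Pl) {α β c : ℂ} (hβ0 : β ≠ 0) (hβ : P.L β 0) (hα : P.L α c) (hc : c ≠ 0)
    {N k : ℕ} (hk : k ≤ N) (f f' : ℕ → ℂ) (hf : ∀ j, P.L (f j) (f' j))
    (h0 : ∀ j < k, f j = 0)
    (hs : ∑ j ∈ Finset.range (N + 1), β ^ j * α ^ (N - j) * (N.choose j : ℂ) * f j = 0) :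
    f' k = 0 := by
  have h1 : ∑ i ∈ Finset.range (N + 1 - k),
      β ^ i * α ^ (N - (k + i)) * (N.choose (k + i) : ℂ) * f (k + i) = 0 := by
    have h2 : N + 1 = k + (N + 1 - k) := by omega
    rw [h2, Finset.sum_range_add, Finset.sum_eq_zero, zero_add] at hs
    · have h3 : ∑ x ∈ Finset.range (N + 1 - k), β ^ (k + x) * α ^ (N - (k + x)) *
          (N.choose (k + x) : ℂ) * f (k + x) = β ^ k * ∑ i ∈ Finset.range (N + 1 - k),
          β ^ i * α ^ (N - (k + i)) * (N.choose (k + i) : ℂ) * f (k + i) := by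
        rw [Finset.mul_sum]
        refine Finset.sum_congr rfl fun x _ => ?_
        rw [pow_add]
        ring
      rw [h3] at hs
      exact (mul_eq_zero.mp hs).resolve_left (pow_ne_zero _ hβ0)
    · intro x hx
      rw [h0 x (Finset.mem_range.mp hx), mul_zero]
  have h4 : P.L (∑ i ∈ Finset.range (N + 1 - k),
      β ^ i * α ^ (N - (k + i)) * (N.choose (k + i) : ℂ) * f (k + i))
      (∑ i ∈ Finset.range (N + 1 - k),
      0 ^ i * c ^ (N - (k + i)) * (N.choose (k + i) : ℂ) * f' (k + i)) := by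
    apply P.sum
    intro i _
    exact P.mul (P.mul (P.mul (P.pow hβ i) (P.pow hα _)) (P.natCast _)) (hf _)
  rw [h1] at h4
  have h5 := P.fn h4 P.zero
  rw [Finset.sum_eq_single 0] at h5
  · rw [pow_zero, one_mul, add_zero] at h5
    rcases mul_eq_zero.mp h5 with h6 | h6
    · exfalso
      rcases mul_eq_zero.mp h6 with h7 | h7
      · exact pow_ne_zero _ hc h7
      · exact (Nat.choose_pos hk).ne' (by exact_mod_cast h7)
    · exact h6
  · intro i _ hi
    rw [zero_pow hi]
    ring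
  · intro h
    exact absurd (Finset.mem_range.mpr (by omega)) h

/-- normalised direction: finite, nonzero, independent of `p'` -/
theorem exists_direction (P : Pl) {p' v : V3} {i : Fin 3}
    (hi : p' i ≠ 0) (hv : v ≠ 0) (hvi : v i = 0) :
    ∃ c : ℂ, c ≠ 0 ∧ ∃ b : V3, (∀ k, P.L (c * v k) (b k)) ∧ b ≠ 0 ∧ cr p' b ≠ 0 := by
  obtain ⟨c, hc, b, hb0, hb⟩ := P.exists_scale_vec v hv
  refine ⟨c, hc, b, hb, hb0, ?_⟩
  intro hcr
  have hbi : b i = 0 := by
    have h1 := hb i
    rw [hvi, mul_zero] at h1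
    exact P.fn h1 P.zero
  have hp0 : p' ≠ 0 := by
    intro h
    apply hi
    rw [h]
    rfl
  obtain ⟨s, hs⟩ := exists_smul_of_cr_eq_zero hp0 hcr
  have h2 : s * p' i = 0 := by
    have := congrFun hs i
    rw [hbi, Pi.smul_apply, smul_eq_mul] at this
    exact this.symm
  have h3 : s = 0 := (mul_eq_zero.mp h2).resolve_right hi
  apply hb0
  rw [hs, h3, zero_smul]

/-- linearity in the last vector -/
theorem B_lin_last (A F : R3) (w : V3) : B (A * lin w) F = ∑ k, w k * B (A * X k) F := by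
  unfold lin
  rw [Finset.mul_sum, map_sum, LinearMap.sum_apply]
  refine Finset.sum_congr rfl fun k _ => ?_
  rw [← B_C_mul_left]
  congr 2
  ring

theorem lin_comb (α β : ℂ) (p w : V3) :
    lin (α • p + β • w) = C β * lin w + C α * lin p := by
  rw [lin_add, lin_smul, lin_smul, add_comm]

/-- expansion of a power of a linear form -/
theorem B_lin_comb_pow (α β : ℂ) (p w : V3) (N : ℕ) (A F : R3) :
    B (lin (α • p + β • w) ^ N * A) F = ∑ j ∈ Finset.range (N + 1),
      β ^ j * α ^ (N - j) * (N.choose j : ℂ) * B (lin p ^ (N - j) * (lin w ^ j * A)) F := by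
  rw [lin_comb, add_pow, Finset.sum_mul, map_sum, LinearMap.sum_apply]
  refine Finset.sum_congr rfl fun j _ => ?_
  rw [← B_C_mul_left]
  congr 2
  rw [mul_pow, mul_pow]
  simp only [map_mul, map_pow, map_natCast]
  ring

/-- a singular point which specialises to one of the multiple points -/
theorem sing_spec (P : Pl) {d m : ℕ} {F G : R3} (hF : F.IsHomogeneous d) (hd : 1 ≤ d)
    (hm : m ≤ d) (h : P.LP F G) {p p' q q' : V3} (hp : ∀ k, P.L (p k) (p' k))
    (hq : ∀ k, P.L (q k) (q' k)) (hp' : p' ≠ 0) (hq' : q' ≠ 0) (hv : VanishTo F p m)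
    (hcr : cr p q ≠ 0) (hcr' : cr p' q' = 0) (hs : ∀ k, eval q (pderiv k F) = 0) :
    ∃ u, cr p' u ≠ 0 ∧ BadDir d G p' m u := by
  obtain ⟨i, hi⟩ : ∃ i, p' i ≠ 0 := by
    by_contra hcon
    push Not at hcon
    exact hp' (funext hcon)
  have hpi : p i ≠ 0 := by
    intro h0
    apply hi
    have h1 := hp i
    rw [h0] at h1
    exact P.fn h1 P.zero
  obtain ⟨c, hc⟩ := exists_smul_of_cr_eq_zero hp' hcr'
  have hc0 : c ≠ 0 := by
    intro h0
    apply hq'
    rw [hc, h0, zero_smul]
  have hα : P.L (q i / p i) c := by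
    have h1 := P.div (hq i) (hp i) hi
    have h2 : q' i / p' i = c := by
      rw [hc, Pi.smul_apply, smul_eq_mul, mul_div_assoc, div_self hi, mul_one]
    rwa [h2] at h1
  set α := q i / p i with hαd
  set v : V3 := q - α • p with hvd
  have hvi : v i = 0 := by
    rw [hvd, Pi.sub_apply, Pi.smul_apply, smul_eq_mul, hαd, div_mul_cancel₀ _ hpi, sub_self]
  have hv0 : v ≠ 0 := by
    intro h0
    apply hcr
    have h1 : q = α • p := sub_eq_zero.mp h0
    rw [h1]
    ext l
    fin_cases l <;> simp [cr] <;> ring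
  obtain ⟨c1, hc1, b, hb, hb0, hbcr⟩ := exists_direction P hi hv0 hvi
  have hvL : ∀ k, P.L (v k) 0 := by
    intro k
    have h1 : P.L (q k + -(α * p k)) (q' k + -(c * p' k)) :=
      P.add (hq k) (P.neg (P.mul hα (hp k)))
    have h2 : q' k + -(c * p' k) = 0 := by
      rw [hc, Pi.smul_apply, smul_eq_mul, add_neg_cancel]
    rw [h2] at h1
    have h3 : v k = q k + -(α * p k) := by
      rw [hvd, Pi.sub_apply, Pi.smul_apply, smul_eq_mul, sub_eq_add_neg]
    rwa [h3]
  obtain ⟨k, hk⟩ : ∃ k, b k ≠ 0 := by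
    by_contra hcon
    push Not at hcon
    exact hb0 (funext hcon)
  have hβ : P.L c1⁻¹ 0 := by
    have h1 := P.div (hvL k) (hb k) hk
    rw [zero_div] at h1
    have hvk : v k ≠ 0 := by
      intro h0
      apply hk
      have h2 := hb k
      rw [h0, mul_zero] at h2
      exact P.fn h2 P.zero
    have h2 : v k / (c1 * v k) = c1⁻¹ := by
      field_simp
    rwa [h2] at h1
  have hqe : q = α • p + c1⁻¹ • (c1 • v) := by
    rw [smul_smul, inv_mul_cancel₀ hc1, one_smul, hvd]
    abel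
  have hw : P.LP (lin (c1 • v)) (lin b) := Pl.LP_lin (fun k => by
    rw [Pi.smul_apply, smul_eq_mul]
    exact hb k)
  have hpL : P.LP (lin p) (lin p') := Pl.LP_lin hp
  refine ⟨b, hbcr, ?_, ?_⟩
  · have hFq : eval q F = 0 := by
      have h1 := eval_dir_self hF q
      rw [dir_apply, map_sum] at h1
      have h2 : ∑ x, eval q (C (q x) * pderiv x F) = 0 := by
        refine Finset.sum_eq_zero fun x _ => ?_
        rw [map_mul, hs x, mul_zero]
      rw [h2] at h1
      exact (mul_eq_zero.mp h1.symm).resolve_left (by exact_mod_cast (by omega : d ≠ 0))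
    have h1 : B (lin q ^ d * 1) F = 0 := by
      rw [mul_one, B_lin_pow hF, hFq, mul_zero]
    rw [hqe, B_lin_comb_pow] at h1
    have h2 := value_sum P (inv_ne_zero hc1) hβ hα hc0 hm
      (fun j => B (lin p ^ (d - j) * (lin (c1 • v) ^ j * 1)) F)
      (fun j => B (lin p' ^ (d - j) * (lin b ^ j * 1)) G)
      (fun j => Pl.LP.B ((hpL.pow _).mul ((hw.pow _).mul (Pl.LP_C P.one))) h)
      (fun j hj => B_eq_zero_of_vanishTo hF hv hj (by omega) _) h1
    rwa [mul_one] at h2
  · intro hm1 w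
    rw [← mul_assoc, B_lin_last]
    refine Finset.sum_eq_zero fun k _ => ?_
    have h1 : B (lin q ^ (d - 1) * X k) F = 0 := by
      rw [mul_comm, B_X_mul, B_lin_pow (hF.pderiv (i := k)), hs k, mul_zero]
    rw [hqe, B_lin_comb_pow] at h1
    have h2 := value_sum P (k := m - 1) (N := d - 1) (inv_ne_zero hc1) hβ hα hc0 (by omega)
      (fun j => B (lin p ^ (d - 1 - j) * (lin (c1 • v) ^ j * X k)) F)
      (fun j => B (lin p' ^ (d - 1 - j) * (lin b ^ j * X k)) G)
      (fun j => Pl.LP.B ((hpL.pow _).mul ((hw.pow _).mul (Pl.LP_X k))) h)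
      (fun j hj => B_eq_zero_of_vanishTo hF hv (k := j + 1) (by omega) (by omega) _) h1
    have h3 : d - 1 - (m - 1) = d - m := by omega
    rw [h3] at h2
    have h4 : lin p' ^ (d - m) * lin b ^ (m - 1) * X k =
        lin p' ^ (d - m) * (lin b ^ (m - 1) * X k) := by ring
    rw [h4, h2, mul_zero]

/-- specialisation of a multiple tangent -/
theorem tang_spec (P : Pl) {d m : ℕ} {F G : R3} (hF : F.IsHomogeneous d)
    (hm : m ≤ d) (h : P.LP F G) {p p' : V3} (hp : ∀ k, P.L (p k) (p' k))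
    (hp' : p' ≠ 0) (hv : VanishTo F p m) {u : V3} (hu : cr p u ≠ 0) (hb : BadDir d F p m u) :
    ∃ u', cr p' u' ≠ 0 ∧ BadDir d G p' m u' := by
  obtain ⟨i, hi⟩ : ∃ i, p' i ≠ 0 := by
    by_contra hcon
    push Not at hcon
    exact hp' (funext hcon)
  have hpi : p i ≠ 0 := by
    intro h0
    apply hi
    have h1 := hp i
    rw [h0] at h1
    exact P.fn h1 P.zero
  set s := u i / p i with hsd
  set v : V3 := u - s • p with hvd
  have hvi : v i = 0 := by
    rw [hvd, Pi.sub_apply, Pi.smul_apply, smul_eq_mul, hsd, div_mul_cancel₀ _ hpi, sub_self]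
  have hv0 : v ≠ 0 := by
    intro h0
    apply hu
    have h1 : u = s • p := sub_eq_zero.mp h0
    rw [h1]
    ext l
    fin_cases l <;> simp [cr] <;> ring
  obtain ⟨c1, hc1, b, hb', hb0, hbcr⟩ := exists_direction P hi hv0 hvi
  have hw : P.LP (lin (c1 • v)) (lin b) := Pl.LP_lin (fun k => by
    rw [Pi.smul_apply, smul_eq_mul]
    exact hb' k)
  have hpL : P.LP (lin p) (lin p') := Pl.LP_lin hp
  -- powers of `lin v` and `lin u` agree modulo `lin p`
  have hdvd : ∀ n : ℕ, ∃ R : R3, lin v ^ n = lin u ^ n + lin p * R := by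
    intro n
    have h1 : lin v - lin u ∣ lin v ^ n - lin u ^ n := sub_dvd_pow_sub_pow _ _ _
    obtain ⟨R, hR⟩ := h1
    have h2 : lin v = lin u + C (-s) * lin p := by
      rw [← lin_smul, ← lin_add, hvd, neg_smul, sub_eq_add_neg]
    refine ⟨C (-s) * R, ?_⟩
    have h3 : lin v - lin u = C (-s) * lin p := by
      rw [h2]
      ring
    rw [h3] at hR
    have h4 : lin v ^ n = lin u ^ n + (lin v ^ n - lin u ^ n) := by ring
    rw [h4, hR]
    ring
  have hkill : ∀ A : R3, 1 ≤ m → B (lin p ^ (d - m) * (lin p * A)) F = 0 := by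
    intro A hm1
    have h1 : lin p ^ (d - m) * (lin p * A) = lin p ^ (d - m + 1) * A := by ring
    rw [h1]
    exact B_eq_zero_of_vanishTo hF hv (k := m - 1) (by omega) (by omega) _
  have hc1' : P.LP (C c1 * lin v) (lin b) := by
    rw [← lin_smul]
    exact hw
  refine ⟨b, hbcr, ?_, ?_⟩
  · have h1 : B (lin p ^ (d - m) * lin v ^ m) F = 0 := by
      rcases Nat.eq_zero_or_pos m with h0 | h0
      · have := hb.1
        rw [h0, pow_zero] at this ⊢
        exact this
      · obtain ⟨R, hR⟩ := hdvd m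
        rw [hR, mul_add, map_add, LinearMap.add_apply, hb.1, hkill R h0, add_zero]
    have h2 : P.L (B (lin p ^ (d - m) * (C c1 * lin v) ^ m) F)
        (B (lin p' ^ (d - m) * lin b ^ m) G) := Pl.LP.B ((hpL.pow _).mul (hc1'.pow _)) h
    have h3 : lin p ^ (d - m) * (C c1 * lin v) ^ m =
        C (c1 ^ m) * (lin p ^ (d - m) * lin v ^ m) := by
      rw [map_pow]
      ring
    rw [h3, B_C_mul_left, h1, mul_zero] at h2
    exact P.fn h2 P.zero
  · intro hm1 w
    rw [← mul_assoc, B_lin_last]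
    refine Finset.sum_eq_zero fun k _ => ?_
    have h1 : B (lin p ^ (d - m) * (lin v ^ (m - 1) * X k)) F = 0 := by
      obtain ⟨R, hR⟩ := hdvd (m - 1)
      have h0 : (X k : R3) = lin (Pi.single k 1) := by
        unfold lin
        rw [Finset.sum_eq_single k]
        · simp
        · intro l _ hl
          simp [hl]
        · intro hk
          exact absurd (Finset.mem_univ k) hk
      have h5 : lin p ^ (d - m) * ((lin u ^ (m - 1) + lin p * R) * X k) =
          lin p ^ (d - m) * (lin u ^ (m - 1) * X k) +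
            lin p ^ (d - m) * (lin p * (R * X k)) := by ring
      rw [hR, h5, map_add, LinearMap.add_apply, hkill _ hm1, add_zero, h0]
      exact hb.2 hm1 _
    have h2 : P.L (B (lin p ^ (d - m) * ((C c1 * lin v) ^ (m - 1) * X k)) F)
        (B (lin p' ^ (d - m) * (lin b ^ (m - 1) * X k)) G) :=
      Pl.LP.B ((hpL.pow _).mul ((hc1'.pow _).mul (Pl.LP_X k))) h
    have h3 : lin p ^ (d - m) * ((C c1 * lin v) ^ (m - 1) * X k) =
        C (c1 ^ (m - 1)) * (lin p ^ (d - m) * (lin v ^ (m - 1) * X k)) := by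
      rw [map_pow]
      ring
    rw [h3, B_C_mul_left, h1, mul_zero] at h2
    have h4 := P.fn h2 P.zero
    have h5 : lin p' ^ (d - m) * lin b ^ (m - 1) * X k =
        lin p' ^ (d - m) * (lin b ^ (m - 1) * X k) := by ring
    rw [h5, h4, mul_zero]

theorem eval_smul_of_homogeneous {σ : Type} {f : MvPolynomial σ ℂ} {n : ℕ}
    (hf : f.IsHomogeneous n) (c : ℂ) (q : σ → ℂ) : eval (c • q) f = c ^ n * eval q f := by
  rw [eval_eq, eval_eq, Finset.mul_sum]
  refine Finset.sum_congr rfl fun α hα => ?_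
  have h1 : α.degree = n := by
    by_contra hne
    exact (mem_support_iff.mp hα) (hf.coeff_eq_zero hne)
  have h2 : ∏ i ∈ α.support, (c • q) i ^ α i = c ^ n * ∏ i ∈ α.support, q i ^ α i := by
    have h3 : ∏ i ∈ α.support, (c • q) i ^ α i =
        ∏ i ∈ α.support, (c ^ α i * q i ^ α i) :=
      Finset.prod_congr rfl fun i _ => by rw [Pi.smul_apply, smul_eq_mul, mul_pow]
    rw [h3, Finset.prod_mul_distrib, Finset.prod_pow_eq_pow_sum, ← h1]
    rfl
  rw [h2]
  ring

theorem bad_spec (P : Pl) {ι : Type} {d : ℕ} (hd : 1 ≤ d) {p p' : ι → V3} {m : ι → ℕ}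
    (hm : ∀ i, m i ≤ d) {F G : R3}
    (hF : F ∈ linSys d p m) (h : P.LP F G) (hp : ∀ i k, P.L (p i k) (p' i k))
    (hp' : ∀ i, p' i ≠ 0) (hb : Bad d p m F) : Bad d p' m G := by
  rcases hb with ⟨q, hq0, hq1, hq2⟩ | ⟨i, u, hu, hb⟩
  · obtain ⟨c, hc, b, hb0, hb⟩ := P.exists_scale_vec q hq0
    have hs : ∀ k, eval (c • q) (pderiv k F) = 0 := by
      intro k
      rw [eval_smul_of_homogeneous (hF.1.pderiv (i := k)), hq2 k, mul_zero]
    have hbL : ∀ k, P.L ((c • q) k) (b k) := by
      intro k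
      rw [Pi.smul_apply, smul_eq_mul]
      exact hb k
    by_cases hex : ∃ i, cr (p' i) b = 0
    · obtain ⟨i, hi⟩ := hex
      right
      have hcr : cr (p i) (c • q) ≠ 0 := by
        intro h0
        apply hq1 i
        have h1 : cr (p i) (c • q) = c • cr (p i) q := by
          ext l
          fin_cases l <;> simp [cr] <;> ring
        rw [h1] at h0
        exact (smul_eq_zero.mp h0).resolve_left hc
      obtain ⟨u, hu1, hu2⟩ := sing_spec P hF.1 hd (hm i) h (hp i) hbL (hp' i) hb0 (hF.2 i)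
        hcr hi hs
      exact ⟨i, u, hu1, hu2⟩
    · push Not at hex
      left
      refine ⟨b, hb0, hex, fun k => ?_⟩
      have h1 := (h.pderiv k).eval hbL
      rw [hs k] at h1
      exact P.fn h1 P.zero
  · right
    obtain ⟨u', hu1, hu2⟩ := tang_spec P hF.1 (hm i) h (hp i) (hp' i) (hF.2 i) hu hb
    exact ⟨i, u', hu1, hu2⟩

end Pool.Agent.Work.MP_0421d9_ag.SM
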