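import Pool.Agent.Work.MP_0421d9_ag.SStripDef

/-!
The strip: structure of the forms vanishing at the points of the strip.
-/

set_option linter.unusedSectionVars false
set_option linter.unusedVariables false

namespace Pool.Agent.Work.MP_0421d9_ag.SM

open MvPolynomial Module

namespace Str

/-- scaling of a form -/
theorem aeval_smul_form {σ A : Type} [Fintype σ] [CommRing A] [Algebra ℂ A]
    {G : MvPolynomial σ ℂ} {D : ℕ} (hG : G.IsHomogeneous D) (c : A) (g : σ → A) :
    aeval (fun i => c * g i) G = c ^ D * aeval g G := by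
  rw [G.as_sum, map_sum, map_sum, Finset.mul_sum]
  refine Finset.sum_congr rfl fun α hα => ?_
  rw [aeval_monomial, aeval_monomial, Finsupp.prod_fintype _ _ (fun i => pow_zero _),
    Finsupp.prod_fintype _ _ (fun i => pow_zero _)]
  simp only [mul_pow, Finset.prod_mul_distrib, Finset.prod_pow_eq_pow_sum]
  have h1 : ∑ i, α i = D := by
    have h2 := hG (MvPolynomial.mem_support_iff.mp hα)
    rw [Finsupp.weight_apply, Finsupp.sum_fintype _ _ (fun i => by simp)] at h2
    simpa using h2
  rw [h1]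
  ring

theorem isHom_aeval {σ τ : Type} {F : MvPolynomial σ ℂ} {m n : ℕ} (hF : F.IsHomogeneous m)
    {g : σ → MvPolynomial τ ℂ} (hg : ∀ i, (g i).IsHomogeneous n) :
    (aeval g F).IsHomogeneous (n * m) := hF.aeval g hg

/-- the value at a point of a linear parametrisation -/
theorem aeval_line (a b : V3) (H : R3) :
    (aeval (fun i => Polynomial.C (a i) + Polynomial.X * Polynomial.C (b i)) H : Polynomial ℂ) =
      ∑ k ∈ Finset.range ((translate a H).totalDegree + 1), Polynomial.X ^ k *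
        Polynomial.C (eval b (homogeneousComponent k (translate a H))) := by
  have h1 : (aeval (fun i => Polynomial.C (a i) + Polynomial.X * Polynomial.C (b i)) H :
      Polynomial ℂ) = aeval (fun i => Polynomial.X * Polynomial.C (b i)) (translate a H) := by
    unfold translate
    rw [← AlgHom.comp_apply]
    congr 1
    apply MvPolynomial.algHom_ext
    intro i
    rw [AlgHom.comp_apply, aeval_X, aeval_X, map_add, aeval_X, algHom_C]
    rfl
  rw [h1]
  conv_lhs => rw [← sum_homogeneousComponent (translate a H)]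
  rw [map_sum]
  refine Finset.sum_congr rfl fun k _ => ?_
  rw [aeval_smul_form (homogeneousComponent_isHomogeneous k _)]
  congr 1
  have h2 : ∀ F : R3, (aeval (fun i => Polynomial.C (b i)) F : Polynomial ℂ) =
      Polynomial.C (eval b F) := by
    intro F
    induction F using MvPolynomial.induction_on with
    | C c => rw [algHom_C, eval_C]; rfl
    | add p q hp hq => rw [map_add, map_add, hp, hq, Polynomial.C_add]
    | mul_X p n hp => rw [map_mul, map_mul, hp, aeval_X, eval_X, Polynomial.C_mul]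
  exact h2 _

theorem X_pow_dvd_line {a : V3} {w : ℕ} {H : R3} (h : VanishTo H a w) (b : V3) :
    (Polynomial.X : Polynomial ℂ) ^ w ∣
      aeval (fun i => Polynomial.C (a i) + Polynomial.X * Polynomial.C (b i)) H := by
  rw [aeval_line]
  refine Finset.dvd_sum fun k _ => ?_
  by_cases hk : k < w
  · rw [h k hk, map_zero, Polynomial.C_0, mul_zero]
    exact dvd_zero _
  · exact Dvd.dvd.mul_right (pow_dvd_pow _ (not_lt.mp hk)) _

/-- the chart at the point `(x, 1, ζ)`: deformation to the tangent cone -/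
noncomputable def kap (x ζ : ℂ) : R3 →ₐ[ℂ] Polynomial R3 :=
  aeval ![Polynomial.C (C x * X 1) + Polynomial.X * Polynomial.C (X 0), Polynomial.C (X 1),
    Polynomial.C (C ζ * X 1) + Polynomial.X * Polynomial.C (X 2)]

theorem kap_X0 (x ζ : ℂ) : kap x ζ (X 0) =
    Polynomial.C (C x * X 1) + Polynomial.X * Polynomial.C (X 0) := by
  unfold kap
  rw [aeval_X]
  rfl

theorem kap_X1 (x ζ : ℂ) : kap x ζ (X 1) = Polynomial.C (X 1) := by
  unfold kap
  rw [aeval_X]
  rfl

theorem kap_X2 (x ζ : ℂ) : kap x ζ (X 2) =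
    Polynomial.C (C ζ * X 1) + Polynomial.X * Polynomial.C (X 2) := by
  unfold kap
  rw [aeval_X]
  rfl

theorem kap_C (x ζ c : ℂ) : kap x ζ (C c) = Polynomial.C (C c) := by
  rw [algHom_C]
  rfl

theorem kap_map (x ζ : ℂ) (y : V3) (G : R3) :
    (kap x ζ G).map (eval y) = aeval (fun i => Polynomial.C (y 1 * (![x, 1, ζ] : V3) i) +
      Polynomial.X * Polynomial.C ((![y 0, 0, y 2] : V3) i)) G := by
  induction G using MvPolynomial.induction_on with
  | C c =>
    rw [kap_C, algHom_C, Polynomial.map_C, eval_C]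
    rfl
  | add p q hp hq => rw [map_add (kap x ζ), map_add, Polynomial.map_add, hp, hq]
  | mul_X p n hp =>
    rw [map_mul (kap x ζ), map_mul, Polynomial.map_mul, hp, aeval_X]
    congr 1
    fin_cases n
    · change Polynomial.map _ (kap x ζ (X 0)) = Polynomial.C (y 1 * x) +
        Polynomial.X * Polynomial.C (y 0)
      rw [kap_X0, Polynomial.map_add, Polynomial.map_mul, Polynomial.map_C, Polynomial.map_C,
        Polynomial.map_X, map_mul, eval_C, eval_X, eval_X, mul_comm x]
    · change Polynomial.map _ (kap x ζ (X 1)) = _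
      rw [kap_X1]
      simp
    · change Polynomial.map _ (kap x ζ (X 2)) = Polynomial.C (y 1 * ζ) +
        Polynomial.X * Polynomial.C (y 2)
      rw [kap_X2, Polynomial.map_add, Polynomial.map_mul, Polynomial.map_C, Polynomial.map_C,
        Polynomial.map_X, map_mul, eval_C, eval_X, eval_X, mul_comm ζ]

/-- vanishing of a form gives divisibility in the chart -/
theorem kap_dvd {x ζ : ℂ} {G : R3} {D w : ℕ} (hG : G.IsHomogeneous D)
    (hv : VanishTo G ![x, 1, ζ] w) : (Polynomial.X : Polynomial R3) ^ w ∣ kap x ζ G := by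
  rw [Polynomial.X_pow_dvd_iff]
  intro k hk
  have h1 : (kap x ζ G).coeff k * X 1 = 0 := by
    apply MvPolynomial.funext
    intro y
    rw [map_mul, eval_X, map_zero]
    by_cases hy : y 1 = 0
    · rw [hy, mul_zero]
    · have h2 : eval y ((kap x ζ G).coeff k) = 0 := by
        rw [← Polynomial.coeff_map, kap_map]
        have h3 : (aeval (fun i => Polynomial.C (y 1 * (![x, 1, ζ] : V3) i) +
            Polynomial.X * Polynomial.C ((![y 0, 0, y 2] : V3) i)) G : Polynomial ℂ) =
            Polynomial.C (y 1) ^ D * aeval (fun i => Polynomial.C ((![x, 1, ζ] : V3) i) +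
              Polynomial.X * Polynomial.C ((![y 0, 0, y 2] : V3) i / y 1)) G := by
          rw [← aeval_smul_form hG]
          congr 2
          funext i
          rw [mul_add, ← Polynomial.C_mul, mul_left_comm, ← Polynomial.C_mul,
            mul_div_cancel₀ _ hy]
        rw [h3]
        have h4 := X_pow_dvd_line hv (fun i => (![y 0, 0, y 2] : V3) i / y 1)
        exact (Polynomial.X_pow_dvd_iff.mp (h4.mul_left _)) k hk
      rw [h2, zero_mul]
  exact (mul_eq_zero.mp h1).resolve_right (X_ne_zero _)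

/-! ### divisibility of binary forms -/

/-- the equation of the point `(x, 1)` -/
noncomputable def LL (x : ℂ) : R2 := X 0 - C x * X 1

theorem LL_hom (x : ℂ) : (LL x).IsHomogeneous 1 :=
  (isHomogeneous_X _ _).sub ((isHomogeneous_X _ _).C_mul _)

theorem LL_ne (x : ℂ) : LL x ≠ 0 := by
  intro h
  have h1 := congrArg (eval ![x + 1, 1]) h
  rw [LL, map_sub, map_mul, eval_X, eval_X, eval_C, map_zero] at h1
  simp at h1

theorem eval_LL (x y : ℂ) : eval ![y, 1] (LL x) = y - x := by
  rw [LL, map_sub, map_mul, eval_X, eval_X, eval_C]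
  simp

theorem LL_prime (x : ℂ) : Prime (LL x) := by
  apply Irreducible.prime
  apply irreducible_of_totalDegree_eq_one
  · exact (LL_hom x).totalDegree (LL_ne x)
  · intro c hc
    have h1 := hc (Finsupp.single 0 1)
    have h2 : coeff (Finsupp.single 0 1) (LL x) = 1 := by
      have h5 : ¬ (Finsupp.single (1 : Fin 2) 1 : Fin 2 →₀ ℕ) = Finsupp.single 0 1 := by
        intro h3
        have h4 := Finsupp.single_left_injective one_ne_zero h3
        exact absurd h4 (by decide)
      rw [LL, coeff_sub, coeff_C_mul, coeff_X, coeff_X, if_neg h5, if_pos rfl, mul_zero, sub_zero]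
    rw [h2] at h1
    exact isUnit_of_dvd_one h1

/-- a form vanishing at a point is divisible by its equation -/
theorem LL_dvd {x : ℂ} {f : R2} {n : ℕ} (hf : f.IsHomogeneous n) (h : eval ![x, 1] f = 0) :
    LL x ∣ f := by
  have h1 : LL x ∣ f - aeval ![C x * X 1, X 1] f := by
    clear h hf
    induction f using MvPolynomial.induction_on with
    | C c =>
      rw [algHom_C, algebraMap_eq, sub_self]
      exact dvd_zero _
    | add p q hp hq =>
      rw [map_add, add_sub_add_comm]
      exact dvd_add hp hq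
    | mul_X p i hp =>
      rw [map_mul, aeval_X]
      have h2 : LL x ∣ X i - (![C x * X 1, X 1] : Fin 2 → R2) i := by
        fin_cases i
        · exact dvd_refl _
        · simp
      have h3 : p * X i - aeval ![C x * X 1, X 1] p * (![C x * X 1, X 1] : Fin 2 → R2) i =
          X i * (p - aeval ![C x * X 1, X 1] p) +
            aeval ![C x * X 1, X 1] p * (X i - (![C x * X 1, X 1] : Fin 2 → R2) i) := by ring
      rw [h3]
      exact dvd_add (hp.mul_left _) (h2.mul_left _)
  have h2 : aeval ![C x * X 1, X 1] f = (0 : R2) := by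
    have h3 : (![C x * X 1, X 1] : Fin 2 → R2) = fun i => X 1 * C ((![x, 1] : V2) i) := by
      funext i
      fin_cases i
      · simp [mul_comm]
      · simp
    rw [h3, aeval_smul_form hf]
    have h4 : ∀ F : R2, (aeval (fun i => C ((![x, 1] : V2) i)) F : R2) = C (eval ![x, 1] F) := by
      intro F
      induction F using MvPolynomial.induction_on with
      | C c => rw [algHom_C, eval_C]; rfl
      | add p q hp hq => rw [map_add, map_add, hp, hq, C_add]
      | mul_X p n hp => rw [map_mul, map_mul, hp, aeval_X, eval_X, C_mul]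
    rw [h4, h, C_0, mul_zero]
  rw [h2, sub_zero] at h1
  exact h1

theorem LL_pow_isRelPrime {x y : ℂ} (h : x ≠ y) (m n : ℕ) : IsRelPrime (LL x ^ m) (LL y ^ n) := by
  apply IsRelPrime.pow
  rw [(LL_prime x).irreducible.isRelPrime_iff_not_dvd]
  rintro ⟨g, hg⟩
  have h1 := congrArg (eval ![x, 1]) hg
  rw [map_mul, eval_LL, eval_LL, sub_self, zero_mul, sub_eq_zero] at h1
  exact h h1

theorem prod_LL_dvd {ι : Type} [Fintype ι] {x : ι → ℂ} (hx : Function.Injective x) {w : ℕ}
    {f : R2} (h : ∀ j, LL (x j) ^ w ∣ f) : (∏ j, LL (x j)) ^ w ∣ f := by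
  rw [← Finset.prod_pow]
  apply Fintype.prod_dvd_of_isRelPrime
  · intro i j hij
    exact LL_pow_isRelPrime (fun h => hij (hx h)) _ _
  · exact h

theorem dvd_aeval_sub {σ A : Type} [CommRing A] [Algebra ℂ A] {d : A} {g g' : σ → A}
    (h : ∀ i, d ∣ g i - g' i) (f : MvPolynomial σ ℂ) : d ∣ aeval g f - aeval g' f := by
  induction f using MvPolynomial.induction_on with
  | C c =>
    rw [algHom_C, algHom_C, sub_self]
    exact dvd_zero _
  | add p q hp hq =>
    rw [map_add, map_add, add_sub_add_comm]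
    exact dvd_add hp hq
  | mul_X p i hp =>
    rw [map_mul, map_mul, aeval_X, aeval_X]
    have h3 : aeval g p * g i - aeval g' p * g' i =
        g i * (aeval g p - aeval g' p) + aeval g' p * (g i - g' i) := by ring
    rw [h3]
    exact dvd_add (hp.mul_left _) ((h i).mul_left _)

theorem homogeneousComponent_mul' {σ : Type} {A : MvPolynomial σ ℂ} {n : ℕ}
    (hA : A.IsHomogeneous n) (k : ℕ) (h : MvPolynomial σ ℂ) :
    homogeneousComponent (n + k) (A * h) = A * homogeneousComponent k h := by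
  conv_lhs => rw [← sum_homogeneousComponent h]
  rw [Finset.mul_sum, map_sum]
  by_cases hk : k ∈ Finset.range (h.totalDegree + 1)
  · rw [Finset.sum_eq_single k]
    · exact homogeneousComponent_eq_self (hA.mul (homogeneousComponent_isHomogeneous k h))
    · intro j _ hj
      rw [homogeneousComponent_of_mem (hA.mul (homogeneousComponent_isHomogeneous j h)), if_neg]
      omega
    · intro hk'
      exact absurd hk hk'
  · have h1 : homogeneousComponent k h = 0 := by
      apply homogeneousComponent_eq_zero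
      rw [Finset.mem_range] at hk
      omega
    rw [h1, mul_zero]
    refine Finset.sum_eq_zero (fun j hj => ?_)
    rw [homogeneousComponent_of_mem (hA.mul (homogeneousComponent_isHomogeneous j h)), if_neg]
    rw [Finset.mem_range] at hj hk
    omega

theorem hom_factor {σ : Type} {A f g : MvPolynomial σ ℂ} {n d : ℕ} (hA : A.IsHomogeneous n)
    (hf : f.IsHomogeneous d) (h : f = A * g) :
    ∃ g' : MvPolynomial σ ℂ, g'.IsHomogeneous (d - n) ∧ (d < n → g' = 0) ∧ f = A * g' := by
  by_cases hd : d < n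
  · refine ⟨0, isHomogeneous_zero _ _ _, fun _ => rfl, ?_⟩
    rw [mul_zero, ← homogeneousComponent_eq_self hf, h]
    conv_lhs => rw [← sum_homogeneousComponent g]
    rw [Finset.mul_sum, map_sum]
    refine Finset.sum_eq_zero (fun j _ => ?_)
    rw [homogeneousComponent_of_mem (hA.mul (homogeneousComponent_isHomogeneous j g)), if_neg]
    omega
  · refine ⟨homogeneousComponent (d - n) g, homogeneousComponent_isHomogeneous _ _,
      fun h' => absurd h' hd, ?_⟩
    rw [← homogeneousComponent_mul' hA, Nat.add_sub_cancel' (by omega), ← h,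
      homogeneousComponent_eq_self hf]

/-! ### the embedding of the binary forms -/

theorem emb_X0 : emb (X 0) = X 0 := by
  unfold emb
  rw [aeval_X]
  rfl

theorem emb_X1 : emb (X 1) = X 1 := by
  unfold emb
  rw [aeval_X]
  rfl

theorem emb_C (c : ℂ) : emb (C c) = C c := by
  rw [algHom_C]
  rfl

theorem emb_hom {P : R2} {n : ℕ} (h : P.IsHomogeneous n) : (emb P).IsHomogeneous n := by
  unfold emb
  have h1 := h.aeval (![X 0, X 1] : Fin 2 → R3) (n := 1) (fun i => by
    fin_cases i
    · exact isHomogeneous_X _ _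
    · exact isHomogeneous_X _ _)
  rwa [one_mul] at h1

theorem eval_emb (P : R2) (v : V3) : eval v (emb P) = eval ![v 0, v 1] P := by
  induction P using MvPolynomial.induction_on with
  | C c => rw [emb_C, eval_C, eval_C]
  | add p q hp hq => rw [map_add, map_add, map_add, hp, hq]
  | mul_X p n hp =>
    rw [map_mul, map_mul, map_mul, hp, eval_X]
    congr 1
    fin_cases n
    · change eval v (emb (X 0)) = _
      rw [emb_X0, eval_X]
      rfl
    · change eval v (emb (X 1)) = _
      rw [emb_X1, eval_X]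
      rfl

theorem emb_degreeOf (P : R2) : (emb P).degreeOf 2 = 0 := by
  induction P using MvPolynomial.induction_on with
  | C c => rw [emb_C, degreeOf_C]
  | add p q hp hq =>
    rw [map_add]
    have := degreeOf_add_le 2 (emb p) (emb q)
    rw [hp, hq, max_self] at this
    omega
  | mul_X p n hp =>
    rw [map_mul]
    have h1 := degreeOf_mul_le 2 (emb p) (emb (X n))
    have h2 : (emb (X n)).degreeOf 2 = 0 := by
      fin_cases n
      · change (emb (X 0)).degreeOf 2 = 0
        rw [emb_X0, degreeOf_X_of_ne (by decide)]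
      · change (emb (X 1)).degreeOf 2 = 0
        rw [emb_X1, degreeOf_X_of_ne (by decide)]
    omega

theorem res_emb (P : R2) : res (emb P) = P := by
  have h : (res.comp emb) = AlgHom.id ℂ R2 := by
    apply MvPolynomial.algHom_ext
    intro i
    rw [AlgHom.comp_apply]
    unfold res
    fin_cases i
    · change aeval _ (emb (X 0)) = _
      rw [emb_X0, aeval_X]
      rfl
    · change aeval _ (emb (X 1)) = _
      rw [emb_X1, aeval_X]
      rfl
  exact DFunLike.congr_fun h P

theorem emb_ne {P : R2} (h : P ≠ 0) : emb P ≠ 0 := by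
  intro h1
  apply h
  rw [← res_emb P, h1, map_zero]

theorem emb_res {G : R3} (h : G.degreeOf 2 = 0) : emb (res G) = G := by
  conv_rhs => rw [G.as_sum]
  conv_lhs => rw [G.as_sum]
  rw [map_sum, map_sum]
  refine Finset.sum_congr rfl fun α hα => ?_
  have h0 : α 2 = 0 := by
    have := (degreeOf_le_iff.mp h.le) α hα
    omega
  rw [monomial_eq, Finsupp.prod_fintype _ _ (fun i => pow_zero _), Fin.prod_univ_three, h0,
    pow_zero, mul_one, map_mul, map_mul, map_mul, map_mul, map_pow, map_pow, map_pow, map_pow]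
  have h1 : res (X 0) = X 0 := by
    unfold res
    rw [aeval_X]
    rfl
  have h2 : res (X 1) = X 1 := by
    unfold res
    rw [aeval_X]
    rfl
  have h3 : res (C (coeff α G)) = C (coeff α G) := by
    rw [algHom_C]
    rfl
  rw [h1, h2, h3, emb_C, emb_X0, emb_X1]

/-! ### the polynomials in `z` -/

/-- a form as a polynomial in `z` -/
noncomputable def toA : R3 →ₐ[ℂ] Polynomial R2 :=
  aeval ![Polynomial.C (X 0), Polynomial.C (X 1), Polynomial.X]

/-- the inverse of `toA` -/
noncomputable def ofA : Polynomial R2 →+* R3 := Polynomial.eval₂RingHom emb.toRingHom (X 2)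

theorem toA_C (c : ℂ) : toA (C c) = Polynomial.C (C c) := by
  rw [algHom_C, Polynomial.algebraMap_apply, algebraMap_eq]

theorem toA_X0 : toA (X 0) = Polynomial.C (X 0) := by
  unfold toA
  rw [aeval_X]
  rfl

theorem toA_X1 : toA (X 1) = Polynomial.C (X 1) := by
  unfold toA
  rw [aeval_X]
  rfl

theorem toA_X2 : toA (X 2) = Polynomial.X := by
  unfold toA
  rw [aeval_X]
  rfl

theorem toA_emb_X (n : Fin 2) : toA (emb (X n)) = Polynomial.C (X n) := by
  fin_cases n
  · exact (congrArg toA emb_X0).trans toA_X0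
  · exact (congrArg toA emb_X1).trans toA_X1

theorem toA_emb (f : R2) : toA (emb f) = Polynomial.C f := by
  induction f using MvPolynomial.induction_on with
  | C c => rw [emb_C, toA_C]
  | add p q hp hq => rw [map_add, map_add, hp, hq, Polynomial.C_add]
  | mul_X p n hp => rw [map_mul, map_mul, hp, Polynomial.C_mul, toA_emb_X]

theorem ofA_C (f : R2) : ofA (Polynomial.C f) = emb f := by
  unfold ofA
  rw [Polynomial.coe_eval₂RingHom, Polynomial.eval₂_C]
  rfl

theorem ofA_X : ofA Polynomial.X = X 2 := by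
  unfold ofA
  rw [Polynomial.coe_eval₂RingHom, Polynomial.eval₂_X]

theorem ofA_toA_X (n : Fin 3) : ofA (toA (X n)) = X n := by
  fin_cases n
  · exact (congrArg ofA toA_X0).trans ((ofA_C (X 0)).trans emb_X0)
  · exact (congrArg ofA toA_X1).trans ((ofA_C (X 1)).trans emb_X1)
  · exact (congrArg ofA toA_X2).trans ofA_X

theorem ofA_toA (G : R3) : ofA (toA G) = G := by
  induction G using MvPolynomial.induction_on with
  | C c => rw [toA_C, ofA_C, emb_C]
  | add p q hp hq => rw [map_add, map_add, hp, hq]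
  | mul_X p n hp => rw [map_mul, map_mul, hp, ofA_toA_X]

/-- the linear polynomial in `z` of the strip -/
noncomputable def Uz (P T : R2) : R3 := emb P * X 2 - emb T

theorem toA_Uz (P T : R2) : toA (Uz P T) = Polynomial.C P * Polynomial.X + Polynomial.C (-T) := by
  rw [Uz, map_sub, map_mul, toA_emb, toA_emb, toA_X2, Polynomial.C_neg, sub_eq_add_neg]

theorem Uz_dvd {P T : R2} (hP : P ≠ 0) (h : IsRelPrime P T) {n : ℕ} {G : R3}
    (hd : Uz P T ∣ emb P ^ n * G) : Uz P T ∣ G := by
  have hpr : Prime (toA (Uz P T)) := by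
    apply Irreducible.prime
    rw [toA_Uz]
    exact Polynomial.irreducible_C_mul_X_add_C hP h.neg_right
  have h1 : toA (Uz P T) ∣ Polynomial.C P ^ n * toA G := by
    rw [← toA_emb, ← map_pow, ← map_mul]
    exact map_dvd toA hd
  have h2 : toA (Uz P T) ∣ toA G := by
    rcases hpr.dvd_or_dvd h1 with h3 | h3
    · exfalso
      have h4 := hpr.dvd_of_dvd_pow h3
      rw [toA_Uz] at h4
      have h5 := Polynomial.natDegree_le_of_dvd h4 (by rwa [Polynomial.C_ne_zero])
      rw [Polynomial.natDegree_C, Polynomial.natDegree_linear hP] at h5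
      omega
    · exact h3
  have h3 := map_dvd ofA h2
  rwa [ofA_toA, ofA_toA] at h3

theorem Uz_hom {P T : R2} {t : ℕ} (hP : P.IsHomogeneous t) (hT : T.IsHomogeneous (t + 1)) :
    (Uz P T).IsHomogeneous (t + 1) :=
  ((emb_hom hP).mul (isHomogeneous_X _ _)).sub (emb_hom hT)

theorem Uz_degreeOf_le (P T : R2) : (Uz P T).degreeOf 2 ≤ 1 := by
  have h1 := degreeOf_mul_le 2 (emb P) (X 2)
  rw [emb_degreeOf, degreeOf_X_self] at h1
  have h2 := degreeOf_add_le 2 (emb P * X 2) (emb (-T))
  rw [emb_degreeOf, map_neg, ← sub_eq_add_neg] at h2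
  unfold Uz
  omega

theorem Uz_degreeOf {P T : R2} (hP : P ≠ 0) : (Uz P T).degreeOf 2 = 1 := by
  apply le_antisymm (Uz_degreeOf_le P T)
  have h1 := (degreeOf_mul_X_eq_degreeOf_add_one_iff (2 : Fin 3) (emb P)).mpr (emb_ne hP)
  rw [emb_degreeOf] at h1
  have h2 := degreeOf_add_le 2 (Uz P T) (emb T)
  have h3 : Uz P T + emb T = emb P * X 2 := by
    unfold Uz
    ring
  rw [h3, h1, emb_degreeOf] at h2
  omega

/-! ### the substitution of the curve -/

/-- restriction to the curve `z = T / P` -/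
noncomputable def phi (P T : R2) : R3 →ₐ[ℂ] R2 := aeval ![P * X 0, P * X 1, T]

theorem phi_X0 (P T : R2) : phi P T (X 0) = P * X 0 := by
  unfold phi
  rw [aeval_X]
  rfl

theorem phi_X1 (P T : R2) : phi P T (X 1) = P * X 1 := by
  unfold phi
  rw [aeval_X]
  rfl

theorem phi_X2 (P T : R2) : phi P T (X 2) = T := by
  unfold phi
  rw [aeval_X]
  rfl

theorem phi_C (P T : R2) (c : ℂ) : phi P T (C c) = C c := by
  rw [algHom_C]
  rfl

theorem emb_phi (P T : R2) (G : R3) :
    emb (phi P T G) = aeval ![emb P * X 0, emb P * X 1, emb T] G := by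
  induction G using MvPolynomial.induction_on with
  | C c => rw [phi_C, emb_C, algHom_C]; rfl
  | add p q hp hq => rw [map_add, map_add, map_add, hp, hq]
  | mul_X p n hp =>
    rw [map_mul, map_mul, map_mul, hp, aeval_X]
    refine congrArg (HMul.hMul _) ?_
    match n with
    | 0 => rw [phi_X0, map_mul, emb_X0]; rfl
    | 1 => rw [phi_X1, map_mul, emb_X1]; rfl
    | 2 => rw [phi_X2]; rfl

theorem phi_mod (P T : R2) {G : R3} {D : ℕ} (hG : G.IsHomogeneous D) :
    Uz P T ∣ emb P ^ D * G - emb (phi P T G) := by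
  have h1 : emb P ^ D * G = aeval (fun i => emb P * (X i : R3)) G := by
    rw [aeval_smul_form hG, aeval_X_left_apply]
  rw [h1, emb_phi]
  apply dvd_aeval_sub
  intro i
  fin_cases i
  · change _ ∣ emb P * X 0 - emb P * X 0
    rw [sub_self]
    exact dvd_zero _
  · change _ ∣ emb P * X 1 - emb P * X 1
    rw [sub_self]
    exact dvd_zero _
  · exact dvd_refl _

/-- factorisation of the substitution through the chart -/
theorem phi_dvd {P T τ : R2} {x ζ : ℂ} (hτ : T - C ζ * (P * X 1) = LL x * τ) {w : ℕ} {G : R3}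
    (h : (Polynomial.X : Polynomial R3) ^ w ∣ kap x ζ G) : LL x ^ w ∣ phi P T G := by
  have h1 : ∀ G : R3, Polynomial.eval₂RingHom
      (aeval ![P, P * X 1, τ] : R3 →ₐ[ℂ] R2).toRingHom (LL x) (kap x ζ G) = phi P T G := by
    intro G
    rw [Polynomial.coe_eval₂RingHom]
    induction G using MvPolynomial.induction_on with
    | C c =>
      rw [kap_C, phi_C, Polynomial.eval₂_C, AlgHom.toRingHom_eq_coe, RingHom.coe_coe, algHom_C]
      rfl
    | add p q hp hq => rw [map_add (kap x ζ), Polynomial.eval₂_add, hp, hq, map_add]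
    | mul_X p n hp =>
      rw [map_mul (kap x ζ), Polynomial.eval₂_mul, hp, map_mul (phi P T)]
      congr 1
      fin_cases n
      · change Polynomial.eval₂ _ _ (kap x ζ (X 0)) = phi P T (X 0)
        rw [kap_X0, phi_X0, Polynomial.eval₂_add, Polynomial.eval₂_mul, Polynomial.eval₂_C,
          Polynomial.eval₂_C, Polynomial.eval₂_X, AlgHom.toRingHom_eq_coe, RingHom.coe_coe,
          map_mul, algHom_C, algebraMap_eq, aeval_X, aeval_X]
        change C x * (P * X 1) + LL x * P = P * X 0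
        unfold LL
        ring
      · change Polynomial.eval₂ _ _ (kap x ζ (X 1)) = phi P T (X 1)
        rw [kap_X1, phi_X1, Polynomial.eval₂_C, AlgHom.toRingHom_eq_coe, RingHom.coe_coe, aeval_X]
        rfl
      · change Polynomial.eval₂ _ _ (kap x ζ (X 2)) = phi P T (X 2)
        rw [kap_X2, phi_X2, Polynomial.eval₂_add, Polynomial.eval₂_mul, Polynomial.eval₂_C,
          Polynomial.eval₂_C, Polynomial.eval₂_X, AlgHom.toRingHom_eq_coe, RingHom.coe_coe,
          map_mul, algHom_C, algebraMap_eq, aeval_X, aeval_X]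
        change C ζ * (P * X 1) + LL x * τ = T
        rw [← hτ]
        ring
  rw [← h1]
  have h2 := map_dvd (Polynomial.eval₂RingHom
      (aeval ![P, P * X 1, τ] : R3 →ₐ[ℂ] R2).toRingHom (LL x)) h
  rwa [map_pow, Polynomial.coe_eval₂RingHom, Polynomial.eval₂_X] at h2

/-- the substitution in a form of small degree in `z` -/
theorem phi_small {P T : R2} {t : ℕ} (hP : P.IsHomogeneous t) (hT : T.IsHomogeneous (t + 1))
    {G : R3} {D w : ℕ} (hG : G.IsHomogeneous D) (hw : w ≤ D) (hz : G.degreeOf 2 ≤ w) :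
    ∃ h : R2, h.IsHomogeneous (D + w * t) ∧ phi P T G = P ^ (D - w) * h := by
  refine ⟨∑ α ∈ G.support, C (coeff α G) * (P ^ (w - α 2) * X 0 ^ α 0 * X 1 ^ α 1 * T ^ α 2),
    ?_, ?_⟩
  · apply IsHomogeneous.sum
    intro α hα
    have h0 : α 2 ≤ w := (degreeOf_le_iff.mp hz) α hα
    have h1 : α 0 + α 1 + α 2 = D := by
      have h2 := hG (MvPolynomial.mem_support_iff.mp hα)
      rw [Finsupp.weight_apply, Finsupp.sum_fintype _ _ (fun i => by simp)] at h2
      simpa [Fin.sum_univ_three] using h2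
    have h2 := (((hP.pow (w - α 2)).mul
      (isHomogeneous_X_pow (R := ℂ) (0 : Fin 2) (α 0))).mul
      (isHomogeneous_X_pow (R := ℂ) (1 : Fin 2) (α 1))).mul (hT.pow (α 2))
    have h3 : t * (w - α 2) + α 0 + α 1 + (t + 1) * α 2 = D + w * t := by
      obtain ⟨k, hk⟩ := Nat.exists_eq_add_of_le h0
      have h4 : w - α 2 = k := by omega
      rw [h4, ← h1, hk]
      ring
    rw [h3] at h2
    exact h2.C_mul _
  · conv_lhs => rw [G.as_sum]
    rw [map_sum, Finset.mul_sum]
    refine Finset.sum_congr rfl fun α hα => ?_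
    have h0 : α 2 ≤ w := (degreeOf_le_iff.mp hz) α hα
    have h1 : α 0 + α 1 + α 2 = D := by
      have h2 := hG (MvPolynomial.mem_support_iff.mp hα)
      rw [Finsupp.weight_apply, Finsupp.sum_fintype _ _ (fun i => by simp)] at h2
      simpa [Fin.sum_univ_three] using h2
    rw [monomial_eq, Finsupp.prod_fintype _ _ (fun i => pow_zero _), Fin.prod_univ_three,
      map_mul, map_mul, map_mul, map_pow, map_pow, map_pow, phi_C, phi_X0, phi_X1, phi_X2]
    have h3 : α 0 + α 1 = (D - w) + (w - α 2) := by omega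
    have h4 : P ^ α 0 * P ^ α 1 = P ^ (D - w) * P ^ (w - α 2) := by
      rw [← pow_add, h3, pow_add]
    rw [mul_pow, mul_pow]
    linear_combination (C (coeff α G) * X 0 ^ α 0 * X 1 ^ α 1 * T ^ α 2) * h4

/-! ### the equations in the chart -/

theorem vanishTo_one {G : R3} {a : V3} (h : eval a G = 0) : VanishTo G a 1 := by
  intro k hk
  have hk0 : k = 0 := by omega
  rw [hk0, homogeneousComponent_zero]
  have h2 := eval_translate a 0 G
  rw [add_zero, eval_zero, constantCoeff_eq, h] at h2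
  rw [h2, C_0]

theorem Uz_kap_dvd {P T : R2} {t : ℕ} (hP : P.IsHomogeneous t) (hT : T.IsHomogeneous (t + 1))
    {x ζ : ℂ} (h : eval ![x, 1] T = eval ![x, 1] P * ζ) :
    (Polynomial.X : Polynomial R3) ∣ kap x ζ (Uz P T) := by
  have h1 : VanishTo (Uz P T) ![x, 1, ζ] 1 := by
    apply vanishTo_one
    unfold Uz
    rw [map_sub, map_mul, eval_emb, eval_emb, eval_X]
    change eval ![x, 1] P * ζ - eval ![x, 1] T = 0
    rw [h, sub_self]
  have h2 := kap_dvd (Uz_hom hP hT) h1
  rwa [pow_one] at h2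

theorem line_emb (x ζ : ℂ) (P : R2) :
    (aeval (fun i => Polynomial.C ((![0, 1, 1] : V3) 1 * (![x, 1, ζ] : V3) i) +
      Polynomial.X * Polynomial.C ((![(![0, 1, 1] : V3) 0, 0, (![0, 1, 1] : V3) 2] : V3) i))
      (emb P) : Polynomial ℂ) = Polynomial.C (eval ![x, 1] P) := by
  induction P using MvPolynomial.induction_on with
  | C c => rw [emb_C, algHom_C, eval_C]; rfl
  | add p q hp hq => rw [map_add, map_add, map_add, hp, hq, Polynomial.C_add]
  | mul_X p n hp =>
    rw [map_mul, map_mul, map_mul, hp, eval_X, Polynomial.C_mul]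
    refine congrArg (HMul.hMul _) ?_
    match n with
    | 0 =>
      rw [emb_X0, aeval_X]
      simp
    | 1 =>
      rw [emb_X1, aeval_X]
      simp

theorem Uz_kap_not {P T : R2} {x ζ : ℂ} (hP : eval ![x, 1] P ≠ 0)
    (h : eval ![x, 1] T = eval ![x, 1] P * ζ) :
    ¬ (Polynomial.X : Polynomial R3) ^ 2 ∣ kap x ζ (Uz P T) := by
  intro h1
  have h2 := map_dvd (Polynomial.mapRingHom (eval (![0, 1, 1] : V3))) h1
  rw [map_pow, Polynomial.coe_mapRingHom, Polynomial.map_X, kap_map] at h2
  have h3 : (aeval (fun i => Polynomial.C ((![0, 1, 1] : V3) 1 * (![x, 1, ζ] : V3) i) +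
      Polynomial.X * Polynomial.C ((![(![0, 1, 1] : V3) 0, 0, (![0, 1, 1] : V3) 2] : V3) i))
      (Uz P T) : Polynomial ℂ) = Polynomial.C (eval ![x, 1] P) * Polynomial.X := by
    unfold Uz
    rw [map_sub, map_mul, line_emb, line_emb, aeval_X, h]
    simp
    ring
  rw [h3, Polynomial.X_pow_dvd_iff] at h2
  have h4 := h2 1 (by norm_num)
  rw [Polynomial.coeff_C_mul, Polynomial.coeff_X_one, mul_one] at h4
  exact hP h4

theorem dvd_of_Uz_mul {P T : R2} {t : ℕ} (hP : P.IsHomogeneous t) (hT : T.IsHomogeneous (t + 1))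
    {x ζ : ℂ} (hPx : eval ![x, 1] P ≠ 0) (h : eval ![x, 1] T = eval ![x, 1] P * ζ) {w : ℕ}
    {G : R3} (hd : (Polynomial.X : Polynomial R3) ^ (w + 1) ∣ kap x ζ (Uz P T * G)) :
    (Polynomial.X : Polynomial R3) ^ w ∣ kap x ζ G := by
  obtain ⟨u, hu⟩ := Uz_kap_dvd hP hT h
  have h1 : ¬ (Polynomial.X : Polynomial R3) ∣ u := by
    rintro ⟨v, hv⟩
    apply Uz_kap_not hPx h
    rw [hu, hv]
    exact ⟨v, by ring⟩
  rw [map_mul, hu, pow_succ', mul_assoc] at hd
  have h2 := (mul_dvd_mul_iff_left (Polynomial.X_ne_zero : (Polynomial.X : Polynomial R3) ≠ 0)).mp hd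
  exact Polynomial.prime_X.pow_dvd_of_dvd_mul_left w h1 h2

end Str

/-! ### bihomogeneous polynomials -/

namespace Str

theorem biHom_zero (a b : ℕ) : BiHom a b 0 := fun α h => absurd (coeff_zero α) h

theorem biHom_add {a b : ℕ} {F G : R4} (hF : BiHom a b F) (hG : BiHom a b G) :
    BiHom a b (F + G) := by
  intro α h
  rw [coeff_add] at h
  by_cases h1 : coeff α F = 0
  · rw [h1, zero_add] at h
    exact hG α h
  · exact hF α h1

theorem biHom_mul {a b c d : ℕ} {F G : R4} (hF : BiHom a b F) (hG : BiHom c d G) :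
    BiHom (a + c) (b + d) (F * G) := by
  intro α h
  rw [coeff_mul] at h
  obtain ⟨z, hz, hne⟩ := Finset.exists_ne_zero_of_sum_ne_zero h
  rw [Finset.HasAntidiagonal.mem_antidiagonal] at hz
  have h1 := hF z.1 (left_ne_zero_of_mul hne)
  have h2 := hG z.2 (right_ne_zero_of_mul hne)
  rw [← hz]
  simp only [Finsupp.add_apply]
  omega

theorem biHom_C (c : ℂ) : BiHom 0 0 (C c) := by
  intro α h
  rw [coeff_C] at h
  by_cases h1 : (0 : Fin 4 →₀ ℕ) = α
  · rw [← h1]
    simp
  · rw [if_neg h1] at h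
    exact absurd rfl h

theorem biHom_X {i : Fin 4} {a b : ℕ}
    (h : (Finsupp.single i 1 : Fin 4 →₀ ℕ) 0 + (Finsupp.single i 1 : Fin 4 →₀ ℕ) 1 = a ∧
      (Finsupp.single i 1 : Fin 4 →₀ ℕ) 2 + (Finsupp.single i 1 : Fin 4 →₀ ℕ) 3 = b) :
    BiHom a b (X i) := by
  intro α hα
  rw [coeff_X] at hα
  by_cases h1 : (Finsupp.single i 1 : Fin 4 →₀ ℕ) = α
  · rw [← h1]
    exact h
  · rw [if_neg h1] at hα
    exact absurd rfl hα

theorem biHom_pow {a b : ℕ} {F : R4} (hF : BiHom a b F) (n : ℕ) :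
    BiHom (n * a) (n * b) (F ^ n) := by
  induction n with
  | zero =>
    rw [pow_zero, zero_mul, zero_mul]
    exact biHom_C 1
  | succ n ih =>
    rw [pow_succ, add_mul, one_mul, add_mul, one_mul]
    exact biHom_mul ih hF

theorem biHom_X0 : BiHom 1 0 (X 0) := biHom_X (by simp)
theorem biHom_X1 : BiHom 1 0 (X 1) := biHom_X (by simp)
theorem biHom_X2 : BiHom 0 1 (X 2) := biHom_X (by simp)
theorem biHom_X3 : BiHom 0 1 (X 3) := biHom_X (by simp)

theorem biHom_sum {ι : Type} {a b : ℕ} (s : Finset ι) {F : ι → R4} (h : ∀ i ∈ s, BiHom a b (F i)) :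
    BiHom a b (∑ i ∈ s, F i) := by
  classical
  induction s using Finset.induction_on with
  | empty => exact biHom_zero a b
  | insert i s hi ih =>
    rw [Finset.sum_insert hi]
    exact biHom_add (h i (Finset.mem_insert_self i s))
      (ih fun j hj => h j (Finset.mem_insert_of_mem hj))

/-- binary forms as polynomials in the last two variables -/
noncomputable def em4 : R2 →ₐ[ℂ] R4 := aeval ![X 2, X 3]

theorem em4_X0 : em4 (X 0) = X 2 := by
  unfold em4
  rw [aeval_X]
  rfl

theorem em4_X1 : em4 (X 1) = X 3 := by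
  unfold em4
  rw [aeval_X]
  rfl

theorem em4_C (c : ℂ) : em4 (C c) = C c := by
  rw [algHom_C]
  rfl

theorem em4_biHom {ψ : R2} {b : ℕ} (h : ψ.IsHomogeneous b) : BiHom 0 b (em4 ψ) := by
  rw [ψ.as_sum, map_sum]
  apply biHom_sum
  intro α hα
  have h1 : α 0 + α 1 = b := by
    have h2 := h (MvPolynomial.mem_support_iff.mp hα)
    rw [Finsupp.weight_apply, Finsupp.sum_fintype _ _ (fun i => by simp)] at h2
    simpa [Fin.sum_univ_two] using h2
  rw [monomial_eq, Finsupp.prod_fintype _ _ (fun i => pow_zero _), Fin.prod_univ_two,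
    map_mul, map_mul, map_pow, map_pow, em4_C, em4_X0, em4_X1]
  have h2 := biHom_mul (biHom_C (coeff α ψ)) (biHom_mul (biHom_pow biHom_X2 (α 0))
    (biHom_pow biHom_X3 (α 1)))
  rw [mul_zero, mul_zero, mul_one, mul_one, add_zero, add_zero, zero_add, h1] at h2
  exact h2

theorem onS_C (P Q T R : R2) (c : ℂ) : onS P Q T R (C c) = C c := by
  rw [algHom_C]
  rfl

theorem onS_X0 (P Q T R : R2) : onS P Q T R (X 0) = Uz P T := by
  unfold onS
  rw [aeval_X]
  rfl

theorem onS_X1 (P Q T R : R2) : onS P Q T R (X 1) = Uz Q R := by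
  unfold onS
  rw [aeval_X]
  rfl

theorem onS_X2 (P Q T R : R2) : onS P Q T R (X 2) = X 0 := by
  unfold onS
  rw [aeval_X]
  rfl

theorem onS_X3 (P Q T R : R2) : onS P Q T R (X 3) = X 1 := by
  unfold onS
  rw [aeval_X]
  rfl

theorem onS_em4_X (P Q T R : R2) (n : Fin 2) : onS P Q T R (em4 (X n)) = emb (X n) := by
  fin_cases n
  · exact (congrArg (onS P Q T R) em4_X0).trans ((onS_X2 P Q T R).trans emb_X0.symm)
  · exact (congrArg (onS P Q T R) em4_X1).trans ((onS_X3 P Q T R).trans emb_X1.symm)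

theorem onS_em4 (P Q T R ψ : R2) : onS P Q T R (em4 ψ) = emb ψ := by
  induction ψ using MvPolynomial.induction_on with
  | C c => rw [em4_C, onS_C, emb_C]
  | add p q hp hq => rw [map_add, map_add, map_add, hp, hq]
  | mul_X p n hp => rw [map_mul, map_mul, map_mul, hp, onS_em4_X]

theorem res_isHom {G : R3} {D : ℕ} (h : G.IsHomogeneous D) : (res G).IsHomogeneous D := by
  unfold res
  have h1 := h.aeval (![X 0, X 1, 0] : Fin 3 → R2) (n := 1) (fun i => by
    fin_cases i
    · exact isHomogeneous_X _ _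
    · exact isHomogeneous_X _ _
    · exact isHomogeneous_zero _ _ _)
  rwa [one_mul] at h1

end Str

/-! ### the strip -/

open Str

section

variable {t : ℕ} {P Q T R : R2} {x ζ : Fin (2 * t + 1) → ℂ}

theorem Strip.P_ne (S : Strip t P Q T R x ζ) : P ≠ 0 := by
  intro h
  apply S.hPx 0
  rw [h, map_zero]

theorem Strip.prodLL (S : Strip t P Q T R x ζ) : P * R - Q * T = ∏ j, LL (x j) := S.hdet

theorem Strip.prod_ne (S : Strip t P Q T R x ζ) : (∏ j, LL (x j)) ≠ 0 :=
  Finset.prod_ne_zero_iff.mpr fun j _ => LL_ne _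

theorem Strip.prod_hom (S : Strip t P Q T R x ζ) : (∏ j, LL (x j)).IsHomogeneous (2 * t + 1) := by
  have h := IsHomogeneous.prod Finset.univ (fun j => LL (x j)) (fun _ => 1)
    (fun j _ => LL_hom (x j))
  simpa using h

theorem Strip.relPrime (S : Strip t P Q T R x ζ) : IsRelPrime P T := by
  intro d h1 h2
  by_contra hd
  have hd0 : d ≠ 0 := by
    rintro rfl
    exact S.P_ne (zero_dvd_iff.mp h1)
  obtain ⟨p, hp, hpd⟩ := WfDvdMonoid.exists_irreducible_factor hd hd0
  have h3 : p ∣ ∏ j, LL (x j) := by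
    rw [← S.prodLL]
    exact dvd_sub ((hpd.trans h1).mul_right _) ((hpd.trans h2).mul_left _)
  obtain ⟨j, _, hj⟩ := (hp.prime.dvd_finsetProd_iff _).mp h3
  have h4 : LL (x j) ∣ p := (hp.dvd_comm (LL_prime _).irreducible).mp hj
  obtain ⟨g, hg⟩ := (h4.trans hpd).trans h1
  apply S.hPx j
  rw [hg, map_mul, eval_LL, sub_self, zero_mul]

theorem Strip.exists_tau (S : Strip t P Q T R x ζ) (j : Fin (2 * t + 1)) :
    ∃ τ : R2, T - C (ζ j) * (P * X 1) = LL (x j) * τ := by
  have h1 : (T - C (ζ j) * (P * X 1)).IsHomogeneous (t + 1) :=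
    S.hT.sub (((S.hP).mul (isHomogeneous_X _ _)).C_mul _)
  obtain ⟨τ, hτ⟩ := LL_dvd (x := x j) h1 (by
    rw [map_sub, map_mul, map_mul, eval_C, eval_X, S.hT' j]
    change _ - ζ j * (_ * 1) = 0
    ring)
  exact ⟨τ, hτ⟩

theorem Strip.phi_dvd_all (S : Strip t P Q T R x ζ) {w : ℕ} {G : R3}
    (h : ∀ j, (Polynomial.X : Polynomial R3) ^ w ∣ kap (x j) (ζ j) G) (j : Fin (2 * t + 1)) :
    LL (x j) ^ w ∣ phi P T G := by
  obtain ⟨τ, hτ⟩ := S.exists_tau j
  exact phi_dvd hτ (h j)

theorem Strip.not_dvd (S : Strip t P Q T R x ζ) (j : Fin (2 * t + 1)) : ¬ LL (x j) ∣ P := by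
  rintro ⟨g, hg⟩
  apply S.hPx j
  rw [hg, map_mul, eval_LL, sub_self, zero_mul]

/-- removal of the powers of `P` -/
theorem Strip.dvd_of_pow (S : Strip t P Q T R x ζ) {w n : ℕ} {h : R2}
    (hd : ∀ j, LL (x j) ^ w ∣ P ^ n * h) : (∏ j, LL (x j)) ^ w ∣ h := by
  apply prod_LL_dvd S.hx
  intro j
  apply (LL_prime (x j)).pow_dvd_of_dvd_mul_left w _ (hd j)
  intro h1
  exact S.not_dvd j ((LL_prime (x j)).dvd_of_dvd_pow h1)

/-- a form of too small degree vanishes -/
theorem Strip.eq_zero (S : Strip t P Q T R x ζ) {w n : ℕ} {h : R2} (hh : h.IsHomogeneous n)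
    (hn : n < w * (2 * t + 1)) (hd : (∏ j, LL (x j)) ^ w ∣ h) : h = 0 := by
  obtain ⟨g, hg⟩ := hd
  obtain ⟨g', _, h1, h2⟩ := hom_factor (S.prod_hom.pow w) hh hg
  rw [h2, h1 (by rw [mul_comm]; exact hn), mul_zero]

theorem Strip.Uz_dvd (S : Strip t P Q T R x ζ) {D : ℕ} {G : R3} (hG : G.IsHomogeneous D)
    (h : phi P T G = 0) : Uz P T ∣ G := by
  have h1 := phi_mod P T hG
  rw [h, map_zero, sub_zero] at h1
  exact Str.Uz_dvd S.P_ne S.relPrime h1

theorem Strip.empty_aux (S : Strip t P Q T R x ζ) {β : ℕ} (hβ : β < t) (u : ℕ) :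
    ∀ G : R3, G.IsHomogeneous ((u + 1) * (t + 1) + β) → G.degreeOf 2 ≤ u →
      (∀ j, (Polynomial.X : Polynomial R3) ^ (u + 1) ∣ kap (x j) (ζ j) G) → G = 0 := by
  induction u with
  | zero =>
    intro G hG hz hv
    by_contra hG0
    have hw : 0 ≤ (0 + 1) * (t + 1) + β := Nat.zero_le _
    obtain ⟨h, hh, hφ⟩ := phi_small S.hP S.hT hG hw hz
    have h1 : h = 0 := by
      apply S.eq_zero (w := 0 + 1) hh (by omega)
      apply S.dvd_of_pow (n := (0 + 1) * (t + 1) + β - 0)
      intro j
      rw [← hφ]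
      exact S.phi_dvd_all hv j
    rw [h1, mul_zero] at hφ
    obtain ⟨G2, hG2⟩ := S.Uz_dvd hG hφ
    have h2 : G2 ≠ 0 := by
      rintro rfl
      apply hG0
      rw [hG2, mul_zero]
    have h3 : Uz P T ≠ 0 := by
      intro h
      apply hG0
      rw [hG2, h, zero_mul]
    rw [hG2, degreeOf_mul_eq h3 h2, Uz_degreeOf S.P_ne] at hz
    omega
  | succ u ih =>
    intro G hG hz hv
    have hw : u + 1 ≤ (u + 1 + 1) * (t + 1) + β := by nlinarith
    obtain ⟨h, hh, hφ⟩ := phi_small S.hP S.hT hG hw hz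
    have h1 : h = 0 := by
      apply S.eq_zero (w := u + 1 + 1) hh (by nlinarith)
      apply S.dvd_of_pow (n := (u + 1 + 1) * (t + 1) + β - (u + 1))
      intro j
      rw [← hφ]
      exact S.phi_dvd_all hv j
    rw [h1, mul_zero] at hφ
    obtain ⟨G1, hG1⟩ := S.Uz_dvd hG hφ
    obtain ⟨G2, hG2h, -, hG2⟩ := hom_factor (Uz_hom S.hP S.hT) hG hG1
    have hdeg : (u + 1 + 1) * (t + 1) + β - (t + 1) = (u + 1) * (t + 1) + β := by
      have : (u + 1 + 1) * (t + 1) = (u + 1) * (t + 1) + (t + 1) := by ring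
      omega
    rw [hdeg] at hG2h
    have h2 : G2 = 0 := by
      by_contra h2
      apply h2
      apply ih G2 hG2h
      · have h3 : Uz P T ≠ 0 := by
          intro h
          have := Uz_degreeOf (T := T) S.P_ne
          rw [h, degreeOf_zero] at this
          omega
        rw [hG2, degreeOf_mul_eq h3 h2, Uz_degreeOf S.P_ne] at hz
        omega
      · intro j
        apply dvd_of_Uz_mul S.hP S.hT (S.hPx j) (S.hT' j)
        rw [← hG2]
        exact hv j
    rw [hG2, h2, mul_zero]

theorem Strip.empty (S : Strip t P Q T R x ζ)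
    {u β : ℕ} (hu : 1 ≤ u) (hβ : β < t) {G : R3} (hG : G.IsHomogeneous (u * (t + 1) + β))
    (hz : ∀ α, coeff α G ≠ 0 → α 2 < u) (hv : ∀ j, VanishTo G (sp x ζ j) u) : G = 0 := by
  obtain ⟨v, rfl⟩ : ∃ v, u = v + 1 := ⟨u - 1, by omega⟩
  apply S.empty_aux hβ v G hG
  · rw [degreeOf_le_iff]
    intro α hα
    have := hz α (MvPolynomial.mem_support_iff.mp hα)
    omega
  · intro j
    exact kap_dvd hG (hv j)

theorem Strip.VU (S : Strip t P Q T R x ζ) :
    emb P * Uz Q R - -emb (∏ j, LL (x j)) = emb Q * Uz P T := by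
  rw [← S.prodLL, map_sub, map_mul, map_mul]
  unfold Uz
  ring

theorem Strip.step (S : Strip t P Q T R x ζ) {w D : ℕ} {G : R3} (hG : G.IsHomogeneous D)
    (hz : G.degreeOf 2 ≤ w + 1)
    (hv : ∀ j, (Polynomial.X : Polynomial R3) ^ (w + 1) ∣ kap (x j) (ζ j) G) :
    ∃ ψ : R2, ψ.IsHomogeneous (D - (w + 1) * (t + 1)) ∧ (D < (w + 1) * (t + 1) → ψ = 0) ∧
      Uz P T ∣ G - emb ψ * Uz Q R ^ (w + 1) := by
  by_cases hφ0 : phi P T G = 0
  · refine ⟨0, isHomogeneous_zero _ _ _, fun _ => rfl, ?_⟩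
    rw [map_zero, zero_mul, sub_zero]
    exact S.Uz_dvd hG hφ0
  · have hφh : (phi P T G).IsHomogeneous ((t + 1) * D) := by
      unfold phi
      apply hG.aeval
      intro i
      fin_cases i
      · exact S.hP.mul (isHomogeneous_X _ _)
      · exact S.hP.mul (isHomogeneous_X _ _)
      · exact S.hT
    have hw : w + 1 ≤ D := by
      by_contra hw
      apply hφ0
      apply S.eq_zero (w := w + 1) hφh
      · have h1 : (t + 1) * D < (t + 1) * (w + 1) := Nat.mul_lt_mul_of_pos_left (by omega) (by omega)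
        have h2 : (t + 1) * (w + 1) ≤ (w + 1) * (2 * t + 1) := by nlinarith
        omega
      · exact prod_LL_dvd S.hx (S.phi_dvd_all hv)
    obtain ⟨h, hh, hφ⟩ := phi_small S.hP S.hT hG hw hz
    have h1 : (∏ j, LL (x j)) ^ (w + 1) ∣ h := by
      apply S.dvd_of_pow (n := D - (w + 1))
      intro j
      rw [← hφ]
      exact S.phi_dvd_all hv j
    obtain ⟨g, hg⟩ := h1
    obtain ⟨ψ, hψ, hψ0, hψe⟩ := hom_factor (S.prod_hom.pow (w + 1)) hh hg
    have hdeg : (2 * t + 1) * (w + 1) = (w + 1) * (t + 1) + (w + 1) * t := by ring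
    have hψ' : ψ.IsHomogeneous (D - (w + 1) * (t + 1)) := by
      have : D + (w + 1) * t - (2 * t + 1) * (w + 1) = D - (w + 1) * (t + 1) := by
        rw [hdeg]
        omega
      rwa [this] at hψ
    refine ⟨C ((-1) ^ (w + 1)) * ψ, hψ'.C_mul _, ?_, ?_⟩
    · intro hD
      rw [hψ0 (by rw [hdeg]; omega), mul_zero]
    · apply Str.Uz_dvd S.P_ne S.relPrime (n := D)
      have h2 := phi_mod P T hG
      have h3 : emb P * Uz Q R - -emb (∏ j, LL (x j)) ∣
          (emb P * Uz Q R) ^ (w + 1) - (-emb (∏ j, LL (x j))) ^ (w + 1) :=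
        sub_dvd_pow_sub_pow _ _ _
      rw [S.VU] at h3
      have h4 : Uz P T ∣ (emb P * Uz Q R) ^ (w + 1) - (-emb (∏ j, LL (x j))) ^ (w + 1) :=
        (Dvd.intro_left _ rfl).trans h3
      have h5 : emb P ^ D = emb P ^ (D - (w + 1)) * emb P ^ (w + 1) := by
        rw [← pow_add, Nat.sub_add_cancel hw]
      have h6 : emb (phi P T G) = emb P ^ (D - (w + 1)) * (emb (∏ j, LL (x j)) ^ (w + 1) * emb ψ) := by
        rw [hφ, hψe, map_mul, map_mul, map_pow, map_pow]
      have h7 : ((-1 : R3) ^ (w + 1)) * (-1) ^ (w + 1) = 1 := by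
        rw [← mul_pow]
        norm_num
      have h8 : emb P ^ D * (G - emb (C ((-1) ^ (w + 1)) * ψ) * Uz Q R ^ (w + 1)) =
          (emb P ^ D * G - emb (phi P T G)) - emb P ^ (D - (w + 1)) * (-1) ^ (w + 1) * emb ψ *
            ((emb P * Uz Q R) ^ (w + 1) - (-emb (∏ j, LL (x j))) ^ (w + 1)) := by
        have h9 : emb (C ((-1) ^ (w + 1)) * ψ) = (-1) ^ (w + 1) * emb ψ := by
          rw [map_mul, emb_C, C_pow, C_neg, C_1]
        rw [h9, h6, neg_pow (emb (∏ j, LL (x j))), mul_pow]
        linear_combination (-(-1) ^ (w + 1) * emb ψ * Uz Q R ^ (w + 1)) * h5 -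
          (emb P ^ (D - (w + 1)) * emb ψ * emb (∏ j, LL (x j)) ^ (w + 1)) * h7
      rw [h8]
      exact dvd_sub h2 (h4.mul_left _)

theorem Strip.struct_aux (S : Strip t P Q T R x ζ) (w : ℕ) :
    ∀ (D : ℕ) (G : R3), G.IsHomogeneous D → G.degreeOf 2 ≤ w →
      (∀ j, (Polynomial.X : Polynomial R3) ^ w ∣ kap (x j) (ζ j) G) →
      ∃ Φ : R4, BiHom w (D - w * (t + 1)) Φ ∧ (D < w * (t + 1) → Φ = 0) ∧
        onS P Q T R Φ = G := by
  induction w with
  | zero =>
    intro D G hG hz hv
    refine ⟨em4 (res G), ?_, fun h => absurd h (by omega), ?_⟩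
    · rw [zero_mul, Nat.sub_zero]
      exact em4_biHom (res_isHom hG)
    · rw [onS_em4, emb_res (by omega)]
  | succ w ih =>
    intro D G hG hz hv
    obtain ⟨ψ, hψ, hψ0, hψd⟩ := S.step hG hz hv
    have hVh := Uz_hom S.hQ S.hR
    have h1 : (emb ψ * Uz Q R ^ (w + 1)).IsHomogeneous D := by
      by_cases hD : D < (w + 1) * (t + 1)
      · rw [hψ0 hD, map_zero, zero_mul]
        exact isHomogeneous_zero _ _ _
      · have h2 := (emb_hom hψ).mul (hVh.pow (w + 1))
        have h3 : D - (w + 1) * (t + 1) + (t + 1) * (w + 1) = D := by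
          have : (t + 1) * (w + 1) = (w + 1) * (t + 1) := by ring
          omega
        rwa [h3] at h2
    have h2 : (emb ψ * Uz Q R ^ (w + 1)).degreeOf 2 ≤ w + 1 := by
      have h3 := degreeOf_mul_le 2 (emb ψ) (Uz Q R ^ (w + 1))
      have h4 := degreeOf_pow_le 2 (Uz Q R) (w + 1)
      have h5 := Uz_degreeOf_le Q R
      rw [emb_degreeOf] at h3
      have h6 : (w + 1) * (Uz Q R).degreeOf 2 ≤ (w + 1) * 1 := Nat.mul_le_mul_left _ h5
      omega
    have h3 : ∀ j, (Polynomial.X : Polynomial R3) ^ (w + 1) ∣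
        kap (x j) (ζ j) (emb ψ * Uz Q R ^ (w + 1)) := by
      intro j
      rw [map_mul, map_pow]
      exact (pow_dvd_pow_of_dvd (Uz_kap_dvd S.hQ S.hR (S.hR' j)) (w + 1)).mul_left _
    obtain ⟨g, hg⟩ := hψd
    obtain ⟨G2, hG2h, hG20, hG2⟩ := hom_factor (Uz_hom S.hP S.hT) (hG.sub h1) hg
    have hU0 : Uz P T ≠ 0 := by
      intro h
      have := Uz_degreeOf (T := T) S.P_ne
      rw [h, degreeOf_zero] at this
      omega
    have hexp : (w + 1) * (t + 1) = w * (t + 1) + (t + 1) := by ring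
    obtain ⟨Φ2, hΦ2, hΦ20, hΦ2e⟩ : ∃ Φ2 : R4, BiHom w (D - (w + 1) * (t + 1)) Φ2 ∧
        (D < (w + 1) * (t + 1) → Φ2 = 0) ∧ onS P Q T R Φ2 = G2 := by
      by_cases hD : D < t + 1
      · exact ⟨0, biHom_zero _ _, fun _ => rfl, by rw [map_zero, hG20 hD]⟩
      · have hz2 : G2.degreeOf 2 ≤ w := by
          by_cases hG2z : G2 = 0
          · rw [hG2z, degreeOf_zero]
            omega
          · have h4 : (Uz P T * G2).degreeOf 2 ≤ w + 1 := by
              rw [← hG2, sub_eq_add_neg]
              have h5 := degreeOf_add_le 2 G (-(emb ψ * Uz Q R ^ (w + 1)))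
              have h6 : (-(emb ψ * Uz Q R ^ (w + 1))).degreeOf 2 ≤ w + 1 := by
                have h7 := degreeOf_C_mul_le (emb ψ * Uz Q R ^ (w + 1)) 2 (-1)
                rw [C_neg, C_1, neg_one_mul] at h7
                omega
              omega
            rw [degreeOf_mul_eq hU0 hG2z, Uz_degreeOf S.P_ne] at h4
            omega
        have hv2 : ∀ j, (Polynomial.X : Polynomial R3) ^ w ∣ kap (x j) (ζ j) G2 := by
          intro j
          apply dvd_of_Uz_mul S.hP S.hT (S.hPx j) (S.hT' j)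
          rw [← hG2, map_sub]
          exact dvd_sub (hv j) (h3 j)
        obtain ⟨Φ2, a1, a2, a3⟩ := ih (D - (t + 1)) G2 hG2h hz2 hv2
        refine ⟨Φ2, ?_, fun h => a2 (by omega), a3⟩
        have h4 : D - (t + 1) - w * (t + 1) = D - (w + 1) * (t + 1) := by omega
        rwa [h4] at a1
    refine ⟨X 0 * Φ2 + em4 ψ * X 1 ^ (w + 1), ?_, ?_, ?_⟩
    · apply biHom_add
      · have h4 := biHom_mul biHom_X0 hΦ2
        rwa [add_comm 1 w, zero_add] at h4
      · have h4 := biHom_mul (em4_biHom hψ) (biHom_pow biHom_X1 (w + 1))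
        rwa [zero_add, mul_one, mul_zero, add_zero] at h4
    · intro hD
      rw [hΦ20 hD, hψ0 hD, map_zero, mul_zero, zero_mul, add_zero]
    · rw [map_add, map_mul, map_mul, map_pow, onS_X0, onS_X1, onS_em4, hΦ2e, ← hG2]
      ring

theorem Strip.struct (S : Strip t P Q T R x ζ)
    {w D : ℕ} {G : R3} (hG : G.IsHomogeneous D) (hz : ∀ α, coeff α G ≠ 0 → α 2 ≤ w)
    (hv : ∀ j, VanishTo G (sp x ζ j) w) :
    ∃ Φ : R4, (∀ α, coeff α Φ ≠ 0 → α 0 + α 1 = w ∧ α 2 + α 3 + w * (t + 1) = D) ∧
      onS P Q T R Φ = G := by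
  obtain ⟨Φ, h1, h2, h3⟩ := S.struct_aux w D G hG
    (degreeOf_le_iff.mpr fun α hα => hz α (MvPolynomial.mem_support_iff.mp hα))
    (fun j => kap_dvd hG (hv j))
  refine ⟨Φ, ?_, h3⟩
  intro α hα
  obtain ⟨h4, h5⟩ := h1 α hα
  refine ⟨h4, ?_⟩
  by_cases hD : D < w * (t + 1)
  · rw [h2 hD, coeff_zero] at hα
    exact absurd rfl hα
  · omega

end

end Pool.Agent.Work.MP_0421d9_ag.SM
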