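import Pool.Agent.Work.MP_0421d9_ag.SPencil
import Pool.Agent.Work.MP_0421d9_ag.SStruct
import Pool.Agent.Work.MP_0421d9_ag.SCoef
import Pool.Agent.Work.MP_0421d9_ag.SPside
import Pool.Agent.Work.MP_0421d9_ag.SBez
import Pool.Agent.Work.MP_0421d9_ag.SNorm
import Pool.Agent.Work.MP_0421d9_ag.SSpec
import Pool.Agent.Work.MP_0421d9_ag.SPos2
import Pool.Agent.Work.MP_0421d9_ag.SCoefR

/-!
The limit of the degeneration: the rigid member is not bad.
-/

set_option linter.unusedSectionVars false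
set_option linter.unusedVariables false

namespace Pool.Agent.Work.MP_0421d9_ag.SM

open MvPolynomial Module

/-- a place which moves the points `p (inr j)` to prescribed points infinitely near to the line
`z = 0` -/
theorem exists_strip_place {ι : Type} [Finite ι] {N : ℕ} {p : ι ⊕ Fin N → V3}
    (hp : AlgebraicIndependent ℚ (fun z : (ι ⊕ Fin N) × Fin 3 => p z.1 z.2)) (x ζ : Fin N → ℂ) :
    ∃ (ρ : Pl) (τ : ℂ), τ ≠ 0 ∧ ρ.L τ 0 ∧
      (∀ i k, ρ.L (p (Sum.inl i) k) (p (Sum.inl i) k)) ∧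
      ∀ j, ρ.L (p (Sum.inr j) 0) (x j) ∧ ρ.L (p (Sum.inr j) 1) 1 ∧
        ρ.L (p (Sum.inr j) 2 / τ) (ζ j) := by
  let f : ((ι × Fin 3) ⊕ (Fin N × Fin 2)) ⊕ Fin N → (ι ⊕ Fin N) × Fin 3 :=
    Sum.elim (Sum.elim (fun z => (Sum.inl z.1, z.2)) (fun z => (Sum.inr z.1, Fin.castSucc z.2)))
      (fun j => (Sum.inr j, 2))
  have hf : Function.Injective f := by
    rintro ((⟨i, k⟩ | ⟨i, k⟩) | i) ((⟨j, l⟩ | ⟨j, l⟩) | j) h
    · simp only [f, Sum.elim_inl, Prod.mk.injEq, Sum.inl.injEq] at h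
      rw [h.1, h.2]
    · simp [f] at h
    · simp [f] at h
    · simp [f] at h
    · simp only [f, Sum.elim_inl, Sum.elim_inr, Prod.mk.injEq, Sum.inr.injEq,
        Fin.castSucc_inj] at h
      rw [h.1, h.2]
    · simp only [f, Sum.elim_inl, Sum.elim_inr, Prod.mk.injEq] at h
      have := congrArg Fin.val h.2
      fin_cases k <;> simp at this
    · simp [f] at h
    · simp only [f, Sum.elim_inl, Sum.elim_inr, Prod.mk.injEq] at h
      have := congrArg Fin.val h.2
      fin_cases l <;> simp at this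
    · simp only [f, Sum.elim_inr, Prod.mk.injEq, Sum.inr.injEq, and_true] at h
      rw [h]
  set x₁ : (ι × Fin 3) ⊕ (Fin N × Fin 2) → ℂ := Sum.elim (fun z => p (Sum.inl z.1) z.2)
    (fun z => p (Sum.inr z.1) (Fin.castSucc z.2)) with hx₁
  set z₁ : Fin N → ℂ := fun j => p (Sum.inr j) 2 with hz₁
  have h1 : AlgebraicIndependent ℚ (Sum.elim x₁ z₁) := by
    have h := hp.comp f hf
    have h' : (fun z : (ι ⊕ Fin N) × Fin 3 => p z.1 z.2) ∘ f = Sum.elim x₁ z₁ := by
      funext z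
      rcases z with (z | z) | z <;> rfl
    rwa [h'] at h
  obtain ⟨w, hw⟩ := algInd_extend (β := Unit) h1
  set τ : ℂ := w () with hτ
  have hw' : AlgebraicIndependent ℚ (Sum.elim (Sum.elim x₁ z₁) (fun _ : Unit => τ)) := hw
  have hτ0 : τ ≠ 0 := hw'.ne_zero (Sum.inr ())
  obtain ⟨ρ, hρ⟩ := exists_place _ (algInd_div x₁ z₁ τ hw')
    (Sum.elim (Sum.elim (Sum.elim (fun z => p (Sum.inl z.1) z.2)
      (fun z => if z.2 = 0 then x z.1 else 1)) ζ) (fun _ => 0))
  refine ⟨ρ, τ, hτ0, hρ (Sum.inr ()), fun i k => hρ (Sum.inl (Sum.inl (Sum.inl (i, k)))),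
    fun j => ⟨?_, ?_, ?_⟩⟩
  · exact hρ (Sum.inl (Sum.inl (Sum.inr (j, 0))))
  · exact hρ (Sum.inl (Sum.inl (Sum.inr (j, 1))))
  · exact hρ (Sum.inl (Sum.inr j))

theorem pderiv_emb_one (P : R2) : pderiv 1 (emb P) = emb (pderiv 1 P) := by
  unfold emb
  rw [pderiv_aeval, Fin.sum_univ_two]
  simp

theorem cr_smul_right (a b : V3) (c : ℂ) : cr a (c • b) = c • cr a b := by
  ext k
  fin_cases k <;> simp [cr] <;> ring

theorem badDir_C_mul {d m : ℕ} {F : R3} {p v : V3} (h : BadDir d F p m v) (c : ℂ) :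
    BadDir d (C c * F) p m v := by
  refine ⟨?_, fun hm w => ?_⟩
  · rw [B_C_mul_right, h.1, mul_zero]
  · rw [B_C_mul_right, h.2 hm w, mul_zero]

theorem linSys_C_mul {ι : Type} {d : ℕ} {p : ι → V3} {m : ι → ℕ} {F : R3}
    (h : F ∈ linSys d p m) (c : ℂ) : C c * F ∈ linSys d p m := by
  rw [← smul_eq_C_mul]
  exact Submodule.smul_mem _ c h

theorem vanishTo_C_mul {F : R3} {a : V3} {m : ℕ} (h : VanishTo F a m) (c : ℂ) :
    VanishTo (C c * F) a m := by
  rw [← smul_eq_C_mul]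
  exact vanishTo_smul c h

theorem sing_C_mul {F : R3} {q : V3} (h : ∀ k, eval q (pderiv k F) = 0) (c : ℂ) :
    ∀ k, eval q (pderiv k (C c * F)) = 0 := by
  intro k
  rw [pderiv_C_mul, map_mul, h k, mul_zero]

section data

variable {ι : Type} [Fintype ι] [DecidableEq ι] {n M u a β : ℕ}

/-- the data of the degeneration -/
structure Deg (n u t β : ℕ) (p : ι ⊕ Fin (2 * t + 1) → V3) (m : ι → ℕ) (P Q T R : R2)
    (x ζ : Fin (2 * t + 1) → ℂ) (ρ : Pl) (τ : ℂ) (F : R3) : Prop where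
  hu : 1 ≤ u
  hn : 1 ≤ n
  hdeg : n + u = u * (t + 1) + β
  hβ : β < t
  hpr : ∀ i, p (Sum.inl i) 2 ≠ 0
  hm : ∀ i, m i ≤ n
  hlow : linSys (n - 1) (fun i => p (Sum.inl i)) m = ⊥
  S : Strip t P Q T R x ζ
  hτ0 : τ ≠ 0
  hτ : ρ.L τ 0
  hρ : ∀ i k, ρ.L (p (Sum.inl i) k) (p (Sum.inl i) k)
  hρ0 : ∀ j, ρ.L (p (Sum.inr j) 0) (x j)
  hρ1 : ∀ j, ρ.L (p (Sum.inr j) 1) 1
  hρ2 : ∀ j, ρ.L (p (Sum.inr j) 2 / τ) (ζ j)
  hF : F ∈ linSys (n + u) p (Sum.elim m (fun _ => u))
  hF0 : F ≠ 0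

variable {t : ℕ} {p : ι ⊕ Fin (2 * t + 1) → V3} {m : ι → ℕ} {P Q T R : R2}
  {x ζ : Fin (2 * t + 1) → ℂ} {ρ : Pl} {τ : ℂ} {F : R3}

theorem Deg.scv_spec (S : Deg n u t β p m P Q T R x ζ ρ τ F) (j : Fin (2 * t + 1)) :
    ∀ k, ρ.L (scv τ (p (Sum.inr j)) k) (sp x ζ j k) := by
  intro k
  fin_cases k
  · exact S.hρ0 j
  · exact S.hρ1 j
  · exact S.hρ2 j

theorem Deg.vanish_G (S : Deg n u t β p m P Q T R x ζ ρ τ F) {c : ℂ} {G : R3}
    (hG : ρ.LP (C c * scz τ F) G) (j : Fin (2 * t + 1)) : VanishTo G (sp x ζ j) u := by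
  have h1 : VanishTo (scz τ F) (scv τ (p (Sum.inr j))) u :=
    vanishTo_scz S.hτ0 S.hF.1 (S.hF.2 (Sum.inr j))
  exact hG.vanishTo ((scz_hom τ S.hF.1).C_mul c) (S.scv_spec j) (vanishTo_C_mul h1 c)

/-- **The limit.** -/
theorem Deg.limit (S : Deg n u t β p m P Q T R x ζ ρ τ F) :
    ∃ (c : ℂ) (Ft : R3) (Φ : R4), c ≠ 0 ∧ Ft ∈ linSys n (fun i => p (Sum.inl i)) m ∧ Ft ≠ 0 ∧
      BiHom u β Φ ∧ res Ft = onC P Q Φ ∧ ρ.LP (C c * F) (X 2 ^ u * Ft) ∧
      ρ.LP (C (c / τ ^ u) * scz τ F) (onS P Q T R Φ) := by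
  have hrest : F ∈ linSys (n + u) (fun i => p (Sum.inl i)) m :=
    ⟨S.hF.1, fun i => S.hF.2 (Sum.inl i)⟩
  obtain ⟨c, Fb, G, hc, hFb, hG, hFb0, hord, hdeg, heq⟩ := limit_form ρ S.hτ0 S.hτ (u := u) S.hF0
    (fun c Fb hFb hFb0 => by
      by_contra hcon
      push Not at hcon
      have h1 : Fb ∈ linSys (n + u) (fun i => p (Sum.inl i)) m :=
        hFb.linSys S.hρ (linSys_C_mul hrest c)
      obtain ⟨K, hK, hKF⟩ := exists_z_factor (k := u + 1) h1.1 (fun α hα => hcon α hα)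
      have h2 : K ∈ linSys (n - 1) (fun i => p (Sum.inl i)) m := by
        refine ⟨?_, fun i => ?_⟩
        · have : n + u - (u + 1) = n - 1 := by omega
          rwa [this] at hK
        · apply vanishTo_of_X_pow_mul (S.hpr i) (u + 1)
          rw [hKF]
          exact h1.2 i
      rw [S.hlow, Submodule.mem_bot] at h2
      apply hFb0
      rw [← hKF, h2, mul_zero])
    (fun c G hG hG0 => by
      by_contra hcon
      push Not at hcon
      apply hG0
      have h1 : G.IsHomogeneous (n + u) := hG.homogeneous ((scz_hom τ S.hF.1).C_mul c)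
      rw [S.hdeg] at h1
      exact S.S.empty S.hu S.hβ h1 (fun α hα => by
        exact hcon α hα) (S.vanish_G hG))
  have h1 : Fb ∈ linSys (n + u) (fun i => p (Sum.inl i)) m :=
    hFb.linSys S.hρ (linSys_C_mul hrest c)
  obtain ⟨Ft, hFt, hFtF⟩ := exists_z_factor (k := u) h1.1 hord
  rw [Nat.add_sub_cancel] at hFt
  have hFt0 : Ft ≠ 0 := by
    rintro rfl
    apply hFb0
    rw [← hFtF, mul_zero]
  have hGh : G.IsHomogeneous (n + u) := hG.homogeneous ((scz_hom τ S.hF.1).C_mul _)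
  obtain ⟨Φ, hΦ, hΦG⟩ := S.S.struct hGh hdeg (S.vanish_G hG)
  have hbi : BiHom u β Φ := by
    intro α hα
    obtain ⟨h2, h3⟩ := hΦ α hα
    have h4 := S.hdeg
    exact ⟨h2, by omega⟩
  refine ⟨c, Ft, Φ, hc, ⟨hFt, fun i => ?_⟩, hFt0, hbi, ?_, ?_, ?_⟩
  · apply vanishTo_of_X_pow_mul (S.hpr i) u
    rw [hFtF]
    exact h1.2 i
  · ext α
    have hα : α = e2 (α 0) (α 1) := e2_eq.mpr ⟨rfl, rfl⟩
    rw [hα, coeff_res, ← coeff_X2_pow_mul u, hFtF, zero_add, heq _ rfl, ← hΦG]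
    exact coeff_onS P Q T R hbi (α 0) (α 1)
  · rw [hFtF]
    exact hFb
  · rw [hΦG]
    exact hG

/-- the conclusion of the degeneration -/
theorem Deg.not_bad (S : Deg n u t β p m P Q T R x ζ ρ τ F)
    (hpn : ∀ j, p (Sum.inr j) ≠ 0)
    (hgood : ∀ Ft ∈ linSys n (fun i => p (Sum.inl i)) m, ∀ Φ, BiHom u β Φ →
      res Ft = onC P Q Φ → Ft ≠ 0 → ¬ Bad n (fun i => p (Sum.inl i)) m Ft ∧ SmoothΦ Φ ∧
        NoDouble (res Ft) ∧ (∀ j, eval ![x j, 1] (onC P Q Φ) ≠ 0) ∧ ∀ j, NoDir Φ ![x j, 1]) :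
    ¬ Bad (n + u) p (Sum.elim m (fun _ => u)) F := by
  obtain ⟨c, Ft, Φ, hc, hFt, hFt0, hΦ, hres, hlim, hlimS⟩ := S.limit
  obtain ⟨hnb, hsm, hnd, hsx, hdir⟩ := hgood Ft hFt Φ hΦ hres hFt0
  have hu := S.hu
  have hn1 := S.hn
  have hspn : ∀ j, sp x ζ j ≠ 0 := fun j h => one_ne_zero (congrFun h 1)
  have hprn : ∀ i, p (Sum.inl i) ≠ 0 := fun i h => S.hpr i (congrFun h 2)
  have hFh := S.hF.1
  have hcFh : (C c * F).IsHomogeneous (n + u) := hFh.C_mul c
  have hsFh : (C (c / τ ^ u) * scz τ F).IsHomogeneous (n + u) := (scz_hom τ hFh).C_mul _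
  -- bad directions of the limits
  have hno1 : ∀ i v, cr (p (Sum.inl i)) v ≠ 0 →
      ¬ BadDir (n + u) (X 2 ^ u * Ft) (p (Sum.inl i)) (m i) v := by
    intro i v hv hb
    exact hnb (Or.inr ⟨i, v, hv,
      badDir_of_z_pow (S.hm i) hFt.1 (S.hpr i) (hFt.2 i) hb⟩)
  have hno2 : ∀ j v, cr (sp x ζ j) v ≠ 0 →
      ¬ BadDir (n + u) (onS P Q T R Φ) (sp x ζ j) u v := by
    intro j v hv hb
    rw [S.hdeg] at hb
    exact S.S.no_tang hu hΦ hdir hv hb
  rintro (⟨q, hq0, hqp, hgrad⟩ | ⟨i, v, hv, hbad⟩)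
  · obtain ⟨e, he, b, hb0, hqb⟩ := ρ.exists_scale_vec q hq0
    set q' : V3 := e • q with hq'
    have hgrad' : ∀ k, eval q' (pderiv k F) = 0 := by
      intro k
      rw [hq', eval_smul_of_hom hFh.pderiv, hgrad k, mul_zero]
    have hqp' : ∀ i, cr (p i) q' ≠ 0 := by
      intro i
      rw [hq', cr_smul_right]
      exact smul_ne_zero he (hqp i)
    have hqb' : ∀ k, ρ.L (q' k) (b k) := hqb
    by_cases hb2 : b 2 = 0
    · have hb01 : b 0 ≠ 0 ∨ b 1 ≠ 0 := by
        by_contra hcon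
        push Not at hcon
        apply hb0
        ext k
        fin_cases k
        · exact hcon.1
        · exact hcon.2
        · exact hb2
      have hcase : (∃ v, ρ.L (q' 2 / τ) v) ∨ (q' 2 ≠ 0 ∧ ρ.L (τ / q' 2) 0) := by
        rcases ρ.tot (q' 2 / τ) with h | h
        · exact Or.inl h
        · by_cases hz : q' 2 = 0
          · left
            refine ⟨0, ?_⟩
            rw [hz, zero_div]
            exact ρ.zero
          · right
            rw [inv_div] at h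
            exact ⟨hz, h⟩
      rcases hcase with ⟨v, hv⟩ | ⟨hz, hz'⟩
      · -- the point lies in the strip
        set b' : V3 := ![b 0, b 1, v] with hb'
        have hspec : ∀ k, ρ.L (scv τ q' k) (b' k) := by
          intro k
          fin_cases k
          · exact hqb' 0
          · exact hqb' 1
          · exact hv
        have hb'0 : b' ≠ 0 := by
          intro h
          rcases hb01 with h1 | h1
          · exact h1 (congrFun h 0)
          · exact h1 (congrFun h 1)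
        have hg2 := sing_C_mul (sing_scz S.hτ0 hgrad') (c / τ ^ u)
        by_cases hj : ∃ j, cr (sp x ζ j) b' = 0
        · obtain ⟨j, hj⟩ := hj
          have hum : u ≤ n + u := Nat.le_add_left u n
          obtain ⟨w, hw, hbw⟩ := sing_spec ρ hsFh (by omega) hum hlimS (S.scv_spec j) hspec
            (hspn j) hb'0 (vanishTo_C_mul (vanishTo_scz S.hτ0 hFh (S.hF.2 (Sum.inr j))) _)
            (cr_scv S.hτ0 (hqp' (Sum.inr j))) hj hg2
          exact hno2 j w hw hbw
        · push Not at hj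
          obtain ⟨k, hk⟩ := S.S.smooth_out hu hΦ hsm hsx (v := b') hb01 hj
          apply hk
          have h1 := (hlimS.pderiv k).eval hspec
          rw [hg2 k] at h1
          exact ρ.fn h1 ρ.zero
      · -- the neck
        have hqz : ρ.L (q' 2) 0 := by
          have := hqb' 2
          rwa [hb2] at this
        have hneck := neck ρ S.hτ0 hlim hlimS hz hqz hz' (N := X 2 ^ u * emb (res Ft))
          (fun α => coeff_top u Ft α)
        set b' : V3 := ![b 0, b 1, 1] with hb'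
        have hspec : ∀ k, ρ.L (scv (q' 2) q' k) (b' k) := by
          intro k
          fin_cases k
          · exact hqb' 0
          · exact hqb' 1
          · change ρ.L (q' 2 / q' 2) 1
            rw [div_self hz]
            exact ρ.one
        have hg2 := sing_C_mul (sing_scz hz hgrad') (c / (q' 2) ^ u)
        have hy0 : (![b 0, b 1] : V2) ≠ 0 := by
          intro h
          rcases hb01 with h1 | h1
          · exact h1 (congrFun h 0)
          · exact h1 (congrFun h 1)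
        have hz2 : ∀ k, eval b' (pderiv k (X 2 ^ u * emb (res Ft))) = 0 := by
          intro k
          have h1 := (hneck.pderiv k).eval hspec
          rw [hg2 k] at h1
          exact ρ.fn h1 ρ.zero
        obtain ⟨k, hk⟩ := hnd _ hy0
        apply hk
        have hX : (X 2 : R3) ^ u = emb 1 * X 2 ^ u := by rw [map_one, one_mul]
        fin_cases k
        · have h1 := hz2 0
          rw [Derivation.leibniz, map_add, smul_eq_mul, smul_eq_mul, map_mul, map_mul, map_pow,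
            eval_X, pderiv_pow, pderiv_X_of_ne (by decide), mul_zero, map_zero, mul_zero,
            add_zero, Side.pderiv_emb_zero, Side.eval_emb] at h1
          have h2 : (b' 2) ^ u = 1 := one_pow u
          rw [h2, one_mul] at h1
          exact h1
        · have h1 := hz2 1
          rw [Derivation.leibniz, map_add, smul_eq_mul, smul_eq_mul, map_mul, map_mul, map_pow,
            eval_X, pderiv_pow, pderiv_X_of_ne (by decide), mul_zero, map_zero, mul_zero,
            add_zero] at h1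
          have h2 : (b' 2) ^ u = 1 := one_pow u
          have h3 : pderiv 1 (emb (res Ft)) = emb (pderiv 1 (res Ft)) := pderiv_emb_one _
          rw [h2, one_mul, h3, Side.eval_emb] at h1
          exact h1
    · -- the point stays in the plane
      by_cases hi : ∃ i : ι, cr (p (Sum.inl i)) b = 0
      · obtain ⟨i, hi⟩ := hi
        have hmi := S.hm i
        obtain ⟨w, hw, hbw⟩ := sing_spec ρ hcFh (by omega) (by omega : m i ≤ n + u) hlim
          (S.hρ i) hqb' (hprn i) hb0 (vanishTo_C_mul (S.hF.2 (Sum.inl i)) c)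
          (hqp' (Sum.inl i)) hi (sing_C_mul hgrad' c)
        exact hno1 i w hw hbw
      · push Not at hi
        have hz2 : ∀ k, eval b (pderiv k (X 2 ^ u * Ft)) = 0 := by
          intro k
          have h1 := (hlim.pderiv k).eval hqb'
          rw [sing_C_mul hgrad' c k] at h1
          exact ρ.fn h1 ρ.zero
        exact hnb (Or.inl ⟨b, hb0, hi, sing_of_z_pow hFt.1 hb2 hz2 (by omega)⟩)
  · rcases i with i | j
    · have hmi := S.hm i
      obtain ⟨w, hw, hbw⟩ := tang_spec ρ hcFh (by omega : m i ≤ n + u) hlim (S.hρ i) (hprn i)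
        (vanishTo_C_mul (S.hF.2 (Sum.inl i)) c) hv (badDir_C_mul hbad c)
      exact hno1 i w hw hbw
    · obtain ⟨w, hw, hbw⟩ := tang_spec ρ hsFh (Nat.le_add_left u n) hlimS (S.scv_spec j)
        (hspn j) (vanishTo_C_mul (vanishTo_scz S.hτ0 hFh (S.hF.2 (Sum.inr j))) _)
        (cr_scv S.hτ0 hv) (badDir_C_mul (badDir_scz S.hτ0 hbad) _)
      exact hno2 j w hw hbw

end data

theorem BiHom.cD {u b : ℕ} {Φ : R4} (h : BiHom u b Φ) (D : Derivation ℚ ℂ ℂ) :
    BiHom u b (cD D Φ) := by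
  intro α hα
  apply h
  intro h0
  apply hα
  rw [coeff_cD, h0, map_zero]

theorem strip_not_bad_aux {ι : Type} [Fintype ι] [DecidableEq ι] {n M u a β t : ℕ}
    (ht : β + 1 + a = t) {p : ι ⊕ Fin (2 * t + 1) → V3}
    (hp : AlgebraicIndependent ℚ (fun z : (ι ⊕ Fin (2 * t + 1)) × Fin 3 => p z.1 z.2))
    {m : ι → ℕ} (hM : ∀ i, m i ≤ M) (hu : 2 ≤ u) (huM : u ≤ M)
    (hn : 3 * (M + 2) ^ 2 ≤ n) (ha : M ^ 2 + 2 * M + 3 ≤ u * a)
    (hnβ : n + 1 = (u + 1) * (β + 1) + u * a)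
    (hχ : ∑ i, (m i + 1).choose 2 + (u * a + 1) = (n + 2).choose 2) {F : R3}
    (hF : F ∈ linSys (n + u) p (Sum.elim m (fun _ => u))) (hF0 : F ≠ 0) :
    ¬ Bad (n + u) p (Sum.elim m (fun _ => u)) F := by
  have hMn : M ≤ n := by nlinarith
  have hpr : AlgebraicIndependent ℚ (fun z : ι × Fin 3 => p (Sum.inl z.1) z.2) :=
    hp.comp (fun z : ι × Fin 3 => (Sum.inl z.1, z.2)) (fun z z' h => by
      rw [Prod.mk.injEq, Sum.inl.injEq] at h
      exact Prod.ext h.1 h.2)
  have hp2 : ∀ i, p (Sum.inl i) 2 ≠ 0 := fun i => hp.ne_zero (Sum.inl i, 2)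
  have ha1 : 1 ≤ a := by
    rcases Nat.eq_zero_or_pos a with h | h
    · rw [h, mul_zero] at ha
      nlinarith
    · exact h
  -- the lower system is empty
  have hlow : linSys (n - 1) (fun i => p (Sum.inl i)) m = ⊥ := by
    have hfin : Module.Finite ℂ (linSys (n - 1) (fun i => p (Sum.inl i)) m) :=
      Submodule.finiteDimensional_of_le (linSys_le _ _ _)
    have hM1 : 3 * M ^ 2 + 1 ≤ 3 * (M + 2) ^ 2 := by nlinarith
    have h0 := finrank_gen (p := fun i => p (Sum.inl i)) (n := n - 1) hpr hM (by omega)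
    have h1 : n - 1 + 2 = n + 1 := by omega
    rw [h1] at h0
    have h2 := choose_two_succ n
    have h3 : u * a ≤ n := by
      have : 1 ≤ (u + 1) * (β + 1) := Nat.mul_pos (by omega) (by omega)
      omega
    have h4 : finrank ℂ (linSys (n - 1) (fun i => p (Sum.inl i)) m) = 0 := by omega
    exact Submodule.finrank_eq_zero.mp h4
  obtain ⟨κ, hκ, w, P, Q, hw, hP, hQ, hPQ, hP0, hder, hgood, huniq⟩ :=
    exists_pencil (p := fun i => p (Sum.inl i)) hpr hM hu huM hn ha hnβ hχ hlow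
  rw [ht] at hP hQ
  obtain ⟨x, hx⟩ := Ind.extend (κ' := Fin (2 * t + 1)) hw
  -- derivations moving the points of the strip
  have hDx : ∀ j : Fin (2 * t + 1), ∃ D : Derivation ℚ ℂ ℂ, (∀ i k, D (p (Sum.inl i) k) = 0) ∧
      (∀ k, D (w k) = 0) ∧ D (x j) = 1 := by
    intro j
    obtain ⟨D, hD1, hD2⟩ := Ind.derivation hx (Sum.elim (fun _ => 0) (fun _ => 1))
    exact ⟨D, hD1, fun k => hD2 (Sum.inl k), hD2 (Sum.inr j)⟩
  have hPx : ∀ j, eval ![x j, 1] P ≠ 0 := by
    intro j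
    obtain ⟨D, hD1, hD2, hD3⟩ := hDx j
    refine generic_root hP hP0 (D := D) (κ := 0) ?_ hD3
    rw [(hder D hD2).1, C_0, zero_mul]
  have hxinj : Function.Injective x := by
    have h1 := AlgebraicIndependent.injective hx
    intro i j hij
    have h2 : (Sum.inr (Sum.inr i) : (ι × Fin 3) ⊕ (κ ⊕ Fin (2 * t + 1))) =
        Sum.inr (Sum.inr j) := h1 hij
    simpa using h2
  have hΔ : (∏ j, (X 0 - C (x j) * X 1) : R2).IsHomogeneous (2 * t + 1) := by
    have h := IsHomogeneous.prod (Finset.univ : Finset (Fin (2 * t + 1)))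
      (fun j => X 0 - C (x j) * X 1 : _ → R2) (fun _ => 1)
      (fun j _ => (isHomogeneous_X ℂ 0).sub ((isHomogeneous_X ℂ 1).C_mul (x j)))
    simpa using h
  obtain ⟨T, R, hT, hR, hdet⟩ := exists_TR hP hQ hPQ hΔ
  set ζ : Fin (2 * t + 1) → ℂ := fun j => eval ![x j, 1] T / eval ![x j, 1] P with hζ
  have hTx : ∀ j, eval ![x j, 1] T = eval ![x j, 1] P * ζ j := by
    intro j
    rw [hζ]
    field_simp [hPx j]
  have hRx : ∀ j, eval ![x j, 1] R = eval ![x j, 1] Q * ζ j := by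
    intro j
    have h1 := congrArg (eval ![x j, 1]) hdet
    rw [map_sub, map_mul, map_mul, map_prod, Finset.prod_eq_zero (Finset.mem_univ j) (by simp)]
      at h1
    have h2 := hTx j
    have h3 : eval ![x j, 1] P * (eval ![x j, 1] R - eval ![x j, 1] Q * ζ j) = 0 := by
      rw [h2] at h1
      linear_combination h1
    exact sub_eq_zero.mp ((mul_eq_zero.mp h3).resolve_left (hPx j))
  have S : Strip t P Q T R x ζ := ⟨hP, hQ, hT, hR, hxinj, hdet, hPx, hTx, hRx⟩
  obtain ⟨ρ, τ, hτ0, hτ, hρ, hρj⟩ := exists_strip_place hp x ζ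
  have hdeg : n + u = u * (t + 1) + β := by
    rw [← ht]
    nlinarith
  have hD : Deg n u t β p m P Q T R x ζ ρ τ F :=
    ⟨by omega, by nlinarith, hdeg, by omega, hp2, fun i => (hM i).trans hMn, hlow, S, hτ0, hτ,
      hρ, fun j => (hρj j).1, fun j => (hρj j).2.1, fun j => (hρj j).2.2, hF, hF0⟩
  apply hD.not_bad (fun j h => hp.ne_zero (Sum.inr j, 2) (congrFun h 2))
  intro Ft hFt Φ hΦ hres hFt0
  obtain ⟨hnb, hsm, hnd⟩ := hgood Ft hFt Φ hΦ hres hFt0
  -- the derivations multiply the solution by constants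
  have hmn : ∀ i, m i ≤ n + 1 := fun i => (hM i).trans (by omega)
  have hsol : ∀ j, ∃ (D : Derivation ℚ ℂ ℂ) (c : ℂ), D (x j) = 1 ∧ cD D Ft = C c * Ft ∧
      cD D Φ = C c * Φ := by
    intro j
    obtain ⟨D, hD1, hD2, hD3⟩ := hDx j
    obtain ⟨h1, h2⟩ := hder D hD2
    obtain ⟨c, hc1, hc2⟩ := huniq Ft hFt Φ hΦ hres hFt0 (cD D Ft)
      (linSys_cD_mem hmn hFt (fun i => Or.inl (hD1 i))) (cD D Φ) (hΦ.cD D) (by
        rw [← cD_res, hres, cD_onC, h1, h2, mul_zero, mul_zero, add_zero, add_zero])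
    exact ⟨D, c, hD3, hc1, hc2⟩
  have hres0 : res Ft ≠ 0 := fun h => hFt0 (eq_zero_of_res hp2 hlow hFt h)
  refine ⟨hnb, hsm, hnd, ?_, ?_⟩
  · intro j
    obtain ⟨D, c, hD3, hc1, hc2⟩ := hsol j
    rw [← hres]
    refine generic_root (res_hom hFt.1) hres0 (D := D) (κ := c) ?_ hD3
    rw [cD_res, hc1, map_mul, res_C]
  · intro j θ hθ
    by_contra hcon
    push Not at hcon
    obtain ⟨h0, h1⟩ := hcon
    obtain ⟨D, c, hD3, hc1, hc2⟩ := hsol j
    have hval : eval (pt θ ![x j, 1]) Φ = 0 := by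
      have h2 := hΦ.euler_left θ ![x j, 1]
      rw [h0, h1, mul_zero, mul_zero, add_zero] at h2
      have h3 : (u : ℂ) ≠ 0 := by
        rw [Nat.cast_ne_zero]
        omega
      exact (mul_eq_zero.mp h2.symm).resolve_left h3
    have h2x : eval (pt θ ![x j, 1]) (pderiv 2 Φ) = 0 := by
      have h2 := D_eval D (pt θ ![x j, 1]) Φ
      rw [hval, map_zero, hc2, map_mul, hval, mul_zero, zero_add, Fin.sum_univ_four, h0, h1,
        mul_zero, mul_zero, zero_add, zero_add] at h2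
      have h3 : D (pt θ ![x j, 1] 2) = 1 := hD3
      have h4 : D (pt θ ![x j, 1] 3) = 0 := by
        change D (1 : ℂ) = 0
        exact Derivation.map_one_eq_zero _
      rw [h3, h4, one_mul, zero_mul, add_zero] at h2
      exact h2.symm
    have h3x : eval (pt θ ![x j, 1]) (pderiv 3 Φ) = 0 := by
      have h2 := hΦ.euler_right θ ![x j, 1]
      rw [h2x, hval, mul_zero, mul_zero, zero_add] at h2
      simpa using h2
    obtain ⟨k, hk⟩ := hsm (pt θ ![x j, 1]) (by
      by_contra hcon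
      push Not at hcon
      apply hθ
      ext k
      fin_cases k
      · exact hcon.1
      · exact hcon.2) (Or.inr one_ne_zero)
    fin_cases k
    · exact hk h0
    · exact hk h1
    · exact hk h2x
    · exact hk h3x

/-- the rigid member of the degenerating system is not bad -/
theorem strip_not_bad {ι : Type} [Fintype ι] [DecidableEq ι] {n M u a β : ℕ}
    {p : ι ⊕ Fin (2 * (β + 1 + a) + 1) → V3}
    (hp : AlgebraicIndependent ℚ (fun z : (ι ⊕ Fin (2 * (β + 1 + a) + 1)) × Fin 3 => p z.1 z.2))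
    {m : ι → ℕ} (hM : ∀ i, m i ≤ M) (hu : 2 ≤ u) (huM : u ≤ M)
    (hn : 3 * (M + 2) ^ 2 ≤ n) (ha : M ^ 2 + 2 * M + 3 ≤ u * a)
    (hnβ : n + 1 = (u + 1) * (β + 1) + u * a)
    (hχ : ∑ i, (m i + 1).choose 2 + (u * a + 1) = (n + 2).choose 2) {F : R3}
    (hF : F ∈ linSys (n + u) p (Sum.elim m (fun _ => u))) (hF0 : F ≠ 0) :
    ¬ Bad (n + u) p (Sum.elim m (fun _ => u)) F :=
  strip_not_bad_aux rfl hp hM hu huM hn ha hnβ hχ hF hF0

end Pool.Agent.Work.MP_0421d9_ag.SM
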