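import Pool.Agent.Work.MP_0421d9_ag.LE1
import Pool.Agent.Work.MP_0421d9_ag.Pl

/-!
Smoothness of the rigid members in large degree: definitions.
-/

set_option linter.unusedSectionVars false

namespace Pool.Agent.Work.MP_0421d9_ag.SM

open MvPolynomial Module

/-- polynomials in `x, y` -/
abbrev R2 := MvPolynomial (Fin 2) ℂ

/-- polynomials in `U, V, x, y` -/
abbrev R4 := MvPolynomial (Fin 4) ℂ

/-- vectors of `ℂ²` -/
abbrev V2 := Fin 2 → ℂ

/-- vectors of `ℂ⁴` -/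
abbrev V4 := Fin 4 → ℂ

/-- `F` has a singular point outside the points `p i` -/
def Sing {ι : Type} (p : ι → V3) (F : R3) : Prop :=
  ∃ q : V3, q ≠ 0 ∧ (∀ i, cr (p i) q ≠ 0) ∧ ∀ k, eval q (pderiv k F) = 0

/-- `F` has a multiple tangent (or too high multiplicity) at one of the points `p i` -/
def Tang {ι : Type} (d : ℕ) (p : ι → V3) (m : ι → ℕ) (F : R3) : Prop :=
  ∃ (i : ι) (u : V3), cr (p i) u ≠ 0 ∧ BadDir d F (p i) (m i) u

/-- `F` is not smooth on the blow-up or not transversal to the exceptional curves -/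
def Bad {ι : Type} (d : ℕ) (p : ι → V3) (m : ι → ℕ) (F : R3) : Prop := Sing p F ∨ Tang d p m F

/-- inclusion of the polynomials in `x, y` -/
noncomputable def emb : R2 →ₐ[ℂ] R3 := aeval ![X 0, X 1]

/-- restriction to the line `z = 0` -/
noncomputable def res : R3 →ₐ[ℂ] R2 := aeval ![X 0, X 1, 0]

/-- `Φ ↦ Φ (P, Q, x, y)` -/
noncomputable def onC (P Q : R2) : R4 →ₐ[ℂ] R2 := aeval ![P, Q, X 0, X 1]

/-- `Φ ↦ Φ (P z - T, Q z - R, x, y)` -/
noncomputable def onS (P Q T R : R2) : R4 →ₐ[ℂ] R3 :=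
  aeval ![emb P * X 2 - emb T, emb Q * X 2 - emb R, X 0, X 1]

/-- bihomogeneous of degree `u` in `U, V` and `b` in `x, y` -/
def BiHom (u b : ℕ) (Φ : R4) : Prop := ∀ α, coeff α Φ ≠ 0 → α 0 + α 1 = u ∧ α 2 + α 3 = b

/-- the curve `Φ = 0` on `ℙ¹ × ℙ¹` is smooth -/
def SmoothΦ (Φ : R4) : Prop :=
  ∀ v : V4, (v 0 ≠ 0 ∨ v 1 ≠ 0) → (v 2 ≠ 0 ∨ v 3 ≠ 0) → ∃ k, eval v (pderiv k Φ) ≠ 0

/-- the binary form `s` has no multiple root -/
def NoDouble (s : R2) : Prop := ∀ y : V2, y ≠ 0 → ∃ k, eval y (pderiv k s) ≠ 0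

/-- the point `(θ, y)` -/
def pt (θ y : V2) : V4 := ![θ 0, θ 1, y 0, y 1]

/-- the binary form `Φ (·, y)` has no multiple root -/
def NoDir (Φ : R4) (y : V2) : Prop :=
  ∀ θ : V2, θ ≠ 0 → eval (pt θ y) (pderiv 0 Φ) ≠ 0 ∨ eval (pt θ y) (pderiv 1 Φ) ≠ 0

/-- no common zero on `ℙ¹` -/
def NoCommon (P Q : R2) : Prop := ∀ y : V2, y ≠ 0 → eval y P ≠ 0 ∨ eval y Q ≠ 0

/-- the point with coordinate `c` on the line `z = 0` -/
def fl (c : ℂ) : V3 := ![c, 1, 0]

/-- the binary form with the roots `g j` -/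
noncomputable def Gam {a : ℕ} (g : Fin a → ℂ) : R2 := ∏ j, (X 0 - C (g j) * X 1)

/-- `i`-th derivative along the line `z = 0` at the point `fl c` -/
noncomputable def fder (c : ℂ) (i : ℕ) (H : R3) : ℂ := eval (fl c) ((pderiv 0)^[i] H)

/-- the coordinates of the points `p i` and the numbers `w k` are algebraically independent -/
def Ind {ι κ : Type} (p : ι → V3) (w : κ → ℂ) : Prop :=
  AlgebraicIndependent ℚ (Sum.elim (fun z : ι × Fin 3 => p z.1 z.2) w)

end Pool.Agent.Work.MP_0421d9_ag.SM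

namespace Pool.Agent.Work.MP_0421d9_ag

open MvPolynomial

/-- coefficientwise specialisation of polynomials -/
def Pl.LP (P : Pl) {σ : Type} (F G : MvPolynomial σ ℂ) : Prop :=
  ∀ α, P.L (coeff α F) (coeff α G)

end Pool.Agent.Work.MP_0421d9_ag
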