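import Pool.Agent.Work.MP_0421d9_ag.SFlag
import Pool.Agent.Work.MP_0421d9_ag.SPos2
import Pool.Agent.Work.MP_0421d9_ag.SRes

/-!
The member of a large generic system with assigned contact orders with a line.
-/

set_option linter.unusedSectionVars false
set_option linter.unusedVariables false

namespace Pool.Agent.Work.MP_0421d9_ag.SM

open MvPolynomial Module

theorem exists_relation {κ : Type} [Fintype κ] [DecidableEq κ] (J : Finset κ) (hJ : J.card = 3)
    (w : κ → V3) {x : V3} (hx : x ≠ 0) : ∃ (α : κ → ℂ) (c : ℂ), (∃ j ∈ J, α j ≠ 0) ∧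
      (∀ j ∉ J, α j = 0) ∧ ∑ j, α j • w j = c • x := by
  let f : (J → ℂ) × ℂ →ₗ[ℂ] V3 :=
    { toFun := fun z => ∑ j : J, z.1 j • w j - z.2 • x
      map_add' := by
        intro z z'
        simp only [Prod.fst_add, Prod.snd_add, Pi.add_apply, add_smul, Finset.sum_add_distrib]
        abel
      map_smul' := by
        intro c z
        simp only [Prod.smul_fst, Prod.smul_snd, Pi.smul_apply, smul_eq_mul, mul_smul,
          RingHom.id_apply, smul_sub, Finset.smul_sum] }
  have hf : LinearMap.ker f ≠ ⊥ := by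
    apply LinearMap.ker_ne_bot_of_finrank_lt
    rw [Module.finrank_prod, Module.finrank_fintype_fun_eq_card, Module.finrank_fintype_fun_eq_card,
      Module.finrank_self, Fintype.card_coe, hJ, Fintype.card_fin]
    norm_num
  obtain ⟨z, hz, hz0⟩ := Submodule.exists_mem_ne_zero_of_ne_bot hf
  have hz' : ∑ j : J, z.1 j • w j = z.2 • x := sub_eq_zero.mp hz
  set α : κ → ℂ := fun j => if h : j ∈ J then z.1 ⟨j, h⟩ else 0 with hα
  have hsum : ∑ j, α j • w j = z.2 • x := by
    rw [← hz', ← Finset.sum_subset (Finset.subset_univ J), ← Finset.sum_coe_sort J]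
    · refine Finset.sum_congr rfl (fun j _ => ?_)
      rw [hα]
      simp only [j.2, dif_pos]
    · intro j _ hj
      rw [hα]
      simp only [hj, not_false_eq_true, dif_neg, zero_smul]
  refine ⟨α, z.2, ?_, ?_, hsum⟩
  · by_contra hcon
    push Not at hcon
    have h1 : z.1 = 0 := by
      funext j
      have := hcon j j.2
      rw [hα] at this
      simpa using this
    have h2 : z.2 = 0 := by
      rw [h1] at hz'
      simp only [Pi.zero_apply, zero_smul, Finset.sum_const_zero] at hz'
      exact (smul_eq_zero.mp hz'.symm).resolve_right hx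
    exact hz0 (Prod.ext h1 h2)
  · intro j hj
    rw [hα]
    simp only [hj, not_false_eq_true, dif_neg]

theorem sum_smul_apply {κ : Type} (s : Finset κ) (α : κ → ℂ) (D : κ → Derivation ℚ ℂ ℂ) (z : ℂ) :
    (∑ j ∈ s, α j • D j) z = ∑ j ∈ s, α j * D j z := by
  induction s using Finset.cons_induction with
  | empty => simp
  | cons j s hj ih =>
    rw [Finset.sum_cons, Finset.sum_cons, Derivation.add_apply, ih, Derivation.smul_apply,
      smul_eq_mul]

/-- the value at `x` is moved by the factor `κ` only -/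
theorem E_eval {n : ℕ} {E : Derivation ℚ ℂ ℂ} {x : V3} {c : ℂ} (hE : ∀ k, E (x k) = c * x k)
    {H : R3} (hH : H.IsHomogeneous n) :
    E (evl x H) = evl x (cD E H) + c * n * evl x H := by
  change E (eval x H) = eval x (cD E H) + c * n * eval x H
  rw [D_eval]
  congr 1
  have h1 := eval_dir_self hH x
  rw [dir_apply, map_sum] at h1
  rw [mul_assoc, ← h1, Finset.mul_sum]
  refine Finset.sum_congr rfl (fun k _ => ?_)
  rw [hE, map_mul, eval_C]
  ring

section member

variable {ι : Type} [Fintype ι] [DecidableEq ι] {n M u a : ℕ} {p : ι → V3} {g : Fin a → ℂ}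
  {D : Fin a → Derivation ℚ ℂ ℂ} {m : ι → ℕ} {F : R3}

theorem exists_D (hx : Ind p g) : ∃ D : Fin a → Derivation ℚ ℂ ℂ, (∀ j i k, D j (p i k) = 0) ∧
    ∀ j k, D j (g k) = if j = k then 1 else 0 := by
  choose D hD using fun j : Fin a => Ind.derivation hx (fun k => if j = k then (1 : ℂ) else 0)
  exact ⟨D, fun j i k => (hD j).1 i k, fun j k => (hD j).2 k⟩

theorem Ind.pair (hx : Ind p g) {j₁ j₂ : Fin a} (h : j₁ ≠ j₂) : Ind p ![g j₁, g j₂] := by
  have h1 := AlgebraicIndependent.comp hx (Sum.map id ![j₁, j₂])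
    (Function.Injective.sumMap Function.injective_id (by
      intro x y hxy
      fin_cases x <;> fin_cases y <;> simp_all [h.symm]))
  have h2 : Sum.elim (fun z : ι × Fin 3 => p z.1 z.2) g ∘ Sum.map id ![j₁, j₂] =
      Sum.elim (fun z : ι × Fin 3 => p z.1 z.2) ![g j₁, g j₂] := by
    funext z
    rcases z with z | z
    · rfl
    · fin_cases z <;> rfl
  rw [h2] at h1
  exact h1

theorem coord_ne (hp : GenericPoints p) (i : ι) (l : Fin 3) : p i l ≠ 0 :=
  hp.ne_zero (i, l)

theorem flags_of (hx : Ind p g) (hM : ∀ i, m i ≤ M) (hu : 1 ≤ u) (hn : 3 * (M + 2) ^ 2 ≤ n)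
    (hχ : ∑ i, (m i + 1).choose 2 + (u * a + 1) = (n + 2).choose 2)
    (hlow : linSys (n - 1) p m = ⊥) (hDp : ∀ j i k, D j (p i k) = 0)
    (hD : ∀ j k, D j (g k) = if j = k then 1 else 0) (hF : F ∈ linSys n p m) (hF0 : F ≠ 0)
    {s : R2} (hs : res F = Gam g ^ u * s) : Flags n u (linSys n p m) g D F := by
  have hMn : M ≤ n := by nlinarith
  have hmn : ∀ i, m i ≤ n + 1 := fun i => (hM i).trans (by omega)
  refine ⟨linSys_le n p m, hu, hD, ?_, ?_, ?_, hF, hF0, ?_⟩
  · intro j H hH
    exact linSys_cD_mem hmn hH (fun i => Or.inl (hDp j i))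
  · intro H hH h
    exact eq_zero_of_res (fun i => coord_ne hx.generic i 2) hlow hH h
  · rw [finrank_gen hx.generic hM (by nlinarith)]
    omega
  · intro j
    exact fder_of_Gam hs j

/-- contact orders from multiplicities -/
theorem fder_of_vanishTo {c : ℂ} {k : ℕ} {H : R3} (h : VanishTo H (fl c) k) :
    ∀ i < k, fder c i H = 0 := by
  intro i hi
  unfold fder
  rw [← vanishTo_one_iff']
  have h1 : ∀ (j l : ℕ) (G : R3), VanishTo G (fl c) (l + j) →
      VanishTo ((pderiv 0)^[j] G) (fl c) l := by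
    intro j
    induction j with
    | zero => intro l G hG; exact hG
    | succ j ih =>
      intro l G hG
      rw [Function.iterate_succ_apply]
      exact ih l _ (vanishTo_pderiv 0 hG)
  exact h1 i 1 H (h.mono (by omega))

theorem num_sep (hu : 2 ≤ u) (huM : u ≤ M) (ha : M ^ 2 + 2 * M + 3 ≤ u * a)
    (hχ : ∑ i, (m i + 1).choose 2 + (u * a + 1) = (n + 2).choose 2) :
    ∑ i : ι ⊕ Fin 2, (Sum.elim m (fun _ => u - 1) i + 1).choose 2 + (3 * M + 4) ≤
      (n + 2).choose 2 := by
  rw [Fintype.sum_sum_type, Fin.sum_univ_two]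
  simp only [Sum.elim_inl, Sum.elim_inr]
  obtain ⟨v, rfl⟩ : ∃ v, u = v + 1 := ⟨u - 1, by omega⟩
  have h1 := two_mul_choose v
  have h2 : v * (v + 1) + M ≤ M * M := by nlinarith
  rw [Nat.add_sub_cancel]
  nlinarith

/-- no base point of the system with fixed contact orders -/
theorem no_point (hx : Ind p g) (hM : ∀ i, m i ≤ M) (hu : 2 ≤ u) (huM : u ≤ M)
    (hn : 3 * (M + 2) ^ 2 ≤ n) (ha : M ^ 2 + 2 * M + 3 ≤ u * a) (ha3 : 3 ≤ a)
    (hχ : ∑ i, (m i + 1).choose 2 + (u * a + 1) = (n + 2).choose 2)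
    (S : Flags n u (linSys n p m) g D F) {x : V3} (hx0 : x ≠ 0)
    (hxp : ∀ i, cr (p i) x ≠ 0) (hxg : ∀ j, cr (fl (g j)) x ≠ 0) (h0 : eval x F = 0)
    (h1 : ∀ j, eval x (cD (D j) F) = 0) : False := by
  obtain ⟨j₁, j₂, hj, h2⟩ := S.two ha3 (evl x) h0 h1 (fun J hJ => by
    obtain ⟨α, c, hα, hα', hrel⟩ := exists_relation J hJ (fun j => fun k => D j (x k)) hx0
    refine ⟨α, c * n, hα, hα', fun H hH => E_eval (fun k => ?_) hH.1⟩
    rw [sum_smul_apply]
    have h3 := congrFun hrel k
    rw [Finset.sum_apply] at h3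
    exact h3)
  obtain ⟨H, hH, hHx⟩ := sep1 (hx.pair hj) (y := Sum.elim m (fun _ => u - 1)) (n := n) (M := M)
    (fun i => by
      rcases i with i | i
      · exact hM i
      · simp only [Sum.elim_inr]
        omega) hn (num_sep hu huM ha hχ) hx0 hxp (fun j => by
      fin_cases j
      · exact hxg j₁
      · exact hxg j₂)
  have h4 : H ∈ linSys n p m := ⟨hH.1, fun i => hH.2 (Sum.inl i)⟩
  exact hHx (h2 H h4 (fder_of_vanishTo (hH.2 (Sum.inr 0))) (fder_of_vanishTo (hH.2 (Sum.inr 1))))

/-- no multiple tangent -/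
theorem no_tang (hx : Ind p g) (hM : ∀ i, m i ≤ M) (hu : 2 ≤ u) (huM : u ≤ M)
    (hn : 3 * (M + 2) ^ 2 ≤ n) (ha : M ^ 2 + 2 * M + 3 ≤ u * a) (ha3 : 3 ≤ a)
    (hχ : ∑ i, (m i + 1).choose 2 + (u * a + 1) = (n + 2).choose 2)
    (hDp : ∀ j i k, D j (p i k) = 0)
    (S : Flags n u (linSys n p m) g D F) {i : ι} {v : V3} (hv : cr (p i) v ≠ 0)
    (h : BadDir n F (p i) (m i) v) : False := by
  have hv0 : v ≠ 0 := by
    rintro rfl
    apply hv
    ext k
    fin_cases k <;> simp [cr]
  have hMn : M ≤ n := by nlinarith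
  have hmn : m i ≤ n := (hM i).trans hMn
  have hA : (lin (p i) ^ (n - m i) * lin v ^ m i).IsHomogeneous n := by
    have := (lin_isHomogeneous_pow (p i) (n - m i)).mul (lin_isHomogeneous_pow v (m i))
    rwa [Nat.sub_add_cancel hmn] at this
  obtain ⟨j₁, j₂, hj, h2⟩ := S.two ha3 (B (lin (p i) ^ (n - m i) * lin v ^ m i)) h.1
    (fun j => by
      have h1 := D_B (D j) (lin (p i) ^ (n - m i) * lin v ^ m i) F
      rw [h.1, map_zero, cD_mul, cD_lin_pow_of_fixed (hDp j i), zero_mul, zero_add,
        cD_lin_pow_eq] at h1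
      have h2 : lin (p i) ^ (n - m i) * (C (m i : ℂ) * (lin v ^ (m i - 1) *
          lin (fun l => D j (v l)))) = C (m i : ℂ) *
          (lin (p i) ^ (n - m i) * (lin v ^ (m i - 1) * lin (fun l => D j (v l)))) := by ring
      rw [h2, B_C_mul_left] at h1
      rcases Nat.eq_zero_or_pos (m i) with hz | hz
      · have h3 : (m i : ℂ) = 0 := by rw [hz, Nat.cast_zero]
        rw [h3, zero_mul, zero_add] at h1
        exact h1.symm
      · rw [h.2 hz, mul_zero, zero_add] at h1
        exact h1.symm)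
    (fun J hJ => by
      obtain ⟨α, c, hα, hα', hrel⟩ := exists_relation J hJ (fun j => fun k => D j (v k)) hv0
      refine ⟨α, m i * c, hα, hα', fun H hH => ?_⟩
      set E : Derivation ℚ ℂ ℂ := ∑ j, α j • D j with hE
      have hEv : (fun l => E (v l)) = c • v := by
        funext k
        rw [hE, sum_smul_apply]
        have h3 := congrFun hrel k
        rw [Finset.sum_apply] at h3
        exact h3
      have hEp : ∀ k, E (p i k) = 0 := by
        intro k
        rw [hE, sum_smul_apply]
        exact Finset.sum_eq_zero (fun j _ => by rw [hDp, mul_zero])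
      rw [D_B, cD_mul, cD_lin_pow_of_fixed hEp, zero_mul, zero_add, cD_lin_pow_eq, hEv, lin_smul]
      rw [add_comm]
      congr 1
      rcases Nat.eq_zero_or_pos (m i) with hz | hz
      · rw [hz, Nat.cast_zero, C_0, zero_mul, mul_zero, map_zero, LinearMap.zero_apply, zero_mul,
          zero_mul]
      · have h3 : lin (p i) ^ (n - m i) * (C (m i : ℂ) * (lin v ^ (m i - 1) * (C c * lin v))) =
            C (m i * c) * (lin (p i) ^ (n - m i) * lin v ^ m i) := by
          rw [C_mul]
          obtain ⟨k, hk⟩ : ∃ k, m i = k + 1 := ⟨m i - 1, by omega⟩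
          rw [hk, Nat.add_sub_cancel, pow_succ (lin v) k]
          ring
        rw [h3, B_C_mul_left])
  obtain ⟨H, hH, hHx⟩ := sep2 (hx.pair hj) (y := Sum.elim m (fun _ => u - 1)) (n := n) (M := M)
    (fun i => by
      rcases i with i | i
      · exact hM i
      · simp only [Sum.elim_inr]
        omega) hn (num_sep hu huM ha hχ) i hv
  have h4 : H ∈ linSys n p m := ⟨hH.1, fun i => hH.2 (Sum.inl i)⟩
  exact hHx (h2 H h4 (fder_of_vanishTo (hH.2 (Sum.inr 0))) (fder_of_vanishTo (hH.2 (Sum.inr 1))))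

/-- no singular point on the flags -/
theorem no_flag (hx : Ind p g) (hM : ∀ i, m i ≤ M) (hu : 2 ≤ u) (huM : u ≤ M)
    (hn : 3 * (M + 2) ^ 2 ≤ n) (ha : M ^ 2 + 2 * M + 3 ≤ u * a) (ha3 : 3 ≤ a)
    (hχ : ∑ i, (m i + 1).choose 2 + (u * a + 1) = (n + 2).choose 2)
    (hD : ∀ j k, D j (g k) = if j = k then 1 else 0)
    (S : Flags n u (linSys n p m) g D F) {j₀ : Fin a}
    (h : eval (fl (g j₀)) (pderiv 2 F) = 0) : False := by
  have hE : ∀ j, j ≠ j₀ → ∀ H : R3, D j (evl (fl (g j₀)) (pderiv 2 H)) =
      evl (fl (g j₀)) (pderiv 2 (cD (D j) H)) := by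
    intro j hj H
    change D j (eval (fl (g j₀)) (pderiv 2 H)) = eval (fl (g j₀)) (pderiv 2 (cD (D j) H))
    rw [D_eval, cD_pderiv, add_eq_left]
    refine Finset.sum_eq_zero (fun k _ => ?_)
    have h1 : D j (fl (g j₀) k) = 0 := by
      fin_cases k
      · change D j (g j₀) = 0
        rw [hD, if_neg hj]
      · change D j (1 : ℂ) = 0
        exact Derivation.map_one_eq_zero _
      · change D j (0 : ℂ) = 0
        exact map_zero _
    rw [h1, zero_mul]
  set ξ : R3 →ₗ[ℂ] ℂ := (evl (fl (g j₀))).comp (pderiv (R := ℂ) (2 : Fin 3)).toLinearMap with hξ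
  have h1 := S.one ξ h j₀ (fun j hj => by
      have h2 := hE j hj F
      have h3 : evl (fl (g j₀)) (pderiv 2 F) = 0 := h
      rw [h3, map_zero] at h2
      exact h2.symm) (fun j hj H _ => hE j hj H)
  obtain ⟨j₁, hj₁⟩ : ∃ j₁ : Fin a, j₁ ≠ j₀ := by
    have : Nontrivial (Fin a) := Fin.nontrivial_iff_two_le.mpr (by omega)
    exact exists_ne j₀
  obtain ⟨H, hH, hH1, hH2⟩ := sep3 (hx.pair (Ne.symm hj₁)) hM huM hn (by
    have h5 := two_mul_choose_two u
    have h6 : (u + 1) * (u + 2) ≤ 2 * (u * a + 1) := by nlinarith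
    omega) (by omega : 1 ≤ u)
  exact hH2 (h1 H hH hH1)

end member

theorem hom_component_mul {σ : Type} {A : MvPolynomial σ ℂ} {n : ℕ} (hA : A.IsHomogeneous n)
    (k : ℕ) (h : MvPolynomial σ ℂ) :
    homogeneousComponent (n + k) (A * h) = A * homogeneousComponent k h := by
  conv_lhs => rw [← sum_homogeneousComponent h]
  rw [Finset.mul_sum, map_sum]
  by_cases hk : k ∈ Finset.range (h.totalDegree + 1)
  · rw [Finset.sum_eq_single k]
    · exact homogeneousComponent_eq_self (hA.mul (homogeneousComponent_isHomogeneous k h))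
    · intro j _ hj
      rw [homogeneousComponent_of_mem (hA.mul (homogeneousComponent_isHomogeneous j h)), if_neg]
      omega
    · intro hk'
      exact absurd hk hk'
  · have h1 : homogeneousComponent k h = 0 := by
      apply homogeneousComponent_eq_zero
      rw [Finset.mem_range] at hk
      omega
    rw [h1, mul_zero]
    refine Finset.sum_eq_zero (fun j hj => ?_)
    rw [homogeneousComponent_of_mem (hA.mul (homogeneousComponent_isHomogeneous j h)), if_neg]
    rw [Finset.mem_range] at hj hk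
    omega

/-- the cofactor of a homogeneous factor of a homogeneous polynomial is homogeneous -/
theorem isHomogeneous_of_mul {σ : Type} {A g : MvPolynomial σ ℂ} {a k : ℕ}
    (hA : A.IsHomogeneous a) (hA0 : A ≠ 0) (h : (A * g).IsHomogeneous (a + k)) :
    g.IsHomogeneous k := by
  have h1 : ∀ j, j ≠ k → homogeneousComponent j g = 0 := by
    intro j hj
    have h2 := hom_component_mul hA j g
    rw [homogeneousComponent_of_mem h, if_neg (by omega)] at h2
    exact (mul_eq_zero.mp h2.symm).resolve_left hA0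
  have h3 : g = homogeneousComponent k g := by
    conv_lhs => rw [← sum_homogeneousComponent g]
    by_cases hk : k ∈ Finset.range (g.totalDegree + 1)
    · exact Finset.sum_eq_single k (fun j _ hj => h1 j hj) (fun h' => absurd hk h')
    · rw [Finset.sum_eq_zero]
      · symm
        apply homogeneousComponent_eq_zero
        rw [Finset.mem_range] at hk
        omega
      · intro j hj
        apply h1
        rintro rfl
        exact hk hj
  rw [h3]
  exact homogeneousComponent_isHomogeneous k g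

theorem euler_two {f : R2} {k : ℕ} (hf : f.IsHomogeneous k) (y : V2) :
    y 0 * eval y (pderiv 0 f) + y 1 * eval y (pderiv 1 f) = k * eval y f := by
  have h := congrArg (eval y) hf.sum_X_mul_pderiv
  rw [map_sum, Fin.sum_univ_two, map_mul, map_mul, eval_X, eval_X] at h
  rw [h]
  simp

/-- the member of a large generic system with contact order `u` at many points of a line -/
theorem flag_member {ι : Type} [Fintype ι] [DecidableEq ι] {n M u a : ℕ} {p : ι → V3}
    {g : Fin a → ℂ} (hx : Ind p g) {m : ι → ℕ} (hM : ∀ i, m i ≤ M) (hu : 2 ≤ u) (huM : u ≤ M)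
    (hn : 3 * (M + 2) ^ 2 ≤ n) (ha : M ^ 2 + 2 * M + 3 ≤ u * a) (hna : u * a < n)
    (hχ : ∑ i, (m i + 1).choose 2 + (u * a + 1) = (n + 2).choose 2)
    (hlow : linSys (n - 1) p m = ⊥) {F : R3} (hF : F ∈ linSys n p m) (hF0 : F ≠ 0) {s : R2}
    (hs : res F = Gam g ^ u * s) :
    ¬ Bad n p m F ∧ NoDouble s ∧ (∀ j, eval ![g j, 1] s ≠ 0) ∧
      ∀ F' ∈ linSys n p m, (∃ s', res F' = Gam g ^ u * s') → ∃ c : ℂ, F' = C c * F := by
  obtain ⟨D, hDp, hD⟩ := exists_D hx
  have S := flags_of hx hM (by omega : 1 ≤ u) hn hχ hlow hDp hD hF hF0 hs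
  have ha3 : 3 ≤ a := by
    by_contra hcon
    have : u * a ≤ M * 2 := Nat.mul_le_mul huM (by omega)
    nlinarith
  have hMn : M ≤ n := by nlinarith
  have hsg : ∀ j, eval ![g j, 1] s ≠ 0 := by
    intro j h
    exact S.exact j (fder_succ_of_Gam hs j h u (Nat.lt_succ_self u))
  have hsh : s.IsHomogeneous (n - u * a) := by
    have h1 : (Gam g ^ u).IsHomogeneous (a * u) := (Gam_isHomogeneous g).pow u
    apply isHomogeneous_of_mul h1 (pow_ne_zero _ (Gam_ne_zero g))
    rw [← hs, mul_comm a u, Nat.add_sub_cancel' hna.le]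
    exact res_hom hF.1
  refine ⟨?_, ?_, hsg, ?_⟩
  · rintro (⟨x, hx0, hxp, hgrad⟩ | ⟨i, v, hv, hbad⟩)
    · have h0 : eval x F = 0 := by
        have h1 := eval_dir_self hF.1 x
        rw [dir_apply, map_sum, Finset.sum_eq_zero (fun k _ => by rw [map_mul, hgrad, mul_zero])]
          at h1
        have h2 : (n : ℂ) ≠ 0 := by
          rw [Nat.cast_ne_zero]
          omega
        exact (mul_eq_zero.mp h1.symm).resolve_left h2
      by_cases hfl : ∃ j, cr (fl (g j)) x = 0
      · obtain ⟨j, hj⟩ := hfl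
        have hfl0 : fl (g j) ≠ 0 := fun h => by
          have := congrFun h 1
          exact one_ne_zero this
        obtain ⟨c, rfl⟩ := exists_smul_of_cr_eq_zero hfl0 hj
        have hc : c ≠ 0 := by
          rintro rfl
          rw [zero_smul] at hx0
          exact hx0 rfl
        have h1 := hgrad 2
        rw [eval_smul_of_hom hF.1.pderiv] at h1
        exact no_flag hx hM hu huM hn ha ha3 hχ hD S
          ((mul_eq_zero.mp h1).resolve_left (pow_ne_zero _ hc))
      · push Not at hfl
        refine no_point hx hM hu huM hn ha ha3 hχ S hx0 hxp hfl h0 (fun j => ?_)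
        have h1 := D_eval (D j) x F
        rw [h0, map_zero, Finset.sum_eq_zero (fun k _ => by rw [hgrad, mul_zero]), add_zero] at h1
        exact h1.symm
    · exact no_tang hx hM hu huM hn ha ha3 hχ hDp S hv hbad
  · intro y hy
    by_contra hcon
    push Not at hcon
    have hsy : eval y s = 0 := by
      have h1 := euler_two hsh y
      rw [hcon 0, hcon 1, mul_zero, mul_zero, add_zero] at h1
      have h2 : ((n - u * a : ℕ) : ℂ) ≠ 0 := by
        rw [Nat.cast_ne_zero]
        omega
      exact (mul_eq_zero.mp h1.symm).resolve_left h2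
    set x : V3 := ![y 0, y 1, 0] with hxdef
    have hx0 : x ≠ 0 := by
      intro h
      apply hy
      ext k
      fin_cases k
      · exact congrFun h 0
      · exact congrFun h 1
    have hres : ∀ G : R3, eval x G = eval y (res G) := fun G => (eval_res G y).symm
    have h0 : eval x F = 0 := by
      rw [hres, hs, map_mul, hsy, mul_zero]
    have hd0 : eval x (pderiv 0 F) = 0 := by
      rw [hres, res_pderiv_zero, hs, Derivation.leibniz, map_add, smul_eq_mul, smul_eq_mul,
        map_mul, map_mul, hcon 0, hsy, mul_zero, zero_mul, add_zero]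
    have hd1 : eval x (pderiv 1 F) = 0 := by
      rw [hres, res_pderiv_one, hs, Derivation.leibniz, map_add, smul_eq_mul, smul_eq_mul,
        map_mul, map_mul, hcon 1, hsy, mul_zero, zero_mul, add_zero]
    refine no_point hx hM hu huM hn ha ha3 hχ S hx0 ?_ ?_ h0 (fun j => ?_)
    · intro i hi
      have hpi : p i ≠ 0 := fun h => coord_ne hx.generic i 2 (congrFun h 2)
      obtain ⟨c, hc⟩ := exists_smul_of_cr_eq_zero hpi hi
      have h2 : (0 : ℂ) = c * p i 2 := congrFun hc 2
      have h3 : c = 0 := (mul_eq_zero.mp h2.symm).resolve_right (coord_ne hx.generic i 2)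
      apply hx0
      rw [hc, h3, zero_smul]
    · intro j hj
      have hfl0 : fl (g j) ≠ 0 := fun h => by
        have := congrFun h 1
        exact one_ne_zero this
      obtain ⟨c, hc⟩ := exists_smul_of_cr_eq_zero hfl0 hj
      have hyc : y = c • ![g j, 1] := by
        ext k
        fin_cases k
        · exact congrFun hc 0
        · exact congrFun hc 1
      have hc0 : c ≠ 0 := by
        rintro rfl
        rw [zero_smul] at hyc
        exact hy hyc
      rw [hyc, eval_smul_of_hom hsh] at hsy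
      exact hsg j ((mul_eq_zero.mp hsy).resolve_left (pow_ne_zero _ hc0))
    · have h1 := D_eval (D j) x F
      rw [h0, map_zero, Fin.sum_univ_three, hd0, hd1] at h1
      have h2 : D j (x 2) = 0 := by
        change D j (0 : ℂ) = 0
        exact map_zero _
      rw [h2, mul_zero, mul_zero, zero_mul, add_zero, add_zero, add_zero] at h1
      exact h1.symm
  · rintro F' hF' ⟨s', hs'⟩
    exact S.unique hF' (fun j => fder_of_Gam hs' j)

end Pool.Agent.Work.MP_0421d9_ag.SM
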