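import Pool.Agent.Work.MP_0421d9_ag.SLim0
import Pool.Agent.Work.MP_0421d9_ag.SSpec
import Pool.Agent.Work.MP_0421d9_ag.Drop

/-!
The pencil on the line and its specialisation.
-/

set_option linter.unusedSectionVars false
set_option linter.unusedVariables false

namespace Pool.Agent.Work.MP_0421d9_ag.SM

open MvPolynomial Module

/-! ### specialisation of the constructions -/

theorem LP_onC {ρ : Pl} {P P' Q Q' : R2} {Φ Φ' : R4} (hP : ρ.LP P P') (hQ : ρ.LP Q Q')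
    (hΦ : ρ.LP Φ Φ') : ρ.LP (onC P Q Φ) (onC P' Q' Φ') := by
  unfold onC
  refine hΦ.aeval (fun i => ?_)
  fin_cases i
  · exact hP
  · exact hQ
  · exact Pl.LP_X 0
  · exact Pl.LP_X 1

theorem LP_res {ρ : Pl} {F G : R3} (h : ρ.LP F G) : ρ.LP (res F) (res G) := by
  unfold res
  refine h.aeval (fun i => ?_)
  fin_cases i
  · exact Pl.LP_X 0
  · exact Pl.LP_X 1
  · exact Pl.LP_zero

theorem LP_bf {ρ : Pl} {k : ℕ} {c c' : Fin (k + 1) → ℂ} (h : ∀ j, ρ.L (c j) (c' j)) :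
    ρ.LP (bf k c) (bf k c') := by
  unfold bf
  exact Pl.LP.sum _ (fun i _ => (((Pl.LP_X 0).pow _).mul ((Pl.LP_X 1).pow _)).C_mul (h i))

theorem LP_Gam {ρ : Pl} {a : ℕ} {g g' : Fin a → ℂ} (h : ∀ j, ρ.L (g j) (g' j)) :
    ρ.LP (Gam g) (Gam g') := by
  unfold Gam
  exact Pl.LP.prod _ (fun j _ => (Pl.LP_X 0).sub ((Pl.LP_X 1).C_mul (h j)))

theorem BiHom.limit {ρ : Pl} {u b : ℕ} {Φ Φ' : R4} (h : BiHom u b Φ) (hL : ρ.LP Φ Φ') :
    BiHom u b Φ' := by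
  intro α hα
  exact h α (MvPolynomial.mem_support_iff.mp
    (hL.support_subset (MvPolynomial.mem_support_iff.mpr hα)))

theorem BiHom.C_mul {u b : ℕ} {Φ : R4} (h : BiHom u b Φ) (c : ℂ) : BiHom u b (C c * Φ) := by
  intro α hα
  rw [coeff_C_mul] at hα
  exact h α (right_ne_zero_of_mul hα)

theorem BiHom.sub {u b : ℕ} {Φ Ψ : R4} (h : BiHom u b Φ) (h' : BiHom u b Ψ) :
    BiHom u b (Φ - Ψ) := by
  intro α hα
  rw [coeff_sub] at hα
  by_cases h0 : coeff α Φ = 0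
  · rw [h0, zero_sub, neg_ne_zero] at hα
    exact h' α hα
  · exact h α h0

theorem onC_C (P Q : R2) (c : ℂ) : onC P Q (C c) = C c := by
  unfold onC
  rw [algHom_C, algebraMap_eq]

theorem LP_pt {ρ : Pl} {θ θ' y y' : V2} (h : ∀ k, ρ.L (θ k) (θ' k)) (h' : ∀ k, ρ.L (y k) (y' k)) :
    ∀ k, ρ.L (pt θ y k) (pt θ' y' k) := by
  intro k
  fin_cases k
  · exact h 0
  · exact h 1
  · exact h' 0
  · exact h' 1

/-- the point `(c, 1)` specialises -/
theorem L_vec {ρ : Pl} {c c' d d' : ℂ} (h : ρ.L c c') (h' : ρ.L d d') :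
    ∀ k, ρ.L ((![c, d] : V2) k) ((![c', d'] : V2) k) := by
  intro k
  fin_cases k
  · exact h
  · exact h'

/-! ### the form with one root removed -/

/-- the binary form with the roots `g k`, `k ≠ j` -/
noncomputable def Gamj {a : ℕ} (g : Fin a → ℂ) (j : Fin a) : R2 :=
  ∏ k ∈ Finset.univ.erase j, (X 0 - C (g k) * X 1)

theorem Gam_eq {a : ℕ} (g : Fin a → ℂ) (j : Fin a) :
    Gam g = (X 0 - C (g j) * X 1) * Gamj g j := by
  unfold Gam Gamj
  exact (Finset.mul_prod_erase Finset.univ (fun k => (X 0 - C (g k) * X 1 : R2))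
    (Finset.mem_univ j)).symm

theorem LP_Gamj {ρ : Pl} {a : ℕ} {g g' : Fin a → ℂ} (h : ∀ j, ρ.L (g j) (g' j)) (j : Fin a) :
    ρ.LP (Gamj g j) (Gamj g' j) := by
  unfold Gamj
  exact Pl.LP.prod _ (fun k _ => (Pl.LP_X 0).sub ((Pl.LP_X 1).C_mul (h k)))

theorem eval_Gamj_ne {a : ℕ} {g : Fin a → ℂ} (hg : Function.Injective g) (j : Fin a) :
    eval ![g j, 1] (Gamj g j) ≠ 0 := by
  unfold Gamj
  rw [map_prod, Finset.prod_ne_zero_iff]
  intro k hk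
  simp only [map_sub, map_mul, eval_X, eval_C, Matrix.cons_val_zero, Matrix.cons_val_one, mul_one]
  rw [sub_ne_zero]
  intro h
  exact (Finset.mem_erase.mp hk).1 (hg h).symm

theorem eval_Gam_near {a : ℕ} (g : Fin a → ℂ) (j : Fin a) (l : ℂ) :
    eval ![g j + l, 1] (Gam g) = l * eval ![g j + l, 1] (Gamj g j) := by
  rw [Gam_eq g j, map_mul]
  congr 1
  simp

theorem eval_pderiv_Gam_mul {a : ℕ} (g : Fin a → ℂ) (j : Fin a) (F : R2) :
    eval ![g j, 1] (pderiv 0 (Gam g * F)) =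
      eval ![g j, 1] (Gamj g j) * eval ![g j, 1] F := by
  rw [Gam_eq g j, mul_assoc, pderiv_mul, map_add, map_mul, map_mul, map_sub, pderiv_X_self,
    pderiv_C_mul, pderiv_X_of_ne (by decide)]
  simp

/-! ### the pencil -/

/-- the pencil: `P = Γ P' + τ P₁`, `Q = Γ Q' + τ Q₁` with generic coefficients; the place `ρ` fixes
everything but `τ` and sends `τ` to `0` -/
structure Pencil {ι : Type} [Fintype ι] (n M u a β : ℕ) (p : ι → V3) (m : ι → ℕ) (g : Fin a → ℂ)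
    (c₁ c₂ : Fin (β + 1 + 1) → ℂ) (e₁ e₂ : Fin (β + 1 + a + 1) → ℂ) (τ : ℂ) (ρ : Pl) : Prop where
  ind : Ind p (Sum.elim g (Sum.elim (Sum.elim c₁ c₂) (Sum.elim (Sum.elim e₁ e₂)
    (fun _ : Unit => τ))))
  hp : ∀ i k, ρ.L (p i k) (p i k)
  hg : ∀ j, ρ.L (g j) (g j)
  hc₁ : ∀ j, ρ.L (c₁ j) (c₁ j)
  hc₂ : ∀ j, ρ.L (c₂ j) (c₂ j)
  he₁ : ∀ j, ρ.L (e₁ j) (e₁ j)
  he₂ : ∀ j, ρ.L (e₂ j) (e₂ j)
  hτ : ρ.L τ 0
  hM : ∀ i, m i ≤ M
  hu : 2 ≤ u
  huM : u ≤ M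
  hn : 3 * (M + 2) ^ 2 ≤ n
  ha : M ^ 2 + 2 * M + 3 ≤ u * a
  hnβ : n + 1 = (u + 1) * (β + 1) + u * a
  hχ : ∑ i, (m i + 1).choose 2 + (u * a + 1) = (n + 2).choose 2
  hlow : linSys (n - 1) p m = ⊥

section pencil

variable {ι : Type} [Fintype ι] [DecidableEq ι] {n M u a β : ℕ} {p : ι → V3} {m : ι → ℕ}
  {g : Fin a → ℂ} {c₁ c₂ : Fin (β + 1 + 1) → ℂ} {e₁ e₂ : Fin (β + 1 + a + 1) → ℂ} {τ : ℂ} {ρ : Pl}

/-- the first form of the pencil -/
noncomputable def pcl (g : Fin a → ℂ) (c : Fin (β + 1 + 1) → ℂ) (e : Fin (β + 1 + a + 1) → ℂ)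
    (τ : ℂ) : R2 := Gam g * bf (β + 1) c + C τ * bf (β + 1 + a) e

theorem pcl_hom (g : Fin a → ℂ) (c : Fin (β + 1 + 1) → ℂ) (e : Fin (β + 1 + a + 1) → ℂ) (τ : ℂ) :
    (pcl g c e τ).IsHomogeneous (β + 1 + a) := by
  unfold pcl
  have h1 := (Gam_hom g).mul (bf_hom (β + 1) c)
  rw [(by omega : a + (β + 1) = β + 1 + a)] at h1
  exact h1.add ((bf_hom _ e).C_mul τ)

theorem eval_pcl (g : Fin a → ℂ) (c : Fin (β + 1 + 1) → ℂ) (e : Fin (β + 1 + a + 1) → ℂ) (τ : ℂ)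
    (y : V2) : eval y (pcl g c e τ) =
      eval y (Gam g) * eval y (bf (β + 1) c) + τ * eval y (bf (β + 1 + a) e) := by
  unfold pcl
  rw [map_add, map_mul, map_mul, eval_C]

theorem LP_pcl {ρ : Pl} {g : Fin a → ℂ} {c : Fin (β + 1 + 1) → ℂ} {e : Fin (β + 1 + a + 1) → ℂ}
    {τ : ℂ} (hg : ∀ j, ρ.L (g j) (g j)) (hc : ∀ j, ρ.L (c j) (c j)) (he : ∀ j, ρ.L (e j) (e j))
    (hτ : ρ.L τ 0) : ρ.LP (pcl g c e τ) (Gam g * bf (β + 1) c) := by
  unfold pcl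
  have h := ((LP_Gam hg).mul (LP_bf hc)).add ((LP_bf he).C_mul hτ)
  rwa [C_0, zero_mul, add_zero] at h

namespace Pencil

theorem hna (S : Pencil n M u a β p m g c₁ c₂ e₁ e₂ τ ρ) : u * a < n := by
  have h1 := S.hnβ
  have h2 := S.hu
  nlinarith

theorem ind_g (S : Pencil n M u a β p m g c₁ c₂ e₁ e₂ τ ρ) : Ind p g := by
  have h1 := AlgebraicIndependent.comp S.ind (Sum.map id Sum.inl)
    (Function.Injective.sumMap Function.injective_id Sum.inl_injective)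
  have h2 : Sum.elim (fun z : ι × Fin 3 => p z.1 z.2) (Sum.elim g (Sum.elim (Sum.elim c₁ c₂)
      (Sum.elim (Sum.elim e₁ e₂) (fun _ : Unit => τ)))) ∘ Sum.map id Sum.inl =
      Sum.elim (fun z : ι × Fin 3 => p z.1 z.2) g := by
    funext z
    rcases z with z | z <;> rfl
  rw [h2] at h1
  exact h1

theorem ind_gc (S : Pencil n M u a β p m g c₁ c₂ e₁ e₂ τ ρ) :
    Ind p (Sum.elim g (Sum.elim c₁ c₂)) := by
  have h1 := AlgebraicIndependent.comp S.ind (Sum.map id (Sum.map id Sum.inl))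
    (Function.Injective.sumMap Function.injective_id
      (Function.Injective.sumMap Function.injective_id Sum.inl_injective))
  have h2 : Sum.elim (fun z : ι × Fin 3 => p z.1 z.2) (Sum.elim g (Sum.elim (Sum.elim c₁ c₂)
      (Sum.elim (Sum.elim e₁ e₂) (fun _ : Unit => τ)))) ∘ Sum.map id (Sum.map id Sum.inl) =
      Sum.elim (fun z : ι × Fin 3 => p z.1 z.2) (Sum.elim g (Sum.elim c₁ c₂)) := by
    funext z
    rcases z with z | z | z <;> rfl
  rw [h2] at h1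
  exact h1

theorem ind_c (S : Pencil n M u a β p m g c₁ c₂ e₁ e₂ τ ρ) :
    AlgebraicIndependent ℚ (Sum.elim c₁ c₂) :=
  AlgebraicIndependent.comp S.ind (fun z => Sum.inr (Sum.inr (Sum.inl z)))
    (Sum.inr_injective.comp (Sum.inr_injective.comp Sum.inl_injective))

theorem ind_det (S : Pencil n M u a β p m g c₁ c₂ e₁ e₂ τ ρ) (j : Fin a) :
    AlgebraicIndependent ℚ (Sum.elim (fun _ : Unit => g j)
      (Sum.elim (Sum.elim c₁ c₂) (Sum.elim e₁ e₂))) := by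
  have h1 := AlgebraicIndependent.comp S.ind
    (Sum.elim (fun _ : Unit => Sum.inr (Sum.inl j))
      (fun z => Sum.inr (Sum.inr (Sum.map id Sum.inl z)))) (by
      intro x y hxy
      rcases x with x | x | x <;> rcases y with y | y | y <;> simp_all)
  have h2 : Sum.elim (fun z : ι × Fin 3 => p z.1 z.2) (Sum.elim g (Sum.elim (Sum.elim c₁ c₂)
      (Sum.elim (Sum.elim e₁ e₂) (fun _ : Unit => τ)))) ∘ (Sum.elim
      (fun _ : Unit => Sum.inr (Sum.inl j)) (fun z => Sum.inr (Sum.inr (Sum.map id Sum.inl z)))) =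
      Sum.elim (fun _ : Unit => g j) (Sum.elim (Sum.elim c₁ c₂) (Sum.elim e₁ e₂)) := by
    funext z
    rcases z with z | z | z <;> rfl
  rw [h2] at h1
  exact h1

theorem τ_ne (S : Pencil n M u a β p m g c₁ c₂ e₁ e₂ τ ρ) : τ ≠ 0 :=
  AlgebraicIndependent.ne_zero S.ind (Sum.inr (Sum.inr (Sum.inr (Sum.inr ()))))

theorem p2_ne (S : Pencil n M u a β p m g c₁ c₂ e₁ e₂ τ ρ) (i : ι) : p i 2 ≠ 0 :=
  AlgebraicIndependent.ne_zero S.ind (Sum.inl (i, 2))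

theorem g_inj (S : Pencil n M u a β p m g c₁ c₂ e₁ e₂ τ ρ) : Function.Injective g := by
  intro j k h
  have h1 := (AlgebraicIndependent.injective S.ind) (a₁ := Sum.inr (Sum.inl j))
    (a₂ := Sum.inr (Sum.inl k)) h
  simpa using h1

theorem LP_P (S : Pencil n M u a β p m g c₁ c₂ e₁ e₂ τ ρ) :
    ρ.LP (pcl g c₁ e₁ τ) (Gam g * bf (β + 1) c₁) := LP_pcl S.hg S.hc₁ S.he₁ S.hτ

theorem LP_Q (S : Pencil n M u a β p m g c₁ c₂ e₁ e₂ τ ρ) :
    ρ.LP (pcl g c₂ e₂ τ) (Gam g * bf (β + 1) c₂) := LP_pcl S.hg S.hc₂ S.he₂ S.hτ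

theorem noCommon' (S : Pencil n M u a β p m g c₁ c₂ e₁ e₂ τ ρ) :
    NoCommon (bf (β + 1) c₁) (bf (β + 1) c₂) := bf_noCommon S.ind_c

theorem res_zero (S : Pencil n M u a β p m g c₁ c₂ e₁ e₂ τ ρ) {F : R3} (hF : F ∈ linSys n p m)
    (h : res F = 0) : F = 0 := eq_zero_of_res S.p2_ne S.hlow hF h

/-- injectivity for the limit pencil -/
theorem inj_limit (S : Pencil n M u a β p m g c₁ c₂ e₁ e₂ τ ρ) {Φ : R4} (hΦ : BiHom u β Φ)
    (h : onC (Gam g * bf (β + 1) c₁) (Gam g * bf (β + 1) c₂) Φ = 0) : Φ = 0 := by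
  rw [onC_mul hΦ] at h
  have h1 := (mul_eq_zero.mp h).resolve_left (pow_ne_zero _ (Gam_ne_zero g))
  exact onC_inj (bf_hom _ _) (bf_hom _ _) S.noCommon' hΦ h1

/-- injectivity for the pencil -/
theorem inj (S : Pencil n M u a β p m g c₁ c₂ e₁ e₂ τ ρ) {Φ : R4} (hΦ : BiHom u β Φ)
    (h : onC (pcl g c₁ e₁ τ) (pcl g c₂ e₂ τ) Φ = 0) : Φ = 0 := by
  by_contra hne
  obtain ⟨c, hc, Φb, hΦb, hL⟩ := Pl.exists_scale_poly ρ hne
  apply hΦb
  apply S.inj_limit ((hΦ.C_mul c).limit hL)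
  have h1 := LP_onC S.LP_P S.LP_Q hL
  rw [map_mul, h, mul_zero] at h1
  exact (Pl.LP.fn Pl.LP_zero h1).symm

/-- the limit of a solution -/
theorem limit (S : Pencil n M u a β p m g c₁ c₂ e₁ e₂ τ ρ) {F : R3}
    (hF : F ∈ linSys n p m) (hF0 : F ≠ 0) {Φ : R4} (hΦ : BiHom u β Φ)
    (hs : res F = onC (pcl g c₁ e₁ τ) (pcl g c₂ e₂ τ) Φ) :
    ∃ (c : ℂ) (Fb : R3) (Φb : R4), c ≠ 0 ∧ ρ.LP (C c * F) Fb ∧ ρ.LP (C c * Φ) Φb ∧ Fb ≠ 0 ∧
      Φb ≠ 0 ∧ Fb ∈ linSys n p m ∧ BiHom u β Φb ∧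
      res Fb = Gam g ^ u * onC (bf (β + 1) c₁) (bf (β + 1) c₂) Φb := by
  have hresC : ∀ c : ℂ, res (C c * F) = onC (pcl g c₁ e₁ τ) (pcl g c₂ e₂ τ) (C c * Φ) := by
    intro c
    rw [map_mul, map_mul, hs, onC_C, res_C]
  have hΦ0 : Φ ≠ 0 := by
    intro h
    apply hF0
    apply S.res_zero hF
    rw [hs, h, map_zero]
  obtain ⟨c, hc, Fb, hFb0, hFb⟩ := Pl.exists_scale_poly ρ hF0
  obtain ⟨c', hc', Φb, hΦb0, hΦb⟩ := Pl.exists_scale_poly ρ hΦ0
  have hFm : C c * F ∈ linSys n p m := by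
    rw [← smul_eq_C_mul]
    exact Submodule.smul_mem _ _ hF
  have hFbm : Fb ∈ linSys n p m := hFb.linSys S.hp hFm
  rcases ρ.tot (c / c') with ⟨b, hb⟩ | h0
  · have h1 : ρ.LP (C c * Φ) (C b * Φb) := by
      have h2 := hΦb.C_mul hb
      have h3 : C (c / c') * (C c' * Φ) = C c * Φ := by
        rw [← mul_assoc, ← C_mul, div_mul_cancel₀ _ hc']
      rwa [h3] at h2
    have hBi : BiHom u β (C b * Φb) := (hΦ.C_mul c).limit h1
    have h4 : res Fb = onC (Gam g * bf (β + 1) c₁) (Gam g * bf (β + 1) c₂) (C b * Φb) := by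
      have h5 := LP_res hFb
      rw [hresC] at h5
      exact Pl.LP.fn h5 (LP_onC S.LP_P S.LP_Q h1)
    refine ⟨c, Fb, C b * Φb, hc, hFb, h1, hFb0, ?_, hFbm, hBi, ?_⟩
    · intro h6
      apply hFb0
      apply S.res_zero hFbm
      rw [h4, h6, map_zero]
    · rw [h4, onC_mul hBi]
  · exfalso
    apply hΦb0
    apply S.inj_limit ((hΦ.C_mul c').limit hΦb)
    rw [inv_div] at h0
    have h1 : ρ.LP (C c' * F) 0 := by
      have h2 := hFb.C_mul h0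
      have h3 : C (c' / c) * (C c * F) = C c' * F := by
        rw [← mul_assoc, ← C_mul, div_mul_cancel₀ _ hc]
      rwa [h3, C_0, zero_mul] at h2
    have h2 := LP_res h1
    rw [hresC, map_zero] at h2
    exact Pl.LP.fn (LP_onC S.LP_P S.LP_Q hΦb) h2

/-- properties of the limit -/
theorem member (S : Pencil n M u a β p m g c₁ c₂ e₁ e₂ τ ρ) {F : R3}
    (hF : F ∈ linSys n p m) (hF0 : F ≠ 0) {s : R2} (hs : res F = Gam g ^ u * s) :
    ¬ Bad n p m F ∧ NoDouble s ∧ (∀ j, eval ![g j, 1] s ≠ 0) ∧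
      ∀ F' ∈ linSys n p m, (∃ s', res F' = Gam g ^ u * s') → ∃ c : ℂ, F' = C c * F :=
  flag_member S.ind_g S.hM S.hu S.huM S.hn S.ha S.hna S.hχ S.hlow hF hF0 hs

/-- normalisation of points of the line -/
theorem normal (S : Pencil n M u a β p m g c₁ c₂ e₁ e₂ τ ρ) {y : V2} (hy : y ≠ 0) :
    ∃ c : ℂ, c ≠ 0 ∧ ((∃ yb : V2, yb ≠ 0 ∧ (∀ k, ρ.L ((c • y) k) (yb k)) ∧
      eval yb (Gam g) ≠ 0) ∨ (∃ (j : Fin a) (l : ℂ), c • y = ![g j + l, 1] ∧ ρ.L l 0)) := by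
  obtain ⟨c, hc, yb, hyb, hL⟩ := ρ.exists_scale_vec y hy
  by_cases hΓ : eval yb (Gam g) = 0
  · unfold Gam at hΓ
    rw [map_prod, Finset.prod_eq_zero_iff] at hΓ
    obtain ⟨j, -, hj⟩ := hΓ
    simp only [map_sub, map_mul, eval_X, eval_C] at hj
    have hj' : yb 0 = g j * yb 1 := by linear_combination hj
    have hyb1 : yb 1 ≠ 0 := by
      intro h
      apply hyb
      ext k
      fin_cases k
      · change yb 0 = 0
        rw [hj', h, mul_zero]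
      · exact h
    have hy1 : y 1 ≠ 0 := by
      intro h
      apply hyb1
      have h1 := hL 1
      rw [h, mul_zero] at h1
      exact ρ.fn h1 ρ.zero
    refine ⟨(y 1)⁻¹, inv_ne_zero hy1, Or.inr ⟨j, y 0 / y 1 - g j, ?_, ?_⟩⟩
    · ext k
      fin_cases k
      · simp only [Fin.zero_eta, Pi.smul_apply, smul_eq_mul, Matrix.cons_val_zero]
        field_simp
        ring
      · simp [hy1]
    · have h1 := ρ.div (hL 0) (hL 1) hyb1
      rw [mul_div_mul_left _ _ hc, hj', mul_div_assoc, div_self hyb1, mul_one] at h1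
      have h2 := ρ.sub h1 (S.hg j)
      rwa [sub_self] at h2
  · exact ⟨c, hc, Or.inl ⟨yb, hyb, hL, hΓ⟩⟩

/-- independence of the two vectors -/
theorem det_ne (S : Pencil n M u a β p m g c₁ c₂ e₁ e₂ τ ρ) (j : Fin a) :
    eval ![g j, 1] (bf (β + 1) c₁) * eval ![g j, 1] (bf (β + 1 + a) e₂) -
      eval ![g j, 1] (bf (β + 1) c₂) * eval ![g j, 1] (bf (β + 1 + a) e₁) ≠ 0 :=
  bf_det (S.ind_det j)

theorem noCommon (S : Pencil n M u a β p m g c₁ c₂ e₁ e₂ τ ρ) :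
    NoCommon (pcl g c₁ e₁ τ) (pcl g c₂ e₂ τ) := by
  intro y hy
  by_contra hcon
  push Not at hcon
  obtain ⟨h1, h2⟩ := hcon
  obtain ⟨c, hc, ⟨yb, hyb, hL, hΓ⟩ | ⟨j, l, hy', hl⟩⟩ := S.normal hy
  · have h3 : eval yb (Gam g * bf (β + 1) c₁) = 0 := by
      have h4 := S.LP_P.eval hL
      rw [eval_smul_of_hom (pcl_hom g c₁ e₁ τ), h1, mul_zero] at h4
      exact (ρ.fn ρ.zero h4).symm
    have h3' : eval yb (Gam g * bf (β + 1) c₂) = 0 := by
      have h4 := S.LP_Q.eval hL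
      rw [eval_smul_of_hom (pcl_hom g c₂ e₂ τ), h2, mul_zero] at h4
      exact (ρ.fn ρ.zero h4).symm
    rw [map_mul] at h3 h3'
    rcases S.noCommon' yb hyb with h5 | h5
    · exact h5 ((mul_eq_zero.mp h3).resolve_left hΓ)
    · exact h5 ((mul_eq_zero.mp h3').resolve_left hΓ)
  · have h3 : eval ![g j + l, 1] (pcl g c₁ e₁ τ) = 0 := by
      rw [← hy', eval_smul_of_hom (pcl_hom g c₁ e₁ τ), h1, mul_zero]
    have h4 : eval ![g j + l, 1] (pcl g c₂ e₂ τ) = 0 := by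
      rw [← hy', eval_smul_of_hom (pcl_hom g c₂ e₂ τ), h2, mul_zero]
    rw [eval_pcl, eval_Gam_near] at h3 h4
    have h5 : eval ![g j + l, 1] (Gamj g j) * (eval ![g j + l, 1] (bf (β + 1) c₁) *
        eval ![g j + l, 1] (bf (β + 1 + a) e₂) - eval ![g j + l, 1] (bf (β + 1) c₂) *
        eval ![g j + l, 1] (bf (β + 1 + a) e₁)) = 0 := by
      have h6 : τ * (eval ![g j + l, 1] (Gamj g j) * (eval ![g j + l, 1] (bf (β + 1) c₁) *
          eval ![g j + l, 1] (bf (β + 1 + a) e₂) - eval ![g j + l, 1] (bf (β + 1) c₂) *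
          eval ![g j + l, 1] (bf (β + 1 + a) e₁))) = 0 := by
        linear_combination eval ![g j + l, 1] (Gamj g j) *
          (eval ![g j + l, 1] (bf (β + 1) c₁) * h4 - eval ![g j + l, 1] (bf (β + 1) c₂) * h3)
      exact (mul_eq_zero.mp h6).resolve_left S.τ_ne
    have hLy : ∀ k, ρ.L ((![g j + l, 1] : V2) k) ((![g j, 1] : V2) k) := by
      have h7 := ρ.add (S.hg j) hl
      rw [add_zero] at h7
      exact L_vec h7 ρ.one
    have h8 := ρ.mul ((LP_Gamj S.hg j).eval hLy) (ρ.sub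
      (ρ.mul ((LP_bf S.hc₁).eval hLy) ((LP_bf S.he₂).eval hLy))
      (ρ.mul ((LP_bf S.hc₂).eval hLy) ((LP_bf S.he₁).eval hLy)))
    rw [h5] at h8
    have h9 := ρ.fn h8 ρ.zero
    exact mul_ne_zero (eval_Gamj_ne S.g_inj j) (S.det_ne j) h9

theorem not_bad (S : Pencil n M u a β p m g c₁ c₂ e₁ e₂ τ ρ) {F : R3}
    (hF : F ∈ linSys n p m) (hF0 : F ≠ 0) {Φ : R4} (hΦ : BiHom u β Φ)
    (hs : res F = onC (pcl g c₁ e₁ τ) (pcl g c₂ e₂ τ) Φ) : ¬ Bad n p m F := by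
  intro hb
  obtain ⟨c, Fb, Φb, hc, hFb, hΦb, hFb0, hΦb0, hFbm, hBi, hres⟩ := S.limit hF hF0 hΦ hs
  have hFm : C c * F ∈ linSys n p m := by
    rw [← smul_eq_C_mul]
    exact Submodule.smul_mem _ _ hF
  have hb' : Bad n p m (C c * F) := by
    rcases hb with ⟨q, hq0, hq1, hq2⟩ | ⟨i, u, hu, hb1, hb2⟩
    · left
      refine ⟨q, hq0, hq1, fun k => ?_⟩
      rw [pderiv_C_mul, map_mul, hq2 k, mul_zero]
    · right
      refine ⟨i, u, hu, ?_, fun h w => ?_⟩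
      · rw [B_C_mul_right, hb1, mul_zero]
      · rw [B_C_mul_right, hb2 h w, mul_zero]
  have hMn : ∀ i, m i ≤ n := by
    intro i
    have h1 := S.hM i
    have h2 := S.hn
    nlinarith
  have hn1 : 1 ≤ n := by
    have h2 := S.hn
    have h3 : 0 < (M + 2) ^ 2 := by positivity
    omega
  refine (S.member hFbm hFb0 hres).1 (bad_spec ρ hn1 hMn hFm hFb S.hp (fun i h => ?_) hb')
  exact S.p2_ne i (congrFun h 2)

theorem smooth (S : Pencil n M u a β p m g c₁ c₂ e₁ e₂ τ ρ) {F : R3}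
    (hF : F ∈ linSys n p m) (hF0 : F ≠ 0) {Φ : R4} (hΦ : BiHom u β Φ)
    (hs : res F = onC (pcl g c₁ e₁ τ) (pcl g c₂ e₂ τ) Φ) : SmoothΦ Φ := by
  intro v hv hv'
  by_contra hcon
  push Not at hcon
  obtain ⟨c, Fb, Φb, hc, hFb, hΦb, hFb0, hΦb0, hFbm, hBi, hres⟩ := S.limit hF hF0 hΦ hs
  have hθ : (![v 0, v 1] : V2) ≠ 0 := by
    intro h
    rcases hv with h' | h'
    · exact h' (congrFun h 0)
    · exact h' (congrFun h 1)
  have hy : (![v 2, v 3] : V2) ≠ 0 := by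
    intro h
    rcases hv' with h' | h'
    · exact h' (congrFun h 0)
    · exact h' (congrFun h 1)
  obtain ⟨s, hs0, θb, hθb, hLθ⟩ := ρ.exists_scale_vec _ hθ
  obtain ⟨r, hr0, yb, hyb, hLy⟩ := ρ.exists_scale_vec _ hy
  have hpt : pt ![v 0, v 1] ![v 2, v 3] = v := by
    funext k
    fin_cases k <;> rfl
  have h1 : ∀ k, eval (pt (s • ![v 0, v 1]) (r • ![v 2, v 3])) (pderiv k Φ) = 0 := by
    intro k
    fin_cases k
    · have h2 := (hΦ.pderiv_left (k := 0) (Or.inl rfl)).eval_scale s r ![v 0, v 1] ![v 2, v 3]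
      rw [hpt, hcon 0, mul_zero] at h2
      exact h2
    · have h2 := (hΦ.pderiv_left (k := 1) (Or.inr rfl)).eval_scale s r ![v 0, v 1] ![v 2, v 3]
      rw [hpt, hcon 1, mul_zero] at h2
      exact h2
    · have h2 := (hΦ.pderiv_right (k := 2) (Or.inl rfl)).eval_scale s r ![v 0, v 1] ![v 2, v 3]
      rw [hpt, hcon 2, mul_zero] at h2
      exact h2
    · have h2 := (hΦ.pderiv_right (k := 3) (Or.inr rfl)).eval_scale s r ![v 0, v 1] ![v 2, v 3]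
      rw [hpt, hcon 3, mul_zero] at h2
      exact h2
  have h3 : ∀ k, eval (pt θb yb) (pderiv k Φb) = 0 := by
    intro k
    have h4 := (hΦb.pderiv k).eval (LP_pt (θ := s • ![v 0, v 1]) (y := r • ![v 2, v 3]) hLθ hLy)
    rw [pderiv_C_mul, map_mul, h1 k, mul_zero] at h4
    exact (ρ.fn ρ.zero h4).symm
  obtain ⟨k, hk⟩ := (limit_smooth S.ind_gc S.hM S.hu S.huM S.hn S.ha S.hna S.hχ S.hlow hFbm hFb0
    hBi hres).1 (pt θb yb) (by
      by_contra h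
      push Not at h
      apply hθb
      ext k
      fin_cases k
      · exact h.1
      · exact h.2) (by
      by_contra h
      push Not at h
      apply hyb
      ext k
      fin_cases k
      · exact h.1
      · exact h.2)
  exact hk (h3 k)

/-- evaluation at a rescaled point -/
theorem eval_onC_smul {P Q : R2} {u' b' : ℕ} {Ψ : R4} (t : ℂ) (θ y : V2) (hΨ : BiHom u' b' Ψ)
    (ht : ![eval y P, eval y Q] = t • θ) :
    eval y (onC P Q Ψ) = t ^ u' * eval (pt θ y) Ψ := by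
  rw [eval_onC, ht]
  have := hΨ.eval_scale t 1 θ y
  rw [one_smul, one_pow, mul_one] at this
  exact this

theorem deriv_onC_smul {P Q : R2} {u b : ℕ} {Φ : R4} (hu : 1 ≤ u) {t : ℂ} (ht0 : t ≠ 0) {θ y : V2}
    (hΦ : BiHom u b Φ) (ht : ![eval y P, eval y Q] = t • θ)
    (hz : eval y (pderiv 0 (onC P Q Φ)) = 0) :
    eval (pt θ y) (pderiv 0 Φ) * eval y (pderiv 0 P) +
      eval (pt θ y) (pderiv 1 Φ) * eval y (pderiv 0 Q) +
      t * eval (pt θ y) (pderiv 2 Φ) = 0 := by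
  obtain ⟨v, rfl⟩ : ∃ v, u = v + 1 := ⟨u - 1, by omega⟩
  have h0 := eval_onC_smul t θ y (hΦ.pderiv_left (k := 0) (Or.inl rfl)) ht
  have h1 := eval_onC_smul t θ y (hΦ.pderiv_left (k := 1) (Or.inr rfl)) ht
  have h2 := eval_onC_smul t θ y (hΦ.pderiv_right (k := 2) (Or.inl rfl)) ht
  have h4 := congrArg (eval y) (pderiv_onC_sum P Q Φ 0)
  rw [hz, pderiv_X_self, pderiv_X_of_ne (by decide), mul_one, mul_zero, add_zero, map_add, map_add,
    map_mul, map_mul, h0, h1, h2, Nat.add_sub_cancel, pow_succ] at h4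
  have h5 : t ^ v * (eval (pt θ y) (pderiv 0 Φ) * eval y (pderiv 0 P) +
      eval (pt θ y) (pderiv 1 Φ) * eval y (pderiv 0 Q) +
      t * eval (pt θ y) (pderiv 2 Φ)) = 0 := by
    linear_combination -h4
  exact (mul_eq_zero.mp h5).resolve_left (pow_ne_zero _ ht0)

theorem hLy (S : Pencil n M u a β p m g c₁ c₂ e₁ e₂ τ ρ) {j : Fin a} {l : ℂ} (hl : ρ.L l 0) :
    ∀ k, ρ.L ((![g j + l, 1] : V2) k) ((![g j, 1] : V2) k) := by
  have h7 := ρ.add (S.hg j) hl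
  rw [add_zero] at h7
  exact L_vec h7 ρ.one

theorem near_finite (S : Pencil n M u a β p m g c₁ c₂ e₁ e₂ τ ρ) {Φ Φb : R4} (hΦ : BiHom u β Φ)
    (hBi : BiHom u β Φb) {c0 : ℂ} (hΦb : ρ.LP (C c0 * Φ) Φb) {j : Fin a}
    (hdir : NoDir Φb ![g j, 1]) {l w : ℂ} (hl : ρ.L l 0) (hw : ρ.L (l / τ) w)
    (hz0 : eval ![g j + l, 1] (onC (pcl g c₁ e₁ τ) (pcl g c₂ e₂ τ) Φ) = 0)
    (hz : eval ![g j + l, 1] (pderiv 0 (onC (pcl g c₁ e₁ τ) (pcl g c₂ e₂ τ) Φ)) = 0) : False := by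
  have hLy := S.hLy (j := j) hl
  have hP0 : eval ![g j + l, 1] (pcl g c₁ e₁ τ) = l * eval ![g j + l, 1] (Gamj g j) *
      eval ![g j + l, 1] (bf (β + 1) c₁) + τ * eval ![g j + l, 1] (bf (β + 1 + a) e₁) := by
    rw [eval_pcl, eval_Gam_near]
  have hQ0 : eval ![g j + l, 1] (pcl g c₂ e₂ τ) = l * eval ![g j + l, 1] (Gamj g j) *
      eval ![g j + l, 1] (bf (β + 1) c₂) + τ * eval ![g j + l, 1] (bf (β + 1 + a) e₂) := by
    rw [eval_pcl, eval_Gam_near]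
  have hLG := (LP_Gamj S.hg j).eval hLy
  have hLc1 := (LP_bf S.hc₁).eval hLy
  have hLc2 := (LP_bf S.hc₂).eval hLy
  have hLe1 := (LP_bf S.he₁).eval hLy
  have hLe2 := (LP_bf S.he₂).eval hLy
  have hGne : eval ![g j, 1] (Gamj g j) ≠ 0 := eval_Gamj_ne S.g_inj j
  have hdet := S.det_ne j
  have hP1 := eval_pderiv_Gam_mul g j (bf (β + 1) c₁)
  have hQ1 := eval_pderiv_Gam_mul g j (bf (β + 1) c₂)
  have hLP1 := (S.LP_P.pderiv 0).eval hLy
  have hLQ1 := (S.LP_Q.pderiv 0).eval hLy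
  rw [hP1] at hLP1
  rw [hQ1] at hLQ1
  generalize hy1 : (![g j + l, 1] : V2) = y1 at *
  generalize hyg : (![g j, 1] : V2) = yg at *
  generalize hG1 : eval y1 (Gamj g j) = G1 at *
  generalize ha1 : eval y1 (bf (β + 1) c₁) = a1 at *
  generalize ha2 : eval y1 (bf (β + 1) c₂) = a2 at *
  generalize hb1 : eval y1 (bf (β + 1 + a) e₁) = b1 at *
  generalize hb2 : eval y1 (bf (β + 1 + a) e₂) = b2 at *
  generalize hG0 : eval yg (Gamj g j) = G0 at *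
  generalize hx1 : eval yg (bf (β + 1) c₁) = x1 at *
  generalize hx2 : eval yg (bf (β + 1) c₂) = x2 at *
  generalize hz1 : eval yg (bf (β + 1 + a) e₁) = z1 at *
  generalize hz2 : eval yg (bf (β + 1 + a) e₂) = z2 at *
  generalize hP : pcl g c₁ e₁ τ = P at *
  generalize hQ : pcl g c₂ e₂ τ = Q at *
  have hτ0 := S.τ_ne
  have ht : (![eval y1 P, eval y1 Q] : V2) =
      τ • (![l / τ * G1 * a1 + b1, l / τ * G1 * a2 + b2] : V2) := by
    rw [hP0, hQ0]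
    ext k
    fin_cases k
    · simp only [Fin.zero_eta, Matrix.cons_val_zero, Pi.smul_apply, smul_eq_mul]
      field_simp
    · simp only [Fin.mk_one, Matrix.cons_val_one, Matrix.cons_val_fin_one, Pi.smul_apply,
        smul_eq_mul]
      field_simp
  have hLθ : ∀ k, ρ.L ((![l / τ * G1 * a1 + b1, l / τ * G1 * a2 + b2] : V2) k)
      ((![w * G0 * x1 + z1, w * G0 * x2 + z2] : V2) k) :=
    L_vec (ρ.add (ρ.mul (ρ.mul hw hLG) hLc1) hLe1) (ρ.add (ρ.mul (ρ.mul hw hLG) hLc2) hLe2)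
  generalize hθ : (![l / τ * G1 * a1 + b1, l / τ * G1 * a2 + b2] : V2) = θ at *
  have hθb0 : (![w * G0 * x1 + z1, w * G0 * x2 + z2] : V2) ≠ 0 := by
    intro h
    apply hdet
    have h1 : w * G0 * x1 + z1 = 0 := congrFun h 0
    have h2 : w * G0 * x2 + z2 = 0 := congrFun h 1
    linear_combination x1 * h2 - x2 * h1
  have hE := hBi.euler_left ![w * G0 * x1 + z1, w * G0 * x2 + z2] yg
  have e0 : (![w * G0 * x1 + z1, w * G0 * x2 + z2] : V2) 0 = w * G0 * x1 + z1 := rfl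
  have e1 : (![w * G0 * x1 + z1, w * G0 * x2 + z2] : V2) 1 = w * G0 * x2 + z2 := rfl
  rw [e0, e1] at hE
  generalize hθb : (![w * G0 * x1 + z1, w * G0 * x2 + z2] : V2) = θb at *
  have h1 : eval (pt θ y1) Φ = 0 := by
    have h2 := eval_onC_smul τ θ y1 hΦ ht
    rw [hz0] at h2
    exact (mul_eq_zero.mp h2.symm).resolve_left (pow_ne_zero _ hτ0)
  have hLpt := LP_pt hLθ hLy
  have h2 : eval (pt θb yg) Φb = 0 := by
    have h3 := hΦb.eval hLpt
    rw [map_mul, h1, mul_zero] at h3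
    exact (ρ.fn ρ.zero h3).symm
  have h3 : eval (pt θ y1) (pderiv 0 Φ) * eval y1 (pderiv 0 P) +
      eval (pt θ y1) (pderiv 1 Φ) * eval y1 (pderiv 0 Q) +
      τ * eval (pt θ y1) (pderiv 2 Φ) = 0 :=
    deriv_onC_smul (by have := S.hu; omega) hτ0 hΦ ht hz
  have h4 : eval (pt θb yg) (pderiv 0 Φb) * (G0 * x1) +
      eval (pt θb yg) (pderiv 1 Φb) * (G0 * x2) = 0 := by
    have h5 := ρ.add (ρ.add (ρ.mul ((hΦb.pderiv 0).eval hLpt) hLP1)
      (ρ.mul ((hΦb.pderiv 1).eval hLpt) hLQ1)) (ρ.mul S.hτ ((hΦb.pderiv 2).eval hLpt))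
    have h6 : eval (pt θ y1) (pderiv 0 (C c0 * Φ)) * eval y1 (pderiv 0 P) +
        eval (pt θ y1) (pderiv 1 (C c0 * Φ)) * eval y1 (pderiv 0 Q) +
        τ * eval (pt θ y1) (pderiv 2 (C c0 * Φ)) = 0 := by
      rw [pderiv_C_mul, pderiv_C_mul, pderiv_C_mul, map_mul, map_mul, map_mul, eval_C]
      linear_combination c0 * h3
    rw [h6] at h5
    have h7 := ρ.fn ρ.zero h5
    rw [zero_mul, add_zero] at h7
    exact h7.symm
  rw [h2, mul_zero] at hE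
  have h6 : G0 * (x1 * z2 - x2 * z1) ≠ 0 := mul_ne_zero hGne hdet
  have h7 : eval (pt θb yg) (pderiv 0 Φb) = 0 := by
    have : G0 * (x1 * z2 - x2 * z1) * eval (pt θb yg) (pderiv 0 Φb) = 0 := by
      linear_combination (w * G0 * x2 + z2) * h4 - (G0 * x2) * hE
    exact (mul_eq_zero.mp this).resolve_left h6
  have h8 : eval (pt θb yg) (pderiv 1 Φb) = 0 := by
    have : G0 * (x1 * z2 - x2 * z1) * eval (pt θb yg) (pderiv 1 Φb) = 0 := by
      linear_combination (G0 * x1) * hE - (w * G0 * x1 + z1) * h4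
    exact (mul_eq_zero.mp this).resolve_left h6
  rcases hdir θb hθb0 with h9 | h9
  · exact h9 h7
  · exact h9 h8

theorem near_infinite (S : Pencil n M u a β p m g c₁ c₂ e₁ e₂ τ ρ) {Φ Φb : R4}
    (hΦ : BiHom u β Φ) (hBi : BiHom u β Φb) {c0 : ℂ} (hΦb : ρ.LP (C c0 * Φ) Φb) {j : Fin a}
    {l : ℂ} (hl : ρ.L l 0) (hl0 : l ≠ 0) (hlim : ρ.L (τ / l) 0)
    (hz0 : eval ![g j + l, 1] (onC (pcl g c₁ e₁ τ) (pcl g c₂ e₂ τ) Φ) = 0) :
    eval ![g j, 1] (onC (bf (β + 1) c₁) (bf (β + 1) c₂) Φb) = 0 := by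
  have hLy := S.hLy (j := j) hl
  have hP0 : eval ![g j + l, 1] (pcl g c₁ e₁ τ) = l * eval ![g j + l, 1] (Gamj g j) *
      eval ![g j + l, 1] (bf (β + 1) c₁) + τ * eval ![g j + l, 1] (bf (β + 1 + a) e₁) := by
    rw [eval_pcl, eval_Gam_near]
  have hQ0 : eval ![g j + l, 1] (pcl g c₂ e₂ τ) = l * eval ![g j + l, 1] (Gamj g j) *
      eval ![g j + l, 1] (bf (β + 1) c₂) + τ * eval ![g j + l, 1] (bf (β + 1 + a) e₂) := by
    rw [eval_pcl, eval_Gam_near]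
  have hLG := (LP_Gamj S.hg j).eval hLy
  have hLc1 := (LP_bf S.hc₁).eval hLy
  have hLc2 := (LP_bf S.hc₂).eval hLy
  have hLe1 := (LP_bf S.he₁).eval hLy
  have hLe2 := (LP_bf S.he₂).eval hLy
  have hGne : eval ![g j, 1] (Gamj g j) ≠ 0 := eval_Gamj_ne S.g_inj j
  rw [eval_onC]
  generalize hy1 : (![g j + l, 1] : V2) = y1 at *
  generalize hyg : (![g j, 1] : V2) = yg at *
  generalize hG1 : eval y1 (Gamj g j) = G1 at *
  generalize ha1 : eval y1 (bf (β + 1) c₁) = a1 at *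
  generalize ha2 : eval y1 (bf (β + 1) c₂) = a2 at *
  generalize hb1 : eval y1 (bf (β + 1 + a) e₁) = b1 at *
  generalize hb2 : eval y1 (bf (β + 1 + a) e₂) = b2 at *
  generalize hG0 : eval yg (Gamj g j) = G0 at *
  generalize hx1 : eval yg (bf (β + 1) c₁) = x1 at *
  generalize hx2 : eval yg (bf (β + 1) c₂) = x2 at *
  generalize hz1 : eval yg (bf (β + 1 + a) e₁) = z1 at *
  generalize hz2 : eval yg (bf (β + 1 + a) e₂) = z2 at *
  generalize hP : pcl g c₁ e₁ τ = P at *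
  generalize hQ : pcl g c₂ e₂ τ = Q at *
  have ht : (![eval y1 P, eval y1 Q] : V2) =
      l • (![G1 * a1 + τ / l * b1, G1 * a2 + τ / l * b2] : V2) := by
    rw [hP0, hQ0]
    ext k
    fin_cases k
    · simp only [Fin.zero_eta, Matrix.cons_val_zero, Pi.smul_apply, smul_eq_mul]
      field_simp
    · simp only [Fin.mk_one, Matrix.cons_val_one, Matrix.cons_val_fin_one, Pi.smul_apply,
        smul_eq_mul]
      field_simp
  have hLθ : ∀ k, ρ.L ((![G1 * a1 + τ / l * b1, G1 * a2 + τ / l * b2] : V2) k)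
      ((![G0 * x1 + 0 * z1, G0 * x2 + 0 * z2] : V2) k) :=
    L_vec (ρ.add (ρ.mul hLG hLc1) (ρ.mul hlim hLe1)) (ρ.add (ρ.mul hLG hLc2) (ρ.mul hlim hLe2))
  rw [zero_mul, zero_mul, add_zero, add_zero] at hLθ
  generalize hθ : (![G1 * a1 + τ / l * b1, G1 * a2 + τ / l * b2] : V2) = θ at *
  have h1 : eval (pt θ y1) Φ = 0 := by
    have h2 := eval_onC_smul l θ y1 hΦ ht
    rw [hz0] at h2
    exact (mul_eq_zero.mp h2.symm).resolve_left (pow_ne_zero _ hl0)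
  have h2 : eval (pt ![G0 * x1, G0 * x2] yg) Φb = 0 := by
    have h3 := hΦb.eval (LP_pt hLθ hLy)
    rw [map_mul, h1, mul_zero] at h3
    exact (ρ.fn ρ.zero h3).symm
  have h3 := hBi.eval_scale G0 1 ![x1, x2] yg
  rw [one_smul, one_pow, mul_one] at h3
  have h4 : (G0 • ![x1, x2] : V2) = ![G0 * x1, G0 * x2] := by
    ext k
    fin_cases k <;> simp
  rw [h4, h2] at h3
  exact (mul_eq_zero.mp h3.symm).resolve_left (pow_ne_zero _ hGne)

theorem one_le_n (S : Pencil n M u a β p m g c₁ c₂ e₁ e₂ τ ρ) : 1 ≤ n := by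
  have h2 := S.hn
  have h3 : 0 < (M + 2) ^ 2 := by positivity
  omega

theorem noDouble (S : Pencil n M u a β p m g c₁ c₂ e₁ e₂ τ ρ) {F : R3}
    (hF : F ∈ linSys n p m) (hF0 : F ≠ 0) {Φ : R4} (hΦ : BiHom u β Φ)
    (hs : res F = onC (pcl g c₁ e₁ τ) (pcl g c₂ e₂ τ) Φ) : NoDouble (res F) := by
  intro y hy
  by_contra hcon
  push Not at hcon
  obtain ⟨c0, Fb, Φb, hc0, hFb, hΦb, hFb0, hΦb0, hFbm, hBi, hres⟩ := S.limit hF hF0 hΦ hs
  obtain ⟨hnb, hnd, hgs, huniq⟩ := S.member hFbm hFb0 hres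
  have hdir := (limit_smooth S.ind_gc S.hM S.hu S.huM S.hn S.ha S.hna S.hχ S.hlow hFbm hFb0
    hBi hres).2
  have hsh : (res F).IsHomogeneous n := res_hom hF.1
  have hn0 : (n : ℂ) ≠ 0 := by
    have h2 := S.one_le_n
    rw [Nat.cast_ne_zero]
    omega
  obtain ⟨c, hc, h⟩ := S.normal hy
  have hz : ∀ k, eval (c • y) (pderiv k (res F)) = 0 := by
    intro k
    rw [eval_smul_of_hom (hsh.pderiv (i := k)), hcon k, mul_zero]
  have hz0 : eval (c • y) (res F) = 0 := by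
    have h1 := euler2 hsh (c • y)
    rw [hz 0, hz 1, mul_zero, mul_zero, add_zero] at h1
    exact (mul_eq_zero.mp h1.symm).resolve_left hn0
  rcases h with ⟨yb, hyb, hL, hΓ⟩ | ⟨j, l, hy', hl⟩
  · have hresC : res (C c0 * F) = C c0 * res F := by rw [map_mul, res_C]
    have h1 : ∀ k, eval yb (pderiv k (res Fb)) = 0 := by
      intro k
      have h2 := ((LP_res hFb).pderiv k).eval hL
      rw [hresC, pderiv_C_mul, map_mul, hz k, mul_zero] at h2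
      exact (ρ.fn ρ.zero h2).symm
    have h2 : eval yb (res Fb) = 0 := by
      have h3 := (LP_res hFb).eval hL
      rw [hresC, map_mul, hz0, mul_zero] at h3
      exact (ρ.fn ρ.zero h3).symm
    have hΓu : eval yb (Gam g) ^ u ≠ 0 := pow_ne_zero _ hΓ
    rw [hres, map_mul, map_pow] at h2
    have h3 := (mul_eq_zero.mp h2).resolve_left hΓu
    obtain ⟨k, hk⟩ := hnd yb hyb
    apply hk
    have h4 := h1 k
    rw [hres, pderiv_mul, map_add, map_mul, map_mul, h3, mul_zero, zero_add, map_pow] at h4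
    exact (mul_eq_zero.mp h4).resolve_left hΓu
  · rw [hy'] at hz hz0
    rw [hs] at hz0
    have hz' := hz 0
    rw [hs] at hz'
    by_cases hl0 : l = 0
    · exact S.near_finite hΦ hBi hΦb (hdir j) hl (w := 0) (by
        rw [hl0, zero_div]
        exact ρ.zero) hz0 hz'
    · rcases ρ.tot (l / τ) with ⟨w, hw⟩ | h
      · exact S.near_finite hΦ hBi hΦb (hdir j) hl hw hz0 hz'
      · rw [inv_div] at h
        exact hgs j (S.near_infinite hΦ hBi hΦb hl hl0 h hz0)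

theorem unique (S : Pencil n M u a β p m g c₁ c₂ e₁ e₂ τ ρ) {F : R3}
    (hF : F ∈ linSys n p m) (hF0 : F ≠ 0) {Φ : R4} (hΦ : BiHom u β Φ)
    (hs : res F = onC (pcl g c₁ e₁ τ) (pcl g c₂ e₂ τ) Φ) {F' : R3} (hF' : F' ∈ linSys n p m)
    {Φ' : R4} (hΦ' : BiHom u β Φ') (hs' : res F' = onC (pcl g c₁ e₁ τ) (pcl g c₂ e₂ τ) Φ') :
    ∃ c : ℂ, F' = C c * F ∧ Φ' = C c * Φ := by
  obtain ⟨c0, Fb, Φb, hc0, hFb, hΦb, hFb0, hΦb0, hFbm, hBi, hres⟩ := S.limit hF hF0 hΦ hs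
  obtain ⟨hnb, hnd, hgs, huniq⟩ := S.member hFbm hFb0 hres
  obtain ⟨α, hα⟩ : ∃ α, coeff α Fb ≠ 0 := by
    obtain ⟨α, hα⟩ := MvPolynomial.support_nonempty.mpr hFb0
    exact ⟨α, MvPolynomial.mem_support_iff.mp hα⟩
  have hα' : coeff α F ≠ 0 := by
    intro h
    apply hα
    have h1 := hFb α
    rw [coeff_C_mul, h, mul_zero] at h1
    exact (ρ.fn ρ.zero h1).symm
  set κ := coeff α F' / coeff α F with hκ
  have hF2m : F' - C κ * F ∈ linSys n p m := by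
    apply Submodule.sub_mem _ hF'
    rw [← smul_eq_C_mul]
    exact Submodule.smul_mem _ _ hF
  have hΦ2 : BiHom u β (Φ' - C κ * Φ) := hΦ'.sub (hΦ.C_mul κ)
  have hs2 : res (F' - C κ * F) = onC (pcl g c₁ e₁ τ) (pcl g c₂ e₂ τ) (Φ' - C κ * Φ) := by
    rw [map_sub, map_sub, map_mul, map_mul, hs, hs', res_C, onC_C]
  have hF2 : F' - C κ * F = 0 := by
    by_contra hne
    obtain ⟨c2, Fb2, Φb2, hc2, hFb2, hΦb2, hFb20, hΦb20, hFb2m, hBi2, hres2⟩ :=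
      S.limit hF2m hne hΦ2 hs2
    obtain ⟨d, hd⟩ := huniq Fb2 hFb2m ⟨_, hres2⟩
    have h1 : coeff α (F' - C κ * F) = 0 := by
      rw [coeff_sub, coeff_C_mul, hκ, div_mul_cancel₀ _ hα', sub_self]
    have h2 := hFb2 α
    rw [coeff_C_mul, h1, mul_zero] at h2
    have h3 : coeff α Fb2 = 0 := (ρ.fn ρ.zero h2).symm
    rw [hd, coeff_C_mul] at h3
    have h4 := (mul_eq_zero.mp h3).resolve_right hα
    apply hFb20
    rw [hd, h4, C_0, zero_mul]
  refine ⟨κ, sub_eq_zero.mp hF2, ?_⟩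
  rw [hF2, map_zero] at hs2
  exact sub_eq_zero.mp (S.inj hΦ2 hs2.symm)

end Pencil

end pencil

theorem exists_pencil {ι : Type} [Fintype ι] [DecidableEq ι] {n M u a β : ℕ} {p : ι → V3}
    (hp : AlgebraicIndependent ℚ (fun z : ι × Fin 3 => p z.1 z.2)) {m : ι → ℕ}
    (hM : ∀ i, m i ≤ M) (hu : 2 ≤ u) (huM : u ≤ M)
    (hn : 3 * (M + 2) ^ 2 ≤ n) (ha : M ^ 2 + 2 * M + 3 ≤ u * a)
    (hnβ : n + 1 = (u + 1) * (β + 1) + u * a)
    (hχ : ∑ i, (m i + 1).choose 2 + (u * a + 1) = (n + 2).choose 2)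
    (hlow : linSys (n - 1) p m = ⊥) :
    ∃ (κ : Type) (_ : Fintype κ) (w : κ → ℂ) (P Q : R2), Ind p w ∧
      P.IsHomogeneous (β + 1 + a) ∧ Q.IsHomogeneous (β + 1 + a) ∧ NoCommon P Q ∧ P ≠ 0 ∧
      (∀ D : Derivation ℚ ℂ ℂ, (∀ k, D (w k) = 0) → cD D P = 0 ∧ cD D Q = 0) ∧
      (∀ F ∈ linSys n p m, ∀ Φ, BiHom u β Φ → res F = onC P Q Φ → F ≠ 0 →
        ¬ Bad n p m F ∧ SmoothΦ Φ ∧ NoDouble (res F)) ∧
      (∀ F ∈ linSys n p m, ∀ Φ, BiHom u β Φ → res F = onC P Q Φ → F ≠ 0 →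
        ∀ F' ∈ linSys n p m, ∀ Φ', BiHom u β Φ' → res F' = onC P Q Φ' →
        ∃ c : ℂ, F' = C c * F ∧ Φ' = C c * Φ) := by
  let κ : Type := Fin a ⊕ ((Fin (β + 1 + 1) ⊕ Fin (β + 1 + 1)) ⊕
    ((Fin (β + 1 + a + 1) ⊕ Fin (β + 1 + a + 1)) ⊕ Unit))
  obtain ⟨s, hs⟩ := exists_extension (κ := κ) p hp
  let w : κ → ℂ := fun k => s k 0
  have hind : AlgebraicIndependent ℚ (Sum.elim (fun z : ι × Fin 3 => p z.1 z.2) w) := by
    have h1 := hs.comp (Sum.elim (fun z : ι × Fin 3 => ((Sum.inl z.1 : ι ⊕ κ), z.2))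
      (fun k : κ => ((Sum.inr k : ι ⊕ κ), (0 : Fin 3)))) (by
        intro x y hxy
        rcases x with x | x <;> rcases y with y | y
        · have h2 := (Prod.mk.injEq _ _ _ _).mp hxy
          have h3 := Sum.inl_injective h2.1
          exact congrArg Sum.inl (Prod.ext h3 h2.2)
        · have h2 := (Prod.mk.injEq _ _ _ _).mp hxy
          exact absurd h2.1 Sum.inl_ne_inr
        · have h2 := (Prod.mk.injEq _ _ _ _).mp hxy
          exact absurd h2.1 Sum.inr_ne_inl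
        · have h2 := (Prod.mk.injEq _ _ _ _).mp hxy
          exact congrArg Sum.inr (Sum.inr_injective h2.1))
    have h2 : (fun z : (ι ⊕ κ) × Fin 3 => Sum.elim p s z.1 z.2) ∘
        (Sum.elim (fun z : ι × Fin 3 => ((Sum.inl z.1 : ι ⊕ κ), z.2))
          (fun k : κ => ((Sum.inr k : ι ⊕ κ), (0 : Fin 3)))) =
        Sum.elim (fun z : ι × Fin 3 => p z.1 z.2) w := by
      funext z
      rcases z with z | z <;> rfl
    rw [h2] at h1
    exact h1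
  let g : Fin a → ℂ := fun j => w (Sum.inl j)
  let c₁ : Fin (β + 1 + 1) → ℂ := fun j => w (Sum.inr (Sum.inl (Sum.inl j)))
  let c₂ : Fin (β + 1 + 1) → ℂ := fun j => w (Sum.inr (Sum.inl (Sum.inr j)))
  let e₁ : Fin (β + 1 + a + 1) → ℂ := fun j => w (Sum.inr (Sum.inr (Sum.inl (Sum.inl j))))
  let e₂ : Fin (β + 1 + a + 1) → ℂ := fun j => w (Sum.inr (Sum.inr (Sum.inl (Sum.inr j))))
  let τ : ℂ := w (Sum.inr (Sum.inr (Sum.inr ())))
  have hw : w = Sum.elim g (Sum.elim (Sum.elim c₁ c₂) (Sum.elim (Sum.elim e₁ e₂)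
      (fun _ : Unit => τ))) := by
    funext z
    rcases z with z | (z | z) | (z | z) | z <;> rfl
  obtain ⟨ρ, hρ⟩ := exists_place _ hind (Sum.elim (fun z : ι × Fin 3 => p z.1 z.2)
    (Sum.elim g (Sum.elim (Sum.elim c₁ c₂) (Sum.elim (Sum.elim e₁ e₂) (fun _ : Unit => 0)))))
  have S : Pencil n M u a β p m g c₁ c₂ e₁ e₂ τ ρ := by
    refine ⟨?_, fun i k => hρ (Sum.inl (i, k)), fun j => hρ (Sum.inr (Sum.inl j)),
      fun j => hρ (Sum.inr (Sum.inr (Sum.inl (Sum.inl j)))),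
      fun j => hρ (Sum.inr (Sum.inr (Sum.inl (Sum.inr j)))),
      fun j => hρ (Sum.inr (Sum.inr (Sum.inr (Sum.inl (Sum.inl j))))),
      fun j => hρ (Sum.inr (Sum.inr (Sum.inr (Sum.inl (Sum.inr j))))),
      hρ (Sum.inr (Sum.inr (Sum.inr (Sum.inr ())))), hM, hu, huM, hn, ha, hnβ, hχ, hlow⟩
    rw [← hw]
    exact hind
  refine ⟨κ, inferInstance, w, pcl g c₁ e₁ τ, pcl g c₂ e₂ τ, hind, pcl_hom _ _ _ _,
    pcl_hom _ _ _ _, S.noCommon, ?_, ?_, ?_, ?_⟩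
  · intro h
    obtain ⟨y, hy, hy0⟩ := exists_root_form (P := pcl g c₂ e₂ τ) (n := β + 1 + a) (by omega)
      (pcl_hom _ _ _ _)
    rcases S.noCommon y hy with h1 | h1
    · rw [h, map_zero] at h1
      exact h1 rfl
    · exact h1 hy0
  · intro D hD
    have hg : ∀ j, D (g j) = 0 := fun j => hD _
    have hc₁ : (fun j => D (c₁ j)) = fun _ => 0 := funext (fun j => hD _)
    have hc₂ : (fun j => D (c₂ j)) = fun _ => 0 := funext (fun j => hD _)
    have he₁ : (fun j => D (e₁ j)) = fun _ => 0 := funext (fun j => hD _)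
    have he₂ : (fun j => D (e₂ j)) = fun _ => 0 := funext (fun j => hD _)
    have hτ : D τ = 0 := hD _
    constructor
    · unfold pcl
      rw [map_add, cD_mul, cD_C_mul, cD_Gam_fixed hg, cD_bf, cD_bf, hc₁, he₁, bf_zero, bf_zero, hτ]
      simp
    · unfold pcl
      rw [map_add, cD_mul, cD_C_mul, cD_Gam_fixed hg, cD_bf, cD_bf, hc₂, he₂, bf_zero, bf_zero, hτ]
      simp
  · intro F hF Φ hΦ hs hF0
    exact ⟨S.not_bad hF hF0 hΦ hs, S.smooth hF hF0 hΦ hs, S.noDouble hF hF0 hΦ hs⟩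
  · intro F hF Φ hΦ hs hF0 F' hF' Φ' hΦ' hs'
    exact S.unique hF hF0 hΦ hs hF' hΦ' hs'

end Pool.Agent.Work.MP_0421d9_ag.SM
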