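import Pool.Agent.Work.MP_0421d9_ag.SM0

/-!
Places and polynomials.
-/

set_option linter.unusedSectionVars false
set_option linter.unusedVariables false

namespace Pool.Agent.Work.MP_0421d9_ag

open MvPolynomial Module

namespace Pl

variable (P : Pl)

theorem zero : P.L 0 0 := by
  have h := P.add P.one (P.neg P.one)
  rwa [add_neg_cancel] at h

theorem natCast (n : ℕ) : P.L n n := by
  induction n with
  | zero => rw [Nat.cast_zero]; exact P.zero
  | succ n ih => rw [Nat.cast_succ]; exact P.add ih P.one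

theorem intCast (n : ℤ) : P.L n n := by
  cases n with
  | ofNat n => rw [Int.ofNat_eq_natCast, Int.cast_natCast]; exact P.natCast n
  | negSucc n =>
    rw [Int.cast_negSucc]
    exact P.neg (P.natCast (n + 1))

theorem pow {a b : ℂ} (h : P.L a b) (n : ℕ) : P.L (a ^ n) (b ^ n) := by
  induction n with
  | zero => rw [pow_zero, pow_zero]; exact P.one
  | succ n ih => rw [pow_succ, pow_succ]; exact P.mul ih h

theorem sum {κ : Type} (s : Finset κ) {a b : κ → ℂ} (h : ∀ k ∈ s, P.L (a k) (b k)) :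
    P.L (∑ k ∈ s, a k) (∑ k ∈ s, b k) := by
  classical
  induction s using Finset.induction_on with
  | empty => rw [Finset.sum_empty, Finset.sum_empty]; exact P.zero
  | insert j s hj ih =>
    rw [Finset.sum_insert hj, Finset.sum_insert hj]
    exact P.add (h j (Finset.mem_insert_self j s))
      (ih (fun k hk => h k (Finset.mem_insert_of_mem hk)))

theorem prod {κ : Type} (s : Finset κ) {a b : κ → ℂ} (h : ∀ k ∈ s, P.L (a k) (b k)) :
    P.L (∏ k ∈ s, a k) (∏ k ∈ s, b k) := by
  classical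
  induction s using Finset.induction_on with
  | empty => rw [Finset.prod_empty, Finset.prod_empty]; exact P.one
  | insert j s hj ih =>
    rw [Finset.prod_insert hj, Finset.prod_insert hj]
    exact P.mul (h j (Finset.mem_insert_self j s))
      (ih (fun k hk => h k (Finset.mem_insert_of_mem hk)))

theorem inv {a b : ℂ} (h : P.L a b) (hb : b ≠ 0) : P.L a⁻¹ b⁻¹ := by
  rcases P.tot a⁻¹ with ⟨c, hc⟩ | h0
  · have ha : a ≠ 0 := by
      rintro rfl
      exact hb (P.fn h P.zero)
    have h1 := P.mul h hc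
    rw [mul_inv_cancel₀ ha] at h1
    have h2 := P.fn h1 P.one
    rwa [eq_inv_of_mul_eq_one_right h2] at hc
  · rw [inv_inv] at h0
    exact absurd (P.fn h h0) hb

theorem div {a b a' b' : ℂ} (h : P.L a b) (h' : P.L a' b') (hb : b' ≠ 0) :
    P.L (a / a') (b / b') := by
  rw [div_eq_mul_inv, div_eq_mul_inv]
  exact P.mul h (P.inv h' hb)

theorem ratCast (q : ℚ) : P.L q q := by
  rw [Rat.cast_def]
  refine P.div (P.intCast _) (P.natCast _) ?_
  rw [Nat.cast_ne_zero]
  exact q.den_nz

theorem sub {a b a' b' : ℂ} (h : P.L a b) (h' : P.L a' b') : P.L (a - a') (b - b') := by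
  rw [sub_eq_add_neg, sub_eq_add_neg]
  exact P.add h (P.neg h')

theorem exists_pivot {κ : Type} (s : Finset κ) (a : κ → ℂ) (h : ∃ k ∈ s, a k ≠ 0) :
    ∃ k₀ ∈ s, a k₀ ≠ 0 ∧ ∀ k ∈ s, ∃ b, P.L (a k / a k₀) b := by
  classical
  induction s using Finset.induction_on with
  | empty =>
    obtain ⟨k, hk, -⟩ := h
    exact absurd hk (Finset.notMem_empty k)
  | insert j s hj ih =>
    by_cases hs : ∃ k ∈ s, a k ≠ 0
    · obtain ⟨k₀, hk₀, h0, hall⟩ := ih hs
      rcases P.tot (a j / a k₀) with ⟨b, hb⟩ | h1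
      · refine ⟨k₀, Finset.mem_insert_of_mem hk₀, h0, fun k hk => ?_⟩
        rcases Finset.mem_insert.mp hk with rfl | hk
        · exact ⟨b, hb⟩
        · exact hall k hk
      · by_cases hj0 : a j = 0
        · refine ⟨k₀, Finset.mem_insert_of_mem hk₀, h0, fun k hk => ?_⟩
          rcases Finset.mem_insert.mp hk with rfl | hk
          · rw [hj0, zero_div]
            exact ⟨0, P.zero⟩
          · exact hall k hk
        · refine ⟨j, Finset.mem_insert_self j s, hj0, fun k hk => ?_⟩
          rcases Finset.mem_insert.mp hk with rfl | hk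
          · rw [div_self hj0]
            exact ⟨1, P.one⟩
          · obtain ⟨b, hb⟩ := hall k hk
            refine ⟨b * 0, ?_⟩
            have h2 := P.mul hb h1
            have h3 : a k / a k₀ * (a j / a k₀)⁻¹ = a k / a j := by
              field_simp
            rwa [h3] at h2
    · have hall : ∀ k ∈ s, a k = 0 := fun k hk => by
        by_contra hne
        exact hs ⟨k, hk, hne⟩
      have hj0 : a j ≠ 0 := by
        obtain ⟨k, hk, hk0⟩ := h
        rcases Finset.mem_insert.mp hk with rfl | hk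
        · exact hk0
        · exact absurd (hall k hk) hk0
      refine ⟨j, Finset.mem_insert_self j s, hj0, fun k hk => ?_⟩
      rcases Finset.mem_insert.mp hk with rfl | hk
      · rw [div_self hj0]
        exact ⟨1, P.one⟩
      · rw [hall k hk, zero_div]
        exact ⟨0, P.zero⟩

/-- normalisation of a finite family -/
theorem exists_scale {κ : Type} (s : Finset κ) (a : κ → ℂ) (h : ∃ k ∈ s, a k ≠ 0) :
    ∃ c : ℂ, c ≠ 0 ∧ ∃ b : κ → ℂ, (∀ k ∈ s, P.L (c * a k) (b k)) ∧ ∃ k ∈ s, b k ≠ 0 := by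
  classical
  obtain ⟨k₀, hk₀, h0, hall⟩ := P.exists_pivot s a h
  have hall' : ∀ k ∈ s, ∃ b, P.L ((a k₀)⁻¹ * a k) b := fun k hk => by
    obtain ⟨b, hb⟩ := hall k hk
    refine ⟨b, ?_⟩
    rwa [div_eq_inv_mul] at hb
  refine ⟨(a k₀)⁻¹, inv_ne_zero h0,
    fun k => if hk : k ∈ s then (hall' k hk).choose else 0, fun k hk => ?_, k₀, hk₀, ?_⟩
  · simp only [dif_pos hk]
    exact (hall' k hk).choose_spec
  · simp only [dif_pos hk₀]
    have h1 := (hall' k₀ hk₀).choose_spec
    have h2 : P.L ((a k₀)⁻¹ * a k₀) 1 := by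
      rw [inv_mul_cancel₀ h0]
      exact P.one
    rw [P.fn h1 h2]
    exact one_ne_zero

/-- normalisation of a vector -/
theorem exists_scale_vec {n : ℕ} (a : Fin n → ℂ) (h : a ≠ 0) :
    ∃ c : ℂ, c ≠ 0 ∧ ∃ b : Fin n → ℂ, b ≠ 0 ∧ ∀ k, P.L (c * a k) (b k) := by
  have h1 : ∃ k ∈ (Finset.univ : Finset (Fin n)), a k ≠ 0 := by
    by_contra hcon
    push Not at hcon
    exact h (funext (fun k => hcon k (Finset.mem_univ k)))
  obtain ⟨c, hc, b, hb, k, -, hk⟩ := P.exists_scale Finset.univ a h1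
  refine ⟨c, hc, b, ?_, fun k => hb k (Finset.mem_univ k)⟩
  rintro rfl
  exact hk rfl

variable {P} {σ τ : Type}

theorem LP.fn {F G G' : MvPolynomial σ ℂ} (h : P.LP F G) (h' : P.LP F G') : G = G' := by
  ext α
  exact P.fn (h α) (h' α)

theorem LP_zero : P.LP (0 : MvPolynomial σ ℂ) 0 := by
  intro α
  rw [coeff_zero]
  exact P.zero

theorem LP_C {a b : ℂ} (h : P.L a b) : P.LP (C a : MvPolynomial σ ℂ) (C b) := by
  classical
  intro α
  rw [coeff_C, coeff_C]
  split_ifs
  · exact h
  · exact P.zero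

theorem LP_one : P.LP (1 : MvPolynomial σ ℂ) 1 := by
  have h := LP_C (σ := σ) P.one
  rwa [C_1] at h

theorem LP_X (i : σ) : P.LP (X i : MvPolynomial σ ℂ) (X i) := by
  classical
  intro α
  rw [coeff_X]
  split_ifs
  · exact P.one
  · exact P.zero

theorem LP.add {F F' G G' : MvPolynomial σ ℂ} (h : P.LP F G) (h' : P.LP F' G') :
    P.LP (F + F') (G + G') := by
  intro α
  rw [coeff_add, coeff_add]
  exact P.add (h α) (h' α)

theorem LP.neg {F G : MvPolynomial σ ℂ} (h : P.LP F G) : P.LP (-F) (-G) := by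
  intro α
  rw [coeff_neg, coeff_neg]
  exact P.neg (h α)

theorem LP.sub {F F' G G' : MvPolynomial σ ℂ} (h : P.LP F G) (h' : P.LP F' G') :
    P.LP (F - F') (G - G') := by
  intro α
  rw [coeff_sub, coeff_sub]
  exact P.sub (h α) (h' α)

theorem LP.mul {F F' G G' : MvPolynomial σ ℂ} (h : P.LP F G) (h' : P.LP F' G') :
    P.LP (F * F') (G * G') := by
  classical
  intro α
  rw [coeff_mul, coeff_mul]
  exact P.sum _ (fun x _ => P.mul (h x.1) (h' x.2))

theorem LP.C_mul {F G : MvPolynomial σ ℂ} (h : P.LP F G) {a b : ℂ} (hab : P.L a b) :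
    P.LP (C a * F) (C b * G) := LP.mul (LP_C hab) h

theorem LP.pow {F G : MvPolynomial σ ℂ} (h : P.LP F G) (n : ℕ) : P.LP (F ^ n) (G ^ n) := by
  induction n with
  | zero => rw [pow_zero, pow_zero]; exact LP_one
  | succ n ih => rw [pow_succ, pow_succ]; exact ih.mul h

theorem LP.sum {κ : Type} (s : Finset κ) {F G : κ → MvPolynomial σ ℂ}
    (h : ∀ k ∈ s, P.LP (F k) (G k)) : P.LP (∑ k ∈ s, F k) (∑ k ∈ s, G k) := by
  intro α
  rw [coeff_sum, coeff_sum]
  exact P.sum s (fun k hk => h k hk α)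

theorem LP.prod {κ : Type} (s : Finset κ) {F G : κ → MvPolynomial σ ℂ}
    (h : ∀ k ∈ s, P.LP (F k) (G k)) : P.LP (∏ k ∈ s, F k) (∏ k ∈ s, G k) := by
  classical
  induction s using Finset.induction_on with
  | empty => rw [Finset.prod_empty, Finset.prod_empty]; exact LP_one
  | insert j s hj ih =>
    rw [Finset.prod_insert hj, Finset.prod_insert hj]
    exact (h j (Finset.mem_insert_self j s)).mul
      (ih (fun k hk => h k (Finset.mem_insert_of_mem hk)))

theorem LP.pderiv (i : σ) {F G : MvPolynomial σ ℂ} (h : P.LP F G) :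
    P.LP (pderiv i F) (pderiv i G) := by
  classical
  intro α
  rw [coeff_pderiv, coeff_pderiv]
  refine P.mul (h _) ?_
  exact P.add (P.natCast _) P.one

theorem LP.support_subset {F G : MvPolynomial σ ℂ} (h : P.LP F G) : G.support ⊆ F.support := by
  intro α hα
  rw [MvPolynomial.mem_support_iff] at hα ⊢
  intro h0
  apply hα
  have h1 := h α
  rw [h0] at h1
  exact P.fn h1 P.zero

theorem LP.eval {F G : MvPolynomial σ ℂ} (h : P.LP F G) {a b : σ → ℂ} (ha : ∀ i, P.L (a i) (b i)) :
    P.L (eval a F) (eval b G) := by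
  have h1 : MvPolynomial.eval b G = ∑ d ∈ F.support, coeff d G * ∏ i ∈ d.support, b i ^ d i := by
    rw [eval_eq]
    apply Finset.sum_subset h.support_subset
    intro d _ hd
    rw [notMem_support_iff.mp hd, zero_mul]
  rw [h1, eval_eq]
  exact P.sum _ (fun d _ => P.mul (h d) (P.prod _ (fun i _ => P.pow (ha i) _)))

theorem LP.aeval {F G : MvPolynomial σ ℂ} (h : P.LP F G) {f g : σ → MvPolynomial τ ℂ}
    (hf : ∀ i, P.LP (f i) (g i)) : P.LP (aeval f F) (aeval g G) := by
  have h0 : ∀ (e : σ → MvPolynomial τ ℂ) (H : MvPolynomial σ ℂ), MvPolynomial.aeval e H =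
      ∑ d ∈ H.support, C (coeff d H) * ∏ i ∈ d.support, e i ^ d i := by
    intro e H
    rw [aeval_def, eval₂_eq]
    rfl
  have h1 : MvPolynomial.aeval g G = ∑ d ∈ F.support, C (coeff d G) *
      ∏ i ∈ d.support, g i ^ d i := by
    rw [h0]
    apply Finset.sum_subset h.support_subset
    intro d _ hd
    rw [notMem_support_iff.mp hd, C_0, zero_mul]
  rw [h1, h0]
  exact LP.sum _ (fun d _ => (LP_C (h d)).mul (LP.prod _ (fun i _ => (hf i).pow _)))

theorem LP.homogeneous {F G : MvPolynomial σ ℂ} (h : P.LP F G) {n : ℕ} (hF : F.IsHomogeneous n) :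
    G.IsHomogeneous n := by
  intro α hα
  apply hF
  exact MvPolynomial.mem_support_iff.mp (h.support_subset (MvPolynomial.mem_support_iff.mpr hα))

theorem LP.homogeneousComponent {F G : MvPolynomial σ ℂ} (h : P.LP F G) (k : ℕ) :
    P.LP (homogeneousComponent k F) (homogeneousComponent k G) := by
  classical
  intro α
  rw [coeff_homogeneousComponent, coeff_homogeneousComponent]
  split_ifs
  · exact h α
  · exact P.zero

theorem LP_lin {v w : V3} (h : ∀ k, P.L (v k) (w k)) : P.LP (lin v) (lin w) := by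
  unfold lin
  exact LP.sum _ (fun i _ => (LP_C (h i)).mul (LP_X i))

theorem B_eq_sum (A F : R3) : B A F = ∑ α ∈ A.support, coeff α A * (wt α * coeff α F) := by
  conv_lhs => rw [A.as_sum]
  rw [map_sum, LinearMap.sum_apply]
  exact Finset.sum_congr rfl (fun α _ => B_monomial α _ F)

theorem LP.B {A A' F F' : R3} (hA : P.LP A A') (hF : P.LP F F') : P.L (B A F) (B A' F') := by
  have h1 : MP_0421d9_ag.B A' F' = ∑ α ∈ A.support, coeff α A' * (wt α * coeff α F') := by
    rw [B_eq_sum]
    apply Finset.sum_subset hA.support_subset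
    intro d _ hd
    rw [notMem_support_iff.mp hd, zero_mul]
  rw [h1, B_eq_sum]
  exact P.sum _ (fun α _ => P.mul (hA α) (P.mul (P.natCast _) (hF α)))

theorem exists_scale_poly (P : Pl) {F : MvPolynomial σ ℂ} (hF : F ≠ 0) :
    ∃ c : ℂ, c ≠ 0 ∧ ∃ G : MvPolynomial σ ℂ, G ≠ 0 ∧ P.LP (C c * F) G := by
  classical
  have h1 : ∃ α ∈ F.support, coeff α F ≠ 0 := by
    obtain ⟨α, hα⟩ := MvPolynomial.support_nonempty.mpr hF
    exact ⟨α, hα, MvPolynomial.mem_support_iff.mp hα⟩
  obtain ⟨c, hc, b, hb, k, hk, hk0⟩ := P.exists_scale F.support (fun α => coeff α F) h1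
  have h2 : ∀ α, coeff α (∑ β ∈ F.support, monomial β (b β)) = if α ∈ F.support then b α else 0 := by
    intro α
    rw [coeff_sum]
    simp only [coeff_monomial]
    rw [Finset.sum_ite_eq' F.support α]
  refine ⟨c, hc, ∑ β ∈ F.support, monomial β (b β), ?_, fun α => ?_⟩
  · intro h0
    apply hk0
    have h3 := h2 k
    rw [h0, coeff_zero, if_pos hk] at h3
    exact h3.symm
  · rw [h2, coeff_C_mul]
    split_ifs with hα
    · exact hb α hα
    · rw [notMem_support_iff.mp hα, mul_zero]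
      exact P.zero

theorem LP.translate {F G : R3} (h : P.LP F G) {p q : V3} (hp : ∀ k, P.L (p k) (q k)) :
    P.LP (translate p F) (translate q G) := by
  unfold MP_0421d9_ag.translate
  exact h.aeval (fun k => (LP_C (hp k)).add (LP_X k))

theorem LP.vanishTo {F G : R3} (h : P.LP F G) {d : ℕ} (hF : F.IsHomogeneous d) {p q : V3}
    (hp : ∀ k, P.L (p k) (q k)) {m : ℕ} (hv : VanishTo F p m) : VanishTo G q m := by
  intro k hk
  have h1 := (h.translate hp).homogeneousComponent k
  rw [hv k hk] at h1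
  exact (LP.fn LP_zero h1).symm

theorem LP.linSys {ι : Type} {d : ℕ} {p q : ι → V3} {m : ι → ℕ} {F G : R3} (h : P.LP F G)
    (hp : ∀ i k, P.L (p i k) (q i k)) (hF : F ∈ linSys d p m) : G ∈ linSys d q m :=
  ⟨h.homogeneous hF.1, fun i => h.vanishTo hF.1 (hp i) (hF.2 i)⟩

end Pl

end Pool.Agent.Work.MP_0421d9_ag
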