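import Pool.Agent.Work.MP_0421d9_ag.SDiv

/-!
Generic position of the flags: the points `p i` and two points on the line `z = 0` are generic up
to a linear change of the coordinates.
-/

set_option linter.unusedSectionVars false

namespace Pool.Agent.Work.MP_0421d9_ag.SM

open MvPolynomial Module

/-- the image of an independent family under a dominant map is independent -/
theorem algInd_of_dominant {ι κ : Type} [Finite κ] (x : ι → ℂ) (hx : AlgebraicIndependent ℚ x)
    (ψ : κ → MvPolynomial ι ℚ) (h : MvPolynomial κ ℂ) (hh : h ≠ 0)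
    (hs : ∀ a : κ → ℂ, eval a h ≠ 0 → ∃ b : ι → ℂ, ∀ k, aeval b (ψ k) = a k) :
    AlgebraicIndependent ℚ (fun k => aeval x (ψ k)) := by
  rw [algebraicIndependent_iff]
  intro Q hQ
  have h1 : aeval x (bind₁ ψ Q) = 0 := by
    rw [aeval_bind₁]
    exact hQ
  have h2 : bind₁ ψ Q = 0 := (algebraicIndependent_iff.mp hx) _ h1
  have h3 : ∀ a : κ → ℂ, eval a h ≠ 0 → aeval a Q = 0 := by
    intro a ha
    obtain ⟨b, hb⟩ := hs a ha
    have h4 : aeval b (bind₁ ψ Q) = 0 := by rw [h2, map_zero]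
    rw [aeval_bind₁] at h4
    rw [show a = fun k => aeval b (ψ k) from (funext hb).symm]
    exact h4
  have h5 : map (algebraMap ℚ ℂ) Q * h = 0 := by
    apply MvPolynomial.funext
    intro a
    rw [map_mul, map_zero, eval_map, ← aeval_def]
    by_cases ha : eval a h = 0
    · rw [ha, mul_zero]
    · rw [h3 a ha, zero_mul]
  have h6 : map (algebraMap ℚ ℂ) Q = 0 := (mul_eq_zero.mp h5).resolve_right hh
  exact (map_eq_zero_iff _ (map_injective _ (algebraMap ℚ ℂ).injective)).mp h6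

/-- the points `p i` and two points on the line `z = 0` are generic up to a linear change -/
theorem flags_position {ι : Type} [Finite ι] {p : ι → V3} {c : Fin 2 → ℂ} (hx : Ind p c) :
    ∃ A B : Matrix (Fin 3) (Fin 3) ℂ, A * B = 1 ∧ B * A = 1 ∧
      AlgebraicIndependent ℚ (fun z : (ι ⊕ Fin 2) × Fin 3 =>
        (A.mulVec (Sum.elim p (fun j => fl (c j)) z.1)) z.2) := by
  classical
  obtain ⟨w, hw⟩ := hx.extend (κ' := Fin 3 × Fin 3)
  set A : Matrix (Fin 3) (Fin 3) ℂ := fun i j => w (i, j) with hA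
  have hdet : A.det ≠ 0 := by
    have h1 : AlgebraicIndependent ℚ w := AlgebraicIndependent.comp hw
      (fun z : Fin 3 × Fin 3 => Sum.inr (Sum.inr z))
      (fun z z' h => Sum.inr_injective (Sum.inr_injective h))
    intro h2
    have h3 : aeval w (Matrix.det (Matrix.mvPolynomialX (Fin 3) (Fin 3) ℚ)) = 0 := by
      rw [← h2, AlgHom.map_det]
      congr 1
      ext i j
      rw [AlgHom.mapMatrix_apply, Matrix.map_apply, Matrix.mvPolynomialX_apply, aeval_X]
    have h4 := (algebraicIndependent_iff.mp h1) _ h3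
    exact Matrix.det_mvPolynomialX_ne_zero (Fin 3) ℚ h4
  have hunit : IsUnit A.det := isUnit_iff_ne_zero.mpr hdet
  refine ⟨A, A⁻¹, Matrix.mul_nonsing_inv A hunit, Matrix.nonsing_inv_mul A hunit, ?_⟩
  let ψ : (ι ⊕ Fin 2) × Fin 3 → MvPolynomial ((ι × Fin 3) ⊕ (Fin 2 ⊕ (Fin 3 × Fin 3))) ℚ :=
    fun z => Sum.elim
      (fun i => ∑ l : Fin 3, X (Sum.inr (Sum.inr (z.2, l))) * X (Sum.inl (i, l)))
      (fun j => X (Sum.inr (Sum.inr (z.2, 0))) * X (Sum.inr (Sum.inl j)) +
        X (Sum.inr (Sum.inr (z.2, 1)))) z.1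
  let h : MvPolynomial ((ι ⊕ Fin 2) × Fin 3) ℂ :=
    X (Sum.inr 0, 0) * X (Sum.inr 1, 1) - X (Sum.inr 0, 1) * X (Sum.inr 1, 0)
  have hh : h ≠ 0 := by
    intro h0
    have h1 : eval (fun z : (ι ⊕ Fin 2) × Fin 3 =>
        if z = (Sum.inr 0, 0) ∨ z = (Sum.inr 1, 1) then (1 : ℂ) else 0) h = 0 := by
      rw [h0, map_zero]
    simp [h] at h1
  have hs : ∀ a : (ι ⊕ Fin 2) × Fin 3 → ℂ, eval a h ≠ 0 →
      ∃ b : (ι × Fin 3) ⊕ (Fin 2 ⊕ (Fin 3 × Fin 3)) → ℂ, ∀ k, aeval b (ψ k) = a k := by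
    intro a ha
    have ha' : a (Sum.inr 0, 0) * a (Sum.inr 1, 1) - a (Sum.inr 0, 1) * a (Sum.inr 1, 0) ≠ 0 := by
      simpa [h] using ha
    let A' : Matrix (Fin 3) (Fin 3) ℂ :=
      !![a (Sum.inr 1, 0) - a (Sum.inr 0, 0), a (Sum.inr 0, 0), 0;
         a (Sum.inr 1, 1) - a (Sum.inr 0, 1), a (Sum.inr 0, 1), 0;
         a (Sum.inr 1, 2) - a (Sum.inr 0, 2), a (Sum.inr 0, 2), 1]
    have hdet' : A'.det ≠ 0 := by
      have h1 : A'.det = -(a (Sum.inr 0, 0) * a (Sum.inr 1, 1) -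
          a (Sum.inr 0, 1) * a (Sum.inr 1, 0)) := by
        simp only [A', Matrix.det_fin_three, Matrix.of_apply, Matrix.cons_val', Matrix.cons_val_zero,
          Matrix.cons_val_one, Matrix.cons_val]
        ring
      rw [h1]
      exact neg_ne_zero.mpr ha'
    have hunit' : IsUnit A'.det := isUnit_iff_ne_zero.mpr hdet'
    let b : (ι × Fin 3) ⊕ (Fin 2 ⊕ (Fin 3 × Fin 3)) → ℂ :=
      Sum.elim (fun z => (A'⁻¹.mulVec (fun k => a (Sum.inl z.1, k))) z.2)
        (Sum.elim ![0, 1] (fun z => A' z.1 z.2))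
    refine ⟨b, ?_⟩
    rintro ⟨i | j, k⟩
    · have h1 : aeval b (ψ (Sum.inl i, k)) =
          (A'.mulVec (A'⁻¹.mulVec (fun k => a (Sum.inl i, k)))) k := by
        simp only [ψ, Sum.elim_inl, map_sum, map_mul, aeval_X, b, Sum.elim_inr]
        rfl
      rw [h1, Matrix.mulVec_mulVec, Matrix.mul_nonsing_inv A' hunit', Matrix.one_mulVec]
    · fin_cases j <;> fin_cases k <;> simp [ψ, b, A']
  have hfin := algInd_of_dominant _ hw ψ h hh hs
  have hfun : (fun z : (ι ⊕ Fin 2) × Fin 3 =>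
        (A.mulVec (Sum.elim p (fun j => fl (c j)) z.1)) z.2) =
      (fun k => aeval (Sum.elim (fun z : ι × Fin 3 => p z.1 z.2) (Sum.elim c w)) (ψ k)) := by
    funext z
    obtain ⟨i | j, k⟩ := z
    · simp only [ψ, Sum.elim_inl, map_sum, map_mul, aeval_X, Sum.elim_inr]
      rfl
    · simp only [ψ, Sum.elim_inl, map_add, map_mul, aeval_X, Sum.elim_inr]
      simp only [Matrix.mulVec, dotProduct, Fin.sum_univ_three, fl, hA, Matrix.cons_val_zero,
        Matrix.cons_val_one, Matrix.cons_val]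
      ring
  rw [hfun]
  exact hfin

/-- moving the points by a linear map -/
theorem finrank_linSys_mulVec {κ : Type} (n : ℕ) (q : κ → V3) (y : κ → ℕ)
    {M N : Matrix (Fin 3) (Fin 3) ℂ} (hMN : M * N = 1) :
    finrank ℂ (linSys n (fun i => M.mulVec (q i)) y) ≤ finrank ℂ (linSys n q y) := by
  have h1 : ∀ G ∈ linSys n (fun i => M.mulVec (q i)) y, LD.subM M G ∈ linSys n q y := by
    intro G hG
    exact ⟨LD.subM_isHomogeneous M hG.1, fun i => LD.vanishTo_subM M (hG.2 i)⟩
  refine LinearMap.finrank_le_finrank_of_injective (f :=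
    ((LD.subM M).toLinearMap).restrict h1) ?_
  intro G G' h
  have h2 : LD.subM M G.1 = LD.subM M G'.1 := congrArg Subtype.val h
  have h3 := congrArg (LD.subM N) h2
  rw [LD.subM_subM, LD.subM_subM, hMN, LD.subM_one, LD.subM_one] at h3
  exact Subtype.ext h3

/-- relabelling the points -/
theorem linSys_equiv {κ κ' : Type} (n : ℕ) (q : κ → V3) (y : κ → ℕ) (e : κ ≃ κ') :
    linSys n (fun i => q (e.symm i)) (fun i => y (e.symm i)) = linSys n q y := by
  ext F
  constructor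
  · intro hF
    refine ⟨hF.1, fun i => ?_⟩
    have h1 : VanishTo F (q (e.symm (e i))) (y (e.symm (e i))) := hF.2 (e i)
    rwa [e.symm_apply_apply] at h1
  · intro hF
    exact ⟨hF.1, fun i => hF.2 (e.symm i)⟩

/-- nonspeciality for the points `p i` and two points on the line `z = 0` -/
theorem finrank_flags {ι : Type} [Fintype ι] {p : ι → V3} {c : Fin 2 → ℂ} (hx : Ind p c)
    {n M : ℕ} {y : ι ⊕ Fin 2 → ℕ} (hy : ∀ i, y i ≤ M) (hn : 3 * M ^ 2 ≤ n) :
    finrank ℂ (linSys n (Sum.elim p (fun j => fl (c j))) y) =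
      (n + 2).choose 2 - ∑ i, (y i + 1).choose 2 := by
  obtain ⟨A, B, hAB, hBA, hind⟩ := flags_position hx
  set q : ι ⊕ Fin 2 → V3 := Sum.elim p (fun j => fl (c j)) with hq
  have h1 := finrank_linSys_mulVec n q y hAB
  have h2 := finrank_linSys_mulVec n (fun i => A.mulVec (q i)) y hBA
  have h3 : (fun i => B.mulVec (A.mulVec (q i))) = q := by
    funext i
    rw [Matrix.mulVec_mulVec, hBA, Matrix.one_mulVec]
  rw [h3] at h2
  have h4 : finrank ℂ (linSys n q y) = finrank ℂ (linSys n (fun i => A.mulVec (q i)) y) :=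
    le_antisymm h2 h1
  rw [h4]
  set e : ι ⊕ Fin 2 ≃ Fin (Fintype.card (ι ⊕ Fin 2)) := Fintype.equivFin _ with he
  rw [← linSys_equiv n (fun i => A.mulVec (q i)) y e]
  have h5 : GenericPoints (fun i => A.mulVec (q (e.symm i))) := by
    have h6 := AlgebraicIndependent.comp hind (fun z : Fin (Fintype.card (ι ⊕ Fin 2)) × Fin 3 =>
      (e.symm z.1, z.2)) (fun z z' h => by
        have h7 := congrArg Prod.fst h
        have h8 := congrArg Prod.snd h
        exact Prod.ext (e.symm.injective h7) h8)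
    exact h6
  rw [LD.main h5 (m := fun i => y (e.symm i)) (M := M) (fun i => hy _) hn]
  congr 1
  exact e.symm.sum_comp (fun i => (y i + 1).choose 2)

end Pool.Agent.Work.MP_0421d9_ag.SM
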