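import Mathlib

/-!
Semicontinuity of the dimension of the kernel in a family of linear maps which depends
polynomially on one parameter.
-/

namespace Pool.Agent.Work.MP_0421d9_ag.LD

open Module

section

variable {E : Type} [AddCommGroup E] [Module ℂ E]

/-- the vectors on which the family `P` vanishes at the parameter `τ` -/
def Z {ι : Type} (P : E →ₗ[ℂ] (ι → Polynomial ℂ)) (τ : ℂ) : Submodule ℂ E where
  carrier := {v | ∀ i, (P v i).eval τ = 0}
  zero_mem' := by intro i; simp
  add_mem' := by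
    intro v w hv hw i
    rw [map_add, Pi.add_apply, Polynomial.eval_add, hv i, hw i, add_zero]
  smul_mem' := by
    intro c v hv i
    rw [map_smul, Pi.smul_apply, Polynomial.eval_smul, hv i, smul_zero]

theorem mem_Z {ι : Type} {P : E →ₗ[ℂ] (ι → Polynomial ℂ)} {τ : ℂ} {v : E} :
    v ∈ Z P τ ↔ ∀ i, (P v i).eval τ = 0 := Iff.rfl

theorem finrank_inf_eq (U Q : Submodule ℂ E) :
    finrank ℂ ↥(U ⊓ Q) = finrank ℂ ↥(Q.comap U.subtype) := by
  have h1 : Q.comap U.subtype = (U ⊓ Q).comap U.subtype := by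
    ext x
    simp
  rw [h1]
  exact (LinearEquiv.finrank_eq (Submodule.comapSubtypeEquivOfLe inf_le_left)).symm

theorem semicont {ι : Type} [Finite ι] (P : E →ₗ[ℂ] (ι → Polynomial ℂ)) (U : Submodule ℂ E)
    [Module.Finite ℂ U] (τ₀ : ℂ) :
    ∃ g : Polynomial ℂ, g.eval τ₀ ≠ 0 ∧ ∀ τ, g.eval τ ≠ 0 →
      finrank ℂ ↥(U ⊓ Z P τ) ≤ finrank ℂ ↥(U ⊓ Z P τ₀) := by
  classical
  cases nonempty_fintype ι
  let M : ℂ → (U →ₗ[ℂ] (ι → ℂ)) := fun τ =>
    ((Polynomial.leval τ).compLeft ι) ∘ₗ P ∘ₗ U.subtype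
  have hM : ∀ τ (u : U) i, M τ u i = (P u i).eval τ := fun τ u i => rfl
  have hker : ∀ τ, LinearMap.ker (M τ) = (Z P τ).comap U.subtype := by
    intro τ
    ext u
    rw [LinearMap.mem_ker, Submodule.mem_comap, mem_Z]
    constructor
    · intro h i
      have := congrFun h i
      exact this
    · intro h
      funext i
      exact h i
  obtain ⟨W, hW⟩ := Submodule.exists_isCompl (LinearMap.ker (M τ₀))
  let b := Module.finBasis ℂ W
  set n := finrank ℂ W with hn
  have hinj : Function.Injective ((M τ₀) ∘ₗ W.subtype) := by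
    rw [← LinearMap.ker_eq_bot, Submodule.eq_bot_iff]
    intro w hw
    rw [LinearMap.mem_ker, LinearMap.comp_apply] at hw
    have h1 : (w : U) ∈ LinearMap.ker (M τ₀) ⊓ W := ⟨hw, w.2⟩
    rw [hW.inf_eq_bot, Submodule.mem_bot] at h1
    exact Subtype.ext h1
  obtain ⟨L, hL⟩ := LinearMap.exists_leftInverse_of_injective _ (LinearMap.ker_eq_bot.mpr hinj)
  have hL' : ∀ w : W, L (M τ₀ w) = w := fun w => LinearMap.congr_fun hL w
  let N : Matrix (Fin n) (Fin n) (Polynomial ℂ) := fun i j =>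
    ∑ k, Polynomial.C (b.repr (L (Pi.single k 1)) i) * P (b j : U) k
  have hN : ∀ τ i j, (N i j).eval τ = b.repr (L (M τ (b j))) i := by
    intro τ i j
    have h1 : M τ (b j) = ∑ k, (P (b j : U) k).eval τ • (Pi.single k (1 : ℂ) : ι → ℂ) := by
      funext l
      rw [hM, Finset.sum_apply]
      simp [Pi.single_apply]
    rw [h1, map_sum, map_sum, Finsupp.finsetSum_apply]
    simp only [N, Polynomial.eval_finsetSum, Polynomial.eval_mul, Polynomial.eval_C, map_smul,
      Finsupp.smul_apply, smul_eq_mul]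
    exact Finset.sum_congr rfl (fun k _ => mul_comm _ _)
  have hdet : ∀ τ, (N.det).eval τ = (Matrix.of (fun i j => b.repr (L (M τ (b j))) i)).det := by
    intro τ
    rw [← Polynomial.coe_evalRingHom, RingHom.map_det]
    congr 1
    ext i j
    exact hN τ i j
  refine ⟨N.det, ?_, fun τ hτ => ?_⟩
  · rw [hdet]
    have h1 : (Matrix.of (fun i j => b.repr (L (M τ₀ (b j))) i) : Matrix (Fin n) (Fin n) ℂ) =
        1 := by
      ext i j
      rw [Matrix.of_apply, hL', Basis.repr_self, Matrix.one_apply, Finsupp.single_apply]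
      simp only [eq_comm]
    rw [h1, Matrix.det_one]
    exact one_ne_zero
  · rw [hdet] at hτ
    rw [finrank_inf_eq, finrank_inf_eq, ← hker, ← hker]
    have hdisj : Disjoint (LinearMap.ker (M τ)) W := by
      rw [Submodule.disjoint_def]
      intro u hu hw
      let x : Fin n → ℂ := fun j => b.repr ⟨u, hw⟩ j
      have h1 : u = ∑ j, x j • (b j : U) := by
        have h2 := b.sum_repr ⟨u, hw⟩
        have h3 := congrArg (fun w : W => (w : U)) h2
        simp only [Submodule.coe_sum, Submodule.coe_smul] at h3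
        exact h3.symm
      have h4 : Matrix.mulVec (Matrix.of (fun i j => b.repr (L (M τ (b j))) i)) x = 0 := by
        funext i
        rw [Matrix.mulVec, dotProduct]
        have h5 : b.repr (L (M τ u)) i = 0 := by
          rw [LinearMap.mem_ker.mp hu]
          simp
        rw [h1, map_sum, map_sum, map_sum, Finsupp.finsetSum_apply] at h5
        simp only [map_smul, Finsupp.smul_apply, smul_eq_mul] at h5
        rw [Pi.zero_apply, ← h5]
        exact Finset.sum_congr rfl (fun j _ => mul_comm _ _)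
      have h6 : x = 0 := by
        by_contra hx
        exact hτ (Matrix.exists_mulVec_eq_zero_iff.mp ⟨x, hx, h4⟩)
      rw [h1]
      simp [h6]
    have h7 := Submodule.finrank_add_finrank_le_of_disjoint hdisj
    have h8 := Submodule.finrank_add_eq_of_isCompl hW
    omega

/-- a family of subspaces cut out by linear conditions depending polynomially on a parameter -/
def PolyFam (Q : ℂ → Submodule ℂ E) : Prop :=
  ∃ (ι : Type) (_ : Finite ι) (P : E →ₗ[ℂ] (ι → Polynomial ℂ)), ∀ τ, Q τ = Z P τ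

theorem PolyFam.semicont {Q : ℂ → Submodule ℂ E} (hQ : PolyFam Q) (U : Submodule ℂ E)
    [Module.Finite ℂ U] (τ₀ : ℂ) :
    ∃ g : Polynomial ℂ, g.eval τ₀ ≠ 0 ∧ ∀ τ, g.eval τ ≠ 0 →
      finrank ℂ ↥(U ⊓ Q τ) ≤ finrank ℂ ↥(U ⊓ Q τ₀) := by
  obtain ⟨ι, hι, P, hP⟩ := hQ
  obtain rfl : Q = fun τ => Z P τ := funext hP
  exact LD.semicont P U τ₀

theorem PolyFam.iInf {κ : Type} [Finite κ] {Q : κ → ℂ → Submodule ℂ E}
    (hQ : ∀ k, PolyFam (Q k)) : PolyFam (fun τ => ⨅ k, Q k τ) := by
  choose ι hι P hP using hQ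
  have := hι
  refine ⟨(k : κ) × ι k, inferInstance,
    { toFun := fun v z => P z.1 v z.2
      map_add' := fun v w => by funext z; simp
      map_smul' := fun c v => by funext z; simp }, fun τ => ?_⟩
  ext v
  rw [Submodule.mem_iInf, mem_Z]
  constructor
  · rintro h ⟨k, i⟩
    have h1 := h k
    rw [hP, mem_Z] at h1
    exact h1 i
  · intro h k
    rw [hP, mem_Z]
    intro i
    exact h ⟨k, i⟩

theorem PolyFam.inf {Q₁ Q₂ : ℂ → Submodule ℂ E} (h₁ : PolyFam Q₁) (h₂ : PolyFam Q₂) :
    PolyFam (fun τ => Q₁ τ ⊓ Q₂ τ) := by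
  have h := PolyFam.iInf (κ := Bool) (Q := fun b => if b then Q₁ else Q₂)
    (by rintro (_ | _) <;> simpa)
  obtain ⟨ι, hι, P, hP⟩ := h
  refine ⟨ι, hι, P, fun τ => ?_⟩
  rw [← hP]
  ext v
  simp [Submodule.mem_iInf, and_comm]

/-- a nonzero polynomial has a nonzero value outside of finitely many parameters; here: two -/
theorem exists_eval_ne {g h : Polynomial ℂ} (hg : g ≠ 0) (hh : h ≠ 0) :
    ∃ τ, g.eval τ ≠ 0 ∧ h.eval τ ≠ 0 := by
  have h1 : g * h ≠ 0 := mul_ne_zero hg hh
  by_contra hcon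
  push Not at hcon
  apply h1
  apply Polynomial.funext
  intro τ
  rw [Polynomial.eval_mul, Polynomial.eval_zero]
  by_cases h2 : g.eval τ = 0
  · rw [h2, zero_mul]
  · rw [hcon τ h2, mul_zero]

theorem ne_zero_of_eval {g : Polynomial ℂ} {τ : ℂ} (h : g.eval τ ≠ 0) : g ≠ 0 := by
  rintro rfl
  exact h Polynomial.eval_zero

end

end Pool.Agent.Work.MP_0421d9_ag.LD
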