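import Pool.Agent.Work.MP_0421d9_ag.Apolar

/-!
A singular point of a squarefree form with coefficients killed (up to a factor) by a derivation is
constant, up to scaling, under this derivation.
-/

namespace Pool.Agent.Work.MP_0421d9_ag

open MvPolynomial

section Bezout

open Polynomial in
theorem exists_const_of_irreducible {A : Type} [CommRing A] [IsDomain A]
    [UniqueFactorizationMonoid A] (p g : A[X]) (hp : Irreducible p) (hg : ¬ p ∣ g) :
    ∃ (u v : A[X]) (c : A), c ≠ 0 ∧ u * p + v * g = Polynomial.C c := by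
  by_cases h0 : p.natDegree = 0
  · refine ⟨1, 0, p.coeff 0, ?_, ?_⟩
    · intro h
      rw [natDegree_eq_zero] at h0
      obtain ⟨c, rfl⟩ := h0
      rw [coeff_C_zero] at h
      rw [h, Polynomial.C_0] at hp
      exact hp.ne_zero rfl
    · rw [one_mul, zero_mul, add_zero]
      exact eq_C_of_natDegree_eq_zero h0
  · have hprim : p.IsPrimitive := hp.isPrimitive h0
    let K := FractionRing A
    let _ : NormalizedGCDMonoid A := Nonempty.some inferInstance
    have h1 : Irreducible (p.map (algebraMap A K)) :=
      (hprim.irreducible_iff_irreducible_map_fraction_map).mp hp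
    have h2 : ¬ p.map (algebraMap A K) ∣ g.map (algebraMap A K) := fun h =>
      hg ((hprim.dvd_iff_fraction_map_dvd_fraction_map K).mpr h)
    have h3 : IsCoprime (p.map (algebraMap A K)) (g.map (algebraMap A K)) :=
      (h1.coprime_iff_not_dvd).mpr h2
    have h4 : resultant (p.map (algebraMap A K)) (g.map (algebraMap A K)) ≠ 0 := by
      intro h
      rw [resultant_eq_zero_iff] at h
      exact h.2 h3
    have hinj : Function.Injective (algebraMap A K) := IsFractionRing.injective A K
    rw [natDegree_map_eq_of_injective hinj, natDegree_map_eq_of_injective hinj,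
      resultant_map_map] at h4
    have h5 : resultant p g ≠ 0 := by
      intro h
      apply h4
      rw [h, map_zero]
    obtain ⟨u, v, -, -, huv⟩ := exists_mul_add_mul_eq_C_resultant p g le_rfl le_rfl (Or.inl h0)
    exact ⟨u, v, resultant p g, h5, by rw [← huv]; ring⟩

end Bezout

section Coordinates

theorem pderiv_rename_of_notMem {g : Fin 2 → Fin 3} {k : Fin 3} (hk : ∀ i, g i ≠ k)
    (c : MvPolynomial (Fin 2) ℂ) : pderiv k (rename g c) = 0 := by
  induction c using MvPolynomial.induction_on with
  | C c => rw [rename_C, pderiv_C]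
  | add p q hp hq => rw [map_add, map_add, hp, hq, add_zero]
  | mul_X p n hp =>
    rw [map_mul, rename_X, Derivation.leibniz, hp, pderiv_X_of_ne (hk n)]
    simp

theorem finSuccEquiv_rename_succ (c : MvPolynomial (Fin 2) ℂ) :
    finSuccEquiv ℂ 2 (rename Fin.succ c) = Polynomial.C c := by
  induction c using MvPolynomial.induction_on with
  | C c =>
    rw [rename_C, ← algebraMap_eq, AlgEquiv.commutes]
    rfl
  | add p q hp hq => rw [map_add, map_add, hp, hq, map_add]
  | mul_X p n hp =>
    rw [map_mul, rename_X, map_mul, hp, finSuccEquiv_X_succ, map_mul]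

/-- the ring of ternary polynomials as polynomials in the variable `k` -/
noncomputable def Phi (k : Fin 3) : R3 ≃ₐ[ℂ] Polynomial (MvPolynomial (Fin 2) ℂ) :=
  (renameEquiv ℂ (Equiv.swap 0 k)).trans (finSuccEquiv ℂ 2)

theorem Phi_symm_C (k : Fin 3) (c : MvPolynomial (Fin 2) ℂ) :
    (Phi k).symm (Polynomial.C c) = rename (fun i => Equiv.swap 0 k (Fin.succ i)) c := by
  rw [AlgEquiv.symm_apply_eq]
  unfold Phi
  rw [AlgEquiv.trans_apply, renameEquiv_apply, rename_rename]
  have : (⇑(Equiv.swap 0 k) ∘ fun i : Fin 2 => (Equiv.swap 0 k) (Fin.succ i)) = Fin.succ := by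
    funext i
    simp
  rw [this, finSuccEquiv_rename_succ]

theorem pderiv_Phi_symm_C (k : Fin 3) (c : MvPolynomial (Fin 2) ℂ) :
    pderiv k ((Phi k).symm (Polynomial.C c)) = 0 := by
  rw [Phi_symm_C]
  apply pderiv_rename_of_notMem
  intro i h
  have h1 : Fin.succ i = (0 : Fin 3) := by
    have h2 := congrArg (Equiv.swap 0 k) h
    rw [Equiv.swap_apply_right, Equiv.swap_apply_self] at h2
    exact h2
  exact Fin.succ_ne_zero i h1

theorem exists_elim {π h : R3} (hπ : Irreducible π) (hh : ¬ π ∣ h) (k : Fin 3) :
    ∃ u v : R3, u * π + v * h ≠ 0 ∧ pderiv k (u * π + v * h) = 0 := by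
  have h1 : Irreducible (Phi k π) := (MulEquiv.irreducible_iff (Phi k)).mpr hπ
  have h2 : ¬ Phi k π ∣ Phi k h := by
    intro h'
    exact hh ((map_dvd_iff (Phi k)).mp h')
  obtain ⟨u, v, c, hc, huv⟩ := exists_const_of_irreducible _ _ h1 h2
  have h3 : (Phi k).symm u * π + (Phi k).symm v * h = (Phi k).symm (Polynomial.C c) := by
    rw [← huv, map_add, map_mul, map_mul, AlgEquiv.symm_apply_apply, AlgEquiv.symm_apply_apply]
  refine ⟨(Phi k).symm u, (Phi k).symm v, ?_, ?_⟩
  · rw [h3]
    intro h0
    have := (Phi k).symm.injective (h0.trans (map_zero _).symm)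
    exact hc (Polynomial.C_eq_zero.mp this)
  · rw [h3]
    exact pderiv_Phi_symm_C k c

end Coordinates

section Line

/-- restriction to the line through `a` -/
noncomputable def evL (a : V3) : R3 →ₐ[ℂ] Polynomial ℂ :=
  aeval (fun k => Polynomial.C (a k) * Polynomial.X)

theorem evL_X (a : V3) (k : Fin 3) : evL a (X k) = Polynomial.C (a k) * Polynomial.X := by
  simp [evL]

theorem evL_C (a : V3) (c : ℂ) : evL a (C c) = Polynomial.C c := by
  simp [evL]

theorem eval_evL (a : V3) (f : R3) (t : ℂ) : (evL a f).eval t = eval (t • a) f := by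
  induction f using MvPolynomial.induction_on with
  | C c => rw [evL_C, Polynomial.eval_C, eval_C]
  | add p q hp hq => rw [map_add, Polynomial.eval_add, hp, hq, map_add]
  | mul_X p n hp =>
    rw [map_mul, Polynomial.eval_mul, hp, evL_X, map_mul, eval_X, Polynomial.eval_mul,
      Polynomial.eval_C, Polynomial.eval_X, Pi.smul_apply, smul_eq_mul, mul_comm (a n) t]

theorem derivative_evL (a : V3) (f : R3) :
    Polynomial.derivative (evL a f) = evL a (dir a f) := by
  induction f using MvPolynomial.induction_on with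
  | C c => rw [evL_C, dir_C]; simp
  | add p q hp hq => rw [map_add, map_add, hp, hq, map_add, map_add]
  | mul_X p n hp =>
    have hX : dir a (X n) = C (a n) := by
      have : (X n : R3) = lin (Pi.single n 1) := by
        unfold lin
        rw [Finset.sum_eq_single n]
        · simp
        · intro j _ hj
          rw [Pi.single_eq_of_ne hj]; simp
        · simp
      rw [this, dir_lin, eval_lin, Finset.sum_eq_single n]
      · simp
      · intro j _ hj
        rw [Pi.single_eq_of_ne hj]; simp
      · simp
    rw [map_mul, Polynomial.derivative_mul, hp, dir_mul, map_add, map_mul, map_mul, hX, evL_X,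
      evL_C]
    simp

theorem evL_hom (a : V3) {f : R3} {n : ℕ} (hf : f.IsHomogeneous n) (h : eval a f = 0) :
    evL a f = 0 := by
  apply Polynomial.funext
  intro t
  have h1 := B_lin_pow hf (t • a)
  rw [lin_smul, mul_pow, ← map_pow, B_C_mul_left, B_lin_pow hf, h, mul_zero, mul_zero] at h1
  have h2 : (n.factorial : ℂ) ≠ 0 := by exact_mod_cast Nat.factorial_ne_zero n
  rw [eval_evL, Polynomial.eval_zero]
  exact (mul_eq_zero.mp h1.symm).resolve_left h2

theorem evL_dir_D (D : Derivation ℚ ℂ ℂ) (a : V3) {f : R3} (h1 : evL a f = 0)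
    (h2 : evL a (cD D f) = 0) : evL a (dir (fun i => D (a i)) f) = 0 := by
  apply Polynomial.eq_zero_of_infinite_isRoot
  have hinf : (Set.range (fun n : ℕ => ((n : ℂ) + 1))).Infinite := by
    apply Set.infinite_range_of_injective
    intro m n hmn
    have : (m : ℂ) = n := by simpa using hmn
    exact_mod_cast this
  apply hinf.mono
  rintro _ ⟨n, rfl⟩
  change (evL a _).eval _ = 0
  set t : ℂ := (n : ℂ) + 1 with ht
  have ht0 : t ≠ 0 := by
    rw [ht]
    exact Nat.cast_add_one_ne_zero n
  have hDt : D t = 0 := by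
    rw [ht, map_add, Derivation.map_natCast, Derivation.map_one_eq_zero, add_zero]
  have e1 := D_eval D (t • a) f
  rw [← eval_evL, ← eval_evL, h1, h2, Polynomial.eval_zero, map_zero, zero_add] at e1
  have e2 : ∀ i, D ((t • a) i) * eval (t • a) (pderiv i f) =
      t * (D (a i) * eval (t • a) (pderiv i f)) := by
    intro i
    rw [Pi.smul_apply, smul_eq_mul, Derivation.leibniz, hDt, smul_eq_mul, smul_zero, add_zero]
    ring
  rw [Finset.sum_congr rfl (fun i _ => e2 i), ← Finset.mul_sum] at e1
  have e3 := (mul_eq_zero.mp e1.symm).resolve_left ht0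
  rw [eval_evL, dir_apply, map_sum, ← e3]
  refine Finset.sum_congr rfl (fun i _ => ?_)
  rw [map_mul, eval_C]

end Line

end Pool.Agent.Work.MP_0421d9_ag
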