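import Pool.Agent.Work.MP_0421d9_ag.Sq69
import Pool.Agent.Work.MP_0421d9_ag.Gen3

/-!
Consequences of the square root window.
-/

namespace Pool.Agent.Work.MP_0421d9_ag

open MvPolynomial Module

theorem sqrt_add_le {X S c e M : ℕ} (hc : 1 ≤ c) (he : 1 ≤ e) (hM : c + e = M)
    (h : e * X + c * S ≤ c * e * M) : √(X : ℝ) + √(S : ℝ) ≤ M := by
  have hx := Real.sq_sqrt (Nat.cast_nonneg (α := ℝ) X)
  have hy := Real.sq_sqrt (Nat.cast_nonneg (α := ℝ) S)
  have hx0 := Real.sqrt_nonneg (X : ℝ)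
  have hy0 := Real.sqrt_nonneg (S : ℝ)
  have hc' : (1 : ℝ) ≤ c := by exact_mod_cast hc
  have he' : (1 : ℝ) ≤ e := by exact_mod_cast he
  have hM' : (M : ℝ) = c + e := by rw [← hM]; push_cast; ring
  have h' : (e : ℝ) * X + c * S ≤ c * e * M := by exact_mod_cast h
  set x := √(X : ℝ)
  set y := √(S : ℝ)
  rw [← hx, ← hy] at h'
  have h1 : (c * e : ℝ) * (x + y) ^ 2 ≤ (c * e : ℝ) * (M : ℝ) ^ 2 := by
    have h2 : (c * e : ℝ) * (x + y) ^ 2 = (M : ℝ) * (e * x ^ 2 + c * y ^ 2) -
        (e * x - c * y) ^ 2 := by rw [hM']; ring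
    have h3 : (M : ℝ) * (e * x ^ 2 + c * y ^ 2) ≤ M * (c * e * M) :=
      mul_le_mul_of_nonneg_left h' (Nat.cast_nonneg M)
    nlinarith [sq_nonneg (e * x - c * y : ℝ)]
  have hce : (0 : ℝ) < c * e := by positivity
  have h4 := le_of_mul_le_mul_left h1 hce
  exact le_of_sq_le_sq h4 (Nat.cast_nonneg M)

theorem sq_bound {X S c e M : ℕ} (hc : 1 ≤ c) (he : 1 ≤ e) (hM : c + e = M) (hS : 1 ≤ S)
    (h : e * X + c * S ≤ c * e * M) : X ≤ (M - 1) * (M - 1) := by
  obtain ⟨f, rfl⟩ : ∃ f, e = f + 1 := ⟨e - 1, by omega⟩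
  have e1 : M - 1 = c + f := by omega
  rw [e1]
  have h1 : (f + 1) * X + c ≤ c * (f + 1) * M := by
    have : c * 1 ≤ c * S := Nat.mul_le_mul_left _ hS
    omega
  have h2 : (f + 1) * X ≤ (f + 1) * ((c + f) * (c + f)) := by
    have h3 : c * (f + 1) * M ≤ (f + 1) * ((c + f) * (c + f)) + c := by
      rw [← hM]
      nlinarith [Nat.zero_le (f * f * f), Nat.zero_le (f * f), Nat.zero_le (c * f)]
    omega
  exact Nat.le_of_mul_le_mul_left h2 (Nat.succ_pos f)

/-- all the systems outside of the window are nonspecial -/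
theorem nonspecial_of_window {r d M : ℕ} {p : Fin r → V3} (hp : GenericPoints p)
    {m : Fin r → ℕ} (hM : ∀ i, m i ≤ M)
    (h : (d + 2).choose 2 + (M - 1) * (M - 1) ≤ ∑ i, (m i + 1).choose 2 ∨
      ∑ i, (m i + 1).choose 2 + (M - 1) * (M - 1) ≤ (d + 2).choose 2) :
    finrank ℂ (linSys d p m) = (d + 2).choose 2 - ∑ i, (m i + 1).choose 2 := by
  have hfin : Module.Finite ℂ (linSys d p m) :=
    Submodule.finiteDimensional_of_le (linSys_le d p _)
  by_cases hne : linSys d p m = ⊥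
  · have h1 : finrank ℂ (linSys d p m) = 0 := by rw [hne, finrank_bot]
    rw [h1]
    -- the virtual dimension is not positive
    symm
    rw [Nat.sub_eq_zero_iff_le]
    by_contra hcon
    push Not at hcon
    by_cases hm : ∀ i, m i ≤ d + 1
    · have h2 := chi_le (d := d) (p := p) hm
      omega
    · push Not at hm
      obtain ⟨i, hi⟩ := hm
      have h2 : (m i + 1).choose 2 ≤ ∑ i, (m i + 1).choose 2 :=
        Finset.single_le_sum (f := fun i => (m i + 1).choose 2) (fun _ _ => Nat.zero_le _)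
          (Finset.mem_univ i)
      have h3 : (d + 2).choose 2 ≤ (m i + 1).choose 2 := Nat.choose_le_choose 2 (by omega)
      omega
  · have hpos : 1 ≤ finrank ℂ (linSys d p m) := by
      rw [Nat.one_le_iff_ne_zero]
      exact fun h0 => hne (Submodule.finrank_eq_zero.mp h0)
    by_cases hs : finrank ℂ (linSys d p m) + ∑ i, (m i + 1).choose 2 = (d + 2).choose 2
    · omega
    · exfalso
      obtain ⟨c, e, S, hc, he, hce, hS, hS', hle⟩ := sq_window hp hM hne hs
      have h1 := sq_bound hc he hce hS hle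
      have h2 := sq_bound (X := S) (S := finrank ℂ (linSys d p m)) (c := e) (e := c) (M := M)
        he hc (by omega) hpos (by rw [Nat.mul_comm e c]; omega)
      omega

end Pool.Agent.Work.MP_0421d9_ag
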