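import Pool.Agent.Work.MP_0421d9_ag.Def69
import Pool.Agent.Work.MP_0421d9_ag.Lines

/-!
Linear substitutions.
-/

namespace Pool.Agent.Work.MP_0421d9_ag.LD

open MvPolynomial Module

/-- the substitution `F ↦ F (M x)` -/
noncomputable def subM (M : Matrix (Fin 3) (Fin 3) ℂ) : R3 →ₐ[ℂ] R3 := aeval (fun k => lin (M k))

theorem subM_X (M : Matrix (Fin 3) (Fin 3) ℂ) (k : Fin 3) : subM M (X k) = lin (M k) := by
  unfold subM
  rw [aeval_X]

theorem subM_C (M : Matrix (Fin 3) (Fin 3) ℂ) (c : ℂ) : subM M (C c) = C c := by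
  unfold subM
  rw [algHom_C, algebraMap_eq]

theorem subM_subM (M N : Matrix (Fin 3) (Fin 3) ℂ) (F : R3) :
    subM M (subM N F) = subM (N * M) F := by
  induction F using MvPolynomial.induction_on with
  | C c => rw [subM_C, subM_C, subM_C]
  | add f g hf hg => rw [map_add, map_add, map_add, hf, hg]
  | mul_X f k hf =>
    rw [map_mul, map_mul, map_mul, hf, subM_X, subM_X]
    congr 1
    unfold lin
    simp only [map_sum, map_mul, subM_C, subM_X]
    unfold lin
    simp only [Fin.sum_univ_three, Matrix.mul_apply, map_add, map_mul]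
    ring

theorem subM_one (F : R3) : subM 1 F = F := by
  induction F using MvPolynomial.induction_on with
  | C c => rw [subM_C]
  | add f g hf hg => rw [map_add, hf, hg]
  | mul_X f k hf =>
    rw [map_mul, hf, subM_X]
    congr 1
    unfold lin
    rw [Finset.sum_eq_single k]
    · rw [Matrix.one_apply_eq, C_1, one_mul]
    · intro b _ hb
      rw [Matrix.one_apply_ne hb.symm, C_0, zero_mul]
    · simp

theorem subM_isHomogeneous (M : Matrix (Fin 3) (Fin 3) ℂ) {F : R3} {D : ℕ}
    (hF : F.IsHomogeneous D) : (subM M F).IsHomogeneous D := by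
  have h := hF.aeval (fun k => lin (M k)) (fun k => lin_isHomogeneous (M k))
  rw [one_mul] at h
  exact h

theorem homogeneousComponent_subM (M : Matrix (Fin 3) (Fin 3) ℂ) (G : R3) (k : ℕ) :
    homogeneousComponent k (subM M G) = subM M (homogeneousComponent k G) := by
  have h1 : subM M G = ∑ i ∈ Finset.range (G.totalDegree + 1),
      subM M (homogeneousComponent i G) := by
    rw [← map_sum, sum_homogeneousComponent]
  rw [h1, map_sum]
  have h2 : ∀ i, homogeneousComponent k (subM M (homogeneousComponent i G)) =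
      if i = k then subM M (homogeneousComponent k G) else 0 := by
    intro i
    have h3 := subM_isHomogeneous M (homogeneousComponent_isHomogeneous i G)
    rw [homogeneousComponent_of_mem h3]
    by_cases h4 : i = k
    · rw [if_pos h4, if_pos h4.symm, h4]
    · rw [if_neg h4, if_neg (Ne.symm h4)]
  rw [Finset.sum_congr rfl (fun i _ => h2 i), Finset.sum_ite_eq' (Finset.range _) k]
  split_ifs with h3
  · rfl
  · rw [homogeneousComponent_eq_zero, map_zero]
    rw [Finset.mem_range] at h3
    omega

theorem eval_lin_row (M : Matrix (Fin 3) (Fin 3) ℂ) (a : V3) (k : Fin 3) :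
    eval a (lin (M k)) = M.mulVec a k := by
  rw [eval_lin]
  rfl

theorem translate_subM (M : Matrix (Fin 3) (Fin 3) ℂ) (a : V3) (F : R3) :
    translate a (subM M F) = subM M (translate (M.mulVec a) F) := by
  induction F using MvPolynomial.induction_on with
  | C c => rw [subM_C]; unfold translate; rw [algHom_C, algHom_C, algebraMap_eq, subM_C]
  | add f g hf hg =>
    have h1 : ∀ (b : V3) (p q : R3), translate b (p + q) = translate b p + translate b q :=
      fun b p q => by unfold translate; rw [map_add]
    rw [map_add, h1, h1, map_add, hf, hg]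
  | mul_X f k hf =>
    rw [map_mul, translate_mul, translate_mul, map_mul, hf, subM_X, translate_lin, eval_lin_row]
    congr 1
    unfold translate
    rw [aeval_X, map_add, subM_C, subM_X]

theorem vanishTo_subM (M : Matrix (Fin 3) (Fin 3) ℂ) {a : V3} {m : ℕ} {F : R3}
    (h : VanishTo F (M.mulVec a) m) : VanishTo (subM M F) a m := by
  intro k hk
  rw [translate_subM, homogeneousComponent_subM, h k hk, map_zero]

theorem onLine_subM (M : Matrix (Fin 3) (Fin 3) ℂ) (q v : V3) (F : R3) :
    onLine q v (subM M F) = onLine (M.mulVec q) (M.mulVec v) F := by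
  induction F using MvPolynomial.induction_on with
  | C c => rw [subM_C]; unfold onLine; rw [algHom_C, algHom_C]
  | add f g hf hg => rw [map_add, map_add, map_add, hf, hg]
  | mul_X f k hf =>
    rw [map_mul, map_mul, map_mul, hf, subM_X]
    congr 1
    unfold onLine lin
    simp only [map_sum, map_mul, algHom_C, aeval_X, Matrix.mulVec, dotProduct]
    simp only [Fin.sum_univ_three, Polynomial.algebraMap_eq, map_add, map_mul]
    ring

theorem flagSub_subM (M : Matrix (Fin 3) (Fin 3) ℂ) {q v : V3} {A : ℕ} {F : R3}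
    (h : F ∈ flagSub (M.mulVec q) (M.mulVec v) A) : subM M F ∈ flagSub q v A := by
  intro k hk
  rw [onLine_subM]
  exact h k hk

/-- determinant of three vectors -/
def det3 {R : Type} [CommRing R] (a b c : Fin 3 → R) : R :=
  a 0 * (b 1 * c 2 - b 2 * c 1) - a 1 * (b 0 * c 2 - b 2 * c 0) + a 2 * (b 0 * c 1 - b 1 * c 0)

/-- moving the points and the flags by a linear map -/
theorem finrank_Sys_mulVec {r : ℕ} (D : ℕ) (y : Fin r → ℕ) (e : ℕ) (A : ℕ → ℕ) (p : Fin r → V3)
    (q v : ℕ → V3) {M N : Matrix (Fin 3) (Fin 3) ℂ} (hMN : M * N = 1) :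
    finrank ℂ (Sys D y e A (fun i => M.mulVec (p i)) (fun l => M.mulVec (q l))
      (fun l => M.mulVec (v l))) ≤ finrank ℂ (Sys D y e A p q v) := by
  have h1 : ∀ G ∈ Sys D y e A (fun i => M.mulVec (p i)) (fun l => M.mulVec (q l))
      (fun l => M.mulVec (v l)), subM M G ∈ Sys D y e A p q v := by
    intro G hG
    rw [mem_Sys] at hG ⊢
    exact ⟨subM_isHomogeneous M hG.1, fun i => vanishTo_subM M (hG.2.1 i),
      fun l hl => flagSub_subM M (hG.2.2 l hl)⟩
  refine LinearMap.finrank_le_finrank_of_injective (f :=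
    ((subM M).toLinearMap).restrict h1) ?_
  intro G G' h
  have h2 : subM M G.1 = subM M G'.1 := congrArg Subtype.val h
  have h3 := congrArg (subM N) h2
  rw [subM_subM, subM_subM, hMN, subM_one, subM_one] at h3
  exact Subtype.ext h3

end Pool.Agent.Work.MP_0421d9_ag.LD
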