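import Pool.Agent.Work.MP_0421d9_ag.TWin
import Pool.Agent.Work.MP_0421d9_ag.MMain
import Pool.Agent.Work.MP_0421d9_ag.OpenSet

/-!
Arbitrary many points of multiplicity at most `u` added to a set of points which imposes
independent conditions.
-/

namespace Pool.Agent.Work.MP_0421d9_ag.LD

open MvPolynomial Module

theorem tr_two_choose (n : ℕ) : 2 * (n + 1).choose 2 = n * (n + 1) := by
  rw [Nat.choose_two_right]
  have h : 2 ∣ (n + 1) * (n + 1 - 1) := by
    rw [Nat.add_sub_cancel, mul_comm]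
    exact (Nat.even_mul_succ_self n).two_dvd
  rw [Nat.mul_div_cancel' h, Nat.add_sub_cancel, mul_comm]

/-- the arithmetic of a balanced strip -/
theorem tr_ab {X g v : ℕ} (hv : 1 ≤ v) (h : 2 * g + v * (v + 1) ≤ X) :
    ∃ a b, X = a * v + b * (v + 1) ∧ g ≤ a * v ∧ g ≤ b * (v + 1) := by
  obtain ⟨c, hc⟩ : ∃ c, c = (g + v) / (v + 1) := ⟨_, rfl⟩
  have h1 : c * (v + 1) ≤ g + v := by
    rw [hc]
    exact Nat.div_mul_le_self _ _
  have h2 : g + v < (c + 1) * (v + 1) := by
    have h3 := Nat.lt_mul_div_succ (g + v) (b := v + 1) (by omega)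
    rw [← hc, mul_comm] at h3
    exact h3
  have h3 : g ≤ c * (v + 1) := by
    have e1 : (c + 1) * (v + 1) = c * (v + 1) + (v + 1) := by ring
    omega
  have h4 : c ≤ c * (v + 1) := Nat.le_mul_of_pos_right c (by omega)
  have e2 : v * (v + 1) = v * v + v := by ring
  have hcX : c ≤ X := by omega
  obtain ⟨ρ, hρ⟩ : ∃ ρ, ρ = (X - c) % v := ⟨_, rfl⟩
  obtain ⟨q, hq⟩ : ∃ q, q = (X - c) / v := ⟨_, rfl⟩
  have h5 : v * q + ρ = X - c := by
    rw [hρ, hq]
    exact Nat.div_add_mod _ _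
  have h6 : ρ + 1 ≤ v := by
    rw [hρ]
    exact Nat.mod_lt _ hv
  have h7 : ρ * (v + 1) ≤ (v - 1) * (v + 1) := Nat.mul_le_mul_right _ (by omega)
  have e3 : (v - 1) * (v + 1) + 1 = v * v := by
    obtain ⟨w, rfl⟩ : ∃ w, v = w + 1 := ⟨v - 1, by omega⟩
    simp only [Nat.add_sub_cancel]
    ring
  have e4 : (c + ρ) * (v + 1) = c * (v + 1) + ρ * (v + 1) := by ring
  have h8 : (c + ρ) * (v + 1) + g ≤ X := by omega
  have e5 : (c + ρ) * (v + 1) = (c + ρ) * v + (c + ρ) := by ring
  have h9 : (c + ρ) * v ≤ v * q := by omega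
  have h10 : c + ρ ≤ q := by
    rw [mul_comm] at h9
    exact Nat.le_of_mul_le_mul_left h9 hv
  obtain ⟨a, ha⟩ : ∃ a, q = a + (c + ρ) := ⟨q - (c + ρ), by omega⟩
  refine ⟨a, c + ρ, ?_, ?_, ?_⟩
  · have e6 : v * q = a * v + (c + ρ) * v := by rw [ha]; ring
    omega
  · have e6 : v * q = a * v + (c + ρ) * v := by rw [ha]; ring
    omega
  · omega

theorem tr_family {r N : ℕ} {P : Finset (Fin r)} (h : N ≤ P.card) :
    ∃ e : Fin N → Fin r, Function.Injective e ∧ ∀ k, e k ∈ P := by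
  let f : Fin P.card ≃ P := P.equivFin.symm
  refine ⟨fun k => (f (Fin.castLE h k)).1, fun a b hab => ?_, fun k => (f _).2⟩
  have h1 := f.injective (Subtype.ext hab)
  exact Fin.castLE_injective h h1

/-- the points of multiplicity `v` outside `B` -/
def tcls {r : ℕ} (B : Finset (Fin r)) (y : Fin r → ℕ) (v : ℕ) : Finset (Fin r) :=
  Finset.univ.filter (fun i => i ∉ B ∧ y i = v)

/-- the number of conditions on `v` rows -/
theorem tr_rows {δ v : ℕ} :
    (δ + v + 2).choose 2 + v.choose 2 = (δ + 2).choose 2 + v * (δ + v + 1) := by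
  induction v with
  | zero => simp
  | succ n ih =>
    have e2 : (δ + (n + 1) + 2).choose 2 = (δ + n + 2) + (δ + n + 2).choose 2 := by
      have e3 : δ + (n + 1) + 2 = (δ + n + 2) + 1 := by omega
      rw [e3, Nat.choose_succ_succ' (δ + n + 2) 1, Nat.choose_one_right]
    have e4 : (n + 1).choose 2 = n + n.choose 2 := by
      rw [Nat.choose_succ_succ' n 1, Nat.choose_one_right]
    rw [e2, e4]
    have e5 : (n + 1) * (δ + (n + 1) + 1) = n * (δ + n + 1) + (n + (δ + n + 2)) := by ring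
    rw [e5]
    omega

/-- a strip made of points outside `B` -/
theorem tr_strip {r D v g : ℕ} {y : Fin r → ℕ} (B : Finset (Fin r)) (hv : 1 ≤ v)
    (hvD : v + 1 ≤ D) (hg : 2 * g + v * (v + 1) ≤ D - v + 1)
    (hcard : 2 * ((D - v + 1) / v) + 1 ≤ (tcls B y v).card) :
    ∃ (A A' : ℕ) (y' : Fin r → ℕ), g ≤ A ∧ g ≤ A' ∧ A + A' = D - v + 1 ∧
      (∀ i, y' i ≤ y i) ∧ (∀ i ∈ B, y' i = y i) ∧
      hPm D y ≤ max (hPm (D - v) y' - A) (hPm (D - v - 1) y') ∧
      (D + 2).choose 2 + A + ∑ i, (y' i + 1).choose 2 =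
        (D - v + 2).choose 2 + ∑ i, (y i + 1).choose 2 := by
  obtain ⟨a, b, hX, ha, hb⟩ := tr_ab hv hg
  have hab : a + b ≤ (D - v + 1) / v := by
    rw [Nat.le_div_iff_mul_le (by omega), hX]
    have e1 : (a + b) * v = a * v + b * v := by ring
    have e2 : b * (v + 1) = b * v + b := by ring
    omega
  obtain ⟨e, he, heP⟩ := tr_family (N := 2 * (a + b) + 1) (P := tcls B y v) (by omega)
  have hye : ∀ k, y (e k) = v := fun k => (Finset.mem_filter.mp (heP k)).2.2
  have heB : ∀ k, e k ∉ B := fun k => (Finset.mem_filter.mp (heP k)).2.1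
  obtain ⟨δ, rfl⟩ : ∃ δ, D = δ + v := ⟨D - v, by omega⟩
  have e0 : δ + v - v = δ := by omega
  rw [e0] at hX ⊢
  refine ⟨a * v, b * (v + 1), rest e y, ha, hb, hX.symm, rest_le e y, fun i hi => ?_, ?_, ?_⟩
  · exact rest_not_mem (fun ⟨k, hk⟩ => heB k (hk ▸ hi))
  · exact plane_strip0_pure e he hv (by omega) hX hye
  · have h5 := mp_sum_rest he y (fun a => (a + 1).choose 2) (by decide)
    have h6 := tr_rows (δ := δ) (v := v)
    have h7 : ∑ k, (y (e k) + 1).choose 2 = (2 * (a + b) + 1) * (v + 1).choose 2 := by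
      rw [Finset.sum_congr rfl (fun k _ => by rw [hye k]), Finset.sum_const, Finset.card_univ,
        Fintype.card_fin, smul_eq_mul]
    have h7' : ∑ k, (fun a => (a + 1).choose 2) (y (e k)) =
        (2 * (a + b) + 1) * (v + 1).choose 2 := h7
    have h8 : 2 * (v + 1).choose 2 = v * (v + 1) := tr_two_choose v
    have h9 : (v + 1).choose 2 = v + v.choose 2 := by
      rw [Nat.choose_succ_succ' v 1, Nat.choose_one_right]
    have h10 : (2 * (a + b) + 1) * (v + 1).choose 2 + v.choose 2 = v * (δ + v + 1) + a * v := by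
      have e1 : (2 * (a + b) + 1) * (v + 1).choose 2 =
          (a + b) * (2 * (v + 1).choose 2) + (v + 1).choose 2 := by ring
      have e2 : δ + v + 1 = a * v + b * (v + 1) + v := by omega
      rw [e1, e2, h8]
      have e3 : v * (a * v + b * (v + 1) + v) + a * v = (a + b) * (v * (v + 1)) + v * v := by ring
      have e4 : v * (v + 1) = v * v + v := by ring
      rw [e3]
      omega
    have h5' : ∑ i, (rest e y i + 1).choose 2 + ∑ k, (y (e k) + 1).choose 2 =
        ∑ i, (y i + 1).choose 2 := h5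
    omega

/-- without a large class there are few conditions -/
theorem tr_few {r u D : ℕ} {y : Fin r → ℕ} (B : Finset (Fin r)) (hy : ∀ i, i ∉ B → y i ≤ u)
    (h : ∀ v, 1 ≤ v → v ≤ u → (tcls B y v).card ≤ 2 * ((D - v + 1) / v)) :
    2 * ∑ i, (y i + 1).choose 2 ≤ 2 * ∑ i, (onB B y i + 1).choose 2 + (D + 1) * (u * (u + 3)) := by
  classical
  have h1 : ∑ i, (y i + 1).choose 2 = ∑ i ∈ B, (y i + 1).choose 2 +
      ∑ i ∈ Finset.univ.filter (fun i => i ∉ B), (y i + 1).choose 2 := by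
    rw [← Finset.sum_filter_add_sum_filter_not Finset.univ (fun i => i ∈ B)]
    congr 1
    apply Finset.sum_congr _ (fun _ _ => rfl)
    ext i
    simp
  have h2 : ∑ i ∈ Finset.univ.filter (fun i => i ∉ B), (y i + 1).choose 2 =
      ∑ v ∈ Finset.range (u + 1), (tcls B y v).card * (v + 1).choose 2 := by
    rw [← Finset.sum_fiberwise_of_maps_to (t := Finset.range (u + 1)) (g := y)]
    · refine Finset.sum_congr rfl (fun v _ => ?_)
      rw [Finset.filter_filter]
      change ∑ i ∈ tcls B y v, (y i + 1).choose 2 = _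
      rw [Finset.sum_congr rfl (fun i hi => by rw [(Finset.mem_filter.mp hi).2.2]),
        Finset.sum_const, smul_eq_mul]
    · intro i hi
      rw [Finset.mem_range]
      exact Nat.lt_succ_of_le (hy i (Finset.mem_filter.mp hi).2)
  have h3 : ∀ v, 1 ≤ v → v ≤ u → (tcls B y v).card * (v + 1).choose 2 ≤ (D + 1) * (v + 1) := by
    intro v hv hvu
    have h4 := h v hv hvu
    have h5 : 2 * (v + 1).choose 2 = v * (v + 1) := tr_two_choose v
    calc (tcls B y v).card * (v + 1).choose 2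
        ≤ 2 * ((D - v + 1) / v) * (v + 1).choose 2 := Nat.mul_le_mul_right _ h4
      _ = ((D - v + 1) / v) * (2 * (v + 1).choose 2) := by ring
      _ = ((D - v + 1) / v * v) * (v + 1) := by rw [h5]; ring
      _ ≤ (D - v + 1) * (v + 1) := Nat.mul_le_mul_right _ (Nat.div_mul_le_self _ _)
      _ ≤ (D + 1) * (v + 1) := Nat.mul_le_mul_right _ (by omega)
  have h4 : ∀ w, w ≤ u → 2 * ∑ v ∈ Finset.range (w + 1), (tcls B y v).card * (v + 1).choose 2 ≤
      (D + 1) * (w * (w + 3)) := by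
    intro w
    induction w with
    | zero =>
      intro _
      rw [Finset.sum_range_one]
      have e1 : (0 + 1).choose 2 = 0 := by decide
      rw [e1]
      omega
    | succ w ih =>
      intro hw
      rw [Finset.sum_range_succ, Nat.mul_add]
      have h5 := ih (by omega)
      have h6 := h3 (w + 1) (by omega) hw
      have e1 : (D + 1) * ((w + 1) * (w + 1 + 3)) =
          (D + 1) * (w * (w + 3)) + 2 * ((D + 1) * (w + 1 + 1)) := by ring
      rw [e1]
      omega
  have h5 := h4 u le_rfl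
  rw [← h2] at h5
  rw [sum_onB, h1]
  omega

/-- the window -/
theorem tr_base {r u M D U S : ℕ} {y : Fin r → ℕ} (B : Finset (Fin r)) (hu : 1 ≤ u)
    (huM : u ≤ M) (hM : ∀ i, y i ≤ M) (hms : ∀ i, i ∉ B → y i ≤ u)
    (hreg : hPm D (onB B y) + ∑ i, (onB B y i + 1).choose 2 = (D + 2).choose 2)
    (h : 3 * (u * M) ≤ U + S) :
    (hPm D y : ℤ) ≤ max (U : ℤ) (MM.chi D y + S) := by
  have hp := gpt_generic r
  by_cases h0 : linSys D (gpt r) y = ⊥
  · have h1 : hPm D y = 0 := by
      unfold hPm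
      rw [h0, finrank_bot]
    rw [h1]
    exact le_max_of_le_left (by positivity)
  by_cases h1 : finrank ℂ (linSys D (gpt r) y) + ∑ i, (y i + 1).choose 2 = (D + 2).choose 2
  · apply le_max_of_le_right
    unfold MM.chi hPm
    have h2 : ((finrank ℂ (linSys D (gpt r) y) + ∑ i, (y i + 1).choose 2 : ℕ) : ℤ) =
        (((D + 2).choose 2 : ℕ) : ℤ) := by rw [h1]
    push_cast at h2 ⊢
    linarith
  obtain ⟨S₁, hS₁, h2, h3⟩ := two_window hp hu huM hM B hms hreg h0 h1
  by_contra hcon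
  rw [not_le, max_lt_iff] at hcon
  obtain ⟨h4, h5⟩ := hcon
  have h4' : U + 1 ≤ hPm D y := by exact_mod_cast h4
  have h5' : S + 1 ≤ S₁ := by
    unfold MM.chi at h5
    have h6 : ((finrank ℂ (linSys D (gpt r) y) + ∑ i, (y i + 1).choose 2 : ℕ) : ℤ) =
        (((D + 2).choose 2 + S₁ : ℕ) : ℤ) := by rw [h2]
    have h7 : hPm D y = finrank ℂ (linSys D (gpt r) y) := rfl
    rw [h7] at h5
    push_cast at h5 h6
    have h8 : (S : ℤ) + 1 ≤ S₁ := by linarith
    exact_mod_cast h8
  have h7 : hPm D y = finrank ℂ (linSys D (gpt r) y) := rfl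
  omega

/-- a system with many more forms than conditions -/
theorem tr_regular {r u M D : ℕ} {y : Fin r → ℕ} (B : Finset (Fin r)) (hu : 1 ≤ u)
    (huM : u ≤ M) (hM : ∀ i, y i ≤ M) (hms : ∀ i, i ∉ B → y i ≤ u)
    (hreg : hPm D (onB B y) + ∑ i, (onB B y i + 1).choose 2 = (D + 2).choose 2)
    (h : 3 * (u * M) + ∑ i, (y i + 1).choose 2 ≤ (D + 2).choose 2) :
    hPm D y + ∑ i, (y i + 1).choose 2 = (D + 2).choose 2 := by
  have hp := gpt_generic r
  have hcount := MM.hPm_count D y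
  have huM' : 1 ≤ u * M := Nat.mul_pos hu (hu.trans huM)
  by_contra hcon
  have hcon' : finrank ℂ (linSys D (gpt r) y) + ∑ i, (y i + 1).choose 2 ≠ (D + 2).choose 2 := hcon
  have h7 : hPm D y = finrank ℂ (linSys D (gpt r) y) := rfl
  have h0 : linSys D (gpt r) y ≠ ⊥ := by
    intro h0
    rw [h7, h0, finrank_bot] at hcount
    omega
  obtain ⟨S₁, hS₁, h2, h3⟩ := two_window hp hu huM hM B hms hreg h0 hcon'
  omega

theorem onB_congr {r : ℕ} {B : Finset (Fin r)} {y m : Fin r → ℕ} (h : ∀ i ∈ B, y i = m i) :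
    onB B y = onB B m := by
  funext i
  unfold onB
  split_ifs with hi
  · exact h i hi
  · rfl

/-- the room in degree `D₁` gives room in all the higher degrees -/
theorem tr_room {N W u D₁ : ℕ}
    (h : 2 * N + 2 * W + (D₁ + 1) * (u * (u + 3)) ≤ (D₁ + 2) * (D₁ + 1)) {D : ℕ} (hD : D₁ ≤ D) :
    2 * N + 2 * W + (D + 1) * (u * (u + 3)) ≤ (D + 2) * (D + 1) := by
  have h1 : u * (u + 3) ≤ D₁ + 2 := by
    have h2 : (D₁ + 1) * (u * (u + 3)) ≤ (D₁ + 1) * (D₁ + 2) := by
      rw [Nat.mul_comm (D₁ + 1) (D₁ + 2)]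
      omega
    exact Nat.le_of_mul_le_mul_left h2 (by omega)
  induction D, hD using Nat.le_induction with
  | base => exact h
  | succ n hn ih =>
    have e1 : (n + 1 + 1) * (u * (u + 3)) = (n + 1) * (u * (u + 3)) + u * (u + 3) := by ring
    have e2 : (n + 1 + 2) * (n + 1 + 1) = (n + 2) * (n + 1) + 2 * (n + 2) := by ring
    rw [e1, e2]
    omega

theorem rel_aux {r u M D₁ g : ℕ} {m : Fin r → ℕ} (B : Finset (Fin r)) (hu : 1 ≤ u)
    (huM : u ≤ M) (hM : ∀ i, m i ≤ M) (hms : ∀ i, i ∉ B → m i ≤ u)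
    (hreg : hPm D₁ (onB B m) + ∑ i, (onB B m i + 1).choose 2 = (D₁ + 2).choose 2)
    (h2 : 2 * ∑ i, (onB B m i + 1).choose 2 + 6 * (u * M) + (D₁ + 1) * (u * (u + 3)) ≤
      (D₁ + 2) * (D₁ + 1))
    (hg : 2 * g + u * (u + 1) ≤ D₁ + 2) : ∀ D, D₁ ≤ D → ∀ (y : Fin r → ℕ) (U S : ℕ),
    (∀ i ∈ B, y i = m i) → (∀ i, y i ≤ m i) →
    3 * (u * M) ≤ U + S + g * ((D - D₁) / (u + 1)) →
    (hPm D y : ℤ) ≤ max (U : ℤ) (MM.chi D y + S) := by
  intro D
  induction D using Nat.strong_induction_on with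
  | _ D ih =>
  intro hD y U S hyB hym hpot
  have hyM : ∀ i, y i ≤ M := fun i => (hym i).trans (hM i)
  have hyu : ∀ i, i ∉ B → y i ≤ u := fun i hi => (hym i).trans (hms i hi)
  have hregy : hPm D (onB B y) + ∑ i, (onB B y i + 1).choose 2 = (D + 2).choose 2 := by
    rw [onB_congr hyB]
    exact linSys_reg_mono (onB B m) (fun i => generic_coord_ne (gpt_generic r) i 2) hD hreg
  rcases Nat.lt_or_ge (U + S) (3 * (u * M)) with hUS | hUS
  swap
  · exact tr_base B hu huM hyM hyu hregy hUS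
  have hK : 1 ≤ (D - D₁) / (u + 1) := by
    rcases Nat.eq_zero_or_pos ((D - D₁) / (u + 1)) with h0 | h0
    · rw [h0, Nat.mul_zero] at hpot
      omega
    · exact h0
  have hDu : u + 1 ≤ D - D₁ := by
    rw [Nat.le_div_iff_mul_le (by omega)] at hK
    omega
  by_cases hav : ∀ v, 1 ≤ v → v ≤ u → (tcls B y v).card ≤ 2 * ((D - v + 1) / v)
  · have h3 := tr_few B hyu hav
    have h4 := tr_room (u := u) (N := ∑ i, (onB B m i + 1).choose 2) (W := 3 * (u * M))
      (by omega) hD
    rw [onB_congr hyB] at h3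
    have h5 : 2 * (D + 2).choose 2 = (D + 2) * (D + 1) := by
      have h6 := tr_two_choose (D + 1)
      rw [h6]
      ring
    have h6 := tr_regular B hu huM hyM hyu hregy (by omega)
    apply le_max_of_le_right
    unfold MM.chi
    have h7 : ((hPm D y + ∑ i, (y i + 1).choose 2 : ℕ) : ℤ) =
        (((D + 2).choose 2 : ℕ) : ℤ) := by rw [h6]
    push_cast at h7 ⊢
    linarith
  push Not at hav
  obtain ⟨v, hv1, hvu, hv⟩ := hav
  have hvv : v * (v + 1) ≤ u * (u + 1) := Nat.mul_le_mul hvu (by omega)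
  obtain ⟨A, A', y', hA, hA', hAA, hy'1, hy'2, hle, hcount⟩ := tr_strip (g := g) B hv1 (by omega)
    (by omega) hv
  have hyB' : ∀ i ∈ B, y' i = m i := fun i hi => (hy'2 i hi).trans (hyB i hi)
  have hym' : ∀ i, y' i ≤ m i := fun i => (hy'1 i).trans (hym i)
  have hdiv : ∀ D', D ≤ D' + (u + 1) → D₁ ≤ D' →
      g * ((D - D₁) / (u + 1)) ≤ g * ((D' - D₁) / (u + 1)) + g := by
    intro D' h1 h3
    have h4 : (D - D₁) / (u + 1) ≤ (D' - D₁) / (u + 1) + 1 := by
      rw [← Nat.add_div_right _ (by omega : 0 < u + 1)]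
      exact Nat.div_le_div_right (by omega)
    have h5 := Nat.mul_le_mul_left g h4
    rw [Nat.mul_add, Nat.mul_one] at h5
    exact h5
  have c1 := ih (D - v) (by omega) (by omega) y' (U + A) S hyB' hym' (by
    have := hdiv (D - v) (by omega) (by omega)
    omega)
  have c2 := ih (D - v - 1) (by omega) (by omega) y' U (S + A') hyB' hym' (by
    have := hdiv (D - v - 1) (by omega) (by omega)
    omega)
  have e1 : MM.chi (D - v) y' = MM.chi D y + A := by
    unfold MM.chi
    have h10 : (((D + 2).choose 2 + A + ∑ i, (y' i + 1).choose 2 : ℕ) : ℤ) =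
        (((D - v + 2).choose 2 + ∑ i, (y i + 1).choose 2 : ℕ) : ℤ) := by rw [hcount]
    push_cast at h10 ⊢
    linarith
  have e2 : MM.chi (D - v - 1) y' = MM.chi D y - A' := by
    have h12 : (((D - v + 2).choose 2 : ℕ) : ℤ) =
        (((D - v - 1 + 2).choose 2 : ℕ) : ℤ) + ((A + A' : ℕ) : ℤ) := by
      have e3 : (D - v + 2).choose 2 = (D - v - 1 + 2) + (D - v - 1 + 2).choose 2 := by
        have e4 : D - v + 2 = (D - v - 1 + 2) + 1 := by omega
        rw [e4, Nat.choose_succ_succ' (D - v - 1 + 2) 1, Nat.choose_one_right]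
      have e4 : (D - v + 2).choose 2 = (D - v - 1 + 2).choose 2 + (A + A') := by omega
      rw [e4]
      push_cast
      ring
    have h13 : MM.chi (D - v) y' = MM.chi (D - v - 1) y' + ((A + A' : ℕ) : ℤ) := by
      unfold MM.chi
      rw [h12]
      ring
    push_cast at h13
    linarith
  rw [e1] at c1
  rw [e2] at c2
  push_cast at c1 c2
  have h14 : (hPm D y : ℤ) ≤ max ((hPm (D - v) y' : ℤ) - A) (hPm (D - v - 1) y' : ℤ) ∨
      (hPm D y : ℤ) ≤ 0 := by
    rcases le_max_iff.mp hle with h | h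
    · rcases Nat.lt_or_ge (hPm (D - v) y') A with h' | h'
      · right
        have : hPm D y = 0 := by omega
        rw [this]
        simp
      · left
        apply le_max_of_le_left
        have : ((hPm (D - v) y' - A : ℕ) : ℤ) = (hPm (D - v) y' : ℤ) - A := Nat.cast_sub h'
        rw [← this]
        exact_mod_cast h
    · left
      apply le_max_of_le_right
      exact_mod_cast h
  rcases h14 with h14 | h14
  · rcases le_max_iff.mp h14 with h15 | h15
    · rcases le_max_iff.mp c1 with h16 | h16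
      · apply le_max_of_le_left
        linarith
      · apply le_max_of_le_right
        linarith
    · rcases le_max_iff.mp c2 with h16 | h16
      · apply le_max_of_le_left
        linarith
      · apply le_max_of_le_right
        linarith
  · apply le_max_of_le_left
    exact h14.trans (by positivity)

/-- **The relative theorem.** Let the points in `B` impose independent conditions in degree `D₁`,
with room to spare; then arbitrarily many points of multiplicity at most `u` can be added in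
degree `d`. -/
theorem rel_main {r u M D₁ d g : ℕ} {p : Fin r → V3} (hp : GenericPoints p) {m : Fin r → ℕ}
    (B : Finset (Fin r)) (hu : 1 ≤ u) (huM : u ≤ M) (hM : ∀ i, m i ≤ M)
    (hms : ∀ i, i ∉ B → m i ≤ u)
    (hreg : finrank ℂ (linSys D₁ p (onB B m)) + ∑ i ∈ B, (m i + 1).choose 2 =
      (D₁ + 2).choose 2)
    (h2 : 2 * ∑ i ∈ B, (m i + 1).choose 2 + 6 * (u * M) + (D₁ + 1) * (u * (u + 3)) ≤
      (D₁ + 2) * (D₁ + 1))
    (hg : 2 * g + u * (u + 1) ≤ D₁ + 2) (hd : D₁ ≤ d)
    (hK : 3 * (u * M) ≤ g * ((d - D₁) / (u + 1))) :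
    finrank ℂ (linSys d p m) = (d + 2).choose 2 - ∑ i, (m i + 1).choose 2 := by
  rw [hPm_eq hp] at hreg ⊢
  rw [← sum_onB] at hreg h2
  have h1 := rel_aux B hu huM hM hms hreg h2 hg d hd m 0 0 (fun _ _ => rfl) (fun _ => le_rfl)
    (by omega)
  have h3 := MM.hPm_count d m
  unfold MM.chi at h1
  simp only [Nat.cast_zero, add_zero] at h1
  rcases le_max_iff.mp h1 with h4 | h4
  · have h5 : hPm d m = 0 := by
      have : hPm d m ≤ 0 := by exact_mod_cast h4
      omega
    omega
  · have h5 : hPm d m + ∑ i, (m i + 1).choose 2 ≤ (d + 2).choose 2 := by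
      have h6 : (hPm d m : ℤ) + ((∑ i, (m i + 1).choose 2 : ℕ) : ℤ) ≤
          (((d + 2).choose 2 : ℕ) : ℤ) := by linarith
      exact_mod_cast h6
    omega

end Pool.Agent.Work.MP_0421d9_ag.LD
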