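import Pool.Agent.Work.MP_0421d9_ag.Sq69
import Pool.Agent.Work.MP_0421d9_ag.Gen3

/-!
The two-scale window: if the points in `B` alone impose independent conditions and the other
points have multiplicities at most `u`, then for special nonempty systems the dimension and the
superabundance add up to at most `3 u M`.
-/

set_option linter.unusedSectionVars false

namespace Pool.Agent.Work.MP_0421d9_ag

open MvPolynomial Module

section two

variable {ι : Type} [Fintype ι] [DecidableEq ι] {d : ℕ} {p : ι → V3}
  {E : ι → Fin 3 → Derivation ℚ ℂ ℂ}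

/-- from a nonspecial system to a special one: some step is incomplete -/
theorem exists_incomplete_above {b : ι → ℕ}
    (hb : finrank ℂ (linSys d p b) + ∑ i, (b i + 1).choose 2 = (d + 2).choose 2) :
    ∀ (n : ℕ) (m : ι → ℕ), ∑ i, m i ≤ n → (∀ i, b i ≤ m i) →
    (d + 2).choose 2 < finrank ℂ (linSys d p m) + ∑ i, (m i + 1).choose 2 →
    ∃ (y : ι → ℕ) (i : ι), (∀ l, up y i l ≤ m l) ∧ (∀ l, b l ≤ y l) ∧ cc d p y i ≤ y i := by
  intro n
  induction n with
  | zero =>
    intro m hm hbm h
    exfalso
    have h0 : m = b := by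
      funext i
      have := Finset.single_le_sum (f := m) (fun j _ => Nat.zero_le (m j)) (Finset.mem_univ i)
      have := hbm i
      omega
    rw [h0] at h
    omega
  | succ n ih =>
    intro m hm hbm h
    by_cases h0 : ∀ i, m i ≤ b i
    · have h1 : m = b := funext (fun i => le_antisymm (h0 i) (hbm i))
      rw [h1] at h
      omega
    push Not at h0
    obtain ⟨i, hi⟩ := h0
    set y := Function.update m i (m i - 1) with hy
    have hmy : m = up y i := up_down (by omega)
    have hyi : y i + 1 = m i := by rw [hy, Function.update_self]; omega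
    have hby : ∀ l, b l ≤ y l := by
      intro l
      by_cases hl : l = i
      · rw [hl]; omega
      · rw [hy, Function.update_of_ne hl]; exact hbm l
    by_cases hs : (d + 2).choose 2 < finrank ℂ (linSys d p y) + ∑ l, (y l + 1).choose 2
    · have h1 : ∑ l, y l ≤ n := by
        have h2 : ∑ l, y l + 1 = ∑ l, m l := by
          rw [← Finset.add_sum_erase _ _ (Finset.mem_univ i),
            ← Finset.add_sum_erase _ m (Finset.mem_univ i)]
          have h3 : ∑ l ∈ Finset.univ.erase i, y l = ∑ l ∈ Finset.univ.erase i, m l := by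
            refine Finset.sum_congr rfl (fun l hl => ?_)
            rw [hy, Function.update_of_ne (Finset.ne_of_mem_erase hl)]
          omega
        omega
      obtain ⟨z, j, hz, hbz, hc⟩ := ih y h1 hby hs
      refine ⟨z, j, fun l => (hz l).trans ?_, hbz, hc⟩
      rw [hmy]
      exact le_up y i l
    · refine ⟨y, i, fun l => by rw [hmy], hby, ?_⟩
      have h1 := cc_add (d := d) (p := p) y i
      have h2 := sum_choose_up y i
      rw [← hmy] at h1 h2
      omega

/-- a special system above a nonspecial one does not cut out a complete series at some point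
whose multiplicity has been raised -/
theorem exists_defect_above (hE : IsDual p E) {b m : ι → ℕ}
    (hb : finrank ℂ (linSys d p b) + ∑ i, (b i + 1).choose 2 = (d + 2).choose 2)
    (hbm : ∀ i, b i ≤ m i)
    (h : (d + 2).choose 2 < finrank ℂ (linSys d p m) + ∑ i, (m i + 1).choose 2) :
    ∃ i, b i < m i ∧ cc d p (dn m i) i ≤ m i - 1 := by
  obtain ⟨y, i, hy, hby, hc⟩ := exists_incomplete_above hb (∑ i, m i) m le_rfl hbm h
  have hyi : y i + 1 ≤ m i := by
    have := hy i
    rwa [up_self] at this
  refine ⟨i, by have := hby i; omega, ?_⟩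
  set y' : ι → ℕ := Function.update m i (y i) with hy'
  have hy'i : y' i = y i := by rw [hy', Function.update_self]
  have h3 : cc d p y' i ≤ cc d p y i := by
    apply cc_mono_le
    · intro l
      by_cases hl : l = i
      · rw [hl, hy'i]
      · rw [hy', Function.update_of_ne hl]
        have := hy l
        rwa [up_ne _ hl] at this
    · exact hy'i.symm
  have h5 := cc_update_le hE (y := y') (i := i) (c := y i) (h3.trans hc) (by rw [hy'i])
    (m i - 1 - y i)
  have h6 : Function.update y' i (y' i + (m i - 1 - y i)) = dn m i := by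
    rw [hy'i, hy', Function.update_idem, (by omega : y i + (m i - 1 - y i) = m i - 1)]
    rfl
  rw [h6] at h5
  omega

/-- the part of `m` in `B` -/
def onB (B : Finset ι) (m : ι → ℕ) : ι → ℕ := fun i => if i ∈ B then m i else 0

theorem sum_onB (B : Finset ι) (m : ι → ℕ) :
    ∑ i, (onB B m i + 1).choose 2 = ∑ i ∈ B, (m i + 1).choose 2 := by
  rw [← Finset.sum_filter_add_sum_filter_not Finset.univ (fun i => i ∈ B)]
  have h1 : ∑ i ∈ Finset.univ.filter (fun i => ¬ i ∈ B), (onB B m i + 1).choose 2 = 0 := by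
    refine Finset.sum_eq_zero (fun i hi => ?_)
    have := (Finset.mem_filter.mp hi).2
    unfold onB
    rw [if_neg this]
    rfl
  have h2 : Finset.univ.filter (fun i => i ∈ B) = B := by
    ext i
    simp
  rw [h1, add_zero, h2]
  refine Finset.sum_congr rfl (fun i hi => ?_)
  unfold onB
  rw [if_pos hi]

/-- regularity is inherited when a multiplicity is lowered -/
theorem reg_dn (hE : IsDual p E) {y : ι → ℕ} {i : ι} (hy : ∀ l, y l ≤ d)
    (h : finrank ℂ (linSys d p (up y i)) + ∑ l, (up y i l + 1).choose 2 = (d + 2).choose 2) :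
    finrank ℂ (linSys d p y) + ∑ l, (y l + 1).choose 2 = (d + 2).choose 2 := by
  have h1 := cc_add (d := d) (p := p) y i
  have h2 := cc_le hE hy i
  have h3 := sum_choose_up y i
  have h4 := chi_le (d := d) (p := p) (m := y) (fun l => (hy l).trans (Nat.le_succ d))
  omega

/-- regularity is inherited by smaller systems of conditions -/
theorem reg_le (hE : IsDual p E) {y : ι → ℕ} : ∀ (n : ℕ) (y' : ι → ℕ), ∑ l, y' l ≤ n →
    (∀ l, y l ≤ y' l) → (∀ l, y' l ≤ d) →
    finrank ℂ (linSys d p y') + ∑ l, (y' l + 1).choose 2 = (d + 2).choose 2 →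
    finrank ℂ (linSys d p y) + ∑ l, (y l + 1).choose 2 = (d + 2).choose 2 := by
  intro n
  induction n with
  | zero =>
    intro y' hn hyy hd h
    have h0 : y' = y := by
      funext i
      have h1 := Finset.single_le_sum (f := y') (fun j _ => Nat.zero_le (y' j))
        (Finset.mem_univ i)
      have h2 := hyy i
      omega
    rwa [h0] at h
  | succ n ih =>
    intro y' hn hyy hd h
    by_cases h0 : ∀ i, y' i ≤ y i
    · have h1 : y' = y := funext (fun i => le_antisymm (h0 i) (hyy i))
      rwa [h1] at h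
    push Not at h0
    obtain ⟨i, hi⟩ := h0
    refine ih (dn y' i) ?_ ?_ (fun l => (dn_le y' i l).trans (hd l)) ?_
    · have h2 : ∑ l, dn y' i l + 1 = ∑ l, y' l := by
        rw [← Finset.add_sum_erase _ _ (Finset.mem_univ i),
          ← Finset.add_sum_erase _ y' (Finset.mem_univ i), dn_self]
        have h3 : ∑ l ∈ Finset.univ.erase i, dn y' i l = ∑ l ∈ Finset.univ.erase i, y' l := by
          refine Finset.sum_congr rfl (fun l hl => ?_)
          rw [dn_ne _ (Finset.ne_of_mem_erase hl)]
        omega
      omega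
    · intro l
      by_cases hl : l = i
      · rw [hl, dn_self]
        omega
      · rw [dn_ne _ hl]
        exact hyy l
    · refine reg_dn (i := i) hE (fun l => (dn_le y' i l).trans (hd l)) ?_
      rwa [up_dn (by omega)]

theorem onB_le (B : Finset ι) (m : ι → ℕ) (i : ι) : onB B m i ≤ m i := by
  unfold onB
  split_ifs
  · exact le_rfl
  · exact Nat.zero_le _

theorem onB_mono (B : Finset ι) {m m' : ι → ℕ} (h : ∀ i, m i ≤ m' i) (i : ι) :
    onB B m i ≤ onB B m' i := by
  unfold onB
  split_ifs
  · exact h i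
  · exact Nat.zero_le _

/-- the arithmetic of one step -/
theorem two_step {a x x' F s S S' δ : ℝ} (ha : 0 < a) (hs : 0 < s) (hx : 0 ≤ x) (hx' : 0 ≤ x')
    (hxF : a * x ≤ F) (hsF : s ≤ F) (hX : x' ^ 2 * a ^ 2 = x ^ 2 * a ^ 2 + F * s)
    (hδ : δ ≤ s) (hS : S = S' + δ) (h : S' + 3 * a * x' ≤ 3 * a ^ 2) :
    S + 3 * a * x ≤ 3 * a ^ 2 := by
  have hF : 0 < F := lt_of_lt_of_le hs hsF
  -- `a * x' ≤ 2 * F`
  have h1 : (a * x') ^ 2 ≤ (2 * F) ^ 2 := by nlinarith [mul_nonneg ha.le hx]
  have h2 : a * x' ≤ 2 * F := by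
    by_contra hcon
    push Not at hcon
    nlinarith [mul_nonneg ha.le hx']
  -- `(a x' - a x) * 3 F ≥ F s`
  have h3 : (a * x' - a * x) * (a * x' + a * x) = F * s := by nlinarith
  have h4 : 0 ≤ a * x' - a * x := by
    by_contra hcon
    push Not at hcon
    have h5 : 0 ≤ a * x' + a * x := by positivity
    nlinarith [mul_pos hF hs]
  have h5 : F * s ≤ (a * x' - a * x) * (3 * F) := by
    rw [← h3]
    apply mul_le_mul_of_nonneg_left _ h4
    linarith
  have h6 : s ≤ 3 * (a * x' - a * x) := by
    by_contra hcon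
    push Not at hcon
    nlinarith
  rw [hS]
  nlinarith

/-- **The two-scale window.** -/
theorem two_aux {r : ℕ} {p : Fin r → V3} {E : Fin r → Fin 3 → Derivation ℚ ℂ ℂ}
    (hE : IsDual p E) (B : Finset (Fin r)) (u M : ℕ) (hu : 1 ≤ u)
    (huM : u ≤ M) : ∀ (N : ℕ) (m : Fin r → ℕ) (S : ℕ), ∑ l, m l ≤ N →
    (∀ i, m i ≤ M) → (∀ i, i ∉ B → m i ≤ u) →
    finrank ℂ (linSys d p (onB B m)) + ∑ i, (onB B m i + 1).choose 2 = (d + 2).choose 2 →
    finrank ℂ (linSys d p m) ≠ 0 →
    finrank ℂ (linSys d p m) + ∑ i, (m i + 1).choose 2 = (d + 2).choose 2 + S → 1 ≤ S →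
    (S : ℝ) + 3 * Real.sqrt (u * M) * Real.sqrt (finrank ℂ (linSys d p m)) ≤
      3 * Real.sqrt (u * M) ^ 2 := by
  intro N
  induction N with
  | zero =>
    intro m S hN hM hms hB hne hS hS1
    exfalso
    obtain ⟨i, hi, -⟩ := exists_defect (d := d) hE (m := m) (by omega)
    have := Finset.single_le_sum (f := m) (fun j _ => Nat.zero_le (m j)) (Finset.mem_univ i)
    omega
  | succ N ih =>
    intro m S hN hM hms hb hne hS hS1
    have hd := le_of_finrank_pos hne
    obtain ⟨i, hi0, hci⟩ := exists_defect_above (d := d) hE (b := onB B m) (m := m) hb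
      (fun l => by
        unfold onB
        split_ifs
        · exact le_rfl
        · exact Nat.zero_le _) (by omega)
    have hiB : i ∉ B := by
      intro h
      unfold onB at hi0
      rw [if_pos h] at hi0
      omega
    have hi : 1 ≤ m i := by omega
    have hiu := hms i hiB
    -- the weights
    let W : Fin r → ℕ := fun l => if l ∈ B then u else M
    let sc : Fin r → ℕ := fun l => if l ∈ B then M else u
    have hWs : ∀ l, W l * sc l = u * M := by
      intro l
      simp only [W, sc]
      split_ifs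
      · rfl
      · exact Nat.mul_comm _ _
    have hsc : ∀ l, m l ≤ sc l := by
      intro l
      simp only [sc]
      split_ifs with h
      · exact hM l
      · exact hms l h
    have hscM : ∀ l, sc l ≤ M := by
      intro l
      simp only [sc]
      split_ifs
      · exact le_rfl
      · exact huM
    have hsc1 : ∀ l, 1 ≤ sc l := by
      intro l
      simp only [sc]
      split_ifs
      · omega
      · exact hu
    have hWi : W i = M := if_neg hiB
    have hWu : ∀ l, u ≤ W l := by
      intro l
      simp only [W]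
      split_ifs
      · exact le_rfl
      · exact huM
    obtain ⟨j, hj, hmax⟩ := Finset.exists_max_image (Finset.univ.filter (fun x => 1 ≤ m x))
      (fun x => cc d p (dn m x) x * W x) ⟨i, Finset.mem_filter.mpr ⟨Finset.mem_univ _, hi⟩⟩
    rw [Finset.mem_filter] at hj
    obtain ⟨-, hj⟩ := hj
    have hmax' : ∀ l, 1 ≤ m l → cc d p (dn m l) l * W l ≤ cc d p (dn m j) j * W j := fun l hl =>
      hmax l (Finset.mem_filter.mpr ⟨Finset.mem_univ _, hl⟩)
    set X := finrank ℂ (linSys d p m) with hX
    set c := cc d p (dn m j) j with hc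
    set F := c * W j with hF
    set ci := cc d p (dn m i) i with hcidef
    have hciF : ci * M ≤ F := by
      have h1 := hmax' i hi
      rwa [hWi] at h1
    -- the dimension
    have hXc : X ≤ ci * (F / u) := by
      have h1 := chain_all hE i (F / u) ci (dn m i) le_rfl
        (by rw [dn_self]; exact hci) (by
        intro l hli hl
        rw [dn_ne _ hli] at hl
        rw [dn_comm m hli.symm, up_dn (by rw [dn_ne _ hli.symm]; exact hi)]
        rw [Nat.le_div_iff_mul_le (by omega)]
        exact (Nat.mul_le_mul_left _ (hWu l)).trans (hmax' l hl))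
      rw [up_dn hi] at h1
      exact h1
    have hci1 : 1 ≤ ci := by
      rcases Nat.eq_zero_or_pos ci with h0 | h0
      · rw [h0, Nat.zero_mul] at hXc
        omega
      · exact h0
    have hFM : M ≤ F := (Nat.le_mul_of_pos_left M hci1).trans hciF
    have hXF : X * (u * M) ≤ F * F := by
      calc X * (u * M) ≤ ci * (F / u) * (u * M) := Nat.mul_le_mul_right _ hXc
        _ = (ci * M) * (F / u * u) := by ring
        _ ≤ F * F := Nat.mul_le_mul hciF (Nat.div_mul_le_self _ _)
    have hcj : c ≤ m j := by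
      have h1 := cc_le hE (y := dn m j) (fun l => (dn_le m j l).trans (hd l)) j
      rw [dn_self] at h1
      omega
    have hX' : finrank ℂ (linSys d p (dn m j)) = X + c := by
      have h1 := cc_add (d := d) (p := p) (dn m j) j
      rw [up_dn hj] at h1
      exact h1
    have hsg : ∑ l, (m l + 1).choose 2 = ∑ l, (dn m j l + 1).choose 2 + m j := by
      have h1 := sum_choose_up (dn m j) j
      rw [up_dn hj, dn_self] at h1
      omega
    have hchi := chi_le (d := d) (p := p) (m := dn m j)
      (fun l => ((dn_le m j l).trans (hd l)).trans (Nat.le_succ d))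
    obtain ⟨δ, hδ⟩ : ∃ δ, m j = c + δ := ⟨m j - c, by omega⟩
    obtain ⟨S', hS'⟩ : ∃ S', S = S' + δ := ⟨S - δ, by omega⟩
    have hS'' : finrank ℂ (linSys d p (dn m j)) + ∑ l, (dn m j l + 1).choose 2 =
        (d + 2).choose 2 + S' := by omega
    have hcF : c * (u * M) = F * sc j := by
      rw [hF, ← hWs j]
      ring
    have hFle : F ≤ u * M := by
      rw [hF, ← hWs j, Nat.mul_comm (W j)]
      exact Nat.mul_le_mul_right _ (hcj.trans (hsc j))
    -- real numbers
    set a := Real.sqrt (u * M) with ha
    have ha2 : a ^ 2 = u * M := Real.sq_sqrt (by positivity)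
    have hM0 : (1 : ℝ) ≤ M := by exact_mod_cast (by omega : 1 ≤ M)
    have hu0 : (1 : ℝ) ≤ u := by exact_mod_cast hu
    have ha0 : 0 < a := Real.sqrt_pos.mpr (by positivity)
    set x := Real.sqrt (X : ℝ) with hx
    have hx2 : x ^ 2 = X := Real.sq_sqrt (by positivity)
    have hx0 : 0 ≤ x := Real.sqrt_nonneg _
    have hxF : a * x ≤ F := by
      have h1 : (a * x) ^ 2 ≤ (F : ℝ) ^ 2 := by
        rw [mul_pow, ha2, hx2]
        have h2 : ((X * (u * M) : ℕ) : ℝ) ≤ ((F * F : ℕ) : ℝ) := by exact_mod_cast hXF
        push_cast at h2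
        nlinarith
      exact (pow_le_pow_iff_left₀ (by positivity) (by positivity) (by norm_num)).mp h1
    have hscR : (1 : ℝ) ≤ sc j := by exact_mod_cast hsc1 j
    rcases Nat.eq_zero_or_pos S' with h0 | h0
    · -- the next system is nonspecial
      have h1 : S ≤ sc j - c := by have := hsc j; omega
      have h2 : (S : ℝ) ≤ sc j - c := by
        have h3 : ((sc j - c : ℕ) : ℝ) = (sc j : ℝ) - c := Nat.cast_sub (hcj.trans (hsc j))
        rw [← h3]
        exact_mod_cast h1
      have h3 : (c : ℝ) * a ^ 2 = F * sc j := by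
        rw [ha2]
        exact_mod_cast hcF
      have h4 : (F : ℝ) ≤ a ^ 2 := by
        rw [ha2]
        exact_mod_cast hFle
      have h5 : (sc j : ℝ) ≤ a ^ 2 := by
        rw [ha2]
        have h6 : sc j ≤ u * M := (hscM j).trans (Nat.le_mul_of_pos_left M hu)
        exact_mod_cast h6
      -- `(sc - c) a² = sc (a² - F) ≤ a² (a² - F)`
      have h6 : ((sc j : ℝ) - c) * a ^ 2 ≤ (a ^ 2 - F) * a ^ 2 := by nlinarith
      have h7 : (sc j : ℝ) - c ≤ a ^ 2 - F := le_of_mul_le_mul_right h6 (by positivity)
      nlinarith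
    · have hsum : ∑ l, dn m j l ≤ N := by
        have h2 : ∑ l, dn m j l + 1 = ∑ l, m l := by
          rw [← Finset.add_sum_erase _ _ (Finset.mem_univ j),
            ← Finset.add_sum_erase _ m (Finset.mem_univ j), dn_self]
          have h3 : ∑ l ∈ Finset.univ.erase j, dn m j l = ∑ l ∈ Finset.univ.erase j, m l := by
            refine Finset.sum_congr rfl (fun l hl => ?_)
            rw [dn_ne _ (Finset.ne_of_mem_erase hl)]
          omega
        omega
      have hle := ih (dn m j) S' hsum (fun l => (dn_le m j l).trans (hM l))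
        (fun l hl => (dn_le m j l).trans (hms l hl)) (reg_le hE (∑ l, onB B m l) (onB B m) le_rfl
          (onB_mono B (dn_le m j)) (fun l => (onB_le B m l).trans (hd l)) hb)
        (by omega) hS'' h0
      rw [hX'] at hle
      set x' := Real.sqrt ((X + c : ℕ) : ℝ) with hx'
      have hx'2 : x' ^ 2 = ((X + c : ℕ) : ℝ) := Real.sq_sqrt (by positivity)
      have hx'0 : 0 ≤ x' := Real.sqrt_nonneg _
      refine two_step (s := (sc j : ℝ)) (F := (F : ℝ)) (δ := (δ : ℝ)) (S' := (S' : ℝ)) ha0
        (by linarith) hx0 hx'0 hxF ?_ ?_ ?_ ?_ hle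
      · exact_mod_cast (hscM j).trans hFM
      · rw [hx'2, hx2, ha2]
        have h1 : (c : ℝ) * (u * M) = F * sc j := by exact_mod_cast hcF
        push_cast
        nlinarith
      · have h1 : δ ≤ sc j := by have := hsc j; omega
        exact_mod_cast h1
      · exact_mod_cast hS'

/-- **The two-scale window.** -/
theorem two_window {r : ℕ} {p : Fin r → V3} (hp : GenericPoints p) {m : Fin r → ℕ} {u M : ℕ}
    (hu : 1 ≤ u) (huM : u ≤ M) (hM : ∀ i, m i ≤ M) (B : Finset (Fin r))
    (hms : ∀ i, i ∉ B → m i ≤ u)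
    (hB : finrank ℂ (linSys d p (onB B m)) + ∑ i, (onB B m i + 1).choose 2 = (d + 2).choose 2)
    (hne : linSys d p m ≠ ⊥)
    (h : finrank ℂ (linSys d p m) + ∑ i, (m i + 1).choose 2 ≠ (d + 2).choose 2) :
    ∃ S, 1 ≤ S ∧
      finrank ℂ (linSys d p m) + ∑ i, (m i + 1).choose 2 = (d + 2).choose 2 + S ∧
      finrank ℂ (linSys d p m) + S ≤ 3 * (u * M) := by
  obtain ⟨E, hE⟩ := exists_dual p hp
  have hfin : Module.Finite ℂ (linSys d p m) :=
    Submodule.finiteDimensional_of_le (linSys_le d p _)
  have hne' : finrank ℂ (linSys d p m) ≠ 0 := fun h0 =>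
    hne (Submodule.finrank_eq_zero.mp h0)
  have h1 := chi_le (d := d) (p := p) (m := m)
    (fun i => (le_of_finrank_pos hne' i).trans (Nat.le_succ d))
  obtain ⟨S, hS⟩ : ∃ S, finrank ℂ (linSys d p m) + ∑ i, (m i + 1).choose 2 =
      (d + 2).choose 2 + S := ⟨_, (Nat.add_sub_cancel' h1).symm⟩
  have hS1 : 1 ≤ S := by omega
  have h2 := two_aux (d := d) hE B u M hu huM (∑ l, m l) m S le_rfl hM hms hB hne' hS hS1
  refine ⟨S, hS1, hS, ?_⟩
  set a := Real.sqrt ((u : ℝ) * M) with ha
  have ha2 : a ^ 2 = u * M := Real.sq_sqrt (by positivity)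
  have ha0 : 0 ≤ a := Real.sqrt_nonneg _
  set X := finrank ℂ (linSys d p m) with hX
  set x := Real.sqrt (X : ℝ) with hx
  have hx2 : x ^ 2 = X := Real.sq_sqrt (by positivity)
  have hx0 : 0 ≤ x := Real.sqrt_nonneg _
  have hS0 : (0 : ℝ) ≤ S := by positivity
  have hxa : a * x ≤ a * a := by nlinarith
  have h3 : (X : ℝ) ≤ 3 * a * x := by
    rw [← hx2]
    rcases lt_or_ge a x with h4 | h4
    · rcases eq_or_lt_of_le ha0 with h5 | h5
      · rw [← h5] at h2
        have h6 : (1 : ℝ) ≤ S := by exact_mod_cast hS1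
        nlinarith
      · have h6 : x ≤ a := le_of_mul_le_mul_left hxa h5
        exact absurd h4 (not_lt.mpr h6)
    · nlinarith
  have h4 : ((X + S : ℕ) : ℝ) ≤ ((3 * (u * M) : ℕ) : ℝ) := by
    push_cast
    rw [← ha2]
    linarith
  exact_mod_cast h4

end two

end Pool.Agent.Work.MP_0421d9_ag
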