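import Pool.Agent.Work.MP_0421d9_ag.Defs
import Pool.Agent.Work.MP_0421d9_ag.Apolar

/-!
Taylor components of forms via the apolarity pairing.
-/

namespace Pool.Agent.Work.MP_0421d9_ag

open MvPolynomial

theorem eval_translate (a y : V3) (F : R3) : eval y (translate a F) = eval (a + y) F := by
  unfold translate
  induction F using MvPolynomial.induction_on with
  | C c => rw [eval_C, ← algebraMap_eq, AlgHom.commutes, algebraMap_eq, eval_C]
  | add p q hp hq => rw [map_add, map_add, map_add, hp, hq]
  | mul_X p n hp =>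
    rw [map_mul, map_mul, map_mul, hp, aeval_X, map_add, eval_C, eval_X, eval_X, Pi.add_apply]

theorem lin_isHomogeneous_pow (a : V3) (n : ℕ) : (lin a ^ n).IsHomogeneous n := by
  have := (lin_isHomogeneous a).pow n
  simpa using this

/-- Taylor expansion of a form -/
theorem translate_eq {F : R3} {d : ℕ} (hF : F.IsHomogeneous d) (a : V3) :
    translate a F = ∑ n ∈ Finset.range (d + 1), C ((n.factorial : ℂ)⁻¹) * (dir a)^[n] F := by
  apply MvPolynomial.funext
  intro y
  rw [eval_translate, map_sum]
  have h1 : (d.factorial : ℂ) * eval (a + y) F =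
      ∑ n ∈ Finset.range (d + 1), (d.factorial : ℂ) * ((n.factorial : ℂ)⁻¹ *
        eval y ((dir a)^[n] F)) := by
    rw [← B_lin_pow hF, lin_add, add_pow, map_sum, LinearMap.sum_apply]
    refine Finset.sum_congr rfl (fun n hn => ?_)
    have hn' : n ≤ d := Nat.lt_succ_iff.mp (Finset.mem_range.mp hn)
    have h2 : ((d.choose n : ℕ) : R3) = C (d.choose n : ℂ) := by simp
    rw [h2, mul_comm _ (C _), B_C_mul_left, B_lin_pow_mul,
      B_lin_pow (dir_iterate_isHomogeneous a n hF)]
    have h3 : (d.choose n : ℂ) * n.factorial * (d - n).factorial = d.factorial := by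
      exact_mod_cast Nat.choose_mul_factorial_mul_factorial hn'
    have h4 : (n.factorial : ℂ) ≠ 0 := by exact_mod_cast Nat.factorial_ne_zero n
    rw [← h3]
    field_simp
  rw [← Finset.mul_sum] at h1
  have h5 : (d.factorial : ℂ) ≠ 0 := by exact_mod_cast Nat.factorial_ne_zero d
  rw [mul_left_cancel₀ h5 h1]
  refine Finset.sum_congr rfl (fun n _ => ?_)
  rw [map_mul, eval_C]

theorem taylor_component {F : R3} {d : ℕ} (hF : F.IsHomogeneous d) (a : V3) {k : ℕ} (hk : k ≤ d) :
    homogeneousComponent k (translate a F) = C (((d - k).factorial : ℂ)⁻¹) *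
      (dir a)^[d - k] F := by
  rw [translate_eq hF, map_sum, Finset.sum_eq_single (d - k)]
  · rw [homogeneousComponent_C_mul]
    congr 1
    apply homogeneousComponent_eq_self
    have := dir_iterate_isHomogeneous a (d - k) hF
    rwa [Nat.sub_sub_self hk] at this
  · intro n hn hne
    rw [homogeneousComponent_C_mul, homogeneousComponent_of_mem
      (dir_iterate_isHomogeneous a n hF), if_neg, mul_zero]
    have hn' : n ≤ d := Nat.lt_succ_iff.mp (Finset.mem_range.mp hn)
    omega
  · intro h
    exact absurd (Finset.mem_range.mpr (by omega)) h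

theorem taylor_component_gt {F : R3} {d : ℕ} (hF : F.IsHomogeneous d) (a : V3) {k : ℕ}
    (hk : d < k) : homogeneousComponent k (translate a F) = 0 := by
  rw [translate_eq hF, map_sum]
  refine Finset.sum_eq_zero (fun n _ => ?_)
  rw [homogeneousComponent_C_mul, homogeneousComponent_of_mem
      (dir_iterate_isHomogeneous a n hF), if_neg, mul_zero]
  omega

/-- forms of degree `m - 1` (zero if `m = 0`) -/
noncomputable def Hm : ℕ → Submodule ℂ R3
  | 0 => ⊥
  | n + 1 => homogeneousSubmodule (Fin 3) ℂ n

theorem mem_Hm_succ {n : ℕ} {G : R3} : G ∈ Hm (n + 1) ↔ G.IsHomogeneous n := Iff.rfl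

theorem mem_Hm_zero {G : R3} : G ∈ Hm 0 ↔ G = 0 := Submodule.mem_bot ℂ

theorem cD_mem_Hm (D : Derivation ℚ ℂ ℂ) {m : ℕ} {G : R3} (h : G ∈ Hm m) : cD D G ∈ Hm m := by
  cases m with
  | zero => rw [mem_Hm_zero] at *; rw [h, map_zero]
  | succ n => exact cD_isHomogeneous D h

theorem VanishTo.mono {F : R3} {a : V3} {m n : ℕ} (h : VanishTo F a m) (hn : n ≤ m) :
    VanishTo F a n := fun k hk => h k (hk.trans_le hn)

theorem vanishTo_iff {F : R3} {d : ℕ} (hF : F.IsHomogeneous d) (a : V3) {m : ℕ} (hm : m ≤ d + 1) :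
    VanishTo F a m ↔ ∀ G ∈ Hm m, B (lin a ^ (d + 1 - m) * G) F = 0 := by
  cases m with
  | zero =>
    constructor
    · intro _ G hG
      rw [mem_Hm_zero] at hG
      rw [hG, mul_zero, map_zero, LinearMap.zero_apply]
    · intro _ k hk
      omega
  | succ n =>
    have hn : n ≤ d := by omega
    have hdn : d + 1 - (n + 1) = d - n := by omega
    rw [hdn]
    have hfac : ∀ k : ℕ, ((k.factorial : ℂ)⁻¹) ≠ 0 := fun k =>
      inv_ne_zero (by exact_mod_cast Nat.factorial_ne_zero k)
    constructor
    · intro h G hG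
      have h1 := h n (by omega)
      rw [taylor_component hF a hn] at h1
      rw [B_lin_pow_mul]
      rcases mul_eq_zero.mp h1 with h2 | h2
      · exfalso
        rw [C_eq_zero] at h2
        exact hfac _ h2
      · rw [h2, map_zero]
    · intro h k hk
      rw [taylor_component hF a (by omega : k ≤ d)]
      have h1 : (dir a)^[d - k] F = 0 := by
        have hh := dir_iterate_isHomogeneous a (d - k) hF
        rw [Nat.sub_sub_self (by omega : k ≤ d)] at hh
        apply eq_zero_of_B_right hh
        intro G hG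
        rw [← B_lin_pow_mul]
        have h2 : lin a ^ (d - k) * G = lin a ^ (d - n) * (lin a ^ (n - k) * G) := by
          rw [← mul_assoc, ← pow_add]
          congr 2
          omega
        rw [h2]
        apply h
        rw [mem_Hm_succ]
        have := (lin_isHomogeneous_pow a (n - k)).mul hG
        rwa [Nat.sub_add_cancel (by omega : k ≤ n)] at this
      rw [h1, mul_zero]

theorem eq_zero_of_vanishTo {F : R3} {d : ℕ} (hF : F.IsHomogeneous d) {a : V3} {m : ℕ}
    (hm : d < m) (h : VanishTo F a m) : F = 0 := by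
  have h1 := h d hm
  rw [taylor_component hF a le_rfl] at h1
  simpa using h1

/-- membership in a linear system for admissible multiplicities, in terms of the pairing -/
theorem mem_linSys_iff {ι : Type} {d : ℕ} {p : ι → V3} {m : ι → ℕ} (hm : ∀ i, m i ≤ d + 1)
    {F : R3} : F ∈ linSys d p m ↔ F.IsHomogeneous d ∧ ∀ i, ∀ G ∈ Hm (m i),
      B (lin (p i) ^ (d + 1 - m i) * G) F = 0 := by
  constructor
  · rintro ⟨h1, h2⟩
    exact ⟨h1, fun i => (vanishTo_iff h1 _ (hm i)).mp (h2 i)⟩
  · rintro ⟨h1, h2⟩
    exact ⟨h1, fun i => (vanishTo_iff h1 _ (hm i)).mpr (h2 i)⟩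

end Pool.Agent.Work.MP_0421d9_ag
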