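import Pool.Agent.Work.MP_0421d9_ag.Lines

/-!
Test forms which are products of lines through few points.
-/

namespace Pool.Agent.Work.MP_0421d9_ag

open MvPolynomial

theorem dir_iterate_mul {a : V3} {g : R3} (hg : dir a g = 0) (n : ℕ) (h : R3) :
    (dir a)^[n] (g * h) = g * (dir a)^[n] h := by
  induction n generalizing h with
  | zero => rfl
  | succ n ih =>
    rw [Function.iterate_succ_apply, dir_mul, hg, zero_mul, zero_add, ih,
      ← Function.iterate_succ_apply]

theorem dir_iterate_mul' {a : V3} {h : R3} (hh : dir a h = 0) (n : ℕ) (g : R3) :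
    (dir a)^[n] (g * h) = (dir a)^[n] g * h := by
  rw [mul_comm, dir_iterate_mul hh, mul_comm]

theorem dir_iterate_eq_zero {h : R3} {e : ℕ} (hh : h.IsHomogeneous e) (a : V3) {n : ℕ}
    (hn : e < n) : (dir a)^[n] h = 0 := by
  have h1 := dir_iterate_isHomogeneous a e hh
  rw [Nat.sub_self] at h1
  have h0 : (dir a)^[e] h = C (coeff 0 ((dir a)^[e] h)) :=
    (MvPolynomial.totalDegree_eq_zero_iff_eq_C).mp (Nat.le_zero.mp h1.totalDegree_le)
  obtain ⟨k, rfl⟩ : ∃ k, n = k + 1 + e := ⟨n - e - 1, by omega⟩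
  rw [Function.iterate_add_apply, Function.iterate_succ_apply, h0, dir_C]
  exact iterate_map_zero (dir a) k

theorem B_eq_zero_of_factor {a : V3} {g h : R3} (hg : dir a g = 0) {e n : ℕ}
    (hh : h.IsHomogeneous e) (hn : e < n) (G : R3) : B (lin a ^ n * G) (g * h) = 0 := by
  rw [B_lin_pow_mul, dir_iterate_mul hg, dir_iterate_eq_zero hh a hn, mul_zero, map_zero]

theorem dir_mul_zero {a : V3} {g h : R3} (hg : dir a g = 0) (hh : dir a h = 0) :
    dir a (g * h) = 0 := by
  rw [dir_mul, hg, hh, zero_mul, mul_zero, add_zero]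

theorem dir_pow_zero {a : V3} {g : R3} (hg : dir a g = 0) (n : ℕ) : dir a (g ^ n) = 0 := by
  rw [dir_pow, hg, mul_zero, mul_zero]

theorem dir_xl_left (a b : V3) : dir a (xl a b) = 0 := by
  have := dir_lin a (cr a b)
  rw [show xl a b = lin (cr a b) from rfl, this]
  rw [show eval a (lin (cr a b)) = 0 from eval_xl_left a b, C_0]

theorem dir_xl_right (a b : V3) : dir b (xl a b) = 0 := by
  have := dir_lin b (cr a b)
  rw [show xl a b = lin (cr a b) from rfl, this]
  rw [show eval b (lin (cr a b)) = 0 from eval_xl_right a b, C_0]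

theorem xl_pow_isHomogeneous (a b : V3) (n : ℕ) : (xl a b ^ n).IsHomogeneous n :=
  lin_isHomogeneous_pow _ n

theorem dir_iterate_pow {a v : V3} (n N : ℕ) (hn : n ≤ N) :
    (dir a)^[n] (lin v ^ N) =
      C ((N.descFactorial n : ℂ) * eval a (lin v) ^ n) * lin v ^ (N - n) := by
  induction n with
  | zero => simp
  | succ n ih =>
    rw [Function.iterate_succ_apply', ih (by omega), dir_C_mul, dir_pow, dir_lin,
      Nat.descFactorial_succ, (by omega : N - n - 1 = N - (n + 1))]
    have h1 : ((N - n : ℕ) : ℂ) * 1 = ((N - n : ℕ) : ℂ) := mul_one _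
    simp only [Nat.cast_mul, map_mul, map_pow]
    ring

/-- test form for a point outside the base points -/
theorem test_point {d : ℕ} {a b c e q : V3} {ma mb mc me : ℕ}
    (hac : eval q (xl a c) ≠ 0) (hae : eval q (xl a e) ≠ 0) (hbc : eval q (xl b c) ≠ 0)
    (hbe : eval q (xl b e) ≠ 0) (hma : ma ≤ d) (hmb : mb ≤ d) (hmc : mc ≤ d)
    (hab : ma + mb ≤ d ∨ (ma + mb = d + 1 ∧ eval q (xl a b) ≠ 0))
    (hce : mc + me ≤ d + 1) (htot : ma + mb + mc + me ≤ 2 * d)
    {Ga Gb Gc Ge : R3} (hGe : me = 0 → Ge = 0)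
    (h : lin q ^ d = lin a ^ (d + 1 - ma) * Ga + lin b ^ (d + 1 - mb) * Gb +
      lin c ^ (d + 1 - mc) * Gc + lin e ^ (d + 1 - me) * (lin e * Ge)) : False := by
  obtain ⟨ε, hε0, hε1, hεab⟩ : ∃ ε : ℕ, (ma + mb ≤ d → ε = 0) ∧ (ma + mb = d + 1 → ε = 1) ∧
      (ε = 0 ∨ eval q (xl a b) ≠ 0) := by
    rcases hab with h1 | ⟨h1, h2⟩
    · exact ⟨0, fun _ => rfl, fun h' => by omega, Or.inl rfl⟩
    · exact ⟨1, fun h' => by omega, fun _ => rfl, Or.inr h2⟩
  have hcase : (ma + mb ≤ d ∧ ε = 0) ∨ (ma + mb = d + 1 ∧ ε = 1) := by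
    rcases hab with h1 | ⟨h1, h2⟩
    · exact Or.inl ⟨h1, hε0 h1⟩
    · exact Or.inr ⟨h1, hε1 h1⟩
  obtain ⟨α, β, γ, δ, h1, h2, h3, h4, h5, h6⟩ : ∃ α β γ δ : ℕ,
      ε + α + β + γ + δ = d ∧ γ + δ < d + 1 - ma ∧ α + β < d + 1 - mb ∧
      ε + β + δ < d + 1 - mc ∧ (me ≠ 0 → ε + α + γ < d + 1 - me + 1) ∧ True := by
    rcases hcase with ⟨h7, h8⟩ | ⟨h7, h8⟩
    · subst h8
      rcases le_total ma mc with h9 | h9
      · exact ⟨ma, 0, mc - ma, d - mc, by omega, by omega, by omega, by omega, by omega, trivial⟩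
      · exact ⟨mc, ma - mc, 0, d - ma, by omega, by omega, by omega, by omega, by omega, trivial⟩
    · subst h8
      rcases le_total (ma - 1) mc with h9 | h9
      · exact ⟨ma - 1, 0, mc - (ma - 1), d - 1 - mc, by omega, by omega, by omega, by omega,
          by omega, trivial⟩
      · exact ⟨mc, ma - 1 - mc, 0, d - 1 - (ma - 1), by omega, by omega, by omega, by omega,
          by omega, trivial⟩
  set f : R3 := xl a b ^ ε * xl a c ^ α * xl a e ^ β * xl b c ^ γ * xl b e ^ δ with hf
  have hfhom : f.IsHomogeneous d := by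
    have := ((((xl_pow_isHomogeneous a b ε).mul (xl_pow_isHomogeneous a c α)).mul
      (xl_pow_isHomogeneous a e β)).mul (xl_pow_isHomogeneous b c γ)).mul
      (xl_pow_isHomogeneous b e δ)
    rwa [h1] at this
  have hA : B (lin a ^ (d + 1 - ma) * Ga) f = 0 := by
    have e1 : f = (xl a b ^ ε * xl a c ^ α * xl a e ^ β) * (xl b c ^ γ * xl b e ^ δ) := by
      rw [hf]; ring
    rw [e1]
    exact B_eq_zero_of_factor (dir_mul_zero (dir_mul_zero (dir_pow_zero (dir_xl_left a b) _)
      (dir_pow_zero (dir_xl_left a c) _)) (dir_pow_zero (dir_xl_left a e) _))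
      ((xl_pow_isHomogeneous b c γ).mul (xl_pow_isHomogeneous b e δ)) h2 _
  have hB : B (lin b ^ (d + 1 - mb) * Gb) f = 0 := by
    have e1 : f = (xl a b ^ ε * xl b c ^ γ * xl b e ^ δ) * (xl a c ^ α * xl a e ^ β) := by
      rw [hf]; ring
    rw [e1]
    exact B_eq_zero_of_factor (dir_mul_zero (dir_mul_zero (dir_pow_zero (dir_xl_right a b) _)
      (dir_pow_zero (dir_xl_left b c) _)) (dir_pow_zero (dir_xl_left b e) _))
      ((xl_pow_isHomogeneous a c α).mul (xl_pow_isHomogeneous a e β)) h3 _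
  have hC : B (lin c ^ (d + 1 - mc) * Gc) f = 0 := by
    have e1 : f = (xl a c ^ α * xl b c ^ γ) * (xl a b ^ ε * xl a e ^ β * xl b e ^ δ) := by
      rw [hf]; ring
    rw [e1]
    exact B_eq_zero_of_factor (dir_mul_zero (dir_pow_zero (dir_xl_right a c) _)
      (dir_pow_zero (dir_xl_right b c) _))
      (((xl_pow_isHomogeneous a b ε).mul (xl_pow_isHomogeneous a e β)).mul
        (xl_pow_isHomogeneous b e δ)) h4 _
  have hE : B (lin e ^ (d + 1 - me) * (lin e * Ge)) f = 0 := by
    by_cases hme : me = 0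
    · rw [hGe hme, mul_zero, mul_zero, map_zero, LinearMap.zero_apply]
    · have e1 : f = (xl a e ^ β * xl b e ^ δ) * (xl a b ^ ε * xl a c ^ α * xl b c ^ γ) := by
        rw [hf]; ring
      rw [e1, ← mul_assoc, ← pow_succ]
      exact B_eq_zero_of_factor (dir_mul_zero (dir_pow_zero (dir_xl_right a e) _)
        (dir_pow_zero (dir_xl_right b e) _))
        (((xl_pow_isHomogeneous a b ε).mul (xl_pow_isHomogeneous a c α)).mul
          (xl_pow_isHomogeneous b c γ)) (h5 hme) _
  have hQ := B_lin_pow hfhom q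
  rw [h, map_add, map_add, map_add, LinearMap.add_apply, LinearMap.add_apply,
    LinearMap.add_apply, hA, hB, hC, hE, add_zero, add_zero, add_zero] at hQ
  have h7 : (d.factorial : ℂ) ≠ 0 := by exact_mod_cast Nat.factorial_ne_zero d
  have h8 := (mul_eq_zero.mp hQ.symm).resolve_left h7
  rw [hf] at h8
  simp only [map_mul, map_pow, mul_eq_zero] at h8
  have hab' : eval q (xl a b) ^ ε ≠ 0 := by
    rcases hεab with h9 | h9
    · rw [h9, pow_zero]; exact one_ne_zero
    · exact pow_ne_zero _ h9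
  rcases h8 with (((h9 | h9) | h9) | h9) | h9
  · exact hab' h9
  · exact pow_ne_zero _ hac h9
  · exact pow_ne_zero _ hae h9
  · exact pow_ne_zero _ hbc h9
  · exact pow_ne_zero _ hbe h9

/-- test form for a direction at a base point -/
theorem test_dir {d m mb mc α β : ℕ} {a b c u : V3} (hαβ : α + β = m) (hm : m ≤ d)
    (hbc : eval a (xl b c) ≠ 0) (hα : α = 0 ∨ eval u (xl a b) ≠ 0)
    (hβ : β = 0 ∨ eval u (xl a c) ≠ 0) (hb : β < d + 1 - mb) (hc : α < d + 1 - mc)
    {Ga Gb Gc : R3}
    (h : lin a ^ (d - m) * lin u ^ m = lin a ^ (d + 1 - m) * Ga + lin b ^ (d + 1 - mb) * Gb +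
      lin c ^ (d + 1 - mc) * Gc) : False := by
  set f : R3 := xl b c ^ (d - m) * (xl a b ^ α * xl a c ^ β) with hf
  have hA : B (lin a ^ (d + 1 - m) * Ga) f = 0 := by
    have e1 : f = (xl a b ^ α * xl a c ^ β) * xl b c ^ (d - m) := by rw [hf]; ring
    rw [e1]
    exact B_eq_zero_of_factor (dir_mul_zero (dir_pow_zero (dir_xl_left a b) _)
      (dir_pow_zero (dir_xl_left a c) _)) (xl_pow_isHomogeneous b c _) (by omega) _
  have hB : B (lin b ^ (d + 1 - mb) * Gb) f = 0 := by
    have e1 : f = (xl b c ^ (d - m) * xl a b ^ α) * xl a c ^ β := by rw [hf]; ring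
    rw [e1]
    exact B_eq_zero_of_factor (dir_mul_zero (dir_pow_zero (dir_xl_left b c) _)
      (dir_pow_zero (dir_xl_right a b) _)) (xl_pow_isHomogeneous a c _) hb _
  have hC : B (lin c ^ (d + 1 - mc) * Gc) f = 0 := by
    have e1 : f = (xl b c ^ (d - m) * xl a c ^ β) * xl a b ^ α := by rw [hf]; ring
    rw [e1]
    exact B_eq_zero_of_factor (dir_mul_zero (dir_pow_zero (dir_xl_right b c) _)
      (dir_pow_zero (dir_xl_right a c) _)) (xl_pow_isHomogeneous a b _) hc _
  have h1 : B (lin a ^ (d - m) * lin u ^ m) f = 0 := by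
    rw [h, map_add, map_add, LinearMap.add_apply, LinearMap.add_apply, hA, hB, hC, add_zero,
      add_zero]
  rw [B_lin_pow_mul, hf, dir_iterate_mul' (dir_mul_zero (dir_pow_zero (dir_xl_left a b) _)
      (dir_pow_zero (dir_xl_left a c) _))] at h1
  have h2 : (dir a)^[d - m] (xl b c ^ (d - m)) =
      C (((d - m).descFactorial (d - m) : ℂ) * eval a (xl b c) ^ (d - m)) := by
    have := dir_iterate_pow (a := a) (v := cr b c) (d - m) (d - m) le_rfl
    rw [Nat.sub_self, pow_zero, mul_one] at this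
    exact this
  have h3 : (xl a b ^ α * xl a c ^ β).IsHomogeneous m := by
    rw [← hαβ]
    exact (xl_pow_isHomogeneous a b α).mul (xl_pow_isHomogeneous a c β)
  rw [h2, B_C_mul_right, B_lin_pow h3, map_mul, map_pow, map_pow] at h1
  have h4 : (m.factorial : ℂ) ≠ 0 := by exact_mod_cast Nat.factorial_ne_zero m
  have h5 : ((d - m).descFactorial (d - m) : ℂ) ≠ 0 := by
    rw [Nat.descFactorial_self]
    exact_mod_cast Nat.factorial_ne_zero _
  have h6 : eval u (xl a b) ^ α ≠ 0 := by
    rcases hα with h | h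
    · rw [h, pow_zero]; exact one_ne_zero
    · exact pow_ne_zero _ h
  have h7 : eval u (xl a c) ^ β ≠ 0 := by
    rcases hβ with h | h
    · rw [h, pow_zero]; exact one_ne_zero
    · exact pow_ne_zero _ h
  exact (mul_ne_zero (mul_ne_zero h5 (pow_ne_zero _ hbc)) (mul_ne_zero h4 (mul_ne_zero h6 h7))) h1

theorem span_of_det {a b c w : V3} (hdet : eval a (xl b c) ≠ 0) :
    ∃ x y z : ℂ, w = x • cr b c + y • cr a c + z • cr a b := by
  rw [eval_xl] at hdet
  set Δ := (b 1 * c 2 - b 2 * c 1) * a 0 + (b 2 * c 0 - b 0 * c 2) * a 1 +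
    (b 0 * c 1 - b 1 * c 0) * a 2 with hΔ
  refine ⟨(w 0 * a 0 + w 1 * a 1 + w 2 * a 2) / Δ, -(w 0 * b 0 + w 1 * b 1 + w 2 * b 2) / Δ,
    (w 0 * c 0 + w 1 * c 1 + w 2 * c 2) / Δ, ?_⟩
  ext l
  simp only [Pi.add_apply, Pi.smul_apply, smul_eq_mul]
  rw [div_mul_eq_mul_div, div_mul_eq_mul_div, div_mul_eq_mul_div, ← add_div, ← add_div,
    eq_div_iff hdet, hΔ]
  fin_cases l <;> simp [cr] <;> ring

theorem eq_zero_of_test {a b c : V3} (hdet : eval a (xl b c) ≠ 0) (n : ℕ) :
    ∀ G : R3, G.IsHomogeneous n →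
      (∀ α β γ : ℕ, α + β + γ = n → B G (xl b c ^ α * (xl a c ^ β * xl a b ^ γ)) = 0) →
      G = 0 := by
  induction n with
  | zero =>
    intro G hG h
    have h0 : G = C (coeff 0 G) :=
      (MvPolynomial.totalDegree_eq_zero_iff_eq_C).mp (Nat.le_zero.mp hG.totalDegree_le)
    have h1 := h 0 0 0 rfl
    rw [h0, pow_zero, pow_zero, pow_zero, mul_one, mul_one] at h1
    have h2 : B (C (coeff 0 G)) 1 = coeff 0 G := by
      rw [B_symm, B_one_C]
    rw [h2] at h1
    rw [h0, h1, C_0]
  | succ n ih =>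
    intro G hG h
    have hswap : ∀ (v : V3) (f : R3), B (dir v G) f = B G (lin v * f) := by
      intro v f
      rw [B_symm, ← B_lin_mul, B_symm]
    have h1 : dir (cr b c) G = 0 := by
      apply ih _ (by simpa using dir_isHomogeneous (cr b c) hG)
      intro α β γ hs
      rw [hswap]
      have := h (α + 1) β γ (by omega)
      rw [pow_succ', mul_assoc] at this
      exact this
    have h2 : dir (cr a c) G = 0 := by
      apply ih _ (by simpa using dir_isHomogeneous (cr a c) hG)
      intro α β γ hs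
      rw [hswap]
      have h' := h α (β + 1) γ (by omega)
      have e : xl b c ^ α * (xl a c ^ (β + 1) * xl a b ^ γ) =
        lin (cr a c) * (xl b c ^ α * (xl a c ^ β * xl a b ^ γ)) := by
        rw [pow_succ']
        change _ = xl a c * _
        ring
      rwa [e] at h'
    have h3 : dir (cr a b) G = 0 := by
      apply ih _ (by simpa using dir_isHomogeneous (cr a b) hG)
      intro α β γ hs
      rw [hswap]
      have h' := h α β (γ + 1) (by omega)
      have e : xl b c ^ α * (xl a c ^ β * xl a b ^ (γ + 1)) =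
        lin (cr a b) * (xl b c ^ α * (xl a c ^ β * xl a b ^ γ)) := by
        rw [pow_succ']
        change _ = xl a b * _
        ring
      rwa [e] at h'
    apply MvPolynomial.funext
    intro y
    rw [map_zero]
    obtain ⟨s, t, r, hy⟩ := span_of_det (w := y) hdet
    have h4 : dir y G = 0 := by
      have : dir y G = C s * dir (cr b c) G + C t * dir (cr a c) G + C r * dir (cr a b) G := by
        rw [hy]
        simp only [dir_apply, Fin.sum_univ_three, Pi.add_apply, Pi.smul_apply, smul_eq_mul,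
          map_add, map_mul]
        ring
      rw [this, h1, h2, h3, mul_zero, mul_zero, mul_zero, add_zero, add_zero]
    have h5 := eval_dir_self hG y
    rw [h4, map_zero] at h5
    exact (mul_eq_zero.mp h5.symm).resolve_left (by exact_mod_cast Nat.succ_ne_zero n)

/-- independence of the conditions at three points -/
theorem three_points {d ma mb mc : ℕ} {a b c : V3} (hdet : eval a (xl b c) ≠ 0)
    (hma : ma ≤ d) (hab : ma + mb ≤ d + 1) (hac : ma + mc ≤ d + 1)
    {Ga Gb Gc : R3} (hGa : Ga ∈ Hm ma)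
    (h : lin a ^ (d + 1 - ma) * Ga + lin b ^ (d + 1 - mb) * Gb +
      lin c ^ (d + 1 - mc) * Gc = 0) : Ga = 0 := by
  cases ma with
  | zero => exact mem_Hm_zero.mp hGa
  | succ n =>
    rw [mem_Hm_succ] at hGa
    apply eq_zero_of_test hdet n Ga hGa
    intro α β γ hs
    set A := d + 1 - (n + 1) with hA
    set f : R3 := xl b c ^ (A + α) * (xl a c ^ β * xl a b ^ γ) with hf
    have hB : B (lin b ^ (d + 1 - mb) * Gb) f = 0 := by
      have e1 : f = (xl b c ^ (A + α) * xl a b ^ γ) * xl a c ^ β := by rw [hf]; ring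
      rw [e1]
      exact B_eq_zero_of_factor (dir_mul_zero (dir_pow_zero (dir_xl_left b c) _)
        (dir_pow_zero (dir_xl_right a b) _)) (xl_pow_isHomogeneous a c _) (by omega) _
    have hC : B (lin c ^ (d + 1 - mc) * Gc) f = 0 := by
      have e1 : f = (xl b c ^ (A + α) * xl a c ^ β) * xl a b ^ γ := by rw [hf]; ring
      rw [e1]
      exact B_eq_zero_of_factor (dir_mul_zero (dir_pow_zero (dir_xl_right b c) _)
        (dir_pow_zero (dir_xl_right a c) _)) (xl_pow_isHomogeneous a b _) (by omega) _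
    have h1 : B (lin a ^ A * Ga) f = 0 := by
      have := congrArg (fun z => B z f) h
      simp only [map_add, LinearMap.add_apply, hB, hC, add_zero, map_zero,
        LinearMap.zero_apply] at this
      exact this
    have h2 : (dir a)^[A] (xl b c ^ (A + α)) =
        C (((A + α).descFactorial A : ℂ) * eval a (xl b c) ^ A) * xl b c ^ α := by
      have := dir_iterate_pow (a := a) (v := cr b c) A (A + α) (Nat.le_add_right _ _)
      rw [Nat.add_sub_cancel_left] at this
      exact this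
    rw [B_lin_pow_mul, hf, dir_iterate_mul' (dir_mul_zero (dir_pow_zero (dir_xl_left a c) _)
      (dir_pow_zero (dir_xl_left a b) _)), h2, mul_assoc, B_C_mul_right] at h1
    have h3 : ((A + α).descFactorial A : ℂ) ≠ 0 := by
      rw [Nat.cast_ne_zero]
      intro h0
      rw [Nat.descFactorial_eq_zero_iff_lt] at h0
      omega
    exact (mul_eq_zero.mp h1).resolve_left (mul_ne_zero h3 (pow_ne_zero _ hdet))

end Pool.Agent.Work.MP_0421d9_ag
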