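import Pool.Agent.Work.MP_0421d9_ag.URect
import Pool.Agent.Work.MP_0421d9_ag.UWin

/-!
Exact dimensions on `P¹ × P¹`.
-/

namespace Pool.Agent.Work.MP_0421d9_ag.LD

open MvPolynomial Module

theorem rect_exact {H L k α β N : ℕ} (hk : 1 ≤ k) (hH : 2 * k + 1 ≤ H) (hL2 : 2 ≤ L)
    (hL : L = α * k + β * (k + 1)) (hN : 2 * (α + β) ≤ N)
    (h1 : 2 * (H - k - 1).choose 2 ≤ α * k) (h2 : (H - k - 2).choose 2 ≤ β * (k + 1)) :
    hR H L k N ≤ H * L - N * (k + 1).choose 2 := by
  obtain ⟨n, rfl⟩ : ∃ n, N = n + 2 * (α + β) := ⟨N - 2 * (α + β), by omega⟩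
  have hs := rect_strip (N := n) hk (by omega : k + 1 ≤ H) hL2 hL
  obtain ⟨x, rfl⟩ : ∃ x, H = x + k + 1 := ⟨H - k - 1, by omega⟩
  have g1 : x + k + 1 - k = x + 1 := by omega
  have g2 : x + 1 - 1 = x := by omega
  have g3 : x + k + 1 - k - 2 = x - 1 := by omega
  rw [g1] at hs h1
  rw [g2] at hs h1
  rw [g3] at h2
  have hμ := two_mul_choose k
  have hLk : L * k + (α * k) = 2 * (α + β) * (k + 1).choose 2 := by
    have : 2 * (α + β) * (k + 1).choose 2 = (α + β) * (k * (k + 1)) := by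
      rw [← hμ]; ring
    rw [this, hL]
    ring
  have w1 : hR (x + 1) L k n ≠ 0 → hR (x + 1) L k n + n * (k + 1).choose 2 ≤
      (x + 1) * L + x.choose 2 := fun h => by
    have := rect_window1 (by omega : k ≤ x + 1) h
    rwa [g2] at this
  have w2 : n * (k + 1).choose 2 + x.choose 2 ≤ (x + 1) * L →
      hR (x + 1) L k n + n * (k + 1).choose 2 = (x + 1) * L := fun h => by
    apply rect_window2 (by omega : k ≤ x + 1)
    rwa [g2]
  have w3 : hR x L k n ≠ 0 → hR x L k n + n * (k + 1).choose 2 ≤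
      x * L + (x - 1).choose 2 := fun h => rect_window1 (by omega : k ≤ x) h
  have e1 : (x + k + 1) * L = x * L + L * k + L := by ring
  have e2 : (x + 1) * L = x * L + L := by ring
  have e3 : (n + 2 * (α + β)) * (k + 1).choose 2 =
      n * (k + 1).choose 2 + 2 * (α + β) * (k + 1).choose 2 := by ring
  rw [e1, e3, ← hLk]
  rw [e2] at w1 w2
  generalize n * (k + 1).choose 2 = nμ at *
  generalize x * L = xL at *
  generalize L * k = Lk at *
  generalize hαk : α * k = αk at *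
  generalize hβk : β * (k + 1) = βk at *
  generalize x.choose 2 = c1 at *
  generalize (x - 1).choose 2 = c2 at *
  refine hs.trans (max_le ?_ ?_)
  · by_cases h3 : nμ + c1 ≤ xL + L
    · have h4 := w2 h3
      omega
    · by_cases h4 : hR (x + 1) L k n = 0
      · omega
      · have h5 := w1 h4
        omega
  · by_cases h4 : hR x L k n = 0
    · omega
    · have h5 := w3 h4
      omega

/-- exactness in the range which is needed -/
theorem rect_exact' {H m k t : ℕ} (hk : 1 ≤ k) (hm : 7 * (k * (k + 1)) ≤ m)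
    (ht : m + k + 1 ≤ t * k) (hH : 2 * k + 1 ≤ H) (hH' : H ≤ 3 * k + 3) :
    hR H (m + k + 1) k (2 * t + 1) ≤ H * (m + k + 1) - (2 * t + 1) * (k + 1).choose 2 := by
  have hρ : (m + k + 1) % k < k := Nat.mod_lt _ hk
  obtain ⟨q, hq⟩ : ∃ q, m + k + 1 = k * q + (m + k + 1) % k :=
    ⟨(m + k + 1) / k, (Nat.div_add_mod _ _).symm⟩
  generalize hρ' : (m + k + 1) % k = ρ at *
  -- `β = 2 k + ρ`, `L - β (k + 1) = k (q - 2 (k + 1) - ρ)`
  have h1 : 2 * (k + 1) + ρ ≤ q := by
    by_contra hcon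
    have h2 : k * q ≤ k * (2 * (k + 1) + ρ) := Nat.mul_le_mul_left k (by omega)
    have h3 : k * ρ ≤ k * k := Nat.mul_le_mul_left k hρ.le
    nlinarith
  obtain ⟨a, rfl⟩ : ∃ a, q = a + (2 * (k + 1) + ρ) := ⟨q - (2 * (k + 1) + ρ), by omega⟩
  have hL : m + k + 1 = a * k + (2 * k + ρ) * (k + 1) := by
    rw [hq]; ring
  have hρk : ρ * (k + 1) + (k + 1) ≤ k * (k + 1) := by
    have : (ρ + 1) * (k + 1) ≤ k * (k + 1) := Nat.mul_le_mul_right _ hρ
    nlinarith
  have hak : 4 * (k * k) + 6 * k + 2 ≤ a * k := by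
    nlinarith
  refine rect_exact (α := a) (β := 2 * k + ρ) hk hH (by omega) hL ?_ ?_ ?_
  · have h3 : (a + (2 * k + ρ)) * k ≤ t * k := by
      have : (a + (2 * k + ρ)) * k + (2 * k + ρ) = m + k + 1 := by rw [hL]; ring
      omega
    have h4 := Nat.le_of_mul_le_mul_right h3 hk
    omega
  · have h3 : (H - k - 1).choose 2 ≤ (2 * k + 1 + 1).choose 2 :=
      Nat.choose_le_choose 2 (by omega)
    have h4 := two_mul_choose (2 * k + 1)
    have h5 : (2 * k + 1) * (2 * k + 1 + 1) = 4 * (k * k) + 6 * k + 2 := by ring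
    omega
  · have h3 : (H - k - 2).choose 2 ≤ (2 * k + 1).choose 2 :=
      Nat.choose_le_choose 2 (by omega)
    have h4 := two_mul_choose (2 * k)
    have h5 : 2 * k * (2 * k + 1) + 2 * k ≤ 2 * ((2 * k + ρ) * (k + 1)) := by nlinarith
    omega

/-- one more simple point -/
theorem ux_simple_drop {D N : ℕ} {T : Set (Fin 3 →₀ ℕ)} : hT D T 1 (N + 1) ≤ hT D T 1 N - 1 := by
  have hle : ∀ (a : V3) (p' : Fin (N + 1) → V3), (∀ i : Fin N, p' i.castSucc = gpt N i) →
      TS D T 1 p' ≤ TS D T 1 (gpt N) := by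
    intro a p' hp' F hF
    rw [mem_TS] at hF ⊢
    refine ⟨hF.1, fun i => ?_, hF.2.2⟩
    rw [← hp' i]
    exact hF.2.1 _
  by_cases h0 : hT D T 1 N = 0
  · rw [h0]
    have h1 := hT_le (D := D) (m := 1) (T := T) (Fin.snoc (gpt N) 0 : Fin (N + 1) → V3)
    have h2 := Submodule.finrank_mono (hle 0 (Fin.snoc (gpt N) 0 : Fin (N + 1) → V3)
      (fun i => by rw [Fin.snoc_castSucc]))
    have h3 : finrank ℂ (TS D T 1 (gpt N)) = 0 := h0
    omega
  · have h1 : TS D T 1 (gpt N) ≠ ⊥ := by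
      intro h2
      apply h0
      unfold hT
      rw [h2, finrank_bot]
    obtain ⟨F, hF, hF0⟩ := Submodule.exists_mem_ne_zero_of_ne_bot h1
    obtain ⟨a, ha⟩ : ∃ a : V3, eval a F ≠ 0 := by
      by_contra hcon
      push Not at hcon
      apply hF0
      apply MvPolynomial.funext
      intro y
      rw [hcon y, map_zero]
    have h2 := hT_le (D := D) (m := 1) (T := T) (Fin.snoc (gpt N) a : Fin (N + 1) → V3)
    have h3 : TS D T 1 (Fin.snoc (gpt N) a : Fin (N + 1) → V3) < TS D T 1 (gpt N) := by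
      refine lt_of_le_of_ne (hle a _ (fun i => by rw [Fin.snoc_castSucc])) ?_
      intro h4
      rw [← h4, mem_TS] at hF
      have h5 := hF.2.1 (Fin.last N)
      rw [Fin.snoc_last] at h5
      exact ha (vanishTo_one_iff.mp h5)
    have h4 := Submodule.finrank_lt_finrank_of_lt h3
    have h5 : finrank ℂ (TS D T 1 (gpt N)) = hT D T 1 N := rfl
    omega

/-- simple points -/
theorem rect_simple (H L N : ℕ) : hR H L 1 N = H * L - N := by
  induction N with
  | zero =>
    rw [hR_no_points]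
    rfl
  | succ N ih =>
    have h1 := hR_count H L 1 (N + 1)
    have h2 : (1 + 1).choose 2 = 1 := rfl
    rw [h2] at h1
    have h3 : hR H L 1 (N + 1) ≤ hR H L 1 N - 1 := ux_simple_drop
    omega

theorem rect_pack' {H m k t : ℕ} (hk : 1 ≤ k) (hm : k * k ≤ m)
    (h : (k + 1) * ((2 * t + 1) * k + 2 * (m + 2)) ≤ 2 * (m + 2) * H) :
    hR H (m + k + 1) k (2 * t + 1) + (2 * t + 1) * (k + 1).choose 2 = H * (m + k + 1) := by
  have hρ : (m + k + 1) % k < k := Nat.mod_lt _ hk
  obtain ⟨q, hq⟩ : ∃ q, m + k + 1 = k * q + (m + k + 1) % k :=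
    ⟨(m + k + 1) / k, (Nat.div_add_mod _ _).symm⟩
  generalize hρ' : (m + k + 1) % k = ρ at *
  have h1 : ρ ≤ q := by
    by_contra hcon
    have h2 : k * q ≤ k * ρ := Nat.mul_le_mul_left k (by omega)
    have h3 : k * ρ ≤ k * (k - 1) := Nat.mul_le_mul_left k (by omega)
    have h4 : k * (k - 1) + k = k * k := by
      obtain ⟨y, rfl⟩ : ∃ y, k = y + 1 := ⟨k - 1, by omega⟩
      rw [Nat.add_sub_cancel]; ring
    omega
  obtain ⟨a, rfl⟩ : ∃ a, q = a + ρ := ⟨q - ρ, by omega⟩
  have hL : m + k + 1 = a * k + ρ * (k + 1) := by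
    rw [hq]; ring
  have hab : (a + ρ) * k + ρ = m + k + 1 := by rw [hL]; ring
  have hab' : m + 2 ≤ (a + ρ) * k := by omega
  have hpos : 0 < 2 * (a + ρ) := by
    rcases Nat.eq_zero_or_pos (a + ρ) with h0 | h0
    · rw [h0] at hab'
      omega
    · omega
  refine rect_pack (α := a) (β := ρ) (u := (2 * t + 1) / (2 * (a + ρ)) + 1) hk (by omega) hL ?_ ?_
  · have h2 : (2 * t + 1) / (2 * (a + ρ)) * (2 * (a + ρ)) ≤ 2 * t + 1 := Nat.div_mul_le_self _ _
    generalize (2 * t + 1) / (2 * (a + ρ)) = v at *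
    have h3 : v * (2 * (m + 2)) ≤ (2 * t + 1) * k := by
      calc v * (2 * (m + 2)) ≤ v * (2 * ((a + ρ) * k)) :=
            Nat.mul_le_mul_left v (Nat.mul_le_mul_left 2 hab')
        _ = v * (2 * (a + ρ)) * k := by ring
        _ ≤ (2 * t + 1) * k := Nat.mul_le_mul_right k h2
    have h4 : 2 * (m + 2) * ((k + 1) * (v + 1)) ≤ 2 * (m + 2) * H := by
      calc 2 * (m + 2) * ((k + 1) * (v + 1)) = (k + 1) * (v * (2 * (m + 2)) + 2 * (m + 2)) := by ring
        _ ≤ (k + 1) * ((2 * t + 1) * k + 2 * (m + 2)) :=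
            Nat.mul_le_mul_left _ (Nat.add_le_add_right h3 _)
        _ ≤ 2 * (m + 2) * H := h
    exact Nat.le_of_mul_le_mul_left h4 (by omega)
  · exact (Nat.lt_mul_div_succ (2 * t + 1) hpos).le

theorem rect_regular_mono {H H' L k N : ℕ} (hH : H ≤ H')
    (h : hR H L k N + N * (k + 1).choose 2 = H * L) :
    hR H' L k N + N * (k + 1).choose 2 = H' * L := by
  induction H', hH using Nat.le_induction with
  | base => exact h
  | succ n hn ih =>
    have h1 := hR_succ_le n L k N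
    have h2 := hR_count (n + 1) L k N
    have h3 : (n + 1) * L = n * L + L := by ring
    rw [h3] at h2 ⊢
    omega

theorem rect_empty_mono {H H' L k N : ℕ} (hH : H ≤ H') (h : hR H' L k N = 0) :
    hR H L k N = 0 := by
  induction H', hH using Nat.le_induction with
  | base => exact h
  | succ n hn ih =>
    have h1 := hR_le_succ n L k N
    exact ih (by omega)

end Pool.Agent.Work.MP_0421d9_ag.LD
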