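import Pool.Agent.Work.MP_0421d9_ag.UMove

/-!
Systems of equal multiplicities with many points: the numerical part, and the theorem.
-/

namespace Pool.Agent.Work.MP_0421d9_ag.LD

open MvPolynomial Module

theorem choose_two_mul_two (n : ℕ) : 2 * (n + 1).choose 2 = n * (n + 1) := two_mul_choose n

/-- the condition on the number of points of a strip -/
theorem window_cond {m D t ρ : ℕ} (hm : 45 ≤ m) (hD : D + ρ = m + t * m) (hρ : ρ ≤ 3 * m)
    (ht : 121 * m ≤ t * t) :
    (2 * t + 1 + m) * (m + 1).choose 2 + m.choose 2 ≤ (D + 2).choose 2 := by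
  have h1 := two_mul_choose m
  have h2 := two_mul_choose' (m := m) (by omega)
  have h3 := two_mul_choose_two D
  have ht73 : 73 ≤ t := by
    by_contra hcon
    have h4 : t ≤ 72 := by omega
    have h5 : t * t ≤ 72 * 72 := Nat.mul_le_mul h4 h4
    omega
  obtain ⟨s, rfl⟩ : ∃ s, t = s + 2 := ⟨t - 2, by omega⟩
  have hs : 71 ≤ s := by omega
  have hD' : s * m ≤ D := by
    have e1 : (s + 2) * m = s * m + 2 * m := by ring
    omega
  have h4 : s * m * (s * m) ≤ D * D := Nat.mul_le_mul hD' hD'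
  have h5 : (2 * (s + 2) + 1 + m) * (m * (m + 1)) + m * m ≤ s * m * (s * m) := by
    -- `(2 s + 5 + m) (m + 1) + m ≤ s ^ 2 m`
    have h6 : (2 * (s + 2) + 1 + m) * (m + 1) + m ≤ s * s * m := by
      nlinarith [mul_le_mul hs hs (by norm_num) (by omega : 0 ≤ s),
        Nat.mul_le_mul_right m hs, Nat.mul_le_mul_left s hs]
    calc (2 * (s + 2) + 1 + m) * (m * (m + 1)) + m * m
        = m * ((2 * (s + 2) + 1 + m) * (m + 1) + m) := by ring
      _ ≤ m * (s * s * m) := Nat.mul_le_mul_left _ h6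
      _ = s * m * (s * m) := by ring
  have h7 : 2 * ((2 * (s + 2) + 1 + m) * (m + 1).choose 2 + m.choose 2) ≤
      2 * (D + 2).choose 2 := by
    rw [h3]
    calc 2 * ((2 * (s + 2) + 1 + m) * (m + 1).choose 2 + m.choose 2)
        = (2 * (s + 2) + 1 + m) * (2 * (m + 1).choose 2) + 2 * m.choose 2 := by ring
      _ ≤ (2 * (s + 2) + 1 + m) * (m * (m + 1)) + m * m := by
          rw [h1]
          omega
      _ ≤ s * m * (s * m) := h5
      _ ≤ D * D := h4
      _ ≤ (D + 1) * (D + 2) := by nlinarith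
  omega

theorem tau_small {m t τ : ℕ} (hm : 45 ≤ m) (hτ' : (τ - 1) * (τ - 1) ≤ 3 * m)
    (ht : 121 * m ≤ t * t) : 4 * τ + 3 ≤ t := by
  by_contra hcon
  rcases Nat.eq_zero_or_pos τ with h0 | h0
  · subst h0
    have h5 : t * t ≤ 2 * 2 := Nat.mul_le_mul (by omega) (by omega)
    omega
  obtain ⟨s, rfl⟩ : ∃ s, τ = s + 1 := ⟨τ - 1, by omega⟩
  rw [Nat.add_sub_cancel] at hτ'
  have h1 : t ≤ 4 * s + 6 := by omega
  have h2 : t * t ≤ (4 * s + 6) * (4 * s + 6) := Nat.mul_le_mul h1 h1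
  nlinarith

/-- induction along the strips -/
theorem move {m τ Te : ℕ} (hm : 45 ≤ m) (hτ : 3 * m ≤ τ * τ) (hτ' : (τ - 1) * (τ - 1) ≤ 3 * m)
    (hTe : 121 * m ≤ Te * Te) : ∀ t ρ D : ℕ, D + ρ = m + t * m → 2 * m ≤ ρ + τ →
      ρ + τ ≤ 3 * m + 1 → 3 * m * (Te + 1) ≤ ρ * (t + 1) → Zreg m D := by
  have hτ1 : 1 ≤ τ := by
    rcases Nat.eq_zero_or_pos τ with h0 | h0
    · subst h0; omega
    · exact h0
  intro t
  induction t with
  | zero =>
    intro ρ D hD h1 h2 h3
    exfalso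
    have h4 : 1 ≤ Te := by
      rcases Nat.eq_zero_or_pos Te with h0 | h0
      · subst h0; omega
      · exact h0
    have h5 : 3 * m * 2 ≤ 3 * m * (Te + 1) := Nat.mul_le_mul_left _ (by omega)
    omega
  | succ t ih =>
    intro ρ D hD h1 h2 h3
    have hρ : ρ ≤ 3 * m := by omega
    have hTt : Te ≤ t + 1 := by
      have h4 : 3 * m * (Te + 1) ≤ 3 * m * (t + 1 + 1) :=
        h3.trans (Nat.mul_le_mul_right _ hρ)
      have h5 := Nat.le_of_mul_le_mul_left h4 (by omega)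
      omega
    have ht2 : 121 * m ≤ (t + 1) * (t + 1) := hTe.trans (Nat.mul_le_mul hTt hTt)
    have htau := tau_small hm hτ' ht2
    by_cases hz : 3 * m + 4 + τ ≤ ρ + (t + 1)
    · -- no more moving
      refine zone (t := t - 2) (a := t + 1 + ρ - 3 * m - 4) (b := 3 * m + 1 - ρ) (τ := τ)
        (by omega) ?_ (by omega) (by omega) (by omega) ?_ (by omega)
      · have e1 : (t + 1) * m = (t - 2 + 1) * m + 2 * m := by
          have e2 : t + 1 = (t - 2 + 1) + 2 := by omega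
          conv_lhs => rw [e2]
          ring
        omega
      · nlinarith
    · obtain ⟨k, A, hs, h4, h5⟩ := exists_strip (τ := τ) hm hD hτ hτ' ht2 h1 (by omega)
      have hwin := window_cond hm hD hρ ht2
      obtain ⟨h6, -, -, -⟩ := id hs
      have h7 : 3 * m * (Te + 1) ≤ (ρ + k) * (t + 1) := by
        refine h3.trans ?_
        have e1 : ρ * (t + 1 + 1) = ρ * (t + 1) + ρ := by ring
        have e2 : (ρ + k) * (t + 1) = ρ * (t + 1) + (t + 1) * k := by ring
        omega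
      have e1 : (t + 1) * m = m + t * m := by ring
      refine Zreg_of_strip (by omega) hs (ih (ρ + k) _ ?_ ?_ ?_ h7)
        (ih (ρ + k + 1) _ ?_ ?_ ?_ ?_) hwin
      · omega
      · omega
      · omega
      · omega
      · omega
      · omega
      · refine h7.trans (Nat.mul_le_mul_right _ (by omega))

/-- the numerical condition at the start -/
theorem start_cond {m D τ Te : ℕ} (hm : 45 ≤ m) (hτ' : (τ - 1) * (τ - 1) ≤ 3 * m)
    (hTe : (Te - 1) * (Te - 1) ≤ 121 * m) (hD : 399 * m * (m + 1).choose 2 ≤ (D + 2).choose 2) :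
    (3 * (m : ℝ) * m * (Te + 1)) ≤ (2 * m - τ) * (D + 2 * m - τ) ∧ (τ : ℝ) ≤ 2 * m := by
  set x := Real.sqrt m with hx
  have hx0 : 0 ≤ x := Real.sqrt_nonneg _
  have hx2 : x ^ 2 = m := Real.sq_sqrt (Nat.cast_nonneg _)
  have hmR : (45 : ℝ) ≤ m := by exact_mod_cast hm
  have hx67 : (6.7 : ℝ) ≤ x := by
    by_contra hcon
    push Not at hcon
    nlinarith
  have hτR : (τ : ℝ) ≤ 1.7321 * x + 1 := by
    have h1 : ((τ : ℝ) - 1) ≤ ((τ - 1 : ℕ) : ℝ) := by
      have : (τ : ℝ) ≤ ((τ - 1 : ℕ) : ℝ) + 1 := by exact_mod_cast (by omega : τ ≤ τ - 1 + 1)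
      linarith
    have h2 : ((τ - 1 : ℕ) : ℝ) ^ 2 ≤ 3 * m := by
      have : (((τ - 1) * (τ - 1) : ℕ) : ℝ) ≤ ((3 * m : ℕ) : ℝ) := by exact_mod_cast hτ'
      push_cast at this
      nlinarith
    have h3 : ((τ - 1 : ℕ) : ℝ) ≤ 1.7321 * x := by
      refine (pow_le_pow_iff_left₀ (by positivity) (by positivity) two_ne_zero).mp ?_
      nlinarith
    linarith
  have hTR : (Te : ℝ) ≤ 11 * x + 1 := by
    have h1 : ((Te : ℝ) - 1) ≤ ((Te - 1 : ℕ) : ℝ) := by
      have : (Te : ℝ) ≤ ((Te - 1 : ℕ) : ℝ) + 1 := by exact_mod_cast (by omega : Te ≤ Te - 1 + 1)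
      linarith
    have h2 : ((Te - 1 : ℕ) : ℝ) ^ 2 ≤ 121 * m := by
      have : (((Te - 1) * (Te - 1) : ℕ) : ℝ) ≤ ((121 * m : ℕ) : ℝ) := by exact_mod_cast hTe
      push_cast at this
      nlinarith
    have h3 : ((Te - 1 : ℕ) : ℝ) ≤ 11 * x := by
      refine (pow_le_pow_iff_left₀ (by positivity) (by positivity) two_ne_zero).mp ?_
      nlinarith
    linarith
  have hDR : 19.97 * x ^ 3 ≤ (D : ℝ) + 2 := by
    have h1 := two_mul_choose m
    have h2 := two_mul_choose_two D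
    have h3 : 399 * m * (m * (m + 1)) ≤ (D + 1) * (D + 2) := by
      calc 399 * m * (m * (m + 1)) = 2 * (399 * m * (m + 1).choose 2) := by rw [← h1]; ring
        _ ≤ 2 * (D + 2).choose 2 := Nat.mul_le_mul_left _ hD
        _ = _ := h2
    have h4 : (399 : ℝ) * m * (m * (m + 1)) ≤ (D + 1) * (D + 2) := by exact_mod_cast h3
    have h5 : (0 : ℝ) ≤ D := Nat.cast_nonneg _
    refine (pow_le_pow_iff_left₀ (by positivity) (by positivity) two_ne_zero).mp ?_
    have h6 : (19.97 * x ^ 3) ^ 2 = 398.8009 * (m * (m * m)) := by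
      rw [← hx2]; ring
    rw [h6]
    nlinarith [mul_pos (by linarith : (0:ℝ) < m) (by linarith : (0:ℝ) < m)]
  have h1 : 0 < 2 * (m : ℝ) - τ := by
    rw [← hx2]
    nlinarith
  refine ⟨?_, by linarith⟩
  have h2 : 2 * (m : ℝ) - τ ≥ 2 * x ^ 2 - 1.7321 * x - 1 := by rw [hx2]; linarith
  have h3 : (D : ℝ) + 2 * m - τ ≥ 19.97 * x ^ 3 + 2 * x ^ 2 - 1.7321 * x - 3 := by
    rw [hx2]; linarith
  have h4 : 0 ≤ 2 * x ^ 2 - 1.7321 * x - 1 := by nlinarith
  have h5 : 0 ≤ 19.97 * x ^ 3 + 2 * x ^ 2 - 1.7321 * x - 3 := by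
    nlinarith [pow_pos (by linarith : (0:ℝ) < x) 3]
  have h6 : (2 * x ^ 2 - 1.7321 * x - 1) * (19.97 * x ^ 3 + 2 * x ^ 2 - 1.7321 * x - 3) ≤
      (2 * (m : ℝ) - τ) * (D + 2 * m - τ) := mul_le_mul h2 h3 h5 h1.le
  refine le_trans ?_ h6
  have h7 : 3 * (m : ℝ) * m * (Te + 1) ≤ 3 * x ^ 2 * x ^ 2 * (11 * x + 2) := by
    rw [hx2]
    apply mul_le_mul_of_nonneg_left (by linarith)
    positivity
  refine h7.trans ?_
  obtain ⟨y, hy⟩ : ∃ y, x = 6.7 + y := ⟨x - 6.7, by ring⟩
  have hy0 : 0 ≤ y := by linarith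
  rw [hy]
  nlinarith [pow_nonneg hy0 2, pow_nonneg hy0 3, pow_nonneg hy0 4, pow_nonneg hy0 5]

theorem Zreg_of_large {m D : ℕ} (hm : 45 ≤ m)
    (hD : 399 * m * (m + 1).choose 2 ≤ (D + 2).choose 2) : Zreg m D := by
  obtain ⟨τ, hτ, hτ'⟩ : ∃ τ, 3 * m ≤ τ * τ ∧ (τ - 1) * (τ - 1) ≤ 3 * m := by
    refine ⟨Nat.sqrt (3 * m) + 1, (Nat.lt_succ_sqrt (3 * m)).le, ?_⟩
    rw [Nat.add_sub_cancel]
    exact Nat.sqrt_le (3 * m)
  obtain ⟨Te, hTe, hTe'⟩ : ∃ τ, 121 * m ≤ τ * τ ∧ (τ - 1) * (τ - 1) ≤ 121 * m := by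
    refine ⟨Nat.sqrt (121 * m) + 1, (Nat.lt_succ_sqrt (121 * m)).le, ?_⟩
    rw [Nat.add_sub_cancel]
    exact Nat.sqrt_le (121 * m)
  obtain ⟨h1, h2⟩ := start_cond hm hτ' hTe' hD
  have hτm : τ ≤ m := by
    rcases Nat.eq_zero_or_pos τ with h0 | h0
    · omega
    obtain ⟨s, rfl⟩ : ∃ s, τ = s + 1 := ⟨τ - 1, by omega⟩
    rw [Nat.add_sub_cancel] at hτ'
    by_contra hcon
    have h3 : m * m ≤ s * s := Nat.mul_le_mul (by omega) (by omega)
    nlinarith
  -- the number of columns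
  set t := (D + m - τ + (m - 1)) / m with ht
  have h3 := Nat.div_add_mod (D + m - τ + (m - 1)) m
  have h4 := Nat.mod_lt (D + m - τ + (m - 1)) (by omega : 0 < m)
  rw [← ht] at h3
  have e1 : m * t = t * m := Nat.mul_comm _ _
  have h5 : D ≤ m + t * m := by omega
  refine move hm hτ hτ' hTe t (m + t * m - D) D (by omega) (by omega) (by omega) ?_
  set ρ := m + t * m - D with hρ
  have h6 : (m : ℝ) * (t + 1) = D + ρ := by
    have : m * (t + 1) = D + ρ := by
      rw [hρ]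
      have e2 : m * (t + 1) = m + t * m := by ring
      omega
    exact_mod_cast this
  have h7 : 2 * (m : ℝ) - τ ≤ ρ := by
    have : 2 * m ≤ ρ + τ := by omega
    have h8 : ((2 * m : ℕ) : ℝ) ≤ ((ρ + τ : ℕ) : ℝ) := by exact_mod_cast this
    push_cast at h8
    linarith
  have h8 : (2 * (m : ℝ) - τ) * (D + 2 * m - τ) ≤ ρ * (D + ρ) := by
    have h9 : (0 : ℝ) ≤ D := Nat.cast_nonneg _
    have h10 : (0 : ℝ) ≤ ρ := Nat.cast_nonneg _
    apply mul_le_mul h7 (by linarith) (by linarith) h10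
  have h9 : (m : ℝ) * (3 * m * (Te + 1)) ≤ m * (ρ * (t + 1)) := by
    calc (m : ℝ) * (3 * m * (Te + 1)) = 3 * m * m * (Te + 1) := by ring
      _ ≤ _ := h1
      _ ≤ _ := h8
      _ = m * (ρ * (t + 1)) := by rw [← h6]; ring
  have h10 : (0 : ℝ) < m := by exact_mod_cast (by omega : 0 < m)
  have h11 := le_of_mul_le_mul_left h9 h10
  exact_mod_cast h11

theorem uniform_main {m r d : ℕ} (hr : 400 * m ≤ r) {p : Fin r → V3} (hp : GenericPoints p) :
    finrank ℂ (linSys d p (fun _ => m)) = (d + 2).choose 2 - r * (m + 1).choose 2 := by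
  have hmain : ∀ D, 3 * m ^ 2 ≤ D → hP D m r = (D + 2).choose 2 - r * (m + 1).choose 2 := by
    intro D hD
    have h1 := main hp (m := fun _ => m) (fun _ => le_rfl) hD
    rw [hP_eq hp] at h1
    rw [h1]
    congr 1
    rw [Finset.sum_const, Finset.card_univ, Fintype.card_fin, smul_eq_mul]
  have hmono : ∀ D D', D ≤ D' → hP D m r ≤ hP D' m r := by
    intro D D' h
    induction D', h using Nat.le_induction with
    | base => exact le_rfl
    | succ n _ ih => exact ih.trans (hP_le_succ n m r)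
  -- a degree in which the system is empty
  have key : ∀ D₀, (∀ D, D₀ ≤ D → hP D m r = (D + 2).choose 2 - r * (m + 1).choose 2) →
      (D₀ + 2).choose 2 ≤ r * (m + 1).choose 2 →
      hP d m r = (d + 2).choose 2 - r * (m + 1).choose 2 := by
    intro D₀ h1 h2
    rcases Nat.lt_or_ge d D₀ with h3 | h3
    · have h4 := hmono d D₀ h3.le
      rw [h1 D₀ le_rfl] at h4
      have h5 : (d + 2).choose 2 ≤ (D₀ + 2).choose 2 := Nat.choose_le_choose 2 (by omega)
      omega
    · exact h1 d h3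
  rw [hP_eq hp]
  rcases Nat.lt_or_ge m 45 with hm | hm
  · rcases Nat.eq_zero_or_pos m with h0 | h0
    · subst h0
      exact hmain d (by simp)
    · refine key (3 * m ^ 2) hmain ?_
      have h1 := two_mul_choose m
      have h2 := two_mul_choose_two (3 * m ^ 2)
      have h3 : 400 * m * (m * (m + 1)) ≤ r * (m * (m + 1)) := Nat.mul_le_mul_right _ hr
      have h4 : (3 * m ^ 2 + 1) * (3 * m ^ 2 + 2) ≤ 400 * m * (m * (m + 1)) := by
        have h5 : m * m * (m * m) ≤ 44 * (m * (m * m)) := by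
          calc m * m * (m * m) = m * (m * (m * m)) := by ring
            _ ≤ 44 * (m * (m * m)) := Nat.mul_le_mul_right _ (by omega)
        nlinarith [Nat.mul_le_mul h0 h0, Nat.mul_le_mul (Nat.mul_le_mul h0 h0) h0]
      have h5 : 2 * (3 * m ^ 2 + 2).choose 2 ≤ 2 * (r * (m + 1).choose 2) := by
        rw [h2]
        calc (3 * m ^ 2 + 1) * (3 * m ^ 2 + 2) ≤ 400 * m * (m * (m + 1)) := h4
          _ ≤ r * (m * (m + 1)) := h3
          _ = 2 * (r * (m + 1).choose 2) := by rw [← h1]; ring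
      omega
  · -- the least degree
    have hex : ∃ D, 399 * m * (m + 1).choose 2 ≤ (D + 2).choose 2 := by
      refine ⟨2 * (399 * m * (m + 1).choose 2), ?_⟩
      have h2 := two_mul_choose_two (2 * (399 * m * (m + 1).choose 2))
      nlinarith
    set D₀ := Nat.find hex with hD₀
    have h1 := Nat.find_spec hex
    rw [← hD₀] at h1
    refine key D₀ ?_ ?_
    · intro D hD
      refine Zreg_of_large hm (h1.trans (Nat.choose_le_choose 2 (by omega))) r (by omega)
    · have hμ : 46 * 22 ≤ (m + 1).choose 2 := by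
        have h2 := two_mul_choose m
        nlinarith
      set μ := (m + 1).choose 2 with hμdef
      have h4 : 400 * m * μ ≤ r * μ := Nat.mul_le_mul_right _ hr
      refine le_trans ?_ h4
      rcases Nat.eq_zero_or_pos D₀ with h0 | h0
      · rw [h0]
        have : (0 + 2).choose 2 = 1 := rfl
        rw [this]
        nlinarith
      · have h2 : ¬ 399 * m * μ ≤ (D₀ - 1 + 2).choose 2 := Nat.find_min hex (by omega)
        push Not at h2
        obtain ⟨e, he⟩ : ∃ e, D₀ = e + 1 := ⟨D₀ - 1, by omega⟩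
        rw [he, Nat.add_sub_cancel] at h2
        rw [he]
        have h5 := two_mul_choose_two e
        have h6 := two_mul_choose_two (e + 1)
        have h7 : e + 2 ≤ m * μ := by
          by_contra hcon
          push Not at hcon
          have h8 : m * μ ≤ e + 1 := by omega
          have h9 : 798 ≤ m * μ := by nlinarith
          nlinarith
        have h8 : 2 * (e + 1 + 2).choose 2 = 2 * (e + 2).choose 2 + 2 * (e + 2) := by
          rw [h5, h6]; ring
        nlinarith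

end Pool.Agent.Work.MP_0421d9_ag.LD
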