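import Pool.Agent.Work.MP_0421d9_ag.UPlane

/-!
Strips without moving: all systems with at least `m` points of multiplicity `m` are nonspecial in
certain degrees.
-/

namespace Pool.Agent.Work.MP_0421d9_ag.LD

open MvPolynomial Module

/-- a strip of `κ` rows and a further piece of `A` monomials is filled by `N` points -/
def Strip (m D κ N A : ℕ) : Prop :=
  κ + 1 ≤ D ∧ A ≤ D - κ + 1 ∧ A + κ * (D + 1) = N * (m + 1).choose 2 + κ.choose 2 ∧
    ∀ r, hP D m (r + N) ≤ max (hP (D - κ) m r - A) (hP (D - κ - 1) m r)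

/-- in degree `D` all systems with at least `m` points are nonspecial -/
def Zreg (m D : ℕ) : Prop :=
  ∀ r, m ≤ r → hP D m r = (D + 2).choose 2 - r * (m + 1).choose 2

/-- `dim L_D(m^r) ≤ max U (χ + S)` for all `r ≥ m` -/
def ZClaim (m D U S : ℕ) : Prop := ∀ r, m ≤ r →
  (hP D m r : ℤ) ≤ max (U : ℤ) ((((D + 2).choose 2 : ℕ) : ℤ) - r * (((m + 1).choose 2 : ℕ) : ℤ) + S)

theorem uz_two_choose_int (n : ℕ) : 2 * (((n + 1).choose 2 : ℕ) : ℤ) = n * (n + 1) := by
  exact_mod_cast two_mul_choose n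

theorem uz_two_choose_int' {m : ℕ} (hm : 1 ≤ m) : 2 * ((m.choose 2 : ℕ) : ℤ) = m * (m - 1) := by
  obtain ⟨n, rfl⟩ : ∃ n, m = n + 1 := ⟨m - 1, by omega⟩
  rw [uz_two_choose_int]
  push_cast
  ring

theorem Zreg_of_strip {m D κ N A : ℕ} (hm : 2 ≤ m) (hs : Strip m D κ N A) (h1 : Zreg m (D - κ))
    (h2 : Zreg m (D - κ - 1))
    (hN : (N + m) * (m + 1).choose 2 + m.choose 2 ≤ (D + 2).choose 2) : Zreg m D := by
  obtain ⟨hκD, hA, hid, hstrip⟩ := hs
  intro r hr
  have hcount := hP_count D m r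
  by_cases hr' : r < N + m
  · have h3 : r * (m + 1).choose 2 + m.choose 2 ≤ (D + 2).choose 2 :=
      (Nat.add_le_add_right (Nat.mul_le_mul_right _ (by omega)) _).trans hN
    have h4 := plane_window2 hm hr h3
    omega
  · obtain ⟨s, rfl⟩ : ∃ s, r = s + N := ⟨r - N, by omega⟩
    have hs' : m ≤ s := by omega
    have h3 := hstrip s
    rw [h1 s hs', h2 s hs'] at h3
    obtain ⟨δ, rfl⟩ : ∃ δ, D = δ + κ := ⟨D - κ, by omega⟩
    have hδ1 : 1 ≤ δ := by omega
    rw [Nat.add_sub_cancel] at h3 hA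
    have e1 := uz_two_choose_int (δ + κ + 1)
    have e2 := uz_two_choose_int (δ + 1)
    have e3 : (δ + 2).choose 2 = (δ - 1 + 2).choose 2 + (δ + 1) := by
      obtain ⟨x, rfl⟩ : ∃ x, δ = x + 1 := ⟨δ - 1, by omega⟩
      have h5 := two_mul_choose (x + 2)
      have h6 := two_mul_choose (x + 1)
      have h7 : x + 1 - 1 + 2 = x + 1 + 1 := by omega
      have h8 : x + 1 + 2 = x + 2 + 1 := rfl
      rw [h7, h8]
      nlinarith
    have e4 : (δ + κ + 2).choose 2 + A = (δ + 2).choose 2 + N * (m + 1).choose 2 := by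
      rcases Nat.eq_zero_or_pos κ with hκ | hκ
      · subst hκ
        simp only [Nat.zero_mul, Nat.add_zero, Nat.choose_zero_succ] at hid ⊢
        omega
      · have e5 := uz_two_choose_int' hκ
        have h8 : δ + κ + 1 + 1 = δ + κ + 2 := rfl
        have h9 : δ + 1 + 1 = δ + 2 := rfl
        rw [h8] at e1
        rw [h9] at e2
        have h10 : (2 : ℤ) * (((δ + κ + 2).choose 2 + A : ℕ) : ℤ) =
            2 * (((δ + 2).choose 2 + N * (m + 1).choose 2 : ℕ) : ℤ) := by
          have hid' : ((A + κ * (δ + κ + 1) : ℕ) : ℤ) =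
              ((N * (m + 1).choose 2 + κ.choose 2 : ℕ) : ℤ) := by rw [hid]
          push_cast at hid' e1 e2 e5 ⊢
          linear_combination e1 - e2 + e5 + 2 * hid'
        have h11 := mul_left_cancel₀ (by norm_num : (2 : ℤ) ≠ 0) h10
        exact_mod_cast h11
    rw [Nat.add_mul]
    have h4 : max ((δ + 2).choose 2 - s * (m + 1).choose 2 - A)
        ((δ - 1 + 2).choose 2 - s * (m + 1).choose 2) ≤
        (δ + κ + 2).choose 2 - (s * (m + 1).choose 2 + N * (m + 1).choose 2) := by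
      apply max_le <;> omega
    rw [Nat.add_mul] at hcount
    omega

theorem zclaim_base {m D U S : ℕ} (hm : 2 ≤ m) (h : 3 * m.choose 2 ≤ U + S) : ZClaim m D U S := by
  intro r hr
  by_cases h0 : hP D m r = 0
  · rw [h0]
    exact le_max_of_le_left (by exact_mod_cast Nat.zero_le U)
  · have h1 := plane_window1 hm hr h0
    by_cases h2 : r * (m + 1).choose 2 + m.choose 2 ≤ (D + 2).choose 2
    · have h3 := plane_window2 hm hr h2
      apply le_max_of_le_right
      have h4 : ((hP D m r + r * (m + 1).choose 2 : ℕ) : ℤ) = (((D + 2).choose 2 : ℕ) : ℤ) := by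
        rw [h3]
      push_cast at h4
      have h5 : (0 : ℤ) ≤ S := by exact_mod_cast Nat.zero_le S
      linarith
    · by_cases h3 : m.choose 2 ≤ S
      · apply le_max_of_le_right
        have h4 : ((hP D m r + r * (m + 1).choose 2 : ℕ) : ℤ) ≤
            (((D + 2).choose 2 + m.choose 2 : ℕ) : ℤ) := by exact_mod_cast h1
        have h5 : ((m.choose 2 : ℕ) : ℤ) ≤ S := by exact_mod_cast h3
        push_cast at h4
        linarith
      · apply le_max_of_le_left
        have h4 : hP D m r ≤ U := by omega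
        exact_mod_cast h4

theorem uz_window_num {m t b D : ℕ} (hm : 2 ≤ m) (hD : D + 1 = (t + 1) * m + b)
    (ht : m * m + 2 * m + t ≤ t * t * m + 1) {r : ℕ} (hr : r ≤ 2 * t + 1 + m) :
    r * (m + 1).choose 2 + m.choose 2 ≤ (D + 2).choose 2 := by
  have e1 := two_mul_choose m
  have e2 := two_mul_choose' (m := m) (by omega)
  have e3 := two_mul_choose (D + 1)
  have h3 : D + 1 + 1 = D + 2 := rfl
  rw [h3] at e3
  have h4 : (t + 1) * m ≤ D + 1 := by omega
  have h5 : ((t + 1) * m) * ((t + 1) * m + 1) ≤ (D + 1) * (D + 2) :=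
    Nat.mul_le_mul h4 (by omega)
  have h6 : r * (m + 1).choose 2 ≤ (2 * t + 1 + m) * (m + 1).choose 2 :=
    Nat.mul_le_mul_right _ hr
  have h7 : 2 * ((2 * t + 1 + m) * (m + 1).choose 2) = (2 * t + 1 + m) * (m * (m + 1)) := by
    rw [← e1]; ring
  have h8 : (2 * t + 1 + m) * (m * (m + 1)) + m * m ≤ ((t + 1) * m) * ((t + 1) * m + 1) + m := by
    have h9 := Nat.mul_le_mul_left m ht
    nlinarith
  omega

theorem zclaim_step {m t a b D U S : ℕ} (hm : 2 ≤ m) (hD : D + 1 = (t + 1) * m + b)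
    (hab : a + b = t) (ha : 1 ≤ a) (hb : 1 ≤ b)
    (ht : m * m + 2 * m + t ≤ t * t * m + 1)
    (h1 : ZClaim m (D - m) (U + a * m) S) (h2 : ZClaim m (D - m - 1) U (S + b * (m + 1))) :
    ZClaim m D U S := by
  intro r hr
  by_cases hr' : r < 2 * t + 1 + m
  · have h3 := plane_window2 hm hr (uz_window_num hm hD ht (by omega) : r * (m + 1).choose 2 +
      m.choose 2 ≤ (D + 2).choose 2)
    apply le_max_of_le_right
    have h4 : ((hP D m r + r * (m + 1).choose 2 : ℕ) : ℤ) = (((D + 2).choose 2 : ℕ) : ℤ) := by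
      rw [h3]
    push_cast at h4
    have h5 : (0 : ℤ) ≤ S := by exact_mod_cast Nat.zero_le S
    linarith
  · obtain ⟨s, rfl⟩ : ∃ s, r = s + (2 * t + 1) := ⟨r - (2 * t + 1), by omega⟩
    have hs : m ≤ s := by omega
    have hm1 : 2 ≤ t * m := by nlinarith
    have hm2 : m ≤ (t + 1) * m := Nat.le_mul_of_pos_left m (by omega)
    obtain ⟨δ, rfl⟩ : ∃ δ, D = δ + m := ⟨D - m, by omega⟩
    have hδ : δ + 1 = a * m + b * (m + 1) := by
      subst hab
      nlinarith
    have hδ1 : 1 ≤ δ := by nlinarith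
    rw [Nat.add_sub_cancel] at h1 h2
    have h3 := plane_strip0 (m := m) (r := s) (by omega) hδ1 hδ
    rw [hab] at h3
    have c1 := h1 s hs
    have c2 := h2 s hs
    have e1 : 2 * (((δ + m + 2).choose 2 : ℕ) : ℤ) = (δ + m + 1) * (δ + m + 2) := by
      have := uz_two_choose_int (δ + m + 1)
      push_cast at this ⊢
      linear_combination this
    have e2 : 2 * (((δ + 2).choose 2 : ℕ) : ℤ) = (δ + 1) * (δ + 2) := by
      have := uz_two_choose_int (δ + 1)
      push_cast at this ⊢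
      linear_combination this
    have e3 : 2 * (((δ - 1 + 2).choose 2 : ℕ) : ℤ) = δ * (δ + 1) := by
      have h5 : δ - 1 + 2 = δ + 1 := by omega
      rw [h5]
      exact uz_two_choose_int δ
    have e4 := uz_two_choose_int m
    have hδ' : (δ : ℤ) + 1 = a * m + b * (m + 1) := by exact_mod_cast hδ
    have hab' : (a : ℤ) + b = t := by exact_mod_cast hab
    have k1 : (((δ + 2).choose 2 : ℕ) : ℤ) - a * m = (((δ + m + 2).choose 2 : ℕ) : ℤ) -
        (2 * t + 1) * (((m + 1).choose 2 : ℕ) : ℤ) := by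
      have h6 : (2 : ℤ) * ((((δ + 2).choose 2 : ℕ) : ℤ) - a * m) =
          2 * ((((δ + m + 2).choose 2 : ℕ) : ℤ) - (2 * t + 1) * (((m + 1).choose 2 : ℕ) : ℤ)) := by
        have hδ'' : (δ : ℤ) = a * m + b * (m + 1) - 1 := by linarith
        rw [hδ''] at e1 e2
        rw [← hab']
        linear_combination e2 - e1 + (2 * (a + b) + 1 : ℤ) * e4
      exact mul_left_cancel₀ (by norm_num) h6
    have k2 : (((δ - 1 + 2).choose 2 : ℕ) : ℤ) + b * (m + 1) =
        (((δ + 2).choose 2 : ℕ) : ℤ) - a * m := by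
      have h6 : (2 : ℤ) * ((((δ - 1 + 2).choose 2 : ℕ) : ℤ) + b * (m + 1)) =
          2 * ((((δ + 2).choose 2 : ℕ) : ℤ) - a * m) := by
        linear_combination e3 - e2 - 2 * hδ'
      exact mul_left_cancel₀ (by norm_num) h6
    have h4 : ((hP (δ + m) m (s + (2 * t + 1)) : ℕ) : ℤ) ≤
        max (((hP δ m s - a * m : ℕ) : ℤ)) ((hP (δ - 1) m s : ℕ) : ℤ) := by
      exact_mod_cast h3
    refine h4.trans (max_le ?_ ?_)
    · by_cases h5 : a * m ≤ hP δ m s
      · rw [Nat.cast_sub h5]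
        push_cast at c1 ⊢
        rcases le_max_iff.mp c1 with h6 | h6
        · apply le_max_of_le_left
          linarith
        · apply le_max_of_le_right
          linarith
      · rw [Nat.sub_eq_zero_of_le (by omega)]
        exact le_max_of_le_left (by exact_mod_cast Nat.zero_le U)
    · push_cast at c2 ⊢
      rcases le_max_iff.mp c2 with h6 | h6
      · exact le_max_of_le_left h6
      · apply le_max_of_le_right
        linarith

theorem zclaim_main {m τ : ℕ} (hm : 2 ≤ m) (hτ : 3 * m ≤ τ * (τ + 1) + 3) :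
    ∀ n a' b' : ℕ, a' + b' = n → ∀ t a b D U S : ℕ, D + 1 = (t + 1) * m + b → a + b = t →
      a' ≤ a → b' ≤ b → 2 * τ + a' + b' ≤ t →
      6 * m.choose 2 ≤ 2 * (U + S) + m * (a' * (a' + 1)) →
      6 * m.choose 2 ≤ 2 * (U + S) + m * (b' * (b' + 1)) → ZClaim m D U S := by
  intro n
  induction n with
  | zero =>
    intro a' b' hn t a b D U S hD hab ha hb ht h1 h2
    obtain rfl : a' = 0 := by omega
    apply zclaim_base hm
    omega
  | succ n ih =>
    intro a' b' hn t a b D U S hD hab ha hb ht h1 h2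
    rcases Nat.eq_zero_or_pos a' with ha' | ha'
    · subst ha'
      apply zclaim_base hm
      omega
    rcases Nat.eq_zero_or_pos b' with hb' | hb'
    · subst hb'
      apply zclaim_base hm
      omega
    obtain ⟨x, rfl⟩ : ∃ x, a' = x + 1 := ⟨a' - 1, by omega⟩
    obtain ⟨y, rfl⟩ : ∃ y, b' = y + 1 := ⟨b' - 1, by omega⟩
    obtain ⟨t', rfl⟩ : ∃ t', t = t' + 1 := ⟨t - 1, by omega⟩
    obtain ⟨a₀, rfl⟩ : ∃ a₀, a = a₀ + 1 := ⟨a - 1, by omega⟩
    obtain ⟨b₀, rfl⟩ : ∃ b₀, b = b₀ + 1 := ⟨b - 1, by omega⟩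
    have hDm : D - m + 1 = (t' + 1) * m + (b₀ + 1) := by
      have h3 : (t' + 1 + 1) * m = (t' + 1) * m + m := by ring
      rw [h3] at hD
      omega
    refine zclaim_step hm hD hab (by omega) (by omega) ?_ ?_ ?_
    · have h3 : 2 ≤ τ := by
        by_contra hcon
        have : τ ≤ 1 := by omega
        interval_cases τ <;> omega
      have h4 : 4 ≤ t' + 1 := by omega
      have h5 : 2 * τ ≤ t' + 1 := by omega
      generalize t' + 1 = T at *
      have h6 : (2 * τ) * (2 * τ) ≤ T * T := Nat.mul_le_mul h5 h5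
      have h7 : 6 * m ≤ T * T + 6 := by nlinarith
      have h8 : 4 * T ≤ T * T := Nat.mul_le_mul_right T h4
      obtain ⟨z, rfl⟩ : ∃ z, m = z + 2 := ⟨m - 2, by omega⟩
      have h9 : (6 * z + 6) * (z + 1) ≤ T * T * (z + 1) := Nat.mul_le_mul_right _ (by omega)
      nlinarith
    · refine ih x (y + 1) (by omega) t' a₀ (b₀ + 1) (D - m) (U + (a₀ + 1) * m) S hDm (by omega)
        (by omega) hb (by omega) ?_ ?_
      · have h3 : (x + 1) * m ≤ (a₀ + 1) * m := Nat.mul_le_mul_right m ha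
        nlinarith
      · have h3 : 0 ≤ (a₀ + 1) * m := Nat.zero_le _
        nlinarith
    · have h4 : m ≤ (t' + 1) * m := Nat.le_mul_of_pos_left m (by omega)
      refine ih (x + 1) y (by omega) t' (a₀ + 1) b₀ (D - m - 1) U (S + (b₀ + 1) * (m + 1))
        (by omega) (by omega) ha (by omega) (by omega) ?_ ?_
      · have h3 : 0 ≤ (b₀ + 1) * (m + 1) := Nat.zero_le _
        nlinarith
      · have h3 : (y + 1) * m ≤ (b₀ + 1) * (m + 1) := Nat.mul_le_mul hb (Nat.le_succ m)
        nlinarith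

theorem zone {m t a b τ D : ℕ} (hm : 2 ≤ m) (hD : D + 1 = (t + 1) * m + b) (hab : a + b = t)
    (ha : τ ≤ a) (hb : τ ≤ b) (hτ : 3 * m ≤ τ * (τ + 1) + 3) (ht : 4 * τ ≤ t) : Zreg m D := by
  have e2 := two_mul_choose' (m := m) (by omega)
  have h1 : 6 * m.choose 2 ≤ 2 * (0 + 0) + m * (τ * (τ + 1)) := by
    have h2 := Nat.mul_le_mul_left m hτ
    nlinarith
  have h := zclaim_main hm hτ (τ + τ) τ τ rfl t a b D 0 0 hD hab ha hb (by omega) h1 h1
  intro r hr
  have h2 := h r hr
  have h3 := hP_count D m r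
  by_cases h4 : hP D m r = 0
  · omega
  · rcases le_max_iff.mp h2 with h5 | h5
    · exfalso
      apply h4
      have : hP D m r ≤ 0 := by exact_mod_cast h5
      omega
    · have h6 : hP D m r + r * (m + 1).choose 2 ≤ (D + 2).choose 2 := by
        have h7 : ((hP D m r + r * (m + 1).choose 2 : ℕ) : ℤ) ≤ (((D + 2).choose 2 : ℕ) : ℤ) := by
          push_cast at h5 ⊢
          linarith
        exact_mod_cast h7
      omega

end Pool.Agent.Work.MP_0421d9_ag.LD
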