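import Pool.Agent.Work.MP_0421d9_ag.UExact
import Pool.Agent.Work.MP_0421d9_ag.UTrans
import Pool.Agent.Work.MP_0421d9_ag.UZone

/-!
Strips which move: in the degrees which are not covered by `zone` there is a strip whose lower part
moves, its dimension is computed on `P¹ × P¹`.
-/

namespace Pool.Agent.Work.MP_0421d9_ag.LD

open MvPolynomial Module

/-- a strip which moves, from a regular rectangle -/
theorem um_strip {m D t ρ k H : ℕ} (hD : D + ρ = m + t * m) (ht : 1 ≤ t) (hm : 1 ≤ m)
    (hk : 1 ≤ k) (hκD : m + k + 1 ≤ D) (hH : H + ρ = t * k + 1)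
    (hreg : hR H (m + k + 1) k (2 * t + 1) + (2 * t + 1) * (k + 1).choose 2 ≤ H * (m + k + 1))
    (h0 : hF D (m + k - 1) m (2 * t + 1) = 0)
    (hA : ((H : ℤ) - t) * (m + k) ≤ (2 * t + 1) * ((k.choose 2 : ℕ) : ℤ)) :
    ∃ A, Strip m D (m + k) (2 * t + 1) A := by
  have e1 : 2 * (((k + 1).choose 2 : ℕ) : ℤ) = k * (k + 1) := by
    exact_mod_cast two_mul_choose k
  have e2 : 2 * (((m + 1).choose 2 : ℕ) : ℤ) = m * (m + 1) := by
    exact_mod_cast two_mul_choose m
  have e3 : 2 * ((k.choose 2 : ℕ) : ℤ) = k * (k - 1) := by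
    have h := two_mul_choose' hk
    have h' : ((2 * k.choose 2 + k : ℕ) : ℤ) = ((k * k : ℕ) : ℤ) := by rw [h]
    push_cast at h'
    linear_combination h'
  have e4 : 2 * (((m + k).choose 2 : ℕ) : ℤ) = (m + k) * (m + k - 1) := by
    have h := two_mul_choose' (m := m + k) (by omega)
    have h' : ((2 * (m + k).choose 2 + (m + k) : ℕ) : ℤ) = (((m + k) * (m + k) : ℕ) : ℤ) := by
      rw [h]
    push_cast at h'
    linear_combination h'
  have hD' : (D : ℤ) + ρ = m + t * m := by exact_mod_cast hD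
  have hH' : (H : ℤ) + ρ = t * k + 1 := by exact_mod_cast hH
  set B := H * (m + k + 1) - (2 * t + 1) * (k + 1).choose 2 with hBdef
  have hB0 : (2 * t + 1) * (k + 1).choose 2 ≤ H * (m + k + 1) := by omega
  have hBz : (B : ℤ) = H * (m + k + 1) - (2 * t + 1) * (((k + 1).choose 2 : ℕ) : ℤ) := by
    rw [hBdef, Nat.cast_sub hB0]
    push_cast
    ring
  have hB : B ≤ D - (m + k) + 1 := by
    have h1 : (B : ℤ) ≤ (((D - (m + k) + 1 : ℕ)) : ℤ) := by
      rw [hBz]
      have h2 : ((D - (m + k) + 1 : ℕ) : ℤ) = D - (m + k) + 1 := by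
        push_cast [Nat.cast_sub (by omega : m + k ≤ D)]
        ring
      rw [h2]
      have h3 : (2 : ℤ) * (H * (m + k + 1) - (2 * t + 1) * (((k + 1).choose 2 : ℕ) : ℤ) -
          (D - (m + k) + 1)) = 2 * (((H : ℤ) - t) * (m + k) -
            (2 * t + 1) * ((k.choose 2 : ℕ) : ℤ)) := by
        have h4 : (D : ℤ) = m + t * m - ρ := by linarith
        have h5 : (H : ℤ) = t * k + 1 - ρ := by linarith
        rw [h4, h5]
        linear_combination -(2 * t + 1 : ℤ) * e1 + (2 * t + 1 : ℤ) * e3
      linarith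
    exact_mod_cast h1
  have htr : hF D (m + k) m (2 * t + 1) ≤ B := by
    have h1 := transform (D := D) (κ := m + k) (m := m) (t := t) (H := H) (k := k) ht rfl
      (by omega) (by
        have h2 : ((H + m * (2 * t + 1) : ℕ) : ℤ) = ((D + (m + k) * t + 1 : ℕ) : ℤ) := by
          push_cast
          linear_combination hH' - hD'
        exact_mod_cast h2)
    omega
  refine ⟨D - (m + k) + 1 - B, by omega, by omega, ?_, fun r => ?_⟩
  · have h1 : ((D - (m + k) + 1 - B + (m + k) * (D + 1) : ℕ) : ℤ) =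
        (((2 * t + 1) * (m + 1).choose 2 + (m + k).choose 2 : ℕ) : ℤ) := by
      push_cast [Nat.cast_sub hB, Nat.cast_sub (by omega : m + k ≤ D)]
      rw [hBz]
      have h3 : (2 : ℤ) * ((D : ℤ) - (m + k) + 1 - (H * (m + k + 1) -
          (2 * t + 1) * (((k + 1).choose 2 : ℕ) : ℤ)) + (m + k) * (D + 1)) =
          2 * ((2 * t + 1) * (((m + 1).choose 2 : ℕ) : ℤ) + (((m + k).choose 2 : ℕ) : ℤ)) := by
        have h4 : (D : ℤ) = m + t * m - ρ := by linarith
        have h5 : (H : ℤ) = t * k + 1 - ρ := by linarith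
        rw [h4, h5]
        linear_combination (2 * t + 1 : ℤ) * e1 - (2 * t + 1 : ℤ) * e2 - e4
      linarith
    exact_mod_cast h1
  · exact plane_strip (r := r) (by omega) (by omega) hB htr h0

/-- the rectangle in case `t c > 3 m` -/
theorem um_pack {m t ρ x c H : ℕ} (hm : 45 ≤ m) (hρ' : ρ + t < 3 * m + 4 + (x + 1))
    (hc : 1 ≤ c) (hc1 : t * c < ρ + t) (L3 : 74 ≤ t) (L1 : 6 * x ≤ t) (L4 : 3 * x ≤ m)
    (L2 : 35 * c ≤ t) (L5 : 20 * c ≤ m) (hH : H + ρ = t * c + 1) (hbig : 3 * m < t * c) :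
    hR H (m + c + 1) c (2 * t + 1) + (2 * t + 1) * (c + 1).choose 2 = H * (m + c + 1) := by
  have hcc : c * c ≤ m := by
    have h2 : c * (35 * c) ≤ c * t := Nat.mul_le_mul_left c L2
    have h3 : c * (35 * c) = 35 * (c * c) := by ring
    have h4 : c * t = t * c := by ring
    omega
  apply rect_pack' hc hcc
  have h1 : (2 * t + 1) * c + 2 * (m + 2) ≤ 9 * m := by
    have h2 : (2 * t + 1) * c = 2 * (t * c) + c := by ring
    rw [h2]
    omega
  have h3 : (c + 1) * ((2 * t + 1) * c + 2 * (m + 2)) ≤ (c + 1) * (9 * m) :=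
    Nat.mul_le_mul_left _ h1
  have h4 : 9 * (c + 1) ≤ 2 * H := by omega
  have h5 : m * (9 * (c + 1)) ≤ m * (2 * H) := Nat.mul_le_mul_left m h4
  have h6 : (c + 1) * (9 * m) = m * (9 * (c + 1)) := by ring
  have h7 : 2 * (m + 2) * H = m * (2 * H) + 4 * H := by ring
  omega

theorem um_rect {m t ρ x c H : ℕ} (hm : 45 ≤ m) (hx : x * x ≤ 3 * m) (ht : 121 * m ≤ t * t)
    (hρ : 2 * m ≤ ρ + (x + 1)) (hρ' : ρ + t < 3 * m + 4 + (x + 1))
    (hc : 1 ≤ c) (hc1 : t * c < ρ + t) (hc2 : ρ ≤ t * c)
    (L3 : 74 ≤ t) (L1 : 6 * x ≤ t) (L4 : 3 * x ≤ m) (L2 : 35 * c ≤ t) (L5 : 20 * c ≤ m)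
    (hH : H + ρ = t * c + 1) :
    ((2 * t + 1) * (c + 1).choose 2 ≤ H * (m + c + 1) →
      hR H (m + c + 1) c (2 * t + 1) + (2 * t + 1) * (c + 1).choose 2 = H * (m + c + 1)) ∧
    (H * (m + c + 1) < (2 * t + 1) * (c + 1).choose 2 →
      hR H (m + c + 1) c (2 * t + 1) = 0) := by
  rcases Nat.lt_or_ge 1 c with hc3 | hc3
  · rcases Nat.lt_or_ge (3 * m) (t * c) with hbig | hsmall
    · have h1 := um_pack hm hρ' hc hc1 L3 L1 L4 L2 L5 hH hbig
      exact ⟨fun _ => h1, fun h2 => by omega⟩
    · -- `t c ≤ 3 m`, `2 ≤ c`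
      have e1 := two_mul_choose c
      have h9 : 121 * (c * c) ≤ 9 * m := by
        have h1 : (t * c) * (t * c) ≤ (3 * m) * (3 * m) := Nat.mul_le_mul hsmall hsmall
        have h2 : (121 * m) * (c * c) ≤ (t * t) * (c * c) := Nat.mul_le_mul_right _ ht
        have h4 : (t * c) * (t * c) = (t * t) * (c * c) := by ring
        have h5 : (3 * m) * (3 * m) = m * (9 * m) := by ring
        have h6 : (121 * m) * (c * c) = m * (121 * (c * c)) := by ring
        have h3 : m * (121 * (c * c)) ≤ m * (9 * m) := by omega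
        exact Nat.le_of_mul_le_mul_left h3 (by omega)
      have hc4 : 2 * c ≤ c * c := Nat.mul_le_mul_right c hc3
      have h7 : 7 * (c * (c + 1)) ≤ m := by
        have : c * (c + 1) = c * c + c := by ring
        omega
      have hE : (2 * c + 1) * (m + c + 1) ≤ (2 * t + 1) * (c + 1).choose 2 := by
        have h1 : 2 * ((2 * c + 1) * (m + c + 1)) ≤ (2 * (t * c) + c) * (c + 1) := by
          have h2 : (2 * (2 * m) + c) * (c + 1) ≤ (2 * (t * c) + 2 * (x + 1) + c) * (c + 1) :=
            Nat.mul_le_mul_right _ (by omega)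
          have h3 : 10 * (x * (c + 1)) ≤ x * x + 25 * ((c + 1) * (c + 1)) := by
            zify
            nlinarith [sq_nonneg ((x : ℤ) - 5 * (c + 1))]
          have h4 : 40 * (c * c) + 85 * c + 45 ≤ 7 * m := by omega
          have r1 : (2 * (2 * m) + c) * (c + 1) = 4 * (m * c) + 4 * m + c * c + c := by ring
          have r2 : (2 * (t * c) + 2 * (x + 1) + c) * (c + 1) =
              (2 * (t * c) + c) * (c + 1) + 2 * (x * (c + 1)) + 2 * (c + 1) := by ring
          have r3 : 2 * ((2 * c + 1) * (m + c + 1)) =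
              4 * (m * c) + 2 * m + 4 * (c * c) + 6 * c + 2 := by ring
          have r4 : 25 * ((c + 1) * (c + 1)) = 25 * (c * c) + 50 * c + 25 := by ring
          rw [r1, r2] at h2
          rw [r4] at h3
          rw [r3]
          omega
        have h2 : 2 * ((2 * t + 1) * (c + 1).choose 2) = (2 * (t * c) + c) * (c + 1) := by
          calc 2 * ((2 * t + 1) * (c + 1).choose 2) = (2 * t + 1) * (2 * (c + 1).choose 2) := by ring
            _ = (2 * t + 1) * (c * (c + 1)) := by rw [e1]
            _ = _ := by ring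
        omega
      have hE2 : (2 * t + 1) * (c + 1).choose 2 ≤ (3 * c + 3) * (m + c + 1) := by
        have h2 : 2 * ((2 * t + 1) * (c + 1).choose 2) = (2 * (t * c) + c) * (c + 1) := by
          calc 2 * ((2 * t + 1) * (c + 1).choose 2) = (2 * t + 1) * (2 * (c + 1).choose 2) := by ring
            _ = (2 * t + 1) * (c * (c + 1)) := by rw [e1]
            _ = _ := by ring
        have h3 : (2 * (t * c) + c) * (c + 1) ≤ (6 * m + c) * (c + 1) :=
          Nat.mul_le_mul_right _ (by omega)
        have h4 : (6 * m + c) * (c + 1) ≤ 2 * ((3 * c + 3) * (m + c + 1)) := by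
          have r1 : (6 * m + c) * (c + 1) = 6 * (m * c) + 6 * m + c * c + c := by ring
          have r2 : 2 * ((3 * c + 3) * (m + c + 1)) =
              6 * (m * c) + 6 * m + 6 * (c * c) + 12 * c + 6 := by ring
          omega
        omega
      have htc : m + c + 1 ≤ t * c := by omega
      have hcount := hR_count H (m + c + 1) c (2 * t + 1)
      generalize hNμ : (2 * t + 1) * (c + 1).choose 2 = Nμ at *
      refine ⟨fun hreg => ?_, fun hneg => ?_⟩
      · set H₀ := (Nμ + (m + c + 1) - 1) / (m + c + 1) with hH₀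
        have k1 : 2 * c + 1 ≤ H₀ := by
          rw [hH₀, Nat.le_div_iff_mul_le (by omega)]
          omega
        have k2 : ∀ Y, Nμ ≤ Y * (m + c + 1) → H₀ ≤ Y := by
          intro Y hY
          rw [hH₀]
          apply Nat.le_of_lt_succ
          rw [Nat.div_lt_iff_lt_mul (by omega)]
          have : (Y + 1) * (m + c + 1) = Y * (m + c + 1) + (m + c + 1) := by ring
          rw [Nat.succ_eq_add_one, this]
          omega
        have k3 : Nμ ≤ H₀ * (m + c + 1) := by
          have := Nat.lt_div_mul_add (a := Nμ + (m + c + 1) - 1) (b := m + c + 1) (by omega)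
          rw [← hH₀] at this
          omega
        have k4 := rect_exact' (t := t) hc h7 htc k1 (k2 _ hE2)
        rw [hNμ] at k4
        have k5 := hR_count H₀ (m + c + 1) c (2 * t + 1)
        rw [hNμ] at k5
        have k6 : hR H₀ (m + c + 1) c (2 * t + 1) + (2 * t + 1) * (c + 1).choose 2 =
            H₀ * (m + c + 1) := by
          rw [hNμ]
          omega
        have k7 := rect_regular_mono (k2 H hreg) k6
        rw [hNμ] at k7
        exact k7
      · have k1 : H ≤ 3 * c + 3 := by
          by_contra hcon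
          have : (3 * c + 3) * (m + c + 1) ≤ H * (m + c + 1) := Nat.mul_le_mul_right _ (by omega)
          omega
        have k2 := rect_exact' (t := t) (H := max H (2 * c + 1)) hc h7 htc (le_max_right _ _)
          (max_le k1 (by omega))
        rw [hNμ] at k2
        have k3 : max H (2 * c + 1) * (m + c + 1) ≤ Nμ := by
          rcases Nat.le_total H (2 * c + 1) with h | h
          · rw [max_eq_right h]
            exact hE
          · rw [max_eq_left h]
            omega
        exact rect_empty_mono (le_max_left H (2 * c + 1)) (by omega)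
  · obtain rfl : c = 1 := by omega
    have h1 := rect_simple H (m + 1 + 1) (2 * t + 1)
    have h2 : (1 + 1).choose 2 = 1 := rfl
    rw [h2, Nat.mul_one, h1]
    exact ⟨fun h => by omega, fun h => by omega⟩

/-- `D = m + t * m - ρ` -/
theorem exists_strip {m D t ρ τ : ℕ} (hm : 45 ≤ m) (hD : D + ρ = m + t * m)
    (hτ : 3 * m ≤ τ * τ) (hτ' : (τ - 1) * (τ - 1) ≤ 3 * m) (ht : 121 * m ≤ t * t)
    (hρ : 2 * m ≤ ρ + τ) (hρ' : ρ + t < 3 * m + 4 + τ) :
    ∃ k A, Strip m D (m + k) (2 * t + 1) A ∧ ρ ≤ t * k ∧ k + 2 * τ + 3 ≤ t := by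
  obtain ⟨x, rfl⟩ : ∃ x, τ = x + 1 := by
    rcases Nat.eq_zero_or_pos τ with h0 | h0
    · subst h0
      omega
    · exact ⟨τ - 1, by omega⟩
  rw [Nat.add_sub_cancel] at hτ'
  -- linear consequences
  have L3 : 74 ≤ t := by
    by_contra hcon
    have h1 : t * t ≤ 73 * 73 := Nat.mul_le_mul (by omega) (by omega)
    omega
  have L1 : 6 * x ≤ t := by
    by_contra hcon
    have h1 : (t + 1) * (t + 1) ≤ (6 * x) * (6 * x) := Nat.mul_le_mul (by omega) (by omega)
    have r1 : (t + 1) * (t + 1) = t * t + 2 * t + 1 := by ring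
    have r2 : (6 * x) * (6 * x) = 36 * (x * x) := by ring
    omega
  have L4 : 3 * x ≤ m := by
    by_contra hcon
    have h1 : (m + 1) * (m + 1) ≤ (3 * x) * (3 * x) := Nat.mul_le_mul (by omega) (by omega)
    have h2 : 45 * m ≤ m * m := Nat.mul_le_mul_right m hm
    have r1 : (m + 1) * (m + 1) = m * m + 2 * m + 1 := by ring
    have r2 : (3 * x) * (3 * x) = 9 * (x * x) := by ring
    omega
  have hρ1 : 1 ≤ ρ := by omega
  obtain ⟨c, hc, hc1, hc2⟩ : ∃ c, 1 ≤ c ∧ t * c < ρ + t ∧ ρ ≤ t * c := by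
    refine ⟨(ρ - 1) / t + 1, Nat.le_add_left 1 _, ?_, ?_⟩
    · have := Nat.mul_div_le (ρ - 1) t
      have h2 : t * ((ρ - 1) / t + 1) = t * ((ρ - 1) / t) + t := by ring
      omega
    · have := Nat.lt_mul_div_succ (ρ - 1) (by omega : 0 < t)
      omega
  have F0 : t * c < 3 * m + 5 + x := by omega
  have L2 : 35 * c ≤ t := by
    by_contra hcon
    have h1 : t * (t + 1) ≤ t * (35 * c) := Nat.mul_le_mul_left t (by omega)
    have h2 : t * (35 * c) = 35 * (t * c) := by ring
    have h3 : t * (t + 1) = t * t + t := by ring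
    omega
  have L5 : 20 * c ≤ m := by
    by_contra hcon
    have h1 : 74 * c ≤ t * c := Nat.mul_le_mul_right c L3
    omega
  have L6 : 74 * m ≤ t * m := Nat.mul_le_mul_right m L3
  obtain ⟨H, hH⟩ : ∃ H, H + ρ = t * c + 1 := ⟨t * c + 1 - ρ, by omega⟩
  obtain ⟨r1, r2⟩ := um_rect hm hτ' ht hρ hρ' hc hc1 hc2 L3 L1 L4 L2 L5 hH
  rcases Nat.lt_or_ge (H * (m + c + 1)) ((2 * t + 1) * (c + 1).choose 2) with hneg | hpos
  · -- case B
    have hemp := r2 hneg
    have htr := transform (D := D) (κ := m + c) (m := m) (t := t) (H := H) (k := c) (by omega) rfl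
      (by omega) (by
        have h2 : ((H + m * (2 * t + 1) : ℕ) : ℤ) = ((D + (m + c) * t + 1 : ℕ) : ℤ) := by
          have hD' : (D : ℤ) + ρ = m + t * m := by exact_mod_cast hD
          have hH' : (H : ℤ) + ρ = t * c + 1 := by exact_mod_cast hH
          push_cast
          linear_combination hH' - hD'
        exact_mod_cast h2)
    have hH' : (H + t) + ρ = t * (c + 1) + 1 := by
      have : t * (c + 1) = t * c + t := by ring
      omega
    have hcc : (c + 1) * (c + 1) ≤ m := by
      have h2 : c * (35 * c) ≤ c * t := Nat.mul_le_mul_left c L2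
      have h3 : c * (35 * c) = 35 * (c * c) := by ring
      have h4 : c * t = t * c := by ring
      have h5 : (c + 1) * (c + 1) = c * c + 2 * c + 1 := by ring
      omega
    have hpack := rect_pack' (H := H + t) (m := m) (k := c + 1) (t := t) (by omega) hcc (by
      have h1 : (2 * t + 1) * (c + 1) = 2 * (t * c) + 2 * t + c + 1 := by ring
      rw [h1]
      have h2 : (c + 1 + 1) * (2 * (t * c) + 2 * t + c + 1 + 2 * (m + 2)) ≤
          (c + 2) * (10 * m + 2 * t) := Nat.mul_le_mul_left _ (by omega)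
      have h3 : (c + 2) * (10 * m + 2 * t) = 10 * (c + 2) * m + 2 * (t * c) + 4 * t := by ring
      have h4 : 2 * (m + 2) * (t + 1) ≤ 2 * (m + 2) * (H + t) := Nat.mul_le_mul_left _ (by omega)
      have h5 : 2 * (m + 2) * (t + 1) = 2 * (t * m) + 2 * m + 4 * t + 4 := by ring
      have h6 : (10 * (c + 2) + 6) * m ≤ (2 * t) * m := Nat.mul_le_mul_right m (by omega)
      have h7 : (10 * (c + 2) + 6) * m = 10 * (c + 2) * m + 6 * m := by ring
      have h8 : (2 * t) * m = 2 * (t * m) := by ring
      omega)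
    obtain ⟨A, hA⟩ := um_strip (H := H + t) hD (by omega) (by omega) (by omega : 1 ≤ c + 1)
      (by omega) hH' hpack.le (by
        have h1 : m + (c + 1) - 1 = m + c := by omega
        rw [h1]
        omega) (by
        have h1 : (((H * (m + c + 1) : ℕ)) : ℤ) ≤ (((2 * t + 1) * (c + 1).choose 2 : ℕ) : ℤ) := by
          exact_mod_cast hneg.le
        push_cast at h1 ⊢
        linarith)
    refine ⟨c + 1, A, hA, ?_, by omega⟩
    have : t * (c + 1) = t * c + t := by ring
    omega
  · -- case A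
    have hreg := r1 hpos
    have hemp := transform_empty (D := D) (κ := m + c - 1) (m := m) (t := t) (by omega) (by omega)
      (by omega) (by
        have h1 : m + c - 1 = m + (c - 1) := by omega
        have h2 : (c - 1) * t + t = t * c := by
          obtain ⟨y, rfl⟩ : ∃ y, c = y + 1 := ⟨c - 1, by omega⟩
          rw [Nat.add_sub_cancel]; ring
        have h3 : (m + (c - 1)) * t = t * m + (c - 1) * t := by ring
        have h4 : m * (2 * t + 1) = 2 * (t * m) + m := by ring
        rw [h1, h3, h4]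
        omega)
    have hle : H ≤ t := by omega
    obtain ⟨A, hA⟩ := um_strip (H := H) hD (by omega) (by omega) hc (by omega) hH hreg.le hemp (by
        have h1 : ((H : ℤ) - t) * (m + c) ≤ 0 := by
          have h2 : (H : ℤ) ≤ t := by exact_mod_cast hle
          have h3 : (0 : ℤ) ≤ m + c := by positivity
          exact mul_nonpos_of_nonpos_of_nonneg (by linarith) h3
        have h2 : (0 : ℤ) ≤ (2 * t + 1) * ((c.choose 2 : ℕ) : ℤ) := by positivity
        linarith)
    exact ⟨c, A, hA, hc2, by omega⟩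

end Pool.Agent.Work.MP_0421d9_ag.LD
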