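import Pool.Agent.Work.MP_0421d9_ag.UDefs
import Pool.Agent.Work.MP_0421d9_ag.Step69
import Pool.Agent.Work.MP_0421d9_ag.FlagStep69

/-!
Cutting off rows: the step of `Step69` for systems with restricted support.
-/

namespace Pool.Agent.Work.MP_0421d9_ag.LD

open MvPolynomial Module

/-! ### shears -/

/-- the shear `X 0 ↦ X 0 - c * X 1` -/
def shear (c : ℂ) : Matrix (Fin 3) (Fin 3) ℂ := !![1, -c, 0; 0, 1, 0; 0, 0, 1]

theorem lin_shear0 (c : ℂ) : lin (shear c 0) = X 0 - C c * X 1 := by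
  unfold lin
  rw [Fin.sum_univ_three]
  simp [shear]
  ring

theorem lin_shear1 (c : ℂ) : lin (shear c 1) = X 1 := by
  unfold lin
  rw [Fin.sum_univ_three]
  simp [shear]

theorem lin_shear2 (c : ℂ) : lin (shear c 2) = X 2 := by
  unfold lin
  rw [Fin.sum_univ_three]
  simp [shear]

theorem shear_mulVec (c : ℂ) (q : V3) : (shear c).mulVec q = ![q 0 - c * q 1, q 1, q 2] := by
  funext i
  fin_cases i <;> simp [shear, Matrix.mulVec, dotProduct, Fin.sum_univ_three]
  ring

theorem shear_mul (c : ℂ) : shear (-c) * shear c = 1 := by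
  ext i j
  fin_cases i <;> fin_cases j <;> simp [shear, Matrix.mul_apply, Fin.sum_univ_three]

/-- the support of the sheared form -/
theorem coeff_shear_monomial (c : ℂ) (α β : Fin 3 →₀ ℕ) (a : ℂ)
    (h : coeff β (subM (shear c) (monomial α a)) ≠ 0) :
    β 2 = α 2 ∧ β 0 ≤ α 0 ∧ β 0 + β 1 = α 0 + α 1 := by
  classical
  have h1 : subM (shear c) (monomial α a) =
      C a * ((X 0 + C (-c) * X 1) ^ α 0 * X 1 ^ α 1 * X 2 ^ α 2) := by
    unfold subM
    rw [aeval_monomial, Finsupp.prod_fintype _ _ (fun i => pow_zero _), Fin.prod_univ_three,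
      lin_shear0, lin_shear1, lin_shear2, algebraMap_eq]
    congr 4
    rw [map_neg]
    ring
  have h2 : (C a * ((X 0 + C (-c) * X 1) ^ α 0 * X 1 ^ α 1 * X 2 ^ α 2) : R3) =
      ∑ j ∈ Finset.range (α 0 + 1), monomial (Finsupp.single 0 j +
        Finsupp.single 1 (α 0 - j + α 1) + Finsupp.single 2 (α 2))
        (a * ((-c) ^ (α 0 - j) * ((α 0).choose j : ℂ))) := by
    rw [add_pow, Finset.sum_mul, Finset.sum_mul, Finset.mul_sum]
    refine Finset.sum_congr rfl (fun j _ => ?_)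
    have h3 : (monomial (Finsupp.single 0 j + Finsupp.single 1 (α 0 - j + α 1) +
        Finsupp.single 2 (α 2)) (a * ((-c) ^ (α 0 - j) * ((α 0).choose j : ℂ))) : R3) =
        C (a * ((-c) ^ (α 0 - j) * ((α 0).choose j : ℂ))) *
          (X 0 ^ j * X 1 ^ (α 0 - j + α 1) * X 2 ^ α 2) := by
      rw [X_pow_eq_monomial, X_pow_eq_monomial, X_pow_eq_monomial, monomial_mul, monomial_mul,
        C_mul_monomial]
      ring_nf
    rw [h3, pow_add]
    simp only [map_mul, map_pow, map_natCast, mul_pow]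
    ring
  rw [h1, h2, coeff_sum] at h
  obtain ⟨j, hj, hj'⟩ := Finset.exists_ne_zero_of_sum_ne_zero h
  rw [coeff_monomial] at hj'
  have h4 := (ite_ne_right_iff.mp hj').1
  rw [Finset.mem_range] at hj
  have e0 : β 0 = j := by rw [← h4]; simp
  have e1 : β 1 = α 0 - j + α 1 := by rw [← h4]; simp
  have e2 : β 2 = α 2 := by rw [← h4]; simp
  omega

theorem coeff_shear (c : ℂ) (F : R3) (β : Fin 3 →₀ ℕ) (h : coeff β (subM (shear c) F) ≠ 0) :
    ∃ α, coeff α F ≠ 0 ∧ β 2 = α 2 ∧ β 0 ≤ α 0 ∧ β 0 + β 1 = α 0 + α 1 := by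
  classical
  have h1 : subM (shear c) F = ∑ α ∈ F.support, subM (shear c) (monomial α (coeff α F)) := by
    conv_lhs => rw [← support_sum_monomial_coeff F]
    rw [map_sum]
  rw [h1, coeff_sum] at h
  obtain ⟨α, hα, hα'⟩ := Finset.exists_ne_zero_of_sum_ne_zero h
  exact ⟨α, mem_support_iff.mp hα, coeff_shear_monomial c α β _ hα'⟩

/-- shearing the points -/
theorem subM_shear_mem {D m N : ℕ} {T : Set (Fin 3 →₀ ℕ)} {q : Fin N → V3} {c : ℂ}
    (hT' : ∀ α β : Fin 3 →₀ ℕ, α ∈ T → β 2 = α 2 → β 0 ≤ α 0 → β 0 + β 1 = α 0 + α 1 → β ∈ T)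
    {F : R3} (hF : F ∈ TS D T m (fun i => (shear c).mulVec (q i))) :
    subM (shear c) F ∈ TS D T m q := by
  rw [mem_TS] at hF ⊢
  obtain ⟨h1, h2, h3⟩ := hF
  refine ⟨subM_isHomogeneous _ h1, fun i => vanishTo_subM _ (h2 i), fun β hβ => ?_⟩
  obtain ⟨α, hα, h4, h5, h6⟩ := coeff_shear c F β hβ
  exact hT' α β (h3 α hα) h4 h5 h6

/-! ### the line `X 2 = 0` -/

theorem coeff_onLine_e1_e0 {D : ℕ} {F : R3} (hF : F.IsHomogeneous D) {α : Fin 3 →₀ ℕ}
    (hα : α 2 = 0) (hα' : α.degree = D) : (onLine e1 e0 F).coeff (α 0) = coeff α F := by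
  classical
  rw [onLine_e1_e0, Polynomial.finsetSum_coeff]
  rw [Finset.sum_eq_single α]
  · rw [Polynomial.coeff_C_mul_X_pow, if_pos rfl, if_pos hα, mul_one]
  · intro β hβ hne
    rw [Polynomial.coeff_C_mul_X_pow]
    split_ifs with h1 h2
    · exfalso
      apply hne
      have h3 := degree_of_mem_support hF (mem_support_iff.mp hβ)
      rw [Finsupp.degree_eq_sum, Fin.sum_univ_three] at h3 hα'
      ext i
      fin_cases i
      · exact h1.symm
      · change β 1 = α 1
        omega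
      · exact h2.trans hα.symm
    · rw [mul_zero]
    · rfl
  · intro hα
    rw [notMem_support_iff.mp hα, zero_mul, map_zero, zero_mul, Polynomial.coeff_zero]

/-- forms which vanish on the line `X 2 = 0` -/
theorem exists_div_of_onLine {D : ℕ} {F : R3} (hF : F.IsHomogeneous (D + 1))
    (h : onLine e1 e0 F = 0) : ∃ G : R3, G.IsHomogeneous D ∧ F = X 2 ^ 1 * G ∧
      ∀ β, coeff β G = coeff (Finsupp.single 2 1 + β) F := by
  apply exists_div_X2 hF
  intro α hα
  by_contra hcon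
  have h1 : α 2 = 0 := by omega
  have h2 := mem_support_iff.mp hα
  apply h2
  rw [← coeff_onLine_e1_e0 hF h1 (degree_of_mem_support hF h2), h, Polynomial.coeff_zero]

/-- a new flag on the line `X 2 = 0` at a general point -/
theorem flag_dim {δ m r A : ℕ} {T : Set (Fin 3 →₀ ℕ)} (q : Fin r → V3) (hq : ∀ i, q i 2 ≠ 0) :
    ∃ h : Polynomial ℂ, h ≠ 0 ∧ ∀ c, h.eval c ≠ 0 →
      finrank ℂ ↥(TS (δ + 1) T m q ⊓ (ordSub c A).comap (onLine e1 e0).toLinearMap) ≤
        max (finrank ℂ (TS (δ + 1) T m q) - A)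
          (finrank ℂ (TS δ {β | β + Finsupp.single 2 1 ∈ T} m q)) := by
  classical
  let φ : R3 →ₗ[ℂ] Polynomial ℂ := (onLine e1 e0).toLinearMap
  have hφ : ∀ F, φ F = onLine e1 e0 F := fun F => rfl
  set S := TS (δ + 1) T m q with hS
  have hfin : Module.Finite ℂ ↥(S.map φ) := inferInstance
  obtain ⟨h, hh0, hh⟩ := @order_generic (S.map φ) hfin A
  refine ⟨h, hh0, fun c hc => ?_⟩
  have h1 := hh c hc
  have hker : finrank ℂ ↥(S ⊓ LinearMap.ker φ) ≤
      finrank ℂ (TS δ {β | β + Finsupp.single 2 1 ∈ T} m q) := by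
    have h2 : S ⊓ LinearMap.ker φ ≤
        (TS δ {β | β + Finsupp.single 2 1 ∈ T} m q).map (LinearMap.mulLeft ℂ (X 2 ^ 1 : R3)) := by
      intro F hF
      obtain ⟨h3, h4⟩ := Submodule.mem_inf.mp hF
      rw [hS, mem_TS] at h3
      rw [LinearMap.mem_ker, hφ] at h4
      obtain ⟨G, hG1, hG2, hG3⟩ := exists_div_of_onLine h3.1 h4
      refine ⟨G, ?_, by rw [LinearMap.mulLeft_apply, hG2]⟩
      refine mem_TS.mpr ⟨hG1, fun i => ?_, fun β hβ => ?_⟩
      · have h5 := h3.2.1 i
        rw [hG2] at h5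
        exact vanishTo_of_X2_pow_mul (hq i) h5
      · rw [hG3] at hβ
        have h5 := h3.2.2 _ hβ
        rwa [add_comm] at h5
    exact (Submodule.finrank_mono h2).trans (Submodule.finrank_map_le _ _)
  have hT : finrank ℂ ↥(S ⊓ (ordSub c A).comap φ) ≤
      finrank ℂ ↥(S ⊓ LinearMap.ker φ) + (finrank ℂ ↥(S.map φ) - A) := by
    have hfT : Module.Finite ℂ ↥(S ⊓ (ordSub c A).comap φ) :=
      Submodule.finiteDimensional_of_le inf_le_left
    rw [finrank_eq_ker_add_map φ (S ⊓ (ordSub c A).comap φ)]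
    have hfK : Module.Finite ℂ ↥(S ⊓ LinearMap.ker φ) :=
      Submodule.finiteDimensional_of_le inf_le_left
    have hfM : Module.Finite ℂ ↥(S.map φ ⊓ ordSub c A) :=
      Submodule.finiteDimensional_of_le inf_le_left
    refine add_le_add ?_ ?_
    · apply Submodule.finrank_mono
      exact inf_le_inf_right _ inf_le_left
    · refine le_trans (Submodule.finrank_mono ?_) h1
      rintro _ ⟨F, hF, rfl⟩
      obtain ⟨h3, h4⟩ := Submodule.mem_inf.mp hF
      exact Submodule.mem_inf.mpr ⟨⟨F, h3, rfl⟩, h4⟩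
  have h5 := finrank_eq_ker_add_map φ S
  refine hT.trans ?_
  rcases Nat.lt_or_ge (finrank ℂ ↥(S.map φ)) A with h6 | h6
  · refine le_trans ?_ (le_max_right _ _)
    omega
  · refine le_trans ?_ (le_max_left _ _)
    omega

/-! ### the points -/

theorem generic_coord_ne {N : ℕ} {q : Fin N → V3} (hq : GenericPoints q) (i : Fin N)
    (k : Fin 3) : q i k ≠ 0 := by
  have h1 := AlgebraicIndependent.ne_zero hq (i, k)
  exact h1

/-! ### peeling -/

theorem peel {δ κ m r N A : ℕ} {T : Set (Fin 3 →₀ ℕ)} (hκ : 1 ≤ κ) (hA : A ≤ δ + 2)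
    (hT' : ∀ α β : Fin 3 →₀ ℕ, α ∈ T → β 2 = α 2 → β 0 ≤ α 0 → β 0 + β 1 = α 0 + α 1 → β ∈ T)
    (hkill : Kills (δ + 1 + κ) m N {α | α ∈ T ∧ (α 2 < κ ∨ (α 2 = κ ∧ α 0 < A))}) :
    hT (δ + 1 + κ) T m (r + N) ≤
      max (hT (δ + 1) {β | β + Finsupp.single 2 κ ∈ T} m r - A)
        (hT δ {β | β + Finsupp.single 2 (κ + 1) ∈ T} m r) := by
  classical
  set q := gpt r with hqdef
  have hq2 : ∀ i, q i 2 ≠ 0 := fun i => generic_coord_ne (gpt_generic r) i 2
  set T1 : Set (Fin 3 →₀ ℕ) := {β | β + Finsupp.single 2 κ ∈ T} with hT1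
  have hT1' : ∀ α β : Fin 3 →₀ ℕ, α ∈ T1 → β 2 = α 2 → β 0 ≤ α 0 →
      β 0 + β 1 = α 0 + α 1 → β ∈ T1 := by
    intro α β hα h2 h0 h1
    refine hT' _ _ hα ?_ ?_ ?_ <;> simp [Finsupp.add_apply, h2, h0, h1]
  obtain ⟨h, hh0, hh⟩ := flag_dim (δ := δ) (m := m) (A := A) (T := T1) q hq2
  obtain ⟨c, hc, -⟩ := exists_eval_ne hh0 (one_ne_zero (α := Polynomial ℂ))
  have hdim := hh c hc
  have hT2 : {β : Fin 3 →₀ ℕ | β + Finsupp.single 2 1 ∈ T1} =
      {β | β + Finsupp.single 2 (κ + 1) ∈ T} := by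
    ext β
    simp only [hT1, Set.mem_ofPred_eq, add_assoc, ← Finsupp.single_add]
    rw [add_comm 1 κ]
  rw [hT2] at hdim
  refine le_trans ?_ hdim
  -- the sheared points
  set p : Fin r → V3 := fun i => (shear c).mulVec (q i) with hp
  have hp2 : ∀ i, p i 2 ≠ 0 := by
    intro i
    rw [hp]
    simp only [shear_mulVec]
    exact hq2 i
  obtain ⟨P, hP, hkill⟩ := hkill
  let M := δ + 1 + κ + 1
  let w : Fin 3 → ℕ := ![1, 0, M]
  have hw : ∀ α : Fin 3 →₀ ℕ, wt3 w α = α 0 + M * α 2 := by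
    intro α
    unfold wt3
    simp [Fin.sum_univ_three, w]
  let c' := M * κ + A - 1
  have hc' : ∀ α : Fin 3 →₀ ℕ, α.degree = δ + 1 + κ → (wt3 w α ≤ c' ↔
      (α 2 < κ ∨ (α 2 = κ ∧ α 0 < A))) := by
    intro α hα
    rw [hw, Finsupp.degree_eq_sum, Fin.sum_univ_three] at *
    have hMu : 1 ≤ M * κ := Nat.mul_pos (Nat.succ_pos _) hκ
    have h0 : α 0 < M := by omega
    constructor
    · intro h
      by_cases h1 : α 2 < κ
      · exact Or.inl h1
      · right
        have h2 : M * κ ≤ M * α 2 := Nat.mul_le_mul_left _ (by omega)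
        have h3 : α 2 = κ := by
          by_contra hcon
          have h4 : M * (κ + 1) ≤ M * α 2 := Nat.mul_le_mul_left _ (by omega)
          rw [mul_add, mul_one] at h4
          have h5 : M = δ + 1 + κ + 1 := rfl
          have h6 : c' = M * κ + A - 1 := rfl
          omega
        refine ⟨h3, ?_⟩
        rw [h3] at h
        omega
    · rintro (h | ⟨h1, h2⟩)
      · have h3 : M * (α 2 + 1) ≤ M * κ := Nat.mul_le_mul_left _ (by omega)
        rw [mul_add, mul_one] at h3
        omega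
      · rw [h1]
        omega
  have hdeg : ∀ {F : R3}, F.IsHomogeneous (δ + 1 + κ) → ∀ α ∈ F.support,
      α.degree = δ + 1 + κ :=
    fun hF α hα => degree_of_mem_support hF (mem_support_iff.mp hα)
  obtain ⟨τ, hτ, h1⟩ := cut (D := δ + 1 + κ) w c' P (fun _ => m) T
    (fun G hG hG' hG'' => hkill G hG
      (fun α hα => ⟨(hG' α hα).1, (hc' α (hdeg hG α hα)).mp (hG' α hα).2⟩) hG'')
    (TS (δ + 1 + κ) T m p) (fun F hF => ⟨(mem_TS.mp hF).1,
      fun α hα => (mem_TS.mp hF).2.2 α (mem_support_iff.mp hα)⟩)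
  -- the part above
  have h2 : finrank ℂ ↥(TS (δ + 1 + κ) T m p ⊓ offSub {α | wt3 w α ≤ c'}) ≤
      finrank ℂ ↥(TS (δ + 1) T1 m q ⊓ (ordSub c A).comap (onLine e1 e0).toLinearMap) := by
    have hfin : Module.Finite ℂ ↥(TS (δ + 1) T1 m q ⊓
        (ordSub c A).comap (onLine e1 e0).toLinearMap) :=
      Submodule.finiteDimensional_of_le inf_le_left
    have h3 : TS (δ + 1 + κ) T m p ⊓ offSub {α | wt3 w α ≤ c'} ≤
        (TS (δ + 1) T1 m q ⊓ (ordSub c A).comap (onLine e1 e0).toLinearMap).map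
          (LinearMap.mulLeft ℂ (X 2 ^ κ : R3) ∘ₗ (subM (shear (-c))).toLinearMap) := by
      intro F hF
      rw [Submodule.mem_inf, mem_TS, mem_offSub] at hF
      obtain ⟨⟨hF1, hF2, hF3⟩, hF4⟩ := hF
      have hF5 : ∀ α : Fin 3 →₀ ℕ, (α 2 < κ ∨ (α 2 = κ ∧ α 0 < A)) → coeff α F = 0 := by
        intro α hα
        by_contra hcon
        have h5 := degree_of_mem_support hF1 hcon
        exact hcon (hF4 α ((hc' α h5).mpr hα))
      obtain ⟨G, hG1, hG2, hG3⟩ := exists_div_X2 hF1 (fun α hα => by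
        by_contra hcon
        exact (mem_support_iff.mp hα) (hF5 α (Or.inl (by omega))))
      have hGp : G ∈ TS (δ + 1) T1 m p := by
        refine mem_TS.mpr ⟨hG1, fun i => ?_, fun β hβ => ?_⟩
        · have h5 := hF2 i
          rw [hG2] at h5
          exact vanishTo_of_X2_pow_mul (hp2 i) h5
        · rw [hG3] at hβ
          have h5 := hF3 _ hβ
          rwa [add_comm] at h5
      refine Submodule.mem_map.mpr ⟨subM (shear c) G, Submodule.mem_inf.mpr
        ⟨subM_shear_mem hT1' hGp, ?_⟩, ?_⟩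
      · change onLine e1 e0 (subM (shear c) G) ∈ ordSub c A
        have h6 : onLine e1 e0 G =
            (onLine e1 e0 (subM (shear c) G)).comp (Polynomial.X + Polynomial.C c) := by
          rw [onLine_subM]
          have h7 : (shear c).mulVec e0 = e0 := by
            rw [shear_mulVec]
            funext i
            fin_cases i <;> simp [e0]
          have h8 : ((shear c).mulVec e1 + c • e0 : V3) = e1 := by
            rw [shear_mulVec]
            funext i
            fin_cases i <;> simp [e0, e1]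
          rw [h7, ← onLine_shift, h8]
        intro k hk
        rw [← h6, onLine_e1_e0, Polynomial.finsetSum_coeff]
        refine Finset.sum_eq_zero (fun β _ => ?_)
        rw [Polynomial.coeff_C_mul_X_pow]
        split_ifs with h8 h9
        · rw [hG3, hF5 _ (Or.inr ⟨?_, ?_⟩), zero_mul]
          · rw [Finsupp.add_apply, Finsupp.single_eq_same, h9, add_zero]
          · rw [Finsupp.add_apply, Finsupp.single_eq_of_ne (by decide), zero_add]
            omega
        · rw [mul_zero]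
        · rfl
      · rw [LinearMap.comp_apply, LinearMap.mulLeft_apply, AlgHom.toLinearMap_apply, subM_subM]
        have h9 : shear c * shear (-c) = 1 := by
          have h10 := shear_mul (-c)
          rwa [neg_neg] at h10
        rw [h9, subM_one, hG2]
    exact (Submodule.finrank_mono h3).trans (Submodule.finrank_map_le _ _)
  refine le_trans ?_ (h1.trans h2)
  -- all the points
  let P' : Fin N → V3 := fun k i => τ ^ w i * P k i
  refine (hT_le (Fin.append p P')).trans ?_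
  have hfin : Module.Finite ℂ ↥(TS (δ + 1 + κ) T m p ⊓
      ⨅ k, vanSub (fun i => τ ^ w i * P k i) m) :=
    Submodule.finiteDimensional_of_le inf_le_left
  apply Submodule.finrank_mono
  intro F hF
  obtain ⟨hF1, hF2, hF3⟩ := mem_TS.mp hF
  rw [Submodule.mem_inf, Submodule.mem_iInf]
  refine ⟨mem_TS.mpr ⟨hF1, fun i => ?_, hF3⟩, fun k => ?_⟩
  · have h4 := hF2 (Fin.castAdd N i)
    rwa [Fin.append_left] at h4
  · have h4 := hF2 (Fin.natAdd r k)
    rw [Fin.append_right] at h4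
    exact h4

end Pool.Agent.Work.MP_0421d9_ag.LD
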