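import Pool.Agent.Work.MP_0421d9_ag.UPeel
import Pool.Agent.Work.MP_0421d9_ag.Tile69

/-!
Strips of a rectangle.
-/

namespace Pool.Agent.Work.MP_0421d9_ag.LD

open MvPolynomial Module

theorem rect_strip {H L k α β N : ℕ} (hk : 1 ≤ k) (hH : k + 1 ≤ H) (hL2 : 2 ≤ L)
    (hL : L = α * k + β * (k + 1)) :
    hR H L k (N + 2 * (α + β)) ≤ max (hR (H - k) L k N - α * k) (hR (H - k - 1) L k N) := by
  have hle : α * k ≤ L := by omega
  have h1 : Kills (H + L - 3 - k + 1 + k) k (2 * (α + β))
      {γ | γ ∈ rect H L ∧ (γ 2 < k ∨ (γ 2 = k ∧ γ 0 < α * k))} := by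
    have h2 := kills_wide (D := H + L - 3 - k + 1 + k) (A := α * k) hk α β rfl (by omega)
    refine h2.mono ?_
    intro γ hγ hT
    obtain ⟨⟨h3, h4⟩, h5⟩ := hT
    rw [degree_three] at hγ
    exact ⟨hγ, by omega, h5⟩
  have h2 := peel (r := N) hk (A := α * k) (by omega) (T := rect H L)
    (fun α' β' h3 h4 h5 _ => ⟨by rw [h4]; exact h3.1, lt_of_le_of_lt h5 h3.2⟩) h1
  have e1 : H + L - 3 - k + 1 + k = H + L - 2 := by omega
  have e2 : H + L - 3 - k + 1 = H - k + L - 2 := by omega
  have e3 : H + L - 3 - k = H - k - 1 + L - 2 := by omega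
  have e4 : {γ : Fin 3 →₀ ℕ | γ + Finsupp.single 2 k ∈ rect H L} = rect (H - k) L := by
    ext γ
    constructor
    · rintro ⟨h3, h4⟩
      rw [Finsupp.add_apply, Finsupp.single_eq_same] at h3
      rw [Finsupp.add_apply, Finsupp.single_eq_of_ne (by decide), add_zero] at h4
      exact ⟨by omega, h4⟩
    · rintro ⟨h3, h4⟩
      refine ⟨?_, ?_⟩
      · rw [Finsupp.add_apply, Finsupp.single_eq_same]
        omega
      · rw [Finsupp.add_apply, Finsupp.single_eq_of_ne (by decide), add_zero]
        exact h4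
  have e5 : {γ : Fin 3 →₀ ℕ | γ + Finsupp.single 2 (k + 1) ∈ rect H L} = rect (H - k - 1) L := by
    ext γ
    constructor
    · rintro ⟨h3, h4⟩
      rw [Finsupp.add_apply, Finsupp.single_eq_same] at h3
      rw [Finsupp.add_apply, Finsupp.single_eq_of_ne (by decide), add_zero] at h4
      exact ⟨by omega, h4⟩
    · rintro ⟨h3, h4⟩
      refine ⟨?_, ?_⟩
      · rw [Finsupp.add_apply, Finsupp.single_eq_same]
        omega
      · rw [Finsupp.add_apply, Finsupp.single_eq_of_ne (by decide), add_zero]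
        exact h4
  rw [e1, e2, e3, e4, e5] at h2
  exact h2

theorem two_choose_succ (k : ℕ) : 2 * (k + 1).choose 2 = k * (k + 1) := by
  have h := Nat.triangle_succ k
  have h2 := Nat.choose_two_right (k + 1)
  rw [Nat.add_sub_cancel] at h2
  have h3 : Even ((k + 1) * k) := by
    rw [mul_comm]
    exact Nat.even_mul_succ_self k
  rw [h2, Nat.mul_div_cancel' h3.two_dvd, mul_comm]

theorem rect_pack_aux {L k α β : ℕ} (hk : 1 ≤ k) (hL2 : 2 ≤ L)
    (hL : L = α * k + β * (k + 1)) : ∀ (u H : ℕ), (k + 1) * u ≤ H →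
      hR H L k (2 * (α + β) * u) + 2 * (α + β) * u * (k + 1).choose 2 = H * L := by
  intro u
  induction u with
  | zero =>
    intro H _
    rw [Nat.mul_zero, hR_no_points, Nat.zero_mul, Nat.add_zero]
  | succ u ih =>
    intro H hH
    have hH' : (k + 1) * u + (k + 1) ≤ H := by
      rw [Nat.mul_succ] at hH
      exact hH
    have e : 2 * (α + β) * (u + 1) = 2 * (α + β) * u + 2 * (α + β) := by ring
    have h1 := rect_strip (N := 2 * (α + β) * u) hk (by omega : k + 1 ≤ H) hL2 hL
    have h2 := ih (H - k) (by omega)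
    have h3 := ih (H - k - 1) (by omega)
    have h4 := hR_count H L k (2 * (α + β) * (u + 1))
    rw [e] at h4 ⊢
    set N := 2 * (α + β) * u with hN
    set μ := (k + 1).choose 2 with hμ
    have hμ2 : 2 * μ = k * (k + 1) := two_choose_succ k
    refine le_antisymm ?_ h4
    obtain ⟨K, hK⟩ : ∃ K, H = K + k + 1 := ⟨H - k - 1, by omega⟩
    have e1 : H - k = K + 1 := by omega
    have e2 : H - k - 1 = K := by omega
    rw [e1] at h1 h2
    rw [Nat.add_sub_cancel] at h1
    rw [e2] at h3
    have e3 : (N + 2 * (α + β)) * μ = N * μ + (α + β) * (k * (k + 1)) := by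
      rw [← hμ2]
      ring
    have e4 : H * L = (K + 1) * L + α * (k * k) + β * (k * (k + 1)) := by
      rw [hK, hL]
      ring
    have e5 : H * L = K * L + α * (k * (k + 1)) + β * ((k + 1) * (k + 1)) := by
      rw [hK, hL]
      ring
    have e6 : α * (k * (k + 1)) = α * (k * k) + α * k := by ring
    have e7 : (α + β) * (k * (k + 1)) = α * (k * (k + 1)) + β * (k * (k + 1)) := by ring
    have e8 : β * (k * (k + 1)) ≤ β * ((k + 1) * (k + 1)) :=
      Nat.mul_le_mul_left _ (Nat.mul_le_mul_right _ (Nat.le_succ k))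
    rcases le_max_iff.mp h1 with h5 | h5
    · rw [e3]
      rcases Nat.lt_or_ge (hR (K + 1) L k N) (α * k) with h6 | h6
      · -- both systems are small
        have h7 : hR H L k (N + 2 * (α + β)) = 0 := by omega
        have h8 : H * L ≤ N * μ + (α + β) * (k * (k + 1)) := by
          rw [h7, e3, zero_add] at h4
          exact h4
        have h9 : N * μ ≤ K * L := by omega
        rw [h7]
        omega
      · omega
    · rw [e3]
      omega

theorem rect_pack {H L k α β N u : ℕ} (hk : 1 ≤ k) (hL2 : 2 ≤ L)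
    (hL : L = α * k + β * (k + 1)) (hu : (k + 1) * u ≤ H) (hN : N ≤ 2 * (α + β) * u) :
    hR H L k N + N * (k + 1).choose 2 = H * L := by
  have h1 := rect_pack_aux hk hL2 hL u H hu
  have h2 : hR H L k N ≤ hR H L k (2 * (α + β) * u) +
      (2 * (α + β) * u - N) * (k + 1).choose 2 := hT_drop hN
  have h3 := hR_count H L k N
  rw [Nat.sub_mul] at h2
  have h4 := Nat.mul_le_mul_right ((k + 1).choose 2) hN
  omega

end Pool.Agent.Work.MP_0421d9_ag.LD
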