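import Pool.Agent.Work.MP_0421d9_ag.Unif1

/-!
Uniform systems: a sharp upper bound for the dimension of the incomplete ones.
-/

set_option linter.unusedSectionVars false

namespace Pool.Agent.Work.MP_0421d9_ag

open MvPolynomial Module

section unif

variable {ι : Type} [Fintype ι] [DecidableEq ι] {d : ℕ} {p : ι → V3}
  {E : ι → Fin 3 → Derivation ℚ ℂ ℂ}

/-- multiplicity `n + 1` at the points of `T`, and `n` at the other points -/
def yT (n : ℕ) (T : Finset ι) : ι → ℕ := fun l => if l ∈ T then n + 1 else n

theorem yT_mem {n : ℕ} {T : Finset ι} {l : ι} (h : l ∈ T) : yT n T l = n + 1 := if_pos h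

theorem yT_not {n : ℕ} {T : Finset ι} {l : ι} (h : l ∉ T) : yT n T l = n := if_neg h

theorem up_yT {n : ℕ} {T : Finset ι} {j : ι} (h : j ∉ T) : up (yT n T) j = yT n (insert j T) := by
  funext l
  by_cases hl : l = j
  · subst hl
    rw [up_self, yT_not h, yT_mem (Finset.mem_insert_self _ _)]
  · rw [up_ne _ hl]
    unfold yT
    simp only [Finset.mem_insert, hl, false_or]

theorem yT_univ (n : ℕ) : yT n (Finset.univ : Finset ι) = yT (n + 1) ∅ := by
  funext l
  rw [yT_mem (Finset.mem_univ l), yT_not (Finset.notMem_empty l)]

theorem yT_le {n : ℕ} (T : Finset ι) (l : ι) : n ≤ yT n T l := by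
  unfold yT
  split_ifs <;> omega

/-- a permutation carrying a finite set to another one of the same size -/
theorem exists_perm {T T' : Finset ι} (h : T.card = T'.card) :
    ∃ π : Equiv.Perm ι, ∀ x, π x ∈ T' ↔ x ∈ T := by
  let e : {x // x ∈ T} ≃ {x // x ∈ T'} := Finset.equivOfCardEq h
  refine ⟨e.extendSubtype, fun x => ?_⟩
  constructor
  · intro hx
    by_contra hxT
    exact e.extendSubtype_not_mem x hxT hx
  · intro hx
    exact e.extendSubtype_mem x hx

/-- symmetry for uniform systems -/
theorem finrank_yT (hp : GenericPoints p) (n : ℕ) {T T' : Finset ι} (h : T.card = T'.card) :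
    finrank ℂ (linSys d p (yT n T)) = finrank ℂ (linSys d p (yT n T')) := by
  obtain ⟨π, hπ⟩ := exists_perm h
  have h1 := finrank_linSys_perm d hp (yT n T') π
  have h2 : (fun i => yT n T' (π i)) = yT n T := by
    funext i
    unfold yT
    simp only [hπ]
  rw [← h1, h2]

theorem cc_yT (hp : GenericPoints p) (n : ℕ) {T T' : Finset ι} (h : T.card = T'.card) {i i' : ι}
    (hi : i ∉ T) (hi' : i' ∉ T') : cc d p (yT n T) i = cc d p (yT n T') i' := by
  unfold cc
  rw [up_yT hi, up_yT hi', finrank_yT hp n h, finrank_yT (T := insert i T) (T' := insert i' T') hp n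
    (by rw [Finset.card_insert_of_notMem hi, Finset.card_insert_of_notMem hi', h])]

/-- spaces dual to the leading forms, when another multiplicity is raised -/
theorem UU_le_up {y : ι → ℕ} (hy : ∀ l, y l ≤ d) {i j : ι} (hji : j ≠ i) :
    UU d p y i ≤ UU d p (up y j) i := by
  have hui : up y j i = y i := up_ne y hji.symm
  intro V hV
  rw [mem_UU, hui]
  exact ⟨hV.1, J_mono (up_le_succ hy j) (le_up y j) hV.2⟩

theorem UU_eq_up (hE : IsDual p E) {y : ι → ℕ} (hy : ∀ l, y l ≤ d) {i j : ι} (hji : j ≠ i)
    (hyj : y j + 1 ≤ d) (h : cc d p y i ≤ cc d p (up y j) i) :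
    UU d p y i = UU d p (up y j) i := by
  have hmu : ∀ l, up y j l ≤ d := by
    intro l
    by_cases hl : l = j
    · rw [hl, up_self]; exact hyj
    · rw [up_ne y hl]; exact hy l
  have hui : up y j i = y i := up_ne y hji.symm
  apply Submodule.eq_of_le_of_finrank_le (UU_le_up hy hji)
  have h3 := cc_UU (d := d) (p := p) hy i (gp1 hE i)
  have h4 := cc_UU (d := d) (p := p) hmu i (gp1 hE i)
  rw [hui] at h4
  omega

/-- strict decrease -/
theorem cc_strict (hp : GenericPoints p) (hE : IsDual p E) {n : ℕ} {T : Finset ι} {i j : ι}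
    (hi : i ∉ T) (hj : j ∉ T) (hji : j ≠ i) (h : cc d p (yT n T) i ≤ n)
    (hpos : 0 < cc d p (yT n T) i) :
    cc d p (yT n (insert j T)) i < cc d p (yT n T) i := by
  by_contra hcon
  push Not at hcon
  have hfpos : finrank ℂ (linSys d p (yT n T)) ≠ 0 := by
    intro h0
    unfold cc at hpos
    omega
  have hyd := le_of_finrank_pos hfpos
  have hnd : n + 1 ≤ d := by
    by_contra hc
    have hfpos' : finrank ℂ (linSys d p (yT n (insert j T))) ≠ 0 := by
      intro h0
      unfold cc at hcon hpos
      omega
    have h1 := le_of_finrank_pos hfpos' j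
    rw [yT_mem (Finset.mem_insert_self _ _)] at h1
    omega
  have hyd' : ∀ (T' : Finset ι) (l : ι), yT n T' l ≤ d := by
    intro T' l
    unfold yT
    split_ifs <;> omega
  -- all the spaces agree
  have hUU : ∀ (T' : Finset ι) (j' : ι), T'.card = T.card → i ∉ T' → j' ∉ T' → j' ≠ i →
      UU d p (yT n T') i = UU d p (yT n (insert j' T')) i := by
    intro T' j' hc hi' hj' hji'
    have h1 : cc d p (yT n T') i = cc d p (yT n T) i := cc_yT hp n hc hi' hi
    have h2 : cc d p (yT n (insert j' T')) i = cc d p (yT n (insert j T)) i :=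
      cc_yT hp n (by
        rw [Finset.card_insert_of_notMem hj', Finset.card_insert_of_notMem hj, hc])
        (by
          rw [Finset.mem_insert, not_or]
          exact ⟨hji'.symm, hi'⟩)
        (by
          rw [Finset.mem_insert, not_or]
          exact ⟨hji.symm, hi⟩)
    rw [← up_yT hj']
    apply UU_eq_up hE (hyd' T') hji' (by rw [yT_not hj']; exact hnd)
    rw [up_yT hj', h1, h2]
    exact hcon
  obtain ⟨l, hli, w, U, hU, hDU⟩ := exists_active hE hyd i (by rw [yT_not hi]; exact h) hpos
  -- moving `l`
  have hmove : ∀ T' : Finset ι, i ∉ T' → l ∉ T' → U ∈ UU d p (yT n T') i →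
      cD (mv E l w) U ∈ UU d p (yT n (insert l T')) i := by
    intro T' hi' hl' hU'
    have e1 : yT n T' i = n := yT_not hi'
    have e2 : yT n (insert l T') i = n := yT_not (by
      rw [Finset.mem_insert, not_or]
      exact ⟨hli.symm, hi'⟩)
    rw [mem_UU, e1] at hU'
    rw [mem_UU, e2]
    refine ⟨cD_isHomogeneous _ hU'.1, ?_⟩
    have h2 := cD_mem_J_up hE (hyd' T') l w hU'.2
    rwa [cD_mul, cD_lin_pow_ne hE hli.symm, zero_mul, zero_add, up_yT hl'] at h2
  by_cases hl : l ∈ T
  · -- exchange
    set T' := insert j (T.erase l) with hT'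
    have hjl : j ≠ l := by
      rintro rfl
      exact hj hl
    have hj' : j ∉ T.erase l := fun h' => hj (Finset.mem_of_mem_erase h')
    have hc : T'.card = T.card := by
      rw [hT', Finset.card_insert_of_notMem hj', Finset.card_erase_of_mem hl]
      have := Finset.card_pos.mpr ⟨l, hl⟩
      omega
    have hi' : i ∉ T' := by
      rw [hT', Finset.mem_insert, not_or]
      exact ⟨hji.symm, fun h' => hi (Finset.mem_of_mem_erase h')⟩
    have hl' : l ∉ T' := by
      rw [hT', Finset.mem_insert, not_or]
      exact ⟨hjl.symm, Finset.notMem_erase l T⟩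
    have hins : insert l T' = insert j T := by
      rw [hT', Finset.insert_comm, Finset.insert_erase hl]
    have e1 := hUU T j rfl hi hj hji
    have e2 := hUU T' l hc hi' hl' hli
    rw [hins] at e2
    have h1 : U ∈ UU d p (yT n T') i := by
      rw [e2, ← e1]
      exact hU
    have h2 := hmove T' hi' hl' h1
    rw [hins, ← e1] at h2
    exact hDU h2
  · have h2 := hmove T hi hl hU
    rw [← hUU T l rfl hi hl hli] at h2
    exact hDU h2

/-- the sum of the positive terms of `x, x - q, x - 2 q, ...` -/
def stair (q x : ℕ) : ℕ := ∑ k ∈ Finset.range (x + 1), (x - k * q)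

theorem stair_zero (q : ℕ) : stair q 0 = 0 := by
  simp [stair]

theorem stair_eq {q : ℕ} (hq : 1 ≤ q) (x : ℕ) : stair q x = x + stair q (x - q) := by
  unfold stair
  rw [Finset.sum_range_succ', zero_mul, Nat.sub_zero, add_comm]
  congr 1
  have h1 : ∀ k, x - (k + 1) * q = (x - q) - k * q := by
    intro k
    rw [add_mul, one_mul, Nat.sub_sub, add_comm q]
  rw [Finset.sum_congr rfl (fun k _ => h1 k)]
  rcases Nat.lt_or_ge x q with h | h
  · rw [Nat.sub_eq_zero_of_le h.le]
    simp
  · symm
    apply Finset.sum_subset
    · intro k hk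
      rw [Finset.mem_range] at *
      omega
    · intro k _ hk
      rw [Finset.mem_range] at hk
      have : k ≤ k * q := Nat.le_mul_of_pos_right k hq
      omega

/-- the bound for a uniform system, in the course of raising the multiplicities -/
theorem bound_aux (hp : GenericPoints p) (hE : IsDual p E) {q : ℕ} (hq : 1 ≤ q)
    (hcard : Fintype.card ι = q + 1) : ∀ (c s : ℕ), s ≤ q → ∀ (n : ℕ) (T : Finset ι) (i : ι),
    i ∉ T → T.card + s = q → cc d p (yT n T) i ≤ c → c ≤ n →
    finrank ℂ (linSys d p (yT n T)) ≤ (c + 1).choose 2 + stair q (c - s) := by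
  have key : ∀ (N c s : ℕ), s ≤ q → c * (q + 1) + (if s = 0 then 1 else 0) ≤ N →
      ∀ (n : ℕ) (T : Finset ι) (i : ι),
      i ∉ T → T.card + s = q → cc d p (yT n T) i ≤ c → c ≤ n →
      finrank ℂ (linSys d p (yT n T)) ≤ (c + 1).choose 2 + stair q (c - s) := by
    intro N
    induction N with
    | zero =>
      intro c s hs hN n T i hi hT hc hcn
      have hc0 : c = 0 := by
        by_contra h
        have : 0 < c * (q + 1) := Nat.mul_pos (Nat.pos_of_ne_zero h) (Nat.succ_pos q)
        omega
      subst hc0
      have h1 := finrank_eq_zero_of_cc hE i (d + 1) (yT n T) (by omega) (Nat.le_zero.mp hc)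
      rw [h1]
      exact Nat.zero_le _
    | succ N ih =>
      intro c s hs hN n T i hi hT hc hcn
      by_cases hc0 : cc d p (yT n T) i = 0
      · have h1 := finrank_eq_zero_of_cc hE i (d + 1) (yT n T) (by omega) hc0
        rw [h1]
        exact Nat.zero_le _
      have hcpos : 0 < c := by omega
      obtain ⟨c', rfl⟩ : ∃ c', c = c' + 1 := ⟨c - 1, by omega⟩
      have hch : (c' + 1 + 1).choose 2 = (c' + 1).choose 2 + (c' + 1) := choose_two_succ c'
      rcases Nat.eq_zero_or_pos s with hs0 | hs0
      · -- the last point of the round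
        subst hs0
        have hTi : insert i T = Finset.univ := by
          apply Finset.eq_univ_of_card
          rw [Finset.card_insert_of_notMem hi, hcard]
          omega
        have hne : (Finset.univ.erase i : Finset ι).Nonempty := by
          rw [← Finset.card_pos, Finset.card_erase_of_mem (Finset.mem_univ i), Finset.card_univ,
            hcard]
          omega
        have h1 := cc_add (d := d) (p := p) (yT n T) i
        rw [up_yT hi, hTi, yT_univ] at h1
        have hfpos : finrank ℂ (linSys d p (yT n T)) ≠ 0 := by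
          intro h0
          unfold cc at hc0
          omega
        have h2 : cc d p (yT (n + 1) ∅) i ≤ c' + 1 := by
          have h3 := cc_up_self hE (le_of_finrank_pos hfpos) i (by
            rw [yT_not hi]; omega)
          rw [up_yT hi, hTi, yT_univ] at h3
          omega
        have h4 := ih (c' + 1) q le_rfl (by
          rw [if_pos rfl] at hN
          rw [if_neg (by omega)]
          omega) (n + 1) ∅ i (Finset.notMem_empty i) (by rw [Finset.card_empty, zero_add]) h2
          (by omega)
        have h5 : stair q (c' + 1 - 0) = (c' + 1) + stair q (c' + 1 - q) := by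
          rw [Nat.sub_zero]
          exact stair_eq hq _
        rw [h5]
        omega
      · -- another point
        obtain ⟨s', rfl⟩ : ∃ s', s = s' + 1 := ⟨s - 1, by omega⟩
        obtain ⟨j, hj⟩ : ∃ j, j ∉ insert i T := by
          by_contra hcon
          push Not at hcon
          have h1 : insert i T = Finset.univ := Finset.eq_univ_iff_forall.mpr hcon
          have h2 := congrArg Finset.card h1
          rw [Finset.card_insert_of_notMem hi, Finset.card_univ, hcard] at h2
          omega
        rw [Finset.mem_insert, not_or] at hj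
        obtain ⟨hji, hjT⟩ := hj
        have h1 := cc_add (d := d) (p := p) (yT n T) j
        rw [up_yT hjT, cc_yT hp n rfl hjT hi] at h1
        have h2 := cc_strict hp hE hi hjT hji (by omega) (Nat.pos_of_ne_zero hc0)
        have hmul : (c' + 1) * (q + 1) = c' * (q + 1) + (q + 1) := by ring
        have h4 := ih c' s' (by omega) (by
          rw [if_neg (by omega)] at hN
          split_ifs <;> omega) n (insert j T) i
          (by
            rw [Finset.mem_insert, not_or]
            exact ⟨fun h => hji h.symm, hi⟩)
          (by rw [Finset.card_insert_of_notMem hjT]; omega) (by omega) (by omega)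
        have h5 : c' + 1 - (s' + 1) = c' - s' := by omega
        rw [h5]
        omega
  intro c s hs n T i hi hT hc hcn
  exact key _ c s hs le_rfl n T i hi hT hc hcn

/-- an incomplete uniform system is small -/
theorem unif_incomplete (hp : GenericPoints p) (hE : IsDual p E) {q : ℕ} (hq : 1 ≤ q)
    (hcard : Fintype.card ι = q + 1) {n c : ℕ} {i : ι} (hc : cc d p (fun _ => n) i ≤ c)
    (hcn : c ≤ n) :
    finrank ℂ (linSys d p (fun _ : ι => n)) ≤ (c + 1).choose 2 + stair q (c - q) := by
  have h1 : (fun _ : ι => n) = yT n ∅ := by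
    funext l
    rw [yT_not (Finset.notMem_empty l)]
  rw [h1] at hc ⊢
  exact bound_aux hp hE hq hcard c q le_rfl n ∅ i (Finset.notMem_empty i)
    (by rw [Finset.card_empty, zero_add]) hc hcn

/-- monotonicity in the other multiplicities -/
theorem cc_mono_le {y y' : ι → ℕ} (h : ∀ l, y l ≤ y' l) {i : ι} (hi : y i = y' i) :
    cc d p y' i ≤ cc d p y i := by
  have h1 := Submodule.finrank_sup_add_finrank_inf_eq (linSys d p y') (linSys d p (up y i))
  have h2 : linSys d p y' ⊓ linSys d p (up y i) = linSys d p (up y' i) := by
    ext F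
    constructor
    · rintro ⟨hF1, hF2⟩
      refine ⟨hF1.1, fun x => ?_⟩
      by_cases hx : x = i
      · subst hx
        rw [up_self, ← hi]
        have := hF2.2 x
        rwa [up_self] at this
      · rw [up_ne _ hx]
        exact hF1.2 x
    · intro hF
      refine ⟨linSys_mono (le_up _ _) hF, ?_⟩
      refine linSys_mono (fun x => ?_) hF
      by_cases hx : x = i
      · rw [hx, up_self, up_self, hi]
      · rw [up_ne _ hx, up_ne _ hx]
        exact h x
  have h3 : linSys d p y' ⊔ linSys d p (up y i) ≤ linSys d p y :=
    sup_le (linSys_mono h) (linSys_mono (le_up _ _))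
  have h4 := Submodule.finrank_mono h3
  rw [h2] at h1
  have h5 := cc_add (d := d) (p := p) y i
  have h6 := cc_add (d := d) (p := p) y' i
  omega

/-- iterated unimodality -/
theorem cc_update_le (hE : IsDual p E) {y : ι → ℕ} {i : ι} {c : ℕ} (hc : cc d p y i ≤ c)
    (hci : c ≤ y i) (t : ℕ) : cc d p (Function.update y i (y i + t)) i ≤ c := by
  induction t with
  | zero => rwa [add_zero, Function.update_eq_self]
  | succ t ih =>
    have h1 : Function.update y i (y i + (t + 1)) = up (Function.update y i (y i + t)) i := by
      unfold up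
      rw [Function.update_self, Function.update_idem]
      congr 1
    rw [h1]
    by_cases hf : finrank ℂ (linSys d p (Function.update y i (y i + t))) = 0
    · have h2 : finrank ℂ (linSys d p (up (Function.update y i (y i + t)) i)) ≤
          finrank ℂ (linSys d p (Function.update y i (y i + t))) :=
        Submodule.finrank_mono (linSys_mono (le_up _ _))
      unfold cc
      omega
    · have h2 := cc_up_self hE (le_of_finrank_pos hf) i (by
        rw [Function.update_self]
        omega)
      omega

/-- special uniform systems are small -/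
theorem unif_special (hp : GenericPoints p) {q : ℕ} (hq : 1 ≤ q) (hcard : Fintype.card ι = q + 1)
    {m : ℕ} (hpos : linSys d p (fun _ : ι => m) ≠ ⊥)
    (h : finrank ℂ (linSys d p (fun _ : ι => m)) + (q + 1) * (m + 1).choose 2 ≠
      (d + 2).choose 2) :
    finrank ℂ (linSys d p (fun _ : ι => m)) ≤ m.choose 2 + stair q (m - 1 - q) := by
  obtain ⟨E, hE⟩ := exists_dual p hp
  have hfin : Module.Finite ℂ (linSys d p (fun _ : ι => m)) :=
    Submodule.finiteDimensional_of_le (linSys_le d p _)
  have hpos' : finrank ℂ (linSys d p (fun _ : ι => m)) ≠ 0 := fun h0 =>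
    hpos (Submodule.finrank_eq_zero.mp h0)
  have hm := le_of_finrank_pos hpos'
  have h1 := chi_le (d := d) (p := p) (m := fun _ : ι => m)
    (fun i => (hm i).trans (Nat.le_succ d))
  have h2 : ∑ _i : ι, (m + 1).choose 2 = (q + 1) * (m + 1).choose 2 := by
    rw [Finset.sum_const, Finset.card_univ, hcard, smul_eq_mul]
  rw [h2] at h1
  obtain ⟨y, i, hy, hc⟩ := exists_incomplete (d := d) (p := p) (∑ _i : ι, m) (fun _ => m) le_rfl
    (by rw [h2]; omega)
  have hyi : y i + 1 ≤ m := by
    have := hy i
    rwa [up_self] at this
  -- raise the other multiplicities to `m`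
  set y' : ι → ℕ := Function.update (fun _ => m) i (y i) with hy'
  have hy'i : y' i = y i := by rw [hy', Function.update_self]
  have h3 : cc d p y' i ≤ cc d p y i := by
    apply cc_mono_le
    · intro l
      by_cases hl : l = i
      · rw [hl, hy'i]
      · rw [hy', Function.update_of_ne hl]
        have := hy l
        rwa [up_ne _ hl] at this
    · exact hy'i.symm
  have h4 : cc d p (fun _ => m) i ≤ y i := by
    have h5 := cc_update_le hE (y := y') (i := i) (c := y i) (h3.trans hc) (by rw [hy'i])
      (m - y i)
    have h6 : Function.update y' i (y' i + (m - y i)) = fun _ => m := by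
      rw [hy'i, hy', Function.update_idem, (by omega : y i + (m - y i) = m)]
      exact Function.update_eq_self i (fun _ => m)
    rwa [h6] at h5
  have h5 := unif_incomplete (d := d) hp hE hq hcard (c := m - 1) (n := m) (i := i)
    (by omega) (by omega)
  rwa [(by omega : m - 1 + 1 = m)] at h5

end unif

end Pool.Agent.Work.MP_0421d9_ag
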