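import Pool.Agent.Work.MP_0421d9_ag.Unif3

/-!
Uniform systems: the superabundance of the nonempty ones.
-/

set_option linter.unusedSectionVars false

namespace Pool.Agent.Work.MP_0421d9_ag

open MvPolynomial Module

section unif

variable {ι : Type} [Fintype ι] [DecidableEq ι] {d : ℕ} {p : ι → V3}
  {E : ι → Fin 3 → Derivation ℚ ℂ ℂ}

/-- dimension plus the number of conditions -/
noncomputable def gg (d : ℕ) (p : ι → V3) (y : ι → ℕ) : ℕ :=
  finrank ℂ (linSys d p y) + ∑ l, (y l + 1).choose 2

theorem gg_up (y : ι → ℕ) (i : ι) : gg d p (up y i) + cc d p y i = gg d p y + (y i + 1) := by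
  unfold gg
  rw [sum_choose_up]
  have := cc_add (d := d) (p := p) y i
  omega

/-- The deficits along a path ending at the uniform system of multiplicity `m`. -/
theorem deficit (hp : GenericPoints p) (hE : IsDual p E) {q : ℕ} (hcard : Fintype.card ι = q + 1)
    {m e : ℕ} (hne : finrank ℂ (linSys d p (yT m (∅ : Finset ι))) ≠ 0)
    (he : ∀ i : ι, cc d p (yT (m - 1) (Finset.univ.erase i)) i = e) (hem : e ≤ m) : ∀ τ : ℕ,
    ∀ (n : ℕ) (T : Finset ι), n ≤ m → T.card ≤ q → (m - n) * (q + 1) = T.card + τ →
      (1 ≤ τ → ∀ i, i ∉ T → n + 1 ≤ cc d p (yT n T) i + (m - e - (τ - 1))) ∧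
      gg d p (yT m (∅ : Finset ι)) ≤
        gg d p (yT n T) + ∑ t ∈ Finset.range τ, (m - e - t) := by
  intro τ
  induction τ with
  | zero =>
    intro n T hnm hT hτ
    refine ⟨fun h => absurd h (by norm_num), ?_⟩
    have h1 : n = m := by
      by_contra hn
      have : 1 ≤ m - n := by omega
      have h2 : q + 1 ≤ (m - n) * (q + 1) := Nat.le_mul_of_pos_left _ this
      omega
    subst h1
    rw [Nat.sub_self, zero_mul] at hτ
    have h2 : T = ∅ := Finset.card_eq_zero.mp (by omega)
    rw [h2, Finset.range_zero, Finset.sum_empty, add_zero]
  | succ τ ih =>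
    intro n T hnm hT hτ
    have hn : n < m := by
      rcases Nat.lt_or_ge n m with h | h
      · exact h
      · exfalso
        rw [Nat.sub_eq_zero_of_le h, zero_mul] at hτ
        omega
    have hle : ∀ (n' : ℕ) (T' : Finset ι), n' < m → finrank ℂ (linSys d p (yT n' T')) ≠ 0 := by
      intro n' T' hn' h0
      apply hne
      have h1 : finrank ℂ (linSys d p (yT m (∅ : Finset ι))) ≤
          finrank ℂ (linSys d p (yT n' T')) := by
        apply Submodule.finrank_mono
        apply linSys_mono
        intro l
        rw [yT_not (Finset.notMem_empty l)]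
        unfold yT
        split_ifs <;> omega
      omega
    -- the next state
    have hstep : ∀ i, i ∉ T → (1 ≤ τ → n + 1 ≤ cc d p (yT n T) i + (m - e - τ)) ∧
        gg d p (yT m (∅ : Finset ι)) ≤ gg d p (up (yT n T) i) +
          ∑ t ∈ Finset.range τ, (m - e - t) := by
      intro i hi
      have hpos : 0 < cc d p (yT n T) i := by
        rcases Nat.eq_zero_or_pos (cc d p (yT n T) i) with h0 | h0
        · exact absurd (finrank_eq_zero_of_cc hE i (d + 1) (yT n T) (by omega) h0) (hle n T hn)
        · exact h0
      rcases Nat.lt_or_ge T.card q with hTq | hTq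
      · -- same level
        obtain ⟨j, hj⟩ : ∃ j, j ∉ insert i T := by
          by_contra hcon
          push Not at hcon
          have h1 : insert i T = Finset.univ := Finset.eq_univ_iff_forall.mpr hcon
          have h2 := congrArg Finset.card h1
          rw [Finset.card_insert_of_notMem hi, Finset.card_univ, hcard] at h2
          omega
        rw [Finset.mem_insert, not_or] at hj
        obtain ⟨hji, hjT⟩ := hj
        constructor
        · intro hτ1
          have h1 := (ih n (insert j T) hnm (by rw [Finset.card_insert_of_notMem hjT]; omega)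
            (by rw [Finset.card_insert_of_notMem hjT]; omega)).1 hτ1 i
            (by
              rw [Finset.mem_insert, not_or]
              exact ⟨fun h => hji h.symm, hi⟩)
          by_cases hc : cc d p (yT n T) i ≤ n
          · have h2 := cc_strict hp hE hi hjT hji hc hpos
            omega
          · omega
        · rw [up_yT hi]
          exact (ih n (insert i T) hnm (by rw [Finset.card_insert_of_notMem hi]; omega)
            (by rw [Finset.card_insert_of_notMem hi]; omega)).2
      · -- next level
        have hTc : T.card = q := le_antisymm hT hTq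
        have hTi : insert i T = Finset.univ := by
          apply Finset.eq_univ_of_card
          rw [Finset.card_insert_of_notMem hi, hcard]
          omega
        have hmn : (m - (n + 1)) * (q + 1) = τ := by
          have h1 : m - n = (m - (n + 1)) + 1 := by omega
          rw [h1, add_mul, one_mul] at hτ
          omega
        have hih := ih (n + 1) ∅ (by omega) (by rw [Finset.card_empty]; exact Nat.zero_le _)
          (by rw [Finset.card_empty, zero_add]; exact hmn)
        constructor
        · intro hτ1
          have h1 := hih.1 hτ1 i (Finset.notMem_empty i)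
          by_cases hc : cc d p (yT n T) i ≤ n
          · have h2 := cc_up_self hE (le_of_finrank_pos (hle n T hn)) i (by
              rw [yT_not hi]; exact hc)
            rw [up_yT hi, hTi, yT_univ] at h2
            omega
          · omega
        · rw [up_yT hi, hTi, yT_univ]
          exact hih.2
    have hdef : ∀ i, i ∉ T → n + 1 ≤ cc d p (yT n T) i + (m - e - τ) := by
      intro i hi
      rcases Nat.eq_zero_or_pos τ with h0 | h0
      · -- the last step
        subst h0
        have h1 : m - n = 1 := by
          have h2 : (m - n) * (q + 1) ≤ 1 * (q + 1) := by omega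
          have h3 := Nat.le_of_mul_le_mul_right h2 (Nat.succ_pos q)
          omega
        have hTc : T.card = q := by
          rw [h1, one_mul] at hτ
          omega
        have hTi : T = Finset.univ.erase i := by
          apply Finset.eq_of_subset_of_card_le
          · intro x hx
            rw [Finset.mem_erase]
            refine ⟨?_, Finset.mem_univ x⟩
            rintro rfl
            exact hi hx
          · rw [Finset.card_erase_of_mem (Finset.mem_univ i), Finset.card_univ, hcard]
            omega
        have h2 := he i
        rw [← hTi, (by omega : m - 1 = n)] at h2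
        omega
      · exact (hstep i hi).1 h0
    refine ⟨fun _ i hi => ?_, ?_⟩
    · rw [Nat.add_sub_cancel]
      exact hdef i hi
    · obtain ⟨i, hi⟩ : ∃ i, i ∉ T := by
        by_contra hcon
        push Not at hcon
        have h1 : T = Finset.univ := Finset.eq_univ_iff_forall.mpr hcon
        have h2 := congrArg Finset.card h1
        rw [Finset.card_univ, hcard] at h2
        omega
      have h1 := (hstep i hi).2
      have h2 := gg_up (d := d) (p := p) (yT n T) i
      rw [yT_not hi] at h2
      have h3 := hdef i hi
      rw [Finset.sum_range_succ]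
      omega

theorem sum_range_sub (x : ℕ) : ∀ N : ℕ, ∑ t ∈ Finset.range N, (x - t) ≤ (x + 1).choose 2 := by
  induction x with
  | zero =>
    intro N
    simp
  | succ x ih =>
    intro N
    cases N with
    | zero => simp
    | succ N =>
      have h1 : ∑ t ∈ Finset.range (N + 1), (x + 1 - t) =
          ∑ t ∈ Finset.range N, (x - t) + (x + 1) := by
        rw [Finset.sum_range_succ']
        congr 1
        exact Finset.sum_congr rfl (fun t _ => by omega)
      have h2 := ih N
      have h3 : (x + 1 + 1).choose 2 = (x + 1).choose 2 + (x + 1) := choose_two_succ x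
      omega

/-- **Uniform systems.** Bounds for the dimension and the superabundance of the nonempty special
ones. -/
theorem unif_window (hp : GenericPoints p) {q : ℕ} (hq : 1 ≤ q) (hcard : Fintype.card ι = q + 1)
    {m : ℕ} (hpos : linSys d p (fun _ : ι => m) ≠ ⊥)
    (h : finrank ℂ (linSys d p (fun _ : ι => m)) + (q + 1) * (m + 1).choose 2 ≠
      (d + 2).choose 2) :
    ∃ e, 1 ≤ e ∧ e + 1 ≤ m ∧
      finrank ℂ (linSys d p (fun _ : ι => m)) ≤ (e + 1).choose 2 + stair q (e - q) ∧
      finrank ℂ (linSys d p (fun _ : ι => m)) + (q + 1) * (m + 1).choose 2 ≤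
        (d + 2).choose 2 + (m - e + 1).choose 2 := by
  obtain ⟨E, hE⟩ := exists_dual p hp
  have hfin : Module.Finite ℂ (linSys d p (fun _ : ι => m)) :=
    Submodule.finiteDimensional_of_le (linSys_le d p _)
  have hpos' : finrank ℂ (linSys d p (fun _ : ι => m)) ≠ 0 := fun h0 =>
    hpos (Submodule.finrank_eq_zero.mp h0)
  have hm := le_of_finrank_pos hpos'
  have h1 := chi_le (d := d) (p := p) (m := fun _ : ι => m)
    (fun i => (hm i).trans (Nat.le_succ d))
  have h2 : ∑ _i : ι, (m + 1).choose 2 = (q + 1) * (m + 1).choose 2 := by
    rw [Finset.sum_const, Finset.card_univ, hcard, smul_eq_mul]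
  rw [h2] at h1
  obtain ⟨y, i, hy, hc⟩ := exists_incomplete (d := d) (p := p) (∑ _i : ι, m) (fun _ => m) le_rfl
    (by rw [h2]; omega)
  have hyi : y i + 1 ≤ m := by
    have := hy i
    rwa [up_self] at this
  have hconst : (fun _ : ι => m) = yT m ∅ := by
    funext l
    rw [yT_not (Finset.notMem_empty l)]
  -- the last step
  set z : ι → ℕ := yT (m - 1) (Finset.univ.erase i) with hz
  have hzi : z i = m - 1 := yT_not (Finset.notMem_erase i _)
  have hzl : ∀ l, l ≠ i → z l = m := fun l hl => by
    rw [hz, yT_mem (Finset.mem_erase.mpr ⟨hl, Finset.mem_univ l⟩)]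
    omega
  have hupz : up z i = fun _ => m := by
    rw [hz, up_yT (Finset.notMem_erase i _), Finset.insert_erase (Finset.mem_univ i), yT_univ,
      (by omega : m - 1 + 1 = m), hconst]
  set e := cc d p z i with he
  have hepos : 1 ≤ e := by
    by_contra hcon
    have h0 : cc d p z i = 0 := by omega
    have h3 := finrank_eq_zero_of_cc hE i (d + 1) z (by omega) h0
    apply hpos'
    have h4 : finrank ℂ (linSys d p (fun _ : ι => m)) ≤ finrank ℂ (linSys d p z) := by
      rw [← hupz]
      exact Submodule.finrank_mono (linSys_mono (le_up z i))
    omega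
  have hem : e ≤ m - 1 := by
    -- raise the other multiplicities to `m`
    set y' : ι → ℕ := Function.update (fun _ => m) i (y i) with hy'
    have hy'i : y' i = y i := by rw [hy', Function.update_self]
    have h3 : cc d p y' i ≤ cc d p y i := by
      apply cc_mono_le
      · intro l
        by_cases hl : l = i
        · rw [hl, hy'i]
        · rw [hy', Function.update_of_ne hl]
          have := hy l
          rwa [up_ne _ hl] at this
      · exact hy'i.symm
    have h5 := cc_update_le hE (y := y') (i := i) (c := y i) (h3.trans hc) (by rw [hy'i])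
      (m - 1 - y i)
    have h6 : Function.update y' i (y' i + (m - 1 - y i)) = z := by
      rw [hy'i, hy', Function.update_idem, (by omega : y i + (m - 1 - y i) = m - 1)]
      funext l
      by_cases hl : l = i
      · rw [hl, Function.update_self, hzi]
      · rw [Function.update_of_ne hl, hzl l hl]
    rw [h6] at h5
    omega
  refine ⟨e, hepos, by omega, ?_, ?_⟩
  · have hzf : finrank ℂ (linSys d p z) ≠ 0 := by
      intro h0
      rw [he] at hepos
      unfold cc at hepos
      omega
    have h3 : cc d p (fun _ => m) i ≤ e := by
      rw [← hupz]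
      exact cc_up_self hE (le_of_finrank_pos hzf) i (by rw [hzi]; exact hem)
    exact unif_incomplete (d := d) hp hE hq hcard (c := e) (n := m) (i := i) h3 (by omega)
  · have hall : ∀ l : ι, cc d p (yT (m - 1) (Finset.univ.erase l)) l = e := by
      intro l
      apply cc_yT hp
      · rw [Finset.card_erase_of_mem (Finset.mem_univ l),
          Finset.card_erase_of_mem (Finset.mem_univ i)]
      · exact Finset.notMem_erase l _
      · exact Finset.notMem_erase i _
    have h3 := (deficit hp hE hcard (m := m) (e := e) (by rw [← hconst]; exact hpos') hall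
      (by omega) (m * (q + 1)) 0 ∅ (Nat.zero_le _) (by rw [Finset.card_empty]; exact Nat.zero_le _)
      (by rw [Finset.card_empty, Nat.sub_zero, zero_add])).2
    have h4 : gg d p (yT 0 (∅ : Finset ι)) ≤ (d + 2).choose 2 := by
      unfold gg
      have h5 : ∑ l : ι, (yT 0 (∅ : Finset ι) l + 1).choose 2 = 0 := by
        refine Finset.sum_eq_zero (fun l _ => ?_)
        rw [yT_not (Finset.notMem_empty l)]
        rfl
      rw [h5, add_zero, ← finrank_Rd d]
      exact Submodule.finrank_mono (linSys_le d p _)
    have h5 := sum_range_sub (m - e) (m * (q + 1))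
    have h6 : gg d p (yT m (∅ : Finset ι)) =
        finrank ℂ (linSys d p (fun _ : ι => m)) + (q + 1) * (m + 1).choose 2 := by
      rw [← hconst]
      unfold gg
      rw [h2]
    omega

end unif

end Pool.Agent.Work.MP_0421d9_ag
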