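import Pool.Agent.Work.MP_0421d9_ag.Nc7

/-!
Planar linear systems with generic base points of equal multiplicities: sharp upper bounds for the
dimension and for the superabundance of the special ones, emptiness below a window, and smoothness
of the general member above it.
-/

namespace Pool.Agent.Results.MP_0421d9_ag.UniformWindow

open MvPolynomial Module Pool.Agent.Work.MP_0421d9_ag

/-- Let `L` be the system of the plane curves of degree `d` with multiplicity at least `m` at
`r ≥ 2` generic points; `h⁰` is the dimension of the vector space of its equations, its virtual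
value is `χ = (d + 2).choose 2 - r * (m + 1).choose 2`, the superabundance is `h¹ = h⁰ - χ`. The
number `uniformBound r m` is the sum of `1 + 2 + ... + (m - 1)` and of the positive numbers among
`m - 1 - (r - 1), m - 1 - 2 (r - 1), ...`; it is `m.choose 2` for `r ≥ m`.

* If `L` is nonempty and special then, for some `1 ≤ e ≤ m - 1`, `h⁰` is at most
  `uniformBound r (e + 1)`, and `h¹` is at most `(m - e + 1).choose 2`.
* Hence `L` is empty when `χ ≤ - m.choose 2`.
* If `χ > uniformBound r (m + 1)` then both halves of the question hold for `L` and for all the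
  nonempty systems obtained from it by adding simple points: the general member is reduced, the
  system is nonspecial, and the general member is a smooth curve on the blow-up, transversal to the
  exceptional curves (here `T` is the set of the `r` points of multiplicity `μ`).
* Both bounds in the first item are attained at the same time: for `r = 2` and all
  `1 ≤ e ≤ m - 1` (here `e = x + 1` and `m = x + k + 2`), and for `r = 5`, all odd `e` and all
  `m > e` (here `e = 2 κ + 1` and `m = 2 κ + k + 2`). -/
theorem result :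
    (∀ (r m d : ℕ) (p : Fin r → Fin 3 → ℂ), 2 ≤ r → GenericPoints p →
      linSys d p (fun _ => m) ≠ ⊥ →
      finrank ℂ (linSys d p (fun _ => m)) + r * (m + 1).choose 2 ≠ (d + 2).choose 2 →
      ∃ e, 1 ≤ e ∧ e + 1 ≤ m ∧
        finrank ℂ (linSys d p (fun _ => m)) ≤ uniformBound r (e + 1) ∧
        finrank ℂ (linSys d p (fun _ => m)) + r * (m + 1).choose 2 ≤
          (d + 2).choose 2 + (m - e + 1).choose 2) ∧
    (∀ (r m d : ℕ) (p : Fin r → Fin 3 → ℂ), 2 ≤ r → GenericPoints p →
      (d + 2).choose 2 + m.choose 2 ≤ r * (m + 1).choose 2 → linSys d p (fun _ => m) = ⊥) ∧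
    (∀ (n d μ : ℕ) (p : Fin n → Fin 3 → ℂ), GenericPoints p → ∀ (m : Fin n → ℕ)
      (T : Finset (Fin n)), 2 ≤ T.card → (∀ i ∈ T, m i = μ) → (∀ i ∉ T, m i = 1) →
      T.card * (μ + 1).choose 2 + uniformBound T.card (μ + 1) < (d + 2).choose 2 →
      linSys d p m ≠ ⊥ →
      (∃ F ∈ linSys d p m, Squarefree F) ∧
      finrank ℂ (linSys d p m) + ∑ i, (m i + 1).choose 2 = (d + 2).choose 2 ∧
      (∀ s : Fin (finrank ℂ (linSys d p m) - 1) → Fin 3 → ℂ, GenericPoints (Sum.elim p s) →
        ∀ F ∈ linSys d p m, F ≠ 0 → (∀ k, eval (s k) F = 0) → SmoothOnBlowup p m F) ∧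
      (∃ F ∈ linSys d p m, F ≠ 0 ∧ SmoothOnBlowup p m F)) ∧
    (∀ (x k : ℕ) (p : Fin 2 → Fin 3 → ℂ), GenericPoints p →
      finrank ℂ (linSys (2 * x + (k + 2)) p (fun _ => x + (k + 2))) = uniformBound 2 (x + 2) ∧
      uniformBound 2 (x + 2) + 2 * (x + (k + 2) + 1).choose 2 =
        (2 * x + (k + 2) + 2).choose 2 + (k + 2).choose 2) ∧
    (∀ (κ k : ℕ) (p : Fin 5 → Fin 3 → ℂ), GenericPoints p →
      finrank ℂ (linSys (5 * κ + 2 * (k + 2)) p (fun _ => 2 * κ + (k + 2))) =
        uniformBound 5 (2 * κ + 2) ∧
      uniformBound 5 (2 * κ + 2) + 5 * (2 * κ + (k + 2) + 1).choose 2 =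
        (5 * κ + 2 * (k + 2) + 2).choose 2 + (k + 2).choose 2) :=
  ⟨fun _ _ _ _ hr hp hpos h => uniform_window hr hp hpos h,
    fun _ _ _ _ hr hp h => uniform_empty hr hp h,
    fun _ _ _ p hp m T hT hμ h1 hnum hne => main_uniform p hp m T hT hμ h1 hnum hne,
    fun x k _ hp => two_sharp hp x k, fun κ k _ hp => five_sharp hp κ k⟩

end Pool.Agent.Results.MP_0421d9_ag.UniformWindow
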