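import Pool.Agent.Work.MP_0421d9_ag.Assemble
import Pool.Agent.Work.MP_0421d9_ag.Outside

/-!
Spaces of leading forms, in the dual language: algebraic lemmas.
-/

set_option linter.unusedSectionVars false

namespace Pool.Agent.Work.MP_0421d9_ag

open MvPolynomial Module

section algebra

theorem choose_two_succ (n : ℕ) : (n + 2).choose 2 = (n + 1).choose 2 + (n + 1) := by
  rw [Nat.choose_succ_succ' (n + 1) 1, Nat.choose_one_right]
  ring

/-- pairing of vectors -/
theorem evQ_id_apply (ξ v : V3) : evQ LinearMap.id ξ v = eval v (lin ξ) := rfl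

/-- a linear form vanishing at `p` but not at `u` -/
theorem exists_form {p u : V3} (h : cr p u ≠ 0) :
    ∃ η : V3, eval p (lin η) = 0 ∧ eval u (lin η) ≠ 0 := by
  obtain ⟨k, hk⟩ : ∃ k, cr p u k ≠ 0 := by
    by_contra hcon
    push Not at hcon
    exact h (funext hcon)
  refine ⟨cr p (Pi.single k 1), ?_, ?_⟩
  · exact eval_xl_left p _
  · have h1 : eval u (lin (cr p (Pi.single k 1))) = - cr p u k := by
      have := eval_xl p (Pi.single k 1) u
      unfold xl at this
      rw [this]
      fin_cases k <;> simp [cr] <;> ring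
    rw [h1]
    exact neg_ne_zero.mpr hk

theorem dir_iterate_hom {ξ : V3} {n : ℕ} {U : R3} (hU : U.IsHomogeneous n) :
    (dir ξ)^[n] U = C ((n.factorial : ℂ) * eval ξ U) := by
  have h1 := dir_iterate_isHomogeneous ξ n hU
  rw [Nat.sub_self] at h1
  have h2 : (dir ξ)^[n] U = C (coeff 0 ((dir ξ)^[n] U)) :=
    (MvPolynomial.totalDegree_eq_zero_iff_eq_C).mp (Nat.le_zero.mp h1.totalDegree_le)
  have h3 := B_lin_pow_mul ξ n 1 U
  rw [mul_one, B_lin_pow hU, h2, B_one_C] at h3
  rw [h2, ← h3]

theorem exists_eval_ne {p : V3} (hp : p ≠ 0) {U : R3} (hnd : ¬ lin p ∣ U) :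
    ∃ ξ : V3, eval ξ (lin p) = 0 ∧ eval ξ U ≠ 0 := by
  by_contra hcon
  push Not at hcon
  exact hnd (lin_dvd_of_eval hp hcon)

theorem exists_eval_ne' {p : V3} (hp : p ≠ 0) {n : ℕ} {U : R3} (hU : U.IsHomogeneous n)
    (hnd : ¬ lin p ∣ U) : ∃ ξ : V3, ξ ≠ 0 ∧ eval ξ (lin p) = 0 ∧ eval ξ U ≠ 0 := by
  obtain ⟨ξ, h1, h2⟩ := exists_eval_ne hp hnd
  by_cases hξ : ξ = 0
  · -- then `U` is a constant
    obtain ⟨ζ, hζ, hζp⟩ := exists_ker_ne hp (evQ LinearMap.id p)
    have hζ0 : ζ ≠ 0 := by
      rintro rfl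
      exact hζp (cr_zero_right p)
    refine ⟨ζ, hζ0, hζ, ?_⟩
    have hn : n = 0 := by
      by_contra hn
      apply h2
      rw [hξ]
      have h3 : eval (0 : V3) U = coeff 0 U := by
        rw [eval_zero, constantCoeff_eq]
      rw [h3]
      by_contra hc
      have h4 := hU hc
      rw [map_zero] at h4
      exact hn h4.symm
    subst hn
    have h0 : U = C (coeff 0 U) :=
      (MvPolynomial.totalDegree_eq_zero_iff_eq_C).mp (Nat.le_zero.mp hU.totalDegree_le)
    rw [h0, eval_C] at h2 ⊢
    exact h2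
  · exact ⟨ξ, hξ, h1, h2⟩

/-- A space of forms stable under the operators `lin u * dir ξ` with `ξ` orthogonal to `p`, and
containing a form not divisible by `lin p`, is everything. -/
theorem stable_eq_top {p : V3} (hp : p ≠ 0) {n : ℕ} {N : Submodule ℂ R3} (hN : N ≤ Rd n)
    (hst : ∀ u ξ : V3, eval p (lin ξ) = 0 → ∀ U ∈ N, lin u * dir ξ U ∈ N)
    {U : R3} (hU : U ∈ N) (hnd : ¬ lin p ∣ U) : N = Rd n := by
  obtain ⟨ξ, h1, h2⟩ := exists_eval_ne hp hnd
  obtain ⟨u, hu, hup⟩ := exists_ker_ne hp (evQ LinearMap.id ξ)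
  rw [evQ_id_apply] at hu
  have hξp : eval p (lin ξ) = 0 := by rw [eval_lin_comm]; exact h1
  have hdu : dir ξ (lin u) = 0 := by
    rw [dir_lin, eval_lin_comm, hu, C_0]
  have hA : ∀ k, lin u ^ k * (dir ξ)^[k] U ∈ N := by
    intro k
    induction k with
    | zero => simpa using hU
    | succ k ih =>
      have h3 := hst u ξ hξp _ ih
      rw [dir_mul, dir_pow, hdu, mul_zero, mul_zero, zero_mul, zero_add] at h3
      rw [Function.iterate_succ_apply', pow_succ']
      rwa [mul_assoc]
  have hn := hA n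
  rw [dir_iterate_hom (hN hU), mul_comm] at hn
  have hne : ((n.factorial : ℂ) * eval ξ U) ≠ 0 :=
    mul_ne_zero (by exact_mod_cast Nat.factorial_ne_zero n) h2
  have hun : lin u ^ n ∈ N := mem_of_C_mul_mem hne hn
  obtain ⟨η, hη1, hη2⟩ := exists_form hup
  have hB : ∀ k ≤ n, ∀ G : R3, G.IsHomogeneous k → G * lin u ^ (n - k) ∈ N := by
    intro k
    induction k with
    | zero =>
      intro _ G hG
      have h0 : G = C (coeff 0 G) :=
        (MvPolynomial.totalDegree_eq_zero_iff_eq_C).mp (Nat.le_zero.mp hG.totalDegree_le)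
      rw [h0, Nat.sub_zero]
      exact C_mul_mem _ hun
    | succ k ih =>
      intro hk G hG
      have hstep : ∀ w : V3, ∀ G' : R3, G'.IsHomogeneous k →
          lin w * G' * lin u ^ (n - (k + 1)) ∈ N := by
        intro w G' hG'
        have h3 := hst w η hη1 _ (ih (by omega) G' hG')
        have h4 : dir η (lin u) = C (eval η (lin u)) := dir_lin η u
        rw [dir_mul, dir_pow, h4] at h3
        have h5 : lin w * dir η G' * lin u ^ (n - k) ∈ N := by
          cases k with
          | zero =>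
            have h0 : G' = C (coeff 0 G') :=
              (MvPolynomial.totalDegree_eq_zero_iff_eq_C).mp (Nat.le_zero.mp hG'.totalDegree_le)
            rw [h0, dir_C, mul_zero, zero_mul]
            exact zero_mem _
          | succ k =>
            apply ih (by omega)
            have h6 : (dir η G').IsHomogeneous k := by
              simpa using dir_isHomogeneous η hG'
            have := (lin_isHomogeneous w).mul h6
            rwa [add_comm] at this
        have h6 : lin w * (dir η G' * lin u ^ (n - k) + G' * (C ((n - k : ℕ) : ℂ) *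
            (lin u ^ (n - k - 1) * C (eval η (lin u))))) - lin w * dir η G' * lin u ^ (n - k) =
            C (((n - k : ℕ) : ℂ) * eval η (lin u)) * (lin w * G' * lin u ^ (n - (k + 1))) := by
          rw [(by omega : n - (k + 1) = n - k - 1), map_mul]
          ring
        have h7 := Submodule.sub_mem _ h3 h5
        rw [h6] at h7
        refine mem_of_C_mul_mem (mul_ne_zero ?_ ?_) h7
        · rw [Nat.cast_ne_zero]; omega
        · rw [eval_lin_comm]; exact hη2
      have h8 : C ((k + 1 : ℕ) : ℂ) * (G * lin u ^ (n - (k + 1))) ∈ N := by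
        rw [← mul_assoc, isHomogeneous_succ_sum hG, Finset.sum_mul]
        apply Submodule.sum_mem
        intro l _
        have h9 : (X l : R3) = lin (Pi.single l 1) := by
          unfold lin
          rw [Finset.sum_eq_single l]
          · rw [Pi.single_eq_same, C_1, one_mul]
          · intro b _ hb
            rw [Pi.single_eq_of_ne hb, C_0, zero_mul]
          · intro h; exact absurd (Finset.mem_univ l) h
        rw [h9]
        exact hstep _ _ (hG.pderiv)
      exact mem_of_C_mul_mem (by rw [Nat.cast_ne_zero]; omega) h8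
  apply le_antisymm hN
  intro G hG
  have := hB n le_rfl G hG
  rwa [Nat.sub_self, pow_zero, mul_one] at this

theorem finrank_map_mulLeft {A : R3} (hA : A ≠ 0) (N : Submodule ℂ R3) :
    finrank ℂ (N.map (LinearMap.mulLeft ℂ A)) = finrank ℂ N := by
  have hinj : Function.Injective ((LinearMap.mulLeft ℂ A).domRestrict N) := by
    rw [← LinearMap.ker_eq_bot, Submodule.eq_bot_iff]
    rintro ⟨G, hG⟩ h0
    apply Subtype.ext
    have h0' : A * G = 0 := h0
    exact (mul_eq_zero.mp h0').resolve_left hA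
  rw [← LinearMap.finrank_range_of_inj hinj, LinearMap.range_domRestrict]

theorem lin_ne_zero {v : V3} (h : v ≠ 0) : lin v ≠ 0 := fun h' => h (lin_eq_zero.mp h')

theorem exists_Hm_factor {p : V3} {n : ℕ} {U : R3} (hU : U.IsHomogeneous n) (h : lin p ∣ U) :
    ∃ G ∈ Hm n, U = lin p * G := by
  by_cases hU0 : U = 0
  · exact ⟨0, zero_mem _, by rw [hU0, mul_zero]⟩
  obtain ⟨e, g, hd, hg, hUg⟩ := exists_factor hU hU0 h
  refine ⟨g, ?_, hUg⟩
  rw [hd, mem_Hm_succ]
  exact hg

/-- growth of a space of forms under multiplication by linear forms -/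
theorem growth {p : V3} (hp : p ≠ 0) {n : ℕ} {N N' : Submodule ℂ R3} (hN : N ≤ Rd n)
    (hN' : N' ≤ Rd (n + 1)) (h1 : ∀ v, ∀ U ∈ N, lin v * U ∈ N')
    (h2 : ∀ G ∈ Rd n, lin p * G ∈ N') {U : R3} (hU : U ∈ N) (hnd : ¬ lin p ∣ U) :
    finrank ℂ N + (n + 2) ≤ finrank ℂ N' := by
  by_contra hlt
  have hfN : Module.Finite ℂ N := Submodule.finiteDimensional_of_le hN
  have hfN' : Module.Finite ℂ N' := Submodule.finiteDimensional_of_le hN'
  have key : ∀ x, cr p x ≠ 0 → N.map (LinearMap.mulLeft ℂ (lin x)) ⊔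
      (Rd n).map (LinearMap.mulLeft ℂ (lin p)) = N' := by
    intro x hx
    have hx0 : x ≠ 0 := by
      rintro rfl
      exact hx (cr_zero_right p)
    set A := N.map (LinearMap.mulLeft ℂ (lin x)) with hA
    set A' := (Rd n).map (LinearMap.mulLeft ℂ (lin p)) with hA'
    have hle : A ⊔ A' ≤ N' := by
      apply sup_le
      · rintro _ ⟨V, hV, rfl⟩
        exact h1 x V hV
      · rintro _ ⟨V, hV, rfl⟩
        exact h2 V hV
    have hfA : Module.Finite ℂ A := Submodule.finiteDimensional_of_le (le_sup_left.trans hle)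
    have hfA' : Module.Finite ℂ A' := Submodule.finiteDimensional_of_le (le_sup_right.trans hle)
    have h3 := Submodule.finrank_sup_add_finrank_inf_eq A A'
    rw [hA, finrank_map_mulLeft (lin_ne_zero hx0), ← hA, hA', finrank_map_mulLeft (lin_ne_zero hp),
      ← hA', finrank_Rd] at h3
    have h4 : A ⊓ A' ≤ (Hm n).map (LinearMap.mulLeft ℂ (lin x * lin p)) := by
      rintro _ ⟨⟨V, hV, rfl⟩, ⟨G, hG, hVG⟩⟩
      have h5 : lin p * G = lin x * V := hVG
      have h6 : lin p ∣ V := lin_dvd_of_mul hp hx ⟨G, h5.symm⟩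
      obtain ⟨G', hG', rfl⟩ := exists_Hm_factor (hN hV) h6
      refine ⟨G', hG', ?_⟩
      change lin x * lin p * G' = lin x * (lin p * G')
      ring
    have hfH : Module.Finite ℂ ((Hm n).map (LinearMap.mulLeft ℂ (lin x * lin p))) := inferInstance
    have h5 := Submodule.finrank_mono h4
    rw [finrank_map_mulLeft (mul_ne_zero (lin_ne_zero hx0) (lin_ne_zero hp)), finrank_Hm] at h5
    have h6 := choose_two_succ n
    apply Submodule.eq_of_le_of_finrank_le hle
    omega
  obtain ⟨ξ, hξ0, hξp, hξU⟩ := exists_eval_ne' hp (hN hU) hnd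
  obtain ⟨x, hx, hxp⟩ := exists_ker_ne hp (evQ LinearMap.id ξ)
  rw [evQ_id_apply, eval_lin_comm] at hx
  obtain ⟨k, hk⟩ : ∃ k, ξ k ≠ 0 := by
    by_contra hcon
    push Not at hcon
    exact hξ0 (funext hcon)
  have h3 := h1 (Pi.single k 1) U hU
  rw [← key x hxp] at h3
  obtain ⟨_, ⟨V, hV, rfl⟩, _, ⟨G, hG, rfl⟩, hsum⟩ := Submodule.mem_sup.mp h3
  have h4 : lin x * V + lin p * G = lin (Pi.single k 1) * U := hsum
  have h5 := congrArg (eval ξ) h4
  rw [map_add, map_mul, map_mul, map_mul, hx, hξp, zero_mul, zero_mul, zero_add] at h5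
  have h6 : eval ξ (lin (Pi.single k 1)) = ξ k := by
    rw [eval_lin, Finset.sum_eq_single k]
    · rw [Pi.single_eq_same, one_mul]
    · intro b _ hb
      rw [Pi.single_eq_of_ne hb, zero_mul]
    · intro h; exact absurd (Finset.mem_univ k) h
  rw [h6] at h5
  exact (mul_ne_zero hk hξU) h5.symm

end algebra

end Pool.Agent.Work.MP_0421d9_ag
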