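import Pool.Agent.Work.MP_0421d9_ag.Upper1

/-!
Codimensions of linear systems when one multiplicity is raised.
-/

set_option linter.unusedSectionVars false

namespace Pool.Agent.Work.MP_0421d9_ag

open MvPolynomial Module

section upper

variable {ι : Type} [Fintype ι] [DecidableEq ι] {d : ℕ} {p : ι → V3}

/-- raising the multiplicity at `i` by one -/
def up (m : ι → ℕ) (i : ι) : ι → ℕ := Function.update m i (m i + 1)

theorem up_self (m : ι → ℕ) (i : ι) : up m i i = m i + 1 := Function.update_self _ _ _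

theorem up_ne (m : ι → ℕ) {i j : ι} (h : j ≠ i) : up m i j = m j := Function.update_of_ne h _ _

theorem le_up (m : ι → ℕ) (i j : ι) : m j ≤ up m i j := by
  by_cases h : j = i
  · rw [h, up_self]; exact Nat.le_succ _
  · rw [up_ne m h]

theorem up_comm (m : ι → ℕ) (i j : ι) : up (up m i) j = up (up m j) i := by
  funext l
  by_cases hi : l = i <;> by_cases hj : l = j
  · subst hi; subst hj; rfl
  · subst hi
    rw [up_ne _ hj, up_self, up_self, up_ne _ hj]
  · subst hj
    rw [up_self, up_ne _ hi, up_ne _ hi, up_self]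
  · rw [up_ne _ hj, up_ne _ hi, up_ne _ hi, up_ne _ hj]

theorem up_injective {m m' : ι → ℕ} {i : ι} (h : up m i = up m' i) : m = m' := by
  funext l
  have := congrFun h l
  by_cases hl : l = i
  · subst hl
    rw [up_self, up_self] at this
    omega
  · rwa [up_ne _ hl, up_ne _ hl] at this

theorem up_down {m : ι → ℕ} {j : ι} (h : 1 ≤ m j) : m = up (Function.update m j (m j - 1)) j := by
  funext l
  by_cases hl : l = j
  · subst hl
    rw [up_self, Function.update_self]
    omega
  · rw [up_ne _ hl, Function.update_of_ne hl]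

theorem linSys_mono {m m' : ι → ℕ} (h : ∀ i, m i ≤ m' i) : linSys d p m' ≤ linSys d p m :=
  fun _ hF => ⟨hF.1, fun i => (hF.2 i).mono (h i)⟩

theorem J_mono {m m' : ι → ℕ} (hm' : ∀ i, m' i ≤ d + 1) (h : ∀ i, m i ≤ m' i) :
    J d p m ≤ J d p m' := by
  have hm : ∀ i, m i ≤ d + 1 := fun i => (h i).trans (hm' i)
  intro A hA
  apply mem_J_of_B hm' (J_le hm hA)
  intro F hF
  exact B_J_linSys hm hA (linSys_mono h hF)

/-- the leading forms of degree `m i` at `p i` are dual to this space modulo `lin (p i)` -/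
noncomputable def UU (d : ℕ) (p : ι → V3) (m : ι → ℕ) (i : ι) : Submodule ℂ R3 :=
  Rd (m i) ⊓ (J d p m).comap (LinearMap.mulLeft ℂ (lin (p i) ^ (d - m i)))

theorem mem_UU {m : ι → ℕ} {i : ι} {U : R3} : U ∈ UU d p m i ↔ U.IsHomogeneous (m i) ∧
    lin (p i) ^ (d - m i) * U ∈ J d p m := Iff.rfl

theorem UU_le (m : ι → ℕ) (i : ι) : UU d p m i ≤ Rd (m i) := inf_le_left

instance finite_UU (m : ι → ℕ) (i : ι) : Module.Finite ℂ (UU d p m i) :=
  Submodule.finiteDimensional_of_le (UU_le m i)

theorem J_up {m : ι → ℕ} (hm : ∀ i, m i ≤ d) (i : ι) : J d p (up m i) = J d p m ⊔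
    (Rd (m i)).map (LinearMap.mulLeft ℂ (lin (p i) ^ (d - m i))) := by
  have hmu : ∀ j, up m i j ≤ d + 1 := by
    intro j
    by_cases hj : j = i
    · rw [hj, up_self]; have := hm i; omega
    · rw [up_ne m hj]; exact (hm j).trans (Nat.le_succ d)
  have hexp : d + 1 - up m i i = d - m i := by rw [up_self]; omega
  apply le_antisymm
  · intro A hA
    obtain ⟨G, hG, rfl⟩ := mem_J.mp hA
    apply Submodule.sum_mem
    intro j _
    by_cases hj : j = i
    · subst hj
      apply Submodule.mem_sup_right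
      rw [hexp]
      refine ⟨G j, ?_, rfl⟩
      have := hG j
      rw [up_self] at this
      exact this
    · apply Submodule.mem_sup_left
      have := hG j
      rw [up_ne m hj] at this ⊢
      exact summand_mem_J j this
  · apply sup_le
    · exact J_mono hmu (le_up m i)
    · rintro _ ⟨U, hU, rfl⟩
      have e1 : LinearMap.mulLeft ℂ (lin (p i) ^ (d - m i)) U =
          lin (p i) ^ (d + 1 - up m i i) * U := by
        rw [hexp]; rfl
      rw [e1]
      apply summand_mem_J
      rw [up_self]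
      exact hU

theorem finrank_UU {m : ι → ℕ} (hm : ∀ i, m i ≤ d) (i : ι) (hp : p i ≠ 0) :
    finrank ℂ (UU d p m i) + finrank ℂ (linSys d p m) =
      (m i + 2).choose 2 + finrank ℂ (linSys d p (up m i)) := by
  have hle : ∀ j, m j ≤ d + 1 := fun j => (hm j).trans (Nat.le_succ d)
  have hle' : ∀ j, up m i j ≤ d + 1 := by
    intro j
    by_cases hj : j = i
    · rw [hj, up_self]; have := hm i; omega
    · rw [up_ne m hj]; exact hle j
  have h1 := finrank_linSys_add (p := p) hle
  have h2 := finrank_linSys_add (p := p) hle'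
  set A : R3 := lin (p i) ^ (d - m i) with hA
  have hA0 : A ≠ 0 := pow_ne_zero _ (lin_ne_zero hp)
  set W : Submodule ℂ R3 := (Rd (m i)).map (LinearMap.mulLeft ℂ A) with hW
  have hfinJ : Module.Finite ℂ (J d p m) := Submodule.finiteDimensional_of_le (J_le hle)
  have hfinW : Module.Finite ℂ W := inferInstance
  have h3 := Submodule.finrank_sup_add_finrank_inf_eq (J d p m) W
  rw [← J_up hm i, hW, finrank_map_mulLeft hA0, finrank_Rd, ← hW] at h3
  have h4 : J d p m ⊓ W = (UU d p m i).map (LinearMap.mulLeft ℂ A) := by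
    ext B'
    constructor
    · rintro ⟨hB, ⟨U, hU, rfl⟩⟩
      exact ⟨U, ⟨hU, hB⟩, rfl⟩
    · rintro ⟨U, hU, rfl⟩
      exact ⟨hU.2, ⟨U, hU.1, rfl⟩⟩
  rw [h4, finrank_map_mulLeft hA0] at h3
  omega

/-- the number of conditions imposed by raising the multiplicity at `i` by one -/
noncomputable def cc (d : ℕ) (p : ι → V3) (m : ι → ℕ) (i : ι) : ℕ :=
  finrank ℂ (linSys d p m) - finrank ℂ (linSys d p (up m i))

theorem cc_add (m : ι → ℕ) (i : ι) :
    finrank ℂ (linSys d p m) = finrank ℂ (linSys d p (up m i)) + cc d p m i := by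
  unfold cc
  have : finrank ℂ (linSys d p (up m i)) ≤ finrank ℂ (linSys d p m) :=
    Submodule.finrank_mono (linSys_mono (le_up m i))
  omega

theorem cc_UU {m : ι → ℕ} (hm : ∀ i, m i ≤ d) (i : ι) (hp : p i ≠ 0) :
    finrank ℂ (UU d p m i) + cc d p m i = (m i + 2).choose 2 := by
  have h1 := finrank_UU hm i hp
  have h2 := cc_add (d := d) (p := p) m i
  omega

theorem K0_le {m : ι → ℕ} (hm : ∀ i, m i ≤ d) (i : ι) :
    (Hm (m i)).map (LinearMap.mulLeft ℂ (lin (p i))) ≤ UU d p m i := by
  rintro _ ⟨G, hG, rfl⟩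
  change lin (p i) * G ∈ _
  have hhom : (lin (p i) * G).IsHomogeneous (m i) := by
    have := mul_mem_Hm_succ (lin_isHomogeneous (p i)) hG
    exact this
  rw [mem_UU]
  refine ⟨hhom, ?_⟩
  have e1 : lin (p i) ^ (d - m i) * (lin (p i) * G) = lin (p i) ^ (d + 1 - m i) * G := by
    rw [(by have := hm i; omega : d + 1 - m i = d - m i + 1), pow_succ, mul_assoc]
  rw [e1]
  exact summand_mem_J i hG

theorem exists_not_dvd {m : ι → ℕ} (hm : ∀ i, m i ≤ d) (i : ι) (hp : p i ≠ 0)
    (h : cc d p m i ≤ m i) : ∃ U ∈ UU d p m i, ¬ lin (p i) ∣ U := by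
  by_contra hcon
  push Not at hcon
  have h1 : UU d p m i ≤ (Hm (m i)).map (LinearMap.mulLeft ℂ (lin (p i))) := by
    intro U hU
    obtain ⟨G, hG, rfl⟩ := exists_Hm_factor hU.1 (hcon U hU)
    exact ⟨G, hG, rfl⟩
  have h2 := Submodule.finrank_mono h1
  rw [finrank_map_mulLeft (lin_ne_zero hp), finrank_Hm] at h2
  have h3 := cc_UU hm i hp
  have h4 := choose_two_succ (m i)
  omega

theorem cc_le_of_not_dvd {m : ι → ℕ} (hm : ∀ i, m i ≤ d) (i : ι) (hp : p i ≠ 0) {U : R3}
    (hU : U ∈ UU d p m i) (hnd : ¬ lin (p i) ∣ U) : cc d p m i ≤ m i := by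
  have h1 : (Hm (m i)).map (LinearMap.mulLeft ℂ (lin (p i))) < UU d p m i := by
    refine lt_of_le_of_ne (K0_le hm i) ?_
    intro h
    rw [← h] at hU
    obtain ⟨G, -, rfl⟩ := hU
    exact hnd (Dvd.intro _ rfl)
  have h2 := Submodule.finrank_lt_finrank_of_lt h1
  rw [finrank_map_mulLeft (lin_ne_zero hp), finrank_Hm] at h2
  have h3 := cc_UU hm i hp
  have h4 := choose_two_succ (m i)
  omega

theorem finrank_linSys_zero_of_gt {m : ι → ℕ} {i : ι} (h : d < m i) :
    finrank ℂ (linSys d p m) = 0 := by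
  have : linSys d p m = ⊥ := by
    rw [Submodule.eq_bot_iff]
    intro F hF
    exact eq_zero_of_vanishTo hF.1 h (hF.2 i)
  rw [this]
  exact finrank_bot _ _

theorem le_of_finrank_pos {m : ι → ℕ} (h : finrank ℂ (linSys d p m) ≠ 0) (i : ι) : m i ≤ d := by
  by_contra hcon
  exact h (finrank_linSys_zero_of_gt (i := i) (by omega))

/-- monotonicity in the other multiplicities -/
theorem cc_mono (m : ι → ℕ) {j l : ι} (hjl : l ≠ j) : cc d p (up m j) l ≤ cc d p m l := by
  have h1 := Submodule.finrank_sup_add_finrank_inf_eq (linSys d p (up m j)) (linSys d p (up m l))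
  have h2 : linSys d p (up m j) ⊓ linSys d p (up m l) = linSys d p (up (up m j) l) := by
    ext F
    constructor
    · rintro ⟨hF1, hF2⟩
      refine ⟨hF1.1, fun x => ?_⟩
      by_cases hx : x = l
      · subst hx
        rw [up_self, up_ne _ hjl]
        have := hF2.2 x
        rwa [up_self] at this
      · rw [up_ne _ hx]
        exact hF1.2 x
    · intro hF
      refine ⟨linSys_mono (le_up _ _) hF, ?_⟩
      rw [up_comm] at hF
      exact linSys_mono (le_up _ _) hF
  have h3 : linSys d p (up m j) ⊔ linSys d p (up m l) ≤ linSys d p m :=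
    sup_le (linSys_mono (le_up _ _)) (linSys_mono (le_up _ _))
  have h4 := Submodule.finrank_mono h3
  rw [h2] at h1
  have h5 := cc_add (d := d) (p := p) m l
  have h6 := cc_add (d := d) (p := p) (up m j) l
  omega

end upper

end Pool.Agent.Work.MP_0421d9_ag
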