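import Pool.Agent.Work.MP_0421d9_ag.Upper2

/-!
Derivations and the behaviour of the codimensions: unimodality, and activity.
-/

set_option linter.unusedSectionVars false

namespace Pool.Agent.Work.MP_0421d9_ag

open MvPolynomial Module

section upper

variable {ι : Type} [Fintype ι] [DecidableEq ι] {d : ℕ} {p : ι → V3}
  {E : ι → Fin 3 → Derivation ℚ ℂ ℂ}

theorem up_le_succ {m : ι → ℕ} (hm : ∀ i, m i ≤ d) (i j : ι) : up m i j ≤ d + 1 := by
  by_cases hj : j = i
  · rw [hj, up_self]; have := hm i; omega
  · rw [up_ne m hj]; exact (hm j).trans (Nat.le_succ d)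

theorem linSys_cD_up (hE : IsDual p E) {m : ι → ℕ} (hm : ∀ i, m i ≤ d) (j : ι) (w : V3) {F : R3}
    (hF : F ∈ linSys d p (up m j)) : cD (mv E j w) F ∈ linSys d p m := by
  refine ⟨cD_isHomogeneous _ hF.1, fun l => ?_⟩
  by_cases hl : l = j
  · subst hl
    have h1 := vanishTo_cD (mv E l w) hF.1 (up_le_succ hm l l) (hF.2 l)
    rwa [up_self, Nat.add_sub_cancel] at h1
  · have h1 := hF.2 l
    rw [up_ne _ hl] at h1
    exact vanishTo_cD_fixed (fun k => mv_ne hE hl w k) hF.1 ((hm l).trans (Nat.le_succ d)) h1

/-- moving the point `j` raises the multiplicity at `j` in the inverse systems -/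
theorem cD_mem_J_up (hE : IsDual p E) {m : ι → ℕ} (hm : ∀ i, m i ≤ d) (j : ι) (w : V3) {A : R3}
    (hA : A ∈ J d p m) : cD (mv E j w) A ∈ J d p (up m j) := by
  have hm1 : ∀ i, m i ≤ d + 1 := fun i => (hm i).trans (Nat.le_succ d)
  apply mem_J_of_B (up_le_succ hm j) (cD_isHomogeneous _ (J_le hm1 hA))
  intro F hF
  have h1 := D_B (mv E j w) A F
  rw [B_J_linSys hm1 hA (linSys_mono (le_up m j) hF), map_zero,
    B_J_linSys hm1 hA (linSys_cD_up hE hm j w hF), add_zero] at h1
  exact h1.symm

/-- unimodality -/
theorem cc_up_self (hE : IsDual p E) {m : ι → ℕ} (hm : ∀ i, m i ≤ d) (i : ι)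
    (h : cc d p m i ≤ m i) : cc d p (up m i) i ≤ cc d p m i := by
  have hp : p i ≠ 0 := gp1 hE i
  by_cases hd : m i + 1 ≤ d
  · obtain ⟨U, hU, hnd⟩ := exists_not_dvd hm i hp h
    have hmu : ∀ j, up m i j ≤ d := by
      intro j
      by_cases hj : j = i
      · rw [hj, up_self]; exact hd
      · rw [up_ne m hj]; exact hm j
    have h1 : finrank ℂ (UU d p m i) + (m i + 2) ≤ finrank ℂ (UU d p (up m i) i) := by
      have hN' : UU d p (up m i) i ≤ Rd (m i + 1) := by
        have := UU_le (d := d) (p := p) (up m i) i
        rwa [up_self] at this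
      refine growth hp (UU_le m i) hN' ?_ ?_ hU hnd
      · intro v V hV
        rw [mem_UU, up_self]
        refine ⟨?_, ?_⟩
        · have := (lin_isHomogeneous v).mul hV.1
          rwa [add_comm] at this
        · have h2 := cD_mem_J_up hE hm i v hV.2
          have h3 : cD (mv E i v) (LinearMap.mulLeft ℂ (lin (p i) ^ (d - m i)) V) =
              C ((d - m i : ℕ) : ℂ) * (lin (p i) ^ (d - (m i + 1)) * (lin v * V)) +
                lin (p i) ^ (d - m i) * cD (mv E i v) V := by
            change cD (mv E i v) (lin (p i) ^ (d - m i) * V) = _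
            rw [cD_mul, cD_pow, cD_lin_self hE, (by omega : d - m i - 1 = d - (m i + 1))]
            ring
          rw [h3] at h2
          have h4 : lin (p i) ^ (d - m i) * cD (mv E i v) V ∈ J d p (up m i) := by
            have h5 : cD (mv E i v) V ∈ Hm (up m i i) := by
              rw [up_self, mem_Hm_succ]
              exact cD_isHomogeneous _ hV.1
            have h6 := summand_mem_J (d := d) (p := p) i h5
            rwa [up_self, (by omega : d + 1 - (m i + 1) = d - m i)] at h6
          have h5 := Submodule.sub_mem _ h2 h4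
          rw [add_sub_cancel_right] at h5
          exact mem_of_C_mul_mem (by rw [Nat.cast_ne_zero]; omega) h5
      · intro G hG
        have := K0_le (d := d) (p := p) hmu i
        apply this
        refine ⟨G, ?_, rfl⟩
        rw [up_self]
        exact hG
    have h2 := cc_UU (d := d) (p := p) hm i hp
    have h3 := cc_UU (d := d) (p := p) hmu i hp
    rw [up_self] at h3
    have h4 : (m i + 1 + 2).choose 2 = (m i + 2).choose 2 + (m i + 2) := choose_two_succ (m i + 1)
    omega
  · have h1 : cc d p (up m i) i = 0 := by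
      unfold cc
      rw [finrank_linSys_zero_of_gt (m := up m i) (i := i) (by rw [up_self]; omega)]
      exact Nat.zero_sub _
    omega

theorem finrank_eq_zero_of_cc (hE : IsDual p E) (i : ι) : ∀ (n : ℕ) (m : ι → ℕ), d + 1 ≤ m i + n →
    cc d p m i = 0 → finrank ℂ (linSys d p m) = 0 := by
  intro n
  induction n with
  | zero => intro m hn _; exact finrank_linSys_zero_of_gt (i := i) (by omega)
  | succ n ih =>
    intro m hn hc
    by_contra hcon
    have hm := le_of_finrank_pos hcon
    apply hcon
    rw [cc_add m i, hc, add_zero]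
    apply ih (up m i) (by rw [up_self]; omega)
    have := cc_up_self hE hm i (by rw [hc]; exact Nat.zero_le _)
    omega

/-- the operator combining motions of all the points along a linear vector field -/
noncomputable def TT (E : ι → Fin 3 → Derivation ℚ ℂ ℂ) (p : ι → V3) (u ξ : V3) (A : R3) : R3 :=
  ∑ l, cD (mv E l (eval (p l) (lin ξ) • u)) A - lin u * dir ξ A

theorem TT_mul (u ξ : V3) (A A' : R3) :
    TT E p u ξ (A * A') = TT E p u ξ A * A' + A * TT E p u ξ A' := by
  unfold TT
  rw [dir_mul]
  simp only [cD_mul, Finset.sum_add_distrib, ← Finset.sum_mul, ← Finset.mul_sum]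
  ring

theorem TT_lin (hE : IsDual p E) (u ξ : V3) (j : ι) : TT E p u ξ (lin (p j)) = 0 := by
  unfold TT
  rw [Finset.sum_eq_single j, cD_lin_self hE, dir_lin, lin_smul, mul_comm (C _), eval_lin_comm,
    sub_self]
  · intro l _ hl
    rw [cD_lin]
    have : (fun k => mv E l (eval (p l) (lin ξ) • u) (p j k)) = 0 := by
      funext k
      exact mv_ne hE hl.symm _ k
    rw [this, lin_zero]
  · intro h; exact absurd (Finset.mem_univ j) h

theorem TT_pow (hE : IsDual p E) (u ξ : V3) (j : ι) (n : ℕ) :
    TT E p u ξ (lin (p j) ^ n) = 0 := by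
  induction n with
  | zero =>
    unfold TT
    rw [pow_zero]
    have h1 : ∀ l, cD (mv E l (eval (p l) (lin ξ) • u)) (1 : R3) = 0 := fun l =>
      Derivation.map_one_eq_zero _
    rw [Finset.sum_eq_zero (fun l _ => h1 l), Derivation.map_one_eq_zero, mul_zero, sub_zero]
  | succ n ih => rw [pow_succ, TT_mul, ih, TT_lin hE, zero_mul, mul_zero, add_zero]

theorem TT_add (u ξ : V3) (A A' : R3) : TT E p u ξ (A + A') = TT E p u ξ A + TT E p u ξ A' := by
  unfold TT
  simp only [map_add, Finset.sum_add_distrib, mul_add]
  ring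

theorem TT_zero (u ξ : V3) : TT E p u ξ (0 : R3) = 0 := by
  unfold TT
  simp

theorem TT_sum (u ξ : V3) {α : Type} (s : Finset α) (f : α → R3) :
    TT E p u ξ (∑ a ∈ s, f a) = ∑ a ∈ s, TT E p u ξ (f a) := by
  classical
  induction s using Finset.induction_on with
  | empty => rw [Finset.sum_empty, Finset.sum_empty, TT_zero]
  | insert a s ha ih => rw [Finset.sum_insert ha, Finset.sum_insert ha, TT_add, ih]

theorem TT_mem_Hm (u ξ : V3) {n : ℕ} {A : R3} (hA : A ∈ Hm n) : TT E p u ξ A ∈ Hm n := by
  cases n with
  | zero =>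
    rw [mem_Hm_zero] at *
    rw [hA, TT_zero]
  | succ n =>
    unfold TT
    apply Submodule.sub_mem
    · apply Submodule.sum_mem
      intro l _
      exact cD_mem_Hm _ hA
    · rw [mem_Hm_succ] at *
      cases n with
      | zero =>
        have h0 : A = C (coeff 0 A) :=
          (MvPolynomial.totalDegree_eq_zero_iff_eq_C).mp (Nat.le_zero.mp hA.totalDegree_le)
        rw [h0, dir_C, mul_zero]
        exact isHomogeneous_zero _ _ _
      | succ n =>
        have h6 : (dir ξ A).IsHomogeneous n := by
          simpa using dir_isHomogeneous ξ hA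
        have := (lin_isHomogeneous u).mul h6
        rwa [add_comm] at this

theorem TT_mem_J (hE : IsDual p E) {m : ι → ℕ} (u ξ : V3) {A : R3} (hA : A ∈ J d p m) :
    TT E p u ξ A ∈ J d p m := by
  obtain ⟨G, hG, rfl⟩ := mem_J.mp hA
  rw [TT_sum]
  apply Submodule.sum_mem
  intro l _
  rw [TT_mul, TT_pow hE, zero_mul, zero_add]
  exact summand_mem_J l (TT_mem_Hm u ξ (hG l))

/-- if the space of leading forms is a proper nonzero space, it moves with some other point -/
theorem exists_active (hE : IsDual p E) {m : ι → ℕ} (hm : ∀ i, m i ≤ d) (i : ι)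
    (h : cc d p m i ≤ m i) (hpos : 0 < cc d p m i) :
    ∃ j, j ≠ i ∧ ∃ w, ∃ U ∈ UU d p m i, cD (mv E j w) U ∉ UU d p m i := by
  by_contra hcon
  push Not at hcon
  have hp : p i ≠ 0 := gp1 hE i
  obtain ⟨U, hU, hnd⟩ := exists_not_dvd hm i hp h
  have h1 : UU d p m i = Rd (m i) := by
    refine stable_eq_top hp (UU_le m i) ?_ hU hnd
    intro u ξ hξ V hV
    have h2 : TT E p u ξ V ∈ UU d p m i := by
      rw [mem_UU]
      constructor
      · have : V ∈ Hm (m i + 1) := hV.1
        exact TT_mem_Hm u ξ this
      · have h3 := TT_mem_J hE u ξ hV.2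
        change TT E p u ξ (lin (p i) ^ (d - m i) * V) ∈ _ at h3
        rwa [TT_mul, TT_pow hE, zero_mul, zero_add] at h3
    have h3 : ∑ l, cD (mv E l (eval (p l) (lin ξ) • u)) V ∈ UU d p m i := by
      apply Submodule.sum_mem
      intro l _
      by_cases hl : l = i
      · subst hl
        have h4 : mv E l (eval (p l) (lin ξ) • u) = 0 := by
          unfold mv
          rw [hξ]
          simp
        have h5 : cD (mv E l (eval (p l) (lin ξ) • u)) V = 0 := by
          rw [h4]
          ext α
          rw [coeff_cD]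
          rfl
        rw [h5]
        exact zero_mem _
      · exact hcon l hl _ V hV
    have h4 := Submodule.sub_mem _ h3 h2
    unfold TT at h4
    rwa [sub_sub_cancel] at h4
  have h2 := cc_UU (d := d) (p := p) hm i hp
  rw [h1, finrank_Rd] at h2
  omega

/-- activity: consequences for the codimensions -/
theorem activity (hE : IsDual p E) {m : ι → ℕ} (hm : ∀ i, m i ≤ d) (i : ι) (hi : m i + 1 ≤ d)
    (h : cc d p m i ≤ m i) (hpos : 0 < cc d p m i) :
    ∃ j, j ≠ i ∧ 1 ≤ m j ∧ cc d p (up m j) i < cc d p m i ∧
      cc d p (up (Function.update m j (m j - 1)) i) j ≤ m j - 1 := by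
  obtain ⟨j, hji, w, U, hU, hDU⟩ := exists_active hE hm i h hpos
  have hpi : p i ≠ 0 := gp1 hE i
  have hpj : p j ≠ 0 := gp1 hE j
  have hm1 : ∀ l, m l ≤ d + 1 := fun l => (hm l).trans (Nat.le_succ d)
  obtain ⟨G, hG, hGU⟩ := mem_J.mp hU.2
  change ∑ l, lin (p l) ^ (d + 1 - m l) * G l = lin (p i) ^ (d - m i) * U at hGU
  -- the component at `j` is not divisible
  have hnd : ¬ lin (p j) ∣ G j := by
    rintro ⟨K, hK⟩
    apply hDU
    rw [mem_UU]
    refine ⟨cD_isHomogeneous _ hU.1, ?_⟩
    have h1 := congrArg (cD (mv E j w)) hGU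
    rw [cD_mul (mv E j w) (lin (p i) ^ (d - m i)), cD_lin_pow_ne hE hji.symm, zero_mul, zero_add,
      map_sum] at h1
    rw [← h1]
    apply Submodule.sum_mem
    intro l _
    rw [cD_mul]
    apply Submodule.add_mem
    · by_cases hl : l = j
      · subst hl
        rw [cD_pow, cD_lin_self hE]
        have h2 : C ((d + 1 - m l : ℕ) : ℂ) * (lin (p l) ^ (d + 1 - m l - 1) * lin w) * G l =
            C ((d + 1 - m l : ℕ) : ℂ) * (lin (p l) ^ (d + 1 - m l) * (lin w * K)) := by
          rw [hK, (by have := hm l; omega : d + 1 - m l = d + 1 - m l - 1 + 1), pow_succ,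
            Nat.add_sub_cancel]
          ring
        rw [h2]
        apply C_mul_mem
        apply summand_mem_J
        -- degree count
        have h3 := hG l
        cases hml : m l with
        | zero =>
          rw [hml, mem_Hm_zero, hK] at h3
          have hK0 := (mul_eq_zero.mp h3).resolve_left (lin_ne_zero hpj)
          rw [hK0, mul_zero]
          exact zero_mem _
        | succ n =>
          rw [hml, mem_Hm_succ] at h3
          obtain ⟨K', hK', hKK⟩ := exists_Hm_factor h3 (Dvd.intro _ hK.symm)
          have hKe : K = K' := by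
            rw [hK] at hKK
            exact mul_left_cancel₀ (lin_ne_zero hpj) hKK
          rw [hKe]
          exact mul_mem_Hm_succ (lin_isHomogeneous w) hK'
      · rw [cD_lin_pow_ne hE hl, zero_mul]
        exact zero_mem _
    · exact summand_mem_J l (cD_mem_Hm _ (hG l))
  have hmj : 1 ≤ m j := by
    by_contra hc
    have h1 : m j = 0 := by omega
    have h2 := hG j
    rw [h1, mem_Hm_zero] at h2
    rw [h2] at hnd
    exact hnd (dvd_zero _)
  refine ⟨j, hji, hmj, ?_, ?_⟩
  · by_cases hjd : m j + 1 ≤ d
    · have hmu : ∀ l, up m j l ≤ d := by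
        intro l
        by_cases hl : l = j
        · rw [hl, up_self]; exact hjd
        · rw [up_ne m hl]; exact hm l
      have hui : up m j i = m i := up_ne m hji.symm
      have h1 : UU d p m i < UU d p (up m j) i := by
        refine lt_of_le_of_ne ?_ ?_
        · intro V hV
          rw [mem_UU, hui]
          exact ⟨hV.1, J_mono (up_le_succ hm j) (le_up m j) hV.2⟩
        · intro heq
          apply hDU
          rw [heq, mem_UU, hui]
          refine ⟨cD_isHomogeneous _ hU.1, ?_⟩
          have h2 := cD_mem_J_up hE hm j w hU.2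
          change cD (mv E j w) (lin (p i) ^ (d - m i) * U) ∈ _ at h2
          rwa [cD_mul, cD_lin_pow_ne hE hji.symm, zero_mul, zero_add] at h2
      have h2 := Submodule.finrank_lt_finrank_of_lt h1
      have h3 := cc_UU (d := d) (p := p) hm i hpi
      have h4 := cc_UU (d := d) (p := p) hmu i hpi
      rw [hui] at h4
      omega
    · have h1 : cc d p (up m j) i = 0 := by
        unfold cc
        rw [finrank_linSys_zero_of_gt (m := up m j) (i := j) (by rw [up_self]; omega)]
        exact Nat.zero_sub _
      omega
  · set z := Function.update m j (m j - 1) with hz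
    have hzj : z j = m j - 1 := by rw [hz, Function.update_self]
    have hzl : ∀ l, l ≠ j → z l = m l := fun l hl => by rw [hz, Function.update_of_ne hl]
    have hzle : ∀ l, z l ≤ d := by
      intro l
      by_cases hl : l = j
      · rw [hl, hzj]; have := hm j; omega
      · rw [hzl l hl]; exact hm l
    have hzi : up z i i = m i + 1 := by rw [up_self, hzl i hji.symm]
    have hzij : up z i j = m j - 1 := by rw [up_ne _ hji, hzj]
    have hzu : ∀ l, up z i l ≤ d := by
      intro l
      by_cases hl : l = i
      · rw [hl, hzi]; exact hi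
      · rw [up_ne _ hl]; exact hzle l
    have h1 : G j ∈ UU d p (up z i) j := by
      rw [mem_UU, hzij]
      constructor
      · have h2 := hG j
        obtain ⟨n, hn⟩ : ∃ n, m j = n + 1 := ⟨m j - 1, by omega⟩
        rw [hn, mem_Hm_succ] at h2
        rw [hn, Nat.add_sub_cancel]
        exact h2
      · have h2 : lin (p j) ^ (d - (m j - 1)) * G j = lin (p i) ^ (d - m i) * U -
            ∑ l ∈ Finset.univ.erase j, lin (p l) ^ (d + 1 - m l) * G l := by
          rw [← hGU, ← Finset.add_sum_erase _ _ (Finset.mem_univ j), add_sub_cancel_right,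
            (by have := hm j; omega : d + 1 - m j = d - (m j - 1))]
        rw [h2]
        apply Submodule.sub_mem
        · have h3 : U ∈ Hm (up z i i) := by
            rw [hzi]
            exact hU.1
          have h4 := summand_mem_J (d := d) (p := p) i h3
          rwa [hzi, (by omega : d + 1 - (m i + 1) = d - m i)] at h4
        · apply Submodule.sum_mem
          intro l hl
          have hlj := Finset.ne_of_mem_erase hl
          have h3 : G l ∈ Hm (z l) := by
            rw [hzl l hlj]
            exact hG l
          have h4 := summand_mem_J (d := d) (p := p) l h3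
          rw [hzl l hlj] at h4
          exact J_mono (fun l => (hzu l).trans (Nat.le_succ d)) (le_up z i) h4
    have h2 := cc_le_of_not_dvd hzu j hpj h1 hnd
    rwa [hzij] at h2

end upper

end Pool.Agent.Work.MP_0421d9_ag
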