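import Pool.Agent.Work.MP_0421d9_ag.Upper3

/-!
The chain argument: upper bounds for the dimension of special systems, and of systems which do not
cut out complete series.
-/

set_option linter.unusedSectionVars false

namespace Pool.Agent.Work.MP_0421d9_ag

open MvPolynomial Module

section upper

variable {ι : Type} [Fintype ι] [DecidableEq ι] {d : ℕ} {p : ι → V3}
  {E : ι → Fin 3 → Derivation ℚ ℂ ℂ}

theorem chain (hE : IsDual p E) (i : ι) (K : ℕ) : ∀ (N : ℕ) (y : ι → ℕ), cc d p y i ≤ N →
    cc d p y i ≤ y i →
    (∀ j, j ≠ i → y j ≤ K + 1 ∨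
      ∃ z : ι → ℕ, y = up z j ∧ cc d p (up z i) j ≤ K ∧ cc d p (up z i) j ≤ z j) →
    finrank ℂ (linSys d p (up y i)) ≤ N * K := by
  intro N
  induction N with
  | zero =>
    intro y hN _ _
    have h1 := finrank_eq_zero_of_cc hE i (d + 1) y (by omega) (Nat.le_zero.mp hN)
    have h2 := cc_add (d := d) (p := p) y i
    omega
  | succ N ih =>
    intro y hN hc hy
    by_cases hV : finrank ℂ (linSys d p (up y i)) = 0
    · rw [hV]; exact Nat.zero_le _
    have hyu := le_of_finrank_pos hV
    have hyd : ∀ l, y l ≤ d := fun l => (le_up y i l).trans (hyu l)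
    have hyi : y i + 1 ≤ d := by
      have := hyu i
      rwa [up_self] at this
    have hpos : 0 < cc d p y i := by
      rcases Nat.eq_zero_or_pos (cc d p y i) with h0 | h0
      · exfalso
        apply hV
        have h1 := finrank_eq_zero_of_cc hE i (d + 1) y (by omega) h0
        have h2 := cc_add (d := d) (p := p) y i
        omega
      · exact h0
    obtain ⟨j, hji, hyj, hlt, hcj⟩ := activity hE hyd i hyi hc hpos
    set z := Function.update y j (y j - 1) with hz
    have hyz : y = up z j := up_down hyj
    have hzj : z j = y j - 1 := by rw [hz, Function.update_self]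
    have hzi : ∀ l, up z i l ≤ d := by
      intro l
      by_cases hl : l = i
      · rw [hl, up_self, hz, Function.update_of_ne hji.symm]; exact hyi
      · rw [up_ne _ hl]
        refine le_trans ?_ (hyd l)
        rw [hyz]
        exact le_up z j l
    have hcK : cc d p (up z i) j ≤ K := by
      rcases hy j hji with h1 | ⟨z', hz', h1, -⟩
      · omega
      · have : z = z' := up_injective (hyz.symm.trans hz')
        rw [this]
        exact h1
    have hzij : up z i j = z j := up_ne _ hji
    have hcost : cc d p (up y i) j ≤ cc d p (up z i) j := by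
      have h1 := cc_up_self hE hzi j (by rw [hzij, hzj]; exact hcj)
      rwa [up_comm, ← hyz] at h1
    have h3 := cc_add (d := d) (p := p) (up y i) j
    have h4 : finrank ℂ (linSys d p (up (up y j) i)) ≤ N * K := by
      apply ih (up y j) (by omega)
      · rw [up_ne _ hji.symm]; omega
      · intro l hli
        by_cases hlj : l = j
        · subst hlj
          right
          refine ⟨y, rfl, hcost.trans hcK, ?_⟩
          have := le_up z l l
          rw [← hyz] at this
          omega
        · rcases hy l hli with h1 | ⟨z', hz', h1, h2⟩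
          · left
            rw [up_ne _ hlj]
            exact h1
          · right
            refine ⟨up z' j, ?_, ?_, ?_⟩
            · rw [hz', up_comm]
            · rw [up_comm]
              exact (cc_mono _ hlj).trans h1
            · rw [up_comm, up_ne z' hlj]
              exact (cc_mono _ hlj).trans h2
    rw [up_comm y i j] at h3
    rw [h3, Nat.succ_mul]
    omega

/-- A system which does not cut out the complete series on `E_i` is small. -/
theorem finrank_le_of_incomplete (hE : IsDual p E) {y : ι → ℕ} {i : ι} (hc : cc d p y i ≤ y i)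
    {M : ℕ} (hM : ∀ j, j ≠ i → y j ≤ M) :
    finrank ℂ (linSys d p y) ≤ y i * M ∧
      finrank ℂ (linSys d p (up y i)) ≤ y i * (M - 1) := by
  rcases Nat.eq_zero_or_pos M with h0 | h0
  · -- no active point
    subst h0
    by_cases hV : finrank ℂ (linSys d p (up y i)) = 0
    · refine ⟨?_, by rw [hV]; exact Nat.zero_le _⟩
      rcases Nat.eq_zero_or_pos (cc d p y i) with h1 | h1
      · have := finrank_eq_zero_of_cc hE i (d + 1) y (by omega) h1
        omega
      · exfalso
        by_cases hW : finrank ℂ (linSys d p y) = 0
        · unfold cc at h1; omega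
        have hyd := le_of_finrank_pos hW
        obtain ⟨j, hji, w, U, hU, hDU⟩ := exists_active hE hyd i hc h1
        apply hDU
        have hJ := hU.2
        obtain ⟨G, hG, hGU⟩ := mem_J.mp hJ
        change ∑ l, lin (p l) ^ (d + 1 - y l) * G l = lin (p i) ^ (d - y i) * U at hGU
        have h2 := congrArg (cD (mv E j w)) hGU
        rw [cD_mul (mv E j w) (lin (p i) ^ (d - y i)), cD_lin_pow_ne hE hji.symm, zero_mul,
          zero_add, map_sum] at h2
        rw [mem_UU]
        refine ⟨cD_isHomogeneous _ hU.1, ?_⟩
        rw [← h2]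
        apply Submodule.sum_mem
        intro l _
        by_cases hl : l = j
        · subst hl
          have h3 := hG l
          have h4 := hM l hji
          rw [Nat.le_zero.mp h4, mem_Hm_zero] at h3
          rw [h3, mul_zero, map_zero]
          exact zero_mem _
        · rw [cD_mul, cD_lin_pow_ne hE hl, zero_mul, zero_add]
          exact summand_mem_J l (cD_mem_Hm _ (hG l))
    · exfalso
      have hyu := le_of_finrank_pos hV
      have hyd : ∀ l, y l ≤ d := fun l => (le_up y i l).trans (hyu l)
      have hyi : y i + 1 ≤ d := by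
        have := hyu i
        rwa [up_self] at this
      have hpos : 0 < cc d p y i := by
        rcases Nat.eq_zero_or_pos (cc d p y i) with h0 | h0
        · exfalso
          apply hV
          have h1 := finrank_eq_zero_of_cc hE i (d + 1) y (by omega) h0
          have h2 := cc_add (d := d) (p := p) y i
          omega
        · exact h0
      obtain ⟨j, hji, hyj, -, -⟩ := activity hE hyd i hyi hc hpos
      have := hM j hji
      omega
  · have h1 := chain hE i (M - 1) (cc d p y i) y le_rfl hc (fun j hj => Or.inl (by
      have := hM j hj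
      omega))
    have h2 : cc d p y i * (M - 1) ≤ y i * (M - 1) := Nat.mul_le_mul_right _ hc
    refine ⟨?_, h1.trans h2⟩
    rw [cc_add y i]
    calc finrank ℂ (linSys d p (up y i)) + cc d p y i ≤ cc d p y i * (M - 1) + cc d p y i := by
          omega
      _ = cc d p y i * M := by
          obtain ⟨k, rfl⟩ : ∃ k, M = k + 1 := ⟨M - 1, by omega⟩
          rw [Nat.add_sub_cancel]
          ring
      _ ≤ y i * M := Nat.mul_le_mul_right _ hc

theorem sum_choose_up (y : ι → ℕ) (i : ι) :
    ∑ l, (up y i l + 1).choose 2 = ∑ l, (y l + 1).choose 2 + (y i + 1) := by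
  rw [← Finset.add_sum_erase _ _ (Finset.mem_univ i),
    ← Finset.add_sum_erase _ (fun l => (y l + 1).choose 2) (Finset.mem_univ i), up_self]
  have h1 : ∑ l ∈ Finset.univ.erase i, (up y i l + 1).choose 2 =
      ∑ l ∈ Finset.univ.erase i, (y l + 1).choose 2 := by
    refine Finset.sum_congr rfl (fun l hl => ?_)
    rw [up_ne _ (Finset.ne_of_mem_erase hl)]
  rw [h1]
  have : (y i + 1 + 1).choose 2 = (y i + 1).choose 2 + (y i + 1) := choose_two_succ (y i)
  omega

/-- a special system lies in a system for which some multiplicity imposes too few conditions -/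
theorem exists_incomplete : ∀ (n : ℕ) (m : ι → ℕ), ∑ i, m i ≤ n →
    (d + 2).choose 2 < finrank ℂ (linSys d p m) + ∑ i, (m i + 1).choose 2 →
    ∃ (y : ι → ℕ) (i : ι), (∀ l, up y i l ≤ m l) ∧ cc d p y i ≤ y i := by
  intro n
  induction n with
  | zero =>
    intro m hm h
    exfalso
    have h0 : ∀ i, m i = 0 := by
      intro i
      have := Finset.single_le_sum (f := m) (fun j _ => Nat.zero_le (m j)) (Finset.mem_univ i)
      omega
    have h1 : ∑ i, (m i + 1).choose 2 = 0 := Finset.sum_eq_zero (fun i _ => by rw [h0 i]; rfl)
    rw [h1, add_zero] at h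
    have h2 : finrank ℂ (linSys d p m) ≤ (d + 2).choose 2 := by
      rw [← finrank_Rd d]
      exact Submodule.finrank_mono (linSys_le d p m)
    omega
  | succ n ih =>
    intro m hm h
    by_cases h0 : ∀ i, m i = 0
    · exact ih m (by rw [Finset.sum_eq_zero (fun i _ => h0 i)]; exact Nat.zero_le _) h
    push Not at h0
    obtain ⟨i, hi⟩ := h0
    set y := Function.update m i (m i - 1) with hy
    have hmy : m = up y i := up_down (by omega)
    have hyi : y i + 1 = m i := by rw [hy, Function.update_self]; omega
    by_cases hs : (d + 2).choose 2 < finrank ℂ (linSys d p y) + ∑ l, (y l + 1).choose 2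
    · have h1 : ∑ l, y l ≤ n := by
        have h2 : ∑ l, y l + 1 = ∑ l, m l := by
          rw [← Finset.add_sum_erase _ _ (Finset.mem_univ i),
            ← Finset.add_sum_erase _ m (Finset.mem_univ i)]
          have h3 : ∑ l ∈ Finset.univ.erase i, y l = ∑ l ∈ Finset.univ.erase i, m l := by
            refine Finset.sum_congr rfl (fun l hl => ?_)
            rw [hy, Function.update_of_ne (Finset.ne_of_mem_erase hl)]
          omega
        omega
      obtain ⟨z, j, hz, hc⟩ := ih y h1 hs
      refine ⟨z, j, fun l => (hz l).trans ?_, hc⟩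
      rw [hmy]
      exact le_up y i l
    · refine ⟨y, i, fun l => by rw [← hmy], ?_⟩
      have h1 := cc_add (d := d) (p := p) y i
      have h2 := sum_choose_up y i
      rw [← hmy] at h1 h2
      omega

/-- **Sharp bound for special systems.** -/
theorem special_bound (hE : IsDual p E) {m : ι → ℕ} (hpos : 0 < finrank ℂ (linSys d p m))
    (h : (d + 2).choose 2 < finrank ℂ (linSys d p m) + ∑ i, (m i + 1).choose 2) :
    ∃ i j, i ≠ j ∧ finrank ℂ (linSys d p m) ≤ (m i - 1) * (m j - 1) := by
  obtain ⟨y, i, hy, hc⟩ := exists_incomplete (∑ i, m i) m le_rfl h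
  have h1 : finrank ℂ (linSys d p m) ≤ finrank ℂ (linSys d p (up y i)) :=
    Submodule.finrank_mono (linSys_mono hy)
  -- there is another point
  have hne : ∃ j, j ≠ i := by
    by_contra hcon
    push Not at hcon
    have := (finrank_le_of_incomplete hE hc (M := 0) (fun j hj => absurd (hcon j) hj)).1
    have h2 : finrank ℂ (linSys d p (up y i)) ≤ finrank ℂ (linSys d p y) :=
      Submodule.finrank_mono (linSys_mono (le_up y i))
    omega
  obtain ⟨j₀, hj₀⟩ := hne
  obtain ⟨j, hj, hjmax⟩ := Finset.exists_max_image (Finset.univ.erase i) m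
    ⟨j₀, Finset.mem_erase.mpr ⟨hj₀, Finset.mem_univ _⟩⟩
  have hji := Finset.ne_of_mem_erase hj
  refine ⟨i, j, hji.symm, ?_⟩
  have h2 := (finrank_le_of_incomplete hE hc (M := m j) (fun l hl => by
    refine le_trans ?_ (hjmax l (Finset.mem_erase.mpr ⟨hl, Finset.mem_univ _⟩))
    have := hy l
    rwa [up_ne _ hl] at this)).2
  refine h1.trans (h2.trans ?_)
  apply Nat.mul_le_mul_right
  have := hy i
  rw [up_self] at this
  omega

end upper

end Pool.Agent.Work.MP_0421d9_ag
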