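import Pool.Agent.Work.MP_0421d9_ag.VPar

/-!
The base of the induction: maximal rank when one side is at least `14 k ^ 2`.
-/

namespace Pool.Agent.Work.MP_0421d9_ag.LD

open MvPolynomial Module

theorem QT_base_aux {k L : ℕ} (hk : 1 ≤ k) (hL : 14 * (k * k) ≤ L) :
    ∀ H : ℕ, 2 * k + 1 ≤ H → ∀ N, MR H L k N := by
  have hρ : L % k < k := Nat.mod_lt _ hk
  obtain ⟨q, hq⟩ : ∃ q, L = k * q + L % k := ⟨L / k, (Nat.div_add_mod _ _).symm⟩
  generalize L % k = ρ at *
  have h1 : 2 * (k + 1) + ρ ≤ q := by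
    by_contra hcon
    have h2 : k * q ≤ k * (2 * (k + 1) + ρ) := Nat.mul_le_mul_left k (by omega)
    have h3 : k * ρ ≤ k * k := Nat.mul_le_mul_left k hρ.le
    nlinarith
  obtain ⟨a, rfl⟩ : ∃ a, q = a + (2 * (k + 1) + ρ) := ⟨q - (2 * (k + 1) + ρ), by omega⟩
  have hLe : L = a * k + (2 * k + ρ) * (k + 1) := by
    rw [hq]; ring
  have hρk : ρ * (k + 1) + (k + 1) ≤ k * (k + 1) := by
    have : (ρ + 1) * (k + 1) ≤ k * (k + 1) := Nat.mul_le_mul_right _ hρ
    nlinarith
  have hak : 4 * (k * k) + 6 * k + 2 ≤ a * k + 8 * k + 2 := by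
    nlinarith
  have hL2 : 2 ≤ L := by nlinarith
  have hμ := two_mul_choose k
  have hLk : L * k + (a * k) = 2 * (a + (2 * k + ρ)) * (k + 1).choose 2 := by
    have : 2 * (a + (2 * k + ρ)) * (k + 1).choose 2 = (a + (2 * k + ρ)) * (k * (k + 1)) := by
      rw [← hμ]; ring
    rw [this, hLe]
    ring
  intro H
  induction H using Nat.strong_induction_on with
  | _ H ih =>
    intro hH N
    rcases Nat.lt_or_ge N (2 * (a + (2 * k + ρ))) with hN | hN
    · exact MR_of_reg (rect_pack (u := 1) hk hL2 hLe (by omega) (by omega))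
    rcases Nat.lt_or_ge H (3 * k + 2) with h2 | h2
    · refine MR_of_le (rect_exact (α := a) (β := 2 * k + ρ) hk hH hL2 hLe hN ?_ ?_)
      · have h3 : (H - k - 1).choose 2 ≤ (2 * k - 1 + 1).choose 2 :=
          Nat.choose_le_choose 2 (by omega)
        have h4 := two_mul_choose (2 * k - 1)
        have h5 : (2 * k - 1) * (2 * k - 1 + 1) + 2 * k = 4 * (k * k) := by
          obtain ⟨x, rfl⟩ : ∃ x, k = x + 1 := ⟨k - 1, by omega⟩
          have : 2 * (x + 1) - 1 = 2 * x + 1 := by omega
          rw [this]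
          ring
        omega
      · have h3 : (H - k - 2).choose 2 ≤ (2 * k + 1).choose 2 :=
          Nat.choose_le_choose 2 (by omega)
        have h4 := two_mul_choose (2 * k)
        have h5 : 2 * k * (2 * k + 1) + 2 * k ≤ 2 * ((2 * k + ρ) * (k + 1)) := by nlinarith
        omega
    · obtain ⟨n, rfl⟩ : ∃ n, N = n + 2 * (a + (2 * k + ρ)) :=
        ⟨N - 2 * (a + (2 * k + ρ)), by omega⟩
      have hs := rect_strip (N := n) hk (by omega : k + 1 ≤ H) hL2 hLe
      have i1 := ih (H - k) (by omega) (by omega) n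
      have i2 := ih (H - k - 1) (by omega) (by omega) n
      obtain ⟨x, rfl⟩ : ∃ x, H = x + k + 1 := ⟨H - k - 1, by omega⟩
      have g1 : x + k + 1 - k = x + 1 := by omega
      have g2 : x + 1 - 1 = x := by omega
      rw [g1] at hs i1 i2
      rw [g2] at hs i2
      unfold MR at i1 i2
      apply MR_of_le
      have e1 : (x + k + 1) * L = x * L + L * k + L := by ring
      have e2 : (x + 1) * L = x * L + L := by ring
      have e3 : (n + 2 * (a + (2 * k + ρ))) * (k + 1).choose 2 =
          n * (k + 1).choose 2 + 2 * (a + (2 * k + ρ)) * (k + 1).choose 2 := by ring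
      rw [e1, e3, ← hLk]
      rw [e2] at i1
      generalize n * (k + 1).choose 2 = nμ at *
      generalize x * L = xL at *
      generalize L * k = Lk at *
      generalize hαk : a * k = αk at *
      refine hs.trans (max_le ?_ ?_)
      · omega
      · omega

theorem QT_base : QT 1 := by
  refine ⟨3, 14, by norm_num, by norm_num, ?_⟩
  intro k H L N hk hH _ hL
  have h1 : (k : ℝ) ^ ((1 : ℝ) + 1) = (k : ℝ) * k := by
    rw [Real.rpow_add (by exact_mod_cast hk), Real.rpow_one]
  rw [h1] at hL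
  have h2 : 14 * (k * k) ≤ L := by exact_mod_cast hL
  exact QT_base_aux hk h2 H (by omega) N

end Pool.Agent.Work.MP_0421d9_ag.LD
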