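import Mathlib

/-! Chinese remainder representation of a residue class, and coprime numbers which are not too large. -/

set_option autoImplicit false

namespace Pool.Agent.Work.MP_0421d9_ag.LD

/-- a representative in `[1, n]` of `X / M` modulo `n` -/
theorem exists_rep (n M X : ℕ) (hn : 1 ≤ n) (hc : Nat.Coprime M n) :
    ∃ a : ℕ, 1 ≤ a ∧ a ≤ n ∧ (n : ℤ) ∣ (a * M : ℤ) - X := by
  have hc' : IsCoprime (M : ℤ) (n : ℤ) := Nat.isCoprime_iff_coprime.2 hc
  obtain ⟨u, v, huv⟩ := hc'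
  have hn0 : (0 : ℤ) < n := by exact_mod_cast hn
  -- a ≡ X * u
  set t : ℤ := ((X : ℤ) * u - 1) % n with ht
  have ht0 : 0 ≤ t := Int.emod_nonneg _ hn0.ne'
  have ht1 : t < n := Int.emod_lt_of_pos _ hn0
  refine ⟨(t + 1).toNat, ?_, ?_, ?_⟩
  · omega
  · omega
  · have h1 : (((t + 1).toNat : ℕ) : ℤ) = t + 1 := Int.toNat_of_nonneg (by omega)
    rw [h1]
    have h2 : (n : ℤ) ∣ ((X : ℤ) * u - 1) - t := by
      rw [ht]; exact Int.dvd_self_sub_emod
    obtain ⟨q, hq⟩ := h2
    refine ⟨-(q * M) - v * X, ?_⟩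
    have h3 : t = (X : ℤ) * u - 1 - n * q := by linarith
    have h4 : (u * M + v * n : ℤ) = 1 := by linarith
    rw [h3]
    linear_combination (X : ℤ) * h4

theorem crt_sum {j : ℕ} (n : ℕ → ℕ) (hn : ∀ i < j, 1 ≤ n i)
    (hcop : ∀ i < j, ∀ i' < j, i ≠ i' → Nat.Coprime (n i) (n i')) (X : ℕ) :
    ∃ a : ℕ → ℕ, (∀ i < j, 1 ≤ a i ∧ a i ≤ n i) ∧
      (∑ i ∈ Finset.range j, a i * ((∏ l ∈ Finset.range j, n l) / n i)) ≡ X
        [MOD (∏ l ∈ Finset.range j, n l)] := by
  have hdiv : ∀ i ∈ Finset.range j, (∏ l ∈ Finset.range j, n l) / n i =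
      ∏ l ∈ (Finset.range j).erase i, n l := by
    intro i hi
    rw [← Finset.mul_prod_erase _ _ hi]
    exact Nat.mul_div_cancel_left _ (hn i (Finset.mem_range.1 hi))
  have hM : ∀ i : ℕ, ∃ a : ℕ, i < j → 1 ≤ a ∧ a ≤ n i ∧
      (n i : ℤ) ∣ (a * (∏ l ∈ (Finset.range j).erase i, n l : ℕ) : ℤ) - X := by
    intro i
    by_cases hi : i < j
    · have hc : Nat.Coprime (∏ l ∈ (Finset.range j).erase i, n l) (n i) := by
        refine Nat.Coprime.prod_left ?_
        intro l hl
        rw [Finset.mem_erase, Finset.mem_range] at hl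
        exact hcop l hl.2 i hi hl.1
      obtain ⟨a, h1, h2, h3⟩ := exists_rep (n i) _ X (hn i hi) hc
      exact ⟨a, fun _ => ⟨h1, h2, h3⟩⟩
    · exact ⟨0, fun h => absurd h hi⟩
  choose a ha using hM
  refine ⟨a, fun i hi => ⟨(ha i hi).1, (ha i hi).2.1⟩, ?_⟩
  rw [Nat.modEq_iff_dvd]
  have h0 : (((∏ l ∈ Finset.range j, n l : ℕ)) : ℤ) = ∏ l ∈ Finset.range j, (n l : ℤ) := by
    push_cast; rfl
  rw [h0]
  refine Finset.prod_dvd_of_coprime ?_ ?_
  · intro i hi i' hi' hne
    exact Nat.isCoprime_iff_coprime.2 (hcop i (by simpa using hi) i' (by simpa using hi') hne)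
  · intro i hi
    have hi' := Finset.mem_range.1 hi
    have h1 : (∑ l ∈ Finset.range j, a l * ((∏ l ∈ Finset.range j, n l) / n l)) =
        a i * (∏ l ∈ (Finset.range j).erase i, n l) +
          ∑ l ∈ (Finset.range j).erase i, a l * ((∏ l ∈ Finset.range j, n l) / n l) := by
      rw [← Finset.add_sum_erase _ _ hi, hdiv i hi]
    rw [h1]
    have h2 : n i ∣ ∑ l ∈ (Finset.range j).erase i, a l * ((∏ l ∈ Finset.range j, n l) / n l) := by
      refine Finset.dvd_sum ?_
      intro l hl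
      rw [Finset.mem_erase] at hl
      rw [hdiv l hl.2]
      refine Dvd.dvd.mul_left ?_ _
      exact Finset.dvd_prod_of_mem _ (Finset.mem_erase.2 ⟨hl.1.symm, hi⟩)
    have h3 := (ha i hi').2.2
    have h4 : (n i : ℤ) ∣ ((∑ l ∈ (Finset.range j).erase i, a l * ((∏ l ∈ Finset.range j, n l) / n l) : ℕ) : ℤ) :=
      Int.natCast_dvd_natCast.2 h2
    have h5 := (dvd_add h3 h4).neg_right
    rw [Nat.cast_add, Nat.cast_mul]
    convert h5 using 1
    ring

/-- pairwise coprime numbers which are not too large -/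
theorem exists_coprime (j : ℕ) : ∃ c : ℕ, 1 ≤ c ∧ ∀ B : ℕ, 1 ≤ B → ∃ n : ℕ → ℕ,
    (∀ i < j, B ≤ n i ∧ n i ≤ c * B) ∧
      (∀ i < j, ∀ i' < j, i ≠ i' → Nat.Coprime (n i) (n i')) := by
  have key : ∀ B : ℕ, ∀ i i' : ℕ, i < i' → i' < j →
      Nat.Coprime (1 + j.factorial * B * (i + 1)) (1 + j.factorial * B * (i' + 1)) := by
    intro B i i' hii hi'
    rw [Nat.coprime_iff_gcd_eq_one]
    by_contra hne
    obtain ⟨p, hp, hpd⟩ := Nat.exists_prime_and_dvd hne
    have h1 : p ∣ 1 + j.factorial * B * (i + 1) := hpd.trans (Nat.gcd_dvd_left _ _)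
    have h2 : p ∣ 1 + j.factorial * B * (i' + 1) := hpd.trans (Nat.gcd_dvd_right _ _)
    have h3 : p ∣ j.factorial * B * (i' - i) := by
      have h4 := Nat.dvd_sub h2 h1
      have h5 : (1 + j.factorial * B * (i' + 1)) - (1 + j.factorial * B * (i + 1)) =
          j.factorial * B * (i' - i) := by
        rw [Nat.add_sub_add_left, ← Nat.mul_sub, Nat.add_sub_add_right]
      rwa [h5] at h4
    have h6 : p ∣ j.factorial * B := by
      rcases (Nat.Prime.dvd_mul hp).1 h3 with h | h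
      · exact h
      · refine Dvd.dvd.mul_right ?_ _
        refine h.trans ?_
        exact Nat.dvd_factorial (by omega) (by omega)
    have h7 : p ∣ 1 := by
      have h8 : p ∣ j.factorial * B * (i + 1) := h6.mul_right _
      exact (Nat.dvd_add_left h8).1 h1
    exact hp.one_lt.ne' (Nat.dvd_one.1 h7)
  refine ⟨1 + j.factorial * j, by omega, ?_⟩
  intro B hB
  refine ⟨fun i => 1 + j.factorial * B * (i + 1), ?_, ?_⟩
  · intro i hi
    have hf : 1 ≤ j.factorial := Nat.factorial_pos j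
    constructor
    · show B ≤ 1 + j.factorial * B * (i + 1)
      have h1 : 1 * B * 1 ≤ j.factorial * B * (i + 1) :=
        Nat.mul_le_mul (Nat.mul_le_mul_right _ hf) (by omega)
      omega
    · show 1 + j.factorial * B * (i + 1) ≤ (1 + j.factorial * j) * B
      have h1 : j.factorial * B * (i + 1) ≤ j.factorial * B * j := Nat.mul_le_mul_left _ (by omega)
      have h2 : j.factorial * B * j = j.factorial * j * B := by ring
      have h3 : (1 + j.factorial * j) * B = B + j.factorial * j * B := by ring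
      omega
  · intro i hi i' hi' hne
    rcases Nat.lt_or_gt_of_ne hne with h | h
    · exact key B i i' h hi'
    · exact (key B i' i h hi).symm

end Pool.Agent.Work.MP_0421d9_ag.LD
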