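import Pool.Agent.Work.MP_0421d9_ag.VMed
import Pool.Agent.Work.MP_0421d9_ag.VCrt

/-!
All heights are sums of heights of thin and medium strips.
-/

namespace Pool.Agent.Work.MP_0421d9_ag.LD

open MvPolynomial Module

theorem Par.mediumS {η : ℕ} (P : Par η) {n a k L : ℕ} (ha : 1 ≤ a) (han : a ≤ n)
    (hk : n * P.Z + n ^ 2 * (P.W2 + 1) ≤ k)
    (hγ : k * (k + 1) * (P.Z + 4 * n * P.s) ≤ P.s * P.Z * L) :
    GS k L P.s (k + a * k / n + 1 - P.W2 + P.s) (k + a * k / n - P.W1 - P.s) := by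
  have p1 := P.h1
  have p2 := P.h2
  have p3 := P.h3
  have p4 := P.hZ2
  have p5 := P.hs
  have hn : 0 < n := by omega
  have hkZ : P.Z ≤ k := by
    have : P.Z ≤ n * P.Z := Nat.le_mul_of_pos_left _ hn
    omega
  obtain ⟨d, ρ, hρ, hρa, hd⟩ : ∃ d ρ, a * k = n * d + ρ ∧ ρ < n ∧ a * k / n = d :=
    ⟨a * k / n, a * k % n, (Nat.div_add_mod _ _).symm, Nat.mod_lt _ hn, rfl⟩
  rw [hd]
  obtain ⟨F, hF⟩ : ∃ F, F = k + d := ⟨_, rfl⟩
  rw [← hF]
  have hnF : (n + a) * k = n * F + ρ := by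
    rw [hF, add_mul, hρ]; ring
  refine GS_of (by omega) (by omega) (fun R h1 h2 => P.medium ha han hk hγ ?_ ?_)
  · rw [hnF]
    have h3 : n * (R + P.W1) ≤ n * F := Nat.mul_le_mul_left n (by omega)
    rw [mul_add] at h3
    omega
  · rw [hnF]
    have h3 : n * (F + 1) ≤ n * (R + P.W2) := Nat.mul_le_mul_left n (by omega)
    rw [mul_add, mul_add] at h3
    omega

/-- the condition on the invariant implies the one for thin strips -/
theorem Par.thin_cond {η : ℕ} (P : Par η) {x k L : ℕ}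
    (hγ : k * (k + 1) * (P.Z + x * P.s) ≤ P.s * P.Z * L) : k * (k + 1) ≤ P.s * L := by
  have p1 := P.h1
  have p2 := P.h2
  have p3 := P.h3
  have p4 := P.hZ2
  have p5 := P.hs
  have hZpos : 0 < P.Z := by omega
  refine Nat.le_of_mul_le_mul_right ?_ hZpos
  calc k * (k + 1) * P.Z ≤ k * (k + 1) * (P.Z + x * P.s) := Nat.mul_le_mul_left _ (by omega)
    _ ≤ P.s * P.Z * L := hγ
    _ = P.s * L * P.Z := by ring

/-- heights in an interval of length `2 k` -/
theorem Par.cover0 {η : ℕ} (P : Par η) {j M k L : ℕ} (hj : 1 ≤ j) (n : ℕ → ℕ)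
    (hn : ∀ i < j, 1 ≤ n i ∧ n i ≤ M)
    (hcop : ∀ i < j, ∀ i' < j, i ≠ i' → Nat.Coprime (n i) (n i'))
    (hk : M * P.Z + M ^ 2 * (P.W2 + 1) ≤ k)
    (hγ : k * (k + 1) * (P.Z + 4 * M * P.s) ≤ P.s * P.Z * L)
    (hT : (j + 5) * ((2 * η + 1) * P.s) + j * (1 + P.s) ≤ j * P.W2)
    (hT' : j * (P.W1 + P.s + 1) ≤ P.W3 + 1)
    (hP : k ≤ ∏ i ∈ Finset.range j, n i) {H : ℕ} (hH : (2 * j + 3) * k ≤ H)
    (hH' : H ≤ (2 * j + 5) * k) : GE k L H := by
  have p1 := P.h1
  have p2 := P.h2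
  have p3 := P.h3
  have p4 := P.hZ2
  have p5 := P.hs
  have hM : 1 ≤ M := (hn 0 (by omega)).1.trans (hn 0 (by omega)).2
  have hkZ : P.Z ≤ k := by
    have : P.Z ≤ M * P.Z := Nat.le_mul_of_pos_left _ hM
    omega
  have hkpos : 0 < k := by omega
  have hγ1 := P.thin_cond hγ
  have hL2 : 2 ≤ L := by
    have := P.two_le hkZ hγ1
    omega
  set Ψ := ∏ i ∈ Finset.range j, n i with hΨ
  have hqpos : 0 < Ψ := by omega
  -- the target
  set X := Ψ * H / k with hX
  have hX1 : X * k ≤ Ψ * H := Nat.div_mul_le_self _ _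
  have hX2 : Ψ * H < (X + 1) * k := by
    have h3 := Nat.lt_div_mul_add (a := Ψ * H) hkpos
    rw [← hX] at h3
    rw [add_mul, one_mul]
    exact h3
  obtain ⟨a, ha, hsum⟩ := crt_sum n (fun i hi => (hn i hi).1) hcop X
  rw [← hΨ] at hsum
  set S := ∑ i ∈ Finset.range j, a i * (Ψ / n i) with hS
  have hdvd : ∀ i < j, n i ∣ Ψ := fun i hi => Finset.dvd_prod_of_mem n (Finset.mem_range.mpr hi)
  have hS1 : S ≤ j * Ψ := by
    calc S ≤ ∑ i ∈ Finset.range j, Ψ := by
          refine Finset.sum_le_sum (fun i hi => ?_)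
          rw [Finset.mem_range] at hi
          calc a i * (Ψ / n i) ≤ n i * (Ψ / n i) := Nat.mul_le_mul_right _ (ha i hi).2
            _ = Ψ := Nat.mul_div_cancel' (hdvd i hi)
      _ = j * Ψ := by rw [Finset.sum_const, Finset.card_range, smul_eq_mul]
  have hX3 : (2 * j + 3) * Ψ ≤ X := by
    rw [hX, Nat.le_div_iff_mul_le hkpos]
    calc (2 * j + 3) * Ψ * k = Ψ * ((2 * j + 3) * k) := by ring
      _ ≤ Ψ * H := Nat.mul_le_mul_left _ hH
  have hX4 : X ≤ (2 * j + 5) * Ψ := by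
    have h3 : X * k ≤ (2 * j + 5) * Ψ * k := by
      calc X * k ≤ Ψ * H := hX1
        _ ≤ Ψ * ((2 * j + 5) * k) := Nat.mul_le_mul_left _ hH'
        _ = (2 * j + 5) * Ψ * k := by ring
    exact Nat.le_of_mul_le_mul_right h3 hkpos
  have hSX : S ≤ X := by
    calc S ≤ j * Ψ := hS1
      _ ≤ (2 * j + 3) * Ψ := Nat.mul_le_mul_right _ (by omega)
      _ ≤ X := hX3
  obtain ⟨Q, hQ⟩ : ∃ Q, X = S + Ψ * Q := by
    obtain ⟨Q, hQ⟩ := (Nat.modEq_iff_dvd' hSX).mp hsum
    exact ⟨Q, by omega⟩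
  have hQ1 : j + 1 ≤ Q := by
    have h3 : Ψ * (j + 1) ≤ Ψ * Q := by
      have h4 : (2 * j + 3) * Ψ = j * Ψ + Ψ * (j + 1) + 2 * Ψ := by ring
      omega
    exact Nat.le_of_mul_le_mul_left h3 hqpos
  have hQ2 : Q ≤ 2 * j + 5 := by
    have h3 : Ψ * Q ≤ Ψ * (2 * j + 5) := by
      have h4 : (2 * j + 5) * Ψ = Ψ * (2 * j + 5) := by ring
      omega
    exact Nat.le_of_mul_le_mul_left h3 hqpos
  obtain ⟨q, rfl⟩ : ∃ q, Q = q + j := ⟨Q - j, by omega⟩
  have hq1 : 1 ≤ q := by omega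
  have hq2 : q ≤ j + 5 := by omega
  -- the intervals
  have hthin := (P.thinS hkZ hγ1).smul hL2 hγ1 q hq1
  have hmed := GS.sum hL2 hγ1 (x := fun i => k + a i * k / n i + 1 - P.W2 + P.s)
    (y := fun i => k + a i * k / n i - P.W1 - P.s) j hj (fun i hi => by
      refine P.mediumS (ha i hi).1 (ha i hi).2 ?_ ?_
      · have h3 := (hn i hi).2
        have h4 : n i * P.Z ≤ M * P.Z := Nat.mul_le_mul_right _ h3
        have h5 : n i ^ 2 * (P.W2 + 1) ≤ M ^ 2 * (P.W2 + 1) :=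
          Nat.mul_le_mul_right _ (Nat.pow_le_pow_left h3 2)
        omega
      · refine le_trans (Nat.mul_le_mul_left _ ?_) hγ
        have h3 := (hn i hi).2
        have h4 : 4 * n i * P.s ≤ 4 * M * P.s := by gcongr
        omega)
  have hall := hthin.add hL2 hγ1 hmed
  -- the fractional parts
  set e := fun i => a i * k % n i with he
  have hdiv : ∀ i < j, k * (a i * (Ψ / n i)) = Ψ * (a i * k / n i) + (Ψ / n i) * e i := by
    intro i hi
    have h3 : n i * (a i * k / n i) + a i * k % n i = a i * k := Nat.div_add_mod _ _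
    have h4 : n i * (Ψ / n i) = Ψ := Nat.mul_div_cancel' (hdvd i hi)
    calc k * (a i * (Ψ / n i)) = (Ψ / n i) * (a i * k) := by ring
      _ = (Ψ / n i) * (n i * (a i * k / n i) + a i * k % n i) := by rw [h3]
      _ = (n i * (Ψ / n i)) * (a i * k / n i) + (Ψ / n i) * e i := by rw [he]; ring
      _ = _ := by rw [h4]
  set G := ∑ i ∈ Finset.range j, (a i * k / n i) with hG
  set Efrac := ∑ i ∈ Finset.range j, (Ψ / n i) * e i with hE
  have hkS : k * S = Ψ * G + Efrac := by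
    rw [hS, hG, hE, Finset.mul_sum, Finset.mul_sum, ← Finset.sum_add_distrib]
    exact Finset.sum_congr rfl (fun i hi => hdiv i (Finset.mem_range.mp hi))
  have hE1 : Efrac ≤ j * Ψ := by
    calc Efrac ≤ ∑ i ∈ Finset.range j, Ψ := by
          refine Finset.sum_le_sum (fun i hi => ?_)
          rw [Finset.mem_range] at hi
          calc (Ψ / n i) * e i ≤ (Ψ / n i) * n i :=
                Nat.mul_le_mul_left _ (Nat.mod_lt _ (by have := (hn i hi).1; omega)).le
            _ = Ψ := Nat.div_mul_cancel (hdvd i hi)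
      _ = j * Ψ := by rw [Finset.sum_const, Finset.card_range, smul_eq_mul]
  -- `Ψ H = Ψ (q k + j k + G) + Efrac + (Ψ H - X k)`
  have hqH : Ψ * ((q + j) * k + G) + Efrac ≤ Ψ * H := by
    calc Ψ * ((q + j) * k + G) + Efrac = (Ψ * G + Efrac) + Ψ * (q + j) * k := by ring
      _ = X * k := by rw [← hkS, hQ]; ring
      _ ≤ Ψ * H := hX1
  have hqH' : Ψ * H < Ψ * ((q + j) * k + G) + Efrac + k := by
    calc Ψ * H < (X + 1) * k := hX2
      _ = k * S + Ψ * (q + j) * k + k := by rw [hQ]; ring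
      _ = Ψ * ((q + j) * k + G) + Efrac + k := by rw [hkS]; ring
  obtain ⟨v, hv⟩ : ∃ v, H = (q + j) * k + G + v := by
    have h3 : (q + j) * k + G ≤ H := by
      have h4 : Ψ * ((q + j) * k + G) ≤ Ψ * H := by omega
      exact Nat.le_of_mul_le_mul_left h4 hqpos
    exact Nat.exists_eq_add_of_le h3
  have hvj : v ≤ j := by
    have h3 : Ψ * v < Ψ * (j + 1) := by
      have h4 : Ψ * H = Ψ * ((q + j) * k + G) + Ψ * v := by rw [hv]; ring
      have h5 : Ψ * (j + 1) = j * Ψ + Ψ := by ring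
      omega
    have := Nat.lt_of_mul_lt_mul_left h3
    omega
  -- the bounds
  have hlow : ∑ i ∈ Finset.range j, (k + a i * k / n i + 1 - P.W2 + P.s) + j * P.W2 =
      j * k + G + j * (1 + P.s) := by
    have h3 : ∀ i ∈ Finset.range j, (k + a i * k / n i + 1 - P.W2 + P.s) + P.W2 =
        k + a i * k / n i + (1 + P.s) := by
      intro i _
      generalize a i * k / n i = z
      omega
    calc ∑ i ∈ Finset.range j, (k + a i * k / n i + 1 - P.W2 + P.s) + j * P.W2
        = ∑ i ∈ Finset.range j, ((k + a i * k / n i + 1 - P.W2 + P.s) + P.W2) := by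
          rw [Finset.sum_add_distrib (f := fun i => k + a i * k / n i + 1 - P.W2 + P.s),
            Finset.sum_const, Finset.card_range, smul_eq_mul]
      _ = ∑ i ∈ Finset.range j, (k + a i * k / n i + (1 + P.s)) := Finset.sum_congr rfl h3
      _ = j * k + G + j * (1 + P.s) := by
          rw [Finset.sum_add_distrib, Finset.sum_add_distrib, hG]
          simp only [Finset.sum_const, Finset.card_range, smul_eq_mul]
  have hupp : ∑ i ∈ Finset.range j, (k + a i * k / n i - P.W1 - P.s) + j * (P.W1 + P.s) =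
      j * k + G := by
    have h3 : ∀ i ∈ Finset.range j, (k + a i * k / n i - P.W1 - P.s) + (P.W1 + P.s) =
        k + a i * k / n i := by
      intro i _
      generalize a i * k / n i = z
      omega
    calc ∑ i ∈ Finset.range j, (k + a i * k / n i - P.W1 - P.s) + j * (P.W1 + P.s)
        = ∑ i ∈ Finset.range j, ((k + a i * k / n i - P.W1 - P.s) + (P.W1 + P.s)) := by
          rw [Finset.sum_add_distrib (f := fun i => k + a i * k / n i - P.W1 - P.s),
            Finset.sum_const, Finset.card_range, smul_eq_mul]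
      _ = ∑ i ∈ Finset.range j, (k + a i * k / n i) := Finset.sum_congr rfl h3
      _ = j * k + G := by
          rw [Finset.sum_add_distrib, hG]
          simp only [Finset.sum_const, Finset.card_range, smul_eq_mul]
  have e1 : (q + j) * k = q * k + j * k := by ring
  refine hall.good ?_ ?_
  · have h3 : q * (k + (2 * η + 1) * P.s) = q * k + q * ((2 * η + 1) * P.s) := by ring
    have h4 : q * ((2 * η + 1) * P.s) ≤ (j + 5) * ((2 * η + 1) * P.s) :=
      Nat.mul_le_mul_right _ hq2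
    omega
  · have h3 : q * (k + (P.W3 + 1 - P.s)) = q * k + q * (P.W3 + 1 - P.s) := by ring
    have h4 : 1 * (P.W3 + 1 - P.s) ≤ q * (P.W3 + 1 - P.s) := Nat.mul_le_mul_right _ hq1
    have h5 : j * (P.W1 + P.s + 1) = j * (P.W1 + P.s) + j := by ring
    omega

theorem Par.cover {η : ℕ} (P : Par η) {j M k L : ℕ} (hj : 1 ≤ j) (n : ℕ → ℕ)
    (hn : ∀ i < j, 1 ≤ n i ∧ n i ≤ M)
    (hcop : ∀ i < j, ∀ i' < j, i ≠ i' → Nat.Coprime (n i) (n i'))
    (hk : M * P.Z + M ^ 2 * (P.W2 + 1) ≤ k)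
    (hγ : k * (k + 1) * (P.Z + 4 * M * P.s) ≤ P.s * P.Z * L)
    (hT : (j + 5) * ((2 * η + 1) * P.s) + j * (1 + P.s) ≤ j * P.W2)
    (hT' : j * (P.W1 + P.s + 1) ≤ P.W3 + 1)
    (hP : k ≤ ∏ i ∈ Finset.range j, n i) {H : ℕ} (hH : (2 * j + 3) * k ≤ H) : GE k L H := by
  have p1 := P.h1
  have p2 := P.h2
  have p3 := P.h3
  have p4 := P.hZ2
  have p5 := P.hs
  have hM : 1 ≤ M := (hn 0 (by omega)).1.trans (hn 0 (by omega)).2
  have hkZ : P.Z ≤ k := by
    have : P.Z ≤ M * P.Z := Nat.le_mul_of_pos_left _ hM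
    omega
  have hγ1 := P.thin_cond hγ
  have hL2 : 2 ≤ L := by
    have := P.two_le hkZ hγ1
    omega
  have hthin := P.thinS hkZ hγ1
  induction H using Nat.strong_induction_on with
  | _ H ih =>
  rcases Nat.lt_or_ge ((2 * j + 5) * k) H with h | h
  · have e1 : (2 * j + 5) * k = (2 * j + 3) * k + 2 * k := by ring
    refine strip_sum (p := 0) (by omega) hL2 hγ1
      (u := k + (2 * η + 1) * P.s - P.s) (v := k + (P.W3 + 1 - P.s) + P.s) ?_ ?_ ?_ ?_ ?_
    · have := hthin.1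
      omega
    · omega
    · omega
    · intro R h1 h2
      exact hthin.good (by omega) (by omega)
    · intro R h1 h2
      rw [GP_zero]
      have := hthin.1
      exact ih R (by omega) (by omega)
  · exact P.cover0 hj n hn hcop hk hγ hT hT' hP hH h

end Pool.Agent.Work.MP_0421d9_ag.LD
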