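import Pool.Agent.Work.MP_0421d9_ag.UMain

/-!
Maximal rank on `P¹ × P¹`: definitions and monotonicity.
-/

namespace Pool.Agent.Work.MP_0421d9_ag.LD

open MvPolynomial Module

/-- the system of bidegree `(H - 1, L - 1)` with `N` points of multiplicity `k` has the expected
dimension -/
def MR (H L k N : ℕ) : Prop := hR H L k N = H * L - N * (k + 1).choose 2

/-- all systems on `R × L` with an even number of points of multiplicity `k` -/
def GE (k L R : ℕ) : Prop := ∀ t, MR R L k (2 * t)

/-- all systems on `R × L` with an odd number of points of multiplicity `k` -/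
def GO (k L R : ℕ) : Prop := ∀ t, MR R L k (2 * t + 1)

/-- all systems on `R × L` with a number of points of parity `p` -/
def GP (p k L R : ℕ) : Prop := ∀ t, MR R L k (2 * t + p)

theorem GP_zero {k L R : ℕ} : GP 0 k L R ↔ GE k L R := Iff.rfl

theorem GP_one {k L R : ℕ} : GP 1 k L R ↔ GO k L R := Iff.rfl

/-- an interval of good heights, with a margin `s` -/
def GS (k L s x y : ℕ) : Prop := s < x ∧ x ≤ y ∧ ∀ R, x ≤ R + s → R ≤ y + s → GE k L R

theorem MR_iff_le {H L k N : ℕ} : MR H L k N ↔ hR H L k N ≤ H * L - N * (k + 1).choose 2 := by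
  have h := hR_count H L k N
  unfold MR
  omega

theorem MR_of_le {H L k N : ℕ} (h : hR H L k N ≤ H * L - N * (k + 1).choose 2) : MR H L k N :=
  MR_iff_le.mpr h

theorem MR_of_reg {H L k N : ℕ} (h : hR H L k N + N * (k + 1).choose 2 = H * L) :
    MR H L k N := by
  unfold MR
  omega

theorem MR_of_emp {H L k N : ℕ} (h : hR H L k N = 0) : MR H L k N := by
  have h1 := hR_count H L k N
  unfold MR
  omega

theorem MR.reg {H L k N : ℕ} (h : MR H L k N) (hN : N * (k + 1).choose 2 ≤ H * L) :
    hR H L k N + N * (k + 1).choose 2 = H * L := by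
  unfold MR at h
  omega

theorem MR.emp {H L k N : ℕ} (h : MR H L k N) (hN : H * L ≤ N * (k + 1).choose 2) :
    hR H L k N = 0 := by
  unfold MR at h
  omega

theorem hR_swap (H L k N : ℕ) : hR H L k N = hR L H k N := by
  unfold hR
  rw [← hT_perm (Equiv.swap 0 2) (T := rect L H), Nat.add_comm H L]
  congr 1
  ext α
  have hinj : Function.Injective (Equiv.swap (0 : Fin 3) 2) := (Equiv.swap (0 : Fin 3) 2).injective
  have h0 : (α.mapDomain (Equiv.swap (0 : Fin 3) 2)) 0 = α 2 := by
    have h2 := Finsupp.mapDomain_apply hinj α 2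
    rwa [Equiv.swap_apply_right] at h2
  have h2 : (α.mapDomain (Equiv.swap (0 : Fin 3) 2)) 2 = α 0 := by
    have h2 := Finsupp.mapDomain_apply hinj α 0
    rwa [Equiv.swap_apply_left] at h2
  change (α 2 < H ∧ α 0 < L) ↔ ((α.mapDomain (Equiv.swap (0 : Fin 3) 2)) 2 < L ∧
    (α.mapDomain (Equiv.swap (0 : Fin 3) 2)) 0 < H)
  rw [h0, h2]
  exact and_comm

theorem MR.swap {H L k N : ℕ} (h : MR H L k N) : MR L H k N := by
  unfold MR at h ⊢
  rw [hR_swap, h, Nat.mul_comm]

/-- regular systems: more columns -/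
theorem reg_mono_right {H L L' k N : ℕ} (hL : L ≤ L')
    (h : hR H L k N + N * (k + 1).choose 2 = H * L) :
    hR H L' k N + N * (k + 1).choose 2 = H * L' := by
  rw [hR_swap, Nat.mul_comm H] at h ⊢
  exact rect_regular_mono hL h

theorem emp_mono_right {H L L' k N : ℕ} (hL : L ≤ L') (h : hR H L' k N = 0) :
    hR H L k N = 0 := by
  rw [hR_swap] at h ⊢
  exact rect_empty_mono hL h

theorem hR_mono_left {H H' L k N : ℕ} (hH : H ≤ H') : hR H L k N ≤ hR H' L k N := by
  induction H', hH using Nat.le_induction with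
  | base => exact le_rfl
  | succ n hn ih => exact ih.trans (hR_le_succ n L k N)

theorem hR_mono_right {H L L' k N : ℕ} (hL : L ≤ L') : hR H L k N ≤ hR H L' k N := by
  rw [hR_swap H L, hR_swap H L']
  exact hR_mono_left hL

/-- regular systems: fewer points -/
theorem reg_anti {H L k N N' : ℕ} (hN : N' ≤ N)
    (h : hR H L k N + N * (k + 1).choose 2 = H * L) :
    hR H L k N' + N' * (k + 1).choose 2 = H * L := by
  have h1 : hR H L k N' ≤ hR H L k N + (N - N') * (k + 1).choose 2 := hT_drop hN
  have h2 := hR_count H L k N'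
  rw [Nat.sub_mul] at h1
  have h3 := Nat.mul_le_mul_right ((k + 1).choose 2) hN
  omega

/-- empty systems: more points -/
theorem emp_mono {H L k N N' : ℕ} (hN : N ≤ N') (h : hR H L k N = 0) : hR H L k N' = 0 := by
  have h1 : hR H L k N' ≤ hR H L k N := hT_anti hN
  omega

theorem MR_zero_points (H L k : ℕ) : MR H L k 0 := by
  unfold MR
  rw [hR_no_points]
  omega

theorem MR_zero_mult (H L N : ℕ) : MR H L 0 N := by
  have h1 : hR H L 0 N ≤ hR H L 0 0 := hT_anti (Nat.zero_le N)
  rw [hR_no_points] at h1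
  apply MR_of_le
  have h2 : (0 + 1).choose 2 = 0 := rfl
  rw [h2]
  omega

/-- it suffices to look at the two numbers of points next to the critical one -/
theorem GP_of_two {p k L R t : ℕ} (h1 : (2 * t + p) * (k + 1).choose 2 ≤ R * L)
    (h2 : R * L ≤ (2 * (t + 1) + p) * (k + 1).choose 2) (h3 : MR R L k (2 * t + p))
    (h4 : MR R L k (2 * (t + 1) + p)) : GP p k L R := by
  intro t'
  rcases Nat.lt_or_ge t t' with h | h
  · exact MR_of_emp (emp_mono (by omega : 2 * (t + 1) + p ≤ 2 * t' + p) (h4.emp h2))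
  · exact MR_of_reg (reg_anti (by omega : 2 * t' + p ≤ 2 * t + p) (h3.reg h1))

end Pool.Agent.Work.MP_0421d9_ag.LD
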