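import Mathlib

/-!
The choice of the parameters in one step of the induction on the exponent: numerical part.
-/

namespace Pool.Agent.Work.MP_0421d9_ag.LD

theorem eventually_rpow_le {x y : ℝ} (A : ℝ) (h : x < y) :
    ∀ᶠ k : ℕ in Filter.atTop, A * (k : ℝ) ^ x ≤ (k : ℝ) ^ y := by
  have h1 : Filter.Tendsto (fun k : ℕ => (k : ℝ) ^ (y - x)) Filter.atTop Filter.atTop :=
    (tendsto_rpow_atTop (by linarith)).comp tendsto_natCast_atTop_atTop
  filter_upwards [h1.eventually_ge_atTop A, Filter.eventually_ge_atTop 1] with k hk hk1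
  have hk0 : (0 : ℝ) < k := by exact_mod_cast hk1
  have h2 : (k : ℝ) ^ y = (k : ℝ) ^ (y - x) * (k : ℝ) ^ x := by
    rw [← Real.rpow_add hk0]
    congr 1
    ring
  rw [h2]
  exact mul_le_mul_of_nonneg_right hk (Real.rpow_nonneg hk0.le _)

/-- for large `k` all the parameters can be chosen -/
theorem level_numbers {θ θ' C : ℝ} {η j c : ℕ} (hj : 1 ≤ j) (hc : 1 ≤ c)
    (hC : 1 ≤ C) (hθ : 0 < θ) (h' : θ' ≤ 1) (hj1 : 2 / (j : ℝ) < θ')
    (hj2 : 1 / (j : ℝ) < 1 - (1 - θ') * (1 + θ)) :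
    ∃ k0 : ℕ, ∀ k, k0 ≤ k → ∃ s B Z : ℕ, 1 ≤ s ∧ 1 ≤ B ∧ k ≤ B ^ j ∧
      (k : ℝ) ^ (1 - θ') ≤ s ∧
      C * ((21 * ((j + 1) * ((2 * η + 1) * s)) : ℕ) : ℝ) ^ (1 + θ) ≤ Z ∧
      2 * (21 * ((j + 1) * ((2 * η + 1) * s))) ≤ Z ∧
      η * (21 * ((j + 1) * ((2 * η + 1) * s))) ≤ Z ∧
      (3 * (c * B)) * Z + (3 * (c * B)) ^ 2 * (8 * ((2 * η + 1) * s) + 1) ≤ k ∧
      4 * (3 * (c * B)) * s ≤ Z := by
  set a : ℝ := 1 - θ' with ha
  set b : ℝ := 1 / (j : ℝ) with hb
  have hjpos : (0 : ℝ) < j := by exact_mod_cast hj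
  have hbpos : 0 < b := by positivity
  have hb2 : 2 * b < θ' := by
    have : 2 * b = 2 / (j : ℝ) := by rw [hb]; ring
    rw [this]
    exact hj1
  have ha0 : 0 ≤ a := by linarith
  have hcR : (1 : ℝ) ≤ c := by exact_mod_cast hc
  set K : ℝ := 2 * (η : ℝ) + 1 with hK
  have hK1 : 1 ≤ K := by
    have : (0 : ℝ) ≤ η := Nat.cast_nonneg η
    linarith
  set D : ℝ := 42 * ((j : ℝ) + 1) * K with hD
  have hD0 : 0 < D := by positivity
  have E1 := eventually_rpow_le (x := 0) (y := 1 - b) (24 * c) (by linarith)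
  have E2 := eventually_rpow_le (x := a * (1 + θ)) (y := 1 - b) (24 * c * C * D ^ (1 + θ))
    (by linarith)
  have E3 := eventually_rpow_le (x := a) (y := 1 - b) (24 * c * (2 + η) * D) (by linarith)
  have E4 := eventually_rpow_le (x := 2 * b + a) (y := 1) (2 * 36 * 17 * c ^ 2 * K) (by linarith)
  have E5 := eventually_rpow_le (x := a + b) (y := 1 - b) (24 * 48 * c ^ 2) (by linarith)
  obtain ⟨k0, hk0⟩ := Filter.eventually_atTop.mp
    (E1.and (E2.and (E3.and (E4.and (E5.and (Filter.eventually_ge_atTop 1))))))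
  refine ⟨k0, fun k hk => ?_⟩
  obtain ⟨e1, e2, e3, e4, e5, hk1⟩ := hk0 k hk
  have hkR : (1 : ℝ) ≤ k := by exact_mod_cast hk1
  have hkpos : (0 : ℝ) < k := by linarith
  have hka : 1 ≤ (k : ℝ) ^ a := Real.one_le_rpow hkR ha0
  have hkb : 1 ≤ (k : ℝ) ^ b := Real.one_le_rpow hkR hbpos.le
  set s : ℕ := ⌈(k : ℝ) ^ a⌉₊ with hs
  set B : ℕ := ⌈(k : ℝ) ^ b⌉₊ with hB
  have hs1 : (k : ℝ) ^ a ≤ s := Nat.le_ceil _
  have hs2 : (s : ℝ) ≤ 2 * (k : ℝ) ^ a := by
    have := Nat.ceil_lt_add_one (a := (k : ℝ) ^ a) (by linarith)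
    linarith
  have hB1 : (k : ℝ) ^ b ≤ B := Nat.le_ceil _
  have hB2 : (B : ℝ) ≤ 2 * (k : ℝ) ^ b := by
    have := Nat.ceil_lt_add_one (a := (k : ℝ) ^ b) (by linarith)
    linarith
  have hs0 : 1 ≤ s := by
    have : (1 : ℝ) ≤ s := by linarith
    exact_mod_cast this
  have hB0 : 1 ≤ B := by
    have : (1 : ℝ) ≤ B := by linarith
    exact_mod_cast this
  set M : ℕ := 3 * (c * B) with hM
  have hM1 : 1 ≤ M := by
    have := Nat.mul_pos hc hB0
    omega
  have hMR : (M : ℝ) ≤ 6 * c * (k : ℝ) ^ b := by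
    rw [hM]
    push_cast
    have := mul_le_mul_of_nonneg_left hB2 (by positivity : (0 : ℝ) ≤ 3 * c)
    linarith
  have hMpos : (0 : ℝ) < M := by exact_mod_cast hM1
  set Z : ℕ := k / (2 * M) with hZ
  have hZ1 : (k : ℝ) < (Z + 1) * (2 * M) := by
    have h1 := Nat.lt_div_mul_add (a := k) (b := 2 * M) (by omega)
    rw [← hZ] at h1
    have h2 : (k : ℝ) < Z * (2 * M) + 2 * M := by exact_mod_cast h1
    linarith
  have hsplit : (k : ℝ) = (k : ℝ) ^ (1 - b) * (k : ℝ) ^ b := by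
    rw [← Real.rpow_add hkpos, sub_add_cancel, Real.rpow_one]
  have hkbpos : 0 < (k : ℝ) ^ b := by linarith
  have hZ2 : (k : ℝ) ^ (1 - b) < (Z + 1) * (12 * c) := by
    have h1 : (k : ℝ) ^ (1 - b) * (k : ℝ) ^ b < ((Z + 1) * (12 * c)) * (k : ℝ) ^ b := by
      rw [← hsplit]
      calc (k : ℝ) < (Z + 1) * (2 * M) := hZ1
        _ ≤ (Z + 1) * (2 * (6 * c * (k : ℝ) ^ b)) := by
            apply mul_le_mul_of_nonneg_left _ (by positivity)
            linarith
        _ = ((Z + 1) * (12 * c)) * (k : ℝ) ^ b := by ring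
    exact lt_of_mul_lt_mul_right h1 hkbpos.le
  have hcpos : (0 : ℝ) < c := by linarith
  rw [Real.rpow_zero, mul_one] at e1
  -- the key lower bound for `Z`
  have hZ3 : (k : ℝ) ^ (1 - b) ≤ 24 * c * Z := by
    nlinarith
  have key : ∀ x : ℝ, 24 * c * x ≤ (k : ℝ) ^ (1 - b) → x ≤ Z := by
    intro x hx
    have h1 : 24 * (c : ℝ) * x ≤ 24 * c * Z := hx.trans hZ3
    exact le_of_mul_le_mul_left h1 (by positivity)
  have hW3 : ((21 * ((j + 1) * ((2 * η + 1) * s)) : ℕ) : ℝ) ≤ D * (k : ℝ) ^ a := by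
    push_cast
    rw [← hK, hD]
    have := mul_le_mul_of_nonneg_left hs2 (by positivity : (0 : ℝ) ≤ 21 * (((j : ℝ) + 1) * K))
    linarith
  refine ⟨s, B, Z, hs0, hB0, ?_, hs1, ?_, ?_, ?_, ?_, ?_⟩
  · have h1 : (k : ℝ) ≤ (B : ℝ) ^ j := by
      calc (k : ℝ) = ((k : ℝ) ^ b) ^ j := by
            rw [← Real.rpow_natCast, ← Real.rpow_mul hkpos.le, hb, one_div,
              inv_mul_cancel₀ hjpos.ne', Real.rpow_one]
        _ ≤ (B : ℝ) ^ j := pow_le_pow_left₀ (by positivity) hB1 j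
    exact_mod_cast h1
  · apply key
    calc 24 * (c : ℝ) * (C * ((21 * ((j + 1) * ((2 * η + 1) * s)) : ℕ) : ℝ) ^ (1 + θ))
        ≤ 24 * c * (C * (D * (k : ℝ) ^ a) ^ (1 + θ)) := by
          apply mul_le_mul_of_nonneg_left _ (by positivity)
          apply mul_le_mul_of_nonneg_left _ (by linarith)
          exact Real.rpow_le_rpow (Nat.cast_nonneg _) hW3 (by linarith)
      _ = 24 * c * C * D ^ (1 + θ) * (k : ℝ) ^ (a * (1 + θ)) := by
          rw [Real.mul_rpow hD0.le (by positivity), ← Real.rpow_mul hkpos.le]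
          ring
      _ ≤ _ := e2
  · have h1 : ((2 * (21 * ((j + 1) * ((2 * η + 1) * s))) : ℕ) : ℝ) ≤ Z := by
      apply key
      rw [Nat.cast_mul]
      calc 24 * (c : ℝ) * (((2 : ℕ) : ℝ) * ((21 * ((j + 1) * ((2 * η + 1) * s)) : ℕ) : ℝ))
          ≤ 24 * c * ((2 + η) * (D * (k : ℝ) ^ a)) := by
            apply mul_le_mul_of_nonneg_left _ (by positivity)
            have h0 : (0 : ℝ) ≤ η := Nat.cast_nonneg η
            apply mul_le_mul _ hW3 (Nat.cast_nonneg _) (by positivity)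
            push_cast
            linarith
        _ = 24 * c * (2 + η) * D * (k : ℝ) ^ a := by ring
        _ ≤ _ := e3
    exact_mod_cast h1
  · have h1 : ((η * (21 * ((j + 1) * ((2 * η + 1) * s))) : ℕ) : ℝ) ≤ Z := by
      apply key
      rw [Nat.cast_mul]
      calc 24 * (c : ℝ) * ((η : ℝ) * ((21 * ((j + 1) * ((2 * η + 1) * s)) : ℕ) : ℝ))
          ≤ 24 * c * ((2 + η) * (D * (k : ℝ) ^ a)) := by
            apply mul_le_mul_of_nonneg_left _ (by positivity)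
            have h0 : (0 : ℝ) ≤ η := Nat.cast_nonneg η
            apply mul_le_mul _ hW3 (Nat.cast_nonneg _) (by positivity)
            linarith
        _ = 24 * c * (2 + η) * D * (k : ℝ) ^ a := by ring
        _ ≤ _ := e3
    exact_mod_cast h1
  · have h1 : 2 * (M * Z) ≤ k := by
      have h2 := Nat.div_mul_le_self k (2 * M)
      rw [← hZ] at h2
      calc 2 * (M * Z) = Z * (2 * M) := by ring
        _ ≤ k := h2
    have h2 : 2 * (M ^ 2 * (8 * ((2 * η + 1) * s) + 1)) ≤ k := by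
      have h3 : ((2 * (M ^ 2 * (8 * ((2 * η + 1) * s) + 1)) : ℕ) : ℝ) ≤ k := by
        push_cast
        rw [← hK]
        have h4 : (M : ℝ) ^ 2 ≤ (6 * c * (k : ℝ) ^ b) ^ 2 := pow_le_pow_left₀ hMpos.le hMR 2
        have h5 : 8 * (K * (s : ℝ)) + 1 ≤ 17 * K * (k : ℝ) ^ a := by
          have h6 := mul_le_mul_of_nonneg_left hs2 (by positivity : (0 : ℝ) ≤ 8 * K)
          have h7 : 1 ≤ K * (k : ℝ) ^ a := by nlinarith
          linarith
        calc 2 * ((M : ℝ) ^ 2 * (8 * (K * (s : ℝ)) + 1))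
            ≤ 2 * ((6 * c * (k : ℝ) ^ b) ^ 2 * (17 * K * (k : ℝ) ^ a)) := by
              apply mul_le_mul_of_nonneg_left _ (by norm_num)
              exact mul_le_mul h4 h5 (by positivity) (by positivity)
          _ = 2 * 36 * 17 * c ^ 2 * K * (k : ℝ) ^ (2 * b + a) := by
              rw [Real.rpow_add hkpos, two_mul b, Real.rpow_add hkpos]
              ring
          _ ≤ (k : ℝ) ^ (1 : ℝ) := e4
          _ = k := Real.rpow_one _
      exact_mod_cast h3
    change M * Z + M ^ 2 * (8 * ((2 * η + 1) * s) + 1) ≤ k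
    omega
  · have h1 : ((4 * M * s : ℕ) : ℝ) ≤ Z := by
      apply key
      push_cast
      calc 24 * (c : ℝ) * (4 * (M : ℝ) * s)
          ≤ 24 * c * (4 * (6 * c * (k : ℝ) ^ b) * (2 * (k : ℝ) ^ a)) := by
            apply mul_le_mul_of_nonneg_left _ (by positivity)
            apply mul_le_mul _ hs2 (Nat.cast_nonneg _) (by positivity)
            linarith
        _ = 24 * 48 * c ^ 2 * (k : ℝ) ^ (a + b) := by
            rw [Real.rpow_add hkpos]
            ring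
        _ ≤ _ := e5
    exact_mod_cast h1

end Pool.Agent.Work.MP_0421d9_ag.LD
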