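import Pool.Agent.Work.MP_0421d9_ag.VPar
import Pool.Agent.Work.MP_0421d9_ag.VCrt
import Pool.Agent.Work.MP_0421d9_ag.VLevelNum

/-!
One step of the induction on the exponent, from the statement of `Par.level`.
-/

namespace Pool.Agent.Work.MP_0421d9_ag.LD

theorem le_prod_of_le_pow {k B j : ℕ} {n : ℕ → ℕ} (hk : k ≤ B ^ j) (hn : ∀ i < j, B ≤ n i) :
    k ≤ ∏ i ∈ Finset.range j, n i := by
  refine hk.trans ?_
  have h := Finset.prod_le_prod' (s := Finset.range j) (f := fun _ => B) (g := n)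
    (fun i hi => hn i (Finset.mem_range.mp hi))
  rwa [Finset.prod_const, Finset.card_range] at h

theorem QT_step_of_level
    (hlev : ∀ (η : ℕ) (P : Par η) (j M k L : ℕ), 1 ≤ j → 3 ≤ M → ∀ n : ℕ → ℕ,
      (∀ i < j, 1 ≤ n i ∧ n i ≤ M) →
      (∀ i < j, ∀ i' < j, i ≠ i' → Nat.Coprime (n i) (n i')) →
      M * P.Z + M ^ 2 * (P.W2 + 1) ≤ k →
      k * (k + 1) * (P.Z + 4 * M * P.s) ≤ P.s * P.Z * L →
      (j + 5) * ((2 * η + 1) * P.s) + j * (1 + P.s) ≤ j * P.W2 →
      j * (P.W1 + P.s + 1) ≤ P.W3 + 1 →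
      k ≤ ∏ i ∈ Finset.range j, n i →
      ∀ H, (2 * j + 5) * k ≤ H → ∀ N, MR H L k N)
    {θ θ' : ℝ} (hθ : 0 < θ) (h : θ / (1 + θ) < θ') (h' : θ' ≤ 1)
    (hQ : QT θ) : QT θ' := by
  obtain ⟨η, C, hη, hC, hQ⟩ := hQ
  have h1θ : 0 < 1 + θ := by linarith
  have hθ'0 : 0 < θ' := lt_trans (by positivity) h
  -- the gap in the exponent
  have hgap : 0 < 1 - (1 - θ') * (1 + θ) := by
    rw [div_lt_iff₀ h1θ] at h
    nlinarith
  obtain ⟨j, hj, hj1, hj2⟩ : ∃ j : ℕ, 1 ≤ j ∧ 2 / (j : ℝ) < θ' ∧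
      1 / (j : ℝ) < 1 - (1 - θ') * (1 + θ) := by
    obtain ⟨j, hj⟩ := exists_nat_gt (2 / θ' + 1 / (1 - (1 - θ') * (1 + θ)) + 1)
    have hp1 : 0 < 2 / θ' := by positivity
    have hp2 : 0 < 1 / (1 - (1 - θ') * (1 + θ)) := by positivity
    have hjpos : (0 : ℝ) < j := by linarith
    refine ⟨j, ?_, ?_, ?_⟩
    · have : (1 : ℝ) ≤ j := by linarith
      exact_mod_cast this
    · rw [div_lt_comm₀ hjpos hθ'0]
      linarith
    · rw [div_lt_comm₀ hjpos hgap]
      linarith
  obtain ⟨c, hc, hcop⟩ := exists_coprime j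
  obtain ⟨k0, hk0⟩ := level_numbers (η := η) hj hc hC hθ h' hj1 hj2
  -- the new constants
  refine ⟨η + (2 * j + 5), 4 + C * (k0 : ℝ) ^ (1 + θ), by omega, ?_, ?_⟩
  · have : 0 ≤ C * (k0 : ℝ) ^ (1 + θ) := by positivity
    linarith
  intro k H L N hk hH hL hCL
  have hkR : (1 : ℝ) ≤ k := by exact_mod_cast hk
  have hkpos : (0 : ℝ) < k := by linarith
  have hpow1 : 1 ≤ (k : ℝ) ^ (1 + θ') := Real.one_le_rpow hkR (by linarith)
  have hnn : 0 ≤ C * (k0 : ℝ) ^ (1 + θ) := by positivity
  rcases Nat.lt_or_ge k k0 with hlt | hge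
  · -- small multiplicities
    refine hQ k H L N hk ?_ ?_ ?_
    · exact le_trans (Nat.mul_le_mul_right k (by omega)) hH
    · exact le_trans (Nat.mul_le_mul_right k (by omega)) hL
    · refine le_trans ?_ hCL
      have hle : (k : ℝ) ≤ k0 := by exact_mod_cast hlt.le
      calc C * (k : ℝ) ^ (1 + θ) ≤ C * (k0 : ℝ) ^ (1 + θ) := by
            apply mul_le_mul_of_nonneg_left _ (by linarith)
            exact Real.rpow_le_rpow hkpos.le hle (by linarith)
        _ ≤ (4 + C * (k0 : ℝ) ^ (1 + θ)) * 1 := by linarith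
        _ ≤ _ := by
            apply mul_le_mul_of_nonneg_left hpow1 (by linarith)
  · obtain ⟨s, B, Z, hs, hB, hkB, hs1, hZC, hZ2, hZη, hMZ, hMs⟩ := hk0 k hge
    obtain ⟨n, hn, hco⟩ := hcop B hB
    have hη1 : s ≤ (2 * η + 1) * s := by
      calc s = 1 * s := (one_mul s).symm
        _ ≤ (2 * η + 1) * s := Nat.mul_le_mul_right s (by omega)
    have hη3 : 3 * s ≤ (2 * η + 1) * s := Nat.mul_le_mul_right s (by omega)
    -- abbreviation
    obtain ⟨u, hu⟩ : ∃ u, u = (2 * η + 1) * s := ⟨_, rfl⟩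
    rw [← hu] at hη1 hη3 hZC hZ2 hZη hMZ
    have hju : (j + 1) * u = j * u + u := by ring
    have hju' : u ≤ j * u := by
      calc u = 1 * u := (one_mul u).symm
        _ ≤ j * u := Nat.mul_le_mul_right u hj
    let P : Par η :=
      { s := s
        W1 := 2 * u
        W2 := 8 * u
        W3 := 21 * ((j + 1) * u)
        Z := Z
        hη := hη
        hs := hs
        h1 := by rw [← hu]
        h2 := by omega
        h3 := by
          rw [hju]
          omega
        hZ2 := hZ2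
        hZη := hZη
        hQ := by
          intro μ hμ hμW H' L' N' h1 h2 h3
          refine (hQ μ L' H' N' hμ h2 h1 ?_).swap
          calc C * (μ : ℝ) ^ (1 + θ)
              ≤ C * ((21 * ((j + 1) * u) : ℕ) : ℝ) ^ (1 + θ) := by
                apply mul_le_mul_of_nonneg_left _ (by linarith)
                exact Real.rpow_le_rpow (Nat.cast_nonneg _) (by exact_mod_cast hμW) (by linarith)
            _ ≤ Z := hZC
            _ ≤ H' := by exact_mod_cast h3 }
    -- the condition on `L`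
    have hsL : 2 * (k * (k + 1)) ≤ s * L := by
      have h1 : (4 : ℝ) * ((k : ℝ) * k) ≤ (s : ℝ) * L := by
        have h2 : (k : ℝ) ^ (1 - θ') * (k : ℝ) ^ (1 + θ') = (k : ℝ) * k := by
          rw [← Real.rpow_add hkpos]
          have : (1 - θ') + (1 + θ') = 2 := by ring
          rw [this, Real.rpow_two, sq]
        calc (4 : ℝ) * ((k : ℝ) * k) = (k : ℝ) ^ (1 - θ') * (4 * (k : ℝ) ^ (1 + θ')) := by
              rw [← h2]; ring
          _ ≤ (s : ℝ) * L := by
              apply mul_le_mul hs1 _ (by positivity) (Nat.cast_nonneg _)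
              refine le_trans ?_ hCL
              apply mul_le_mul_of_nonneg_right _ (by linarith)
              linarith
      have h3 : 4 * (k * k) ≤ s * L := by exact_mod_cast h1
      have h4 : 2 * (k * (k + 1)) ≤ 4 * (k * k) := by nlinarith
      exact h4.trans h3
    refine hlev η P j (3 * (c * B)) k L hj ?_ n ?_ hco hMZ ?_ ?_ ?_ ?_ H ?_ N
    · have := Nat.mul_pos hc hB
      omega
    · intro i hi
      have h1 := hn i hi
      constructor
      · omega
      · have : c * B ≤ 3 * (c * B) := by omega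
        omega
    · change k * (k + 1) * (Z + 4 * (3 * (c * B)) * s) ≤ s * Z * L
      calc k * (k + 1) * (Z + 4 * (3 * (c * B)) * s) ≤ k * (k + 1) * (2 * Z) :=
            Nat.mul_le_mul_left _ (by omega)
        _ = 2 * (k * (k + 1)) * Z := by ring
        _ ≤ s * L * Z := Nat.mul_le_mul_right _ hsL
        _ = s * Z * L := by ring
    · change (j + 5) * ((2 * η + 1) * s) + j * (1 + s) ≤ j * (8 * u)
      rw [← hu]
      have h1 : (j + 5) * u = j * u + 5 * u := by ring
      have h2 : j * (1 + s) ≤ 2 * (j * u) := by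
        calc j * (1 + s) ≤ j * (2 * u) := Nat.mul_le_mul_left j (by omega)
          _ = 2 * (j * u) := by ring
      have h3 : j * (8 * u) = 8 * (j * u) := by ring
      rw [h1, h3]
      omega
    · change j * (2 * u + s + 1) ≤ 21 * ((j + 1) * u) + 1
      have h2 : j * (2 * u + s + 1) ≤ 4 * (j * u) := by
        calc j * (2 * u + s + 1) ≤ j * (4 * u) := Nat.mul_le_mul_left j (by omega)
          _ = 4 * (j * u) := by ring
      rw [hju]
      omega
    · exact le_prod_of_le_pow hkB (fun i hi => (hn i hi).1)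
    · exact le_trans (Nat.mul_le_mul_right k (by omega)) hH

end Pool.Agent.Work.MP_0421d9_ag.LD
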