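import Pool.Agent.Work.MP_0421d9_ag.VPoint
import Pool.Agent.Work.MP_0421d9_ag.VLevelAux
import Pool.Agent.Work.MP_0421d9_ag.VBase

/-!
The induction on the exponent.
-/

namespace Pool.Agent.Work.MP_0421d9_ag.LD

theorem QT_step {θ θ' : ℝ} (hθ : 0 < θ) (_hθ1 : θ ≤ 1) (h : θ / (1 + θ) < θ') (h' : θ' ≤ 1)
    (hQ : QT θ) : QT θ' :=
  QT_step_of_level
    (fun _η P _j _M _k _L hj hM n hn hcop hk hγ hT hT' hP _H hH N =>
      P.level hj hM n hn hcop hk hγ hT hT' hP hH N)
    hθ h h' hQ

theorem QT_all (n : ℕ) (hn : 1 ≤ n) : QT (2 / ((n : ℝ) + 1)) := by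
  induction n, hn using Nat.le_induction with
  | base =>
    have h := QT_base
    norm_num
    exact h
  | succ n hn ih =>
    have hn' : (1 : ℝ) ≤ n := by exact_mod_cast hn
    refine QT_step (θ := 2 / ((n : ℝ) + 1)) (by positivity) ?_ ?_ ?_ ih
    · rw [div_le_one (by positivity)]
      linarith
    · have e : 2 / ((n : ℝ) + 1) / (1 + 2 / ((n : ℝ) + 1)) = 2 / ((n : ℝ) + 3) := by
        field_simp
        ring
      rw [e]
      push_cast
      apply div_lt_div_of_pos_left (by norm_num) (by positivity)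
      linarith
    · push_cast
      rw [div_le_one (by positivity)]
      linarith

end Pool.Agent.Work.MP_0421d9_ag.LD
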