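import Pool.Agent.Work.MP_0421d9_ag.VPlaneQT
import Pool.Agent.Work.MP_0421d9_ag.VLevel

/-!
Systems of equal multiplicities with at least `C m ^ ε` points are nonspecial.
-/

namespace Pool.Agent.Work.MP_0421d9_ag.LD

open MvPolynomial Module

theorem nonspecial_of_eps {ε : ℝ} (hε : 0 < ε) : ∃ C : ℝ, ∀ m r d : ℕ,
    C * (m : ℝ) ^ ε ≤ r → ∀ p : Fin r → V3, GenericPoints p →
      finrank ℂ (linSys d p (fun _ => m)) = (d + 2).choose 2 - r * (m + 1).choose 2 := by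
  obtain ⟨n, hn⟩ := exists_nat_gt (4 / ε)
  have hn0 : (0 : ℝ) < n := lt_trans (by positivity) hn
  have hn1 : 1 ≤ n := by
    rw [Nat.one_le_iff_ne_zero]
    rintro rfl
    simp at hn0
  have hθ0 : (0 : ℝ) < 2 / ((n : ℝ) + 1) := by positivity
  have hθ1 : 2 / ((n : ℝ) + 1) ≤ 1 := by
    rw [div_le_one (by positivity)]
    have : (1 : ℝ) ≤ n := by exact_mod_cast hn1
    linarith
  obtain ⟨C, hC⟩ := plane_of_QT hθ0 hθ1 (QT_all n hn1)
  have he : 2 * (2 / ((n : ℝ) + 1)) / (1 + 2 / ((n : ℝ) + 1)) = 4 / ((n : ℝ) + 3) := by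
    field_simp
    ring
  rw [he] at hC
  have heε : 4 / ((n : ℝ) + 3) ≤ ε := by
    rw [div_le_iff₀ (by positivity)]
    have h1 : 4 < n * ε := by
      rwa [div_lt_iff₀ hε] at hn
    nlinarith
  refine ⟨max C 0, fun m r d hr p hp => ?_⟩
  rw [hP_eq hp]
  refine hC m r ?_ d
  rcases Nat.eq_zero_or_pos m with rfl | hm
  · rw [Nat.cast_zero, Real.zero_rpow (by positivity), mul_zero]
    exact Nat.cast_nonneg r
  · have hm1 : (1 : ℝ) ≤ m := by exact_mod_cast hm
    calc C * (m : ℝ) ^ (4 / ((n : ℝ) + 3)) ≤ max C 0 * (m : ℝ) ^ (4 / ((n : ℝ) + 3)) := by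
          gcongr
          exact le_max_left _ _
      _ ≤ max C 0 * (m : ℝ) ^ ε := by
          have := Real.rpow_le_rpow_of_exponent_le hm1 heε
          exact mul_le_mul_of_nonneg_left this (le_max_right _ _)
      _ ≤ r := hr

end Pool.Agent.Work.MP_0421d9_ag.LD
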