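import Pool.Agent.Work.MP_0421d9_ag.VDefs
import Pool.Agent.Work.MP_0421d9_ag.UMatrix

/-!
The matrix of the elementary transformations at `2 t + e` generic points, `e ≤ 1` (helper25).
-/

namespace Pool.Agent.Work.MP_0421d9_ag.LD

open MvPolynomial Module

/-- the coefficients of the transformation at `2 t + e` points -/
structure EU {N : ℕ} (t e : ℕ) (x c : Fin N → ℂ) where
  (A B C' E : Polynomial ℂ)
  (dA : A.natDegree ≤ t)
  (dC : C'.natDegree ≤ t)
  (dB : B.natDegree ≤ t + e)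
  (dE : E.natDegree ≤ t + e)
  (hA : ∀ i, A.eval (x i) * c i + B.eval (x i) = 0)
  (hC : ∀ i, C'.eval (x i) * c i + E.eval (x i) = 0)
  (hC0 : ∀ i, C'.eval (x i) ≠ 0)
  (hdet : A * E - B * C' ≠ 0)

namespace Mv

theorem eval_degreeLT {n : ℕ} {P : Polynomial ℂ} (hP : P ∈ Polynomial.degreeLT ℂ n) (z : ℂ) :
    P.eval z = ∑ j ∈ Finset.range n, P.coeff j * z ^ j := by
  have h1 := Polynomial.mem_degreeLT.mp hP
  have h2 : P.natDegree < n + 1 :=
    Nat.lt_succ_of_le (Polynomial.natDegree_le_of_degree_le h1.le)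
  rw [Polynomial.eval_eq_sum_range' h2, Finset.sum_range_succ,
    Polynomial.coeff_eq_zero_of_degree_lt h1, zero_mul, add_zero]

theorem coeff_degreeLT {n : ℕ} {P : Polynomial ℂ} (hP : P ∈ Polynomial.degreeLT ℂ n) {j : ℕ}
    (hj : n ≤ j) : P.coeff j = 0 :=
  Polynomial.coeff_eq_zero_of_degree_lt (lt_of_lt_of_le (Polynomial.mem_degreeLT.mp hP)
    (by exact_mod_cast hj))

/-- the universal matrix -/
noncomputable def UM {N : ℕ} (a b : ℕ) (σ : Fin (b + a) → Fin N) :
    Matrix (Fin (b + a)) (Fin (b + a)) (MvPolynomial (Fin N × Fin 3) ℚ) :=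
  fun i j => if (j : ℕ) < b then X (σ i, 2) ^ (j : ℕ) * X (σ i, 1) ^ (b + a - j) else
    X (σ i, 0) * (X (σ i, 2) ^ ((j : ℕ) - b) * X (σ i, 1) ^ (b + a - 1 - ((j : ℕ) - b)))

theorem UM_det_ne {N a b : ℕ} {σ : Fin (b + a) → Fin N} (hσ : Function.Injective σ) :
    (UM a b σ).det ≠ 0 := by
  intro h
  let v : Fin N × Fin 3 → ℚ := fun z => ![((z.1 : ℕ) : ℚ) ^ b, 1, ((z.1 : ℕ) : ℚ)] z.2
  have h1 := congrArg (eval v) h
  rw [RingHom.map_det, map_zero] at h1
  have h2 : (eval v).mapMatrix (UM a b σ) =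
      Matrix.vandermonde (fun i : Fin (b + a) => ((σ i : ℕ) : ℚ)) := by
    ext i j
    rw [RingHom.mapMatrix_apply, Matrix.map_apply, Matrix.vandermonde_apply]
    unfold UM
    split_ifs with hj
    · rw [map_mul, map_pow, map_pow, eval_X, eval_X]
      simp [v]
    · rw [map_mul, map_mul, map_pow, map_pow, eval_X, eval_X, eval_X]
      simp only [v, Matrix.cons_val_zero, Matrix.cons_val_one, Matrix.cons_val, one_pow, mul_one]
      rw [← pow_add]
      congr 1
      omega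
  rw [h2] at h1
  refine Matrix.det_vandermonde_ne_zero_iff.mpr ?_ h1
  intro i j hij
  apply hσ
  apply Fin.ext
  have h3 : ((σ i : ℕ) : ℚ) = ((σ j : ℕ) : ℚ) := hij
  exact_mod_cast h3

/-- no solutions of small degree -/
theorem small {N a b : ℕ} {q : Fin N → V3} (hq : GenericPoints q)
    {σ : Fin (b + a) → Fin N} (hσ : Function.Injective σ) {P Q : Polynomial ℂ}
    (hP : P ∈ Polynomial.degreeLT ℂ a) (hQ : Q ∈ Polynomial.degreeLT ℂ b)
    (h : ∀ i, P.eval (q (σ i) 2 / q (σ i) 1) * (q (σ i) 0 / q (σ i) 1) +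
      Q.eval (q (σ i) 2 / q (σ i) 1) = 0) : P = 0 ∧ Q = 0 := by
  let f : MvPolynomial (Fin N × Fin 3) ℚ →ₐ[ℚ] ℂ := aeval (fun z => q z.1 z.2)
  have hdet : (f.toRingHom.mapMatrix (UM a b σ)).det ≠ 0 := by
    rw [← RingHom.map_det]
    intro h0
    exact UM_det_ne hσ ((algebraicIndependent_iff.mp hq) _ h0)
  let v : Fin (b + a) → ℂ := fun j => if (j : ℕ) < b then Q.coeff j else P.coeff ((j : ℕ) - b)
  have hv : (f.toRingHom.mapMatrix (UM a b σ)).mulVec v = 0 := by
    funext i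
    have hq1 := Mx.gen_ne hq (σ i) 1
    have h1 := h i
    rw [eval_degreeLT hP, eval_degreeLT hQ] at h1
    have h4 : (f.toRingHom.mapMatrix (UM a b σ)).mulVec v i =
        ∑ j ∈ Finset.range (b + a), (if j < b then
          q (σ i) 2 ^ j * q (σ i) 1 ^ (b + a - j) * Q.coeff j else
          (q (σ i) 0 * (q (σ i) 2 ^ (j - b) * q (σ i) 1 ^ (b + a - 1 - (j - b)))) *
            P.coeff (j - b)) := by
      rw [Matrix.mulVec, dotProduct, Finset.sum_range]
      refine Finset.sum_congr rfl (fun j _ => ?_)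
      rw [RingHom.mapMatrix_apply, Matrix.map_apply]
      unfold UM
      simp only [v]
      split_ifs with hj
      · congr 1
        change f _ = _
        simp only [f, map_mul, map_pow, aeval_X]
      · congr 1
        change f _ = _
        simp only [f, map_mul, map_pow, aeval_X]
    rw [h4, Pi.zero_apply, Finset.sum_range_add]
    have h5 : ∑ j ∈ Finset.range b, (if j < b then
          q (σ i) 2 ^ j * q (σ i) 1 ^ (b + a - j) * Q.coeff j else
          (q (σ i) 0 * (q (σ i) 2 ^ (j - b) * q (σ i) 1 ^ (b + a - 1 - (j - b)))) *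
            P.coeff (j - b)) =
        q (σ i) 1 ^ (b + a) * ∑ j ∈ Finset.range b, Q.coeff j * (q (σ i) 2 / q (σ i) 1) ^ j := by
      rw [Finset.mul_sum]
      refine Finset.sum_congr rfl (fun j hj => ?_)
      rw [Finset.mem_range] at hj
      rw [if_pos hj]
      have e : q (σ i) 1 ^ (b + a) = q (σ i) 1 ^ (b + a - j) * q (σ i) 1 ^ j := by
        rw [← pow_add]; congr 1; omega
      rw [e, div_pow]
      field_simp
    have h6 : ∑ j ∈ Finset.range a, (if b + j < b then
          q (σ i) 2 ^ (b + j) * q (σ i) 1 ^ (b + a - (b + j)) * Q.coeff (b + j) else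
          (q (σ i) 0 * (q (σ i) 2 ^ (b + j - b) * q (σ i) 1 ^ (b + a - 1 - (b + j - b)))) *
            P.coeff (b + j - b)) =
        q (σ i) 1 ^ (b + a) * ((∑ j ∈ Finset.range a, P.coeff j *
          (q (σ i) 2 / q (σ i) 1) ^ j) * (q (σ i) 0 / q (σ i) 1)) := by
      rw [Finset.sum_mul, Finset.mul_sum]
      refine Finset.sum_congr rfl (fun j hj => ?_)
      rw [Finset.mem_range] at hj
      rw [if_neg (by omega), Nat.add_sub_cancel_left]
      have e : q (σ i) 1 ^ (b + a) =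
          q (σ i) 1 ^ (b + a - 1 - j) * (q (σ i) 1 ^ j * q (σ i) 1) := by
        rw [← pow_succ, ← pow_add]; congr 1; omega
      rw [e, div_pow]
      field_simp
    rw [h5, h6]
    linear_combination (q (σ i) 1 ^ (b + a)) * h1
  have hv0 : v = 0 := by
    by_contra hne
    exact hdet (Matrix.exists_mulVec_eq_zero_iff.mp ⟨v, hne, hv⟩)
  constructor
  · ext n
    rw [Polynomial.coeff_zero]
    rcases Nat.lt_or_ge n a with hn | hn
    · have h1 := congrFun hv0 ⟨b + n, by omega⟩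
      simp only [v, Pi.zero_apply] at h1
      rwa [if_neg (by omega), Nat.add_sub_cancel_left] at h1
    · exact coeff_degreeLT hP hn
  · ext n
    rw [Polynomial.coeff_zero]
    rcases Nat.lt_or_ge n b with hn | hn
    · have h1 := congrFun hv0 ⟨n, by omega⟩
      simp only [v, Pi.zero_apply] at h1
      rwa [if_pos hn] at h1
    · exact coeff_degreeLT hQ hn

/-- all the points -/
theorem small_all {N a b : ℕ} (hN : b + a = N) {q : Fin N → V3} (hq : GenericPoints q)
    {P Q : Polynomial ℂ}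
    (hP : P ∈ Polynomial.degreeLT ℂ a) (hQ : Q ∈ Polynomial.degreeLT ℂ b)
    (h : ∀ i, P.eval (q i 2 / q i 1) * (q i 0 / q i 1) + Q.eval (q i 2 / q i 1) = 0) :
    P = 0 ∧ Q = 0 :=
  small hq (σ := fun j => Fin.cast hN j) (Fin.cast_injective hN) hP hQ (fun i => h _)

/-- all the points but one -/
theorem small_one {N a b : ℕ} (hN : b + a + 1 = N) {q : Fin N → V3} (hq : GenericPoints q)
    (i₀ : Fin N) {P Q : Polynomial ℂ}
    (hP : P ∈ Polynomial.degreeLT ℂ a) (hQ : Q ∈ Polynomial.degreeLT ℂ b)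
    (h : ∀ i, i ≠ i₀ → P.eval (q i 2 / q i 1) * (q i 0 / q i 1) + Q.eval (q i 2 / q i 1) = 0) :
    P = 0 ∧ Q = 0 := by
  subst hN
  exact small hq (σ := fun j => i₀.succAbove j) (Fin.succAbove_right_injective) hP hQ
    (fun i => h _ (Fin.succAbove_ne i₀ i))

/-- the solutions of the conditions -/
noncomputable def Sol {N : ℕ} (x c : Fin N → ℂ) (a b : ℕ) :
    (Polynomial.degreeLT ℂ a × Polynomial.degreeLT ℂ b) →ₗ[ℂ] (Fin N → ℂ) :=
  LinearMap.pi (fun i => c i • ((Polynomial.leval (x i)) ∘ₗ (Polynomial.degreeLT ℂ a).subtype ∘ₗ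
    LinearMap.fst ℂ _ _) + ((Polynomial.leval (x i)) ∘ₗ
      (Polynomial.degreeLT ℂ b).subtype ∘ₗ LinearMap.snd ℂ _ _))

theorem Sol_apply {N : ℕ} (x c : Fin N → ℂ) (a b : ℕ)
    (f : Polynomial.degreeLT ℂ a × Polynomial.degreeLT ℂ b) (i : Fin N) :
    Sol x c a b f i = c i * (f.1 : Polynomial ℂ).eval (x i) + (f.2 : Polynomial ℂ).eval (x i) :=
  rfl

theorem exists_sol {N : ℕ} (x c : Fin N → ℂ) {a b : ℕ} (h : N < a + b) :
    ∃ P Q : Polynomial ℂ, P ∈ Polynomial.degreeLT ℂ a ∧ Q ∈ Polynomial.degreeLT ℂ b ∧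
      ¬ (P = 0 ∧ Q = 0) ∧ ∀ i, P.eval (x i) * c i + Q.eval (x i) = 0 := by
  have h1 : LinearMap.ker (Sol x c a b) ≠ ⊥ := by
    apply LinearMap.ker_ne_bot_of_finrank_lt
    rw [finrank_prod, (Polynomial.degreeLTEquiv ℂ a).finrank_eq,
      (Polynomial.degreeLTEquiv ℂ b).finrank_eq, finrank_fin_fun, finrank_fin_fun,
      finrank_fin_fun]
    omega
  obtain ⟨⟨⟨P, hP⟩, ⟨Q, hQ⟩⟩, hf, hf0⟩ := Submodule.exists_mem_ne_zero_of_ne_bot h1
  refine ⟨P, Q, hP, hQ, ?_, fun i => ?_⟩
  · rintro ⟨rfl, rfl⟩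
    exact hf0 rfl
  · have h2 := congrFun (LinearMap.mem_ker.mp hf) i
    rw [Sol_apply, Pi.zero_apply] at h2
    rw [mul_comm]
    exact h2

theorem natDegree_le_of_mem {n m : ℕ} {f : Polynomial ℂ} (h : f ∈ Polynomial.degreeLT ℂ n)
    (hn : n ≤ m + 1) : f.natDegree ≤ m := by
  rw [Polynomial.mem_degreeLT] at h
  rw [Polynomial.natDegree_le_iff_degree_le]
  have h2 : f.degree < ((m + 1 : ℕ) : WithBot ℕ) := lt_of_lt_of_le h (by exact_mod_cast hn)
  exact Order.le_of_lt_succ (by exact_mod_cast h2)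

theorem mem_of_coeff {n : ℕ} {f : Polynomial ℂ} (h : f ∈ Polynomial.degreeLT ℂ (n + 1))
    (h0 : f.coeff n = 0) : f ∈ Polynomial.degreeLT ℂ n := by
  rw [Polynomial.mem_degreeLT, Polynomial.degree_lt_iff_coeff_zero]
  intro m hm
  rcases Nat.lt_or_ge n m with h1 | h1
  · exact coeff_degreeLT h h1
  · obtain rfl : n = m := le_antisymm hm h1
    exact h0

end Mv

theorem exists_EU {t e : ℕ} (ht : 1 ≤ t) (he : e ≤ 1) {q : Fin (2 * t + e) → V3}
    (hq : GenericPoints q) :
    Nonempty (EU t e (fun i => q i 2 / q i 1) (fun i => q i 0 / q i 1)) := by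
  classical
  set x : Fin (2 * t + e) → ℂ := fun i => q i 2 / q i 1 with hx
  set c : Fin (2 * t + e) → ℂ := fun i => q i 0 / q i 1 with hc
  have hinj : Function.Injective x := Mx.gen_injective hq
  obtain ⟨A, B, hA, hB, hAB, h1⟩ := Mv.exists_sol x c (a := t) (b := t + e + 1) (by omega)
  obtain ⟨C', E, hC, hE, hCE, h2⟩ := Mv.exists_sol x c (a := t + 1) (b := t + e) (by omega)
  have hBlead : B.coeff (t + e) ≠ 0 := by
    intro h0
    exact hAB (Mv.small_all (by omega) hq hA (Mv.mem_of_coeff hB h0) h1)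
  have hClead : C'.coeff t ≠ 0 := by
    intro h0
    exact hCE (Mv.small_all (by omega) hq (Mv.mem_of_coeff hC h0) hE h2)
  refine ⟨⟨A, B, C', E, Mv.natDegree_le_of_mem hA (by omega), Mv.natDegree_le_of_mem hC (by omega),
    Mv.natDegree_le_of_mem hB (by omega), Mv.natDegree_le_of_mem hE (by omega), h1, h2, ?_, ?_⟩⟩
  · intro i h0
    have h3 : E.eval (x i) = 0 := by
      have h4 := h2 i
      rwa [h0, zero_mul, zero_add] at h4
    obtain ⟨C₁, hC₁⟩ := Polynomial.dvd_iff_isRoot.mpr h0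
    obtain ⟨E₁, hE₁⟩ := Polynomial.dvd_iff_isRoot.mpr h3
    have hmem : ∀ (n : ℕ) (P P' : Polynomial ℂ), P ∈ Polynomial.degreeLT ℂ (n + 1) →
        P = (Polynomial.X - Polynomial.C (x i)) * P' → P' ∈ Polynomial.degreeLT ℂ n := by
      intro n P P' hP hPP
      by_cases h0 : P' = 0
      · rw [h0]; exact Submodule.zero_mem _
      · apply Mx.mem_of_natDegree_lt
        have h3 := Mv.natDegree_le_of_mem hP (le_refl _)
        rw [hPP, Polynomial.natDegree_mul (Polynomial.X_sub_C_ne_zero _) h0,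
          Polynomial.natDegree_X_sub_C] at h3
        omega
    have hE' : E ∈ Polynomial.degreeLT ℂ ((t + e - 1) + 1) := by
      rw [Nat.sub_add_cancel (by omega)]
      exact hE
    obtain ⟨h5, h6⟩ := Mv.small_one (a := t) (b := t + e - 1) (by omega) hq i
      (hmem t C' C₁ hC hC₁) (hmem _ E E₁ hE' hE₁) (fun j hj => by
        have h7 := h2 j
        rw [hC₁, hE₁, Polynomial.eval_mul, Polynomial.eval_mul, Polynomial.eval_sub,
          Polynomial.eval_X, Polynomial.eval_C] at h7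
        have h8 : x j - x i ≠ 0 := sub_ne_zero.mpr (fun h => hj (hinj h))
        apply mul_left_cancel₀ h8
        rw [mul_zero, ← h7]
        ring)
    apply hCE
    rw [hC₁, hE₁, h5, h6, mul_zero]
    exact ⟨rfl, rfl⟩
  · intro hdet
    have h3 : (A * E - B * C').coeff ((t + e) + t) = 0 := by rw [hdet, Polynomial.coeff_zero]
    rw [Polynomial.coeff_sub] at h3
    have h4 : (A * E).coeff ((t + e) + t) = 0 := by
      apply Polynomial.coeff_eq_zero_of_natDegree_lt
      refine lt_of_le_of_lt Polynomial.natDegree_mul_le ?_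
      have h5 : A.natDegree ≤ t - 1 := Mv.natDegree_le_of_mem hA (by omega)
      have h6 : E.natDegree ≤ t + e - 1 := Mv.natDegree_le_of_mem hE (by omega)
      omega
    have h5 : (B * C').coeff ((t + e) + t) = B.coeff (t + e) * C'.coeff t :=
      Polynomial.coeff_mul_add_eq_of_natDegree_le (Mv.natDegree_le_of_mem hB (by omega))
        (Mv.natDegree_le_of_mem hC (by omega))
    rw [h4, h5, zero_sub, neg_eq_zero] at h3
    exact mul_ne_zero hBlead hClead h3

end Pool.Agent.Work.MP_0421d9_ag.LD
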