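import Pool.Agent.Work.MP_0421d9_ag.VThin

/-!
Medium strips on `P¹ × P¹`: the Euclidean algorithm.
-/

namespace Pool.Agent.Work.MP_0421d9_ag.LD

open MvPolynomial Module

/-- numerical invariant of the transformation -/
theorem gamma_mono {k μ L L' R t : ℕ} (hRe : R = k + μ + 1) (hL : L' + t * k = L + t * μ)
    (ht : t * (k * (k + 1)) ≤ R * L) (hμ : μ ≤ k) : L * (μ * (μ + 1)) ≤ L' * (k * (k + 1)) := by
  have hchi : R * L' + t * (k * (k + 1)) = R * L + t * (μ * (μ + 1)) := by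
    have h := chi_even hRe hL
    have e1 : 2 * t * (k + 1).choose 2 = t * (k * (k + 1)) := by rw [← two_choose_succ k]; ring
    have e2 : 2 * t * (μ + 1).choose 2 = t * (μ * (μ + 1)) := by rw [← two_choose_succ μ]; ring
    rw [e1, e2] at h
    exact h
  have hRpos : 0 < R := by omega
  have h1 : μ * (μ + 1) ≤ k * (k + 1) := Nat.mul_le_mul hμ (by omega)
  refine Nat.le_of_mul_le_mul_left ?_ hRpos
  generalize k * (k + 1) = K at *
  generalize μ * (μ + 1) = M at *
  obtain ⟨d, rfl⟩ : ∃ d, K = M + d := ⟨K - M, by omega⟩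
  have h2 : t * (M + d) * d ≤ R * L * d := Nat.mul_le_mul_right d ht
  have h3 : (R * L' + t * (M + d)) * (M + d) = (R * L + t * M) * (M + d) := by rw [hchi]
  nlinarith

theorem exists_L' {k μ L R t : ℕ} (hRe : R = k + μ + 1)
    (ht : t * (k * (k + 1)) ≤ R * L) (hμ : μ ≤ k) : ∃ L', L' + t * k = L + t * μ := by
  obtain ⟨d, rfl⟩ : ∃ d, k = μ + d := ⟨k - μ, by omega⟩
  have hRpos : 0 < R := by omega
  have h1 : R * (t * d) ≤ R * L := by
    refine le_trans ?_ ht
    have h2 : R * d ≤ (μ + d) * (μ + d + 1) := by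
      rw [hRe]
      nlinarith
    calc R * (t * d) = t * (R * d) := by ring
      _ ≤ t * ((μ + d) * (μ + d + 1)) := Nat.mul_le_mul_left t h2
  have h2 : t * d ≤ L := Nat.le_of_mul_le_mul_left h1 hRpos
  refine ⟨L - t * d, ?_⟩
  have h3 : t * (μ + d) = t * μ + t * d := by ring
  omega

/-- abbreviation -/
def Z_star (Z k μ n a : ℕ) : Prop := Z * (k - μ) ≤ 4 * (n - a) * (μ * (μ + 1))

theorem Par.step {η : ℕ} (P : Par η) {n a q b μ w k R L' : ℕ} (ha : 1 ≤ a)
    (hn : n = q * a + b) (hb : b ≤ a) (hq : 1 ≤ q) (hRe : R = k + μ + 1)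
    (hak : a * k = n * μ + w + n) (hw1 : n * P.W1 ≤ w) (hw2 : w ≤ n * P.W2) (hμ : P.Z ≤ μ)
    (hγ : μ * (μ + 1) ≤ P.s * L')
    (hmed : 1 ≤ b → ∀ R₂, a * R₂ + a * P.W1 ≤ (a + b) * μ → (a + b) * μ ≤ a * R₂ + a * P.W2 →
      GE μ L' R₂) : GE μ L' R := by
  have p1 := P.h1
  have p2 := P.h2
  have p3 := P.h3
  have p4 := P.hZ2
  have p5 := P.hs
  have hL2 : 2 ≤ L' := by
    have := P.two_le hμ hγ
    omega
  have hthin := P.thinS hμ hγ
  set T0 := (2 * η + 1) * P.s with hT0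
  set T3 := P.W3 + 1 - P.s with hT3
  have ht3 : 2 * P.W2 + P.W1 + 4 ≤ T3 := by omega
  rcases Nat.eq_zero_or_pos b with hb0 | hb0
  · -- thin strips only
    subst hb0
    rw [add_zero] at hn
    obtain ⟨v, hv⟩ : ∃ v, w = a * v := by
      have h1 : a ∣ w := by
        have h2 : a ∣ n * μ + w + n := ⟨k, hak.symm⟩
        have h3 : a ∣ n := ⟨q, by rw [hn]; ring⟩
        have h4 : a ∣ n * μ + w := (Nat.dvd_add_left h3).mp h2
        exact (Nat.dvd_add_right (h3.mul_right μ)).mp h4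
      exact h1
    have hk : k = q * μ + v + q := by
      have h1 : a * k = a * (q * μ + v + q) := by
        rw [hak, hn, hv]; ring
      exact Nat.eq_of_mul_eq_mul_left (by omega) h1
    have hv1 : q * P.W1 ≤ v := by
      have h1 : a * (q * P.W1) ≤ a * v := by
        rw [← hv]
        calc a * (q * P.W1) = n * P.W1 := by rw [hn]; ring
          _ ≤ w := hw1
      exact Nat.le_of_mul_le_mul_left h1 (by omega)
    have hv2 : v ≤ q * P.W2 := by
      have h1 : a * v ≤ a * (q * P.W2) := by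
        rw [← hv]
        calc w ≤ n * P.W2 := hw2
          _ = a * (q * P.W2) := by rw [hn]; ring
      exact Nat.le_of_mul_le_mul_left h1 (by omega)
    have hS := hthin.smul hL2 hγ (q + 1) (by omega)
    have hRv : R = (q + 1) * μ + v + q + 1 := by
      rw [hRe, hk]; ring
    refine hS.good ?_ ?_
    · have h1 : (q + 1) * T0 ≤ v := by
        calc (q + 1) * T0 ≤ (2 * q) * T0 := Nat.mul_le_mul_right _ (by omega)
          _ = q * (2 * T0) := by ring
          _ ≤ q * P.W1 := Nat.mul_le_mul_left _ p1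
          _ ≤ v := hv1
      have h2 : (q + 1) * (μ + T0) = (q + 1) * μ + (q + 1) * T0 := by ring
      omega
    · have h1 : q * P.W2 + q + 1 ≤ (q + 1) * T3 := by
        calc q * P.W2 + q + 1 ≤ (q + 1) * (P.W2 + 1) := by nlinarith
          _ ≤ (q + 1) * T3 := Nat.mul_le_mul_left _ (by omega)
      have h2 : (q + 1) * (μ + T3) = (q + 1) * μ + (q + 1) * T3 := by ring
      omega
  · -- a medium strip
    obtain ⟨d, ρ, hρ, hρa⟩ : ∃ d ρ, b * μ = a * d + ρ ∧ ρ < a :=
      ⟨b * μ / a, b * μ % a, (Nat.div_add_mod _ _).symm, Nat.mod_lt _ (by omega)⟩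
    obtain ⟨F, hF⟩ : ∃ F, F = μ + d := ⟨_, rfl⟩
    have haF : (a + b) * μ = a * F + ρ := by
      rw [hF, add_mul, hρ]; ring
    have hFμ : μ ≤ F := by omega
    have hW2F : P.W2 ≤ F := by omega
    have hS2 : GS μ L' P.s (F + 1 - P.W2 + P.s) (F - P.W1 - P.s) := by
      refine GS_of (by omega) (by omega) (fun R₂ h1 h2 => hmed hb0 R₂ ?_ ?_)
      · rw [haF]
        have h3 : a * (R₂ + P.W1) ≤ a * F := Nat.mul_le_mul_left a (by omega)
        rw [mul_add] at h3
        omega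
      · rw [haF]
        have h3 : a * (F + 1) ≤ a * (R₂ + P.W2) := Nat.mul_le_mul_left a (by omega)
        rw [mul_add, mul_add] at h3
        omega
    have hS1 := hthin.smul hL2 hγ q hq
    have hS := hS1.add hL2 hγ hS2
    -- the position of `R`
    obtain ⟨v, hv⟩ : ∃ v, a * v = ρ + w + n + a ∧ R = q * μ + F + v := by
      have h1 : a * R = a * (q * μ + F) + (ρ + w + n + a) := by
        rw [hRe]
        calc a * (k + μ + 1) = a * k + a * μ + a := by ring
          _ = (q * a + b) * μ + w + n + a * μ + a := by rw [hak]; nth_rewrite 1 [hn]; ring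
          _ = a * (q * μ) + ((a + b) * μ) + w + n + a := by ring
          _ = a * (q * μ + F) + (ρ + w + n + a) := by rw [haF]; ring
      have h2 : q * μ + F ≤ R := by
        have h3 : a * (q * μ + F) ≤ a * R := by omega
        exact Nat.le_of_mul_le_mul_left h3 (by omega)
      obtain ⟨v, hv⟩ := Nat.exists_eq_add_of_le h2
      refine ⟨v, ?_, hv⟩
      rw [hv, mul_add] at h1
      omega
    obtain ⟨hv1, hv2⟩ := hv
    have hv3 : q * (P.W1 + 1) + 1 ≤ v := by
      have h1 : a * (q * (P.W1 + 1) + 1) ≤ a * v := by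
        rw [hv1]
        have h2 : a * (q * (P.W1 + 1) + 1) = q * a * P.W1 + q * a + a := by ring
        have h3 : q * a * P.W1 ≤ n * P.W1 := Nat.mul_le_mul_right _ (by omega)
        omega
      exact Nat.le_of_mul_le_mul_left h1 (by omega)
    have hv4 : v < (q + 1) * (P.W2 + 1) + 2 := by
      have h1 : a * v < a * ((q + 1) * (P.W2 + 1) + 2) := by
        rw [hv1]
        have h2 : a * ((q + 1) * (P.W2 + 1) + 2) = (q * a + a) * (P.W2 + 1) + 2 * a := by ring
        have h3 : n * (P.W2 + 1) ≤ (q * a + a) * (P.W2 + 1) := Nat.mul_le_mul_right _ (by omega)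
        have h4 : n * (P.W2 + 1) = n * P.W2 + n := by ring
        omega
      exact Nat.lt_of_mul_lt_mul_left h1
    refine hS.good ?_ ?_
    · have h1 : q * T0 ≤ q * (P.W1 + 1) := Nat.mul_le_mul_left _ (by omega)
      have h2 : q * (μ + T0) = q * μ + q * T0 := by ring
      omega
    · have h1 : (q + 1) * (P.W2 + 1) + 1 + P.W1 ≤ q * T3 := by
        have h2 : (q + 1) * (P.W2 + 1) ≤ 2 * q * (P.W2 + 1) := Nat.mul_le_mul_right _ (by omega)
        have h3 : q * (2 * P.W2 + P.W1 + 4) ≤ q * T3 := Nat.mul_le_mul_left _ ht3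
        have h4 : q * (2 * P.W2 + P.W1 + 4) = 2 * q * (P.W2 + 1) + q * P.W1 + 2 * q := by ring
        have h5 : 1 * P.W1 ≤ q * P.W1 := Nat.mul_le_mul_right _ hq
        omega
      have h2 : q * (μ + T3) = q * μ + q * T3 := by ring
      omega

/-- the loss of the invariant at the upper number of points -/
theorem star_lt {n a k μ w W Z : ℕ} (ha : 1 ≤ a) (han : a + 1 ≤ n) (hak : a * k = n * μ + w + n)
    (hw : w ≤ n * W) (hWZ : W + 1 ≤ Z) (hμ : a * Z ≤ μ) (hμk : μ ≤ k) :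
    Z * (k - μ) ≤ 4 * (n - a) * (μ * (μ + 1)) := by
  obtain ⟨δ, hδ, rfl⟩ : ∃ δ, 1 ≤ δ ∧ n = a + δ := ⟨n - a, by omega, by omega⟩
  obtain ⟨x, rfl⟩ : ∃ x, k = μ + x := ⟨k - μ, by omega⟩
  have e1 : μ + x - μ = x := by omega
  have e2 : a + δ - a = δ := by omega
  rw [e1, e2]
  -- `a x = δ μ + w + n`
  have h1 : a * x = δ * μ + w + (a + δ) := by nlinarith
  have h2 : w + (a + δ) ≤ (a + δ) * Z := by
    calc w + (a + δ) ≤ (a + δ) * W + (a + δ) := by omega
      _ = (a + δ) * (W + 1) := by ring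
      _ ≤ (a + δ) * Z := Nat.mul_le_mul_left _ hWZ
  have haδ : a + δ ≤ 2 * (a * δ) := by nlinarith
  -- `a x Z ≤ δ μ Z + (a + δ) Z Z ≤ 3 δ μ μ`
  have h3 : Z ≤ μ := by nlinarith
  have h4 : (a + δ) * Z * Z ≤ 2 * δ * μ * μ := by
    calc (a + δ) * Z * Z ≤ 2 * (a * δ) * Z * Z := by gcongr
      _ = 2 * δ * (a * Z) * Z := by ring
      _ ≤ 2 * δ * μ * μ := by gcongr
  have h5 : a * (Z * x) ≤ 3 * δ * μ * μ := by
    calc a * (Z * x) = (a * x) * Z := by ring
      _ = (δ * μ + (w + (a + δ))) * Z := by rw [h1]; ring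
      _ ≤ (δ * μ + (a + δ) * Z) * Z := by gcongr
      _ = δ * μ * Z + (a + δ) * Z * Z := by ring
      _ ≤ δ * μ * μ + 2 * δ * μ * μ := by gcongr
      _ = 3 * δ * μ * μ := by ring
  have h6 : Z * x ≤ a * (Z * x) := Nat.le_mul_of_pos_left _ (by omega)
  calc Z * x ≤ 3 * δ * μ * μ := h6.trans h5
    _ ≤ 4 * δ * (μ * (μ + 1)) := by nlinarith [Nat.zero_le (δ * μ * μ), Nat.zero_le (δ * μ)]

theorem star_eq {n k μ w W Z : ℕ} (hn : 1 ≤ n) (hak : n * k = n * μ + w + n)
    (hw : w ≤ n * W) (hWZ : W + 1 ≤ Z) (hμ : Z ≤ μ) (hμk : μ ≤ k) :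
    Z * (k - μ) ≤ 4 * n * (μ * (μ + 1)) := by
  obtain ⟨x, rfl⟩ : ∃ x, k = μ + x := ⟨k - μ, by omega⟩
  have e1 : μ + x - μ = x := by omega
  rw [e1]
  have h1 : n * x ≤ n * (W + 1) := by nlinarith
  have h2 : x ≤ W + 1 := Nat.le_of_mul_le_mul_left h1 (by omega)
  calc Z * x ≤ μ * μ := Nat.mul_le_mul hμ (by omega)
    _ ≤ 1 * (μ * (μ + 1)) := by nlinarith
    _ ≤ 4 * n * (μ * (μ + 1)) := Nat.mul_le_mul_right _ (by omega)

theorem Par.medium {η : ℕ} (P : Par η) {n a k L R : ℕ} (ha : 1 ≤ a) (han : a ≤ n)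
    (hk : n * P.Z + n ^ 2 * (P.W2 + 1) ≤ k)
    (hγ : k * (k + 1) * (P.Z + 4 * n * P.s) ≤ P.s * P.Z * L)
    (h1 : n * R + n * P.W1 ≤ (n + a) * k) (h2 : (n + a) * k ≤ n * R + n * P.W2) :
    GE k L R := by
  induction n using Nat.strong_induction_on generalizing a k L R with
  | _ n ih =>
  have p1 := P.h1
  have p2 := P.h2
  have p3 := P.h3
  have p4 := P.hZ2
  have p5 := P.hs
  have hWZ : P.W2 + 1 ≤ P.Z := by omega
  have hZpos : 0 < P.Z := by omega
  have hnpos : 0 < n := by omega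
  -- the new multiplicity
  obtain ⟨w, hw⟩ : ∃ w, (n + a) * k = n * R + w := ⟨(n + a) * k - n * R, by omega⟩
  have hw1 : n * P.W1 ≤ w := by omega
  have hw2 : w ≤ n * P.W2 := by omega
  have hn2 : n ^ 2 * (P.W2 + 1) = n * (n * (P.W2 + 1)) := by ring
  have hakn : a * (n * P.Z + n ^ 2 * (P.W2 + 1)) ≤ a * k := Nat.mul_le_mul_left a hk
  have hnW : n * (P.W2 + 1) = n * P.W2 + n := by ring
  have hkR : k + 1 ≤ R := by
    have h3 : n * (k + 1) ≤ n * R := by
      have h4 : (n + a) * k = n * k + a * k := by ring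
      have h5 : n * (P.W2 + 1) ≤ k := by
        calc n * (P.W2 + 1) ≤ n * (n * (P.W2 + 1)) := Nat.le_mul_of_pos_left _ hnpos
          _ ≤ k := by omega
      have h6 : k ≤ a * k := Nat.le_mul_of_pos_left _ (by omega)
      have h7 : n * (k + 1) = n * k + n := by ring
      omega
    exact Nat.le_of_mul_le_mul_left h3 hnpos
  obtain ⟨μ, hRe⟩ : ∃ μ, R = k + μ + 1 := ⟨R - k - 1, by omega⟩
  have hak : a * k = n * μ + w + n := by
    rw [hRe] at hw
    nlinarith
  have hμk : μ ≤ k := by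
    have h3 : n * μ ≤ n * k := by
      calc n * μ ≤ a * k := by omega
        _ ≤ n * k := Nat.mul_le_mul_right _ han
    exact Nat.le_of_mul_le_mul_left h3 hnpos
  -- `μ ≥ a Z + (a n - 1) (W2 + 1)`
  have hμ0 : a * P.Z + (a * n - 1) * (P.W2 + 1) ≤ μ := by
    have h3 : n * (a * P.Z + (a * n - 1) * (P.W2 + 1)) ≤ n * μ := by
      obtain ⟨y, hy⟩ : ∃ y, a * n = y + 1 := ⟨a * n - 1, by
        have : 1 ≤ a * n := Nat.mul_pos (by omega) hnpos
        omega⟩
      rw [hy, Nat.add_sub_cancel]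
      have h4 : a * (n * P.Z + n ^ 2 * (P.W2 + 1)) =
          n * (a * P.Z + y * (P.W2 + 1)) + n * (P.W2 + 1) := by
        calc a * (n * P.Z + n ^ 2 * (P.W2 + 1))
            = n * (a * P.Z) + n * ((a * n) * (P.W2 + 1)) := by ring
          _ = _ := by rw [hy]; ring
      omega
    exact Nat.le_of_mul_le_mul_left h3 hnpos
  have haZ : a * P.Z ≤ μ := by omega
  have hμZ : P.Z ≤ μ := by
    calc P.Z ≤ a * P.Z := Nat.le_mul_of_pos_left _ (by omega)
      _ ≤ μ := haZ
  have hkpos : 0 < k := by omega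
  have hKpos : 0 < k * (k + 1) := Nat.mul_pos hkpos (by omega)
  -- the division of `n` by `a`
  set q := n / a with hq
  set b := n % a with hb
  have hnab : n = q * a + b := by
    rw [hq, hb, mul_comm]; exact (Nat.div_add_mod n a).symm
  have hba : b < a := Nat.mod_lt _ (by omega)
  have hq1 : 1 ≤ q := (Nat.one_le_div_iff (by omega)).mpr han
  -- the claim for a new state
  have key : ∀ L', μ * (μ + 1) ≤ P.s * L' →
      (1 ≤ b → μ * (μ + 1) * (P.Z + 4 * a * P.s) ≤ P.s * P.Z * L') → GE μ L' R := by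
    intro L' g1 g2
    refine P.step ha hnab hba.le hq1 hRe hak hw1 hw2 hμZ g1 ?_
    intro hb1 R₂ h3 h4
    have han' : a < n := by
      rcases Nat.lt_or_ge a n with h | h
      · exact h
      · have h5 : a = n := by omega
        rw [hb, h5, Nat.mod_self] at hb1
        omega
    refine ih a han' hb1 hba.le ?_ (g2 hb1) h3 h4
    -- `a Z + a ^ 2 (W2 + 1) ≤ μ`
    have h5 : a ^ 2 ≤ a * n - 1 := by
      have h6 : a * (a + 1) ≤ a * n := Nat.mul_le_mul_left a (by omega)
      have h7 : a * (a + 1) = a ^ 2 + a := by ring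
      omega
    have h6 : a ^ 2 * (P.W2 + 1) ≤ (a * n - 1) * (P.W2 + 1) := Nat.mul_le_mul_right _ h5
    omega
  -- the critical number of points
  set t := R * L / (k * (k + 1)) with ht
  have ht1 : t * (k * (k + 1)) ≤ R * L := Nat.div_mul_le_self _ _
  have ht2 : R * L < (t + 1) * (k * (k + 1)) := by
    have h3 := Nat.lt_div_mul_add (a := R * L) hKpos
    rw [← ht] at h3
    rw [add_mul, one_mul]
    exact h3
  obtain ⟨L₁, hL₁⟩ := exists_L' (L := L) hRe ht1 hμk
  have hg := gamma_mono hRe hL₁ ht1 hμk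
  -- the invariant at the lower number of points
  have hinv : μ * (μ + 1) * (P.Z + 4 * n * P.s) ≤ P.s * P.Z * L₁ := by
    have h3 : (k * (k + 1)) * (μ * (μ + 1) * (P.Z + 4 * n * P.s)) ≤
        (k * (k + 1)) * (P.s * P.Z * L₁) := by
      calc (k * (k + 1)) * (μ * (μ + 1) * (P.Z + 4 * n * P.s))
          = (k * (k + 1) * (P.Z + 4 * n * P.s)) * (μ * (μ + 1)) := by ring
        _ ≤ (P.s * P.Z * L) * (μ * (μ + 1)) := Nat.mul_le_mul_right _ hγ
        _ = P.s * P.Z * (L * (μ * (μ + 1))) := by ring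
        _ ≤ P.s * P.Z * (L₁ * (k * (k + 1))) := Nat.mul_le_mul_left _ hg
        _ = (k * (k + 1)) * (P.s * P.Z * L₁) := by ring
    exact Nat.le_of_mul_le_mul_left h3 hKpos
  have thin_of : ∀ L', μ * (μ + 1) * P.Z ≤ P.s * P.Z * L' → μ * (μ + 1) ≤ P.s * L' := by
    intro L' h3
    refine Nat.le_of_mul_le_mul_right ?_ hZpos
    calc μ * (μ + 1) * P.Z ≤ P.s * P.Z * L' := h3
      _ = P.s * L' * P.Z := by ring
  have hGE1 : GE μ L₁ R := by
    refine key L₁ (thin_of _ (le_trans ?_ hinv)) (fun _ => le_trans ?_ hinv)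
    · exact Nat.mul_le_mul_left _ (by omega)
    · have : 4 * a * P.s ≤ 4 * n * P.s := by gcongr
      exact Nat.mul_le_mul_left _ (by omega)
  -- the upper number of points
  have hstar : ∃ a', (a < n → a' = a) ∧ a' ≤ n ∧ Z_star P.Z k μ n a' := by
    rcases Nat.lt_or_ge a n with h | h
    · refine ⟨a, fun _ => rfl, han, ?_⟩
      exact star_lt ha h hak hw2 hWZ haZ hμk
    · have h5 : a = n := by omega
      refine ⟨0, fun h' => absurd h' (by omega), Nat.zero_le _, ?_⟩
      rw [h5] at hak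
      have := star_eq (by omega) hak hw2 hWZ hμZ hμk
      unfold Z_star
      rw [Nat.sub_zero]
      exact this
  obtain ⟨a', ha1, ha2, ha3⟩ := hstar
  unfold Z_star at ha3
  have hup : μ * (μ + 1) * (P.Z + 4 * a' * P.s) + P.s * P.Z * (k - μ) ≤ P.s * P.Z * L₁ := by
    have h3 : P.s * (P.Z * (k - μ)) ≤ P.s * (4 * (n - a') * (μ * (μ + 1))) :=
      Nat.mul_le_mul_left _ ha3
    have h4 : μ * (μ + 1) * (P.Z + 4 * n * P.s) =
        μ * (μ + 1) * (P.Z + 4 * a' * P.s) + P.s * (4 * (n - a') * (μ * (μ + 1))) := by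
      obtain ⟨d, rfl⟩ : ∃ d, n = a' + d := ⟨n - a', by omega⟩
      rw [Nat.add_sub_cancel_left]
      ring
    have h5 : P.s * P.Z * (k - μ) = P.s * (P.Z * (k - μ)) := by ring
    omega
  have hsZ : 0 < P.s * P.Z := Nat.mul_pos p5 hZpos
  have hL₁k : k - μ ≤ L₁ := by
    have h3 : P.s * P.Z * (k - μ) ≤ P.s * P.Z * L₁ := by omega
    exact Nat.le_of_mul_le_mul_left h3 hsZ
  obtain ⟨L₂, hL₂⟩ : ∃ L₂, L₁ = L₂ + (k - μ) := ⟨L₁ - (k - μ), by omega⟩
  have hinv2 : μ * (μ + 1) * (P.Z + 4 * a' * P.s) ≤ P.s * P.Z * L₂ := by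
    have h3 : P.s * P.Z * (L₂ + (k - μ)) = P.s * P.Z * L₂ + P.s * P.Z * (k - μ) := by ring
    rw [hL₂, h3] at hup
    exact Nat.le_of_add_le_add_right hup
  have hL₂' : L₂ + (t + 1) * k = L + (t + 1) * μ := by
    have e1 : (t + 1) * k = t * k + k := by ring
    have e2 : (t + 1) * μ = t * μ + μ := by ring
    omega
  have hGE2 : GE μ L₂ R := by
    refine key L₂ (thin_of _ (le_trans ?_ hinv2)) (fun hb1 => ?_)
    · exact Nat.mul_le_mul_left _ (by omega)
    · have han' : a < n := by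
        rcases Nat.lt_or_ge a n with h | h
        · exact h
        · have h5 : a = n := by omega
          rw [hb, h5, Nat.mod_self] at hb1
          omega
      rw [ha1 han'] at hinv2
      exact hinv2
  rw [← GP_zero]
  refine GP_of_two (t := t) ?_ ?_ ?_ ?_
  · rw [add_zero]
    have e1 : 2 * t * (k + 1).choose 2 = t * (k * (k + 1)) := by rw [← two_choose_succ k]; ring
    rw [e1]
    exact ht1
  · rw [add_zero]
    have e1 : 2 * (t + 1) * (k + 1).choose 2 = (t + 1) * (k * (k + 1)) := by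
      rw [← two_choose_succ k]; ring
    rw [e1]
    exact ht2.le
  · rw [add_zero]
    exact MR_of_transform_even hRe hL₁ (hGE1 t)
  · rw [add_zero]
    exact MR_of_transform_even hRe hL₂' (hGE2 (t + 1))

end Pool.Agent.Work.MP_0421d9_ag.LD
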