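import Pool.Agent.Work.MP_0421d9_ag.VDefs

/-!
Strips of a rectangle and of the systems `hF`, cut off by a smaller system of the same kind.
-/

namespace Pool.Agent.Work.MP_0421d9_ag.LD

open MvPolynomial Module

/-- strips of the systems `hF` -/
theorem hF_strip {D K κ m N r B : ℕ} (hκ : 1 ≤ κ) (hK : κ + 1 ≤ K) (hD : K + 1 ≤ D)
    (hB : B ≤ D - κ + 1) (h1 : hF D κ m N ≤ B) (h0 : hF D (κ - 1) m N = 0) :
    hF D K m (r + N) ≤ max (hF (D - κ) (K - κ) m r - (D - κ + 1 - B))
      (hF (D - κ - 1) (K - κ - 1) m r) := by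
  have hk := kills_of_hF hκ (by omega) hB h1 h0
  obtain ⟨δ, rfl⟩ : ∃ δ, D = δ + 1 + κ := ⟨D - κ - 1, by omega⟩
  have h2 := peel (δ := δ) (κ := κ) (m := m) (r := r) (N := N) (A := δ + 1 + κ - κ + 1 - B)
    (T := {α | α 2 ≤ K}) hκ (by omega) (fun α β hα h2 _ _ => by
      change β 2 ≤ K
      rw [h2]
      exact hα)
    (hk.mono (fun α _ hα => hα.2))
  have e1 : δ + 1 + κ - κ = δ + 1 := by omega
  have e2 : δ + 1 - 1 = δ := by omega
  have e4 : {γ : Fin 3 →₀ ℕ | γ + Finsupp.single 2 κ ∈ {α : Fin 3 →₀ ℕ | α 2 ≤ K}} =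
      {γ : Fin 3 →₀ ℕ | γ 2 ≤ K - κ} := by
    ext γ
    change (γ + Finsupp.single 2 κ : Fin 3 →₀ ℕ) 2 ≤ K ↔ γ 2 ≤ K - κ
    rw [Finsupp.add_apply, Finsupp.single_eq_same]
    omega
  have e5 : {γ : Fin 3 →₀ ℕ | γ + Finsupp.single 2 (κ + 1) ∈ {α : Fin 3 →₀ ℕ | α 2 ≤ K}} =
      {γ : Fin 3 →₀ ℕ | γ 2 ≤ K - κ - 1} := by
    ext γ
    change (γ + Finsupp.single 2 (κ + 1) : Fin 3 →₀ ℕ) 2 ≤ K ↔ γ 2 ≤ K - κ - 1
    rw [Finsupp.add_apply, Finsupp.single_eq_same]
    omega
  rw [e4, e5] at h2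
  unfold hF
  rw [e1] at h2 ⊢
  rw [e2]
  exact h2

namespace VS

theorem exists_div_X1 {F : R3} {δ u : ℕ} (hF : F.IsHomogeneous (δ + u))
    (h : ∀ α ∈ F.support, u ≤ α 1) :
    ∃ G : R3, G.IsHomogeneous δ ∧ F = X 1 ^ u * G ∧
      ∀ β, coeff β G = coeff (Finsupp.single 1 u + β) F := by
  refine ⟨F.divMonomial (Finsupp.single 1 u), ?_, ?_, fun β => coeff_divMonomial _ _ _⟩
  · intro β hβ
    rw [coeff_divMonomial] at hβ
    have h1 := hF hβ
    rw [map_add] at h1
    have h2 : Finsupp.weight (1 : Fin 3 → ℕ) (Finsupp.single 1 u) = u := by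
      rw [Finsupp.weight_single]
      simp
    rw [h2] at h1
    omega
  · ext γ
    rw [X_pow_eq_monomial, coeff_monomial_mul']
    split_ifs with h1
    · rw [one_mul, coeff_divMonomial, add_tsub_cancel_of_le h1]
    · by_contra hcon
      apply h1
      have h2 := h γ (mem_support_iff.mpr hcon)
      rw [Finsupp.single_le_iff]
      exact h2

theorem single1_apply (u : ℕ) (β : Fin 3 →₀ ℕ) : (Finsupp.single 1 u + β : Fin 3 →₀ ℕ) 0 = β 0 ∧
    (Finsupp.single 1 u + β : Fin 3 →₀ ℕ) 2 = β 2 := by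
  constructor
  · rw [Finsupp.add_apply, Finsupp.single_eq_of_ne (by decide), zero_add]
  · rw [Finsupp.add_apply, Finsupp.single_eq_of_ne (by decide), zero_add]

theorem vanishTo_of_X1 {G : R3} {p : V3} {k u : ℕ} (hp : p 1 ≠ 0)
    (h : VanishTo (X 1 ^ u * G) p k) : VanishTo G p k := by
  refine Tr.vanishTo_of_eval_ne h ?_
  rw [map_pow, eval_X]
  exact pow_ne_zero _ hp

/-- the order at a general point of the top row -/
theorem kills_top {R L k N B : ℕ} (hR1 : 1 ≤ R) (hL : 1 ≤ L)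
    (h1 : hR (R + 1) L k N ≤ B) (h0 : hR R L k N = 0) :
    Kills (R + L - 1) k N
      {α | α ∈ rect (R + 1) L ∧ (α 2 < R ∨ (α 2 = R ∧ B ≤ α 0))} := by
  classical
  have eD : R + 1 + L - 2 = R + L - 1 := by omega
  set V := TS (R + L - 1) (rect (R + 1) L) k (gpt N) with hV
  have hVd : finrank ℂ V ≤ B := by
    unfold hR hT at h1
    rw [eD] at h1
    exact h1
  obtain ⟨h, hh0, hh⟩ := order_generic (V.map (topc R)) B
  set g : Polynomial ℂ := ∏ i : Fin N, (Polynomial.C (gpt N i 0) -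
    Polynomial.X * Polynomial.C (gpt N i 1)) with hg
  have hg0 : g ≠ 0 := by
    rw [hg, Finset.prod_ne_zero_iff]
    intro i _ h2
    have h3 := congrArg (Polynomial.eval 0) h2
    simp only [Polynomial.eval_sub, Polynomial.eval_mul, Polynomial.eval_C, Polynomial.eval_X,
      zero_mul, sub_zero, Polynomial.eval_zero] at h3
    exact gpt_ne i 0 h3
  obtain ⟨c, hc, hc'⟩ := exists_eval_ne hh0 hg0
  have hne : ∀ i, gpt N i 0 - c * gpt N i 1 ≠ 0 := by
    rw [hg, Polynomial.eval_prod, Finset.prod_ne_zero_iff] at hc'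
    intro i
    have h2 := hc' i (Finset.mem_univ i)
    rw [Polynomial.eval_sub, Polynomial.eval_mul, Polynomial.eval_C, Polynomial.eval_C,
      Polynomial.eval_X] at h2
    exact h2
  have h2 := hh c hc
  have h3 : finrank ℂ ↥(V.map (topc R)) ≤ B := (Submodule.finrank_map_le _ _).trans hVd
  have h4 : V.map (topc R) ⊓ ordSub c B = ⊥ := by
    have hfin : Module.Finite ℂ ↥(V.map (topc R) ⊓ ordSub c B) :=
      Submodule.finiteDimensional_of_le inf_le_left
    rw [← Submodule.finrank_eq_zero (R := ℂ)]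
    omega
  have h5 : TS (R + L - 2) (rect R L) k (gpt N) = ⊥ := by
    rw [← Submodule.finrank_eq_zero (R := ℂ)]
    exact h0
  refine ⟨fun i => (shear c).mulVec (gpt N i), ?_, ?_⟩
  · intro i l
    simp only [shear_mulVec]
    fin_cases l
    · exact hne i
    · exact gpt_ne i 1
    · exact gpt_ne i 2
  · intro G hG1 hG2 hG3
    have h6 : subM (shear c) G ∈ V := by
      rw [hV, mem_TS]
      refine ⟨subM_isHomogeneous _ hG1, fun i => vanishTo_subM _ (hG3 i), fun β hβ => ?_⟩
      obtain ⟨α, hα, h7, h8, -⟩ := coeff_shear c G β hβ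
      have h9 := (hG2 α (mem_support_iff.mpr hα)).1
      exact ⟨by rw [h7]; exact h9.1, lt_of_le_of_lt h8 h9.2⟩
    have h7 : topc R (subM (shear c) G) ∈ V.map (topc R) ⊓ ordSub c B := by
      refine Submodule.mem_inf.mpr ⟨⟨_, h6, rfl⟩, ?_⟩
      intro j hj
      rw [topc_shear, ← onLine_shear, onLine_e1_e0, Polynomial.finsetSum_coeff]
      refine Finset.sum_eq_zero (fun β hβ => ?_)
      rw [Polynomial.coeff_C_mul_X_pow]
      split_ifs with h8 h9
      · exfalso
        have h10 := mem_support_iff.mp hβ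
        rw [coeff_divMonomial] at h10
        have h11 := (hG2 _ (mem_support_iff.mpr h10)).2
        have e0' : (Finsupp.single (2 : Fin 3) R + β) 0 = β 0 := by
          rw [Finsupp.add_apply, Finsupp.single_eq_of_ne (by decide), zero_add]
        have e2' : (Finsupp.single (2 : Fin 3) R + β) 2 = R + β 2 := by
          rw [Finsupp.add_apply, Finsupp.single_eq_same]
        rcases h11 with h11 | ⟨-, h11⟩
        · rw [e2'] at h11
          omega
        · rw [e0'] at h11
          omega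
      · rw [mul_zero]
      · rfl
    rw [h4, Submodule.mem_bot] at h7
    have h8 : subM (shear c) G = 0 := by
      obtain ⟨h9, h10, h11⟩ := mem_TS.mp h6
      have e3 : R + L - 1 = (R + L - 2) + 1 := by omega
      have h12 : ∀ α ∈ (subM (shear c) G).support, α 2 < R := by
        intro α hα
        have h13 := (h11 α (mem_support_iff.mp hα)).1
        by_contra hcon
        have h14 : α 2 = R := by omega
        apply mem_support_iff.mp hα
        rw [← topc_coeff h9 h14 (degree_of_mem_support h9 (mem_support_iff.mp hα)), h7,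
          Polynomial.coeff_zero]
      obtain ⟨G', hG'1, hG'2, hG'3⟩ := exists_div_X1 (F := subM (shear c) G) (δ := R + L - 2)
        (u := 1) (by rw [← e3]; exact h9) (fun α hα => by
          have h13 := h12 α hα
          have h14 := (h11 α (mem_support_iff.mp hα)).2
          have h15 := deg_eq h9 hα
          omega)
      have h13 : G' ∈ TS (R + L - 2) (rect R L) k (gpt N) := by
        rw [mem_TS]
        refine ⟨hG'1, fun i => ?_, fun β hβ => ?_⟩
        · have h14 := h10 i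
          rw [hG'2] at h14
          exact vanishTo_of_X1 (gpt_ne i 1) h14
        · rw [hG'3] at hβ
          have h14 := h12 _ (mem_support_iff.mpr hβ)
          have h15 := (h11 _ hβ).2
          rw [(single1_apply 1 β).2] at h14
          rw [(single1_apply 1 β).1] at h15
          exact ⟨h14, h15⟩
      rw [h5, Submodule.mem_bot] at h13
      rw [hG'2, h13, mul_zero]
    have h9 := congrArg (subM (shear (-c))) h8
    have h10 : shear c * shear (-c) = 1 := by
      have h11 := shear_mul (-c)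
      rwa [neg_neg] at h11
    rwa [subM_subM, h10, subM_one, map_zero] at h9

/-! ### reversal -/

/-- the reversed exponent -/
noncomputable def rex (R L : ℕ) (α : Fin 3 →₀ ℕ) : Fin 3 →₀ ℕ :=
  ex3 (L - 1 - α 0) (R + α 0 - α 2) (α 2)

/-- the reversed form -/
noncomputable def rev (R L : ℕ) (F : R3) : R3 :=
  ∑ α ∈ F.support, monomial (rex R L α) (coeff α F)

theorem coeff_rev_ne {R L : ℕ} {F : R3} {β : Fin 3 →₀ ℕ} (h : coeff β (rev R L F) ≠ 0) :
    ∃ α, coeff α F ≠ 0 ∧ β = rex R L α := by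
  classical
  unfold rev at h
  rw [coeff_sum] at h
  obtain ⟨α, hα, h1⟩ := Finset.exists_ne_zero_of_sum_ne_zero h
  rw [coeff_monomial] at h1
  exact ⟨α, mem_support_iff.mp hα, ((ite_ne_right_iff.mp h1).1).symm⟩

theorem rev_isHomogeneous {R L : ℕ} (hL : 1 ≤ L) {F : R3}
    (hT : ∀ α ∈ F.support, α ∈ rect (R + 1) L) : (rev R L F).IsHomogeneous (R + L - 1) := by
  unfold rev
  refine IsHomogeneous.sum _ _ _ (fun α hα => isHomogeneous_monomial _ ?_)
  have h1 := hT α hα
  have h2 : α 2 < R + 1 := h1.1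
  have h3 : α 0 < L := h1.2
  unfold rex
  rw [degree_three, ex3_zero, ex3_one, ex3_two]
  omega

/-- the substitution -/
noncomputable def ph : Fin 3 → R3 := ![X 1 * X 1, X 0 * X 1, X 0 * X 2]

theorem aeval_ph {R L : ℕ} (hL : 1 ≤ L) {F : R3} (hF : F.IsHomogeneous (R + L - 1))
    (hT : ∀ α ∈ F.support, α ∈ rect (R + 1) L) :
    aeval ph F = (X 0 ^ R * X 1 ^ (L - 1)) * rev R L F := by
  unfold rev
  rw [Finset.mul_sum]
  conv_lhs => rw [← support_sum_monomial_coeff F]
  rw [map_sum]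
  refine Finset.sum_congr rfl (fun α hα => ?_)
  have h1 := deg_eq hF hα
  have h2 : α 2 < R + 1 := (hT α hα).1
  have h3 : α 0 < L := (hT α hα).2
  rw [aeval_monomial, Finsupp.prod_fintype _ _ (fun i => pow_zero _), Fin.prod_univ_three,
    algebraMap_eq]
  change C (coeff α F) * ((X 1 * X 1) ^ α 0 * (X 0 * X 1) ^ α 1 * (X 0 * X 2) ^ α 2) = _
  have e1 : (monomial (rex R L α) (coeff α F) : R3) =
      C (coeff α F) * (X 0 ^ (L - 1 - α 0) * X 1 ^ (R + α 0 - α 2) * X 2 ^ α 2) := by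
    unfold rex ex3
    rw [X_pow_eq_monomial, X_pow_eq_monomial, X_pow_eq_monomial, monomial_mul, monomial_mul,
      C_mul_monomial, mul_one, mul_one, mul_one]
  rw [e1]
  obtain ⟨a, ha⟩ : ∃ a, L = α 0 + 1 + a := ⟨L - 1 - α 0, by omega⟩
  obtain ⟨b, hb⟩ : ∃ b, R = α 2 + b := ⟨R - α 2, by omega⟩
  have e2 : L - 1 - α 0 = a := by omega
  have e3 : R + α 0 - α 2 = b + α 0 := by omega
  have e4 : L - 1 = α 0 + a := by omega
  have e5 : α 1 = a + b := by omega
  rw [e2, e3, e4, e5, hb]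
  ring

theorem rev_eq_zero {R L : ℕ} (hL : 1 ≤ L) {F : R3} (hF : F.IsHomogeneous (R + L - 1))
    (hT : ∀ α ∈ F.support, α ∈ rect (R + 1) L) (h : rev R L F = 0) : F = 0 := by
  classical
  by_contra hne
  obtain ⟨α, hα⟩ := support_nonempty.mpr hne
  have h1 : coeff (rex R L α) (rev R L F) = coeff α F := by
    unfold rev
    rw [coeff_sum, Finset.sum_eq_single α]
    · rw [coeff_monomial, if_pos rfl]
    · intro β hβ hne'
      rw [coeff_monomial, if_neg]
      intro h2
      apply hne'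
      have h3 := DFunLike.congr_fun h2 0
      have h4 := DFunLike.congr_fun h2 2
      unfold rex at h3 h4
      rw [ex3_zero, ex3_zero] at h3
      rw [ex3_two, ex3_two] at h4
      have h5 : β 0 < L := (hT β hβ).2
      have h6 : α 0 < L := (hT α hα).2
      have h7 := deg_eq hF hα
      have h8 := deg_eq hF hβ
      rw [eq_ex3 β, eq_ex3 α]
      congr 1 <;> omega
    · intro h2
      exact absurd hα h2
  rw [h, coeff_zero] at h1
  exact mem_support_iff.mp hα h1.symm

theorem kills_rev {R L k N B : ℕ} (hL : 1 ≤ L) (hB : B ≤ L)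
    (hK : Kills (R + L - 1) k N
      {α | α ∈ rect (R + 1) L ∧ (α 2 < R ∨ (α 2 = R ∧ B ≤ α 0))}) :
    Kills (R + L - 1) k N
      {α | α ∈ rect (R + 1) L ∧ (α 2 < R ∨ (α 2 = R ∧ α 0 < L - B))} := by
  obtain ⟨p, hp, hK⟩ := hK
  refine ⟨fun i => ![p i 1 * p i 1, p i 0 * p i 1, p i 0 * p i 2], ?_, ?_⟩
  · intro i l
    fin_cases l
    · exact mul_ne_zero (hp i 1) (hp i 1)
    · exact mul_ne_zero (hp i 0) (hp i 1)
    · exact mul_ne_zero (hp i 0) (hp i 2)
  · intro G hG1 hG2 hG3
    have hT : ∀ α ∈ G.support, α ∈ rect (R + 1) L := fun α hα => (hG2 α hα).1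
    refine rev_eq_zero hL hG1 hT (hK _ (rev_isHomogeneous hL hT) (fun β hβ => ?_) (fun i => ?_))
    · obtain ⟨α, hα, rfl⟩ := coeff_rev_ne (mem_support_iff.mp hβ)
      have h1 := hG2 α (mem_support_iff.mpr hα)
      have h2 : α 2 < R + 1 := h1.1.1
      have h3 : α 0 < L := h1.1.2
      have h4 := h1.2
      unfold rex
      refine ⟨⟨?_, ?_⟩, ?_⟩
      · rw [ex3_two]
        exact h2
      · rw [ex3_zero]
        omega
      · rw [ex3_zero, ex3_two]
        omega
    · have h1 := vanishTo_comp ph (F := G) (u := p i) (m := k) (by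
        have e1 : (fun j => eval (p i) (ph j)) =
            ![p i 1 * p i 1, p i 0 * p i 1, p i 0 * p i 2] := by
          funext j
          fin_cases j
          · change eval (p i) (X 1 * X 1) = p i 1 * p i 1
            rw [map_mul, eval_X]
          · change eval (p i) (X 0 * X 1) = p i 0 * p i 1
            rw [map_mul, eval_X, eval_X]
          · change eval (p i) (X 0 * X 2) = p i 0 * p i 2
            rw [map_mul, eval_X, eval_X]
        rw [e1]
        exact hG3 i)
      rw [aeval_ph hL hG1 hT] at h1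
      refine Tr.vanishTo_of_eval_ne h1 ?_
      rw [map_mul, map_pow, map_pow, eval_X, eval_X]
      exact mul_ne_zero (pow_ne_zero _ (hp i 0)) (pow_ne_zero _ (hp i 1))

/-- higher degree -/
theorem kills_shift {H R L k N A : ℕ} (hL : 1 ≤ L) (hRH : R + 1 ≤ H)
    (hK : Kills (R + L - 1) k N
      {α | α ∈ rect (R + 1) L ∧ (α 2 < R ∨ (α 2 = R ∧ α 0 < A))}) :
    Kills (H + L - 2) k N {α | α ∈ rect H L ∧ (α 2 < R ∨ (α 2 = R ∧ α 0 < A))} := by
  obtain ⟨p, hp, hK⟩ := hK
  refine ⟨p, hp, fun G hG1 hG2 hG3 => ?_⟩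
  have e1 : H + L - 2 = (R + L - 1) + (H - R - 1) := by omega
  obtain ⟨G', hG'1, hG'2, hG'3⟩ := exists_div_X1 (F := G) (δ := R + L - 1)
    (u := H - R - 1) (by rw [← e1]; exact hG1) (fun α hα => by
      have h1 := deg_eq hG1 hα
      have h2 := hG2 α hα
      have h3 : α 0 < L := h2.1.2
      have h4 := h2.2
      omega)
  rw [hG'2, hK G' hG'1 (fun β hβ => ?_) (fun i => ?_), mul_zero]
  · rw [MvPolynomial.mem_support_iff, hG'3] at hβ
    have h1 := hG2 _ (mem_support_iff.mpr hβ)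
    have h2 := h1.1.2
    have h3 := h1.2
    rw [(single1_apply _ β).1] at h2
    rw [(single1_apply _ β).1, (single1_apply _ β).2] at h3
    refine ⟨⟨by omega, h2⟩, h3⟩
  · have h1 := hG3 i
    rw [hG'2] at h1
    exact vanishTo_of_X1 (hp i 1) h1

end VS

theorem rect_strip_gen {H L k N r R B : ℕ} (hR1 : 1 ≤ R) (hRH : R + 1 ≤ H) (hL : 2 ≤ L)
    (hB : B ≤ L) (h1 : hR (R + 1) L k N ≤ B) (h0 : hR R L k N = 0) :
    hR H L k (r + N) ≤ max (hR (H - R) L k r - (L - B)) (hR (H - R - 1) L k r) := by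
  have hL1 : 1 ≤ L := by omega
  have hK := VS.kills_shift hL1 hRH (VS.kills_rev hL1 hB (VS.kills_top hR1 hL1 h1 h0))
  have e1 : H + L - 3 - R + 1 + R = H + L - 2 := by omega
  have e2 : H + L - 3 - R + 1 = H - R + L - 2 := by omega
  have e3 : H + L - 3 - R = H - R - 1 + L - 2 := by omega
  rw [← e1] at hK
  have h2 := peel (r := r) hR1 (A := L - B) (by omega) (T := rect H L)
    (fun α' β' h3 h4 h5 _ => ⟨by rw [h4]; exact h3.1, lt_of_le_of_lt h5 h3.2⟩) hK
  have e4 : {γ : Fin 3 →₀ ℕ | γ + Finsupp.single 2 R ∈ rect H L} = rect (H - R) L := by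
    ext γ
    constructor
    · rintro ⟨h3, h4⟩
      rw [Finsupp.add_apply, Finsupp.single_eq_same] at h3
      rw [Finsupp.add_apply, Finsupp.single_eq_of_ne (by decide), add_zero] at h4
      exact ⟨by omega, h4⟩
    · rintro ⟨h3, h4⟩
      refine ⟨?_, ?_⟩
      · rw [Finsupp.add_apply, Finsupp.single_eq_same]
        omega
      · rw [Finsupp.add_apply, Finsupp.single_eq_of_ne (by decide), add_zero]
        exact h4
  have e5 : {γ : Fin 3 →₀ ℕ | γ + Finsupp.single 2 (R + 1) ∈ rect H L} = rect (H - R - 1) L := by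
    ext γ
    constructor
    · rintro ⟨h3, h4⟩
      rw [Finsupp.add_apply, Finsupp.single_eq_same] at h3
      rw [Finsupp.add_apply, Finsupp.single_eq_of_ne (by decide), add_zero] at h4
      exact ⟨by omega, h4⟩
    · rintro ⟨h3, h4⟩
      refine ⟨?_, ?_⟩
      · rw [Finsupp.add_apply, Finsupp.single_eq_same]
        omega
      · rw [Finsupp.add_apply, Finsupp.single_eq_of_ne (by decide), add_zero]
        exact h4
  rw [e1, e2, e3, e4, e5] at h2
  exact h2

end Pool.Agent.Work.MP_0421d9_ag.LD
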