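import Pool.Agent.Work.MP_0421d9_ag.VMatrix
import Pool.Agent.Work.MP_0421d9_ag.UTrans

/-!
Elementary transformations of rectangles: systems on `P¹ × P¹` with `2 t + e` points, `e ≤ 1`, are
transformed into systems with points of smaller multiplicity (helper25, after UTrans of helper79).
-/

namespace Pool.Agent.Work.MP_0421d9_ag.LD

open MvPolynomial Module

namespace Tv

section

variable {t e N : ℕ} {x c : Fin N → ℂ} (u : EU t e x c)

/-- first coordinate -/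
noncomputable def Y0 : R3 := bin t u.C' * X 0 + bin (t + e) u.E * X 1 ^ (1 - e)

/-- second coordinate -/
noncomputable def Y1 : R3 := bin t u.A * X 0 + bin (t + e) u.B * X 1 ^ (1 - e)

/-- the substitution -/
noncomputable def th : Fin 3 → R3 := ![X 1 * Y1 u, X 1 * Y0 u, X 2 * Y0 u]

theorem th_zero : th u 0 = X 1 * Y1 u := rfl
theorem th_one : th u 1 = X 1 * Y0 u := rfl
theorem th_two : th u 2 = X 2 * Y0 u := rfl

theorem Y_isHomogeneous (he : e ≤ 1) (f g : Polynomial ℂ) :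
    (bin t f * X 0 + bin (t + e) g * X 1 ^ (1 - e)).IsHomogeneous (t + 1) := by
  have h1 := (Tr.bin_isHomogeneous t f).mul (isHomogeneous_X ℂ (0 : Fin 3))
  have h2 := (Tr.bin_isHomogeneous (t + e) g).mul ((isHomogeneous_X ℂ (1 : Fin 3)).pow (1 - e))
  have e1 : t + e + 1 * (1 - e) = t + 1 := by omega
  rw [e1] at h2
  exact h1.add h2

theorem Y0_isHomogeneous (he : e ≤ 1) : (Y0 u).IsHomogeneous (t + 1) := Y_isHomogeneous he _ _

theorem Y1_isHomogeneous (he : e ≤ 1) : (Y1 u).IsHomogeneous (t + 1) := Y_isHomogeneous he _ _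

theorem degreeOf_zero_Y (f g : Polynomial ℂ) :
    degreeOf 0 (bin t f * X 0 + bin (t + e) g * X 1 ^ (1 - e) : R3) ≤ 1 := by
  refine (degreeOf_add_le _ _ _).trans (max_le ?_ ?_)
  · refine (degreeOf_mul_le _ _ _).trans ?_
    rw [Tr.degreeOf_zero_bin, degreeOf_X_self]
  · refine (degreeOf_mul_le _ _ _).trans ?_
    rw [Tr.degreeOf_zero_bin, degreeOf_X_pow_of_ne _ (by decide)]
    omega

theorem degreeOf_two_Y (f g : Polynomial ℂ) :
    degreeOf 2 (bin t f * X 0 + bin (t + e) g * X 1 ^ (1 - e) : R3) ≤ t + e := by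
  refine (degreeOf_add_le _ _ _).trans (max_le ?_ ?_)
  · refine (degreeOf_mul_le _ _ _).trans ?_
    rw [degreeOf_X_of_ne (by decide), add_zero]
    exact (Tr.degreeOf_two_bin _ _).trans (by omega)
  · refine (degreeOf_mul_le _ _ _).trans ?_
    rw [degreeOf_X_pow_of_ne _ (by decide), add_zero]
    exact Tr.degreeOf_two_bin _ _

/-- image of a monomial -/
noncomputable def pm (κ H : ℕ) (α : Fin 3 →₀ ℕ) : R3 :=
  X 2 ^ α 2 * X 1 ^ (H - 1 - α 2) * Y1 u ^ α 0 * Y0 u ^ (κ - α 0)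

/-- the transformation, before division -/
noncomputable def psi (κ H : ℕ) : R3 →ₗ[ℂ] R3 :=
  (basisMonomials (Fin 3) ℂ).constr ℂ (pm u κ H)

theorem psi_monomial (κ H : ℕ) (α : Fin 3 →₀ ℕ) (a : ℂ) :
    psi u κ H (monomial α a) = C a * pm u κ H α := by
  have h1 : (monomial α a : R3) = a • basisMonomials (Fin 3) ℂ α := by
    rw [coe_basisMonomials, smul_monomial, smul_eq_mul, mul_one]
  rw [h1, map_smul, smul_eq_C_mul]
  unfold psi
  rw [Basis.constr_basis]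

theorem psi_eq (κ H : ℕ) (F : R3) :
    psi u κ H F = ∑ α ∈ F.support, C (coeff α F) * pm u κ H α := by
  conv_lhs => rw [← support_sum_monomial_coeff F]
  rw [map_sum]
  exact Finset.sum_congr rfl (fun α _ => psi_monomial u κ H α _)

theorem aeval_th_monomial {κ H : ℕ} {α : Fin 3 →₀ ℕ} (h0 : α 0 ≤ κ) (h2 : α 2 + 1 ≤ H)
    (hα : α 0 + α 1 + α 2 = H - 1 + κ) (a : ℂ) :
    aeval (th u) (monomial α a) = (Y0 u ^ (H - 1) * X 1 ^ κ) * (C a * pm u κ H α) := by
  rw [aeval_monomial, Finsupp.prod_fintype _ _ (fun i => pow_zero _), Fin.prod_univ_three,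
    th_zero, th_one, th_two, algebraMap_eq]
  unfold pm
  have e1 : Y0 u ^ (H - 1) * Y0 u ^ (κ - α 0) = Y0 u ^ (α 1 + α 2) := by
    rw [← pow_add]
    congr 1
    omega
  have e2 : (X 1 : R3) ^ κ * X 1 ^ (H - 1 - α 2) = X 1 ^ (α 0 + α 1) := by
    rw [← pow_add]
    congr 1
    omega
  calc C a * ((X 1 * Y1 u) ^ α 0 * (X 1 * Y0 u) ^ α 1 * (X 2 * Y0 u) ^ α 2)
      = C a * (X 2 ^ α 2 * Y1 u ^ α 0 * (X 1 ^ (α 0 + α 1)) * (Y0 u ^ (α 1 + α 2))) := by
        rw [pow_add, pow_add]; ring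
    _ = _ := by rw [← e1, ← e2]; ring

theorem aeval_th {κ H : ℕ} {F : R3} (hF : F.IsHomogeneous (H - 1 + κ))
    (h0 : ∀ α, coeff α F ≠ 0 → α 0 ≤ κ ∧ α 2 + 1 ≤ H) :
    aeval (th u) F = (Y0 u ^ (H - 1) * X 1 ^ κ) * psi u κ H F := by
  rw [psi_eq, Finset.mul_sum]
  conv_lhs => rw [← support_sum_monomial_coeff F]
  rw [map_sum]
  refine Finset.sum_congr rfl (fun α hα => ?_)
  have h1 := deg_eq hF hα
  have h2 := h0 α (mem_support_iff.mp hα)
  exact aeval_th_monomial u h2.1 h2.2 h1 _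

theorem pm_isHomogeneous (he : e ≤ 1) {κ H : ℕ} {α : Fin 3 →₀ ℕ} (h0 : α 0 ≤ κ)
    (h2 : α 2 + 1 ≤ H) : (pm u κ H α).IsHomogeneous (H - 1 + κ * (t + 1)) := by
  unfold pm
  have h1 := ((((isHomogeneous_X ℂ (2 : Fin 3)).pow (α 2)).mul
    ((isHomogeneous_X ℂ (1 : Fin 3)).pow (H - 1 - α 2))).mul
    ((Y1_isHomogeneous u he).pow (α 0))).mul ((Y0_isHomogeneous u he).pow (κ - α 0))
  have e1 : 1 * α 2 + 1 * (H - 1 - α 2) + (t + 1) * α 0 + (t + 1) * (κ - α 0) =
      H - 1 + κ * (t + 1) := by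
    obtain ⟨j, hj⟩ := Nat.exists_eq_add_of_le h0
    obtain ⟨l, hl⟩ := Nat.exists_eq_add_of_le h2
    rw [hj, Nat.add_sub_cancel_left, hl]
    have e2 : α 2 + 1 + l - 1 = α 2 + l := by omega
    rw [e2, Nat.add_sub_cancel_left]
    ring
  rw [e1] at h1
  exact h1

theorem psi_isHomogeneous (he : e ≤ 1) {κ H : ℕ} {F : R3}
    (h0 : ∀ α, coeff α F ≠ 0 → α 0 ≤ κ ∧ α 2 + 1 ≤ H) :
    (psi u κ H F).IsHomogeneous (H - 1 + κ * (t + 1)) := by
  rw [psi_eq]
  refine IsHomogeneous.sum _ _ _ (fun α hα => ?_)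
  have h2 := h0 α (mem_support_iff.mp hα)
  exact (pm_isHomogeneous u he h2.1 h2.2).C_mul _

theorem degreeOf_pm_zero {κ H : ℕ} {α : Fin 3 →₀ ℕ} (h0 : α 0 ≤ κ) :
    degreeOf 0 (pm u κ H α) ≤ κ := by
  unfold pm
  refine (degreeOf_mul_le _ _ _).trans ?_
  refine (add_le_add ((degreeOf_mul_le _ _ _).trans (add_le_add (degreeOf_mul_le _ _ _) le_rfl))
    le_rfl).trans ?_
  rw [degreeOf_X_pow_of_ne _ (by decide), degreeOf_X_pow_of_ne _ (by decide)]
  have h1 := (degreeOf_pow_le 0 (Y1 u) (α 0)).trans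
    (Nat.mul_le_mul_left (α 0) (degreeOf_zero_Y (e := e) (t := t) u.A u.B))
  have h2 := (degreeOf_pow_le 0 (Y0 u) (κ - α 0)).trans
    (Nat.mul_le_mul_left (κ - α 0) (degreeOf_zero_Y (e := e) (t := t) u.C' u.E))
  omega

theorem degreeOf_pm_two {κ H : ℕ} {α : Fin 3 →₀ ℕ} (h0 : α 0 ≤ κ) (h2 : α 2 + 1 ≤ H) :
    degreeOf 2 (pm u κ H α) ≤ H - 1 + κ * (t + e) := by
  unfold pm
  refine (degreeOf_mul_le _ _ _).trans ?_
  refine (add_le_add ((degreeOf_mul_le _ _ _).trans (add_le_add (degreeOf_mul_le _ _ _) le_rfl))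
    le_rfl).trans ?_
  rw [degreeOf_X_self_pow, degreeOf_X_pow_of_ne _ (by decide)]
  have h1 := (degreeOf_pow_le 2 (Y1 u) (α 0)).trans
    (Nat.mul_le_mul_left (α 0) (degreeOf_two_Y (e := e) (t := t) u.A u.B))
  have h3 := (degreeOf_pow_le 2 (Y0 u) (κ - α 0)).trans
    (Nat.mul_le_mul_left (κ - α 0) (degreeOf_two_Y (e := e) (t := t) u.C' u.E))
  obtain ⟨j, hj⟩ := Nat.exists_eq_add_of_le h0
  rw [hj, Nat.add_sub_cancel_left] at h3 ⊢
  have e1 : (α 0 + j) * (t + e) = α 0 * (t + e) + j * (t + e) := by ring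
  omega

theorem degreeOf_psi {κ H n : ℕ} {i : Fin 3} {F : R3}
    (h : ∀ α ∈ F.support, degreeOf i (pm u κ H α) ≤ n) : degreeOf i (psi u κ H F) ≤ n := by
  rw [psi_eq]
  refine (degreeOf_sum_le _ _ _).trans (Finset.sup_le fun α hα => ?_)
  exact (degreeOf_C_mul_le _ _ _).trans (h α hα)

/-! ### values -/

theorem eval_Y0 (he : e ≤ 1) {i : Fin N} {v : V3} (h2 : v 2 = x i * v 1) :
    eval v (Y0 u) = v 1 ^ t * (u.C'.eval (x i) * (v 0 - c i * v 1)) := by
  unfold Y0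
  rw [map_add, map_mul, map_mul, map_pow, eval_X, eval_X,
    Tr.eval_bin_mul u.dC 1 (x i) (v 1) v (by ring) (by rw [h2]; ring),
    Tr.eval_bin_mul u.dE 1 (x i) (v 1) v (by ring) (by rw [h2]; ring)]
  have h3 : u.E.eval (x i) = - (u.C'.eval (x i) * c i) := by
    linear_combination u.hC i
  have h4 : v 1 ^ (t + e) * v 1 ^ (1 - e) = v 1 ^ t * v 1 := by
    rw [← pow_add, ← pow_succ]
    congr 1
    omega
  rw [h3]
  linear_combination (- (u.C'.eval (x i) * c i)) * h4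

theorem eval_Y1 (he : e ≤ 1) {i : Fin N} {v : V3} (h2 : v 2 = x i * v 1) :
    eval v (Y1 u) = v 1 ^ t * (u.A.eval (x i) * (v 0 - c i * v 1)) := by
  unfold Y1
  rw [map_add, map_mul, map_mul, map_pow, eval_X, eval_X,
    Tr.eval_bin_mul u.dA 1 (x i) (v 1) v (by ring) (by rw [h2]; ring),
    Tr.eval_bin_mul u.dB 1 (x i) (v 1) v (by ring) (by rw [h2]; ring)]
  have h3 : u.B.eval (x i) = - (u.A.eval (x i) * c i) := by
    linear_combination u.hA i
  have h4 : v 1 ^ (t + e) * v 1 ^ (1 - e) = v 1 ^ t * v 1 := by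
    rw [← pow_add, ← pow_succ]
    congr 1
    omega
  rw [h3]
  linear_combination (- (u.A.eval (x i) * c i)) * h4

/-- the old points -/
noncomputable def pp (i : Fin N) : V3 := ![u.A.eval (x i) / u.C'.eval (x i), 1, x i]

theorem eval_th (he : e ≤ 1) {i : Fin N} {v : V3} (h2 : v 2 = x i * v 1) :
    (fun j => eval v (th u j)) = (v 1 * eval v (Y0 u)) • pp u i := by
  have hc := u.hC0 i
  funext j
  fin_cases j
  · change eval v (X 1 * Y1 u) = v 1 * eval v (Y0 u) * (u.A.eval (x i) / u.C'.eval (x i))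
    rw [map_mul, eval_X, eval_Y1 u he h2, eval_Y0 u he h2]
    field_simp
  · change eval v (X 1 * Y0 u) = v 1 * eval v (Y0 u) * 1
    rw [map_mul, eval_X, mul_one]
  · change eval v (X 2 * Y0 u) = v 1 * eval v (Y0 u) * x i
    rw [map_mul, eval_X, h2]
    ring

/-! ### the inverse -/

/-- the determinant -/
noncomputable def dt : R3 := bin t u.A * bin (t + e) u.E - bin (t + e) u.B * bin t u.C'

/-- denominator of the inverse -/
noncomputable def U0 : R3 := bin t u.A * X 1 - bin t u.C' * X 0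

/-- numerator of the inverse -/
noncomputable def U1 : R3 := bin (t + e) u.E * X 0 - bin (t + e) u.B * X 1

/-- the inverse -/
noncomputable def iv (v : V3) : V3 :=
  ![v 1 ^ (1 - e) * eval v (U1 u), v 1 * eval v (U0 u), v 2 * eval v (U0 u)]

theorem eval_bin_iv (n : ℕ) (f : Polynomial ℂ) (v : V3) :
    eval (iv u v) (bin n f) = eval v (U0 u) ^ n * eval v (bin n f) := by
  refine Tr.eval_bin_smul n f (eval v (U0 u)) v (iv u v) ?_ ?_
  · change v 1 * eval v (U0 u) = _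
    ring
  · change v 2 * eval v (U0 u) = _
    ring

theorem pow_aux (he : e ≤ 1) (z : ℂ) : z ^ (t + e) * z ^ (1 - e) = z ^ t * z := by
  rw [← pow_add, ← pow_succ]
  congr 1
  omega

theorem eval_iv_Y0 (he : e ≤ 1) (v : V3) : eval (iv u v) (Y0 u) =
    eval v (U0 u) ^ t * v 1 ^ (1 - e) * (v 1 * eval v (dt u)) := by
  have h1 := pow_aux (t := t) he (eval v (U0 u))
  unfold Y0
  rw [map_add, map_mul, map_mul, map_pow, eval_X, eval_X, eval_bin_iv, eval_bin_iv]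
  change _ * (v 1 ^ (1 - e) * eval v (U1 u)) + _ * (v 1 * eval v (U0 u)) ^ (1 - e) = _
  have h2 : eval v (U0 u) ^ (t + e) * eval v (bin (t + e) u.E) *
      (v 1 * eval v (U0 u)) ^ (1 - e) =
      eval v (U0 u) ^ t * v 1 ^ (1 - e) * (eval v (bin (t + e) u.E) * eval v (U0 u)) := by
    rw [mul_pow]
    linear_combination (eval v (bin (t + e) u.E) * v 1 ^ (1 - e)) * h1
  rw [h2]
  unfold U1 dt
  generalize hU : eval v (U0 u) ^ t = P
  unfold U0
  simp only [map_sub, map_mul, eval_X]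
  ring

theorem eval_iv_Y1 (he : e ≤ 1) (v : V3) : eval (iv u v) (Y1 u) =
    eval v (U0 u) ^ t * v 1 ^ (1 - e) * (v 0 * eval v (dt u)) := by
  have h1 := pow_aux (t := t) he (eval v (U0 u))
  unfold Y1
  rw [map_add, map_mul, map_mul, map_pow, eval_X, eval_X, eval_bin_iv, eval_bin_iv]
  change _ * (v 1 ^ (1 - e) * eval v (U1 u)) + _ * (v 1 * eval v (U0 u)) ^ (1 - e) = _
  have h2 : eval v (U0 u) ^ (t + e) * eval v (bin (t + e) u.B) *
      (v 1 * eval v (U0 u)) ^ (1 - e) =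
      eval v (U0 u) ^ t * v 1 ^ (1 - e) * (eval v (bin (t + e) u.B) * eval v (U0 u)) := by
    rw [mul_pow]
    linear_combination (eval v (bin (t + e) u.B) * v 1 ^ (1 - e)) * h1
  rw [h2]
  unfold U1 dt
  generalize hU : eval v (U0 u) ^ t = P
  unfold U0
  simp only [map_sub, map_mul, eval_X]
  ring

theorem eval_iv_th (he : e ≤ 1) (v : V3) : (fun j => eval (iv u v) (th u j)) =
    (eval v (U0 u) ^ (t + 1) * (v 1 ^ (2 - e) * eval v (dt u))) • v := by
  have h1 : v 1 ^ (2 - e) = v 1 ^ (1 - e) * v 1 := by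
    rw [← pow_succ]
    congr 1
    omega
  rw [h1]
  funext j
  fin_cases j
  · change eval (iv u v) (X 1 * Y1 u) = _ * v 0
    rw [map_mul, eval_X, eval_iv_Y1 u he]
    change v 1 * eval v (U0 u) * _ = _
    ring
  · change eval (iv u v) (X 1 * Y0 u) = _ * v 1
    rw [map_mul, eval_X, eval_iv_Y0 u he]
    change v 1 * eval v (U0 u) * _ = _
    ring
  · change eval (iv u v) (X 2 * Y0 u) = _ * v 2
    rw [map_mul, eval_X, eval_iv_Y0 u he]
    change v 2 * eval v (U0 u) * _ = _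
    ring

theorem dt_ne_zero : dt u ≠ 0 := by
  intro h
  apply u.hdet
  apply Polynomial.funext
  intro z
  have h1 := congrArg (eval (![0, 1, z] : V3)) h
  have h2 : ∀ {n : ℕ} {f : Polynomial ℂ}, f.natDegree ≤ n →
      eval (![0, 1, z] : V3) (bin n f) = f.eval z := by
    intro n f hf
    rw [Tr.eval_bin_mul hf 1 z 1 ![0, 1, z] (by simp) (by simp)]
    ring
  unfold dt at h1
  rw [map_sub, map_mul, map_mul, h2 u.dA, h2 u.dE, h2 u.dB, h2 u.dC, map_zero] at h1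
  rw [Polynomial.eval_sub, Polynomial.eval_mul, Polynomial.eval_mul, Polynomial.eval_zero]
  exact h1

theorem U0_ne_zero (i : Fin N) : U0 u ≠ 0 := by
  intro h
  apply u.hC0 i
  have h1 : ∀ s : ℂ, eval (![s, 1, x i] : V3) (U0 u) = u.A.eval (x i) - u.C'.eval (x i) * s := by
    intro s
    unfold U0
    rw [map_sub, map_mul, map_mul, eval_X, eval_X,
      Tr.eval_bin_mul u.dA 1 (x i) 1 ![s, 1, x i] (by simp) (by simp),
      Tr.eval_bin_mul u.dC 1 (x i) 1 ![s, 1, x i] (by simp) (by simp)]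
    simp
  have h2 := h1 0
  have h3 := h1 1
  rw [h, map_zero] at h2 h3
  linear_combination h3 - h2

/-- the transformation is injective -/
theorem eq_zero_of_aeval_th (he : e ≤ 1) {D : ℕ} {F : R3} (hF : F.IsHomogeneous D) (i : Fin N)
    (h : aeval (th u) F = 0) : F = 0 := by
  have h1 : F * (U0 u ^ (t + 1) * (X 1 ^ (2 - e) * dt u)) = 0 := by
    apply MvPolynomial.funext
    intro v
    rw [map_zero, map_mul, map_mul, map_mul, map_pow, map_pow, eval_X]
    set s := eval v (U0 u) ^ (t + 1) * (v 1 ^ (2 - e) * eval v (dt u)) with hs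
    have h2 : eval (s • v) F = 0 := by
      rw [← eval_iv_th u he v]
      have h3 : ∀ p : R3, eval (iv u v) (aeval (th u) p) =
          eval (fun l => eval (iv u v) (th u l)) p := by
        intro p
        induction p using MvPolynomial.induction_on with
        | C c => rw [← algebraMap_eq, AlgHom.commutes, algebraMap_eq, eval_C, eval_C]
        | add p q hp hq => rw [map_add, map_add, hp, hq, map_add]
        | mul_X p n hp => rw [map_mul, aeval_X, map_mul, hp, map_mul, eval_X]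
      rw [← h3, h, map_zero]
    rw [eval_smul_of_homogeneous hF] at h2
    by_cases hs0 : s = 0
    · rw [hs0, mul_zero]
    · rw [(mul_eq_zero.mp h2).resolve_left (pow_ne_zero _ hs0), zero_mul]
  refine (mul_eq_zero.mp h1).resolve_right ?_
  exact mul_ne_zero (pow_ne_zero _ (U0_ne_zero u i))
    (mul_ne_zero (pow_ne_zero _ (X_ne_zero _)) (dt_ne_zero u))

/-! ### divisibility -/

theorem lv_not_dvd_Y0 (he : e ≤ 1) (i : Fin N) : ¬ lin (Tr.lv (x i)) ∣ X 1 * Y0 u := by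
  rintro ⟨g, hg⟩
  have h1 := congrArg (eval (![c i + 1, 1, x i] : V3)) hg
  rw [map_mul, map_mul, Tr.eval_lv, eval_X, eval_Y0 u he (i := i) (by simp)] at h1
  simp only [Matrix.cons_val, Matrix.cons_val_one, Matrix.cons_val_zero, mul_one, sub_self,
    zero_mul, one_pow, one_mul, add_sub_cancel_left] at h1
  exact u.hC0 i h1

/-- divisibility by the equation of a fibre -/
theorem lv_pow_dvd (he : e ≤ 1) {κ H m : ℕ} {F : R3} (hF : F.IsHomogeneous (H - 1 + κ))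
    (h0 : ∀ α, coeff α F ≠ 0 → α 0 ≤ κ ∧ α 2 + 1 ≤ H) {i : Fin N}
    (hv : VanishTo F (pp u i) m) : lin (Tr.lv (x i)) ^ m ∣ psi u κ H F := by
  refine lin_pow_dvd (Tr.lv_ne_zero _) (lv_not_dvd_Y0 u he i) (fun v hu hW => ?_)
  rw [Tr.eval_lv, sub_eq_zero] at hu
  rw [map_mul, eval_X] at hW
  have h1 := vanishTo_smul hF hW hv
  rw [← eval_th u he hu] at h1
  have h2 := vanishTo_comp (th u) h1
  rw [aeval_th u hF h0] at h2
  refine Tr.vanishTo_of_eval_ne h2 ?_
  rw [map_mul, map_pow, map_pow, eval_X]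
  exact mul_ne_zero (pow_ne_zero _ (right_ne_zero_of_mul hW))
    (pow_ne_zero _ (left_ne_zero_of_mul hW))

theorem Pr_dvd (he : e ≤ 1) {κ H m : ℕ} (hx : Function.Injective x) {F : R3}
    (hF : F.IsHomogeneous (H - 1 + κ)) (h0 : ∀ α, coeff α F ≠ 0 → α 0 ≤ κ ∧ α 2 + 1 ≤ H)
    (hv : ∀ i, VanishTo F (pp u i) m) : Tr.Pr x m ∣ psi u κ H F := by
  unfold Tr.Pr
  refine Fintype.prod_dvd_of_isRelPrime ?_ (fun i => lv_pow_dvd u he hF h0 (hv i))
  intro i j hij
  exact Tr.isRelPrime_lv (fun h => hij (hx h)) m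

theorem vanishTo_psi (he : e ≤ 1) {κ H : ℕ} {F : R3}
    (h0 : ∀ α, coeff α F ≠ 0 → α 0 ≤ κ ∧ α 2 + 1 ≤ H) {i : Fin N} {a : V3}
    (h2 : a 2 = x i * a 1) (ha : c i * a 1 = a 0) : VanishTo (psi u κ H F) a κ := by
  have hY0 : VanishTo (Y0 u) a 1 := by
    rw [vanishTo_one_iff', eval_Y0 u he h2, ha, sub_self, mul_zero, mul_zero]
  have hY1 : VanishTo (Y1 u) a 1 := by
    rw [vanishTo_one_iff', eval_Y1 u he h2, ha, sub_self, mul_zero, mul_zero]
  rw [psi_eq]
  refine Tr.vanishTo_sum _ _ (fun α hα => ?_)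
  have h1 := (h0 α (mem_support_iff.mp hα)).1
  have h3 : VanishTo (pm u κ H α) a κ := by
    unfold pm
    have h4 := VanishTo.mul (VanishTo.mul (vanishTo_zero (X 2 ^ α 2 * X 1 ^ (H - 1 - α 2)) a)
      (Tr.vanishTo_pow hY1 (α 0))) (Tr.vanishTo_pow hY0 (κ - α 0))
    have e1 : 0 + α 0 + (κ - α 0) = κ := by omega
    rwa [e1] at h4
  have h5 := VanishTo.mul (vanishTo_zero (C (coeff α F)) a) h3
  rwa [zero_add] at h5

/-- the quotient -/
theorem exists_quot (he : e ≤ 1) {κ H k μ : ℕ} (hx : Function.Injective x) (hκ : κ = k + μ)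
    {q : Fin N → V3} (hq1 : ∀ i, q i 1 ≠ 0)
    (hqx : ∀ i, q i 2 = x i * q i 1) (hqc : ∀ i, c i * q i 1 = q i 0)
    {F : R3} (hF : F.IsHomogeneous (H - 1 + κ))
    (h0 : ∀ α, coeff α F ≠ 0 → α 0 ≤ κ ∧ α 2 + 1 ≤ H)
    (hv : ∀ i, VanishTo F (pp u i) k) :
    ∃ G : R3, psi u κ H F = Tr.Pr x k * G ∧ (G ≠ 0 → k * N ≤ H - 1 + κ * (t + 1) ∧
      degreeOf 2 G + k * N ≤ H - 1 + κ * (t + e)) ∧
      G.IsHomogeneous (H - 1 + κ * (t + 1) - k * N) ∧ degreeOf 0 G ≤ κ ∧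
      ∀ i, VanishTo G (q i) μ := by
  by_cases hpsi : psi u κ H F = 0
  · refine ⟨0, by rw [hpsi, mul_zero], fun h => absurd rfl h, isHomogeneous_zero _ _ _, ?_,
      fun i => ?_⟩
    · rw [degreeOf_zero]
      exact Nat.zero_le _
    · exact (vanSub (q i) μ).zero_mem
  obtain ⟨G₀, hG₀⟩ := Pr_dvd u he hx hF h0 hv
  have hhom := psi_isHomogeneous u he h0
  -- the degree
  have hdeg : k * N ≤ H - 1 + κ * (t + 1) := by
    by_contra hcon
    apply hpsi
    rw [← homogeneousComponent_eq_self hhom, hG₀]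
    exact homogeneousComponent_mul_lt (Tr.Pr_isHomogeneous k) (by omega) G₀
  set d := H - 1 + κ * (t + 1) - k * N with hd
  set G := homogeneousComponent d G₀ with hG
  have hPG : psi u κ H F = Tr.Pr x k * G := by
    rw [hG, ← homogeneousComponent_mul (Tr.Pr_isHomogeneous k), ← hG₀]
    have e1 : k * N + d = H - 1 + κ * (t + 1) := by omega
    rw [e1, homogeneousComponent_eq_self hhom]
  have hG0 : G ≠ 0 := by
    intro h
    exact hpsi (by rw [hPG, h, mul_zero])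
  have hGhom : G.IsHomogeneous d := homogeneousComponent_isHomogeneous d G₀
  have hdeg0 : degreeOf 0 G ≤ κ := by
    have h1 : degreeOf 0 (psi u κ H F) ≤ κ :=
      degreeOf_psi u (fun α hα => degreeOf_pm_zero u (h0 α (mem_support_iff.mp hα)).1)
    rw [hPG, degreeOf_mul_eq (Tr.Pr_ne_zero k) hG0] at h1
    omega
  have hdeg2 : degreeOf 2 G + k * N ≤ H - 1 + κ * (t + e) := by
    have h1 : degreeOf 2 (psi u κ H F) ≤ H - 1 + κ * (t + e) :=
      degreeOf_psi u (fun α hα => degreeOf_pm_two u (h0 α (mem_support_iff.mp hα)).1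
        (h0 α (mem_support_iff.mp hα)).2)
    rw [hPG, degreeOf_mul_eq (Tr.Pr_ne_zero k) hG0, Tr.degreeOf_Pr] at h1
    omega
  refine ⟨G, hPG, fun _ => ⟨hdeg, hdeg2⟩, hGhom, hdeg0, fun i => ?_⟩
  have h1 := vanishTo_psi u he h0 (hqx i) (hqc i)
  rw [hPG] at h1
  have h2 : Tr.Pr x k = lin (Tr.lv (x i)) ^ k * ∏ j ∈ Finset.univ.erase i, lin (Tr.lv (x j)) ^ k := by
    exact (Finset.mul_prod_erase Finset.univ (fun j => lin (Tr.lv (x j)) ^ k)
      (Finset.mem_univ i)).symm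
  rw [h2, mul_assoc] at h1
  have h3 := Tr.vanishTo_of_pow_mul (Tr.lv_ne_zero _) (by rw [Tr.eval_lv, hqx i, sub_self]) h1
  have e1 : κ - k = μ := by omega
  rw [e1] at h3
  refine Tr.vanishTo_of_eval_ne h3 ?_
  rw [map_prod]
  refine Finset.prod_ne_zero_iff.mpr (fun j hj => ?_)
  rw [map_pow, Tr.eval_lv, hqx i, ← sub_mul]
  refine pow_ne_zero _ (mul_ne_zero (sub_ne_zero.mpr fun h => ?_) (hq1 i))
  exact (Finset.ne_of_mem_erase hj) (hx h).symm

end

/-- the dimension count -/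
theorem finrank_le {t e H κ k : ℕ} (ht : 1 ≤ t) (he : e ≤ 1)
    {W : Submodule ℂ R3} [Module.Finite ℂ W] (hH : 1 ≤ H)
    (hW : ∀ u : EU t e (fun i => gpt (2 * t + e) i 2 / gpt (2 * t + e) i 1)
      (fun i => gpt (2 * t + e) i 0 / gpt (2 * t + e) i 1), ∀ F : R3,
      F.IsHomogeneous (H - 1 + κ) → (∀ α, coeff α F ≠ 0 → α 0 ≤ κ ∧ α 2 + 1 ≤ H) →
      (∀ i, VanishTo F (pp u i) k) →
      ∃ G ∈ W, psi u κ H F = Tr.Pr (fun i => gpt (2 * t + e) i 2 / gpt (2 * t + e) i 1) k * G) :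
    hR H (κ + 1) k (2 * t + e) ≤ finrank ℂ W := by
  classical
  set q := gpt (2 * t + e) with hq
  have hgen := gpt_generic (2 * t + e)
  rw [← hq] at hgen
  obtain ⟨u⟩ := exists_EU ht he hgen
  refine (hT_le (pp u)).trans ?_
  have e1 : H + (κ + 1) - 2 = H - 1 + κ := by omega
  rw [e1]
  set V := TS (H - 1 + κ) (rect H (κ + 1)) k (pp u) with hV
  have hmem : ∀ F ∈ V, F.IsHomogeneous (H - 1 + κ) ∧ (∀ i, VanishTo F (pp u i) k) ∧
      ∀ α, coeff α F ≠ 0 → α 0 ≤ κ ∧ α 2 + 1 ≤ H := by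
    intro F hF
    rw [hV, mem_TS] at hF
    refine ⟨hF.1, hF.2.1, fun α hα => ?_⟩
    obtain ⟨h1, h2⟩ := hF.2.2 α hα
    exact ⟨by omega, by omega⟩
  have h1 : V.map (psi u κ H) ≤
      W.map (LinearMap.mulLeft ℂ (Tr.Pr (fun i => q i 2 / q i 1) k)) := by
    rintro _ ⟨F, hF, rfl⟩
    obtain ⟨h2, h3, h4⟩ := hmem F hF
    obtain ⟨G, hG, hFG⟩ := hW u F h2 h4 h3
    exact ⟨G, hG, by rw [LinearMap.mulLeft_apply, ← hFG]⟩
  have h2 : finrank ℂ V = finrank ℂ ↥(V.map (psi u κ H)) := by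
    have h3 : Function.Injective ((psi u κ H) ∘ₗ V.subtype) := by
      rw [← LinearMap.ker_eq_bot, Submodule.eq_bot_iff]
      intro F hF
      rw [LinearMap.mem_ker, LinearMap.comp_apply] at hF
      apply Subtype.ext
      obtain ⟨h4, h5, h6⟩ := hmem F.1 F.2
      refine eq_zero_of_aeval_th u he h4 ⟨0, by omega⟩ ?_
      rw [aeval_th u h4 h6]
      change psi u κ H F.1 = 0 at hF
      rw [hF, mul_zero]
    have h4 := LinearMap.finrank_range_of_inj h3
    rw [LinearMap.range_comp, Submodule.range_subtype] at h4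
    exact h4.symm
  rw [h2]
  exact (Submodule.finrank_mono h1).trans (Submodule.finrank_map_le _ _)

end Tv

theorem transform_even {H H' κ k μ t : ℕ} (ht : 1 ≤ t) (hκ : κ = k + μ)
    (hH : H' + t * k = H + t * μ) :
    hR H (κ + 1) k (2 * t) ≤ hR H' (κ + 1) μ (2 * t) := by
  rcases Nat.eq_zero_or_pos H with hH0 | hH0
  · subst hH0
    rw [hR_zero]
    exact Nat.zero_le _
  have hgen := gpt_generic (2 * t + 0)
  have hx := Mx.gen_injective hgen
  refine (Tv.finrank_le (e := 0) (κ := κ) (H := H) (k := k)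
    (W := TS (H' + (κ + 1) - 2) (rect H' (κ + 1)) μ (gpt (2 * t + 0))) ht (by omega) hH0
    (fun u F hF h0 hv => ?_))
  obtain ⟨G, h1, h2, h3, h4, h5⟩ := Tv.exists_quot u (by omega) hx hκ (q := gpt (2 * t + 0))
    (fun i => Mx.gen_ne hgen i 1)
    (fun i => by rw [div_mul_cancel₀ _ (Mx.gen_ne hgen i 1)])
    (fun i => by rw [div_mul_cancel₀ _ (Mx.gen_ne hgen i 1)]) hF h0 hv
  refine ⟨G, ?_, h1⟩
  by_cases hG : G = 0
  · rw [hG]
    exact Submodule.zero_mem _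
  obtain ⟨h6, h7⟩ := h2 hG
  have e1 : k * (2 * t + 0) = t * k + t * k := by ring
  have e2 : κ * (t + 1) = t * k + t * μ + κ := by rw [hκ]; ring
  have e3 : κ * (t + 0) = t * k + t * μ := by rw [hκ]; ring
  rw [e1] at h3 h6 h7
  rw [e2] at h3 h6
  rw [e3] at h7
  rw [mem_TS]
  refine ⟨?_, h5, fun α hα => ?_⟩
  · have e4 : H' + (κ + 1) - 2 = H - 1 + (t * k + t * μ + κ) - (t * k + t * k) := by omega
    rw [e4]
    exact h3
  · have h8 := monomial_le_degreeOf 0 (mem_support_iff.mpr hα)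
    have h9 := monomial_le_degreeOf 2 (mem_support_iff.mpr hα)
    constructor
    · omega
    · omega

theorem transform_odd {H D κ k μ t : ℕ} (ht : 1 ≤ t) (hκ : κ = k + μ)
    (hD : D + 1 + t * k = H + t * μ + μ) :
    hR H (κ + 1) k (2 * t + 1) ≤ hF D κ μ (2 * t + 1) := by
  rcases Nat.eq_zero_or_pos H with hH0 | hH0
  · subst hH0
    rw [hR_zero]
    exact Nat.zero_le _
  rw [hF_swap]
  have hgen := gpt_generic (2 * t + 1)
  have hx := Mx.gen_injective hgen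
  refine (Tv.finrank_le (e := 1) (κ := κ) (H := H) (k := k)
    (W := TS D {α | α 0 ≤ κ} μ (gpt (2 * t + 1))) ht (by omega) hH0
    (fun u F hF h0 hv => ?_))
  obtain ⟨G, h1, h2, h3, h4, h5⟩ := Tv.exists_quot u (by omega) hx hκ (q := gpt (2 * t + 1))
    (fun i => Mx.gen_ne hgen i 1)
    (fun i => by rw [div_mul_cancel₀ _ (Mx.gen_ne hgen i 1)])
    (fun i => by rw [div_mul_cancel₀ _ (Mx.gen_ne hgen i 1)]) hF h0 hv
  refine ⟨G, ?_, h1⟩
  by_cases hG : G = 0
  · rw [hG]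
    exact Submodule.zero_mem _
  obtain ⟨h6, h7⟩ := h2 hG
  have e1 : k * (2 * t + 1) = t * k + t * k + k := by ring
  have e2 : κ * (t + 1) = t * k + t * μ + k + μ := by rw [hκ]; ring
  rw [e1] at h3 h6
  rw [e2] at h3 h6
  rw [mem_TS]
  refine ⟨?_, h5, fun α hα => ?_⟩
  · have e4 : D = H - 1 + (t * k + t * μ + k + μ) - (t * k + t * k + k) := by omega
    rw [e4]
    exact h3
  · have h8 := monomial_le_degreeOf 0 (mem_support_iff.mpr hα)
    change α 0 ≤ κ
    omega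

end Pool.Agent.Work.MP_0421d9_ag.LD
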