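import Pool.Agent.Work.MP_0421d9_ag.VPar
import Pool.Agent.Work.MP_0421d9_ag.VStrip
import Pool.Agent.Work.MP_0421d9_ag.VTrans

/-!
The medium strip with an odd number of points (helper7, after the plan of helper13).

An odd number of points of multiplicity `k` on `R × L` with `R` close to `3 k / 2` is transformed
into points of multiplicity `μ` close to `k / 2` and forms of degree `D` with at most `3 μ + ν`
in `X 2`. Three thin strips, each with an odd number of points, fill this system.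
-/

namespace Pool.Agent.Work.MP_0421d9_ag.LD

open MvPolynomial Module

/-! ### the number of monomials -/

/-- the number of monomials of degree `D` with exponent of `X 2` at most `κ` -/
def voN (D κ : ℕ) : ℤ := (κ + 1) * (D + 1) - (((κ + 1).choose 2 : ℕ) : ℤ)

theorem vo_two_choose (n : ℕ) : 2 * (((n + 1).choose 2 : ℕ) : ℤ) = n * (n + 1) := by
  exact_mod_cast two_mul_choose n

theorem two_voN (D κ : ℕ) : 2 * voN D κ = (κ + 1) * (2 * D + 2 - κ) := by
  have h := vo_two_choose κ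
  unfold voN
  linear_combination -h

/-- maximal rank of the system of forms of degree `D` and degree at most `κ` in `X 2` -/
def voF (D κ μ N : ℕ) : Prop :=
  (hF D κ μ N : ℤ) ≤ max 0 (voN D κ - N * (((μ + 1).choose 2 : ℕ) : ℤ))

theorem voN_succ {D κ : ℕ} (hκ : 1 ≤ κ) : voN D κ = voN D (κ - 1) + (D - κ + 1) := by
  obtain ⟨j, rfl⟩ : ∃ j, κ = j + 1 := ⟨κ - 1, by omega⟩
  have h1 := two_voN D (j + 1)
  have h2 := two_voN D j
  rw [Nat.add_sub_cancel]
  push_cast at h1 h2 ⊢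
  have h3 : 2 * voN D (j + 1) = 2 * (voN D j + ((D : ℤ) - (j + 1) + 1)) := by
    linear_combination h1 - h2
  linarith

/-- the rows below `κ` and the rest -/
theorem voN_split {D K κ : ℕ} (hκ : 1 ≤ κ) (hK : κ ≤ K) (hD : κ ≤ D) :
    voN D K = voN D (κ - 1) + voN (D - κ) (K - κ) := by
  obtain ⟨j, rfl⟩ : ∃ j, κ = j + 1 := ⟨κ - 1, by omega⟩
  obtain ⟨a, rfl⟩ : ∃ a, K = a + (j + 1) := ⟨K - (j + 1), by omega⟩
  obtain ⟨b, rfl⟩ : ∃ b, D = b + (j + 1) := ⟨D - (j + 1), by omega⟩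
  rw [Nat.add_sub_cancel, Nat.add_sub_cancel, Nat.add_sub_cancel]
  have h1 := two_voN (b + (j + 1)) (a + (j + 1))
  have h2 := two_voN (b + (j + 1)) j
  have h3 := two_voN b a
  push_cast at h1 h2 h3 ⊢
  have h4 : 2 * voN (b + (j + 1)) (a + (j + 1)) = 2 * (voN (b + (j + 1)) j + voN b a) := by
    linear_combination h1 - h2 - h3
  linarith

/-- the second rest -/
theorem voN_split' {D K κ : ℕ} (hK : κ + 1 ≤ K) (hD : κ + 1 ≤ D) :
    voN D K = voN D κ + voN (D - κ - 1) (K - κ - 1) := by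
  have h := voN_split (D := D) (K := K) (κ := κ + 1) (by omega) hK hD
  rwa [Nat.add_sub_cancel] at h

/-- at least `j` further rows -/
theorem voN_add (D n j : ℕ) : voN D n + j * (D + 1 - (n + j)) ≤ voN D (n + j) := by
  have h1 := two_voN D (n + j)
  have h2 := two_voN D n
  push_cast at h1
  have hj : (0 : ℤ) ≤ j := Int.natCast_nonneg j
  have hj2 : (j : ℤ) ≤ j * j := by
    rcases Nat.eq_zero_or_pos j with h | h
    · subst h; simp
    · have : (1 : ℤ) ≤ j := by exact_mod_cast h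
      nlinarith
  nlinarith

/-! ### few points -/

theorem voF_anti {D κ μ N N' : ℕ} (hN : N ≤ N') (h : voF D κ μ N')
    (hreg : (N' : ℤ) * (((μ + 1).choose 2 : ℕ) : ℤ) ≤ voN D κ) : voF D κ μ N := by
  unfold voF at h ⊢
  have h1 : hF D κ μ N ≤ hF D κ μ N' + (N' - N) * (μ + 1).choose 2 := hT_drop hN
  have h2 : (hF D κ μ N : ℤ) ≤ hF D κ μ N' + (N' - N) * (((μ + 1).choose 2 : ℕ) : ℤ) := by
    have h3 : ((hF D κ μ N : ℕ) : ℤ) ≤
        ((hF D κ μ N' + (N' - N) * (μ + 1).choose 2 : ℕ) : ℤ) := by exact_mod_cast h1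
    rw [Nat.cast_add, Nat.cast_mul, Nat.cast_sub hN] at h3
    exact h3
  rw [max_eq_right (by linarith)] at h
  refine le_trans ?_ (le_max_right _ _)
  linarith

theorem vo_hF_mono {D D' κ μ N : ℕ} (hD : D ≤ D') : hF D κ μ N ≤ hF D' κ μ N := by
  induction D', hD using Nat.le_induction with
  | base => exact le_rfl
  | succ n hn ih =>
    refine ih.trans (X_mul_le (fun α hα => ?_))
    change ((α + Finsupp.single 1 1 : Fin 3 →₀ ℕ)) 2 ≤ κ
    rw [Finsupp.add_apply, Finsupp.single_eq_of_ne (by decide), add_zero]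
    exact hα

/-! ### peeling one strip -/

theorem voF_step {D K κ μ t₁ p : ℕ} (hκ : 1 ≤ κ) (hK : κ + 1 ≤ K) (hD : K + 1 ≤ D)
    (hlo : voN D (κ - 1) ≤ (2 * t₁ + 1) * (((μ + 1).choose 2 : ℕ) : ℤ))
    (hhi : (2 * t₁ + 1) * (((μ + 1).choose 2 : ℕ) : ℤ) ≤ voN D κ)
    (h1 : voF D κ μ (2 * t₁ + 1)) (h0 : voF D (κ - 1) μ (2 * t₁ + 1))
    (hc1 : ∀ t, voF (D - κ) (K - κ) μ (2 * t + p))
    (hc2 : ∀ t, voF (D - κ - 1) (K - κ - 1) μ (2 * t + p))
    (hroom : (2 * t₁ + 1 + p) * (((μ + 1).choose 2 : ℕ) : ℤ) ≤ voN D K) {N : ℕ}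
    (hN : (N + p) % 2 = 1) : voF D K μ N := by
  have hmain : ∀ t, voF D K μ ((2 * t + p) + (2 * t₁ + 1)) := by
    intro t
    have e1 := voN_succ (D := D) hκ
    have e2 := voN_split (D := D) (K := K) (κ := κ) hκ (by omega) (by omega)
    have e3 := voN_split' (D := D) (K := K) (κ := κ) hK (by omega)
    obtain ⟨B, hB⟩ : ∃ B : ℕ, (B : ℤ) =
        voN D κ - (2 * t₁ + 1) * (((μ + 1).choose 2 : ℕ) : ℤ) :=
      ⟨_, Int.toNat_of_nonneg (by linarith)⟩
    have hBD : B ≤ D - κ + 1 := by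
      have : (B : ℤ) ≤ (D : ℤ) - κ + 1 := by linarith
      omega
    unfold voF at h1 h0
    push_cast at h1 h0
    rw [max_eq_right (by linarith), ← hB] at h1
    rw [max_eq_left (by linarith)] at h0
    have h1' : hF D κ μ (2 * t₁ + 1) ≤ B := by exact_mod_cast h1
    have h0' : hF D (κ - 1) μ (2 * t₁ + 1) = 0 := by
      have : hF D (κ - 1) μ (2 * t₁ + 1) ≤ 0 := by exact_mod_cast h0
      omega
    have h2 := hF_strip (r := 2 * t + p) hκ hK hD hBD h1' h0'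
    have h3 := hc1 t
    have h4 := hc2 t
    unfold voF at h3 h4 ⊢
    push_cast at h3 h4 ⊢
    generalize hF D K μ (2 * t + p + (2 * t₁ + 1)) = x at *
    generalize hF (D - κ) (K - κ) μ (2 * t + p) = x1 at *
    generalize hF (D - κ - 1) (K - κ - 1) μ (2 * t + p) = x2 at *
    have e4 : (2 * (t : ℤ) + p + (2 * t₁ + 1)) * (((μ + 1).choose 2 : ℕ) : ℤ) =
        (2 * t + p) * (((μ + 1).choose 2 : ℕ) : ℤ) +
          (2 * t₁ + 1) * (((μ + 1).choose 2 : ℕ) : ℤ) := by ring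
    rw [e4]
    generalize (2 * (t : ℤ) + p) * (((μ + 1).choose 2 : ℕ) : ℤ) = y1 at *
    generalize (2 * (t₁ : ℤ) + 1) * (((μ + 1).choose 2 : ℕ) : ℤ) = y2 at *
    generalize voN D K = n1 at *
    generalize voN D κ = n2 at *
    generalize voN D (κ - 1) = n3 at *
    generalize voN (D - κ) (K - κ) = n4 at *
    generalize voN (D - κ - 1) (K - κ - 1) = n5 at *
    omega
  by_cases hbig : 2 * t₁ + 1 + p ≤ N
  · have h2 := hmain ((N - (2 * t₁ + 1 + p)) / 2)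
    have e1 : 2 * ((N - (2 * t₁ + 1 + p)) / 2) + p + (2 * t₁ + 1) = N := by omega
    rwa [e1] at h2
  · have h2 := hmain 0
    refine voF_anti (by omega) h2 ?_
    have e1 : (((2 * 0 + p + (2 * t₁ + 1) : ℕ)) : ℤ) = 2 * t₁ + 1 + p := by push_cast; ring
    rw [e1]
    exact hroom

/-! ### the choice of the number of points -/

theorem vo_choose {D μ s x : ℕ} (hs : 1 ≤ s) (hμ : 1 ≤ μ) (hx : 1 ≤ x) (hxs : x + s ≤ μ)
    (hD : μ * (μ + 1) + s * (3 * μ) ≤ s * (D + 1)) :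
    ∃ t₁ ν₁ : ℕ, x ≤ ν₁ ∧ ν₁ + 1 ≤ x + s ∧
      voN D (μ + ν₁ - 1) ≤ (2 * (t₁ : ℤ) + 1) * (((μ + 1).choose 2 : ℕ) : ℤ) ∧
      (2 * (t₁ : ℤ) + 1) * (((μ + 1).choose 2 : ℕ) : ℤ) ≤ voN D (μ + ν₁) := by
  classical
  have hc := vo_two_choose μ
  set c : ℤ := (((μ + 1).choose 2 : ℕ) : ℤ) with hcdef
  have hμ' : (1 : ℤ) ≤ μ := by exact_mod_cast hμ
  have hs' : (1 : ℤ) ≤ s := by exact_mod_cast hs
  have hx' : (1 : ℤ) ≤ x := by exact_mod_cast hx
  have hxs' : (x : ℤ) + s ≤ μ := by exact_mod_cast hxs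
  have hD' : (μ : ℤ) * (μ + 1) + s * (3 * μ) ≤ s * (D + 1) := by exact_mod_cast hD
  have hc1 : 1 ≤ c := by nlinarith
  have hD3 : 3 * (μ : ℤ) ≤ D + 1 := by
    by_contra hcon
    push Not at hcon
    have h1 : (s : ℤ) * (D + 1) ≤ s * (3 * μ) := mul_le_mul_of_nonneg_left hcon.le (by linarith)
    nlinarith
  set X := voN D (μ + x - 1) with hX
  -- the rows from `μ + x` on
  have hrows : X + 2 * c ≤ voN D (μ + x - 1 + s) := by
    have h1 := voN_add D (μ + x - 1) s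
    have h2 : (((μ + x - 1 : ℕ)) : ℤ) = μ + x - 1 := by
      rw [Nat.cast_sub (by omega)]; push_cast; ring
    rw [h2] at h1
    have h3 : (s : ℤ) * (3 * μ) ≤ s * (D + 1) - 2 * c := by linarith
    have h4 : (s : ℤ) * (μ + x - 1 + s) ≤ s * (3 * μ) :=
      mul_le_mul_of_nonneg_left (by linarith) (by linarith)
    have h5 : (s : ℤ) * (D + 1 - (μ + x - 1 + s)) = s * (D + 1) - s * (μ + x - 1 + s) := by ring
    linarith
  have hXc : c ≤ X := by
    have h1 := two_voN D (μ + x - 1)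
    have h2 : (((μ + x - 1 : ℕ)) : ℤ) = μ + x - 1 := by
      rw [Nat.cast_sub (by omega)]; push_cast; ring
    rw [h2, ← hX] at h1
    have h3 : (μ : ℤ) + 1 ≤ 2 * D + 2 - (μ + x - 1) := by linarith
    have h4 : (μ : ℤ) * (μ + 1) ≤ (μ + x - 1 + 1) * (2 * D + 2 - (μ + x - 1)) :=
      mul_le_mul (by linarith) h3 (by linarith) (by linarith)
    linarith
  -- the number of points
  have hex : ∃ t : ℕ, X ≤ (2 * t + 1) * c := by
    refine ⟨X.toNat, ?_⟩
    have h1 : X ≤ (X.toNat : ℤ) := Int.self_le_toNat X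
    have h2 : (0 : ℤ) ≤ (X.toNat : ℤ) := Int.natCast_nonneg _
    nlinarith
  obtain ⟨t₁, ht₁, hmin⟩ : ∃ t₁ : ℕ, X ≤ (2 * t₁ + 1) * c ∧ (2 * (t₁ : ℤ) + 1) * c ≤ X + 2 * c := by
    refine ⟨Nat.find hex, Nat.find_spec hex, ?_⟩
    rcases Nat.eq_zero_or_pos (Nat.find hex) with h | h
    · rw [h]; push_cast; linarith
    · have h1 := Nat.find_min hex (m := Nat.find hex - 1) (by omega)
      rw [Nat.cast_sub h] at h1
      push Not at h1
      push_cast at h1
      linarith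
  -- the number of rows
  have hex2 : ∃ j : ℕ, (2 * (t₁ : ℤ) + 1) * c ≤ voN D (μ + x - 1 + j) :=
    ⟨s, hmin.trans hrows⟩
  have hf1 := Nat.find_spec hex2
  have hf2 : Nat.find hex2 ≤ s := Nat.find_min' hex2 (hmin.trans hrows)
  rcases Nat.eq_zero_or_pos (Nat.find hex2) with h | h
  · rw [h, Nat.add_zero] at hf1
    refine ⟨t₁, x, le_rfl, by omega, ht₁, hf1.trans ?_⟩
    have h1 := voN_succ (D := D) (κ := μ + x) (by omega)
    rw [h1]
    push_cast
    linarith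
  · refine ⟨t₁, x - 1 + Nat.find hex2, by omega, by omega, ?_, ?_⟩
    · have h1 := Nat.find_min hex2 (m := Nat.find hex2 - 1) (by omega)
      push Not at h1
      have e1 : μ + x - 1 + (Nat.find hex2 - 1) = μ + (x - 1 + Nat.find hex2) - 1 := by omega
      rw [e1] at h1
      exact h1.le
    · have e1 : μ + x - 1 + Nat.find hex2 = μ + (x - 1 + Nat.find hex2) := by omega
      rw [e1] at hf1
      exact hf1

/-! ### one thin strip -/

theorem vo_hD3 {D μ s a : ℕ} (hs : 1 ≤ s)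
    (hD : μ * (μ + 1) + s * (a * μ) ≤ s * (D + 1)) : a * μ ≤ D + 1 := by
  have h1 : s * (a * μ) ≤ s * (D + 1) := le_trans (Nat.le_add_left _ _) hD
  exact Nat.le_of_mul_le_mul_left h1 hs

theorem Par.vo_T1 {η : ℕ} (P : Par η) {D μ ν : ℕ} (hμ : P.Z ≤ μ)
    (hD : μ * (μ + 1) + P.s * (3 * μ) ≤ P.s * (D + 1)) (h1 : 2 * η * P.s ≤ ν + 1)
    (h2 : ν ≤ P.W3) (t : ℕ) : voF D (μ + ν) μ (2 * t + 1) := by
  have hη := P.hη
  have hs := P.hs
  have hZ2 := P.hZ2
  have hZη := P.hZη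
  have hD3 := vo_hD3 hs hD
  have hηs : 1 ≤ η * P.s := Nat.mul_pos hη hs
  have h1' : 2 * (η * P.s) ≤ ν + 1 := by rw [← Nat.mul_assoc]; exact h1
  have hν1 : 1 ≤ ν := by omega
  have hην : η * ν ≤ μ := (Nat.mul_le_mul_left η h2).trans (hZη.trans hμ)
  have hc := vo_two_choose μ
  have hcν := vo_two_choose ν
  have hn := two_voN D (μ + ν)
  have hμz : (2 * (ν : ℤ)) ≤ μ := by
    have : 2 * ν ≤ μ := by omega
    exact_mod_cast this
  have hD3z : 3 * (μ : ℤ) ≤ D + 1 := by exact_mod_cast hD3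
  have hν1z : (1 : ℤ) ≤ ν := by exact_mod_cast hν1
  push_cast at hn
  -- the case `t ≥ 1`
  have hmain : ∀ t, 1 ≤ t → voF D (μ + ν) μ (2 * t + 1) := by
    intro t ht
    rcases Nat.lt_or_ge (D + (μ + ν) * t + 1) (μ * (2 * t + 1) + η * ν) with hlt | hge
    · -- empty
      obtain ⟨D', hD'⟩ : ∃ D', D' + (μ + ν) * t + 1 = μ * (2 * t + 1) + η * ν :=
        ⟨μ * (2 * t + 1) + η * ν - ((μ + ν) * t + 1), by omega⟩
      have hDD : D ≤ D' := by omega
      have e1 := transform (D := D') (κ := μ + ν) (m := μ) (t := t) (H := η * ν) (k := ν) ht rfl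
        (by omega) (by omega)
      have e2 : MR (μ + ν + 1) (η * ν) ν (2 * t + 1) :=
        P.hQ ν hν1 h2 _ _ _ (by omega) le_rfl (by omega)
      have e3 := e2.swap.emp (by
        -- `η (κ + 1) ≤ N (ν + 1) / 2`
        have g1 : D + 1 < t * (μ - ν) + 2 * μ := by
          obtain ⟨a, rfl⟩ : ∃ a, μ = a + ν := ⟨μ - ν, by omega⟩
          rw [Nat.add_sub_cancel]
          have g2 : (a + ν + ν) * t = t * a + 2 * (ν * t) := by ring
          have g3 : (a + ν) * (2 * t + 1) = 2 * (t * a) + 2 * (ν * t) + (a + ν) := by ring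
          omega
        have g4 : P.s * (D + 1) ≤ P.s * (t * (μ - ν) + 2 * μ) :=
          Nat.mul_le_mul_left _ g1.le
        have g5 : μ * (μ + 1) + P.s * μ ≤ P.s * t * μ := by
          have g6 : P.s * (t * (μ - ν) + 2 * μ) = P.s * t * (μ - ν) + P.s * (2 * μ) := by ring
          have g7 : P.s * t * (μ - ν) ≤ P.s * t * μ := Nat.mul_le_mul_left _ (Nat.sub_le _ _)
          have g8 : P.s * (3 * μ) = P.s * μ + P.s * (2 * μ) := by ring
          omega
        have g9 : μ + 1 + P.s ≤ P.s * t := by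
          have g10 : (μ + 1 + P.s) * μ ≤ P.s * t * μ := by
            calc (μ + 1 + P.s) * μ = μ * (μ + 1) + P.s * μ := by ring
              _ ≤ _ := g5
          exact Nat.le_of_mul_le_mul_right g10 (by omega)
        have g11 : 2 * (ν + 1).choose 2 = ν * (ν + 1) := two_mul_choose ν
        have g12 : 2 * (η * ν * (μ + ν + 1)) ≤ 2 * ((2 * t + 1) * (ν + 1).choose 2) := by
          calc 2 * (η * ν * (μ + ν + 1)) ≤ 2 * (η * ν * (P.s * (2 * t + 1))) := by
                refine Nat.mul_le_mul_left _ (Nat.mul_le_mul_left _ ?_)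
                have g13 : P.s * (2 * t + 1) = 2 * (P.s * t) + P.s := by ring
                omega
            _ = (2 * t + 1) * ν * (2 * (η * P.s)) := by ring
            _ ≤ (2 * t + 1) * ν * (ν + 1) := Nat.mul_le_mul_left _ h1'
            _ = (2 * t + 1) * (2 * (ν + 1).choose 2) := by rw [g11]; ring
            _ = 2 * ((2 * t + 1) * (ν + 1).choose 2) := by ring
        omega)
      have e4 : hF D (μ + ν) μ (2 * t + 1) = 0 := by
        have := vo_hF_mono (κ := μ + ν) (μ := μ) (N := 2 * t + 1) hDD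
        omega
      unfold voF
      rw [e4]
      exact le_max_left _ _
    · -- the rectangle
      obtain ⟨H, hH⟩ : ∃ H, H + μ * (2 * t + 1) = D + (μ + ν) * t + 1 :=
        ⟨D + (μ + ν) * t + 1 - μ * (2 * t + 1), by omega⟩
      have e1 := transform (D := D) (κ := μ + ν) (m := μ) (t := t) (H := H) (k := ν) ht rfl
        (by omega) hH
      have e2 : MR (μ + ν + 1) H ν (2 * t + 1) :=
        P.hQ ν hν1 h2 _ _ _ (by omega) (by omega) (by omega)
      have e3 := e2.swap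
      unfold MR at e3
      rw [e3] at e1
      have hHz : (H : ℤ) + μ * (2 * t + 1) = D + (μ + ν) * t + 1 := by exact_mod_cast hH
      have e4 : 2 * (voN D (μ + ν) - (2 * t + 1) * (((μ + 1).choose 2 : ℕ) : ℤ)) =
          2 * (((H * (μ + ν + 1) : ℕ) : ℤ) - (((2 * t + 1) * (ν + 1).choose 2 : ℕ) : ℤ)) := by
        push_cast
        linear_combination hn - (2 * t + 1 : ℤ) * hc + (2 * t + 1 : ℤ) * hcν -
          2 * (μ + ν + 1 : ℤ) * hHz
      unfold voF
      push_cast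
      generalize H * (μ + ν + 1) = y1 at *
      generalize (2 * t + 1) * (ν + 1).choose 2 = y2 at *
      generalize (2 * (t : ℤ) + 1) * (((μ + 1).choose 2 : ℕ) : ℤ) = y3 at *
      omega
  rcases Nat.eq_zero_or_pos t with ht | ht
  · subst ht
    refine voF_anti (N' := 2 * 1 + 1) (by omega) (hmain 1 le_rfl) ?_
    push_cast
    nlinarith
  · exact hmain t ht

/-! ### two and three thin strips -/

theorem vo_hD_sub {D D' μ s a b e : ℕ} (hD : μ * (μ + 1) + s * (a * μ) ≤ s * (D + 1))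
    (hDD : D ≤ D' + e) (he : b * μ + e ≤ a * μ) :
    μ * (μ + 1) + s * (b * μ) ≤ s * (D' + 1) := by
  have h1 : s * (D + 1) ≤ s * (D' + 1 + e) := Nat.mul_le_mul_left _ (by omega)
  have h2 : s * (b * μ + e) ≤ s * (a * μ) := Nat.mul_le_mul_left _ he
  have h3 : s * (D' + 1 + e) = s * (D' + 1) + s * e := by ring
  have h4 : s * (b * μ + e) = s * (b * μ) + s * e := by ring
  omega

/-- the widths -/
theorem Par.vo_w {η : ℕ} (P : Par η) : 1 ≤ η * P.s ∧ 1 ≤ P.s ∧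
    2 * (2 * (η * P.s) + P.s) ≤ P.W1 ∧ P.W1 + 2 * P.s + 1 ≤ P.W2 ∧
    2 * P.W2 + P.W1 + 4 + P.s ≤ P.W3 + 1 ∧ 2 * P.W3 ≤ P.Z ∧ 2 * η * P.s = 2 * (η * P.s) := by
  have h1 := P.h1
  have e1 : 2 * ((2 * η + 1) * P.s) = 2 * (2 * (η * P.s) + P.s) := by ring
  exact ⟨Nat.mul_pos P.hη P.hs, P.hs, by omega, P.h2, P.h3, P.hZ2, by ring⟩

theorem Par.vo_T2 {η : ℕ} (P : Par η) {D μ ν : ℕ} (hμ : P.Z ≤ μ)
    (hD : μ * (μ + 1) + P.s * (5 * μ) ≤ P.s * (D + 1)) (h1 : 4 * (η * P.s) + P.s ≤ ν + 1)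
    (h2 : ν ≤ P.W3 + 2 * (η * P.s)) (t : ℕ) : voF D (2 * μ + ν) μ (2 * t) := by
  obtain ⟨w1, w2, w3, w4, w5, w6, w7⟩ := P.vo_w
  have hD5 := vo_hD3 w2 hD
  have hD3 : μ * (μ + 1) + P.s * (3 * μ) ≤ P.s * (D + 1) := vo_hD_sub hD (Nat.le_add_right D 0)
    (by omega)
  obtain ⟨t₁, ν₁, a1, a2, a3, a4⟩ := vo_choose (D := D) (μ := μ) (s := P.s)
    (x := 2 * (η * P.s)) w2 (by omega) (by omega) (by omega) hD3
  have hc := vo_two_choose μ
  have e1 : μ + ν₁ - 1 = μ + (ν₁ - 1) := by omega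
  have e2 : 2 * μ + ν - (μ + ν₁) = μ + (ν - ν₁) := by omega
  have e3 : μ + (ν - ν₁) - 1 = μ + (ν - ν₁ - 1) := by omega
  refine voF_step (κ := μ + ν₁) (t₁ := t₁) (p := 1) (by omega) (by omega) (by omega) a3 a4
    (P.vo_T1 hμ hD3 (by omega) (by omega) t₁) ?_ (fun t => ?_) (fun t => ?_) ?_ (by omega)
  · rw [e1]
    exact P.vo_T1 hμ hD3 (by omega) (by omega) t₁
  · rw [e2]
    exact P.vo_T1 hμ (vo_hD_sub hD (D' := D - (μ + ν₁)) (e := μ + ν₁) (by omega) (by omega))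
      (by omega) (by omega) t
  · rw [e2, e3]
    exact P.vo_T1 hμ (vo_hD_sub hD (D' := D - (μ + ν₁) - 1) (e := μ + ν₁ + 1) (by omega)
      (by omega)) (by omega) (by omega) t
  · have h3 := voN_add D (μ + ν₁) (μ + (ν - ν₁))
    have e4 : μ + ν₁ + (μ + (ν - ν₁)) = 2 * μ + ν := by omega
    rw [e4] at h3
    have e5 : ((μ + (ν - ν₁) : ℕ) : ℤ) = μ + (ν - ν₁ : ℕ) := by push_cast; ring
    have e6 : (((μ + ν₁ : ℕ) : ℤ)) + ((μ + (ν - ν₁) : ℕ) : ℤ) = 2 * μ + ν := by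
      exact_mod_cast e4
    rw [e6, e5] at h3
    have h4 : (5 : ℤ) * μ ≤ D + 1 := by exact_mod_cast hD5
    have h5 : (ν : ℤ) ≤ μ := by
      have : ν ≤ μ := by omega
      exact_mod_cast this
    have h6 : (0 : ℤ) ≤ ((ν - ν₁ : ℕ) : ℤ) := Int.natCast_nonneg _
    have h7 : (1 : ℤ) ≤ μ := by
      have : 1 ≤ μ := by omega
      exact_mod_cast this
    have h8 : (μ : ℤ) * (2 * μ) ≤ (μ + ((ν - ν₁ : ℕ) : ℤ)) * (D + 1 - (2 * μ + ν)) :=
      mul_le_mul (by linarith) (by linarith) (by linarith) (by linarith)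
    push_cast at a4 h3 ⊢
    nlinarith

theorem Par.vo_T3 {η : ℕ} (P : Par η) {D μ ν : ℕ} (hμ : P.Z ≤ μ)
    (hD : μ * (μ + 1) + P.s * (7 * μ) ≤ P.s * (D + 1))
    (h1 : 6 * (η * P.s) + 2 * P.s ≤ ν + 1)
    (h2 : ν ≤ P.W3 + 4 * (η * P.s)) (t : ℕ) : voF D (3 * μ + ν) μ (2 * t + 1) := by
  obtain ⟨w1, w2, w3, w4, w5, w6, w7⟩ := P.vo_w
  have hD7 := vo_hD3 w2 hD
  have hD3 : μ * (μ + 1) + P.s * (3 * μ) ≤ P.s * (D + 1) := vo_hD_sub hD (Nat.le_add_right D 0)
    (by omega)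
  obtain ⟨t₁, ν₁, a1, a2, a3, a4⟩ := vo_choose (D := D) (μ := μ) (s := P.s)
    (x := 2 * (η * P.s)) w2 (by omega) (by omega) (by omega) hD3
  have e1 : μ + ν₁ - 1 = μ + (ν₁ - 1) := by omega
  have e2 : 3 * μ + ν - (μ + ν₁) = 2 * μ + (ν - ν₁) := by omega
  have e3 : 2 * μ + (ν - ν₁) - 1 = 2 * μ + (ν - ν₁ - 1) := by omega
  refine voF_step (κ := μ + ν₁) (t₁ := t₁) (p := 0) (by omega) (by omega) (by omega) a3 a4
    (P.vo_T1 hμ hD3 (by omega) (by omega) t₁) ?_ (fun t => ?_) (fun t => ?_) ?_ (by omega)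
  · rw [e1]
    exact P.vo_T1 hμ hD3 (by omega) (by omega) t₁
  · rw [e2, Nat.add_zero]
    exact P.vo_T2 hμ (vo_hD_sub hD (D' := D - (μ + ν₁)) (e := μ + ν₁) (by omega) (by omega))
      (by omega) (by omega) t
  · rw [e2, e3, Nat.add_zero]
    exact P.vo_T2 hμ (vo_hD_sub hD (D' := D - (μ + ν₁) - 1) (e := μ + ν₁ + 1) (by omega)
      (by omega)) (by omega) (by omega) t
  · have h3 := voN_add D (μ + ν₁) (2 * μ + (ν - ν₁))
    have e4 : μ + ν₁ + (2 * μ + (ν - ν₁)) = 3 * μ + ν := by omega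
    rw [e4] at h3
    have e6 : (((μ + ν₁ : ℕ) : ℤ)) + ((2 * μ + (ν - ν₁) : ℕ) : ℤ) = 3 * μ + ν := by
      exact_mod_cast e4
    rw [e6] at h3
    have h4 : (7 : ℤ) * μ ≤ D + 1 := by exact_mod_cast hD7
    have h5 : (ν : ℤ) ≤ μ := by
      have : ν ≤ μ := by omega
      exact_mod_cast this
    have h6 : (0 : ℤ) ≤ ((2 * μ + (ν - ν₁) : ℕ) : ℤ) := Int.natCast_nonneg _
    have h8 : (0 : ℤ) ≤ ((2 * μ + (ν - ν₁) : ℕ) : ℤ) * (D + 1 - (3 * μ + ν)) :=
      mul_nonneg h6 (by linarith)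
    rw [Nat.cast_zero, add_zero]
    linarith

/-! ### the odd medium strip -/

theorem Par.odd {η : ℕ} (P : Par η) {k L R : ℕ} (hk : 2 * P.Z + 4 * (P.W2 + 1) ≤ k)
    (hγ : k * (k + 1) * (P.Z + 12 * P.s) ≤ P.s * P.Z * L)
    (h1 : 2 * R + 2 * P.W1 ≤ 3 * k) (h2 : 3 * k ≤ 2 * R + 2 * P.W2) : GO k L R := by
  obtain ⟨w1, w2, w3, w4, w5, w6, w7⟩ := P.vo_w
  obtain ⟨μ, hμ⟩ : ∃ μ, R = k + μ + 1 := ⟨R - 1 - k, by omega⟩
  obtain ⟨ν, hν⟩ : ∃ ν, k = 2 * μ + ν := ⟨k - 2 * μ, by omega⟩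
  have hZμ : P.Z ≤ μ := by omega
  have hνμ : ν ≤ μ := by omega
  have hZ1 : 1 ≤ P.Z := by omega
  have hk1 : 1 ≤ k := by omega
  have hμ1 : 1 ≤ μ := by omega
  -- the length
  have hL : k * (k + 1) ≤ P.s * L := by
    have g1 : k * (k + 1) * P.Z ≤ P.s * L * P.Z := by
      calc k * (k + 1) * P.Z ≤ k * (k + 1) * (P.Z + 12 * P.s) :=
            Nat.mul_le_mul_left _ (Nat.le_add_right _ _)
        _ ≤ P.s * P.Z * L := hγ
        _ = P.s * L * P.Z := by ring
    exact Nat.le_of_mul_le_mul_right g1 hZ1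
  have hc : 2 * (k + 1).choose 2 = k * (k + 1) := two_mul_choose k
  -- one number of points
  have hone : ∀ t, 1 ≤ t → (2 * t - 1) * (k * (k + 1)) ≤ 2 * (R * L) → MR R L k (2 * t + 1) := by
    intro t ht hNt
    have hNz : (2 * (t : ℤ) - 1) * (k * (k + 1)) ≤ 2 * (R * L) := by
      have h3 : (((2 * t - 1) * (k * (k + 1)) : ℕ) : ℤ) ≤ ((2 * (R * L) : ℕ) : ℤ) := by
        exact_mod_cast hNt
      rw [Nat.cast_mul, Nat.cast_sub (by omega)] at h3
      push_cast at h3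
      exact h3
    have hRz : (R : ℤ) = k + μ + 1 := by exact_mod_cast hμ
    have hkz : (k : ℤ) = 2 * μ + ν := by exact_mod_cast hν
    have hνz : (ν : ℤ) ≤ μ := by exact_mod_cast hνμ
    have hk1z : (1 : ℤ) ≤ k := by exact_mod_cast hk1
    have hμ1z : (1 : ℤ) ≤ μ := by exact_mod_cast hμ1
    have hν0 : (0 : ℤ) ≤ ν := Int.natCast_nonneg _
    have hLz : (0 : ℤ) ≤ L := Int.natCast_nonneg _
    have hsz : (1 : ℤ) ≤ (P.s : ℤ) := by exact_mod_cast w2
    have hZz : (1 : ℤ) ≤ (P.Z : ℤ) := by exact_mod_cast hZ1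
    have hZμz : (P.Z : ℤ) ≤ μ := by exact_mod_cast hZμ
    have hγz : (k : ℤ) * (k + 1) * (P.Z + 12 * P.s) ≤ P.s * P.Z * L := by exact_mod_cast hγ
    obtain ⟨e, he⟩ : ∃ e : ℤ, e = L + μ - t * (k - μ) := ⟨_, rfl⟩
    have hkk : (0 : ℤ) < k * (k + 1) := by positivity
    -- `k (k + 1) e ≥ μ (μ + 1) L`
    have g1 : (μ : ℤ) * (μ + 1) * L ≤ k * (k + 1) * e := by
      have g2 : (k - μ : ℤ) * ((2 * (t : ℤ) - 1) * (k * (k + 1))) ≤ (k - μ) * (2 * (R * L)) :=
        mul_le_mul_of_nonneg_left hNz (by linarith)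
      have g3 : 2 * ((k : ℤ) * (k + 1) * e) = 2 * (μ * (μ + 1) * L) +
          ((k - μ) * (2 * (R * L)) - (k - μ : ℤ) * ((2 * (t : ℤ) - 1) * (k * (k + 1)))) +
          k * (k + 1) * (3 * μ - k) := by
        rw [he, hRz]
        ring
      have g4 : (0 : ℤ) ≤ k * (k + 1) * (3 * μ - k) := mul_nonneg hkk.le (by linarith)
      linarith
    have g5 : (μ : ℤ) * (μ + 1) * (P.Z + 12 * P.s) ≤ P.s * P.Z * e := by
      have g6 : (k : ℤ) * (k + 1) * (μ * (μ + 1) * (P.Z + 12 * P.s)) ≤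
          k * (k + 1) * (P.s * P.Z * e) := by
        have g7 : (μ : ℤ) * (μ + 1) * (k * (k + 1) * (P.Z + 12 * P.s)) ≤
            μ * (μ + 1) * (P.s * P.Z * L) := mul_le_mul_of_nonneg_left hγz (by positivity)
        have g8 : (P.s : ℤ) * P.Z * (μ * (μ + 1) * L) ≤ P.s * P.Z * (k * (k + 1) * e) :=
          mul_le_mul_of_nonneg_left g1 (by positivity)
        calc (k : ℤ) * (k + 1) * (μ * (μ + 1) * (P.Z + 12 * P.s))
            = μ * (μ + 1) * (k * (k + 1) * (P.Z + 12 * P.s)) := by ring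
          _ ≤ μ * (μ + 1) * (P.s * P.Z * L) := g7
          _ = P.s * P.Z * (μ * (μ + 1) * L) := by ring
          _ ≤ P.s * P.Z * (k * (k + 1) * e) := g8
          _ = k * (k + 1) * (P.s * P.Z * e) := by ring
      exact le_of_mul_le_mul_left g6 hkk
    have g9 : (μ : ℤ) * (μ + 1) + P.s * (7 * μ) ≤ P.s * e := by
      have g10 : (P.Z : ℤ) * (μ * (μ + 1) + P.s * (7 * μ)) ≤ P.Z * (P.s * e) := by
        have g11 : (P.Z : ℤ) * (P.s * (7 * μ)) ≤ μ * (P.s * (7 * μ)) :=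
          mul_le_mul_of_nonneg_right hZμz (by positivity)
        have g12 : (0 : ℤ) ≤ P.s * (μ * μ) := by positivity
        have g13 : (0 : ℤ) ≤ P.s * μ := by positivity
        nlinarith
      exact le_of_mul_le_mul_left g10 (by linarith)
    have he1 : 1 ≤ e := by
      by_contra hcon
      push Not at hcon
      have g14 : (P.s : ℤ) * e ≤ 0 := mul_nonpos_of_nonneg_of_nonpos (by linarith) (by linarith)
      have g15 : (0 : ℤ) < μ * (μ + 1) + P.s * (7 * μ) := by positivity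
      linarith
    obtain ⟨D, hD⟩ : ∃ D : ℕ, (D : ℤ) = e - 1 := ⟨_, Int.toNat_of_nonneg (by linarith)⟩
    have hDs : μ * (μ + 1) + P.s * (7 * μ) ≤ P.s * (D + 1) := by
      have : (μ : ℤ) * (μ + 1) + P.s * (7 * μ) ≤ P.s * (D + 1) := by
        rw [hD]; linarith
      exact_mod_cast this
    have hDt : D + 1 + t * k = L + t * μ + μ := by
      have : (D : ℤ) + 1 + t * k = L + t * μ + μ := by
        rw [hD, he]; ring
      exact_mod_cast this
    have htr := transform_odd (H := L) (D := D) (κ := k + μ) (k := k) (μ := μ) (t := t) ht rfl hDt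
    have hT3 := P.vo_T3 (D := D) (μ := μ) (ν := ν) hZμ hDs (by omega) (by omega) t
    have e1 : 3 * μ + ν = k + μ := by omega
    rw [e1] at hT3
    rw [hμ]
    apply MR.swap
    apply MR_of_le
    unfold voF at hT3
    have hn := two_voN D (k + μ)
    have hck := vo_two_choose k
    have hcμ := vo_two_choose μ
    push_cast at hn
    have e2 : 2 * (voN D (k + μ) - (2 * t + 1) * (((μ + 1).choose 2 : ℕ) : ℤ)) =
        2 * (((L * (k + μ + 1) : ℕ) : ℤ) - (((2 * t + 1) * (k + 1).choose 2 : ℕ) : ℤ)) := by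
      push_cast
      have hDtz : (D : ℤ) + 1 + t * k = L + t * μ + μ := by exact_mod_cast hDt
      linear_combination hn - (2 * t + 1 : ℤ) * hcμ + (2 * t + 1 : ℤ) * hck +
        2 * (k + μ + 1 : ℤ) * hDtz
    push_cast at hT3
    generalize L * (k + μ + 1) = y1 at *
    generalize (2 * t + 1) * (k + 1).choose 2 = y2 at *
    generalize (2 * (t : ℤ) + 1) * (((μ + 1).choose 2 : ℕ) : ℤ) = y3 at *
    omega
  -- the critical number of points
  have hck1 : 1 ≤ (k + 1).choose 2 := Nat.choose_pos (by omega)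
  have hRL : 3 * (k + 1).choose 2 ≤ R * L := by
    have g1 : 2 * (P.s * (3 * (k + 1).choose 2)) ≤ 2 * (P.s * (R * L)) := by
      calc 2 * (P.s * (3 * (k + 1).choose 2)) = 3 * P.s * (2 * (k + 1).choose 2) := by ring
        _ = 3 * P.s * (k * (k + 1)) := by rw [hc]
        _ ≤ 3 * P.s * (P.s * L) := Nat.mul_le_mul_left _ hL
        _ = P.s * (3 * P.s * L) := by ring
        _ ≤ P.s * (2 * R * L) := by
            refine Nat.mul_le_mul_left _ (Nat.mul_le_mul_right _ ?_)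
            omega
        _ = 2 * (P.s * (R * L)) := by ring
    have g2 : P.s * (3 * (k + 1).choose 2) ≤ P.s * (R * L) := by omega
    exact Nat.le_of_mul_le_mul_left g2 w2
  set N₀ := R * L / (k + 1).choose 2 with hN₀
  have hN1 : N₀ * (k + 1).choose 2 ≤ R * L := Nat.div_mul_le_self _ _
  have hN2 : R * L < (N₀ + 1) * (k + 1).choose 2 := by
    have := Nat.lt_succ_iff.mpr (le_refl N₀)
    exact (Nat.div_lt_iff_lt_mul hck1).mp this
  have hN3 : 3 ≤ N₀ := (Nat.le_div_iff_mul_le hck1).mpr hRL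
  obtain ⟨t, ht⟩ : ∃ t, 2 * t + 1 ≤ N₀ ∧ N₀ ≤ 2 * t + 2 := ⟨(N₀ - 1) / 2, by omega, by omega⟩
  have ht1 : 1 ≤ t := by omega
  have hlow : (2 * t + 1) * (k + 1).choose 2 ≤ R * L :=
    (Nat.mul_le_mul_right _ ht.1).trans hN1
  have hup : R * L ≤ (2 * (t + 1) + 1) * (k + 1).choose 2 :=
    hN2.le.trans (Nat.mul_le_mul_right _ (by omega))
  rw [← GP_one]
  refine GP_of_two (t := t) hlow hup (hone t ht1 ?_) (hone (t + 1) (by omega) ?_)
  · calc (2 * t - 1) * (k * (k + 1)) ≤ (2 * t + 1) * (k * (k + 1)) :=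
          Nat.mul_le_mul_right _ (by omega)
      _ = 2 * ((2 * t + 1) * (k + 1).choose 2) := by rw [← hc]; ring
      _ ≤ 2 * (R * L) := Nat.mul_le_mul_left _ hlow
  · have e1 : 2 * (t + 1) - 1 = 2 * t + 1 := by omega
    rw [e1]
    calc (2 * t + 1) * (k * (k + 1)) = 2 * ((2 * t + 1) * (k + 1).choose 2) := by rw [← hc]; ring
      _ ≤ 2 * (R * L) := Nat.mul_le_mul_left _ hlow

end Pool.Agent.Work.MP_0421d9_ag.LD
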