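import Pool.Agent.Work.MP_0421d9_ag.VDefs

/-!
Definitions for the induction on the exponent.
-/

namespace Pool.Agent.Work.MP_0421d9_ag.LD

open MvPolynomial Module

/-- for multiplicity `μ` all systems with one side at least `Z` have maximal rank -/
def QM (η Z μ : ℕ) : Prop := ∀ H L N, η * μ ≤ H → η * μ ≤ L → Z ≤ H → MR H L μ N

/-- parameters: `s` margin, `W1, W2` window of the medium strips, `W3` bound for the thin strips,
`Z` bound for the multiplicities -/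
structure Par (η : ℕ) where
  (s W1 W2 W3 Z : ℕ)
  (hη : 1 ≤ η)
  (hs : 1 ≤ s)
  (h1 : 2 * ((2 * η + 1) * s) ≤ W1)
  (h2 : W1 + 2 * s + 1 ≤ W2)
  (h3 : 2 * W2 + W1 + 4 + s ≤ W3 + 1)
  (hZ2 : 2 * W3 ≤ Z)
  (hZη : η * W3 ≤ Z)
  (hQ : ∀ μ, 1 ≤ μ → μ ≤ W3 → QM η Z μ)

/-- maximal rank as soon as one side is at least `C k ^ (1 + θ)` -/
def QT (θ : ℝ) : Prop := ∃ (η : ℕ) (C : ℝ), 1 ≤ η ∧ 1 ≤ C ∧ ∀ k H L N : ℕ, 1 ≤ k → η * k ≤ H →
  η * k ≤ L → C * (k : ℝ) ^ (1 + θ) ≤ L → MR H L k N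

/-- `r` points of multiplicity `m` have maximal rank in all degrees -/
def PR (m r : ℕ) : Prop := ∀ D, hP D m r = (D + 2).choose 2 - r * (m + 1).choose 2

end Pool.Agent.Work.MP_0421d9_ag.LD
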