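import Pool.Agent.Work.MP_0421d9_ag.VPar

/-!
Strips in the plane from maximal rank on `P¹ × P¹` for smaller multiplicities.
-/

namespace Pool.Agent.Work.MP_0421d9_ag.LD

open MvPolynomial Module

theorem hF_le_succ (D κ m N : ℕ) : hF D κ m N ≤ hF (D + 1) κ m N := by
  unfold hF
  apply X_mul_le
  intro α hα
  change (α + Finsupp.single 1 1 : Fin 3 →₀ ℕ) 2 ≤ κ
  rw [Finsupp.add_apply, Finsupp.single_eq_of_ne (by decide), add_zero]
  exact hα

theorem hF_mono {D D' : ℕ} (κ m N : ℕ) (h : D ≤ D') : hF D κ m N ≤ hF D' κ m N := by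
  induction D', h using Nat.le_induction with
  | base => exact le_rfl
  | succ n _ ih => exact ih.trans (hF_le_succ n κ m N)

namespace VP

/-- the condition which determines the height of the strip -/
def Pk (m t ρ k : ℕ) : Prop :=
  ρ ≤ t * k ∧ (2 * t + 1) * (k + 1).choose 2 ≤ (m + k + 1) * (t * k + 1 - ρ)

theorem exists_k {m t ρ : ℕ} (hm : 100 ≤ m) (ht : 1 ≤ t) (h2 : 16 * ρ ≤ t * m) :
    ∃ k, Pk m t ρ k ∧ t * k ≤ 2 * ρ + t := by
  refine ⟨2 * ρ / t + 1, ?_, ?_⟩
  · set q := 2 * ρ / t with hq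
    have e1 : t * q ≤ 2 * ρ := Nat.mul_div_le _ _
    have e2 : 2 * ρ < t * (q + 1) := by
      rw [hq]
      exact Nat.lt_mul_div_succ _ (by omega)
    have e3 : 8 * q ≤ m := by
      have h3 : t * (8 * q) ≤ t * m := by
        calc t * (8 * q) = 8 * (t * q) := by ring
          _ ≤ 8 * (2 * ρ) := Nat.mul_le_mul_left _ e1
          _ = 16 * ρ := by ring
          _ ≤ t * m := h2
      exact Nat.le_of_mul_le_mul_left h3 (by omega)
    obtain ⟨x, hx⟩ : ∃ x, t * (q + 1) = 2 * ρ + 1 + x := ⟨t * (q + 1) - (2 * ρ + 1), by omega⟩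
    refine ⟨by omega, ?_⟩
    have e4 : t * (q + 1) + 1 - ρ = ρ + 2 + x := by omega
    rw [e4]
    have e5 : t * (q + 1) ≤ 2 * (ρ + 2 + x) := by omega
    have e6 := two_mul_choose (q + 1)
    have e7 : 2 * ((2 * t + 1) * (q + 1 + 1).choose 2) ≤ 2 * ((m + (q + 1) + 1) * (ρ + 2 + x)) := by
      calc 2 * ((2 * t + 1) * (q + 1 + 1).choose 2)
          = (2 * t + 1) * (2 * (q + 1 + 1).choose 2) := by ring
        _ = (2 * t + 1) * ((q + 1) * (q + 1 + 1)) := by rw [e6]
        _ ≤ (3 * t) * ((q + 1) * (q + 1 + 1)) := Nat.mul_le_mul_right _ (by omega)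
        _ = (3 * (q + 2)) * (t * (q + 1)) := by ring
        _ ≤ (m + (q + 1) + 1) * (2 * (ρ + 2 + x)) := Nat.mul_le_mul (by omega) e5
        _ = 2 * ((m + (q + 1) + 1) * (ρ + 2 + x)) := by ring
    omega
  · have e1 : t * (2 * ρ / t) ≤ 2 * ρ := Nat.mul_div_le _ _
    rw [mul_add, mul_one]
    omega

theorem choose_int (k : ℕ) : 2 * (((k + 1).choose 2 : ℕ) : ℤ) = k * (k + 1) := by
  exact_mod_cast two_mul_choose k

/-- the two systems which give the strip, and the number of conditions -/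
theorem core {η m t D ρ : ℕ} (hη : 1 ≤ η) (hm : 100 ≤ m) (ht : 1 ≤ t)
    (hD : D + ρ = m + t * m)
    (h1 : (η + 1) * m ≤ ρ) (h2 : 16 * ρ ≤ t * m)
    (h3 : ∀ k, t * k ≤ 2 * ρ + t → η * (k + 1) ≤ m)
    (hQ : ∀ k, 1 ≤ k → t * k ≤ 2 * ρ + t → QM η m k) :
    ∃ κ B, 1 ≤ κ ∧ κ + 1 ≤ D ∧ B ≤ D - κ + 1 ∧
      (D - κ + 1 - B) + κ * (D + 1) = (2 * t + 1) * (m + 1).choose 2 + κ.choose 2 ∧
      hF D κ m (2 * t + 1) ≤ B ∧ hF D (κ - 1) m (2 * t + 1) = 0 := by
  classical
  obtain ⟨k₁, hk₁, hk₁'⟩ := exists_k hm ht h2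
  have hex : ∃ k, Pk m t ρ k := ⟨k₁, hk₁⟩
  set k := Nat.find hex with hk
  obtain ⟨ha, hb⟩ : Pk m t ρ k := Nat.find_spec hex
  have hkk : k ≤ k₁ := Nat.find_min' hex hk₁
  have hkt : t * k ≤ 2 * ρ + t := (Nat.mul_le_mul_left t hkk).trans hk₁'
  have hmρ : 2 * m ≤ ρ := (Nat.mul_le_mul_right m (by omega : 2 ≤ η + 1)).trans h1
  have hk1 : 1 ≤ k := by
    rcases Nat.eq_zero_or_pos k with h | h
    · rw [h] at ha
      omega
    · exact h
  have h3k := h3 k hkt
  have h8k : 8 * k ≤ m + 8 := by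
    have h4 : t * (8 * k) ≤ t * (m + 8) := by
      calc t * (8 * k) = 8 * (t * k) := by ring
        _ ≤ 8 * (2 * ρ + t) := Nat.mul_le_mul_left _ hkt
        _ = 16 * ρ + 8 * t := by ring
        _ ≤ t * m + 8 * t := Nat.add_le_add_right h2 _
        _ = t * (m + 8) := by ring
    exact Nat.le_of_mul_le_mul_left h4 (by omega)
  have hηk : η * (k + 1) = η * k + η := by ring
  have hη1 : (η + 1) * m = η * m + m := by ring
  -- the height of the transformed system
  obtain ⟨H, hH⟩ : ∃ H, H + ρ = t * k + 1 := ⟨t * k + 1 - ρ, by omega⟩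
  have hHe : t * k + 1 - ρ = H := by omega
  rw [hHe] at hb
  set N := 2 * t + 1 with hN
  -- `H ≥ η k`
  have hHη : η * k ≤ H := by
    by_contra hcon
    have h4 : H < η * k := by omega
    have h5 : (m + k + 1) * H < (m + k + 1) * (η * k) :=
      Nat.mul_lt_mul_of_pos_left h4 (by omega)
    have h6 : (m + k + 1) * η ≤ t * (k + 1) := by
      have e1 : (m + k + 1) * η = η * m + η * (k + 1) := by ring
      have e2 : t * (k + 1) = t * k + t := by ring
      omega
    have h7 : (m + k + 1) * (η * k) ≤ N * (k + 1).choose 2 := by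
      have h8 := two_mul_choose k
      have h9 : 2 * ((m + k + 1) * (η * k)) ≤ 2 * (N * (k + 1).choose 2) := by
        calc 2 * ((m + k + 1) * (η * k)) = 2 * k * ((m + k + 1) * η) := by ring
          _ ≤ 2 * k * (t * (k + 1)) := Nat.mul_le_mul_left _ h6
          _ = (2 * t) * (k * (k + 1)) := by ring
          _ ≤ N * (k * (k + 1)) := Nat.mul_le_mul_right _ (by omega)
          _ = N * (2 * (k + 1).choose 2) := by rw [h8]
          _ = 2 * (N * (k + 1).choose 2) := by ring
      omega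
    omega
  have hκD : m + k + 1 ≤ D := by
    have h4 : 16 * (t * m) = 15 * (t * m) + t * m := by ring
    have h5 : m ≤ t * m := Nat.le_mul_of_pos_left m (by omega)
    omega
  obtain ⟨B, hB⟩ : ∃ B, B + N * (k + 1).choose 2 = (m + k + 1) * H :=
    ⟨(m + k + 1) * H - N * (k + 1).choose 2, by omega⟩
  -- the numbers
  have i1 := choose_int m
  have i2 := choose_int k
  have i3 : 2 * (((m + k).choose 2 : ℕ) : ℤ) = (m + k) * (m + k - 1) := by
    obtain ⟨x, hx⟩ : ∃ x, m + k = x + 1 := ⟨m + k - 1, by omega⟩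
    rw [hx, choose_int]
    have : ((m : ℤ) + k) = x + 1 := by exact_mod_cast hx
    rw [this]
    ring
  have iD : (D : ℤ) = m + t * m - ρ := by
    have : ((D : ℤ) + ρ) = m + t * m := by exact_mod_cast hD
    linarith
  have iH : (H : ℤ) = t * k + 1 - ρ := by
    have : ((H : ℤ) + ρ) = t * k + 1 := by exact_mod_cast hH
    linarith
  have iN : (N : ℤ) = 2 * t + 1 := by
    rw [hN]
    push_cast
    ring
  have iB : (B : ℤ) + N * (((k + 1).choose 2 : ℕ) : ℤ) = (m + k + 1) * H := by
    exact_mod_cast hB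
  -- the bound for `B`
  have hBle : (B : ℤ) ≤ D - (m + k) + 1 := by
    obtain ⟨j, hj⟩ : ∃ j, k = j + 1 := ⟨k - 1, by omega⟩
    have i4 := choose_int j
    have hjP : ¬ Pk m t ρ j := Nat.find_min hex (by omega)
    have i5 : 2 * (B : ℤ) = 2 * (D - (m + k) + 1) +
        (2 * (m + k) * (t * j + 1 - ρ) - N * (2 * (((j + 1).choose 2 : ℕ) : ℤ))) := by
      rw [i4]
      have : (k : ℤ) = j + 1 := by exact_mod_cast hj
      rw [iN, iD]
      rw [iN, iH] at iB
      rw [this] at iB i2 ⊢
      linear_combination 2 * iB - (2 * t + 1) * i2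
    have i6 : 2 * ((m : ℤ) + k) * (t * j + 1 - ρ) ≤ N * (2 * (((j + 1).choose 2 : ℕ) : ℤ)) := by
      rcases Nat.lt_or_ge (t * j) ρ with h4 | h4
      · have h5 : (t : ℤ) * j + 1 - ρ ≤ 0 := by
          have : ((t * j : ℕ) : ℤ) < ρ := by exact_mod_cast h4
          push_cast at this
          linarith
        have h6 : (0 : ℤ) ≤ N * (2 * (((j + 1).choose 2 : ℕ) : ℤ)) := by positivity
        have h7 : 2 * ((m : ℤ) + k) * (t * j + 1 - ρ) ≤ 0 :=
          mul_nonpos_of_nonneg_of_nonpos (by positivity) h5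
        linarith
      · have h5 : ¬ (2 * t + 1) * (j + 1).choose 2 ≤ (m + j + 1) * (t * j + 1 - ρ) :=
          fun h6 => hjP ⟨h4, h6⟩
        have h6 : (m + j + 1) * (t * j + 1 - ρ) ≤ N * (j + 1).choose 2 := by
          rw [hN]
          omega
        have h7 : ((((m + j + 1) * (t * j + 1 - ρ) : ℕ)) : ℤ) ≤
            ((N * (j + 1).choose 2 : ℕ) : ℤ) := by exact_mod_cast h6
        rw [Nat.cast_mul, Nat.cast_sub (by omega : ρ ≤ t * j + 1)] at h7
        push_cast at h7
        have h8 : (k : ℤ) = j + 1 := by exact_mod_cast hj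
        rw [h8]
        linarith
    linarith
  have hBle' : B ≤ D - (m + k) + 1 := by
    have h4 : ((D - (m + k) : ℕ) : ℤ) = D - (m + k) := by
      rw [Nat.cast_sub (by omega : m + k ≤ D)]
      push_cast
      ring
    have h5 : (B : ℤ) ≤ ((D - (m + k) + 1 : ℕ) : ℤ) := by
      push_cast [h4]
      linarith
    exact_mod_cast h5
  refine ⟨m + k, B, by omega, hκD, hBle', ?_, ?_, ?_⟩
  · -- the number of conditions
    obtain ⟨A, hA⟩ : ∃ A, A + B = D - (m + k) + 1 := ⟨D - (m + k) + 1 - B, by omega⟩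
    have hA' : D - (m + k) + 1 - B = A := by omega
    rw [hA']
    have i7 : (A : ℤ) + B = D - (m + k) + 1 := by
      have h4 : A + B + (m + k) = D + 1 := by omega
      have h5 : ((A : ℤ) + B + (m + k)) = D + 1 := by exact_mod_cast h4
      linarith
    have i8 : 2 * ((A : ℤ) + (m + k) * (D + 1)) =
        2 * (N * (((m + 1).choose 2 : ℕ) : ℤ) + (((m + k).choose 2 : ℕ) : ℤ)) := by
      rw [iN, iH] at iB
      rw [iN]
      rw [iD] at i7 ⊢
      linear_combination 2 * i7 - 2 * iB + (2 * t + 1) * i2 - (2 * t + 1) * i1 - i3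
    have i9 : ((A : ℤ) + (m + k) * (D + 1)) =
        (N * (((m + 1).choose 2 : ℕ) : ℤ) + (((m + k).choose 2 : ℕ) : ℤ)) := by linarith
    exact_mod_cast i9
  · -- the strip
    have h4 := transform (D := D) (κ := m + k) (m := m) (t := t) (H := H) (k := k) ht rfl
      (by omega) (by
        have e1 : m * (2 * t + 1) = t * m + t * m + m := by ring
        have e2 : (m + k) * t = t * m + t * k := by ring
        omega)
    have h5 := (hQ k hk1 hkt (m + k + 1) H N (by omega) hHη (by omega)).swap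
    rw [MR_iff_le] at h5
    refine h4.trans (h5.trans ?_)
    have e1 : H * (m + k + 1) = (m + k + 1) * H := by ring
    rw [e1]
    omega
  · -- one row less
    obtain ⟨j, hj⟩ : ∃ j, k = j + 1 := ⟨k - 1, by omega⟩
    have hjP : ¬ Pk m t ρ j := Nat.find_min hex (by omega)
    have e0 : m + k - 1 = m + j := by omega
    rw [e0]
    rcases Nat.eq_zero_or_pos j with h0 | h0
    · subst h0
      apply transform_empty ht (by omega) (by omega)
      have e1 : m * (2 * t + 1) = t * m + t * m + m := by ring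
      have e2 : (m + 0) * t = t * m := by ring
      omega
    · have htj : t * j ≤ t * k := Nat.mul_le_mul_left _ (by omega)
      -- the emptiness of a transformed system
      have key : ∀ H', η * j ≤ H' → t * j + 1 ≤ H' + ρ → (m + j + 1) * H' ≤ N * (j + 1).choose 2 →
          hF D (m + j) m N = 0 := by
        intro H' h4 h5 h6
        have e1 : m * (2 * t + 1) = t * m + t * m + m := by ring
        have e2 : (m + j) * t = t * m + t * j := by ring
        have h45 : m ≤ t * m := Nat.le_mul_of_pos_left m (by omega)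
        obtain ⟨D', hD'⟩ : ∃ D', D' + t * j + 1 = H' + m + t * m :=
          ⟨H' + m + t * m - t * j - 1, by omega⟩
        have h7 := transform (D := D') (κ := m + j) (m := m) (t := t) (H := H') (k := j) ht rfl
          (by omega) (by omega)
        have h8 := (hQ j h0 (by omega) (m + j + 1) H' N (by
          have : η * j ≤ η * (k + 1) := Nat.mul_le_mul_left _ (by omega)
          omega) h4 (by omega)).swap
        have h9 := h8.emp (by
          have e3 : H' * (m + j + 1) = (m + j + 1) * H' := by ring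
          rw [e3]
          exact h6)
        have h10 := hF_mono (m + j) m N (by omega : D ≤ D')
        rw [hN] at h9 h10 ⊢
        omega
      rcases Nat.lt_or_ge (t * j + 1) (η * j + ρ) with h4 | h4
      · refine key (η * j) le_rfl h4.le ?_
        have h5 := two_mul_choose j
        have h6 : 2 * (m + j + 1) * η ≤ (2 * t + 1) * (j + 1) := by
          have e1 : 2 * (m + j + 1) * η = 2 * (η * m) + 2 * (η * k) := by
            rw [hj]
            ring
          have e2 : (2 * t + 1) * (j + 1) = 2 * (t * k) + k := by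
            rw [hj]
            ring
          omega
        have h7 : 2 * ((m + j + 1) * (η * j)) ≤ 2 * (N * (j + 1).choose 2) := by
          calc 2 * ((m + j + 1) * (η * j)) = j * (2 * (m + j + 1) * η) := by ring
            _ ≤ j * ((2 * t + 1) * (j + 1)) := Nat.mul_le_mul_left _ h6
            _ = N * (j * (j + 1)) := by
              rw [hN]
              ring
            _ = N * (2 * (j + 1).choose 2) := by rw [h5]
            _ = 2 * (N * (j + 1).choose 2) := by ring
        omega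
      · have h5 : ρ ≤ t * j := by
          have h6 : 1 ≤ η * j := Nat.mul_pos (by omega) h0
          omega
        refine key (t * j + 1 - ρ) (by omega) (by omega) ?_
        have h6 : ¬ (2 * t + 1) * (j + 1).choose 2 ≤ (m + j + 1) * (t * j + 1 - ρ) :=
          fun h7 => hjP ⟨h5, h7⟩
        rw [hN]
        omega

end VP

theorem strip_of_QM {η m t D ρ : ℕ} (hη : 1 ≤ η) (hm : 100 ≤ m) (ht : 1 ≤ t)
    (hD : D + ρ = m + t * m)
    (h1 : (η + 1) * m ≤ ρ) (h2 : 16 * ρ ≤ t * m)
    (h3 : ∀ k, t * k ≤ 2 * ρ + t → η * (k + 1) ≤ m)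
    (hQ : ∀ k, 1 ≤ k → t * k ≤ 2 * ρ + t → QM η m k) :
    ∃ κ A, Strip m D κ (2 * t + 1) A := by
  obtain ⟨κ, B, g1, g2, g3, g4, g5, g6⟩ := VP.core hη hm ht hD h1 h2 h3 hQ
  exact ⟨κ, D - κ + 1 - B, g2, by omega, g4, fun r => plane_strip g1 g2 g3 g5 g6⟩

end Pool.Agent.Work.MP_0421d9_ag.LD
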