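import Pool.Agent.Work.MP_0421d9_ag.VSquare

/-!
Systems of equal multiplicities: from `K ^ 2` points to `r` points by strips.
-/

namespace Pool.Agent.Work.MP_0421d9_ag.LD

open MvPolynomial Module

/-- the plane without points -/
theorem hP_le_choose (D m N : ℕ) : hP D m N ≤ (D + 2).choose 2 := by
  have h1 : hP D m N ≤ hP D m 0 := hT_anti (Nat.zero_le N)
  refine h1.trans (le_of_eq ?_)
  unfold hP hT
  have h2 : TS D Set.univ m (gpt 0) = Rd D := by
    ext F
    rw [mem_TS]
    constructor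
    · rintro ⟨h1, -⟩
      exact h1
    · intro h1
      exact ⟨h1, fun i => i.elim0, fun _ _ => trivial⟩
  rw [h2, finrank_Rd]

theorem choose_two_succ' (D : ℕ) : (D + 3).choose 2 = (D + 2).choose 2 + (D + 2) := by
  have h1 : 2 * (D + 3).choose 2 = (D + 2) * (D + 3) := two_mul_choose (D + 2)
  have h2 : 2 * (D + 2).choose 2 = (D + 1) * (D + 2) := two_mul_choose (D + 1)
  nlinarith

/-- the expected dimension in a degree with a strip -/
theorem hP_of_strip {m D κ N A r : ℕ} (h : PR m r) (hs : Strip m D κ N A) :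
    hP D m (r + N) = (D + 2).choose 2 - (r + N) * (m + 1).choose 2 := by
  obtain ⟨hκD, hA, hid, hstrip⟩ := hs
  have hcount := hP_count D m (r + N)
  have h3 := hstrip r
  rw [h, h] at h3
  obtain ⟨δ, rfl⟩ : ∃ δ, D = δ + κ := ⟨D - κ, by omega⟩
  have hδ1 : 1 ≤ δ := by omega
  rw [Nat.add_sub_cancel] at h3 hA
  have e1 := uz_two_choose_int (δ + κ + 1)
  have e2 := uz_two_choose_int (δ + 1)
  have e3 : (δ + 2).choose 2 = (δ - 1 + 2).choose 2 + (δ + 1) := by
    obtain ⟨x, rfl⟩ : ∃ x, δ = x + 1 := ⟨δ - 1, by omega⟩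
    exact choose_two_succ' x
  have e4 : (δ + κ + 2).choose 2 + A = (δ + 2).choose 2 + N * (m + 1).choose 2 := by
    rcases Nat.eq_zero_or_pos κ with hκ | hκ
    · subst hκ
      simp only [Nat.zero_mul, Nat.add_zero, Nat.choose_zero_succ] at hid ⊢
      omega
    · have e5 := uz_two_choose_int' hκ
      have h8 : δ + κ + 1 + 1 = δ + κ + 2 := rfl
      have h9 : δ + 1 + 1 = δ + 2 := rfl
      rw [h8] at e1
      rw [h9] at e2
      have h10 : (2 : ℤ) * (((δ + κ + 2).choose 2 + A : ℕ) : ℤ) =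
          2 * (((δ + 2).choose 2 + N * (m + 1).choose 2 : ℕ) : ℤ) := by
        have hid' : ((A + κ * (δ + κ + 1) : ℕ) : ℤ) =
            ((N * (m + 1).choose 2 + κ.choose 2 : ℕ) : ℤ) := by rw [hid]
        push_cast at hid' e1 e2 e5 ⊢
        linear_combination e1 - e2 + e5 + 2 * hid'
      have h11 := mul_left_cancel₀ (by norm_num : (2 : ℤ) ≠ 0) h10
      exact_mod_cast h11
  rw [Nat.add_mul] at hcount ⊢
  have h4 : max ((δ + 2).choose 2 - r * (m + 1).choose 2 - A)
      ((δ - 1 + 2).choose 2 - r * (m + 1).choose 2) ≤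
      (δ + κ + 2).choose 2 - (r * (m + 1).choose 2 + N * (m + 1).choose 2) := by
    apply max_le <;> omega
  omega

/-- only the critical degrees matter -/
theorem PR_of_critical {m R : ℕ}
    (hs : ∀ D, (D + 1).choose 2 < R * (m + 1).choose 2 →
      R * (m + 1).choose 2 ≤ (D + 3).choose 2 →
      hP D m R = (D + 2).choose 2 - R * (m + 1).choose 2) : PR m R := by
  intro D
  have hcount := hP_count D m R
  have hle := hP_le_choose D m R
  rcases Nat.lt_or_ge ((D + 1).choose 2) (R * (m + 1).choose 2) with h1 | h1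
  · rcases Nat.lt_or_ge ((D + 3).choose 2) (R * (m + 1).choose 2) with h2 | h2
    · -- empty: a higher degree is critical
      have hex : ∃ x, R * (m + 1).choose 2 ≤ (D + x + 3).choose 2 := by
        refine ⟨R * (m + 1).choose 2, ?_⟩
        have h3 := two_mul_choose (D + R * (m + 1).choose 2 + 2)
        have h4 : D + R * (m + 1).choose 2 + 2 + 1 = D + R * (m + 1).choose 2 + 3 := rfl
        rw [h4] at h3
        nlinarith
      classical
      have hx := Nat.find_spec hex
      set x := Nat.find hex with hxdef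
      have hx0 : x ≠ 0 := by
        intro h0
        rw [h0] at hx
        simp only [Nat.add_zero] at hx
        omega
      obtain ⟨y, hy⟩ : ∃ y, x = y + 1 := ⟨x - 1, by omega⟩
      have hmin : ¬ R * (m + 1).choose 2 ≤ (D + y + 3).choose 2 :=
        Nat.find_min hex (by omega)
      push Not at hmin
      rw [hy] at hx
      have hmono : (D + (y + 1) + 1).choose 2 ≤ (D + y + 3).choose 2 :=
        Nat.choose_le_choose 2 (by omega)
      have h5 := hs (D + (y + 1)) (by omega) hx
      have h6 : hP D m R ≤ hP (D + (y + 1)) m R := by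
        have h7 : ∀ z, hP D m R ≤ hP (D + z) m R := by
          intro z
          induction z with
          | zero => exact le_rfl
          | succ z ih => exact ih.trans (hP_le_succ _ _ _)
        exact h7 _
      rw [h5] at h6
      have h8 : D + (y + 1) + 2 = D + y + 3 := by omega
      rw [h8] at h6
      have h9 : (D + 2).choose 2 ≤ (D + 3).choose 2 := Nat.choose_le_choose 2 (by omega)
      omega
    · exact hs D h1 h2
  · -- regular
    have key : ∀ D, R * (m + 1).choose 2 ≤ (D + 1).choose 2 →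
        hP D m R + R * (m + 1).choose 2 ≤ (D + 2).choose 2 := by
      intro D
      induction D with
      | zero =>
        intro h
        have h0 : (0 + 1).choose 2 = 0 := rfl
        rw [h0] at h
        have h2 := hP_le_choose 0 m R
        omega
      | succ D ih =>
        intro h
        have h2 := hP_succ_le D m R
        have h3 := choose_two_succ' D
        have h4 : D + 1 + 1 = D + 2 := rfl
        have h5 : D + 1 + 2 = D + 3 := rfl
        rw [h4] at h
        rw [h5]
        rcases Nat.lt_or_ge ((D + 1).choose 2) (R * (m + 1).choose 2) with h6 | h6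
        · have h7 := hs D h6 (by omega)
          omega
        · have h7 := ih h6
          omega
    have h2 := key D h1
    omega

theorem PR_step {m r N : ℕ} (h : PR m r)
    (hs : ∀ D, (D + 1).choose 2 < (r + N) * (m + 1).choose 2 →
      (r + N) * (m + 1).choose 2 ≤ (D + 3).choose 2 → ∃ κ A, Strip m D κ N A) :
    PR m (r + N) := by
  apply PR_of_critical
  intro D h1 h2
  obtain ⟨κ, A, h3⟩ := hs D h1 h2
  exact hP_of_strip h h3

/-- the critical degrees -/
theorem critical_bounds {m X y R D : ℕ} (hX : 900 ≤ X) (hy : X ≤ 2 * y) (hyX : y ≤ X)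
    (hm : 1000 ≤ m) (hXm : X * X ≤ 400 * m) (hR : y * y ≤ R) (hR' : R ≤ y * y + 6 * X)
    (h1 : (D + 1).choose 2 < R * (m + 1).choose 2)
    (h2 : R * (m + 1).choose 2 ≤ (D + 3).choose 2) : y * m ≤ D + 2 ∧ D ≤ (y + 7) * m := by
  have e1 := two_mul_choose m
  have e2 := two_mul_choose D
  have e3 : 2 * (D + 3).choose 2 = (D + 2) * (D + 3) := two_mul_choose (D + 2)
  have h3 : D * (D + 1) < R * (m * (m + 1)) := by
    rw [← e2, ← e1]
    calc 2 * (D + 1).choose 2 < 2 * (R * (m + 1).choose 2) := by omega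
      _ = R * (2 * (m + 1).choose 2) := by ring
  have h4 : R * (m * (m + 1)) ≤ (D + 2) * (D + 3) := by
    rw [← e3, ← e1]
    calc R * (2 * (m + 1).choose 2) = 2 * (R * (m + 1).choose 2) := by ring
      _ ≤ 2 * (D + 3).choose 2 := by omega
  constructor
  · by_contra hcon
    push Not at hcon
    have h5 : (D + 2) * (D + 3) ≤ (y * m) * (y * m) := Nat.mul_le_mul (by omega) (by omega)
    have h6 : y * y * (m * (m + 1)) ≤ R * (m * (m + 1)) := Nat.mul_le_mul_right _ hR
    have h7 : 0 < y * y * m :=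
      Nat.mul_pos (Nat.mul_pos (by omega) (by omega)) (by omega)
    nlinarith
  · have hyR : R ≤ (y + 6) * (y + 6) := by nlinarith
    have h5 : D * D < (y + 6) * (m + 1) * ((y + 6) * (m + 1)) := by
      calc D * D ≤ D * (D + 1) := Nat.mul_le_mul_left _ (by omega)
        _ < R * (m * (m + 1)) := h3
        _ ≤ (y + 6) * (y + 6) * (m * (m + 1)) := Nat.mul_le_mul_right _ hyR
        _ ≤ (y + 6) * (y + 6) * ((m + 1) * (m + 1)) := by
            apply Nat.mul_le_mul_left
            apply Nat.mul_le_mul_right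
            omega
        _ = _ := by ring
    have h6 : D < (y + 6) * (m + 1) := by
      by_contra hcon
      push Not at hcon
      have := Nat.mul_le_mul hcon hcon
      omega
    have h7 : X + 6 ≤ m := by
      by_contra hcon
      push Not at hcon
      have h8 : (m - 5) * (m - 5) ≤ X * X := Nat.mul_le_mul (by omega) (by omega)
      obtain ⟨z, rfl⟩ : ∃ z, m = z + 1000 := ⟨m - 1000, by omega⟩
      have h9 : z + 1000 - 5 = z + 995 := by omega
      rw [h9] at h8
      nlinarith
    nlinarith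

/-- one step -/
theorem steer_step {η m X y R e r₀ : ℕ} (hX : 900 ≤ X) (hy : X ≤ 2 * y) (hyX : y ≤ X)
    (hy' : X + 2 ≤ 2 * y + 2 * e)
    (hm : 1000 ≤ m) (hXm : X * X ≤ 400 * m) (hR : y * y ≤ R) (hR' : R ≤ y * y + 6 * X)
    (he : η + 8 ≤ e) (he' : e + 1 ≤ 2 * (η + 8)) (hR0 : r₀ + (2 * (y - 1 + e) + 1) = R)
    (h : PR m r₀)
    (hstrip : ∀ D t ρ, X ≤ 2 * t → D + ρ = m + t * m → (η + 1) * m ≤ ρ →
      ρ ≤ (2 * (η + 8) + 1) * m → ∃ κ A, Strip m D κ (2 * t + 1) A) : PR m R := by
  rw [← hR0] at hR hR' ⊢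
  apply PR_step h
  intro D h1 h2
  obtain ⟨h3, h4⟩ := critical_bounds hX hy hyX hm hXm hR hR' h1 h2
  have hy1 : 1 ≤ y := by omega
  obtain ⟨z, rfl⟩ : ∃ z, y = z + 1 := ⟨y - 1, by omega⟩
  rw [Nat.add_sub_cancel] at *
  have e1 : (z + 1 + 7) * m + (η + 1) * m ≤ m + (z + e) * m := by
    have e2 : (z + 1 + 7) * m + (η + 1) * m = (z + (η + 9)) * m := by ring
    have e3 : m + (z + e) * m = (z + (e + 1)) * m := by ring
    rw [e2, e3]
    exact Nat.mul_le_mul_right _ (by omega)
  refine hstrip D (z + e) (m + (z + e) * m - D) (by omega) (by omega) (by omega) ?_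
  have e2 : m + (z + e) * m + 2 ≤ (2 * (η + 8) + 1) * m + (z + 1) * m := by
    have e3 : m + (z + e) * m = (z + 1 + e) * m := by ring
    have e4 : (2 * (η + 8) + 1) * m + (z + 1) * m = (z + 1 + (2 * (η + 8) + 1)) * m := by ring
    rw [e3, e4]
    have e5 : (z + 1 + e) * m + m ≤ (z + 1 + (2 * (η + 8) + 1)) * m := by
      calc (z + 1 + e) * m + m = (z + 1 + e + 1) * m := by ring
        _ ≤ _ := Nat.mul_le_mul_right _ (by omega)
    omega
  omega

theorem steer {η m X r : ℕ} (hη : 1 ≤ η) (hX : 100 * (η + 8) ≤ X) (hr : X * X ≤ r)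
    (hr' : r < (X + 1) * (X + 1)) (hm : 1000 ≤ m) (hrm : r ≤ 400 * m)
    (hstrip : ∀ D t ρ, X ≤ 2 * t → D + ρ = m + t * m → (η + 1) * m ≤ ρ →
      ρ ≤ (2 * (η + 8) + 1) * m → ∃ κ A, Strip m D κ (2 * t + 1) A) : PR m r := by
  have hX9 : 900 ≤ X := by omega
  have hXm : X * X ≤ 400 * m := hr.trans hrm
  -- the square root of the same parity
  obtain ⟨Y, E, hY, hYX, hrY, hE1, hE2⟩ : ∃ Y E, X ≤ Y + 2 ∧ Y + 1 ≤ X ∧ r = Y * Y + 2 * E ∧
      X ≤ E ∧ E + 2 ≤ 3 * X := by
    obtain ⟨x, rfl⟩ : ∃ x, X = x + 2 := ⟨X - 2, by omega⟩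
    have e1 : (x + 2) * (x + 2) = (x + 1) * (x + 1) + (2 * x + 3) := by ring
    have e2 : (x + 1) * (x + 1) = x * x + (2 * x + 1) := by ring
    have e3 : (x + 2 + 1) * (x + 2 + 1) = (x + 1) * (x + 1) + (4 * x + 8) := by ring
    rcases Nat.even_or_odd' (r - (x + 1) * (x + 1)) with ⟨E, hE | hE⟩
    · exact ⟨x + 1, E, by omega, by omega, by omega, by omega, by omega⟩
    · exact ⟨x, E + x + 1, by omega, by omega, by omega, by omega, by omega⟩
  obtain ⟨e, he⟩ : ∃ e, e = η + 8 := ⟨_, rfl⟩
  obtain ⟨n, hn⟩ : ∃ n, n = E / e := ⟨_, rfl⟩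
  have hdm := Nat.div_add_mod E e
  have hmod := Nat.mod_lt E (by omega : 0 < e)
  rw [← hn] at hdm
  have hn1 : 1 ≤ n := by
    rw [hn, Nat.one_le_div_iff (by omega)]
    omega
  have hn9 : 9 * n ≤ E := by
    have : 9 * n ≤ e * n := Nat.mul_le_mul_right _ (by omega)
    omega
  obtain ⟨K, hK⟩ : ∃ K, Y = K + n := ⟨Y - n, by omega⟩
  obtain ⟨n', rfl⟩ : ∃ n', n = n' + 1 := ⟨n - 1, by omega⟩
  -- the steps except the last one
  have key : ∀ i, i ≤ n' → PR m ((K + i) * (K + i) + 2 * (e * i)) := by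
    intro i
    induction i with
    | zero =>
      intro _
      simp only [Nat.add_zero, Nat.mul_zero]
      exact PR_square (by omega) K
    | succ i ih =>
      intro hi
      have h1 := ih (by omega)
      have h2 : e * (i + 1) ≤ e * (n' + 1) := Nat.mul_le_mul_left _ (by omega)
      refine steer_step (η := η) (X := X) (y := K + (i + 1)) (e := e) hX9 (by omega) (by omega)
        (by omega) hm hXm (by omega) (by omega) (by omega) (by omega) ?_ h1 hstrip
      have h3 : K + (i + 1) - 1 = K + i := by omega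
      rw [h3]
      ring
  have h1 := key n' le_rfl
  obtain ⟨f, hf⟩ : ∃ f, f = E - e * n' := ⟨_, rfl⟩
  have h2 : e * (n' + 1) = e * n' + e := by ring
  have hf' : E = e * n' + f := by omega
  refine steer_step (η := η) (X := X) (y := Y) (e := f) hX9 (by omega) (by omega)
    (by omega) hm hXm (by omega) (by omega) (by omega) (by omega) ?_ h1 hstrip
  have h3 : Y - 1 = K + n' := by omega
  rw [h3, hrY, hK, hf']
  ring

end Pool.Agent.Work.MP_0421d9_ag.LD
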