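import Pool.Agent.Work.MP_0421d9_ag.VPlane
import Pool.Agent.Work.MP_0421d9_ag.VSteer

/-!
From maximal rank on `P¹ × P¹` to the plane.
-/

namespace Pool.Agent.Work.MP_0421d9_ag.LD

open MvPolynomial Module

/-- the multiplicities of the corner systems are small -/
theorem mult_bound {m k X t c r : ℕ} (ht : X ≤ 2 * t) (hk : t * k ≤ 2 * (c * m) + t)
    (hX : X * X ≤ r) (hr : r < (X + 1) * (X + 1)) (hr4 : r ≤ 400 * m) (hm : 1000 ≤ m)
    (hX1 : 1 ≤ X) : r * k ^ 2 ≤ ((8 * c + 2) * m) ^ 2 := by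
  have hXm : X ≤ m := by
    by_contra h
    have h1 : (m + 1) * (m + 1) ≤ X * X := Nat.mul_le_mul (by omega) (by omega)
    have h2 : (m + 1) * (m + 1) = m * m + 2 * m + 1 := by ring
    have h3 : 1000 * m ≤ m * m := Nat.mul_le_mul_right _ hm
    omega
  have h1 : X * k ≤ (4 * c + 1) * m := by
    rcases Nat.eq_zero_or_pos k with rfl | hk0
    · simp
    · obtain ⟨l, rfl⟩ : ∃ l, k = l + 1 := ⟨k - 1, by omega⟩
      have h2 : t * l ≤ 2 * (c * m) := by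
        have : t * (l + 1) = t * l + t := by ring
        omega
      have h3 : X * l ≤ 2 * t * l := Nat.mul_le_mul_right _ ht
      calc X * (l + 1) = X * l + X := by ring
        _ ≤ 2 * t * l + m := Nat.add_le_add h3 hXm
        _ = 2 * (t * l) + m := by ring
        _ ≤ 2 * (2 * (c * m)) + m := by omega
        _ = (4 * c + 1) * m := by ring
  have h4 : r ≤ (2 * X) ^ 2 := by
    have : (X + 1) * (X + 1) ≤ (2 * X) * (2 * X) := Nat.mul_le_mul (by omega) (by omega)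
    rw [pow_two]
    omega
  calc r * k ^ 2 ≤ (2 * X) ^ 2 * k ^ 2 := Nat.mul_le_mul_right _ h4
    _ = (2 * (X * k)) ^ 2 := by ring
    _ ≤ (2 * ((4 * c + 1) * m)) ^ 2 := Nat.pow_le_pow_left (by omega) 2
    _ = ((8 * c + 2) * m) ^ 2 := by ring

/-- the real inequality -/
theorem real_bound {θ C₀ : ℝ} (hθ0 : 0 < θ) (hθ1 : θ ≤ 1) (hC₀ : 1 ≤ C₀) {m k r K : ℕ}
    (hK : 1 ≤ K) (hm : 1 ≤ m) (h : r * k ^ 2 ≤ (K * m) ^ 2)
    (hr : (C₀ * (K : ℝ) ^ 2) ^ 2 * (m : ℝ) ^ (2 * θ / (1 + θ)) ≤ r) :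
    C₀ * (k : ℝ) ^ (1 + θ) ≤ m := by
  have hK1 : (1 : ℝ) ≤ K := by exact_mod_cast hK
  have hm1 : (1 : ℝ) ≤ m := by exact_mod_cast hm
  set p : ℝ := (1 + θ) / 2 with hp
  have hp0 : 0 < p := by rw [hp]; linarith
  have h2p : 2 * p = 1 + θ := by rw [hp]; ring
  set B : ℝ := C₀ * (K : ℝ) ^ 2 with hB
  have hB1 : 1 ≤ B := by
    rw [hB]
    calc (1 : ℝ) = 1 * 1 ^ 2 := by norm_num
      _ ≤ C₀ * (K : ℝ) ^ 2 := by gcongr
  have hme : 1 ≤ (m : ℝ) ^ (2 * θ / (1 + θ)) := Real.one_le_rpow hm1 (by positivity)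
  have hr0 : (0 : ℝ) < r := lt_of_lt_of_le (by positivity) hr
  -- the lower bound for `r ^ p`
  have h1 : B * (m : ℝ) ^ θ ≤ (r : ℝ) ^ p := by
    have e1 : (B ^ 2 * (m : ℝ) ^ (2 * θ / (1 + θ))) ^ p ≤ (r : ℝ) ^ p :=
      Real.rpow_le_rpow (by positivity) hr hp0.le
    refine le_trans ?_ e1
    rw [Real.mul_rpow (by positivity) (by positivity), ← Real.rpow_natCast, ← Real.rpow_mul
      (by positivity), ← Real.rpow_mul (by positivity)]
    have e2 : 2 * θ / (1 + θ) * p = θ := by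
      rw [hp]
      field_simp
    have e3 : ((2 : ℕ) : ℝ) * p = 1 + θ := by
      rw [← h2p]
      norm_num
    rw [e2, e3]
    gcongr
    calc B = B ^ (1 : ℝ) := (Real.rpow_one B).symm
      _ ≤ B ^ (1 + θ) := Real.rpow_le_rpow_of_exponent_le hB1 (by linarith)
  -- the upper bound for `k ^ (1 + θ) r ^ p`
  have h2 : (k : ℝ) ^ (1 + θ) * (r : ℝ) ^ p ≤ (K : ℝ) ^ 2 * (m : ℝ) ^ (1 + θ) := by
    have e1 : (r : ℝ) * (k : ℝ) ^ 2 ≤ ((K : ℝ) * m) ^ 2 := by exact_mod_cast h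
    have e2 : ((r : ℝ) * (k : ℝ) ^ 2) ^ p ≤ (((K : ℝ) * m) ^ 2) ^ p :=
      Real.rpow_le_rpow (by positivity) e1 hp0.le
    have e3 : ((2 : ℕ) : ℝ) * p = 1 + θ := by
      rw [← h2p]
      norm_num
    rw [Real.mul_rpow (by positivity) (by positivity), ← Real.rpow_natCast, ← Real.rpow_natCast,
      ← Real.rpow_mul (by positivity), ← Real.rpow_mul (by positivity), e3,
      Real.mul_rpow (by positivity) (by positivity)] at e2
    rw [mul_comm]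
    refine e2.trans ?_
    gcongr
    calc (K : ℝ) ^ (1 + θ) ≤ (K : ℝ) ^ (2 : ℝ) :=
          Real.rpow_le_rpow_of_exponent_le hK1 (by linarith)
      _ = (K : ℝ) ^ 2 := by norm_num
  have hrp : (0 : ℝ) < (r : ℝ) ^ p := Real.rpow_pos_of_pos hr0 p
  have h3 : C₀ * (k : ℝ) ^ (1 + θ) * (r : ℝ) ^ p ≤ m * (r : ℝ) ^ p := by
    calc C₀ * (k : ℝ) ^ (1 + θ) * (r : ℝ) ^ p = C₀ * ((k : ℝ) ^ (1 + θ) * (r : ℝ) ^ p) := by ring
      _ ≤ C₀ * ((K : ℝ) ^ 2 * (m : ℝ) ^ (1 + θ)) := by gcongr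
      _ = B * (m : ℝ) ^ (1 + θ) := by rw [hB]; ring
      _ = B * (m : ℝ) ^ θ * m := by
          rw [add_comm, Real.rpow_add (by positivity), Real.rpow_one]
          ring
      _ ≤ (r : ℝ) ^ p * m := by gcongr
      _ = m * (r : ℝ) ^ p := by ring
  exact le_of_mul_le_mul_right h3 hrp

theorem plane_of_QT {θ : ℝ} (hθ0 : 0 < θ) (hθ1 : θ ≤ 1) (h : QT θ) :
    ∃ C : ℝ, ∀ m r : ℕ, C * (m : ℝ) ^ (2 * θ / (1 + θ)) ≤ r → PR m r := by
  obtain ⟨η, C₀, hη, hC₀, hQ⟩ := h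
  obtain ⟨c, hc⟩ : ∃ c : ℕ, c = 2 * (η + 8) + 1 := ⟨_, rfl⟩
  obtain ⟨K, hK⟩ : ∃ K : ℕ, K = 8 * c + 2 := ⟨_, rfl⟩
  obtain ⟨M₀, hM₀⟩ : ∃ M₀ : ℕ, M₀ = 1000 + 4 * η := ⟨_, rfl⟩
  obtain ⟨X₀, hX₀⟩ : ∃ X₀ : ℕ, X₀ = 100 * (η + 8) + 32 * c + 8 * (η * c) := ⟨_, rfl⟩
  refine ⟨(C₀ * (K : ℝ) ^ 2) ^ 2 + 400 * M₀ + (X₀ : ℝ) ^ 2, fun m r hr => ?_⟩
  by_cases h400 : 400 * m ≤ r
  · intro D
    rw [← hP_eq (gpt_generic r)]
    exact uniform_main h400 (gpt_generic r)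
  rw [not_le] at h400
  have hm1 : 1 ≤ m := by
    by_contra h0
    omega
  have hm1' : (1 : ℝ) ≤ m := by exact_mod_cast hm1
  have hme : 1 ≤ (m : ℝ) ^ (2 * θ / (1 + θ)) := Real.one_le_rpow hm1' (by positivity)
  have hrC : (C₀ * (K : ℝ) ^ 2) ^ 2 + 400 * M₀ + (X₀ : ℝ) ^ 2 ≤ r := by
    refine le_trans ?_ hr
    exact le_mul_of_one_le_right (by positivity) hme
  have hmM : M₀ ≤ m := by
    by_contra h1
    rw [not_le] at h1
    have h2 : (400 * M₀ : ℝ) ≤ r := by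
      have : (0 : ℝ) ≤ (C₀ * (K : ℝ) ^ 2) ^ 2 + (X₀ : ℝ) ^ 2 := by positivity
      linarith
    have h3 : 400 * M₀ ≤ r := by exact_mod_cast h2
    omega
  have hXr : X₀ ^ 2 ≤ r := by
    have h2 : ((X₀ : ℝ)) ^ 2 ≤ r := by
      have : (0 : ℝ) ≤ (C₀ * (K : ℝ) ^ 2) ^ 2 + 400 * M₀ := by positivity
      linarith
    exact_mod_cast h2
  set X := Nat.sqrt r with hXdef
  have hX1 : X * X ≤ r := Nat.sqrt_le r
  have hX2 : r < (X + 1) * (X + 1) := Nat.lt_succ_sqrt r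
  have hXX : X₀ ≤ X := by
    rw [hXdef, Nat.le_sqrt, ← pow_two]
    exact hXr
  have hηc : 0 ≤ η * c := Nat.zero_le _
  refine steer hη (by omega) hX1 hX2 (by omega) h400.le ?_
  intro D t ρ ht hD h1 h2
  have hρ : ρ ≤ c * m := by rw [hc]; exact h2
  have ht16 : 16 * c ≤ t := by omega
  have ht4 : 4 * (η * c) ≤ t := by omega
  have hkb : ∀ k, t * k ≤ 2 * ρ + t → t * k ≤ 2 * (c * m) + t := fun k hk => by omega
  refine strip_of_QM hη (by omega) (by omega) hD h1 ?_ ?_ ?_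
  · calc 16 * ρ ≤ 16 * (c * m) := by omega
      _ = 16 * c * m := by ring
      _ ≤ t * m := Nat.mul_le_mul_right _ ht16
  · intro k hk
    have h3 := hkb k hk
    by_contra h4
    rw [not_le] at h4
    have ht0 : 0 < t := by omega
    have h5 : t * m < t * (η * (k + 1)) := Nat.mul_lt_mul_of_pos_left h4 ht0
    have h6 : t * (η * (k + 1)) = η * (t * k + t) := by ring
    have h7 : η * (t * k + t) ≤ η * (2 * (c * m) + t + t) := Nat.mul_le_mul_left _ (by omega)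
    have h8 : η * (2 * (c * m) + t + t) = 2 * (η * c) * m + 2 * η * t := by ring
    have h9 : 4 * (η * c) * m ≤ t * m := Nat.mul_le_mul_right _ ht4
    have h10 : 4 * η * t ≤ m * t := Nat.mul_le_mul_right _ (by omega)
    have h11 : 4 * (η * c) * m = 2 * (2 * (η * c) * m) := by ring
    have h12 : 4 * η * t = 2 * (2 * η * t) := by ring
    have h13 : m * t = t * m := Nat.mul_comm _ _
    omega
  · intro k hk1 hk H L N hH hL hHm
    refine (hQ k L H N hk1 hL hH ?_).swap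
    have h3 := mult_bound (c := c) ht (hkb k hk) hX1 hX2 h400.le (by omega) (by omega)
    rw [← hK] at h3
    have h4 : C₀ * (k : ℝ) ^ (1 + θ) ≤ m := by
      refine real_bound hθ0 hθ1 hC₀ (K := K) (by omega) hm1 h3 ?_
      refine le_trans ?_ hr
      gcongr
      have : (0 : ℝ) ≤ 400 * M₀ + (X₀ : ℝ) ^ 2 := by positivity
      linarith
    refine h4.trans ?_
    exact_mod_cast hHm

end Pool.Agent.Work.MP_0421d9_ag.LD
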