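import Pool.Agent.Work.MP_0421d9_ag.VCover
import Pool.Agent.Work.MP_0421d9_ag.VOdd

/-!
Maximal rank for all numbers of points, for one multiplicity.
-/

namespace Pool.Agent.Work.MP_0421d9_ag.LD

open MvPolynomial Module

theorem Par.level {η : ℕ} (P : Par η) {j M k L : ℕ} (hj : 1 ≤ j) (hM : 3 ≤ M) (n : ℕ → ℕ)
    (hn : ∀ i < j, 1 ≤ n i ∧ n i ≤ M)
    (hcop : ∀ i < j, ∀ i' < j, i ≠ i' → Nat.Coprime (n i) (n i'))
    (hk : M * P.Z + M ^ 2 * (P.W2 + 1) ≤ k)
    (hγ : k * (k + 1) * (P.Z + 4 * M * P.s) ≤ P.s * P.Z * L)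
    (hT : (j + 5) * ((2 * η + 1) * P.s) + j * (1 + P.s) ≤ j * P.W2)
    (hT' : j * (P.W1 + P.s + 1) ≤ P.W3 + 1)
    (hP : k ≤ ∏ i ∈ Finset.range j, n i) {H : ℕ} (hH : (2 * j + 5) * k ≤ H) (N : ℕ) :
    MR H L k N := by
  have p1 := P.h1
  have p2 := P.h2
  have p3 := P.h3
  have p4 := P.hZ2
  have p5 := P.hs
  have hcov := fun {H : ℕ} (hH : (2 * j + 3) * k ≤ H) =>
    P.cover hj n hn hcop hk hγ hT hT' hP (H := H) hH
  have hkZ : P.Z ≤ k := by
    have : P.Z ≤ M * P.Z := Nat.le_mul_of_pos_left _ (by omega)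
    omega
  have hγ1 := P.thin_cond hγ
  have hL2 : 2 ≤ L := by
    have := P.two_le hkZ hγ1
    omega
  have e1 : (2 * j + 5) * k = (2 * j + 3) * k + 2 * k := by ring
  rcases Nat.even_or_odd' N with ⟨t, rfl | rfl⟩
  · exact hcov (by omega) t
  · -- one strip with an even number of points, and a remainder of height about `3 k / 2`
    have hk1 : 2 * P.Z + 4 * (P.W2 + 1) ≤ k := by
      have h1 : 3 * P.Z ≤ M * P.Z := Nat.mul_le_mul_right _ hM
      have h2 : 3 ^ 2 * (P.W2 + 1) ≤ M ^ 2 * (P.W2 + 1) :=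
        Nat.mul_le_mul_right _ (Nat.pow_le_pow_left hM 2)
      omega
    have hγ2 : k * (k + 1) * (P.Z + 12 * P.s) ≤ P.s * P.Z * L := by
      refine le_trans (Nat.mul_le_mul_left _ ?_) hγ
      have h3 : 12 * P.s ≤ 4 * M * P.s := Nat.mul_le_mul_right _ (by omega)
      omega
    have hodd : GP 1 k L H := by
      refine strip_sum (p := 1) le_rfl hL2 hγ1 (u := H - (3 * k - 2 * P.W1) / 2)
        (v := H - (3 * k - 2 * P.W2 + 1) / 2) ?_ ?_ ?_ ?_ ?_
      · omega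
      · omega
      · omega
      · intro R h1 h2
        exact hcov (by omega)
      · intro R h1 h2
        rw [GP_one]
        exact P.odd hk1 hγ2 (by omega) (by omega)
    exact hodd t

end Pool.Agent.Work.MP_0421d9_ag.LD
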