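import Pool.Agent.Work.MP_0421d9_ag.VOdd

/-!
Quasi-homogeneous systems: one point of large multiplicity `n` and points of multiplicity `m`
(helper7, after the plan of helper13). Wide strips: they are exact since the long side of the
rectangle is the degree.
-/

namespace Pool.Agent.Work.MP_0421d9_ag.LD

open MvPolynomial Module

/-! ### wide strips -/

theorem vq_wide {η₀ : ℕ} {C₀ θ : ℝ} (hQ : ∀ k H L N : ℕ, 1 ≤ k → η₀ * k ≤ H → η₀ * k ≤ L →
      C₀ * (k : ℝ) ^ (1 + θ) ≤ L → MR H L k N)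
    {D m μ n T : ℕ} (hμ1 : 1 ≤ μ) (hμm : μ ≤ m) (hημ : η₀ * μ ≤ m + μ + 1)
    (hT1 : η₀ * μ ≤ T) (hT2 : C₀ * (μ : ℝ) ^ (1 + θ) ≤ T)
    (hT : m * (m + 1) * (T + m) ≤ n * (μ * (μ + 1))) (hn : 2 * m ≤ n) (hD : n + (m + μ) ≤ D)
    (t : ℕ) : voF D (m + μ) m (2 * t + 1) := by
  have hm1 : 1 ≤ m := hμ1.trans hμm
  have hm1z : (1 : ℤ) ≤ m := by exact_mod_cast hm1
  have hμ1z : (1 : ℤ) ≤ μ := by exact_mod_cast hμ1
  have hμmz : (μ : ℤ) ≤ m := by exact_mod_cast hμm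
  have hnz : 2 * (m : ℤ) ≤ n := by exact_mod_cast hn
  have hDz : (n : ℤ) + (m + μ) ≤ D := by exact_mod_cast hD
  have hTz : (m : ℤ) * (m + 1) * (T + m) ≤ n * (μ * (μ + 1)) := by exact_mod_cast hT
  have hv := two_voN D (m + μ)
  have hcm := vo_two_choose m
  have hcμ := vo_two_choose μ
  push_cast at hv
  -- one number of points
  have hone : ∀ t : ℕ, 1 ≤ t →
      (2 * (t : ℤ) - 1) * (((m + 1).choose 2 : ℕ) : ℤ) ≤ voN D (m + μ) →
      voF D (m + μ) m (2 * t + 1) := by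
    intro t ht hNt
    obtain ⟨h, hh⟩ : ∃ h : ℤ, h = D + 1 - m - t * (m - μ) := ⟨_, rfl⟩
    have g1 : (2 * (t : ℤ) - 1) * (m * (m + 1)) ≤ (m + μ + 1) * (2 * D + 2 - (m + μ)) := by
      rw [← hv, ← hcm]
      linarith
    have g2 : (m - μ : ℤ) * ((2 * (t : ℤ) - 1) * (m * (m + 1))) ≤
        (m - μ) * ((m + μ + 1) * (2 * D + 2 - (m + μ))) :=
      mul_le_mul_of_nonneg_left g1 (by linarith)
    have g3 : (m : ℤ) * (m + 1) * (2 * h) + 2 * (m * (m + 1)) * (m - μ) =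
        μ * (μ + 1) * (2 * D + 2 - (m + μ)) +
        ((m - μ : ℤ) * ((m + μ + 1) * (2 * D + 2 - (m + μ))) -
          (m - μ) * ((2 * (t : ℤ) - 1) * (m * (m + 1)))) := by
      rw [hh]
      ring
    have g4 : (μ : ℤ) * (μ + 1) * (2 * n) ≤ μ * (μ + 1) * (2 * D + 2 - (m + μ)) :=
      mul_le_mul_of_nonneg_left (by linarith) (by positivity)
    have hmm : (0 : ℤ) < m * (m + 1) := by positivity
    have g5 : (m : ℤ) * (m + 1) * (T + m) ≤ m * (m + 1) * (h + (m - μ)) := by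
      nlinarith
    have g6 : (T : ℤ) + m ≤ h + (m - μ) := le_of_mul_le_mul_left g5 hmm
    obtain ⟨H, hH⟩ : ∃ H : ℕ, (H : ℤ) = h :=
      ⟨h.toNat, Int.toNat_of_nonneg (by have := Int.natCast_nonneg T; linarith)⟩
    have hTH : T ≤ H := by
      have : (T : ℤ) ≤ H := by rw [hH]; linarith
      exact_mod_cast this
    have hHe : H + m * (2 * t + 1) = D + (m + μ) * t + 1 := by
      have : (H : ℤ) + m * (2 * t + 1) = D + (m + μ) * t + 1 := by
        rw [hH, hh]; ring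
      exact_mod_cast this
    have e1 := transform (D := D) (κ := m + μ) (m := m) (t := t) (H := H) (k := μ) ht rfl
      (by omega) hHe
    have e2 : MR (m + μ + 1) H μ (2 * t + 1) := by
      refine hQ μ (m + μ + 1) H (2 * t + 1) hμ1 hημ (hT1.trans hTH) (hT2.trans ?_)
      exact_mod_cast hTH
    have e3 := e2.swap
    unfold MR at e3
    rw [e3] at e1
    have hHz : (H : ℤ) + m * (2 * t + 1) = D + (m + μ) * t + 1 := by exact_mod_cast hHe
    have e4 : 2 * (voN D (m + μ) - (2 * t + 1) * (((m + 1).choose 2 : ℕ) : ℤ)) =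
        2 * (((H * (m + μ + 1) : ℕ) : ℤ) - (((2 * t + 1) * (μ + 1).choose 2 : ℕ) : ℤ)) := by
      push_cast
      linear_combination hv - (2 * t + 1 : ℤ) * hcm + (2 * t + 1 : ℤ) * hcμ -
        2 * (m + μ + 1 : ℤ) * hHz
    unfold voF
    push_cast
    generalize H * (m + μ + 1) = y1 at *
    generalize (2 * t + 1) * (μ + 1).choose 2 = y2 at *
    generalize (2 * (t : ℤ) + 1) * (((m + 1).choose 2 : ℕ) : ℤ) = y3 at *
    omega
  -- the critical number of points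
  have hc1 : 1 ≤ (m + 1).choose 2 := Nat.choose_pos (by omega)
  obtain ⟨v, hvv⟩ : ∃ v : ℕ, (v : ℤ) = voN D (m + μ) := by
    refine ⟨(voN D (m + μ)).toNat, Int.toNat_of_nonneg ?_⟩
    have : (0 : ℤ) ≤ (m + μ + 1) * (2 * D + 2 - (m + μ)) :=
      mul_nonneg (by linarith) (by linarith)
    linarith
  have hv3 : 3 * (m + 1).choose 2 ≤ v := by
    have g1 : 2 * (3 * (((m + 1).choose 2 : ℕ) : ℤ)) ≤ 2 * (v : ℤ) := by
      rw [hvv, hv]
      have g2 : (m + 1 : ℤ) * (2 * (2 * m)) ≤ (m + μ + 1) * (2 * D + 2 - (m + μ)) :=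
        mul_le_mul (by linarith) (by linarith) (by linarith) (by linarith)
      nlinarith
    have g3 : (3 * (((m + 1).choose 2 : ℕ) : ℤ)) ≤ (v : ℤ) := by linarith
    exact_mod_cast g3
  set N₀ := v / (m + 1).choose 2 with hN₀
  have hN1 : N₀ * (m + 1).choose 2 ≤ v := Nat.div_mul_le_self _ _
  have hN2 : v < (N₀ + 1) * (m + 1).choose 2 :=
    (Nat.div_lt_iff_lt_mul hc1).mp (Nat.lt_succ_iff.mpr (le_refl N₀))
  have hN3 : 3 ≤ N₀ := (Nat.le_div_iff_mul_le hc1).mpr hv3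
  obtain ⟨t₀, ht₀⟩ : ∃ t, 2 * t + 1 ≤ N₀ ∧ N₀ ≤ 2 * t + 2 := ⟨(N₀ - 1) / 2, by omega, by omega⟩
  have ht1 : 1 ≤ t₀ := by omega
  have hlow : (2 * t₀ + 1) * (m + 1).choose 2 ≤ v :=
    (Nat.mul_le_mul_right _ ht₀.1).trans hN1
  have hup : v ≤ (2 * (t₀ + 1) + 1) * (m + 1).choose 2 :=
    hN2.le.trans (Nat.mul_le_mul_right _ (by omega))
  have hlowz : (2 * (t₀ : ℤ) + 1) * (((m + 1).choose 2 : ℕ) : ℤ) ≤ voN D (m + μ) := by
    rw [← hvv]; exact_mod_cast hlow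
  have hupz : voN D (m + μ) ≤ (2 * ((t₀ : ℤ) + 1) + 1) * (((m + 1).choose 2 : ℕ) : ℤ) := by
    rw [← hvv]; exact_mod_cast hup
  have hc0 : (0 : ℤ) ≤ (((m + 1).choose 2 : ℕ) : ℤ) := Int.natCast_nonneg _
  rcases Nat.lt_or_ge t₀ t with ht | ht
  · have g1 := hone (t₀ + 1) (by omega) (by push_cast; linarith)
    unfold voF at g1 ⊢
    have g2 : hF D (m + μ) m (2 * t + 1) ≤ hF D (m + μ) m (2 * (t₀ + 1) + 1) :=
      hT_anti (by omega)
    push_cast at g1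
    rw [max_eq_left (by linarith)] at g1
    refine le_trans ?_ (le_max_left _ _)
    have g3 : (hF D (m + μ) m (2 * t + 1) : ℤ) ≤ hF D (m + μ) m (2 * (t₀ + 1) + 1) := by
      exact_mod_cast g2
    exact g3.trans g1
  · refine voF_anti (N' := 2 * t₀ + 1) (by omega) (hone t₀ ht1 (by nlinarith)) ?_
    push_cast
    exact hlowz

/-! ### the choice of the number of points -/

theorem vq_choose {D m s x : ℕ} (hm : 1 ≤ m) (hx : 1 ≤ x) (hxD : x ≤ D)
    (hXc : (((m + 1).choose 2 : ℕ) : ℤ) ≤ voN D (x - 1))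
    (hrows : voN D (x - 1) + 2 * (((m + 1).choose 2 : ℕ) : ℤ) ≤ voN D (x - 1 + s)) :
    ∃ t₁ κ : ℕ, x ≤ κ ∧ κ + 1 ≤ x + s ∧
      voN D (κ - 1) ≤ (2 * (t₁ : ℤ) + 1) * (((m + 1).choose 2 : ℕ) : ℤ) ∧
      (2 * (t₁ : ℤ) + 1) * (((m + 1).choose 2 : ℕ) : ℤ) ≤ voN D κ := by
  classical
  have hc1' : 1 ≤ (m + 1).choose 2 := Nat.choose_pos (by omega)
  have hc1 : (1 : ℤ) ≤ (((m + 1).choose 2 : ℕ) : ℤ) := by exact_mod_cast hc1'
  generalize (((m + 1).choose 2 : ℕ) : ℤ) = c at *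
  set X := voN D (x - 1) with hX
  have hex : ∃ t : ℕ, X ≤ (2 * t + 1) * c := by
    refine ⟨X.toNat, ?_⟩
    have h1 : X ≤ (X.toNat : ℤ) := Int.self_le_toNat X
    have h2 : (0 : ℤ) ≤ (X.toNat : ℤ) := Int.natCast_nonneg _
    nlinarith
  obtain ⟨t₁, ht₁, hmin⟩ : ∃ t₁ : ℕ, X ≤ (2 * t₁ + 1) * c ∧ (2 * (t₁ : ℤ) + 1) * c ≤ X + 2 * c := by
    refine ⟨Nat.find hex, Nat.find_spec hex, ?_⟩
    rcases Nat.eq_zero_or_pos (Nat.find hex) with h | h
    · rw [h]; push_cast; linarith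
    · have h1 := Nat.find_min hex (m := Nat.find hex - 1) (by omega)
      rw [Nat.cast_sub h] at h1
      push Not at h1
      push_cast at h1
      linarith
  have hex2 : ∃ j : ℕ, (2 * (t₁ : ℤ) + 1) * c ≤ voN D (x - 1 + j) :=
    ⟨s, hmin.trans hrows⟩
  have hf1 := Nat.find_spec hex2
  have hf2 : Nat.find hex2 ≤ s := Nat.find_min' hex2 (hmin.trans hrows)
  have hs1 : 1 ≤ s := by
    by_contra hcon
    have h0 : s = 0 := by omega
    rw [h0, Nat.add_zero, ← hX] at hrows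
    linarith
  rcases Nat.eq_zero_or_pos (Nat.find hex2) with h | h
  · rw [h, Nat.add_zero] at hf1
    refine ⟨t₁, x, le_rfl, by omega, ht₁, hf1.trans ?_⟩
    have h1 := voN_succ (D := D) (κ := x) hx
    have h2 : (x : ℤ) ≤ D := by exact_mod_cast hxD
    rw [h1]
    linarith
  · refine ⟨t₁, x - 1 + Nat.find hex2, by omega, by omega, ?_, hf1⟩
    have h1 := Nat.find_min hex2 (m := Nat.find hex2 - 1) (by omega)
    push Not at h1
    have e1 : x - 1 + (Nat.find hex2 - 1) = x - 1 + Nat.find hex2 - 1 := by omega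
    rw [e1] at h1
    exact h1.le

/-! ### many wide strips -/

/-- all numbers of points of the parity of `q` -/
def vqW (m n q K : ℕ) : Prop := ∀ N, N % 2 = q % 2 → voF (n + K) K m N

theorem vqW_step {m n a b q A B : ℕ} (hm : 1 ≤ m) (ha : 1 ≤ a) (hs : m * (m + 1) ≤ a * n)
    (hn : 2 * m ≤ n) (hb : 3 * a ≤ b)
    (hwide : ∀ μ, a ≤ μ → μ ≤ b → ∀ D, n + (m + μ) ≤ D → ∀ t, voF D (m + μ) m (2 * t + 1))
    (hA : m + a ≤ A) (hAB : b ≤ B + a - A) (hAB' : A ≤ B)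
    (h : ∀ K, A ≤ K → K ≤ B → vqW m n q K) {K : ℕ} (h1 : A + m + 2 * a + 1 ≤ K)
    (h2 : K + a ≤ B + m + b + 1) : vqW m n (q + 1) K := by
  -- the first number `x` of the window of the new strip
  have key : ∀ x, m + a + 1 ≤ x → x + a ≤ m + b + 1 → A + x + a ≤ K → K ≤ B + x →
      vqW m n (q + 1) K := by
    intro x hx1 hx2 hx3 hx4 N hN
    have hc := vo_two_choose m
    have hmz : (1 : ℤ) ≤ m := by exact_mod_cast hm
    have hnz : 2 * (m : ℤ) ≤ n := by exact_mod_cast hn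
    have hsz : (m : ℤ) * (m + 1) ≤ a * n := by exact_mod_cast hs
    have haz : (1 : ℤ) ≤ a := by exact_mod_cast ha
    have hx1z : (((x - 1 : ℕ)) : ℤ) = x - 1 := by
      rw [Nat.cast_sub (by omega)]; simp
    have hKx : (x : ℤ) + a ≤ K := by
      have : x + a ≤ K := by omega
      exact_mod_cast this
    have hxm : (m : ℤ) + 1 ≤ x := by
      have : m + 1 ≤ x := by omega
      exact_mod_cast this
    obtain ⟨t₁, κ, k1, k2, k3, k4⟩ := vq_choose (D := n + K) (m := m) (s := a) (x := x) hm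
      (by omega) (by omega) (by
        have g1 := two_voN (n + K) (x - 1)
        rw [hx1z] at g1
        push_cast at g1
        have g2 : (m : ℤ) * (m + 1) ≤ (x - 1 + 1) * (2 * (n + K) + 2 - (x - 1)) :=
          mul_le_mul (by linarith) (by linarith) (by linarith) (by linarith)
        linarith) (by
        have g1 := voN_add (n + K) (x - 1) a
        rw [hx1z] at g1
        push_cast at g1
        have g2 : (a : ℤ) * n ≤ a * (n + K + 1 - (x - 1 + a)) :=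
          mul_le_mul_of_nonneg_left (by linarith) (by linarith)
        linarith)
    have e1 : κ = m + (κ - m) := by omega
    have e2 : κ - 1 = m + (κ - 1 - m) := by omega
    have e3 : n + K - κ = n + (K - κ) := by omega
    have e4 : n + K - κ - 1 = n + (K - κ - 1) := by omega
    refine voF_step (κ := κ) (t₁ := t₁) (p := q % 2) (by omega) (by omega) (by omega) k3 k4 ?_ ?_
      (fun t => ?_) (fun t => ?_) ?_ (by omega)
    · rw [e1]
      exact hwide (κ - m) (by omega) (by omega) _ (by omega) t₁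
    · rw [e2]
      exact hwide (κ - 1 - m) (by omega) (by omega) _ (by omega) t₁
    · rw [e3]
      exact h (K - κ) (by omega) (by omega) _ (by omega)
    · rw [e4]
      exact h (K - κ - 1) (by omega) (by omega) _ (by omega)
    · have g1 := voN_add (n + K) κ (K - κ)
      have g2 : κ + (K - κ) = K := by omega
      have g3 : (((K - κ : ℕ)) : ℤ) = K - κ := by rw [Nat.cast_sub (by omega)]
      rw [g2, g3] at g1
      push_cast at g1
      have g4 : (m : ℤ) ≤ K - κ := by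
        have : m + κ ≤ K := by omega
        have : (m : ℤ) + κ ≤ K := by exact_mod_cast this
        linarith
      have g5 : (m : ℤ) * (2 * m) ≤ (K - κ) * (n + K + 1 - (κ + (K - κ))) :=
        mul_le_mul g4 (by linarith) (by linarith) (by linarith)
      have g6 : ((q % 2 : ℕ) : ℤ) ≤ 1 := by
        have : q % 2 ≤ 1 := by omega
        exact_mod_cast this
      have g7 : (0 : ℤ) ≤ (((m + 1).choose 2 : ℕ) : ℤ) := Int.natCast_nonneg _
      have g8 : ((q % 2 : ℕ) : ℤ) * (((m + 1).choose 2 : ℕ) : ℤ) ≤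
          1 * (((m + 1).choose 2 : ℕ) : ℤ) := mul_le_mul_of_nonneg_right g6 g7
      nlinarith
  rcases Nat.lt_or_ge (B + (m + a + 1)) K with h3 | h3
  · exact key (m + b + 1 - a) (by omega) (by omega) (by omega) (by omega)
  · exact key (m + a + 1) le_rfl (by omega) (by omega) h3

theorem vq_cover {m n a b η₀ : ℕ} (hη : 1 ≤ η₀) (hm : 6 ≤ m) (ha : 1 ≤ a)
    (hs : m * (m + 1) ≤ a * n) (hn : 2 * m ≤ n) (h4 : 4 * η₀ * b ≤ m)
    (h5 : m + 24 * η₀ * a ≤ 8 * η₀ * b)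
    (hwide : ∀ μ, a ≤ μ → μ ≤ b → ∀ D, n + (m + μ) ≤ D → ∀ t, voF D (m + μ) m (2 * t + 1))
    {K : ℕ} (hK : (40 * η₀ + 4) * m ≤ K) (N : ℕ) : voF (n + K) K m N := by
  have e4 : 4 * η₀ * b = 4 * (η₀ * b) := by ring
  have e5 : 24 * η₀ * a = 24 * (η₀ * a) := by ring
  have e6 : 8 * η₀ * b = 8 * (η₀ * b) := by ring
  have hb : 3 * a ≤ b := by
    have g1 : η₀ * (3 * a) ≤ η₀ * b := by
      have : η₀ * (3 * a) = 3 * (η₀ * a) := by ring
      omega
    exact Nat.le_of_mul_le_mul_left g1 hη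
  have hbm : 4 * b ≤ m := by
    have : b ≤ η₀ * b := Nat.le_mul_of_pos_left _ hη
    omega
  have ham : 12 * a ≤ m := by
    have : a ≤ η₀ * a := Nat.le_mul_of_pos_left _ hη
    omega
  -- the windows
  have hW : ∀ q, ∀ K, (m + a) + q * (m + 2 * a + 1) ≤ K →
      K + q * a ≤ (m + b) + q * (m + b + 1) → vqW m n (q + 1) K := by
    intro q
    induction q with
    | zero =>
      intro K h1 h2 N hN
      obtain ⟨t, rfl⟩ : ∃ t, N = 2 * t + 1 := ⟨N / 2, by omega⟩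
      obtain ⟨μ, rfl⟩ : ∃ μ, K = m + μ := ⟨K - m, by omega⟩
      exact hwide μ (by omega) (by omega) _ le_rfl t
    | succ q ih =>
      intro K h1 h2
      have e1 : (q + 1) * (m + 2 * a + 1) = q * (m + 2 * a + 1) + (m + 2 * a + 1) := by ring
      have e2 : (q + 1) * (m + b + 1) = q * (m + b + 1) + (m + b + 1) := by ring
      have e3 : (q + 1) * a = q * a + a := by ring
      have e7 : q * (m + b + 1) = q * (m + 2 * a + 1) + q * a + q * (b - 3 * a) := by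
        rw [← Nat.mul_add, ← Nat.mul_add]
        congr 1
        omega
      refine vqW_step (A := (m + a) + q * (m + 2 * a + 1))
        (B := (m + b) + q * (m + b + 1) - q * a) (by omega) ha hs hn hb hwide (by omega)
        (by omega) (by omega) (fun K h3 h4 => ih K h3 (by omega)) (by omega) (by omega)
  -- the choice of `q`
  obtain ⟨q₀, hq₀⟩ : ∃ q₀, q₀ = 20 * η₀ + 1 := ⟨_, rfl⟩
  set d := m + 2 * a + 1 with hd
  obtain ⟨j, hj1, hj2⟩ : ∃ j, (m + a) + j * d ≤ K ∧ K < (m + a) + (j + 1) * d := by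
    have hKma : m + a ≤ K := by
      have : 2 * m ≤ (40 * η₀ + 4) * m := Nat.mul_le_mul_right _ (by omega)
      omega
    refine ⟨(K - (m + a)) / d, ?_, ?_⟩
    · have := Nat.div_mul_le_self (K - (m + a)) d
      omega
    · have h6 : K - (m + a) < ((K - (m + a)) / d + 1) * d :=
        (Nat.div_lt_iff_lt_mul (by omega : 0 < d)).mp (Nat.lt_succ_self _)
      omega
  have hjq : q₀ ≤ j := by
    by_contra hcon
    have g1 : (j + 1) * d ≤ q₀ * d := Nat.mul_le_mul_right _ (by omega)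
    have g2 : (q₀ + 1) * d ≤ (q₀ + 1) * (2 * m) := Nat.mul_le_mul_left _ (by omega)
    have g3 : (q₀ + 1) * (2 * m) = (40 * η₀ + 4) * m := by rw [hq₀]; ring
    have g4 : (q₀ + 1) * d = q₀ * d + d := by ring
    omega
  -- `q` with the right parity
  obtain ⟨q, hq1, hq2, hq3⟩ : ∃ q, 20 * η₀ ≤ q ∧ (q = j ∨ q + 1 = j) ∧ (q + 1) % 2 = N % 2 := by
    by_cases hpar : (j + 1) % 2 = N % 2
    · exact ⟨j, by omega, Or.inl rfl, hpar⟩
    · exact ⟨j - 1, by omega, Or.inr (by omega), by omega⟩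
  have h8 : K < (m + a) + (q + 2) * d := by
    have : (j + 1) * d ≤ (q + 2) * d := Nat.mul_le_mul_right _ (by omega)
    omega
  have h9 : (m + a) + q * d ≤ K := by
    have : q * d ≤ j * d := Nat.mul_le_mul_right _ (by omega)
    omega
  refine hW q K h9 ?_ N hq3.symm
  have e7 : q * (m + b + 1) = q * d + q * a + q * (b - 3 * a) := by
    rw [← Nat.mul_add, ← Nat.mul_add]
    congr 1
    omega
  have e8 : (q + 2) * d = q * d + 2 * d := by ring
  have g1 : 20 * η₀ * (b - 3 * a) ≤ q * (b - 3 * a) := Nat.mul_le_mul_right _ hq1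
  have g2 : 20 * η₀ * (b - 3 * a) = 20 * (η₀ * b) - 60 * (η₀ * a) := by
    rw [Nat.mul_sub]
    congr 1
    · ring
    · ring
  omega

/-! ### the constants -/

/-- quasi-homogeneous systems with one point of large multiplicity `n` -/
theorem quasi_voF {ε : ℝ} (hε : 0 < ε) (hQ : ∀ θ : ℝ, 0 < θ → θ ≤ 1 → QT θ) :
    ∃ (η : ℕ) (C : ℝ), ∀ m n K N : ℕ, C ≤ m → C * (m : ℝ) ^ (1 + ε) ≤ n → η * m ≤ K →
      voF (n + K) K m N := by
  obtain ⟨δ, hδ⟩ : ∃ δ, δ = min ε 1 := ⟨_, rfl⟩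
  have hδ0 : 0 < δ := by rw [hδ]; exact lt_min hε one_pos
  have hδ1 : δ ≤ 1 := by rw [hδ]; exact min_le_right _ _
  have hδε : δ ≤ ε := by rw [hδ]; exact min_le_left _ _
  obtain ⟨η₀, C₀, hη₀, hC₀, hQ₀⟩ := hQ (δ / 2) (by linarith) (by linarith)
  have hη₀r : (1 : ℝ) ≤ η₀ := by exact_mod_cast hη₀
  have hpos : (0 : ℝ) ≤ (48 * (η₀ : ℝ)) ^ (4 / δ) := by positivity
  refine ⟨40 * η₀ + 4, 6 + 64 * η₀ + (48 * (η₀ : ℝ)) ^ (4 / δ) + 2 * (C₀ + 3), ?_⟩
  intro m n K N hCm hCn hK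
  obtain ⟨C, hC⟩ : ∃ C : ℝ, C = 6 + 64 * η₀ + (48 * (η₀ : ℝ)) ^ (4 / δ) + 2 * (C₀ + 3) := ⟨_, rfl⟩
  rw [← hC] at hCm hCn
  have hm6r : (6 : ℝ) ≤ m := by linarith
  have hm6 : 6 ≤ m := by exact_mod_cast hm6r
  have hm64r : 64 * (η₀ : ℝ) ≤ m := by linarith
  have hx1 : (1 : ℝ) ≤ m := by linarith
  have hx0 : (0 : ℝ) < m := by linarith
  have hC0 : 2 * (C₀ + 3) ≤ C := by linarith
  have hC2 : (2 : ℝ) ≤ C := by linarith
  have hpow : (m : ℝ) ^ (1 + δ) ≤ (m : ℝ) ^ (1 + ε) :=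
    Real.rpow_le_rpow_of_exponent_le hx1 (by linarith)
  have hn' : C * (m : ℝ) ^ (1 + δ) ≤ n :=
    (mul_le_mul_of_nonneg_left hpow (by linarith)).trans hCn
  -- `m ^ (δ / 4)` is large
  have hlarge : 48 * (η₀ : ℝ) ≤ (m : ℝ) ^ (δ / 4) := by
    have g1 : (48 * (η₀ : ℝ)) ^ (4 / δ) ≤ m := by linarith
    have g2 := Real.rpow_le_rpow hpos g1 (by linarith : (0 : ℝ) ≤ δ / 4)
    rw [← Real.rpow_mul (by positivity)] at g2
    have g3 : 4 / δ * (δ / 4) = 1 := by field_simp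
    rwa [g3, Real.rpow_one] at g2
  obtain ⟨ρ, hρ⟩ : ∃ ρ : ℝ, ρ = (m : ℝ) ^ (1 - δ / 4) := ⟨_, rfl⟩
  have hρ0 : 0 < ρ := by rw [hρ]; exact Real.rpow_pos_of_pos hx0 _
  have hρm : 48 * (η₀ : ℝ) * ρ ≤ m := by
    have g1 : (m : ℝ) ^ (δ / 4) * ρ = m := by
      rw [hρ, ← Real.rpow_add hx0]
      have : δ / 4 + (1 - δ / 4) = 1 := by ring
      rw [this, Real.rpow_one]
    calc 48 * (η₀ : ℝ) * ρ ≤ (m : ℝ) ^ (δ / 4) * ρ := mul_le_mul_of_nonneg_right hlarge hρ0.le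
      _ = m := g1
  set a := ⌈ρ⌉₊ with ha
  have ha1 : ρ ≤ a := Nat.le_ceil ρ
  have ha2 : (a : ℝ) < ρ + 1 := Nat.ceil_lt_add_one hρ0.le
  have ha0 : 1 ≤ a := Nat.ceil_pos.mpr hρ0
  set b := m / (4 * η₀) with hb
  have hb1 : 4 * η₀ * b ≤ m := Nat.mul_div_le m (4 * η₀)
  have hb2 : m < 4 * η₀ * (b + 1) := by
    have h6 : m < (m / (4 * η₀) + 1) * (4 * η₀) :=
      (Nat.div_lt_iff_lt_mul (by omega : 0 < 4 * η₀)).mp (Nat.lt_succ_self _)
    rw [Nat.mul_comm]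
    exact h6
  have hbm : b ≤ m := by
    have : b ≤ 4 * η₀ * b := Nat.le_mul_of_pos_left _ (by omega)
    omega
  -- the powers
  have hpow2 : (m : ℝ) ^ 2 ≤ ρ * (m : ℝ) ^ (1 + δ) := by
    rw [hρ, ← Real.rpow_add hx0, ← Real.rpow_natCast]
    exact Real.rpow_le_rpow_of_exponent_le hx1 (by push_cast; linarith)
  have hpow1 : (m : ℝ) ≤ (m : ℝ) ^ (1 + δ) := by
    conv_lhs => rw [← Real.rpow_one (m : ℝ)]
    exact Real.rpow_le_rpow_of_exponent_le hx1 (by linarith)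
  have hpow3 : (m : ℝ) ^ 2 * (m : ℝ) ^ (1 + δ / 2) = ρ ^ 2 * (m : ℝ) ^ (1 + δ) := by
    rw [hρ, ← Real.rpow_natCast, ← Real.rpow_natCast, ← Real.rpow_mul hx0.le,
      ← Real.rpow_add hx0, ← Real.rpow_add hx0]
    congr 1
    push_cast
    ring
  have hpow4 : (m : ℝ) ≤ (m : ℝ) ^ (1 + δ / 2) := by
    conv_lhs => rw [← Real.rpow_one (m : ℝ)]
    exact Real.rpow_le_rpow_of_exponent_le hx1 (by linarith)
  have hpp : (0 : ℝ) < (m : ℝ) ^ (1 + δ) := Real.rpow_pos_of_pos hx0 _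
  have hpp2 : (0 : ℝ) < (m : ℝ) ^ (1 + δ / 2) := Real.rpow_pos_of_pos hx0 _
  -- conditions
  have hs : m * (m + 1) ≤ a * n := by
    have g1 : (m : ℝ) * (m + 1) ≤ a * n := by
      calc (m : ℝ) * (m + 1) ≤ 2 * (m : ℝ) ^ 2 := by nlinarith
        _ ≤ C * (ρ * (m : ℝ) ^ (1 + δ)) := mul_le_mul hC2 hpow2 (by positivity) (by linarith)
        _ = ρ * (C * (m : ℝ) ^ (1 + δ)) := by ring
        _ ≤ a * n := mul_le_mul ha1 hn' (by positivity) (by positivity)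
    exact_mod_cast g1
  have hn : 2 * m ≤ n := by
    have g1 : (2 : ℝ) * m ≤ n :=
      (mul_le_mul hC2 hpow1 (by positivity) (by linarith)).trans hn'
    exact_mod_cast g1
  have h5 : m + 24 * η₀ * a ≤ 8 * η₀ * b := by
    have g1 : (m : ℝ) < 4 * η₀ * (b + 1) := by exact_mod_cast hb2
    have g2 : 24 * (η₀ : ℝ) * a ≤ 24 * η₀ * (ρ + 1) :=
      mul_le_mul_of_nonneg_left ha2.le (by positivity)
    have g3 : (m : ℝ) + 24 * η₀ * a ≤ 8 * η₀ * b := by nlinarith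
    exact_mod_cast g3
  refine vq_cover hη₀ hm6 ha0 hs hn hb1 h5 ?_ hK N
  intro μ hμa hμb D hD t
  have hμm : μ ≤ m := hμb.trans hbm
  have hημ : η₀ * μ ≤ m := by
    have g1 : η₀ * μ ≤ η₀ * b := Nat.mul_le_mul_left _ hμb
    have g2 : η₀ * b ≤ 4 * η₀ * b := Nat.mul_le_mul_right _ (by omega)
    omega
  have hμmr : (μ : ℝ) ≤ m := by exact_mod_cast hμm
  have hμρ : ρ ≤ μ := by
    have : (a : ℝ) ≤ μ := by exact_mod_cast hμa
    exact ha1.trans this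
  refine vq_wide (θ := δ / 2) hQ₀ (T := ⌈C₀ * (m : ℝ) ^ (1 + δ / 2)⌉₊ + m) (by omega) hμm
    (by omega) (by omega) ?_ ?_ hn hD t
  · have g1 : (μ : ℝ) ^ (1 + δ / 2) ≤ (m : ℝ) ^ (1 + δ / 2) :=
      Real.rpow_le_rpow (Nat.cast_nonneg _) hμmr (by linarith)
    have g2 := Nat.le_ceil (C₀ * (m : ℝ) ^ (1 + δ / 2))
    have g3 : C₀ * (μ : ℝ) ^ (1 + δ / 2) ≤ C₀ * (m : ℝ) ^ (1 + δ / 2) :=
      mul_le_mul_of_nonneg_left g1 (by linarith)
    push_cast
    linarith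
  · have g1 : (⌈C₀ * (m : ℝ) ^ (1 + δ / 2)⌉₊ : ℝ) < C₀ * (m : ℝ) ^ (1 + δ / 2) + 1 :=
      Nat.ceil_lt_add_one (by positivity)
    have g2 : (m : ℝ) * (m + 1) * ((⌈C₀ * (m : ℝ) ^ (1 + δ / 2)⌉₊ : ℝ) + m + m) ≤
        n * (μ * (μ + 1)) := by
      have g3 : (⌈C₀ * (m : ℝ) ^ (1 + δ / 2)⌉₊ : ℝ) + m + m ≤
          (C₀ + 3) * (m : ℝ) ^ (1 + δ / 2) := by nlinarith
      calc (m : ℝ) * (m + 1) * ((⌈C₀ * (m : ℝ) ^ (1 + δ / 2)⌉₊ : ℝ) + m + m)
          ≤ (2 * (m : ℝ) ^ 2) * ((C₀ + 3) * (m : ℝ) ^ (1 + δ / 2)) :=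
            mul_le_mul (by nlinarith) g3 (by positivity) (by positivity)
        _ = 2 * (C₀ + 3) * ((m : ℝ) ^ 2 * (m : ℝ) ^ (1 + δ / 2)) := by ring
        _ = 2 * (C₀ + 3) * (ρ ^ 2 * (m : ℝ) ^ (1 + δ)) := by rw [hpow3]
        _ ≤ C * (ρ ^ 2 * (m : ℝ) ^ (1 + δ)) :=
            mul_le_mul_of_nonneg_right hC0 (by positivity)
        _ = (C * (m : ℝ) ^ (1 + δ)) * ρ ^ 2 := by ring
        _ ≤ n * (μ * (μ + 1)) := mul_le_mul hn' (by nlinarith) (by positivity) (by positivity)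
    exact_mod_cast g2

end Pool.Agent.Work.MP_0421d9_ag.LD
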