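import Pool.Agent.Work.MP_0421d9_ag.VPar

/-!
A square number of points of equal multiplicity has maximal rank in all degrees.
-/

namespace Pool.Agent.Work.MP_0421d9_ag.LD

open MvPolynomial Module

theorem hP_succ_le (D m N : ℕ) : hP (D + 1) m N ≤ hP D m N + (D + 2) := by
  unfold hP hT
  set V := TS (D + 1) Set.univ m (gpt N) with hV
  let ρ : R3 →ₗ[ℂ] (Fin (D + 2) → ℂ) :=
    { toFun := fun F j => coeff (ex3 j (D + 1 - j) 0) F
      map_add' := fun F G => by
        funext z
        simp
      map_smul' := fun c F => by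
        funext z
        simp }
  have h1 := finrank_eq_ker_add_map ρ V
  have h2 : finrank ℂ ↥(V.map ρ) ≤ D + 2 := by
    refine (Submodule.finrank_le _).trans ?_
    rw [finrank_fin_fun]
  have h3 : V ⊓ LinearMap.ker ρ ≤
      (TS D Set.univ m (gpt N)).map (LinearMap.mulLeft ℂ (X 2 ^ 1 : R3)) := by
    rintro F ⟨hF, hF'⟩
    rw [SetLike.mem_coe, hV, mem_TS] at hF
    obtain ⟨h4, h5, h6⟩ := hF
    have h7 := LinearMap.mem_ker.mp hF'
    obtain ⟨G, hG1, hG2, hG3⟩ := exists_div_X2 (δ := D) (u := 1) h4 (fun α hα => by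
      by_contra hcon
      have h10 := deg_eq h4 hα
      have h12 : α 0 < D + 2 := by omega
      have h9 := congrFun h7 ⟨α 0, h12⟩
      have h11 : ex3 (α 0) (D + 1 - α 0) 0 = α := by
        conv_rhs => rw [eq_ex3 α]
        congr 1
        · omega
        · omega
      change coeff (ex3 (α 0) (D + 1 - α 0) 0) F = 0 at h9
      rw [h11] at h9
      exact mem_support_iff.mp hα h9)
    refine Submodule.mem_map.mpr ⟨G, ?_, by rw [LinearMap.mulLeft_apply, hG2]⟩
    rw [mem_TS]
    refine ⟨hG1, fun i => ?_, fun β hβ => trivial⟩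
    have h8 := h5 i
    rw [hG2] at h8
    exact vanishTo_of_X2_pow_mul (gpt_ne i 2) h8
  have h4 := (Submodule.finrank_mono h3).trans (Submodule.finrank_map_le _ _)
  omega

theorem hP_no_points (D m : ℕ) : hP D m 0 = (D + 2).choose 2 := by
  unfold hP hT
  have h2 : TS D Set.univ m (gpt 0) = Rd D := by
    ext F
    rw [mem_TS]
    constructor
    · rintro ⟨h1, -⟩
      exact h1
    · intro h1
      exact ⟨h1, fun i => i.elim0, fun _ _ => trivial⟩
  rw [h2, finrank_Rd]

theorem hP_small {D m r : ℕ} (h : D < m) (hr : 1 ≤ r) : hP D m r = 0 := by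
  unfold hP hT
  have h2 : TS D Set.univ m (gpt r) = ⊥ := by
    rw [eq_bot_iff]
    intro F hF
    rw [mem_TS] at hF
    rw [Submodule.mem_bot]
    exact eq_zero_of_vanishTo hF.1 h (hF.2.1 ⟨0, hr⟩)
  rw [h2, finrank_bot]

theorem hT_of_kills {D m N : ℕ} {T : Set (Fin 3 →₀ ℕ)} (h : Kills D m N T) : hT D T m N = 0 := by
  obtain ⟨p, -, hp⟩ := h
  have h1 := hT_le (D := D) (m := m) (T := T) p
  have h2 : TS D T m p = ⊥ := by
    rw [eq_bot_iff]
    intro F hF
    rw [mem_TS] at hF
    rw [Submodule.mem_bot]
    exact hp F hF.1 (fun α hα => hF.2.2 α (mem_support_iff.mp hα)) hF.2.1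
  rw [h2, finrank_bot] at h1
  omega

theorem choose_succ_two (D : ℕ) : (D + 1 + 2).choose 2 = (D + 2).choose 2 + (D + 2) := by
  have h1 := two_mul_choose (D + 2)
  have h2 := two_mul_choose (D + 1)
  have e1 : D + 1 + 2 = D + 2 + 1 := rfl
  have e2 : D + 2 = D + 1 + 1 := rfl
  rw [e1]
  rw [← e2] at h2
  nlinarith

theorem hP_reg_mono {D D' m r : ℕ} (hD : D ≤ D')
    (h : hP D m r + r * (m + 1).choose 2 = (D + 2).choose 2) :
    hP D' m r + r * (m + 1).choose 2 = (D' + 2).choose 2 := by
  induction D', hD using Nat.le_induction with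
  | base => exact h
  | succ n hn ih =>
    have h1 := hP_succ_le n m r
    have h2 := hP_count (n + 1) m r
    have h3 := choose_succ_two n
    omega

theorem hP_mono {D D' m r : ℕ} (hD : D ≤ D') : hP D m r ≤ hP D' m r := by
  induction D', hD using Nat.le_induction with
  | base => exact le_rfl
  | succ n hn ih => exact ih.trans (hP_le_succ n m r)

/-- it suffices to know the dimension in an interval of degrees around the critical one -/
theorem PR_of_interval {m r D₀ D₁ : ℕ}
    (h0 : (D₀ + 2).choose 2 ≤ r * (m + 1).choose 2)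
    (h1 : r * (m + 1).choose 2 ≤ (D₁ + 2).choose 2)
    (h : ∀ D, D₀ ≤ D → D ≤ D₁ → hP D m r = (D + 2).choose 2 - r * (m + 1).choose 2)
    (h01 : D₀ ≤ D₁) : PR m r := by
  intro D
  rcases lt_or_ge D D₀ with h2 | h2
  · have h3 := h D₀ le_rfl h01
    have h4 : hP D m r ≤ hP D₀ m r := hP_mono h2.le
    have h5 : (D + 2).choose 2 ≤ (D₀ + 2).choose 2 := Nat.choose_le_choose 2 (by omega)
    omega
  · rcases le_or_gt D D₁ with h3 | h3
    · exact h D h2 h3
    · have h4 := h D₁ h01 le_rfl
      have h5 : hP D m r + r * (m + 1).choose 2 = (D + 2).choose 2 :=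
        hP_reg_mono h3.le (by omega)
      omega

theorem PR_one (m : ℕ) (hm : 1 ≤ m) : PR m 1 := by
  obtain ⟨n, rfl⟩ : ∃ n, m = n + 1 := ⟨m - 1, by omega⟩
  have e1 : n + 1 + 1 = n + 2 := rfl
  refine PR_of_interval (D₀ := n) (D₁ := n) ?_ ?_ ?_ le_rfl
  · rw [e1, one_mul]
  · rw [e1, one_mul]
  · intro D hD hD'
    have : D = n := le_antisymm hD' hD
    subst this
    rw [hP_small (by omega) le_rfl, e1, one_mul, Nat.sub_self]

theorem hP_four : hP 1 1 4 = 0 := by
  have h1 := kills_strip 1 1 0 0 le_rfl (by norm_num)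
  have h2 : hP 1 1 3 = 0 := by
    unfold hP
    refine hT_of_kills ?_
    refine Kills.mono h1 ?_
    intro α hα _
    have h3 := degree_three α
    show α 2 < 1 ∨ (α 2 = 1 ∧ α 0 < 1 * 1)
    omega
  have h3 : hP 1 1 4 ≤ hP 1 1 3 := hT_anti (by norm_num)
  omega

theorem PR_square {m : ℕ} (hm : 1 ≤ m) (K : ℕ) : PR m (K * K) := by
  induction K with
  | zero =>
    intro D
    rw [Nat.zero_mul, hP_no_points, Nat.zero_mul, Nat.sub_zero]
  | succ K ih =>
    rcases Nat.eq_zero_or_pos K with hK | hK
    · subst hK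
      exact PR_one m hm
    have hc := two_mul_choose m
    set c := (m + 1).choose 2 with hcdef
    have hKm : 1 ≤ K * m := Nat.mul_pos hK hm
    have hKm' : (K + 1) * (m + 1) = K * m + K + m + 1 := by ring
    refine PR_of_interval (D₀ := (K + 1) * (m + 1) - 2 - K) (D₁ := (K + 1) * (m + 1) - 2)
      ?_ ?_ ?_ (by omega)
    · -- empty
      obtain ⟨D, hD⟩ : ∃ D, D = (K + 1) * (m + 1) - 2 - K := ⟨_, rfl⟩
      rw [← hD, ← hcdef]
      have h1 := two_mul_choose (D + 1)
      have h2 : D + 1 = (K + 1) * m := by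
        have : (K + 1) * m = K * m + m := by ring
        omega
      have e1 : D + 1 + 1 = D + 2 := rfl
      rw [e1] at h1
      have h3 : D + 2 = (K + 1) * m + 1 := by omega
      have h4 : 2 * (D + 2).choose 2 ≤ 2 * ((K + 1) * (K + 1) * c) := by
        rw [h1]
        have h5 : 2 * ((K + 1) * (K + 1) * c) = (K + 1) * (K + 1) * (m * (m + 1)) := by
          rw [← hc]; ring
        rw [h5, h2, h3]
        have h6 : (K + 1) * m + 1 ≤ (K + 1) * (m + 1) := by
          rw [hKm']
          have : (K + 1) * m = K * m + m := by ring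
          omega
        calc (K + 1) * m * ((K + 1) * m + 1) ≤ (K + 1) * m * ((K + 1) * (m + 1)) :=
              Nat.mul_le_mul_left _ h6
          _ = (K + 1) * (K + 1) * (m * (m + 1)) := by ring
      omega
    · -- regular
      obtain ⟨D, hD⟩ : ∃ D, D = (K + 1) * (m + 1) - 2 := ⟨_, rfl⟩
      rw [← hD, ← hcdef]
      have h1 := two_mul_choose (D + 1)
      have h3 : D + 2 = (K + 1) * (m + 1) := by omega
      have e1 : D + 1 + 1 = D + 2 := rfl
      rw [e1] at h1
      have h4 : 2 * ((K + 1) * (K + 1) * c) ≤ 2 * (D + 2).choose 2 := by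
        rw [h1]
        have h5 : 2 * ((K + 1) * (K + 1) * c) = (K + 1) * m * ((K + 1) * (m + 1)) := by
          have : 2 * ((K + 1) * (K + 1) * c) = (K + 1) * (K + 1) * (2 * c) := by ring
          rw [this, hc]; ring
        rw [h5, ← h3]
        refine Nat.mul_le_mul_right _ ?_
        have : (K + 1) * m = K * m + m := by ring
        omega
      omega
    · intro D hD0 hD1
      obtain ⟨α, hα⟩ : ∃ α, D + α = (K + 1) * (m + 1) - 2 := ⟨(K + 1) * (m + 1) - 2 - D, by omega⟩
      have hαK : α ≤ K := by omega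
      obtain ⟨β, hβ⟩ : ∃ β, α + β = K := ⟨K - α, by omega⟩
      obtain ⟨δ, rfl⟩ : ∃ δ, D = δ + m := ⟨D - m, by omega⟩
      have hδ : δ + 1 + α = K * (m + 1) := by
        have : K * (m + 1) = K * m + K := by ring
        omega
      have hstr : δ + 1 = α * m + β * (m + 1) := by
        have h1 : K * (m + 1) = α * m + α + β * (m + 1) := by rw [← hβ]; ring
        omega
      rcases Nat.eq_zero_or_pos δ with h0 | hδ1
      · -- the exceptional case
        subst h0
        have h1 : K * m = 1 := by
          have : K * (m + 1) = K * m + K := by ring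
          omega
        have h2 : K = 1 := Nat.eq_one_of_mul_eq_one_right h1
        subst h2
        have h3 : m = 1 := by omega
        subst h3
        have h4 : hP (0 + 1) 1 ((1 + 1) * (1 + 1)) = 0 := hP_four
        have h5 : (0 + 1 + 2).choose 2 = 3 := rfl
        rw [h4, h5]
        rfl
      · have hs := plane_strip0 (r := K * K) hm hδ1 hstr
        have e1 : K * K + (2 * (α + β) + 1) = (K + 1) * (K + 1) := by rw [hβ]; ring
        rw [e1, ih δ, ih (δ - 1)] at hs
        have hcount := hP_count (δ + m) m ((K + 1) * (K + 1))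
        rw [← hcdef] at hcount hs ⊢
        have h1 := two_mul_choose (δ + m + 1)
        have h2 := two_mul_choose (δ + 1)
        have h3 : (δ + 2).choose 2 = (δ - 1 + 2).choose 2 + (δ + 1) := by
          obtain ⟨x, rfl⟩ : ∃ x, δ = x + 1 := ⟨δ - 1, by omega⟩
          have := choose_succ_two x
          exact this
        have e2 : δ + m + 1 + 1 = δ + m + 2 := rfl
        have e3 : δ + 1 + 1 = δ + 2 := rfl
        rw [e2] at h1
        rw [e3] at h2
        have key : (δ + 2).choose 2 + (K + 1) * (K + 1) * c =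
            (δ + m + 2).choose 2 + K * K * c + α * m := by
          have h4 : 2 * ((δ + 2).choose 2 + (K + 1) * (K + 1) * c) =
              2 * ((δ + m + 2).choose 2 + K * K * c + α * m) := by
            have h5 : 2 * ((δ + 2).choose 2 + (K + 1) * (K + 1) * c) =
                (δ + 1) * (δ + 2) + (K + 1) * (K + 1) * (m * (m + 1)) := by
              rw [← h2, ← hc]; ring
            have h6 : 2 * ((δ + m + 2).choose 2 + K * K * c + α * m) =
                (δ + m + 1) * (δ + m + 2) + K * K * (m * (m + 1)) + 2 * (α * m) := by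
              rw [← h1, ← hc]; ring
            rw [h5, h6]
            have h7 : (δ + m + 1) * (δ + m + 2) = (δ + 1) * (δ + 2) + m * (m + 1) +
                2 * (m * (δ + 1)) := by ring
            have h8 : 2 * (m * (δ + 1)) + 2 * (α * m) = 2 * (m * (K * (m + 1))) := by
              rw [← hδ]; ring
            have h9 : (K + 1) * (K + 1) * (m * (m + 1)) = K * K * (m * (m + 1)) +
                2 * (m * (K * (m + 1))) + m * (m + 1) := by ring
            rw [h7, h9]
            omega
          omega
        have hle : α * m ≤ δ + 1 := by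
          rw [hstr]; exact Nat.le_add_right _ _
        have h10 : max ((δ + 2).choose 2 - K * K * c - α * m)
            ((δ - 1 + 2).choose 2 - K * K * c) ≤
            (δ + m + 2).choose 2 - (K + 1) * (K + 1) * c := by
          apply max_le <;> omega
        omega

end Pool.Agent.Work.MP_0421d9_ag.LD
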