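import Pool.Agent.Work.MP_0421d9_ag.VStrip

/-!
Tight strips and sums of good heights.
-/

namespace Pool.Agent.Work.MP_0421d9_ag.LD

open MvPolynomial Module

/-- a tight strip -/
theorem MR_strip {H L k N r R : ℕ} (hR1 : 1 ≤ R) (hRH : R + 1 ≤ H) (hL : 2 ≤ L)
    (hlo : R * L ≤ N * (k + 1).choose 2) (hhi : N * (k + 1).choose 2 ≤ (R + 1) * L)
    (h0 : MR R L k N) (h1 : MR (R + 1) L k N) (h2 : MR (H - R) L k r)
    (h3 : MR (H - R - 1) L k r) : MR H L k (r + N) := by
  apply MR_of_le
  have e0 := h0.emp hlo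
  have e1 := h1.reg hhi
  set c := (k + 1).choose 2 with hc
  obtain ⟨B, hB⟩ : ∃ B, N * c + B = (R + 1) * L := ⟨(R + 1) * L - N * c, by omega⟩
  have hBL : B ≤ L := by
    have : (R + 1) * L = R * L + L := by ring
    omega
  have h4 := rect_strip_gen (r := r) hR1 hRH hL hBL (N := N) (k := k) (by omega) e0
  refine h4.trans ?_
  unfold MR at h2 h3
  rw [h2, h3]
  obtain ⟨x, rfl⟩ : ∃ x, H = x + R + 1 := ⟨H - R - 1, by omega⟩
  have g1 : x + R + 1 - R = x + 1 := by omega
  have g2 : x + 1 - 1 = x := by omega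
  rw [g1, g2]
  have e2 : (x + R + 1) * L = x * L + (R + 1) * L := by ring
  have e3 : (x + 1) * L = x * L + L := by ring
  have e4 : (r + N) * c = r * c + N * c := by ring
  rw [e2, e3, e4]
  generalize (R + 1) * L = y at *
  generalize r * c = rc at *
  generalize N * c = Nc at *
  generalize x * L = xL at *
  refine max_le ?_ ?_ <;> omega

/-- the sum of good heights: one strip with an even number of points -/
theorem strip_sum {k L s p H u v : ℕ} (hp : p ≤ 1) (hL : 2 ≤ L) (hs : k * (k + 1) ≤ s * L) (hu : 1 ≤ u)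
    (huv : u + s ≤ v) (hv : v ≤ H) (h1 : ∀ R, u ≤ R → R ≤ v → GE k L R)
    (h2 : ∀ R, H ≤ R + v → R + u ≤ H → GP p k L R) : GP p k L H := by
  rcases Nat.eq_zero_or_pos k with rfl | hk
  · intro t
    exact MR_zero_mult _ _ _
  have hc := two_choose_succ k
  set c := (k + 1).choose 2 with hcdef
  have hcpos : 0 < 2 * c := by
    rw [hc]
    positivity
  -- the number of points of the strip
  set t' := (u * L + (2 * c - 1)) / (2 * c) with ht'
  have e1 : u * L ≤ t' * (2 * c) := by
    have h3 := Nat.lt_div_mul_add (a := u * L + (2 * c - 1)) hcpos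
    rw [← ht'] at h3
    omega
  have e2 : t' * (2 * c) < u * L + 2 * c := by
    have h3 := Nat.div_mul_le_self (u * L + (2 * c - 1)) (2 * c)
    rw [← ht'] at h3
    omega
  have e3 : 2 * t' * c = t' * (2 * c) := by ring
  -- the height of the strip
  set R := (t' * (2 * c)) / L with hR
  have hLpos : 0 < L := by omega
  have e4 : R * L ≤ t' * (2 * c) := Nat.div_mul_le_self _ _
  have e5 : t' * (2 * c) < (R + 1) * L := by
    have h3 := Nat.lt_div_mul_add (a := t' * (2 * c)) hLpos
    rw [← hR] at h3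
    have h4 : (R + 1) * L = R * L + L := by ring
    rw [h4]
    exact h3
  have hRu : u ≤ R := by
    rw [hR]
    exact (Nat.le_div_iff_mul_le hLpos).mpr e1
  have hRv : R + 1 ≤ v := by
    have h3 : t' * (2 * c) < v * L := by
      calc t' * (2 * c) < u * L + 2 * c := e2
        _ ≤ u * L + s * L := by rw [hc]; omega
        _ = (u + s) * L := by ring
        _ ≤ v * L := Nat.mul_le_mul_right L huv
    have h4 : R * L < v * L := lt_of_le_of_lt e4 h3
    have h5 : R < v := Nat.lt_of_mul_lt_mul_right h4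
    exact h5
  have g0 := h1 R hRu (by omega) t'
  have g1 := h1 (R + 1) (by omega) hRv t'
  intro t
  rcases Nat.lt_or_ge t t' with h | h
  · have h3 := g1.reg (by rw [← hcdef, e3]; exact e5.le)
    have h4 := reg_anti (by omega : 2 * t + p ≤ 2 * t') h3
    exact MR_of_reg (rect_regular_mono (by omega : R + 1 ≤ H) h4)
  · obtain ⟨d, rfl⟩ : ∃ d, t = t' + d := ⟨t - t', by omega⟩
    have h3 := MR_strip (N := 2 * t') (r := 2 * d + p) (by omega : 1 ≤ R) (by omega : R + 1 ≤ H)
      hL (by rw [← hcdef, e3]; exact e4) (by rw [← hcdef, e3]; exact e5.le) g0 g1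
      (h2 (H - R) (by omega) (by omega) d) (h2 (H - R - 1) (by omega) (by omega) d)
    have e6 : 2 * (t' + d) + p = 2 * d + p + 2 * t' := by ring
    rw [e6]
    exact h3

/-- intervals with margins can be added -/
theorem GS.add {k L s x y x' y' : ℕ} (hL : 2 ≤ L) (hs : k * (k + 1) ≤ s * L)
    (h : GS k L s x y) (h' : GS k L s x' y') : GS k L s (x + x') (y + y') := by
  obtain ⟨h1, h2, h3⟩ := h
  obtain ⟨h1', h2', h3'⟩ := h'
  refine ⟨by omega, by omega, fun R hR hR' => ?_⟩
  refine strip_sum (p := 0) (by omega) hL hs (u := max (x - s) (R - (y' + s)))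
    (v := min (y + s) (R - (x' - s))) (by omega) (by omega) (by omega) ?_ ?_
  · intro R' h4 h5
    exact h3 R' (by omega) (by omega)
  · intro R' h4 h5
    exact h3' R' (by omega) (by omega)

theorem GS.smul {k L s x y : ℕ} (hL : 2 ≤ L) (hs : k * (k + 1) ≤ s * L)
    (h : GS k L s x y) : ∀ q, 1 ≤ q → GS k L s (q * x) (q * y) := by
  intro q hq
  induction q, hq using Nat.le_induction with
  | base => rwa [one_mul, one_mul]
  | succ q hq ih =>
    rw [add_mul, add_mul, one_mul, one_mul]
    exact ih.add hL hs h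

theorem GS.sum {k L s : ℕ} (hL : 2 ≤ L) (hs : k * (k + 1) ≤ s * L) {x y : ℕ → ℕ} :
    ∀ j, 1 ≤ j → (∀ i < j, GS k L s (x i) (y i)) →
      GS k L s (∑ i ∈ Finset.range j, x i) (∑ i ∈ Finset.range j, y i) := by
  intro j hj
  induction j, hj using Nat.le_induction with
  | base =>
    intro h
    rw [Finset.sum_range_one, Finset.sum_range_one]
    exact h 0 (by omega)
  | succ j hj ih =>
    intro h
    rw [Finset.sum_range_succ, Finset.sum_range_succ]
    exact (ih (fun i hi => h i (by omega))).add hL hs (h j (by omega))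

theorem GS.good {k L s x y R : ℕ} (h : GS k L s x y) (h1 : x ≤ R + s) (h2 : R ≤ y + s) :
    GE k L R := h.2.2 R h1 h2

/-- an interval of good heights which is long enough -/
theorem GS_of {k L s a b : ℕ} (ha : 1 ≤ a) (hab : a + 2 * s ≤ b)
    (h : ∀ R, a ≤ R → R ≤ b → GE k L R) : GS k L s (a + s) (b - s) :=
  ⟨by omega, by omega, fun R h1 h2 => h R (by omega) (by omega)⟩

end Pool.Agent.Work.MP_0421d9_ag.LD
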