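import Pool.Agent.Work.MP_0421d9_ag.VTrans
import Pool.Agent.Work.MP_0421d9_ag.VSum
import Pool.Agent.Work.MP_0421d9_ag.VPar

/-!
Thin strips on `P¹ × P¹`.
-/

namespace Pool.Agent.Work.MP_0421d9_ag.LD

open MvPolynomial Module

/-- the transformation for an even number of points, rows first -/
theorem transform_even' {R L L' k μ t : ℕ} (hRe : R = k + μ + 1) (hL : L' + t * k = L + t * μ) :
    hR R L k (2 * t) ≤ hR R L' μ (2 * t) := by
  rcases Nat.eq_zero_or_pos t with rfl | ht
  · have e : L' = L := by omega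
    rw [e, Nat.mul_zero, hR_no_points, hR_no_points]
  · rw [hR_swap R L, hR_swap R L', hRe]
    exact transform_even ht rfl hL

/-- the expected dimensions agree -/
theorem chi_even {R L L' k μ t : ℕ} (hRe : R = k + μ + 1) (hL : L' + t * k = L + t * μ) :
    R * L' + 2 * t * (k + 1).choose 2 = R * L + 2 * t * (μ + 1).choose 2 := by
  have h1 := two_choose_succ k
  have h2 := two_choose_succ μ
  have e1 : 2 * t * (k + 1).choose 2 = t * (k * (k + 1)) := by rw [← h1]; ring
  have e2 : 2 * t * (μ + 1).choose 2 = t * (μ * (μ + 1)) := by rw [← h2]; ring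
  rw [e1, e2, hRe]
  have h3 : (k + μ + 1) * (L' + t * k) = (k + μ + 1) * (L + t * μ) := by rw [hL]
  nlinarith

/-- maximal rank is inherited -/
theorem MR_of_transform_even {R L L' k μ t : ℕ} (hRe : R = k + μ + 1)
    (hL : L' + t * k = L + t * μ) (h : MR R L' μ (2 * t)) : MR R L k (2 * t) := by
  apply MR_of_le
  have h1 := transform_even' hRe hL
  have h2 := chi_even hRe hL
  unfold MR at h
  omega

theorem thin {η k L s μ : ℕ} (hQ : QM η k μ) (hη : 1 ≤ η) (hμ : 1 ≤ μ)
    (hs : k * (k + 1) ≤ s * L) (h0 : 2 * η * s ≤ μ + 1) (h2 : 2 * μ ≤ k) (hη' : η * μ ≤ k) :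
    GE k L (k + 1 + μ) := by
  intro t
  have hRk : k + 1 + μ = k + μ + 1 := by omega
  have hk1 := two_choose_succ k
  have hμ1 := two_choose_succ μ
  have hη1 : η * μ ≤ k + 1 + μ := by omega
  rcases Nat.lt_or_ge (L + t * μ) (t * k + η * μ) with hc | hc
  · -- few columns: empty
    set L₁ := t * k + η * μ - t * μ with hL₁
    have htk : t * μ ≤ t * k := Nat.mul_le_mul_left t (by omega)
    have hL₁' : η * μ + t * k = L₁ + t * μ := by omega
    have hLL : L ≤ L₁ := by omega
    have h3 : MR (k + 1 + μ) (η * μ) μ (2 * t) :=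
      hQ (k + 1 + μ) (η * μ) (2 * t) hη1 le_rfl (by omega)
    -- the expected dimension is not positive
    have h4 : (k + 1 + μ) * (η * μ) ≤ 2 * t * (μ + 1).choose 2 := by
      have e1 : 2 * t * (μ + 1).choose 2 = t * (μ * (μ + 1)) := by rw [← hμ1]; ring
      rw [e1]
      -- `(k + 1 + μ) η ≤ t (μ + 1)`
      have h5 : (k + 1 + μ) * η ≤ t * (μ + 1) := by
        -- multiply by `k`
        have h6 : L ≤ t * k + η * μ := by omega
        have h7 : 2 * η * (k * (k + 1)) ≤ (μ + 1) * L := by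
          calc 2 * η * (k * (k + 1)) ≤ 2 * η * (s * L) := Nat.mul_le_mul_left _ hs
            _ = 2 * η * s * L := by ring
            _ ≤ (μ + 1) * L := Nat.mul_le_mul_right _ h0
        have h8 : (μ + 1) * L ≤ (μ + 1) * (t * k + η * μ) := Nat.mul_le_mul_left _ h6
        have hkpos : 0 < k := by omega
        have h9 : ((k + 1 + μ) * η) * k ≤ (t * (μ + 1)) * k := by
          have h10 : (μ + 1) * (η * μ) + (k + 1 + μ) * η * k ≤ 2 * η * (k * (k + 1)) := by
            have h11 : (μ + 1) * μ + (k + 1 + μ) * k ≤ 2 * (k * (k + 1)) := by nlinarith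
            calc (μ + 1) * (η * μ) + (k + 1 + μ) * η * k
                = η * ((μ + 1) * μ + (k + 1 + μ) * k) := by ring
              _ ≤ η * (2 * (k * (k + 1))) := Nat.mul_le_mul_left _ h11
              _ = 2 * η * (k * (k + 1)) := by ring
          have h12 : (μ + 1) * (t * k + η * μ) = t * (μ + 1) * k + (μ + 1) * (η * μ) := by ring
          omega
        exact Nat.le_of_mul_le_mul_right h9 hkpos
      calc (k + 1 + μ) * (η * μ) = (k + 1 + μ) * η * μ := by ring
        _ ≤ t * (μ + 1) * μ := Nat.mul_le_mul_right _ h5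
        _ = t * (μ * (μ + 1)) := by ring
    have h5 := h3.emp h4
    have h6 := transform_even' hRk hL₁'
    rw [h5] at h6
    exact MR_of_emp (emp_mono_right hLL (by omega))
  · obtain ⟨L', hL'⟩ : ∃ L', L' + t * k = L + t * μ := ⟨L + t * μ - t * k, by omega⟩
    refine MR_of_transform_even hRk hL' ?_
    exact hQ (k + 1 + μ) L' (2 * t) hη1 (by omega) (by omega)

theorem Par.two_le {η : ℕ} (P : Par η) {k L : ℕ} (hk : P.Z ≤ k) (hγ : k * (k + 1) ≤ P.s * L) :
    2 * (k + 1) ≤ L := by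
  have h1 := P.h1
  have h2 := P.h2
  have h3 := P.h3
  have h4 := P.hZ2
  have h5 := P.hs
  have h6 : 2 * P.s ≤ k := by
    have h7 : P.s ≤ 2 * ((2 * η + 1) * P.s) := by nlinarith
    omega
  have h7 : 0 < P.s := h5
  have h8 : P.s * (2 * (k + 1)) ≤ P.s * L := by
    calc P.s * (2 * (k + 1)) = 2 * P.s * (k + 1) := by ring
      _ ≤ k * (k + 1) := Nat.mul_le_mul_right _ h6
      _ ≤ P.s * L := hγ
  exact Nat.le_of_mul_le_mul_left h8 h7

theorem Par.thinS {η : ℕ} (P : Par η) {k L : ℕ} (hk : P.Z ≤ k) (hγ : k * (k + 1) ≤ P.s * L) :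
    GS k L P.s (k + (2 * η + 1) * P.s) (k + (P.W3 + 1 - P.s)) := by
  have h1 := P.h1
  have h2 := P.h2
  have h3 := P.h3
  have h4 := P.hZ2
  have h5 := P.hs
  have h6 := P.hη
  have h7 := P.hZη
  have e1 : (2 * η + 1) * P.s = 2 * η * P.s + P.s := by ring
  have e2 : 2 * 1 * 1 ≤ 2 * η * P.s := Nat.mul_le_mul (Nat.mul_le_mul_left 2 h6) h5
  refine ⟨by omega, by omega, fun R hR1 hR2 => ?_⟩
  obtain ⟨μ, rfl⟩ : ∃ μ, R = k + 1 + μ := ⟨R - (k + 1), by omega⟩
  have hμ1 : 1 ≤ μ := by omega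
  have hμ3 : μ ≤ P.W3 := by omega
  have hQ : QM η k μ := fun H L' N a b c => P.hQ μ hμ1 hμ3 H L' N a b (hk.trans c)
  refine thin hQ h6 hμ1 hγ (by omega) (by omega) ?_
  exact ((Nat.mul_le_mul_left η hμ3).trans h7).trans hk

end Pool.Agent.Work.MP_0421d9_ag.LD
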