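import Pool.Agent.Work.MP_0421d9_ag.UDefs

/-!
Jets of forms at points of the plane, in affine coordinates: definitions.
-/

namespace Pool.Agent.Work.MP_0421d9_ag.LD

open MvPolynomial Module

/-- polynomials in two variables -/
abbrev P2 := MvPolynomial (Fin 2) ℂ

/-- the polynomial `F (a₀ + X, a₁ + Y, a₂)` -/
noncomputable def loc (a : V3) : R3 →ₐ[ℂ] P2 :=
  aeval ![C (a 0) + X 0, C (a 1) + X 1, C (a 2)]

/-- no terms of degree less than `m` -/
def Van2 (f : P2) (m : ℕ) : Prop := ∀ β : Fin 2 →₀ ℕ, β.degree < m → coeff β f = 0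

/-- there is a form of degree `D` which vanishes to order `μ j` at all points `p j`, `j ≠ i`, and
which has the leading term `X ^ β` at `p i` -/
def Jet {r : ℕ} (p : Fin r → V3) (D : ℕ) (μ : Fin r → ℕ) (i : Fin r) (β : Fin 2 →₀ ℕ) : Prop :=
  ∃ F : R3, F.IsHomogeneous D ∧ (∀ j ≠ i, Van2 (loc (p j) F) (μ j)) ∧
    Van2 (loc (p i) F - monomial β 1) (β.degree + 1)

/-- all jets of order less than `μ i` at `p i` are realised, independently, by forms of
degree `D` -/
def Jets {r : ℕ} (p : Fin r → V3) (D : ℕ) (μ : Fin r → ℕ) : Prop :=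
  ∀ i, ∀ β : Fin 2 →₀ ℕ, β.degree < μ i → Jet p D μ i β

end Pool.Agent.Work.MP_0421d9_ag.LD
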