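import Pool.Agent.Work.MP_0421d9_ag.WDefs

/-!
Products of forms and jets.
-/

namespace Pool.Agent.Work.MP_0421d9_ag.LD

open MvPolynomial Module

/-! ### vanishing -/

theorem Van2.mono {f : P2} {m n : ℕ} (h : Van2 f m) (hn : n ≤ m) : Van2 f n :=
  fun β hβ => h β (hβ.trans_le hn)

theorem Van2.add {f g : P2} {m : ℕ} (hf : Van2 f m) (hg : Van2 g m) : Van2 (f + g) m :=
  fun β hβ => by rw [coeff_add, hf β hβ, hg β hβ, add_zero]

theorem Van2.mul {f g : P2} {m n : ℕ} (hf : Van2 f m) (hg : Van2 g n) :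
    Van2 (f * g) (m + n) := by
  classical
  intro β hβ
  rw [coeff_mul]
  refine Finset.sum_eq_zero fun x hx => ?_
  rw [Finset.HasAntidiagonal.mem_antidiagonal] at hx
  have h1 : x.1.degree + x.2.degree = β.degree := by rw [← hx, map_add]
  rcases Nat.lt_or_ge x.1.degree m with h2 | h2
  · rw [hf _ h2, zero_mul]
  · rw [hg _ (by omega), mul_zero]

theorem van2_zero (f : P2) : Van2 f 0 := fun _ hβ => absurd hβ (Nat.not_lt_zero _)

theorem van2_monomial (β : Fin 2 →₀ ℕ) (c : ℂ) : Van2 (monomial β c) β.degree := by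
  classical
  intro γ hγ
  rw [coeff_monomial, if_neg]
  rintro rfl
  exact lt_irrefl _ hγ

theorem van2_of_sub {f : P2} {β : Fin 2 →₀ ℕ} (h : Van2 (f - monomial β 1) (β.degree + 1)) :
    Van2 f β.degree := by
  have h1 := (h.mono (Nat.le_succ _)).add (van2_monomial β 1)
  rwa [sub_add_cancel] at h1

/-! ### products -/

theorem Jet.mul {r : ℕ} {p : Fin r → V3} {D D' : ℕ} {μ ν : Fin r → ℕ} {i : Fin r}
    {β γ : Fin 2 →₀ ℕ} (h : Jet p D μ i β) (h' : Jet p D' ν i γ) :
    Jet p (D + D') (fun j => μ j + ν j) i (β + γ) := by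
  obtain ⟨F, hF, hF1, hF2⟩ := h
  obtain ⟨G, hG, hG1, hG2⟩ := h'
  refine ⟨F * G, hF.mul hG, fun j hj => ?_, ?_⟩
  · rw [map_mul]
    exact (hF1 j hj).mul (hG1 j hj)
  · have e1 : loc (p i) (F * G) - monomial (β + γ) 1 =
        (loc (p i) F - monomial β 1) * loc (p i) G +
          monomial β 1 * (loc (p i) G - monomial γ 1) := by
      have e2 : (monomial (β + γ) 1 : P2) = monomial β 1 * monomial γ 1 := by
        rw [monomial_mul, one_mul]
      rw [map_mul, e2]
      ring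
    rw [e1]
    have h1 := hF2.mul (van2_of_sub hG2)
    have h2 := (van2_monomial β 1).mul hG2
    have e3 : (β + γ).degree + 1 = β.degree + 1 + γ.degree := by rw [map_add]; ring
    have e4 : (β + γ).degree + 1 = β.degree + (γ.degree + 1) := by rw [map_add]; ring
    refine Van2.add ?_ ?_
    · rw [e3]
      exact h1
    · rw [e4]
      exact h2

theorem loc_X0 (a : V3) : loc a (X 0) = C (a 0) + X 0 := by
  simp [loc]

theorem loc_X1 (a : V3) : loc a (X 1) = C (a 1) + X 1 := by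
  simp [loc]

theorem loc_X2 (a : V3) : loc a (X 2) = C (a 2) := by
  simp [loc]

theorem loc_C (a : V3) (c : ℂ) : loc a (C c) = C c := by
  unfold loc
  rw [algHom_C, algebraMap_eq]

theorem degree_two (β : Fin 2 →₀ ℕ) : β.degree = β 0 + β 1 := by
  rw [Finsupp.degree_eq_sum, Fin.sum_univ_two]

theorem jet_one {r : ℕ} {p : Fin r → V3} {i : Fin r} (hi : p i 2 ≠ 0) :
    Jet p 1 (fun _ => 0) i 0 := by
  refine ⟨C (p i 2)⁻¹ * X 2, ?_, fun j _ => van2_zero _, ?_⟩
  · have h1 := (isHomogeneous_X ℂ (2 : Fin 3)).C_mul (p i 2)⁻¹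
    exact h1
  · rw [map_mul, loc_C, loc_X2, ← C_mul, inv_mul_cancel₀ hi]
    have e1 : (monomial (0 : Fin 2 →₀ ℕ) 1 : P2) = C 1 := rfl
    rw [e1, sub_self]
    intro β _
    exact coeff_zero β

theorem jet_X {r : ℕ} {p : Fin r → V3} {i : Fin r} (hi : p i 2 ≠ 0) (k : Fin 2) :
    Jet p 1 (fun _ => 0) i (Finsupp.single k 1) := by
  fin_cases k
  · refine ⟨X 0 - C (p i 0 * (p i 2)⁻¹) * X 2, ?_, fun j _ => van2_zero _, ?_⟩
    · exact (isHomogeneous_X ℂ (0 : Fin 3)).sub ((isHomogeneous_X ℂ (2 : Fin 3)).C_mul _)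
    · have e1 : (monomial (Finsupp.single (0 : Fin 2) 1) 1 : P2) = X 0 := rfl
      have e2 : loc (p i) (X 0 - C (p i 0 * (p i 2)⁻¹) * X 2) = X 0 := by
        rw [map_sub, map_mul, loc_C, loc_X2, loc_X0, ← C_mul, inv_mul_cancel_right₀ hi]
        ring
      rw [e2]
      change Van2 (X 0 - monomial (Finsupp.single (0 : Fin 2) 1) 1) _
      rw [e1, sub_self]
      intro β _
      exact coeff_zero β
  · refine ⟨X 1 - C (p i 1 * (p i 2)⁻¹) * X 2, ?_, fun j _ => van2_zero _, ?_⟩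
    · exact (isHomogeneous_X ℂ (1 : Fin 3)).sub ((isHomogeneous_X ℂ (2 : Fin 3)).C_mul _)
    · have e1 : (monomial (Finsupp.single (1 : Fin 2) 1) 1 : P2) = X 1 := rfl
      have e2 : loc (p i) (X 1 - C (p i 1 * (p i 2)⁻¹) * X 2) = X 1 := by
        rw [map_sub, map_mul, loc_C, loc_X2, loc_X1, ← C_mul, inv_mul_cancel_right₀ hi]
        ring
      rw [e2]
      change Van2 (X 1 - monomial (Finsupp.single (1 : Fin 2) 1) 1) _
      rw [e1, sub_self]
      intro β _
      exact coeff_zero β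

theorem Jet.succ {r : ℕ} {p : Fin r → V3} (hp : ∀ i, p i 2 ≠ 0) {D : ℕ} {μ : Fin r → ℕ}
    {i : Fin r} {β : Fin 2 →₀ ℕ} (h : Jet p D μ i β) : Jet p (D + 1) μ i β := by
  have h1 := h.mul (jet_one (hp i))
  simpa using h1

theorem Jets.mono_left {r : ℕ} {p : Fin r → V3} (hp : ∀ i, p i 2 ≠ 0) {D D' : ℕ} {μ : Fin r → ℕ}
    (hD : D ≤ D') (h : Jets p D μ) : Jets p D' μ := by
  induction D', hD using Nat.le_induction with
  | base => exact h
  | succ n _ ih => exact fun i β hβ => (ih i β hβ).succ hp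

theorem Jets.mono_right {r : ℕ} {p : Fin r → V3} {D : ℕ} {μ ν : Fin r → ℕ}
    (hμ : ∀ i, ν i ≤ μ i) (h : Jets p D μ) : Jets p D ν := by
  intro i β hβ
  obtain ⟨F, h1, h2, h3⟩ := h i β (hβ.trans_le (hμ i))
  exact ⟨F, h1, fun j hj => (h2 j hj).mono (hμ j), h3⟩

theorem exists_split (β : Fin 2 →₀ ℕ) {s : ℕ} (hs : s ≤ β.degree) :
    ∃ β₁ β₂ : Fin 2 →₀ ℕ, β = β₁ + β₂ ∧ β₁.degree = s ∧ β₂.degree = β.degree - s := by
  rw [degree_two] at hs
  refine ⟨Finsupp.single 0 (min s (β 0)) + Finsupp.single 1 (s - min s (β 0)),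
    Finsupp.single 0 (β 0 - min s (β 0)) + Finsupp.single 1 (β 1 - (s - min s (β 0))), ?_, ?_, ?_⟩
  · ext k
    fin_cases k
    · simp
    · simp
      omega
  · rw [degree_two]
    simp
  · rw [degree_two, degree_two]
    simp
    omega

theorem Jets.le_succ {r : ℕ} {p : Fin r → V3} (hp : ∀ i, p i 2 ≠ 0) {e : ℕ}
    {μ : Fin r → ℕ} (h : Jets p e μ) {i : Fin r} (hi : 1 ≤ μ i) {β : Fin 2 →₀ ℕ}
    (hβ : β.degree ≤ μ i) : Jet p (e + 1) μ i β := by
  rcases Nat.lt_or_ge β.degree (μ i) with h1 | h1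
  · exact (h i β h1).succ hp
  · have h2 : β.degree = μ i := le_antisymm hβ h1
    obtain ⟨β₁, β₂, h3, h4, h5⟩ := exists_split β (s := μ i - 1) (by omega)
    have h6 : β₂.degree = 1 := by omega
    have h7 : ∃ k : Fin 2, β₂ = Finsupp.single k 1 := by
      rw [degree_two] at h6
      rcases Nat.eq_zero_or_pos (β₂ 0) with h8 | h8
      · refine ⟨1, ?_⟩
        ext k
        fin_cases k
        · simpa using h8
        · simp
          omega
      · refine ⟨0, ?_⟩
        ext k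
        fin_cases k
        · simp
          omega
        · simp
          omega
    obtain ⟨k, hk⟩ := h7
    have h9 := (h i β₁ (by omega)).mul (jet_X (hp i) k)
    rw [h3, hk]
    simpa using h9

theorem Jets.scale {r : ℕ} {p : Fin r → V3} (hp : ∀ i, p i 2 ≠ 0) {e t : ℕ} (ht : 1 ≤ t)
    {μ : Fin r → ℕ} (h : Jets p e μ) : Jets p (t * (e + 1) - 1) (fun i => t * μ i) := by
  induction t, ht using Nat.le_induction with
  | base => simpa using h
  | succ t ht ih =>
    intro i β hβ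
    change β.degree < (t + 1) * μ i at hβ
    have hi : 1 ≤ μ i := by
      by_contra h0
      have h1 : μ i = 0 := by omega
      simp [h1] at hβ
    have hti : 1 ≤ t * μ i := Nat.one_le_iff_ne_zero.mpr (by positivity)
    have e0 : (t + 1) * μ i = t * μ i + μ i := by ring
    rw [e0] at hβ
    obtain ⟨β₁, β₂, h3, h4, h5⟩ := exists_split β (s := min β.degree (μ i)) (min_le_left _ _)
    have h6 := (h.le_succ hp hi (β := β₁) (by rw [h4]; exact min_le_right _ _)).mul
      (ih i β₂ (by show β₂.degree < t * μ i; omega))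
    have hte : 1 ≤ t * (e + 1) := Nat.one_le_iff_ne_zero.mpr (by positivity)
    have e1 : (e + 1) + (t * (e + 1) - 1) = (t + 1) * (e + 1) - 1 := by
      have e2 : (t + 1) * (e + 1) = t * (e + 1) + (e + 1) := by ring
      omega
    have e3 : (fun j => μ j + t * μ j) = fun j => (t + 1) * μ j := by
      funext j
      ring
    rw [e1, e3] at h6
    rw [h3]
    exact h6

end Pool.Agent.Work.MP_0421d9_ag.LD
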