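import Pool.Agent.Work.MP_0421d9_ag.WRank
import Pool.Agent.Work.MP_0421d9_ag.WJet
import Pool.Agent.Work.MP_0421d9_ag.UMain

/-!
From one system of independent conditions to larger multiplicities.
-/

namespace Pool.Agent.Work.MP_0421d9_ag.LD

open MvPolynomial Module

theorem indep_up {r e m₀ t m D : ℕ} (h : hP e m₀ r + r * (m₀ + 1).choose 2 = (e + 2).choose 2)
    (ht : 1 ≤ t) (hm : m ≤ t * m₀) (hD : t * (e + 1) ≤ D + 1) :
    hP D m r + r * (m + 1).choose 2 = (D + 2).choose 2 := by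
  have hp : ∀ i, gpt r i 2 ≠ 0 := fun i => gpt_ne i 2
  have h1 : Jets (gpt r) e (fun _ => m₀) := by
    apply jets_of_indep hp
    rw [hP_eq (gpt_generic r)]
    simp only [Finset.sum_const, Finset.card_univ, Fintype.card_fin, smul_eq_mul]
    exact h.le
  have h2 : Jets (gpt r) D (fun _ => m) :=
    ((h1.scale hp ht).mono_left hp (by omega)).mono_right (fun _ => hm)
  have h3 := indep_of_jets h2
  rw [hP_eq (gpt_generic r)] at h3
  simp only [Finset.sum_const, Finset.card_univ, Fintype.card_fin, smul_eq_mul] at h3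
  exact le_antisymm h3 (hP_count D m r)

theorem empty_of_indep {r D m E M : ℕ}
    (hE : hP E M r + r * (M + 1).choose 2 = (E + 2).choose 2) (hm : m ≤ M) (hD : D ≤ E)
    (hlt : (E + 2).choose 2 + r * (M - m + 1).choose 2 <
      (E - D + 2).choose 2 + r * (M + 1).choose 2) : hP D m r = 0 := by
  rw [← hP_eq (gpt_generic r), Submodule.finrank_eq_zero, Submodule.eq_bot_iff]
  intro F hF
  by_contra hF0
  have h1 : (linSys (E - D) (gpt r) (fun _ => M - m)).map (LinearMap.mulLeft ℂ F) ≤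
      linSys E (gpt r) (fun _ => M) := by
    rintro _ ⟨G, hG, rfl⟩
    refine ⟨?_, fun i => ?_⟩
    · have h2 := hF.1.mul hG.1
      have e1 : D + (E - D) = E := by omega
      rw [e1] at h2
      exact h2
    · have h2 := vanishTo_mul (hF.2 i) (hG.2 i)
      have e1 : m + (M - m) = M := by omega
      rw [e1] at h2
      exact h2
  have h2 := Submodule.finrank_mono h1
  have h3 : finrank ℂ ↥((linSys (E - D) (gpt r) (fun _ => M - m)).map
      (LinearMap.mulLeft ℂ F)) = finrank ℂ (linSys (E - D) (gpt r) (fun _ => M - m)) := by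
    have hinj : Function.Injective (LinearMap.mulLeft ℂ F) := by
      intro G G' hG
      exact mul_left_cancel₀ hF0 hG
    exact (LinearEquiv.finrank_eq (Submodule.equivMapOfInjective _ hinj _)).symm
  rw [h3, hP_eq (gpt_generic r), hP_eq (gpt_generic r)] at h2
  have h4 := hP_count (E - D) (M - m) r
  omega

theorem empty_up {r e m₀ m D : ℕ} (h : hP e m₀ r + r * (m₀ + 1).choose 2 = (e + 2).choose 2)
    (hlt : D * (e + 1) < r * m * m₀) : hP D m r = 0 := by
  have hm0 : 1 ≤ m₀ := by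
    by_contra h0
    have : m₀ = 0 := by omega
    simp [this] at hlt
  obtain ⟨t, ht⟩ : ∃ t, t = r * m * m + D + m + 1 := ⟨_, rfl⟩
  have ht1 : 1 ≤ t := by omega
  have h1 := indep_up (m := t * m₀) (D := t * (e + 1) - 1) h ht1 le_rfl (by
    have : 1 ≤ t * (e + 1) := Nat.one_le_iff_ne_zero.mpr (by positivity)
    omega)
  have hM : m ≤ t * m₀ := by
    calc m ≤ t * 1 := by omega
      _ ≤ t * m₀ := Nat.mul_le_mul_left t hm0
  have hE0 : D + 1 ≤ t * (e + 1) := by
    calc D + 1 ≤ t * 1 := by omega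
      _ ≤ t * (e + 1) := Nat.mul_le_mul_left t (by omega)
  refine empty_of_indep h1 hM (by omega) ?_
  obtain ⟨E, hE⟩ : ∃ E, t * (e + 1) = E + 1 := ⟨t * (e + 1) - 1, by omega⟩
  obtain ⟨u, hu⟩ : ∃ u, t * m₀ = m + u := ⟨t * m₀ - m, by omega⟩
  have hED : ∃ v, E = D + v := ⟨E - D, by omega⟩
  obtain ⟨v, hv⟩ := hED
  have e1 : t * (e + 1) - 1 = E := by omega
  have e2 : E - D = v := by omega
  have e3 : t * m₀ - m = u := by omega
  rw [e1, e2, e3]
  have c1 : 2 * (E + 2).choose 2 = (E + 1) * (E + 2) := choose_two_mul_two (E + 1)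
  have c2 : 2 * (u + 1).choose 2 = u * (u + 1) := choose_two_mul_two u
  have c3 : 2 * (v + 2).choose 2 = (v + 1) * (v + 2) := choose_two_mul_two (v + 1)
  have c4 : 2 * (t * m₀ + 1).choose 2 = t * m₀ * (t * m₀ + 1) := choose_two_mul_two (t * m₀)
  have hkey : (E + 1) * (E + 2) + r * (u * (u + 1)) <
      (v + 1) * (v + 2) + r * (t * m₀ * (t * m₀ + 1)) := by
    zify at hlt hu hv hE ht ⊢
    have h2 : (D : ℤ) * (e + 1) + 1 ≤ r * m * m₀ := by linarith
    have hu' : (u : ℤ) = t * m₀ - m := by linarith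
    have hv' : (v : ℤ) = t * (e + 1) - 1 - D := by linarith
    have hE' : (E : ℤ) = t * (e + 1) - 1 := by linarith
    rw [hu', hv', hE']
    have hr0 : (0 : ℤ) ≤ r := Int.natCast_nonneg r
    have hm0' : (0 : ℤ) ≤ m := Int.natCast_nonneg m
    have hD0 : (0 : ℤ) ≤ D := Int.natCast_nonneg D
    have h3 : (t : ℤ) * ((D : ℤ) * (e + 1) + 1) ≤ t * (r * m * m₀) :=
      mul_le_mul_of_nonneg_left h2 (Int.natCast_nonneg t)
    have h4 : (0 : ℤ) ≤ r * m * m := by positivity
    nlinarith [mul_nonneg hD0 hD0, mul_nonneg hr0 hm0']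
  nlinarith

end Pool.Agent.Work.MP_0421d9_ag.LD
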