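import Pool.Agent.Work.MP_0421d9_ag.WDefs

/-!
Vanishing of a form at a point in affine coordinates.
-/

namespace Pool.Agent.Work.MP_0421d9_ag.LD

open MvPolynomial Module

/-- restriction to `Z = 0` -/
noncomputable def res2 : R3 →ₐ[ℂ] P2 := aeval ![X 0, X 1, 0]

theorem loc_eq (a : V3) (F : R3) : loc a F = res2 (translate a F) := by
  unfold loc res2 translate
  induction F using MvPolynomial.induction_on with
  | C c => simp only [algHom_C, AlgHom.commutes]
  | add p q hp hq => rw [map_add, map_add, map_add, hp, hq]
  | mul_X p n hp =>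
    rw [map_mul, map_mul, map_mul, hp, aeval_X, aeval_X, map_add, aeval_X, algHom_C]
    congr 1
    fin_cases n <;> simp

theorem isHomogeneous_res2 {G : R3} {k : ℕ} (hG : G.IsHomogeneous k) :
    (res2 G).IsHomogeneous k := by
  unfold res2
  have h0 : ∀ i : Fin 3, ((![X 0, X 1, 0] : Fin 3 → P2) i).IsHomogeneous 1 := by
    intro i
    fin_cases i
    · exact isHomogeneous_X ℂ (0 : Fin 2)
    · exact isHomogeneous_X ℂ (1 : Fin 2)
    · exact isHomogeneous_zero _ _ _
  have h1 := hG.aeval _ h0
  simpa using h1

theorem eval_res2 (x : Fin 2 → ℂ) (G : R3) : eval x (res2 G) = eval ![x 0, x 1, 0] G := by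
  unfold res2
  induction G using MvPolynomial.induction_on with
  | C c => rw [algHom_C, algebraMap_eq, eval_C, eval_C]
  | add p q hp hq => rw [map_add, map_add, map_add, hp, hq]
  | mul_X p n hp =>
    rw [map_mul, map_mul, map_mul, hp, aeval_X, eval_X]
    congr 1
    fin_cases n <;> simp

theorem component_res2 (T : R3) (k : ℕ) :
    homogeneousComponent k (res2 T) = res2 (homogeneousComponent k T) := by
  conv_lhs => rw [← sum_homogeneousComponent T]
  rw [map_sum, map_sum]
  rcases Nat.lt_or_ge T.totalDegree k with h | h
  · rw [homogeneousComponent_eq_zero k T h, map_zero]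
    refine Finset.sum_eq_zero fun i hi => ?_
    rw [Finset.mem_range] at hi
    rw [homogeneousComponent_of_mem (isHomogeneous_res2
      (homogeneousComponent_isHomogeneous i T)), if_neg (by omega)]
  · rw [Finset.sum_eq_single k]
    · rw [homogeneousComponent_of_mem (isHomogeneous_res2
        (homogeneousComponent_isHomogeneous k T)), if_pos rfl]
    · intro i _ hi
      rw [homogeneousComponent_of_mem (isHomogeneous_res2
        (homogeneousComponent_isHomogeneous i T)), if_neg hi.symm]
    · intro h'
      rw [Finset.mem_range] at h'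
      omega

theorem van2_iff {f : P2} {m : ℕ} : Van2 f m ↔ ∀ k < m, homogeneousComponent k f = 0 := by
  constructor
  · intro h k hk
    ext β
    rw [coeff_homogeneousComponent, coeff_zero]
    split_ifs with h1
    · exact h β (by omega)
    · rfl
  · intro h β hβ
    have h1 := congrArg (coeff β) (h _ hβ)
    rwa [coeff_homogeneousComponent, if_pos rfl, coeff_zero] at h1

theorem van2_of_vanishTo {F : R3} {a : V3} {m : ℕ} (h : VanishTo F a m) : Van2 (loc a F) m := by
  rw [van2_iff]
  intro k hk
  rw [loc_eq, component_res2, h k hk, map_zero]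

theorem eq_zero_of_res2 {G : R3} {k : ℕ} (hG : G.IsHomogeneous k) {a : V3} (ha : a 2 ≠ 0)
    (hd : dir a G = 0) (h : res2 G = 0) : G = 0 := by
  apply MvPolynomial.funext
  intro y
  rw [map_zero]
  set s : ℂ := -(y 2) / a 2 with hs
  have hds : dir (s • a) G = 0 := by
    have h1 : dir (s • a) G = C s * dir a G := by
      rw [dir_apply, dir_apply, Finset.mul_sum]
      refine Finset.sum_congr rfl fun i _ => ?_
      rw [Pi.smul_apply, smul_eq_mul, C_mul]
      ring
    rw [h1, hd, mul_zero]
  have h2 : translate (s • a) G = G := by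
    rw [translate_eq hG, Finset.sum_eq_single 0]
    · simp
    · intro n _ hn
      obtain ⟨n', rfl⟩ := Nat.exists_eq_succ_of_ne_zero hn
      rw [Function.iterate_succ_apply, hds]
      have h3 : ∀ n : ℕ, (dir (s • a))^[n] (0 : R3) = 0 := by
        intro n
        induction n with
        | zero => rfl
        | succ n ih => rw [Function.iterate_succ_apply, map_zero, ih]
      rw [h3, mul_zero]
    · intro h'
      exact absurd (Finset.mem_range.mpr (Nat.succ_pos _)) h'
  have h3 := eval_translate (s • a) y G
  rw [h2] at h3
  rw [h3]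
  set z : V3 := s • a + y with hz
  have hz2 : z 2 = 0 := by
    rw [hz, Pi.add_apply, Pi.smul_apply, smul_eq_mul, hs, div_mul_cancel₀ _ ha]
    ring
  have h4 : z = ![z 0, z 1, 0] := by
    funext i
    fin_cases i
    · rfl
    · rfl
    · exact hz2
  have h5 := eval_res2 ![z 0, z 1] G
  rw [h, map_zero] at h5
  rw [h4]
  simpa using h5.symm

theorem vanishTo_of_van2 {F : R3} {d : ℕ} (hF : F.IsHomogeneous d) {a : V3} (ha : a 2 ≠ 0)
    {m : ℕ} (h : Van2 (loc a F) m) : VanishTo F a m := by
  rw [van2_iff] at h
  intro k hk
  induction k with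
  | zero =>
    apply eq_zero_of_res2 (homogeneousComponent_isHomogeneous 0 _) ha
    · rw [taylor_component hF a (Nat.zero_le d), dir_C_mul, ← Function.iterate_succ_apply' (dir a),
        dir_iterate_eq_zero hF a (by omega), mul_zero]
    · rw [← component_res2, ← loc_eq]
      exact h 0 hk
  | succ k ih =>
    have h1 := ih (by omega)
    rcases Nat.lt_or_ge d (k + 1) with h2 | h2
    · exact taylor_component_gt hF a h2
    · apply eq_zero_of_res2 (homogeneousComponent_isHomogeneous _ _) ha
      · rw [taylor_component hF a h2, dir_C_mul, ← Function.iterate_succ_apply' (dir a)]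
        rw [taylor_component hF a (by omega : k ≤ d)] at h1
        have e1 : d - k = (d - (k + 1)).succ := by omega
        rw [← e1]
        have h3 : (C (((d - k).factorial : ℂ)⁻¹) : R3) ≠ 0 := by
          rw [Ne, C_eq_zero]
          exact inv_ne_zero (by exact_mod_cast Nat.factorial_ne_zero _)
        rw [(mul_eq_zero.mp h1).resolve_left h3, mul_zero]
      · rw [← component_res2, ← loc_eq]
        exact h _ hk

end Pool.Agent.Work.MP_0421d9_ag.LD
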