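import Pool.Agent.Work.MP_0421d9_ag.WVec
import Pool.Agent.Work.MP_0421d9_ag.MSmooth
import Pool.Agent.Work.MP_0421d9_ag.SFinal

/-!
Systems with arbitrary multiplicities outside of a small window.
-/

namespace Pool.Agent.Work.MP_0421d9_ag

open MvPolynomial Module

namespace LD

/-- the scaled number of conditions -/
def sg (t x : ℕ) : ℕ := if x = 0 then 0 else (x + t - 1) * (x + 2 * t - 1)

/-- the scaled multiplicity -/
def cl (t x : ℕ) : ℕ := (x + t - 1) / t

theorem le_cl {t : ℕ} (ht : 1 ≤ t) (x : ℕ) : x ≤ t * cl t x := by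
  unfold cl
  have h1 := Nat.lt_div_mul_add (a := x + t - 1) (b := t) (by omega)
  rw [mul_comm]
  omega

theorem cl_le {t : ℕ} (x : ℕ) : t * cl t x ≤ x + t - 1 := Nat.mul_div_le _ _

theorem cl_zero {t : ℕ} (ht : 1 ≤ t) : cl t 0 = 0 := by
  unfold cl
  exact Nat.div_eq_of_lt (by omega)

theorem cl_mono {t x y : ℕ} (h : x ≤ y) : cl t x ≤ cl t y :=
  Nat.div_le_div_right (by omega)

theorem sg_cl {t : ℕ} (ht : 1 ≤ t) (x : ℕ) : t * t * (cl t x * (cl t x + 1)) ≤ sg t x := by
  unfold sg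
  split_ifs with h
  · rw [h, cl_zero ht]
    exact Nat.zero_le _
  · have h1 := cl_le (t := t) x
    calc t * t * (cl t x * (cl t x + 1)) = (t * cl t x) * (t * cl t x + t) := by ring
      _ ≤ (x + t - 1) * (x + 2 * t - 1) := Nat.mul_le_mul h1 (by omega)

theorem sg_ge {t : ℕ} (ht : 1 ≤ t) (x : ℕ) : x * (x + 1) ≤ sg t x := by
  unfold sg
  split_ifs with h
  · simp [h]
  · exact Nat.mul_le_mul (by omega) (by omega)

theorem sg_mono {t x y : ℕ} (h : x ≤ y) : sg t x ≤ sg t y := by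
  unfold sg
  split_ifs with h1 h2
  · exact le_rfl
  · exact Nat.zero_le _
  · omega
  · exact Nat.mul_le_mul (by omega) (by omega)

theorem sg_succ {t x : ℕ} (ht : 1 ≤ t) (hx : 1 ≤ x) : sg t (x + 1) + 1 = sg t x + 2 * x + 3 * t := by
  unfold sg
  rw [if_neg (by omega), if_neg (by omega)]
  obtain ⟨y, rfl⟩ : ∃ y, x = y + 1 := ⟨x - 1, by omega⟩
  have e1 : y + 1 + 1 + t - 1 = y + t + 1 := by omega
  have e2 : y + 1 + 1 + 2 * t - 1 = y + 2 * t + 1 := by omega
  have e3 : y + 1 + t - 1 = y + t := by omega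
  have e4 : y + 1 + 2 * t - 1 = y + 2 * t := by omega
  rw [e1, e2, e3, e4]
  ring

/-- the degree after scaling is large -/
theorem e_big {D M M₀ t e : ℕ} (ht : 1 ≤ t) (hD : 15000 * (M + t) ^ 3 ≤ t * D ^ 2)
    (he : D ≤ t * (e + 2)) (hM : t * M₀ ≤ M + t) : 14400 * M₀ ^ 3 ≤ e ^ 2 := by
  have h1 : 122 * t ≤ D := by
    by_contra hcon
    push Not at hcon
    have h2 : D ^ 2 < (122 * t) ^ 2 := Nat.pow_lt_pow_left hcon (by norm_num)
    have h3 : t * D ^ 2 < t * (122 * t) ^ 2 := Nat.mul_lt_mul_of_pos_left h2 (by omega)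
    have h4 : t ^ 3 ≤ (M + t) ^ 3 := Nat.pow_le_pow_left (by omega) 3
    have h5 : t * (122 * t) ^ 2 = 14884 * t ^ 3 := by ring
    omega
  have h2 : 120 * D ≤ 122 * (t * e) := by
    have : t * (e + 2) = t * e + 2 * t := by ring
    omega
  have h3 : (120 * D) ^ 2 ≤ (122 * (t * e)) ^ 2 := Nat.pow_le_pow_left h2 2
  have h4 : t * (120 * D) ^ 2 ≤ t * (122 * (t * e)) ^ 2 := Nat.mul_le_mul_left t h3
  have h5 : t * (120 * D) ^ 2 = 14400 * (t * D ^ 2) := by ring
  have h6 : t * (122 * (t * e)) ^ 2 = 14884 * (t ^ 3 * e ^ 2) := by ring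
  have h7 : (t * M₀) ^ 3 ≤ (M + t) ^ 3 := Nat.pow_le_pow_left hM 3
  have h8 : (t * M₀) ^ 3 = t ^ 3 * M₀ ^ 3 := by ring
  have h9 : t ^ 3 * (14400 * M₀ ^ 3) ≤ t ^ 3 * e ^ 2 := by
    have h10 : t ^ 3 * (14400 * M₀ ^ 3) = 14400 * (t ^ 3 * M₀ ^ 3) := by ring
    rw [h10]
    omega
  exact Nat.le_of_mul_le_mul_left h9 (by positivity)

/-- independence -/
theorem mixed_indep {r D M t : ℕ} {p : Fin r → V3} (hp : GenericPoints p) {m : Fin r → ℕ}
    (hM : ∀ i, m i ≤ M + 1) (ht : 1 ≤ t) (hD : 15000 * (M + t) ^ 3 ≤ t * D ^ 2)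
    (hS : ∑ i, sg t (m i) ≤ (D + 2) * (D + 2 - t)) :
    finrank ℂ (linSys D p m) + ∑ i, (m i + 1).choose 2 = (D + 2).choose 2 := by
  have hD1 : 122 * t ≤ D := by
    by_contra hcon
    push Not at hcon
    have h2 : D ^ 2 < (122 * t) ^ 2 := Nat.pow_lt_pow_left hcon (by norm_num)
    have h3 : t * D ^ 2 < t * (122 * t) ^ 2 := Nat.mul_lt_mul_of_pos_left h2 (by omega)
    have h4 : t ^ 3 ≤ (M + t) ^ 3 := Nat.pow_le_pow_left (by omega) 3
    have h5 : t * (122 * t) ^ 2 = 14884 * t ^ 3 := by ring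
    omega
  have hq1 : t * ((D + 1) / t) ≤ D + 1 := Nat.mul_div_le _ _
  have hq2 : D + 1 < t * ((D + 1) / t) + t := by
    have := Nat.lt_div_mul_add (a := D + 1) (b := t) (by omega)
    rwa [mul_comm] at this
  have hq0 : 1 ≤ (D + 1) / t := Nat.div_pos (by omega) (by omega)
  obtain ⟨e, he⟩ : ∃ e, (D + 1) / t = e + 1 := ⟨(D + 1) / t - 1, by omega⟩
  rw [he] at hq1 hq2
  have hμ : ∀ i, cl t (m i) ≤ cl t (M + 1) := fun i => cl_mono (hM i)
  have hbig : 14400 * (cl t (M + 1)) ^ 3 ≤ e ^ 2 := by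
    refine e_big ht hD ?_ (by have := cl_le (t := t) (M + 1); omega)
    have : t * (e + 2) = t * (e + 1) + t := by ring
    omega
  have h1 := mixed_main (d := e) (m := fun i => cl t (m i)) hp hμ hbig
  refine indep_up_vec (μ := fun i => cl t (m i)) hp ?_ ht (fun i => le_cl ht (m i)) hq1
  have h2 : t * t * ∑ i, cl t (m i) * (cl t (m i) + 1) ≤ ∑ i, sg t (m i) := by
    rw [Finset.mul_sum]
    exact Finset.sum_le_sum fun i _ => sg_cl ht (m i)
  have h3 : (D + 2) * (D + 2 - t) ≤ t * t * ((e + 1) * (e + 2)) := by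
    calc (D + 2) * (D + 2 - t) ≤ (t * (e + 2)) * (t * (e + 1)) := by
          apply Nat.mul_le_mul
          · have : t * (e + 2) = t * (e + 1) + t := by ring
            omega
          · omega
      _ = t * t * ((e + 1) * (e + 2)) := by ring
  have h4 : ∑ i, cl t (m i) * (cl t (m i) + 1) ≤ (e + 1) * (e + 2) :=
    Nat.le_of_mul_le_mul_left (h2.trans (hS.trans h3)) (by positivity)
  have h5 : 2 * ∑ i, (cl t (m i) + 1).choose 2 = ∑ i, cl t (m i) * (cl t (m i) + 1) := by
    rw [Finset.mul_sum]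
    exact Finset.sum_congr rfl fun i _ => choose_two_mul_two _
  have h6 : 2 * (e + 2).choose 2 = (e + 1) * (e + 2) := choose_two_mul_two (e + 1)
  omega

/-- emptiness -/
theorem mixed_empty {r D M t s : ℕ} {p : Fin r → V3} (hp : GenericPoints p) {m : Fin r → ℕ}
    (hM : ∀ i, m i ≤ M) (ht : 1 ≤ t) (hD : 15000 * (M + t) ^ 3 ≤ t * D ^ 2)
    (hS : ∑ i, sg t (m i) ≤ s ^ 2) (hE : D * (s + t) ≤ ∑ i, m i ^ 2) :
    linSys D p m = ⊥ := by
  have hD0 : 1 ≤ D := by
    by_contra hcon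
    have h0 : D = 0 := by omega
    rw [h0] at hD
    have : 0 < (M + t) ^ 3 := by positivity
    omega
  have hsum : ∑ i, m i ^ 2 ≤ s ^ 2 := by
    refine le_trans (Finset.sum_le_sum fun i _ => ?_) hS
    refine le_trans ?_ (sg_ge ht (m i))
    rw [sq]
    exact Nat.mul_le_mul_left _ (Nat.le_succ _)
  have hsD : D + 1 ≤ s := by
    by_contra hcon
    have h1 : s ≤ D := by omega
    have h2 : s ^ 2 ≤ D * s := by
      rw [sq]
      exact Nat.mul_le_mul_right s h1
    have h3 : D * (s + t) = D * s + D * t := by ring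
    have h4 : 1 ≤ D * t := Nat.one_le_iff_ne_zero.mpr (by positivity)
    omega
  obtain ⟨X, hX⟩ : ∃ X, X = ∑ i, cl t (m i) * (cl t (m i) + 1) := ⟨_, rfl⟩
  have hXs : t * t * X ≤ s ^ 2 := by
    refine le_trans ?_ hS
    rw [hX, Finset.mul_sum]
    exact Finset.sum_le_sum fun i _ => sg_cl ht (m i)
  have hXm : ∑ i, m i ^ 2 ≤ t * t * X := by
    rw [hX, Finset.mul_sum]
    refine Finset.sum_le_sum fun i _ => ?_
    have h1 := le_cl ht (m i)
    calc m i ^ 2 = m i * m i := sq _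
      _ ≤ (t * cl t (m i)) * (t * cl t (m i) + t) := Nat.mul_le_mul h1 (by omega)
      _ = t * t * (cl t (m i) * (cl t (m i) + 1)) := by ring
  have hex : ∃ e, X ≤ (e + 1) * (e + 2) := ⟨X, by nlinarith⟩
  classical
  obtain ⟨e, he⟩ : ∃ e, e = Nat.find hex := ⟨_, rfl⟩
  have he1 : X ≤ (e + 1) * (e + 2) := by rw [he]; exact Nat.find_spec hex
  have he2 : t * e < s := by
    rcases Nat.eq_zero_or_pos e with h0 | h0
    · rw [h0]
      simp
      omega
    · obtain ⟨f, hf⟩ : ∃ f, e = f + 1 := ⟨e - 1, by omega⟩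
      have h1 : ¬ X ≤ (f + 1) * (f + 2) := by
        apply Nat.find_min hex
        omega
      push Not at h1
      have h2 : e * e < X := by
        rw [hf]
        nlinarith
      have h3 : (t * e) * (t * e) < s * s := by
        calc (t * e) * (t * e) = t * t * (e * e) := by ring
          _ < t * t * X := Nat.mul_lt_mul_of_pos_left h2 (by positivity)
          _ ≤ s * s := by rw [sq s] at hXs; exact hXs
      exact Nat.mul_self_lt_mul_self_iff.mp h3
  have he3 : D ≤ t * (e + 2) := by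
    have h1 : D * D ≤ (t * (e + 2)) * (t * (e + 2)) := by
      calc D * D ≤ D * (s + t) := Nat.mul_le_mul_left D (by omega)
        _ ≤ t * t * X := hE.trans hXm
        _ ≤ t * t * ((e + 1) * (e + 2)) := Nat.mul_le_mul_left _ he1
        _ ≤ t * t * ((e + 2) * (e + 2)) :=
            Nat.mul_le_mul_left _ (Nat.mul_le_mul_right _ (by omega))
        _ = (t * (e + 2)) * (t * (e + 2)) := by ring
    exact Nat.mul_self_le_mul_self_iff.mp h1
  have hbig : 14400 * (cl t M) ^ 3 ≤ e ^ 2 :=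
    e_big ht hD he3 (by have := cl_le (t := t) M; omega)
  have h1 := mixed_main (d := e) (m := fun i => cl t (m i)) hp (fun i => cl_mono (hM i)) hbig
  have h5 : 2 * ∑ i, (cl t (m i) + 1).choose 2 = X := by
    rw [hX, Finset.mul_sum]
    exact Finset.sum_congr rfl fun i _ => choose_two_mul_two _
  have h6 : 2 * (e + 2).choose 2 = (e + 1) * (e + 2) := choose_two_mul_two (e + 1)
  refine empty_up_vec (e := e) (μ := fun i => cl t (m i)) hp (by omega) ?_
  have h7 : ∑ i, m i ^ 2 ≤ t * ∑ i, m i * cl t (m i) := by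
    rw [Finset.mul_sum]
    refine Finset.sum_le_sum fun i _ => ?_
    calc m i ^ 2 = m i * m i := sq _
      _ ≤ m i * (t * cl t (m i)) := Nat.mul_le_mul_left _ (le_cl ht (m i))
      _ = t * (m i * cl t (m i)) := by ring
  have h8 : t * (D * (e + 1)) < t * ∑ i, m i * cl t (m i) := by
    calc t * (D * (e + 1)) = D * (t * e + t) := by ring
      _ < D * (s + t) := Nat.mul_lt_mul_of_pos_left (by omega) (by omega)
      _ ≤ t * ∑ i, m i * cl t (m i) := hE.trans h7
  exact lt_of_mul_lt_mul_left h8 (Nat.zero_le t)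

end LD

/-- **Window theorem for arbitrary multiplicities.** -/
theorem mixed_window {r D M t : ℕ} {p : Fin r → Fin 3 → ℂ} (hp : GenericPoints p)
    {m : Fin r → ℕ} (hM : ∀ i, m i ≤ M) (ht : 1 ≤ t)
    (hD : 15000 * (M + t) ^ 3 ≤ t * D ^ 2) {S : ℕ}
    (hS : S = ∑ i ∈ Finset.univ.filter (fun i => m i ≠ 0), (m i + t - 1) * (m i + 2 * t - 1)) :
    (S ≤ (D + 2) * (D + 2 - t) →
      finrank ℂ (linSys D p m) + ∑ i, (m i + 1).choose 2 = (D + 2).choose 2) ∧
    (S + 2 * M + 3 * t ≤ (D + 2) * (D + 2 - t) →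
      (∃ F ∈ linSys D p m, Squarefree F) ∧
      (∀ s : Fin (finrank ℂ (linSys D p m) - 1) → Fin 3 → ℂ, GenericPoints (Sum.elim p s) →
        ∀ F ∈ linSys D p m, F ≠ 0 → (∀ k, eval (s k) F = 0) → SmoothOnBlowup p m F) ∧
      (∃ F ∈ linSys D p m, F ≠ 0 ∧ SmoothOnBlowup p m F)) ∧
    (∀ s : ℕ, S ≤ s ^ 2 → D * (s + t) ≤ ∑ i, m i ^ 2 → linSys D p m = ⊥) := by
  have hSsg : S = ∑ i, LD.sg t (m i) := by
    rw [hS, Finset.sum_filter]
    refine Finset.sum_congr rfl fun i _ => ?_
    unfold LD.sg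
    by_cases h : m i = 0
    · rw [if_neg (by simp [h]), if_pos h]
    · rw [if_pos h, if_neg h]
  rw [hSsg]
  have h1 : ∑ i, LD.sg t (m i) ≤ (D + 2) * (D + 2 - t) →
      finrank ℂ (linSys D p m) + ∑ i, (m i + 1).choose 2 = (D + 2).choose 2 :=
    fun h => LD.mixed_indep hp (fun i => (hM i).trans (Nat.le_succ M)) ht hD h
  refine ⟨h1, fun h => ?_, fun s hs hE => LD.mixed_empty hp hM ht hD hs hE⟩
  have hdim := h1 (by omega)
  -- the system is not empty
  have hne : linSys D p m ≠ ⊥ := by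
    intro h0
    rw [h0, finrank_bot] at hdim
    have h2 : ∑ i, m i * (m i + 1) ≤ ∑ i, LD.sg t (m i) :=
      Finset.sum_le_sum fun i _ => LD.sg_ge ht (m i)
    have h3 : 2 * ∑ i, (m i + 1).choose 2 = ∑ i, m i * (m i + 1) := by
      rw [Finset.mul_sum]
      exact Finset.sum_congr rfl fun i _ => LD.choose_two_mul_two _
    have h4 : 2 * (D + 2).choose 2 = (D + 1) * (D + 2) := LD.choose_two_mul_two (D + 1)
    have h5 : (D + 2) * (D + 2 - t) ≤ (D + 1) * (D + 2) := by
      rw [mul_comm]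
      exact Nat.mul_le_mul_right _ (by omega)
    omega
  have hcomp : ∀ i, 2 ≤ m i → finrank ℂ (linSys D p (dropSimple m)) =
      finrank ℂ (linSys D p (Function.update (dropSimple m) i (m i + 1))) + (m i + 1) := by
    intro i hmi
    have hyi : dropSimple m i = m i := by
      unfold dropSimple
      rw [if_neg (by omega)]
    have hle : ∀ j, dropSimple m j ≤ m j := dropSimple_le m
    have h2 := LD.mixed_indep (m := dropSimple m) hp
      (fun j => ((hle j).trans (hM j)).trans (Nat.le_succ M)) ht hD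
      (le_trans (Finset.sum_le_sum fun j _ => LD.sg_mono (hle j)) (by omega))
    have h3 : ∑ j, LD.sg t (Function.update (dropSimple m) i (m i + 1) j) + 1 ≤
        ∑ j, LD.sg t (m j) + 2 * m i + 3 * t := by
      have e1 : ∑ j, LD.sg t (Function.update (dropSimple m) i (m i + 1) j) =
          LD.sg t (m i + 1) + ∑ j ∈ Finset.univ.erase i, LD.sg t (dropSimple m j) := by
        rw [← Finset.add_sum_erase _ _ (Finset.mem_univ i), Function.update_self]
        congr 1
        refine Finset.sum_congr rfl fun j hj => ?_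
        rw [Function.update_of_ne (Finset.ne_of_mem_erase hj)]
      have e2 : ∑ j, LD.sg t (m j) =
          LD.sg t (m i) + ∑ j ∈ Finset.univ.erase i, LD.sg t (m j) := by
        rw [← Finset.add_sum_erase _ _ (Finset.mem_univ i)]
      have e3 : ∑ j ∈ Finset.univ.erase i, LD.sg t (dropSimple m j) ≤
          ∑ j ∈ Finset.univ.erase i, LD.sg t (m j) :=
        Finset.sum_le_sum fun j _ => LD.sg_mono (hle j)
      have e4 := LD.sg_succ (t := t) (x := m i) ht (by omega)
      rw [e1, e2]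
      omega
    have h4 := LD.mixed_indep (m := Function.update (dropSimple m) i (m i + 1)) hp
      (fun j => by
        by_cases hj : j = i
        · rw [hj, Function.update_self]
          have := hM i
          omega
        · rw [Function.update_of_ne hj]
          exact ((hle j).trans (hM j)).trans (Nat.le_succ M)) ht hD
      (by have := hM i; omega)
    have h5 := sum_update_succ (dropSimple m) i
    rw [hyi] at h5
    omega
  obtain ⟨g1, -, g3, g4⟩ := complete_final p hp m ∅ (by simp)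
    (fun i _ h => hcomp i (by omega))
    (Or.inr ⟨hne, fun i hi => absurd hi (Finset.notMem_empty i), fun i _ h => hcomp i (by omega)⟩)
  exact ⟨g1, g3, g4⟩

end Pool.Agent.Work.MP_0421d9_ag
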