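import Pool.Agent.Work.MP_0421d9_ag.WEmpty
import Pool.Agent.Work.MP_0421d9_ag.MDefs

/-!
From independent conditions to larger multiplicities: arbitrary multiplicities.
-/

namespace Pool.Agent.Work.MP_0421d9_ag.LD

open MvPolynomial Module

/-- independent conditions stay independent after scaling -/
theorem indep_up_vec {r e t D : ℕ} {p : Fin r → V3} (hp : GenericPoints p) {μ m : Fin r → ℕ}
    (h : finrank ℂ (linSys e p μ) + ∑ i, (μ i + 1).choose 2 ≤ (e + 2).choose 2)
    (ht : 1 ≤ t) (hm : ∀ i, m i ≤ t * μ i) (hD : t * (e + 1) ≤ D + 1) :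
    finrank ℂ (linSys D p m) + ∑ i, (m i + 1).choose 2 = (D + 2).choose 2 := by
  have hp2 : ∀ i, p i 2 ≠ 0 := fun i => hp.ne_zero (i, 2)
  have h1 : Jets p e μ := jets_of_indep hp2 h
  have h2 : Jets p D m := ((h1.scale hp2 ht).mono_left hp2 (by omega)).mono_right hm
  have h3 := indep_of_jets h2
  have h4 := hPm_count D m
  rw [← hPm_eq hp] at h4
  omega

theorem empty_of_indep_vec {r D E : ℕ} {p : Fin r → V3} (hp : GenericPoints p)
    {m M : Fin r → ℕ}
    (hE : finrank ℂ (linSys E p M) + ∑ i, (M i + 1).choose 2 = (E + 2).choose 2)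
    (hm : ∀ i, m i ≤ M i) (hD : D ≤ E)
    (hlt : (E + 2).choose 2 + ∑ i, (M i - m i + 1).choose 2 <
      (E - D + 2).choose 2 + ∑ i, (M i + 1).choose 2) : linSys D p m = ⊥ := by
  rw [Submodule.eq_bot_iff]
  intro F hF
  by_contra hF0
  have h1 : (linSys (E - D) p (fun i => M i - m i)).map (LinearMap.mulLeft ℂ F) ≤
      linSys E p M := by
    rintro _ ⟨G, hG, rfl⟩
    refine ⟨?_, fun i => ?_⟩
    · have h2 := hF.1.mul hG.1
      have e1 : D + (E - D) = E := by omega
      rw [e1] at h2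
      exact h2
    · have h2 := vanishTo_mul (hF.2 i) (hG.2 i)
      have e1 : m i + (M i - m i) = M i := by have := hm i; omega
      rw [e1] at h2
      exact h2
  have hfin : Module.Finite ℂ (linSys E p M) :=
    Submodule.finiteDimensional_of_le (linSys_le E p _)
  have h2 := Submodule.finrank_mono h1
  have h3 : finrank ℂ ↥((linSys (E - D) p (fun i => M i - m i)).map
      (LinearMap.mulLeft ℂ F)) = finrank ℂ (linSys (E - D) p (fun i => M i - m i)) := by
    have hinj : Function.Injective (LinearMap.mulLeft ℂ F) := by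
      intro G G' hG
      exact mul_left_cancel₀ hF0 hG
    exact (LinearEquiv.finrank_eq (Submodule.equivMapOfInjective _ hinj _)).symm
  rw [h3, hPm_eq hp (y := fun i => M i - m i)] at h2
  have h4 := hPm_count (E - D) (fun i => M i - m i)
  omega

theorem empty_up_vec {r e D : ℕ} {p : Fin r → V3} (hp : GenericPoints p) {μ m : Fin r → ℕ}
    (h : finrank ℂ (linSys e p μ) + ∑ i, (μ i + 1).choose 2 ≤ (e + 2).choose 2)
    (hlt : D * (e + 1) < ∑ i, m i * μ i) : linSys D p m = ⊥ := by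
  obtain ⟨m', hm'⟩ : ∃ m' : Fin r → ℕ, m' = fun i => if μ i = 0 then 0 else m i := ⟨_, rfl⟩
  have hle : ∀ i, m' i ≤ m i := by
    intro i
    rw [hm']
    change (if μ i = 0 then 0 else m i) ≤ m i
    split_ifs
    · exact Nat.zero_le _
    · exact le_rfl
  have hmul : ∀ i, m' i * μ i = m i * μ i := by
    intro i
    rw [hm']
    change (if μ i = 0 then 0 else m i) * μ i = m i * μ i
    split_ifs with h0
    · rw [h0]; simp
    · rfl
  rw [eq_bot_iff]
  refine (linSys_mono (d := D) (p := p) hle).trans ?_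
  rw [← eq_bot_iff]
  simp only [← hmul] at hlt
  obtain ⟨T, hT⟩ : ∃ T, T = ∑ i, m' i * m' i + D + 1 := ⟨_, rfl⟩
  have hT1 : 1 ≤ T := by omega
  have hMm : ∀ i, m' i ≤ T * μ i := by
    intro i
    rcases Nat.eq_zero_or_pos (μ i) with h0 | h0
    · have : m' i = 0 := by
        rw [hm']
        change (if μ i = 0 then 0 else m i) = 0
        rw [if_pos h0]
      rw [this]
      exact Nat.zero_le _
    · have h1 : m' i * m' i ≤ ∑ j, m' j * m' j :=
        Finset.single_le_sum (f := fun j => m' j * m' j) (fun j _ => Nat.zero_le _)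
          (Finset.mem_univ i)
      have h2 : m' i ≤ m' i * m' i := Nat.le_mul_self _
      calc m' i ≤ T * 1 := by omega
        _ ≤ T * μ i := Nat.mul_le_mul_left T h0
  have hE0 : D + 1 ≤ T * (e + 1) := by
    calc D + 1 ≤ T * 1 := by omega
      _ ≤ T * (e + 1) := Nat.mul_le_mul_left T (by omega)
  obtain ⟨E, hE⟩ : ∃ E, T * (e + 1) = E + 1 := ⟨T * (e + 1) - 1, by omega⟩
  have h1 := indep_up_vec (m := fun i => T * μ i) (D := E) hp h hT1 (fun _ => le_rfl) hE.le
  refine empty_of_indep_vec hp h1 hMm (by omega) ?_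
  obtain ⟨v, hv⟩ : ∃ v, E = D + v := ⟨E - D, by omega⟩
  have e2 : E - D = v := by omega
  rw [e2]
  have c1 : 2 * (E + 2).choose 2 = (E + 1) * (E + 2) := choose_two_mul_two (E + 1)
  have c3 : 2 * (v + 2).choose 2 = (v + 1) * (v + 2) := choose_two_mul_two (v + 1)
  have c2 : ∀ i, 2 * (T * μ i - m' i + 1).choose 2 + (2 * T * (m' i * μ i) + m' i) =
      2 * (T * μ i + 1).choose 2 + m' i * m' i := by
    intro i
    obtain ⟨u, hu⟩ : ∃ u, T * μ i = m' i + u := ⟨T * μ i - m' i, by have := hMm i; omega⟩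
    have e3 : T * μ i - m' i = u := by omega
    have e4 : 2 * T * (m' i * μ i) = 2 * m' i * (T * μ i) := by ring
    rw [e3, choose_two_mul_two u, choose_two_mul_two (T * μ i), e4, hu]
    ring
  have c4 : 2 * ∑ i, (T * μ i - m' i + 1).choose 2 + (2 * T * ∑ i, m' i * μ i + ∑ i, m' i) =
      2 * ∑ i, (T * μ i + 1).choose 2 + ∑ i, m' i * m' i := by
    rw [Finset.mul_sum, Finset.mul_sum, Finset.mul_sum, ← Finset.sum_add_distrib,
      ← Finset.sum_add_distrib, ← Finset.sum_add_distrib]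
    exact Finset.sum_congr rfl fun i _ => c2 i
  have hkey : (E + 1) * (E + 2) + ∑ i, m' i * m' i <
      (v + 1) * (v + 2) + (2 * T * ∑ i, m' i * μ i + ∑ i, m' i) := by
    zify at hlt hv hE hT ⊢
    have h2 : (D : ℤ) * (e + 1) + 1 ≤ ∑ i, (m' i : ℤ) * (μ i : ℤ) := by linarith
    have hv' : (v : ℤ) = T * (e + 1) - 1 - D := by linarith
    have hE' : (E : ℤ) = T * (e + 1) - 1 := by linarith
    rw [hv', hE']
    have hD0 : (0 : ℤ) ≤ D := Int.natCast_nonneg D
    have h3 : (2 * T : ℤ) * ((D : ℤ) * (e + 1) + 1) ≤ 2 * T * (∑ i, (m' i : ℤ) * (μ i : ℤ)) :=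
      mul_le_mul_of_nonneg_left h2 (by positivity)
    have h4 : (0 : ℤ) ≤ ∑ i, (m' i : ℤ) := Finset.sum_nonneg fun i _ => Int.natCast_nonneg _
    have h5 : (0 : ℤ) ≤ ∑ i, (m' i : ℤ) * (m' i : ℤ) :=
      Finset.sum_nonneg fun i _ => by positivity
    nlinarith [mul_nonneg hD0 hD0]
  omega

end Pool.Agent.Work.MP_0421d9_ag.LD
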