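import Pool.Agent.Work.MP_0421d9_ag.WNum
import Pool.Agent.Work.MP_0421d9_ag.WVec

/-!
A bound of Nagata / Seshadri type for arbitrary multiplicities.
-/

namespace Pool.Agent.Work.MP_0421d9_ag.LD

open MvPolynomial Module

/-- all systems with multiplicity at most `r ^ (A + 2)` are nonspecial -/
theorem small_mult {A : ℝ} (hA : 0 < A) : ∃ R : ℝ, 16 ≤ R ∧ ∀ m r : ℕ, R ≤ r →
    (m : ℝ) ≤ (r : ℝ) ^ (A + 2) → ∀ d,
      hP d m r = (d + 2).choose 2 - r * (m + 1).choose 2 := by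
  obtain ⟨C, hC⟩ := nonspecial_of_eps (ε := 1 / (A + 3)) (by positivity)
  refine ⟨max 16 ((max C 0) ^ (A + 3)), le_max_left _ _, ?_⟩
  intro m r hr hm d
  have hr16 : (16 : ℝ) ≤ r := (le_max_left _ _).trans hr
  have hr0 : (0 : ℝ) < r := by linarith
  rw [← hP_eq (gpt_generic r)]
  refine hC m r d ?_ _ (gpt_generic r)
  have h1 : (m : ℝ) ^ (1 / (A + 3)) ≤ (r : ℝ) ^ ((A + 2) / (A + 3)) := by
    refine (Real.rpow_le_rpow (Nat.cast_nonneg m) hm (by positivity)).trans ?_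
    rw [← Real.rpow_mul hr0.le, mul_one_div]
  have h2 : max C 0 ≤ (r : ℝ) ^ (1 / (A + 3)) := by
    have h3 : (max C 0) ^ (A + 3) ≤ (r : ℝ) := (le_max_right _ _).trans hr
    have h4 := Real.rpow_le_rpow (by positivity) h3 (by positivity : (0 : ℝ) ≤ 1 / (A + 3))
    rwa [← Real.rpow_mul (le_max_right C 0), mul_one_div, div_self (by positivity),
      Real.rpow_one] at h4
  calc C * (m : ℝ) ^ (1 / (A + 3)) ≤ max C 0 * (m : ℝ) ^ (1 / (A + 3)) := by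
        gcongr
        exact le_max_left _ _
    _ ≤ (r : ℝ) ^ (1 / (A + 3)) * (r : ℝ) ^ ((A + 2) / (A + 3)) := by
        gcongr
    _ = r := by
        rw [← Real.rpow_add hr0, ← add_div,
          show (1 + (A + 2)) = A + 3 by ring, div_self (by positivity), Real.rpow_one]

/-- A form of degree `d` with multiplicity `μ i` at `r` generic points: `∑ μ i` is at most
`(√r + r ^ (-A)) d`. -/
theorem nagata_vec {A : ℝ} (hA : 0 < A) : ∃ R : ℝ, ∀ r d : ℕ, R ≤ r → ∀ p : Fin r → V3,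
    GenericPoints p → ∀ μ : Fin r → ℕ, linSys d p μ ≠ ⊥ →
      ((∑ i, μ i : ℕ) : ℝ) ≤ (√(r : ℝ) + (r : ℝ) ^ (-A)) * d := by
  obtain ⟨R, hR16, hR⟩ := small_mult hA
  refine ⟨R, fun r d hr p hp μ hne => ?_⟩
  have hr16 : (16 : ℝ) ≤ r := hR16.trans hr
  have hr0 : (0 : ℝ) < r := by linarith
  have hr1 : (1 : ℝ) ≤ r := by linarith
  have hr4 : 4 ≤ r := by
    have : (4 : ℝ) ≤ r := by linarith
    exact_mod_cast this
  have hrA0 : (0 : ℝ) < (r : ℝ) ^ A := Real.rpow_pos_of_pos hr0 _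
  have hrA2 : (r : ℝ) ^ (A + 2) = (r : ℝ) ^ A * r ^ 2 := by
    rw [Real.rpow_add hr0, Real.rpow_ofNat]
  have hrA1 : (1 : ℝ) ≤ (r : ℝ) ^ A := Real.one_le_rpow hr1 hA.le
  set s : ℝ := √(r : ℝ) with hs
  have hs2 : s ^ 2 = r := Real.sq_sqrt hr0.le
  have hs4 : (4 : ℝ) ≤ s := by
    rw [hs, show (4 : ℝ) = √16 by
      rw [show (16 : ℝ) = 4 ^ 2 by norm_num]; exact (Real.sqrt_sq (by norm_num)).symm]
    exact Real.sqrt_le_sqrt hr16
  have hs0 : 0 < s := by linarith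
  set N₀ : ℕ := ⌊(r : ℝ) ^ (A + 2)⌋₊ with hN₀
  have hN1 : (N₀ : ℝ) ≤ (r : ℝ) ^ (A + 2) := Nat.floor_le (by positivity)
  have hN2 : (r : ℝ) ^ (A + 2) < N₀ + 1 := Nat.lt_floor_add_one _
  have hNbig : (r : ℝ) ^ A * r ^ 2 < N₀ + 1 := hrA2 ▸ hN2
  have hr2 : (256 : ℝ) ≤ (r : ℝ) ^ 2 := by nlinarith
  have hN4 : s * (r : ℝ) ^ A ≤ N₀ := by
    have h1 : (r : ℝ) ^ 2 = s ^ 4 := by rw [← hs2]; ring
    have h2 : s + 1 ≤ s ^ 4 := by nlinarith [sq_nonneg (s ^ 2 - 4), sq_nonneg (s - 4)]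
    have h3 : (r : ℝ) ^ A * (s + 1) ≤ (r : ℝ) ^ A * r ^ 2 := by
      rw [h1]
      exact mul_le_mul_of_nonneg_left h2 hrA0.le
    nlinarith
  have hN₀0 : (0 : ℝ) < N₀ := lt_of_lt_of_le (by positivity) hN4
  have hN₀1 : 1 ≤ N₀ := by
    have : 0 < N₀ := by exact_mod_cast hN₀0
    exact this
  obtain ⟨e, he1, he2⟩ := exists_e hr4 hN₀1 (hR N₀ r hr hN1)
  have h1 : ∑ i, μ i * N₀ ≤ d * (e + 1) := by
    by_contra hlt
    rw [not_le] at hlt
    refine hne (empty_up_vec hp (μ := fun _ => N₀) ?_ hlt)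
    rw [hP_eq hp, Finset.sum_const, Finset.card_univ, Fintype.card_fin, smul_eq_mul]
    exact he1.le
  have h2 : ((∑ i, μ i : ℕ) : ℝ) * N₀ ≤ d * (e + 1) := by
    rw [← Finset.sum_mul] at h1
    exact_mod_cast h1
  have hd0 : (0 : ℝ) ≤ d := Nat.cast_nonneg d
  have h3 : (d : ℝ) * (e + 1) ≤ d * (s * N₀ + s) := by
    refine mul_le_mul_of_nonneg_left ?_ hd0
    nlinarith
  have h4 : s ≤ (r : ℝ) ^ (-A) * N₀ := by
    have h5 := mul_le_mul_of_nonneg_left hN4 (Real.rpow_nonneg hr0.le (-A))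
    rwa [mul_comm s, ← mul_assoc, ← Real.rpow_add hr0, neg_add_cancel, Real.rpow_zero,
      one_mul] at h5
  have h6 : (d : ℝ) * (s * N₀ + s) ≤ d * (s * N₀ + (r : ℝ) ^ (-A) * N₀) :=
    mul_le_mul_of_nonneg_left (by linarith) hd0
  have h7 : ((∑ i, μ i : ℕ) : ℝ) * N₀ ≤ ((s + (r : ℝ) ^ (-A)) * d) * N₀ := by linarith
  exact le_of_mul_le_mul_right h7 hN₀0

end Pool.Agent.Work.MP_0421d9_ag.LD
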