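import Pool.Agent.Work.MP_0421d9_ag.WEmpty
import Pool.Agent.Work.MP_0421d9_ag.VFinal

/-!
Systems of equal multiplicities outside of a small window.
-/

namespace Pool.Agent.Work.MP_0421d9_ag.LD

open MvPolynomial Module

/-- the least degree for which `m₀` at `r` points has enough forms -/
theorem exists_e {r m₀ : ℕ} (hr : 4 ≤ r) (hm₀ : 1 ≤ m₀)
    (hns : ∀ D, hP D m₀ r = (D + 2).choose 2 - r * (m₀ + 1).choose 2) :
    ∃ e : ℕ, hP e m₀ r + r * (m₀ + 1).choose 2 = (e + 2).choose 2 ∧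
      (e : ℝ) + 1 < √(r : ℝ) * (m₀ + 1 / 2) + 1 / 2 := by
  have hex : ∃ e : ℕ, r * (m₀ + 1).choose 2 ≤ (e + 2).choose 2 := by
    refine ⟨r * (m₀ + 1).choose 2, ?_⟩
    rw [Nat.choose_succ_succ' (r * (m₀ + 1).choose 2 + 1) 1, Nat.choose_one_right]
    omega
  classical
  refine ⟨Nat.find hex, ?_, ?_⟩
  · have := Nat.find_spec hex
    rw [hns]
    omega
  · have h2 : (2 : ℝ) ≤ √(r : ℝ) := by
      rw [show (2 : ℝ) = √4 by rw [show (4 : ℝ) = 2 ^ 2 by norm_num]; exact (Real.sqrt_sq (by norm_num)).symm]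
      exact Real.sqrt_le_sqrt (by exact_mod_cast hr)
    have hm1 : (1 : ℝ) ≤ m₀ := by exact_mod_cast hm₀
    have hr1 : (4 : ℝ) ≤ r := by exact_mod_cast hr
    have hss : √(r : ℝ) ^ 2 = r := Real.sq_sqrt (by positivity)
    rcases Nat.eq_zero_or_pos (Nat.find hex) with h0 | h0
    · rw [h0, Nat.cast_zero]
      nlinarith
    · obtain ⟨e, he⟩ : ∃ e, Nat.find hex = e + 1 := ⟨Nat.find hex - 1, by omega⟩
      have hlt : e < Nat.find hex := by omega
      have h3 := Nat.find_min hex hlt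
      rw [not_le] at h3
      have h4 : (((e + 2).choose 2 : ℕ) : ℝ) < ((r * (m₀ + 1).choose 2 : ℕ) : ℝ) := by
        exact_mod_cast h3
      rw [Nat.cast_mul, Nat.cast_choose_two, Nat.cast_choose_two] at h4
      push_cast at h4
      rw [he]
      push_cast
      have h5 : ((e : ℝ) + 1 + 1 / 2) ^ 2 < (√(r : ℝ) * (m₀ + 1 / 2)) ^ 2 := by
        rw [mul_pow, hss]
        nlinarith
      have h6 := lt_of_pow_lt_pow_left₀ 2 (by positivity) h5
      linarith

theorem window {A : ℝ} (hA : 0 < A) : ∃ R : ℝ, ∀ m r d : ℕ, R ≤ r →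
    ((m : ℝ) ≤ (r : ℝ) ^ A ∨ (m : ℝ) ≤ (r : ℝ) ^ A * |(d : ℝ) - √r * m|) →
    hP d m r = (d + 2).choose 2 - r * (m + 1).choose 2 := by
  obtain ⟨C, hC⟩ := nonspecial_of_eps (ε := 1 / (A + 3)) (by positivity)
  -- all multiplicities up to `r ^ (A + 2)`
  set R : ℝ := max 16 ((max C 0) ^ (A + 3)) with hR
  have hsmall : ∀ m r : ℕ, R ≤ r → (m : ℝ) ≤ (r : ℝ) ^ (A + 2) → ∀ d,
      hP d m r = (d + 2).choose 2 - r * (m + 1).choose 2 := by
    intro m r hr hm d
    have hr16 : (16 : ℝ) ≤ r := (le_max_left _ _).trans hr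
    have hr0 : (0 : ℝ) < r := by linarith
    rw [← hP_eq (gpt_generic r)]
    refine hC m r d ?_ _ (gpt_generic r)
    have h1 : (m : ℝ) ^ (1 / (A + 3)) ≤ (r : ℝ) ^ ((A + 2) / (A + 3)) := by
      refine (Real.rpow_le_rpow (Nat.cast_nonneg m) hm (by positivity)).trans ?_
      rw [← Real.rpow_mul hr0.le, mul_one_div]
    have h2 : max C 0 ≤ (r : ℝ) ^ (1 / (A + 3)) := by
      have h3 : (max C 0) ^ (A + 3) ≤ (r : ℝ) := (le_max_right _ _).trans hr
      have h4 := Real.rpow_le_rpow (by positivity) h3 (by positivity : (0 : ℝ) ≤ 1 / (A + 3))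
      rwa [← Real.rpow_mul (le_max_right C 0), mul_one_div, div_self (by positivity),
        Real.rpow_one] at h4
    calc C * (m : ℝ) ^ (1 / (A + 3)) ≤ max C 0 * (m : ℝ) ^ (1 / (A + 3)) := by
          gcongr
          exact le_max_left _ _
      _ ≤ (r : ℝ) ^ (1 / (A + 3)) * (r : ℝ) ^ ((A + 2) / (A + 3)) := by
          gcongr
      _ = r := by
          rw [← Real.rpow_add hr0, ← add_div,
            show (1 + (A + 2)) = A + 3 by ring, div_self (by positivity), Real.rpow_one]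
  refine ⟨R, fun m r d hr h => ?_⟩
  have hr16 : (16 : ℝ) ≤ r := (le_max_left _ _).trans hr
  have hr0 : (0 : ℝ) < r := by linarith
  have hr1 : (1 : ℝ) ≤ r := by linarith
  have hr4 : 4 ≤ r := by
    have : (4 : ℝ) ≤ r := by linarith
    exact_mod_cast this
  rcases le_or_gt (m : ℝ) ((r : ℝ) ^ (A + 2)) with hm | hm
  · exact hsmall m r hr hm d
  have hmA : (m : ℝ) ≤ (r : ℝ) ^ A * |(d : ℝ) - √r * m| := by
    rcases h with h | h
    · exfalso
      have := Real.rpow_le_rpow_of_exponent_le hr1 (by linarith : A ≤ A + 2)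
      linarith
    · exact h
  -- powers of `r`
  have hrA0 : (0 : ℝ) < (r : ℝ) ^ A := Real.rpow_pos_of_pos hr0 _
  have hrA2 : (r : ℝ) ^ (A + 2) = (r : ℝ) ^ A * r ^ 2 := by
    rw [Real.rpow_add hr0, Real.rpow_ofNat]
  have hrA1 : (1 : ℝ) ≤ (r : ℝ) ^ A := Real.one_le_rpow hr1 hA.le
  set s : ℝ := √(r : ℝ) with hs
  have hs2 : s ^ 2 = r := Real.sq_sqrt hr0.le
  have hs4 : (4 : ℝ) ≤ s := by
    rw [hs, show (4 : ℝ) = √16 by
      rw [show (16 : ℝ) = 4 ^ 2 by norm_num]; exact (Real.sqrt_sq (by norm_num)).symm]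
    exact Real.sqrt_le_sqrt hr16
  have hs0 : 0 < s := by linarith
  set N₀ : ℕ := ⌊(r : ℝ) ^ (A + 2)⌋₊ with hN₀
  have hN1 : (N₀ : ℝ) ≤ (r : ℝ) ^ (A + 2) := Nat.floor_le (by positivity)
  have hN2 : (r : ℝ) ^ (A + 2) < N₀ + 1 := Nat.lt_floor_add_one _
  have hNbig : (r : ℝ) ^ A * r ^ 2 < N₀ + 1 := hrA2 ▸ hN2
  have hr2 : (256 : ℝ) ≤ (r : ℝ) ^ 2 := by nlinarith
  have hN4 : 4 * (s * (r : ℝ) ^ A) ≤ N₀ := by
    have h1 : (r : ℝ) ^ 2 = s ^ 4 := by rw [← hs2]; ring
    have h2 : 4 * s + 1 ≤ s ^ 4 := by nlinarith [sq_nonneg (s ^ 2 - 4), sq_nonneg (s - 4)]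
    have h3 : (r : ℝ) ^ A * (4 * s + 1) ≤ (r : ℝ) ^ A * r ^ 2 := by
      rw [h1]
      exact mul_le_mul_of_nonneg_left h2 hrA0.le
    nlinarith
  have hN₀1 : 1 ≤ N₀ := by
    have : (1 : ℝ) ≤ N₀ := by nlinarith
    exact_mod_cast this
  have hN₀0 : (0 : ℝ) < N₀ := by exact_mod_cast hN₀1
  have hmN : N₀ ≤ m := by
    have : (N₀ : ℝ) ≤ m := hN1.trans hm.le
    exact_mod_cast this
  have hmN' : (N₀ : ℝ) ≤ m := by exact_mod_cast hmN
  have hm0 : (0 : ℝ) < m := by linarith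
  rcases le_total (s * m) d with hd | hd
  · -- large degree
    rw [abs_of_nonneg (by linarith)] at hmA
    -- number of factors
    obtain ⟨t, ht1, ht2, ht3⟩ : ∃ t : ℕ, 1 ≤ t ∧ m ≤ t * N₀ ∧ t * N₀ ≤ 2 * m := by
      refine ⟨(m - 1) / N₀ + 1, Nat.le_add_left 1 _, ?_, ?_⟩
      · have h1 := Nat.div_add_mod (m - 1) N₀
        have h2 := Nat.mod_lt (m - 1) hN₀1
        rw [add_mul, one_mul, mul_comm]
        omega
      · have h1 := Nat.div_mul_le_self (m - 1) N₀
        rw [add_mul, one_mul]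
        omega
    obtain ⟨m₀, hm₀1, hm₀2, hm₀3, hm₀4⟩ : ∃ m₀ : ℕ, 1 ≤ m₀ ∧ m₀ ≤ N₀ ∧ m ≤ t * m₀ ∧
        t * m₀ ≤ m + t := by
      refine ⟨(m - 1) / t + 1, Nat.le_add_left 1 _, ?_, ?_, ?_⟩
      · have h1 : (m - 1) / t < N₀ := by
          rw [Nat.div_lt_iff_lt_mul (by omega), mul_comm]
          omega
        omega
      · have h1 := Nat.div_add_mod (m - 1) t
        have h2 := Nat.mod_lt (m - 1) ht1
        rw [mul_add, mul_one]
        omega
      · have h1 := Nat.div_mul_le_self (m - 1) t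
        rw [mul_add, mul_one, mul_comm t]
        omega
    obtain ⟨e, he1, he2⟩ := exists_e hr4 hm₀1 (hsmall m₀ r hr
      (le_trans (by exact_mod_cast hm₀2) hN1))
    have key : t * (e + 1) ≤ d + 1 := by
      have h1 : (t : ℝ) * (e + 1) ≤ d := by
        have ht0 : (0 : ℝ) < t := by exact_mod_cast ht1
        have h4 : (t : ℝ) * m₀ ≤ m + t := by exact_mod_cast hm₀4
        have h5 : (t : ℝ) * N₀ ≤ 2 * m := by exact_mod_cast ht3
        have h6 : (t : ℝ) * (e + 1) ≤ s * m + 2 * s * t := by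
          have : (t : ℝ) * (e + 1) ≤ t * (s * (m₀ + 1 / 2) + 1 / 2) :=
            mul_le_mul_of_nonneg_left he2.le ht0.le
          nlinarith
        -- `2 s t ≤ r ^ (-A) m`
        have h7 : (r : ℝ) ^ A * (2 * s * t) ≤ m := by
          have h8 : 4 * (s * (r : ℝ) ^ A) * t ≤ N₀ * t :=
            mul_le_mul_of_nonneg_right hN4 ht0.le
          nlinarith
        have h9 : (r : ℝ) ^ A * (2 * s * t) ≤ (r : ℝ) ^ A * (d - s * m) := h7.trans hmA
        have h10 := le_of_mul_le_mul_left h9 hrA0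
        linarith
      have h2 : t * (e + 1) ≤ d := by exact_mod_cast h1
      omega
    have h := indep_up he1 ht1 hm₀3 key
    omega
  · -- small degree
    rw [abs_of_nonpos (by linarith)] at hmA
    obtain ⟨e, he1, he2⟩ := exists_e hr4 hN₀1 (hsmall N₀ r hr hN1)
    have h0 : hP d m r = 0 := by
      refine empty_up he1 ?_
      have hd0 : (0 : ℝ) ≤ d := Nat.cast_nonneg d
      have h1 : (d : ℝ) * (e + 1) < r * m * N₀ := by
        have h2 : (e : ℝ) + 1 ≤ s * (N₀ + 1) := by nlinarith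
        have h3 : (d : ℝ) * (e + 1) ≤ d * (s * (N₀ + 1)) := mul_le_mul_of_nonneg_left h2 hd0
        -- `r ^ A * d ≤ (r ^ A * s - 1) m`
        have h4 : (r : ℝ) ^ A * d ≤ ((r : ℝ) ^ A * s - 1) * m := by nlinarith
        have h5 : (r : ℝ) ^ A * (d * (s * (N₀ + 1))) ≤
            ((r : ℝ) ^ A * s - 1) * m * (s * (N₀ + 1)) := by
          have := mul_le_mul_of_nonneg_right h4 (by positivity : (0 : ℝ) ≤ s * (N₀ + 1))
          linarith
        have h6 : ((r : ℝ) ^ A * s - 1) * m * (s * (N₀ + 1)) < (r : ℝ) ^ A * (r * m * N₀) := by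
          have h7 : ((r : ℝ) ^ A * s - 1) * (s * (N₀ + 1)) < (r : ℝ) ^ A * (r * N₀) := by
            -- `r ^ A s < N₀ + 1`
            have h71 : (r : ℝ) ^ A * s < N₀ + 1 := by nlinarith
            have h72 : ((r : ℝ) ^ A * s) * s < (N₀ + 1) * s := mul_lt_mul_of_pos_right h71 hs0
            have h73 : (r : ℝ) ^ A * (r * N₀) = ((r : ℝ) ^ A * s) * s * N₀ := by
              rw [← hs2]
              generalize (s ^ 2) ^ A = z
              ring
            rw [h73]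
            nlinarith
          have h74 := mul_lt_mul_of_pos_right h7 hm0
          linarith
        have h8 : (r : ℝ) ^ A * (d * (e + 1)) < (r : ℝ) ^ A * (r * m * N₀) := by
          have := mul_le_mul_of_nonneg_left h3 hrA0.le
          linarith
        exact lt_of_mul_lt_mul_left h8 hrA0.le
      exact_mod_cast h1
    rw [h0]
    symm
    rw [Nat.sub_eq_zero_iff_le]
    have h1 : (((d + 2).choose 2 : ℕ) : ℝ) ≤ ((r * (m + 1).choose 2 : ℕ) : ℝ) := by
      rw [Nat.cast_mul, Nat.cast_choose_two, Nat.cast_choose_two]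
      push_cast
      have hd0 : (0 : ℝ) ≤ d := Nat.cast_nonneg d
      have h2 : (d : ℝ) + 2 ≤ s * m := by
        have h3 : (r : ℝ) ^ A * 2 ≤ (r : ℝ) ^ A * (s * m - d) := by
          nlinarith
        have h4 := le_of_mul_le_mul_left h3 hrA0
        linarith
      have h5 : ((d : ℝ) + 2) * ((d : ℝ) + 2) ≤ (s * m) * (s * m) :=
        mul_self_le_mul_self (by positivity) h2
      have h6 : (s * (m : ℝ)) * (s * m) = r * (m * m) := by
        rw [← hs2]
        ring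
      have h7 : (0 : ℝ) ≤ r * m := by positivity
      nlinarith
    exact_mod_cast h1

end Pool.Agent.Work.MP_0421d9_ag.LD
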