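import Pool.Agent.Work.MP_0421d9_ag.WLoc
import Pool.Agent.Work.MP_0421d9_ag.WJet
import Pool.Agent.Work.MP_0421d9_ag.FlagStep69

/-!
The conditions imposed by multiple points are independent if and only if all jets are realised.
-/

namespace Pool.Agent.Work.MP_0421d9_ag.LD

open MvPolynomial Module

/-- the exponents of degree less than `m` -/
abbrev Ex (m : ℕ) := Σ n : Fin m, Fin ((n : ℕ) + 1)

/-- the exponent with the given index -/
noncomputable def ex {m : ℕ} (x : Ex m) : Fin 2 →₀ ℕ :=
  Finsupp.single 0 (x.2 : ℕ) + Finsupp.single 1 ((x.1 : ℕ) - (x.2 : ℕ))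

theorem ex_degree {m : ℕ} (x : Ex m) : (ex x).degree = x.1 := by
  obtain ⟨⟨n, hn⟩, ⟨j, hj⟩⟩ := x
  rw [degree_two]
  simp [ex]
  simp at hj
  omega

theorem ex_zero {m : ℕ} (x : Ex m) : ex x 0 = x.2 := by simp [ex]

theorem ex_injective {m : ℕ} : Function.Injective (ex : Ex m → Fin 2 →₀ ℕ) := by
  rintro ⟨⟨n, hn⟩, ⟨j, hj⟩⟩ ⟨⟨n', hn'⟩, ⟨j', hj'⟩⟩ h
  have h1 := congrArg Finsupp.degree h
  rw [ex_degree, ex_degree] at h1
  have h2 := DFunLike.congr_fun h 0
  rw [ex_zero, ex_zero] at h2
  simp only at h1 h2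
  subst h1
  subst h2
  rfl

theorem exists_ex {m : ℕ} {β : Fin 2 →₀ ℕ} (h : β.degree < m) : ∃ x : Ex m, ex x = β := by
  have h1 := degree_two β
  refine ⟨⟨⟨β.degree, h⟩, ⟨β 0, by show β 0 < β.degree + 1; omega⟩⟩, ?_⟩
  ext k
  fin_cases k
  · simp [ex]
  · simp [ex]
    omega

theorem card_ex (m : ℕ) : Fintype.card (Ex m) = (m + 1).choose 2 := by
  rw [Fintype.card_sigma]
  simp only [Fintype.card_fin]
  rw [Fin.sum_univ_eq_sum_range (fun n => n + 1) m]
  induction m with
  | zero => rfl
  | succ m ih =>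
    rw [Finset.sum_range_succ, ih, Nat.choose_succ_succ' (m + 1) 1, Nat.choose_one_right]
    ring

variable {r : ℕ}

/-- the coefficients of the jets of a form -/
noncomputable def jetMap (p : Fin r → V3) (μ : Fin r → ℕ) :
    R3 →ₗ[ℂ] ((i : Fin r) → Ex (μ i) → ℂ) where
  toFun F := fun i x => coeff (ex x) (loc (p i) F)
  map_add' F G := by
    funext i x
    rw [map_add, coeff_add]
    rfl
  map_smul' c F := by
    funext i x
    rw [map_smul, coeff_smul]
    rfl

theorem jetMap_apply (p : Fin r → V3) (μ : Fin r → ℕ) (F : R3) (i : Fin r) (x : Ex (μ i)) :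
    jetMap p μ F i x = coeff (ex x) (loc (p i) F) := rfl

theorem finrank_jets (μ : Fin r → ℕ) :
    finrank ℂ ((i : Fin r) → Ex (μ i) → ℂ) = ∑ i, (μ i + 1).choose 2 := by
  rw [Module.finrank_pi_fintype]
  refine Finset.sum_congr rfl fun i _ => ?_
  rw [Module.finrank_fintype_fun_eq_card, card_ex]

theorem jets_of_indep {p : Fin r → V3} (hp : ∀ i, p i 2 ≠ 0) {D : ℕ} {μ : Fin r → ℕ}
    (h : finrank ℂ (linSys D p μ) + ∑ i, (μ i + 1).choose 2 ≤ (D + 2).choose 2) :
    Jets p D μ := by
  classical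
  have h1 := finrank_eq_ker_add_map (jetMap p μ) (Rd D)
  have h2 : Rd D ⊓ LinearMap.ker (jetMap p μ) ≤ linSys D p μ := by
    rintro F ⟨hF, hk⟩
    refine ⟨hF, fun i => vanishTo_of_van2 hF (hp i) fun β hβ => ?_⟩
    obtain ⟨x, rfl⟩ := exists_ex hβ
    have h3 := congrFun (congrFun (LinearMap.mem_ker.mp hk) i) x
    exact h3
  have hfin : Module.Finite ℂ (linSys D p μ) :=
    Submodule.finiteDimensional_of_le (linSys_le D p μ)
  have h3 : finrank ℂ ↥(Rd D ⊓ LinearMap.ker (jetMap p μ)) ≤ finrank ℂ (linSys D p μ) :=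
    Submodule.finrank_mono h2
  have h4 : (Rd D).map (jetMap p μ) = ⊤ := by
    apply Submodule.eq_top_of_finrank_eq
    apply le_antisymm (Submodule.finrank_le _)
    rw [finrank_jets]
    rw [finrank_Rd] at h1
    omega
  intro i β hβ
  let v : (j : Fin r) → Ex (μ j) → ℂ := fun j x =>
    coeff (ex x) (if j = i then (monomial β 1 : P2) else 0)
  have h5 : v ∈ (Rd D).map (jetMap p μ) := by
    rw [h4]
    trivial
  obtain ⟨F, hF, hv⟩ := h5
  refine ⟨F, hF, fun j hj γ hγ => ?_, fun γ hγ => ?_⟩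
  · obtain ⟨x, rfl⟩ := exists_ex hγ
    have h6 := congrFun (congrFun hv j) x
    rw [jetMap_apply] at h6
    rw [h6]
    simp only [v, if_neg hj, coeff_zero]
  · obtain ⟨x, rfl⟩ := exists_ex (m := μ i) (β := γ) (by omega)
    have h6 := congrFun (congrFun hv i) x
    rw [jetMap_apply] at h6
    rw [coeff_sub, h6]
    simp [v]

theorem indep_of_jets {p : Fin r → V3} {D : ℕ} {μ : Fin r → ℕ} (h : Jets p D μ) :
    finrank ℂ (linSys D p μ) + ∑ i, (μ i + 1).choose 2 ≤ (D + 2).choose 2 := by
  classical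
  let E : (i : Fin r) → (Fin 2 →₀ ℕ) → ((j : Fin r) → Ex (μ j) → ℂ) := fun i β j x =>
    coeff (ex x) (if j = i then (monomial β 1 : P2) else 0)
  have hsum : ∀ v : (j : Fin r) → Ex (μ j) → ℂ, v = ∑ i, ∑ x, v i x • E i (ex x) := by
    intro v
    funext j y
    rw [Finset.sum_apply, Finset.sum_apply, Finset.sum_eq_single j]
    · rw [Finset.sum_apply, Finset.sum_apply, Finset.sum_eq_single y]
      · simp [E]
      · intro x _ hx
        have h1 : ex x ≠ ex y := fun h' => hx (ex_injective h')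
        simp [E, coeff_monomial, h1]
      · intro h'
        exact absurd (Finset.mem_univ _) h'
    · intro i _ hi
      rw [Finset.sum_apply, Finset.sum_apply]
      refine Finset.sum_eq_zero fun x _ => ?_
      simp [E, hi.symm]
    · intro h'
      exact absurd (Finset.mem_univ _) h'
  set V := (Rd D).map (jetMap p μ) with hV
  have hE : ∀ n i (β : Fin 2 →₀ ℕ), β.degree < μ i → μ i ≤ β.degree + n → E i β ∈ V := by
    intro n
    induction n with
    | zero =>
      intro i β h1 h2
      omega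
    | succ n ih =>
      intro i β h1 h2
      obtain ⟨F, hF, hF1, hF2⟩ := h i β h1
      have h3 : jetMap p μ F ∈ V := ⟨F, hF, rfl⟩
      have h4 : jetMap p μ F - E i β ∈ V := by
        rw [hsum (jetMap p μ F - E i β)]
        refine Submodule.sum_mem _ fun j _ => Submodule.sum_mem _ fun x _ => ?_
        by_cases hj : j = i
        · subst hj
          rcases Nat.lt_or_ge β.degree (ex x).degree with h5 | h5
          · exact V.smul_mem _ (ih j (ex x) (by rw [ex_degree]; exact x.1.2) (by omega))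
          · have h6 : (jetMap p μ F - E j β) j x = 0 := by
              have h7 := hF2 (ex x) (by omega)
              rw [coeff_sub] at h7
              simpa [E, jetMap_apply] using h7
            rw [h6, zero_smul]
            exact V.zero_mem
        · have h6 : (jetMap p μ F - E i β) j x = 0 := by
            have h7 := hF1 j hj (ex x) (by rw [ex_degree]; exact x.1.2)
            simp [E, jetMap_apply, h7, hj]
          rw [h6, zero_smul]
          exact V.zero_mem
      have h5 := V.sub_mem h3 h4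
      rwa [sub_sub_cancel] at h5
  have hT : V = ⊤ := by
    rw [Submodule.eq_top_iff']
    intro v
    rw [hsum v]
    refine Submodule.sum_mem _ fun i _ => Submodule.sum_mem _ fun x _ => ?_
    exact V.smul_mem _ (hE (μ i) i (ex x) (by rw [ex_degree]; exact x.1.2) (by omega))
  have h1 := finrank_eq_ker_add_map (jetMap p μ) (Rd D)
  rw [← hV, hT, finrank_top, finrank_jets, finrank_Rd] at h1
  have h2 : linSys D p μ ≤ Rd D ⊓ LinearMap.ker (jetMap p μ) := by
    intro F hF
    refine ⟨hF.1, ?_⟩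
    rw [SetLike.mem_coe, LinearMap.mem_ker]
    funext i x
    rw [jetMap_apply]
    exact van2_of_vanishTo (hF.2 i) _ (by rw [ex_degree]; exact x.1.2)
  have hfin : Module.Finite ℂ ↥(Rd D ⊓ LinearMap.ker (jetMap p μ)) :=
    Submodule.finiteDimensional_of_le inf_le_left
  have h3 : finrank ℂ (linSys D p μ) ≤ finrank ℂ ↥(Rd D ⊓ LinearMap.ker (jetMap p μ)) :=
    Submodule.finrank_mono h2
  omega

end Pool.Agent.Work.MP_0421d9_ag.LD
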