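import Pool.Agent.Work.MP_0421d9_ag.XPlane
import Pool.Agent.Work.MP_0421d9_ag.VFinal

/-!
Both halves of the question for systems of equal multiplicities with at least `C m ^ ε` points,
except the degrees in which the dimension is between `1` and `m`.
-/

namespace Pool.Agent.Work.MP_0421d9_ag

open MvPolynomial Module

/-- smoothness for equal multiplicities, if one multiplicity can be raised -/
theorem homogeneous_smooth {m r d : ℕ} {p : Fin r → Fin 3 → ℂ} (hp : GenericPoints p)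
    (hX : 1 ≤ m → LD.PY m r)
    (hdim : finrank ℂ (linSys d p (fun _ => m)) = (d + 2).choose 2 - r * (m + 1).choose 2)
    (hne : linSys d p (fun _ => m) ≠ ⊥)
    (hlarge : 2 ≤ m → m < finrank ℂ (linSys d p (fun _ => m))) :
    (∃ F ∈ linSys d p (fun _ => m), Squarefree F) ∧
    (∀ s : Fin (finrank ℂ (linSys d p (fun _ => m)) - 1) → Fin 3 → ℂ,
      GenericPoints (Sum.elim p s) → ∀ F ∈ linSys d p (fun _ => m), F ≠ 0 →
        (∀ k, eval (s k) F = 0) → SmoothOnBlowup p (fun _ => m) F) ∧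
    (∃ F ∈ linSys d p (fun _ => m), F ≠ 0 ∧ SmoothOnBlowup p (fun _ => m) F) := by
  have hcomp : 2 ≤ m → ∀ i : Fin r, finrank ℂ (linSys d p (dropSimple (fun _ => m))) =
      finrank ℂ (linSys d p (Function.update (dropSimple (fun _ => m)) i (m + 1))) + (m + 1) := by
    intro hm i
    have hds : dropSimple (fun _ : Fin r => m) = fun _ => m := by
      funext j
      change (if m = 1 then 0 else m) = m
      rw [if_neg (by omega)]
    rw [hds]
    obtain ⟨r', rfl, hX'⟩ := hX (by omega)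
    rw [LD.finrank_update hX' hp i]
    have h3 := hlarge hm
    rw [hdim] at h3 ⊢
    omega
  obtain ⟨g1, -, g3, g4⟩ := complete_final p hp (fun _ => m) ∅ (by simp)
    (fun i _ h => hcomp (by omega) i)
    (Or.inr ⟨hne, fun i hi => absurd hi (Finset.notMem_empty i), fun i _ h => hcomp (by omega) i⟩)
  exact ⟨g1, g3, g4⟩

/-- nonspeciality and smoothness -/
theorem homogeneous_eps {ε : ℝ} (hε : 0 < ε) : ∃ C : ℝ, ∀ m r d : ℕ,
    C * (m : ℝ) ^ ε ≤ r → ∀ p : Fin r → Fin 3 → ℂ, GenericPoints p →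
      finrank ℂ (linSys d p (fun _ => m)) = (d + 2).choose 2 - r * (m + 1).choose 2 ∧
      (linSys d p (fun _ => m) ≠ ⊥ → (2 ≤ m → m < finrank ℂ (linSys d p (fun _ => m))) →
        (∃ F ∈ linSys d p (fun _ => m), Squarefree F) ∧
        (∀ s : Fin (finrank ℂ (linSys d p (fun _ => m)) - 1) → Fin 3 → ℂ,
          GenericPoints (Sum.elim p s) → ∀ F ∈ linSys d p (fun _ => m), F ≠ 0 →
            (∀ k, eval (s k) F = 0) → SmoothOnBlowup p (fun _ => m) F) ∧
        (∃ F ∈ linSys d p (fun _ => m), F ≠ 0 ∧ SmoothOnBlowup p (fun _ => m) F)) := by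
  obtain ⟨C₁, h1⟩ := LD.nonspecial_of_eps hε
  obtain ⟨C₂, h2⟩ := LD.PY_of_eps hε
  refine ⟨max C₁ C₂, fun m r d hr p hp => ?_⟩
  have hm0 : (0 : ℝ) ≤ (m : ℝ) ^ ε := by positivity
  have hr1 : C₁ * (m : ℝ) ^ ε ≤ r :=
    le_trans (mul_le_mul_of_nonneg_right (le_max_left _ _) hm0) hr
  have hr2 : C₂ * (m : ℝ) ^ ε ≤ r :=
    le_trans (mul_le_mul_of_nonneg_right (le_max_right _ _) hm0) hr
  have hdim := h1 m r d hr1 p hp
  exact ⟨hdim, fun hne hlarge => homogeneous_smooth hp (fun hm => h2 m r hm hr2) hdim hne hlarge⟩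

end Pool.Agent.Work.MP_0421d9_ag
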