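import Pool.Agent.Work.MP_0421d9_ag.WNum
import Pool.Agent.Work.MP_0421d9_ag.XFinal
import Pool.Agent.Work.MP_0421d9_ag.SFinal

/-!
Smoothness of the general members outside of the window.
-/

namespace Pool.Agent.Work.MP_0421d9_ag

open MvPolynomial Module

namespace LD

/-- independence of the conditions is inherited by smaller multiplicities -/
theorem indep_mono {r D : ℕ} {p : Fin r → V3} (hp : ∀ i, p i 2 ≠ 0) {μ ν : Fin r → ℕ}
    (hμ : ∀ i, ν i ≤ μ i)
    (h : finrank ℂ (linSys D p μ) + ∑ i, (μ i + 1).choose 2 ≤ (D + 2).choose 2) :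
    finrank ℂ (linSys D p ν) + ∑ i, (ν i + 1).choose 2 ≤ (D + 2).choose 2 :=
  indep_of_jets (Jets.mono_right hμ (jets_of_indep hp h))

/-- if the points of multiplicity `m + 1` impose independent conditions, then raising one
multiplicity `m` imposes `m + 1` conditions -/
theorem drop_of_indep {r m d : ℕ} {p : Fin r → V3} (hp : GenericPoints p)
    (hdim : finrank ℂ (linSys d p (fun _ => m + 1)) =
      (d + 2).choose 2 - r * (m + 1 + 1).choose 2)
    (hχ : r * (m + 1 + 1).choose 2 ≤ (d + 2).choose 2) (i : Fin r) :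
    finrank ℂ (linSys d p (fun _ => m)) =
      finrank ℂ (linSys d p (Function.update (fun _ => m) i (m + 1))) + (m + 1) := by
  have hp2 : ∀ i, p i 2 ≠ 0 := fun i => hp.ne_zero (i, 2)
  have h0 : finrank ℂ (linSys d p (fun _ : Fin r => m + 1)) +
      ∑ _i : Fin r, (m + 1 + 1).choose 2 ≤ (d + 2).choose 2 := by
    rw [hdim, Finset.sum_const, Finset.card_univ, Fintype.card_fin, smul_eq_mul]
    omega
  have h1 := indep_mono (ν := fun _ => m) hp2 (fun _ => Nat.le_succ m) h0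
  have h2 := indep_mono (ν := Function.update (fun _ => m) i (m + 1)) hp2 (fun j => by
    by_cases hj : j = i
    · rw [hj, Function.update_self]
    · rw [Function.update_of_ne hj]
      exact Nat.le_succ m) h0
  have h3 := sum_update_succ (fun _ : Fin r => m) i
  have h4 := hPm_count d (fun _ : Fin r => m)
  have h5 := hPm_count d (Function.update (fun _ : Fin r => m) i (m + 1))
  rw [← hPm_eq hp] at h4 h5
  omega

end LD

/-- smoothness for equal multiplicities, if raising one multiplicity imposes `m + 1` conditions -/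
theorem smooth_of_drop {m r d : ℕ} {p : Fin r → Fin 3 → ℂ} (hp : GenericPoints p)
    (hdrop : ∀ i : Fin r, finrank ℂ (linSys d p (fun _ => m)) =
      finrank ℂ (linSys d p (Function.update (fun _ => m) i (m + 1))) + (m + 1))
    (hne : linSys d p (fun _ => m) ≠ ⊥) :
    (∃ F ∈ linSys d p (fun _ => m), Squarefree F) ∧
    (∀ s : Fin (finrank ℂ (linSys d p (fun _ => m)) - 1) → Fin 3 → ℂ,
      GenericPoints (Sum.elim p s) → ∀ F ∈ linSys d p (fun _ => m), F ≠ 0 →
        (∀ k, eval (s k) F = 0) → SmoothOnBlowup p (fun _ => m) F) ∧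
    (∃ F ∈ linSys d p (fun _ => m), F ≠ 0 ∧ SmoothOnBlowup p (fun _ => m) F) := by
  have hcomp : 2 ≤ m → ∀ i : Fin r, finrank ℂ (linSys d p (dropSimple (fun _ => m))) =
      finrank ℂ (linSys d p (Function.update (dropSimple (fun _ => m)) i (m + 1))) + (m + 1) := by
    intro hm i
    have hds : dropSimple (fun _ : Fin r => m) = fun _ => m := by
      funext j
      change (if m = 1 then 0 else m) = m
      rw [if_neg (by omega)]
    rw [hds]
    exact hdrop i
  obtain ⟨g1, -, g3, g4⟩ := complete_final p hp (fun _ => m) ∅ (by simp)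
    (fun i _ h => hcomp (by omega) i)
    (Or.inr ⟨hne, fun i hi => absurd hi (Finset.notMem_empty i), fun i _ h => hcomp (by omega) i⟩)
  exact ⟨g1, g3, g4⟩

/-- smoothness for equal multiplicities, if one multiplicity can be raised, or the degree is
large -/
theorem homogeneous_smooth' {m r d : ℕ} {p : Fin r → Fin 3 → ℂ} (hp : GenericPoints p)
    (hX : 1 ≤ m → LD.PY m r)
    (hdim : finrank ℂ (linSys d p (fun _ => m)) = (d + 2).choose 2 - r * (m + 1).choose 2)
    (hne : linSys d p (fun _ => m) ≠ ⊥)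
    (h : m ≤ 1 ∨ m < finrank ℂ (linSys d p (fun _ => m)) ∨ 3 * (m + 2) ^ 2 + m ≤ d) :
    (∃ F ∈ linSys d p (fun _ => m), Squarefree F) ∧
    (∀ s : Fin (finrank ℂ (linSys d p (fun _ => m)) - 1) → Fin 3 → ℂ,
      GenericPoints (Sum.elim p s) → ∀ F ∈ linSys d p (fun _ => m), F ≠ 0 →
        (∀ k, eval (s k) F = 0) → SmoothOnBlowup p (fun _ => m) F) ∧
    (∃ F ∈ linSys d p (fun _ => m), F ≠ 0 ∧ SmoothOnBlowup p (fun _ => m) F) := by
  rcases Nat.lt_or_ge d (3 * (m + 2) ^ 2 + m) with hd | hd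
  · exact homogeneous_smooth hp hX hdim hne (fun h2 => by omega)
  · obtain ⟨h1, -, h3, h4⟩ := SM.main_all p hp (fun _ => m) (fun _ => le_rfl) (Or.inl hd) hne
    exact ⟨h1, h3, h4⟩

/-- the numerical part: outside of the window a nonempty system admits multiplicity `m + 1` -/
theorem window_num {A : ℝ} {m r d : ℕ} (hr : 4 ≤ r)
    (hm : (r : ℝ) ^ (A + 3) < m) (hw : (m : ℝ) ≤ (r : ℝ) ^ A * |(d : ℝ) - √r * m|)
    (hpos : r * (m + 1).choose 2 < (d + 2).choose 2) :
    ((m + 1 : ℕ) : ℝ) ≤ (r : ℝ) ^ (A + 2) * |(d : ℝ) - √r * ((m + 1 : ℕ) : ℝ)| ∧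
      r * (m + 1 + 1).choose 2 ≤ (d + 2).choose 2 := by
  have hr4 : (4 : ℝ) ≤ r := by exact_mod_cast hr
  have hr0 : (0 : ℝ) < r := by linarith
  set P : ℝ := (r : ℝ) ^ A with hP
  have hP0 : 0 < P := Real.rpow_pos_of_pos hr0 A
  have e3 : (r : ℝ) ^ (A + 3) = P * r ^ 3 := by
    rw [Real.rpow_add hr0, hP]
    norm_cast
  have e2 : (r : ℝ) ^ (A + 2) = P * r ^ 2 := by
    rw [Real.rpow_add hr0, hP]
    norm_cast
  rw [e3] at hm
  rw [e2]
  set s : ℝ := √r with hs
  have hs0 : 0 ≤ s := Real.sqrt_nonneg _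
  have hss : s ^ 2 = r := Real.sq_sqrt hr0.le
  have hs2 : 2 ≤ s := by nlinarith
  have hsr : s ≤ r := by nlinarith
  have hm0 : (0 : ℝ) ≤ m := Nat.cast_nonneg m
  have hd0 : (0 : ℝ) ≤ d := Nat.cast_nonneg d
  have hr3 : (r : ℝ) ^ 3 = r * r ^ 2 := by ring
  have hr2 : (16 : ℝ) ≤ r ^ 2 := by nlinarith
  -- the absolute value is greater than `r ^ 3`
  have hbig : (r : ℝ) ^ 3 < |(d : ℝ) - s * m| := by
    have h1 : P * (r : ℝ) ^ 3 < P * |(d : ℝ) - s * m| := lt_of_lt_of_le hm hw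
    exact lt_of_mul_lt_mul_left h1 hP0.le
  have key1 : ∀ n : ℕ, (((n + 1).choose 2 : ℕ) : ℝ) = ((n : ℝ) + 1) * n / 2 := by
    intro n
    rw [Nat.cast_choose_two]
    push_cast
    ring
  have hposR : (r : ℝ) * (((m : ℝ) + 1) * m / 2) < ((d : ℝ) + 2) * (d + 1) / 2 := by
    have h1 : ((r * (m + 1).choose 2 : ℕ) : ℝ) < (((d + 2).choose 2 : ℕ) : ℝ) := by
      exact_mod_cast hpos
    rw [Nat.cast_mul, key1 m, (by rfl : d + 2 = (d + 1) + 1), key1 (d + 1)] at h1
    push_cast at h1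
    linarith
  have hdm : s * m < d := by
    by_contra hcon
    push Not at hcon
    rw [abs_of_nonpos (by linarith)] at hbig
    have h1 : (d : ℝ) + 2 ≤ s * m := by nlinarith
    have h2 : ((d : ℝ) + 2) * (d + 1) ≤ (s * m) * (s * m) := by
      apply mul_le_mul h1 (by linarith) (by positivity) (by positivity)
    have h3 : (s * m) * (s * m) = r * m ^ 2 := by rw [← hss]; ring
    nlinarith
  have habs : |(d : ℝ) - s * m| = d - s * m := abs_of_pos (by linarith)
  rw [habs] at hbig hw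
  constructor
  · have h1 : (d : ℝ) - s * ((m + 1 : ℕ) : ℝ) = (d - s * m) - s := by push_cast; ring
    rw [h1]
    refine le_trans ?_ (mul_le_mul_of_nonneg_left (le_abs_self _) (by positivity))
    have h2 : P * (r : ℝ) ^ 2 * s ≤ P * r ^ 3 := by
      rw [hr3]
      have : P * (r : ℝ) ^ 2 * s ≤ P * (r : ℝ) ^ 2 * r :=
        mul_le_mul_of_nonneg_left hsr (by positivity)
      linarith
    have h3 : (r : ℝ) ^ 2 * m ≤ r ^ 2 * (P * (d - s * m)) :=
      mul_le_mul_of_nonneg_left hw (by positivity)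
    have h4 : 16 * (m : ℝ) ≤ (r : ℝ) ^ 2 * m := mul_le_mul_of_nonneg_right hr2 hm0
    have h5 : (1 : ℝ) ≤ m := by
      have h6 : (0 : ℝ) < m := lt_trans (by positivity) hm
      exact_mod_cast h6
    push_cast
    nlinarith
  · have h1 : s * (m + 2) ≤ d := by
      have : 2 * s ≤ (r : ℝ) ^ 3 := by nlinarith
      nlinarith
    have h2 : (s * (m + 2)) * (s * (m + 2)) ≤ (d : ℝ) * d :=
      mul_le_mul h1 h1 (by positivity) hd0
    have h3 : (s * ((m : ℝ) + 2)) * (s * (m + 2)) = r * (m + 2) ^ 2 := by rw [← hss]; ring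
    have h4 : ((r * (m + 1 + 1).choose 2 : ℕ) : ℝ) ≤ (((d + 2).choose 2 : ℕ) : ℝ) := by
      rw [Nat.cast_mul, key1 (m + 1), (by rfl : d + 2 = (d + 1) + 1), key1 (d + 1)]
      push_cast
      nlinarith
    exact_mod_cast h4

/-- **Window theorem with smoothness.** -/
theorem window_smooth {A : ℝ} (hA : 0 < A) : ∃ R : ℝ, ∀ m r d : ℕ, R ≤ r →
    ((m : ℝ) ≤ (r : ℝ) ^ A ∨ (m : ℝ) ≤ (r : ℝ) ^ A * |(d : ℝ) - √r * m|) →
    ∀ p : Fin r → Fin 3 → ℂ, GenericPoints p →
      finrank ℂ (linSys d p (fun _ => m)) = (d + 2).choose 2 - r * (m + 1).choose 2 ∧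
      (linSys d p (fun _ => m) ≠ ⊥ →
        (m ≤ 1 ∨ m < finrank ℂ (linSys d p (fun _ => m)) ∨ 3 * (m + 2) ^ 2 + m ≤ d ∨
          (r : ℝ) ^ (A + 3) < m) →
        (∃ F ∈ linSys d p (fun _ => m), Squarefree F) ∧
        (∀ s : Fin (finrank ℂ (linSys d p (fun _ => m)) - 1) → Fin 3 → ℂ,
          GenericPoints (Sum.elim p s) → ∀ F ∈ linSys d p (fun _ => m), F ≠ 0 →
            (∀ k, eval (s k) F = 0) → SmoothOnBlowup p (fun _ => m) F) ∧
        (∃ F ∈ linSys d p (fun _ => m), F ≠ 0 ∧ SmoothOnBlowup p (fun _ => m) F)) := by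
  obtain ⟨R₁, h1⟩ := LD.window hA
  obtain ⟨R₂, h2⟩ := LD.window (by linarith : 0 < A + 2)
  have hε : 0 < 1 / (2 * (A + 3)) := by positivity
  obtain ⟨C, hC⟩ := LD.PY_of_eps hε
  refine ⟨max (max R₁ R₂) (max 4 (C ^ 2)), fun m r d hR hw p hp => ?_⟩
  have hR1 : R₁ ≤ r := le_trans (le_trans (le_max_left _ _) (le_max_left _ _)) hR
  have hR2 : R₂ ≤ r := le_trans (le_trans (le_max_right _ _) (le_max_left _ _)) hR
  have hR3 : (4 : ℝ) ≤ r := le_trans (le_trans (le_max_left _ _) (le_max_right _ _)) hR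
  have hR4 : C ^ 2 ≤ r := le_trans (le_trans (le_max_right _ _) (le_max_right _ _)) hR
  have hr4 : 4 ≤ r := by exact_mod_cast hR3
  have hr0 : (0 : ℝ) < r := by linarith
  have hdim : finrank ℂ (linSys d p (fun _ => m)) =
      (d + 2).choose 2 - r * (m + 1).choose 2 := by
    rw [LD.hP_eq hp]
    exact h1 m r d hR1 hw
  refine ⟨hdim, fun hne hlarge => ?_⟩
  rcases le_or_gt (m : ℝ) ((r : ℝ) ^ (A + 3)) with hm | hm
  · refine homogeneous_smooth' hp (fun hm1 => hC m r hm1 ?_) hdim hne ?_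
    · have e1 : (m : ℝ) ^ (1 / (2 * (A + 3))) ≤ √r := by
        calc (m : ℝ) ^ (1 / (2 * (A + 3))) ≤ ((r : ℝ) ^ (A + 3)) ^ (1 / (2 * (A + 3))) :=
              Real.rpow_le_rpow (Nat.cast_nonneg m) hm hε.le
          _ = (r : ℝ) ^ (1 / 2 : ℝ) := by
              rw [← Real.rpow_mul hr0.le]
              congr 1
              field_simp
          _ = √r := (Real.sqrt_eq_rpow _).symm
      have e2 : |C| ≤ √r := Real.abs_le_sqrt hR4
      calc C * (m : ℝ) ^ (1 / (2 * (A + 3))) ≤ |C| * (m : ℝ) ^ (1 / (2 * (A + 3))) :=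
            mul_le_mul_of_nonneg_right (le_abs_self C) (by positivity)
        _ ≤ √r * √r := mul_le_mul e2 e1 (by positivity) (Real.sqrt_nonneg _)
        _ = r := Real.mul_self_sqrt hr0.le
    · rcases hlarge with h | h | h | h
      · exact Or.inl h
      · exact Or.inr (Or.inl h)
      · exact Or.inr (Or.inr h)
      · exact absurd h (not_lt.mpr hm)
  · have hw' : (m : ℝ) ≤ (r : ℝ) ^ A * |(d : ℝ) - √r * m| := by
      rcases hw with h | h
      · exfalso
        have h3 : (r : ℝ) ^ A ≤ (r : ℝ) ^ (A + 3) :=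
          Real.rpow_le_rpow_of_exponent_le (by linarith) (by linarith)
        linarith
      · exact h
    have hpos : r * (m + 1).choose 2 < (d + 2).choose 2 := by
      have h3 : finrank ℂ (linSys d p (fun _ => m)) ≠ 0 := by
        intro h0
        have hfin : Module.Finite ℂ (linSys d p (fun _ : Fin r => m)) :=
          Submodule.finiteDimensional_of_le (linSys_le d p _)
        exact hne (Submodule.finrank_eq_zero.mp h0)
      omega
    obtain ⟨h3, h4⟩ := window_num hr4 hm hw' hpos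
    have h5 := h2 (m + 1) r d hR2 (Or.inr h3)
    rw [← LD.hP_eq hp] at h5
    exact smooth_of_drop hp (LD.drop_of_indep hp h5 h4) hne

end Pool.Agent.Work.MP_0421d9_ag
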