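import Pool.Agent.Work.MP_0421d9_ag.MPlane
import Pool.Agent.Work.MP_0421d9_ag.VSteer
import Pool.Agent.Work.MP_0421d9_ag.SStruct

/-!
Systems with points of multiplicity `m` and one point of multiplicity `m + 1`: strips of `m` rows
and square numbers of points.
-/

namespace Pool.Agent.Work.MP_0421d9_ag.LD

open MvPolynomial Module

/-- `r` points of multiplicity `m` and one of multiplicity `m + 1` -/
def yx (m r : ℕ) : Fin (r + 1) → ℕ := fun i => if (i : ℕ) < r then m else m + 1

/-- the plane, with `r` points of multiplicity `m` and one of multiplicity `m + 1` -/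
noncomputable def hX (D m r : ℕ) : ℕ := hPm D (yx m r)

namespace XB

/-! ### the line through the heavy point -/

theorem line_zero {G : R3} {m : ℕ} {p : V3} (hT : ∀ α, coeff α G ≠ 0 → α 2 ≤ m)
    (hv : VanishTo G p (m + 1)) :
    (aeval (fun i => Polynomial.C (p i) + Polynomial.X * Polynomial.C (e2 i)) G :
      Polynomial ℂ) = 0 := by
  have h1 := SM.Str.X_pow_dvd_line hv e2
  refine Polynomial.eq_zero_of_dvd_of_natDegree_lt h1 ?_
  rw [Polynomial.natDegree_X_pow, Nat.lt_succ_iff]
  conv_lhs => rw [← support_sum_monomial_coeff G]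
  rw [map_sum]
  refine Polynomial.natDegree_sum_le_of_forall_le _ _ (fun α hα => ?_)
  have h2 := hT α (mem_support_iff.mp hα)
  rw [aeval_monomial, Finsupp.prod_fintype _ _ (fun i => pow_zero _), Fin.prod_univ_three,
    Polynomial.algebraMap_eq]
  have e0' : (e2 : V3) 0 = 0 := rfl
  have e1' : (e2 : V3) 1 = 0 := rfl
  have e2' : (e2 : V3) 2 = 1 := rfl
  rw [e0', e1', e2', Polynomial.C_0, mul_zero, add_zero, add_zero, Polynomial.C_1, mul_one]
  refine le_trans ?_ h2
  rw [← Polynomial.C_pow, ← Polynomial.C_pow, ← Polynomial.C_mul, ← mul_assoc,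
    ← Polynomial.C_mul]
  refine (Polynomial.natDegree_C_mul_le _ _).trans ?_
  refine Polynomial.natDegree_pow_le.trans ?_
  have h3 : (Polynomial.C (p 2) + Polynomial.X : Polynomial ℂ).natDegree ≤ 1 := by
    rw [add_comm]
    exact (Polynomial.natDegree_X_add_C _).le
  calc α 2 * (Polynomial.C (p 2) + Polynomial.X : Polynomial ℂ).natDegree ≤ α 2 * 1 :=
        Nat.mul_le_mul_left _ h3
    _ = α 2 := Nat.mul_one _

/-- the equation of the line through `p` and `(0, 0, 1)` -/
def ll (p : V3) : V3 := ![p 1, -p 0, 0]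

theorem lin_ll (p : V3) : lin (ll p) = C (p 1) * X 0 - C (p 0) * X 1 := by
  unfold lin ll
  rw [Fin.sum_univ_three]
  simp
  ring

theorem eval_ll (p u : V3) : eval u (lin (ll p)) = p 1 * u 0 - p 0 * u 1 := by
  rw [lin_ll]
  simp

theorem line_dvd {D m : ℕ} {G : R3} (hG : G.IsHomogeneous D) (hmD : m < D)
    (hT : ∀ α, coeff α G ≠ 0 → α 2 ≤ m) {p : V3} (hp : p 1 ≠ 0) (hv : VanishTo G p (m + 1)) :
    lin (ll p) ∣ G := by
  have hl : ll p ≠ 0 := by
    intro h
    exact hp (by have := congrFun h 0; simpa [ll] using this)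
  apply lin_dvd_of_eval hl
  intro u hu
  rw [eval_ll] at hu
  by_cases h1 : u 1 = 0
  · have h0 : u 0 = 0 := by
      rw [h1, mul_zero, sub_zero] at hu
      exact (mul_eq_zero.mp hu).resolve_left hp
    rw [eval_eq']
    refine Finset.sum_eq_zero (fun α hα => ?_)
    have h2 := hT α (mem_support_iff.mp hα)
    have h3 := deg_eq hG hα
    rw [Fin.prod_univ_three, h0, h1]
    rcases Nat.eq_zero_or_pos (α 0) with h4 | h4
    · have h5 : α 1 ≠ 0 := by omega
      rw [zero_pow h5]
      ring
    · rw [zero_pow (by omega : α 0 ≠ 0)]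
      ring
  · set s := u 1 / p 1 with hs
    have hs0 : s ≠ 0 := div_ne_zero h1 hp
    have h2 := line_zero hT hv
    have h3 : u = s • (p + (u 2 / s - p 2) • e2) := by
      funext i
      rw [Pi.smul_apply, Pi.add_apply, Pi.smul_apply, smul_eq_mul, smul_eq_mul]
      fin_cases i
      · change u 0 = s * (p 0 + (u 2 / s - p 2) * 0)
        rw [hs, mul_zero, add_zero, eq_comm, div_mul_eq_mul_div, div_eq_iff hp]
        linear_combination -hu
      · change u 1 = s * (p 1 + (u 2 / s - p 2) * 0)
        rw [hs]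
        field_simp
        ring
      · change u 2 = s * (p 2 + (u 2 / s - p 2) * 1)
        field_simp
        ring
    rw [h3, eval_smul_of_homogeneous hG, ← eval_onLine]
    have h4 : onLine p e2 G = 0 := by
      rw [← h2]
      unfold onLine
      congr 2
      funext i
      rw [mul_comm (Polynomial.X : Polynomial ℂ)]
    rw [h4, Polynomial.eval_zero, mul_zero]

theorem gen_ne01 {N : ℕ} {q : Fin N → V3} (hq : GenericPoints q) {i j : Fin N} (hij : i ≠ j) :
    q j 1 * q i 0 - q j 0 * q i 1 ≠ 0 := by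
  intro h1
  have h4 := (algebraicIndependent_iff.mp hq)
    (X (j, 1) * X (i, 0) - X (j, 0) * X (i, 1)) (by
      rw [map_sub, map_mul, map_mul, aeval_X, aeval_X, aeval_X, aeval_X]
      exact h1)
  have h5 := congrArg (eval (fun z : Fin N × Fin 3 =>
    if z = (j, 1) ∨ z = (i, 0) then (1 : ℚ) else 0)) h4
  rw [map_sub, map_mul, map_mul, eval_X, eval_X, eval_X, eval_X, map_zero] at h5
  have hji : j ≠ i := fun h => hij h.symm
  simp [hij, hji] at h5

/-- one heavier point: the line through it splits off -/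
theorem kills_heavy {D m A N : ℕ} (hmD : m ≤ D)
    (h : hT D {α | α 2 < m ∨ (α 2 = m ∧ α 0 < A)} m (N + 1) = 0) :
    Killsm (D + 1) (yx m N) {α | α 2 < m ∨ (α 2 = m ∧ α 0 < A + 1)} := by
  classical
  set P := gpt (N + 1) (Fin.last N) with hP
  have hbot : TS D {α : Fin 3 →₀ ℕ | α 2 < m ∨ (α 2 = m ∧ α 0 < A)} m (gpt (N + 1)) = ⊥ := by
    rw [← Submodule.finrank_eq_zero (R := ℂ)]
    exact h
  have hl : ll P ≠ 0 := by
    intro h
    exact gpt_ne (Fin.last N) 1 (by have := congrFun h 0; simpa [ll] using this)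
  have hlhom : (lin (ll P)).IsHomogeneous 1 := lin_isHomogeneous _
  refine ⟨gpt (N + 1), fun k i => gpt_ne k i, fun G hG1 hG2 hG3 => ?_⟩
  have hv0 : VanishTo G P (m + 1) := by
    have h1 := hG3 (Fin.last N)
    unfold yx at h1
    rwa [if_neg (by simp)] at h1
  obtain ⟨g₀, hg₀⟩ := line_dvd hG1 (by omega) (fun α hα => by
    have h1 := hG2 α (mem_support_iff.mpr hα)
    rcases h1 with h1 | h1 <;> omega) (gpt_ne (Fin.last N) 1) hv0
  set g := homogeneousComponent D g₀ with hg
  have hG : G = lin (ll P) * g := by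
    rw [hg, ← homogeneousComponent_mul hlhom, ← hg₀, add_comm 1 D,
      homogeneousComponent_eq_self hG1]
  have hghom : g.IsHomogeneous D := homogeneousComponent_isHomogeneous _ _
  have hgmem : g ∈ TS D {α : Fin 3 →₀ ℕ | α 2 < m ∨ (α 2 = m ∧ α 0 < A)} m (gpt (N + 1)) := by
    rw [mem_TS]
    refine ⟨hghom, fun i => ?_, fun α hα => ?_⟩
    · by_cases hi : i = Fin.last N
      · rw [hi]
        rw [hG] at hv0
        have h1 := vanishTo_of_mul_eq hl hv0 (by
          rw [eval_ll]
          ring)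
        exact h1
      · have h1 := hG3 i
        unfold yx at h1
        rw [if_pos (Fin.val_lt_last hi), hG] at h1
        refine Tr.vanishTo_of_eval_ne h1 ?_
        rw [eval_ll]
        exact gen_ne01 (gpt_generic (N + 1)) hi
    · obtain ⟨β, hβ, hmax⟩ := Finset.exists_max_image (g.support.filter (fun β => β 2 = α 2))
        (fun β => β 0) ⟨α, Finset.mem_filter.mpr ⟨mem_support_iff.mpr hα, rfl⟩⟩
      rw [Finset.mem_filter] at hβ
      have h1 := hmax α (Finset.mem_filter.mpr ⟨mem_support_iff.mpr hα, rfl⟩)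
      have h2 : coeff (β + Finsupp.single 0 1) G = P 1 * coeff β g := by
        rw [hG, lin_ll, sub_mul, mul_assoc, mul_assoc, coeff_sub, coeff_C_mul, coeff_C_mul,
          Rk.coeff_X_mul_of_eq rfl]
        have h3 : coeff (β + Finsupp.single 0 1) (X 1 * g) = 0 := by
          by_contra h4
          obtain ⟨γ, hγ, hγ'⟩ := Rk.exists_of_coeff_X_mul h4
          have g0 := DFunLike.congr_fun hγ 0
          have g2 := DFunLike.congr_fun hγ 2
          rw [Finsupp.add_apply, Finsupp.add_apply, Finsupp.single_eq_same,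
            Finsupp.single_eq_of_ne (by decide)] at g0
          rw [Finsupp.add_apply, Finsupp.add_apply, Finsupp.single_eq_of_ne (by decide),
            Finsupp.single_eq_of_ne (by decide)] at g2
          have h5 := hmax γ (Finset.mem_filter.mpr ⟨mem_support_iff.mpr hγ', by omega⟩)
          omega
        rw [h3, mul_zero, sub_zero]
      have h3 : coeff (β + Finsupp.single 0 1) G ≠ 0 := by
        rw [h2]
        exact mul_ne_zero (gpt_ne _ _) (mem_support_iff.mp hβ.1)
      have h4 := hG2 _ (mem_support_iff.mpr h3)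
      have e0' : (β + Finsupp.single 0 1 : Fin 3 →₀ ℕ) 0 = β 0 + 1 := by
        rw [Finsupp.add_apply, Finsupp.single_eq_same]
      have e2' : (β + Finsupp.single 0 1 : Fin 3 →₀ ℕ) 2 = β 2 := by
        rw [Finsupp.add_apply, Finsupp.single_eq_of_ne (by decide), add_zero]
      change (β + Finsupp.single 0 1 : Fin 3 →₀ ℕ) 2 < m ∨
        ((β + Finsupp.single 0 1 : Fin 3 →₀ ℕ) 2 = m ∧
          (β + Finsupp.single 0 1 : Fin 3 →₀ ℕ) 0 < A + 1) at h4
      rw [e0', e2'] at h4
      change α 2 < m ∨ (α 2 = m ∧ α 0 < A)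
      omega
  rw [hbot, Submodule.mem_bot] at hgmem
  rw [hG, hgmem, mul_zero]

end XB

end Pool.Agent.Work.MP_0421d9_ag.LD
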