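import Pool.Agent.Work.MP_0421d9_ag.XStep
import Pool.Agent.Work.MP_0421d9_ag.VPlaneQT
import Pool.Agent.Work.MP_0421d9_ag.VLevel
import Pool.Agent.Work.MP_0421d9_ag.MSmooth

/-!
At least `C m ^ ε` points of multiplicity `m`, one of them raised to `m + 1`.
-/

namespace Pool.Agent.Work.MP_0421d9_ag.LD

open MvPolynomial Module

/-- many points -/
theorem PX_of_many {m r : ℕ} (hm : 1 ≤ m) (h : 60000 * m ≤ r + 1) : PX m r := by
  intro D
  have h1 := mixed_of_many (d := D) (M := m + 1) (gpt_generic (r + 1)) (m := yx m r) (fun i => by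
    unfold yx
    split_ifs <;> omega) (Or.inr (by
      rw [sum_yx]
      have hc := two_mul_choose m
      have h2 : 60000 * m * (m * (m + 1)) ≤ (r + 1) * (m * (m + 1)) := Nat.mul_le_mul_right _ h
      have h3 : 2 * ((r + 1) * (m + 1).choose 2) = (r + 1) * (m * (m + 1)) := by
        rw [← hc]
        ring
      have h4 : 14800 * (m + 1) ^ 3 ≤ 60000 * m * (m * (m + 1)) := by
        have h5 : (m + 1) ^ 2 ≤ 4 * (m * m) := by nlinarith
        calc 14800 * (m + 1) ^ 3 = 14800 * ((m + 1) ^ 2) * (m + 1) := by ring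
          _ ≤ 14800 * (4 * (m * m)) * (m + 1) :=
            Nat.mul_le_mul_right _ (Nat.mul_le_mul_left _ h5)
          _ ≤ 60000 * (m * m) * (m + 1) := by
            apply Nat.mul_le_mul_right
            have : 14800 * (4 * (m * m)) = 59200 * (m * m) := by ring
            rw [this]
            exact Nat.mul_le_mul_right _ (by norm_num)
          _ = _ := by ring
      omega))
  rw [sum_yx] at h1
  exact h1

/-- the multiplicities of the corner systems are small -/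
theorem mult_boundX {m k X t c r : ℕ} (ht : X ≤ 2 * t) (hk : t * k ≤ 2 * (c * m) + t)
    (hr : r < (X + 1) * (X + 1)) (hXm : X ≤ m) (hX1 : 1 ≤ X) :
    r * k ^ 2 ≤ ((8 * c + 2) * m) ^ 2 := by
  have h1 : X * k ≤ (4 * c + 1) * m := by
    rcases Nat.eq_zero_or_pos k with rfl | hk0
    · simp
    · obtain ⟨l, rfl⟩ : ∃ l, k = l + 1 := ⟨k - 1, by omega⟩
      have h2 : t * l ≤ 2 * (c * m) := by
        have : t * (l + 1) = t * l + t := by ring
        omega
      have h3 : X * l ≤ 2 * t * l := Nat.mul_le_mul_right _ ht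
      calc X * (l + 1) = X * l + X := by ring
        _ ≤ 2 * t * l + m := Nat.add_le_add h3 hXm
        _ = 2 * (t * l) + m := by ring
        _ ≤ 2 * (2 * (c * m)) + m := by omega
        _ = (4 * c + 1) * m := by ring
  have h4 : r ≤ (2 * X) ^ 2 := by
    have : (X + 1) * (X + 1) ≤ (2 * X) * (2 * X) := Nat.mul_le_mul (by omega) (by omega)
    rw [pow_two]
    omega
  calc r * k ^ 2 ≤ (2 * X) ^ 2 * k ^ 2 := Nat.mul_le_mul_right _ h4
    _ = (2 * (X * k)) ^ 2 := by ring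
    _ ≤ (2 * ((4 * c + 1) * m)) ^ 2 := Nat.pow_le_pow_left (by omega) 2
    _ = ((8 * c + 2) * m) ^ 2 := by ring

theorem planeX_of_QT {θ : ℝ} (hθ0 : 0 < θ) (hθ1 : θ ≤ 1) (h : QT θ) :
    ∃ C : ℝ, ∀ m r : ℕ, 1 ≤ m → C * (m : ℝ) ^ (2 * θ / (1 + θ)) ≤ r → PY m r := by
  obtain ⟨η, C₀, hη, hC₀, hQ⟩ := h
  obtain ⟨c, hc⟩ : ∃ c : ℕ, c = 2 * (η + 8) + 1 := ⟨_, rfl⟩
  obtain ⟨K, hK⟩ : ∃ K : ℕ, K = 8 * c + 2 := ⟨_, rfl⟩
  obtain ⟨M₀, hM₀⟩ : ∃ M₀ : ℕ, M₀ = 61000 + 4 * η := ⟨_, rfl⟩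
  obtain ⟨X₀, hX₀⟩ : ∃ X₀ : ℕ, X₀ = 100 * (η + 8) + 32 * c + 8 * (η * c) := ⟨_, rfl⟩
  refine ⟨(C₀ * (K : ℝ) ^ 2) ^ 2 + 60000 * M₀ + (X₀ : ℝ) ^ 2, fun m r hm1 hr => ?_⟩
  have hm1' : (1 : ℝ) ≤ m := by exact_mod_cast hm1
  have hme : 1 ≤ (m : ℝ) ^ (2 * θ / (1 + θ)) := Real.one_le_rpow hm1' (by positivity)
  have hrC : (C₀ * (K : ℝ) ^ 2) ^ 2 + 60000 * M₀ + (X₀ : ℝ) ^ 2 ≤ r := by
    refine le_trans ?_ hr
    exact le_mul_of_one_le_right (by positivity) hme
  have hM₀r : 60000 * M₀ ≤ r := by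
    have h2 : (60000 * M₀ : ℝ) ≤ r := by
      have : (0 : ℝ) ≤ (C₀ * (K : ℝ) ^ 2) ^ 2 + (X₀ : ℝ) ^ 2 := by positivity
      linarith
    exact_mod_cast h2
  by_cases h400 : 60000 * m ≤ r
  · obtain ⟨r', rfl⟩ : ∃ r', r = r' + 1 := ⟨r - 1, by omega⟩
    exact ⟨r', rfl, PX_of_many hm1 h400⟩
  rw [not_le] at h400
  have hmM : M₀ ≤ m := by omega
  have hXr : X₀ ^ 2 ≤ r := by
    have h2 : ((X₀ : ℝ)) ^ 2 ≤ r := by
      have : (0 : ℝ) ≤ (C₀ * (K : ℝ) ^ 2) ^ 2 + 60000 * M₀ := by positivity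
      linarith
    exact_mod_cast h2
  set X := Nat.sqrt r with hXdef
  have hX1 : X * X ≤ r := Nat.sqrt_le r
  have hX2 : r < (X + 1) * (X + 1) := Nat.lt_succ_sqrt r
  have hXX : X₀ ≤ X := by
    rw [hXdef, Nat.le_sqrt, ← pow_two]
    exact hXr
  have hXm : X + 6 ≤ m := by
    by_contra hcon
    push Not at hcon
    have h8 : (m - 5) * (m - 5) ≤ X * X := Nat.mul_le_mul (by omega) (by omega)
    have h9 : 60995 * (m - 5) ≤ (m - 5) * (m - 5) := Nat.mul_le_mul_right _ (by omega)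
    omega
  have hηc : 0 ≤ η * c := Nat.zero_le _
  refine steerX hη (by omega) hX1 hX2 hXm ?_
  intro D t ρ ht hD h1 h2
  have hρ : ρ ≤ c * m := by rw [hc]; exact h2
  have ht16 : 16 * c ≤ t := by omega
  have ht4 : 4 * (η * c) ≤ t := by omega
  have hkb : ∀ k, t * k ≤ 2 * ρ + t → t * k ≤ 2 * (c * m) + t := fun k hk => by omega
  refine VP.core hη (by omega) (by omega) hD h1 ?_ ?_ ?_
  · calc 16 * ρ ≤ 16 * (c * m) := by omega
      _ = 16 * c * m := by ring
      _ ≤ t * m := Nat.mul_le_mul_right _ ht16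
  · intro k hk
    have h3 := hkb k hk
    by_contra h4
    rw [not_le] at h4
    have ht0 : 0 < t := by omega
    have h5 : t * m < t * (η * (k + 1)) := Nat.mul_lt_mul_of_pos_left h4 ht0
    have h6 : t * (η * (k + 1)) = η * (t * k + t) := by ring
    have h7 : η * (t * k + t) ≤ η * (2 * (c * m) + t + t) := Nat.mul_le_mul_left _ (by omega)
    have h8 : η * (2 * (c * m) + t + t) = 2 * (η * c) * m + 2 * η * t := by ring
    have h9 : 4 * (η * c) * m ≤ t * m := Nat.mul_le_mul_right _ ht4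
    have h10 : 4 * η * t ≤ m * t := Nat.mul_le_mul_right _ (by omega)
    have h11 : 4 * (η * c) * m = 2 * (2 * (η * c) * m) := by ring
    have h12 : 4 * η * t = 2 * (2 * η * t) := by ring
    have h13 : m * t = t * m := Nat.mul_comm _ _
    omega
  · intro k hk1 hk H L N hH hL hHm
    refine (hQ k L H N hk1 hL hH ?_).swap
    have h3 := mult_boundX (c := c) (r := r) ht (hkb k hk) hX2 (by omega) (by omega)
    rw [← hK] at h3
    have h4 : C₀ * (k : ℝ) ^ (1 + θ) ≤ m := by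
      refine real_bound hθ0 hθ1 hC₀ (K := K) (by omega) hm1 h3 ?_
      refine le_trans ?_ hr
      gcongr
      have : (0 : ℝ) ≤ 60000 * M₀ + (X₀ : ℝ) ^ 2 := by positivity
      linarith
    refine h4.trans ?_
    exact_mod_cast hHm

/-- `C m ^ ε` points, one of them of multiplicity `m + 1` -/
theorem PY_of_eps {ε : ℝ} (hε : 0 < ε) : ∃ C : ℝ, ∀ m r : ℕ, 1 ≤ m →
    C * (m : ℝ) ^ ε ≤ r → PY m r := by
  obtain ⟨n, hn⟩ := exists_nat_gt (4 / ε)
  have hn0 : (0 : ℝ) < n := lt_trans (by positivity) hn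
  have hn1 : 1 ≤ n := by
    rw [Nat.one_le_iff_ne_zero]
    rintro rfl
    simp at hn0
  have hθ0 : (0 : ℝ) < 2 / ((n : ℝ) + 1) := by positivity
  have hθ1 : 2 / ((n : ℝ) + 1) ≤ 1 := by
    rw [div_le_one (by positivity)]
    have : (1 : ℝ) ≤ n := by exact_mod_cast hn1
    linarith
  obtain ⟨C, hC⟩ := planeX_of_QT hθ0 hθ1 (QT_all n hn1)
  have he : 2 * (2 / ((n : ℝ) + 1)) / (1 + 2 / ((n : ℝ) + 1)) = 4 / ((n : ℝ) + 3) := by
    field_simp
    ring
  rw [he] at hC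
  have heε : 4 / ((n : ℝ) + 3) ≤ ε := by
    rw [div_le_iff₀ (by positivity)]
    have h1 : 4 < n * ε := by
      rwa [div_lt_iff₀ hε] at hn
    nlinarith
  refine ⟨max C 0, fun m r hm hr => ?_⟩
  refine hC m r hm ?_
  have hm1 : (1 : ℝ) ≤ m := by exact_mod_cast hm
  calc C * (m : ℝ) ^ (4 / ((n : ℝ) + 3)) ≤ max C 0 * (m : ℝ) ^ (4 / ((n : ℝ) + 3)) := by
        gcongr
        exact le_max_left _ _
    _ ≤ max C 0 * (m : ℝ) ^ ε := by
        have := Real.rpow_le_rpow_of_exponent_le hm1 heε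
        exact mul_le_mul_of_nonneg_left this (le_max_right _ _)
    _ ≤ r := hr

/-- raising the multiplicity of one point -/
theorem finrank_update {m r d : ℕ} (h : PX m r) {p : Fin (r + 1) → V3} (hp : GenericPoints p)
    (i : Fin (r + 1)) :
    finrank ℂ (linSys d p (Function.update (fun _ => m) i (m + 1))) =
      (d + 2).choose 2 - ((r + 1) * (m + 1).choose 2 + (m + 1)) := by
  rw [hPm_eq hp, ← h d]
  unfold hX
  rw [← hPm_equiv (Equiv.swap i (Fin.last r))]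
  congr 1
  funext j
  unfold yx
  by_cases hj : j = Fin.last r
  · rw [hj, Equiv.swap_apply_right, Function.update_self, if_neg (by simp)]
  · rw [if_pos (Fin.val_lt_last hj)]
    by_cases hji : j = i
    · rw [hji, Equiv.swap_apply_left, Function.update_of_ne]
      rw [← hji]
      exact fun h => hj h.symm
    · rw [Equiv.swap_apply_of_ne_of_ne hji hj, Function.update_of_ne hji]

end Pool.Agent.Work.MP_0421d9_ag.LD
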