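import Pool.Agent.Work.MP_0421d9_ag.XBase

/-!
Square numbers of points, one of them of multiplicity `m + 1` and the others of multiplicity `m`.
-/

namespace Pool.Agent.Work.MP_0421d9_ag.LD

open MvPolynomial Module

theorem sum_yx (m r : ℕ) :
    ∑ i, (yx m r i + 1).choose 2 = (r + 1) * (m + 1).choose 2 + (m + 1) := by
  rw [Fin.sum_univ_castSucc]
  have h1 : ∀ i : Fin r, yx m r i.castSucc = m := by
    intro i
    unfold yx
    rw [if_pos (by simp)]
  have h2 : yx m r (Fin.last r) = m + 1 := by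
    unfold yx
    rw [if_neg (by simp)]
  rw [h2, Finset.sum_congr rfl (fun i _ => by rw [h1 i]), Finset.sum_const, Finset.card_univ,
    Fintype.card_fin, smul_eq_mul, Nat.choose_succ_succ' (m + 1) 1, Nat.choose_one_right]
  ring

theorem hX_count (D m r : ℕ) :
    (D + 2).choose 2 ≤ hX D m r + ((r + 1) * (m + 1).choose 2 + (m + 1)) := by
  rw [← sum_yx]
  exact hPm_count D _

theorem hX_le_succ (D m r : ℕ) : hX D m r ≤ hX (D + 1) m r := hPm_le_succ D _

/-- more forms in the next degree -/
theorem hPm_succ_le {r : ℕ} (D : ℕ) (y : Fin r → ℕ) : hPm (D + 1) y ≤ hPm D y + (D + 2) := by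
  unfold hPm
  set V := linSys (D + 1) (gpt r) y with hV
  have hVfin : Module.Finite ℂ V :=
    Submodule.finiteDimensional_of_le (S₂ := Rd (D + 1)) (fun F hF => hF.1)
  have hWfin : Module.Finite ℂ (linSys D (gpt r) y) :=
    Submodule.finiteDimensional_of_le (S₂ := Rd D) (fun F hF => hF.1)
  let ρ : R3 →ₗ[ℂ] (Fin (D + 2) → ℂ) :=
    { toFun := fun F j => coeff (ex3 j (D + 1 - j) 0) F
      map_add' := fun F G => by
        funext z
        simp
      map_smul' := fun c F => by
        funext z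
        simp }
  have h1 := finrank_eq_ker_add_map ρ V
  have h2 : finrank ℂ ↥(V.map ρ) ≤ D + 2 := by
    refine (Submodule.finrank_le _).trans ?_
    rw [finrank_fin_fun]
  have h3 : V ⊓ LinearMap.ker ρ ≤
      (linSys D (gpt r) y).map (LinearMap.mulLeft ℂ (X 2 ^ 1 : R3)) := by
    rintro F ⟨hF, hF'⟩
    rw [SetLike.mem_coe, hV] at hF
    obtain ⟨h4, h5⟩ := hF
    have h7 := LinearMap.mem_ker.mp hF'
    obtain ⟨G, hG1, hG2, hG3⟩ := exists_div_X2 (δ := D) (u := 1) h4 (fun α hα => by
      by_contra hcon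
      have h10 := deg_eq h4 hα
      have h12 : α 0 < D + 2 := by omega
      have h9 := congrFun h7 ⟨α 0, h12⟩
      have h11 : ex3 (α 0) (D + 1 - α 0) 0 = α := by
        conv_rhs => rw [eq_ex3 α]
        congr 1
        · omega
        · omega
      change coeff (ex3 (α 0) (D + 1 - α 0) 0) F = 0 at h9
      rw [h11] at h9
      exact mem_support_iff.mp hα h9)
    refine Submodule.mem_map.mpr ⟨G, ⟨hG1, fun i => ?_⟩, by rw [LinearMap.mulLeft_apply, hG2]⟩
    have h8 := h5 i
    rw [hG2] at h8
    exact vanishTo_of_X2_pow_mul (gpt_ne i 2) h8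
  have h4 := (Submodule.finrank_mono h3).trans (Submodule.finrank_map_le _ _)
  rw [h1]
  exact add_le_add h4 h2

theorem hX_succ_le (D m r : ℕ) : hX (D + 1) m r ≤ hX D m r + (D + 2) := hPm_succ_le D _

/-- the points of multiplicity zero do not matter -/
theorem hPm_comp_eq {D N N' : ℕ} {k : Fin N → ℕ} {e : Fin N' → Fin N}
    (he : Function.Injective e) (h0 : ∀ i, i ∉ Set.range e → k i = 0) :
    hPm D k = hPm D (fun i => k (e i)) := by
  rw [hPm_eq_hTm, hPm_eq_hTm]
  exact hTm_comp_eq he h0

/-- it suffices to know the dimension in an interval of degrees around the critical one -/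
theorem max_of_interval {h : ℕ → ℕ} {n D₀ D₁ : ℕ} (hmono : ∀ D, h D ≤ h (D + 1))
    (hsucc : ∀ D, h (D + 1) ≤ h D + (D + 2)) (hcount : ∀ D, (D + 2).choose 2 ≤ h D + n)
    (h0 : (D₀ + 2).choose 2 ≤ n) (h1 : n ≤ (D₁ + 2).choose 2)
    (hI : ∀ D, D₀ ≤ D → D ≤ D₁ → h D = (D + 2).choose 2 - n) (h01 : D₀ ≤ D₁) :
    ∀ D, h D = (D + 2).choose 2 - n := by
  have hmono' : ∀ D D', D ≤ D' → h D ≤ h D' := by
    intro D D' hD
    induction D', hD using Nat.le_induction with
    | base => exact le_rfl
    | succ x _ ih => exact ih.trans (hmono x)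
  intro D
  rcases lt_or_ge D D₀ with h2 | h2
  · have h3 := hI D₀ le_rfl h01
    have h4 := hmono' D D₀ h2.le
    have h5 : (D + 2).choose 2 ≤ (D₀ + 2).choose 2 := Nat.choose_le_choose 2 (by omega)
    omega
  · rcases le_or_gt D D₁ with h3 | h3
    · exact hI D h2 h3
    · have h4 := hI D₁ h01 le_rfl
      have h5 : h D + n ≤ (D + 2).choose 2 := by
        have key : ∀ D, D₁ ≤ D → h D + n ≤ (D + 2).choose 2 := by
          intro D hD
          induction D, hD using Nat.le_induction with
          | base => omega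
          | succ x _ ih =>
            have h5 := hsucc x
            have h6 := choose_succ_two x
            omega
        exact key D h3.le
      have h6 := hcount D
      omega

/-- all degrees have the expected dimension -/
def PX (m r : ℕ) : Prop := ∀ D, hX D m r = (D + 2).choose 2 - ((r + 1) * (m + 1).choose 2 + (m + 1))

theorem PX_zero (m : ℕ) : PX m 0 := by
  intro D
  have h1 : yx m 0 = fun _ => m + 1 := by
    funext i
    unfold yx
    rw [if_neg (by omega)]
  unfold hX
  rw [h1, hPm_const, PR_one (m + 1) (by omega) D, Nat.choose_succ_succ' (m + 1) 1,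
    Nat.choose_one_right]
  congr 1
  ring

/-- the strip with the heavy point -/
theorem hX_square_strip {m k α β δ : ℕ} (hm : 1 ≤ m) (hδ : 1 ≤ δ) (hβ : 1 ≤ β)
    (h : δ + 1 = α * m + β * (m + 1)) (hk : α + β = k) :
    hX (δ + m) m (k * k + 2 * k) ≤
      max (hP δ m (k * k) - (α * m + (m + 1))) (hP (δ - 1) m (k * k)) := by
  obtain ⟨b, rfl⟩ : ∃ b, β = b + 1 := ⟨β - 1, by omega⟩
  obtain ⟨δ', rfl⟩ : ∃ δ', δ = δ' + 1 := ⟨δ - 1, by omega⟩
  have e0 : (α + 1) * m = α * m + m := by ring
  have e1 : (b + 1) * (m + 1) = b * (m + 1) + (m + 1) := by ring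
  have h1 := kills_strip m (α + 1) b δ' hm (by omega)
  have e2 : 2 * (α + 1 + b) + 1 = 2 * k + 1 := by omega
  rw [e2] at h1
  have h2 := XB.kills_heavy (N := 2 * k) (by omega) (hT_of_kills h1)
  set y : Fin (k * k + 2 * k + 1) → ℕ := yx m (k * k + 2 * k) with hy
  let e : Fin (2 * k + 1) → Fin (k * k + 2 * k + 1) := fun i => ⟨k * k + i, by omega⟩
  have he : Function.Injective e := by
    intro i j hij
    have := congrArg Fin.val hij
    change k * k + (i : ℕ) = k * k + (j : ℕ) at this
    exact Fin.ext (by omega)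
  have hye : (fun i => y (e i)) = yx m (2 * k) := by
    funext i
    rw [hy]
    unfold yx
    change (if k * k + (i : ℕ) < k * k + 2 * k then m else m + 1) = _
    by_cases hi : (i : ℕ) < 2 * k
    · rw [if_pos (by omega), if_pos hi]
    · rw [if_neg (by omega), if_neg hi]
  have h3 := peelm (δ := δ') (κ := m) (A := (α + 1) * m + 1) (y := y) he hm (by omega) (by
    rw [hye]
    have e3 : δ' + 1 + m = δ' + m + 1 := by ring
    rw [e3]
    exact h2)
  -- the rest
  let e' : Fin (k * k) → Fin (k * k + 2 * k + 1) := fun i => ⟨i, by omega⟩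
  have he' : Function.Injective e' := by
    intro i j hij
    have h4 := congrArg Fin.val hij
    exact Fin.ext h4
  have hrest : ∀ D, hPm D (rest e y) = hP D m (k * k) := by
    intro D
    rw [← hPm_const, hPm_comp_eq he']
    · congr 1
      funext i
      rw [rest_not_mem, hy]
      · unfold yx
        change (if (i : ℕ) < k * k + 2 * k then m else m + 1) = m
        rw [if_pos (by omega)]
      · rintro ⟨j, hj⟩
        have := congrArg Fin.val hj
        change k * k + (j : ℕ) = (i : ℕ) at this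
        omega
    · intro i hi
      by_cases h4 : (i : ℕ) < k * k
      · exact absurd ⟨⟨i, h4⟩, Fin.ext rfl⟩ hi
      · have h5 : i = e ⟨(i : ℕ) - k * k, by omega⟩ := by
          apply Fin.ext
          change (i : ℕ) = k * k + ((i : ℕ) - k * k)
          omega
        rw [h5, rest_mem]
  rw [hrest, hrest, e0] at h3
  have e4 : δ' + 1 - 1 = δ' := rfl
  rw [e4]
  exact h3

theorem PX_square {m : ℕ} (hm : 1 ≤ m) (k : ℕ) : PX m (k * k + 2 * k) := by
  rcases Nat.eq_zero_or_pos k with hk | hk
  · subst hk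
    exact PX_zero m
  have hc := two_mul_choose m
  set c := (m + 1).choose 2 with hcdef
  have hkm : 1 ≤ k * m := Nat.mul_pos hk hm
  have hkm' : (k + 1) * (m + 1) = k * m + k + m + 1 := by ring
  have hn : (k * k + 2 * k + 1) * c + (m + 1) = (k + 1) * (k + 1) * c + (m + 1) := by ring
  refine max_of_interval (D₀ := (k + 1) * m) (D₁ := (k + 1) * (m + 1) - 2)
    (fun D => hX_le_succ D _ _) (fun D => hX_succ_le D _ _) (fun D => hX_count D _ _)
    ?_ ?_ ?_ ?_
  · rw [← hcdef, hn]
    have h1 := two_mul_choose ((k + 1) * m + 1)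
    have e1 : (k + 1) * m + 1 + 1 = (k + 1) * m + 2 := rfl
    rw [e1] at h1
    have h4 : 2 * ((k + 1) * m + 2).choose 2 ≤ 2 * ((k + 1) * (k + 1) * c + (m + 1)) := by
      rw [h1]
      have h5 : 2 * ((k + 1) * (k + 1) * c + (m + 1)) =
          (k + 1) * (k + 1) * (m * (m + 1)) + 2 * (m + 1) := by
        rw [← hc]; ring
      rw [h5]
      obtain ⟨x, rfl⟩ : ∃ x, k = x + 1 := ⟨k - 1, by omega⟩
      nlinarith [Nat.zero_le (x * x * m), Nat.zero_le (x * m)]
    omega
  · rw [← hcdef, hn]
    obtain ⟨D, hD⟩ : ∃ D, D = (k + 1) * (m + 1) - 2 := ⟨_, rfl⟩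
    rw [← hD]
    have h1 := two_mul_choose (D + 1)
    have h3 : D + 2 = (k + 1) * (m + 1) := by omega
    have e1 : D + 1 + 1 = D + 2 := rfl
    rw [e1] at h1
    have h4 : 2 * ((k + 1) * (k + 1) * c + (m + 1)) ≤ 2 * (D + 2).choose 2 := by
      rw [h1]
      have h5 : 2 * ((k + 1) * (k + 1) * c + (m + 1)) =
          (k + 1) * (m + 1) * ((k + 1) * m) + 2 * (m + 1) := by
        have : 2 * ((k + 1) * (k + 1) * c + (m + 1)) =
          (k + 1) * (k + 1) * (2 * c) + 2 * (m + 1) := by ring
        rw [this, hc]; ring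
      have h6 : D + 1 = (k + 1) * m + k := by
        have : (k + 1) * m = k * m + m := by ring
        omega
      rw [h5, h3, h6]
      obtain ⟨x, rfl⟩ : ∃ x, k = x + 1 := ⟨k - 1, by omega⟩
      nlinarith [Nat.zero_le (x * x * m), Nat.zero_le (x * m), Nat.zero_le (x * x)]
    omega
  · intro D hD0 hD1
    obtain ⟨α, hα⟩ : ∃ α, D + α = (k + 1) * (m + 1) - 2 := ⟨(k + 1) * (m + 1) - 2 - D, by omega⟩
    have e0 : (k + 1) * m = k * m + m := by ring
    have hαk : α + 1 ≤ k := by omega
    obtain ⟨β, hβ⟩ : ∃ β, α + β = k := ⟨k - α, by omega⟩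
    obtain ⟨δ, rfl⟩ : ∃ δ, D = δ + m := ⟨D - m, by omega⟩
    have hδ : δ + 1 + α = k * (m + 1) := by
      have : k * (m + 1) = k * m + k := by ring
      omega
    have hstr : δ + 1 = α * m + β * (m + 1) := by
      have h1 : k * (m + 1) = α * m + α + β * (m + 1) := by rw [← hβ]; ring
      omega
    have hs := hX_square_strip hm (by omega : 1 ≤ δ) (by omega : 1 ≤ β) hstr hβ
    have hcount := hX_count (δ + m) m (k * k + 2 * k)
    rw [PR_square hm k δ, PR_square hm k (δ - 1)] at hs
    rw [← hcdef] at hcount hs ⊢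
    rw [hn] at hcount ⊢
    have h1 := two_mul_choose (δ + m + 1)
    have h2 := two_mul_choose (δ + 1)
    have h3 : (δ + 2).choose 2 = (δ - 1 + 2).choose 2 + (δ + 1) := by
      obtain ⟨x, rfl⟩ : ∃ x, δ = x + 1 := ⟨δ - 1, by omega⟩
      exact choose_succ_two x
    have e2 : δ + m + 1 + 1 = δ + m + 2 := rfl
    have e3 : δ + 1 + 1 = δ + 2 := rfl
    rw [e2] at h1
    rw [e3] at h2
    have key : (δ + 2).choose 2 + (k + 1) * (k + 1) * c =
        (δ + m + 2).choose 2 + k * k * c + α * m := by
      have h4 : 2 * ((δ + 2).choose 2 + (k + 1) * (k + 1) * c) =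
          2 * ((δ + m + 2).choose 2 + k * k * c + α * m) := by
        have h5 : 2 * ((δ + 2).choose 2 + (k + 1) * (k + 1) * c) =
            (δ + 1) * (δ + 2) + (k + 1) * (k + 1) * (m * (m + 1)) := by
          rw [← h2, ← hc]; ring
        have h6 : 2 * ((δ + m + 2).choose 2 + k * k * c + α * m) =
            (δ + m + 1) * (δ + m + 2) + k * k * (m * (m + 1)) + 2 * (α * m) := by
          rw [← h1, ← hc]; ring
        rw [h5, h6]
        have h7 : (δ + m + 1) * (δ + m + 2) = (δ + 1) * (δ + 2) + m * (m + 1) +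
            2 * (m * (δ + 1)) := by ring
        have h8 : 2 * (m * (δ + 1)) + 2 * (α * m) = 2 * (m * (k * (m + 1))) := by
          rw [← hδ]; ring
        have h9 : (k + 1) * (k + 1) * (m * (m + 1)) = k * k * (m * (m + 1)) +
            2 * (m * (k * (m + 1))) + m * (m + 1) := by ring
        rw [h7, h9]
        omega
      omega
    have hle : α * m + (m + 1) ≤ δ + 1 := by
      rw [hstr]
      apply Nat.add_le_add_left
      exact Nat.le_mul_of_pos_left _ (by omega)
    have h10 : max ((δ + 2).choose 2 - k * k * c - (α * m + (m + 1)))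
        ((δ - 1 + 2).choose 2 - k * k * c) ≤
        (δ + m + 2).choose 2 - ((k + 1) * (k + 1) * c + (m + 1)) := by
      apply max_le <;> omega
    omega
  · have : (k + 1) * m = k * m + m := by ring
    omega

end Pool.Agent.Work.MP_0421d9_ag.LD
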