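import Pool.Agent.Work.MP_0421d9_ag.XSq
import Pool.Agent.Work.MP_0421d9_ag.VPlane

/-!
From a square number of points to `R` points by strips; one of the points has multiplicity `m + 1`.
-/

namespace Pool.Agent.Work.MP_0421d9_ag.LD

open MvPolynomial Module

/-- the data of a strip -/
def StripC (m D κ N B : ℕ) : Prop :=
  1 ≤ κ ∧ κ + 1 ≤ D ∧ B ≤ D - κ + 1 ∧
    (D - κ + 1 - B) + κ * (D + 1) = N * (m + 1).choose 2 + κ.choose 2 ∧
    hF D κ m N ≤ B ∧ hF D (κ - 1) m N = 0

theorem hX_strip {m D κ N B r : ℕ} (hκ : 1 ≤ κ) (hD : κ + 1 ≤ D) (hB : B ≤ D - κ + 1)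
    (h1 : hF D κ m N ≤ B) (h0 : hF D (κ - 1) m N = 0) :
    hX D m (r + N) ≤ max (hX (D - κ) m r - (D - κ + 1 - B)) (hX (D - κ - 1) m r) := by
  set y : Fin (r + N + 1) → ℕ := yx m (r + N) with hy
  let e : Fin N → Fin (r + N + 1) := fun i => ⟨r + i, by omega⟩
  have he : Function.Injective e := by
    intro i j hij
    have := congrArg Fin.val hij
    change r + (i : ℕ) = r + (j : ℕ) at this
    exact Fin.ext (by omega)
  have hye : ∀ k, y (e k) = m := by
    intro k
    rw [hy]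
    unfold yx
    change (if r + (k : ℕ) < r + N then m else m + 1) = m
    rw [if_pos (by omega)]
  have h3 := plane_strip_pure (y := y) e he hye hκ hD hB h1 h0
  let e' : Fin (r + 1) → Fin (r + N + 1) := fun i => if h : (i : ℕ) < r then ⟨i, by omega⟩
    else ⟨r + N, by omega⟩
  have he'1 : ∀ i : Fin (r + 1), (i : ℕ) < r → (e' i : ℕ) = i := by
    intro i hi
    change ((if h : (i : ℕ) < r then (⟨i, by omega⟩ : Fin (r + N + 1))
      else ⟨r + N, by omega⟩ : Fin (r + N + 1)) : ℕ) = i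
    rw [dif_pos hi]
  have he'2 : ∀ i : Fin (r + 1), ¬ (i : ℕ) < r → (e' i : ℕ) = r + N := by
    intro i hi
    change ((if h : (i : ℕ) < r then (⟨i, by omega⟩ : Fin (r + N + 1))
      else ⟨r + N, by omega⟩ : Fin (r + N + 1)) : ℕ) = r + N
    rw [dif_neg hi]
  have he' : Function.Injective e' := by
    intro i j hij
    have h4 := congrArg Fin.val hij
    apply Fin.ext
    by_cases hi : (i : ℕ) < r
    · by_cases hj : (j : ℕ) < r
      · rw [he'1 i hi, he'1 j hj] at h4
        exact h4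
      · rw [he'1 i hi, he'2 j hj] at h4
        omega
    · by_cases hj : (j : ℕ) < r
      · rw [he'2 i hi, he'1 j hj] at h4
        omega
      · omega
  have hrest : ∀ D, hPm D (rest e y) = hX D m r := by
    intro D
    rw [hPm_comp_eq he']
    · unfold hX
      congr 1
      funext i
      rw [rest_not_mem, hy]
      · unfold yx
        by_cases hi : (i : ℕ) < r
        · rw [he'1 i hi, if_pos (by omega), if_pos hi]
        · rw [he'2 i hi, if_neg (by omega), if_neg hi]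
      · rintro ⟨j, hj⟩
        have h4 := congrArg Fin.val hj
        change r + (j : ℕ) = (e' i : ℕ) at h4
        by_cases hi : (i : ℕ) < r
        · rw [he'1 i hi] at h4
          omega
        · rw [he'2 i hi] at h4
          omega
    · intro i hi
      by_cases h4 : (i : ℕ) < r
      · exfalso
        refine hi ⟨⟨i, by omega⟩, Fin.ext ?_⟩
        rw [he'1 _ h4]
      · by_cases h5 : (i : ℕ) = r + N
        · exfalso
          refine hi ⟨⟨r, by omega⟩, Fin.ext ?_⟩
          rw [he'2 _ (by simp), h5]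
        · have h6 : i = e ⟨(i : ℕ) - r, by omega⟩ := by
            apply Fin.ext
            change (i : ℕ) = r + ((i : ℕ) - r)
            omega
          rw [h6, rest_mem]
  rw [hrest, hrest] at h3
  exact h3

/-- the expected dimension in a degree with a strip -/
theorem hX_of_strip {m D κ N B r : ℕ} (h : PX m r) (hs : StripC m D κ N B) :
    hX D m (r + N) = (D + 2).choose 2 - ((r + N + 1) * (m + 1).choose 2 + (m + 1)) := by
  obtain ⟨hκ, hκD, hB, hid, g1, g0⟩ := hs
  have hcount := hX_count D m (r + N)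
  have h3 := hX_strip (r := r) hκ hκD hB g1 g0
  rw [h, h] at h3
  obtain ⟨A, hA⟩ : ∃ A, D - κ + 1 - B = A := ⟨_, rfl⟩
  rw [hA] at h3 hid
  have hAle : A ≤ D - κ + 1 := by omega
  obtain ⟨δ, rfl⟩ : ∃ δ, D = δ + κ := ⟨D - κ, by omega⟩
  have hδ1 : 1 ≤ δ := by omega
  rw [Nat.add_sub_cancel] at h3 hAle
  have e1 := uz_two_choose_int (δ + κ + 1)
  have e2 := uz_two_choose_int (δ + 1)
  have e3 : (δ + 2).choose 2 = (δ - 1 + 2).choose 2 + (δ + 1) := by
    obtain ⟨x, rfl⟩ : ∃ x, δ = x + 1 := ⟨δ - 1, by omega⟩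
    exact choose_two_succ' x
  have e4 : (δ + κ + 2).choose 2 + A = (δ + 2).choose 2 + N * (m + 1).choose 2 := by
    have e5 := uz_two_choose_int' hκ
    have h8 : δ + κ + 1 + 1 = δ + κ + 2 := rfl
    have h9 : δ + 1 + 1 = δ + 2 := rfl
    rw [h8] at e1
    rw [h9] at e2
    have h10 : (2 : ℤ) * (((δ + κ + 2).choose 2 + A : ℕ) : ℤ) =
        2 * (((δ + 2).choose 2 + N * (m + 1).choose 2 : ℕ) : ℤ) := by
      have hid' : ((A + κ * (δ + κ + 1) : ℕ) : ℤ) =
          ((N * (m + 1).choose 2 + κ.choose 2 : ℕ) : ℤ) := by rw [hid]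
      push_cast at hid' e1 e2 e5 ⊢
      linear_combination e1 - e2 + e5 + 2 * hid'
    have h11 := mul_left_cancel₀ (by norm_num : (2 : ℤ) ≠ 0) h10
    exact_mod_cast h11
  have e5 : (r + N + 1) * (m + 1).choose 2 =
      (r + 1) * (m + 1).choose 2 + N * (m + 1).choose 2 := by ring
  rw [e5] at hcount ⊢
  set c := (m + 1).choose 2 with hc
  have h4 : max ((δ + 2).choose 2 - ((r + 1) * c + (m + 1)) - A)
      ((δ - 1 + 2).choose 2 - ((r + 1) * c + (m + 1))) ≤
      (δ + κ + 2).choose 2 - ((r + 1) * c + N * c + (m + 1)) := by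
    apply max_le <;> omega
  omega

/-- only the critical degrees matter -/
theorem max_of_critical {h : ℕ → ℕ} {n : ℕ} (hn : 2 ≤ n) (hmono : ∀ D, h D ≤ h (D + 1))
    (hsucc : ∀ D, h (D + 1) ≤ h D + (D + 2)) (hcount : ∀ D, (D + 2).choose 2 ≤ h D + n)
    (hs : ∀ D, (D + 1).choose 2 < n → n ≤ (D + 3).choose 2 → h D = (D + 2).choose 2 - n) :
    ∀ D, h D = (D + 2).choose 2 - n := by
  classical
  have hex : ∃ D, n ≤ (D + 2).choose 2 := by
    refine ⟨n, ?_⟩
    have h1 := two_mul_choose (n + 1)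
    have e1 : n + 1 + 1 = n + 2 := rfl
    rw [e1] at h1
    nlinarith
  set D₁ := Nat.find hex with hD₁
  have h1 : n ≤ (D₁ + 2).choose 2 := Nat.find_spec hex
  have h2 : 1 ≤ D₁ := by
    rcases Nat.eq_zero_or_pos D₁ with h3 | h3
    · rw [h3] at h1
      have h4 : (0 + 2).choose 2 = 1 := rfl
      omega
    · exact h3
  obtain ⟨x, hx⟩ : ∃ x, D₁ = x + 1 := ⟨D₁ - 1, by omega⟩
  have h3 : ¬ n ≤ (x + 2).choose 2 := Nat.find_min hex (by omega)
  push Not at h3
  rw [hx] at h1
  have e1 : x + 1 + 2 = x + 3 := rfl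
  rw [e1] at h1
  have m1 : (x + 1).choose 2 ≤ (x + 2).choose 2 := Nat.choose_le_choose 2 (by omega)
  have m2 : (x + 3).choose 2 ≤ (x + 4).choose 2 := Nat.choose_le_choose 2 (by omega)
  refine max_of_interval hmono hsucc hcount (D₀ := x) (D₁ := x + 1) h3.le h1 ?_ (by omega)
  intro D hD hD'
  have h4 : D = x ∨ D = x + 1 := by omega
  rcases h4 with rfl | rfl
  · exact hs D (by omega) h1
  · exact hs (x + 1) h3 (by
      have e2 : x + 1 + 3 = x + 4 := rfl
      rw [e2]
      omega)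

/-- `R` points, one of them of multiplicity `m + 1` -/
def PY (m R : ℕ) : Prop := ∃ r, R = r + 1 ∧ PX m r

theorem PY_square {m K : ℕ} (hm : 1 ≤ m) (hK : 1 ≤ K) : PY m (K * K) := by
  obtain ⟨k, rfl⟩ : ∃ k, K = k + 1 := ⟨K - 1, by omega⟩
  exact ⟨k * k + 2 * k, by ring, PX_square hm k⟩

theorem PY_step {m R N : ℕ} (hm : 1 ≤ m) (h : PY m R)
    (hs : ∀ D, (D + 1).choose 2 < (R + N) * (m + 1).choose 2 + (m + 1) →
      (R + N) * (m + 1).choose 2 + (m + 1) ≤ (D + 3).choose 2 → ∃ κ B, StripC m D κ N B) :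
    PY m (R + N) := by
  obtain ⟨r, rfl, hr⟩ := h
  refine ⟨r + N, by ring, ?_⟩
  refine max_of_critical (by omega) (fun D => hX_le_succ D _ _) (fun D => hX_succ_le D _ _)
    (fun D => hX_count D _ _) ?_
  intro D h1 h2
  have e1 : r + N + 1 = r + 1 + N := by ring
  rw [e1] at h1 h2
  obtain ⟨κ, B, h3⟩ := hs D h1 h2
  exact hX_of_strip hr h3

/-- the critical degrees -/
theorem critical_boundsX {m X y R D : ℕ} (hX : 900 ≤ X) (hy : X ≤ 2 * y) (hyX : y ≤ X)
    (hXm : X + 6 ≤ m) (hR : y * y ≤ R) (hR' : R ≤ y * y + 6 * X)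
    (h1 : (D + 1).choose 2 < R * (m + 1).choose 2 + (m + 1))
    (h2 : R * (m + 1).choose 2 + (m + 1) ≤ (D + 3).choose 2) :
    y * m ≤ D + 2 ∧ D ≤ (y + 7) * m := by
  have e1 := two_mul_choose m
  have e2 := two_mul_choose D
  have e3 : 2 * (D + 3).choose 2 = (D + 2) * (D + 3) := two_mul_choose (D + 2)
  have h3 : D * (D + 1) < R * (m * (m + 1)) + 2 * (m + 1) := by
    rw [← e2, ← e1]
    calc 2 * (D + 1).choose 2 < 2 * (R * (m + 1).choose 2 + (m + 1)) := by omega
      _ = R * (2 * (m + 1).choose 2) + 2 * (m + 1) := by ring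
  have h4 : R * (m * (m + 1)) ≤ (D + 2) * (D + 3) := by
    rw [← e3, ← e1]
    calc R * (2 * (m + 1).choose 2) = 2 * (R * (m + 1).choose 2) := by ring
      _ ≤ 2 * (D + 3).choose 2 := by omega
  constructor
  · by_contra hcon
    push Not at hcon
    have h5 : (D + 2) * (D + 3) ≤ (y * m) * (y * m) := Nat.mul_le_mul (by omega) (by omega)
    have h6 : y * y * (m * (m + 1)) ≤ R * (m * (m + 1)) := Nat.mul_le_mul_right _ hR
    have h7 : 0 < y * y * m :=
      Nat.mul_pos (Nat.mul_pos (by omega) (by omega)) (by omega)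
    nlinarith
  · have hyR : R + 36 ≤ (y + 6) * (y + 6) := by nlinarith
    have h5 : D * D < (y + 6) * (m + 1) * ((y + 6) * (m + 1)) := by
      calc D * D ≤ D * (D + 1) := Nat.mul_le_mul_left _ (by omega)
        _ < R * (m * (m + 1)) + 2 * (m + 1) := h3
        _ ≤ R * (m * (m + 1)) + 36 * (m * (m + 1)) := by
            apply Nat.add_le_add_left
            calc 2 * (m + 1) ≤ 36 * m * (m + 1) := Nat.mul_le_mul_right _ (by omega)
              _ = 36 * (m * (m + 1)) := by ring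
        _ = (R + 36) * (m * (m + 1)) := by ring
        _ ≤ (y + 6) * (y + 6) * (m * (m + 1)) := Nat.mul_le_mul_right _ hyR
        _ ≤ (y + 6) * (y + 6) * ((m + 1) * (m + 1)) := by
            apply Nat.mul_le_mul_left
            apply Nat.mul_le_mul_right
            omega
        _ = _ := by ring
    have h6 : D < (y + 6) * (m + 1) := by
      by_contra hcon
      push Not at hcon
      have := Nat.mul_le_mul hcon hcon
      omega
    nlinarith

/-- one step -/
theorem steer_stepX {η m X y R e r₀ : ℕ} (hX : 900 ≤ X) (hy : X ≤ 2 * y) (hyX : y ≤ X)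
    (hy' : X + 2 ≤ 2 * y + 2 * e)
    (hXm : X + 6 ≤ m) (hR : y * y ≤ R) (hR' : R ≤ y * y + 6 * X)
    (he : η + 8 ≤ e) (he' : e + 1 ≤ 2 * (η + 8)) (hR0 : r₀ + (2 * (y - 1 + e) + 1) = R)
    (h : PY m r₀)
    (hstrip : ∀ D t ρ, X ≤ 2 * t → D + ρ = m + t * m → (η + 1) * m ≤ ρ →
      ρ ≤ (2 * (η + 8) + 1) * m → ∃ κ B, StripC m D κ (2 * t + 1) B) : PY m R := by
  rw [← hR0] at hR hR' ⊢
  apply PY_step (by omega) h
  intro D h1 h2
  obtain ⟨h3, h4⟩ := critical_boundsX hX hy hyX hXm hR hR' h1 h2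
  have hy1 : 1 ≤ y := by omega
  obtain ⟨z, rfl⟩ : ∃ z, y = z + 1 := ⟨y - 1, by omega⟩
  rw [Nat.add_sub_cancel] at *
  have e1 : (z + 1 + 7) * m + (η + 1) * m ≤ m + (z + e) * m := by
    have e2 : (z + 1 + 7) * m + (η + 1) * m = (z + (η + 9)) * m := by ring
    have e3 : m + (z + e) * m = (z + (e + 1)) * m := by ring
    rw [e2, e3]
    exact Nat.mul_le_mul_right _ (by omega)
  refine hstrip D (z + e) (m + (z + e) * m - D) (by omega) (by omega) (by omega) ?_
  have e2 : m + (z + e) * m + 2 ≤ (2 * (η + 8) + 1) * m + (z + 1) * m := by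
    have e3 : m + (z + e) * m = (z + 1 + e) * m := by ring
    have e4 : (2 * (η + 8) + 1) * m + (z + 1) * m = (z + 1 + (2 * (η + 8) + 1)) * m := by ring
    rw [e3, e4]
    have e5 : (z + 1 + e) * m + m ≤ (z + 1 + (2 * (η + 8) + 1)) * m := by
      calc (z + 1 + e) * m + m = (z + 1 + e + 1) * m := by ring
        _ ≤ _ := Nat.mul_le_mul_right _ (by omega)
    omega
  omega

theorem steerX {η m X r : ℕ} (hη : 1 ≤ η) (hX : 100 * (η + 8) ≤ X) (hr : X * X ≤ r)
    (hr' : r < (X + 1) * (X + 1)) (hXm : X + 6 ≤ m)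
    (hstrip : ∀ D t ρ, X ≤ 2 * t → D + ρ = m + t * m → (η + 1) * m ≤ ρ →
      ρ ≤ (2 * (η + 8) + 1) * m → ∃ κ B, StripC m D κ (2 * t + 1) B) : PY m r := by
  have hX9 : 900 ≤ X := by omega
  -- the square root of the same parity
  obtain ⟨Y, E, hY, hYX, hrY, hE1, hE2⟩ : ∃ Y E, X ≤ Y + 2 ∧ Y + 1 ≤ X ∧ r = Y * Y + 2 * E ∧
      X ≤ E ∧ E + 2 ≤ 3 * X := by
    obtain ⟨x, rfl⟩ : ∃ x, X = x + 2 := ⟨X - 2, by omega⟩
    have e1 : (x + 2) * (x + 2) = (x + 1) * (x + 1) + (2 * x + 3) := by ring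
    have e2 : (x + 1) * (x + 1) = x * x + (2 * x + 1) := by ring
    have e3 : (x + 2 + 1) * (x + 2 + 1) = (x + 1) * (x + 1) + (4 * x + 8) := by ring
    rcases Nat.even_or_odd' (r - (x + 1) * (x + 1)) with ⟨E, hE | hE⟩
    · exact ⟨x + 1, E, by omega, by omega, by omega, by omega, by omega⟩
    · exact ⟨x, E + x + 1, by omega, by omega, by omega, by omega, by omega⟩
  obtain ⟨e, he⟩ : ∃ e, e = η + 8 := ⟨_, rfl⟩
  obtain ⟨n, hn⟩ : ∃ n, n = E / e := ⟨_, rfl⟩
  have hdm := Nat.div_add_mod E e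
  have hmod := Nat.mod_lt E (by omega : 0 < e)
  rw [← hn] at hdm
  have hn1 : 1 ≤ n := by
    rw [hn, Nat.one_le_div_iff (by omega)]
    omega
  have hn9 : 9 * n ≤ E := by
    have : 9 * n ≤ e * n := Nat.mul_le_mul_right _ (by omega)
    omega
  obtain ⟨K, hK⟩ : ∃ K, Y = K + n := ⟨Y - n, by omega⟩
  obtain ⟨n', rfl⟩ : ∃ n', n = n' + 1 := ⟨n - 1, by omega⟩
  -- the steps except the last one
  have key : ∀ i, i ≤ n' → PY m ((K + i) * (K + i) + 2 * (e * i)) := by
    intro i
    induction i with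
    | zero =>
      intro _
      simp only [Nat.add_zero, Nat.mul_zero]
      exact PY_square (by omega) (by omega)
    | succ i ih =>
      intro hi
      have h1 := ih (by omega)
      have h2 : e * (i + 1) ≤ e * (n' + 1) := Nat.mul_le_mul_left _ (by omega)
      refine steer_stepX (η := η) (X := X) (y := K + (i + 1)) (e := e) hX9 (by omega) (by omega)
        (by omega) hXm (by omega) (by omega) (by omega) (by omega) ?_ h1 hstrip
      have h3 : K + (i + 1) - 1 = K + i := by omega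
      rw [h3]
      ring
  have h1 := key n' le_rfl
  obtain ⟨f, hf⟩ : ∃ f, f = E - e * n' := ⟨_, rfl⟩
  have h2 : e * (n' + 1) = e * n' + e := by ring
  have hf' : E = e * n' + f := by omega
  refine steer_stepX (η := η) (X := X) (y := Y) (e := f) hX9 (by omega) (by omega)
    (by omega) hXm (by omega) (by omega) (by omega) (by omega) ?_ h1 hstrip
  have h3 : Y - 1 = K + n' := by omega
  rw [h3, hrY, hK, hf']
  ring

end Pool.Agent.Work.MP_0421d9_ag.LD
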