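import Pool.Agent.Work.MP_0421d9_ag.ZPoly

/-!
Bezout's inequality with multiplicities.
-/

namespace Pool.Agent.Work.MP_0421d9_ag.LD

open MvPolynomial Module

/-- multiplication by a polynomial -/
noncomputable def mulP (f : P2) : P2 →ₗ[ℂ] P2 := LinearMap.mulLeft ℂ f

theorem mulP_apply (f g : P2) : mulP f g = f * g := rfl

theorem mulP_injective {f : P2} (hf : f ≠ 0) : Function.Injective (mulP f) := by
  intro g h hgh
  exact mul_left_cancel₀ hf hgh

theorem finrank_mulP {f : P2} (hf : f ≠ 0) (D : ℕ) :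
    finrank ℂ ↥((PD D).map (mulP f)) = (D + 2).choose 2 := by
  rw [← finrank_PD]
  exact (LinearEquiv.finrank_eq (Submodule.equivMapOfInjective _ (mulP_injective hf) (PD D))).symm

theorem mulP_le {f : P2} {D N : ℕ} (h : f.totalDegree + D ≤ N) :
    (PD D).map (mulP f) ≤ PD N := by
  rintro _ ⟨g, hg, rfl⟩
  have hg' : g.totalDegree ≤ D := hg
  exact (totalDegree_mul f g).trans (by omega)

/-- the intersection of the multiples of two coprime polynomials -/
theorem mulP_inf {f g : P2} (hg : g ≠ 0) (h : IsRelPrime f g) {N : ℕ}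
    (hN : f.totalDegree + g.totalDegree ≤ N) :
    (PD (N - f.totalDegree)).map (mulP f) ⊓ (PD (N - g.totalDegree)).map (mulP g) ≤
      (PD (N - f.totalDegree - g.totalDegree)).map (mulP (f * g)) := by
  rintro _ ⟨⟨u, hu, rfl⟩, ⟨v, hv, huv⟩⟩
  rw [mulP_apply, mulP_apply] at huv
  have h1 : g ∣ f * u := ⟨v, huv.symm⟩
  have h2 : g ∣ u := h.symm.dvd_of_dvd_mul_left h1
  obtain ⟨w, rfl⟩ := h2
  refine ⟨w, ?_, ?_⟩
  · have hu' : (g * w).totalDegree ≤ N - f.totalDegree := hu
    show w.totalDegree ≤ _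
    by_cases hw : w = 0
    · rw [hw, totalDegree_zero]
      exact Nat.zero_le _
    · rw [totalDegree_mul' hg hw] at hu'
      omega
  · show f * g * w = f * (g * w)
    ring

theorem choose_sub {N a b : ℕ} (h : a + b ≤ N) :
    (N + 2).choose 2 + (N - a - b + 2).choose 2 =
      (N - a + 2).choose 2 + (N - b + 2).choose 2 + a * b := by
  obtain ⟨c, rfl⟩ := Nat.exists_eq_add_of_le h
  have h1 : a + b + c - a - b = c := by omega
  have h2 : a + b + c - a = b + c := by omega
  have h3 : a + b + c - b = a + c := by omega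
  rw [h1, h2, h3]
  have key : ∀ n : ℕ, ((n + 2).choose 2 : ℚ) = (n + 2) * (n + 1) / 2 := by
    intro n
    rw [Nat.cast_choose_two]
    push_cast
    ring
  have h4 : (((a + b + c + 2).choose 2 + (c + 2).choose 2 : ℕ) : ℚ) =
      (((b + c + 2).choose 2 + (a + c + 2).choose 2 + a * b : ℕ) : ℚ) := by
    push_cast [key]
    ring
  exact_mod_cast h4

theorem finrank_map_add {E F : Type} [AddCommGroup E] [Module ℂ E] [AddCommGroup F]
    [Module ℂ F] (φ : E →ₗ[ℂ] F) {V W : Submodule ℂ E} [Module.Finite ℂ V] (h : W ≤ V) :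
    finrank ℂ ↥(V.map φ) + finrank ℂ W ≤ finrank ℂ ↥(W.map φ) + finrank ℂ V := by
  have hW : Module.Finite ℂ W := Submodule.finiteDimensional_of_le h
  have h1 := finrank_eq_ker_add_map φ V
  have h2 := finrank_eq_ker_add_map φ W
  have hfin : Module.Finite ℂ ↥(V ⊓ LinearMap.ker φ) :=
    Submodule.finiteDimensional_of_le inf_le_left
  have h3 : finrank ℂ ↥(W ⊓ LinearMap.ker φ) ≤ finrank ℂ ↥(V ⊓ LinearMap.ker φ) :=
    Submodule.finrank_mono (inf_le_inf_right _ h)
  omega

section

variable {ι : Type} [Fintype ι] {q : ι → Fin 2 → ℂ}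

/-- the jets of the multiples of `f` -/
theorem finrank_jq_mulP {f : P2} {s m n : ι → ℕ} (hf : ∀ i, Vq (q i) f (m i))
    (hs : ∀ i, s i ≤ m i + n i) (D : ℕ) :
    finrank ℂ ↥(((PD D).map (mulP f)).map (jq q s)) ≤ ∑ i, (n i + 1).choose 2 := by
  rw [← Submodule.map_comp, ← finrank_jq n]
  have hle : LinearMap.ker (jq q n) ≤ LinearMap.ker (jq q s ∘ₗ mulP f) := by
    intro g hg
    rw [LinearMap.mem_ker, LinearMap.comp_apply]
    rw [mem_ker_jq] at hg
    exact LinearMap.mem_ker.mp (mem_ker_jq.mpr fun i => ((hf i).mul (hg i)).mono (hs i))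
  have h1 := finrank_eq_ker_add_map (jq q s ∘ₗ mulP f) (PD D)
  have h2 := finrank_eq_ker_add_map (jq q n) (PD D)
  have hfin : Module.Finite ℂ
      ↥(PD D ⊓ LinearMap.ker (jq q s ∘ₗ mulP f)) :=
    Submodule.finiteDimensional_of_le inf_le_left
  have h3 : finrank ℂ ↥(PD D ⊓ LinearMap.ker (jq q n)) ≤
      finrank ℂ ↥(PD D ⊓ LinearMap.ker (jq q s ∘ₗ mulP f)) :=
    Submodule.finrank_mono (inf_le_inf_left _ hle)
  have h4 := Submodule.finrank_le ((PD D).map (jq q n))
  omega

theorem bezout (hq : Function.Injective q) {f g : P2} (hf : f ≠ 0) (hg : g ≠ 0)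
    (h : IsRelPrime f g) : ∑ i, mu (q i) f * mu (q i) g ≤ f.totalDegree * g.totalDegree := by
  set a := f.totalDegree with ha
  set b := g.totalDegree with hb
  let s : ι → ℕ := fun i => mu (q i) f + mu (q i) g
  obtain ⟨D₀, hD⟩ := jq_large hq s
  set N := D₀ + (a + b) with hN
  have hmap := hD N (by omega)
  set A := (PD (N - a)).map (mulP f) with hA
  set B := (PD (N - b)).map (mulP g) with hB
  have hAN : A ≤ PD N := mulP_le (by omega)
  have hBN : B ≤ PD N := mulP_le (by omega)
  have hfA : Module.Finite ℂ A := Submodule.finiteDimensional_of_le hAN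
  have hfB : Module.Finite ℂ B := Submodule.finiteDimensional_of_le hBN
  -- the dimension of `A + B`
  have hinf : finrank ℂ ↥(A ⊓ B) ≤ (N - a - b + 2).choose 2 := by
    rw [← finrank_mulP (mul_ne_zero hf hg) (N - a - b)]
    exact Submodule.finrank_mono (mulP_inf hg h (by omega))
  have hsup := Submodule.finrank_sup_add_finrank_inf_eq A B
  rw [hA, hB, finrank_mulP hf, finrank_mulP hg, ← hA, ← hB] at hsup
  have hch := choose_sub (N := N) (a := a) (b := b) (by omega)
  -- the jets
  have h1 := finrank_map_add (jq q s) (sup_le hAN hBN)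
  rw [hmap, finrank_top, finrank_jq, finrank_PD] at h1
  have h2 : finrank ℂ ↥((A ⊔ B).map (jq q s)) ≤
      ∑ i, (mu (q i) g + 1).choose 2 + ∑ i, (mu (q i) f + 1).choose 2 := by
    rw [Submodule.map_sup]
    refine (Submodule.finrank_add_le_finrank_add_finrank _ _).trans (add_le_add ?_ ?_)
    · exact finrank_jq_mulP (fun i => vq_mu (q i) hf) (fun i => le_rfl) _
    · exact finrank_jq_mulP (fun i => vq_mu (q i) hg) (fun i => (add_comm _ _).le) _
  have h3 : ∑ i, (s i + 1).choose 2 = ∑ i, (mu (q i) g + 1).choose 2 +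
      ∑ i, (mu (q i) f + 1).choose 2 + ∑ i, mu (q i) f * mu (q i) g := by
    rw [← Finset.sum_add_distrib, ← Finset.sum_add_distrib]
    refine Finset.sum_congr rfl fun i _ => ?_
    show (mu (q i) f + mu (q i) g + 1).choose 2 = _
    have key : ∀ n : ℕ, ((n + 1).choose 2 : ℚ) = (n + 1) * n / 2 := by
      intro n
      rw [Nat.cast_choose_two]
      push_cast
      ring
    have h4 : (((mu (q i) f + mu (q i) g + 1).choose 2 : ℕ) : ℚ) =
        (((mu (q i) g + 1).choose 2 + (mu (q i) f + 1).choose 2 +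
          mu (q i) f * mu (q i) g : ℕ) : ℚ) := by
      push_cast [key]
      ring
    exact_mod_cast h4
  omega

end

end Pool.Agent.Work.MP_0421d9_ag.LD
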