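import Pool.Agent.Work.MP_0421d9_ag.RelSmooth
import Pool.Agent.Work.MP_0421d9_ag.SFinal

/-!
Smoothness by bootstrapping: the components of a relation at the points of small multiplicity
vanish, so that completeness of the system of the points of larger multiplicity suffices.
-/

set_option linter.unusedSectionVars false

namespace Pool.Agent.Work.MP_0421d9_ag

open MvPolynomial Module

section boot

variable {ι κ : Type} [Fintype ι] [Fintype κ] [DecidableEq ι] [DecidableEq κ]

variable {d : ℕ} {P : ι ⊕ κ → V3} {E : ι ⊕ κ → Fin 3 → Derivation ℚ ℂ ℂ} {m : ι → ℕ} {F : R3}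

/-- the points of multiplicity at least that of `j`, and the point `a` -/
def Up (m : ι → ℕ) (j a : ι) : ι → Prop := fun l => m j ≤ m l ∨ l = a

namespace Rigid

theorem top_step (S : Rigid d P E m F) {W : ι → Prop} {j : ι} (hW : W j) (hz : 1 ≤ m j)
    (hfull : Full d (fun i => P (Sum.inl i)) (rs W m) j ∨ (m j ≤ 2 ∧ Squarefree F))
    {G : ι → R3} (hG : G ∈ HH m)
    (hs : ∀ l, ¬ W l → G l = 0) {v : V3} (hv : cr (P (Sum.inl j)) v ≠ 0)
    (hJ : cD (mv E (Sum.inl j) v) (Psi d (fun i => P (Sum.inl i)) m G) ∈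
      J d (fun i => P (Sum.inl i)) (rs W m))
    (hB : ∀ v, B (cD (mv E (Sum.inl j) v) (Psi d (fun i => P (Sum.inl i)) m G)) F = 0) :
    lin (P (Sum.inl j)) ∣ G j := by
  have hp := gp1 S.hE (Sum.inl j)
  have hκ : ((d + 1 - m j : ℕ) : ℂ) ≠ 0 := by
    rw [Nat.cast_ne_zero]
    have := S.hm j
    omega
  have h4 : ∀ v, C ((d + 1 - m j : ℕ) : ℂ) * (lin (P (Sum.inl j)) ^ (d - m j) * (lin v * G j)) =
      cD (mv E (Sum.inl j) v) (Psi d (fun i => P (Sum.inl i)) m G) -
        Psi d (fun i => P (Sum.inl i)) m (fun i => cD (mv E (Sum.inl j) v) (G i)) := by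
    intro v
    rw [cD_Psi S.hE S.hm (G := G) j v]
    ring
  rcases hfull with hfull | ⟨h2, hsq⟩
  · have h3 : lin (P (Sum.inl j)) ^ (d - m j) * (lin v * G j) ∈
        J d (fun i => P (Sum.inl i)) (rs W m) := by
      apply mem_of_C_mul_mem hκ
      rw [h4 v]
      apply Submodule.sub_mem _ hJ
      apply Psi_mem_J_rs (HH_cD _ hG)
      intro l hl
      change cD _ (G l) = 0
      rw [hs l hl, map_zero]
    apply lin_dvd_of_mul hp hv
    apply hfull
    · rw [rs_of hW]
      obtain ⟨n, hn⟩ : ∃ n, m j = n + 1 := ⟨m j - 1, by omega⟩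
      have hG1 := mem_HH.mp hG j
      rw [hn] at hG1 ⊢
      rw [mem_Hm_succ] at hG1
      have := (lin_isHomogeneous v).mul hG1
      rwa [add_comm] at this
    · rw [rs_of hW]
      exact h3
  · have hBz : ∀ v, B (lin (P (Sum.inl j)) ^ (d - m j) * (lin v * G j)) F = 0 := by
      intro v
      have h5 := congrArg (fun z => B z F) (h4 v)
      simp only [map_sub, LinearMap.sub_apply, B_C_mul_left] at h5
      rw [hB v, S.B_J (Psi_mem_J (HH_cD _ hG)), sub_zero] at h5
      exact (mul_eq_zero.mp h5).resolve_left hκ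
    exact S.div' hsq (W := fun _ => True) trivial (fun h3 => absurd h3 (by omega))
      (mem_HH.mp hG j) hBz (fun h3 => absurd h3 (by omega))

/-- a form with prescribed derivatives: its components at the points of small multiplicity
vanish -/
theorem small_zero (S : Rigid d P E m F)
    (hfull : ∀ j a, 1 ≤ m j → Full d (fun i => P (Sum.inl i)) (rs (Up m j a) m) j ∨
      (m j ≤ 2 ∧ Squarefree F))
    (hN : ∀ G ∈ HH m, Psi d (fun i => P (Sum.inl i)) m G = 0 → G = 0)
    {K : ι → R3} (hK : K ∈ HH m) {L : ι → Prop} {a : ℕ} (hL : ∀ l, ¬ L l → a ≤ m l ∨ K l = 0)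
    (hD : ∀ l, L l → ∀ v, ∃ c : ℂ, cD (mv E (Sum.inl l) v)
      (Psi d (fun i => P (Sum.inl i)) m K) = C c * Psi d (fun i => P (Sum.inl i)) m K) :
    ∀ l, m l < a → K l = 0 := by
  classical
  by_contra hcon
  push Not at hcon
  obtain ⟨l₁, h1, h2⟩ := hcon
  obtain ⟨l, hl, hmin⟩ := (Finset.univ.filter (fun l => m l < a ∧ K l ≠ 0)).exists_min_image m
    ⟨l₁, by simp [h1, h2]⟩
  simp only [Finset.mem_filter, Finset.mem_univ, true_and] at hl hmin
  obtain ⟨hla, hKl⟩ := hl
  have hLl : L l := by
    by_contra h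
    rcases hL l h with h' | h'
    · omega
    · exact hKl h'
  have hs : ∀ i, ¬ Up m l l i → K i = 0 := by
    intro i hi
    by_contra h
    unfold Up at hi
    push Not at hi
    have := hmin i ⟨by omega, h⟩
    omega
  have hz : 1 ≤ m l := by
    by_contra h
    have h0 : m l = 0 := by omega
    have h3 := mem_HH.mp hK l
    rw [h0, mem_Hm_zero] at h3
    exact hKl h3
  obtain ⟨v, hv⟩ := exists_cr_ne (gp1 S.hE (Sum.inl l))
  obtain ⟨c, hc⟩ := hD l hLl v
  have hdiv : lin (P (Sum.inl l)) ∣ K l := by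
    apply S.top_step (W := Up m l l) (Or.inl le_rfl) hz (hfull l l hz) hK hs hv
    · rw [hc]
      exact C_mul_mem _ (Psi_mem_J_rs hK hs)
    · intro v'
      obtain ⟨c', hc'⟩ := hD l hLl v'
      rw [hc', B_C_mul_left, S.B_J (Psi_mem_J hK), mul_zero]
  obtain ⟨s, e, G₁, e1, e2, e3, e4⟩ := S.exists_fact (mem_HH.mp hK) hdiv hKl
  refine S.contra hN hK e1 e2 e3 e4 hv (X := c • K) (Submodule.smul_mem _ _ hK) ?_ ?_
  · rw [map_smul, hc, smul_eq_C_mul]
  · rw [Pi.smul_apply, smul_eq_C_mul, e1]
    exact Dvd.dvd.mul_left (Dvd.intro _ rfl) _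

/-- the rigid member is smooth away from the multiple points, by bootstrapping -/
theorem boot_no_singularity (S : Rigid d P E m F)
    (hfull : ∀ j a, 1 ≤ m j → Full d (fun i => P (Sum.inl i)) (rs (Up m j a) m) j ∨
      (m j ≤ 2 ∧ Squarefree F))
    (hN : ∀ G ∈ HH m, Psi d (fun i => P (Sum.inl i)) m G = 0 → G = 0)
    {q : V3} (hqne : q ≠ 0) (hq : ∀ i : ι, cr (P (Sum.inl i)) q ≠ 0) (hq0 : eval q F = 0)
    (hsing : ∀ k, eval q (pderiv k F) = 0) : False := by
  classical
  set p : ι → V3 := fun i => P (Sum.inl i) with hp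
  have hd : 1 ≤ d := by
    by_contra hc
    have hd0 : d = 0 := by omega
    have h1 := S.hom
    rw [hd0] at h1
    have h0 : F = C (coeff 0 F) :=
      (MvPolynomial.totalDegree_eq_zero_iff_eq_C).mp (Nat.le_zero.mp h1.totalDegree_le)
    rw [h0, eval_C] at hq0
    rw [hq0, C_0] at h0
    exact S.hF0 h0
  obtain ⟨d', rfl⟩ : ∃ d', d = d' + 1 := ⟨d - 1, by omega⟩
  have hdne : ((d' + 1 : ℕ) : ℂ) ≠ 0 := by
    rw [Nat.cast_ne_zero]; omega
  -- the singularity in terms of the pairing
  have hBq : B (lin q ^ (d' + 1)) F = 0 := by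
    rw [B_lin_pow S.hom, hq0, mul_zero]
  have hBw : ∀ w, B (lin q ^ d' * lin w) F = 0 := by
    intro w
    have h1 : (dir w F).IsHomogeneous d' := by
      simpa using dir_isHomogeneous w S.hom
    rw [mul_comm, B_lin_mul, B_lin_pow h1, dir_apply, map_sum]
    have h2 : ∑ k, eval q (C (w k) * pderiv k F) = 0 := by
      refine Finset.sum_eq_zero (fun k _ => ?_)
      rw [map_mul, hsing k, mul_zero]
    rw [h2, mul_zero]
  -- the relation
  have hJ : lin q ^ (d' + 1) ∈ J (d' + 1) p m := by
    apply S.memJ (lin_isHomogeneous_pow q (d' + 1)) hBq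
    intro k v
    have h1 := D_B (mv E (Sum.inr k) v) (lin q ^ (d' + 1)) F
    rw [hBq, map_zero, cDq, B_C_mul_left, hBw, mul_zero, zero_add] at h1
    exact h1.symm
  obtain ⟨G, hG', hGq⟩ := mem_J.mp hJ
  have hG : G ∈ HH m := mem_HH.mpr hG'
  rw [← Psi_apply] at hGq
  -- at most one divisible component
  have hlow : ∀ i j, G i ≠ 0 → lin (p i) ∣ G i → G j ≠ 0 → lin (p j) ∣ G j → i = j := by
    intro i j hi hi' hj hj'
    by_contra hij
    obtain ⟨s, n, G₁, e1, e2, e3, e4⟩ := S.exists_fact hG' hi' hi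
    obtain ⟨s', n', G₂, e1', e2', e3', e4'⟩ := S.exists_fact hG' hj' hj
    exact S.two_nonzero hN hqne hG hGq hij e1 e2 e3 e4 e1' e2' e3' e4'
  by_cases htop : ∃ j, ¬ lin (p j) ∣ G j
  · -- the nondivisible component of smallest multiplicity
    obtain ⟨j₁, hj₁⟩ := htop
    obtain ⟨j, hj, hmin⟩ := (Finset.univ.filter (fun j => ¬ lin (p j) ∣ G j)).exists_min_image m
      ⟨j₁, by simp [hj₁]⟩
    simp only [Finset.mem_filter, Finset.mem_univ, true_and] at hj hmin
    have hGj : G j ≠ 0 := by
      intro h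
      apply hj
      rw [h]
      exact dvd_zero _
    have hz : 1 ≤ m j := by
      by_contra h
      have h0 : m j = 0 := by omega
      have h3 := hG' j
      rw [h0, mem_Hm_zero] at h3
      exact hGj h3
    -- the possible divisible component
    obtain ⟨a, ha, ha'⟩ : ∃ a, (∀ i, G i ≠ 0 → lin (p i) ∣ G i → i = a) ∧
        ((G a ≠ 0 ∧ lin (p a) ∣ G a) ∨ ∀ i, G i ≠ 0 → ¬ lin (p i) ∣ G i) := by
      by_cases h : ∃ a, G a ≠ 0 ∧ lin (p a) ∣ G a
      · obtain ⟨a, h1, h2⟩ := h
        exact ⟨a, fun i hi hi' => hlow i a hi hi' h1 h2, Or.inl ⟨h1, h2⟩⟩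
      · push Not at h
        exact ⟨j, fun i hi hi' => absurd hi' (h i hi), Or.inr h⟩
    set W := Up m j a with hW
    have hWj : W j := Or.inl le_rfl
    have hs : ∀ l, ¬ W l → G l = 0 := by
      intro l hl
      by_contra h
      rw [hW] at hl
      unfold Up at hl
      push Not at hl
      by_cases hdiv : lin (p l) ∣ G l
      · exact hl.2 (ha l h hdiv)
      · have := hmin l hdiv
        omega
    have hGW : lin q ^ (d' + 1) ∈ J (d' + 1) p (rs W m) := by
      rw [← hGq]
      exact Psi_mem_J_rs hG hs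
    -- a second element
    have hw : ∃ w, cr q w ≠ 0 ∧ lin q ^ d' * lin w ∈ J (d' + 1) p (rs W m) := by
      by_contra hcon
      push Not at hcon
      have hT' : ∀ w, lin q ^ d' * lin w ∈ J (d' + 1) p (rs W m) → cr q w = 0 := by
        intro w hw
        by_contra h
        exact hcon w h hw
      have hprop : ∀ k v, ∃ c : ℂ, (fun l => mv E (Sum.inr k) v (q l)) = c • q := by
        intro k v
        apply exists_smul_of_cr_eq_zero hqne
        apply hT'
        apply mem_of_C_mul_mem hdne
        rw [← cDq, ← hGq, cD_Psi_fixed S.hE]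
        apply Psi_mem_J_rs (HH_cD _ hG)
        intro l hl
        change cD _ (G l) = 0
        rw [hs l hl, map_zero]
      have hprop' : ∀ l, G l = 0 → ∀ v, ∃ c : ℂ, (fun i => mv E (Sum.inl l) v (q i)) = c • q := by
        intro l hl v
        apply exists_smul_of_cr_eq_zero hqne
        apply hT'
        apply mem_of_C_mul_mem hdne
        rw [← cDq, ← hGq, cD_Psi S.hE S.hm, hl, mul_zero, mul_zero, mul_zero, zero_add]
        apply Psi_mem_J_rs (HH_cD _ hG)
        intro i hi
        change cD _ (G i) = 0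
        rw [hs i hi, map_zero]
      -- there is no divisible component
      have hnd : ∀ i, G i ≠ 0 → ¬ lin (p i) ∣ G i := by
        rcases ha' with ⟨h1, h2⟩ | h
        · exfalso
          obtain ⟨s, n, G₁, e1, e2, e3, e4⟩ := S.exists_fact hG' h2 h1
          obtain ⟨v, hv⟩ := exists_cr_ne (gp1 S.hE (Sum.inl a))
          apply S.moves hN hqne hG hGq e1 e2 e3 e4 hv
          apply hT'
          apply mem_of_C_mul_mem hdne
          rw [← cDq, ← hGq, cD_Psi_div S.hE a v e1]
          apply Psi_mem_J_rs (update_mem_HH _ hG (comp_mem_Hm _ _ e2 e3))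
          intro l hl
          have hla : l ≠ a := by
            rintro rfl
            exact hl (Or.inr rfl)
          rw [Function.update_of_ne hla, hs l hl, map_zero]
        · exact h
      obtain ⟨k, hk⟩ : ∃ k : Fin 3, cr q (Pi.single k 1) ≠ 0 := by
        by_contra hcon'
        push Not at hcon'
        have h01 := congrFun (hcon' 0) 1
        have h02 := congrFun (hcon' 0) 2
        have h12 := congrFun (hcon' 1) 2
        simp [cr] at h01 h02 h12
        apply hqne
        ext l
        fin_cases l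
        · exact h12
        · exact h02
        · exact h01
      set w : V3 := Pi.single k 1 with hwdef
      have hDw : ∀ D : Derivation ℚ ℂ ℂ, (fun l => D (w l)) = (0 : V3) := by
        intro D
        funext l
        rw [hwdef]
        by_cases hl : l = k
        · subst hl
          rw [Pi.single_eq_same]
          exact Derivation.map_one_eq_zero D
        · rw [Pi.single_eq_of_ne hl]
          exact map_zero D
      have hcDA : ∀ (D : Derivation ℚ ℂ ℂ) (c : ℂ), (fun l => D (q l)) = c • q →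
          cD D (lin q ^ d' * lin w) = C (d' * c) * (lin q ^ d' * lin w) := by
        intro D c hc
        rw [cD_mul, cD_lin_pow_prop hc, cD_lin, hDw D]
        have : lin (0 : V3) = 0 := lin_eq_zero.mpr rfl
        rw [this, mul_zero, add_zero, mul_assoc]
      have hA : lin q ^ d' * lin w ∈ J (d' + 1) p m := by
        apply S.memJ _ (hBw w)
        · intro k v
          obtain ⟨c, hc⟩ := hprop k v
          have h1 := D_B (mv E (Sum.inr k) v) (lin q ^ d' * lin w) F
          rw [hBw, map_zero, hcDA _ c hc, B_C_mul_left, hBw, mul_zero, zero_add] at h1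
          exact h1.symm
        · exact (lin_isHomogeneous_pow q d').mul (lin_isHomogeneous w)
      obtain ⟨K, hK', hKA⟩ := mem_J.mp hA
      have hK : K ∈ HH m := mem_HH.mpr hK'
      rw [← Psi_apply] at hKA
      have hKs := S.small_zero hfull hN hK (L := fun l => G l = 0) (a := m j)
        (fun l hl => Or.inl (hmin l (hnd l hl))) (by
          intro l hl v
          obtain ⟨c, hc⟩ := hprop' l hl v
          refine ⟨d' * c, ?_⟩
          change cD _ (Psi (d' + 1) p m K) = C (d' * c) * Psi (d' + 1) p m K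
          rw [hKA]
          exact hcDA _ c hc)
      apply hk
      apply hT'
      rw [← hKA]
      apply Psi_mem_J_rs hK
      intro l hl
      apply hKs
      by_contra hcon'
      exact hl (Or.inl (by omega))
    obtain ⟨w, hw, hwJ⟩ := hw
    obtain ⟨v, hv0, hv⟩ := exists_ker_ne (gp1 S.hE (Sum.inl j))
      (evQ (QL E (Sum.inl j) q) (cr q w))
    apply hj
    apply S.top_step hWj hz (hfull j a hz) hG hs hv _ (by
      intro v'
      change B (cD (mv E (Sum.inl j) v') (Psi (d' + 1) p m G)) F = 0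
      rw [hGq, cDq, B_C_mul_left, hBw, mul_zero])
    change cD (mv E (Sum.inl j) v) (Psi (d' + 1) p m G) ∈ _
    rw [hGq, cDq]
    apply C_mul_mem
    obtain ⟨s, t, hst⟩ := exists_comb hw (show eval (QL E (Sum.inl j) q v) (xl q w) = 0 from hv0)
    rw [show (fun l => mv E (Sum.inl j) v (q l)) = s • q + t • w from hst, lin_add, lin_smul,
      lin_smul, mul_add]
    apply Submodule.add_mem
    · have : lin q ^ d' * (C s * lin q) = C s * lin q ^ (d' + 1) := by
        rw [pow_succ]; ring
      rw [this]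
      exact C_mul_mem _ hGW
    · have : lin q ^ d' * (C t * lin w) = C t * (lin q ^ d' * lin w) := by ring
      rw [this]
      exact C_mul_mem _ hwJ
  · -- all components are divisible, so at most one of them is not zero
    push Not at htop
    have hq1 : lin q ^ (d' + 1) ≠ 0 :=
      pow_ne_zero _ (fun h => hqne (lin_eq_zero.mp h))
    by_cases hG0 : ∃ a, G a ≠ 0
    · obtain ⟨a, ha⟩ := hG0
      have h1 : lin q ^ (d' + 1) = lin (p a) ^ (d' + 1 + 1 - m a) * G a := by
        rw [← hGq, Psi_apply, Finset.sum_eq_single a]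
        · intro i _ hia
          have : G i = 0 := by
            by_contra h
            exact hia (hlow i a h (htop i) ha (htop a))
          rw [this, mul_zero]
        · intro h
          exact absurd (Finset.mem_univ a) h
      have h2 : lin (p a) ∣ lin q ^ (d' + 1) := by
        rw [h1]
        exact Dvd.dvd.mul_left (htop a) _
      exact hq a (lin_dvd_lin ((lin_prime (gp1 S.hE _)).dvd_of_dvd_pow h2))
    · push Not at hG0
      apply hq1
      rw [← hGq, Psi_apply]
      refine Finset.sum_eq_zero (fun i _ => ?_)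
      rw [hG0 i, mul_zero]

/-- no bad direction, by bootstrapping -/
theorem boot_no_bad (S : Rigid d P E m F)
    (hfull : ∀ j a, 1 ≤ m j → Full d (fun i => P (Sum.inl i)) (rs (Up m j a) m) j ∨
      (m j ≤ 2 ∧ Squarefree F))
    (hN : ∀ G ∈ HH m, Psi d (fun i => P (Sum.inl i)) m G = 0 → G = 0)
    {a : ι} {u : V3} (hu : cr (P (Sum.inl a)) u ≠ 0) (h : BadDir d F (P (Sum.inl a)) (m a) u) :
    False := by
  classical
  rcases Nat.eq_zero_or_pos (m a) with h0 | hz
  · apply S.R0 a h0
    have := h.1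
    rwa [h0, pow_zero, mul_one, Nat.sub_zero] at this
  set p : ι → V3 := fun i => P (Sum.inl i) with hp
  have hJ : lin (p a) ^ (d - m a) * lin u ^ m a ∈ J d p m := S.bad_mem_J h
  obtain ⟨G, hG', hGq⟩ := mem_J.mp hJ
  have hG : G ∈ HH m := mem_HH.mpr hG'
  rw [← Psi_apply] at hGq
  have hma : lin u ^ (m a - 1) ∈ Hm (m a) := by
    obtain ⟨n, hn⟩ : ∃ n, m a = n + 1 := ⟨m a - 1, by omega⟩
    rw [hn, mem_Hm_succ, Nat.add_sub_cancel]
    exact lin_isHomogeneous_pow u n
  -- the derivative along the motion of another point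
  have hcD : ∀ j, j ≠ a → ∀ v, cD (mv E (Sum.inl j) v) (Psi d p m G) =
      C (m a : ℂ) * (lin (p a) ^ (d - m a) * (lin u ^ (m a - 1) *
        lin (fun l => mv E (Sum.inl j) v (u l)))) := by
    intro j hj v
    rw [hGq, cD_mul, cD_lin_pow_ne S.hE (by simpa using hj.symm), zero_mul, zero_add,
      cD_lin_pow_eq]
    ring
  -- expression when the derivative of `u` lies in the plane of `p a` and `u`
  have hexp : ∀ (s t : ℂ), C (m a : ℂ) * (lin (p a) ^ (d - m a) * (lin u ^ (m a - 1) *
        lin (s • p a + t • u))) =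
      lin (p a) ^ (d + 1 - m a) * (C ((m a : ℂ) * s) * lin u ^ (m a - 1)) +
        C ((m a : ℂ) * t) * (lin (p a) ^ (d - m a) * lin u ^ m a) := by
    intro s t
    have e1 : lin (p a) ^ (d + 1 - m a) = lin (p a) ^ (d - m a) * lin (p a) := by
      rw [← pow_succ]
      congr 1
      have := S.hm a
      omega
    have e2 : lin u ^ m a = lin u ^ (m a - 1) * lin u := by
      rw [← pow_succ]
      congr 1
      omega
    rw [e1, e2, lin_add, lin_smul, lin_smul, map_mul, map_mul]
    ring
  -- good directions for `j`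
  have hgood : ∀ j, ∃ (v : V3) (s t : ℂ), cr (p j) v ≠ 0 ∧
      (fun l => mv E (Sum.inl j) v (u l)) = s • p a + t • u := by
    intro j
    obtain ⟨v, hv0, hv⟩ := exists_ker_ne (gp1 S.hE (Sum.inl j))
        (evQ (QL E (Sum.inl j) u) (cr (p a) u))
    obtain ⟨s, t, hst⟩ := exists_comb hu
      (show eval (QL E (Sum.inl j) u v) (xl (p a) u) = 0 from hv0)
    exact ⟨v, s, t, hv, hst⟩
  -- the derivative as a combination
  have hX : ∀ (s t : ℂ), (Pi.single a (C ((m a : ℂ) * s) * lin u ^ (m a - 1)) +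
      ((m a : ℂ) * t) • G : ι → R3) ∈ HH m := by
    intro s t
    apply Submodule.add_mem _ _ (Submodule.smul_mem _ _ hG)
    rw [mem_HH]
    intro i
    by_cases hia : i = a
    · subst hia
      rw [Pi.single_eq_same]
      exact C_mul_mem _ hma
    · rw [Pi.single_eq_of_ne hia]
      exact zero_mem _
  have hXP : ∀ j, j ≠ a → ∀ (v : V3) (s t : ℂ),
      (fun l => mv E (Sum.inl j) v (u l)) = s • p a + t • u →
      Psi d p m (Pi.single a (C ((m a : ℂ) * s) * lin u ^ (m a - 1)) + ((m a : ℂ) * t) • G) =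
        cD (mv E (Sum.inl j) v) (Psi d p m G) := by
    intro j hja v s t hst
    rw [hcD j hja v, hst, hexp, map_add, map_smul, hGq, smul_eq_C_mul]
    congr 1
    rw [Psi_apply, Finset.sum_eq_single a]
    · rw [Pi.single_eq_same]
    · intro i _ hia
      rw [Pi.single_eq_of_ne hia, mul_zero]
    · intro h'
      exact absurd (Finset.mem_univ a) h'
  -- no divisible component
  have hlow : ∀ j, j ≠ a → G j ≠ 0 → ¬ lin (p j) ∣ G j := by
    intro j hja hne hdiv
    obtain ⟨s', e, G', hjG, hhom, hmj, hnd⟩ := S.exists_fact hG' hdiv hne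
    obtain ⟨v, s, t, hv, hst⟩ := hgood j
    refine S.contra hN hG hjG hhom hmj hnd hv (hX s t) (hXP j hja v s t hst) ?_
    rw [Pi.add_apply, Pi.single_eq_of_ne hja, zero_add, Pi.smul_apply, smul_eq_C_mul, hjG]
    exact Dvd.dvd.mul_left (Dvd.intro _ rfl) _
  -- no component at all
  have hzero : ∀ j, j ≠ a → G j = 0 := by
    by_contra hcon
    push Not at hcon
    obtain ⟨j₁, hj₁, hj₁'⟩ := hcon
    obtain ⟨j, hj, hmin⟩ := (Finset.univ.filter (fun j => j ≠ a ∧ G j ≠ 0)).exists_min_image m
      ⟨j₁, by simp [hj₁, hj₁']⟩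
    simp only [Finset.mem_filter, Finset.mem_univ, true_and] at hj hmin
    obtain ⟨hja, hGj⟩ := hj
    have hz' : 1 ≤ m j := by
      by_contra h
      have h0 : m j = 0 := by omega
      have h3 := hG' j
      rw [h0, mem_Hm_zero] at h3
      exact hGj h3
    have hs : ∀ l, ¬ Up m j a l → G l = 0 := by
      intro l hl
      by_contra h
      unfold Up at hl
      push Not at hl
      have := hmin l ⟨hl.2, h⟩
      omega
    obtain ⟨v, s, t, hv, hst⟩ := hgood j
    apply hlow j hja hGj
    apply S.top_step (W := Up m j a) (Or.inl le_rfl) hz' (hfull j a hz') hG hs hv _ (by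
      intro v'
      change B (cD (mv E (Sum.inl j) v') (Psi d p m G)) F = 0
      rw [hcD j hja v', B_C_mul_left, h.2 hz, mul_zero])
    change cD (mv E (Sum.inl j) v) (Psi d p m G) ∈ _
    rw [← hXP j hja v s t hst]
    apply Psi_mem_J_rs (hX s t)
    intro l hl
    have hla : l ≠ a := by
      rintro rfl
      exact hl (Or.inr rfl)
    rw [Pi.add_apply, Pi.single_eq_of_ne hla, zero_add, Pi.smul_apply, hs l hl, smul_zero]
  have h1 : lin (p a) ^ (d - m a) * lin u ^ m a = lin (p a) ^ (d - m a) * (lin (p a) * G a) := by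
    rw [← hGq, Psi_apply, Finset.sum_eq_single a]
    · rw [← mul_assoc, ← pow_succ, (by have := S.hm a; omega : d - m a + 1 = d + 1 - m a)]
    · intro i _ hia
      rw [hzero i hia, mul_zero]
    · intro h
      exact absurd (Finset.mem_univ a) h
  have h2 := mul_left_cancel₀ (pow_ne_zero _ (lin_prime (gp1 S.hE (Sum.inl a))).ne_zero) h1
  have h3 : lin (p a) ∣ lin u ^ m a := by
    rw [h2]
    exact Dvd.intro _ rfl
  exact hu (lin_dvd_lin ((lin_prime (gp1 S.hE _)).dvd_of_dvd_pow h3))

end Rigid

end boot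

/-- a form without singular points outside finitely many points is squarefree -/
theorem squarefree_of_no_sing {ι : Type} [Fintype ι] {d : ℕ} {p : ι → V3} {F : R3}
    (hp : ∀ i, p i ≠ 0) (hF : F.IsHomogeneous d) (hF0 : F ≠ 0)
    (h : ∀ q : V3, q ≠ 0 → (∀ i, cr (p i) q ≠ 0) → eval q F = 0 →
      (∀ k, eval q (pderiv k F) = 0) → False) : Squarefree F := by
  intro G hG
  by_contra hunit
  obtain ⟨H, hH⟩ := hG
  have h1 : F = G * (G * H) := by rw [hH, mul_assoc]
  obtain ⟨e, b, -, hGhom, -⟩ := isHomogeneous_factor (A := G) (G := G * H) (d := d)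
    (by rw [← h1]; exact hF) (by rw [← h1]; exact hF0)
  have hG0 : G ≠ 0 := by
    rintro rfl
    exact hF0 (by rw [h1, zero_mul])
  have he : 1 ≤ e := by
    by_contra hcon
    have he0 : e = 0 := by omega
    rw [he0] at hGhom
    have h2 : G = C (coeff 0 G) :=
      (MvPolynomial.totalDegree_eq_zero_iff_eq_C).mp (Nat.le_zero.mp hGhom.totalDegree_le)
    apply hunit
    rw [h2]
    apply IsUnit.map
    rw [isUnit_iff_ne_zero]
    intro h3
    exact hG0 (by rw [h2, h3, C_0])
  obtain ⟨q, hq0, hqp, hq⟩ := SM.exists_zero_outside hp he hGhom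
  refine h q hq0 hqp ?_ (fun k => ?_)
  · rw [h1, map_mul, hq, zero_mul]
  · rw [h1, pderiv_mul, pderiv_mul]
    simp only [map_add, map_mul, hq, zero_mul, mul_zero, add_zero]

/-- the points of multiplicity at least that of `j`, and the point `a`, with the multiplicity at
`j` raised by one -/
def upJ {r : ℕ} (m : Fin r → ℕ) (j a : Fin r) : Fin r → ℕ := fun i =>
  if i = j then m j + 1 else if m j ≤ m i ∨ i = a then m i else 0

/-- **Smoothness by bootstrapping.** -/
theorem boot_final {r d : ℕ} (p : Fin r → Fin 3 → ℂ) (hp : GenericPoints p) (m : Fin r → ℕ)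
    (hreg : finrank ℂ (linSys d p m) + ∑ i, (m i + 1).choose 2 = (d + 2).choose 2)
    (hne : linSys d p m ≠ ⊥)
    (hup : ∀ j a, 3 ≤ m j → 2 ≤ m a →
      finrank ℂ (linSys d p (upJ m j a)) + ∑ i, (upJ m j a i + 1).choose 2 =
        (d + 2).choose 2)
    (h2 : (∃ F ∈ linSys d p m, Squarefree F) ∨ ∀ j a, m j = 2 → 2 ≤ m a →
      finrank ℂ (linSys d p (upJ m j a)) + ∑ i, (upJ m j a i + 1).choose 2 =
        (d + 2).choose 2) :
    (∃ F ∈ linSys d p m, Squarefree F) ∧
    (∀ s : Fin (finrank ℂ (linSys d p m) - 1) → Fin 3 → ℂ, GenericPoints (Sum.elim p s) →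
      ∀ F ∈ linSys d p m, F ≠ 0 → (∀ k, eval (s k) F = 0) → SmoothOnBlowup p m F) ∧
    (∃ F ∈ linSys d p m, F ≠ 0 ∧ SmoothOnBlowup p m F) := by
  have hfin : Module.Finite ℂ (linSys d p m) :=
    Submodule.finiteDimensional_of_le (linSys_le d p _)
  obtain ⟨f₁, hf₁, hf₁0⟩ := Submodule.exists_mem_ne_zero_of_ne_bot hne
  have hm : ∀ i, m i ≤ d := fun i => le_of_vanishTo hf₁.1 hf₁0 (hf₁.2 i)
  have hmmd : ∀ x, mm m x ≤ d := by
    rintro (⟨i, hi⟩ | x)
    · exact hm i
    · exact Nat.zero_le _
  have iN : ∀ G ∈ HH m, Psi d p m G = 0 → G = 0 :=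
    inj_of_finrank (fun i => (hm i).trans (Nat.le_succ _)) hreg
  -- the consequences on the configuration
  have mainN : ∀ (n : ℕ) (s : Fin n → V3) (t : Fin 4 → V3),
      ∀ G ∈ HH (mm m), Psi d (fun i => PP p s t m (Sum.inl i)) (mm m) G = 0 → G = 0 :=
    fun n s t => inj_core (fun i => rfl) (fun x => rfl) iN
  have mainF : ∀ (n : ℕ) (s : Fin n → V3) (t : Fin 4 → V3) (j : {i : Fin r // m i ≠ 1})
      (a : IT m), 2 ≤ m j.1 → (∀ b, 2 ≤ m b →
        finrank ℂ (linSys d p (upJ m j.1 b)) + ∑ i, (upJ m j.1 b i + 1).choose 2 =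
          (d + 2).choose 2) →
      Rigid.Full d (fun i => PP p s t m (Sum.inl i)) (rs (Up (mm m) (Sum.inl j) a) (mm m))
        (Sum.inl j) := by
    rintro n s t ⟨j, hj⟩ a hj2 hind
    have hself : rs (Up (mm m) (Sum.inl ⟨j, hj⟩) a) (mm m) (Sum.inl ⟨j, hj⟩) = m j :=
      rs_of (Or.inl le_rfl)
    -- the point `a`
    obtain ⟨b, hb2, hb⟩ : ∃ b : Fin r, 2 ≤ m b ∧ ∀ i : {i : Fin r // m i ≠ 1},
        rs (Up (mm m) (Sum.inl ⟨j, hj⟩) a) (mm m) (Sum.inl i) =
          if m j ≤ m i.1 ∨ i.1 = b then m i.1 else 0 := by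
      by_cases hab : ∃ b : {i : Fin r // m i ≠ 1}, a = Sum.inl b ∧ 2 ≤ m b.1
      · obtain ⟨b, rfl, hb2⟩ := hab
        refine ⟨b.1, hb2, fun i => ?_⟩
        by_cases hi : m j ≤ m i.1 ∨ i.1 = b.1
        · rw [if_pos hi, rs_of]
          · rfl
          · rcases hi with hi | hi
            · exact Or.inl hi
            · exact Or.inr (congrArg Sum.inl (Subtype.ext hi))
        · rw [if_neg hi, rs_not]
          rintro (h' | h')
          · exact hi (Or.inl h')
          · exact hi (Or.inr (congrArg Subtype.val (Sum.inl.inj h')))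
      · refine ⟨j, hj2, fun i => ?_⟩
        by_cases hi : m j ≤ m i.1 ∨ i.1 = j
        · rw [if_pos hi, rs_of]
          · rfl
          · rcases hi with hi | hi
            · exact Or.inl hi
            · left
              change m j ≤ m i.1
              rw [hi]
        · rw [if_neg hi]
          by_cases hia : (Sum.inl i : IT m) = a
          · have h3 : m i.1 < 2 := by
              by_contra hcon
              exact hab ⟨i, hia.symm, by omega⟩
            have h4 := i.2
            have h5 : m i.1 = 0 := by omega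
            have h6 := rs_le (Up (mm m) (Sum.inl ⟨j, hj⟩) a) (mm m) (Sum.inl i)
            change _ ≤ m i.1 at h6
            omega
          · apply rs_not
            rintro (h' | h')
            · exact hi (Or.inl h')
            · exact hia h'
    have iU : ∀ G ∈ HH (upJ m j b), Psi d p (upJ m j b) G = 0 → G = 0 := by
      apply inj_of_finrank _ (hind b hb2)
      intro i
      have h5 := hm i
      have h6 : m j ≤ d := hm j
      change upJ m j b i ≤ d + 1
      unfold upJ
      split_ifs <;> omega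
    apply full_of_inj
    · rw [hself]
      exact hm j
    · apply inj_core (z := upJ m j b) _ _ iU
      · intro i
        by_cases hx : i.1 = j
        · have hx' : i = ⟨j, hj⟩ := Subtype.ext hx
          rw [hx', Function.update_self, hself]
          unfold upJ
          rw [if_pos rfl]
        · rw [Function.update_of_ne (by
            intro h'
            exact hx (congrArg Subtype.val (Sum.inl.inj h'))), hb i]
          unfold upJ
          rw [if_neg hx]
      · intro x
        rw [Function.update_of_ne (by simp)]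
        exact Nat.le_zero.mp (rs_le _ (mm m) (Sum.inr x))
  have hpos : 0 < finrank ℂ (linSys d p m) := by
    rw [Module.finrank_pos_iff_exists_ne_zero]
    exact ⟨⟨f₁, hf₁⟩, fun h => hf₁0 (congrArg Subtype.val h)⟩
  set n := finrank ℂ (linSys d p m) - 1 with hn
  have hn' : n + 1 = finrank ℂ (linSys d p m) := by omega
  have key : ∀ s : Fin n → V3, GenericPoints (Sum.elim p s) →
      ∃ (t : Fin 4 → V3) (E : IT m ⊕ KT m n → Fin 3 → Derivation ℚ ℂ ℂ),
        IsDual (PP p s t m) E := by
    intro s hs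
    obtain ⟨t, ht⟩ := exists_extension (κ := Fin 4) (Sum.elim p s) hs
    obtain ⟨E, hE⟩ := exists_dual _ (PP_generic p s t m ht)
    exact ⟨t, E, hE⟩
  have hsmooth : ∀ s : Fin n → V3, GenericPoints (Sum.elim p s) →
      ∀ F ∈ linSys d p m, F ≠ 0 → (∀ k, eval (s k) F = 0) →
        SmoothOnBlowup p m F ∧ Squarefree F := by
    intro s hs F hF hF0 hFs
    obtain ⟨t, E, hE⟩ := key s hs
    have S := rigid_of hE hm hn' hF hF0 hFs
    have hfull : ∀ j a, 1 ≤ mm m j →
        Rigid.Full d (fun i => PP p s t m (Sum.inl i)) (rs (Up (mm m) j a) (mm m)) j ∨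
          (mm m j ≤ 2 ∧ Squarefree F) := by
      intro j a h1
      rcases j with j | x
      · have h1' : 1 ≤ m j.1 := h1
        have hj1 := j.2
        by_cases h3 : 3 ≤ m j.1
        · exact Or.inl (mainF n s t j a (by omega) (fun b hb => hup j.1 b h3 hb))
        · have h4 : m j.1 = 2 := by omega
          rcases h2 with ⟨f₀, hf₀, hsq₀⟩ | h2
          · refine Or.inr ⟨h4.le, S.squarefree (f₀ := f₀) ?_ hsq₀⟩
            rw [linSys_core]
            refine ⟨hf₀.1, fun i => ?_⟩
            apply (hf₀.2 i).mono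
            unfold dropSimple
            split_ifs <;> omega
          · exact Or.inl (mainF n s t j a (by omega) (fun b hb => h2 j.1 b h4 hb))
      · change 1 ≤ 0 at h1
        omega
    have hns : ∀ q : V3, q ≠ 0 → (∀ i : IT m, cr (PP p s t m (Sum.inl i)) q ≠ 0) →
        eval q F = 0 → (∀ k, eval q (pderiv k F) = 0) → False := fun q hq0 hq hqF hqs =>
      S.boot_no_singularity hfull (mainN n s t) hq0 hq hqF hqs
    refine ⟨rel_smooth_of S hF hns ?_, ?_⟩
    · intro i u hu hbad
      exact S.boot_no_bad hfull (mainN n s t) hu hbad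
    · exact squarefree_of_no_sing (fun i : IT m => gp1 hE (Sum.inl i)) hF.1 hF0 hns
  obtain ⟨s, hs⟩ := exists_extension (κ := Fin n) p hp
  obtain ⟨t, E, hE⟩ := key s hs
  obtain ⟨F, hF, hF0, hFs⟩ := exists_rigid hE hm hn'
  obtain ⟨h1, h3⟩ := hsmooth s hs F hF hF0 hFs
  exact ⟨⟨F, hF, h3⟩, fun s hs F hF hF0 hFs => (hsmooth s hs F hF hF0 hFs).1, F, hF, hF0, h1⟩

end Pool.Agent.Work.MP_0421d9_ag
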