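import Pool.Agent.Work.MP_0421d9_ag.ZCDefs
import Pool.Agent.Work.MP_0421d9_ag.SScale

/-!
Collisions of generic points: the two places.
-/

set_option linter.unusedSectionVars false
set_option linter.unusedVariables false

namespace Pool.Agent.Work.MP_0421d9_ag.ZC

open MvPolynomial Module SM

theorem alg_inv {S : Subalgebra ℚ ℂ} {a : ℂ} (ha : a ∈ S) : IsAlgebraic S a⁻¹ :=
  (isAlgebraic_algebraMap (⟨a, ha⟩ : S) : IsAlgebraic S a).inv

/-- the place of the collision: the points `p (inr x)` collide to the points `P' x.1` -/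
theorem exists_collision_place {ι Λ : Type} [Finite ι] [Fintype Λ] {s : Λ → ℕ}
    {p : ι ⊕ (Σ l, Fin (s l)) → V3} (hp : GenericPoints p) (p' : ι → V3) (P' : Λ → V3)
    (ζ' : (Σ l, Fin (s l)) → V3) :
    ∃ (ρ : Pl) (τ : ℂ) (P : Λ → V3) (ζ : (Σ l, Fin (s l)) → V3), τ ≠ 0 ∧ ρ.L τ 0 ∧
      (∀ l, P l 2 ≠ 0) ∧ (∀ i k, ρ.L (p (Sum.inl i) k) (p' i k)) ∧
      (∀ l k, ρ.L (P l k) (P' l k)) ∧ (∀ x k, ρ.L (ζ x k) (ζ' x k)) ∧
      ∀ x, p (Sum.inr x) = tv (P x.1) (scv τ (ζ x)) := by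
  have hp₁ : AlgebraicIndependent ℚ
    (fun z : (ι ⊕ (Σ l, Fin (s l))) × Fin 3 => p z.1 z.2) := hp
  obtain ⟨e, he⟩ := algInd_extend (β := (Λ × Fin 3) ⊕ Unit) hp₁
  set P : Λ → V3 := fun l k => e (Sum.inl (l, k)) with hP
  set τ : ℂ := e (Sum.inr ()) with hτ
  have hτ0 : τ ≠ 0 := he.ne_zero (Sum.inr (Sum.inr ()))
  have hP2 : ∀ l, P l 2 ≠ 0 := fun l => he.ne_zero (Sum.inr (Sum.inl (l, 2)))
  set ζ : (Σ l, Fin (s l)) → V3 := fun x => ![p (Sum.inr x) 0 - P x.1 0 * (p (Sum.inr x) 2 / P x.1 2),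
    p (Sum.inr x) 1 - P x.1 1 * (p (Sum.inr x) 2 / P x.1 2), τ * (p (Sum.inr x) 2 / P x.1 2)] with hζ
  set y' : ((ι ⊕ (Σ l, Fin (s l))) × Fin 3) ⊕ ((Λ × Fin 3) ⊕ Unit) → ℂ :=
    Sum.elim (fun z => Sum.elim (fun i => p (Sum.inl i)) ζ z.1 z.2) e with hy'
  have hy : AlgebraicIndependent ℚ y' := by
    apply algInd_exchange he
    set S := Algebra.adjoin ℚ (Set.range y') with hS
    have hgen : ∀ s, y' s ∈ S := fun s => Algebra.subset_adjoin ⟨s, rfl⟩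
    have hmem : ∀ a ∈ S, IsAlgebraic S a := fun a ha => isAlgebraic_algebraMap (⟨a, ha⟩ : S)
    rintro (⟨i | x, k⟩ | z)
    · exact hmem _ (hgen (Sum.inl (Sum.inl i, k)))
    · have hζS : ∀ k, IsAlgebraic S (ζ x k) := fun k => hmem _ (hgen (Sum.inl (Sum.inr x, k)))
      have hPS : ∀ k, IsAlgebraic S (P x.1 k) := fun k => hmem _ (hgen (Sum.inr (Sum.inl (x.1, k))))
      have hτS : IsAlgebraic S τ⁻¹ := alg_inv (hgen (Sum.inr (Sum.inr ())))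
      have h2 : IsAlgebraic S (ζ x 2 * τ⁻¹) := (hζS 2).mul hτS
      have hz2 : ζ x 2 * τ⁻¹ = p (Sum.inr x) 2 / P x.1 2 := by
        change τ * (p (Sum.inr x) 2 / P x.1 2) * τ⁻¹ = _
        field_simp
      rw [hz2] at h2
      change IsAlgebraic S (p (Sum.inr x) k)
      fin_cases k
      · have h3 := (hζS 0).add ((hPS 0).mul h2)
        have h4 : ζ x 0 + P x.1 0 * (p (Sum.inr x) 2 / P x.1 2) = p (Sum.inr x) 0 := by
          change p (Sum.inr x) 0 - P x.1 0 * (p (Sum.inr x) 2 / P x.1 2) +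
            P x.1 0 * (p (Sum.inr x) 2 / P x.1 2) = p (Sum.inr x) 0
          ring
        rw [h4] at h3
        exact h3
      · have h3 := (hζS 1).add ((hPS 1).mul h2)
        have h4 : ζ x 1 + P x.1 1 * (p (Sum.inr x) 2 / P x.1 2) = p (Sum.inr x) 1 := by
          change p (Sum.inr x) 1 - P x.1 1 * (p (Sum.inr x) 2 / P x.1 2) +
            P x.1 1 * (p (Sum.inr x) 2 / P x.1 2) = p (Sum.inr x) 1
          ring
        rw [h4] at h3
        exact h3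
      · have h3 := h2.mul (hPS 2)
        have h4 : p (Sum.inr x) 2 / P x.1 2 * P x.1 2 = p (Sum.inr x) 2 :=
          div_mul_cancel₀ _ (hP2 x.1)
        rw [h4] at h3
        exact h3
    · exact hmem _ (hgen (Sum.inr z))
  obtain ⟨ρ, hρ⟩ := exists_place y' hy (Sum.elim (fun z => Sum.elim p' ζ' z.1 z.2)
    (Sum.elim (fun z => P' z.1 z.2) (fun _ => 0)))
  refine ⟨ρ, τ, P, ζ, hτ0, hρ (Sum.inr (Sum.inr ())), hP2,
    fun i k => hρ (Sum.inl (Sum.inl i, k)), fun l k => hρ (Sum.inr (Sum.inl (l, k))),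
    fun x k => hρ (Sum.inl (Sum.inr x, k)), fun x => ?_⟩
  have h2 := hP2 x.1
  funext k
  unfold tv scv
  fin_cases k
  · change p (Sum.inr x) 0 = p (Sum.inr x) 0 - P x.1 0 * (p (Sum.inr x) 2 / P x.1 2) +
      P x.1 0 * (τ * (p (Sum.inr x) 2 / P x.1 2) / τ)
    field_simp
    ring
  · change p (Sum.inr x) 1 = p (Sum.inr x) 1 - P x.1 1 * (p (Sum.inr x) 2 / P x.1 2) +
      P x.1 1 * (τ * (p (Sum.inr x) 2 / P x.1 2) / τ)
    field_simp
    ring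
  · change p (Sum.inr x) 2 = P x.1 2 * (τ * (p (Sum.inr x) 2 / P x.1 2) / τ)
    field_simp

/-- the place which turns the clusters `ζ` into flags; the other coordinates go anywhere -/
theorem exists_flag_place {ι Λ κ : Type} [Finite ι] [Finite κ] [Fintype Λ] {s : Λ → ℕ}
    {p : ι → V3} {ζ : (Σ l, Fin (s l)) → V3} {e : κ → ℂ} (h : Ind (Sum.elim p ζ) e)
    (p' : ι → V3) (e' : κ → ℂ) (c' : Λ → ℂ) (ζ' : (Σ l, Fin (s l)) → V3) :
    ∃ (ρ : Pl) (t : ℂ) (c : Λ → ℂ) (ξ : (Σ l, Fin (s l)) → V3), t ≠ 0 ∧ ρ.L t 0 ∧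
      (∀ i k, ρ.L (p i k) (p' i k)) ∧ (∀ k, ρ.L (e k) (e' k)) ∧ (∀ l, ρ.L (c l) (c' l)) ∧
      (∀ x k, ρ.L (ξ x k) (ζ' x k)) ∧
      ∀ x, ξ x = ![ζ x 0 - c x.1 * ζ x 1, t * ζ x 1, ζ x 2] := by
  have h₁ : AlgebraicIndependent ℚ
    (Sum.elim (fun z : (ι ⊕ (Σ l, Fin (s l))) × Fin 3 => Sum.elim p ζ z.1 z.2) e) := h
  obtain ⟨g, hg⟩ := algInd_extend (β := Λ ⊕ Unit) h₁
  set c : Λ → ℂ := fun l => g (Sum.inl l) with hc
  set t : ℂ := g (Sum.inr ()) with ht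
  have ht0 : t ≠ 0 := hg.ne_zero (Sum.inr (Sum.inr ()))
  set ξ : (Σ l, Fin (s l)) → V3 := fun x => ![ζ x 0 - c x.1 * ζ x 1, t * ζ x 1, ζ x 2] with hξ
  set y' : ((((ι ⊕ (Σ l, Fin (s l))) × Fin 3) ⊕ κ) ⊕ (Λ ⊕ Unit)) → ℂ :=
    Sum.elim (Sum.elim (fun z => Sum.elim p ξ z.1 z.2) e) g with hy'
  have hy : AlgebraicIndependent ℚ y' := by
    apply algInd_exchange hg
    set S := Algebra.adjoin ℚ (Set.range y') with hS
    have hgen : ∀ s, y' s ∈ S := fun s => Algebra.subset_adjoin ⟨s, rfl⟩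
    have hmem : ∀ a ∈ S, IsAlgebraic S a := fun a ha => isAlgebraic_algebraMap (⟨a, ha⟩ : S)
    rintro ((⟨i | x, k⟩ | z) | z)
    · exact hmem _ (hgen (Sum.inl (Sum.inl (Sum.inl i, k))))
    · have hξS : ∀ k, IsAlgebraic S (ξ x k) :=
        fun k => hmem _ (hgen (Sum.inl (Sum.inl (Sum.inr x, k))))
      have hcS : IsAlgebraic S (c x.1) := hmem _ (hgen (Sum.inr (Sum.inl x.1)))
      have htS : IsAlgebraic S t⁻¹ := alg_inv (hgen (Sum.inr (Sum.inr ())))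
      have h1 : IsAlgebraic S (ξ x 1 * t⁻¹) := (hξS 1).mul htS
      have hz1 : ξ x 1 * t⁻¹ = ζ x 1 := by
        change t * ζ x 1 * t⁻¹ = _
        field_simp
      rw [hz1] at h1
      change IsAlgebraic S (ζ x k)
      fin_cases k
      · have h3 := (hξS 0).add (hcS.mul h1)
        have h4 : ξ x 0 + c x.1 * ζ x 1 = ζ x 0 := by
          change ζ x 0 - c x.1 * ζ x 1 + c x.1 * ζ x 1 = ζ x 0
          ring
        rw [h4] at h3
        exact h3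
      · exact h1
      · exact hξS 2
    · exact hmem _ (hgen (Sum.inl (Sum.inr z)))
    · exact hmem _ (hgen (Sum.inr z))
  obtain ⟨ρ, hρ⟩ := exists_place y' hy (Sum.elim (Sum.elim (fun z => Sum.elim p' ζ' z.1 z.2) e')
    (Sum.elim c' (fun _ => 0)))
  exact ⟨ρ, t, c, ξ, ht0, hρ (Sum.inr (Sum.inr ())),
    fun i k => hρ (Sum.inl (Sum.inl (Sum.inl i, k))), fun k => hρ (Sum.inl (Sum.inr k)),
    fun l => hρ (Sum.inr (Sum.inl l)), fun x k => hρ (Sum.inl (Sum.inl (Sum.inr x, k))),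
    fun x => rfl⟩

end Pool.Agent.Work.MP_0421d9_ag.ZC
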