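import Pool.Agent.Work.MP_0421d9_ag.ZCLead

/-!
Forms with prescribed multiplicities and prescribed leading part (helper20).
-/

set_option linter.unusedSectionVars false

namespace Pool.Agent.Work.MP_0421d9_ag.ZC

open MvPolynomial Module SM

/-- a line through `Q` but not through `q` -/
theorem exists_line_ne {Q q : V3} (h : cr Q q ≠ 0) :
    ∃ v : V3, eval Q (lin v) = 0 ∧ eval q (lin v) ≠ 0 := by
  have h1 : ∃ i, cr Q q i ≠ 0 := by
    by_contra hcon
    push Not at hcon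
    exact h (funext hcon)
  obtain ⟨i, hi⟩ := h1
  fin_cases i
  · have h0 : Q 1 * q 2 - Q 2 * q 1 ≠ 0 := hi
    refine ⟨![0, -(Q 2), Q 1], ?_, fun h2 => h0 ?_⟩
    · rw [eval_lin, Fin.sum_univ_three]
      change 0 * Q 0 + -(Q 2) * Q 1 + Q 1 * Q 2 = 0
      ring
    · rw [eval_lin, Fin.sum_univ_three] at h2
      change 0 * q 0 + -(Q 2) * q 1 + Q 1 * q 2 = 0 at h2
      linear_combination h2
  · have h0 : Q 2 * q 0 - Q 0 * q 2 ≠ 0 := hi
    refine ⟨![Q 2, 0, -(Q 0)], ?_, fun h2 => h0 ?_⟩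
    · rw [eval_lin, Fin.sum_univ_three]
      change Q 2 * Q 0 + 0 * Q 1 + -(Q 0) * Q 2 = 0
      ring
    · rw [eval_lin, Fin.sum_univ_three] at h2
      change Q 2 * q 0 + 0 * q 1 + -(Q 0) * q 2 = 0 at h2
      linear_combination h2
  · have h0 : Q 0 * q 1 - Q 1 * q 0 ≠ 0 := hi
    refine ⟨![-(Q 1), Q 0, 0], ?_, fun h2 => h0 ?_⟩
    · rw [eval_lin, Fin.sum_univ_three]
      change -(Q 1) * Q 0 + Q 0 * Q 1 + 0 * Q 2 = 0
      ring
    · rw [eval_lin, Fin.sum_univ_three] at h2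
      change -(Q 1) * q 0 + Q 0 * q 1 + 0 * q 2 = 0 at h2
      linear_combination h2

theorem exists_lin_ne {q : V3} (hq : q ≠ 0) : ∃ v : V3, eval q (lin v) ≠ 0 := by
  have h1 : ∃ i, q i ≠ 0 := by
    by_contra hcon
    push Not at hcon
    exact hq (funext hcon)
  obtain ⟨i, hi⟩ := h1
  refine ⟨Pi.single i 1, ?_⟩
  rw [eval_lin]
  simpa [Pi.single_apply] using hi

/-- a form with given multiplicities at some points and not vanishing at another one -/
theorem exists_form_ne {κ : Type} [Fintype κ] {Q : κ → V3} {a : κ → ℕ} {q : V3} (hq : q ≠ 0)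
    (hQ : ∀ j, cr (Q j) q ≠ 0) {d : ℕ} (hd : ∑ j, a j ≤ d) :
    ∃ H : R3, H.IsHomogeneous d ∧ (∀ j, VanishTo H (Q j) (a j)) ∧ eval q H ≠ 0 := by
  classical
  choose v hv1 hv2 using fun j => exists_line_ne (hQ j)
  obtain ⟨w, hw⟩ := exists_lin_ne hq
  have hpow : ∀ j, ((lin (v j)) ^ a j).IsHomogeneous (a j) := fun j => by
    have := (lin_isHomogeneous (v j)).pow (a j)
    rwa [one_mul] at this
  refine ⟨(∏ j, lin (v j) ^ a j) * lin w ^ (d - ∑ j, a j), ?_, fun j => ?_, ?_⟩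
  · have h1 := IsHomogeneous.prod Finset.univ (fun j => lin (v j) ^ a j) a (fun j _ => hpow j)
    have h2 := (lin_isHomogeneous w).pow (d - ∑ j, a j)
    have h3 := h1.mul h2
    rw [one_mul, Nat.add_sub_cancel' hd] at h3
    exact h3
  · rw [← Finset.mul_prod_erase Finset.univ (fun j => lin (v j) ^ a j) (Finset.mem_univ j),
      mul_assoc]
    have h1 : VanishTo (lin (v j) ^ a j) (Q j) (a j) := vanishTo_pow (hv1 j) (a j)
    have h2 := vanishTo_mul h1 (vanishTo_zero
      ((∏ x ∈ Finset.univ.erase j, lin (v x) ^ a x) * lin w ^ (d - ∑ j, a j)) (Q j))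
    rwa [add_zero] at h2
  · rw [map_mul, map_prod, map_pow]
    refine mul_ne_zero (Finset.prod_ne_zero_iff.mpr fun j _ => ?_) (pow_ne_zero _ hw)
    rw [map_pow]
    exact pow_ne_zero _ (hv2 j)

theorem cz_emb_zero (β : R2) : cz 0 (emb β) = β := by
  refine R2_ext fun a b => ?_
  rw [coeff_cz, coeff_emb]
  rfl

theorem cz_emb_succ (β : R2) (j : ℕ) : cz (j + 1) (emb β) = 0 := by
  refine R2_ext fun a b => ?_
  rw [coeff_cz, coeff_emb, coeff_zero]
  exact if_neg (Nat.succ_ne_zero j)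

theorem emb_isHomogeneous {P : R2} {n : ℕ} (h : P.IsHomogeneous n) : (emb P).IsHomogeneous n := by
  unfold emb
  have h1 := h.aeval (![X 0, X 1] : Fin 2 → R3) (n := 1) (fun i => by
    fin_cases i
    · exact isHomogeneous_X _ _
    · exact isHomogeneous_X _ _)
  rwa [one_mul] at h1

theorem vanishTo_const_mul {F : R3} {a : V3} {m : ℕ} (h : VanishTo F a m) (c : ℂ) :
    VanishTo (C c * F) a m := by
  have h1 := vanishTo_mul (vanishTo_zero (C c) a) h
  rwa [zero_add] at h1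

/-- a form with given multiplicities at some points and given leading part at another one -/
theorem exists_form {κ : Type} [Fintype κ] {Q : κ → V3} {a : κ → ℕ} {P : V3} (hP : P 2 ≠ 0)
    (hQ : ∀ j, cr (Q j) P ≠ 0) {k d : ℕ} (hd : ∑ j, a j + k ≤ d) {β : R2}
    (hβ : β.IsHomogeneous k) :
    ∃ H : R3, H.IsHomogeneous d ∧ (∀ j, VanishTo H (Q j) (a j)) ∧ VanishTo H P k ∧
      ld d k P H = β := by
  have hP0 : P ≠ 0 := fun h => hP (by rw [h]; rfl)
  have hd' : ∑ j, a j ≤ d - k := by omega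
  obtain ⟨F, hF, hFQ, hFP⟩ := exists_form_ne hP0 hQ hd'
  obtain ⟨K, hK, hKβ⟩ := exists_tr_eq hP (emb_isHomogeneous hβ)
  have hKld : ∀ j ≤ k, ld k j P K = if j = k then β else 0 := by
    intro j hj
    rw [ld_apply, hKβ]
    split_ifs with h
    · rw [h, Nat.sub_self, cz_emb_zero]
    · obtain ⟨e, he⟩ : ∃ e, k - j = e + 1 := ⟨k - j - 1, by omega⟩
      rw [he, cz_emb_succ]
  have hKv : VanishTo K P k := by
    rw [vanishTo_iff_ld hK hP (by omega)]
    intro j hj
    rw [hKld j hj.le, if_neg hj.ne]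
  have hdk : d - k + k = d := by omega
  refine ⟨C (eval P F)⁻¹ * (F * K), ?_, fun j => ?_, ?_, ?_⟩
  · have h := (hF.mul hK).C_mul (eval P F)⁻¹
    rwa [hdk] at h
  · refine vanishTo_const_mul ?_ _
    have h := vanishTo_mul (hFQ j) (vanishTo_zero K (Q j))
    rwa [add_zero] at h
  · refine vanishTo_const_mul ?_ _
    have h := vanishTo_mul (vanishTo_zero F P) hKv
    rwa [zero_add] at h
  · have h1 := ld_mul hF hK hP le_rfl hKv
    rw [hdk, hKld k le_rfl, if_pos rfl] at h1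
    rw [← smul_eq_C_mul, map_smul, h1, smul_eq_C_mul, ← mul_assoc, ← C_mul, inv_mul_cancel₀ hFP,
      C_1, one_mul]

theorem iterate_pderiv_flag (c : ℂ) (i j : ℕ) : ∀ n : ℕ,
    (pderiv 0)^[n] ((X 0 - C c * X 1) ^ i * X 1 ^ j : R2) =
      C ((i.descFactorial n : ℕ) : ℂ) * ((X 0 - C c * X 1) ^ (i - n) * X 1 ^ j) := by
  intro n
  induction n with
  | zero => simp
  | succ n ih =>
    rw [Function.iterate_succ_apply', ih]
    have h1 : pderiv 0 (X 1 ^ j : R2) = 0 := by
      rw [pderiv_pow, pderiv_X_of_ne (by decide), mul_zero]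
    have h2 : pderiv 0 (X 0 - C c * X 1 : R2) = 1 := by
      rw [map_sub, pderiv_X_self, pderiv_C_mul, pderiv_X_of_ne (by decide), mul_zero, sub_zero]
    rw [pderiv_C_mul, pderiv_mul, h1, mul_zero, add_zero, pderiv_pow, h2, mul_one,
      Nat.descFactorial_succ, Nat.sub_sub]
    push_cast
    rw [C_mul, ← map_natCast (C : ℂ →+* R2) (i - n)]
    ring

/-- the dual basis of the flag functionals -/
theorem exists_flag_form {κ : Type} [Fintype κ] {Q : κ → V3} {a : κ → ℕ} {P : V3} (hP : P 2 ≠ 0)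
    (hQ : ∀ j, cr (Q j) P ≠ 0) {k d : ℕ} (hd : ∑ j, a j + k ≤ d) (c : ℂ) {i : ℕ} (hi : i ≤ k) :
    ∃ H : R3, H.IsHomogeneous d ∧ (∀ j, VanishTo H (Q j) (a j)) ∧ VanishTo H P k ∧
      ∀ i', fd d k P c i' H = if i' = i then 1 else 0 := by
  have hβ : (C ((i.factorial : ℂ)⁻¹) * ((X 0 - C c * X 1) ^ i * X 1 ^ (k - i)) : R2).IsHomogeneous
      k := by
    have h1 : (X 0 - C c * X 1 : R2).IsHomogeneous 1 :=
      (isHomogeneous_X ℂ 0).sub ((isHomogeneous_X ℂ 1).C_mul c)
    have h2 := ((h1.pow i).mul ((isHomogeneous_X ℂ (1 : Fin 2)).pow (k - i))).C_mul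
      ((i.factorial : ℂ)⁻¹)
    rwa [one_mul, one_mul, Nat.add_sub_cancel' hi] at h2
  obtain ⟨H, h1, h2, h3, h4⟩ := exists_form hP hQ hd hβ
  refine ⟨H, h1, h2, h3, fun i' => ?_⟩
  rw [fd_eq, h4]
  have h5 : (pderiv 0)^[i'] (C ((i.factorial : ℂ)⁻¹) * ((X 0 - C c * X 1) ^ i * X 1 ^ (k - i)) :
      R2) = C ((i.factorial : ℂ)⁻¹) *
        (pderiv 0)^[i'] ((X 0 - C c * X 1) ^ i * X 1 ^ (k - i) : R2) := by
    generalize ((X 0 - C c * X 1) ^ i * X 1 ^ (k - i) : R2) = G
    induction i' with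
    | zero => rfl
    | succ n ih => rw [Function.iterate_succ_apply', ih, pderiv_C_mul,
        Function.iterate_succ_apply']
  rw [h5, iterate_pderiv_flag, map_mul, map_mul, map_mul, map_pow, map_pow, map_sub, map_mul,
    eval_C, eval_C, eval_C, eval_X, eval_X]
  change (i.factorial : ℂ)⁻¹ * (((i.descFactorial i' : ℕ) : ℂ) * ((c - c * 1) ^ (i - i') *
    1 ^ (k - i))) = _
  rw [mul_one, sub_self, one_pow, mul_one]
  have hf : (i.factorial : ℂ) ≠ 0 := by exact_mod_cast i.factorial_ne_zero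
  split_ifs with h
  · rw [h, Nat.sub_self, pow_zero, mul_one, Nat.descFactorial_self, inv_mul_cancel₀ hf]
  · rcases lt_or_gt_of_ne h with h6 | h6
    · rw [zero_pow (by omega), mul_zero, mul_zero]
    · rw [Nat.descFactorial_eq_zero_iff_lt.mpr h6, Nat.cast_zero, zero_mul, mul_zero]

/-- surjectivity of the leading part from the dimensions (`N`) -/
theorem exists_of_NSp {ι : Type} [Fintype ι] [DecidableEq ι] {M d : ℕ} (hN : NSp M d)
    {p : ι → V3} (hp : GenericPoints p) {y : ι → ℕ} (i : ι) (hy : ∀ j, y j ≤ M)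
    (hyi : y i + 1 ≤ M) (hd : y i ≤ d)
    (hχ : ∑ j, (y j + 1).choose 2 + (y i + 1) ≤ (d + 2).choose 2) {β : R2}
    (hβ : β.IsHomogeneous (y i)) : ∃ H ∈ linSys d p y, ld d (y i) (p i) H = β := by
  have hpi : p i 2 ≠ 0 := AlgebraicIndependent.ne_zero hp (i, 2)
  obtain ⟨n, hn⟩ : ∃ n, n = y i := ⟨_, rfl⟩
  rw [← hn] at hyi hd hχ hβ ⊢
  obtain ⟨y', hy'⟩ : ∃ y' : ι → ℕ, y' = Function.update y i (n + 1) := ⟨_, rfl⟩
  have hy'i : y' i = n + 1 := by rw [hy', Function.update_self]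
  have hy'j : ∀ j ≠ i, y' j = y j := fun j hj => by rw [hy', Function.update_of_ne hj]
  have hy'M : ∀ j, y' j ≤ M := by
    intro j
    rcases eq_or_ne j i with rfl | hj
    · rw [hy'i]; exact hyi
    · rw [hy'j j hj]; exact hy j
  have hle : linSys d p y' ≤ linSys d p y := by
    rintro F ⟨hF, hF'⟩
    refine ⟨hF, fun j => (hF' j).mono ?_⟩
    rcases eq_or_ne j i with rfl | hj
    · rw [hy'i, ← hn]; exact Nat.le_succ _
    · rw [hy'j j hj]
  have hfin : Module.Finite ℂ (linSys d p y) :=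
    Submodule.finiteDimensional_of_le (linSys_le d p _)
  obtain ⟨φ, hφ⟩ : ∃ φ : R3 →ₗ[ℂ] (Fin (n + 1) → ℂ), ∀ F (a : Fin (n + 1)),
      φ F a = coeff (e2 a (n - a)) (ld d n (p i) F) :=
    ⟨LinearMap.pi fun a => (lcoeff ℂ (e2 a (n - a))).comp (ld d n (p i)), fun F a => rfl⟩
  have hext : ∀ F ∈ linSys d p y, ∀ β' : R2, β'.IsHomogeneous n →
      (∀ a, φ F a = coeff (e2 (a : Fin (n + 1)) (n - a)) β') → ld d n (p i) F = β' := by
    intro F hF β' hβ' h
    have hl := ld_hom hF.1 hd (p i)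
    refine R2_ext fun a b => ?_
    by_cases hab : a + b = n
    · have h1 := h ⟨a, by omega⟩
      rw [hφ] at h1
      have h2 : n - a = b := by omega
      rw [← h2]
      exact h1
    · have h3 : (e2 a b).degree ≠ n := by
        rw [Finsupp.degree_eq_sum, Fin.sum_univ_two]
        exact hab
      rw [hl.coeff_eq_zero h3, hβ'.coeff_eq_zero h3]
  have hker : LinearMap.ker (φ.domRestrict (linSys d p y)) =
      (linSys d p y').comap (linSys d p y).subtype := by
    ext ⟨F, hF⟩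
    rw [LinearMap.mem_ker, Submodule.mem_comap]
    change φ F = 0 ↔ F ∈ linSys d p y'
    have hFi := hF.2 i
    constructor
    · intro h
      have h1 := hext F hF 0 (isHomogeneous_zero _ _ _) (fun a => by rw [h]; simp)
      refine ⟨hF.1, fun j => ?_⟩
      rcases eq_or_ne j i with rfl | hj
      · rw [hy'i, vanishTo_iff_ld hF.1 hpi (by omega)]
        intro k hk
        rcases Nat.lt_succ_iff_lt_or_eq.mp hk with hk | rfl
        · rw [← hn] at hFi
          exact (vanishTo_iff_ld hF.1 hpi (by omega)).mp hFi k hk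
        · exact h1
      · rw [hy'j j hj]
        exact hF.2 j
    · intro h
      have h1 := h.2 i
      rw [hy'i, vanishTo_iff_ld hF.1 hpi (by omega)] at h1
      funext a
      rw [hφ, h1 n (Nat.lt_succ_self n)]
      rfl
  have hrk := LinearMap.finrank_range_add_finrank_ker (φ.domRestrict (linSys d p y))
  rw [hker, (Submodule.comapSubtypeEquivOfLe hle).finrank_eq, hN.finrank hp hy,
    hN.finrank hp hy'M] at hrk
  have hsum : ∑ j, (y' j + 1).choose 2 = ∑ j, (y j + 1).choose 2 + (n + 1) := by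
    rw [← Finset.add_sum_erase Finset.univ _ (Finset.mem_univ i),
      ← Finset.add_sum_erase Finset.univ (fun j => (y j + 1).choose 2) (Finset.mem_univ i), hy'i,
      ← hn]
    have h1 : ∑ x ∈ Finset.univ.erase i, (y' x + 1).choose 2 =
        ∑ x ∈ Finset.univ.erase i, (y x + 1).choose 2 :=
      Finset.sum_congr rfl fun x hx => by rw [hy'j x (Finset.ne_of_mem_erase hx)]
    have h2 : (n + 1 + 1).choose 2 = (n + 1).choose 2 + (n + 1) := by
      rw [Nat.choose_succ_succ' (n + 1) 1, Nat.choose_one_right, add_comm]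
    rw [h1, h2]
    omega
  have hrange : LinearMap.range (φ.domRestrict (linSys d p y)) = ⊤ := by
    refine Submodule.eq_top_of_finrank_eq ?_
    rw [Module.finrank_fin_fun]
    omega
  obtain ⟨⟨H, hH⟩, hHβ⟩ := LinearMap.range_eq_top.mp hrange
    (fun a => coeff (e2 (a : Fin (n + 1)) (n - a)) β)
  refine ⟨H, hH, hext H hH β hβ fun a => ?_⟩
  exact congrFun hHβ a

end Pool.Agent.Work.MP_0421d9_ag.ZC
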