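import Pool.Agent.Work.MP_0421d9_ag.ZCChain
import Pool.Agent.Work.MP_0421d9_ag.ZCForm

/-!
Collisions of generic points: base point freeness.
-/

set_option linter.unusedSectionVars false

namespace Pool.Agent.Work.MP_0421d9_ag.ZC

open MvPolynomial Module SM

/-- the pairs `(H, H)` of forms of degree `d` -/
noncomputable def diagB (d : ℕ) : Submodule ℂ (R3 × MvPolynomial (Fin 3) ℂ) where
  carrier := {H | H.1 = H.2 ∧ H.1.IsHomogeneous d}
  zero_mem' := ⟨rfl, isHomogeneous_zero _ _ _⟩
  add_mem' := fun {x y} hx hy => ⟨by rw [Prod.fst_add, Prod.snd_add, hx.1, hy.1],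
    by rw [Prod.fst_add]; exact hx.2.add hy.2⟩
  smul_mem' := fun a x hx => ⟨by rw [Prod.smul_fst, Prod.smul_snd, hx.1], by
    rw [Prod.smul_fst, smul_eq_C_mul]
    exact hx.2.C_mul a⟩

theorem mem_diagB {d : ℕ} {H : R3 × MvPolynomial (Fin 3) ℂ} :
    H ∈ diagB d ↔ H.1 = H.2 ∧ H.1.IsHomogeneous d := Iff.rfl

/-- the derivations which move one of the first two coordinates of one point -/
theorem exists_movers {ι : Type} [DecidableEq ι] {p : ι → V3} (hp : GenericPoints p) :
    ∃ E : ι → Fin 2 → Derivation ℚ ℂ ℂ, (∀ i k j, E i k (p j 2) = 0) ∧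
      (∀ i (k l : Fin 2), E i k (p i l.castSucc) = if k = l then 1 else 0) ∧
      ∀ i k j (l : Fin 2), i ≠ j → E i k (p j l.castSucc) = 0 := by
  have h : ∀ (i : ι) (k : Fin 2), ∃ D : Derivation ℚ ℂ ℂ, ∀ z : ι × Fin 3,
      D (p z.1 z.2) = if z = (i, k.castSucc) then 1 else 0 := by
    intro i k
    obtain ⟨D, hD⟩ := exists_derivation _ hp (fun z => if z = (i, k.castSucc) then 1 else 0)
    exact ⟨D, hD⟩
  choose E hE using h
  refine ⟨E, fun i k j => ?_, fun i k l => ?_, fun i k j l hij => ?_⟩
  · rw [hE i k (j, 2), if_neg]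
    intro h1
    have h2 := congrArg Prod.snd h1
    revert h2
    fin_cases k
    · exact (by decide : ¬ ((2 : Fin 3) = (0 : Fin 2).castSucc))
    · exact (by decide : ¬ ((2 : Fin 3) = (1 : Fin 2).castSucc))
  · rw [hE i k (i, l.castSucc)]
    by_cases h : k = l
    · rw [if_pos h, if_pos (by rw [h])]
    · rw [if_neg h, if_neg]
      intro h1
      exact h (Fin.castSucc_injective 2 (congrArg Prod.snd h1)).symm
  · rw [hE i k (j, l.castSucc), if_neg]
    intro h1
    exact hij (congrArg Prod.fst h1).symm

theorem zc_choose_succ (n : ℕ) : (n + 1 + 1).choose 2 = (n + 1).choose 2 + (n + 1) := by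
  rw [Nat.choose_succ_succ' (n + 1) 1, Nat.choose_one_right]
  exact Nat.add_comm _ _

/-- the number of conditions when the multiplicities at two points are changed -/
theorem bump_count {ι : Type} [Fintype ι] [DecidableEq ι] {M : ℕ} {m : ι → ℕ}
    (hm : ∀ i, m i + 1 ≤ M) (i i' : ι) {j : ℕ} (hj : j ≤ m i) :
    ∑ x, ((if x = i then j else m x + if x = i' then 1 else 0) + 1).choose 2 + (j + 1) ≤
      ∑ x, (m x + 1).choose 2 + 2 * M := by
  have h1 : ∀ x, ((if x = i then j else m x + if x = i' then 1 else 0) + 1).choose 2 +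
      (if x = i then j + 1 else 0) ≤
      (m x + 1).choose 2 + ((if x = i then m x + 1 else 0) + (if x = i' then m x + 1 else 0)) := by
    intro x
    by_cases hx : x = i
    · rw [if_pos hx, if_pos hx, if_pos hx]
      have h2 : (j + 1).choose 2 + (j + 1) = (j + 1 + 1).choose 2 := (zc_choose_succ j).symm
      have h3 : (j + 1 + 1).choose 2 ≤ (m x + 1 + 1).choose 2 := by
        apply Nat.choose_le_choose
        rw [hx]
        omega
      have h4 := zc_choose_succ (m x)
      omega
    · rw [if_neg hx, if_neg hx, if_neg hx]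
      by_cases hx' : x = i'
      · rw [if_pos hx', if_pos hx']
        have h4 := zc_choose_succ (m x)
        omega
      · rw [if_neg hx', if_neg hx']
  have h2 := Finset.sum_le_sum (fun x (_ : x ∈ Finset.univ) => h1 x)
  rw [Finset.sum_add_distrib, Finset.sum_add_distrib, Finset.sum_add_distrib,
    Finset.sum_ite_eq' Finset.univ i (fun _ => j + 1), if_pos (Finset.mem_univ i),
    Finset.sum_ite_eq' Finset.univ i (fun x => m x + 1), if_pos (Finset.mem_univ i),
    Finset.sum_ite_eq' Finset.univ i' (fun x => m x + 1), if_pos (Finset.mem_univ i')] at h2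
  have h3 := hm i
  have h4 := hm i'
  omega

/-- base point freeness -/
theorem bpf_point {ι : Type} [Fintype ι] [DecidableEq ι] {M d : ℕ} (hN : NSp M d) {p : ι → V3}
    (hp : GenericPoints p) {m : ι → ℕ} (hm : ∀ i, m i + 1 ≤ M) (hd : 2 * M ≤ d)
    (hχ : ∑ i, (m i + 1).choose 2 + 2 * M ≤ (d + 2).choose 2) {q : V3} (hq : q ≠ 0)
    (hqp : ∀ i, cr (p i) q ≠ 0) : ∃ G ∈ linSys d p m, eval q G ≠ 0 := by
  classical
  by_contra hcon
  push Not at hcon
  obtain ⟨E, hE2, hEp, hEp'⟩ := exists_movers hp
  have S : Chn (Λ := Empty) 3 d d p m (fun l => l.elim) (diagB d) (fun l => l.elim) E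
      (fun l => l.elim) :=
    { hd := fun i => by have := hm i; omega
      hp := fun i => coord_ne_zero hp i 2
      hom1 := fun H hH => hH.2
      hom2 := fun H hH => by
        rw [← hH.1]
        exact hH.2
      E2 := hE2
      Ep := hEp
      Ep' := hEp'
      Dp := fun l => l.elim
      stE := fun i k H hH => ⟨by
        change cD (E i k) H.1 = cD (E i k) H.2
        rw [hH.1], cD_isHomogeneous (E i k) hH.2⟩
      stD := fun l => l.elim
      lawE := fun i k l => l.elim
      lawD := fun l => l.elim
      lawD' := fun l => l.elim }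
  refine S.bpf le_rfl ?_ hq ?_ ?_
  · intro i i' I _ j hj1 hjm β hβ
    obtain ⟨H, hH, hld⟩ := exists_of_NSp hN hp
      (y := fun x => if x = i then j else m x + if x = i' then 1 else 0) i
      (fun x => by
        have h1 := hm x
        have h2 := hm i
        by_cases hx : x = i
        · simp only [hx, if_true]
          omega
        · simp only [hx, if_false]
          split_ifs <;> omega)
      (by
        simp only [if_true]
        have := hm i
        omega)
      (by
        simp only [if_true]
        have := hm i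
        omega)
      (by
        simp only [if_true]
        exact (bump_count hm i i' hjm).trans hχ) (β := β) (by
        simp only [if_true]
        exact hβ)
    simp only [if_true] at hld
    refine ⟨(H, H), ⟨rfl, hH.1⟩, ?_, hld, fun x hx => ?_, fun l => l.elim⟩
    · have := hH.2 i
      simpa using this
    · have := hH.2 x
      simp only [hx, if_false] at this
      exact this
  · intro H hH
    rw [evL_apply, ← hH.1.1]
    exact hcon _ hH.2
  · intro T hT
    obtain ⟨H, hH, hv, hne⟩ := exists_form_ne (κ := T) (Q := fun x => p x) (a := fun x => m x) hq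
      (fun x => hqp x) (d := d) (by
        have h1 : ∑ x : T, m x ≤ ∑ _x : T, M :=
          Finset.sum_le_sum (fun x _ => by have := hm x; omega)
        rw [Finset.sum_const, Finset.card_univ, Fintype.card_coe, smul_eq_mul] at h1
        have h2 : T.card * M ≤ 1 * M := Nat.mul_le_mul_right _ hT
        omega)
    exact ⟨(H, H), ⟨rfl, hH⟩, fun i hi => hv ⟨i, hi⟩, hne⟩

end Pool.Agent.Work.MP_0421d9_ag.ZC
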