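import Pool.Agent.Work.MP_0421d9_ag.ZCLead
import Pool.Agent.Work.MP_0421d9_ag.SFlag

/-!
Collisions of generic points: the chain argument.
-/

set_option linter.unusedSectionVars false
set_option linter.unusedVariables false

namespace Pool.Agent.Work.MP_0421d9_ag.ZC

open MvPolynomial Module SM

/-- coefficientwise derivative of a pair -/
noncomputable def ps {n : ℕ} (D : Derivation ℚ ℂ ℂ) (H : R3 × MvPolynomial (Fin n) ℂ) :
    R3 × MvPolynomial (Fin n) ℂ := (cD D H.1, cD D H.2)

/-- data for the chain argument: pairs `(H, Θ)` -/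
structure Chn {ι Λ : Type} (n N d : ℕ) (p : ι → V3) (m : ι → ℕ) (w : Λ → ℕ)
    (BB : Submodule ℂ (R3 × MvPolynomial (Fin n) ℂ)) (f : Λ → ℕ → R3 →ₗ[ℂ] ℂ)
    (E : ι → Fin 2 → Derivation ℚ ℂ ℂ) (D : Λ → Derivation ℚ ℂ ℂ) : Prop where
  hd : ∀ i, m i ≤ d
  hp : ∀ i, p i 2 ≠ 0
  hom1 : ∀ H ∈ BB, H.1.IsHomogeneous d
  hom2 : ∀ H ∈ BB, H.2.IsHomogeneous N
  E2 : ∀ i k j, E i k (p j 2) = 0
  Ep : ∀ i (k l : Fin 2), E i k (p i l.castSucc) = if k = l then 1 else 0
  Ep' : ∀ i k j (l : Fin 2), i ≠ j → E i k (p j l.castSucc) = 0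
  Dp : ∀ l j k, D l (p j k) = 0
  stE : ∀ i k, ∀ H ∈ BB, ps (E i k) H ∈ BB
  stD : ∀ l, ∀ H ∈ BB, ps (D l) H ∈ BB
  lawE : ∀ i k l j, ∀ H ∈ BB, E i k (f l j H.1) = f l j (cD (E i k) H.1)
  lawD : ∀ l j, ∀ H ∈ BB, D l (f l j H.1) = f l j (cD (D l) H.1) + f l (j + 1) H.1
  lawD' : ∀ l l' j, l ≠ l' → ∀ H ∈ BB, D l (f l' j H.1) = f l' j (cD (D l) H.1)

/-- the members with multiplicities `y` -/
noncomputable def VV {ι : Type} {n : ℕ} (d : ℕ) (p : ι → V3)
    (BB : Submodule ℂ (R3 × MvPolynomial (Fin n) ℂ)) (y : ι → ℕ) :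
    Submodule ℂ (R3 × MvPolynomial (Fin n) ℂ) :=
  BB ⊓ (linSys d p y).comap (LinearMap.fst ℂ _ _)

/-- linear dependence modulo a vector -/
theorem lin_dep {r n : ℕ} (hr : n ≤ r) (u : Fin r → (Fin n → ℂ)) {q : Fin n → ℂ} (hq : q ≠ 0) :
    ∃ a : Fin r → ℂ, a ≠ 0 ∧ ∃ κ : ℂ, ∑ i, a i • u i = κ • q := by
  let L : ((Fin r → ℂ) × ℂ) →ₗ[ℂ] (Fin n → ℂ) :=
    { toFun := fun x => ∑ i, x.1 i • u i - x.2 • q
      map_add' := fun x y => by
        simp only [Prod.fst_add, Prod.snd_add, Pi.add_apply, add_smul, Finset.sum_add_distrib]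
        abel
      map_smul' := fun c x => by
        simp only [Prod.smul_fst, Prod.smul_snd, Pi.smul_apply, smul_eq_mul, mul_smul,
          RingHom.id_apply, smul_sub, Finset.smul_sum] }
  have h1 : LinearMap.ker L ≠ ⊥ := by
    apply LinearMap.ker_ne_bot_of_finrank_lt
    rw [finrank_prod, Module.finrank_fintype_fun_eq_card, Module.finrank_fintype_fun_eq_card,
      Fintype.card_fin, Fintype.card_fin, Module.finrank_self]
    omega
  obtain ⟨x, hx, hx0⟩ := Submodule.exists_mem_ne_zero_of_ne_bot h1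
  have h2 : ∑ i, x.1 i • u i = x.2 • q := by
    have : L x = 0 := hx
    exact sub_eq_zero.mp this
  refine ⟨x.1, ?_, x.2, h2⟩
  intro h0
  apply hx0
  have h3 : x.2 • q = 0 := by
    rw [← h2, h0]
    simp
  have h4 : x.2 = 0 := (smul_eq_zero.mp h3).resolve_right hq
  exact Prod.ext h0 h4

/-- a functional which kills the derivatives in one direction is zero -/
theorem dir_surj {k : ℕ} {a b : ℂ} (hab : a ≠ 0 ∨ b ≠ 0) (L : R2 →ₗ[ℂ] ℂ)
    (h : ∀ β : R2, β.IsHomogeneous (k + 1) → L (C a * pderiv 0 β + C b * pderiv 1 β) = 0) :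
    ∀ γ : R2, γ.IsHomogeneous k → L γ = 0 := by
  have hmon : ∀ i j : ℕ, (X 0 ^ i * X 1 ^ j : R2).IsHomogeneous (i + j) := by
    intro i j
    have h1 := ((isHomogeneous_X ℂ (0 : Fin 2)).pow i).mul ((isHomogeneous_X ℂ (1 : Fin 2)).pow j)
    simpa using h1
  have hd0 : ∀ i j : ℕ, pderiv 0 (X 0 ^ i * X 1 ^ j : R2) = C (i : ℂ) * (X 0 ^ (i - 1) * X 1 ^ j) := by
    intro i j
    rw [pderiv_mul, pderiv_pow, pderiv_pow, pderiv_X_self, pderiv_X_of_ne (by decide)]
    simp
    ring
  have hd1 : ∀ i j : ℕ, pderiv 1 (X 0 ^ i * X 1 ^ j : R2) = C (j : ℂ) * (X 0 ^ i * X 1 ^ (j - 1)) := by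
    intro i j
    rw [pderiv_mul, pderiv_pow, pderiv_pow, pderiv_X_self, pderiv_X_of_ne (by decide)]
    simp
    ring
  have hL : ∀ (c : ℂ) (β : R2), L (C c * β) = c * L β := by
    intro c β
    rw [← smul_eq_C_mul, map_smul, smul_eq_mul]
  have hall : ∀ j i : ℕ, i + j = k → L (X 0 ^ i * X 1 ^ j) = 0 := by
    by_cases ha : a = 0
    · have hb : b ≠ 0 := hab.resolve_left (fun h => h ha)
      intro j i hij
      have h1 := h (X 0 ^ i * X 1 ^ (j + 1)) (by
        have := hmon i (j + 1)
        rwa [← add_assoc, hij] at this)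
      rw [ha, C_0, zero_mul, zero_add, hd1, Nat.add_sub_cancel, hL, hL] at h1
      have h2 : ((j + 1 : ℕ) : ℂ) ≠ 0 := by
        rw [Nat.cast_ne_zero]; omega
      exact (mul_eq_zero.mp ((mul_eq_zero.mp h1).resolve_left hb)).resolve_left h2
    · intro j
      induction j with
      | zero =>
        intro i hij
        have h1 := h (X 0 ^ (i + 1) * X 1 ^ 0) (by
          subst hij
          have := hmon (i + 1) 0
          simpa using this)
        rw [hd0, hd1, Nat.add_sub_cancel, map_add, hL, hL, hL, hL] at h1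
        rw [Nat.cast_zero, zero_mul, mul_zero, add_zero] at h1
        have h2 : ((i + 1 : ℕ) : ℂ) ≠ 0 := by
          rw [Nat.cast_ne_zero]; omega
        exact (mul_eq_zero.mp ((mul_eq_zero.mp h1).resolve_left ha)).resolve_left h2
      | succ j ih =>
        intro i hij
        have h1 := h (X 0 ^ (i + 1) * X 1 ^ (j + 1)) (by
          have := hmon (i + 1) (j + 1)
          rwa [(by omega : i + 1 + (j + 1) = k + 1)] at this)
        rw [hd0, hd1, Nat.add_sub_cancel, Nat.add_sub_cancel, map_add, hL, hL, hL, hL,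
          ih (i + 1) (by omega), mul_zero, mul_zero, add_zero] at h1
        have h2 : ((i + 1 : ℕ) : ℂ) ≠ 0 := by
          rw [Nat.cast_ne_zero]; omega
        exact (mul_eq_zero.mp ((mul_eq_zero.mp h1).resolve_left ha)).resolve_left h2
  intro γ hγ
  rw [γ.as_sum, map_sum]
  refine Finset.sum_eq_zero (fun α hα => ?_)
  have hα' : α = e2 (α 0) (α 1) := e2_eq.mpr ⟨rfl, rfl⟩
  rw [MvPolynomial.mem_support_iff] at hα
  have h1 := hγ hα
  have h2 : α 0 + α 1 = k := by
    rw [← h1, Finsupp.weight_apply, Finsupp.sum_fintype _ _ (fun _ => by simp),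
      Fin.sum_univ_two]
    simp
  have h3 : monomial α (coeff α γ) = C (coeff α γ) * (X 0 ^ α 0 * X 1 ^ α 1) := by
    conv_lhs => rw [hα']
    rw [mono2]
    congr 2
    rw [← hα']
  rw [h3, hL, hall _ _ h2, mul_zero]

/-- factorisation of functionals -/
theorem exists_factor {U W : Type} [AddCommGroup U] [Module ℂ U] [AddCommGroup W] [Module ℂ W]
    (V : Submodule ℂ U) (η : U →ₗ[ℂ] ℂ) (L : U →ₗ[ℂ] W) (h : ∀ x ∈ V, L x = 0 → η x = 0) :
    ∃ g : W →ₗ[ℂ] ℂ, ∀ x ∈ V, η x = g (L x) := by
  have h1 : LinearMap.range (L.domRestrict V).dualMap =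
      (LinearMap.ker (L.domRestrict V)).dualAnnihilator :=
    LinearMap.range_dualMap_eq_dualAnnihilator_ker _
  have h2 : (η.domRestrict V) ∈ (LinearMap.ker (L.domRestrict V)).dualAnnihilator := by
    rw [Submodule.mem_dualAnnihilator]
    intro x hx
    exact h x x.2 hx
  rw [← h1] at h2
  obtain ⟨g, hg⟩ := h2
  refine ⟨g, fun x hx => ?_⟩
  have := LinearMap.congr_fun hg ⟨x, hx⟩
  exact this.symm

section main

variable {ι Λ : Type} [Fintype ι] [Fintype Λ] [DecidableEq ι] [DecidableEq Λ]
  {n N d : ℕ} {p : ι → V3} {m : ι → ℕ} {w : Λ → ℕ}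
  {BB : Submodule ℂ (R3 × MvPolynomial (Fin n) ℂ)} {f : Λ → ℕ → R3 →ₗ[ℂ] ℂ}
  {E : ι → Fin 2 → Derivation ℚ ℂ ℂ} {D : Λ → Derivation ℚ ℂ ℂ}

/-- the admissible derivations -/
structure Adm (p : ι → V3) (BB : Submodule ℂ (R3 × MvPolynomial (Fin n) ℂ))
    (f : Λ → ℕ → R3 →ₗ[ℂ] ℂ) (Δ : Derivation ℚ ℂ ℂ) (α : Λ → ℂ) (mot : ι → Fin 2 → ℂ) :
    Prop where
  st : ∀ H ∈ BB, ps Δ H ∈ BB
  law : ∀ l j, ∀ H ∈ BB, Δ (f l j H.1) = f l j (cD Δ H.1) + α l * f l (j + 1) H.1
  p2 : ∀ j, Δ (p j 2) = 0
  pk : ∀ j (k : Fin 2), Δ (p j k.castSucc) = mot j k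

theorem Adm.add {Δ Δ' : Derivation ℚ ℂ ℂ} {α α' : Λ → ℂ} {mot mot' : ι → Fin 2 → ℂ}
    (h : Adm p BB f Δ α mot) (h' : Adm p BB f Δ' α' mot') :
    Adm p BB f (Δ + Δ') (α + α') (mot + mot') where
  st := fun H hH => by
    have h1 : ps (Δ + Δ') H = ps Δ H + ps Δ' H := by
      unfold ps
      rw [cD_add_left, cD_add_left]
      rfl
    rw [h1]
    exact add_mem (h.st H hH) (h'.st H hH)
  law := fun l j H hH => by
    rw [Derivation.add_apply, h.law l j H hH, h'.law l j H hH, cD_add_left, map_add, Pi.add_apply]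
    ring
  p2 := fun j => by rw [Derivation.add_apply, h.p2, h'.p2, add_zero]
  pk := fun j k => by rw [Derivation.add_apply, h.pk, h'.pk]; rfl

theorem Adm.smul {Δ : Derivation ℚ ℂ ℂ} {α : Λ → ℂ} {mot : ι → Fin 2 → ℂ}
    (h : Adm p BB f Δ α mot) (a : ℂ) : Adm p BB f (a • Δ) (a • α) (a • mot) where
  st := fun H hH => by
    have h1 : ps (a • Δ) H = a • ps Δ H := by
      unfold ps
      rw [cD_smul_left, cD_smul_left]
      rfl
    rw [h1]
    exact Submodule.smul_mem _ _ (h.st H hH)
  law := fun l j H hH => by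
    rw [Derivation.smul_apply, h.law l j H hH, cD_smul_left, map_smul, Pi.smul_apply,
      smul_eq_mul, smul_eq_mul, smul_eq_mul]
    ring
  p2 := fun j => by rw [Derivation.smul_apply, h.p2, smul_zero]
  pk := fun j k => by rw [Derivation.smul_apply, h.pk]; rfl

theorem Chn.admD (S : Chn n N d p m w BB f E D) (l : Λ) :
    Adm p BB f (D l) (Pi.single l 1) 0 where
  st := S.stD l
  law := fun l' j H hH => by
    by_cases h : l = l'
    · subst h
      rw [S.lawD l j H hH, Pi.single_eq_same, one_mul]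
    · rw [S.lawD' l l' j h H hH, Pi.single_eq_of_ne (Ne.symm h), zero_mul, add_zero]
  p2 := fun j => S.Dp l j 2
  pk := fun j k => S.Dp l j _

theorem Chn.admE (S : Chn n N d p m w BB f E D) (i : ι) (k : Fin 2) :
    Adm p BB f (E i k) 0 (Pi.single i (Pi.single k 1)) where
  st := S.stE i k
  law := fun l' j H hH => by
    rw [S.lawE i k l' j H hH, Pi.zero_apply, zero_mul, add_zero]
  p2 := fun j => S.E2 i k j
  pk := fun j l => by
    by_cases h : i = j
    · subst h
      rw [S.Ep, Pi.single_eq_same]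
      by_cases h' : k = l
      · subst h'
        rw [if_pos rfl, Pi.single_eq_same]
      · rw [if_neg h', Pi.single_eq_of_ne (Ne.symm h')]
    · rw [S.Ep' i k j l h, Pi.single_eq_of_ne (Ne.symm h)]
      rfl

/-- derivatives which fix the point `q` up to a factor -/
theorem ev_prop {q : Fin n → ℂ} {Δ : Derivation ℚ ℂ ℂ} {κ : ℂ}
    (hq : (fun k => Δ (q k)) = κ • q) {Θ : MvPolynomial (Fin n) ℂ} (hΘ : Θ.IsHomogeneous N) :
    Δ (eval q Θ) = eval q (cD Δ Θ) + κ * N * eval q Θ := by
  rw [D_eval]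
  congr 1
  have h1 := congrArg (eval q) hΘ.sum_X_mul_pderiv
  rw [map_sum, map_nsmul, nsmul_eq_mul] at h1
  rw [mul_assoc, ← h1, Finset.mul_sum]
  refine Finset.sum_congr rfl (fun k _ => ?_)
  have h2 : Δ (q k) = κ * q k := congrFun hq k
  rw [h2, map_mul, eval_X]
  ring

theorem mem_VV {y : ι → ℕ} {H : R3 × MvPolynomial (Fin n) ℂ} :
    H ∈ VV d p BB y ↔ H ∈ BB ∧ H.1 ∈ linSys d p y := Iff.rfl

theorem Chn.mem_VV' (S : Chn n N d p m w BB f E D) {y : ι → ℕ}
    {H : R3 × MvPolynomial (Fin n) ℂ} :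
    H ∈ VV d p BB y ↔ H ∈ BB ∧ ∀ i, VanishTo H.1 (p i) (y i) :=
  ⟨fun h => ⟨h.1, h.2.2⟩, fun h => ⟨h.1, S.hom1 H h.1, h.2⟩⟩

theorem Adm.mem_VV {Δ : Derivation ℚ ℂ ℂ} {α : Λ → ℂ} {mot : ι → Fin 2 → ℂ}
    (h : Adm p BB f Δ α mot) (S : Chn n N d p m w BB f E D) {y y' : ι → ℕ}
    {H : R3 × MvPolynomial (Fin n) ℂ} (hH : H ∈ VV d p BB y)
    (hy : ∀ i, (mot i = 0 ∧ y' i ≤ y i) ∨ y' i + 1 ≤ y i) : ps Δ H ∈ VV d p BB y' := by
  rw [S.mem_VV'] at hH ⊢
  refine ⟨h.st H hH.1, fun i => ?_⟩
  rcases hy i with ⟨h0, h1⟩ | h1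
  · refine (vanishTo_cD_fixed Δ (fun k => ?_) (hH.2 i)).mono h1
    by_cases hk : k = 2
    · rw [hk, h.p2]
    · obtain ⟨k', rfl⟩ : ∃ k' : Fin 2, k = k'.castSucc := by
        fin_cases k
        · exact ⟨0, rfl⟩
        · exact ⟨1, rfl⟩
        · exact absurd rfl hk
      rw [h.pk, h0]
      rfl
  · obtain ⟨k, hk⟩ : ∃ k, y i = k + 1 := ⟨y i - 1, by omega⟩
    have h2 := hH.2 i
    rw [hk] at h2
    exact (vanishTo_cD Δ h2).mono (by omega)

/-- the functional `H ↦ ∑ c l j f l j H` -/
noncomputable def cf (w : Λ → ℕ) (f : Λ → ℕ → R3 →ₗ[ℂ] ℂ) (c : Λ → ℕ → ℂ) : R3 →ₗ[ℂ] ℂ :=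
  ∑ l, ∑ j ∈ Finset.range (w l), c l j • f l j

theorem cf_apply (c : Λ → ℕ → ℂ) (H : R3) :
    cf w f c H = ∑ l, ∑ j ∈ Finset.range (w l), c l j * f l j H := by
  unfold cf
  rw [LinearMap.sum_apply]
  refine Finset.sum_congr rfl (fun l _ => ?_)
  rw [LinearMap.sum_apply]
  rfl

theorem cf_zero_of {c : Λ → ℕ → ℂ} {H : R3}
    (h : ∀ l, ∀ j < w l, c l j = 0 ∨ f l j H = 0) : cf w f c H = 0 := by
  rw [cf_apply]
  refine Finset.sum_eq_zero (fun l _ => Finset.sum_eq_zero (fun j hj => ?_))
  rcases h l j (Finset.mem_range.mp hj) with h1 | h1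
  · rw [h1, zero_mul]
  · rw [h1, mul_zero]

/-- the solution with exact contact orders -/
structure Sol (d : ℕ) (p : ι → V3) (m : ι → ℕ) (w : Λ → ℕ)
    (BB : Submodule ℂ (R3 × MvPolynomial (Fin n) ℂ)) (f : Λ → ℕ → R3 →ₗ[ℂ] ℂ)
    (F : R3 × MvPolynomial (Fin n) ℂ) : Prop where
  dim : 1 + ∑ l, w l ≤ finrank ℂ (VV d p BB m)
  hF : F ∈ VV d p BB m
  fl : ∀ l, ∀ j < w l, f l j F.1 = 0
  ex : ∀ l, f l (w l) F.1 ≠ 0
  uniq : ∀ H ∈ VV d p BB m, (∀ l, ∀ j < w l, f l j H.1 = 0) → ∃ a : ℂ, H = a • F

variable {F : R3 × MvPolynomial (Fin n) ℂ}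

/-- the dual basis of the flag functionals on the members -/
theorem Sol.dual (T : Sol d p m w BB f F) (v : (l : Λ) → ℕ → ℂ) :
    ∃ H ∈ VV d p BB m, ∀ l, ∀ j < w l, f l j H.1 = v l j := by
  classical
  have hfin : Module.Finite ℂ (VV d p BB m) := by
    apply Module.finite_of_finrank_pos
    have := T.dim
    omega
  set L : VV d p BB m →ₗ[ℂ] ((Σ l, Fin (w l)) → ℂ) :=
    LinearMap.pi (fun x => ((f x.1 x.2).comp (LinearMap.fst ℂ _ _)).domRestrict _) with hL
  have hLa : ∀ (H : VV d p BB m) (x : Σ l, Fin (w l)),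
      L H x = f x.1 x.2 (H : R3 × MvPolynomial (Fin n) ℂ).1 := fun H x => rfl
  have h1 := LinearMap.finrank_range_add_finrank_ker L
  have h2 : finrank ℂ (LinearMap.ker L) ≤ 1 := by
    have hle : (LinearMap.ker L).map (VV d p BB m).subtype ≤ Submodule.span ℂ {F} := by
      rintro _ ⟨x, hx, rfl⟩
      have hx' : ∀ l, ∀ j < w l, f l j (x : R3 × MvPolynomial (Fin n) ℂ).1 = 0 := by
        intro l j hj
        rw [← hLa x ⟨l, ⟨j, hj⟩⟩, show L x = 0 from hx]
        rfl
      obtain ⟨a, ha⟩ := T.uniq x x.2 hx'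
      rw [Submodule.subtype_apply, ha]
      exact Submodule.smul_mem _ _ (Submodule.mem_span_singleton_self F)
    have h3 := Submodule.finrank_mono hle
    have h4 : finrank ℂ ((LinearMap.ker L).map (VV d p BB m).subtype) =
        finrank ℂ (LinearMap.ker L) :=
      (Submodule.equivMapOfInjective _ (Submodule.injective_subtype _) _).finrank_eq.symm
    have h5 := finrank_span_le_card (R := ℂ) ({F} : Set (R3 × MvPolynomial (Fin n) ℂ))
    rw [Set.toFinset_singleton, Finset.card_singleton] at h5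
    omega
  have h3 : LinearMap.range L = ⊤ := by
    apply Submodule.eq_top_of_finrank_eq
    have h6 : finrank ℂ (LinearMap.range L) ≤ finrank ℂ ((Σ l, Fin (w l)) → ℂ) :=
      Submodule.finrank_le _
    have h7 : finrank ℂ ((Σ l, Fin (w l)) → ℂ) = ∑ l, w l := by
      rw [Module.finrank_fintype_fun_eq_card, Fintype.card_sigma]
      simp
    have := T.dim
    omega
  obtain ⟨H, hH⟩ := LinearMap.range_eq_top.mp h3 (fun x => v x.1 x.2)
  refine ⟨H, H.2, fun l j hj => ?_⟩
  have := congrFun hH ⟨l, ⟨j, hj⟩⟩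
  rw [hLa] at this
  exact this

/-- independence of the flag functionals -/
theorem Sol.indep (T : Sol d p m w BB f F) {c : Λ → ℕ → ℂ}
    (h : ∀ H ∈ VV d p BB m, cf w f c H.1 = 0) : ∀ l, ∀ j < w l, c l j = 0 := by
  classical
  intro l j hj
  obtain ⟨H, hH, hv⟩ := T.dual (fun l' j' => if l' = l ∧ j' = j then 1 else 0)
  have h1 := h H hH
  rw [cf_apply, Finset.sum_eq_single l] at h1
  · rw [Finset.sum_eq_single j] at h1
    · rw [hv l j hj, if_pos ⟨rfl, rfl⟩, mul_one] at h1
      exact h1
    · intro j' hj' hne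
      rw [hv l j' (Finset.mem_range.mp hj'), if_neg (fun h => hne h.2), mul_zero]
    · intro h2
      exact absurd (Finset.mem_range.mpr hj) h2
  · intro l' _ hne
    refine Finset.sum_eq_zero (fun j' hj' => ?_)
    rw [hv l' j' (Finset.mem_range.mp hj'), if_neg (fun h => hne h.1), mul_zero]
  · intro h2
    exact absurd (Finset.mem_univ l) h2

/-- functionals killing the solution and its derivatives -/
theorem Sol.repr (T : Sol d p m w BB f F) (S : Chn n N d p m w BB f E D)
    (ξ : R3 × MvPolynomial (Fin n) ℂ →ₗ[ℂ] ℂ) (h0 : ξ F = 0) (hD : ∀ l, ξ (ps (D l) F) = 0) :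
    ∃ c : Λ → ℕ → ℂ, (∀ H ∈ VV d p BB m, ξ H = cf w f c H.1) ∧ ∀ l, c l (w l - 1) = 0 := by
  classical
  set L : R3 × MvPolynomial (Fin n) ℂ →ₗ[ℂ] ((Σ l, Fin (w l)) → ℂ) :=
    LinearMap.pi (fun x => (f x.1 x.2).comp (LinearMap.fst ℂ _ _)) with hL
  obtain ⟨g, hg⟩ := exists_factor (VV d p BB m) ξ L (by
    intro H hH hL0
    obtain ⟨a, ha⟩ := T.uniq H hH (fun l j hj => congrFun hL0 ⟨l, ⟨j, hj⟩⟩)
    rw [ha, map_smul, h0, smul_zero])
  set c : Λ → ℕ → ℂ := fun l j => if h : j < w l then
    g (Pi.single (⟨l, ⟨j, h⟩⟩ : Σ l, Fin (w l)) 1) else 0 with hc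
  have hrep : ∀ H ∈ VV d p BB m, ξ H = cf w f c H.1 := by
    intro H hH
    rw [hg H hH, cf_apply]
    have h1 : L H = ∑ x, (L H x) • (Pi.single x 1 : (Σ l, Fin (w l)) → ℂ) := by
      conv_lhs => rw [← Finset.univ_sum_single (L H)]
      refine Finset.sum_congr rfl (fun x _ => ?_)
      rw [← Pi.single_smul', smul_eq_mul, mul_one]
    rw [h1, map_sum, Fintype.sum_sigma]
    refine Finset.sum_congr rfl (fun l _ => ?_)
    rw [Finset.sum_range]
    refine Finset.sum_congr rfl (fun j _ => ?_)
    rw [map_smul, smul_eq_mul, hc, mul_comm]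
    simp only [Fin.is_lt, dite_true]
    rfl
  refine ⟨c, hrep, fun l => ?_⟩
  by_cases hw : w l = 0
  · rw [hc]
    simp only
    rw [dif_neg (by omega)]
  · have h2 : ps (D l) F ∈ VV d p BB m :=
      (S.admD l).mem_VV S T.hF (fun i => Or.inl ⟨rfl, le_rfl⟩)
    have h3 := hrep _ h2
    rw [hD l, cf_apply, Finset.sum_eq_single l] at h3
    · rw [Finset.sum_eq_single (w l - 1)] at h3
      · have h4 := S.lawD l (w l - 1) F T.hF.1
        rw [T.fl l (w l - 1) (by omega), map_zero, (by omega : w l - 1 + 1 = w l)] at h4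
        have h5 : f l (w l - 1) (ps (D l) F).1 = - f l (w l) F.1 := by
          change f l (w l - 1) (cD (D l) F.1) = _
          linear_combination -h4
        rw [h5] at h3
        exact (mul_eq_zero.mp h3.symm).resolve_right (neg_ne_zero.mpr (T.ex l))
      · intro j hj hne
        have hj' := Finset.mem_range.mp hj
        have h4 := S.lawD l j F T.hF.1
        rw [T.fl l j hj', map_zero, T.fl l (j + 1) (by omega), add_zero] at h4
        change c l j * f l j (cD (D l) F.1) = 0
        rw [← h4, mul_zero]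
      · intro h4
        exact absurd (Finset.mem_range.mpr (by omega)) h4
    · intro l' _ hne
      refine Finset.sum_eq_zero (fun j hj => ?_)
      have h4 := S.lawD' l l' j (Ne.symm hne) F T.hF.1
      rw [T.fl l' j (Finset.mem_range.mp hj), map_zero] at h4
      change c l' j * f l' j (cD (D l) F.1) = 0
      rw [← h4, mul_zero]
    · intro h4
      exact absurd (Finset.mem_univ l) h4

/-- the functional `H ↦ eval q H.2` -/
noncomputable def evL (q : Fin n → ℂ) : R3 × MvPolynomial (Fin n) ℂ →ₗ[ℂ] ℂ where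
  toFun H := eval q H.2
  map_add' H H' := by rw [Prod.snd_add, map_add]
  map_smul' a H := by
    rw [Prod.smul_snd, smul_eval, RingHom.id_apply, smul_eq_mul]

@[simp] theorem evL_apply (q : Fin n → ℂ) (H : R3 × MvPolynomial (Fin n) ℂ) :
    evL q H = eval q H.2 := rfl

/-- the coefficients of the flags which move `q` along a dependent direction vanish -/
theorem Sol.kill (T : Sol d p m w BB f F) (S : Chn n N d p m w BB f E D) {q : Fin n → ℂ}
    {c : Λ → ℕ → ℂ} (hc : ∀ H ∈ VV d p BB m, evL q H = cf w f c H.1)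
    (htop : ∀ l, c l (w l - 1) = 0) {Δ : Derivation ℚ ℂ ℂ} {α : Λ → ℂ}
    (hA : Adm p BB f Δ α (0 : ι → Fin 2 → ℂ)) {κ : ℂ} (hq : (fun k => Δ (q k)) = κ • q) :
    ∀ l, α l ≠ 0 → ∀ j < w l, c l j = 0 := by
  classical
  have key : ∀ H ∈ VV d p BB m, cf w f (fun l j => Δ (c l j) - κ * N * c l j +
      α l * (if j = 0 then 0 else c l (j - 1))) H.1 = 0 := by
    intro H hH
    have hH' : ps Δ H ∈ VV d p BB m := hA.mem_VV S hH (fun i => Or.inl ⟨rfl, le_rfl⟩)
    have h1 := ev_prop hq (S.hom2 H hH.1)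
    have h2 := hc H hH
    have h3 := hc _ hH'
    rw [evL_apply] at h2 h3
    change eval q (cD Δ H.2) = cf w f c (cD Δ H.1) at h3
    rw [h2, h3, cf_apply, cf_apply, map_sum, Finset.mul_sum, ← Finset.sum_add_distrib,
      ← sub_eq_zero, ← Finset.sum_sub_distrib] at h1
    rw [cf_apply]
    refine Eq.trans ?_ h1
    refine Finset.sum_congr rfl (fun l _ => ?_)
    rw [map_sum, Finset.mul_sum, ← Finset.sum_add_distrib, ← Finset.sum_sub_distrib]
    have h4 : ∀ j ∈ Finset.range (w l), Δ (c l j * f l j H.1) -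
        (c l j * f l j (cD Δ H.1) + κ * N * (c l j * f l j H.1)) =
        (Δ (c l j) - κ * N * c l j) * f l j H.1 + α l * (c l j * f l (j + 1) H.1) := by
      intro j _
      rw [Derivation.leibniz, hA.law l j H hH.1, smul_eq_mul, smul_eq_mul]
      ring
    rw [Finset.sum_congr rfl h4, Finset.sum_add_distrib]
    have h5 : ∀ j ∈ Finset.range (w l),
        (Δ (c l j) - κ * N * c l j + α l * (if j = 0 then 0 else c l (j - 1))) * f l j H.1 =
        (Δ (c l j) - κ * N * c l j) * f l j H.1 +
          α l * ((if j = 0 then 0 else c l (j - 1)) * f l j H.1) := fun j _ => by ring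
    rw [Finset.sum_congr rfl h5, Finset.sum_add_distrib]
    congr 1
    rw [← Finset.mul_sum, ← Finset.mul_sum]
    rcases Nat.eq_zero_or_pos (w l) with hw | hw
    · rw [hw]
      simp
    · obtain ⟨u, hu⟩ : ∃ u, w l = u + 1 := ⟨w l - 1, by omega⟩
      have h6 := htop l
      rw [hu, Nat.add_sub_cancel] at h6
      rw [hu, Finset.sum_range_succ', Finset.sum_range_succ]
      simp only [Nat.add_sub_cancel, Nat.succ_ne_zero, if_false, if_true, zero_mul,
        add_zero, h6]
  have hz := T.indep key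
  intro l hα
  have hdown : ∀ k < w l, c l (w l - 1 - k) = 0 := by
    intro k
    induction k with
    | zero =>
      intro _
      rw [Nat.sub_zero]
      exact htop l
    | succ k ih =>
      intro hk
      have h1 := ih (by omega)
      have h2 := hz l (w l - 1 - k) (by omega)
      rw [h1, map_zero, mul_zero, sub_zero, zero_add, if_neg (by omega)] at h2
      rcases mul_eq_zero.mp h2 with h3 | h3
      · exact absurd h3 hα
      · rwa [(by omega : w l - 1 - k - 1 = w l - 1 - (k + 1))] at h3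
  intro j hj
  have h1 := hdown (w l - 1 - j) (by omega)
  rwa [(by omega : w l - 1 - (w l - 1 - j) = j)] at h1

/-- the surjectivity hypothesis -/
def Surj (p : ι → V3) (m : ι → ℕ) (d : ℕ) (BB : Submodule ℂ (R3 × MvPolynomial (Fin n) ℂ))
    (f : Λ → ℕ → R3 →ₗ[ℂ] ℂ) : Prop :=
  ∀ i i' (I : Finset Λ), I.card ≤ 2 → ∀ j, 1 ≤ j → j ≤ m i → ∀ β : R2,
    β.IsHomogeneous j → ∃ H ∈ BB, VanishTo H.1 (p i) j ∧ ld d j (p i) H.1 = β ∧
      (∀ i'' ≠ i, VanishTo H.1 (p i'') (m i'' + if i'' = i' then 1 else 0)) ∧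
      ∀ l ∈ I, ∀ j', f l j' H.1 = 0

/-- the multiplicities after dropping the points of `T` -/
def dr (m : ι → ℕ) (T : Finset ι) : ι → ℕ := fun i => if i ∈ T then 0 else m i

/-- one point can be dropped -/
theorem Chn.drop (S : Chn n N d p m w BB f E D) (hsurj : Surj p m d BB f) {q : Fin n → ℂ}
    {c : Λ → ℕ → ℂ} {I : Finset Λ} (hI : I.card ≤ 2) (hcI : ∀ l ∉ I, ∀ j < w l, c l j = 0)
    {T : Finset ι} (hc : ∀ H ∈ VV d p BB (dr m T), evL q H = cf w f c H.1) {i i' : ι}
    (hi : i ∉ T) {Δ : Derivation ℚ ℂ ℂ} {α : Λ → ℂ} {mot : ι → Fin 2 → ℂ}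
    (hA : Adm p BB f Δ α mot) (hmot : mot i ≠ 0) (hmot' : ∀ j, j ≠ i → j ≠ i' → mot j = 0)
    {κ : ℂ} (hq : (fun k => Δ (q k)) = κ • q) :
    ∀ H ∈ VV d p BB (dr m (insert i T)), evL q H = cf w f c H.1 := by
  classical
  -- downward induction
  have key : ∀ a, a ≤ m i → ∀ H ∈ VV d p BB (Function.update (dr m T) i (m i - a)),
      evL q H = cf w f c H.1 := by
    intro a
    induction a with
    | zero =>
      intro _ H hH
      apply hc
      rw [Nat.sub_zero] at hH
      have h1 : Function.update (dr m T) i (m i) = dr m T := by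
        rw [Function.update_eq_self_iff]
        unfold dr
        rw [if_neg hi]
      rwa [h1] at hH
    | succ a ih =>
      intro ha H hH
      have ih' := ih (by omega)
      obtain ⟨k, hk⟩ : ∃ k, k = m i - (a + 1) := ⟨_, rfl⟩
      have hk1 : m i - a = k + 1 := by omega
      rw [← hk] at hH
      rw [hk1] at ih'
      have hkd : k + 1 ≤ d := by
        have := S.hd i
        omega
      -- the functional on the larger space
      set η : R3 × MvPolynomial (Fin n) ℂ →ₗ[ℂ] ℂ :=
        evL q - (cf w f c).comp (LinearMap.fst ℂ _ _) with hη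
      have hηa : ∀ H, η H = evL q H - cf w f c H.1 := fun H => rfl
      obtain ⟨g, hg⟩ := exists_factor (VV d p BB (Function.update (dr m T) i k)) η
        ((ld d k (p i)).comp (LinearMap.fst ℂ _ _)) (by
          intro x hx hx0
          rw [hηa, sub_eq_zero]
          apply ih'
          rw [S.mem_VV'] at hx ⊢
          refine ⟨hx.1, fun j => ?_⟩
          have hxj := hx.2 j
          by_cases hj : j = i
          · subst hj
            rw [Function.update_self] at hxj ⊢
            have hx1 := S.hom1 x hx.1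
            rw [vanishTo_iff_ld hx1 (S.hp j) (by omega)] at hxj ⊢
            intro k' hk'
            by_cases h2 : k' = k
            · rw [h2]
              exact hx0
            · exact hxj k' (by omega)
          · rwa [Function.update_of_ne hj] at hxj ⊢)
      have hgz : ∀ γ : R2, γ.IsHomogeneous k → g γ = 0 := by
        have hab : mot i 0 ≠ 0 ∨ mot i 1 ≠ 0 := by
          by_contra hcon
          push Not at hcon
          apply hmot
          funext l
          fin_cases l
          · exact hcon.1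
          · exact hcon.2
        apply dir_surj hab
        intro β hβ
        obtain ⟨H', hH', hv, hl, hv', hf⟩ := hsurj i i' I hI (k + 1) (by omega) (by omega) β hβ
        have hfc : ∀ l, ∀ j < w l, c l j = 0 ∨ f l j H'.1 = 0 := by
          intro l j hj
          by_cases hl : l ∈ I
          · exact Or.inr (hf l hl j)
          · exact Or.inl (hcI l hl j hj)
        have hH'1 : H' ∈ VV d p BB (Function.update (dr m T) i (k + 1)) := by
          rw [S.mem_VV']
          refine ⟨hH', fun j => ?_⟩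
          by_cases hj : j = i
          · subst hj
            rw [Function.update_self]
            exact hv
          · rw [Function.update_of_ne hj]
            refine (hv' j hj).mono ?_
            unfold dr
            split_ifs <;> omega
        have hξ : evL q H' = 0 := by
          rw [ih' H' hH'1]
          exact cf_zero_of hfc
        have hH'2 : ps Δ H' ∈ VV d p BB (Function.update (dr m T) i k) := by
          rw [S.mem_VV']
          refine ⟨hA.st H' hH', fun j => ?_⟩
          by_cases hj : j = i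
          · subst hj
            rw [Function.update_self]
            exact vanishTo_cD Δ hv
          · rw [Function.update_of_ne hj]
            by_cases hj' : j = i'
            · have h1 := hv' j hj
              rw [if_pos hj'] at h1
              refine (vanishTo_cD Δ h1).mono ?_
              unfold dr
              split_ifs <;> omega
            · have h1 := hv' j hj
              rw [if_neg hj', add_zero] at h1
              refine (vanishTo_cD_fixed Δ (fun l => ?_) h1).mono ?_
              · by_cases hl2 : l = 2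
                · rw [hl2, hA.p2]
                · obtain ⟨l', rfl⟩ : ∃ l' : Fin 2, l = l'.castSucc := by
                    fin_cases l
                    · exact ⟨0, rfl⟩
                    · exact ⟨1, rfl⟩
                    · exact absurd rfl hl2
                  rw [hA.pk, hmot' j hj hj']
                  rfl
              · unfold dr
                split_ifs <;> omega
        have h1 : η (ps Δ H') = 0 := by
          rw [hηa]
          have h2 := ev_prop hq (S.hom2 H' hH')
          rw [evL_apply] at hξ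
          rw [hξ, map_zero, mul_zero, add_zero] at h2
          rw [evL_apply]
          change eval q (cD Δ H'.2) - _ = 0
          rw [← h2, zero_sub, neg_eq_zero]
          apply cf_zero_of
          intro l j hj
          by_cases hl : l ∈ I
          · right
            have h3 := hA.law l j H' hH'
            rw [hf l hl j, map_zero, hf l hl (j + 1), mul_zero, add_zero] at h3
            exact h3.symm
          · exact Or.inl (hcI l hl j hj)
        rw [hg _ hH'2] at h1
        have h2 := cD_ld_move Δ (hA.p2 i) hkd H'.1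
        have h3 : ld d k (p i) H'.1 = 0 := by
          have h4 := (vanishTo_iff_ld (S.hom1 H' hH') (S.hp i) (by omega)).mp hv
          exact h4 k (Nat.lt_succ_self k)
        have hp0 : Δ (p i 0) = mot i 0 := hA.pk i 0
        have hp1 : Δ (p i 1) = mot i 1 := hA.pk i 1
        rw [h3, map_zero, hl, hp0, hp1] at h2
        have h5 : C (mot i 0) * pderiv 0 β + C (mot i 1) * pderiv 1 β =
            -(ld d k (p i) (ps Δ H').1) := by
          exact eq_neg_of_add_eq_zero_right h2.symm
        rw [h5, map_neg, neg_eq_zero]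
        exact h1
      have h1 : η H = g (ld d k (p i) H.1) := hg H hH
      have h6 : (ld d k (p i) H.1).IsHomogeneous k := ld_hom (S.hom1 H hH.1) (by omega) (p i)
      rw [hηa, hgz _ h6] at h1
      exact sub_eq_zero.mp h1
  intro H hH
  have h1 := key (m i) le_rfl
  rw [Nat.sub_self] at h1
  apply h1
  have h2 : Function.update (dr m T) i 0 = dr m (insert i T) := by
    funext j
    by_cases hj : j = i
    · subst hj
      rw [Function.update_self]
      unfold dr
      rw [if_pos (Finset.mem_insert_self j T)]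
    · rw [Function.update_of_ne hj]
      unfold dr
      simp only [Finset.mem_insert, hj, false_or]
  rwa [h2]

/-- if all members vanish at `q`, then so do all forms with the conditions at one point -/
theorem Chn.bpf (S : Chn n N d p m w BB f E D) (hn : n ≤ 3) (hsurj : Surj p m d BB f)
    {q : Fin n → ℂ} (hq : q ≠ 0) (h : ∀ H ∈ VV d p BB m, evL q H = 0)
    (hbpf : ∀ T : Finset ι, T.card ≤ 1 → ∃ H ∈ BB, (∀ i ∈ T, VanishTo H.1 (p i) (m i)) ∧
      eval q H.2 ≠ 0) : False := by
  classical
  set P : Finset ι → Prop := fun T => ∀ H ∈ VV d p BB (dr m T), evL q H = cf w f 0 H.1 with hP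
  have hcf : ∀ H : R3, cf w f (0 : Λ → ℕ → ℂ) H = 0 := fun H =>
    cf_zero_of (fun l j _ => Or.inl rfl)
  have h0 : P ∅ := by
    intro H hH
    rw [hcf]
    apply h
    have : dr m ∅ = m := by
      funext i
      unfold dr
      rw [if_neg (Finset.notMem_empty i)]
    rwa [this] at hH
  obtain ⟨T, hT, hmax⟩ := (Finset.univ.filter P).exists_max_image Finset.card
    ⟨∅, by simp [h0]⟩
  simp only [Finset.mem_filter, Finset.mem_univ, true_and] at hT hmax
  have hcard : (Finset.univ \ T).card ≤ 1 := by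
    by_contra hcon
    push Not at hcon
    obtain ⟨i, i', hi, hi', hne⟩ := Finset.one_lt_card_iff.mp hcon
    have hi1 : i ∉ T := (Finset.mem_sdiff.mp hi).2
    have hi1' : i' ∉ T := (Finset.mem_sdiff.mp hi').2
    obtain ⟨a, ha, κ, hκ⟩ := lin_dep (r := 4) (n := n) (by omega)
      ![fun k => E i 0 (q k), fun k => E i 1 (q k), fun k => E i' 0 (q k), fun k => E i' 1 (q k)] hq
    rw [Fin.sum_univ_four] at hκ
    simp only [Matrix.cons_val_zero, Matrix.cons_val_one, Matrix.cons_val] at hκ
    have hins : ∀ i ∉ T, ∀ i' (Δ : Derivation ℚ ℂ ℂ) (α : Λ → ℂ) (mot : ι → Fin 2 → ℂ),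
        Adm p BB f Δ α mot → mot i ≠ 0 → (∀ j, j ≠ i → j ≠ i' → mot j = 0) →
        (fun k => Δ (q k)) = κ • q → False := by
      intro i hi i' Δ α mot hA h1 h2 h3
      have h4 : P (insert i T) := S.drop hsurj (I := ∅) (by simp) (fun l _ j _ => rfl) hT hi hA
        h1 h2 h3
      have h5 := hmax _ h4
      rw [Finset.card_insert_of_notMem hi] at h5
      omega
    have hA4 := (((S.admE i 0).smul (a 0)).add ((S.admE i 1).smul (a 1))).add
      (((S.admE i' 0).smul (a 2)).add ((S.admE i' 1).smul (a 3)))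
    have hA2 := ((S.admE i' 0).smul (a 2)).add ((S.admE i' 1).smul (a 3))
    by_cases h01 : a 0 = 0 ∧ a 1 = 0
    · refine hins i' hi1' i' _ _ _ hA2 ?_ ?_ ?_
      · intro hz
        apply ha
        have e2 := congrFun hz 0
        have e3 := congrFun hz 1
        simp at e2 e3
        funext k
        fin_cases k
        · exact h01.1
        · exact h01.2
        · exact e2
        · exact e3
      · intro j hj _
        simp [hj]
      · funext k
        have := congrFun hκ k
        simp only [Pi.add_apply, Pi.smul_apply, h01.1, h01.2, zero_smul, zero_add] at this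
        simp only [Derivation.add_apply, Derivation.smul_apply]
        exact this
    · refine hins i hi1 i' _ _ _ hA4 ?_ ?_ ?_
      · intro hz
        apply h01
        have e2 := congrFun hz 0
        have e3 := congrFun hz 1
        simp [hne] at e2 e3
        exact ⟨e2, e3⟩
      · intro j hj hj'
        simp [hj, hj']
      · funext k
        have := congrFun hκ k
        simp only [Pi.add_apply, Pi.smul_apply] at this
        simp only [Derivation.add_apply, Derivation.smul_apply, Pi.smul_apply]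
        rw [← this]
        ring
  obtain ⟨H, hH, hv, hne⟩ := hbpf _ hcard
  apply hne
  have h1 : H ∈ VV d p BB (dr m T) := by
    rw [S.mem_VV']
    refine ⟨hH, fun i => ?_⟩
    unfold dr
    by_cases hi : i ∈ T
    · rw [if_pos hi]
      exact fun k hk => absurd hk (Nat.not_lt_zero k)
    · rw [if_neg hi]
      exact hv i (by simp [hi])
  have h2 := hT H h1
  rw [hcf, evL_apply] at h2
  exact h2

/-- **The chain theorem.** -/
theorem Chn.main (S : Chn n N d p m w BB f E D) (T : Sol d p m w BB f F) (hn : n ≤ 3)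
    {q : Fin n → ℂ} (hq : q ≠ 0) (hsurj : Surj p m d BB f)
    (hsep : ∀ l, ∀ j < w l, ∃ H ∈ BB, f l j H.1 ≠ 0 ∧ (∀ j' < w l, j' ≠ j → f l j' H.1 = 0) ∧
      (∀ l' ≠ l, ∀ j' < w l', f l' j' H.1 = 0) ∧ eval q H.2 = 0)
    (hbpf : ∀ T : Finset ι, T.card ≤ 1 → ∃ H ∈ BB, (∀ i ∈ T, VanishTo H.1 (p i) (m i)) ∧
      eval q H.2 ≠ 0)
    (h0 : eval q F.2 = 0) (h1 : ∀ k, eval q (pderiv k F.2) = 0) : False := by
  classical
  have hDF : ∀ l, evL q (ps (D l) F) = 0 := by
    intro l
    have h2 := D_eval (D l) q F.2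
    rw [h0, map_zero, Finset.sum_eq_zero (fun k _ => by rw [h1 k, mul_zero]), add_zero] at h2
    exact h2.symm
  obtain ⟨c, hc, htop⟩ := T.repr S (evL q) h0 hDF
  by_cases hI0 : ∃ l, ∃ j < w l, c l j ≠ 0
  · obtain ⟨l₁, j₁, hj₁, hne₁⟩ := hI0
    set I : Finset Λ := Finset.univ.filter (fun l => ∃ j < w l, c l j ≠ 0) with hI
    have hcI : ∀ l ∉ I, ∀ j < w l, c l j = 0 := by
      intro l hl j hj
      by_contra hne
      exact hl (by simp only [hI, Finset.mem_filter, Finset.mem_univ, true_and]; exact ⟨j, hj, hne⟩)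
    have hkill : ∀ {Δ : Derivation ℚ ℂ ℂ} {α : Λ → ℂ}, Adm p BB f Δ α (0 : ι → Fin 2 → ℂ) →
        ∀ {κ : ℂ}, (fun k => Δ (q k)) = κ • q → ∀ l ∈ I, α l = 0 := by
      intro Δ α hA κ hκ l hl
      by_contra hne
      simp only [hI, Finset.mem_filter, Finset.mem_univ, true_and] at hl
      obtain ⟨j, hj, hcj⟩ := hl
      exact hcj (T.kill S hc htop hA hκ l hne j hj)
    have hcard : I.card ≤ 2 := by
      by_contra hcon
      push Not at hcon
      obtain ⟨J, hJI, hJ⟩ := Finset.exists_subset_card_eq (s := I) (n := 3) (by omega)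
      obtain ⟨a, b, e, hab, hae, hbe, rfl⟩ := Finset.card_eq_three.mp hJ
      obtain ⟨x, hx, κ, hκ⟩ := lin_dep (r := 3) (n := n) hn
        ![fun k => D a (q k), fun k => D b (q k), fun k => D e (q k)] hq
      rw [Fin.sum_univ_three] at hκ
      simp only [Matrix.cons_val_zero, Matrix.cons_val_one, Matrix.cons_val] at hκ
      have hA := (((S.admD a).smul (x 0)).add ((S.admD b).smul (x 1))).add ((S.admD e).smul (x 2))
      have hmot : (x 0 • (0 : ι → Fin 2 → ℂ) + x 1 • 0 + x 2 • 0) = 0 := by simp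
      rw [hmot] at hA
      have hk := hkill hA (κ := κ) (by
        funext k
        have := congrFun hκ k
        simp only [Pi.add_apply, Pi.smul_apply] at this
        simp only [Derivation.add_apply, Derivation.smul_apply, Pi.smul_apply]
        exact this)
      apply hx
      have ha := hk a (hJI (by simp))
      have hb := hk b (hJI (by simp))
      have he := hk e (hJI (by simp))
      simp [hab, hae] at ha
      simp [hab.symm, hbe] at hb
      simp [hae.symm, hbe.symm] at he
      funext k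
      fin_cases k
      · exact ha
      · exact hb
      · exact he
    have hl₁ : l₁ ∈ I := by
      simp only [hI, Finset.mem_filter, Finset.mem_univ, true_and]
      exact ⟨j₁, hj₁, hne₁⟩
    -- all points can be dropped
    have hall : ∀ X : Finset ι, ∀ H ∈ VV d p BB (dr m X), evL q H = cf w f c H.1 := by
      intro X
      induction X using Finset.induction_on with
      | empty =>
        intro H hH
        apply hc
        have : dr m ∅ = m := by
          funext i
          unfold dr
          rw [if_neg (Finset.notMem_empty i)]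
        rwa [this] at hH
      | insert i X hi ih =>
        obtain ⟨x, hx, κ, hκ⟩ := lin_dep (r := 3) (n := n) hn
          ![fun k => E i 0 (q k), fun k => E i 1 (q k), fun k => D l₁ (q k)] hq
        rw [Fin.sum_univ_three] at hκ
        simp only [Matrix.cons_val_zero, Matrix.cons_val_one, Matrix.cons_val] at hκ
        have hA := (((S.admE i 0).smul (x 0)).add ((S.admE i 1).smul (x 1))).add
          ((S.admD l₁).smul (x 2))
        refine S.drop hsurj (i' := i) hcard hcI ih hi hA ?_ ?_ (κ := κ) ?_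
        · intro hz
          have e0 := congrFun hz 0
          have e1 := congrFun hz 1
          simp at e0 e1
          apply hx
          have hA' := (S.admD l₁).smul (x 2)
          rw [smul_zero] at hA'
          have hk := hkill hA' (κ := κ) (by
            funext k
            have := congrFun hκ k
            simp only [Pi.add_apply, Pi.smul_apply, e0, e1, zero_smul, zero_add,
              Pi.zero_apply] at this
            simp only [Derivation.smul_apply, Pi.smul_apply]
            exact this) l₁ hl₁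
          simp at hk
          funext k
          fin_cases k
          · exact e0
          · exact e1
          · exact hk
        · intro j hj _
          simp [hj]
        · funext k
          have := congrFun hκ k
          simp only [Pi.add_apply, Pi.smul_apply] at this
          simp only [Derivation.add_apply, Derivation.smul_apply, Pi.smul_apply]
          exact this
    obtain ⟨H, hH, hne, h3, h4, h5⟩ := hsep l₁ j₁ hj₁
    have h6 := hall Finset.univ H (by
      rw [S.mem_VV']
      refine ⟨hH, fun i => ?_⟩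
      unfold dr
      rw [if_pos (Finset.mem_univ i)]
      exact fun k hk => absurd hk (Nat.not_lt_zero k))
    rw [evL_apply, h5, cf_apply, Finset.sum_eq_single l₁, Finset.sum_eq_single j₁] at h6
    · rcases mul_eq_zero.mp h6.symm with h7 | h7
      · exact hne₁ h7
      · exact hne h7
    · intro j hj hjne
      rw [h3 j (Finset.mem_range.mp hj) hjne, mul_zero]
    · intro h7
      exact absurd (Finset.mem_range.mpr hj₁) h7
    · intro l _ hl
      refine Finset.sum_eq_zero (fun j hj => ?_)
      rw [h4 l hl j (Finset.mem_range.mp hj), mul_zero]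
    · intro h7
      exact absurd (Finset.mem_univ l₁) h7
  · push Not at hI0
    refine S.bpf hn hsurj hq (fun H hH => ?_) hbpf
    rw [hc H hH]
    exact cf_zero_of (fun l j hj => Or.inl (hI0 l j hj))

end main

end Pool.Agent.Work.MP_0421d9_ag.ZC
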