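import Pool.Agent.Work.MP_0421d9_ag.ZCDefs

/-!
Collisions of generic points: flag systems, numerical data.
-/

set_option linter.unusedSectionVars false

namespace Pool.Agent.Work.MP_0421d9_ag.ZC

open MvPolynomial Module SM

/-- contact orders at the directions `(c l, 1)` at the points `P l` -/
noncomputable def FS {ι Λ : Type} (d : ℕ) (p : ι → V3) (m : ι → ℕ) (P : Λ → V3) (μ : Λ → ℕ)
    (c : Λ → ℂ) (w : Λ → ℕ) : Submodule ℂ R3 where
  carrier := {F | F ∈ linSys d (Sum.elim p P) (Sum.elim m μ) ∧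
    ∀ l, ∀ i < w l, fd d (μ l) (P l) (c l) i F = 0}
  zero_mem' := ⟨zero_mem _, fun l i _ => map_zero _⟩
  add_mem' := fun {x y} hx hy => ⟨add_mem hx.1 hy.1, fun l i h => by
    rw [map_add, hx.2 l i h, hy.2 l i h, add_zero]⟩
  smul_mem' := fun r x hx => ⟨Submodule.smul_mem _ _ hx.1, fun l i h => by
    rw [map_smul, hx.2 l i h, smul_zero]⟩

theorem mem_FS {ι Λ : Type} {d : ℕ} {p : ι → V3} {m : ι → ℕ} {P : Λ → V3} {μ : Λ → ℕ}
    {c : Λ → ℂ} {w : Λ → ℕ} {F : R3} : F ∈ FS d p m P μ c w ↔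
      F ∈ linSys d (Sum.elim p P) (Sum.elim m μ) ∧
        ∀ l, ∀ i < w l, fd d (μ l) (P l) (c l) i F = 0 := Iff.rfl

/-- the numerical data of a collision: `m` the multiplicities of the other points, for every
cluster `l` its multiplicities `v l j`, its critical degree `μ l` and the number `w l` of conditions
on the leading form -/
structure Dat {ι Λ : Type} [Fintype ι] [Fintype Λ] (d M : ℕ) (m : ι → ℕ) (μ w s Mv : Λ → ℕ)
    (v : ∀ l, Fin (s l) → ℕ) : Prop where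
  hN : NSp M d
  hm : ∀ i, m i + 1 ≤ M
  hμ : ∀ l, μ l + 1 ≤ M
  hd : ∑ l, (μ l + 2) + 2 * M ≤ d
  hχ : ∑ i, (m i + 1).choose 2 + ∑ l, (μ l + 1).choose 2 + ∑ l, w l + 1 = (d + 2).choose 2
  room : 5 * M ≤ ∑ l, w l
  hNv : ∀ l, NSp (Mv l) (μ l)
  hNv' : ∀ l, NSp (Mv l) (μ l - 1)
  hv : ∀ l j, v l j + 1 ≤ Mv l
  hvμ : ∀ l, 2 * Mv l ≤ μ l
  crit : ∀ l, ∑ j, (v l j + 1).choose 2 = (μ l + 1).choose 2 + w l
  hw : ∀ l, w l + 2 * Mv l ≤ μ l + 1
  hMv : ∀ l, 1 ≤ Mv l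
  two : ∀ l : Λ, ∃ l', l' ≠ l

end Pool.Agent.Work.MP_0421d9_ag.ZC
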