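import Pool.Agent.Work.MP_0421d9_ag.ZCChain
import Pool.Agent.Work.MP_0421d9_ag.ZCForm
import Pool.Agent.Work.MP_0421d9_ag.ZCDat

/-!
Collisions of generic points: the chain argument for the numerical data of a collision.
-/

set_option linter.unusedSectionVars false
set_option linter.unusedVariables false

namespace Pool.Agent.Work.MP_0421d9_ag.ZC

open MvPolynomial Module SM

/-- derivations moving the points `p` (third coordinates fixed) and the directions `c` -/
structure Ders {ι Λ : Type} (p : ι → V3) (P : Λ → V3) (c : Λ → ℂ)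
    (E : ι → Fin 2 → Derivation ℚ ℂ ℂ) (D : Λ → Derivation ℚ ℂ ℂ) : Prop where
  E2 : ∀ i k j, E i k (p j 2) = 0
  Ep : ∀ i (k l : Fin 2), E i k (p i l.castSucc) = if k = l then 1 else 0
  Ep' : ∀ i k j (l : Fin 2), i ≠ j → E i k (p j l.castSucc) = 0
  EP : ∀ i k l j, E i k (P l j) = 0
  Ec : ∀ i k l, E i k (c l) = 0
  Dp : ∀ l j k, D l (p j k) = 0
  DP : ∀ l j k, D l (P j k) = 0
  Dc : ∀ l, D l (c l) = 1
  Dc' : ∀ l l', l ≠ l' → D l (c l') = 0

variable {ι Λ : Type} [Fintype ι] [Fintype Λ] [DecidableEq ι] [DecidableEq Λ] {d M : ℕ}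
  {m : ι → ℕ} {μ w s Mv : Λ → ℕ} {v : ∀ l, Fin (s l) → ℕ}

theorem Ders.Ej {p : ι → V3} {P : Λ → V3} {c : Λ → ℂ} {E : ι → Fin 2 → Derivation ℚ ℂ ℂ}
    {D : Λ → Derivation ℚ ℂ ℂ} (h : Ders p P c E D) {i j : ι} (hij : i ≠ j) (k : Fin 2)
    (l : Fin 3) : E i k (p j l) = 0 := by
  by_cases hl : l = 2
  · rw [hl, h.E2]
  · obtain ⟨l', rfl⟩ : ∃ l' : Fin 2, l = l'.castSucc := by
      fin_cases l
      · exact ⟨0, rfl⟩
      · exact ⟨1, rfl⟩
      · exact absurd rfl hl
    exact h.Ep' i k j l' hij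

theorem Dat.hMd (S : Dat d M m μ w s Mv v) : 2 * M ≤ d := by
  have := S.hd
  omega

theorem Dat.hμd (S : Dat d M m μ w s Mv v) (l : Λ) : μ l + 2 ≤ d := by
  have h1 := S.hd
  have h2 : μ l + 2 ≤ ∑ l, (μ l + 2) :=
    Finset.single_le_sum (f := fun l => μ l + 2) (fun _ _ => Nat.zero_le _) (Finset.mem_univ l)
  omega

/-- generic points are different -/
theorem generic_cr_ne {κ : Type} {p : κ → V3} (hp : GenericPoints p) {x y : κ} (hxy : x ≠ y) :
    cr (p x) (p y) ≠ 0 := by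
  classical
  intro h
  obtain ⟨D, hD⟩ := exists_derivation _ hp (fun z => if z = (x, 0) then 1 else 0)
  have h2 := congrFun h 2
  have h3 : p x 0 * p y 1 - p x 1 * p y 0 = 0 := h2
  have h4 := congrArg D h3
  have e1 : D (p x 0) = 1 := (hD (x, 0)).trans (if_pos rfl)
  have e2 : D (p y 1) = 0 := (hD (y, 1)).trans (if_neg (by simp))
  have e3 : D (p x 1) = 0 := (hD (x, 1)).trans (if_neg (by simp))
  have e4 : D (p y 0) = 0 := (hD (y, 0)).trans (if_neg (by
    intro h5
    exact hxy (congrArg Prod.fst h5).symm))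
  rw [map_sub, Derivation.leibniz, Derivation.leibniz, e1, e2, e3, e4, map_zero] at h4
  simp only [smul_eq_mul, mul_zero, mul_one, zero_add, sub_zero, add_zero] at h4
  exact hp.ne_zero (y, 1) h4

/-- flag functionals vanish on forms of higher order -/
theorem fd_zero_of_vanishTo {F : R3} {d k : ℕ} (hF : F.IsHomogeneous d) {P : V3} (hP : P 2 ≠ 0)
    (hk : k ≤ d) (h : VanishTo F P (k + 1)) (c : ℂ) (i : ℕ) : fd d k P c i F = 0 := by
  have h1 := (vanishTo_iff_ld hF hP (by omega)).mp h k (Nat.lt_succ_self k)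
  rw [fd_eq, h1]
  have h2 : ∀ i, (pderiv 0)^[i] (0 : R2) = 0 := by
    intro i
    induction i with
    | zero => rfl
    | succ i ih => rw [Function.iterate_succ_apply, map_zero, ih]
  rw [h2, map_zero]

theorem choose_succ_two (a : ℕ) : (a + 2).choose 2 = (a + 1).choose 2 + (a + 1) := by
  rw [Nat.choose_succ_succ' (a + 1) 1, Nat.choose_one_right, add_comm]

/-- the room for the surjectivity of the leading parts -/
theorem Dat.surj_room (S : Dat d M m μ w s Mv v) {Z : Finset ι} {Y : Finset Λ}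
    (hZY : Z.card + Y.card ≤ 1) (i i' : ι) (hi' : i' ∉ Z) (I : Finset Λ)
    (hI : I.card ≤ 2) {j : ℕ} (hj : j ≤ m i) {y : ι ⊕ Λ → ℕ} (hyi : y (Sum.inl i) = j)
    (hyj : ∀ i'' ≠ i, y (Sum.inl i'') = m i'' + (if i'' = i' then 1 else 0) +
      if i'' ∈ Z then 1 else 0)
    (hyl : ∀ l, y (Sum.inr l) = μ l + if l ∈ I ∪ Y then 1 else 0) :
    ∑ x, (y x + 1).choose 2 + (y (Sum.inl i) + 1) ≤ (d + 2).choose 2 := by
  classical
  have h1 : ∀ x : ι ⊕ Λ, (y x + 1).choose 2 + (if x = Sum.inl i then y (Sum.inl i) + 1 else 0) ≤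
      (Sum.elim m μ x + 1).choose 2 +
        (if x ∈ ((({i} ∪ {i'}) ∪ Z).disjSum (I ∪ Y) : Finset (ι ⊕ Λ)) then M else 0) := by
    rintro (i'' | l)
    · by_cases hi : i'' = i
      · subst hi
        rw [if_pos rfl, hyi, if_pos (by simp), Sum.elim_inl, ← choose_succ_two]
        have h2 : (j + 2).choose 2 ≤ (m i'' + 2).choose 2 := Nat.choose_le_choose 2 (by omega)
        have h3 := S.hm i''
        rw [choose_succ_two (m i'')] at h2
        omega
      · rw [if_neg (by simpa using hi), hyj i'' hi, Sum.elim_inl, add_zero]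
        have h3 := S.hm i''
        by_cases hZ : i'' ∈ Z
        · have hne : i'' ≠ i' := fun h => hi' (h ▸ hZ)
          rw [if_neg hne, if_pos hZ, if_pos (by simp [hZ])]
          have h4 := choose_succ_two (m i'')
          have h5 : m i'' + 0 + 1 + 1 = m i'' + 2 := by ring
          rw [h5, h4]
          omega
        · rw [if_neg hZ]
          by_cases hne : i'' = i'
          · rw [if_pos hne, if_pos (by simp [hne])]
            have h4 := choose_succ_two (m i'')
            have h5 : m i'' + 1 + 0 + 1 = m i'' + 2 := by ring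
            rw [h5, h4]
            omega
          · rw [if_neg hne]
            simp
    · rw [if_neg (by simp), hyl l, Sum.elim_inr, add_zero]
      have h3 := S.hμ l
      by_cases hl : l ∈ I ∪ Y
      · rw [if_pos hl, if_pos (by simpa using hl)]
        have h4 := choose_succ_two (μ l)
        have h5 : μ l + 1 + 1 = μ l + 2 := rfl
        rw [h5, h4]
        omega
      · rw [if_neg hl]
        simp
  have h2 := Finset.sum_le_sum (fun x (_ : x ∈ (Finset.univ : Finset (ι ⊕ Λ))) => h1 x)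
  rw [Finset.sum_add_distrib, Finset.sum_add_distrib, Finset.sum_ite_eq' Finset.univ,
    if_pos (Finset.mem_univ _), Finset.sum_ite_mem, Finset.univ_inter, Finset.sum_const,
    smul_eq_mul] at h2
  have h3 : ((({i} ∪ {i'}) ∪ Z).disjSum (I ∪ Y) : Finset (ι ⊕ Λ)).card ≤ 5 := by
    rw [Finset.card_disjSum]
    have h4 := Finset.card_union_le ({i} ∪ {i'}) Z
    have h5 := Finset.card_union_le ({i} : Finset ι) {i'}
    have h6 := Finset.card_union_le I Y
    rw [Finset.card_singleton, Finset.card_singleton] at h5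
    omega
  have h4 := Nat.mul_le_mul_right M h3
  have h5 := S.room
  have h6 := S.hχ
  have h7 : ∑ x, (Sum.elim m μ x + 1).choose 2 =
      ∑ i, (m i + 1).choose 2 + ∑ l, (μ l + 1).choose 2 := by
    rw [Fintype.sum_sum_type]
    rfl
  rw [h7] at h2
  omega

/-- **The chain theorem for the data of a collision.** -/
theorem Dat.core (S : Dat d M m μ w s Mv v) {p : ι → V3} {P : Λ → V3} {c : Λ → ℂ}
    (hg : GenericPoints (Sum.elim p P)) {E : ι → Fin 2 → Derivation ℚ ℂ ℂ}
    {D : Λ → Derivation ℚ ℂ ℂ} (hE : Ders p P c E D) (Z : Finset ι) (Y : Finset Λ)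
    (hZY : Z.card + Y.card ≤ 1) {n N : ℕ} (hn : n ≤ 3)
    {BB : Submodule ℂ (R3 × MvPolynomial (Fin n) ℂ)} (hom1 : ∀ H ∈ BB, H.1 ∈ linSys d P μ)
    (hom2 : ∀ H ∈ BB, H.2.IsHomogeneous N) (stE : ∀ i ∉ Z, ∀ k, ∀ H ∈ BB, ps (E i k) H ∈ BB)
    (stD : ∀ l ∉ Y, ∀ H ∈ BB, ps (D l) H ∈ BB) {ρ : Type} [Fintype ρ] (hρ : Fintype.card ρ ≤ 1)
    {R : ρ → V3} (hR : ∀ x l, cr (R x) (P l) ≠ 0) {q : Fin n → ℂ} (hq : q ≠ 0)
    (free1 : ∀ H ∈ linSys d P μ, (∀ l ∈ Y, VanishTo H (P l) (μ l + 1)) →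
      (∀ a ∈ Z, VanishTo H (p a) (m a + 1)) → ∃ Θ, (H, Θ) ∈ BB)
    (free2 : ∀ H ∈ linSys d P μ, (∀ l ∈ Y, VanishTo H (P l) (μ l + 2)) →
      (∀ a ∈ Z, VanishTo H (p a) (m a + 1)) → (∀ x, VanishTo H (R x) 1) →
      ∃ Θ, (H, Θ) ∈ BB ∧ eval q Θ = 0)
    (hbpf : ∀ T : Finset ι, T.card ≤ 1 → (∀ i ∈ T, i ∉ Z) → ∃ H ∈ BB,
      (∀ i ∈ T, VanishTo H.1 (p i) (m i)) ∧ eval q H.2 ≠ 0)
    {F : R3 × MvPolynomial (Fin n) ℂ} (hF : F ∈ BB) (hF' : ∀ i ∉ Z, VanishTo F.1 (p i) (m i))
    (fl : ∀ l ∉ Y, ∀ j < w l, fd d (μ l) (P l) (c l) j F.1 = 0)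
    (ex : ∀ l ∉ Y, fd d (μ l) (P l) (c l) (w l) F.1 ≠ 0)
    (uniq : ∀ H ∈ BB, (∀ i ∉ Z, VanishTo H.1 (p i) (m i)) →
      (∀ l ∉ Y, ∀ j < w l, fd d (μ l) (P l) (c l) j H.1 = 0) → ∃ a : ℂ, H = a • F)
    (dim : 1 + ∑ l : {l // l ∉ Y}, w l.1 ≤ finrank ℂ
      (VV d (fun i : {i // i ∉ Z} => p i.1) BB (fun i => m i.1)))
    (h0 : eval q F.2 = 0) (h1 : ∀ k, eval q (pderiv k F.2) = 0) : False := by
  classical
  have hp2 : ∀ i, p i 2 ≠ 0 := fun i => by
    have h2 := hg.ne_zero (Sum.inl i, 2)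
    exact h2
  have hP2 : ∀ l, P l 2 ≠ 0 := fun l => by
    have h2 := hg.ne_zero (Sum.inr l, 2)
    exact h2
  have hMd := S.hMd
  have C : Chn n N d (fun i : {i // i ∉ Z} => p i.1) (fun i => m i.1)
      (fun l : {l // l ∉ Y} => w l.1) BB
      (fun l j => fd d (μ l.1) (P l.1) (c l.1) j) (fun i k => E i.1 k) (fun l => D l.1) :=
    { hd := fun i => by
        have := S.hm i.1
        omega
      hp := fun i => hp2 i.1
      hom1 := fun H hH => (hom1 H hH).1
      hom2 := hom2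
      E2 := fun i k j => hE.E2 i.1 k j.1
      Ep := fun i k l => hE.Ep i.1 k l
      Ep' := fun i k j l h => hE.Ep' i.1 k j.1 l (fun h' => h (Subtype.ext h'))
      Dp := fun l j k => hE.Dp l.1 j.1 k
      stE := fun i k H hH => stE i.1 i.2 k H hH
      stD := fun l H hH => stD l.1 l.2 H hH
      lawE := fun i k l j H hH => by
        rw [D_fd _ (fun k' => hE.EP i.1 k l.1 k'), hE.Ec, zero_mul, add_zero]
      lawD := fun l j H hH => by
        rw [D_fd _ (fun k' => hE.DP l.1 l.1 k'), hE.Dc, one_mul]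
      lawD' := fun l l' j h H hH => by
        rw [D_fd _ (fun k' => hE.DP l.1 l'.1 k'),
          hE.Dc' l.1 l'.1 (fun h' => h (Subtype.ext h')), zero_mul, add_zero] }
  have T : Sol d (fun i : {i // i ∉ Z} => p i.1) (fun i => m i.1)
      (fun l : {l // l ∉ Y} => w l.1) BB (fun l j => fd d (μ l.1) (P l.1) (c l.1) j) F :=
    { dim := dim
      hF := ⟨hF, (hom1 F hF).1, fun i => hF' i.1 i.2⟩
      fl := fun l j hj => fl l.1 l.2 j hj
      ex := fun l => ex l.1 l.2
      uniq := fun H hH h => uniq H hH.1 (fun i hi => hH.2.2 ⟨i, hi⟩)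
        (fun l hl j hj => h ⟨l, hl⟩ j hj) }
  refine C.main T hn hq ?_ ?_ ?_ h0 h1
  · -- surjectivity
    rintro ⟨i, hi⟩ ⟨i', hi'⟩ I hI j hj1 hj β hβ
    set I' : Finset Λ := I.map ⟨Subtype.val, Subtype.val_injective⟩ with hI'
    have hI'c : I'.card ≤ 2 := by
      rw [hI', Finset.card_map]
      exact hI
    have hIm : ∀ l (hl : l ∉ Y), (⟨l, hl⟩ : {l // l ∉ Y}) ∈ I → l ∈ I' := by
      intro l hl h
      rw [hI', Finset.mem_map]
      exact ⟨⟨l, hl⟩, h, rfl⟩
    set y : ι ⊕ Λ → ℕ := Sum.elim (fun i'' => if i'' = i then j else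
      m i'' + (if i'' = i' then 1 else 0) + if i'' ∈ Z then 1 else 0)
      (fun l => μ l + if l ∈ I' ∪ Y then 1 else 0) with hy
    have hyi : y (Sum.inl i) = j := by
      rw [hy, Sum.elim_inl, if_pos rfl]
    have hyj : ∀ i'' ≠ i, y (Sum.inl i'') = m i'' + (if i'' = i' then 1 else 0) +
        if i'' ∈ Z then 1 else 0 := fun i'' h => by
      rw [hy, Sum.elim_inl, if_neg h]
    have hyl : ∀ l, y (Sum.inr l) = μ l + if l ∈ I' ∪ Y then 1 else 0 := fun l => rfl
    have hroom := S.surj_room hZY i i' hi' I' hI'c hj hyi hyj hyl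
    have hyM : ∀ x, y x ≤ M := by
      rintro (i'' | l)
      · by_cases h : i'' = i
        · rw [h, hyi]
          have := S.hm i
          change j ≤ m i at hj
          omega
        · rw [hyj i'' h]
          have h2 := S.hm i''
          by_cases h3 : i'' ∈ Z
          · have hne : i'' ≠ i' := by
              rintro rfl
              exact hi' h3
            rw [if_neg hne, if_pos h3]
            omega
          · rw [if_neg h3]
            split_ifs <;> omega
      · rw [hyl]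
        have h2 := S.hμ l
        split_ifs <;> omega
    obtain ⟨H, hH, hHl⟩ := exists_of_NSp S.hN hg (y := y) (Sum.inl i) hyM (by
      rw [hyi]
      have := S.hm i
      change j ≤ m i at hj
      omega) (by
      rw [hyi]
      have := S.hm i
      change j ≤ m i at hj
      omega) hroom (β := β) (by rw [hyi]; exact hβ)
    rw [hyi] at hHl
    have hHl' : ld d j (p i) H = β := hHl
    have hvl : ∀ l, VanishTo H (P l) (μ l + if l ∈ I' ∪ Y then 1 else 0) := fun l =>
      hH.2 (Sum.inr l)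
    have hHP : H ∈ linSys d P μ := ⟨hH.1, fun l => (hvl l).mono (Nat.le_add_right _ _)⟩
    obtain ⟨Θ, hΘ⟩ := free1 H hHP (fun l hl => by
      have := hvl l
      rwa [if_pos (Finset.mem_union_right _ hl)] at this) (fun a ha => by
      have h2 : a ≠ i := fun h => hi (h ▸ ha)
      have h3 := hH.2 (Sum.inl a)
      rw [hyj a h2, if_pos ha] at h3
      exact h3.mono (by omega))
    refine ⟨(H, Θ), hΘ, ?_, hHl', ?_, ?_⟩
    · have h3 := hH.2 (Sum.inl i)
      rwa [hyi] at h3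
    · rintro ⟨i'', hi''⟩ hne
      have hne' : i'' ≠ i := fun h => hne (Subtype.ext h)
      have h3 := hH.2 (Sum.inl i'')
      rw [hyj i'' hne', if_neg hi'', add_zero] at h3
      refine h3.mono ?_
      simp only [Subtype.mk.injEq]
      exact le_rfl
    · rintro ⟨l, hl⟩ hlI j'
      refine fd_zero_of_vanishTo hH.1 (hP2 l) (by have := S.hμd l; change μ l ≤ d; omega) ?_ _ _
      have := hvl l
      rwa [if_pos (Finset.mem_union_left _ (hIm l hl hlI))] at this
  · -- separation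
    rintro ⟨l, hl⟩ j hj
    have hwl := S.hw l
    have hMvl := S.hMv l
    change j < w l at hj
    let κ := ({l' : Λ // l' ≠ l} ⊕ {a : ι // a ∈ Z}) ⊕ ρ
    let Q : κ → V3 := Sum.elim (Sum.elim (fun l' => P l'.1) (fun a => p a.1)) R
    let a : κ → ℕ := Sum.elim (Sum.elim (fun l' => μ l'.1 + 2) (fun a => m a.1 + 1)) (fun _ => 1)
    have hcr : ∀ x y : ι ⊕ Λ, x ≠ y → cr (Sum.elim p P x) (Sum.elim p P y) ≠ 0 := by
      intro x y hxy
      exact generic_cr_ne hg hxy
    have hQ : ∀ x, cr (Q x) (P l) ≠ 0 := by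
      rintro ((⟨l', h⟩ | ⟨b, hb⟩) | x)
      · exact hcr (Sum.inr l') (Sum.inr l) (fun h' => h (Sum.inr_injective h'))
      · exact hcr (Sum.inl b) (Sum.inr l) (by simp)
      · exact hR x l
    have hsum : ∑ x, a x + μ l ≤ d := by
      rw [Fintype.sum_sum_type, Fintype.sum_sum_type]
      have h2 : ∑ x : {l' : Λ // l' ≠ l}, (μ x.1 + 2) + (μ l + 2) = ∑ l, (μ l + 2) := by
        rw [← Finset.add_sum_erase Finset.univ (fun l => μ l + 2) (Finset.mem_univ l), add_comm]
        congr 1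
        rw [← Finset.sum_subtype (Finset.univ.erase l) (p := fun l' => l' ≠ l)
          (fun x => by simp) (fun l => μ l + 2)]
      have h3 : ∑ x : {a : ι // a ∈ Z}, (m x.1 + 1) ≤ M := by
        have h4 : ∑ x : {a : ι // a ∈ Z}, (m x.1 + 1) ≤ ∑ x : {a : ι // a ∈ Z}, M :=
          Finset.sum_le_sum (fun x _ => S.hm x.1)
        rw [Finset.sum_const, Finset.card_univ, Fintype.card_coe, smul_eq_mul] at h4
        have h5 : Z.card * M ≤ 1 * M := Nat.mul_le_mul_right M (by omega)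
        omega
      have h4 : ∑ _x : ρ, 1 = Fintype.card ρ := by simp
      have h5 := S.hd
      change (∑ x : {l' : Λ // l' ≠ l}, (μ x.1 + 2) + ∑ x : {a : ι // a ∈ Z}, (m x.1 + 1)) +
        ∑ _x : ρ, 1 + μ l ≤ d
      rw [h4]
      omega
    obtain ⟨H, hHh, hHQ, hHP, hHf⟩ := exists_flag_form (hP2 l) hQ hsum (c l) (i := j)
      (by omega)
    have hH : H ∈ linSys d P μ := by
      refine ⟨hHh, fun l' => ?_⟩
      by_cases h : l' = l
      · rw [h]
        exact hHP
      · exact (hHQ (Sum.inl (Sum.inl ⟨l', h⟩))).mono (Nat.le_add_right _ 2)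
    obtain ⟨Θ, hΘ, hΘq⟩ := free2 H hH (fun l' hl' => by
      have h : l' ≠ l := fun h => hl (h ▸ hl')
      exact hHQ (Sum.inl (Sum.inl ⟨l', h⟩))) (fun b hb => hHQ (Sum.inl (Sum.inr ⟨b, hb⟩)))
      (fun x => hHQ (Sum.inr x))
    refine ⟨(H, Θ), hΘ, ?_, ?_, ?_, hΘq⟩
    · change fd d (μ l) (P l) (c l) j H ≠ 0
      rw [hHf, if_pos rfl]
      exact one_ne_zero
    · intro j' _ hne
      change fd d (μ l) (P l) (c l) j' H = 0
      rw [hHf, if_neg hne]
    · rintro ⟨l', hl'⟩ hne j' _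
      have h : l' ≠ l := fun h => hne (Subtype.ext h)
      refine fd_zero_of_vanishTo hHh (hP2 l') (by have := S.hμd l'; change μ l' ≤ d; omega) ?_ _ _
      have h2 : VanishTo H (P l') (μ l' + 2) := hHQ (Sum.inl (Sum.inl ⟨l', h⟩))
      exact h2.mono (by change μ l' + 1 ≤ μ l' + 2; omega)
  · -- base points
    intro T hT
    obtain ⟨H, hH, h2, h3⟩ := hbpf (T.map ⟨Subtype.val, Subtype.val_injective⟩)
      (by rw [Finset.card_map]; exact hT) (by
        intro i hi
        rw [Finset.mem_map] at hi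
        obtain ⟨x, -, rfl⟩ := hi
        exact x.2)
    refine ⟨H, hH, fun i hi => ?_, h3⟩
    apply h2
    rw [Finset.mem_map]
    exact ⟨i, hi, rfl⟩

end Pool.Agent.Work.MP_0421d9_ag.ZC
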