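import Pool.Agent.Work.MP_0421d9_ag.SCoefR
import Pool.Agent.Work.MP_0421d9_ag.SDiv
import Pool.Agent.Work.MP_0421d9_ag.SSpec
import Pool.Agent.Work.MP_0421d9_ag.SNorm

/-!
Collisions of generic points: definitions.
-/

set_option linter.unusedSectionVars false

namespace Pool.Agent.Work.MP_0421d9_ag.ZC

open MvPolynomial Module SM

/-- `F (x + P₀ z, y + P₁ z, P₂ z)`: the point `P` becomes `(0, 0, 1)` -/
noncomputable def tr (P : V3) : R3 →ₐ[ℂ] R3 :=
  aeval ![X 0 + C (P 0) * X 2, X 1 + C (P 1) * X 2, C (P 2) * X 2]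

/-- the same for vectors: `(v₀ + P₀ v₂, v₁ + P₁ v₂, P₂ v₂)` -/
noncomputable def tv (P v : V3) : V3 := ![v 0 + P 0 * v 2, v 1 + P 1 * v 2, P 2 * v 2]

/-- the coefficient of `z ^ j` -/
noncomputable def cz (j : ℕ) : R3 →ₗ[ℂ] R2 where
  toFun F := res (F.divMonomial (Finsupp.single 2 j))
  map_add' F G := by rw [add_divMonomial, map_add]
  map_smul' a F := by
    have h : (a • F).divMonomial (Finsupp.single 2 j) = a • F.divMonomial (Finsupp.single 2 j) := by
      ext α
      rw [coeff_divMonomial, coeff_smul, coeff_smul, coeff_divMonomial]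
    rw [h, map_smul, RingHom.id_apply]

/-- the part of degree `k` at the point `P` of a form `F` of degree `d` -/
noncomputable def ld (d k : ℕ) (P : V3) : R3 →ₗ[ℂ] R2 := (cz (d - k)).comp (tr P).toLinearMap

/-- the `i`-th derivative of the part of degree `k` at `P` at the direction `(c, 1)` -/
noncomputable def fd (d k : ℕ) (P : V3) (c : ℂ) (i : ℕ) : R3 →ₗ[ℂ] ℂ where
  toFun F := eval ![c, 1] ((pderiv 0)^[i] (ld d k P F))
  map_add' F G := by rw [map_add, iterate_map_add, map_add]
  map_smul' a F := by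
    have h : ∀ (i : ℕ) (H : R2), (pderiv 0)^[i] (a • H) = a • (pderiv 0)^[i] H := by
      intro i
      induction i with
      | zero => intro H; rfl
      | succ i ih =>
        intro H
        rw [Function.iterate_succ_apply, Derivation.map_smul, ih, Function.iterate_succ_apply]
    rw [map_smul, h, smul_eval, RingHom.id_apply, smul_eq_mul]

/-- all systems of degree `d` with multiplicities at most `M` in generic points are nonspecial -/
def NSp (M d : ℕ) : Prop := ∀ (r : ℕ) (p : Fin r → V3), GenericPoints p → ∀ m : Fin r → ℕ,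
  (∀ i, m i ≤ M) → finrank ℂ (linSys d p m) = (d + 2).choose 2 - ∑ i, (m i + 1).choose 2

theorem coeff_cz (j : ℕ) (F : R3) (a b : ℕ) : coeff (e2 a b) (cz j F) = coeff (e3 a b j) F := by
  change coeff (e2 a b) (res (F.divMonomial (Finsupp.single 2 j))) = _
  rw [coeff_res, coeff_divMonomial]
  congr 1
  rw [e3_eq]
  refine ⟨?_, ?_, ?_⟩ <;> simp [e3]

/-- `NSp` for arbitrary finite index types -/
theorem NSp.finrank {M d : ℕ} (h : NSp M d) {ι : Type} [Fintype ι] {p : ι → V3}
    (hp : GenericPoints p) {m : ι → ℕ} (hm : ∀ i, m i ≤ M) :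
    finrank ℂ (linSys d p m) = (d + 2).choose 2 - ∑ i, (m i + 1).choose 2 := by
  classical
  set e := Fintype.equivFin ι with he
  have h1 : linSys d p m = linSys d (fun k => p (e.symm k)) (fun k => m (e.symm k)) := by
    ext F
    constructor
    · rintro ⟨h1, h2⟩
      exact ⟨h1, fun k => h2 _⟩
    · rintro ⟨h1, h2⟩
      refine ⟨h1, fun i => ?_⟩
      have := h2 (e i)
      simpa using this
  have h2 : GenericPoints (fun k => p (e.symm k)) := by
    unfold GenericPoints at hp ⊢
    exact hp.comp (fun z : Fin (Fintype.card ι) × Fin 3 => (e.symm z.1, z.2))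
      (fun z z' hz => by
        rw [Prod.mk.injEq] at hz
        exact Prod.ext (e.symm.injective hz.1) hz.2)
  rw [h1, h _ _ h2 _ (fun k => hm _)]
  congr 1
  exact Equiv.sum_comp e.symm (fun i => (m i + 1).choose 2)

end Pool.Agent.Work.MP_0421d9_ag.ZC
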