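import Pool.Agent.Work.MP_0421d9_ag.ZCDefs
import Pool.Agent.Work.MP_0421d9_ag.SBC
import Pool.Agent.Work.MP_0421d9_ag.URank

/-!
Collisions of generic points: the leading forms at a point.
-/

set_option linter.unusedSectionVars false

namespace Pool.Agent.Work.MP_0421d9_ag.ZC

open MvPolynomial Module SM

/-! ### the substitution `tr` -/

theorem tr_X (P : V3) (i : Fin 3) : tr P (X i) =
    (![X 0 + C (P 0) * X 2, X 1 + C (P 1) * X 2, C (P 2) * X 2] : Fin 3 → R3) i := by
  unfold tr; rw [aeval_X]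

theorem tr_X0 (P : V3) : tr P (X 0) = X 0 + C (P 0) * X 2 := tr_X P 0

theorem tr_X1 (P : V3) : tr P (X 1) = X 1 + C (P 1) * X 2 := tr_X P 1

theorem tr_X2 (P : V3) : tr P (X 2) = C (P 2) * X 2 := tr_X P 2

theorem tr_C (P : V3) (c : ℂ) : tr P (C c) = C c := by
  rw [algHom_C]; rfl

theorem tr_form (P : V3) (i : Fin 3) :
    (![X 0 + C (P 0) * X 2, X 1 + C (P 1) * X 2, C (P 2) * X 2] : Fin 3 → R3) i =
      ∑ l, C ((tv P (Pi.single l 1)) i) * X l := by
  fin_cases i <;> simp [tv, Fin.sum_univ_three]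

theorem tr_hom {F : R3} {d : ℕ} (hF : F.IsHomogeneous d) (P : V3) :
    (tr P F).IsHomogeneous d := by
  have h := hF.aeval (R := ℂ) (n := 1)
    (![X 0 + C (P 0) * X 2, X 1 + C (P 1) * X 2, C (P 2) * X 2] : Fin 3 → R3) (fun i => by
    fin_cases i
    · exact (isHomogeneous_X ℂ 0).add ((isHomogeneous_X ℂ 2).C_mul _)
    · exact (isHomogeneous_X ℂ 1).add ((isHomogeneous_X ℂ 2).C_mul _)
    · exact (isHomogeneous_X ℂ 2).C_mul _)
  rwa [one_mul] at h

theorem eval_tr (P v : V3) (F : R3) : eval v (tr P F) = eval (tv P v) F := by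
  unfold tr
  rw [eval_aeval_gen]
  congr 2
  funext i
  fin_cases i <;> simp [tv]

/-- the point with the inverse substitution -/
noncomputable def ip (P : V3) : V3 := ![-(P 0 / P 2), -(P 1 / P 2), (P 2)⁻¹]

theorem ip_two {P : V3} (hP : P 2 ≠ 0) : ip P 2 ≠ 0 := inv_ne_zero hP

theorem tv_ip {P : V3} (hP : P 2 ≠ 0) (v : V3) : tv P (tv (ip P) v) = v := by
  ext i
  fin_cases i
  · simp [tv, ip]
    field_simp
    ring
  · simp [tv, ip]
    field_simp
    ring
  · simp [tv, ip]
    field_simp

theorem ip_tv {P : V3} (hP : P 2 ≠ 0) (v : V3) : tv (ip P) (tv P v) = v := by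
  ext i
  fin_cases i
  · simp [tv, ip]
    field_simp
    ring
  · simp [tv, ip]
    field_simp
    ring
  · simp [tv, ip]
    field_simp

theorem tr_ip {P : V3} (hP : P 2 ≠ 0) (F : R3) : tr P (tr (ip P) F) = F := by
  apply MvPolynomial.funext
  intro y
  rw [eval_tr, eval_tr, ip_tv hP]

theorem ip_tr {P : V3} (hP : P 2 ≠ 0) (F : R3) : tr (ip P) (tr P F) = F := by
  apply MvPolynomial.funext
  intro y
  rw [eval_tr, eval_tr, tv_ip hP]

theorem tr_injective {P : V3} (hP : P 2 ≠ 0) : Function.Injective (tr P) := fun F G h => by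
  rw [← ip_tr hP F, h, ip_tr hP]

theorem tr_eq_zero {P : V3} (hP : P 2 ≠ 0) {F : R3} : tr P F = 0 ↔ F = 0 := by
  rw [← map_zero (tr P)]
  exact (tr_injective hP).eq_iff

/-- surjectivity of `tr` (inverse substitution) for homogeneous polynomials -/
theorem exists_tr_eq {P : V3} (hP : P 2 ≠ 0) {d : ℕ} {G : R3} (hG : G.IsHomogeneous d) :
    ∃ F : R3, F.IsHomogeneous d ∧ tr P F = G :=
  ⟨tr (ip P) G, tr_hom hG _, tr_ip hP G⟩

theorem exists_tv {P : V3} (hP : P 2 ≠ 0) (u : V3) : ∃ v, tv P v = u := ⟨tv (ip P) u, tv_ip hP u⟩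

theorem tv_add (P u v : V3) : tv P (u + v) = tv P u + tv P v := by
  ext i
  fin_cases i <;> simp [tv] <;> ring

theorem tv_smul (P : V3) (c : ℂ) (v : V3) : tv P (c • v) = c • tv P v := by
  ext i
  fin_cases i <;> simp [tv] <;> ring

theorem tv_zero (P : V3) : tv P 0 = 0 := by
  ext i
  fin_cases i <;> simp [tv]

theorem tv_eq_zero {P : V3} (hP : P 2 ≠ 0) {v : V3} : tv P v = 0 ↔ v = 0 := by
  constructor
  · intro h
    rw [← ip_tv hP v, h, tv_zero]
  · rintro rfl
    exact tv_zero P

theorem tv_single_two (P : V3) : tv P ![0, 0, 1] = P := by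
  ext i
  fin_cases i <;> simp [tv]

theorem cr_tv {P : V3} (hP : P 2 ≠ 0) {u v : V3} : cr (tv P u) (tv P v) = 0 ↔ cr u v = 0 := by
  have key : ∀ Q u v : V3, cr u v = 0 → cr (tv Q u) (tv Q v) = 0 := by
    intro Q u v h
    have h0 := congrFun h 0
    have h1 := congrFun h 1
    have h2 := congrFun h 2
    simp only [cr, Matrix.cons_val_zero, Matrix.cons_val_one, Pi.zero_apply, Matrix.cons_val] at h0 h1 h2
    ext i
    fin_cases i
    · simp [cr, tv]
      linear_combination (Q 2) * h0
    · simp [cr, tv]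
      linear_combination (Q 2) * h1
    · simp [cr, tv]
      linear_combination h2 - Q 1 * h1 - Q 0 * h0
  constructor
  · intro h
    have h1 := key (ip P) _ _ h
    rwa [ip_tv hP, ip_tv hP] at h1
  · exact key P u v

theorem component_tr (P : V3) (k : ℕ) (F : R3) :
    homogeneousComponent k (tr P F) = tr P (homogeneousComponent k F) := by
  have h : ∀ N, homogeneousComponent k (tr P (∑ j ∈ Finset.range N, homogeneousComponent j F)) =
      tr P (homogeneousComponent k (∑ j ∈ Finset.range N, homogeneousComponent j F)) := by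
    intro N
    rw [map_sum, map_sum, map_sum, map_sum]
    refine Finset.sum_congr rfl fun j _ => ?_
    have h1 := homogeneousComponent_isHomogeneous j F
    have h2 := tr_hom h1 P
    rw [homogeneousComponent_of_mem h2, homogeneousComponent_of_mem h1]
    split_ifs
    · rfl
    · rw [map_zero]
  have h1 := h (F.totalDegree + 1)
  rwa [sum_homogeneousComponent] at h1

theorem translate_tr (P v : V3) (F : R3) : translate v (tr P F) = tr P (translate (tv P v) F) := by
  apply MvPolynomial.funext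
  intro y
  rw [eval_translate, eval_tr, eval_tr, eval_translate, tv_add]

theorem vanishTo_tr {P : V3} (hP : P 2 ≠ 0) {F : R3} {v : V3} {k : ℕ} :
    VanishTo (tr P F) v k ↔ VanishTo F (tv P v) k := by
  unfold VanishTo
  refine forall_congr' fun j => forall_congr' fun _ => ?_
  rw [translate_tr, component_tr, tr_eq_zero hP]

theorem pderiv_tr (P : V3) (j : Fin 3) (F : R3) :
    pderiv j (tr P F) = tr P (dir (tv P (Pi.single j 1)) F) := by
  unfold tr
  rw [pderiv_aeval, dir_apply, map_sum]
  refine Finset.sum_congr rfl fun i _ => ?_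
  have h1 : pderiv j ((![X 0 + C (P 0) * X 2, X 1 + C (P 1) * X 2, C (P 2) * X 2] :
      Fin 3 → R3) i) = C (tv P (Pi.single j 1) i) := by
    rw [tr_form, map_sum, Finset.sum_eq_single j]
    · rw [pderiv_C_mul, pderiv_X_self, mul_one]
    · intro b _ hb
      rw [pderiv_C_mul, pderiv_X_of_ne hb, mul_zero]
    · intro h
      exact absurd (Finset.mem_univ j) h
  rw [h1, map_mul, mul_comm, algHom_C]
  rfl

theorem dir_tr (P v : V3) (F : R3) : dir v (tr P F) = tr P (dir (tv P v) F) := by
  have h : tv P v = ∑ j, v j • tv P (Pi.single j 1) := by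
    ext i
    fin_cases i <;> simp [tv, Fin.sum_univ_three, mul_comm]
  have h2 : dir (tv P v) F = ∑ j, C (v j) * dir (tv P (Pi.single j 1)) F := by
    rw [h]
    simp only [dir_apply, Fin.sum_univ_three, Pi.add_apply, Pi.smul_apply, smul_eq_mul, map_add,
      map_mul]
    ring
  rw [dir_apply, h2, map_sum]
  refine Finset.sum_congr rfl fun j _ => ?_
  rw [pderiv_tr, map_mul, tr_C]

theorem sing_iff_dir {F : R3} {q : V3} : (∀ k, eval q (pderiv k F) = 0) ↔
    ∀ v, eval q (dir v F) = 0 := by
  constructor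
  · intro h v
    rw [dir_apply, map_sum]
    refine Finset.sum_eq_zero fun i _ => ?_
    rw [map_mul, h i, mul_zero]
  · intro h k
    have h1 := h (Pi.single k 1)
    rw [dir_apply, map_sum, Finset.sum_eq_single k] at h1
    · rwa [Pi.single_eq_same, C_1, one_mul] at h1
    · intro b _ hb
      rw [Pi.single_eq_of_ne hb, C_0, zero_mul, map_zero]
    · intro h
      exact absurd (Finset.mem_univ k) h

theorem sing_tr {P : V3} (hP : P 2 ≠ 0) {F : R3} {v : V3} :
    (∀ k, eval v (pderiv k (tr P F)) = 0) ↔ ∀ k, eval (tv P v) (pderiv k F) = 0 := by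
  rw [sing_iff_dir, sing_iff_dir]
  constructor
  · intro h w
    have h1 := h (tv (ip P) w)
    rwa [dir_tr, eval_tr, tv_ip hP] at h1
  · intro h w
    rw [dir_tr, eval_tr]
    exact h _

theorem B_lin_list_tr (P : V3) (L : List V3) (F : R3) :
    B (L.map lin).prod (tr P F) = B ((L.map fun v => lin (tv P v)).prod) F := by
  induction L generalizing F with
  | nil =>
    rw [List.map_nil, List.map_nil, List.prod_nil]
    have h : ∀ H : R3, B 1 H = coeff 0 H := by
      intro H
      have : (1 : R3) = monomial 0 1 := rfl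
      rw [this, B_monomial]
      simp [wt]
    have h2 : ∀ H : R3, coeff 0 H = eval 0 H := by
      intro H
      rw [eval_zero]
      rfl
    rw [h, h, h2, h2, eval_tr, tv_zero]
  | cons v L ih =>
    rw [List.map_cons, List.prod_cons, B_lin_mul, dir_tr, ih, List.map_cons, List.prod_cons,
      B_lin_mul]

theorem badDir_tr {P : V3} {F : R3} {d m : ℕ} {v u : V3} (hP : P 2 ≠ 0) :
    BadDir d (tr P F) v m u ↔ BadDir d F (tv P v) m (tv P u) := by
  have h1 : ∀ (a b : V3) (i j : ℕ), B (lin a ^ i * lin b ^ j) (tr P F) =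
      B (lin (tv P a) ^ i * lin (tv P b) ^ j) F := by
    intro a b i j
    have h := B_lin_list_tr P (List.replicate i a ++ List.replicate j b) F
    simpa [List.map_append, List.prod_append, List.map_replicate, List.prod_replicate] using h
  have h2 : ∀ (a b w : V3) (i j : ℕ), B (lin a ^ i * (lin b ^ j * lin w)) (tr P F) =
      B (lin (tv P a) ^ i * (lin (tv P b) ^ j * lin (tv P w))) F := by
    intro a b w i j
    have h := B_lin_list_tr P (List.replicate i a ++ (List.replicate j b ++ [w])) F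
    simpa [List.map_append, List.prod_append, List.map_replicate, List.prod_replicate] using h
  unfold BadDir
  rw [h1]
  refine and_congr_right fun _ => forall_congr' fun _ => ?_
  constructor
  · intro h w
    have h3 := h (tv (ip P) w)
    rwa [h2, tv_ip hP] at h3
  · intro h w
    rw [h2]
    exact h _

/-! ### Taylor expansion -/

/-- the part of degree `k` of the Taylor expansion of `F` at `P`, in the affine coordinates `x, y` -/
noncomputable def ldr (k : ℕ) (P : V3) (F : R3) : R2 :=
  res (homogeneousComponent k (translate P F))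

theorem dir_smul_left (t : ℂ) (P : V3) (H : R3) : dir (t • P) H = C t * dir P H := by
  rw [dir_apply, dir_apply, Finset.mul_sum]
  refine Finset.sum_congr rfl fun i _ => ?_
  rw [Pi.smul_apply, smul_eq_mul, map_mul, mul_assoc]

/-- the components of the Taylor expansion of a form -/
theorem dir_component {F : R3} {d : ℕ} (hF : F.IsHomogeneous d) (P : V3) {k : ℕ} (hk : k + 1 ≤ d) :
    dir P (homogeneousComponent (k + 1) (translate P F)) =
      C ((d - k : ℕ) : ℂ) * homogeneousComponent k (translate P F) := by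
  rw [taylor_component hF P hk, taylor_component hF P (by omega : k ≤ d), dir_C_mul,
    ← Function.iterate_succ_apply' (dir P)]
  obtain ⟨j, rfl⟩ : ∃ j, d = k + 1 + j := ⟨d - k - 1, by omega⟩
  have e1 : k + 1 + j - (k + 1) = j := by omega
  have e2 : k + 1 + j - k = j + 1 := by omega
  rw [e1, e2, ← mul_assoc, ← map_mul]
  congr 2
  rw [Nat.factorial_succ]
  push_cast
  field_simp

theorem eval_add_smul {P : V3} {H : R3} {k : ℕ} (hH : H.IsHomogeneous k) (h : dir P H = 0) (y : V3)
    (t : ℂ) : eval (t • P + y) H = eval y H := by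
  have h1 : dir (t • P) H = 0 := by rw [dir_smul_left, h, mul_zero]
  rw [← eval_translate, translate_eq hH, Finset.sum_eq_single 0]
  · rw [Nat.factorial_zero, Nat.cast_one, inv_one, C_1, one_mul, Function.iterate_zero, id]
  · intro n _ hn
    obtain ⟨j, rfl⟩ : ∃ j, n = j + 1 := ⟨n - 1, by omega⟩
    have h2 : (dir (t • P))^[j + 1] H = 0 := by
      rw [Function.iterate_succ_apply, h1, iterate_map_zero]
    rw [h2, mul_zero]
  · intro hn
    exact absurd (Finset.mem_range.mpr (Nat.succ_pos _)) hn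

theorem dir_component_zero {F : R3} {d : ℕ} (hF : F.IsHomogeneous d) {P : V3} {m : ℕ}
    (h : VanishTo F P m) : dir P (homogeneousComponent m (translate P F)) = 0 := by
  rcases Nat.lt_or_ge d m with hdm | hdm
  · rw [taylor_component_gt hF P hdm, map_zero]
  · cases m with
    | zero =>
      rw [homogeneousComponent_zero, dir_C]
    | succ k => rw [dir_component hF P hdm, h k (Nat.lt_succ_self k), mul_zero]

/-- the projection of a direction at `P` to the affine plane -/
noncomputable def pr (P u : V3) : V2 := ![u 0 - u 2 / P 2 * P 0, u 1 - u 2 / P 2 * P 1]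

/-- the leading part depends only on the direction modulo `P` -/
theorem eval_component_pr {F : R3} {d : ℕ} (hF : F.IsHomogeneous d) {P : V3} (hP : P 2 ≠ 0) {m : ℕ}
    (h : VanishTo F P m) (u : V3) :
    eval u (homogeneousComponent m (translate P F)) = eval (pr P u) (ldr m P F) := by
  unfold ldr
  rw [eval_res, ← eval_add_smul (homogeneousComponent_isHomogeneous m _) (dir_component_zero hF h)
    u (-(u 2 / P 2))]
  have h2 : (-(u 2 / P 2)) • P + u = ![pr P u 0, pr P u 1, 0] := by
    ext i
    fin_cases i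
    · simp [pr]
      ring
    · simp [pr]
      ring
    · simp [pr]
      field_simp
      ring
  rw [h2]

/-- a form vanishes to order `m + 1` if the leading form of degree `m` is zero -/
theorem vanish_succ {F : R3} {d : ℕ} (hF : F.IsHomogeneous d) {P : V3} (hP : P 2 ≠ 0) {m : ℕ}
    (h : VanishTo F P m) (h0 : ldr m P F = 0) : VanishTo F P (m + 1) := by
  intro k hk
  rcases Nat.lt_or_ge k m with h1 | h1
  · exact h k h1
  · have h2 : k = m := by omega
    subst h2
    apply MvPolynomial.funext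
    intro u
    rw [eval_component_pr hF hP h u, h0, map_zero, map_zero]

theorem vanish_iff_ldr {F : R3} {d : ℕ} (hF : F.IsHomogeneous d) {P : V3} (hP : P 2 ≠ 0) {m : ℕ} :
    VanishTo F P m ↔ ∀ k < m, ldr k P F = 0 := by
  constructor
  · intro h k hk
    unfold ldr
    rw [h k hk, map_zero]
  · intro h
    induction m with
    | zero => exact vanishTo_zero _ _
    | succ m ih => exact vanish_succ hF hP (ih fun k hk => h k (by omega)) (h m (by omega))

/-! ### coefficients of powers of `z` -/

theorem coeff_iterate_pderiv_two (F : R3) (a b : ℕ) : ∀ j i : ℕ,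
    coeff (e3 a b i) ((pderiv 2)^[j] F) * (i.factorial : ℂ) =
      ((i + j).factorial : ℂ) * coeff (e3 a b (i + j)) F := by
  intro j
  induction j with
  | zero => intro i; rw [Function.iterate_zero, id, add_zero, mul_comm]
  | succ j ih =>
    intro i
    have h1 : e3 a b i + Finsupp.single 2 1 = e3 a b (i + 1) := by
      rw [e3_eq]
      refine ⟨?_, ?_, ?_⟩ <;> simp [e3]
    have h2 : (e3 a b i) 2 = i := rfl
    have h3 := ih (i + 1)
    rw [Function.iterate_succ_apply', coeff_pderiv, h1, h2]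
    rw [Nat.factorial_succ] at h3
    have e : i + (j + 1) = i + 1 + j := by ring
    rw [e, ← h3]
    push_cast
    ring

theorem R2_ext {f g : R2} (h : ∀ a b, coeff (e2 a b) f = coeff (e2 a b) g) : f = g := by
  ext α
  have h1 : α = e2 (α 0) (α 1) := e2_eq.mpr ⟨rfl, rfl⟩
  rw [h1]
  exact h _ _

theorem cz_eq (j : ℕ) (F : R3) : cz j F = C ((j.factorial : ℂ)⁻¹) * res ((pderiv 2)^[j] F) := by
  apply R2_ext
  intro a b
  have h := coeff_iterate_pderiv_two F a b j 0
  rw [zero_add, Nat.factorial_zero, Nat.cast_one, mul_one] at h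
  rw [coeff_cz, coeff_C_mul, coeff_res, h, ← mul_assoc,
    inv_mul_cancel₀ (by exact_mod_cast Nat.factorial_ne_zero _), one_mul]

theorem res_tr (P : V3) (F : R3) : res (tr P F) = res F := by
  apply MvPolynomial.funext
  intro y
  rw [eval_res, eval_tr, eval_res]
  congr 2
  funext i
  fin_cases i <;> simp [tv]

theorem pderiv_two_iterate_tr (P : V3) (F : R3) (j : ℕ) :
    (pderiv 2)^[j] (tr P F) = tr P ((dir P)^[j] F) := by
  induction j with
  | zero => rfl
  | succ j ih =>
    rw [Function.iterate_succ_apply', ih, pderiv_tr, Function.iterate_succ_apply']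
    congr 3
    ext i
    fin_cases i <;> simp [tv]

theorem ld_apply (d k : ℕ) (P : V3) (F : R3) : ld d k P F = cz (d - k) (tr P F) := rfl

/-- the two descriptions of the leading form -/
theorem ld_eq_ldr {F : R3} {d k : ℕ} (hF : F.IsHomogeneous d) (hk : k ≤ d) (P : V3) :
    ld d k P F = ldr k P F := by
  change cz (d - k) (tr P F) = _
  unfold ldr
  rw [cz_eq, pderiv_two_iterate_tr, res_tr, taylor_component hF P hk, map_mul, res_C]

theorem ld_hom {F : R3} {d k : ℕ} (hF : F.IsHomogeneous d) (hk : k ≤ d) (P : V3) :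
    (ld d k P F).IsHomogeneous k := by
  rw [ld_eq_ldr hF hk]
  exact res_hom (homogeneousComponent_isHomogeneous _ _)

theorem vanishTo_iff_ld {F : R3} {d m : ℕ} (hF : F.IsHomogeneous d) {P : V3} (hP : P 2 ≠ 0)
    (hm : m ≤ d + 1) : VanishTo F P m ↔ ∀ k < m, ld d k P F = 0 := by
  rw [vanish_iff_ldr hF hP]
  refine forall_congr' fun k => forall_congr' fun hk => ?_
  rw [ld_eq_ldr hF (by omega)]

theorem ld_of_vanish {F : R3} {d k m : ℕ} (hF : F.IsHomogeneous d) {P : V3} (h : VanishTo F P m)
    (hk : k < m) (hkd : k ≤ d) : ld d k P F = 0 := by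
  rw [ld_eq_ldr hF hkd]
  unfold ldr
  rw [h k hk, map_zero]

/-! ### derivations -/

theorem cD_cz (D : Derivation ℚ ℂ ℂ) (j : ℕ) (F : R3) : cD D (cz j F) = cz j (cD D F) := by
  apply R2_ext
  intro a b
  rw [coeff_cD, coeff_cz, coeff_cz, coeff_cD]

theorem cz_mul_X2 (j : ℕ) (F : R3) : cz (j + 1) (F * X 2) = cz j F := by
  apply R2_ext
  intro a b
  rw [coeff_cz, coeff_cz]
  have h1 : e3 a b (j + 1) = e3 a b j + Finsupp.single 2 1 := by
    symm
    rw [e3_eq]
    refine ⟨?_, ?_, ?_⟩ <;> simp [e3]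
  rw [h1, coeff_mul_X]

theorem cD_tr (D : Derivation ℚ ℂ ℂ) (P : V3) (F : R3) : cD D (tr P F) = tr P (cD D F) +
    (C (D (P 0)) * tr P (pderiv 0 F) + C (D (P 1)) * tr P (pderiv 1 F) +
      C (D (P 2)) * tr P (pderiv 2 F)) * X 2 := by
  unfold tr
  rw [cD_aeval, Fin.sum_univ_three]
  simp only [Matrix.cons_val_zero, Matrix.cons_val_one, Matrix.cons_val, map_add, cD_mul, cD_X,
    cD_C, mul_zero, add_zero, zero_add]
  ring

theorem pderiv_cz_zero (j : ℕ) (F : R3) : pderiv 0 (cz j F) = cz j (pderiv 0 F) := by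
  apply R2_ext
  intro a b
  rw [coeff_pderiv, coeff_cz, coeff_pderiv]
  have h1 : e2 a b + Finsupp.single 0 1 = e2 (a + 1) b := by
    rw [e2_eq]
    constructor <;> simp [e2]
  have h2 : e3 a b j + Finsupp.single 0 1 = e3 (a + 1) b j := by
    rw [e3_eq]
    refine ⟨?_, ?_, ?_⟩ <;> simp [e3]
  rw [h1, h2, coeff_cz]
  rfl

theorem pderiv_cz_one (j : ℕ) (F : R3) : pderiv 1 (cz j F) = cz j (pderiv 1 F) := by
  apply R2_ext
  intro a b
  rw [coeff_pderiv, coeff_cz, coeff_pderiv]
  have h1 : e2 a b + Finsupp.single 1 1 = e2 a (b + 1) := by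
    rw [e2_eq]
    constructor <;> simp [e2]
  have h2 : e3 a b j + Finsupp.single 1 1 = e3 a (b + 1) j := by
    rw [e3_eq]
    refine ⟨?_, ?_, ?_⟩ <;> simp [e3]
  rw [h1, h2, coeff_cz]
  rfl

theorem tr_pderiv_zero (P : V3) (F : R3) : tr P (pderiv 0 F) = pderiv 0 (tr P F) := by
  rw [pderiv_tr]
  congr 1
  have h : tv P (Pi.single 0 1) = Pi.single 0 1 := by
    ext i
    fin_cases i <;> simp [tv]
  rw [h, dir_apply, Finset.sum_eq_single 0]
  · rw [Pi.single_eq_same, C_1, one_mul]
  · intro b _ hb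
    rw [Pi.single_eq_of_ne hb, C_0, zero_mul]
  · intro h
    exact absurd (Finset.mem_univ _) h

theorem tr_pderiv_one (P : V3) (F : R3) : tr P (pderiv 1 F) = pderiv 1 (tr P F) := by
  rw [pderiv_tr]
  congr 1
  have h : tv P (Pi.single 1 1) = Pi.single 1 1 := by
    ext i
    fin_cases i <;> simp [tv]
  rw [h, dir_apply, Finset.sum_eq_single 1]
  · rw [Pi.single_eq_same, C_1, one_mul]
  · intro b _ hb
    rw [Pi.single_eq_of_ne hb, C_0, zero_mul]
  · intro h
    exact absurd (Finset.mem_univ _) h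

theorem ld_pderiv_zero (d k : ℕ) (P : V3) (F : R3) :
    ld d k P (pderiv 0 F) = pderiv 0 (ld d k P F) := by
  change cz (d - k) (tr P _) = pderiv 0 (cz (d - k) (tr P F))
  rw [pderiv_cz_zero, tr_pderiv_zero]

theorem ld_pderiv_one (d k : ℕ) (P : V3) (F : R3) :
    ld d k P (pderiv 1 F) = pderiv 1 (ld d k P F) := by
  change cz (d - k) (tr P _) = pderiv 1 (cz (d - k) (tr P F))
  rw [pderiv_cz_one, tr_pderiv_one]

theorem cz_C_mul (j : ℕ) (c : ℂ) (F : R3) : cz j (C c * F) = C c * cz j F := by
  rw [← smul_eq_C_mul, map_smul, smul_eq_C_mul]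

/-- the derivative of the leading part when the point moves, the third coordinate being fixed -/
theorem cD_ld_move (D : Derivation ℚ ℂ ℂ) {P : V3} (h2 : D (P 2) = 0) {d k : ℕ} (hk : k + 1 ≤ d)
    (F : R3) : cD D (ld d k P F) = ld d k P (cD D F) +
      (C (D (P 0)) * pderiv 0 (ld d (k + 1) P F) + C (D (P 1)) * pderiv 1 (ld d (k + 1) P F)) := by
  rw [← ld_pderiv_zero, ← ld_pderiv_one]
  change cD D (cz (d - k) (tr P F)) = cz (d - k) (tr P (cD D F)) +
    (C (D (P 0)) * cz (d - (k + 1)) (tr P (pderiv 0 F)) +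
      C (D (P 1)) * cz (d - (k + 1)) (tr P (pderiv 1 F)))
  obtain ⟨j, hj⟩ : ∃ j, d - k = j + 1 := ⟨d - k - 1, by omega⟩
  have hj' : d - (k + 1) = j := by omega
  rw [cD_cz, cD_tr, h2, map_zero, zero_mul, add_zero, hj, hj', map_add, cz_mul_X2, map_add,
    cz_C_mul, cz_C_mul]

theorem cD_ld (D : Derivation ℚ ℂ ℂ) {P : V3} (hP : ∀ k, D (P k) = 0) (d k : ℕ) (F : R3) :
    cD D (ld d k P F) = ld d k P (cD D F) := by
  change cD D (cz (d - k) (tr P F)) = cz (d - k) (tr P (cD D F))
  rw [cD_cz, cD_tr, hP, hP, hP, map_zero, zero_mul, zero_mul, zero_mul, add_zero, add_zero,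
    zero_mul, add_zero]

theorem vanishTo_cD (D : Derivation ℚ ℂ ℂ) {P : V3} {F : R3} {k : ℕ} (h : VanishTo F P (k + 1)) :
    VanishTo (cD D F) P k := by
  have h1 := (LD.Rk.vanishTo_cD_dir D h).mono (Nat.le_succ k)
  have h2 : VanishTo (dir (fun i => D (P i)) F) P k := by
    rw [dir_apply, Fin.sum_univ_three]
    have h3 : ∀ i, VanishTo (C (D (P i)) * pderiv i F) P k := fun i => by
      have h4 := vanishTo_mul (vanishTo_zero (C (D (P i))) P) (vanishTo_pderiv i h)
      rwa [zero_add] at h4
    exact vanishTo_add (vanishTo_add (h3 0) (h3 1)) (h3 2)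
  have h3 := vanishTo_add h1 (vanishTo_smul (-1) h2)
  have h4 : cD D F + dir (fun i => D (P i)) F + (-1 : ℂ) • dir (fun i => D (P i)) F = cD D F := by
    rw [neg_smul, one_smul]
    ring
  rwa [h4] at h3

theorem vanishTo_cD_fixed (D : Derivation ℚ ℂ ℂ) {P : V3} (hP : ∀ k, D (P k) = 0) {F : R3} {k : ℕ}
    (h : VanishTo F P k) : VanishTo (cD D F) P k := LD.Rk.vanishTo_fixed D hP h

/-! ### bad directions -/

theorem eval_dir_component {F : R3} {d : ℕ} (hF : F.IsHomogeneous d) {P : V3} (hP : P 2 ≠ 0)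
    {m : ℕ} (h : VanishTo F P m) (u w : V3) :
    eval u (dir w (homogeneousComponent m (translate P F))) =
      pr P w 0 * eval (pr P u) (pderiv 0 (ldr m P F)) +
        pr P w 1 * eval (pr P u) (pderiv 1 (ldr m P F)) := by
  cases m with
  | zero =>
    unfold ldr
    rw [homogeneousComponent_zero, dir_C, map_zero, res_C, pderiv_C, pderiv_C, map_zero, mul_zero,
      mul_zero, add_zero]
  | succ k =>
    have key : ∀ i : Fin 3, eval u (pderiv i (homogeneousComponent (k + 1) (translate P F))) =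
        eval (pr P u) (ldr k P (pderiv i F)) := by
      intro i
      rw [← component_pderiv, ← translate_pderiv]
      exact eval_component_pr hF.pderiv hP (vanishTo_pderiv i h) u
    have h0 : ldr k P (pderiv 0 F) = pderiv 0 (ldr (k + 1) P F) := by
      unfold ldr
      rw [translate_pderiv, component_pderiv, res_pderiv_zero]
    have h1 : ldr k P (pderiv 1 F) = pderiv 1 (ldr (k + 1) P F) := by
      unfold ldr
      rw [translate_pderiv, component_pderiv, res_pderiv_one]
    have hE := congrArg (eval u) (dir_component_zero hF h)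
    rw [map_zero, dir_apply, map_sum, Fin.sum_univ_three, map_mul, map_mul, map_mul, eval_C, eval_C,
      eval_C, key 0, key 1, h0, h1] at hE
    rw [dir_apply, map_sum, Fin.sum_univ_three, map_mul, map_mul, map_mul, eval_C, eval_C,
      eval_C, key 0, key 1, h0, h1]
    have h3 : pr P w 0 = w 0 - w 2 / P 2 * P 0 := rfl
    have h4 : pr P w 1 = w 1 - w 2 / P 2 * P 1 := rfl
    rw [h3, h4]
    have h5 : eval u (pderiv 2 (homogeneousComponent (k + 1) (translate P F))) =
        -(P 0 * eval (pr P u) (pderiv 0 (ldr (k + 1) P F)) +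
          P 1 * eval (pr P u) (pderiv 1 (ldr (k + 1) P F))) / P 2 := by
      rw [eq_div_iff hP]
      linear_combination hE
    rw [h5]
    field_simp
    ring

theorem B_component {F : R3} {d : ℕ} (hF : F.IsHomogeneous d) (P : V3) {k : ℕ} (hk : k ≤ d)
    (A : R3) : B (lin P ^ (d - k) * A) F =
      (d - k).factorial * B A (homogeneousComponent k (translate P F)) := by
  rw [B_lin_pow_mul, taylor_component hF P hk, B_C_mul_right, ← mul_assoc,
    mul_inv_cancel₀ (by exact_mod_cast Nat.factorial_ne_zero _), one_mul]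

theorem B_lin_pow_component {F : R3} {d : ℕ} (hF : F.IsHomogeneous d) (P : V3) {k : ℕ} (hk : k ≤ d)
    (u : V3) : B (lin P ^ (d - k) * lin u ^ k) F =
      (d - k).factorial * (k.factorial * eval u (homogeneousComponent k (translate P F))) := by
  rw [B_component hF P hk, B_lin_pow (homogeneousComponent_isHomogeneous k _)]

theorem B_lin_pow_component' {F : R3} {d : ℕ} (hF : F.IsHomogeneous d) (P : V3) {k : ℕ}
    (hk : k + 1 ≤ d) (u w : V3) : B (lin P ^ (d - (k + 1)) * (lin u ^ k * lin w)) F =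
      (d - (k + 1)).factorial * (k.factorial *
        eval u (dir w (homogeneousComponent (k + 1) (translate P F)))) := by
  have h1 := dir_isHomogeneous w (homogeneousComponent_isHomogeneous (k + 1) (translate P F))
  rw [Nat.add_sub_cancel] at h1
  rw [B_component hF P hk, mul_comm (lin u ^ k), B_lin_mul, B_lin_pow h1]

theorem badDir_iff {F : R3} {d m : ℕ} (hF : F.IsHomogeneous d) {P : V3} (hP : P 2 ≠ 0)
    (hmd : m ≤ d) (hv : VanishTo F P m) {u : V3} :
    BadDir d F P m u ↔ eval (pr P u) (ld d m P F) = 0 ∧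
      ∀ k, eval (pr P u) (pderiv k (ld d m P F)) = 0 := by
  have hf : ∀ n : ℕ, (n.factorial : ℂ) ≠ 0 := fun n => by exact_mod_cast Nat.factorial_ne_zero n
  rw [ld_eq_ldr hF hmd]
  unfold BadDir
  rw [B_lin_pow_component hF P hmd, eval_component_pr hF hP hv, mul_eq_zero, mul_eq_zero]
  simp only [hf, false_or]
  refine and_congr_right fun _ => ?_
  cases m with
  | zero =>
    constructor
    · intro _ k
      unfold ldr
      rw [homogeneousComponent_zero, res_C, pderiv_C, map_zero]
    · intro _ h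
      omega
  | succ n =>
    have key : ∀ w, B (lin P ^ (d - (n + 1)) * (lin u ^ (n + 1 - 1) * lin w)) F = 0 ↔
        pr P w 0 * eval (pr P u) (pderiv 0 (ldr (n + 1) P F)) +
        pr P w 1 * eval (pr P u) (pderiv 1 (ldr (n + 1) P F)) = 0 := by
      intro w
      rw [Nat.add_sub_cancel, B_lin_pow_component' hF P hmd, eval_dir_component hF hP hv,
        mul_eq_zero, mul_eq_zero]
      simp only [hf, false_or]
    constructor
    · intro h k
      have h0 := (key ![1, 0, 0]).mp (h (by omega) _)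
      have h1 := (key ![0, 1, 0]).mp (h (by omega) _)
      simp only [pr, Matrix.cons_val_zero, Matrix.cons_val_one, Matrix.cons_val] at h0 h1
      fin_cases k
      · simpa [pr] using h0
      · simpa [pr] using h1
    · intro h _ w
      rw [key, h 0, h 1, mul_zero, mul_zero, add_zero]

theorem pr_eq_zero {P : V3} (hP : P 2 ≠ 0) {u : V3} : pr P u = 0 ↔ cr P u = 0 := by
  constructor
  · intro h
    have h0 := congrFun h 0
    have h1 := congrFun h 1
    simp only [pr, Matrix.cons_val_zero, Matrix.cons_val_one, Pi.zero_apply] at h0 h1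
    have h0' : P 2 * u 0 = u 2 * P 0 := by
      field_simp at h0
      linear_combination h0
    have h1' : P 2 * u 1 = u 2 * P 1 := by
      field_simp at h1
      linear_combination h1
    ext i
    fin_cases i
    · simp [cr]
      linear_combination -h1'
    · simp [cr]
      linear_combination h0'
    · simp [cr]
      apply mul_left_cancel₀ hP
      linear_combination P 0 * h1' - P 1 * h0'
  · intro h
    have h0 := congrFun h 0
    have h1 := congrFun h 1
    simp only [cr, Matrix.cons_val_zero, Matrix.cons_val_one, Pi.zero_apply] at h0 h1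
    ext i
    fin_cases i
    · simp [pr]
      field_simp
      linear_combination h1
    · simp [pr]
      field_simp
      linear_combination -h0

theorem pr_flat (P : V3) (y : V2) : pr P ![y 0, y 1, 0] = y := by
  ext i
  fin_cases i <;> simp [pr]

/-- bad directions are the multiple roots of the leading part -/
theorem badDir_iff_ld {F : R3} {d m : ℕ} (hF : F.IsHomogeneous d) {P : V3} (hP : P 2 ≠ 0)
    (hm : 1 ≤ m) (hmd : m ≤ d) (hv : VanishTo F P m) :
    (∃ u, cr P u ≠ 0 ∧ BadDir d F P m u) ↔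
      ∃ y : V2, y ≠ 0 ∧ ∀ k, eval y (pderiv k (ld d m P F)) = 0 := by
  constructor
  · rintro ⟨u, hu, hb⟩
    exact ⟨pr P u, fun h => hu ((pr_eq_zero hP).mp h), ((badDir_iff hF hP hmd hv).mp hb).2⟩
  · rintro ⟨y, hy, hb⟩
    refine ⟨![y 0, y 1, 0], ?_, ?_⟩
    · intro h
      rw [← pr_eq_zero hP, pr_flat] at h
      exact hy h
    · rw [badDir_iff hF hP hmd hv, pr_flat]
      refine ⟨?_, hb⟩
      have h1 := (ld_hom hF hmd P).sum_X_mul_pderiv
      have h2 := congrArg (eval y) h1
      rw [map_sum, map_nsmul, Finset.sum_eq_zero] at h2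
      · rw [eq_comm, smul_eq_zero] at h2
        exact h2.resolve_left (by omega)
      · intro i _
        rw [map_mul, hb i, mul_zero]

theorem ld_zero_eq {F : R3} {d : ℕ} (hF : F.IsHomogeneous d) (P : V3) :
    ld d 0 P F = C (eval P F) := by
  rw [ld_eq_ldr hF (Nat.zero_le d)]
  unfold ldr
  rw [homogeneousComponent_zero, res_C]
  congr 1
  have h1 := eval_translate P 0 F
  rw [add_zero] at h1
  rw [← h1, eval_zero]
  rfl

theorem badDir_zero_iff {F : R3} {d : ℕ} (hF : F.IsHomogeneous d) {P : V3} (hP : P 2 ≠ 0) :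
    (∃ u, cr P u ≠ 0 ∧ BadDir d F P 0 u) ↔ ld d 0 P F = 0 := by
  rw [ld_zero_eq hF]
  have hf : ∀ n : ℕ, (n.factorial : ℂ) ≠ 0 := fun n => by exact_mod_cast Nat.factorial_ne_zero n
  have key : ∀ u, BadDir d F P 0 u ↔ eval P F = 0 := by
    intro u
    unfold BadDir
    rw [Nat.sub_zero, pow_zero, mul_one, B_lin_pow hF, mul_eq_zero]
    constructor
    · rintro ⟨h, _⟩
      exact h.resolve_left (hf d)
    · intro h
      exact ⟨Or.inr h, fun h => absurd h (by omega)⟩
  constructor
  · rintro ⟨u, _, hb⟩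
    rw [(key u).mp hb, C_0]
  · intro h
    obtain ⟨u, hu⟩ := exists_cr_ne (p := P) (fun h => hP (by rw [h]; rfl))
    refine ⟨u, hu, (key u).mpr ?_⟩
    exact C_injective _ _ (by rw [h, C_0])

/-! ### products -/

theorem ldr_mul {F G : R3} {k : ℕ} {P : V3} (hv : VanishTo G P k) :
    ldr k P (F * G) = C (eval P F) * ldr k P G := by
  have h1 : VanishTo (F - C (eval P F)) P 1 := by
    rw [vanishTo_one_iff', map_sub, eval_C, sub_self]
  have h2 := vanishTo_mul h1 hv
  have h3 : homogeneousComponent k (translate P (F * G)) =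
      C (eval P F) * homogeneousComponent k (translate P G) := by
    have h4 := h2 k (by omega)
    have h5 : translate P ((F - C (eval P F)) * G) = translate P (F * G) -
        C (eval P F) * translate P G := by
      unfold translate
      rw [map_mul, map_sub, algHom_C, map_mul, sub_mul]
      rfl
    rw [h5, map_sub, sub_eq_zero, homogeneousComponent_C_mul] at h4
    exact h4
  unfold ldr
  rw [h3, map_mul, res_C]

theorem ld_mul {F G : R3} {d e k : ℕ} (hF : F.IsHomogeneous d) (hG : G.IsHomogeneous e) {P : V3}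
    (hP : P 2 ≠ 0) (hk : k ≤ e) (hv : VanishTo G P k) :
    ld (d + e) k P (F * G) = C (eval P F) * ld e k P G := by
  rw [ld_eq_ldr (hF.mul hG) (by omega), ld_eq_ldr hG hk, ldr_mul hv]

/-! ### flags -/

theorem fd_eq (d k : ℕ) (P : V3) (c : ℂ) (i : ℕ) (F : R3) :
    fd d k P c i F = eval ![c, 1] ((pderiv 0)^[i] (ld d k P F)) := rfl

theorem cD_pderiv_iter (D : Derivation ℚ ℂ ℂ) (i : ℕ) (G : R2) :
    cD D ((pderiv 0)^[i] G) = (pderiv 0)^[i] (cD D G) := by
  induction i generalizing G with
  | zero => rfl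
  | succ i ih => rw [Function.iterate_succ_apply, ih, cD_pderiv, Function.iterate_succ_apply]

/-- the flag functionals under derivations which fix the point -/
theorem D_fd (D : Derivation ℚ ℂ ℂ) {P : V3} (hP : ∀ k, D (P k) = 0) (d k : ℕ) (c : ℂ) (i : ℕ)
    (F : R3) : D (fd d k P c i F) = fd d k P c i (cD D F) + D c * fd d k P c (i + 1) F := by
  rw [fd_eq, fd_eq, fd_eq, D_eval, cD_pderiv_iter, cD_ld D hP, Fin.sum_univ_two,
    Function.iterate_succ_apply']
  simp

theorem ld_eq_zero_of_fd {d k : ℕ} (hk : k ≤ d) {P : V3} {c : ℂ} {F : R3} (hF : F.IsHomogeneous d)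
    (h : ∀ i, fd d k P c i F = 0) : ld d k P F = 0 := by
  have hh := ld_hom hF hk P
  have h1 : ∀ i, (Polynomial.derivative^[i] (deh (ld d k P F))).eval c = 0 := by
    intro i
    rw [deriv_deh_iterate, eval_deh]
    exact h i
  have h2 : deh (ld d k P F) = 0 := by
    by_contra h0
    have h3 := Polynomial.lt_rootMultiplicity_of_isRoot_iterate_derivative h0
      (n := (deh (ld d k P F)).natDegree) (t := c) (fun m _ => h1 m)
    have h4 := (Polynomial.count_roots (a := c) (deh (ld d k P F))).symm.le.trans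
      ((Multiset.count_le_card _ _).trans (Polynomial.card_roots' _))
    omega
  exact eq_zero_of_deh hh h2

/-! ### places -/

theorem LP_tr (ρ : Pl) {P P' : V3} (hP : ∀ k, ρ.L (P k) (P' k)) {F F' : R3} (h : ρ.LP F F') :
    ρ.LP (tr P F) (tr P' F') := by
  unfold tr
  refine h.aeval fun i => ?_
  fin_cases i
  · exact (ρ.LP_X 0).add ((ρ.LP_C (hP 0)).mul (ρ.LP_X 2))
  · exact (ρ.LP_X 1).add ((ρ.LP_C (hP 1)).mul (ρ.LP_X 2))
  · exact (ρ.LP_C (hP 2)).mul (ρ.LP_X 2)

theorem LP_cz (ρ : Pl) {F F' : R3} (h : ρ.LP F F') (j : ℕ) : ρ.LP (cz j F) (cz j F') := by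
  intro α
  have h1 : α = e2 (α 0) (α 1) := e2_eq.mpr ⟨rfl, rfl⟩
  rw [h1, coeff_cz, coeff_cz]
  exact h _

theorem LP_ld (ρ : Pl) {P P' : V3} (hP : ∀ k, ρ.L (P k) (P' k)) {F F' : R3} (h : ρ.LP F F')
    (d k : ℕ) : ρ.LP (ld d k P F) (ld d k P' F') := by
  rw [ld_apply, ld_apply]
  exact LP_cz ρ (LP_tr ρ hP h) (d - k)

theorem LP_pderiv_iter (ρ : Pl) {G G' : R2} (h : ρ.LP G G') (i : ℕ) :
    ρ.LP ((pderiv 0)^[i] G) ((pderiv 0)^[i] G') := by
  induction i with
  | zero => exact h
  | succ i ih =>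
    rw [Function.iterate_succ_apply', Function.iterate_succ_apply']
    exact ih.pderiv 0

theorem L_fd (ρ : Pl) {P P' : V3} (hP : ∀ k, ρ.L (P k) (P' k)) {F F' : R3} (h : ρ.LP F F')
    {c c' : ℂ} (hc : ρ.L c c') (d k i : ℕ) : ρ.L (fd d k P c i F) (fd d k P' c' i F') := by
  rw [fd_eq, fd_eq]
  refine (LP_pderiv_iter ρ (LP_ld ρ hP h d k) i).eval fun j => ?_
  fin_cases j
  · exact hc
  · exact ρ.one

end Pool.Agent.Work.MP_0421d9_ag.ZC
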