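import Pool.Agent.Work.MP_0421d9_ag.ZCDat
import Pool.Agent.Work.MP_0421d9_ag.ZCLead

/-!
Collisions of generic points: the dimension of the systems with flags.
-/

set_option linter.unusedSectionVars false

namespace Pool.Agent.Work.MP_0421d9_ag.ZC

open MvPolynomial Module SM

section ZCDim

variable {ι Λ : Type}

theorem FS_le (d : ℕ) (p : ι → V3) (m : ι → ℕ) (P : Λ → V3) (μ : Λ → ℕ) (c : Λ → ℂ)
    (w : Λ → ℕ) : FS d p m P μ c w ≤ linSys d (Sum.elim p P) (Sum.elim m μ) := fun _ h => h.1

instance finite_FS (d : ℕ) (p : ι → V3) (m : ι → ℕ) (P : Λ → V3) (μ : Λ → ℕ) (c : Λ → ℂ)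
    (w : Λ → ℕ) : Module.Finite ℂ (FS d p m P μ c w) :=
  Submodule.finiteDimensional_of_le (FS_le d p m P μ c w)

/-- the systems with flags are stable under the derivations which fix the points if all
functionals are controlled -/
theorem FS_cD {d : ℕ} {p : ι → V3} {m : ι → ℕ} {P : Λ → V3} {μ : Λ → ℕ} {c : Λ → ℂ}
    {w : Λ → ℕ} (hm : ∀ i, m i ≤ d + 1) (hμ : ∀ l, μ l ≤ d + 1) {D : Derivation ℚ ℂ ℂ}
    (hDp : ∀ i k, D (p i k) = 0) (hDP : ∀ l k, D (P l k) = 0) {F : R3}
    (hF : F ∈ FS d p m P μ c w)
    (h : ∀ l, ∀ i < w l, D (c l) * fd d (μ l) (P l) (c l) (i + 1) F = 0) :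
    cD D F ∈ FS d p m P μ c w := by
  refine ⟨linSys_cD_mem (fun x => ?_) hF.1 (fun x => Or.inl ?_), fun l i hi => ?_⟩
  · rcases x with i | l
    · exact hm i
    · exact hμ l
  · rcases x with i | l
    · exact hDp i
    · exact hDP l
  · have h1 := D_fd D (hDP l) d (μ l) (c l) i F
    rw [hF.2 l i hi, map_zero, h l i hi, add_zero] at h1
    exact h1.symm

/-- if the next functional vanishes identically on a system with flags, then all functionals at
this point vanish -/
theorem fd_all {d : ℕ} {p : ι → V3} {m : ι → ℕ} {P : Λ → V3} {μ : Λ → ℕ} {c : Λ → ℂ}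
    {w : Λ → ℕ} (hm : ∀ i, m i ≤ d + 1) (hμ : ∀ l, μ l ≤ d + 1) {D : Derivation ℚ ℂ ℂ} {l : Λ}
    (hDp : ∀ i k, D (p i k) = 0) (hDP : ∀ l k, D (P l k) = 0) (hD : D (c l) = 1)
    (hD' : ∀ l', l' ≠ l → D (c l') = 0)
    (hvan : ∀ F ∈ FS d p m P μ c w, fd d (μ l) (P l) (c l) (w l) F = 0) :
    ∀ i, ∀ F ∈ FS d p m P μ c w, fd d (μ l) (P l) (c l) i F = 0 := by
  have hst : ∀ F ∈ FS d p m P μ c w, cD D F ∈ FS d p m P μ c w := by
    intro F hF
    refine FS_cD hm hμ hDp hDP hF (fun l' i hi => ?_)
    by_cases h : l' = l
    · subst h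
      rw [hD, one_mul]
      by_cases hi' : i + 1 = w l'
      · rw [hi']
        exact hvan F hF
      · exact hF.2 l' (i + 1) (by omega)
    · rw [hD' l' h, zero_mul]
  intro i
  induction i with
  | zero =>
    intro F hF
    by_cases h0 : w l = 0
    · have := hvan F hF
      rwa [h0] at this
    · exact hF.2 l 0 (by omega)
  | succ i ih =>
    intro F hF
    have h1 := D_fd D (hDP l) d (μ l) (c l) i F
    rw [ih F hF, map_zero, ih _ (hst F hF), hD, one_mul, zero_add] at h1
    exact h1.symm

variable [Fintype ι] [Fintype Λ] [DecidableEq ι] [DecidableEq Λ]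

theorem sum_update_add (w : Λ → ℕ) (l : Λ) (x : ℕ) (f : ℕ → ℕ) :
    ∑ l', f (Function.update w l x l') + f (w l) = ∑ l', f (w l') + f x := by
  have h1 : ∑ l', f (w l') = f (w l) + ∑ l' ∈ Finset.univ.erase l, f (w l') :=
    (Finset.add_sum_erase _ (fun l' => f (w l')) (Finset.mem_univ l)).symm
  have h2 : ∑ l', f (Function.update w l x l') = f (Function.update w l x l) +
      ∑ l' ∈ Finset.univ.erase l, f (Function.update w l x l') :=
    (Finset.add_sum_erase _ (fun l' => f (Function.update w l x l')) (Finset.mem_univ l)).symm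
  have h3 : ∑ l' ∈ Finset.univ.erase l, f (Function.update w l x l') =
      ∑ l' ∈ Finset.univ.erase l, f (w l') :=
    Finset.sum_congr rfl (fun l' hl' => by rw [Function.update_of_ne (Finset.ne_of_mem_erase hl')])
  rw [h1, h2, h3, Function.update_self]
  omega

theorem finrank_FS_aux {M d : ℕ} (hN : NSp M d) (hMd : M ≤ d) {p : ι → V3} {P : Λ → V3}
    {c : Λ → ℂ} (hX : Ind (Sum.elim p P) c) {m : ι → ℕ} (hm : ∀ i, m i ≤ M) (N : ℕ) :
    ∀ μ w : Λ → ℕ, (∀ l, μ l ≤ M) → (∀ l, 1 ≤ w l → μ l + 1 ≤ M) → (∀ l, w l ≤ μ l + 1) →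
      ∑ l, w l = N → finrank ℂ (FS d p m P μ c w) = (d + 2).choose 2 -
        (∑ i, (m i + 1).choose 2 + ∑ l, (μ l + 1).choose 2 + N) := by
  induction N using Nat.strong_induction_on with
  | _ N ih =>
  intro μ w hμ hμw hw hsum
  have hmd : ∀ i, m i ≤ d + 1 := fun i => (hm i).trans (by omega)
  have hμd : ∀ l, μ l ≤ d + 1 := fun l => (hμ l).trans (by omega)
  rcases Nat.eq_zero_or_pos N with h0 | hpos
  · -- no flags
    subst h0
    have hw0 : ∀ l, w l = 0 := fun l => Finset.sum_eq_zero_iff.mp hsum l (Finset.mem_univ l)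
    have h1 : FS d p m P μ c w = linSys d (Sum.elim p P) (Sum.elim m μ) := by
      apply le_antisymm (FS_le d p m P μ c w)
      intro F hF
      refine ⟨hF, fun l i hi => ?_⟩
      rw [hw0 l] at hi
      exact absurd hi (Nat.not_lt_zero i)
    rw [h1, hN.finrank hX.generic (fun x => by
      rcases x with i | l
      · exact hm i
      · exact hμ l), Fintype.sum_sum_type]
    rfl
  · obtain ⟨l, hl⟩ : ∃ l, 0 < w l := by
      by_contra hcon
      push Not at hcon
      have : ∑ l, w l = 0 := Finset.sum_eq_zero (fun l _ => Nat.le_zero.mp (hcon l))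
      omega
    obtain ⟨w', hw'⟩ : ∃ w', w' = Function.update w l (w l - 1) := ⟨_, rfl⟩
    have hw'l : w' l = w l - 1 := by rw [hw', Function.update_self]
    have hw'k : ∀ k, k ≠ l → w' k = w k := fun k hk => by rw [hw', Function.update_of_ne hk]
    have hsum' : ∑ k, w' k = N - 1 := by
      have h1 := sum_update_add w l (w l - 1) id
      simp only [id] at h1
      rw [hw']
      omega
    have hW := ih (N - 1) (by omega) μ w' hμ (fun k hk => by
      by_cases h : k = l
      · subst h
        exact hμw k hl
      · rw [hw'k k h] at hk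
        exact hμw k hk) (fun k => by
      by_cases h : k = l
      · subst h
        have := hw k
        omega
      · rw [hw'k k h]
        exact hw k) hsum'
    have hW' : FS d p m P μ c w = FS d p m P μ c w' ⊓
        LinearMap.ker (fd d (μ l) (P l) (c l) (w' l)) := by
      ext F
      constructor
      · rintro ⟨h1, h2⟩
        refine ⟨⟨h1, fun k i hi => ?_⟩, ?_⟩
        · by_cases hk : k = l
          · subst hk
            exact h2 k i (by omega)
          · rw [hw'k k hk] at hi
            exact h2 k i hi
        · exact LinearMap.mem_ker.mpr (h2 l _ (by omega))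
      · rintro ⟨⟨h1, h2⟩, h3⟩
        rw [SetLike.mem_coe, LinearMap.mem_ker] at h3
        refine ⟨h1, fun k i hi => ?_⟩
        by_cases hk : k = l
        · subst hk
          by_cases hi' : i = w' k
          · rw [hi']
            exact h3
          · exact h2 k i (by omega)
        · apply h2 k i
          rw [hw'k k hk]
          exact hi
    by_cases hvan : ∀ F ∈ FS d p m P μ c w', fd d (μ l) (P l) (c l) (w' l) F = 0
    · -- the functional vanishes on the system: the multiplicity at `P l` is higher
      obtain ⟨D, hDpP, hDc⟩ := hX.derivation (fun k => if k = l then 1 else 0)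
      have hall := fd_all hmd hμd (fun i k => hDpP (Sum.inl i) k) (fun k j => hDpP (Sum.inr k) j)
        (by rw [hDc, if_pos rfl]) (fun k hk => by rw [hDc, if_neg hk]) hvan
      obtain ⟨μ', hμ'⟩ : ∃ μ', μ' = Function.update μ l (μ l + 1) := ⟨_, rfl⟩
      have hμ'l : μ' l = μ l + 1 := by rw [hμ', Function.update_self]
      have hμ'k : ∀ k, k ≠ l → μ' k = μ k := fun k hk => by rw [hμ', Function.update_of_ne hk]
      obtain ⟨v, hv⟩ : ∃ v, v = Function.update w l 0 := ⟨_, rfl⟩
      have hvl : v l = 0 := by rw [hv, Function.update_self]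
      have hvk : ∀ k, k ≠ l → v k = w k := fun k hk => by rw [hv, Function.update_of_ne hk]
      have hsumv : ∑ k, v k = N - w l := by
        have h1 := sum_update_add w l 0 id
        simp only [id] at h1
        rw [hv]
        omega
      have hPl : P l 2 ≠ 0 := coord_ne_zero hX.generic (Sum.inr l) 2
      have hMl := hμw l hl
      have hEq : FS d p m P μ c w' = FS d p m P μ' c v := by
        ext F
        constructor
        · intro hF
          have hld : ld d (μ l) (P l) F = 0 :=
            ld_eq_zero_of_fd (by omega) hF.1.1 (fun i => hall i F hF)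
          refine ⟨⟨hF.1.1, fun x => ?_⟩, fun k i hi => ?_⟩
          · rcases x with i | k
            · exact hF.1.2 (Sum.inl i)
            · by_cases hk : k = l
              · subst hk
                change VanishTo F (P k) (μ' k)
                rw [hμ'l, vanishTo_iff_ld hF.1.1 hPl (by omega)]
                intro j hj
                by_cases hj' : j = μ k
                · rw [hj']
                  exact hld
                · have hk0 : VanishTo F (P k) (μ k) := hF.1.2 (Sum.inr k)
                  exact (vanishTo_iff_ld hF.1.1 hPl (by omega)).1 hk0 j (by omega)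
              · change VanishTo F (P k) (μ' k)
                rw [hμ'k k hk]
                exact hF.1.2 (Sum.inr k)
          · by_cases hk : k = l
            · subst hk
              rw [hvl] at hi
              exact absurd hi (Nat.not_lt_zero i)
            · rw [hvk k hk] at hi
              rw [hμ'k k hk]
              exact hF.2 k i (by rw [hw'k k hk]; exact hi)
        · intro hF
          have hv1 : VanishTo F (P l) (μ l + 1) := by
            have := hF.1.2 (Sum.inr l)
            change VanishTo F (P l) (μ' l) at this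
            rwa [hμ'l] at this
          refine ⟨⟨hF.1.1, fun x => ?_⟩, fun k i hi => ?_⟩
          · rcases x with i | k
            · exact hF.1.2 (Sum.inl i)
            · by_cases hk : k = l
              · subst hk
                change VanishTo F (P k) (μ k)
                exact fun j hj => hv1 j (by omega)
              · have := hF.1.2 (Sum.inr k)
                change VanishTo F (P k) (μ' k) at this
                rw [hμ'k k hk] at this
                exact this
          · by_cases hk : k = l
            · subst hk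
              have hld : ld d (μ k) (P k) F = 0 :=
                (vanishTo_iff_ld hF.1.1 hPl (by omega)).1 hv1 (μ k) (by omega)
              change eval _ ((pderiv 0)^[i] (ld d (μ k) (P k) F)) = 0
              rw [hld, iterate_map_zero, map_zero]
            · have := hF.2 k i (by rw [hvk k hk, ← hw'k k hk]; exact hi)
              rw [hμ'k k hk] at this
              exact this
      have hV := ih (N - w l) (by omega) μ' v (fun k => by
        by_cases hk : k = l
        · rw [hk, hμ'l]
          exact hMl
        · rw [hμ'k k hk]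
          exact hμ k) (fun k hk => by
        by_cases h : k = l
        · rw [h, hvl] at hk
          omega
        · rw [hvk k h] at hk
          rw [hμ'k k h]
          exact hμw k hk) (fun k => by
        by_cases h : k = l
        · rw [h, hvl]
          omega
        · rw [hvk k h, hμ'k k h]
          exact hw k) hsumv
      have hinf : FS d p m P μ c w' ⊓ LinearMap.ker (fd d (μ l) (P l) (c l) (w' l)) =
          FS d p m P μ c w' := by
        apply le_antisymm inf_le_left
        exact fun F hF => ⟨hF, LinearMap.mem_ker.mpr (hvan F hF)⟩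
      rw [hW', hinf]
      rw [← hEq, hW] at hV
      have hch := sum_update_add μ l (μ l + 1) (fun x => (x + 1).choose 2)
      rw [← hμ'] at hch
      have hch2 : (μ l + 1 + 1).choose 2 = (μ l + 1).choose 2 + (μ l + 1) := by
        rw [Nat.choose_succ_succ' (μ l + 1) 1, Nat.choose_one_right]
        exact Nat.add_comm _ _
      have hwl := hw l
      have hwN : w l ≤ N := by
        rw [← hsum]
        exact Finset.single_le_sum (fun _ _ => Nat.zero_le _) (Finset.mem_univ l)
      rw [hW]
      omega
    · push Not at hvan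
      obtain ⟨f, hf, hfne⟩ := hvan
      obtain ⟨φ, hφ⟩ : ∃ φ, φ = fd d (μ l) (P l) (c l) (w' l) := ⟨_, rfl⟩
      rw [← hφ] at hfne hW'
      obtain ⟨L, hL⟩ : ∃ L, L = φ.domRestrict (FS d p m P μ c w') := ⟨_, rfl⟩
      have h1 := LinearMap.finrank_range_add_finrank_ker L
      have h2 : LinearMap.range L = ⊤ := by
        apply LinearMap.range_eq_top.mpr
        intro r
        refine ⟨(r / φ f) • ⟨f, hf⟩, ?_⟩
        rw [map_smul, hL]
        change _ • φ f = r
        rw [smul_eq_mul, div_mul_cancel₀ _ hfne]
      have h3 : finrank ℂ (LinearMap.ker L) =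
          finrank ℂ ↥(FS d p m P μ c w' ⊓ LinearMap.ker φ) := by
        have h4 : LinearMap.ker L = (FS d p m P μ c w' ⊓ LinearMap.ker φ).comap
            (FS d p m P μ c w').subtype := by
          ext x
          simp [hL]
        rw [h4]
        exact (Submodule.comapSubtypeEquivOfLe inf_le_left).finrank_eq
      rw [h2, finrank_top, Module.finrank_self, h3, hW] at h1
      rw [hW']
      omega

/-- **The dimension of the systems with flags.** -/
theorem finrank_FS {M d : ℕ} (hN : NSp M d) (hMd : M ≤ d) {p : ι → V3} {P : Λ → V3} {c : Λ → ℂ}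
    (hX : Ind (Sum.elim p P) c) {m : ι → ℕ} (hm : ∀ i, m i ≤ M) {μ w : Λ → ℕ}
    (hμ : ∀ l, μ l ≤ M) (hμw : ∀ l, 1 ≤ w l → μ l + 1 ≤ M) (hw : ∀ l, w l ≤ μ l + 1) :
    finrank ℂ (FS d p m P μ c w) = (d + 2).choose 2 -
      (∑ i, (m i + 1).choose 2 + ∑ l, (μ l + 1).choose 2 + ∑ l, w l) :=
  finrank_FS_aux hN hMd hX hm _ μ w hμ hμw hw rfl

end ZCDim

end Pool.Agent.Work.MP_0421d9_ag.ZC
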