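import Pool.Agent.Work.MP_0421d9_ag.ZCW

/-!
Collisions of generic points: the collision theorem.
-/

set_option linter.unusedSectionVars false
set_option linter.unusedVariables false

namespace Pool.Agent.Work.MP_0421d9_ag.ZC

open MvPolynomial Module SM

/-- **The collision theorem**: the rigid member is not bad -/
theorem Dat.not_bad {ι Λ : Type} [Fintype ι] [Fintype Λ] [DecidableEq ι] [DecidableEq Λ]
    [Nonempty Λ] {d M : ℕ}
    {m : ι → ℕ} {μ w s Mv : Λ → ℕ} {v : ∀ l, Fin (s l) → ℕ}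
    (S : Dat d M m μ w s Mv v) {p : ι ⊕ (Σ l, Fin (s l)) → V3}
    (hp : GenericPoints p) {F : R3}
    (hF : F ∈ linSys d p (Sum.elim m (fun x => v x.1 x.2))) (hF0 : F ≠ 0) :
    ¬ Bad d p (Sum.elim m (fun x => v x.1 x.2)) F := by
  have hd1 : 1 ≤ d := by
    obtain ⟨l⟩ := ‹Nonempty Λ›
    have h := S.le_mu l
    omega
  obtain ⟨g, hg⟩ := exists_generic_fam ((ι ⊕ Λ) ⊕ (Σ l, Fin (s l)))
  obtain ⟨p', hp'⟩ : ∃ p' : ι → V3, p' = fun i => g (Sum.inl (Sum.inl i)) := ⟨_, rfl⟩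
  obtain ⟨P', hP'⟩ : ∃ P' : Λ → V3, P' = fun l => g (Sum.inl (Sum.inr l)) := ⟨_, rfl⟩
  obtain ⟨ζ', hζ'⟩ : ∃ ζ' : (Σ l, Fin (s l)) → V3, ζ' = fun x => g (Sum.inr x) := ⟨_, rfl⟩
  have hge : Sum.elim (Sum.elim p' P') ζ' = g := by
    funext x
    rcases x with (i | l) | x
    · rw [hp']; rfl
    · rw [hP']; rfl
    · rw [hζ']; rfl
  have hX : GenericPoints (Sum.elim (Sum.elim p' P') ζ') := by rwa [hge]
  have hne : ∀ x, g x 2 ≠ 0 := fun x => hg.ne_zero (x, 2)
  obtain ⟨ρ, τ, P, ζ, hτ0, hτ, hP2, hpp, hPP, hζζ, hpx⟩ := exists_collision_place hp p' P' ζ'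
  have hμ2 : ∀ l, 2 ≤ μ l := fun l => by
    have h1 := S.hvμ l
    have h2 := S.hMv l
    omega
  have hMd : M ≤ d := by
    have := S.hd
    omega
  refine collision_not_bad ρ hτ0 hτ hd1 (fun i => ?_) (fun l => ?_) (fun l => ?_)
    (fun l j => ?_) hP2 (fun l => ?_) (fun i => ?_) (fun x => ?_) hpp hPP hζζ hpx (fun l => ?_)
    (fun F₀ hF₀ hF₀0 G hG hres => S.w_good hX hF₀ hF₀0 hG hres) hF hF0
  · have := S.hm i
    omega
  · have := hμ2 l
    omega
  · have := S.hμ l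
    omega
  · have h1 := S.hv l j
    have h2 := S.hvμ l
    omega
  · rw [hP']
    exact hne _
  · intro h
    have h1 := hne (Sum.inl (Sum.inl i))
    rw [hp'] at h
    exact h1 (by rw [show g (Sum.inl (Sum.inl i)) = 0 from h]; rfl)
  · rw [hζ']
    exact hne _
  · refine linSys_eq_bot (S.hNv' l) ?_ (fun j => ?_) ?_
    · rw [hζ']
      exact hg.comp (fun z : Fin (s l) × Fin 3 => (Sum.inr ⟨l, z.1⟩, z.2)) (fun z z' h => by
        simp only [Prod.mk.injEq, Sum.inr.injEq, Sigma.mk.injEq, heq_eq_eq, true_and] at h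
        exact Prod.ext h.1 h.2)
    · have := S.hv l j
      omega
    · have h1 := S.crit l
      have h2 := hμ2 l
      have h3 : μ l - 1 + 2 = μ l + 1 := by omega
      rw [h3, h1]
      exact Nat.le_add_right _ _

end Pool.Agent.Work.MP_0421d9_ag.ZC
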