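import Pool.Agent.Work.MP_0421d9_ag.ZCPick
import Pool.Agent.Work.MP_0421d9_ag.ZCTauFin
import Pool.Agent.Work.MP_0421d9_ag.SFinal

/-!
The final step: general members of all the systems in the range are smooth.
-/

set_option linter.unusedSectionVars false

namespace Pool.Agent.Work.MP_0421d9_ag.ZC

open MvPolynomial Module SM

/-- rigid systems -/
theorem rigid_not_bad (A : ℝ) : ∃ R : ℝ, ∀ (d M : ℕ) (ι : Type) [Fintype ι]
    [DecidableEq ι] (p : ι → V3) (m : ι → ℕ), GenericPoints p → 1 ≤ M → (∀ i, m i ≤ M) →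
    R * M ≤ d → (M : ℝ) ≤ ((d : ℝ) / M) ^ A →
    ∑ i, (m i + 1).choose 2 + 1 = (d + 2).choose 2 →
    ∀ F ∈ linSys d p m, F ≠ 0 → ¬ Bad d p m F := by
  obtain ⟨R, hR⟩ := exists_dat A
  refine ⟨R, fun d M ι _ _ p m hp hM hm hd hMx hχ F hF hF0 => ?_⟩
  classical
  obtain ⟨M', C, μ, w, e, he, hD⟩ := hR d M ι m hM hm hd hMx hχ
  have hme : ∀ z, m (e z) = Sum.elim (fun i : {i : ι // ∀ l, i ∉ C l} => m i.1)
      (fun x : Σ l, Fin (C l).card => m ((C x.1).equivFin.symm x.2).1) z := by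
    rintro (i | x)
    · rw [he]
      rfl
    · rw [he]
      rfl
  have hpe : GenericPoints (fun z => p (e z)) := by
    have h2 := AlgebraicIndependent.comp hp
      (fun z : ({i : ι // ∀ l, i ∉ C l} ⊕ (Σ l, Fin (C l).card)) × Fin 3 => (e z.1, z.2))
      (fun z z' h => by
        have h7 := congrArg Prod.fst h
        have h8 := congrArg Prod.snd h
        exact Prod.ext (e.injective h7) h8)
    exact h2
  have h1 := hD.not_bad hpe (F := F) ⟨hF.1, fun z => by
    rw [← hme]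
    exact hF.2 (e z)⟩ hF0
  intro hb
  apply h1
  have h2 := (bad_equiv (d := d) (p := p) (m := m) (F := F) e).mpr hb
  have h3 : (fun z => m (e z)) = Sum.elim (fun i : {i : ι // ∀ l, i ∉ C l} => m i.1)
      (fun x : Σ l, Fin (C l).card => m ((C x.1).equivFin.symm x.2).1) := funext hme
  rw [h3] at h2
  exact h2

/-- **All systems**: the dimension, irreducibility and smoothness of the general member. -/
theorem all_not_bad {A : ℝ} (hA : 0 < A) : ∃ R : ℝ, ∀ (r d M : ℕ) (p : Fin r → V3)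
    (m : Fin r → ℕ), GenericPoints p → 1 ≤ M → (∀ i, m i ≤ M) → R * M ≤ d →
    (M : ℝ) ≤ ((d : ℝ) / M) ^ A →
    ∀ s : Fin (finrank ℂ (linSys d p m) - 1) → Fin 3 → ℂ, GenericPoints (Sum.elim p s) →
      ∀ F ∈ linSys d p m, F ≠ 0 → (∀ k, eval (s k) F = 0) → ¬ Bad d p m F := by
  obtain ⟨R₁, h1⟩ := LD.all_windows hA
  obtain ⟨R₂, h2⟩ := rigid_not_bad A
  refine ⟨max R₁ R₂, fun r d M p m hp hM hm hd hMx s hs F hF hF0 hFs => ?_⟩
  have hM0 : (0 : ℝ) ≤ M := Nat.cast_nonneg M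
  have hd1 : R₁ * M ≤ d := (mul_le_mul_of_nonneg_right (le_max_left _ _) hM0).trans hd
  have hd2 : R₂ * M ≤ d := (mul_le_mul_of_nonneg_right (le_max_right _ _) hM0).trans hd
  have hns := h1 r d M p m hp hM hm hd1 (Or.inl hMx)
  have hfin : Module.Finite ℂ (linSys d p m) :=
    Submodule.finiteDimensional_of_le (linSys_le d p _)
  have hpos : finrank ℂ (linSys d p m) ≠ 0 := by
    intro h0
    have h3 := Submodule.finrank_eq_zero.mp h0
    rw [h3] at hF
    exact hF0 hF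
  apply not_bad_of_extended (s := s) hF.1 (fun j => point_ne_zero hs (Sum.inr j))
  refine h2 d M _ (Sum.elim p s) (Sum.elim m (fun _ => 1)) hs hM ?_ hd2 hMx ?_ F ⟨hF.1, ?_⟩ hF0
  · rintro (i | j)
    · exact hm i
    · exact hM
  · rw [sum_simple]
    omega
  · rintro (i | j)
    · exact hF.2 i
    · exact vanishTo_one_iff.mpr (hFs j)

end Pool.Agent.Work.MP_0421d9_ag.ZC
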