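import Pool.Agent.Work.MP_0421d9_ag.ZCCore
import Pool.Agent.Work.MP_0421d9_ag.ZCDim

/-!
Collisions of generic points: the flag level.
-/

set_option linter.unusedSectionVars false
set_option linter.unusedVariables false

namespace Pool.Agent.Work.MP_0421d9_ag.ZC

open MvPolynomial Module SM

variable {ι Λ : Type} [Fintype ι] [Fintype Λ] [DecidableEq ι] [DecidableEq Λ] {d M : ℕ}
  {m : ι → ℕ} {μ w s Mv : Λ → ℕ} {v : ∀ l, Fin (s l) → ℕ}

/-- the derivations exist -/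
theorem exists_ders {κ : Type} {p : ι → V3} {P : Λ → V3} {R : κ → V3} {c : Λ → ℂ}
    (hX : Ind (Sum.elim (Sum.elim p P) R) c) :
    ∃ (E : ι → Fin 2 → Derivation ℚ ℂ ℂ) (D : Λ → Derivation ℚ ℂ ℂ), Ders p P c E D ∧
      (∀ i k x j, E i k (R x j) = 0) ∧ (∀ l x j, D l (R x j) = 0) := by
  classical
  have hE : ∀ (i : ι) (k : Fin 2), ∃ Δ : Derivation ℚ ℂ ℂ,
      (∀ j l, Δ (p j l) = if j = i ∧ l = k.castSucc then 1 else 0) ∧ (∀ l j, Δ (P l j) = 0) ∧
      (∀ x j, Δ (R x j) = 0) ∧ ∀ l, Δ (c l) = 0 := by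
    intro i k
    obtain ⟨Δ, hΔ⟩ := exists_derivation _ hX (Sum.elim (fun z =>
      Sum.elim (Sum.elim (fun j => if j = i ∧ z.2 = k.castSucc then 1 else 0) (fun _ => 0))
        (fun _ => 0) z.1) (fun _ => 0))
    exact ⟨Δ, fun j l => hΔ (Sum.inl (Sum.inl (Sum.inl j), l)),
      fun l j => hΔ (Sum.inl (Sum.inl (Sum.inr l), j)),
      fun x j => hΔ (Sum.inl (Sum.inr x, j)), fun l => hΔ (Sum.inr l)⟩
  have hD : ∀ (i : Λ), ∃ Δ : Derivation ℚ ℂ ℂ, (∀ j l, Δ (p j l) = 0) ∧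
      (∀ l j, Δ (P l j) = 0) ∧ (∀ x j, Δ (R x j) = 0) ∧
      ∀ l, Δ (c l) = if l = i then 1 else 0 := by
    intro i
    obtain ⟨Δ, hΔ⟩ := exists_derivation _ hX (Sum.elim (fun _ => 0)
      (fun l => if l = i then 1 else 0))
    exact ⟨Δ, fun j l => hΔ (Sum.inl (Sum.inl (Sum.inl j), l)),
      fun l j => hΔ (Sum.inl (Sum.inl (Sum.inr l), j)),
      fun x j => hΔ (Sum.inl (Sum.inr x, j)), fun l => hΔ (Sum.inr l)⟩
  choose E hE1 hE2 hE3 hE4 using hE
  choose D hD1 hD2 hD3 hD4 using hD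
  refine ⟨E, D, ⟨?_, ?_, ?_, ?_, ?_, ?_, ?_, ?_, ?_⟩, hE3, hD3⟩
  · intro i k j
    rw [hE1, if_neg]
    rintro ⟨-, h⟩
    fin_cases k
    · exact absurd h (by decide)
    · exact absurd h (by decide)
  · intro i k l
    rw [hE1]
    by_cases h : k = l
    · rw [if_pos h, if_pos ⟨rfl, by rw [h]⟩]
    · rw [if_neg h, if_neg]
      rintro ⟨-, h'⟩
      exact h (Fin.castSucc_injective _ h').symm
  · intro i k j l h
    rw [hE1, if_neg]
    rintro ⟨h', -⟩
    exact h h'.symm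
  · exact hE2
  · exact hE4
  · exact hD1
  · exact hD2
  · intro l
    rw [hD4, if_pos rfl]
  · intro l l' h
    rw [hD4, if_neg (Ne.symm h)]

theorem ind_empty {p : ι → V3} {P : Λ → V3} {c : Λ → ℂ} (hX : Ind (Sum.elim p P) c) :
    Ind (Sum.elim (Sum.elim p P) (Empty.elim : Empty → V3)) c := by
  unfold Ind at hX ⊢
  let e : (((ι ⊕ Λ) ⊕ Empty) × Fin 3) ⊕ Λ → ((ι ⊕ Λ) × Fin 3) ⊕ Λ :=
    Sum.map (fun z => (Sum.elim id Empty.elim z.1, z.2)) id
  have he : Function.Injective e := by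
    rintro (⟨x | x, k⟩ | l) (⟨x' | x', k'⟩ | l') h
    · simp only [e, Sum.map_inl, Sum.elim_inl, id, Sum.inl.injEq, Prod.mk.injEq] at h
      rw [h.1, h.2]
    · exact x'.elim
    · simp [e] at h
    · exact x.elim
    · exact x.elim
    · exact x.elim
    · simp [e] at h
    · exact x'.elim
    · simp only [e, Sum.map_inr, id, Sum.inr.injEq] at h
      rw [h]
  have h1 := hX.comp e he
  have h2 : (Sum.elim (fun z : (ι ⊕ Λ) × Fin 3 => Sum.elim p P z.1 z.2) c) ∘ e =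
      Sum.elim (fun z : ((ι ⊕ Λ) ⊕ Empty) × Fin 3 =>
        Sum.elim (Sum.elim p P) (Empty.elim : Empty → V3) z.1 z.2) c := by
    funext z
    rcases z with ⟨x | x, k⟩ | l
    · rfl
    · exact x.elim
    · rfl
  rw [h2] at h1
  exact h1

theorem FS_le_Rd {κ κ' : Type} {d : ℕ} {p : κ → V3} {m : κ → ℕ} {P : κ' → V3} {μ : κ' → ℕ}
    {c : κ' → ℂ} {w : κ' → ℕ} : FS d p m P μ c w ≤ Rd d := fun F hF => hF.1.1

theorem FS_anti {κ κ' : Type} {d : ℕ} {p : κ → V3} {m : κ → ℕ} {P : κ' → V3} {μ : κ' → ℕ}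
    {c : κ' → ℂ} {w w' : κ' → ℕ} (h : ∀ l, w' l ≤ w l) :
    FS d p m P μ c w ≤ FS d p m P μ c w' := fun F hF =>
  ⟨hF.1, fun l i hi => hF.2 l i (lt_of_lt_of_le hi (h l))⟩

/-- stability of the flag systems -/
theorem FS_stable {κ κ' : Type} {d : ℕ} {p : κ → V3} {m : κ → ℕ} {P : κ' → V3} {μ : κ' → ℕ}
    {c : κ' → ℂ} {w : κ' → ℕ} (Δ : Derivation ℚ ℂ ℂ) (hp : ∀ i k, Δ (p i k) = 0)
    (hP : ∀ l k, Δ (P l k) = 0) (hc : ∀ l, 0 < w l → Δ (c l) = 0) {F : R3}
    (hF : F ∈ FS d p m P μ c w) : cD Δ F ∈ FS d p m P μ c w := by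
  refine ⟨⟨cD_isHomogeneous Δ hF.1.1, ?_⟩, fun l i hi => ?_⟩
  · rintro (i | l)
    · exact vanishTo_cD_fixed Δ (hp i) (hF.1.2 (Sum.inl i))
    · exact vanishTo_cD_fixed Δ (hP l) (hF.1.2 (Sum.inr l))
  · have h1 := D_fd Δ (hP l) d (μ l) (c l) i F
    rw [hF.2 l i hi, map_zero, hc l (by omega), zero_mul, add_zero] at h1
    exact h1.symm

theorem Ind.gen {κ κ' : Type} {p : κ → V3} {c : κ' → ℂ} (h : Ind p c) : GenericPoints p :=
  AlgebraicIndependent.comp h Sum.inl Sum.inl_injective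

theorem Dat.finrank_w (S : Dat d M m μ w s Mv v) {p : ι → V3} {P : Λ → V3} {c : Λ → ℂ}
    (hX : Ind (Sum.elim p P) c) {w' : Λ → ℕ} (hw' : ∀ l, w' l ≤ μ l + 1) :
    finrank ℂ (FS d p m P μ c w') = (d + 2).choose 2 -
      (∑ i, (m i + 1).choose 2 + ∑ l, (μ l + 1).choose 2 + ∑ l, w' l) := by
  apply finrank_FS S.hN (by have := S.hMd; omega) hX
  · intro i
    have := S.hm i
    omega
  · intro l
    have := S.hμ l
    omega
  · intro l _
    exact S.hμ l
  · exact hw'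

theorem Dat.w_le (S : Dat d M m μ w s Mv v) (l : Λ) : w l + 1 ≤ μ l := by
  have h1 := S.hw l
  have h2 := S.hMv l
  omega

theorem Dat.flag_exact (S : Dat d M m μ w s Mv v) {p : ι → V3} {P : Λ → V3} {c : Λ → ℂ}
    (hX : Ind (Sum.elim p P) c) {F : R3} (hF : F ∈ FS d p m P μ c w) (hF0 : F ≠ 0) (l : Λ) :
    fd d (μ l) (P l) (c l) (w l) F ≠ 0 := by
  intro h
  have h1 := S.finrank_w hX (w' := Function.update w l (w l + 1)) (by
    intro l'
    by_cases h' : l' = l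
    · rw [h', Function.update_self]
      have := S.w_le l
      omega
    · rw [Function.update_of_ne h']
      have := S.w_le l'
      omega)
  have h2 : ∑ l', Function.update w l (w l + 1) l' = ∑ l', w l' + 1 := by
    rw [← Finset.add_sum_erase Finset.univ _ (Finset.mem_univ l), Function.update_self,
      ← Finset.add_sum_erase Finset.univ w (Finset.mem_univ l)]
    rw [Finset.sum_congr rfl (fun l' hl' => Function.update_of_ne (Finset.ne_of_mem_erase hl') _ _)]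
    ring
  have h3 := S.hχ
  rw [h2] at h1
  have h4 : finrank ℂ (FS d p m P μ c (Function.update w l (w l + 1))) = 0 := by
    rw [h1]
    omega
  have hfin := finite_of_le_Rd (FS_le_Rd (d := d) (p := p) (m := m) (P := P) (μ := μ) (c := c)
    (w := Function.update w l (w l + 1)))
  have h5 : FS d p m P μ c (Function.update w l (w l + 1)) = ⊥ := Submodule.finrank_eq_zero.mp h4
  have h6 : F ∈ FS d p m P μ c (Function.update w l (w l + 1)) := by
    refine ⟨hF.1, fun l' i hi => ?_⟩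
    by_cases h' : l' = l
    · subst h'
      rw [Function.update_self] at hi
      by_cases hi' : i = w l'
      · rw [hi']
        exact h
      · exact hF.2 l' i (by omega)
    · rw [Function.update_of_ne h'] at hi
      exact hF.2 l' i hi
  rw [h5, Submodule.mem_bot] at h6
  exact hF0 h6

theorem Dat.flag_uniq (S : Dat d M m μ w s Mv v) {p : ι → V3} {P : Λ → V3} {c : Λ → ℂ}
    (hX : Ind (Sum.elim p P) c) {F : R3} (hF : F ∈ FS d p m P μ c w) (hF0 : F ≠ 0) {H : R3}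
    (hH : H ∈ FS d p m P μ c w) : ∃ a : ℂ, H = a • F := by
  have h1 := S.finrank_w hX (w' := w) (fun l => by have := S.w_le l; omega)
  have h3 := S.hχ
  have h4 : finrank ℂ (FS d p m P μ c w) = 1 := by
    rw [h1]
    omega
  have hne : (⟨F, hF⟩ : FS d p m P μ c w) ≠ 0 := fun h => hF0 (congrArg Subtype.val h)
  obtain ⟨a, ha⟩ := (finrank_eq_one_iff_of_nonzero' _ hne).mp h4 ⟨H, hH⟩
  exact ⟨a, (congrArg Subtype.val ha).symm⟩

/-- the graph of `Θ` over `W` -/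
noncomputable def GB {n : ℕ} (W : Submodule ℂ R3) (Θ : R3 →ₗ[ℂ] MvPolynomial (Fin n) ℂ) :
    Submodule ℂ (R3 × MvPolynomial (Fin n) ℂ) where
  carrier := {H | H.1 ∈ W ∧ H.2 = Θ H.1}
  zero_mem' := ⟨zero_mem _, (map_zero Θ).symm⟩
  add_mem' := fun {x y} hx hy => ⟨add_mem hx.1 hy.1, by
    rw [Prod.snd_add, Prod.fst_add, map_add, hx.2, hy.2]⟩
  smul_mem' := fun r x hx => ⟨Submodule.smul_mem _ _ hx.1, by
    rw [Prod.smul_snd, Prod.smul_fst, map_smul, hx.2]⟩

theorem finrank_le_of_inj {n d : ℕ} {W : Submodule ℂ R3} (hW : W ≤ Rd d)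
    {V : Submodule ℂ (R3 × MvPolynomial (Fin n) ℂ)} (hV : Module.Finite ℂ V)
    (Θ : R3 →ₗ[ℂ] MvPolynomial (Fin n) ℂ) (h : ∀ H ∈ W, (H, Θ H) ∈ V) :
    finrank ℂ W ≤ finrank ℂ V := by
  have hfin := finite_of_le_Rd hW
  let L : W →ₗ[ℂ] V := LinearMap.codRestrict V ((LinearMap.prod LinearMap.id Θ).comp W.subtype)
    (fun x => h x x.2)
  apply LinearMap.finrank_le_finrank_of_injective (f := L)
  intro x y hxy
  have h1 : (L x : R3 × MvPolynomial (Fin n) ℂ) = L y := by rw [hxy]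
  have h2 : (x : R3) = y := congrArg Prod.fst h1
  exact Subtype.ext h2

theorem FS_stable' {p : ι → V3} {P : Λ → V3} {c : Λ → ℂ} {Z : Finset ι} {Y : Finset Λ}
    (Δ : Derivation ℚ ℂ ℂ) (hP : ∀ l k, Δ (P l k) = 0) (hp : ∀ a ∈ Z, ∀ k, Δ (p a k) = 0)
    (hc : ∀ l ∈ Y, Δ (c l) = 0) {H : R3}
    (hH : H ∈ FS d (fun a : {a // a ∈ Z} => p a.1) (fun a => m a.1) P μ c
      (fun l => if l ∈ Y then w l else 0)) :
    cD Δ H ∈ FS d (fun a : {a // a ∈ Z} => p a.1) (fun a => m a.1) P μ c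
      (fun l => if l ∈ Y then w l else 0) := by
  refine FS_stable (p := fun a : {a // a ∈ Z} => p a.1) (m := fun a : {a // a ∈ Z} => m a.1)
    (P := P) (μ := μ) (c := c) (w := fun l => if l ∈ Y then w l else 0) Δ
    (fun a k => hp a.1 a.2 k) hP ?_ hH
  intro l hl
  by_cases h : l ∈ Y
  · exact hc l h
  · simp only [if_neg h] at hl
    exact absurd hl (Nat.lt_irrefl 0)

/-- **The chain theorem for graphs.** -/
theorem Dat.graph (S : Dat d M m μ w s Mv v) {p : ι → V3} {P : Λ → V3} {c : Λ → ℂ}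
    (hX : Ind (Sum.elim p P) c) (Z : Finset ι) (Y : Finset Λ)
    (hZY : Z.card + Y.card ≤ 1) {n N : ℕ} (hn : n ≤ 3)
    {Θ : R3 →ₗ[ℂ] MvPolynomial (Fin n) ℂ} {W : Submodule ℂ R3}
    (hW : W = FS d (fun a : {a // a ∈ Z} => p a.1) (fun a => m a.1) P μ c
      (fun l => if l ∈ Y then w l else 0))
    (hΘN : ∀ H ∈ W, (Θ H).IsHomogeneous N)
    (hΘD : ∀ Δ : Derivation ℚ ℂ ℂ, (∀ l k, Δ (P l k) = 0) → (∀ a ∈ Z, ∀ k, Δ (p a k) = 0) →
      (∀ l ∈ Y, Δ (c l) = 0) → ∀ H ∈ W, Θ (cD Δ H) = cD Δ (Θ H))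
    {ρ : Type} [Fintype ρ] (hρ : Fintype.card ρ ≤ 1)
    {R : ρ → V3} (hR : ∀ x l, cr (R x) (P l) ≠ 0) {q : Fin n → ℂ} (hq : q ≠ 0)
    (free2 : ∀ H ∈ W, (∀ l ∈ Y, VanishTo H (P l) (μ l + 2)) →
      (∀ a ∈ Z, VanishTo H (p a) (m a + 1)) → (∀ x, VanishTo H (R x) 1) → eval q (Θ H) = 0)
    (hbpf : ∀ T : Finset ι, T.card ≤ 1 → (∀ i ∈ T, i ∉ Z) → ∃ H ∈ W,
      (∀ i ∈ T, VanishTo H (p i) (m i)) ∧ eval q (Θ H) ≠ 0)
    {F : R3} (hF : F ∈ FS d p m P μ c w) (hF0 : F ≠ 0)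
    (h0 : eval q (Θ F) = 0) (h1 : ∀ k, eval q (pderiv k (Θ F)) = 0) : False := by
  classical
  obtain ⟨E, D, hE, -, -⟩ := exists_ders (ind_empty hX)
  have hg : GenericPoints (Sum.elim p P) := Ind.gen hX
  have hP2 : ∀ l, P l 2 ≠ 0 := fun l => by
    have h2 := hg.ne_zero (Sum.inr l, 2)
    exact h2
  have hWR : W ≤ Rd d := by
    rw [hW]
    exact FS_le_Rd
  have hwY : ∀ l, (if l ∈ Y then w l else 0) ≤ w l := fun l => by split_ifs <;> omega
  have hWst : ∀ Δ : Derivation ℚ ℂ ℂ, (∀ l k, Δ (P l k) = 0) →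
      (∀ a ∈ Z, ∀ k, Δ (p a k) = 0) → (∀ l ∈ Y, Δ (c l) = 0) → ∀ H ∈ W, cD Δ H ∈ W := by
    intro Δ h1 h2 h3 H hH
    rw [hW] at hH ⊢
    exact FS_stable' Δ h1 h2 h3 hH
  -- members of the whole system
  have hFS : ∀ H ∈ W, (∀ i ∉ Z, VanishTo H (p i) (m i)) → (∀ l ∉ Y, ∀ j < w l,
      fd d (μ l) (P l) (c l) j H = 0) → H ∈ FS d p m P μ c w := by
    intro H hH hv hf
    rw [hW] at hH
    refine ⟨⟨hH.1.1, ?_⟩, fun l i hi => ?_⟩
    · rintro (i | l)
      · by_cases hi : i ∈ Z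
        · exact hH.1.2 (Sum.inl ⟨i, hi⟩)
        · exact hv i hi
      · exact hH.1.2 (Sum.inr l)
    · by_cases hl : l ∈ Y
      · exact hH.2 l i (by simp only [if_pos hl]; exact hi)
      · exact hf l hl i hi
  have hFW : F ∈ W := by
    rw [hW]
    refine ⟨⟨hF.1.1, ?_⟩, fun l i hi => hF.2 l i (lt_of_lt_of_le hi (hwY l))⟩
    rintro (a | l)
    · exact hF.1.2 (Sum.inl a.1)
    · exact hF.1.2 (Sum.inr l)
  have hfinV : Module.Finite ℂ (VV d (fun i : {i // i ∉ Z} => p i.1) (GB W Θ)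
      (fun i => m i.1)) := by
    have hfin := finite_of_le_Rd hWR
    let L : W →ₗ[ℂ] (R3 × MvPolynomial (Fin n) ℂ) :=
      (LinearMap.prod LinearMap.id Θ).comp W.subtype
    have h2 : VV d (fun i : {i // i ∉ Z} => p i.1) (GB W Θ) (fun i => m i.1) ≤
        LinearMap.range L := by
      rintro H ⟨⟨h3, h4⟩, -⟩
      refine ⟨⟨H.1, h3⟩, ?_⟩
      exact Prod.ext rfl h4.symm
    exact Submodule.finiteDimensional_of_le h2
  refine S.core (BB := GB W Θ) (N := N) (F := (F, Θ F)) hg hE Z Y hZY hn ?_ ?_ ?_ ?_ hρ hR hq ?_ ?_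
    ?_ ⟨hFW, rfl⟩ (fun i _ => hF.1.2 (Sum.inl i)) (fun l _ j hj => hF.2 l j hj)
    (fun l _ => S.flag_exact hX hF hF0 l) ?_ ?_ h0 h1
  · intro H hH
    have h2 := hH.1
    rw [hW] at h2
    exact ⟨h2.1.1, fun l => h2.1.2 (Sum.inr l)⟩
  · intro H hH
    rw [hH.2]
    exact hΘN _ hH.1
  · intro i hi k H hH
    have hia : ∀ a ∈ Z, i ≠ a := by
      rintro a ha rfl
      exact hi ha
    refine ⟨?_, ?_⟩
    · exact hWst (E i k) (hE.EP i k) (fun a ha k' => hE.Ej (hia a ha) k k')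
        (fun l _ => hE.Ec i k l) H.1 hH.1
    · change cD (E i k) H.2 = Θ (cD (E i k) H.1)
      rw [hH.2, hΘD (E i k) (hE.EP i k) (fun a ha k' => hE.Ej (hia a ha) k k')
        (fun l _ => hE.Ec i k l) _ hH.1]
  · intro l hl H hH
    have hlY : ∀ l' ∈ Y, l ≠ l' := by
      rintro l' hl' rfl
      exact hl hl'
    refine ⟨?_, ?_⟩
    · exact hWst (D l) (hE.DP l) (fun a _ k' => hE.Dp l a k')
        (fun l' hl' => hE.Dc' l l' (hlY l' hl')) H.1 hH.1
    · change cD (D l) H.2 = Θ (cD (D l) H.1)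
      rw [hH.2, hΘD (D l) (hE.DP l) (fun a ha k' => hE.Dp l a k')
        (fun l' hl' => hE.Dc' l l' (hlY l' hl')) _ hH.1]
  · intro H hH hY hZ
    refine ⟨Θ H, ?_, rfl⟩
    change H ∈ W
    rw [hW]
    refine ⟨⟨hH.1, ?_⟩, fun l i hi => ?_⟩
    · rintro (a | l)
      · exact (hZ a.1 a.2).mono (Nat.le_succ _)
      · exact hH.2 l
    · by_cases hl : l ∈ Y
      · exact fd_zero_of_vanishTo hH.1 (hP2 l) (by have := S.hμd l; omega) (hY l hl) _ _
      · have hi' : i < (if l ∈ Y then w l else 0) := hi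
        rw [if_neg hl] at hi'
        exact absurd hi' (Nat.not_lt_zero i)
  · intro H hH hY hZ hRx
    have hHW : H ∈ W := by
      rw [hW]
      refine ⟨⟨hH.1, ?_⟩, fun l i hi => ?_⟩
      · rintro (a | l)
        · exact (hZ a.1 a.2).mono (Nat.le_succ _)
        · exact hH.2 l
      · by_cases hl : l ∈ Y
        · exact fd_zero_of_vanishTo hH.1 (hP2 l) (by have := S.hμd l; omega)
            ((hY l hl).mono (Nat.le_succ _)) _ _
        · have hi' : i < (if l ∈ Y then w l else 0) := hi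
          rw [if_neg hl] at hi'
          exact absurd hi' (Nat.not_lt_zero i)
    exact ⟨Θ H, ⟨hHW, rfl⟩, free2 H hHW hY hZ hRx⟩
  · intro T hT hTZ
    obtain ⟨H, hH, h2, h3⟩ := hbpf T hT hTZ
    exact ⟨(H, Θ H), ⟨hH, rfl⟩, h2, h3⟩
  · intro H hH hv hf
    obtain ⟨a, ha⟩ := S.flag_uniq hX hF hF0 (hFS H.1 hH.1 hv hf)
    refine ⟨a, Prod.ext ha ?_⟩
    rw [hH.2, ha, map_smul]
    rfl
  · have h2 := S.finrank_w hX (w' := fun l => if l ∈ Y then w l else 0)
      (fun l => by have := S.w_le l; have := hwY l; omega)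
    have h3 := finrank_le_of_inj (W := FS d p m P μ c (fun l => if l ∈ Y then w l else 0))
      FS_le_Rd hfinV Θ (by
        intro H hH
        have hHW : H ∈ W := by
          rw [hW]
          refine ⟨⟨hH.1.1, ?_⟩, hH.2⟩
          rintro (a | l)
          · exact hH.1.2 (Sum.inl a.1)
          · exact hH.1.2 (Sum.inr l)
        exact ⟨⟨hHW, rfl⟩, hH.1.1, fun i => hH.1.2 (Sum.inl i.1)⟩)
    have h4 : ∑ l, w l = ∑ l, (if l ∈ Y then w l else 0) + ∑ l : {l // l ∉ Y}, w l.1 := by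
      rw [← Finset.sum_subtype (Finset.univ.filter (fun l => l ∉ Y)) (p := fun l => l ∉ Y)
        (fun x => by simp) w, Finset.sum_filter, ← Finset.sum_add_distrib]
      refine Finset.sum_congr rfl (fun l _ => ?_)
      by_cases hl : l ∈ Y
      · rw [if_pos hl, if_neg (not_not.mpr hl), add_zero]
      · rw [if_neg hl, if_pos hl, zero_add]
    have h5 := S.hχ
    rw [h2] at h3
    omega

/-- Euler: a multiple zero is a zero -/
theorem eval_zero_of_grad {n N : ℕ} (hN : 1 ≤ N) {G : MvPolynomial (Fin n) ℂ}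
    (hG : G.IsHomogeneous N) {q : Fin n → ℂ} (h : ∀ k, eval q (pderiv k G) = 0) :
    eval q G = 0 := by
  have h1 := congrArg (eval q) hG.sum_X_mul_pderiv
  rw [map_sum, Finset.sum_eq_zero (fun k _ => by rw [map_mul, h k, mul_zero]), map_nsmul,
    nsmul_eq_mul] at h1
  have h3 : (N : ℂ) ≠ 0 := by
    rw [Nat.cast_ne_zero]
    omega
  exact (mul_eq_zero.mp h1.symm).resolve_left h3

theorem cr_anti (p q : V3) : cr q p = - cr p q := by
  funext i
  fin_cases i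
  · change q 1 * p 2 - q 2 * p 1 = -(p 1 * q 2 - p 2 * q 1)
    ring
  · change q 2 * p 0 - q 0 * p 2 = -(p 2 * q 0 - p 0 * q 2)
    ring
  · change q 0 * p 1 - q 1 * p 0 = -(p 0 * q 1 - p 1 * q 0)
    ring

theorem cr_ne_symm {p q : V3} (h : cr p q ≠ 0) : cr q p ≠ 0 := by
  rw [cr_anti]
  exact neg_ne_zero.mpr h

/-- a binary form not vanishing at a point -/
theorem exists_binary {y : V2} (hy : y ≠ 0) (k : ℕ) : ∃ β : R2, β.IsHomogeneous k ∧
    eval y β ≠ 0 := by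
  have h1 : ∀ i : Fin 2, (X i ^ k : R2).IsHomogeneous k := fun i => by
    have := (isHomogeneous_X ℂ i).pow k
    rwa [one_mul] at this
  by_cases h0 : y 0 = 0
  · refine ⟨X 1 ^ k, h1 1, ?_⟩
    rw [map_pow, eval_X]
    apply pow_ne_zero
    intro h
    apply hy
    funext i
    fin_cases i
    · exact h0
    · exact h
  · refine ⟨X 0 ^ k, h1 0, ?_⟩
    rw [map_pow, eval_X]
    exact pow_ne_zero _ h0

/-- derivatives of a form with a multiple factor -/
theorem iterate_factor (c : ℂ) (w : ℕ) : ∀ i, i ≤ w → ∀ γ : R2, ∃ γ' : R2,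
    (pderiv 0)^[i] ((X 0 - C c * X 1) ^ w * γ) = (X 0 - C c * X 1) ^ (w - i) * γ' := by
  intro i
  induction i with
  | zero => exact fun _ γ => ⟨γ, rfl⟩
  | succ i ih =>
    intro hi γ
    obtain ⟨γ', h⟩ := ih (by omega) γ
    refine ⟨C ((w - i : ℕ) : ℂ) * γ' + (X 0 - C c * X 1) * pderiv 0 γ', ?_⟩
    rw [Function.iterate_succ_apply', h, pderiv_mul, pderiv_pow]
    have h1 : pderiv 0 (X 0 - C c * X 1 : R2) = 1 := by
      rw [map_sub, pderiv_X_self, pderiv_C_mul, pderiv_X_of_ne (by decide), mul_zero, sub_zero]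
    have h2 : (X 0 - C c * X 1 : R2) ^ (w - i) =
        (X 0 - C c * X 1) ^ (w - (i + 1)) * (X 0 - C c * X 1) := by
      rw [← pow_succ]
      congr 1
      omega
    have h3 : w - i - 1 = w - (i + 1) := by omega
    rw [h1, h2, h3, map_natCast]
    ring

theorem Dat.card_sum (S : Dat d M m μ w s Mv v) (T : Finset ι) (hT : T.card ≤ 1) :
    ∑ x : {i // i ∈ T}, m x.1 + 1 ≤ M ∨ ∑ x : {i // i ∈ T}, m x.1 = 0 := by
  rcases Nat.eq_zero_or_pos T.card with h | h
  · right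
    rw [Finset.card_eq_zero] at h
    subst h
    simp
  · left
    obtain ⟨a, ha⟩ := Finset.card_eq_one.mp (by omega : T.card = 1)
    subst ha
    have h1 : ∑ x : {i // i ∈ ({a} : Finset ι)}, m x.1 = m a := by
      rw [← Finset.sum_subtype ({a} : Finset ι) (p := fun i => i ∈ ({a} : Finset ι))
        (fun x => Iff.rfl) m, Finset.sum_singleton]
    rw [h1]
    exact S.hm a

theorem Dat.deg_sum (S : Dat d M m μ w s Mv v) (T : Finset ι) (hT : T.card ≤ 1) :
    ∑ x : Λ ⊕ {i // i ∈ T}, Sum.elim μ (fun i => m i.1) x + 2 * Fintype.card Λ + M ≤ d := by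
  rw [Fintype.sum_sum_type]
  have h1 := S.hd
  rw [Finset.sum_add_distrib, Finset.sum_const, Finset.card_univ, smul_eq_mul] at h1
  have h2 := S.card_sum T hT
  change ∑ l, μ l + ∑ x : {i // i ∈ T}, m x.1 + _ + _ ≤ d
  rcases h2 with h2 | h2 <;> omega

theorem Dat.flag_sing [Nonempty Λ] (S : Dat d M m μ w s Mv v) {p : ι → V3} {P : Λ → V3} {c : Λ → ℂ}
    (hX : Ind (Sum.elim p P) c) {F : R3} (hF : F ∈ FS d p m P μ c w) (hF0 : F ≠ 0) :
    ¬ Sing (Sum.elim p P) F := by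
  classical
  rintro ⟨q, hq, hqp, hs⟩
  have hMd := S.hMd
  have hd1 : 1 ≤ d := by
    obtain ⟨l⟩ := ‹Nonempty Λ›
    have := S.hμd l
    omega
  refine S.graph hX (Z := ∅) (Y := ∅) (by simp) (n := 3) (N := d) le_rfl (Θ := LinearMap.id)
    (W := FS d (fun a : {a // a ∈ (∅ : Finset ι)} => p a.1) (fun a => m a.1) P μ c
      (fun l => if l ∈ (∅ : Finset Λ) then w l else 0)) rfl (fun H hH => hH.1.1)
    (fun Δ _ _ _ H _ => rfl) (ρ := Unit) (by simp) (R := fun _ => q)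
    (fun _ l => cr_ne_symm (hqp (Sum.inr l))) hq ?_ ?_ hF hF0
    (eval_zero_of_grad hd1 hF.1.1 hs) hs
  · intro H _ _ _ h
    exact vanishTo_one_iff'.mp (h ())
  · intro T hT _
    obtain ⟨H, h1, h2, h3⟩ := exists_form_ne (κ := Λ ⊕ {i // i ∈ T})
      (Q := Sum.elim P (fun i => p i.1)) (a := Sum.elim μ (fun i => m i.1)) hq (by
        rintro (l | i)
        · exact hqp (Sum.inr l)
        · exact hqp (Sum.inl i.1)) (d := d) (by
        have := S.deg_sum T hT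
        omega)
    refine ⟨H, ⟨⟨h1, ?_⟩, fun l i hi => ?_⟩, fun i hi => h2 (Sum.inr ⟨i, hi⟩), h3⟩
    · rintro (a | l)
      · exact absurd a.2 (Finset.notMem_empty _)
      · exact h2 (Sum.inl l)
    · simp at hi

theorem Dat.flag_tang (S : Dat d M m μ w s Mv v) {p : ι → V3} {P : Λ → V3} {c : Λ → ℂ}
    (hX : Ind (Sum.elim p P) c) {F : R3} (hF : F ∈ FS d p m P μ c w) (hF0 : F ≠ 0) :
    ¬ Tang d p m F := by
  classical
  rintro ⟨a, u, hu, hbad⟩
  have hg : GenericPoints (Sum.elim p P) := Ind.gen hX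
  have hMd := S.hMd
  have hma := S.hm a
  have hp2 : p a 2 ≠ 0 := hg.ne_zero (Sum.inl a, 2)
  obtain ⟨y, hy, hy0, hy1⟩ : ∃ y : V2, y ≠ 0 ∧ eval y (ld d (m a) (p a) F) = 0 ∧
      ∀ k, eval y (pderiv k (ld d (m a) (p a) F)) = 0 := by
    rcases Nat.eq_zero_or_pos (m a) with h0 | hpos
    · have h1 := (badDir_zero_iff hF.1.1 hp2).mp ⟨u, hu, by rw [h0] at hbad; exact hbad⟩
      refine ⟨![1, 0], ?_, ?_, ?_⟩
      · intro h
        exact one_ne_zero (congrFun h 0)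
      · rw [h0, h1, map_zero]
      · intro k
        rw [h0, h1, map_zero, map_zero]
    · obtain ⟨y, hy, hy1⟩ := (badDir_iff_ld hF.1.1 hp2 hpos (by omega)
        (hF.1.2 (Sum.inl a))).mp ⟨u, hu, hbad⟩
      exact ⟨y, hy, eval_zero_of_grad hpos (ld_hom hF.1.1 (by omega) _) hy1, hy1⟩
  refine S.graph hX (Z := {a}) (Y := ∅) (by simp) (n := 2) (N := m a) (by omega)
    (Θ := ld d (m a) (p a))
    (W := FS d (fun b : {b // b ∈ ({a} : Finset ι)} => p b.1) (fun b => m b.1) P μ c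
      (fun l => if l ∈ (∅ : Finset Λ) then w l else 0)) rfl
    (fun H hH => ld_hom hH.1.1 (by omega) _)
    (fun Δ _ h _ H _ => (cD_ld Δ (h a (by simp)) d (m a) H).symm) (ρ := Empty) (by simp)
    (R := Empty.elim) (fun x => x.elim) hy ?_ ?_ hF hF0 hy0 hy1
  · intro H hH _ h _
    rw [(vanishTo_iff_ld hH.1.1 hp2 (by omega)).mp (h a (by simp)) (m a) (Nat.lt_succ_self _),
      map_zero]
  · intro T hT hTa
    obtain ⟨β, hβ, hβy⟩ := exists_binary hy (m a)
    obtain ⟨H, h1, h2, h3, h4⟩ := exists_form (κ := Λ ⊕ {i // i ∈ T})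
      (Q := Sum.elim P (fun i => p i.1)) (a := Sum.elim μ (fun i => m i.1)) hp2 (by
        rintro (l | i)
        · exact generic_cr_ne hg (x := Sum.inr l) (y := Sum.inl a) (by simp)
        · refine generic_cr_ne hg (x := Sum.inl i.1) (y := Sum.inl a) ?_
          intro h
          have := hTa i.1 i.2
          exact this (by rw [Sum.inl_injective h]; simp)) (d := d) (by
        have := S.deg_sum T hT
        omega) hβ
    refine ⟨H, ⟨⟨h1, ?_⟩, fun l i hi => ?_⟩, fun i hi => h2 (Sum.inr ⟨i, hi⟩), ?_⟩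
    · rintro (b | l)
      · have hb : b.1 = a := Finset.mem_singleton.mp b.2
        change VanishTo H (p b.1) (m b.1)
        rw [hb]
        exact h3
      · exact h2 (Sum.inl l)
    · simp at hi
    · rw [h4]
      exact hβy

/-- a multiple tangent at a point of collision is the flag direction -/
theorem Dat.flag_dir (S : Dat d M m μ w s Mv v) {p : ι → V3} {P : Λ → V3} {c : Λ → ℂ}
    (hX : Ind (Sum.elim p P) c) {F : R3} (hF : F ∈ FS d p m P μ c w) (hF0 : F ≠ 0) {l₀ : Λ}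
    {y : V2} (hy : y ≠ 0) (h : ∀ k, eval y (pderiv k (ld d (μ l₀) (P l₀) F)) = 0) :
    y 0 = c l₀ * y 1 := by
  classical
  by_contra hne
  have hg : GenericPoints (Sum.elim p P) := Ind.gen hX
  have hμd := S.hμd l₀
  have hwl := S.w_le l₀
  have hP2 : P l₀ 2 ≠ 0 := hg.ne_zero (Sum.inr l₀, 2)
  refine S.graph hX (Z := ∅) (Y := {l₀}) (by simp) (n := 2) (N := μ l₀) (by omega)
    (Θ := ld d (μ l₀) (P l₀))
    (W := FS d (fun b : {b // b ∈ (∅ : Finset ι)} => p b.1) (fun b => m b.1) P μ c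
      (fun l => if l ∈ ({l₀} : Finset Λ) then w l else 0)) rfl
    (fun H hH => ld_hom hH.1.1 (by omega) _)
    (fun Δ h _ _ H _ => (cD_ld Δ (h l₀) d (μ l₀) H).symm) (ρ := Empty) (by simp)
    (R := Empty.elim) (fun x => x.elim) hy ?_ ?_ hF hF0
    (eval_zero_of_grad (by omega) (ld_hom hF.1.1 (by omega) _) h) h
  · intro H hH h _ _
    rw [(vanishTo_iff_ld hH.1.1 hP2 (by omega)).mp (h l₀ (by simp)) (μ l₀) (by omega), map_zero]
  · intro T hT _
    obtain ⟨γ, hγ, hγy⟩ := exists_binary hy (μ l₀ - w l₀)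
    have hlin : (X 0 - C (c l₀) * X 1 : R2).IsHomogeneous 1 :=
      (isHomogeneous_X ℂ 0).sub ((isHomogeneous_X ℂ 1).C_mul _)
    have hβ : ((X 0 - C (c l₀) * X 1) ^ w l₀ * γ : R2).IsHomogeneous (μ l₀) := by
      have h1 := (hlin.pow (w l₀)).mul hγ
      rwa [one_mul, (by omega : w l₀ + (μ l₀ - w l₀) = μ l₀)] at h1
    obtain ⟨H, h1, h2, h3, h4⟩ := exists_form (κ := {l // l ≠ l₀} ⊕ {i // i ∈ T})
      (Q := Sum.elim (fun l => P l.1) (fun i => p i.1))
      (a := Sum.elim (fun l => μ l.1) (fun i => m i.1)) hP2 (by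
        rintro (l | i)
        · exact generic_cr_ne hg (x := Sum.inr l.1) (y := Sum.inr l₀)
            (fun h => l.2 (Sum.inr_injective h))
        · exact generic_cr_ne hg (x := Sum.inl i.1) (y := Sum.inr l₀) (by simp)) (d := d) (by
        have h5 := S.deg_sum T hT
        rw [Fintype.sum_sum_type] at h5 ⊢
        have h6 : ∑ x : {l' : Λ // l' ≠ l₀}, μ x.1 + μ l₀ = ∑ l, μ l := by
          rw [← Finset.add_sum_erase Finset.univ μ (Finset.mem_univ l₀), add_comm]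
          congr 1
          rw [← Finset.sum_subtype (Finset.univ.erase l₀) (p := fun l' => l' ≠ l₀)
            (fun x => by simp) μ]
        change ∑ l, μ l + ∑ x : {i // i ∈ T}, m x.1 + _ + _ ≤ d at h5
        change ∑ x : {l' : Λ // l' ≠ l₀}, μ x.1 + ∑ x : {i // i ∈ T}, m x.1 + _ ≤ d
        omega) hβ
    refine ⟨H, ⟨⟨h1, ?_⟩, fun l i hi => ?_⟩, fun i hi => h2 (Sum.inr ⟨i, hi⟩), ?_⟩
    · rintro (b | l)
      · exact absurd b.2 (Finset.notMem_empty _)
      · by_cases hl : l = l₀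
        · change VanishTo H (P l) (μ l)
          rw [hl]
          exact h3
        · exact h2 (Sum.inl ⟨l, hl⟩)
    · by_cases hl : l = l₀
      · subst hl
        have hi' : i < w l := by
          simp at hi
          exact hi
        rw [fd_eq, h4]
        obtain ⟨γ', hγ'⟩ := iterate_factor (c l) (w l) i hi'.le γ
        rw [hγ', map_mul, map_pow]
        have h5 : eval ![c l, 1] (X 0 - C (c l) * X 1 : R2) = 0 := by simp
        rw [h5, zero_pow (by omega), zero_mul]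
      · have hi' : i < 0 := by simpa [hl] using hi
        exact absurd hi' (Nat.not_lt_zero i)
    · rw [h4, map_mul, map_pow]
      refine mul_ne_zero (pow_ne_zero _ ?_) hγy
      intro h5
      apply hne
      have h6 : eval y (X 0 - C (c l₀) * X 1 : R2) = y 0 - c l₀ * y 1 := by simp
      rw [h6] at h5
      exact sub_eq_zero.mp h5

/-- the strict transform is smooth at the flag direction -/
theorem Dat.flag_next (S : Dat d M m μ w s Mv v) {p : ι → V3} {P : Λ → V3} {c : Λ → ℂ}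
    (hX : Ind (Sum.elim p P) c) {F : R3} (hF : F ∈ FS d p m P μ c w) (hF0 : F ≠ 0) (l₀ : Λ) :
    eval ![c l₀, 1] (ld d (μ l₀ + 1) (P l₀) F) ≠ 0 := by
  classical
  intro hzero
  have hg : GenericPoints (Sum.elim p P) := Ind.gen hX
  have hμd := S.hμd l₀
  have hP2 : P l₀ 2 ≠ 0 := hg.ne_zero (Sum.inr l₀, 2)
  have hΘa : ∀ H : R3, ((Algebra.linearMap ℂ (MvPolynomial (Fin 1) ℂ)).comp
      (fd d (μ l₀ + 1) (P l₀) (c l₀) 0)) H = C (fd d (μ l₀ + 1) (P l₀) (c l₀) 0 H) :=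
    fun H => rfl
  have hF1 : fd d (μ l₀ + 1) (P l₀) (c l₀) 0 F = 0 := hzero
  refine S.graph hX (Z := ∅) (Y := {l₀}) (by simp) (n := 1) (N := 0) (by omega)
    (Θ := (Algebra.linearMap ℂ (MvPolynomial (Fin 1) ℂ)).comp
      (fd d (μ l₀ + 1) (P l₀) (c l₀) 0))
    (W := FS d (fun b : {b // b ∈ (∅ : Finset ι)} => p b.1) (fun b => m b.1) P μ c
      (fun l => if l ∈ ({l₀} : Finset Λ) then w l else 0)) rfl
    (fun H hH => by rw [hΘa]; exact isHomogeneous_C _ _) ?_ (ρ := Empty) (by simp)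
    (R := Empty.elim) (fun x => x.elim) (q := fun _ => 1)
    (fun h => one_ne_zero (congrFun h 0)) ?_ ?_ hF hF0 ?_ ?_
  · intro Δ h _ hc H _
    rw [hΘa, hΘa, cD_C, D_fd Δ (h l₀), hc l₀ (by simp), zero_mul, add_zero]
  · intro H hH h _ _
    rw [hΘa, eval_C]
    exact fd_zero_of_vanishTo hH.1.1 hP2 (by omega) (h l₀ (by simp)) _ _
  · intro T hT _
    obtain ⟨β, hβ, hβy⟩ := exists_binary (y := ![c l₀, 1]) (fun h => one_ne_zero (congrFun h 1))
      (μ l₀ + 1)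
    obtain ⟨H, h1, h2, h3, h4⟩ := exists_form (κ := {l // l ≠ l₀} ⊕ {i // i ∈ T})
      (Q := Sum.elim (fun l => P l.1) (fun i => p i.1))
      (a := Sum.elim (fun l => μ l.1) (fun i => m i.1)) hP2 (by
        rintro (l | i)
        · exact generic_cr_ne hg (x := Sum.inr l.1) (y := Sum.inr l₀)
            (fun h => l.2 (Sum.inr_injective h))
        · exact generic_cr_ne hg (x := Sum.inl i.1) (y := Sum.inr l₀) (by simp)) (d := d) (by
        have h5 := S.deg_sum T hT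
        rw [Fintype.sum_sum_type] at h5 ⊢
        have h6 : ∑ x : {l' : Λ // l' ≠ l₀}, μ x.1 + μ l₀ = ∑ l, μ l := by
          rw [← Finset.add_sum_erase Finset.univ μ (Finset.mem_univ l₀), add_comm]
          congr 1
          rw [← Finset.sum_subtype (Finset.univ.erase l₀) (p := fun l' => l' ≠ l₀)
            (fun x => by simp) μ]
        have h7 : 1 ≤ Fintype.card Λ := Fintype.card_pos_iff.mpr ⟨l₀⟩
        change ∑ l, μ l + ∑ x : {i // i ∈ T}, m x.1 + _ + _ ≤ d at h5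
        change ∑ x : {l' : Λ // l' ≠ l₀}, μ x.1 + ∑ x : {i // i ∈ T}, m x.1 + _ ≤ d
        omega) hβ
    refine ⟨H, ⟨⟨h1, ?_⟩, fun l i hi => ?_⟩, fun i hi => h2 (Sum.inr ⟨i, hi⟩), ?_⟩
    · rintro (b | l)
      · exact absurd b.2 (Finset.notMem_empty _)
      · by_cases hl : l = l₀
        · change VanishTo H (P l) (μ l)
          rw [hl]
          exact h3.mono (Nat.le_succ _)
        · exact h2 (Sum.inl ⟨l, hl⟩)
    · by_cases hl : l = l₀
      · subst hl
        exact fd_zero_of_vanishTo h1 hP2 (by omega) h3 _ _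
      · have hi' : i < 0 := by simpa [hl] using hi
        exact absurd hi' (Nat.not_lt_zero i)
    · rw [hΘa, eval_C, fd_eq, h4]
      exact hβy
  · rw [hΘa, eval_C]
    exact hF1
  · intro k
    rw [hΘa, pderiv_C, map_zero]

end Pool.Agent.Work.MP_0421d9_ag.ZC
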