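import Pool.Agent.Work.MP_0421d9_ag.ZCFlag

/-!
Collisions of generic points: the dimension at the hybrid level.
-/

set_option linter.unusedSectionVars false
set_option linter.unusedVariables false

namespace Pool.Agent.Work.MP_0421d9_ag.ZC

open MvPolynomial Module SM

variable {ι Λ : Type} [Fintype ι] [Fintype Λ] [DecidableEq ι] [DecidableEq Λ] {d M : ℕ}
  {m : ι → ℕ} {μ w s Mv : Λ → ℕ} {v : ∀ l, Fin (s l) → ℕ}

/-- the pairs of forms with equal leading parts -/
theorem Dat.hyb_dim (S : Dat d M m μ w s Mv v) {p : ι → V3} {P : Λ → V3} {c : Λ → ℂ} {l₀ : Λ}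
    {ζ : Fin (s l₀) → V3} (hX : Ind (Sum.elim (Sum.elim p P) ζ) c) :
    ∃ K : Submodule ℂ (R3 × R3), Module.Finite ℂ K ∧
      (∀ x ∈ K, x.1 ∈ linSys d (Sum.elim p P) (Sum.elim m μ) ∧ x.2 ∈ linSys (μ l₀) ζ (v l₀) ∧
        res x.2 = ld d (μ l₀) (P l₀) x.1) ∧ 1 + ∑ l, w l ≤ finrank ℂ K + w l₀ := by
  classical
  have hgen := Ind.gen hX
  have hpP : GenericPoints (Sum.elim p P) := by
    have h := AlgebraicIndependent.comp hgen
      (fun z : (ι ⊕ Λ) × Fin 3 => ((Sum.inl z.1 : (ι ⊕ Λ) ⊕ Fin (s l₀)), z.2))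
      (fun z z' h => by
        rw [Prod.mk.injEq] at h
        exact Prod.ext (Sum.inl_injective h.1) h.2)
    exact h
  have hζ : GenericPoints ζ := by
    have h := AlgebraicIndependent.comp hgen
      (fun z : Fin (s l₀) × Fin 3 => ((Sum.inr z.1 : (ι ⊕ Λ) ⊕ Fin (s l₀)), z.2))
      (fun z z' h => by
        rw [Prod.mk.injEq] at h
        exact Prod.ext (Sum.inr_injective h.1) h.2)
    exact h
  obtain ⟨n, hn⟩ : ∃ n, n = μ l₀ := ⟨_, rfl⟩
  have hnd : n ≤ d := by
    have := S.hμd l₀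
    omega
  have hw1 := S.hw l₀
  have hv1 := S.hv l₀
  have hcr := S.crit l₀
  have hχ := S.hχ
  rw [← hn] at hw1 hcr
  -- the two systems
  have hA1 : finrank ℂ (linSys d (Sum.elim p P) (Sum.elim m μ)) = 1 + ∑ l, w l := by
    rw [S.hN.finrank hpP (by
      rintro (i | l)
      · have := S.hm i
        change m i ≤ M
        omega
      · have := S.hμ l
        change μ l ≤ M
        omega), Fintype.sum_sum_type]
    simp only [Sum.elim_inl, Sum.elim_inr]
    omega
  have hA2 : finrank ℂ (linSys (μ l₀) ζ (v l₀)) + w l₀ = n + 1 := by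
    rw [(S.hNv l₀).finrank hζ (fun j => by
      have := hv1 j
      omega), hcr, ← hn]
    have h1 : (n + 2).choose 2 = (n + 1).choose 2 + (n + 1) := by
      rw [Nat.choose_succ_succ' (n + 1) 1, Nat.choose_one_right, add_comm]
    omega
  have hf1 : Module.Finite ℂ (linSys d (Sum.elim p P) (Sum.elim m μ)) :=
    Submodule.finiteDimensional_of_le (linSys_le d _ _)
  have hf2 : Module.Finite ℂ (linSys (μ l₀) ζ (v l₀)) :=
    Submodule.finiteDimensional_of_le (linSys_le _ _ _)
  -- the difference of the leading parts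
  let φ : R3 × R3 →ₗ[ℂ] (Fin (n + 1) → ℂ) := LinearMap.pi fun a =>
    (lcoeff ℂ (e2 a (n - a))).comp ((ld d n (P l₀)).comp (LinearMap.fst ℂ R3 R3) -
      res.toLinearMap.comp (LinearMap.snd ℂ R3 R3))
  have hφ : ∀ x a, φ x a = coeff (e2 a (n - a)) (ld d n (P l₀) x.1 - res x.2) := fun x a => rfl
  let ψ : linSys d (Sum.elim p P) (Sum.elim m μ) × linSys (μ l₀) ζ (v l₀) →ₗ[ℂ] R3 × R3 :=
    (Submodule.subtype _).prodMap (Submodule.subtype _)
  have hψ : Function.Injective ψ := by
    rintro ⟨x, y⟩ ⟨x', y'⟩ h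
    have h1 : (x : R3) = x' := congrArg Prod.fst h
    have h2 : (y : R3) = y' := congrArg Prod.snd h
    exact Prod.ext (Subtype.ext h1) (Subtype.ext h2)
  have hrk := LinearMap.finrank_range_add_finrank_ker (φ.comp ψ)
  have hrange : finrank ℂ (LinearMap.range (φ.comp ψ)) ≤ n + 1 := by
    have h := Submodule.finrank_le (LinearMap.range (φ.comp ψ))
    rwa [Module.finrank_fin_fun] at h
  rw [Module.finrank_prod, hA1] at hrk
  refine ⟨(LinearMap.ker (φ.comp ψ)).map ψ, inferInstance, ?_, ?_⟩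
  · rintro x hx
    obtain ⟨⟨y, z⟩, hy, rfl⟩ := Submodule.mem_map.mp hx
    refine ⟨y.2, z.2, ?_⟩
    have h0 : φ ((y : R3), (z : R3)) = 0 := LinearMap.mem_ker.mp hy
    have hl := ld_hom y.2.1 hnd (P l₀)
    have hr : (res (z : R3)).IsHomogeneous n := by
      have h1 : (z : R3).IsHomogeneous n := by
        rw [hn]
        exact z.2.1
      exact res_hom h1
    change res (z : R3) = ld d (μ l₀) (P l₀) (y : R3)
    refine Eq.trans ?_ (congrArg (fun k => ld d k (P l₀) (y : R3)) hn)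
    refine R2_ext fun a b => ?_
    by_cases hab : a + b = n
    · have h1 := congrFun h0 ⟨a, by omega⟩
      rw [hφ] at h1
      have h2 : n - a = b := by omega
      change coeff (e2 a (n - a)) (ld d n (P l₀) (y : R3) - res (z : R3)) = 0 at h1
      rw [h2, coeff_sub] at h1
      exact (sub_eq_zero.mp h1).symm
    · have h3 : (e2 a b).degree ≠ n := by
        rw [Finsupp.degree_eq_sum, Fin.sum_univ_two]
        exact hab
      rw [hl.coeff_eq_zero h3, hr.coeff_eq_zero h3]
  · have h1 := (Submodule.equivMapOfInjective ψ hψ (LinearMap.ker (φ.comp ψ))).finrank_eq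
    rw [← h1]
    omega

end Pool.Agent.Work.MP_0421d9_ag.ZC
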