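import Pool.Agent.Work.MP_0421d9_ag.ZCLead
import Pool.Agent.Work.MP_0421d9_ag.SLimit

/-!
Collisions of generic points: the limit, and the collision theorem in terms of the limits.
-/

set_option linter.unusedSectionVars false
set_option linter.unusedVariables false

namespace Pool.Agent.Work.MP_0421d9_ag.ZC

open MvPolynomial Module SM

/-- the limit of `scz τ H` compared with the limit of `H` -/
theorem limit_low (ρ : Pl) {τ : ℂ} (hτ0 : τ ≠ 0) (hτ : ρ.L τ 0) {u : ℕ} {H T : R3} {c : ℂ}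
    (hH0 : H ≠ 0) (hT : ρ.LP (C c * scz τ H) T)
    (h1 : ∀ c Fb, ρ.LP (C c * H) Fb → Fb ≠ 0 → ∃ α, coeff α Fb ≠ 0 ∧ α 2 ≤ u) :
    (∀ α, coeff α T ≠ 0 → α 2 ≤ u) ∧ ((∀ α, α 2 = u → coeff α T = 0) ∨
      ∃ G, ρ.LP (C (c * τ ^ u) * H) G ∧ (∀ α, coeff α G ≠ 0 → u ≤ α 2) ∧
        ∀ α, α 2 = u → coeff α G = coeff α T) := by
  obtain ⟨c', hc', Fb, hFb, hLF⟩ := Pl.exists_scale_poly ρ hH0
  obtain ⟨α, hα, hmin⟩ := Finset.exists_min_image Fb.support (fun α => α 2)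
    (support_nonempty.mpr hFb)
  rw [MvPolynomial.mem_support_iff] at hα
  have hmin' : ∀ β, coeff β Fb ≠ 0 → α 2 ≤ β 2 := fun β hβ =>
    hmin β (MvPolynomial.mem_support_iff.mpr hβ)
  have hF : ∀ β, ρ.L (c' * coeff β H) (coeff β Fb) := fun β => by
    have := hLF β
    rwa [coeff_C_mul] at this
  have hG : ∀ β, ρ.L (c * (τ ^ β 2 * coeff β H)) (coeff β T) := fun β => by
    have := hT β
    rwa [coeff_C_mul, coeff_scz] at this
  have hαH : coeff α H ≠ 0 := by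
    intro h
    have h3 := hF α
    rw [h, mul_zero] at h3
    exact hα (ρ.fn h3 (Pl.zero ρ))
  have hκ : ρ.L (c * τ ^ α 2 / c') (coeff α T / coeff α Fb) := by
    have h3 := Pl.div ρ (hG α) (hF α) hα
    have e : c * (τ ^ α 2 * coeff α H) / (c' * coeff α H) = c * τ ^ α 2 / c' := by
      field_simp
    rwa [e] at h3
  have hbig : ∀ β, α 2 < β 2 → coeff β T = 0 := by
    intro β hβ
    have h3 := L_zero_mul ρ hτ (k := β 2 - α 2) (by omega) (ρ.mul hκ (hF β))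
    have e : τ ^ (β 2 - α 2) * (c * τ ^ α 2 / c' * (c' * coeff β H)) =
        c * (τ ^ β 2 * coeff β H) := by
      have h5 : τ ^ (β 2) = τ ^ (β 2 - α 2) * τ ^ (α 2) := by
        rw [← pow_add]
        congr 1
        omega
      rw [h5]
      field_simp
    rw [e] at h3
    exact ρ.fn (hG β) h3
  obtain ⟨α1, hα1, hu1⟩ := h1 c' Fb hLF hFb
  have hαu : α 2 ≤ u := (hmin' α1 hα1).trans hu1
  refine ⟨fun β hβ => ?_, ?_⟩
  · by_contra hcon
    exact hβ (hbig β (by omega))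
  · rcases Nat.lt_or_ge (α 2) u with hlt | hge
    · left
      intro β hβ
      exact hbig β (by omega)
    · right
      have hau : α 2 = u := le_antisymm hαu hge
      rw [hau] at hκ
      have hLG : ρ.LP (C (c * τ ^ u) * H) (C (coeff α T / coeff α Fb) * Fb) := by
        have h3 := hLF.C_mul hκ
        have e : C (c * τ ^ u / c') * (C c' * H) = C (c * τ ^ u) * H := by
          rw [← mul_assoc, ← map_mul]
          congr 2
          field_simp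
        rwa [e] at h3
      refine ⟨_, hLG, ?_, ?_⟩
      · intro β hβ
        rw [coeff_C_mul] at hβ
        rw [← hau]
        exact hmin' β (right_ne_zero_of_mul hβ)
      · intro β hβ
        have h3 := hLG β
        rw [coeff_C_mul] at h3
        have h4 := hG β
        rw [hβ, ← mul_assoc] at h4
        exact ρ.fn h3 h4

theorem scz_scz_inv {τ : ℂ} (hτ0 : τ ≠ 0) (F : R3) : scz τ (scz τ⁻¹ F) = F := by
  ext α
  rw [coeff_scz, coeff_scz, ← mul_assoc, ← mul_pow, mul_inv_cancel₀ hτ0, one_pow, one_mul]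

theorem scv_inv_scv {τ : ℂ} (hτ0 : τ ≠ 0) (v : V3) : scv τ⁻¹ (scv τ v) = v := by
  ext i
  fin_cases i
  · rfl
  · rfl
  · change v 2 / τ / τ⁻¹ = v 2
    field_simp

theorem scz_eq_zero {τ : ℂ} (hτ0 : τ ≠ 0) {F : R3} (h : scz τ F = 0) : F = 0 := by
  ext α
  have h3 := coeff_scz τ F α
  rw [h, coeff_zero] at h3
  rw [coeff_zero]
  exact ((mul_eq_zero.mp h3.symm).resolve_left (pow_ne_zero _ hτ0))

/-- the limit at one point of collision -/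
theorem one_limit (ρ : Pl) {τ : ℂ} (hτ0 : τ ≠ 0) (hτ : ρ.L τ 0) {d μ₀ : ℕ} (hμd : μ₀ ≤ d)
    (hμ : 1 ≤ μ₀) {P P' : V3} (hP : P 2 ≠ 0) (hP' : P' 2 ≠ 0) (hPP : ∀ k, ρ.L (P k) (P' k))
    {s₀ : ℕ} {ζ ζ' : Fin s₀ → V3} (hζ : ∀ j k, ρ.L (ζ j k) (ζ' j k)) (hζ2 : ∀ j, ζ' j 2 ≠ 0)
    {v : Fin s₀ → ℕ} (hlow : linSys (μ₀ - 1) ζ' v = ⊥) {F F₀ : R3} {c : ℂ}
    (hF : F.IsHomogeneous d) (hF0 : F ≠ 0) (hlim : ρ.LP (C c * F) F₀)
    (hv : ∀ j, VanishTo F (tv P (scv τ (ζ j))) (v j)) :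
    VanishTo F₀ P' μ₀ ∧ ∃ G ∈ linSys μ₀ ζ' v, res G = ld d μ₀ P' F₀ ∧
      (ld d μ₀ P' F₀ ≠ 0 →
        ρ.LP (C (c * τ ^ (d - μ₀)) * scz τ⁻¹ (tr P F)) (X 2 ^ (d - μ₀) * G)) := by
  have hF₀ : F₀.IsHomogeneous d := hlim.homogeneous (hF.C_mul c)
  set H : R3 := scz τ⁻¹ (tr P F) with hH
  have hHh : H.IsHomogeneous d := scz_hom _ (tr_hom hF P)
  have hsH : scz τ H = tr P F := scz_scz_inv hτ0 _
  have hH0 : H ≠ 0 := by
    intro h
    rw [h, map_zero] at hsH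
    exact hF0 ((tr_eq_zero hP).mp hsH.symm)
  have hHv : ∀ j, VanishTo H (ζ j) (v j) := by
    intro j
    have h1 := vanishTo_scz (inv_ne_zero hτ0) (tr_hom hF P) ((vanishTo_tr hP).mpr (hv j))
    rwa [scv_inv_scv hτ0] at h1
  have hvan : ∀ c G, ρ.LP (C c * H) G → ∀ j, VanishTo G (ζ' j) (v j) := fun c G hG j =>
    hG.vanishTo (hHh.C_mul c) (hζ j) (vanishTo_C_mul (hHv j) c)
  have hT : ρ.LP (C c * scz τ H) (tr P' F₀) := by
    have h1 := LP_tr ρ hPP hlim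
    rw [map_mul, tr_C] at h1
    rwa [hsH]
  obtain ⟨hA, hB⟩ := limit_low ρ hτ0 hτ (u := d - μ₀) hH0 hT (fun c Fb hFb hFb0 => by
    by_contra hcon
    push Not at hcon
    have hh : Fb.IsHomogeneous d := hFb.homogeneous (hHh.C_mul c)
    obtain ⟨K, hK, hKF⟩ := exists_z_factor (k := d - μ₀ + 1) hh (fun α hα => hcon α hα)
    have h2 : K ∈ linSys (μ₀ - 1) ζ' v := by
      refine ⟨?_, fun j => ?_⟩
      · have : d - (d - μ₀ + 1) = μ₀ - 1 := by omega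
        rwa [this] at hK
      · apply vanishTo_of_X_pow_mul (hζ2 j) (d - μ₀ + 1)
        rw [hKF]
        exact hvan c Fb hFb j
    rw [hlow, Submodule.mem_bot] at h2
    apply hFb0
    rw [← hKF, h2, mul_zero])
  have hvP : VanishTo F₀ P' μ₀ := by
    rw [vanishTo_iff_ld hF₀ hP' (by omega)]
    intro k hk
    rw [ld_apply]
    apply R2_ext
    intro a b
    rw [coeff_cz, coeff_zero]
    by_contra hne
    have h1 := hA _ hne
    have h2 : (e3 a b (d - k)) 2 = d - k := rfl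
    omega
  refine ⟨hvP, ?_⟩
  rcases hB with hB | ⟨G₁, hG₁, hsup, hco⟩
  · have h0 : ld d μ₀ P' F₀ = 0 := by
      rw [ld_apply]
      apply R2_ext
      intro a b
      rw [coeff_cz, coeff_zero]
      exact hB _ rfl
    exact ⟨0, zero_mem _, by rw [h0, map_zero], fun h => absurd h0 h⟩
  · have hh : G₁.IsHomogeneous d := hG₁.homogeneous (hHh.C_mul _)
    obtain ⟨G, hG, hGG⟩ := exists_z_factor (k := d - μ₀) hh hsup
    have hdd : d - (d - μ₀) = μ₀ := by omega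
    rw [hdd] at hG
    refine ⟨G, ⟨hG, fun j => ?_⟩, ?_, fun _ => ?_⟩
    · apply vanishTo_of_X_pow_mul (hζ2 j) (d - μ₀)
      rw [hGG]
      exact hvan _ G₁ hG₁ j
    · rw [ld_apply]
      apply R2_ext
      intro a b
      have h3 := coeff_X2_pow_mul (d - μ₀) G a b 0
      rw [zero_add] at h3
      rw [coeff_res, coeff_cz, ← hco _ rfl, ← hGG, h3]
    · rw [hGG]
      exact hG₁

/-! ### the collision theorem in terms of the limits -/

theorem L_ip (ρ : Pl) {P P' : V3} (hP' : P' 2 ≠ 0) (h : ∀ k, ρ.L (P k) (P' k)) :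
    ∀ k, ρ.L (ip P k) (ip P' k) := by
  intro k
  fin_cases k
  · exact ρ.neg (Pl.div ρ (h 0) (h 2) hP')
  · exact ρ.neg (Pl.div ρ (h 1) (h 2) hP')
  · exact Pl.inv ρ (h 2) hP'

theorem L_tv (ρ : Pl) {P P' u u' : V3} (h : ∀ k, ρ.L (P k) (P' k)) (hu : ∀ k, ρ.L (u k) (u' k)) :
    ∀ k, ρ.L (tv P u k) (tv P' u' k) := by
  intro k
  fin_cases k
  · exact ρ.add (hu 0) (ρ.mul (h 0) (hu 2))
  · exact ρ.add (hu 1) (ρ.mul (h 1) (hu 2))
  · exact ρ.mul (h 2) (hu 2)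

/-- the gradient of a power of `z` times a cone -/
theorem grad_cone {u : ℕ} {β : R2} {b : V3} (hb2 : b 2 ≠ 0)
    (h : ∀ k, eval b (pderiv k (X 2 ^ u * emb β)) = 0) :
    ∀ k, eval ![b 0, b 1] (pderiv k β) = 0 := by
  have hX2 : (b 2) ^ u ≠ 0 := pow_ne_zero _ hb2
  intro k
  fin_cases k
  · have h1 := h 0
    rw [Derivation.leibniz, map_add, smul_eq_mul, smul_eq_mul, map_mul, map_mul, map_pow,
      eval_X, pderiv_pow, pderiv_X_of_ne (by decide), mul_zero, map_zero, mul_zero,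
      add_zero, Side.pderiv_emb_zero, Side.eval_emb] at h1
    exact (mul_eq_zero.mp h1).resolve_left hX2
  · have h1 := h 1
    have h3 : pderiv 1 (emb β) = emb (pderiv 1 β) := pderiv_emb_one _
    rw [Derivation.leibniz, map_add, smul_eq_mul, smul_eq_mul, map_mul, map_mul, map_pow,
      eval_X, pderiv_pow, pderiv_X_of_ne (by decide), mul_zero, map_zero, mul_zero,
      add_zero, h3, Side.eval_emb] at h1
    exact (mul_eq_zero.mp h1).resolve_left hX2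

/-- no singular point near a point of collision -/
theorem no_sing_near (ρ : Pl) {τ : ℂ} (hτ0 : τ ≠ 0) (hτ : ρ.L τ 0) {d μ₀ : ℕ} (hμd : μ₀ ≤ d)
    (hμ : 1 ≤ μ₀) {P P' : V3} (hP : P 2 ≠ 0) (hP' : P' 2 ≠ 0) (hPP : ∀ k, ρ.L (P k) (P' k))
    {s₀ : ℕ} {ζ ζ' : Fin s₀ → V3} (hζ : ∀ j k, ρ.L (ζ j k) (ζ' j k)) (hζ2 : ∀ j, ζ' j 2 ≠ 0)
    {v : Fin s₀ → ℕ} (hv : ∀ j, v j ≤ μ₀) {F G : R3} {c : ℂ} (hF : F.IsHomogeneous d)
    (hvan : ∀ j, VanishTo F (tv P (scv τ (ζ j))) (v j)) (hG : G ∈ linSys μ₀ ζ' v)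
    (hlim : ρ.LP (C (c * τ ^ (d - μ₀)) * scz τ⁻¹ (tr P F)) (X 2 ^ (d - μ₀) * G))
    (hlimT : ∃ T, ρ.LP (C c * F) T) (hnd : NoDouble (res G)) (hnb : ¬ Bad μ₀ ζ' v G)
    {q b : V3} (hq : ∀ k, ρ.L (q k) (b k)) (hb : b ≠ 0) (hcr : cr P' b = 0)
    (hqζ : ∀ j, cr (tv P (scv τ (ζ j))) q ≠ 0) (hgrad : ∀ k, eval q (pderiv k F) = 0) : False := by
  have hP'0 : P' ≠ 0 := fun h => hP' (by rw [h]; rfl)
  obtain ⟨t, ht⟩ := exists_smul_of_cr_eq_zero hP'0 hcr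
  have ht0 : t ≠ 0 := by
    rintro rfl
    exact hb (by rw [ht, zero_smul])
  obtain ⟨a, haq⟩ : ∃ a, a = tv (ip P) q := ⟨_, rfl⟩
  have hqa : tv P a = q := by rw [haq, tv_ip hP]
  have ha : ∀ k, ρ.L (a k) ((![0, 0, t] : V3) k) := by
    have h1 := L_tv ρ (L_ip ρ hP' hPP) hq
    have h2 : tv (ip P') b = ![0, 0, t] := by
      have h3 : tv (ip P') P' = ![0, 0, 1] := by
        have h4 := ip_tv hP' ![0, 0, 1]
        rwa [tv_single_two] at h4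
      rw [ht, tv_smul, h3]
      ext i
      fin_cases i <;> simp
    rw [h2, ← haq] at h1
    exact h1
  set H : R3 := scz τ⁻¹ (tr P F) with hH
  have hHh : H.IsHomogeneous d := scz_hom _ (tr_hom hF P)
  have hsH : scz τ H = tr P F := scz_scz_inv hτ0 _
  have hgT : ∀ k, eval a (pderiv k (tr P F)) = 0 := by
    rw [sing_tr hP, hqa]
    exact hgrad
  have hgH : ∀ k, eval (scv τ⁻¹ a) (pderiv k H) = 0 := sing_scz (inv_ne_zero hτ0) hgT
  have hw0 : (![a 0 / τ, a 1 / τ, 1] : Fin 3 → ℂ) ≠ 0 := fun h => one_ne_zero (congrFun h 2)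
  obtain ⟨e, he, w, hwne, hLw⟩ := ρ.exists_scale_vec _ hw0
  have hL0 : ρ.L (e * (a 0 / τ)) (w 0) := hLw 0
  have hL1 : ρ.L (e * (a 1 / τ)) (w 1) := hLw 1
  have hL2 : ρ.L e (w 2) := by
    have h1 := hLw 2
    change ρ.L (e * 1) (w 2) at h1
    rwa [mul_one] at h1
  have hHv : ∀ j, VanishTo H (ζ j) (v j) := by
    intro j
    have h1 := vanishTo_scz (inv_ne_zero hτ0) (tr_hom hF P) ((vanishTo_tr hP).mpr (hvan j))
    rwa [scv_inv_scv hτ0] at h1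
  have heτ : e / τ ≠ 0 := div_ne_zero he hτ0
  have hcg : ∀ j, cr (ζ j) ((e / τ) • scv τ⁻¹ a) ≠ 0 := by
    intro j
    rw [cr_smul_right]
    refine smul_ne_zero heτ ?_
    have h1 : cr (scv τ (ζ j)) a ≠ 0 := by
      intro h
      apply hqζ j
      rw [← hqa]
      exact (cr_tv hP).mpr h
    have h2 := cr_scv (inv_ne_zero hτ0) h1
    rwa [scv_inv_scv hτ0] at h2
  have hgg : ∀ k, eval ((e / τ) • scv τ⁻¹ a) (pderiv k H) = 0 := by
    intro k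
    rw [eval_smul_of_hom hHh.pderiv, hgH k, mul_zero]
  have hg0 : ((e / τ) • scv τ⁻¹ a) 0 = e * (a 0 / τ) := by
    change e / τ * a 0 = _
    ring
  have hg1 : ((e / τ) • scv τ⁻¹ a) 1 = e * (a 1 / τ) := by
    change e / τ * a 1 = _
    ring
  have hg2 : ((e / τ) • scv τ⁻¹ a) 2 = e * a 2 := by
    change e / τ * (a 2 / τ⁻¹) = _
    field_simp
  have hdd : μ₀ + (d - μ₀) = d := by omega
  by_cases hw2 : w 2 = 0
  · -- the neck
    rw [hw2] at hL2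
    have hy0 : (![w 0, w 1] : V2) ≠ 0 := by
      intro h
      apply hwne
      ext i
      fin_cases i
      · exact congrFun h 0
      · exact congrFun h 1
      · exact hw2
    have hτe : ρ.L (τ / e) 0 := by
      have key : ∀ x y : ℂ, ρ.L x 0 → ρ.L (e * (x / τ)) y → y ≠ 0 → ρ.L (τ / e) 0 := by
        intro x y hx hxy hy
        have hx0 : x ≠ 0 := by
          rintro rfl
          rw [zero_div, mul_zero] at hxy
          exact hy (ρ.fn hxy (Pl.zero ρ))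
        have h1 := Pl.div ρ hx hxy hy
        rw [zero_div] at h1
        have h2 : x / (e * (x / τ)) = τ / e := by field_simp
        rwa [h2] at h1
      by_cases h0 : w 0 = 0
      · have h1 : w 1 ≠ 0 := by
          intro h1
          apply hy0
          ext i
          fin_cases i
          · exact h0
          · exact h1
        exact key _ _ (ha 1) hL1 h1
      · exact key _ _ (ha 0) hL0 h0
    obtain ⟨T, hT⟩ := hlimT
    have hT' : ρ.LP (C (c * τ ^ (d - μ₀) / τ ^ (d - μ₀)) * scz τ H) (tr P' T) := by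
      have h1 := LP_tr ρ hPP hT
      rw [map_mul, tr_C] at h1
      rwa [hsH, mul_div_assoc, div_self (pow_ne_zero _ hτ0), mul_one]
    have hneck := neck ρ hτ0 hlim hT' he hL2 hτe (N := X 2 ^ (d - μ₀) * emb (res G))
      (fun α => coeff_top (d - μ₀) G α)
    have hs := sing_C_mul (sing_scz he hgg) (c * τ ^ (d - μ₀) / e ^ (d - μ₀))
    have hspec : ∀ k, ρ.L (scv e ((e / τ) • scv τ⁻¹ a) k) ((![w 0, w 1, t] : V3) k) := by
      intro k
      fin_cases k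
      · change ρ.L (((e / τ) • scv τ⁻¹ a) 0) (w 0)
        rw [hg0]
        exact hL0
      · change ρ.L (((e / τ) • scv τ⁻¹ a) 1) (w 1)
        rw [hg1]
        exact hL1
      · change ρ.L (((e / τ) • scv τ⁻¹ a) 2 / e) t
        rw [hg2, mul_div_cancel_left₀ _ he]
        exact ha 2
    have hz2 : ∀ k, eval ![w 0, w 1, t] (pderiv k (X 2 ^ (d - μ₀) * emb (res G))) = 0 := by
      intro k
      have h1 := (hneck.pderiv k).eval hspec
      rw [hs k] at h1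
      exact ρ.fn h1 (Pl.zero ρ)
    obtain ⟨k, hk⟩ := hnd _ hy0
    exact hk (grad_cone (b := ![w 0, w 1, t]) ht0 hz2 k)
  · -- the cluster
    have hspec : ∀ k, ρ.L (((e / τ) • scv τ⁻¹ a) k) ((![w 0, w 1, w 2 * t] : V3) k) := by
      intro k
      fin_cases k
      · change ρ.L (((e / τ) • scv τ⁻¹ a) 0) (w 0)
        rw [hg0]
        exact hL0
      · change ρ.L (((e / τ) • scv τ⁻¹ a) 1) (w 1)
        rw [hg1]
        exact hL1
      · change ρ.L (((e / τ) • scv τ⁻¹ a) 2) (w 2 * t)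
        rw [hg2]
        exact ρ.mul hL2 (ha 2)
    have hb2 : (![w 0, w 1, w 2 * t] : V3) 2 ≠ 0 := mul_ne_zero hw2 ht0
    have hb0 : (![w 0, w 1, w 2 * t] : V3) ≠ 0 := fun h => hb2 (by rw [h]; rfl)
    have hs := sing_C_mul hgg (c * τ ^ (d - μ₀))
    by_cases hj : ∃ j, cr (ζ' j) ![w 0, w 1, w 2 * t] = 0
    · obtain ⟨j, hj⟩ := hj
      have hζ0 : ζ' j ≠ 0 := fun h => hζ2 j (by rw [h]; rfl)
      obtain ⟨u, hu, hbu⟩ := sing_spec ρ (hHh.C_mul _) (by omega) (m := v j)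
        ((hv j).trans hμd) hlim (hζ j) hspec hζ0 hb0 (vanishTo_C_mul (hHv j) _) (hcg j) hj hs
      rw [← hdd] at hbu
      rw [Nat.add_sub_cancel_left] at hbu
      exact hnb (Or.inr ⟨j, u, hu, badDir_of_z_pow (hv j) hG.1 (hζ2 j) (hG.2 j) hbu⟩)
    · push Not at hj
      have hz2 : ∀ k, eval ![w 0, w 1, w 2 * t] (pderiv k (X 2 ^ (d - μ₀) * G)) = 0 := by
        intro k
        have h1 := (hlim.pderiv k).eval hspec
        rw [hs k] at h1
        exact ρ.fn h1 (Pl.zero ρ)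
      exact hnb (Or.inl ⟨_, hb0, hj, sing_of_z_pow hG.1 hb2 hz2 (by omega)⟩)

/-- no bad direction at the points of a cluster -/
theorem no_tang_near (ρ : Pl) {τ : ℂ} (hτ0 : τ ≠ 0) {d μ₀ : ℕ} (hμd : μ₀ ≤ d)
    {P : V3} (hP : P 2 ≠ 0)
    {s₀ : ℕ} {ζ ζ' : Fin s₀ → V3} (hζ : ∀ j k, ρ.L (ζ j k) (ζ' j k)) (hζ2 : ∀ j, ζ' j 2 ≠ 0)
    {v : Fin s₀ → ℕ} (hv : ∀ j, v j ≤ μ₀) {F G : R3} {c : ℂ} (hF : F.IsHomogeneous d)
    (hvan : ∀ j, VanishTo F (tv P (scv τ (ζ j))) (v j)) (hG : G ∈ linSys μ₀ ζ' v)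
    (hlim : ρ.LP (C (c * τ ^ (d - μ₀)) * scz τ⁻¹ (tr P F)) (X 2 ^ (d - μ₀) * G))
    (hnb : ¬ Bad μ₀ ζ' v G) {j : Fin s₀} {u : V3} (hu : cr (tv P (scv τ (ζ j))) u ≠ 0)
    (hbad : BadDir d F (tv P (scv τ (ζ j))) (v j) u) : False := by
  obtain ⟨a, ha⟩ := exists_tv hP u
  subst ha
  have hHh : (scz τ⁻¹ (tr P F)).IsHomogeneous d := scz_hom _ (tr_hom hF P)
  have h1 : BadDir d (tr P F) (scv τ (ζ j)) (v j) a := (badDir_tr hP).mpr hbad
  have h2 := badDir_scz (inv_ne_zero hτ0) h1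
  rw [scv_inv_scv hτ0] at h2
  have h3 : cr (scv τ (ζ j)) a ≠ 0 := fun h => hu ((cr_tv hP).mpr h)
  have h4 := cr_scv (inv_ne_zero hτ0) h3
  rw [scv_inv_scv hτ0] at h4
  have h5 : VanishTo (scz τ⁻¹ (tr P F)) (ζ j) (v j) := by
    have h1 := vanishTo_scz (inv_ne_zero hτ0) (tr_hom hF P) ((vanishTo_tr hP).mpr (hvan j))
    rwa [scv_inv_scv hτ0] at h1
  have hζ0 : ζ' j ≠ 0 := fun h => hζ2 j (by rw [h]; rfl)
  obtain ⟨w, hw, hbw⟩ := tang_spec ρ (hHh.C_mul _) ((hv j).trans hμd) hlim (hζ j) hζ0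
    (vanishTo_C_mul h5 _) h4 (badDir_C_mul h2 _)
  have hdd : μ₀ + (d - μ₀) = d := by omega
  rw [← hdd, Nat.add_sub_cancel_left] at hbw
  exact hnb (Or.inr ⟨j, w, hw, badDir_of_z_pow (hv j) hG.1 (hζ2 j) (hG.2 j) hbw⟩)

/-- **The collision theorem**, in terms of the limits -/
theorem collision_not_bad {ι Λ : Type} (ρ : Pl) {τ : ℂ} (hτ0 : τ ≠ 0) (hτ : ρ.L τ 0) {d : ℕ}
    {m : ι → ℕ} {μ s : Λ → ℕ} {v : ∀ l, Fin (s l) → ℕ} (hd : 1 ≤ d) (hm : ∀ i, m i ≤ d)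
    (hμ : ∀ l, 1 ≤ μ l) (hμd : ∀ l, μ l ≤ d) (hv : ∀ l j, v l j ≤ μ l)
    {p : ι ⊕ (Σ l, Fin (s l)) → V3} {p' : ι → V3} {P P' : Λ → V3} {ζ ζ' : (Σ l, Fin (s l)) → V3}
    (hP : ∀ l, P l 2 ≠ 0) (hP' : ∀ l, P' l 2 ≠ 0) (hp'0 : ∀ i, p' i ≠ 0) (hζ2 : ∀ x, ζ' x 2 ≠ 0)
    (hpp : ∀ i k, ρ.L (p (Sum.inl i) k) (p' i k)) (hPP : ∀ l k, ρ.L (P l k) (P' l k))
    (hζζ : ∀ x k, ρ.L (ζ x k) (ζ' x k))
    (hpx : ∀ x, p (Sum.inr x) = tv (P x.1) (scv τ (ζ x)))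
    (hlow : ∀ l, linSys (μ l - 1) (fun j => ζ' ⟨l, j⟩) (v l) = ⊥)
    (hgood : ∀ F₀ ∈ linSys d (Sum.elim p' P') (Sum.elim m μ), F₀ ≠ 0 → ∀ G : Λ → R3,
      (∀ l, G l ∈ linSys (μ l) (fun j => ζ' ⟨l, j⟩) (v l)) →
      (∀ l, res (G l) = ld d (μ l) (P' l) F₀) →
      ¬ Sing (Sum.elim p' P') F₀ ∧ ¬ Tang d p' m F₀ ∧ ∀ l, ld d (μ l) (P' l) F₀ ≠ 0 ∧
        NoDouble (ld d (μ l) (P' l) F₀) ∧ ¬ Bad (μ l) (fun j => ζ' ⟨l, j⟩) (v l) (G l))
    {F : R3} (hF : F ∈ linSys d p (Sum.elim m (fun x => v x.1 x.2))) (hF0 : F ≠ 0) :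
    ¬ Bad d p (Sum.elim m (fun x => v x.1 x.2)) F := by
  obtain ⟨c, hc, F₀, hF₀0, hlim⟩ := Pl.exists_scale_poly ρ hF0
  have hvan : ∀ l j, VanishTo F (tv (P l) (scv τ (ζ ⟨l, j⟩))) (v l j) := by
    intro l j
    have h1 := hF.2 (Sum.inr ⟨l, j⟩)
    rwa [hpx] at h1
  have key := fun l => one_limit ρ hτ0 hτ (hμd l) (hμ l) (hP l) (hP' l) (hPP l)
    (ζ := fun j => ζ ⟨l, j⟩) (ζ' := fun j => ζ' ⟨l, j⟩) (fun j => hζζ ⟨l, j⟩)
    (fun j => hζ2 ⟨l, j⟩) (hlow l) hF.1 hF0 hlim (hvan l)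
  choose hvP G hG hres hlimG using key
  have hF₀ : F₀ ∈ linSys d (Sum.elim p' P') (Sum.elim m μ) := by
    refine ⟨hlim.homogeneous (hF.1.C_mul c), ?_⟩
    rintro (i | l)
    · exact hlim.vanishTo (hF.1.C_mul c) (hpp i) (vanishTo_C_mul (hF.2 (Sum.inl i)) c)
    · exact hvP l
  obtain ⟨hns, hnt, hnl⟩ := hgood F₀ hF₀ hF₀0 G hG hres
  have hlimG' := fun l => hlimG l (hnl l).1
  have hnd : ∀ l, NoDouble (res (G l)) := fun l => by
    rw [hres l]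
    exact (hnl l).2.1
  rintro (⟨q, hq0, hqp, hgrad⟩ | ⟨i, u, hu, hbad⟩)
  · obtain ⟨e, he, b, hb0, hqb⟩ := ρ.exists_scale_vec q hq0
    obtain ⟨q', hq'⟩ : ∃ q' : V3, q' = e • q := ⟨_, rfl⟩
    have hgrad' : ∀ k, eval q' (pderiv k F) = 0 := by
      intro k
      rw [hq', eval_smul_of_hom hF.1.pderiv, hgrad k, mul_zero]
    have hqp' : ∀ i, cr (p i) q' ≠ 0 := by
      intro i
      rw [hq', cr_smul_right]
      exact smul_ne_zero he (hqp i)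
    have hqb' : ∀ k, ρ.L (q' k) (b k) := by
      intro k
      rw [hq']
      exact hqb k
    by_cases hl : ∃ l, cr (P' l) b = 0
    · obtain ⟨l, hl⟩ := hl
      refine no_sing_near ρ hτ0 hτ (hμd l) (hμ l) (hP l) (hP' l) (hPP l)
        (ζ := fun j => ζ ⟨l, j⟩) (ζ' := fun j => ζ' ⟨l, j⟩) (fun j => hζζ ⟨l, j⟩)
        (fun j => hζ2 ⟨l, j⟩) (hv l) hF.1 (hvan l) (hG l) (hlimG' l) ⟨_, hlim⟩ (hnd l)
        (hnl l).2.2 hqb' hb0 hl (fun j => ?_) hgrad'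
      have h1 := hqp' (Sum.inr ⟨l, j⟩)
      rwa [hpx] at h1
    · push Not at hl
      by_cases hi : ∃ i, cr (p' i) b = 0
      · obtain ⟨i, hi⟩ := hi
        obtain ⟨w, hw, hbw⟩ := sing_spec ρ (hF.1.C_mul c) hd (hm i) hlim (hpp i) hqb' (hp'0 i)
          hb0 (vanishTo_C_mul (hF.2 (Sum.inl i)) c) (hqp' (Sum.inl i)) hi (sing_C_mul hgrad' c)
        exact hnt ⟨i, w, hw, hbw⟩
      · push Not at hi
        refine hns ⟨b, hb0, ?_, ?_⟩
        · rintro (i | l)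
          · exact hi i
          · exact hl l
        · intro k
          have h1 := (hlim.pderiv k).eval hqb'
          rw [sing_C_mul hgrad' c k] at h1
          exact ρ.fn h1 (Pl.zero ρ)
  · rcases i with i | ⟨l, j⟩
    · obtain ⟨w, hw, hbw⟩ := tang_spec ρ (hF.1.C_mul c) (hm i) hlim (hpp i) (hp'0 i)
        (vanishTo_C_mul (hF.2 (Sum.inl i)) c) hu (badDir_C_mul hbad c)
      exact hnt ⟨i, w, hw, hbw⟩
    · rw [hpx] at hu hbad
      exact no_tang_near ρ hτ0 (hμd l) (hP l) (ζ := fun j => ζ ⟨l, j⟩)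
        (ζ' := fun j => ζ' ⟨l, j⟩) (fun j => hζζ ⟨l, j⟩) (fun j => hζ2 ⟨l, j⟩) (hv l) hF.1
        (hvan l) (hG l) (hlimG' l) (hnl l).2.2 (j := j) hu hbad

/-- a system with too many conditions is empty -/
theorem linSys_eq_bot {M d : ℕ} (hN : NSp M d) {ι : Type} [Fintype ι] {p : ι → V3}
    (hp : GenericPoints p) {m : ι → ℕ} (hm : ∀ i, m i ≤ M)
    (h : (d + 2).choose 2 ≤ ∑ i, (m i + 1).choose 2) : linSys d p m = ⊥ := by
  have hfin : Module.Finite ℂ (linSys d p m) :=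
    Submodule.finiteDimensional_of_le (linSys_le _ _ _)
  apply Submodule.finrank_eq_zero.mp
  rw [hN.finrank hp hm]
  omega

end Pool.Agent.Work.MP_0421d9_ag.ZC
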