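import Pool.Agent.Work.MP_0421d9_ag.ZCHx
import Pool.Agent.Work.MP_0421d9_ag.ZCBpf
import Pool.Agent.Work.MP_0421d9_ag.ZCTau

/-!
Collisions of generic points: one cluster, the other ones are flags.
-/

set_option linter.unusedSectionVars false
set_option linter.unusedVariables false

namespace Pool.Agent.Work.MP_0421d9_ag.ZC

open MvPolynomial Module SM

/-- pairs of a form and an image of a form of the cluster with the same leading form -/
noncomputable def BBh {Λ : Type} {n : ℕ} (d μ₀ : ℕ) (P : Λ → V3) (μ : Λ → ℕ) (P₀ : V3)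
    (W : Submodule ℂ R3) (L : R3 →ₗ[ℂ] MvPolynomial (Fin n) ℂ) :
    Submodule ℂ (R3 × MvPolynomial (Fin n) ℂ) where
  carrier := {H | H.1 ∈ linSys d P μ ∧ ∃ Θ ∈ W, res Θ = ld d μ₀ P₀ H.1 ∧ H.2 = L Θ}
  zero_mem' := ⟨zero_mem _, 0, zero_mem _, by rw [map_zero, Prod.fst_zero, map_zero], by
    rw [map_zero]; rfl⟩
  add_mem' := by
    rintro x y ⟨hx, Θ, hΘ, h1, h2⟩ ⟨hy, Θ', hΘ', h1', h2'⟩
    exact ⟨add_mem hx hy, Θ + Θ', add_mem hΘ hΘ', by
      rw [map_add, h1, h1', Prod.fst_add, map_add], by rw [Prod.snd_add, h2, h2', map_add]⟩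
  smul_mem' := by
    rintro a x ⟨hx, Θ, hΘ, h1, h2⟩
    exact ⟨Submodule.smul_mem _ _ hx, a • Θ, Submodule.smul_mem _ _ hΘ, by
      rw [map_smul, h1, Prod.smul_fst, map_smul], by rw [Prod.smul_snd, h2, map_smul]⟩

theorem linSys_cD {ι : Type} {p : ι → V3} {y : ι → ℕ} {d : ℕ} {D : Derivation ℚ ℂ ℂ}
    (hD : ∀ i k, D (p i k) = 0) {H : R3} (hH : H ∈ linSys d p y) : cD D H ∈ linSys d p y :=
  ⟨cD_isHomogeneous D hH.1, fun i => vanishTo_cD_fixed D (hD i) (hH.2 i)⟩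

theorem BBh_cD {Λ : Type} {n d : ℕ} {P : Λ → V3} {μ : Λ → ℕ} {l₀ : Λ} {s₀ : ℕ}
    {ζ : Fin s₀ → V3} {v₀ : Fin s₀ → ℕ} {L : R3 →ₗ[ℂ] MvPolynomial (Fin n) ℂ}
    {D : Derivation ℚ ℂ ℂ} (hL2 : ∀ Θ, cD D (L Θ) = L (cD D Θ)) (hDP : ∀ l k, D (P l k) = 0)
    (hDζ : ∀ j k, D (ζ j k) = 0) {H : R3 × MvPolynomial (Fin n) ℂ}
    (hH : H ∈ BBh d (μ l₀) P μ (P l₀) (linSys (μ l₀) ζ v₀) L) :
    ps D H ∈ BBh d (μ l₀) P μ (P l₀) (linSys (μ l₀) ζ v₀) L := by
  obtain ⟨h1, Θ, hΘ, h2, h3⟩ := hH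
  refine ⟨linSys_cD hDP h1, cD D Θ, linSys_cD hDζ hΘ, ?_, ?_⟩
  · change res (cD D Θ) = ld d (μ l₀) (P l₀) (cD D H.1)
    rw [← cD_res, h2, cD_ld D (hDP l₀)]
  · change cD D H.2 = _
    rw [h3, hL2]

section levels

variable {ι Λ : Type} [Fintype ι] [Fintype Λ] [DecidableEq ι] [DecidableEq Λ] {d M : ℕ}
  {m : ι → ℕ} {μ w s Mv : Λ → ℕ} {v : ∀ l, Fin (s l) → ℕ}

theorem finrank_VV_hyb {n d μ₀ : ℕ} {P₀ : V3} {A : Submodule ℂ R3} (hA : A ≤ Rd d)
    (hμd : μ₀ ≤ d) {W : Submodule ℂ R3} (hW : W ≤ Rd μ₀) (hWinj : ∀ Θ ∈ W, res Θ = 0 → Θ = 0)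
    (L : R3 →ₗ[ℂ] MvPolynomial (Fin n) ℂ) {V : Submodule ℂ (R3 × MvPolynomial (Fin n) ℂ)}
    (hV : ∀ H, H ∈ V ↔ H.1 ∈ A ∧ ∃ Θ ∈ W, res Θ = ld d μ₀ P₀ H.1 ∧ H.2 = L Θ) :
    finrank ℂ A + finrank ℂ W ≤ finrank ℂ V + (μ₀ + 1) := by
  have hfA : Module.Finite ℂ A := Submodule.finiteDimensional_of_le hA
  have hfW : Module.Finite ℂ W := Submodule.finiteDimensional_of_le hW
  let Φ : (A × W) →ₗ[ℂ] (Fin (μ₀ + 1) → ℂ) :=
    LinearMap.pi (fun k => (lcoeff ℂ (e2 k (μ₀ - k))).comp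
      (res.toLinearMap.comp (W.subtype.comp (LinearMap.snd ℂ A W)) -
        (ld d μ₀ P₀).comp (A.subtype.comp (LinearMap.fst ℂ A W))))
  have hΦ : ∀ x, Φ x = 0 ↔ res (x.2 : R3) = ld d μ₀ P₀ (x.1 : R3) := by
    intro x
    have hh : (res (x.2 : R3) - ld d μ₀ P₀ (x.1 : R3)).IsHomogeneous μ₀ :=
      (res_hom (hW x.2.2)).sub (ld_hom (hA x.1.2) hμd _)
    have e1 : ∀ k, Φ x k = coeff (e2 k (μ₀ - k)) (res (x.2 : R3) - ld d μ₀ P₀ (x.1 : R3)) :=
      fun k => rfl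
    constructor
    · intro h
      rw [← sub_eq_zero]
      apply R2_ext
      intro a b
      rw [coeff_zero]
      by_contra hne
      have h1 : (e2 a b).degree = μ₀ := by
        by_contra hc
        exact hne (hh.coeff_eq_zero hc)
      rw [Finsupp.degree_eq_sum, Fin.sum_univ_two] at h1
      have h2 : a + b = μ₀ := h1
      have h3 := congrFun h ⟨a, by omega⟩
      rw [e1] at h3
      have h4 : μ₀ - a = b := by omega
      apply hne
      simp only [h4] at h3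
      exact h3
    · intro h
      funext k
      rw [e1, h, sub_self, coeff_zero]
      rfl
  let T : (A × W) →ₗ[ℂ] (R3 × MvPolynomial (Fin n) ℂ) :=
    (A.subtype.comp (LinearMap.fst ℂ A W)).prod (L.comp (W.subtype.comp (LinearMap.snd ℂ A W)))
  have hT : ∀ x, T x = ((x.1 : R3), L (x.2 : R3)) := fun x => rfl
  have hVT : V = LinearMap.range (T.domRestrict (LinearMap.ker Φ)) := by
    ext H
    rw [hV, LinearMap.mem_range]
    constructor
    · rintro ⟨h1, Θ, hΘ, h2, h3⟩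
      refine ⟨⟨(⟨H.1, h1⟩, ⟨Θ, hΘ⟩), ?_⟩, ?_⟩
      · rw [LinearMap.mem_ker, hΦ]
        exact h2
      · rw [LinearMap.domRestrict_apply, hT, ← h3]
    · rintro ⟨⟨x, hx⟩, rfl⟩
      rw [LinearMap.mem_ker, hΦ] at hx
      rw [LinearMap.domRestrict_apply, hT]
      exact ⟨x.1.2, x.2, x.2.2, hx, rfl⟩
  have hinj : Function.Injective (T.domRestrict (LinearMap.ker Φ)) := by
    refine (injective_iff_map_eq_zero _).mpr ?_
    rintro ⟨x, hx⟩ h
    rw [LinearMap.mem_ker, hΦ] at hx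
    rw [LinearMap.domRestrict_apply, hT, Prod.mk_eq_zero] at h
    have h1 : x.1 = 0 := Subtype.ext h.1
    rw [h1] at hx
    rw [Submodule.coe_zero, map_zero] at hx
    have h2 : x.2 = 0 := Subtype.ext (hWinj _ x.2.2 hx)
    apply Subtype.ext
    exact Prod.ext h1 h2
  rw [hVT, LinearMap.finrank_range_of_inj hinj]
  have h1 := LinearMap.finrank_range_add_finrank_ker Φ
  have h2 := Submodule.finrank_le (LinearMap.range Φ)
  rw [Module.finrank_fintype_fun_eq_card, Fintype.card_fin] at h2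
  rw [Module.finrank_prod] at h1
  omega

/-- **The chain theorem with one cluster.** -/
theorem Dat.hyb_core (S : Dat d M m μ w s Mv v) {p : ι → V3} {P : Λ → V3} {c : Λ → ℂ} {l₀ : Λ}
    {ζ : Fin (s l₀) → V3} (hX : Ind (Sum.elim (Sum.elim p P) ζ) c) {F G : R3}
    (hF : F ∈ FS d p m P μ c (Function.update w l₀ 0)) (hF0 : F ≠ 0)
    (hG : G ∈ linSys (μ l₀) ζ (v l₀)) (hres : res G = ld d (μ l₀) (P l₀) F) {n N : ℕ}
    (hn : n ≤ 3) (L : R3 →ₗ[ℂ] MvPolynomial (Fin n) ℂ)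
    (hL1 : ∀ Θ ∈ linSys (μ l₀) ζ (v l₀), (L Θ).IsHomogeneous N)
    (hL2 : ∀ D : Derivation ℚ ℂ ℂ, (∀ j k, D (ζ j k) = 0) → ∀ Θ, cD D (L Θ) = L (cD D Θ))
    {q : Fin n → ℂ} (hq : q ≠ 0) (hL3 : ∃ Θ ∈ linSys (μ l₀) ζ (v l₀), eval q (L Θ) ≠ 0)
    (h0 : eval q (L G) = 0) (h1 : ∀ k, eval q (pderiv k (L G)) = 0) : False := by
  classical
  obtain ⟨E, D, hED, hEζ, hDζ⟩ := exists_ders hX
  have hgX : GenericPoints (Sum.elim (Sum.elim p P) ζ) := Ind.generic hX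
  have hg : GenericPoints (Sum.elim p P) :=
    AlgebraicIndependent.comp hgX (fun z : (ι ⊕ Λ) × Fin 3 => (Sum.inl z.1, z.2))
      (fun z z' h => by
        simp only [Prod.mk.injEq, Sum.inl.injEq] at h
        exact Prod.ext h.1 h.2)
  have hgζ : GenericPoints ζ :=
    AlgebraicIndependent.comp hgX (fun z : Fin (s l₀) × Fin 3 => (Sum.inr z.1, z.2))
      (fun z z' h => by
        simp only [Prod.mk.injEq, Sum.inr.injEq] at h
        exact Prod.ext h.1 h.2)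
  have hζ2 : ∀ j, ζ j 2 ≠ 0 := fun j => hgζ.ne_zero (j, 2)
  have hP2 : ∀ l, P l 2 ≠ 0 := fun l => hg.ne_zero (Sum.inr l, 2)
  have hμd : ∀ l, μ l + 2 ≤ d := S.hμd
  have hlow : linSys (μ l₀ - 1) ζ (v l₀) = ⊥ := by
    have hx1 := S.hvμ l₀
    have hx2 := S.hMv l₀
    refine linSys_eq_bot (S.hNv' l₀) hgζ (fun j => ?_) ?_
    · have := S.hv l₀ j
      omega
    · have h1 := S.crit l₀
      have h3 : μ l₀ - 1 + 2 = μ l₀ + 1 := by omega
      rw [h3, h1]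
      exact Nat.le_add_right _ _
  have hWinj : ∀ Θ ∈ linSys (μ l₀) ζ (v l₀), res Θ = 0 → Θ = 0 := fun Θ hΘ h =>
    eq_zero_of_res hζ2 hlow hΘ h
  have hexact := S.hyb_exact hX hF hF0 ⟨G, hG, hres⟩
  have hzero : ∀ H ∈ linSys d P μ, VanishTo H (P l₀) (μ l₀ + 1) →
      ∃ Θ, (H, Θ) ∈ BBh d (μ l₀) P μ (P l₀) (linSys (μ l₀) ζ (v l₀)) L ∧ eval q Θ = 0 := by
    intro H hH hv
    refine ⟨0, ⟨hH, 0, zero_mem _, ?_, ?_⟩, map_zero _⟩
    · have := hμd l₀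
      rw [map_zero]
      exact (ld_of_vanish hH.1 hv (Nat.lt_succ_self _) (by omega)).symm
    · rw [map_zero]
  refine S.core hg hED ∅ {l₀} (by simp) hn (N := N)
    (BB := BBh d (μ l₀) P μ (P l₀) (linSys (μ l₀) ζ (v l₀)) L) (fun H hH => hH.1)
    (fun H hH => ?_) (fun i _ k H hH => ?_) (fun l _ H hH => ?_) (ρ := Empty) (by simp)
    (R := Empty.elim) (fun x => x.elim) hq (fun H hH h2 _ => ?_) (fun H hH h2 _ _ => ?_)
    (fun T hT _ => ?_) (F := (F, L G)) ⟨⟨hF.1.1, fun l => hF.1.2 (Sum.inr l)⟩, G, hG, hres, rfl⟩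
    (fun i _ => hF.1.2 (Sum.inl i)) (fun l hl j hj => ?_) (fun l hl => ?_)
    (fun H hH h2 h3 => ?_) ?_ h0 h1
  · obtain ⟨-, Θ, hΘ, -, h3⟩ := hH
    rw [h3]
    exact hL1 Θ hΘ
  · exact BBh_cD (hL2 _ (fun j k' => hEζ i k j k')) (fun l k' => hED.EP i k l k')
      (fun j k' => hEζ i k j k') hH
  · exact BBh_cD (hL2 _ (fun j k' => hDζ l j k')) (fun l' k' => hED.DP l l' k')
      (fun j k' => hDζ l j k') hH
  · obtain ⟨Θ, h3, -⟩ := hzero H hH (h2 l₀ (Finset.mem_singleton_self _))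
    exact ⟨Θ, h3⟩
  · exact hzero H hH ((h2 l₀ (Finset.mem_singleton_self _)).mono (Nat.le_succ _))
  · obtain ⟨Θ, hΘ, hΘq⟩ := hL3
    let Q : {i // i ∈ T} ⊕ {l // l ≠ l₀} → V3 := Sum.elim (fun i => p i.1) (fun l => P l.1)
    let a : {i // i ∈ T} ⊕ {l // l ≠ l₀} → ℕ := Sum.elim (fun i => m i.1) (fun l => μ l.1)
    have hQ : ∀ x, cr (Q x) (P l₀) ≠ 0 := by
      rintro (⟨i, hi⟩ | ⟨l, hl⟩)
      · exact generic_cr_ne hg (x := Sum.inl i) (y := Sum.inr l₀) (by simp)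
      · exact generic_cr_ne hg (x := Sum.inr l) (y := Sum.inr l₀) (by simpa using hl)
    have hsum : ∑ x, a x + μ l₀ ≤ d := by
      rw [Fintype.sum_sum_type]
      have h3 : ∑ x : {l : Λ // l ≠ l₀}, (μ x.1 + 2) + (μ l₀ + 2) = ∑ l, (μ l + 2) := by
        rw [← Finset.add_sum_erase Finset.univ (fun l => μ l + 2) (Finset.mem_univ l₀), add_comm]
        congr 1
        rw [← Finset.sum_subtype (Finset.univ.erase l₀) (p := fun l' => l' ≠ l₀)
          (fun x => by simp) (fun l => μ l + 2)]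
      have h4 : ∑ x : {l : Λ // l ≠ l₀}, μ x.1 ≤ ∑ x : {l : Λ // l ≠ l₀}, (μ x.1 + 2) :=
        Finset.sum_le_sum fun x _ => Nat.le_add_right _ _
      have h5 : ∑ x : {i : ι // i ∈ T}, m x.1 ≤ M := by
        have h6 : ∑ x : {i : ι // i ∈ T}, m x.1 ≤ ∑ x : {i : ι // i ∈ T}, M :=
          Finset.sum_le_sum fun x _ => by
            have := S.hm x.1
            omega
        rw [Finset.sum_const, Finset.card_univ, Fintype.card_coe, smul_eq_mul] at h6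
        have h7 : T.card * M ≤ 1 * M := Nat.mul_le_mul_right M hT
        omega
      have h6 := S.hd
      change ∑ x : {i : ι // i ∈ T}, m x.1 + ∑ x : {l : Λ // l ≠ l₀}, μ x.1 + μ l₀ ≤ d
      omega
    obtain ⟨H, hH, hHQ, hHP, hHl⟩ := exists_form (hP2 l₀) hQ hsum (res_hom hΘ.1)
    refine ⟨(H, L Θ), ⟨⟨hH, fun l => ?_⟩, Θ, hΘ, hHl.symm, rfl⟩, fun i hi => ?_, hΘq⟩
    · by_cases hl : l = l₀
      · rw [hl]
        exact hHP
      · exact hHQ (Sum.inr ⟨l, hl⟩)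
    · exact hHQ (Sum.inl ⟨i, hi⟩)
  · have hne : l ≠ l₀ := fun h => hl (Finset.mem_singleton.mpr h)
    exact hF.2 l j (by rwa [Function.update_of_ne hne])
  · exact hexact.1 l (fun h => hl (Finset.mem_singleton.mpr h))
  · -- uniqueness
    obtain ⟨l₁, hl₁⟩ := S.two l₀
    obtain ⟨hHP, Θ, hΘ, hΘl, hHΘ⟩ := hH
    have hy := hexact.1 l₁ hl₁
    obtain ⟨y, hyy⟩ : ∃ y, y = fd d (μ l₁) (P l₁) (c l₁) (w l₁) F := ⟨_, rfl⟩
    obtain ⟨x, hxx⟩ : ∃ x, x = fd d (μ l₁) (P l₁) (c l₁) (w l₁) H.1 := ⟨_, rfl⟩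
    rw [← hyy] at hy
    have hKFS : H.1 - (x / y) • F ∈ FS d p m P μ c (Function.update w l₀ 0) := by
      refine sub_mem ⟨⟨hHP.1, ?_⟩, fun l j hj => ?_⟩ (Submodule.smul_mem _ _ hF)
      · rintro (i | l)
        · exact h2 i (Finset.notMem_empty i)
        · exact hHP.2 l
      · by_cases hl : l = l₀
        · rw [hl, Function.update_self] at hj
          omega
        · rw [Function.update_of_ne hl] at hj
          exact h3 l (fun h => hl (Finset.mem_singleton.mp h)) j hj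
    have hKres : res (Θ - (x / y) • G) = ld d (μ l₀) (P l₀) (H.1 - (x / y) • F) := by
      rw [map_sub, map_sub, map_smul, map_smul, hΘl, hres]
    have hK0 : H.1 - (x / y) • F = 0 := by
      by_contra hne
      have h4 := (S.hyb_exact hX hKFS hne ⟨_, sub_mem hΘ (Submodule.smul_mem _ _ hG),
        hKres⟩).1 l₁ hl₁
      apply h4
      rw [map_sub, map_smul, ← hxx, ← hyy, smul_eq_mul, div_mul_cancel₀ _ hy, sub_self]
    have hΘ0 : Θ - (x / y) • G = 0 :=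
      hWinj _ (sub_mem hΘ (Submodule.smul_mem _ _ hG)) (by rw [hKres, hK0, map_zero])
    refine ⟨x / y, Prod.ext ?_ ?_⟩
    · exact sub_eq_zero.mp hK0
    · rw [hHΘ, sub_eq_zero.mp hΘ0, map_smul]
      rfl
  · -- dimension
    have hA : linSys d (Sum.elim p P) (Sum.elim m μ) ≤ Rd d := linSys_le _ _ _
    have hV : ∀ H, H ∈ VV d (fun i : {i // i ∉ (∅ : Finset ι)} => p i.1)
        (BBh d (μ l₀) P μ (P l₀) (linSys (μ l₀) ζ (v l₀)) L) (fun i => m i.1) ↔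
        H.1 ∈ linSys d (Sum.elim p P) (Sum.elim m μ) ∧ ∃ Θ ∈ linSys (μ l₀) ζ (v l₀),
          res Θ = ld d (μ l₀) (P l₀) H.1 ∧ H.2 = L Θ := by
      intro H
      rw [mem_VV]
      constructor
      · rintro ⟨⟨h2, h3⟩, h4⟩
        refine ⟨⟨h2.1, ?_⟩, h3⟩
        rintro (i | l)
        · exact h4.2 ⟨i, Finset.notMem_empty i⟩
        · exact h2.2 l
      · rintro ⟨h2, h3⟩
        exact ⟨⟨⟨h2.1, fun l => h2.2 (Sum.inr l)⟩, h3⟩, h2.1, fun i => h2.2 (Sum.inl i.1)⟩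
    have h2 := finrank_VV_hyb hA (by have := hμd l₀; omega : μ l₀ ≤ d)
      (linSys_le _ _ _) hWinj L hV
    have h3 := S.hN.finrank hg (m := Sum.elim m μ) (by
      rintro (i | l)
      · have := S.hm i
        change m i ≤ M
        omega
      · have := S.hμ l
        change μ l ≤ M
        omega)
    rw [Fintype.sum_sum_type] at h3
    have h4 := (S.hNv l₀).finrank hgζ (m := v l₀) (fun j => by
      have := S.hv l₀ j
      omega)
    rw [S.crit l₀] at h4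
    have h5 := S.hχ
    have h6 := choose_succ_two (μ l₀)
    have h7 : ∑ l ∈ Finset.univ.erase l₀, w l + w l₀ = ∑ l, w l := by
      rw [← Finset.add_sum_erase Finset.univ w (Finset.mem_univ l₀), add_comm]
    rw [← Finset.sum_subtype (Finset.univ.erase l₀) (p := fun l' => l' ∉ ({l₀} : Finset Λ))
      (fun x => by simp) w]
    have h8 := S.hw l₀
    have h9 := S.hMv l₀
    simp only [Sum.elim_inl, Sum.elim_inr] at h3
    have h2' : finrank ℂ (linSys d (Sum.elim p P) (Sum.elim m μ)) +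
        finrank ℂ (linSys (μ l₀) ζ (v l₀)) ≤ _ := h2
    rw [h3, h4] at h2'
    omega

theorem Dat.hyb_bpf (S : Dat d M m μ w s Mv v) {p : ι → V3} {P : Λ → V3} {c : Λ → ℂ} {l₀ : Λ}
    {ζ : Fin (s l₀) → V3} (hX : Ind (Sum.elim (Sum.elim p P) ζ) c) :
    GenericPoints ζ ∧ (∀ j, ζ j 2 ≠ 0) ∧ ∀ {q : V3}, q ≠ 0 → (∀ j, cr (ζ j) q ≠ 0) →
      ∃ Θ ∈ linSys (μ l₀) ζ (v l₀), eval q Θ ≠ 0 := by
  have hgζ : GenericPoints ζ :=
    AlgebraicIndependent.comp (Ind.generic hX)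
      (fun z : Fin (s l₀) × Fin 3 => (Sum.inr z.1, z.2))
      (fun z z' h => by
        simp only [Prod.mk.injEq, Sum.inr.injEq] at h
        exact Prod.ext h.1 h.2)
  refine ⟨hgζ, fun j => hgζ.ne_zero (j, 2), fun {q} hq hqζ => ?_⟩
  refine bpf_point (S.hNv l₀) hgζ (S.hv l₀) (S.hvμ l₀) ?_ hq hqζ
  have h1 := S.crit l₀
  have h2 := S.hw l₀
  have h3 := choose_succ_two (μ l₀)
  omega

theorem Dat.hyb_neck (S : Dat d M m μ w s Mv v) {p : ι → V3} {P : Λ → V3} {c : Λ → ℂ} {l₀ : Λ}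
    {ζ : Fin (s l₀) → V3} (hX : Ind (Sum.elim (Sum.elim p P) ζ) c) {F G : R3}
    (hF : F ∈ FS d p m P μ c (Function.update w l₀ 0)) (hF0 : F ≠ 0)
    (hG : G ∈ linSys (μ l₀) ζ (v l₀)) (hres : res G = ld d (μ l₀) (P l₀) F) :
    NoDouble (res G) := by
  intro y hy
  by_contra hcon
  push Not at hcon
  obtain ⟨hgζ, hζ2, hbpf⟩ := S.hyb_bpf hX
  refine S.hyb_core hX hF hF0 hG hres (n := 2) (N := μ l₀) (by norm_num) res.toLinearMap
    (fun Θ hΘ => res_hom hΘ.1) (fun D _ Θ => cD_res D Θ) (q := y) hy ?_ ?_ hcon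
  · have hq : (![y 0, y 1, 0] : V3) ≠ 0 := by
      intro h
      apply hy
      ext i
      fin_cases i
      · exact congrFun h 0
      · exact congrFun h 1
    obtain ⟨Θ, hΘ, hΘq⟩ := hbpf hq (fun j h => by
      apply hq
      have e0 := congrFun h 0
      have e1 := congrFun h 1
      simp only [cr, Matrix.cons_val_zero, Matrix.cons_val_one, Pi.zero_apply, Matrix.cons_val,
        mul_zero, zero_sub, sub_zero, neg_eq_zero, mul_eq_zero, hζ2 j, false_or] at e0 e1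
      rw [e0, e1]
      ext i
      fin_cases i <;> rfl)
    exact ⟨Θ, hΘ, by
      change eval y (res Θ) ≠ 0
      rwa [eval_res]⟩
  · have h1 := congrArg (eval y) (res_hom hG.1).sum_X_mul_pderiv
    rw [map_sum, Finset.sum_eq_zero (fun k _ => by rw [map_mul, hcon k, mul_zero]), map_nsmul,
      nsmul_eq_mul] at h1
    have h3 : ((μ l₀ : ℕ) : ℂ) ≠ 0 := by
      rw [Nat.cast_ne_zero]
      have := S.hvμ l₀
      have := S.hMv l₀
      omega
    exact (mul_eq_zero.mp h1.symm).resolve_left h3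

theorem Dat.hyb_not_bad (S : Dat d M m μ w s Mv v) {p : ι → V3} {P : Λ → V3} {c : Λ → ℂ} {l₀ : Λ}
    {ζ : Fin (s l₀) → V3} (hX : Ind (Sum.elim (Sum.elim p P) ζ) c) {F G : R3}
    (hF : F ∈ FS d p m P μ c (Function.update w l₀ 0)) (hF0 : F ≠ 0)
    (hG : G ∈ linSys (μ l₀) ζ (v l₀)) (hres : res G = ld d (μ l₀) (P l₀) F) :
    ¬ Bad (μ l₀) ζ (v l₀) G := by
  obtain ⟨hgζ, hζ2, hbpf⟩ := S.hyb_bpf hX
  have hvμ := S.hvμ l₀
  have hMv := S.hMv l₀
  rintro (⟨q, hq0, hqp, hgrad⟩ | ⟨j, u, hu, hbad⟩)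
  · refine S.hyb_core hX hF hF0 hG hres (n := 3) (N := μ l₀) le_rfl LinearMap.id
      (fun Θ hΘ => hΘ.1) (fun D _ Θ => rfl) (q := q) hq0 ?_ ?_ hgrad
    · exact hbpf hq0 hqp
    · have h1 := congrArg (eval q) hG.1.sum_X_mul_pderiv
      rw [map_sum, Finset.sum_eq_zero (fun k _ => by rw [map_mul, hgrad k, mul_zero]), map_nsmul,
        nsmul_eq_mul] at h1
      have h3 : ((μ l₀ : ℕ) : ℂ) ≠ 0 := by
        rw [Nat.cast_ne_zero]
        omega
      exact (mul_eq_zero.mp h1.symm).resolve_left h3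
  · have hvj := S.hv l₀ j
    have hvd : v l₀ j ≤ μ l₀ := by omega
    have hq : pr (ζ j) u ≠ 0 := fun h => hu ((pr_eq_zero (hζ2 j)).mp h)
    have hb := (badDir_iff hG.1 (hζ2 j) hvd (hG.2 j)).mp hbad
    refine S.hyb_core hX hF hF0 hG hres (n := 2) (N := v l₀ j) (by norm_num)
      (ld (μ l₀) (v l₀ j) (ζ j)) (fun Θ hΘ => ld_hom hΘ.1 hvd _)
      (fun D hD Θ => cD_ld D (hD j) _ _ Θ) hq ?_ hb.1 hb.2
    obtain ⟨k, hk⟩ : ∃ k, pr (ζ j) u k ≠ 0 := by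
      by_contra hcon
      push Not at hcon
      exact hq (funext hcon)
    have hβ : (X k ^ v l₀ j : R2).IsHomogeneous (v l₀ j) := by
      have h := (isHomogeneous_X ℂ k).pow (v l₀ j)
      rwa [one_mul] at h
    obtain ⟨Θ, hΘ, hΘl⟩ := exists_of_NSp (S.hNv l₀) hgζ (y := v l₀) j
      (fun j' => by have := S.hv l₀ j'; omega) hvj hvd (by
        have h1 := S.crit l₀
        have h2 := S.hw l₀
        have h3 := choose_succ_two (μ l₀)
        omega) hβ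
    refine ⟨Θ, hΘ, ?_⟩
    rw [hΘl, map_pow, eval_X]
    exact pow_ne_zero _ hk

end levels

end Pool.Agent.Work.MP_0421d9_ag.ZC
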