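import Mathlib

/-!
Duality for the complete intersection of a plane curve `b`, monic in `Y`, and `c ∈ ℂ[X]`, in the
ring `ℂ[X][Y]`, with control of the degrees.
-/

namespace Pool.Agent.Work.MP_0421d9_ag.LD.CI

open Polynomial

/-- the total degree is at most `M` -/
def Dg (M : ℕ) (f : ℂ[X][X]) : Prop := ∀ i k, M < i + k → (f.coeff k).coeff i = 0

theorem Dg.mono {M N : ℕ} {f : ℂ[X][X]} (h : Dg M f) (hMN : M ≤ N) : Dg N f :=
  fun i k hik => h i k (lt_of_le_of_lt hMN hik)

theorem Dg.zero (M : ℕ) : Dg M (0 : ℂ[X][X]) := fun i k _ => by simp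

theorem Dg.add {M : ℕ} {f g : ℂ[X][X]} (hf : Dg M f) (hg : Dg M g) : Dg M (f + g) :=
  fun i k hik => by rw [coeff_add, coeff_add, hf i k hik, hg i k hik, add_zero]

theorem Dg.sub {M : ℕ} {f g : ℂ[X][X]} (hf : Dg M f) (hg : Dg M g) : Dg M (f - g) :=
  fun i k hik => by rw [coeff_sub, coeff_sub, hf i k hik, hg i k hik, sub_zero]

theorem Dg.sum {ι : Type*} {M : ℕ} (s : Finset ι) {f : ι → ℂ[X][X]} (hf : ∀ i ∈ s, Dg M (f i)) :
    Dg M (∑ i ∈ s, f i) := by
  classical
  induction s using Finset.induction_on with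
  | empty => simpa using Dg.zero M
  | insert a s ha ih =>
    rw [Finset.sum_insert ha]
    exact (hf a (Finset.mem_insert_self a s)).add
      (ih fun i hi => hf i (Finset.mem_insert_of_mem hi))

theorem Dg.mul {M N : ℕ} {f g : ℂ[X][X]} (hf : Dg M f) (hg : Dg N g) : Dg (M + N) (f * g) := by
  intro i k hik
  rw [coeff_mul, finsetSum_coeff]
  refine Finset.sum_eq_zero fun p hp => ?_
  have hp' := Finset.HasAntidiagonal.mem_antidiagonal.1 hp
  rw [coeff_mul]
  refine Finset.sum_eq_zero fun s hs => ?_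
  have hs' := Finset.HasAntidiagonal.mem_antidiagonal.1 hs
  by_cases h : M < s.1 + p.1
  · rw [hf _ _ h, zero_mul]
  · rw [hg s.2 p.2 (by omega), mul_zero]

theorem dg_C_mul_X_pow {M k : ℕ} {a : ℂ[X]} (h : a.natDegree + k ≤ M) :
    Dg M (C a * X ^ k : ℂ[X][X]) := by
  intro i k' hik
  rw [coeff_C_mul, coeff_X_pow]
  split_ifs with h1
  · rw [mul_one]
    exact coeff_eq_zero_of_natDegree_lt (by omega)
  · rw [mul_zero, coeff_zero]

theorem dg_one : Dg 0 (1 : ℂ[X][X]) := by
  have h := dg_C_mul_X_pow (M := 0) (k := 0) (a := 1) (by simp)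
  simpa using h

theorem Dg.pow {M : ℕ} {f : ℂ[X][X]} (hf : Dg M f) (n : ℕ) : Dg (n * M) (f ^ n) := by
  induction n with
  | zero => simpa using dg_one
  | succ n ih =>
    rw [pow_succ, Nat.succ_mul]
    exact ih.mul hf

/-- the bound for the degree of a coefficient -/
theorem Dg.natDegree_le {M : ℕ} {f : ℂ[X][X]} (hf : Dg M f) {k : ℕ} (h : f.coeff k ≠ 0) :
    (f.coeff k).natDegree + k ≤ M := by
  by_contra hc
  exact h (leadingCoeff_eq_zero.1 (hf (f.coeff k).natDegree k (by omega)))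

/-- division by a monic polynomial of degree `β` and total degree `β` -/
theorem dg_div {b : ℂ[X][X]} {β : ℕ} (hb : b.Monic) (hβ : b.natDegree = β) (hbd : Dg β b)
    {M : ℕ} : ∀ (n : ℕ) (f : ℂ[X][X]), f.natDegree ≤ n → Dg M f → Dg M (f %ₘ b) := by
  intro n
  induction n using Nat.strong_induction_on with
  | _ n ih =>
    intro f hn hf
    by_cases hlt : f.natDegree < b.natDegree
    · rw [(modByMonic_eq_self_iff hb).2 (degree_lt_degree hlt)]
      exact hf
    · push Not at hlt
      by_cases hf0 : f = 0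
      · rw [hf0, zero_modByMonic]
        exact Dg.zero M
      have hdiv : f %ₘ b =
          (f - b * (C f.leadingCoeff * X ^ (f.natDegree - b.natDegree))) %ₘ b := by
        rw [sub_modByMonic, self_mul_modByMonic hb, sub_zero]
      have hlc := hf.natDegree_le (k := f.natDegree) (by
        rw [coeff_natDegree]
        exact leadingCoeff_ne_zero.2 hf0)
      rw [coeff_natDegree] at hlc
      have h1 : Dg M (b * (C f.leadingCoeff * X ^ (f.natDegree - b.natDegree))) := by
        have h2 := hbd.mul (dg_C_mul_X_pow (M := M - β) (k := f.natDegree - b.natDegree)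
          (a := f.leadingCoeff) (by omega))
        exact h2.mono (by omega)
      have hwf := div_wf_lemma ⟨(degree_eq_natDegree hb.ne_zero).trans_le
        ((Nat.cast_le.2 hlt).trans (degree_eq_natDegree hf0).ge), hf0⟩ hb (p := f)
      rw [hdiv]
      have h2 := hf.sub h1
      generalize f - b * (C f.leadingCoeff * X ^ (f.natDegree - b.natDegree)) = f' at hwf h2 ⊢
      by_cases h0 : f' = 0
      · rw [h0, zero_modByMonic]
        exact Dg.zero M
      · have h4 : f'.natDegree < f.natDegree := natDegree_lt_natDegree h0 hwf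
        exact ih _ (lt_of_lt_of_le h4 hn) _ le_rfl h2

/-- the monomials `X ^ i * Y ^ k` -/
noncomputable def mn (i k : ℕ) : ℂ[X][X] := C (X ^ i) * X ^ k

theorem coeff_mul_mn (f : ℂ[X][X]) (i k a l : ℕ) :
    ((f * mn i k).coeff l).coeff a =
      if k ≤ l ∧ i ≤ a then (f.coeff (l - k)).coeff (a - i) else 0 := by
  unfold mn
  rw [← mul_assoc, coeff_mul_X_pow']
  by_cases h1 : k ≤ l
  · rw [if_pos h1, coeff_mul_C, coeff_mul_X_pow']
    by_cases h2 : i ≤ a
    · rw [if_pos h2, if_pos ⟨h1, h2⟩]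
    · rw [if_neg h2, if_neg (fun h => h2 h.2)]
  · rw [if_neg h1, if_neg (fun h => h1 h.1), coeff_zero]

theorem coeff_mn (i k a l : ℕ) :
    ((mn i k).coeff l).coeff a = if l = k ∧ a = i then 1 else 0 := by
  unfold mn
  rw [coeff_C_mul, coeff_X_pow]
  by_cases h1 : l = k
  · rw [if_pos h1, mul_one, coeff_X_pow]
    by_cases h2 : a = i
    · rw [if_pos h2, if_pos ⟨h1, h2⟩]
    · rw [if_neg h2, if_neg (fun h => h2 h.2)]
  · rw [if_neg h1, mul_zero, coeff_zero, if_neg (fun h => h1 h.1)]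

/-- extensionality -/
theorem ext2 {f g : ℂ[X][X]} (h : ∀ i k, (f.coeff k).coeff i = (g.coeff k).coeff i) : f = g := by
  ext k i
  exact h i k

/-- the residue -/
noncomputable def om (b : ℂ[X][X]) (c : ℂ[X]) : ℂ[X][X] →ₗ[ℂ] ℂ :=
  (lcoeff ℂ (c.natDegree - 1)) ∘ₗ (modByMonicHom c) ∘ₗ
    ((lcoeff ℂ[X] (b.natDegree - 1)).restrictScalars ℂ) ∘ₗ
      ((modByMonicHom b).restrictScalars ℂ)

theorem om_apply (b : ℂ[X][X]) (c : ℂ[X]) (f : ℂ[X][X]) : om b c f =
    (((f %ₘ b).coeff (b.natDegree - 1)) %ₘ c).coeff (c.natDegree - 1) := rfl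

section

variable {b : ℂ[X][X]} {c : ℂ[X]} (hb : b.Monic) (hc : c.Monic)

include hb in
theorem om_b (f : ℂ[X][X]) : om b c (b * f) = 0 := by
  rw [om_apply, self_mul_modByMonic hb, coeff_zero, zero_modByMonic, coeff_zero]

include hc in
theorem om_c (f : ℂ[X][X]) : om b c (C c * f) = 0 := by
  rw [om_apply, ← smul_eq_C_mul, smul_modByMonic, coeff_smul, smul_eq_mul,
    self_mul_modByMonic hc, coeff_zero]

/-- no reduction is necessary -/
theorem om_of_lt {f : ℂ[X][X]} (h : ∀ i k, b.natDegree ≤ k → (f.coeff k).coeff i = 0)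
    (h' : ∀ i, c.natDegree ≤ i → (f.coeff (b.natDegree - 1)).coeff i = 0) :
    om b c f = (f.coeff (b.natDegree - 1)).coeff (c.natDegree - 1) := by
  have h1 : f %ₘ b = f := by
    by_cases hb : b.Monic
    · rw [modByMonic_eq_self_iff hb, degree_eq_natDegree hb.ne_zero, degree_lt_iff_coeff_zero]
      intro k hk
      ext i
      rw [coeff_zero]
      exact h i k hk
    · exact modByMonic_eq_of_not_monic f hb
  have h2 : (f.coeff (b.natDegree - 1)) %ₘ c = f.coeff (b.natDegree - 1) := by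
    by_cases hc : c.Monic
    · rw [modByMonic_eq_self_iff hc, degree_eq_natDegree hc.ne_zero, degree_lt_iff_coeff_zero]
      exact h'
    · exact modByMonic_eq_of_not_monic _ hc
  rw [om_apply, h1, h2]

variable (hbd : Dg b.natDegree b) (hβ : 1 ≤ b.natDegree) (hγ : 1 ≤ c.natDegree)

include hb hc hbd hβ hγ in
theorem om_deg {f : ℂ[X][X]}
    (h : ∀ i k, b.natDegree + c.natDegree ≤ i + k + 2 → (f.coeff k).coeff i = 0) :
    om b c f = 0 := by
  by_cases h2 : b.natDegree + c.natDegree ≤ 2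
  · have : f = 0 := ext2 fun i k => by rw [h i k (by omega)]; simp
    rw [this, map_zero]
  · have h1 : Dg (b.natDegree + c.natDegree - 3) f := fun i k hik => h i k (by omega)
    have h3 := dg_div hb rfl hbd _ f le_rfl h1
    have h4 : (f %ₘ b).coeff (b.natDegree - 1) %ₘ c = (f %ₘ b).coeff (b.natDegree - 1) := by
      rw [modByMonic_eq_self_iff hc, degree_eq_natDegree hc.ne_zero, degree_lt_iff_coeff_zero]
      intro i hi
      exact h3 _ _ (by omega)
    rw [om_apply, h4]
    exact h3 _ _ (by omega)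

/-- reduced polynomials -/
def Rdd (b : ℂ[X][X]) (c : ℂ[X]) (g : ℂ[X][X]) : Prop :=
  ∀ i k, ¬ (i < c.natDegree ∧ k < b.natDegree) → (g.coeff k).coeff i = 0

include hb hc hbd hβ hγ in
/-- the pairing is perfect, and compatible with the degrees -/
theorem nondeg {g : ℂ[X][X]} (hg : Rdd b c g) (hg0 : g ≠ 0) : ∃ i k i' k', 
    i + i' + 1 = c.natDegree ∧ k + k' + 1 = b.natDegree ∧
      (∀ i₁ k₁, (g.coeff k₁).coeff i₁ ≠ 0 → i₁ + k₁ ≤ i + k) ∧ om b c (g * mn i' k') ≠ 0 := by
  classical
  -- the largest monomial of `g`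
  let S : Finset (ℕ × ℕ) := ((Finset.range c.natDegree) ×ˢ (Finset.range b.natDegree)).filter
    fun p => (g.coeff p.2).coeff p.1 ≠ 0
  have hS : ∀ i k, (g.coeff k).coeff i ≠ 0 → (i, k) ∈ S := by
    intro i k h
    rw [Finset.mem_filter, Finset.mem_product, Finset.mem_range, Finset.mem_range]
    refine ⟨?_, h⟩
    by_contra hcon
    exact h (hg i k hcon)
  have hSne : S.Nonempty := by
    by_contra hcon
    rw [Finset.not_nonempty_iff_eq_empty] at hcon
    apply hg0
    refine ext2 fun i k => ?_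
    rw [coeff_zero, coeff_zero]
    by_contra h
    have := hS i k h
    rw [hcon] at this
    exact absurd this (Finset.notMem_empty _)
  obtain ⟨⟨i, k⟩, hik, hmax⟩ := S.exists_max_image
    (fun p => (p.1 + p.2) * (b.natDegree + 1) + p.2) hSne
  rw [Finset.mem_filter, Finset.mem_product, Finset.mem_range, Finset.mem_range] at hik
  obtain ⟨⟨hi, hk⟩, hne⟩ := hik
  simp only at hi hk hne hmax
  have hm : ∀ i₁ k₁, (g.coeff k₁).coeff i₁ ≠ 0 → i₁ + k₁ ≤ i + k ∧
      (i₁ + k₁ = i + k → k₁ ≤ k) := by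
    intro i₁ k₁ h
    have h1 := hmax _ (hS i₁ k₁ h)
    simp only at h1
    constructor
    · by_contra hcon
      push Not at hcon
      have : (i + k + 1) * (b.natDegree + 1) ≤ (i₁ + k₁) * (b.natDegree + 1) :=
        Nat.mul_le_mul_right _ hcon
      nlinarith
    · intro h2
      rw [h2] at h1
      omega
  refine ⟨i, k, c.natDegree - 1 - i, b.natDegree - 1 - k, by omega, by omega,
    fun i₁ k₁ h => (hm i₁ k₁ h).1, ?_⟩
  set i' := c.natDegree - 1 - i with hi'
  set k' := b.natDegree - 1 - k with hk'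
  -- split the product
  set P := g * mn i' k' with hP
  set P₁ : ℂ[X][X] := ∑ l ∈ Finset.range b.natDegree, C (P.coeff l) * X ^ l with hP₁
  have hc₁ : ∀ l, P₁.coeff l = if l < b.natDegree then P.coeff l else 0 := by
    intro l
    rw [hP₁, finsetSum_coeff]
    simp only [coeff_C_mul, coeff_X_pow, mul_ite, mul_one, mul_zero]
    rw [Finset.sum_ite_eq]
    simp only [Finset.mem_range]
  have e1 : om b c (P - P₁) = 0 := by
    apply om_deg hb hc hbd hβ hγ
    intro a l hal
    rw [coeff_sub, hc₁]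
    split_ifs with h1
    · rw [sub_self, coeff_zero]
    · rw [sub_zero, hP, coeff_mul_mn]
      split_ifs with h2
      · by_contra hcon
        have h3 := hm _ _ hcon
        have h4 := h3.2 (by omega)
        omega
      · rfl
  have e2 : om b c P₁ = (g.coeff k).coeff i := by
    rw [om_of_lt]
    · rw [hc₁, if_pos (by omega), hP, coeff_mul_mn, if_pos ⟨by omega, by omega⟩]
      congr 2 <;> omega
    · intro a l hl
      rw [hc₁, if_neg (by omega), coeff_zero]
    · intro a ha
      rw [hc₁, if_pos (by omega), hP, coeff_mul_mn]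
      split_ifs with h2
      · by_contra hcon
        have h3 := hm _ _ hcon
        omega
      · rfl
  have e3 : om b c P = om b c (P - P₁) + om b c P₁ := by
    rw [← map_add, sub_add_cancel]
  rw [e3, e1, e2, zero_add]
  exact hne

include hb hc in
/-- division by `b` and `c` -/
theorem exists_nf (f : ℂ[X][X]) : ∃ u v r, f = b * u + C c * v + r ∧ Rdd b c r ∧
    ∀ M, Dg b.natDegree b → Dg M f → ∀ i k, M < i + k + c.natDegree → (v.coeff k).coeff i = 0 := by
  set s := f %ₘ b with hs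
  have hdeg : ∀ l, b.natDegree ≤ l → s.coeff l = 0 := by
    have h1 := degree_modByMonic_lt f hb
    rw [degree_eq_natDegree hb.ne_zero, degree_lt_iff_coeff_zero] at h1
    exact h1
  have hco : ∀ (φ : ℕ → ℂ[X]) (l : ℕ), (∑ l ∈ Finset.range b.natDegree, C (φ l) * X ^ l).coeff l =
      if l < b.natDegree then φ l else 0 := by
    intro φ l
    rw [finsetSum_coeff]
    simp only [coeff_C_mul, coeff_X_pow, mul_ite, mul_one, mul_zero]
    rw [Finset.sum_ite_eq]
    simp only [Finset.mem_range]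
  refine ⟨f /ₘ b, ∑ l ∈ Finset.range b.natDegree, C (s.coeff l /ₘ c) * X ^ l,
    ∑ l ∈ Finset.range b.natDegree, C (s.coeff l %ₘ c) * X ^ l, ?_, ?_, ?_⟩
  · have h1 : f = b * (f /ₘ b) + s := by
      rw [add_comm]
      exact (modByMonic_add_div f b).symm
    conv_lhs => rw [h1]
    rw [add_assoc]
    congr 1
    ext1 l
    rw [coeff_add, coeff_C_mul, hco, hco]
    split_ifs with h2
    · rw [add_comm]
      exact (modByMonic_add_div _ c).symm
    · rw [hdeg l (by omega), mul_zero, add_zero]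
  · intro i k hik
    rw [hco]
    split_ifs with h2
    · have h3 := degree_modByMonic_lt (s.coeff k) hc
      rw [degree_eq_natDegree hc.ne_zero, degree_lt_iff_coeff_zero] at h3
      exact h3 i (by omega)
    · exact coeff_zero _
  · intro M hbd hf i k hik
    have h3 := dg_div hb rfl hbd _ f le_rfl hf
    rw [hco]
    split_ifs with h2
    · by_cases h4 : s.coeff k = 0
      · rw [h4, zero_divByMonic, coeff_zero]
      · have h5 : (s.coeff k).natDegree + k ≤ M := h3.natDegree_le h4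
        by_cases h6 : c.natDegree ≤ (s.coeff k).natDegree
        · apply coeff_eq_zero_of_natDegree_lt
          rw [natDegree_divByMonic _ hc]
          omega
        · rw [(divByMonic_eq_zero_iff hc).2, coeff_zero]
          exact degree_lt_degree (by omega)
    · exact coeff_zero _

include hb hc hbd hβ hγ in
/-- the annihilator of the residue -/
theorem ann {f : ℂ[X][X]} (h : ∀ g, om b c (f * g) = 0) : ∃ u v, f = b * u + C c * v ∧
    ∀ M, Dg M f → ∀ i k, M < i + k + c.natDegree → (v.coeff k).coeff i = 0 := by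
  obtain ⟨u, v, r, h1, h2, h3⟩ := exists_nf hb hc f
  refine ⟨u, v, ?_, fun M hM => h3 M hbd hM⟩
  have hr : r = 0 := by
    by_contra hr
    obtain ⟨i, k, i', k', -, -, -, h4⟩ := nondeg hb hc hbd hβ hγ h2 hr
    apply h4
    have h5 := h (mn i' k')
    rw [h1, add_mul, add_mul, map_add, map_add, mul_assoc, mul_assoc, om_b hb, om_c hc, zero_add,
      zero_add] at h5
    exact h5
  rw [h1, hr, add_zero]

/-- the reduced polynomial with given coefficients -/
noncomputable def mk (β γ : ℕ) : (Fin γ × Fin β → ℂ) →ₗ[ℂ] ℂ[X][X] :=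
  ∑ p : Fin γ × Fin β, (LinearMap.proj p : (Fin γ × Fin β → ℂ) →ₗ[ℂ] ℂ).smulRight
    (mn p.1 p.2)

theorem mk_apply (β γ : ℕ) (a : Fin γ × Fin β → ℂ) :
    mk β γ a = ∑ p : Fin γ × Fin β, a p • mn p.1 p.2 := by
  simp [mk, LinearMap.sum_apply]

theorem coeff_mk (β γ : ℕ) (a : Fin γ × Fin β → ℂ) (i k : ℕ) : ((mk β γ a).coeff k).coeff i =
    if h : i < γ ∧ k < β then a (⟨i, h.1⟩, ⟨k, h.2⟩) else 0 := by
  rw [mk_apply, finsetSum_coeff, finsetSum_coeff]
  have h0 : ∀ p : Fin γ × Fin β, ((a p • mn p.1 p.2).coeff k).coeff i =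
      if k = p.2 ∧ i = p.1 then a p else 0 := by
    intro p
    rw [coeff_smul, coeff_smul, coeff_mn, smul_eq_mul, mul_ite, mul_one, mul_zero]
  simp only [h0]
  split_ifs with h
  · rw [Finset.sum_eq_single (⟨i, h.1⟩, ⟨k, h.2⟩)]
    · simp
    · intro p _ hp
      rw [if_neg]
      rintro ⟨h1, h2⟩
      apply hp
      ext
      · exact h2.symm
      · exact h1.symm
    · intro h1
      exact absurd (Finset.mem_univ _) h1
  · refine Finset.sum_eq_zero fun p _ => ?_
    rw [if_neg]
    rintro ⟨h1, h2⟩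
    exact h ⟨h2 ▸ p.1.2, h1 ▸ p.2.2⟩

theorem rdd_mk (a : Fin c.natDegree × Fin b.natDegree → ℂ) :
    Rdd b c (mk b.natDegree c.natDegree a) := by
  intro i k h
  rw [coeff_mk, dif_neg h]

theorem mk_surj {g : ℂ[X][X]} (hg : Rdd b c g) : ∃ a, g = mk b.natDegree c.natDegree a := by
  refine ⟨fun p => (g.coeff p.2).coeff p.1, ext2 fun i k => ?_⟩
  rw [coeff_mk]
  split_ifs with h
  · rfl
  · exact hg i k h

include hb hc hbd hβ hγ in
/-- every functional which kills `b` and `c` is a residue -/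
theorem rep (τ : ℂ[X][X] →ₗ[ℂ] ℂ) (h1 : ∀ f, τ (b * f) = 0) (h2 : ∀ f, τ (C c * f) = 0) :
    ∃ g, Rdd b c g ∧ ∀ f, τ f = om b c (g * f) := by
  let T : (Fin c.natDegree × Fin b.natDegree → ℂ) →ₗ[ℂ] (Fin c.natDegree × Fin b.natDegree → ℂ) :=
    { toFun := fun a p => om b c (mk b.natDegree c.natDegree a * mn p.1 p.2)
      map_add' := fun a a' => by
        ext p
        simp only [map_add, add_mul, Pi.add_apply]
      map_smul' := fun z a => by
        ext p
        simp only [map_smul, smul_mul_assoc, Pi.smul_apply, RingHom.id_apply] }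
  have hinj : Function.Injective T := by
    rw [injective_iff_map_eq_zero]
    intro a ha
    by_contra hne
    have h0 : mk b.natDegree c.natDegree a ≠ 0 := by
      intro h0
      apply hne
      ext ⟨⟨i, hi⟩, ⟨k, hk⟩⟩
      have h3 := coeff_mk b.natDegree c.natDegree a i k
      rw [h0, dif_pos ⟨hi, hk⟩] at h3
      rw [← h3]
      simp
    obtain ⟨i, k, i', k', e1, e2, -, h4⟩ := nondeg hb hc hbd hβ hγ (rdd_mk a) h0
    exact h4 (congrFun ha (⟨i', by omega⟩, ⟨k', by omega⟩))
  obtain ⟨a, ha⟩ := (LinearMap.injective_iff_surjective.1 hinj) (fun p => τ (mn p.1 p.2))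
  refine ⟨mk b.natDegree c.natDegree a, rdd_mk a, fun f => ?_⟩
  obtain ⟨u, v, r, e, hr, -⟩ := exists_nf hb hc f
  obtain ⟨a', ha'⟩ := mk_surj hr
  have e1 : τ f = τ r := by
    rw [e, map_add, map_add, h1, h2, zero_add, zero_add]
  have e2 : om b c (mk b.natDegree c.natDegree a * f) =
      om b c (mk b.natDegree c.natDegree a * r) := by
    rw [e, mul_add, mul_add, map_add, map_add, mul_left_comm, om_b hb, mul_left_comm, om_c hc,
      zero_add, zero_add]
  rw [e1, e2, ha', mk_apply _ _ a', map_sum, Finset.mul_sum, map_sum]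
  refine Finset.sum_congr rfl fun p _ => ?_
  rw [map_smul, mul_smul_comm, map_smul]
  congr 1
  exact (congrFun ha p).symm

include hb hc hbd hβ hγ in
/-- the representation with the bound for the degree -/
theorem rep_deg (τ : ℂ[X][X] →ₗ[ℂ] ℂ) (h1 : ∀ f, τ (b * f) = 0) (h2 : ∀ f, τ (C c * f) = 0)
    {D : ℕ} (h3 : ∀ i k, i + k < D → τ (mn i k) = 0) (h4 : τ ≠ 0) :
    ∃ g, (∀ f, τ f = om b c (g * f)) ∧ ∃ M, M + D + 2 ≤ b.natDegree + c.natDegree ∧ Dg M g := by
  obtain ⟨g, hg, hgτ⟩ := rep hb hc hbd hβ hγ τ h1 h2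
  have hg0 : g ≠ 0 := by
    rintro rfl
    apply h4
    ext f
    rw [hgτ, zero_mul, map_zero]
    rfl
  obtain ⟨i, k, i', k', e1, e2, hmax, hne⟩ := nondeg hb hc hbd hβ hγ hg hg0
  refine ⟨g, hgτ, i + k, ?_, ?_⟩
  · rw [← hgτ] at hne
    have h5 : D ≤ i' + k' := by
      by_contra hcon
      exact hne (h3 i' k' (by omega))
    omega
  · intro i₁ k₁ h5
    by_contra hcon
    have := hmax i₁ k₁ hcon
    omega

end

end Pool.Agent.Work.MP_0421d9_ag.LD.CI
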