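import Pool.Agent.Work.MP_0421d9_ag.ZPoly
import Pool.Agent.Work.MP_0421d9_ag.ZCI1

/-!
Relations killed by an irreducible polynomial are residues.
-/

namespace Pool.Agent.Work.MP_0421d9_ag.LD.CI

open Polynomial

/-- the change of coordinates -/
noncomputable def Ψ (s y : ℂ) : P2 →ₐ[ℂ] ℂ[X][X] :=
  MvPolynomial.aeval ![C X + C (C s) * X, C (C y) * X]

/-- its inverse -/
noncomputable def Φ (s y : ℂ) : ℂ[X][X] →ₐ[ℂ] P2 :=
  Polynomial.eval₂AlgHom (Polynomial.aeval (MvPolynomial.X 0 -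
    MvPolynomial.C (s * y⁻¹) * MvPolynomial.X 1)) (MvPolynomial.C y⁻¹ * MvPolynomial.X 1)
      (fun _ => Commute.all _ _)

theorem Ψ_X0 (s y : ℂ) : Ψ s y (MvPolynomial.X 0) = C X + C (C s) * X := by
  simp [Ψ]

theorem Ψ_X1 (s y : ℂ) : Ψ s y (MvPolynomial.X 1) = C (C y) * X := by
  simp [Ψ]

theorem Ψ_C (s y a : ℂ) : Ψ s y (MvPolynomial.C a) = C (C a) := by
  simp only [Ψ, MvPolynomial.aeval_C]
  rfl

theorem Φ_X (s y : ℂ) : Φ s y X = MvPolynomial.C y⁻¹ * MvPolynomial.X 1 := by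
  simp [Φ]

theorem Φ_CX (s y : ℂ) : Φ s y (C X) = MvPolynomial.X 0 -
    MvPolynomial.C (s * y⁻¹) * MvPolynomial.X 1 := by
  simp [Φ]

theorem Φ_CC (s y a : ℂ) : Φ s y (C (C a)) = MvPolynomial.C a := by
  simp [Φ]

theorem ΦΨ {s y : ℂ} (hy : y ≠ 0) (f : P2) : Φ s y (Ψ s y f) = f := by
  have h : (Φ s y).comp (Ψ s y) = AlgHom.id ℂ P2 := by
    apply MvPolynomial.algHom_ext
    intro i
    fin_cases i
    · change Φ s y (Ψ s y (MvPolynomial.X 0)) = MvPolynomial.X 0
      rw [Ψ_X0, map_add, map_mul, Φ_CX, Φ_CC, Φ_X, ← mul_assoc, ← MvPolynomial.C_mul]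
      ring
    · change Φ s y (Ψ s y (MvPolynomial.X 1)) = MvPolynomial.X 1
      rw [Ψ_X1, map_mul, Φ_CC, Φ_X, ← mul_assoc, ← MvPolynomial.C_mul, mul_inv_cancel₀ hy,
        MvPolynomial.C_1, one_mul]
  exact DFunLike.congr_fun h f

theorem ΨΦ {s y : ℂ} (hy : y ≠ 0) (f : ℂ[X][X]) : Ψ s y (Φ s y f) = f := by
  have h : (Ψ s y).comp (Φ s y) = AlgHom.id ℂ ℂ[X][X] := by
    apply Polynomial.algHom_ext'
    · apply Polynomial.algHom_ext
      change Ψ s y (Φ s y (C X)) = C X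
      rw [Φ_CX, map_sub, map_mul, Ψ_X0, Ψ_X1, Ψ_C, ← mul_assoc, ← C_mul, ← C_mul, mul_assoc,
        inv_mul_cancel₀ hy, mul_one]
      ring
    · change Ψ s y (Φ s y X) = X
      rw [Φ_X, map_mul, Ψ_X1, Ψ_C, ← mul_assoc, ← C_mul, ← C_mul, inv_mul_cancel₀ hy, C_1, C_1,
        one_mul]
  exact DFunLike.congr_fun h f

theorem dg_Ψ (s y : ℂ) {f : P2} {M : ℕ} (hf : f.totalDegree ≤ M) : Dg M (Ψ s y f) := by
  rw [f.as_sum, map_sum]
  refine Dg.sum _ fun β hβ => ?_
  have h1 : β 0 + β 1 ≤ M := by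
    have h := MvPolynomial.le_totalDegree hβ
    rw [Finsupp.sum_fintype _ _ (fun _ => rfl), Fin.sum_univ_two] at h
    exact h.trans hf
  rw [MvPolynomial.monomial_eq, map_mul, Ψ_C, Finsupp.prod_fintype _ _ (by simp),
    Fin.prod_univ_two, map_mul, map_pow, map_pow, Ψ_X0, Ψ_X1]
  have e0 : Dg 0 (C (C (MvPolynomial.coeff β f)) : ℂ[X][X]) := by
    have := dg_C_mul_X_pow (M := 0) (k := 0) (a := C (MvPolynomial.coeff β f)) (by simp)
    simpa using this
  have e1 : Dg 1 (C X + C (C s) * X : ℂ[X][X]) := by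
    have a1 := dg_C_mul_X_pow (M := 1) (k := 0) (a := X) (by simp)
    have a2 := dg_C_mul_X_pow (M := 1) (k := 1) (a := C s) (by simp)
    rw [pow_zero, mul_one] at a1
    rw [pow_one] at a2
    exact a1.add a2
  have e2 : Dg 1 (C (C y) * X : ℂ[X][X]) := by
    have a2 := dg_C_mul_X_pow (M := 1) (k := 1) (a := C y) (by simp)
    rwa [pow_one] at a2
  exact (e0.mul ((e1.pow (β 0)).mul (e2.pow (β 1)))).mono (by omega)

theorem td_X_pow (s y : ℂ) (i k : ℕ) : (Φ s y (mn i k)).totalDegree ≤ i + k := by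
  unfold mn
  rw [map_mul, C_pow, map_pow, map_pow, Φ_X, Φ_CX]
  refine (MvPolynomial.totalDegree_mul _ _).trans (add_le_add ?_ ?_)
  · refine (MvPolynomial.totalDegree_pow _ _).trans ?_
    refine (Nat.mul_le_mul_left i (?_ : _ ≤ 1)).trans (by rw [mul_one])
    refine (MvPolynomial.totalDegree_sub _ _).trans (max_le ?_ ?_)
    · rw [MvPolynomial.totalDegree_X]
    · refine (MvPolynomial.totalDegree_mul _ _).trans ?_
      rw [MvPolynomial.totalDegree_C, MvPolynomial.totalDegree_X]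
  · refine (MvPolynomial.totalDegree_pow _ _).trans ?_
    refine (Nat.mul_le_mul_left k (?_ : _ ≤ 1)).trans (by rw [mul_one])
    refine (MvPolynomial.totalDegree_mul _ _).trans ?_
    rw [MvPolynomial.totalDegree_C, MvPolynomial.totalDegree_X]

/-- the expansion in monomials -/
theorem sum_mn (f : ℂ[X][X]) : f = ∑ k ∈ f.support, ∑ i ∈ (f.coeff k).support,
    ((f.coeff k).coeff i) • mn i k := by
  conv_lhs => rw [f.as_sum_support_C_mul_X_pow]
  refine Finset.sum_congr rfl fun k _ => ?_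
  conv_lhs => rw [(f.coeff k).as_sum_support_C_mul_X_pow]
  rw [map_sum, Finset.sum_mul]
  refine Finset.sum_congr rfl fun i _ => ?_
  rw [C_mul, mul_assoc]
  refine ext2 fun a l => ?_
  rw [coeff_C_mul, coeff_C_mul, coeff_smul, coeff_smul, smul_eq_mul]
  rfl

theorem td_Φ (s y : ℂ) {f : ℂ[X][X]} {M : ℕ} (hf : Dg M f) : (Φ s y f).totalDegree ≤ M := by
  rw [sum_mn f, map_sum]
  refine MvPolynomial.totalDegree_finsetSum_le fun k _ => ?_
  rw [map_sum]
  refine MvPolynomial.totalDegree_finsetSum_le fun i hi => ?_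
  rw [map_smul]
  refine (MvPolynomial.totalDegree_smul_le _ _).trans ((td_X_pow s y i k).trans ?_)
  by_contra hcon
  exact (mem_support_iff.1 hi) (hf i k (by omega))

theorem coeff_Ψ (s y : ℂ) (f : P2) (n : ℕ) : ((Ψ s y f).coeff n).coeff 0 =
    MvPolynomial.eval ![s, y] (MvPolynomial.homogeneousComponent n f) := by
  classical
  let θ : ℂ[X][X] →+* ℂ[X] := mapRingHom (evalRingHom 0)
  have hθ : ∀ F : ℂ[X][X], (F.coeff n).coeff 0 = (θ F).coeff n := by
    intro F
    change _ = (F.map (evalRingHom 0)).coeff n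
    rw [coeff_map, coeff_zero_eq_eval_zero]
    rfl
  rw [hθ, MvPolynomial.homogeneousComponent_apply, map_sum, Finset.sum_filter]
  conv_lhs => rw [f.as_sum]
  rw [map_sum, map_sum, finsetSum_coeff]
  refine Finset.sum_congr rfl fun β _ => ?_
  have h1 : θ (Ψ s y (MvPolynomial.monomial β (MvPolynomial.coeff β f))) =
      C (MvPolynomial.coeff β f * (s ^ β 0 * y ^ β 1)) * X ^ (β 0 + β 1) := by
    rw [MvPolynomial.monomial_eq, Finsupp.prod_fintype _ _ (by simp), Fin.prod_univ_two]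
    have t1 : ∀ a, θ (C (C a)) = C a := fun a => by simp [θ]
    have t2 : θ (C X) = 0 := by simp [θ]
    have t3 : θ X = X := by simp [θ]
    simp only [map_mul, map_pow, map_add, Ψ_C, Ψ_X0, Ψ_X1, t1, t2, t3, zero_add]
    ring
  have h2 : β.degree = β 0 + β 1 := by
    rw [Finsupp.degree_eq_sum, Fin.sum_univ_two]
  rw [h1, coeff_C_mul, coeff_X_pow, h2]
  by_cases h3 : β 0 + β 1 = n
  · rw [if_pos h3, if_pos h3.symm, mul_one, MvPolynomial.eval_monomial,
      Finsupp.prod_fintype _ _ (by simp), Fin.prod_univ_two]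
    simp
  · rw [if_neg h3, if_neg (fun h => h3 h.symm), mul_zero]

/-- a good direction -/
theorem exists_dir {b : P2} (hb : b ≠ 0) : ∃ s y : ℂ, y ≠ 0 ∧
    ((Ψ s y b).coeff b.totalDegree).coeff 0 ≠ 0 := by
  classical
  have h1 : MvPolynomial.homogeneousComponent b.totalDegree b ≠ 0 := by
    obtain ⟨β, hβ, h⟩ := Finset.exists_mem_eq_sup b.support
      (MvPolynomial.support_nonempty.2 hb) (fun s => s.sum fun _ e => e)
    intro h0
    have h2 := congrArg (MvPolynomial.coeff β) h0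
    rw [MvPolynomial.coeff_homogeneousComponent, if_pos, MvPolynomial.coeff_zero] at h2
    · exact MvPolynomial.mem_support_iff.1 hβ h2
    · exact h.symm
  have h2 : MvPolynomial.homogeneousComponent b.totalDegree b * MvPolynomial.X 1 ≠ 0 :=
    mul_ne_zero h1 (MvPolynomial.X_ne_zero 1)
  obtain ⟨v, hv⟩ : ∃ v : Fin 2 → ℂ, MvPolynomial.eval v
      (MvPolynomial.homogeneousComponent b.totalDegree b * MvPolynomial.X 1) ≠ 0 := by
    by_contra hcon
    push Not at hcon
    exact h2 (MvPolynomial.funext fun v => by rw [hcon v, map_zero])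
  rw [map_mul, MvPolynomial.eval_X] at hv
  refine ⟨v 0, v 1, right_ne_zero_of_mul hv, ?_⟩
  rw [coeff_Ψ]
  have h3 : (![v 0, v 1] : Fin 2 → ℂ) = v := by
    ext i
    fin_cases i <;> rfl
  rw [h3]
  exact left_ne_zero_of_mul hv

variable {ι : Type} [Fintype ι] {q : ι → Fin 2 → ℂ}

/-- `D` is the degree plus one -/
theorem ci_dual {b : P2} (hb : Irreducible b) {D : ℕ} {m : ι → ℕ}
    {τ : P2 →ₗ[ℂ] ℂ} (hτ : τ ≠ 0) (hrel : IsRel D q m τ) (hbτ : ∀ f, τ (b * f) = 0) :
    ∃ (c g : P2) (M : ℕ), M + D + 2 ≤ b.totalDegree + ∑ i, m i ∧ ¬ b ∣ c ∧ ¬ b ∣ g ∧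
      ∀ F : P2, (∀ f, τ (F * f) = 0) → ∃ u v, F * g = b * u + c * v ∧
        (v = 0 ∨ v.totalDegree + ∑ i, m i ≤ F.totalDegree + M) := by
  classical
  set β := b.totalDegree with hβ
  set γ := ∑ i, m i with hγ
  -- the degrees are positive
  have hβ1 : 1 ≤ β := by
    by_contra hcon
    have h0 : b.totalDegree = 0 := by omega
    have h1 := (MvPolynomial.totalDegree_eq_zero_iff_eq_C (p := b)).1 h0
    by_cases h2 : MvPolynomial.coeff 0 b = 0
    · exact hb.ne_zero (by rw [h1, h2, MvPolynomial.C_0])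
    · apply hb.not_isUnit
      rw [h1]
      exact (IsUnit.mk0 _ h2).map MvPolynomial.C
  have hγ1 : 1 ≤ γ := by
    by_contra hcon
    have h0 : ∑ i, m i = 0 := by omega
    apply hτ
    refine LinearMap.ext fun f => ?_
    apply hrel.2
    intro i
    have h1 : m i = 0 := (Finset.sum_eq_zero_iff.1 h0) i (Finset.mem_univ i)
    rw [h1]
    exact vq_zero' _ _
  obtain ⟨s, y, hy, hκ⟩ := exists_dir hb.ne_zero
  set κ := ((Ψ s y b).coeff β).coeff 0 with hκd
  have hdb : Dg β (Ψ s y b) := dg_Ψ s y le_rfl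
  have hlead : (Ψ s y b).coeff β = C κ := by
    ext i
    rw [coeff_C]
    split_ifs with h
    · rw [h]
    · exact hdb i β (by omega)
  -- the monic polynomial
  set B : ℂ[X][X] := C (C κ⁻¹) * Ψ s y b with hB
  have hBd : Dg β B := by
    have h0 : Dg 0 (C (C κ⁻¹) : ℂ[X][X]) := by
      have := dg_C_mul_X_pow (M := 0) (k := 0) (a := C κ⁻¹) (by simp)
      simpa using this
    exact (h0.mul hdb).mono (by omega)
  have hBc : B.coeff β = 1 := by
    rw [hB, coeff_C_mul, hlead, ← C_mul, inv_mul_cancel₀ hκ, C_1]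
  have hBn : B.natDegree = β := by
    apply natDegree_eq_of_le_of_coeff_ne_zero
    · rw [natDegree_le_iff_coeff_eq_zero]
      intro k hk
      ext i
      rw [coeff_zero]
      exact hBd i k (by omega)
    · rw [hBc]
      exact one_ne_zero
  have hBm : B.Monic := by
    rw [Monic, leadingCoeff, hBn, hBc]
  have hBb : Ψ s y b = C (C κ) * B := by
    rw [hB, ← mul_assoc, ← C_mul, ← C_mul, mul_inv_cancel₀ hκ, C_1, C_1, one_mul]
  have hΦB : Φ s y B = MvPolynomial.C κ⁻¹ * b := by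
    rw [hB, map_mul, Φ_CC, ΦΨ hy]
  -- the polynomial `c`
  set c₀ : ℂ[X] := ∏ i, (X - C (q i 0 - s * y⁻¹ * q i 1)) ^ m i with hc₀
  have hcm : c₀.Monic := monic_prod_of_monic _ _ fun i _ => (monic_X_sub_C _).pow _
  have hcn : c₀.natDegree = γ := by
    rw [hc₀, natDegree_prod_of_monic _ _ fun i _ => (monic_X_sub_C _).pow _]
    refine Finset.sum_congr rfl fun i _ => ?_
    rw [(monic_X_sub_C _).natDegree_pow, natDegree_X_sub_C, mul_one]
  have hΦc : ∀ i, Vq (q i) (Φ s y (C c₀)) (m i) := by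
    intro i
    have h1 : Φ s y (C c₀) = ∏ j, (Φ s y (C (X - C (q j 0 - s * y⁻¹ * q j 1)))) ^ m j := by
      rw [hc₀, map_prod, map_prod]
      refine Finset.prod_congr rfl fun j _ => ?_
      rw [C_pow, map_pow]
    rw [h1, ← Finset.mul_prod_erase _ _ (Finset.mem_univ i)]
    refine Vq.mul_right ?_ _
    have h2 : Vq (q i) (Φ s y (C (X - C (q i 0 - s * y⁻¹ * q i 1)))) 1 := by
      have e : Φ s y (C (X - C (q i 0 - s * y⁻¹ * q i 1))) =
          (MvPolynomial.X 0 - MvPolynomial.C (q i 0)) -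
            MvPolynomial.C (s * y⁻¹) * (MvPolynomial.X 1 - MvPolynomial.C (q i 1)) := by
        rw [C_sub, map_sub, Φ_CX, Φ_CC]
        simp only [MvPolynomial.C_sub, MvPolynomial.C_mul]
        ring
      rw [e]
      exact (vq_X_sub _ _).sub ((vq_X_sub _ _).mul_left _)
    have := h2.pow (m i)
    rwa [mul_one] at this
  -- the functional
  set τ' : ℂ[X][X] →ₗ[ℂ] ℂ := τ ∘ₗ (Φ s y).toLinearMap with hτ'
  have hτa : ∀ f, τ' f = τ (Φ s y f) := fun f => rfl
  have t1 : ∀ f, τ' (B * f) = 0 := by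
    intro f
    rw [hτa, map_mul, hΦB, mul_comm (MvPolynomial.C κ⁻¹), mul_assoc]
    exact hbτ _
  have t2 : ∀ f, τ' (C c₀ * f) = 0 := by
    intro f
    rw [hτa, map_mul]
    exact hrel.2 _ fun i => (hΦc i).mul_right _
  have t3 : ∀ i k, i + k < D → τ' (mn i k) = 0 := by
    intro i k hik
    rw [hτa]
    exact hrel.1 _ (lt_of_le_of_lt (td_X_pow s y i k) hik)
  have t4 : τ' ≠ 0 := by
    intro h
    apply hτ
    refine LinearMap.ext fun f => ?_
    rw [← ΦΨ hy f (s := s), ← hτa, h]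
    rfl
  rw [← hBn] at hBd
  obtain ⟨G, hG, M, hM, hMG⟩ := rep_deg hBm hcm hBd (by omega) (by omega) τ' t1 t2 t3 t4
  refine ⟨Φ s y (C c₀), Φ s y G, M, by omega, ?_, ?_, ?_⟩
  · rintro ⟨k, hk⟩
    have h1 : B ∣ C c₀ := by
      refine ⟨C (C κ) * Ψ s y k, ?_⟩
      have := congrArg (Ψ s y) hk
      rw [ΨΦ hy, map_mul, hBb] at this
      rw [this]
      ring
    have h2 := natDegree_le_of_dvd h1 (by rw [Ne, C_eq_zero]; exact hcm.ne_zero)
    rw [natDegree_C] at h2
    omega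
  · rintro ⟨k, hk⟩
    apply t4
    refine LinearMap.ext fun f => ?_
    have := congrArg (Ψ s y) hk
    rw [ΨΦ hy, map_mul, hBb] at this
    rw [hG, this, mul_comm (C (C κ)), mul_assoc, mul_assoc, om_b hBm]
    rfl
  · intro F hF
    have h1 : ∀ H, om B c₀ (Ψ s y F * G * H) = 0 := by
      intro H
      have e : Ψ s y F * G * H = G * (Ψ s y F * H) := by ring
      rw [e, ← hG, hτa, map_mul, ΦΨ hy]
      exact hF _
    obtain ⟨u, v, e, hv⟩ := ann hBm hcm hBd (by omega) (by omega) h1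
    refine ⟨MvPolynomial.C κ⁻¹ * Φ s y u, Φ s y v, ?_, ?_⟩
    · have := congrArg (Φ s y) e
      rw [map_mul, ΦΨ hy, map_add, map_mul (Φ s y) B u, map_mul (Φ s y) (C c₀) v, hΦB] at this
      rw [this]
      ring
    · have h2 := hv _ ((dg_Ψ s y (le_refl F.totalDegree)).mul hMG)
      by_cases hv0 : v = 0
      · left
        rw [hv0, map_zero]
      · right
        obtain ⟨i, k, hik⟩ : ∃ i k, (v.coeff k).coeff i ≠ 0 := by
          by_contra hcon
          push Not at hcon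
          exact hv0 (ext2 fun i k => by rw [hcon]; simp)
        have h3 : i + k + c₀.natDegree ≤ F.totalDegree + M := by
          by_contra h4
          exact hik (h2 i k (by omega))
        have h5 : Dg (F.totalDegree + M - c₀.natDegree) v := fun a l hal => h2 a l (by omega)
        have h6 := td_Φ s y h5
        omega

end Pool.Agent.Work.MP_0421d9_ag.LD.CI
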