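import Mathlib

namespace Pool.Agent.Work.MP_0421d9_ag.ZC

/-- the critical degree of a number of conditions -/
theorem exists_crit (T : ℕ) : ∃ μ w : ℕ, T = (μ + 1).choose 2 + w ∧ w ≤ μ := by
  induction T with
  | zero => exact ⟨0, 0, by simp, le_rfl⟩
  | succ T ih =>
    obtain ⟨μ, w, h, hw⟩ := ih
    rcases Nat.lt_or_ge w μ with h1 | h1
    · exact ⟨μ, w + 1, by omega, h1⟩
    · refine ⟨μ + 1, 0, ?_, Nat.zero_le _⟩
      have h2 : (μ + 1 + 1).choose 2 = (μ + 1).choose 2 + (μ + 1) := by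
        rw [Nat.choose_succ_succ' (μ + 1) 1, Nat.choose_one_right]
        exact Nat.add_comm _ _
      rw [h2]
      omega

theorem zc_two_choose (n : ℕ) : 2 * (n + 1).choose 2 = n * n + n := by
  induction n with
  | zero => rfl
  | succ n ih =>
    have h2 : (n + 1 + 1).choose 2 = (n + 1).choose 2 + (n + 1) := by
      rw [Nat.choose_succ_succ' (n + 1) 1, Nat.choose_one_right]
      exact Nat.add_comm _ _
    rw [h2, Nat.mul_add, ih]
    ring

/-- four equal clusters: one of the two positions is in the middle -/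
theorem middle (T : ℕ) (hT : 10000 ≤ T) {μ w μ' w' : ℕ} (h : T = (μ + 1).choose 2 + w)
    (hw : w ≤ μ) (h' : 4 * T = (μ' + 1).choose 2 + w') (hw' : w' ≤ μ') :
    (μ ≤ 8 * w ∧ μ ≤ 8 * (μ - w)) ∨ (μ' ≤ 8 * w' ∧ μ' ≤ 8 * (μ' - w')) := by
  have e1 := zc_two_choose μ
  have e2 := zc_two_choose μ'
  have hμ : 100 ≤ μ := by
    by_contra hcon
    push Not at hcon
    have h1 : μ * μ ≤ 99 * 99 := Nat.mul_le_mul (by omega) (by omega)
    omega
  have key : μ' * μ' + μ' + 2 * w' = 4 * (μ * μ) + 4 * μ + 8 * w := by omega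
  by_cases hA : 8 * w < μ
  · right
    have h1 : μ' = 2 * μ := by
      rcases Nat.lt_trichotomy μ' (2 * μ) with hlt | heq | hgt
      · exfalso
        obtain ⟨k, hk⟩ : ∃ k, 2 * μ = μ' + 1 + k := ⟨2 * μ - (μ' + 1), by omega⟩
        have h2 : (2 * μ) * (2 * μ) = (μ' + 1 + k) * (μ' + 1 + k) := by rw [hk]
        have h3 : (2 * μ) * (2 * μ) = 4 * (μ * μ) := by ring
        have h4 : (μ' + 1 + k) * (μ' + 1 + k) = μ' * μ' + 2 * μ' + 1 + (2 * k * (μ' + 1) + k * k) := by
          ring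
        omega
      · exact heq
      · exfalso
        obtain ⟨k, hk⟩ : ∃ k, μ' = 2 * μ + 1 + k := ⟨μ' - (2 * μ + 1), by omega⟩
        have h2 : μ' * μ' = 4 * (μ * μ) + 4 * μ + 1 + (2 * k * (2 * μ + 1) + k * k) := by
          rw [hk]; ring
        omega
    rw [h1] at key
    have h3 : (2 * μ) * (2 * μ) = 4 * (μ * μ) := by ring
    rw [h3] at key
    omega
  · by_cases hB : 8 * (μ - w) < μ
    · right
      have h1 : μ' = 2 * μ + 2 := by
        rcases Nat.lt_trichotomy μ' (2 * μ + 2) with hlt | heq | hgt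
        · exfalso
          obtain ⟨k, hk⟩ : ∃ k, 2 * μ + 1 = μ' + k := ⟨2 * μ + 1 - μ', by omega⟩
          have h2 : (2 * μ + 1) * (2 * μ + 1) = (μ' + k) * (μ' + k) := by rw [hk]
          have h3 : (2 * μ + 1) * (2 * μ + 1) = 4 * (μ * μ) + 4 * μ + 1 := by ring
          have h4 : (μ' + k) * (μ' + k) = μ' * μ' + (2 * k * μ' + k * k) := by
            ring
          omega
        · exact heq
        · exfalso
          obtain ⟨k, hk⟩ : ∃ k, μ' = 2 * μ + 3 + k := ⟨μ' - (2 * μ + 3), by omega⟩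
          have h2 : μ' * μ' = 4 * (μ * μ) + 12 * μ + 9 + (2 * k * (2 * μ + 3) + k * k) := by
            rw [hk]; ring
          omega
      rw [h1] at key
      have h3 : (2 * μ + 2) * (2 * μ + 2) = 4 * (μ * μ) + 8 * μ + 4 := by ring
      rw [h3] at key
      omega
    · left
      omega

end Pool.Agent.Work.MP_0421d9_ag.ZC
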