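import Pool.Agent.Work.MP_0421d9_ag.ZCLead
import Pool.Agent.Work.MP_0421d9_ag.SMember
import Pool.Agent.Work.MP_0421d9_ag.SNorm

/-!
A singular point which specialises to a point of collision: the leading part of the limit has a
multiple root, where the next part vanishes, too.
-/

set_option linter.unusedSectionVars false

namespace Pool.Agent.Work.MP_0421d9_ag.ZC

open MvPolynomial Module SM

/-- the coefficient of `z ^ j` of a monomial -/
theorem cz_monomial (α : Fin 3 →₀ ℕ) (c : ℂ) (j : ℕ) : cz j (monomial α c) =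
    if α 2 = j then monomial (e2 (α 0) (α 1)) c else 0 := by
  classical
  apply R2_ext
  intro a b
  rw [coeff_cz, coeff_monomial]
  have h2 : α = e3 a b j ↔ α 0 = a ∧ α 1 = b ∧ α 2 = j := e3_eq
  have h3 : e2 (α 0) (α 1) = e2 a b ↔ α 0 = a ∧ α 1 = b := by
    constructor
    · intro h
      exact ⟨DFunLike.congr_fun h 0, DFunLike.congr_fun h 1⟩
    · rintro ⟨rfl, rfl⟩
      rfl
  by_cases h5 : α 2 = j
  · rw [if_pos h5, coeff_monomial]
    by_cases h6 : α 0 = a ∧ α 1 = b
    · rw [if_pos (h2.mpr ⟨h6.1, h6.2, h5⟩), if_pos (h3.mpr h6)]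
    · rw [if_neg (fun h => h6 ⟨(h2.mp h).1, (h2.mp h).2.1⟩), if_neg (fun h => h6 (h3.mp h))]
  · rw [if_neg h5, coeff_zero, if_neg (fun h => h5 (h2.mp h).2.2)]

/-- the value of a form, from its coefficients with respect to `z` -/
theorem eval_eq_sum_cz {e : ℕ} {H : R3} (hH : H.IsHomogeneous e) (a b t : ℂ) :
    eval ![a, b, t] H = ∑ j ∈ Finset.range (e + 1), t ^ j * eval ![a, b] (cz j H) := by
  have h2 : ∀ j, eval ![a, b] (cz j H) =
      ∑ α ∈ H.support, if α 2 = j then coeff α H * (a ^ α 0 * b ^ α 1) else 0 := by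
    intro j
    conv_lhs => rw [H.as_sum]
    rw [map_sum, map_sum]
    refine Finset.sum_congr rfl (fun α _ => ?_)
    rw [cz_monomial]
    split_ifs
    · rw [eval_monomial, Finsupp.prod_fintype _ _ (fun i => pow_zero _), Fin.prod_univ_two]
      rfl
    · rw [map_zero]
  have h5 : ∑ j ∈ Finset.range (e + 1), t ^ j * eval ![a, b] (cz j H) =
      ∑ j ∈ Finset.range (e + 1), ∑ α ∈ H.support,
        t ^ j * (if α 2 = j then coeff α H * (a ^ α 0 * b ^ α 1) else 0) :=
    Finset.sum_congr rfl (fun j _ => by rw [h2 j, Finset.mul_sum])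
  rw [h5, Finset.sum_comm, eval_eq]
  refine Finset.sum_congr rfl (fun α hα => ?_)
  have h3 : α 2 < e + 1 := by
    have h4 := hH (mem_support_iff.mp hα)
    rw [Finsupp.weight_apply, Finsupp.sum_fintype _ _ (fun i => by simp), Fin.sum_univ_three] at h4
    simp only [Pi.one_apply, smul_eq_mul, mul_one] at h4
    omega
  rw [Finset.sum_eq_single (α 2)]
  · rw [if_pos rfl]
    have h6 : ∏ i ∈ α.support, (![a, b, t] : V3) i ^ α i = ∏ i, (![a, b, t] : V3) i ^ α i :=
      Finset.prod_subset (Finset.subset_univ _) (fun i _ hi => by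
        rw [Finsupp.notMem_support_iff.mp hi, pow_zero])
    rw [h6, Fin.prod_univ_three]
    simp
    ring
  · intro j _ hj
    rw [if_neg (Ne.symm hj), mul_zero]
  · intro h4
    exact absurd (Finset.mem_range.mpr h3) h4

/-- the leading term of a vanishing sum -/
theorem lead_zero (ρ : Pl) {r : ℂ} (hr0 : r ≠ 0) (hr : ρ.L r 0) {d J : ℕ} (hJ : J ≤ d)
    {e e' : ℕ → ℂ} (hL : ∀ j ≤ d, ρ.L (e j) (e' j)) (h0 : ∀ j ≤ d, J < j → e j = 0)
    (hs : ∑ j ∈ Finset.range (d + 1), r ^ (d - j) * e j = 0) : e' J = 0 := by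
  have h1 : ∑ j ∈ Finset.range (d + 1), r ^ (J - j) * e j = 0 := by
    have h2 : r ^ (d - J) * ∑ j ∈ Finset.range (d + 1), r ^ (J - j) * e j = 0 := by
      rw [Finset.mul_sum, ← hs]
      refine Finset.sum_congr rfl (fun j hj => ?_)
      rw [Finset.mem_range, Nat.lt_succ_iff] at hj
      rcases Nat.lt_or_ge J j with h | h
      · rw [h0 j hj h, mul_zero, mul_zero, mul_zero]
      · rw [← mul_assoc, ← pow_add]
        congr 2
        omega
    exact (mul_eq_zero.mp h2).resolve_left (pow_ne_zero _ hr0)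
  have h2 : ρ.L (∑ j ∈ Finset.range (d + 1), r ^ (J - j) * e j)
      (∑ j ∈ Finset.range (d + 1), if j = J then e' J else 0) := by
    refine Pl.sum ρ _ (fun j hj => ?_)
    rw [Finset.mem_range, Nat.lt_succ_iff] at hj
    rcases lt_trichotomy j J with h | h | h
    · rw [if_neg h.ne]
      exact L_zero_mul ρ hr (by omega) (hL j hj)
    · rw [if_pos h, h, Nat.sub_self, pow_zero, one_mul]
      exact hL J hJ
    · rw [if_neg h.ne', h0 j hj h, mul_zero]
      exact Pl.zero ρ
  rw [h1, Finset.sum_ite_eq' (Finset.range (d + 1)) J,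
    if_pos (Finset.mem_range.mpr (Nat.lt_succ_of_le hJ))] at h2
  exact ρ.fn h2 (Pl.zero ρ)

theorem next_L_tv (ρ : Pl) {P P' u u' : V3} (hP' : P' 2 ≠ 0) (h : ∀ k, ρ.L (P k) (P' k))
    (hu : ∀ k, ρ.L (u k) (u' k)) : ∀ k, ρ.L (tv (ip P) u k) (tv (ip P') u' k) := by
  have h1 : ∀ k, ρ.L (ip P k) (ip P' k) := by
    intro k
    fin_cases k
    · exact ρ.neg (Pl.div ρ (h 0) (h 2) hP')
    · exact ρ.neg (Pl.div ρ (h 1) (h 2) hP')
    · exact Pl.inv ρ (h 2) hP'
  intro k
  fin_cases k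
  · exact ρ.add (hu 0) (ρ.mul (h1 0) (hu 2))
  · exact ρ.add (hu 1) (ρ.mul (h1 1) (hu 2))
  · exact ρ.mul (h1 2) (hu 2)

/-- **A singular point which specialises to a point of collision.** -/
theorem next_order (ρ : Pl) {d μ : ℕ} {P P' : V3} (hP2 : P 2 ≠ 0) (hP2' : P' 2 ≠ 0)
    (hP : ∀ k, ρ.L (P k) (P' k)) {F F' : R3} (hF : F.IsHomogeneous d) (hμ : μ + 1 ≤ d)
    (hlim : ρ.LP F F') (hv : VanishTo F P μ) {q b : V3} (hq : ∀ k, ρ.L (q k) (b k)) (hb : b ≠ 0)
    (hb' : cr P' b = 0) (hqP : cr P q ≠ 0) (hsing : ∀ k, eval q (pderiv k F) = 0) :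
    ∃ y : V2, y ≠ 0 ∧ (∀ k, eval y (pderiv k (ld d μ P' F')) = 0) ∧
      eval y (ld d (μ + 1) P' F') = 0 := by
  obtain ⟨H, hH⟩ : ∃ H, H = tr P F := ⟨_, rfl⟩
  obtain ⟨H', hH'⟩ : ∃ H', H' = tr P' F' := ⟨_, rfl⟩
  have hHh : H.IsHomogeneous d := by
    rw [hH]
    exact tr_hom hF P
  have hHL : ρ.LP H H' := by
    rw [hH, hH']
    exact LP_tr ρ hP hlim
  have hcz : ∀ j, cz j H = if j ≤ d then ld d (d - j) P F else cz j H := by
    intro j
    split_ifs with h
    · rw [ld_apply, hH]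
      congr 2
      omega
    · rfl
  have hczh : ∀ j ≤ d, (cz j H).IsHomogeneous (d - j) := by
    intro j hj
    rw [hcz j, if_pos hj]
    exact ld_hom hF (Nat.sub_le _ _) P
  have hcz0 : ∀ j ≤ d, d - μ < j → cz j H = 0 := by
    intro j hj hj2
    rw [hcz j, if_pos hj]
    exact ld_of_vanish hF hv (by omega) (Nat.sub_le _ _)
  -- the coordinates
  obtain ⟨q₁, hq₁⟩ : ∃ q₁, q₁ = tv (ip P) q := ⟨_, rfl⟩
  have hqq : tv P q₁ = q := by
    rw [hq₁]
    exact tv_ip hP2 q
  have hP'0 : P' ≠ 0 := fun h => hP2' (congrFun h 2)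
  obtain ⟨c, hc⟩ := exists_smul_of_cr_eq_zero hP'0 hb'
  have hc0 : c ≠ 0 := by
    rintro rfl
    rw [zero_smul] at hc
    exact hb hc
  have hb1 : tv (ip P') b = c • ![0, 0, 1] := by
    rw [hc, tv_smul]
    congr 1
    have h1 := ip_tv hP2' ![0, 0, 1]
    rwa [tv_single_two] at h1
  have hLq := next_L_tv ρ hP2' hP hq
  rw [← hq₁, hb1] at hLq
  have hL2 : ρ.L (q₁ 2) c := by
    have := hLq 2
    simpa using this
  have hL0 : ρ.L (q₁ 0) 0 := by
    have := hLq 0
    simpa using this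
  have hL1 : ρ.L (q₁ 1) 0 := by
    have := hLq 1
    simpa using this
  have hq2 : q₁ 2 ≠ 0 := by
    intro h
    rw [h] at hL2
    exact hc0 (ρ.fn hL2 (Pl.zero ρ))
  obtain ⟨V, hV⟩ : ∃ V : V2, V = ![q₁ 0 / q₁ 2, q₁ 1 / q₁ 2] := ⟨_, rfl⟩
  have hVL : ∀ k, ρ.L (V k) 0 := by
    intro k
    rw [hV]
    fin_cases k
    · have := Pl.div ρ hL0 hL2 hc0
      rwa [zero_div] at this
    · have := Pl.div ρ hL1 hL2 hc0
      rwa [zero_div] at this
  have hV0 : V ≠ 0 := by
    intro h
    apply hqP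
    have h0 : q₁ 0 = 0 := by
      have := congrFun h 0
      rw [hV] at this
      exact (div_eq_zero_iff.mp this).resolve_right hq2
    have h1 : q₁ 1 = 0 := by
      have := congrFun h 1
      rw [hV] at this
      exact (div_eq_zero_iff.mp this).resolve_right hq2
    have h2 : q₁ = q₁ 2 • ![0, 0, 1] := by
      funext k
      fin_cases k
      · simpa using h0
      · simpa using h1
      · simp
    rw [← hqq, h2, tv_smul, tv_single_two]
    ext l
    fin_cases l <;> simp [cr] <;> ring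
  obtain ⟨c₁, hc₁, y, hy, hLy⟩ := ρ.exists_scale_vec V hV0
  obtain ⟨r, hr⟩ : ∃ r, r = c₁⁻¹ := ⟨_, rfl⟩
  have hr0 : r ≠ 0 := by
    rw [hr]
    exact inv_ne_zero hc₁
  have hrL : ρ.L r 0 := by
    obtain ⟨k, hk⟩ : ∃ k, y k ≠ 0 := by
      by_contra hcon
      push Not at hcon
      exact hy (funext hcon)
    have h1 := Pl.div ρ (hVL k) (hLy k) hk
    rw [zero_div] at h1
    have h2 : V k ≠ 0 := by
      intro h
      have h3 := hLy k
      rw [h, mul_zero] at h3
      exact hk (ρ.fn h3 (Pl.zero ρ))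
    have h3 : V k / (c₁ * V k) = r := by
      rw [hr]
      field_simp
    rwa [h3] at h1
  obtain ⟨W, hW⟩ : ∃ W : V2, W = c₁ • V := ⟨_, rfl⟩
  have hWL : ∀ k, ρ.L (W k) (y k) := by
    intro k
    rw [hW]
    exact hLy k
  have hVW : V = r • W := by
    rw [hW, hr, smul_smul, inv_mul_cancel₀ hc₁, one_smul]
  -- the singular point
  have hq₁' : (![V 0, V 1, 1] : V3) = (q₁ 2)⁻¹ • q₁ := by
    funext k
    rw [hV]
    fin_cases k
    · simp
      ring
    · simp
      ring
    · simp [inv_mul_cancel₀ hq2]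
  have hs : ∀ k, eval (![V 0, V 1, 1] : V3) (pderiv k H) = 0 := by
    intro k
    rw [hq₁', eval_smul_of_homogeneous (hHh.pderiv (i := k))]
    have h1 : ∀ k, eval q₁ (pderiv k H) = 0 := by
      rw [hH]
      refine (sing_tr hP2).mpr ?_
      rw [hqq]
      exact hsing
    rw [h1 k, mul_zero]
  have hsv : ∀ {n : ℕ} {G : R2}, G.IsHomogeneous n → eval ![V 0, V 1] G = r ^ n * eval W G := by
    intro n G hG
    have h1 : (![V 0, V 1] : V2) = r • W := by
      rw [← hVW]
      funext k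
      fin_cases k <;> rfl
    rw [h1, eval_smul_of_homogeneous hG]
  have hval : eval (![V 0, V 1, 1] : V3) H = 0 := by
    have h := congrArg (eval (![V 0, V 1, 1] : V3)) hHh.sum_X_mul_pderiv
    rw [map_sum, Fin.sum_univ_three] at h
    simp only [map_mul, hs, mul_zero, add_zero, nsmul_eq_mul, map_natCast] at h
    have h2 : (d : ℂ) ≠ 0 := by
      rw [Nat.cast_ne_zero]
      omega
    exact (mul_eq_zero.mp h.symm).resolve_left h2
  have hsumV : ∑ j ∈ Finset.range (d + 1), r ^ (d - j) * eval W (cz j H) = 0 := by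
    rw [eval_eq_sum_cz hHh] at hval
    rw [← hval]
    refine Finset.sum_congr rfl (fun j hj => ?_)
    rw [Finset.mem_range, Nat.lt_succ_iff] at hj
    rw [one_pow, one_mul, hsv (hczh j hj)]
  have hpd0 : ∀ i : Fin 2, pderiv i (cz d H) = 0 := by
    intro i
    have h1 := hczh d le_rfl
    rw [Nat.sub_self] at h1
    obtain ⟨a, ha⟩ : ∃ a, cz d H = C a := by
      refine ⟨coeff 0 (cz d H), ?_⟩
      exact (totalDegree_eq_zero_iff_eq_C.mp (Nat.le_zero.mp (h1.totalDegree_le)))
    rw [ha, pderiv_C]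
  have hsumD : ∀ i : Fin 2, ∑ j ∈ Finset.range (d + 1),
      r ^ (d - j) * eval W (pderiv i (cz j H)) = 0 := by
    intro i
    have hi : ∀ j, pderiv i (cz j H) = cz j (pderiv i.castSucc H) := by
      intro j
      fin_cases i
      · exact pderiv_cz_zero j H
      · exact pderiv_cz_one j H
    rw [Finset.sum_range_succ, hpd0, map_zero, mul_zero, add_zero]
    have h1 := hs i.castSucc
    rw [eval_eq_sum_cz (hHh.pderiv (i := i.castSucc)), show d - 1 + 1 = d by omega] at h1
    have h2 : r * ∑ j ∈ Finset.range d, (1 : ℂ) ^ j * eval ![V 0, V 1]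
        (cz j (pderiv i.castSucc H)) = 0 := by
      rw [h1, mul_zero]
    rw [← h2, Finset.mul_sum]
    refine Finset.sum_congr rfl (fun j hj => ?_)
    rw [Finset.mem_range] at hj
    rw [← hi, one_pow, one_mul, hsv ((hczh j hj.le).pderiv (i := i)), ← mul_assoc, ← pow_succ']
    congr 2
    omega
  have hczL : ∀ j, ρ.LP (cz j H) (cz j H') := fun j => LP_cz ρ hHL j
  refine ⟨y, hy, fun i => ?_, ?_⟩
  · have h1 := lead_zero ρ hr0 hrL (J := d - μ) (Nat.sub_le _ _)
      (e := fun j => eval W (pderiv i (cz j H))) (e' := fun j => eval y (pderiv i (cz j H')))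
      (fun j _ => (Pl.LP.pderiv i (hczL j)).eval hWL)
      (fun j hj hj2 => by rw [hcz0 j hj hj2, map_zero, map_zero]) (hsumD i)
    rw [ld_apply, ← hH']
    exact h1
  · have h1 := lead_zero ρ hr0 hrL (J := d - (μ + 1)) (Nat.sub_le _ _)
      (e := fun j => (((d - j : ℕ) : ℂ) - μ) * eval W (cz j H))
      (e' := fun j => (((d - j : ℕ) : ℂ) - μ) * eval y (cz j H'))
      (fun j _ => ρ.mul (Pl.sub ρ (Pl.natCast ρ _) (Pl.natCast ρ _)) ((hczL j).eval hWL))
      (fun j hj hj2 => by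
        rcases Nat.lt_or_ge (d - μ) j with h | h
        · rw [hcz0 j hj h, map_zero, mul_zero]
        · rw [show d - j = μ by omega, sub_self, zero_mul]) (by
        have h2 : ∀ j ∈ Finset.range (d + 1), r ^ (d - j) * ((((d - j : ℕ) : ℂ) - μ) *
            eval W (cz j H)) = W 0 * (r ^ (d - j) * eval W (pderiv 0 (cz j H))) +
            W 1 * (r ^ (d - j) * eval W (pderiv 1 (cz j H))) -
            μ * (r ^ (d - j) * eval W (cz j H)) := by
          intro j hj
          rw [Finset.mem_range, Nat.lt_succ_iff] at hj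
          have h3 := euler_two (hczh j hj) W
          linear_combination (-(r ^ (d - j))) * h3
        rw [Finset.sum_congr rfl h2, Finset.sum_sub_distrib, Finset.sum_add_distrib,
          ← Finset.mul_sum, ← Finset.mul_sum, ← Finset.mul_sum, hsumD 0, hsumD 1, hsumV]
        ring)
    have h2 : ((d - (d - (μ + 1)) : ℕ) : ℂ) - μ = 1 := by
      rw [show d - (d - (μ + 1)) = μ + 1 by omega]
      push_cast
      ring
    simp only [h2, one_mul] at h1
    rw [ld_apply, ← hH']
    exact h1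

end Pool.Agent.Work.MP_0421d9_ag.ZC
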