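import Pool.Agent.Work.MP_0421d9_ag.ZPASel2

/-!
Selection of the points for the strips of the plane, large multiplicities (helper63, after the
plan of helper69).
-/

namespace Pool.Agent.Work.MP_0421d9_ag.LD

/-- the statement of the cube lemma -/
def CubeMiddle : Prop := ∀ {k D C₀ z : ℕ}, 2 ≤ k → 1000 * k ≤ D → ∀ {x : Fin k → ℕ},
    (∀ j, z ≤ x j ∧ x j ≤ 2 * z) → 64 * k * (C₀ + ∑ j, x j) ≤ D ^ 2 →
    D ^ (2 * k - 1) ≤ 2 ^ (k + 4) * (df k * z ^ k) →
    2 ^ (k + 2) * (df k * z ^ k) ≤ D ^ (2 * k - 1) →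
    ∃ (J : Finset (Fin k)) (κ : ℕ),
      D + 2 ^ (2 * k + 5) * Frow D κ ≤ 2 ^ (2 * k + 5) * (C₀ + ∑ j ∈ J, x j) ∧
      2 ^ (2 * k + 5) * (C₀ + ∑ j ∈ J, x j) + D ≤ 2 ^ (2 * k + 5) * Frow D (κ + 1)

/-- the position of the strip -/
theorem zpa_kappa {D u ω κ G C F : ℕ} (hD : 1000000 * u ≤ D) (hω : 1 ≤ ω)
    (hωu : 4000 * ω ≤ u) (hu2 : 4096 * (u * u) ≤ (ω + 1) * D) (hF : F = Frow D (u + ω))
    (hC1 : F ≤ C) (hC2 : 2 * C ≤ 2 * F + 2 * (u * (u + 1)) + (ω + 1) * D)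
    (h1 : D + G * Frow D κ ≤ G * C) (h2 : G * C + D ≤ G * Frow D (κ + 1)) :
    u + ω ≤ κ ∧ κ ≤ u + 5 * ω := by
  have hD1 : 1 ≤ D := by omega
  have h3 : Frow D κ < C := by
    by_contra hcon
    have := Nat.mul_le_mul_left G (not_lt.mp hcon)
    omega
  have h4 : C < Frow D (κ + 1) := by
    by_contra hcon
    have := Nat.mul_le_mul_left G (not_lt.mp hcon)
    omega
  have hκD : κ ≤ D := by
    by_contra hcon
    have := zf_succ_le (D := D) (κ := κ) (by omega)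
    omega
  constructor
  · by_contra hcon
    have := zf_mono (D := D) (m := κ + 1) (n := u + ω) (by omega) (by omega)
    omega
  · by_contra hcon
    have h5 := zf_mono (D := D) (m := u + 5 * ω) (n := κ) (by omega) (by omega)
    have h6 := zf_two (D := D) (κ := u + 5 * ω) (by omega)
    have h7 := zf_two (D := D) (κ := u + ω) (by omega)
    rw [← hF] at h7
    -- `2 F (u + 5 ω) = 2 F (u + ω) + 4 ω (2 D + 3) - 4 ω (2 u + 6 ω)`
    have e1 : (u + 5 * ω) * (u + 5 * ω) = (u + ω) * (u + ω) + 4 * ω * (2 * u + 6 * ω) := by ring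
    have e2 : (u + 5 * ω) * (2 * D + 3) = (u + ω) * (2 * D + 3) + 4 * ω * (2 * D + 3) := by ring
    have h8 : 4 * ω * (2 * u + 6 * ω) ≤ ω * D := by
      calc 4 * ω * (2 * u + 6 * ω) = ω * (8 * u + 24 * ω) := by ring
        _ ≤ ω * D := Nat.mul_le_mul_left _ (by omega)
    have e3 : 4 * ω * (2 * D + 3) = 8 * (ω * D) + 12 * ω := by ring
    have e4 : (ω + 1) * D = ω * D + D := by ring
    have e5 : 2 * (u * (u + 1)) = 2 * (u * u) + 2 * u := by ring
    have h9 : D ≤ ω * D := Nat.le_mul_of_pos_left _ hω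
    omega

/-- the points of a strip of the plane, large multiplicities -/
theorem zpa_select (hcube : CubeMiddle) {p K D r u : ℕ} (hK : 2 ≤ K) (hKp : K ≤ p)
    (hp : 4000 ≤ p) (hu : 100 * p ^ 2 ≤ u) (hD : (16 * K * p) ^ 3 * u ≤ D)
    (hσ : 4 * p ^ 2 * D ≤ u ^ 2)
    (hKD : 2 ^ (K + 3) * (df K * (2 * u ^ 2) ^ K) ≤ D ^ (2 * K - 1))
    {y : Fin r → ℕ} (P : Finset (Fin r)) (hP : ∀ i ∈ P, y i ≤ u ∧ u ≤ y i + u / p)
    (hPs : 8 * D ≤ ∑ i ∈ P, y i) :
    ∃ (k t κ : ℕ) (e : Fin (2 * t + 1) → Fin r), 2 ≤ k ∧ k ≤ K ∧ Function.Injective e ∧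
      (∀ j, e j ∈ P) ∧ u + u / p ≤ κ ∧ κ ≤ u + 5 * (u / p) ∧
      D + 2 ^ (2 * k + 5) * Frow D κ ≤ 2 ^ (2 * k + 5) * ∑ j, (y (e j) + 1).choose 2 ∧
      2 ^ (2 * k + 5) * ∑ j, (y (e j) + 1).choose 2 + D ≤ 2 ^ (2 * k + 5) * Frow D (κ + 1) := by
  classical
  obtain ⟨ω, hω⟩ : ∃ ω, ω = u / p := ⟨_, rfl⟩
  rw [← hω] at hP ⊢
  have w1 : p * ω ≤ u := by rw [hω]; exact Nat.mul_div_le u p
  have w2 : u < p * ω + p := by
    have := Nat.lt_mul_div_succ u (by omega : 0 < p)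
    rwa [Nat.mul_add, Nat.mul_one, ← hω] at this
  have d1 : 4000 * ω ≤ u := (Nat.mul_le_mul_right _ hp).trans w1
  have hpp : 4000 * p ≤ p ^ 2 := by
    rw [pow_two]; exact Nat.mul_le_mul_right _ hp
  have hu1 : 1600000000 ≤ u := by omega
  have hKu : K ≤ u := by omega
  have hωp : 100 * p ≤ ω := by
    have h1 : p * (100 * p) < p * (ω + 1) := by
      calc p * (100 * p) = 100 * p ^ 2 := by ring
        _ ≤ u := hu
        _ < p * ω + p := w2
        _ = p * (ω + 1) := by ring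
    have := Nat.lt_of_mul_lt_mul_left h1
    omega
  obtain ⟨k, z, hk2, hkK, hz1, hz2, hz3, hz4⟩ := zpa_z hK hKu (by omega) hD hσ hKD
  -- sizes
  have hKp1 : 1 ≤ K * p := Nat.mul_pos (by omega) (by omega)
  have hKp2 : (K * p) * (K * p) ≤ (K * p) * ((K * p) * (K * p)) := Nat.le_mul_of_pos_left _ hKp1
  have hKp3 : K * p ≤ (K * p) * (K * p) := Nat.le_mul_of_pos_left _ hKp1
  have hKpp : p ≤ K * p := Nat.le_mul_of_pos_left _ (by omega)
  have hKpK : K ≤ K * p := Nat.le_mul_of_pos_right _ (by omega)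
  have hpKp : 4000 * (K * p) ≤ (K * p) * (K * p) := Nat.mul_le_mul_right _ (by omega)
  have hcub : (16 * K * p) ^ 3 = 4096 * ((K * p) * ((K * p) * (K * p))) := by ring
  have hDu : 4096 * (p * u) ≤ D := by
    refine le_trans ?_ hD
    rw [hcub]
    calc 4096 * (p * u) = (4096 * p) * u := by ring
      _ ≤ (4096 * ((K * p) * ((K * p) * (K * p)))) * u := Nat.mul_le_mul_right _ (by omega)
  have hDKu : 1000 * (K * u) ≤ D := by
    refine le_trans ?_ hD
    rw [hcub]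
    calc 1000 * (K * u) = (1000 * K) * u := by ring
      _ ≤ (4096 * ((K * p) * ((K * p) * (K * p)))) * u := Nat.mul_le_mul_right _ (by omega)
  have hDu6 : 1000000 * u ≤ D := by
    have : 4000 * u ≤ p * u := Nat.mul_le_mul_right _ hp
    omega
  have hu2 : 4096 * (u * u) ≤ (ω + 1) * D := by
    calc 4096 * (u * u) ≤ 4096 * (u * (p * (ω + 1))) := by
          refine Nat.mul_le_mul_left _ (Nat.mul_le_mul_left _ ?_)
          rw [Nat.mul_add]; omega
      _ = (ω + 1) * (4096 * (p * u)) := by ring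
      _ ≤ (ω + 1) * D := Nat.mul_le_mul_left _ hDu
  have hcu := mg_two_choose u
  have hz5 : 2 * (u + 1).choose 2 ≤ z := by
    have h1 : u * (u + 1) ≤ 2 * u ^ 2 := by
      rw [pow_two]
      have : u * (u + 1) ≤ u * (2 * u) := Nat.mul_le_mul_left _ (by omega)
      have e1 : u * (2 * u) = 2 * (u * u) := by ring
      omega
    omega
  have hz6 : 4 * k * z ≤ (ω + 1) * D := by
    have h1 : p * (4 * k * z) ≤ p * ((ω + 1) * D) := by
      calc p * (4 * k * z) = 4 * k * p * z := by ring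
        _ ≤ u * D := hz4
        _ ≤ (p * (ω + 1)) * D := Nat.mul_le_mul_right _ (by rw [Nat.mul_add]; omega)
        _ = p * ((ω + 1) * D) := by ring
    exact Nat.le_of_mul_le_mul_left h1 (by omega)
  -- the number of conditions of all points
  have hsum : 8 * ((u - ω) * D) ≤ 2 * ∑ i ∈ P, (y i + 1).choose 2 := by
    have h1 : (u - ω) * (∑ i ∈ P, y i) ≤ 2 * ∑ i ∈ P, (y i + 1).choose 2 := by
      rw [Finset.mul_sum, Finset.mul_sum]
      refine Finset.sum_le_sum fun i hi => ?_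
      rw [mg_two_choose, mul_comm (y i)]
      have := hP i hi
      exact Nat.mul_le_mul_right _ (by omega)
    have h2 : (u - ω) * (8 * D) ≤ (u - ω) * (∑ i ∈ P, y i) := Nat.mul_le_mul_left _ hPs
    have e1 : (u - ω) * (8 * D) = 8 * ((u - ω) * D) := by ring
    omega
  obtain ⟨F, hF⟩ : ∃ F, F = Frow D (u + ω) := ⟨_, rfl⟩
  have hF1 : F ≤ (u + ω) * (D + 1) := by
    rw [hF]; unfold Frow; exact Nat.sub_le _ _
  have hF0 : 1 ≤ F := by
    have h1 := zf_two (D := D) (κ := u + ω) (by omega)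
    rw [← hF] at h1
    have h2 : (u + ω) * (u + ω) < (u + ω) * (2 * D + 3) :=
      Nat.mul_lt_mul_of_pos_left (by omega) (by omega)
    omega
  obtain ⟨w, hw⟩ : ∃ w, w = (u + 1).choose 2 := ⟨_, rfl⟩
  rw [← hw] at hcu hz5
  have hwz : k * (z + 2 * w) ≤ 2 * k * z := by
    calc k * (z + 2 * w) ≤ k * (2 * z) := Nat.mul_le_mul_left _ (by omega)
      _ = 2 * k * z := by ring
  have e4k : 4 * k * z = 2 * (2 * k * z) := by ring
  have huu : 2 * w ≤ 2 * (u * u) := by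
    have : u * (u + 1) ≤ u * (2 * u) := Nat.mul_le_mul_left _ (by omega)
    have e1 : u * (2 * u) = 2 * (u * u) := by ring
    omega
  have e5 : (ω + 1) * D = ω * D + D := by ring
  have e6 : (u + ω) * (D + 1) = u * D + ω * D + u + ω := by ring
  have e7 : (u - ω) * D = u * D - ω * D := by rw [Nat.sub_mul]
  have h4000 : 4000 * (ω * D) ≤ u * D := by
    calc 4000 * (ω * D) = (4000 * ω) * D := by ring
      _ ≤ u * D := Nat.mul_le_mul_right _ d1
  have hDω : 400000 * D ≤ ω * D := Nat.mul_le_mul_right _ (by omega)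
  have henough : F + 2 * w + k * (z + 2 * w) ≤ ∑ i ∈ P, (y i + 1).choose 2 := by
    omega
  have hgw : ∀ i ∈ P, (y i + 1).choose 2 ≤ w := fun i hi => by
    rw [hw]
    exact Nat.choose_le_choose 2 (by have := hP i hi; omega)
  obtain ⟨Q, hQP, hQc, -, hQ1, hQ2⟩ := zsel_pick P (fun i => (y i + 1).choose 2)
    (w := w) (A := F) (par := 1) le_rfl hgw (by omega) hF0
  have hsd := Finset.sum_sdiff (f := fun i => (y i + 1).choose 2) hQP
  obtain ⟨X, hX1, hX2, hX3, hX4⟩ := zsel_many (fun i => (y i + 1).choose 2) (w := w) (z := z)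
    (by omega) k (P \ Q) (fun i hi => hgw i (Finset.mem_sdiff.mp hi).1) (by omega)
  obtain ⟨C₀, hC₀⟩ : ∃ C₀, C₀ = ∑ i ∈ Q, (y i + 1).choose 2 := ⟨_, rfl⟩
  rw [← hC₀] at hQ1 hQ2
  have hx : ∀ j, z ≤ ∑ i ∈ X j, (y i + 1).choose 2 ∧ ∑ i ∈ X j, (y i + 1).choose 2 ≤ 2 * z :=
    fun j => ⟨(hX3 j).1, by have := (hX3 j).2; omega⟩
  have hxs : ∑ j, ∑ i ∈ X j, (y i + 1).choose 2 ≤ 2 * k * z := by
    calc ∑ j, ∑ i ∈ X j, (y i + 1).choose 2 ≤ ∑ _j : Fin k, 2 * z :=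
          Finset.sum_le_sum fun j _ => (hx j).2
      _ = 2 * k * z := by
          rw [Finset.sum_const, Finset.card_univ, Fintype.card_fin, smul_eq_mul]; ring
  obtain ⟨J, κ, hJ1, hJ2⟩ := hcube (k := k) (D := D) (C₀ := C₀) (z := z) hk2 (by
      have : 1000 * (K * 1) ≤ 1000 * (K * u) :=
        Nat.mul_le_mul_left _ (Nat.mul_le_mul_left _ (by omega))
      omega)
    (x := fun j => ∑ i ∈ X j, (y i + 1).choose 2) hx (by
      have h1 : C₀ + ∑ j, ∑ i ∈ X j, (y i + 1).choose 2 ≤ 3 * (u * D) := by omega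
      calc 64 * k * (C₀ + ∑ j, ∑ i ∈ X j, (y i + 1).choose 2) ≤ 64 * k * (3 * (u * D)) :=
            Nat.mul_le_mul_left _ h1
        _ ≤ 64 * K * (3 * (u * D)) := by
            refine Nat.mul_le_mul_right _ (Nat.mul_le_mul_left _ hkK)
        _ = (192 * (K * u)) * D := by ring
        _ ≤ D * D := Nat.mul_le_mul_right _ (by omega)
        _ = D ^ 2 := by ring) hz3 hz2
  have hJs : ∑ j ∈ J, ∑ i ∈ X j, (y i + 1).choose 2 ≤ 2 * k * z :=
    (Finset.sum_le_sum_of_subset (Finset.subset_univ J)).trans hxs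
  obtain ⟨S, hSP, hSc, hSs⟩ := zsel_union (fun i => (y i + 1).choose 2) hQP hQc hX1 hX2 hX4 J
  rw [← hC₀] at hSs
  rw [← hSs] at hJ1 hJ2
  obtain ⟨t, ht⟩ : ∃ t, S.card = 2 * t + 1 := ⟨S.card / 2, by omega⟩
  obtain ⟨e, he, heS, hes⟩ := zsel_enum S ht
  have hC := hes (fun i => (y i + 1).choose 2)
  rw [← hC] at hJ1 hJ2 hSs
  obtain ⟨g1, g2⟩ := zpa_kappa hDu6 (by omega) d1 hu2 hF
    (C := ∑ j, (y (e j) + 1).choose 2) (by omega) (by omega) hJ1 hJ2
  exact ⟨k, t, κ, e, hk2, hkK, he, fun j => hSP (heS j), g1, g2, hJ1, hJ2⟩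

end Pool.Agent.Work.MP_0421d9_ag.LD
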