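import Pool.Agent.Work.MP_0421d9_ag.ZCubeEnd
import Pool.Agent.Work.MP_0421d9_ag.ZPASel3

/-!
The cube lemma (helper63, after the plan of helper69).
-/

namespace Pool.Agent.Work.MP_0421d9_ag.LD

/-- the inverse of the number of monomials and its derivatives -/
noncomputable def hinv (E : ℝ) : ℕ → ℝ → ℝ
  | 0, c => E - √(E ^ 2 - 2 * c)
  | (n + 1), c => df (n + 1) / √(E ^ 2 - 2 * c) ^ (2 * n + 1)

theorem hinv_sqrt {E t : ℝ} (h : 0 < E ^ 2 - 2 * t) :
    HasDerivAt (fun c => √(E ^ 2 - 2 * c)) (-1 / √(E ^ 2 - 2 * t)) t := by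
  have h1 : HasDerivAt (fun c : ℝ => E ^ 2 - 2 * c) (-2) t := by
    have := ((hasDerivAt_id t).const_mul 2).const_sub (E ^ 2)
    simpa using this
  have h2 := h1.sqrt h.ne'
  refine h2.congr_deriv ?_
  have h3 : √(E ^ 2 - 2 * t) ≠ 0 := (Real.sqrt_pos.mpr h).ne'
  field_simp

theorem hinv_deriv {E t : ℝ} (h : 0 < E ^ 2 - 2 * t) (n : ℕ) :
    HasDerivAt (hinv E n) (hinv E (n + 1) t) t := by
  have h0 := hinv_sqrt h
  have h3 : √(E ^ 2 - 2 * t) ≠ 0 := (Real.sqrt_pos.mpr h).ne'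
  cases n with
  | zero =>
    have h1 := h0.const_sub E
    refine h1.congr_deriv ?_
    change _ = ((df 1 : ℕ) : ℝ) / √(E ^ 2 - 2 * t) ^ (2 * 0 + 1)
    have e1 : df 1 = 1 := rfl
    rw [e1]
    field_simp
    simp
  | succ n =>
    have h1 := ((h0.pow (2 * n + 1)).inv (pow_ne_zero _ h3)).const_mul ((df (n + 1) : ℕ) : ℝ)
    have h2 : HasDerivAt (hinv E (n + 1)) _ t := h1.congr_of_eventuallyEq
      (Filter.Eventually.of_forall fun c => by
        change ((df (n + 1) : ℕ) : ℝ) / √(E ^ 2 - 2 * c) ^ (2 * n + 1) = _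
        rw [div_eq_mul_inv]
        rfl)
    refine h2.congr_deriv ?_
    change _ = ((df (n + 2) : ℕ) : ℝ) / √(E ^ 2 - 2 * t) ^ (2 * (n + 1) + 1)
    have e1 : df (n + 2) = (2 * n + 1) * df (n + 1) := by rw [df]
    rw [e1]
    push_cast
    simp only [Pi.pow_apply]
    field_simp
    ring

/-- rows as a real number -/
theorem frow_real {D κ : ℕ} (h : κ ≤ D + 2) :
    ((D : ℝ) + 3 / 2) ^ 2 - 2 * (Frow D κ : ℝ) = ((D : ℝ) + 3 / 2 - κ) ^ 2 := by
  have h1 := zf_two h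
  have h2 : (2 : ℝ) * Frow D κ + κ * κ = κ * (2 * D + 3) := by exact_mod_cast h1
  nlinarith

/-- the values at the numbers which are not in the middle of a row -/
theorem hinv_near {D C G : ℕ} (hD : 2000 ≤ D) (hG : 1 ≤ G) (hC : 128 * C ≤ D ^ 2)
    (hcon : ∀ κ, ¬ (D + G * Frow D κ ≤ G * C ∧ G * C + D ≤ G * Frow D (κ + 1))) :
    ∃ n : ℤ, |hinv ((D : ℝ) + 3 / 2) 0 C - n| ≤ 3 / 2 / G := by
  classical
  have hex : ∃ n, C < Frow D n := by
    refine ⟨D + 1, ?_⟩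
    have h1 := zf_two (D := D) (κ := D + 1) (by omega)
    have e1 : (D + 1) * (D + 1) = D ^ 2 + 2 * D + 1 := by ring
    have e2 : (D + 1) * (2 * D + 3) = 2 * D ^ 2 + 5 * D + 3 := by ring
    rw [e1, e2] at h1
    omega
  obtain ⟨n, hn, hmin⟩ : ∃ n, C < Frow D n ∧ ∀ m, m < n → Frow D m ≤ C :=
    ⟨Nat.find hex, Nat.find_spec hex, fun m hm => Nat.le_of_not_lt (Nat.find_min hex hm)⟩
  have hn0 : n ≠ 0 := by
    rintro rfl
    unfold Frow at hn
    simp at hn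
  obtain ⟨κ, rfl⟩ : ∃ κ, n = κ + 1 := ⟨n - 1, by omega⟩
  have hκ := hmin κ (by omega)
  have hκD : κ ≤ D := by
    by_contra hc
    have := zf_succ_le (D := D) (κ := κ) (by omega)
    omega
  have r0 := frow_real (D := D) (κ := κ) (by omega)
  have r1 := frow_real (D := D) (κ := κ + 1) (by omega)
  obtain ⟨E, hE⟩ : ∃ E : ℝ, E = (D : ℝ) + 3 / 2 := ⟨_, rfl⟩
  rw [← hE] at r0 r1 ⊢
  have hDr : (2000 : ℝ) ≤ D := by exact_mod_cast hD
  have hCr : (128 : ℝ) * C ≤ D ^ 2 := by exact_mod_cast hC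
  have hκr : (κ : ℝ) ≤ D := by exact_mod_cast hκD
  have hκC : (Frow D κ : ℝ) ≤ C := by exact_mod_cast hκ
  have hCκ : (C : ℝ) < Frow D (κ + 1) := by exact_mod_cast hn
  have hGr : (1 : ℝ) ≤ G := by exact_mod_cast hG
  push_cast at r1
  -- the square root
  obtain ⟨s, hs⟩ : ∃ s, s = √(E ^ 2 - 2 * (C : ℝ)) := ⟨_, rfl⟩
  have hpos : 0 ≤ E ^ 2 - 2 * (C : ℝ) := by rw [hE]; nlinarith
  have hs2 : s ^ 2 = E ^ 2 - 2 * C := by rw [hs]; exact Real.sq_sqrt hpos
  have hs0 : 0 ≤ s := by rw [hs]; exact Real.sqrt_nonneg _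
  have hsD : 99 / 100 * D ≤ s := by
    refine abs_le_of_sq_le_sq' ?_ hs0 |>.2
    rw [hs2, hE]
    nlinarith
  have hval : hinv E 0 C = E - s := by rw [hs]; rfl
  rw [hval]
  have a0 : 0 < E - κ := by rw [hE]; linarith
  have a1 : 0 < E - (κ + 1) := by rw [hE]; linarith
  -- comparison with the two integers
  have b0 : s ≤ E - κ := by
    refine abs_le_of_sq_le_sq' ?_ a0.le |>.2
    rw [hs2, ← r0]
    linarith
  have b1 : E - (κ + 1) ≤ s := by
    refine abs_le_of_sq_le_sq' ?_ hs0 |>.2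
    rw [hs2, ← r1]
    linarith
  have hG0 : (0 : ℝ) < G := by linarith
  rcases Nat.lt_or_ge (G * C) (D + G * Frow D κ) with h1 | h1
  · refine ⟨κ, ?_⟩
    have h2 : (G : ℝ) * C < D + G * Frow D κ := by exact_mod_cast h1
    have h3 : (E - κ - s) * (E - κ + s) = 2 * (C - Frow D κ) := by
      have : (E - κ - s) * (E - κ + s) = (E - κ) ^ 2 - s ^ 2 := by ring
      rw [this, hs2, ← r0]
      ring
    have h4 : (E - κ - s) * (3 / 2 * D) ≤ 2 * (C - Frow D κ) := by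
      rw [← h3]
      exact mul_le_mul_of_nonneg_left (by linarith) (by linarith)
    have h5 : G * ((E - κ - s) * (3 / 2 * D)) < 2 * D := by
      calc G * ((E - κ - s) * (3 / 2 * D)) ≤ G * (2 * (C - Frow D κ)) :=
            mul_le_mul_of_nonneg_left h4 hG0.le
        _ = 2 * (G * C - G * Frow D κ) := by ring
        _ < 2 * D := by linarith
    have h6 : G * (E - κ - s) ≤ 3 / 2 := by
      by_contra hc
      rw [not_le] at hc
      nlinarith
    have e1 : E - s - ((κ : ℤ) : ℝ) = E - κ - s := by push_cast; ring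
    rw [e1, abs_of_nonneg (by linarith), le_div_iff₀ hG0]
    linarith
  · have h1' : G * Frow D (κ + 1) < G * C + D := by
      by_contra hc
      exact hcon κ ⟨h1, by omega⟩
    refine ⟨κ + 1, ?_⟩
    have h2 : (G : ℝ) * Frow D (κ + 1) < G * C + D := by exact_mod_cast h1'
    have h3 : (s - (E - (κ + 1))) * (s + (E - (κ + 1))) = 2 * (Frow D (κ + 1) - C) := by
      have : (s - (E - (κ + 1))) * (s + (E - (κ + 1))) = s ^ 2 - (E - (κ + 1)) ^ 2 := by ring
      rw [this, hs2, ← r1]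
      ring
    have h4 : (s - (E - (κ + 1))) * (3 / 2 * D) ≤ 2 * (Frow D (κ + 1) - C) := by
      rw [← h3]
      exact mul_le_mul_of_nonneg_left (by linarith) (by linarith)
    have h5 : G * ((s - (E - (κ + 1))) * (3 / 2 * D)) < 2 * D := by
      calc G * ((s - (E - (κ + 1))) * (3 / 2 * D)) ≤ G * (2 * (Frow D (κ + 1) - C)) :=
            mul_le_mul_of_nonneg_left h4 hG0.le
        _ = 2 * (G * Frow D (κ + 1) - G * C) := by ring
        _ < 2 * D := by linarith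
    have h6 : G * (s - (E - (κ + 1))) ≤ 3 / 2 := by
      by_contra hc
      rw [not_le] at hc
      nlinarith
    have e1 : E - s - ((κ + 1 : ℤ) : ℝ) = -(s - (E - (κ + 1))) := by push_cast; ring
    rw [e1, abs_neg, abs_of_nonneg (by linarith), le_div_iff₀ hG0]
    linarith

theorem cube_middle_aux : CubeMiddle := by
  intro k D C₀ z hk hD x hx hC h1 h2
  by_contra hcon
  have hcon' : ∀ (J : Finset (Fin k)) (κ : ℕ),
      ¬ (D + 2 ^ (2 * k + 5) * Frow D κ ≤ 2 ^ (2 * k + 5) * (C₀ + ∑ j ∈ J, x j) ∧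
        2 ^ (2 * k + 5) * (C₀ + ∑ j ∈ J, x j) + D ≤ 2 ^ (2 * k + 5) * Frow D (κ + 1)) :=
    fun J κ h => hcon ⟨J, κ, h⟩
  obtain ⟨E, hE⟩ : ∃ E : ℝ, E = (D : ℝ) + 3 / 2 := ⟨_, rfl⟩
  have hDr : (1000 : ℝ) * k ≤ D := by exact_mod_cast hD
  have hkr : (2 : ℝ) ≤ k := by exact_mod_cast hk
  have hD0 : (0 : ℝ) < D := by linarith
  have hCr : (64 : ℝ) * k * (C₀ + ∑ j, (x j : ℝ)) ≤ D ^ 2 := by exact_mod_cast hC
  -- near integers
  obtain ⟨n, hn⟩ := itd_near (hinv E 0) (3 / 2 / ((2 ^ (2 * k + 5) : ℕ) : ℝ)) k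
    (fun j => (x j : ℝ)) C₀ (fun J => by
      obtain ⟨n, hn⟩ := hinv_near (D := D) (C := C₀ + ∑ j ∈ J, x j) (G := 2 ^ (2 * k + 5))
        (by omega) (Nat.pow_pos (by norm_num : 0 < 2)) (by
          have h3 : ∑ j ∈ J, x j ≤ ∑ j, x j := Finset.sum_le_sum_of_subset (Finset.subset_univ J)
          calc 128 * (C₀ + ∑ j ∈ J, x j) ≤ 128 * (C₀ + ∑ j, x j) := by omega
            _ ≤ 64 * k * (C₀ + ∑ j, x j) := Nat.mul_le_mul_right _ (by omega)
            _ ≤ D ^ 2 := hC) (hcon' J)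
      refine ⟨n, ?_⟩
      rw [hE]
      push_cast at hn ⊢
      exact hn)
  -- bounds
  obtain ⟨β, hβ⟩ : ∃ β : ℝ, β = D * (1 - 1 / (32 * k)) := ⟨_, rfl⟩
  have hk32 : (1 : ℝ) / (32 * k) ≤ 1 / 64 := by
    apply one_div_le_one_div_of_le <;> linarith
  have hk32' : (0 : ℝ) < 1 / (32 * k) := by positivity
  have hβ0 : 0 < β := by
    rw [hβ]
    exact mul_pos hD0 (by linarith)
  have hE0 : 0 < E := by rw [hE]; linarith
  have hzpos : 0 < z := by
    rcases Nat.eq_zero_or_pos z with h0 | h0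
    · exfalso
      subst h0
      rw [zero_pow (by omega), Nat.mul_zero, Nat.mul_zero] at h1
      have : 0 < D ^ (2 * k - 1) := Nat.pow_pos (by omega)
      omega
    · exact h0
  have hx0 : ∀ j, 0 < (x j : ℝ) := fun j => by
    have := (hx j).1
    exact_mod_cast (by omega : 0 < x j)
  have hsq : ∀ t : ℝ, t ≤ C₀ + ∑ j, (x j : ℝ) → β ^ 2 ≤ E ^ 2 - 2 * t := by
    intro t ht
    have h3 : 2 * t ≤ D ^ 2 * (1 / (32 * k)) := by
      have h4 : 64 * (k : ℝ) * t ≤ D ^ 2 := by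
        refine le_trans ?_ hCr
        exact mul_le_mul_of_nonneg_left ht (by positivity)
      rw [mul_one_div, le_div_iff₀ (by positivity)]
      linarith
    rw [hβ, hE]
    have h5 : (0 : ℝ) ≤ D ^ 2 * (1 / (32 * k)) * (1 - 1 / (32 * k)) :=
      mul_nonneg (mul_nonneg (by positivity) hk32'.le) (by linarith)
    nlinarith
  obtain ⟨i, hi⟩ : ∃ i, k = i + 1 := ⟨k - 1, by omega⟩
  have e21 : 2 * k - 1 = 2 * i + 1 := by omega
  have hdf0 : (0 : ℝ) < df k := by exact_mod_cast zpa_df_pos k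
  have hb := itd_bounds (a := (C₀ : ℝ)) (b := C₀ + ∑ j, (x j : ℝ)) k (hinv E)
    ((df k : ℝ) / E ^ (2 * k - 1)) ((df k : ℝ) / β ^ (2 * k - 1)) (fun j => (x j : ℝ)) C₀
    (fun n _ t ht => hinv_deriv (lt_of_lt_of_le (by positivity) (hsq t ht.2)) n)
    (fun t ht => by
      have h3 := hsq t ht.2
      have h4 : β ≤ √(E ^ 2 - 2 * t) := Real.le_sqrt_of_sq_le h3
      have h5 : √(E ^ 2 - 2 * t) ≤ E := by
        rw [Real.sqrt_le_left hE0.le]
        have : (0 : ℝ) ≤ C₀ := by positivity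
        have := ht.1
        linarith
      have e3 : hinv E k t = (df k : ℝ) / √(E ^ 2 - 2 * t) ^ (2 * k - 1) := by
        rw [e21, hi]
        rfl
      rw [e3]
      constructor
      · exact div_le_div_of_nonneg_left hdf0.le (pow_pos (lt_of_lt_of_le hβ0 h4) _)
          (pow_le_pow_left₀ (Real.sqrt_nonneg _) h5 _)
      · exact div_le_div_of_nonneg_left hdf0.le (pow_pos hβ0 _)
          (pow_le_pow_left₀ hβ0.le h4 _)) hx0 le_rfl le_rfl
  obtain ⟨hb1, hb2⟩ := hb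
  -- products
  have hp1 : (z : ℝ) ^ k ≤ ∏ j, (x j : ℝ) := by
    have h3 : ∏ _j : Fin k, (z : ℝ) ≤ ∏ j, (x j : ℝ) :=
      Finset.prod_le_prod (fun _ _ => by positivity) (fun j _ => by exact_mod_cast (hx j).1)
    rwa [Finset.prod_const, Finset.card_univ, Fintype.card_fin] at h3
  have hp2 : ∏ j, (x j : ℝ) ≤ (2 * (z : ℝ)) ^ k := by
    have h3 : ∏ j, (x j : ℝ) ≤ ∏ _j : Fin k, (2 * (z : ℝ)) :=
      Finset.prod_le_prod (fun _ _ => by positivity) (fun j _ => by exact_mod_cast (hx j).2)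
    rwa [Finset.prod_const, Finset.card_univ, Fintype.card_fin] at h3
  have h1r : (D : ℝ) ^ (2 * k - 1) ≤ 2 ^ (k + 4) * (df k * z ^ k) := by exact_mod_cast h1
  have h2r : (2 : ℝ) ^ (k + 2) * (df k * z ^ k) ≤ (D : ℝ) ^ (2 * k - 1) := by exact_mod_cast h2
  have hDp : (0 : ℝ) < (D : ℝ) ^ (2 * k - 1) := by positivity
  -- the lower bound
  have hlow : 9 / 10 / 2 ^ (k + 4) ≤ itd (hinv E 0) k (fun j => (x j : ℝ)) C₀ := by
    refine le_trans ?_ hb1
    have h3 : 9 / 10 * E ^ (2 * k - 1) ≤ (D : ℝ) ^ (2 * k - 1) := by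
      have h4 : (1 : ℝ) + ((2 * k - 1 : ℕ) : ℝ) * (-(3 / 2) / E) ≤ (1 + -(3 / 2) / E) ^ (2 * k - 1) := by
        apply one_add_mul_le_pow
        rw [div_eq_mul_inv]
        have : E⁻¹ ≤ 1 := inv_le_one_of_one_le₀ (by rw [hE]; linarith)
        nlinarith
      have h5 : 1 + -(3 / 2) / E = D / E := by
        field_simp
        rw [hE]
        ring
      rw [h5, div_pow] at h4
      have h6 : (9 / 10 : ℝ) ≤ 1 + ((2 * k - 1 : ℕ) : ℝ) * (-(3 / 2) / E) := by
        have h7 : ((2 * k - 1 : ℕ) : ℝ) ≤ 2 * k := by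
          have : 2 * k - 1 ≤ 2 * k := by omega
          exact_mod_cast this
        have h8 : ((2 * k - 1 : ℕ) : ℝ) * ((3 / 2) / E) ≤ 1 / 10 := by
          rw [mul_div_assoc', div_le_iff₀ hE0, hE]
          linarith
        have e3 : ((2 * k - 1 : ℕ) : ℝ) * (-(3 / 2) / E) = -(((2 * k - 1 : ℕ) : ℝ) * ((3 / 2) / E)) := by
          ring
        rw [e3]
        linarith
      have h9 := h6.trans h4
      rwa [le_div_iff₀ (by positivity)] at h9
    calc 9 / 10 / 2 ^ (k + 4) = 9 / 10 * E ^ (2 * k - 1) / (2 ^ (k + 4) * E ^ (2 * k - 1)) := by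
          field_simp
      _ ≤ (2 ^ (k + 4) * (df k * z ^ k)) / (2 ^ (k + 4) * E ^ (2 * k - 1)) := by
          apply div_le_div_of_nonneg_right (h3.trans h1r) (by positivity)
      _ = (df k : ℝ) / E ^ (2 * k - 1) * z ^ k := by field_simp
      _ ≤ (df k : ℝ) / E ^ (2 * k - 1) * ∏ j, (x j : ℝ) :=
          mul_le_mul_of_nonneg_left hp1 (by positivity)
  -- the upper bound
  have hupp : itd (hinv E 0) k (fun j => (x j : ℝ)) C₀ ≤ 3 / 10 := by
    refine hb2.trans ?_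
    have h3 : 15 / 16 * (D : ℝ) ^ (2 * k - 1) ≤ β ^ (2 * k - 1) := by
      have h4 : (1 : ℝ) + ((2 * k - 1 : ℕ) : ℝ) * (-(1 / (32 * k))) ≤
          (1 + -(1 / (32 * k))) ^ (2 * k - 1) := one_add_mul_le_pow (by linarith) _
      have h6 : (15 / 16 : ℝ) ≤ 1 + ((2 * k - 1 : ℕ) : ℝ) * (-(1 / (32 * k))) := by
        have h7 : ((2 * k - 1 : ℕ) : ℝ) ≤ 2 * k := by
          have : 2 * k - 1 ≤ 2 * k := by omega
          exact_mod_cast this
        have h8 : ((2 * k - 1 : ℕ) : ℝ) * (1 / (32 * k)) ≤ 1 / 16 := by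
          rw [mul_one_div, div_le_iff₀ (by positivity)]
          linarith
        linarith
      rw [hβ, mul_pow]
      have h9 := h6.trans h4
      have e3 : (1 : ℝ) + -(1 / (32 * k)) = 1 - 1 / (32 * k) := by ring
      rw [e3] at h9
      calc 15 / 16 * (D : ℝ) ^ (2 * k - 1) = (D : ℝ) ^ (2 * k - 1) * (15 / 16) := by ring
        _ ≤ (D : ℝ) ^ (2 * k - 1) * (1 - 1 / (32 * k)) ^ (2 * k - 1) :=
          mul_le_mul_of_nonneg_left h9 hDp.le
    calc (df k : ℝ) / β ^ (2 * k - 1) * ∏ j, (x j : ℝ)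
        ≤ (df k : ℝ) / β ^ (2 * k - 1) * (2 * (z : ℝ)) ^ k :=
          mul_le_mul_of_nonneg_left hp2 (by positivity)
      _ = (2 ^ (k + 2) * (df k * z ^ k)) / (4 * β ^ (2 * k - 1)) := by
          rw [mul_pow]
          field_simp
          ring
      _ ≤ (D : ℝ) ^ (2 * k - 1) / (4 * β ^ (2 * k - 1)) :=
          div_le_div_of_nonneg_right h2r (by positivity)
      _ ≤ 3 / 10 := by
          rw [div_le_iff₀ (by positivity)]
          linarith
  -- contradiction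
  have hδ : 2 ^ k * (3 / 2 / ((2 ^ (2 * k + 5) : ℕ) : ℝ)) = 3 / 4 / 2 ^ (k + 4) := by
    have e3 : 2 * k + 5 = k + (k + 4) + 1 := by ring
    rw [e3]
    push_cast
    rw [pow_succ, pow_add]
    field_simp
    norm_num
  rw [hδ] at hn
  have h64 : (3 : ℝ) / 4 / 2 ^ (k + 4) ≤ 3 / 4 / 64 := by
    apply div_le_div_of_nonneg_left (by norm_num) (by norm_num)
    calc (64 : ℝ) = 2 ^ (2 + 4) := by norm_num
      _ ≤ 2 ^ (k + 4) := pow_le_pow_right₀ (by norm_num) (by omega)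
  have hcmp : (3 : ℝ) / 4 / 2 ^ (k + 4) < 9 / 10 / 2 ^ (k + 4) := by
    apply div_lt_div_of_pos_right (by norm_num) (by positivity)
  rw [abs_le] at hn
  have hn1 : (0 : ℝ) < n := by linarith [hn.1, hn.2]
  have hn2 : (1 : ℝ) ≤ n := by
    have : (0 : ℤ) < n := by exact_mod_cast hn1
    exact_mod_cast (by omega : (1 : ℤ) ≤ n)
  linarith [hn.1, hn.2]

end Pool.Agent.Work.MP_0421d9_ag.LD
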