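import Pool.Agent.Work.MP_0421d9_ag.ZPAOf
import Pool.Agent.Work.MP_0421d9_ag.ZCubeFin

/-!
Strips of the plane, large multiplicities (helper63, after the plan of helper69).
-/

namespace Pool.Agent.Work.MP_0421d9_ag.LD

theorem plane_A {T q a p K D r u : ℕ} (hW : WinR T q a) (hT : 1 ≤ T) (hq : 2 ≤ q) (ha : 2 ≤ a)
    (hK : 2 ≤ K) (hp : 40 * q + 2 ^ (2 * K + 20) ≤ p) (hu : 100 * p ^ 2 ≤ u)
    (hD : (1000 * a * p + (16 * K * p) ^ 3) * u ≤ D) (hσ : 4 * p ^ 2 * D ≤ u ^ 2)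
    (hKD : 2 ^ (K + 3) * (df K * (2 * u ^ 2) ^ K) ≤ D ^ (2 * K - 1)) (hTu : u ^ 2 ≤ T * D)
    {y : Fin r → ℕ} (P : Finset (Fin r)) (hP : ∀ i ∈ P, y i ≤ u ∧ u ≤ y i + u / p)
    (hPs : 8 * D ≤ ∑ i ∈ P, y i) : StripGain D (2 ^ (2 * K + 8)) P y u :=
  plane_A_of cube_middle_aux hW hT hq ha hK hp hu hD hσ hKD hTu P hP hPs

end Pool.Agent.Work.MP_0421d9_ag.LD
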