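import Pool.Agent.Work.MP_0421d9_ag.ZDefs2
import Pool.Agent.Work.MP_0421d9_ag.MTrans
import Pool.Agent.Work.MP_0421d9_ag.MPlane

/-!
Strips of the plane which end in the middle of a row: the windows for rectangles are applied to
the transformed systems (helper94, after the plan of helper69).
-/

namespace Pool.Agent.Work.MP_0421d9_ag.LD

open MvPolynomial Module

theorem zm_two_choose (n : ℕ) : 2 * (n + 1).choose 2 = n * (n + 1) := by
  rw [Nat.choose_two_right]
  have h : 2 ∣ (n + 1) * (n + 1 - 1) := by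
    rw [Nat.add_sub_cancel, mul_comm]
    exact (Nat.even_mul_succ_self n).two_dvd
  rw [Nat.mul_div_cancel' h, Nat.add_sub_cancel, mul_comm]

theorem zm_two_choose' (n : ℕ) : (2 : ℤ) * (n.choose 2 : ℕ) = n * (n - 1) := by
  rcases n with _ | n
  · simp
  · have h := zm_two_choose n
    push_cast
    have h2 : ((2 * (n + 1).choose 2 : ℕ) : ℤ) = ((n * (n + 1) : ℕ) : ℤ) := by rw [h]
    push_cast at h2
    linarith

theorem choose_le_rows {D κ : ℕ} (h : κ ≤ D + 1) : κ.choose 2 ≤ κ * (D + 1) := by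
  have h1 := zm_two_choose' κ
  have h3 : (2 : ℤ) * (κ.choose 2 : ℕ) ≤ 2 * (κ * (D + 1)) := by
    rw [h1]
    have h4 : (κ : ℤ) ≤ D + 1 := by exact_mod_cast h
    have h5 : (0 : ℤ) ≤ κ := Int.natCast_nonneg κ
    nlinarith
  have h6 : ((2 * κ.choose 2 : ℕ) : ℤ) ≤ ((2 * (κ * (D + 1)) : ℕ) : ℤ) := by
    push_cast
    linarith
  have h7 : 2 * κ.choose 2 ≤ 2 * (κ * (D + 1)) := by exact_mod_cast h6
  omega

theorem Frow_int {D κ : ℕ} (h : κ ≤ D + 1) :
    2 * (Frow D κ : ℤ) = 2 * κ * (D + 1) - κ * (κ - 1) := by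
  have h1 := zm_two_choose' κ
  have h2 := choose_le_rows h
  unfold Frow
  rw [Nat.cast_sub h2]
  push_cast
  linarith

/-- the numbers of points and their multiplicities -/
theorem zm_bounds {D u κ ω p N C : ℕ} (hω : p * ω ≤ u) (hp : 4096 ≤ p) (hu : 100 * p ^ 2 ≤ u)
    (hD : 1000 * p * u ≤ D) (hκ2 : κ ≤ u + 5 * ω) (hκ1 : u + ω ≤ κ)
    (hC1 : N * ((u - ω) * (u - ω + 1)) ≤ 2 * C) (hC2 : 2 * C ≤ N * (u * (u + 1)))
    (hF1 : κ * (D + 2) ≤ 2 * C) (hF2 : 2 * C ≤ 2 * ((κ + 1) * (D + 1))) :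
    N * u ≤ 3 * D ∧ D ≤ N * (u + 1) := by
  have hω2 : 4096 * ω ≤ u := (Nat.mul_le_mul_right ω hp).trans hω
  have hp2 : 4096 ^ 2 ≤ p ^ 2 := Nat.pow_le_pow_left hp 2
  have hu2 : 1000 ≤ u := by omega
  have hDu : 4096000 * u ≤ D := by
    refine le_trans (Nat.mul_le_mul_right u ?_) hD
    omega
  constructor
  · obtain ⟨v, hv⟩ : ∃ v, v + ω = u := ⟨u - ω, by omega⟩
    have hv' : u - ω = v := by omega
    rw [hv'] at hC1
    have h1 : N * (v * v) ≤ 2 * ((κ + 1) * (D + 1)) := by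
      refine le_trans ?_ (hC1.trans hF2)
      exact Nat.mul_le_mul_left _ (Nat.mul_le_mul_left _ (Nat.le_succ v))
    have h2 : 999 * u ≤ 1000 * v := by omega
    have h3 : 1000 * (κ + 1) ≤ 1006 * u := by omega
    have h4 : 1000 * (D + 1) ≤ 1001 * D := by omega
    have h5 : N * ((999 * u) * (999 * u)) ≤ 2 * ((1006 * u) * (1001 * D)) := by
      calc N * ((999 * u) * (999 * u)) ≤ N * ((1000 * v) * (1000 * v)) :=
            Nat.mul_le_mul_left _ (Nat.mul_le_mul h2 h2)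
        _ = 1000000 * (N * (v * v)) := by ring
        _ ≤ 1000000 * (2 * ((κ + 1) * (D + 1))) := Nat.mul_le_mul_left _ h1
        _ = 2 * ((1000 * (κ + 1)) * (1000 * (D + 1))) := by ring
        _ ≤ 2 * ((1006 * u) * (1001 * D)) :=
            Nat.mul_le_mul_left _ (Nat.mul_le_mul h3 h4)
    have h6 : u * (998001 * (N * u)) ≤ u * (2014012 * D) := by
      calc u * (998001 * (N * u)) = N * ((999 * u) * (999 * u)) := by ring
        _ ≤ 2 * ((1006 * u) * (1001 * D)) := h5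
        _ = u * (2014012 * D) := by ring
    have h7 := Nat.le_of_mul_le_mul_left h6 (by omega)
    omega
  · have h1 : u * D ≤ u * (N * (u + 1)) := by
      calc u * D ≤ κ * (D + 2) := Nat.mul_le_mul (by omega) (by omega)
        _ ≤ N * (u * (u + 1)) := hF1.trans hC2
        _ = u * (N * (u + 1)) := by ring
    exact Nat.le_of_mul_le_mul_left h1 (by omega)

/-- the sides of the rectangle: `E = (κ + 1) H` -/
theorem zm_sides {D u κ ω p N H B S t a : ℕ} (hω : p * ω ≤ u) (hω' : u < p * ω + p)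
    (hp : 4096 ≤ p) (hu : 100 * p ^ 2 ≤ u) (hD : 1000 * a * p * u ≤ D) (ha : 1 ≤ a)
    (hκ2 : κ ≤ u + 5 * ω) (hκ1 : u + ω ≤ κ) (hN1 : N * u ≤ 3 * D) (hN2 : D ≤ N * (u + 1))
    (hH : (κ + 1) * H = B + S) (hB : B ≤ D) (hS1 : N * (ω * ω) ≤ 2 * S)
    (hS2 : S ≤ N * (19 * (ω * ω))) (ht : 2 * t ≤ N) :
    p ^ 2 * H ≤ 58 * D ∧ 6 * a * (6 * ω + 1) + 1 + t ≤ H := by
  have hp2 : 4096 ^ 2 ≤ p ^ 2 := Nat.pow_le_pow_left hp 2
  have hpos : 0 < p ^ 2 := by positivity
  have hω2 : 4096 * ω ≤ u := (Nat.mul_le_mul_right ω hp).trans hω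
  have hsq : p ^ 2 * (ω * ω) ≤ u * u := by
    calc p ^ 2 * (ω * ω) = (p * ω) * (p * ω) := by ring
      _ ≤ u * u := Nat.mul_le_mul hω hω
  have hpp : p * 4096 ≤ p ^ 2 := by
    rw [pow_two]
    exact Nat.mul_le_mul_left _ hp
  have hωp : 100 * p ≤ ω + 1 := by
    by_contra hcon
    push Not at hcon
    have h1 : p * (ω + 2) ≤ p * (100 * p) := Nat.mul_le_mul_left _ (by omega)
    have h2 : p * (100 * p) = 100 * p ^ 2 := by ring
    have h3 : p * (ω + 2) = p * ω + 2 * p := by ring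
    omega
  have hu0 : 0 < u := by omega
  constructor
  · have h1 : u * (p ^ 2 * H) ≤ u * (58 * D) := by
      calc u * (p ^ 2 * H) ≤ (κ + 1) * (p ^ 2 * H) := Nat.mul_le_mul_right _ (by omega)
        _ = p ^ 2 * ((κ + 1) * H) := by ring
        _ = p ^ 2 * B + p ^ 2 * S := by rw [hH]; ring
        _ ≤ u * D + 57 * (u * D) := by
            apply Nat.add_le_add
            · exact Nat.mul_le_mul (by omega) hB
            · calc p ^ 2 * S ≤ p ^ 2 * (N * (19 * (ω * ω))) := Nat.mul_le_mul_left _ hS2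
                _ = 19 * (N * (p ^ 2 * (ω * ω))) := by ring
                _ ≤ 19 * (N * (u * u)) :=
                    Nat.mul_le_mul_left _ (Nat.mul_le_mul_left _ hsq)
                _ = 19 * u * (N * u) := by ring
                _ ≤ 19 * u * (3 * D) := Nat.mul_le_mul_left _ hN1
                _ = 57 * (u * D) := by ring
        _ = u * (58 * D) := by ring
    exact Nat.le_of_mul_le_mul_left h1 hu0
  · -- lower bound
    have h1 : 100 * u ≤ 101 * (p * ω) := by
      have h2 : 100 * p ≤ p * ω := by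
        rw [mul_comm 100 p]
        exact Nat.mul_le_mul_left _ (by omega)
      omega
    have h3 : 1000 * (κ + 1) ≤ 1006 * u := by omega
    have h4 : u * (10000 * 1000 * (N * u)) ≤ u * (10201 * 2 * 1006 * (p ^ 2 * H)) := by
      calc u * (10000 * 1000 * (N * u)) = 1000 * (N * ((100 * u) * (100 * u))) := by ring
        _ ≤ 1000 * (N * ((101 * (p * ω)) * (101 * (p * ω)))) :=
            Nat.mul_le_mul_left _ (Nat.mul_le_mul_left _ (Nat.mul_le_mul h1 h1))
        _ = 10201 * 1000 * p ^ 2 * (N * (ω * ω)) := by ring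
        _ ≤ 10201 * 1000 * p ^ 2 * (2 * (B + S)) := Nat.mul_le_mul_left _ (by omega)
        _ = 10201 * 2 * (p ^ 2 * H) * (1000 * (κ + 1)) := by rw [← hH]; ring
        _ ≤ 10201 * 2 * (p ^ 2 * H) * (1006 * u) := Nat.mul_le_mul_left _ h3
        _ = u * (10201 * 2 * 1006 * (p ^ 2 * H)) := by ring
    have h5 := Nat.le_of_mul_le_mul_left h4 hu0
    have h6 : 1000 * N ≤ N * u := by
      rw [mul_comm]
      exact Nat.mul_le_mul_left _ (by omega)
    have h7 : N * (u + 1) = N * u + N := by ring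
    have h8 : D ≤ 3 * (p ^ 2 * H) := by omega
    -- `t` is small
    have h9 : 200 * (p ^ 2 * t) ≤ 3 * D := by
      calc 200 * (p ^ 2 * t) = (2 * t) * (100 * p ^ 2) := by ring
        _ ≤ N * u := Nat.mul_le_mul ht hu
        _ ≤ 3 * D := hN1
    have h10 : p ^ 2 * (6 * a * (6 * ω + 1) + 1) ≤ 37 * (a * p * u) := by
      calc p ^ 2 * (6 * a * (6 * ω + 1) + 1) ≤ p ^ 2 * (a * (37 * ω)) := by
            apply Nat.mul_le_mul_left
            have h11 : a * 7 ≤ a * ω := Nat.mul_le_mul_left _ (by omega)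
            have h12 : 6 * a * (6 * ω + 1) = 36 * (a * ω) + 6 * a := by ring
            have h13 : a * (37 * ω) = 37 * (a * ω) := by ring
            omega
        _ = 37 * (a * p * (p * ω)) := by ring
        _ ≤ 37 * (a * p * u) := Nat.mul_le_mul_left _ (Nat.mul_le_mul_left _ hω)
    have h11 : 1000 * (a * p * u) ≤ D := by
      refine le_trans (le_of_eq ?_) hD
      ring
    have h12 : p ^ 2 * (6 * a * (6 * ω + 1) + 1 + t) ≤ p ^ 2 * H := by
      rw [mul_add]
      omega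
    exact Nat.le_of_mul_le_mul_left h12 hpos

/-- the room in the windows -/
theorem zm_room {D u κ ω p q g N T H K X : ℕ} (hω : p * ω ≤ u)
    (hg : 1 ≤ g) (hp : 40 * q + 2 ^ 12 * g ≤ p)
    (hD : 1000 * p * u ≤ D) (hTu : u ^ 2 ≤ T * D) (hω3 : 7 ≤ ω)
    (hκ2 : κ ≤ u + 5 * ω) (hN1 : N * u ≤ 3 * D)
    (hK : K ≤ N * (6 * ω)) (hH : p ^ 2 * H ≤ 58 * D) (hX : D ≤ g * X) :
    T * (22 * K + 25 * H + 25 * κ + 23) + 6 * (6 * ω + 1) ^ 2 ≤ T * (2 * X) := by
  have hgp : 4096 * g ≤ p := by omega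
  have hp1 : 1 ≤ p := by omega
  have hgpp : 4096 * 4096 * g ≤ p ^ 2 := by
    calc 4096 * 4096 * g = (4096 * g) * 4096 := by ring
      _ ≤ p * p := Nat.mul_le_mul hgp (by omega)
      _ = p ^ 2 := by ring
  -- the four terms
  have e1 : 4096 * (g * K) ≤ 18 * D := by
    calc 4096 * (g * K) = 4096 * g * K := by ring
      _ ≤ p * (N * (6 * ω)) := Nat.mul_le_mul hgp hK
      _ = 6 * (N * (p * ω)) := by ring
      _ ≤ 6 * (N * u) := Nat.mul_le_mul_left _ (Nat.mul_le_mul_left _ hω)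
      _ ≤ 18 * D := by omega
  have e2 : 4096 * 4096 * (g * H) ≤ 58 * D := by
    calc 4096 * 4096 * (g * H) = 4096 * 4096 * g * H := by ring
      _ ≤ p ^ 2 * H := Nat.mul_le_mul_right _ hgpp
      _ ≤ 58 * D := hH
  have e3 : 4096000 * (g * u) ≤ D := by
    calc 4096000 * (g * u) = 1000 * (4096 * g) * u := by ring
      _ ≤ 1000 * p * u := Nat.mul_le_mul_right _ (Nat.mul_le_mul_left _ hgp)
      _ ≤ D := hD
  have e4 : 4096 * 4096 * (g * (ω * ω)) ≤ T * D := by
    calc 4096 * 4096 * (g * (ω * ω)) = 4096 * 4096 * g * (ω * ω) := by ring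
      _ ≤ p ^ 2 * (ω * ω) := Nat.mul_le_mul_right _ hgpp
      _ = (p * ω) * (p * ω) := by ring
      _ ≤ u * u := Nat.mul_le_mul hω hω
      _ = u ^ 2 := by ring
      _ ≤ T * D := hTu
  have e5 : (6 * ω + 1) ^ 2 ≤ 49 * (ω * ω) := by
    calc (6 * ω + 1) ^ 2 ≤ (7 * ω) ^ 2 := Nat.pow_le_pow_left (by omega) 2
      _ = 49 * (ω * ω) := by ring
  have hω4 : ω ≤ u := le_trans (Nat.le_mul_of_pos_left ω hp1) hω
  have e6 : g * (25 * κ + 23) ≤ 200 * (g * u) := by
    calc g * (25 * κ + 23) ≤ g * (200 * u) := Nat.mul_le_mul_left _ (by omega)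
      _ = 200 * (g * u) := by ring
  have e7 : g * (22 * K + 25 * H + 25 * κ + 23) ≤ D := by
    have h1 : g * (22 * K + 25 * H + 25 * κ + 23) =
        22 * (g * K) + 25 * (g * H) + g * (25 * κ + 23) := by ring
    rw [h1]
    omega
  have e8 : g * (6 * (6 * ω + 1) ^ 2) ≤ T * D := by
    calc g * (6 * (6 * ω + 1) ^ 2) ≤ g * (6 * (49 * (ω * ω))) :=
          Nat.mul_le_mul_left _ (Nat.mul_le_mul_left _ e5)
      _ = 294 * (g * (ω * ω)) := by ring
      _ ≤ 4096 * 4096 * (g * (ω * ω)) := Nat.mul_le_mul_right _ (by norm_num)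
      _ ≤ T * D := e4
  have e9 : g * (T * (22 * K + 25 * H + 25 * κ + 23) + 6 * (6 * ω + 1) ^ 2) ≤
      g * (T * (2 * X)) := by
    calc g * (T * (22 * K + 25 * H + 25 * κ + 23) + 6 * (6 * ω + 1) ^ 2)
        = T * (g * (22 * K + 25 * H + 25 * κ + 23)) + g * (6 * (6 * ω + 1) ^ 2) := by ring
      _ ≤ T * D + T * D := Nat.add_le_add (Nat.mul_le_mul_left _ e7) e8
      _ = 2 * T * D := by ring
      _ ≤ 2 * T * (g * X) := Nat.mul_le_mul_left _ hX
      _ = g * (T * (2 * X)) := by ring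
  exact Nat.le_of_mul_le_mul_left e9 (by omega)

/-- **The middle of a row.** The conditions at the points `e j` end in the middle of a row. -/
theorem plane_middle {T q a p g D r u κ t : ℕ} (hW : WinR T q a) (hT : 1 ≤ T) (hq : 2 ≤ q)
    (ha : 2 ≤ a) (hg : 1 ≤ g) (hp : 40 * q + 2 ^ 12 * g ≤ p) (hu : 100 * p ^ 2 ≤ u)
    (hD : 1000 * a * p * u ≤ D) (hTu : u ^ 2 ≤ T * D) {y : Fin r → ℕ} (P : Finset (Fin r))
    (hP : ∀ i ∈ P, y i ≤ u ∧ u ≤ y i + u / p) (e : Fin (2 * t + 1) → Fin r)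
    (he : Function.Injective e) (heP : ∀ j, e j ∈ P) (hκ1 : u + u / p ≤ κ)
    (hκ2 : κ ≤ u + 5 * (u / p))
    (h1 : D + g * Frow D κ ≤ g * ∑ j, (y (e j) + 1).choose 2)
    (h2 : g * ∑ j, (y (e j) + 1).choose 2 + D ≤ g * Frow D (κ + 1)) :
    StripGain D (8 * g) P y u := by
  have hp4 : 4096 ≤ p := by omega
  have hp0 : 0 < p := by omega
  obtain ⟨ω, hω⟩ : ∃ ω, ω = u / p := ⟨_, rfl⟩
  rw [← hω] at hκ1 hκ2
  have hω1 : p * ω ≤ u := by
    rw [hω]
    exact Nat.mul_div_le u p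
  have hω2 : u < p * ω + p := by
    have h3 := Nat.div_add_mod u p
    have h4 := Nat.mod_lt u hp0
    rw [← hω] at h3
    omega
  have hyu : ∀ j, y (e j) ≤ u := fun j => (hP _ (heP j)).1
  have hyl : ∀ j, u ≤ y (e j) + ω := fun j => by
    have := (hP _ (heP j)).2
    rwa [← hω] at this
  have hω4 : 4096 * ω ≤ u := (Nat.mul_le_mul_right ω hp4).trans hω1
  have hp2 : 4096 ^ 2 ≤ p ^ 2 := Nat.pow_le_pow_left hp4 2
  have hDpu : 1000 * p * u ≤ D := by
    refine le_trans ?_ hD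
    calc 1000 * p * u = 1 * (1000 * p * u) := by ring
      _ ≤ a * (1000 * p * u) := Nat.mul_le_mul_right _ (by omega)
      _ = 1000 * a * p * u := by ring
  have hDu : 4096000 * u ≤ D := le_trans (Nat.mul_le_mul_right u (by omega)) hDpu
  have hω100 : 100 * p ≤ ω + 1 := by
    by_contra hcon
    push Not at hcon
    have h3 : p * (ω + 2) ≤ p * (100 * p) := Nat.mul_le_mul_left _ (by omega)
    have h4 : p * (100 * p) = 100 * p ^ 2 := by ring
    have h5 : p * (ω + 2) = p * ω + 2 * p := by ring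
    omega
  have hκD : κ + 1 ≤ D := by omega
  obtain ⟨N, hN⟩ : ∃ N, N = 2 * t + 1 := ⟨_, rfl⟩
  have hcard : ∀ c : ℕ, ∑ _i : Fin (2 * t + 1), c = N * c := fun c => by
    rw [hN]
    simp
  obtain ⟨C, hC⟩ : ∃ C, C = ∑ j, (y (e j) + 1).choose 2 := ⟨_, rfl⟩
  rw [← hC] at h1 h2
  have hC1 : N * ((u - ω) * (u - ω + 1)) ≤ 2 * C := by
    rw [hC, Finset.mul_sum, ← hcard]
    apply Finset.sum_le_sum
    intro j _
    rw [zm_two_choose]
    have h3 := hyl j
    exact Nat.mul_le_mul (by omega) (by omega)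
  have hC2 : 2 * C ≤ N * (u * (u + 1)) := by
    rw [hC, Finset.mul_sum, ← hcard]
    apply Finset.sum_le_sum
    intro j _
    rw [zm_two_choose]
    have h3 := hyu j
    exact Nat.mul_le_mul h3 (by omega)
  -- the rows
  have hF1 := Frow_int (D := D) (κ := κ) (by omega)
  have hF2 := Frow_int (D := D) (κ := κ + 1) (by omega)
  have hFC1 : Frow D κ ≤ C := by
    by_contra hcon
    push Not at hcon
    have := Nat.mul_le_mul_left g hcon.le
    omega
  have hFC2 : C ≤ Frow D (κ + 1) := by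
    by_contra hcon
    push Not at hcon
    have := Nat.mul_le_mul_left g hcon.le
    omega
  obtain ⟨A, hA⟩ : ∃ A, A + Frow D κ = C := ⟨C - Frow D κ, by omega⟩
  obtain ⟨B, hB⟩ : ∃ B, B + C = Frow D (κ + 1) := ⟨Frow D (κ + 1) - C, by omega⟩
  have hgA : D ≤ g * A := by
    rw [← hA, mul_add] at h1
    omega
  have hgB : D ≤ g * B := by
    rw [← hB, mul_add] at h2
    omega
  have hABz : (A : ℤ) + B + κ = D + 1 := by
    have h3 : (A : ℤ) + Frow D κ = C := by exact_mod_cast hA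
    have h4 : (B : ℤ) + C = Frow D (κ + 1) := by exact_mod_cast hB
    push_cast at hF2
    linarith
  have hAB : A + B + κ = D + 1 := by exact_mod_cast hABz
  have hfF1 : κ * (D + 2) ≤ 2 * C := by
    have h3 : κ * (D + 2) ≤ 2 * Frow D κ := by
      have h4 : ((κ * (D + 2) : ℕ) : ℤ) ≤ ((2 * Frow D κ : ℕ) : ℤ) := by
        push_cast
        rw [hF1]
        have h5 : (κ : ℤ) + 1 ≤ D := by exact_mod_cast hκD
        have h6 : (0 : ℤ) ≤ κ := Int.natCast_nonneg κ
        nlinarith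
      exact_mod_cast h4
    omega
  have hfF2 : 2 * C ≤ 2 * ((κ + 1) * (D + 1)) := by
    have h3 : Frow D (κ + 1) ≤ (κ + 1) * (D + 1) := Nat.sub_le _ _
    omega
  obtain ⟨hN1, hN2⟩ := zm_bounds hω1 hp4 hu hDpu hκ2 hκ1 hC1 hC2 hfF1 hfF2
  -- the multiplicities on the rectangle
  obtain ⟨k, hkd⟩ : ∃ k : Fin (2 * t + 1) → ℕ, ∀ i, k i = κ - y (e i) :=
    ⟨fun i => κ - y (e i), fun i => rfl⟩
  have hyk : ∀ i, y (e i) + k i = κ := fun i => by
    have := hkd i; have := hyu i; omega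
  have hk1 : ∀ i, ω ≤ k i := fun i => by
    have := hyk i; have := hyu i; omega
  have hk6 : ∀ i, k i ≤ 6 * ω := fun i => by
    have := hyk i; have := hyl i; omega
  obtain ⟨S, hS⟩ : ∃ S, S = ∑ i, (k i + 1).choose 2 := ⟨_, rfl⟩
  obtain ⟨K, hK⟩ : ∃ K, K = ∑ i, k i := ⟨_, rfl⟩
  obtain ⟨W, hWs⟩ : ∃ W, W = ∑ i, y (e i) := ⟨_, rfl⟩
  obtain ⟨Q, hQ⟩ : ∃ Q, Q = ∑ i, k i ^ 2 := ⟨_, rfl⟩
  obtain ⟨S', hS'⟩ : ∃ S', S' = ∑ i, (k i - 1 + 1).choose 2 := ⟨_, rfl⟩
  obtain ⟨Q', hQ'⟩ : ∃ Q', Q' = ∑ i, (k i - 1) ^ 2 := ⟨_, rfl⟩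
  have hWK : W + K = N * κ := by
    rw [hWs, hK, ← Finset.sum_add_distrib, ← hcard]
    exact Finset.sum_congr rfl fun i _ => hyk i
  have hQS : Q + K = 2 * S := by
    rw [hQ, hK, hS, Finset.mul_sum, ← Finset.sum_add_distrib]
    refine Finset.sum_congr rfl fun i _ => ?_
    rw [zm_two_choose]
    ring
  have hS'K : S' + K = S := by
    rw [hS', hK, hS, ← Finset.sum_add_distrib]
    refine Finset.sum_congr rfl fun i _ => ?_
    have h3 := hk1 i
    rw [Nat.sub_add_cancel (by omega), Nat.choose_succ_succ' (k i) 1, Nat.choose_one_right]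
    ring
  have hQ'Q : Q' + 2 * K = Q + N := by
    rw [hQ', hK, hQ, Finset.mul_sum, ← Finset.sum_add_distrib]
    have h3 : N = N * 1 := (Nat.mul_one N).symm
    rw [h3, ← hcard, ← Finset.sum_add_distrib]
    refine Finset.sum_congr rfl fun i _ => ?_
    have h3 := hk1 i
    obtain ⟨w, hw⟩ : ∃ w, k i = w + 1 := ⟨k i - 1, by omega⟩
    rw [hw, Nat.add_sub_cancel]
    ring
  have hS1 : N * (ω * ω) ≤ 2 * S := by
    rw [hS, Finset.mul_sum, ← hcard]
    apply Finset.sum_le_sum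
    intro i _
    rw [zm_two_choose]
    have h3 := hk1 i
    exact Nat.mul_le_mul h3 (by omega)
  have hS2 : S ≤ N * (19 * (ω * ω)) := by
    have h3 : 2 * S ≤ N * ((6 * ω) * (6 * ω + 1)) := by
      rw [hS, Finset.mul_sum, ← hcard]
      apply Finset.sum_le_sum
      intro i _
      rw [zm_two_choose]
      have h3 := hk6 i
      exact Nat.mul_le_mul h3 (by omega)
    have h4 : (6 * ω) * (6 * ω + 1) ≤ 2 * (19 * (ω * ω)) := by
      have h5 : (6 * ω) * (6 * ω + 1) = 36 * (ω * ω) + 6 * ω := by ring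
      have h6 : 6 * ω ≤ ω * ω := Nat.mul_le_mul_right _ (by omega)
      omega
    have h5 : 2 * S ≤ 2 * (N * (19 * (ω * ω))) := by
      refine h3.trans ((Nat.mul_le_mul_left N h4).trans (le_of_eq ?_))
      ring
    omega
  have hK6 : K ≤ N * (6 * ω) := by
    rw [hK, ← hcard]
    exact Finset.sum_le_sum fun i _ => hk6 i
  -- the sides
  have hid : (2 : ℤ) * S = N * (κ * (κ + 1)) - 2 * (κ + 1) * W + 2 * C := by
    have h3 : ∀ i, (2 : ℤ) * ((k i + 1).choose 2 : ℕ) =
        κ * (κ + 1) - 2 * (κ + 1) * y (e i) + 2 * ((y (e i) + 1).choose 2 : ℕ) := by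
      intro i
      have h4 : ((2 * (k i + 1).choose 2 : ℕ) : ℤ) = ((k i * (k i + 1) : ℕ) : ℤ) := by
        rw [zm_two_choose]
      have h5 : ((2 * (y (e i) + 1).choose 2 : ℕ) : ℤ) = ((y (e i) * (y (e i) + 1) : ℕ) : ℤ) := by
        rw [zm_two_choose]
      push_cast at h4 h5
      have h6 : (y (e i) : ℤ) + k i = κ := by exact_mod_cast hyk i
      push_cast
      rw [h4, h5, ← h6]
      ring
    have h7 : (2 : ℤ) * S = ∑ i, (2 : ℤ) * ((k i + 1).choose 2 : ℕ) := by
      rw [hS, ← Finset.mul_sum]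
      push_cast
      rfl
    rw [h7, Finset.sum_congr rfl (fun i _ => h3 i), Finset.sum_add_distrib,
      Finset.sum_sub_distrib, ← Finset.mul_sum, ← Finset.mul_sum, ← Finset.mul_sum, hWs, hC, hN]
    simp only [Finset.sum_const, Finset.card_univ, Fintype.card_fin]
    rw [nsmul_eq_mul]
    push_cast
    ring
  obtain ⟨Hz, hHz⟩ : ∃ Hz : ℤ, Hz + W = D + κ * t + 1 := ⟨D + κ * t + 1 - W, by ring⟩
  have hNz : (N : ℤ) = 2 * t + 1 := by
    rw [hN]
    push_cast
    ring
  have hAz : (A : ℤ) + Frow D κ = C := by exact_mod_cast hA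
  have hBz : (B : ℤ) + C = Frow D (κ + 1) := by exact_mod_cast hB
  push_cast at hF2
  have hHz2 : (κ + 1) * Hz = B + S := by
    have h3 : (2 : ℤ) * ((κ + 1) * Hz) = 2 * (B + S) := by
      have h4 : Hz = D + κ * t + 1 - W := by linarith
      rw [h4]
      linear_combination (-2 : ℤ) * hBz - hF2 - hid - (κ * (κ + 1) : ℤ) * hNz
    linarith
  have hHz0 : 0 ≤ Hz := by
    by_contra hcon
    push Not at hcon
    have h3 : ((κ : ℤ) + 1) * Hz < 0 := mul_neg_of_pos_of_neg (by positivity) hcon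
    have h4 : (0 : ℤ) ≤ B + S := by positivity
    linarith
  obtain ⟨H, rfl⟩ := Int.eq_ofNat_of_zero_le hHz0
  have hHW : H + W = D + κ * t + 1 := by exact_mod_cast hHz
  have hHBS : (κ + 1) * H = B + S := by exact_mod_cast hHz2
  obtain ⟨hH1, hH2⟩ := zm_sides (a := a) (t := t) hω1 hω2 hp4 hu hD (by omega) hκ2 hκ1 hN1 hN2
    hHBS (by omega) hS1 hS2 (by omega)
  have hqω : 6 * q * (6 * ω + 1) + 1 ≤ κ := by
    have h3 : 40 * (q * ω) ≤ u := by
      calc 40 * (q * ω) = (40 * q) * ω := by ring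
        _ ≤ p * ω := Nat.mul_le_mul_right _ (by omega)
        _ ≤ u := hω1
    have h4 : 6 * q * (6 * ω + 1) = 36 * (q * ω) + 6 * q := by ring
    have h5 : p * 1 ≤ p ^ 2 := by
      rw [pow_two]
      exact Nat.mul_le_mul_left _ (by omega)
    omega
  -- regularity
  have hreg : hRm H (κ + 1) k + S = H * (κ + 1) := by
    rw [hRm_swap]
    have h3 := (hW (2 * t + 1) (6 * ω) (κ + 1) H k (by omega) hk6 (by omega) (by omega)).2 ?_
    · rw [← hS] at h3
      rw [h3]
      ring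
    · rw [← hQ, ← hK]
      have hroom := zm_room (κ := κ) hω1 hg hp hDpu hTu (by omega) hκ2 hN1 hK6 hH1 hgB
      have h4 : κ + 1 - 1 = κ := by omega
      rw [h4]
      obtain ⟨H', rfl⟩ : ∃ H', H = H' + 1 := ⟨H - 1, by omega⟩
      rw [Nat.add_sub_cancel]
      have h5 : Q + 23 * (K + (κ + 1) + (H' + 1)) + 2 * B =
          22 * K + 25 * (H' + 1) + 25 * κ + 23 + 2 * (κ * H') := by
        have h6 : (κ + 1) * (H' + 1) = κ * H' + κ + H' + 1 := by ring
        omega
      have h6 : T * (Q + 23 * (K + (κ + 1) + (H' + 1))) + 6 * (6 * ω + 1) ^ 2 + T * (2 * B) ≤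
          T * (2 * (κ * H')) + T * (2 * B) := by
        calc T * (Q + 23 * (K + (κ + 1) + (H' + 1))) + 6 * (6 * ω + 1) ^ 2 + T * (2 * B)
            = T * (Q + 23 * (K + (κ + 1) + (H' + 1)) + 2 * B) + 6 * (6 * ω + 1) ^ 2 := by ring
          _ = T * (22 * K + 25 * (H' + 1) + 25 * κ + 23 + 2 * (κ * H')) +
              6 * (6 * ω + 1) ^ 2 := by rw [h5]
          _ = (T * (22 * K + 25 * (H' + 1) + 25 * κ + 23) + 6 * (6 * ω + 1) ^ 2) +
              T * (2 * (κ * H')) := by ring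
          _ ≤ T * (2 * B) + T * (2 * (κ * H')) := Nat.add_le_add_right hroom _
          _ = T * (2 * (κ * H')) + T * (2 * B) := by ring
      exact Nat.le_of_add_le_add_right h6
  -- emptiness
  obtain ⟨H₁, hH₁⟩ : ∃ H₁, H₁ + t = H := ⟨H - t, by omega⟩
  have hid2 : κ * H₁ + A + K = S := by
    have h3 : (2 : ℤ) * (κ * H₁ + A + K) = 2 * S := by
      have h4 : (H₁ : ℤ) = D + κ * t + 1 - W - t := by
        have h5 : (H₁ : ℤ) + t = H := by exact_mod_cast hH₁
        linarith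
      have h5 : (W : ℤ) + K = N * κ := by exact_mod_cast hWK
      rw [h4]
      linear_combination (2 : ℤ) * hAz - hF1 - hid - (κ * (κ - 1) : ℤ) * hNz + 2 * h5
    have h4 : ((2 * (κ * H₁ + A + K) : ℕ) : ℤ) = ((2 * S : ℕ) : ℤ) := by
      push_cast
      exact h3
    have h5 : 2 * (κ * H₁ + A + K) = 2 * S := by exact_mod_cast h4
    omega
  have hemp : hRm H₁ κ (fun i => k i - 1) = 0 := by
    rw [hRm_swap]
    refine (hW (2 * t + 1) (6 * ω) κ H₁ (fun i => k i - 1) (by omega) (fun i => ?_) (by omega)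
      (by omega)).1 ?_
    · have := hk6 i
      omega
    · rw [← hQ']
      have hroom := zm_room (κ := κ) hω1 hg hp hDpu hTu (by omega) hκ2 hN1 hK6 hH1 hgA
      obtain ⟨H', rfl⟩ : ∃ H', H₁ = H' + 1 := ⟨H₁ - 1, by omega⟩
      obtain ⟨κ', rfl⟩ : ∃ κ', κ = κ' + 1 := ⟨κ - 1, by omega⟩
      rw [Nat.add_sub_cancel, Nat.add_sub_cancel]
      have h5 : 2 * (κ' * H') + 2 * A ≤ Q' + K := by
        have h6 : (κ' + 1) * (H' + 1) = κ' * H' + κ' + H' + 1 := by ring
        omega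
      have h7 : (6 * ω) ^ 2 ≤ (6 * ω + 1) ^ 2 := Nat.pow_le_pow_left (by omega) 2
      have h8 : T * K + 6 * (6 * ω) ^ 2 ≤ T * (2 * A) := by
        refine le_trans ?_ hroom
        apply Nat.add_le_add
        · exact Nat.mul_le_mul_left _ (by omega)
        · exact Nat.mul_le_mul_left _ h7
      have h9 : T * (2 * (κ' * H')) + 6 * (6 * ω) ^ 2 + T * K ≤ T * Q' + T * K := by
        calc T * (2 * (κ' * H')) + 6 * (6 * ω) ^ 2 + T * K
            = T * (2 * (κ' * H')) + (T * K + 6 * (6 * ω) ^ 2) := by ring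
          _ ≤ T * (2 * (κ' * H')) + T * (2 * A) := Nat.add_le_add_left h8 _
          _ = T * (2 * (κ' * H') + 2 * A) := by ring
          _ ≤ T * (Q' + K) := Nat.mul_le_mul_left _ h5
          _ = T * Q' + T * K := by ring
      exact Nat.le_of_add_le_add_right h9
  -- the strip
  have ht1 : 1 ≤ t := by
    by_contra hcon
    have h3 : t = 0 := by omega
    subst h3
    rw [hN] at hN2
    omega
  have hB1 : hFm D κ (y ∘ e) ≤ B := by
    have h3 := transform_m (D := D) (κ := κ) (t := t) (H := H) (u := y ∘ e) ht1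
      (fun i => by have := hyk i; simp only [Function.comp]; omega) (by omega) (by
        simp only [Function.comp]
        rw [← hWs]
        exact hHW)
    have h4 : (fun i => κ - (y ∘ e) i) = k := by
      funext i
      rw [hkd i]
      rfl
    rw [h4] at h3
    have h5 : H * (κ + 1) = (κ + 1) * H := Nat.mul_comm _ _
    omega
  have hB0 : hFm D (κ - 1) (y ∘ e) = 0 := by
    have h3 := transform_m (D := D) (κ := κ - 1) (t := t) (H := H₁) (u := y ∘ e) ht1
      (fun i => by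
        have := hyk i; have := hk1 i; simp only [Function.comp]; omega) (by omega) (by
        simp only [Function.comp]
        rw [← hWs]
        have h4 : (κ - 1) * t + t = κ * t := by
          obtain ⟨κ', rfl⟩ : ∃ κ', κ = κ' + 1 := ⟨κ - 1, by omega⟩
          rw [Nat.add_sub_cancel]
          ring
        omega)
    have h4 : (fun i => κ - 1 - (y ∘ e) i) = fun i => k i - 1 := by
      funext i
      rw [hkd i]
      simp only [Function.comp]
      omega
    have h5 : κ - 1 + 1 = κ := by omega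
    rw [h4, h5, hemp] at h3
    omega
  have hstrip := kills_of_hFm (B := B) (by omega) (by omega) (by omega) hB1 hB0
  have hDA : D - κ + 1 - B = A := by omega
  rw [hDA] at hstrip
  have hW3 : W ≤ 3 * D := by
    refine le_trans ?_ hN1
    rw [hWs, ← hcard]
    exact Finset.sum_le_sum fun i _ => hyu i
  refine ⟨κ, A, rest e y, W, ⟨2 * t + 1, e, he, by omega, hκD, by omega, ?_, hstrip, rfl⟩, ?_, ?_,
    by omega, ?_, ?_, ?_⟩
  · rw [← hC]
    have h4 : Frow D κ + κ.choose 2 = κ * (D + 1) :=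
      Nat.sub_add_cancel (choose_le_rows (by omega))
    omega
  · intro i hi
    apply rest_not_mem
    rintro ⟨j, rfl⟩
    exact hi (heP j)
  · have h3 := mp_sum_rest he y (fun n => n) rfl
    rw [← hWs] at h3
    omega
  · have h3 : y (e 0) ≤ W := by
      rw [hWs]
      exact Finset.single_le_sum (f := fun i => y (e i)) (fun i _ => Nat.zero_le _)
        (Finset.mem_univ 0)
    have := hyl 0
    omega
  · have h3 : 8 * g * A = 8 * (g * A) := by ring
    omega
  · have h3 : D - κ + 1 - A = B := by omega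
    have h4 : 8 * g * B = 8 * (g * B) := by ring
    rw [h3]
    omega

end Pool.Agent.Work.MP_0421d9_ag.LD
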