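import Pool.Agent.Work.MP_0421d9_ag.ZDefs2
import Pool.Agent.Work.MP_0421d9_ag.ZPMid

/-!
Strips of the plane for moderate multiplicities, not all equal: the points are exchanged one after
the other until the strip ends in the middle of a row (helper37, after the plan of helper69).
-/

namespace Pool.Agent.Work.MP_0421d9_ag.LD

open MvPolynomial Module

/-! ### enumeration by increasing multiplicity -/

theorem zb_enum {r : ℕ} (P : Finset (Fin r)) (y : Fin r → ℕ) (hs : 0 < P.card) :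
    ∃ b : ℕ → Fin r, (∀ l, l < P.card → b l ∈ P) ∧
      (∀ l, l < P.card → ∀ l', l' < P.card → b l = b l' → l = l') ∧
      ∀ l l', l ≤ l' → l' < P.card → y (b l) ≤ y (b l') := by
  classical
  let φ : Fin P.card ≃ P := P.equivFin.symm
  let f : Fin P.card → ℕ := fun i => y (φ i)
  let σ := Tuple.sort f
  have hσ : Monotone (f ∘ σ) := Tuple.monotone_sort f
  refine ⟨fun l => if h : l < P.card then (φ (σ ⟨l, h⟩) : Fin r) else φ (σ ⟨0, hs⟩), ?_, ?_, ?_⟩
  · intro l hl
    simp only [dif_pos hl]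
    exact (φ _).2
  · intro l hl l' hl' h
    simp only [dif_pos hl, dif_pos hl'] at h
    have h1 := σ.injective (φ.injective (Subtype.ext h))
    exact congrArg Fin.val h1
  · intro l l' hll hl'
    have hl : l < P.card := lt_of_le_of_lt hll hl'
    simp only [dif_pos hl, dif_pos hl']
    exact hσ (show (⟨l, hl⟩ : Fin P.card) ≤ ⟨l', hl'⟩ from hll)

theorem zb_strict {r n : ℕ} {P : Finset (Fin r)} {y : Fin r → ℕ} {b : ℕ → Fin r}
    (hb : ∀ l, l < P.card → b l ∈ P)
    (hinj : ∀ l, l < P.card → ∀ l', l' < P.card → b l = b l' → l = l')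
    (hmono : ∀ l l', l ≤ l' → l' < P.card → y (b l) ≤ y (b l'))
    (hn : ∀ i ∈ P, (P.filter (fun j => y j = y i)).card ≤ n) {l : ℕ} (hl : l + n < P.card) :
    y (b l) < y (b (l + n)) := by
  classical
  by_contra hcon
  push Not at hcon
  have hl0 : l < P.card := by omega
  have h1 := hn (b l) (hb l hl0)
  have h2 : (Finset.range (n + 1)).card ≤ (P.filter (fun j => y j = y (b l))).card := by
    refine Finset.card_le_card_of_injOn (fun m => b (l + m)) ?_ ?_
    · intro m hm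
      have hm' : m < n + 1 := Finset.mem_range.1 (Finset.mem_coe.1 hm)
      refine Finset.mem_coe.2 (Finset.mem_filter.2 ⟨hb _ (by omega), ?_⟩)
      exact le_antisymm ((hmono (l + m) (l + n) (by omega) hl).trans hcon)
        (hmono l (l + m) (by omega) (by omega))
    · intro m hm m' hm' h
      have h3 : m < n + 1 := Finset.mem_range.1 (Finset.mem_coe.1 hm)
      have h4 : m' < n + 1 := Finset.mem_range.1 (Finset.mem_coe.1 hm')
      have := hinj (l + m) (by omega) (l + m') (by omega) h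
      omega
  rw [Finset.card_range] at h2
  omega

/-! ### the chain of exchanges -/

/-- after `k` exchanges -/
def zbC (N n : ℕ) (c : ℕ → ℕ) (k : ℕ) : ℕ := ∑ l ∈ Finset.range N, c (if l < k then l + n else l)

theorem zbC_succ {N n : ℕ} (c : ℕ → ℕ) {k : ℕ} (hk : k < N) :
    zbC N n c (k + 1) + c k = zbC N n c k + c (k + n) := by
  unfold zbC
  rw [← Finset.add_sum_erase (Finset.range N) (fun l => c (if l < k + 1 then l + n else l))
      (Finset.mem_range.2 hk),
    ← Finset.add_sum_erase (Finset.range N) (fun l => c (if l < k then l + n else l))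
      (Finset.mem_range.2 hk)]
  simp only [if_pos (Nat.lt_succ_self k), if_neg (lt_irrefl k)]
  have h : ∑ l ∈ (Finset.range N).erase k, c (if l < k + 1 then l + n else l) =
      ∑ l ∈ (Finset.range N).erase k, c (if l < k then l + n else l) := by
    refine Finset.sum_congr rfl fun l hl => ?_
    have hne := Finset.ne_of_mem_erase hl
    by_cases h1 : l < k
    · rw [if_pos h1, if_pos (by omega)]
    · rw [if_neg h1, if_neg (by omega)]
  rw [h]
  ring

/-- discrete intermediate value theorem -/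
theorem zb_ivt {C : ℕ → ℕ} {N A δ : ℕ} (h0 : 8 * C 0 < A) (hN : A ≤ 8 * C N)
    (hstep : ∀ k, k < N → C (k + 1) ≤ C k + δ) :
    ∃ k, k ≤ N ∧ A ≤ 8 * C k ∧ 8 * C k < A + 8 * δ := by
  classical
  have hex : ∃ k, A ≤ 8 * C k := ⟨N, hN⟩
  have h1 := Nat.find_spec hex
  have h2 : Nat.find hex ≤ N := Nat.find_min' hex hN
  have h3 : Nat.find hex ≠ 0 := by
    intro h
    rw [h] at h1
    omega
  obtain ⟨m, hm⟩ := Nat.exists_eq_succ_of_ne_zero h3
  rw [hm] at h1 h2
  have h4 : ¬ A ≤ 8 * C m := Nat.find_min hex (by omega)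
  have h5 := hstep m (by omega)
  refine ⟨m + 1, h2, h1, ?_⟩
  have : C (m + 1) ≤ C m + δ := h5
  omega

theorem zb_row {D κ : ℕ} (h : κ ≤ D) : Frow D (κ + 1) + κ = Frow D κ + (D + 1) := by
  have h1 := Frow_int (D := D) (κ := κ) (by omega)
  have h2 := Frow_int (D := D) (κ := κ + 1) (by omega)
  push_cast at h2
  have h3 : 2 * ((Frow D (κ + 1) : ℤ) + κ) = 2 * ((Frow D κ : ℤ) + (D + 1)) := by
    linear_combination h2 - h1
  have h4 : (Frow D (κ + 1) : ℤ) + κ = (Frow D κ : ℤ) + (D + 1) := by linarith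
  exact_mod_cast h4

/-- some set of the chain ends in the middle of a row -/
theorem zb_middle {C : ℕ → ℕ} {N D κ₀ δ : ℕ} (hD : 64 ≤ D) (hκ : 8 * (κ₀ + 1) ≤ D)
    (h0 : Frow D κ₀ ≤ C 0) (h1 : C 0 < Frow D (κ₀ + 1)) (hδ : 14 * δ ≤ D)
    (hstep : ∀ k, k < N → C (k + 1) ≤ C k + δ) (hN : C 0 + D ≤ C N) :
    ∃ k κ, k ≤ N ∧ (κ = κ₀ ∨ κ = κ₀ + 1) ∧ D + 8 * Frow D κ ≤ 8 * C k ∧
      8 * C k + D ≤ 8 * Frow D (κ + 1) := by
  have hr0 := zb_row (D := D) (κ := κ₀) (by omega)
  have hr1 := zb_row (D := D) (κ := κ₀ + 1) (by omega)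
  by_cases hA : 8 * C 0 < D + 8 * Frow D κ₀
  · obtain ⟨k, hk, h2, h3⟩ := zb_ivt hA (by omega) hstep
    exact ⟨k, κ₀, hk, Or.inl rfl, h2, by omega⟩
  · by_cases hB : 8 * C 0 + D ≤ 8 * Frow D (κ₀ + 1)
    · exact ⟨0, κ₀, Nat.zero_le _, Or.inl rfl, by omega, hB⟩
    · obtain ⟨k, hk, h2, h3⟩ := zb_ivt (C := C) (N := N) (A := D + 8 * Frow D (κ₀ + 1)) (δ := δ)
        (by omega) (by omega) hstep
      exact ⟨k, κ₀ + 1, hk, Or.inr rfl, h2, by omega⟩

/-! ### numbers -/

/-- the numbers -/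
structure ZB (p u D ω η N n : ℕ) : Prop where
  p0 : 2 ^ 20 ≤ p
  ω1 : p * ω ≤ u
  ω2 : u < p * ω + p
  η1 : 64 * p ^ 2 * η ≤ u
  u0 : 100 * p ^ 2 ≤ u
  D0 : 2000 * (p * u) ≤ D
  D1 : u ^ 2 ≤ 4 * p ^ 2 * D
  N1 : N * (u * (u + 1)) ≤ 2 * ((u + 3 * ω) * D) + u * (u + 1)
  N2 : 2 * ((u + 3 * ω) * D) ≤ N * (u * (u + 1)) + u * (u + 1)
  n1 : n * (u - η) ≤ 4 * D
  n2 : ∀ m, m * (u - η) ≤ 4 * D → m ≤ n

namespace ZB

variable {p u D ω η N n : ℕ} (h : ZB p u D ω η N n)

include h

theorem pp : 2 ^ 20 * p ≤ p ^ 2 := by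
  rw [pow_two]
  exact Nat.mul_le_mul_right p h.p0

theorem ω3 : 2 ^ 20 * ω ≤ u := (Nat.mul_le_mul_right ω h.p0).trans h.ω1

theorem η3 : 2 ^ 20 * η ≤ u := by
  have h1 : 2 ^ 20 ≤ 64 * p ^ 2 := by
    have := h.p0
    have := h.pp
    omega
  exact (Nat.mul_le_mul_right η h1).trans h.η1

theorem ω4 : 1 ≤ ω := by
  by_contra hc
  have h1 : ω = 0 := by omega
  have h2 := h.ω2
  rw [h1] at h2
  have := h.u0
  have := h.pp
  have := h.p0
  omega

theorem ηω : 64 * p * η ≤ ω := by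
  by_contra hc
  push Not at hc
  have h1 : p * (ω + 1) ≤ p * (64 * p * η) := Nat.mul_le_mul_left p hc
  have h2 : p * (64 * p * η) = 64 * p ^ 2 * η := by ring
  have h3 := h.η1
  have h4 := h.ω2
  rw [mul_add, mul_one] at h1
  omega

theorem uu : u * (u + 1) ≤ ω * D := by
  have h1 : ω * (2000 * (p * u)) ≤ ω * D := Nat.mul_le_mul_left ω h.D0
  have h2 : ω * (2000 * (p * u)) = 2000 * ((p * ω) * u) := by ring
  have h3 : u + 1 ≤ 2000 * (p * ω) := by
    have := h.ω2
    have h4 : p ≤ p * ω := Nat.le_mul_of_pos_right p h.ω4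
    omega
  have h5 : (u + 1) * u ≤ 2000 * (p * ω) * u := Nat.mul_le_mul_right u h3
  have h6 : 2000 * (p * ω) * u = 2000 * ((p * ω) * u) := by ring
  have h7 : u * (u + 1) = (u + 1) * u := by ring
  omega

theorem Du : 2000 * u ≤ D := by
  have h1 : u ≤ p * u := Nat.le_mul_of_pos_left u (by have := h.p0; omega)
  have := h.D0
  omega

theorem F1 : 10 * (N * (u + 1)) ≤ 21 * D := by
  have h1 := h.N1
  have hu : 0 < u := by have := h.u0; have := h.pp; have := h.p0; omega
  have h2 : 10 * (N * (u + 1)) * u ≤ 21 * D * u := by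
    have h3 : 10 * (N * (u + 1)) * u = 10 * (N * (u * (u + 1))) := by ring
    have h4 : 120 * ω ≤ u := by have := h.ω3; omega
    have h5 : 120 * ω * D ≤ u * D := Nat.mul_le_mul_right D h4
    have h6 : 20 * (u + 1) ≤ D := by have := h.Du; omega
    have h7 : 20 * (u + 1) * u ≤ D * u := Nat.mul_le_mul_right u h6
    have h8 : 2 * ((u + 3 * ω) * D) = 2 * (u * D) + 6 * (ω * D) := by ring
    have h9 : 120 * ω * D = 120 * (ω * D) := by ring
    have h10 : 20 * (u + 1) * u = 20 * (u * (u + 1)) := by ring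
    have h11 : 21 * D * u = 21 * (u * D) := by ring
    have h12 : D * u = u * D := by ring
    omega
  exact Nat.le_of_mul_le_mul_right h2 hu

theorem F2 : 2 * D ≤ N * (u + 1) := by
  have h1 := h.N2
  have hu : 0 < u := by have := h.u0; have := h.pp; have := h.p0; omega
  have h2 : 2 * D * u ≤ N * (u + 1) * u := by
    have h3 : N * (u + 1) * u = N * (u * (u + 1)) := by ring
    have h8 : 2 * ((u + 3 * ω) * D) = 2 * (u * D) + 6 * (ω * D) := by ring
    have h4 := h.uu
    have h11 : 2 * D * u = 2 * (u * D) := by ring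
    omega
  exact Nat.le_of_mul_le_mul_right h2 hu

theorem ηu : η ≤ u := by have := h.η3; omega

/-- `(u - η) (u - η + 1) ≥ u (u + 1) - η (2 u + 1)` -/
theorem sq : u * (u + 1) ≤ (u - η) * (u - η + 1) + η * (2 * u + 1) := by
  obtain ⟨w, hw⟩ := Nat.exists_eq_add_of_le h.ηu
  have h1 : u - η = w := by omega
  rw [h1, hw]
  nlinarith

theorem step : 7 * (η * (2 * u + 1)) ≤ D := by
  have hp0 : 0 < 64 * p ^ 2 := by have := h.p0; positivity
  have h1 : 64 * p ^ 2 * (7 * (η * (2 * u + 1))) ≤ 64 * p ^ 2 * D := by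
    have h2 : 64 * p ^ 2 * (7 * (η * (2 * u + 1))) = 7 * ((64 * p ^ 2 * η) * (2 * u + 1)) := by
      ring
    have h3 : (64 * p ^ 2 * η) * (2 * u + 1) ≤ u * (2 * u + 1) :=
      Nat.mul_le_mul_right _ h.η1
    have h4 : 7 * (u * (2 * u + 1)) = 14 * u ^ 2 + 7 * u := by ring
    have h5 := h.D1
    have h6 : 64 * p ^ 2 * D = 16 * (4 * p ^ 2 * D) := by ring
    have h7 : D ≤ p ^ 2 * D := Nat.le_mul_of_pos_left D (by have := h.p0; positivity)
    have h8 : 4 * p ^ 2 * D = 4 * (p ^ 2 * D) := by ring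
    have h9 := h.Du
    omega
  exact Nat.le_of_mul_le_mul_left h1 hp0

theorem low : 2 * ((u + 2 * ω) * D) ≤ N * ((u - η) * (u - η + 1)) := by
  have h1 : N * (u * (u + 1)) ≤ N * ((u - η) * (u - η + 1)) + N * (η * (2 * u + 1)) := by
    rw [← mul_add]
    exact Nat.mul_le_mul_left N h.sq
  have h2 : N * (η * (2 * u + 1)) ≤ ω * D := by
    have h3 : N * (η * (2 * u + 1)) ≤ 2 * (η * (N * (u + 1))) := by
      have h4 : 2 * (η * (N * (u + 1))) = N * (η * (2 * u + 1)) + N * η := by ring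
      omega
    have h5 : η * (10 * (N * (u + 1))) ≤ η * (21 * D) := Nat.mul_le_mul_left η h.F1
    have h6 : 64 * η ≤ ω := by
      have h7 : 64 * η ≤ 64 * p * η := by
        have : 64 * 1 ≤ 64 * p := Nat.mul_le_mul_left 64 (by have := h.p0; omega)
        exact Nat.mul_le_mul_right η this
      exact h7.trans h.ηω
    have h8 : 64 * η * D ≤ ω * D := Nat.mul_le_mul_right D h6
    have h9 : η * (10 * (N * (u + 1))) = 10 * (η * (N * (u + 1))) := by ring
    have h10 : η * (21 * D) = 21 * (η * D) := by ring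
    have h11 : 64 * η * D = 64 * (η * D) := by ring
    omega
  have h3 := h.N2
  have h4 := h.uu
  have h5 : 2 * ((u + 3 * ω) * D) = 2 * (u * D) + 6 * (ω * D) := by ring
  have h6 : 2 * ((u + 2 * ω) * D) = 2 * (u * D) + 4 * (ω * D) := by ring
  omega

theorem tot : D ≤ N * (u - η) := by
  have h1 : N * (u + 1) ≤ 2 * (N * (u - η)) := by
    have h2 : u + 1 ≤ 2 * (u - η) := by have := h.η3; have := h.u0; have := h.pp; have := h.p0; omega
    have h3 := Nat.mul_le_mul_left N h2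
    have h4 : N * (2 * (u - η)) = 2 * (N * (u - η)) := by ring
    omega
  have := h.F2
  omega

theorem Nn : N ≤ n := by
  refine h.n2 N ?_
  have h1 : N * (u - η) ≤ N * (u + 1) := Nat.mul_le_mul_left N (by omega)
  have := h.F1
  omega

theorem count {s S : ℕ} (h1 : S ≤ s * u) (h2 : 8 * D ≤ S) : N + n ≤ s := by
  have hu : 0 < u := by have := h.u0; have := h.pp; have := h.p0; omega
  have h3 : (N + n) * u ≤ s * u := by
    have h4 : N * u ≤ N * (u + 1) := Nat.mul_le_mul_left N (by omega)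
    have h5 := h.F1
    have h6 : n * u = n * (u - η) + n * η := by
      rw [← mul_add, Nat.sub_add_cancel h.ηu]
    have h7 : 100 * η ≤ u - η := by have := h.η3; omega
    have h8 : n * (100 * η) ≤ n * (u - η) := Nat.mul_le_mul_left n h7
    have h9 : n * (100 * η) = 100 * (n * η) := by ring
    have h10 := h.n1
    have h11 : (N + n) * u = N * u + n * u := by ring
    omega
  exact Nat.le_of_mul_le_mul_right h3 hu

/-- `C < F (u + 5 ω)` -/
theorem high {C : ℕ} (hC : 2 * C ≤ N * (u * (u + 1))) : C < Frow D (u + 5 * ω) := by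
  have hK : u + 5 * ω ≤ D + 1 := by have := h.ω3; have := h.Du; omega
  have h1 := Frow_int (D := D) (κ := u + 5 * ω) hK
  have h2 := h.N1
  have h3 := h.uu
  -- `ω D ≥ 1000 u (u + 1)`
  have h4 : 1000 * (u * (u + 1)) ≤ ω * D := by
    have h1 : ω * (2000 * (p * u)) ≤ ω * D := Nat.mul_le_mul_left ω h.D0
    have h2 : ω * (2000 * (p * u)) = 1000 * ((2 * (p * ω)) * u) := by ring
    have h3 : u + 1 ≤ 2 * (p * ω) := by
      have := h.ω2
      have h4 : p ≤ p * ω := Nat.le_mul_of_pos_right p h.ω4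
      omega
    have h5 : (u + 1) * u ≤ (2 * (p * ω)) * u := Nat.mul_le_mul_right u h3
    have h7 : u * (u + 1) = (u + 1) * u := by ring
    omega
  have h5 : (u + 5 * ω) ≤ 2 * u := by have := h.ω3; omega
  have h6 : (u + 5 * ω) * (u + 5 * ω) ≤ (2 * u) * (2 * u) := Nat.mul_le_mul h5 h5
  have h7 : (2 * u) * (2 * u) ≤ 4 * (u * (u + 1)) := by nlinarith
  have h8 : 2 * ((u + 3 * ω) * D) = 2 * (u * D) + 6 * (ω * D) := by ring
  have hω : 1 ≤ ω * D := by
    have h9 := h.ω4
    have h10 : 1 ≤ D := by have := h.Du; have := h.u0; have := h.pp; have := h.p0; omega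
    exact Nat.mul_pos h9 h10
  have h9 : 2 * C + (u + 5 * ω) * (u + 5 * ω) < 2 * ((u + 5 * ω) * D) := by
    have h10 : 2 * ((u + 5 * ω) * D) = 2 * (u * D) + 10 * (ω * D) := by ring
    omega
  have h10 : (2 : ℤ) * C + (u + 5 * ω) * (u + 5 * ω) < 2 * ((u + 5 * ω) * D) := by
    exact_mod_cast h9
  have h11 : (0 : ℤ) ≤ u := Int.natCast_nonneg _
  have h12 : (0 : ℤ) ≤ ω := Int.natCast_nonneg _
  push_cast at h1
  have h13 : (C : ℤ) < Frow D (u + 5 * ω) := by nlinarith
  exact_mod_cast h13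

theorem lowrow {C κ : ℕ} (hC : N * ((u - η) * (u - η + 1)) ≤ 2 * C) (hκ : C < Frow D κ) :
    u + ω + 1 ≤ κ := by
  by_contra hcon
  push Not at hcon
  have h1 : Frow D κ ≤ κ * (D + 1) := Nat.sub_le _ _
  have h2 : κ * (D + 1) ≤ (u + ω) * (D + 1) := Nat.mul_le_mul_right _ (by omega)
  have h3 := h.low
  have h4 : 2 * ((u + 2 * ω) * D) = 2 * ((u + ω) * D) + 2 * (ω * D) := by ring
  have h5 : (u + ω) * (D + 1) = (u + ω) * D + (u + ω) := by ring
  have h6 := h.uu
  have h7 : u * 2 ≤ u * (u + 1) := Nat.mul_le_mul_left u (by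
    have := h.u0; have := h.pp; have := h.p0; omega)
  have h8 := h.ω3
  omega

end ZB

/-! ### the strip -/

theorem plane_B {T q a p D r u : ℕ} (hW : WinR T q a) (hT : 1 ≤ T) (hq : 2 ≤ q) (ha : 2 ≤ a)
    (hp : 40 * q + 2 ^ 20 ≤ p) (hu : 100 * p ^ 2 ≤ u) (hD : 1000 * a * p * u ≤ D)
    (hσ : u ^ 2 ≤ 4 * p ^ 2 * D) (hTu : u ^ 2 ≤ T * D)
    {y : Fin r → ℕ} (P : Finset (Fin r)) (hP : ∀ i ∈ P, y i ≤ u ∧ u ≤ y i + u / (64 * p ^ 2))
    (hcl : ∀ v, (P.filter (fun i => y i = v)).card * v ≤ 4 * D)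
    (hPs : 8 * D ≤ ∑ i ∈ P, y i) : StripGain D 64 P y u := by
  classical
  have hp20 : 2 ^ 20 ≤ p := by omega
  have hp0 : 0 < p := by omega
  have hpp : 2 ^ 20 * p ≤ p ^ 2 := by
    rw [pow_two]
    exact Nat.mul_le_mul_right p hp20
  have hu0 : 0 < u := by omega
  obtain ⟨ω, hω⟩ : ∃ ω, ω = u / p := ⟨_, rfl⟩
  obtain ⟨η, hη⟩ : ∃ η, η = u / (64 * p ^ 2) := ⟨_, rfl⟩
  rw [← hη] at hP
  have hη1 : 64 * p ^ 2 * η ≤ u := by
    rw [hη]
    exact Nat.mul_div_le u _
  have hω1 : p * ω ≤ u := by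
    rw [hω]
    exact Nat.mul_div_le u p
  have hω2 : u < p * ω + p := by
    have h3 := Nat.div_add_mod u p
    have h4 := Nat.mod_lt u hp0
    rw [← hω] at h3
    omega
  have hηu : η < u := by
    have h1 : 64 * 1 * η ≤ 64 * p ^ 2 * η :=
      Nat.mul_le_mul_right η (Nat.mul_le_mul_left 64 (by omega))
    omega
  have hK0 : 0 < u * (u + 1) := by positivity
  obtain ⟨t, ht⟩ : ∃ t, t = ((u + 3 * ω) * D) / (u * (u + 1)) := ⟨_, rfl⟩
  have ht1 : t * (u * (u + 1)) ≤ (u + 3 * ω) * D := by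
    rw [ht]
    exact Nat.div_mul_le_self _ _
  have ht2 : (u + 3 * ω) * D < t * (u * (u + 1)) + u * (u + 1) := by
    have h3 := Nat.div_add_mod ((u + 3 * ω) * D) (u * (u + 1))
    have h4 := Nat.mod_lt ((u + 3 * ω) * D) hK0
    rw [← ht] at h3
    rw [mul_comm t]
    omega
  obtain ⟨n, hn⟩ : ∃ n, n = 4 * D / (u - η) := ⟨_, rfl⟩
  have hD0 : 2000 * (p * u) ≤ D := by
    have h1 : 1000 * 2 * p * u ≤ 1000 * a * p * u :=
      Nat.mul_le_mul_right u (Nat.mul_le_mul_right p (Nat.mul_le_mul_left 1000 ha))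
    have h2 : 1000 * 2 * p * u = 2000 * (p * u) := by ring
    omega
  obtain ⟨N, hN⟩ : ∃ N, N = 2 * t + 1 := ⟨_, rfl⟩
  have h : ZB p u D ω η N n := by
    refine ⟨hp20, hω1, hω2, hη1, hu, hD0, hσ, ?_, ?_, ?_, ?_⟩
    · have h1 : N * (u * (u + 1)) = 2 * (t * (u * (u + 1))) + u * (u + 1) := by
        rw [hN]
        ring
      omega
    · have h1 : N * (u * (u + 1)) = 2 * (t * (u * (u + 1))) + u * (u + 1) := by
        rw [hN]
        ring
      omega
    · rw [hn]
      exact Nat.div_mul_le_self _ _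
    · intro m hm
      rw [hn]
      exact (Nat.le_div_iff_mul_le (by omega)).2 hm
  have hcount : N + n ≤ P.card := by
    refine h.count (S := ∑ i ∈ P, y i) ?_ hPs
    have h1 := Finset.sum_le_card_nsmul P y u (fun i hi => (hP i hi).1)
    rwa [smul_eq_mul] at h1
  have hs : 0 < P.card := by omega
  have hfil : ∀ i ∈ P, (P.filter (fun j => y j = y i)).card ≤ n := by
    intro i hi
    refine h.n2 _ (le_trans ?_ (hcl (y i)))
    refine Nat.mul_le_mul_left _ ?_
    have := (hP i hi).2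
    omega
  obtain ⟨b, hb, hinj, hmono⟩ := zb_enum P y hs
  obtain ⟨c, hc⟩ : ∃ c : ℕ → ℕ, c = fun l => (y (b l) + 1).choose 2 := ⟨_, rfl⟩
  have hc2 : ∀ l, 2 * c l = y (b l) * (y (b l) + 1) := by
    intro l
    rw [hc]
    exact zm_two_choose _
  have hlo : ∀ l, l < P.card → u - η ≤ y (b l) := by
    intro l hl
    have := (hP _ (hb l hl)).2
    omega
  have hcu : ∀ l, l < P.card → 2 * c l ≤ u * (u + 1) := by
    intro l hl
    rw [hc2]
    have h1 := (hP _ (hb l hl)).1
    exact Nat.mul_le_mul h1 (by omega)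
  have hcl' : ∀ l, l < P.card → (u - η) * (u - η + 1) ≤ 2 * c l := by
    intro l hl
    rw [hc2]
    have h1 := hlo l hl
    exact Nat.mul_le_mul h1 (by omega)
  obtain ⟨C, hC⟩ : ∃ C : ℕ → ℕ, C = zbC N n c := ⟨_, rfl⟩
  have hC0 : C 0 = ∑ l ∈ Finset.range N, c l := by
    rw [hC]
    unfold zbC
    simp
  have hC0u : 2 * C 0 ≤ N * (u * (u + 1)) := by
    rw [hC0, Finset.mul_sum]
    have h1 := Finset.sum_le_card_nsmul (Finset.range N) (fun l => 2 * c l) (u * (u + 1))
      (fun l hl => hcu l (by have := Finset.mem_range.1 hl; omega))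
    rwa [smul_eq_mul, Finset.card_range] at h1
  have hC0l : N * ((u - η) * (u - η + 1)) ≤ 2 * C 0 := by
    rw [hC0, Finset.mul_sum]
    have h1 := Finset.card_nsmul_le_sum (Finset.range N) (fun l => 2 * c l)
      ((u - η) * (u - η + 1)) (fun l hl => hcl' l (by have := Finset.mem_range.1 hl; omega))
    rwa [smul_eq_mul, Finset.card_range] at h1
  have hsucc : ∀ k, k < N → C (k + 1) + c k = C k + c (k + n) := by
    intro k hk
    rw [hC]
    exact zbC_succ c hk
  -- the steps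
  have hstep : ∀ k, k < N → C (k + 1) ≤ C k + η * (2 * u + 1) / 2 := by
    intro k hk
    have h1 := hsucc k hk
    have h2 := hcu (k + n) (by omega)
    have h3 := hcl' k (by omega)
    have h4 := h.sq
    omega
  have hup : ∀ k, k < N → C k + (u - η) ≤ C (k + 1) := by
    intro k hk
    have h1 := hsucc k hk
    have h2 := zb_strict hb hinj hmono hfil (l := k) (by omega)
    have h3 := hc2 k
    have h4 := hc2 (k + n)
    have h5 := hlo k (by omega)
    have h6 : (y (b k) + 1) * (y (b k) + 1 + 1) ≤ y (b (k + n)) * (y (b (k + n)) + 1) :=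
      Nat.mul_le_mul (by omega) (by omega)
    have h7 : (y (b k) + 1) * (y (b k) + 1 + 1) =
        y (b k) * (y (b k) + 1) + 2 * (y (b k) + 1) := by ring
    omega
  have hacc : ∀ k, k ≤ N → C 0 + k * (u - η) ≤ C k := by
    intro k
    induction k with
    | zero => intro _; omega
    | succ k ih =>
      intro hk
      have h1 := ih (by omega)
      have h2 := hup k (by omega)
      rw [add_mul, one_mul]
      omega
  have hCN : C 0 + D ≤ C N := by
    have h1 := hacc N le_rfl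
    have h2 := h.tot
    omega
  -- the row
  have hex : ∃ κ, C 0 < Frow D κ := ⟨_, h.high hC0u⟩
  have hf1 := Nat.find_spec hex
  have hf2 : Nat.find hex ≤ u + 5 * ω := Nat.find_min' hex (h.high hC0u)
  have hf3 := h.lowrow hC0l hf1
  obtain ⟨κ₀, hκ₀⟩ : ∃ κ₀, Nat.find hex = κ₀ + 1 := ⟨Nat.find hex - 1, by omega⟩
  have hf4 : ¬ C 0 < Frow D κ₀ := Nat.find_min hex (by omega)
  rw [hκ₀] at hf1 hf2 hf3
  have hω3 := h.ω3
  have hDu := h.Du
  obtain ⟨k, κ, hk, hκ, h1, h2⟩ := zb_middle (C := C) (N := N) (D := D) (κ₀ := κ₀)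
    (δ := η * (2 * u + 1) / 2) (by omega) (by omega) (not_lt.1 hf4) hf1
    (by have := h.step; omega) hstep hCN
  have hκ1 : u + ω ≤ κ := by omega
  have hκ2 : κ ≤ u + 5 * ω := by omega
  -- the points
  have hidx : ∀ l, l < N → (if l < k then l + n else l) < P.card := by
    intro l hl
    split_ifs <;> omega
  have hNn := h.Nn
  have hsum : ∑ j : Fin (2 * t + 1),
      (y (b (if (j : ℕ) < k then (j : ℕ) + n else (j : ℕ))) + 1).choose 2 = C k := by
    rw [hC]
    unfold zbC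
    rw [hc, hN]
    exact Fin.sum_univ_eq_sum_range
      (fun l => (y (b (if l < k then l + n else l)) + 1).choose 2) (2 * t + 1)
  have hηω : η ≤ ω := by
    have h3 := h.ηω
    have h4 : 1 * η ≤ 64 * p * η := Nat.mul_le_mul_right η (by omega)
    omega
  have hfin := plane_middle (g := 8) (κ := κ) (t := t) hW hT hq ha (by norm_num) (by omega) hu hD
    hTu (y := y) P (fun i hi => ⟨(hP i hi).1, by
      have := (hP i hi).2
      rw [← hω]
      omega⟩)
    (fun j => b (if (j : ℕ) < k then (j : ℕ) + n else (j : ℕ)))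
    (by
      intro j j' hjj
      have hj := j.2
      have hj' := j'.2
      have h3 := hinj _ (hidx j (by omega)) _ (hidx j' (by omega)) hjj
      refine Fin.ext ?_
      by_cases h4 : (j : ℕ) < k
      · by_cases h5 : (j' : ℕ) < k
        · rw [if_pos h4, if_pos h5] at h3
          omega
        · rw [if_pos h4, if_neg h5] at h3
          omega
      · by_cases h5 : (j' : ℕ) < k
        · rw [if_neg h4, if_pos h5] at h3
          omega
        · rwa [if_neg h4, if_neg h5] at h3)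
    (fun j => hb _ (hidx j (by have := j.2; omega)))
    (by rw [← hω]; exact hκ1) (by rw [← hω]; exact hκ2)
    (by rw [hsum]; exact h1) (by rw [hsum]; exact h2)
  simpa using hfin

end Pool.Agent.Work.MP_0421d9_ag.LD
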