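import Pool.Agent.Work.MP_0421d9_ag.ZPStrip
import Pool.Agent.Work.MP_0421d9_ag.ZPA
import Pool.Agent.Work.MP_0421d9_ag.ZPB

/-!
A strip of the plane from a pool.
-/

namespace Pool.Agent.Work.MP_0421d9_ag.LD

open MvPolynomial Module

theorem plane_strip_pool {G₁ A₁ : ℕ} (hC2 : ∀ (p D r v : ℕ) (y : Fin r → ℕ) (P : Finset (Fin r)),
    (∀ i ∈ P, y i = v) → 4 * D ≤ ∑ i ∈ P, y i → 1 ≤ p → A₁ * p ^ 6 ≤ v → D ≤ 8 * v * (v + 1) →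
      v ^ 2 ≤ 4 * p ^ 2 * D → StripGain D G₁ P y v)
    {T q a p K G D s u r : ℕ} {P : ℕ → ℕ} {τ J : ℕ}
    (hP : Pools P (64 * p ^ 2) (100 * p ^ 2) τ J) (hW : WinR T q a) (hT : 1 ≤ T) (hq : 2 ≤ q)
    (ha : 2 ≤ a) (hK : 2 ≤ K) (hp : 40 * q + 2 ^ (2 * K + 20) ≤ p) (hG : 2 ^ (2 * K + 8) ≤ G)
    (hG1 : G₁ ≤ G) {y : Fin r → ℕ} (hu : ∀ i, P (y i) = s → y i ≤ u) (hus : P u = s)
    (hu1 : 1 ≤ u) (hDu : (1000 * a * p + (16 * K * p) ^ 3) * u ≤ D)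
    (hDu2 : 16 * A₁ * p ^ 6 * u ≤ D)
    (hKD : 2 ^ (K + 3) * (df K * (2 * u ^ 2) ^ K) ≤ D ^ (2 * K - 1)) (hTu : u ^ 2 ≤ T * D)
    (hs : 8 * D ≤ ∑ i ∈ Finset.univ.filter (fun i => P (y i) = s), y i) :
    StripGain D G (Finset.univ.filter (fun i => P (y i) = s)) y u := by
  have h20 : 2 ^ 20 ≤ 2 ^ (2 * K + 20) := Nat.pow_le_pow_right (by norm_num) (by omega)
  have hp1 : 1 ≤ p := by
    have h1 : 0 < 2 ^ (2 * K + 20) := by positivity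
    omega
  refine plane_strip_aux hC2 hP ha hK hp1 hG hG1 hu hus hu1 hDu hDu2 hs
    (fun h1 h2 h3 => ?_) (fun h1 h2 h3 h4 => ?_)
  · exact plane_A hW hT hq ha hK hp h1 hDu h2 hKD hTu _ h3 hs
  · exact plane_B hW hT hq ha (by omega) h1
      (le_trans (Nat.mul_le_mul_right _ (Nat.le_add_right _ _)) hDu) h2 hTu _ h3 h4 hs

end Pool.Agent.Work.MP_0421d9_ag.LD
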