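import Pool.Agent.Work.MP_0421d9_ag.ZDefs

/-!
Pools of multiplicities (helper21, after the plan of helper69).
-/

namespace Pool.Agent.Work.MP_0421d9_ag.LD

/-- the thresholds -/
def zthr (p U : ℕ) : ℕ → ℕ
  | 0 => 0
  | j + 1 => if zthr p U j < U then zthr p U j + 1 else zthr p U j + zthr p U j / p + 1

theorem zthr_lt (p U j : ℕ) : zthr p U j < zthr p U (j + 1) := by
  rw [zthr]
  have h := Nat.zero_le (zthr p U j / p)
  split_ifs <;> omega

theorem zthr_strictMono (p U : ℕ) : StrictMono (zthr p U) := strictMono_nat_of_lt_succ (zthr_lt p U)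

theorem zthr_ge (p U j : ℕ) : j ≤ zthr p U j := (zthr_strictMono p U).id_le j

/-- growth by the factor two -/
theorem zthr_double {p U j : ℕ} (hp : 1 ≤ p) (hj : U ≤ j) :
    2 * zthr p U j + 1 ≤ zthr p U (j + p) := by
  have key : ∀ k, k ≤ p → zthr p U j + k * (zthr p U j / p + 1) ≤ zthr p U (j + k) := by
    intro k
    induction k with
    | zero =>
      intro _
      simp
    | succ k ih =>
      intro hk
      have h1 := ih (by omega)
      have h2 : ¬ zthr p U (j + k) < U := by
        have := zthr_ge p U (j + k)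
        omega
      have h3 : zthr p U (j + (k + 1)) = zthr p U (j + k) + zthr p U (j + k) / p + 1 := by
        rw [← Nat.add_assoc, zthr, if_neg h2]
      have h4 : zthr p U j / p ≤ zthr p U (j + k) / p :=
        Nat.div_le_div_right ((zthr_strictMono p U).monotone (Nat.le_add_right j k))
      rw [h3, Nat.succ_mul]
      omega
  have h1 := key p le_rfl
  have h2 : zthr p U j < p * (zthr p U j / p + 1) := Nat.lt_mul_div_succ _ hp
  omega

theorem zthr_pow {p U : ℕ} (hp : 1 ≤ p) (k : ℕ) : 2 ^ k ≤ zthr p U (U + p * k) + 1 := by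
  induction k with
  | zero => simp
  | succ k ih =>
    have h1 := zthr_double (p := p) (U := U) (j := U + p * k) hp (Nat.le_add_right _ _)
    have h2 : U + p * (k + 1) = U + p * k + p := by ring
    rw [h2, pow_succ]
    omega

/-- the index of the pool -/
def zidx (p U v : ℕ) : ℕ := Nat.findGreatest (fun j => zthr p U j ≤ v) v

theorem zidx_le (p U v : ℕ) : zthr p U (zidx p U v) ≤ v :=
  Nat.findGreatest_spec (P := fun j => zthr p U j ≤ v) (Nat.zero_le v) (Nat.zero_le v)

theorem zidx_lt (p U v : ℕ) : v < zthr p U (zidx p U v + 1) := by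
  by_contra hcon
  push Not at hcon
  have h1 : zidx p U v + 1 ≤ v := (zthr_ge p U _).trans hcon
  have h2 := Nat.le_findGreatest (P := fun j => zthr p U j ≤ v) h1 hcon
  unfold zidx at h2
  omega

theorem exists_pools (p U T : ℕ) (hp : 1 ≤ p) :
    ∃ P, Pools P p U T (U + p * (Nat.log 2 (T + 1) + 2) + 2) := by
  refine ⟨zidx p U, ?_, ?_, ?_, ?_⟩
  · intro v w hvw
    by_contra hcon
    push Not at hcon
    have h1 := zidx_le p U v
    have h2 := zidx_lt p U w
    have h3 := (zthr_strictMono p U).monotone (show zidx p U w + 1 ≤ zidx p U v from hcon)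
    omega
  · intro v w h hvw
    have h1 := zidx_le p U v
    have h2 := zidx_lt p U w
    rw [← h, zthr] at h2
    have h3 : zthr p U (zidx p U v) / p ≤ v / p := Nat.div_le_div_right h1
    have h4 := Nat.zero_le (zthr p U (zidx p U v) / p)
    split_ifs at h2 <;> omega
  · intro v w h hv
    have h1 := zidx_le p U v
    have h2 := zidx_lt p U v
    have h3 := zidx_le p U w
    have h4 := zidx_lt p U w
    rw [← h] at h3 h4
    rw [zthr, if_pos (by omega)] at h2 h4
    omega
  · intro v hv
    by_contra hcon
    push Not at hcon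
    have h1 := zidx_le p U v
    have h2 := zthr_pow (U := U) hp (Nat.log 2 (T + 1) + 1)
    have h3 : U + p * (Nat.log 2 (T + 1) + 1) ≤ zidx p U v := by
      refine le_trans ?_ hcon
      have : p * (Nat.log 2 (T + 1) + 1) ≤ p * (Nat.log 2 (T + 1) + 2) :=
        Nat.mul_le_mul_left p (by omega)
      omega
    have h4 := (zthr_strictMono p U).monotone h3
    have h5 := Nat.lt_pow_succ_log_self (b := 2) (by norm_num) (T + 1)
    omega

end Pool.Agent.Work.MP_0421d9_ag.LD
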