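import Pool.Agent.Work.MP_0421d9_ag.ZPPath
import Pool.Agent.Work.MP_0421d9_ag.ZPool
import Pool.Agent.Work.MP_0421d9_ag.ZPStrip2

/-!
Arbitrary multiplicities in degree at least `C M ^ (1 + ε)`: the induction step for the plane.
-/

namespace Pool.Agent.Work.MP_0421d9_ag.LD

open MvPolynomial Module

/-- pools for the multiplicities at most `τ`, each other multiplicity has its own pool -/
theorem cut_pools {p U τ J : ℕ} (hp : 1 ≤ p) (hJ : U + p * (Nat.log 2 (τ + 1) + 2) + 2 ≤ J) :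
    ∃ P, Pools P p U τ J ∧ ∀ v, P v < J → v ≤ τ := by
  obtain ⟨P, hP⟩ := exists_pools p U τ hp
  have hc : ∀ v, v ≤ τ → P v < J := fun v hv => (hP.count v hv).trans_le hJ
  refine ⟨fun v => if v ≤ τ then P v else J + v, ⟨?_, ?_, ?_, ?_⟩, ?_⟩
  · intro v w hvw
    try dsimp only
    split_ifs with h1 h2
    · exact hP.mono hvw
    · have := hc v h1
      omega
    · omega
    · omega
  · intro v w h hvw
    try dsimp only at h
    split_ifs at h with h1 h2 h2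
    · exact hP.width v w h hvw
    · have := hc v h1
      omega
    · omega
    · have : v = w := by omega
      rw [this]
      exact Nat.le_add_right _ _
  · intro v w h hv
    try dsimp only at h
    split_ifs at h with h1 h2 h2
    · exact hP.small v w h hv
    · have := hc v h1
      omega
    · have := hc w h2
      omega
    · omega
  · intro v hv
    try dsimp only
    rw [if_pos hv]
    exact hc v hv
  · intro v hv
    try dsimp only at hv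
    by_contra h
    rw [if_neg h] at hv
    omega

/-- the strips exist at all nodes of the path -/
theorem step_strip {G₁ A₁ : ℕ} (hC2 : ∀ (p D r v : ℕ) (y : Fin r → ℕ) (P : Finset (Fin r)),
    (∀ i ∈ P, y i = v) → 4 * D ≤ ∑ i ∈ P, y i → 1 ≤ p → A₁ * p ^ 6 ≤ v → D ≤ 8 * v * (v + 1) →
      v ^ 2 ≤ 4 * p ^ 2 * D → StripGain D G₁ P y v)
    {T q a p K J G X R τ c D r : ℕ} {P : ℕ → ℕ}
    (hP : Pools P (64 * p ^ 2) (100 * p ^ 2) τ J) (hW : WinR T q a) (hT : 1 ≤ T)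
    (hq : 2 ≤ q) (ha : 2 ≤ a) (hK : 2 ≤ K) (hp : 40 * q + 2 ^ (2 * K + 20) ≤ p)
    (hG : 2 ^ (2 * K + 8) ≤ G) (hG1 : G₁ ≤ G) (hX : 1000 * G ≤ X)
    (hR2 : 2 * X * (1000 * a * p + (16 * K * p) ^ 3) ≤ R) (hR4 : 20 * X * A₁ * p ^ 6 ≤ R)
    (hD : R * c ≤ D)
    (hKD : ∀ u D', u ≤ τ → u ≤ c → D ≤ X * D' →
      2 ^ (K + 3) * (df K * (2 * u ^ 2) ^ K) ≤ D' ^ (2 * K - 1))
    (hTu : ∀ u D', u ≤ τ → u ≤ c → D ≤ X * D' → u ^ 2 ≤ T * D')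
    (D' s u : ℕ) (y : Fin r → ℕ) (hXD : D ≤ X * D') (hu1 : 1 ≤ u) (huτ : u ≤ τ) (huc : u ≤ c)
    (hus : P u = s) (hu : ∀ i, P (y i) = s → y i ≤ u)
    (hs : 8 * D' ≤ ∑ i ∈ Finset.univ.filter (fun i => P (y i) = s), y i) :
    StripGain D' G (Finset.univ.filter (fun i => P (y i) = s)) y u := by
  have hG0 : 1 ≤ G := by
    have : 1 ≤ 2 ^ (2 * K + 8) := Nat.one_le_two_pow
    omega
  have hX0 : 1 ≤ X := by omega
  have hRu : R * u ≤ X * D' := (Nat.mul_le_mul_left _ huc).trans (hD.trans hXD)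
  have key : ∀ Z, X * Z ≤ R → Z * u ≤ D' := by
    intro Z hZ
    have h1 : X * (Z * u) ≤ X * D' := by
      calc X * (Z * u) = X * Z * u := by ring
        _ ≤ R * u := Nat.mul_le_mul_right _ hZ
        _ ≤ X * D' := hRu
    exact Nat.le_of_mul_le_mul_left h1 hX0
  refine plane_strip_pool hC2 hP hW hT hq ha hK hp hG hG1 hu hus hu1 (key _ ?_) (key _ ?_)
    (hKD u D' huτ huc hXD) (hTu u D' huτ huc hXD) hs
  · refine le_trans ?_ hR2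
    calc X * (1000 * a * p + (16 * K * p) ^ 3) ≤ 2 * (X * (1000 * a * p + (16 * K * p) ^ 3)) :=
          Nat.le_mul_of_pos_left _ (by norm_num)
      _ = 2 * X * (1000 * a * p + (16 * K * p) ^ 3) := by ring
  · refine le_trans ?_ hR4
    calc X * (16 * A₁ * p ^ 6) = 16 * (X * A₁ * p ^ 6) := by ring
      _ ≤ 20 * (X * A₁ * p ^ 6) := Nat.mul_le_mul_right _ (by norm_num)
      _ = 20 * X * A₁ * p ^ 6 := by ring

theorem step_win {X ρ R c D : ℕ} (hρ : 4 ≤ ρ) (hc : 1 ≤ c) (hR3 : 40 * X * ρ ≤ R)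
    (hD : R * c ≤ D) : 2 * X * (6 * ρ * (c + 1) + 10) ≤ D := by
  have h1 : 6 * ρ * (c + 1) + 10 ≤ 20 * (ρ * c) := by
    have h2 : ρ ≤ ρ * c := Nat.le_mul_of_pos_right _ hc
    have h3 : 6 * ρ * (c + 1) = 6 * (ρ * c) + 6 * ρ := by ring
    omega
  calc 2 * X * (6 * ρ * (c + 1) + 10) ≤ 2 * X * (20 * (ρ * c)) := Nat.mul_le_mul_left _ h1
    _ = 40 * X * ρ * c := by ring
    _ ≤ R * c := Nat.mul_le_mul_right _ hR3
    _ ≤ D := hD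

theorem FP_step {G₁ A₁ : ℕ} (hC2 : ∀ (p D r v : ℕ) (y : Fin r → ℕ) (P : Finset (Fin r)),
    (∀ i ∈ P, y i = v) → 4 * D ≤ ∑ i ∈ P, y i → 1 ≤ p → A₁ * p ^ 6 ≤ v → D ≤ 8 * v * (v + 1) →
      v ^ 2 ≤ 4 * p ^ 2 * D → StripGain D G₁ P y v)
    {T q a TP ρ p K J G X R Tp : ℕ} (hW : WinR T q a) (hWP : WinP TP ρ) (hT : 1 ≤ T)
    (hTP : 1 ≤ TP) (hq : 2 ≤ q) (ha : 2 ≤ a) (hρ : 4 ≤ ρ) (hK : 2 ≤ K)
    (hp : 40 * q + 2 ^ (2 * K + 20) ≤ p)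
    (hJ : 100 * p ^ 2 + 64 * p ^ 2 * (Nat.log 2 (Tp + 1) + 2) + 2 ≤ J)
    (hG : 2 ^ (2 * K + 8) ≤ G) (hG1 : G₁ ≤ G) (hX : 1000 * G ≤ X)
    (hR1 : 10 ^ 6 * J * G ≤ R) (hR2 : 2 * X * (1000 * a * p + (16 * K * p) ^ 3) ≤ R)
    (hR3 : 40 * X * ρ ≤ R) (hR4 : 20 * X * A₁ * p ^ 6 ≤ R)
    (hTp : Tp ≤ T) (hTp2 : 10 ^ 5 * G * Tp ≤ TP * R ^ 2)
    (hTp3 : 2 ^ (2 * K + 3) * df K * Tp ≤ (R / (2 * X)) ^ (2 * K - 1)) : FP Tp R := by
  intro r c D m hc hcT hm hD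
  have hG0 : 1 ≤ G := by
    have : 1 ≤ 2 ^ (2 * K + 8) := Nat.one_le_two_pow
    omega
  have hX0 : 1 ≤ X := by omega
  have h20 : 1 ≤ 2 ^ (2 * K + 20) := Nat.one_le_two_pow
  have hD2 := step_win hρ hc hR3 hD
  have hTPD : 10 ^ 5 * G * c ^ 3 ≤ TP * D ^ 2 := by
    calc 10 ^ 5 * G * c ^ 3 = (10 ^ 5 * G * c) * c ^ 2 := by ring
      _ ≤ (10 ^ 5 * G * Tp) * c ^ 2 :=
          Nat.mul_le_mul_right _ (Nat.mul_le_mul_left _ hcT)
      _ ≤ (TP * R ^ 2) * c ^ 2 := Nat.mul_le_mul_right _ hTp2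
      _ = TP * (R * c) ^ 2 := by ring
      _ ≤ TP * D ^ 2 := Nat.mul_le_mul_left _ (Nat.pow_le_pow_left hD 2)
  have hwin := (hWP r c D m hc hm (by
    have h1 : 3 * ρ * (c + 1) ≤ 6 * ρ * (c + 1) + 10 := by
      have h2 : 6 * ρ * (c + 1) = 2 * (3 * ρ * (c + 1)) := by ring
      omega
    have h3 : 6 * ρ * (c + 1) + 10 ≤ 2 * X * (6 * ρ * (c + 1) + 10) :=
      Nat.le_mul_of_pos_left _ (by omega)
    omega)).2
  by_cases hb : TP * (∑ i, m i ^ 2 + 23 * ∑ i, m i) + 6 * (c + 1) ^ 2 ≤ TP * D ^ 2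
  · have := hwin hb
    omega
  push Not at hb
  have hS : D ^ 2 ≤ 27 * (c * ∑ i, m i) := by
    obtain ⟨S₀, hS₀⟩ : ∃ S₀, S₀ = ∑ i, m i := ⟨_, rfl⟩
    rw [← hS₀] at hb ⊢
    have h1 : ∑ i, m i ^ 2 ≤ c * S₀ := by
      rw [hS₀, Finset.mul_sum]
      refine Finset.sum_le_sum fun i _ => ?_
      rw [pow_two]
      exact Nat.mul_le_mul_right _ (hm i)
    have h2 : 23 * S₀ ≤ 23 * (c * S₀) := Nat.mul_le_mul_left _ (Nat.le_mul_of_pos_left _ hc)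
    have h3 : TP * (∑ i, m i ^ 2 + 23 * S₀) ≤ 24 * (TP * (c * S₀)) := by
      calc TP * (∑ i, m i ^ 2 + 23 * S₀) ≤ TP * (24 * (c * S₀)) :=
            Nat.mul_le_mul_left _ (by omega)
        _ = 24 * (TP * (c * S₀)) := by ring
    have h4 : 6 * (c + 1) ^ 2 ≤ 24 * (G * c ^ 3) := by
      have h5 : (c + 1) ^ 2 ≤ 4 * c ^ 2 := by nlinarith
      have h6 : c ^ 2 ≤ G * c ^ 3 := by
        calc c ^ 2 ≤ c ^ 3 := Nat.pow_le_pow_right hc (by norm_num)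
          _ ≤ G * c ^ 3 := Nat.le_mul_of_pos_left _ hG0
      omega
    have h5 : 10 ^ 5 * (G * c ^ 3) ≤ TP * D ^ 2 := by
      calc 10 ^ 5 * (G * c ^ 3) = 10 ^ 5 * G * c ^ 3 := by ring
        _ ≤ _ := hTPD
    have h6 : TP * D ^ 2 ≤ TP * (27 * (c * S₀)) := by
      have e1 : TP * (27 * (c * S₀)) = 27 * (TP * (c * S₀)) := by ring
      omega
    exact Nat.le_of_mul_le_mul_left h6 hTP
  obtain ⟨P, hP, hPτ⟩ := cut_pools (p := 64 * p ^ 2) (U := 100 * p ^ 2) (τ := Tp) (J := J)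
    (Nat.mul_pos (by norm_num) (pow_pos (by omega) 2)) hJ
  have hmain := path_main (V₀ := 0) hP hPτ hWP hTP (by omega) hG0 hX hc hm
    ((Nat.mul_le_mul_right _ hR1).trans hD) hD2
    (fun D' s u y h1 _ h3 h4 h5 _ h7 h8 h9 =>
      step_strip hC2 hP hW hT hq ha hK hp hG hG1 hX hR2 hR4 hD ?_ ?_ D' s u y h1 h3 h4 h5 h7 h8 h9)
    (Or.inl ⟨hcT, hS, hTPD⟩) 0 0 le_rfl
  · have hcount := hPm_count D m
    have e1 : (((0 : ℕ) : ℤ)) = 0 := rfl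
    rw [e1] at hmain
    omega
  · intro u D' hu1 hu2 hXD
    obtain ⟨Z, hZ⟩ : ∃ Z, Z = R / (2 * X) := ⟨_, rfl⟩
    rw [← hZ] at hTp3
    have h1 : Z * c ≤ D' := by
      have h2 : 2 * X * Z ≤ R := by
        rw [hZ]
        exact Nat.mul_div_le R (2 * X)
      have h3 : X * (Z * c) ≤ X * D' := by
        calc X * (Z * c) ≤ 2 * (X * (Z * c)) := Nat.le_mul_of_pos_left _ (by norm_num)
          _ = 2 * X * Z * c := by ring
          _ ≤ R * c := Nat.mul_le_mul_right _ h2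
          _ ≤ X * D' := hD.trans hXD
      exact Nat.le_of_mul_le_mul_left h3 hX0
    obtain ⟨k, hk⟩ : ∃ k, 2 * K = k + 1 := ⟨2 * K - 1, by omega⟩
    have hk1 : 2 * K - 1 = k := by omega
    rw [hk1] at hTp3 ⊢
    have h3 : (2 * u ^ 2) ^ K = 2 ^ K * u ^ (k + 1) := by
      rw [mul_pow, ← pow_mul, hk]
    have h4 : u ^ (k + 1) ≤ Tp * c ^ k := by
      rw [pow_succ, Nat.mul_comm]
      exact Nat.mul_le_mul hu1 (Nat.pow_le_pow_left hu2 k)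
    calc 2 ^ (K + 3) * (df K * (2 * u ^ 2) ^ K)
        = 2 ^ (2 * K + 3) * df K * u ^ (k + 1) := by
          rw [h3]
          ring
      _ ≤ 2 ^ (2 * K + 3) * df K * (Tp * c ^ k) := Nat.mul_le_mul_left _ h4
      _ = (2 ^ (2 * K + 3) * df K * Tp) * c ^ k := by ring
      _ ≤ Z ^ k * c ^ k := Nat.mul_le_mul_right _ hTp3
      _ = (Z * c) ^ k := (mul_pow _ _ _).symm
      _ ≤ D' ^ k := Nat.pow_le_pow_left h1 k
  · intro u D' hu1 hu2 hXD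
    have h1 : c ≤ D' := by
      have h2 : X * c ≤ X * D' := by
        have h3 : X ≤ R := by
          refine le_trans ?_ hR3
          calc X ≤ X * (40 * ρ) := Nat.le_mul_of_pos_right _ (by omega)
            _ = 40 * X * ρ := by ring
        exact (Nat.mul_le_mul_right _ h3).trans (hD.trans hXD)
      exact Nat.le_of_mul_le_mul_left h2 hX0
    calc u ^ 2 = u * u := pow_two u
      _ ≤ T * D' := Nat.mul_le_mul (hu1.trans hTp) (hu2.trans h1)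

/-- all multiplicities: strips with the multiplicities up to `τ` -/
theorem plane_window_step {G₁ A₁ : ℕ}
    (hC2 : ∀ (p D r v : ℕ) (y : Fin r → ℕ) (P : Finset (Fin r)),
    (∀ i ∈ P, y i = v) → 4 * D ≤ ∑ i ∈ P, y i → 1 ≤ p → A₁ * p ^ 6 ≤ v → D ≤ 8 * v * (v + 1) →
      v ^ 2 ≤ 4 * p ^ 2 * D → StripGain D G₁ P y v)
    {T q a TP ρ p K J G X R τ : ℕ} (hW : WinR T q a) (hWP : WinP TP ρ) (hT : 1 ≤ T)
    (hTP : 1 ≤ TP) (hq : 2 ≤ q) (ha : 2 ≤ a) (hρ : 4 ≤ ρ) (hK : 2 ≤ K)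
    (hp : 40 * q + 2 ^ (2 * K + 20) ≤ p)
    (hJ : 100 * p ^ 2 + 64 * p ^ 2 * (Nat.log 2 (τ + 1) + 2) + 2 ≤ J)
    (hG : 2 ^ (2 * K + 8) ≤ G) (hG1 : G₁ ≤ G) (hX : 1000 * G ≤ X)
    (hR1 : 10 ^ 6 * J * G ≤ R) (hR2 : 2 * X * (1000 * a * p + (16 * K * p) ^ 3) ≤ R)
    (hR3 : 40 * X * ρ ≤ R) (hR4 : 20 * X * A₁ * p ^ 6 ≤ R)
    {c D V₀ r : ℕ} {m : Fin r → ℕ} (hc : 1 ≤ c) (hm : ∀ i, m i ≤ c) (hD : R * c ≤ D)
    (hτ1 : X * τ ^ 2 ≤ T * D)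
    (hτ2 : 2 ^ (2 * K + 3) * df K * τ ^ (2 * K) * X ^ (2 * K - 1) ≤ D ^ (2 * K - 1))
    (hV : TP * (500 * J * D * (τ + 1) + 50 * D ^ 2) + 400 * (c + 1) ^ 2 * (τ + 1) ≤
        TP * (V₀ * (τ + 1)))
    (U' S' : ℕ) (hUS : V₀ ≤ U' + S') :
    (hPm D m : ℤ) ≤ max (U' : ℤ)
      ((((D + 2).choose 2 : ℕ) : ℤ) - ((∑ i, (m i + 1).choose 2 : ℕ) : ℤ) + S') := by
  have hG0 : 1 ≤ G := by
    have : 1 ≤ 2 ^ (2 * K + 8) := Nat.one_le_two_pow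
    omega
  have hX0 : 1 ≤ X := by omega
  have h20 : 1 ≤ 2 ^ (2 * K + 20) := Nat.one_le_two_pow
  obtain ⟨P, hP, hPτ⟩ := cut_pools (p := 64 * p ^ 2) (U := 100 * p ^ 2) (τ := τ) (J := J)
    (Nat.mul_pos (by norm_num) (pow_pos (by omega) 2)) hJ
  refine path_main (V₀ := V₀) hP hPτ hWP hTP (by omega) hG0 hX hc hm
    ((Nat.mul_le_mul_right _ hR1).trans hD) (step_win hρ hc hR3 hD)
    (fun D' s u y h1 _ h3 h4 h5 _ h7 h8 h9 =>
      step_strip hC2 hP hW hT hq ha hK hp hG hG1 hX hR2 hR4 hD ?_ ?_ D' s u y h1 h3 h4 h5 h7 h8 h9)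
    (Or.inr hV) U' S' hUS
  · intro u D' hu1 hu2 hXD
    obtain ⟨k, hk⟩ : ∃ k, 2 * K = k + 1 := ⟨2 * K - 1, by omega⟩
    have hk1 : 2 * K - 1 = k := by omega
    rw [hk1] at hτ2 ⊢
    have h3 : (2 * u ^ 2) ^ K = 2 ^ K * u ^ (2 * K) := by
      rw [mul_pow, ← pow_mul]
    have h4 : X ^ k * (2 ^ (K + 3) * (df K * (2 * u ^ 2) ^ K)) ≤ X ^ k * D' ^ k := by
      calc X ^ k * (2 ^ (K + 3) * (df K * (2 * u ^ 2) ^ K))
          = 2 ^ (2 * K + 3) * df K * u ^ (2 * K) * X ^ k := by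
            rw [h3]
            ring
        _ ≤ 2 ^ (2 * K + 3) * df K * τ ^ (2 * K) * X ^ k :=
            Nat.mul_le_mul_right _ (Nat.mul_le_mul_left _ (Nat.pow_le_pow_left hu1 _))
        _ ≤ D ^ k := hτ2
        _ ≤ (X * D') ^ k := Nat.pow_le_pow_left hXD k
        _ = X ^ k * D' ^ k := mul_pow _ _ _
    exact Nat.le_of_mul_le_mul_left h4 (pow_pos hX0 k)
  · intro u D' hu1 hu2 hXD
    have h1 : X * u ^ 2 ≤ X * (T * D') := by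
      calc X * u ^ 2 ≤ X * τ ^ 2 := Nat.mul_le_mul_left _ (Nat.pow_le_pow_left hu1 2)
        _ ≤ T * D := hτ1
        _ ≤ T * (X * D') := Nat.mul_le_mul_left _ hXD
        _ = X * (T * D') := by ring
    exact Nat.le_of_mul_le_mul_left h1 hX0

end Pool.Agent.Work.MP_0421d9_ag.LD
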