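import Pool.Agent.Work.MP_0421d9_ag.ZPPath2
import Pool.Agent.Work.MP_0421d9_ag.ZPStep

/-!
Arbitrary multiplicities in degree at least `C M ^ (1 + ε)`: the general step for the plane, with
the sum of the multiplicities up to the threshold.
-/

namespace Pool.Agent.Work.MP_0421d9_ag.LD

open MvPolynomial Module

/-- all multiplicities: strips with the multiplicities up to `τ` -/
theorem plane_window_step2 {G₁ A₁ : ℕ}
    (hC2 : ∀ (p D r v : ℕ) (y : Fin r → ℕ) (P : Finset (Fin r)),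
    (∀ i ∈ P, y i = v) → 4 * D ≤ ∑ i ∈ P, y i → 1 ≤ p → A₁ * p ^ 6 ≤ v → D ≤ 8 * v * (v + 1) →
      v ^ 2 ≤ 4 * p ^ 2 * D → StripGain D G₁ P y v)
    {T q a TP ρ p K J G X R τ : ℕ} (hW : WinR T q a) (hWP : WinP TP ρ) (hT : 1 ≤ T)
    (hTP : 1 ≤ TP) (hq : 2 ≤ q) (ha : 2 ≤ a) (hρ : 4 ≤ ρ) (hK : 2 ≤ K)
    (hp : 40 * q + 2 ^ (2 * K + 20) ≤ p)
    (hJ : 100 * p ^ 2 + 64 * p ^ 2 * (Nat.log 2 (τ + 1) + 2) + 2 ≤ J)
    (hG : 2 ^ (2 * K + 8) ≤ G) (hG1 : G₁ ≤ G) (hX : 1000 * G ≤ X)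
    (hR1 : 10 ^ 6 * J * G ≤ R) (hR2 : 2 * X * (1000 * a * p + (16 * K * p) ^ 3) ≤ R)
    (hR3 : 40 * X * ρ ≤ R) (hR4 : 20 * X * A₁ * p ^ 6 ≤ R)
    {c D V₀ r : ℕ} {m : Fin r → ℕ} (hc : 1 ≤ c) (hm : ∀ i, m i ≤ c) (hD : R * c ≤ D)
    (hτ1 : X * τ ^ 2 ≤ T * D)
    (hτ2 : 2 ^ (2 * K + 3) * df K * τ ^ (2 * K) * X ^ (2 * K - 1) ≤ D ^ (2 * K - 1))
    (hV1 : 400 * (c + 1) ^ 2 ≤ TP * V₀ ∨ 10 ^ 5 * G * (c ^ 2 * τ) ≤ TP * D ^ 2)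
    (hV : G * (TP * (500 * J * D * (τ + 1) + 50 * D ^ 2) + 400 * (c + 1) ^ 2 * (τ + 1)) ≤
        TP * ((G * V₀ + ∑ i, if m i ≤ τ then m i else 0) * (τ + 1)))
    (U' S' : ℕ) (hUS : V₀ ≤ U' + S') :
    (hPm D m : ℤ) ≤ max (U' : ℤ)
      ((((D + 2).choose 2 : ℕ) : ℤ) - ((∑ i, (m i + 1).choose 2 : ℕ) : ℤ) + S') := by
  have hG0 : 1 ≤ G := by
    have : 1 ≤ 2 ^ (2 * K + 8) := Nat.one_le_two_pow
    omega
  have hX0 : 1 ≤ X := by omega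
  have h20 : 1 ≤ 2 ^ (2 * K + 20) := Nat.one_le_two_pow
  obtain ⟨P, hP, hPτ⟩ := cut_pools (p := 64 * p ^ 2) (U := 100 * p ^ 2) (τ := τ) (J := J)
    (Nat.mul_pos (by norm_num) (pow_pos (by omega) 2)) hJ
  have hsum : (∑ i, if P (m i) < J then m i else 0) = ∑ i, if m i ≤ τ then m i else 0 := by
    refine Finset.sum_congr rfl fun i _ => ?_
    by_cases hi : m i ≤ τ
    · rw [if_pos hi, if_pos (hP.count _ hi)]
    · rw [if_neg hi, if_neg fun h => hi (hPτ _ h)]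
  refine path_main2 (V₀ := V₀) hP hPτ hWP hTP (by omega) hG0 hX hc hm
    ((Nat.mul_le_mul_right _ hR1).trans hD) (step_win hρ hc hR3 hD)
    (fun D' s u y h1 _ h3 h4 h5 _ h7 h8 h9 =>
      step_strip hC2 hP hW hT hq ha hK hp hG hG1 hX hR2 hR4 hD ?_ ?_ D' s u y h1 h3 h4 h5 h7 h8 h9)
    hV1 (by rw [hsum]; exact hV) U' S' hUS
  · intro u D' hu1 hu2 hXD
    obtain ⟨k, hk⟩ : ∃ k, 2 * K = k + 1 := ⟨2 * K - 1, by omega⟩
    have hk1 : 2 * K - 1 = k := by omega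
    rw [hk1] at hτ2 ⊢
    have h3 : (2 * u ^ 2) ^ K = 2 ^ K * u ^ (2 * K) := by
      rw [mul_pow, ← pow_mul]
    have h4 : X ^ k * (2 ^ (K + 3) * (df K * (2 * u ^ 2) ^ K)) ≤ X ^ k * D' ^ k := by
      calc X ^ k * (2 ^ (K + 3) * (df K * (2 * u ^ 2) ^ K))
          = 2 ^ (2 * K + 3) * df K * u ^ (2 * K) * X ^ k := by
            rw [h3]
            ring
        _ ≤ 2 ^ (2 * K + 3) * df K * τ ^ (2 * K) * X ^ k :=
            Nat.mul_le_mul_right _ (Nat.mul_le_mul_left _ (Nat.pow_le_pow_left hu1 _))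
        _ ≤ D ^ k := hτ2
        _ ≤ (X * D') ^ k := Nat.pow_le_pow_left hXD k
        _ = X ^ k * D' ^ k := mul_pow _ _ _
    exact Nat.le_of_mul_le_mul_left h4 (pow_pos hX0 k)
  · intro u D' hu1 hu2 hXD
    have h1 : X * u ^ 2 ≤ X * (T * D') := by
      calc X * u ^ 2 ≤ X * τ ^ 2 := Nat.mul_le_mul_left _ (Nat.pow_le_pow_left hu1 2)
        _ ≤ T * D := hτ1
        _ ≤ T * (X * D') := Nat.mul_le_mul_left _ hXD
        _ = X * (T * D') := by ring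
    exact Nat.le_of_mul_le_mul_left h1 hX0

end Pool.Agent.Work.MP_0421d9_ag.LD
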