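import Pool.Agent.Work.MP_0421d9_ag.ZPWin
import Pool.Agent.Work.MP_0421d9_ag.ZPStep2

/-!
The windows for all systems in degree at least `R M`, with a further alternative: sufficiently many
points of small multiplicity (helper21, after the plan of helper69).
-/

namespace Pool.Agent.Work.MP_0421d9_ag.LD

open MvPolynomial Module

/-- the case of large multiplicities -/
theorem zw_main (n : ℕ) : ∃ R₀ : ℕ, ∀ R, R₀ ≤ R → ∀ (r M D V₀ : ℕ) (m : Fin r → ℕ),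
    R ^ (2 * n + 4) ≤ M → (∀ i, m i ≤ M) → R * M ≤ D →
    D ^ 2 ≤ R ^ n * (V₀ + ∑ i, if m i ≤ R ^ (n + 2) then m i else 0) →
    (((D + 2).choose 2 : ℤ) - ∑ i, ((m i + 1).choose 2 : ℤ)).natAbs = V₀ ∨ V₀ = 0 →
      hPm D m = (D + 2).choose 2 - ∑ i, (m i + 1).choose 2 := by
  obtain ⟨R₁, hFP⟩ := FP_level (n + 2)
  obtain ⟨G₁, A₁, hC2⟩ := plane_C2
  obtain ⟨K, hK⟩ : ∃ K : ℕ, K = 2 := ⟨_, rfl⟩
  obtain ⟨G, hG⟩ : ∃ G, G = 2 ^ (2 * K + 8) + G₁ := ⟨_, rfl⟩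
  obtain ⟨X, hX⟩ : ∃ X, X = 1000 * G := ⟨_, rfl⟩
  have hG1 : 1 ≤ G := by
    have : 1 ≤ 2 ^ (2 * K + 8) := Nat.one_le_two_pow
    omega
  have hX1 : 1 ≤ X := by omega
  obtain ⟨R₂, hpar⟩ := zp_params 1 (2 * (n + 2)) K G X A₁ (by omega)
  refine ⟨R₂ + 40 * X * (R₁ + 4) + (80 * X) ^ (n + 2) * (10 ^ 5 * G) +
    128 * df 2 * X ^ 3 + X, fun R hR r M D V₀ m hM hm hD1 hW₀ hχ => ?_⟩
  obtain ⟨s, q, p, J, hW, hq, ha2, hRs, hp, hJ, hR1, hR2, hR4⟩ := hpar R (by omega)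
  have hG5 : 10 ^ 5 * G ≤ R := by
    have h1 : 1 * (10 ^ 5 * G) ≤ (80 * X) ^ (n + 2) * (10 ^ 5 * G) :=
      Nat.mul_le_mul_right _ (Nat.one_le_pow _ _ (by omega))
    omega
  have hR0 : 1 ≤ R := by omega
  have hM1 : 1 ≤ M := (Nat.one_le_pow _ _ hR0).trans hM
  -- the plane
  obtain ⟨ρ, hρ⟩ : ∃ ρ, ρ = R / (40 * X) := ⟨_, rfl⟩
  have hρ1 : R₁ + 4 ≤ ρ := by
    rw [hρ, Nat.le_div_iff_mul_le (by omega), Nat.mul_comm]
    omega
  have hWP := winP_of_FP (T := ρ ^ (n + 2)) (ρ := ρ) (Nat.one_le_pow _ _ (by omega)) (by omega)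
    (hFP ρ (by omega))
  have hR3 : 40 * X * ρ ≤ R := by
    rw [hρ]
    exact Nat.mul_div_le R (40 * X)
  -- the largest multiplicity of the strips
  obtain ⟨τ, hτ⟩ : ∃ τ, τ = R ^ (n + 2) := ⟨_, rfl⟩
  have hτ0 : 1 ≤ τ := by
    rw [hτ]
    exact Nat.one_le_pow _ _ (by omega)
  have hτM : τ ^ 2 ≤ M := by
    calc τ ^ 2 = R ^ (2 * n + 4) := by rw [hτ, ← pow_mul]; congr 1; ring
      _ ≤ M := hM
  have hτs : τ ≤ (s + 1) ^ (2 * (n + 2)) := by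
    rw [hτ, pow_mul]
    exact Nat.pow_le_pow_left hRs _
  have hJ' : 100 * p ^ 2 + 64 * p ^ 2 * (Nat.log 2 (τ + 1) + 2) + 2 ≤ J := by
    refine le_trans ?_ hJ
    have h1 : Nat.log 2 (τ + 1) ≤ Nat.log 2 ((s + 1) ^ (2 * (n + 2)) + 1) :=
      Nat.log_mono_right (Nat.add_le_add_right hτs 1)
    gcongr
  have hτ1 : X * τ ^ 2 ≤ (s + 1) ^ 1 * D := by
    have h1 : X ≤ R := by omega
    calc X * τ ^ 2 ≤ R * M := Nat.mul_le_mul h1 hτM
      _ ≤ D := hD1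
      _ ≤ (s + 1) ^ 1 * D := Nat.le_mul_of_pos_left _ (by positivity)
  have hτ2 : 2 ^ (2 * K + 3) * df K * τ ^ (2 * K) * X ^ (2 * K - 1) ≤ D ^ (2 * K - 1) := by
    rw [hK]
    change 2 ^ 7 * df 2 * τ ^ 4 * X ^ 3 ≤ D ^ 3
    have h1 : 128 * df 2 * X ^ 3 ≤ R := by omega
    calc 2 ^ 7 * df 2 * τ ^ 4 * X ^ 3 = (128 * df 2 * X ^ 3) * (τ ^ 2) ^ 2 := by ring
      _ ≤ R * M ^ 2 := Nat.mul_le_mul h1 (Nat.pow_le_pow_left hτM 2)
      _ ≤ R ^ 3 * M ^ 3 := Nat.mul_le_mul (Nat.le_self_pow (by norm_num) R)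
          (Nat.pow_le_pow_right hM1 (by norm_num))
      _ = (R * M) ^ 3 := by ring
      _ ≤ D ^ 3 := Nat.pow_le_pow_left hD1 3
  have hTP : 10 ^ 5 * G * R ^ (n + 1) ≤ ρ ^ (n + 2) := by
    have h1 : R ≤ 80 * X * ρ := by
      have := zp_div (R := R) (Z := 40 * X) (by omega) (by omega)
      rw [← hρ] at this
      calc R ≤ 2 * (40 * X) * ρ := this
        _ = 80 * X * ρ := by ring
    refine zp_pow h1 ?_ (by omega)
    have h3 : (80 * X) ^ (n + 2) * (10 ^ 5 * G) ≤ R := by omega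
    calc (80 * X) ^ (n + 2) * (10 ^ 5 * G * R ^ (n + 1))
        = ((80 * X) ^ (n + 2) * (10 ^ 5 * G)) * R ^ (n + 1) := by ring
      _ ≤ R * R ^ (n + 1) := Nat.mul_le_mul_right _ h3
      _ = R ^ (n + 2) := by ring
  have hD2 : R ^ 2 * M ^ 2 ≤ D ^ 2 := by
    rw [← mul_pow]
    exact Nat.pow_le_pow_left hD1 2
  have hV1 : 10 ^ 5 * G * (M ^ 2 * τ) ≤ ρ ^ (n + 2) * D ^ 2 := by
    calc 10 ^ 5 * G * (M ^ 2 * τ) = (10 ^ 5 * G * R ^ (n + 1)) * (R * M ^ 2) := by rw [hτ]; ring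
      _ ≤ ρ ^ (n + 2) * (R ^ 2 * M ^ 2) := by
          gcongr
          exact Nat.le_self_pow (by norm_num) R
      _ ≤ ρ ^ (n + 2) * D ^ 2 := Nat.mul_le_mul_left _ hD2
  obtain ⟨W, hW'⟩ : ∃ W, W = G * V₀ + ∑ i, (if m i ≤ τ then m i else 0) := ⟨_, rfl⟩
  have hDW : D ^ 2 ≤ R ^ n * W := by
    rw [hW', hτ]
    refine hW₀.trans (Nat.mul_le_mul_left _ (Nat.add_le_add_right ?_ _))
    exact Nat.le_mul_of_pos_left _ hG1
  have hRn : 0 < R ^ n := pow_pos (by omega) n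
  have hV2 : 3 * (G * (500 * J * D)) ≤ W := by
    have h1 : 1500 * (J * G) ≤ R := by nlinarith
    refine Nat.le_of_mul_le_mul_left (c := R ^ n) ?_ hRn
    calc R ^ n * (3 * (G * (500 * J * D))) = R ^ n * (1500 * (J * G)) * D := by ring
      _ ≤ R ^ n * R * D := by gcongr
      _ = R ^ (n + 1) * D := by ring
      _ ≤ D * D := by
          refine Nat.mul_le_mul_right _ ?_
          calc R ^ (n + 1) ≤ R ^ (2 * n + 4) := Nat.pow_le_pow_right hR0 (by omega)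
            _ ≤ M := hM
            _ ≤ R * M := Nat.le_mul_of_pos_left _ hR0
            _ ≤ D := hD1
      _ = D ^ 2 := (sq D).symm
      _ ≤ R ^ n * W := hDW
  have hV3 : 3 * (G * (50 * D ^ 2)) ≤ W * (τ + 1) := by
    calc 3 * (G * (50 * D ^ 2)) = 150 * G * D ^ 2 := by ring
      _ ≤ R * (R ^ n * W) := Nat.mul_le_mul (by omega) hDW
      _ = R ^ (n + 1) * W := by ring
      _ ≤ R ^ (n + 2) * W := Nat.mul_le_mul_right _ (Nat.pow_le_pow_right hR0 (by omega))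
      _ = W * τ := by rw [hτ]; ring
      _ ≤ W * (τ + 1) := Nat.mul_le_mul_left _ (Nat.le_succ τ)
  have hV4 : 3 * (G * (400 * (M + 1) ^ 2)) ≤ ρ ^ (n + 2) * W := by
    refine Nat.le_of_mul_le_mul_left (c := R ^ n) ?_ hRn
    calc R ^ n * (3 * (G * (400 * (M + 1) ^ 2)))
        ≤ R ^ n * (3 * (G * (400 * (2 * M) ^ 2))) := by gcongr; omega
      _ = 4800 * G * R ^ n * M ^ 2 := by ring
      _ ≤ 10 ^ 5 * G * R ^ (n + 1) * (R ^ 2 * M ^ 2) := by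
          have h1 : R ^ n ≤ R ^ (n + 1) := Nat.pow_le_pow_right hR0 (by omega)
          have h2 : M ^ 2 ≤ R ^ 2 * M ^ 2 := Nat.le_mul_of_pos_left _ (by positivity)
          gcongr
          norm_num
      _ ≤ ρ ^ (n + 2) * D ^ 2 := Nat.mul_le_mul hTP hD2
      _ ≤ ρ ^ (n + 2) * (R ^ n * W) := Nat.mul_le_mul_left _ hDW
      _ = R ^ n * (ρ ^ (n + 2) * W) := by ring
  have hV : G * (ρ ^ (n + 2) * (500 * J * D * (τ + 1) + 50 * D ^ 2) +
      400 * (M + 1) ^ 2 * (τ + 1)) ≤ ρ ^ (n + 2) * (W * (τ + 1)) := by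
    have h1 : 3 * (G * (ρ ^ (n + 2) * (500 * J * D * (τ + 1)))) ≤
        ρ ^ (n + 2) * (W * (τ + 1)) := by
      calc 3 * (G * (ρ ^ (n + 2) * (500 * J * D * (τ + 1))))
          = ρ ^ (n + 2) * ((3 * (G * (500 * J * D))) * (τ + 1)) := by ring
        _ ≤ ρ ^ (n + 2) * (W * (τ + 1)) := by gcongr
    have h2 : 3 * (G * (ρ ^ (n + 2) * (50 * D ^ 2))) ≤ ρ ^ (n + 2) * (W * (τ + 1)) := by
      calc 3 * (G * (ρ ^ (n + 2) * (50 * D ^ 2)))
          = ρ ^ (n + 2) * (3 * (G * (50 * D ^ 2))) := by ring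
        _ ≤ ρ ^ (n + 2) * (W * (τ + 1)) := Nat.mul_le_mul_left _ hV3
    have h3 : 3 * (G * (400 * (M + 1) ^ 2 * (τ + 1))) ≤ ρ ^ (n + 2) * (W * (τ + 1)) := by
      calc 3 * (G * (400 * (M + 1) ^ 2 * (τ + 1)))
          = (3 * (G * (400 * (M + 1) ^ 2))) * (τ + 1) := by ring
        _ ≤ (ρ ^ (n + 2) * W) * (τ + 1) := Nat.mul_le_mul_right _ hV4
        _ = ρ ^ (n + 2) * (W * (τ + 1)) := by ring
    rw [Nat.mul_add, Nat.mul_add, Nat.mul_add]
    omega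
  apply zw_ns
  intro U S hUS
  have hUS' : V₀ ≤ U + S := by
    rcases hχ with h | h
    · rw [h] at hUS
      exact hUS
    · rw [h]
      exact Nat.zero_le _
  rw [hW'] at hV
  exact plane_window_step2 hC2 hW hWP (Nat.one_le_pow _ _ (Nat.succ_pos s))
    (Nat.one_le_pow _ _ (by omega)) hq ha2 (by omega) (by omega) hp hJ'
    (hG.ge.trans' (Nat.le_add_right _ _)) (hG.ge.trans' (Nat.le_add_left _ _)) hX.ge hR1 hR2 hR3
    hR4 hM1 hm hD1 hτ1 hτ2 (Or.inr hV1) hV U S hUS'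

/-- **The windows**: multiplicities at most `M`, degree at least `R M`. -/
theorem level_main (n : ℕ) : ∃ R₀ : ℕ, ∀ R, R₀ ≤ R → ∀ (r M D : ℕ) (m : Fin r → ℕ),
    1 ≤ M → (∀ i, m i ≤ M) → R * M ≤ D →
    (M ≤ R ^ n ∨
      (D : ℤ) ^ 2 ≤ R ^ n * |((D + 2).choose 2 : ℤ) - ∑ i, ((m i + 1).choose 2 : ℤ)| ∨
      D ^ 2 ≤ R ^ n * ∑ i, if m i ≤ R ^ n then m i else 0) →
      hPm D m = (D + 2).choose 2 - ∑ i, (m i + 1).choose 2 := by
  obtain ⟨R₁, h1⟩ := FP_level (2 * n + 4)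
  obtain ⟨R₂, h2⟩ := zw_main n
  refine ⟨R₁ + R₂ + 2, fun R hR r M D m hM hm hD h => ?_⟩
  rcases le_total M (R ^ (2 * n + 4)) with h3 | h3
  · exact h1 R (by omega) r M D m hM h3 hm hD
  · rcases h with h | h | h
    · have h5 : R ^ n < R ^ (2 * n + 4) := Nat.pow_lt_pow_right (by omega) (by omega)
      omega
    · refine h2 R (by omega) r M D _ m h3 hm hD ?_ (Or.inl rfl)
      rw [Int.abs_eq_natAbs] at h
      have h4 : D ^ 2 ≤ R ^ n *
          (((D + 2).choose 2 : ℤ) - ∑ i, ((m i + 1).choose 2 : ℤ)).natAbs := by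
        exact_mod_cast h
      exact h4.trans (Nat.mul_le_mul_left _ (Nat.le_add_right _ _))
    · refine h2 R (by omega) r M D 0 m h3 hm hD ?_ (Or.inr rfl)
      rw [Nat.zero_add]
      refine h.trans (Nat.mul_le_mul_left _ (Finset.sum_le_sum fun i _ => ?_))
      have h6 : R ^ n ≤ R ^ (n + 2) := Nat.pow_le_pow_right (by omega) (by omega)
      split_ifs <;> omega

/-- **The windows**, with real exponents. -/
theorem all_windows {A : ℝ} (hA : 0 < A) : ∃ R : ℝ, ∀ (r d M : ℕ) (p : Fin r → V3)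
    (m : Fin r → ℕ), GenericPoints p → 1 ≤ M → (∀ i, m i ≤ M) → R * M ≤ d →
    ((M : ℝ) ≤ ((d : ℝ) / M) ^ A ∨
      (M : ℝ) ^ 2 * ((M : ℝ) / d) ^ A ≤
        |((d + 2).choose 2 : ℝ) - ∑ i, ((m i + 1).choose 2 : ℝ)| ∨
      (d : ℝ) ^ 2 * ((M : ℝ) / d) ^ A ≤
        ∑ i, if (m i : ℝ) ≤ ((d : ℝ) / M) ^ A then ((m i + 1).choose 2 : ℝ) else 0) →
      finrank ℂ (linSys d p m) = (d + 2).choose 2 - ∑ i, (m i + 1).choose 2 := by
  obtain ⟨n, hn⟩ := exists_nat_ge A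
  obtain ⟨R₀, hR₀⟩ := level_main (4 * n + 4)
  refine ⟨R₀ + 2, fun r d M p m hp hM hm hd h => ?_⟩
  rw [hPm_eq hp]
  have hd' : (R₀ + 2) * M ≤ d := by exact_mod_cast hd
  obtain ⟨R, hR⟩ : ∃ R, R = d / M := ⟨_, rfl⟩
  have hRR : R₀ + 2 ≤ R := by
    rw [hR, Nat.le_div_iff_mul_le hM]
    exact hd'
  have hD1 : R * M ≤ d := by
    rw [hR]
    exact Nat.div_mul_le_self d M
  have hD2 : d ≤ (R + 1) * M := by
    have h3 : d < M * (d / M + 1) := Nat.lt_mul_div_succ d hM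
    rw [← hR] at h3
    nlinarith
  have hD3 : d ≤ R ^ 2 * M := hD2.trans (Nat.mul_le_mul_right M (by nlinarith))
  have hMR : (0 : ℝ) < M := by exact_mod_cast hM
  have hdR : (0 : ℝ) < d := by
    have : 0 < d := by nlinarith
    exact_mod_cast this
  have hquot1 : (1 : ℝ) ≤ (d : ℝ) / M := by
    rw [one_le_div hMR]
    have : M ≤ d := by nlinarith
    exact_mod_cast this
  have hquot2 : (d : ℝ) / M ≤ ((R ^ 2 : ℕ) : ℝ) := by
    rw [div_le_iff₀ hMR]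
    exact_mod_cast hD3
  obtain ⟨B, hB⟩ : ∃ B, B = R ^ (2 * n) := ⟨_, rfl⟩
  have hpow : ((d : ℝ) / M) ^ A ≤ (B : ℝ) := by
    calc ((d : ℝ) / M) ^ A ≤ ((d : ℝ) / M) ^ (n : ℝ) :=
          Real.rpow_le_rpow_of_exponent_le hquot1 hn
      _ = ((d : ℝ) / M) ^ n := Real.rpow_natCast _ _
      _ ≤ ((R ^ 2 : ℕ) : ℝ) ^ n := pow_le_pow_left₀ (by positivity) hquot2 n
      _ = (B : ℝ) := by
        rw [hB]
        push_cast
        rw [← pow_mul]
  have hpos : (0 : ℝ) < ((d : ℝ) / M) ^ A := by positivity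
  have hinv : ((M : ℝ) / d) ^ A * ((d : ℝ) / M) ^ A = 1 := by
    rw [← Real.mul_rpow (by positivity) (by positivity), div_mul_div_comm, mul_comm (d : ℝ),
      div_self (by positivity), Real.one_rpow]
  -- removing the exponent
  have hrem : ∀ x y : ℝ, 0 ≤ y → x * ((M : ℝ) / d) ^ A ≤ y → x ≤ (B : ℝ) * y := by
    intro x y hy hxy
    calc x = ((d : ℝ) / M) ^ A * (x * ((M : ℝ) / d) ^ A) := by linear_combination -x * hinv
      _ ≤ ((d : ℝ) / M) ^ A * y := by gcongr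
      _ ≤ (B : ℝ) * y := by gcongr
  have hR1 : 1 ≤ R := by omega
  refine hR₀ R (by omega) r M d m hM hm hD1 ?_
  rcases h with h | h | h
  · left
    have h1 : M ≤ B := by exact_mod_cast h.trans hpow
    rw [hB] at h1
    exact h1.trans (Nat.pow_le_pow_right hR1 (by omega))
  · right
    left
    have h1 := hrem _ _ (abs_nonneg _) h
    have h2 : ((M ^ 2 : ℕ) : ℤ) ≤ (B : ℤ) *
        |((d + 2).choose 2 : ℤ) - ∑ i, ((m i + 1).choose 2 : ℤ)| := by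
      have h4 : ((((M ^ 2 : ℕ) : ℤ)) : ℝ) ≤ (((B : ℤ) *
        |((d + 2).choose 2 : ℤ) - ∑ i, ((m i + 1).choose 2 : ℤ)| : ℤ) : ℝ) := by
        push_cast
        exact h1
      exact_mod_cast h4
    have h3 : ((d ^ 2 : ℕ) : ℤ) ≤ ((R ^ 4 : ℕ) : ℤ) * ((M ^ 2 : ℕ) : ℤ) := by
      have : d ^ 2 ≤ R ^ 4 * M ^ 2 := by
        calc d ^ 2 ≤ (R ^ 2 * M) ^ 2 := Nat.pow_le_pow_left hD3 2
          _ = R ^ 4 * M ^ 2 := by ring
      exact_mod_cast this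
    have h5 : ((R ^ 4 * B : ℕ) : ℤ) ≤ ((R ^ (4 * n + 4) : ℕ) : ℤ) := by
      have : R ^ 4 * B ≤ R ^ (4 * n + 4) := by
        rw [hB, ← pow_add]
        exact Nat.pow_le_pow_right hR1 (by omega)
      exact_mod_cast this
    calc (d : ℤ) ^ 2 = ((d ^ 2 : ℕ) : ℤ) := by push_cast; rfl
      _ ≤ ((R ^ 4 : ℕ) : ℤ) * ((M ^ 2 : ℕ) : ℤ) := h3
      _ ≤ ((R ^ 4 : ℕ) : ℤ) * ((B : ℤ) *
          |((d + 2).choose 2 : ℤ) - ∑ i, ((m i + 1).choose 2 : ℤ)|) := by gcongr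
      _ = ((R ^ 4 * B : ℕ) : ℤ) *
          |((d + 2).choose 2 : ℤ) - ∑ i, ((m i + 1).choose 2 : ℤ)| := by
        push_cast
        ring
      _ ≤ ((R ^ (4 * n + 4) : ℕ) : ℤ) *
          |((d + 2).choose 2 : ℤ) - ∑ i, ((m i + 1).choose 2 : ℤ)| := by gcongr
      _ = _ := by push_cast; rfl
  · right
    right
    have h1 := hrem _ _ (Finset.sum_nonneg fun i _ => by positivity) h
    have h2 : (∑ i, if (m i : ℝ) ≤ ((d : ℝ) / M) ^ A then ((m i + 1).choose 2 : ℝ) else 0) ≤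
        (B : ℝ) * ((∑ i, if m i ≤ R ^ (4 * n + 4) then m i else 0 : ℕ) : ℝ) := by
      rw [Nat.cast_sum, Finset.mul_sum]
      refine Finset.sum_le_sum fun i _ => ?_
      split_ifs with h3 h4 h4
      · have h5 : m i ≤ B := by exact_mod_cast h3.trans hpow
        have h6 : (m i + 1).choose 2 ≤ B * m i := by
          rcases Nat.eq_zero_or_pos (m i) with h7 | h7
          · rw [h7]
            simp
          · have h8 : (m i + 1).choose 2 ≤ m i * m i := by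
              rw [Nat.choose_two_right, Nat.add_sub_cancel]
              apply Nat.div_le_of_le_mul
              nlinarith
            exact h8.trans (Nat.mul_le_mul_right _ h5)
        exact_mod_cast h6
      · exfalso
        apply h4
        have h5 : m i ≤ B := by exact_mod_cast h3.trans hpow
        rw [hB] at h5
        exact h5.trans (Nat.pow_le_pow_right hR1 (by omega))
      · positivity
      · simp
    have h3 : ((d ^ 2 : ℕ) : ℝ) ≤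
        ((B * (B * ∑ i, if m i ≤ R ^ (4 * n + 4) then m i else 0) : ℕ) : ℝ) := by
      push_cast
      push_cast at h2
      calc (d : ℝ) ^ 2 ≤ _ := h1
        _ ≤ _ := by gcongr
    have h4 : d ^ 2 ≤ B * (B * ∑ i, if m i ≤ R ^ (4 * n + 4) then m i else 0) := by
      exact_mod_cast h3
    refine h4.trans ?_
    rw [← Nat.mul_assoc]
    refine Nat.mul_le_mul_right _ ?_
    rw [hB, ← pow_add]
    exact Nat.pow_le_pow_right hR1 (by omega)

end Pool.Agent.Work.MP_0421d9_ag.LD
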