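import Pool.Agent.Work.MP_0421d9_ag.ZCDat
import Pool.Agent.Work.MP_0421d9_ag.ZPWin2

/-!
The choice of the clusters. Disjoint sets of points with the same number of conditions, from
the pigeonhole principle; four copies of the same number allow to avoid the number of conditions
which are close to triangular numbers.
-/

set_option linter.unusedSectionVars false

namespace Pool.Agent.Work.MP_0421d9_ag.ZC

open MvPolynomial Module SM

section pigeon

/-- two disjoint sets with the same sum -/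
theorem pigeon {κ : Type} [DecidableEq κ] (S : Finset κ) (c : κ → ℕ) {K n : ℕ}
    (h1 : ∀ i ∈ S, 1 ≤ c i) (hK : ∀ i ∈ S, c i ≤ K) (hn : S.card = n) (h : n * K + 1 < 2 ^ n) :
    ∃ A B : Finset κ, A ⊆ S ∧ B ⊆ S ∧ Disjoint A B ∧ ∑ i ∈ A, c i = ∑ i ∈ B, c i ∧
      1 ≤ ∑ i ∈ A, c i := by
  have hmaps : ∀ X ∈ S.powerset, (∑ i ∈ X, c i) ∈ Finset.range (n * K + 1) := by
    intro X hX
    rw [Finset.mem_powerset] at hX
    rw [Finset.mem_range, Nat.lt_succ_iff]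
    calc ∑ i ∈ X, c i ≤ ∑ i ∈ X, K := Finset.sum_le_sum (fun i hi => hK i (hX hi))
      _ = X.card * K := by rw [Finset.sum_const, smul_eq_mul]
      _ ≤ n * K := Nat.mul_le_mul_right _ (hn ▸ Finset.card_le_card hX)
  obtain ⟨X, hX, Y, hY, hne, heq⟩ := Finset.exists_ne_map_eq_of_card_lt_of_maps_to
    (by rw [Finset.card_range, Finset.card_powerset, hn]; exact h) hmaps
  rw [Finset.mem_powerset] at hX hY
  have hXs : ∑ i ∈ X \ Y, c i + ∑ i ∈ X ∩ Y, c i = ∑ i ∈ X, c i := by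
    rw [← Finset.sum_union (Finset.disjoint_sdiff_inter X Y), Finset.sdiff_union_inter]
  have hYs : ∑ i ∈ Y \ X, c i + ∑ i ∈ X ∩ Y, c i = ∑ i ∈ Y, c i := by
    rw [Finset.inter_comm, ← Finset.sum_union (Finset.disjoint_sdiff_inter Y X),
      Finset.sdiff_union_inter]
  have heq2 : ∑ i ∈ X \ Y, c i = ∑ i ∈ Y \ X, c i := by omega
  refine ⟨X \ Y, Y \ X, Finset.sdiff_subset.trans hX, Finset.sdiff_subset.trans hY,
    disjoint_sdiff_sdiff, heq2, ?_⟩
  by_contra hcon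
  have h0 : ∑ i ∈ X \ Y, c i = 0 := by omega
  have h0' : ∑ i ∈ Y \ X, c i = 0 := by omega
  rw [Finset.sum_eq_zero_iff] at h0 h0'
  apply hne
  apply Finset.Subset.antisymm
  · rw [← Finset.sdiff_eq_empty_iff_subset, Finset.eq_empty_iff_forall_notMem]
    intro i hi
    have := h1 i (hX (Finset.mem_sdiff.mp hi).1)
    have := h0 i hi
    omega
  · rw [← Finset.sdiff_eq_empty_iff_subset, Finset.eq_empty_iff_forall_notMem]
    intro i hi
    have := h1 i (hY (Finset.mem_sdiff.mp hi).1)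
    have := h0' i hi
    omega

variable {ι : Type} [DecidableEq ι]

/-- four disjoint sets with the same sum -/
def Quad (S : Finset ι) (c : ι → ℕ) (T : ℕ) : Prop :=
  ∃ Q : Fin 4 → Finset ι, (∀ j, Q j ⊆ S) ∧ (∀ j k, j ≠ k → Disjoint (Q j) (Q k)) ∧
    ∀ j, ∑ i ∈ Q j, c i = T

theorem exists_quad (S : Finset ι) (c : ι → ℕ) {K N : ℕ} (h1 : ∀ i ∈ S, 1 ≤ c i)
    (hK : ∀ i ∈ S, c i ≤ K) (hN : N * N ≤ S.card) (h : N * (N * K) + 1 < 2 ^ N) :
    ∃ T, 1 ≤ T ∧ T ≤ N * (N * K) ∧ Quad S c T := by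
  have hN1 : 1 ≤ N := by
    rcases Nat.eq_zero_or_pos N with h0 | h0
    · rw [h0] at h
      simp at h
    · exact h0
  obtain ⟨f⟩ : Nonempty ((Σ _ : Fin N, Fin N) ↪ S) := by
    apply Function.Embedding.nonempty_of_card_le
    rw [Fintype.card_sigma, Finset.sum_const, Fintype.card_fin, Finset.card_univ, Fintype.card_fin,
      smul_eq_mul, Fintype.card_coe]
    exact hN
  obtain ⟨g, hg⟩ : ∃ g : (Σ _ : Fin N, Fin N) ↪ ι, g = f.trans (Function.Embedding.subtype _) :=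
    ⟨_, rfl⟩
  have hgS : ∀ z, g z ∈ S := fun z => by
    rw [hg]
    exact (f z).2
  -- the blocks
  have hblock : ∀ k : Fin N, ∃ A B : Finset (Fin N), Disjoint A B ∧
      ∑ j ∈ A, c (g ⟨k, j⟩) = ∑ j ∈ B, c (g ⟨k, j⟩) ∧ 1 ≤ ∑ j ∈ A, c (g ⟨k, j⟩) := by
    intro k
    obtain ⟨A, B, -, -, h2, h3, h4⟩ := pigeon (Finset.univ : Finset (Fin N))
      (fun j => c (g ⟨k, j⟩)) (K := K) (n := N) (fun j _ => h1 _ (hgS _)) (fun j _ => hK _ (hgS _))
      (by rw [Finset.card_univ, Fintype.card_fin]) (by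
        refine lt_of_le_of_lt ?_ h
        have : N * K ≤ N * (N * K) := Nat.le_mul_of_pos_left _ hN1
        omega)
    exact ⟨A, B, h2, h3, h4⟩
  choose A B hAB heq hpos using hblock
  have hTle : ∀ k, ∑ j ∈ A k, c (g ⟨k, j⟩) ≤ N * K := by
    intro k
    calc ∑ j ∈ A k, c (g ⟨k, j⟩) ≤ ∑ j ∈ A k, K := Finset.sum_le_sum (fun j _ => hK _ (hgS _))
      _ = (A k).card * K := by rw [Finset.sum_const, smul_eq_mul]
      _ ≤ N * K := Nat.mul_le_mul_right _ ((Finset.card_le_univ _).trans (by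
        rw [Fintype.card_fin]))
  obtain ⟨I, J, -, -, hIJ, heq2, hpos2⟩ := pigeon (Finset.univ : Finset (Fin N))
    (fun k => ∑ j ∈ A k, c (g ⟨k, j⟩)) (K := N * K) (n := N) (fun k _ => hpos k)
    (fun k _ => hTle k) (by rw [Finset.card_univ, Fintype.card_fin]) h
  have hsum : ∀ (L : Finset (Fin N)) (E : Fin N → Finset (Fin N)),
      ∑ i ∈ (L.sigma E).map g, c i = ∑ k ∈ L, ∑ j ∈ E k, c (g ⟨k, j⟩) := by
    intro L E
    rw [Finset.sum_map, Finset.sum_sigma]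
  have hdisj : ∀ (L L' : Finset (Fin N)) (E E' : Fin N → Finset (Fin N)),
      (Disjoint L L' ∨ ∀ k, Disjoint (E k) (E' k)) →
        Disjoint ((L.sigma E).map g) ((L'.sigma E').map g) := by
    intro L L' E E' h
    rw [Finset.disjoint_map, Finset.disjoint_left]
    rintro ⟨k, j⟩ hz hz'
    rw [Finset.mem_sigma] at hz hz'
    rcases h with h | h
    · exact Finset.disjoint_left.mp h hz.1 hz'.1
    · exact Finset.disjoint_left.mp (h k) hz.2 hz'.2
  refine ⟨∑ k ∈ I, ∑ j ∈ A k, c (g ⟨k, j⟩), hpos2, ?_,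
    ![(I.sigma A).map g, (I.sigma B).map g, (J.sigma A).map g, (J.sigma B).map g], ?_, ?_, ?_⟩
  · calc ∑ k ∈ I, ∑ j ∈ A k, c (g ⟨k, j⟩) ≤ ∑ k ∈ I, N * K :=
        Finset.sum_le_sum (fun k _ => hTle k)
      _ = I.card * (N * K) := by rw [Finset.sum_const, smul_eq_mul]
      _ ≤ N * (N * K) := Nat.mul_le_mul_right _ ((Finset.card_le_univ _).trans (by
        rw [Fintype.card_fin]))
  · have hsub : ∀ (L : Finset (Fin N)) (E : Fin N → Finset (Fin N)), (L.sigma E).map g ⊆ S := by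
      intro L E i hi
      rw [Finset.mem_map] at hi
      obtain ⟨z, -, rfl⟩ := hi
      exact hgS z
    intro j
    fin_cases j <;> exact hsub _ _
  · have hBA : ∀ k, Disjoint (B k) (A k) := fun k => (hAB k).symm
    intro j k hjk
    fin_cases j <;> fin_cases k <;> first
      | exact absurd rfl hjk
      | exact hdisj _ _ _ _ (Or.inl hIJ)
      | exact hdisj _ _ _ _ (Or.inl hIJ.symm)
      | exact hdisj _ _ _ _ (Or.inr hAB)
      | exact hdisj _ _ _ _ (Or.inr hBA)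
  · have e1 : ∑ k ∈ I, ∑ j ∈ B k, c (g ⟨k, j⟩) = ∑ k ∈ I, ∑ j ∈ A k, c (g ⟨k, j⟩) :=
      Finset.sum_congr rfl (fun k _ => (heq k).symm)
    have e2 : ∑ k ∈ J, ∑ j ∈ B k, c (g ⟨k, j⟩) = ∑ k ∈ J, ∑ j ∈ A k, c (g ⟨k, j⟩) :=
      Finset.sum_congr rfl (fun k _ => (heq k).symm)
    intro j
    fin_cases j
    · exact hsum _ _
    · exact (hsum _ _).trans e1
    · exact (hsum _ _).trans heq2.symm
    · exact (hsum _ _).trans (e2.trans heq2.symm)

theorem Quad.add {S : Finset ι} {c : ι → ℕ} {T T' : ℕ} {Q : Fin 4 → Finset ι} (hQ : ∀ j, Q j ⊆ S)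
    (hd : ∀ j k, j ≠ k → Disjoint (Q j) (Q k)) (hs : ∀ j, ∑ i ∈ Q j, c i = T)
    (h' : Quad (S \ Finset.univ.biUnion Q) c T') : Quad S c (T + T') := by
  obtain ⟨Q', hQ', hd', hs'⟩ := h'
  have hcross : ∀ j k, Disjoint (Q j) (Q' k) := by
    intro j k
    rw [Finset.disjoint_left]
    intro i hi hi'
    have := hQ' k hi'
    rw [Finset.mem_sdiff, Finset.mem_biUnion] at this
    exact this.2 ⟨j, Finset.mem_univ _, hi⟩
  refine ⟨fun j => Q j ∪ Q' j, fun j => ?_, fun j k hjk => ?_, fun j => ?_⟩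
  · exact Finset.union_subset (hQ j) ((hQ' j).trans Finset.sdiff_subset)
  · rw [Finset.disjoint_union_left, Finset.disjoint_union_right, Finset.disjoint_union_right]
    exact ⟨⟨hd j k hjk, hcross j k⟩, (hcross k j).symm, hd' j k hjk⟩
  · rw [Finset.sum_union (hcross j j), hs, hs']

/-- quadruples of any size -/
theorem exists_quad_ge (S : Finset ι) (c : ι → ℕ) {K N : ℕ} (h1 : ∀ i ∈ S, 1 ≤ c i)
    (hK : ∀ i ∈ S, c i ≤ K) (h : N * (N * K) + 1 < 2 ^ N) (t : ℕ)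
    (ht : 4 * t + N * N * K ≤ ∑ i ∈ S, c i) :
    ∃ T, t ≤ T ∧ T ≤ t + N * (N * K) ∧ Quad S c T := by
  induction t with
  | zero => exact ⟨0, le_rfl, Nat.zero_le _, fun _ => ∅, fun _ => Finset.empty_subset _,
      fun _ _ _ => Finset.disjoint_empty_left _, fun _ => Finset.sum_empty⟩
  | succ t ih =>
    obtain ⟨T, hT1, hT2, Q, hQ, hd, hs⟩ := ih (by omega)
    rcases Nat.lt_or_ge t T with hlt | hge
    · exact ⟨T, hlt, by omega, Q, hQ, hd, hs⟩
    · have hTt : T = t := le_antisymm hge hT1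
      subst hTt
      have hsum : ∑ i ∈ Finset.univ.biUnion Q, c i = 4 * T := by
        rw [Finset.sum_biUnion (fun j _ k _ hjk => hd j k hjk), Finset.sum_congr rfl (fun j _ => hs j),
          Finset.sum_const, Finset.card_univ, Fintype.card_fin, smul_eq_mul]
      have hsub : Finset.univ.biUnion Q ⊆ S := by
        rw [Finset.biUnion_subset]
        exact fun j _ => hQ j
      have hrest : ∑ i ∈ S \ Finset.univ.biUnion Q, c i + 4 * T = ∑ i ∈ S, c i := by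
        rw [← hsum]
        exact Finset.sum_sdiff hsub
      have hcard : N * N ≤ (S \ Finset.univ.biUnion Q).card := by
        by_contra hcon
        rw [not_le] at hcon
        have h2 : ∑ i ∈ S \ Finset.univ.biUnion Q, c i ≤ (S \ Finset.univ.biUnion Q).card * K := by
          calc _ ≤ ∑ i ∈ S \ Finset.univ.biUnion Q, K :=
                Finset.sum_le_sum (fun i hi => hK i (Finset.mem_sdiff.mp hi).1)
            _ = _ := by rw [Finset.sum_const, smul_eq_mul]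
        have h3 : (S \ Finset.univ.biUnion Q).card * K ≤ N * N * K :=
          Nat.mul_le_mul_right _ hcon.le
        omega
      obtain ⟨T', hT'1, hT'2, hT'⟩ := exists_quad (S \ Finset.univ.biUnion Q) c
        (fun i hi => h1 i (Finset.mem_sdiff.mp hi).1) (fun i hi => hK i (Finset.mem_sdiff.mp hi).1)
        hcard h
      exact ⟨T + T', by omega, by omega, Quad.add hQ hd hs hT'⟩

end pigeon

section middle

/-- the critical degree of a number of conditions -/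
theorem pick_crit (T : ℕ) : ∃ μ w : ℕ, T = (μ + 1).choose 2 + w ∧ w ≤ μ := by
  induction T with
  | zero => exact ⟨0, 0, rfl, le_rfl⟩
  | succ T ih =>
    obtain ⟨μ, w, h1, h2⟩ := ih
    rcases Nat.lt_or_ge w μ with h | h
    · exact ⟨μ, w + 1, by omega, h⟩
    · refine ⟨μ + 1, 0, ?_, Nat.zero_le _⟩
      have h3 : (μ + 1 + 1).choose 2 = (μ + 1).choose 1 + (μ + 1).choose 2 :=
        Nat.choose_succ_succ' (μ + 1) 1
      rw [Nat.choose_one_right] at h3
      omega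

theorem pick_two_choose (μ : ℕ) : 2 * (μ + 1).choose 2 = μ * μ + μ := by
  rw [Nat.choose_two_right, Nat.add_sub_cancel, Nat.mul_div_cancel' ]
  · ring
  · rw [mul_comm]
    exact (Nat.even_mul_succ_self μ).two_dvd

/-- four equal clusters: one of the two positions is in the middle -/
theorem pick_middle (T : ℕ) (hT : 10000 ≤ T) {μ w μ' w' : ℕ} (h : T = (μ + 1).choose 2 + w)
    (hw : w ≤ μ) (h' : 4 * T = (μ' + 1).choose 2 + w') (hw' : w' ≤ μ') :
    (μ ≤ 8 * w ∧ μ ≤ 8 * (μ - w)) ∨ (μ' ≤ 8 * w' ∧ μ' ≤ 8 * (μ' - w')) := by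
  have e1 := pick_two_choose μ
  have e2 := pick_two_choose μ'
  have hμ : 100 ≤ μ := by
    by_contra hcon
    have : μ * μ ≤ 99 * 99 := Nat.mul_le_mul (by omega) (by omega)
    omega
  -- `μ' μ' + μ' + 2 w' = 4 (μ μ + μ + 2 w)`
  have key : μ' * μ' + μ' + 2 * w' = 4 * (μ * μ + μ + 2 * w) := by omega
  by_cases hlow : μ ≤ 8 * w
  · by_cases hhigh : μ ≤ 8 * (μ - w)
    · exact Or.inl ⟨hlow, hhigh⟩
    · -- `w` is close to `μ`: `μ' = 2 μ + 2`
      right
      have h1 : μ' < 2 * μ + 3 := by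
        by_contra hcon
        have : (2 * μ + 3) * (2 * μ + 3) ≤ μ' * μ' := Nat.mul_le_mul (by omega) (by omega)
        have e3 : (2 * μ + 3) * (2 * μ + 3) = 4 * (μ * μ) + 12 * μ + 9 := by ring
        omega
      have h2 : 2 * μ + 1 < μ' := by
        by_contra hcon
        have : μ' * μ' ≤ (2 * μ + 1) * (2 * μ + 1) := Nat.mul_le_mul (by omega) (by omega)
        have e3 : (2 * μ + 1) * (2 * μ + 1) = 4 * (μ * μ) + 4 * μ + 1 := by ring
        omega
      have h3 : μ' = 2 * μ + 2 := by omega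
      have e3 : μ' * μ' = 4 * (μ * μ) + 8 * μ + 4 := by
        rw [h3]
        ring
      omega
  · -- `w` is small: `μ' = 2 μ`
    right
    have h1 : μ' < 2 * μ + 1 := by
      by_contra hcon
      have : (2 * μ + 1) * (2 * μ + 1) ≤ μ' * μ' := Nat.mul_le_mul (by omega) (by omega)
      have e3 : (2 * μ + 1) * (2 * μ + 1) = 4 * (μ * μ) + 4 * μ + 1 := by ring
      omega
    have h2 : 2 * μ ≤ μ' := by
      by_contra hcon
      have h3 : μ' + 1 ≤ 2 * μ := by omega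
      have : (μ' + 1) * (μ' + 1) ≤ (2 * μ) * (2 * μ) := Nat.mul_le_mul h3 h3
      have e3 : (2 * μ) * (2 * μ) = 4 * (μ * μ) := by ring
      have e4 : (μ' + 1) * (μ' + 1) = μ' * μ' + 2 * μ' + 1 := by ring
      omega
    have h3 : μ' = 2 * μ := by omega
    have e3 : μ' * μ' = 4 * (μ * μ) := by
      rw [h3]
      ring
    omega

end middle

section numbers

/-- exponentials beat powers -/
theorem exists_pow_lt_two (k C : ℕ) : ∃ N₀ : ℕ, ∀ N ≥ N₀, C * N ^ k < 2 ^ N := by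
  have h := tendsto_pow_const_div_const_pow_of_one_lt k (one_lt_two : (1 : ℝ) < 2)
  have h2 : ∀ᶠ n : ℕ in Filter.atTop, (n : ℝ) ^ k / 2 ^ n < 1 / (C + 1) :=
    h.eventually (gt_mem_nhds (by positivity))
  obtain ⟨N₀, hN₀⟩ := Filter.eventually_atTop.mp h2
  refine ⟨N₀, fun N hN => ?_⟩
  have h3 := hN₀ N hN
  rw [div_lt_div_iff₀ (by positivity) (by positivity), one_mul] at h3
  have h4 : (C : ℝ) * (N : ℝ) ^ k ≤ (N : ℝ) ^ k * (C + 1) := by
    have : (0 : ℝ) ≤ (N : ℝ) ^ k := by positivity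
    nlinarith
  have h5 : (C : ℝ) * (N : ℝ) ^ k < 2 ^ N := lt_of_le_of_lt h4 h3
  exact_mod_cast h5

theorem exists_N (a R' : ℕ) : ∃ N₀ : ℕ, ∀ N ≥ N₀, ∀ M, M ≤ (N + 1) ^ (8 * a) →
    N * (N * M ^ 2) + 1 < 2 ^ N ∧ M + 1 ≤ N ^ (8 * a + 1) ∧ R' ≤ N ∧ 100 ≤ N := by
  obtain ⟨N₁, hN₁⟩ := exists_pow_lt_two (16 * a + 2) (2 ^ (16 * a + 1))
  obtain ⟨P, hP⟩ : ∃ P, P = 2 ^ (8 * a) := ⟨_, rfl⟩
  refine ⟨N₁ + R' + 100 + (P + 1), fun N hN M hM => ?_⟩
  have hN1 : 1 ≤ N := by omega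
  have hNP : P + 1 ≤ N := by omega
  have hN1' : N₁ ≤ N := by omega
  have h1 : (N + 1) ^ (8 * a) ≤ 2 ^ (8 * a) * N ^ (8 * a) := by
    rw [← mul_pow]
    exact Nat.pow_le_pow_left (by omega) _
  have hp1 : 1 ≤ N ^ (8 * a) := Nat.one_le_pow _ _ hN1
  refine ⟨?_, ?_, by omega, by omega⟩
  · refine lt_of_le_of_lt ?_ (hN₁ N hN1')
    have h2 : M ^ 2 ≤ 2 ^ (16 * a) * N ^ (16 * a) := by
      calc M ^ 2 ≤ (2 ^ (8 * a) * N ^ (8 * a)) ^ 2 := Nat.pow_le_pow_left (hM.trans h1) 2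
        _ = 2 ^ (16 * a) * N ^ (16 * a) := by ring
    calc N * (N * M ^ 2) + 1 ≤ N * (N * (2 ^ (16 * a) * N ^ (16 * a))) + 1 :=
          Nat.add_le_add_right (Nat.mul_le_mul_left _ (Nat.mul_le_mul_left _ h2)) 1
      _ ≤ N * (N * (2 ^ (16 * a) * N ^ (16 * a))) + N * (N * (2 ^ (16 * a) * N ^ (16 * a))) := by
          have : 1 ≤ N * (N * (2 ^ (16 * a) * N ^ (16 * a))) := by
            have : 0 < N * (N * (2 ^ (16 * a) * N ^ (16 * a))) := by positivity
            omega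
          omega
      _ = 2 ^ (16 * a + 1) * N ^ (16 * a + 2) := by ring
  · calc M + 1 ≤ 2 ^ (8 * a) * N ^ (8 * a) + N ^ (8 * a) := by omega
      _ = (2 ^ (8 * a) + 1) * N ^ (8 * a) := by ring
      _ ≤ N * N ^ (8 * a) := Nat.mul_le_mul_right _ (hP ▸ hNP)
      _ = N ^ (8 * a + 1) := by ring

/-- the eighth root -/
theorem exists_root {A : ℝ} (N₀ : ℕ) {d M : ℕ} (hM : 1 ≤ M)
    (hd : ((N₀ ^ 8 + 1 : ℕ) : ℝ) * M ≤ d) (h : (M : ℝ) ≤ ((d : ℝ) / M) ^ A) :
    ∃ N ≥ N₀, N ^ 8 * M ≤ d ∧ M ≤ (N + 1) ^ (8 * ⌈A⌉₊) := by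
  have hM0 : (0 : ℝ) < M := by exact_mod_cast hM
  obtain ⟨x, hx⟩ : ∃ x : ℝ, x = (d : ℝ) / M := ⟨_, rfl⟩
  rw [← hx] at h
  have hx1 : ((N₀ : ℝ) ^ 8 + 1) ≤ x := by
    rw [hx, le_div_iff₀ hM0]
    push_cast at hd
    exact hd
  have hx2 : 1 ≤ x := by
    have : (0 : ℝ) ≤ (N₀ : ℝ) ^ 8 := by positivity
    linarith
  have hx0 : 0 ≤ x := by linarith
  obtain ⟨y, hy⟩ : ∃ y : ℝ, y = x ^ ((1 : ℝ) / 8) := ⟨_, rfl⟩
  have hy0 : 0 ≤ y := by
    rw [hy]
    exact Real.rpow_nonneg hx0 _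
  have hyx : y ^ 8 = x := by
    rw [hy, ← Real.rpow_natCast, ← Real.rpow_mul hx0]
    norm_num
  refine ⟨⌊y⌋₊, ?_, ?_, ?_⟩
  · apply Nat.le_floor
    by_contra hcon
    rw [not_le] at hcon
    have : y ^ 8 ≤ (N₀ : ℝ) ^ 8 := pow_le_pow_left₀ hy0 hcon.le 8
    rw [hyx] at this
    linarith
  · have h1 : ((⌊y⌋₊ : ℝ)) ^ 8 ≤ x := by
      rw [← hyx]
      exact pow_le_pow_left₀ (Nat.cast_nonneg _) (Nat.floor_le hy0) 8
    rw [hx, le_div_iff₀ hM0] at h1
    exact_mod_cast h1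
  · have h1 : x ≤ ((⌊y⌋₊ : ℝ) + 1) ^ 8 := by
      rw [← hyx]
      exact pow_le_pow_left₀ hy0 (Nat.lt_floor_add_one y).le 8
    have h2 : (M : ℝ) ≤ (((⌊y⌋₊ : ℝ) + 1) ^ 8) ^ ⌈A⌉₊ := by
      calc (M : ℝ) ≤ x ^ A := h
        _ ≤ x ^ (⌈A⌉₊ : ℝ) := Real.rpow_le_rpow_of_exponent_le hx2 (Nat.le_ceil A)
        _ = x ^ ⌈A⌉₊ := Real.rpow_natCast _ _
        _ ≤ _ := pow_le_pow_left₀ hx0 h1 _
    rw [← pow_mul] at h2
    exact_mod_cast h2

/-- the numerical inequalities of a cluster -/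
theorem cluster_num {M N t u T μ w : ℕ} (hM : 1 ≤ M) (hN : 100 ≤ N) (ht : t = M ^ 2 * N ^ 4)
    (hu : u = t + N * (N * M ^ 2)) (hT : T = (μ + 1).choose 2 + w) (hw : w ≤ μ)
    (h1 : μ ≤ 8 * w) (h2 : μ ≤ 8 * (μ - w)) (h3 : t ≤ T) (h4 : T ≤ 4 * u)
    (h2c : 2 * (μ + 1).choose 2 = μ * μ + μ) :
    M * N ^ 2 ≤ μ + 1 ∧ μ ≤ 3 * (M * N ^ 2) ∧ M * N ^ 2 ≤ 8 * w + 1 ∧
      w + 2 * (M + 1) ≤ μ + 1 ∧ N * (M + 1) + 1 ≤ μ ∧ 2 * (M + 1) ≤ μ := by
  obtain ⟨L, hL⟩ : ∃ L, L = M * N ^ 2 := ⟨_, rfl⟩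
  rw [← hL]
  have htL : t = L * L := by
    rw [ht, hL]
    ring
  have hN2 : 10000 ≤ N ^ 2 := by nlinarith
  have huL : N * (N * M ^ 2) * 10000 ≤ L * L := by
    rw [hL]
    calc N * (N * M ^ 2) * 10000 ≤ N * (N * M ^ 2) * N ^ 2 := Nat.mul_le_mul_left _ hN2
      _ = M * N ^ 2 * (M * N ^ 2) := by ring
  have hLM : M * N * 100 ≤ L := by
    rw [hL]
    calc M * N * 100 ≤ M * N * N := Nat.mul_le_mul_left _ hN
      _ = M * N ^ 2 := by ring
  have hMN : 100 * M ≤ M * N := by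
    rw [mul_comm]
    exact Nat.mul_le_mul_left _ hN
  have hNM : N ≤ M * N := Nat.le_mul_of_pos_left _ hM
  have e1 : N * (M + 1) = M * N + N := by ring
  have hlow : L ≤ μ + 1 := by
    by_contra hcon
    have : (μ + 2) * (μ + 2) ≤ L * L := Nat.mul_le_mul (by omega) (by omega)
    have e2 : (μ + 2) * (μ + 2) = μ * μ + 4 * μ + 4 := by ring
    omega
  have hhigh : μ ≤ 3 * L := by
    by_contra hcon
    have : (3 * L + 1) * (3 * L + 1) ≤ μ * μ := Nat.mul_le_mul (by omega) (by omega)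
    have e2 : (3 * L + 1) * (3 * L + 1) = 9 * (L * L) + 6 * L + 1 := by ring
    omega
  refine ⟨hlow, hhigh, by omega, by omega, by omega, by omega⟩

end numbers

section clusters

variable {ι : Type} [DecidableEq ι]

/-- a cluster whose number of conditions is in the middle between two triangular numbers -/
def Mid (c : ι → ℕ) (t u : ℕ) (C : Finset ι) (μ w : ℕ) : Prop :=
  ∑ i ∈ C, c i = (μ + 1).choose 2 + w ∧ w ≤ μ ∧ μ ≤ 8 * w ∧ μ ≤ 8 * (μ - w) ∧
    t ≤ ∑ i ∈ C, c i ∧ ∑ i ∈ C, c i ≤ 4 * u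

theorem exists_mid (S : Finset ι) (c : ι → ℕ) {K N : ℕ} (h1 : ∀ i ∈ S, 1 ≤ c i)
    (hK : ∀ i ∈ S, c i ≤ K) (h : N * (N * K) + 1 < 2 ^ N) {t : ℕ} (ht : 10000 ≤ t)
    (hS : 4 * t + N * N * K ≤ ∑ i ∈ S, c i) :
    ∃ C ⊆ S, ∃ μ w, Mid c t (t + N * (N * K)) C μ w := by
  obtain ⟨T, hT1, hT2, Q, hQ, hd, hs⟩ := exists_quad_ge S c h1 hK h t hS
  obtain ⟨μ, w, e1, hw⟩ := pick_crit T
  obtain ⟨μ', w', e1', hw'⟩ := pick_crit (4 * T)
  have hsum : ∑ i ∈ Finset.univ.biUnion Q, c i = 4 * T := by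
    rw [Finset.sum_biUnion (fun j _ k _ hjk => hd j k hjk), Finset.sum_congr rfl (fun j _ => hs j),
      Finset.sum_const, Finset.card_univ, Fintype.card_fin, smul_eq_mul]
  have hsub : Finset.univ.biUnion Q ⊆ S := by
    rw [Finset.biUnion_subset]
    exact fun j _ => hQ j
  rcases pick_middle T (ht.trans hT1) e1 hw e1' hw' with h2 | h2
  · refine ⟨Q 0, hQ 0, μ, w, ?_, hw, h2.1, h2.2, ?_, ?_⟩
    · rw [hs 0, e1]
    · rw [hs 0]
      exact hT1
    · rw [hs 0]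
      omega
  · refine ⟨_, hsub, μ', w', ?_, hw', h2.1, h2.2, ?_, ?_⟩
    · rw [hsum, e1']
    · rw [hsum]
      omega
    · rw [hsum]
      omega

theorem exists_clusters (S : Finset ι) (c : ι → ℕ) {K N : ℕ} (h1 : ∀ i ∈ S, 1 ≤ c i)
    (hK : ∀ i ∈ S, c i ≤ K) (h : N * (N * K) + 1 < 2 ^ N) {t : ℕ} (ht : 10000 ≤ t) (n : ℕ)
    (hS : 4 * ((n + 1) * (t + N * (N * K))) ≤ ∑ i ∈ S, c i) :
    ∃ (C : ℕ → Finset ι) (μ w : ℕ → ℕ), (∀ l < n, C l ⊆ S) ∧
      (∀ l < n, ∀ l' < n, l ≠ l' → Disjoint (C l) (C l')) ∧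
      ∀ l < n, Mid c t (t + N * (N * K)) (C l) (μ l) (w l) := by
  obtain ⟨u, hu⟩ : ∃ u, u = t + N * (N * K) := ⟨_, rfl⟩
  rw [← hu] at hS ⊢
  have hNK : N * N * K = N * (N * K) := mul_assoc _ _ _
  induction n with
  | zero =>
    exact ⟨fun _ => ∅, fun _ => 0, fun _ => 0, fun l hl => absurd hl (Nat.not_lt_zero _),
      fun l hl => absurd hl (Nat.not_lt_zero _), fun l hl => absurd hl (Nat.not_lt_zero _)⟩
  | succ n ih =>
    have e0 : (n + 1 + 1) * u = (n + 1) * u + u := by ring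
    have e00 : (n + 1) * u = n * u + u := by ring
    obtain ⟨C, μ, w, hC, hdisj, hmid⟩ := ih (by omega)
    obtain ⟨U, hU⟩ : ∃ U, U = (Finset.range n).biUnion C := ⟨_, rfl⟩
    have hUS : U ⊆ S := by
      rw [hU, Finset.biUnion_subset]
      exact fun l hl => hC l (Finset.mem_range.mp hl)
    have hUsum : ∑ i ∈ U, c i ≤ n * (4 * u) := by
      rw [hU, Finset.sum_biUnion (fun l hl l' hl' hne => hdisj l (Finset.mem_range.mp hl) l'
        (Finset.mem_range.mp hl') hne)]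
      calc ∑ l ∈ Finset.range n, ∑ i ∈ C l, c i ≤ ∑ l ∈ Finset.range n, 4 * u :=
            Finset.sum_le_sum (fun l hl => (hmid l (Finset.mem_range.mp hl)).2.2.2.2.2)
        _ = n * (4 * u) := by rw [Finset.sum_const, Finset.card_range, smul_eq_mul]
    have hrest : ∑ i ∈ S \ U, c i + ∑ i ∈ U, c i = ∑ i ∈ S, c i := Finset.sum_sdiff hUS
    have e3 : n * (4 * u) = 4 * (n * u) := by ring
    obtain ⟨C', hC', μ', w', hmid'⟩ := exists_mid (S \ U) c
      (fun i hi => h1 i (Finset.mem_sdiff.mp hi).1) (fun i hi => hK i (Finset.mem_sdiff.mp hi).1)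
      h ht (by omega)
    rw [← hu] at hmid'
    have hcross : ∀ l < n, Disjoint (C l) C' := by
      intro l hl
      rw [Finset.disjoint_left]
      intro i hi hi'
      have := (Finset.mem_sdiff.mp (hC' hi')).2
      rw [hU, Finset.mem_biUnion] at this
      exact this ⟨l, Finset.mem_range.mpr hl, hi⟩
    refine ⟨Function.update C n C', Function.update μ n μ', Function.update w n w', ?_, ?_, ?_⟩
    · intro l hl
      rcases Nat.lt_or_ge l n with h2 | h2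
      · rw [Function.update_of_ne h2.ne]
        exact hC l h2
      · rw [show l = n by omega, Function.update_self]
        exact hC'.trans Finset.sdiff_subset
    · intro l hl l' hl' hne
      rcases Nat.lt_or_ge l n with h2 | h2
      · rw [Function.update_of_ne h2.ne]
        rcases Nat.lt_or_ge l' n with h3 | h3
        · rw [Function.update_of_ne h3.ne]
          exact hdisj l h2 l' h3 hne
        · rw [show l' = n by omega, Function.update_self]
          exact hcross l h2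
      · rw [show l = n by omega, Function.update_self,
          Function.update_of_ne (show l' ≠ n by omega)]
        exact (hcross l' (by omega)).symm
    · intro l hl
      rcases Nat.lt_or_ge l n with h2 | h2
      · rw [Function.update_of_ne h2.ne, Function.update_of_ne h2.ne, Function.update_of_ne h2.ne]
        exact hmid l h2
      · rw [show l = n by omega, Function.update_self, Function.update_self, Function.update_self]
        exact hmid'

end clusters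

section dat

/-- nonspeciality of all the systems, from `all_windows` -/
theorem exists_nsp (k : ℕ) (hk : 1 ≤ k) : ∃ R' : ℕ, ∀ D M N : ℕ, 1 ≤ M → N * M ≤ D → R' ≤ N →
    M ≤ N ^ k → NSp M D := by
  obtain ⟨R, hR⟩ := LD.all_windows (A := (k : ℝ)) (by exact_mod_cast hk)
  refine ⟨⌈R⌉₊, fun D M N hM hD hN hk r p hp m hm => ?_⟩
  have hM0 : (0 : ℝ) < M := by exact_mod_cast hM
  have h1 : (N : ℝ) * M ≤ D := by exact_mod_cast hD
  have h2 : R ≤ N := (Nat.le_ceil R).trans (by exact_mod_cast hN)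
  refine hR r D M p m hp hM hm ?_ (Or.inl ?_)
  · exact (mul_le_mul_of_nonneg_right h2 hM0.le).trans h1
  · have h3 : (N : ℝ) ≤ (D : ℝ) / M := by
      rw [le_div_iff₀ hM0]
      exact h1
    calc (M : ℝ) ≤ (N : ℝ) ^ k := by exact_mod_cast hk
      _ ≤ ((D : ℝ) / M) ^ k := pow_le_pow_left₀ (Nat.cast_nonneg _) h3 _
      _ = ((D : ℝ) / M) ^ (k : ℝ) := (Real.rpow_natCast _ _).symm

/-- the equivalence of the indices -/
theorem exists_split {ι : Type} [Fintype ι] [DecidableEq ι] {n : ℕ} (C : Fin n → Finset ι)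
    (hC : ∀ l l', l ≠ l' → Disjoint (C l) (C l')) :
    ∃ e : {i : ι // ∀ l, i ∉ C l} ⊕ (Σ l, Fin (C l).card) ≃ ι,
      ∀ z, e z = Sum.elim (fun i => i.1) (fun x => ((C x.1).equivFin.symm x.2).1) z := by
  refine ⟨Equiv.ofBijective (Sum.elim (fun i => i.1) (fun x => ((C x.1).equivFin.symm x.2).1))
    ⟨?_, ?_⟩, fun z => rfl⟩
  · rintro (⟨i, hi⟩ | ⟨l, j⟩) (⟨i', hi'⟩ | ⟨l', j'⟩) h
    · simp only [Sum.elim_inl] at h
      subst h
      rfl
    · simp only [Sum.elim_inl, Sum.elim_inr] at h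
      exact absurd ((C l').equivFin.symm j').2 (h ▸ hi l')
    · simp only [Sum.elim_inl, Sum.elim_inr] at h
      exact absurd ((C l).equivFin.symm j).2 (h ▸ hi' l)
    · simp only [Sum.elim_inr] at h
      rcases eq_or_ne l l' with rfl | hne
      · have h2 : (C l).equivFin.symm j = (C l).equivFin.symm j' := Subtype.ext h
        rw [(C l).equivFin.symm.injective h2]
      · exact absurd ((C l').equivFin.symm j').2 (h ▸ Finset.disjoint_left.mp (hC l l' hne)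
          ((C l).equivFin.symm j).2)
  · intro i
    by_cases h : ∀ l, i ∉ C l
    · exact ⟨Sum.inl ⟨i, h⟩, rfl⟩
    · push Not at h
      obtain ⟨l, hl⟩ := h
      exact ⟨Sum.inr ⟨l, (C l).equivFin ⟨i, hl⟩⟩, by simp⟩

/-- **The data of the collision** -/
theorem exists_dat (A : ℝ) : ∃ R : ℝ, ∀ (d M : ℕ) (ι : Type) [Fintype ι]
    [DecidableEq ι] (m : ι → ℕ), 1 ≤ M → (∀ i, m i ≤ M) → R * M ≤ d →
    (M : ℝ) ≤ ((d : ℝ) / M) ^ A → ∑ i, (m i + 1).choose 2 + 1 = (d + 2).choose 2 →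
    ∃ (M' : ℕ) (C : Fin 200 → Finset ι) (μ w : Fin 200 → ℕ)
      (e : {i : ι // ∀ l, i ∉ C l} ⊕ (Σ l, Fin (C l).card) ≃ ι),
      (∀ z, e z = Sum.elim (fun i => i.1) (fun x => ((C x.1).equivFin.symm x.2).1) z) ∧
      Dat d M' (fun i : {i : ι // ∀ l, i ∉ C l} => m i.1) μ w (fun l => (C l).card)
        (fun _ => M + 1) (fun l j => m ((C l).equivFin.symm j).1) := by
  obtain ⟨R', hR'⟩ := exists_nsp (8 * ⌈A⌉₊ + 1) (by omega)
  obtain ⟨N₀, hN₀⟩ := exists_N ⌈A⌉₊ R'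
  refine ⟨((N₀ ^ 8 + 1 : ℕ) : ℝ), fun d M ι _ _ m hM hm hd hMx hχ => ?_⟩
  obtain ⟨N, hN, hNd, hMN⟩ := exists_root N₀ hM hd hMx
  obtain ⟨hpig, hM1, hRN, hN100⟩ := hN₀ N hN M hMN
  obtain ⟨t, ht⟩ : ∃ t, t = M ^ 2 * N ^ 4 := ⟨_, rfl⟩
  obtain ⟨u, hu⟩ : ∃ u, u = t + N * (N * M ^ 2) := ⟨_, rfl⟩
  obtain ⟨L, hL⟩ : ∃ L, L = M * N ^ 2 := ⟨_, rfl⟩
  have htL : t = L * L := by
    rw [ht, hL]
    ring
  have hN2 : 10000 ≤ N ^ 2 := by nlinarith
  have huL : N * (N * M ^ 2) * 10000 ≤ L * L := by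
    rw [hL]
    calc N * (N * M ^ 2) * 10000 ≤ N * (N * M ^ 2) * N ^ 2 := Nat.mul_le_mul_left _ hN2
      _ = M * N ^ 2 * (M * N ^ 2) := by ring
  have hL0 : 10000 ≤ L := by
    rw [hL]
    calc 10000 ≤ 1 * N ^ 2 := by omega
      _ ≤ M * N ^ 2 := Nat.mul_le_mul_right _ hM
  have hML : M * 10000 ≤ L := by
    rw [hL]
    exact Nat.mul_le_mul_left _ hN2
  have hdL : L * N ^ 6 ≤ d := by
    calc L * N ^ 6 = N ^ 8 * M := by
          rw [hL]
          ring
      _ ≤ d := hNd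
  have hN6 : 10000 * 10000 ≤ N ^ 6 := by
    calc 10000 * 10000 ≤ N ^ 2 * N ^ 2 := Nat.mul_le_mul hN2 hN2
      _ = N ^ 4 := by ring
      _ ≤ N ^ 6 := Nat.pow_le_pow_right (by omega) (by norm_num)
  have hdL' : L * (10000 * 10000) ≤ d := (Nat.mul_le_mul_left _ hN6).trans hdL
  -- the clusters
  obtain ⟨S, hS⟩ : ∃ S : Finset ι, S = Finset.univ.filter (fun i => 1 ≤ m i) := ⟨_, rfl⟩
  have hSsum : ∑ i ∈ S, (m i + 1).choose 2 = ∑ i, (m i + 1).choose 2 := by
    rw [hS, Finset.sum_filter]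
    refine Finset.sum_congr rfl (fun i _ => ?_)
    split_ifs with h
    · rfl
    · rw [show m i = 0 by omega]
      rfl
  have hc1 : ∀ i ∈ S, 1 ≤ (m i + 1).choose 2 := by
    intro i hi
    rw [hS, Finset.mem_filter] at hi
    exact Nat.choose_pos (by omega)
  have hcK : ∀ i ∈ S, (m i + 1).choose 2 ≤ M ^ 2 := by
    intro i _
    have h1 := pick_two_choose (m i)
    have h2 : m i * m i ≤ M * M := Nat.mul_le_mul (hm i) (hm i)
    have h3 := hm i
    have h4 : M * 1 ≤ M * M := Nat.mul_le_mul_left _ hM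
    rw [pow_two]
    omega
  have hdd : 2 * (d + 2).choose 2 = d * d + 3 * d + 2 := by
    have := pick_two_choose (d + 1)
    rw [this]
    ring
  have hdLL : (L * L) * 10000 ≤ d * d := by
    calc (L * L) * 10000 ≤ (L * (10000 * 10000)) * (L * (10000 * 10000)) := by nlinarith
      _ ≤ d * d := Nat.mul_le_mul hdL' hdL'
  have ht4 : 10000 ≤ t := by
    rw [htL]
    calc 10000 ≤ L * 1 := by omega
      _ ≤ L * L := Nat.mul_le_mul_left _ (by omega)
  have hbig : 4 * ((200 + 1) * (t + N * (N * M ^ 2))) ≤ ∑ i ∈ S, (m i + 1).choose 2 := by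
    rw [hSsum]
    omega
  obtain ⟨C, μ, w, hCd, hmid⟩ : ∃ (C : Fin 200 → Finset ι) (μ w : Fin 200 → ℕ),
      (∀ l l', l ≠ l' → Disjoint (C l) (C l')) ∧ ∀ l, Mid (fun i => (m i + 1).choose 2) t
        (t + N * (N * M ^ 2)) (C l) (μ l) (w l) := by
    obtain ⟨C, μ, w, hCS, hCd, hmid⟩ := exists_clusters S (fun i => (m i + 1).choose 2) hc1 hcK hpig
      ht4 200 hbig
    exact ⟨fun l => C l, fun l => μ l, fun l => w l,
      fun l l' hne => hCd l l.2 l' l'.2 (fun h => hne (Fin.ext h)), fun l => hmid l l.2⟩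
  have hnum : ∀ l, M * N ^ 2 ≤ μ l + 1 ∧ μ l ≤ 3 * (M * N ^ 2) ∧ M * N ^ 2 ≤ 8 * w l + 1 ∧
      w l + 2 * (M + 1) ≤ μ l + 1 ∧ N * (M + 1) + 1 ≤ μ l ∧ 2 * (M + 1) ≤ μ l := by
    intro l
    obtain ⟨g1, g2, g3, g4, g5, g6⟩ := hmid l
    exact cluster_num hM hN100 ht rfl g1 g2 g3 g4 g5 g6 (pick_two_choose _)
  rw [← hL] at hnum
  obtain ⟨e, he⟩ := exists_split C hCd
  have hsplit : ∑ i : {i : ι // ∀ l : Fin 200, i ∉ C l}, (m i.1 + 1).choose 2 +
      ∑ l : Fin 200, ∑ j : Fin (C l).card, (m ((C l).equivFin.symm j).1 + 1).choose 2 =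
      ∑ i, (m i + 1).choose 2 := by
    rw [← Equiv.sum_comp e (fun i => (m i + 1).choose 2), Fintype.sum_sum_type,
      Fintype.sum_sigma]
    refine congrArg₂ (· + ·) (Finset.sum_congr rfl (fun i _ => ?_))
      (Finset.sum_congr rfl (fun l _ => Finset.sum_congr rfl (fun j _ => ?_)))
    · rw [he]
      rfl
    · rw [he]
      rfl
  have hcl : ∀ l : Fin 200, ∑ j : Fin (C l).card, (m ((C l).equivFin.symm j).1 + 1).choose 2 =
      (μ l + 1).choose 2 + w l := by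
    intro l
    rw [← (hmid l).1, Equiv.sum_comp (C l).equivFin.symm (fun i => (m i.1 + 1).choose 2)]
    exact Finset.sum_coe_sort (C l) (fun i => (m i + 1).choose 2)
  refine ⟨3 * L + 1, C, μ, w, e, he, ?_⟩
  have hM'N : 3 * L + 1 ≤ (N ^ 5) ^ (8 * ⌈A⌉₊ + 1) := by
    calc 3 * L + 1 ≤ 4 * L := by omega
      _ = 4 * (M * N ^ 2) := by rw [hL]
      _ ≤ N ^ 2 * (N ^ (8 * ⌈A⌉₊ + 1) * N ^ 2) :=
          Nat.mul_le_mul (by omega) (Nat.mul_le_mul_right _ (by omega))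
      _ = N ^ 4 * N ^ (8 * ⌈A⌉₊ + 1) := by ring
      _ ≤ (N ^ 4) ^ (8 * ⌈A⌉₊ + 1) * N ^ (8 * ⌈A⌉₊ + 1) :=
          Nat.mul_le_mul_right _ (Nat.le_self_pow (by omega) _)
      _ = (N ^ 5) ^ (8 * ⌈A⌉₊ + 1) := by
          rw [← mul_pow]
          congr 1
  refine
    { hN := ?_
      hm := fun i => ?_
      hμ := fun l => ?_
      hd := ?_
      hχ := ?_
      room := ?_
      hNv := fun l => ?_
      hNv' := fun l => ?_
      hv := fun l j => ?_
      hvμ := fun l => ?_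
      crit := fun l => ?_
      hw := fun l => ?_
      hMv := fun l => Nat.le_add_left 1 M
      two := fun l => ?_ }
  · refine hR' d (3 * L + 1) (N ^ 5) (by omega) ?_ ?_ hM'N
    · calc N ^ 5 * (3 * L + 1) ≤ N ^ 5 * (N * L) := Nat.mul_le_mul_left _ (by nlinarith)
        _ = L * N ^ 6 := by ring
        _ ≤ d := hdL
    · exact hRN.trans (Nat.le_self_pow (by norm_num) N)
  · have := hm i.1
    change m i.1 + 1 ≤ 3 * L + 1
    omega
  · have := (hnum l).2.1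
    change μ l + 1 ≤ 3 * L + 1
    omega
  · calc ∑ l : Fin 200, (μ l + 2) + 2 * (3 * L + 1) ≤ ∑ l : Fin 200, (3 * L + 2) + 2 * (3 * L + 1) :=
          Nat.add_le_add_right (Finset.sum_le_sum (fun l _ => by
            have := (hnum l).2.1
            omega)) _
      _ = 200 * (3 * L + 2) + 2 * (3 * L + 1) := by
          rw [Finset.sum_const, Finset.card_univ, Fintype.card_fin, smul_eq_mul]
      _ ≤ d := by omega
  · rw [Finset.sum_congr rfl (fun l _ => hcl l), Finset.sum_add_distrib] at hsplit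
    omega
  · calc 5 * (3 * L + 1) ≤ 200 * (L / 10) := by omega
      _ = ∑ l : Fin 200, L / 10 := by
          rw [Finset.sum_const, Finset.card_univ, Fintype.card_fin, smul_eq_mul]
      _ ≤ ∑ l : Fin 200, w l := Finset.sum_le_sum (fun l _ => by
          have := (hnum l).2.2.1
          omega)
  · have h1 := (hnum l).2.2.2.2.1
    exact hR' (μ l) (M + 1) N (by omega) (by omega) hRN hM1
  · have h1 := (hnum l).2.2.2.2.1
    exact hR' (μ l - 1) (M + 1) N (by omega) (by omega) hRN hM1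
  · exact Nat.add_le_add_right (hm _) 1
  · exact (hnum l).2.2.2.2.2
  · exact hcl l
  · exact (hnum l).2.2.2.1
  · rcases eq_or_ne l 0 with h | h
    · exact ⟨1, by rw [h]; decide⟩
    · exact ⟨0, h.symm⟩

end dat

end Pool.Agent.Work.MP_0421d9_ag.ZC
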