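import Pool.Agent.Work.MP_0421d9_ag.ZCTb
import Pool.Agent.Work.MP_0421d9_ag.SLimit

/-!
Collisions of generic points: a cluster becomes a flag (proof).
-/

set_option linter.unusedSectionVars false
set_option linter.unusedVariables false

namespace Pool.Agent.Work.MP_0421d9_ag.ZC

open MvPolynomial Module SM LD

/-- a form of the critical system has small contact order at a generic direction -/
theorem contact_zero {s₀ μ₀ w₀ Mv₀ : ℕ} {v₀ : Fin s₀ → ℕ} (hN : NSp Mv₀ μ₀)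
    (hN' : NSp Mv₀ (μ₀ - 1)) (hv : ∀ j, v₀ j ≤ Mv₀) (hMv : Mv₀ ≤ μ₀) (hMv1 : 1 ≤ Mv₀)
    (crit : ∑ j, (v₀ j + 1).choose 2 = (μ₀ + 1).choose 2 + w₀) (hw : w₀ ≤ μ₀) {z₀ : Fin s₀ → V3}
    {b : ℂ} (hb : Ind z₀ (fun _ : Unit => b)) {H : R3} (hH : H ∈ linSys μ₀ z₀ v₀)
    (h : Low (μ₀ - w₀ + 1) (sh b (res H))) : H = 0 := by
  have hgen : GenericPoints z₀ := AlgebraicIndependent.comp hb Sum.inl Sum.inl_injective
  have hz2 : ∀ i, z₀ i 2 ≠ 0 := fun i => coord_ne hgen i 2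
  have hlow : linSys (μ₀ - 1) z₀ v₀ = ⊥ := by
    have h1 := hN'.finrank hgen hv
    rw [crit, (by omega : μ₀ - 1 + 2 = μ₀ + 1), (by omega : (μ₀ + 1).choose 2 -
      ((μ₀ + 1).choose 2 + w₀) = 0)] at h1
    have hfin := finite_of_le_Rd (linSys_le (μ₀ - 1) z₀ v₀)
    exact Submodule.finrank_eq_zero.mp h1
  obtain ⟨D₀, hD1, hD2⟩ := Ind.derivation hb (fun _ => 1)
  have hdim : finrank ℂ (linSys μ₀ z₀ v₀) = μ₀ + 1 - w₀ := by
    have h5 : (μ₀ + 2).choose 2 = (μ₀ + 1) + (μ₀ + 1).choose 2 := by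
      rw [Nat.choose_succ_succ' (μ₀ + 1) 1, Nat.choose_one_right]
    rw [hN.finrank hgen hv, crit, h5]
    omega
  have hFV := finrank_FV (a := 1) (linSys_le μ₀ z₀ v₀) (g := fun _ => b) (D := fun _ => D₀)
    (fun j k => by rw [hD2 (), if_pos (Subsingleton.elim j k)])
    (fun j F hF => linSys_cD_mem (fun i => (hv i).trans (hMv.trans (Nat.le_succ _))) hF
      (fun i => Or.inl (hD1 i)))
    (fun F hF h0 => eq_zero_of_res hz2 hlow hF h0) (fun _ => μ₀ - w₀ + 1)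
  rw [hdim, Fin.sum_univ_one, (by omega : μ₀ + 1 - w₀ - (μ₀ - w₀ + 1) = 0)] at hFV
  have hfin := finite_of_le_Rd (linSys_le μ₀ z₀ v₀)
  have hfin' : Module.Finite ℂ (FV (linSys μ₀ z₀ v₀) (fun _ : Fin 1 => b)
      (fun _ => μ₀ - w₀ + 1)) := Submodule.finiteDimensional_of_le (FV_le _ _ _)
  have hbot := Submodule.finrank_eq_zero.mp hFV
  have hmem : H ∈ FV (linSys μ₀ z₀ v₀) (fun _ : Fin 1 => b) (fun _ => μ₀ - w₀ + 1) := by
    refine ⟨hH, fun j i hi => ?_⟩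
    rw [fder_eq_res]
    exact contact_of_low h hi
  rw [hbot, Submodule.mem_bot] at hmem
  exact hmem

/-- the limit of the leading form of a cluster has contact order `w` -/
theorem spec_flag {s₀ μ₀ w₀ Mv₀ : ℕ} {v₀ : Fin s₀ → ℕ} (hN : NSp Mv₀ μ₀) (hN' : NSp Mv₀ (μ₀ - 1))
    (hv : ∀ j, v₀ j ≤ Mv₀) (hMv : Mv₀ ≤ μ₀) (hMv1 : 1 ≤ Mv₀)
    (crit : ∑ j, (v₀ j + 1).choose 2 = (μ₀ + 1).choose 2 + w₀) (hw : w₀ ≤ μ₀) {z₀ : Fin s₀ → V3}
    {b : ℂ} (hb : Ind z₀ (fun _ : Unit => b)) {ρ : Pl} {t c c' : ℂ} (ht0 : t ≠ 0) (ht : ρ.L t 0)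
    (hc : ρ.L c c') {ζ ξ : Fin s₀ → V3}
    (hξ : ∀ x k, ρ.L (ξ x k) ((![z₀ x 1, z₀ x 0 - b * z₀ x 1, z₀ x 2] : V3) k))
    (hξζ : ∀ x, ξ x = ![ζ x 0 - c * ζ x 1, t * ζ x 1, ζ x 2])
    {β β' : R2} (hβ : ∃ G ∈ linSys μ₀ ζ v₀, res G = β) (hlim : ρ.LP β β') :
    ∀ i < w₀, eval ![c', 1] ((pderiv 0)^[i] β') = 0 := by
  obtain ⟨G, hG, hGβ⟩ := hβ
  set Ω : R3 := subM (mct' c t) G with hΩ
  have hGΩ : subM (mct c t) Ω = G := by
    rw [hΩ, subM_subM, mct'_mul ht0, subM_one]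
  have hΩmem : Ω ∈ linSys μ₀ ξ v₀ := by
    refine ⟨subM_isHomogeneous _ hG.1, fun i => ?_⟩
    apply vanishTo_subM
    rw [hξζ, mct'_mulVec ht0]
    exact hG.2 i
  have hsβ : sh c β = sy t (res Ω) := by
    rw [← hGβ, ← hGΩ, sh_res_mct]
  have hlim' := LP_sh ρ hc hlim
  rw [hsβ] at hlim'
  suffices hlow : Low w₀ (sh c' β') from fun i hi => contact_of_low hlow hi
  by_cases hΩ0 : Ω = 0
  · intro α _
    rw [hΩ0, map_zero, map_zero] at hlim'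
    exact ρ.fn (hlim' α) (by rw [coeff_zero]; exact ρ.zero)
  obtain ⟨a, ha, Ω', hΩ'0, hΩ'⟩ := ρ.exists_scale_poly hΩ0
  have hΩ'mem : Ω' ∈ linSys μ₀ (fun x => ![z₀ x 1, z₀ x 0 - b * z₀ x 1, z₀ x 2]) v₀ :=
    hΩ'.linSys hξ (linSys_C_mul hΩmem a)
  have h2mem : subM (mb b) Ω' ∈ linSys μ₀ z₀ v₀ := by
    refine ⟨subM_isHomogeneous _ hΩ'mem.1, fun i => ?_⟩
    apply vanishTo_subM
    rw [mb_mulVec]
    exact hΩ'mem.2 i
  have h2ne : subM (mb b) Ω' ≠ 0 := by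
    intro h0
    apply hΩ'0
    have h1 : subM (mb' b) (subM (mb b) Ω') = Ω' := by
      rw [subM_subM, mb_mul, subM_one]
    rw [← h1, h0, map_zero]
  -- a coefficient of small `y`-degree
  obtain ⟨κ, hκ1, hκ2⟩ : ∃ κ : Fin 2 →₀ ℕ, κ 1 ≤ μ₀ - w₀ ∧ coeff κ (res Ω') ≠ 0 := by
    by_contra hcon
    push Not at hcon
    apply h2ne
    apply contact_zero hN hN' hv hMv hMv1 crit hw hb h2mem
    rw [sh_res_mb]
    intro α hα
    rw [coeff_sw]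
    apply hcon
    change α 0 ≤ μ₀ - w₀
    omega
  have hres : ρ.LP (C a * res Ω) (res Ω') := by
    intro α
    have h1 := hΩ' (e3 (α 0) (α 1) 0)
    rw [← coeff_res, ← coeff_res, map_mul, res_C] at h1
    have h2 : α = e2 (α 0) (α 1) := e2_eq.mpr ⟨rfl, rfl⟩
    rwa [← h2] at h1
  intro α hα
  by_cases hdeg : α 0 + α 1 = μ₀
  · have h1 : ρ.L (t ^ κ 1 * coeff κ (res Ω)) (coeff κ (sh c' β')) := by
      have := hlim' κ
      rwa [coeff_sy] at this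
    have h2 : ρ.L (t ^ (α 1 - κ 1)) 0 := by
      have := ρ.pow ht (α 1 - κ 1)
      rwa [zero_pow (by omega)] at this
    have h3 := hres κ
    have h4 := hres α
    rw [coeff_C_mul] at h3 h4
    have h5 := ρ.div h4 h3 hκ2
    have h6 := ρ.mul (ρ.mul h1 h2) h5
    rw [mul_zero, zero_mul] at h6
    have h7 := hlim' α
    rw [coeff_sy] at h7
    have hκ0 : coeff κ (res Ω) ≠ 0 := by
      intro h0
      rw [h0, mul_zero] at h3
      exact hκ2 (ρ.fn h3 ρ.zero)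
    have h8 : t ^ κ 1 * coeff κ (res Ω) * t ^ (α 1 - κ 1) *
        (a * coeff α (res Ω) / (a * coeff κ (res Ω))) = t ^ α 1 * coeff α (res Ω) := by
      rw [mul_div_mul_left _ _ ha]
      have h9 : t ^ α 1 = t ^ κ 1 * t ^ (α 1 - κ 1) := by
        rw [← pow_add]
        congr 1
        omega
      rw [h9]
      field_simp
    rw [h8] at h6
    exact ρ.fn h7 h6
  · have h1 := hlim' α
    have h2 : coeff α (res Ω) = 0 := by
      apply (res_hom hΩmem.1).coeff_eq_zero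
      rw [Finsupp.degree_eq_sum, Fin.sum_univ_two]
      exact hdeg
    rw [coeff_sy, h2, mul_zero] at h1
    exact ρ.fn h1 ρ.zero

end Pool.Agent.Work.MP_0421d9_ag.ZC
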