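import Pool.Agent.Work.MP_0421d9_ag.ZCDat
import Pool.Agent.Work.MP_0421d9_ag.SFlag
import Pool.Agent.Work.MP_0421d9_ag.SRes
import Pool.Agent.Work.MP_0421d9_ag.Sub69

/-!
Collisions of generic points: a cluster becomes a flag.
-/

set_option linter.unusedSectionVars false
set_option linter.unusedVariables false

namespace Pool.Agent.Work.MP_0421d9_ag.ZC

open MvPolynomial Module SM

/-- `β (x + c y, y)` -/
noncomputable def sh (c : ℂ) : R2 →ₐ[ℂ] R2 := aeval ![X 0 + C c * X 1, X 1]

/-- `β (x, t y)` -/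
noncomputable def sy (t : ℂ) : R2 →ₐ[ℂ] R2 := aeval ![X 0, C t * X 1]

/-- all monomials are divisible by `x ^ w` -/
def Low (w : ℕ) (g : R2) : Prop := ∀ α, α 0 < w → coeff α g = 0

theorem Low.pderiv {w : ℕ} {g : R2} (h : Low (w + 1) g) : Low w (pderiv 0 g) := by
  intro α hα
  rw [coeff_pderiv, h _ (by rw [Finsupp.add_apply, Finsupp.single_eq_same]; omega), zero_mul]

theorem Low.iterate {w : ℕ} : ∀ (i : ℕ) {g : R2}, Low (w + i) g →
    Low w ((MvPolynomial.pderiv (0 : Fin 2))^[i] g) := by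
  intro i
  induction i with
  | zero => intro g h; exact h
  | succ i ih =>
    intro g h
    rw [Function.iterate_succ_apply]
    exact ih (Low.pderiv h)

theorem Low.eval {w : ℕ} (hw : 1 ≤ w) {g : R2} (h : Low w g) : eval (![0, 1] : V2) g = 0 := by
  rw [eval_eq]
  refine Finset.sum_eq_zero (fun α _ => ?_)
  by_cases h0 : α 0 = 0
  · rw [h α (by omega), zero_mul]
  · have h1 : (0 : Fin 2) ∈ α.support := Finsupp.mem_support_iff.mpr h0
    rw [Finset.prod_eq_zero h1, mul_zero]
    exact zero_pow h0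

theorem sh_C (c a : ℂ) : sh c (C a) = C a := by
  unfold sh
  rw [aeval_C, algebraMap_eq]

theorem pderiv_sh (c : ℂ) (g : R2) : pderiv 0 (sh c g) = sh c (pderiv 0 g) := by
  induction g using MvPolynomial.induction_on with
  | C a => rw [sh_C, pderiv_C, map_zero]
  | add f g hf hg => rw [map_add, map_add, hf, hg, map_add, map_add]
  | mul_X f k hf =>
    have hX : pderiv 0 (sh c (X k)) = sh c (pderiv 0 (X k : R2)) := by
      unfold sh
      rw [aeval_X]
      fin_cases k
      · change pderiv 0 (X 0 + C c * X 1) = _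
        rw [map_add, pderiv_C_mul, pderiv_X_self, pderiv_X_of_ne (by decide), mul_zero, add_zero]
        change _ = aeval _ (pderiv 0 (X 0 : R2))
        rw [pderiv_X_self, map_one]
      · change pderiv 0 (X 1) = aeval _ (pderiv 0 (X 1 : R2))
        rw [pderiv_X_of_ne (by decide), map_zero]
    rw [map_mul, Derivation.leibniz, hf, hX, Derivation.leibniz, map_add]
    simp only [smul_eq_mul, map_mul]

theorem iterate_pderiv_sh (c : ℂ) (i : ℕ) : ∀ g : R2, (pderiv (0 : Fin 2))^[i] (sh c g) =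
    sh c ((pderiv (0 : Fin 2))^[i] g) := by
  induction i with
  | zero => intro g; rfl
  | succ i ih =>
    intro g
    rw [Function.iterate_succ_apply, Function.iterate_succ_apply, pderiv_sh, ih]

theorem eval_sh (c : ℂ) (v : V2) (g : R2) : eval v (sh c g) = eval ![v 0 + c * v 1, v 1] g := by
  unfold sh
  rw [← MvPolynomial.coe_aeval_eq_eval, ← MvPolynomial.coe_aeval_eq_eval]
  change (aeval v) (aeval _ g) = aeval _ g
  rw [← AlgHom.comp_apply, comp_aeval]
  congr 2
  funext k
  fin_cases k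
  · change aeval v (X 0 + C c * X 1) = v 0 + c * v 1
    simp
  · change aeval v (X 1) = v 1
    simp

theorem eval_iterate_sh (c : ℂ) (i : ℕ) (g : R2) :
    eval ![c, 1] ((pderiv (0 : Fin 2))^[i] g) =
      eval ![0, 1] ((pderiv (0 : Fin 2))^[i] (sh c g)) := by
  rw [iterate_pderiv_sh, eval_sh]
  congr 2
  funext k
  fin_cases k <;> simp

/-- contact order from the coefficients -/
theorem contact_of_low {w : ℕ} {c : ℂ} {g : R2} (h : Low w (sh c g)) {i : ℕ} (hi : i < w) :
    eval ![c, 1] ((pderiv (0 : Fin 2))^[i] g) = 0 := by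
  rw [eval_iterate_sh]
  apply Low.eval (w := w - i) (by omega)
  apply Low.iterate
  rwa [Nat.sub_add_cancel hi.le]

theorem coeff_sy (t : ℂ) (g : R2) (α : Fin 2 →₀ ℕ) : coeff α (sy t g) = t ^ α 1 * coeff α g := by
  induction g using MvPolynomial.induction_on' generalizing α with
  | add f g hf hg => rw [map_add, coeff_add, coeff_add, hf, hg, mul_add]
  | monomial β a =>
    have hβ : β = e2 (β 0) (β 1) := e2_eq.mpr ⟨rfl, rfl⟩
    have h1 : sy t (monomial β a) = monomial β (t ^ β 1 * a) := by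
      conv_lhs => rw [hβ, mono2]
      conv_rhs => rw [hβ, mono2]
      unfold sy
      simp only [map_mul, map_pow, aeval_X, aeval_C, algebraMap_eq, Matrix.cons_val_zero,
        Matrix.cons_val_one]
      rw [mul_pow]
      have h2 : (e2 (β 0) (β 1)) 1 = β 1 := rfl
      rw [h2]
      ring
    rw [h1, coeff_monomial, coeff_monomial]
    split_ifs with h
    · rw [h]
    · rw [mul_zero]

theorem LP_sh (ρ : Pl) {c c' : ℂ} (hc : ρ.L c c') {g g' : R2} (h : ρ.LP g g') :
    ρ.LP (sh c g) (sh c' g') := by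
  unfold sh
  apply Pl.LP.aeval h
  intro k
  fin_cases k
  · exact (Pl.LP_X 0).add ((Pl.LP_C hc).mul (Pl.LP_X 1))
  · exact Pl.LP_X 1

/-- the matrix of the coordinates `(x - c y, t y, z)` -/
def mct (c t : ℂ) : Matrix (Fin 3) (Fin 3) ℂ := !![1, -c, 0; 0, t, 0; 0, 0, 1]

/-- the matrix of `(y, x - b y, z)` -/
def mb (b : ℂ) : Matrix (Fin 3) (Fin 3) ℂ := !![0, 1, 0; 1, -b, 0; 0, 0, 1]

end Pool.Agent.Work.MP_0421d9_ag.ZC
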