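import Pool.Agent.Work.MP_0421d9_ag.ZCTa
import Pool.Agent.Work.MP_0421d9_ag.SMember

/-!
Collisions of generic points: a cluster becomes a flag (proof).
-/

set_option linter.unusedSectionVars false
set_option linter.unusedVariables false
set_option linter.unusedSimpArgs false

namespace Pool.Agent.Work.MP_0421d9_ag.ZC

open MvPolynomial Module SM LD

theorem fder_eq_res (c : ℂ) (i : ℕ) (H : R3) :
    fder c i H = eval ![c, 1] ((pderiv (0 : Fin 2))^[i] (res H)) := by
  rw [← res_pderiv_zero_iterate, eval_res]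
  rfl

/-- exchange of the variables -/
noncomputable def sw : R2 →ₐ[ℂ] R2 := aeval ![X 1, X 0]

theorem coeff_sw (g : R2) (α : Fin 2 →₀ ℕ) : coeff α (sw g) = coeff (e2 (α 1) (α 0)) g := by
  induction g using MvPolynomial.induction_on' generalizing α with
  | add f g hf hg => rw [map_add, coeff_add, coeff_add, hf, hg]
  | monomial β a =>
    have h1 : sw (monomial β a) = monomial (e2 (β 1) (β 0)) a := by
      have hβ : β = e2 (β 0) (β 1) := e2_eq.mpr ⟨rfl, rfl⟩
      conv_lhs => rw [hβ, mono2]
      rw [mono2]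
      unfold sw
      simp only [map_mul, map_pow, aeval_X, aeval_C, algebraMap_eq, Matrix.cons_val_zero,
        Matrix.cons_val_one]
      ring
    rw [h1, coeff_monomial, coeff_monomial]
    by_cases h : β = e2 (α 1) (α 0)
    · have h2 : e2 (β 1) (β 0) = α := by
        rw [h]
        exact (e2_eq.mpr ⟨rfl, rfl⟩).symm
      rw [if_pos h2, if_pos h]
    · have h2 : e2 (β 1) (β 0) ≠ α := by
        intro h3
        apply h
        rw [← h3]
        exact e2_eq.mpr ⟨rfl, rfl⟩
      rw [if_neg h2, if_neg h]

theorem lin3 (a b c : ℂ) : lin (![a, b, c] : V3) = C a * X 0 + C b * X 1 + C c * X 2 := by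
  unfold lin
  rw [Fin.sum_univ_three]
  rfl

theorem mct_row0 (c t : ℂ) : (mct c t) 0 = ![1, -c, 0] := rfl
theorem mct_row1 (c t : ℂ) : (mct c t) 1 = ![0, t, 0] := rfl
theorem mct_row2 (c t : ℂ) : (mct c t) 2 = ![0, 0, 1] := rfl
theorem mb_row0 (b : ℂ) : (mb b) 0 = ![0, 1, 0] := rfl
theorem mb_row1 (b : ℂ) : (mb b) 1 = ![1, -b, 0] := rfl
theorem mb_row2 (b : ℂ) : (mb b) 2 = ![0, 0, 1] := rfl

theorem sh_res_mct (c t : ℂ) (F : R3) : sh c (res (subM (mct c t) F)) = sy t (res F) := by
  have h : (((sh c).comp res).comp (subM (mct c t))) = (sy t).comp res := by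
    apply MvPolynomial.algHom_ext
    intro k
    simp only [AlgHom.comp_apply, subM_X]
    fin_cases k
    · change sh c (res (lin (![1, -c, 0] : V3))) = sy t (res (X 0))
      rw [lin3]
      simp only [map_add, map_mul, res_X0, res_X1, res_X2, res_C, sh_C, mul_zero, add_zero, map_zero]
      unfold sh sy
      simp only [aeval_X, Matrix.cons_val_zero, Matrix.cons_val_one, C_1, C_neg]
      ring
    · change sh c (res (lin (![0, t, 0] : V3))) = sy t (res (X 1))
      rw [lin3]
      simp only [map_add, map_mul, res_X0, res_X1, res_X2, res_C, sh_C, mul_zero, add_zero, map_zero,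
        zero_mul, zero_add]
      unfold sh sy
      simp only [aeval_X, Matrix.cons_val_zero, Matrix.cons_val_one]
    · change sh c (res (lin (![0, 0, 1] : V3))) = sy t (res (X 2))
      rw [lin3]
      simp only [map_add, map_mul, res_X0, res_X1, res_X2, res_C, sh_C, mul_zero, add_zero, map_zero,
        zero_mul]
  have := DFunLike.congr_fun h F
  exact this

theorem sh_res_mb (b : ℂ) (F : R3) : sh b (res (subM (mb b) F)) = sw (res F) := by
  have h : (((sh b).comp res).comp (subM (mb b))) = sw.comp res := by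
    apply MvPolynomial.algHom_ext
    intro k
    simp only [AlgHom.comp_apply, subM_X]
    fin_cases k
    · change sh b (res (lin (![0, 1, 0] : V3))) = sw (res (X 0))
      rw [lin3]
      simp only [map_add, map_mul, res_X0, res_X1, res_X2, res_C, sh_C, mul_zero, add_zero, map_zero,
        zero_mul, zero_add]
      unfold sh sw
      simp only [aeval_X, Matrix.cons_val_zero, Matrix.cons_val_one, C_1, one_mul]
    · change sh b (res (lin (![1, -b, 0] : V3))) = sw (res (X 1))
      rw [lin3]
      simp only [map_add, map_mul, res_X0, res_X1, res_X2, res_C, sh_C, mul_zero, add_zero, map_zero,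
        zero_mul, zero_add]
      unfold sh sw
      simp only [aeval_X, Matrix.cons_val_zero, Matrix.cons_val_one, C_1, C_neg]
      ring
    · change sh b (res (lin (![0, 0, 1] : V3))) = sw (res (X 2))
      rw [lin3]
      simp only [map_add, map_mul, res_X0, res_X1, res_X2, res_C, sh_C, mul_zero, add_zero, map_zero,
        zero_mul]
  have := DFunLike.congr_fun h F
  exact this

/-- the inverse of `mct` -/
noncomputable def mct' (c t : ℂ) : Matrix (Fin 3) (Fin 3) ℂ := !![1, c / t, 0; 0, 1 / t, 0; 0, 0, 1]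

theorem mct'_mul {c t : ℂ} (ht : t ≠ 0) : mct' c t * mct c t = 1 := by
  unfold mct mct'
  ext i j
  fin_cases i <;> fin_cases j <;> simp [Matrix.mul_apply, Fin.sum_univ_three, ht]

/-- the inverse of `mb` -/
def mb' (b : ℂ) : Matrix (Fin 3) (Fin 3) ℂ := !![b, 1, 0; 1, 0, 0; 0, 0, 1]

theorem mb_mul (b : ℂ) : mb b * mb' b = 1 := by
  unfold mb mb'
  ext i j
  fin_cases i <;> fin_cases j <;> simp [Matrix.mul_apply, Fin.sum_univ_three]

theorem mb_mulVec (b : ℂ) (v : V3) : (mb b).mulVec v = ![v 1, v 0 - b * v 1, v 2] := by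
  funext i
  unfold mb
  fin_cases i <;> simp [Matrix.mulVec, dotProduct, Fin.sum_univ_three]
  ring

theorem mct'_mulVec {c t : ℂ} (ht : t ≠ 0) (v : V3) :
    (mct' c t).mulVec ![v 0 - c * v 1, t * v 1, v 2] = v := by
  funext i
  unfold mct'
  fin_cases i <;> simp [Matrix.mulVec, dotProduct, Fin.sum_univ_three, ht]
  field_simp
  ring

end Pool.Agent.Work.MP_0421d9_ag.ZC
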