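import Pool.Agent.Work.MP_0421d9_ag.ZPASel2

/-!
The cube lemma (helper63, after the plan of helper69): iterated differences.
-/

namespace Pool.Agent.Work.MP_0421d9_ag.LD

/-- iterated differences -/
noncomputable def itd (g : ℝ → ℝ) : (k : ℕ) → (Fin k → ℝ) → ℝ → ℝ
  | 0, _, c => g c
  | (k + 1), x, c => itd g k (fun j => x j.succ) (c + x 0) - itd g k (fun j => x j.succ) c

/-- if all values are near integers, the iterated difference is near an integer -/
theorem itd_near (g : ℝ → ℝ) (δ : ℝ) (k : ℕ) : ∀ (x : Fin k → ℝ) (c : ℝ),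
    (∀ J : Finset (Fin k), ∃ n : ℤ, |g (c + ∑ j ∈ J, x j) - n| ≤ δ) →
      ∃ n : ℤ, |itd g k x c - n| ≤ 2 ^ k * δ := by
  induction k with
  | zero =>
    intro x c h
    obtain ⟨n, hn⟩ := h ∅
    refine ⟨n, ?_⟩
    rw [Finset.sum_empty, add_zero] at hn
    simpa [itd] using hn
  | succ k ih =>
    intro x c h
    have hs : ∀ J : Finset (Fin k), ∑ j ∈ J.map (Fin.succEmb k), x j = ∑ j ∈ J, x j.succ := by
      intro J
      rw [Finset.sum_map]
      rfl
    have h0 : ∀ J : Finset (Fin k), (0 : Fin (k + 1)) ∉ J.map (Fin.succEmb k) := by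
      intro J hJ
      obtain ⟨a, -, ha⟩ := Finset.mem_map.mp hJ
      exact Fin.succ_ne_zero a ha
    obtain ⟨n₁, h1⟩ := ih (fun j => x j.succ) (c + x 0) (fun J => by
      obtain ⟨n, hn⟩ := h (insert 0 (J.map (Fin.succEmb k)))
      refine ⟨n, ?_⟩
      rw [Finset.sum_insert (h0 J), hs] at hn
      rwa [add_assoc])
    obtain ⟨n₂, h2⟩ := ih (fun j => x j.succ) c (fun J => by
      obtain ⟨n, hn⟩ := h (J.map (Fin.succEmb k))
      refine ⟨n, ?_⟩
      rwa [hs] at hn)
    refine ⟨n₁ - n₂, ?_⟩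
    have e1 : itd g (k + 1) x c - ((n₁ - n₂ : ℤ) : ℝ) =
        (itd g k (fun j => x j.succ) (c + x 0) - n₁) - (itd g k (fun j => x j.succ) c - n₂) := by
      rw [itd]
      push_cast
      ring
    rw [e1]
    refine (abs_sub _ _).trans ?_
    rw [pow_succ]
    linarith

/-- the iterated difference lies between the bounds for the `k`-th derivative -/
theorem itd_bounds {a b : ℝ} (k : ℕ) : ∀ (f : ℕ → ℝ → ℝ) (m M : ℝ) (x : Fin k → ℝ) (c : ℝ),
    (∀ n, n < k → ∀ t, t ∈ Set.Icc a b → HasDerivAt (f n) (f (n + 1) t) t) →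
    (∀ t, t ∈ Set.Icc a b → m ≤ f k t ∧ f k t ≤ M) → (∀ j, 0 < x j) → a ≤ c →
    c + ∑ j, x j ≤ b → m * ∏ j, x j ≤ itd (f 0) k x c ∧ itd (f 0) k x c ≤ M * ∏ j, x j := by
  induction k with
  | zero =>
    intro f m M x c _ hb _ hac hcb
    have h1 := hb c ⟨hac, by simpa using hcb⟩
    simpa [itd] using h1
  | succ k ih =>
    intro f m M x c hd hb hx hac hcb
    rw [Fin.sum_univ_succ] at hcb
    rw [Fin.prod_univ_succ]
    -- the derivative of the shorter iterated difference
    have hder : ∀ (k : ℕ) (g g' : ℝ → ℝ) (x : Fin k → ℝ) (c : ℝ),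
        (∀ t, t ∈ Set.Icc a b → HasDerivAt g (g' t) t) → (∀ j, 0 < x j) → a ≤ c →
        c + ∑ j, x j ≤ b → HasDerivAt (fun c => itd g k x c) (itd g' k x c) c := by
      intro k
      induction k with
      | zero =>
        intro g g' x c h _ h1 h2
        exact h c ⟨h1, by simpa using h2⟩
      | succ k ih' =>
        intro g g' x c h hx h1 h2
        rw [Fin.sum_univ_succ] at h2
        have h3 : 0 < x 0 := hx 0
        have i1 := ih' g g' (fun j => x j.succ) (c + x 0) h (fun j => hx _) (by linarith)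
          (by linarith)
        have i2 := ih' g g' (fun j => x j.succ) c h (fun j => hx _) h1 (by linarith)
        have i3 := HasDerivAt.comp_add_const c (x 0) i1
        exact i3.sub i2
    have hx0 : 0 < x 0 := hx 0
    have hxs : ∀ j : Fin k, 0 < (fun j : Fin k => x j.succ) j := fun j => hx _
    have hG : ∀ t ∈ Set.Icc c (c + x 0), HasDerivAt (fun c => itd (f 0) k (fun j => x j.succ) c)
        (itd (f 1) k (fun j => x j.succ) t) t := by
      intro t ht
      refine hder k (f 0) (f 1) _ t (fun s hs => hd 0 (by omega) s hs) hxs (hac.trans ht.1) ?_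
      have := ht.2
      linarith
    have hmvt := exists_hasDerivAt_eq_slope (fun c => itd (f 0) k (fun j => x j.succ) c)
      (fun t => itd (f 1) k (fun j => x j.succ) t) (by linarith : c < c + x 0)
      (fun t ht => (hG t ht).continuousAt.continuousWithinAt)
      (fun t ht => hG t ⟨ht.1.le, ht.2.le⟩)
    obtain ⟨ξ, hξ, hξ2⟩ := hmvt
    have h1 := ih (fun n => f (n + 1)) m M (fun j => x j.succ) ξ
      (fun n hn t ht => hd (n + 1) (by omega) t ht) hb hxs (hac.trans hξ.1.le) (by
        have := hξ.2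
        linarith)
    have e1 : itd (f 0) (k + 1) x c = x 0 * itd (f 1) k (fun j => x j.succ) ξ := by
      have e0 : c + x 0 - c = x 0 := by ring
      rw [itd, hξ2, e0, mul_div_cancel₀ _ hx0.ne']
    rw [e1]
    obtain ⟨h2, h3⟩ := h1
    constructor
    · calc m * (x 0 * ∏ j : Fin k, x j.succ) = x 0 * (m * ∏ j : Fin k, x j.succ) := by ring
        _ ≤ x 0 * itd (f 1) k (fun j => x j.succ) ξ := mul_le_mul_of_nonneg_left h2 hx0.le
    · calc x 0 * itd (f 1) k (fun j => x j.succ) ξ ≤ x 0 * (M * ∏ j : Fin k, x j.succ) :=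
          mul_le_mul_of_nonneg_left h3 hx0.le
        _ = M * (x 0 * ∏ j : Fin k, x j.succ) := by ring

end Pool.Agent.Work.MP_0421d9_ag.LD
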