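import Pool.Agent.Work.MP_0421d9_ag.ZBez

/-!
Dimension count on an irreducible curve.
-/

namespace Pool.Agent.Work.MP_0421d9_ag.LD

open MvPolynomial Module

section

variable {ι : Type} [Fintype ι] {q : ι → Fin 2 → ℂ}

omit [Fintype ι] in
theorem vq_mul_iff {x : Fin 2 → ℂ} {b h : P2} (hb : b ≠ 0) (s : ℕ) :
    Vq x (b * h) s ↔ Vq x h (s - mu x b) := by
  by_cases hh : h = 0
  · rw [hh, mul_zero]
    exact ⟨fun _ => Vq.zero _ _, fun _ => Vq.zero _ _⟩
  · rw [vq_iff (mul_ne_zero hb hh), vq_iff hh, mu_mul hb hh]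
    omega

/-- the jets of the multiples of `b` -/
theorem finrank_range_mulP (hq : Function.Injective q) {b : P2} (hb : b ≠ 0) (s : ι → ℕ) :
    finrank ℂ ↥(LinearMap.range (jq q s ∘ₗ mulP b)) =
      ∑ i, (s i - mu (q i) b + 1).choose 2 := by
  have hker : LinearMap.ker (jq q s ∘ₗ mulP b) =
      LinearMap.ker (jq q (fun i => s i - mu (q i) b)) := by
    ext h
    rw [mem_ker_jq, LinearMap.mem_ker, LinearMap.comp_apply, ← LinearMap.mem_ker, mem_ker_jq]
    exact forall_congr' fun i => vq_mul_iff hb (s i)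
  have e1 := (jq q s ∘ₗ mulP b).quotKerEquivRange
  have e2 := (jq q (fun i => s i - mu (q i) b)).quotKerEquivOfSurjective
    (jq_surjective hq _)
  rw [← LinearEquiv.finrank_eq e1, hker, LinearEquiv.finrank_eq e2, finrank_jq]

/-- the polynomials of degree at most `N` in `(b) + I_s` -/
noncomputable def KS (q : ι → Fin 2 → ℂ) (b : P2) (s : ι → ℕ) (N : ℕ) : Submodule ℂ P2 :=
  PD N ⊓ (LinearMap.range (jq q s ∘ₗ mulP b)).comap (jq q s)

omit [Fintype ι] in
theorem mem_KS {b : P2} {s : ι → ℕ} {N : ℕ} {F : P2} : F ∈ KS q b s N ↔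
    F.totalDegree ≤ N ∧ ∃ u, ∀ i, Vq (q i) (F - b * u) (s i) := by
  rw [KS, Submodule.mem_inf]
  refine and_congr Iff.rfl ?_
  rw [Submodule.mem_comap, LinearMap.mem_range]
  refine exists_congr fun u => ?_
  rw [← mem_ker_jq, LinearMap.mem_ker, map_sub, sub_eq_zero, LinearMap.comp_apply, mulP_apply]
  exact eq_comm

omit [Fintype ι] in
instance (b : P2) (s : ι → ℕ) (N : ℕ) : Module.Finite ℂ (KS q b s N) :=
  Submodule.finiteDimensional_of_le (inf_le_left : KS q b s N ≤ PD N)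

theorem finrank_KS (hq : Function.Injective q) {b : P2} (hb : b ≠ 0) (s : ι → ℕ) :
    ∃ D₀, ∀ N, D₀ ≤ N → finrank ℂ (KS q b s N) + ∑ i, (s i + 1).choose 2 =
      (N + 2).choose 2 + ∑ i, (s i - mu (q i) b + 1).choose 2 := by
  obtain ⟨D₀, hD⟩ := jq_large hq s
  refine ⟨D₀, fun N hN => ?_⟩
  have hmap := hD N hN
  have h1 := finrank_eq_ker_add_map (jq q s) (KS q b s N)
  have h2 : KS q b s N ⊓ LinearMap.ker (jq q s) = VD N q s := by
    rw [← PD_inf_ker]
    ext f
    rw [Submodule.mem_inf, Submodule.mem_inf]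
    constructor
    · exact fun h => ⟨h.1.1, h.2⟩
    · intro h
      refine ⟨⟨h.1, ?_⟩, h.2⟩
      rw [SetLike.mem_coe, Submodule.mem_comap, LinearMap.mem_ker.mp h.2]
      exact Submodule.zero_mem _
  have h3 : (KS q b s N).map (jq q s) = LinearMap.range (jq q s ∘ₗ mulP b) := by
    apply le_antisymm
    · rintro _ ⟨f, hf, rfl⟩
      exact hf.2
    · intro v hv
      have h4 : v ∈ (PD N).map (jq q s) := by
        rw [hmap]
        trivial
      obtain ⟨f, hf, rfl⟩ := h4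
      exact ⟨f, ⟨hf, hv⟩, rfl⟩
  rw [h2, h3, finrank_range_mulP hq hb] at h1
  have h5 := finrank_PD_eq q N s
  rw [hmap, finrank_top, finrank_jq] at h5
  omega

omit [Fintype ι] in
theorem KS_inf {b : P2} (hb : b ≠ 0) (s : ι → ℕ) {N : ℕ} (hN : b.totalDegree ≤ N) :
    KS q b s N ⊓ LinearMap.ker ((Ideal.span {b}).mkQ.restrictScalars ℂ) =
      (PD (N - b.totalDegree)).map (mulP b) := by
  ext f
  rw [Submodule.mem_inf, mem_KS, LinearMap.mem_ker]
  have hk : ((Ideal.span {b}).mkQ.restrictScalars ℂ) f = 0 ↔ b ∣ f := by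
    rw [← Ideal.mem_span_singleton]
    exact Submodule.Quotient.mk_eq_zero _
  rw [hk]
  constructor
  · rintro ⟨⟨h1, -⟩, w, rfl⟩
    refine ⟨w, ?_, rfl⟩
    show w.totalDegree ≤ _
    by_cases hw : w = 0
    · rw [hw, totalDegree_zero]
      exact Nat.zero_le _
    · rw [totalDegree_mul' hb hw] at h1
      omega
  · rintro ⟨w, hw, rfl⟩
    refine ⟨⟨mulP_le (f := b) (D := N - b.totalDegree) (by omega) ⟨w, hw, rfl⟩, w, fun i => ?_⟩,
      w, rfl⟩
    rw [mulP_apply, sub_self]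
    exact Vq.zero _ _

/-- the classes modulo `b` -/
theorem finrank_KS_map (hq : Function.Injective q) {b : P2} (hb : b ≠ 0) (s : ι → ℕ) :
    ∃ D₀, ∀ N, D₀ ≤ N →
      finrank ℂ ↥((KS q b s N).map ((Ideal.span {b}).mkQ.restrictScalars ℂ)) +
        (N - b.totalDegree + 2).choose 2 + ∑ i, (s i + 1).choose 2 =
      (N + 2).choose 2 + ∑ i, (s i - mu (q i) b + 1).choose 2 := by
  obtain ⟨D₀, hD⟩ := finrank_KS hq hb s
  refine ⟨D₀ + b.totalDegree, fun N hN => ?_⟩
  have h1 := hD N (by omega)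
  have h2 := finrank_eq_ker_add_map ((Ideal.span {b}).mkQ.restrictScalars ℂ) (KS q b s N)
  rw [KS_inf hb s (by omega), finrank_mulP hb] at h2
  omega

theorem choose_diff {N β : ℕ} (h : β ≤ N) :
    2 * (N + 2).choose 2 + β ^ 2 = 2 * (N - β + 2).choose 2 + β * (2 * N + 3) := by
  obtain ⟨c, rfl⟩ := Nat.exists_eq_add_of_le h
  have h1 : β + c - β = c := by omega
  rw [h1]
  have key : ∀ n : ℕ, ((n + 2).choose 2 : ℚ) = (n + 2) * (n + 1) / 2 := by
    intro n
    rw [Nat.cast_choose_two]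
    push_cast
    ring
  have h4 : ((2 * (β + c + 2).choose 2 + β ^ 2 : ℕ) : ℚ) =
      ((2 * (c + 2).choose 2 + β * (2 * (β + c) + 3) : ℕ) : ℚ) := by
    push_cast [key]
    ring
  exact_mod_cast h4

theorem choose_mult {s b : ℕ} (h : b ≤ s) :
    2 * (s + 1).choose 2 + b ^ 2 = 2 * (s - b + 1).choose 2 + b * (2 * s + 1) := by
  obtain ⟨c, rfl⟩ := Nat.exists_eq_add_of_le h
  have h1 : b + c - b = c := by omega
  rw [h1]
  have key : ∀ n : ℕ, ((n + 1).choose 2 : ℚ) = (n + 1) * n / 2 := by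
    intro n
    rw [Nat.cast_choose_two]
    push_cast
    ring
  have h4 : ((2 * (b + c + 1).choose 2 + b ^ 2 : ℕ) : ℚ) =
      ((2 * (c + 1).choose 2 + b * (2 * (b + c) + 1) : ℕ) : ℚ) := by
    push_cast [key]
    ring
  exact_mod_cast h4

/-- If multiplication by `g / c` maps the classes modulo `b` of the polynomials of degree at most
`N + x` with multiplicities `s i` to those of degree `N + y` with multiplicities `s' i`, then
`deg b * x - ∑ mu b * s ≤ deg b * y - ∑ mu b * s'`. -/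
theorem curve_count (hq : Function.Injective q) {b g c : P2} (hb : Irreducible b) (hg : ¬ b ∣ g)
    {s s' : ι → ℕ} (hs : ∀ i, mu (q i) b ≤ s i) (hs' : ∀ i, mu (q i) b ≤ s' i) {x y N₀ : ℕ}
    (h : ∀ N, N₀ ≤ N → ∀ F : P2, F.totalDegree ≤ N + x →
      (∃ u, ∀ i, Vq (q i) (F - b * u) (s i)) → ∃ v : P2, v.totalDegree ≤ N + y ∧
        (∃ u, ∀ i, Vq (q i) (v - b * u) (s' i)) ∧ b ∣ F * g - c * v) :
    b.totalDegree * x + ∑ i, mu (q i) b * s' i ≤ b.totalDegree * y + ∑ i, mu (q i) b * s i := by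
  have hb0 : b ≠ 0 := hb.ne_zero
  obtain ⟨D₁, h1⟩ := finrank_KS_map hq hb0 s
  obtain ⟨D₂, h2⟩ := finrank_KS_map hq hb0 s'
  set N := N₀ + D₁ + D₂ + b.totalDegree with hN
  have e1 := h1 (N + x) (by omega)
  have e2 := h2 (N + y) (by omega)
  set π := (Ideal.span {b}).mkQ.restrictScalars ℂ with hπ
  have hπ0 : ∀ f, π f = 0 ↔ b ∣ f := by
    intro f
    rw [← Ideal.mem_span_singleton]
    exact Submodule.Quotient.mk_eq_zero _
  -- multiplication by a polynomial on the quotient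
  have hmul : ∀ f : P2, ∃ φ : (P2 ⧸ Ideal.span {b}) →ₗ[ℂ] (P2 ⧸ Ideal.span {b}),
      ∀ u, φ (π u) = π (u * f) := by
    intro f
    refine ⟨LinearMap.mulRight ℂ (Ideal.Quotient.mk (Ideal.span {b}) f), fun u => ?_⟩
    rfl
  obtain ⟨φg, hφg⟩ := hmul g
  obtain ⟨φc, hφc⟩ := hmul c
  have hinj : Function.Injective φg := by
    rw [← LinearMap.ker_eq_bot, eq_bot_iff]
    intro u hu
    obtain ⟨f, rfl⟩ := Submodule.mkQ_surjective _ u
    have h3 : π (f * g) = 0 := by
      rw [← hφg]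
      exact hu
    rw [hπ0] at h3
    have h4 : b ∣ f := by
      rcases hb.prime.dvd_or_dvd h3 with h5 | h5
      · exact h5
      · exact absurd h5 hg
    exact (hπ0 f).mpr h4
  have hle : ((KS q b s (N + x)).map π).map φg ≤ ((KS q b s' (N + y)).map π).map φc := by
    rintro _ ⟨_, ⟨F, hF, rfl⟩, rfl⟩
    obtain ⟨h3, h4⟩ := mem_KS.mp hF
    obtain ⟨v, h5, h6, h7⟩ := h N (by omega) F h3 h4
    refine ⟨π v, ⟨v, mem_KS.mpr ⟨h5, h6⟩, rfl⟩, ?_⟩
    rw [hφg, hφc]
    have h8 := (hπ0 _).mpr h7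
    rw [map_sub, sub_eq_zero] at h8
    rw [h8, mul_comm]
  have h3 : finrank ℂ ↥((KS q b s (N + x)).map π) ≤ finrank ℂ ↥((KS q b s' (N + y)).map π) := by
    calc finrank ℂ ↥((KS q b s (N + x)).map π)
        = finrank ℂ ↥(((KS q b s (N + x)).map π).map φg) :=
          LinearEquiv.finrank_eq (Submodule.equivMapOfInjective _ hinj _)
      _ ≤ finrank ℂ ↥(((KS q b s' (N + y)).map π).map φc) := Submodule.finrank_mono hle
      _ ≤ finrank ℂ ↥((KS q b s' (N + y)).map π) := Submodule.finrank_map_le _ _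
  have e3 := choose_diff (N := N + x) (β := b.totalDegree) (by omega)
  have e4 := choose_diff (N := N + y) (β := b.totalDegree) (by omega)
  have key : ∀ t : ι → ℕ, (∀ i, mu (q i) b ≤ t i) →
      2 * ∑ i, (t i + 1).choose 2 + ∑ i, mu (q i) b ^ 2 =
      2 * ∑ i, (t i - mu (q i) b + 1).choose 2 +
        (2 * ∑ i, mu (q i) b * t i + ∑ i, mu (q i) b) := by
    intro t ht
    rw [Finset.mul_sum, Finset.mul_sum, Finset.mul_sum, ← Finset.sum_add_distrib,
      ← Finset.sum_add_distrib, ← Finset.sum_add_distrib]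
    refine Finset.sum_congr rfl fun i _ => ?_
    rw [choose_mult (ht i)]
    ring
  have e5 := key s hs
  have e6 := key s' hs'
  have e7 : b.totalDegree * (2 * (N + x) + 3) = 2 * (b.totalDegree * x) +
      b.totalDegree * (2 * N + 3) := by ring
  have e8 : b.totalDegree * (2 * (N + y) + 3) = 2 * (b.totalDegree * y) +
      b.totalDegree * (2 * N + 3) := by ring
  rw [e7] at e3
  rw [e8] at e4
  omega

end

end Pool.Agent.Work.MP_0421d9_ag.LD
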