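import Pool.Agent.Work.MP_0421d9_ag.WDefs
import Pool.Agent.Work.MP_0421d9_ag.MDefs

/-!
Arbitrary multiplicities in degree at least `C M ^ (1 + ε)`: definitions.

Part I works with polynomials in two variables (affine coordinates), with arbitrary distinct points
`q i`. Part II and III work with `hRm` (rectangles, i.e. `P¹ × P¹`) and `hPm` (the plane).
-/

namespace Pool.Agent.Work.MP_0421d9_ag.LD

open MvPolynomial Module

/-! ### polynomials in two variables -/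

/-- the polynomial `f (q + X)` -/
noncomputable def sh (q : Fin 2 → ℂ) : P2 →ₐ[ℂ] P2 := aeval fun l => C (q l) + X l

/-- `f` vanishes to order at least `m` at `q` -/
def Vq (q : Fin 2 → ℂ) (f : P2) (m : ℕ) : Prop := Van2 (sh q f) m

/-- the multiplicity of `f ≠ 0` at `q` -/
noncomputable def mu (q : Fin 2 → ℂ) (f : P2) : ℕ :=
  sInf {n | ∃ β : Fin 2 →₀ ℕ, β.degree = n ∧ coeff β (sh q f) ≠ 0}

/-- polynomials of degree at most `D` -/
noncomputable def PD (D : ℕ) : Submodule ℂ P2 where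
  carrier := {f | f.totalDegree ≤ D}
  add_mem' := fun {f g} hf hg => (totalDegree_add f g).trans (max_le hf hg)
  zero_mem' := by simp
  smul_mem' := fun c f hf => (totalDegree_smul_le c f).trans hf

/-- polynomials of degree at most `D` which vanish to order at least `m i` at `q i` -/
noncomputable def VD {ι : Type} (D : ℕ) (q : ι → Fin 2 → ℂ) (m : ι → ℕ) : Submodule ℂ P2 where
  carrier := {f | f.totalDegree ≤ D ∧ ∀ i, Vq (q i) f (m i)}
  add_mem' := fun {f g} hf hg => ⟨(totalDegree_add f g).trans (max_le hf.1 hg.1), fun i β hβ => by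
    rw [map_add, coeff_add, hf.2 i β hβ, hg.2 i β hβ, add_zero]⟩
  zero_mem' := ⟨by simp, fun i β _ => by rw [map_zero, coeff_zero]⟩
  smul_mem' := fun c f hf => ⟨(totalDegree_smul_le c f).trans hf.1, fun i β hβ => by
    rw [map_smul, coeff_smul, hf.2 i β hβ, smul_zero]⟩

/-- `τ` is a relation between the conditions of order `m i` at `q i` on the polynomials of degree
less than `D` -/
def IsRel {ι : Type} (D : ℕ) (q : ι → Fin 2 → ℂ) (m : ι → ℕ) (τ : P2 →ₗ[ℂ] ℂ) : Prop :=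
  (∀ f : P2, f.totalDegree < D → τ f = 0) ∧ ∀ f, (∀ i, Vq (q i) f (m i)) → τ f = 0

/-- every point can be moved in every direction by a derivation which fixes the other points -/
def Movable {ι : Type} (q : ι → Fin 2 → ℂ) : Prop :=
  ∀ (i : ι) (v : Fin 2 → ℂ), ∃ Δ : Derivation ℚ ℂ ℂ,
    (∀ j, j ≠ i → ∀ l, Δ (q j l) = 0) ∧ ∀ l, Δ (q i l) = v l

/-! ### rectangles -/

/-- `ER T q a`: there is no curve of bidegree `(H - 1, L - 1)` with generic points of
multiplicities `k i ≤ c ≤ T`, if `H - 1 ≥ q c`, `L - 1 ≥ a c` and the self-intersection is not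
positive -/
def ER (T q a : ℕ) : Prop := ∀ (N c H L : ℕ) (k : Fin N → ℕ), 1 ≤ c → c ≤ T → (∀ i, k i ≤ c) →
  q * c + 1 ≤ H → a * c + 1 ≤ L → 2 * ((H - 1) * (L - 1)) ≤ ∑ i, k i ^ 2 → hRm H L k = 0

/-- the windows for rectangles -/
def WinR (T q a : ℕ) : Prop := ∀ (N c H L : ℕ) (k : Fin N → ℕ), 1 ≤ c → (∀ i, k i ≤ c) →
  6 * q * (c + 1) + 1 ≤ H → 6 * a * (c + 1) + 1 ≤ L →
    (T * (2 * ((H - 1) * (L - 1))) + 6 * c ^ 2 ≤ T * ∑ i, k i ^ 2 → hRm H L k = 0) ∧
    (T * (∑ i, k i ^ 2 + 23 * (∑ i, k i + H + L)) + 6 * (c + 1) ^ 2 ≤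
      T * (2 * ((H - 1) * (L - 1))) → hRm H L k + ∑ i, (k i + 1).choose 2 = H * L)

/-- a strip of a rectangle: `κ` rows and a further piece of `L - X` monomials are filled -/
def RStep {r : ℕ} (H L κ X : ℕ) (y y' : Fin r → ℕ) : Prop :=
  1 ≤ κ ∧ κ + 1 ≤ H ∧ X ≤ L ∧ (∀ i, y' i = y i ∨ y' i = 0) ∧
    hRm H L y ≤ max (hRm (H - κ) L y' - (L - X)) (hRm (H - κ - 1) L y')

/-! ### the plane -/

/-- `FP T ρ`: all systems with multiplicities `m i ≤ c ≤ T` and degree `D ≥ ρ c` are nonspecial -/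
def FP (T ρ : ℕ) : Prop := ∀ (r c D : ℕ) (m : Fin r → ℕ), 1 ≤ c → c ≤ T → (∀ i, m i ≤ c) →
  ρ * c ≤ D → hPm D m = (D + 2).choose 2 - ∑ i, (m i + 1).choose 2

/-- the windows for the plane -/
def WinP (T ρ : ℕ) : Prop := ∀ (r c D : ℕ) (m : Fin r → ℕ), 1 ≤ c → (∀ i, m i ≤ c) →
  3 * ρ * (c + 1) ≤ D →
    (T * D ^ 2 + 6 * c ^ 2 ≤ T * ∑ i, m i ^ 2 → hPm D m = 0) ∧
    (T * (∑ i, m i ^ 2 + 23 * ∑ i, m i) + 6 * (c + 1) ^ 2 ≤ T * D ^ 2 →
      hPm D m + ∑ i, (m i + 1).choose 2 = (D + 2).choose 2)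

/-- a strip of the plane: `κ` rows and a further piece of `A` monomials are filled -/
def PStep {r : ℕ} (D κ A : ℕ) (y y' : Fin r → ℕ) : Prop :=
  1 ≤ κ ∧ κ + 1 ≤ D ∧ A ≤ D - κ + 1 ∧ (∀ i, y' i = y i ∨ y' i = 0) ∧
    A + κ * (D + 1) + ∑ i, (y' i + 1).choose 2 = ∑ i, (y i + 1).choose 2 + κ.choose 2 ∧
    hPm D y ≤ max (hPm (D - κ) y' - A) (hPm (D - κ - 1) y')

/-- pools of multiplicities: `P v` is the index of the pool of `v` -/
structure Pools (P : ℕ → ℕ) (p U T J : ℕ) : Prop where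
  mono : Monotone P
  width : ∀ v w, P v = P w → v ≤ w → w ≤ v + v / p
  small : ∀ v w, P v = P w → v < U → v = w
  count : ∀ v, v ≤ T → P v < J

end Pool.Agent.Work.MP_0421d9_ag.LD
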