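import Pool.Agent.Work.MP_0421d9_ag.ZDefs

/-!
Arbitrary multiplicities in degree at least `C M ^ (1 + ε)`: further definitions.
-/

namespace Pool.Agent.Work.MP_0421d9_ag.LD

open MvPolynomial Module

/-- generic points of the plane in affine coordinates -/
noncomputable def aff {ι : Type} (p : ι → V3) : ι → Fin 2 → ℂ :=
  fun i => ![p i 0 / p i 2, p i 1 / p i 2]

/-- the conditions imposed by, and the multiplicities of, the points which are used -/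
def StripOut {r : ℕ} (H L : ℕ) (P : Finset (Fin r)) (y : Fin r → ℕ) (u : ℕ) : Prop :=
  ∃ (κ X : ℕ) (y' : Fin r → ℕ) (Cu Su : ℕ), RStep H L κ X y y' ∧
    (∀ i, i ∉ P → y' i = y i) ∧ Cu + ∑ i, (y' i + 1).choose 2 = ∑ i, (y i + 1).choose 2 ∧
    Su + ∑ i, y' i = ∑ i, y i ∧ κ ≤ 2 * u ∧
    32 * (X + Cu) ≤ 32 * ((κ + 1) * L) + Su ∧ 32 * Cu ≤ 32 * ((κ + 1) * L) + Su ∧
    (κ + 1) * L ≤ 2 * Cu

/-- the number of monomials in `κ` rows of the triangle of degree `D` -/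
def Frow (D κ : ℕ) : ℕ := κ * (D + 1) - κ.choose 2

/-- `df k = (2 k - 3)!!` for `k ≥ 2`, `df 0 = df 1 = 1` -/
def df : ℕ → ℕ
  | 0 => 1
  | 1 => 1
  | (k + 2) => (2 * k + 1) * df (k + 1)

/-- a strip of the plane: some of the points kill the forms with exponents in `κ` rows and in a
further piece of `A` monomials; `y'` is `y` without these points -/
def StripK {r : ℕ} (D κ A : ℕ) (y y' : Fin r → ℕ) : Prop :=
  ∃ (N : ℕ) (e : Fin N → Fin r), Function.Injective e ∧ 1 ≤ κ ∧ κ + 1 ≤ D ∧ A ≤ D - κ + 1 ∧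
    A + κ * (D + 1) = ∑ k, (y (e k) + 1).choose 2 + κ.choose 2 ∧
    Killsm D (y ∘ e) {α | α 2 < κ ∨ (α 2 = κ ∧ α 0 < A)} ∧ y' = rest e y

/-- a strip with gain: `G` times the gain is at least the sum of the multiplicities used -/
def StripGain {r : ℕ} (D G : ℕ) (P : Finset (Fin r)) (y : Fin r → ℕ) (u : ℕ) : Prop :=
  ∃ (κ A : ℕ) (y' : Fin r → ℕ) (Su : ℕ), StripK D κ A y y' ∧ (∀ i, i ∉ P → y' i = y i) ∧
    Su + ∑ i, y' i = ∑ i, y i ∧ κ ≤ 2 * u ∧ 1 ≤ Su ∧ Su ≤ G * A ∧ Su ≤ G * (D - κ + 1 - A)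

end Pool.Agent.Work.MP_0421d9_ag.LD
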