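import Pool.Agent.Work.MP_0421d9_ag.ZEDim

/-!
Collisions of generic points, relative version: the chain argument.
-/

set_option linter.unusedSectionVars false
set_option linter.unusedVariables false

namespace Pool.Agent.Work.MP_0421d9_ag.ZE

open MvPolynomial Module SM ZC

variable {ι Λ : Type} [Fintype ι] [Fintype Λ] [DecidableEq ι] [DecidableEq Λ] {d M : ℕ}
  {m : ι → ℕ} {U : Finset ι} {μ w s Mv : Λ → ℕ} {v : ∀ l, Fin (s l) → ℕ}

theorem Dat.w_le (S : Dat d M m U μ w s Mv v) (l : Λ) : w l + 1 ≤ μ l := by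
  have h1 := S.hw l
  have h2 := S.hMv l
  omega

/-- the room for the surjectivity of the leading parts -/
theorem Dat.surj_room (S : Dat d M m U μ w s Mv v) {Y : Finset Λ}
    (hY : Y.card ≤ 1) (i i' : ι) (hi : i ∉ U) (hi' : i' ∉ U) (I : Finset Λ)
    (hI : I.card ≤ 2) {j : ℕ} (hj : j ≤ m i) {y : ι ⊕ Λ → ℕ} (hyi : y (Sum.inl i) = j)
    (hyj : ∀ i'' ≠ i, y (Sum.inl i'') = m i'' + if i'' = i' then 1 else 0)
    (hyl : ∀ l, y (Sum.inr l) = μ l + if l ∈ I ∪ Y then 1 else 0) :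
    ∑ x, (y x + 1).choose 2 + (y (Sum.inl i) + 1) ≤ (d + 2).choose 2 := by
  classical
  have h1 : ∀ x : ι ⊕ Λ, (y x + 1).choose 2 + (if x = Sum.inl i then y (Sum.inl i) + 1 else 0) ≤
      (Sum.elim m μ x + 1).choose 2 +
        (if x ∈ ((({i} ∪ {i'} : Finset ι)).disjSum (I ∪ Y) : Finset (ι ⊕ Λ)) then M else 0) := by
    rintro (i'' | l)
    · by_cases h : i'' = i
      · subst h
        rw [if_pos rfl, hyi, if_pos (by simp), Sum.elim_inl, ← choose_succ_two]
        have h2 : (j + 2).choose 2 ≤ (m i'' + 2).choose 2 := Nat.choose_le_choose 2 (by omega)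
        have h3 := S.hm i'' hi
        rw [choose_succ_two (m i'')] at h2
        omega
      · rw [if_neg (by simpa using h), hyj i'' h, Sum.elim_inl, add_zero]
        by_cases hne : i'' = i'
        · subst hne
          rw [if_pos rfl, if_pos (by simp)]
          have h3 := S.hm i'' hi'
          have h4 := choose_succ_two (m i'')
          have h5 : m i'' + 1 + 1 = m i'' + 2 := by ring
          rw [h5, h4]
          omega
        · rw [if_neg hne]
          simp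
    · rw [if_neg (by simp), hyl l, Sum.elim_inr, add_zero]
      have h3 := S.hμ l
      by_cases hl : l ∈ I ∪ Y
      · rw [if_pos hl, if_pos (by simpa using hl)]
        have h4 := choose_succ_two (μ l)
        have h5 : μ l + 1 + 1 = μ l + 2 := rfl
        rw [h5, h4]
        omega
      · rw [if_neg hl]
        simp
  have h2 := Finset.sum_le_sum (fun x (_ : x ∈ (Finset.univ : Finset (ι ⊕ Λ))) => h1 x)
  rw [Finset.sum_add_distrib, Finset.sum_add_distrib, Finset.sum_ite_eq' Finset.univ,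
    if_pos (Finset.mem_univ _), Finset.sum_ite_mem, Finset.univ_inter, Finset.sum_const,
    smul_eq_mul] at h2
  have h3 : ((({i} ∪ {i'} : Finset ι)).disjSum (I ∪ Y) : Finset (ι ⊕ Λ)).card ≤ 5 := by
    rw [Finset.card_disjSum]
    have h5 := Finset.card_union_le ({i} : Finset ι) {i'}
    have h6 := Finset.card_union_le I Y
    rw [Finset.card_singleton, Finset.card_singleton] at h5
    omega
  have h4 := Nat.mul_le_mul_right M h3
  have h5 := S.room
  have h6 := S.hχ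
  have h7 : ∑ x, (Sum.elim m μ x + 1).choose 2 =
      ∑ i, (m i + 1).choose 2 + ∑ l, (μ l + 1).choose 2 := by
    rw [Fintype.sum_sum_type]
    rfl
  rw [h7] at h2
  omega

/-- **The chain theorem for the data of a collision.** -/
theorem Dat.core (S : Dat d M m U μ w s Mv v) {p : ι → V3} {P : Λ → V3} {c : Λ → ℂ}
    (hg : GenericPoints (Sum.elim p P)) {E : ι → Fin 2 → Derivation ℚ ℂ ℂ}
    {D : Λ → Derivation ℚ ℂ ℂ} (hE : Ders p P c E D) (V : Finset ι) (hUV : U ⊆ V)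
    (Y : Finset Λ) (hY : Y.card ≤ 1) {n N : ℕ} (hn : n ≤ 3)
    {BB : Submodule ℂ (R3 × MvPolynomial (Fin n) ℂ)} (hom1 : ∀ H ∈ BB, H.1 ∈ linSys d P μ)
    (hom2 : ∀ H ∈ BB, H.2.IsHomogeneous N) (stE : ∀ i ∉ V, ∀ k, ∀ H ∈ BB, ps (E i k) H ∈ BB)
    (stD : ∀ l ∉ Y, ∀ H ∈ BB, ps (D l) H ∈ BB) {q : Fin n → ℂ} (hq : q ≠ 0)
    (free1 : ∀ H ∈ linSys d P μ, (∀ l ∈ Y, VanishTo H (P l) (μ l + 1)) →
      (∀ a ∈ V, VanishTo H (p a) (m a)) → ∃ Θ, (H, Θ) ∈ BB)
    (hsep : ∀ l ∉ Y, ∀ j < w l, ∃ H ∈ BB, fd d (μ l) (P l) (c l) j H.1 ≠ 0 ∧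
      (∀ j' < w l, j' ≠ j → fd d (μ l) (P l) (c l) j' H.1 = 0) ∧
      (∀ l' ∉ Y, l' ≠ l → ∀ j' < w l', fd d (μ l') (P l') (c l') j' H.1 = 0) ∧
      eval q H.2 = 0)
    (hbpf : ∀ T : Finset ι, T.card ≤ 1 → (∀ i ∈ T, i ∉ V) → ∃ H ∈ BB,
      (∀ i ∈ T, VanishTo H.1 (p i) (m i)) ∧ eval q H.2 ≠ 0)
    {F : R3 × MvPolynomial (Fin n) ℂ} (hF : F ∈ BB) (hF' : ∀ i ∉ V, VanishTo F.1 (p i) (m i))
    (fl : ∀ l ∉ Y, ∀ j < w l, fd d (μ l) (P l) (c l) j F.1 = 0)
    (ex : ∀ l ∉ Y, fd d (μ l) (P l) (c l) (w l) F.1 ≠ 0)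
    (uniq : ∀ H ∈ BB, (∀ i ∉ V, VanishTo H.1 (p i) (m i)) →
      (∀ l ∉ Y, ∀ j < w l, fd d (μ l) (P l) (c l) j H.1 = 0) → ∃ a : ℂ, H = a • F)
    (dim : 1 + ∑ l : {l // l ∉ Y}, w l.1 ≤ finrank ℂ
      (VV d (fun i : {i // i ∉ V} => p i.1) BB (fun i => m i.1)))
    (h0 : eval q F.2 = 0) (h1 : ∀ k, eval q (pderiv k F.2) = 0) : False := by
  classical
  have hp2 : ∀ i, p i 2 ≠ 0 := fun i => by
    have h2 := hg.ne_zero (Sum.inl i, 2)
    exact h2
  have hP2 : ∀ l, P l 2 ≠ 0 := fun l => by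
    have h2 := hg.ne_zero (Sum.inr l, 2)
    exact h2
  have C : Chn n N d (fun i : {i // i ∉ V} => p i.1) (fun i => m i.1)
      (fun l : {l // l ∉ Y} => w l.1) BB
      (fun l j => fd d (μ l.1) (P l.1) (c l.1) j) (fun i k => E i.1 k) (fun l => D l.1) :=
    { hd := fun i => by
        have := S.hmd i.1
        omega
      hp := fun i => hp2 i.1
      hom1 := fun H hH => (hom1 H hH).1
      hom2 := hom2
      E2 := fun i k j => hE.E2 i.1 k j.1
      Ep := fun i k l => hE.Ep i.1 k l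
      Ep' := fun i k j l h => hE.Ep' i.1 k j.1 l (fun h' => h (Subtype.ext h'))
      Dp := fun l j k => hE.Dp l.1 j.1 k
      stE := fun i k H hH => stE i.1 i.2 k H hH
      stD := fun l H hH => stD l.1 l.2 H hH
      lawE := fun i k l j H hH => by
        rw [D_fd _ (fun k' => hE.EP i.1 k l.1 k'), hE.Ec, zero_mul, add_zero]
      lawD := fun l j H hH => by
        rw [D_fd _ (fun k' => hE.DP l.1 l.1 k'), hE.Dc, one_mul]
      lawD' := fun l l' j h H hH => by
        rw [D_fd _ (fun k' => hE.DP l.1 l'.1 k'),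
          hE.Dc' l.1 l'.1 (fun h' => h (Subtype.ext h')), zero_mul, add_zero] }
  have T : Sol d (fun i : {i // i ∉ V} => p i.1) (fun i => m i.1)
      (fun l : {l // l ∉ Y} => w l.1) BB (fun l j => fd d (μ l.1) (P l.1) (c l.1) j) F :=
    { dim := dim
      hF := ⟨hF, (hom1 F hF).1, fun i => hF' i.1 i.2⟩
      fl := fun l j hj => fl l.1 l.2 j hj
      ex := fun l => ex l.1 l.2
      uniq := fun H hH h => uniq H hH.1 (fun i hi => hH.2.2 ⟨i, hi⟩)
        (fun l hl j hj => h ⟨l, hl⟩ j hj) }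
  refine C.main T hn hq ?_ ?_ ?_ h0 h1
  · -- surjectivity
    rintro ⟨i, hi⟩ ⟨i', hi'⟩ I hI j hj1 hj β hβ
    have hiU : i ∉ U := fun h => hi (hUV h)
    have hiU' : i' ∉ U := fun h => hi' (hUV h)
    set I' : Finset Λ := I.map ⟨Subtype.val, Subtype.val_injective⟩ with hI'
    have hI'c : I'.card ≤ 2 := by
      rw [hI', Finset.card_map]
      exact hI
    have hIm : ∀ l (hl : l ∉ Y), (⟨l, hl⟩ : {l // l ∉ Y}) ∈ I → l ∈ I' := by
      intro l hl h
      rw [hI', Finset.mem_map]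
      exact ⟨⟨l, hl⟩, h, rfl⟩
    obtain ⟨y, hy⟩ : ∃ y : ι ⊕ Λ → ℕ, y = Sum.elim (fun i'' => if i'' = i then j else
      m i'' + (if i'' = i' then 1 else 0)) (fun l => μ l + if l ∈ I' ∪ Y then 1 else 0) := ⟨_, rfl⟩
    have hyi : y (Sum.inl i) = j := by
      rw [hy, Sum.elim_inl, if_pos rfl]
    have hyj : ∀ i'' ≠ i, y (Sum.inl i'') = m i'' + if i'' = i' then 1 else 0 := fun i'' h => by
      rw [hy, Sum.elim_inl, if_neg h]
    have hyl : ∀ l, y (Sum.inr l) = μ l + if l ∈ I' ∪ Y then 1 else 0 := fun l => by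
      rw [hy, Sum.elim_inr]
    have hroom := S.surj_room hY i i' hiU hiU' I' hI'c hj hyi hyj hyl
    have hjm : j ≤ m i := hj
    have hnear : ∀ y' : ι ⊕ Λ → ℕ, y' (Sum.inl i) ≤ m i + 1 →
        (∀ x, x ≠ Sum.inl i → y' x = y x) → Near m U μ y' := by
      intro y' h2 h3
      refine ⟨fun l => ?_, {i, i'}, Finset.card_le_two, fun x hx => ?_, fun x hx => ?_⟩
      · rw [h3 _ (by simp), hyl]
        split_ifs <;> omega
      · by_cases hxi : x = i
        · rw [hxi]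
          exact ⟨hiU, h2⟩
        · have hx' : x = i' := by
            rcases Finset.mem_insert.mp hx with h | h
            · exact absurd h hxi
            · exact Finset.mem_singleton.mp h
          refine ⟨by rw [hx']; exact hiU', ?_⟩
          rw [h3 _ (by simpa using hxi), hyj x hxi]
          split_ifs <;> omega
      · have hxi : x ≠ i := fun h => hx (by rw [h]; exact Finset.mem_insert_self _ _)
        have hxi' : x ≠ i' := fun h => hx (by
          rw [h]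
          exact Finset.mem_insert_of_mem (Finset.mem_singleton_self _))
        rw [h3 _ (by simpa using hxi), hyj x hxi, if_neg hxi', add_zero]
    obtain ⟨H, hH, hHl⟩ := exists_of_Nsp (y := y) (i := Sum.inl i)
      (S.hN y (hnear y (by omega) (fun _ _ => rfl)))
      (S.hN _ (hnear _ (by rw [Function.update_self]; omega)
        (fun x hx => Function.update_of_ne hx _ _))) (by
      rw [hyi]
      have := S.hmd i
      omega) hroom hg (β := β) (by rw [hyi]; exact hβ)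
    rw [hyi] at hHl
    have hHl' : ld d j (p i) H = β := hHl
    have hvl : ∀ l, VanishTo H (P l) (μ l + if l ∈ I' ∪ Y then 1 else 0) := fun l => by
      have h2 := hH.2 (Sum.inr l)
      rw [hyl] at h2
      exact h2
    have hHP : H ∈ linSys d P μ := ⟨hH.1, fun l => (hvl l).mono (Nat.le_add_right _ _)⟩
    obtain ⟨Θ, hΘ⟩ := free1 H hHP (fun l hl => by
      have := hvl l
      rwa [if_pos (Finset.mem_union_right _ hl)] at this) (fun a ha => by
      have h2 : a ≠ i := fun h => hi (h ▸ ha)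
      have h3 := hH.2 (Sum.inl a)
      rw [hyj a h2] at h3
      exact h3.mono (by omega))
    refine ⟨(H, Θ), hΘ, ?_, hHl', ?_, ?_⟩
    · have h3 := hH.2 (Sum.inl i)
      rwa [hyi] at h3
    · rintro ⟨i'', hi''⟩ hne
      have hne' : i'' ≠ i := fun h => hne (Subtype.ext h)
      have h3 := hH.2 (Sum.inl i'')
      rw [hyj i'' hne'] at h3
      refine h3.mono ?_
      simp only [Subtype.mk.injEq]
      exact le_rfl
    · rintro ⟨l, hl⟩ hlI j'
      refine fd_zero_of_vanishTo hH.1 (hP2 l) (by have := S.hμd l; change μ l ≤ d; omega) ?_ _ _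
      have := hvl l
      rwa [if_pos (Finset.mem_union_left _ (hIm l hl hlI))] at this
  · -- separation
    rintro ⟨l, hl⟩ j hj
    obtain ⟨H, h2, h3, h4, h5, h6⟩ := hsep l hl j hj
    exact ⟨H, h2, h3, h4, fun l' hne j' hj' => h5 l'.1 l'.2
      (fun h => hne (Subtype.ext h)) j' hj', h6⟩
  · -- base points
    intro T hT
    obtain ⟨H, hH, h2, h3⟩ := hbpf (T.map ⟨Subtype.val, Subtype.val_injective⟩)
      (by rw [Finset.card_map]; exact hT) (by
        intro i hi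
        rw [Finset.mem_map] at hi
        obtain ⟨x, -, rfl⟩ := hi
        exact x.2)
    refine ⟨H, hH, fun i hi => ?_, h3⟩
    apply h2
    rw [Finset.mem_map]
    exact ⟨i, hi, rfl⟩

/-- the multiplicities in the separation of the flags: `μ l` at the point of collision `l`,
`μ l' + 2` at the others, `m` at the points of `V`, no condition at the other points -/
def sepY (m : ι → ℕ) (V : Finset ι) (μ : Λ → ℕ) (l : Λ) : ι ⊕ Λ → ℕ :=
  Sum.elim (fun i => if i ∈ V then m i else 0) (fun l' => if l' = l then μ l' else μ l' + 2)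

theorem far_of {V : Finset ι} (hUV : U ⊆ V) {y : ι ⊕ Λ → ℕ}
    (h1 : ∀ l, μ l ≤ y (Sum.inr l) ∧ y (Sum.inr l) ≤ μ l + 2) {T : Finset ι}
    (hV : (V \ U).card + T.card ≤ 2) (h2 : ∀ i ∈ V, y (Sum.inl i) = m i)
    (h3 : ∀ i ∈ T, i ∉ V → y (Sum.inl i) = m i) (h4 : ∀ i ∉ T, i ∉ V → y (Sum.inl i) = 0) :
    Far m U μ y := by
  refine ⟨h1, fun i hi => h2 i (hUV hi), (V \ U) ∪ (T \ V), ?_, fun i hi => ?_,
    fun i hi hiU => ?_⟩
  · have h5 := Finset.card_union_le (V \ U) (T \ V)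
    have h6 := Finset.card_le_card (Finset.sdiff_subset : T \ V ⊆ T)
    omega
  · rw [Finset.mem_union, Finset.mem_sdiff, Finset.mem_sdiff] at hi
    rcases hi with ⟨hV', hU'⟩ | ⟨hT', hV'⟩
    · exact ⟨hU', (h2 i hV').le⟩
    · exact ⟨fun h => hV' (hUV h), (h3 i hT' hV').le⟩
  · rw [Finset.mem_union, Finset.mem_sdiff, Finset.mem_sdiff] at hi
    push Not at hi
    have hiV : i ∉ V := fun h => hiU (hi.1 h)
    exact h4 i (fun h => hiV (hi.2 h)) hiV

/-- **Separation of the flags** -/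
theorem Dat.sep (S : Dat d M m U μ w s Mv v) {p : ι → V3} {P : Λ → V3} {c : Λ → ℂ}
    (hg : GenericPoints (Sum.elim p P)) {V : Finset ι} (hUV : U ⊆ V) (hV : (V \ U).card ≤ 1)
    {l : Λ} {j : ℕ} (hj : j < w l) (κ : R3 →ₗ[ℂ] ℂ)
    (hκ : (∀ H ∈ linSys d (Sum.elim p P) (sepY m V μ l), κ H = 0) ∨
      ∃ H ∈ linSys d (Sum.elim p P) (sepY m V μ l), VanishTo H (P l) (μ l + 1) ∧ κ H ≠ 0) :
    ∃ H ∈ linSys d (Sum.elim p P) (sepY m V μ l), fd d (μ l) (P l) (c l) j H ≠ 0 ∧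
      (∀ j' < w l, j' ≠ j → fd d (μ l) (P l) (c l) j' H = 0) ∧
      (∀ l', l' ≠ l → ∀ j' < w l', fd d (μ l') (P l') (c l') j' H = 0) ∧ κ H = 0 := by
  classical
  have hwl := S.w_le l
  have hμd := S.hμd
  have hP2 : ∀ l, P l 2 ≠ 0 := fun l => by
    have h2 := hg.ne_zero (Sum.inr l, 2)
    exact h2
  have hfar : Far m U μ (sepY m V μ l) := by
    refine far_of hUV (fun l' => ?_) (T := ∅) (by simpa using (by omega : (V \ U).card ≤ 2))
      (fun i hi => ?_) (fun i hi => absurd hi (Finset.notMem_empty i)) (fun i _ hi => ?_)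
    · unfold sepY
      rw [Sum.elim_inr]
      split_ifs <;> omega
    · unfold sepY
      rw [Sum.elim_inl, if_pos hi]
    · unfold sepY
      rw [Sum.elim_inl, if_neg hi]
  have hyl : sepY m V μ l (Sum.inr l) = μ l := by
    unfold sepY
    rw [Sum.elim_inr, if_pos rfl]
  have hyl' : ∀ l' ≠ l, sepY m V μ l (Sum.inr l') = μ l' + 2 := fun l' h => by
    unfold sepY
    rw [Sum.elim_inr, if_neg h]
  obtain ⟨β, hβ, hβf⟩ := exists_flag_beta (c l) (k := μ l) (i := j) (by omega)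
  obtain ⟨H₁, hH₁, hl₁⟩ := (S.hF _ hfar).lf _ hg (Sum.inr l) β (by rw [hyl]; exact hβ)
  rw [hyl] at hl₁
  have hl₁' : ld d (μ l) (P l) H₁ = β := hl₁
  have hf₁ : ∀ j', fd d (μ l) (P l) (c l) j' H₁ = if j' = j then 1 else 0 := fun j' => by
    rw [fd_eq, hl₁', hβf]
  have hother : ∀ H ∈ linSys d (Sum.elim p P) (sepY m V μ l), ∀ l', l' ≠ l → ∀ j',
      fd d (μ l') (P l') (c l') j' H = 0 := by
    intro H hH l' hne j'
    refine fd_zero_of_vanishTo hH.1 (hP2 l') (by have := hμd l'; omega) ?_ _ _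
    have h2 := hH.2 (Sum.inr l')
    rw [hyl' l' hne] at h2
    have h3 : VanishTo H (P l') (μ l' + 2) := h2
    exact h3.mono (by omega)
  rcases hκ with hκ | ⟨H₀, hH₀, hv₀, hκ₀⟩
  · refine ⟨H₁, hH₁, ?_, fun j' _ hne => ?_, fun l' hne j' _ => hother H₁ hH₁ l' hne j', hκ H₁ hH₁⟩
    · rw [hf₁, if_pos rfl]
      exact one_ne_zero
    · rw [hf₁, if_neg hne]
  · have hf₀ : ∀ j', fd d (μ l) (P l) (c l) j' H₀ = 0 := fun j' =>
      fd_zero_of_vanishTo hH₀.1 (hP2 l) (by have := hμd l; omega) hv₀ _ _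
    have hmem : H₁ - (κ H₁ / κ H₀) • H₀ ∈ linSys d (Sum.elim p P) (sepY m V μ l) :=
      sub_mem hH₁ (Submodule.smul_mem _ _ hH₀)
    refine ⟨H₁ - (κ H₁ / κ H₀) • H₀, hmem, ?_, fun j' _ hne => ?_,
      fun l' hne j' _ => hother _ hmem l' hne j', ?_⟩
    · rw [map_sub, map_smul, hf₀, smul_zero, sub_zero, hf₁, if_pos rfl]
      exact one_ne_zero
    · rw [map_sub, map_smul, hf₀, smul_zero, sub_zero, hf₁, if_neg hne]
    · rw [map_sub, map_smul, smul_eq_mul, div_mul_cancel₀ _ hκ₀, sub_self]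

end Pool.Agent.Work.MP_0421d9_ag.ZE
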