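import Pool.Agent.Work.MP_0421d9_ag.ZCFlag

/-!
Collisions of generic points, relative version: some of the points are not moved, and only those
systems which occur in the argument are assumed to be nonspecial. Definitions and first properties.
-/

set_option linter.unusedSectionVars false
set_option linter.unusedVariables false

namespace Pool.Agent.Work.MP_0421d9_ag.ZE

open MvPolynomial Module SM ZC

/-- the system of degree `d` with multiplicities `y` in generic points is nonspecial -/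
def Nsp {κ : Type} [Fintype κ] (d : ℕ) (y : κ → ℕ) : Prop :=
  ∀ p : κ → V3, GenericPoints p →
    finrank ℂ (linSys d p y) = (d + 2).choose 2 - ∑ j, (y j + 1).choose 2

/-- no base points outside the points `p j`, and all leading forms at the points `p j` occur -/
structure Free {κ : Type} (d : ℕ) (y : κ → ℕ) : Prop where
  bp : ∀ p : κ → V3, GenericPoints p → ∀ q : V3, q ≠ 0 → (∀ j, cr (p j) q ≠ 0) →
    ∃ H ∈ linSys d p y, eval q H ≠ 0
  lf : ∀ p : κ → V3, GenericPoints p → ∀ (j : κ) (β : R2), β.IsHomogeneous (y j) →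
    ∃ H ∈ linSys d p y, ld d (y j) (p j) H = β

/-- if lines suffice -/
theorem free_of_sum {κ : Type} [Fintype κ] [DecidableEq κ] {d : ℕ} {y : κ → ℕ}
    (h : ∑ j, y j ≤ d) : Free d y where
  bp := fun p hp q hq hpq => by
    obtain ⟨H, h1, h2, h3⟩ := exists_form_ne hq hpq h
    exact ⟨H, ⟨h1, h2⟩, h3⟩
  lf := fun p hp j β hβ => by
    have hsum : ∑ x : {x // x ≠ j}, y x.1 + y j ≤ d := by
      have h1 : ∑ x : {x // x ≠ j}, y x.1 + y j = ∑ x, y x := by
        rw [← Finset.add_sum_erase Finset.univ y (Finset.mem_univ j), add_comm]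
        congr 1
        rw [← Finset.sum_subtype (Finset.univ.erase j) (p := fun x => x ≠ j)
          (fun x => by simp) y]
      rw [h1]
      exact h
    obtain ⟨H, h1, h2, h3, h4⟩ := ZC.exists_form (κ := {x // x ≠ j}) (Q := fun x => p x.1)
      (a := fun x => y x.1) (hp.ne_zero (j, 2)) (fun x => generic_cr_ne hp x.2) hsum hβ
    refine ⟨H, ⟨h1, fun x => ?_⟩, h4⟩
    by_cases hx : x = j
    · rw [hx]
      exact h3
    · exact h2 ⟨x, hx⟩

/-- surjectivity of the leading part from the dimensions -/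
theorem exists_of_Nsp {κ : Type} [Fintype κ] [DecidableEq κ] {d : ℕ} {y : κ → ℕ} {i : κ}
    (hN : Nsp d y) (hN' : Nsp d (Function.update y i (y i + 1))) (hd : y i ≤ d)
    (hχ : ∑ j, (y j + 1).choose 2 + (y i + 1) ≤ (d + 2).choose 2) {p : κ → V3}
    (hp : GenericPoints p) {β : R2} (hβ : β.IsHomogeneous (y i)) :
    ∃ H ∈ linSys d p y, ld d (y i) (p i) H = β := by
  have hpi : p i 2 ≠ 0 := AlgebraicIndependent.ne_zero hp (i, 2)
  obtain ⟨n, hn⟩ : ∃ n, n = y i := ⟨_, rfl⟩
  rw [← hn] at hN' hd hχ hβ ⊢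
  obtain ⟨y', hy'⟩ : ∃ y' : κ → ℕ, y' = Function.update y i (n + 1) := ⟨_, rfl⟩
  rw [← hy'] at hN'
  have hy'i : y' i = n + 1 := by rw [hy', Function.update_self]
  have hy'j : ∀ j ≠ i, y' j = y j := fun j hj => by rw [hy', Function.update_of_ne hj]
  have hle : linSys d p y' ≤ linSys d p y := by
    rintro F ⟨hF, hF'⟩
    refine ⟨hF, fun j => (hF' j).mono ?_⟩
    rcases eq_or_ne j i with rfl | hj
    · rw [hy'i, ← hn]; exact Nat.le_succ _
    · rw [hy'j j hj]
  have hfin : Module.Finite ℂ (linSys d p y) :=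
    Submodule.finiteDimensional_of_le (linSys_le d p _)
  obtain ⟨φ, hφ⟩ : ∃ φ : R3 →ₗ[ℂ] (Fin (n + 1) → ℂ), ∀ F (a : Fin (n + 1)),
      φ F a = coeff (e2 a (n - a)) (ld d n (p i) F) :=
    ⟨LinearMap.pi fun a => (lcoeff ℂ (e2 a (n - a))).comp (ld d n (p i)), fun F a => rfl⟩
  have hext : ∀ F ∈ linSys d p y, ∀ β' : R2, β'.IsHomogeneous n →
      (∀ a, φ F a = coeff (e2 (a : Fin (n + 1)) (n - a)) β') → ld d n (p i) F = β' := by
    intro F hF β' hβ' h
    have hl := ld_hom hF.1 hd (p i)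
    refine R2_ext fun a b => ?_
    by_cases hab : a + b = n
    · have h1 := h ⟨a, by omega⟩
      rw [hφ] at h1
      have h2 : n - a = b := by omega
      rw [← h2]
      exact h1
    · have h3 : (e2 a b).degree ≠ n := by
        rw [Finsupp.degree_eq_sum, Fin.sum_univ_two]
        exact hab
      rw [hl.coeff_eq_zero h3, hβ'.coeff_eq_zero h3]
  have hker : LinearMap.ker (φ.domRestrict (linSys d p y)) =
      (linSys d p y').comap (linSys d p y).subtype := by
    ext ⟨F, hF⟩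
    rw [LinearMap.mem_ker, Submodule.mem_comap]
    change φ F = 0 ↔ F ∈ linSys d p y'
    have hFi := hF.2 i
    constructor
    · intro h
      have h1 := hext F hF 0 (isHomogeneous_zero _ _ _) (fun a => by rw [h]; simp)
      refine ⟨hF.1, fun j => ?_⟩
      rcases eq_or_ne j i with rfl | hj
      · rw [hy'i, vanishTo_iff_ld hF.1 hpi (by omega)]
        intro k hk
        rcases Nat.lt_succ_iff_lt_or_eq.mp hk with hk | rfl
        · rw [← hn] at hFi
          exact (vanishTo_iff_ld hF.1 hpi (by omega)).mp hFi k hk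
        · exact h1
      · rw [hy'j j hj]
        exact hF.2 j
    · intro h
      have h1 := h.2 i
      rw [hy'i, vanishTo_iff_ld hF.1 hpi (by omega)] at h1
      funext a
      rw [hφ, h1 n (Nat.lt_succ_self n)]
      rfl
  have hrk := LinearMap.finrank_range_add_finrank_ker (φ.domRestrict (linSys d p y))
  rw [hker, (Submodule.comapSubtypeEquivOfLe hle).finrank_eq, hN p hp, hN' p hp] at hrk
  have hsum : ∑ j, (y' j + 1).choose 2 = ∑ j, (y j + 1).choose 2 + (n + 1) := by
    rw [← Finset.add_sum_erase Finset.univ _ (Finset.mem_univ i),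
      ← Finset.add_sum_erase Finset.univ (fun j => (y j + 1).choose 2) (Finset.mem_univ i), hy'i,
      ← hn]
    have h1 : ∑ x ∈ Finset.univ.erase i, (y' x + 1).choose 2 =
        ∑ x ∈ Finset.univ.erase i, (y x + 1).choose 2 :=
      Finset.sum_congr rfl fun x hx => by rw [hy'j x (Finset.ne_of_mem_erase hx)]
    have h2 : (n + 1 + 1).choose 2 = (n + 1).choose 2 + (n + 1) := by
      rw [Nat.choose_succ_succ' (n + 1) 1, Nat.choose_one_right, add_comm]
    rw [h1, h2]
    omega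
  have hrange : LinearMap.range (φ.domRestrict (linSys d p y)) = ⊤ := by
    refine Submodule.eq_top_of_finrank_eq ?_
    rw [Module.finrank_fin_fun]
    omega
  obtain ⟨⟨H, hH⟩, hHβ⟩ := LinearMap.range_eq_top.mp hrange
    (fun a => coeff (e2 (a : Fin (n + 1)) (n - a)) β)
  refine ⟨H, hH, hext H hH β hβ fun a => ?_⟩
  exact congrFun hHβ a

/-- the binary forms which are dual to the flag functionals -/
theorem exists_flag_beta (c : ℂ) {k i : ℕ} (hi : i ≤ k) : ∃ β : R2, β.IsHomogeneous k ∧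
    ∀ i', eval ![c, 1] ((pderiv 0)^[i'] β) = if i' = i then 1 else 0 := by
  refine ⟨C ((i.factorial : ℂ)⁻¹) * ((X 0 - C c * X 1) ^ i * X 1 ^ (k - i)), ?_, fun i' => ?_⟩
  · have h1 : (X 0 - C c * X 1 : R2).IsHomogeneous 1 :=
      (isHomogeneous_X ℂ 0).sub ((isHomogeneous_X ℂ 1).C_mul c)
    have h2 := ((h1.pow i).mul ((isHomogeneous_X ℂ (1 : Fin 2)).pow (k - i))).C_mul
      ((i.factorial : ℂ)⁻¹)
    rwa [one_mul, one_mul, Nat.add_sub_cancel' hi] at h2
  · have h5 : (pderiv 0)^[i'] (C ((i.factorial : ℂ)⁻¹) * ((X 0 - C c * X 1) ^ i *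
        X 1 ^ (k - i)) : R2) = C ((i.factorial : ℂ)⁻¹) *
          (pderiv 0)^[i'] ((X 0 - C c * X 1) ^ i * X 1 ^ (k - i) : R2) := by
      generalize ((X 0 - C c * X 1) ^ i * X 1 ^ (k - i) : R2) = G
      induction i' with
      | zero => rfl
      | succ n ih => rw [Function.iterate_succ_apply', ih, pderiv_C_mul,
          Function.iterate_succ_apply']
    rw [h5, iterate_pderiv_flag, map_mul, map_mul, map_mul, map_pow, map_pow, map_sub, map_mul,
      eval_C, eval_C, eval_C, eval_X, eval_X]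
    change (i.factorial : ℂ)⁻¹ * (((i.descFactorial i' : ℕ) : ℂ) * ((c - c * 1) ^ (i - i') *
      1 ^ (k - i))) = _
    rw [mul_one, sub_self, one_pow, mul_one]
    have hf : (i.factorial : ℂ) ≠ 0 := by exact_mod_cast i.factorial_ne_zero
    split_ifs with h
    · rw [h, Nat.sub_self, pow_zero, mul_one, Nat.descFactorial_self, inv_mul_cancel₀ hf]
    · rcases lt_or_gt_of_ne h with h6 | h6
      · rw [zero_pow (by omega), mul_zero, mul_zero]
      · rw [Nat.descFactorial_eq_zero_iff_lt.mpr h6, Nat.cast_zero, zero_mul, mul_zero]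

/-- the multiplicities which occur in the chain argument: at most two of the movable points have
other multiplicities than `m`, and at every point of collision the multiplicity is `μ` or `μ + 1` -/
def Near {ι Λ : Type} (m : ι → ℕ) (U : Finset ι) (μ : Λ → ℕ) (y : ι ⊕ Λ → ℕ) : Prop :=
  (∀ l, μ l ≤ y (Sum.inr l) ∧ y (Sum.inr l) ≤ μ l + 1) ∧
    ∃ T : Finset ι, T.card ≤ 2 ∧ (∀ i ∈ T, i ∉ U ∧ y (Sum.inl i) ≤ m i + 1) ∧
      ∀ i ∉ T, y (Sum.inl i) = m i

/-- the multiplicities which occur after the points have been dropped: at most two of the movable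
points are left, and at every point of collision the multiplicity is `μ`, `μ + 1` or `μ + 2` -/
def Far {ι Λ : Type} (m : ι → ℕ) (U : Finset ι) (μ : Λ → ℕ) (y : ι ⊕ Λ → ℕ) : Prop :=
  (∀ l, μ l ≤ y (Sum.inr l) ∧ y (Sum.inr l) ≤ μ l + 2) ∧ (∀ i ∈ U, y (Sum.inl i) = m i) ∧
    ∃ T : Finset ι, T.card ≤ 2 ∧ (∀ i ∈ T, i ∉ U ∧ y (Sum.inl i) ≤ m i) ∧
      ∀ i ∉ T, i ∉ U → y (Sum.inl i) = 0

/-- the numerical data of a collision: `m` the multiplicities of the other points, those in `U`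
are not moved; for every cluster `l` its multiplicities `v l j`, its critical degree `μ l` and the
number `w l` of conditions on the leading form -/
structure Dat {ι Λ : Type} [Fintype ι] [Fintype Λ] (d M : ℕ) (m : ι → ℕ) (U : Finset ι)
    (μ w s Mv : Λ → ℕ) (v : ∀ l, Fin (s l) → ℕ) : Prop where
  hN : ∀ y : ι ⊕ Λ → ℕ, Near m U μ y → Nsp d y
  hF : ∀ y : ι ⊕ Λ → ℕ, Far m U μ y → Free d y
  hm : ∀ i, i ∉ U → m i + 1 ≤ M
  hmd : ∀ i, m i + 1 ≤ d
  hμ : ∀ l, μ l + 1 ≤ M
  hμd : ∀ l, μ l + 2 ≤ d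
  hχ : ∑ i, (m i + 1).choose 2 + ∑ l, (μ l + 1).choose 2 + ∑ l, w l + 1 = (d + 2).choose 2
  room : 5 * M ≤ ∑ l, w l
  hNv : ∀ l, NSp (Mv l) (μ l)
  hNv' : ∀ l, NSp (Mv l) (μ l - 1)
  hv : ∀ l j, v l j + 1 ≤ Mv l
  hvμ : ∀ l, 2 * Mv l ≤ μ l
  crit : ∀ l, ∑ j, (v l j + 1).choose 2 = (μ l + 1).choose 2 + w l
  hw : ∀ l, w l + 2 * Mv l ≤ μ l + 1
  hMv : ∀ l, 1 ≤ Mv l
  two : ∀ l : Λ, ∃ l', l' ≠ l

/-- the case in which lines suffice after the points have been dropped -/
theorem free_of_far {ι Λ : Type} [Fintype ι] [Fintype Λ] [DecidableEq ι] [DecidableEq Λ]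
    {d M : ℕ} {m : ι → ℕ} {U : Finset ι} {μ : Λ → ℕ} (hm : ∀ i, i ∉ U → m i ≤ M)
    (hd : ∑ l, (μ l + 2) + ∑ b ∈ U, m b + 2 * M ≤ d) {y : ι ⊕ Λ → ℕ} (hy : Far m U μ y) :
    Free d y := by
  obtain ⟨h1, h2, T, hT, h3, h4⟩ := hy
  apply free_of_sum
  rw [Fintype.sum_sum_type]
  have h5 : ∑ l, y (Sum.inr l) ≤ ∑ l, (μ l + 2) := Finset.sum_le_sum (fun l _ => (h1 l).2)
  have h6 : ∀ i, y (Sum.inl i) ≤ (if i ∈ U then m i else 0) + if i ∈ T then M else 0 := by
    intro i
    by_cases hU : i ∈ U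
    · rw [if_pos hU, h2 i hU]
      exact Nat.le_add_right _ _
    · rw [if_neg hU, zero_add]
      by_cases hiT : i ∈ T
      · rw [if_pos hiT]
        exact (h3 i hiT).2.trans (hm i hU)
      · rw [if_neg hiT, h4 i hiT hU]
  have h7 := Finset.sum_le_sum (fun i (_ : i ∈ Finset.univ) => h6 i)
  rw [Finset.sum_add_distrib, Finset.sum_ite_mem, Finset.sum_ite_mem, Finset.univ_inter,
    Finset.univ_inter, Finset.sum_const, smul_eq_mul] at h7
  have h8 : T.card * M ≤ 2 * M := Nat.mul_le_mul_right M hT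
  omega

end Pool.Agent.Work.MP_0421d9_ag.ZE
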