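import Pool.Agent.Work.MP_0421d9_ag.ZEPickA
import Pool.Agent.Work.MP_0421d9_ag.SFinal

/-!
One arbitrary multiplicity: general members of the systems are smooth.
-/

set_option linter.unusedSectionVars false

namespace Pool.Agent.Work.MP_0421d9_ag.ZE

open MvPolynomial Module SM

/-- rigid systems, one multiplicity arbitrary -/
theorem rigid_not_badA (A : ℝ) : ∃ R : ℝ, ∀ (d M : ℕ) (ι : Type) [Fintype ι]
    [DecidableEq ι] (p : ι → V3) (m : ι → ℕ) (i₀ : ι), GenericPoints p → 1 ≤ M →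
    (∀ i, i ≠ i₀ → m i ≤ M) → R * M ≤ (d : ℝ) - m i₀ → (M : ℝ) ≤ (((d : ℝ) - m i₀) / M) ^ A →
    ∑ i, (m i + 1).choose 2 + 1 = (d + 2).choose 2 →
    ∀ F ∈ linSys d p m, F ≠ 0 → ¬ Bad d p m F := by
  obtain ⟨R, hR⟩ := exists_datA A
  refine ⟨R, fun d M ι _ _ p m i₀ hp hM hm hd hMx hχ F hF hF0 => ?_⟩
  classical
  obtain ⟨M', C, μ, w, e, h₀, he, hD⟩ := hR d M ι m i₀ hM hm hd hMx hχ
  have hme : ∀ z, m (e z) = Sum.elim (fun i : {i : ι // ∀ l, i ∉ C l} => m i.1)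
      (fun x : Σ l, Fin (C l).card => m ((C x.1).equivFin.symm x.2).1) z := by
    rintro (i | x)
    · rw [he]
      rfl
    · rw [he]
      rfl
  have hpe : GenericPoints (fun z => p (e z)) := by
    have h2 := AlgebraicIndependent.comp hp
      (fun z : ({i : ι // ∀ l, i ∉ C l} ⊕ (Σ l, Fin (C l).card)) × Fin 3 => (e z.1, z.2))
      (fun z z' h => by
        have h7 := congrArg Prod.fst h
        have h8 := congrArg Prod.snd h
        exact Prod.ext (e.injective h7) h8)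
    exact h2
  have h1 := hD.dat.not_bad hpe (F := F) ⟨hF.1, fun z => by
    rw [← hme]
    exact hF.2 (e z)⟩ hF0
  intro hb
  apply h1
  have h2 := (bad_equiv (d := d) (p := p) (m := m) (F := F) e).mpr hb
  have h3 : (fun z => m (e z)) = Sum.elim (fun i : {i : ι // ∀ l, i ∉ C l} => m i.1)
      (fun x : Σ l, Fin (C l).card => m ((C x.1).equivFin.symm x.2).1) := funext hme
  rw [h3] at h2
  exact h2

/-- nonspeciality, one multiplicity arbitrary -/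
theorem one_large {A : ℝ} (hA : 0 < A) : ∃ R : ℝ, ∀ (r d M : ℕ) (p : Fin r → V3)
    (m : Fin r → ℕ) (i₀ : Fin r), GenericPoints p → 1 ≤ M → (∀ i, i ≠ i₀ → m i ≤ M) →
    R * M ≤ (d : ℝ) - m i₀ → (M : ℝ) ≤ (((d : ℝ) - m i₀) / M) ^ A →
    finrank ℂ (linSys d p m) = (d + 2).choose 2 - ∑ i, (m i + 1).choose 2 := by
  obtain ⟨C, hC⟩ := LD.all_but_one (ε := 1 / (2 * A)) (by positivity)
  refine ⟨C ^ 2 + 1, fun r d M p m i₀ hp hM hm hd hMd => hC r d M p m i₀ hp hm ?_⟩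
  have hM0 : (0 : ℝ) < M := by exact_mod_cast hM
  obtain ⟨y, hy⟩ : ∃ y : ℝ, y = ((d : ℝ) - m i₀) / M := ⟨_, rfl⟩
  have hdy : (d : ℝ) - m i₀ = M * y := by
    rw [hy, mul_div_cancel₀ _ hM0.ne']
  rw [← hy] at hMd
  have hy1 : C ^ 2 + 1 ≤ y := by
    rw [hy, le_div_iff₀ hM0]
    exact hd
  have hy0 : 0 < y := by nlinarith [sq_nonneg C]
  have h1 : (M : ℝ) ^ (1 / (2 * A)) ≤ y ^ (1 / 2 : ℝ) := by
    calc (M : ℝ) ^ (1 / (2 * A)) ≤ (y ^ A) ^ (1 / (2 * A)) :=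
          Real.rpow_le_rpow hM0.le hMd (by positivity)
      _ = y ^ (1 / 2 : ℝ) := by
          rw [← Real.rpow_mul hy0.le]
          congr 1
          field_simp
  have h2 : C ≤ y ^ (1 / 2 : ℝ) := by
    rw [← Real.sqrt_eq_rpow]
    exact Real.le_sqrt_of_sq_le (by linarith)
  have h3 : y ^ (1 / 2 : ℝ) * y ^ (1 / 2 : ℝ) = y := by
    rw [← Real.rpow_add hy0]
    norm_num
  have h4 : 0 ≤ y ^ (1 / 2 : ℝ) := Real.rpow_nonneg hy0.le _
  have h5 : C * (M : ℝ) ^ (1 + 1 / (2 * A)) ≤ M * y := by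
    rw [Real.rpow_add hM0, Real.rpow_one]
    calc C * ((M : ℝ) * (M : ℝ) ^ (1 / (2 * A))) = M * (C * (M : ℝ) ^ (1 / (2 * A))) := by ring
      _ ≤ M * (y ^ (1 / 2 : ℝ) * y ^ (1 / 2 : ℝ)) := by
          refine mul_le_mul_of_nonneg_left ?_ hM0.le
          exact mul_le_mul h2 h1 (Real.rpow_nonneg hM0.le _) h4
      _ = M * y := by rw [h3]
  linarith

/-- **One arbitrary multiplicity**: the general members are not bad. -/
theorem one_large_not_bad {A : ℝ} (hA : 0 < A) : ∃ R : ℝ, ∀ (r d M : ℕ) (p : Fin r → V3)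
    (m : Fin r → ℕ) (i₀ : Fin r), GenericPoints p → 1 ≤ M → (∀ i, i ≠ i₀ → m i ≤ M) →
    R * M ≤ (d : ℝ) - m i₀ → (M : ℝ) ≤ (((d : ℝ) - m i₀) / M) ^ A →
    ∀ s : Fin (finrank ℂ (linSys d p m) - 1) → Fin 3 → ℂ, GenericPoints (Sum.elim p s) →
      ∀ F ∈ linSys d p m, F ≠ 0 → (∀ k, eval (s k) F = 0) → ¬ Bad d p m F := by
  obtain ⟨R₁, h1⟩ := one_large hA
  obtain ⟨R₂, h2⟩ := rigid_not_badA A
  refine ⟨max R₁ R₂, fun r d M p m i₀ hp hM hm hd hMx s hs F hF hF0 hFs => ?_⟩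
  have hM0 : (0 : ℝ) ≤ M := Nat.cast_nonneg M
  have hd1 : R₁ * M ≤ (d : ℝ) - m i₀ :=
    (mul_le_mul_of_nonneg_right (le_max_left _ _) hM0).trans hd
  have hd2 : R₂ * M ≤ (d : ℝ) - m i₀ :=
    (mul_le_mul_of_nonneg_right (le_max_right _ _) hM0).trans hd
  have hns := h1 r d M p m i₀ hp hM hm hd1 hMx
  have hfin : Module.Finite ℂ (linSys d p m) :=
    Submodule.finiteDimensional_of_le (linSys_le d p _)
  have hpos : finrank ℂ (linSys d p m) ≠ 0 := by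
    intro h0
    have h3 := Submodule.finrank_eq_zero.mp h0
    rw [h3] at hF
    exact hF0 hF
  apply not_bad_of_extended (s := s) hF.1 (fun j => point_ne_zero hs (Sum.inr j))
  refine h2 d M _ (Sum.elim p s) (Sum.elim m (fun _ => 1)) (Sum.inl i₀) hs hM ?_ hd2 hMx ?_ F
    ⟨hF.1, ?_⟩ hF0
  · rintro (i | j) hi
    · exact hm i (fun h => hi (by rw [h]))
    · exact hM
  · rw [sum_simple]
    omega
  · rintro (i | j)
    · exact hF.2 i
    · exact vanishTo_one_iff.mpr (hFs j)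

end Pool.Agent.Work.MP_0421d9_ag.ZE
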