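import Pool.Agent.Work.MP_0421d9_ag.ZEPickB
import Pool.Agent.Work.MP_0421d9_ag.ZCFinal

/-!
General members of systems with few large points are smooth.
-/

set_option linter.unusedSectionVars false

namespace Pool.Agent.Work.MP_0421d9_ag.ZE

open MvPolynomial Module SM ZC

/-- reindexing -/
theorem not_bad_of_dat {ι : Type} [Fintype ι] [DecidableEq ι] {d M : ℕ} {m : ι → ℕ} {p : ι → V3}
    (hp : GenericPoints p) {n : ℕ} (hn : 1 ≤ n) {C : Fin n → Finset ι} {μ w Mv : Fin n → ℕ}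
    {U : Finset {i : ι // ∀ l, i ∉ C l}}
    {e : {i : ι // ∀ l, i ∉ C l} ⊕ (Σ l, Fin (C l).card) ≃ ι}
    (he : ∀ z, e z = Sum.elim (fun i => i.1) (fun x => ((C x.1).equivFin.symm x.2).1) z)
    (hD : LDat d M (fun i : {i : ι // ∀ l, i ∉ C l} => m i.1) U μ w (fun l => (C l).card) Mv
      (fun l j => m ((C l).equivFin.symm j).1)) {F : R3} (hF : F ∈ linSys d p m) (hF0 : F ≠ 0) :
    ¬ Bad d p m F := by
  classical
  have : Nonempty (Fin n) := ⟨⟨0, hn⟩⟩
  have hme : ∀ z, m (e z) = Sum.elim (fun i : {i : ι // ∀ l, i ∉ C l} => m i.1)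
      (fun x : Σ l, Fin (C l).card => m ((C x.1).equivFin.symm x.2).1) z := by
    rintro (i | x)
    · rw [he]
      rfl
    · rw [he]
      rfl
  have hpe : GenericPoints (fun z => p (e z)) := by
    have h2 := AlgebraicIndependent.comp hp
      (fun z : ({i : ι // ∀ l, i ∉ C l} ⊕ (Σ l, Fin (C l).card)) × Fin 3 => (e z.1, z.2))
      (fun z z' h => by
        have h7 := congrArg Prod.fst h
        have h8 := congrArg Prod.snd h
        exact Prod.ext (e.injective h7) h8)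
    exact h2
  have h1 := hD.dat.not_bad hpe (F := F) ⟨hF.1, fun z => by
    rw [← hme]
    exact hF.2 (e z)⟩ hF0
  intro hb
  apply h1
  have h2 := (bad_equiv (d := d) (p := p) (m := m) (F := F) e).mpr hb
  have h3 : (fun z => m (e z)) = Sum.elim (fun i : {i : ι // ∀ l, i ∉ C l} => m i.1)
      (fun x : Σ l, Fin (C l).card => m ((C x.1).equivFin.symm x.2).1) := funext hme
  rw [h3] at h2
  exact h2

/-- from rigid systems to general members -/
theorem not_bad_of_rigid {r d : ℕ} {p : Fin r → V3} {m : Fin r → ℕ}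
    (hns : finrank ℂ (linSys d p m) = (d + 2).choose 2 - ∑ i, (m i + 1).choose 2)
    (s : Fin (finrank ℂ (linSys d p m) - 1) → Fin 3 → ℂ) (hs : GenericPoints (Sum.elim p s))
    (h : ∑ x, (Sum.elim m (fun _ : Fin (finrank ℂ (linSys d p m) - 1) => 1) x + 1).choose 2 + 1 =
        (d + 2).choose 2 →
      ∀ F ∈ linSys d (Sum.elim p s) (Sum.elim m (fun _ => 1)), F ≠ 0 →
        ¬ Bad d (Sum.elim p s) (Sum.elim m (fun _ => 1)) F) :
    ∀ F ∈ linSys d p m, F ≠ 0 → (∀ k, eval (s k) F = 0) → ¬ Bad d p m F := by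
  intro F hF hF0 hFs
  have hfin : Module.Finite ℂ (linSys d p m) :=
    Submodule.finiteDimensional_of_le (linSys_le d p _)
  have hpos : finrank ℂ (linSys d p m) ≠ 0 := by
    intro h0
    have h3 := Submodule.finrank_eq_zero.mp h0
    rw [h3] at hF
    exact hF0 hF
  apply not_bad_of_extended (s := s) hF.1 (fun j => point_ne_zero hs (Sum.inr j))
  refine h ?_ F ⟨hF.1, ?_⟩ hF0
  · rw [sum_simple]
    omega
  · rintro (i | j)
    · exact hF.2 i
    · exact vanishTo_one_iff.mpr (hFs j)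

/-- **Few large points**: general members are not bad if the small points impose not too few
conditions. -/
theorem window_not_bad {A : ℝ} (hA : 0 < A) : ∃ R : ℝ, ∀ (r d M : ℕ) (p : Fin r → Fin 3 → ℂ)
    (m : Fin r → ℕ), GenericPoints p → 1 ≤ M → (∀ i, m i ≤ M) → R * M ≤ d →
    (d : ℝ) ^ 2 * ((M : ℝ) / d) ^ A ≤
      ∑ i, (if (m i : ℝ) ≤ ((d : ℝ) / M) ^ A then ((m i + 1).choose 2 : ℝ) else 0) →
    ∀ s : Fin (finrank ℂ (linSys d p m) - 1) → Fin 3 → ℂ, GenericPoints (Sum.elim p s) →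
      ∀ F ∈ linSys d p m, F ≠ 0 → (∀ k, eval (s k) F = 0) → ¬ Bad d p m F := by
  obtain ⟨R₁, h1⟩ := LD.all_windows hA
  obtain ⟨R₂, h2⟩ := all_not_bad (A := ((2 * ⌈A⌉₊ + 2 : ℕ) : ℝ)) (by positivity)
  obtain ⟨R₃, h3⟩ := exists_datB A
  obtain ⟨R, hR⟩ : ∃ R, R = max (max R₁ R₂) (max R₃ 1) := ⟨_, rfl⟩
  have hR1 : R₁ ≤ R := hR ▸ (le_max_left _ _).trans (le_max_left _ _)
  have hR2 : R₂ ≤ R := hR ▸ (le_max_right _ _).trans (le_max_left _ _)
  have hR3 : R₃ ≤ R := hR ▸ (le_max_left _ _).trans (le_max_right _ _)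
  have hR4 : 1 ≤ R := hR ▸ (le_max_right _ _).trans (le_max_right _ _)
  refine ⟨R, fun r d M p m hp hM hm hd H s hs F hF hF0 hFs => ?_⟩
  have hM0 : (0 : ℝ) ≤ M := Nat.cast_nonneg M
  have hle : ∀ R', R' ≤ R → R' * M ≤ (d : ℝ) :=
    fun R' h => (mul_le_mul_of_nonneg_right h hM0).trans hd
  rcases le_or_gt (M : ℝ) (((d : ℝ) / M) ^ ((2 * ⌈A⌉₊ + 2 : ℕ) : ℝ)) with hx | hx
  · exact h2 r d M p m hp hM hm (hle _ hR2) hx s hs F hF hF0 hFs
  · have hns := h1 r d M p m hp hM hm (hle _ hR1) (Or.inr (Or.inr H))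
    refine not_bad_of_rigid hns s hs (fun hχ G hG hG0 => ?_) F hF hF0 hFs
    have hx1 : 1 ≤ (d : ℝ) / M := by
      have hM1 : (0 : ℝ) < M := by exact_mod_cast hM
      rw [le_div_iff₀ hM1]
      exact hle 1 hR4
    obtain ⟨n, V, C, μ, w, e, hn, he, hD⟩ := h3 d M _
      (Sum.elim m (fun _ : Fin (finrank ℂ (linSys d p m) - 1) => 1)) hM (by
        rintro (i | j)
        · exact hm i
        · exact hM) (hle _ hR3) hx (by
        rw [Fintype.sum_sum_type]
        refine H.trans (le_add_of_nonneg_right ?_)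
        exact Finset.sum_nonneg (fun j _ => by split_ifs <;> positivity)) hχ
    exact not_bad_of_dat hs (by omega) he hD hG hG0

end Pool.Agent.Work.MP_0421d9_ag.ZE
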