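import Pool.Agent.Work.MP_0421d9_ag.LReg

/-!
The number of the conditions imposed by the points outside of a reduced set.
-/

set_option linter.unusedSectionVars false

namespace Pool.Agent.Work.MP_0421d9_ag.ZE

open MvPolynomial Module

/-- the self-intersection of a reduced class, on a subset -/
theorem sq_le_of_reduced {ι : Type} [Fintype ι] [DecidableEq ι] {d : ℕ} {m : ι → ℕ} {B : Finset ι}
    (h3 : ∀ J ⊆ B, J.card ≤ 3 → ∑ i ∈ J, m i ≤ d) (hK : ∑ i ∈ B, m i ≤ 3 * d) :
    ∑ i ∈ B, m i ^ 2 ≤ d ^ 2 := by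
  classical
  -- padding with three points of multiplicity zero
  obtain ⟨a, ha⟩ : ∃ a : ι ⊕ Fin 3 → ℕ, a = Sum.elim (fun i => if i ∈ B then m i else 0)
    (fun _ => 0) := ⟨_, rfl⟩
  have hal : ∀ i, a (Sum.inl i) = if i ∈ B then m i else 0 := fun i => by rw [ha]; rfl
  have har : ∀ j, a (Sum.inr j) = 0 := fun j => by rw [ha]; rfl
  have hsum : ∀ f : ℕ → ℕ, f 0 = 0 → ∑ x, f (a x) = ∑ i ∈ B, f (m i) := by
    intro f hf
    have h0 : ∑ j : Fin 3, f (a (Sum.inr j)) = 0 :=
      Finset.sum_eq_zero (fun j _ => by rw [har, hf])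
    rw [Fintype.sum_sum_type, h0, add_zero,
      ← Finset.sum_filter_add_sum_filter_not Finset.univ (fun i => i ∈ B) (fun i => f (a (Sum.inl i)))]
    have h1 : ∑ i ∈ Finset.univ.filter (fun i => ¬ i ∈ B), f (a (Sum.inl i)) = 0 := by
      refine Finset.sum_eq_zero (fun i hi => ?_)
      rw [hal, if_neg (Finset.mem_filter.mp hi).2, hf]
    rw [h1, add_zero, Finset.filter_mem_eq_inter, Finset.univ_inter]
    exact Finset.sum_congr rfl (fun i hi => by rw [hal, if_pos hi])
  -- three points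
  have htrip : ∀ x y z, x ≠ y → x ≠ z → y ≠ z → a x + a y + a z ≤ d := by
    intro x y z hxy hxz hyz
    obtain ⟨T, hT⟩ : ∃ T : Finset (ι ⊕ Fin 3), T = {x, y, z} := ⟨_, rfl⟩
    have hTs : ∑ t ∈ T, a t = a x + a y + a z := by
      rw [hT, Finset.sum_insert (by
        rw [Finset.mem_insert, Finset.mem_singleton, not_or]
        exact ⟨hxy, hxz⟩), Finset.sum_pair hyz]
      ring
    have hTc : T.card ≤ 3 := by
      rw [hT]
      exact Finset.card_le_three
    obtain ⟨J, hJ⟩ : ∃ J : Finset ι, J = B.filter (fun i => Sum.inl i ∈ T) := ⟨_, rfl⟩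
    have h1 : ∑ t ∈ T, a t ≤ ∑ i ∈ J, m i := by
      have h2 : ∑ i ∈ J, m i = ∑ t ∈ J.map ⟨Sum.inl, Sum.inl_injective⟩, a t := by
        rw [Finset.sum_map]
        refine Finset.sum_congr rfl (fun i hi => ?_)
        rw [hJ, Finset.mem_filter] at hi
        change m i = a (Sum.inl i)
        rw [hal, if_pos hi.1]
      rw [h2]
      refine le_of_eq (Finset.sum_subset (fun t ht => ?_) (fun t ht ht' => ?_)).symm
      · rw [Finset.mem_map] at ht
        obtain ⟨i, hi, rfl⟩ := ht
        rw [hJ, Finset.mem_filter] at hi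
        exact hi.2
      · rcases t with i | j
        · rw [hal]
          split_ifs with hi
          · exfalso
            exact ht' (Finset.mem_map.mpr ⟨i, by
              rw [hJ, Finset.mem_filter]
              exact ⟨hi, ht⟩, rfl⟩)
          · rfl
        · exact har j
    have h3 : J.card ≤ 3 := by
      refine le_trans ?_ hTc
      rw [← Finset.card_map ⟨Sum.inl, Sum.inl_injective⟩]
      refine Finset.card_le_card (fun t ht => ?_)
      rw [Finset.mem_map] at ht
      obtain ⟨i, hi, rfl⟩ := ht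
      rw [hJ, Finset.mem_filter] at hi
      exact hi.2
    have h4 := ‹∀ J ⊆ B, J.card ≤ 3 → ∑ i ∈ J, m i ≤ d› J (by
      rw [hJ]
      exact Finset.filter_subset _ _) h3
    omega
  obtain ⟨e, -⟩ : ∃ e : ι ⊕ Fin 3 ≃ Fin (Fintype.card (ι ⊕ Fin 3)), True :=
    ⟨Fintype.equivFin _, trivial⟩
  have hN : 3 ≤ Fintype.card (ι ⊕ Fin 3) := by
    rw [Fintype.card_sum, Fintype.card_fin]
    omega
  have h5 := LD.reduced_sq (D := d) hN (a := fun k => a (e.symm k)) (fun i j k hij hik hjk =>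
    htrip _ _ _ (fun h => hij (e.symm.injective h)) (fun h => hik (e.symm.injective h))
      (fun h => hjk (e.symm.injective h))) (by
    rw [Equiv.sum_comp e.symm a]
    have h6 := hsum (fun n => n) rfl
    rw [h6]
    exact hK)
  rw [Equiv.sum_comp e.symm (fun x => a x ^ 2)] at h5
  have h6 := hsum (fun n => n ^ 2) (by norm_num)
  rw [h6] at h5
  exact h5

/-- the points outside of a reduced set impose at least half of `3 d - ∑ i ∈ B, m i` conditions -/
theorem off_count {ι : Type} [Fintype ι] [DecidableEq ι] {d : ℕ} {m : ι → ℕ} {B : Finset ι}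
    (h3 : ∀ J ⊆ B, J.card ≤ 3 → ∑ i ∈ J, m i ≤ d) (hK : ∑ i ∈ B, m i ≤ 3 * d)
    (hχ : ∑ i, (m i + 1).choose 2 + 1 = (d + 2).choose 2) :
    3 * d ≤ ∑ i ∈ B, m i + 2 * ∑ i ∈ Bᶜ, (m i + 1).choose 2 := by
  have h1 := sq_le_of_reduced h3 hK
  have h2 := Finset.sum_add_sum_compl B (fun i => (m i + 1).choose 2)
  have two : ∀ n : ℕ, 2 * (n + 1).choose 2 = n ^ 2 + n := by
    intro n
    induction n with
    | zero => rfl
    | succ n ih =>
      have h2 : (n + 1 + 1).choose 2 = (n + 1).choose 2 + (n + 1) := by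
        rw [Nat.choose_succ_succ' (n + 1) 1, Nat.choose_one_right]
        exact Nat.add_comm _ _
      rw [h2, Nat.mul_add, ih]
      ring
  have h4 : 2 * ∑ i ∈ B, (m i + 1).choose 2 = ∑ i ∈ B, m i ^ 2 + ∑ i ∈ B, m i := by
    rw [Finset.mul_sum, ← Finset.sum_add_distrib]
    exact Finset.sum_congr rfl (fun i _ => two (m i))
  have h5 := two (d + 1)
  have h6 : (d + 1) ^ 2 = d ^ 2 + 2 * d + 1 := by ring
  have h7 : (d + 1 + 1).choose 2 = (d + 2).choose 2 := rfl
  omega

end Pool.Agent.Work.MP_0421d9_ag.ZE
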