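import Pool.Agent.Work.MP_0421d9_ag.ZEDat
import Pool.Agent.Work.MP_0421d9_ag.ZCPick

/-!
The choice of the clusters among the points outside of a set `B`.
-/

set_option linter.unusedSectionVars false

namespace Pool.Agent.Work.MP_0421d9_ag.ZE

open MvPolynomial Module SM

/-- the part of the data of a collision which concerns the clusters -/
structure Pick {ι Λ : Type} [Fintype ι] [Fintype Λ] (d M : ℕ) (m : ι → ℕ)
    (μ w s Mv : Λ → ℕ) (v : ∀ l, Fin (s l) → ℕ) : Prop where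
  hμ : ∀ l, μ l + 1 ≤ M
  hχ : ∑ i, (m i + 1).choose 2 + ∑ l, (μ l + 1).choose 2 + ∑ l, w l + 1 = (d + 2).choose 2
  room : 5 * M ≤ ∑ l, w l
  hNv : ∀ l, ZC.NSp (Mv l) (μ l)
  hNv' : ∀ l, ZC.NSp (Mv l) (μ l - 1)
  hv : ∀ l j, v l j + 1 ≤ Mv l
  hvμ : ∀ l, 2 * Mv l ≤ μ l
  crit : ∀ l, ∑ j, (v l j + 1).choose 2 = (μ l + 1).choose 2 + w l
  hw : ∀ l, w l + 2 * Mv l ≤ μ l + 1
  hMv : ∀ l, 1 ≤ Mv l
  two : ∀ l : Λ, ∃ l', l' ≠ l

theorem Pick.dat {ι Λ : Type} [Fintype ι] [Fintype Λ] {d M : ℕ} {m : ι → ℕ} {U : Finset ι}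
    {μ w s Mv : Λ → ℕ} {v : ∀ l, Fin (s l) → ℕ} (S : Pick d M m μ w s Mv v)
    (hN : ∀ y : ι ⊕ Λ → ℕ, Near m U μ y → Nsp d y)
    (hF : ∀ y : ι ⊕ Λ → ℕ, Far m U μ y → Free d y)
    (hm : ∀ i, i ∉ U → m i + 1 ≤ M) (hmd : ∀ i, m i + 1 ≤ d) (hμd : ∀ l, μ l + 2 ≤ d) :
    Dat d M m U μ w s Mv v where
  hN := hN
  hF := hF
  hm := hm
  hmd := hmd
  hμ := S.hμ
  hμd := hμd
  hχ := S.hχ
  room := S.room
  hNv := S.hNv
  hNv' := S.hNv'
  hv := S.hv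
  hvμ := S.hvμ
  crit := S.crit
  hw := S.hw
  hMv := S.hMv
  two := S.two

/-- the choice of the clusters outside of `B` -/
theorem exists_pick (k : ℕ) : ∃ N₀ : ℕ, ∀ N ≥ N₀, 100 ≤ N ∧ ∀ (d u : ℕ) (ι : Type) [Fintype ι]
    [DecidableEq ι] (m : ι → ℕ) (B : Finset ι), 1 ≤ u → u ≤ N ^ k → (∀ i, i ∉ B → m i ≤ u) →
    1000 * (u * N ^ 2) ^ 2 ≤ ∑ i ∈ Bᶜ, (m i + 1).choose 2 →
    ∑ i, (m i + 1).choose 2 + 1 = (d + 2).choose 2 →
    ∃ (C : Fin 200 → Finset ι) (μ w : Fin 200 → ℕ)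
      (e : {i : ι // ∀ l, i ∉ C l} ⊕ (Σ l, Fin (C l).card) ≃ ι),
      (∀ i ∈ B, ∀ l, i ∉ C l) ∧
      (∀ z, e z = Sum.elim (fun i => i.1) (fun x => ((C x.1).equivFin.symm x.2).1) z) ∧
      (∀ l, u + 1 ≤ μ l ∧ μ l ≤ 3 * (u * N ^ 2)) ∧
      Pick d (3 * (u * N ^ 2) + 1) (fun i : {i : ι // ∀ l, i ∉ C l} => m i.1) μ w
        (fun l => (C l).card) (fun _ => u + 1) (fun l j => m ((C l).equivFin.symm j).1) := by
  obtain ⟨R', hR'⟩ := ZC.exists_nsp (8 * k + 1) (by omega)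
  obtain ⟨N₀, hN₀⟩ := ZC.exists_N k R'
  refine ⟨N₀, fun N hN => ?_⟩
  have hN100 : 100 ≤ N := (hN₀ N hN 0 (Nat.zero_le _)).2.2.2
  refine ⟨hN100, fun d M ι _ _ m B hM hMk hm htot hχ => ?_⟩
  have hMN : M ≤ (N + 1) ^ (8 * k) := by
    calc M ≤ N ^ k := hMk
      _ ≤ (N + 1) ^ k := Nat.pow_le_pow_left (Nat.le_succ N) k
      _ ≤ (N + 1) ^ (8 * k) := Nat.pow_le_pow_right (Nat.succ_pos N) (by omega)
  obtain ⟨hpig, hM1, hRN, -⟩ := hN₀ N hN M hMN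
  obtain ⟨t, ht⟩ : ∃ t, t = M ^ 2 * N ^ 4 := ⟨_, rfl⟩
  obtain ⟨L, hL⟩ : ∃ L, L = M * N ^ 2 := ⟨_, rfl⟩
  have htL : t = L * L := by
    rw [ht, hL]
    ring
  have hN2 : 10000 ≤ N ^ 2 := by nlinarith
  have huL : N * (N * M ^ 2) * 10000 ≤ L * L := by
    rw [hL]
    calc N * (N * M ^ 2) * 10000 ≤ N * (N * M ^ 2) * N ^ 2 := Nat.mul_le_mul_left _ hN2
      _ = M * N ^ 2 * (M * N ^ 2) := by ring
  have hL0 : 10000 ≤ L := by
    rw [hL]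
    calc 10000 ≤ 1 * N ^ 2 := by omega
      _ ≤ M * N ^ 2 := Nat.mul_le_mul_right _ hM
  have hML : M * 10000 ≤ L := by
    rw [hL]
    exact Nat.mul_le_mul_left _ hN2
  rw [← hL, pow_two L] at htot
  -- the clusters
  obtain ⟨S, hS⟩ : ∃ S : Finset ι, S = Finset.univ.filter (fun i => i ∉ B ∧ 1 ≤ m i) := ⟨_, rfl⟩
  have hSsum : ∑ i ∈ S, (m i + 1).choose 2 = ∑ i ∈ Bᶜ, (m i + 1).choose 2 := by
    rw [hS]
    apply Finset.sum_subset
    · intro i hi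
      rw [Finset.mem_filter] at hi
      exact Finset.mem_compl.mpr hi.2.1
    · intro i hi hi'
      have h2 : m i = 0 := by
        by_contra h3
        exact hi' (Finset.mem_filter.mpr ⟨Finset.mem_univ i, Finset.mem_compl.mp hi, by omega⟩)
      rw [h2]
      rfl
  have hc1 : ∀ i ∈ S, 1 ≤ (m i + 1).choose 2 := by
    intro i hi
    rw [hS, Finset.mem_filter] at hi
    exact Nat.choose_pos (by omega)
  have hmS : ∀ i ∈ S, m i ≤ M := by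
    intro i hi
    rw [hS, Finset.mem_filter] at hi
    exact hm i hi.2.1
  have hcK : ∀ i ∈ S, (m i + 1).choose 2 ≤ M ^ 2 := by
    intro i hi
    have h1 := ZC.pick_two_choose (m i)
    have h2 : m i * m i ≤ M * M := Nat.mul_le_mul (hmS i hi) (hmS i hi)
    have h3 := hmS i hi
    have h4 : M * 1 ≤ M * M := Nat.mul_le_mul_left _ hM
    rw [pow_two]
    omega
  have ht4 : 10000 ≤ t := by
    rw [htL]
    calc 10000 ≤ L * 1 := by omega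
      _ ≤ L * L := Nat.mul_le_mul_left _ (by omega)
  have hbig : 4 * ((200 + 1) * (t + N * (N * M ^ 2))) ≤ ∑ i ∈ S, (m i + 1).choose 2 := by
    omega
  obtain ⟨C, μ, w, hCS, hCd, hmid⟩ : ∃ (C : Fin 200 → Finset ι) (μ w : Fin 200 → ℕ),
      (∀ l, C l ⊆ S) ∧ (∀ l l', l ≠ l' → Disjoint (C l) (C l')) ∧
        ∀ l, ZC.Mid (fun i => (m i + 1).choose 2) t
        (t + N * (N * M ^ 2)) (C l) (μ l) (w l) := by
    obtain ⟨C, μ, w, hCS, hCd, hmid⟩ := ZC.exists_clusters S (fun i => (m i + 1).choose 2) hc1 hcK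
      hpig ht4 200 hbig
    exact ⟨fun l => C l, fun l => μ l, fun l => w l, fun l => hCS l l.2,
      fun l l' hne => hCd l l.2 l' l'.2 (fun h => hne (Fin.ext h)), fun l => hmid l l.2⟩
  have hnum : ∀ l, M * N ^ 2 ≤ μ l + 1 ∧ μ l ≤ 3 * (M * N ^ 2) ∧ M * N ^ 2 ≤ 8 * w l + 1 ∧
      w l + 2 * (M + 1) ≤ μ l + 1 ∧ N * (M + 1) + 1 ≤ μ l ∧ 2 * (M + 1) ≤ μ l := by
    intro l
    obtain ⟨g1, g2, g3, g4, g5, g6⟩ := hmid l
    exact ZC.cluster_num hM hN100 ht rfl g1 g2 g3 g4 g5 g6 (ZC.pick_two_choose _)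
  rw [← hL] at hnum ⊢
  obtain ⟨e, he⟩ := ZC.exists_split C hCd
  have h₀ : ∀ i ∈ B, ∀ l, i ∉ C l := by
    intro i hi l hl
    have := hCS l hl
    rw [hS, Finset.mem_filter] at this
    exact this.2.1 hi
  have hsplit : ∑ i : {i : ι // ∀ l : Fin 200, i ∉ C l}, (m i.1 + 1).choose 2 +
      ∑ l : Fin 200, ∑ j : Fin (C l).card, (m ((C l).equivFin.symm j).1 + 1).choose 2 =
      ∑ i, (m i + 1).choose 2 := by
    rw [← Equiv.sum_comp e (fun i => (m i + 1).choose 2), Fintype.sum_sum_type,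
      Fintype.sum_sigma]
    refine congrArg₂ (· + ·) (Finset.sum_congr rfl (fun i _ => ?_))
      (Finset.sum_congr rfl (fun l _ => Finset.sum_congr rfl (fun j _ => ?_)))
    · rw [he]
      rfl
    · rw [he]
      rfl
  have hcl : ∀ l : Fin 200, ∑ j : Fin (C l).card, (m ((C l).equivFin.symm j).1 + 1).choose 2 =
      (μ l + 1).choose 2 + w l := by
    intro l
    rw [← (hmid l).1, Equiv.sum_comp (C l).equivFin.symm (fun i => (m i.1 + 1).choose 2)]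
    exact Finset.sum_coe_sort (C l) (fun i => (m i + 1).choose 2)
  refine ⟨C, μ, w, e, h₀, he, fun l => ⟨?_, (hnum l).2.1⟩, ?_⟩
  · have := (hnum l).2.2.2.2.2
    omega
  refine
    { hμ := fun l => ?_
      hχ := ?_
      room := ?_
      hNv := fun l => ?_
      hNv' := fun l => ?_
      hv := fun l j => ?_
      hvμ := fun l => ?_
      crit := fun l => ?_
      hw := fun l => ?_
      hMv := fun l => Nat.le_add_left 1 M
      two := fun l => ?_ }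
  · have := (hnum l).2.1
    change μ l + 1 ≤ 3 * L + 1
    omega
  · rw [Finset.sum_congr rfl (fun l _ => hcl l), Finset.sum_add_distrib] at hsplit
    omega
  · calc 5 * (3 * L + 1) ≤ 200 * (L / 10) := by omega
      _ = ∑ l : Fin 200, L / 10 := by
          rw [Finset.sum_const, Finset.card_univ, Fintype.card_fin, smul_eq_mul]
      _ ≤ ∑ l : Fin 200, w l := Finset.sum_le_sum (fun l _ => by
          have := (hnum l).2.2.1
          omega)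
  · have h1 := (hnum l).2.2.2.2.1
    exact hR' (μ l) (M + 1) N (by omega) (by omega) hRN hM1
  · have h1 := (hnum l).2.2.2.2.1
    exact hR' (μ l - 1) (M + 1) N (by omega) (by omega) hRN hM1
  · exact Nat.add_le_add_right (hmS _ (hCS l ((C l).equivFin.symm j).2)) 1
  · exact (hnum l).2.2.2.2.2
  · exact hcl l
  · exact (hnum l).2.2.2.1
  · rcases eq_or_ne l 0 with h | h
    · exact ⟨1, by rw [h]; decide⟩
    · exact ⟨0, h.symm⟩

/-- the size of the clusters -/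
theorem exists_size (k N₀ : ℕ) (hk : 1 ≤ k) (u : ℕ) (hu : 1 ≤ u) : ∃ N ≥ N₀, u ≤ N ^ k ∧
    (N : ℝ) ≤ (N₀ + 2) * (u : ℝ) ^ (1 / (k : ℝ)) := by
  have hu1 : (1 : ℝ) ≤ u := by exact_mod_cast hu
  have hk0 : (0 : ℝ) < k := by exact_mod_cast hk
  have h1 : (1 : ℝ) ≤ (u : ℝ) ^ (1 / (k : ℝ)) := Real.one_le_rpow hu1 (by positivity)
  refine ⟨N₀ + ⌈(u : ℝ) ^ (1 / (k : ℝ))⌉₊, Nat.le_add_right _ _, ?_, ?_⟩
  · have h2 : (u : ℝ) ≤ ((N₀ + ⌈(u : ℝ) ^ (1 / (k : ℝ))⌉₊ : ℕ) : ℝ) ^ k := by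
      calc (u : ℝ) = ((u : ℝ) ^ (1 / (k : ℝ))) ^ k := by
            rw [← Real.rpow_natCast, ← Real.rpow_mul (by positivity), one_div,
              inv_mul_cancel₀ hk0.ne', Real.rpow_one]
        _ ≤ _ := by
            refine pow_le_pow_left₀ (by positivity) ((Nat.le_ceil _).trans ?_) k
            push_cast
            have : (0 : ℝ) ≤ N₀ := Nat.cast_nonneg _
            linarith
    exact_mod_cast h2
  · push_cast
    have h3 := (Nat.ceil_lt_add_one (zero_le_one.trans h1)).le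
    have h4 : (N₀ : ℝ) * 1 ≤ N₀ * (u : ℝ) ^ (1 / (k : ℝ)) :=
      mul_le_mul_of_nonneg_left h1 (Nat.cast_nonneg _)
    linarith

/-- the choice of the clusters outside of `B`, in terms of `ε` -/
theorem exists_pick_eps {ε : ℝ} (hε : 0 < ε) : ∃ c : ℝ, 0 < c ∧ ∀ (d u t : ℕ) (ι : Type)
    [Fintype ι] [DecidableEq ι] (m : ι → ℕ) (B : Finset ι), 1 ≤ u → (∀ i, i ∉ B → m i ≤ u) →
    c * (u : ℝ) ^ (1 + ε) ≤ t →
    c * (u : ℝ) ^ (2 + ε) ≤ ∑ i ∈ Bᶜ, ((m i + 1).choose 2 : ℝ) →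
    ∑ i, (m i + 1).choose 2 + 1 = (d + 2).choose 2 →
    ∃ (M : ℕ) (C : Fin 200 → Finset ι) (μ w : Fin 200 → ℕ)
      (e : {i : ι // ∀ l, i ∉ C l} ⊕ (Σ l, Fin (C l).card) ≃ ι),
      (∀ i ∈ B, ∀ l, i ∉ C l) ∧
      (∀ z, e z = Sum.elim (fun i => i.1) (fun x => ((C x.1).equivFin.symm x.2).1) z) ∧
      (∀ l, u + 1 ≤ μ l ∧ μ l + 4 ≤ t) ∧ u + 1 ≤ M ∧ M + 4 ≤ t ∧
      Pick d M (fun i : {i : ι // ∀ l, i ∉ C l} => m i.1) μ w
        (fun l => (C l).card) (fun _ => u + 1) (fun l j => m ((C l).equivFin.symm j).1) := by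
  obtain ⟨k, hk⟩ := exists_nat_ge (4 / ε)
  have hk0' : (0 : ℝ) < k := lt_of_lt_of_le (by positivity) hk
  have hk1 : 1 ≤ k := by
    rcases Nat.eq_zero_or_pos k with h | h
    · rw [h, Nat.cast_zero] at hk0'
      exact absurd hk0' (lt_irrefl _)
    · exact h
  have hkε : 4 / (k : ℝ) ≤ ε := by
    rw [div_le_iff₀ hk0']
    rw [div_le_iff₀ hε] at hk
    linarith
  obtain ⟨N₀, hN₀⟩ := exists_pick k
  refine ⟨1000 * ((N₀ : ℝ) + 2) ^ 4, by positivity, fun d u t ι _ _ m B hu hm ht hB hχ => ?_⟩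
  obtain ⟨N, hN, huN, hNle⟩ := exists_size k N₀ hk1 u hu
  obtain ⟨hN100, h⟩ := hN₀ N hN
  have hu1 : (1 : ℝ) ≤ u := by exact_mod_cast hu
  have hu0 : (0 : ℝ) < u := by linarith
  obtain ⟨x, hx⟩ : ∃ x : ℝ, x = (u : ℝ) ^ (1 / (k : ℝ)) := ⟨_, rfl⟩
  rw [← hx] at hNle
  have hx1 : 1 ≤ x := by
    rw [hx]
    exact Real.one_le_rpow hu1 (by positivity)
  have hx4 : x ^ 4 ≤ (u : ℝ) ^ ε := by
    rw [hx, ← Real.rpow_natCast, ← Real.rpow_mul hu0.le]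
    apply Real.rpow_le_rpow_of_exponent_le hu1
    calc 1 / (k : ℝ) * ((4 : ℕ) : ℝ) = 4 / k := by push_cast; ring
      _ ≤ ε := hkε
  have hx2 : x ^ 2 ≤ x ^ 4 := pow_le_pow_right₀ hx1 (by norm_num)
  have hN0 : (0 : ℝ) ≤ N := Nat.cast_nonneg _
  have hN0' : (0 : ℝ) ≤ N₀ := Nat.cast_nonneg _
  have hN2 : (N : ℝ) ^ 2 ≤ (N₀ + 2) ^ 2 * x ^ 2 := by
    rw [← mul_pow]
    exact pow_le_pow_left₀ hN0 hNle 2
  have hN4 : (N : ℝ) ^ 4 ≤ (N₀ + 2) ^ 4 * x ^ 4 := by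
    rw [← mul_pow]
    exact pow_le_pow_left₀ hN0 hNle 4
  -- the target sizes
  have ht' : 3 * (u * N ^ 2) + 5 ≤ t := by
    have h1 : (u : ℝ) * (N : ℝ) ^ 2 ≤ (N₀ + 2) ^ 4 * (u : ℝ) ^ (1 + ε) := by
      rw [Real.rpow_add hu0, Real.rpow_one]
      calc (u : ℝ) * (N : ℝ) ^ 2 ≤ u * ((N₀ + 2) ^ 2 * x ^ 2) :=
            mul_le_mul_of_nonneg_left hN2 hu0.le
        _ ≤ u * ((N₀ + 2) ^ 4 * (u : ℝ) ^ ε) := by
            refine mul_le_mul_of_nonneg_left ?_ hu0.le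
            exact mul_le_mul (pow_le_pow_right₀ (by linarith) (by norm_num)) (hx2.trans hx4)
              (by positivity) (by positivity)
        _ = (N₀ + 2) ^ 4 * (u * (u : ℝ) ^ ε) := by ring
    have h2 : (3 * (u * N ^ 2) + 5 : ℝ) ≤ t := by
      have h3 : (1 : ℝ) ≤ (u : ℝ) * (N : ℝ) ^ 2 := by
        have h4 : (1 : ℝ) ≤ N := by
          have : (100 : ℝ) ≤ N := by exact_mod_cast hN100
          linarith
        nlinarith [one_le_pow₀ h4 (n := 2)]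
      have h5 : (0 : ℝ) ≤ (N₀ + 2) ^ 4 * (u : ℝ) ^ (1 + ε) := by positivity
      nlinarith
    exact_mod_cast h2
  have hB' : 1000 * (u * N ^ 2) ^ 2 ≤ ∑ i ∈ Bᶜ, (m i + 1).choose 2 := by
    have h1 : (1000 * (u * N ^ 2) ^ 2 : ℝ) ≤ ∑ i ∈ Bᶜ, ((m i + 1).choose 2 : ℝ) := by
      refine le_trans ?_ hB
      have h2 : (u : ℝ) ^ (2 + ε) = u ^ 2 * (u : ℝ) ^ ε := by
        rw [Real.rpow_add hu0]
        norm_num
      rw [h2]
      calc (1000 * (u * N ^ 2) ^ 2 : ℝ) = 1000 * (u ^ 2 * N ^ 4) := by ring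
        _ ≤ 1000 * (u ^ 2 * ((N₀ + 2) ^ 4 * (u : ℝ) ^ ε)) := by
            have h3 := hN4.trans (mul_le_mul_of_nonneg_left hx4
              (show (0 : ℝ) ≤ (N₀ + 2) ^ 4 by positivity))
            have h4 : (0 : ℝ) ≤ (u : ℝ) ^ 2 := by positivity
            nlinarith [mul_le_mul_of_nonneg_left h3 h4]
        _ = 1000 * (N₀ + 2) ^ 4 * (u ^ 2 * (u : ℝ) ^ ε) := by ring
    exact_mod_cast h1
  obtain ⟨C, μ, w, e, hCB, he, hμ, hP⟩ := h d u ι m B hu huN hm hB' hχ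
  have huN' : u * 1 ≤ u * N ^ 2 := Nat.mul_le_mul_left _ (Nat.one_le_pow _ _ (by omega))
  refine ⟨3 * (u * N ^ 2) + 1, C, μ, w, e, hCB, he, fun l => ⟨(hμ l).1, ?_⟩, ?_, ?_, hP⟩
  · have := (hμ l).2
    omega
  · omega
  · omega

end Pool.Agent.Work.MP_0421d9_ag.ZE
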