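import Pool.Agent.Work.MP_0421d9_ag.ZEFree

/-!
Relative version of the collision argument: Cremona-reduced systems. The points of `B` have
arbitrary multiplicities and are not moved.
-/

set_option linter.unusedSectionVars false
set_option linter.unusedVariables false

namespace Pool.Agent.Work.MP_0421d9_ag.ZE

open MvPolynomial Module SM ZC LD

/-- the degree is at least the sum of any three of the multiplicities in `B`, where one or several
of them can be replaced by `t`; and the degree on an anticanonical curve is large -/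
structure RedC {κ : Type} (t d : ℕ) (m : κ → ℕ) (B : Finset κ) : Prop where
  sum : ∀ J ⊆ B, J.card ≤ 3 → ∑ i ∈ J, m i + (3 - J.card) * t ≤ d
  can : ∑ i ∈ B, m i + 100 * (t + 1) ^ 2 ≤ 3 * d

section redC

variable {κ : Type} {t d : ℕ} {m : κ → ℕ} {B : Finset κ}

theorem RedC.t0 (h : RedC t d m B) : 3 * t ≤ d := by
  have h1 := h.sum ∅ (Finset.empty_subset _) (by simp)
  rw [Finset.sum_empty, Finset.card_empty] at h1
  omega

theorem RedC.t1 (h : RedC t d m B) {i : κ} (hi : i ∈ B) : m i + 2 * t ≤ d := by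
  have h1 := h.sum {i} (Finset.singleton_subset_iff.mpr hi) (by rw [Finset.card_singleton]; omega)
  rw [Finset.sum_singleton, Finset.card_singleton] at h1
  exact h1

theorem RedC.t2 (h : RedC t d m B) {i j : κ} (hi : i ∈ B) (hj : j ∈ B) (hij : i ≠ j) :
    m i + m j + t ≤ d := by
  classical
  have h1 := h.sum {i, j} (fun l hl => by
    rcases Finset.mem_insert.mp hl with hl | hl
    · rw [hl]
      exact hi
    · rw [Finset.mem_singleton.mp hl]
      exact hj) (by rw [Finset.card_pair hij]; omega)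
  rw [Finset.sum_pair hij, Finset.card_pair hij] at h1
  omega

theorem RedC.t3 (h : RedC t d m B) {i j k : κ} (hi : i ∈ B) (hj : j ∈ B) (hk : k ∈ B)
    (hij : i ≠ j) (hik : i ≠ k) (hjk : j ≠ k) : m i + m j + m k ≤ d := by
  classical
  have hc : ({i, j, k} : Finset κ).card = 3 := Finset.card_eq_three.mpr ⟨i, j, k, hij, hik, hjk, rfl⟩
  have h1 := h.sum {i, j, k} (fun l hl => by
    rcases Finset.mem_insert.mp hl with hl | hl
    · rw [hl]
      exact hi
    · rcases Finset.mem_insert.mp hl with hl | hl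
      · rw [hl]
        exact hj
      · rw [Finset.mem_singleton.mp hl]
        exact hk) (by rw [hc])
  rw [hc, Finset.sum_insert (by
    rw [Finset.mem_insert, Finset.mem_singleton, not_or]
    exact ⟨hij, hik⟩), Finset.sum_pair hjk] at h1
  omega

/-- the sum of any three multiplicities -/
theorem RedC.any3 (h : RedC t d m B) (hs : ∀ i, i ∉ B → m i ≤ t) {i j k : κ} (hij : i ≠ j)
    (hik : i ≠ k) (hjk : j ≠ k) : m i + m j + m k ≤ d := by
  have h0 := h.t0
  by_cases hi : i ∈ B <;> by_cases hj : j ∈ B <;> by_cases hk : k ∈ B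
  · exact h.t3 hi hj hk hij hik hjk
  · have := h.t2 hi hj hij
    have := hs k hk
    omega
  · have := h.t2 hi hk hik
    have := hs j hj
    omega
  · have := h.t1 hi
    have := hs k hk
    have := hs j hj
    omega
  · have := h.t2 hj hk hjk
    have := hs i hi
    omega
  · have := h.t1 hj
    have := hs k hk
    have := hs i hi
    omega
  · have := h.t1 hk
    have := hs i hi
    have := hs j hj
    omega
  · have := hs i hi
    have := hs j hj
    have := hs k hk
    omega

/-- the sum of any two multiplicities -/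
theorem RedC.any2 (h : RedC t d m B) (hs : ∀ i, i ∉ B → m i ≤ t) {i j : κ} (hij : i ≠ j) :
    m i + m j + t ≤ d := by
  have h0 := h.t0
  by_cases hi : i ∈ B <;> by_cases hj : j ∈ B
  · exact h.t2 hi hj hij
  · have := h.t1 hi
    have := hs j hj
    omega
  · have := h.t1 hj
    have := hs i hi
    omega
  · have := hs i hi
    have := hs j hj
    omega

theorem RedC.congr (h : RedC t d m B) {m' : κ → ℕ} (hm : ∀ i ∈ B, m' i = m i) :
    RedC t d m' B where
  sum := fun J hJ hc => by
    rw [Finset.sum_congr rfl (fun i hi => hm i (hJ hi))]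
    exact h.sum J hJ hc
  can := by
    rw [Finset.sum_congr rfl hm]
    exact h.can

end redC

/-- reduced systems are nonspecial -/
theorem nsp_of_redC {κ : Type} [Fintype κ] {t d : ℕ} {y : κ → ℕ} {B : Finset κ}
    (h : RedC t d y B) (hs : ∀ i, i ∉ B → y i ≤ t) : Nsp d y := by
  classical
  obtain ⟨e, he⟩ : ∃ e, e = Fintype.equivFin κ := ⟨_, rfl⟩
  have hfn : ∀ i, fn y (e i) = y i := fun i => by
    unfold fn
    rw [he, Equiv.symm_apply_apply]
  have hsum : ∀ J : Finset κ, ∑ k ∈ J.map e.toEmbedding, fn y k = ∑ i ∈ J, y i := fun J => by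
    rw [Finset.sum_map]
    exact Finset.sum_congr rfl (fun i _ => hfn i)
  have h1 : Red t d (fn y) (B.map e.toEmbedding) :=
    { small := fun k hk => by
        have h2 : e.symm k ∉ B := fun h3 => hk (by
          rw [Finset.mem_map_equiv]
          exact h3)
        have h3 := hfn (e.symm k)
        rw [Equiv.apply_symm_apply] at h3
        rw [h3]
        exact hs _ h2
      sum := fun J hJ hc => by
        obtain ⟨J', hJ', rfl⟩ := Finset.subset_map_iff.mp hJ
        rw [Finset.card_map] at hc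
        rw [hsum, Finset.card_map]
        exact h.sum J' hJ' hc
      can := by
        rw [hsum]
        exact h.can }
  intro p hp
  rw [finrank_eq_hPm hp, red_main h1, sum_fn y (fun n => (n + 1).choose 2)]

section main

variable {ι Λ : Type} [Fintype ι] [Fintype Λ] [DecidableEq ι] [DecidableEq Λ]

/-- the points of `B` in `ι ⊕ Λ` -/
def inB (Λ : Type) {ι : Type} (B : Finset ι) : Finset (ι ⊕ Λ) := B.map Function.Embedding.inl

theorem redC_inB {t d : ℕ} {m : ι → ℕ} {B : Finset ι} (h : RedC t d m B) {y : ι ⊕ Λ → ℕ}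
    (hy : ∀ i ∈ B, y (Sum.inl i) = m i) : RedC t d y (inB Λ B) := by
  have hsum : ∀ J ⊆ B, ∑ x ∈ J.map (Function.Embedding.inl : ι ↪ ι ⊕ Λ), y x = ∑ i ∈ J, m i :=
    fun J hJ => by
      rw [Finset.sum_map]
      exact Finset.sum_congr rfl (fun i hi => hy i (hJ hi))
  refine ⟨fun J hJ hc => ?_, ?_⟩
  · obtain ⟨J', hJ', rfl⟩ := Finset.subset_map_iff.mp hJ
    rw [Finset.card_map] at hc
    rw [hsum J' hJ', Finset.card_map]
    exact h.sum J' hJ' hc
  · unfold inB
    rw [hsum B (Finset.Subset.refl B)]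
    exact h.can

theorem not_mem_inB {B : Finset ι} {i : ι} (h : Sum.inl i ∉ inB Λ B) : i ∉ B := fun hi =>
  h (Finset.mem_map_of_mem _ hi)

/-- all the systems in the neighbourhood are nonspecial -/
theorem near_of_redC {t d : ℕ} {m : ι → ℕ} {B : Finset ι} {μ : Λ → ℕ} (h : RedC t d m B)
    (hm : ∀ i, i ∉ B → m i + 1 ≤ t) (hμ : ∀ l, μ l + 1 ≤ t) :
    ∀ y : ι ⊕ Λ → ℕ, Near m B μ y → Nsp d y := by
  rintro y ⟨h1, T, hT, h3, h4⟩
  refine nsp_of_redC (redC_inB h (fun i hi => h4 i (fun hiT => (h3 i hiT).1 hi))) ?_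
  rintro (i | l) hi
  · have hiB := not_mem_inB hi
    have h5 := hm i hiB
    by_cases hiT : i ∈ T
    · exact (h3 i hiT).2.trans h5
    · rw [h4 i hiT]
      omega
  · exact (h1 l).2.trans (hμ l)

/-- all the systems which occur after the points have been dropped are free -/
theorem far_of_redC {t d : ℕ} {m : ι → ℕ} {B : Finset ι} {μ : Λ → ℕ} (h : RedC t d m B)
    (hm : ∀ i, i ∉ B → m i + 1 ≤ t) (hμ : ∀ l, μ l + 2 ≤ t) (ht : 4 ≤ t)
    (hΛ : 3 ≤ Fintype.card Λ) (hΛ' : Fintype.card Λ ≤ 200) :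
    ∀ y : ι ⊕ Λ → ℕ, Far m B μ y → Free d y := by
  rintro y ⟨h1, h2, T, hT, h3, h4⟩
  have hred := redC_inB (Λ := Λ) h (y := y) h2
  have hs : ∀ x, x ∉ inB Λ B → y x ≤ t := by
    rintro (i | l) hi
    · have hiB := not_mem_inB hi
      have h5 := hm i hiB
      by_cases hiT : i ∈ T
      · have := (h3 i hiT).2
        omega
      · rw [h4 i hiT hiB]
        exact Nat.zero_le _
    · exact (h1 l).2.trans (hμ l)
  have hsum : ∑ x, y x ≤ ∑ i ∈ B, m i + 2 * t + 200 * t := by
    rw [Fintype.sum_sum_type]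
    have h5 : ∑ l, y (Sum.inr l) ≤ 200 * t := by
      have h6 := Finset.sum_le_card_nsmul Finset.univ (fun l => y (Sum.inr l)) t
        (fun l _ => (h1 l).2.trans (hμ l))
      rw [Finset.card_univ, smul_eq_mul] at h6
      exact h6.trans (Nat.mul_le_mul_right t hΛ')
    have h7 : ∀ i, y (Sum.inl i) ≤ (if i ∈ B then m i else 0) + if i ∈ T then t else 0 := by
      intro i
      by_cases hB : i ∈ B
      · rw [if_pos hB, h2 i hB]
        exact Nat.le_add_right _ _
      · rw [if_neg hB, zero_add]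
        by_cases hiT : i ∈ T
        · rw [if_pos hiT]
          have := (h3 i hiT).2
          have := hm i hB
          omega
        · rw [if_neg hiT, h4 i hiT hB]
    have h8 := Finset.sum_le_sum (fun i (_ : i ∈ Finset.univ) => h7 i)
    rw [Finset.sum_add_distrib, Finset.sum_ite_mem, Finset.sum_ite_mem, Finset.univ_inter,
      Finset.univ_inter, Finset.sum_const, smul_eq_mul] at h8
    have h9 : T.card * t ≤ 2 * t := Nat.mul_le_mul_right t hT
    omega
  have hcard : 3 ≤ Fintype.card (ι ⊕ Λ) := by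
    rw [Fintype.card_sum]
    omega
  have hcan := h.can
  have e1 : 100 * (t + 1) ^ 2 = 100 * (t * t) + 200 * t + 100 := by ring
  have e2 : t ≤ t * t := Nat.le_mul_self t
  rw [e1] at hcan
  refine (farB_of_reduced hcard (fun i j k hij hik hjk => ?_) (fun i j hij => ?_) ?_).free hcard ?_
  · exact hred.any3 hs hij hik hjk
  · have := hred.any2 hs hij
    omega
  · omega
  · omega

/-- the numerical data of a collision for reduced systems -/
structure RDat (t d M : ℕ) (m : ι → ℕ) (B : Finset ι) (μ w s Mv : Λ → ℕ)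
    (v : ∀ l, Fin (s l) → ℕ) : Prop where
  red : RedC t d m B
  ht : M + 1 ≤ t
  ht4 : 4 ≤ t
  hΛ : 3 ≤ Fintype.card Λ
  hΛ' : Fintype.card Λ ≤ 200
  hm : ∀ i, i ∉ B → m i + 1 ≤ M
  hμ : ∀ l, μ l + 1 ≤ M
  hχ : ∑ i, (m i + 1).choose 2 + ∑ l, (μ l + 1).choose 2 + ∑ l, w l + 1 = (d + 2).choose 2
  room : 5 * M ≤ ∑ l, w l
  hNv : ∀ l, NSp (Mv l) (μ l)
  hNv' : ∀ l, NSp (Mv l) (μ l - 1)
  hv : ∀ l j, v l j + 1 ≤ Mv l
  hvμ : ∀ l, 2 * Mv l ≤ μ l
  crit : ∀ l, ∑ j, (v l j + 1).choose 2 = (μ l + 1).choose 2 + w l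
  hw : ∀ l, w l + 2 * Mv l ≤ μ l + 1
  hMv : ∀ l, 1 ≤ Mv l

theorem RDat.dat {t d M : ℕ} {m : ι → ℕ} {B : Finset ι} {μ w s Mv : Λ → ℕ}
    {v : ∀ l, Fin (s l) → ℕ} (S : RDat t d M m B μ w s Mv v) : Dat d M m B μ w s Mv v where
  hN := near_of_redC S.red (fun i hi => (S.hm i hi).trans (by have := S.ht; omega))
    (fun l => (S.hμ l).trans (by have := S.ht; omega))
  hF := far_of_redC S.red (fun i hi => (S.hm i hi).trans (by have := S.ht; omega))
    (fun l => by have := S.hμ l; have := S.ht; omega) S.ht4 S.hΛ S.hΛ'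
  hm := S.hm
  hmd := fun i => by
    have h1 := S.red.t0
    have h2 := S.ht4
    have h3 := S.ht
    by_cases hi : i ∈ B
    · have := S.red.t1 hi
      omega
    · have := S.hm i hi
      omega
  hμ := S.hμ
  hμd := fun l => by
    have h1 := S.red.t0
    have h2 := S.hμ l
    have h3 := S.ht
    omega
  hχ := S.hχ
  room := S.room
  hNv := S.hNv
  hNv' := S.hNv'
  hv := S.hv
  hvμ := S.hvμ
  crit := S.crit
  hw := S.hw
  hMv := S.hMv
  two := fun l => by
    have h1 : 1 < Fintype.card Λ := by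
      have := S.hΛ
      omega
    obtain ⟨l', hl'⟩ := Fintype.exists_ne_of_one_lt_card h1 l
    exact ⟨l', hl'⟩

end main

end Pool.Agent.Work.MP_0421d9_ag.ZE
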