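import Pool.Agent.Work.MP_0421d9_ag.ZEFin
import Pool.Agent.Work.MP_0421d9_ag.ZEFinal
import Pool.Agent.Work.MP_0421d9_ag.ZEPickG
import Pool.Agent.Work.MP_0421d9_ag.ZEOff
import Pool.Agent.Work.MP_0421d9_ag.ZERed

/-!
Reduced systems: general members are smooth.
-/

set_option linter.unusedSectionVars false

namespace Pool.Agent.Work.MP_0421d9_ag.ZE

open MvPolynomial Module SM ZC

/-- reindexing -/
theorem Dat.not_bad_split {ι : Type} [Fintype ι] [DecidableEq ι] {d M : ℕ} {m : ι → ℕ}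
    {p : ι → V3} (hp : GenericPoints p) {n : ℕ} (hn : 1 ≤ n) {C : Fin n → Finset ι}
    {μ w Mv : Fin n → ℕ} {U : Finset {i : ι // ∀ l, i ∉ C l}}
    {e : {i : ι // ∀ l, i ∉ C l} ⊕ (Σ l, Fin (C l).card) ≃ ι}
    (he : ∀ z, e z = Sum.elim (fun i => i.1) (fun x => ((C x.1).equivFin.symm x.2).1) z)
    (hD : Dat d M (fun i : {i : ι // ∀ l, i ∉ C l} => m i.1) U μ w (fun l => (C l).card) Mv
      (fun l j => m ((C l).equivFin.symm j).1)) {F : R3} (hF : F ∈ linSys d p m) (hF0 : F ≠ 0) :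
    ¬ Bad d p m F := by
  classical
  have : Nonempty (Fin n) := ⟨⟨0, hn⟩⟩
  have hme : ∀ z, m (e z) = Sum.elim (fun i : {i : ι // ∀ l, i ∉ C l} => m i.1)
      (fun x : Σ l, Fin (C l).card => m ((C x.1).equivFin.symm x.2).1) z := by
    rintro (i | x)
    · rw [he]
      rfl
    · rw [he]
      rfl
  have hpe : GenericPoints (fun z => p (e z)) := by
    have h2 := AlgebraicIndependent.comp hp
      (fun z : ({i : ι // ∀ l, i ∉ C l} ⊕ (Σ l, Fin (C l).card)) × Fin 3 => (e z.1, z.2))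
      (fun z z' h => by
        have h7 := congrArg Prod.fst h
        have h8 := congrArg Prod.snd h
        exact Prod.ext (e.injective h7) h8)
    exact h2
  have h1 := hD.not_bad hpe (F := F) ⟨hF.1, fun z => by
    rw [← hme]
    exact hF.2 (e z)⟩ hF0
  intro hb
  apply h1
  have h2 := (bad_equiv (d := d) (p := p) (m := m) (F := F) e).mpr hb
  have h3 : (fun z => m (e z)) = Sum.elim (fun i : {i : ι // ∀ l, i ∉ C l} => m i.1)
      (fun x : Σ l, Fin (C l).card => m ((C x.1).equivFin.symm x.2).1) := funext hme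
  rw [h3] at h2
  exact h2

/-- **The data of the collision**, reduced case -/
theorem exists_datC {ε : ℝ} (hε : 0 < ε) : ∃ c : ℝ, 0 < c ∧ ∀ (d u t : ℕ) (ι : Type) [Fintype ι]
    [DecidableEq ι] (m : ι → ℕ) (B : Finset ι), 1 ≤ u → (∀ i, i ∉ B → m i ≤ u) →
    c * (u : ℝ) ^ (1 + ε) ≤ t → RedC t d m B → ∑ i, (m i + 1).choose 2 + 1 = (d + 2).choose 2 →
    ∃ (M : ℕ) (C : Fin 200 → Finset ι) (μ w : Fin 200 → ℕ)
      (e : {i : ι // ∀ l, i ∉ C l} ⊕ (Σ l, Fin (C l).card) ≃ ι)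
      (U : Finset {i : ι // ∀ l, i ∉ C l}), (∀ i, i ∈ U ↔ i.1 ∈ B) ∧
      (∀ z, e z = Sum.elim (fun i => i.1) (fun x => ((C x.1).equivFin.symm x.2).1) z) ∧
      RDat t d M (fun i : {i : ι // ∀ l, i ∉ C l} => m i.1) U μ w (fun l => (C l).card)
        (fun _ => u + 1) (fun l j => m ((C l).equivFin.symm j).1) := by
  obtain ⟨c, hc, h⟩ := exists_pick_eps hε
  refine ⟨max c 10, lt_of_lt_of_le hc (le_max_left _ _),
    fun d u t ι _ _ m B hu hm ht hR hχ => ?_⟩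
  have hu1 : (1 : ℝ) ≤ u := by exact_mod_cast hu
  have hu0 : (0 : ℝ) < u := by linarith
  have hx0 : (0 : ℝ) ≤ (u : ℝ) ^ (1 + ε) := Real.rpow_nonneg hu0.le _
  have hx1 : (1 : ℝ) ≤ (u : ℝ) ^ (1 + ε) := Real.one_le_rpow hu1 (by positivity)
  have ht1 : c * (u : ℝ) ^ (1 + ε) ≤ t :=
    (mul_le_mul_of_nonneg_right (le_max_left _ _) hx0).trans ht
  have ht2 : 10 * (u : ℝ) ^ (1 + ε) ≤ t :=
    (mul_le_mul_of_nonneg_right (le_max_right _ _) hx0).trans ht
  have ht10 : 10 ≤ t := by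
    have : (10 : ℝ) ≤ t := by linarith
    exact_mod_cast this
  have hB : c * (u : ℝ) ^ (2 + ε) ≤ ∑ i ∈ Bᶜ, ((m i + 1).choose 2 : ℝ) := by
    have hcan := hR.can
    have h1 := off_count (fun J hJ hJc => (Nat.le_add_right _ _).trans (hR.sum J hJ hJc))
      (by omega) hχ
    have h2 : 50 * (t + 1) ^ 2 ≤ ∑ i ∈ Bᶜ, (m i + 1).choose 2 := by omega
    have h3 : (50 * (t + 1) ^ 2 : ℝ) ≤ ∑ i ∈ Bᶜ, ((m i + 1).choose 2 : ℝ) := by exact_mod_cast h2
    refine le_trans ?_ h3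
    have h4 : (u : ℝ) ^ (2 + ε) ≤ (u : ℝ) ^ (1 + ε) * (u : ℝ) ^ (1 + ε) := by
      rw [← Real.rpow_add hu0]
      exact Real.rpow_le_rpow_of_exponent_le hu1 (by linarith)
    have ht0 : (0 : ℝ) ≤ t := Nat.cast_nonneg t
    calc c * (u : ℝ) ^ (2 + ε) ≤ c * ((u : ℝ) ^ (1 + ε) * (u : ℝ) ^ (1 + ε)) :=
          mul_le_mul_of_nonneg_left h4 hc.le
      _ = (c * (u : ℝ) ^ (1 + ε)) * (u : ℝ) ^ (1 + ε) := by ring
      _ ≤ t * t := by
          refine mul_le_mul ht1 ?_ hx0 ht0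
          linarith
      _ ≤ 50 * (t + 1) ^ 2 := by nlinarith
  obtain ⟨M, C, μ, w, e, hCB, he, hμ, huM, hMt, hP⟩ := h d u t ι m B hu hm ht1 hB hχ
  obtain ⟨U, hU⟩ : ∃ U : Finset {i : ι // ∀ l, i ∉ C l},
      U = Finset.univ.filter (fun i => i.1 ∈ B) := ⟨_, rfl⟩
  have hUm : ∀ i, i ∈ U ↔ i.1 ∈ B := fun i => by
    rw [hU, Finset.mem_filter]
    exact ⟨fun h => h.2, fun h => ⟨Finset.mem_univ i, h⟩⟩
  have hR' : RedC t d (fun i : {i : ι // ∀ l, i ∉ C l} => m i.1) U := by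
    refine ⟨fun J hJ hJc => ?_, ?_⟩
    · have h1 := hR.sum (J.map (Function.Embedding.subtype _)) (fun i hi => by
        rw [Finset.mem_map] at hi
        obtain ⟨j, hj, rfl⟩ := hi
        exact (hUm j).mp (hJ hj)) (by rwa [Finset.card_map])
      rw [Finset.sum_map, Finset.card_map] at h1
      exact h1
    · have h1 : ∑ i ∈ U, m i.1 ≤ ∑ i ∈ B, m i := by
        have h2 : ∑ i ∈ U, m i.1 = ∑ i ∈ U.map (Function.Embedding.subtype _), m i := by
          rw [Finset.sum_map]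
          rfl
        rw [h2]
        refine Finset.sum_le_sum_of_subset (fun i hi => ?_)
        rw [Finset.mem_map] at hi
        obtain ⟨j, hj, rfl⟩ := hi
        exact (hUm j).mp hj
      have h2 := hR.can
      omega
  refine ⟨M, C, μ, w, e, U, hUm, he,
    { red := hR'
      ht := by omega
      ht4 := by omega
      hΛ := by rw [Fintype.card_fin]; norm_num
      hΛ' := by rw [Fintype.card_fin]
      hm := fun i hi => ?_
      hμ := hP.hμ
      hχ := hP.hχ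
      room := hP.room
      hNv := hP.hNv
      hNv' := hP.hNv'
      hv := hP.hv
      hvμ := hP.hvμ
      crit := hP.crit
      hw := hP.hw
      hMv := hP.hMv }⟩
  have := hm i.1 (fun h => hi ((hUm i).mpr h))
  change m i.1 + 1 ≤ M
  omega

/-- rigid systems, reduced case -/
theorem rigid_not_badC {ε : ℝ} (hε : 0 < ε) : ∃ c : ℝ, 0 < c ∧ ∀ (d u t : ℕ) (ι : Type)
    [Fintype ι] [DecidableEq ι] (p : ι → V3) (m : ι → ℕ) (B : Finset ι), GenericPoints p → 1 ≤ u →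
    (∀ i, i ∉ B → m i ≤ u) → c * (u : ℝ) ^ (1 + ε) ≤ t → RedC t d m B →
    ∑ i, (m i + 1).choose 2 + 1 = (d + 2).choose 2 →
    ∀ F ∈ linSys d p m, F ≠ 0 → ¬ Bad d p m F := by
  obtain ⟨c, hc, h⟩ := exists_datC hε
  refine ⟨c, hc, fun d u t ι _ _ p m B hp hu hm ht hR hχ F hF hF0 => ?_⟩
  obtain ⟨M, C, μ, w, e, U, -, he, hD⟩ := h d u t ι m B hu hm ht hR hχ
  exact Dat.not_bad_split hp (by norm_num) (μ := μ) (w := w) (Mv := fun _ => u + 1) he hD.dat hF hF0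

/-- **Reduced systems**: the general members are not bad. -/
theorem reduced_not_bad {ε : ℝ} (hε : 0 < ε) : ∃ c : ℝ, 0 < c ∧ ∀ (r d u t : ℕ)
    (p : Fin r → V3) (m : Fin r → ℕ) (B : Finset (Fin r)), GenericPoints p → 1 ≤ u →
    (∀ i, i ∉ B → m i ≤ u) → c * (u : ℝ) ^ (1 + ε) ≤ t → RedC t d m B →
    ∀ s : Fin (finrank ℂ (linSys d p m) - 1) → Fin 3 → ℂ, GenericPoints (Sum.elim p s) →
      ∀ F ∈ linSys d p m, F ≠ 0 → (∀ k, eval (s k) F = 0) → ¬ Bad d p m F := by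
  obtain ⟨c, hc, h⟩ := rigid_not_badC hε
  refine ⟨max c 1, lt_of_lt_of_le hc (le_max_left _ _),
    fun r d u t p m B hp hu hm ht hR s hs => ?_⟩
  classical
  have hu1 : (1 : ℝ) ≤ u := by exact_mod_cast hu
  have hx0 : (0 : ℝ) ≤ (u : ℝ) ^ (1 + ε) := Real.rpow_nonneg (by linarith) _
  have ht1 : c * (u : ℝ) ^ (1 + ε) ≤ t :=
    (mul_le_mul_of_nonneg_right (le_max_left _ _) hx0).trans ht
  have ht2 : 1 * (u : ℝ) ^ (1 + ε) ≤ t :=
    (mul_le_mul_of_nonneg_right (le_max_right _ _) hx0).trans ht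
  have hut : u ≤ t := by
    have h1 : (u : ℝ) ^ (1 : ℝ) ≤ (u : ℝ) ^ (1 + ε) :=
      Real.rpow_le_rpow_of_exponent_le hu1 (by linarith)
    rw [Real.rpow_one] at h1
    have h2 : (u : ℝ) ≤ t := by linarith
    exact_mod_cast h2
  have hns : finrank ℂ (linSys d p m) = (d + 2).choose 2 - ∑ i, (m i + 1).choose 2 :=
    nsp_of_redC hR (fun i hi => (hm i hi).trans hut) p hp
  refine not_bad_of_rigid hns s hs (fun hχ => ?_)
  have hsum : ∀ J ⊆ B, ∑ x ∈ J.map (Function.Embedding.inl : Fin r ↪ Fin r ⊕ Fin _),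
      Sum.elim m (fun _ : Fin (finrank ℂ (linSys d p m) - 1) => 1) x = ∑ i ∈ J, m i :=
    fun J _ => by
      rw [Finset.sum_map]
      rfl
  refine h d u t _ (Sum.elim p s) (Sum.elim m (fun _ => 1)) (B.map Function.Embedding.inl) hs hu
    ?_ ht1 ⟨fun J hJ hJc => ?_, ?_⟩ hχ
  · rintro (i | j) hi
    · exact hm i (fun h => hi (Finset.mem_map_of_mem _ h))
    · exact hu
  · obtain ⟨J', hJ', rfl⟩ := Finset.subset_map_iff.mp hJ
    rw [Finset.card_map] at hJc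
    rw [hsum J' hJ', Finset.card_map]
    exact hR.sum J' hJ' hJc
  · rw [hsum B (Finset.Subset.refl B)]
    exact hR.can

end Pool.Agent.Work.MP_0421d9_ag.ZE
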