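import Pool.Agent.Work.MP_0421d9_ag.ZEGen
import Pool.Agent.Work.MP_0421d9_ag.GSmooth
import Pool.Agent.Work.MP_0421d9_ag.LMix

/-!
Few large points; three scales of multiplicities: general members are smooth.
-/

set_option linter.unusedSectionVars false

namespace Pool.Agent.Work.MP_0421d9_ag.ZE

open MvPolynomial Module SM ZC LD

theorem zd_two (n : ℕ) : 2 * (n + 1).choose 2 = n ^ 2 + n := by
  induction n with
  | zero => rfl
  | succ n ih =>
    have h2 : (n + 1 + 1).choose 2 = (n + 1).choose 2 + (n + 1) := by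
      rw [Nat.choose_succ_succ' (n + 1) 1, Nat.choose_one_right]
      exact Nat.add_comm _ _
    rw [h2, Nat.mul_add, ih]
    ring

section count

variable {κ : Type} [Fintype κ] [DecidableEq κ] {r : ℕ} {m : Fin r → ℕ} {U : Finset (Fin r)}
  {y : κ → ℕ} (j : {i // i ∈ U} ↪ κ)

/-- the sum over the points in `U` and the other ones -/
theorem sum_emb (f : κ → ℕ) :
    ∑ k, f k = ∑ i : {i // i ∈ U}, f (j i) +
      ∑ k ∈ Finset.univ.filter (fun k => ∀ i, j i ≠ k), f k := by
  rw [← Finset.sum_filter_add_sum_filter_not Finset.univ (fun k => ∃ i, j i = k) f]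
  congr 1
  · rw [← Finset.sum_map Finset.univ j f]
    refine Finset.sum_congr (Finset.ext fun k => ?_) (fun _ _ => rfl)
    simp only [Finset.mem_filter, Finset.mem_univ, true_and, Finset.mem_map]
  · refine Finset.sum_congr (Finset.ext fun k => ?_) (fun _ _ => rfl)
    simp only [Finset.mem_filter, Finset.mem_univ, true_and, not_exists, ne_eq]

/-- the number of the conditions if there are at most `202` further points -/
theorem sum_le_of_few {t : ℕ} (hy : ∀ i, y (j i) = m i.1)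
    (ht : ∀ k, (∀ i, j i ≠ k) → y k ≤ t)
    (hS : ∃ S : Finset κ, S.card ≤ 202 ∧ ∀ k ∉ S, (∀ i, j i ≠ k) → y k = 0) :
    ∑ k, (y k + 1).choose 2 ≤ ∑ i ∈ U, (m i + 1).choose 2 + 202 * (t + 1).choose 2 := by
  obtain ⟨S, hS, h0⟩ := hS
  rw [sum_emb j (fun k => (y k + 1).choose 2)]
  refine Nat.add_le_add (le_of_eq ?_) ?_
  · rw [← Finset.sum_coe_sort U (fun i => (m i + 1).choose 2)]
    exact Finset.sum_congr rfl (fun i _ => by rw [hy])
  · calc ∑ k ∈ Finset.univ.filter (fun k => ∀ i, j i ≠ k), (y k + 1).choose 2 ≤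
          ∑ k ∈ S, (t + 1).choose 2 := by
          rw [← Finset.sum_filter_add_sum_filter_not
            (Finset.univ.filter (fun k => ∀ i, j i ≠ k)) (fun k => k ∈ S)]
          have h1 : ∑ k ∈ (Finset.univ.filter (fun k => ∀ i, j i ≠ k)).filter (fun k => ¬ k ∈ S),
              (y k + 1).choose 2 = 0 := by
            refine Finset.sum_eq_zero (fun k hk => ?_)
            rw [Finset.mem_filter, Finset.mem_filter] at hk
            rw [h0 k hk.2 hk.1.2]
            rfl
          rw [h1, add_zero]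
          refine (Finset.sum_le_sum (fun k hk => ?_)).trans
            (Finset.sum_le_sum_of_subset (fun k hk => ?_))
          · rw [Finset.mem_filter, Finset.mem_filter] at hk
            exact Nat.choose_le_choose 2 (by have := ht k hk.1.2; omega)
          · exact (Finset.mem_filter.mp hk).2
      _ = S.card * (t + 1).choose 2 := by rw [Finset.sum_const, smul_eq_mul]
      _ ≤ 202 * (t + 1).choose 2 := Nat.mul_le_mul_right _ hS

/-- the number of the conditions imposed by the large points -/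
theorem bigC_fn_le {t : ℕ} (hy : ∀ i, y (j i) = m i.1)
    (ht : ∀ k, (∀ i, j i ≠ k) → y k ≤ t) (B : Finset (Fin (Fintype.card κ)))
    (hB : ∀ k ∈ B, ∃ i, j i = (Fintype.equivFin κ).symm k) :
    bigC B t (fn y) ≤ ∑ i ∈ U, (m i + 1).choose 2 := by
  classical
  unfold bigC
  have h1 : ∑ k ∈ Finset.univ.filter (fun k => k ∈ B ∨ t < fn y k), (fn y k + 1).choose 2 ≤
      ∑ k ∈ Finset.univ.map j, (y k + 1).choose 2 := by
    have h0 := Finset.sum_map (Finset.univ.filter (fun k => k ∈ B ∨ t < fn y k))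
      (Fintype.equivFin κ).symm.toEmbedding (fun k => (y k + 1).choose 2)
    refine (le_of_eq h0.symm).trans (Finset.sum_le_sum_of_subset (fun k hk => ?_))
    rw [Finset.mem_map_equiv, Equiv.symm_symm, Finset.mem_filter] at hk
    rw [Finset.mem_map]
    rcases hk.2 with h2 | h2
    · obtain ⟨i, hi⟩ := hB _ h2
      rw [Equiv.symm_apply_apply] at hi
      exact ⟨i, Finset.mem_univ i, hi⟩
    · by_contra hcon
      have h3 := ht k (fun i hi => hcon ⟨i, Finset.mem_univ i, hi⟩)
      unfold fn at h2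
      rw [Equiv.symm_apply_apply] at h2
      omega
  refine h1.trans (le_of_eq ?_)
  rw [Finset.sum_map, ← Finset.sum_coe_sort U (fun i => (m i + 1).choose 2)]
  exact Finset.sum_congr rfl (fun i _ => by rw [hy])

end count

/-- nonspecial systems with few conditions -/
theorem reg_of_ns {κ : Type} [Fintype κ] {d : ℕ} {y : κ → ℕ}
    (h : hPm d (fn y) = (d + 2).choose 2 - ∑ k, (fn y k + 1).choose 2)
    (hle : ∑ k, (y k + 1).choose 2 ≤ (d + 2).choose 2) : Reg d y := by
  unfold Reg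
  rw [h, sum_fn y (fun n => (n + 1).choose 2)]
  omega

/-- **Few large points**: the general members are not bad. -/
theorem scale_not_bad {ε : ℝ} (hε : 0 < ε) : ∃ c : ℝ, 0 < c ∧ ∀ (r d u t M : ℕ)
    (p : Fin r → V3) (m : Fin r → ℕ), GenericPoints p → 1 ≤ u → c * (u : ℝ) ^ (1 + ε) ≤ t →
    t ≤ M → (∀ i, m i ≤ M) → 50000 * t ^ 2 * M ≤ d ^ 2 → 26 * bigC ∅ u m ≤ d ^ 2 →
    ∀ s : Fin (finrank ℂ (linSys d p m) - 1) → Fin 3 → ℂ, GenericPoints (Sum.elim p s) →
      ∀ F ∈ linSys d p m, F ≠ 0 → (∀ k, eval (s k) F = 0) → ¬ Bad d p m F := by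
  obtain ⟨c, hc, h⟩ := general_not_badG hε
  refine ⟨max c 1, lt_of_lt_of_le hc (le_max_left _ _),
    fun r d u t M p m hp hu ht htM hM hd hN => ?_⟩
  classical
  have hu1 : (1 : ℝ) ≤ u := by exact_mod_cast hu
  have hu0 : (0 : ℝ) < u := by linarith
  have hx0 : (0 : ℝ) ≤ (u : ℝ) ^ (1 + ε) := Real.rpow_nonneg (by linarith) _
  have ht1 : c * (u : ℝ) ^ (1 + ε) ≤ t :=
    (mul_le_mul_of_nonneg_right (le_max_left _ _) hx0).trans ht
  have ht2 : 1 * (u : ℝ) ^ (1 + ε) ≤ t :=
    (mul_le_mul_of_nonneg_right (le_max_right _ _) hx0).trans ht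
  have hut : u ≤ t := by
    have h1 : (u : ℝ) ^ (1 : ℝ) ≤ (u : ℝ) ^ (1 + ε) :=
      Real.rpow_le_rpow_of_exponent_le hu1 (by linarith)
    rw [Real.rpow_one] at h1
    have h2 : (u : ℝ) ≤ t := by linarith
    exact_mod_cast h2
  have ht0 : 1 ≤ t := hu.trans hut
  -- the set of the large points
  obtain ⟨U, hU⟩ : ∃ U : Finset (Fin r), U = Finset.univ.filter (fun i => u < m i) := ⟨_, rfl⟩
  have hUm : ∀ i, i ∈ U ↔ u < m i := fun i => by
    rw [hU, Finset.mem_filter]
    exact ⟨fun h => h.2, fun h => ⟨Finset.mem_univ i, h⟩⟩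
  obtain ⟨N', hN'⟩ : ∃ N', N' = ∑ i ∈ U, (m i + 1).choose 2 := ⟨_, rfl⟩
  have hNe : bigC ∅ u m = N' := by
    rw [hN', hU]
    unfold bigC
    refine Finset.sum_congr (Finset.ext fun i => ?_) (fun _ _ => rfl)
    simp only [Finset.mem_filter, Finset.notMem_empty, false_or]
  rw [hNe] at hN
  have hd1 : 50000 * (t ^ 2 * t) ≤ d ^ 2 := by
    calc 50000 * (t ^ 2 * t) ≤ 50000 * (t ^ 2 * M) :=
          Nat.mul_le_mul_left _ (Nat.mul_le_mul_left _ htM)
      _ = 50000 * t ^ 2 * M := by ring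
      _ ≤ d ^ 2 := hd
  have ht3 : t ^ 2 * 1 ≤ t ^ 2 * t := Nat.mul_le_mul_left _ ht0
  have ht4 : 1 ≤ t ^ 2 := Nat.one_le_pow _ _ ht0
  have hd200 : 200 * t ≤ d := by
    have h1 : (200 * t) ^ 2 ≤ d ^ 2 := by
      have e1 : (200 * t) ^ 2 = 40000 * t ^ 2 := by ring
      omega
    exact (Nat.pow_le_pow_iff_left (by norm_num)).mp h1
  obtain ⟨e, rfl⟩ : ∃ e, d = e + 1 := ⟨d - 1, by omega⟩
  have ed : (e + 1) ^ 2 = e ^ 2 + 2 * e + 1 := by ring
  have ed2 := zd_two (e + 1)
  have ed3 : (e + 1 + 2).choose 2 = (e + 1 + 1).choose 2 + (e + 2) := by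
    rw [show e + 1 + 2 = e + 2 + 1 by ring, Nat.choose_succ_succ' (e + 2) 1, Nat.choose_one_right,
      add_comm]
  have et := zd_two t
  have he2 : 199 * e ≤ e ^ 2 := by
    rw [pow_two]
    exact Nat.mul_le_mul_right e (by omega)
  have hlow : 40000 * t ^ 2 * M ≤ e ^ 2 := by
    have e1 : 50000 * t ^ 2 * M = 50000 * (t ^ 2 * M) := by ring
    have e2 : 40000 * t ^ 2 * M = 40000 * (t ^ 2 * M) := by ring
    omega
  have hhigh : 40000 * t ^ 2 * M ≤ (e + 1) ^ 2 := by omega
  refine h r (e + 1) u t p m U hp hu (fun i hi => by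
    have := mt (hUm i).mpr hi
    omega) ht1 ?_ ?_ (fun i hi => ?_) (by omega) ?_
  · intro κ _ _ y j hy hyt q hq
    have h1 : bigC ∅ t (fn y) ≤ N' := by
      rw [hN']
      exact bigC_fn_le j hy hyt ∅ (fun k hk => absurd hk (Finset.notMem_empty k))
    have h2 : ∀ k, fn y k ≤ M := by
      intro k
      unfold fn
      by_cases hk : ∃ i, j i = (Fintype.equivFin κ).symm k
      · obtain ⟨i, hi⟩ := hk
        rw [← hi, hy]
        exact hM _
      · push Not at hk
        exact (hyt _ hk).trans htM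
    have h3 := scale_main (gpt_generic _) h2 ht0 hhigh (by omega)
    rw [finrank_eq_hPm hq]
    rw [hPm_eq (gpt_generic _)] at h3
    rw [h3, sum_fn y (fun n => (n + 1).choose 2)]
  · intro κ _ _ y j hy hyt hS
    apply free_of_Reg
    have h0 := sum_le_of_few j hy hyt hS
    have h1 : bigC ∅ t (fn y) ≤ N' := by
      rw [hN']
      exact bigC_fn_le j hy hyt ∅ (fun k hk => absurd hk (Finset.notMem_empty k))
    have h2 : ∀ k, fn y k ≤ M := by
      intro k
      unfold fn
      by_cases hk : ∃ i, j i = (Fintype.equivFin κ).symm k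
      · obtain ⟨i, hi⟩ := hk
        rw [← hi, hy]
        exact hM _
      · push Not at hk
        exact (hyt _ hk).trans htM
    have h3 := scale_main (gpt_generic _) h2 ht0 hlow (by omega)
    rw [hPm_eq (gpt_generic _)] at h3
    refine reg_of_ns h3 ?_
    rw [← hN'] at h0
    have e3 : (e + 2).choose 2 = (e + 1 + 1).choose 2 := rfl
    omega
  · have h1 : (m i + 1).choose 2 ≤ N' := by
      rw [hN']
      exact Finset.single_le_sum (f := fun i => (m i + 1).choose 2) (fun _ _ => Nat.zero_le _) hi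
    by_contra hcon
    have h2 : (e + 1 + 1).choose 2 ≤ (m i + 1).choose 2 := Nat.choose_le_choose 2 (by omega)
    omega
  · have h1 : c * (u : ℝ) ^ (2 + ε) ≤ (t : ℝ) ^ 2 := by
      have h2 : (u : ℝ) ^ (2 + ε) = (u : ℝ) ^ (1 + ε) * u := by
        rw [show (2 : ℝ) + ε = (1 + ε) + 1 by ring, Real.rpow_add hu0, Real.rpow_one]
      rw [h2, ← mul_assoc, pow_two]
      have hut' : (u : ℝ) ≤ t := by exact_mod_cast hut
      exact mul_le_mul ht1 hut' hu0.le (Nat.cast_nonneg t)
    have h3 : t ^ 2 + N' + 1 ≤ (e + 1 + 2).choose 2 := by omega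
    have h4 : ((t ^ 2 + N' + 1 : ℕ) : ℝ) ≤ ((e + 1 + 2).choose 2 : ℕ) := by exact_mod_cast h3
    have h5 : ∑ i ∈ U, ((m i + 1).choose 2 : ℝ) = N' := by
      rw [hN']
      push_cast
      rfl
    push_cast at h4
    rw [h5]
    push_cast
    linarith

end Pool.Agent.Work.MP_0421d9_ag.ZE
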