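import Pool.Agent.Work.MP_0421d9_ag.ZEFinD

/-!
Three scales of multiplicities: general members are smooth.
-/

set_option linter.unusedSectionVars false

namespace Pool.Agent.Work.MP_0421d9_ag.ZE

open MvPolynomial Module SM ZC LD

/-- the conditions imposed by the points of `B` are independent, for any index type -/
theorem rg_onB_emb {κ : Type} [Fintype κ] [DecidableEq κ] {r : ℕ} {m : Fin r → ℕ}
    {U B : Finset (Fin r)} (hBU : B ⊆ U) {y : κ → ℕ} (j : {i // i ∈ U} ↪ κ)
    (hy : ∀ i, y (j i) = m i.1) {D : ℕ} (h : Rg D (onB B m)) :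
    Rg D (onB (Finset.univ.filter (fun k => ∃ i : {i // i ∈ U}, i.1 ∈ B ∧
      j i = (Fintype.equivFin κ).symm k)) (fn y)) := by
  classical
  obtain ⟨z, hz⟩ : ∃ z : κ → ℕ, z = fun k => if ∃ i : {i // i ∈ U}, i.1 ∈ B ∧ j i = k then y k
    else 0 := ⟨_, rfl⟩
  have hfz : fn z = onB (Finset.univ.filter (fun k => ∃ i : {i // i ∈ U}, i.1 ∈ B ∧
      j i = (Fintype.equivFin κ).symm k)) (fn y) := by
    funext k
    unfold fn onB
    rw [hz]
    simp only [Finset.mem_filter, Finset.mem_univ, true_and]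
  rw [← hfz, ← reg_iff_rg]
  -- the embeddings of `B`
  let a : {i // i ∈ B} ↪ κ := ⟨fun i => j ⟨i.1, hBU i.2⟩, fun i i' h => by
    have h1 := j.injective h
    rw [Subtype.mk.injEq] at h1
    exact Subtype.ext h1⟩
  have ha : ∀ i, z (a i) = m i.1 := fun i => by
    have h1 : ∃ i' : {i // i ∈ U}, i'.1 ∈ B ∧ j i' = a i := ⟨⟨i.1, hBU i.2⟩, i.2, rfl⟩
    rw [hz]
    change (if ∃ i' : {i // i ∈ U}, i'.1 ∈ B ∧ j i' = a i then y (a i) else 0) = m i.1
    rw [if_pos h1]
    exact hy _
  have ha0 : ∀ k, (∀ i, a i ≠ k) → z k = 0 := fun k hk => by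
    rw [hz]
    change (if ∃ i' : {i // i ∈ U}, i'.1 ∈ B ∧ j i' = k then y k else 0) = 0
    rw [if_neg]
    rintro ⟨i, hi, hik⟩
    exact hk ⟨i.1, hi⟩ hik
  let b : {i // i ∈ B} ↪ Fin r := Function.Embedding.subtype _
  have hb0 : ∀ k, (∀ i, b i ≠ k) → onB B m k = 0 := fun k hk => by
    unfold onB
    rw [if_neg]
    intro h
    exact hk ⟨k, h⟩ rfl
  have hb : ∀ i, onB B m (b i) = m i.1 := fun i => by
    unfold onB
    exact if_pos i.2
  have h1 : hPm D (fn z) = hPm D (onB B m) := by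
    have e1 : (fun i => z (a i)) = fun i => onB B m (b i) := funext fun i => by rw [ha, hb]
    rw [hPm_emb a ha0, ← hPm_fn_fin (onB B m), hPm_emb b hb0, e1]
  have h2 : ∑ k, (z k + 1).choose 2 = ∑ k, (onB B m k + 1).choose 2 := by
    have e1 := sum_onB B m
    have e2 : ∑ k, (z k + 1).choose 2 = ∑ i : {i // i ∈ B}, (m i.1 + 1).choose 2 := by
      have e3 : ∑ k, (z k + 1).choose 2 = ∑ k ∈ Finset.univ.map a, (z k + 1).choose 2 := by
        refine (Finset.sum_subset (Finset.subset_univ _) (fun k _ hk => ?_)).symm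
        rw [ha0 k (fun i hi => hk (Finset.mem_map.mpr ⟨i, Finset.mem_univ i, hi⟩))]
        rfl
      rw [e3, Finset.sum_map]
      exact Finset.sum_congr rfl (fun i _ => by rw [ha])
    rw [e2, e1]
    exact Finset.sum_coe_sort B (fun i => (m i + 1).choose 2)
  unfold Reg
  rw [h1, h2]
  exact h

/-- the numerical part, if there are no middle points -/
theorem zd_num {e a w : ℕ} (ha : a = 5 * (w + 1) ^ 2) (hw : 1 ≤ w) (he : 27 * (w + 1) ^ 2 ≤ e) :
    (e + 2).choose 2 + 202 * w ^ 2 + (e + a) + 2 ≤ (e + a + 2).choose 2 := by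
  have e1 := zd_two (e + 1)
  have e2 := zd_two (e + a + 1)
  have e3 : (e + 1 + 1).choose 2 = (e + 2).choose 2 := rfl
  have e4 : (e + a + 1 + 1).choose 2 = (e + a + 2).choose 2 := rfl
  rw [e3] at e1
  rw [e4] at e2
  have e5 : (e + a + 1) ^ 2 = (e + 1) ^ 2 + a ^ 2 + 2 * (e * a) + 2 * a := by ring
  have e6 : (w + 1) ^ 2 = w ^ 2 + 2 * w + 1 := by ring
  have e7 : 20 * e ≤ e * a := by
    rw [mul_comm]
    refine Nat.mul_le_mul_left _ ?_
    rw [ha]
    have : 1 ≤ w ^ 2 := Nat.one_le_pow _ _ hw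
    omega
  have e8 : 1 ≤ w ^ 2 := Nat.one_le_pow _ _ hw
  omega

/-- **Three scales of multiplicities**: the general members are not bad. -/
theorem three_not_bad {ε : ℝ} (hε : 0 < ε) : ∃ c : ℝ, 0 < c ∧ ∀ (r d u w k M : ℕ)
    (p : Fin r → V3) (m : Fin r → ℕ) (B : Finset (Fin r)), GenericPoints p → 1 ≤ u →
    c * (u : ℝ) ^ (1 + ε) ≤ w → w ≤ M + 1 → k ≤ M → (∀ i, m i ≤ M) → (∀ i, i ∉ B → m i ≤ k) →
    32 * (w + 1) ^ 2 ≤ d → Rg (d - 5 * (w + 1) ^ 2) (onB B m) →
    (k ≤ u ∨
      bigC B u m + ((k + 1 + 4 * (w + 1) ^ 2) * (M + 1) + 3 * (w + 1) * d) ≤ (d + 2).choose 2 ∨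
      bigC B u m + 2 * ((k + 1 + 4 * (w + 1) ^ 2) * (M + 1) + 3 * (w + 1) * d) ≤
        ∑ i, (m i + 1).choose 2) →
    ∀ s : Fin (finrank ℂ (linSys d p m) - 1) → Fin 3 → ℂ, GenericPoints (Sum.elim p s) →
      ∀ F ∈ linSys d p m, F ≠ 0 → (∀ k, eval (s k) F = 0) → ¬ Bad d p m F := by
  obtain ⟨c, hc, h⟩ := general_not_badG hε
  refine ⟨c + 2, by linarith,
    fun r d u w k M p m B hp hu hw hwM hkM hM hk hd hR hmid s hs F hF hF0 hFs => ?_⟩
  classical
  have hu1 : (1 : ℝ) ≤ u := by exact_mod_cast hu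
  have hu0 : (0 : ℝ) < u := by linarith
  have hx1 : (1 : ℝ) ≤ (u : ℝ) ^ (1 + ε) := Real.one_le_rpow hu1 (by positivity)
  have hxu : (u : ℝ) ≤ (u : ℝ) ^ (1 + ε) := by
    have h1 : (u : ℝ) ^ (1 : ℝ) ≤ (u : ℝ) ^ (1 + ε) :=
      Real.rpow_le_rpow_of_exponent_le hu1 (by linarith)
    rwa [Real.rpow_one] at h1
  obtain ⟨t, rfl⟩ : ∃ t, w = t + 1 := by
    refine ⟨w - 1, ?_⟩
    have h1 : (1 : ℝ) ≤ w := by nlinarith
    have h2 : 1 ≤ w := by exact_mod_cast h1
    omega
  have ht1 : c * (u : ℝ) ^ (1 + ε) ≤ t := by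
    push_cast at hw
    nlinarith
  have hut : u ≤ t := by
    have h1 : (u : ℝ) + 1 ≤ t + 1 := by
      push_cast at hw
      nlinarith
    have h2 : ((u + 1 : ℕ) : ℝ) ≤ ((t + 1 : ℕ) : ℝ) := by
      push_cast
      linarith
    have h3 : u + 1 ≤ t + 1 := by exact_mod_cast h2
    omega
  have htM : t ≤ M := by omega
  -- the set of the points which are not moved
  obtain ⟨U, hU⟩ : ∃ U : Finset (Fin r), U = Finset.univ.filter (fun i => i ∈ B ∨ u < m i) :=
    ⟨_, rfl⟩
  have hUm : ∀ i, i ∈ U ↔ (i ∈ B ∨ u < m i) := fun i => by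
    rw [hU, Finset.mem_filter]
    exact ⟨fun h => h.2, fun h => ⟨Finset.mem_univ i, h⟩⟩
  have hBU : B ⊆ U := fun i hi => (hUm i).mpr (Or.inl hi)
  obtain ⟨N', hN'⟩ : ∃ N', N' = ∑ i ∈ U, (m i + 1).choose 2 := ⟨_, rfl⟩
  have hNe : bigC B u m = N' := by
    rw [hN', hU]
    rfl
  rw [hNe] at hmid
  -- the bound for the points outside of `B`
  obtain ⟨K, hK⟩ : ∃ K, K = max k t := ⟨_, rfl⟩
  have hkK : k ≤ K := hK ▸ le_max_left _ _
  have htK : t ≤ K := hK ▸ le_max_right _ _
  have hKM : K ≤ M := by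
    rw [hK]
    exact max_le hkM htM
  have hbigN : ∀ {κ : Type} [Fintype κ] [DecidableEq κ] (y : κ → ℕ) (j : {i // i ∈ U} ↪ κ),
      (∀ i, y (j i) = m i.1) → (∀ k, (∀ i, j i ≠ k) → y k ≤ t) →
      bigC (Finset.univ.filter (fun k => ∃ i : {i // i ∈ U}, i.1 ∈ B ∧
        j i = (Fintype.equivFin κ).symm k)) (t + 1) (fn y) ≤ N' := by
    intro κ _ _ y j hy hyt
    have h1 := bigC_fn_le j hy (t := t + 1) (fun k hk => (hyt k hk).trans (Nat.le_succ t))
      (Finset.univ.filter (fun k => ∃ i : {i // i ∈ U}, i.1 ∈ B ∧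
        j i = (Fintype.equivFin κ).symm k)) (fun k hk => by
          rw [Finset.mem_filter] at hk
          obtain ⟨i, -, hi⟩ := hk.2
          exact ⟨i, hi⟩)
    rw [hN']
    exact h1
  -- the second alternative
  have hmid2 : k ≤ u ∨
      N' + ((k + 1 + 4 * (t + 1 + 1) ^ 2) * (M + 1) + 3 * (t + 1 + 1) * d) ≤ (d + 2).choose 2 := by
    rcases hmid with h1 | h1 | h1
    · exact Or.inl h1
    · exact Or.inr h1
    · right
      by_cases hkt : k ≤ t
      · have hT : Three (t + 1) (K + 1) (M + 1) d B m := ⟨by omega, by omega, hd, hR, by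
          left
          rw [hK, max_eq_right hkt]⟩
        have h2 := hT.ns (by omega) (fun i => (hM i).trans (Nat.le_succ M))
          (fun i hi => (hk i hi).trans (by omega))
        have h3 : hPm d m ≠ 0 := by
          rw [← hPm_eq hp]
          intro h0
          have hfin : Module.Finite ℂ (linSys d p m) :=
            Submodule.finiteDimensional_of_le (linSys_le d p _)
          have h3 := Submodule.finrank_eq_zero.mp h0
          rw [h3] at hF
          exact hF0 hF
        omega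
      · have hKk : K = k := by rw [hK, max_eq_left (by omega)]
        have h4 : bigC B (t + 1) m ≤ N' := by
          rw [← hNe]
          unfold bigC
          refine Finset.sum_le_sum_of_subset (fun i hi => ?_)
          rw [Finset.mem_filter] at hi ⊢
          exact ⟨hi.1, hi.2.imp_right (fun h => by omega)⟩
        have hT : Three (t + 1) (K + 1) (M + 1) d B m := ⟨by omega, by omega, hd, hR, by
          right
          right
          rw [hKk]
          omega⟩
        have h2 := hT.ns (by omega) (fun i => (hM i).trans (Nat.le_succ M))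
          (fun i hi => (hk i hi).trans (by omega))
        have h3 : hPm d m ≠ 0 := by
          rw [← hPm_eq hp]
          intro h0
          have hfin : Module.Finite ℂ (linSys d p m) :=
            Submodule.finiteDimensional_of_le (linSys_le d p _)
          have h3 := Submodule.finrank_eq_zero.mp h0
          rw [h3] at hF
          exact hF0 hF
        omega
  have e0 : (t + 1 + 1) ^ 2 = t ^ 2 + 4 * t + 4 := by ring
  -- the structure `Three` for all the systems
  have hroom : t = K ∨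
      N' + ((K + 1 + 4 * (t + 1 + 1) ^ 2) * (M + 1) + 3 * (t + 1 + 1) * d) ≤ (d + 2).choose 2 := by
    by_cases hkt : k ≤ t
    · left
      rw [hK, max_eq_right hkt]
    · right
      have hKk : K = k := by rw [hK, max_eq_left (by omega)]
      rw [hKk]
      rcases hmid2 with h1 | h1
      · omega
      · exact h1
  have hThree : ∀ {κ : Type} [Fintype κ] [DecidableEq κ] (y : κ → ℕ) (j : {i // i ∈ U} ↪ κ),
      (∀ i, y (j i) = m i.1) → (∀ k, (∀ i, j i ≠ k) → y k ≤ t) →
      ∃ B' : Finset (Fin (Fintype.card κ)), Three (t + 1) (K + 1) (M + 1) d B' (fn y) ∧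
        (∀ x, fn y x ≤ M) ∧ (∀ x, x ∉ B' → fn y x ≤ K) ∧
        (t + 1 = K + 1 ∨ bigC B' (t + 1) (fn y) + ((K + 1 + 4 * (t + 1 + 1) ^ 2) * (M + 1) +
          3 * (t + 1 + 1) * d) ≤ (d + 2).choose 2) := by
    intro κ _ _ y j hy hyt
    have hb := hbigN y j hy hyt
    refine ⟨_, ⟨by omega, by omega, hd, rg_onB_emb hBU j hy hR, ?_⟩, fun x => ?_, fun x hx => ?_,
      ?_⟩
    · rcases hroom with h1 | h1
      · left
        rw [h1]
      · right
        left
        omega
    · unfold fn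
      by_cases hx : ∃ i, j i = (Fintype.equivFin κ).symm x
      · obtain ⟨i, hi⟩ := hx
        rw [← hi, hy]
        exact hM _
      · push Not at hx
        exact (hyt _ hx).trans htM
    · unfold fn
      by_cases hx' : ∃ i, j i = (Fintype.equivFin κ).symm x
      · obtain ⟨i, hi⟩ := hx'
        rw [← hi, hy]
        refine (hk _ (fun hiB => hx ?_)).trans hkK
        rw [Finset.mem_filter]
        exact ⟨Finset.mem_univ _, i, hiB, hi⟩
      · push Not at hx'
        exact (hyt _ hx').trans htK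
    · rcases hroom with h1 | h1
      · left
        rw [h1]
      · right
        omega
  -- the count
  have hcount : N' + 202 * (t + 1) ^ 2 + d + 2 ≤ (d + 2).choose 2 := by
    rcases hmid2 with h1 | h1
    · have hUB : U = B := by
        refine Finset.Subset.antisymm (fun i hi => ?_) hBU
        rcases (hUm i).mp hi with h2 | h2
        · exact h2
        · by_contra h3
          have := hk i h3
          omega
      have h2 : N' ≤ (d - 5 * (t + 1 + 1) ^ 2 + 2).choose 2 := by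
        have h3 := hR
        unfold Rg at h3
        rw [sum_onB, ← hUB, ← hN'] at h3
        omega
      obtain ⟨a, ha⟩ : ∃ a, a = 5 * (t + 1 + 1) ^ 2 := ⟨_, rfl⟩
      obtain ⟨e, he⟩ : ∃ e, e = d - 5 * (t + 1 + 1) ^ 2 := ⟨_, rfl⟩
      have h4 := zd_num (e := e) (w := t + 1) ha (by omega) (by omega)
      rw [← he] at h2
      have h5 : e + a = d := by omega
      rw [h5] at h4
      omega
    · have ht1' : 1 ≤ t := hu.trans hut
      have h2 : 3 * (32 * (t + 1 + 1) ^ 2) ≤ (t + 1 + 1) * d := by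
        calc 3 * (32 * (t + 1 + 1) ^ 2) ≤ (t + 1 + 1) * (32 * (t + 1 + 1) ^ 2) :=
              Nat.mul_le_mul_right _ (by omega)
          _ ≤ (t + 1 + 1) * d := Nat.mul_le_mul_left _ hd
      have h3 : 3 * (t + 1 + 1) * d = 3 * ((t + 1 + 1) * d) := by ring
      have h4 : 3 * d ≤ (t + 1 + 1) * d := Nat.mul_le_mul_right _ (by omega)
      have h5 : (t + 1) ^ 2 = t ^ 2 + 2 * t + 1 := by ring
      omega
  refine h r d u t p m U hp hu (fun i hi => by
    have := mt (hUm i).mpr hi
    rw [not_or] at this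
    omega) ht1 ?_ ?_ (fun i hi => ?_) (by omega) ?_ s hs F hF hF0 hFs
  · intro κ _ _ y j hy hyt q hq
    obtain ⟨B', hT, h1, h2, -⟩ := hThree y j hy hyt
    have h3 := hT.ns (by omega) (fun x => (h1 x).trans (Nat.le_succ M))
      (fun x hx => (h2 x hx).trans (Nat.le_succ K))
    rw [finrank_eq_hPm hq, h3, sum_fn y (fun n => (n + 1).choose 2)]
  · intro κ _ _ y j hy hyt hS
    obtain ⟨B', hT, h1, h2, hr⟩ := hThree y j hy hyt
    have h3 := hT.low hKM h1 h2 hr (z := fn y) (fun _ => le_rfl)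
    have h0 := sum_le_of_few j hy hyt hS
    obtain ⟨e, rfl⟩ : ∃ e, d = e + 1 := ⟨d - 1, by omega⟩
    rw [Nat.add_sub_cancel] at h3
    apply free_of_Reg
    refine reg_of_ns h3 ?_
    rw [← hN'] at h0
    have e1 := zd_two t
    have e2 : (t + 1) ^ 2 = t ^ 2 + 2 * t + 1 := by ring
    have e3 : (e + 1 + 2).choose 2 = (e + 2).choose 2 + (e + 2) := by
      rw [show e + 1 + 2 = e + 2 + 1 by ring, Nat.choose_succ_succ' (e + 2) 1,
        Nat.choose_one_right, add_comm]
    omega
  · have h1 : (m i + 1).choose 2 ≤ N' := by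
      rw [hN']
      exact Finset.single_le_sum (f := fun i => (m i + 1).choose 2) (fun _ _ => Nat.zero_le _) hi
    by_contra hcon
    have h2 : (d + 1).choose 2 ≤ (m i + 1).choose 2 := Nat.choose_le_choose 2 (by omega)
    have e3 : (d + 2).choose 2 = (d + 1).choose 2 + (d + 1) := by
      rw [Nat.choose_succ_succ' (d + 1) 1, Nat.choose_one_right, add_comm]
    omega
  · have h1 : c * (u : ℝ) ^ (2 + ε) ≤ (t : ℝ) ^ 2 := by
      have h2 : (u : ℝ) ^ (2 + ε) = (u : ℝ) ^ (1 + ε) * u := by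
        rw [show (2 : ℝ) + ε = (1 + ε) + 1 by ring, Real.rpow_add hu0, Real.rpow_one]
      rw [h2, ← mul_assoc, pow_two]
      have hut' : (u : ℝ) ≤ t := by exact_mod_cast hut
      exact mul_le_mul ht1 hut' hu0.le (Nat.cast_nonneg t)
    have e2 : (t + 1) ^ 2 = t ^ 2 + 2 * t + 1 := by ring
    have h3 : t ^ 2 + N' + 1 ≤ (d + 2).choose 2 := by omega
    have h4 : ((t ^ 2 + N' + 1 : ℕ) : ℝ) ≤ ((d + 2).choose 2 : ℕ) := by exact_mod_cast h3
    have h5 : ∑ i ∈ U, ((m i + 1).choose 2 : ℝ) = N' := by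
      rw [hN']
      push_cast
      rfl
    push_cast at h4
    rw [h5]
    push_cast
    linarith

end Pool.Agent.Work.MP_0421d9_ag.ZE
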