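import Pool.Agent.Work.MP_0421d9_ag.ZECore

/-!
Collisions of generic points, relative version: the flag level.
-/

set_option linter.unusedSectionVars false
set_option linter.unusedVariables false

namespace Pool.Agent.Work.MP_0421d9_ag.ZE

open MvPolynomial Module SM ZC

variable {ι Λ : Type} [Fintype ι] [Fintype Λ] [DecidableEq ι] [DecidableEq Λ] {d M : ℕ}
  {m : ι → ℕ} {U : Finset ι} {μ w s Mv : Λ → ℕ} {v : ∀ l, Fin (s l) → ℕ}

theorem Dat.finrank_w (S : Dat d M m U μ w s Mv v) {p : ι → V3} {P : Λ → V3} {c : Λ → ℂ}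
    (hX : Ind (Sum.elim p P) c) {w' : Λ → ℕ} (hw' : ∀ l, w' l ≤ μ l + 1) :
    finrank ℂ (FS d p m P μ c w') = (d + 2).choose 2 -
      (∑ i, (m i + 1).choose 2 + ∑ l, (μ l + 1).choose 2 + ∑ l, w' l) := by
  refine finrank_FS hX (fun i => ?_) (fun μ' h => S.hN _ ⟨h, ∅, by simp, ?_, fun i _ => rfl⟩)
    (fun l => ?_) hw'
  · have := S.hmd i
    omega
  · intro i hi
    exact absurd hi (Finset.notMem_empty i)
  · have := S.hμd l
    omega

theorem Dat.flag_exact (S : Dat d M m U μ w s Mv v) {p : ι → V3} {P : Λ → V3} {c : Λ → ℂ}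
    (hX : Ind (Sum.elim p P) c) {F : R3} (hF : F ∈ FS d p m P μ c w) (hF0 : F ≠ 0) (l : Λ) :
    fd d (μ l) (P l) (c l) (w l) F ≠ 0 := by
  intro h
  have h1 := S.finrank_w hX (w' := Function.update w l (w l + 1)) (by
    intro l'
    by_cases h' : l' = l
    · rw [h', Function.update_self]
      have := S.w_le l
      omega
    · rw [Function.update_of_ne h']
      have := S.w_le l'
      omega)
  have h2 : ∑ l', Function.update w l (w l + 1) l' = ∑ l', w l' + 1 := by
    rw [← Finset.add_sum_erase Finset.univ _ (Finset.mem_univ l), Function.update_self,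
      ← Finset.add_sum_erase Finset.univ w (Finset.mem_univ l)]
    rw [Finset.sum_congr rfl (fun l' hl' => Function.update_of_ne (Finset.ne_of_mem_erase hl') _ _)]
    ring
  have h3 := S.hχ
  rw [h2] at h1
  have h4 : finrank ℂ (FS d p m P μ c (Function.update w l (w l + 1))) = 0 := by
    rw [h1]
    omega
  have hfin := finite_of_le_Rd (FS_le_Rd (d := d) (p := p) (m := m) (P := P) (μ := μ) (c := c)
    (w := Function.update w l (w l + 1)))
  have h5 : FS d p m P μ c (Function.update w l (w l + 1)) = ⊥ := Submodule.finrank_eq_zero.mp h4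
  have h6 : F ∈ FS d p m P μ c (Function.update w l (w l + 1)) := by
    refine ⟨hF.1, fun l' i hi => ?_⟩
    by_cases h' : l' = l
    · subst h'
      rw [Function.update_self] at hi
      by_cases hi' : i = w l'
      · rw [hi']
        exact h
      · exact hF.2 l' i (by omega)
    · rw [Function.update_of_ne h'] at hi
      exact hF.2 l' i hi
  rw [h5, Submodule.mem_bot] at h6
  exact hF0 h6

theorem Dat.flag_uniq (S : Dat d M m U μ w s Mv v) {p : ι → V3} {P : Λ → V3} {c : Λ → ℂ}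
    (hX : Ind (Sum.elim p P) c) {F : R3} (hF : F ∈ FS d p m P μ c w) (hF0 : F ≠ 0) {H : R3}
    (hH : H ∈ FS d p m P μ c w) : ∃ a : ℂ, H = a • F := by
  have h1 := S.finrank_w hX (w' := w) (fun l => by have := S.w_le l; omega)
  have h3 := S.hχ
  have h4 : finrank ℂ (FS d p m P μ c w) = 1 := by
    rw [h1]
    omega
  have hne : (⟨F, hF⟩ : FS d p m P μ c w) ≠ 0 := fun h => hF0 (congrArg Subtype.val h)
  obtain ⟨a, ha⟩ := (finrank_eq_one_iff_of_nonzero' _ hne).mp h4 ⟨H, hH⟩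
  exact ⟨a, (congrArg Subtype.val ha).symm⟩

/-- the forms in the separation of the flags satisfy the conditions of the points in `V` and of
the flags in `Y` -/
theorem sepY_mem {p : ι → V3} {P : Λ → V3} {c : Λ → ℂ} {V : Finset ι} {Y : Finset Λ} {l : Λ}
    (hP : ∀ l, P l 2 ≠ 0) (hμd : ∀ l, μ l + 2 ≤ d) (hl : l ∉ Y) {H : R3}
    (hH : H ∈ linSys d (Sum.elim p P) (sepY m V μ l)) :
    H ∈ FS d (fun a : {a // a ∈ V} => p a.1) (fun a => m a.1) P μ c
      (fun l => if l ∈ Y then w l else 0) := by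
  have h1 : ∀ l', VanishTo H (P l') (if l' = l then μ l' else μ l' + 2) := fun l' =>
    hH.2 (Sum.inr l')
  refine ⟨⟨hH.1, ?_⟩, fun l' i hi => ?_⟩
  · rintro (a | l')
    · have h2 : VanishTo H (p a.1) (if a.1 ∈ V then m a.1 else 0) := hH.2 (Sum.inl a.1)
      rw [if_pos a.2] at h2
      exact h2
    · refine (h1 l').mono ?_
      change μ l' ≤ _
      split_ifs <;> omega
  · by_cases hl' : l' ∈ Y
    · have hne : l' ≠ l := fun h => hl (h ▸ hl')
      have h2 := h1 l'
      rw [if_neg hne] at h2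
      exact fd_zero_of_vanishTo hH.1 (hP l') (by have := hμd l'; omega)
        (h2.mono (Nat.le_succ _)) _ _
    · simp only [if_neg hl'] at hi
      exact absurd hi (Nat.not_lt_zero i)

/-- **The chain theorem for graphs.** -/
theorem Dat.graph (S : Dat d M m U μ w s Mv v) {p : ι → V3} {P : Λ → V3} {c : Λ → ℂ}
    (hX : Ind (Sum.elim p P) c) (V : Finset ι) (hUV : U ⊆ V) (Y : Finset Λ)
    (hVY : (V \ U).card + Y.card ≤ 1) {n N : ℕ} (hn : n ≤ 3)
    {Θ : R3 →ₗ[ℂ] MvPolynomial (Fin n) ℂ} {W : Submodule ℂ R3}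
    (hW : W = FS d (fun a : {a // a ∈ V} => p a.1) (fun a => m a.1) P μ c
      (fun l => if l ∈ Y then w l else 0))
    (hΘN : ∀ H ∈ W, (Θ H).IsHomogeneous N)
    (hΘD : ∀ Δ : Derivation ℚ ℂ ℂ, (∀ l k, Δ (P l k) = 0) → (∀ a ∈ V, ∀ k, Δ (p a k) = 0) →
      (∀ l ∈ Y, Δ (c l) = 0) → ∀ H ∈ W, Θ (cD Δ H) = cD Δ (Θ H))
    {q : Fin n → ℂ} (hq : q ≠ 0)
    (hκ : ∀ l ∉ Y, (∀ H ∈ linSys d (Sum.elim p P) (sepY m V μ l), eval q (Θ H) = 0) ∨
      ∃ H ∈ linSys d (Sum.elim p P) (sepY m V μ l), VanishTo H (P l) (μ l + 1) ∧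
        eval q (Θ H) ≠ 0)
    (hbpf : ∀ T : Finset ι, T.card ≤ 1 → (∀ i ∈ T, i ∉ V) → ∃ H ∈ W,
      (∀ i ∈ T, VanishTo H (p i) (m i)) ∧ eval q (Θ H) ≠ 0)
    {F : R3} (hF : F ∈ FS d p m P μ c w) (hF0 : F ≠ 0)
    (h0 : eval q (Θ F) = 0) (h1 : ∀ k, eval q (pderiv k (Θ F)) = 0) : False := by
  classical
  obtain ⟨E, D, hE, -, -⟩ := exists_ders (ind_empty hX)
  have hg : GenericPoints (Sum.elim p P) := Ind.gen hX
  have hP2 : ∀ l, P l 2 ≠ 0 := fun l => by
    have h2 := hg.ne_zero (Sum.inr l, 2)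
    exact h2
  have hWR : W ≤ Rd d := by
    rw [hW]
    exact FS_le_Rd
  have hwY : ∀ l, (if l ∈ Y then w l else 0) ≤ w l := fun l => by split_ifs <;> omega
  have hWst : ∀ Δ : Derivation ℚ ℂ ℂ, (∀ l k, Δ (P l k) = 0) →
      (∀ a ∈ V, ∀ k, Δ (p a k) = 0) → (∀ l ∈ Y, Δ (c l) = 0) → ∀ H ∈ W, cD Δ H ∈ W := by
    intro Δ h1 h2 h3 H hH
    rw [hW] at hH ⊢
    exact FS_stable' Δ h1 h2 h3 hH
  -- members of the whole system
  have hFS : ∀ H ∈ W, (∀ i ∉ V, VanishTo H (p i) (m i)) → (∀ l ∉ Y, ∀ j < w l,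
      fd d (μ l) (P l) (c l) j H = 0) → H ∈ FS d p m P μ c w := by
    intro H hH hv hf
    rw [hW] at hH
    refine ⟨⟨hH.1.1, ?_⟩, fun l i hi => ?_⟩
    · rintro (i | l)
      · by_cases hi : i ∈ V
        · exact hH.1.2 (Sum.inl ⟨i, hi⟩)
        · exact hv i hi
      · exact hH.1.2 (Sum.inr l)
    · by_cases hl : l ∈ Y
      · exact hH.2 l i (by simp only [if_pos hl]; exact hi)
      · exact hf l hl i hi
  have hFW : F ∈ W := by
    rw [hW]
    refine ⟨⟨hF.1.1, ?_⟩, fun l i hi => hF.2 l i (lt_of_lt_of_le hi (hwY l))⟩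
    rintro (a | l)
    · exact hF.1.2 (Sum.inl a.1)
    · exact hF.1.2 (Sum.inr l)
  have hfinV : Module.Finite ℂ (VV d (fun i : {i // i ∉ V} => p i.1) (GB W Θ)
      (fun i => m i.1)) := by
    have hfin := finite_of_le_Rd hWR
    let L : W →ₗ[ℂ] (R3 × MvPolynomial (Fin n) ℂ) :=
      (LinearMap.prod LinearMap.id Θ).comp W.subtype
    have h2 : VV d (fun i : {i // i ∉ V} => p i.1) (GB W Θ) (fun i => m i.1) ≤
        LinearMap.range L := by
      rintro H ⟨⟨h3, h4⟩, -⟩
      refine ⟨⟨H.1, h3⟩, ?_⟩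
      exact Prod.ext rfl h4.symm
    exact Submodule.finiteDimensional_of_le h2
  refine S.core (BB := GB W Θ) (N := N) (F := (F, Θ F)) hg hE V hUV Y (by omega) hn ?_ ?_ ?_ ?_
    hq ?_ ?_ ?_ ⟨hFW, rfl⟩ (fun i _ => hF.1.2 (Sum.inl i)) (fun l _ j hj => hF.2 l j hj)
    (fun l _ => S.flag_exact hX hF hF0 l) ?_ ?_ h0 h1
  · intro H hH
    have h2 := hH.1
    rw [hW] at h2
    exact ⟨h2.1.1, fun l => h2.1.2 (Sum.inr l)⟩
  · intro H hH
    rw [hH.2]
    exact hΘN _ hH.1
  · intro i hi k H hH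
    have hia : ∀ a ∈ V, i ≠ a := by
      rintro a ha rfl
      exact hi ha
    refine ⟨?_, ?_⟩
    · exact hWst (E i k) (hE.EP i k) (fun a ha k' => hE.Ej (hia a ha) k k')
        (fun l _ => hE.Ec i k l) H.1 hH.1
    · change cD (E i k) H.2 = Θ (cD (E i k) H.1)
      rw [hH.2, hΘD (E i k) (hE.EP i k) (fun a ha k' => hE.Ej (hia a ha) k k')
        (fun l _ => hE.Ec i k l) _ hH.1]
  · intro l hl H hH
    have hlY : ∀ l' ∈ Y, l ≠ l' := by
      rintro l' hl' rfl
      exact hl hl'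
    refine ⟨?_, ?_⟩
    · exact hWst (D l) (hE.DP l) (fun a _ k' => hE.Dp l a k')
        (fun l' hl' => hE.Dc' l l' (hlY l' hl')) H.1 hH.1
    · change cD (D l) H.2 = Θ (cD (D l) H.1)
      rw [hH.2, hΘD (D l) (hE.DP l) (fun a ha k' => hE.Dp l a k')
        (fun l' hl' => hE.Dc' l l' (hlY l' hl')) _ hH.1]
  · intro H hH hY hV
    refine ⟨Θ H, ?_, rfl⟩
    change H ∈ W
    rw [hW]
    refine ⟨⟨hH.1, ?_⟩, fun l i hi => ?_⟩
    · rintro (a | l)
      · exact hV a.1 a.2
      · exact hH.2 l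
    · by_cases hl : l ∈ Y
      · exact fd_zero_of_vanishTo hH.1 (hP2 l) (by have := S.hμd l; omega) (hY l hl) _ _
      · have hi' : i < (if l ∈ Y then w l else 0) := hi
        rw [if_neg hl] at hi'
        exact absurd hi' (Nat.not_lt_zero i)
  · intro l hl j hj
    let κ : R3 →ₗ[ℂ] ℂ :=
      { toFun := fun H => eval q (Θ H)
        map_add' := fun x y => by rw [map_add, map_add]
        map_smul' := fun r x => by rw [map_smul, smul_eval, RingHom.id_apply, smul_eq_mul] }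
    obtain ⟨H, h2, h3, h4, h5, h6⟩ := S.sep (c := c) hg hUV (by omega) hj κ (hκ l hl)
    refine ⟨(H, Θ H), ⟨?_, rfl⟩, h3, h4, fun l' _ hne => h5 l' hne, h6⟩
    change H ∈ W
    rw [hW]
    exact sepY_mem hP2 S.hμd hl h2
  · intro T hT hTZ
    obtain ⟨H, hH, h2, h3⟩ := hbpf T hT hTZ
    exact ⟨(H, Θ H), ⟨hH, rfl⟩, h2, h3⟩
  · intro H hH hv hf
    obtain ⟨a, ha⟩ := S.flag_uniq hX hF hF0 (hFS H.1 hH.1 hv hf)
    refine ⟨a, Prod.ext ha ?_⟩
    rw [hH.2, ha, map_smul]
    rfl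
  · have h2 := S.finrank_w hX (w' := fun l => if l ∈ Y then w l else 0)
      (fun l => by have := S.w_le l; have := hwY l; omega)
    have h3 := finrank_le_of_inj (W := FS d p m P μ c (fun l => if l ∈ Y then w l else 0))
      FS_le_Rd hfinV Θ (by
        intro H hH
        have hHW : H ∈ W := by
          rw [hW]
          refine ⟨⟨hH.1.1, ?_⟩, hH.2⟩
          rintro (a | l)
          · exact hH.1.2 (Sum.inl a.1)
          · exact hH.1.2 (Sum.inr l)
        exact ⟨⟨hHW, rfl⟩, hH.1.1, fun i => hH.1.2 (Sum.inl i.1)⟩)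
    have h4 : ∑ l, w l = ∑ l, (if l ∈ Y then w l else 0) + ∑ l : {l // l ∉ Y}, w l.1 := by
      rw [← Finset.sum_subtype (Finset.univ.filter (fun l => l ∉ Y)) (p := fun l => l ∉ Y)
        (fun x => by simp) w, Finset.sum_filter, ← Finset.sum_add_distrib]
      refine Finset.sum_congr rfl (fun l _ => ?_)
      by_cases hl : l ∈ Y
      · rw [if_pos hl, if_neg (not_not.mpr hl), add_zero]
      · rw [if_neg hl, if_pos hl, zero_add]
    have h5 := S.hχ
    rw [h2] at h3
    omega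

/-- the multiplicities when at most one movable point is left: `m` at the points of `V` and `T`,
`ν` at the points of collision, no condition at the other points -/
def dropY (m : ι → ℕ) (V T : Finset ι) (ν : Λ → ℕ) : ι ⊕ Λ → ℕ :=
  Sum.elim (fun i => if i ∈ V ∪ T then m i else 0) ν

theorem Dat.free_drop (S : Dat d M m U μ w s Mv v) {V T : Finset ι} (hUV : U ⊆ V)
    (hVT : (V \ U).card + T.card ≤ 2) {ν : Λ → ℕ} (hν : ∀ l, μ l ≤ ν l ∧ ν l ≤ μ l + 2) :
    Free d (dropY m V T ν) := by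
  apply S.hF
  refine far_of hUV hν (T := T) hVT (fun i hi => ?_) (fun i hi _ => ?_) (fun i hi hV => ?_)
  · unfold dropY
    rw [Sum.elim_inl, if_pos (Finset.mem_union_left _ hi)]
  · unfold dropY
    rw [Sum.elim_inl, if_pos (Finset.mem_union_right _ hi)]
  · unfold dropY
    rw [Sum.elim_inl, if_neg]
    rw [Finset.mem_union]
    push Not
    exact ⟨hV, hi⟩

theorem sepY_succ (V : Finset ι) (l : Λ) : Function.update (sepY m V μ l) (Sum.inr l) (μ l + 1) =
    dropY m V ∅ (fun l' => if l' = l then μ l' + 1 else μ l' + 2) := by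
  funext x
  rcases x with i | l'
  · rw [Function.update_of_ne (by simp)]
    unfold sepY dropY
    rw [Sum.elim_inl, Sum.elim_inl, Finset.union_empty]
  · by_cases h : l' = l
    · subst h
      rw [Function.update_self]
      unfold dropY
      rw [Sum.elim_inr, if_pos rfl]
    · rw [Function.update_of_ne (by simpa using h)]
      unfold sepY dropY
      rw [Sum.elim_inr, Sum.elim_inr, if_neg h, if_neg h]

/-- a member of a smaller system, for the separation of the flags -/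
theorem sep_witness {p : ι → V3} {P : Λ → V3} {V : Finset ι} {l : Λ} {H : R3}
    (hH : H ∈ linSys d (Sum.elim p P)
      (dropY m V ∅ (fun l' => if l' = l then μ l' + 1 else μ l' + 2))) :
    H ∈ linSys d (Sum.elim p P) (sepY m V μ l) ∧ VanishTo H (P l) (μ l + 1) := by
  have hl : VanishTo H (P l) (if l = l then μ l + 1 else μ l + 2) := hH.2 (Sum.inr l)
  rw [if_pos rfl] at hl
  refine ⟨⟨hH.1, fun x => ?_⟩, hl⟩
  refine (hH.2 x).mono ?_
  rw [← sepY_succ]
  by_cases hx : x = Sum.inr l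
  · rw [hx, Function.update_self]
    unfold sepY
    rw [Sum.elim_inr, if_pos rfl]
    exact Nat.le_succ _
  · rw [Function.update_of_ne hx]

end Pool.Agent.Work.MP_0421d9_ag.ZE
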