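import Pool.Agent.Work.MP_0421d9_ag.ZEFlag

/-!
Collisions of generic points, relative version: the flag level, the four cases.
-/

set_option linter.unusedSectionVars false
set_option linter.unusedVariables false

namespace Pool.Agent.Work.MP_0421d9_ag.ZE

open MvPolynomial Module SM ZC

variable {ι Λ : Type} [Fintype ι] [Fintype Λ] [DecidableEq ι] [DecidableEq Λ] {d M : ℕ}
  {m : ι → ℕ} {U : Finset ι} {μ w s Mv : Λ → ℕ} {v : ∀ l, Fin (s l) → ℕ}

theorem dropY_inl {V T : Finset ι} {ν : Λ → ℕ} {i : ι} (hi : i ∈ V ∪ T) :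
    dropY m V T ν (Sum.inl i) = m i := by
  unfold dropY
  rw [Sum.elim_inl, if_pos hi]

theorem dropY_mem {p : ι → V3} {P : Λ → V3} {V T : Finset ι} {ν : Λ → ℕ} {H : R3}
    (hH : H ∈ linSys d (Sum.elim p P) (dropY m V T ν)) :
    (∀ i ∈ V ∪ T, VanishTo H (p i) (m i)) ∧ ∀ l, VanishTo H (P l) (ν l) := by
  refine ⟨fun i hi => ?_, fun l => hH.2 (Sum.inr l)⟩
  have h1 := hH.2 (Sum.inl i)
  rw [dropY_inl hi] at h1
  exact h1

theorem Dat.flag_sing [Nonempty Λ] (S : Dat d M m U μ w s Mv v) {p : ι → V3} {P : Λ → V3}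
    {c : Λ → ℂ} (hX : Ind (Sum.elim p P) c) {F : R3} (hF : F ∈ FS d p m P μ c w) (hF0 : F ≠ 0) :
    ¬ Sing (Sum.elim p P) F := by
  classical
  rintro ⟨q, hq, hqp, hs⟩
  have hg : GenericPoints (Sum.elim p P) := Ind.gen hX
  have hd1 : 1 ≤ d := by
    obtain ⟨l⟩ := ‹Nonempty Λ›
    have := S.hμd l
    omega
  refine S.graph hX U (Finset.Subset.refl U) ∅ (by simp) (n := 3) (N := d) le_rfl
    (Θ := LinearMap.id)
    (W := FS d (fun a : {a // a ∈ U} => p a.1) (fun a => m a.1) P μ c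
      (fun l => if l ∈ (∅ : Finset Λ) then w l else 0)) rfl (fun H hH => hH.1.1)
    (fun Δ _ _ _ H _ => rfl) hq (fun l _ => Or.inr ?_) ?_ hF hF0
    (eval_zero_of_grad hd1 hF.1.1 hs) hs
  · obtain ⟨H, hH, hHq⟩ := (S.free_drop (V := U) (T := ∅) (Finset.Subset.refl U) (by simp)
      (ν := fun l' => if l' = l then μ l' + 1 else μ l' + 2)
      (fun l' => by split_ifs <;> omega)).bp _ hg q hq hqp
    obtain ⟨h1, h2⟩ := sep_witness hH
    exact ⟨H, h1, h2, hHq⟩
  · intro T hT _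
    obtain ⟨H, hH, hHq⟩ := (S.free_drop (V := U) (T := T) (Finset.Subset.refl U)
      (by rw [Finset.sdiff_self, Finset.card_empty]; omega)
      (ν := μ) (fun l' => ⟨le_rfl, Nat.le_add_right _ _⟩)).bp _ hg q hq hqp
    obtain ⟨h1, h2⟩ := dropY_mem hH
    refine ⟨H, ⟨⟨hH.1, ?_⟩, fun l i hi => ?_⟩, fun i hi => h1 i (Finset.mem_union_right _ hi),
      hHq⟩
    · rintro (a | l)
      · exact h1 a.1 (Finset.mem_union_left _ a.2)
      · exact h2 l
    · simp at hi

theorem Dat.flag_tang (S : Dat d M m U μ w s Mv v) {p : ι → V3} {P : Λ → V3} {c : Λ → ℂ}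
    (hX : Ind (Sum.elim p P) c) {F : R3} (hF : F ∈ FS d p m P μ c w) (hF0 : F ≠ 0) :
    ¬ Tang d p m F := by
  classical
  rintro ⟨a, u, hu, hbad⟩
  have hg : GenericPoints (Sum.elim p P) := Ind.gen hX
  have hma := S.hmd a
  have hp2 : p a 2 ≠ 0 := hg.ne_zero (Sum.inl a, 2)
  obtain ⟨y, hy, hy0, hy1⟩ : ∃ y : V2, y ≠ 0 ∧ eval y (ld d (m a) (p a) F) = 0 ∧
      ∀ k, eval y (pderiv k (ld d (m a) (p a) F)) = 0 := by
    rcases Nat.eq_zero_or_pos (m a) with h0 | hpos
    · have h1 := (badDir_zero_iff hF.1.1 hp2).mp ⟨u, hu, by rw [h0] at hbad; exact hbad⟩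
      refine ⟨![1, 0], ?_, ?_, ?_⟩
      · intro h
        exact one_ne_zero (congrFun h 0)
      · rw [h0, h1, map_zero]
      · intro k
        rw [h0, h1, map_zero, map_zero]
    · obtain ⟨y, hy, hy1⟩ := (badDir_iff_ld hF.1.1 hp2 hpos (by omega)
        (hF.1.2 (Sum.inl a))).mp ⟨u, hu, hbad⟩
      exact ⟨y, hy, eval_zero_of_grad hpos (ld_hom hF.1.1 (by omega) _) hy1, hy1⟩
  have hUV : U ⊆ insert a U := Finset.subset_insert a U
  have hcard : (insert a U \ U).card ≤ 1 := by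
    refine (Finset.card_le_card (t := {a}) ?_).trans (by simp)
    intro x hx
    rw [Finset.mem_sdiff, Finset.mem_insert] at hx
    rw [Finset.mem_singleton]
    exact hx.1.resolve_right hx.2
  have haV : a ∈ insert a U := Finset.mem_insert_self a U
  refine S.graph hX (insert a U) hUV ∅ (by simpa using hcard) (n := 2) (N := m a) (by omega)
    (Θ := ld d (m a) (p a))
    (W := FS d (fun b : {b // b ∈ insert a U} => p b.1) (fun b => m b.1) P μ c
      (fun l => if l ∈ (∅ : Finset Λ) then w l else 0)) rfl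
    (fun H hH => ld_hom hH.1.1 (by omega) _)
    (fun Δ _ h _ H _ => (cD_ld Δ (h a haV) d (m a) H).symm) hy (fun l _ => Or.inr ?_) ?_
    hF hF0 hy0 hy1
  · obtain ⟨β, hβ, hβy⟩ := exists_binary hy (m a)
    have hda : dropY m (insert a U) ∅ (fun l' => if l' = l then μ l' + 1 else μ l' + 2)
        (Sum.inl a) = m a := dropY_inl (Finset.mem_union_left _ haV)
    obtain ⟨H, hH, hHl⟩ := (S.free_drop (V := insert a U) (T := ∅) hUV
      (by rw [Finset.card_empty]; omega)
      (ν := fun l' => if l' = l then μ l' + 1 else μ l' + 2)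
      (fun l' => by split_ifs <;> omega)).lf _ hg (Sum.inl a) β (by rw [hda]; exact hβ)
    rw [hda] at hHl
    have hHl' : ld d (m a) (p a) H = β := hHl
    obtain ⟨h1, h2⟩ := sep_witness hH
    exact ⟨H, h1, h2, by rw [hHl']; exact hβy⟩
  · intro T hT hTa
    obtain ⟨β, hβ, hβy⟩ := exists_binary hy (m a)
    have hda : dropY m (insert a U) T μ (Sum.inl a) = m a :=
      dropY_inl (Finset.mem_union_left _ haV)
    obtain ⟨H, hH, hHl⟩ := (S.free_drop (V := insert a U) (T := T) hUV (by omega)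
      (ν := μ) (fun l' => ⟨le_rfl, Nat.le_add_right _ _⟩)).lf _ hg (Sum.inl a) β
      (by rw [hda]; exact hβ)
    rw [hda] at hHl
    have hHl' : ld d (m a) (p a) H = β := hHl
    obtain ⟨h1, h2⟩ := dropY_mem hH
    refine ⟨H, ⟨⟨hH.1, ?_⟩, fun l i hi => ?_⟩, fun i hi => h1 i (Finset.mem_union_right _ hi),
      by rw [hHl']; exact hβy⟩
    · rintro (b | l)
      · exact h1 b.1 (Finset.mem_union_left _ b.2)
      · exact h2 l
    · simp at hi

/-- a multiple tangent at a point of collision is the flag direction -/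
theorem Dat.flag_dir (S : Dat d M m U μ w s Mv v) {p : ι → V3} {P : Λ → V3} {c : Λ → ℂ}
    (hX : Ind (Sum.elim p P) c) {F : R3} (hF : F ∈ FS d p m P μ c w) (hF0 : F ≠ 0) {l₀ : Λ}
    {y : V2} (hy : y ≠ 0) (h : ∀ k, eval y (pderiv k (ld d (μ l₀) (P l₀) F)) = 0) :
    y 0 = c l₀ * y 1 := by
  classical
  by_contra hne
  have hg : GenericPoints (Sum.elim p P) := Ind.gen hX
  have hμd := S.hμd l₀
  have hwl := S.w_le l₀
  have hP2 : P l₀ 2 ≠ 0 := hg.ne_zero (Sum.inr l₀, 2)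
  refine S.graph hX U (Finset.Subset.refl U) {l₀} (by simp) (n := 2) (N := μ l₀) (by omega)
    (Θ := ld d (μ l₀) (P l₀))
    (W := FS d (fun b : {b // b ∈ U} => p b.1) (fun b => m b.1) P μ c
      (fun l => if l ∈ ({l₀} : Finset Λ) then w l else 0)) rfl
    (fun H hH => ld_hom hH.1.1 (by omega) _)
    (fun Δ h _ _ H _ => (cD_ld Δ (h l₀) d (μ l₀) H).symm) hy (fun l hl => Or.inl ?_) ?_ hF hF0
    (eval_zero_of_grad (by omega) (ld_hom hF.1.1 (by omega) _) h) h
  · intro H hH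
    have hne' : l₀ ≠ l := fun h => hl (by rw [h]; exact Finset.mem_singleton_self l)
    have h1 : VanishTo H (P l₀) (if l₀ = l then μ l₀ else μ l₀ + 2) := hH.2 (Sum.inr l₀)
    rw [if_neg hne'] at h1
    rw [(vanishTo_iff_ld hH.1 hP2 (by omega)).mp h1 (μ l₀) (by omega), map_zero]
  · intro T hT _
    obtain ⟨γ, hγ, hγy⟩ := exists_binary hy (μ l₀ - w l₀)
    have hlin : (X 0 - C (c l₀) * X 1 : R2).IsHomogeneous 1 :=
      (isHomogeneous_X ℂ 0).sub ((isHomogeneous_X ℂ 1).C_mul _)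
    have hβ : ((X 0 - C (c l₀) * X 1) ^ w l₀ * γ : R2).IsHomogeneous (μ l₀) := by
      have h1 := (hlin.pow (w l₀)).mul hγ
      rwa [one_mul, (by omega : w l₀ + (μ l₀ - w l₀) = μ l₀)] at h1
    obtain ⟨H, hH, h4⟩ := (S.free_drop (V := U) (T := T) (Finset.Subset.refl U)
      (by rw [Finset.sdiff_self, Finset.card_empty]; omega)
      (ν := μ) (fun l' => ⟨le_rfl, Nat.le_add_right _ _⟩)).lf _ hg (Sum.inr l₀) _ hβ
    have h4' : ld d (μ l₀) (P l₀) H = (X 0 - C (c l₀) * X 1) ^ w l₀ * γ := h4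
    obtain ⟨h1, h2⟩ := dropY_mem hH
    refine ⟨H, ⟨⟨hH.1, ?_⟩, fun l i hi => ?_⟩, fun i hi => h1 i (Finset.mem_union_right _ hi),
      ?_⟩
    · rintro (b | l)
      · exact h1 b.1 (Finset.mem_union_left _ b.2)
      · exact h2 l
    · by_cases hl : l = l₀
      · subst hl
        have hi' : i < w l := by
          simp at hi
          exact hi
        rw [fd_eq, h4']
        obtain ⟨γ', hγ'⟩ := iterate_factor (c l) (w l) i hi'.le γ
        rw [hγ', map_mul, map_pow]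
        have h5 : eval ![c l, 1] (X 0 - C (c l) * X 1 : R2) = 0 := by simp
        rw [h5, zero_pow (by omega), zero_mul]
      · have hi' : i < 0 := by simp [hl] at hi
        exact absurd hi' (Nat.not_lt_zero i)
    · rw [h4', map_mul, map_pow]
      refine mul_ne_zero (pow_ne_zero _ ?_) hγy
      intro h5
      apply hne
      have h6 : eval y (X 0 - C (c l₀) * X 1 : R2) = y 0 - c l₀ * y 1 := by simp
      rw [h6] at h5
      exact sub_eq_zero.mp h5

/-- the strict transform is smooth at the flag direction -/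
theorem Dat.flag_next (S : Dat d M m U μ w s Mv v) {p : ι → V3} {P : Λ → V3} {c : Λ → ℂ}
    (hX : Ind (Sum.elim p P) c) {F : R3} (hF : F ∈ FS d p m P μ c w) (hF0 : F ≠ 0) (l₀ : Λ) :
    eval ![c l₀, 1] (ld d (μ l₀ + 1) (P l₀) F) ≠ 0 := by
  classical
  intro hzero
  have hg : GenericPoints (Sum.elim p P) := Ind.gen hX
  have hμd := S.hμd l₀
  have hP2 : P l₀ 2 ≠ 0 := hg.ne_zero (Sum.inr l₀, 2)
  have hΘa : ∀ H : R3, ((Algebra.linearMap ℂ (MvPolynomial (Fin 1) ℂ)).comp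
      (fd d (μ l₀ + 1) (P l₀) (c l₀) 0)) H = C (fd d (μ l₀ + 1) (P l₀) (c l₀) 0 H) :=
    fun H => rfl
  have hF1 : fd d (μ l₀ + 1) (P l₀) (c l₀) 0 F = 0 := hzero
  refine S.graph hX U (Finset.Subset.refl U) {l₀} (by simp) (n := 1) (N := 0) (by omega)
    (Θ := (Algebra.linearMap ℂ (MvPolynomial (Fin 1) ℂ)).comp
      (fd d (μ l₀ + 1) (P l₀) (c l₀) 0))
    (W := FS d (fun b : {b // b ∈ U} => p b.1) (fun b => m b.1) P μ c
      (fun l => if l ∈ ({l₀} : Finset Λ) then w l else 0)) rfl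
    (fun H hH => by rw [hΘa]; exact isHomogeneous_C _ _) ?_ (q := fun _ => 1)
    (fun h => one_ne_zero (congrFun h 0)) (fun l hl => Or.inl ?_) ?_ hF hF0 ?_ ?_
  · intro Δ h _ hc H _
    rw [hΘa, hΘa, cD_C, D_fd Δ (h l₀), hc l₀ (by simp), zero_mul, add_zero]
  · intro H hH
    have hne' : l₀ ≠ l := fun h => hl (by rw [h]; exact Finset.mem_singleton_self l)
    have h1 : VanishTo H (P l₀) (if l₀ = l then μ l₀ else μ l₀ + 2) := hH.2 (Sum.inr l₀)
    rw [if_neg hne'] at h1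
    rw [hΘa, eval_C]
    exact fd_zero_of_vanishTo hH.1 hP2 (by omega) h1 _ _
  · intro T hT _
    obtain ⟨β, hβ, hβy⟩ := exists_binary (y := ![c l₀, 1]) (fun h => one_ne_zero (congrFun h 1))
      (μ l₀ + 1)
    have hν : (fun l' => if l' = l₀ then μ l' + 1 else μ l' : Λ → ℕ) l₀ = μ l₀ + 1 := by simp
    obtain ⟨H, hH, h4⟩ := (S.free_drop (V := U) (T := T) (Finset.Subset.refl U)
      (by rw [Finset.sdiff_self, Finset.card_empty]; omega)
      (ν := fun l' => if l' = l₀ then μ l' + 1 else μ l')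
      (fun l' => by split_ifs <;> omega)).lf _ hg (Sum.inr l₀) β (by
        change β.IsHomogeneous (if l₀ = l₀ then μ l₀ + 1 else μ l₀)
        rw [if_pos rfl]
        exact hβ)
    have h4' : ld d (if l₀ = l₀ then μ l₀ + 1 else μ l₀) (P l₀) H = β := h4
    rw [if_pos rfl] at h4'
    obtain ⟨h1, h2⟩ := dropY_mem hH
    have h2' : ∀ l, VanishTo H (P l) (if l = l₀ then μ l + 1 else μ l) := h2
    refine ⟨H, ⟨⟨hH.1, ?_⟩, fun l i hi => ?_⟩, fun i hi => h1 i (Finset.mem_union_right _ hi),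
      ?_⟩
    · rintro (b | l)
      · exact h1 b.1 (Finset.mem_union_left _ b.2)
      · refine (h2' l).mono ?_
        change μ l ≤ _
        split_ifs <;> omega
    · by_cases hl : l = l₀
      · subst hl
        have h5 := h2' l
        rw [if_pos rfl] at h5
        exact fd_zero_of_vanishTo hH.1 hP2 (by omega) h5 _ _
      · have hi' : i < 0 := by simp [hl] at hi
        exact absurd hi' (Nat.not_lt_zero i)
    · rw [hΘa, eval_C, fd_eq, h4']
      exact hβy
  · rw [hΘa, eval_C]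
    exact hF1
  · intro k
    rw [hΘa, pderiv_C, map_zero]

end Pool.Agent.Work.MP_0421d9_ag.ZE
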