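import Pool.Agent.Work.MP_0421d9_ag.ZEDat
import Pool.Agent.Work.MP_0421d9_ag.ZCBpf
import Pool.Agent.Work.MP_0421d9_ag.LFar

/-!
Relative version of the collision argument: systems without base points and with all leading forms.
-/

set_option linter.unusedSectionVars false
set_option linter.unusedVariables false

namespace Pool.Agent.Work.MP_0421d9_ag.ZE

open MvPolynomial Module SM ZC LD

/-- the multiplicities as a function on `Fin` -/
noncomputable def fn {κ : Type} [Fintype κ] (y : κ → ℕ) : Fin (Fintype.card κ) → ℕ :=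
  fun k => y ((Fintype.equivFin κ).symm k)

/-- `hPm` is the dimension for arbitrary index types -/
theorem finrank_eq_hPm {κ : Type} [Fintype κ] {d : ℕ} {y : κ → ℕ} {p : κ → V3}
    (hp : GenericPoints p) : finrank ℂ (linSys d p y) = hPm d (fn y) := by
  classical
  obtain ⟨e, he⟩ : ∃ e, e = Fintype.equivFin κ := ⟨_, rfl⟩
  have h1 : linSys d p y = linSys d (fun k => p (e.symm k)) (fun k => y (e.symm k)) := by
    ext F
    constructor
    · rintro ⟨h1, h2⟩
      exact ⟨h1, fun k => h2 _⟩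
    · rintro ⟨h1, h2⟩
      refine ⟨h1, fun i => ?_⟩
      have := h2 (e i)
      simpa using this
  have h2 : GenericPoints (fun k => p (e.symm k)) := by
    unfold GenericPoints at hp ⊢
    exact hp.comp (fun z : Fin (Fintype.card κ) × Fin 3 => (e.symm z.1, z.2))
      (fun z z' hz => by
        obtain ⟨z1, z2⟩ := z
        obtain ⟨z1', z2'⟩ := z'
        dsimp only at hz
        rw [Prod.mk.injEq] at hz ⊢
        exact ⟨e.symm.injective hz.1, hz.2⟩)
  rw [h1, LD.hPm_eq h2]
  unfold fn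
  rw [he]

theorem sum_fn {κ : Type} [Fintype κ] (y : κ → ℕ) (f : ℕ → ℕ) :
    ∑ k, f (fn y k) = ∑ j, f (y j) :=
  Equiv.sum_comp (Fintype.equivFin κ).symm (fun j => f (y j))

/-- regular systems -/
def Reg {κ : Type} [Fintype κ] (d : ℕ) (y : κ → ℕ) : Prop :=
  hPm d (fn y) + ∑ j, (y j + 1).choose 2 = (d + 2).choose 2

theorem Reg.nsp {κ : Type} [Fintype κ] {d : ℕ} {y : κ → ℕ} (h : Reg d y) : Nsp d y := by
  intro p hp
  rw [finrank_eq_hPm hp]
  unfold Reg at h
  omega

theorem Reg.le {κ : Type} [Fintype κ] {d : ℕ} {y : κ → ℕ} (h : Reg d y) :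
    ∑ j, (y j + 1).choose 2 ≤ (d + 2).choose 2 := by
  unfold Reg at h
  omega

/-- systems which are nef on the exceptional classes -/
theorem reg_of_nef {κ : Type} [Fintype κ] (hκ : 3 ≤ Fintype.card κ) {d : ℕ} {y : κ → ℕ}
    (h : NefN d (fn y)) (hK : ∑ j, y j + 1 ≤ 3 * d) : Reg d y := by
  have h1 := nefN_regular hκ d (fn y) h (by
    rw [sum_fn y (fun n => n)]
    exact hK)
  rw [sum_fn y (fun n => (n + 1).choose 2)] at h1
  exact h1

theorem far_raise {κ : Type} [Fintype κ] {τ d : ℕ} {y y' : κ → ℕ} (h : FarN (τ + 1) d (fn y))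
    (i : κ) (hi : y' i ≤ y i + 1) (ha : ∀ j, j ≠ i → y' j = y j) (hi' : y i ≤ y' i) :
    FarN τ d (fn y') := by
  have h1 : ∀ z : κ → ℕ, fn z (Fintype.equivFin κ i) = z i := fun z => by
    unfold fn
    rw [Equiv.symm_apply_apply]
  refine h.raise (Fintype.equivFin κ i) ?_ ?_ ?_
  · rw [h1, h1]
    exact hi
  · intro k hk
    unfold fn
    apply ha
    intro h2
    apply hk
    rw [← h2, Equiv.apply_symm_apply]
  · rw [h1, h1]
    exact hi'

/-- systems whose class is far from the exceptional classes, even if some of the multiplicities are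
lowered -/
def FarB {κ : Type} [Fintype κ] (d : ℕ) (y : κ → ℕ) : Prop :=
  ∀ y₀ : κ → ℕ, (∀ x, y₀ x ≤ y x) → FarN 2 d (fn y₀)

/-- one multiplicity is lowered, then two are raised -/
theorem FarB.reg {κ : Type} [Fintype κ] (hκ : 3 ≤ Fintype.card κ) {d : ℕ} {y : κ → ℕ}
    (hF : FarB d y) (hK : ∑ j, y j + 3 ≤ 3 * d) {y₀ y₁ y₂ : κ → ℕ} (h0 : ∀ x, y₀ x ≤ y x) (i i' : κ)
    (h1 : y₁ i ≤ y₀ i + 1) (h1' : ∀ x, x ≠ i → y₁ x = y₀ x) (h1'' : y₀ i ≤ y₁ i)
    (h2 : y₂ i' ≤ y₁ i' + 1) (h2' : ∀ x, x ≠ i' → y₂ x = y₁ x) (h2'' : y₁ i' ≤ y₂ i') :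
    Reg d y₂ := by
  classical
  have hf := far_raise (far_raise (hF y₀ h0) i h1 h1' h1'') i' h2 h2' h2''
  refine reg_of_nef hκ ?_ ?_
  · have := hf.nef (v := 0) le_rfl (Nat.zero_le d)
    rwa [Nat.sub_zero] at this
  · have e1 : ∀ (a b : κ → ℕ) (j : κ), b j ≤ a j + 1 → (∀ x, x ≠ j → b x = a x) →
        ∑ x, b x ≤ ∑ x, a x + 1 := by
      intro a b j hj hx
      have h3 : ∑ x ∈ Finset.univ.erase j, b x = ∑ x ∈ Finset.univ.erase j, a x :=
        Finset.sum_congr rfl (fun x hx' => hx x (Finset.ne_of_mem_erase hx'))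
      have h4 := Finset.add_sum_erase Finset.univ b (Finset.mem_univ j)
      have h5 := Finset.add_sum_erase Finset.univ a (Finset.mem_univ j)
      omega
    have e2 := e1 y₀ y₁ i h1 h1'
    have e3 := e1 y₁ y₂ i' h2 h2'
    have e4 : ∑ x, y₀ x ≤ ∑ x, y x := Finset.sum_le_sum (fun x _ => h0 x)
    omega

/-- existence of leading forms -/
theorem FarB.exists_ld {κ : Type} [Fintype κ] [DecidableEq κ] (hκ : 3 ≤ Fintype.card κ) {d : ℕ}
    {y : κ → ℕ} (hF : FarB d y) (hK : ∑ j, y j + 3 ≤ 3 * d) {p : κ → V3} (hp : GenericPoints p)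
    (i i' : κ) {j : ℕ} (hj : j ≤ y i) (hjd : j ≤ d) {β : R2} (hβ : β.IsHomogeneous j) :
    ∃ H ∈ linSys d p (fun x => if x = i then j else y x + if x = i' then 1 else 0),
      ld d j (p i) H = β := by
  obtain ⟨y₀, hy₀⟩ : ∃ y₀ : κ → ℕ, y₀ = fun x => if x = i then j else y x := ⟨_, rfl⟩
  obtain ⟨y₁, hy₁⟩ : ∃ y₁ : κ → ℕ, y₁ = fun x => if x = i then j else
    y x + if x = i' then 1 else 0 := ⟨_, rfl⟩
  rw [← hy₁]
  have h0 : ∀ x, y₀ x ≤ y x := by
    intro x
    rw [hy₀]
    dsimp only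
    split_ifs with h
    · rw [h]
      exact hj
    · exact le_rfl
  have hi : y₁ i = j := by
    rw [hy₁]
    dsimp only
    rw [if_pos rfl]
  have r1 : Reg d y₁ := by
    refine hF.reg hκ hK h0 i' i (y₁ := y₁) ?_ ?_ ?_ (Nat.le_succ _) (fun x _ => rfl) le_rfl
    · rw [hy₀, hy₁]
      dsimp only
      split_ifs <;> omega
    · intro x hx
      rw [hy₀, hy₁]
      dsimp only
      rw [if_neg hx, Nat.add_zero]
    · rw [hy₀, hy₁]
      dsimp only
      split_ifs <;> omega
  have r2 : Reg d (Function.update y₁ i (y₁ i + 1)) := by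
    refine hF.reg hκ hK h0 i' i (y₁ := y₁) ?_ ?_ ?_ ?_ (fun x hx => ?_) ?_
    · rw [hy₀, hy₁]
      dsimp only
      split_ifs <;> omega
    · intro x hx
      rw [hy₀, hy₁]
      dsimp only
      rw [if_neg hx, Nat.add_zero]
    · rw [hy₀, hy₁]
      dsimp only
      split_ifs <;> omega
    · rw [Function.update_self]
    · rw [Function.update_of_ne hx]
    · rw [Function.update_self]
      exact Nat.le_succ _
  have hχ : ∑ x, (y₁ x + 1).choose 2 + (y₁ i + 1) ≤ (d + 2).choose 2 := by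
    have h3 := r2.le
    rw [← Finset.add_sum_erase _ _ (Finset.mem_univ i)] at h3 ⊢
    rw [Finset.sum_congr rfl (fun x hx => by
      rw [Function.update_of_ne (Finset.ne_of_mem_erase hx)])] at h3
    rw [Function.update_self, zc_choose_succ] at h3
    omega
  have h4 := exists_of_Nsp r1.nsp r2.nsp (by rw [hi]; exact hjd) hχ hp (β := β) (by
    rw [hi]
    exact hβ)
  rwa [hi] at h4

/-- **Systems without base points and with all leading forms.** -/
theorem FarB.free {κ : Type} [Fintype κ] [DecidableEq κ] (hκ : 3 ≤ Fintype.card κ) {d : ℕ}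
    {y : κ → ℕ} (hF : FarB d y) (hK : ∑ j, y j + 3 ≤ 3 * d) : Free d y := by
  have hle : ∀ x, y x + 2 ≤ d := by
    intro x
    have h1 := (hF y (fun _ => le_rfl)).le hκ (Fintype.equivFin κ x)
    unfold fn at h1
    rwa [Equiv.symm_apply_apply] at h1
  refine ⟨fun p hp q hq hqp => ?_, fun p hp j β hβ => ?_⟩
  · by_contra hcon
    push Not at hcon
    obtain ⟨E, hE2, hEp, hEp'⟩ := exists_movers hp
    have S : Chn (Λ := Empty) 3 d d p y (fun l => l.elim) (diagB d) (fun l => l.elim) E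
        (fun l => l.elim) :=
      { hd := fun i => by have := hle i; omega
        hp := fun i => coord_ne_zero hp i 2
        hom1 := fun H hH => hH.2
        hom2 := fun H hH => by
          rw [← hH.1]
          exact hH.2
        E2 := hE2
        Ep := hEp
        Ep' := hEp'
        Dp := fun l => l.elim
        stE := fun i k H hH => ⟨by
          change cD (E i k) H.1 = cD (E i k) H.2
          rw [hH.1], cD_isHomogeneous (E i k) hH.2⟩
        stD := fun l => l.elim
        lawE := fun i k l => l.elim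
        lawD := fun l => l.elim
        lawD' := fun l => l.elim }
    refine S.bpf le_rfl ?_ hq ?_ ?_
    · intro i i' I _ j hj1 hjm β hβ
      obtain ⟨H, hH, hld⟩ := hF.exists_ld hκ hK hp i i' hjm (by have := hle i; omega) hβ
      refine ⟨(H, H), ⟨rfl, hH.1⟩, ?_, hld, fun x hx => ?_, fun l => l.elim⟩
      · have := hH.2 i
        simpa using this
      · have := hH.2 x
        simp only [hx, if_false] at this
        exact this
    · intro H hH
      rw [evL_apply, ← hH.1.1]
      exact hcon _ hH.2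
    · intro T hT
      obtain ⟨H, hH, hv, hne⟩ := exists_form_ne (κ := T) (Q := fun x => p x) (a := fun x => y x) hq
        (fun x => hqp x) (d := d) (by
          have h1 : ∑ x : T, y x ≤ ∑ _x : T, d :=
            Finset.sum_le_sum (fun x _ => by have := hle x; omega)
          rw [Finset.sum_const, Finset.card_univ, Fintype.card_coe, smul_eq_mul] at h1
          have h2 : T.card * d ≤ 1 * d := Nat.mul_le_mul_right _ hT
          omega)
      exact ⟨(H, H), ⟨rfl, hH⟩, fun i hi => hv ⟨i, hi⟩, hne⟩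
  · obtain ⟨H, hH, hld⟩ := hF.exists_ld hκ hK hp j j (le_refl (y j)) (by have := hle j; omega) hβ
    refine ⟨H, ⟨hH.1, fun x => ?_⟩, hld⟩
    have h1 := hH.2 x
    by_cases hx : x = j
    · subst hx
      simpa using h1
    · simp only [hx, if_false, Nat.add_zero] at h1
      exact h1

/-- reduced systems -/
theorem farB_of_reduced {κ : Type} [Fintype κ] (hκ : 3 ≤ Fintype.card κ) {d : ℕ} {y : κ → ℕ}
    (hred : ∀ i j k, i ≠ j → i ≠ k → j ≠ k → y i + y j + y k ≤ d)
    (hpair : ∀ i j, i ≠ j → y i + y j + 4 ≤ d) (hK : ∑ i, y i + 36 ≤ 3 * d) : FarB d y := by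
  intro y₀ h0
  have hinj := (Fintype.equivFin κ).symm.injective
  refine far_of_reduced hκ (fun i j k hij hik hjk => ?_) (fun i j hij => ?_) ?_
  · have h1 := hred _ _ _ (hinj.ne hij) (hinj.ne hik) (hinj.ne hjk)
    have h2 := h0 ((Fintype.equivFin κ).symm i)
    have h3 := h0 ((Fintype.equivFin κ).symm j)
    have h4 := h0 ((Fintype.equivFin κ).symm k)
    unfold fn
    omega
  · have h1 := hpair _ _ (hinj.ne hij)
    have h2 := h0 ((Fintype.equivFin κ).symm i)
    have h3 := h0 ((Fintype.equivFin κ).symm j)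
    unfold fn
    omega
  · have h1 : ∑ x, y₀ x ≤ ∑ x, y x := Finset.sum_le_sum (fun x _ => h0 x)
    have h2 := sum_fn y₀ (fun n => n)
    omega

end Pool.Agent.Work.MP_0421d9_ag.ZE
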