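import Pool.Agent.Work.MP_0421d9_ag.ZEDat

/-!
Generation by global sections, from independence in degree `d - 1`.
-/

set_option linter.unusedSectionVars false

namespace Pool.Agent.Work.MP_0421d9_ag.ZE

open MvPolynomial Module SM ZC

/-- a form which vanishes at `d + 1` points of a line is divisible by its equation -/
theorem line_dvd {a b : V3} (hab : cr a b ≠ 0) {f : R3} {d : ℕ} (hf : f.IsHomogeneous d)
    (h : ∀ k : ℕ, k ≤ d → eval (a + (k : ℂ) • b) f = 0) : xl a b ∣ f := by
  -- the restriction to the line
  obtain ⟨P, hP⟩ : ∃ P : Polynomial ℂ,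
      P = aeval (fun i => Polynomial.C (a i) + Polynomial.C (b i) * Polynomial.X) f := ⟨_, rfl⟩
  have hPe : ∀ t : ℂ, P.eval t = eval (a + t • b) f := by
    intro t
    rw [hP]
    have h1 : ∀ g : R3, (aeval (fun i => Polynomial.C (a i) + Polynomial.C (b i) *
        (Polynomial.X : Polynomial ℂ)) g).eval t = eval (a + t • b) g := by
      intro g
      induction g using MvPolynomial.induction_on with
      | C c => simp
      | add p q hp hq => rw [map_add, Polynomial.eval_add, hp, hq, map_add]
      | mul_X p n hp =>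
        rw [map_mul, aeval_X, Polynomial.eval_mul, hp, map_mul, eval_X, Polynomial.eval_add,
          Polynomial.eval_C, Polynomial.eval_mul, Polynomial.eval_C, Polynomial.eval_X,
          Pi.add_apply, Pi.smul_apply, smul_eq_mul, mul_comm t]
    exact h1 f
  have hdeg : P.natDegree ≤ d := by
    rw [hP]
    have h1 := aeval_natDegree_le f (hf.totalDegree_le)
      (fun i => Polynomial.C (a i) + Polynomial.C (b i) * (Polynomial.X : Polynomial ℂ)) (n := 1)
      (fun i => by
        refine (Polynomial.natDegree_add_le _ _).trans (max_le ?_ ?_)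
        · rw [Polynomial.natDegree_C]
          exact Nat.zero_le _
        · exact (Polynomial.natDegree_C_mul_le _ _).trans (Polynomial.natDegree_X_le))
    rwa [mul_one] at h1
  have hP0 : P = 0 := by
    by_contra hne
    have h1 : (Finset.image (fun k : ℕ => (k : ℂ)) (Finset.range (d + 1))) ⊆ P.roots.toFinset := by
      intro x hx
      rw [Finset.mem_image] at hx
      obtain ⟨k, hk, rfl⟩ := hx
      rw [Finset.mem_range] at hk
      rw [Multiset.mem_toFinset, Polynomial.mem_roots hne, Polynomial.IsRoot.def, hPe]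
      exact h k (by omega)
    have h2 := Finset.card_le_card h1
    rw [Finset.card_image_of_injective _ Nat.cast_injective, Finset.card_range] at h2
    have h3 := (Multiset.toFinset_card_le P.roots).trans (Polynomial.card_roots' P)
    omega
  have hline : ∀ t : ℂ, eval (a + t • b) f = 0 := fun t => by
    rw [← hPe, hP0, Polynomial.eval_zero]
  have hsc : ∀ (s : ℂ) (u : V3), eval (s • u) f = s ^ d * eval u f := by
    intro s u
    exact SM.eval_smul_of_homogeneous hf s u
  apply lin_dvd_of_eval hab
  intro u hu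
  obtain ⟨s, t, rfl⟩ := exists_comb hab hu
  by_cases hs : s = 0
  · -- the point `b`
    have hb : eval b f = 0 := by
      obtain ⟨Q, hQ⟩ : ∃ Q : Polynomial ℂ,
        Q = aeval (fun i => Polynomial.C (b i) + Polynomial.C (a i) * Polynomial.X) f := ⟨_, rfl⟩
      have hQe : ∀ t : ℂ, Q.eval t = eval (b + t • a) f := by
        intro t
        rw [hQ]
        have h1 : ∀ g : R3, (aeval (fun i => Polynomial.C (b i) + Polynomial.C (a i) *
            (Polynomial.X : Polynomial ℂ)) g).eval t = eval (b + t • a) g := by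
          intro g
          induction g using MvPolynomial.induction_on with
          | C c => simp
          | add p q hp hq => rw [map_add, Polynomial.eval_add, hp, hq, map_add]
          | mul_X p n hp =>
            rw [map_mul, aeval_X, Polynomial.eval_mul, hp, map_mul, eval_X, Polynomial.eval_add,
              Polynomial.eval_C, Polynomial.eval_mul, Polynomial.eval_C, Polynomial.eval_X,
              Pi.add_apply, Pi.smul_apply, smul_eq_mul, mul_comm t]
        exact h1 f
      have hQ0 : Q = 0 := by
        apply Polynomial.eq_zero_of_infinite_isRoot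
        refine Set.Infinite.mono (s := {t : ℂ | t ≠ 0}) (fun t ht => ?_)
          (Set.Finite.infinite_compl (Set.finite_singleton (0 : ℂ)))
        change Q.eval t = 0
        rw [hQe]
        have h2 : b + t • a = t • (a + t⁻¹ • b) := by
          rw [smul_add, smul_smul, mul_inv_cancel₀ ht, one_smul, add_comm]
        rw [h2, hsc, hline, mul_zero]
      have h3 := hQe 0
      rw [hQ0, Polynomial.eval_zero, zero_smul, add_zero] at h3
      exact h3.symm
    rw [hs, zero_smul, zero_add, hsc, hb, mul_zero]
  · have h2 : s • a + t • b = s • (a + (t / s) • b) := by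
      rw [smul_add, smul_smul, mul_div_cancel₀ _ hs]
    rw [h2, hsc, hline, mul_zero]

theorem exists_cr_ne {q : V3} (hq : q ≠ 0) : ∃ e : V3, cr q e ≠ 0 := by
  by_contra hcon
  push Not at hcon
  apply hq
  have h0 := hcon ![1, 0, 0]
  have h1 := hcon ![0, 1, 0]
  have a1 := congrFun h0 1
  have a2 := congrFun h0 2
  have a3 := congrFun h1 2
  simp [cr] at a1 a2 a3
  funext i
  fin_cases i
  · exact a3
  · exact a2
  · exact a1

/-- a line through `q` which avoids finitely many points -/
theorem exists_line_avoid {κ : Type} [Fintype κ] {p : κ → V3} {q : V3} (hq : q ≠ 0)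
    (h : ∀ j, cr (p j) q ≠ 0) : ∃ b : V3, cr q b ≠ 0 ∧ ∀ j, eval (p j) (xl q b) ≠ 0 := by
  obtain ⟨e, he⟩ := exists_cr_ne hq
  have hG : (∏ j, lin (cr (p j) q)) * lin (cr q e) ≠ 0 := by
    refine mul_ne_zero (Finset.prod_ne_zero_iff.mpr fun j _ => ?_) ?_
    · exact fun h1 => h j (lin_eq_zero.mp h1)
    · exact fun h1 => he (lin_eq_zero.mp h1)
  obtain ⟨b, hb⟩ : ∃ b : V3, eval b ((∏ j, lin (cr (p j) q)) * lin (cr q e)) ≠ 0 := by
    by_contra hcon
    push Not at hcon
    exact hG (MvPolynomial.funext fun x => by rw [hcon x, map_zero])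
  rw [map_mul, map_prod] at hb
  have hb1 := left_ne_zero_of_mul hb
  have hb2 := right_ne_zero_of_mul hb
  rw [Finset.prod_ne_zero_iff] at hb1
  refine ⟨b, fun h1 => hb2 ?_, fun j h1 => hb1 j (Finset.mem_univ j) ?_⟩
  · -- `b` is a multiple of `q`
    have a0 := congrFun h1 0
    have a1 := congrFun h1 1
    have a2 := congrFun h1 2
    change q 1 * b 2 - q 2 * b 1 = 0 at a0
    change q 2 * b 0 - q 0 * b 2 = 0 at a1
    change q 0 * b 1 - q 1 * b 0 = 0 at a2
    rw [eval_lin, Fin.sum_univ_three]
    change (q 1 * e 2 - q 2 * e 1) * b 0 + (q 2 * e 0 - q 0 * e 2) * b 1 +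
      (q 0 * e 1 - q 1 * e 0) * b 2 = 0
    linear_combination -(e 0) * a0 - (e 1) * a1 - (e 2) * a2
  · rw [eval_xl] at h1
    rw [eval_lin, Fin.sum_univ_three]
    change (p j 1 * q 2 - p j 2 * q 1) * b 0 + (p j 2 * q 0 - p j 0 * q 2) * b 1 +
      (p j 0 * q 1 - p j 1 * q 0) * b 2 = 0
    linear_combination h1

/-- no base points outside of `p`, if the conditions are independent in degree `d - 1` -/
theorem bp_of_Nsp {κ : Type} [Fintype κ] {d : ℕ} {y : κ → ℕ}
    (h1 : Nsp d y) (h2 : Nsp (d + 1) y)
    (hχ : ∑ j, (y j + 1).choose 2 ≤ (d + 2).choose 2) {p : κ → V3} (hp : GenericPoints p) {q : V3}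
    (hq : q ≠ 0) (hpq : ∀ j, cr (p j) q ≠ 0) : ∃ H ∈ linSys (d + 1) p y, eval q H ≠ 0 := by
  by_contra hcon
  push Not at hcon
  obtain ⟨b, hb, hpb⟩ := exists_line_avoid hq hpq
  have hfin : Module.Finite ℂ (linSys (d + 1) p y) :=
    Submodule.finiteDimensional_of_le (linSys_le (d + 1) p _)
  have hfin' : Module.Finite ℂ (linSys d p y) :=
    Submodule.finiteDimensional_of_le (linSys_le d p _)
  let φ : linSys (d + 1) p y →ₗ[ℂ] (Fin (d + 1) → ℂ) :=
    { toFun := fun F k => eval (q + ((k.1 + 1 : ℕ) : ℂ) • b) (F : R3)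
      map_add' := fun F G => by
        funext k
        simp
      map_smul' := fun c F => by
        funext k
        simp [smul_eval] }
  have hker : finrank ℂ (LinearMap.ker φ) ≤ finrank ℂ (linSys d p y) := by
    let ψ : linSys d p y →ₗ[ℂ] linSys (d + 1) p y :=
      { toFun := fun G => ⟨xl q b * G.1, by
          have h4 := (lin_isHomogeneous (cr q b)).mul G.2.1
          rw [add_comm] at h4
          refine ⟨h4, fun j => ?_⟩
          have h5 := vanishTo_mul (vanishTo_zero (xl q b) (p j)) (G.2.2 j)
          rwa [zero_add] at h5⟩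
        map_add' := fun F G => Subtype.ext (by
          change xl q b * (F.1 + G.1) = xl q b * F.1 + xl q b * G.1
          ring)
        map_smul' := fun c F => Subtype.ext (by
          change xl q b * (c • F.1) = c • (xl q b * F.1)
          rw [mul_smul_comm]) }
    have hle : LinearMap.ker φ ≤ LinearMap.range ψ := by
      rintro ⟨F, hF⟩ hker
      rw [LinearMap.mem_ker] at hker
      by_cases hF0 : F = 0
      · exact ⟨0, by rw [map_zero]; exact Subtype.ext hF0.symm⟩
      have hdvd : xl q b ∣ F := by
        refine line_dvd hb hF.1 (fun k hk => ?_)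
        rcases Nat.eq_zero_or_pos k with h0 | h0
        · rw [h0, Nat.cast_zero, zero_smul, add_zero]
          exact hcon F hF
        · have h5 := congrFun hker ⟨k - 1, by omega⟩
          change eval (q + ((k - 1 + 1 : ℕ) : ℂ) • b) F = 0 at h5
          rwa [Nat.sub_add_cancel h0] at h5
      obtain ⟨e, g, he, hg, hFg⟩ := exists_factor hF.1 hF0 hdvd
      have hed : e = d := by omega
      subst hed
      refine ⟨⟨g, hg, fun j => ?_⟩, Subtype.ext hFg.symm⟩
      have h6 := hF.2 j
      rw [hFg] at h6
      exact vanishTo_of_mul_ne h6 (hpb j)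
    calc finrank ℂ (LinearMap.ker φ) ≤ finrank ℂ (LinearMap.range ψ) := Submodule.finrank_mono hle
      _ ≤ finrank ℂ (linSys d p y) := LinearMap.finrank_range_le ψ
  have hrk := LinearMap.finrank_range_add_finrank_ker φ
  have hr : finrank ℂ (LinearMap.range φ) ≤ d + 1 := by
    refine (Submodule.finrank_le _).trans ?_
    rw [Module.finrank_fin_fun]
  rw [h2 p hp] at hrk
  rw [h1 p hp] at hker
  have h3 : (d + 1 + 2).choose 2 = (d + 2).choose 2 + (d + 2) := by
    rw [show d + 1 + 2 = d + 2 + 1 by ring, Nat.choose_succ_succ' (d + 2) 1, Nat.choose_one_right,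
      add_comm]
  omega

/-- **Generation by global sections**: no base points, and all leading forms occur, if the
conditions are independent in degree `d - 1` -/
theorem free_of_Nsp {κ : Type} [Fintype κ] [DecidableEq κ] {d : ℕ} {y : κ → ℕ}
    (h1 : Nsp d y) (h2 : Nsp (d + 1) y)
    (h3 : ∀ j, Nsp (d + 1) (Function.update y j (y j + 1)))
    (hχ : ∑ j, (y j + 1).choose 2 ≤ (d + 2).choose 2) : Free (d + 1) y where
  bp := fun p hp q hq hpq => bp_of_Nsp h1 h2 hχ hp hq hpq
  lf := fun p hp j β hβ => by
    have hyj : y j ≤ d + 1 := by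
      by_contra hcon
      have h4 : (y j + 1).choose 2 ≤ ∑ j, (y j + 1).choose 2 :=
        Finset.single_le_sum (f := fun j => (y j + 1).choose 2) (fun _ _ => Nat.zero_le _)
          (Finset.mem_univ j)
      have h5 : (d + 1 + 2).choose 2 ≤ (y j + 1).choose 2 := Nat.choose_le_choose 2 (by omega)
      have h6 : (d + 1 + 2).choose 2 = (d + 2).choose 2 + (d + 2) := by
        rw [show d + 1 + 2 = d + 2 + 1 by ring, Nat.choose_succ_succ' (d + 2) 1,
          Nat.choose_one_right, add_comm]
      omega
    refine exists_of_Nsp h2 (h3 j) hyj ?_ hp hβ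
    have h6 : (d + 1 + 2).choose 2 = (d + 2).choose 2 + (d + 2) := by
      rw [show d + 1 + 2 = d + 2 + 1 by ring, Nat.choose_succ_succ' (d + 2) 1,
        Nat.choose_one_right, add_comm]
    omega

end Pool.Agent.Work.MP_0421d9_ag.ZE
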