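import Pool.Agent.Work.MP_0421d9_ag.ZEFreeCM
import Pool.Agent.Work.MP_0421d9_ag.ZEFree
import Pool.Agent.Work.MP_0421d9_ag.ZEFinC
import Pool.Agent.Work.MP_0421d9_ag.LGen

/-!
From the nonspeciality of the systems with larger multiplicities to the smoothness of the general
members: the points of a set `U` have arbitrary multiplicities.
-/

set_option linter.unusedSectionVars false

namespace Pool.Agent.Work.MP_0421d9_ag.ZE

open MvPolynomial Module SM ZC LD

theorem fn_update {κ : Type} [Fintype κ] [DecidableEq κ] (y : κ → ℕ) (j : κ) (v : ℕ) :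
    fn (Function.update y j v) = Function.update (fn y) (Fintype.equivFin κ j) v := by
  funext k
  unfold fn
  by_cases hk : k = Fintype.equivFin κ j
  · rw [hk, Equiv.symm_apply_apply, Function.update_self, Function.update_self]
  · have h1 : (Fintype.equivFin κ).symm k ≠ j := fun h => hk (by rw [← h, Equiv.apply_symm_apply])
    rw [Function.update_of_ne h1, Function.update_of_ne hk]

theorem reg_iff_rg {κ : Type} [Fintype κ] {d : ℕ} {y : κ → ℕ} : Reg d y ↔ Rg d (fn y) := by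
  unfold Reg Rg
  rw [sum_fn y (fun n => (n + 1).choose 2)]

/-- independent conditions in degree `d` suffice in degree `d + 1` -/
theorem free_of_Reg {κ : Type} [Fintype κ] [DecidableEq κ] {d : ℕ} {y : κ → ℕ} (h : Reg d y) :
    Free (d + 1) y := by
  have h1 := reg_iff_rg.mp h
  refine free_of_Nsp h.nsp (reg_iff_rg.mpr (h1.mono (Nat.le_succ d))).nsp (fun j => ?_) h.le
  have h2 := h1.raise (Fintype.equivFin κ j)
  have h3 : fn y (Fintype.equivFin κ j) = y j := by
    unfold fn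
    rw [Equiv.symm_apply_apply]
  rw [h3, ← fn_update] at h2
  exact (reg_iff_rg.mpr h2).nsp

/-- points of multiplicity zero can be dropped -/
theorem hPm_emb {κ κ' : Type} [Fintype κ] [Fintype κ'] (j : κ' ↪ κ) {y : κ → ℕ}
    (h0 : ∀ k, (∀ i, j i ≠ k) → y k = 0) (d : ℕ) :
    hPm d (fn y) = hPm d (fn (fun i => y (j i))) := by
  obtain ⟨p, hp⟩ := exists_generic_fam κ
  have hp' : GenericPoints (fun i => p (j i)) := by
    unfold GenericPoints at hp ⊢
    exact hp.comp (fun z : κ' × Fin 3 => (j z.1, z.2))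
      (fun z z' hz => by
        obtain ⟨z1, z2⟩ := z
        obtain ⟨z1', z2'⟩ := z'
        dsimp only at hz
        rw [Prod.mk.injEq] at hz ⊢
        exact ⟨j.injective hz.1, hz.2⟩)
  rw [← finrank_eq_hPm hp, ← finrank_eq_hPm hp']
  have h1 : linSys d p y = linSys d (fun i => p (j i)) (fun i => y (j i)) := by
    ext F
    constructor
    · rintro ⟨h1, h2⟩
      exact ⟨h1, fun k => h2 _⟩
    · rintro ⟨h1, h2⟩
      refine ⟨h1, fun k => ?_⟩
      by_cases hk : ∃ i, j i = k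
      · obtain ⟨i, rfl⟩ := hk
        exact h2 i
      · push Not at hk
        rw [h0 k hk]
        exact vanishTo_zero F (p k)
  rw [h1]

theorem hPm_fn_fin {r : ℕ} (y : Fin r → ℕ) (d : ℕ) : hPm d (fn y) = hPm d y := by
  obtain ⟨p, hp⟩ := exists_generic_fam (Fin r)
  rw [← finrank_eq_hPm hp, hPm_eq hp]

/-- **From nonspeciality to smoothness.** If all the systems of degree `d` with the multiplicities
`m i` for `i ∈ U` and any further multiplicities at most `t` are nonspecial, and if those with at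
most `202` further multiplicities are generated by their members, then the general members of the
systems with further multiplicities at most `u` are not bad, where `t` is larger than
`u ^ (1 + ε)`. -/
theorem rigid_not_badG {ε : ℝ} (hε : 0 < ε) : ∃ c : ℝ, 0 < c ∧ ∀ (d u t : ℕ) (ι : Type) [Fintype ι]
    [DecidableEq ι] (p : ι → V3) (m : ι → ℕ) (U : Finset ι), GenericPoints p → 1 ≤ u →
    (∀ i, i ∉ U → m i ≤ u) → c * (u : ℝ) ^ (1 + ε) ≤ t →
    (∀ (κ : Type) [Fintype κ] [DecidableEq κ] (y : κ → ℕ) (j : {i // i ∈ U} ↪ κ),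
      (∀ i, y (j i) = m i.1) → (∀ k, (∀ i, j i ≠ k) → y k ≤ t) → Nsp d y) →
    (∀ (κ : Type) [Fintype κ] [DecidableEq κ] (y : κ → ℕ) (j : {i // i ∈ U} ↪ κ),
      (∀ i, y (j i) = m i.1) → (∀ k, (∀ i, j i ≠ k) → y k ≤ t) →
      (∃ S : Finset κ, S.card ≤ 202 ∧ ∀ k ∉ S, (∀ i, j i ≠ k) → y k = 0) → Free d y) →
    (∀ i ∈ U, m i + 1 ≤ d) → t ≤ d →
    c * (u : ℝ) ^ (2 + ε) ≤ ∑ i ∈ Uᶜ, ((m i + 1).choose 2 : ℝ) →
    ∑ i, (m i + 1).choose 2 + 1 = (d + 2).choose 2 →
    ∀ F ∈ linSys d p m, F ≠ 0 → ¬ Bad d p m F := by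
  obtain ⟨c, hc, h⟩ := exists_pick_eps hε
  refine ⟨c, hc, fun d u t ι _ _ p m B hp hu hm ht hN hF hmd htd hB hχ F hFl hF0 => ?_⟩
  obtain ⟨M, C, μ, w, e, hCB, he, hμ, huM, hMt, hP⟩ := h d u t ι m B hu hm ht hB hχ
  obtain ⟨U, hU⟩ : ∃ U : Finset {i : ι // ∀ l, i ∉ C l},
      U = Finset.univ.filter (fun i => i.1 ∈ B) := ⟨_, rfl⟩
  have hUm : ∀ i, i ∈ U ↔ i.1 ∈ B := fun i => by
    rw [hU, Finset.mem_filter]
    exact ⟨fun h => h.2, fun h => ⟨Finset.mem_univ i, h⟩⟩
  have hut : u + 4 ≤ t := by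
    have := (hμ 0)
    omega
  -- the embedding
  let j : {i // i ∈ B} ↪ ({i : ι // ∀ l, i ∉ C l} ⊕ Fin 200) :=
    ⟨fun i => Sum.inl ⟨i.1, hCB i.1 i.2⟩, fun i i' h => by
      rw [Sum.inl.injEq, Subtype.mk.injEq] at h
      exact Subtype.ext h⟩
  have hj : ∀ i : {i : ι // ∀ l, i ∉ C l}, (∀ i', j i' ≠ Sum.inl i) → i.1 ∉ B :=
    fun i h hi => h ⟨i.1, hi⟩ rfl
  refine Dat.not_bad_split hp (by norm_num) (μ := μ) (w := w) (Mv := fun _ => u + 1) (U := U) he
    (hP.dat (fun y hy => ?_) (fun y hy => ?_) (fun i hi => ?_) (fun i => ?_) (fun l => ?_)) hFl hF0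
  · obtain ⟨h1, T, hT, h3, h4⟩ := hy
    refine hN _ y j (fun i => ?_) (fun k hk => ?_)
    · change y (Sum.inl ⟨i.1, hCB i.1 i.2⟩) = m i.1
      rw [h4 _ (fun hiT => (h3 _ hiT).1 ((hUm _).mpr i.2))]
    · rcases k with i | l
      · have hiB := hj i hk
        have h5 := hm i.1 hiB
        by_cases hiT : i ∈ T
        · have h6 := (h3 i hiT).2
          change y (Sum.inl i) ≤ m i.1 + 1 at h6
          omega
        · rw [h4 i hiT]
          change m i.1 ≤ t
          omega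
      · have h6 := (h1 l).2
        have h7 := (hμ l).2
        omega
  · obtain ⟨h1, h2, T, hT, h3, h4⟩ := hy
    refine hF _ y j (fun i => ?_) (fun k hk => ?_) ?_
    · exact h2 _ ((hUm _).mpr i.2)
    · rcases k with i | l
      · have hiB := hj i hk
        have h5 := hm i.1 hiB
        by_cases hiT : i ∈ T
        · have h6 := (h3 i hiT).2
          change y (Sum.inl i) ≤ m i.1 at h6
          omega
        · rw [h4 i hiT (fun h => hiB ((hUm i).mp h))]
          exact Nat.zero_le _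
      · have h6 := (h1 l).2
        have h7 := (hμ l).2
        omega
    · refine ⟨T.map Function.Embedding.inl ∪ Finset.univ.map Function.Embedding.inr, ?_, ?_⟩
      · refine (Finset.card_union_le _ _).trans ?_
        rw [Finset.card_map, Finset.card_map, Finset.card_univ, Fintype.card_fin]
        omega
      · intro k hkS hk
        rw [Finset.mem_union, not_or] at hkS
        rcases k with i | l
        · refine h4 i (fun hiT => hkS.1 (Finset.mem_map_of_mem _ hiT)) (fun hiU => ?_)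
          exact hj i hk ((hUm i).mp hiU)
        · exact absurd (Finset.mem_map_of_mem Function.Embedding.inr (Finset.mem_univ l)) hkS.2
  · have h5 := hm i.1 (fun h => hi ((hUm i).mpr h))
    change m i.1 + 1 ≤ M
    omega
  · by_cases hi : i.1 ∈ B
    · exact hmd i.1 hi
    · have h5 := hm i.1 hi
      change m i.1 + 1 ≤ d
      omega
  · have := (hμ l).2
    omega

/-- **From nonspeciality to smoothness**, general members -/
theorem general_not_badG {ε : ℝ} (hε : 0 < ε) : ∃ c : ℝ, 0 < c ∧ ∀ (r d u t : ℕ)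
    (p : Fin r → V3) (m : Fin r → ℕ) (U : Finset (Fin r)), GenericPoints p → 1 ≤ u →
    (∀ i, i ∉ U → m i ≤ u) → c * (u : ℝ) ^ (1 + ε) ≤ t →
    (∀ (κ : Type) [Fintype κ] [DecidableEq κ] (y : κ → ℕ) (j : {i // i ∈ U} ↪ κ),
      (∀ i, y (j i) = m i.1) → (∀ k, (∀ i, j i ≠ k) → y k ≤ t) → Nsp d y) →
    (∀ (κ : Type) [Fintype κ] [DecidableEq κ] (y : κ → ℕ) (j : {i // i ∈ U} ↪ κ),
      (∀ i, y (j i) = m i.1) → (∀ k, (∀ i, j i ≠ k) → y k ≤ t) →
      (∃ S : Finset κ, S.card ≤ 202 ∧ ∀ k ∉ S, (∀ i, j i ≠ k) → y k = 0) → Free d y) →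
    (∀ i ∈ U, m i + 1 ≤ d) → t ≤ d →
    c * (u : ℝ) ^ (2 + ε) + ∑ i ∈ U, ((m i + 1).choose 2 : ℝ) + 1 ≤ ((d + 2).choose 2 : ℕ) →
    ∀ s : Fin (finrank ℂ (linSys d p m) - 1) → Fin 3 → ℂ, GenericPoints (Sum.elim p s) →
      ∀ F ∈ linSys d p m, F ≠ 0 → (∀ k, eval (s k) F = 0) → ¬ Bad d p m F := by
  obtain ⟨c, hc, h⟩ := rigid_not_badG hε
  refine ⟨max c 1, lt_of_lt_of_le hc (le_max_left _ _),
    fun r d u t p m U hp hu hm ht hN hF hmd htd hB s hs => ?_⟩
  classical
  have hu1 : (1 : ℝ) ≤ u := by exact_mod_cast hu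
  have hx0 : (0 : ℝ) ≤ (u : ℝ) ^ (1 + ε) := Real.rpow_nonneg (by linarith) _
  have hx0' : (0 : ℝ) ≤ (u : ℝ) ^ (2 + ε) := Real.rpow_nonneg (by linarith) _
  have ht1 : c * (u : ℝ) ^ (1 + ε) ≤ t :=
    (mul_le_mul_of_nonneg_right (le_max_left _ _) hx0).trans ht
  have ht2 : 1 * (u : ℝ) ^ (1 + ε) ≤ t :=
    (mul_le_mul_of_nonneg_right (le_max_right _ _) hx0).trans ht
  have hB1 : c * (u : ℝ) ^ (2 + ε) ≤ max c 1 * (u : ℝ) ^ (2 + ε) :=
    mul_le_mul_of_nonneg_right (le_max_left _ _) hx0'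
  have hut : u ≤ t := by
    have h1 : (u : ℝ) ^ (1 : ℝ) ≤ (u : ℝ) ^ (1 + ε) :=
      Real.rpow_le_rpow_of_exponent_le hu1 (by linarith)
    rw [Real.rpow_one] at h1
    have h2 : (u : ℝ) ≤ t := by linarith
    exact_mod_cast h2
  have hns : finrank ℂ (linSys d p m) = (d + 2).choose 2 - ∑ i, (m i + 1).choose 2 := by
    refine hN (Fin r) m (Function.Embedding.subtype _) (fun i => rfl) (fun k hk => ?_) p hp
    exact (hm k (fun h => hk ⟨k, h⟩ rfl)).trans hut
  refine not_bad_of_rigid hns s hs (fun hχ => ?_)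
  obtain ⟨K, hK⟩ : ∃ K, K = finrank ℂ (linSys d p m) - 1 := ⟨_, rfl⟩
  obtain ⟨V, hV⟩ : ∃ V : Finset (Fin r ⊕ Fin (finrank ℂ (linSys d p m) - 1)),
    V = U.map Function.Embedding.inl := ⟨_, rfl⟩
  have hVm : ∀ i, Sum.inl i ∈ V ↔ i ∈ U := fun i => by
    rw [hV]
    constructor
    · intro h
      rw [Finset.mem_map] at h
      obtain ⟨a, ha, hai⟩ := h
      have : a = i := Sum.inl_injective hai
      rwa [← this]
    · exact fun h => Finset.mem_map_of_mem _ h
  have hVr : ∀ k, Sum.inr k ∉ V := fun k h => by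
    rw [hV, Finset.mem_map] at h
    obtain ⟨a, -, ha⟩ := h
    exact Sum.inl_ne_inr ha
  -- the equivalence of the subtypes
  let τ : {i // i ∈ U} ↪ {i // i ∈ V} := ⟨fun i => ⟨Sum.inl i.1, (hVm i.1).mpr i.2⟩,
    fun i i' h => by
      rw [Subtype.mk.injEq, Sum.inl.injEq] at h
      exact Subtype.ext h⟩
  have hτ : ∀ x : {i // i ∈ V}, ∃ i, τ i = x := by
    rintro ⟨x | x, hx⟩
    · exact ⟨⟨x, (hVm x).mp hx⟩, rfl⟩
    · exact absurd hx (hVr x)
  have hoff : ∀ {κ : Type} (j : {i // i ∈ V} ↪ κ) (k : κ), (∀ i, (τ.trans j) i ≠ k) →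
      ∀ x, j x ≠ k := by
    intro κ j k hk x
    obtain ⟨i, rfl⟩ := hτ x
    exact hk i
  refine h d u t _ (Sum.elim p s) (Sum.elim m (fun _ => 1)) V hs hu ?_ ht1 ?_ ?_ ?_ htd ?_ hχ
  · rintro (i | k) hi
    · exact hm i (fun h => hi ((hVm i).mpr h))
    · exact hu
  · intro κ _ _ y j hy hyt
    exact hN κ y (τ.trans j) (fun i => hy (τ i)) (fun k hk => hyt k (hoff j k hk))
  · rintro κ _ _ y j hy hyt ⟨S, hS, hS0⟩
    exact hF κ y (τ.trans j) (fun i => hy (τ i)) (fun k hk => hyt k (hoff j k hk))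
      ⟨S, hS, fun k hkS hk => hS0 k hkS (hoff j k hk)⟩
  · rintro (i | k) hi
    · exact hmd i ((hVm i).mp hi)
    · exact absurd hi (hVr k)
  · have h1 := Finset.sum_add_sum_compl V (fun x =>
      ((Sum.elim m (fun _ : Fin (finrank ℂ (linSys d p m) - 1) => 1) x + 1).choose 2 : ℝ))
    have h2 : ∑ x ∈ V, ((Sum.elim m
        (fun _ : Fin (finrank ℂ (linSys d p m) - 1) => 1) x + 1).choose 2 : ℝ) =
        ∑ i ∈ U, ((m i + 1).choose 2 : ℝ) := by
      rw [hV, Finset.sum_map]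
      rfl
    have h3 : ∑ x, ((Sum.elim m
        (fun _ : Fin (finrank ℂ (linSys d p m) - 1) => 1) x + 1).choose 2 : ℝ) + 1 =
        ((d + 2).choose 2 : ℕ) := by
      rw [← hχ]
      push_cast
      rfl
    rw [h2] at h1
    linarith

end Pool.Agent.Work.MP_0421d9_ag.ZE
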