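import Pool.Agent.Work.MP_0421d9_ag.ZCT
import Pool.Agent.Work.MP_0421d9_ag.ZEFlagB
import Pool.Agent.Work.MP_0421d9_ag.ZCFlag
import Pool.Agent.Work.MP_0421d9_ag.ZCAlg

/-!
Collisions of generic points, relative version: exact contact orders at the level of one cluster.
-/

set_option linter.unusedSectionVars false
set_option linter.unusedVariables false

namespace Pool.Agent.Work.MP_0421d9_ag.ZE

open MvPolynomial Module SM ZC

section levels

variable {ι Λ : Type} [Fintype ι] [Fintype Λ] [DecidableEq ι] [DecidableEq Λ] {d M : ℕ}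
  {m : ι → ℕ} {U : Finset ι} {μ w s Mv : Λ → ℕ} {v : ∀ l, Fin (s l) → ℕ}

/-- one cluster, the others are flags: exact contact orders -/
theorem Dat.hyb_exact (S : Dat d M m U μ w s Mv v) {p : ι → V3} {P : Λ → V3} {c : Λ → ℂ} {l₀ : Λ}
    {ζ : Fin (s l₀) → V3} (hX : Ind (Sum.elim (Sum.elim p P) ζ) c) {F : R3}
    (hF : F ∈ FS d p m P μ c (Function.update w l₀ 0)) (hF0 : F ≠ 0)
    (hG : ∃ G ∈ linSys (μ l₀) ζ (v l₀), res G = ld d (μ l₀) (P l₀) F) :
    (∀ l ≠ l₀, fd d (μ l) (P l) (c l) (w l) F ≠ 0) ∧ ld d (μ l₀) (P l₀) F ≠ 0 := by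
  obtain ⟨G, hG, hGF⟩ := hG
  -- the place
  have hX' : Ind (Sum.elim (Sum.elim p P) (fun x : (Σ _ : Unit, Fin (s l₀)) => ζ x.2)) c := by
    have hinj : Function.Injective (Sum.map (fun z : ((ι ⊕ Λ) ⊕ (Σ _ : Unit, Fin (s l₀))) × Fin 3 =>
        ((Sum.map id (fun x : (Σ _ : Unit, Fin (s l₀)) => x.2) z.1 : (ι ⊕ Λ) ⊕ Fin (s l₀)), z.2))
        (id : Λ → Λ)) := by
      apply Function.Injective.sumMap _ Function.injective_id
      rintro ⟨x, k⟩ ⟨y, k'⟩ h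
      rw [Prod.mk.injEq] at h
      obtain ⟨h1, h2⟩ := h
      have h3 : Function.Injective (Sum.map (id : ι ⊕ Λ → ι ⊕ Λ)
          (fun x : (Σ _ : Unit, Fin (s l₀)) => x.2)) := by
        apply Function.Injective.sumMap Function.injective_id
        rintro ⟨_, a⟩ ⟨_, b⟩ hab
        have : a = b := hab
        rw [this]
      exact Prod.ext (h3 h1) h2
    have h1 := AlgebraicIndependent.comp hX _ hinj
    have h2 : Sum.elim (fun z : ((ι ⊕ Λ) ⊕ Fin (s l₀)) × Fin 3 =>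
        Sum.elim (Sum.elim p P) ζ z.1 z.2) c ∘ Sum.map
        (fun z : ((ι ⊕ Λ) ⊕ (Σ _ : Unit, Fin (s l₀))) × Fin 3 =>
        ((Sum.map id (fun x : (Σ _ : Unit, Fin (s l₀)) => x.2) z.1 : (ι ⊕ Λ) ⊕ Fin (s l₀)), z.2))
        (id : Λ → Λ) = Sum.elim (fun z : ((ι ⊕ Λ) ⊕ (Σ _ : Unit, Fin (s l₀))) × Fin 3 =>
        Sum.elim (Sum.elim p P) (fun x : (Σ _ : Unit, Fin (s l₀)) => ζ x.2) z.1 z.2) c := by
      funext z
      rcases z with ⟨(x | x), k⟩ | z
      · rfl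
      · rfl
      · rfl
    rw [h2] at h1
    exact h1
  obtain ⟨ρ, t, c₁, ξ, ht0, ht, hp, hc, hc₁, hξ, hξζ⟩ := exists_flag_place (Λ := Unit)
    (s := fun _ => s l₀) hX' (Sum.elim p P) c (fun _ => c l₀)
    (fun x => ![ζ x.2 1, ζ x.2 0 - c l₀ * ζ x.2 1, ζ x.2 2])
  have hXF : Ind (Sum.elim p P) c := by
    have hinj : Function.Injective (Sum.map (fun z : (ι ⊕ Λ) × Fin 3 =>
        ((Sum.inl z.1 : (ι ⊕ Λ) ⊕ Fin (s l₀)), z.2)) (id : Λ → Λ)) := by
      apply Function.Injective.sumMap _ Function.injective_id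
      rintro ⟨x, k⟩ ⟨y, k'⟩ h
      rw [Prod.mk.injEq] at h
      exact Prod.ext (Sum.inl_injective h.1) h.2
    have h1 := AlgebraicIndependent.comp hX _ hinj
    have h2 : Sum.elim (fun z : ((ι ⊕ Λ) ⊕ Fin (s l₀)) × Fin 3 =>
        Sum.elim (Sum.elim p P) ζ z.1 z.2) c ∘ Sum.map (fun z : (ι ⊕ Λ) × Fin 3 =>
        ((Sum.inl z.1 : (ι ⊕ Λ) ⊕ Fin (s l₀)), z.2)) (id : Λ → Λ) =
        Sum.elim (fun z : (ι ⊕ Λ) × Fin 3 => Sum.elim p P z.1 z.2) c := by
      funext z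
      rcases z with z | z <;> rfl
    rw [h2] at h1
    exact h1
  have hXb : Ind ζ (fun _ : Unit => c l₀) := by
    have hinj : Function.Injective (Sum.map (fun z : Fin (s l₀) × Fin 3 =>
        ((Sum.inr z.1 : (ι ⊕ Λ) ⊕ Fin (s l₀)), z.2)) (fun _ : Unit => l₀)) := by
      apply Function.Injective.sumMap
      · rintro ⟨x, k⟩ ⟨y, k'⟩ h
        rw [Prod.mk.injEq] at h
        exact Prod.ext (Sum.inr_injective h.1) h.2
      · intro x y _
        rfl
    have h1 := AlgebraicIndependent.comp hX _ hinj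
    have h2 : Sum.elim (fun z : ((ι ⊕ Λ) ⊕ Fin (s l₀)) × Fin 3 =>
        Sum.elim (Sum.elim p P) ζ z.1 z.2) c ∘ Sum.map (fun z : Fin (s l₀) × Fin 3 =>
        ((Sum.inr z.1 : (ι ⊕ Λ) ⊕ Fin (s l₀)), z.2)) (fun _ : Unit => l₀) =
        Sum.elim (fun z : Fin (s l₀) × Fin 3 => ζ z.1 z.2) (fun _ : Unit => c l₀) := by
      funext z
      rcases z with z | z <;> rfl
    rw [h2] at h1
    exact h1
  obtain ⟨a, ha, F', hF'0, hF'⟩ := ρ.exists_scale_poly hF0
  have hpk : ∀ x k, ρ.L (Sum.elim p P x k) (Sum.elim p P x k) := hp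
  have hFS : F' ∈ FS d p m P μ c w := by
    refine ⟨hF'.linSys hpk (linSys_C_mul hF.1 a), fun l i hi => ?_⟩
    by_cases hl : l = l₀
    · subst hl
      have hlim := LP_ld ρ (P := P l) (P' := P l) (fun k => hp (Sum.inr l) k) hF' d (μ l)
      have hβ : ∃ G' ∈ linSys (μ l) ζ (v l), res G' = ld d (μ l) (P l) (C a * F) := by
        refine ⟨C a * G, linSys_C_mul hG a, ?_⟩
        rw [map_mul, res_C, hGF, ← smul_eq_C_mul, ← smul_eq_C_mul, map_smul]
      exact spec_flag (S.hNv l) (S.hNv' l) (fun j => (Nat.le_succ _).trans (S.hv l j))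
        ((by omega : Mv l ≤ 2 * Mv l).trans (S.hvμ l)) (S.hMv l) (S.crit l)
        (by have := S.hw l; have := S.hMv l; omega) hXb ht0 ht (hc₁ ())
        (ζ := ζ) (ξ := fun j => ξ ⟨(), j⟩) (fun x k => hξ ⟨(), x⟩ k) (fun x => hξζ ⟨(), x⟩)
        hβ hlim i hi
    · have h1 : fd d (μ l) (P l) (c l) i (C a * F) = 0 := by
        rw [← smul_eq_C_mul, map_smul, hF.2 l i (by rwa [Function.update_of_ne hl]), smul_zero]
      have h2 := L_fd ρ (P := P l) (P' := P l) (fun k => hp (Sum.inr l) k) hF' (hc l) d (μ l) i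
      rw [h1] at h2
      exact ρ.fn h2 ρ.zero
  refine ⟨fun l hl h0 => ?_, fun h0 => ?_⟩
  · apply S.flag_exact hXF hFS hF'0 l
    have h1 : fd d (μ l) (P l) (c l) (w l) (C a * F) = 0 := by
      rw [← smul_eq_C_mul, map_smul, h0, smul_zero]
    have h2 := L_fd ρ (P := P l) (P' := P l) (fun k => hp (Sum.inr l) k) hF' (hc l) d (μ l) (w l)
    rw [h1] at h2
    exact ρ.fn h2 ρ.zero
  · apply S.flag_exact hXF hFS hF'0 l₀
    have hlim := LP_ld ρ (P := P l₀) (P' := P l₀) (fun k => hp (Sum.inr l₀) k) hF' d (μ l₀)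
    rw [← smul_eq_C_mul, map_smul, h0, smul_zero] at hlim
    have h1 : ld d (μ l₀) (P l₀) F' = 0 := Pl.LP.fn hlim Pl.LP_zero
    change eval ![c l₀, 1] ((pderiv 0)^[w l₀] (ld d (μ l₀) (P l₀) F')) = 0
    rw [h1, iterate_map_zero, map_zero]

end levels

end Pool.Agent.Work.MP_0421d9_ag.ZE
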