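import Pool.Agent.Work.MP_0421d9_ag.ZEHx
import Pool.Agent.Work.MP_0421d9_ag.ZCHyb

/-!
Collisions of generic points, relative version: one cluster, the others are flags.
-/

set_option linter.unusedSectionVars false
set_option linter.unusedVariables false

namespace Pool.Agent.Work.MP_0421d9_ag.ZE

open MvPolynomial Module SM ZC

variable {ι Λ : Type} [Fintype ι] [Fintype Λ] [DecidableEq ι] [DecidableEq Λ] {d M : ℕ}
  {m : ι → ℕ} {U : Finset ι} {μ w s Mv : Λ → ℕ} {v : ∀ l, Fin (s l) → ℕ}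

/-- the independent family without the cluster -/
theorem ind_left {κ κ' κ'' : Type} {p : κ → V3} {ζ : κ' → V3} {c : κ'' → ℂ}
    (hX : Ind (Sum.elim p ζ) c) : Ind p c := by
  have h1 := AlgebraicIndependent.comp hX
    (Sum.map (fun z : κ × Fin 3 => ((Sum.inl z.1 : κ ⊕ κ'), z.2)) id) (by
      apply Function.Injective.sumMap _ Function.injective_id
      intro z z' h
      rw [Prod.mk.injEq, Sum.inl.injEq] at h
      exact Prod.ext h.1 h.2)
  have h2 : (Sum.elim (fun z : (κ ⊕ κ') × Fin 3 => Sum.elim p ζ z.1 z.2) c) ∘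
      (Sum.map (fun z : κ × Fin 3 => ((Sum.inl z.1 : κ ⊕ κ'), z.2)) id) =
      Sum.elim (fun z : κ × Fin 3 => p z.1 z.2) c := by
    funext z
    rcases z with z | z <;> rfl
  rw [h2] at h1
  exact h1

theorem gen_right {κ κ' κ'' : Type} {p : κ → V3} {ζ : κ' → V3} {c : κ'' → ℂ}
    (hX : Ind (Sum.elim p ζ) c) : GenericPoints ζ :=
  AlgebraicIndependent.comp hX (fun z : κ' × Fin 3 => Sum.inl (Sum.inr z.1, z.2)) (by
    intro z z' h
    rw [Sum.inl.injEq, Prod.mk.injEq, Sum.inr.injEq] at h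
    exact Prod.ext h.1 h.2)

/-- the system of the cluster in the degree below the critical one is empty -/
theorem Dat.hlow (S : Dat d M m U μ w s Mv v) (l₀ : Λ) {ζ : Fin (s l₀) → V3}
    (hζ : GenericPoints ζ) : linSys (μ l₀ - 1) ζ (v l₀) = ⊥ := by
  have hfin : Module.Finite ℂ (linSys (μ l₀ - 1) ζ (v l₀)) :=
    Submodule.finiteDimensional_of_le (linSys_le _ _ _)
  have h1 := (S.hNv' l₀).finrank hζ (m := v l₀) (fun j => by have := S.hv l₀ j; omega)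
  have h2 := S.hvμ l₀
  have h3 := S.hMv l₀
  rw [S.crit l₀, (by omega : μ l₀ - 1 + 2 = μ l₀ + 1)] at h1
  exact Submodule.finrank_eq_zero.mp (by omega)

/-- the members which satisfy the conditions of the points in `U` and of the points of
collision -/
noncomputable def AU (d : ℕ) (p : ι → V3) (m : ι → ℕ) (U : Finset ι) (P : Λ → V3) (μ : Λ → ℕ) :
    Submodule ℂ R3 :=
  linSys d (Sum.elim (fun b : {b // b ∈ U} => p b.1) P) (Sum.elim (fun b => m b.1) μ)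

/-- the pairs with second component computed from the member on the side of the cluster -/
noncomputable def HB {n : ℕ} (A : Submodule ℂ R3) (d μ₀ : ℕ) (P₀ : V3) (W : Submodule ℂ R3)
    (Θ : R3 →ₗ[ℂ] MvPolynomial (Fin n) ℂ) : Submodule ℂ (R3 × MvPolynomial (Fin n) ℂ) where
  carrier := {H | H.1 ∈ A ∧ ∃ G ∈ W, res G = ld d μ₀ P₀ H.1 ∧ H.2 = Θ G}
  zero_mem' := ⟨zero_mem _, 0, zero_mem _, by
    rw [map_zero, Prod.fst_zero, map_zero], by rw [map_zero, Prod.snd_zero]⟩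
  add_mem' := by
    rintro x y ⟨hx, G, hG, h1, h2⟩ ⟨hy, G', hG', h1', h2'⟩
    exact ⟨add_mem hx hy, G + G', add_mem hG hG', by
      rw [map_add, Prod.fst_add, map_add, h1, h1'], by
      rw [map_add, Prod.snd_add, h2, h2']⟩
  smul_mem' := by
    rintro r x ⟨hx, G, hG, h1, h2⟩
    exact ⟨Submodule.smul_mem _ _ hx, r • G, Submodule.smul_mem _ _ hG, by
      rw [map_smul, Prod.smul_fst, map_smul, h1], by
      rw [map_smul, Prod.smul_snd, h2]⟩

/-- **The chain theorem on the side of a cluster.** -/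
theorem Dat.hgraph (S : Dat d M m U μ w s Mv v) {p : ι → V3} {P : Λ → V3} {c : Λ → ℂ} {l₀ : Λ}
    {ζ : Fin (s l₀) → V3} (hX : Ind (Sum.elim (Sum.elim p P) ζ) c) {n N : ℕ} (hn : n ≤ 3)
    {Θ : R3 →ₗ[ℂ] MvPolynomial (Fin n) ℂ}
    (hΘN : ∀ G ∈ linSys (μ l₀) ζ (v l₀), (Θ G).IsHomogeneous N)
    (hΘD : ∀ Δ : Derivation ℚ ℂ ℂ, (∀ j k, Δ (ζ j k) = 0) → ∀ G ∈ linSys (μ l₀) ζ (v l₀),
      Θ (cD Δ G) = cD Δ (Θ G)) {q : Fin n → ℂ} (hq : q ≠ 0)
    (hbp : ∃ G ∈ linSys (μ l₀) ζ (v l₀), eval q (Θ G) ≠ 0) {F G : R3}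
    (hF : F ∈ FS d p m P μ c (Function.update w l₀ 0)) (hF0 : F ≠ 0)
    (hG : G ∈ linSys (μ l₀) ζ (v l₀)) (hres : res G = ld d (μ l₀) (P l₀) F)
    (h0 : eval q (Θ G) = 0) (h1 : ∀ k, eval q (pderiv k (Θ G)) = 0) : False := by
  classical
  obtain ⟨E, D, hE, hEζ, hDζ⟩ := exists_ders hX
  have hX' : Ind (Sum.elim p P) c := ind_left hX
  have hg : GenericPoints (Sum.elim p P) := Ind.gen hX'
  have hζ : GenericPoints ζ := gen_right hX
  have hζ2 : ∀ j, ζ j 2 ≠ 0 := fun j => hζ.ne_zero (j, 2)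
  have hlow := S.hlow l₀ hζ
  have hP2' : ∀ l, P l 2 ≠ 0 := fun l => by
    have h2 := hg.ne_zero (Sum.inr l, 2)
    exact h2
  have hP2 : P l₀ 2 ≠ 0 := hP2' l₀
  have hμd := S.hμd l₀
  have hinj : ∀ G' ∈ linSys (μ l₀) ζ (v l₀), res G' = 0 → G' = 0 := fun G' hG' h =>
    eq_zero_of_res hζ2 hlow hG' h
  have hAμ : ∀ H ∈ AU d p m U P μ, H ∈ linSys d P μ := fun H hH =>
    ⟨hH.1, fun l => hH.2 (Sum.inr l)⟩
  have hAU : ∀ H ∈ AU d p m U P μ, ∀ a ∈ U, VanishTo H (p a) (m a) := fun H hH a ha =>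
    hH.2 (Sum.inl ⟨a, ha⟩)
  have hAmem : ∀ H ∈ linSys d P μ, (∀ a ∈ U, VanishTo H (p a) (m a)) → H ∈ AU d p m U P μ := by
    intro H hH h2
    refine ⟨hH.1, ?_⟩
    rintro (a | l)
    · exact h2 a.1 a.2
    · exact hH.2 l
  have hst : ∀ Δ : Derivation ℚ ℂ ℂ, (∀ a ∈ U, ∀ k, Δ (p a k) = 0) →
      (∀ l k, Δ (P l k) = 0) → (∀ j k, Δ (ζ j k) = 0) →
      ∀ H ∈ HB (AU d p m U P μ) d (μ l₀) (P l₀) (linSys (μ l₀) ζ (v l₀)) Θ,
        ps Δ H ∈ HB (AU d p m U P μ) d (μ l₀) (P l₀) (linSys (μ l₀) ζ (v l₀)) Θ := by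
    rintro Δ hΔU hΔ hΔζ H ⟨hH, G', hG', h2, h3⟩
    refine ⟨linSys_cD (fun x k => ?_) hH, cD Δ G', linSys_cD hΔζ hG', ?_, ?_⟩
    · rcases x with a | l
      · exact hΔU a.1 a.2 k
      · exact hΔ l k
    · change res (cD Δ G') = ld d (μ l₀) (P l₀) (cD Δ H.1)
      rw [← cD_res, h2, cD_ld Δ (hΔ l₀)]
    · change cD Δ H.2 = Θ (cD Δ G')
      rw [h3, hΘD Δ hΔζ G' hG']
  have hfree : ∀ H ∈ AU d p m U P μ, VanishTo H (P l₀) (μ l₀ + 1) →
      (H, (0 : MvPolynomial (Fin n) ℂ)) ∈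
        HB (AU d p m U P μ) d (μ l₀) (P l₀) (linSys (μ l₀) ζ (v l₀)) Θ := by
    intro H hH hv
    refine ⟨hH, 0, zero_mem _, ?_, ?_⟩
    · rw [map_zero]
      exact ((vanishTo_iff_ld hH.1 hP2 (by omega)).mp hv (μ l₀) (Nat.lt_succ_self _)).symm
    · rw [map_zero]
  obtain ⟨l₁, hl₁⟩ := S.two l₀
  have hflags : ∀ {H : R3}, H ∈ linSys d P μ → (∀ i, VanishTo H (p i) (m i)) →
      (∀ l ∉ ({l₀} : Finset Λ), ∀ j < w l, fd d (μ l) (P l) (c l) j H = 0) →
      H ∈ FS d p m P μ c (Function.update w l₀ 0) := by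
    intro H hH hv hf
    refine ⟨⟨hH.1, ?_⟩, fun l i hi => ?_⟩
    · rintro (i | l)
      · exact hv i
      · exact hH.2 l
    · by_cases hl : l = l₀
      · rw [hl, Function.update_self] at hi
        exact absurd hi (Nat.not_lt_zero i)
      · rw [Function.update_of_ne hl] at hi
        exact hf l (by simpa using hl) i hi
  have hFA : F ∈ AU d p m U P μ :=
    hAmem F ⟨hF.1.1, fun l => hF.1.2 (Sum.inr l)⟩ (fun a _ => hF.1.2 (Sum.inl a))
  have hexact := S.hyb_exact hX hF hF0 ⟨G, hG, hres⟩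
  refine S.core (BB := HB (AU d p m U P μ) d (μ l₀) (P l₀) (linSys (μ l₀) ζ (v l₀)) Θ) (N := N)
    (F := (F, Θ G)) hg hE U (Finset.Subset.refl U) {l₀} (by simp) hn ?_ ?_ ?_ ?_ hq ?_ ?_ ?_
    ⟨hFA, G, hG, hres, rfl⟩ (fun i _ => hF.1.2 (Sum.inl i)) ?_ ?_ ?_ ?_ h0 h1
  · intro H hH
    exact hAμ _ hH.1
  · rintro H ⟨hH, G', hG', h2, h3⟩
    rw [h3]
    exact hΘN G' hG'
  · intro i hi k
    exact hst (E i k) (fun a ha k' => hE.Ej (show i ≠ a from fun h => hi (by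
      rw [h]
      exact ha)) k k') (hE.EP i k) (hEζ i k)
  · intro l _
    exact hst (D l) (fun a _ k' => hE.Dp l a k') (hE.DP l) (hDζ l)
  · intro H hH hY hV
    exact ⟨0, hfree H (hAmem H hH hV) (hY l₀ (by simp))⟩
  · intro l hl j hj
    have hne : l₀ ≠ l := fun h => hl (by rw [h]; exact Finset.mem_singleton_self l)
    obtain ⟨H, h2, h3, h4, h5, -⟩ := S.sep (c := c) (V := U) (l := l) hg (Finset.Subset.refl U)
      (by simp) hj 0 (Or.inl (fun H _ => rfl))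
    have h6 : ∀ l', VanishTo H (P l') (if l' = l then μ l' else μ l' + 2) := fun l' =>
      h2.2 (Sum.inr l')
    have h7 : H ∈ AU d p m U P μ := by
      refine hAmem H ⟨h2.1, fun l' => (h6 l').mono (by split_ifs <;> omega)⟩ (fun a ha => ?_)
      have h8 : VanishTo H (p a) (if a ∈ U then m a else 0) := h2.2 (Sum.inl a)
      rwa [if_pos ha] at h8
    have h8 := h6 l₀
    rw [if_neg hne] at h8
    exact ⟨(H, 0), hfree H h7 (h8.mono (Nat.le_succ _)), h3, h4, fun l' _ hne' => h5 l' hne',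
      map_zero _⟩
  · intro T hT _
    obtain ⟨G', hG', hGq⟩ := hbp
    obtain ⟨H, hH, h4⟩ := (S.free_drop (V := U) (T := T) (Finset.Subset.refl U)
      (by rw [Finset.sdiff_self, Finset.card_empty]; omega)
      (ν := μ) (fun l' => ⟨le_rfl, Nat.le_add_right _ _⟩)).lf _ hg (Sum.inr l₀) (res G')
      (res_hom hG'.1)
    have h4' : ld d (μ l₀) (P l₀) H = res G' := h4
    obtain ⟨h2, h3⟩ := dropY_mem hH
    exact ⟨(H, Θ G'), ⟨hAmem H ⟨hH.1, h3⟩ (fun a ha => h2 a (Finset.mem_union_left _ ha)),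
      G', hG', h4'.symm, rfl⟩, fun i hi => h2 i (Finset.mem_union_right _ hi), hGq⟩
  · intro l hl j hj
    have hl' : l ≠ l₀ := by simpa using hl
    exact hF.2 l j (by rw [Function.update_of_ne hl']; exact hj)
  · intro l hl
    have hl' : l ≠ l₀ := by simpa using hl
    exact hexact.1 l hl'
  · rintro H ⟨hH, G', hG', h2, h3⟩ hv hf
    have hvi : ∀ i, VanishTo H.1 (p i) (m i) := fun i => by
      by_cases hi : i ∈ U
      · exact hAU _ hH i hi
      · exact hv i hi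
    have hHF := hflags (hAμ _ hH) hvi hf
    obtain ⟨a, ha⟩ : ∃ a : ℂ, a = fd d (μ l₁) (P l₁) (c l₁) (w l₁) H.1 /
      fd d (μ l₁) (P l₁) (c l₁) (w l₁) F := ⟨_, rfl⟩
    have hne := hexact.1 l₁ hl₁
    have hK : H.1 - a • F ∈ FS d p m P μ c (Function.update w l₀ 0) :=
      Submodule.sub_mem _ hHF (Submodule.smul_mem _ _ hF)
    have hGK : G' - a • G ∈ linSys (μ l₀) ζ (v l₀) :=
      Submodule.sub_mem _ hG' (Submodule.smul_mem _ _ hG)
    have hKres : res (G' - a • G) = ld d (μ l₀) (P l₀) (H.1 - a • F) := by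
      rw [map_sub, map_sub, map_smul, map_smul, h2, hres]
    have hK0 : H.1 - a • F = 0 := by
      by_contra hne'
      apply (S.hyb_exact hX hK hne' ⟨_, hGK, hKres⟩).1 l₁ hl₁
      rw [map_sub, map_smul, smul_eq_mul, ha, div_mul_cancel₀ _ hne, sub_self]
    have hG0 : G' - a • G = 0 := by
      apply hinj _ hGK
      rw [hKres, hK0, map_zero]
    refine ⟨a, Prod.ext (sub_eq_zero.mp hK0) ?_⟩
    rw [h3, sub_eq_zero.mp hG0, map_smul]
    rfl
  · have hA : linSys d (Sum.elim p P) (Sum.elim m μ) ≤ Rd d := linSys_le _ _ _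
    have hV : ∀ H, H ∈ VV d (fun i : {i // i ∉ U} => p i.1)
        (HB (AU d p m U P μ) d (μ l₀) (P l₀) (linSys (μ l₀) ζ (v l₀)) Θ) (fun i => m i.1) ↔
        H.1 ∈ linSys d (Sum.elim p P) (Sum.elim m μ) ∧ ∃ G' ∈ linSys (μ l₀) ζ (v l₀),
          res G' = ld d (μ l₀) (P l₀) H.1 ∧ H.2 = Θ G' := by
      intro H
      rw [mem_VV]
      constructor
      · rintro ⟨⟨h2, h3⟩, h4⟩
        refine ⟨⟨h2.1, ?_⟩, h3⟩
        rintro (i | l)
        · by_cases hi : i ∈ U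
          · exact hAU _ h2 i hi
          · exact h4.2 ⟨i, hi⟩
        · exact h2.2 (Sum.inr l)
      · rintro ⟨h2, h3⟩
        refine ⟨⟨hAmem _ ⟨h2.1, fun l => h2.2 (Sum.inr l)⟩ (fun a _ => h2.2 (Sum.inl a)), h3⟩,
          h2.1, fun i => h2.2 (Sum.inl i.1)⟩
    have h2 : finrank ℂ (linSys d (Sum.elim p P) (Sum.elim m μ)) +
        finrank ℂ (linSys (μ l₀) ζ (v l₀)) ≤ finrank ℂ (VV d (fun i : {i // i ∉ U} => p i.1)
        (HB (AU d p m U P μ) d (μ l₀) (P l₀) (linSys (μ l₀) ζ (v l₀)) Θ) (fun i => m i.1)) +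
          (μ l₀ + 1) :=
      finrank_VV_hyb hA (by omega : μ l₀ ≤ d) (linSys_le _ _ _) hinj Θ hV
    have h3 := S.hN (Sum.elim m μ) ⟨fun l => ⟨le_rfl, Nat.le_succ _⟩, ∅, by simp,
      fun i hi => absurd hi (Finset.notMem_empty i), fun i _ => rfl⟩ _ hg
    rw [Fintype.sum_sum_type] at h3
    have h4 := (S.hNv l₀).finrank hζ (m := v l₀) (fun j => by
      have := S.hv l₀ j
      omega)
    rw [S.crit l₀] at h4
    have h5 := S.hχ
    have h6 := choose_succ_two (μ l₀)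
    have h7 : ∑ l, w l = w l₀ + ∑ l : {l // l ∉ ({l₀} : Finset Λ)}, w l.1 := by
      rw [← Finset.add_sum_erase Finset.univ w (Finset.mem_univ l₀)]
      congr 1
      rw [← Finset.sum_subtype (Finset.univ.erase l₀) (p := fun l => l ∉ ({l₀} : Finset Λ))
        (fun x => by simp) w]
    have h8 := S.w_le l₀
    have h9 : finrank ℂ (linSys d (Sum.elim p P) (Sum.elim m μ)) = ∑ l, w l + 1 := by
      rw [h3]
      change (d + 2).choose 2 - (∑ i, (m i + 1).choose 2 + ∑ l, (μ l + 1).choose 2) = _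
      omega
    have h10 : finrank ℂ (linSys (μ l₀) ζ (v l₀)) + w l₀ = μ l₀ + 1 := by
      rw [h4]
      omega
    omega

/-- base point freeness of the system of a cluster -/
theorem Dat.clus_bpf (S : Dat d M m U μ w s Mv v) (l₀ : Λ) {ζ : Fin (s l₀) → V3}
    (hζ : GenericPoints ζ) {q : V3} (hq : q ≠ 0) (hqp : ∀ j, cr (ζ j) q ≠ 0) :
    ∃ G ∈ linSys (μ l₀) ζ (v l₀), eval q G ≠ 0 := by
  refine bpf_point (S.hNv l₀) hζ (S.hv l₀) (S.hvμ l₀) ?_ hq hqp
  have h1 := S.crit l₀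
  have h2 := S.hw l₀
  have h3 := zc_choose_succ (μ l₀)
  have h4 : (μ l₀ + 2).choose 2 = (μ l₀ + 1 + 1).choose 2 := rfl
  rw [h1, h4, h3]
  omega

theorem Dat.hyb_neck (S : Dat d M m U μ w s Mv v) {p : ι → V3} {P : Λ → V3} {c : Λ → ℂ} {l₀ : Λ}
    {ζ : Fin (s l₀) → V3} (hX : Ind (Sum.elim (Sum.elim p P) ζ) c) {F G : R3}
    (hF : F ∈ FS d p m P μ c (Function.update w l₀ 0)) (hF0 : F ≠ 0)
    (hG : G ∈ linSys (μ l₀) ζ (v l₀)) (hres : res G = ld d (μ l₀) (P l₀) F) :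
    NoDouble (res G) := by
  intro y hy
  by_contra hcon
  push Not at hcon
  have hζ : GenericPoints ζ := gen_right hX
  have hμ1 : 1 ≤ μ l₀ := by
    have h1 := S.hMv l₀
    have h2 := S.hvμ l₀
    omega
  have hbp : ∃ G' ∈ linSys (μ l₀) ζ (v l₀), eval y (res G') ≠ 0 := by
    obtain ⟨G', hG', hne⟩ := S.clus_bpf l₀ hζ (q := ![y 0, y 1, 0]) (by
      intro h
      apply hy
      funext i
      fin_cases i
      · exact congrFun h 0
      · exact congrFun h 1) (by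
      intro j h
      have hζ2 : ζ j 2 ≠ 0 := hζ.ne_zero (j, 2)
      apply hy
      have h0 : ζ j 1 * 0 - ζ j 2 * y 1 = 0 := congrFun h 0
      have h1 : ζ j 2 * y 0 - ζ j 0 * 0 = 0 := congrFun h 1
      funext i
      fin_cases i
      · change y 0 = 0
        have h2 : ζ j 2 * y 0 = 0 := by linear_combination h1
        exact (mul_eq_zero.mp h2).resolve_left hζ2
      · change y 1 = 0
        have h2 : ζ j 2 * y 1 = 0 := by linear_combination -h0
        exact (mul_eq_zero.mp h2).resolve_left hζ2)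
    refine ⟨G', hG', ?_⟩
    rw [eval_res]
    exact hne
  exact S.hgraph hX (n := 2) (N := μ l₀) (by omega) (Θ := res.toLinearMap)
    (fun G' hG' => res_hom hG'.1) (fun Δ _ G' _ => (cD_res Δ G').symm) hy hbp hF hF0 hG hres
    (eval_zero_of_grad hμ1 (res_hom hG.1) hcon) hcon

theorem Dat.hyb_not_bad (S : Dat d M m U μ w s Mv v) {p : ι → V3} {P : Λ → V3} {c : Λ → ℂ}
    {l₀ : Λ} {ζ : Fin (s l₀) → V3} (hX : Ind (Sum.elim (Sum.elim p P) ζ) c) {F G : R3}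
    (hF : F ∈ FS d p m P μ c (Function.update w l₀ 0)) (hF0 : F ≠ 0)
    (hG : G ∈ linSys (μ l₀) ζ (v l₀)) (hres : res G = ld d (μ l₀) (P l₀) F) :
    ¬ Bad (μ l₀) ζ (v l₀) G := by
  have hζ : GenericPoints ζ := gen_right hX
  have hMv := S.hMv l₀
  have hvμ := S.hvμ l₀
  rintro (⟨q, hq, hqp, hs⟩ | ⟨j, u, hu, hbad⟩)
  · exact S.hgraph hX (n := 3) (N := μ l₀) le_rfl (Θ := LinearMap.id)
      (fun G' hG' => hG'.1) (fun Δ _ G' _ => rfl) hq (S.clus_bpf l₀ hζ hq hqp) hF hF0 hG hres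
      (eval_zero_of_grad (by omega) hG.1 hs) hs
  · have hvj := S.hv l₀ j
    have hζ2 : ζ j 2 ≠ 0 := hζ.ne_zero (j, 2)
    obtain ⟨y, hy, hy0, hy1⟩ : ∃ y : V2, y ≠ 0 ∧ eval y (ld (μ l₀) (v l₀ j) (ζ j) G) = 0 ∧
        ∀ k, eval y (pderiv k (ld (μ l₀) (v l₀ j) (ζ j) G)) = 0 := by
      rcases Nat.eq_zero_or_pos (v l₀ j) with h0 | hpos
      · have h1 := (badDir_zero_iff hG.1 hζ2).mp ⟨u, hu, by rw [h0] at hbad; exact hbad⟩
        refine ⟨![1, 0], ?_, ?_, ?_⟩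
        · intro h
          exact one_ne_zero (congrFun h 0)
        · rw [h0, h1, map_zero]
        · intro k
          rw [h0, h1, map_zero, map_zero]
      · obtain ⟨y, hy, hy1⟩ := (badDir_iff_ld hG.1 hζ2 hpos (by omega)
          (hG.2 j)).mp ⟨u, hu, hbad⟩
        exact ⟨y, hy, eval_zero_of_grad hpos (ld_hom hG.1 (by omega) _) hy1, hy1⟩
    refine S.hgraph hX (n := 2) (N := v l₀ j) (by omega) (Θ := ld (μ l₀) (v l₀ j) (ζ j))
      (fun G' hG' => ld_hom hG'.1 (by omega) _)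
      (fun Δ h G' _ => (cD_ld Δ (h j) (μ l₀) (v l₀ j) G').symm) hy ?_ hF hF0 hG hres hy0 hy1
    obtain ⟨β, hβ, hβy⟩ := exists_binary hy (v l₀ j)
    obtain ⟨G', hG', hld⟩ := exists_of_NSp (S.hNv l₀) hζ (y := v l₀) j
      (fun x => by have := S.hv l₀ x; omega) hvj (by omega) (by
        have h1 := S.crit l₀
        have h2 := S.hw l₀
        have h3 := zc_choose_succ (μ l₀)
        have h4 : (μ l₀ + 2).choose 2 = (μ l₀ + 1 + 1).choose 2 := rfl
        rw [h1, h4, h3]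
        omega) hβ
    exact ⟨G', hG', by rw [hld]; exact hβy⟩

end Pool.Agent.Work.MP_0421d9_ag.ZE
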