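import Pool.Agent.Work.MP_0421d9_ag.ZEFin

/-!
Collisions of generic points, relative version: the data in the case in which lines suffice for the
points in `U`.
-/

set_option linter.unusedSectionVars false
set_option linter.unusedVariables false

namespace Pool.Agent.Work.MP_0421d9_ag.ZE

open MvPolynomial Module SM ZC

/-- the numerical data of a collision, the points in `U` are treated by lines -/
structure LDat {ι Λ : Type} [Fintype ι] [Fintype Λ] (d M : ℕ) (m : ι → ℕ) (U : Finset ι)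
    (μ w s Mv : Λ → ℕ) (v : ∀ l, Fin (s l) → ℕ) : Prop where
  hN : ∀ y : ι ⊕ Λ → ℕ, Near m U μ y → Nsp d y
  hm : ∀ i, i ∉ U → m i + 1 ≤ M
  hμ : ∀ l, μ l + 1 ≤ M
  hd : ∑ l, (μ l + 2) + ∑ b ∈ U, m b + 2 * M ≤ d
  hχ : ∑ i, (m i + 1).choose 2 + ∑ l, (μ l + 1).choose 2 + ∑ l, w l + 1 = (d + 2).choose 2
  room : 5 * M ≤ ∑ l, w l
  hNv : ∀ l, NSp (Mv l) (μ l)
  hNv' : ∀ l, NSp (Mv l) (μ l - 1)
  hv : ∀ l j, v l j + 1 ≤ Mv l
  hvμ : ∀ l, 2 * Mv l ≤ μ l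
  crit : ∀ l, ∑ j, (v l j + 1).choose 2 = (μ l + 1).choose 2 + w l
  hw : ∀ l, w l + 2 * Mv l ≤ μ l + 1
  hMv : ∀ l, 1 ≤ Mv l
  two : ∀ l : Λ, ∃ l', l' ≠ l

theorem LDat.dat {ι Λ : Type} [Fintype ι] [Fintype Λ] [DecidableEq ι] [DecidableEq Λ] [Nonempty Λ]
    {d M : ℕ} {m : ι → ℕ} {U : Finset ι} {μ w s Mv : Λ → ℕ} {v : ∀ l, Fin (s l) → ℕ}
    (S : LDat d M m U μ w s Mv v) : Dat d M m U μ w s Mv v where
  hN := S.hN
  hF := fun y hy => free_of_far (fun i hi => by have := S.hm i hi; omega) S.hd hy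
  hm := S.hm
  hmd := fun i => by
    have h1 := S.hd
    obtain ⟨l₀⟩ := ‹Nonempty Λ›
    have h2 := S.hμ l₀
    by_cases hi : i ∈ U
    · have h3 : m i ≤ ∑ b ∈ U, m b := Finset.single_le_sum (fun _ _ => Nat.zero_le _) hi
      omega
    · have h3 := S.hm i hi
      omega
  hμ := S.hμ
  hμd := fun l => by
    have h1 := S.hd
    have h2 : μ l + 2 ≤ ∑ l, (μ l + 2) :=
      Finset.single_le_sum (f := fun l => μ l + 2) (fun _ _ => Nat.zero_le _) (Finset.mem_univ l)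
    omega
  hχ := S.hχ
  room := S.room
  hNv := S.hNv
  hNv' := S.hNv'
  hv := S.hv
  hvμ := S.hvμ
  crit := S.crit
  hw := S.hw
  hMv := S.hMv
  two := S.two

end Pool.Agent.Work.MP_0421d9_ag.ZE
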