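import Pool.Agent.Work.MP_0421d9_ag.ZQPath
import Pool.Agent.Work.MP_0421d9_ag.ZPStep

/-!
One arbitrary multiplicity: the induction step.
-/

namespace Pool.Agent.Work.MP_0421d9_ag.LD

open MvPolynomial Module

/-- a strip of the system with the additional point is a strip which does not use this point -/
theorem stripQ_of_gain {r m₀ D G s u : ℕ} {P : ℕ → ℕ} {y : Fin r → ℕ} (hs : P m₀ ≠ s)
    (h : StripGain D G (Finset.univ.filter
      (fun i => P ((Fin.cons m₀ y : Fin (r + 1) → ℕ) i) = s))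
      (Fin.cons m₀ y : Fin (r + 1) → ℕ) u) :
    StripQ m₀ D G (Finset.univ.filter (fun i => P (y i) = s)) y u := by
  obtain ⟨κ, A, z, Su, hst, hout, hSu, hκu, hSu1, e1, e2⟩ := h
  obtain ⟨hκ1, hκ2, hAD, hyy, hcnt, hRR⟩ := hst.pstep
  have hz0 : z 0 = m₀ := by
    have h1 := hout 0 (fun h => hs (by
      have h2 := (Finset.mem_filter.1 h).2
      rw [Fin.cons_zero] at h2
      exact h2))
    rw [Fin.cons_zero] at h1
    exact h1
  have hz : z = (Fin.cons m₀ (fun i => z i.succ) : Fin (r + 1) → ℕ) := by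
    funext i
    refine Fin.cases ?_ (fun j => ?_) i
    · rw [Fin.cons_zero, hz0]
    · rw [Fin.cons_succ]
  refine ⟨κ, A, fun i => z i.succ, Su, ⟨hκ1, hκ2, hAD, fun i => ?_, ?_, ?_⟩, fun i hi => ?_, ?_,
    hκu, hSu1, e1, e2⟩
  · have h1 := hyy i.succ
    rw [Fin.cons_succ] at h1
    exact h1
  · rw [Fin.sum_univ_succ, Fin.sum_univ_succ (fun i : Fin (r + 1) =>
      ((Fin.cons m₀ y : Fin (r + 1) → ℕ) i + 1).choose 2)] at hcnt
    simp only [Fin.cons_zero, Fin.cons_succ] at hcnt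
    rw [hz0] at hcnt
    change A + κ * (D + 1) + ∑ i, (z (Fin.succ i) + 1).choose 2 = _
    omega
  · rw [← hz]
    exact hRR
  · have h1 := hout i.succ (fun h => hi (by
      have h2 := (Finset.mem_filter.1 h).2
      rw [Fin.cons_succ] at h2
      exact Finset.mem_filter.2 ⟨Finset.mem_univ _, h2⟩))
    rw [Fin.cons_succ] at h1
    exact h1
  · rw [Fin.sum_univ_succ, Fin.sum_univ_succ (fun i : Fin (r + 1) =>
      (Fin.cons m₀ y : Fin (r + 1) → ℕ) i)] at hSu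
    simp only [Fin.cons_zero, Fin.cons_succ] at hSu
    rw [hz0] at hSu
    change Su + ∑ i, z (Fin.succ i) = _
    omega

theorem FQ_step {G₁ A₁ : ℕ} (hC2 : ∀ (p D r v : ℕ) (y : Fin r → ℕ) (P : Finset (Fin r)),
    (∀ i ∈ P, y i = v) → 4 * D ≤ ∑ i ∈ P, y i → 1 ≤ p → A₁ * p ^ 6 ≤ v → D ≤ 8 * v * (v + 1) →
      v ^ 2 ≤ 4 * p ^ 2 * D → StripGain D G₁ P y v)
    {T q a TP ρ p K J G X R Tp : ℕ} (hW : WinR T q a) (hWQ : WinQ TP ρ) (hFP : FP Tp R)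
    (hT : 1 ≤ T) (hTP : 1 ≤ TP) (hq : 2 ≤ q) (ha : 2 ≤ a) (hρ : 4 ≤ ρ) (hK : 2 ≤ K)
    (hp : 40 * q + 2 ^ (2 * K + 20) ≤ p)
    (hJ : 100 * p ^ 2 + 64 * p ^ 2 * (Nat.log 2 (Tp + 1) + 2) + 2 ≤ J)
    (hG : 2 ^ (2 * K + 8) ≤ G) (hG1 : G₁ ≤ G) (hX : 10 ^ 4 * G ≤ X)
    (hR1 : 10 ^ 6 * J * G ≤ R) (hR2 : 2 * X * (1000 * a * p + (16 * K * p) ^ 3) ≤ R)
    (hR3 : 100 * X * ρ ≤ R) (hR4 : 20 * X * A₁ * p ^ 6 ≤ R)
    (hTp : Tp ≤ T) (hTp2 : 10 ^ 6 * G * Tp ≤ TP * R ^ 2)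
    (hTp3 : 2 ^ (2 * K + 3) * df K * Tp ≤ (R / (2 * X)) ^ (2 * K - 1)) : FQ Tp R := by
  intro r c D m₀ m hc hcT hm hD
  rcases Nat.lt_or_ge c m₀ with hm0 | hm0
  swap
  · -- no large multiplicity
    have h1 := hFP (r + 1) c D (Fin.cons m₀ m) hc hcT (fun i => by
      refine Fin.cases ?_ (fun j => ?_) i
      · rw [Fin.cons_zero]; exact hm0
      · rw [Fin.cons_succ]; exact hm j) (by omega)
    rw [h1, Fin.sum_univ_succ]
    simp only [Fin.cons_zero, Fin.cons_succ]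
  have hG0 : 1 ≤ G := by
    have : 1 ≤ 2 ^ (2 * K + 8) := Nat.one_le_two_pow
    omega
  have hX0 : 1 ≤ X := by omega
  have h20 : 1 ≤ 2 ^ (2 * K + 20) := Nat.one_le_two_pow
  obtain ⟨t, ht⟩ : ∃ t, D = m₀ + t := ⟨D - m₀, by omega⟩
  have hRt : R * c ≤ t := by omega
  have hD2 : 2 * X * (12 * ρ * (c + 1) + 20) ≤ t := by
    have h1 : 12 * ρ * (c + 1) + 20 ≤ 50 * (ρ * c) := by
      have h2 : ρ ≤ ρ * c := Nat.le_mul_of_pos_right _ hc
      have h3 : 12 * ρ * (c + 1) = 12 * (ρ * c) + 12 * ρ := by ring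
      omega
    calc 2 * X * (12 * ρ * (c + 1) + 20) ≤ 2 * X * (50 * (ρ * c)) := Nat.mul_le_mul_left _ h1
      _ = 100 * X * ρ * c := by ring
      _ ≤ R * c := Nat.mul_le_mul_right _ hR3
      _ ≤ t := hRt
  have hTPD : 10 ^ 6 * G * c ^ 3 ≤ TP * (D * t) := by
    calc 10 ^ 6 * G * c ^ 3 = (10 ^ 6 * G * c) * c ^ 2 := by ring
      _ ≤ (10 ^ 6 * G * Tp) * c ^ 2 :=
          Nat.mul_le_mul_right _ (Nat.mul_le_mul_left _ hcT)
      _ ≤ (TP * R ^ 2) * c ^ 2 := Nat.mul_le_mul_right _ hTp2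
      _ = TP * ((R * c) * (R * c)) := by ring
      _ ≤ TP * (D * t) := Nat.mul_le_mul_left _ (Nat.mul_le_mul (by omega) hRt)
  have hroom : 12 * ρ * (c + 1) + 20 ≤ t :=
    (Nat.le_mul_of_pos_left _ (by omega : 0 < 2 * X)).trans hD2
  have hwin := (hWQ r c D m₀ m hc hm (by
    have h1 : 6 * ρ * (c + 1) ≤ 12 * ρ * (c + 1) + 20 := by
      have h2 : 12 * ρ * (c + 1) = 2 * (6 * ρ * (c + 1)) := by ring
      omega
    omega)).2
  by_cases hb : TP * (m₀ ^ 2 + 23 * m₀ + ∑ i, m i ^ 2 + 23 * ∑ i, m i) + 6 * (c + 1) ^ 2 ≤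
      TP * D ^ 2
  · have := hwin hb
    omega
  push Not at hb
  have hS : D * t ≤ 27 * (c * ∑ i, m i) := by
    obtain ⟨S₀, hS₀⟩ : ∃ S₀, S₀ = ∑ i, m i := ⟨_, rfl⟩
    rw [← hS₀] at hb ⊢
    have h1 : ∑ i, m i ^ 2 ≤ c * S₀ := by
      rw [hS₀, Finset.mul_sum]
      refine Finset.sum_le_sum fun i _ => ?_
      rw [pow_two]
      exact Nat.mul_le_mul_right _ (hm i)
    have h2 : 23 * S₀ ≤ 23 * (c * S₀) := Nat.mul_le_mul_left _ (Nat.le_mul_of_pos_left _ hc)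
    have h3 : TP * (m₀ ^ 2 + 23 * m₀ + ∑ i, m i ^ 2 + 23 * S₀) ≤
        TP * m₀ ^ 2 + TP * (23 * m₀) + 24 * (TP * (c * S₀)) := by
      calc TP * (m₀ ^ 2 + 23 * m₀ + ∑ i, m i ^ 2 + 23 * S₀) ≤
            TP * (m₀ ^ 2 + 23 * m₀ + 24 * (c * S₀)) := Nat.mul_le_mul_left _ (by omega)
        _ = _ := by ring
    have h4 : 6 * (c + 1) ^ 2 ≤ 24 * (G * c ^ 3) := by
      have h5 : (c + 1) ^ 2 ≤ 4 * c ^ 2 := by nlinarith
      have h6 : c ^ 2 ≤ G * c ^ 3 := by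
        calc c ^ 2 ≤ c ^ 3 := Nat.pow_le_pow_right hc (by norm_num)
          _ ≤ G * c ^ 3 := Nat.le_mul_of_pos_left _ hG0
      omega
    have h5 : 10 ^ 6 * (G * c ^ 3) ≤ TP * (D * t) := by
      calc 10 ^ 6 * (G * c ^ 3) = 10 ^ 6 * G * c ^ 3 := by ring
        _ ≤ _ := hTPD
    -- `m₀` is small compared with `D t`
    have h7 : 10 ^ 6 * m₀ ≤ D * t := by
      have h8 : 10 ^ 6 ≤ t := by
        have h9 : 10 ^ 6 * 1 * 1 ≤ 10 ^ 6 * J * G :=
          Nat.mul_le_mul (Nat.mul_le_mul_left _ (by omega)) hG0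
        have h10 : R ≤ R * c := Nat.le_mul_of_pos_right _ hc
        omega
      calc 10 ^ 6 * m₀ = m₀ * 10 ^ 6 := Nat.mul_comm _ _
        _ ≤ D * t := Nat.mul_le_mul (by omega) h8
    have h8 : 10 ^ 6 * (TP * m₀) ≤ TP * (D * t) := by
      calc 10 ^ 6 * (TP * m₀) = TP * (10 ^ 6 * m₀) := by ring
        _ ≤ TP * (D * t) := Nat.mul_le_mul_left _ h7
    have h9 : TP * D ^ 2 = TP * m₀ ^ 2 + TP * (m₀ * t) + TP * (D * t) := by
      rw [ht]
      ring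
    have h10 : TP * (23 * m₀) = 23 * (TP * m₀) := by ring
    have h6 : TP * (D * t) ≤ TP * (27 * (c * S₀)) := by
      have e1 : TP * (27 * (c * S₀)) = 27 * (TP * (c * S₀)) := by ring
      omega
    exact Nat.le_of_mul_le_mul_left h6 hTP
  have hlogc : 100 * p ^ 2 + 64 * p ^ 2 * (Nat.log 2 (c + 1) + 2) + 2 ≤ J := by
    refine le_trans ?_ hJ
    have h1 : Nat.log 2 (c + 1) ≤ Nat.log 2 (Tp + 1) := Nat.log_mono_right (by omega)
    exact Nat.add_le_add_right (Nat.add_le_add_left (Nat.mul_le_mul_left _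
      (Nat.add_le_add_right h1 2)) _) 2
  obtain ⟨P, hP, hPτ⟩ := cut_pools (p := 64 * p ^ 2) (U := 100 * p ^ 2) (τ := c) (J := J)
    (Nat.mul_pos (by norm_num) (pow_pos (by omega) 2)) hlogc
  have hPm0 : ∀ s, s < J → P m₀ ≠ s := fun s hs h => by
    have := hPτ m₀ (by omega)
    omega
  refine path_mainQ hP hWQ hTP (by omega) hG0 hX hc hm ht
    ((Nat.mul_le_mul_right _ hR1).trans hRt) hD2
    (fun t' s u y h1 _ h3 h4 h5 hsJ h7 h8 h9 => stripQ_of_gain (hPm0 s hsJ)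
      (step_strip (D := D) hC2 hP hW hT hq ha hK hp hG hG1 (by omega) hR2 hR4 (by omega) ?_ ?_
        (m₀ + t') s u _ ?_ h3 h4 h4 h7 (fun i => ?_) ?_)) hS hTPD
  · intro u D' hu1 hu2 hXD
    obtain ⟨Z, hZ⟩ : ∃ Z, Z = R / (2 * X) := ⟨_, rfl⟩
    rw [← hZ] at hTp3
    have h1 : Z * c ≤ D' := by
      have h2 : 2 * X * Z ≤ R := by
        rw [hZ]
        exact Nat.mul_div_le R (2 * X)
      have h3 : X * (Z * c) ≤ X * D' := by
        calc X * (Z * c) ≤ 2 * (X * (Z * c)) := Nat.le_mul_of_pos_left _ (by norm_num)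
          _ = 2 * X * Z * c := by ring
          _ ≤ R * c := Nat.mul_le_mul_right _ h2
          _ ≤ D := by omega
          _ ≤ X * D' := hXD
      exact Nat.le_of_mul_le_mul_left h3 hX0
    obtain ⟨k, hk⟩ : ∃ k, 2 * K = k + 1 := ⟨2 * K - 1, by omega⟩
    have hk1 : 2 * K - 1 = k := by omega
    rw [hk1] at hTp3 ⊢
    have h3 : (2 * u ^ 2) ^ K = 2 ^ K * u ^ (k + 1) := by
      rw [mul_pow, ← pow_mul, hk]
    have h4 : u ^ (k + 1) ≤ Tp * c ^ k := by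
      rw [pow_succ, Nat.mul_comm]
      exact Nat.mul_le_mul (hu1.trans hcT) (Nat.pow_le_pow_left hu2 k)
    calc 2 ^ (K + 3) * (df K * (2 * u ^ 2) ^ K)
        = 2 ^ (2 * K + 3) * df K * u ^ (k + 1) := by
          rw [h3]
          ring
      _ ≤ 2 ^ (2 * K + 3) * df K * (Tp * c ^ k) := Nat.mul_le_mul_left _ h4
      _ = (2 ^ (2 * K + 3) * df K * Tp) * c ^ k := by ring
      _ ≤ Z ^ k * c ^ k := Nat.mul_le_mul_right _ hTp3
      _ = (Z * c) ^ k := (mul_pow _ _ _).symm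
      _ ≤ D' ^ k := Nat.pow_le_pow_left h1 k
  · intro u D' hu1 hu2 hXD
    have h1 : c ≤ D' := by
      have h2 : X * c ≤ X * D' := by
        have h3 : X ≤ R := by
          refine le_trans ?_ hR3
          calc X ≤ X * (100 * ρ) := Nat.le_mul_of_pos_right _ (by omega)
            _ = 100 * X * ρ := by ring
        exact (Nat.mul_le_mul_right _ h3).trans ((by omega : R * c ≤ D).trans hXD)
      exact Nat.le_of_mul_le_mul_left h2 hX0
    calc u ^ 2 = u * u := pow_two u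
      _ ≤ T * D' := Nat.mul_le_mul ((hu1.trans hcT).trans hTp) (hu2.trans h1)
  · rw [ht, Nat.mul_add]
    have h10 : m₀ ≤ X * m₀ := Nat.le_mul_of_pos_left _ hX0
    omega
  · refine Fin.cases (fun h => ?_) (fun j h => ?_) i
    · rw [Fin.cons_zero] at h
      exact absurd h (hPm0 s hsJ)
    · rw [Fin.cons_succ] at h ⊢
      exact h8 j h
  · refine h9.trans ?_
    rw [Finset.sum_filter, Finset.sum_filter, Fin.sum_univ_succ]
    simp only [Fin.cons_zero, Fin.cons_succ]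
    exact Nat.le_add_left _ _

end Pool.Agent.Work.MP_0421d9_ag.LD
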