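import Mathlib

/-!
The index theorem, numerical part: `num_plane` and `num_rect`.
-/

namespace Pool.Agent.Work.MP_0421d9_ag.LD

section ZNum

variable {ι : Type} [Fintype ι]

/-- a small curve multiplicity exists -/
theorem num_min {k c : ι → ℕ} {K : ℕ} {u γ : ℝ} (hk : ∀ i, k i ≤ K) (hu : 0 < u)
    (hγ : ∀ i, 1 ≤ c i → γ ≤ c i)
    (hS : ∑ i, ((c i : ℝ) - u * k i) ^ 2 ≤ γ) (h12 : 12 ≤ ∑ i, c i) :
    ∃ i, 1 ≤ c i ∧ (c i : ℝ) ≤ 2 * K * u := by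
  by_contra hcon
  push Not at hcon
  -- some `c i` is positive
  have hex : ∃ i, 1 ≤ c i := by
    by_contra h0
    push Not at h0
    have : ∑ i, c i = 0 := Finset.sum_eq_zero fun i _ => by have := h0 i; omega
    omega
  -- the smallest positive one
  obtain ⟨i₀, hi₀, hmin⟩ : ∃ i, 1 ≤ c i ∧ ∀ j, 1 ≤ c j → c i ≤ c j := by
    classical
    obtain ⟨i, hi⟩ := hex
    obtain ⟨m, hm, hm'⟩ := Finset.exists_min_image (Finset.univ.filter fun j => 1 ≤ c j) c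
      ⟨i, by simpa using hi⟩
    exact ⟨m, by simpa using hm, fun j hj => hm' j (by simpa using hj)⟩
  have hle : ∀ i, (c i : ℝ) ^ 2 ≤ 4 * ((c i : ℝ) - u * k i) ^ 2 := by
    intro i
    rcases Nat.eq_zero_or_pos (c i) with h | h
    · rw [h]
      have := sq_nonneg (((0 : ℕ) : ℝ) - u * k i)
      push_cast at *
      nlinarith
    · have h1 := hcon i h
      have h2 : (k i : ℝ) ≤ K := by exact_mod_cast hk i
      have h3 : u * k i ≤ u * K := mul_le_mul_of_nonneg_left h2 hu.le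
      have h4 : (0 : ℝ) ≤ u * k i := by positivity
      nlinarith
  have hlt : (c i₀ : ℝ) ^ 2 < 4 * ((c i₀ : ℝ) - u * k i₀) ^ 2 := by
    have h1 := hcon i₀ hi₀
    have h2 : (k i₀ : ℝ) ≤ K := by exact_mod_cast hk i₀
    have h3 : u * k i₀ ≤ u * K := mul_le_mul_of_nonneg_left h2 hu.le
    have h4 : (0 : ℝ) ≤ u * k i₀ := by positivity
    have h5 : (1 : ℝ) ≤ c i₀ := by exact_mod_cast hi₀
    nlinarith
  have hsum : ∑ i, (c i : ℝ) ^ 2 < 4 * γ := by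
    calc ∑ i, (c i : ℝ) ^ 2 < ∑ i, 4 * ((c i : ℝ) - u * k i) ^ 2 :=
          Finset.sum_lt_sum (fun i _ => hle i) ⟨i₀, Finset.mem_univ _, hlt⟩
      _ = 4 * ∑ i, ((c i : ℝ) - u * k i) ^ 2 := by rw [Finset.mul_sum]
      _ ≤ 4 * γ := by linarith
  have hγ₀ := hγ i₀ hi₀
  have hsum' : ∑ i, (c i : ℝ) ^ 2 < 4 * c i₀ := by linarith
  have hsN : ∑ i, c i ^ 2 < 4 * c i₀ := by exact_mod_cast hsum'
  have h1 : c i₀ ^ 2 ≤ ∑ i, c i ^ 2 :=
    Finset.single_le_sum (f := fun i => c i ^ 2) (fun i _ => Nat.zero_le _) (Finset.mem_univ i₀)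
  have h2 : c i₀ < 4 := by
    by_contra h
    push Not at h
    nlinarith
  have h3 : ∑ i, c i ≤ ∑ i, c i ^ 2 :=
    Finset.sum_le_sum fun i _ => Nat.le_self_pow (n := 2) two_ne_zero (c i)
  omega

/-- plane: `e = degree`, `c i` = multiplicities of the curve, `k i ≤ K` = multiplicities of the
system of degree `D` -/
theorem num_plane {k c : ι → ℕ} {D e K : ℕ} (hK : 1 ≤ K) (hk : ∀ i, k i ≤ K)
    (hD : 12 * K ≤ D) (he : 1 ≤ e) (hXu : ∀ i, 1 ≤ c i → ∑ j, c j ^ 2 ≤ e ^ 2 + c i)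
    (hy : D * e < ∑ i, k i * c i)
    (hcase : (∑ i, k i ^ 2 ≤ D ^ 2) ∨
      (e : ℤ) * (∑ i, (k i : ℤ) ^ 2 - D ^ 2) ≤ D * (∑ i, (k i : ℤ) * c i - D * e)) :
    (∀ i, D * c i ≤ 3 * K * e) ∧ (e : ℤ) * |∑ i, (k i : ℤ) ^ 2 - D ^ 2| ≤ 2 * K * D := by
  have hD0 : (0 : ℝ) < D := by
    have : 0 < D := by omega
    exact_mod_cast this
  have he0 : (0 : ℝ) < e := by exact_mod_cast he
  have hK0 : (1 : ℝ) ≤ K := by exact_mod_cast hK
  obtain ⟨u, hu⟩ : ∃ u : ℝ, u * D = e := ⟨e / D, by field_simp⟩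
  have hu0 : 0 < u := by
    by_contra h
    push Not at h
    nlinarith
  obtain ⟨S1, hS1⟩ : ∃ S1 : ℝ, S1 = ∑ i, (c i : ℝ) ^ 2 := ⟨_, rfl⟩
  obtain ⟨S2, hS2⟩ : ∃ S2 : ℝ, S2 = ∑ i, (k i : ℝ) * c i := ⟨_, rfl⟩
  obtain ⟨S3, hS3⟩ : ∃ S3 : ℝ, S3 = ∑ i, (k i : ℝ) ^ 2 := ⟨_, rfl⟩
  have hid : ∑ i, ((c i : ℝ) - u * k i) ^ 2 = S1 - 2 * u * S2 + u ^ 2 * S3 := by
    rw [hS1, hS2, hS3, Finset.mul_sum, Finset.mul_sum, ← Finset.sum_sub_distrib,
      ← Finset.sum_add_distrib]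
    exact Finset.sum_congr rfl fun i _ => by ring
  have hyR : (D : ℝ) * e < S2 := by rw [hS2]; exact_mod_cast hy
  have hnn : 0 ≤ ∑ i, ((c i : ℝ) - u * k i) ^ 2 := Finset.sum_nonneg fun i _ => sq_nonneg _
  -- `δ ≥ u² |L²|`
  have hδ : u ^ 2 * |S3 - D ^ 2| ≤ 2 * u * (S2 - D * e) + u ^ 2 * (D ^ 2 - S3) := by
    rcases hcase with h | h
    · have h' : S3 ≤ (D : ℝ) ^ 2 := by rw [hS3]; exact_mod_cast h
      rw [abs_of_nonpos (by linarith)]
      have : 0 ≤ 2 * u * (S2 - D * e) := mul_nonneg (by positivity) (by linarith)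
      nlinarith
    · have h' : (e : ℝ) * (S3 - D ^ 2) ≤ D * (S2 - D * e) := by
        rw [hS3, hS2]; exact_mod_cast h
      have h2 : u * (S3 - D ^ 2) ≤ S2 - D * e := by
        rw [← hu] at h' ⊢
        have : (D : ℝ) * (u * (S3 - D ^ 2)) ≤ D * (S2 - D * (u * D)) := by linarith
        exact le_of_mul_le_mul_left this hD0
      have h3 : u * (u * (S3 - D ^ 2)) ≤ u * (S2 - D * e) := mul_le_mul_of_nonneg_left h2 hu0.le
      have h4 : 0 ≤ u * (S2 - D * e) := mul_nonneg hu0.le (by linarith)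
      rcases abs_cases (S3 - (D : ℝ) ^ 2) with ⟨ha, hb⟩ | ⟨ha, hb⟩ <;> rw [ha] <;> nlinarith
  have hδ0 : 0 ≤ u ^ 2 * |S3 - D ^ 2| := by positivity
  have huD : u ^ 2 * (D : ℝ) ^ 2 = (e : ℝ) ^ 2 := by rw [← mul_pow, hu]
  have huDe : 2 * u * (D * e) = 2 * (e : ℝ) ^ 2 := by rw [← hu]; ring
  have hSle : ∑ i, ((c i : ℝ) - u * k i) ^ 2 + u ^ 2 * |S3 - D ^ 2| ≤ S1 - e ^ 2 := by
    rw [hid]
    nlinarith
  have hγ : ∀ i, 1 ≤ c i → S1 - (e : ℝ) ^ 2 ≤ c i := by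
    intro i hi
    have : S1 ≤ (e : ℝ) ^ 2 + c i := by rw [hS1]; exact_mod_cast hXu i hi
    linarith
  have h12 : 12 ≤ ∑ i, c i := by
    have h1 : ∑ i, k i * c i ≤ K * ∑ i, c i := by
      rw [Finset.mul_sum]
      exact Finset.sum_le_sum fun i _ => Nat.mul_le_mul_right _ (hk i)
    by_contra h
    push Not at h
    have h2 : K * ∑ i, c i ≤ K * 11 := Nat.mul_le_mul_left _ (by omega)
    have h3 : 12 * K * 1 ≤ D * e := Nat.mul_le_mul hD he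
    omega
  obtain ⟨i₀, hi₀, hi₀'⟩ := num_min hk hu0 hγ (by linarith) h12
  have hγ₀ := hγ i₀ hi₀
  have h1 : (1 : ℝ) ≤ c i₀ := by exact_mod_cast hi₀
  have hg : S1 - (e : ℝ) ^ 2 ≤ 2 * K * u := by linarith
  have hKu : (1 : ℝ) ≤ 2 * K * u := by linarith
  constructor
  · intro i
    have hsq : ((c i : ℝ) - u * k i) ^ 2 ≤ (2 * K * u) ^ 2 := by
      have : ((c i : ℝ) - u * k i) ^ 2 ≤ ∑ i, ((c i : ℝ) - u * k i) ^ 2 :=
        Finset.single_le_sum (f := fun i => ((c i : ℝ) - u * k i) ^ 2)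
          (fun i _ => sq_nonneg _) (Finset.mem_univ i)
      nlinarith
    have h2 : (c i : ℝ) - u * k i ≤ 2 * K * u :=
      le_of_abs_le (abs_le_of_sq_le_sq hsq (by positivity))
    have h3 : (k i : ℝ) ≤ K := by exact_mod_cast hk i
    have h4 : (c i : ℝ) ≤ 3 * K * u := by nlinarith
    have h5 : (D : ℝ) * c i ≤ 3 * K * e := by
      calc (D : ℝ) * c i ≤ D * (3 * K * u) := mul_le_mul_of_nonneg_left h4 hD0.le
        _ = 3 * K * (u * D) := by ring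
        _ = 3 * K * e := by rw [hu]
    exact_mod_cast h5
  · have h2 : u ^ 2 * |S3 - D ^ 2| ≤ 2 * K * u := by linarith
    have h3 : u * |S3 - D ^ 2| ≤ 2 * K := by
      have : u * (u * |S3 - D ^ 2|) ≤ u * (2 * K) := by linarith
      exact le_of_mul_le_mul_left this hu0
    have h4 : (e : ℝ) * |S3 - D ^ 2| ≤ 2 * K * D := by
      calc (e : ℝ) * |S3 - D ^ 2| = (u * |S3 - D ^ 2|) * D := by rw [← hu]; ring
        _ ≤ 2 * K * D := mul_le_mul_of_nonneg_right h3 hD0.le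
    rw [hS3] at h4
    exact_mod_cast h4

/-- rectangle of sides `a`, `b`; the curve has bidegree `(s, s')`, multiplicity `c₀` at the
additional point; `v / (2 a b)` is the ratio of the curve and the system -/
theorem num_rect {k c : ι → ℕ} {a b s s' c₀ k₀ K v : ℕ} (hK : 1 ≤ K) (hk : ∀ i, k i ≤ K)
    (ha : 12 * K ≤ a) (hb : 12 * K ≤ b) (hk₀ : k₀ ≤ 1) (hs : 1 ≤ s + s') (hc₀ : c₀ ≤ s + s')
    (hXu : ∀ i, 1 ≤ c i → ∑ j, c j ^ 2 + c₀ ^ 2 ≤ 2 * (s * s') + c i) (hv : v = b * s + a * s')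
    (hy : v < ∑ i, k i * c i + k₀ * c₀) {L₂ : ℤ}
    (hL₂ : L₂ = 2 * (a * b : ℕ) - (k₀ : ℤ) ^ 2 - ∑ i, (k i : ℤ) ^ 2)
    (hcase : (0 ≤ L₂ ∧ (4 * K + 2) * k₀ ≤ L₂) ∨
      (k₀ = 0 ∧ (v : ℤ) * (-L₂) ≤ 2 * (a * b : ℕ) * (∑ i, (k i : ℤ) * c i - v))) :
    (∀ i, 2 * (a * b) * c i ≤ 3 * K * v) ∧ (v : ℤ) * |L₂| ≤ 4 * K * (a * b : ℕ) ∧
      v ≤ 4 * (b * s) ∧ v ≤ 4 * (a * s') ∧ 2 * (s * s') ≤ ∑ i, c i ^ 2 := by
  have ha0 : (12 : ℝ) ≤ a := by
    have : 12 ≤ a := by omega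
    exact_mod_cast this
  have hb0 : (12 : ℝ) ≤ b := by
    have : 12 ≤ b := by omega
    exact_mod_cast this
  have hK0 : (1 : ℝ) ≤ K := by exact_mod_cast hK
  have haK : (12 : ℝ) * K ≤ a := by exact_mod_cast ha
  have hbK : (12 : ℝ) * K ≤ b := by exact_mod_cast hb
  have hab0 : (0 : ℝ) < a * b := by positivity
  have hvR : (v : ℝ) = b * s + a * s' := by rw [hv]; push_cast; ring
  have hv1 : 12 * K * (s + s') ≤ v := by
    rw [hv]
    have h1 := Nat.mul_le_mul_right s hb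
    have h2 := Nat.mul_le_mul_right s' ha
    nlinarith
  have hv0 : 0 < v := by nlinarith
  have hvR0 : (0 : ℝ) < v := by exact_mod_cast hv0
  obtain ⟨u, hu⟩ : ∃ u : ℝ, u * (2 * (a * b)) = v := ⟨v / (2 * (a * b)), by field_simp⟩
  have hu0 : 0 < u := by
    by_contra h
    push Not at h
    nlinarith
  obtain ⟨S1, hS1⟩ : ∃ S1 : ℝ, S1 = ∑ i, (c i : ℝ) ^ 2 := ⟨_, rfl⟩
  obtain ⟨S2, hS2⟩ : ∃ S2 : ℝ, S2 = ∑ i, (k i : ℝ) * c i := ⟨_, rfl⟩
  obtain ⟨S3, hS3⟩ : ∃ S3 : ℝ, S3 = ∑ i, (k i : ℝ) ^ 2 := ⟨_, rfl⟩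
  obtain ⟨S, hS⟩ : ∃ S : ℝ, S = ∑ i, ((c i : ℝ) - u * k i) ^ 2 := ⟨_, rfl⟩
  have hid : S = S1 - 2 * u * S2 + u ^ 2 * S3 := by
    rw [hS, hS1, hS2, hS3, Finset.mul_sum, Finset.mul_sum, ← Finset.sum_sub_distrib,
      ← Finset.sum_add_distrib]
    exact Finset.sum_congr rfl fun i _ => by ring
  have hyR : (v : ℝ) < S2 + k₀ * c₀ := by rw [hS2]; exact_mod_cast hy
  have hL₂R : (L₂ : ℝ) = 2 * (a * b) - (k₀ : ℝ) ^ 2 - S3 := by rw [hL₂, hS3]; push_cast; ring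
  have hnn : 0 ≤ S := by rw [hS]; exact Finset.sum_nonneg fun i _ => sq_nonneg _
  -- `δ`
  obtain ⟨δ, hδd⟩ : ∃ δ : ℝ, δ = 2 * u * (S2 + k₀ * c₀ - v) + u ^ 2 * L₂ := ⟨_, rfl⟩
  have hy0 : 0 ≤ u * (S2 + k₀ * c₀ - v) := mul_nonneg hu0.le (by linarith)
  have hδ : u ^ 2 * |(L₂ : ℝ)| ≤ δ := by
    rw [hδd]
    rcases hcase with ⟨h, -⟩ | ⟨hk0, h⟩
    · have h' : (0 : ℝ) ≤ L₂ := by exact_mod_cast h
      rw [abs_of_nonneg h']
      linarith
    · have h' : (v : ℝ) * (-L₂) ≤ 2 * (a * b) * (S2 - v) := by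
        rw [hS2]; exact_mod_cast h
      have h2 : u * (-L₂) ≤ S2 + k₀ * c₀ - v := by
        rw [hk0]
        have : (2 * (a * b) : ℝ) * (u * (-L₂)) ≤ 2 * (a * b) * (S2 - v) := by
          rw [← hu] at h' ⊢
          linarith
        have := le_of_mul_le_mul_left this (by positivity)
        push_cast
        linarith
      have h3 : u * (u * (-L₂)) ≤ u * (S2 + k₀ * c₀ - v) := mul_le_mul_of_nonneg_left h2 hu0.le
      rcases abs_cases (L₂ : ℝ) with ⟨ha, hb⟩ | ⟨ha, hb⟩ <;> rw [ha] <;> nlinarith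
  have hδ0 : 0 ≤ u ^ 2 * |(L₂ : ℝ)| := by positivity
  have hδp : 0 ≤ δ := by linarith
  -- the identity
  obtain ⟨γ, hγd⟩ : ∃ γ : ℝ, γ = S1 + (c₀ : ℝ) ^ 2 - 2 * (s * s') := ⟨_, rfl⟩
  obtain ⟨η, hηd⟩ : ∃ η : ℝ, η = a * b * u ^ 2 - s * s' := ⟨_, rfl⟩
  have hiden : S + ((c₀ : ℝ) - u * k₀) ^ 2 + 2 * η = γ - δ := by
    have e1 : u ^ 2 * (2 * (a * b)) = u * (v : ℝ) := by rw [← hu]; ring
    have e2 : S3 = 2 * (a * b) - (k₀ : ℝ) ^ 2 - L₂ := by linarith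
    rw [hid, hγd, hδd, hηd, e2]
    linear_combination 2 * e1
  -- `η ≥ 0`
  have hη4 : 4 * (a * b) * η = (b * s - a * s') ^ 2 := by
    have e3 : (2 * (a * b) * u) ^ 2 = (b * s + a * s') ^ 2 := by
      rw [← hvR, ← hu]; ring
    rw [hηd]
    linear_combination e3
  have hη0 : 0 ≤ η := by
    by_contra h
    push Not at h
    have h1 : 4 * (a * b : ℝ) * η < 0 := by nlinarith
    have h2 := sq_nonneg ((b : ℝ) * s - a * s')
    linarith
  have hγ : ∀ i, 1 ≤ c i → γ ≤ c i := by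
    intro i hi
    have : S1 + (c₀ : ℝ) ^ 2 ≤ 2 * (s * s') + c i := by rw [hS1]; exact_mod_cast hXu i hi
    rw [hγd]
    linarith
  have h12 : 12 ≤ ∑ i, c i := by
    have h1 : ∑ i, k i * c i ≤ K * ∑ i, c i := by
      rw [Finset.mul_sum]
      exact Finset.sum_le_sum fun i _ => Nat.mul_le_mul_right _ (hk i)
    by_contra h
    push Not at h
    have h2 : K * ∑ i, c i ≤ K * 11 := Nat.mul_le_mul_left _ (by omega)
    have h3 : k₀ * c₀ ≤ 1 * (s + s') := Nat.mul_le_mul hk₀ hc₀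
    have h4 : (K * 11 + 1) * (s + s') ≤ 12 * K * (s + s') := Nat.mul_le_mul_right _ (by omega)
    have h5 : K * 11 * 1 ≤ K * 11 * (s + s') := Nat.mul_le_mul_left _ hs
    have h6 : (K * 11 + 1) * (s + s') = K * 11 * (s + s') + (s + s') := by ring
    omega
  have hsq0 := sq_nonneg ((c₀ : ℝ) - u * k₀)
  have hSγ : S ≤ γ := by linarith
  obtain ⟨i₀, hi₀, hi₀'⟩ := num_min hk hu0 hγ (by rw [← hS]; exact hSγ) h12
  have hγ₀ := hγ i₀ hi₀
  have h1 : (1 : ℝ) ≤ c i₀ := by exact_mod_cast hi₀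
  have hg : γ ≤ 2 * K * u := by linarith
  have hKu : (1 : ℝ) ≤ 2 * K * u := by linarith
  have hKu2 : 2 * K * u ≤ (2 * K * u) ^ 2 := by nlinarith
  -- the sides
  have hKuab : 4 * K * u * (a * b) ≤ (u * (a * b)) ^ 2 := by
    have e1 : (12 * K : ℝ) * (12 * K) ≤ a * b := mul_le_mul haK hbK (by positivity) (by positivity)
    have e2 : 4 * K ≤ u * (a * b) := by
      have : u * (12 * K * (12 * K)) ≤ u * (a * b) := mul_le_mul_of_nonneg_left e1 hu0.le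
      nlinarith
    have e3 : 0 ≤ u * (a * b) := by positivity
    nlinarith
  have hside : (b * s - a * s') ^ 2 ≤ ((v : ℝ) / 2) ^ 2 := by
    have e1 : η ≤ K * u := by linarith
    have e2 : 4 * (a * b) * η ≤ 4 * (a * b) * (K * u) :=
      mul_le_mul_of_nonneg_left e1 (by positivity)
    have e3 : ((v : ℝ) / 2) ^ 2 = (u * (a * b)) ^ 2 := by rw [← hu]; ring
    rw [e3, ← hη4]
    linarith
  have hside' := abs_le_of_sq_le_sq hside (by positivity)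
  have hs1 := le_of_abs_le hside'
  have hs2 := neg_le_of_abs_le hside'
  refine ⟨?_, ?_, ?_, ?_, ?_⟩
  · intro i
    have hsq : ((c i : ℝ) - u * k i) ^ 2 ≤ (2 * K * u) ^ 2 := by
      have : ((c i : ℝ) - u * k i) ^ 2 ≤ S := by
        rw [hS]
        exact Finset.single_le_sum (f := fun i => ((c i : ℝ) - u * k i) ^ 2)
          (fun i _ => sq_nonneg _) (Finset.mem_univ i)
      linarith
    have h2 : (c i : ℝ) - u * k i ≤ 2 * K * u :=
      le_of_abs_le (abs_le_of_sq_le_sq hsq (by positivity))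
    have h3 : (k i : ℝ) ≤ K := by exact_mod_cast hk i
    have h4 : (c i : ℝ) ≤ 3 * K * u := by nlinarith
    have h5 : (2 * (a * b) : ℝ) * c i ≤ 3 * K * v := by
      calc (2 * (a * b) : ℝ) * c i ≤ 2 * (a * b) * (3 * K * u) :=
            mul_le_mul_of_nonneg_left h4 (by positivity)
        _ = 3 * K * (u * (2 * (a * b))) := by ring
        _ = 3 * K * v := by rw [hu]
    exact_mod_cast h5
  · have h2 : u ^ 2 * |(L₂ : ℝ)| ≤ 2 * K * u := by linarith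
    have h3 : u * |(L₂ : ℝ)| ≤ 2 * K := by
      have : u * (u * |(L₂ : ℝ)|) ≤ u * (2 * K) := by linarith
      exact le_of_mul_le_mul_left this hu0
    have h4 : (v : ℝ) * |(L₂ : ℝ)| ≤ 4 * K * (a * b) := by
      calc (v : ℝ) * |(L₂ : ℝ)| = (u * |(L₂ : ℝ)|) * (2 * (a * b)) := by rw [← hu]; ring
        _ ≤ 2 * K * (2 * (a * b)) := mul_le_mul_of_nonneg_right h3 (by positivity)
        _ = 4 * K * (a * b) := by ring
    exact_mod_cast h4
  · have : (v : ℝ) ≤ 4 * (b * s) := by linarith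
    exact_mod_cast this
  · have : (v : ℝ) ≤ 4 * (a * s') := by linarith
    exact_mod_cast this
  · have hfin : (c₀ : ℝ) ^ 2 ≤ γ := by
      interval_cases k₀
      · simp only [Nat.cast_zero, mul_zero, sub_zero] at hiden
        linarith
      · have hc : (4 * K + 2 : ℝ) ≤ L₂ := by
          rcases hcase with ⟨-, h⟩ | ⟨h, -⟩
          · exact_mod_cast (by simpa using h)
          · exact absurd h one_ne_zero
        have hL0 : (0 : ℝ) ≤ L₂ := by linarith [hc, hK0]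
        rw [abs_of_nonneg hL0] at hδ
        have e1 : u ^ 2 * (4 * K + 2) ≤ u ^ 2 * L₂ := mul_le_mul_of_nonneg_left hc (sq_nonneg u)
        have e2 : ((c₀ : ℝ) - u * (1 : ℕ)) ^ 2 ≤ (2 * K * u) ^ 2 := by linarith
        have e3 : (c₀ : ℝ) - u * (1 : ℕ) ≤ 2 * K * u :=
          le_of_abs_le (abs_le_of_sq_le_sq e2 (by positivity))
        have e4 : 2 * u * c₀ ≤ u ^ 2 * (4 * K + 2) := by
          push_cast at e3
          have : u * c₀ ≤ u * (u + 2 * K * u) := mul_le_mul_of_nonneg_left (by linarith) hu0.le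
          nlinarith
        push_cast at hiden
        nlinarith [sq_nonneg u]
    have : 2 * ((s : ℝ) * s') ≤ S1 := by linarith
    rw [hS1] at this
    exact_mod_cast this

end ZNum

end Pool.Agent.Work.MP_0421d9_ag.LD
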