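import Pool.Agent.Work.MP_0421d9_ag.ZCurveCount

/-!
The local claim in the proof of the curve lemma.
-/

namespace Pool.Agent.Work.MP_0421d9_ag.LD

open MvPolynomial Module

/-! ### coefficients with two indices -/

/-- the coefficient of `X₀ ^ i X₁ ^ j` -/
noncomputable def cf (f : P2) (i j : ℕ) : ℂ :=
  coeff (Finsupp.single 0 i + Finsupp.single 1 j : Fin 2 →₀ ℕ) f

theorem cf_eq (f : P2) (β : Fin 2 →₀ ℕ) : coeff β f = cf f (β 0) (β 1) := by
  unfold cf
  congr 1
  ext k
  fin_cases k
  · simp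
  · simp

theorem cf_sub (f g : P2) (i j : ℕ) : cf (f - g) i j = cf f i j - cf g i j := by
  unfold cf
  rw [coeff_sub]

theorem cf_X0_succ (f : P2) (i j : ℕ) : cf (X 0 * f) (i + 1) j = cf f i j := by
  unfold cf
  have h : (Finsupp.single 0 (i + 1) + Finsupp.single 1 j : Fin 2 →₀ ℕ) =
      Finsupp.single 0 1 + (Finsupp.single 0 i + Finsupp.single 1 j) := by
    rw [← add_assoc, ← Finsupp.single_add, add_comm 1 i]
  rw [h, coeff_X_mul]

theorem cf_X1_succ (f : P2) (i j : ℕ) : cf (X 1 * f) i (j + 1) = cf f i j := by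
  unfold cf
  have h : (Finsupp.single 0 i + Finsupp.single 1 (j + 1) : Fin 2 →₀ ℕ) =
      Finsupp.single 1 1 + (Finsupp.single 0 i + Finsupp.single 1 j) := by
    rw [add_left_comm, ← Finsupp.single_add, add_comm 1 j]
  rw [h, coeff_X_mul]

theorem cf_X0_zero (f : P2) (j : ℕ) : cf (X 0 * f) 0 j = 0 := by
  classical
  unfold cf
  rw [coeff_X_mul', if_neg]
  rw [Finsupp.mem_support_iff]
  simp

theorem cf_X1_zero (f : P2) (i : ℕ) : cf (X 1 * f) i 0 = 0 := by
  classical
  unfold cf
  rw [coeff_X_mul', if_neg]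
  rw [Finsupp.mem_support_iff]
  simp

theorem van2_iff_cf {f : P2} {m : ℕ} : Van2 f m ↔ ∀ i j, i + j < m → cf f i j = 0 := by
  constructor
  · intro h i j hij
    apply h
    rw [degree_two]
    simpa using hij
  · intro h β hβ
    rw [cf_eq]
    rw [degree_two] at hβ
    exact h _ _ hβ

/-! ### the chain -/

theorem chain_van {M B : ℕ} (w : ℕ → P2)
    (h : ∀ a, a < M → Van2 (X 0 * w a - X 1 * w (a + 1)) B) :
    ∀ a, a ≤ M → Van2 (w a) (min (B - 1) M) := by
  have up : ∀ j i a, a + j < M → i + j + 1 < B → cf (w a) i j = 0 := by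
    intro j
    induction j with
    | zero =>
      intro i a h1 h2
      have h3 := van2_iff_cf.mp (h a (by omega)) (i + 1) 0 (by omega)
      rwa [cf_sub, cf_X0_succ, cf_X1_zero, sub_zero] at h3
    | succ j ih =>
      intro i a h1 h2
      have h3 := van2_iff_cf.mp (h a (by omega)) (i + 1) (j + 1) (by omega)
      rw [cf_sub, cf_X0_succ, cf_X1_succ, ih (i + 1) (a + 1) (by omega) (by omega),
        sub_zero] at h3
      exact h3
  have down : ∀ i j a, i < a → a ≤ M → i + j + 1 < B → cf (w a) i j = 0 := by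
    intro i
    induction i with
    | zero =>
      intro j a h1 h2 h3
      obtain ⟨a', rfl⟩ : ∃ a', a = a' + 1 := ⟨a - 1, by omega⟩
      have h4 := van2_iff_cf.mp (h a' (by omega)) 0 (j + 1) (by omega)
      rw [cf_sub, cf_X0_zero, cf_X1_succ, zero_sub, neg_eq_zero] at h4
      exact h4
    | succ i ih =>
      intro j a h1 h2 h3
      obtain ⟨a', rfl⟩ : ∃ a', a = a' + 1 := ⟨a - 1, by omega⟩
      have h4 := van2_iff_cf.mp (h a' (by omega)) (i + 1) (j + 1) (by omega)
      rw [cf_sub, cf_X0_succ, cf_X1_succ, ih (j + 1) a' (by omega) (by omega) (by omega),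
        zero_sub, neg_eq_zero] at h4
      exact h4
  intro a ha
  rw [van2_iff_cf]
  intro i j hij
  have h1 : i + j < B - 1 := lt_of_lt_of_le hij (min_le_left _ _)
  have h2 : i + j < M := lt_of_lt_of_le hij (min_le_right _ _)
  rcases Nat.lt_or_ge (a + j) M with h3 | h3
  · exact up j i a h3 (by omega)
  · exact down i j a (by omega) ha (by omega)

/-! ### decomposition -/

theorem split_one {H : P2} {n : ℕ} (h : Van2 H (n + 1)) :
    ∃ P R : P2, H = X 0 * P + X 1 * R ∧ Van2 P n ∧ Van2 R n := by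
  set H' := modMonomial H (Finsupp.single 0 1) with hH'
  have e1 : X 0 * divMonomial H (Finsupp.single 0 1) + H' = H :=
    divMonomial_add_modMonomial_single H 0
  have e2 : X 1 * divMonomial H' (Finsupp.single 1 1) + modMonomial H' (Finsupp.single 1 1) = H' :=
    divMonomial_add_modMonomial_single H' 1
  have hc : ∀ β : Fin 2 →₀ ℕ, β.degree < n + 1 → coeff β H' = 0 := by
    intro β hβ
    by_cases hle : Finsupp.single 0 1 ≤ β
    · exact coeff_modMonomial_of_le _ hle
    · rw [hH', coeff_modMonomial_of_not_le _ hle]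
      exact h β hβ
  have e3 : modMonomial H' (Finsupp.single 1 1) = 0 := by
    ext β
    rw [coeff_zero]
    by_cases hle : Finsupp.single 1 1 ≤ β
    · exact coeff_modMonomial_of_le _ hle
    · rw [coeff_modMonomial_of_not_le _ hle]
      by_cases hle0 : Finsupp.single 0 1 ≤ β
      · rw [hH']
        exact coeff_modMonomial_of_le _ hle0
      · apply hc
        rw [degree_two]
        rw [Finsupp.single_le_iff] at hle hle0
        omega
  refine ⟨divMonomial H (Finsupp.single 0 1), divMonomial H' (Finsupp.single 1 1), ?_, ?_, ?_⟩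
  · rw [e3, add_zero] at e2
    rw [e2, e1]
  · intro β hβ
    rw [coeff_divMonomial]
    apply h
    rw [map_add, Finsupp.degree_single]
    omega
  · intro β hβ
    rw [coeff_divMonomial]
    apply hc
    rw [map_add, Finsupp.degree_single]
    omega

/-- the coordinate centered at `x` -/
noncomputable def xi (x : Fin 2 → ℂ) (l : Fin 2) : P2 := X l - C (x l)

theorem sh_xi (x : Fin 2 → ℂ) (l : Fin 2) : sh x (xi x l) = X l := by
  rw [xi, map_sub, sh_X, sh_C, add_sub_cancel_left]

theorem vq_xi (x : Fin 2 → ℂ) (l : Fin 2) : Vq x (xi x l) 1 := vq_X_sub x l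

theorem split_xi {x : Fin 2 → ℂ} {H : P2} {n : ℕ} (h : Vq x H (n + 1)) :
    ∃ P R : P2, H = xi x 0 * P + xi x 1 * R ∧ Vq x P n ∧ Vq x R n := by
  obtain ⟨P, R, h1, h2, h3⟩ := split_one h
  refine ⟨sh (-x) P, sh (-x) R, ?_, ?_, ?_⟩
  · apply sh_injective x
    rw [map_add, map_mul, map_mul, sh_xi, sh_xi, sh_sh_neg, sh_sh_neg, h1]
  · unfold Vq
    rw [sh_sh_neg]
    exact h2
  · unfold Vq
    rw [sh_sh_neg]
    exact h3

theorem decomp {x : Fin 2 → ℂ} (m : ℕ) : ∀ {F : P2} {n : ℕ}, Vq x F (m + n) →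
    ∃ h : ℕ → P2, F = ∑ a ∈ Finset.range (m + 1), xi x 0 ^ a * xi x 1 ^ (m - a) * h a ∧
      ∀ a, Vq x (h a) n := by
  induction m with
  | zero =>
    intro F n hF
    refine ⟨fun _ => F, ?_, fun _ => by rwa [zero_add] at hF⟩
    simp
  | succ m ih =>
    intro F n hF
    obtain ⟨h, h1, h2⟩ := ih (n := n + 1) (F := F) (by
      have e : m + (n + 1) = m + 1 + n := by ring
      rw [e]
      exact hF)
    choose P R e hP hR using fun a => split_xi (h2 a)
    refine ⟨fun a => (if a = 0 then 0 else P (a - 1)) + (if a = m + 1 then 0 else R a), ?_, ?_⟩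
    · have e1 : ∑ a ∈ Finset.range (m + 1 + 1), xi x 0 ^ a * xi x 1 ^ (m + 1 - a) *
          ((if a = 0 then 0 else P (a - 1)) + (if a = m + 1 then 0 else R a)) =
          ∑ a ∈ Finset.range (m + 1 + 1), xi x 0 ^ a * xi x 1 ^ (m + 1 - a) *
            (if a = 0 then 0 else P (a - 1)) +
          ∑ a ∈ Finset.range (m + 1 + 1), xi x 0 ^ a * xi x 1 ^ (m + 1 - a) *
            (if a = m + 1 then 0 else R a) := by
        rw [← Finset.sum_add_distrib]
        refine Finset.sum_congr rfl fun a _ => ?_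
        ring
      rw [e1, Finset.sum_range_succ' _ (m + 1), Finset.sum_range_succ _ (m + 1)]
      rw [if_pos rfl, if_pos rfl, mul_zero, mul_zero, add_zero, add_zero, h1,
        ← Finset.sum_add_distrib]
      refine Finset.sum_congr rfl fun a ha => ?_
      rw [Finset.mem_range] at ha
      rw [if_neg (Nat.succ_ne_zero a), if_neg (by omega), e a]
      have e2 : m + 1 - (a + 1) = m - a := by omega
      have e3 : m + 1 - a = m - a + 1 := by omega
      rw [e2, e3, Nat.add_sub_cancel]
      ring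
    · intro a
      refine Vq.add ?_ ?_
      · split_ifs
        · exact Vq.zero _ _
        · exact hP _
      · split_ifs
        · exact Vq.zero _ _
        · exact hR _

/-! ### the local claim -/

section

variable {ι : Type} [Fintype ι] {q : ι → Fin 2 → ℂ}

theorem local_claim_one (hq : Function.Injective q) {b c g : P2} (hb : Irreducible b)
    (hbc : ¬ b ∣ c) {m : ι → ℕ}
    (hrel : ∀ F : P2, (∀ i, Vq (q i) F (m i)) → ∃ v, b ∣ F * g - c * v) {F v : P2} (i : ι)
    (hF : Vq (q i) F (m i + mu (q i) b)) (hv : b ∣ F * g - c * v) :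
    ∃ u, Vq (q i) (v - b * u) (mu (q i) b + min (mu (q i) b - 1) (m i)) := by
  classical
  set B := mu (q i) b with hB
  set M := m i with hM
  set N := B + min (B - 1) M with hN
  -- a partition of unity
  obtain ⟨e, he⟩ := interp hq (fun j => if j = i then N else m j)
    (fun j => if j = i then 1 else 0)
  have hei : Vq (q i) (e - 1) N := by
    have h1 := he i
    rwa [if_pos rfl, if_pos rfl] at h1
  have hej : ∀ j, j ≠ i → Vq (q j) e (m j) := by
    intro j hj
    have h1 := he j
    rwa [if_neg hj, if_neg hj, sub_zero] at h1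
  -- the elements `E a`
  have hE : ∀ a, a ≤ M → ∃ w, b ∣ e * xi (q i) 0 ^ a * xi (q i) 1 ^ (M - a) * g - c * w := by
    intro a ha
    apply hrel
    intro j
    by_cases hj : j = i
    · subst hj
      have h1 := ((vq_xi (q j) 0).pow a).mul ((vq_xi (q j) 1).pow (M - a))
      have h2 := h1.mul_left e
      rw [mul_one, mul_one, ← mul_assoc] at h2
      exact h2.mono (by omega)
    · exact ((hej j hj).mul_right _).mul_right _
  choose! w hw using hE
  -- the chain
  have hchain : ∀ a, a < M → Van2 (X 0 * sh (q i) (w a) - X 1 * sh (q i) (w (a + 1))) B := by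
    intro a ha
    have h1 := hw a ha.le
    have h2 := hw (a + 1) ha
    have e1 : M - a = M - (a + 1) + 1 := by omega
    have h3 : b ∣ c * (xi (q i) 0 * w a - xi (q i) 1 * w (a + 1)) := by
      have h4 := dvd_sub (Dvd.dvd.mul_left h2 (xi (q i) 1)) (Dvd.dvd.mul_left h1 (xi (q i) 0))
      have h5 : xi (q i) 1 * (e * xi (q i) 0 ^ (a + 1) * xi (q i) 1 ^ (M - (a + 1)) * g -
          c * w (a + 1)) - xi (q i) 0 * (e * xi (q i) 0 ^ a * xi (q i) 1 ^ (M - a) * g -
          c * w a) = c * (xi (q i) 0 * w a - xi (q i) 1 * w (a + 1)) := by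
        rw [e1]
        ring
      rwa [h5] at h4
    have h6 : b ∣ xi (q i) 0 * w a - xi (q i) 1 * w (a + 1) := by
      rcases hb.prime.dvd_or_dvd h3 with h7 | h7
      · exact absurd h7 hbc
      · exact h7
    obtain ⟨z, hz⟩ := h6
    have h8 : Vq (q i) (xi (q i) 0 * w a - xi (q i) 1 * w (a + 1)) B := by
      rw [hz]
      exact (vq_mu (q i) hb.ne_zero).mul_right z
    unfold Vq at h8
    rwa [map_sub, map_mul, map_mul, sh_xi, sh_xi] at h8
  have hord : ∀ a, a ≤ M → Vq (q i) (w a) (min (B - 1) M) :=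
    chain_van (fun a => sh (q i) (w a)) hchain
  -- the decomposition of `F`
  obtain ⟨h, hFh, hh⟩ := decomp M hF
  have hS : Vq (q i) (∑ a ∈ Finset.range (M + 1), h a * w a) N := by
    have : ∀ s : Finset ℕ, (∀ a ∈ s, a ≤ M) → Vq (q i) (∑ a ∈ s, h a * w a) N := by
      intro s
      induction s using Finset.induction_on with
      | empty =>
        intro _
        rw [Finset.sum_empty]
        exact Vq.zero _ _
      | insert a s ha ih =>
        intro hs
        rw [Finset.sum_insert ha]
        refine Vq.add ?_ (ih fun a' ha' => hs a' (Finset.mem_insert_of_mem ha'))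
        exact (hh a).mul (hord a (hs a (Finset.mem_insert_self _ _)))
    exact this _ fun a ha => Nat.lt_succ_iff.mp (Finset.mem_range.mp ha)
  have hdvd : b ∣ c * (e * v - ∑ a ∈ Finset.range (M + 1), h a * w a) := by
    have h1 : b ∣ ∑ a ∈ Finset.range (M + 1),
        h a * (e * xi (q i) 0 ^ a * xi (q i) 1 ^ (M - a) * g - c * w a) := by
      refine Finset.dvd_sum fun a ha => ?_
      exact Dvd.dvd.mul_left (hw a (Nat.lt_succ_iff.mp (Finset.mem_range.mp ha))) _
    have h2 := dvd_sub h1 (Dvd.dvd.mul_left hv e)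
    have h3 : ∑ a ∈ Finset.range (M + 1),
        h a * (e * xi (q i) 0 ^ a * xi (q i) 1 ^ (M - a) * g - c * w a) =
        e * F * g - c * ∑ a ∈ Finset.range (M + 1), h a * w a := by
      conv_rhs => rw [hFh]
      rw [Finset.mul_sum, Finset.sum_mul, Finset.mul_sum, ← Finset.sum_sub_distrib]
      refine Finset.sum_congr rfl fun a _ => ?_
      ring
    rw [h3] at h2
    have h4 : e * F * g - c * ∑ a ∈ Finset.range (M + 1), h a * w a - e * (F * g - c * v) =
        c * (e * v - ∑ a ∈ Finset.range (M + 1), h a * w a) := by ring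
    rwa [h4] at h2
  have hdvd' : b ∣ e * v - ∑ a ∈ Finset.range (M + 1), h a * w a := by
    rcases hb.prime.dvd_or_dvd hdvd with h7 | h7
    · exact absurd h7 hbc
    · exact h7
  obtain ⟨u, hu⟩ := hdvd'
  refine ⟨u, ?_⟩
  have h9 : v - b * u = ∑ a ∈ Finset.range (M + 1), h a * w a - (e - 1) * v := by
    rw [← hu]
    ring
  rw [h9]
  exact hS.sub (hei.mul_right v)

theorem local_claim (hq : Function.Injective q) {b c g : P2} (hb : Irreducible b)
    (hbc : ¬ b ∣ c) {m : ι → ℕ}
    (hrel : ∀ F : P2, (∀ i, Vq (q i) F (m i)) → ∃ v, b ∣ F * g - c * v) {F v : P2}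
    (hF : ∀ i, Vq (q i) F (m i + mu (q i) b)) (hv : b ∣ F * g - c * v) :
    ∃ u, ∀ i, Vq (q i) (v - b * u) (mu (q i) b + min (mu (q i) b - 1) (m i)) := by
  choose u hu using fun i => local_claim_one hq hb hbc hrel i (hF i) hv
  obtain ⟨u', hu'⟩ := interp hq (fun i => mu (q i) b + min (mu (q i) b - 1) (m i)) u
  refine ⟨u', fun i => ?_⟩
  have h1 : v - b * u' = v - b * u i - b * (u' - u i) := by ring
  rw [h1]
  exact (hu i).sub ((hu' i).mul_left b)

end

end Pool.Agent.Work.MP_0421d9_ag.LD
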