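import Pool.Agent.Work.MP_0421d9_ag.ZCI2
import Pool.Agent.Work.MP_0421d9_ag.ZLoc

/-!
The curve lemma: relations killed by an irreducible polynomial.
-/

namespace Pool.Agent.Work.MP_0421d9_ag.LD

open MvPolynomial Module

variable {ι : Type} [Fintype ι] {q : ι → Fin 2 → ℂ}

/-- `D` is the degree plus one -/
theorem rel_curve (hq : Function.Injective q) {b : P2} (hb : Irreducible b) {D : ℕ} {m : ι → ℕ}
    {τ : P2 →ₗ[ℂ] ℂ} (hτ : τ ≠ 0) (hrel : IsRel D q m τ) (hbτ : ∀ f, τ (b * f) = 0) :
    (D + 2 - b.totalDegree) * b.totalDegree ≤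
      ∑ i, (m i + 1 - mu (q i) b) * mu (q i) b := by
  classical
  obtain ⟨c, g, M, hM, hbc, hbg, hF⟩ := CI.ci_dual hb hτ hrel hbτ
  -- polynomials with the right orders annihilate the relation
  have hann : ∀ F : P2, (∀ i, Vq (q i) F (m i)) → ∀ f, τ (F * f) = 0 := fun F h f =>
    hrel.2 _ fun i => (h i).mul_right f
  have hrel' : ∀ F : P2, (∀ i, Vq (q i) F (m i)) → ∃ v, b ∣ F * g - c * v := by
    intro F h
    obtain ⟨u, v, e, -⟩ := hF F (hann F h)
    exact ⟨v, u, by rw [e]; ring⟩
  have hcount := curve_count hq hb hbg (c := c) (s := fun i => m i + mu (q i) b)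
    (s' := fun i => mu (q i) b + min (mu (q i) b - 1) (m i)) (fun i => Nat.le_add_left _ _)
    (fun i => Nat.le_add_right _ _) (x := ∑ i, m i) (y := M) (N₀ := 0) ?_
  · -- arithmetic
    have h1 : ∑ i, mu (q i) b * (m i + mu (q i) b) =
        ∑ i, mu (q i) b * (mu (q i) b + min (mu (q i) b - 1) (m i)) +
          ∑ i, (m i + 1 - mu (q i) b) * mu (q i) b := by
      rw [← Finset.sum_add_distrib]
      refine Finset.sum_congr rfl fun i _ => ?_
      rcases Nat.eq_zero_or_pos (mu (q i) b) with h0 | h0
      · rw [h0]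
        simp
      · rcases le_total (mu (q i) b - 1) (m i) with h2 | h2
        · rw [min_eq_left h2]
          obtain ⟨t, ht⟩ : ∃ t, m i = mu (q i) b - 1 + t := ⟨_, (Nat.add_sub_cancel' h2).symm⟩
          have h3 : m i + 1 - mu (q i) b = t := by omega
          rw [h3, ht]
          ring
        · rw [min_eq_right h2]
          have h3 : m i + 1 - mu (q i) b = 0 := by omega
          rw [h3]
          ring
    have h2 : b.totalDegree * (∑ i, m i) ≤
        b.totalDegree * M + ∑ i, (m i + 1 - mu (q i) b) * mu (q i) b := by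
      rw [h1] at hcount
      omega
    rcases le_total (D + 2) b.totalDegree with h4 | h4
    · rw [Nat.sub_eq_zero_of_le h4, zero_mul]
      exact Nat.zero_le _
    · have h3 : b.totalDegree * (M + (D + 2 - b.totalDegree)) ≤ b.totalDegree * (∑ i, m i) :=
        Nat.mul_le_mul_left _ (by omega)
      rw [mul_add, mul_comm b.totalDegree (D + 2 - b.totalDegree)] at h3
      omega
  · rintro N - F hFd ⟨w, hw⟩
    have h1 : ∀ f, τ (F * f) = 0 := by
      intro f
      have e : F * f = (F - b * w) * f + b * (w * f) := by ring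
      rw [e, map_add, hbτ, add_zero]
      exact hann _ (fun i => (hw i).mono (Nat.le_add_right _ _)) f
    obtain ⟨u, v, e, hv⟩ := hF F h1
    refine ⟨v, ?_, ?_, u, by rw [e]; ring⟩
    · rcases hv with hv | hv
      · rw [hv, totalDegree_zero]
        exact Nat.zero_le _
      · omega
    · exact local_claim hq hb hbc hrel' hw ⟨u - w * g, by rw [sub_mul, e]; ring⟩

end Pool.Agent.Work.MP_0421d9_ag.LD
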