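import Pool.Agent.Work.MP_0421d9_ag.ZNeg
import Pool.Agent.Work.MP_0421d9_ag.ZBez
import Pool.Agent.Work.MP_0421d9_ag.ZIV

/-!
Vanishing: relations and pairs of curves.
-/

namespace Pool.Agent.Work.MP_0421d9_ag.LD

open MvPolynomial Module

section ZPos

variable {ι : Type} [Fintype ι] {q : ι → Fin 2 → ℂ}

/-- the statement of the curve lemma `rel_curve` for the points `q` -/
def RelCurve (q : ι → Fin 2 → ℂ) : Prop :=
  ∀ {b : P2}, Irreducible b → ∀ {D : ℕ} {m : ι → ℕ} {τ : P2 →ₗ[ℂ] ℂ}, τ ≠ 0 → IsRel D q m τ →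
    (∀ f, τ (b * f) = 0) → (D + 2 - b.totalDegree) * b.totalDegree ≤
      ∑ i, (m i + 1 - mu (q i) b) * mu (q i) b

/-- the functional `f ↦ τ (a f)` -/
noncomputable def mulT (a : P2) (τ : P2 →ₗ[ℂ] ℂ) : P2 →ₗ[ℂ] ℂ := τ ∘ₗ LinearMap.mulLeft ℂ a

@[simp] theorem mulT_apply (a : P2) (τ : P2 →ₗ[ℂ] ℂ) (f : P2) : mulT a τ f = τ (a * f) := rfl

omit [Fintype ι] in
theorem mulT_isRel {D : ℕ} {m : ι → ℕ} {τ : P2 →ₗ[ℂ] ℂ} (hrel : IsRel D q m τ) {a : P2}
    {D' : ℕ} {m' : ι → ℕ} (hd : ∀ f : P2, f.totalDegree < D' → (a * f).totalDegree < D)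
    (hv : ∀ i, ∀ f : P2, Vq (q i) f (m' i) → Vq (q i) (a * f) (m i)) :
    IsRel D' q m' (mulT a τ) :=
  ⟨fun f hf => hrel.1 _ (hd f hf), fun f hf => hrel.2 _ fun i => hv i f (hf i)⟩

/-- a divisor of minimal degree which kills the relation -/
theorem exists_min_factor {τ : P2 →ₗ[ℂ] ℂ} {a : P2} (ha : a ≠ 0)
    (haτ : ∀ f, τ (a * f) = 0) : ∃ a₁, a₁ ∣ a ∧ (∀ f, τ (a₁ * f) = 0) ∧
      ∀ b a₂, Irreducible b → a₁ = b * a₂ → ∃ f, τ (a₂ * f) ≠ 0 := by
  classical
  have hex : ∃ n, ∃ a₁ : P2, a₁ ∣ a ∧ (∀ f, τ (a₁ * f) = 0) ∧ a₁.totalDegree = n :=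
    ⟨_, a, dvd_rfl, haτ, rfl⟩
  obtain ⟨a₁, h1, h2, h3⟩ := Nat.find_spec hex
  refine ⟨a₁, h1, h2, fun b a₂ hb he => ?_⟩
  by_contra hcon
  push Not at hcon
  have ha₂d : a₂ ∣ a := (Dvd.intro_left b he.symm).trans h1
  have ha₂ : a₂ ≠ 0 := fun h => ha (by rw [h] at ha₂d; exact zero_dvd_iff.1 ha₂d)
  have hmin := Nat.find_min' hex ⟨a₂, ha₂d, hcon, rfl⟩
  have hdeg : a₁.totalDegree = b.totalDegree + a₂.totalDegree := by
    rw [he]; exact totalDegree_mul' hb.ne_zero ha₂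
  have := totalDegree_pos_of_irreducible hb
  omega

theorem pos_side_of (hRC : RelCurve q) (hq : Function.Injective q) {D : ℕ} {m : ι → ℕ}
    {τ : P2 →ₗ[ℂ] ℂ} (hτ : τ ≠ 0)
    (hrel : IsRel (D + 1) q m τ) {a : P2} (ha : a ≠ 0) (haτ : ∀ f, τ (a * f) = 0) {α : ℕ}
    {A : ι → ℕ} (hα : a.totalDegree ≤ α) (hA : ∀ i, Vq (q i) a (A i)) {g : P2} (hg : g ≠ 0)
    (hgd : g.totalDegree + α ≤ D + 2) (hgA : ∀ i, Vq (q i) g (m i + 1 - A i)) :
    ∃ b, Irreducible b ∧ b ∣ a ∧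
      (D + 3) * b.totalDegree < ∑ i, (m i + 1) * mu (q i) b := by
  by_contra hcon
  push Not at hcon
  obtain ⟨a₁, ⟨a₃, ha₃⟩, ha₁τ, hmin⟩ := exists_min_factor ha haτ
  have ha₁ : a₁ ≠ 0 := by rintro rfl; exact ha (by rw [ha₃, zero_mul])
  have ha₃0 : a₃ ≠ 0 := by rintro rfl; exact ha (by rw [ha₃, mul_zero])
  have hdega : a.totalDegree = a₁.totalDegree + a₃.totalDegree := by
    rw [ha₃]; exact totalDegree_mul' ha₁ ha₃0
  have hmua : ∀ i, mu (q i) a = mu (q i) a₁ + mu (q i) a₃ := fun i => by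
    rw [ha₃]; exact mu_mul ha₁ ha₃0
  -- `a₁` is not a unit
  have hnu : ¬ IsUnit a₁ := by
    intro hu
    apply hτ
    refine LinearMap.ext fun f => ?_
    obtain ⟨v, hv⟩ := hu.exists_right_inv
    have := ha₁τ (v * f)
    rw [← mul_assoc, hv, one_mul] at this
    simpa using this
  have hα₁ : 1 ≤ a₁.totalDegree := by
    obtain ⟨b, hb, hbd⟩ := exists_irreducible_dvd ha₁ hnu
    obtain ⟨c, hc⟩ := hbd
    have hc0 : c ≠ 0 := by rintro rfl; exact ha₁ (by rw [hc, mul_zero])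
    have := totalDegree_pos_of_irreducible hb
    rw [hc, totalDegree_mul' hb.ne_zero hc0]
    omega
  have hα₁' : a₁.totalDegree ≤ D + 2 := by omega
  -- the inequality for the factors of `a₁`
  have hstar : ∀ b, Irreducible b → b ∣ a₁ → (D + 3 - a₁.totalDegree) * b.totalDegree ≤
      ∑ i, (m i + 1 - mu (q i) a₁) * mu (q i) b := by
    rintro b hb ⟨a₂, ha₂⟩
    have ha₂0 : a₂ ≠ 0 := by rintro rfl; exact ha₁ (by rw [ha₂, mul_zero])
    have hdb := totalDegree_pos_of_irreducible hb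
    have hd : a₁.totalDegree = b.totalDegree + a₂.totalDegree := by
      rw [ha₂]; exact totalDegree_mul' hb.ne_zero ha₂0
    have hm : ∀ i, mu (q i) a₁ = mu (q i) b + mu (q i) a₂ := fun i => by
      rw [ha₂]; exact mu_mul hb.ne_zero ha₂0
    obtain ⟨f₀, hf₀⟩ := hmin b a₂ hb ha₂
    have hne : mulT a₂ τ ≠ 0 := fun h => hf₀ (by
      have := LinearMap.congr_fun h f₀
      simpa using this)
    have hr : IsRel (D + 1 - a₂.totalDegree) q (fun i => m i - mu (q i) a₂) (mulT a₂ τ) := by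
      refine mulT_isRel hrel ?_ ?_
      · intro f hf
        have := totalDegree_mul a₂ f
        omega
      · intro i f hf
        exact ((vq_mu (q i) ha₂0).mul hf).mono (by omega)
    have hk : ∀ f, mulT a₂ τ (b * f) = 0 := by
      intro f
      rw [mulT_apply, ← mul_assoc, mul_comm a₂ b, ← ha₂]
      exact ha₁τ f
    have h := hRC hb hne hr hk
    have e1 : D + 1 - a₂.totalDegree + 2 - b.totalDegree = D + 3 - a₁.totalDegree := by omega
    rw [e1] at h
    refine h.trans (Finset.sum_le_sum fun i _ => ?_)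
    have hmi := hm i
    rcases le_or_gt (mu (q i) a₂) (m i) with h1 | h1
    · exact Nat.mul_le_mul_right _ (by omega)
    · rcases Nat.eq_zero_or_pos (mu (q i) b) with h2 | h2
      · rw [h2]; simp
      · have : m i - mu (q i) a₂ + 1 - mu (q i) b = 0 := by omega
        rw [this, zero_mul]
        exact Nat.zero_le _
  -- sum over the factors of `a₁`
  have hsum1 : (D + 3 - a₁.totalDegree) * a₁.totalDegree ≤
      ∑ i, (m i + 1 - mu (q i) a₁) * mu (q i) a₁ := le_sum_factor ha₁ hstar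
  -- the curve `g a₃`
  have hG : g * a₃ ≠ 0 := mul_ne_zero hg ha₃0
  have hGd : (g * a₃).totalDegree ≤ D + 2 - a₁.totalDegree := by
    rw [totalDegree_mul' hg ha₃0]
    omega
  have hGm : ∀ i, m i + 1 - mu (q i) a₁ ≤ mu (q i) (g * a₃) := by
    intro i
    have h1 := (vq_iff hg).1 (hgA i)
    have h2 := (vq_iff ha).1 (hA i)
    rw [mu_mul hg ha₃0]
    have := hmua i
    omega
  have hfac : ∀ C, Irreducible C → C ∣ g * a₃ →
      ∑ i, min (mu (q i) a₁) (m i + 1) * mu (q i) C ≤ a₁.totalDegree * C.totalDegree := by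
    intro C hC _
    by_cases hCa : C ∣ a₁
    · have h1 := hstar C hC hCa
      have h2 := hcon C hC (hCa.trans (Dvd.intro _ ha₃.symm))
      have e1 : ∑ i, min (mu (q i) a₁) (m i + 1) * mu (q i) C +
          ∑ i, (m i + 1 - mu (q i) a₁) * mu (q i) C = ∑ i, (m i + 1) * mu (q i) C := by
        rw [← Finset.sum_add_distrib]
        refine Finset.sum_congr rfl fun i _ => ?_
        rw [← add_mul]
        congr 1
        omega
      have e2 : (D + 3 - a₁.totalDegree) * C.totalDegree + a₁.totalDegree * C.totalDegree =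
          (D + 3) * C.totalDegree := by
        rw [← add_mul]
        congr 1
        omega
      omega
    · have hrp : IsRelPrime C a₁ := hC.isRelPrime_iff_not_dvd.2 hCa
      have := bezout hq hC.ne_zero ha₁ hrp
      rw [mul_comm a₁.totalDegree]
      refine le_trans (Finset.sum_le_sum fun i _ => ?_) this
      rw [mul_comm]
      exact Nat.mul_le_mul_left _ (min_le_left _ _)
  have hsum2 : ∑ i, min (mu (q i) a₁) (m i + 1) * mu (q i) (g * a₃) ≤
      a₁.totalDegree * (g * a₃).totalDegree := sum_factor_le hG hfac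
  have hcomp : ∑ i, (m i + 1 - mu (q i) a₁) * mu (q i) a₁ ≤
      ∑ i, min (mu (q i) a₁) (m i + 1) * mu (q i) (g * a₃) := by
    refine Finset.sum_le_sum fun i _ => ?_
    rcases le_or_gt (mu (q i) a₁) (m i + 1) with h1 | h1
    · rw [min_eq_left h1, mul_comm]
      exact Nat.mul_le_mul_left _ (hGm i)
    · rw [Nat.sub_eq_zero_of_le h1.le, zero_mul]
      exact Nat.zero_le _
  have hlast : a₁.totalDegree * (g * a₃).totalDegree ≤
      a₁.totalDegree * (D + 2 - a₁.totalDegree) := Nat.mul_le_mul_left _ hGd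
  have hfin : (D + 3 - a₁.totalDegree) * a₁.totalDegree ≤
      a₁.totalDegree * (D + 2 - a₁.totalDegree) := hsum1.trans (hcomp.trans (hsum2.trans hlast))
  have e3 : D + 3 - a₁.totalDegree = D + 2 - a₁.totalDegree + 1 := by omega
  rw [e3, add_mul, one_mul, mul_comm] at hfin
  omega

/-- multiplication by a polynomial of a linear system maps to the relations of the residual
system -/
noncomputable def relMap {D α α' : ℕ} {m A A' : ι → ℕ} (hα : α + α' = D)
    (hA : ∀ i, A i + A' i = m i) {τ : P2 →ₗ[ℂ] ℂ} (hrel : IsRel (D + 1) q m τ) :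
    VD α q A →ₗ[ℂ] RelSub (α' + 1) q A' where
  toFun a := ⟨mulT a.1 τ, mulT_isRel hrel
    (fun f hf => by
      have h1 := totalDegree_mul a.1 f
      have h2 : a.1.totalDegree ≤ α := a.2.1
      omega)
    (fun i f hf => by
      rw [← hA i]
      exact (a.2.2 i).mul hf)⟩
  map_add' a b := by
    apply Subtype.ext
    refine LinearMap.ext fun f => ?_
    change τ ((a.1 + b.1) * f) = τ (a.1 * f) + τ (b.1 * f)
    rw [add_mul, map_add]
  map_smul' c a := by
    apply Subtype.ext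
    refine LinearMap.ext fun f => ?_
    change τ ((c • a.1) * f) = c * τ (a.1 * f)
    rw [smul_mul_assoc, map_smul, smul_eq_mul]

theorem no_rel_half (hRC : RelCurve q) (hq : Function.Injective q) {D α α' : ℕ}
    {m A A' : ι → ℕ} (hα : α + α' = D)
    (hA : ∀ i, A i + A' i = m i) {τ : P2 →ₗ[ℂ] ℂ} (hτ : τ ≠ 0) (hrel : IsRel (D + 1) q m τ)
    (h3 : ∑ i, (A' i + 2).choose 2 < (α' + 4).choose 2)
    (hnef : ∀ b, Irreducible b → ∑ i, (m i + 1) * mu (q i) b ≤ (D + 3) * b.totalDegree) :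
    finrank ℂ (VD α q A) ≤ finrank ℂ (RelSub (α' + 1) q A') := by
  refine LinearMap.finrank_le_finrank_of_injective (f := relMap hα hA hrel) ?_
  rw [← LinearMap.ker_eq_bot, LinearMap.ker_eq_bot']
  rintro ⟨a, ha⟩ h0
  by_contra hne
  have ha0 : a ≠ 0 := fun h => hne (Subtype.ext h)
  have haτ : ∀ f, τ (a * f) = 0 := fun f => by
    have h1 := congrArg Subtype.val h0
    exact LinearMap.congr_fun h1 f
  -- a curve `g`
  have hc := VD_count q (α' + 2) (fun i => A' i + 1)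
  have hpos : 0 < finrank ℂ (VD (α' + 2) q (fun i => A' i + 1)) := by
    have e1 : α' + 2 + 2 = α' + 4 := rfl
    have e2 : ∑ i, (A' i + 1 + 1).choose 2 = ∑ i, (A' i + 2).choose 2 := rfl
    rw [e1, e2] at hc
    omega
  have := Module.finrank_pos_iff.1 hpos
  obtain ⟨⟨g, hg⟩, hg0⟩ := exists_ne (0 : VD (α' + 2) q (fun i => A' i + 1))
  have hg0' : g ≠ 0 := fun h => hg0 (Subtype.ext h)
  have hgd : g.totalDegree ≤ α' + 2 := hg.1
  have hgv : ∀ i, Vq (q i) g (m i + 1 - A i) := fun i => by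
    have h1 : Vq (q i) g (A' i + 1) := hg.2 i
    have h2 := hA i
    exact h1.mono (by omega)
  obtain ⟨b, hb, -, hlt⟩ := pos_side_of hRC hq hτ hrel ha0 haτ ha.1 ha.2 hg0' (by omega) hgv
  exact absurd (hnef b hb) (not_le.2 hlt)

theorem no_rel_of (hRC : RelCurve q) (hq : Function.Injective q) {D α α' : ℕ} {m A A' : ι → ℕ}
    (hα : α + α' = D)
    (hA : ∀ i, A i + A' i = m i)
    (h1 : ∑ i, (A i + 1).choose 2 + ∑ i, (A' i + 1).choose 2 <
      (α + 2).choose 2 + (α' + 2).choose 2)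
    (h2 : ∑ i, (A i + 2).choose 2 < (α + 4).choose 2)
    (h3 : ∑ i, (A' i + 2).choose 2 < (α' + 4).choose 2)
    (hnef : ∀ b, Irreducible b → ∑ i, (m i + 1) * mu (q i) b ≤ (D + 3) * b.totalDegree) :
    finrank ℂ (VD D q m) + ∑ i, (m i + 1).choose 2 = (D + 2).choose 2 := by
  have hD := finrank_RelSub hq D m
  rcases Nat.eq_zero_or_pos (finrank ℂ (RelSub (D + 1) q m)) with h0 | h0
  · omega
  exfalso
  have := Module.finrank_pos_iff.1 h0
  obtain ⟨⟨τ, hrel⟩, hτ0⟩ := exists_ne (0 : RelSub (D + 1) q m)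
  have hτ : τ ≠ 0 := fun h => hτ0 (Subtype.ext h)
  have a1 := no_rel_half hRC hq hα hA hτ hrel h3 hnef
  have a2 := no_rel_half hRC hq (by omega : α' + α = D)
    (fun i => by have := hA i; omega : ∀ i, A' i + A i = m i) hτ hrel h2 hnef
  have b1 := finrank_RelSub hq α A
  have b2 := finrank_RelSub hq α' A'
  omega

theorem zpos_choose_two (n : ℕ) : 2 * (n + 1).choose 2 = n * (n + 1) := by
  rw [Nat.choose_two_right, Nat.add_sub_cancel, mul_comm (n + 1) n]
  exact Nat.mul_div_cancel' (Nat.even_mul_succ_self n).two_dvd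

theorem regular_of_nef_of (hRC : RelCurve q) (hq : Function.Injective q) {D : ℕ} {m : ι → ℕ}
    (hm : ∀ i, 1 ≤ m i)
    (h : ∑ i, m i ^ 2 + 23 * ∑ i, m i ≤ D ^ 2)
    (hnef : ∀ b, Irreducible b → ∑ i, (m i + 1) * mu (q i) b ≤ (D + 3) * b.totalDegree) :
    finrank ℂ (VD D q m) + ∑ i, (m i + 1).choose 2 = (D + 2).choose 2 := by
  obtain ⟨α, hα⟩ : ∃ α, α = D / 2 := ⟨_, rfl⟩
  obtain ⟨α', hα'⟩ : ∃ α', α' = D - D / 2 := ⟨_, rfl⟩
  obtain ⟨A, hA⟩ : ∃ A : ι → ℕ, ∀ i, A i = m i / 2 := ⟨fun i => m i / 2, fun i => rfl⟩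
  obtain ⟨A', hA'⟩ : ∃ A' : ι → ℕ, ∀ i, A' i = m i - m i / 2 :=
    ⟨fun i => m i - m i / 2, fun i => rfl⟩
  have hs1 : ∑ i, m i ≤ ∑ i, m i ^ 2 :=
    Finset.sum_le_sum fun i _ => Nat.le_self_pow (n := 2) two_ne_zero (m i)
  have hs0 : ∑ _i : ι, 1 ≤ ∑ i, m i := Finset.sum_le_sum fun i _ => hm i
  -- the three inequalities
  have e1 : 4 * ∑ i, (A i + 1).choose 2 + 4 * ∑ i, (A' i + 1).choose 2 ≤
      ∑ i, m i ^ 2 + 2 * ∑ i, m i + ∑ _i : ι, 1 := by
    rw [Finset.mul_sum, Finset.mul_sum, Finset.mul_sum, ← Finset.sum_add_distrib,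
      ← Finset.sum_add_distrib, ← Finset.sum_add_distrib]
    refine Finset.sum_le_sum fun i _ => ?_
    have t1 := zpos_choose_two (A i)
    have t2 := zpos_choose_two (A' i)
    have t3 : m i = A i + A' i := by rw [hA, hA']; omega
    have t4 : A i ≤ A' i := by rw [hA, hA']; omega
    have t5 : A' i ≤ A i + 1 := by rw [hA, hA']; omega
    rw [t3]
    nlinarith
  have e2 : 8 * ∑ i, (A i + 2).choose 2 ≤ ∑ i, m i ^ 2 + 8 * ∑ i, m i + 15 * ∑ _i : ι, 1 := by
    rw [Finset.mul_sum, Finset.mul_sum, Finset.mul_sum, ← Finset.sum_add_distrib,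
      ← Finset.sum_add_distrib]
    refine Finset.sum_le_sum fun i _ => ?_
    have t1 := zpos_choose_two (A i + 1)
    have t3 : 2 * A i ≤ m i := by rw [hA]; omega
    have t6 : A i + 1 + 1 = A i + 2 := rfl
    rw [t6] at t1
    nlinarith
  have e3 : 8 * ∑ i, (A' i + 2).choose 2 ≤ ∑ i, m i ^ 2 + 8 * ∑ i, m i + 15 * ∑ _i : ι, 1 := by
    rw [Finset.mul_sum, Finset.mul_sum, Finset.mul_sum, ← Finset.sum_add_distrib,
      ← Finset.sum_add_distrib]
    refine Finset.sum_le_sum fun i _ => ?_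
    have t1 := zpos_choose_two (A' i + 1)
    have t3 : 2 * A' i ≤ m i + 1 := by rw [hA']; omega
    have t6 : A' i + 1 + 1 = A' i + 2 := rfl
    rw [t6] at t1
    nlinarith
  have d1 : 2 * (D ^ 2 + 6 * D + 8) ≤ 8 * (α + 2).choose 2 + 8 * (α' + 2).choose 2 := by
    have t1 := zpos_choose_two (α + 1)
    have t2 := zpos_choose_two (α' + 1)
    have t3 : D = α + α' := by rw [hα, hα']; omega
    have t6 : α + 1 + 1 = α + 2 := rfl
    have t7 : α' + 1 + 1 = α' + 2 := rfl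
    rw [t6] at t1
    rw [t7] at t2
    rw [t3]
    have t8 : α ≤ α' := by rw [hα, hα']; omega
    obtain ⟨k, hk⟩ := Nat.exists_eq_add_of_le t8
    subst hk
    nlinarith
  have d2 : D ^ 2 + 12 * D + 35 ≤ 8 * (α + 4).choose 2 := by
    have t1 := zpos_choose_two (α + 3)
    have t3 : D ≤ 2 * α + 1 := by rw [hα]; omega
    have t6 : α + 3 + 1 = α + 4 := rfl
    rw [t6] at t1
    nlinarith
  have d3 : D ^ 2 + 12 * D + 35 ≤ 8 * (α' + 4).choose 2 := by
    have t1 := zpos_choose_two (α' + 3)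
    have t3 : D ≤ 2 * α' := by rw [hα']; omega
    have t6 : α' + 3 + 1 = α' + 4 := rfl
    rw [t6] at t1
    nlinarith
  have g1 : α + α' = D := by rw [hα, hα']; omega
  have g2 : ∀ i, A i + A' i = m i := fun i => by rw [hA, hA']; omega
  exact no_rel_of hRC hq g1 g2 (by omega) (by omega) (by omega) hnef

theorem relCurve (hq : Function.Injective q) : RelCurve q :=
  fun hb _ _ _ hτ hrel hbτ => rel_curve hq hb hτ hrel hbτ

theorem pos_side (hq : Function.Injective q) {D : ℕ} {m : ι → ℕ} {τ : P2 →ₗ[ℂ] ℂ} (hτ : τ ≠ 0)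
    (hrel : IsRel (D + 1) q m τ) {a : P2} (ha : a ≠ 0) (haτ : ∀ f, τ (a * f) = 0) {α : ℕ}
    {A : ι → ℕ} (hα : a.totalDegree ≤ α) (hA : ∀ i, Vq (q i) a (A i)) {g : P2} (hg : g ≠ 0)
    (hgd : g.totalDegree + α ≤ D + 2) (hgA : ∀ i, Vq (q i) g (m i + 1 - A i)) :
    ∃ b, Irreducible b ∧ b ∣ a ∧
      (D + 3) * b.totalDegree < ∑ i, (m i + 1) * mu (q i) b :=
  pos_side_of (relCurve hq) hq hτ hrel ha haτ hα hA hg hgd hgA

theorem no_rel (hq : Function.Injective q) {D α α' : ℕ} {m A A' : ι → ℕ} (hα : α + α' = D)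
    (hA : ∀ i, A i + A' i = m i)
    (h1 : ∑ i, (A i + 1).choose 2 + ∑ i, (A' i + 1).choose 2 <
      (α + 2).choose 2 + (α' + 2).choose 2)
    (h2 : ∑ i, (A i + 2).choose 2 < (α + 4).choose 2)
    (h3 : ∑ i, (A' i + 2).choose 2 < (α' + 4).choose 2)
    (hnef : ∀ b, Irreducible b → ∑ i, (m i + 1) * mu (q i) b ≤ (D + 3) * b.totalDegree) :
    finrank ℂ (VD D q m) + ∑ i, (m i + 1).choose 2 = (D + 2).choose 2 :=
  no_rel_of (relCurve hq) hq hα hA h1 h2 h3 hnef

theorem regular_of_nef (hq : Function.Injective q) {D : ℕ} {m : ι → ℕ} (hm : ∀ i, 1 ≤ m i)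
    (h : ∑ i, m i ^ 2 + 23 * ∑ i, m i ≤ D ^ 2)
    (hnef : ∀ b, Irreducible b → ∑ i, (m i + 1) * mu (q i) b ≤ (D + 3) * b.totalDegree) :
    finrank ℂ (VD D q m) + ∑ i, (m i + 1).choose 2 = (D + 2).choose 2 :=
  regular_of_nef_of (relCurve hq) hq hm h hnef

end ZPos

end Pool.Agent.Work.MP_0421d9_ag.LD
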