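import Pool.Agent.Work.MP_0421d9_ag.ZDefs2
import Pool.Agent.Work.MP_0421d9_ag.WLoc
import Pool.Agent.Work.MP_0421d9_ag.JPos
import Pool.Agent.Work.MP_0421d9_ag.Deriv
import Pool.Agent.Work.MP_0421d9_ag.Chart

/-!
Affine coordinates: generic points of the plane and polynomials in two variables; rectangles as
plane systems with two additional points.
-/

namespace Pool.Agent.Work.MP_0421d9_ag.LD

open MvPolynomial Module

theorem ztr_cross {ι : Type} {p : ι → V3} (hp : GenericPoints p) {i j : ι} (hij : i ≠ j) :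
    p i 0 * p j 2 - p j 0 * p i 2 ≠ 0 := by
  classical
  intro h1
  have h4 := (algebraicIndependent_iff.mp hp)
    (X (i, 0) * X (j, 2) - X (j, 0) * X (i, 2)) (by
      rw [map_sub, map_mul, map_mul, aeval_X, aeval_X, aeval_X, aeval_X]
      exact h1)
  have h5 := congrArg (eval (fun z : ι × Fin 3 =>
    if z = (i, 0) ∨ z = (j, 2) then (1 : ℚ) else 0)) h4
  rw [map_sub, map_mul, map_mul, eval_X, eval_X, eval_X, eval_X, map_zero] at h5
  have hji : j ≠ i := fun h => hij h.symm
  simp [hji] at h5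

theorem aff_injective {ι : Type} {p : ι → V3} (hp : GenericPoints p) :
    Function.Injective (aff p) := by
  intro i j hij
  by_contra hne
  have h1 := congrFun hij 0
  unfold aff at h1
  simp only [Matrix.cons_val_zero] at h1
  have h2 : p i 2 ≠ 0 := AlgebraicIndependent.ne_zero hp (i, 2)
  have h3 : p j 2 ≠ 0 := AlgebraicIndependent.ne_zero hp (j, 2)
  rw [div_eq_div_iff h2 h3] at h1
  exact ztr_cross hp hne (by rw [h1, sub_self])

theorem derivation_div {Δ : Derivation ℚ ℂ ℂ} {a b : ℂ} (hb : b ≠ 0) (h : Δ b = 0) :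
    Δ (a / b) = Δ a / b := by
  have h1 : Δ (a / b * b) = Δ a := by rw [div_mul_cancel₀ _ hb]
  rw [Derivation.leibniz, h, smul_zero, zero_add, smul_eq_mul] at h1
  rw [eq_div_iff hb, mul_comm]
  exact h1

theorem aff_movable {ι : Type} {p : ι → V3} (hp : GenericPoints p) : Movable (aff p) := by
  classical
  intro i v
  have hz : ∀ j, p j 2 ≠ 0 := fun j => AlgebraicIndependent.ne_zero hp (j, 2)
  obtain ⟨Δ, hΔ⟩ := exists_derivation (fun z : ι × Fin 3 => p z.1 z.2) hp
    (fun z => if z.1 = i then (![v 0 * p i 2, v 1 * p i 2, 0] : Fin 3 → ℂ) z.2 else 0)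
  have h2 : ∀ j, Δ (p j 2) = 0 := by
    intro j
    have h := hΔ (j, 2)
    simpa using h
  refine ⟨Δ, fun j hj l => ?_, fun l => ?_⟩
  · have h : ∀ k, Δ (p j k) = 0 := by
      intro k
      have h := hΔ (j, k)
      simpa [hj] using h
    unfold aff
    fin_cases l
    · change Δ (p j 0 / p j 2) = 0
      rw [derivation_div (hz j) (h2 j), h, zero_div]
    · change Δ (p j 1 / p j 2) = 0
      rw [derivation_div (hz j) (h2 j), h, zero_div]
  · unfold aff
    fin_cases l
    · change Δ (p i 0 / p i 2) = v 0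
      have h := hΔ (i, 0)
      have h' : Δ (p i 0) = v 0 * p i 2 := by simpa using h
      rw [derivation_div (hz i) (h2 i), h', mul_div_cancel_right₀ _ (hz i)]
    · change Δ (p i 1 / p i 2) = v 1
      have h := hΔ (i, 1)
      have h' : Δ (p i 1) = v 1 * p i 2 := by simpa using h
      rw [derivation_div (hz i) (h2 i), h', mul_div_cancel_right₀ _ (hz i)]

/-! ### dehomogenisation -/

/-- the polynomial `F (x, y, 1)` -/
noncomputable def dh : R3 →ₐ[ℂ] P2 := aeval ![X 0, X 1, 1]

/-- the polynomial `f (c x, c y)` -/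
noncomputable def zscl (c : ℂ) : P2 →ₐ[ℂ] P2 := aeval fun l => C c * X l

theorem coeff_zscl (c : ℂ) (f : P2) (β : Fin 2 →₀ ℕ) :
    coeff β (zscl c f) = c ^ β.degree * coeff β f := by
  classical
  induction f using MvPolynomial.induction_on' with
  | add p q hp hq => rw [map_add, coeff_add, coeff_add, hp, hq, mul_add]
  | monomial γ a =>
    have h1 : zscl c (monomial γ a) = monomial γ (c ^ γ.degree * a) := by
      unfold zscl
      rw [aeval_monomial, Finsupp.prod_fintype _ _ (fun i => pow_zero _)]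
      simp only [mul_pow, Finset.prod_mul_distrib, Finset.prod_pow_eq_pow_sum]
      rw [algebraMap_eq, monomial_eq (s := γ), Finsupp.prod_fintype _ _ (fun i => pow_zero _),
        Finsupp.degree_eq_sum, C_mul, C_pow]
      ring
    rw [h1, coeff_monomial, coeff_monomial]
    split_ifs with h
    · rw [h]
    · rw [mul_zero]

theorem zscl_loc {D : ℕ} {F : R3} (hF : F.IsHomogeneous D) {a : V3} (ha : a 2 ≠ 0) :
    zscl (a 2) (loc a F) = C (a 2) ^ D * sh ![a 0 / a 2, a 1 / a 2] (dh F) := by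
  unfold loc sh dh
  rw [comp_aeval_apply, comp_aeval_apply, ← aeval_smul_homogeneous hF]
  congr 2
  funext k
  unfold zscl
  fin_cases k
  · change aeval (fun l => C (a 2) * X l : Fin 2 → P2) (C (a 0) + X 0) =
      C (a 2) * aeval _ (X 0)
    rw [map_add, algHom_C, aeval_X, aeval_X, algebraMap_eq]
    change C (a 0) + C (a 2) * X 0 = C (a 2) * (C (a 0 / a 2) + X 0)
    rw [mul_add, ← C_mul, mul_div_cancel₀ _ ha]
  · change aeval (fun l => C (a 2) * X l : Fin 2 → P2) (C (a 1) + X 1) =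
      C (a 2) * aeval _ (X 1)
    rw [map_add, algHom_C, aeval_X, aeval_X, algebraMap_eq]
    change C (a 1) + C (a 2) * X 1 = C (a 2) * (C (a 1 / a 2) + X 1)
    rw [mul_add, ← C_mul, mul_div_cancel₀ _ ha]
  · change aeval (fun l => C (a 2) * X l : Fin 2 → P2) (C (a 2)) = C (a 2) * aeval _ 1
    rw [algHom_C, map_one, mul_one, algebraMap_eq]

theorem coeff_sh_dh {D : ℕ} {F : R3} (hF : F.IsHomogeneous D) {a : V3} (ha : a 2 ≠ 0)
    (β : Fin 2 →₀ ℕ) : a 2 ^ β.degree * coeff β (loc a F) =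
      a 2 ^ D * coeff β (sh ![a 0 / a 2, a 1 / a 2] (dh F)) := by
  rw [← coeff_zscl, zscl_loc hF ha, ← C_pow, coeff_C_mul]

theorem vq_dh_iff {D m : ℕ} {F : R3} (hF : F.IsHomogeneous D) {a : V3} (ha : a 2 ≠ 0) :
    Vq ![a 0 / a 2, a 1 / a 2] (dh F) m ↔ VanishTo F a m := by
  constructor
  · intro h
    refine vanishTo_of_van2 hF ha fun β hβ => ?_
    have h1 := coeff_sh_dh hF ha β
    rw [h β hβ, mul_zero] at h1
    exact (mul_eq_zero.mp h1).resolve_left (pow_ne_zero _ ha)
  · intro h β hβ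
    have h1 := coeff_sh_dh hF ha β
    rw [van2_of_vanishTo h β hβ, mul_zero] at h1
    exact (mul_eq_zero.mp h1.symm).resolve_left (pow_ne_zero _ ha)

theorem dh_monomial (α : Fin 3 →₀ ℕ) (c : ℂ) :
    dh (monomial α c) = C c * (X 0 ^ α 0 * X 1 ^ α 1) := by
  unfold dh
  rw [aeval_monomial, Finsupp.prod_fintype _ _ (fun i => pow_zero _), Fin.prod_univ_three,
    algebraMap_eq]
  change C c * (X 0 ^ α 0 * X 1 ^ α 1 * 1 ^ α 2) = _
  rw [one_pow, mul_one]

theorem totalDegree_dh_le {D : ℕ} {F : R3} (hF : F.IsHomogeneous D) :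
    (dh F).totalDegree ≤ D := by
  rw [F.as_sum, map_sum]
  refine totalDegree_finsetSum_le fun α hα => ?_
  rw [dh_monomial]
  have h1 := degree_of_mem_support hF (MvPolynomial.mem_support_iff.mp hα)
  rw [Finsupp.degree_eq_sum, Fin.sum_univ_three] at h1
  refine (totalDegree_mul _ _).trans ?_
  rw [totalDegree_C, zero_add]
  refine (totalDegree_mul _ _).trans ?_
  have h2 := totalDegree_pow (X 0 : P2) (α 0)
  have h3 := totalDegree_pow (X 1 : P2) (α 1)
  rw [totalDegree_X, mul_one] at h2 h3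
  omega

theorem eval_dh (x : Fin 2 → ℂ) (G : R3) : eval x (dh G) = eval ![x 0, x 1, 1] G := by
  unfold dh
  induction G using MvPolynomial.induction_on with
  | C c => rw [algHom_C, algebraMap_eq, eval_C, eval_C]
  | add p q hp hq => rw [map_add, map_add, map_add, hp, hq]
  | mul_X p n hp =>
    rw [map_mul, map_mul, map_mul, hp, aeval_X, eval_X]
    congr 1
    fin_cases n <;> simp

theorem dh_injective {D : ℕ} {F : R3} (hF : F.IsHomogeneous D) (h : dh F = 0) : F = 0 := by
  have h1 : F * X 2 = 0 := by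
    apply MvPolynomial.funext
    intro y
    rw [map_zero, map_mul, eval_X]
    by_cases hy : y 2 = 0
    · rw [hy, mul_zero]
    · have h2 := eval_smul_of_homogeneous hF (y 2) ![y 0 / y 2, y 1 / y 2, 1]
      have h3 : y 2 • (![y 0 / y 2, y 1 / y 2, 1] : V3) = y := by
        funext k
        fin_cases k
        · change y 2 * (y 0 / y 2) = y 0
          rw [mul_div_cancel₀ _ hy]
        · change y 2 * (y 1 / y 2) = y 1
          rw [mul_div_cancel₀ _ hy]
        · change y 2 * 1 = y 2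
          rw [mul_one]
      have h4 := eval_dh ![y 0 / y 2, y 1 / y 2] F
      rw [h, map_zero] at h4
      have h5 : eval ![y 0 / y 2, y 1 / y 2, 1] F = 0 := by
        rw [h4]
        rfl
      rw [h3, h5, mul_zero] at h2
      rw [h2, zero_mul]
  exact (mul_eq_zero.mp h1).resolve_right (X_ne_zero 2)

/-- homogenisation -/
noncomputable def hgn (D : ℕ) (f : P2) : R3 :=
  ∑ β ∈ f.support,
    monomial (Finsupp.equivFunOnFinite.symm ![β 0, β 1, D - β.degree]) (coeff β f)

theorem hgn_isHomogeneous {D : ℕ} {f : P2} (hf : f.totalDegree ≤ D) :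
    (hgn D f).IsHomogeneous D := by
  unfold hgn
  apply IsHomogeneous.sum
  intro β hβ
  apply isHomogeneous_monomial
  have h1 : β.degree ≤ D := by
    refine le_trans ?_ hf
    have h2 := le_totalDegree hβ
    rw [Finsupp.degree_eq_sum]
    rw [Finsupp.sum_fintype _ _ (fun _ => rfl)] at h2
    exact h2
  rw [Finsupp.degree_eq_sum, Fin.sum_univ_three]
  change β 0 + β 1 + (D - β.degree) = D
  rw [Finsupp.degree_eq_sum, Fin.sum_univ_two] at *
  omega

theorem dh_hgn (D : ℕ) (f : P2) : dh (hgn D f) = f := by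
  unfold hgn
  rw [map_sum]
  conv_rhs => rw [f.as_sum]
  refine Finset.sum_congr rfl fun β _ => ?_
  rw [dh_monomial, monomial_eq (s := β), Finsupp.prod_fintype _ _ (fun i => pow_zero _),
    Fin.prod_univ_two]
  rfl

theorem finrank_aff {ι : Type} [Fintype ι] {p : ι → V3} (hp : GenericPoints p) (D : ℕ)
    (m : ι → ℕ) : finrank ℂ (linSys D p m) = finrank ℂ (VD D (aff p) m) := by
  have hz : ∀ j, p j 2 ≠ 0 := fun j => AlgebraicIndependent.ne_zero hp (j, 2)
  have h1 : ∀ F ∈ linSys D p m, dh.toLinearMap F ∈ VD D (aff p) m := by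
    intro F hF
    exact ⟨totalDegree_dh_le hF.1, fun i => (vq_dh_iff hF.1 (hz i)).mpr (hF.2 i)⟩
  refine LinearEquiv.finrank_eq (LinearEquiv.ofBijective (dh.toLinearMap.restrict h1) ⟨?_, ?_⟩)
  · rw [← LinearMap.ker_eq_bot, Submodule.eq_bot_iff]
    intro F hF
    apply Subtype.ext
    have h2 : dh F.1 = 0 := congrArg Subtype.val hF
    exact dh_injective F.2.1 h2
  · rintro ⟨f, hf1, hf2⟩
    have h2 := hgn_isHomogeneous hf1
    refine ⟨⟨hgn D f, h2, fun i => (vq_dh_iff h2 (hz i)).mp ?_⟩, ?_⟩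
    · rw [dh_hgn]
      exact hf2 i
    · apply Subtype.ext
      exact dh_hgn D f

/-! ### rectangles -/

theorem linSys_cons2_le_m {a b r : ℕ} {k : Fin r → ℕ} {p : Fin (r + 2) → V3}
    (hp : GenericPoints p) :
    finrank ℂ (linSys (a + b) p (Fin.cons a (Fin.cons b k))) ≤ hRm (a + 1) (b + 1) k := by
  refine (generic_le hp (a + b) _
    (Fin.cons (Pi.single 0 1) (Fin.cons (Pi.single 2 1) (gpt r)))).trans ?_
  have hab : a + 1 + (b + 1) - 2 = a + b := by omega
  unfold hRm hTm
  rw [hab]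
  refine Submodule.finrank_mono ?_
  intro F hF
  obtain ⟨h1, h2⟩ := hF
  rw [mem_TSm]
  refine ⟨h1, fun i => ?_, fun α hα => ?_⟩
  · have := h2 i.succ.succ
    rwa [Fin.cons_succ, Fin.cons_succ, Fin.cons_succ, Fin.cons_succ] at this
  · have h3 := h2 0
    rw [Fin.cons_zero, Fin.cons_zero] at h3
    have h4 := exp_le_of_vanishTo h1 h3 hα
    have h5 := h2 (Fin.succ 0)
    rw [Fin.cons_succ, Fin.cons_succ, Fin.cons_zero, Fin.cons_zero] at h5
    have h6 := exp_le_of_vanishTo h1 h5 hα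
    change α 2 < a + 1 ∧ α 0 < b + 1
    omega

theorem hRm_le_plane {a b r : ℕ} (k : Fin r → ℕ) :
    hRm (a + 1) (b + 1) k ≤ hPm (a + b) (Fin.cons a (Fin.cons b k) : Fin (r + 2) → ℕ) := by
  have hab : a + 1 + (b + 1) - 2 = a + b := by omega
  have h0 : hRm (a + 1) (b + 1) k =
      hTm (a + b) (rect (a + 1) (b + 1)) (Fin.cons 0 (Fin.cons 0 k) : Fin (r + 2) → ℕ) := by
    unfold hRm
    rw [hab]
    refine (hTm_comp_eq (k := (Fin.cons 0 (Fin.cons 0 k) : Fin (r + 2) → ℕ))
      (e := fun i : Fin r => i.succ.succ) (fun i j h => Fin.succ_injective _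
        (Fin.succ_injective _ h)) (fun i hi => ?_)).symm
    refine Fin.cases ?_ (fun i => Fin.cases ?_ (fun i => ?_) i) i hi
    · intro _
      rfl
    · intro _
      rfl
    · intro hi
      exact absurd ⟨i, rfl⟩ hi
  rw [h0]
  have hp := gpt_generic (r + 2)
  have hne : (0 : Fin (r + 2)) ≠ Fin.succ 0 := (Fin.succ_ne_zero 0).symm
  have hg := ztr_cross hp hne
  have hdet : (colM (gpt (r + 2) 0) e1 (gpt (r + 2) (Fin.succ 0))).det ≠ 0 := by
    rw [colM_det]
    intro h
    apply hg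
    rw [← h]
    unfold det3
    simp only [e1]
    simp
    ring
  have hU : IsUnit (colM (gpt (r + 2) 0) e1 (gpt (r + 2) (Fin.succ 0))).det :=
    isUnit_iff_ne_zero.mpr hdet
  refine hTm_le_of_move (M := (colM (gpt (r + 2) 0) e1 (gpt (r + 2) (Fin.succ 0)))⁻¹)
    (M' := colM (gpt (r + 2) 0) e1 (gpt (r + 2) (Fin.succ 0)))
    (Matrix.nonsing_inv_mul _ hU) (Matrix.mul_nonsing_inv _ hU) (fun i => ?_)
  refine Fin.cases ?_ (fun i => Fin.cases ?_ (fun i => ?_) i) i
  · right
    refine ⟨0, ?_, fun α hα hd => ?_⟩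
    · rw [colM_mulVec]
      funext k
      simp
    · rw [Fin.cons_zero]
      obtain ⟨h1, h2⟩ := hα
      rw [degree_three] at hd
      omega
  · right
    refine ⟨2, ?_, fun α hα hd => ?_⟩
    · rw [colM_mulVec]
      funext k
      simp
    · rw [Fin.cons_succ, Fin.cons_zero]
      obtain ⟨h1, h2⟩ := hα
      rw [degree_three] at hd
      omega
  · left
    rfl

/-- rectangles as plane systems with two additional points -/
theorem hRm_eq_plane {N H L : ℕ} (k : Fin N → ℕ) (hH : 1 ≤ H) (hL : 1 ≤ L) :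
    hRm H L k = hPm (H + L - 2) (Fin.cons (H - 1) (Fin.cons (L - 1) k) : Fin (N + 2) → ℕ) := by
  obtain ⟨a, rfl⟩ : ∃ a, H = a + 1 := ⟨H - 1, by omega⟩
  obtain ⟨b, rfl⟩ : ∃ b, L = b + 1 := ⟨L - 1, by omega⟩
  have e1 : a + 1 + (b + 1) - 2 = a + b := by omega
  rw [e1, Nat.add_sub_cancel, Nat.add_sub_cancel]
  refine le_antisymm (hRm_le_plane k) ?_
  rw [← hPm_eq (gpt_generic (N + 2))]
  exact linSys_cons2_le_m (gpt_generic (N + 2))

end Pool.Agent.Work.MP_0421d9_ag.LD
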