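import Pool.Agent.Work.MP_0421d9_ag.ZXu
import Pool.Agent.Work.MP_0421d9_ag.ZTr
import Pool.Agent.Work.MP_0421d9_ag.ZPos
import Pool.Agent.Work.MP_0421d9_ag.ZNum

/-!
The windows for the plane.
-/

namespace Pool.Agent.Work.MP_0421d9_ag.LD

open MvPolynomial Module

/-! ### preparations -/

/-- index theorem, Cauchy-Schwarz -/
theorem index_plane {ι : Type} [Fintype ι] {k c : ι → ℕ} {D e : ℕ}
    (hy : D * e < ∑ i, k i * c i)
    (hcase : (∑ i, k i ^ 2 ≤ D ^ 2) ∨
      (e : ℤ) * (∑ i, (k i : ℤ) ^ 2 - D ^ 2) ≤ D * (∑ i, (k i : ℤ) * c i - D * e)) :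
    e ^ 2 < ∑ i, c i ^ 2 := by
  by_contra hcon
  have hN : (∑ i, (c i : ℤ) ^ 2) ≤ (e : ℤ) ^ 2 := by
    have : ∑ i, c i ^ 2 ≤ e ^ 2 := not_lt.1 hcon
    exact_mod_cast this
  have hCS := Finset.sum_mul_sq_le_sq_mul_sq Finset.univ (fun i => (k i : ℤ)) (fun i => (c i : ℤ))
  have hyz : (D : ℤ) * e < ∑ i, (k i : ℤ) * c i := by exact_mod_cast hy
  have hM0 : 0 ≤ ∑ i, (k i : ℤ) ^ 2 := Finset.sum_nonneg fun i _ => sq_nonneg _
  have hN0 : 0 ≤ ∑ i, (c i : ℤ) ^ 2 := Finset.sum_nonneg fun i _ => sq_nonneg _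
  have hc : (∑ i, (k i : ℤ) ^ 2 ≤ D ^ 2) ∨
      (e : ℤ) * (∑ i, (k i : ℤ) ^ 2 - D ^ 2) ≤ D * (∑ i, (k i : ℤ) * c i - D * e) := by
    rcases hcase with h | h
    · exact Or.inl (by exact_mod_cast h)
    · exact Or.inr h
  generalize (∑ i, (k i : ℤ) ^ 2) = M at *
  generalize (∑ i, (c i : ℤ) ^ 2) = N at *
  generalize (∑ i, (k i : ℤ) * c i) = P at *
  have hD : (0 : ℤ) ≤ D := by positivity
  have he : (0 : ℤ) ≤ e := by positivity
  generalize (D : ℤ) = d at *
  generalize (e : ℤ) = ε at *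
  have hde : 0 ≤ d * ε := mul_nonneg hD he
  have h1 : M * N ≤ M * ε ^ 2 := mul_le_mul_of_nonneg_left hN hM0
  rcases hc with h | h
  · have h2 : M * ε ^ 2 ≤ d ^ 2 * ε ^ 2 := mul_le_mul_of_nonneg_right h (sq_nonneg _)
    nlinarith
  · have h2 : ε * (ε * (M - d ^ 2)) ≤ ε * (d * (P - d * ε)) := mul_le_mul_of_nonneg_left h he
    have hy' : 0 < P - d * ε := by linarith
    nlinarith [mul_nonneg hde hy'.le, mul_pos hy' hy']

theorem sum_ne {ι : Type} [Fintype ι] (m F : ι → ℕ) (hF : ∀ i, m i = 0 → F i = 0) :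
    ∑ i : {i // m i ≠ 0}, F i = ∑ i, F i := by
  classical
  rw [← Finset.sum_subtype (Finset.univ.filter fun i => m i ≠ 0) (by simp) F]
  apply Finset.sum_subset (Finset.filter_subset _ _)
  intro i _ hi
  apply hF
  simpa using hi

theorem VD_sub {ι : Type} (D : ℕ) (q : ι → Fin 2 → ℂ) (m : ι → ℕ) :
    VD D (fun i : {i // m i ≠ 0} => q i) (fun i => m i) = VD D q m := by
  ext f
  constructor
  · rintro ⟨h1, h2⟩
    refine ⟨h1, fun i => ?_⟩
    by_cases h : m i = 0
    · rw [h]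
      exact vq_zero' _ _
    · exact h2 ⟨i, h⟩
  · rintro ⟨h1, h2⟩
    exact ⟨h1, fun i => h2 i⟩

theorem deg_pos {b : P2} (hb : Irreducible b) : 1 ≤ b.totalDegree := by
  by_contra h
  have h0 : b.totalDegree = 0 := by omega
  rw [totalDegree_eq_zero_iff_eq_C] at h0
  apply hb.not_isUnit
  rw [h0]
  apply IsUnit.map
  apply IsUnit.mk0
  intro h1
  rw [h1, map_zero] at h0
  exact hb.ne_zero h0

theorem choose_lt_sum {ι : Type} [Fintype ι] {c : ι → ℕ} {e : ℕ}
    (h : ∑ i, (c i + 1).choose 2 < (e + 2).choose 2) :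
    ∑ i, c i ^ 2 + ∑ i, c i < e ^ 2 + 3 * e + 2 := by
  have h1 : ∀ n : ℕ, 2 * (n + 1).choose 2 = n ^ 2 + n := by
    intro n
    have := Nat.triangle_succ n
    rw [Nat.choose_two_right]
    simp only [Nat.add_sub_cancel]
    have h2 : 2 ∣ (n + 1) * n := (Nat.even_mul_pred_self (n + 1)).two_dvd
    rw [Nat.mul_div_cancel' h2]
    ring
  have h2 : 2 * ∑ i, (c i + 1).choose 2 = ∑ i, c i ^ 2 + ∑ i, c i := by
    rw [Finset.mul_sum, ← Finset.sum_add_distrib]
    exact Finset.sum_congr rfl fun i _ => h1 (c i)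
  have h3 := h1 (e + 1)
  have h4 : (e + 1) ^ 2 + (e + 1) = e ^ 2 + 3 * e + 2 := by ring
  have h5 : e + 1 + 1 = e + 2 := rfl
  rw [h5] at h3
  omega

/-- if the system is generic, the curve `b` is an element of its system -/
theorem one_le_hPm {r : ℕ} {b : P2} (hb : b ≠ 0) {D : ℕ} {m : Fin r → ℕ}
    (hd : b.totalDegree ≤ D) (hm : ∀ i, Vq (aff (gpt r) i) b (m i)) : 1 ≤ hPm D m := by
  unfold hPm
  rw [finrank_aff (gpt_generic r)]
  have h1 : (⟨b, hd, hm⟩ : VD D (aff (gpt r)) m) ≠ 0 := by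
    intro h
    exact hb (congrArg Subtype.val h)
  have : Nontrivial (VD D (aff (gpt r)) m) := ⟨⟨_, _, h1⟩⟩
  exact Nat.one_le_iff_ne_zero.2 (Module.finrank_pos).ne'

theorem exists_of_hPm {r : ℕ} {D : ℕ} {m : Fin r → ℕ} (h : hPm D m ≠ 0) :
    ∃ f : P2, f ≠ 0 ∧ f ∈ VD D (aff (gpt r)) m := by
  unfold hPm at h
  rw [finrank_aff (gpt_generic r)] at h
  have hp : 0 < finrank ℂ (VD D (aff (gpt r)) m) := Nat.pos_of_ne_zero h
  have : Nontrivial (VD D (aff (gpt r)) m) := Module.finrank_pos_iff.1 hp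
  obtain ⟨f, hf⟩ := exists_ne (0 : VD D (aff (gpt r)) m)
  exact ⟨f, fun h => hf (Subtype.ext h), f.2⟩

theorem sum_sq_le {ι : Type} [Fintype ι] {c : ι → ℕ} {M : ℕ} (h : ∀ i, c i ≤ M) :
    ∑ i, c i ^ 2 ≤ M * ∑ i, c i := by
  rw [Finset.mul_sum]
  apply Finset.sum_le_sum
  intro i _
  rw [pow_two]
  exact Nat.mul_le_mul_right _ (h i)

/-! ### the core -/

theorem plane_core {T ρ r : ℕ} (h : FP T ρ) (hρ : 4 ≤ ρ) {b : P2} (hb : Irreducible b)
    {D K : ℕ} {k : Fin r → ℕ} (hK : 1 ≤ K) (hk : ∀ i, k i ≤ K) (hD : 3 * ρ * K ≤ D)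
    (hy : D * b.totalDegree < ∑ i, k i * mu (aff (gpt r) i) b)
    (hcase : (∑ i, k i ^ 2 ≤ D ^ 2) ∨
      (b.totalDegree : ℤ) * (∑ i, (k i : ℤ) ^ 2 - D ^ 2) ≤
        D * (∑ i, (k i : ℤ) * mu (aff (gpt r) i) b - D * b.totalDegree)) :
    ((T : ℤ) + 1) * |∑ i, (k i : ℤ) ^ 2 - D ^ 2| ≤ 6 * K ^ 2 := by
  have hgen := gpt_generic r
  set e := b.totalDegree with he
  set c : Fin r → ℕ := fun i => mu (aff (gpt r) i) b with hc
  have he1 : 1 ≤ e := deg_pos hb
  have h12 : 12 * K ≤ D := by nlinarith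
  obtain ⟨h1, h2⟩ := num_plane (k := k) (c := c) hK hk h12 he1
    (fun i hi => xu (aff_injective hgen) (aff_movable hgen) hb hi) hy hcase
  have hidx : e ^ 2 < ∑ i, c i ^ 2 := index_plane (k := k) (c := c) hy hcase
  by_cases hT : ∀ i, c i ≤ T
  · exfalso
    set cm := Finset.univ.sup c with hcm
    have hle : ∀ i, c i ≤ cm := fun i => Finset.le_sup (Finset.mem_univ i)
    have hcmT : cm ≤ T := Finset.sup_le fun i _ => hT i
    have hcm1 : 1 ≤ cm := by
      by_contra h0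
      have h0' : cm = 0 := by omega
      have h3 : ∑ i, c i ^ 2 = 0 := by
        apply Finset.sum_eq_zero
        intro i _
        have := hle i
        have h4 : c i = 0 := by omega
        rw [h4]
        rfl
      omega
    have hex : ∃ i, c i = cm := by
      have hne : (Finset.univ : Finset (Fin r)).Nonempty := by
        by_contra hemp
        rw [Finset.not_nonempty_iff_eq_empty] at hemp
        rw [hemp] at hcm
        simp at hcm
        omega
      obtain ⟨i, -, hi⟩ := Finset.exists_mem_eq_sup _ hne c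
      exact ⟨i, hi.symm⟩
    obtain ⟨i0, hi0⟩ := hex
    have hρe : ρ * cm ≤ e := by
      have h3 := h1 i0
      rw [hi0] at h3
      have h4 : 3 * ρ * K * cm ≤ 3 * K * e := (Nat.mul_le_mul_right _ hD).trans h3
      have h5 : (3 * K) * (ρ * cm) ≤ (3 * K) * e := by nlinarith
      exact Nat.le_of_mul_le_mul_left h5 (by omega)
    have h3 := h r cm e c hcm1 hcmT hle hρe
    have h4 : 1 ≤ hPm e c := one_le_hPm hb.ne_zero le_rfl (fun i => vq_mu _ hb.ne_zero)
    have h5 : ∑ i, (c i + 1).choose 2 < (e + 2).choose 2 := by omega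
    have h6 := choose_lt_sum h5
    have h7 := sum_sq_le hle
    have h8 : 4 * e < ∑ i, c i := by
      have h9 : cm * (4 * e) < cm * ∑ i, c i := by nlinarith
      exact Nat.lt_of_mul_lt_mul_left h9
    omega
  · push Not at hT
    obtain ⟨i0, hi0⟩ := hT
    have h3 := h1 i0
    have h4 : D * (T + 1) ≤ 3 * K * e := (Nat.mul_le_mul_left _ hi0).trans h3
    have h5 : (D : ℤ) * (T + 1) ≤ 3 * K * e := by exact_mod_cast h4
    have hDpos : (0 : ℤ) < D := by
      have : 0 < D := by omega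
      exact_mod_cast this
    have hM := abs_nonneg (∑ i, (k i : ℤ) ^ 2 - (D : ℤ) ^ 2)
    generalize |∑ i, (k i : ℤ) ^ 2 - (D : ℤ) ^ 2| = M at *
    have h6 : (D : ℤ) * (((T : ℤ) + 1) * M) ≤ D * (6 * K ^ 2) := by
      have h7 := mul_le_mul_of_nonneg_right h5 hM
      have h8 : (3 * (K : ℤ)) * (e * M) ≤ 3 * K * (2 * K * D) :=
        mul_le_mul_of_nonneg_left h2 (by positivity)
      nlinarith
    exact le_of_mul_le_mul_left h6 hDpos

theorem winP_of_FP {T ρ : ℕ} (hT : 1 ≤ T) (hρ : 4 ≤ ρ) (h : FP T ρ) : WinP T ρ := by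
  intro r c D m hc hm hD
  have hgen := gpt_generic r
  have hD1 : 1 ≤ D := by nlinarith
  have h3c : 3 * ρ * c ≤ D := by nlinarith
  constructor
  · intro hyp
    by_contra hne
    obtain ⟨f, hf, hfV⟩ := exists_of_hPm hne
    have hL : D ^ 2 < ∑ i, m i ^ 2 := by
      by_contra hcon
      have h1 : T * ∑ i, m i ^ 2 ≤ T * D ^ 2 := Nat.mul_le_mul_left _ (not_lt.1 hcon)
      have h2 : 1 ≤ c ^ 2 := Nat.one_le_pow _ _ hc
      omega
    have hDr : (0 : ℝ) < D := by exact_mod_cast hD1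
    obtain ⟨b, hb, hbf, hy, hphi⟩ := exists_neg (φ := fun g => (g.totalDegree : ℝ) / D) hf hfV
      (by
        intro g h hg hh
        rw [totalDegree_mul' hg hh, ← add_div]
        push_cast
        ring)
      (by
        intro g hg
        have h0 : g.totalDegree = 0 := by
          have := (MvPolynomial.isUnit_iff_totalDegree_of_isReduced.1 hg).2
          exact this
        simp [h0])
      (by
        intro b _ _
        positivity)
      (by
        rw [div_le_one hDr]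
        exact_mod_cast hfV.1)
      hL
    have hcase : (b.totalDegree : ℤ) * (∑ i, (m i : ℤ) ^ 2 - D ^ 2) ≤
        D * (∑ i, (m i : ℤ) * mu (aff (gpt r) i) b - D * b.totalDegree) := by
      have h1 : (b.totalDegree : ℝ) * (∑ i, (m i : ℝ) ^ 2 - D ^ 2) ≤
          D * (∑ i, (m i : ℝ) * mu (aff (gpt r) i) b - D * b.totalDegree) := by
        have h2 := mul_le_mul_of_nonneg_left hphi hDr.le
        have h3 : (D : ℝ) * ((b.totalDegree : ℝ) / D * (∑ i, (m i : ℝ) ^ 2 - D ^ 2)) =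
            (b.totalDegree : ℝ) * (∑ i, (m i : ℝ) ^ 2 - D ^ 2) := by
          field_simp
        rw [h3] at h2
        exact h2
      exact_mod_cast h1
    have h1 := plane_core h hρ hb hc hm h3c hy (Or.inr hcase)
    have h2 : (D : ℤ) ^ 2 < ∑ i, (m i : ℤ) ^ 2 := by exact_mod_cast hL
    have h3 : (T : ℤ) * D ^ 2 + 6 * c ^ 2 ≤ T * ∑ i, (m i : ℤ) ^ 2 := by exact_mod_cast hyp
    rw [abs_of_pos (by linarith)] at h1
    nlinarith
  · intro hyp
    have h1 : ∑ i, m i ^ 2 + 23 * ∑ i, m i ≤ D ^ 2 := by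
      by_contra hcon
      have h2 : T * D ^ 2 ≤ T * (∑ i, m i ^ 2 + 23 * ∑ i, m i) :=
        Nat.mul_le_mul_left _ (not_le.1 hcon).le
      have h3 : 1 ≤ (c + 1) ^ 2 := Nat.one_le_pow _ _ (by omega)
      omega
    let q' : {i // m i ≠ 0} → Fin 2 → ℂ := fun i => aff (gpt r) i
    have hq' : Function.Injective q' := fun i j hij =>
      Subtype.ext (aff_injective hgen hij)
    have s1 : ∑ i : {i // m i ≠ 0}, m i ^ 2 = ∑ i, m i ^ 2 :=
      sum_ne m (fun i => m i ^ 2) (fun i hi => by rw [hi]; rfl)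
    have s2 : ∑ i : {i // m i ≠ 0}, m i = ∑ i, m i := sum_ne m (fun i => m i) (fun i hi => hi)
    have s3 : ∑ i : {i // m i ≠ 0}, (m i + 1).choose 2 = ∑ i, (m i + 1).choose 2 :=
      sum_ne m (fun i => (m i + 1).choose 2) (fun i hi => by rw [hi]; rfl)
    have key := regular_of_nef (q := q') (D := D) (m := fun i => m i) hq'
      (fun i => Nat.one_le_iff_ne_zero.2 i.2) (by rw [s1, s2]; exact h1) ?_
    · rw [s3] at key
      have h4 : VD D q' (fun i : {i // m i ≠ 0} => m i) = VD D (aff (gpt r)) m := VD_sub D _ m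
      rw [h4, ← finrank_aff hgen] at key
      exact key
    · intro b hb
      by_contra hcon
      rw [not_le] at hcon
      set k : Fin r → ℕ := fun i => if m i = 0 then 0 else m i + 1 with hk
      have s4 : ∑ i : {i // m i ≠ 0}, (m i + 1) * mu (q' i) b =
          ∑ i, k i * mu (aff (gpt r) i) b := by
        rw [← sum_ne m (fun i => k i * mu (aff (gpt r) i) b) (fun i hi => by simp [hk, hi])]
        apply Finset.sum_congr rfl
        intro i _
        have : k i = m i + 1 := if_neg i.2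
        simp only [this, q']
      rw [s4] at hcon
      have hkle : ∀ i, k i ≤ c + 1 := by
        intro i
        have := hm i
        simp only [hk]
        split <;> omega
      have s5 : ∑ i, k i ^ 2 ≤ ∑ i, m i ^ 2 + 3 * ∑ i, m i := by
        rw [Finset.mul_sum, ← Finset.sum_add_distrib]
        apply Finset.sum_le_sum
        intro i _
        simp only [hk]
        split
        · simp
        · have : 1 ≤ m i := Nat.one_le_iff_ne_zero.2 (by assumption)
          nlinarith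
      have s6 : ∑ i, k i ^ 2 ≤ (D + 3) ^ 2 := by
        have : D ^ 2 ≤ (D + 3) ^ 2 := Nat.pow_le_pow_left (by omega) 2
        omega
      have h2 := plane_core (K := c + 1) h hρ hb (by omega) hkle
        (by nlinarith : 3 * ρ * (c + 1) ≤ D + 3) hcon (Or.inl s6)
      have t1 : (∑ i, (k i : ℤ) ^ 2) ≤ ∑ i, (m i : ℤ) ^ 2 + 3 * ∑ i, (m i : ℤ) := by
        exact_mod_cast s5
      have t2 : (T : ℤ) * (∑ i, (m i : ℤ) ^ 2 + 23 * ∑ i, (m i : ℤ)) + 6 * (c + 1) ^ 2 ≤
          T * D ^ 2 := by exact_mod_cast hyp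
      have t3 : (0 : ℤ) ≤ ∑ i, (m i : ℤ) := Finset.sum_nonneg fun i _ => by positivity
      have t4 : (1 : ℤ) ≤ T := by exact_mod_cast hT
      have t5 : (∑ i, (m i : ℤ) ^ 2 + 23 * ∑ i, (m i : ℤ)) ≤ D ^ 2 := by exact_mod_cast h1
      push_cast at h2
      rw [abs_sub_comm] at h2
      generalize (∑ i, (k i : ℤ) ^ 2) = A at *
      generalize (∑ i, (m i : ℤ) ^ 2) = B at *
      generalize (∑ i, (m i : ℤ)) = E at *
      have hDz : (0 : ℤ) ≤ D := by positivity
      have t6 : (D : ℤ) ^ 2 - (B + 23 * E) + 9 ≤ ((D : ℤ) + 3) ^ 2 - A := by nlinarith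
      have t7 : (0 : ℤ) < ((D : ℤ) + 3) ^ 2 - A := by linarith
      rw [abs_of_pos t7] at h2
      have t8 : (T : ℤ) * ((D : ℤ) ^ 2 - (B + 23 * E) + 9) ≤ T * (((D : ℤ) + 3) ^ 2 - A) :=
        mul_le_mul_of_nonneg_left t6 (by linarith)
      nlinarith

end Pool.Agent.Work.MP_0421d9_ag.LD
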