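import Pool.Agent.Work.MP_0421d9_ag.ZQDefs
import Pool.Agent.Work.MP_0421d9_ag.ZQNum
import Pool.Agent.Work.MP_0421d9_ag.ZWinP

/-!
The windows for the plane, with one arbitrary multiplicity.
-/

namespace Pool.Agent.Work.MP_0421d9_ag.LD

open MvPolynomial Module

theorem choose_lt_sum_q {ι : Type} [Fintype ι] {c : ι → ℕ} {c₀ e : ℕ}
    (h : (c₀ + 1).choose 2 + ∑ i, (c i + 1).choose 2 < (e + 2).choose 2) :
    c₀ ^ 2 + c₀ + (∑ i, c i ^ 2 + ∑ i, c i) < e ^ 2 + 3 * e + 2 := by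
  have h1 := zpos_choose_two c₀
  have h3 := zpos_choose_two (e + 1)
  have h2 : 2 * ∑ i, (c i + 1).choose 2 = ∑ i, c i ^ 2 + ∑ i, c i := by
    rw [Finset.mul_sum, ← Finset.sum_add_distrib]
    refine Finset.sum_congr rfl fun i _ => ?_
    rw [zpos_choose_two]
    ring
  have h5 : e + 1 + 1 = e + 2 := rfl
  rw [h5] at h3
  nlinarith

/-- the core: an irreducible curve with a negative intersection number -/
theorem planeQ_core {T ρ r : ℕ} (h : FQ T ρ) (hρ : 4 ≤ ρ) {b : P2} (hb : Irreducible b)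
    {D K m₀ : ℕ} {k : Fin r → ℕ} (hK : 1 ≤ K) (hk : ∀ i, k i ≤ K) (hD : m₀ + 6 * ρ * K ≤ D)
    (hy : D * b.totalDegree < m₀ * mu (aff (gpt (r + 1)) 0) b +
      ∑ i, k i * mu (aff (gpt (r + 1)) i.succ) b)
    (hcase : (m₀ ^ 2 + ∑ i, k i ^ 2 ≤ D ^ 2) ∨
      ((D : ℤ) * b.totalDegree - m₀ * mu (aff (gpt (r + 1)) 0) b) *
          (m₀ ^ 2 + ∑ i, (k i : ℤ) ^ 2 - D ^ 2) ≤
        ((D : ℤ) ^ 2 - (m₀ : ℤ) ^ 2) * (m₀ * mu (aff (gpt (r + 1)) 0) b +
          ∑ i, (k i : ℤ) * mu (aff (gpt (r + 1)) i.succ) b - D * b.totalDegree)) :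
    ((T : ℤ) + 1) * |(D : ℤ) ^ 2 - (m₀ : ℤ) ^ 2 - ∑ i, (k i : ℤ) ^ 2| ≤ 6 * K ^ 2 := by
  have hgen := gpt_generic (r + 1)
  obtain ⟨e, he⟩ : ∃ e, e = b.totalDegree := ⟨_, rfl⟩
  obtain ⟨c₀, hc₀⟩ : ∃ c₀, c₀ = mu (aff (gpt (r + 1)) 0) b := ⟨_, rfl⟩
  obtain ⟨c, hc⟩ : ∃ c : Fin r → ℕ, ∀ i, c i = mu (aff (gpt (r + 1)) i.succ) b := ⟨_, fun i => rfl⟩
  simp only [← he, ← hc₀, ← hc] at hy hcase
  have he1 : 1 ≤ e := by rw [he]; exact deg_pos hb
  have hc₀e : c₀ ≤ e := by rw [he, hc₀]; exact mu_le_totalDegree _ hb.ne_zero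
  have h12 : m₀ + 12 * K ≤ D := by nlinarith
  have hmD : m₀ ≤ D := by omega
  obtain ⟨v, hv⟩ : ∃ v, v + m₀ * c₀ = D * e := by
    have h1 : m₀ * c₀ ≤ D * e := Nat.mul_le_mul hmD hc₀e
    exact ⟨D * e - m₀ * c₀, by omega⟩
  have hvz : (v : ℤ) = D * e - m₀ * c₀ := by
    have : ((v + m₀ * c₀ : ℕ) : ℤ) = ((D * e : ℕ) : ℤ) := by rw [hv]
    push_cast at this
    linarith
  have hXu : ∀ i, 1 ≤ c i → ∑ j, c j ^ 2 + c₀ ^ 2 ≤ e ^ 2 + c i := by
    intro i hi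
    have h1 := xu (aff_injective hgen) (aff_movable hgen) hb (i := i.succ)
      (by rw [← hc i]; exact hi)
    rw [Fin.sum_univ_succ, ← hc i, ← he, ← hc₀] at h1
    simp only [← hc] at h1
    linarith
  obtain ⟨L₂, hL₂⟩ : ∃ L₂ : ℤ, L₂ = (D : ℤ) ^ 2 - (m₀ : ℤ) ^ 2 - ∑ i, (k i : ℤ) ^ 2 := ⟨_, rfl⟩
  have hcase' : 0 ≤ L₂ ∨
      (v : ℤ) * (-L₂) ≤ ((D : ℤ) ^ 2 - (m₀ : ℤ) ^ 2) * (∑ i, (k i : ℤ) * c i - v) := by
    rcases hcase with h1 | h1
    · left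
      have h2 : (m₀ : ℤ) ^ 2 + ∑ i, (k i : ℤ) ^ 2 ≤ (D : ℤ) ^ 2 := by exact_mod_cast h1
      rw [hL₂]
      linarith
    · right
      have e1 : (v : ℤ) * (-L₂) = ((D : ℤ) * e - m₀ * c₀) *
          (m₀ ^ 2 + ∑ i, (k i : ℤ) ^ 2 - D ^ 2) := by
        rw [hL₂, hvz]; ring
      have e2 : ((D : ℤ) ^ 2 - (m₀ : ℤ) ^ 2) * (∑ i, (k i : ℤ) * c i - v) =
          ((D : ℤ) ^ 2 - (m₀ : ℤ) ^ 2) * (m₀ * c₀ + ∑ i, (k i : ℤ) * c i - D * e) := by
        rw [hvz]; ring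
      rw [e1, e2]
      exact h1
  obtain ⟨h1, h2, h3, hidx⟩ := num_point (k := k) (c := c) hK hk h12 he1 hc₀e hXu hv (by omega)
    hL₂ hcase'
  rw [← hL₂]
  have hKpos : 0 < K := hK
  by_cases hT : ∀ i, c i ≤ T
  · exfalso
    obtain ⟨cm, hcm⟩ : ∃ cm, cm = Finset.univ.sup c := ⟨_, rfl⟩
    have hle : ∀ i, c i ≤ cm := fun i => by
      rw [hcm]; exact Finset.le_sup (Finset.mem_univ i)
    have hcmT : cm ≤ T := by rw [hcm]; exact Finset.sup_le fun i _ => hT i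
    have hsq : c₀ ^ 2 ≤ e ^ 2 := Nat.pow_le_pow_left hc₀e 2
    have hcm1 : 1 ≤ cm := by
      by_contra h0
      have h0' : cm = 0 := by omega
      have h3 : ∑ i, c i ^ 2 = 0 := by
        apply Finset.sum_eq_zero
        intro i _
        have := hle i
        have h4 : c i = 0 := by omega
        rw [h4]
        rfl
      omega
    have hex : ∃ i, c i = cm := by
      have hne : (Finset.univ : Finset (Fin r)).Nonempty := by
        by_contra hemp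
        rw [Finset.not_nonempty_iff_eq_empty] at hemp
        rw [hemp] at hcm
        simp at hcm
        omega
      obtain ⟨i, -, hi⟩ := Finset.exists_mem_eq_sup _ hne c
      exact ⟨i, by rw [hcm]; exact hi.symm⟩
    obtain ⟨i0, hi0⟩ := hex
    -- room
    have hroom : c₀ + ρ * cm ≤ e := by
      have h4 := h1 i0
      rw [hi0] at h4
      have h5 : D ^ 2 - m₀ ^ 2 = (D + m₀) * (D - m₀) := Nat.sq_sub_sq D m₀
      have h6 : 3 * K * v ≤ 3 * K * (2 * ((D + m₀) * (e - c₀))) := Nat.mul_le_mul_left _ h3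
      have h7 : (D + m₀) * ((D - m₀) * cm) ≤ (D + m₀) * (6 * K * (e - c₀)) := by
        calc (D + m₀) * ((D - m₀) * cm) = (D ^ 2 - m₀ ^ 2) * cm := by rw [h5]; ring
          _ ≤ 3 * K * (2 * ((D + m₀) * (e - c₀))) := h4.trans h6
          _ = (D + m₀) * (6 * K * (e - c₀)) := by ring
      have h8 : (D - m₀) * cm ≤ 6 * K * (e - c₀) :=
        Nat.le_of_mul_le_mul_left h7 (by omega)
      have h9 : 6 * ρ * K ≤ D - m₀ := by omega
      have h10 : (6 * K) * (ρ * cm) ≤ (6 * K) * (e - c₀) := by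
        calc (6 * K) * (ρ * cm) = 6 * ρ * K * cm := by ring
          _ ≤ (D - m₀) * cm := Nat.mul_le_mul_right _ h9
          _ ≤ (6 * K) * (e - c₀) := h8
      have h11 : ρ * cm ≤ e - c₀ := Nat.le_of_mul_le_mul_left h10 (by omega)
      omega
    have h4 := h r cm e c₀ c hcm1 hcmT hle hroom
    have h5 : 1 ≤ hPm e (Fin.cons c₀ c : Fin (r + 1) → ℕ) := by
      refine one_le_hPm hb.ne_zero he.symm.le fun i => ?_
      refine Fin.cases ?_ (fun j => ?_) i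
      · rw [Fin.cons_zero, hc₀]
        exact vq_mu _ hb.ne_zero
      · rw [Fin.cons_succ, hc]
        exact vq_mu _ hb.ne_zero
    have h6 : (c₀ + 1).choose 2 + ∑ i, (c i + 1).choose 2 < (e + 2).choose 2 := by omega
    have h7 := choose_lt_sum_q h6
    have h8 := sum_sq_le hle
    -- `∑ c i > 4 (e + c₀)`
    have h9 : (e - c₀) * (e + c₀) < cm * ∑ i, c i := by
      have h10 : e ^ 2 - c₀ ^ 2 = (e + c₀) * (e - c₀) := Nat.sq_sub_sq e c₀
      have h11 : (e - c₀) * (e + c₀) = e ^ 2 - c₀ ^ 2 := by rw [h10, mul_comm]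
      rw [h11]
      omega
    have h10 : cm * (4 * (e + c₀)) ≤ (e - c₀) * (e + c₀) := by
      have h11 : ρ * cm ≤ e - c₀ := by omega
      calc cm * (4 * (e + c₀)) = (4 * cm) * (e + c₀) := by ring
        _ ≤ (ρ * cm) * (e + c₀) := Nat.mul_le_mul_right _ (Nat.mul_le_mul_right _ hρ)
        _ ≤ (e - c₀) * (e + c₀) := Nat.mul_le_mul_right _ h11
    have h11 : 4 * (e + c₀) < ∑ i, c i := Nat.lt_of_mul_lt_mul_left (h10.trans_lt h9)
    omega
  · push Not at hT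
    obtain ⟨i0, hi0⟩ := hT
    have hle : m₀ ^ 2 ≤ D ^ 2 := Nat.pow_le_pow_left hmD 2
    have hΔn : ((D ^ 2 - m₀ ^ 2 : ℕ) : ℤ) = (D : ℤ) ^ 2 - (m₀ : ℤ) ^ 2 := by
      rw [Nat.cast_sub hle]; push_cast; rfl
    have h4 := h1 i0
    have h5 : (D ^ 2 - m₀ ^ 2) * (T + 1) ≤ 3 * K * v := (Nat.mul_le_mul_left _ hi0).trans h4
    have h6 : ((D : ℤ) ^ 2 - (m₀ : ℤ) ^ 2) * (T + 1) ≤ 3 * K * v := by
      rw [← hΔn]
      exact_mod_cast h5
    have hΔpos : (0 : ℤ) < (D : ℤ) ^ 2 - (m₀ : ℤ) ^ 2 := by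
      have h7 : (m₀ : ℤ) + 12 * K ≤ D := by exact_mod_cast h12
      have h8 : (1 : ℤ) ≤ K := by exact_mod_cast hK
      have h9 : (0 : ℤ) ≤ m₀ := Int.natCast_nonneg _
      nlinarith
    have hM := abs_nonneg L₂
    generalize |L₂| = M at *
    generalize (D : ℤ) ^ 2 - (m₀ : ℤ) ^ 2 = Δ at *
    have h7 := mul_le_mul_of_nonneg_right h6 hM
    have h8 : (3 * (K : ℤ)) * (v * M) ≤ 3 * K * (2 * K * Δ) :=
      mul_le_mul_of_nonneg_left h2 (by positivity)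
    have h9 : Δ * (((T : ℤ) + 1) * M) ≤ Δ * (6 * K ^ 2) := by nlinarith
    exact le_of_mul_le_mul_left h9 hΔpos

theorem winQ_of_FQ {T ρ : ℕ} (hT : 1 ≤ T) (hρ : 4 ≤ ρ) (h : FQ T ρ) : WinQ T ρ := by
  intro r c D m₀ m hc hm hD
  have hgen := gpt_generic (r + 1)
  have hcpos : 0 < 6 * ρ * (c + 1) := by positivity
  have h3c : m₀ + 6 * ρ * c ≤ D := by nlinarith
  have hmD : m₀ < D := by omega
  have hD1 : 1 ≤ D := by omega
  obtain ⟨mm, hmm⟩ : ∃ mm : Fin (r + 1) → ℕ, mm = Fin.cons m₀ m := ⟨_, rfl⟩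
  have hmm0 : mm 0 = m₀ := by rw [hmm]; rfl
  have hmms : ∀ i : Fin r, mm i.succ = m i := fun i => by rw [hmm]; rfl
  have hsq : ∑ i, mm i ^ 2 = m₀ ^ 2 + ∑ i, m i ^ 2 := by
    rw [Fin.sum_univ_succ, hmm0]
    simp only [hmms]
  have hs1 : ∑ i, mm i = m₀ + ∑ i, m i := by
    rw [Fin.sum_univ_succ, hmm0]
    simp only [hmms]
  have hsc : ∑ i, (mm i + 1).choose 2 = (m₀ + 1).choose 2 + ∑ i, (m i + 1).choose 2 := by
    rw [Fin.sum_univ_succ, hmm0]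
    simp only [hmms]
  rw [← hmm]
  constructor
  · intro hyp
    by_contra hne
    obtain ⟨f, hf, hfV⟩ := exists_of_hPm hne
    have hL : D ^ 2 < ∑ i, mm i ^ 2 := by
      rw [hsq]
      by_contra hcon
      have h1 : T * (m₀ ^ 2 + ∑ i, m i ^ 2) ≤ T * D ^ 2 := Nat.mul_le_mul_left _ (not_lt.1 hcon)
      have h2 : 1 ≤ c ^ 2 := Nat.one_le_pow _ _ hc
      omega
    have hΔ : (0 : ℝ) < (D : ℝ) ^ 2 - (m₀ : ℝ) ^ 2 := by
      have h1 : (m₀ : ℝ) < D := by exact_mod_cast hmD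
      have h2 : (0 : ℝ) ≤ m₀ := by positivity
      nlinarith
    obtain ⟨b, hb, hbf, hy, hphi⟩ := exists_neg
      (φ := fun g => ((D : ℝ) * g.totalDegree - m₀ * mu (aff (gpt (r + 1)) 0) g) /
        ((D : ℝ) ^ 2 - (m₀ : ℝ) ^ 2)) hf hfV
      (by
        intro g h hg hh
        rw [totalDegree_mul' hg hh, mu_mul hg hh, ← add_div]
        push_cast
        congr 1
        ring)
      (by
        intro g hg
        rw [totalDegree_unit hg, mu_unit _ hg]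
        simp)
      (by
        intro b hb _
        refine div_nonneg ?_ hΔ.le
        have h1 : mu (aff (gpt (r + 1)) 0) b ≤ b.totalDegree := mu_le_totalDegree _ hb.ne_zero
        have h2 : m₀ * mu (aff (gpt (r + 1)) 0) b ≤ D * b.totalDegree :=
          Nat.mul_le_mul hmD.le h1
        rw [sub_nonneg]
        exact_mod_cast h2)
      (by
        rw [div_le_one hΔ]
        have h1 : f.totalDegree ≤ D := hfV.1
        have h2 : m₀ ≤ mu (aff (gpt (r + 1)) 0) f := by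
          have := (vq_iff hf).1 (hfV.2 0)
          rwa [hmm0] at this
        have h3 : (D : ℝ) * f.totalDegree ≤ D * D :=
          mul_le_mul_of_nonneg_left (by exact_mod_cast h1) (by positivity)
        have h4 : (m₀ : ℝ) * m₀ ≤ m₀ * mu (aff (gpt (r + 1)) 0) f :=
          mul_le_mul_of_nonneg_left (by exact_mod_cast h2) (by positivity)
        nlinarith)
      hL
    obtain ⟨e, he⟩ : ∃ e, e = b.totalDegree := ⟨_, rfl⟩
    obtain ⟨c₀, hc₀⟩ : ∃ c₀, c₀ = mu (aff (gpt (r + 1)) 0) b := ⟨_, rfl⟩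
    have hsum : ∑ i, mm i * mu (aff (gpt (r + 1)) i) b =
        m₀ * c₀ + ∑ i, m i * mu (aff (gpt (r + 1)) i.succ) b := by
      rw [Fin.sum_univ_succ, hmm0, hc₀]
      simp only [hmms]
    have hsumr : ∑ i, (mm i : ℝ) * mu (aff (gpt (r + 1)) i) b =
        m₀ * c₀ + ∑ i, (m i : ℝ) * mu (aff (gpt (r + 1)) i.succ) b := by
      rw [Fin.sum_univ_succ, hmm0, hc₀]
      simp only [hmms]
    have hsqr : ∑ i, (mm i : ℝ) ^ 2 = (m₀ : ℝ) ^ 2 + ∑ i, (m i : ℝ) ^ 2 := by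
      rw [Fin.sum_univ_succ, hmm0]
      simp only [hmms]
    rw [hsum] at hy
    simp only [hsumr, hsqr, ← he, ← hc₀] at hphi
    have hcase : ((D : ℤ) * e - m₀ * c₀) * (m₀ ^ 2 + ∑ i, (m i : ℤ) ^ 2 - D ^ 2) ≤
        ((D : ℤ) ^ 2 - (m₀ : ℤ) ^ 2) * (m₀ * c₀ +
          ∑ i, (m i : ℤ) * mu (aff (gpt (r + 1)) i.succ) b - D * e) := by
      have h1 : ((D : ℝ) * e - m₀ * c₀) * (m₀ ^ 2 + ∑ i, (m i : ℝ) ^ 2 - D ^ 2) ≤
          ((D : ℝ) ^ 2 - (m₀ : ℝ) ^ 2) * (m₀ * c₀ +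
            ∑ i, (m i : ℝ) * mu (aff (gpt (r + 1)) i.succ) b - D * e) := by
        have h2 := mul_le_mul_of_nonneg_left hphi hΔ.le
        have h3 : ((D : ℝ) ^ 2 - (m₀ : ℝ) ^ 2) * (((D : ℝ) * e - m₀ * c₀) /
            ((D : ℝ) ^ 2 - (m₀ : ℝ) ^ 2) * (m₀ ^ 2 + ∑ i, (m i : ℝ) ^ 2 - D ^ 2)) =
            ((D : ℝ) * e - m₀ * c₀) * (m₀ ^ 2 + ∑ i, (m i : ℝ) ^ 2 - D ^ 2) := by
          field_simp
        rw [h3] at h2
        exact h2
      exact_mod_cast h1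
    rw [he, hc₀] at hcase
    rw [hc₀] at hy
    have h1 := planeQ_core h hρ hb hc hm h3c hy (Or.inr hcase)
    have h2 : (D : ℤ) ^ 2 < (m₀ : ℤ) ^ 2 + ∑ i, (m i : ℤ) ^ 2 := by
      rw [hsq] at hL
      exact_mod_cast hL
    have h3 : (T : ℤ) * D ^ 2 + 6 * c ^ 2 ≤ T * (m₀ ^ 2 + ∑ i, (m i : ℤ) ^ 2) := by
      exact_mod_cast hyp
    rw [abs_of_neg (by linarith)] at h1
    generalize (∑ i, (m i : ℤ) ^ 2) = B at *
    nlinarith
  · intro hyp
    have hyp' : T * (∑ i, mm i ^ 2 + 23 * ∑ i, mm i) + 6 * (c + 1) ^ 2 ≤ T * D ^ 2 := by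
      rw [hsq, hs1]
      have : m₀ ^ 2 + ∑ i, m i ^ 2 + 23 * (m₀ + ∑ i, m i) =
        m₀ ^ 2 + 23 * m₀ + ∑ i, m i ^ 2 + 23 * ∑ i, m i := by ring
      rw [this]
      exact hyp
    have h1 : ∑ i, mm i ^ 2 + 23 * ∑ i, mm i ≤ D ^ 2 := by
      by_contra hcon
      have h2 : T * D ^ 2 ≤ T * (∑ i, mm i ^ 2 + 23 * ∑ i, mm i) :=
        Nat.mul_le_mul_left _ (not_le.1 hcon).le
      have h3 : 1 ≤ (c + 1) ^ 2 := Nat.one_le_pow _ _ (by omega)
      omega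
    let q' : {i // mm i ≠ 0} → Fin 2 → ℂ := fun i => aff (gpt (r + 1)) i
    have hq' : Function.Injective q' := fun i j hij =>
      Subtype.ext (aff_injective hgen hij)
    have s1 : ∑ i : {i // mm i ≠ 0}, mm i ^ 2 = ∑ i, mm i ^ 2 :=
      sum_ne mm (fun i => mm i ^ 2) (fun i hi => by rw [hi]; rfl)
    have s2 : ∑ i : {i // mm i ≠ 0}, mm i = ∑ i, mm i :=
      sum_ne mm (fun i => mm i) (fun i hi => hi)
    have s3 : ∑ i : {i // mm i ≠ 0}, (mm i + 1).choose 2 = ∑ i, (mm i + 1).choose 2 :=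
      sum_ne mm (fun i => (mm i + 1).choose 2) (fun i hi => by rw [hi]; rfl)
    have key := regular_of_nef (q := q') (D := D) (m := fun i => mm i) hq'
      (fun i => Nat.one_le_iff_ne_zero.2 i.2) (by rw [s1, s2]; exact h1) ?_
    · rw [s3, hsc] at key
      have h4 : VD D q' (fun i : {i // mm i ≠ 0} => mm i) = VD D (aff (gpt (r + 1))) mm :=
        VD_sub D _ mm
      rw [h4, ← finrank_aff hgen] at key
      rw [add_assoc]
      exact key
    · intro b hb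
      by_contra hcon
      rw [not_le] at hcon
      set kk : Fin (r + 1) → ℕ := fun i => if mm i = 0 then 0 else mm i + 1 with hkk
      obtain ⟨k₀, hk₀⟩ : ∃ k₀, k₀ = kk 0 := ⟨_, rfl⟩
      obtain ⟨k, hk⟩ : ∃ k : Fin r → ℕ, ∀ i, k i = kk i.succ := ⟨_, fun i => rfl⟩
      have s4 : ∑ i : {i // mm i ≠ 0}, (mm i + 1) * mu (q' i) b =
          ∑ i, kk i * mu (aff (gpt (r + 1)) i) b := by
        rw [← sum_ne mm (fun i => kk i * mu (aff (gpt (r + 1)) i) b)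
          (fun i hi => by simp [hkk, hi])]
        apply Finset.sum_congr rfl
        intro i _
        have : kk i = mm i + 1 := if_neg i.2
        simp only [this, q']
      have s4' : ∑ i, kk i * mu (aff (gpt (r + 1)) i) b =
          k₀ * mu (aff (gpt (r + 1)) 0) b + ∑ i, k i * mu (aff (gpt (r + 1)) i.succ) b := by
        rw [Fin.sum_univ_succ, hk₀]
        simp only [hk]
      rw [s4, s4'] at hcon
      have hkle : ∀ i, k i ≤ c + 1 := by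
        intro i
        have h2 := hm i
        rw [hk]
        simp only [hkk, hmms]
        split <;> omega
      have hk₀le : k₀ ≤ m₀ + 1 := by
        rw [hk₀]
        simp only [hkk, hmm0]
        split <;> omega
      have s5 : k₀ ^ 2 + ∑ i, k i ^ 2 ≤ ∑ i, mm i ^ 2 + 3 * ∑ i, mm i := by
        have h2 : k₀ ^ 2 + ∑ i, k i ^ 2 = ∑ i, kk i ^ 2 := by
          rw [Fin.sum_univ_succ, hk₀]
          simp only [hk]
        rw [h2, Finset.mul_sum, ← Finset.sum_add_distrib]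
        apply Finset.sum_le_sum
        intro i _
        simp only [hkk]
        split
        · simp
        · have : 1 ≤ mm i := Nat.one_le_iff_ne_zero.2 (by assumption)
          nlinarith
      have s6 : k₀ ^ 2 + ∑ i, k i ^ 2 ≤ (D + 3) ^ 2 := by
        have : D ^ 2 ≤ (D + 3) ^ 2 := Nat.pow_le_pow_left (by omega) 2
        omega
      have h2 := planeQ_core (K := c + 1) h hρ hb (by omega) hkle
        (by omega : k₀ + 6 * ρ * (c + 1) ≤ D + 3) hcon (Or.inl s6)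
      have t1 : (k₀ : ℤ) ^ 2 + (∑ i, (k i : ℤ) ^ 2) ≤
          ∑ i, (mm i : ℤ) ^ 2 + 3 * ∑ i, (mm i : ℤ) := by
        exact_mod_cast s5
      have t2 : (T : ℤ) * (∑ i, (mm i : ℤ) ^ 2 + 23 * ∑ i, (mm i : ℤ)) + 6 * (c + 1) ^ 2 ≤
          T * D ^ 2 := by exact_mod_cast hyp'
      have t3 : (0 : ℤ) ≤ ∑ i, (mm i : ℤ) := Finset.sum_nonneg fun i _ => by positivity
      have t4 : (1 : ℤ) ≤ T := by exact_mod_cast hT
      have t5 : (∑ i, (mm i : ℤ) ^ 2 + 23 * ∑ i, (mm i : ℤ)) ≤ D ^ 2 := by exact_mod_cast h1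
      push_cast at h2
      generalize (∑ i, (k i : ℤ) ^ 2) = A at *
      generalize (∑ i, (mm i : ℤ) ^ 2) = B at *
      generalize (∑ i, (mm i : ℤ)) = E at *
      have hDz : (0 : ℤ) ≤ D := by positivity
      have t6 : (D : ℤ) ^ 2 - (B + 23 * E) + 9 ≤ ((D : ℤ) + 3) ^ 2 - (k₀ : ℤ) ^ 2 - A := by
        nlinarith
      have t7 : (0 : ℤ) < ((D : ℤ) + 3) ^ 2 - (k₀ : ℤ) ^ 2 - A := by linarith
      rw [abs_of_pos t7] at h2
      have t8 : (T : ℤ) * ((D : ℤ) ^ 2 - (B + 23 * E) + 9) ≤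
          T * (((D : ℤ) + 3) ^ 2 - (k₀ : ℤ) ^ 2 - A) :=
        mul_le_mul_of_nonneg_left t6 (by linarith)
      nlinarith

end Pool.Agent.Work.MP_0421d9_ag.LD
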