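import Pool.Agent.Work.MP_0421d9_ag.ZPLevel
import Pool.Agent.Work.MP_0421d9_ag.ZQStep
import Pool.Agent.Work.MP_0421d9_ag.ZQWin
import Pool.Agent.Work.MP_0421d9_ag.LWinSm

/-!
One arbitrary multiplicity: the levels and the theorem (helper21, after the plan of helper69).
-/

namespace Pool.Agent.Work.MP_0421d9_ag.LD

open MvPolynomial Module

theorem FQ_base (R : ℕ) : FQ 1 R := by
  classical
  intro r c D m₀ m hc hc1 hm hD
  have hD' : m₀ ≤ D := by omega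
  have h1 : Rg D (onB {0} (Fin.cons m₀ m : Fin (r + 1) → ℕ)) := by
    refine indep_small (by rw [Finset.card_singleton]; omega) (fun J hJ _ => ?_)
    rcases Finset.subset_singleton_iff.mp hJ with hJ | hJ
    · rw [hJ, Finset.sum_empty]
      exact Nat.zero_le _
    · rw [hJ, Finset.sum_singleton, Fin.cons_zero]
      exact hD'
  have h2 := ns_simple (m := (Fin.cons m₀ m : Fin (r + 1) → ℕ)) h1 (fun i => by
    unfold onB
    split_ifs
    · exact le_rfl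
    · exact Nat.zero_le _) (fun i hi => by
    refine Fin.cases (fun hi => ?_) (fun j _ => ?_) i hi
    · unfold onB at hi
      rw [if_pos (Finset.mem_singleton_self _)] at hi
      exact absurd hi (lt_irrefl _)
    · rw [Fin.cons_succ]
      exact (hm j).trans hc1)
  rw [h2, Fin.sum_univ_succ, Fin.cons_zero]
  simp only [Fin.cons_succ]

theorem FQ_level (n : ℕ) : ∃ R₀ : ℕ, ∀ R, R₀ ≤ R → FQ (R ^ n) R := by
  induction n with
  | zero =>
    refine ⟨0, fun R _ => ?_⟩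
    rw [pow_zero]
    exact FQ_base R
  | succ n ih =>
    obtain ⟨R₁, ih⟩ := ih
    obtain ⟨R₃, hFP⟩ := FP_level (n + 1)
    obtain ⟨G₁, A₁, hC2⟩ := plane_C2
    obtain ⟨K, hK⟩ : ∃ K, K = n + 3 := ⟨_, rfl⟩
    obtain ⟨G, hG⟩ : ∃ G, G = 2 ^ (2 * K + 8) + G₁ := ⟨_, rfl⟩
    obtain ⟨X, hX⟩ : ∃ X, X = 10 ^ 4 * G := ⟨_, rfl⟩
    have hG1 : 1 ≤ G := by
      have : 1 ≤ 2 ^ (2 * K + 8) := Nat.one_le_two_pow
      omega
    have hX1 : 1 ≤ X := by omega
    obtain ⟨R₂, hpar⟩ := zp_params (2 * (n + 1)) (2 * (n + 1)) K G X A₁ le_rfl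
    refine ⟨R₂ + R₃ + 100 * X * (R₁ + 4) + (200 * X) ^ n * (10 ^ 6 * G) +
      (4 * X) ^ (2 * K - 1) * (2 ^ (2 * K + 3) * df K), fun R hR => ?_⟩
    obtain ⟨s, q, p, J, hW, hq, ha2, hRs, hp, hJ, hR1, hR2, hR4⟩ := hpar R (by omega)
    have hT1 : 1 ≤ (s + 1) ^ (2 * (n + 1)) := Nat.one_le_pow _ _ (Nat.succ_pos s)
    -- the plane of the previous level
    obtain ⟨ρ, hρ⟩ : ∃ ρ, ρ = R / (100 * X) := ⟨_, rfl⟩
    have h20X : 100 * X * (R₁ + 4) ≤ R := by omega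
    have hρ1 : R₁ + 4 ≤ ρ := by
      rw [hρ, Nat.le_div_iff_mul_le (by omega), Nat.mul_comm]
      exact h20X
    have hR0 : 1 ≤ R := by
      have := Nat.div_le_self R (100 * X)
      omega
    have hWQ := winQ_of_FQ (T := ρ ^ n) (ρ := ρ) (Nat.one_le_pow _ _ (by omega)) (by omega)
      (ih ρ (by omega))
    have hTpT : R ^ (n + 1) ≤ (s + 1) ^ (2 * (n + 1)) := by
      rw [pow_mul]
      exact Nat.pow_le_pow_left hRs _
    have hJ' : 100 * p ^ 2 + 64 * p ^ 2 * (Nat.log 2 (R ^ (n + 1) + 1) + 2) + 2 ≤ J := by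
      refine le_trans ?_ hJ
      have h1 : Nat.log 2 (R ^ (n + 1) + 1) ≤ Nat.log 2 ((s + 1) ^ (2 * (n + 1)) + 1) :=
        Nat.log_mono_right (Nat.add_le_add_right hTpT 1)
      gcongr
    have hR3 : 100 * X * ρ ≤ R := by
      rw [hρ]
      exact Nat.mul_div_le R (100 * X)
    have hTp2 : 10 ^ 6 * G * R ^ (n + 1) ≤ ρ ^ n * R ^ 2 := by
      have h1 : R ≤ 200 * X * ρ := by
        have := zp_div (R := R) (Z := 100 * X) (by omega) (by nlinarith)
        rw [← hρ] at this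
        calc R ≤ 2 * (100 * X) * ρ := this
          _ = 200 * X * ρ := by ring
      have h2 : (200 * X) ^ n * (10 ^ 6 * G) ≤ R := by omega
      have h3 : (200 * X) ^ n * (10 ^ 6 * G * R ^ (n + 1)) ≤
          (200 * X) ^ n * (ρ ^ n * R ^ 2) := by
        calc (200 * X) ^ n * (10 ^ 6 * G * R ^ (n + 1))
            = ((200 * X) ^ n * (10 ^ 6 * G)) * R ^ (n + 1) := by ring
          _ ≤ R * R ^ (n + 1) := Nat.mul_le_mul_right _ h2
          _ = R ^ n * R ^ 2 := by ring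
          _ ≤ (200 * X * ρ) ^ n * R ^ 2 := Nat.mul_le_mul_right _ (Nat.pow_le_pow_left h1 n)
          _ = (200 * X) ^ n * (ρ ^ n * R ^ 2) := by rw [mul_pow, mul_assoc]
      exact Nat.le_of_mul_le_mul_left h3 (pow_pos (by omega) n)
    have hTp3 : 2 ^ (2 * K + 3) * df K * R ^ (n + 1) ≤ (R / (2 * X)) ^ (2 * K - 1) := by
      have h1 : R ≤ 4 * X * (R / (2 * X)) := by
        have := zp_div (R := R) (Z := 2 * X) (by omega) (by nlinarith)
        calc R ≤ 2 * (2 * X) * (R / (2 * X)) := this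
          _ = 4 * X * (R / (2 * X)) := by ring
      refine zp_pow h1 ?_ (by omega)
      have h2 : (4 * X) ^ (2 * K - 1) * (2 ^ (2 * K + 3) * df K) ≤ R := by omega
      calc (4 * X) ^ (2 * K - 1) * (2 ^ (2 * K + 3) * df K * R ^ (n + 1))
          = ((4 * X) ^ (2 * K - 1) * (2 ^ (2 * K + 3) * df K)) * R ^ (n + 1) := by ring
        _ ≤ R * R ^ (n + 1) := Nat.mul_le_mul_right _ h2
        _ = R ^ (n + 2) := by ring
        _ ≤ R ^ (2 * K - 1) := Nat.pow_le_pow_right hR0 (by omega)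
    exact FQ_step hC2 hW hWQ (hFP R (by omega)) hT1 (Nat.one_le_pow _ _ (by omega)) hq ha2
      (by omega) (by omega) hp hJ' (hG.ge.trans' (Nat.le_add_right _ _))
      (hG.ge.trans' (Nat.le_add_left _ _)) hX.ge hR1 hR2 hR3 hR4 hTpT hTp2 hTp3

/-- the point of the arbitrary multiplicity is the first one -/
theorem FQ.apply {T ρ : ℕ} (h : FQ T ρ) {r d c : ℕ} {p : Fin r → V3} (hp : GenericPoints p)
    (m : Fin r → ℕ) (i₀ : Fin r) (hc : 1 ≤ c) (hcT : c ≤ T) (hm : ∀ i, i ≠ i₀ → m i ≤ c)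
    (hd : m i₀ + ρ * c ≤ d) :
    finrank ℂ (linSys d p m) = (d + 2).choose 2 - ∑ i, (m i + 1).choose 2 := by
  classical
  obtain ⟨s, rfl⟩ : ∃ s, r = s + 1 := ⟨r - 1, by have := i₀.2; omega⟩
  obtain ⟨e, he⟩ : ∃ e : Fin (s + 1) ≃ Fin (s + 1), e = Equiv.swap 0 i₀ := ⟨_, rfl⟩
  have he0 : e 0 = i₀ := by rw [he, Equiv.swap_apply_left]
  have h1 : (fun i => m (e i)) = (Fin.cons (m i₀) (fun i : Fin s => m (e i.succ)) :
      Fin (s + 1) → ℕ) := by
    funext i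
    refine Fin.cases ?_ (fun j => ?_) i
    · rw [he0, Fin.cons_zero]
    · rw [Fin.cons_succ]
  have h2 := h s c d (m i₀) (fun i : Fin s => m (e i.succ)) hc hcT (fun i => by
    refine hm _ (fun h3 => ?_)
    rw [← he0] at h3
    exact Fin.succ_ne_zero i (e.injective h3)) hd
  rw [hPm_eq hp, ← hPm_equiv e, h1, h2]
  congr 1
  rw [← Equiv.sum_comp e (fun i => (m i + 1).choose 2), Fin.sum_univ_succ, he0]

/-- all multiplicities but at most one are at most `M` -/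
theorem all_but_one {ε : ℝ} (hε : 0 < ε) : ∃ C : ℝ, ∀ (r d M : ℕ) (p : Fin r → V3)
    (m : Fin r → ℕ) (i₀ : Fin r), GenericPoints p → (∀ i, i ≠ i₀ → m i ≤ M) →
      (m i₀ : ℝ) + C * (M : ℝ) ^ (1 + ε) ≤ d →
      finrank ℂ (linSys d p m) = (d + 2).choose 2 - ∑ i, (m i + 1).choose 2 := by
  obtain ⟨n, hn⟩ := exists_nat_ge (1 / ε)
  have hn0 : 0 < n := by
    rcases Nat.eq_zero_or_pos n with h | h
    · rw [h, Nat.cast_zero] at hn
      have : 0 < 1 / ε := by positivity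
      linarith
    · exact h
  have hnR : (0 : ℝ) < n := by exact_mod_cast hn0
  obtain ⟨R₀, hR₀⟩ := FQ_level n
  refine ⟨R₀ + 2, fun r d M p m i₀ hp hm hd => ?_⟩
  rcases Nat.eq_zero_or_pos M with hM | hM
  · refine (FQ_base 0).apply hp m i₀ le_rfl le_rfl (fun i hi => (hm i hi).trans (by omega)) ?_
    rw [Nat.zero_mul, Nat.add_zero]
    rw [hM, Nat.cast_zero, Real.zero_rpow (by positivity), mul_zero, add_zero] at hd
    exact_mod_cast hd
  · -- the level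
    obtain ⟨t, ht⟩ : ∃ t, t = ⌈(M : ℝ) ^ ((1 : ℝ) / n)⌉₊ := ⟨_, rfl⟩
    have hM1 : (1 : ℝ) ≤ M := by exact_mod_cast hM
    have hroot1 : (1 : ℝ) ≤ (M : ℝ) ^ ((1 : ℝ) / n) := Real.one_le_rpow hM1 (by positivity)
    have ht1 : (M : ℝ) ^ ((1 : ℝ) / n) ≤ t := by
      rw [ht]
      exact Nat.le_ceil _
    have ht2 : (t : ℝ) ≤ (M : ℝ) ^ ((1 : ℝ) / n) + 1 := by
      rw [ht]
      exact (Nat.ceil_lt_add_one (by positivity)).le
    have hMt : M ≤ t ^ n := by
      have h1 : (M : ℝ) ≤ (t : ℝ) ^ n := by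
        calc (M : ℝ) = ((M : ℝ) ^ ((1 : ℝ) / n)) ^ n := by
              rw [← Real.rpow_natCast, ← Real.rpow_mul (by positivity), one_div,
                inv_mul_cancel₀ hnR.ne', Real.rpow_one]
          _ ≤ (t : ℝ) ^ n := pow_le_pow_left₀ (by positivity) ht1 n
      exact_mod_cast h1
    have hRn : M ≤ (R₀ + t) ^ n := hMt.trans (Nat.pow_le_pow_left (by omega) n)
    refine (hR₀ (R₀ + t) (by omega)).apply hp m i₀ hM hRn hm ?_
    have h2 : (((m i₀ + (R₀ + t) * M : ℕ)) : ℝ) ≤ d := by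
      push_cast
      refine le_trans ?_ hd
      have h3 : (M : ℝ) ^ ((1 : ℝ) / n) ≤ (M : ℝ) ^ ε := by
        apply Real.rpow_le_rpow_of_exponent_le hM1
        rw [div_le_iff₀ hnR]
        rw [div_le_iff₀ hε] at hn
        linarith
      have h4 : (M : ℝ) ^ (1 + ε) = M * (M : ℝ) ^ ε := by
        rw [Real.rpow_add (by positivity), Real.rpow_one]
      have h5 : (1 : ℝ) ≤ (M : ℝ) ^ ε := hroot1.trans h3
      rw [h4]
      have h6 : ((R₀ : ℝ) + t) ≤ (R₀ + 2) * (M : ℝ) ^ ε := by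
        have h7 : (R₀ : ℝ) ≤ R₀ * (M : ℝ) ^ ε := le_mul_of_one_le_right (by positivity) h5
        nlinarith
      have h8 : ((R₀ : ℝ) + t) * M ≤ (R₀ + 2) * (M * (M : ℝ) ^ ε) := by
        calc ((R₀ : ℝ) + t) * M ≤ ((R₀ + 2) * (M : ℝ) ^ ε) * M :=
              mul_le_mul_of_nonneg_right h6 (by positivity)
          _ = (R₀ + 2) * (M * (M : ℝ) ^ ε) := by ring
      linarith
    exact_mod_cast h2

end Pool.Agent.Work.MP_0421d9_ag.LD
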