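import Pool.Agent.Work.MP_0421d9_ag.ZELines
import Pool.Agent.Work.MP_0421d9_ag.ZCPick
import Pool.Agent.Work.MP_0421d9_ag.ZQLevel

/-!
The choice of the clusters if one of the multiplicities is arbitrary.
-/

set_option linter.unusedSectionVars false

namespace Pool.Agent.Work.MP_0421d9_ag.ZE

open MvPolynomial Module SM

/-- `FQ.apply` for arbitrary finite index types -/
theorem FQ_nsp {T ρ : ℕ} (h : LD.FQ T ρ) {κ : Type} [Fintype κ] {d c : ℕ} (y : κ → ℕ) (k₀ : κ)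
    (hc : 1 ≤ c) (hcT : c ≤ T) (hy : ∀ k, k ≠ k₀ → y k ≤ c) (hd : y k₀ + ρ * c ≤ d) : Nsp d y := by
  classical
  intro p hp
  set e := Fintype.equivFin κ with he
  have h1 : linSys d p y = linSys d (fun k => p (e.symm k)) (fun k => y (e.symm k)) := by
    ext F
    constructor
    · rintro ⟨h1, h2⟩
      exact ⟨h1, fun k => h2 _⟩
    · rintro ⟨h1, h2⟩
      refine ⟨h1, fun i => ?_⟩
      have := h2 (e i)
      simpa using this
  have h2 : GenericPoints (fun k => p (e.symm k)) := by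
    unfold GenericPoints at hp ⊢
    exact hp.comp (fun z : Fin (Fintype.card κ) × Fin 3 => (e.symm z.1, z.2))
      (fun z z' hz => by
        rw [Prod.mk.injEq] at hz
        exact Prod.ext (e.symm.injective hz.1) hz.2)
  rw [h1, h.apply h2 (fun k => y (e.symm k)) (e k₀) hc hcT (fun k hk => hy _ (fun h3 => hk (by
    rw [← h3, Equiv.apply_symm_apply]))) (by rwa [Equiv.symm_apply_apply])]
  congr 1
  exact Equiv.sum_comp e.symm (fun i => (y i + 1).choose 2)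

/-- nonspeciality of all the systems, one multiplicity arbitrary -/
theorem exists_nspA (k : ℕ) : ∃ R' : ℕ, ∀ M N : ℕ, 1 ≤ M → R' ≤ N → M ≤ N ^ k →
    ∀ {κ : Type} [Fintype κ] (d : ℕ) (y : κ → ℕ) (k₀ : κ), (∀ k, k ≠ k₀ → y k ≤ M) →
      y k₀ + N * M ≤ d → Nsp d y := by
  obtain ⟨R₀, hR₀⟩ := LD.FQ_level k
  exact ⟨R₀, fun M N hM hN hMN κ _ d y k₀ hy hd =>
    FQ_nsp (hR₀ N hN) y k₀ hM hMN hy hd⟩

/-- **The data of the collision**, one multiplicity arbitrary -/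
theorem exists_datA (A : ℝ) : ∃ R : ℝ, ∀ (d M : ℕ) (ι : Type) [Fintype ι]
    [DecidableEq ι] (m : ι → ℕ) (i₀ : ι), 1 ≤ M → (∀ i, i ≠ i₀ → m i ≤ M) →
    R * M ≤ (d : ℝ) - m i₀ → (M : ℝ) ≤ (((d : ℝ) - m i₀) / M) ^ A →
    ∑ i, (m i + 1).choose 2 + 1 = (d + 2).choose 2 →
    ∃ (M' : ℕ) (C : Fin 200 → Finset ι) (μ w : Fin 200 → ℕ)
      (e : {i : ι // ∀ l, i ∉ C l} ⊕ (Σ l, Fin (C l).card) ≃ ι) (h₀ : ∀ l, i₀ ∉ C l),
      (∀ z, e z = Sum.elim (fun i => i.1) (fun x => ((C x.1).equivFin.symm x.2).1) z) ∧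
      LDat d M' (fun i : {i : ι // ∀ l, i ∉ C l} => m i.1) {⟨i₀, h₀⟩} μ w (fun l => (C l).card)
        (fun _ => M + 1) (fun l j => m ((C l).equivFin.symm j).1) := by
  obtain ⟨R', hR'⟩ := ZC.exists_nsp (8 * ⌈A⌉₊ + 1) (by omega)
  obtain ⟨R'', hR''⟩ := exists_nspA (8 * ⌈A⌉₊ + 1)
  obtain ⟨N₀, hN₀⟩ := ZC.exists_N ⌈A⌉₊ (R' + R'')
  refine ⟨((N₀ ^ 8 + 1 : ℕ) : ℝ), fun d M ι _ _ m i₀ hM hm hd hMx hχ => ?_⟩
  -- the difference
  have hdm : m i₀ ≤ d := by
    have h1 : (0 : ℝ) ≤ ((N₀ ^ 8 + 1 : ℕ) : ℝ) * M := by positivity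
    have h2 : (m i₀ : ℝ) ≤ d := by linarith
    exact_mod_cast h2
  obtain ⟨D, hD⟩ : ∃ D, d = m i₀ + D := ⟨d - m i₀, by omega⟩
  have hDc : (d : ℝ) - m i₀ = D := by
    rw [hD]
    push_cast
    ring
  rw [hDc] at hd hMx
  obtain ⟨N, hN, hNd, hMN⟩ := ZC.exists_root N₀ hM hd hMx
  obtain ⟨hpig, hM1, hRN, hN100⟩ := hN₀ N hN M hMN
  obtain ⟨t, ht⟩ : ∃ t, t = M ^ 2 * N ^ 4 := ⟨_, rfl⟩
  obtain ⟨u, hu⟩ : ∃ u, u = t + N * (N * M ^ 2) := ⟨_, rfl⟩
  obtain ⟨L, hL⟩ : ∃ L, L = M * N ^ 2 := ⟨_, rfl⟩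
  have htL : t = L * L := by
    rw [ht, hL]
    ring
  have hN2 : 10000 ≤ N ^ 2 := by nlinarith
  have huL : N * (N * M ^ 2) * 10000 ≤ L * L := by
    rw [hL]
    calc N * (N * M ^ 2) * 10000 ≤ N * (N * M ^ 2) * N ^ 2 := Nat.mul_le_mul_left _ hN2
      _ = M * N ^ 2 * (M * N ^ 2) := by ring
  have hL0 : 10000 ≤ L := by
    rw [hL]
    calc 10000 ≤ 1 * N ^ 2 := by omega
      _ ≤ M * N ^ 2 := Nat.mul_le_mul_right _ hM
  have hML : M * 10000 ≤ L := by
    rw [hL]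
    exact Nat.mul_le_mul_left _ hN2
  have hdL : L * N ^ 6 ≤ D := by
    calc L * N ^ 6 = N ^ 8 * M := by
          rw [hL]
          ring
      _ ≤ D := hNd
  have hN6 : 10000 * 10000 ≤ N ^ 6 := by
    calc 10000 * 10000 ≤ N ^ 2 * N ^ 2 := Nat.mul_le_mul hN2 hN2
      _ = N ^ 4 := by ring
      _ ≤ N ^ 6 := Nat.pow_le_pow_right (by omega) (by norm_num)
  have hdL' : L * (10000 * 10000) ≤ D := (Nat.mul_le_mul_left _ hN6).trans hdL
  -- the clusters
  obtain ⟨S, hS⟩ : ∃ S : Finset ι, S = Finset.univ.filter (fun i => i ≠ i₀ ∧ 1 ≤ m i) := ⟨_, rfl⟩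
  have hSsum : (m i₀ + 1).choose 2 + ∑ i ∈ S, (m i + 1).choose 2 = ∑ i, (m i + 1).choose 2 := by
    have h1 : ∑ i ∈ S, (m i + 1).choose 2 =
        ∑ i ∈ Finset.univ.erase i₀, (m i + 1).choose 2 := by
      rw [hS]
      apply Finset.sum_subset
      · intro i hi
        rw [Finset.mem_filter] at hi
        exact Finset.mem_erase.mpr ⟨hi.2.1, Finset.mem_univ i⟩
      · intro i hi hi'
        have h2 : m i = 0 := by
          by_contra h3
          exact hi' (Finset.mem_filter.mpr ⟨Finset.mem_univ i, (Finset.mem_erase.mp hi).1,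
            by omega⟩)
        rw [h2]
        rfl
    rw [h1]
    exact Finset.add_sum_erase Finset.univ (fun i => (m i + 1).choose 2) (Finset.mem_univ i₀)
  have hc1 : ∀ i ∈ S, 1 ≤ (m i + 1).choose 2 := by
    intro i hi
    rw [hS, Finset.mem_filter] at hi
    exact Nat.choose_pos (by omega)
  have hmS : ∀ i ∈ S, m i ≤ M := by
    intro i hi
    rw [hS, Finset.mem_filter] at hi
    exact hm i hi.2.1
  have hcK : ∀ i ∈ S, (m i + 1).choose 2 ≤ M ^ 2 := by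
    intro i hi
    have h1 := ZC.pick_two_choose (m i)
    have h2 : m i * m i ≤ M * M := Nat.mul_le_mul (hmS i hi) (hmS i hi)
    have h3 := hmS i hi
    have h4 : M * 1 ≤ M * M := Nat.mul_le_mul_left _ hM
    rw [pow_two]
    omega
  have hdd : 2 * (d + 2).choose 2 = d * d + 3 * d + 2 := by
    have := ZC.pick_two_choose (d + 1)
    rw [this]
    ring
  have hm0 := ZC.pick_two_choose (m i₀)
  have hdd2 : d * d = m i₀ * m i₀ + 2 * (m i₀ * D) + D * D := by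
    rw [hD]
    ring
  have hdLL : (L * L) * 10000 ≤ D * D := by
    calc (L * L) * 10000 ≤ (L * (10000 * 10000)) * (L * (10000 * 10000)) := by nlinarith
      _ ≤ D * D := Nat.mul_le_mul hdL' hdL'
  have ht4 : 10000 ≤ t := by
    rw [htL]
    calc 10000 ≤ L * 1 := by omega
      _ ≤ L * L := Nat.mul_le_mul_left _ (by omega)
  have hbig : 4 * ((200 + 1) * (t + N * (N * M ^ 2))) ≤ ∑ i ∈ S, (m i + 1).choose 2 := by
    omega
  obtain ⟨C, μ, w, hCS, hCd, hmid⟩ : ∃ (C : Fin 200 → Finset ι) (μ w : Fin 200 → ℕ),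
      (∀ l, C l ⊆ S) ∧ (∀ l l', l ≠ l' → Disjoint (C l) (C l')) ∧
        ∀ l, ZC.Mid (fun i => (m i + 1).choose 2) t
        (t + N * (N * M ^ 2)) (C l) (μ l) (w l) := by
    obtain ⟨C, μ, w, hCS, hCd, hmid⟩ := ZC.exists_clusters S (fun i => (m i + 1).choose 2) hc1 hcK
      hpig ht4 200 hbig
    exact ⟨fun l => C l, fun l => μ l, fun l => w l, fun l => hCS l l.2,
      fun l l' hne => hCd l l.2 l' l'.2 (fun h => hne (Fin.ext h)), fun l => hmid l l.2⟩
  have hnum : ∀ l, M * N ^ 2 ≤ μ l + 1 ∧ μ l ≤ 3 * (M * N ^ 2) ∧ M * N ^ 2 ≤ 8 * w l + 1 ∧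
      w l + 2 * (M + 1) ≤ μ l + 1 ∧ N * (M + 1) + 1 ≤ μ l ∧ 2 * (M + 1) ≤ μ l := by
    intro l
    obtain ⟨g1, g2, g3, g4, g5, g6⟩ := hmid l
    exact ZC.cluster_num hM hN100 ht rfl g1 g2 g3 g4 g5 g6 (ZC.pick_two_choose _)
  rw [← hL] at hnum
  obtain ⟨e, he⟩ := ZC.exists_split C hCd
  have h₀ : ∀ l, i₀ ∉ C l := by
    intro l hl
    have := hCS l hl
    rw [hS, Finset.mem_filter] at this
    exact this.2.1 rfl
  have hsplit : ∑ i : {i : ι // ∀ l : Fin 200, i ∉ C l}, (m i.1 + 1).choose 2 +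
      ∑ l : Fin 200, ∑ j : Fin (C l).card, (m ((C l).equivFin.symm j).1 + 1).choose 2 =
      ∑ i, (m i + 1).choose 2 := by
    rw [← Equiv.sum_comp e (fun i => (m i + 1).choose 2), Fintype.sum_sum_type,
      Fintype.sum_sigma]
    refine congrArg₂ (· + ·) (Finset.sum_congr rfl (fun i _ => ?_))
      (Finset.sum_congr rfl (fun l _ => Finset.sum_congr rfl (fun j _ => ?_)))
    · rw [he]
      rfl
    · rw [he]
      rfl
  have hcl : ∀ l : Fin 200, ∑ j : Fin (C l).card, (m ((C l).equivFin.symm j).1 + 1).choose 2 =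
      (μ l + 1).choose 2 + w l := by
    intro l
    rw [← (hmid l).1, Equiv.sum_comp (C l).equivFin.symm (fun i => (m i.1 + 1).choose 2)]
    exact Finset.sum_coe_sort (C l) (fun i => (m i + 1).choose 2)
  refine ⟨3 * L + 1, C, μ, w, e, h₀, he, ?_⟩
  have hM'N : 3 * L + 1 ≤ (N ^ 5) ^ (8 * ⌈A⌉₊ + 1) := by
    calc 3 * L + 1 ≤ 4 * L := by omega
      _ = 4 * (M * N ^ 2) := by rw [hL]
      _ ≤ N ^ 2 * (N ^ (8 * ⌈A⌉₊ + 1) * N ^ 2) :=
          Nat.mul_le_mul (by omega) (Nat.mul_le_mul_right _ (by omega))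
      _ = N ^ 4 * N ^ (8 * ⌈A⌉₊ + 1) := by ring
      _ ≤ (N ^ 4) ^ (8 * ⌈A⌉₊ + 1) * N ^ (8 * ⌈A⌉₊ + 1) :=
          Nat.mul_le_mul_right _ (Nat.le_self_pow (by omega) _)
      _ = (N ^ 5) ^ (8 * ⌈A⌉₊ + 1) := by
          rw [← mul_pow]
          congr 1
  have hNM' : N ^ 5 * (3 * L + 1) ≤ D := by
    calc N ^ 5 * (3 * L + 1) ≤ N ^ 5 * (N * L) := Nat.mul_le_mul_left _ (by nlinarith)
      _ = L * N ^ 6 := by ring
      _ ≤ D := hdL
  have hRN1 : R' ≤ N := by omega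
  have hRN2 : R'' ≤ N := by omega
  refine
    { hN := ?_
      hm := fun i hi => ?_
      hμ := fun l => ?_
      hd := ?_
      hχ := ?_
      room := ?_
      hNv := fun l => ?_
      hNv' := fun l => ?_
      hv := fun l j => ?_
      hvμ := fun l => ?_
      crit := fun l => ?_
      hw := fun l => ?_
      hMv := fun l => Nat.le_add_left 1 M
      two := fun l => ?_ }
  · rintro y ⟨hy1, T, -, hT, hy2⟩
    have hy0 : y (Sum.inl ⟨i₀, h₀⟩) = m i₀ := by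
      refine hy2 _ (fun h => ?_)
      exact (hT _ h).1 (Finset.mem_singleton_self _)
    refine hR'' (3 * L + 1) (N ^ 5) (by omega) (hRN2.trans (Nat.le_self_pow (by norm_num) N)) hM'N
      d y (Sum.inl ⟨i₀, h₀⟩) ?_ (by rw [hy0]; omega)
    rintro (i | l) hk
    · have hi : i.1 ≠ i₀ := fun h => hk (congrArg Sum.inl (Subtype.ext h))
      have h1 := hm i.1 hi
      have h2 : y (Sum.inl i) ≤ m i.1 + 1 := by
        by_cases hiT : i ∈ T
        · exact (hT i hiT).2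
        · exact (hy2 i hiT).le.trans (Nat.le_succ _)
      omega
    · have h1 := (hy1 l).2
      have h2 := (hnum l).2.1
      omega
  · have := hm i.1 (fun h => hi (Finset.mem_singleton.mpr (Subtype.ext h)))
    change m i.1 + 1 ≤ 3 * L + 1
    omega
  · have := (hnum l).2.1
    change μ l + 1 ≤ 3 * L + 1
    omega
  · rw [Finset.sum_singleton]
    change ∑ l : Fin 200, (μ l + 2) + m i₀ + 2 * (3 * L + 1) ≤ d
    have h1 : ∑ l : Fin 200, (μ l + 2) ≤ 200 * (3 * L + 2) := by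
      calc ∑ l : Fin 200, (μ l + 2) ≤ ∑ l : Fin 200, (3 * L + 2) :=
            Finset.sum_le_sum (fun l _ => by
              have := (hnum l).2.1
              omega)
        _ = 200 * (3 * L + 2) := by
            rw [Finset.sum_const, Finset.card_univ, Fintype.card_fin, smul_eq_mul]
    omega
  · rw [Finset.sum_congr rfl (fun l _ => hcl l), Finset.sum_add_distrib] at hsplit
    omega
  · calc 5 * (3 * L + 1) ≤ 200 * (L / 10) := by omega
      _ = ∑ l : Fin 200, L / 10 := by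
          rw [Finset.sum_const, Finset.card_univ, Fintype.card_fin, smul_eq_mul]
      _ ≤ ∑ l : Fin 200, w l := Finset.sum_le_sum (fun l _ => by
          have := (hnum l).2.2.1
          omega)
  · have h1 := (hnum l).2.2.2.2.1
    exact hR' (μ l) (M + 1) N (by omega) (by omega) hRN1 hM1
  · have h1 := (hnum l).2.2.2.2.1
    exact hR' (μ l - 1) (M + 1) N (by omega) (by omega) hRN1 hM1
  · exact Nat.add_le_add_right (hmS _ (hCS l ((C l).equivFin.symm j).2)) 1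
  · exact (hnum l).2.2.2.2.2
  · exact hcl l
  · exact (hnum l).2.2.2.1
  · rcases eq_or_ne l 0 with h | h
    · exact ⟨1, by rw [h]; decide⟩
    · exact ⟨0, h.symm⟩

end Pool.Agent.Work.MP_0421d9_ag.ZE
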