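import Pool.Agent.Work.MP_0421d9_ag.ZELines
import Pool.Agent.Work.MP_0421d9_ag.ZCPick

/-!
The data of the collision for systems in which the points of small multiplicity impose not too few
conditions, and the other multiplicities are much larger.
-/

set_option linter.unusedSectionVars false

namespace Pool.Agent.Work.MP_0421d9_ag.ZE

open MvPolynomial Module SM ZC

section windows

/-- the windows for arbitrary finite index types -/
theorem nsp_windows {A : ℝ} (hA : 0 < A) : ∃ R : ℝ, ∀ (d M : ℕ) (κ : Type) [Fintype κ]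
    (y : κ → ℕ), 1 ≤ M → (∀ j, y j ≤ M) → R * M ≤ d →
    (d : ℝ) ^ 2 * ((M : ℝ) / d) ^ A ≤
      ∑ j, (if (y j : ℝ) ≤ ((d : ℝ) / M) ^ A then ((y j + 1).choose 2 : ℝ) else 0) → Nsp d y := by
  obtain ⟨R, hR⟩ := LD.all_windows hA
  refine ⟨R, fun d M κ _ y hM hy hd H p hp => ?_⟩
  classical
  set e := Fintype.equivFin κ with he
  have h1 : linSys d p y = linSys d (fun k => p (e.symm k)) (fun k => y (e.symm k)) := by
    ext F
    constructor
    · rintro ⟨h1, h2⟩
      exact ⟨h1, fun k => h2 _⟩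
    · rintro ⟨h1, h2⟩
      refine ⟨h1, fun i => ?_⟩
      have := h2 (e i)
      simpa using this
  have h2 : GenericPoints (fun k => p (e.symm k)) := by
    unfold GenericPoints at hp ⊢
    exact hp.comp (fun z : Fin (Fintype.card κ) × Fin 3 => (e.symm z.1, z.2))
      (fun z z' hz => by
        rw [Prod.mk.injEq] at hz
        exact Prod.ext (e.symm.injective hz.1) hz.2)
  rw [h1, hR _ d M _ (fun k => y (e.symm k)) h2 hM (fun k => hy _) hd (Or.inr (Or.inr ?_))]
  · congr 1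
    exact Equiv.sum_comp e.symm (fun i => (y i + 1).choose 2)
  · rw [Equiv.sum_comp e.symm (fun i => if (y i : ℝ) ≤ ((d : ℝ) / M) ^ A then
      ((y i + 1).choose 2 : ℝ) else 0)]
    exact H

/-- the eighth root -/
theorem root8 (N₀ : ℕ) {d M : ℕ} (hM : 1 ≤ M) (hd : ((N₀ ^ 8 + 1 : ℕ) : ℝ) * M ≤ d) :
    ∃ N ≥ N₀, N ^ 8 * M ≤ d ∧ (d : ℝ) / M ≤ ((N : ℝ) + 1) ^ 8 := by
  have hM0 : (0 : ℝ) < M := by exact_mod_cast hM
  obtain ⟨x, hx⟩ : ∃ x : ℝ, x = (d : ℝ) / M := ⟨_, rfl⟩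
  rw [← hx]
  have hx1 : ((N₀ : ℝ) ^ 8 + 1) ≤ x := by
    rw [hx, le_div_iff₀ hM0]
    push_cast at hd
    exact hd
  have hx2 : 1 ≤ x := by
    have : (0 : ℝ) ≤ (N₀ : ℝ) ^ 8 := by positivity
    linarith
  have hx0 : 0 ≤ x := by linarith
  obtain ⟨y, hy⟩ : ∃ y : ℝ, y = x ^ ((1 : ℝ) / 8) := ⟨_, rfl⟩
  have hy0 : 0 ≤ y := by
    rw [hy]
    exact Real.rpow_nonneg hx0 _
  have hyx : y ^ 8 = x := by
    rw [hy, ← Real.rpow_natCast, ← Real.rpow_mul hx0]
    norm_num
  refine ⟨⌊y⌋₊, ?_, ?_, ?_⟩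
  · apply Nat.le_floor
    by_contra hcon
    rw [not_le] at hcon
    have : y ^ 8 ≤ (N₀ : ℝ) ^ 8 := pow_le_pow_left₀ hy0 hcon.le 8
    rw [hyx] at this
    linarith
  · have h1 : ((⌊y⌋₊ : ℝ)) ^ 8 ≤ x := by
      rw [← hyx]
      exact pow_le_pow_left₀ (Nat.cast_nonneg _) (Nat.floor_le hy0) 8
    rw [hx, le_div_iff₀ hM0] at h1
    exact_mod_cast h1
  · rw [← hyx]
    exact pow_le_pow_left₀ hy0 (Nat.lt_floor_add_one y).le 8

/-- the number of clusters -/
theorem cluster_count {M L : ℕ} (hL : 10000 ≤ L) :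
    ∃ n, 2 ≤ n ∧ 5 * (M + 1) ≤ n * (L / 10) ∧ n * L ≤ 60 * (M + 1) + 2 * L := by
  have hL0 : 0 < L := by omega
  have h1 := Nat.div_add_mod (60 * (M + 1)) L
  have h2 := Nat.mod_lt (60 * (M + 1)) hL0
  obtain ⟨k, hk⟩ : ∃ k, k = 60 * (M + 1) / L := ⟨_, rfl⟩
  rw [← hk] at h1
  have e1 : (k + 2) * L = L * k + 2 * L := by ring
  have h3 : L ≤ (L / 10) * 10 + 9 := by omega
  have h4 : (k + 2) * L ≤ (k + 2) * ((L / 10) * 10 + 9) := Nat.mul_le_mul_left _ h3
  have e2 : (k + 2) * ((L / 10) * 10 + 9) = ((k + 2) * (L / 10)) * 10 + 9 * (k + 2) := by ring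
  have h5 : (k + 2) * 10000 ≤ (k + 2) * L := Nat.mul_le_mul_left _ hL
  exact ⟨k + 2, by omega, by omega, by omega⟩

end windows

section datB

/-- **The data of the collision**, if the small points impose not too few conditions and the other
ones are much larger. -/
theorem exists_datB (A : ℝ) : ∃ R : ℝ, ∀ (d M : ℕ) (ι : Type) [Fintype ι]
    [DecidableEq ι] (m : ι → ℕ), 1 ≤ M → (∀ i, m i ≤ M) → R * M ≤ d →
    ((d : ℝ) / M) ^ ((2 * ⌈A⌉₊ + 2 : ℕ) : ℝ) < M →
    (d : ℝ) ^ 2 * ((M : ℝ) / d) ^ A ≤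
      ∑ i, (if (m i : ℝ) ≤ ((d : ℝ) / M) ^ A then ((m i + 1).choose 2 : ℝ) else 0) →
    ∑ i, (m i + 1).choose 2 + 1 = (d + 2).choose 2 →
    ∃ (n V : ℕ) (C : Fin n → Finset ι) (μ w : Fin n → ℕ)
      (e : {i : ι // ∀ l, i ∉ C l} ⊕ (Σ l, Fin (C l).card) ≃ ι), 2 ≤ n ∧
      (∀ z, e z = Sum.elim (fun i => i.1) (fun x => ((C x.1).equivFin.symm x.2).1) z) ∧
      LDat d (M + 1) (fun i : {i : ι // ∀ l, i ∉ C l} => m i.1) ∅ μ w (fun l => (C l).card)
        (fun _ => V + 1) (fun l j => m ((C l).equivFin.symm j).1) := by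
  obtain ⟨a, ha⟩ : ∃ a, a = ⌈A⌉₊ := ⟨_, rfl⟩
  obtain ⟨R', hR'⟩ := exists_nsp (8 * a + 1) (by omega)
  obtain ⟨R'', hR''⟩ := nsp_windows (A := ((2 * a + 2 : ℕ) : ℝ)) (by positivity)
  obtain ⟨N₀, hN₀⟩ := exists_N a (max R' (2 * ⌈R''⌉₊ + 2000))
  refine ⟨((N₀ ^ 8 + 1 : ℕ) : ℝ), fun d M ι _ _ m hM hm hd hMx hsm hχ => ?_⟩
  rw [← ha] at hMx
  obtain ⟨N, hN, hNd, hNx⟩ := root8 N₀ hM hd
  obtain ⟨V, hV⟩ : ∃ V, V = (N + 1) ^ (8 * a) := ⟨_, rfl⟩
  obtain ⟨hpig, hV1, hRN, hN100⟩ := hN₀ N hN V hV.le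
  have hRN' : R' ≤ N := (le_max_left _ _).trans hRN
  have hRN'' : 2 * ⌈R''⌉₊ + 2000 ≤ N := (le_max_right _ _).trans hRN
  have hV0 : 1 ≤ V := by
    rw [hV]
    exact Nat.one_le_pow _ _ (by omega)
  have hM0 : (0 : ℝ) < M := by exact_mod_cast hM
  obtain ⟨x, hx⟩ : ∃ x : ℝ, x = (d : ℝ) / M := ⟨_, rfl⟩
  rw [← hx] at hMx hsm hNx
  have hxN : (N : ℝ) ^ 8 ≤ x := by
    rw [hx, le_div_iff₀ hM0]
    exact_mod_cast hNd
  have hN1 : (1 : ℝ) ≤ N := by
    have : 1 ≤ N := by omega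
    exact_mod_cast this
  have hx1 : 1 ≤ x := (one_le_pow₀ hN1).trans hxN
  have hx0 : 0 < x := by linarith
  -- `x ^ A ≤ V`
  have hxV : x ^ A ≤ V := by
    calc x ^ A ≤ x ^ (a : ℝ) := Real.rpow_le_rpow_of_exponent_le hx1 (ha ▸ Nat.le_ceil A)
      _ = x ^ a := Real.rpow_natCast _ _
      _ ≤ (((N : ℝ) + 1) ^ 8) ^ a := pow_le_pow_left₀ hx0.le hNx _
      _ = V := by
          rw [hV, ← pow_mul]
          push_cast
          ring
  -- `M` is large
  have hML : N ^ (16 * a + 16) ≤ M := by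
    have h1 : ((N : ℝ) ^ 8) ^ (2 * a + 2) ≤ M := by
      calc ((N : ℝ) ^ 8) ^ (2 * a + 2) ≤ x ^ (2 * a + 2) :=
            pow_le_pow_left₀ (by positivity) hxN _
        _ = x ^ ((2 * a + 2 : ℕ) : ℝ) := (Real.rpow_natCast _ _).symm
        _ ≤ M := hMx.le
    rw [← pow_mul, show 8 * (2 * a + 2) = 16 * a + 16 by ring] at h1
    exact_mod_cast h1
  have hMV : V ^ 2 * N ^ 2 * 4000 ≤ M := by
    calc V ^ 2 * N ^ 2 * 4000 ≤ (N ^ (8 * a + 1)) ^ 2 * N ^ 2 * N ^ 2 := by
          refine Nat.mul_le_mul (Nat.mul_le_mul_right _ (Nat.pow_le_pow_left (by omega) 2)) ?_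
          nlinarith
      _ = N ^ (16 * a + 6) := by ring
      _ ≤ N ^ (16 * a + 16) := Nat.pow_le_pow_right (by omega) (by omega)
      _ ≤ M := hML
  obtain ⟨t, ht⟩ : ∃ t, t = V ^ 2 * N ^ 4 := ⟨_, rfl⟩
  obtain ⟨L, hL⟩ : ∃ L, L = V * N ^ 2 := ⟨_, rfl⟩
  have htL : t = L * L := by
    rw [ht, hL]
    ring
  have hN2 : 10000 ≤ N ^ 2 := by nlinarith
  have huL : N * (N * V ^ 2) * 10000 ≤ L * L := by
    rw [hL]
    calc N * (N * V ^ 2) * 10000 ≤ N * (N * V ^ 2) * N ^ 2 := Nat.mul_le_mul_left _ hN2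
      _ = V * N ^ 2 * (V * N ^ 2) := by ring
  have hL0 : 10000 ≤ L := by
    rw [hL]
    calc 10000 ≤ 1 * N ^ 2 := by omega
      _ ≤ V * N ^ 2 := Nat.mul_le_mul_right _ hV0
  have hLVM : V * L * 4000 ≤ M := by
    rw [hL]
    calc V * (V * N ^ 2) * 4000 = V ^ 2 * N ^ 2 * 4000 := by ring
      _ ≤ M := hMV
  have hLM : L * 4000 ≤ M := by
    refine le_trans ?_ hLVM
    exact Nat.mul_le_mul_right _ (Nat.le_mul_of_pos_left _ hV0)
  have hN7 : 2 * N ^ 7 ≤ N ^ 8 := by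
    calc 2 * N ^ 7 ≤ N * N ^ 7 := Nat.mul_le_mul_right _ (by omega)
      _ = N ^ 8 := by ring
  have hdM : N ^ 7 * (M + 1) ≤ d := by
    calc N ^ 7 * (M + 1) ≤ N ^ 7 * (2 * M) := Nat.mul_le_mul_left _ (by omega)
      _ = 2 * N ^ 7 * M := by ring
      _ ≤ N ^ 8 * M := Nat.mul_le_mul_right _ hN7
      _ ≤ d := hNd
  have hN7' : N ≤ N ^ 7 := Nat.le_self_pow (by norm_num) N
  have hdM2 : 2000 * (M + 1) ≤ d := (Nat.mul_le_mul_right _ (by omega)).trans hdM
  have hdM3 : M ≤ d := by omega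
  -- the small points
  obtain ⟨S, hS⟩ : ∃ S : Finset ι, S = Finset.univ.filter (fun i => 1 ≤ m i ∧ m i ≤ V) := ⟨_, rfl⟩
  have hc1 : ∀ i ∈ S, 1 ≤ (m i + 1).choose 2 := by
    intro i hi
    rw [hS, Finset.mem_filter] at hi
    exact Nat.choose_pos (by omega)
  have hcK : ∀ i ∈ S, (m i + 1).choose 2 ≤ V ^ 2 := by
    intro i hi
    rw [hS, Finset.mem_filter] at hi
    have h1 := pick_two_choose (m i)
    have h2 : m i * m i ≤ V * V := Nat.mul_le_mul hi.2.2 hi.2.2
    have h4 : V * 1 ≤ V * V := Nat.mul_le_mul_left _ hV0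
    rw [pow_two]
    omega
  have hSd : d * d ≤ V * ∑ i ∈ S, (m i + 1).choose 2 := by
    have h1 : (∑ i, (if (m i : ℝ) ≤ x ^ A then ((m i + 1).choose 2 : ℝ) else 0)) ≤
        ((∑ i ∈ S, (m i + 1).choose 2 : ℕ) : ℝ) := by
      rw [hS, Finset.sum_filter]
      push_cast
      refine Finset.sum_le_sum (fun i _ => ?_)
      rcases Nat.eq_zero_or_pos (m i) with h0 | h0
      · rw [h0]
        split_ifs <;> simp
      · by_cases h2 : (m i : ℝ) ≤ x ^ A
        · have h3 : m i ≤ V := by exact_mod_cast h2.trans hxV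
          rw [if_pos h2, if_pos ⟨h0, h3⟩]
        · rw [if_neg h2]
          split_ifs <;> positivity
    have h2 : ((M : ℝ) / d) ^ A = (x ^ A)⁻¹ := by
      rw [hx, ← Real.inv_rpow (by positivity), inv_div]
    have h3 : 0 < x ^ A := Real.rpow_pos_of_pos hx0 _
    rw [h2, ← div_eq_mul_inv, div_le_iff₀ h3] at hsm
    have h4 : (d : ℝ) * d ≤ V * ((∑ i ∈ S, (m i + 1).choose 2 : ℕ) : ℝ) := by
      calc (d : ℝ) * d = (d : ℝ) ^ 2 := (pow_two _).symm
        _ ≤ (∑ i, (if (m i : ℝ) ≤ x ^ A then ((m i + 1).choose 2 : ℝ) else 0)) * x ^ A := hsm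
        _ ≤ ((∑ i ∈ S, (m i + 1).choose 2 : ℕ) : ℝ) * V :=
            mul_le_mul h1 hxV h3.le (Nat.cast_nonneg _)
        _ = V * ((∑ i ∈ S, (m i + 1).choose 2 : ℕ) : ℝ) := mul_comm _ _
    exact_mod_cast h4
  obtain ⟨n, hn2, hn5, hnL⟩ := cluster_count (M := M) hL0
  obtain ⟨u, hu⟩ : ∃ u, u = t + N * (N * V ^ 2) := ⟨_, rfl⟩
  have hu2 : u ≤ 2 * (L * L) := by omega
  have hnu : 4 * ((n + 1) * u) ≤ 500 * (L * M) := by
    have h1 : (n + 1) * u ≤ (n + 1) * (2 * (L * L)) := Nat.mul_le_mul_left _ hu2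
    have h2 : (n + 1) * (2 * (L * L)) = 2 * (L * (n * L + L)) := by ring
    have h3 : n * L + L ≤ 62 * M := by omega
    have h4 : L * (n * L + L) ≤ L * (62 * M) := Nat.mul_le_mul_left _ h3
    have h5 : L * (62 * M) = 62 * (L * M) := by ring
    omega
  -- the conditions of the clusters are few
  have hSbig : 1000 * (L * M) ≤ ∑ i ∈ S, (m i + 1).choose 2 := by
    have h1 : V * (1000 * (L * M)) ≤ V * ∑ i ∈ S, (m i + 1).choose 2 := by
      calc V * (1000 * (L * M)) = 1000 * (V * L) * M := by ring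
        _ ≤ M * M := Nat.mul_le_mul_right _ (by omega)
        _ ≤ d * d := Nat.mul_le_mul hdM3 hdM3
        _ ≤ _ := hSd
    exact Nat.le_of_mul_le_mul_left h1 hV0
  have ht4 : 10000 ≤ t := by
    rw [htL]
    calc 10000 ≤ L * 1 := by omega
      _ ≤ L * L := Nat.mul_le_mul_left _ (by omega)
  have hbig : 4 * ((n + 1) * (t + N * (N * V ^ 2))) ≤ ∑ i ∈ S, (m i + 1).choose 2 := by
    rw [← hu]
    omega
  obtain ⟨C, μ, w, hCS, hCd, hmid⟩ : ∃ (C : Fin n → Finset ι) (μ w : Fin n → ℕ),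
      (∀ l, C l ⊆ S) ∧ (∀ l l', l ≠ l' → Disjoint (C l) (C l')) ∧
        ∀ l, Mid (fun i => (m i + 1).choose 2) t
          (t + N * (N * V ^ 2)) (C l) (μ l) (w l) := by
    obtain ⟨C, μ, w, hCS, hCd, hmid⟩ := exists_clusters S (fun i => (m i + 1).choose 2) hc1 hcK hpig
      ht4 n hbig
    exact ⟨fun l => C l, fun l => μ l, fun l => w l, fun l => hCS l l.2,
      fun l l' hne => hCd l l.2 l' l'.2 (fun h => hne (Fin.ext h)), fun l => hmid l l.2⟩
  have hnum : ∀ l, V * N ^ 2 ≤ μ l + 1 ∧ μ l ≤ 3 * (V * N ^ 2) ∧ V * N ^ 2 ≤ 8 * w l + 1 ∧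
      w l + 2 * (V + 1) ≤ μ l + 1 ∧ N * (V + 1) + 1 ≤ μ l ∧ 2 * (V + 1) ≤ μ l := by
    intro l
    obtain ⟨g1, g2, g3, g4, g5, g6⟩ := hmid l
    exact cluster_num hV0 hN100 ht rfl g1 g2 g3 g4 g5 g6 (pick_two_choose _)
  rw [← hL] at hnum
  obtain ⟨e, he⟩ := exists_split C hCd
  have hsplit : ∑ i : {i : ι // ∀ l : Fin n, i ∉ C l}, (m i.1 + 1).choose 2 +
      ∑ l : Fin n, ∑ j : Fin (C l).card, (m ((C l).equivFin.symm j).1 + 1).choose 2 =
      ∑ i, (m i + 1).choose 2 := by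
    rw [← Equiv.sum_comp e (fun i => (m i + 1).choose 2), Fintype.sum_sum_type,
      Fintype.sum_sigma]
    refine congrArg₂ (· + ·) (Finset.sum_congr rfl (fun i _ => ?_))
      (Finset.sum_congr rfl (fun l _ => Finset.sum_congr rfl (fun j _ => ?_)))
    · rw [he]
      rfl
    · rw [he]
      rfl
  have hcl : ∀ l : Fin n, ∑ j : Fin (C l).card, (m ((C l).equivFin.symm j).1 + 1).choose 2 =
      (μ l + 1).choose 2 + w l := by
    intro l
    rw [← (hmid l).1, Equiv.sum_comp (C l).equivFin.symm (fun i => (m i.1 + 1).choose 2)]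
    exact Finset.sum_coe_sort (C l) (fun i => (m i + 1).choose 2)
  refine ⟨n, V, C, μ, w, e, hn2, he, ?_⟩
  refine
    { hN := fun y hy => ?_
      hm := fun i _ => Nat.add_le_add_right (hm _) 1
      hμ := fun l => ?_
      hd := ?_
      hχ := ?_
      room := ?_
      hNv := fun l => ?_
      hNv' := fun l => ?_
      hv := fun l j => ?_
      hvμ := fun l => ?_
      crit := fun l => ?_
      hw := fun l => ?_
      hMv := fun l => Nat.le_add_left 1 V
      two := fun l => ?_ }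
  · -- the neighbouring systems
    obtain ⟨hy1, T, hT, hT1, hT2⟩ := hy
    refine hR'' d (M + 1) _ y (by omega) ?_ ?_ ?_
    · rintro (i | l)
      · by_cases hi : i ∈ T
        · exact (hT1 i hi).2.trans (Nat.add_le_add_right (hm _) 1)
        · rw [hT2 i hi]
          exact (hm _).trans (Nat.le_succ _)
      · have h1 := (hy1 l).2
        have h2 := (hnum l).2.1
        omega
    · have h1 : R'' ≤ (N : ℝ) := (Nat.le_ceil R'').trans (by exact_mod_cast (by omega))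
      have h2 : (N : ℝ) * ((M + 1 : ℕ) : ℝ) ≤ d := by
        exact_mod_cast (Nat.mul_le_mul_right (M + 1) hN7').trans hdM
      exact (mul_le_mul_of_nonneg_right h1 (Nat.cast_nonneg _)).trans h2
    · obtain ⟨X, hX⟩ : ∃ X : ℝ, X = ((d : ℝ) / ((M + 1 : ℕ) : ℝ)) ^ ((2 * a + 2 : ℕ) : ℝ) :=
        ⟨_, rfl⟩
      have hM1' : (0 : ℝ) < ((M + 1 : ℕ) : ℝ) := by positivity
      have hd0 : (0 : ℝ) < d := by
        have : 0 < d := by omega
        exact_mod_cast this
      have hX0 : 0 < X := by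
        rw [hX]
        exact Real.rpow_pos_of_pos (by positivity) _
      have hXV : (2 * V : ℝ) ≤ X := by
        have h1 : (N : ℝ) ^ 7 ≤ (d : ℝ) / ((M + 1 : ℕ) : ℝ) := by
          rw [le_div_iff₀ hM1']
          exact_mod_cast hdM
        have h2 : ((N : ℝ) ^ 7) ^ (2 * a + 2) ≤ X := by
          rw [hX, Real.rpow_natCast]
          exact pow_le_pow_left₀ (by positivity) h1 _
        have h3 : 2 * V ≤ (N ^ 7) ^ (2 * a + 2) := by
          calc 2 * V ≤ N * N ^ (8 * a + 1) := Nat.mul_le_mul (by omega) (by omega)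
            _ = N ^ (8 * a + 2) := by ring
            _ ≤ N ^ (7 * (2 * a + 2)) := Nat.pow_le_pow_right (by omega) (by omega)
            _ = (N ^ 7) ^ (2 * a + 2) := pow_mul _ _ _
        have h4 : ((2 * V : ℕ) : ℝ) ≤ (((N ^ 7) ^ (2 * a + 2) : ℕ) : ℝ) := by exact_mod_cast h3
        push_cast at h4
        exact h4.trans h2
      have h1 : (((M + 1 : ℕ) : ℝ) / d) ^ ((2 * a + 2 : ℕ) : ℝ) = X⁻¹ := by
        rw [hX, ← Real.inv_rpow (by positivity), inv_div]
      rw [h1, ← hX, ← div_eq_mul_inv, div_le_iff₀ hX0]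
      -- the small points which are left
      obtain ⟨Q, hQ⟩ : ∃ Q : ℕ, Q = ∑ z : {i : ι // ∀ l : Fin n, i ∉ C l},
        if z ∉ T ∧ z.1 ∈ S then (m z.1 + 1).choose 2 else 0 := ⟨_, rfl⟩
      have hQle : (Q : ℝ) ≤ ∑ j, (if (y j : ℝ) ≤ X then ((y j + 1).choose 2 : ℝ) else 0) := by
        rw [Fintype.sum_sum_type, hQ]
        push_cast
        have h2 : 0 ≤ ∑ l : Fin n, (if (y (Sum.inr l) : ℝ) ≤ X then
            ((y (Sum.inr l) + 1).choose 2 : ℝ) else 0) :=
          Finset.sum_nonneg (fun l _ => by split_ifs <;> positivity)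
        refine le_trans ?_ (le_add_of_nonneg_right h2)
        refine Finset.sum_le_sum (fun z _ => ?_)
        by_cases hz : z ∉ T ∧ z.1 ∈ S
        · have h3 : m z.1 ≤ V := by
            have := hz.2
            rw [hS, Finset.mem_filter] at this
            exact this.2.2
          have h4 : (m z.1 : ℝ) ≤ V := by exact_mod_cast h3
          have h5 : (0 : ℝ) ≤ V := Nat.cast_nonneg V
          rw [if_pos hz, hT2 z hz.1, if_pos (by linarith)]
        · rw [if_neg hz]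
          split_ifs <;> positivity
      have hQS : ∑ i ∈ S, (m i + 1).choose 2 ≤ Q + (n * (4 * u) + 2 * V ^ 2) := by
        -- split the sum over `S`
        have k1 : ∑ i ∈ S, (m i + 1).choose 2 = ∑ i, if i ∈ S then (m i + 1).choose 2 else 0 := by
          rw [Finset.sum_ite_mem, Finset.univ_inter]
        have k2 : ∑ i, (if i ∈ S then (m i + 1).choose 2 else 0) =
            ∑ z : {i : ι // ∀ l : Fin n, i ∉ C l}, (if z.1 ∈ S then (m z.1 + 1).choose 2 else 0) +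
              ∑ l : Fin n, ∑ j : Fin (C l).card, (if ((C l).equivFin.symm j).1 ∈ S then
                (m ((C l).equivFin.symm j).1 + 1).choose 2 else 0) := by
          rw [← Equiv.sum_comp e (fun i => if i ∈ S then (m i + 1).choose 2 else 0),
            Fintype.sum_sum_type, Fintype.sum_sigma]
          refine congrArg₂ (· + ·) (Finset.sum_congr rfl (fun i _ => ?_))
            (Finset.sum_congr rfl (fun l _ => Finset.sum_congr rfl (fun j _ => ?_)))
          · rw [he]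
            rfl
          · rw [he]
            rfl
        have k3 : ∑ l : Fin n, ∑ j : Fin (C l).card, (if ((C l).equivFin.symm j).1 ∈ S then
                (m ((C l).equivFin.symm j).1 + 1).choose 2 else 0) ≤ n * (4 * u) := by
          calc _ ≤ ∑ l : Fin n, 4 * u := by
                refine Finset.sum_le_sum (fun l _ => ?_)
                calc _ ≤ ∑ j : Fin (C l).card, (m ((C l).equivFin.symm j).1 + 1).choose 2 :=
                      Finset.sum_le_sum (fun j _ => by split_ifs <;> simp)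
                  _ = (μ l + 1).choose 2 + w l := hcl l
                  _ = ∑ i ∈ C l, (m i + 1).choose 2 := (hmid l).1.symm
                  _ ≤ 4 * (t + N * (N * V ^ 2)) := (hmid l).2.2.2.2.2
                  _ = 4 * u := by rw [hu]
            _ = n * (4 * u) := by
                rw [Finset.sum_const, Finset.card_univ, Fintype.card_fin, smul_eq_mul]
        have k4 : ∑ z : {i : ι // ∀ l : Fin n, i ∉ C l},
            (if z.1 ∈ S then (m z.1 + 1).choose 2 else 0) ≤ Q + 2 * V ^ 2 := by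
          have k5 : ∑ z : {i : ι // ∀ l : Fin n, i ∉ C l},
              (if z ∈ T then V ^ 2 else 0) ≤ 2 * V ^ 2 := by
            rw [Finset.sum_ite_mem, Finset.univ_inter, Finset.sum_const, smul_eq_mul]
            exact Nat.mul_le_mul_right _ hT
          refine le_trans ?_ (Nat.add_le_add_left k5 Q)
          rw [hQ, ← Finset.sum_add_distrib]
          refine Finset.sum_le_sum (fun z _ => ?_)
          by_cases hzS : z.1 ∈ S
          · by_cases hzT : z ∈ T
            · rw [if_pos hzS, if_neg (fun h => h.1 hzT), if_pos hzT, Nat.zero_add]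
              exact hcK _ hzS
            · rw [if_pos hzS, if_pos ⟨hzT, hzS⟩]
              exact Nat.le_add_right _ _
          · rw [if_neg hzS]
            exact Nat.zero_le _
        rw [k1, k2]
        omega
      have hQd : d * d ≤ 2 * V * Q := by
        have e1 : n * (4 * u) + 4 * u = 4 * ((n + 1) * u) := by ring
        have e2 : V ^ 2 ≤ u := by
          rw [hu, ht]
          have : V ^ 2 * 1 ≤ V ^ 2 * N ^ 4 := Nat.mul_le_mul_left _ (Nat.one_le_pow _ _ (by omega))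
          omega
        have h2 : ∑ i ∈ S, (m i + 1).choose 2 ≤ 2 * Q := by omega
        calc d * d ≤ V * ∑ i ∈ S, (m i + 1).choose 2 := hSd
          _ ≤ V * (2 * Q) := Nat.mul_le_mul_left _ h2
          _ = 2 * V * Q := by ring
      have h6 : (d : ℝ) ^ 2 ≤ 2 * V * Q := by
        rw [pow_two]
        exact_mod_cast hQd
      calc (d : ℝ) ^ 2 ≤ 2 * V * Q := h6
        _ ≤ X * ∑ j, (if (y j : ℝ) ≤ X then ((y j + 1).choose 2 : ℝ) else 0) :=
            mul_le_mul hXV hQle (Nat.cast_nonneg _) hX0.le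
        _ = _ := mul_comm _ _
  · have := (hnum l).2.1
    omega
  · rw [Finset.sum_empty, add_zero]
    calc ∑ l : Fin n, (μ l + 2) + 2 * (M + 1) ≤ ∑ l : Fin n, 4 * L + 2 * (M + 1) :=
          Nat.add_le_add_right (Finset.sum_le_sum (fun l _ => by
            have := (hnum l).2.1
            omega)) _
      _ = 4 * (n * L) + 2 * (M + 1) := by
          rw [Finset.sum_const, Finset.card_univ, Fintype.card_fin, smul_eq_mul]
          ring
      _ ≤ d := by omega
  · rw [Finset.sum_congr rfl (fun l _ => hcl l), Finset.sum_add_distrib] at hsplit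
    omega
  · calc 5 * (M + 1) ≤ n * (L / 10) := hn5
      _ = ∑ l : Fin n, L / 10 := by
          rw [Finset.sum_const, Finset.card_univ, Fintype.card_fin, smul_eq_mul]
      _ ≤ ∑ l : Fin n, w l := Finset.sum_le_sum (fun l _ => by
          have := (hnum l).2.2.1
          omega)
  · have h1 := (hnum l).2.2.2.2.1
    exact hR' (μ l) (V + 1) N (by omega) (by omega) hRN' hV1
  · have h1 := (hnum l).2.2.2.2.1
    exact hR' (μ l - 1) (V + 1) N (by omega) (by omega) hRN' hV1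
  · have h1 := hCS l ((C l).equivFin.symm j).2
    rw [hS, Finset.mem_filter] at h1
    exact Nat.add_le_add_right h1.2.2 1
  · exact (hnum l).2.2.2.2.2
  · exact hcl l
  · exact (hnum l).2.2.2.1
  · rcases eq_or_ne l ⟨0, by omega⟩ with h | h
    · exact ⟨⟨1, by omega⟩, by rw [h]; simp [Fin.ext_iff]⟩
    · exact ⟨⟨0, by omega⟩, h.symm⟩

end datB

end Pool.Agent.Work.MP_0421d9_ag.ZE
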