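import Pool.Agent.Work.MP_0421d9_ag.ZERed
import Pool.Agent.Work.MP_0421d9_ag.ZEFinal

/-!
Cremona-reduced systems: the general members are smooth on the blow-up.
-/

set_option linter.unusedSectionVars false

namespace Pool.Agent.Work.MP_0421d9_ag.ZE

open MvPolynomial Module SM ZC

/-- reindexing, for the general form of the data -/
theorem not_bad_of_Dat {ι : Type} [Fintype ι] [DecidableEq ι] {d M : ℕ} {m : ι → ℕ} {p : ι → V3}
    (hp : GenericPoints p) {n : ℕ} (hn : 1 ≤ n) {C : Fin n → Finset ι} {μ w Mv : Fin n → ℕ}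
    {U : Finset {i : ι // ∀ l, i ∉ C l}}
    {e : {i : ι // ∀ l, i ∉ C l} ⊕ (Σ l, Fin (C l).card) ≃ ι}
    (he : ∀ z, e z = Sum.elim (fun i => i.1) (fun x => ((C x.1).equivFin.symm x.2).1) z)
    (hD : Dat d M (fun i : {i : ι // ∀ l, i ∉ C l} => m i.1) U μ w (fun l => (C l).card) Mv
      (fun l j => m ((C l).equivFin.symm j).1)) {F : R3} (hF : F ∈ linSys d p m) (hF0 : F ≠ 0) :
    ¬ Bad d p m F := by
  classical
  have : Nonempty (Fin n) := ⟨⟨0, hn⟩⟩
  have hme : ∀ z, m (e z) = Sum.elim (fun i : {i : ι // ∀ l, i ∉ C l} => m i.1)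
      (fun x : Σ l, Fin (C l).card => m ((C x.1).equivFin.symm x.2).1) z := by
    rintro (i | x)
    · rw [he]
      rfl
    · rw [he]
      rfl
  have hpe : GenericPoints (fun z => p (e z)) := by
    have h2 := AlgebraicIndependent.comp hp
      (fun z : ({i : ι // ∀ l, i ∉ C l} ⊕ (Σ l, Fin (C l).card)) × Fin 3 => (e z.1, z.2))
      (fun z z' h => by
        have h7 := congrArg Prod.fst h
        have h8 := congrArg Prod.snd h
        exact Prod.ext (e.injective h7) h8)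
    exact h2
  have h1 := hD.not_bad hpe (F := F) ⟨hF.1, fun z => by
    rw [← hme]
    exact hF.2 (e z)⟩ hF0
  intro hb
  apply h1
  have h2 := (bad_equiv (d := d) (p := p) (m := m) (F := F) e).mpr hb
  have h3 : (fun z => m (e z)) = Sum.elim (fun i : {i : ι // ∀ l, i ∉ C l} => m i.1)
      (fun x : Σ l, Fin (C l).card => m ((C x.1).equivFin.symm x.2).1) := funext hme
  rw [h3] at h2
  exact h2

/-- clusters can be chosen -/
def HasC (u t : ℕ) : Prop :=
  ∀ (d : ℕ) (ι : Type) [Fintype ι] [DecidableEq ι] (m : ι → ℕ) (B : Finset ι),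
    (∀ i, i ∉ B → m i ≤ u) → RedC t d m B → ∑ i, (m i + 1).choose 2 + 1 = (d + 2).choose 2 →
    ∃ (n M : ℕ) (C : Fin n → Finset ι) (μ w Mv : Fin n → ℕ)
      (e : {i : ι // ∀ l, i ∉ C l} ⊕ (Σ l, Fin (C l).card) ≃ ι)
      (U : Finset {i : ι // ∀ l, i ∉ C l}), 1 ≤ n ∧
      (∀ z, e z = Sum.elim (fun i => i.1) (fun x => ((C x.1).equivFin.symm x.2).1) z) ∧
      RDat t d M (fun i : {i : ι // ∀ l, i ∉ C l} => m i.1) U μ w (fun l => (C l).card)
        Mv (fun l j => m ((C l).equivFin.symm j).1)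

/-- the points of `B` in `ι ⊕ κ` -/
theorem redC_simple {ι κ : Type} {t d : ℕ} {m : ι → ℕ} {B : Finset ι} (h : RedC t d m B)
    (f : κ → ℕ) : RedC t d (Sum.elim m f) (B.map (Function.Embedding.inl : ι ↪ ι ⊕ κ)) := by
  have hsum : ∀ J : Finset ι, ∑ x ∈ J.map (Function.Embedding.inl : ι ↪ ι ⊕ κ),
      Sum.elim m f x = ∑ i ∈ J, m i := fun J => by
    rw [Finset.sum_map]
    rfl
  refine ⟨fun J hJ hc => ?_, ?_⟩
  · obtain ⟨J', hJ', rfl⟩ := Finset.subset_map_iff.mp hJ
    rw [Finset.card_map] at hc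
    rw [hsum J', Finset.card_map]
    exact h.sum J' hJ' hc
  · rw [hsum B]
    exact h.can

/-- **Reduced systems**: nonspecial, and the general members are not bad. -/
theorem red_not_bad {u t : ℕ} (hC : HasC u t) (hu : 1 ≤ u) (hut : u ≤ t) {r d : ℕ}
    {p : Fin r → Fin 3 → ℂ} (hp : GenericPoints p) {m : Fin r → ℕ} {B : Finset (Fin r)}
    (hm : ∀ i, i ∉ B → m i ≤ u) (h : RedC t d m B) :
    finrank ℂ (linSys d p m) = (d + 2).choose 2 - ∑ i, (m i + 1).choose 2 ∧
    (linSys d p m ≠ ⊥ →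
      (∃ F ∈ linSys d p m, Squarefree F) ∧
      (∀ s : Fin (finrank ℂ (linSys d p m) - 1) → Fin 3 → ℂ, GenericPoints (Sum.elim p s) →
        ∀ F ∈ linSys d p m, F ≠ 0 → (∀ k, eval (s k) F = 0) → SmoothOnBlowup p m F) ∧
      (∃ F ∈ linSys d p m, F ≠ 0 ∧ SmoothOnBlowup p m F)) := by
  have hns : finrank ℂ (linSys d p m) = (d + 2).choose 2 - ∑ i, (m i + 1).choose 2 :=
    nsp_of_redC h (fun i hi => (hm i hi).trans hut) p hp
  refine ⟨hns, fun hne => ?_⟩
  have key : ∀ s : Fin (finrank ℂ (linSys d p m) - 1) → Fin 3 → ℂ,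
      GenericPoints (Sum.elim p s) →
      ∀ F ∈ linSys d p m, F ≠ 0 → (∀ k, eval (s k) F = 0) → ¬ Bad d p m F := by
    intro s hs
    refine not_bad_of_rigid hns s hs (fun hχ G hG hG0 => ?_)
    obtain ⟨n, M, C, μ, w, Mv, e, U, hn, he, hD⟩ := hC d _
      (Sum.elim m (fun _ : Fin (finrank ℂ (linSys d p m) - 1) => 1))
      (B.map (Function.Embedding.inl)) (by
        rintro (i | j) hi
        · exact hm i (fun h => hi (Finset.mem_map_of_mem _ h))
        · exact hu) (redC_simple h _) hχ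
    exact not_bad_of_Dat hs hn he hD.dat hG hG0
  have hp0 : ∀ i, p i ≠ 0 := fun i => SM.point_ne_zero hp i
  have hfin : Module.Finite ℂ (linSys d p m) :=
    Submodule.finiteDimensional_of_le (linSys_le d p _)
  obtain ⟨s, hs⟩ := exists_extension (κ := Fin (finrank ℂ (linSys d p m) - 1)) p hp
  obtain ⟨F, hF, hF0, hFs⟩ : ∃ F ∈ linSys d p m, F ≠ 0 ∧ ∀ l, eval (s l) F = 0 := by
    have hpos : finrank ℂ (linSys d p m) ≠ 0 := fun h => hne (Submodule.finrank_eq_zero.mp h)
    let f : linSys d p m →ₗ[ℂ] (Fin (finrank ℂ (linSys d p m) - 1) → ℂ) :=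
      { toFun := fun F l => eval (s l) (F : MvPolynomial (Fin 3) ℂ)
        map_add' := fun F G => by
          funext l
          simp
        map_smul' := fun c F => by
          funext l
          simp [smul_eval] }
    have hf : LinearMap.ker f ≠ ⊥ := by
      apply LinearMap.ker_ne_bot_of_finrank_lt
      rw [Module.finrank_fintype_fun_eq_card, Fintype.card_fin]
      omega
    obtain ⟨z, hz, hz0⟩ := Submodule.exists_mem_ne_zero_of_ne_bot hf
    exact ⟨z, z.2, fun h => hz0 (Subtype.ext h), fun l => congrFun hz l⟩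
  have hnb := key s hs F hF hF0 hFs
  refine ⟨⟨F, hF, squarefree_of_not_bad hp0 hF hF0 hnb⟩, fun s hs F hF hF0 hFs =>
    smooth_of_not_bad hp0 hF hF0 (key s hs F hF hF0 hFs), F, hF, hF0,
    smooth_of_not_bad hp0 hF hF0 hnb⟩

end Pool.Agent.Work.MP_0421d9_ag.ZE
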