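import Pool.Agent.Work.MP_0421d9_ag.ZSFinal

/-!
The relative theorem, both halves: points of small multiplicities added to any set of points which
impose independent conditions in a smaller degree.
-/

namespace Pool.Agent.Work.MP_0421d9_ag.ZE

open MvPolynomial Module SM ZC LD

/-- the two halves with one constant -/
theorem rel_both {ε : ℝ} (hε : 0 < ε) : ∃ c : ℝ, ∀ (r d t u M : ℕ) (p : Fin r → V3)
    (m : Fin r → ℕ) (B : Finset (Fin r)), GenericPoints p → 1 ≤ u → (∀ i, m i ≤ M) →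
    (∀ i, i ∉ B → m i ≤ u) → t ≤ d → Rg (d - t) (onB B m) → c * (u : ℝ) ^ (1 + ε) ≤ t →
    (c * (u : ℝ) ^ 2 * M ≤ (t : ℝ) * d →
      finrank ℂ (linSys d p m) = (d + 2).choose 2 - ∑ i, (m i + 1).choose 2) ∧
    (c * (u : ℝ) ^ (2 + ε) * M ≤ (t : ℝ) * d →
      finrank ℂ (linSys d p m) = (d + 2).choose 2 - ∑ i, (m i + 1).choose 2 ∧
      ∀ s : Fin (finrank ℂ (linSys d p m) - 1) → Fin 3 → ℂ, GenericPoints (Sum.elim p s) →
        ∀ F ∈ linSys d p m, F ≠ 0 → (∀ k, eval (s k) F = 0) → ¬ Bad d p m F) := by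
  obtain ⟨C, hC⟩ := LD.rel_all hε
  obtain ⟨c, hc, hcc⟩ := rel_not_bad hε
  refine ⟨max C c, fun r d t u M p m B hp hu hM hm htd hB ht => ?_⟩
  have hu1 : (1 : ℝ) ≤ u := by exact_mod_cast hu
  have hC1 : C ≤ max C c := le_max_left _ _
  have hc1 : c ≤ max C c := le_max_right _ _
  have h0 : 0 ≤ max C c := hc.le.trans hc1
  have hM0 : (0 : ℝ) ≤ M := Nat.cast_nonneg M
  have hp1 : 0 ≤ (u : ℝ) ^ (1 + ε) := by positivity
  have hp2 : 0 ≤ (u : ℝ) ^ (2 + ε) := by positivity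
  have hns : max C c * (u : ℝ) ^ 2 * M ≤ (t : ℝ) * d →
      finrank ℂ (linSys d p m) = (d + 2).choose 2 - ∑ i, (m i + 1).choose 2 := by
    intro h
    rw [hPm_eq hp]
    refine hC r d t u M m B hu hM hm htd hB ((mul_le_mul_of_nonneg_right hC1 hp1).trans ht) ?_
    refine le_trans ?_ h
    have : 0 ≤ (u : ℝ) ^ 2 := by positivity
    exact mul_le_mul_of_nonneg_right (mul_le_mul_of_nonneg_right hC1 this) hM0
  refine ⟨hns, fun h => ⟨hns (le_trans ?_ h), ?_⟩⟩
  · have h2 : (u : ℝ) ^ 2 ≤ (u : ℝ) ^ (2 + ε) := by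
      rw [← Real.rpow_natCast]
      exact Real.rpow_le_rpow_of_exponent_le hu1 (by push_cast; linarith)
    exact mul_le_mul_of_nonneg_right (mul_le_mul_of_nonneg_left h2 h0) hM0
  · refine hcc r d t u M p m B hp hu hM hm htd hB ((mul_le_mul_of_nonneg_right hc1 hp1).trans ht) ?_
    refine le_trans ?_ h
    exact mul_le_mul_of_nonneg_right (mul_le_mul_of_nonneg_right hc1 hp2) hM0

end Pool.Agent.Work.MP_0421d9_ag.ZE
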