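import Pool.Agent.Work.MP_0421d9_ag.ZCW
import Pool.Agent.Work.MP_0421d9_ag.ZEHyb

/-!
Collisions of generic points, relative version: the clusters level.
-/

set_option linter.unusedSectionVars false
set_option linter.unusedVariables false

namespace Pool.Agent.Work.MP_0421d9_ag.ZE

open MvPolynomial Module SM ZC

section levels

variable {ι Λ : Type} [Fintype ι] [Fintype Λ] [DecidableEq ι] [DecidableEq Λ] {d M : ℕ}
  {m : ι → ℕ} {U : Finset ι} {μ w s Mv : Λ → ℕ} {v : ∀ l, Fin (s l) → ℕ}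

theorem Dat.le_mu (S : Dat d M m U μ w s Mv v) (l : Λ) : 2 ≤ μ l ∧ w l ≤ μ l ∧ Mv l ≤ μ l ∧
    μ l ≤ d ∧ μ l + 1 ≤ d := by
  have h1 := S.hvμ l
  have h2 := S.hMv l
  have h3 := S.hw l
  have h4 := S.hμd l
  refine ⟨?_, ?_, ?_, ?_, ?_⟩ <;> omega

/-- all the clusters become flags -/
theorem Dat.to_flag (S : Dat d M m U μ w s Mv v) {p : ι → V3} {P : Λ → V3}
    {ζ : (Σ l, Fin (s l)) → V3} (hX : GenericPoints (Sum.elim (Sum.elim p P) ζ)) {F : R3}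
    (hF : F ∈ linSys d (Sum.elim p P) (Sum.elim m μ)) (hF0 : F ≠ 0) {G : Λ → R3}
    (hG : ∀ l, G l ∈ linSys (μ l) (fun j => ζ ⟨l, j⟩) (v l))
    (hres : ∀ l, res (G l) = ld d (μ l) (P l) F) :
    ∃ (ρ : Pl) (p' : ι → V3) (P' : Λ → V3) (c' : Λ → ℂ) (a : ℂ) (F' : R3),
      Ind (Sum.elim p' P') c' ∧ (∀ i k, ρ.L (p i k) (p' i k)) ∧ (∀ l k, ρ.L (P l k) (P' l k)) ∧
      a ≠ 0 ∧ ρ.LP (C a * F) F' ∧ F' ≠ 0 ∧ F' ∈ FS d p' m P' μ c' w := by
  obtain ⟨g, e, hg⟩ := exists_ind ((ι ⊕ Λ) ⊕ (Σ l, Fin (s l))) (Λ ⊕ Unit)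
  obtain ⟨ρ, t, c, ξ, ht0, ht, hpp, -, hcc, hξ, hξζ⟩ := exists_flag_place
    (ind_of_generic hX Empty.elim) (fun x => g (Sum.inl x)) Empty.elim
    (fun l => e (Sum.inl l))
    (fun x => ![g (Sum.inr x) 1, g (Sum.inr x) 0 - e (Sum.inr ()) * g (Sum.inr x) 1,
      g (Sum.inr x) 2])
  obtain ⟨a, ha, F', hF'0, hlim⟩ := Pl.exists_scale_poly ρ hF0
  have hpL : ∀ i k, ρ.L (p i k) (g (Sum.inl (Sum.inl i)) k) := fun i k => hpp (Sum.inl i) k
  have hPL : ∀ l k, ρ.L (P l k) (g (Sum.inl (Sum.inr l)) k) := fun l k => hpp (Sum.inr l) k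
  refine ⟨ρ, fun i => g (Sum.inl (Sum.inl i)), fun l => g (Sum.inl (Sum.inr l)),
    fun l => e (Sum.inl l), a, F', ?_, hpL, hPL, ha, hlim, hF'0, ?_, ?_⟩
  · have h1 := ind_comp hg (fun x : ι ⊕ Λ => Sum.inl x) Sum.inl_injective
      (fun l : Λ => Sum.inl l) Sum.inl_injective
    have h2 : (fun x : ι ⊕ Λ => g (Sum.inl x)) = Sum.elim (fun i => g (Sum.inl (Sum.inl i)))
        (fun l => g (Sum.inl (Sum.inr l))) := by
      funext x
      rcases x with x | x <;> rfl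
    rwa [h2] at h1
  · refine ⟨hlim.homogeneous (hF.1.C_mul a), ?_⟩
    rintro (i | l)
    · exact hlim.vanishTo (hF.1.C_mul a) (hpL i) (vanishTo_C_mul (hF.2 (Sum.inl i)) a)
    · exact hlim.vanishTo (hF.1.C_mul a) (hPL l) (vanishTo_C_mul (hF.2 (Sum.inr l)) a)
  · intro l i hi
    obtain ⟨h1, h2, h3, h4, h5⟩ := S.le_mu l
    have hb : Ind (fun j => g (Sum.inr ⟨l, j⟩)) (fun _ : Unit => e (Sum.inr ())) :=
      ind_comp hg (fun j : Fin (s l) => Sum.inr ⟨l, j⟩) (fun j j' h => by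
        simpa using h) (fun x : Unit => Sum.inr x) Sum.inr_injective
    exact spec_flag (S.hNv l) (S.hNv' l) (fun j => by have := S.hv l j; omega) h3 (S.hMv l)
      (S.crit l) h2 hb ht0 ht (hcc l) (ζ := fun j => ζ ⟨l, j⟩) (ξ := fun j => ξ ⟨l, j⟩)
      (fun x k => hξ ⟨l, x⟩ k) (fun x => hξζ ⟨l, x⟩)
      ⟨C a * G l, linSys_C_mul (hG l) a, rfl⟩ (by
        rw [res_C_mul, hres l, ← ld_C_mul]
        exact LP_ld ρ (hPL l) hlim d (μ l)) i hi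

/-- the clusters different from `l₀` become flags -/
theorem Dat.to_hyb (S : Dat d M m U μ w s Mv v) {p : ι → V3} {P : Λ → V3}
    {ζ : (Σ l, Fin (s l)) → V3} (hX : GenericPoints (Sum.elim (Sum.elim p P) ζ)) {F : R3}
    (hF : F ∈ linSys d (Sum.elim p P) (Sum.elim m μ)) (hF0 : F ≠ 0) {G : Λ → R3}
    (hG : ∀ l, G l ∈ linSys (μ l) (fun j => ζ ⟨l, j⟩) (v l))
    (hres : ∀ l, res (G l) = ld d (μ l) (P l) F) (l₀ : Λ) :
    ∃ (ρ : Pl) (p' : ι → V3) (P' : Λ → V3) (c' : Λ → ℂ) (ζ' : Fin (s l₀) → V3) (a : ℂ)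
      (F' G' : R3), Ind (Sum.elim (Sum.elim p' P') ζ') c' ∧ (∀ l k, ρ.L (P l k) (P' l k)) ∧
      (∀ j k, ρ.L (ζ ⟨l₀, j⟩ k) (ζ' j k)) ∧ (∀ j, ζ' j 2 ≠ 0) ∧ a ≠ 0 ∧ ρ.LP (C a * F) F' ∧
      F' ≠ 0 ∧ F' ∈ FS d p' m P' μ c' (Function.update w l₀ 0) ∧ ρ.LP (C a * G l₀) G' ∧
      G' ∈ linSys (μ l₀) ζ' (v l₀) ∧ res G' = ld d (μ l₀) (P' l₀) F' := by
  obtain ⟨g, e, hg⟩ := exists_ind ((ι ⊕ Λ) ⊕ (Σ l, Fin (s l))) (Λ ⊕ Unit)
  have hX' : GenericPoints (Sum.elim (Sum.elim (Sum.elim p P) (fun j => ζ ⟨l₀, j⟩))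
      (fun x : (Σ l : {l // l ≠ l₀}, Fin (s l.1)) => ζ ⟨x.1.1, x.2⟩)) := by
    have h1 : Function.Injective (fun z : (((ι ⊕ Λ) ⊕ Fin (s l₀)) ⊕
        (Σ l : {l // l ≠ l₀}, Fin (s l.1))) × Fin 3 =>
        ((Sum.elim (Sum.elim Sum.inl (fun j => Sum.inr ⟨l₀, j⟩))
          (fun x => Sum.inr ⟨x.1.1, x.2⟩) z.1 : (ι ⊕ Λ) ⊕ (Σ l, Fin (s l))), z.2)) := by
      rintro ⟨((x | x) | ⟨⟨x, hx⟩, j⟩), k⟩ ⟨((y | y) | ⟨⟨y, hy⟩, j'⟩), k'⟩ h
      · simp only [Sum.elim_inl, Prod.mk.injEq, Sum.inl.injEq] at h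
        rw [h.1, h.2]
      · simp at h
      · simp at h
      · simp at h
      · simp only [Sum.elim_inl, Sum.elim_inr, Prod.mk.injEq, Sum.inr.injEq, Sigma.mk.injEq,
          heq_eq_eq, true_and] at h
        rw [h.1, h.2]
      · simp only [Sum.elim_inl, Sum.elim_inr, Prod.mk.injEq, Sum.inr.injEq,
          Sigma.mk.injEq] at h
        exact absurd h.1.1.symm hy
      · simp at h
      · simp only [Sum.elim_inl, Sum.elim_inr, Prod.mk.injEq, Sum.inr.injEq,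
          Sigma.mk.injEq] at h
        exact absurd h.1.1 hx
      · simp only [Sum.elim_inr, Prod.mk.injEq, Sum.inr.injEq, Sigma.mk.injEq] at h
        obtain ⟨⟨h1, h2⟩, h3⟩ := h
        subst h1
        rw [eq_of_heq h2, h3]
    have h2 := AlgebraicIndependent.comp hX _ h1
    have h3 : (fun z : ((ι ⊕ Λ) ⊕ (Σ l, Fin (s l))) × Fin 3 => Sum.elim (Sum.elim p P) ζ z.1 z.2) ∘
        (fun z : (((ι ⊕ Λ) ⊕ Fin (s l₀)) ⊕ (Σ l : {l // l ≠ l₀}, Fin (s l.1))) × Fin 3 =>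
        ((Sum.elim (Sum.elim Sum.inl (fun j => Sum.inr ⟨l₀, j⟩))
          (fun x => Sum.inr ⟨x.1.1, x.2⟩) z.1 : (ι ⊕ Λ) ⊕ (Σ l, Fin (s l))), z.2)) =
        fun z => Sum.elim (Sum.elim (Sum.elim p P) (fun j => ζ ⟨l₀, j⟩))
          (fun x : (Σ l : {l // l ≠ l₀}, Fin (s l.1)) => ζ ⟨x.1.1, x.2⟩) z.1 z.2 := by
      funext z
      obtain ⟨((x | x) | x), k⟩ := z <;> rfl
    rw [h3] at h2
    exact h2
  obtain ⟨ρ, t, c, ξ, ht0, ht, hpp, -, hcc, hξ, hξζ⟩ := exists_flag_place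
    (ind_of_generic hX' Empty.elim)
    (Sum.elim (fun x => g (Sum.inl x)) (fun j => g (Sum.inr ⟨l₀, j⟩))) Empty.elim
    (fun l => e (Sum.inl l.1))
    (fun x => ![g (Sum.inr ⟨x.1.1, x.2⟩) 1, g (Sum.inr ⟨x.1.1, x.2⟩) 0 -
      e (Sum.inr ()) * g (Sum.inr ⟨x.1.1, x.2⟩) 1, g (Sum.inr ⟨x.1.1, x.2⟩) 2])
  obtain ⟨a, ha, F', hF'0, hlim⟩ := Pl.exists_scale_poly ρ hF0
  have hpL : ∀ i k, ρ.L (p i k) (g (Sum.inl (Sum.inl i)) k) :=
    fun i k => hpp (Sum.inl (Sum.inl i)) k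
  have hPL : ∀ l k, ρ.L (P l k) (g (Sum.inl (Sum.inr l)) k) :=
    fun l k => hpp (Sum.inl (Sum.inr l)) k
  have hζL : ∀ j k, ρ.L (ζ ⟨l₀, j⟩ k) (g (Sum.inr ⟨l₀, j⟩) k) := fun j k => hpp (Sum.inr j) k
  have hne : ∀ x, g x 2 ≠ 0 := fun x => (Ind.generic hg).ne_zero (x, 2)
  have hlimld : ∀ l, ρ.LP (C a * res (G l)) (ld d (μ l) (g (Sum.inl (Sum.inr l))) F') := by
    intro l
    rw [hres l, ← ld_C_mul]
    exact LP_ld ρ (hPL l) hlim d (μ l)
  obtain ⟨hμ2, hwμ, hMμ, hμd, hμd'⟩ := S.le_mu l₀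
  have hlow : linSys (μ l₀ - 1) (fun j => g (Sum.inr ⟨l₀, j⟩)) (v l₀) = ⊥ := by
    refine linSys_eq_bot (S.hNv' l₀) ?_ (fun j => ?_) ?_
    · exact AlgebraicIndependent.comp (Ind.generic hg)
        (fun z : Fin (s l₀) × Fin 3 => (Sum.inr ⟨l₀, z.1⟩, z.2)) (fun z z' h => by
        simp only [Prod.mk.injEq, Sum.inr.injEq, Sigma.mk.injEq, heq_eq_eq, true_and] at h
        exact Prod.ext h.1 h.2)
    · have := S.hv l₀ j
      omega
    · have h1 := S.crit l₀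
      have h3 : μ l₀ - 1 + 2 = μ l₀ + 1 := by omega
      rw [h3, h1]
      exact Nat.le_add_right _ _
  have hlinG : ∀ (b : ℂ) (K : R3), ρ.LP (C b * G l₀) K →
      K ∈ linSys (μ l₀) (fun j => g (Sum.inr ⟨l₀, j⟩)) (v l₀) := fun b K hK =>
    hK.linSys hζL (linSys_C_mul (hG l₀) b)
  obtain ⟨G', hG'⟩ : ∃ G', ρ.LP (C a * G l₀) G' := by
    by_cases hG0 : G l₀ = 0
    · refine ⟨0, ?_⟩
      rw [hG0, mul_zero]
      exact Pl.LP_zero
    · obtain ⟨b, hb, G₂, hG₂0, hLG₂⟩ := Pl.exists_scale_poly ρ hG0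
      rcases ρ.tot (a / b) with ⟨κ, hκ⟩ | hκ
      · refine ⟨C κ * G₂, ?_⟩
        have h1 := hLG₂.C_mul hκ
        have e1 : C (a / b) * (C b * G l₀) = C a * G l₀ := by
          rw [← mul_assoc, ← map_mul, div_mul_cancel₀ _ hb]
        rwa [e1] at h1
      · exfalso
        have h1 := (hlimld l₀).C_mul hκ
        have e1 : C (a / b)⁻¹ * (C a * res (G l₀)) = res (C b * G l₀) := by
          rw [res_C_mul, ← mul_assoc, ← map_mul, inv_div, div_mul_cancel₀ _ ha]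
        rw [e1, C_0, zero_mul] at h1
        have h2 : ρ.LP (res (C b * G l₀)) (res G₂) := by
          unfold res
          refine hLG₂.aeval fun i => ?_
          fin_cases i
          · exact Pl.LP_X 0
          · exact Pl.LP_X 1
          · exact Pl.LP_zero
        have h3 := Pl.LP.fn h2 h1
        exact hG₂0 (eq_zero_of_res (fun j => hne _) hlow (hlinG b G₂ hLG₂) h3)
  refine ⟨ρ, fun i => g (Sum.inl (Sum.inl i)), fun l => g (Sum.inl (Sum.inr l)),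
    fun l => e (Sum.inl l), fun j => g (Sum.inr ⟨l₀, j⟩), a, F', G', ?_, hPL, hζL,
    fun j => hne _, ha, hlim, hF'0, ⟨?_, ?_⟩, hG', hlinG a G' hG', ?_⟩
  · have h1 := ind_comp hg
      (Sum.elim Sum.inl (fun j : Fin (s l₀) => Sum.inr ⟨l₀, j⟩) :
        (ι ⊕ Λ) ⊕ Fin (s l₀) → (ι ⊕ Λ) ⊕ (Σ l, Fin (s l))) (by
        rintro (x | x) (y | y) h
        · exact congrArg Sum.inl (Sum.inl_injective h)
        · simp at h
        · simp at h
        · simp only [Sum.elim_inr, Sum.inr.injEq, Sigma.mk.injEq, heq_eq_eq, true_and] at h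
          rw [h])
      (fun l : Λ => Sum.inl l) Sum.inl_injective
    have h2 : (fun x => g ((Sum.elim Sum.inl (fun j : Fin (s l₀) => Sum.inr ⟨l₀, j⟩) :
        (ι ⊕ Λ) ⊕ Fin (s l₀) → (ι ⊕ Λ) ⊕ (Σ l, Fin (s l))) x)) =
        Sum.elim (Sum.elim (fun i => g (Sum.inl (Sum.inl i)))
        (fun l => g (Sum.inl (Sum.inr l)))) (fun j => g (Sum.inr ⟨l₀, j⟩)) := by
      funext x
      rcases x with (x | x) | x <;> rfl
    rwa [h2] at h1
  · refine ⟨hlim.homogeneous (hF.1.C_mul a), ?_⟩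
    rintro (i | l)
    · exact hlim.vanishTo (hF.1.C_mul a) (hpL i) (vanishTo_C_mul (hF.2 (Sum.inl i)) a)
    · exact hlim.vanishTo (hF.1.C_mul a) (hPL l) (vanishTo_C_mul (hF.2 (Sum.inr l)) a)
  · intro l i hi
    by_cases hl : l = l₀
    · rw [hl, Function.update_self] at hi
      omega
    · rw [Function.update_of_ne hl] at hi
      obtain ⟨h1, h2, h3, h4, h5⟩ := S.le_mu l
      have hb : Ind (fun j => g (Sum.inr ⟨l, j⟩)) (fun _ : Unit => e (Sum.inr ())) :=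
        ind_comp hg (fun j : Fin (s l) => Sum.inr ⟨l, j⟩) (fun j j' h => by
          simpa using h) (fun x : Unit => Sum.inr x) Sum.inr_injective
      exact spec_flag (S.hNv l) (S.hNv' l) (fun j => by have := S.hv l j; omega) h3 (S.hMv l)
        (S.crit l) h2 hb ht0 ht (hcc ⟨l, hl⟩) (ζ := fun j => ζ ⟨l, j⟩)
        (ξ := fun j => ξ ⟨⟨l, hl⟩, j⟩)
        (fun x k => hξ ⟨⟨l, hl⟩, x⟩ k) (fun x => hξζ ⟨⟨l, hl⟩, x⟩)
        ⟨C a * G l, linSys_C_mul (hG l) a, rfl⟩ (by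
          rw [res_C_mul]
          exact hlimld l) i hi
  · have h2 : ρ.LP (res (C a * G l₀)) (res G') := by
      unfold res
      refine hG'.aeval fun i => ?_
      fin_cases i
      · exact Pl.LP_X 0
      · exact Pl.LP_X 1
      · exact Pl.LP_zero
    rw [res_C_mul] at h2
    exact Pl.LP.fn h2 (hlimld l₀)

/-- **The clusters level.** -/
theorem Dat.w_good [Nonempty Λ] (S : Dat d M m U μ w s Mv v) {p : ι → V3} {P : Λ → V3}
    {ζ : (Σ l, Fin (s l)) → V3} (hX : GenericPoints (Sum.elim (Sum.elim p P) ζ)) {F : R3}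
    (hF : F ∈ linSys d (Sum.elim p P) (Sum.elim m μ)) (hF0 : F ≠ 0) {G : Λ → R3}
    (hG : ∀ l, G l ∈ linSys (μ l) (fun j => ζ ⟨l, j⟩) (v l))
    (hres : ∀ l, res (G l) = ld d (μ l) (P l) F) :
    ¬ Sing (Sum.elim p P) F ∧ ¬ Tang d p m F ∧ ∀ l, ld d (μ l) (P l) F ≠ 0 ∧
      NoDouble (ld d (μ l) (P l) F) ∧ ¬ Bad (μ l) (fun j => ζ ⟨l, j⟩) (v l) (G l) := by
  have hd1 : 1 ≤ d := by
    obtain ⟨l⟩ := ‹Nonempty Λ›
    have h := S.le_mu l
    omega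
  obtain ⟨ρ, p', P', c', a, F', hI, hpL, hPL, ha, hlim, hF'0, hFS⟩ := S.to_flag hX hF hF0 hG hres
  have hmd : ∀ i, m i ≤ d := fun i => by
    have h1 := S.hmd i
    omega
  have hX2 : ∀ x, Sum.elim p P x 2 ≠ 0 := fun x => hX.ne_zero (Sum.inl x, 2)
  have hp'0 : ∀ x, Sum.elim p' P' x 2 ≠ 0 := fun x => (Ind.generic hI).ne_zero (x, 2)
  refine ⟨?_, ?_, fun l => ?_⟩
  · rintro ⟨q, hq0, hqp, hgrad⟩
    obtain ⟨e, he, b, hb0, hqb⟩ := ρ.exists_scale_vec q hq0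
    obtain ⟨q', hq'⟩ : ∃ q' : V3, q' = e • q := ⟨_, rfl⟩
    have hgrad' : ∀ k, eval q' (pderiv k F) = 0 := by
      intro k
      rw [hq', eval_smul_of_hom hF.1.pderiv, hgrad k, mul_zero]
    have hqp' : ∀ i, cr (Sum.elim p P i) q' ≠ 0 := by
      intro i
      rw [hq', cr_smul_right]
      exact smul_ne_zero he (hqp i)
    have hqb' : ∀ k, ρ.L (q' k) (b k) := by
      intro k
      rw [hq']
      exact hqb k
    by_cases hl : ∃ l, cr (P' l) b = 0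
    · obtain ⟨l, hl⟩ := hl
      obtain ⟨h1, h2, h3, h4, h5⟩ := S.le_mu l
      obtain ⟨y, hy0, hy1, hy2⟩ := next_order ρ (hX2 (Sum.inr l)) (hp'0 (Sum.inr l)) (hPL l)
        (hF.1.C_mul a) h5 hlim (vanishTo_C_mul (hF.2 (Sum.inr l)) a) hqb' hb0 hl
        (hqp' (Sum.inr l)) (sing_C_mul hgrad' a)
      have h6 := S.flag_dir hI hFS hF'0 hy0 hy1
      have h7 : y 1 ≠ 0 := by
        intro h7
        apply hy0
        ext i
        fin_cases i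
        · change y 0 = 0
          rw [h6, h7, mul_zero]
        · exact h7
      have h8 : y = y 1 • (![c' l, 1] : V2) := by
        ext i
        fin_cases i
        · change y 0 = y 1 * c' l
          rw [h6, mul_comm]
        · change y 1 = y 1 * 1
          rw [mul_one]
      rw [h8, eval_smul_of_hom (ld_hom hFS.1.1 h5 _)] at hy2
      exact S.flag_next hI hFS hF'0 l ((mul_eq_zero.mp hy2).resolve_left (pow_ne_zero _ h7))
    · push Not at hl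
      by_cases hi : ∃ i, cr (p' i) b = 0
      · obtain ⟨i, hi⟩ := hi
        have hp'i : p' i ≠ 0 := fun h => hp'0 (Sum.inl i) (by
          change p' i 2 = 0
          rw [h]; rfl)
        obtain ⟨u, hu, hbu⟩ := sing_spec ρ (hF.1.C_mul a) hd1 (hmd i) hlim (hpL i) hqb' hp'i
          hb0 (vanishTo_C_mul (hF.2 (Sum.inl i)) a) (hqp' (Sum.inl i)) hi (sing_C_mul hgrad' a)
        exact S.flag_tang hI hFS hF'0 ⟨i, u, hu, hbu⟩
      · push Not at hi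
        refine S.flag_sing hI hFS hF'0 ⟨b, hb0, ?_, ?_⟩
        · rintro (i | l)
          · exact hi i
          · exact hl l
        · intro k
          have h1 := (hlim.pderiv k).eval hqb'
          rw [sing_C_mul hgrad' a k] at h1
          exact ρ.fn h1 (Pl.zero ρ)
  · rintro ⟨i, u, hu, hbad⟩
    have hp'i : p' i ≠ 0 := fun h => hp'0 (Sum.inl i) (by
      change p' i 2 = 0
      rw [h]; rfl)
    obtain ⟨u', hu', hbu⟩ := tang_spec ρ (hF.1.C_mul a) (hmd i) hlim (hpL i) hp'i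
      (vanishTo_C_mul (hF.2 (Sum.inl i)) a) hu (badDir_C_mul hbad a)
    exact S.flag_tang hI hFS hF'0 ⟨i, u', hu', hbu⟩
  · obtain ⟨h1, h2, h3, h4, h5⟩ := S.le_mu l
    have hld : ld d (μ l) (P l) F ≠ 0 := by
      intro h0
      apply S.flag_exact hI hFS hF'0 l
      have h6 := LP_ld ρ (hPL l) hlim d (μ l)
      rw [ld_C_mul, h0, mul_zero] at h6
      have h7 := Pl.LP.fn h6 Pl.LP_zero
      rw [fd_eq, h7, iterate_map_zero, map_zero]
    refine ⟨hld, ?_⟩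
    obtain ⟨ρ₂, p₂, P₂, c₂, ζ₂, a₂, F₂, G₂, hI₂, hPL₂, hζL₂, hζ₂, ha₂, hlim₂, hF₂0, hFS₂, hlimG₂,
      hG₂, hres₂⟩ := S.to_hyb hX hF hF0 hG hres l
    have hnd := S.hyb_neck hI₂ hFS₂ hF₂0 hG₂ hres₂
    have hnb := S.hyb_not_bad hI₂ hFS₂ hF₂0 hG₂ hres₂
    constructor
    · intro y hy
      by_contra hcon
      push Not at hcon
      obtain ⟨e, he, z, hz0, hLz⟩ := ρ₂.exists_scale_vec y hy
      obtain ⟨k, hk⟩ := hnd z hz0
      apply hk
      rw [hres₂]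
      have h6 := LP_ld ρ₂ (hPL₂ l) hlim₂ d (μ l)
      rw [ld_C_mul] at h6
      have h7 := (h6.pderiv k).eval (a := e • y) (b := z) hLz
      have h8 : eval (e • y) (pderiv k (C a₂ * ld d (μ l) (P l) F)) = 0 := by
        rw [pderiv_C_mul, map_mul, eval_smul_of_hom (ld_hom hF.1 h4 _).pderiv, hcon k, mul_zero,
          mul_zero]
      rw [h8] at h7
      exact ρ₂.fn h7 (Pl.zero ρ₂)
    · intro hb
      apply hnb
      have hb' : Bad (μ l) (fun j => ζ ⟨l, j⟩) (v l) (C a₂ * G l) := by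
        rcases hb with ⟨q, hq0, hq1, hq2⟩ | ⟨i, u, hu, hb⟩
        · exact Or.inl ⟨q, hq0, hq1, sing_C_mul hq2 a₂⟩
        · exact Or.inr ⟨i, u, hu, badDir_C_mul hb a₂⟩
      exact bad_spec ρ₂ (by omega) (fun j => by have := S.hv l j; omega)
        (linSys_C_mul (hG l) a₂) hlimG₂ hζL₂ (fun j h => hζ₂ j (by rw [h]; rfl)) hb'

end levels

end Pool.Agent.Work.MP_0421d9_ag.ZE
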