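import Pool.Agent.Work.MP_0421d9_ag.ZDefs2
import Pool.Agent.Work.MP_0421d9_ag.MPlane

/-!
Strips of the plane with gain: the common end of the constructions.
-/

namespace Pool.Agent.Work.MP_0421d9_ag.LD

open MvPolynomial Module

theorem StripK.pstep {r D κ A : ℕ} {y y' : Fin r → ℕ} (h : StripK D κ A y y') :
    PStep D κ A y y' := by
  obtain ⟨N, e, he, h1, h2, h3, h4, h5, rfl⟩ := h
  refine ⟨h1, h2, h3, fun i => ?_, ?_, ?_⟩
  · by_cases hi : i ∈ Set.range e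
    · obtain ⟨k, rfl⟩ := hi
      exact Or.inr (rest_mem k)
    · exact Or.inl (rest_not_mem hi)
  · have h6 := mp_sum_rest he y (fun a => (a + 1).choose 2) (by decide)
    omega
  · obtain ⟨δ, rfl⟩ : ∃ δ, D = δ + 1 + κ := ⟨D - κ - 1, by omega⟩
    have e1 : δ + 1 + κ - κ = δ + 1 := by omega
    have e2 : δ + 1 - 1 = δ := by omega
    rw [e1, e2]
    exact peelm he h1 (by omega) h5

theorem gain_of {D G r u N κ A B : ℕ} {y : Fin r → ℕ} {P : Finset (Fin r)} (e : Fin N → Fin r)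
    (he : Function.Injective e) (heP : ∀ k, e k ∈ P) (hκ1 : 1 ≤ κ) (hκD : κ + 1 ≤ D)
    (hκu : κ ≤ 2 * u) (hAB : A + B = D - κ + 1)
    (hcount : A + κ * (D + 1) = ∑ k, (y (e k) + 1).choose 2 + κ.choose 2)
    (hK : Killsm D (y ∘ e) {α | α 2 < κ ∨ (α 2 = κ ∧ α 0 < A)})
    (h1 : 1 ≤ ∑ k, y (e k)) (hA : ∑ k, y (e k) ≤ G * A) (hB : ∑ k, y (e k) ≤ G * B) :
    StripGain D G P y u := by
  refine ⟨κ, A, rest e y, ∑ k, y (e k), ⟨N, e, he, hκ1, hκD, by omega, hcount, hK, rfl⟩, ?_, ?_,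
    hκu, h1, hA, ?_⟩
  · intro i hi
    apply rest_not_mem
    rintro ⟨k, rfl⟩
    exact hi (heP k)
  · have h2 := mp_sum_rest he y (fun a => a) rfl
    omega
  · have h2 : D - κ + 1 - A = B := by omega
    rw [h2]
    exact hB

/-- the strip is given by two systems with few rows -/
theorem gain_of_hFm {D G r u N κ A B : ℕ} {y : Fin r → ℕ} {P : Finset (Fin r)} (e : Fin N → Fin r)
    (he : Function.Injective e) (heP : ∀ k, e k ∈ P) (hκ1 : 1 ≤ κ) (hκD : κ + 1 ≤ D)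
    (hκu : κ ≤ 2 * u) (hAB : A + B = D - κ + 1)
    (hcount : A + κ * (D + 1) = ∑ k, (y (e k) + 1).choose 2 + κ.choose 2)
    (h1 : hFm D κ (y ∘ e) ≤ B) (h0 : hFm D (κ - 1) (y ∘ e) = 0)
    (h2 : 1 ≤ ∑ k, y (e k)) (hA : ∑ k, y (e k) ≤ G * A) (hB : ∑ k, y (e k) ≤ G * B) :
    StripGain D G P y u := by
  refine gain_of e he heP hκ1 hκD hκu hAB hcount ?_ h2 hA hB
  have h3 := kills_of_hFm hκ1 (by omega) (B := B) (by omega) h1 h0
  have h4 : D - κ + 1 - B = A := by omega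
  rwa [h4] at h3

/-- enumeration of `N` points of `P` -/
theorem exists_enum {r N : ℕ} (P : Finset (Fin r)) (hN : N ≤ P.card) :
    ∃ e : Fin N → Fin r, Function.Injective e ∧ ∀ k, e k ∈ P := by
  obtain ⟨Q, hQ, hc⟩ := Finset.exists_subset_card_eq hN
  refine ⟨Q.orderEmbOfFin hc, (Q.orderEmbOfFin hc).injective, fun k => hQ ?_⟩
  exact Finset.orderEmbOfFin_mem Q hc k

end Pool.Agent.Work.MP_0421d9_ag.LD
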