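import Mathlib

/-!
Irreducibility of the rigid curves: arithmetic.

`a`, `x` are the degree and the multiplicities of one factor, `b`, `y` those of the other one.
-/

namespace Pool.Agent.Work.MP_0421d9_ag.LD

/-- both factors have `χ = 1`: contradiction with the index theorem -/
theorem irr_split {ι : Type} [Fintype ι] {a b M α : ℕ} {x y : ι → ℕ}
    (hL : (a + b) * (a + b + 3) = ∑ i, (x i + y i) * (x i + y i + 1))
    (hA : a * (a + 3) = ∑ i, x i * (x i + 1)) (hB : b * (b + 3) = ∑ i, y i * (y i + 1))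
    (hx : ∀ i, x i ≤ α) (hy : ∀ i, y i ≤ M) (ha : 3 * α < a) (hb : 3 * M < b) : False := by
  have key : ∀ (c β : ℕ) (z : ι → ℕ), c * (c + 3) = ∑ i, z i * (z i + 1) → (∀ i, z i ≤ β) →
      3 * β < c → ∑ i, z i ^ 2 < c ^ 2 := by
    intro c β z h1 h2 h3
    have h4 : c * (c + 3) ≤ (β + 1) * ∑ i, z i := by
      rw [h1, Finset.mul_sum]
      refine Finset.sum_le_sum fun i _ => ?_
      rw [mul_comm]
      exact Nat.mul_le_mul_right _ (by have := h2 i; omega)
    have h5 : ∑ i, z i ^ 2 + ∑ i, z i = c * (c + 3) := by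
      rw [h1, ← Finset.sum_add_distrib]
      refine Finset.sum_congr rfl fun i _ => ?_
      ring
    by_contra hcon
    push Not at hcon
    nlinarith [Nat.mul_le_mul_left (β + 1) hcon]
  have hX := key a α x hA hx ha
  have hY := key b M y hB hy hb
  have hxy : ∑ i, x i * y i = a * b := by
    have h1 : ∑ i, (x i + y i) * (x i + y i + 1) =
        ∑ i, x i * (x i + 1) + ∑ i, y i * (y i + 1) + 2 * ∑ i, x i * y i := by
      rw [Finset.mul_sum, ← Finset.sum_add_distrib, ← Finset.sum_add_distrib]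
      refine Finset.sum_congr rfl fun i _ => ?_
      ring
    rw [← hL, ← hA, ← hB] at h1
    nlinarith
  have hCS := Finset.sum_mul_sq_le_sq_mul_sq Finset.univ (fun i => (x i : ℤ)) (fun i => (y i : ℤ))
  have hX' : (∑ i, (x i : ℤ) ^ 2) < (a : ℤ) ^ 2 := by exact_mod_cast hX
  have hY' : (∑ i, (y i : ℤ) ^ 2) < (b : ℤ) ^ 2 := by exact_mod_cast hY
  have hxy' : (∑ i, (x i : ℤ) * y i) = (a : ℤ) * b := by exact_mod_cast hxy
  have hX0 : 0 ≤ ∑ i, (x i : ℤ) ^ 2 := Finset.sum_nonneg fun i _ => sq_nonneg _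
  have hY0 : 0 ≤ ∑ i, (y i : ℤ) ^ 2 := Finset.sum_nonneg fun i _ => sq_nonneg _
  rw [hxy'] at hCS
  generalize (∑ i, (x i : ℤ) ^ 2) = X at *
  generalize (∑ i, (y i : ℤ) ^ 2) = Y at *
  have h1 : X * Y ≤ X * (b : ℤ) ^ 2 := mul_le_mul_of_nonneg_left hY'.le hX0
  have hb0 : (0 : ℤ) < b := by
    have : 0 < b := by omega
    exact_mod_cast this
  have h2 : X * (b : ℤ) ^ 2 < (a : ℤ) ^ 2 * (b : ℤ) ^ 2 :=
    mul_lt_mul_of_pos_right hX' (by positivity)
  nlinarith

theorem irr_end {a b α S T : ℤ} (ha : 1 ≤ a) (hb : 0 ≤ b) (hα : 2 ≤ α)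
    (h2 : 4 * a ^ 2 ≤ α * (a + b)) (hX : S ≤ a ^ 2 + α)
    (h9 : 49 * ((a + b) * α) ^ 2 - 16 * a ^ 2 * S ≤ 64 * T)
    (hup : T ≤ (a + b) * b * α) : False := by
  obtain ⟨d, hd⟩ : ∃ d, d = a + b := ⟨_, rfl⟩
  rw [← hd] at h2 h9 hup
  have hd1 : 1 ≤ d := by linarith
  obtain ⟨w, hw⟩ : ∃ w, w = d * α := ⟨_, rfl⟩
  have hw0 : 0 < w := by rw [hw]; exact mul_pos (by linarith) (by linarith)
  have h2' : 4 * a ^ 2 ≤ w := by rw [hw, mul_comm d α]; exact h2
  have h10 : a ^ 2 * S ≤ a ^ 2 * (a ^ 2 + α) := mul_le_mul_of_nonneg_left hX (sq_nonneg _)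
  have h11 : (4 * a ^ 2) * (4 * a ^ 2) ≤ w * w := mul_le_mul h2' h2' (by positivity) hw0.le
  have h12 : (4 * a ^ 2) * α ≤ w * α := mul_le_mul_of_nonneg_right h2' (by linarith)
  have h13 : w * b ≤ w * d := mul_le_mul_of_nonneg_left (by linarith) hw0.le
  have h14 : d * b * α = w * b := by rw [hw]; ring
  rw [h14] at hup
  rw [← hw] at h9
  have h15 : w * (48 * w) ≤ w * (64 * d + 4 * α) := by
    calc w * (48 * w) = 49 * w ^ 2 - w * w := by ring
      _ ≤ 49 * w ^ 2 - (4 * a ^ 2) * (4 * a ^ 2) := by linarith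
      _ = 49 * w ^ 2 - 16 * (a ^ 2 * a ^ 2) := by ring
      _ ≤ 64 * T + 16 * (a ^ 2 * S) - 16 * (a ^ 2 * a ^ 2) := by linarith
      _ ≤ 64 * T + 16 * (a ^ 2 * (a ^ 2 + α)) - 16 * (a ^ 2 * a ^ 2) := by linarith
      _ = 64 * T + 4 * ((4 * a ^ 2) * α) := by ring
      _ ≤ 64 * (w * b) + 4 * (w * α) := by linarith
      _ ≤ 64 * (w * d) + 4 * (w * α) := by linarith
      _ = w * (64 * d + 4 * α) := by ring
  have h16 : 48 * w ≤ 64 * d + 4 * α := le_of_mul_le_mul_left h15 hw0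
  have h17 : 2 * d ≤ w := by rw [hw]; nlinarith
  have h18 : α ≤ w := by rw [hw]; nlinarith
  linarith

/-- a factor of small degree: contradiction with Xu's inequality -/
theorem irr_core {ι : Type} [Fintype ι] {a b M : ℕ} {x y : ι → ℕ} {i₀ : ι}
    (ha : 1 ≤ a) (hL : (a + b) * (a + b + 3) = ∑ i, (x i + y i) * (x i + y i + 1))
    (hB : b * (b + 3) = ∑ i, y i * (y i + 1)) (hM : ∀ i, x i + y i ≤ M) (hi : 1 ≤ x i₀)
    (hmax : ∀ i, x i ≤ x i₀) (hXu : ∑ i, x i ^ 2 ≤ a ^ 2 + x i₀)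
    (h1 : 16 * a * M ≤ x i₀ * (a + b)) (h2 : 4 * a ^ 2 ≤ x i₀ * (a + b)) : False := by
  -- integers
  obtain ⟨S, hS⟩ : ∃ S : ℤ, S = ∑ i, (x i : ℤ) ^ 2 := ⟨_, rfl⟩
  obtain ⟨G, hG⟩ : ∃ G : ι → ℤ, G = fun i => (((a : ℤ) + b) * x i - a * (x i + y i)) *
    (((a : ℤ) + b) * x i - a * (x i + y i) - a) := ⟨_, rfl⟩
  have haz : (1 : ℤ) ≤ a := by exact_mod_cast ha
  have hbz : (0 : ℤ) ≤ b := by positivity
  have hLz : ((a : ℤ) + b) * (a + b + 3) = ∑ i, ((x i : ℤ) + y i) * (x i + y i + 1) := by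
    exact_mod_cast hL
  have hBz : (b : ℤ) * (b + 3) = ∑ i, (y i : ℤ) * (y i + 1) := by exact_mod_cast hB
  have hsum : ∑ i, G i = ((a : ℤ) + b) * b * (S - a ^ 2) := by
    have e1 : ∑ i, G i = (((a : ℤ) + b) * b) * S +
        a * ((a : ℤ) + b) * ∑ i, (y i : ℤ) * (y i + 1) -
        a * b * ∑ i, ((x i : ℤ) + y i) * (x i + y i + 1) := by
      rw [hS, hG, Finset.mul_sum, Finset.mul_sum, Finset.mul_sum, ← Finset.sum_add_distrib,
        ← Finset.sum_sub_distrib]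
      refine Finset.sum_congr rfl fun i _ => ?_
      ring
    rw [e1, ← hLz, ← hBz]
    ring
  have hXz : S ≤ (a : ℤ) ^ 2 + x i₀ := by
    rw [hS]
    exact_mod_cast hXu
  have h1z : 16 * (a : ℤ) * M ≤ x i₀ * (a + b) := by exact_mod_cast h1
  have h2z : 4 * (a : ℤ) ^ 2 ≤ x i₀ * (a + b) := by exact_mod_cast h2
  have hi' : (1 : ℤ) ≤ x i₀ := by exact_mod_cast hi
  -- the lower bound for all terms
  have hlow : ∀ i, -((a : ℤ) ^ 2 * (x i : ℤ) ^ 2) ≤ 4 * G i := by
    intro i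
    rw [hG]
    simp only
    rcases Nat.eq_zero_or_pos (x i) with h | h
    · rw [h]
      push_cast
      have h3 : 0 ≤ (a : ℤ) ^ 2 * (y i * (y i + 1)) := by positivity
      calc -((a : ℤ) ^ 2 * 0 ^ 2) ≤ 4 * ((a : ℤ) ^ 2 * (y i * (y i + 1))) := by linarith
        _ = _ := by ring
    · have hx : (1 : ℤ) ≤ x i := by exact_mod_cast h
      have h3 : (a : ℤ) ^ 2 ≤ (a : ℤ) ^ 2 * (x i : ℤ) ^ 2 :=
        le_mul_of_one_le_right (sq_nonneg _) (one_le_pow₀ hx)
      generalize ((a : ℤ) + b) * x i - a * (x i + y i) = z at *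
      have h4 := sq_nonneg (2 * z - a)
      calc -((a : ℤ) ^ 2 * (x i : ℤ) ^ 2) ≤ -(a : ℤ) ^ 2 := by linarith
        _ ≤ (2 * z - a) ^ 2 - (a : ℤ) ^ 2 := by linarith
        _ = 4 * (z * (z - a)) := by ring
  -- the lower bound for large terms
  have hbig : ∀ i, x i = x i₀ → 49 * (((a : ℤ) + b) * x i₀) ^ 2 ≤ 64 * G i := by
    intro i hxi
    have hMi : (x i : ℤ) + y i ≤ M := by exact_mod_cast hM i
    have hM1 : (1 : ℤ) ≤ M := by
      have : (0 : ℤ) ≤ y i := by positivity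
      rw [hxi] at hMi
      linarith
    have h5 : (a : ℤ) * (x i + y i) ≤ a * M := mul_le_mul_of_nonneg_left hMi (by linarith)
    have h6 : (a : ℤ) ≤ a * M := le_mul_of_one_le_right (by linarith) hM1
    have h7 : 7 * (((a : ℤ) + b) * x i₀) ≤
        8 * (((a : ℤ) + b) * x i - a * (x i + y i) - a) := by
      rw [hxi] at h5 ⊢
      linarith
    have h8 : (0 : ℤ) ≤ ((a : ℤ) + b) * x i₀ := by positivity
    rw [hG]
    simp only
    generalize ((a : ℤ) + b) * x i - a * (x i + y i) = z at *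
    generalize ((a : ℤ) + b) * x i₀ = w at *
    calc 49 * w ^ 2 = (7 * w) * (7 * w) := by ring
      _ ≤ (8 * z) * (8 * (z - a)) := mul_le_mul (by linarith) h7 (by linarith) (by linarith)
      _ = 64 * (z * (z - a)) := by ring
  have hd : (1 : ℤ) ≤ (a : ℤ) + b := by linarith
  have hup : ∑ i, G i ≤ ((a : ℤ) + b) * b * x i₀ := by
    rw [hsum]
    exact mul_le_mul_of_nonneg_left (by linarith) (by positivity)
  rcases Nat.lt_or_ge (x i₀) 2 with hα | hα
  · -- all multiplicities are at most one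
    have hx1 : x i₀ = 1 := by omega
    have h9 : 49 * ((a : ℤ) + b) ^ 2 * S ≤ 64 * ∑ i, G i := by
      rw [hS, Finset.mul_sum, Finset.mul_sum]
      refine Finset.sum_le_sum fun i _ => ?_
      have h10 := hmax i
      rcases Nat.eq_zero_or_pos (x i) with h | h
      · have h11 := hlow i
        rw [h] at h11 ⊢
        push_cast at h11 ⊢
        linarith
      · have h12 : x i = x i₀ := by omega
        have h13 := hbig i h12
        rw [hx1] at h13
        have h14 : (x i : ℤ) ^ 2 = 1 := by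
          rw [h12, hx1]
          norm_num
        rw [h14]
        calc 49 * ((a : ℤ) + b) ^ 2 * 1 = 49 * (((a : ℤ) + b) * ((1 : ℕ) : ℤ)) ^ 2 := by
              push_cast
              ring
          _ ≤ 64 * G i := h13
    have hS1 : (x i₀ : ℤ) ^ 2 ≤ S := by
      rw [hS]
      exact Finset.single_le_sum (f := fun i => (x i : ℤ) ^ 2) (fun i _ => sq_nonneg _)
        (Finset.mem_univ i₀)
    rw [hx1] at hS1 hXz
    push_cast at hS1 hXz
    rw [hsum] at h9
    have hd0 : (0 : ℤ) < (a : ℤ) + b := by linarith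
    have h14 : 49 * ((a : ℤ) + b) * S ≤ 64 * (b * (S - a ^ 2)) := by
      refine le_of_mul_le_mul_left ?_ hd0
      calc ((a : ℤ) + b) * (49 * ((a : ℤ) + b) * S) = 49 * ((a : ℤ) + b) ^ 2 * S := by ring
        _ ≤ 64 * (((a : ℤ) + b) * b * (S - a ^ 2)) := h9
        _ = ((a : ℤ) + b) * (64 * (b * (S - a ^ 2))) := by ring
    rcases le_or_gt S ((a : ℤ) ^ 2) with h | h
    · have h15 : (b : ℤ) * (S - a ^ 2) ≤ 0 :=
        mul_nonpos_of_nonneg_of_nonpos hbz (by linarith)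
      have h16 : 0 < ((a : ℤ) + b) * S := mul_pos hd0 (by linarith)
      linarith
    · have h15 : (b : ℤ) * (S - a ^ 2) ≤ (a + b) * (S - a ^ 2) :=
        mul_le_mul_of_nonneg_right (by linarith) (by linarith)
      have h16 : 49 * S ≤ 64 * (S - (a : ℤ) ^ 2) := by
        refine le_of_mul_le_mul_left ?_ hd0
        calc ((a : ℤ) + b) * (49 * S) = 49 * ((a : ℤ) + b) * S := by ring
          _ ≤ 64 * (b * (S - a ^ 2)) := h14
          _ ≤ 64 * ((a + b) * (S - a ^ 2)) := by linarith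
          _ = ((a : ℤ) + b) * (64 * (S - a ^ 2)) := by ring
      nlinarith
  · have hαz : (2 : ℤ) ≤ x i₀ := by exact_mod_cast hα
    classical
    have h9 : 49 * (((a : ℤ) + b) * x i₀) ^ 2 - 16 * a ^ 2 * S ≤ 64 * ∑ i, G i := by
      rw [← Finset.add_sum_erase _ G (Finset.mem_univ i₀)]
      have h10 := hbig i₀ rfl
      have h11 : -(a ^ 2 * S) ≤ 4 * ∑ i ∈ Finset.univ.erase i₀, G i := by
        have h12 : -(a ^ 2 * ∑ i ∈ Finset.univ.erase i₀, (x i : ℤ) ^ 2) ≤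
            4 * ∑ i ∈ Finset.univ.erase i₀, G i := by
          rw [Finset.mul_sum, Finset.mul_sum, ← Finset.sum_neg_distrib]
          exact Finset.sum_le_sum fun i _ => hlow i
        have h13 : ∑ i ∈ Finset.univ.erase i₀, (x i : ℤ) ^ 2 ≤ S := by
          rw [hS]
          exact Finset.sum_le_sum_of_subset_of_nonneg (Finset.erase_subset _ _)
            fun i _ _ => sq_nonneg _
        have h14 : (a : ℤ) ^ 2 * ∑ i ∈ Finset.univ.erase i₀, (x i : ℤ) ^ 2 ≤ a ^ 2 * S :=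
          mul_le_mul_of_nonneg_left h13 (sq_nonneg _)
        linarith
      linarith
    exact irr_end haz hbz hαz h2z hXz h9 hup

end Pool.Agent.Work.MP_0421d9_ag.LD
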