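import Pool.Agent.Work.MP_0421d9_ag.ZXu
import Pool.Agent.Work.MP_0421d9_ag.ZTr
import Pool.Agent.Work.MP_0421d9_ag.ZIrrNum

/-!
The curves of all systems in degree at least `C M ^ (1 + ε)` are irreducible (helper20).
-/

namespace Pool.Agent.Work.MP_0421d9_ag.LD

open MvPolynomial Module

/-- all systems with multiplicities at most `N` in degree at least `C N ^ (1 + η)` are
nonspecial -/
def NSall (C η : ℝ) : Prop := ∀ (r D N : ℕ) (y : Fin r → ℕ), (∀ i, y i ≤ N) →
  C * (N : ℝ) ^ (1 + η) ≤ D → hPm D y = (D + 2).choose 2 - ∑ i, (y i + 1).choose 2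

theorem rigid_factor {ι : Type} {q : ι → Fin 2 → ℂ} {D b : ℕ} {y : ι → ℕ} {A R : P2}
    (hA : A ≠ 0) (hR : R ≠ 0) (hD : A.totalDegree + b = D) (hb : R.totalDegree ≤ b)
    (hy : ∀ i, y i ≤ mu (q i) A + mu (q i) R) (h1 : finrank ℂ (VD D q y) = 1) :
    finrank ℂ (VD b q (fun i => mu (q i) R)) = 1 := by
  have hAR : A * R ∈ VD D q y := by
    refine ⟨(totalDegree_mul A R).trans (by omega), fun i => ?_⟩
    rw [vq_iff (mul_ne_zero hA hR), mu_mul hA hR]
    exact hy i
  have hne : (⟨A * R, hAR⟩ : VD D q y) ≠ 0 := fun h => mul_ne_zero hA hR (congrArg Subtype.val h)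
  have h2 := (finrank_eq_one_iff_of_nonzero' _ hne).mp h1
  have hRm : R ∈ VD b q (fun i => mu (q i) R) := ⟨hb, fun i => vq_mu _ hR⟩
  have hne' : (⟨R, hRm⟩ : VD b q (fun i => mu (q i) R)) ≠ 0 :=
    fun h => hR (congrArg Subtype.val h)
  refine (finrank_eq_one_iff_of_nonzero' _ hne').mpr fun w => ?_
  obtain ⟨w, hw1, hw2⟩ := w
  have hAw : A * w ∈ VD D q y := by
    refine ⟨(totalDegree_mul A w).trans (by omega), fun i => ?_⟩
    exact ((vq_mu (q i) hA).mul (hw2 i)).mono (hy i)
  obtain ⟨c, hc⟩ := h2 ⟨A * w, hAw⟩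
  refine ⟨c, Subtype.ext ?_⟩
  have h3 : c • (A * R) = A * w := congrArg Subtype.val hc
  rw [← mul_smul_comm] at h3
  exact mul_left_cancel₀ hA h3

theorem chi_of_rank {D r : ℕ} {y : Fin r → ℕ} (h1 : (D + 2).choose 2 - ∑ i, (y i + 1).choose 2 = 1) :
    D * (D + 3) = ∑ i, y i * (y i + 1) := by
  have h2 : (D + 2).choose 2 = ∑ i, (y i + 1).choose 2 + 1 := by omega
  have e1 : ∀ n : ℕ, 2 * (n + 1).choose 2 = n * (n + 1) := by
    intro n
    rw [Nat.choose_two_right, Nat.add_sub_cancel, mul_comm (n + 1) n]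
    exact Nat.mul_div_cancel' (Nat.even_mul_succ_self n).two_dvd
  have h3 : 2 * (D + 2).choose 2 = ∑ i, y i * (y i + 1) + 2 := by
    rw [h2, mul_add, Finset.mul_sum]
    simp only [e1]
  have h4 := e1 (D + 1)
  rw [h3] at h4
  nlinarith

theorem exists_small_factor {f : P2} (hf : f ≠ 0) (hu : ¬ IsUnit f) (h : ¬ Irreducible f) :
    ∃ A R : P2, f = A * R ∧ Irreducible A ∧ A.totalDegree ≤ R.totalDegree := by
  rw [irreducible_iff] at h
  push Not at h
  obtain ⟨g, k, hgk, hg, hk⟩ := h hu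
  have hg0 : g ≠ 0 := by
    rintro rfl
    rw [zero_mul] at hgk
    exact hf hgk
  have hk0 : k ≠ 0 := by
    rintro rfl
    rw [mul_zero] at hgk
    exact hf hgk
  have main : ∀ g k : P2, g ≠ 0 → k ≠ 0 → ¬ IsUnit g → g.totalDegree ≤ k.totalDegree →
      f = g * k → ∃ A R : P2, f = A * R ∧ Irreducible A ∧ A.totalDegree ≤ R.totalDegree := by
    intro g k hg0 hk0 hg hle hgk
    obtain ⟨A, hA, B, hB⟩ := WfDvdMonoid.exists_irreducible_factor hg hg0
    have hB0 : B ≠ 0 := by
      rintro rfl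
      rw [mul_zero] at hB
      exact hg0 hB
    refine ⟨A, B * k, by rw [hgk, hB, mul_assoc], hA, ?_⟩
    rw [totalDegree_mul' hB0 hk0]
    rw [hB, totalDegree_mul' hA.ne_zero hB0] at hle
    omega
  rcases le_total g.totalDegree k.totalDegree with hle | hle
  · exact main g k hg0 hk0 hg hle hgk
  · exact main k g hk0 hg0 hk hle (by rw [hgk, mul_comm])

/-- the unique member of a rigid system is irreducible -/
theorem irr_rigid {C η : ℝ} (hη : 0 < η) (hη1 : η ≤ 1) (hC : 4 ≤ C) (hNS : NSall C η)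
    {r D M : ℕ} {p : Fin r → V3} (hp : GenericPoints p) {y : Fin r → ℕ} (hM : 1 ≤ M)
    (hy : ∀ i, y i ≤ M) (hD : 16 * C ^ 2 * (M : ℝ) ^ (1 + 2 * η) ≤ D)
    (h1 : finrank ℂ (linSys D p y) = 1) {f : P2} (hf : f ∈ VD D (aff p) y) (hf0 : f ≠ 0) :
    Irreducible f ∧ f.totalDegree = D := by
  have hq := aff_injective hp
  have hmov := aff_movable hp
  set q := aff p with hqdef
  rw [finrank_aff hp, ← hqdef] at h1
  -- the powers
  have hM1 : (1 : ℝ) ≤ M := by exact_mod_cast hM
  obtain ⟨s, hs⟩ : ∃ s, s = (M : ℝ) ^ η := ⟨_, rfl⟩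
  have hs1 : 1 ≤ s := by
    rw [hs]
    exact Real.one_le_rpow hM1 hη.le
  have hMs : (M : ℝ) ^ (1 + η) = M * s := by
    rw [Real.rpow_add (by positivity), Real.rpow_one, hs]
  have hMs2 : (M : ℝ) ^ (1 + 2 * η) = M * s * s := by
    rw [Real.rpow_add (by positivity), Real.rpow_one, mul_comm 2 η, Real.rpow_mul (by positivity),
      ← hs, Real.rpow_two]
    ring
  rw [hMs2] at hD
  have hMs0 : (0 : ℝ) < M * s := by positivity
  have hMle : (M : ℝ) ≤ M * s := le_mul_of_one_le_right (by positivity) hs1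
  have hMss : (M : ℝ) * s ≤ M * s * s := le_mul_of_one_le_right (by positivity) hs1
  have hCC : 4 * C ≤ C ^ 2 := by nlinarith
  have hD2 : 64 * C * (M * s) ≤ D := by
    refine le_trans ?_ hD
    have h2 : 0 ≤ (M : ℝ) * s * s := by positivity
    calc 64 * C * (M * s) ≤ 64 * C * (M * s * s) := by
          refine mul_le_mul_of_nonneg_left hMss (by linarith)
      _ = 16 * (4 * C) * (M * s * s) := by ring
      _ ≤ 16 * C ^ 2 * (M * s * s) := by
          refine mul_le_mul_of_nonneg_right (by linarith) h2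
  have hD3 : (256 : ℝ) * M ≤ D := by
    refine le_trans ?_ hD2
    nlinarith
  have hD3' : 256 * M ≤ D := by exact_mod_cast hD3
  -- nonspeciality
  have hns : ∀ {E : ℕ} {z : Fin r → ℕ}, (∀ i, z i ≤ M) → C * (M * s) ≤ E →
      finrank ℂ (VD E q z) = (E + 2).choose 2 - ∑ i, (z i + 1).choose 2 := by
    intro E z hz hE
    rw [hqdef, ← finrank_aff hp, hPm_eq hp]
    exact hNS r E M z hz (by rw [hMs]; exact hE)
  have hchi : (D + 2).choose 2 - ∑ i, (y i + 1).choose 2 = 1 := by
    rw [← hns hy (by nlinarith), h1]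
  have hpos : ∀ {E : ℕ} {z : Fin r → ℕ}, f ∈ VD E q z → finrank ℂ (VD E q z) ≠ 0 := by
    intro E z hz h0
    have hfin : Module.Finite ℂ (VD E q z) := Submodule.finiteDimensional_of_le (VD_le E q z)
    have h2 := Submodule.finrank_eq_zero.mp h0
    rw [h2, Submodule.mem_bot] at hz
    exact hf0 hz
  -- degree
  have hdeg : f.totalDegree = D := by
    by_contra hne
    have h2 : f ∈ VD (D - 1) q y := ⟨by have := hf.1; omega, hf.2⟩
    have h3 := hns (E := D - 1) hy (by
      have h4 : ((D - 1 : ℕ) : ℝ) = D - 1 := by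
        rw [Nat.cast_sub (by omega), Nat.cast_one]
      rw [h4]
      nlinarith)
    apply hpos h2
    rw [h3]
    obtain ⟨E, rfl⟩ : ∃ E, D = E + 1 := ⟨D - 1, by omega⟩
    rw [Nat.add_sub_cancel] at *
    have h5 : (E + 1 + 2).choose 2 = (E + 2) + (E + 2).choose 2 := by
      rw [Nat.choose_succ_succ' (E + 2) 1, Nat.choose_one_right]
    omega
  -- multiplicities
  have hmu : ∀ i, mu (q i) f = y i := by
    intro i
    have h2 : y i ≤ mu (q i) f := (vq_iff hf0).mp (hf.2 i)
    by_contra hne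
    have h3 : f ∈ VD D q (Function.update y i (y i + 1)) := by
      refine ⟨hf.1, fun j => ?_⟩
      rcases eq_or_ne j i with rfl | hj
      · rw [Function.update_self]
        exact (vq_iff hf0).mpr (by omega)
      · rw [Function.update_of_ne hj]
        exact hf.2 j
    apply hpos h3
    have h4 : finrank ℂ (VD D q (Function.update y i (y i + 1))) =
        (D + 2).choose 2 - ∑ j, (Function.update y i (y i + 1) j + 1).choose 2 := by
      rw [hqdef, ← finrank_aff hp, hPm_eq hp]
      refine hNS r D (M + 1) _ (fun j => ?_) ?_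
      · rcases eq_or_ne j i with rfl | hj
        · rw [Function.update_self]
          have := hy j
          omega
        · rw [Function.update_of_ne hj]
          have := hy j
          omega
      · refine le_trans ?_ hD2
        have h5 : ((M + 1 : ℕ) : ℝ) ^ (1 + η) ≤ (2 * (M : ℝ)) ^ (1 + η) := by
          refine Real.rpow_le_rpow (by positivity) ?_ (by linarith)
          push_cast
          linarith
        have h6 : (2 * (M : ℝ)) ^ (1 + η) = 2 ^ (1 + η) * (M * s) := by
          rw [Real.mul_rpow (by norm_num) (by positivity), hMs]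
        have h7 : (2 : ℝ) ^ (1 + η) ≤ 4 := by
          calc (2 : ℝ) ^ (1 + η) ≤ 2 ^ (2 : ℝ) :=
                Real.rpow_le_rpow_of_exponent_le (by norm_num) (by linarith)
            _ = 4 := by norm_num
        calc C * ((M + 1 : ℕ) : ℝ) ^ (1 + η) ≤ C * (4 * (M * s)) := by
              refine mul_le_mul_of_nonneg_left ?_ (by linarith)
              rw [h6] at h5
              exact h5.trans (mul_le_mul_of_nonneg_right h7 hMs0.le)
          _ ≤ 64 * C * (M * s) := by nlinarith
    rw [h4]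
    have h5 : ∑ j, (Function.update y i (y i + 1) j + 1).choose 2 =
        ∑ j, (y j + 1).choose 2 + (y i + 1) := by
      rw [← Finset.add_sum_erase _ _ (Finset.mem_univ i),
        ← Finset.add_sum_erase (f := fun j => (y j + 1).choose 2) _ (Finset.mem_univ i),
        Function.update_self, Nat.choose_succ_succ' (y i + 1) 1, Nat.choose_one_right]
      have h6 : ∑ j ∈ Finset.univ.erase i, (Function.update y i (y i + 1) j + 1).choose 2 =
          ∑ j ∈ Finset.univ.erase i, (y j + 1).choose 2 := by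
        refine Finset.sum_congr rfl fun j hj => ?_
        rw [Function.update_of_ne (Finset.ne_of_mem_erase hj)]
      rw [h6]
      ring
    rw [h5]
    omega
  refine ⟨?_, hdeg⟩
  by_contra hirr
  have hunit : ¬ IsUnit f := by
    intro h
    have h2 : f.totalDegree = 0 := by
      rw [MvPolynomial.isUnit_iff_eq_C_of_isReduced] at h
      obtain ⟨c, _, rfl⟩ := h
      exact totalDegree_C c
    omega
  obtain ⟨A, R, hAR, hA, hle⟩ := exists_small_factor hf0 hunit hirr
  have hR0 : R ≠ 0 := by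
    rintro rfl
    rw [mul_zero] at hAR
    exact hf0 hAR
  obtain ⟨a, ha⟩ : ∃ a, a = A.totalDegree := ⟨_, rfl⟩
  obtain ⟨b, hb⟩ : ∃ b, b = R.totalDegree := ⟨_, rfl⟩
  have hab : a + b = D := by
    rw [ha, hb, ← totalDegree_mul' hA.ne_zero hR0, ← hAR, hdeg]
  have hle' : a ≤ b := by rw [ha, hb]; exact hle
  obtain ⟨x, hx⟩ : ∃ x : Fin r → ℕ, x = fun i => mu (q i) A := ⟨_, rfl⟩
  obtain ⟨z, hz⟩ : ∃ z : Fin r → ℕ, z = fun i => mu (q i) R := ⟨_, rfl⟩
  have hxz : ∀ i, x i + z i = y i := by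
    intro i
    rw [hx, hz, ← hmu i, hAR, mu_mul hA.ne_zero hR0]
  have ha1 : 1 ≤ a := by
    rw [ha]
    by_contra h
    have h2 : A.totalDegree = 0 := by omega
    apply hA.not_isUnit
    rw [totalDegree_eq_zero_iff_eq_C] at h2
    rw [h2]
    refine (IsUnit.mk0 _ ?_).map (MvPolynomial.C : ℂ →+* P2)
    intro h3
    rw [h3, MvPolynomial.C_0] at h2
    exact hA.ne_zero h2
  have hbD : (D : ℝ) ≤ 2 * b := by
    have : D ≤ 2 * b := by omega
    exact_mod_cast this
  -- the second factor
  have hR1 : finrank ℂ (VD b q z) = 1 := by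
    rw [hz]
    refine rigid_factor hA.ne_zero hR0 (by rw [← ha]; exact hab) hb.ge (fun i => ?_) h1
    have := hxz i
    rw [hx, hz] at this
    exact this.ge
  have hzM : ∀ i, z i ≤ M := fun i => by
    have h2 := hxz i
    have h3 := hy i
    omega
  have hEB : b * (b + 3) = ∑ i, z i * (z i + 1) := by
    apply chi_of_rank
    rw [← hns hzM (by nlinarith), hR1]
  have hEL : (a + b) * (a + b + 3) = ∑ i, (x i + z i) * (x i + z i + 1) := by
    rw [hab, chi_of_rank hchi]
    refine Finset.sum_congr rfl fun i _ => ?_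
    rw [hxz i]
  -- the first factor has a multiple point
  have hex : ∃ i, 1 ≤ x i := by
    by_contra hcon
    push Not at hcon
    have h2 : ∑ i, (x i + z i) * (x i + z i + 1) = ∑ i, z i * (z i + 1) := by
      refine Finset.sum_congr rfl fun i _ => ?_
      have : x i = 0 := by have := hcon i; omega
      rw [this, Nat.zero_add]
    rw [← hEL, ← hEB] at h2
    nlinarith
  obtain ⟨i₁, hi₁⟩ := hex
  obtain ⟨i₀, _, hmax⟩ := Finset.exists_max_image Finset.univ x ⟨i₁, Finset.mem_univ i₁⟩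
  have hmax' : ∀ i, x i ≤ x i₀ := fun i => hmax i (Finset.mem_univ i)
  have hi₀ : 1 ≤ x i₀ := hi₁.trans (hmax' i₁)
  have hi₀M : x i₀ ≤ M := by
    have h2 := hxz i₀
    have h3 := hy i₀
    omega
  obtain ⟨t, ht⟩ : ∃ t, t = (x i₀ : ℝ) ^ η := ⟨_, rfl⟩
  have hα1 : (1 : ℝ) ≤ x i₀ := by exact_mod_cast hi₀
  have hαM : (x i₀ : ℝ) ≤ M := by exact_mod_cast hi₀M
  have ht1 : 1 ≤ t := by
    rw [ht]
    exact Real.one_le_rpow hα1 hη.le
  have hts : t ≤ s := by
    rw [ht, hs]
    exact Real.rpow_le_rpow (by positivity) hαM hη.le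
  have hαt : (x i₀ : ℝ) ^ (1 + η) = x i₀ * t := by
    rw [Real.rpow_add (by positivity), Real.rpow_one, ht]
  rcases le_or_gt (C * (x i₀ * t)) a with hcase | hcase
  · -- the first factor is in the range
    have hA1 : finrank ℂ (VD a q x) = 1 := by
      rw [hx]
      refine rigid_factor (A := R) hR0 hA.ne_zero (by rw [← hb, add_comm]; exact hab) ha.ge
        (fun i => ?_) h1
      have := hxz i
      rw [hx, hz] at this
      rw [add_comm]
      exact this.ge
    have hEA : a * (a + 3) = ∑ i, x i * (x i + 1) := by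
      apply chi_of_rank
      have h2 := hNS r a (x i₀) x hmax' (by rw [hαt]; exact hcase)
      have h3 : finrank ℂ (VD a q x) = hPm a x := by
        rw [hqdef, ← finrank_aff hp, hPm_eq hp]
      exact (h2.symm.trans h3.symm).trans hA1
    have h3a : 3 * x i₀ < a := by
      have h2 : (3 : ℝ) * x i₀ < a := by
        refine lt_of_lt_of_le ?_ hcase
        have h3 : (x i₀ : ℝ) ≤ x i₀ * t := le_mul_of_one_le_right (by positivity) ht1
        have h4 : 4 * ((x i₀ : ℝ) * t) ≤ C * (x i₀ * t) :=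
          mul_le_mul_of_nonneg_right hC (by positivity)
        linarith
      exact_mod_cast h2
    exact irr_split hEL hEA hEB hmax' hzM h3a (by omega)
  · -- the first factor has small degree
    have hXu : ∑ i, x i ^ 2 ≤ a ^ 2 + x i₀ := by
      have h2 := xu hq hmov hA (i := i₀) (by
        have := hi₀
        rw [hx] at this
        exact this)
      rw [hx, ha]
      exact h2
    have hdR : ((a + b : ℕ) : ℝ) = D := by rw [hab]
    refine irr_core ha1 hEL hEB (fun i => by rw [hxz i]; exact hy i) hi₀ hmax' hXu ?_ ?_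
    · have h2 : ((16 * a * M : ℕ) : ℝ) ≤ ((x i₀ * (a + b) : ℕ) : ℝ) := by
        rw [Nat.cast_mul (x i₀), hdR]
        push_cast
        have h3 : (a : ℝ) * M ≤ (C * (x i₀ * t)) * M :=
          mul_le_mul_of_nonneg_right hcase.le (by positivity)
        have h4 : x i₀ * (64 * C * (M * s)) ≤ (x i₀ : ℝ) * D :=
          mul_le_mul_of_nonneg_left hD2 (by positivity)
        have h5 : (C * (x i₀ * t)) * M ≤ (C * (x i₀ * s)) * M := by gcongr
        nlinarith
      exact_mod_cast h2
    · have h2 : ((4 * a ^ 2 : ℕ) : ℝ) ≤ ((x i₀ * (a + b) : ℕ) : ℝ) := by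
        rw [Nat.cast_mul (x i₀), hdR]
        push_cast
        have h3 : (a : ℝ) ^ 2 ≤ (C * (x i₀ * t)) ^ 2 :=
          pow_le_pow_left₀ (by positivity) hcase.le 2
        have h4 : x i₀ * (16 * C ^ 2 * (M * s * s)) ≤ (x i₀ : ℝ) * D :=
          mul_le_mul_of_nonneg_left hD (by positivity)
        have h5 : (C * (x i₀ * t)) ^ 2 ≤ x i₀ * (C ^ 2 * (M * s * s)) := by
          calc (C * (x i₀ * t)) ^ 2 = x i₀ * (C ^ 2 * (x i₀ * t * t)) := by ring
            _ ≤ x i₀ * (C ^ 2 * (M * s * s)) := by gcongr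
        nlinarith
      exact_mod_cast h2

end Pool.Agent.Work.MP_0421d9_ag.LD
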