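import Pool.Agent.Work.MP_0421d9_ag.ZDefs
import Pool.Agent.Work.MP_0421d9_ag.VStrip
import Pool.Agent.Work.MP_0421d9_ag.JPeel

/-!
Strips of a rectangle with a family of multiplicities (helper84, after VStrip of helper82).
-/

namespace Pool.Agent.Work.MP_0421d9_ag.LD

open MvPolynomial Module

namespace VS

/-- the order at a general point of the top row -/
theorem kills_top_m {R L N B : ℕ} {k : Fin N → ℕ} (hR1 : 1 ≤ R) (hL : 1 ≤ L)
    (h1 : hRm (R + 1) L k ≤ B) (h0 : hRm R L k = 0) :
    Killsm (R + L - 1) k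
      {α | α ∈ rect (R + 1) L ∧ (α 2 < R ∨ (α 2 = R ∧ B ≤ α 0))} := by
  classical
  have eD : R + 1 + L - 2 = R + L - 1 := by omega
  set V := TSm (R + L - 1) (rect (R + 1) L) k (gpt N) with hV
  have hVd : finrank ℂ V ≤ B := by
    unfold hRm hTm at h1
    rw [eD] at h1
    exact h1
  obtain ⟨h, hh0, hh⟩ := order_generic (V.map (topc R)) B
  set g : Polynomial ℂ := ∏ i : Fin N, (Polynomial.C (gpt N i 0) -
    Polynomial.X * Polynomial.C (gpt N i 1)) with hg
  have hg0 : g ≠ 0 := by
    rw [hg, Finset.prod_ne_zero_iff]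
    intro i _ h2
    have h3 := congrArg (Polynomial.eval 0) h2
    simp only [Polynomial.eval_sub, Polynomial.eval_mul, Polynomial.eval_C, Polynomial.eval_X,
      zero_mul, sub_zero, Polynomial.eval_zero] at h3
    exact gpt_ne i 0 h3
  obtain ⟨c, hc, hc'⟩ := exists_eval_ne hh0 hg0
  have hne : ∀ i, gpt N i 0 - c * gpt N i 1 ≠ 0 := by
    rw [hg, Polynomial.eval_prod, Finset.prod_ne_zero_iff] at hc'
    intro i
    have h2 := hc' i (Finset.mem_univ i)
    rw [Polynomial.eval_sub, Polynomial.eval_mul, Polynomial.eval_C, Polynomial.eval_C,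
      Polynomial.eval_X] at h2
    exact h2
  have h2 := hh c hc
  have h3 : finrank ℂ ↥(V.map (topc R)) ≤ B := (Submodule.finrank_map_le _ _).trans hVd
  have h4 : V.map (topc R) ⊓ ordSub c B = ⊥ := by
    have hfin : Module.Finite ℂ ↥(V.map (topc R) ⊓ ordSub c B) :=
      Submodule.finiteDimensional_of_le inf_le_left
    rw [← Submodule.finrank_eq_zero (R := ℂ)]
    omega
  have h5 : TSm (R + L - 2) (rect R L) k (gpt N) = ⊥ := by
    rw [← Submodule.finrank_eq_zero (R := ℂ)]
    exact h0
  refine ⟨fun i => (shear c).mulVec (gpt N i), ?_, ?_⟩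
  · intro i l
    simp only [shear_mulVec]
    fin_cases l
    · exact hne i
    · exact gpt_ne i 1
    · exact gpt_ne i 2
  · intro G hG1 hG2 hG3
    have h6 : subM (shear c) G ∈ V := by
      rw [hV, mem_TSm]
      refine ⟨subM_isHomogeneous _ hG1, fun i => vanishTo_subM _ (hG3 i), fun β hβ => ?_⟩
      obtain ⟨α, hα, h7, h8, -⟩ := coeff_shear c G β hβ
      have h9 := (hG2 α (mem_support_iff.mpr hα)).1
      exact ⟨by rw [h7]; exact h9.1, lt_of_le_of_lt h8 h9.2⟩
    have h7 : topc R (subM (shear c) G) ∈ V.map (topc R) ⊓ ordSub c B := by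
      refine Submodule.mem_inf.mpr ⟨⟨_, h6, rfl⟩, ?_⟩
      intro j hj
      rw [topc_shear, ← onLine_shear, onLine_e1_e0, Polynomial.finsetSum_coeff]
      refine Finset.sum_eq_zero (fun β hβ => ?_)
      rw [Polynomial.coeff_C_mul_X_pow]
      split_ifs with h8 h9
      · exfalso
        have h10 := mem_support_iff.mp hβ
        rw [coeff_divMonomial] at h10
        have h11 := (hG2 _ (mem_support_iff.mpr h10)).2
        have e0' : (Finsupp.single (2 : Fin 3) R + β) 0 = β 0 := by
          rw [Finsupp.add_apply, Finsupp.single_eq_of_ne (by decide), zero_add]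
        have e2' : (Finsupp.single (2 : Fin 3) R + β) 2 = R + β 2 := by
          rw [Finsupp.add_apply, Finsupp.single_eq_same]
        rcases h11 with h11 | ⟨-, h11⟩
        · rw [e2'] at h11
          omega
        · rw [e0'] at h11
          omega
      · rw [mul_zero]
      · rfl
    rw [h4, Submodule.mem_bot] at h7
    have h8 : subM (shear c) G = 0 := by
      obtain ⟨h9, h10, h11⟩ := mem_TSm.mp h6
      have e3 : R + L - 1 = (R + L - 2) + 1 := by omega
      have h12 : ∀ α ∈ (subM (shear c) G).support, α 2 < R := by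
        intro α hα
        have h13 := (h11 α (mem_support_iff.mp hα)).1
        by_contra hcon
        have h14 : α 2 = R := by omega
        apply mem_support_iff.mp hα
        rw [← topc_coeff h9 h14 (degree_of_mem_support h9 (mem_support_iff.mp hα)), h7,
          Polynomial.coeff_zero]
      obtain ⟨G', hG'1, hG'2, hG'3⟩ := exists_div_X1 (F := subM (shear c) G) (δ := R + L - 2)
        (u := 1) (by rw [← e3]; exact h9) (fun α hα => by
          have h13 := h12 α hα
          have h14 := (h11 α (mem_support_iff.mp hα)).2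
          have h15 := deg_eq h9 hα
          omega)
      have h13 : G' ∈ TSm (R + L - 2) (rect R L) k (gpt N) := by
        rw [mem_TSm]
        refine ⟨hG'1, fun i => ?_, fun β hβ => ?_⟩
        · have h14 := h10 i
          rw [hG'2] at h14
          exact vanishTo_of_X1 (gpt_ne i 1) h14
        · rw [hG'3] at hβ
          have h14 := h12 _ (mem_support_iff.mpr hβ)
          have h15 := (h11 _ hβ).2
          rw [(single1_apply 1 β).2] at h14
          rw [(single1_apply 1 β).1] at h15
          exact ⟨h14, h15⟩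
      rw [h5, Submodule.mem_bot] at h13
      rw [hG'2, h13, mul_zero]
    have h9 := congrArg (subM (shear (-c))) h8
    have h10 : shear c * shear (-c) = 1 := by
      have h11 := shear_mul (-c)
      rwa [neg_neg] at h11
    rwa [subM_subM, h10, subM_one, map_zero] at h9

theorem kills_rev_m {R L N B : ℕ} {k : Fin N → ℕ} (hL : 1 ≤ L) (hB : B ≤ L)
    (hK : Killsm (R + L - 1) k
      {α | α ∈ rect (R + 1) L ∧ (α 2 < R ∨ (α 2 = R ∧ B ≤ α 0))}) :
    Killsm (R + L - 1) k
      {α | α ∈ rect (R + 1) L ∧ (α 2 < R ∨ (α 2 = R ∧ α 0 < L - B))} := by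
  obtain ⟨p, hp, hK⟩ := hK
  refine ⟨fun i => ![p i 1 * p i 1, p i 0 * p i 1, p i 0 * p i 2], ?_, ?_⟩
  · intro i l
    fin_cases l
    · exact mul_ne_zero (hp i 1) (hp i 1)
    · exact mul_ne_zero (hp i 0) (hp i 1)
    · exact mul_ne_zero (hp i 0) (hp i 2)
  · intro G hG1 hG2 hG3
    have hT : ∀ α ∈ G.support, α ∈ rect (R + 1) L := fun α hα => (hG2 α hα).1
    refine rev_eq_zero hL hG1 hT (hK _ (rev_isHomogeneous hL hT) (fun β hβ => ?_) (fun i => ?_))
    · obtain ⟨α, hα, rfl⟩ := coeff_rev_ne (mem_support_iff.mp hβ)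
      have h1 := hG2 α (mem_support_iff.mpr hα)
      have h2 : α 2 < R + 1 := h1.1.1
      have h3 : α 0 < L := h1.1.2
      have h4 := h1.2
      unfold rex
      refine ⟨⟨?_, ?_⟩, ?_⟩
      · rw [ex3_two]
        exact h2
      · rw [ex3_zero]
        omega
      · rw [ex3_zero, ex3_two]
        omega
    · have h1 := vanishTo_comp ph (F := G) (u := p i) (m := k i) (by
        have e1 : (fun j => eval (p i) (ph j)) =
            ![p i 1 * p i 1, p i 0 * p i 1, p i 0 * p i 2] := by
          funext j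
          fin_cases j
          · change eval (p i) (X 1 * X 1) = p i 1 * p i 1
            rw [map_mul, eval_X]
          · change eval (p i) (X 0 * X 1) = p i 0 * p i 1
            rw [map_mul, eval_X, eval_X]
          · change eval (p i) (X 0 * X 2) = p i 0 * p i 2
            rw [map_mul, eval_X, eval_X]
        rw [e1]
        exact hG3 i)
      rw [aeval_ph hL hG1 hT] at h1
      refine Tr.vanishTo_of_eval_ne h1 ?_
      rw [map_mul, map_pow, map_pow, eval_X, eval_X]
      exact mul_ne_zero (pow_ne_zero _ (hp i 0)) (pow_ne_zero _ (hp i 1))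

/-- higher degree -/
theorem kills_shift_m {H R L N A : ℕ} {k : Fin N → ℕ} (hL : 1 ≤ L) (hRH : R + 1 ≤ H)
    (hK : Killsm (R + L - 1) k
      {α | α ∈ rect (R + 1) L ∧ (α 2 < R ∨ (α 2 = R ∧ α 0 < A))}) :
    Killsm (H + L - 2) k {α | α ∈ rect H L ∧ (α 2 < R ∨ (α 2 = R ∧ α 0 < A))} := by
  obtain ⟨p, hp, hK⟩ := hK
  refine ⟨p, hp, fun G hG1 hG2 hG3 => ?_⟩
  have e1 : H + L - 2 = (R + L - 1) + (H - R - 1) := by omega
  obtain ⟨G', hG'1, hG'2, hG'3⟩ := exists_div_X1 (F := G) (δ := R + L - 1)
    (u := H - R - 1) (by rw [← e1]; exact hG1) (fun α hα => by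
      have h1 := deg_eq hG1 hα
      have h2 := hG2 α hα
      have h3 : α 0 < L := h2.1.2
      have h4 := h2.2
      omega)
  rw [hG'2, hK G' hG'1 (fun β hβ => ?_) (fun i => ?_), mul_zero]
  · rw [MvPolynomial.mem_support_iff, hG'3] at hβ
    have h1 := hG2 _ (mem_support_iff.mpr hβ)
    have h2 := h1.1.2
    have h3 := h1.2
    rw [(single1_apply _ β).1] at h2
    rw [(single1_apply _ β).1, (single1_apply _ β).2] at h3
    refine ⟨⟨by omega, h2⟩, h3⟩
  · have h1 := hG3 i
    rw [hG'2] at h1
    exact vanishTo_of_X1 (hp i 1) h1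

end VS

/-- a strip of a rectangle, cut off by some of the points -/
theorem rect_strip_m {H L R X r N : ℕ} {y : Fin r → ℕ} (e : Fin N → Fin r)
    (he : Function.Injective e) (hR1 : 1 ≤ R) (hRH : R + 1 ≤ H) (hL : 2 ≤ L) (hX : X ≤ L)
    (h1 : hRm (R + 1) L (y ∘ e) ≤ X) (h0 : hRm R L (y ∘ e) = 0) :
    RStep H L R X y (rest e y) := by
  refine ⟨hR1, hRH, hX, fun i => ?_, ?_⟩
  · by_cases hi : i ∈ Set.range e
    · obtain ⟨k, rfl⟩ := hi
      right
      exact rest_mem k
    · left
      exact rest_not_mem hi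
  have hL1 : 1 ≤ L := by omega
  have hK := VS.kills_shift_m hL1 hRH (VS.kills_rev_m hL1 hX (VS.kills_top_m hR1 hL1 h1 h0))
  have e1 : H + L - 3 - R + 1 + R = H + L - 2 := by omega
  have e2 : H + L - 3 - R + 1 = H - R + L - 2 := by omega
  have e3 : H + L - 3 - R = H - R - 1 + L - 2 := by omega
  rw [← e1] at hK
  have h2 := peelTm (y := y) he hR1 (A := L - X) (by omega) (T := rect H L)
    (fun α' β' h3 h4 h5 _ => ⟨by rw [h4]; exact h3.1, lt_of_le_of_lt h5 h3.2⟩) hK
  have e4 : {γ : Fin 3 →₀ ℕ | γ + Finsupp.single 2 R ∈ rect H L} = rect (H - R) L := by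
    ext γ
    constructor
    · rintro ⟨h3, h4⟩
      rw [Finsupp.add_apply, Finsupp.single_eq_same] at h3
      rw [Finsupp.add_apply, Finsupp.single_eq_of_ne (by decide), add_zero] at h4
      exact ⟨by omega, h4⟩
    · rintro ⟨h3, h4⟩
      refine ⟨?_, ?_⟩
      · rw [Finsupp.add_apply, Finsupp.single_eq_same]
        omega
      · rw [Finsupp.add_apply, Finsupp.single_eq_of_ne (by decide), add_zero]
        exact h4
  have e5 : {γ : Fin 3 →₀ ℕ | γ + Finsupp.single 2 (R + 1) ∈ rect H L} = rect (H - R - 1) L := by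
    ext γ
    constructor
    · rintro ⟨h3, h4⟩
      rw [Finsupp.add_apply, Finsupp.single_eq_same] at h3
      rw [Finsupp.add_apply, Finsupp.single_eq_of_ne (by decide), add_zero] at h4
      exact ⟨by omega, h4⟩
    · rintro ⟨h3, h4⟩
      refine ⟨?_, ?_⟩
      · rw [Finsupp.add_apply, Finsupp.single_eq_same]
        omega
      · rw [Finsupp.add_apply, Finsupp.single_eq_of_ne (by decide), add_zero]
        exact h4
  rw [e1, e2, e3, e4, e5] at h2
  exact h2

end Pool.Agent.Work.MP_0421d9_ag.LD
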