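import Pool.Agent.Work.MP_0421d9_ag.ZDefs
import Pool.Agent.Work.MP_0421d9_ag.MTrans
import Pool.Agent.Work.MP_0421d9_ag.VTrans

/-!
Elementary transformations of rectangles with a family of multiplicities
(helper84, after VTrans of helper25 and MTrans of helper7).
-/

namespace Pool.Agent.Work.MP_0421d9_ag.LD

open MvPolynomial Module

namespace Tv

section

variable {t e N : ℕ} {x c : Fin N → ℂ} (u : EU t e x c)

theorem Prm_dvd (he : e ≤ 1) {κ H : ℕ} {m : Fin N → ℕ} (hx : Function.Injective x) {F : R3}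
    (hF : F.IsHomogeneous (H - 1 + κ)) (h0 : ∀ α, coeff α F ≠ 0 → α 0 ≤ κ ∧ α 2 + 1 ≤ H)
    (hv : ∀ i, VanishTo F (pp u i) (m i)) : Tr.Prm x m ∣ psi u κ H F := by
  unfold Tr.Prm
  refine Fintype.prod_dvd_of_isRelPrime ?_ (fun i => lv_pow_dvd u he hF h0 (hv i))
  intro i j hij
  exact Tr.isRelPrime_lv' (fun h => hij (hx h)) _ _

/-- the quotient -/
theorem exists_quot_m (he : e ≤ 1) {κ H : ℕ} {m : Fin N → ℕ} (hx : Function.Injective x)
    {q : Fin N → V3} (hq1 : ∀ i, q i 1 ≠ 0)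
    (hqx : ∀ i, q i 2 = x i * q i 1) (hqc : ∀ i, c i * q i 1 = q i 0)
    {F : R3} (hF : F.IsHomogeneous (H - 1 + κ))
    (h0 : ∀ α, coeff α F ≠ 0 → α 0 ≤ κ ∧ α 2 + 1 ≤ H)
    (hv : ∀ i, VanishTo F (pp u i) (m i)) :
    ∃ G : R3, psi u κ H F = Tr.Prm x m * G ∧ (G ≠ 0 → ∑ i, m i ≤ H - 1 + κ * (t + 1) ∧
      degreeOf 2 G + ∑ i, m i ≤ H - 1 + κ * (t + e)) ∧
      G.IsHomogeneous (H - 1 + κ * (t + 1) - ∑ i, m i) ∧ degreeOf 0 G ≤ κ ∧
      ∀ i, VanishTo G (q i) (κ - m i) := by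
  by_cases hpsi : psi u κ H F = 0
  · refine ⟨0, by rw [hpsi, mul_zero], fun h => absurd rfl h, isHomogeneous_zero _ _ _, ?_,
      fun i => ?_⟩
    · rw [degreeOf_zero]
      exact Nat.zero_le _
    · exact (vanSub (q i) (κ - m i)).zero_mem
  obtain ⟨G₀, hG₀⟩ := Prm_dvd u he hx hF h0 hv
  have hhom := psi_isHomogeneous u he h0
  -- the degree
  have hdeg : ∑ i, m i ≤ H - 1 + κ * (t + 1) := by
    by_contra hcon
    apply hpsi
    rw [← homogeneousComponent_eq_self hhom, hG₀]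
    exact homogeneousComponent_mul_lt (Tr.Prm_isHomogeneous m) (by omega) G₀
  set d := H - 1 + κ * (t + 1) - ∑ i, m i with hd
  set G := homogeneousComponent d G₀ with hG
  have hPG : psi u κ H F = Tr.Prm x m * G := by
    rw [hG, ← homogeneousComponent_mul (Tr.Prm_isHomogeneous m), ← hG₀]
    have e1 : ∑ i, m i + d = H - 1 + κ * (t + 1) := by omega
    rw [e1, homogeneousComponent_eq_self hhom]
  have hG0 : G ≠ 0 := by
    intro h
    exact hpsi (by rw [hPG, h, mul_zero])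
  have hGhom : G.IsHomogeneous d := homogeneousComponent_isHomogeneous d G₀
  have hdeg0 : degreeOf 0 G ≤ κ := by
    have h1 : degreeOf 0 (psi u κ H F) ≤ κ :=
      degreeOf_psi u (fun α hα => degreeOf_pm_zero u (h0 α (mem_support_iff.mp hα)).1)
    rw [hPG, degreeOf_mul_eq (Tr.Prm_ne_zero m) hG0] at h1
    omega
  have hdeg2 : degreeOf 2 G + ∑ i, m i ≤ H - 1 + κ * (t + e) := by
    have h1 : degreeOf 2 (psi u κ H F) ≤ H - 1 + κ * (t + e) :=
      degreeOf_psi u (fun α hα => degreeOf_pm_two u (h0 α (mem_support_iff.mp hα)).1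
        (h0 α (mem_support_iff.mp hα)).2)
    rw [hPG, degreeOf_mul_eq (Tr.Prm_ne_zero m) hG0, Tr.degreeOf_Prm] at h1
    omega
  refine ⟨G, hPG, fun _ => ⟨hdeg, hdeg2⟩, hGhom, hdeg0, fun i => ?_⟩
  have h1 := vanishTo_psi u he h0 (hqx i) (hqc i)
  rw [hPG] at h1
  have h2 : Tr.Prm x m = lin (Tr.lv (x i)) ^ m i *
      ∏ j ∈ Finset.univ.erase i, lin (Tr.lv (x j)) ^ m j := by
    exact (Finset.mul_prod_erase Finset.univ (fun j => lin (Tr.lv (x j)) ^ m j)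
      (Finset.mem_univ i)).symm
  rw [h2, mul_assoc] at h1
  have h3 := Tr.vanishTo_of_pow_mul (Tr.lv_ne_zero _) (by rw [Tr.eval_lv, hqx i, sub_self]) h1
  refine Tr.vanishTo_of_eval_ne h3 ?_
  rw [map_prod]
  refine Finset.prod_ne_zero_iff.mpr (fun j hj => ?_)
  rw [map_pow, Tr.eval_lv, hqx i, ← sub_mul]
  refine pow_ne_zero _ (mul_ne_zero (sub_ne_zero.mpr fun h => ?_) (hq1 i))
  exact (Finset.ne_of_mem_erase hj) (hx h).symm

end

/-- the dimension count -/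
theorem finrank_le_m {t e H κ : ℕ} {m : Fin (2 * t + e) → ℕ} (ht : 1 ≤ t) (he : e ≤ 1)
    {W : Submodule ℂ R3} [Module.Finite ℂ W] (hH : 1 ≤ H)
    (hW : ∀ u : EU t e (fun i => gpt (2 * t + e) i 2 / gpt (2 * t + e) i 1)
      (fun i => gpt (2 * t + e) i 0 / gpt (2 * t + e) i 1), ∀ F : R3,
      F.IsHomogeneous (H - 1 + κ) → (∀ α, coeff α F ≠ 0 → α 0 ≤ κ ∧ α 2 + 1 ≤ H) →
      (∀ i, VanishTo F (pp u i) (m i)) →
      ∃ G ∈ W, psi u κ H F = Tr.Prm (fun i => gpt (2 * t + e) i 2 / gpt (2 * t + e) i 1) m * G) :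
    hRm H (κ + 1) m ≤ finrank ℂ W := by
  classical
  set q := gpt (2 * t + e) with hq
  have hgen := gpt_generic (2 * t + e)
  rw [← hq] at hgen
  obtain ⟨u⟩ := exists_EU ht he hgen
  refine (hTm_le (pp u)).trans ?_
  have e1 : H + (κ + 1) - 2 = H - 1 + κ := by omega
  rw [e1]
  set V := TSm (H - 1 + κ) (rect H (κ + 1)) m (pp u) with hV
  have hmem : ∀ F ∈ V, F.IsHomogeneous (H - 1 + κ) ∧ (∀ i, VanishTo F (pp u i) (m i)) ∧
      ∀ α, coeff α F ≠ 0 → α 0 ≤ κ ∧ α 2 + 1 ≤ H := by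
    intro F hF
    rw [hV, mem_TSm] at hF
    refine ⟨hF.1, hF.2.1, fun α hα => ?_⟩
    obtain ⟨h1, h2⟩ := hF.2.2 α hα
    exact ⟨by omega, by omega⟩
  have h1 : V.map (psi u κ H) ≤
      W.map (LinearMap.mulLeft ℂ (Tr.Prm (fun i => q i 2 / q i 1) m)) := by
    rintro _ ⟨F, hF, rfl⟩
    obtain ⟨h2, h3, h4⟩ := hmem F hF
    obtain ⟨G, hG, hFG⟩ := hW u F h2 h4 h3
    exact ⟨G, hG, by rw [LinearMap.mulLeft_apply, ← hFG]⟩
  have h2 : finrank ℂ V = finrank ℂ ↥(V.map (psi u κ H)) := by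
    have h3 : Function.Injective ((psi u κ H) ∘ₗ V.subtype) := by
      rw [← LinearMap.ker_eq_bot, Submodule.eq_bot_iff]
      intro F hF
      rw [LinearMap.mem_ker, LinearMap.comp_apply] at hF
      apply Subtype.ext
      obtain ⟨h4, h5, h6⟩ := hmem F.1 F.2
      refine eq_zero_of_aeval_th u he h4 ⟨0, by omega⟩ ?_
      rw [aeval_th u h4 h6]
      change psi u κ H F.1 = 0 at hF
      rw [hF, mul_zero]
    have h4 := LinearMap.finrank_range_of_inj h3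
    rw [LinearMap.range_comp, Submodule.range_subtype] at h4
    exact h4.symm
  rw [h2]
  exact (Submodule.finrank_mono h1).trans (Submodule.finrank_map_le _ _)

end Tv

/-- an even number of points -/
theorem transform_even_m {H H' κ t : ℕ} {m : Fin (2 * t) → ℕ} (ht : 1 ≤ t)
    (hH : H' + ∑ i, m i = H + κ * t) :
    hRm H (κ + 1) m ≤ hRm H' (κ + 1) (fun i => κ - m i) := by
  rcases Nat.eq_zero_or_pos H with hH0 | hH0
  · subst hH0
    rw [hRm_zero]
    exact Nat.zero_le _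
  have hgen := gpt_generic (2 * t + 0)
  have hx := Mx.gen_injective hgen
  refine (Tv.finrank_le_m (e := 0) (κ := κ) (H := H) (m := m)
    (W := TSm (H' + (κ + 1) - 2) (rect H' (κ + 1)) (fun i => κ - m i) (gpt (2 * t + 0)))
    ht (by omega) hH0 (fun u F hF h0 hv => ?_))
  obtain ⟨G, h1, h2, h3, h4, h5⟩ := Tv.exists_quot_m u (by omega) hx (q := gpt (2 * t + 0))
    (fun i => Mx.gen_ne hgen i 1)
    (fun i => by rw [div_mul_cancel₀ _ (Mx.gen_ne hgen i 1)])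
    (fun i => by rw [div_mul_cancel₀ _ (Mx.gen_ne hgen i 1)]) hF h0 hv
  refine ⟨G, ?_, h1⟩
  by_cases hG : G = 0
  · rw [hG]
    exact Submodule.zero_mem _
  obtain ⟨h6, h7⟩ := h2 hG
  have e2 : κ * (t + 1) = κ * t + κ := by ring
  have e3 : κ * (t + 0) = κ * t := by rw [add_zero]
  rw [e2] at h3 h6
  rw [e3] at h7
  rw [mem_TSm]
  have e5 : ∑ i : Fin (2 * t + 0), m i = ∑ i : Fin (2 * t), m i := rfl
  rw [e5] at h3 h6 h7
  refine ⟨?_, h5, fun α hα => ?_⟩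
  · have e4 : H' + (κ + 1) - 2 = H - 1 + (κ * t + κ) - ∑ i, m i := by omega
    rw [e4]
    exact h3
  · have h8 := monomial_le_degreeOf 0 (mem_support_iff.mpr hα)
    have h9 := monomial_le_degreeOf 2 (mem_support_iff.mpr hα)
    constructor
    · omega
    · omega

/-- no hypothesis `m i ≤ κ` -/
theorem transform_even_empty_m {H κ t : ℕ} {m : Fin (2 * t) → ℕ} (ht : 1 ≤ t)
    (h : H + κ * t ≤ ∑ i, m i) : hRm H (κ + 1) m = 0 := by
  rcases Nat.eq_zero_or_pos H with hH0 | hH0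
  · subst hH0
    rw [hRm_zero]
  have hgen := gpt_generic (2 * t + 0)
  have hx := Mx.gen_injective hgen
  have hle := (Tv.finrank_le_m (e := 0) (κ := κ) (H := H) (m := m)
    (W := ⊥) ht (by omega) hH0 (fun u F hF h0 hv => ?_))
  · rw [finrank_bot] at hle
    exact Nat.le_zero.mp hle
  obtain ⟨G, h1, h2, h3, h4, h5⟩ := Tv.exists_quot_m u (by omega) hx (q := gpt (2 * t + 0))
    (fun i => Mx.gen_ne hgen i 1)
    (fun i => by rw [div_mul_cancel₀ _ (Mx.gen_ne hgen i 1)])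
    (fun i => by rw [div_mul_cancel₀ _ (Mx.gen_ne hgen i 1)]) hF h0 hv
  by_cases hG : G = 0
  · exact ⟨G, by rw [hG]; exact Submodule.zero_mem _, h1⟩
  exfalso
  obtain ⟨h6, h7⟩ := h2 hG
  have e5 : ∑ i : Fin (2 * t + 0), m i = ∑ i : Fin (2 * t), m i := rfl
  rw [e5, add_zero] at h7
  omega

theorem transform_rect_m {κ L L' t : ℕ} {u : Fin (2 * t) → ℕ} (ht : 1 ≤ t) (hu : ∀ i, u i ≤ κ)
    (h : L' + ∑ i, u i = L + κ * t) :
    hRm (κ + 1) L u ≤ hRm (κ + 1) L' (fun i => κ - u i) := by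
  rw [hRm_swap (κ + 1) L, hRm_swap (κ + 1) L']
  exact transform_even_m ht h

theorem transform_rect_empty_m {κ L t : ℕ} {u : Fin (2 * t) → ℕ} (ht : 1 ≤ t)
    (h : L + κ * t ≤ ∑ i, u i) : hRm (κ + 1) L u = 0 := by
  rw [hRm_swap (κ + 1) L]
  exact transform_even_empty_m ht h

end Pool.Agent.Work.MP_0421d9_ag.LD
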