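import Pool.Agent.Work.MP_0421d9_ag.ZDefs2
import Pool.Agent.Work.MP_0421d9_ag.ZRStrip
import Pool.Agent.Work.MP_0421d9_ag.ZRTrans

/-!
Strips of a rectangle: pools of small, equal multiplicities.
-/

namespace Pool.Agent.Work.MP_0421d9_ag.LD

open MvPolynomial Module

/-- the points which are used -/
theorem zr_sum_rest {N r : ℕ} {e : Fin N → Fin r} (he : Function.Injective e) (y : Fin r → ℕ)
    (g : ℕ → ℕ) (hg : g 0 = 0) : ∑ j, g (y (e j)) + ∑ i, g (rest e y i) = ∑ i, g (y i) := by
  classical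
  have h1 : ∑ j, g (y (e j)) = ∑ i ∈ Finset.univ.image e, g (y i) := by
    rw [Finset.sum_image (fun a _ b _ h => he h)]
  rw [h1, ← Finset.sum_add_sum_compl (Finset.univ.image e) (fun i => g (rest e y i)),
    ← Finset.sum_add_sum_compl (Finset.univ.image e) (fun i => g (y i))]
  have h2 : ∑ i ∈ Finset.univ.image e, g (rest e y i) = 0 := by
    apply Finset.sum_eq_zero
    intro i hi
    rw [Finset.mem_image] at hi
    obtain ⟨j, -, rfl⟩ := hi
    rw [rest_mem, hg]
  have h3 : ∑ i ∈ (Finset.univ.image e)ᶜ, g (rest e y i) =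
      ∑ i ∈ (Finset.univ.image e)ᶜ, g (y i) := by
    apply Finset.sum_congr rfl
    intro i hi
    rw [Finset.mem_compl, Finset.mem_image] at hi
    rw [rest_not_mem]
    rintro ⟨j, rfl⟩
    exact hi ⟨j, Finset.mem_univ _, rfl⟩
  rw [h2, h3, zero_add]

/-- all multiplicities equal to `v` -/
theorem rect_small {H L r v : ℕ} {y : Fin r → ℕ} (P : Finset (Fin r)) (hv : 1 ≤ v)
    (hP : ∀ i ∈ P, y i = v) (hPs : 4 * L ≤ ∑ i ∈ P, y i) (hL : 2 * v * (v + 1) ≤ L)
    (hH : 2 * v + 1 ≤ H) : StripOut H L P y v := by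
  obtain ⟨t, s, hs, hts⟩ : ∃ t s, s < v ∧ L = t * v + s :=
    ⟨L / v, L % v, Nat.mod_lt _ hv, (Nat.div_add_mod' L v).symm⟩
  have ht : v + 1 ≤ t := by
    by_contra hcon
    have h1 : t * v ≤ v * v := Nat.mul_le_mul_right _ (by omega)
    have h2 : 2 * v * (v + 1) = v * v + v * v + 2 * v := by ring
    omega
  have hcard : 2 * t ≤ P.card := by
    have h1 : ∑ i ∈ P, y i = P.card * v := by
      rw [Finset.sum_congr rfl hP, Finset.sum_const, smul_eq_mul]
    rw [h1] at hPs
    by_contra hcon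
    have h2 : P.card * v ≤ (2 * t) * v := Nat.mul_le_mul_right _ (by omega)
    have h3 : 2 * t * v = 2 * (t * v) := by ring
    have h4 : (v + 1) * v ≤ t * v := Nat.mul_le_mul_right _ ht
    have h5 : 1 ≤ (v + 1) * v := Nat.mul_pos (Nat.succ_pos v) hv
    omega
  obtain ⟨Q, hQP, hQ⟩ := Finset.exists_subset_card_eq hcard
  let e : Fin (2 * t) → Fin r := fun j => (Q.orderIsoOfFin hQ j).1
  have he : Function.Injective e := fun a b h =>
    (Q.orderIsoOfFin hQ).injective (Subtype.ext h)
  have heP : ∀ j, e j ∈ P := fun j => hQP (Q.orderIsoOfFin hQ j).2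
  have hye : ∀ j, y (e j) = v := fun j => hP _ (heP j)
  have hyc : y ∘ e = fun _ => v := funext hye
  have hL2 : 2 ≤ L := by
    have h4 : (v + 1) * 1 ≤ t * v := Nat.mul_le_mul ht hv
    omega
  have hsum : ∑ _i : Fin (2 * t), v = 2 * t * v := by
    rw [Finset.sum_const, Finset.card_univ, Fintype.card_fin, smul_eq_mul]
  have hX : (v + 1) * s ≤ L := by
    have h1 : (v + 1) * s ≤ t * v := Nat.mul_le_mul ht hs.le
    omega
  have h1 : hRm (v + 1) L (y ∘ e) ≤ (v + 1) * s := by
    rw [hyc]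
    have h2 := transform_rect_m (κ := v) (L := L) (L' := s) (t := t) (u := fun _ => v)
      (by omega) (fun _ => le_rfl) (by
        rw [hsum, hts]
        ring)
    exact h2.trans (hRm_le_mul _ _ _)
  have h0 : hRm v L (y ∘ e) = 0 := by
    rw [hyc]
    obtain ⟨w, rfl⟩ : ∃ w, v = w + 1 := ⟨v - 1, by omega⟩
    apply transform_rect_empty_m (t := t) (by omega)
    rw [hsum, hts]
    have e1 : 2 * t * (w + 1) = t * (w + 1) + w * t + t := by ring
    rw [e1]
    omega
  have hstep := rect_strip_m (H := H) (L := L) (R := v) (X := (v + 1) * s) e he hv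
    (by omega) hL2 hX h1 h0
  have hch : 2 * (v + 1).choose 2 = v * (v + 1) := by
    have h := Nat.triangle_succ v
    have h2 := Nat.choose_two_right (v + 1)
    rw [Nat.add_sub_cancel] at h2
    have h3 : Even ((v + 1) * v) := by
      rw [mul_comm]
      exact Nat.even_mul_succ_self v
    rw [h2, Nat.mul_div_cancel' h3.two_dvd, mul_comm]
  refine ⟨v, (v + 1) * s, rest e y, t * (v * (v + 1)), 2 * t * v, hstep, ?_, ?_, ?_, ?_, ?_, ?_, ?_⟩
  · intro i hi
    rw [rest_not_mem]
    rintro ⟨j, rfl⟩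
    exact hi (heP j)
  · have h2 := zr_sum_rest he y (fun n => (n + 1).choose 2) (by decide)
    have h3 : ∑ j, (y (e j) + 1).choose 2 = t * (v * (v + 1)) := by
      rw [Finset.sum_congr rfl (fun j _ => by rw [hye j]), Finset.sum_const, Finset.card_univ,
        Fintype.card_fin, smul_eq_mul, ← hch]
      ring
    rw [← h3]
    exact h2
  · have h2 := zr_sum_rest he y (fun n => n) rfl
    have h3 : ∑ j, y (e j) = 2 * t * v := by
      rw [Finset.sum_congr rfl (fun j _ => hye j), hsum]
    rw [← h3]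
    exact h2
  · omega
  · have e1 : (v + 1) * s + t * (v * (v + 1)) = (v + 1) * L := by
      rw [hts]
      ring
    rw [e1]
    exact Nat.le_add_right _ _
  · have e1 : (v + 1) * L = (v + 1) * s + t * (v * (v + 1)) := by
      rw [hts]
      ring
    omega
  · have e1 : (v + 1) * L = (v + 1) * s + t * (v * (v + 1)) := by
      rw [hts]
      ring
    have h2 : (v + 1) * s ≤ t * (v * (v + 1)) := by
      have h3 : (v + 1) * s ≤ (v + 1) * (t * v) := Nat.mul_le_mul_left _ (by
        have h4 : 1 * v ≤ t * v := Nat.mul_le_mul_right _ (by omega)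
        omega)
      have e2 : (v + 1) * (t * v) = t * (v * (v + 1)) := by ring
      omega
    omega

end Pool.Agent.Work.MP_0421d9_ag.LD
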