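import Mathlib

/-!
Arithmetic for the strips of rectangles with varying multiplicities (helper63).
-/

namespace Pool.Agent.Work.MP_0421d9_ag.LD

/-- the numerical situation: `2 t` points, all multiplicities in `[u - ω, u]`, `C` conditions -/
structure RW (T q a p L u ω t κ C : ℕ) : Prop where
  hT : 1 ≤ T
  hq : 2 ≤ q
  ha : 2 ≤ a
  hp : 40 * q + 4000 ≤ p
  hu : 100 * p ^ 2 ≤ u
  hL : 1000 * a * p * u ≤ L
  hTu : u ^ 2 ≤ T * L
  w1 : p * ω ≤ u
  w2 : u < p * ω + p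
  c1 : (u + ω) * L ≤ C
  c2 : C ≤ (u + ω) * L + u * (u + 1)
  t1 : C ≤ t * (u * (u + 1))
  t2 : ∀ v, v + ω = u → t * (v * (v + 1)) ≤ C
  k1 : 100 * C ≤ 100 * ((κ + 1) * L) + L
  k2 : 100 * ((κ + 1) * L) + L ≤ 100 * C + 100 * L

namespace RW

variable {T q a p L u ω t κ C : ℕ}

theorem p4 (h : RW T q a p L u ω t κ C) : 4080 ≤ p := by
  have := h.hp; have := h.hq; omega

theorem D1 (h : RW T q a p L u ω t κ C) : 4000 * ω ≤ u :=
  (Nat.mul_le_mul_right _ (by have := h.p4; omega)).trans h.w1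

theorem D2 (h : RW T q a p L u ω t κ C) : 100 * p ≤ ω := by
  have h1 : p * (100 * p) < p * (ω + 1) := by
    have h2 := h.hu; have h3 := h.w2
    calc p * (100 * p) = 100 * p ^ 2 := by ring
      _ ≤ u := h2
      _ < p * ω + p := h3
      _ = p * (ω + 1) := by ring
  have h4 := Nat.lt_of_mul_lt_mul_left h1
  omega

theorem D2' (h : RW T q a p L u ω t κ C) : 400000 ≤ ω := by
  have := h.D2; have := h.p4; omega

theorem u1 (h : RW T q a p L u ω t κ C) : 1600000000 ≤ u := by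
  have := h.D1; have := h.D2'; omega

theorem D3 (h : RW T q a p L u ω t κ C) : L ≤ t * u := by
  have h1 : (u + 1) * L ≤ (u + 1) * (t * u) := by
    calc (u + 1) * L ≤ (u + ω) * L := Nat.mul_le_mul_right _ (by have := h.D2'; omega)
      _ ≤ C := h.c1
      _ ≤ t * (u * (u + 1)) := h.t1
      _ = (u + 1) * (t * u) := by ring
  exact Nat.le_of_mul_le_mul_left h1 (by omega)

theorem D3' (h : RW T q a p L u ω t κ C) : 8000000 * u ≤ L := by
  refine le_trans (Nat.mul_le_mul_right _ ?_) h.hL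
  have h1 := h.ha; have h2 := h.p4
  calc 8000000 ≤ 1000 * (2 * 4080) := by norm_num
    _ ≤ 1000 * (a * p) := Nat.mul_le_mul_left _ (Nat.mul_le_mul h1 h2)
    _ = 1000 * a * p := by ring

theorem D4 (h : RW T q a p L u ω t κ C) : 1000 * (t * u) ≤ 1002 * L := by
  obtain ⟨v, hv⟩ : ∃ v, v + ω = u := ⟨u - ω, by have := h.D1; omega⟩
  have h1 := h.t2 v hv
  have h2 : 3999 * u ≤ 4000 * v := by have := h.D1; omega
  have h3 := h.u1
  have h4 : t * ((3999 * u) * (3999 * u)) ≤ 16000000 * C := by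
    calc t * ((3999 * u) * (3999 * u)) ≤ t * ((4000 * v) * (4000 * v)) :=
          Nat.mul_le_mul_left _ (Nat.mul_le_mul h2 h2)
      _ = 16000000 * (t * (v * v)) := by ring
      _ ≤ 16000000 * (t * (v * (v + 1))) := by
          refine Nat.mul_le_mul_left _ (Nat.mul_le_mul_left _ (Nat.mul_le_mul_left _ (by omega)))
      _ ≤ 16000000 * C := Nat.mul_le_mul_left _ h1
  have h5 : 4000 * ((u + ω) * L) ≤ 4001 * (u * L) := by
    calc 4000 * ((u + ω) * L) = (4000 * u + 4000 * ω) * L := by ring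
      _ ≤ (4000 * u + u) * L := Nat.mul_le_mul_right _ (by have := h.D1; omega)
      _ = 4001 * (u * L) := by ring
  have h6 : 4000000 * (u * (u + 1)) ≤ u * L := by
    calc 4000000 * (u * (u + 1)) ≤ 4000000 * (u * (2 * u)) := by
          refine Nat.mul_le_mul_left _ (Nat.mul_le_mul_left _ (by omega))
      _ = u * (8000000 * u) := by ring
      _ ≤ u * L := Nat.mul_le_mul_left _ h.D3'
  have h7 := h.c2
  have h8 : u * (1000 * (t * u)) ≤ u * (1002 * L) := by
    have e1 : t * ((3999 * u) * (3999 * u)) = 15992001 * (u * (t * u)) := by ring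
    have e2 : u * (1000 * (t * u)) = 1000 * (u * (t * u)) := by ring
    have e3 : u * (1002 * L) = 1002 * (u * L) := by ring
    rw [e1] at h4
    rw [e2, e3]
    omega
  exact Nat.le_of_mul_le_mul_left h8 (by omega)

theorem D5 (h : RW T q a p L u ω t κ C) : u + ω ≤ κ + 1 := by
  have h1 := h.c1; have h2 := h.k1; have h3 := h.D3'; have h4 := h.u1
  by_contra hcon
  have h5 : (κ + 1 + 1) * L ≤ (u + ω) * L := Nat.mul_le_mul_right _ (by omega)
  have h6 : (κ + 1 + 1) * L = (κ + 1) * L + L := by ring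
  omega

theorem usq (h : RW T q a p L u ω t κ C) : 2000 * (u * u) ≤ (ω + 1) * L := by
  have h1 : p * (2000 * (u * u)) ≤ p * ((ω + 1) * L) := by
    calc p * (2000 * (u * u)) = (1000 * 2 * p * u) * u := by ring
      _ ≤ (1000 * a * p * u) * u := by
          refine Nat.mul_le_mul_right _ (Nat.mul_le_mul_right _ (Nat.mul_le_mul_right _ ?_))
          exact Nat.mul_le_mul_left _ h.ha
      _ ≤ L * u := Nat.mul_le_mul_right _ h.hL
      _ ≤ L * (p * (ω + 1)) := Nat.mul_le_mul_left _ (by have := h.w2; rw [Nat.mul_add]; omega)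
      _ = p * ((ω + 1) * L) := by ring
  exact Nat.le_of_mul_le_mul_left h1 (by have := h.p4; omega)

theorem D5' (h : RW T q a p L u ω t κ C) : 1000 * (κ + 1) ≤ 1000 * (u + ω) + ω + 991 := by
  have h1 := h.usq
  have h2 := h.k2
  have h3 := h.c2
  have h4 : u * (u + 1) ≤ 2 * (u * u) := by
    have := h.u1
    nlinarith
  have hL1 : 1 ≤ L := by have := h.D3'; have := h.u1; omega
  have h5 : (1000 * (κ + 1)) * L ≤ (1000 * (u + ω) + ω + 991) * L := by
    have e1 : (1000 * (κ + 1)) * L = 10 * (100 * ((κ + 1) * L)) := by ring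
    have e2 : (1000 * (u + ω) + ω + 991) * L = 1000 * ((u + ω) * L) + (ω + 1) * L + 990 * L := by
      ring
    rw [e1, e2]
    omega
  exact Nat.le_of_mul_le_mul_right h5 hL1

theorem κu (h : RW T q a p L u ω t κ C) : 1000 * (κ + 1) ≤ 1001 * u := by
  have := h.D5'; have := h.D1; have := h.D2'; omega

theorem D6 (h : RW T q a p L u ω t κ C) : 1000 * a * p ≤ t := by
  have h1 : (1000 * a * p) * u ≤ t * u := h.hL.trans h.D3
  exact Nat.le_of_mul_le_mul_right h1 (by have := h.u1; omega)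

theorem K_le (h : RW T q a p L u ω t κ C) {K : ℕ} (hK : 1000 * K ≤ 4002 * (t * ω)) :
    900 * K ≤ L := by
  have h1 : t * (4000 * ω) ≤ t * u := Nat.mul_le_mul_left _ h.D1
  have h2 := h.D4
  have e1 : t * (4000 * ω) = 4000 * (t * ω) := by ring
  omega

theorem wsq (h : RW T q a p L u ω t κ C) : 16000000 * (ω * ω) ≤ u * u := by
  calc 16000000 * (ω * ω) = (4000 * ω) * (4000 * ω) := by ring
    _ ≤ u * u := Nat.mul_le_mul h.D1 h.D1

theorem c_le (h : RW T q a p L u ω t κ C) : 100000 * (6 * (3 * ω + 1) ^ 2) ≤ T * L := by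
  have h1 := h.wsq
  have h2 := h.hTu
  have h3 := h.D2'
  nlinarith

theorem Lup (h : RW T q a p L u ω t κ C) {L' S : ℕ}
    (hid : (κ + 1) * L' + C = (κ + 1) * L + S) (hS : S ≤ 5 * (t * (ω * ω))) :
    1000000 * L' ≤ L := by
  have h1 : u * L' ≤ (κ + 1) * L' := Nat.mul_le_mul_right _ (by have := h.D5; have := h.D2'; omega)
  have h2 := h.k2
  have h3 : u * L' ≤ L + S := by omega
  have h4 : 16000000 * (t * (ω * ω)) ≤ t * (u * u) := by
    calc 16000000 * (t * (ω * ω)) = t * (16000000 * (ω * ω)) := by ring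
      _ ≤ t * (u * u) := Nat.mul_le_mul_left _ h.wsq
  have h5 : 1000 * (t * (u * u)) ≤ 1002 * (u * L) := by
    calc 1000 * (t * (u * u)) = u * (1000 * (t * u)) := by ring
      _ ≤ u * (1002 * L) := Nat.mul_le_mul_left _ h.D4
      _ = 1002 * (u * L) := by ring
  have h6 : 1600000000 * L ≤ u * L := Nat.mul_le_mul_right _ h.u1
  have h7 : u * (1000000 * L') ≤ u * L := by
    have e1 : u * (1000000 * L') = 1000000 * (u * L') := by ring
    rw [e1]
    omega
  exact Nat.le_of_mul_le_mul_left h7 (by have := h.u1; omega)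

theorem u_lt (h : RW T q a p L u ω t κ C) : 100 * u ≤ ω * (ω + 1) := by
  calc 100 * u ≤ 100 * (p * (ω + 1)) := Nat.mul_le_mul_left _ (by
        have := h.w2; rw [Nat.mul_add]; omega)
    _ = (100 * p) * (ω + 1) := by ring
    _ ≤ ω * (ω + 1) := Nat.mul_le_mul_right _ h.D2

/-- the product of the height and of a small width -/
theorem ku_le (h : RW T q a p L u ω t κ C) :
    1000000 * ((κ + 1) * (a * ω)) ≤ 1001 * (t * (ω * (ω + 1))) := by
  have h1 : 1000 * (κ + 1) ≤ 1001 * (p * (ω + 1)) := by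
    refine h.κu.trans (Nat.mul_le_mul_left _ ?_)
    have := h.w2; rw [Nat.mul_add]; omega
  calc 1000000 * ((κ + 1) * (a * ω)) = (1000 * (κ + 1)) * (1000 * a * ω) := by ring
    _ ≤ (1001 * (p * (ω + 1))) * (1000 * a * ω) := Nat.mul_le_mul_right _ h1
    _ = 1001 * ((1000 * a * p) * (ω * (ω + 1))) := by ring
    _ ≤ 1001 * (t * (ω * (ω + 1))) := Nat.mul_le_mul_left _ (Nat.mul_le_mul_right _ h.D6)

theorem t1' (h : RW T q a p L u ω t κ C) : 1 ≤ t := by
  have h1 := h.D6; have h2 := h.ha; have h3 := h.p4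
  have h4 : 1 ≤ 1000 * a * p := Nat.mul_pos (Nat.mul_pos (by norm_num) (by omega)) (by omega)
  omega

theorem Llow (h : RW T q a p L u ω t κ C) {L' : ℤ} {S : ℕ}
    (hid : ((κ : ℤ) + 1) * L' + C = (κ + 1) * L + S) (hS : t * (ω * (ω - 1)) ≤ S) :
    19 * (a * ω : ℤ) ≤ L' := by
  by_contra hcon
  rw [not_le] at hcon
  obtain ⟨w, rfl⟩ : ∃ w, ω = w + 1 := ⟨ω - 1, by have := h.D2'; omega⟩
  have h1 := h.ku_le
  have h2 := h.k1
  have h3 := h.D3
  have h4 := h.u_lt
  have h5 := h.t1'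
  have h6 : ((κ : ℤ) + 1) * L' < (κ + 1) * (19 * (a * ((w + 1 : ℕ) : ℤ))) :=
    mul_lt_mul_of_pos_left hcon (by positivity)
  have h7 : 100 * (t * u) ≤ t * ((w + 1) * (w + 1 + 1)) := by
    calc 100 * (t * u) = t * (100 * u) := by ring
      _ ≤ t * ((w + 1) * (w + 1 + 1)) := Nat.mul_le_mul_left _ h4
  have h8 : 400000 ≤ w + 1 := h.D2'
  have e0 : w + 1 - 1 = w := by omega
  rw [e0] at hS
  -- all products over the integers
  have i1 : (1000000 : ℤ) * ((κ + 1) * (a * (w + 1))) ≤ 1001 * (t * ((w + 1) * (w + 1 + 1))) := by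
    exact_mod_cast h1
  have i2 : (100 : ℤ) * C ≤ 100 * ((κ + 1) * L) + L := by exact_mod_cast h2
  have i3 : (L : ℤ) ≤ t * u := by exact_mod_cast h3
  have i7 : (100 : ℤ) * (t * u) ≤ t * ((w + 1) * (w + 1 + 1)) := by exact_mod_cast h7
  have iS : (t : ℤ) * ((w + 1) * w) ≤ S := by exact_mod_cast hS
  have i5 : (1 : ℤ) ≤ t := by exact_mod_cast h5
  have i8 : (399999 : ℤ) ≤ w := by
    have : 399999 ≤ w := by omega
    exact_mod_cast this
  push_cast at h6
  have j1 : (t : ℤ) * ((w + 1) * (w + 1 + 1)) ≤ 2 * (t * ((w + 1) * w)) := by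
    have : (0 : ℤ) ≤ t * (w + 1) := by positivity
    nlinarith
  have j2 : (0 : ℤ) < t * ((w + 1) * w) := by positivity
  linarith

/-- the height is large -/
theorem hq_le (h : RW T q a p L u ω t κ C) : 6 * q * (3 * ω + 1) + 2 ≤ κ := by
  have h1 : 40 * q * ω ≤ u := by
    calc 40 * q * ω ≤ p * ω := Nat.mul_le_mul_right _ (by have := h.hp; omega)
      _ ≤ u := h.w1
  have h2 := h.D5
  have h3 := h.D2'
  have h4 : q * 1 ≤ q * ω := Nat.mul_le_mul_left _ (by omega)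
  have h5 : 1 ≤ q := by have := h.hq; omega
  have e1 : 6 * q * (3 * ω + 1) = 18 * (q * ω) + 6 * (q * 1) := by ring
  have e2 : 40 * q * ω = 40 * (q * ω) := by ring
  rw [e1]
  rw [e2] at h1
  omega

/-- the window for the regular rectangle -/
theorem reg (h : RW T q a p L u ω t κ C) {K S Sq L₂ V : ℕ} (hK : 1000 * K ≤ 4002 * (t * ω))
    (hSq : Sq + K = 2 * S) (hV : V + S = (κ + 1) * L₂) (hV1 : L ≤ 60 * V)
    (hL₂ : 1 ≤ L₂) (hL₂' : 300000 * L₂ ≤ L) :
    T * (Sq + 23 * (K + (κ + 1) + L₂)) + 6 * (3 * ω + 1) ^ 2 ≤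
      T * (2 * ((κ + 1 - 1) * (L₂ - 1))) := by
  have h1 := h.K_le hK
  have h2 := h.c_le
  have h3 := h.κu
  have h4 := h.D3'
  obtain ⟨L₃, rfl⟩ : ∃ L₃, L₂ = L₃ + 1 := ⟨L₂ - 1, by omega⟩
  have e1 : κ + 1 - 1 = κ := by omega
  have e2 : L₃ + 1 - 1 = L₃ := by omega
  rw [e1, e2]
  have e3 : (κ + 1) * (L₃ + 1) = κ * L₃ + κ + L₃ + 1 := by ring
  rw [e3] at hV
  have h5 : Sq + 23 * (K + (κ + 1) + (L₃ + 1)) + L / 100000 + 1 ≤ 2 * (κ * L₃) := by
    omega
  have h6 : T * (Sq + 23 * (K + (κ + 1) + (L₃ + 1)) + L / 100000 + 1) ≤ T * (2 * (κ * L₃)) :=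
    Nat.mul_le_mul_left _ h5
  have h7 : 6 * (3 * ω + 1) ^ 2 ≤ T * (L / 100000 + 1) := by
    have h8 : L ≤ 100000 * (L / 100000 + 1) := by omega
    have h9 : T * L ≤ T * (100000 * (L / 100000 + 1)) := Nat.mul_le_mul_left _ h8
    have e4 : T * (100000 * (L / 100000 + 1)) = 100000 * (T * (L / 100000 + 1)) := by ring
    omega
  have e5 : T * (Sq + 23 * (K + (κ + 1) + (L₃ + 1)) + L / 100000 + 1) =
      T * (Sq + 23 * (K + (κ + 1) + (L₃ + 1))) + T * (L / 100000 + 1) := by ring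
  omega

/-- the window for the empty rectangle -/
theorem emp (h : RW T q a p L u ω t κ C) {K S Sq L' L₂ : ℕ} (hK : 1000 * K ≤ 4002 * (t * ω))
    (hSq : Sq + 3 * K = 2 * S + 2 * t) (hid : (κ + 1) * L' + C = (κ + 1) * L + S)
    (hL' : L' + κ * t = L + K) (hL₂ : L₂ + t = L') :
    T * (2 * ((κ - 1) * (L₂ - 1))) + 6 * (3 * ω) ^ 2 ≤ T * Sq := by
  have h1 := h.K_le hK
  have h2 := h.c_le
  have h3 := h.k2
  have h4 := h.D3'
  have h6 : 6 * (3 * ω) ^ 2 ≤ T * (L / 100000 + 1) := by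
    have h7 : 6 * (3 * ω) ^ 2 ≤ 6 * (3 * ω + 1) ^ 2 :=
      Nat.mul_le_mul_left _ (Nat.pow_le_pow_left (by omega) 2)
    have h8 : L ≤ 100000 * (L / 100000 + 1) := by omega
    have h9 : T * L ≤ T * (100000 * (L / 100000 + 1)) := Nat.mul_le_mul_left _ h8
    have e4 : T * (100000 * (L / 100000 + 1)) = 100000 * (T * (L / 100000 + 1)) := by ring
    omega
  have h7 : (κ - 1) * (L₂ - 1) ≤ κ * L₂ := Nat.mul_le_mul (by omega) (by omega)
  have h8 : κ * L₂ + κ * t = κ * L' := by rw [← Nat.mul_add, hL₂]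
  have h9 : (κ + 1) * L' = κ * L' + L' := by ring
  have h10 : 2 * (κ * L₂) + L / 100000 + 1 ≤ Sq := by
    have := h.u1
    omega
  calc T * (2 * ((κ - 1) * (L₂ - 1))) + 6 * (3 * ω) ^ 2
      ≤ T * (2 * (κ * L₂)) + T * (L / 100000 + 1) :=
        Nat.add_le_add (Nat.mul_le_mul_left _ (Nat.mul_le_mul_left _ h7)) h6
    _ = T * (2 * (κ * L₂) + L / 100000 + 1) := by ring
    _ ≤ T * Sq := Nat.mul_le_mul_left _ h10

/-- the window for the empty rectangle, small width -/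
theorem emp' (h : RW T q a p L u ω t κ C) {Sq w : ℕ} (hw : w + 2 = ω)
    (hSq : 2 * (t * (w * w)) ≤ Sq) :
    T * (2 * ((κ - 1) * (6 * a * (3 * ω + 1) + 1 - 1))) + 6 * (3 * ω) ^ 2 ≤ T * Sq := by
  have h1 := h.ku_le
  have h2 := h.D2'
  have h3 := h.t1'
  have h5 : 2 * ((κ - 1) * (6 * a * (3 * ω + 1) + 1 - 1)) + 6 * (3 * ω) ^ 2 ≤ Sq := by
    have e1 : 6 * a * (3 * ω + 1) + 1 - 1 = 18 * (a * ω) + 6 * (a * 1) := by
      rw [Nat.add_sub_cancel]; ring
    rw [e1]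
    have h6 : a * 1 ≤ a * ω := Nat.mul_le_mul_left _ (by omega)
    have h7 : (κ - 1) * (18 * (a * ω) + 6 * (a * 1)) ≤ (κ + 1) * (24 * (a * ω)) :=
      Nat.mul_le_mul (by omega) (by omega)
    have e2 : (κ + 1) * (24 * (a * ω)) = 24 * ((κ + 1) * (a * ω)) := by ring
    have h8 : 100 * (ω * (ω + 1)) ≤ 101 * (w * w) := by
      subst hw
      nlinarith
    have h9 : 100 * (t * (ω * (ω + 1))) ≤ 101 * (t * (w * w)) := by
      calc 100 * (t * (ω * (ω + 1))) = t * (100 * (ω * (ω + 1))) := by ring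
        _ ≤ t * (101 * (w * w)) := Nat.mul_le_mul_left _ h8
        _ = 101 * (t * (w * w)) := by ring
    have h10 : 6 * (3 * ω) ^ 2 ≤ 54 * (ω * (ω + 1)) := by nlinarith
    have h11 : 1000 * (w * w) ≤ t * (w * w) := by
      refine Nat.mul_le_mul_right _ (le_trans ?_ h.D6)
      have h12 := h.ha; have h13 := h.p4
      calc 1000 = 1000 * 1 * 1 := by norm_num
        _ ≤ 1000 * a * p := Nat.mul_le_mul (Nat.mul_le_mul_left _ (by omega)) (by omega)
    omega
  calc T * (2 * ((κ - 1) * (6 * a * (3 * ω + 1) + 1 - 1))) + 6 * (3 * ω) ^ 2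
      ≤ T * (2 * ((κ - 1) * (6 * a * (3 * ω + 1) + 1 - 1))) + T * (6 * (3 * ω) ^ 2) := by
        refine Nat.add_le_add_left ?_ _
        exact Nat.le_mul_of_pos_left _ h.hT
    _ = T * (2 * ((κ - 1) * (6 * a * (3 * ω + 1) + 1 - 1)) + 6 * (3 * ω) ^ 2) := by ring
    _ ≤ T * Sq := Nat.mul_le_mul_left _ h5

end RW

end Pool.Agent.Work.MP_0421d9_ag.LD
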