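import Mathlib

/-!
Subsets of given parity whose weight is just above a given number (helper63).
-/

namespace Pool.Agent.Work.MP_0421d9_ag.LD

/-- a subset of given parity whose weight is just above `A` -/
theorem zsel_pick {α : Type} [DecidableEq α] (P : Finset α) (g : α → ℕ) {w A par : ℕ}
    (hpar : par ≤ 1) (hg : ∀ i ∈ P, g i ≤ w) (hA : A + w ≤ ∑ i ∈ P, g i) (hA1 : 1 ≤ A) :
    ∃ Q ⊆ P, Q.card % 2 = par ∧ 1 ≤ Q.card ∧ A ≤ ∑ i ∈ Q, g i ∧ ∑ i ∈ Q, g i < A + 2 * w := by
  classical
  set F := P.powerset.filter (fun Q => Q.card % 2 = par ∧ A ≤ ∑ i ∈ Q, g i) with hF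
  have hne : F.Nonempty := by
    by_cases hP : P.card % 2 = par
    · exact ⟨P, by
        rw [hF, Finset.mem_filter, Finset.mem_powerset]
        exact ⟨Finset.Subset.refl _, hP, by omega⟩⟩
    · have hPne : P.Nonempty := by
        rw [Finset.nonempty_iff_ne_empty]
        rintro rfl
        rw [Finset.sum_empty] at hA
        omega
      obtain ⟨a, ha⟩ := hPne
      have h1 := Finset.add_sum_erase P g ha
      have h2 := hg a ha
      have h3 := Finset.card_erase_of_mem ha
      have h4 : 1 ≤ P.card := Finset.card_pos.mpr ⟨a, ha⟩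
      refine ⟨P.erase a, ?_⟩
      rw [hF, Finset.mem_filter, Finset.mem_powerset]
      exact ⟨Finset.erase_subset _ _, by omega, by omega⟩
  obtain ⟨Q, hQ, hmin⟩ := F.exists_min_image Finset.card hne
  rw [hF, Finset.mem_filter, Finset.mem_powerset] at hQ
  obtain ⟨hQP, hQc, hQA⟩ := hQ
  have hQne : Q.Nonempty := by
    rw [Finset.nonempty_iff_ne_empty]
    rintro rfl
    rw [Finset.sum_empty] at hQA
    omega
  refine ⟨Q, hQP, hQc, Finset.card_pos.mpr hQne, hQA, ?_⟩
  obtain ⟨a, ha⟩ := hQne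
  have h1 := Finset.add_sum_erase Q g ha
  have h2 := hg a (hQP ha)
  have h3 := Finset.card_erase_of_mem ha
  rcases Finset.eq_empty_or_nonempty (Q.erase a) with h4 | ⟨b, hb⟩
  · rw [h4, Finset.sum_empty] at h1
    omega
  · have h5 := Finset.add_sum_erase (Q.erase a) g hb
    have h6 := hg b (hQP (Finset.mem_of_mem_erase hb))
    have h7 := Finset.card_erase_of_mem hb
    have h8 : 1 ≤ (Q.erase a).card := Finset.card_pos.mpr ⟨b, hb⟩
    by_contra hcon
    have h9 : (Q.erase a).erase b ∈ F := by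
      rw [hF, Finset.mem_filter, Finset.mem_powerset]
      refine ⟨((Finset.erase_subset _ _).trans (Finset.erase_subset _ _)).trans hQP, by omega, by omega⟩
    have h10 := hmin _ h9
    omega

/-- an enumeration of a set of indices -/
theorem zsel_enum {r n : ℕ} (Q : Finset (Fin r)) (h : Q.card = n) :
    ∃ e : Fin n → Fin r, Function.Injective e ∧ (∀ k, e k ∈ Q) ∧
      ∀ g : Fin r → ℕ, ∑ k, g (e k) = ∑ i ∈ Q, g i := by
  classical
  refine ⟨Q.orderEmbOfFin h, (Q.orderEmbOfFin h).injective, Q.orderEmbOfFin_mem h, fun g => ?_⟩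
  conv_rhs => rw [← Finset.image_orderEmbOfFin_univ Q h]
  rw [Finset.sum_image (fun a _ b _ hab => (Q.orderEmbOfFin h).injective hab)]

end Pool.Agent.Work.MP_0421d9_ag.LD
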