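import Pool.Agent.Work.MP_0421d9_ag.ZRStrip
import Pool.Agent.Work.MP_0421d9_ag.ZRTrans
import Pool.Agent.Work.MP_0421d9_ag.ZSel
import Pool.Agent.Work.MP_0421d9_ag.ZRWNum
import Pool.Agent.Work.MP_0421d9_ag.MGood
import Pool.Agent.Work.MP_0421d9_ag.ZDefs2

/-!
Strips of rectangles with varying multiplicities (helper63, after the plan of helper69).
-/

namespace Pool.Agent.Work.MP_0421d9_ag.LD

open MvPolynomial Module

theorem zr_mono_right {N H L L' : ℕ} {k : Fin N → ℕ} (h : L ≤ L') : hRm H L k ≤ hRm H L' k := by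
  induction L', h using Nat.le_induction with
  | base => exact le_rfl
  | succ n hn ih =>
    refine ih.trans ?_
    rw [hRm_swap H n, hRm_swap H (n + 1)]
    exact hRm_le_succ n H k

/-- the conditions and the multiplicities of the transform -/
theorem zr_identities {n κ : ℕ} {y k : Fin n → ℕ} (h : ∀ i, y i + k i = κ) :
    ∑ i, y i + ∑ i, k i = n * κ ∧
    ∑ i, (y i + 1).choose 2 + κ * ∑ i, k i + ∑ i, k i =
      n * (κ + 1).choose 2 + ∑ i, (k i + 1).choose 2 ∧
    ∑ i, k i ^ 2 + ∑ i, k i = 2 * ∑ i, (k i + 1).choose 2 := by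
  have hcard : ∀ c : ℕ, ∑ _i : Fin n, c = n * c := fun c => by simp
  refine ⟨?_, ?_, ?_⟩
  · rw [← Finset.sum_add_distrib, ← hcard]
    exact Finset.sum_congr rfl fun i _ => h i
  · rw [← hcard, Finset.mul_sum, ← Finset.sum_add_distrib, ← Finset.sum_add_distrib,
      ← Finset.sum_add_distrib]
    exact Finset.sum_congr rfl fun i _ => mg_choose_sub (h i)
  · rw [Finset.mul_sum, ← Finset.sum_add_distrib]
    refine Finset.sum_congr rfl fun i _ => ?_
    rw [mg_two_choose]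
    ring

theorem zr_pred {n : ℕ} {k : Fin n → ℕ} (h : ∀ i, 1 ≤ k i) :
    ∑ i, (k i - 1) ^ 2 + 3 * ∑ i, k i = 2 * ∑ i, (k i + 1).choose 2 + n := by
  have hcard : ∑ _i : Fin n, 1 = n := by simp
  have h2 : 2 * ∑ i, (k i + 1).choose 2 + n =
      ∑ i, (2 * (k i + 1).choose 2) + ∑ _i : Fin n, 1 := by rw [Finset.mul_sum, hcard]
  rw [h2, Finset.mul_sum, ← Finset.sum_add_distrib, ← Finset.sum_add_distrib]
  refine Finset.sum_congr rfl fun i _ => ?_
  rw [mg_two_choose]
  obtain ⟨w, hw⟩ : ∃ w, k i = w + 1 := ⟨k i - 1, by have := h i; omega⟩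
  rw [hw, Nat.add_sub_cancel]
  ring

/-- the strip, once the points and the height have been chosen -/
theorem zr_strip {T q a p H L r u ω t κ : ℕ} {y : Fin r → ℕ} {e : Fin (2 * t) → Fin r}
    (hW : WinR T q a) (h : RW T q a p L u ω t κ (∑ i, (y (e i) + 1).choose 2))
    (he : Function.Injective e) (hyu : ∀ i, y (e i) ≤ u) (hyl : ∀ i, u ≤ y (e i) + ω)
    (hH : 2 * u + 1 ≤ H) :
    RStep H L κ (max ((κ + 1) * L - ∑ i, (y (e i) + 1).choose 2) (L / 50)) y (rest e y) := by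
  obtain ⟨C, hC⟩ : ∃ C, C = ∑ i, (y (e i) + 1).choose 2 := ⟨_, rfl⟩
  rw [← hC] at h ⊢
  have ht := h.t1'
  have hw := h.D2'
  have hu1 := h.u1
  have hL8 := h.D3'
  have d5 := h.D5
  have d5' := h.D5'
  have hκu := h.κu
  have hd1 := h.D1
  have hκ2 : κ ≤ 2 * u := by omega
  -- the multiplicities of the transform
  obtain ⟨k, hkd⟩ : ∃ k : Fin (2 * t) → ℕ, ∀ i, k i = κ - y (e i) := ⟨_, fun i => rfl⟩
  have hyk : ∀ i, y (e i) + k i = κ := fun i => by
    have := hkd i; have := hyu i; omega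
  have hk1 : ∀ i, 1000 * k i ≤ 2001 * ω := fun i => by
    have := hyk i; have := hyl i; omega
  have hk2 : ∀ i, ω ≤ k i + 1 := fun i => by
    have := hyk i; have := hyu i; omega
  have hcard : ∀ c : ℕ, ∑ _i : Fin (2 * t), c = (2 * t) * c := fun c => by simp
  obtain ⟨i1, i2, i3⟩ := zr_identities hyk
  have i4 := zr_pred (k := k) (fun i => by have := hk2 i; omega)
  obtain ⟨K, hK⟩ : ∃ K, K = ∑ i, k i := ⟨_, rfl⟩
  obtain ⟨S, hS⟩ : ∃ S, S = ∑ i, (k i + 1).choose 2 := ⟨_, rfl⟩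
  obtain ⟨Y, hY⟩ : ∃ Y, Y = ∑ i, y (e i) := ⟨_, rfl⟩
  obtain ⟨Sq, hSq⟩ : ∃ Sq, Sq = ∑ i, k i ^ 2 := ⟨_, rfl⟩
  obtain ⟨Sr, hSr⟩ : ∃ Sr, Sr = ∑ i, (k i - 1) ^ 2 := ⟨_, rfl⟩
  rw [← hK, ← hY] at i1
  rw [← hC, ← hK, ← hS] at i2
  rw [← hK, ← hS, ← hSq] at i3
  rw [← hK, ← hS, ← hSr] at i4
  have hKle : 1000 * K ≤ 4002 * (t * ω) := by
    have h1 : 1000 * K ≤ (2 * t) * (2001 * ω) := by
      rw [hK, Finset.mul_sum, ← hcard]
      exact Finset.sum_le_sum fun i _ => hk1 i
    have e1 : (2 * t) * (2001 * ω) = 4002 * (t * ω) := by ring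
    omega
  have hSle : S ≤ 5 * (t * (ω * ω)) := by
    have h1 : 2 * S ≤ (2 * t) * (5 * (ω * ω)) := by
      rw [hS, Finset.mul_sum, ← hcard]
      refine Finset.sum_le_sum fun i _ => ?_
      rw [mg_two_choose]
      have h2 := hk1 i
      have h3 : (1000 * k i) * (1000 * k i + 1000) ≤ (2001 * ω) * (2001 * ω + 1000) :=
        Nat.mul_le_mul h2 (by omega)
      nlinarith
    have e1 : (2 * t) * (5 * (ω * ω)) = 2 * (5 * (t * (ω * ω))) := by ring
    omega
  have hSge : t * (ω * (ω - 1)) ≤ S := by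
    have h1 : (2 * t) * (ω * (ω - 1)) ≤ 2 * S := by
      rw [hS, Finset.mul_sum, ← hcard]
      refine Finset.sum_le_sum fun i _ => ?_
      rw [mg_two_choose, mul_comm (k i)]
      exact Nat.mul_le_mul (hk2 i) (by have := hk2 i; omega)
    have e1 : (2 * t) * (ω * (ω - 1)) = 2 * (t * (ω * (ω - 1))) := by ring
    omega
  -- the width of the transform
  have hch := mg_two_choose κ
  have e2 : 2 * t * (κ + 1).choose 2 = t * (κ * (κ + 1)) := by
    rw [← hch]; ring
  rw [e2] at i2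
  have hidZ : ((κ : ℤ) + 1) * ((L : ℤ) + κ * t - Y) + C = (κ + 1) * L + S := by
    have j1 : (Y : ℤ) + K = 2 * t * κ := by exact_mod_cast i1
    have j2 : (C : ℤ) + κ * K + K = t * (κ * (κ + 1)) + S := by exact_mod_cast i2
    have j3 : (Y : ℤ) = 2 * t * κ - K := by linarith
    rw [j3]
    linarith
  have hlow := h.Llow hidZ hSge
  obtain ⟨L', hL'⟩ : ∃ L' : ℕ, (L' : ℤ) = (L : ℤ) + κ * t - Y := by
    refine ⟨((L : ℤ) + κ * t - Y).toNat, Int.toNat_of_nonneg ?_⟩
    have : (0 : ℤ) ≤ 19 * (a * ω) := by positivity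
    linarith
  rw [← hL'] at hidZ hlow
  have hid : (κ + 1) * L' + C = (κ + 1) * L + S := by exact_mod_cast hidZ
  have hlow' : 19 * (a * ω) ≤ L' := by exact_mod_cast hlow
  have hLY : L' + Y = L + κ * t := by
    have : (L' : ℤ) + Y = L + κ * t := by linarith
    exact_mod_cast this
  have hLK : L' + κ * t = L + K := by
    have e3 : 2 * t * κ = 2 * (κ * t) := by ring
    omega
  have hLup := h.Lup hid hSle
  have hL1 : 6 * a * (3 * ω + 1) + 1 ≤ L' := by
    have h1 : a * 400000 ≤ a * ω := Nat.mul_le_mul_left _ hw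
    have h2 := h.ha
    have e3 : 6 * a * (3 * ω + 1) + 1 = 18 * (a * ω) + 6 * a + 1 := by ring
    omega
  have hq1 := h.hq_le
  have k1 := h.k1
  have k2 := h.k2
  have hke : (fun i => κ - (y ∘ e) i) = k := funext fun i => (hkd i).symm
  -- the regular rectangle
  have hreg : ∃ L₂ V, L' ≤ L₂ ∧ V + S = (κ + 1) * L₂ ∧ L ≤ 60 * V ∧
      V ≤ max ((κ + 1) * L - C) (L / 50) ∧ 300000 * L₂ ≤ L := by
    rcases Nat.lt_or_ge ((κ + 1) * L') (S + (L / 60 + 1)) with hB | hB
    · obtain ⟨L₂, hL₂⟩ : ∃ L₂, L₂ = (S + (L / 60 + 1)) / (κ + 1) + 1 := ⟨_, rfl⟩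
      have h1 : (κ + 1) * ((S + (L / 60 + 1)) / (κ + 1)) ≤ S + (L / 60 + 1) := Nat.mul_div_le _ _
      have h2 : S + (L / 60 + 1) < (κ + 1) * L₂ := by
        rw [hL₂]
        exact Nat.lt_mul_div_succ _ (by omega)
      have h3 : (κ + 1) * L₂ ≤ S + (L / 60 + 1) + (κ + 1) := by
        rw [hL₂, Nat.mul_add, Nat.mul_one]
        omega
      have h4 : L' ≤ L₂ := by
        have h5 : (κ + 1) * L' ≤ (κ + 1) * L₂ := by omega
        exact Nat.le_of_mul_le_mul_left h5 (by omega)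
      obtain ⟨x, rfl⟩ : ∃ x, L₂ = L' + x := ⟨L₂ - L', by omega⟩
      have h6 : 1000000 * x ≤ (κ + 1) * x := Nat.mul_le_mul_right _ (by omega)
      have h7 : (κ + 1) * (L' + x) = (κ + 1) * L' + (κ + 1) * x := Nat.mul_add _ _ _
      refine ⟨L' + x, (κ + 1) * (L' + x) - S, h4, by omega, by omega, ?_, by omega⟩
      exact le_max_of_le_right (by omega)
    · refine ⟨L', (κ + 1) * L' - S, le_rfl, by omega, by omega, ?_, by omega⟩
      exact le_max_of_le_left (by omega)
  obtain ⟨L₂, V, hr1, hr2, hr3, hr4, hr5⟩ := hreg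
  have hX1 : hRm (κ + 1) L (y ∘ e) ≤ max ((κ + 1) * L - C) (L / 50) := by
    have h1 := transform_rect_m (κ := κ) (L := L) (L' := L') (t := t) (u := y ∘ e) ht
      (fun i => by have := hyk i; simp only [Function.comp]; omega) (by
        rw [← hLY, hY]; rfl)
    rw [hke] at h1
    refine (h1.trans (zr_mono_right hr1)).trans ?_
    have h2 := (hW (2 * t) (3 * ω) (κ + 1) L₂ k (by omega) (fun i => by have := hk1 i; omega)
      (by omega) (by omega)).2
    have h3 := h2 (by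
      rw [← hSq, ← hK]
      exact h.reg hKle i3 hr2 hr3 (by omega) hr5)
    rw [← hS] at h3
    omega
  -- the empty rectangle
  have hX0 : hRm κ L (y ∘ e) = 0 := by
    obtain ⟨κ₀, hκ₀⟩ : ∃ κ₀, κ = κ₀ + 1 := ⟨κ - 1, by omega⟩
    have e3 : κ * t = κ₀ * t + t := by rw [hκ₀]; ring
    rcases Nat.lt_or_ge t L' with htL | htL
    · obtain ⟨L₃, hL₃⟩ : ∃ L₃, L₃ + t = L' := ⟨L' - t, by omega⟩
      have h1 := transform_rect_m (κ := κ₀) (L := L) (L' := L₃) (t := t) (u := y ∘ e) ht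
        (fun i => by have := hyu i; simp only [Function.comp]; omega) (by
          have : ∑ i, (y ∘ e) i = Y := by rw [hY]; rfl
          rw [this]
          omega)
      have e4 : (fun i => κ₀ - (y ∘ e) i) = fun i => k i - 1 := funext fun i => by
        have := hkd i
        simp only [Function.comp]
        omega
      rw [e4, ← hκ₀] at h1
      rw [← Nat.le_zero]
      have hkc : ∀ i, k i - 1 ≤ 3 * ω := fun i => by have := hk1 i; omega
      rcases Nat.lt_or_ge L₃ (6 * a * (3 * ω + 1) + 1) with h5 | h5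
      · refine (h1.trans (zr_mono_right h5.le)).trans (le_of_eq ?_)
        have h6 := (hW (2 * t) (3 * ω) κ (6 * a * (3 * ω + 1) + 1) (fun i => k i - 1) (by omega)
          hkc (by omega) le_rfl).1
        apply h6
        rw [← hSr]
        obtain ⟨w, hw2⟩ : ∃ w, w + 2 = ω := ⟨ω - 2, by omega⟩
        apply h.emp' hw2
        have h7 : (2 * t) * (w * w) ≤ Sr := by
          rw [hSr, ← hcard]
          refine Finset.sum_le_sum fun i _ => ?_
          have h8 := hk2 i
          rw [pow_two]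
          exact Nat.mul_le_mul (by omega) (by omega)
        have e5 : (2 * t) * (w * w) = 2 * (t * (w * w)) := by ring
        omega
      · refine h1.trans (le_of_eq ?_)
        have h6 := (hW (2 * t) (3 * ω) κ L₃ (fun i => k i - 1) (by omega)
          hkc (by omega) h5).1
        apply h6
        rw [← hSr]
        exact h.emp hKle i4 hid hLK hL₃
    · have h1 := transform_rect_empty_m (κ := κ₀) (L := L) (t := t) (u := y ∘ e) ht (by
        have : ∑ i, (y ∘ e) i = Y := by rw [hY]; rfl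
        rw [this]
        omega)
      rwa [← hκ₀] at h1
  exact rect_strip_m e he (by omega) (by omega) (by omega) (max_le (by omega) (by omega)) hX1 hX0

theorem rect_wide {T q a p H L r u : ℕ} (hW : WinR T q a) (hT : 1 ≤ T) (hq : 2 ≤ q) (ha : 2 ≤ a)
    (hp : 40 * q + 4000 ≤ p) (hu : 100 * p ^ 2 ≤ u) (hL : 1000 * a * p * u ≤ L)
    (hTu : u ^ 2 ≤ T * L) {y : Fin r → ℕ} (P : Finset (Fin r))
    (hP : ∀ i ∈ P, y i ≤ u ∧ u ≤ y i + u / p) (hPs : 4 * L ≤ ∑ i ∈ P, y i)
    (hH : 2 * u + 1 ≤ H) : StripOut H L P y u := by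
  classical
  obtain ⟨ω, hω⟩ : ∃ ω, ω = u / p := ⟨_, rfl⟩
  rw [← hω] at hP
  have w1 : p * ω ≤ u := by rw [hω]; exact Nat.mul_div_le u p
  have w2 : u < p * ω + p := by
    have := Nat.lt_mul_div_succ u (by omega : 0 < p)
    rwa [Nat.mul_add, Nat.mul_one, ← hω] at this
  have d1 : 4000 * ω ≤ u := (Nat.mul_le_mul_right _ (by omega)).trans w1
  have hu1 : 1600000000 ≤ u := by
    refine le_trans ?_ hu
    calc 1600000000 = 100 * 4000 ^ 2 := by norm_num
      _ ≤ 100 * p ^ 2 := Nat.mul_le_mul_left _ (Nat.pow_le_pow_left (by omega) 2)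
  have hL8 : 8000000 * u ≤ L := by
    refine le_trans (Nat.mul_le_mul_right _ ?_) hL
    calc 8000000 ≤ 1000 * (2 * 4080) := by norm_num
      _ ≤ 1000 * (a * p) := Nat.mul_le_mul_left _ (Nat.mul_le_mul ha (by omega))
      _ = 1000 * a * p := by ring
  have hcu := mg_two_choose u
  -- enough conditions
  have hsum : (u + ω) * L + (u + 1).choose 2 ≤ ∑ i ∈ P, (y i + 1).choose 2 := by
    have h1 : (u - ω) * (∑ i ∈ P, y i) ≤ 2 * ∑ i ∈ P, (y i + 1).choose 2 := by
      rw [Finset.mul_sum, Finset.mul_sum]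
      refine Finset.sum_le_sum fun i hi => ?_
      rw [mg_two_choose, mul_comm (y i)]
      have := hP i hi
      exact Nat.mul_le_mul_right _ (by omega)
    have h2 : (u - ω) * (4 * L) ≤ (u - ω) * (∑ i ∈ P, y i) := Nat.mul_le_mul_left _ hPs
    have h3 : 2 * ((u + ω) * L) + u * (u + 1) ≤ (u - ω) * (4 * L) := by
      obtain ⟨v, hv⟩ : ∃ v, u = v + ω := ⟨u - ω, by omega⟩
      have e1 : u - ω = v := by omega
      rw [e1]
      have h4 : u * (u + 1) ≤ u * L := Nat.mul_le_mul_left _ (by omega)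
      have h5 : (3 * u + 2 * ω) * L ≤ (4 * v) * L := Nat.mul_le_mul_right _ (by omega)
      have e2 : (3 * u + 2 * ω) * L = 2 * ((u + ω) * L) + u * L := by ring
      have e3 : (4 * v) * L = v * (4 * L) := by ring
      omega
    omega
  obtain ⟨Q, hQP, hQc, -, hQ1, hQ2⟩ := zsel_pick P (fun i => (y i + 1).choose 2)
    (w := (u + 1).choose 2) (A := (u + ω) * L) (par := 0) (by norm_num)
    (fun i hi => Nat.choose_le_choose 2 (by have := hP i hi; omega)) hsum
    (Nat.mul_pos (by omega) (by omega))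
  obtain ⟨t, ht⟩ : ∃ t, Q.card = 2 * t := ⟨Q.card / 2, by omega⟩
  obtain ⟨e, he, heQ, hes⟩ := zsel_enum Q ht
  have hC := hes (fun i => (y i + 1).choose 2)
  have hY := hes y
  obtain ⟨C, hCd⟩ : ∃ C, C = ∑ i, (y (e i) + 1).choose 2 := ⟨_, rfl⟩
  rw [← hC, ← hCd] at hQ1 hQ2
  have hyu : ∀ i, y (e i) ≤ u := fun i => (hP _ (hQP (heQ i))).1
  have hyl : ∀ i, u ≤ y (e i) + ω := fun i => (hP _ (hQP (heQ i))).2
  have hcard : ∀ c : ℕ, ∑ _i : Fin (2 * t), c = (2 * t) * c := fun c => by simp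
  -- the height
  obtain ⟨z, hz⟩ : ∃ z, z = (100 * C + 99 * L) / (100 * L) := ⟨_, rfl⟩
  have z1 : 100 * L * z ≤ 100 * C + 99 * L := by rw [hz]; exact Nat.mul_div_le _ _
  have z2 : 100 * C + 99 * L < 100 * L * z + 100 * L := by
    have := Nat.lt_mul_div_succ (100 * C + 99 * L) (by omega : 0 < 100 * L)
    rwa [Nat.mul_add, Nat.mul_one, ← hz] at this
  have z3 : 1 ≤ z := by
    by_contra hcon
    have hz0 : z = 0 := by omega
    rw [hz0, Nat.mul_zero] at z2
    have : L ≤ (u + ω) * L := Nat.le_mul_of_pos_left _ (by omega)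
    omega
  obtain ⟨κ, rfl⟩ : ∃ κ, z = κ + 1 := ⟨z - 1, by omega⟩
  have e1 : 100 * L * (κ + 1) = 100 * ((κ + 1) * L) := by ring
  rw [e1] at z1 z2
  have hRW : RW T q a p L u ω t κ (∑ i, (y (e i) + 1).choose 2) := by
    rw [← hCd]
    refine ⟨hT, hq, ha, hp, hu, hL, hTu, w1, w2, hQ1, by omega, ?_, ?_, by omega, by omega⟩
    · have h1 : C ≤ (2 * t) * (u + 1).choose 2 := by
        rw [hCd, ← hcard]
        exact Finset.sum_le_sum fun i _ => Nat.choose_le_choose 2 (by have := hyu i; omega)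
      calc C ≤ (2 * t) * (u + 1).choose 2 := h1
        _ = t * (2 * (u + 1).choose 2) := by ring
        _ = t * (u * (u + 1)) := by rw [hcu]
    · intro v hv
      have h1 : (2 * t) * (v + 1).choose 2 ≤ C := by
        rw [hCd, ← hcard]
        exact Finset.sum_le_sum fun i _ => Nat.choose_le_choose 2 (by have := hyl i; omega)
      calc t * (v * (v + 1)) = t * (2 * (v + 1).choose 2) := by rw [mg_two_choose]
        _ = (2 * t) * (v + 1).choose 2 := by ring
        _ ≤ C := h1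
  have hstrip := zr_strip hW hRW he hyu hyl hH
  rw [← hCd] at hstrip
  have hκu : 1000 * (κ + 1) ≤ 1001 * u := hRW.κu
  have hS1 : 2 * L ≤ ∑ i, y (e i) := by
    have h1 : 2 * C ≤ (u + 1) * ∑ i, y (e i) := by
      rw [hCd, Finset.mul_sum, Finset.mul_sum]
      refine Finset.sum_le_sum fun i _ => ?_
      rw [mg_two_choose, mul_comm (y (e i))]
      exact Nat.mul_le_mul_right _ (by have := hyu i; omega)
    have h2 : (u + 1) * (2 * L) ≤ (u + 1) * ∑ i, y (e i) := by
      have h3 : (u + 1) * L ≤ (u + ω) * L := Nat.mul_le_mul_right _ (by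
        have := hRW.D2'; omega)
      have e2 : (u + 1) * (2 * L) = 2 * ((u + 1) * L) := by ring
      omega
    exact Nat.le_of_mul_le_mul_left h2 (by omega)
  refine ⟨κ, _, rest e y, C, ∑ i, y (e i), hstrip, fun i hi => ?_, ?_, ?_, by omega, ?_, by omega,
    ?_⟩
  · apply rest_not_mem
    rintro ⟨j, rfl⟩
    exact hi (hQP (heQ j))
  · have h1 := mp_sum_rest he y (fun b => (b + 1).choose 2) (by decide)
    rw [hCd]
    omega
  · have h1 := mp_sum_rest he y (fun b => b) rfl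
    omega
  · have h1 : max ((κ + 1) * L - C) (L / 50) ≤ (κ + 1) * L - C + L / 50 := by
      apply max_le <;> omega
    rcases Nat.lt_or_ge (L / 50) ((κ + 1) * L - C) with h2 | h2
    · rw [max_eq_left h2.le]
      omega
    · rw [max_eq_right h2]
      omega
  · have : L ≤ (u + ω) * L := Nat.le_mul_of_pos_left _ (by omega)
    omega

end Pool.Agent.Work.MP_0421d9_ag.LD
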