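import Pool.Agent.Work.MP_0421d9_ag.ZRPath
import Pool.Agent.Work.MP_0421d9_ag.ZPool
import Pool.Agent.Work.MP_0421d9_ag.ZRSmall
import Pool.Agent.Work.MP_0421d9_ag.ZRWide

/-!
Arbitrary multiplicities in degree at least `C M ^ (1 + ε)`: the induction step for rectangles.
-/

namespace Pool.Agent.Work.MP_0421d9_ag.LD

open MvPolynomial Module

theorem ER_step {T q a p U J qp ap Tp : ℕ} (hW : WinR T q a) (hT : 1 ≤ T) (hq : 2 ≤ q)
    (ha : 2 ≤ a) (hp : 40 * q + 4000 ≤ p) (hU : U = 100 * p ^ 2)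
    (hJ : U + p * (Nat.log 2 (Tp + 1) + 2) + 2 ≤ J) (hqp : 10 ^ 5 * J + 10 ^ 6 * q ≤ qp)
    (hap : 1000 * a * p + 200 * p ^ 2 ≤ ap) (hTp : Tp ≤ T * ap) : ER Tp qp ap := by
  obtain ⟨P, hP⟩ := exists_pools p U Tp (by omega)
  have hP' : Pools P p U Tp J :=
    ⟨hP.mono, hP.width, hP.small, fun v hv => (hP.count v hv).trans_le hJ⟩
  exact ER_step_of hW hT hq ha hp hU hP' hqp hap hTp
    (fun H L r v y Q h1 h2 h3 h4 h5 => rect_small Q h1 h2 h3 h4 h5)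
    (fun H L r u y Q h1 h2 h3 h4 h5 h6 => rect_wide hW hT hq ha hp h1 h2 h3 Q h4 h5 h6)

end Pool.Agent.Work.MP_0421d9_ag.LD
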