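import Pool.Agent.Work.MP_0421d9_ag.ZWinP

/-!
The windows for rectangles.
-/

namespace Pool.Agent.Work.MP_0421d9_ag.LD

open MvPolynomial Module

/-- the line through two points -/
theorem exists_line_P2 {x y : Fin 2 → ℂ} (hxy : x ≠ y) : ∃ ℓ : P2, ℓ ≠ 0 ∧ ℓ.totalDegree ≤ 1 ∧
    Vq x ℓ 1 ∧ Vq y ℓ 1 := by
  set ℓ : P2 := C (y 1 - x 1) * (X 0 - C (x 0)) - C (y 0 - x 0) * (X 1 - C (x 1)) with hℓ
  have hx : Vq x ℓ 1 := ((vq_X_sub x 0).mul_left _).sub ((vq_X_sub x 1).mul_left _)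
  have e1 : ℓ = C (y 1 - x 1) * (X 0 - C (y 0)) - C (y 0 - x 0) * (X 1 - C (y 1)) := by
    rw [hℓ]
    simp only [C_sub]
    ring
  have hy : Vq y ℓ 1 := by
    rw [e1]
    exact ((vq_X_sub y 0).mul_left _).sub ((vq_X_sub y 1).mul_left _)
  refine ⟨ℓ, ?_, ?_, hx, hy⟩
  · intro h0
    apply hxy
    have hc0 : coeff (Finsupp.single 0 1) ℓ = y 1 - x 1 := by
      rw [hℓ]
      simp only [coeff_sub, coeff_C_mul]
      have h1 : coeff (Finsupp.single 0 1) (X 0 : P2) = 1 := by rw [coeff_X, if_pos rfl]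
      have h2 : coeff (Finsupp.single 0 1) (X 1 : P2) = 0 := by
        rw [coeff_X]
        rw [if_neg]
        intro h
        have := DFunLike.congr_fun h 0
        simp at this
      have h3 : ∀ z : ℂ, coeff (Finsupp.single 0 1) (C z : P2) = 0 := by
        intro z
        rw [coeff_C]
        rw [if_neg]
        intro h
        have := DFunLike.congr_fun h 0
        simp at this
      rw [h1, h2, h3, h3]
      ring
    have hc1 : coeff (Finsupp.single 1 1) ℓ = -(y 0 - x 0) := by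
      rw [hℓ]
      simp only [coeff_sub, coeff_C_mul]
      have h1 : coeff (Finsupp.single 1 1) (X 1 : P2) = 1 := by rw [coeff_X, if_pos rfl]
      have h2 : coeff (Finsupp.single 1 1) (X 0 : P2) = 0 := by
        rw [coeff_X]
        rw [if_neg]
        intro h
        have := DFunLike.congr_fun h 0
        simp at this
      have h3 : ∀ z : ℂ, coeff (Finsupp.single 1 1) (C z : P2) = 0 := by
        intro z
        rw [coeff_C]
        rw [if_neg]
        intro h
        have := DFunLike.congr_fun h 1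
        simp at this
      rw [h1, h2, h3, h3]
      ring
    rw [h0, coeff_zero] at hc0 hc1
    funext l
    fin_cases l
    · change x 0 = y 0
      linear_combination -hc1
    · change x 1 = y 1
      linear_combination hc0
  · have hX : ∀ (l : Fin 2) (z w : ℂ), (C z * (X l - C w) : P2).totalDegree ≤ 1 := by
      intro l z w
      refine (totalDegree_mul _ _).trans ?_
      rw [totalDegree_C, zero_add]
      refine (totalDegree_sub _ _).trans ?_
      rw [totalDegree_X, totalDegree_C]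
      simp
    refine (totalDegree_sub _ _).trans ?_
    exact max_le (hX _ _ _) (hX _ _ _)

/-- an irreducible curve through two points: either it is the line, or the line shows that the
sum of the multiplicities is at most the degree -/
theorem line_dich {ι : Type} [Fintype ι] {x : ι → Fin 2 → ℂ} (hx : Function.Injective x)
    (hm : Movable x) {b : P2} (hb : Irreducible b) {i j : ι} (hij : i ≠ j) {ℓ : P2} (hℓ : ℓ ≠ 0)
    (hd : ℓ.totalDegree ≤ 1) (hi : Vq (x i) ℓ 1) (hj : Vq (x j) ℓ 1) :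
    mu (x i) b + mu (x j) b ≤ b.totalDegree ∨
      (b.totalDegree = 1 ∧ mu (x i) b = 1 ∧ mu (x j) b = 1 ∧
        ∀ l, l ≠ i → l ≠ j → mu (x l) b = 0) := by
  classical
  have hi' := (vq_iff hℓ).1 hi
  have hj' := (vq_iff hℓ).1 hj
  by_cases hdvd : b ∣ ℓ
  · right
    obtain ⟨u, hu⟩ := hdvd
    have hu0 : u ≠ 0 := by
      rintro rfl
      exact hℓ (by rw [hu, mul_zero])
    have h1 := totalDegree_mul' hb.ne_zero hu0
    rw [← hu] at h1
    have h2 := deg_pos hb
    have h3 : u.totalDegree = 0 := by omega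
    have h4 : b.totalDegree = 1 := by omega
    have h5 : ∀ l, mu (x l) b = mu (x l) ℓ := by
      intro l
      have := mu_le_totalDegree (x l) hu0
      rw [hu, mu_mul hb.ne_zero hu0]
      omega
    have h6 := mu_le_totalDegree (x i) hb.ne_zero
    have h7 := mu_le_totalDegree (x j) hb.ne_zero
    have h8 : mu (x i) b = 1 := by
      have := h5 i
      omega
    have h9 : mu (x j) b = 1 := by
      have := h5 j
      omega
    refine ⟨h4, h8, h9, ?_⟩
    intro l hli hlj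
    by_contra hne
    have h10 := xu hx hm hb (i := l) (Nat.one_le_iff_ne_zero.2 hne)
    have h11 : mu (x i) b ^ 2 + (mu (x j) b ^ 2 + mu (x l) b ^ 2) ≤ ∑ t, mu (x t) b ^ 2 := by
      have h12 : ∑ t ∈ {i, j, l}, mu (x t) b ^ 2 ≤ ∑ t, mu (x t) b ^ 2 :=
        Finset.sum_le_sum_of_subset (Finset.subset_univ _)
      rw [Finset.sum_insert, Finset.sum_insert, Finset.sum_singleton] at h12
      · exact h12
      · simpa using hlj.symm
      · simp only [Finset.mem_insert, Finset.mem_singleton, not_or]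
        exact ⟨hij, hli.symm⟩
    rw [h8, h9] at h11
    rw [h4] at h10
    have h13 : 1 ≤ mu (x l) b := Nat.one_le_iff_ne_zero.2 hne
    nlinarith
  · left
    have hrel : IsRelPrime b ℓ := (hb.isRelPrime_iff_not_dvd).2 hdvd
    have h1 := bezout hx hb.ne_zero hℓ hrel
    have h2 : mu (x i) b * mu (x i) ℓ + mu (x j) b * mu (x j) ℓ ≤
        ∑ t, mu (x t) b * mu (x t) ℓ := by
      have h12 : ∑ t ∈ {i, j}, mu (x t) b * mu (x t) ℓ ≤ ∑ t, mu (x t) b * mu (x t) ℓ :=
        Finset.sum_le_sum_of_subset (Finset.subset_univ _)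
      rw [Finset.sum_insert, Finset.sum_singleton] at h12
      · exact h12
      · simpa using hij
    have h3 : b.totalDegree * ℓ.totalDegree ≤ b.totalDegree * 1 := Nat.mul_le_mul_left _ hd
    have h4 : mu (x i) b * 1 ≤ mu (x i) b * mu (x i) ℓ := Nat.mul_le_mul_left _ hi'
    have h5 : mu (x j) b * 1 ≤ mu (x j) b * mu (x j) ℓ := Nat.mul_le_mul_left _ hj'
    omega

/-! ### the core -/

section core

variable {T q a N : ℕ}

theorem rect_core (h : ER T q a) (hq : 2 ≤ q) (ha : 2 ≤ a) {b : P2} (hb : Irreducible b)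
    {A B K k₀ : ℕ} {k : Fin N → ℕ} (hK : 1 ≤ K) (hk : ∀ i, k i ≤ K) (hk₀ : k₀ ≤ 1)
    (hA : 6 * q * K ≤ A) (hB : 6 * a * K ≤ B) {e μ₀ μ₁ : ℕ} {c : Fin N → ℕ}
    (he : e = b.totalDegree) (hμ₀ : μ₀ = mu (aff (gpt (N + 2)) 0) b)
    (hμ₁ : μ₁ = mu (aff (gpt (N + 2)) 1) b)
    (hc : c = fun i : Fin N => mu (aff (gpt (N + 2)) i.succ.succ) b)
    (hy : (A + B) * e + k₀ * (μ₀ + μ₁) < A * μ₀ + B * μ₁ + k₀ * e + ∑ i, k i * c i)
    {L₂ : ℤ} (hL₂ : L₂ = 2 * (A * B : ℕ) - (k₀ : ℤ) ^ 2 - ∑ i, (k i : ℤ) ^ 2)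
    (hcase : (0 ≤ L₂ ∧ (4 * K + 2) * k₀ ≤ L₂) ∨
      (k₀ = 0 ∧ ((B : ℤ) * (e - μ₁) + A * (e - μ₀)) * (-L₂) ≤
        2 * (A * B : ℕ) * (∑ i, (k i : ℤ) * c i - (B * (e - μ₁) + A * (e - μ₀))))) :
    ((T : ℤ) + 1) * |L₂| ≤ 6 * K ^ 2 := by
  have hgen := gpt_generic (N + 2)
  set x := aff (gpt (N + 2)) with hx
  have hinj : Function.Injective x := aff_injective hgen
  have hmov : Movable x := aff_movable hgen
  have h01 : (0 : Fin (N + 2)) ≠ 1 := by
    intro h
    have := congrArg Fin.val h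
    simp at this
  obtain ⟨ℓ, hℓ, hℓd, hℓ0, hℓ1⟩ := exists_line_P2 (hinj.ne h01)
  have he1 : 1 ≤ e := he ▸ deg_pos hb
  have hμ₀e : μ₀ ≤ e := by rw [hμ₀, he]; exact mu_le_totalDegree _ hb.ne_zero
  have hμ₁e : μ₁ ≤ e := by rw [hμ₁, he]; exact mu_le_totalDegree _ hb.ne_zero
  have h12A : 12 * K ≤ A := by nlinarith
  have h12B : 12 * K ≤ B := by nlinarith
  -- the curve is not the line
  have hsum : μ₀ + μ₁ ≤ e := by
    rcases line_dich hinj hmov hb h01 hℓ hℓd hℓ0 hℓ1 with h1 | ⟨h1, h2, h3, h4⟩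
    · rw [hμ₀, hμ₁, he]; exact h1
    · exfalso
      have e1 : e = 1 := he.trans h1
      have e2 : μ₀ = 1 := hμ₀.trans h2
      have e3 : μ₁ = 1 := hμ₁.trans h3
      have e4 : ∑ i, k i * c i = 0 := by
        apply Finset.sum_eq_zero
        intro i _
        have h5 : c i = 0 := by
          rw [hc]
          apply h4
          · exact Fin.succ_ne_zero _
          · intro h6
            have := congrArg Fin.val h6
            simp at this
        rw [h5, mul_zero]
      rw [e4, e1, e2, e3] at hy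
      omega
  obtain ⟨s, hs⟩ : ∃ s, s + μ₁ = e := ⟨e - μ₁, by omega⟩
  obtain ⟨s', hs'⟩ : ∃ s', s' + μ₀ = e := ⟨e - μ₀, by omega⟩
  obtain ⟨c₀, hc₀⟩ : ∃ c₀, c₀ + μ₀ + μ₁ = e := ⟨e - μ₀ - μ₁, by omega⟩
  have hXu : ∀ i, 1 ≤ c i → ∑ j, c j ^ 2 + c₀ ^ 2 ≤ 2 * (s * s') + c i := by
    intro i hi
    rw [hc] at hi
    have h1 := xu hinj hmov hb hi
    rw [Fin.sum_univ_succ, Fin.sum_univ_succ] at h1
    have h2 : mu (x 0) b ^ 2 + (mu (x (Fin.succ 0)) b ^ 2 +
        ∑ j : Fin N, mu (x j.succ.succ) b ^ 2) ≤ b.totalDegree ^ 2 + mu (x i.succ.succ) b := h1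
    have e1 : mu (x (Fin.succ 0)) b = μ₁ := hμ₁.symm
    have e2 : ∀ j : Fin N, mu (x j.succ.succ) b = c j := fun j => by rw [hc]
    rw [← hμ₀, e1, ← he, e2] at h2
    simp only [e2] at h2
    have h3 : e ^ 2 + c₀ ^ 2 = 2 * (s * s') + μ₀ ^ 2 + μ₁ ^ 2 := by
      have e3 : (s : ℤ) = e - μ₁ := by have := hs; push_cast [← this]; ring
      have e4 : (s' : ℤ) = e - μ₀ := by have := hs'; push_cast [← this]; ring
      have e5 : (c₀ : ℤ) = e - μ₀ - μ₁ := by have := hc₀; push_cast [← this]; ring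
      have : ((e ^ 2 + c₀ ^ 2 : ℕ) : ℤ) = ((2 * (s * s') + μ₀ ^ 2 + μ₁ ^ 2 : ℕ) : ℤ) := by
        push_cast
        rw [e3, e4, e5]
        ring
      exact_mod_cast this
    omega
  obtain ⟨v, hv⟩ : ∃ v, v = B * s + A * s' := ⟨_, rfl⟩
  have hvz : (v : ℤ) = B * (e - μ₁) + A * (e - μ₀) := by
    have e3 : (e : ℤ) - μ₁ = s := by have := hs; push_cast [← this]; ring
    have e4 : (e : ℤ) - μ₀ = s' := by have := hs'; push_cast [← this]; ring
    rw [hv, e3, e4]
    push_cast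
    ring
  have hyv : v < ∑ i, k i * c i + k₀ * c₀ := by
    have h1 : ((v : ℕ) : ℤ) < ((∑ i, k i * c i + k₀ * c₀ : ℕ) : ℤ) := by
      have h2 : (((A + B) * e + k₀ * (μ₀ + μ₁) : ℕ) : ℤ) <
          ((A * μ₀ + B * μ₁ + k₀ * e + ∑ i, k i * c i : ℕ) : ℤ) := by exact_mod_cast hy
      have e5 : (c₀ : ℤ) = e - μ₀ - μ₁ := by have := hc₀; push_cast [← this]; ring
      rw [hvz]
      push_cast at h2 ⊢
      rw [e5]
      nlinarith
    exact_mod_cast h1
  have hcase' : (0 ≤ L₂ ∧ (4 * K + 2) * k₀ ≤ L₂) ∨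
      (k₀ = 0 ∧ (v : ℤ) * (-L₂) ≤ 2 * (A * B : ℕ) * (∑ i, (k i : ℤ) * c i - v)) := by
    rw [hvz]
    exact hcase
  obtain ⟨n1, n2, n3, n4, n5⟩ := num_rect (k := k) (c := c) (a := A) (b := B) (s := s) (s' := s')
    (c₀ := c₀) (k₀ := k₀) (K := K) (v := v) hK hk h12A h12B hk₀ (by omega) (by omega) hXu hv hyv
    hL₂ hcase'
  by_cases hT : ∀ i, c i ≤ T
  · exfalso
    set cm := Finset.univ.sup c with hcm
    have hle : ∀ i, c i ≤ cm := fun i => Finset.le_sup (Finset.mem_univ i)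
    have hcmT : cm ≤ T := Finset.sup_le fun i _ => hT i
    have hcm1 : 1 ≤ cm := by
      by_contra h0
      have h0' : cm = 0 := by omega
      have h3 : ∑ i, k i * c i = 0 := by
        apply Finset.sum_eq_zero
        intro i _
        have := hle i
        have h4 : c i = 0 := by omega
        rw [h4, mul_zero]
      have h4 : k₀ * c₀ ≤ 1 * c₀ := Nat.mul_le_mul_right _ hk₀
      have h5 : 1 * s ≤ B * s := Nat.mul_le_mul_right _ (by omega)
      have h6 : 1 * s' ≤ A * s' := Nat.mul_le_mul_right _ (by omega)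
      omega
    have hex : ∃ i, c i = cm := by
      have hne : (Finset.univ : Finset (Fin N)).Nonempty := by
        by_contra hemp
        rw [Finset.not_nonempty_iff_eq_empty] at hemp
        rw [hemp] at hcm
        simp at hcm
        omega
      obtain ⟨i, -, hi⟩ := Finset.exists_mem_eq_sup _ hne c
      exact ⟨i, hi.symm⟩
    obtain ⟨i0, hi0⟩ := hex
    have hAB : 0 < A ∧ 0 < B := ⟨by omega, by omega⟩
    have h3 := n1 i0
    rw [hi0] at h3
    have hqs : q * cm ≤ s := by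
      have h4 : 2 * (A * B) * cm ≤ 3 * K * (4 * (B * s)) :=
        h3.trans (Nat.mul_le_mul_left _ n3)
      have h5 : (2 * B) * (A * cm) ≤ (2 * B) * (6 * K * s) := by nlinarith
      have h6 : A * cm ≤ 6 * K * s := Nat.le_of_mul_le_mul_left h5 (by omega)
      have h7 : 6 * q * K * cm ≤ A * cm := Nat.mul_le_mul_right _ hA
      have h8 : (6 * K) * (q * cm) ≤ (6 * K) * s := by nlinarith
      exact Nat.le_of_mul_le_mul_left h8 (by omega)
    have has : a * cm ≤ s' := by
      have h4 : 2 * (A * B) * cm ≤ 3 * K * (4 * (A * s')) :=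
        h3.trans (Nat.mul_le_mul_left _ n4)
      have h5 : (2 * A) * (B * cm) ≤ (2 * A) * (6 * K * s') := by nlinarith
      have h6 : B * cm ≤ 6 * K * s' := Nat.le_of_mul_le_mul_left h5 (by omega)
      have h7 : 6 * a * K * cm ≤ B * cm := Nat.mul_le_mul_right _ hB
      have h8 : (6 * K) * (a * cm) ≤ (6 * K) * s' := by nlinarith
      exact Nat.le_of_mul_le_mul_left h8 (by omega)
    have h4 := h N cm (s + 1) (s' + 1) c hcm1 hcmT hle (by omega) (by omega)
      (by simpa using n5)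
    rw [hRm_eq_plane c (by omega) (by omega)] at h4
    have h5 : 1 ≤ hPm (s + 1 + (s' + 1) - 2)
        (Fin.cons (s + 1 - 1) (Fin.cons (s' + 1 - 1) c) : Fin (N + 2) → ℕ) := by
      apply one_le_hPm (b := b * ℓ ^ c₀) (mul_ne_zero hb.ne_zero (pow_ne_zero _ hℓ))
      · refine (totalDegree_mul _ _).trans ?_
        have h6 := totalDegree_pow ℓ c₀
        have h7 : c₀ * ℓ.totalDegree ≤ c₀ * 1 := Nat.mul_le_mul_left _ hℓd
        rw [← he]
        omega
      · intro i
        refine Fin.cases ?_ (fun i => Fin.cases ?_ (fun i => ?_) i) i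
        · rw [Fin.cons_zero]
          have h6 : Vq (x 0) (b * ℓ ^ c₀) (μ₀ + c₀ * 1) := by
            rw [hμ₀]
            exact (vq_mu _ hb.ne_zero).mul (hℓ0.pow c₀)
          exact h6.mono (by omega)
        · rw [Fin.cons_succ, Fin.cons_zero]
          have h6 : Vq (x 1) (b * ℓ ^ c₀) (μ₁ + c₀ * 1) := by
            rw [hμ₁]
            exact (vq_mu _ hb.ne_zero).mul (hℓ1.pow c₀)
          exact h6.mono (by omega)
        · rw [Fin.cons_succ, Fin.cons_succ, hc]
          exact (vq_mu _ hb.ne_zero).mul_right _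
    omega
  · push Not at hT
    obtain ⟨i0, hi0⟩ := hT
    have h3 := n1 i0
    have h4 : 2 * (A * B) * (T + 1) ≤ 3 * K * v := (Nat.mul_le_mul_left _ hi0).trans h3
    have h5 : 2 * ((A * B : ℕ) : ℤ) * (T + 1) ≤ 3 * K * v := by exact_mod_cast h4
    have hABpos : (0 : ℤ) < ((A * B : ℕ) : ℤ) := by
      have : 0 < A * B := Nat.mul_pos (by omega) (by omega)
      exact_mod_cast this
    have hM := abs_nonneg L₂
    generalize |L₂| = M at *
    generalize ((A * B : ℕ) : ℤ) = P at *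
    have h6 : (2 * P) * (((T : ℤ) + 1) * M) ≤ (2 * P) * (6 * K ^ 2) := by
      have h7 := mul_le_mul_of_nonneg_right h5 hM
      have h8 : (3 * (K : ℤ)) * (v * M) ≤ 3 * K * (4 * K * P) :=
        mul_le_mul_of_nonneg_left n2 (by positivity)
      nlinarith
    exact le_of_mul_le_mul_left h6 (by linarith)

end core

theorem winR_of_ER {T q a : ℕ} (hT : 1 ≤ T) (hq : 2 ≤ q) (ha : 2 ≤ a) (h : ER T q a) :
    WinR T q a := by
  intro N c H L k hc hk hH hL
  have hgen := gpt_generic (N + 2)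
  obtain ⟨A, rfl⟩ : ∃ A, H = A + 1 := ⟨H - 1, by omega⟩
  obtain ⟨B, rfl⟩ : ∃ B, L = B + 1 := ⟨L - 1, by omega⟩
  have hA : 6 * q * (c + 1) ≤ A := by omega
  have hB : 6 * a * (c + 1) ≤ B := by omega
  have hA' : 6 * q * c ≤ A := by nlinarith
  have hB' : 6 * a * c ≤ B := by nlinarith
  have hA12 : 12 * (c + 1) ≤ A := by nlinarith
  have hB12 : 12 * (c + 1) ≤ B := by nlinarith
  have e1 : A + 1 - 1 = A := rfl
  have e2 : B + 1 - 1 = B := rfl
  have e3 : A + 1 + (B + 1) - 2 = A + B := by omega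
  have hplane := hRm_eq_plane (H := A + 1) (L := B + 1) k (by omega) (by omega)
  rw [e1, e2, e3] at hplane
  rw [e1, e2]
  set m : Fin (N + 2) → ℕ := Fin.cons A (Fin.cons B k) with hm
  set x := aff (gpt (N + 2)) with hx
  have m0 : m 0 = A := rfl
  have m1 : m (Fin.succ 0) = B := rfl
  have m2 : ∀ i : Fin N, m i.succ.succ = k i := fun i => rfl
  -- sums
  have S : ∀ F : Fin (N + 2) → ℕ, ∑ i, F i = F 0 + (F 1 + ∑ i : Fin N, F i.succ.succ) := by
    intro F
    rw [Fin.sum_univ_succ, Fin.sum_univ_succ]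
    rfl
  constructor
  · intro hyp
    by_contra hne
    rw [hplane] at hne
    obtain ⟨f, hf, hfV⟩ := exists_of_hPm hne
    have hL2 : 2 * (A * B) < ∑ i, k i ^ 2 := by
      by_contra hcon
      have h1 : T * ∑ i, k i ^ 2 ≤ T * (2 * (A * B)) := Nat.mul_le_mul_left _ (not_lt.1 hcon)
      have h2 : 1 ≤ c ^ 2 := Nat.one_le_pow _ _ hc
      omega
    have hLD : (A + B) ^ 2 < ∑ i, m i ^ 2 := by
      rw [S]
      have h1 : m 0 ^ 2 + (m 1 ^ 2 + ∑ i : Fin N, m i.succ.succ ^ 2) =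
          A ^ 2 + (B ^ 2 + ∑ i, k i ^ 2) := rfl
      rw [h1]
      nlinarith
    have hAB : (0 : ℝ) < 2 * (A * B) := by
      have h1 : 0 < A := by omega
      have h2 : 0 < B := by omega
      have h1' : (0 : ℝ) < A := by exact_mod_cast h1
      have h2' : (0 : ℝ) < B := by exact_mod_cast h2
      positivity
    set φ : P2 → ℝ := fun g => ((B : ℝ) * ((g.totalDegree : ℝ) - mu (x 1) g) +
      A * ((g.totalDegree : ℝ) - mu (x 0) g)) / (2 * (A * B)) with hφ
    have hmu : ∀ (y : Fin 2 → ℂ) (g : P2), g ≠ 0 → (mu y g : ℝ) ≤ g.totalDegree := by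
      intro y g hg
      exact_mod_cast mu_le_totalDegree y hg
    obtain ⟨b, hb, hbf, hy, hphi⟩ := exists_neg (φ := φ) hf hfV
      (by
        intro g h' hg hh
        simp only [hφ]
        rw [totalDegree_mul' hg hh, mu_mul hg hh, mu_mul hg hh, ← add_div]
        push_cast
        ring)
      (by
        intro g hg
        have h0 : g.totalDegree = 0 :=
          (MvPolynomial.isUnit_iff_totalDegree_of_isReduced.1 hg).2
        have hg0 : g ≠ 0 := hg.ne_zero
        have h1 := mu_le_totalDegree (x 0) hg0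
        have h2 := mu_le_totalDegree (x 1) hg0
        have h3 : mu (x 0) g = 0 := by omega
        have h4 : mu (x 1) g = 0 := by omega
        simp only [hφ]
        rw [h0, h3, h4]
        simp)
      (by
        intro b hb _
        simp only [hφ]
        have h1 := hmu (x 0) b hb.ne_zero
        have h2 := hmu (x 1) b hb.ne_zero
        apply div_nonneg _ hAB.le
        have h3 : (0 : ℝ) ≤ A := by positivity
        have h4 : (0 : ℝ) ≤ B := by positivity
        nlinarith [mul_nonneg h3 (sub_nonneg.2 h1), mul_nonneg h4 (sub_nonneg.2 h2)])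
      (by
        simp only [hφ]
        rw [div_le_one hAB]
        have h1 : (f.totalDegree : ℝ) ≤ A + B := by exact_mod_cast hfV.1
        have h2 : (A : ℝ) ≤ mu (x 0) f := by exact_mod_cast (vq_iff hf).1 (hfV.2 0)
        have h3 : (B : ℝ) ≤ mu (x 1) f := by exact_mod_cast (vq_iff hf).1 (hfV.2 1)
        have h4 : (B : ℝ) * ((f.totalDegree : ℝ) - mu (x 1) f) ≤ B * A :=
          mul_le_mul_of_nonneg_left (by linarith) (by positivity)
        have h5 : (A : ℝ) * ((f.totalDegree : ℝ) - mu (x 0) f) ≤ A * B :=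
          mul_le_mul_of_nonneg_left (by linarith) (by positivity)
        linarith)
      hLD
    set e := b.totalDegree with he
    set μ₀ := mu (x 0) b with hμ₀
    set μ₁ := mu (x 1) b with hμ₁
    set cc : Fin N → ℕ := fun i => mu (x i.succ.succ) b with hcc
    have hy' : (A + B) * e < A * μ₀ + (B * μ₁ + ∑ i, k i * cc i) := by
      rw [S] at hy
      exact hy
    have hr1 : (∑ i, (m i : ℝ) ^ 2) = (A : ℝ) ^ 2 + ((B : ℝ) ^ 2 + ∑ i, (k i : ℝ) ^ 2) := by
      rw [Fin.sum_univ_succ, Fin.sum_univ_succ]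
      rfl
    have hr2 : (∑ i, (m i : ℝ) * mu (x i) b) =
        (A : ℝ) * μ₀ + ((B : ℝ) * μ₁ + ∑ i, (k i : ℝ) * cc i) := by
      rw [Fin.sum_univ_succ, Fin.sum_univ_succ]
      rfl
    rw [hr1, hr2] at hphi
    have hcase : ((B : ℤ) * (e - μ₁) + A * (e - μ₀)) *
        (-(2 * (A * B : ℕ) - ((0 : ℕ) : ℤ) ^ 2 - ∑ i, (k i : ℤ) ^ 2)) ≤
        2 * (A * B : ℕ) * (∑ i, (k i : ℤ) * cc i - (B * (e - μ₁) + A * (e - μ₀))) := by
      have h1 : ((B : ℝ) * (e - μ₁) + A * (e - μ₀)) * (∑ i, (k i : ℝ) ^ 2 - 2 * (A * B)) ≤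
          2 * (A * B) * (∑ i, (k i : ℝ) * cc i - (B * (e - μ₁) + A * (e - μ₀))) := by
        have h2 := mul_le_mul_of_nonneg_left hphi hAB.le
        have h3 : (2 * ((A : ℝ) * B)) * (φ b * ((A : ℝ) ^ 2 + ((B : ℝ) ^ 2 +
            ∑ i, (k i : ℝ) ^ 2) - ((A + B : ℕ) : ℝ) ^ 2)) =
            ((B : ℝ) * (e - μ₁) + A * (e - μ₀)) * (∑ i, (k i : ℝ) ^ 2 - 2 * (A * B)) := by
          have e4 : φ b = ((B : ℝ) * (e - μ₁) + A * (e - μ₀)) / (2 * (A * B)) := rfl
          have e5 : (A : ℝ) ^ 2 + ((B : ℝ) ^ 2 + ∑ i, (k i : ℝ) ^ 2) - ((A + B : ℕ) : ℝ) ^ 2 =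
              ∑ i, (k i : ℝ) ^ 2 - 2 * (A * B) := by
            push_cast
            ring
          rw [e4, e5, ← mul_assoc, mul_div_cancel₀ _ hAB.ne']
        rw [h3] at h2
        have h4 : (2 * ((A : ℝ) * B)) * ((A : ℝ) * μ₀ + ((B : ℝ) * μ₁ +
            ∑ i, (k i : ℝ) * cc i) - ((A + B : ℕ) : ℝ) * e) =
            2 * (A * B) * (∑ i, (k i : ℝ) * cc i - (B * (e - μ₁) + A * (e - μ₀))) := by
          push_cast
          ring
        rw [h4] at h2
        exact h2
      have h5 : ((B : ℤ) * (e - μ₁) + A * (e - μ₀)) * (∑ i, (k i : ℤ) ^ 2 - 2 * (A * B)) ≤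
          2 * (A * B) * (∑ i, (k i : ℤ) * cc i - (B * (e - μ₁) + A * (e - μ₀))) := by
        exact_mod_cast h1
      have h6 : -(2 * ((A * B : ℕ) : ℤ) - ((0 : ℕ) : ℤ) ^ 2 - ∑ i, (k i : ℤ) ^ 2) =
          ∑ i, (k i : ℤ) ^ 2 - 2 * (A * B) := by
        push_cast
        ring
      rw [h6]
      push_cast
      exact h5
    have h1 := rect_core (k₀ := 0) (L₂ := 2 * (A * B : ℕ) - ((0 : ℕ) : ℤ) ^ 2 -
      ∑ i, (k i : ℤ) ^ 2) h hq ha hb hc hk (by omega) hA' hB' he hμ₀ hμ₁ hcc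
      (by omega) rfl (Or.inr ⟨rfl, hcase⟩)
    have h2 : 2 * ((A : ℤ) * B) < ∑ i, (k i : ℤ) ^ 2 := by exact_mod_cast hL2
    have h3 : (T : ℤ) * (2 * (A * B)) + 6 * c ^ 2 ≤ T * ∑ i, (k i : ℤ) ^ 2 := by
      exact_mod_cast hyp
    push_cast at h1
    rw [abs_of_neg (by linarith)] at h1
    nlinarith
  · intro hyp
    have h1 : ∑ i, k i ^ 2 + 23 * (∑ i, k i + (A + 1) + (B + 1)) ≤ 2 * (A * B) := by
      by_contra hcon
      have h2 : T * (2 * (A * B)) ≤ T * (∑ i, k i ^ 2 + 23 * (∑ i, k i + (A + 1) + (B + 1))) :=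
        Nat.mul_le_mul_left _ (not_le.1 hcon).le
      have h3 : 1 ≤ (c + 1) ^ 2 := Nat.one_le_pow _ _ (by omega)
      omega
    let q' : {i // m i ≠ 0} → Fin 2 → ℂ := fun i => x i
    have hq' : Function.Injective q' := fun i j hij =>
      Subtype.ext (aff_injective hgen hij)
    have s1 : ∑ i : {i // m i ≠ 0}, m i ^ 2 = A ^ 2 + (B ^ 2 + ∑ i, k i ^ 2) := by
      rw [sum_ne m (fun i => m i ^ 2) (fun i hi => by rw [hi]; rfl), S]
      rfl
    have s2 : ∑ i : {i // m i ≠ 0}, m i = A + (B + ∑ i, k i) := by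
      rw [sum_ne m (fun i => m i) (fun i hi => hi), S]
      rfl
    have s3 : ∑ i : {i // m i ≠ 0}, (m i + 1).choose 2 =
        (A + 1).choose 2 + ((B + 1).choose 2 + ∑ i, (k i + 1).choose 2) := by
      rw [sum_ne m (fun i => (m i + 1).choose 2) (fun i hi => by rw [hi]; rfl), S]
      rfl
    have key := regular_of_nef (q := q') (D := A + B) (m := fun i => m i) hq'
      (fun i => Nat.one_le_iff_ne_zero.2 i.2) (by rw [s1, s2]; nlinarith) ?_
    · rw [s3] at key
      have h4 : VD (A + B) q' (fun i : {i // m i ≠ 0} => m i) = VD (A + B) x m :=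
        VD_sub (A + B) _ m
      rw [h4, ← finrank_aff hgen] at key
      have h5 : finrank ℂ (linSys (A + B) (gpt (N + 2)) m) = hRm (A + 1) (B + 1) k :=
        hplane.symm
      rw [h5] at key
      have hch : ∀ n : ℕ, 2 * (n + 1).choose 2 = n ^ 2 + n := by
        intro n
        rw [Nat.choose_two_right]
        simp only [Nat.add_sub_cancel]
        have h2 : 2 ∣ (n + 1) * n := (Nat.even_mul_pred_self (n + 1)).two_dvd
        rw [Nat.mul_div_cancel' h2]
        ring
      have c1 := hch A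
      have c2 := hch B
      have c3 := hch (A + B + 1)
      have c4 : (A + B + 1) ^ 2 + (A + B + 1) = A ^ 2 + A + (B ^ 2 + B) +
        2 * ((A + 1) * (B + 1)) := by ring
      have c5 : A + B + 1 + 1 = A + B + 2 := rfl
      rw [c5] at c3
      omega
    · intro b hb
      by_contra hcon
      rw [not_le] at hcon
      set k' : Fin N → ℕ := fun i => if k i = 0 then 0 else k i + 1 with hk'
      set e := b.totalDegree with he
      set μ₀ := mu (x 0) b with hμ₀
      set μ₁ := mu (x 1) b with hμ₁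
      set cc : Fin N → ℕ := fun i => mu (x i.succ.succ) b with hcc
      have s4 : ∑ i : {i // m i ≠ 0}, (m i + 1) * mu (q' i) b =
          (A + 1) * μ₀ + ((B + 1) * μ₁ + ∑ i, k' i * cc i) := by
        set F : Fin (N + 2) → ℕ := fun i => (if m i = 0 then 0 else m i + 1) * mu (x i) b with hF
        have h2 : ∑ i : {i // m i ≠ 0}, F i = ∑ i, F i :=
          sum_ne m F (fun i hi => by simp [hF, hi])
        have h3 : ∑ i : {i // m i ≠ 0}, (m i + 1) * mu (q' i) b =
            ∑ i : {i // m i ≠ 0}, F i := by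
          apply Finset.sum_congr rfl
          intro i _
          simp only [hF, if_neg i.2, q']
        rw [h3, h2, S]
        have hA0 : m 0 ≠ 0 := by rw [m0]; omega
        have hB0 : m 1 ≠ 0 := by
          have : m 1 = B := rfl
          rw [this]; omega
        have f0 : F 0 = (A + 1) * μ₀ := by simp only [hF, if_neg hA0]; rfl
        have f1 : F 1 = (B + 1) * μ₁ := by simp only [hF, if_neg hB0]; rfl
        rw [f0, f1]
        rfl
      rw [s4] at hcon
      have hkle : ∀ i, k' i ≤ c + 1 := by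
        intro i
        have := hk i
        simp only [hk']
        split <;> omega
      have s5 : ∑ i, k' i ^ 2 ≤ ∑ i, k i ^ 2 + 3 * ∑ i, k i := by
        rw [Finset.mul_sum, ← Finset.sum_add_distrib]
        apply Finset.sum_le_sum
        intro i _
        simp only [hk']
        split
        · simp
        · have : 1 ≤ k i := Nat.one_le_iff_ne_zero.2 (by assumption)
          nlinarith
      have t1 : (∑ i, (k' i : ℤ) ^ 2) ≤ ∑ i, (k i : ℤ) ^ 2 + 3 * ∑ i, (k i : ℤ) := by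
        exact_mod_cast s5
      have t2 : (T : ℤ) * (∑ i, (k i : ℤ) ^ 2 + 23 * (∑ i, (k i : ℤ) + (A + 1) + (B + 1))) +
          6 * (c + 1) ^ 2 ≤ T * (2 * (A * B)) := by exact_mod_cast hyp
      have t3 : (0 : ℤ) ≤ ∑ i, (k i : ℤ) := Finset.sum_nonneg fun i _ => by positivity
      have t4 : (1 : ℤ) ≤ T := by exact_mod_cast hT
      have t5 : (∑ i, (k i : ℤ) ^ 2 + 23 * (∑ i, (k i : ℤ) + (A + 1) + (B + 1))) ≤
        2 * (A * B) := by exact_mod_cast h1
      have tA : (12 : ℤ) * (c + 1) ≤ A := by exact_mod_cast hA12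
      have tB : (12 : ℤ) * (c + 1) ≤ B := by exact_mod_cast hB12
      have tc : (1 : ℤ) ≤ c := by exact_mod_cast hc
      obtain ⟨L₂, hL₂⟩ : ∃ L₂ : ℤ, L₂ = 2 * ((A + 2) * (B + 2) : ℕ) - ((1 : ℕ) : ℤ) ^ 2 -
        ∑ i, (k' i : ℤ) ^ 2 := ⟨_, rfl⟩
      have hL3 : (2 * (A * B) - (∑ i, (k i : ℤ) ^ 2 + 23 * (∑ i, (k i : ℤ) + (A + 1) +
          (B + 1)))) + (4 * A + 4 * B) + 1 ≤ L₂ := by
        rw [hL₂]
        push_cast
        nlinarith
      have hL4 : 4 * ((c + 1 : ℕ) : ℤ) + 2 ≤ L₂ := by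
        push_cast
        linarith
      have h2 := rect_core (K := c + 1) (k₀ := 1) (k := k') (A := A + 2) (B := B + 2)
        (L₂ := L₂) h hq ha hb (by omega) hkle le_rfl (by omega) (by omega) he hμ₀ hμ₁ hcc
        (by nlinarith) hL₂ (Or.inl ⟨by linarith, by simpa using hL4⟩)
      rw [abs_of_nonneg (by linarith)] at h2
      push_cast at h2
      generalize (∑ i, (k i : ℤ) ^ 2 + 23 * (∑ i, (k i : ℤ) + (A + 1) + (B + 1))) = E at *
      have t8 : (T : ℤ) * (2 * (A * B) - E + (4 * A + 4 * B) + 1) ≤ T * L₂ :=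
        mul_le_mul_of_nonneg_left hL3 (by linarith)
      have t9 : (0 : ℤ) ≤ T * (4 * A + 4 * B + 1) := by
        apply mul_nonneg <;> linarith
      nlinarith

end Pool.Agent.Work.MP_0421d9_ag.LD
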