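import Pool.Agent.Work.MP_0421d9_ag.ZDefs
import Pool.Agent.Work.MP_0421d9_ag.ZRStep
import Pool.Agent.Work.MP_0421d9_ag.ZWinR
import Pool.Agent.Work.MP_0421d9_ag.UExact

/-!
The levels of the rectangles (helper21, after the plan of helper69).
-/

namespace Pool.Agent.Work.MP_0421d9_ag.LD

open MvPolynomial Module

theorem ER.mono {T q a q' a' : ℕ} (h : ER T q a) (hq : q ≤ q') (ha : a ≤ a') : ER T q' a' :=
  fun N c H L k h1 h2 h3 h4 h5 h6 => h N c H L k h1 h2 h3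
    ((Nat.add_le_add_right (Nat.mul_le_mul_right c hq) 1).trans h4)
    ((Nat.add_le_add_right (Nat.mul_le_mul_right c ha) 1).trans h5) h6

/-- families of simple points -/
theorem hTm_simple {D N : ℕ} {k : Fin N → ℕ} {T : Set (Fin 3 →₀ ℕ)} (hk : ∀ i, k i ≤ 1) :
    hTm D T k = hT D T 1 (∑ i, k i) := by
  classical
  set S : Finset (Fin N) := Finset.univ.filter (fun i => k i = 1) with hS
  have hcard : S.card = ∑ i, k i := by
    rw [hS, Finset.card_filter]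
    refine Finset.sum_congr rfl fun i _ => ?_
    have := hk i
    split_ifs with h
    · exact h.symm
    · omega
  rw [← hcard]
  have h1 := hTm_comp_eq (D := D) (k := k) (T := T) (e := S.orderEmbOfFin rfl)
    (S.orderEmbOfFin rfl).injective (by
      intro i hi
      rw [Finset.range_orderEmbOfFin, Finset.mem_coe, hS, Finset.mem_filter] at hi
      have h2 := hk i
      have h3 : k i ≠ 1 := fun h => hi ⟨Finset.mem_univ i, h⟩
      omega)
  rw [h1, ← hTm_const]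
  congr 1
  funext i
  have h2 := Finset.orderEmbOfFin_mem S rfl i
  have h3 : ∀ j, j ∈ S → k j = 1 := fun j hj => (Finset.mem_filter.1 hj).2
  exact h3 _ h2

theorem ER_base : ER 1 4 4 := by
  intro N c H L k hc hc1 hk hH hL h
  have hc' : c = 1 := le_antisymm hc1 hc
  subst hc'
  have h1 : hRm H L k = H * L - ∑ i, k i := by
    unfold hRm
    rw [hTm_simple hk]
    exact rect_simple H L _
  have h2 : ∑ i, k i ^ 2 = ∑ i, k i := by
    refine Finset.sum_congr rfl fun i _ => ?_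
    have h3 := hk i
    interval_cases k i <;> rfl
  rw [h2] at h
  rw [h1]
  apply Nat.sub_eq_zero_of_le
  refine le_trans ?_ h
  obtain ⟨x, rfl⟩ : ∃ x, H = x + 5 := ⟨H - 5, by omega⟩
  obtain ⟨y, rfl⟩ : ∃ y, L = y + 5 := ⟨L - 5, by omega⟩
  rw [show x + 5 - 1 = x + 4 from rfl, show y + 5 - 1 = y + 4 from rfl]
  nlinarith

/-- the numerical part of the induction -/
theorem zr_num {Q lam a₀ p J lg : ℕ} (hQ : 100 ≤ Q) (hlam : 100 ≤ lam) (ha : 1 ≤ a₀)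
    (hp : p = 40 * Q + 4000) (hlg : lg ≤ lam) (hJ : J = 100 * p ^ 2 + p * (lg + 2) + 2) :
    10 ^ 5 * J + 10 ^ 6 * Q ≤ Q ^ 2 * lam ^ 100 ∧
      1000 * (a₀ * Q) * p + 200 * p ^ 2 ≤ a₀ * (Q ^ 2 * lam ^ 100) := by
  have hp1 : p ≤ 80 * Q := by omega
  have hp2 : p ^ 2 ≤ 6400 * Q ^ 2 := by
    calc p ^ 2 ≤ (80 * Q) ^ 2 := Nat.pow_le_pow_left hp1 2
      _ = 6400 * Q ^ 2 := by ring
  have hlam0 : 1 ≤ lam := by omega
  have hpow : 10 ^ 12 * lam ≤ lam ^ 100 := by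
    calc 10 ^ 12 * lam = 100 ^ 6 * lam := by norm_num
      _ ≤ lam ^ 6 * lam := Nat.mul_le_mul_right lam (Nat.pow_le_pow_left hlam 6)
      _ = lam ^ 7 := (pow_succ lam 6).symm
      _ ≤ lam ^ 100 := Nat.pow_le_pow_right hlam0 (by norm_num)
  have hQ2 : Q ≤ Q ^ 2 := by nlinarith
  have hbig : 10 ^ 12 * (Q ^ 2 * lam) ≤ Q ^ 2 * lam ^ 100 := by
    calc 10 ^ 12 * (Q ^ 2 * lam) = Q ^ 2 * (10 ^ 12 * lam) := by ring
      _ ≤ Q ^ 2 * lam ^ 100 := Nat.mul_le_mul_left _ hpow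
  have hQl : Q ^ 2 ≤ Q ^ 2 * lam := Nat.le_mul_of_pos_right _ hlam0
  constructor
  · refine le_trans ?_ hbig
    have h1 : p * (lg + 2) ≤ 160 * (Q ^ 2 * lam) := by
      calc p * (lg + 2) ≤ (80 * Q) * (2 * lam) := Nat.mul_le_mul hp1 (by omega)
        _ = 160 * (Q * lam) := by ring
        _ ≤ 160 * (Q ^ 2 * lam) := Nat.mul_le_mul_left _ (Nat.mul_le_mul_right lam hQ2)
    have h2 : 1 ≤ Q ^ 2 * lam := Nat.mul_pos (pow_pos (by omega) 2) hlam0
    omega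
  · have h1 : 1000 * (a₀ * Q) * p ≤ 80000 * (a₀ * (Q ^ 2 * lam)) := by
      calc 1000 * (a₀ * Q) * p ≤ 1000 * (a₀ * Q) * (80 * Q) := Nat.mul_le_mul_left _ hp1
        _ = 80000 * (a₀ * Q ^ 2) := by ring
        _ ≤ 80000 * (a₀ * (Q ^ 2 * lam)) :=
          Nat.mul_le_mul_left _ (Nat.mul_le_mul_left _ hQl)
    have h2 : 200 * p ^ 2 ≤ 1280000 * (a₀ * (Q ^ 2 * lam)) := by
      calc 200 * p ^ 2 ≤ 200 * (6400 * Q ^ 2) := Nat.mul_le_mul_left _ hp2
        _ = 1280000 * Q ^ 2 := by ring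
        _ ≤ 1280000 * (a₀ * (Q ^ 2 * lam)) :=
          Nat.mul_le_mul_left _ (hQl.trans (Nat.le_mul_of_pos_left _ ha))
    have h3 : 10 ^ 12 * (a₀ * (Q ^ 2 * lam)) ≤ a₀ * (Q ^ 2 * lam ^ 100) := by
      calc 10 ^ 12 * (a₀ * (Q ^ 2 * lam)) = a₀ * (10 ^ 12 * (Q ^ 2 * lam)) := by ring
        _ ≤ a₀ * (Q ^ 2 * lam ^ 100) := Nat.mul_le_mul_left _ hbig
    omega

theorem ER_level' (n : ℕ) : ∃ A : ℕ, 100 ≤ A ∧ ∀ lam a₀ : ℕ, A ≤ lam → A ≤ a₀ →
    Nat.log 2 (a₀ ^ n + 1) ≤ lam → ER (a₀ ^ n) (lam ^ A) (a₀ * lam ^ A) := by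
  induction n with
  | zero =>
    refine ⟨100, le_rfl, fun lam a₀ h1 h2 _ => ?_⟩
    rw [pow_zero]
    have h3 : 4 ≤ lam ^ 100 := by
      calc 4 ≤ lam ^ 1 := by rw [pow_one]; omega
        _ ≤ lam ^ 100 := Nat.pow_le_pow_right (by omega) (by norm_num)
    exact ER_base.mono h3 (h3.trans (Nat.le_mul_of_pos_left _ (by omega)))
  | succ n ih =>
    obtain ⟨A, hA, ih⟩ := ih
    refine ⟨2 * A + 100, by omega, fun lam a₀ h1 h2 h3 => ?_⟩
    have hlam : 100 ≤ lam := by omega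
    have ha₀ : 1 ≤ a₀ := by omega
    have hlog : Nat.log 2 (a₀ ^ n + 1) ≤ lam := by
      refine (Nat.log_mono_right ?_).trans h3
      exact Nat.add_le_add_right (Nat.pow_le_pow_right ha₀ (Nat.le_succ n)) 1
    have hER := ih lam a₀ (by omega) (by omega) hlog
    have hQ : 100 ≤ lam ^ A := by
      calc 100 ≤ lam ^ 1 := by rw [pow_one]; omega
        _ ≤ lam ^ A := Nat.pow_le_pow_right (by omega) (by omega)
    have hT : 1 ≤ a₀ ^ n := Nat.one_le_pow _ _ ha₀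
    have hW := winR_of_ER hT (by omega) (by
      have : lam ^ A ≤ a₀ * lam ^ A := Nat.le_mul_of_pos_left _ ha₀
      omega) hER
    have hnum := zr_num (Q := lam ^ A) (lam := lam) (a₀ := a₀) (p := 40 * lam ^ A + 4000)
      (lg := Nat.log 2 (a₀ ^ (n + 1) + 1)) hQ hlam ha₀ rfl h3 rfl
    have hpow : lam ^ (2 * A + 100) = (lam ^ A) ^ 2 * lam ^ 100 := by
      rw [pow_add, ← pow_mul, Nat.mul_comm A 2]
    rw [hpow]
    refine ER_step hW hT (by omega) (by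
      have : lam ^ A ≤ a₀ * lam ^ A := Nat.le_mul_of_pos_left _ ha₀
      omega) le_rfl rfl le_rfl hnum.1 hnum.2 ?_
    rw [pow_succ]
    refine Nat.mul_le_mul_left _ (Nat.le_mul_of_pos_right _ ?_)
    have h4 : 0 < lam := by omega
    positivity

theorem ER_level (n : ℕ) : ∃ A : ℕ, ∀ lam a₀ : ℕ, A ≤ lam → A ≤ a₀ →
    Nat.log 2 (a₀ ^ n + 1) ≤ lam → ER (a₀ ^ n) (lam ^ A) (a₀ * lam ^ A) := by
  obtain ⟨A, -, h⟩ := ER_level' n
  exact ⟨A, h⟩

end Pool.Agent.Work.MP_0421d9_ag.LD
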