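import Pool.Agent.Work.MP_0421d9_ag.ZDefs2
import Pool.Agent.Work.MP_0421d9_ag.ZRLevel

/-!
The numerical part of the levels of the plane (helper21, after the plan of helper69).
-/

namespace Pool.Agent.Work.MP_0421d9_ag.LD

open MvPolynomial Module

/-! ### polynomials in the logarithm -/

theorem zp_exp (B C : ℕ) : ∃ L₀ : ℕ, ∀ L, L₀ ≤ L → C * (L + 1) ^ B ≤ 2 ^ L := by
  have h := tendsto_pow_const_div_const_pow_of_one_lt B (r := (2 : ℝ)) (by norm_num)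
  have hpos : (0 : ℝ) < 1 / (2 * (C + 1)) := by positivity
  have h1 := (h.eventually (gt_mem_nhds hpos))
  obtain ⟨n₀, hn₀⟩ := Filter.eventually_atTop.1 h1
  refine ⟨n₀, fun L hL => ?_⟩
  have h2 := hn₀ (L + 1) (by omega)
  rw [div_lt_div_iff₀ (by positivity) (by positivity), one_mul, pow_succ] at h2
  have h3 : ((C * (L + 1) ^ B : ℕ) : ℝ) ≤ ((2 ^ L : ℕ) : ℝ) := by
    push_cast
    push_cast at h2
    have h4 : (0 : ℝ) ≤ ((L : ℝ) + 1) ^ B := by positivity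
    nlinarith
  exact_mod_cast h3

theorem zp_log (B C N A : ℕ) : ∃ S₀ : ℕ, ∀ s, S₀ ≤ s →
    C * (Nat.log 2 ((s + 1) ^ N + 1) + A) ^ B ≤ s := by
  obtain ⟨L₀, hL₀⟩ := zp_exp B (C * (N + A + 1) ^ B + 1)
  refine ⟨2 ^ L₀, fun s hs => ?_⟩
  set L := Nat.log 2 (s + 1) with hL
  have h1 : L₀ ≤ L := Nat.le_log_of_pow_le (by norm_num) (by omega)
  have h2 : s + 1 < 2 ^ (L + 1) := Nat.lt_pow_succ_log_self (by norm_num) _
  have h3 : 2 ^ L ≤ s + 1 := Nat.pow_log_le_self 2 (by omega)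
  have h4 : Nat.log 2 ((s + 1) ^ N + 1) ≤ (L + 1) * N + 1 := by
    have h5 : (s + 1) ^ N + 1 ≤ 2 ^ ((L + 1) * N + 1) := by
      have h6 : (s + 1) ^ N ≤ 2 ^ ((L + 1) * N) := by
        rw [pow_mul]
        exact Nat.pow_le_pow_left h2.le N
      have h7 : 1 ≤ 2 ^ ((L + 1) * N) := Nat.one_le_two_pow
      rw [pow_succ]
      omega
    calc Nat.log 2 ((s + 1) ^ N + 1) ≤ Nat.log 2 (2 ^ ((L + 1) * N + 1)) := Nat.log_mono_right h5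
      _ = (L + 1) * N + 1 := Nat.log_pow (by norm_num) _
  have h5 : Nat.log 2 ((s + 1) ^ N + 1) + A ≤ (N + A + 1) * (L + 1) := by nlinarith
  have h6 := hL₀ L h1
  have h7 : C * (Nat.log 2 ((s + 1) ^ N + 1) + A) ^ B ≤ C * (N + A + 1) ^ B * (L + 1) ^ B := by
    rw [mul_assoc, ← mul_pow]
    exact Nat.mul_le_mul_left C (Nat.pow_le_pow_left h5 B)
  have h8 : 1 ≤ (L + 1) ^ B := Nat.one_le_pow _ _ (Nat.succ_pos L)
  rw [Nat.add_mul, one_mul] at h6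
  omega

/-- comparison of powers -/
theorem zp_pow {R Y Z n C : ℕ} (hR : R ≤ Z * Y) (hC : Z ^ n * C ≤ R ^ n) (hZ : 1 ≤ Z) :
    C ≤ Y ^ n := by
  have h1 : Z ^ n * C ≤ Z ^ n * Y ^ n := by
    rw [← mul_pow]
    exact hC.trans (Nat.pow_le_pow_left hR n)
  exact Nat.le_of_mul_le_mul_left h1 (pow_pos hZ n)

theorem zp_div {R Z : ℕ} (hZ : 1 ≤ Z) (hR : Z ≤ R) : R ≤ 2 * Z * (R / Z) := by
  have h1 : R < Z * (R / Z + 1) := Nat.lt_mul_div_succ R hZ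
  have h2 : 1 ≤ R / Z := (Nat.one_le_div_iff hZ).2 hR
  nlinarith

/-- the parameters of the rectangles, and the conditions on them -/
theorem zp_params (k N K G X A₁ : ℕ) (hkN : k ≤ N) : ∃ R₀ : ℕ, ∀ R, R₀ ≤ R →
    ∃ s q p J : ℕ, WinR ((s + 1) ^ k) q ((s + 1) * q) ∧ 2 ≤ q ∧ 2 ≤ (s + 1) * q ∧
      R ≤ (s + 1) ^ 2 ∧ 40 * q + 2 ^ (2 * K + 20) ≤ p ∧
      100 * p ^ 2 + 64 * p ^ 2 * (Nat.log 2 ((s + 1) ^ N + 1) + 2) + 2 ≤ J ∧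
      10 ^ 6 * J * G ≤ R ∧ 2 * X * (1000 * ((s + 1) * q) * p + (16 * K * p) ^ 3) ≤ R ∧
      20 * X * A₁ * p ^ 6 ≤ R := by
  obtain ⟨A, hA, hER⟩ := ER_level' k
  obtain ⟨c₁, hc₁⟩ : ∃ c₁, c₁ = 40 + 2 ^ (2 * K + 20) := ⟨_, rfl⟩
  obtain ⟨S₁, hS₁⟩ := zp_log (2 * A + 1) (10 ^ 8 * G * c₁ ^ 2) N A
  obtain ⟨S₂, hS₂⟩ := zp_log (6 * A) (20 * X * A₁ * c₁ ^ 6) N A
  obtain ⟨S₃, hS₃⟩ := zp_log (2 * A) (8000 * X * c₁) N A
  obtain ⟨S₄, hS₄⟩ := zp_log (3 * A) (4 * X * (16 * K) ^ 3 * c₁ ^ 3) N A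
  obtain ⟨S, hS⟩ : ∃ S, S = S₁ + S₂ + S₃ + S₄ + A + 1 := ⟨_, rfl⟩
  refine ⟨S * S, fun R hR => ?_⟩
  obtain ⟨s, hs⟩ : ∃ s, s = Nat.sqrt R := ⟨_, rfl⟩
  have hsR : s * s ≤ R := by
    rw [hs]
    exact Nat.sqrt_le R
  have hRs : R < (s + 1) * (s + 1) := by
    rw [hs]
    exact Nat.lt_succ_sqrt R
  have hSs : S ≤ s := by
    rw [hs, Nat.le_sqrt]
    exact hR
  obtain ⟨lam, hlam⟩ : ∃ lam, lam = Nat.log 2 ((s + 1) ^ N + 1) + A := ⟨_, rfl⟩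
  have hlamA : A ≤ lam := by omega
  have hlam100 : 100 ≤ lam := by omega
  obtain ⟨q, hq⟩ : ∃ q, q = lam ^ A := ⟨_, rfl⟩
  have hq100 : 100 ≤ q := by
    rw [hq]
    calc 100 ≤ lam ^ 1 := by rw [pow_one]; omega
      _ ≤ lam ^ A := Nat.pow_le_pow_right (by omega) (by omega)
  have hlk : Nat.log 2 ((s + 1) ^ k + 1) ≤ lam := by
    have h1 : Nat.log 2 ((s + 1) ^ k + 1) ≤ Nat.log 2 ((s + 1) ^ N + 1) :=
      Nat.log_mono_right (Nat.add_le_add_right (Nat.pow_le_pow_right (Nat.succ_pos s) hkN) 1)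
    omega
  have hE := hER lam (s + 1) hlamA (by omega) hlk
  rw [← hq] at hE
  have hT1 : 1 ≤ (s + 1) ^ k := Nat.one_le_pow _ _ (Nat.succ_pos s)
  have ha2 : 2 ≤ (s + 1) * q := by
    have : q ≤ (s + 1) * q := Nat.le_mul_of_pos_left _ (Nat.succ_pos s)
    omega
  have hW := winR_of_ER hT1 (by omega) ha2 hE
  obtain ⟨p, hp⟩ : ∃ p, p = 40 * q + 2 ^ (2 * K + 20) := ⟨_, rfl⟩
  have hpc : p ≤ c₁ * q := by
    rw [hp, hc₁, Nat.add_mul]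
    exact Nat.add_le_add_left (Nat.le_mul_of_pos_right _ (by omega)) _
  obtain ⟨J, hJ⟩ : ∃ J, J = 100 * p ^ 2 + 64 * p ^ 2 *
      (Nat.log 2 ((s + 1) ^ N + 1) + 2) + 2 := ⟨_, rfl⟩
  have hp1 : 1 ≤ p := by omega
  have hJ2 : J ≤ 100 * (p ^ 2 * lam) := by
    have h1 : 64 * p ^ 2 * (Nat.log 2 ((s + 1) ^ N + 1) + 2) ≤ 64 * p ^ 2 * (lam + 2) :=
      Nat.mul_le_mul_left _ (by omega)
    have h2 : 1 ≤ p ^ 2 := Nat.one_le_pow _ _ hp1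
    have h3 : 100 * p ^ 2 ≤ p ^ 2 * lam := by
      rw [Nat.mul_comm]
      exact Nat.mul_le_mul_left _ hlam100
    have h4 : 64 * p ^ 2 * (lam + 2) = 64 * (p ^ 2 * lam) + 128 * p ^ 2 := by ring
    omega
  have hsR' : s ≤ R := (Nat.le_mul_self s).trans hsR
  have hpk : ∀ k, p ^ k ≤ c₁ ^ k * lam ^ (k * A) := by
    intro k
    calc p ^ k ≤ (c₁ * q) ^ k := Nat.pow_le_pow_left hpc k
      _ = c₁ ^ k * lam ^ (k * A) := by rw [mul_pow, hq, ← pow_mul, Nat.mul_comm A k]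
  refine ⟨s, q, p, J, hW, by omega, ha2, by rw [sq]; exact hRs.le, hp.ge, hJ.ge, ?_, ?_, ?_⟩
  · have h1 := hS₁ s (by omega)
    rw [← hlam] at h1
    refine le_trans ?_ (h1.trans hsR')
    calc 10 ^ 6 * J * G ≤ 10 ^ 6 * (100 * (p ^ 2 * lam)) * G := by gcongr
      _ ≤ 10 ^ 6 * (100 * ((c₁ ^ 2 * lam ^ (2 * A)) * lam)) * G := by
        gcongr
        exact hpk 2
      _ = 10 ^ 8 * G * c₁ ^ 2 * lam ^ (2 * A + 1) := by ring
  · have h1 := hS₃ s (by omega)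
    have h2 := hS₄ s (by omega)
    rw [← hlam] at h1 h2
    have h3 : 4 * (2 * X * (1000 * ((s + 1) * q) * p)) ≤ 2 * R := by
      calc 4 * (2 * X * (1000 * ((s + 1) * q) * p))
          ≤ 4 * (2 * X * (1000 * ((s + 1) * q) * (c₁ * q))) := by gcongr
        _ = (8000 * X * c₁ * lam ^ (2 * A)) * (s + 1) := by
          rw [hq, Nat.mul_comm 2 A, pow_mul]
          ring
        _ ≤ s * (s + 1) := Nat.mul_le_mul_right _ h1
        _ ≤ 2 * (s * s) := by nlinarith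
        _ ≤ 2 * R := Nat.mul_le_mul_left 2 hsR
    have h4 : 2 * (2 * X * (16 * K * p) ^ 3) ≤ R := by
      refine le_trans ?_ (h2.trans hsR')
      calc 2 * (2 * X * (16 * K * p) ^ 3) = 4 * X * (16 * K) ^ 3 * p ^ 3 := by ring
        _ ≤ 4 * X * (16 * K) ^ 3 * (c₁ ^ 3 * lam ^ (3 * A)) := Nat.mul_le_mul_left _ (hpk 3)
        _ = 4 * X * (16 * K) ^ 3 * c₁ ^ 3 * lam ^ (3 * A) := by ring
    rw [Nat.mul_add]
    omega
  · have h1 := hS₂ s (by omega)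
    rw [← hlam] at h1
    refine le_trans ?_ (h1.trans hsR')
    calc 20 * X * A₁ * p ^ 6 ≤ 20 * X * A₁ * (c₁ ^ 6 * lam ^ (6 * A)) :=
          Nat.mul_le_mul_left _ (hpk 6)
      _ = 20 * X * A₁ * c₁ ^ 6 * lam ^ (6 * A) := by ring

end Pool.Agent.Work.MP_0421d9_ag.LD
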