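import Pool.Agent.Work.MP_0421d9_ag.ZPC2c

/-!
Strips of the plane with equal multiplicities, the width is larger than the multiplicity.
-/

namespace Pool.Agent.Work.MP_0421d9_ag.LD

open MvPolynomial Module

/-- the two parts of the row -/
theorem C2_sides {D v t κ e : ℕ} (hκD : κ ≤ D)
    (h1 : F2 D κ + 2 * e ≤ (2 * t + 1) * (v * (v + 1)))
    (h2 : (2 * t + 1) * (v * (v + 1)) + 2 * e ≤ F2 D (κ + 1)) :
    ∃ A B : ℕ, e ≤ A ∧ e ≤ B ∧ A + B = D - κ + 1 ∧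
      2 * (A : ℤ) + F2 D κ = (2 * t + 1) * (v * (v + 1)) ∧
      2 * (B : ℤ) + (2 * t + 1) * (v * (v + 1)) = F2 D (κ + 1) ∧
      A + κ * (D + 1) = (2 * t + 1) * (v + 1).choose 2 + κ.choose 2 := by
  have hv := two_mul_choose v
  have hκ : 2 * κ.choose 2 + κ = κ * κ := by
    cases κ with
    | zero => rfl
    | succ n =>
      have := two_mul_choose n
      rw [this]
      ring
  have hvz : (2 : ℤ) * (((v + 1).choose 2 : ℕ) : ℤ) = v * (v + 1) := by exact_mod_cast hv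
  have hκz : (2 : ℤ) * ((κ.choose 2 : ℕ) : ℤ) + κ = κ * κ := by exact_mod_cast hκ
  have hF : F2 D κ = 2 * (κ * (D + 1)) - 2 * ((κ.choose 2 : ℕ) : ℤ) := by
    unfold F2
    linear_combination hκz
  have hF' := F2_succ D κ
  rw [← hvz] at h1 h2 ⊢
  rw [hF'] at h2 ⊢
  obtain ⟨c, hc⟩ : ∃ c : ℕ, c = (2 * t + 1) * (v + 1).choose 2 := ⟨_, rfl⟩
  have hcz : (c : ℤ) = (2 * t + 1) * (((v + 1).choose 2 : ℕ) : ℤ) := by
    rw [hc]
    push_cast
    ring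
  have e1 : (2 * (t : ℤ) + 1) * (2 * (((v + 1).choose 2 : ℕ) : ℤ)) = 2 * c := by
    rw [hcz]
    ring
  rw [e1] at h1 h2 ⊢
  obtain ⟨X, hX⟩ : ∃ X : ℕ, X = κ * (D + 1) := ⟨_, rfl⟩
  have hXz : (X : ℤ) = κ * (D + 1) := by
    rw [hX]
    push_cast
    ring
  rw [hF, ← hXz] at h1 h2 ⊢
  rw [← hc, ← hX]
  have h3 : X + e ≤ c + κ.choose 2 := by omega
  have h4 : c + κ.choose 2 + e + κ ≤ X + D + 1 := by omega
  refine ⟨c + κ.choose 2 - X, X + D + 1 - κ - (c + κ.choose 2), by omega, by omega, by omega, by omega,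
    by omega, by omega⟩

/-- the transformed systems are large -/
theorem C2_H {η C p D v t k κ B : ℕ} (hη : 9 ≤ η) (hC : 1 ≤ C) (hp : 1 ≤ p)
    (hv : 10 ^ 7 * η ^ 3 * C * p ^ 6 ≤ v) (hvD : v ^ 2 ≤ 4 * p ^ 2 * D) (ht : 1 ≤ t)
    (hκ : κ = v + k) (hk1 : v < 2 * η * k) (hk2 : η * k ≤ v) (hD0 : 1 ≤ D)
    (hD2 : D ≤ 2 * t * v)
    (hB : 2 * (B : ℤ) + (2 * t + 1) * (v * (v + 1)) = F2 D (κ + 1)) :
    ∃ H, H + t + v * (2 * t + 1) = D + κ * t + 1 ∧ η * k ≤ H ∧ C * k ^ 5 ≤ H ^ 3 := by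
  -- the size of `k`
  have hp6 : 1 ≤ p ^ 6 := Nat.one_le_pow _ _ hp
  have hp26 : p ^ 2 ≤ p ^ 6 := Nat.pow_le_pow_right hp (by norm_num)
  have hη2 : 1 ≤ η ^ 2 := Nat.one_le_pow _ _ (by omega)
  have hηη : η ≤ η ^ 2 := by
    rw [pow_two]
    exact Nat.le_mul_of_pos_left _ (by omega)
  have k1 : 5 * 10 ^ 6 * (η ^ 2 * (C * p ^ 6)) < k := by
    have h1 : 2 * η * (5 * 10 ^ 6 * (η ^ 2 * (C * p ^ 6))) < 2 * η * k := by
      refine lt_of_le_of_lt (le_trans (le_of_eq ?_) hv) hk1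
      ring
    exact Nat.lt_of_mul_lt_mul_left h1
  have k2 : 8 * η ≤ k := by
    have h1 : η * 1 ≤ η ^ 2 * (C * p ^ 6) := Nat.mul_le_mul hηη (Nat.mul_pos hC hp6)
    omega
  have k3 : 32 * (p ^ 2 * η) ≤ k := by
    have h1 : p ^ 2 * η ≤ η ^ 2 * (C * p ^ 6) := by
      calc p ^ 2 * η = η * (1 * p ^ 2) := by ring
        _ ≤ η ^ 2 * (C * p ^ 6) := Nat.mul_le_mul hηη (Nat.mul_le_mul hC hp26)
    omega
  have k4 : 32768 * (C * p ^ 6) ≤ k := by
    have h1 : C * p ^ 6 ≤ η ^ 2 * (C * p ^ 6) := Nat.le_mul_of_pos_left _ (by omega)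
    omega
  have k5 : 4 * v ≤ k ^ 2 := by
    have h1 : 8 * η * k ≤ k * k := Nat.mul_le_mul_right _ k2
    have h2 : 8 * η * k = 4 * (2 * η * k) := by ring
    rw [pow_two]
    omega
  have hv0 : 1 ≤ v := by
    have h1 : 0 < η * k := Nat.mul_pos (by omega) (by omega)
    omega
  have k6 : κ + 1 ≤ 2 * v := by
    have h1 : 9 * k ≤ η * k := Nat.mul_le_mul_right _ hη
    omega
  -- the size of `H`
  obtain ⟨z, hz⟩ : ∃ z : ℤ, z = D + κ * t + 1 - t - v * (2 * t + 1) := ⟨_, rfl⟩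
  have hκ' : (κ : ℤ) = v + k := by exact_mod_cast hκ
  have e1 : 2 * ((z + t) * (κ + 1)) = 2 * (B : ℤ) + (2 * t + 1) * (k * (k + 1)) := by
    rw [hz]
    unfold F2 at hB
    have h8 : (k : ℤ) = κ - v := by linarith
    rw [h8]
    linear_combination (-1 : ℤ) * hB
  have ht' : (1 : ℤ) ≤ t := by exact_mod_cast ht
  have hk' : (1 : ℤ) ≤ k := by exact_mod_cast (by omega : 1 ≤ k)
  have hv' : (1 : ℤ) ≤ v := by exact_mod_cast hv0
  have e2 : (t : ℤ) * k ^ 2 ≤ (z + t) * (κ + 1) := by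
    have h1 : (0 : ℤ) ≤ B := Nat.cast_nonneg _
    have h2 : (0 : ℤ) ≤ t * k := mul_nonneg (by linarith) (by linarith)
    nlinarith
  have e3 : 0 ≤ z + t := by
    by_contra h
    push Not at h
    have h1 : (z + t) * ((κ : ℤ) + 1) ≤ 0 :=
      mul_nonpos_of_nonpos_of_nonneg h.le (by positivity)
    have h2 : 0 < (t : ℤ) * k ^ 2 := by positivity
    linarith
  have e4 : (t : ℤ) * k ^ 2 ≤ (z + t) * (2 * v) := by
    refine e2.trans (mul_le_mul_of_nonneg_left ?_ e3)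
    exact_mod_cast k6
  have k5' : (4 : ℤ) * v ≤ k ^ 2 := by exact_mod_cast k5
  have e5 : (t : ℤ) * k ^ 2 ≤ 4 * v * z := by
    have h1 : (t : ℤ) * (4 * v) ≤ t * k ^ 2 := mul_le_mul_of_nonneg_left k5' (by linarith)
    linarith
  have e6 : 0 ≤ z := by
    by_contra h
    push Not at h
    have h1 : 4 * (v : ℤ) * z ≤ 0 := mul_nonpos_of_nonneg_of_nonpos (by positivity) h.le
    have h2 : 0 < (t : ℤ) * k ^ 2 := by positivity
    linarith
  obtain ⟨H, rfl⟩ := Int.eq_ofNat_of_zero_le e6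
  have e7 : t * k ^ 2 ≤ 4 * v * H := by exact_mod_cast e5
  have e8 : k ^ 2 ≤ 32 * p ^ 2 * H := by
    have h1 : D * k ^ 2 ≤ D * (32 * p ^ 2 * H) := by
      calc D * k ^ 2 ≤ 2 * t * v * k ^ 2 := Nat.mul_le_mul_right _ hD2
        _ = 2 * v * (t * k ^ 2) := by ring
        _ ≤ 2 * v * (4 * v * H) := Nat.mul_le_mul_left _ e7
        _ = v ^ 2 * (8 * H) := by ring
        _ ≤ 4 * p ^ 2 * D * (8 * H) := Nat.mul_le_mul_right _ hvD
        _ = D * (32 * p ^ 2 * H) := by ring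
    exact Nat.le_of_mul_le_mul_left h1 (by omega)
  refine ⟨H, ?_, ?_, ?_⟩
  · have h1 : (H : ℤ) + t + v * (2 * t + 1) = D + κ * t + 1 := by linarith
    exact_mod_cast h1
  · have h1 : 32 * p ^ 2 * (η * k) ≤ 32 * p ^ 2 * H := by
      calc 32 * p ^ 2 * (η * k) = 32 * (p ^ 2 * η) * k := by ring
        _ ≤ k * k := Nat.mul_le_mul_right _ k3
        _ = k ^ 2 := by ring
        _ ≤ _ := e8
    exact Nat.le_of_mul_le_mul_left h1 (by positivity)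
  · have h1 : 32768 * p ^ 6 * (C * k ^ 5) ≤ 32768 * p ^ 6 * H ^ 3 := by
      calc 32768 * p ^ 6 * (C * k ^ 5) = 32768 * (C * p ^ 6) * k ^ 5 := by ring
        _ ≤ k * k ^ 5 := Nat.mul_le_mul_right _ k4
        _ = (k ^ 2) ^ 3 := by ring
        _ ≤ (32 * p ^ 2 * H) ^ 3 := Nat.pow_le_pow_left e8 3
        _ = 32768 * p ^ 6 * H ^ 3 := by ring
    exact Nat.le_of_mul_le_mul_left h1 (by positivity)

/-- the number of points which are used -/
theorem C2_points {η D v t κ e : ℕ} (hv0 : 18 ≤ v) (hη : 9 ≤ η) (ht : 1 ≤ t) (hκv : v ≤ κ)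
    (hk2 : η * (κ - v) ≤ v) (hκD : 4 * κ + 4 ≤ D)
    (h1 : F2 D κ + 2 * e ≤ (2 * t + 1) * (v * (v + 1)))
    (h2 : (2 * t + 1) * (v * (v + 1)) + 2 * e ≤ F2 D (κ + 1)) :
    D ≤ 2 * t * v ∧ (2 * t + 1) * v ≤ 4 * D := by
  have he : (0 : ℤ) ≤ e := Nat.cast_nonneg _
  constructor
  · have h3 : (7 : ℤ) * D * κ ≤ 4 * F2 D κ := F2_low (Nat.cast_nonneg _) (by
      have : 4 * κ ≤ D := by omega
      exact_mod_cast this)
    have h4 : (7 : ℤ) * D * κ ≤ 4 * ((2 * t + 1) * (v * (v + 1))) := by linarith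
    have h5 : 7 * D * κ ≤ 4 * ((2 * t + 1) * (v * (v + 1))) := by exact_mod_cast h4
    have h6 : 7 * D * v ≤ 7 * D * κ := Nat.mul_le_mul_left _ hκv
    have h7 : v * (7 * D) ≤ v * (4 * ((2 * t + 1) * (v + 1))) := by
      calc v * (7 * D) = 7 * D * v := by ring
        _ ≤ 4 * ((2 * t + 1) * (v * (v + 1))) := h6.trans h5
        _ = _ := by ring
    have h8 := Nat.le_of_mul_le_mul_left h7 (by omega)
    have h9 : (2 * t + 1) * (v + 1) ≤ 3 * t * (v + 1) := Nat.mul_le_mul_right _ (by omega)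
    have h10 : t * (6 * (v + 1)) ≤ t * (7 * v) := Nat.mul_le_mul_left _ (by omega)
    have h11 : 2 * (3 * t * (v + 1)) = t * (6 * (v + 1)) := by ring
    have h12 : t * (7 * v) = 7 * (t * v) := by ring
    have h13 : 2 * t * v = 2 * (t * v) := by ring
    omega
  · have h3 : F2 D (κ + 1) ≤ (κ + 1) * (2 * D) := by
      unfold F2
      have h4 : (18 : ℤ) ≤ κ := by exact_mod_cast (by omega : 18 ≤ κ)
      nlinarith
    have h4 : ((2 : ℤ) * t + 1) * (v * (v + 1)) ≤ (κ + 1) * (2 * D) := by linarith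
    have h5 : (2 * t + 1) * (v * (v + 1)) ≤ (κ + 1) * (2 * D) := by exact_mod_cast h4
    have h6 : κ + 1 ≤ 2 * (v + 1) := by
      have h7 : 9 * (κ - v) ≤ η * (κ - v) := Nat.mul_le_mul_right _ hη
      omega
    have h7 : (v + 1) * ((2 * t + 1) * v) ≤ (v + 1) * (4 * D) := by
      calc (v + 1) * ((2 * t + 1) * v) = (2 * t + 1) * (v * (v + 1)) := by ring
        _ ≤ (κ + 1) * (2 * D) := h5
        _ ≤ 2 * (v + 1) * (2 * D) := Nat.mul_le_mul_right _ h6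
        _ = (v + 1) * (4 * D) := by ring
    exact Nat.le_of_mul_le_mul_left h7 (by omega)

theorem plane_C2 : ∃ G A : ℕ, ∀ (p D r v : ℕ) (y : Fin r → ℕ) (P : Finset (Fin r)),
    (∀ i ∈ P, y i = v) → 4 * D ≤ ∑ i ∈ P, y i → 1 ≤ p → A * p ^ 6 ≤ v → D ≤ 8 * v * (v + 1) →
      v ^ 2 ≤ 4 * p ^ 2 * D → StripGain D G P y v := by
  obtain ⟨η, C, hη, hC, hQ⟩ := QT_int
  refine ⟨256 * (200 * η) ^ 2, 10 ^ 7 * η ^ 3 * C, ?_⟩
  intro p D r v y P hP hPs hp hv hD hvD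
  have hp6 : 1 ≤ p ^ 6 := Nat.one_le_pow _ _ hp
  have hη3 : 1 ≤ η ^ 3 := Nat.one_le_pow _ _ (by omega)
  have hv1 : 10 ^ 7 * η ^ 3 * p ^ 6 ≤ v := by
    refine le_trans ?_ hv
    exact Nat.mul_le_mul_right _ (Nat.le_mul_of_pos_right _ hC)
  have hv0 : 10 ^ 7 ≤ v := by
    refine le_trans ?_ hv1
    calc 10 ^ 7 = 10 ^ 7 * 1 * 1 := by norm_num
      _ ≤ _ := Nat.mul_le_mul (Nat.mul_le_mul_left _ hη3) hp6
  obtain ⟨t, κ, e, ht, hk1, hκv, hk2, hκD, h1, h2, he⟩ := C2_position hη hp hv1 hD hvD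
  obtain ⟨k, hκ⟩ : ∃ k, κ = v + k := ⟨κ - v, by omega⟩
  have hkk : κ - v = k := by omega
  obtain ⟨hD2, hN4⟩ := C2_points (by omega) hη ht hκv hk2 hκD h1 h2
  rw [hkk] at hk1 hk2
  obtain ⟨A, B, hA1, hB1, hAB, hA, hB, hcount⟩ := C2_sides (by omega) h1 h2
  obtain ⟨H, hH, hH1, hH2⟩ := C2_H hη hC hp hv hvD ht hκ hk1 hk2 (by omega) hD2 hB
  have hk3 : 2 ≤ k := by
    by_contra h
    have h3 : 2 * η * k ≤ 2 * η * 1 := Nat.mul_le_mul_left _ (by omega)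
    have h4 : η ≤ η ^ 3 * p ^ 6 := by
      calc η = η ^ 1 * 1 := by ring
        _ ≤ η ^ 3 * p ^ 6 := Nat.mul_le_mul (Nat.pow_le_pow_right (by omega) (by norm_num)) hp6
    have h5 : 10 ^ 7 * η ^ 3 * p ^ 6 = 10 ^ 7 * (η ^ 3 * p ^ 6) := by ring
    omega
  obtain ⟨hs1, hs2⟩ := strip_C2 (η := η) (C := C) hQ ht hk3 hκ (by omega) (by omega) hA hB hH hH1 hH2
  -- the points
  have hcard : P.card * v = ∑ i ∈ P, y i := by
    rw [Finset.sum_congr rfl hP, Finset.sum_const, smul_eq_mul]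
  have hN : 2 * t + 1 ≤ P.card := by
    refine Nat.le_of_mul_le_mul_right (c := v) ?_ (by omega)
    rw [hcard]
    exact hN4.trans hPs
  obtain ⟨f, hf, hfP⟩ := exists_enum P hN
  have hyf : ∀ k, y (f k) = v := fun k => hP _ (hfP k)
  have hye : y ∘ f = fun _ => v := funext hyf
  have hsum : ∑ k, y (f k) = (2 * t + 1) * v := by
    rw [Finset.sum_congr rfl (fun k _ => hyf k), Finset.sum_const, Finset.card_univ,
      Fintype.card_fin, smul_eq_mul]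
  have hk9 : 9 * k ≤ η * k := Nat.mul_le_mul_right _ hη
  refine gain_of_hFm (κ := κ) (A := A) (B := B) f hf hfP (by omega) (by omega) (by omega) hAB
    ?_ ?_ ?_ ?_ ?_ ?_
  · rw [hcount]
    congr 1
    rw [Finset.sum_congr rfl (fun k _ => by rw [hyf k]), Finset.sum_const, Finset.card_univ,
      Fintype.card_fin, smul_eq_mul]
  · rw [hye, hFm_const]
    exact hs1
  · rw [hye, hFm_const]
    exact hs2
  · rw [hsum]
    exact Nat.mul_pos (by omega) (by omega)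
  · rw [hsum]
    exact hN4.trans (he.trans (Nat.mul_le_mul_left _ hA1))
  · rw [hsum]
    exact hN4.trans (he.trans (Nat.mul_le_mul_left _ hB1))

end Pool.Agent.Work.MP_0421d9_ag.LD
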