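import Pool.Agent.Work.MP_0421d9_ag.ZDefs2
import Pool.Agent.Work.MP_0421d9_ag.ZLvNum
import Pool.Agent.Work.MP_0421d9_ag.ZPStep
import Pool.Agent.Work.MP_0421d9_ag.ZWinP
import Pool.Agent.Work.MP_0421d9_ag.ZPC2

/-!
The levels of the plane and the final theorem (helper21, after the plan of helper69).
-/

namespace Pool.Agent.Work.MP_0421d9_ag.LD

open MvPolynomial Module

/-! ### simple points -/

theorem zp_simple (D N : ℕ) : hT D Set.univ 1 N = (D + 2).choose 2 - N := by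
  induction N with
  | zero =>
    have h1 : hPm D (fun _ : Fin 0 => 0) = (D + 2).choose 2 := by
      have h2 : linSys D (gpt 0) (fun _ : Fin 0 => 0) = Rd D := by
        ext F
        exact ⟨fun h => h.1, fun h => ⟨h, fun i => i.elim0⟩⟩
      unfold hPm
      rw [h2, finrank_Rd]
    rw [hPm_eq_hTm, hTm_zero_fam (m := 1)] at h1
    exact h1
  | succ N ih =>
    have h3 : hT D Set.univ 1 (N + 1) ≤ hT D Set.univ 1 N - 1 := ux_simple_drop
    have h1 := hPm_count D (fun _ : Fin (N + 1) => 1)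
    rw [hPm_eq_hTm, hTm_const, Finset.sum_const, Finset.card_univ, Fintype.card_fin,
      smul_eq_mul] at h1
    have h2 : (1 + 1).choose 2 = 1 := rfl
    rw [h2] at h1
    omega

theorem FP_one (R : ℕ) : FP 1 R := by
  intro r c D m hc hc1 hm _
  have hm1 : ∀ i, m i ≤ 1 := fun i => (hm i).trans hc1
  rw [hPm_eq_hTm, hTm_simple hm1, zp_simple]
  congr 1
  refine Finset.sum_congr rfl fun i _ => ?_
  have h := hm1 i
  interval_cases m i <;> rfl

theorem FP_base : ∃ R₀ : ℕ, ∀ R, R₀ ≤ R → FP 1 R := ⟨0, fun R _ => FP_one R⟩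

theorem FP_level (n : ℕ) : ∃ R₀ : ℕ, ∀ R, R₀ ≤ R → FP (R ^ n) R := by
  induction n with
  | zero =>
    refine ⟨0, fun R _ => ?_⟩
    rw [pow_zero]
    exact FP_one R
  | succ n ih =>
    obtain ⟨R₁, ih⟩ := ih
    obtain ⟨G₁, A₁, hC2⟩ := plane_C2
    obtain ⟨K, hK⟩ : ∃ K, K = n + 3 := ⟨_, rfl⟩
    obtain ⟨G, hG⟩ : ∃ G, G = 2 ^ (2 * K + 8) + G₁ := ⟨_, rfl⟩
    obtain ⟨X, hX⟩ : ∃ X, X = 1000 * G := ⟨_, rfl⟩
    have hG1 : 1 ≤ G := by
      have : 1 ≤ 2 ^ (2 * K + 8) := Nat.one_le_two_pow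
      omega
    have hX1 : 1 ≤ X := by omega
    obtain ⟨R₂, hpar⟩ := zp_params (2 * (n + 1)) (2 * (n + 1)) K G X A₁ le_rfl
    refine ⟨R₂ + 40 * X * (R₁ + 4) + (80 * X) ^ n * (10 ^ 5 * G) +
      (4 * X) ^ (2 * K - 1) * (2 ^ (2 * K + 3) * df K), fun R hR => ?_⟩
    obtain ⟨s, q, p, J, hW, hq, ha2, hRs, hp, hJ, hR1, hR2, hR4⟩ := hpar R (by omega)
    have hT1 : 1 ≤ (s + 1) ^ (2 * (n + 1)) := Nat.one_le_pow _ _ (Nat.succ_pos s)
    -- the plane of the previous level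
    obtain ⟨ρ, hρ⟩ : ∃ ρ, ρ = R / (40 * X) := ⟨_, rfl⟩
    have h20X : 40 * X * (R₁ + 4) ≤ R := by omega
    have hρ1 : R₁ + 4 ≤ ρ := by
      rw [hρ, Nat.le_div_iff_mul_le (by omega), Nat.mul_comm]
      exact h20X
    have hR0 : 1 ≤ R := by
      have := Nat.div_le_self R (40 * X)
      omega
    have hWP := winP_of_FP (T := ρ ^ n) (ρ := ρ) (Nat.one_le_pow _ _ (by omega)) (by omega)
      (ih ρ (by omega))
    have hTpT : R ^ (n + 1) ≤ (s + 1) ^ (2 * (n + 1)) := by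
      rw [pow_mul]
      exact Nat.pow_le_pow_left hRs _
    have hJ' : 100 * p ^ 2 + 64 * p ^ 2 * (Nat.log 2 (R ^ (n + 1) + 1) + 2) + 2 ≤ J := by
      refine le_trans ?_ hJ
      have h1 : Nat.log 2 (R ^ (n + 1) + 1) ≤ Nat.log 2 ((s + 1) ^ (2 * (n + 1)) + 1) :=
        Nat.log_mono_right (Nat.add_le_add_right hTpT 1)
      gcongr
    have hR3 : 40 * X * ρ ≤ R := by
      rw [hρ]
      exact Nat.mul_div_le R (40 * X)
    have hTp2 : 10 ^ 5 * G * R ^ (n + 1) ≤ ρ ^ n * R ^ 2 := by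
      have h1 : R ≤ 80 * X * ρ := by
        have := zp_div (R := R) (Z := 40 * X) (by omega) (by nlinarith)
        rw [← hρ] at this
        calc R ≤ 2 * (40 * X) * ρ := this
          _ = 80 * X * ρ := by ring
      have h2 : (80 * X) ^ n * (10 ^ 5 * G) ≤ R := by omega
      have h3 : (80 * X) ^ n * (10 ^ 5 * G * R ^ (n + 1)) ≤ (80 * X) ^ n * (ρ ^ n * R ^ 2) := by
        calc (80 * X) ^ n * (10 ^ 5 * G * R ^ (n + 1))
            = ((80 * X) ^ n * (10 ^ 5 * G)) * R ^ (n + 1) := by ring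
          _ ≤ R * R ^ (n + 1) := Nat.mul_le_mul_right _ h2
          _ = R ^ n * R ^ 2 := by ring
          _ ≤ (80 * X * ρ) ^ n * R ^ 2 := Nat.mul_le_mul_right _ (Nat.pow_le_pow_left h1 n)
          _ = (80 * X) ^ n * (ρ ^ n * R ^ 2) := by rw [mul_pow, mul_assoc]
      exact Nat.le_of_mul_le_mul_left h3 (pow_pos (by omega) n)
    have hTp3 : 2 ^ (2 * K + 3) * df K * R ^ (n + 1) ≤ (R / (2 * X)) ^ (2 * K - 1) := by
      have h1 : R ≤ 4 * X * (R / (2 * X)) := by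
        have := zp_div (R := R) (Z := 2 * X) (by omega) (by nlinarith)
        calc R ≤ 2 * (2 * X) * (R / (2 * X)) := this
          _ = 4 * X * (R / (2 * X)) := by ring
      refine zp_pow h1 ?_ (by omega)
      have h2 : (4 * X) ^ (2 * K - 1) * (2 ^ (2 * K + 3) * df K) ≤ R := by omega
      calc (4 * X) ^ (2 * K - 1) * (2 ^ (2 * K + 3) * df K * R ^ (n + 1))
          = ((4 * X) ^ (2 * K - 1) * (2 ^ (2 * K + 3) * df K)) * R ^ (n + 1) := by ring
        _ ≤ R * R ^ (n + 1) := Nat.mul_le_mul_right _ h2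
        _ = R ^ (n + 2) := by ring
        _ ≤ R ^ (2 * K - 1) := Nat.pow_le_pow_right hR0 (by omega)
    exact FP_step hC2 hW hWP hT1 (Nat.one_le_pow _ _ (by omega)) hq ha2 (by omega)
      (by omega) hp hJ' (hG.ge.trans' (Nat.le_add_right _ _))
      (hG.ge.trans' (Nat.le_add_left _ _)) hX.ge hR1 hR2 hR3 hR4 hTpT hTp2 hTp3

/-- SHGH for all systems in degree at least `C M ^ (1 + ε)` -/
theorem all_systems {ε : ℝ} (hε : 0 < ε) : ∃ C : ℝ, ∀ (r d M : ℕ) (p : Fin r → V3)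
    (m : Fin r → ℕ), GenericPoints p → (∀ i, m i ≤ M) → C * (M : ℝ) ^ (1 + ε) ≤ d →
      finrank ℂ (linSys d p m) = (d + 2).choose 2 - ∑ i, (m i + 1).choose 2 := by
  obtain ⟨n, hn⟩ := exists_nat_ge (1 / ε)
  have hn0 : 0 < n := by
    rcases Nat.eq_zero_or_pos n with h | h
    · rw [h, Nat.cast_zero] at hn
      have : 0 < 1 / ε := by positivity
      linarith
    · exact h
  have hnR : (0 : ℝ) < n := by exact_mod_cast hn0
  obtain ⟨R₀, hR₀⟩ := FP_level n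
  refine ⟨R₀ + 2, fun r d M p m hp hm hd => ?_⟩
  rw [hPm_eq hp]
  rcases Nat.eq_zero_or_pos M with hM | hM
  · have hm0 : m = fun _ => 0 := by
      funext i
      have := hm i
      omega
    rw [hPm_eq_hTm, hTm_simple (fun i => (hm i).trans (by omega)), zp_simple, hm0]
    simp
  · -- the level
    obtain ⟨t, ht⟩ : ∃ t, t = ⌈(M : ℝ) ^ ((1 : ℝ) / n)⌉₊ := ⟨_, rfl⟩
    have hM1 : (1 : ℝ) ≤ M := by exact_mod_cast hM
    have hroot1 : (1 : ℝ) ≤ (M : ℝ) ^ ((1 : ℝ) / n) := Real.one_le_rpow hM1 (by positivity)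
    have ht1 : (M : ℝ) ^ ((1 : ℝ) / n) ≤ t := by
      rw [ht]
      exact Nat.le_ceil _
    have ht2 : (t : ℝ) ≤ (M : ℝ) ^ ((1 : ℝ) / n) + 1 := by
      rw [ht]
      exact (Nat.ceil_lt_add_one (by positivity)).le
    have hMt : M ≤ t ^ n := by
      have h1 : (M : ℝ) ≤ (t : ℝ) ^ n := by
        calc (M : ℝ) = ((M : ℝ) ^ ((1 : ℝ) / n)) ^ n := by
              rw [← Real.rpow_natCast, ← Real.rpow_mul (by positivity), one_div,
                inv_mul_cancel₀ hnR.ne', Real.rpow_one]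
          _ ≤ (t : ℝ) ^ n := pow_le_pow_left₀ (by positivity) ht1 n
      exact_mod_cast h1
    have hRn : M ≤ (R₀ + t) ^ n := hMt.trans (Nat.pow_le_pow_left (by omega) n)
    refine hR₀ (R₀ + t) (by omega) r M d m hM hRn hm ?_
    have h2 : (((R₀ + t) * M : ℕ) : ℝ) ≤ d := by
      push_cast
      refine le_trans ?_ hd
      have h3 : (M : ℝ) ^ ((1 : ℝ) / n) ≤ (M : ℝ) ^ ε := by
        apply Real.rpow_le_rpow_of_exponent_le hM1
        rw [div_le_iff₀ hnR]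
        rw [div_le_iff₀ hε] at hn
        linarith
      have h4 : (M : ℝ) ^ (1 + ε) = M * (M : ℝ) ^ ε := by
        rw [Real.rpow_add (by positivity), Real.rpow_one]
      have h5 : (1 : ℝ) ≤ (M : ℝ) ^ ε := hroot1.trans h3
      rw [h4]
      have h6 : ((R₀ : ℝ) + t) ≤ (R₀ + 2) * (M : ℝ) ^ ε := by
        have h7 : (R₀ : ℝ) ≤ R₀ * (M : ℝ) ^ ε := le_mul_of_one_le_right (by positivity) h5
        nlinarith
      calc ((R₀ : ℝ) + t) * M ≤ ((R₀ + 2) * (M : ℝ) ^ ε) * M :=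
            mul_le_mul_of_nonneg_right h6 (by positivity)
        _ = (R₀ + 2) * (M * (M : ℝ) ^ ε) := by ring
    exact_mod_cast h2

end Pool.Agent.Work.MP_0421d9_ag.LD
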