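import Pool.Agent.Work.MP_0421d9_ag.ZPoly

/-!
Additive functions on the factors of a polynomial; a component with a very negative intersection
number.
-/

namespace Pool.Agent.Work.MP_0421d9_ag.LD

open MvPolynomial Module

section ZNeg

variable {ι : Type} [Fintype ι] {q : ι → Fin 2 → ℂ}

theorem totalDegree_unit {g : P2} (hg : IsUnit g) : g.totalDegree = 0 := by
  obtain ⟨h, hh⟩ := hg.exists_right_inv
  have hg0 : g ≠ 0 := hg.ne_zero
  have hh0 : h ≠ 0 := by rintro rfl; simp at hh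
  have := totalDegree_mul' hg0 hh0
  rw [hh, totalDegree_one] at this
  omega

theorem mu_one (x : Fin 2 → ℂ) : mu x 1 = 0 := by
  have := mu_mul (x := x) (one_ne_zero : (1 : P2) ≠ 0) (one_ne_zero : (1 : P2) ≠ 0)
  rw [one_mul] at this
  omega

theorem mu_unit (x : Fin 2 → ℂ) {g : P2} (hg : IsUnit g) : mu x g = 0 := by
  obtain ⟨h, hh⟩ := hg.exists_right_inv
  have hg0 : g ≠ 0 := hg.ne_zero
  have hh0 : h ≠ 0 := by rintro rfl; simp at hh
  have := mu_mul (x := x) hg0 hh0
  rw [hh, mu_one] at this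
  omega

theorem totalDegree_pos_of_irreducible {b : P2} (hb : Irreducible b) : 1 ≤ b.totalDegree := by
  by_contra h
  have h0 : b.totalDegree = 0 := by omega
  rw [totalDegree_eq_zero_iff_eq_C] at h0
  apply hb.not_isUnit
  rw [h0]
  refine IsUnit.map C ?_
  rw [isUnit_iff_ne_zero]
  intro hc
  rw [hc, C_0] at h0
  exact hb.ne_zero h0

theorem exists_irreducible_dvd {a : P2} (ha : a ≠ 0) (hu : ¬ IsUnit a) :
    ∃ b, Irreducible b ∧ b ∣ a := WfDvdMonoid.exists_irreducible_factor hu ha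

/-- a property of the nonzero divisors of `f` which holds for units and irreducible elements and
is multiplicative -/
theorem induct_factor {f : P2} (hf : f ≠ 0) {P : P2 → Prop} (hu : ∀ g, IsUnit g → P g)
    (hi : ∀ b, Irreducible b → b ∣ f → P b)
    (hm : ∀ g h, g ≠ 0 → h ≠ 0 → P g → P h → P (g * h)) : P f := by
  have key : ∀ g : P2, g ≠ 0 → g ∣ f → P g := by
    intro g
    induction g using WfDvdMonoid.induction_on_irreducible with
    | zero => intro h; exact absurd rfl h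
    | unit g hg => exact fun _ _ => hu g hg
    | mul a i ha0 hi' iha =>
      intro _ hd
      exact hm i a hi'.ne_zero ha0 (hi i hi' ((Dvd.intro _ rfl).trans hd))
        (iha ha0 ((Dvd.intro_left _ rfl).trans hd))
  exact key f hf dvd_rfl

/-- the intersection number of `(D; m)` and a curve is additive -/
theorem sum_factor_le {f : P2} (hf : f ≠ 0) {a : ℕ} {x : ι → ℕ}
    (h : ∀ b, Irreducible b → b ∣ f → ∑ i, x i * mu (q i) b ≤ a * b.totalDegree) :
    ∑ i, x i * mu (q i) f ≤ a * f.totalDegree := by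
  refine induct_factor hf (P := fun f => ∑ i, x i * mu (q i) f ≤ a * f.totalDegree) ?_ h ?_
  · intro g hg
    simp only [mu_unit _ hg, mul_zero, Finset.sum_const_zero, zero_le]
  · intro g k hg hk h1 h2
    have e : ∑ i, x i * mu (q i) (g * k) = ∑ i, x i * mu (q i) g + ∑ i, x i * mu (q i) k := by
      rw [← Finset.sum_add_distrib]
      exact Finset.sum_congr rfl fun i _ => by rw [mu_mul hg hk, mul_add]
    rw [e, totalDegree_mul' hg hk, mul_add]
    exact Nat.add_le_add h1 h2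

theorem le_sum_factor {f : P2} (hf : f ≠ 0) {a : ℕ} {x : ι → ℕ}
    (h : ∀ b, Irreducible b → b ∣ f → a * b.totalDegree ≤ ∑ i, x i * mu (q i) b) :
    a * f.totalDegree ≤ ∑ i, x i * mu (q i) f := by
  refine induct_factor hf (P := fun f => a * f.totalDegree ≤ ∑ i, x i * mu (q i) f) ?_ h ?_
  · intro g hg
    rw [totalDegree_unit hg, mul_zero]
    exact Nat.zero_le _
  · intro g k hg hk h1 h2
    have e : ∑ i, x i * mu (q i) (g * k) = ∑ i, x i * mu (q i) g + ∑ i, x i * mu (q i) k := by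
      rw [← Finset.sum_add_distrib]
      exact Finset.sum_congr rfl fun i _ => by rw [mu_mul hg hk, mul_add]
    rw [e, totalDegree_mul' hg hk, mul_add]
    exact Nat.add_le_add h1 h2

/-- `φ` is additive on products; `φ = (degree) / D` in the plane -/
theorem exists_neg {D : ℕ} {m : ι → ℕ} {f : P2} (hf : f ≠ 0) (hfV : f ∈ VD D q m)
    {φ : P2 → ℝ} (hφ : ∀ g h : P2, g ≠ 0 → h ≠ 0 → φ (g * h) = φ g + φ h)
    (hφu : ∀ g, IsUnit g → φ g = 0) (hφ0 : ∀ b, Irreducible b → b ∣ f → 0 ≤ φ b) (hφ1 : φ f ≤ 1)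
    (hL : D ^ 2 < ∑ i, m i ^ 2) :
    ∃ b, Irreducible b ∧ b ∣ f ∧ D * b.totalDegree < ∑ i, m i * mu (q i) b ∧
      φ b * ((∑ i, (m i : ℝ) ^ 2) - D ^ 2) ≤
        (∑ i, (m i : ℝ) * mu (q i) b) - D * b.totalDegree := by
  by_contra hcon
  push Not at hcon
  obtain ⟨Λ, hΛ⟩ : ∃ Λ : ℝ, Λ = (∑ i, (m i : ℝ) ^ 2) - D ^ 2 := ⟨_, rfl⟩
  rw [← hΛ] at hcon
  have hL' : (0 : ℝ) < Λ := by
    rw [hΛ, sub_pos]
    exact_mod_cast hL
  obtain ⟨Y, hY⟩ : ∃ Y : P2 → ℝ,
      ∀ g, Y g = (∑ i, (m i : ℝ) * mu (q i) g) - D * g.totalDegree := ⟨_, fun g => rfl⟩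
  have hYm : ∀ g h : P2, g ≠ 0 → h ≠ 0 → Y (g * h) = Y g + Y h := by
    intro g h hg hh
    rw [hY, hY, hY, totalDegree_mul' hg hh]
    have e : ∑ i, (m i : ℝ) * mu (q i) (g * h) =
        ∑ i, (m i : ℝ) * mu (q i) g + ∑ i, (m i : ℝ) * mu (q i) h := by
      rw [← Finset.sum_add_distrib]
      exact Finset.sum_congr rfl fun i _ => by rw [mu_mul hg hh]; push_cast; ring
    rw [e]
    push_cast
    ring
  have hYu : ∀ g, IsUnit g → Y g = 0 := by
    intro g hg
    rw [hY, totalDegree_unit hg]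
    simp [mu_unit _ hg]
  have key : Y f ≤ φ f * Λ ∧ (Y f ≤ 0 ∨ Y f < φ f * Λ) := by
    refine induct_factor hf (P := fun f => Y f ≤ φ f * Λ ∧ (Y f ≤ 0 ∨ Y f < φ f * Λ)) ?_ ?_ ?_
    · intro g hg
      rw [hYu g hg, hφu g hg, zero_mul]
      exact ⟨le_rfl, Or.inl le_rfl⟩
    · intro b hb hbf
      rcases lt_or_ge (D * b.totalDegree) (∑ i, m i * mu (q i) b) with h | h
      · have := hcon b hb hbf h
        rw [← hY b] at this
        exact ⟨this.le, Or.inr this⟩
      · have h1 : Y b ≤ 0 := by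
          rw [hY, sub_nonpos]
          exact_mod_cast h
        exact ⟨h1.trans (mul_nonneg (hφ0 b hb hbf) hL'.le), Or.inl h1⟩
    · rintro g h hg hh ⟨h1, h2⟩ ⟨h3, h4⟩
      rw [hYm g h hg hh, hφ g h hg hh, add_mul]
      refine ⟨add_le_add h1 h3, ?_⟩
      rcases h2 with h2 | h2
      · rcases h4 with h4 | h4
        · exact Or.inl (by linarith)
        · exact Or.inr (by linarith)
      · exact Or.inr (by linarith)
  have hYf : Λ ≤ Y f := by
    rw [hY, hΛ]
    have h1 : ∀ i, m i ≤ mu (q i) f := fun i => (vq_iff hf).1 (hfV.2 i)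
    have h2 : f.totalDegree ≤ D := hfV.1
    have e1 : ∑ i, (m i : ℝ) ^ 2 ≤ ∑ i, (m i : ℝ) * mu (q i) f := by
      refine Finset.sum_le_sum fun i _ => ?_
      rw [pow_two]
      exact mul_le_mul_of_nonneg_left (by exact_mod_cast h1 i) (by positivity)
    have e2 : (D : ℝ) * f.totalDegree ≤ D ^ 2 := by
      rw [pow_two]
      exact mul_le_mul_of_nonneg_left (by exact_mod_cast h2) (by positivity)
    linarith
  have h3 : φ f * Λ ≤ Λ := by nlinarith
  rcases key.2 with h | h <;> linarith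

end ZNeg

end Pool.Agent.Work.MP_0421d9_ag.LD
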