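import Pool.Agent.Work.MP_0421d9_ag.ZDefs

/-!
The index theorem, plane case (real arithmetic only).
-/

namespace Pool.Agent.Work.MP_0421d9_ag.LD

section ZNum

variable {ι : Type} [Fintype ι]

/-- the least positive entry -/
theorem exists_min_pos {c : ι → ℕ} {j : ι} (hj : 1 ≤ c j) :
    ∃ i, 1 ≤ c i ∧ ∀ l, 1 ≤ c l → c i ≤ c l := by
  classical
  obtain ⟨i, hi, hmin⟩ := Finset.exists_min_image (Finset.univ.filter fun i => 1 ≤ c i) c
    ⟨j, by simpa using hj⟩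
  refine ⟨i, by simpa using hi, fun l hl => hmin l (by simpa using hl)⟩

/-- plane: `e = degree`, `c i` = multiplicities of the curve, `k i ≤ K` = multiplicities of the
system of degree `D` -/
theorem num_plane {k c : ι → ℕ} {D e K : ℕ} (hK : 1 ≤ K) (hk : ∀ i, k i ≤ K)
    (hD : 12 * K ≤ D) (he : 1 ≤ e) (hXu : ∀ i, 1 ≤ c i → ∑ j, c j ^ 2 ≤ e ^ 2 + c i)
    (hy : D * e < ∑ i, k i * c i)
    (hcase : (∑ i, k i ^ 2 ≤ D ^ 2) ∨
      (e : ℤ) * (∑ i, (k i : ℤ) ^ 2 - D ^ 2) ≤ D * (∑ i, (k i : ℤ) * c i - D * e)) :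
    (∀ i, D * c i ≤ 3 * K * e) ∧ (e : ℤ) * |∑ i, (k i : ℤ) ^ 2 - D ^ 2| ≤ 2 * K * D := by
  -- a positive multiplicity
  obtain ⟨j, hj⟩ : ∃ j, 1 ≤ c j := by
    by_contra h
    push Not at h
    have h0 : ∑ i, k i * c i = 0 := Finset.sum_eq_zero fun i _ => by
      have := h i
      have h1 : c i = 0 := by omega
      rw [h1, mul_zero]
    omega
  obtain ⟨i₀, hi₀, hmin⟩ := exists_min_pos hj
  set m := c i₀ with hm
  have hXu0 := hXu i₀ hi₀
  rw [← hm] at hXu0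
  -- abbreviations
  set S : ℤ := ∑ i, (c i : ℤ) ^ 2 with hS
  set P : ℤ := ∑ i, (k i : ℤ) * c i with hP
  set Q : ℤ := ∑ i, (k i : ℤ) ^ 2 with hQ
  have hSn : ((∑ j, c j ^ 2 : ℕ) : ℤ) = S := by push_cast; rfl
  have hPn : ((∑ i, k i * c i : ℕ) : ℤ) = P := by push_cast; rfl
  have hQn : ((∑ i, k i ^ 2 : ℕ) : ℤ) = Q := by push_cast; rfl
  have hX : ∑ i, ((D : ℤ) * c i - e * k i) ^ 2 = D ^ 2 * S - 2 * D * e * P + e ^ 2 * Q := by
    rw [hS, hP, hQ, Finset.mul_sum, Finset.mul_sum, Finset.mul_sum, ← Finset.sum_sub_distrib,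
      ← Finset.sum_add_distrib]
    exact Finset.sum_congr rfl fun i _ => by ring
  have hy' : (D : ℤ) * e + 1 ≤ P := by
    rw [← hPn]; exact_mod_cast hy
  have hKz : (1 : ℤ) ≤ K := by exact_mod_cast hK
  have hez : (1 : ℤ) ≤ e := by exact_mod_cast he
  have hDz : 12 * (K : ℤ) ≤ D := by exact_mod_cast hD
  have hmz : (1 : ℤ) ≤ m := by exact_mod_cast hi₀
  have hγ : S ≤ (e : ℤ) ^ 2 + m := by rw [← hSn]; exact_mod_cast hXu0
  have hkz : ∀ i, (k i : ℤ) ≤ K := fun i => by exact_mod_cast hk i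
  have hk0 : ∀ i, (0 : ℤ) ≤ k i := fun i => Int.natCast_nonneg _
  have hc0 : ∀ i, (0 : ℤ) ≤ c i := fun i => Int.natCast_nonneg _
  have hD0 : (0 : ℤ) < D := by linarith
  have he0 : (0 : ℤ) < e := by linarith
  have hDe : (0 : ℤ) < D * e := mul_pos hD0 he0
  -- the two cases
  have hδ : (e : ℤ) ^ 2 * |Q - D ^ 2| ≤ 2 * D * e * (P - D * e) - e ^ 2 * (Q - D ^ 2) ∧
      (D : ℤ) * e * (P - D * e) ≤ 2 * D * e * (P - D * e) - e ^ 2 * (Q - D ^ 2) := by
    have hy0 : (0 : ℤ) < P - D * e := by linarith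
    have h1 : 0 ≤ (D : ℤ) * e * (P - D * e) := (mul_pos hDe hy0).le
    by_cases hQ0 : Q - D ^ 2 ≤ 0
    · have h2 : (e : ℤ) ^ 2 * (Q - D ^ 2) ≤ 0 := mul_nonpos_of_nonneg_of_nonpos (by positivity) hQ0
      rw [abs_of_nonpos hQ0]
      constructor <;> linarith
    · push Not at hQ0
      have h3 : (e : ℤ) * (Q - D ^ 2) ≤ D * (P - D * e) := by
        rcases hcase with h | h
        · exfalso
          have : Q ≤ (D : ℤ) ^ 2 := by rw [← hQn]; exact_mod_cast h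
          linarith
        · exact h
      have h4 : (e : ℤ) * ((e : ℤ) * (Q - D ^ 2)) ≤ e * (D * (P - D * e)) :=
        mul_le_mul_of_nonneg_left h3 he0.le
      rw [abs_of_pos hQ0]
      constructor <;> nlinarith [h4]
  obtain ⟨hδ1, hδ2⟩ := hδ
  have hsum : ∑ i, ((D : ℤ) * c i - e * k i) ^ 2 +
      (2 * D * e * (P - D * e) - e ^ 2 * (Q - D ^ 2)) = D ^ 2 * (S - e ^ 2) := by
    rw [hX]; ring
  -- the least multiplicity is small
  have hmK : (D : ℤ) * m ≤ 2 * K * e := by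
    by_contra hcon
    push Not at hcon
    have h1 : (D : ℤ) ^ 2 * S ≤ 4 * ∑ i, ((D : ℤ) * c i - e * k i) ^ 2 := by
      rw [hS, Finset.mul_sum, Finset.mul_sum]
      refine Finset.sum_le_sum fun i _ => ?_
      rcases Nat.eq_zero_or_pos (c i) with h0 | h0
      · rw [h0]
        have : (0 : ℤ) ≤ 4 * ((D : ℤ) * ((0 : ℕ) : ℤ) - e * k i) ^ 2 := by positivity
        simpa using this
      · have h2 : (m : ℤ) ≤ c i := by exact_mod_cast hmin i h0
        have h3 : (D : ℤ) * m ≤ D * c i := mul_le_mul_of_nonneg_left h2 hD0.le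
        have h4 : (e : ℤ) * k i ≤ e * K := mul_le_mul_of_nonneg_left (hkz i) he0.le
        have h5 : (D : ℤ) * c i ≤ 2 * (D * c i - e * k i) := by nlinarith
        have h6 : (0 : ℤ) ≤ D * c i := mul_nonneg hD0.le (hc0 i)
        nlinarith [mul_self_le_mul_self h6 h5]
    have h2 : (D : ℤ) ^ 2 * S < D ^ 2 * (4 * m) := by
      have h3 : 0 < (D : ℤ) * e * (P - D * e) := mul_pos hDe (by linarith)
      have h4 : (D : ℤ) ^ 2 * (S - e ^ 2) ≤ D ^ 2 * m :=
        mul_le_mul_of_nonneg_left (by linarith) (by positivity)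
      nlinarith
    have h3 : S < 4 * m := lt_of_mul_lt_mul_left h2 (by positivity)
    have h4 : (m : ℤ) ^ 2 ≤ S := by
      rw [hS, hm]
      exact Finset.single_le_sum (f := fun i => (c i : ℤ) ^ 2) (fun i _ => sq_nonneg _)
        (Finset.mem_univ i₀)
    have h5 : (m : ℤ) ≤ 3 := by nlinarith
    have h6 : ∑ i, (c i : ℤ) ≤ S := by
      rw [hS]
      refine Finset.sum_le_sum fun i _ => ?_
      rcases Nat.eq_zero_or_pos (c i) with h0 | h0
      · rw [h0]; simp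
      · have : (1 : ℤ) ≤ c i := by exact_mod_cast h0
        nlinarith
    have h7 : P ≤ K * ∑ i, (c i : ℤ) := by
      rw [hP, Finset.mul_sum]
      exact Finset.sum_le_sum fun i _ => mul_le_mul_of_nonneg_right (hkz i) (hc0 i)
    have h8 : ∑ i, (c i : ℤ) ≤ 11 := by linarith
    have h9 : (K : ℤ) * ∑ i, (c i : ℤ) ≤ K * 11 := mul_le_mul_of_nonneg_left h8 (by linarith)
    have h10 : (12 : ℤ) * K ≤ D * e := by nlinarith
    linarith
  -- conclusions
  have hDm : (D : ℤ) ^ 2 * (S - e ^ 2) ≤ D * (2 * K * e) := by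
    have h1 : (D : ℤ) ^ 2 * (S - e ^ 2) ≤ D ^ 2 * m :=
      mul_le_mul_of_nonneg_left (by linarith) (by positivity)
    have h2 : (D : ℤ) * (D * m) ≤ D * (2 * K * e) := mul_le_mul_of_nonneg_left hmK hD0.le
    nlinarith
  have hD2 : (D : ℤ) ≤ 2 * K * e := by nlinarith
  have hsum0 : ∀ i, ((D : ℤ) * c i - e * k i) ^ 2 ≤
      ∑ i, ((D : ℤ) * c i - e * k i) ^ 2 := fun i =>
    Finset.single_le_sum (f := fun i => ((D : ℤ) * c i - e * k i) ^ 2) (fun i _ => sq_nonneg _)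
      (Finset.mem_univ i)
  have hDe0 : 0 < (D : ℤ) * e * (P - D * e) := mul_pos hDe (by linarith)
  refine ⟨fun i => ?_, ?_⟩
  · have h1 : ((D : ℤ) * c i - e * k i) ^ 2 ≤ (2 * K * e) ^ 2 := by
      have h2 : (D : ℤ) * (2 * K * e) ≤ (2 * K * e) * (2 * K * e) :=
        mul_le_mul_of_nonneg_right hD2 (by positivity)
      nlinarith [hsum0 i]
    have h2 : (D : ℤ) * c i - e * k i ≤ 2 * K * e := by
      have := abs_le_of_sq_le_sq' h1 (by positivity)
      exact this.2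
    have h3 : (e : ℤ) * k i ≤ e * K := mul_le_mul_of_nonneg_left (hkz i) he0.le
    have h4 : (D : ℤ) * c i ≤ 3 * K * e := by linarith
    exact_mod_cast h4
  · have h1 : (e : ℤ) ^ 2 * |Q - D ^ 2| ≤ D * (2 * K * e) := by
      have h2 : 0 ≤ ∑ i, ((D : ℤ) * c i - e * k i) ^ 2 :=
        Finset.sum_nonneg fun i _ => sq_nonneg _
      linarith
    have h2 : (e : ℤ) * ((e : ℤ) * |Q - D ^ 2|) ≤ e * (2 * K * D) := by linarith
    exact le_of_mul_le_mul_left h2 he0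

end ZNum

end Pool.Agent.Work.MP_0421d9_ag.LD
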