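import Pool.Agent.Work.MP_0421d9_ag.ZSel

/-!
Selection of the points for the strips of the plane, large multiplicities (helper63):
disjoint sets of points, the numbers `k` and `z`.
-/

namespace Pool.Agent.Work.MP_0421d9_ag.LD

/-- many disjoint sets of even cardinality -/
theorem zsel_many {α : Type} [DecidableEq α] (g : α → ℕ) {w z : ℕ} (hz : 1 ≤ z) (k : ℕ) :
    ∀ P : Finset α, (∀ i ∈ P, g i ≤ w) → k * (z + 2 * w) ≤ ∑ i ∈ P, g i →
      ∃ X : Fin k → Finset α, (∀ j, X j ⊆ P) ∧ (∀ j, (X j).card % 2 = 0) ∧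
        (∀ j, z ≤ ∑ i ∈ X j, g i ∧ ∑ i ∈ X j, g i < z + 2 * w) ∧
        ∀ i j, i ≠ j → Disjoint (X i) (X j) := by
  induction k with
  | zero =>
    intro P _ _
    exact ⟨fun _ => ∅, fun j => j.elim0, fun j => j.elim0, fun j => j.elim0, fun j => j.elim0⟩
  | succ k ih =>
    intro P hP hs
    have e1 : (k + 1) * (z + 2 * w) = k * (z + 2 * w) + (z + 2 * w) := by ring
    obtain ⟨Q, hQP, hQc, -, hQ1, hQ2⟩ := zsel_pick P g (w := w) (A := z) (par := 0) (by norm_num)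
      hP (by omega) hz
    have h1 := Finset.sum_sdiff (f := g) hQP
    obtain ⟨X, hX1, hX2, hX3, hX4⟩ := ih (P \ Q) (fun i hi => hP i (Finset.mem_sdiff.mp hi).1)
      (by omega)
    have hd : ∀ j, Disjoint Q (X j) := fun j =>
      (Finset.disjoint_sdiff).mono_right (hX1 j)
    refine ⟨Fin.cons Q X, fun j => ?_, fun j => ?_, fun j => ?_, fun i j hij => ?_⟩
    · refine Fin.cases ?_ (fun j => ?_) j
      · exact hQP
      · exact (hX1 j).trans Finset.sdiff_subset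
    · refine Fin.cases ?_ (fun j => ?_) j
      · exact hQc
      · exact hX2 j
    · refine Fin.cases ?_ (fun j => ?_) j
      · exact ⟨hQ1, hQ2⟩
      · exact hX3 j
    · revert hij
      refine Fin.cases ?_ (fun i => ?_) i
      · refine Fin.cases ?_ (fun j => ?_) j
        · intro h; exact absurd rfl h
        · intro _; exact hd j
      · refine Fin.cases ?_ (fun j => ?_) j
        · intro _; exact (hd i).symm
        · intro h
          exact hX4 i j (fun h' => h (by rw [h']))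

/-- the union of some of the sets -/
theorem zsel_union {α : Type} [DecidableEq α] (g : α → ℕ) {k : ℕ} {P Q : Finset α}
    {X : Fin k → Finset α} (hQP : Q ⊆ P) (hQc : Q.card % 2 = 1) (hX1 : ∀ j, X j ⊆ P \ Q)
    (hX2 : ∀ j, (X j).card % 2 = 0) (hX4 : ∀ i j, i ≠ j → Disjoint (X i) (X j))
    (J : Finset (Fin k)) : ∃ S ⊆ P, S.card % 2 = 1 ∧
      ∑ i ∈ S, g i = ∑ i ∈ Q, g i + ∑ j ∈ J, ∑ i ∈ X j, g i := by
  have hd : Disjoint Q (J.biUnion X) := by
    rw [Finset.disjoint_biUnion_right]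
    intro j _
    exact (Finset.disjoint_sdiff).mono_right (hX1 j)
  have hpd : (J : Set (Fin k)).PairwiseDisjoint X := fun i _ j _ hij => hX4 i j hij
  refine ⟨Q ∪ J.biUnion X, ?_, ?_, ?_⟩
  · apply Finset.union_subset hQP
    rw [Finset.biUnion_subset]
    intro j _
    exact (hX1 j).trans Finset.sdiff_subset
  · rw [Finset.card_union_of_disjoint hd, Finset.card_biUnion (fun i _ j _ hij => hX4 i j hij)]
    have h1 : 2 ∣ ∑ j ∈ J, (X j).card := Finset.dvd_sum fun j _ => Nat.dvd_of_mod_eq_zero (hX2 j)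
    omega
  · rw [Finset.sum_union hd, Finset.sum_biUnion hpd]

theorem zsel_bern (z k : ℕ) : (z + 1) ^ k * (z + 1) ≤ (z + 1) * z ^ k + k * (z + 1) ^ k := by
  induction k with
  | zero => simp
  | succ k ih =>
    have h1 : (z + 1) ^ (k + 1) * (z + 1) = (z + 1) * ((z + 1) ^ k * (z + 1)) := by ring
    have h2 : (z + 1) * ((z + 1) ^ k * (z + 1)) =
        z * ((z + 1) ^ k * (z + 1)) + (z + 1) ^ (k + 1) := by ring
    have h3 : z * ((z + 1) ^ k * (z + 1)) ≤ z * ((z + 1) * z ^ k + k * (z + 1) ^ k) :=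
      Nat.mul_le_mul_left _ ih
    have h4 : z * ((z + 1) * z ^ k + k * (z + 1) ^ k) =
        (z + 1) * z ^ (k + 1) + k * (z * (z + 1) ^ k) := by ring
    have h5 : k * (z * (z + 1) ^ k) ≤ k * (z + 1) ^ (k + 1) := by
      refine Nat.mul_le_mul_left _ ?_
      rw [pow_succ, mul_comm]
      exact Nat.mul_le_mul_left _ (by omega)
    have h6 : (k + 1) * (z + 1) ^ (k + 1) = k * (z + 1) ^ (k + 1) + (z + 1) ^ (k + 1) := by ring
    omega

theorem zsel_pow {z k : ℕ} (h : 2 * k ≤ z + 1) : (z + 1) ^ k ≤ 2 * z ^ k := by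
  have h1 := zsel_bern z k
  have h2 : 2 * (k * (z + 1) ^ k) ≤ (z + 1) * (z + 1) ^ k := by
    rw [← mul_assoc]
    exact Nat.mul_le_mul_right _ h
  have h3 : (z + 1) * (z + 1) ^ k ≤ (z + 1) * (2 * z ^ k) := by
    have e1 : (z + 1) ^ k * (z + 1) = (z + 1) * (z + 1) ^ k := by ring
    have e2 : (z + 1) * (2 * z ^ k) = 2 * ((z + 1) * z ^ k) := by ring
    omega
  exact Nat.le_of_mul_le_mul_left h3 (by omega)

/-- a number `z` whose `k`-th power is nearly `E / c` -/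
theorem zsel_root {c k E z₀ : ℕ} (hc : 1 ≤ c) (hk : 1 ≤ k) (hz : 2 * k ≤ z₀)
    (h : c * z₀ ^ k ≤ E) : ∃ z, z₀ ≤ z ∧ c * z ^ k ≤ E ∧ E ≤ 2 * (c * z ^ k) := by
  classical
  have hex : ∃ n, E < c * n ^ k := by
    refine ⟨E + 1, ?_⟩
    calc E < E + 1 := Nat.lt_succ_self _
      _ = 1 * (E + 1) ^ 1 := by ring
      _ ≤ c * (E + 1) ^ k := Nat.mul_le_mul hc (Nat.pow_le_pow_right (by omega) hk)
  obtain ⟨n, hn, hmin⟩ : ∃ n, E < c * n ^ k ∧ ∀ m, m < n → c * m ^ k ≤ E :=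
    ⟨Nat.find hex, Nat.find_spec hex, fun m hm => Nat.le_of_not_lt (Nat.find_min hex hm)⟩
  have h1 : z₀ < n := by
    by_contra hcon
    have h2 : c * n ^ k ≤ c * z₀ ^ k :=
      Nat.mul_le_mul_left _ (Nat.pow_le_pow_left (by omega) k)
    omega
  obtain ⟨z, rfl⟩ : ∃ z, n = z + 1 := ⟨n - 1, by omega⟩
  refine ⟨z, by omega, hmin z (by omega), ?_⟩
  have h3 : c * (z + 1) ^ k ≤ c * (2 * z ^ k) := Nat.mul_le_mul_left _ (zsel_pow (by omega))
  have e1 : c * (2 * z ^ k) = 2 * (c * z ^ k) := by ring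
  omega

end Pool.Agent.Work.MP_0421d9_ag.LD
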