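import Pool.Agent.Work.MP_0421d9_ag.ZPASel
import Pool.Agent.Work.MP_0421d9_ag.ZDefs2
import Pool.Agent.Work.MP_0421d9_ag.MGood

/-!
Selection of the points for the strips of the plane, large multiplicities (helper63, after the
plan of helper69).
-/

namespace Pool.Agent.Work.MP_0421d9_ag.LD

theorem zpa_lt_of_pow {a b n : ℕ} (hn : 1 ≤ n) (h : a ^ n ≤ b ^ n) : a ≤ b := by
  by_contra hcon
  have h1 : b ^ n < a ^ n := Nat.pow_lt_pow_left (by omega) (by omega)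
  omega

theorem zpa_df_pos (k : ℕ) : 1 ≤ df k := by
  induction k using df.induct with
  | case1 => exact le_rfl
  | case2 => exact le_rfl
  | case3 k ih =>
    rw [df]
    exact Nat.mul_pos (by omega) ih

theorem zpa_df_succ (n : ℕ) : df (n + 2) ≤ df (n + 3) := by
  conv_rhs => rw [df]
  exact Nat.le_mul_of_pos_left _ (by omega)

/-- the number `z` is small -/
theorem zpa_small {K p D u k z : ℕ} (hkK : k ≤ K) (hk : 2 ≤ k)
    (hD : (16 * K * p) ^ 3 * u ≤ D) (hσ : 4 * p ^ 2 * D ≤ u ^ 2) (hp : 1 ≤ p)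
    (hmin : 3 ≤ k → D ^ (2 * (k - 1) - 1) <
      2 ^ (k - 1 + 3) * (df (k - 1) * (2 * u ^ 2) ^ (k - 1)))
    (hz : 2 ^ (k + 2) * (df k * z ^ k) ≤ D ^ (2 * k - 1)) : 4 * k * p * z ≤ u * D := by
  rcases Nat.lt_or_ge k 3 with h3 | h3
  · obtain rfl : k = 2 := by omega
    have e1 : df 2 = 1 := rfl
    rw [e1] at hz
    have h1 : (4 * 2 * p * z) ^ 2 ≤ (u * D) ^ 2 := by
      have h2 : 16 * z ^ 2 ≤ D ^ 3 := by
        calc 16 * z ^ 2 = 2 ^ (2 + 2) * (1 * z ^ 2) := by ring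
          _ ≤ D ^ (2 * 2 - 1) := hz
          _ = D ^ 3 := by norm_num
      calc (4 * 2 * p * z) ^ 2 = (4 * p ^ 2) * (16 * z ^ 2) := by ring
        _ ≤ (4 * p ^ 2) * D ^ 3 := Nat.mul_le_mul_left _ h2
        _ = (4 * p ^ 2 * D) * D ^ 2 := by ring
        _ ≤ u ^ 2 * D ^ 2 := Nat.mul_le_mul_right _ hσ
        _ = (u * D) ^ 2 := by ring
    exact zpa_lt_of_pow (by norm_num) h1
  · obtain ⟨n, rfl⟩ : ∃ n, k = n + 3 := ⟨k - 3, by omega⟩
    have hmin' := hmin h3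
    have e1 : n + 3 - 1 = n + 2 := by omega
    have e2 : 2 * (n + 2) - 1 = 2 * n + 3 := by omega
    have e3 : 2 * (n + 3) - 1 = (2 * n + 3) + 2 := by omega
    rw [e1, e2] at hmin'
    rw [e3] at hz
    have hdf := zpa_df_pos (n + 2)
    have hdf2 := zpa_df_succ n
    have h1 : z ^ (n + 3) ≤ D ^ 2 * (2 ^ (n + 2) * u ^ (2 * (n + 2))) := by
      have h2 : (2 ^ (n + 5) * df (n + 2)) * z ^ (n + 3) ≤
          (2 ^ (n + 5) * df (n + 2)) * (D ^ 2 * (2 ^ (n + 2) * u ^ (2 * (n + 2)))) := by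
        calc (2 ^ (n + 5) * df (n + 2)) * z ^ (n + 3)
            = 2 ^ (n + 3 + 2) * (df (n + 2) * z ^ (n + 3)) := by ring
          _ ≤ 2 ^ (n + 3 + 2) * (df (n + 3) * z ^ (n + 3)) :=
            Nat.mul_le_mul_left _ (Nat.mul_le_mul_right _ hdf2)
          _ ≤ D ^ (2 * n + 3 + 2) := hz
          _ = D ^ (2 * n + 3) * D ^ 2 := pow_add _ _ _
          _ ≤ (2 ^ (n + 2 + 3) * (df (n + 2) * (2 * u ^ 2) ^ (n + 2))) * D ^ 2 :=
            Nat.mul_le_mul_right _ hmin'.le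
          _ = (2 ^ (n + 5) * df (n + 2)) * (D ^ 2 * (2 ^ (n + 2) * u ^ (2 * (n + 2)))) := by
            rw [mul_pow, ← pow_mul]
            ring
      refine Nat.le_of_mul_le_mul_left h2 (Nat.mul_pos (Nat.pow_pos (by norm_num : 0 < 2)) hdf)
    have h4 : (4 * (n + 3) * p) ^ (n + 3) * (2 ^ (n + 2) * u ^ (n + 1)) ≤ D ^ (n + 1) := by
      have h5 : 2 ^ (n + 2) * (4 * (n + 3) * p) ^ (n + 3) ≤ (16 * K * p) ^ (3 * (n + 1)) := by
        calc 2 ^ (n + 2) * (4 * (n + 3) * p) ^ (n + 3)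
            ≤ 2 ^ (n + 3) * (4 * (n + 3) * p) ^ (n + 3) :=
              Nat.mul_le_mul_right _ (Nat.pow_le_pow_right (by norm_num) (by omega))
          _ = (2 * (4 * (n + 3) * p)) ^ (n + 3) := by rw [← mul_pow]
          _ ≤ (16 * K * p) ^ (n + 3) := by
              refine Nat.pow_le_pow_left ?_ _
              calc 2 * (4 * (n + 3) * p) = 8 * (n + 3) * p := by ring
                _ ≤ 16 * K * p := Nat.mul_le_mul_right _ (by omega)
          _ ≤ (16 * K * p) ^ (3 * (n + 1)) :=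
              Nat.pow_le_pow_right (Nat.mul_pos (by omega) hp) (by omega)
      calc (4 * (n + 3) * p) ^ (n + 3) * (2 ^ (n + 2) * u ^ (n + 1))
          = (2 ^ (n + 2) * (4 * (n + 3) * p) ^ (n + 3)) * u ^ (n + 1) := by ring
        _ ≤ (16 * K * p) ^ (3 * (n + 1)) * u ^ (n + 1) := Nat.mul_le_mul_right _ h5
        _ = ((16 * K * p) ^ 3 * u) ^ (n + 1) := by rw [mul_pow ((16 * K * p) ^ 3) u, ← pow_mul]
        _ ≤ D ^ (n + 1) := Nat.pow_le_pow_left hD _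
    have h5 : (4 * (n + 3) * p * z) ^ (n + 3) ≤ (u * D) ^ (n + 3) := by
      calc (4 * (n + 3) * p * z) ^ (n + 3) = (4 * (n + 3) * p) ^ (n + 3) * z ^ (n + 3) := by
            rw [mul_pow]
        _ ≤ (4 * (n + 3) * p) ^ (n + 3) * (D ^ 2 * (2 ^ (n + 2) * u ^ (2 * (n + 2)))) :=
            Nat.mul_le_mul_left _ h1
        _ = ((4 * (n + 3) * p) ^ (n + 3) * (2 ^ (n + 2) * u ^ (n + 1))) *
              (u ^ (n + 3) * D ^ 2) := by ring
        _ ≤ D ^ (n + 1) * (u ^ (n + 3) * D ^ 2) := Nat.mul_le_mul_right _ h4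
        _ = (u * D) ^ (n + 3) := by rw [mul_pow]; ring
    exact zpa_lt_of_pow (by omega) h5

/-- the numbers `k` and `z` -/
theorem zpa_z {K p D u : ℕ} (hK : 2 ≤ K) (hKu : K ≤ u) (hp : 1 ≤ p)
    (hD : (16 * K * p) ^ 3 * u ≤ D) (hσ : 4 * p ^ 2 * D ≤ u ^ 2)
    (hKD : 2 ^ (K + 3) * (df K * (2 * u ^ 2) ^ K) ≤ D ^ (2 * K - 1)) :
    ∃ k z, 2 ≤ k ∧ k ≤ K ∧ 2 * u ^ 2 ≤ z ∧ 2 ^ (k + 2) * (df k * z ^ k) ≤ D ^ (2 * k - 1) ∧
      D ^ (2 * k - 1) ≤ 2 ^ (k + 4) * (df k * z ^ k) ∧ 4 * k * p * z ≤ u * D := by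
  classical
  have hex : ∃ k, 2 ≤ k ∧ 2 ^ (k + 3) * (df k * (2 * u ^ 2) ^ k) ≤ D ^ (2 * k - 1) := ⟨K, hK, hKD⟩
  obtain ⟨k, ⟨hk2, hk⟩, hmin⟩ : ∃ k, (2 ≤ k ∧
      2 ^ (k + 3) * (df k * (2 * u ^ 2) ^ k) ≤ D ^ (2 * k - 1)) ∧
      ∀ m, m < k → ¬ (2 ≤ m ∧ 2 ^ (m + 3) * (df m * (2 * u ^ 2) ^ m) ≤ D ^ (2 * m - 1)) :=
    ⟨Nat.find hex, Nat.find_spec hex, fun m hm => Nat.find_min hex hm⟩
  have hkK : k ≤ K := by
    by_contra hcon
    exact hmin K (by omega) ⟨hK, hKD⟩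
  have huu : u ≤ u ^ 2 := by
    rw [pow_two]
    exact Nat.le_mul_of_pos_left _ (by omega)
  obtain ⟨z, hz1, hz2, hz3⟩ := zsel_root (c := 2 ^ (k + 2) * df k) (k := k)
    (E := D ^ (2 * k - 1)) (z₀ := 2 * u ^ 2)
    (Nat.mul_pos (Nat.pow_pos (by norm_num : 0 < 2)) (zpa_df_pos k)) (by omega) (by omega) (by
      calc 2 ^ (k + 2) * df k * (2 * u ^ 2) ^ k = 2 ^ (k + 2) * (df k * (2 * u ^ 2) ^ k) := by ring
        _ ≤ 2 ^ (k + 3) * (df k * (2 * u ^ 2) ^ k) :=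
          Nat.mul_le_mul_right _ (Nat.pow_le_pow_right (by norm_num) (by omega))
        _ ≤ D ^ (2 * k - 1) := hk)
  have e1 : 2 ^ (k + 2) * df k * z ^ k = 2 ^ (k + 2) * (df k * z ^ k) := by ring
  rw [e1] at hz2 hz3
  refine ⟨k, z, hk2, hkK, hz1, hz2, ?_, ?_⟩
  · calc D ^ (2 * k - 1) ≤ 2 * (2 ^ (k + 2) * (df k * z ^ k)) := hz3
      _ = 2 ^ (k + 3) * (df k * z ^ k) := by ring
      _ ≤ 2 ^ (k + 4) * (df k * z ^ k) :=
        Nat.mul_le_mul_right _ (Nat.pow_le_pow_right (by norm_num) (by omega))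
  · refine zpa_small hkK hk2 hD hσ hp (fun h3 => ?_) hz2
    have h4 := hmin (k - 1) (by omega)
    by_contra hcon
    exact h4 ⟨by omega, by omega⟩

/-! ### the rows of the triangle -/

theorem zf_succ_le {D κ : ℕ} (h : D + 1 ≤ κ) : Frow D (κ + 1) ≤ Frow D κ := by
  unfold Frow
  have h1 : (κ + 1).choose 2 = κ + κ.choose 2 := by
    rw [Nat.choose_succ_succ' κ 1, Nat.choose_one_right]
  have h2 : (κ + 1) * (D + 1) = κ * (D + 1) + (D + 1) := by ring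
  omega

theorem zf_two {D κ : ℕ} (h : κ ≤ D + 2) : 2 * Frow D κ + κ * κ = κ * (2 * D + 3) := by
  unfold Frow
  rcases Nat.eq_zero_or_pos κ with h0 | h0
  · subst h0; simp
  · obtain ⟨n, rfl⟩ : ∃ n, κ = n + 1 := ⟨κ - 1, by omega⟩
    have h1 := mg_two_choose n
    have h2 : n * (n + 1) ≤ (D + 1) * (n + 1) := Nat.mul_le_mul_right _ (by omega)
    have e1 : (n + 1) * (D + 1) = (D + 1) * (n + 1) := by ring
    have e2 : (n + 1) * (2 * D + 3) = 2 * ((D + 1) * (n + 1)) + (n + 1) := by ring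
    have e3 : (n + 1) * (n + 1) = n * (n + 1) + (n + 1) := by ring
    omega

theorem zf_succ {D κ : ℕ} (h : κ ≤ D + 1) : Frow D (κ + 1) = Frow D κ + (D + 1 - κ) := by
  have h1 := zf_two (D := D) (κ := κ) (by omega)
  have h2 := zf_two (D := D) (κ := κ + 1) (by omega)
  obtain ⟨w, hw⟩ : ∃ w, κ + w = D + 1 := ⟨D + 1 - κ, by omega⟩
  have e1 : (κ + 1) * (κ + 1) = κ * κ + 2 * κ + 1 := by ring
  have e2 : (κ + 1) * (2 * D + 3) = κ * (2 * D + 3) + (2 * D + 3) := by ring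
  omega

theorem zf_mono {D m n : ℕ} (h : m ≤ n) (hn : n ≤ D + 2) : Frow D m ≤ Frow D n := by
  induction n, h using Nat.le_induction with
  | base => exact le_rfl
  | succ n hmn ih =>
    have h1 := zf_succ (D := D) (κ := n) (by omega)
    have h2 := ih (by omega)
    omega

end Pool.Agent.Work.MP_0421d9_ag.LD
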