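import Pool.Agent.Work.MP_0421d9_ag.ZGain

/-!
Strips of the plane with equal multiplicities, the width is the multiplicity.
-/

namespace Pool.Agent.Work.MP_0421d9_ag.LD

open MvPolynomial Module

theorem plane_C1 {D r v : ℕ} {y : Fin r → ℕ} (P : Finset (Fin r)) (hP : ∀ i ∈ P, y i = v)
    (hPs : 4 * D ≤ ∑ i ∈ P, y i) (hv : 1 ≤ v) (hD : 8 * v * (v + 1) ≤ D) :
    StripGain D 32 P y v := by
  -- the numbers
  have hvD : 16 * v ≤ D := by nlinarith
  obtain ⟨n, hn⟩ : ∃ n, n + v = D + 1 := ⟨D + 1 - v, by omega⟩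
  set t := n / (2 * v + 1) with ht
  set s := n % (2 * v + 1) with hs
  have e1 : (2 * v + 1) * t + s = n := Nat.div_add_mod n (2 * v + 1)
  have e2 : s < 2 * v + 1 := Nat.mod_lt _ (by omega)
  have e3 : 4 * v ≤ t := by
    rw [ht, Nat.le_div_iff_mul_le (by omega)]
    nlinarith
  obtain ⟨a, ha⟩ : ∃ a, a + s = t := ⟨t - s, by omega⟩
  have e4 : n = a * v + (t + s) * (v + 1) := by
    rw [← e1, ← ha]
    ring
  have e5 : t ≤ 2 * a := by omega
  have hcard : P.card * v = ∑ i ∈ P, y i := by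
    rw [Finset.sum_congr rfl hP, Finset.sum_const, smul_eq_mul]
  have e6 : (2 * (a + (t + s)) + 1) * v ≤ 4 * D := by
    have h1 : a + (t + s) = 2 * t := by omega
    have h2 : (2 * v + 1) * t ≤ n := by omega
    rw [h1]
    nlinarith
  have hN : 2 * (a + (t + s)) + 1 ≤ P.card := by
    refine Nat.le_of_mul_le_mul_right (c := v) ?_ (by omega)
    rw [hcard]
    exact e6.trans hPs
  obtain ⟨e, he, heP⟩ := exists_enum P hN
  have hye : ∀ k, y (e k) = v := fun k => hP _ (heP k)
  obtain ⟨δ, hδ⟩ : ∃ δ, δ + v = D := ⟨D - v, by omega⟩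
  have hδn : δ + 1 = n := by omega
  have hδ1 : 1 ≤ δ := by omega
  have hK : Killsm D (y ∘ e) {α | α 2 < v ∨ (α 2 = v ∧ α 0 < a * v)} := by
    have h1 := Killsm_const.mpr (kills_strip v a (t + s) δ hv (by omega))
    have h2 : y ∘ e = fun _ => v := funext hye
    rw [h2, ← hδ]
    exact h1
  have hsum : ∑ k, y (e k) = (2 * (a + (t + s)) + 1) * v := by
    rw [Finset.sum_congr rfl (fun k _ => hye k), Finset.sum_const, Finset.card_univ,
      Fintype.card_fin, smul_eq_mul]
  have hDv : D - v = δ := by omega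
  refine gain_of (κ := v) (A := a * v) (B := (t + s) * (v + 1)) e he heP hv (by omega) (by omega)
    ?_ ?_ ?_ ?_ ?_ ?_
  · rw [hDv]
    omega
  · have h1 : ∑ k, (y (e k) + 1).choose 2 = (2 * (a + (t + s)) + 1) * (v + 1).choose 2 := by
      rw [Finset.sum_congr rfl (fun k _ => by rw [hye k]), Finset.sum_const, Finset.card_univ,
        Fintype.card_fin, smul_eq_mul]
    rw [h1]
    have h2 := two_mul_choose v
    obtain ⟨w, hw⟩ : ∃ w, v = w + 1 := ⟨v - 1, by omega⟩
    have h3 := two_mul_choose w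
    have h4 : v.choose 2 = (w + 1).choose 2 := by rw [hw]
    have h5 : D + 1 = a * v + (t + s) * (v + 1) + v := by omega
    have h6 : 2 * (a * v + v * (D + 1)) =
        2 * ((2 * (a + (t + s)) + 1) * (v + 1).choose 2 + v.choose 2) := by
      rw [h5, h4]
      have h7 : 2 * ((2 * (a + (t + s)) + 1) * (v + 1).choose 2 + (w + 1).choose 2) =
          (2 * (a + (t + s)) + 1) * (2 * (v + 1).choose 2) + 2 * (w + 1).choose 2 := by ring
      rw [h7, h2, h3, hw]
      ring
    omega
  · exact hK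
  · rw [hsum]
    exact Nat.mul_pos (by omega) (by omega)
  · rw [hsum]
    have h1 : 2 * (a + (t + s)) + 1 ≤ 32 * a := by omega
    calc _ ≤ 32 * a * v := Nat.mul_le_mul_right _ h1
      _ = _ := by ring
  · rw [hsum]
    have h1 : 2 * (a + (t + s)) + 1 ≤ 32 * (t + s) := by omega
    calc _ ≤ 32 * (t + s) * (v + 1) := Nat.mul_le_mul h1 (by omega)
      _ = _ := by ring

end Pool.Agent.Work.MP_0421d9_ag.LD
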