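import Pool.Agent.Work.MP_0421d9_ag.ZGain
import Pool.Agent.Work.MP_0421d9_ag.VLevel

/-!
Strips of the plane with equal multiplicities: the position in the row.
-/

namespace Pool.Agent.Work.MP_0421d9_ag.LD

open MvPolynomial Module

/-- twice the number of monomials in `κ` rows -/
def F2 (D κ : ℤ) : ℤ := κ * (2 * D + 3) - κ ^ 2

theorem F2_lt {D κ κ' : ℤ} (h : κ < κ') (h' : κ' ≤ D + 1) : F2 D κ < F2 D κ' := by
  unfold F2
  nlinarith [mul_pos (sub_pos.2 h) (show 0 < 2 * D + 3 - κ - κ' by linarith)]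

theorem F2_succ (D κ : ℤ) : F2 D (κ + 1) = F2 D κ + 2 * (D - κ + 1) := by
  unfold F2
  ring

theorem F2_zero (D : ℤ) : F2 D 0 = 0 := by
  unfold F2
  ring

theorem row_exists {D c : ℤ} (hc : 0 ≤ c) (K : ℕ) (hK : c < F2 D K) :
    ∃ κ : ℕ, κ < K ∧ F2 D κ ≤ c ∧ c < F2 D (κ + 1) := by
  induction K with
  | zero =>
    rw [Nat.cast_zero, F2_zero] at hK
    omega
  | succ n ih =>
    rcases lt_or_ge c (F2 D n) with h | h
    · obtain ⟨κ, h1, h2⟩ := ih h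
      exact ⟨κ, by omega, h2⟩
    · push_cast at hK
      exact ⟨n, by omega, h, hK⟩

/-- three numbers in arithmetic progression cannot all be at the ends of rows -/
theorem ap_false {D a κ₀ κ₁ κ₂ c x e : ℤ} (ha : κ₁ = κ₀ + a) (h0 : 0 ≤ κ₀) (ha0 : 0 ≤ a)
    (h12 : κ₁ ≤ κ₂) (h2 : 4 * κ₂ ≤ D) (e0 : |c - F2 D κ₀| ≤ 2 * e)
    (e1 : |c + 2 * x - F2 D κ₁| ≤ 2 * e) (e2 : |c + 4 * x - F2 D κ₂| ≤ 2 * e)
    (he : 4 * e < a ^ 2) (hD : 4 * a ^ 2 ≤ D) : False := by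
  obtain ⟨m, hm⟩ : ∃ m, κ₂ = κ₀ + 2 * a + m := ⟨κ₂ - κ₀ - 2 * a, by ring⟩
  have key : F2 D κ₂ - 2 * F2 D κ₁ + F2 D κ₀ = m * (2 * D + 3 - (κ₂ + 2 * κ₁ - κ₀)) - 2 * a ^ 2 := by
    unfold F2
    rw [hm, ha]
    ring
  rw [abs_le] at e0 e1 e2
  have k1 : m * (2 * D + 3 - (κ₂ + 2 * κ₁ - κ₀)) ≤ 2 * a ^ 2 + 8 * e := by linarith
  have k2 : 2 * a ^ 2 - 8 * e ≤ m * (2 * D + 3 - (κ₂ + 2 * κ₁ - κ₀)) := by linarith
  have k3 : D ≤ 2 * D + 3 - (κ₂ + 2 * κ₁ - κ₀) := by linarith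
  have hD0 : 0 ≤ D := by nlinarith
  rcases lt_trichotomy m 0 with h | h | h
  · nlinarith
  · rw [h, zero_mul] at k2
    nlinarith
  · nlinarith

/-- one of three numbers in arithmetic progression is in the middle part of a row -/
theorem middle {D c x e α β : ℤ} {K Kl : ℕ} (hc : F2 D Kl ≤ c) (hK : c + 4 * x < F2 D K)
    (hKl : Kl ≤ K) (hKD : 4 * (K : ℤ) ≤ D) (hx : 0 ≤ x) (_he : 0 ≤ e)
    (hα : α * (2 * D + 3) ≤ 2 * x - 4 * e) (hα0 : 0 ≤ α) (hα2 : 4 * e < α ^ 2)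
    (hβ : 4 * x + 8 * e < 3 * D * (β + 1)) (hβ2 : 4 * β ^ 2 ≤ D) (hβ0 : 0 ≤ β)
    (hxe : 2 * e ≤ x) :
    ∃ (i κ : ℕ), i ≤ 2 ∧ Kl ≤ κ ∧ κ < K ∧ F2 D κ + 2 * e ≤ c + 2 * (i * x) ∧
      c + 2 * (i * x) + 2 * e ≤ F2 D (κ + 1) := by
  by_contra hcon
  push Not at hcon
  have hKl' : (Kl : ℤ) ≤ K := by exact_mod_cast hKl
  have hKl0 : (0 : ℤ) ≤ Kl := Nat.cast_nonneg _
  have hmono : ∀ κ κ' : ℤ, κ ≤ κ' → κ' ≤ D + 1 → F2 D κ ≤ F2 D κ' := by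
    intro κ κ' h1 h2
    rcases h1.lt_or_eq with h3 | h3
    · exact (F2_lt h3 h2).le
    · rw [h3]
  have hc0 : 0 ≤ c := by
    have h1 := hmono 0 Kl hKl0 (by linarith)
    rw [F2_zero] at h1
    linarith
  have near : ∀ i : ℕ, i ≤ 2 → ∃ κ : ℕ, κ ≤ K ∧ |c + 2 * (i * x) - F2 D κ| ≤ 2 * e := by
    intro i hi
    have hi' : (i : ℤ) ≤ 2 := by exact_mod_cast hi
    have hi0 : (0 : ℤ) ≤ i := Nat.cast_nonneg _
    have hix : (i : ℤ) * x ≤ 2 * x := mul_le_mul_of_nonneg_right hi' hx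
    have hix0 : 0 ≤ (i : ℤ) * x := mul_nonneg hi0 hx
    obtain ⟨κ, h1, h2, h3⟩ := row_exists (D := D) (c := c + 2 * (i * x)) (by linarith) K
      (by linarith)
    have h1' : (κ : ℤ) < K := by exact_mod_cast h1
    have h4 : Kl ≤ κ := by
      by_contra h5
      push Not at h5
      have h6 : ((κ : ℤ) + 1) ≤ Kl := by exact_mod_cast h5
      have h7 := hmono _ _ h6 (by linarith)
      linarith
    have h5 := hcon i κ hi h4 h1
    by_cases h6 : F2 D κ + 2 * e ≤ c + 2 * (i * x)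
    · have h7 := h5 h6
      refine ⟨κ + 1, by omega, ?_⟩
      push_cast
      rw [abs_le]
      constructor <;> linarith
    · push Not at h6
      refine ⟨κ, h1.le, ?_⟩
      rw [abs_le]
      constructor <;> linarith
  obtain ⟨κ₀, a0, b0⟩ := near 0 (by norm_num)
  obtain ⟨κ₁, a1, b1⟩ := near 1 (by norm_num)
  obtain ⟨κ₂, a2, b2⟩ := near 2 (by norm_num)
  have a0' : (κ₀ : ℤ) ≤ K := by exact_mod_cast a0
  have a1' : (κ₁ : ℤ) ≤ K := by exact_mod_cast a1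
  have a2' : (κ₂ : ℤ) ≤ K := by exact_mod_cast a2
  have n0 : (0 : ℤ) ≤ κ₀ := Nat.cast_nonneg _
  have n1 : (0 : ℤ) ≤ κ₁ := Nat.cast_nonneg _
  have n2 : (0 : ℤ) ≤ κ₂ := Nat.cast_nonneg _
  have c0 := abs_le.1 b0
  have c1 := abs_le.1 b1
  have c2 := abs_le.1 b2
  push_cast at b0 b1 b2 c0 c1 c2
  have h01 : (κ₀ : ℤ) ≤ κ₁ := by
    by_contra h
    push Not at h
    have h1 := F2_lt (D := D) h (by linarith)
    linarith
  have h12 : (κ₁ : ℤ) ≤ κ₂ := by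
    by_contra h
    push Not at h
    have h1 := F2_lt (D := D) h (by linarith)
    linarith
  have hdiff : F2 D κ₁ - F2 D κ₀ = (κ₁ - κ₀) * (2 * D + 3 - (κ₁ + κ₀)) := by
    unfold F2
    ring
  have hga : α ≤ (κ₁ : ℤ) - κ₀ := by
    by_contra h
    push Not at h
    have h1 : ((κ₁ : ℤ) - κ₀) * (2 * D + 3 - (κ₁ + κ₀)) ≤ (κ₁ - κ₀) * (2 * D + 3) := by
      apply mul_le_mul_of_nonneg_left _ (by linarith)
      linarith
    have h2 : ((κ₁ : ℤ) - κ₀) * (2 * D + 3) < α * (2 * D + 3) := by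
      apply mul_lt_mul_of_pos_right h
      linarith
    linarith
  have hgb : (κ₁ : ℤ) - κ₀ ≤ β := by
    by_contra h
    push Not at h
    have h1 : (β + 1) * (3 * D) ≤ ((κ₁ : ℤ) - κ₀) * (3 * D) := by
      apply mul_le_mul_of_nonneg_right _ (by linarith)
      linarith
    have h2 : ((κ₁ : ℤ) - κ₀) * (3 * D) ≤ ((κ₁ : ℤ) - κ₀) * (2 * (2 * D + 3 - (κ₁ + κ₀))) := by
      apply mul_le_mul_of_nonneg_left _ (by linarith)
      linarith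
    linarith
  refine ap_false (D := D) (a := (κ₁ : ℤ) - κ₀) (κ₀ := κ₀) (κ₁ := κ₁) (κ₂ := κ₂) (c := c)
    (x := x) (e := e) (by ring) n0 (by linarith) h12 (by linarith) ?_ ?_ ?_ ?_ ?_
  · rw [abs_le]
    constructor <;> linarith
  · rw [abs_le]
    constructor <;> linarith
  · rw [abs_le]
    constructor <;> linarith
  · refine hα2.trans_le ?_
    exact pow_le_pow_left₀ hα0 hga 2
  · refine le_trans ?_ hβ2
    have := pow_le_pow_left₀ (by linarith : (0 : ℤ) ≤ (κ₁ : ℤ) - κ₀) hgb 2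
    linarith

end Pool.Agent.Work.MP_0421d9_ag.LD
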