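import Pool.Agent.Work.MP_0421d9_ag.ZPC2a

/-!
Strips of the plane with equal multiplicities: the transformed systems.
-/

namespace Pool.Agent.Work.MP_0421d9_ag.LD

open MvPolynomial Module

/-- maximal rank on rectangles, with integral constants -/
theorem QT_int : ∃ η C : ℕ, 9 ≤ η ∧ 1 ≤ C ∧ ∀ k H L N : ℕ, 1 ≤ k → η * k ≤ H →
    η * k ≤ L → C * k ^ 5 ≤ L ^ 3 → MR H L k N := by
  obtain ⟨η, C, hη, hC, h⟩ := QT_all 2 (by norm_num)
  obtain ⟨n, hn⟩ := exists_nat_ge (C ^ 3)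
  refine ⟨η + 9, n, by omega, ?_, fun k H L N hk hH hL hCL => ?_⟩
  · have h1 : (1 : ℝ) ≤ C ^ 3 := one_le_pow₀ hC
    exact_mod_cast h1.trans hn
  · have h9 : η * k ≤ (η + 9) * k := Nat.mul_le_mul_right _ (by omega)
    refine h k H L N hk (h9.trans hH) (h9.trans hL) ?_
    have hk0 : (0 : ℝ) ≤ k := Nat.cast_nonneg _
    have hC0 : (0 : ℝ) ≤ C := by linarith
    have h1 : (C * (k : ℝ) ^ (1 + 2 / ((2 : ℕ) + 1 : ℝ))) ^ 3 = C ^ 3 * (k : ℝ) ^ 5 := by
      rw [mul_pow, ← Real.rpow_natCast (((k : ℝ)) ^ (1 + 2 / ((2 : ℕ) + 1 : ℝ))) 3,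
        ← Real.rpow_mul hk0, ← Real.rpow_natCast (k : ℝ) 5]
      norm_num
    have h2 : C ^ 3 * (k : ℝ) ^ 5 ≤ (L : ℝ) ^ 3 := by
      have h3 : ((n * k ^ 5 : ℕ) : ℝ) ≤ ((L ^ 3 : ℕ) : ℝ) := by exact_mod_cast hCL
      push_cast at h3
      refine le_trans ?_ h3
      exact mul_le_mul_of_nonneg_right hn (by positivity)
    rw [← h1] at h2
    exact le_of_pow_le_pow_left₀ (by norm_num) (Nat.cast_nonneg _) h2

/-- the two systems with few rows -/
theorem strip_C2 {η C : ℕ}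
    (hQ : ∀ k H L N : ℕ, 1 ≤ k → η * k ≤ H → η * k ≤ L → C * k ^ 5 ≤ L ^ 3 → MR H L k N)
    {D v t k κ A B H : ℕ} (ht : 1 ≤ t) (hk : 2 ≤ k) (hκ : κ = v + k) (hκD : κ + 1 ≤ D)
    (hηκ : η * k ≤ κ)
    (hA : 2 * (A : ℤ) + F2 D κ = (2 * t + 1) * (v * (v + 1)))
    (hB : 2 * (B : ℤ) + (2 * t + 1) * (v * (v + 1)) = F2 D (κ + 1))
    (hH : H + t + v * (2 * t + 1) = D + κ * t + 1)
    (hH1 : η * k ≤ H) (hH2 : C * k ^ 5 ≤ H ^ 3) :
    hF D κ v (2 * t + 1) ≤ B ∧ hF D (κ - 1) v (2 * t + 1) = 0 := by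
  have hκ' : (κ : ℤ) = v + k := by exact_mod_cast hκ
  have hH' : (H : ℤ) + t + v * (2 * t + 1) = D + κ * t + 1 := by exact_mod_cast hH
  constructor
  · have h1 := transform (D := D) (κ := κ) (m := v) (t := t) (H := H + t) (k := k) ht hκ
      (by omega) hH
    have h2 := (hQ k (κ + 1) (H + t) (2 * t + 1) (by omega) (by omega) (by omega)
      (hH2.trans (Nat.pow_le_pow_left (by omega) 3))).swap
    rw [MR_iff_le] at h2
    refine h1.trans (h2.trans ?_)
    rw [Nat.sub_le_iff_le_add]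
    have h3 := two_mul_choose k
    have h4 : (((H + t) * (κ + 1) : ℕ) : ℤ) ≤ ((B + (2 * t + 1) * (k + 1).choose 2 : ℕ) : ℤ) := by
      have h5 : (2 : ℤ) * (((k + 1).choose 2 : ℕ) : ℤ) = k * (k + 1) := by exact_mod_cast h3
      push_cast
      have h6 : 2 * (((H : ℤ) + t) * (κ + 1)) =
          2 * (B : ℤ) + (2 * t + 1) * (2 * (((k + 1).choose 2 : ℕ) : ℤ)) := by
        rw [h5]
        have h7 : (H : ℤ) + t = D + κ * t + 1 - v * (2 * t + 1) := by linarith
        rw [h7]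
        unfold F2 at hB
        have h8 : (k : ℤ) = κ - v := by linarith
        rw [h8]
        linear_combination (-1 : ℤ) * hB
      linarith
    exact_mod_cast h4
  · obtain ⟨j, rfl⟩ : ∃ j, k = j + 1 := ⟨k - 1, by omega⟩
    have e0 : κ - 1 = v + j := by omega
    have h1 := transform (D := D) (κ := κ - 1) (m := v) (t := t) (H := H) (k := j) ht (by omega)
      (by omega) (by
        have e1 : κ * t = (κ - 1) * t + t := by
          obtain ⟨x, hx⟩ : ∃ x, κ = x + 1 := ⟨κ - 1, by omega⟩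
          rw [hx, Nat.add_sub_cancel]
          ring
        omega)
    have e2 : κ - 1 + 1 = κ := by omega
    rw [e2] at h1
    have hj : η * j ≤ η * (j + 1) := Nat.mul_le_mul_left _ (by omega)
    have h2 := (hQ j κ H (2 * t + 1) (by omega) (by omega) (by omega)
      ((Nat.mul_le_mul_left C (Nat.pow_le_pow_left (by omega) 5)).trans hH2)).swap
    have h3 := h2.emp (by
      have h3 := two_mul_choose j
      have h4 : ((H * κ : ℕ) : ℤ) ≤ (((2 * t + 1) * (j + 1).choose 2 : ℕ) : ℤ) := by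
        have h5 : (2 : ℤ) * (((j + 1).choose 2 : ℕ) : ℤ) = j * (j + 1) := by exact_mod_cast h3
        push_cast
        have h6 : 2 * ((H : ℤ) * κ) + 2 * A =
            (2 * t + 1) * (2 * (((j + 1).choose 2 : ℕ) : ℤ)) := by
          rw [h5]
          have h7 : (H : ℤ) = D + κ * t + 1 - v * (2 * t + 1) - t := by linarith
          rw [h7]
          unfold F2 at hA
          push_cast at hκ'
          have h8 : (j : ℤ) = κ - v - 1 := by linarith
          rw [h8]
          linear_combination hA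
        have h9 : (0 : ℤ) ≤ A := Nat.cast_nonneg _
        linarith
      exact_mod_cast h4)
    omega

end Pool.Agent.Work.MP_0421d9_ag.LD
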