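import Pool.Agent.Work.MP_0421d9_ag.ZPC2b

/-!
Strips of the plane with equal multiplicities: the numbers.
-/

namespace Pool.Agent.Work.MP_0421d9_ag.LD

theorem exists_min_mul {a b : ℕ} (ha : 1 ≤ a) (hb : 1 ≤ b) : ∃ s, b ≤ s * a ∧ s * a < b + a := by
  refine ⟨(b - 1) / a + 1, ?_, ?_⟩
  · have h1 := Nat.lt_mul_div_succ (b - 1) (by omega : 0 < a)
    have h2 : a * ((b - 1) / a + 1) = ((b - 1) / a + 1) * a := by ring
    omega
  · have h1 := Nat.div_mul_le_self (b - 1) a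
    have h2 : ((b - 1) / a + 1) * a = (b - 1) / a * a + a := by ring
    omega

theorem exists_above {a b : ℕ} (ha : 1 ≤ a) : ∃ k, b < a * k ∧ a * k ≤ b + a := by
  refine ⟨b / a + 1, Nat.lt_mul_div_succ b (by omega), ?_⟩
  have h1 := Nat.mul_div_le b a
  rw [mul_add, mul_one]
  omega

/-- the sizes of the numbers -/
theorem C2_sizes {η p D v w : ℕ} (hη : 9 ≤ η) (hp : 1 ≤ p)
    (hv : 10 ^ 7 * η ^ 3 * p ^ 6 ≤ v) (hD : D ≤ 8 * v * (v + 1)) (hvD : v ^ 2 ≤ 4 * p ^ 2 * D)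
    (hw : w = Nat.sqrt D) :
    10 ^ 7 * η ^ 2 ≤ v ∧ 10 ^ 6 * η * p ^ 2 ≤ v ∧ 10 ^ 6 * v ≤ D ∧ w ^ 2 ≤ D ∧ D < (w + 1) ^ 2 ∧
      w ≤ 3 * v ∧ 10 ^ 5 * η * p ^ 2 ≤ w := by
  have hη3 : η ^ 2 ≤ η ^ 3 := Nat.pow_le_pow_right (by omega) (by norm_num)
  have hη1 : η ≤ η ^ 3 := by
    calc η = η ^ 1 := (pow_one η).symm
      _ ≤ η ^ 3 := Nat.pow_le_pow_right (by omega) (by norm_num)
  have hp6 : p ^ 2 ≤ p ^ 6 := Nat.pow_le_pow_right hp (by norm_num)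
  have hp63 : p ^ 3 ≤ p ^ 6 := Nat.pow_le_pow_right hp (by norm_num)
  have hp61 : 1 ≤ p ^ 6 := Nat.one_le_pow _ _ hp
  have g1 : 10 ^ 7 * η ^ 2 ≤ v := by
    calc 10 ^ 7 * η ^ 2 ≤ 10 ^ 7 * η ^ 3 * 1 := by
          rw [mul_one]
          exact Nat.mul_le_mul_left _ hη3
      _ ≤ 10 ^ 7 * η ^ 3 * p ^ 6 := Nat.mul_le_mul_left _ hp61
      _ ≤ v := hv
  have g2 : 10 ^ 7 * η * p ^ 2 ≤ v := by
    calc 10 ^ 7 * η * p ^ 2 ≤ 10 ^ 7 * η ^ 3 * p ^ 6 :=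
          Nat.mul_le_mul (Nat.mul_le_mul_left _ hη1) hp6
      _ ≤ v := hv
  have g2' : 10 ^ 7 * η * p ^ 3 ≤ v := by
    calc 10 ^ 7 * η * p ^ 3 ≤ 10 ^ 7 * η ^ 3 * p ^ 6 :=
          Nat.mul_le_mul (Nat.mul_le_mul_left _ hη1) hp63
      _ ≤ v := hv
  have g3 : 10 ^ 6 * v ≤ D := by
    have h1 : 4 * p ^ 2 * (10 ^ 6 * v) ≤ 4 * p ^ 2 * D := by
      refine le_trans ?_ hvD
      have h2 : 10 ^ 7 * p ^ 2 ≤ v := by
        refine le_trans ?_ g2
        calc 10 ^ 7 * p ^ 2 = 10 ^ 7 * 1 * p ^ 2 := by ring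
          _ ≤ 10 ^ 7 * η * p ^ 2 := Nat.mul_le_mul_right _ (Nat.mul_le_mul_left _ (by omega))
      calc 4 * p ^ 2 * (10 ^ 6 * v) = 4 * 10 ^ 6 * p ^ 2 * v := by ring
        _ ≤ v * v := Nat.mul_le_mul_right _ (by
            refine le_trans ?_ h2
            exact Nat.mul_le_mul_right _ (by norm_num))
        _ = v ^ 2 := by ring
    exact Nat.le_of_mul_le_mul_left h1 (by positivity)
  have g4 : w ^ 2 ≤ D := by
    rw [hw, pow_two]
    exact Nat.sqrt_le D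
  have g5 : D < (w + 1) ^ 2 := by
    rw [hw, pow_two]
    exact Nat.lt_succ_sqrt D
  have hv8 : 8 ≤ v := by
    have : 1 ≤ η ^ 2 := Nat.one_le_pow _ _ (by omega)
    omega
  have g6 : w ≤ 3 * v := by
    by_contra h
    push Not at h
    nlinarith
  have g2'' : 10 ^ 6 * η * p ^ 2 ≤ v := by
    refine le_trans ?_ g2
    exact Nat.mul_le_mul_right _ (Nat.mul_le_mul_right _ (by norm_num))
  refine ⟨g1, g2'', g3, g4, g5, g6, ?_⟩
  by_contra h
  push Not at h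
  have h1 : (w + 1) ^ 2 ≤ (10 ^ 5 * η * p ^ 2) ^ 2 := Nat.pow_le_pow_left (by omega) 2
  have h2 : v ^ 2 < (2 * p * (10 ^ 5 * η * p ^ 2)) ^ 2 := by
    calc v ^ 2 ≤ 4 * p ^ 2 * D := hvD
      _ < 4 * p ^ 2 * (w + 1) ^ 2 := Nat.mul_lt_mul_of_pos_left g5 (by positivity)
      _ ≤ 4 * p ^ 2 * (10 ^ 5 * η * p ^ 2) ^ 2 := Nat.mul_le_mul_left _ h1
      _ = (2 * p * (10 ^ 5 * η * p ^ 2)) ^ 2 := by ring
  have h3 : v < 2 * p * (10 ^ 5 * η * p ^ 2) := lt_of_pow_lt_pow_left₀ 2 (Nat.zero_le _) h2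
  have h4 : 2 * p * (10 ^ 5 * η * p ^ 2) = 2 * 10 ^ 5 * η * p ^ 3 := by ring
  have h5 : 2 * 10 ^ 5 * η * p ^ 3 ≤ 10 ^ 7 * η * p ^ 3 :=
    Nat.mul_le_mul_right _ (Nat.mul_le_mul_right _ (by norm_num))
  omega

theorem F2_low {D κ : ℤ} (h0 : 0 ≤ κ) (h : 4 * κ ≤ D) : 7 * D * κ ≤ 4 * F2 D κ := by
  unfold F2
  nlinarith

/-- the number of points and the number of rows -/
theorem C2_position {η p D v : ℕ} (hη : 9 ≤ η) (hp : 1 ≤ p)
    (hv : 10 ^ 7 * η ^ 3 * p ^ 6 ≤ v) (hD : D ≤ 8 * v * (v + 1)) (hvD : v ^ 2 ≤ 4 * p ^ 2 * D) :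
    ∃ t κ e : ℕ, 1 ≤ t ∧ v < 2 * η * (κ - v) ∧ v ≤ κ ∧ η * (κ - v) ≤ v ∧ 4 * κ + 4 ≤ D ∧
      F2 D κ + 2 * e ≤ (2 * t + 1) * (v * (v + 1)) ∧
      (2 * t + 1) * (v * (v + 1)) + 2 * e ≤ F2 D (κ + 1) ∧ 4 * D ≤ 256 * (200 * η) ^ 2 * e := by
  obtain ⟨w, hw⟩ : ∃ w, w = Nat.sqrt D := ⟨_, rfl⟩
  obtain ⟨g1, g2, g3, g4, g5, g6, g7⟩ := C2_sizes hη hp hv hD hvD hw
  have hp2 : 1 ≤ p ^ 2 := Nat.one_le_pow _ _ hp
  have hηp : η ≤ η * p ^ 2 := Nat.le_mul_of_pos_right _ (by omega)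
  have hpη : p ^ 2 ≤ η * p ^ 2 := Nat.le_mul_of_pos_left _ (by omega)
  have g2' : 10 ^ 6 * (η * p ^ 2) ≤ v := by rw [← mul_assoc]; exact g2
  have g7' : 10 ^ 5 * (η * p ^ 2) ≤ w := by rw [← mul_assoc]; exact g7
  obtain ⟨k0, hk0, hk0'⟩ := exists_above (a := 2 * η) (b := v) (by omega)
  obtain ⟨wq, hwq, hwq'⟩ := exists_above (a := 200 * η) (b := w) (by omega)
  obtain ⟨α, hα, hα'⟩ := exists_above (a := 400 * η) (b := w) (by omega)
  -- the quantities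
  obtain ⟨Δ, hΔ⟩ : ∃ Δ, Δ = 11 * p ^ 2 + 6 * wq := ⟨_, rfl⟩
  obtain ⟨Kl, hKl⟩ : ∃ Kl, Kl = v + k0 := ⟨_, rfl⟩
  have hk0v : k0 ≤ v := by
    have h1 : 18 * k0 ≤ v + 2 * η := by
      calc 18 * k0 ≤ 2 * η * k0 := Nat.mul_le_mul_right _ (by omega)
        _ ≤ _ := hk0'
    omega
  have hwqv : 6 * wq + 11 * p ^ 2 ≤ v := by
    have h1 : 1800 * wq ≤ w + 200 * η := by
      calc 1800 * wq ≤ 200 * η * wq := Nat.mul_le_mul_right _ (by omega)
        _ ≤ _ := hwq'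
    omega
  have hK4 : 4 * (Kl + Δ) + 4 ≤ D := by omega
  -- position of the base point
  obtain ⟨Y, hY⟩ : ∃ Y, Y = v * (v + 1) := ⟨_, rfl⟩
  have hY1 : 1 ≤ Y := by
    rw [hY]
    exact Nat.mul_pos (by omega) (by omega)
  have hYv : Y ≤ 2 * v ^ 2 := by
    rw [hY]
    nlinarith
  have hYD : Y ≤ 8 * p ^ 2 * D := by
    have : 8 * p ^ 2 * D = 2 * (4 * p ^ 2 * D) := by ring
    omega
  have hF : (7 : ℤ) * D * Kl ≤ 4 * F2 D Kl := F2_low (Nat.cast_nonneg _) (by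
    have : 4 * Kl ≤ D := by omega
    exact_mod_cast this)
  obtain ⟨n, hn⟩ : ∃ n : ℕ, (n : ℤ) = F2 D Kl := by
    have h1 : (0 : ℤ) ≤ 7 * D * Kl := by positivity
    exact ⟨(F2 D Kl).toNat, Int.toNat_of_nonneg (by linarith)⟩
  have hnY : 3 * Y < n := by
    have h1 : 7 * D * Kl ≤ 4 * n := by
      rw [← hn] at hF
      exact_mod_cast hF
    have h2 : 7 * (10 ^ 6 * v) * v ≤ 7 * D * Kl := Nat.mul_le_mul (by omega) (by omega)
    nlinarith
  obtain ⟨t0, ht0, ht0'⟩ := exists_min_mul (a := 2 * Y) (b := n - Y) (by omega) (by omega)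
  have hDw : 1 ≤ D * w := Nat.mul_pos (by omega) (by omega)
  obtain ⟨s, hs, hs'⟩ := exists_min_mul (a := Y * (200 * η)) (b := D * w)
    (Nat.mul_pos hY1 (by omega)) hDw
  obtain ⟨x, hx⟩ : ∃ x, x = s * Y := ⟨_, rfl⟩
  have x1 : D * w ≤ 200 * (η * x) := by
    refine hs.trans (le_of_eq ?_)
    rw [hx]
    ring
  have x0 : Y * (200 * η) ≤ D * w := by
    calc Y * (200 * η) ≤ 8 * p ^ 2 * D * (200 * η) := Nat.mul_le_mul_right _ hYD
      _ = D * (1600 * (η * p ^ 2)) := by ring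
      _ ≤ D * w := Nat.mul_le_mul_left _ (by omega)
  have x2 : 200 * (η * x) < 2 * (D * w) := by
    have h1 : s * (Y * (200 * η)) = 200 * (η * x) := by
      rw [hx]
      ring
    omega
  have x4 : x < 2 * (D * wq) := by
    have h1 : D * w ≤ D * (200 * η * wq) := Nat.mul_le_mul_left _ hwq.le
    have h2 : 200 * η * x < 200 * η * (2 * (D * wq)) := by
      calc 200 * η * x = 200 * (η * x) := by ring
        _ < 2 * (D * w) := x2
        _ ≤ 2 * (D * (200 * η * wq)) := Nat.mul_le_mul_left _ h1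
        _ = 200 * η * (2 * (D * wq)) := by ring
    exact Nat.lt_of_mul_lt_mul_left h2
  -- the margin
  have hη2 : 1 ≤ η ^ 2 := Nat.one_le_pow _ _ (by omega)
  have hq2 : (200 * η) ^ 2 = 40000 * η ^ 2 := by ring
  obtain ⟨e, he1, he2⟩ : ∃ e, 32 * (200 * η) ^ 2 * e ≤ D ∧ D < 32 * (200 * η) ^ 2 * (e + 1) :=
    ⟨D / (32 * (200 * η) ^ 2), Nat.mul_div_le D _, Nat.lt_mul_div_succ D (by positivity)⟩
  have he0 : 1 ≤ e := by
    by_contra h
    have h1 : e = 0 := by omega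
    rw [h1, hq2] at he2
    omega
  have he3 : 4 * D ≤ 256 * (200 * η) ^ 2 * e := by
    have h1 : 32 * (200 * η) ^ 2 * (e + 1) ≤ 32 * (200 * η) ^ 2 * (2 * e) :=
      Nat.mul_le_mul_left _ (by omega)
    have h2 : 256 * (200 * η) ^ 2 * e = 4 * (32 * (200 * η) ^ 2 * (2 * e)) := by ring
    omega
  have he4 : 32 * e ≤ D := by
    refine le_trans ?_ he1
    exact Nat.mul_le_mul_right _ (Nat.le_mul_of_pos_right _ (by positivity))
  have hx500 : 500 * D ≤ x := by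
    have h1 : 200 * η * (500 * D) ≤ 200 * η * x := by
      calc 200 * η * (500 * D) = D * (10 ^ 5 * η) := by ring
        _ ≤ D * w := Nat.mul_le_mul_left _ (by omega)
        _ ≤ 200 * (η * x) := x1
        _ = 200 * η * x := by ring
    exact Nat.le_of_mul_le_mul_left h1 (by omega)
  -- the three numbers of points
  have hc1 : n ≤ (2 * t0 + 1) * Y := by
    have : (2 * t0 + 1) * Y = t0 * (2 * Y) + Y := by ring
    omega
  have hc2 : (2 * t0 + 1) * Y < n + 2 * Y := by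
    have : (2 * t0 + 1) * Y = t0 * (2 * Y) + Y := by ring
    omega
  have ht1 : 1 ≤ t0 := by
    by_contra h
    have h1 : t0 = 0 := by omega
    rw [h1, Nat.zero_mul] at ht0
    omega
  have m1 : (n : ℤ) ≤ ((2 * t0 + 1) * Y : ℕ) := by exact_mod_cast hc1
  have m2 : (((2 * t0 + 1) * Y : ℕ) : ℤ) < n + 2 * Y := by exact_mod_cast hc2
  have hK : (((2 * t0 + 1) * Y : ℕ) : ℤ) + 4 * x < F2 D ((Kl + Δ : ℕ) : ℤ) := by
    have h1 : F2 D ((Kl + Δ : ℕ) : ℤ) = F2 D Kl + Δ * (2 * D + 3 - (2 * Kl + Δ)) := by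
      unfold F2
      push_cast
      ring
    have h2 : (3 : ℤ) * D * Δ ≤ 2 * (Δ * (2 * D + 3 - (2 * Kl + Δ))) := by
      have h3 : (3 : ℤ) * D ≤ 2 * (2 * D + 3 - (2 * Kl + Δ)) := by
        have h4 : 4 * Kl + 2 * Δ ≤ D := by omega
        have h5 : ((4 : ℤ) * Kl + 2 * Δ) ≤ D := by exact_mod_cast h4
        linarith
      calc (3 : ℤ) * D * Δ ≤ 2 * (2 * D + 3 - (2 * Kl + Δ)) * Δ :=
            mul_le_mul_of_nonneg_right h3 (Nat.cast_nonneg _)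
        _ = _ := by ring
    have h3 : 4 * Y + 8 * x < 3 * D * Δ := by
      have h4 : 3 * D * Δ = 33 * (p ^ 2 * D) + 18 * (D * wq) := by
        rw [hΔ]
        ring
      have h5 : 8 * p ^ 2 * D = 8 * (p ^ 2 * D) := by ring
      have h6 : D ≤ p ^ 2 * D := Nat.le_mul_of_pos_left _ (by omega)
      omega
    have h4 : (4 : ℤ) * Y + 8 * x < 3 * D * Δ := by exact_mod_cast h3
    rw [h1, ← hn]
    linarith
  obtain ⟨i, κ, hi, b1, b2, b3, b4⟩ := middle (D := D) (c := ((2 * t0 + 1) * Y : ℕ)) (x := x)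
    (e := e) (α := α) (β := 3 * wq) (K := Kl + Δ) (Kl := Kl) (by rw [← hn]; exact m1) hK
    (by omega) (by
      have h1 : 4 * (Kl + Δ) ≤ D := by omega
      exact_mod_cast h1) (Nat.cast_nonneg _) (Nat.cast_nonneg _) (by
      -- the lower bound for the number of rows
      have h1 : 400 * η * (α * (2 * D + 3) + 4 * e) ≤ 400 * η * (2 * x) := by
        have h2 : 400 * η * α * (2 * D + 3) ≤ (w + 400 * η) * (2 * D + 3) :=
          Nat.mul_le_mul_right _ hα'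
        have h3 : 3 * w ≤ D * w := Nat.mul_le_mul_right _ (by omega)
        have h4 : 10 ^ 5 * (η * D) ≤ D * w := by
          calc 10 ^ 5 * (η * D) = D * (10 ^ 5 * η) := by ring
            _ ≤ D * w := Nat.mul_le_mul_left _ (by omega)
        have h5 : η * e ≤ η * D := Nat.mul_le_mul_left _ (by omega)
        have h6 : η ≤ η * D := Nat.le_mul_of_pos_right _ (by omega)
        have h7 : 400 * η * (α * (2 * D + 3) + 4 * e) =
            400 * η * α * (2 * D + 3) + 1600 * (η * e) := by ring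
        have h8 : (w + 400 * η) * (2 * D + 3) = 2 * (D * w) + 3 * w + 800 * (η * D) + 1200 * η := by
          ring
        have h9 : 400 * η * (2 * x) = 4 * (200 * (η * x)) := by ring
        omega
      have h2 : α * (2 * D + 3) + 4 * e ≤ 2 * x := Nat.le_of_mul_le_mul_left h1 (by omega)
      have h3 : (α : ℤ) * (2 * D + 3) + 4 * e ≤ 2 * x := by exact_mod_cast h2
      linarith) (Nat.cast_nonneg _) (by
      have h1 : (w + 1) ^ 2 ≤ (400 * η * α) ^ 2 := Nat.pow_le_pow_left (by omega) 2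
      have h2 : 160000 * η ^ 2 * (8 * e) < 160000 * η ^ 2 * α ^ 2 := by
        calc 160000 * η ^ 2 * (8 * e) = 32 * (200 * η) ^ 2 * e := by ring
          _ ≤ D := he1
          _ < (w + 1) ^ 2 := g5
          _ ≤ (400 * η * α) ^ 2 := h1
          _ = 160000 * η ^ 2 * α ^ 2 := by ring
      have h3 : 8 * e < α ^ 2 := Nat.lt_of_mul_lt_mul_left h2
      have h4 : 4 * e < α ^ 2 := by omega
      exact_mod_cast h4) (by
      have h1 : 4 * x + 8 * e < 3 * D * (3 * wq + 1) := by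
        have h2 : 3 * D * (3 * wq + 1) = 9 * (D * wq) + 3 * D := by ring
        omega
      exact_mod_cast h1) (by
      have h1 : 200 * η * wq ≤ 2 * w := by omega
      have h2 : (200 * η * wq) ^ 2 ≤ (2 * w) ^ 2 := Nat.pow_le_pow_left h1 2
      have h3 : (200 * η * wq) ^ 2 = 40000 * (η ^ 2 * wq ^ 2) := by ring
      have h4 : (2 * w) ^ 2 = 4 * w ^ 2 := by ring
      have h5 : wq ^ 2 ≤ η ^ 2 * wq ^ 2 := Nat.le_mul_of_pos_left _ (by omega)
      have h6 : 4 * (3 * wq) ^ 2 ≤ D := by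
        have h7 : 4 * (3 * wq) ^ 2 = 36 * wq ^ 2 := by ring
        omega
      exact_mod_cast h6) (by positivity) (by
      have h1 : 2 * e ≤ x := by omega
      exact_mod_cast h1)
  have hcount : ((2 * (t0 + i * s) + 1) * Y : ℕ) = (2 * t0 + 1) * Y + 2 * (i * x) := by
    rw [hx]
    ring
  have hcount' : ((2 * ((t0 + i * s : ℕ) : ℤ) + 1) * (v * (v + 1))) =
      (((2 * t0 + 1) * Y : ℕ) : ℤ) + 2 * (i * x) := by
    have hYz : (Y : ℤ) = v * (v + 1) := by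
      rw [hY]
      push_cast
      ring
    have h1 : (((2 * (t0 + i * s) + 1) * Y : ℕ) : ℤ) = (((2 * t0 + 1) * Y + 2 * (i * x) : ℕ) : ℤ) :=
      congrArg _ hcount
    rw [← hYz]
    exact_mod_cast h1
  refine ⟨t0 + i * s, κ, e, by omega, ?_, by omega, ?_, by omega, ?_, ?_, he3⟩
  · refine lt_of_lt_of_le hk0 (Nat.mul_le_mul_left _ ?_)
    omega
  · have h1 : κ - v ≤ k0 + Δ := by omega
    have h2 : η * (κ - v) ≤ η * (k0 + Δ) := Nat.mul_le_mul_left _ h1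
    have h3 : η * (k0 + Δ) = η * k0 + 11 * (η * p ^ 2) + 6 * (η * wq) := by
      rw [hΔ]
      ring
    have h4 : 2 * η * k0 = 2 * (η * k0) := by ring
    have h5 : 200 * η * wq = 200 * (η * wq) := by ring
    omega
  · rw [hcount']
    exact b3
  · rw [hcount']
    exact b4

end Pool.Agent.Work.MP_0421d9_ag.LD
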