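import Pool.Agent.Work.MP_0421d9_ag.ZDefs2

/-!
The critical systems of large degree: both windows fail, so the parameters are in a small range.
-/

namespace Pool.Agent.Work.MP_0421d9_ag.LD

open MvPolynomial Module

/-! ### the next degree -/

theorem zl_succ_le {r : ℕ} (D : ℕ) (y : Fin r → ℕ) : hPm (D + 1) y ≤ hPm D y + (D + 2) := by
  rw [hPm_eq_hTm, hPm_eq_hTm]
  unfold hTm
  set V := TSm (D + 1) Set.univ y (gpt r) with hV
  let ρ : R3 →ₗ[ℂ] (Fin (D + 2) → ℂ) :=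
    { toFun := fun F j => coeff (ex3 j (D + 1 - j) 0) F
      map_add' := fun F G => by
        funext z
        simp
      map_smul' := fun c F => by
        funext z
        simp }
  have h1 := finrank_eq_ker_add_map ρ V
  have h2 : finrank ℂ ↥(V.map ρ) ≤ D + 2 := by
    refine (Submodule.finrank_le _).trans ?_
    rw [finrank_fin_fun]
  have h3 : V ⊓ LinearMap.ker ρ ≤
      (TSm D Set.univ y (gpt r)).map (LinearMap.mulLeft ℂ (X 2 ^ 1 : R3)) := by
    rintro F ⟨hF, hF'⟩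
    rw [SetLike.mem_coe, hV, mem_TSm] at hF
    obtain ⟨h4, h5, h6⟩ := hF
    have h7 := LinearMap.mem_ker.mp hF'
    obtain ⟨G, hG1, hG2, hG3⟩ := exists_div_X2 (δ := D) (u := 1) h4 (fun α hα => by
      by_contra hcon
      have h10 := deg_eq h4 hα
      have h12 : α 0 < D + 2 := by omega
      have h9 := congrFun h7 ⟨α 0, h12⟩
      have h11 : ex3 (α 0) (D + 1 - α 0) 0 = α := by
        conv_rhs => rw [eq_ex3 α]
        congr 1
        · omega
        · omega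
      change coeff (ex3 (α 0) (D + 1 - α 0) 0) F = 0 at h9
      rw [h11] at h9
      exact mem_support_iff.mp hα h9)
    refine Submodule.mem_map.mpr ⟨G, ?_, by rw [LinearMap.mulLeft_apply, hG2]⟩
    rw [mem_TSm]
    refine ⟨hG1, fun i => ?_, fun β hβ => trivial⟩
    have h8 := h5 i
    rw [hG2] at h8
    exact vanishTo_of_X2_pow_mul (gpt_ne i 2) h8
  have h4 := (Submodule.finrank_mono h3).trans (Submodule.finrank_map_le _ _)
  omega

theorem zl_le_choose {r : ℕ} (D : ℕ) (y : Fin r → ℕ) : hPm D y ≤ (D + 2).choose 2 := by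
  rw [← finrank_Rd D]
  unfold hPm
  exact Submodule.finrank_mono (fun F hF => hF.1)

theorem zl_two_choose (n : ℕ) : 2 * (n + 1).choose 2 = n * (n + 1) := by
  rw [Nat.choose_two_right, Nat.add_sub_cancel, Nat.mul_comm n]
  exact Nat.mul_div_cancel' (Nat.even_mul_pred_self (n + 1)).two_dvd

theorem zl_sum_choose {r : ℕ} (y : Fin r → ℕ) :
    2 * ∑ i, (y i + 1).choose 2 = ∑ i, y i ^ 2 + ∑ i, y i := by
  rw [Finset.mul_sum, ← Finset.sum_add_distrib]
  refine Finset.sum_congr rfl (fun i _ => ?_)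
  rw [zl_two_choose]
  ring

theorem zl_up {r : ℕ} (D : ℕ) (y : Fin r → ℕ) (x : ℕ) : hPm D y ≤ hPm (D + x) y := by
  induction x with
  | zero => exact le_rfl
  | succ x ih => exact ih.trans (hPm_le_succ _ _)

theorem zl_down {r : ℕ} (E : ℕ) (y : Fin r → ℕ) (x : ℕ) :
    2 * hPm (E + x) y ≤ 2 * hPm E y + (2 * E * x + x * x + 3 * x) := by
  induction x with
  | zero => simp
  | succ x ih =>
    have h1 := zl_succ_le (E + x) y
    have h2 : E + (x + 1) = E + x + 1 := rfl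
    rw [h2]
    nlinarith

/-! ### the two estimates -/

theorem leaf_i {T ρ r c D : ℕ} {y : Fin r → ℕ} (hW : WinP T ρ) (hT : 1 ≤ T) (hc : 1 ≤ c)
    (hyc : ∀ i, y i ≤ c) (hD : 6 * ρ * (c + 1) + 10 ≤ D)
    (h3 : T * D ^ 2 ≤ T * (∑ i, y i ^ 2 + 23 * ∑ i, y i) + 6 * (c + 1) ^ 2) :
    6 * (T * hPm D y) ≤
      4 * (23 * (T * ∑ i, y i) + 6 * (c + 1) ^ 2 + 6 * c ^ 2) + 11 * (T * D) + 7 * T := by
  classical
  set S1 := ∑ i, y i with hS1
  set S2 := ∑ i, y i ^ 2 with hS2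
  set K := 23 * (T * S1) + 6 * (c + 1) ^ 2 + 6 * c ^ 2 with hK
  have hKpos : 0 < K := by positivity
  by_cases hex : ∃ x, 2 * x ≤ D ∧ K + T * x ^ 2 ≤ 2 * (T * D * x)
  · have hx := Nat.find_spec hex
    have hmin := @Nat.find_min _ _ hex
    set x := Nat.find hex with hxdef
    obtain ⟨hx1, hx2⟩ := hx
    have hx0 : x ≠ 0 := by
      intro h0
      rw [h0] at hx2
      simp at hx2
      omega
    obtain ⟨z, hz⟩ : ∃ z, x = z + 1 := ⟨x - 1, by omega⟩
    obtain ⟨E, hE⟩ : ∃ E, D = E + x := ⟨D - x, by omega⟩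
    have hEρ : 3 * ρ * (c + 1) ≤ E := by
      have h4 : 6 * ρ * (c + 1) = 2 * (3 * ρ * (c + 1)) := by ring
      omega
    have h5 := (hW r c E y hc hyc hEρ).1 (by
      have h7 : T * D ^ 2 + T * x ^ 2 = T * E ^ 2 + 2 * (T * D * x) := by
        rw [hE]
        ring
      have h8 : T * (S2 + 23 * S1) = T * S2 + 23 * (T * S1) := by ring
      rw [h8] at h3
      change T * E ^ 2 + 6 * c ^ 2 ≤ T * S2
      omega)
    have h6 := zl_down E y x
    rw [← hE, h5] at h6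
    have h7 : ¬ (2 * z ≤ D ∧ K + T * z ^ 2 ≤ 2 * (T * D * z)) := hmin (by omega)
    have h8 : 2 * (T * D * z) < K + T * z ^ 2 := by
      by_contra hcon
      exact h7 ⟨by omega, by omega⟩
    have h9 : T * (2 * hPm D y) ≤ T * (2 * E * x + x * x + 3 * x) := by
      refine Nat.mul_le_mul_left T ?_
      omega
    have h10 : 2 * (T * x) ≤ T * D := by
      have h11 := Nat.mul_le_mul_left T hx1
      have h12 : T * (2 * x) = 2 * (T * x) := by ring
      omega
    have h13 : T * (2 * E * x + x * x + 3 * x) + T * z ^ 2 =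
        2 * (T * D * z) + 2 * (T * D) + T * x + T := by
      rw [hE, hz]
      ring
    have h14 : T * (2 * hPm D y) = 2 * (T * hPm D y) := by ring
    rw [h14] at h9
    omega
  · have h4 : 2 * (T * D * (D / 2)) < K + T * (D / 2) ^ 2 := by
      by_contra hcon
      exact hex ⟨D / 2, by omega, by omega⟩
    have h5 := zl_le_choose D y
    have h6 : 2 * (D + 2).choose 2 = (D + 1) * (D + 2) := zl_two_choose (D + 1)
    have h7 : T * (2 * hPm D y) ≤ T * ((D + 1) * (D + 2)) := by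
      refine Nat.mul_le_mul_left T ?_
      omega
    have h8 : T * (3 * D ^ 2) ≤ 4 * K + T * (2 * D + 1) := by
      obtain ⟨w, hw⟩ : ∃ w, w = D / 2 := ⟨_, rfl⟩
      rw [← hw] at h4
      have h9 : D = 2 * w ∨ D = 2 * w + 1 := by omega
      rcases h9 with h9 | h9
      · rw [h9] at h4 ⊢
        have e1 : T * (3 * (2 * w) ^ 2) = 12 * (T * w ^ 2) := by ring
        have e2 : 2 * (T * (2 * w) * w) = 4 * (T * w ^ 2) := by ring
        omega
      · rw [h9] at h4 ⊢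
        have e1 : T * (3 * (2 * w + 1) ^ 2) = 12 * (T * w ^ 2) + 12 * (T * w) + 3 * T := by ring
        have e2 : 2 * (T * (2 * w + 1) * w) = 4 * (T * w ^ 2) + 2 * (T * w) := by ring
        have e3 : T * (2 * (2 * w + 1) + 1) = 4 * (T * w) + 3 * T := by ring
        omega
    have e4 : T * (3 * D ^ 2) = 3 * (T * D ^ 2) := by ring
    have e5 : T * (2 * D + 1) = 2 * (T * D) + T := by ring
    have e6 : T * (2 * hPm D y) = 2 * (T * hPm D y) := by ring
    have e7 : T * ((D + 1) * (D + 2)) = T * D ^ 2 + 3 * (T * D) + 2 * T := by ring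
    rw [e4, e5] at h8
    rw [e6, e7] at h7
    omega

theorem leaf_ii {T ρ r c D : ℕ} {y : Fin r → ℕ} (hW : WinP T ρ) (hT : 1 ≤ T) (hc : 1 ≤ c)
    (hyc : ∀ i, y i ≤ c) (hD : 6 * ρ * (c + 1) + 10 ≤ D)
    (h2 : T * ∑ i, y i ^ 2 ≤ T * D ^ 2 + 6 * c ^ 2) :
    8 * (T * (hPm D y + ∑ i, (y i + 1).choose 2)) ≤ 4 * (T * ((D + 1) * (D + 2))) +
      5 * (23 * (T * ∑ i, y i) + 6 * (c + 1) ^ 2 + 6 * c ^ 2) + 8 * (T * D) + 16 * T := by
  classical
  set S1 := ∑ i, y i with hS1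
  set S2 := ∑ i, y i ^ 2 with hS2
  set K := 23 * (T * S1) + 6 * (c + 1) ^ 2 + 6 * c ^ 2 with hK
  have hKpos : 0 < K := by positivity
  have hex : ∃ x, K ≤ 2 * (T * D * x) + T * x ^ 2 := by
    refine ⟨K, ?_⟩
    have h4 : 1 * (1 * K) ≤ T * D * K := by
      rw [Nat.mul_assoc]
      exact Nat.mul_le_mul hT (Nat.mul_le_mul (by omega) le_rfl)
    omega
  have hx := Nat.find_spec hex
  have hmin := @Nat.find_min _ _ hex
  set x := Nat.find hex with hxdef
  have hx0 : x ≠ 0 := by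
    intro h0
    rw [h0] at hx
    simp at hx
    omega
  obtain ⟨z, hz⟩ : ∃ z, x = z + 1 := ⟨x - 1, by omega⟩
  have hEρ : 3 * ρ * (c + 1) ≤ D + x := by
    have h4 : 6 * ρ * (c + 1) = 2 * (3 * ρ * (c + 1)) := by ring
    omega
  have h5 := (hW r c (D + x) y hc hyc hEρ).2 (by
    have h7 : T * (D + x) ^ 2 = T * D ^ 2 + 2 * (T * D * x) + T * x ^ 2 := by ring
    have h8 : T * (S2 + 23 * S1) = T * S2 + 23 * (T * S1) := by ring
    change T * (S2 + 23 * S1) + 6 * (c + 1) ^ 2 ≤ _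
    rw [h7, h8]
    omega)
  have h6 := zl_up D y x
  have h7 : K > 2 * (T * D * z) + T * z ^ 2 := by
    have h8 := hmin (show z < x by omega)
    omega
  have h8 : 2 * (D + x + 2).choose 2 = (D + x + 1) * (D + x + 2) := zl_two_choose (D + x + 1)
  have h9 : T * (2 * (hPm D y + ∑ i, (y i + 1).choose 2)) ≤ T * ((D + x + 1) * (D + x + 2)) := by
    refine Nat.mul_le_mul_left T ?_
    omega
  have h10 : T * ((D + x + 1) * (D + x + 2)) + T =
      T * ((D + 1) * (D + 2)) + (2 * (T * D * z) + T * z ^ 2) + 2 * (T * D) + 5 * (T * z) +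
        5 * T := by
    rw [hz]
    ring
  have h11 : 10 * (T * z) ≤ T * D * z := by
    have h12 : T * D * z = D * (T * z) := by ring
    rw [h12]
    exact Nat.mul_le_mul_right _ (by omega)
  have h13 : T * (2 * (hPm D y + ∑ i, (y i + 1).choose 2)) =
      2 * (T * (hPm D y + ∑ i, (y i + 1).choose 2)) := by ring
  rw [h13] at h9
  omega

/-- the parameters of a critical system -/
theorem plane_leaf {TP ρ r c D : ℕ} {y : Fin r → ℕ} (hW : WinP TP ρ) (hTP : 1 ≤ TP) (hc : 1 ≤ c)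
    (hyc : ∀ i, y i ≤ c) (hD : 6 * ρ * (c + 1) + 10 ≤ D) (h0 : hPm D y ≠ 0)
    (h1 : hPm D y + ∑ i, (y i + 1).choose 2 ≠ (D + 2).choose 2) :
    TP * (2 * hPm D y + ∑ i, (y i + 1).choose 2) ≤
      TP * ((D + 2).choose 2 + 48 * ∑ i, y i + 5 * D + 4) + 21 * (c + 1) ^ 2 ∧
    TP * ∑ i, y i ^ 2 ≤ TP * D ^ 2 + 6 * c ^ 2 ∧
    TP * D ^ 2 ≤ TP * (∑ i, y i ^ 2 + 23 * ∑ i, y i) + 6 * (c + 1) ^ 2 := by
  have hρ : 3 * ρ * (c + 1) ≤ D := by
    have h4 : 6 * ρ * (c + 1) = 2 * (3 * ρ * (c + 1)) := by ring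
    omega
  have hw := hW r c D y hc hyc hρ
  have h2 : TP * ∑ i, y i ^ 2 ≤ TP * D ^ 2 + 6 * c ^ 2 := by
    by_contra hcon
    exact h0 (hw.1 (by omega))
  have h3 : TP * D ^ 2 ≤ TP * (∑ i, y i ^ 2 + 23 * ∑ i, y i) + 6 * (c + 1) ^ 2 := by
    by_contra hcon
    exact h1 (hw.2 (by omega))
  refine ⟨?_, h2, h3⟩
  have h4 := leaf_i hW hTP hc hyc hD h3
  have h5 := leaf_ii hW hTP hc hyc hD h2
  have h6 : 2 * (D + 2).choose 2 = (D + 1) * (D + 2) := zl_two_choose (D + 1)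
  rw [← h6] at h5
  have e1 : TP * (hPm D y + ∑ i, (y i + 1).choose 2) =
      TP * hPm D y + TP * ∑ i, (y i + 1).choose 2 := by ring
  have e2 : TP * (2 * hPm D y + ∑ i, (y i + 1).choose 2) =
      2 * (TP * hPm D y) + TP * ∑ i, (y i + 1).choose 2 := by ring
  have e3 : TP * (2 * (D + 2).choose 2) = 2 * (TP * (D + 2).choose 2) := by ring
  have e4 : TP * ((D + 2).choose 2 + 48 * ∑ i, y i + 5 * D + 4) =
      TP * (D + 2).choose 2 + 48 * (TP * ∑ i, y i) + 5 * (TP * D) + 4 * TP := by ring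
  rw [e1, e3] at h5
  rw [e2, e4]
  have e5 : 6 * c ^ 2 ≤ 6 * (c + 1) ^ 2 :=
    Nat.mul_le_mul_left _ (Nat.pow_le_pow_left (Nat.le_succ c) 2)
  omega

end Pool.Agent.Work.MP_0421d9_ag.LD
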