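import Mathlib

/-!
Arbitrary multiplicities in degree at least `C M ^ (1 + ε)`: inequalities for the leaves of the
path in the plane.
-/

namespace Pool.Agent.Work.MP_0421d9_ag.LD

/-- no pool is available, all multiplicities are at most the threshold -/
theorem leaf_num1 {TP J G c D D' S₀ Y : ℕ} (hTP : 1 ≤ TP) (hG : 1 ≤ G) (hJ : 1 ≤ J) (hc : 1 ≤ c)
    (hD1 : 10 ^ 6 * J * G * c ≤ D) (hDD : D' ≤ D) (hY : Y ≤ J * (8 * D))
    (h1 : D ^ 2 ≤ 27 * (c * S₀)) (h2 : 10 ^ 5 * G * c ^ 3 ≤ TP * D ^ 2) :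
    G * (TP * (48 * Y + 5 * D' + 2)) + 21 * (G * (c + 1) ^ 2) + TP * Y < TP * S₀ := by
  have g1 : 10 ^ 6 * (J * G * D) ≤ 27 * S₀ := by
    have h3 : c * (10 ^ 6 * (J * G * D)) ≤ c * (27 * S₀) := by
      calc c * (10 ^ 6 * (J * G * D)) = (10 ^ 6 * J * G * c) * D := by ring
        _ ≤ D * D := Nat.mul_le_mul_right _ hD1
        _ = D ^ 2 := (pow_two D).symm
        _ ≤ 27 * (c * S₀) := h1
        _ = c * (27 * S₀) := by ring
    exact Nat.le_of_mul_le_mul_left h3 hc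
  have g2 : 10 ^ 5 * (G * c ^ 2) ≤ 27 * (TP * S₀) := by
    have h3 : c * (10 ^ 5 * (G * c ^ 2)) ≤ c * (27 * (TP * S₀)) := by
      calc c * (10 ^ 5 * (G * c ^ 2)) = 10 ^ 5 * G * c ^ 3 := by ring
        _ ≤ TP * D ^ 2 := h2
        _ ≤ TP * (27 * (c * S₀)) := Nat.mul_le_mul_left _ h1
        _ = c * (27 * (TP * S₀)) := by ring
    exact Nat.le_of_mul_le_mul_left h3 hc
  have g3 : 10 ^ 6 * (TP * (J * G * D)) ≤ 27 * (TP * S₀) := by
    calc 10 ^ 6 * (TP * (J * G * D)) = TP * (10 ^ 6 * (J * G * D)) := by ring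
      _ ≤ TP * (27 * S₀) := Nat.mul_le_mul_left _ g1
      _ = 27 * (TP * S₀) := by ring
  have hD0 : 1 ≤ D := by
    have : 1 ≤ 10 ^ 6 * J * G * c := by
      have h3 : 1 ≤ J * G * c := Nat.mul_pos (Nat.mul_pos hJ hG) hc
      nlinarith
    omega
  have k1 : G * (TP * (48 * Y + 5 * D' + 2)) ≤ 391 * (TP * (J * G * D)) := by
    have h3 : 48 * Y + 5 * D' + 2 ≤ 391 * (J * D) := by
      have h4 : D ≤ J * D := Nat.le_mul_of_pos_left _ hJ
      have h5 : J * (8 * D) = 8 * (J * D) := by ring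
      omega
    calc G * (TP * (48 * Y + 5 * D' + 2)) ≤ G * (TP * (391 * (J * D))) :=
          Nat.mul_le_mul_left _ (Nat.mul_le_mul_left _ h3)
      _ = 391 * (TP * (J * G * D)) := by ring
  have k2 : TP * Y ≤ 8 * (TP * (J * G * D)) := by
    have h3 : Y ≤ 8 * (J * G * D) := by
      have h4 : J * D ≤ J * G * D := Nat.mul_le_mul_right _ (Nat.le_mul_of_pos_right _ hG)
      have h5 : J * (8 * D) = 8 * (J * D) := by ring
      omega
    calc TP * Y ≤ TP * (8 * (J * G * D)) := Nat.mul_le_mul_left _ h3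
      _ = 8 * (TP * (J * G * D)) := by ring
  have k3 : 21 * (G * (c + 1) ^ 2) ≤ 84 * (G * c ^ 2) := by
    have h3 : (c + 1) ^ 2 ≤ 4 * c ^ 2 := by nlinarith
    calc 21 * (G * (c + 1) ^ 2) ≤ 21 * (G * (4 * c ^ 2)) :=
          Nat.mul_le_mul_left _ (Nat.mul_le_mul_left _ h3)
      _ = 84 * (G * c ^ 2) := by ring
  have k4 : 1 ≤ TP * (J * G * D) := Nat.mul_pos hTP (Nat.mul_pos (Nat.mul_pos hJ hG) hD0)
  omega

/-- no pool is available, multiplicities beyond the threshold -/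
theorem leaf_num2 {TP J G c D D' S₀ Y τ V₀ : ℕ} (hTP : 1 ≤ TP) (hG : 1 ≤ G) (hJ : 1 ≤ J)
    (hD0 : 1 ≤ D) (hDD : D' ≤ D) (hYS : Y ≤ S₀)
    (hY : TP * ((τ + 1) * Y) ≤ TP * ((τ + 1) * (J * (8 * D))) + TP * D ^ 2 + 6 * c ^ 2)
    (hV : TP * (500 * J * D * (τ + 1) + 50 * D ^ 2) + 400 * (c + 1) ^ 2 * (τ + 1) ≤
      TP * (V₀ * (τ + 1))) :
    G * (TP * (48 * Y + 5 * D' + 2)) + 21 * (G * (c + 1) ^ 2) + TP * Y <
      TP * (G * V₀) + TP * S₀ := by
  have h1 : TP * (48 * Y + 5 * D' + 2) + 21 * (c + 1) ^ 2 < TP * V₀ := by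
    have h2 : (τ + 1) * (TP * (48 * Y + 5 * D' + 2) + 21 * (c + 1) ^ 2) < (τ + 1) * (TP * V₀) := by
      have e1 : (τ + 1) * (TP * (48 * Y + 5 * D' + 2) + 21 * (c + 1) ^ 2) =
          48 * (TP * ((τ + 1) * Y)) + TP * ((τ + 1) * (5 * D' + 2)) +
            21 * ((τ + 1) * (c + 1) ^ 2) := by ring
      have e2 : TP * ((τ + 1) * (5 * D' + 2)) ≤ 7 * (TP * ((τ + 1) * (J * D))) := by
        have h3 : 5 * D' + 2 ≤ 7 * (J * D) := by
          have h4 : D ≤ J * D := Nat.le_mul_of_pos_left _ hJ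
          omega
        calc TP * ((τ + 1) * (5 * D' + 2)) ≤ TP * ((τ + 1) * (7 * (J * D))) :=
              Nat.mul_le_mul_left _ (Nat.mul_le_mul_left _ h3)
          _ = 7 * (TP * ((τ + 1) * (J * D))) := by ring
      have e3 : TP * ((τ + 1) * (J * (8 * D))) = 8 * (TP * ((τ + 1) * (J * D))) := by ring
      have e4 : TP * (500 * J * D * (τ + 1) + 50 * D ^ 2) =
          500 * (TP * ((τ + 1) * (J * D))) + 50 * (TP * D ^ 2) := by ring
      have e5 : 400 * (c + 1) ^ 2 * (τ + 1) = 400 * ((τ + 1) * (c + 1) ^ 2) := by ring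
      have e6 : TP * (V₀ * (τ + 1)) = (τ + 1) * (TP * V₀) := by ring
      have e7 : c ^ 2 ≤ (τ + 1) * (c + 1) ^ 2 := by
        calc c ^ 2 ≤ (c + 1) ^ 2 := Nat.pow_le_pow_left (Nat.le_succ c) 2
          _ ≤ (τ + 1) * (c + 1) ^ 2 := Nat.le_mul_of_pos_left _ (Nat.succ_pos τ)
      have e8 : 1 ≤ (τ + 1) * (c + 1) ^ 2 :=
        Nat.mul_pos (Nat.succ_pos τ) (pow_pos (Nat.succ_pos c) 2)
      rw [e3] at hY
      rw [e4, e5, e6] at hV
      rw [e1]
      omega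
    exact Nat.lt_of_mul_lt_mul_left h2
  have h3 : G * (TP * (48 * Y + 5 * D' + 2) + 21 * (c + 1) ^ 2) < G * (TP * V₀) :=
    Nat.mul_lt_mul_of_pos_left h1 hG
  have h4 : TP * Y ≤ TP * S₀ := Nat.mul_le_mul_left _ hYS
  have e1 : G * (TP * (48 * Y + 5 * D' + 2) + 21 * (c + 1) ^ 2) =
    G * (TP * (48 * Y + 5 * D' + 2)) + 21 * (G * (c + 1) ^ 2) := by ring
  have e2 : G * (TP * V₀) = TP * (G * V₀) := by ring
  rw [e1, e2] at h3
  omega

/-- small degree -/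
theorem leaf_num3 {TP J G X c D D' S₀ Y Q v V₀ : ℕ} (hTP : 1 ≤ TP) (hG : 1 ≤ G) (hJ : 1 ≤ J)
    (hc : 1 ≤ c) (hX : 1000 * G ≤ X) (hD1 : 10 ^ 6 * J * G * c ≤ D) (hDX : X * D' < D)
    (hv : 1 ≤ v) (hvc : v ≤ c) (hY : v * Y ≤ 2 * v * (J * (8 * D)) + Q)
    (hQ : TP * Q ≤ TP * D' ^ 2 + 6 * c ^ 2) (hS : D ^ 2 + 12 * (v * Y) ≤ 12 * (v * S₀))
    (hV : 400 * (c + 1) ^ 2 ≤ TP * V₀ ∨ 10 ^ 5 * G * c ^ 3 ≤ TP * D ^ 2) :
    G * (TP * (48 * Y + 5 * D' + 2)) + 21 * (G * (c + 1) ^ 2) + TP * Y <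
      TP * (G * V₀) + TP * S₀ := by
  have hD0 : 1 ≤ D := by omega
  have hDD : D' ≤ D := by
    have : D' ≤ X * D' := Nat.le_mul_of_pos_left _ (by omega)
    omega
  have hvD : 10 ^ 6 * (v * (J * G * D)) ≤ D ^ 2 := by
    calc 10 ^ 6 * (v * (J * G * D)) ≤ 10 ^ 6 * (c * (J * G * D)) :=
          Nat.mul_le_mul_left _ (Nat.mul_le_mul_right _ hvc)
      _ = (10 ^ 6 * J * G * c) * D := by ring
      _ ≤ D * D := Nat.mul_le_mul_right _ hD1
      _ = D ^ 2 := (pow_two D).symm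
  have hG2 : 10 ^ 6 * (G * D' ^ 2) ≤ D ^ 2 := by
    have h1 : 1000 * G * D' ≤ D := by
      have : 1000 * G * D' ≤ X * D' := Nat.mul_le_mul_right _ hX
      omega
    calc 10 ^ 6 * (G * D' ^ 2) ≤ 10 ^ 6 * (G ^ 2 * D' ^ 2) := by
          refine Nat.mul_le_mul_left _ (Nat.mul_le_mul_right _ ?_)
          nlinarith
      _ = (1000 * G * D') ^ 2 := by ring
      _ ≤ D ^ 2 := Nat.pow_le_pow_left h1 2
  -- everything multiplied by `12 v`
  have main : 12 * v * (G * (TP * (48 * Y + 5 * D' + 2)) + 21 * (G * (c + 1) ^ 2) + TP * Y) <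
      12 * v * (TP * (G * V₀) + TP * S₀) := by
    have k1 : 576 * (G * TP * (v * Y)) ≤
        9216 * (TP * (v * (J * G * D))) + 576 * (TP * (G * D' ^ 2)) + 3456 * (G * c ^ 2) := by
      have h1 : TP * (v * Y) ≤ TP * (2 * v * (J * (8 * D))) + (TP * D' ^ 2 + 6 * c ^ 2) := by
        calc TP * (v * Y) ≤ TP * (2 * v * (J * (8 * D)) + Q) := Nat.mul_le_mul_left _ hY
          _ = TP * (2 * v * (J * (8 * D))) + TP * Q := by ring
          _ ≤ _ := Nat.add_le_add_left hQ _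
      calc 576 * (G * TP * (v * Y)) = 576 * G * (TP * (v * Y)) := by ring
        _ ≤ 576 * G * (TP * (2 * v * (J * (8 * D))) + (TP * D' ^ 2 + 6 * c ^ 2)) :=
            Nat.mul_le_mul_left _ h1
        _ = _ := by ring
    have k2 : 12 * v * (G * (TP * (5 * D' + 2))) ≤ 84 * (TP * (v * (J * G * D))) := by
      have h3 : 5 * D' + 2 ≤ 7 * (J * D) := by
        have h4 : D ≤ J * D := Nat.le_mul_of_pos_left _ hJ
        omega
      calc 12 * v * (G * (TP * (5 * D' + 2))) ≤ 12 * v * (G * (TP * (7 * (J * D)))) :=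
            Nat.mul_le_mul_left _ (Nat.mul_le_mul_left _ (Nat.mul_le_mul_left _ h3))
        _ = 84 * (TP * (v * (J * G * D))) := by ring
    have k3 : 10 ^ 6 * (TP * (v * (J * G * D))) ≤ TP * D ^ 2 := by
      calc 10 ^ 6 * (TP * (v * (J * G * D))) = TP * (10 ^ 6 * (v * (J * G * D))) := by ring
        _ ≤ TP * D ^ 2 := Nat.mul_le_mul_left _ hvD
    have k4 : 10 ^ 6 * (TP * (G * D' ^ 2)) ≤ TP * D ^ 2 := by
      calc 10 ^ 6 * (TP * (G * D' ^ 2)) = TP * (10 ^ 6 * (G * D' ^ 2)) := by ring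
        _ ≤ TP * D ^ 2 := Nat.mul_le_mul_left _ hG2
    have k5 : TP * D ^ 2 + 12 * (v * (TP * Y)) ≤ 12 * (v * (TP * S₀)) := by
      calc TP * D ^ 2 + 12 * (v * (TP * Y)) = TP * (D ^ 2 + 12 * (v * Y)) := by ring
        _ ≤ TP * (12 * (v * S₀)) := Nat.mul_le_mul_left _ hS
        _ = 12 * (v * (TP * S₀)) := by ring
    have k6 : 1 ≤ TP * D ^ 2 := Nat.mul_pos hTP (pow_pos hD0 2)
    have k7 : 3456 * (G * c ^ 2) + 252 * (v * (G * (c + 1) ^ 2)) ≤
        12 * (v * (TP * (G * V₀))) + TP * D ^ 2 / 2 := by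
      rcases hV with hV | hV
      · have h1 : 4800 * (v * (G * (c + 1) ^ 2)) ≤ 12 * (v * (TP * (G * V₀))) := by
          calc 4800 * (v * (G * (c + 1) ^ 2)) = 12 * (v * G) * (400 * (c + 1) ^ 2) := by ring
            _ ≤ 12 * (v * G) * (TP * V₀) := Nat.mul_le_mul_left _ hV
            _ = 12 * (v * (TP * (G * V₀))) := by ring
        have h2 : G * c ^ 2 ≤ v * (G * (c + 1) ^ 2) := by
          calc G * c ^ 2 ≤ G * (c + 1) ^ 2 :=
                Nat.mul_le_mul_left _ (Nat.pow_le_pow_left (Nat.le_succ c) 2)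
            _ ≤ v * (G * (c + 1) ^ 2) := Nat.le_mul_of_pos_left _ hv
        omega
      · have h1 : v * (G * (c + 1) ^ 2) ≤ 4 * (G * c ^ 3) := by
          have h3 : (c + 1) ^ 2 ≤ 4 * c ^ 2 := by nlinarith
          calc v * (G * (c + 1) ^ 2) ≤ c * (G * (4 * c ^ 2)) :=
                Nat.mul_le_mul hvc (Nat.mul_le_mul_left _ h3)
            _ = 4 * (G * c ^ 3) := by ring
        have h2 : G * c ^ 2 ≤ G * c ^ 3 := Nat.mul_le_mul_left _
          (Nat.pow_le_pow_right hc (by norm_num))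
        have h3 : 10 ^ 5 * (G * c ^ 3) ≤ TP * D ^ 2 := by
          calc 10 ^ 5 * (G * c ^ 3) = 10 ^ 5 * G * c ^ 3 := by ring
            _ ≤ _ := hV
        omega
    have e1 : 12 * v * (G * (TP * (48 * Y + 5 * D' + 2)) + 21 * (G * (c + 1) ^ 2) + TP * Y) =
        576 * (G * TP * (v * Y)) + 12 * v * (G * (TP * (5 * D' + 2))) +
          252 * (v * (G * (c + 1) ^ 2)) + 12 * (v * (TP * Y)) := by ring
    have e2 : 12 * v * (TP * (G * V₀) + TP * S₀) =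
        12 * (v * (TP * (G * V₀))) + 12 * (v * (TP * S₀)) := by ring
    rw [e1, e2]
    omega
  exact Nat.lt_of_mul_lt_mul_left main

end Pool.Agent.Work.MP_0421d9_ag.LD
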