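import Pool.Agent.Work.MP_0421d9_ag.ZPPath
import Pool.Agent.Work.MP_0421d9_ag.ZPNum2

/-!
Arbitrary multiplicities in degree at least `C M ^ (1 + ε)`: the path in the plane; the sum of the
multiplicities up to the threshold can be used instead of the initial budget.
-/

namespace Pool.Agent.Work.MP_0421d9_ag.LD

open MvPolynomial Module

theorem path_main2 {TP ρ J G X τ c D V₀ r p U : ℕ} {P : ℕ → ℕ}
    (hP : Pools P p U τ J) (hPτ : ∀ v, P v < J → v ≤ τ)
    (hWP : WinP TP ρ) (hTP : 1 ≤ TP) (hρ : 1 ≤ ρ) (hG : 1 ≤ G) (hX : 1000 * G ≤ X)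
    {m : Fin r → ℕ} (hc : 1 ≤ c) (hm : ∀ i, m i ≤ c)
    (hD1 : 10 ^ 6 * J * G * c ≤ D) (hD2 : 2 * X * (6 * ρ * (c + 1) + 10) ≤ D)
    (hstrip : ∀ (D' s u : ℕ) (y : Fin r → ℕ), D ≤ X * D' → D' ≤ D → 1 ≤ u → u ≤ τ → u ≤ c →
      (∀ i, y i ≤ c) → P u = s → (∀ i, P (y i) = s → y i ≤ u) →
      8 * D' ≤ ∑ i ∈ Finset.univ.filter (fun i => P (y i) = s), y i →
      StripGain D' G (Finset.univ.filter (fun i => P (y i) = s)) y u)
    (hV1 : 400 * (c + 1) ^ 2 ≤ TP * V₀ ∨ 10 ^ 5 * G * (c ^ 2 * τ) ≤ TP * D ^ 2)
    (hV : G * (TP * (500 * J * D * (τ + 1) + 50 * D ^ 2) + 400 * (c + 1) ^ 2 * (τ + 1)) ≤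
        TP * ((G * V₀ + ∑ i, if P (m i) < J then m i else 0) * (τ + 1)))
    (U' S' : ℕ) (hUS : V₀ ≤ U' + S') :
    (hPm D m : ℤ) ≤ max (U' : ℤ)
      ((((D + 2).choose 2 : ℕ) : ℤ) - ((∑ i, (m i + 1).choose 2 : ℕ) : ℤ) + S') := by
  classical
  obtain ⟨cn, hcn⟩ : ∃ cn : (Fin r → ℕ) → ℕ, ∀ y, cn y = ∑ i, (y i + 1).choose 2 :=
    ⟨_, fun _ => rfl⟩
  obtain ⟨S₀, hS₀⟩ : ∃ S₀, S₀ = ∑ i, m i := ⟨_, rfl⟩
  have hJ1 : 1 ≤ J := (Nat.zero_le _).trans_lt (hP.count 0 (Nat.zero_le _))
  have hX0 : 1000 ≤ X := by omega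
  have hDbig : 20000 ≤ D := by
    have h1 : 2 * 1000 * 10 ≤ 2 * X * (6 * ρ * (c + 1) + 10) :=
      Nat.mul_le_mul (by omega) (Nat.le_add_left _ _)
    omega
  -- the leaves
  have hleaf : ∀ (D' : ℕ) (y : Fin r → ℕ), D ≤ 2 * X * D' → D' ≤ D →
      (∀ i, y i = m i ∨ y i = 0) →
      (TP * ∑ i, y i ^ 2 ≤ TP * D' ^ 2 + 6 * c ^ 2 →
        G * (TP * (48 * (∑ i, y i) + 5 * D' + 2)) + 21 * (G * (c + 1) ^ 2) + TP * (∑ i, y i) <
          TP * (G * V₀) + TP * S₀) →
      ∀ U S : ℕ, G * V₀ + S₀ ≤ G * (U + S) + ∑ i, y i →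
      (hPm D' y : ℤ) ≤ max (U : ℤ)
        ((((D' + 2).choose 2 : ℕ) : ℤ) - (cn y : ℤ) + S) := by
    intro D' y h1 h2 h3 h4 U S h5
    by_contra hcon
    push Not at hcon
    rw [max_lt_iff] at hcon
    have hyc : ∀ i, y i ≤ c := by
      intro i
      rcases h3 i with h5 | h5
      · rw [h5]; exact hm i
      · rw [h5]; exact Nat.zero_le _
    have hD' : 6 * ρ * (c + 1) + 10 ≤ D' := by
      by_contra h6
      have h7 : 2 * X * D' < 2 * X * (6 * ρ * (c + 1) + 10) :=
        Nat.mul_lt_mul_of_pos_left (by omega) (by omega)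
      omega
    obtain ⟨hc1, hc2⟩ := hcon
    obtain ⟨l1, l2, l3⟩ := plane_leaf hWP hTP hc hyc hD' (by omega) (by rw [← hcn]; omega)
    have h6 := h4 l2
    rw [← hcn] at l1
    obtain ⟨Y, hY⟩ : ∃ Y, Y = ∑ i, y i := ⟨_, rfl⟩
    rw [← hY] at l1 h5 h6
    have g1 : U + S + 2 + (D' + 2).choose 2 ≤ 2 * hPm D' y + cn y := by omega
    have g2 : TP * (U + S + 2 + (D' + 2).choose 2) ≤
        TP * ((D' + 2).choose 2 + 48 * Y + 5 * D' + 4) + 21 * (c + 1) ^ 2 :=
      (Nat.mul_le_mul_left _ g1).trans l1
    have g3 : TP * (U + S) ≤ TP * (48 * Y + 5 * D' + 2) + 21 * (c + 1) ^ 2 := by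
      have e1 : TP * (U + S + 2 + (D' + 2).choose 2) =
        TP * (U + S) + TP * 2 + TP * (D' + 2).choose 2 := by ring
      have e2 : TP * ((D' + 2).choose 2 + 48 * Y + 5 * D' + 4) =
        TP * (48 * Y + 5 * D' + 2) + TP * 2 + TP * (D' + 2).choose 2 := by ring
      rw [e1, e2] at g2
      omega
    have g4 : G * (TP * (U + S)) ≤ G * (TP * (48 * Y + 5 * D' + 2)) + 21 * (G * (c + 1) ^ 2) := by
      calc G * (TP * (U + S)) ≤ G * (TP * (48 * Y + 5 * D' + 2) + 21 * (c + 1) ^ 2) :=
            Nat.mul_le_mul_left _ g3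
        _ = _ := by ring
    have g5 : TP * (G * V₀ + S₀) ≤ TP * (G * (U + S) + Y) := Nat.mul_le_mul_left _ h5
    have e1 : TP * (G * V₀ + S₀) = TP * (G * V₀) + TP * S₀ := by ring
    have e2 : TP * (G * (U + S) + Y) = G * (TP * (U + S)) + TP * Y := by ring
    rw [e1, e2] at g5
    omega
  -- the main claim
  have key : ∀ (n D' : ℕ) (y : Fin r → ℕ), D' ≤ n → D ≤ 2 * X * D' → D' ≤ D →
      (∀ i, y i = m i ∨ y i = 0) →
      (D + 2).choose 2 + 2 * cn y ≤ 2 * cn m + (D' + 2).choose 2 →
      (∀ i, y i ≠ m i → ∀ s, s < J → 8 * D ≤ psum P y s → P (m i) ≤ s) →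
      (∀ i, ¬ (P (m i) < J) → y i = m i) →
      ∀ U S : ℕ, G * V₀ + S₀ ≤ G * (U + S) + ∑ i, y i →
      (hPm D' y : ℤ) ≤ max (U : ℤ)
        ((((D' + 2).choose 2 : ℕ) : ℤ) - (cn y : ℤ) + S) := by
    intro n
    induction n with
    | zero =>
      intro D' y h0 h1
      have : D' = 0 := by omega
      rw [this, Nat.mul_zero] at h1
      omega
    | succ n ih =>
      intro D' y hn h1 h2 h3 h4 h5 h6' U S hUS'
      have hyc : ∀ i, y i ≤ c := by
        intro i
        rcases h3 i with h5 | h5
        · rw [h5]; exact hm i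
        · rw [h5]; exact Nat.zero_le _
      have hYS : ∑ i, y i ≤ S₀ := by
        rw [hS₀]
        refine Finset.sum_le_sum fun i _ => ?_
        rcases h3 i with h5 | h5
        · rw [h5]
        · rw [h5]; exact Nat.zero_le _
      by_cases hav : ∃ s, s < J ∧ 8 * D ≤ psum P y s
      · -- the smallest available pool
        obtain ⟨s, ⟨hsJ, hs⟩, hsmin⟩ : ∃ s, (s < J ∧ 8 * D ≤ psum P y s) ∧
            ∀ s', s' < s → psum P y s' < 8 * D :=
          ⟨Nat.find hav, Nat.find_spec hav, fun s' hs' => by
            have h6 := Nat.find_min hav hs'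
            have h7 := (Nat.find_spec hav).1
            by_contra h8
            exact h6 ⟨by omega, by omega⟩⟩
        obtain ⟨v, u, hv1, hvu, huv, hPv, hPu, ⟨iu, hiu⟩, ⟨iv, hiv⟩, hall, hsum⟩ :=
          least_pool hP (y := y) (B := 8 * D) (by omega) hs (fun s' hs' => (hsmin s' hs').le)
        have huc : u ≤ c := hiu ▸ hyc iu
        have hvc : v ≤ c := hvu.trans huc
        have huτ : u ≤ τ := hPτ u (by omega)
        by_cases hlf : X * D' < D
        · -- a leaf
          refine hleaf D' y h1 h2 h3 (fun hQ => ?_) U S hUS'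
          have hlp := large_part y v
          have hup := used_part (v := v) h3 (fun i hi => by
            have h6 := h5 i hi s hsJ hs
            rcases Nat.lt_or_ge v (m i) with h7 | h7
            · have h8 : s ≤ P (m i) := hPv ▸ hP.mono h7.le
              have h9 := hP.width v (m i) (by rw [hPv]; omega) h7.le
              have h10 : v / p ≤ v := Nat.div_le_self _ _
              omega
            · omega)
          rw [← hcn, ← hcn, ← hS₀] at hup
          have hQ2 := two_sum_choose y
          obtain ⟨Y, hY⟩ : ∃ Y, Y = ∑ i, y i := ⟨_, rfl⟩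
          obtain ⟨Q, hQ'⟩ : ∃ Q, Q = ∑ i, y i ^ 2 := ⟨_, rfl⟩
          obtain ⟨W, hW'⟩ : ∃ W, W = ∑ i, (if v ≤ y i then y i else 0) := ⟨_, rfl⟩
          rw [← hY, ← hW'] at hsum
          rw [← hW', hQ2, ← hY, ← hQ'] at hlp
          rw [← hY] at hup hYS ⊢
          rw [← hQ'] at hQ
          refine leaf_num3' hTP hG hJ1 hc hX hD1 hlf hv1 hvc (Q := Q) ?_ hQ ?_
            (hV1.imp id fun h => le_trans (Nat.mul_le_mul_left _ (Nat.mul_le_mul_left _
              (hvu.trans huτ))) h)
          · have h6 : (v + 1) * Y ≤ (v + 1) * (s * (8 * D)) + (v + 1) * W := by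
              rw [← Nat.mul_add]
              exact Nat.mul_le_mul_left _ hsum
            have h7 : (v + 1) * (s * (8 * D)) ≤ 2 * v * (J * (8 * D)) :=
              Nat.mul_le_mul (by omega) (Nat.mul_le_mul_right _ hsJ.le)
            have h8 : (v + 1) * Y = v * Y + Y := by ring
            omega
          · -- `D² ≤ 12 v (S₀ - Y)`
            have h6 := two_choose (D + 1)
            have h7 := two_choose (D' + 1)
            have e1 : D + 1 + 1 = D + 2 := rfl
            have e2 : D' + 1 + 1 = D' + 2 := rfl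
            rw [e1] at h6
            rw [e2] at h7
            have h8 : 1000 * D' ≤ D := by
              have : 1000 * D' ≤ X * D' := Nat.mul_le_mul_right _ hX0
              omega
            have h9 : 2 * ((D' + 1) ^ 2 + (D' + 1)) ≤ D ^ 2 := by
              have h10 : 500 * (D' + 1) ≤ D := by omega
              nlinarith
            have h10 : D ^ 2 ≤ (D + 1) ^ 2 + (D + 1) := by nlinarith
            have h11 : D ^ 2 + 4 * ((2 * v + 1) * Y) ≤ 4 * ((2 * v + 1) * S₀) := by omega
            have h12 : D ^ 2 ≤ 4 * ((2 * v + 1) * (S₀ - Y)) := by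
              rw [Nat.mul_sub, Nat.mul_sub]
              omega
            have h13 : 4 * ((2 * v + 1) * (S₀ - Y)) ≤ 12 * (v * (S₀ - Y)) := by
              have h14 : 2 * v + 1 ≤ 3 * v := by omega
              calc 4 * ((2 * v + 1) * (S₀ - Y)) ≤ 4 * (3 * v * (S₀ - Y)) :=
                    Nat.mul_le_mul_left _ (Nat.mul_le_mul_right _ h14)
                _ = 12 * (v * (S₀ - Y)) := by ring
            have h14 := h12.trans h13
            have h15 : v * Y ≤ v * S₀ := Nat.mul_le_mul_left _ hYS
            rw [Nat.mul_sub, Nat.mul_sub] at h14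
            omega
        · -- a strip
          push Not at hlf
          have hQs : 8 * D' ≤ ∑ i ∈ Finset.univ.filter (fun i => P (y i) = s), y i := by
            rw [← psum_eq_filter]
            omega
          obtain ⟨κ, A, y', Su, hst, hout, hSu, hκu, hSu1, e1, e2⟩ :=
            hstrip D' s u y hlf h2 (by omega) huτ huc hyc hPu (fun i hi => (hall i hi).2) hQs
          obtain ⟨hκ1, hκ2, hAD, hyy, hcnt, hRR⟩ := hst.pstep
          have h3' : ∀ i, y' i = m i ∨ y' i = 0 := by
            intro i
            rcases hyy i with h6 | h6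
            · rw [h6]; exact h3 i
            · exact Or.inr h6
          have h5' : ∀ i, y' i ≠ m i → ∀ s', s' < J → 8 * D ≤ psum P y' s' → P (m i) ≤ s' := by
            intro i hi s' hsJ' hs'
            have h6 := hs'.trans (psum_mono P hyy s')
            by_cases h7 : y i = m i
            · have h8 : i ∈ Finset.univ.filter (fun i => P (y i) = s) := by
                by_contra h9
                exact hi ((hout i h9).trans h7)
              have h9 := (Finset.mem_filter.1 h8).2
              rw [← h7, h9]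
              by_contra h10
              have := hsmin s' (by omega)
              omega
            · exact h5 i h7 s' hsJ' h6
          have h6'' : ∀ i, ¬ (P (m i) < J) → y' i = m i := by
            intro i hi
            have h7 := h6' i hi
            have h8 : i ∉ Finset.univ.filter (fun i => P (y i) = s) := by
              intro h9
              have h10 := (Finset.mem_filter.1 h9).2
              rw [h7] at h10
              omega
            exact (hout i h8).trans h7
          rw [← hcn, ← hcn] at hcnt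
          obtain ⟨e, he⟩ : ∃ e, D' = e + κ + 1 := ⟨D' - κ - 1, by omega⟩
          have f1 : D' - κ = e + 1 := by omega
          have f2 : D' - κ + 1 - A = e + 2 - A := by omega
          have f3 : D' - κ - 1 = e := by omega
          rw [f1] at hAD
          rw [f2] at e2
          rw [f1] at hRR
          have f4 : e + 1 - 1 = e := rfl
          rw [f4] at hRR
          have r1 := rows_choose e κ
          have r2 := row_choose e
          rw [he] at hcnt
          have hlow : D ≤ 2 * X * e := by
            have h6 : X * D' ≤ X * e + X * (2 * c + 1) := by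
              rw [← Nat.mul_add]
              exact Nat.mul_le_mul_left _ (by omega)
            have h7 : 2 * X * (2 * c + 1) ≤ D := by
              refine le_trans (Nat.mul_le_mul_left _ ?_) hD2
              have h8 : c + 1 ≤ ρ * (c + 1) := Nat.le_mul_of_pos_left _ hρ
              have h9 : 6 * ρ * (c + 1) = 6 * (ρ * (c + 1)) := by ring
              omega
            have h8 : 2 * X * (2 * c + 1) = 2 * (X * (2 * c + 1)) := by ring
            have h9 : 2 * X * e = 2 * (X * e) := by ring
            omega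
          have hlow1 : D ≤ 2 * X * (e + 1) :=
            hlow.trans (Nat.mul_le_mul_left _ (Nat.le_succ e))
          obtain ⟨Y, hY⟩ : ∃ Y, Y = ∑ i, y i := ⟨_, rfl⟩
          obtain ⟨Y', hY'⟩ : ∃ Y', Y' = ∑ i, y' i := ⟨_, rfl⟩
          rw [← hY, ← hY'] at hSu
          rw [← hY] at hUS'
          have hr3 : (e + 2).choose 2 + 2 * (e + 2) ≤ (e + κ + 1 + 2).choose 2 := by
            have h6 := row_choose (e + 1)
            have h7 : (e + 1 + 1 + 2).choose 2 ≤ (e + κ + 1 + 2).choose 2 :=
              Nat.choose_le_choose 2 (by omega)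
            have h8 : e + 1 + 2 = e + 3 := rfl
            omega
          rw [he] at h4
          have i1 := ih (e + 1) y' (by omega) hlow1 (by omega) h3' (by omega) h5' h6'' (U + A) S (by
            rw [← hY']
            have h6 : G * (U + A + S) = G * (U + S) + G * A := by ring
            omega)
          have i2 := ih e y' (by omega) hlow (by omega) h3' (by omega) h5' h6'' U (S + (e + 2 - A)) (by
            rw [← hY']
            have h6 : G * (U + (S + (e + 2 - A))) = G * (U + S) + G * (e + 2 - A) := by ring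
            omega)
          rw [he] at hRR ⊢
          generalize hPm (e + 1) y' = A1 at *
          generalize hPm e y' = A2 at *
          generalize hPm (e + κ + 1) y = A0 at *
          clear ih hleaf hall h5 h5' h3 h3' hyy hout hstrip hyc h6' h6'' hV hV1
          push_cast at i1 i2 ⊢
          omega
      · -- no pool is available
        push Not at hav
        refine hleaf D' y h1 h2 h3 (fun hQ => ?_) U S hUS'
        have h6 := low_pools P y (s₀ := J) (B := 8 * D) (fun s hs => (hav s hs).le)
        refine leaf_num2' hG hJ1 (by omega) h2 ?_ h6 ?_ hV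
        · rw [hS₀, ← Finset.sum_add_distrib, ← Finset.sum_add_distrib]
          refine Finset.sum_congr rfl fun i _ => ?_
          by_cases hi : P (m i) < J
          · rw [if_pos hi]
            rcases h3 i with h7 | h7
            · rw [h7, if_pos hi]
            · rw [h7, ite_self]
          · rw [h6' i hi, if_neg hi]
            omega
        · have h7 := beyond (P := P) (J := J) (τ := τ) hP.count y
          calc TP * ((τ + 1) * ∑ i, y i)
              ≤ TP * ((τ + 1) * (J * (8 * D)) + ∑ i, y i ^ 2) :=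
                Nat.mul_le_mul_left _ (h7.trans (Nat.add_le_add_right
                  (Nat.mul_le_mul_left _ h6) _))
            _ = TP * ((τ + 1) * (J * (8 * D))) + TP * ∑ i, y i ^ 2 := by ring
            _ ≤ TP * ((τ + 1) * (J * (8 * D))) + (TP * D' ^ 2 + 6 * c ^ 2) :=
                Nat.add_le_add_left hQ _
            _ ≤ TP * ((τ + 1) * (J * (8 * D))) + TP * D ^ 2 + 6 * c ^ 2 := by
                rw [Nat.add_assoc]
                exact Nat.add_le_add_left (Nat.add_le_add_right
                  (Nat.mul_le_mul_left _ (Nat.pow_le_pow_left h2 2)) _) _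
  have h0 := key D D m le_rfl (Nat.le_mul_of_pos_left _ (by omega)) le_rfl (fun i => Or.inl rfl) (by omega)
    (fun i hi => absurd rfl hi) (fun i _ => rfl) U' S' (by
      rw [hS₀]
      exact Nat.add_le_add_right (Nat.mul_le_mul_left _ hUS) _)
  rw [← hcn]
  exact h0

end Pool.Agent.Work.MP_0421d9_ag.LD
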