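import Pool.Agent.Work.MP_0421d9_ag.ZBoot
import Pool.Agent.Work.MP_0421d9_ag.FSmooth

/-!
Smoothness of the general member from the nonspeciality of the neighbouring systems, by
bootstrapping.
-/

set_option linter.unusedSectionVars false

namespace Pool.Agent.Work.MP_0421d9_ag

open MvPolynomial Module LD

theorem upJ_nbr {r : ℕ} (m : Fin r → ℕ) (j a : Fin r) : Nbr m (upJ m j a) := by
  refine Or.inr ⟨j, ?_, fun i hi => ?_⟩
  · unfold upJ
    rw [if_pos rfl]
  · unfold upJ
    rw [if_neg hi]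
    split_ifs
    · exact le_rfl
    · exact Nat.zero_le _

theorem sum_upJ {r : ℕ} (m : Fin r → ℕ) (j a : Fin r) :
    ∑ i, (upJ m j a i + 1).choose 2 +
      ∑ i ∈ Finset.univ.filter (fun i => i ≠ a ∧ m i < m j), (m i + 1).choose 2 =
        ∑ i, (m i + 1).choose 2 + (m j + 1) := by
  have h1 : ∑ i, (m i + 1).choose 2 + (m j + 1) =
      ∑ i, ((m i + 1).choose 2 + if i = j then m j + 1 else 0) := by
    rw [Finset.sum_add_distrib, Finset.sum_ite_eq' _ j, if_pos (Finset.mem_univ j)]
  rw [h1, Finset.sum_filter, ← Finset.sum_add_distrib]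
  refine Finset.sum_congr rfl (fun i _ => ?_)
  unfold upJ
  by_cases hi : i = j
  · subst hi
    rw [if_pos rfl, if_pos rfl, if_neg (fun h => lt_irrefl _ h.2),
      Nat.choose_succ_succ' (m i + 1) 1, Nat.choose_one_right]
    ring
  · rw [if_neg hi, if_neg hi]
    by_cases h2 : m j ≤ m i ∨ i = a
    · rw [if_pos h2, if_neg]
      rintro ⟨h3, h4⟩
      rcases h2 with h2 | h2
      · omega
      · exact h3 h2
    · push Not at h2
      rw [if_neg (by push Not; exact h2), if_pos ⟨h2.2, h2.1⟩]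
      simp

/-- **Smoothness by bootstrapping**, from the nonspeciality of the system itself and of the systems
of the points of large multiplicity, one further point, and one multiplicity raised by one. -/
theorem boot_smooth' {r d : ℕ} (p : Fin r → Fin 3 → ℂ) (hp : GenericPoints p) (m : Fin r → ℕ)
    (hm : finrank ℂ (linSys d p m) = (d + 2).choose 2 - ∑ j, (m j + 1).choose 2)
    (hup : ∀ j a, 2 ≤ m j → 2 ≤ m a → finrank ℂ (linSys d p (upJ m j a)) =
      (d + 2).choose 2 - ∑ i, (upJ m j a i + 1).choose 2)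
    (hbig : ∀ j a, 3 ≤ m j → 2 ≤ m a → m j < finrank ℂ (linSys d p m) +
      ∑ i ∈ Finset.univ.filter (fun i => i ≠ a ∧ m i < m j), (m i + 1).choose 2)
    (h2 : (∃ F ∈ linSys d p m, Squarefree F) ∨ ∀ j, m j = 2 → 2 < finrank ℂ (linSys d p m) +
      (Finset.univ.filter (fun i => m i = 1)).card)
    (hne : linSys d p m ≠ ⊥) :
    (∃ F ∈ linSys d p m, Squarefree F) ∧
    (∀ s : Fin (finrank ℂ (linSys d p m) - 1) → Fin 3 → ℂ, GenericPoints (Sum.elim p s) →
      ∀ F ∈ linSys d p m, F ≠ 0 → (∀ k, eval (s k) F = 0) → SmoothOnBlowup p m F) ∧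
    (∃ F ∈ linSys d p m, F ≠ 0 ∧ SmoothOnBlowup p m F) := by
  have hpos : finrank ℂ (linSys d p m) ≠ 0 := by
    intro h2
    have hfin : Module.Finite ℂ (linSys d p m) :=
      Submodule.finiteDimensional_of_le (linSys_le d p _)
    exact hne (Submodule.finrank_eq_zero.mp h2)
  refine boot_final p hp m (by omega) hne (fun j a hj ha => ?_) (h2.imp_right ?_)
  · have h1 := hup j a (by omega) ha
    have h2 := sum_upJ m j a
    have h3 := hbig j a hj ha
    omega
  · intro h3 j a hj ha
    have h1 := hup j a hj.ge ha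
    have h2 := sum_upJ m j a
    have h4 := h3 j hj
    have h5 : (Finset.univ.filter (fun i => m i = 1)).card ≤
        ∑ i ∈ Finset.univ.filter (fun i => i ≠ a ∧ m i < m j), (m i + 1).choose 2 := by
      rw [Finset.card_eq_sum_ones]
      refine (Finset.sum_le_sum (g := fun i => (m i + 1).choose 2) (fun i hi => ?_)).trans
        (Finset.sum_le_sum_of_subset ?_)
      · rw [(Finset.mem_filter.mp hi).2]
        decide
      · intro i hi
        have h1 := (Finset.mem_filter.mp hi).2
        refine Finset.mem_filter.mpr ⟨Finset.mem_univ i, ?_, by omega⟩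
        rintro rfl
        omega
    omega

/-- **Smoothness by bootstrapping**, from the nonspeciality of the neighbouring systems. -/
theorem boot_smooth {r d : ℕ} (p : Fin r → Fin 3 → ℂ) (hp : GenericPoints p) (m : Fin r → ℕ)
    (hns : ∀ m' : Fin r → ℕ, Nbr m m' →
      finrank ℂ (linSys d p m') = (d + 2).choose 2 - ∑ j, (m' j + 1).choose 2)
    (hbig : ∀ j a, 3 ≤ m j → 2 ≤ m a → m j < finrank ℂ (linSys d p m) +
      ∑ i ∈ Finset.univ.filter (fun i => i ≠ a ∧ m i < m j), (m i + 1).choose 2)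
    (h2 : (∃ F ∈ linSys d p m, Squarefree F) ∨ ∀ j, m j = 2 → 2 < finrank ℂ (linSys d p m) +
      (Finset.univ.filter (fun i => m i = 1)).card)
    (hne : linSys d p m ≠ ⊥) :
    (∃ F ∈ linSys d p m, Squarefree F) ∧
    (∀ s : Fin (finrank ℂ (linSys d p m) - 1) → Fin 3 → ℂ, GenericPoints (Sum.elim p s) →
      ∀ F ∈ linSys d p m, F ≠ 0 → (∀ k, eval (s k) F = 0) → SmoothOnBlowup p m F) ∧
    (∃ F ∈ linSys d p m, F ≠ 0 ∧ SmoothOnBlowup p m F) :=
  boot_smooth' p hp m (hns m (Or.inl fun _ => le_rfl)) (fun j a _ _ => hns _ (upJ_nbr m j a))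
    hbig h2 hne

/-- if the dimension exceeds the multiplicities -/
theorem smooth_of_dim {r d : ℕ} (p : Fin r → Fin 3 → ℂ) (hp : GenericPoints p) (m : Fin r → ℕ)
    (hns : ∀ m' : Fin r → ℕ, Nbr m m' →
      finrank ℂ (linSys d p m') = (d + 2).choose 2 - ∑ j, (m' j + 1).choose 2)
    (hbig : ∀ i, 2 ≤ m i → m i < finrank ℂ (linSys d p m) +
      (Finset.univ.filter (fun j => m j = 1)).card)
    (hne : linSys d p m ≠ ⊥) :
    (∃ F ∈ linSys d p m, Squarefree F) ∧
    (∀ s : Fin (finrank ℂ (linSys d p m) - 1) → Fin 3 → ℂ, GenericPoints (Sum.elim p s) →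
      ∀ F ∈ linSys d p m, F ≠ 0 → (∀ k, eval (s k) F = 0) → SmoothOnBlowup p m F) ∧
    (∃ F ∈ linSys d p m, F ≠ 0 ∧ SmoothOnBlowup p m F) := by
  refine boot_smooth p hp m hns (fun j a hj ha => ?_) (Or.inr fun j hj => ?_) hne
  swap
  · have := hbig j hj.ge
    omega
  refine (hbig j (by omega)).trans_le (Nat.add_le_add_left ?_ _)
  rw [Finset.card_eq_sum_ones]
  refine (Finset.sum_le_sum (g := fun i => (m i + 1).choose 2) (fun i hi => ?_)).trans
    (Finset.sum_le_sum_of_subset ?_)
  · rw [(Finset.mem_filter.mp hi).2]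
    decide
  · intro i hi
    have h1 := (Finset.mem_filter.mp hi).2
    refine Finset.mem_filter.mpr ⟨Finset.mem_univ i, ?_, by omega⟩
    rintro rfl
    omega

end Pool.Agent.Work.MP_0421d9_ag
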