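import Pool.Agent.Work.MP_0421d9_ag.ZPLevel
import Pool.Agent.Work.MP_0421d9_ag.ZPStep

/-!
The windows for all systems in degree at least `R M` (helper21, after the plan of helper69).
-/

namespace Pool.Agent.Work.MP_0421d9_ag.LD

open MvPolynomial Module

/-- nonspeciality from the estimate of the path -/
theorem zw_ns {D r : ℕ} {m : Fin r → ℕ}
    (h : ∀ U S : ℕ, (((D + 2).choose 2 : ℤ) - ∑ i, ((m i + 1).choose 2 : ℤ)).natAbs ≤
      U + S → (hPm D m : ℤ) ≤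
        max (U : ℤ) (((D + 2).choose 2 : ℕ) - ((∑ i, (m i + 1).choose 2 : ℕ) : ℤ) + S)) :
    hPm D m = (D + 2).choose 2 - ∑ i, (m i + 1).choose 2 := by
  have h0 := hPm_count D m
  have hcast : (∑ i, ((m i + 1).choose 2 : ℤ)) = ((∑ i, (m i + 1).choose 2 : ℕ) : ℤ) := by
    push_cast
    rfl
  rw [hcast] at h
  rcases le_total (∑ i, (m i + 1).choose 2) ((D + 2).choose 2) with h1 | h1
  · have h2 := h ((D + 2).choose 2 - ∑ i, (m i + 1).choose 2) 0 (by omega)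
    omega
  · have h2 := h 0 (∑ i, (m i + 1).choose 2 - (D + 2).choose 2) (by omega)
    omega

/-- the case of large multiplicities -/
theorem zw_large (n : ℕ) : ∃ R₀ : ℕ, ∀ R, R₀ ≤ R → ∀ (r M D : ℕ) (m : Fin r → ℕ),
    R ^ (2 * n + 6) ≤ M → (∀ i, m i ≤ M) → R * M ≤ D → D ≤ 2 * R * M →
    M ^ 2 ≤ 2 * R ^ n * (((D + 2).choose 2 : ℤ) - ∑ i, ((m i + 1).choose 2 : ℤ)).natAbs →
      hPm D m = (D + 2).choose 2 - ∑ i, (m i + 1).choose 2 := by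
  obtain ⟨R₁, hFP⟩ := FP_level (n + 1)
  obtain ⟨G₁, A₁, hC2⟩ := plane_C2
  obtain ⟨K, hK⟩ : ∃ K : ℕ, K = 2 := ⟨_, rfl⟩
  obtain ⟨G, hG⟩ : ∃ G, G = 2 ^ (2 * K + 8) + G₁ := ⟨_, rfl⟩
  obtain ⟨X, hX⟩ : ∃ X, X = 1000 * G := ⟨_, rfl⟩
  have hG1 : 1 ≤ G := by
    have : 1 ≤ 2 ^ (2 * K + 8) := Nat.one_le_two_pow
    omega
  have hX1 : 1 ≤ X := by omega
  obtain ⟨R₂, hpar⟩ := zp_params 1 (2 * (n + 3)) K G X A₁ (by omega)
  refine ⟨R₂ + 40 * X * (R₁ + 4) + (80 * X) ^ (n + 1) * 9600 + 1200 +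
    128 * df 2 * X ^ 3 + X, fun R hR r M D m hM hm hD1 hD2 hχ => ?_⟩
  obtain ⟨s, q, p, J, hW, hq, ha2, hRs, hp, hJ, hR1, hR2, hR4⟩ := hpar R (by omega)
  obtain ⟨V₀, hV₀⟩ : ∃ V₀, V₀ =
    (((D + 2).choose 2 : ℤ) - ∑ i, ((m i + 1).choose 2 : ℤ)).natAbs := ⟨_, rfl⟩
  rw [← hV₀] at hχ
  have hR0 : 1200 ≤ R := by omega
  have hM1 : 1 ≤ M := (Nat.one_le_pow _ _ (by omega)).trans hM
  -- the plane
  obtain ⟨ρ, hρ⟩ : ∃ ρ, ρ = R / (40 * X) := ⟨_, rfl⟩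
  have hρ1 : R₁ + 4 ≤ ρ := by
    rw [hρ, Nat.le_div_iff_mul_le (by omega), Nat.mul_comm]
    omega
  have hWP := winP_of_FP (T := ρ ^ (n + 1)) (ρ := ρ) (Nat.one_le_pow _ _ (by omega)) (by omega)
    (hFP ρ (by omega))
  have hR3 : 40 * X * ρ ≤ R := by
    rw [hρ]
    exact Nat.mul_div_le R (40 * X)
  -- the largest multiplicity of the strips
  obtain ⟨τ, hτ⟩ : ∃ τ, τ = R ^ (n + 3) := ⟨_, rfl⟩
  have hτ0 : 1 ≤ τ := by
    rw [hτ]
    exact Nat.one_le_pow _ _ (by omega)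
  have hτM : τ ^ 2 ≤ M := by
    calc τ ^ 2 = R ^ (2 * n + 6) := by rw [hτ, ← pow_mul]; congr 1; ring
      _ ≤ M := hM
  have hτs : τ ≤ (s + 1) ^ (2 * (n + 3)) := by
    rw [hτ, pow_mul]
    exact Nat.pow_le_pow_left hRs _
  have hJ' : 100 * p ^ 2 + 64 * p ^ 2 * (Nat.log 2 (τ + 1) + 2) + 2 ≤ J := by
    refine le_trans ?_ hJ
    have h1 : Nat.log 2 (τ + 1) ≤ Nat.log 2 ((s + 1) ^ (2 * (n + 3)) + 1) :=
      Nat.log_mono_right (Nat.add_le_add_right hτs 1)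
    gcongr
  have hτ1 : X * τ ^ 2 ≤ (s + 1) ^ 1 * D := by
    have h1 : X ≤ R := by omega
    calc X * τ ^ 2 ≤ R * M := Nat.mul_le_mul h1 hτM
      _ ≤ D := hD1
      _ ≤ (s + 1) ^ 1 * D := Nat.le_mul_of_pos_left _ (by positivity)
  have hτ2 : 2 ^ (2 * K + 3) * df K * τ ^ (2 * K) * X ^ (2 * K - 1) ≤ D ^ (2 * K - 1) := by
    rw [hK]
    change 2 ^ 7 * df 2 * τ ^ 4 * X ^ 3 ≤ D ^ 3
    have h1 : 128 * df 2 * X ^ 3 ≤ R := by omega
    calc 2 ^ 7 * df 2 * τ ^ 4 * X ^ 3 = (128 * df 2 * X ^ 3) * (τ ^ 2) ^ 2 := by ring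
      _ ≤ R * M ^ 2 := Nat.mul_le_mul h1 (Nat.pow_le_pow_left hτM 2)
      _ ≤ R ^ 3 * M ^ 3 := Nat.mul_le_mul (Nat.le_self_pow (by norm_num) R)
          (Nat.pow_le_pow_right hM1 (by norm_num))
      _ = (R * M) ^ 3 := by ring
      _ ≤ D ^ 3 := Nat.pow_le_pow_left hD1 3
  have hV1 : 3 * (400 * (M + 1) ^ 2) ≤ ρ ^ (n + 1) * V₀ := by
    have h1 : R ≤ 80 * X * ρ := by
      have := zp_div (R := R) (Z := 40 * X) (by omega) (by nlinarith)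
      rw [← hρ] at this
      calc R ≤ 2 * (40 * X) * ρ := this
        _ = 80 * X * ρ := by ring
    have h2 : 9600 * R ^ n ≤ ρ ^ (n + 1) := by
      refine zp_pow h1 ?_ (by omega)
      have h3 : (80 * X) ^ (n + 1) * 9600 ≤ R := by omega
      calc (80 * X) ^ (n + 1) * (9600 * R ^ n) = ((80 * X) ^ (n + 1) * 9600) * R ^ n := by ring
        _ ≤ R * R ^ n := Nat.mul_le_mul_right _ h3
        _ = R ^ (n + 1) := by ring
    calc 3 * (400 * (M + 1) ^ 2) ≤ 3 * (400 * (2 * M) ^ 2) := by gcongr; omega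
      _ = 4800 * M ^ 2 := by ring
      _ ≤ 4800 * (2 * R ^ n * V₀) := Nat.mul_le_mul_left _ hχ
      _ = 9600 * R ^ n * V₀ := by ring
      _ ≤ ρ ^ (n + 1) * V₀ := Nat.mul_le_mul_right _ h2
  have hRn : 0 < R ^ n := pow_pos (by omega) n
  have hV2 : 3 * (500 * J * D) ≤ V₀ := by
    have h1 : 3000 * J ≤ R := by nlinarith
    have h2 : 2 * R ^ (n + 2) ≤ M := by
      refine le_trans ?_ hM
      calc 2 * R ^ (n + 2) ≤ R * R ^ (n + 2) := Nat.mul_le_mul_right _ (by omega)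
        _ = R ^ (n + 3) := by ring
        _ ≤ R ^ (2 * n + 6) := Nat.pow_le_pow_right (by omega) (by omega)
    refine Nat.le_of_mul_le_mul_left (c := 2 * R ^ n) ?_ (by omega)
    calc 2 * R ^ n * (3 * (500 * J * D)) ≤ 2 * R ^ n * (3 * (500 * J * (2 * R * M))) := by
          gcongr
      _ = 2 * R ^ (n + 1) * (3000 * J) * M := by ring
      _ ≤ 2 * R ^ (n + 1) * R * M := by gcongr
      _ = (2 * R ^ (n + 2)) * M := by ring
      _ ≤ M * M := Nat.mul_le_mul_right _ h2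
      _ = M ^ 2 := (sq M).symm
      _ ≤ 2 * R ^ n * V₀ := hχ
  have hV3 : 3 * (50 * D ^ 2) ≤ V₀ * (τ + 1) := by
    calc 3 * (50 * D ^ 2) ≤ 3 * (50 * (2 * R * M) ^ 2) := by gcongr
      _ = 600 * R ^ 2 * M ^ 2 := by ring
      _ ≤ 600 * R ^ 2 * (2 * R ^ n * V₀) := Nat.mul_le_mul_left _ hχ
      _ = 1200 * (R ^ (n + 2) * V₀) := by ring
      _ ≤ R * (R ^ (n + 2) * V₀) := Nat.mul_le_mul_right _ hR0
      _ = V₀ * τ := by rw [hτ]; ring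
      _ ≤ V₀ * (τ + 1) := Nat.mul_le_mul_left _ (Nat.le_succ τ)
  have hV : ρ ^ (n + 1) * (500 * J * D * (τ + 1) + 50 * D ^ 2) + 400 * (M + 1) ^ 2 * (τ + 1) ≤
      ρ ^ (n + 1) * (V₀ * (τ + 1)) := by
    have h1 : 3 * (ρ ^ (n + 1) * (500 * J * D * (τ + 1))) ≤ ρ ^ (n + 1) * (V₀ * (τ + 1)) := by
      calc 3 * (ρ ^ (n + 1) * (500 * J * D * (τ + 1)))
          = ρ ^ (n + 1) * ((3 * (500 * J * D)) * (τ + 1)) := by ring
        _ ≤ ρ ^ (n + 1) * (V₀ * (τ + 1)) := by gcongr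
    have h2 : 3 * (ρ ^ (n + 1) * (50 * D ^ 2)) ≤ ρ ^ (n + 1) * (V₀ * (τ + 1)) := by
      calc 3 * (ρ ^ (n + 1) * (50 * D ^ 2)) = ρ ^ (n + 1) * (3 * (50 * D ^ 2)) := by ring
        _ ≤ ρ ^ (n + 1) * (V₀ * (τ + 1)) := Nat.mul_le_mul_left _ hV3
    have h3 : 3 * (400 * (M + 1) ^ 2 * (τ + 1)) ≤ ρ ^ (n + 1) * (V₀ * (τ + 1)) := by
      calc 3 * (400 * (M + 1) ^ 2 * (τ + 1)) = (3 * (400 * (M + 1) ^ 2)) * (τ + 1) := by ring
        _ ≤ (ρ ^ (n + 1) * V₀) * (τ + 1) := Nat.mul_le_mul_right _ hV1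
        _ = ρ ^ (n + 1) * (V₀ * (τ + 1)) := by ring
    rw [Nat.mul_add]
    omega
  apply zw_ns
  intro U S hUS
  rw [← hV₀] at hUS
  exact plane_window_step hC2 hW hWP (Nat.one_le_pow _ _ (Nat.succ_pos s))
    (Nat.one_le_pow _ _ (by omega)) hq ha2 (by omega) (by omega) hp hJ'
    (hG.ge.trans' (Nat.le_add_right _ _)) (hG.ge.trans' (Nat.le_add_left _ _)) hX.ge hR1 hR2 hR3
    hR4 hM1 hm hD1 hτ1 hτ2 hV U S hUS

/-- **The windows**: multiplicities at most `M`, degree at least `R M`. -/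
theorem windows_level (n : ℕ) : ∃ R₀ : ℕ, ∀ R, R₀ ≤ R → ∀ (r M D : ℕ) (m : Fin r → ℕ),
    1 ≤ M → (∀ i, m i ≤ M) → R * M ≤ D →
    (M ≤ R ^ n ∨
      M ^ 2 ≤ 2 * R ^ n * (((D + 2).choose 2 : ℤ) - ∑ i, ((m i + 1).choose 2 : ℤ)).natAbs) →
      hPm D m = (D + 2).choose 2 - ∑ i, (m i + 1).choose 2 := by
  obtain ⟨R₁, h1⟩ := FP_level (2 * n + 6)
  obtain ⟨R₂, h2⟩ := zw_large n
  refine ⟨R₁ + R₂ + 2, fun R hR r M D m hM hm hD h => ?_⟩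
  obtain ⟨R', hR'⟩ : ∃ R', R' = D / M := ⟨_, rfl⟩
  have hRR : R ≤ R' := by
    rw [hR', Nat.le_div_iff_mul_le hM]
    exact hD
  have hD1 : R' * M ≤ D := by
    rw [hR']
    exact Nat.div_mul_le_self D M
  have hD2 : D ≤ 2 * R' * M := by
    have h3 : D < M * (D / M + 1) := Nat.lt_mul_div_succ D hM
    rw [← hR'] at h3
    nlinarith
  have hpow : R ^ n ≤ R' ^ n := Nat.pow_le_pow_left hRR n
  rcases le_total M (R' ^ (2 * n + 6)) with h3 | h3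
  · exact h1 R' (by omega) r M D m hM h3 hm hD1
  · refine h2 R' (by omega) r M D m h3 hm hD1 hD2 ?_
    rcases h with h | h
    · have h4 : M = R' ^ (2 * n + 6) ∨ R' ^ (2 * n + 6) < M := by omega
      have h5 : R' ^ n < R' ^ (2 * n + 6) := Nat.pow_lt_pow_right (by omega) (by omega)
      omega
    · refine h.trans ?_
      gcongr

/-- **The windows**, with real exponents. -/
theorem windows_real {A : ℝ} (hA : 0 < A) : ∃ R : ℝ, ∀ (r d M : ℕ) (p : Fin r → V3)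
    (m : Fin r → ℕ), GenericPoints p → 1 ≤ M → (∀ i, m i ≤ M) → R * M ≤ d →
    ((M : ℝ) ≤ ((d : ℝ) / M) ^ A ∨
      (M : ℝ) ^ 2 * ((M : ℝ) / d) ^ A ≤
        |((d + 2).choose 2 : ℝ) - ∑ i, ((m i + 1).choose 2 : ℝ)|) →
      finrank ℂ (linSys d p m) = (d + 2).choose 2 - ∑ i, (m i + 1).choose 2 := by
  obtain ⟨n, hn⟩ := exists_nat_ge A
  obtain ⟨R₀, hR₀⟩ := windows_level (2 * n)
  refine ⟨R₀ + 2, fun r d M p m hp hM hm hd h => ?_⟩
  rw [hPm_eq hp]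
  have hd' : (R₀ + 2) * M ≤ d := by exact_mod_cast hd
  obtain ⟨R, hR⟩ : ∃ R, R = d / M := ⟨_, rfl⟩
  have hRR : R₀ + 2 ≤ R := by
    rw [hR, Nat.le_div_iff_mul_le hM]
    exact hd'
  have hD1 : R * M ≤ d := by
    rw [hR]
    exact Nat.div_mul_le_self d M
  have hD2 : d ≤ (R + 1) * M := by
    have h3 : d < M * (d / M + 1) := Nat.lt_mul_div_succ d hM
    rw [← hR] at h3
    nlinarith
  have hMR : (0 : ℝ) < M := by exact_mod_cast hM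
  have hdR : (0 : ℝ) < d := by
    have : 0 < d := by nlinarith
    exact_mod_cast this
  have hquot1 : (1 : ℝ) ≤ (d : ℝ) / M := by
    rw [one_le_div hMR]
    have : M ≤ d := by nlinarith
    exact_mod_cast this
  have hquot2 : (d : ℝ) / M ≤ ((R ^ 2 : ℕ) : ℝ) := by
    rw [div_le_iff₀ hMR]
    have h1 : d ≤ R ^ 2 * M := hD2.trans (Nat.mul_le_mul_right M (by nlinarith))
    exact_mod_cast h1
  have hpow : ((d : ℝ) / M) ^ A ≤ ((R ^ (2 * n) : ℕ) : ℝ) := by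
    calc ((d : ℝ) / M) ^ A ≤ ((d : ℝ) / M) ^ (n : ℝ) :=
          Real.rpow_le_rpow_of_exponent_le hquot1 hn
      _ = ((d : ℝ) / M) ^ n := Real.rpow_natCast _ _
      _ ≤ ((R ^ 2 : ℕ) : ℝ) ^ n := pow_le_pow_left₀ (by positivity) hquot2 n
      _ = ((R ^ (2 * n) : ℕ) : ℝ) := by
        push_cast
        rw [← pow_mul]
  refine hR₀ R (by omega) r M d m hM hm hD1 ?_
  rcases h with h | h
  · left
    exact_mod_cast h.trans hpow
  · right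
    have h1 : (M : ℝ) ^ 2 ≤ ((R ^ (2 * n) : ℕ) : ℝ) *
        |((d + 2).choose 2 : ℝ) - ∑ i, ((m i + 1).choose 2 : ℝ)| := by
      have h2 : ((M : ℝ) / d) ^ A * ((d : ℝ) / M) ^ A = 1 := by
        rw [← Real.mul_rpow (by positivity) (by positivity), div_mul_div_comm, mul_comm (d : ℝ),
          div_self (by positivity), Real.one_rpow]
      calc (M : ℝ) ^ 2 = ((d : ℝ) / M) ^ A * ((M : ℝ) ^ 2 * ((M : ℝ) / d) ^ A) := by
            linear_combination -((M : ℝ) ^ 2) * h2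
        _ ≤ ((d : ℝ) / M) ^ A * |((d + 2).choose 2 : ℝ) - ∑ i, ((m i + 1).choose 2 : ℝ)| := by
            gcongr
        _ ≤ _ := by gcongr
    have h3 : (M ^ 2 : ℤ) ≤ ((2 * R ^ (2 * n) : ℕ) : ℤ) *
        |((d + 2).choose 2 : ℤ) - ∑ i, ((m i + 1).choose 2 : ℤ)| := by
      have h4 : ((M ^ 2 : ℤ) : ℝ) ≤ ((((2 * R ^ (2 * n) : ℕ) : ℤ) *
        |((d + 2).choose 2 : ℤ) - ∑ i, ((m i + 1).choose 2 : ℤ)| : ℤ) : ℝ) := by
        push_cast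
        push_cast at h1
        have h5 : (0 : ℝ) ≤ (R : ℝ) ^ (2 * n) *
          |((d + 2).choose 2 : ℝ) - ∑ i, ((m i + 1).choose 2 : ℝ)| := by positivity
        linarith
      exact_mod_cast h4
    rw [Int.abs_eq_natAbs] at h3
    exact_mod_cast h3

end Pool.Agent.Work.MP_0421d9_ag.LD
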