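import Pool.Agent.Work.MP_0421d9_ag.ZDefs
import Pool.Agent.Work.MP_0421d9_ag.WRank

/-!
Polynomials in two variables: multiplicities at points, interpolation, dimension counts.
-/

namespace Pool.Agent.Work.MP_0421d9_ag.LD

open MvPolynomial Module

/-! ### the translation -/

theorem sh_C (x : Fin 2 → ℂ) (c : ℂ) : sh x (C c) = C c := by
  rw [sh, aeval_C]
  rfl

theorem sh_X (x : Fin 2 → ℂ) (l : Fin 2) : sh x (X l) = C (x l) + X l := by
  rw [sh, aeval_X]

theorem sh_neg_sh (x : Fin 2 → ℂ) (f : P2) : sh (-x) (sh x f) = f := by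
  have h : (sh (-x)).comp (sh x) = AlgHom.id ℂ P2 := by
    ext l
    rw [AlgHom.comp_apply, sh_X, map_add, sh_C, sh_X, AlgHom.id_apply, Pi.neg_apply, C_neg,
      add_neg_cancel_left]
  exact DFunLike.congr_fun h f

theorem sh_injective (x : Fin 2 → ℂ) : Function.Injective (sh x) :=
  Function.LeftInverse.injective (sh_neg_sh x)

theorem sh_ne_zero {x : Fin 2 → ℂ} {f : P2} (hf : f ≠ 0) : sh x f ≠ 0 := by
  intro h
  exact hf (sh_injective x (by rw [h, map_zero]))

theorem sh_sh_neg (x : Fin 2 → ℂ) (f : P2) : sh x (sh (-x) f) = f := by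
  have h := sh_neg_sh (-x) f
  rwa [neg_neg] at h

/-! ### orders -/

theorem Vq.mono {x : Fin 2 → ℂ} {f : P2} {m n : ℕ} (h : Vq x f m) (hn : n ≤ m) : Vq x f n :=
  fun β hβ => h β (hβ.trans_le hn)

theorem Vq.add {x : Fin 2 → ℂ} {f g : P2} {m : ℕ} (hf : Vq x f m) (hg : Vq x g m) :
    Vq x (f + g) m := by
  intro β hβ
  rw [map_add, coeff_add, hf β hβ, hg β hβ, add_zero]

theorem Vq.zero (x : Fin 2 → ℂ) (m : ℕ) : Vq x 0 m := by
  intro β _
  rw [map_zero, coeff_zero]

theorem Vq.neg {x : Fin 2 → ℂ} {f : P2} {m : ℕ} (hf : Vq x f m) : Vq x (-f) m := by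
  intro β hβ
  rw [map_neg, coeff_neg, hf β hβ, neg_zero]

theorem Vq.sub {x : Fin 2 → ℂ} {f g : P2} {m : ℕ} (hf : Vq x f m) (hg : Vq x g m) :
    Vq x (f - g) m := by
  rw [sub_eq_add_neg]
  exact hf.add hg.neg

theorem vq_zero' (x : Fin 2 → ℂ) (f : P2) : Vq x f 0 := fun _ hβ => absurd hβ (Nat.not_lt_zero _)

theorem Vq.mul {x : Fin 2 → ℂ} {f g : P2} {m n : ℕ} (hf : Vq x f m) (hg : Vq x g n) :
    Vq x (f * g) (m + n) := by
  classical
  intro β hβ
  rw [map_mul, coeff_mul]
  refine Finset.sum_eq_zero fun u hu => ?_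
  rw [Finset.HasAntidiagonal.mem_antidiagonal] at hu
  have h1 : u.1.degree + u.2.degree = β.degree := by rw [← hu, map_add]
  rcases Nat.lt_or_ge u.1.degree m with h | h
  · rw [hf _ h, zero_mul]
  · rw [hg _ (by omega), mul_zero]

theorem Vq.mul_left {x : Fin 2 → ℂ} {f : P2} {m : ℕ} (hf : Vq x f m) (g : P2) :
    Vq x (g * f) m := by
  have h := (vq_zero' x g).mul hf
  rwa [zero_add] at h

theorem Vq.mul_right {x : Fin 2 → ℂ} {f : P2} {m : ℕ} (hf : Vq x f m) (g : P2) :
    Vq x (f * g) m := by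
  rw [mul_comm]
  exact hf.mul_left g

theorem Vq.pow {x : Fin 2 → ℂ} {f : P2} {m : ℕ} (hf : Vq x f m) (n : ℕ) :
    Vq x (f ^ n) (n * m) := by
  induction n with
  | zero => rw [zero_mul]; exact vq_zero' x _
  | succ n ih =>
    rw [pow_succ, Nat.succ_mul]
    exact ih.mul hf

theorem exists_coeff_ne (x : Fin 2 → ℂ) {f : P2} (hf : f ≠ 0) :
    ∃ n, ∃ β : Fin 2 →₀ ℕ, β.degree = n ∧ coeff β (sh x f) ≠ 0 := by
  obtain ⟨β, hβ⟩ := MvPolynomial.ne_zero_iff.mp (sh_ne_zero (x := x) hf)
  exact ⟨_, β, rfl, hβ⟩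

theorem vq_iff {x : Fin 2 → ℂ} {f : P2} (hf : f ≠ 0) {m : ℕ} : Vq x f m ↔ m ≤ mu x f := by
  constructor
  · intro h
    refine le_csInf (exists_coeff_ne x hf) ?_
    rintro n ⟨β, rfl, hβ⟩
    by_contra hlt
    exact hβ (h β (not_le.mp hlt))
  · intro h β hβ
    by_contra hne
    have h1 : mu x f ≤ β.degree := Nat.sInf_le ⟨β, rfl, hne⟩
    omega

theorem vq_mu (x : Fin 2 → ℂ) {f : P2} (hf : f ≠ 0) : Vq x f (mu x f) := (vq_iff hf).2 le_rfl

theorem exists_coeff_mu (x : Fin 2 → ℂ) {f : P2} (hf : f ≠ 0) :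
    ∃ β : Fin 2 →₀ ℕ, β.degree = mu x f ∧ coeff β (sh x f) ≠ 0 :=
  Nat.sInf_mem (exists_coeff_ne x hf)

theorem order_sh (x : Fin 2 → ℂ) {f : P2} (hf : f ≠ 0) :
    ((sh x f : P2) : MvPowerSeries (Fin 2) ℂ).order = mu x f := by
  rw [MvPowerSeries.order_eq_nat]
  refine ⟨?_, fun d hd => ?_⟩
  · obtain ⟨β, h1, h2⟩ := exists_coeff_mu x hf
    exact ⟨β, by rw [MvPolynomial.coeff_coe]; exact h2, h1⟩
  · rw [MvPolynomial.coeff_coe]
    exact vq_mu x hf d hd

theorem mu_mul {x : Fin 2 → ℂ} {f g : P2} (hf : f ≠ 0) (hg : g ≠ 0) :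
    mu x (f * g) = mu x f + mu x g := by
  have h := MvPowerSeries.order_mul ((sh x f : P2) : MvPowerSeries (Fin 2) ℂ)
    ((sh x g : P2) : MvPowerSeries (Fin 2) ℂ)
  rw [← MvPolynomial.coe_mul, ← map_mul, order_sh x hf, order_sh x hg,
    order_sh x (mul_ne_zero hf hg)] at h
  exact_mod_cast h

theorem totalDegree_mul' {f g : P2} (hf : f ≠ 0) (hg : g ≠ 0) :
    (f * g).totalDegree = f.totalDegree + g.totalDegree := totalDegree_mul_of_isDomain hf hg

theorem mu_le_totalDegree (x : Fin 2 → ℂ) {f : P2} (hf : f ≠ 0) : mu x f ≤ f.totalDegree := by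
  obtain ⟨β, h1, h2⟩ := exists_coeff_mu x hf
  have h3 : (sh x f).totalDegree ≤ f.totalDegree := by
    rw [sh, aeval_def, eval₂_eq]
    refine totalDegree_finsetSum_le fun d hd => ?_
    refine (totalDegree_mul _ _).trans ?_
    have h4 : (algebraMap ℂ P2 (coeff d f)).totalDegree = 0 := by
      rw [algebraMap_eq, totalDegree_C]
    rw [h4, zero_add]
    refine (totalDegree_finsetProd _ _).trans ?_
    refine le_trans (Finset.sum_le_sum (g := fun l => d l) fun l _ => ?_) ?_
    · refine (totalDegree_pow _ _).trans ?_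
      have h5 : (C (x l) + X l : P2).totalDegree ≤ 1 := by
        refine (totalDegree_add _ _).trans ?_
        rw [totalDegree_C, totalDegree_X]
        exact max_le (Nat.zero_le _) le_rfl
      calc d l * (C (x l) + X l : P2).totalDegree ≤ d l * 1 := Nat.mul_le_mul_left _ h5
        _ = d l := mul_one _
    · exact le_totalDegree hd
  rw [← h1]
  exact (le_totalDegree (mem_support_iff.mpr h2)).trans h3

/-! ### interpolation -/

/-- the ideal of the polynomials which vanish to order `s` at `x` -/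
noncomputable def idV (x : Fin 2 → ℂ) (s : ℕ) : Ideal P2 where
  carrier := {f | Vq x f s}
  add_mem' := fun hf hg => hf.add hg
  zero_mem' := Vq.zero x s
  smul_mem' := fun g _ hf => hf.mul_left g

theorem mem_idV {x : Fin 2 → ℂ} {s : ℕ} {f : P2} : f ∈ idV x s ↔ Vq x f s := Iff.rfl

theorem vq_X_sub (x : Fin 2 → ℂ) (l : Fin 2) : Vq x (X l - C (x l)) 1 := by
  intro β hβ
  have h0 : β = 0 := by
    have h1 : β.degree = 0 := by omega
    rwa [Finsupp.degree_eq_zero_iff] at h1
  rw [map_sub, sh_X, sh_C, add_sub_cancel_left, h0, coeff_zero_X]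

theorem isCoprime_idV {x y : Fin 2 → ℂ} (h : x ≠ y) (s t : ℕ) :
    IsCoprime (idV x s) (idV y t) := by
  obtain ⟨l, hl⟩ := Function.ne_iff.mp h
  have h1 : IsCoprime (X l - C (x l) : P2) (X l - C (y l)) := by
    refine ⟨C ((y l - x l)⁻¹), -C ((y l - x l)⁻¹), ?_⟩
    have h2 : (C ((y l - x l)⁻¹) * (X l - C (x l)) + -C ((y l - x l)⁻¹) * (X l - C (y l)) : P2) =
        C ((y l - x l)⁻¹ * (y l - x l)) := by
      rw [C_mul, C_sub]
      ring
    rw [h2, inv_mul_cancel₀ (sub_ne_zero.mpr hl.symm), C_1]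
  obtain ⟨a, b, hab⟩ := h1.pow (m := s) (n := t)
  rw [Ideal.isCoprime_iff_exists]
  refine ⟨a * (X l - C (x l)) ^ s, ?_, b * (X l - C (y l)) ^ t, ?_, hab⟩
  · have h3 := (vq_X_sub x l).pow s
    rw [mul_one] at h3
    exact h3.mul_left a
  · have h3 := (vq_X_sub y l).pow t
    rw [mul_one] at h3
    exact h3.mul_left b

section

variable {ι : Type} [Fintype ι] {q : ι → Fin 2 → ℂ}

/-- interpolation (Chinese remainder theorem) -/
theorem interp (hq : Function.Injective q) (s : ι → ℕ) (h : ι → P2) :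
    ∃ g : P2, ∀ i, Vq (q i) (g - h i) (s i) := by
  have h1 : Pairwise (Function.onFun IsCoprime fun i => idV (q i) (s i)) := by
    intro i j hij
    exact isCoprime_idV (fun h => hij (hq h)) _ _
  exact Ideal.exists_forall_sub_mem_ideal h1 h

/-! ### dimensions -/

/-- the coefficients of the jets of order less than `m i` at `q i` -/
noncomputable def jq (q : ι → Fin 2 → ℂ) (m : ι → ℕ) :
    P2 →ₗ[ℂ] ((i : ι) → Ex (m i) → ℂ) where
  toFun f := fun i x => coeff (ex x) (sh (q i) f)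
  map_add' f g := by
    funext i x
    rw [map_add, coeff_add]
    rfl
  map_smul' c f := by
    funext i x
    rw [map_smul, coeff_smul]
    rfl

omit [Fintype ι] in
theorem jq_apply (m : ι → ℕ) (f : P2) (i : ι) (x : Ex (m i)) :
    jq q m f i x = coeff (ex x) (sh (q i) f) := rfl

omit [Fintype ι] in
theorem mem_ker_jq {m : ι → ℕ} {f : P2} : f ∈ LinearMap.ker (jq q m) ↔
    ∀ i, Vq (q i) f (m i) := by
  rw [LinearMap.mem_ker]
  constructor
  · intro h i β hβ
    obtain ⟨x, rfl⟩ := exists_ex hβ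
    exact congrFun (congrFun h i) x
  · intro h
    funext i x
    rw [jq_apply]
    exact h i _ (by rw [ex_degree]; exact x.1.2)

theorem finrank_jq (m : ι → ℕ) :
    finrank ℂ ((i : ι) → Ex (m i) → ℂ) = ∑ i, (m i + 1).choose 2 := by
  rw [Module.finrank_pi_fintype]
  refine Finset.sum_congr rfl fun i _ => ?_
  rw [Module.finrank_fintype_fun_eq_card, card_ex]

theorem jq_surjective (hq : Function.Injective q) (m : ι → ℕ) :
    Function.Surjective (jq q m) := by
  classical
  intro v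
  obtain ⟨g, hg⟩ := interp hq m
    (fun i => sh (-(q i)) (∑ x : Ex (m i), monomial (ex x) (v i x)))
  refine ⟨g, ?_⟩
  funext i x
  have h1 := hg i (ex x) (by rw [ex_degree]; exact x.1.2)
  rw [map_sub, coeff_sub, sh_sh_neg, sub_eq_zero] at h1
  rw [jq_apply, h1, coeff_sum, Finset.sum_eq_single x]
  · rw [coeff_monomial, if_pos rfl]
  · intro y _ hy
    rw [coeff_monomial, if_neg fun h => hy (ex_injective h)]
  · intro h
    exact absurd (Finset.mem_univ _) h

/-- the coefficients of degree at most `D` -/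
noncomputable def coefD (D : ℕ) : P2 →ₗ[ℂ] (Ex (D + 1) → ℂ) where
  toFun f := fun x => coeff (ex x) f
  map_add' f g := by
    funext x
    rw [coeff_add]
    rfl
  map_smul' c f := by
    funext x
    rw [coeff_smul]
    rfl

/-- a polynomial of degree at most `D` is given by its coefficients -/
noncomputable def equivPD (D : ℕ) : PD D ≃ₗ[ℂ] (Ex (D + 1) → ℂ) :=
  LinearEquiv.ofBijective ((coefD D).domRestrict (PD D)) (by
    classical
    constructor
    · intro f g h
      apply Subtype.ext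
      apply MvPolynomial.ext
      intro β
      rcases Nat.lt_or_ge β.degree (D + 1) with hβ | hβ
      · obtain ⟨x, rfl⟩ := exists_ex hβ
        exact congrFun h x
      · have h1 : f.1.totalDegree ≤ D := f.2
        have h2 : g.1.totalDegree ≤ D := g.2
        rw [coeff_eq_zero_of_totalDegree_lt, coeff_eq_zero_of_totalDegree_lt]
        · exact lt_of_lt_of_le (Nat.lt_succ_of_le h2) hβ
        · exact lt_of_lt_of_le (Nat.lt_succ_of_le h1) hβ
    · intro v
      refine ⟨⟨∑ x : Ex (D + 1), monomial (ex x) (v x), ?_⟩, ?_⟩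
      · refine totalDegree_finsetSum_le fun x _ => ?_
        refine (totalDegree_monomial_le _ _).trans ?_
        have h1 : (ex x).degree = x.1 := ex_degree x
        have h2 := x.1.2
        have h3 : ((ex x).sum fun _ => id) = (ex x).degree := rfl
        rw [h3, h1]
        exact Nat.lt_succ_iff.mp h2
      · funext x
        show coeff (ex x) (∑ x : Ex (D + 1), monomial (ex x) (v x)) = v x
        rw [coeff_sum, Finset.sum_eq_single x]
        · rw [coeff_monomial, if_pos rfl]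
        · intro y _ hy
          rw [coeff_monomial, if_neg fun h => hy (ex_injective h)]
        · intro h
          exact absurd (Finset.mem_univ _) h)

instance (D : ℕ) : Module.Finite ℂ (PD D) :=
  Module.Finite.equiv (equivPD D).symm

omit [Fintype ι] in
theorem VD_le (D : ℕ) (q : ι → Fin 2 → ℂ) (m : ι → ℕ) : VD D q m ≤ PD D := fun _ hf => hf.1

omit [Fintype ι] in
instance (D : ℕ) (m : ι → ℕ) : Module.Finite ℂ (VD D q m) :=
  Submodule.finiteDimensional_of_le (VD_le D q m)

theorem finrank_PD (D : ℕ) : finrank ℂ (PD D) = (D + 2).choose 2 := by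
  rw [LinearEquiv.finrank_eq (equivPD D), Module.finrank_fintype_fun_eq_card, card_ex]

omit [Fintype ι] in
theorem PD_inf_ker (D : ℕ) (m : ι → ℕ) : PD D ⊓ LinearMap.ker (jq q m) = VD D q m := by
  ext f
  rw [Submodule.mem_inf, mem_ker_jq]
  exact Iff.rfl

omit [Fintype ι] in
theorem finrank_PD_eq (q : ι → Fin 2 → ℂ) (D : ℕ) (m : ι → ℕ) :
    (D + 2).choose 2 = finrank ℂ (VD D q m) + finrank ℂ ↥((PD D).map (jq q m)) := by
  rw [← finrank_PD, finrank_eq_ker_add_map (jq q m) (PD D), PD_inf_ker]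

theorem VD_count (q : ι → Fin 2 → ℂ) (D : ℕ) (m : ι → ℕ) :
    (D + 2).choose 2 ≤ finrank ℂ (VD D q m) + ∑ i, (m i + 1).choose 2 := by
  rw [finrank_PD_eq q D m]
  have h := Submodule.finrank_le ((PD D).map (jq q m))
  rw [finrank_jq] at h
  omega

theorem PD_mono {D E : ℕ} (h : D ≤ E) : PD D ≤ PD E := fun _ hf => hf.trans h

/-- a finite dimensional quotient is reached by polynomials of bounded degree -/
theorem exists_PD_map {T : Type} [AddCommGroup T] [Module ℂ T] [Module.Finite ℂ T]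
    (φ : P2 →ₗ[ℂ] T) (hφ : Function.Surjective φ) : ∃ D₀, ∀ D, D₀ ≤ D → (PD D).map φ = ⊤ := by
  classical
  let b := Module.finBasis ℂ T
  choose g hg using fun i => hφ (b i)
  refine ⟨Finset.univ.sup fun i => (g i).totalDegree, fun D hD => ?_⟩
  rw [eq_top_iff, ← b.span_eq, Submodule.span_le]
  rintro _ ⟨i, rfl⟩
  refine ⟨g i, ?_, hg i⟩
  exact le_trans (Finset.le_sup (f := fun i => (g i).totalDegree) (Finset.mem_univ i)) hD

theorem jq_large (hq : Function.Injective q) (m : ι → ℕ) : ∃ D₀, ∀ D, D₀ ≤ D →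
    (PD D).map (jq q m) = ⊤ := exists_PD_map _ (jq_surjective hq m)

theorem VD_large (hq : Function.Injective q) (m : ι → ℕ) : ∃ D₀, ∀ D, D₀ ≤ D →
    finrank ℂ (VD D q m) + ∑ i, (m i + 1).choose 2 = (D + 2).choose 2 := by
  obtain ⟨D₀, hD⟩ := jq_large hq m
  refine ⟨D₀, fun D h => ?_⟩
  rw [finrank_PD_eq q D m, hD D h, finrank_top, finrank_jq]

/-- the space of the relations -/
noncomputable def RelSub (D : ℕ) (q : ι → Fin 2 → ℂ) (m : ι → ℕ) : Submodule ℂ (P2 →ₗ[ℂ] ℂ) where
  carrier := {τ | IsRel D q m τ}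
  add_mem' := fun {a b} ha hb => ⟨fun f hf => by
    rw [LinearMap.add_apply, ha.1 f hf, hb.1 f hf, add_zero], fun f hf => by
    rw [LinearMap.add_apply, ha.2 f hf, hb.2 f hf, add_zero]⟩
  zero_mem' := ⟨fun _ _ => rfl, fun _ _ => rfl⟩
  smul_mem' := fun c a ha => ⟨fun f hf => by
    rw [LinearMap.smul_apply, ha.1 f hf, smul_zero], fun f hf => by
    rw [LinearMap.smul_apply, ha.2 f hf, smul_zero]⟩

/-- the space of the polynomials of degree less than `D` -/
noncomputable def PL (D : ℕ) : Submodule ℂ P2 where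
  carrier := {f | f = 0 ∨ f.totalDegree < D}
  add_mem' := by
    rintro f g (rfl | hf) (rfl | hg)
    · left; rw [add_zero]
    · right; rwa [zero_add]
    · right; rwa [add_zero]
    · right
      exact lt_of_le_of_lt (totalDegree_add f g) (max_lt hf hg)
  zero_mem' := Or.inl rfl
  smul_mem' := by
    rintro c f (rfl | hf)
    · left; rw [smul_zero]
    · right
      exact lt_of_le_of_lt (totalDegree_smul_le c f) hf

omit [Fintype ι] in
theorem isRel_iff {D : ℕ} {m : ι → ℕ} {τ : P2 →ₗ[ℂ] ℂ} : IsRel D q m τ ↔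
    (∀ f ∈ PL D, τ f = 0) ∧ LinearMap.ker (jq q m) ≤ LinearMap.ker τ := by
  constructor
  · rintro ⟨h1, h2⟩
    refine ⟨?_, fun f hf => h2 f (mem_ker_jq.mp hf)⟩
    rintro f (rfl | hf)
    · exact map_zero _
    · exact h1 f hf
  · rintro ⟨h1, h2⟩
    exact ⟨fun f hf => h1 f (Or.inr hf), fun f hf => h2 (mem_ker_jq.mpr hf)⟩

/-- the relations are the functionals on the jets which kill the polynomials of small degree -/
noncomputable def relEquiv (hq : Function.Injective q) (D : ℕ) (m : ι → ℕ) :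
    ((PL D).map (jq q m)).dualAnnihilator ≃ₗ[ℂ] RelSub D q m :=
  LinearEquiv.ofBijective
    (LinearMap.codRestrict (RelSub D q m)
      ((jq q m).dualMap ∘ₗ ((PL D).map (jq q m)).dualAnnihilator.subtype) (by
        rintro ⟨φ, hφ⟩
        rw [Submodule.mem_dualAnnihilator] at hφ
        refine isRel_iff.mpr ⟨fun f hf => hφ _ ⟨f, hf, rfl⟩, fun f hf => ?_⟩
        rw [LinearMap.mem_ker] at hf ⊢
        show φ (jq q m f) = 0
        rw [hf, map_zero])) (by
    constructor
    · rintro ⟨φ, hφ⟩ ⟨ψ, hψ⟩ h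
      apply Subtype.ext
      apply LinearMap.ext
      intro v
      obtain ⟨f, rfl⟩ := jq_surjective hq m v
      have h1 := congrArg (fun u : RelSub D q m => u.1 f) h
      exact h1
    · rintro ⟨τ, hτ⟩
      obtain ⟨h1, h2⟩ := isRel_iff.mp hτ
      obtain ⟨s, hs⟩ := LinearMap.exists_rightInverse_of_surjective (jq q m)
        (LinearMap.range_eq_top.mpr (jq_surjective hq m))
      have h3 : ∀ f, (τ ∘ₗ s) (jq q m f) = τ f := by
        intro f
        have h4 : s (jq q m f) - f ∈ LinearMap.ker (jq q m) := by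
          rw [LinearMap.mem_ker, map_sub, sub_eq_zero]
          exact DFunLike.congr_fun hs (jq q m f)
        have h5 := h2 h4
        rw [LinearMap.mem_ker, map_sub, sub_eq_zero] at h5
        exact h5
      refine ⟨⟨τ ∘ₗ s, ?_⟩, ?_⟩
      · rw [Submodule.mem_dualAnnihilator]
        rintro _ ⟨f, hf, rfl⟩
        rw [h3]
        exact h1 f hf
      · apply Subtype.ext
        apply LinearMap.ext
        intro f
        exact h3 f)

omit [Fintype ι] in
theorem RelSub_le (D : ℕ) (m : ι → ℕ) :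
    RelSub D q m ≤ LinearMap.range (jq q m).dualMap := by
  intro τ hτ
  rw [LinearMap.range_dualMap_eq_dualAnnihilator_ker, Submodule.mem_dualAnnihilator]
  intro f hf
  exact (isRel_iff.mp hτ).2 hf

instance (D : ℕ) (m : ι → ℕ) : Module.Finite ℂ (RelSub D q m) :=
  Submodule.finiteDimensional_of_le (RelSub_le D m)

theorem PL_succ (D : ℕ) : PL (D + 1) = PD D := by
  ext f
  constructor
  · rintro (rfl | hf)
    · exact (PD D).zero_mem
    · exact Nat.lt_succ_iff.mp hf
  · intro hf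
    exact Or.inr (Nat.lt_succ_iff.mpr hf)

theorem finrank_RelSub (hq : Function.Injective q) (D : ℕ) (m : ι → ℕ) :
    finrank ℂ (RelSub (D + 1) q m) + (D + 2).choose 2 =
      finrank ℂ (VD D q m) + ∑ i, (m i + 1).choose 2 := by
  rw [← LinearEquiv.finrank_eq (relEquiv hq (D + 1) m), PL_succ, finrank_PD_eq q D m,
    ← finrank_jq m]
  have h := Subspace.finrank_add_finrank_dualAnnihilator_eq ((PD D).map (jq q m))
  omega

end

end Pool.Agent.Work.MP_0421d9_ag.LD
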