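import Pool.Agent.Work.MP_0421d9_ag.ZDefs2

/-!
Arbitrary multiplicities in degree at least `C M ^ (1 + ε)`: pools of multiplicities.
-/

namespace Pool.Agent.Work.MP_0421d9_ag.LD

open MvPolynomial Module

/-! ### pools -/

/-- the sum of the multiplicities in the pool `s` -/
def psum {r : ℕ} (P : ℕ → ℕ) (y : Fin r → ℕ) (s : ℕ) : ℕ := ∑ i, if P (y i) = s then y i else 0

theorem psum_eq_filter {r : ℕ} (P : ℕ → ℕ) (y : Fin r → ℕ) (s : ℕ) :
    psum P y s = ∑ i ∈ Finset.univ.filter (fun i => P (y i) = s), y i := by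
  rw [psum, Finset.sum_filter]

theorem psum_mono {r : ℕ} (P : ℕ → ℕ) {y y' : Fin r → ℕ} (h : ∀ i, y' i = y i ∨ y' i = 0)
    (s : ℕ) : psum P y' s ≤ psum P y s := by
  refine Finset.sum_le_sum fun i _ => ?_
  rcases h i with h1 | h1
  · rw [h1]
  · rw [h1, ite_self]
    exact Nat.zero_le _

/-- the pools with index less than `s₀` -/
theorem low_pools {r : ℕ} (P : ℕ → ℕ) (y : Fin r → ℕ) {s₀ B : ℕ} (h : ∀ s, s < s₀ →
    psum P y s ≤ B) : (∑ i, if P (y i) < s₀ then y i else 0) ≤ s₀ * B := by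
  have h1 : (∑ i, if P (y i) < s₀ then y i else 0) = ∑ s ∈ Finset.range s₀, psum P y s := by
    unfold psum
    rw [Finset.sum_comm]
    refine Finset.sum_congr rfl fun i _ => ?_
    rw [Finset.sum_ite_eq]
    simp only [Finset.mem_range]
  rw [h1]
  calc _ ≤ ∑ s ∈ Finset.range s₀, B := Finset.sum_le_sum fun s hs => h s (Finset.mem_range.1 hs)
    _ = s₀ * B := by rw [Finset.sum_const, Finset.card_range, smul_eq_mul]

/-- the smallest available pool: `v` is its least multiplicity, `u` its greatest multiplicity -/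
theorem least_pool {r : ℕ} {P : ℕ → ℕ} {p U T J : ℕ} (hP : Pools P p U T J) {y : Fin r → ℕ}
    {B s₀ : ℕ} (hB : 1 ≤ B) (h1 : B ≤ psum P y s₀) (h2 : ∀ s, s < s₀ → psum P y s ≤ B) :
    ∃ v u : ℕ, 1 ≤ v ∧ v ≤ u ∧ u ≤ v + v / p ∧ P v = s₀ ∧ P u = s₀ ∧ (∃ i, y i = u) ∧
      (∃ i, y i = v) ∧
      (∀ i, P (y i) = s₀ → v ≤ y i ∧ y i ≤ u) ∧
      ∑ i, y i ≤ s₀ * B + ∑ i, (if v ≤ y i then y i else 0) := by
  classical
  have hne : (Finset.univ.filter (fun i => P (y i) = s₀)).Nonempty := by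
    rw [Finset.nonempty_iff_ne_empty]
    intro h
    rw [psum_eq_filter, h, Finset.sum_empty] at h1
    omega
  obtain ⟨i₀, hi₀, hmin⟩ := Finset.exists_min_image _ y hne
  obtain ⟨i₁, hi₁, hmax⟩ := Finset.exists_max_image _ y hne
  have hi₀' := (Finset.mem_filter.1 hi₀).2
  have hi₁' := (Finset.mem_filter.1 hi₁).2
  have hv : 1 ≤ y i₀ := by
    by_contra hv
    have hv0 : y i₀ = 0 := by omega
    -- all the multiplicities in the pool vanish
    have h3 : psum P y s₀ = 0 := by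
      rw [psum_eq_filter]
      refine Finset.sum_eq_zero fun i hi => ?_
      have h4 := (Finset.mem_filter.1 hi).2
      have h5 := hP.width (y i₀) (y i) (hi₀'.trans h4.symm) (by omega)
      rw [hv0, Nat.zero_div] at h5
      omega
    omega
  refine ⟨y i₀, y i₁, hv, hmin i₁ hi₁, hP.width _ _ (hi₀'.trans hi₁'.symm) (hmin i₁ hi₁), hi₀',
    hi₁', ⟨i₁, rfl⟩, ⟨i₀, rfl⟩, fun i hi => ?_, ?_⟩
  · have hi' : i ∈ Finset.univ.filter (fun i => P (y i) = s₀) :=
      Finset.mem_filter.2 ⟨Finset.mem_univ _, hi⟩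
    exact ⟨hmin i hi', hmax i hi'⟩
  · have h4 := low_pools P y h2
    have h5 : ∑ i, y i ≤ (∑ i, if P (y i) < s₀ then y i else 0) +
        ∑ i, (if y i₀ ≤ y i then y i else 0) := by
      rw [← Finset.sum_add_distrib]
      refine Finset.sum_le_sum fun i _ => ?_
      by_cases h6 : y i₀ ≤ y i
      · rw [if_pos h6]
        exact Nat.le_add_left _ _
      · have h7 : P (y i) ≤ s₀ := hi₀' ▸ hP.mono (by omega)
        have h8 : P (y i) ≠ s₀ := fun h8 => h6 (hmin i
          (Finset.mem_filter.2 ⟨Finset.mem_univ _, h8⟩))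
        rw [if_pos (lt_of_le_of_ne h7 h8)]
        exact Nat.le_add_right _ _
    omega

/-- multiplicities at least `v` -/
theorem large_part {r : ℕ} (y : Fin r → ℕ) (v : ℕ) :
    (v + 1) * ∑ i, (if v ≤ y i then y i else 0) ≤ 2 * ∑ i, (y i + 1).choose 2 := by
  rw [Finset.mul_sum, Finset.mul_sum]
  refine Finset.sum_le_sum fun i _ => ?_
  have h1 := Nat.choose_two_right (y i + 1)
  have h2 : 2 * (y i + 1).choose 2 = (y i + 1) * y i := by
    rw [h1, Nat.add_sub_cancel]
    exact Nat.mul_div_cancel' ((Nat.even_mul_pred_self (y i + 1)).two_dvd)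
  rw [h2]
  split_ifs with h
  · exact Nat.mul_le_mul_right _ (by omega)
  · rw [Nat.mul_zero]
    exact Nat.zero_le _

theorem two_choose (n : ℕ) : 2 * (n + 1).choose 2 = n ^ 2 + n := by
  have h := Nat.mul_div_cancel' ((Nat.even_mul_pred_self (n + 1)).two_dvd)
  rw [Nat.choose_two_right, h, Nat.add_sub_cancel]
  ring

theorem two_sum_choose {r : ℕ} (y : Fin r → ℕ) :
    2 * ∑ i, (y i + 1).choose 2 = ∑ i, y i ^ 2 + ∑ i, y i := by
  rw [Finset.mul_sum, ← Finset.sum_add_distrib]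
  exact Finset.sum_congr rfl fun i _ => two_choose (y i)

/-- the used points have multiplicities at most `2 v` -/
theorem used_part {r : ℕ} {k y : Fin r → ℕ} {v : ℕ} (hy : ∀ i, y i = k i ∨ y i = 0)
    (h : ∀ i, y i ≠ k i → k i ≤ 2 * v) :
    2 * (∑ i, (k i + 1).choose 2) + (2 * v + 1) * ∑ i, y i ≤
      2 * (∑ i, (y i + 1).choose 2) + (2 * v + 1) * ∑ i, k i := by
  rw [Finset.mul_sum, Finset.mul_sum, Finset.mul_sum, Finset.mul_sum,
    ← Finset.sum_add_distrib, ← Finset.sum_add_distrib]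
  refine Finset.sum_le_sum fun i _ => ?_
  rw [two_choose, two_choose]
  rcases hy i with h1 | h1
  · rw [h1]
  · by_cases h2 : y i = k i
    · rw [h2]
    · have h3 := h i h2
      rw [h1]
      nlinarith [Nat.zero_le (k i)]

end Pool.Agent.Work.MP_0421d9_ag.LD
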