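import Pool.Agent.Work.MP_0421d9_ag.ZDefs2

/-!
One arbitrary multiplicity: definitions.
-/

namespace Pool.Agent.Work.MP_0421d9_ag.LD

open MvPolynomial Module

/-- all systems with one multiplicity `m₀`, all other multiplicities `m i ≤ c ≤ T`, and degree
`D ≥ m₀ + ρ c` are nonspecial -/
def FQ (T ρ : ℕ) : Prop := ∀ (r c D m₀ : ℕ) (m : Fin r → ℕ), 1 ≤ c → c ≤ T → (∀ i, m i ≤ c) →
  m₀ + ρ * c ≤ D → hPm D (Fin.cons m₀ m : Fin (r + 1) → ℕ) =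
    (D + 2).choose 2 - ((m₀ + 1).choose 2 + ∑ i, (m i + 1).choose 2)

/-- the windows for systems with one arbitrary multiplicity -/
def WinQ (T ρ : ℕ) : Prop := ∀ (r c D m₀ : ℕ) (m : Fin r → ℕ), 1 ≤ c → (∀ i, m i ≤ c) →
  m₀ + 6 * ρ * (c + 1) ≤ D →
    (T * D ^ 2 + 6 * c ^ 2 ≤ T * (m₀ ^ 2 + ∑ i, m i ^ 2) →
      hPm D (Fin.cons m₀ m : Fin (r + 1) → ℕ) = 0) ∧
    (T * (m₀ ^ 2 + 23 * m₀ + ∑ i, m i ^ 2 + 23 * ∑ i, m i) + 6 * (c + 1) ^ 2 ≤ T * D ^ 2 →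
      hPm D (Fin.cons m₀ m : Fin (r + 1) → ℕ) + (m₀ + 1).choose 2 + ∑ i, (m i + 1).choose 2 =
        (D + 2).choose 2)

end Pool.Agent.Work.MP_0421d9_ag.LD
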