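import Pool.Agent.Work.MP_0421d9_ag.ZQDefs
import Pool.Agent.Work.MP_0421d9_ag.ZPLeaf
import Pool.Agent.Work.MP_0421d9_ag.LRaise

/-!
The critical systems with one arbitrary multiplicity: both windows fail.
-/

namespace Pool.Agent.Work.MP_0421d9_ag.LD

open MvPolynomial Module

theorem zq_point {r : ℕ} (W m₀ : ℕ) (y : Fin r → ℕ) :
    2 * hPm (W + m₀) (Fin.cons m₀ y : Fin (r + 1) → ℕ) ≤ (W + 1) * (W + 2 * m₀ + 2) := by
  induction m₀ with
  | zero =>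
    have h1 := zl_le_choose W (Fin.cons 0 y : Fin (r + 1) → ℕ)
    have h2 := zl_two_choose (W + 1)
    change 2 * hPm W (Fin.cons 0 y : Fin (r + 1) → ℕ) ≤ _
    have h3 : (W + 1) * (W + 2 * 0 + 2) = (W + 1) * (W + 1 + 1) := by ring
    rw [h3, ← h2]
    exact Nat.mul_le_mul_left 2 h1
  | succ m ih =>
    have h1 := hPm_raise_le (D := W + m) (Fin.cons m y : Fin (r + 1) → ℕ) 0
      (by rw [Fin.cons_zero]; omega)
    rw [Fin.cons_zero] at h1
    have h2 : Function.update (Fin.cons m y : Fin (r + 1) → ℕ) 0 (m + 1) =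
        (Fin.cons (m + 1) y : Fin (r + 1) → ℕ) := Fin.update_cons_zero _ _ _
    rw [h2] at h1
    have h3 : W + (m + 1) = W + m + 1 := rfl
    rw [h3]
    have h4 : W + m + 1 - m = W + 1 := by omega
    rw [h4] at h1
    have h5 : (W + 1) * (W + 2 * (m + 1) + 2) = (W + 1) * (W + 2 * m + 2) + 2 * (W + 1) := by ring
    rw [h5]
    omega

theorem leafq_i {T ρ r c D m₀ : ℕ} {y : Fin r → ℕ} (hW : WinQ T ρ) (hT : 1 ≤ T) (hc : 1 ≤ c)
    (hyc : ∀ i, y i ≤ c) (hD : m₀ + (12 * ρ * (c + 1) + 20) ≤ D)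
    (h3 : T * D ^ 2 ≤ T * (m₀ ^ 2 + 23 * m₀ + ∑ i, y i ^ 2 + 23 * ∑ i, y i) + 6 * (c + 1) ^ 2) :
    T * hPm D (Fin.cons m₀ y : Fin (r + 1) → ℕ) ≤
      23 * (T * (m₀ + ∑ i, y i)) + 6 * (c + 1) ^ 2 + 6 * c ^ 2 + 2 * (T * D) + T := by
  classical
  set S1 := ∑ i, y i with hS1
  set S2 := ∑ i, y i ^ 2 with hS2
  set K := 23 * (T * (m₀ + S1)) + 6 * (c + 1) ^ 2 + 6 * c ^ 2 with hK
  have hKpos : 0 < K := by positivity
  obtain ⟨W, hWD⟩ : ∃ W, D = W + m₀ := ⟨D - m₀, by omega⟩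
  by_cases hex : ∃ x, 2 * x ≤ W ∧ K + T * x ^ 2 ≤ 2 * (T * D * x)
  · have hx := Nat.find_spec hex
    have hmin := @Nat.find_min _ _ hex
    set x := Nat.find hex with hxdef
    obtain ⟨hx1, hx2⟩ := hx
    have hx0 : x ≠ 0 := by
      intro h0
      rw [h0] at hx2
      simp at hx2
      omega
    obtain ⟨z, hz⟩ : ∃ z, x = z + 1 := ⟨x - 1, by omega⟩
    obtain ⟨E, hE⟩ : ∃ E, D = E + x := ⟨D - x, by omega⟩
    have hEρ : m₀ + 6 * ρ * (c + 1) ≤ E := by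
      have h4 : 12 * ρ * (c + 1) = 2 * (6 * ρ * (c + 1)) := by ring
      omega
    have h5 := (hW r c E m₀ y hc hyc hEρ).1 (by
      have h7 : T * D ^ 2 + T * x ^ 2 = T * E ^ 2 + 2 * (T * D * x) := by
        rw [hE]
        ring
      have h8 : T * (m₀ ^ 2 + 23 * m₀ + S2 + 23 * S1) =
          T * (m₀ ^ 2 + S2) + 23 * (T * (m₀ + S1)) := by ring
      rw [h8] at h3
      change T * E ^ 2 + 6 * c ^ 2 ≤ T * (m₀ ^ 2 + S2)
      omega)
    have h6 := zl_down E (Fin.cons m₀ y : Fin (r + 1) → ℕ) x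
    rw [← hE, h5] at h6
    have h7 : ¬ (2 * z ≤ W ∧ K + T * z ^ 2 ≤ 2 * (T * D * z)) := hmin (by omega)
    have h8 : 2 * (T * D * z) < K + T * z ^ 2 := by
      by_contra hcon
      exact h7 ⟨by omega, by omega⟩
    have h9 : T * (2 * hPm D (Fin.cons m₀ y : Fin (r + 1) → ℕ)) ≤
        T * (2 * E * x + x * x + 3 * x) := by
      refine Nat.mul_le_mul_left T ?_
      omega
    have h10 : 2 * (T * x) ≤ T * D := by
      have h11 := Nat.mul_le_mul_left T (show 2 * x ≤ D by omega)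
      have h12 : T * (2 * x) = 2 * (T * x) := by ring
      omega
    have h13 : T * (2 * E * x + x * x + 3 * x) + T * z ^ 2 =
        2 * (T * D * z) + 2 * (T * D) + T * x + T := by
      rw [hE, hz]
      ring
    have h14 : T * (2 * hPm D (Fin.cons m₀ y : Fin (r + 1) → ℕ)) =
        2 * (T * hPm D (Fin.cons m₀ y : Fin (r + 1) → ℕ)) := by ring
    rw [h14] at h9
    omega
  · have h4 : 2 * (T * D * (W / 2)) < K + T * (W / 2) ^ 2 := by
      by_contra hcon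
      exact hex ⟨W / 2, by omega, by omega⟩
    have h5 := zq_point W m₀ y
    rw [← hWD] at h5
    have h6 : T * (2 * hPm D (Fin.cons m₀ y : Fin (r + 1) → ℕ)) ≤
        T * ((W + 1) * (W + 2 * m₀ + 2)) := Nat.mul_le_mul_left T h5
    have h7 : T * ((W + 1) * (W + 2 * m₀ + 2)) ≤ 2 * K + 4 * (T * D) + 2 * T := by
      obtain ⟨w, hw⟩ : ∃ w, w = W / 2 := ⟨_, rfl⟩
      rw [← hw] at h4
      have h9 : W = 2 * w ∨ W = 2 * w + 1 := by omega
      rcases h9 with h9 | h9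
      · rw [hWD, h9] at h4 ⊢
        have e1 : T * ((2 * w + 1) * (2 * w + 2 * m₀ + 2)) =
            4 * (T * w ^ 2) + 4 * (T * (w * m₀)) + 6 * (T * w) + 2 * (T * m₀) + 2 * T := by ring
        have e2 : 2 * (T * (2 * w + m₀) * w) = 4 * (T * w ^ 2) + 2 * (T * (w * m₀)) := by ring
        have e3 : T * (2 * w + m₀) = 2 * (T * w) + T * m₀ := by ring
        omega
      · rw [hWD, h9] at h4 ⊢
        have e1 : T * ((2 * w + 1 + 1) * (2 * w + 1 + 2 * m₀ + 2)) =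
            4 * (T * w ^ 2) + 4 * (T * (w * m₀)) + 10 * (T * w) + 4 * (T * m₀) + 6 * T := by ring
        have e2 : 2 * (T * (2 * w + 1 + m₀) * w) =
            4 * (T * w ^ 2) + 2 * (T * (w * m₀)) + 2 * (T * w) := by ring
        have e3 : T * (2 * w + 1 + m₀) = 2 * (T * w) + T + T * m₀ := by ring
        omega
    have h8 : T * (2 * hPm D (Fin.cons m₀ y : Fin (r + 1) → ℕ)) =
        2 * (T * hPm D (Fin.cons m₀ y : Fin (r + 1) → ℕ)) := by ring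
    rw [h8] at h6
    omega

theorem leafq_ii {T ρ r c D m₀ : ℕ} {y : Fin r → ℕ} (hW : WinQ T ρ) (hT : 1 ≤ T) (hc : 1 ≤ c)
    (hyc : ∀ i, y i ≤ c) (hD : m₀ + (12 * ρ * (c + 1) + 20) ≤ D)
    (h2 : T * (m₀ ^ 2 + ∑ i, y i ^ 2) ≤ T * D ^ 2 + 6 * c ^ 2) :
    8 * (T * (hPm D (Fin.cons m₀ y : Fin (r + 1) → ℕ) + (m₀ + 1).choose 2 +
        ∑ i, (y i + 1).choose 2)) ≤ 4 * (T * ((D + 1) * (D + 2))) +
      5 * (23 * (T * (m₀ + ∑ i, y i)) + 6 * (c + 1) ^ 2 + 6 * c ^ 2) + 8 * (T * D) + 16 * T := by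
  classical
  set S1 := ∑ i, y i with hS1
  set S2 := ∑ i, y i ^ 2 with hS2
  set K := 23 * (T * (m₀ + S1)) + 6 * (c + 1) ^ 2 + 6 * c ^ 2 with hK
  have hKpos : 0 < K := by positivity
  have hex : ∃ x, K ≤ 2 * (T * D * x) + T * x ^ 2 := by
    refine ⟨K, ?_⟩
    have h4 : 1 * (1 * K) ≤ T * D * K := by
      rw [Nat.mul_assoc]
      exact Nat.mul_le_mul hT (Nat.mul_le_mul (by omega) le_rfl)
    omega
  have hx := Nat.find_spec hex
  have hmin := @Nat.find_min _ _ hex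
  set x := Nat.find hex with hxdef
  have hx0 : x ≠ 0 := by
    intro h0
    rw [h0] at hx
    simp at hx
    omega
  obtain ⟨z, hz⟩ : ∃ z, x = z + 1 := ⟨x - 1, by omega⟩
  have hEρ : m₀ + 6 * ρ * (c + 1) ≤ D + x := by
    have h4 : 12 * ρ * (c + 1) = 2 * (6 * ρ * (c + 1)) := by ring
    omega
  have h5 := (hW r c (D + x) m₀ y hc hyc hEρ).2 (by
    have h7 : T * (D + x) ^ 2 = T * D ^ 2 + 2 * (T * D * x) + T * x ^ 2 := by ring
    have h8 : T * (m₀ ^ 2 + 23 * m₀ + S2 + 23 * S1) =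
        T * (m₀ ^ 2 + S2) + 23 * (T * (m₀ + S1)) := by ring
    change T * (m₀ ^ 2 + 23 * m₀ + S2 + 23 * S1) + 6 * (c + 1) ^ 2 ≤ _
    rw [h7, h8]
    omega)
  have h6 := zl_up D (Fin.cons m₀ y : Fin (r + 1) → ℕ) x
  have h7 : K > 2 * (T * D * z) + T * z ^ 2 := by
    have h8 := hmin (show z < x by omega)
    omega
  have h8 : 2 * (D + x + 2).choose 2 = (D + x + 1) * (D + x + 2) := zl_two_choose (D + x + 1)
  have h9 : T * (2 * (hPm D (Fin.cons m₀ y : Fin (r + 1) → ℕ) + (m₀ + 1).choose 2 +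
      ∑ i, (y i + 1).choose 2)) ≤ T * ((D + x + 1) * (D + x + 2)) := by
    refine Nat.mul_le_mul_left T ?_
    omega
  have h10 : T * ((D + x + 1) * (D + x + 2)) + T =
      T * ((D + 1) * (D + 2)) + (2 * (T * D * z) + T * z ^ 2) + 2 * (T * D) + 5 * (T * z) +
        5 * T := by
    rw [hz]
    ring
  have h11 : 10 * (T * z) ≤ T * D * z := by
    have h12 : T * D * z = D * (T * z) := by ring
    rw [h12]
    exact Nat.mul_le_mul_right _ (by omega)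
  have h13 : T * (2 * (hPm D (Fin.cons m₀ y : Fin (r + 1) → ℕ) + (m₀ + 1).choose 2 +
      ∑ i, (y i + 1).choose 2)) =
      2 * (T * (hPm D (Fin.cons m₀ y : Fin (r + 1) → ℕ) + (m₀ + 1).choose 2 +
        ∑ i, (y i + 1).choose 2)) := by ring
  rw [h13] at h9
  omega

/-- the parameters of a critical system with one arbitrary multiplicity -/
theorem plane_leafQ {TP ρ r c D m₀ : ℕ} {y : Fin r → ℕ} (hW : WinQ TP ρ) (hTP : 1 ≤ TP)
    (hc : 1 ≤ c) (hyc : ∀ i, y i ≤ c) (hD : m₀ + (12 * ρ * (c + 1) + 20) ≤ D)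
    (h0 : hPm D (Fin.cons m₀ y : Fin (r + 1) → ℕ) ≠ 0)
    (h1 : hPm D (Fin.cons m₀ y : Fin (r + 1) → ℕ) + (m₀ + 1).choose 2 +
      ∑ i, (y i + 1).choose 2 ≠ (D + 2).choose 2) :
    TP * (2 * hPm D (Fin.cons m₀ y : Fin (r + 1) → ℕ) + (m₀ + 1).choose 2 +
        ∑ i, (y i + 1).choose 2) ≤
      TP * ((D + 2).choose 2 + 100 * ∑ i, y i + 100 * D) + 50 * (c + 1) ^ 2 ∧
    TP * (m₀ ^ 2 + ∑ i, y i ^ 2) ≤ TP * D ^ 2 + 6 * c ^ 2 ∧
    TP * D ^ 2 ≤ TP * (m₀ ^ 2 + 23 * m₀ + ∑ i, y i ^ 2 + 23 * ∑ i, y i) + 6 * (c + 1) ^ 2 := by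
  have hρ : m₀ + 6 * ρ * (c + 1) ≤ D := by
    have h4 : 12 * ρ * (c + 1) = 2 * (6 * ρ * (c + 1)) := by ring
    omega
  have hw := hW r c D m₀ y hc hyc hρ
  have h2 : TP * (m₀ ^ 2 + ∑ i, y i ^ 2) ≤ TP * D ^ 2 + 6 * c ^ 2 := by
    by_contra hcon
    exact h0 (hw.1 (by omega))
  have h3 : TP * D ^ 2 ≤ TP * (m₀ ^ 2 + 23 * m₀ + ∑ i, y i ^ 2 + 23 * ∑ i, y i) +
      6 * (c + 1) ^ 2 := by
    by_contra hcon
    exact h1 (hw.2 (by omega))
  refine ⟨?_, h2, h3⟩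
  have h4 := leafq_i hW hTP hc hyc hD h3
  have h5 := leafq_ii hW hTP hc hyc hD h2
  have h6 : 2 * (D + 2).choose 2 = (D + 1) * (D + 2) := zl_two_choose (D + 1)
  rw [← h6] at h5
  set h := hPm D (Fin.cons m₀ y : Fin (r + 1) → ℕ) with hh
  have e1 : TP * (h + (m₀ + 1).choose 2 + ∑ i, (y i + 1).choose 2) =
      TP * h + TP * (m₀ + 1).choose 2 + TP * ∑ i, (y i + 1).choose 2 := by ring
  have e2 : TP * (2 * h + (m₀ + 1).choose 2 + ∑ i, (y i + 1).choose 2) =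
      2 * (TP * h) + TP * (m₀ + 1).choose 2 + TP * ∑ i, (y i + 1).choose 2 := by ring
  have e3 : TP * (2 * (D + 2).choose 2) = 2 * (TP * (D + 2).choose 2) := by ring
  have e4 : TP * ((D + 2).choose 2 + 100 * ∑ i, y i + 100 * D) =
      TP * (D + 2).choose 2 + 100 * (TP * ∑ i, y i) + 100 * (TP * D) := by ring
  have e6 : TP * (m₀ + ∑ i, y i) = TP * m₀ + TP * ∑ i, y i := by ring
  have e7 : TP * m₀ + 20 * TP ≤ TP * D := by
    have h7 := Nat.mul_le_mul_left TP (show m₀ + 20 ≤ D by omega)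
    have h8 : TP * (m₀ + 20) = TP * m₀ + 20 * TP := by ring
    omega
  rw [e1, e3, e6] at h5
  rw [e6] at h4
  rw [e2, e4]
  have e5 : 6 * c ^ 2 ≤ 6 * (c + 1) ^ 2 :=
    Nat.mul_le_mul_left _ (Nat.pow_le_pow_left (Nat.le_succ c) 2)
  omega

end Pool.Agent.Work.MP_0421d9_ag.LD
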