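import Pool.Agent.Work.MP_0421d9_ag.ZPsum

/-!
One arbitrary multiplicity: inequalities for the leaves of the path.
-/

namespace Pool.Agent.Work.MP_0421d9_ag.LD

theorem leaf_numQ1 {TP J G c D m₀ t S₀ Y : ℕ} (hTP : 1 ≤ TP) (hG : 1 ≤ G) (hJ : 1 ≤ J)
    (hc : 1 ≤ c) (hDt : D = m₀ + t) (hD1 : 10 ^ 6 * J * G * c ≤ t) (hY : Y ≤ J * (8 * D))
    (h1 : D * t ≤ 27 * (c * S₀)) (h2 : 10 ^ 6 * G * c ^ 3 ≤ TP * (D * t)) :
    G * (TP * (100 * Y + 100 * D)) + 50 * (G * (c + 1) ^ 2) + TP * Y < TP * S₀ := by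
  have g1 : 10 ^ 6 * (J * G * D) ≤ 27 * S₀ := by
    have h3 : c * (10 ^ 6 * (J * G * D)) ≤ c * (27 * S₀) := by
      calc c * (10 ^ 6 * (J * G * D)) = D * (10 ^ 6 * J * G * c) := by ring
        _ ≤ D * t := Nat.mul_le_mul_left _ hD1
        _ ≤ 27 * (c * S₀) := h1
        _ = c * (27 * S₀) := by ring
    exact Nat.le_of_mul_le_mul_left h3 hc
  have g2 : 10 ^ 6 * (G * c ^ 2) ≤ 27 * (TP * S₀) := by
    have h3 : c * (10 ^ 6 * (G * c ^ 2)) ≤ c * (27 * (TP * S₀)) := by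
      calc c * (10 ^ 6 * (G * c ^ 2)) = 10 ^ 6 * G * c ^ 3 := by ring
        _ ≤ TP * (D * t) := h2
        _ ≤ TP * (27 * (c * S₀)) := Nat.mul_le_mul_left _ h1
        _ = c * (27 * (TP * S₀)) := by ring
    exact Nat.le_of_mul_le_mul_left h3 hc
  have g3 : 10 ^ 6 * (TP * (J * G * D)) ≤ 27 * (TP * S₀) := by
    calc 10 ^ 6 * (TP * (J * G * D)) = TP * (10 ^ 6 * (J * G * D)) := by ring
      _ ≤ TP * (27 * S₀) := Nat.mul_le_mul_left _ g1
      _ = 27 * (TP * S₀) := by ring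
  have hD0 : 1 ≤ D := by
    have : 1 ≤ 10 ^ 6 * J * G * c := by
      have h3 : 1 ≤ J * G * c := Nat.mul_pos (Nat.mul_pos hJ hG) hc
      nlinarith
    omega
  have hJD : D ≤ J * D := Nat.le_mul_of_pos_left _ hJ
  have k1 : G * (TP * (100 * Y + 100 * D)) ≤ 900 * (TP * (J * G * D)) := by
    have h3 : 100 * Y + 100 * D ≤ 900 * (J * D) := by
      have h5 : J * (8 * D) = 8 * (J * D) := by ring
      omega
    calc G * (TP * (100 * Y + 100 * D)) ≤ G * (TP * (900 * (J * D))) :=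
          Nat.mul_le_mul_left _ (Nat.mul_le_mul_left _ h3)
      _ = 900 * (TP * (J * G * D)) := by ring
  have k2 : TP * Y ≤ 8 * (TP * (J * G * D)) := by
    have h3 : Y ≤ 8 * (J * G * D) := by
      have h4 : J * D ≤ J * G * D := Nat.mul_le_mul_right _ (Nat.le_mul_of_pos_right _ hG)
      have h5 : J * (8 * D) = 8 * (J * D) := by ring
      omega
    calc TP * Y ≤ TP * (8 * (J * G * D)) := Nat.mul_le_mul_left _ h3
      _ = 8 * (TP * (J * G * D)) := by ring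
  have k3 : 50 * (G * (c + 1) ^ 2) ≤ 200 * (G * c ^ 2) := by
    have h3 : (c + 1) ^ 2 ≤ 4 * c ^ 2 := by nlinarith
    calc 50 * (G * (c + 1) ^ 2) ≤ 50 * (G * (4 * c ^ 2)) :=
          Nat.mul_le_mul_left _ (Nat.mul_le_mul_left _ h3)
      _ = 200 * (G * c ^ 2) := by ring
  have k4 : 1 ≤ TP * (J * G * D) := Nat.mul_pos hTP (Nat.mul_pos (Nat.mul_pos hJ hG) hD0)
  omega

theorem leaf_numQ3 {TP J G X c D m₀ t t' S₀ Y Q v : ℕ} (hTP : 1 ≤ TP) (hG : 1 ≤ G)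
    (hJ : 1 ≤ J) (hc : 1 ≤ c) (hX : 10 ^ 4 * G ≤ X) (hDt : D = m₀ + t)
    (hD1 : 10 ^ 6 * J * G * c ≤ t) (hDX : X * t' < t) (hv : 1 ≤ v) (hvc : v ≤ c)
    (hY : v * Y ≤ 2 * v * (J * (8 * D)) + Q)
    (hQ : TP * (m₀ ^ 2 + Q) ≤ TP * (m₀ + t') ^ 2 + 6 * c ^ 2)
    (hS : D * t + 12 * (v * Y) ≤ 12 * (v * S₀)) (hV : 10 ^ 6 * G * c ^ 3 ≤ TP * (D * t)) :
    G * (TP * (100 * Y + 100 * D)) + 50 * (G * (c + 1) ^ 2) + TP * Y < TP * S₀ := by
  have ht0 : 1 ≤ t := by omega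
  have hD0 : 1 ≤ D := by omega
  have hvD : 10 ^ 6 * (v * (J * G * D)) ≤ D * t := by
    calc 10 ^ 6 * (v * (J * G * D)) ≤ 10 ^ 6 * (c * (J * G * D)) :=
          Nat.mul_le_mul_left _ (Nat.mul_le_mul_right _ hvc)
      _ = D * (10 ^ 6 * J * G * c) := by ring
      _ ≤ D * t := Nat.mul_le_mul_left _ hD1
  have hQ2 : TP * Q ≤ TP * (2 * (D * t')) + 6 * c ^ 2 := by
    have ht' : t' ≤ t := by
      have : t' ≤ X * t' := Nat.le_mul_of_pos_left _ (by omega)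
      omega
    have h1 : (m₀ + t') ^ 2 ≤ m₀ ^ 2 + 2 * (D * t') := by
      rw [hDt]
      nlinarith
    have h2 : TP * (m₀ + t') ^ 2 ≤ TP * (m₀ ^ 2 + 2 * (D * t')) := Nat.mul_le_mul_left _ h1
    have e1 : TP * (m₀ ^ 2 + 2 * (D * t')) = TP * m₀ ^ 2 + TP * (2 * (D * t')) := by ring
    have e2 : TP * (m₀ ^ 2 + Q) = TP * m₀ ^ 2 + TP * Q := by ring
    rw [e1] at h2
    rw [e2] at hQ
    omega
  have hG2 : 10 ^ 4 * (G * (D * t')) ≤ D * t := by
    calc 10 ^ 4 * (G * (D * t')) = D * (10 ^ 4 * G * t') := by ring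
      _ ≤ D * (X * t') := Nat.mul_le_mul_left _ (Nat.mul_le_mul_right _ hX)
      _ ≤ D * t := Nat.mul_le_mul_left _ hDX.le
  -- everything multiplied by `12 v`
  have main : 12 * v * (G * (TP * (100 * Y + 100 * D)) + 50 * (G * (c + 1) ^ 2) + TP * Y) <
      12 * v * (TP * S₀) := by
    have k1 : 1200 * (G * TP * (v * Y)) ≤
        19200 * (TP * (v * (J * G * D))) + 2400 * (TP * (G * (D * t'))) +
          7200 * (G * c ^ 2) := by
      have h1 : TP * (v * Y) ≤ TP * (2 * v * (J * (8 * D))) +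
          (TP * (2 * (D * t')) + 6 * c ^ 2) := by
        calc TP * (v * Y) ≤ TP * (2 * v * (J * (8 * D)) + Q) := Nat.mul_le_mul_left _ hY
          _ = TP * (2 * v * (J * (8 * D))) + TP * Q := by ring
          _ ≤ _ := Nat.add_le_add_left hQ2 _
      calc 1200 * (G * TP * (v * Y)) = 1200 * G * (TP * (v * Y)) := by ring
        _ ≤ 1200 * G * (TP * (2 * v * (J * (8 * D))) + (TP * (2 * (D * t')) + 6 * c ^ 2)) :=
            Nat.mul_le_mul_left _ h1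
        _ = _ := by ring
    have k2 : 12 * v * (G * (TP * (100 * D))) ≤ 1200 * (TP * (v * (J * G * D))) := by
      have h3 : 100 * D ≤ 100 * (J * D) :=
        Nat.mul_le_mul_left _ (Nat.le_mul_of_pos_left _ hJ)
      calc 12 * v * (G * (TP * (100 * D))) ≤ 12 * v * (G * (TP * (100 * (J * D)))) :=
            Nat.mul_le_mul_left _ (Nat.mul_le_mul_left _ (Nat.mul_le_mul_left _ h3))
        _ = 1200 * (TP * (v * (J * G * D))) := by ring
    have k3 : 10 ^ 6 * (TP * (v * (J * G * D))) ≤ TP * (D * t) := by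
      calc 10 ^ 6 * (TP * (v * (J * G * D))) = TP * (10 ^ 6 * (v * (J * G * D))) := by ring
        _ ≤ TP * (D * t) := Nat.mul_le_mul_left _ hvD
    have k4 : 10 ^ 4 * (TP * (G * (D * t'))) ≤ TP * (D * t) := by
      calc 10 ^ 4 * (TP * (G * (D * t'))) = TP * (10 ^ 4 * (G * (D * t'))) := by ring
        _ ≤ TP * (D * t) := Nat.mul_le_mul_left _ hG2
    have k5 : TP * (D * t) + 12 * (v * (TP * Y)) ≤ 12 * (v * (TP * S₀)) := by
      calc TP * (D * t) + 12 * (v * (TP * Y)) = TP * (D * t + 12 * (v * Y)) := by ring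
        _ ≤ TP * (12 * (v * S₀)) := Nat.mul_le_mul_left _ hS
        _ = 12 * (v * (TP * S₀)) := by ring
    have k6 : 1 ≤ TP * (D * t) := Nat.mul_pos hTP (Nat.mul_pos hD0 ht0)
    have k7 : 7200 * (G * c ^ 2) + 600 * (v * (G * (c + 1) ^ 2)) ≤ TP * (D * t) / 2 := by
      have h1 : v * (G * (c + 1) ^ 2) ≤ 4 * (G * c ^ 3) := by
        have h3 : (c + 1) ^ 2 ≤ 4 * c ^ 2 := by nlinarith
        calc v * (G * (c + 1) ^ 2) ≤ c * (G * (4 * c ^ 2)) :=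
              Nat.mul_le_mul hvc (Nat.mul_le_mul_left _ h3)
          _ = 4 * (G * c ^ 3) := by ring
      have h2 : G * c ^ 2 ≤ G * c ^ 3 := Nat.mul_le_mul_left _
        (Nat.pow_le_pow_right hc (by norm_num))
      have h3 : 10 ^ 6 * (G * c ^ 3) ≤ TP * (D * t) := by
        calc 10 ^ 6 * (G * c ^ 3) = 10 ^ 6 * G * c ^ 3 := by ring
          _ ≤ _ := hV
      omega
    have e1 : 12 * v * (G * (TP * (100 * Y + 100 * D)) + 50 * (G * (c + 1) ^ 2) + TP * Y) =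
        1200 * (G * TP * (v * Y)) + 12 * v * (G * (TP * (100 * D))) +
          600 * (v * (G * (c + 1) ^ 2)) + 12 * (v * (TP * Y)) := by ring
    have e2 : 12 * v * (TP * S₀) = 12 * (v * (TP * S₀)) := by ring
    rw [e1, e2]
    omega
  exact Nat.lt_of_mul_lt_mul_left main

/-- the area of the rows which were removed -/
theorem leaf_area {X D m₀ t t' S₀ Y v cm cy : ℕ} (hDt : D = m₀ + t) (hX : 10000 ≤ X)
    (hDX : X * t' < t) (ht : 400000 ≤ t) (hv : 1 ≤ v) (hYS : Y ≤ S₀)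
    (h4 : (D + 2).choose 2 + 2 * cy ≤ 2 * cm + (m₀ + t' + 2).choose 2)
    (hup : 2 * cm + (2 * v + 1) * Y ≤ 2 * cy + (2 * v + 1) * S₀) :
    D * t + 12 * (v * Y) ≤ 12 * (v * S₀) := by
  have h6 := two_choose (D + 1)
  have h7 := two_choose (m₀ + t' + 1)
  have e1 : D + 1 + 1 = D + 2 := rfl
  have e2 : m₀ + t' + 1 + 1 = m₀ + t' + 2 := rfl
  rw [e1] at h6
  rw [e2] at h7
  have h8 : 10000 * t' ≤ t := by
    have : 10000 * t' ≤ X * t' := Nat.mul_le_mul_right _ hX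
    omega
  have h9 : (m₀ + t' + 1) ^ 2 + (m₀ + t' + 1) + D * t ≤
      (D + 1) ^ 2 + (D + 1) + (m₀ + t' + 1) * t' := by
    rw [hDt]
    obtain ⟨w, hw⟩ : ∃ w, t = t' + w := ⟨t - t', by omega⟩
    rw [hw]
    nlinarith [Nat.zero_le (m₀ * w), Nat.zero_le (t' * w), Nat.zero_le w]
  have h10 : 2 * ((m₀ + t' + 1) * t') ≤ D * t := by
    have h11 : m₀ + t' + 1 ≤ D := by omega
    calc 2 * ((m₀ + t' + 1) * t') ≤ 2 * (D * t') :=
          Nat.mul_le_mul_left _ (Nat.mul_le_mul_right _ h11)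
      _ = D * (2 * t') := by ring
      _ ≤ D * t := Nat.mul_le_mul_left _ (by omega)
  have h11 : D * t + 4 * ((2 * v + 1) * Y) ≤ 4 * ((2 * v + 1) * S₀) := by omega
  have h12 : D * t ≤ 4 * ((2 * v + 1) * (S₀ - Y)) := by
    rw [Nat.mul_sub, Nat.mul_sub]
    omega
  have h13 : 4 * ((2 * v + 1) * (S₀ - Y)) ≤ 12 * (v * (S₀ - Y)) := by
    have h14 : 2 * v + 1 ≤ 3 * v := by omega
    calc 4 * ((2 * v + 1) * (S₀ - Y)) ≤ 4 * (3 * v * (S₀ - Y)) :=
          Nat.mul_le_mul_left _ (Nat.mul_le_mul_right _ h14)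
      _ = 12 * (v * (S₀ - Y)) := by ring
  have h14 := h12.trans h13
  have h15 : v * Y ≤ v * S₀ := Nat.mul_le_mul_left _ hYS
  rw [Nat.mul_sub, Nat.mul_sub] at h14
  omega

end Pool.Agent.Work.MP_0421d9_ag.LD
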