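import Pool.Agent.Work.MP_0421d9_ag.ZPPath
import Pool.Agent.Work.MP_0421d9_ag.ZQDefs
import Pool.Agent.Work.MP_0421d9_ag.ZQNum2
import Pool.Agent.Work.MP_0421d9_ag.ZQLeaf

/-!
One arbitrary multiplicity: the path in the plane.
-/

namespace Pool.Agent.Work.MP_0421d9_ag.LD

open MvPolynomial Module

/-- a strip of the plane which does not use the point of multiplicity `m₀` -/
def StripQ {r : ℕ} (m₀ D G : ℕ) (Q : Finset (Fin r)) (y : Fin r → ℕ) (u : ℕ) : Prop :=
  ∃ (κ A : ℕ) (y' : Fin r → ℕ) (Su : ℕ), (1 ≤ κ ∧ κ + 1 ≤ D ∧ A ≤ D - κ + 1 ∧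
    (∀ i, y' i = y i ∨ y' i = 0) ∧
    A + κ * (D + 1) + ∑ i, (y' i + 1).choose 2 = ∑ i, (y i + 1).choose 2 + κ.choose 2 ∧
    hPm D (Fin.cons m₀ y : Fin (r + 1) → ℕ) ≤
      max (hPm (D - κ) (Fin.cons m₀ y' : Fin (r + 1) → ℕ) - A)
        (hPm (D - κ - 1) (Fin.cons m₀ y' : Fin (r + 1) → ℕ))) ∧ (∀ i, i ∉ Q → y' i = y i) ∧
    Su + ∑ i, y' i = ∑ i, y i ∧ κ ≤ 2 * u ∧ 1 ≤ Su ∧ Su ≤ G * A ∧ Su ≤ G * (D - κ + 1 - A)

theorem path_mainQ {TP ρ J G X c D m₀ t r p U : ℕ} {P : ℕ → ℕ}
    (hP : Pools P p U c J)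
    (hWQ : WinQ TP ρ) (hTP : 1 ≤ TP) (hρ : 1 ≤ ρ) (hG : 1 ≤ G) (hX : 10 ^ 4 * G ≤ X)
    {m : Fin r → ℕ} (hc : 1 ≤ c) (hm : ∀ i, m i ≤ c) (hDt : D = m₀ + t)
    (hD1 : 10 ^ 6 * J * G * c ≤ t) (hD2 : 2 * X * (12 * ρ * (c + 1) + 20) ≤ t)
    (hstrip : ∀ (t' s u : ℕ) (y : Fin r → ℕ), t ≤ X * t' → t' ≤ t → 1 ≤ u → u ≤ c →
      (∀ i, y i ≤ c) → s < J → P u = s → (∀ i, P (y i) = s → y i ≤ u) →
      8 * (m₀ + t') ≤ ∑ i ∈ Finset.univ.filter (fun i => P (y i) = s), y i →
      StripQ m₀ (m₀ + t') G (Finset.univ.filter (fun i => P (y i) = s)) y u)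
    (hS : D * t ≤ 27 * (c * ∑ i, m i)) (hTPD : 10 ^ 6 * G * c ^ 3 ≤ TP * (D * t)) :
    hPm D (Fin.cons m₀ m : Fin (r + 1) → ℕ) =
      (D + 2).choose 2 - ((m₀ + 1).choose 2 + ∑ i, (m i + 1).choose 2) := by
  classical
  obtain ⟨cn, hcn⟩ : ∃ cn : (Fin r → ℕ) → ℕ, ∀ y, cn y = ∑ i, (y i + 1).choose 2 :=
    ⟨_, fun _ => rfl⟩
  obtain ⟨S₀, hS₀⟩ : ∃ S₀, S₀ = ∑ i, m i := ⟨_, rfl⟩
  have hJ1 : 1 ≤ J := (Nat.zero_le _).trans_lt (hP.count 0 (Nat.zero_le _))
  rw [← hS₀] at hS
  have hX0 : 10000 ≤ X := by omega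
  have htbig : 400000 ≤ t := by
    have h1 : 2 * 10000 * 20 ≤ 2 * X * (12 * ρ * (c + 1) + 20) :=
      Nat.mul_le_mul (by omega) (Nat.le_add_left _ _)
    omega
  obtain ⟨Z₀, hZ₀⟩ : ∃ Z₀, Z₀ = (m₀ + 1).choose 2 := ⟨_, rfl⟩
  obtain ⟨hh, hhh⟩ : ∃ hh : ℕ → (Fin r → ℕ) → ℕ,
      ∀ D y, hh D y = hPm D (Fin.cons m₀ y : Fin (r + 1) → ℕ) := ⟨_, fun _ _ => rfl⟩
  -- the leaves
  have hleaf : ∀ (t' : ℕ) (y : Fin r → ℕ), t ≤ 2 * X * t' → t' ≤ t →
      (∀ i, y i = m i ∨ y i = 0) →
      (TP * (m₀ ^ 2 + ∑ i, y i ^ 2) ≤ TP * (m₀ + t') ^ 2 + 6 * c ^ 2 →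
        G * (TP * (100 * (∑ i, y i) + 100 * D)) + 50 * (G * (c + 1) ^ 2) + TP * (∑ i, y i) <
          TP * S₀) →
      ∀ U S : ℕ, S₀ ≤ G * (U + S) + ∑ i, y i →
      (hh (m₀ + t') y : ℤ) ≤ max (U : ℤ)
        ((((m₀ + t' + 2).choose 2 : ℕ) : ℤ) - (Z₀ : ℤ) - (cn y : ℤ) + S) := by
    intro t' y h1 h2 h3 h4 U S h5
    by_contra hcon
    push Not at hcon
    rw [max_lt_iff] at hcon
    have hyc : ∀ i, y i ≤ c := by
      intro i
      rcases h3 i with h5 | h5
      · rw [h5]; exact hm i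
      · rw [h5]; exact Nat.zero_le _
    have hD' : 12 * ρ * (c + 1) + 20 ≤ t' := by
      by_contra h6
      have h7 : 2 * X * t' < 2 * X * (12 * ρ * (c + 1) + 20) :=
        Nat.mul_lt_mul_of_pos_left (by omega) (by omega)
      omega
    obtain ⟨hc1, hc2⟩ := hcon
    rw [hhh] at hc1 hc2
    obtain ⟨l1, l2, l3⟩ := plane_leafQ hWQ hTP hc hyc (Nat.add_le_add_left hD' m₀) (by omega)
      (by rw [← hcn, ← hZ₀]; omega)
    have h6 := h4 l2
    rw [← hcn, ← hZ₀] at l1
    obtain ⟨Y, hY⟩ : ∃ Y, Y = ∑ i, y i := ⟨_, rfl⟩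
    rw [← hY] at l1 h5 h6
    obtain ⟨B, hB⟩ : ∃ B, B = (m₀ + t' + 2).choose 2 := ⟨_, rfl⟩
    rw [← hB] at l1 hc2
    have g1 : U + S + B ≤ 2 * hPm (m₀ + t') (Fin.cons m₀ y : Fin (r + 1) → ℕ) + Z₀ + cn y := by
      omega
    have g2 : TP * (U + S + B) ≤
        TP * (B + 100 * Y + 100 * (m₀ + t')) + 50 * (c + 1) ^ 2 :=
      (Nat.mul_le_mul_left _ g1).trans l1
    have g3 : TP * (U + S) ≤ TP * (100 * Y + 100 * D) + 50 * (c + 1) ^ 2 := by
      have e1 : TP * (U + S + B) = TP * (U + S) + TP * B := by ring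
      have e2 : TP * (B + 100 * Y + 100 * (m₀ + t')) =
        TP * (100 * Y + 100 * (m₀ + t')) + TP * B := by ring
      have e3 : TP * (100 * Y + 100 * (m₀ + t')) ≤ TP * (100 * Y + 100 * D) :=
        Nat.mul_le_mul_left _ (by omega)
      rw [e1, e2] at g2
      omega
    have g4 : G * (TP * (U + S)) ≤ G * (TP * (100 * Y + 100 * D)) + 50 * (G * (c + 1) ^ 2) := by
      calc G * (TP * (U + S)) ≤ G * (TP * (100 * Y + 100 * D) + 50 * (c + 1) ^ 2) :=
            Nat.mul_le_mul_left _ g3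
        _ = _ := by ring
    have g5 : TP * S₀ ≤ TP * (G * (U + S) + Y) := Nat.mul_le_mul_left _ h5
    have e2 : TP * (G * (U + S) + Y) = G * (TP * (U + S)) + TP * Y := by ring
    rw [e2] at g5
    omega
  -- the main claim
  have key : ∀ (n t' : ℕ) (y : Fin r → ℕ), t' ≤ n → t ≤ 2 * X * t' → t' ≤ t →
      (∀ i, y i = m i ∨ y i = 0) →
      (D + 2).choose 2 + 2 * cn y ≤ 2 * cn m + (m₀ + t' + 2).choose 2 →
      (∀ i, y i ≠ m i → ∀ s, s < J → 8 * D ≤ psum P y s → P (m i) ≤ s) →
      ∀ U S : ℕ, S₀ ≤ G * (U + S) + ∑ i, y i →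
      (hh (m₀ + t') y : ℤ) ≤ max (U : ℤ)
        ((((m₀ + t' + 2).choose 2 : ℕ) : ℤ) - (Z₀ : ℤ) - (cn y : ℤ) + S) := by
    intro n
    induction n with
    | zero =>
      intro t' y h0 h1
      have : t' = 0 := by omega
      rw [this, Nat.mul_zero] at h1
      omega
    | succ n ih =>
      intro t' y hn h1 h2 h3 h4 h5 U S hUS'
      have hyc : ∀ i, y i ≤ c := by
        intro i
        rcases h3 i with h5 | h5
        · rw [h5]; exact hm i
        · rw [h5]; exact Nat.zero_le _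
      have hYS : ∑ i, y i ≤ S₀ := by
        rw [hS₀]
        refine Finset.sum_le_sum fun i _ => ?_
        rcases h3 i with h5 | h5
        · rw [h5]
        · rw [h5]; exact Nat.zero_le _
      by_cases hav : ∃ s, s < J ∧ 8 * D ≤ psum P y s
      · -- the smallest available pool
        obtain ⟨s, ⟨hsJ, hs⟩, hsmin⟩ : ∃ s, (s < J ∧ 8 * D ≤ psum P y s) ∧
            ∀ s', s' < s → psum P y s' < 8 * D :=
          ⟨Nat.find hav, Nat.find_spec hav, fun s' hs' => by
            have h6 := Nat.find_min hav hs'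
            have h7 := (Nat.find_spec hav).1
            by_contra h8
            exact h6 ⟨by omega, by omega⟩⟩
        obtain ⟨v, u, hv1, hvu, huv, hPv, hPu, ⟨iu, hiu⟩, ⟨iv, hiv⟩, hall, hsum⟩ :=
          least_pool hP (y := y) (B := 8 * D) (by omega) hs (fun s' hs' => (hsmin s' hs').le)
        have huc : u ≤ c := hiu ▸ hyc iu
        have hvc : v ≤ c := hvu.trans huc
        by_cases hlf : X * t' < t
        · -- a leaf
          refine hleaf t' y h1 h2 h3 (fun hQ => ?_) U S hUS'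
          have hlp := large_part y v
          have hup := used_part (v := v) h3 (fun i hi => by
            have h6 := h5 i hi s hsJ hs
            rcases Nat.lt_or_ge v (m i) with h7 | h7
            · have h8 : s ≤ P (m i) := hPv ▸ hP.mono h7.le
              have h9 := hP.width v (m i) (by rw [hPv]; omega) h7.le
              have h10 : v / p ≤ v := Nat.div_le_self _ _
              omega
            · omega)
          rw [← hcn, ← hcn, ← hS₀] at hup
          have hQ2 := two_sum_choose y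
          obtain ⟨Y, hY⟩ : ∃ Y, Y = ∑ i, y i := ⟨_, rfl⟩
          obtain ⟨Q, hQ'⟩ : ∃ Q, Q = ∑ i, y i ^ 2 := ⟨_, rfl⟩
          obtain ⟨W, hW'⟩ : ∃ W, W = ∑ i, (if v ≤ y i then y i else 0) := ⟨_, rfl⟩
          rw [← hY, ← hW'] at hsum
          rw [← hW', hQ2, ← hY, ← hQ'] at hlp
          rw [← hY] at hup hYS ⊢
          rw [← hQ'] at hQ
          refine leaf_numQ3 hTP hG hJ1 hc hX hDt hD1 hlf hv1 hvc (Q := Q) ?_ hQ ?_ hTPD
          · have h6 : (v + 1) * Y ≤ (v + 1) * (s * (8 * D)) + (v + 1) * W := by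
              rw [← Nat.mul_add]
              exact Nat.mul_le_mul_left _ hsum
            have h7 : (v + 1) * (s * (8 * D)) ≤ 2 * v * (J * (8 * D)) :=
              Nat.mul_le_mul (by omega) (Nat.mul_le_mul_right _ hsJ.le)
            have h8 : (v + 1) * Y = v * Y + Y := by ring
            omega
          · -- `D t ≤ 12 v (S₀ - Y)`
            exact leaf_area hDt hX0 hlf htbig hv1 hYS h4 hup
        · -- a strip
          push Not at hlf
          have hQs : 8 * (m₀ + t') ≤ ∑ i ∈ Finset.univ.filter (fun i => P (y i) = s), y i := by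
            rw [← psum_eq_filter]
            omega
          obtain ⟨κ, A, y', Su, ⟨hκ1, hκ2, hAD, hyy, hcnt, hRR⟩, hout, hSu, hκu, hSu1, e1, e2⟩ :=
            hstrip t' s u y hlf h2 (by omega) huc hyc hsJ hPu (fun i hi => (hall i hi).2) hQs
          have h3' : ∀ i, y' i = m i ∨ y' i = 0 := by
            intro i
            rcases hyy i with h6 | h6
            · rw [h6]; exact h3 i
            · exact Or.inr h6
          have h5' : ∀ i, y' i ≠ m i → ∀ s', s' < J → 8 * D ≤ psum P y' s' → P (m i) ≤ s' := by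
            intro i hi s' hsJ' hs'
            have h6 := hs'.trans (psum_mono P hyy s')
            by_cases h7 : y i = m i
            · have h8 : i ∈ Finset.univ.filter (fun i => P (y i) = s) := by
                by_contra h9
                exact hi ((hout i h9).trans h7)
              have h9 := (Finset.mem_filter.1 h8).2
              rw [← h7, h9]
              by_contra h10
              have := hsmin s' (by omega)
              omega
            · exact h5 i h7 s' hsJ' h6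
          rw [← hcn, ← hcn] at hcnt
          rw [← hhh, ← hhh, ← hhh] at hRR
          have hlow0 : 2 * c + 1 + (2 * c + 1) ≤ t' := by
            by_contra h6
            have h7 : X * t' ≤ X * (2 * (2 * c + 1)) := Nat.mul_le_mul_left _ (by omega)
            have h8 : 2 * X * (12 * ρ * (c + 1) + 20) = 2 * (X * (12 * ρ * (c + 1) + 20)) := by
              ring
            have h9 : X * (2 * (2 * c + 1)) ≤ X * (12 * ρ * (c + 1) + 20) := by
              refine Nat.mul_le_mul_left _ ?_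
              have h10 : c + 1 ≤ ρ * (c + 1) := Nat.le_mul_of_pos_left _ hρ
              have h11 : 12 * ρ * (c + 1) = 12 * (ρ * (c + 1)) := by ring
              omega
            omega
          obtain ⟨e, he⟩ : ∃ e, t' = e + κ + 1 := ⟨t' - κ - 1, by omega⟩
          have f1 : m₀ + t' - κ = m₀ + (e + 1) := by omega
          have f2 : m₀ + t' - κ + 1 - A = m₀ + e + 2 - A := by omega
          have f3 : m₀ + (e + 1) - 1 = m₀ + e := by omega
          rw [f1] at hAD
          rw [f2] at e2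
          rw [f1, f3] at hRR
          have r1 := rows_choose (m₀ + e) κ
          have r2 := row_choose (m₀ + e)
          have e0 : m₀ + t' = m₀ + e + κ + 1 := by omega
          have e01 : m₀ + (e + 1) = m₀ + e + 1 := by omega
          rw [e0] at hcnt
          have hlow : t ≤ 2 * X * e := by
            have h6 : X * t' ≤ X * e + X * (2 * c + 1) := by
              rw [← Nat.mul_add]
              exact Nat.mul_le_mul_left _ (by omega)
            have h7 : 2 * X * (2 * c + 1) ≤ t := by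
              refine le_trans (Nat.mul_le_mul_left _ ?_) hD2
              have h8 : c + 1 ≤ ρ * (c + 1) := Nat.le_mul_of_pos_left _ hρ
              have h9 : 12 * ρ * (c + 1) = 12 * (ρ * (c + 1)) := by ring
              omega
            have h8 : 2 * X * (2 * c + 1) = 2 * (X * (2 * c + 1)) := by ring
            have h9 : 2 * X * e = 2 * (X * e) := by ring
            omega
          have hlow1 : t ≤ 2 * X * (e + 1) :=
            hlow.trans (Nat.mul_le_mul_left _ (Nat.le_succ e))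
          obtain ⟨Y, hY⟩ : ∃ Y, Y = ∑ i, y i := ⟨_, rfl⟩
          obtain ⟨Y', hY'⟩ : ∃ Y', Y' = ∑ i, y' i := ⟨_, rfl⟩
          rw [← hY, ← hY'] at hSu
          rw [← hY] at hUS'
          have hr3 : (m₀ + e + 2).choose 2 + 2 * (m₀ + e + 2) ≤
              (m₀ + e + κ + 1 + 2).choose 2 := by
            have h6 := row_choose (m₀ + e + 1)
            have h7 : (m₀ + e + 1 + 1 + 2).choose 2 ≤ (m₀ + e + κ + 1 + 2).choose 2 :=
              Nat.choose_le_choose 2 (by omega)
            have h8 : m₀ + e + 1 + 2 = m₀ + e + 3 := rfl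
            omega
          rw [e0] at h4
          have i1 := ih (e + 1) y' (by omega) hlow1 (by omega) h3' (by rw [e01]; omega) h5'
            (U + A) S (by
              rw [← hY']
              have h6 : G * (U + A + S) = G * (U + S) + G * A := by ring
              omega)
          have i2 := ih e y' (by omega) hlow (by omega) h3' (by omega) h5' U
            (S + (m₀ + e + 2 - A)) (by
              rw [← hY']
              have h6 : G * (U + (S + (m₀ + e + 2 - A))) =
                G * (U + S) + G * (m₀ + e + 2 - A) := by ring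
              omega)
          rw [e01] at i1 hRR
          rw [e0] at hRR ⊢
          generalize hh (m₀ + e + 1) y' = A1 at *
          generalize hh (m₀ + e) y' = A2 at *
          generalize hh (m₀ + e + κ + 1) y = A0 at *
          clear ih hleaf hall h5 h5' h3 h3' hyy hout hstrip hyc
          push_cast at i1 i2 ⊢
          omega
      · -- no pool is available
        push Not at hav
        refine hleaf t' y h1 h2 h3 (fun hQ => ?_) U S hUS'
        have h6 := low_pools P y (s₀ := J) (B := 8 * D) (fun s hs => (hav s hs).le)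
        have h7 : (∑ i, if P (y i) < J then y i else 0) = ∑ i, y i := by
          refine Finset.sum_congr rfl fun i _ => ?_
          rw [if_pos (hP.count _ (hyc i))]
        rw [h7] at h6
        exact leaf_numQ1 hTP hG hJ1 hc hDt hD1 h6 hS hTPD
  have h0 := key t t m le_rfl (Nat.le_mul_of_pos_left _ (by omega)) le_rfl
    (fun i => Or.inl rfl) (by rw [hDt]; omega) (fun i hi => absurd rfl hi) 0 0 (by omega)
  rw [← hDt, hhh] at h0
  have hcount := hPm_count D (Fin.cons m₀ m : Fin (r + 1) → ℕ)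
  rw [Fin.sum_univ_succ] at hcount
  simp only [Fin.cons_zero, Fin.cons_succ] at hcount
  rw [← hcn, ← hZ₀] at hcount ⊢
  have e1 : (((0 : ℕ) : ℤ)) = 0 := rfl
  rw [e1] at h0
  omega

end Pool.Agent.Work.MP_0421d9_ag.LD
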