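import Pool.Agent.Work.MP_0421d9_ag.ZPsum

/-!
Arbitrary multiplicities in degree at least `C M ^ (1 + ε)`: the path for rectangles.
-/

namespace Pool.Agent.Work.MP_0421d9_ag.LD

open MvPolynomial Module

theorem hRm_mono {N H H' : ℕ} (h : H ≤ H') (L : ℕ) (k : Fin N → ℕ) :
    hRm H L k ≤ hRm H' L k := by
  induction h with
  | refl => exact le_rfl
  | step _ ih => exact ih.trans (hRm_le_succ _ _ _)

/-! ### the leaves -/

theorem ER_leaf {T q a c H' H L S₀ : ℕ} (hW : WinR T q a) (hT : 1 ≤ T) (hc : 1 ≤ c)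
    {N : ℕ} {y : Fin N → ℕ} (hyc : ∀ i, y i ≤ c) (hH' : 6 * q * (c + 1) + 1 ≤ H') (hHH : H' ≤ H)
    (hL : 6 * a * (c + 1) + 1 ≤ L) (hL100 : 100 ≤ L) (hcT : c ^ 2 ≤ T * (L - 1))
    (hne : hRm H' L y ≠ 0)
    (h1 : 3000 * ∑ i, y i ≤ S₀) (h2 : 10 ^ 4 * H ≤ S₀) (h3 : 10 ^ 4 * L ≤ S₀) :
    (32 * hRm H' L y : ℤ) ≤
      32 * ((H' * L : ℕ) - (∑ i, (y i + 1).choose 2 : ℕ)) + 7 * S₀ + (∑ i, y i : ℕ) := by
  set Y := ∑ i, y i with hY
  obtain ⟨ℓ, hℓ⟩ : ∃ ℓ, L = ℓ + 1 := ⟨L - 1, by omega⟩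
  have hℓ1 : L - 1 = ℓ := by omega
  obtain ⟨η, hη⟩ : ∃ η, H' = η + 1 := ⟨H' - 1, by omega⟩
  have hη1 : H' - 1 = η := by omega
  have ha := (hW N c H' L y hc hyc hH' hL).1
  have ha' : ¬ (T * (2 * (η * ℓ)) + 6 * c ^ 2 ≤ T * ∑ i, y i ^ 2) := by
    intro h
    exact hne (ha (by rw [hη1, hℓ1]; exact h))
  set Q := ∑ i, y i ^ 2 with hQ
  obtain ⟨x, hx⟩ : ∃ x, x = (23 * (Y + H' + L) + 30 * ℓ) / ℓ + 1 := ⟨_, rfl⟩
  have hx1 : 23 * (Y + H' + L) + 30 * ℓ ≤ x * ℓ := by
    have h4 := Nat.div_add_mod (23 * (Y + H' + L) + 30 * ℓ) ℓ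
    have h5 := Nat.mod_lt (23 * (Y + H' + L) + 30 * ℓ) (show 0 < ℓ by omega)
    rw [hx]
    nlinarith
  have hx2 : x * ℓ ≤ 23 * (Y + H' + L) + 31 * ℓ := by
    have h4 := Nat.div_mul_le_self (23 * (Y + H' + L) + 30 * ℓ) ℓ
    rw [hx]
    nlinarith
  clear hx
  have hb := (hW N c (H' + x) L y hc hyc (by omega) hL).2
  have hxη : H' + x - 1 = η + x := by omega
  have hb' : T * (Q + 23 * (Y + (H' + x) + L)) + 6 * (c + 1) ^ 2 ≤ T * (2 * ((η + x) * ℓ)) := by
    rw [hℓ1] at hcT
    have h4 : 6 * (c + 1) ^ 2 + 6 * c ^ 2 ≤ 30 * (T * ℓ) := by nlinarith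
    have h5 : 23 * x ≤ x * ℓ := by nlinarith [Nat.zero_le x]
    have h6 : T * (23 * (Y + (H' + x) + L) + 30 * ℓ) ≤ T * (2 * (x * ℓ)) :=
      Nat.mul_le_mul_left _ (by omega)
    push Not at ha'
    nlinarith
  rw [hxη, hℓ1] at hb
  have hb2 := hb hb'
  have h7 := hRm_mono (show H' ≤ H' + x by omega) L y
  have h8 : x * L ≤ 2 * (x * ℓ) := by nlinarith [Nat.zero_le x]
  have h9 : hRm H' L y + ∑ i, (y i + 1).choose 2 ≤ H' * L + x * L := by
    rw [← Nat.add_mul]
    omega
  have h10 : 32 * (x * L) ≤ 7 * S₀ + Y := by omega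
  push_cast
  have h9' : (hRm H' L y : ℤ) + ((∑ i, (y i + 1).choose 2 : ℕ) : ℤ) ≤ H' * L + x * L := by
    exact_mod_cast h9
  have h10' : 32 * ((x : ℤ) * L) ≤ 7 * S₀ + Y := by exact_mod_cast h10
  push_cast at h9'
  linarith

/-! ### the path -/

theorem ER_step_of {T q a p U J qp ap Tp : ℕ} (hW : WinR T q a) (hT : 1 ≤ T) (hq : 2 ≤ q)
    (ha : 2 ≤ a) (hp : 40 * q + 4000 ≤ p) (hU : U = 100 * p ^ 2)
    {P : ℕ → ℕ} (hP : Pools P p U Tp J) (hqp : 10 ^ 5 * J + 10 ^ 6 * q ≤ qp)
    (hap : 1000 * a * p + 200 * p ^ 2 ≤ ap) (hTp : Tp ≤ T * ap)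
    (hsmall : ∀ (H L r v : ℕ) (y : Fin r → ℕ) (Q : Finset (Fin r)), 1 ≤ v →
      (∀ i ∈ Q, y i = v) → 4 * L ≤ ∑ i ∈ Q, y i → 2 * v * (v + 1) ≤ L → 2 * v + 1 ≤ H →
        StripOut H L Q y v)
    (hwide : ∀ (H L r u : ℕ) (y : Fin r → ℕ) (Q : Finset (Fin r)), 100 * p ^ 2 ≤ u →
      1000 * a * p * u ≤ L → u ^ 2 ≤ T * L → (∀ i ∈ Q, y i ≤ u ∧ u ≤ y i + u / p) →
        4 * L ≤ ∑ i ∈ Q, y i → 2 * u + 1 ≤ H → StripOut H L Q y u) : ER Tp qp ap := by
  classical
  intro N c H L k hc hcT hk hH hL hneg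
  obtain ⟨cn, hcn⟩ : ∃ cn : (Fin N → ℕ) → ℕ, ∀ y, cn y = ∑ i, (y i + 1).choose 2 :=
    ⟨_, fun _ => rfl⟩
  obtain ⟨S₀, hS₀⟩ : ∃ S₀, S₀ = ∑ i, k i := ⟨_, rfl⟩
  obtain ⟨ℓ, hℓ⟩ : ∃ ℓ, L = ℓ + 1 := ⟨L - 1, by omega⟩
  obtain ⟨η, hη⟩ : ∃ η, H = η + 1 := ⟨H - 1, by omega⟩
  have hℓ1 : L - 1 = ℓ := by omega
  have hη1 : H - 1 = η := by omega
  have hJ1 : 1 ≤ J := (Nat.zero_le _).trans_lt (hP.count 0 (Nat.zero_le _))
  -- the sum of the multiplicities is large
  have hsq : ∑ i, k i ^ 2 ≤ c * S₀ := by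
    rw [hS₀, Finset.mul_sum]
    refine Finset.sum_le_sum fun i _ => ?_
    rw [pow_two]
    exact Nat.mul_le_mul_right _ (hk i)
  rw [hη1, hℓ1] at hneg
  have hηc : qp * c ≤ η := by omega
  have hℓc : ap * c ≤ ℓ := by omega
  have hS1 : 2 * (qp * ℓ) ≤ S₀ := by
    have h1 : c * (2 * (qp * ℓ)) ≤ c * S₀ := by
      calc c * (2 * (qp * ℓ)) = 2 * ((qp * c) * ℓ) := by ring
        _ ≤ 2 * (η * ℓ) := Nat.mul_le_mul_left _ (Nat.mul_le_mul_right _ hηc)
        _ ≤ c * S₀ := hneg.trans hsq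
    exact Nat.le_of_mul_le_mul_left h1 hc
  have hS2 : 2 * (ap * η) ≤ S₀ := by
    have h1 : c * (2 * (ap * η)) ≤ c * S₀ := by
      calc c * (2 * (ap * η)) = 2 * (η * (ap * c)) := by ring
        _ ≤ 2 * (η * ℓ) := Nat.mul_le_mul_left _ (Nat.mul_le_mul_left _ hℓc)
        _ ≤ c * S₀ := hneg.trans hsq
    exact Nat.le_of_mul_le_mul_left h1 hc
  have hp1 : 4080 ≤ p := by omega
  have hpp : 4080 * 4080 ≤ p ^ 2 := by nlinarith
  have hapbig : 2 * 4080 * 4080 * 100 ≤ ap := by nlinarith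
  have hqpbig : 2 * 10 ^ 6 ≤ qp := by omega
  have hℓ0 : 1 ≤ ℓ := by nlinarith
  have hη0 : 1 ≤ η := by nlinarith
  have hS3 : 10 ^ 4 * L ≤ S₀ := by
    have h1 : 2 * 10 ^ 6 * ℓ ≤ qp * ℓ := Nat.mul_le_mul_right _ hqpbig
    omega
  have hS4 : 10 ^ 4 * H ≤ S₀ := by
    have h1 : 2 * 4080 * 4080 * 100 * η ≤ ap * η := Nat.mul_le_mul_right _ hapbig
    omega
  have hS5 : 10 ^ 5 * (J * L) ≤ S₀ := by
    have h1 : 10 ^ 5 * J * ℓ ≤ qp * ℓ := Nat.mul_le_mul_right _ (by omega)
    have h2 : J * L ≤ 2 * (J * ℓ) := by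
      rw [hℓ]
      nlinarith
    have h3 : 10 ^ 5 * J * ℓ = 10 ^ 5 * (J * ℓ) := by ring
    omega
  have hroot : 4 * (H * L) + S₀ ≤ 4 * cn k := by
    have h1 := two_sum_choose k
    rw [← hcn, ← hS₀] at h1
    have h2 : H * L = η * ℓ + η + ℓ + 1 := by rw [hη, hℓ]; ring
    have h3 : 2 * 4080 * 4080 * 100 * η ≤ ap * η := Nat.mul_le_mul_right _ hapbig
    have h4 : 2 * 10 ^ 6 * ℓ ≤ qp * ℓ := Nat.mul_le_mul_right _ hqpbig
    omega
  have hcL : c ^ 2 ≤ T * (L - 1) := by
    rw [hℓ1]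
    calc c ^ 2 = c * c := pow_two c
      _ ≤ (T * ap) * c := Nat.mul_le_mul_right _ (hcT.trans hTp)
      _ = T * (ap * c) := by ring
      _ ≤ T * ℓ := Nat.mul_le_mul_left _ hℓc
  have hLa : 6 * a * (c + 1) + 1 ≤ L := by
    have h1 : 6 * a * (c + 1) ≤ 12 * a * c := by nlinarith
    have h2 : 12 * a ≤ ap := by nlinarith
    have h3 : 12 * a * c ≤ ap * c := Nat.mul_le_mul_right _ h2
    omega
  have hL100 : 100 ≤ L := by nlinarith
  -- the leaves
  have hleaf : ∀ (H' : ℕ) (y : Fin N → ℕ), 6 * q * (c + 1) + 1 ≤ H' → H' ≤ H →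
      (∀ i, y i = k i ∨ y i = 0) → 3000 * ∑ i, y i ≤ S₀ →
      (32 * hRm H' L y : ℤ) ≤ max (0 : ℤ) (32 * ((H' * L : ℕ) - (cn y : ℕ)) + 7 * S₀ +
        (∑ i, y i : ℕ)) := by
    intro H' y h1 h2 h3 h4
    by_cases hne : hRm H' L y = 0
    · rw [hne]
      simp
    · refine le_trans ?_ (le_max_right _ _)
      rw [hcn]
      refine ER_leaf hW hT hc (fun i => ?_) h1 h2 hLa hL100 hcL hne h4 hS4 hS3
      rcases h3 i with h5 | h5
      · rw [h5]; exact hk i
      · rw [h5]; exact Nat.zero_le _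
  -- consequence of the first window
  have hwin : ∀ (H' : ℕ) (y : Fin N → ℕ), 6 * q * (c + 1) + 1 ≤ H' →
      (∀ i, y i = k i ∨ y i = 0) → hRm H' L y ≠ 0 →
      2 * cn y ≤ 2 * ((H' + 3) * L) + ∑ i, y i := by
    intro H' y h1 h3 hne
    have hyc : ∀ i, y i ≤ c := by
      intro i
      rcases h3 i with h5 | h5
      · rw [h5]; exact hk i
      · rw [h5]; exact Nat.zero_le _
    have h4 := (hW N c H' L y hc hyc h1 hLa).1
    by_contra hcon
    push Not at hcon
    refine hne (h4 ?_)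
    have h5 := two_sum_choose y
    rw [← hcn] at h5
    have h6 : 2 * ((H' - 1) * (L - 1)) + 6 * (L - 1) ≤ ∑ i, y i ^ 2 := by
      obtain ⟨η', hη'⟩ : ∃ η', H' = η' + 1 := ⟨H' - 1, by omega⟩
      have e1 : H' - 1 = η' := by omega
      rw [e1, hℓ1]
      have h7 : (H' + 3) * L = η' * ℓ + η' + 4 * ℓ + 4 := by rw [hη', hℓ]; ring
      omega
    calc T * (2 * ((H' - 1) * (L - 1))) + 6 * c ^ 2
        ≤ T * (2 * ((H' - 1) * (L - 1))) + 6 * (T * (L - 1)) :=
          Nat.add_le_add_left (Nat.mul_le_mul_left _ hcL) _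
      _ = T * (2 * ((H' - 1) * (L - 1)) + 6 * (L - 1)) := by ring
      _ ≤ T * ∑ i, y i ^ 2 := Nat.mul_le_mul_left _ h6
  -- the main claim
  have key : ∀ (n H' : ℕ) (y : Fin N → ℕ), H' ≤ n → 6 * q * (c + 1) + 1 ≤ H' → H' ≤ H →
      (∀ i, y i = k i ∨ y i = 0) → L * H + 2 * cn y ≤ 2 * cn k + L * H' →
      (∀ i, y i ≠ k i → ∀ s, 4 * L ≤ psum P y s → P (k i) ≤ s) →
      (32 * hRm H' L y : ℤ) ≤ max (0 : ℤ) (32 * ((H' * L : ℕ) - (cn y : ℕ)) + 7 * S₀ +
        (∑ i, y i : ℕ)) := by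
    intro n
    induction n with
    | zero => intro H' y h0 h1; omega
    | succ n ih =>
      intro H' y hn h1 h2 h3 h4 h5
      have hyc : ∀ i, y i ≤ c := by
        intro i
        rcases h3 i with h5 | h5
        · rw [h5]; exact hk i
        · rw [h5]; exact Nat.zero_le _
      by_cases hav : ∃ s, 4 * L ≤ psum P y s
      · -- the smallest available pool
        obtain ⟨s, hs, hsmin⟩ : ∃ s, 4 * L ≤ psum P y s ∧ ∀ s', s' < s → psum P y s' < 4 * L :=
          ⟨Nat.find hav, Nat.find_spec hav, fun s' hs' => by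
            have := Nat.find_min hav hs'
            omega⟩
        obtain ⟨v, u, hv1, hvu, huv, hPv, hPu, ⟨iu, hiu⟩, ⟨iv, hiv⟩, hall, hsum⟩ :=
          least_pool hP (y := y) (B := 4 * L) (by omega) hs (fun s' hs' => (hsmin s' hs').le)
        have huc : u ≤ c := hiu ▸ hyc iu
        have hsJ : s ≤ J := by
          rw [← hPv]
          exact (hP.count v (by omega)).le
        by_cases hlf : H' < 6 * q * (c + 1) + 2 * c + 4
        · -- a leaf
          by_cases hne : hRm H' L y = 0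
          · rw [hne]
            simp
          refine hleaf H' y h1 h2 h3 ?_
          have hw := hwin H' y h1 h3 hne
          have hlp := large_part y v
          rw [← hcn] at hlp
          have hup := used_part (v := v) h3 (fun i hi => by
            have h6 := h5 i hi s hs
            rcases Nat.lt_or_ge v (k i) with h7 | h7
            · have h8 : s ≤ P (k i) := hPv ▸ hP.mono h7.le
              have h9 := hP.width v (k i) (by rw [hPv]; omega) h7.le
              have h10 : v / p ≤ v := Nat.div_le_self _ _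
              omega
            · omega)
          rw [← hcn, ← hcn, ← hS₀] at hup
          obtain ⟨Y, hY⟩ : ∃ Y, Y = ∑ i, y i := ⟨_, rfl⟩
          obtain ⟨W, hW'⟩ : ∃ W, W = ∑ i, (if v ≤ y i then y i else 0) := ⟨_, rfl⟩
          rw [← hY, ← hW'] at hsum
          rw [← hW'] at hlp
          rw [← hY] at hw hup ⊢
          have g1 : 10 ^ 6 * (H' + 3) ≤ 16 * H := by
            have h6 : H' + 3 ≤ 16 * (q * c) := by
              have h7 : q ≤ q * c := Nat.le_mul_of_pos_right _ hc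
              have h8 : 2 * c ≤ q * c := Nat.mul_le_mul_right _ hq
              have h9 : 6 * q * (c + 1) = 6 * (q * c) + 6 * q := by ring
              omega
            have h7 : 10 ^ 6 * q * c ≤ qp * c := Nat.mul_le_mul_right _ (by omega)
            have h8 : 10 ^ 6 * q * c = 10 ^ 6 * (q * c) := by ring
            omega
          have g2 : L * H ≤ 6 * (v * S₀) := by
            have h6 : 2 * (L * H') ≤ L * H := by
              have h7 : 2 * H' ≤ H := by omega
              calc 2 * (L * H') = L * (2 * H') := by ring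
                _ ≤ L * H := Nat.mul_le_mul_left _ h7
            have h7 : (2 * v + 1) * S₀ ≤ 3 * (v * S₀) := by
              have : (2 * v + 1) ≤ 3 * v := by omega
              calc (2 * v + 1) * S₀ ≤ 3 * v * S₀ := Nat.mul_le_mul_right _ this
                _ = 3 * (v * S₀) := by ring
            have h8 := Nat.zero_le ((2 * v + 1) * Y)
            omega
          have g3 : v * Y ≤ 8 * (v * (J * L)) + 2 * ((H' + 3) * L) := by
            have h6 : (v + 1) * Y ≤ (v + 1) * (s * (4 * L)) + (v + 1) * W := by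
              rw [← Nat.mul_add]
              exact Nat.mul_le_mul_left _ hsum
            have h7 : (v + 1) * (s * (4 * L)) ≤ 8 * (v * (J * L)) := by
              calc (v + 1) * (s * (4 * L)) ≤ (2 * v) * (J * (4 * L)) :=
                    Nat.mul_le_mul (by omega) (Nat.mul_le_mul_right _ hsJ)
                _ = 8 * (v * (J * L)) := by ring
            have h8 : (v + 1) * Y = v * Y + Y := by ring
            omega
          have g4 : 10 ^ 6 * (v * Y) ≤ 8 * 10 ^ 6 * (v * (J * L)) + 192 * (v * S₀) := by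
            have h6 : 10 ^ 6 * (H' + 3) * L ≤ 16 * H * L := Nat.mul_le_mul_right _ g1
            have h7 : 16 * H * L = 16 * (L * H) := by ring
            have h8 : 10 ^ 6 * (H' + 3) * L = 10 ^ 6 * ((H' + 3) * L) := by ring
            omega
          have g5 : v * (10 ^ 6 * Y) ≤ v * (8 * 10 ^ 6 * (J * L) + 192 * S₀) := by
            calc v * (10 ^ 6 * Y) = 10 ^ 6 * (v * Y) := by ring
              _ ≤ _ := g4
              _ = _ := by ring
          have g6 := Nat.le_of_mul_le_mul_left g5 hv1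
          omega
        · -- a strip
          push Not at hlf
          have hQs : 4 * L ≤ ∑ i ∈ Finset.univ.filter (fun i => P (y i) = s), y i := by
            rw [← psum_eq_filter]
            exact hs
          have hstrip : StripOut H' L (Finset.univ.filter (fun i => P (y i) = s)) y u := by
            rcases Nat.lt_or_ge u U with hu | hu
            · refine hsmall H' L N u y _ (by omega) (fun i hi => ?_) hQs ?_ (by omega)
              · exact (hP.small u (y i) (hPu.trans (Finset.mem_filter.1 hi).2.symm) hu).symm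
              · have h6 : 2 * u * (u + 1) ≤ 2 * c * U := Nat.mul_le_mul (by omega) (by omega)
                have h7 : 2 * c * U ≤ ap * c := by
                  rw [hU]
                  calc 2 * c * (100 * p ^ 2) = 200 * p ^ 2 * c := by ring
                    _ ≤ ap * c := Nat.mul_le_mul_right _ (by omega)
                omega
            · refine hwide H' L N u y _ (by omega) ?_ ?_ (fun i hi => ?_) hQs (by omega)
              · calc 1000 * a * p * u ≤ ap * c := Nat.mul_le_mul (by omega) huc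
                  _ ≤ L := by omega
              · calc u ^ 2 ≤ c ^ 2 := Nat.pow_le_pow_left huc 2
                  _ ≤ T * (L - 1) := hcL
                  _ ≤ T * L := Nat.mul_le_mul_left _ (by omega)
              · have h6 := hall i (Finset.mem_filter.1 hi).2
                have h7 := hP.width (y i) u ((Finset.mem_filter.1 hi).2.trans hPu.symm) h6.2
                have h8 : y i / p ≤ u / p := Nat.div_le_div_right h6.2
                omega
          obtain ⟨κ, X, y', Cu, Su, ⟨hκ1, hκ2, hXL, hyy, hRR⟩, hout, hCu, hSu, hκu, e1, e2, e3⟩ :=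
            hstrip
          have h3' : ∀ i, y' i = k i ∨ y' i = 0 := by
            intro i
            rcases hyy i with h6 | h6
            · rw [h6]; exact h3 i
            · exact Or.inr h6
          have h5' : ∀ i, y' i ≠ k i → ∀ s', 4 * L ≤ psum P y' s' → P (k i) ≤ s' := by
            intro i hi s' hs'
            have h6 := hs'.trans (psum_mono P hyy s')
            by_cases h7 : y i = k i
            · have h8 : i ∈ Finset.univ.filter (fun i => P (y i) = s) := by
                by_contra h9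
                exact hi ((hout i h9).trans h7)
              have h9 := (Finset.mem_filter.1 h8).2
              rw [← h7, h9]
              by_contra h10
              have := hsmin s' (by omega)
              omega
            · exact h5 i h7 s' h6
          rw [← hcn, ← hcn] at hCu
          obtain ⟨H₂, hH₂⟩ : ∃ H₂, H' = H₂ + κ + 1 := ⟨H' - κ - 1, by omega⟩
          have f1 : H' - κ = H₂ + 1 := by omega
          have f2 : H' - κ - 1 = H₂ := by omega
          rw [f1] at hRR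
          have f3 : H₂ + 1 - 1 = H₂ := rfl
          rw [f3] at hRR
          have m1 : H' * L = H₂ * L + κ * L + L := by rw [hH₂]; ring
          have m2 : (κ + 1) * L = κ * L + L := by ring
          have m3 : L * H' = H₂ * L + κ * L + L := by rw [hH₂]; ring
          have m4 : (H₂ + 1) * L = H₂ * L + L := by ring
          have m5 : L * H₂ = H₂ * L := by ring
          have m6 : L * (H₂ + 1) = H₂ * L + L := by ring
          have i1 := ih (H₂ + 1) y' (by omega) (by omega) (by omega) h3' (by omega) h5'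
          have i2 := ih H₂ y' (by omega) (by omega) (by omega) h3' (by omega) h5'
          rw [m4] at i1
          rw [m1]
          rw [m2] at e1 e2 e3
          obtain ⟨Y, hY⟩ : ∃ Y, Y = ∑ i, y i := ⟨_, rfl⟩
          obtain ⟨Y', hY'⟩ : ∃ Y', Y' = ∑ i, y' i := ⟨_, rfl⟩
          rw [← hY, ← hY'] at hSu
          rw [← hY'] at i1 i2
          rw [← hY]
          generalize hRm (H₂ + 1) L y' = A1 at *
          generalize hRm H₂ L y' = A2 at *
          generalize hRm H' L y = A0 at *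
          clear ih hleaf hwin hall h5 h5' h3 h3' hyy hout hsmall hwide
          generalize H₂ * L = z1 at *
          generalize κ * L = z2 at *
          omega
      · -- no pool is available
        push Not at hav
        refine hleaf H' y h1 h2 h3 ?_
        have h6 := low_pools P y (s₀ := J) (B := 4 * L) (fun s _ => (hav s).le)
        have h7 : (∑ i, if P (y i) < J then y i else 0) = ∑ i, y i := by
          refine Finset.sum_congr rfl fun i _ => ?_
          rw [if_pos (hP.count _ ((hyc i).trans hcT))]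
        rw [h7] at h6
        nlinarith
  have h0 := key H H k le_rfl (by nlinarith) le_rfl (fun i => Or.inl rfl) (by omega)
    (fun i hi => absurd rfl hi)
  rw [max_eq_left] at h0
  · omega
  · rw [← hS₀]
    have h1 : ((H * L : ℕ) : ℤ) * 4 + S₀ ≤ 4 * (cn k : ℤ) := by exact_mod_cast (by omega :
      H * L * 4 + S₀ ≤ 4 * cn k)
    linarith

end Pool.Agent.Work.MP_0421d9_ag.LD
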