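import Pool.Agent.Work.MP_0421d9_ag.ZRel
import Pool.Agent.Work.MP_0421d9_ag.ZSmooth
import Pool.Agent.Work.MP_0421d9_ag.LRedSm
import Pool.Agent.Work.MP_0421d9_ag.LMix

/-!
Smoothness by bootstrapping: Cremona-reduced systems, and systems with three scales of
multiplicities.
-/

set_option linter.unusedSectionVars false

namespace Pool.Agent.Work.MP_0421d9_ag

open MvPolynomial Module LD

/-- the conditions imposed by the points outside of `B`, other than `a`, of multiplicity smaller
than that of `j` -/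
def below {r : ℕ} (B : Finset (Fin r)) (m : Fin r → ℕ) (j a : Fin r) : ℕ :=
  ∑ i ∈ Finset.univ.filter (fun i => i ∉ B ∧ i ≠ a ∧ m i < m j), (m i + 1).choose 2

theorem sum_upI {r : ℕ} (B : Finset (Fin r)) (m : Fin r → ℕ) (j a : Fin r) :
    ∑ i, (upI B m j a i + 1).choose 2 + below B m j a ≤ ∑ i, (m i + 1).choose 2 + (m j + 1) := by
  have h1 : ∑ i, (m i + 1).choose 2 + (m j + 1) =
      ∑ i, ((m i + 1).choose 2 + if i = j then m j + 1 else 0) := by
    rw [Finset.sum_add_distrib, Finset.sum_ite_eq' _ j, if_pos (Finset.mem_univ j)]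
  unfold below
  rw [h1, Finset.sum_filter, ← Finset.sum_add_distrib]
  refine Finset.sum_le_sum (fun i _ => ?_)
  unfold upI
  by_cases hi : i = j
  · subst hi
    rw [if_pos rfl, if_pos rfl, if_neg (fun h => lt_irrefl _ h.2.2),
      Nat.choose_succ_succ' (m i + 1) 1, Nat.choose_one_right]
    exact le_of_eq (by ring)
  · rw [if_neg hi, if_neg hi]
    by_cases h2 : (i ∈ B ∧ m i ≠ 1) ∨ m j ≤ m i ∨ i = a
    · rw [if_pos h2, if_neg]
      rintro ⟨h3, h4, h5⟩
      rcases h2 with h2 | h2 | h2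
      · exact h3 h2.1
      · omega
      · exact h4 h2
    · rw [if_neg h2]
      have h3 : (0 + 1).choose 2 = 0 := rfl
      rw [h3]
      split_ifs
      · omega
      · omega

/-- The two halves of the hypothesis. -/
theorem split_hyp {r d : ℕ} {p : Fin r → Fin 3 → ℂ} {m : Fin r → ℕ} {B : Finset (Fin r)}
    (H : ∀ j a, j ∉ B → 2 ≤ m j → 2 ≤ m a →
      (m j = 2 → ∀ F ∈ linSys d p m, ¬ Squarefree F) →
        m j < finrank ℂ (linSys d p m) + below B m j a) :
    (∀ j a, j ∉ B → 3 ≤ m j → 2 ≤ m a → m j < finrank ℂ (linSys d p m) + below B m j a) ∧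
    ((∃ F ∈ linSys d p m, Squarefree F) ∨ ∀ j a, j ∉ B → m j = 2 → 2 ≤ m a →
      m j < finrank ℂ (linSys d p m) + below B m j a) := by
  refine ⟨fun j a hj h3 ha => H j a hj (by omega) ha (fun h => by omega), ?_⟩
  by_cases h : ∃ F ∈ linSys d p m, Squarefree F
  · exact Or.inl h
  · refine Or.inr fun j a hj h2 ha => H j a hj h2.ge ha (fun _ F hF hsq => h ⟨F, hF, hsq⟩)

/-- **Smoothness of Cremona-reduced systems, by bootstrapping.** -/
theorem red_boot {r u d : ℕ} (hu : 1 ≤ u) (p : Fin r → Fin 3 → ℂ) (hp : GenericPoints p)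
    (m : Fin r → ℕ) {B : Finset (Fin r)} (h : Red (u + 1) d m B) (hmu : ∀ i, i ∉ B → m i ≤ u)
    (H : ∀ j a, j ∉ B → 2 ≤ m j → 2 ≤ m a →
      (m j = 2 → ∀ F ∈ linSys d p m, ¬ Squarefree F) →
        m j < finrank ℂ (linSys d p m) + below B m j a)
    (hne : linSys d p m ≠ ⊥) :
    (∃ F ∈ linSys d p m, Squarefree F) ∧
    (∀ s : Fin (finrank ℂ (linSys d p m) - 1) → Fin 3 → ℂ, GenericPoints (Sum.elim p s) →
      ∀ F ∈ linSys d p m, F ≠ 0 → (∀ k, eval (s k) F = 0) → SmoothOnBlowup p m F) ∧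
    (∃ F ∈ linSys d p m, F ≠ 0 ∧ SmoothOnBlowup p m F) := by
  classical
  have hcan := h.can
  have t0 := h.t0
  have e1 : (u + 1 + 1) ^ 2 = u * u + 4 * u + 4 := by ring
  rw [e1] at hcan
  obtain ⟨b0, be, bi⟩ := B_nef_rg (d := d) hu (m := m) (B := B) h.sum hmu (by omega)
  have hm := red_nbr hp h (fun i hi => (hmu i hi).trans (Nat.le_succ u)) (fun i _ => le_rfl)
  have hpos : finrank ℂ (linSys d p m) ≠ 0 := by
    intro h2
    have hfin : Module.Finite ℂ (linSys d p m) :=
      Submodule.finiteDimensional_of_le (linSys_le d p _)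
    exact hne (Submodule.finrank_eq_zero.mp h2)
  have hd2 : d - 1 + 2 = d + 1 := by omega
  have hup : ∀ j a, j ∉ B → m j < finrank ℂ (linSys d p m) + below B m j a →
      finrank ℂ (linSys d p (upI B m j a)) + ∑ i, (upI B m j a i + 1).choose 2 =
        (d + 2).choose 2 := by
    intro j a hj hlt
    have h1 : finrank ℂ (linSys d p (upI B m j a)) =
        (d + 2).choose 2 - ∑ i, (upI B m j a i + 1).choose 2 := by
      refine red_nbr hp h (fun i hi => ?_) (fun i hi => ?_)
      · have h2 := hmu i hi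
        have h3 := hmu j hj
        unfold upI
        split_ifs <;> omega
      · have hij : i ≠ j := fun h' => hj (h' ▸ hi)
        unfold upI
        rw [if_neg hij]
        split_ifs <;> omega
    have h2 := sum_upI B m j a
    omega
  obtain ⟨H3, H2⟩ := split_hyp H
  refine boot_rel_final p hp m B (by omega) (by omega) hne ?_ (fun e he h2 => ?_)
    (fun i hi h2 => ?_) (fun j a hj h3 ha => hup j a hj (H3 j a hj h3 ha))
    (H2.imp_right fun h2 j a hj hj2 ha => hup j a hj (h2 j a hj hj2 ha))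
  · have r0 := b0
    unfold Rg at r0
    rw [sum_onB, hd2, ← hPm_eq hp] at r0
    exact r0
  · have k1 := be e he
    unfold Rg at k1
    rw [sum_withE B m he (by omega), hd2, ← hPm_eq hp] at k1
    exact k1
  · have k1 := bi i hi
    have hi' : onB B m i = m i := if_pos hi
    have g1 : Function.update (onB B m) i (m i + 1) =
        fun j => if j ∈ B then (if j = i then m i + 1 else m j) else 0 := by
      funext j
      by_cases hj : j = i
      · rw [hj, Function.update_self, if_pos hi, if_pos rfl]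
      · rw [Function.update_of_ne hj, if_neg hj]
        rfl
    have g2 : ∑ j, (Function.update (onB B m) i (m i + 1) j + 1).choose 2 =
        ∑ j ∈ B, (m j + 1).choose 2 + (m i + 1) := by
      have e2 := sum_update_succ (onB B m) i
      rw [hi', sum_onB] at e2
      exact e2
    unfold Rg at k1
    rw [g2, g1, ← hPm_eq hp] at k1
    exact k1

/-- **Smoothness by bootstrapping**, from the nonspeciality of the neighbouring systems. -/
theorem nbr_boot {r d : ℕ} (p : Fin r → Fin 3 → ℂ) (hp : GenericPoints p) (m : Fin r → ℕ)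
    (hns : ∀ m' : Fin r → ℕ, Nbr m m' →
      finrank ℂ (linSys d p m') = (d + 2).choose 2 - ∑ j, (m' j + 1).choose 2)
    (H : ∀ j a, 2 ≤ m j → 2 ≤ m a → (m j = 2 → ∀ F ∈ linSys d p m, ¬ Squarefree F) →
      m j < finrank ℂ (linSys d p m) +
        ∑ i ∈ Finset.univ.filter (fun i => i ≠ a ∧ m i < m j), (m i + 1).choose 2)
    (hne : linSys d p m ≠ ⊥) :
    (∃ F ∈ linSys d p m, Squarefree F) ∧
    (∀ s : Fin (finrank ℂ (linSys d p m) - 1) → Fin 3 → ℂ, GenericPoints (Sum.elim p s) →
      ∀ F ∈ linSys d p m, F ≠ 0 → (∀ k, eval (s k) F = 0) → SmoothOnBlowup p m F) ∧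
    (∃ F ∈ linSys d p m, F ≠ 0 ∧ SmoothOnBlowup p m F) := by
  refine boot_smooth p hp m hns (fun j a h3 ha => H j a (by omega) ha (fun h => by omega)) ?_ hne
  by_cases h : ∃ F ∈ linSys d p m, Squarefree F
  · exact Or.inl h
  · refine Or.inr fun j h2 => ?_
    have h1 := H j j h2.ge h2.ge (fun _ F hF hsq => h ⟨F, hF, hsq⟩)
    have h4 : ∑ i ∈ Finset.univ.filter (fun i => i ≠ j ∧ m i < m j), (m i + 1).choose 2 ≤
        (Finset.univ.filter (fun i => m i = 1)).card := by
      rw [Finset.card_eq_sum_ones, Finset.sum_filter, Finset.sum_filter]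
      refine Finset.sum_le_sum (fun i _ => ?_)
      rw [h2]
      have h5 : m i < 2 → (m i + 1).choose 2 ≤ if m i = 1 then 1 else 0 := by
        intro h6
        interval_cases m i <;> simp
      split_ifs with h6 h7 h7
      · rw [h7]
        decide
      · have := h5 h6.2
        rw [if_neg h7] at this
        exact this
      · exact Nat.zero_le _
      · exact le_rfl
    omega

/-- three scales of multiplicities -/
theorem Three.boot {r u k M d : ℕ} {B : Finset (Fin r)} {m : Fin r → ℕ} {p : Fin r → Fin 3 → ℂ}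
    (hp : GenericPoints p)
    (h : Three u (k + 1) (M + 1) d B m) (hkM : k ≤ M) (hM : ∀ i, m i ≤ M)
    (hk : ∀ i, i ∉ B → m i ≤ k)
    (H : ∀ j a, 2 ≤ m j → 2 ≤ m a → (m j = 2 → ∀ F ∈ linSys d p m, ¬ Squarefree F) →
      m j < finrank ℂ (linSys d p m) +
        ∑ i ∈ Finset.univ.filter (fun i => i ≠ a ∧ m i < m j), (m i + 1).choose 2)
    (hne : linSys d p m ≠ ⊥) :
    (∃ F ∈ linSys d p m, Squarefree F) ∧
    (∀ s : Fin (finrank ℂ (linSys d p m) - 1) → Fin 3 → ℂ, GenericPoints (Sum.elim p s) →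
      ∀ F ∈ linSys d p m, F ≠ 0 → (∀ k, eval (s k) F = 0) → SmoothOnBlowup p m F) ∧
    (∃ F ∈ linSys d p m, F ≠ 0 ∧ SmoothOnBlowup p m F) := by
  have hfin : Module.Finite ℂ (linSys d p m) :=
    Submodule.finiteDimensional_of_le (linSys_le d p _)
  have hroom := h.room hkM hM hk (by
    rw [← hPm_eq hp]
    intro h2
    exact hne (Submodule.finrank_eq_zero.mp h2))
  refine nbr_boot p hp m (fun z hz => ?_) H hne
  rw [hPm_eq hp]
  exact h.nbr hkM hM hk hroom hz

end Pool.Agent.Work.MP_0421d9_ag
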