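import Pool.Agent.Work.MP_0421d9_ag.ZBoot

/-!
Smoothness by bootstrapping, relative to a set of exempt points.
-/

set_option linter.unusedSectionVars false

namespace Pool.Agent.Work.MP_0421d9_ag

open MvPolynomial Module

section boot

variable {ι κ : Type} [Fintype ι] [Fintype κ] [DecidableEq ι] [DecidableEq κ]

variable {d : ℕ} {P : ι ⊕ κ → V3} {E : ι ⊕ κ → Fin 3 → Derivation ℚ ℂ ℂ} {m : ι → ℕ} {F : R3}

/-- the exempt points, the points of multiplicity at least that of `j`, and the point `a` -/
def UpW (W : ι → Prop) (m : ι → ℕ) (j a : ι) : ι → Prop := fun l => W l ∨ m j ≤ m l ∨ l = a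

namespace Rigid

theorem small_zero_rel (S : Rigid d P E m F) {W : ι → Prop}
    (hfull : ∀ j, ¬ W j → ∀ a, 1 ≤ m j →
      Full d (fun i => P (Sum.inl i)) (rs (UpW W m j a) m) j ∨ (m j ≤ 2 ∧ Squarefree F))
    (hN : ∀ G ∈ HH m, Psi d (fun i => P (Sum.inl i)) m G = 0 → G = 0)
    {K : ι → R3} (hK : K ∈ HH m) {L : ι → Prop} {a : ℕ}
    (hL : ∀ l, ¬ L l → W l ∨ a ≤ m l ∨ K l = 0)
    (hD : ∀ l, L l → ∀ v, ∃ c : ℂ, cD (mv E (Sum.inl l) v)
      (Psi d (fun i => P (Sum.inl i)) m K) = C c * Psi d (fun i => P (Sum.inl i)) m K) :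
    ∀ l, ¬ W l → m l < a → K l = 0 := by
  classical
  by_contra hcon
  push Not at hcon
  obtain ⟨l₁, h0, h1, h2⟩ := hcon
  obtain ⟨l, hl, hmin⟩ :=
    (Finset.univ.filter (fun l => ¬ W l ∧ m l < a ∧ K l ≠ 0)).exists_min_image m
      ⟨l₁, by simp [h0, h1, h2]⟩
  simp only [Finset.mem_filter, Finset.mem_univ, true_and] at hl hmin
  obtain ⟨hlW, hla, hKl⟩ := hl
  have hLl : L l := by
    by_contra h
    rcases hL l h with h' | h' | h'
    · exact hlW h'
    · omega
    · exact hKl h'
  have hs : ∀ i, ¬ UpW W m l l i → K i = 0 := by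
    intro i hi
    by_contra h
    unfold UpW at hi
    push Not at hi
    have := hmin i ⟨hi.1, by omega, h⟩
    omega
  have hz : 1 ≤ m l := by
    by_contra h
    have h0 : m l = 0 := by omega
    have h3 := mem_HH.mp hK l
    rw [h0, mem_Hm_zero] at h3
    exact hKl h3
  obtain ⟨v, hv⟩ := exists_cr_ne (gp1 S.hE (Sum.inl l))
  obtain ⟨c, hc⟩ := hD l hLl v
  have hdiv : lin (P (Sum.inl l)) ∣ K l := by
    apply S.top_step (W := UpW W m l l) (Or.inr (Or.inl le_rfl)) hz (hfull l hlW l hz) hK hs hv
    · rw [hc]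
      exact C_mul_mem _ (Psi_mem_J_rs hK hs)
    · intro v'
      obtain ⟨c', hc'⟩ := hD l hLl v'
      rw [hc', B_C_mul_left, S.B_J (Psi_mem_J hK), mul_zero]
  obtain ⟨s, e, G₁, e1, e2, e3, e4⟩ := S.exists_fact (mem_HH.mp hK) hdiv hKl
  refine S.contra hN hK e1 e2 e3 e4 hv (X := c • K) (Submodule.smul_mem _ _ hK) ?_ ?_
  · rw [map_smul, hc, smul_eq_C_mul]
  · rw [Pi.smul_apply, smul_eq_C_mul, e1]
    exact Dvd.dvd.mul_left (Dvd.intro _ rfl) _

/-- the rigid member is smooth away from the multiple points, by bootstrapping, relative version -/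
theorem boot_rel_no_singularity (S : Rigid d P E m F) {W : ι → Prop}
    (hfull : ∀ j, ¬ W j → ∀ a, 1 ≤ m j →
      Full d (fun i => P (Sum.inl i)) (rs (UpW W m j a) m) j ∨ (m j ≤ 2 ∧ Squarefree F))
    (hN : ∀ G ∈ HH m, Psi d (fun i => P (Sum.inl i)) m G = 0 → G = 0)
    {q : V3} (hqne : q ≠ 0)
    (hfree0 : lin q ^ d ∉ J d (fun i => P (Sum.inl i)) (rs W m))
    (hfree : ∀ e, ¬ W e → 2 ≤ m e →
      lin q ^ d ∉ J d (fun i => P (Sum.inl i)) (Function.update (rs W m) e (m e - 1)))
    (hq0 : eval q F = 0) (hsing : ∀ k, eval q (pderiv k F) = 0) : False := by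
  classical
  set p : ι → V3 := fun i => P (Sum.inl i) with hp
  have hd : 1 ≤ d := by
    by_contra hc
    have hd0 : d = 0 := by omega
    have h1 := S.hom
    rw [hd0] at h1
    have h0 : F = C (coeff 0 F) :=
      (MvPolynomial.totalDegree_eq_zero_iff_eq_C).mp (Nat.le_zero.mp h1.totalDegree_le)
    rw [h0, eval_C] at hq0
    rw [hq0, C_0] at h0
    exact S.hF0 h0
  obtain ⟨d', rfl⟩ : ∃ d', d = d' + 1 := ⟨d - 1, by omega⟩
  have hdne : ((d' + 1 : ℕ) : ℂ) ≠ 0 := by
    rw [Nat.cast_ne_zero]; omega
  -- the singularity in terms of the pairing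
  have hBq : B (lin q ^ (d' + 1)) F = 0 := by
    rw [B_lin_pow S.hom, hq0, mul_zero]
  have hBw : ∀ w, B (lin q ^ d' * lin w) F = 0 := by
    intro w
    have h1 : (dir w F).IsHomogeneous d' := by
      simpa using dir_isHomogeneous w S.hom
    rw [mul_comm, B_lin_mul, B_lin_pow h1, dir_apply, map_sum]
    have h2 : ∑ k, eval q (C (w k) * pderiv k F) = 0 := by
      refine Finset.sum_eq_zero (fun k _ => ?_)
      rw [map_mul, hsing k, mul_zero]
    rw [h2, mul_zero]
  -- the relation
  have hJ : lin q ^ (d' + 1) ∈ J (d' + 1) p m := by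
    apply S.memJ (lin_isHomogeneous_pow q (d' + 1)) hBq
    intro k v
    have h1 := D_B (mv E (Sum.inr k) v) (lin q ^ (d' + 1)) F
    rw [hBq, map_zero, cDq, B_C_mul_left, hBw, mul_zero, zero_add] at h1
    exact h1.symm
  obtain ⟨G, hG', hGq⟩ := mem_J.mp hJ
  have hG : G ∈ HH m := mem_HH.mpr hG'
  rw [← Psi_apply] at hGq
  -- at most one divisible component
  have hlow : ∀ i j, G i ≠ 0 → lin (p i) ∣ G i → G j ≠ 0 → lin (p j) ∣ G j → i = j := by
    intro i j hi hi' hj hj'
    by_contra hij
    obtain ⟨s, n, G₁, e1, e2, e3, e4⟩ := S.exists_fact hG' hi' hi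
    obtain ⟨s', n', G₂, e1', e2', e3', e4'⟩ := S.exists_fact hG' hj' hj
    exact S.two_nonzero hN hqne hG hGq hij e1 e2 e3 e4 e1' e2' e3' e4'
  by_cases htop : ∃ j, ¬ W j ∧ ¬ lin (p j) ∣ G j
  · -- the nondivisible component of smallest multiplicity
    obtain ⟨j₁, hj₁W, hj₁⟩ := htop
    obtain ⟨j, hj, hmin⟩ :=
      (Finset.univ.filter (fun j => ¬ W j ∧ ¬ lin (p j) ∣ G j)).exists_min_image m
        ⟨j₁, by simp [hj₁, hj₁W]⟩
    simp only [Finset.mem_filter, Finset.mem_univ, true_and] at hj hmin
    obtain ⟨hjW, hj⟩ := hj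
    have hGj : G j ≠ 0 := by
      intro h
      apply hj
      rw [h]
      exact dvd_zero _
    have hz : 1 ≤ m j := by
      by_contra h
      have h0 : m j = 0 := by omega
      have h3 := hG' j
      rw [h0, mem_Hm_zero] at h3
      exact hGj h3
    -- the possible divisible component
    obtain ⟨a, ha, ha'⟩ : ∃ a, (∀ i, G i ≠ 0 → lin (p i) ∣ G i → i = a) ∧
        ((G a ≠ 0 ∧ lin (p a) ∣ G a) ∨ ∀ i, G i ≠ 0 → ¬ lin (p i) ∣ G i) := by
      by_cases h : ∃ a, G a ≠ 0 ∧ lin (p a) ∣ G a
      · obtain ⟨a, h1, h2⟩ := h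
        exact ⟨a, fun i hi hi' => hlow i a hi hi' h1 h2, Or.inl ⟨h1, h2⟩⟩
      · push Not at h
        exact ⟨j, fun i hi hi' => absurd hi' (h i hi), Or.inr h⟩
    set W' := UpW W m j a with hW'
    have hWj : W' j := Or.inr (Or.inl le_rfl)
    have hs : ∀ l, ¬ W' l → G l = 0 := by
      intro l hl
      by_contra h
      rw [hW'] at hl
      unfold UpW at hl
      push Not at hl
      by_cases hdiv : lin (p l) ∣ G l
      · exact hl.2.2 (ha l h hdiv)
      · have := hmin l ⟨hl.1, hdiv⟩
        omega
    have hGW : lin q ^ (d' + 1) ∈ J (d' + 1) p (rs W' m) := by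
      rw [← hGq]
      exact Psi_mem_J_rs hG hs
    -- a second element
    have hw : ∃ w, cr q w ≠ 0 ∧ lin q ^ d' * lin w ∈ J (d' + 1) p (rs W' m) := by
      by_contra hcon
      push Not at hcon
      have hT' : ∀ w, lin q ^ d' * lin w ∈ J (d' + 1) p (rs W' m) → cr q w = 0 := by
        intro w hw
        by_contra h
        exact hcon w h hw
      have hprop : ∀ k v, ∃ c : ℂ, (fun l => mv E (Sum.inr k) v (q l)) = c • q := by
        intro k v
        apply exists_smul_of_cr_eq_zero hqne
        apply hT'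
        apply mem_of_C_mul_mem hdne
        rw [← cDq, ← hGq, cD_Psi_fixed S.hE]
        apply Psi_mem_J_rs (HH_cD _ hG)
        intro l hl
        change cD _ (G l) = 0
        rw [hs l hl, map_zero]
      have hprop' : ∀ l, G l = 0 → ∀ v, ∃ c : ℂ, (fun i => mv E (Sum.inl l) v (q i)) = c • q := by
        intro l hl v
        apply exists_smul_of_cr_eq_zero hqne
        apply hT'
        apply mem_of_C_mul_mem hdne
        rw [← cDq, ← hGq, cD_Psi S.hE S.hm, hl, mul_zero, mul_zero, mul_zero, zero_add]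
        apply Psi_mem_J_rs (HH_cD _ hG)
        intro i hi
        change cD _ (G i) = 0
        rw [hs i hi, map_zero]
      -- there is no divisible component
      have hnd : ∀ i, G i ≠ 0 → ¬ lin (p i) ∣ G i := by
        rcases ha' with ⟨h1, h2⟩ | h
        · exfalso
          obtain ⟨s, n, G₁, e1, e2, e3, e4⟩ := S.exists_fact hG' h2 h1
          obtain ⟨v, hv⟩ := exists_cr_ne (gp1 S.hE (Sum.inl a))
          apply S.moves hN hqne hG hGq e1 e2 e3 e4 hv
          apply hT'
          apply mem_of_C_mul_mem hdne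
          rw [← cDq, ← hGq, cD_Psi_div S.hE a v e1]
          apply Psi_mem_J_rs (update_mem_HH _ hG (comp_mem_Hm _ _ e2 e3))
          intro l hl
          have hla : l ≠ a := by
            rintro rfl
            exact hl (Or.inr (Or.inr rfl))
          rw [Function.update_of_ne hla, hs l hl, map_zero]
        · exact h
      obtain ⟨k, hk⟩ : ∃ k : Fin 3, cr q (Pi.single k 1) ≠ 0 := by
        by_contra hcon'
        push Not at hcon'
        have h01 := congrFun (hcon' 0) 1
        have h02 := congrFun (hcon' 0) 2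
        have h12 := congrFun (hcon' 1) 2
        simp [cr] at h01 h02 h12
        apply hqne
        ext l
        fin_cases l
        · exact h12
        · exact h02
        · exact h01
      set w : V3 := Pi.single k 1 with hwdef
      have hDw : ∀ D : Derivation ℚ ℂ ℂ, (fun l => D (w l)) = (0 : V3) := by
        intro D
        funext l
        rw [hwdef]
        by_cases hl : l = k
        · subst hl
          rw [Pi.single_eq_same]
          exact Derivation.map_one_eq_zero D
        · rw [Pi.single_eq_of_ne hl]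
          exact map_zero D
      have hcDA : ∀ (D : Derivation ℚ ℂ ℂ) (c : ℂ), (fun l => D (q l)) = c • q →
          cD D (lin q ^ d' * lin w) = C (d' * c) * (lin q ^ d' * lin w) := by
        intro D c hc
        rw [cD_mul, cD_lin_pow_prop hc, cD_lin, hDw D]
        have : lin (0 : V3) = 0 := lin_eq_zero.mpr rfl
        rw [this, mul_zero, add_zero, mul_assoc]
      have hA : lin q ^ d' * lin w ∈ J (d' + 1) p m := by
        apply S.memJ _ (hBw w)
        · intro k v
          obtain ⟨c, hc⟩ := hprop k v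
          have h1 := D_B (mv E (Sum.inr k) v) (lin q ^ d' * lin w) F
          rw [hBw, map_zero, hcDA _ c hc, B_C_mul_left, hBw, mul_zero, zero_add] at h1
          exact h1.symm
        · exact (lin_isHomogeneous_pow q d').mul (lin_isHomogeneous w)
      obtain ⟨K, hK', hKA⟩ := mem_J.mp hA
      have hK : K ∈ HH m := mem_HH.mpr hK'
      rw [← Psi_apply] at hKA
      have hKs := S.small_zero_rel hfull hN hK (L := fun l => G l = 0) (a := m j)
        (fun l hl => by
          by_cases hlW : W l
          · exact Or.inl hlW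
          · exact Or.inr (Or.inl (hmin l ⟨hlW, hnd l hl⟩))) (by
          intro l hl v
          obtain ⟨c, hc⟩ := hprop' l hl v
          refine ⟨d' * c, ?_⟩
          change cD _ (Psi (d' + 1) p m K) = C (d' * c) * Psi (d' + 1) p m K
          rw [hKA]
          exact hcDA _ c hc)
      apply hk
      apply hT'
      rw [← hKA]
      apply Psi_mem_J_rs hK
      intro l hl
      apply hKs l (fun h => hl (Or.inl h))
      by_contra hcon'
      exact hl (Or.inr (Or.inl (by omega)))
    obtain ⟨w, hw, hwJ⟩ := hw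
    obtain ⟨v, hv0, hv⟩ := exists_ker_ne (gp1 S.hE (Sum.inl j))
      (evQ (QL E (Sum.inl j) q) (cr q w))
    apply hj
    apply S.top_step hWj hz (hfull j hjW a hz) hG hs hv _ (by
      intro v'
      change B (cD (mv E (Sum.inl j) v') (Psi (d' + 1) p m G)) F = 0
      rw [hGq, cDq, B_C_mul_left, hBw, mul_zero])
    change cD (mv E (Sum.inl j) v) (Psi (d' + 1) p m G) ∈ _
    rw [hGq, cDq]
    apply C_mul_mem
    obtain ⟨s, t, hst⟩ := exists_comb hw (show eval (QL E (Sum.inl j) q v) (xl q w) = 0 from hv0)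
    rw [show (fun l => mv E (Sum.inl j) v (q l)) = s • q + t • w from hst, lin_add, lin_smul,
      lin_smul, mul_add]
    apply Submodule.add_mem
    · have : lin q ^ d' * (C s * lin q) = C s * lin q ^ (d' + 1) := by
        rw [pow_succ]; ring
      rw [this]
      exact C_mul_mem _ hGW
    · have : lin q ^ d' * (C t * lin w) = C t * (lin q ^ d' * lin w) := by ring
      rw [this]
      exact C_mul_mem _ hwJ
  · -- outside of `W` all components are divisible, so at most one of them is not zero
    push Not at htop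
    by_cases hZ : ∃ e, ¬ W e ∧ G e ≠ 0
    · obtain ⟨e, he, hGe⟩ := hZ
      obtain ⟨s, n, G₁, e1, e2, e3, e4⟩ := S.exists_fact hG' (htop e he) hGe
      have h2 : 2 ≤ m e := by omega
      apply hfree e he h2
      rw [← hGq, Psi_apply]
      apply Submodule.sum_mem
      intro l _
      by_cases hl : l = e
      · subst hl
        have h7 : lin (p l) ^ (d' + 1 + 1 - m l) * G l =
            lin (p l) ^ (d' + 1 + 1 - Function.update (rs W m) l (m l - 1) l) *
              (lin (p l) ^ s * G₁) := by
          rw [Function.update_self, e1,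
            (by have := S.hm l; omega : d' + 1 + 1 - (m l - 1) = d' + 1 + 1 - m l + 1), pow_succ,
            pow_succ]
          ring
        rw [h7]
        apply summand_mem_J
        rw [Function.update_self, (by omega : m l - 1 = (s + n) + 1), mem_Hm_succ]
        exact (lin_isHomogeneous_pow (p l) s).mul e2
      · by_cases hWl : W l
        · have h7 : m l = Function.update (rs W m) e (m e - 1) l := by
            rw [Function.update_of_ne hl, rs_of hWl]
          rw [h7]
          apply summand_mem_J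
          rw [← h7]
          exact hG' l
        · have h8 : G l = 0 := by
            by_contra h
            exact hl (hlow l e h (htop l hWl) hGe (htop e he))
          rw [h8, mul_zero]
          exact zero_mem _
    · push Not at hZ
      apply hfree0
      rw [← hGq]
      exact Psi_mem_J_rs hG hZ

/-- no bad direction, by bootstrapping, relative version -/
theorem boot_rel_no_bad (S : Rigid d P E m F) {W : ι → Prop}
    (hfull : ∀ j, ¬ W j → ∀ a, 1 ≤ m j →
      Full d (fun i => P (Sum.inl i)) (rs (UpW W m j a) m) j ∨ (m j ≤ 2 ∧ Squarefree F))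
    (hfullW : ∀ j, W j → 1 ≤ m j → Full d (fun i => P (Sum.inl i)) (rs W m) j)
    (hN : ∀ G ∈ HH m, Psi d (fun i => P (Sum.inl i)) m G = 0 → G = 0)
    {a : ι} {u : V3} (hu : cr (P (Sum.inl a)) u ≠ 0) (h : BadDir d F (P (Sum.inl a)) (m a) u) :
    False := by
  classical
  rcases Nat.eq_zero_or_pos (m a) with h0 | hz
  · apply S.R0 a h0
    have := h.1
    rwa [h0, pow_zero, mul_one, Nat.sub_zero] at this
  set p : ι → V3 := fun i => P (Sum.inl i) with hp
  have hJ : lin (p a) ^ (d - m a) * lin u ^ m a ∈ J d p m := S.bad_mem_J h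
  obtain ⟨G, hG', hGq⟩ := mem_J.mp hJ
  have hG : G ∈ HH m := mem_HH.mpr hG'
  rw [← Psi_apply] at hGq
  have hma : lin u ^ (m a - 1) ∈ Hm (m a) := by
    obtain ⟨n, hn⟩ : ∃ n, m a = n + 1 := ⟨m a - 1, by omega⟩
    rw [hn, mem_Hm_succ, Nat.add_sub_cancel]
    exact lin_isHomogeneous_pow u n
  -- the derivative along the motion of another point
  have hcD : ∀ j, j ≠ a → ∀ v, cD (mv E (Sum.inl j) v) (Psi d p m G) =
      C (m a : ℂ) * (lin (p a) ^ (d - m a) * (lin u ^ (m a - 1) *
        lin (fun l => mv E (Sum.inl j) v (u l)))) := by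
    intro j hj v
    rw [hGq, cD_mul, cD_lin_pow_ne S.hE (by simpa using hj.symm), zero_mul, zero_add,
      cD_lin_pow_eq]
    ring
  -- expression when the derivative of `u` lies in the plane of `p a` and `u`
  have hexp : ∀ (s t : ℂ), C (m a : ℂ) * (lin (p a) ^ (d - m a) * (lin u ^ (m a - 1) *
        lin (s • p a + t • u))) =
      lin (p a) ^ (d + 1 - m a) * (C ((m a : ℂ) * s) * lin u ^ (m a - 1)) +
        C ((m a : ℂ) * t) * (lin (p a) ^ (d - m a) * lin u ^ m a) := by
    intro s t
    have e1 : lin (p a) ^ (d + 1 - m a) = lin (p a) ^ (d - m a) * lin (p a) := by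
      rw [← pow_succ]
      congr 1
      have := S.hm a
      omega
    have e2 : lin u ^ m a = lin u ^ (m a - 1) * lin u := by
      rw [← pow_succ]
      congr 1
      omega
    rw [e1, e2, lin_add, lin_smul, lin_smul, map_mul, map_mul]
    ring
  -- good directions for `j`
  have hgood : ∀ j, ∃ (v : V3) (s t : ℂ), cr (p j) v ≠ 0 ∧
      (fun l => mv E (Sum.inl j) v (u l)) = s • p a + t • u := by
    intro j
    obtain ⟨v, hv0, hv⟩ := exists_ker_ne (gp1 S.hE (Sum.inl j))
        (evQ (QL E (Sum.inl j) u) (cr (p a) u))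
    obtain ⟨s, t, hst⟩ := exists_comb hu
      (show eval (QL E (Sum.inl j) u v) (xl (p a) u) = 0 from hv0)
    exact ⟨v, s, t, hv, hst⟩
  -- the derivative as a combination
  have hX : ∀ (s t : ℂ), (Pi.single a (C ((m a : ℂ) * s) * lin u ^ (m a - 1)) +
      ((m a : ℂ) * t) • G : ι → R3) ∈ HH m := by
    intro s t
    apply Submodule.add_mem _ _ (Submodule.smul_mem _ _ hG)
    rw [mem_HH]
    intro i
    by_cases hia : i = a
    · subst hia
      rw [Pi.single_eq_same]
      exact C_mul_mem _ hma
    · rw [Pi.single_eq_of_ne hia]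
      exact zero_mem _
  have hXP : ∀ j, j ≠ a → ∀ (v : V3) (s t : ℂ),
      (fun l => mv E (Sum.inl j) v (u l)) = s • p a + t • u →
      Psi d p m (Pi.single a (C ((m a : ℂ) * s) * lin u ^ (m a - 1)) + ((m a : ℂ) * t) • G) =
        cD (mv E (Sum.inl j) v) (Psi d p m G) := by
    intro j hja v s t hst
    rw [hcD j hja v, hst, hexp, map_add, map_smul, hGq, smul_eq_C_mul]
    congr 1
    rw [Psi_apply, Finset.sum_eq_single a]
    · rw [Pi.single_eq_same]
    · intro i _ hia
      rw [Pi.single_eq_of_ne hia, mul_zero]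
    · intro h'
      exact absurd (Finset.mem_univ a) h'
  -- no divisible component
  have hlow : ∀ j, j ≠ a → G j ≠ 0 → ¬ lin (p j) ∣ G j := by
    intro j hja hne hdiv
    obtain ⟨s', e, G', hjG, hhom, hmj, hnd⟩ := S.exists_fact hG' hdiv hne
    obtain ⟨v, s, t, hv, hst⟩ := hgood j
    refine S.contra hN hG hjG hhom hmj hnd hv (hX s t) (hXP j hja v s t hst) ?_
    rw [Pi.add_apply, Pi.single_eq_of_ne hja, zero_add, Pi.smul_apply, smul_eq_C_mul, hjG]
    exact Dvd.dvd.mul_left (Dvd.intro _ rfl) _
  -- no component outside of `W`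
  have hzero : ∀ j, ¬ W j → j ≠ a → G j = 0 := by
    by_contra hcon
    push Not at hcon
    obtain ⟨j₁, hj₁W, hj₁, hj₁'⟩ := hcon
    obtain ⟨j, hj, hmin⟩ :=
      (Finset.univ.filter (fun j => ¬ W j ∧ j ≠ a ∧ G j ≠ 0)).exists_min_image m
        ⟨j₁, by simp [hj₁, hj₁', hj₁W]⟩
    simp only [Finset.mem_filter, Finset.mem_univ, true_and] at hj hmin
    obtain ⟨hjW, hja, hGj⟩ := hj
    have hz' : 1 ≤ m j := by
      by_contra h
      have h0 : m j = 0 := by omega
      have h3 := hG' j
      rw [h0, mem_Hm_zero] at h3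
      exact hGj h3
    have hs : ∀ l, ¬ UpW W m j a l → G l = 0 := by
      intro l hl
      by_contra h
      unfold UpW at hl
      push Not at hl
      have := hmin l ⟨hl.1, hl.2.2, h⟩
      omega
    obtain ⟨v, s, t, hv, hst⟩ := hgood j
    apply hlow j hja hGj
    apply S.top_step (W := UpW W m j a) (Or.inr (Or.inl le_rfl)) hz' (hfull j hjW a hz') hG hs hv
      _ (by
      intro v'
      change B (cD (mv E (Sum.inl j) v') (Psi d p m G)) F = 0
      rw [hcD j hja v', B_C_mul_left, h.2 hz, mul_zero])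
    change cD (mv E (Sum.inl j) v) (Psi d p m G) ∈ _
    rw [← hXP j hja v s t hst]
    apply Psi_mem_J_rs (hX s t)
    intro l hl
    have hla : l ≠ a := by
      rintro rfl
      exact hl (Or.inr (Or.inr rfl))
    rw [Pi.add_apply, Pi.single_eq_of_ne hla, zero_add, Pi.smul_apply, hs l hl, smul_zero]
  by_cases haW : W a
  · have hzero' : ∀ j, ¬ W j → G j = 0 := by
      intro j hj
      refine hzero j hj ?_
      rintro rfl
      exact hj haW
    have h1 : lin (p a) ∣ lin u ^ m a := by
      apply hfullW a haW hz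
      · rw [rs_of haW]
        exact lin_isHomogeneous_pow u (m a)
      · rw [rs_of haW]
        rw [← hGq]
        exact Psi_mem_J_rs hG hzero'
    exact hu (lin_dvd_lin ((lin_prime (gp1 S.hE _)).dvd_of_dvd_pow h1))
  · rcases hfull a haW a hz with hfa | ⟨h2, hsq⟩
    · have hself : rs (UpW W m a a) m a = m a := rs_of (Or.inr (Or.inl le_rfl))
      have h1 : lin (p a) ∣ lin u ^ m a := by
        apply hfa
        · rw [hself]
          exact lin_isHomogeneous_pow u (m a)
        · rw [hself]
          rw [← hGq]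
          apply Psi_mem_J_rs hG
          intro l hl
          refine hzero l (fun h => hl (Or.inl h)) ?_
          rintro rfl
          exact hl (Or.inr (Or.inr rfl))
      exact hu (lin_dvd_lin ((lin_prime (gp1 S.hE _)).dvd_of_dvd_pow h1))
    · exact S.no_bad_full hsq (fun h3 => absurd h3 (by omega)) hu h

end Rigid

end boot

/-- the multiple points in `I`, the points of multiplicity at least that of `j`, and the point `a`,
with the multiplicity at `j` raised by one -/
def upI {r : ℕ} (I : Finset (Fin r)) (m : Fin r → ℕ) (j a : Fin r) : Fin r → ℕ := fun i =>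
  if i = j then m j + 1 else if (i ∈ I ∧ m i ≠ 1) ∨ m j ≤ m i ∨ i = a then m i else 0

/-- **Smoothness by bootstrapping, relative to an arbitrary set of exempt points.** -/
theorem boot_rel_final {r d : ℕ} (p : Fin r → Fin 3 → ℂ) (hp : GenericPoints p) (m : Fin r → ℕ)
    (I : Finset (Fin r)) (hd : 1 ≤ d)
    (hreg : finrank ℂ (linSys d p m) + ∑ i, (m i + 1).choose 2 = (d + 2).choose 2)
    (hne : linSys d p m ≠ ⊥)
    (hB0 : finrank ℂ (linSys (d - 1) p (fun i => if i ∈ I then m i else 0)) +
      ∑ i ∈ I, (m i + 1).choose 2 = (d + 1).choose 2)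
    (hBe : ∀ e, e ∉ I → 2 ≤ m e →
      finrank ℂ (linSys (d - 1) p (fun i => if i ∈ I then m i else if i = e then m i - 1 else 0)) +
        (∑ i ∈ I, (m i + 1).choose 2 + (m e).choose 2) = (d + 1).choose 2)
    (hBi : ∀ i ∈ I, 2 ≤ m i →
      finrank ℂ (linSys d p (fun j => if j ∈ I then (if j = i then m i + 1 else m j) else 0)) +
        (∑ j ∈ I, (m j + 1).choose 2 + (m i + 1)) = (d + 2).choose 2)
    (hup : ∀ j a, j ∉ I → 3 ≤ m j → 2 ≤ m a →
      finrank ℂ (linSys d p (upI I m j a)) + ∑ i, (upI I m j a i + 1).choose 2 =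
        (d + 2).choose 2)
    (h2 : (∃ F ∈ linSys d p m, Squarefree F) ∨ ∀ j a, j ∉ I → m j = 2 → 2 ≤ m a →
      finrank ℂ (linSys d p (upI I m j a)) + ∑ i, (upI I m j a i + 1).choose 2 =
        (d + 2).choose 2) :
    (∃ F ∈ linSys d p m, Squarefree F) ∧
    (∀ s : Fin (finrank ℂ (linSys d p m) - 1) → Fin 3 → ℂ, GenericPoints (Sum.elim p s) →
      ∀ F ∈ linSys d p m, F ≠ 0 → (∀ k, eval (s k) F = 0) → SmoothOnBlowup p m F) ∧
    (∃ F ∈ linSys d p m, F ≠ 0 ∧ SmoothOnBlowup p m F) := by
  obtain ⟨d', rfl⟩ : ∃ d', d = d' + 1 := ⟨d - 1, by omega⟩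
  rw [Nat.add_sub_cancel] at hB0
  have hBe' : ∀ e, e ∉ I → 2 ≤ m e →
      finrank ℂ (linSys d' p (fun i => if i ∈ I then m i else if i = e then m i - 1 else 0)) +
        (∑ i ∈ I, (m i + 1).choose 2 + (m e).choose 2) = (d' + 2).choose 2 := hBe
  have hfin : Module.Finite ℂ (linSys (d' + 1) p m) :=
    Submodule.finiteDimensional_of_le (linSys_le (d' + 1) p _)
  obtain ⟨f₁, hf₁, hf₁0⟩ := Submodule.exists_mem_ne_zero_of_ne_bot hne
  have hm : ∀ i, m i ≤ d' + 1 := fun i => le_of_vanishTo hf₁.1 hf₁0 (hf₁.2 i)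
  -- the exempt set
  set W : IT m → Prop := Sum.elim (fun i => i.1 ∈ I) (fun _ => False) with hW
  have hWl : ∀ i : {i : Fin r // m i ≠ 1}, W (Sum.inl i) ↔ i.1 ∈ I := fun i => Iff.rfl
  have hmmd : ∀ x, mm m x ≤ d' + 1 := by
    rintro (⟨i, hi⟩ | x)
    · exact hm i
    · exact Nat.zero_le _
  have hsum : ∀ z : Fin r → ℕ, (∀ i ∉ I, z i = 0) →
      ∑ i, (z i + 1).choose 2 = ∑ i ∈ I, (z i + 1).choose 2 := by
    intro z hz
    symm
    apply Finset.sum_subset (Finset.subset_univ I)
    intro i _ hi
    rw [hz i hi]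
    rfl
  -- injectivity statements for the given points
  have iN : ∀ G ∈ HH m, Psi (d' + 1) p m G = 0 → G = 0 :=
    inj_of_finrank (fun i => (hm i).trans (Nat.le_succ _)) hreg
  set z0 : Fin r → ℕ := fun i => if i ∈ I then m i else 0 with hz0
  have iB0 : ∀ G ∈ HH z0, Psi d' p z0 G = 0 → G = 0 := by
    apply inj_of_finrank
    · intro i
      rw [hz0]
      simp only
      split_ifs
      · exact hm i
      · exact Nat.zero_le _
    · rw [← hB0, hsum z0 (fun i hi => if_neg hi)]
      congr 1
      refine Finset.sum_congr rfl (fun i hi => ?_)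
      rw [hz0]
      simp only
      rw [if_pos hi]
  have iBe : ∀ e, e ∉ I → 2 ≤ m e →
      ∀ G ∈ HH (fun i => if i ∈ I then m i else if i = e then m i - 1 else 0),
        Psi d' p (fun i => if i ∈ I then m i else if i = e then m i - 1 else 0) G = 0 →
          G = 0 := by
    intro e he h2
    apply inj_of_finrank
    · intro i
      have := hm i
      split_ifs <;> omega
    · rw [← hBe' e he h2]
      congr 1
      rw [← Finset.sum_add_sum_compl I]
      congr 1
      · refine Finset.sum_congr rfl (fun i hi => ?_)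
        rw [if_pos hi]
      · rw [Finset.sum_eq_single e]
        · rw [if_neg he, if_pos rfl, Nat.sub_add_cancel (by omega)]
        · intro i hi hie
          rw [if_neg (Finset.mem_compl.mp hi), if_neg hie]
          rfl
        · intro h'
          exact absurd (Finset.mem_compl.mpr he) h'
  have iBi : ∀ i ∈ I, 2 ≤ m i →
      ∀ G ∈ HH (fun j => if j ∈ I then (if j = i then m i + 1 else m j) else 0),
        Psi (d' + 1) p (fun j => if j ∈ I then (if j = i then m i + 1 else m j) else 0) G = 0 →
          G = 0 := by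
    intro i hi h2
    apply inj_of_finrank
    · intro j
      have := hm j
      have := hm i
      split_ifs <;> omega
    · rw [← hBi i hi h2, hsum _ (fun j hj => if_neg hj)]
      congr 1
      rw [← Finset.add_sum_erase I _ hi, ← Finset.add_sum_erase I (fun j => (m j + 1).choose 2) hi]
      rw [if_pos hi, if_pos rfl]
      have h5 : ∑ j ∈ I.erase i, ((if j ∈ I then (if j = i then m i + 1 else m j) else 0) + 1).choose 2
          = ∑ j ∈ I.erase i, (m j + 1).choose 2 := by
        refine Finset.sum_congr rfl (fun j hj => ?_)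
        rw [Finset.mem_erase] at hj
        rw [if_pos hj.2, if_neg hj.1]
      rw [h5]
      have h6 : (m i + 1 + 1).choose 2 = (m i + 1).choose 2 + (m i + 1) := by
        rw [Nat.choose_succ_succ' (m i + 1) 1, Nat.choose_one_right]
        ring
      omega
  -- the consequences on the configuration
  have main : ∀ (n : ℕ) (s : Fin n → V3) (t : Fin 4 → V3)
      (E : IT m ⊕ KT m n → Fin 3 → Derivation ℚ ℂ ℂ), IsDual (PP p s t m) E →
      (∀ G ∈ HH (mm m), Psi (d' + 1) (fun i => PP p s t m (Sum.inl i)) (mm m) G = 0 → G = 0) ∧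
      (∀ q : V3, q ≠ 0 →
        (∀ i : IT m, rs W (mm m) i ≠ 0 → cr (PP p s t m (Sum.inl i)) q ≠ 0) →
        lin q ^ (d' + 1) ∉ J (d' + 1) (fun i => PP p s t m (Sum.inl i)) (rs W (mm m))) ∧
      (∀ q : V3, q ≠ 0 →
        (∀ i : IT m, cr (PP p s t m (Sum.inl i)) q ≠ 0) → ∀ e, ¬ W e → 2 ≤ mm m e →
        lin q ^ (d' + 1) ∉ J (d' + 1) (fun i => PP p s t m (Sum.inl i))
          (Function.update (rs W (mm m)) e (mm m e - 1))) ∧
      (∀ j, W j → 1 ≤ mm m j →
        Rigid.Full (d' + 1) (fun i => PP p s t m (Sum.inl i)) (rs W (mm m)) j) := by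
    intro n s t E hE
    have hWz : ∀ i : {i : Fin r // m i ≠ 1}, rs W (mm m) (Sum.inl i) = z0 i.1 := by
      intro i
      rw [hz0]
      simp only
      by_cases hi : i.1 ∈ I
      · rw [if_pos hi, rs_of ((hWl i).mpr hi)]
        rfl
      · rw [if_neg hi, rs_not (fun h' => hi ((hWl i).mp h'))]
    have hW0 : ∀ x, rs W (mm m) (Sum.inr x) = 0 := fun x =>
      Nat.le_zero.mp (rs_le W (mm m) (Sum.inr x))
    have hrsd : ∀ x, rs W (mm m) x ≤ d' + 1 := fun x => (rs_le W _ x).trans (hmmd x)
    refine ⟨?_, ?_, ?_, ?_⟩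
    · exact inj_core (fun i => rfl) (fun x => rfl) iN
    · intro q hq0 hq
      exact free_of_inj hrsd (inj_core hWz hW0 iB0) hq0 hq
    · intro q hq0 hq e he h2
      rcases e with ⟨e, hem⟩ | x
      · have heI : e ∉ I := fun h' => he ((hWl ⟨e, hem⟩).mpr h')
        have h2' : 2 ≤ m e := h2
        apply free_of_inj _ (inj_core (z := fun i => if i ∈ I then m i else
          if i = e then m i - 1 else 0) _ _ (iBe e heI h2')) hq0 (fun i _ => hq i)
        · intro x
          by_cases hx : x = Sum.inl ⟨e, hem⟩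
          · rw [hx, Function.update_self]
            exact (Nat.sub_le _ _).trans (hm e)
          · rw [Function.update_of_ne hx]
            exact hrsd x
        · intro i
          by_cases hx : i.1 = e
          · have hx' : i = ⟨e, hem⟩ := Subtype.ext hx
            rw [hx', Function.update_self]
            change m e - 1 = _
            rw [if_neg heI, if_pos rfl]
          · rw [Function.update_of_ne (by
              intro h'
              exact hx (congrArg Subtype.val (Sum.inl.inj h'))), hWz i, hz0]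
            simp only
            rw [if_neg hx]
        · intro x
          rw [Function.update_of_ne (by simp)]
          exact hW0 x
      · change 2 ≤ 0 at h2
        omega
    · intro j hj h1
      rcases j with ⟨i, him⟩ | x
      · have hiI : i ∈ I := (hWl ⟨i, him⟩).mp hj
        have h1' : 1 ≤ m i := h1
        have h2 : 2 ≤ m i := by omega
        apply full_of_inj (hrsd _)
        apply inj_core (z := fun j => if j ∈ I then (if j = i then m i + 1 else m j) else 0) _ _
          (iBi i hiI h2)
        · intro j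
          by_cases hx : j.1 = i
          · have hx' : j = ⟨i, him⟩ := Subtype.ext hx
            have hz1 : z0 i = m i := if_pos hiI
            rw [hx', Function.update_self, hWz, if_pos hiI, if_pos rfl, hz1]
          · rw [Function.update_of_ne (by
              intro h'
              exact hx (congrArg Subtype.val (Sum.inl.inj h'))), hWz j, hz0]
            simp only
            rw [if_neg hx]
        · intro x
          rw [Function.update_of_ne (by simp)]
          exact hW0 x
      · exact absurd hj (by simp [hW])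
  -- completeness outside the exempt set
  have mainF : ∀ (n : ℕ) (s : Fin n → V3) (t : Fin 4 → V3) (j : {i : Fin r // m i ≠ 1})
      (a : IT m), j.1 ∉ I → 2 ≤ m j.1 → (∀ b, 2 ≤ m b →
        finrank ℂ (linSys (d' + 1) p (upI I m j.1 b)) + ∑ i, (upI I m j.1 b i + 1).choose 2 =
          (d' + 1 + 2).choose 2) →
      Rigid.Full (d' + 1) (fun i => PP p s t m (Sum.inl i))
        (rs (UpW W (mm m) (Sum.inl j) a) (mm m)) (Sum.inl j) := by
    rintro n s t ⟨j, hj⟩ a hjI hj2 hind
    have hself : rs (UpW W (mm m) (Sum.inl ⟨j, hj⟩) a) (mm m) (Sum.inl ⟨j, hj⟩) = m j :=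
      rs_of (Or.inr (Or.inl le_rfl))
    -- the point `a`
    obtain ⟨b, hb2, hb⟩ : ∃ b : Fin r, 2 ≤ m b ∧ ∀ i : {i : Fin r // m i ≠ 1},
        rs (UpW W (mm m) (Sum.inl ⟨j, hj⟩) a) (mm m) (Sum.inl i) =
          if (i.1 ∈ I ∧ m i.1 ≠ 1) ∨ m j ≤ m i.1 ∨ i.1 = b then m i.1 else 0 := by
      by_cases hab : ∃ b : {i : Fin r // m i ≠ 1}, a = Sum.inl b ∧ 2 ≤ m b.1
      · obtain ⟨b, rfl, hb2⟩ := hab
        refine ⟨b.1, hb2, fun i => ?_⟩
        by_cases hi : (i.1 ∈ I ∧ m i.1 ≠ 1) ∨ m j ≤ m i.1 ∨ i.1 = b.1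
        · rw [if_pos hi, rs_of]
          · rfl
          · rcases hi with ⟨hi, _⟩ | hi | hi
            · exact Or.inl hi
            · exact Or.inr (Or.inl hi)
            · exact Or.inr (Or.inr (congrArg Sum.inl (Subtype.ext hi)))
        · rw [if_neg hi, rs_not]
          rintro (h' | h' | h')
          · exact hi (Or.inl ⟨h', i.2⟩)
          · exact hi (Or.inr (Or.inl h'))
          · exact hi (Or.inr (Or.inr (congrArg Subtype.val (Sum.inl.inj h'))))
      · refine ⟨j, hj2, fun i => ?_⟩
        by_cases hi : (i.1 ∈ I ∧ m i.1 ≠ 1) ∨ m j ≤ m i.1 ∨ i.1 = j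
        · rw [if_pos hi, rs_of]
          · rfl
          · rcases hi with ⟨hi, _⟩ | hi | hi
            · exact Or.inl hi
            · exact Or.inr (Or.inl hi)
            · right
              left
              change m j ≤ m i.1
              rw [hi]
        · rw [if_neg hi]
          by_cases hia : (Sum.inl i : IT m) = a
          · have h3 : m i.1 < 2 := by
              by_contra hcon
              exact hab ⟨i, hia.symm, by omega⟩
            have h4 := i.2
            have h5 : m i.1 = 0 := by omega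
            have h6 := rs_le (UpW W (mm m) (Sum.inl ⟨j, hj⟩) a) (mm m) (Sum.inl i)
            change _ ≤ m i.1 at h6
            omega
          · apply rs_not
            rintro (h' | h' | h')
            · exact hi (Or.inl ⟨h', i.2⟩)
            · exact hi (Or.inr (Or.inl h'))
            · exact hia h'
    have iU : ∀ G ∈ HH (upI I m j b), Psi (d' + 1) p (upI I m j b) G = 0 → G = 0 := by
      apply inj_of_finrank _ (hind b hb2)
      intro i
      have h5 := hm i
      have h6 : m j ≤ d' + 1 := hm j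
      change upI I m j b i ≤ d' + 1 + 1
      unfold upI
      split_ifs <;> omega
    apply full_of_inj
    · rw [hself]
      exact hm j
    · apply inj_core (z := upI I m j b) _ _ iU
      · intro i
        by_cases hx : i.1 = j
        · have hx' : i = ⟨j, hj⟩ := Subtype.ext hx
          rw [hx', Function.update_self, hself]
          unfold upI
          rw [if_pos rfl]
        · rw [Function.update_of_ne (by
            intro h'
            exact hx (congrArg Subtype.val (Sum.inl.inj h'))), hb i]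
          unfold upI
          rw [if_neg hx]
      · intro x
        rw [Function.update_of_ne (by simp)]
        exact Nat.le_zero.mp (rs_le _ (mm m) (Sum.inr x))
  have hpos : 0 < finrank ℂ (linSys (d' + 1) p m) := by
    rw [Module.finrank_pos_iff_exists_ne_zero]
    exact ⟨⟨f₁, hf₁⟩, fun h => hf₁0 (congrArg Subtype.val h)⟩
  set n := finrank ℂ (linSys (d' + 1) p m) - 1 with hn
  have hn' : n + 1 = finrank ℂ (linSys (d' + 1) p m) := by omega
  have key : ∀ s : Fin n → V3, GenericPoints (Sum.elim p s) →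
      ∃ (t : Fin 4 → V3) (E : IT m ⊕ KT m n → Fin 3 → Derivation ℚ ℂ ℂ),
        IsDual (PP p s t m) E := by
    intro s hs
    obtain ⟨t, ht⟩ := exists_extension (κ := Fin 4) (Sum.elim p s) hs
    obtain ⟨E, hE⟩ := exists_dual _ (PP_generic p s t m ht)
    exact ⟨t, E, hE⟩
  have hsmooth : ∀ s : Fin n → V3, GenericPoints (Sum.elim p s) →
      ∀ F ∈ linSys (d' + 1) p m, F ≠ 0 → (∀ k, eval (s k) F = 0) →
        SmoothOnBlowup p m F ∧ Squarefree F := by
    intro s hs F hF hF0 hFs
    obtain ⟨t, E, hE⟩ := key s hs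
    have S := rigid_of hE hm hn' hF hF0 hFs
    have hfull : ∀ j, ¬ W j → ∀ a, 1 ≤ mm m j →
        Rigid.Full (d' + 1) (fun i => PP p s t m (Sum.inl i)) (rs (UpW W (mm m) j a) (mm m)) j ∨
          (mm m j ≤ 2 ∧ Squarefree F) := by
      intro j hjW a h1
      rcases j with j | x
      · have h1' : 1 ≤ m j.1 := h1
        have hj1 := j.2
        have hjI : j.1 ∉ I := fun h' => hjW ((hWl j).mpr h')
        by_cases h3 : 3 ≤ m j.1
        · exact Or.inl (mainF n s t j a hjI (by omega) (fun b hb => hup j.1 b hjI h3 hb))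
        · have h4 : m j.1 = 2 := by omega
          rcases h2 with ⟨f₀, hf₀, hsq₀⟩ | h2
          · refine Or.inr ⟨h4.le, S.squarefree (f₀ := f₀) ?_ hsq₀⟩
            rw [linSys_core]
            refine ⟨hf₀.1, fun i => ?_⟩
            apply (hf₀.2 i).mono
            unfold dropSimple
            split_ifs <;> omega
          · exact Or.inl (mainF n s t j a hjI (by omega) (fun b hb => h2 j.1 b hjI h4 hb))
      · change 1 ≤ 0 at h1
        omega
    obtain ⟨m0, m1, m2, m3⟩ := main n s t E hE
    have hns : ∀ q : V3, q ≠ 0 → (∀ i : IT m, cr (PP p s t m (Sum.inl i)) q ≠ 0) →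
        eval q F = 0 → (∀ k, eval q (pderiv k F) = 0) → False := fun q hq0 hq hqF hqs =>
      S.boot_rel_no_singularity hfull m0 hq0 (m1 q hq0 (fun i _ => hq i)) (m2 q hq0 hq) hqF hqs
    refine ⟨rel_smooth_of S hF hns ?_, ?_⟩
    · intro i u hu hbad
      exact S.boot_rel_no_bad hfull m3 m0 hu hbad
    · exact squarefree_of_no_sing (fun i : IT m => gp1 hE (Sum.inl i)) hF.1 hF0 hns
  obtain ⟨s, hs⟩ := exists_extension (κ := Fin n) p hp
  obtain ⟨t, E, hE⟩ := key s hs
  obtain ⟨F, hF, hF0, hFs⟩ := exists_rigid hE hm hn'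
  obtain ⟨h1, h3⟩ := hsmooth s hs F hF hF0 hFs
  exact ⟨⟨F, hF, h3⟩, fun s hs F hF hF0 hFs => (hsmooth s hs F hF hF0 hFs).1, F, hF, hF0, h1⟩

end Pool.Agent.Work.MP_0421d9_ag
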