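import Pool.Agent.Work.MP_0421d9_ag.ZSWin
import Pool.Agent.Work.MP_0421d9_ag.ZERel

/-!
The relative theorem, both halves, and its application to the systems with many conditions imposed
by the points with `m i ^ (2 + 1 / A) ≤ d (M / d) ^ A`.
-/

namespace Pool.Agent.Work.MP_0421d9_ag.ZE

open MvPolynomial Module SM ZC LD

/-- **The relative theorem, smoothness.** -/
theorem rel_not_bad {ε : ℝ} (hε : 0 < ε) : ∃ c : ℝ, 0 < c ∧ ∀ (r d t u M : ℕ)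
    (p : Fin r → V3) (m : Fin r → ℕ) (B : Finset (Fin r)), GenericPoints p → 1 ≤ u →
    (∀ i, m i ≤ M) → (∀ i, i ∉ B → m i ≤ u) → t ≤ d → Rg (d - t) (onB B m) →
    c * (u : ℝ) ^ (1 + ε) ≤ t → c * (u : ℝ) ^ (2 + ε) * M ≤ (t : ℝ) * d →
    ∀ s : Fin (finrank ℂ (linSys d p m) - 1) → Fin 3 → ℂ, GenericPoints (Sum.elim p s) →
      ∀ F ∈ linSys d p m, F ≠ 0 → (∀ k, eval (s k) F = 0) → ¬ Bad d p m F :=
  rel_not_bad_of (fun _ h => rel_all h) hε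

/-- many conditions imposed by the points of small multiplicity -/
theorem small_window {A : ℝ} (hA : 0 < A) : ∃ R : ℝ, ∀ (r d M : ℕ) (p : Fin r → V3)
    (m : Fin r → ℕ), GenericPoints p → 1 ≤ M → (∀ i, m i ≤ M) → R * M ≤ d →
    ((d : ℝ) / M) ^ A < M →
    |((d + 2).choose 2 : ℝ) - ∑ i, ((m i + 1).choose 2 : ℝ)| < (M : ℝ) ^ 2 * ((M : ℝ) / d) ^ A →
    (d : ℝ) ^ 2 * ((M : ℝ) / d) ^ A ≤
      ∑ i, (if (m i : ℝ) ^ (2 + 1 / A) ≤ d * ((M : ℝ) / d) ^ A then ((m i + 1).choose 2 : ℝ)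
        else 0) →
    finrank ℂ (linSys d p m) = (d + 2).choose 2 - ∑ i, (m i + 1).choose 2 ∧
    ∀ s : Fin (finrank ℂ (linSys d p m) - 1) → Fin 3 → ℂ, GenericPoints (Sum.elim p s) →
      ∀ F ∈ linSys d p m, F ≠ 0 → (∀ k, eval (s k) F = 0) → ¬ Bad d p m F := by
  have hε : 0 < 1 / (2 * A) := by positivity
  obtain ⟨C, hC⟩ := rel_all hε
  obtain ⟨c, hc, h⟩ := rel_not_bad hε
  obtain ⟨Q, hQ⟩ : ∃ Q, Q = max C c := ⟨_, rfl⟩
  have hCQ : C ≤ Q := hQ ▸ le_max_left _ _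
  have hcQ : c ≤ Q := hQ ▸ le_max_right _ _
  obtain ⟨R, hR⟩ := small_data (C := Q) hA
  refine ⟨R, fun r d M p m hp hM hm hd hx hW hS => ?_⟩
  obtain ⟨u, t, B, hu, hmu, htd, hRg, h1, h2⟩ := hR r d M m hM hm hd hx hW hS
  have hu1 : (1 : ℝ) ≤ u := by exact_mod_cast hu
  have hM0 : (0 : ℝ) ≤ M := Nat.cast_nonneg M
  have hle : ∀ z : ℝ, z ≤ Q → z * (u : ℝ) ^ (1 + 1 / (2 * A)) ≤ t := fun z hz =>
    (mul_le_mul_of_nonneg_right hz (by positivity)).trans h1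
  have hle2 : ∀ z : ℝ, z ≤ Q → z * (u : ℝ) ^ (2 + 1 / (2 * A)) * M ≤ (t : ℝ) * d := fun z hz =>
    (mul_le_mul_of_nonneg_right (mul_le_mul_of_nonneg_right hz (by positivity)) hM0).trans h2
  refine ⟨?_, h r d t u M p m B hp hu hm hmu htd hRg (hle c hcQ) (hle2 c hcQ)⟩
  rw [hPm_eq hp]
  refine hC r d t u M m B hu hm hmu htd hRg (hle C hCQ) ?_
  have h3 : C * (u : ℝ) ^ 2 * M ≤ Q * (u : ℝ) ^ 2 * M :=
    mul_le_mul_of_nonneg_right (mul_le_mul_of_nonneg_right hCQ (by positivity)) hM0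
  refine h3.trans (le_trans ?_ h2)
  refine mul_le_mul_of_nonneg_right ?_ hM0
  refine mul_le_mul_of_nonneg_left ?_ (by linarith)
  rw [← Real.rpow_natCast]
  apply Real.rpow_le_rpow_of_exponent_le hu1
  push_cast
  linarith

end Pool.Agent.Work.MP_0421d9_ag.ZE
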