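import Pool.Agent.Work.MP_0421d9_ag.ZSStep
import Pool.Agent.Work.MP_0421d9_ag.ZLvNum
import Pool.Agent.Work.MP_0421d9_ag.ZPC2

/-!
The relative theorem: the points of `B` impose independent conditions in degree `d - t`, the other
multiplicities are at most `u`, and `t ≥ C u ^ (1 + ε)`, `t d ≥ C u ^ 2 M`.
-/

namespace Pool.Agent.Work.MP_0421d9_ag.LD

open MvPolynomial Module

theorem rel_level (n : ℕ) : ∃ R₀ G : ℕ, 1 ≤ G ∧ ∀ R, R₀ ≤ R →
    ∀ (r D t u M : ℕ) (m : Fin r → ℕ) (B : Finset (Fin r)), 1 ≤ u → u ≤ M → u ≤ R ^ n →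
      (∀ i, m i ≤ M) → (∀ i, i ∉ B → m i ≤ u) → t ≤ D → Rg (D - t) (onB B m) → R * u ≤ t →
      G * u ^ 2 * M ≤ t * D → hPm D m = (D + 2).choose 2 - ∑ i, (m i + 1).choose 2 := by
  obtain ⟨G₁, A₁, hC2⟩ := plane_C2
  obtain ⟨K, hK⟩ : ∃ K, K = n + 3 := ⟨_, rfl⟩
  obtain ⟨G, hG⟩ : ∃ G, G = 2 ^ (2 * K + 8) + G₁ := ⟨_, rfl⟩
  obtain ⟨X, hX⟩ : ∃ X, X = 1000 * G := ⟨_, rfl⟩
  have hG1 : 1 ≤ G := by
    have : 1 ≤ 2 ^ (2 * K + 8) := Nat.one_le_two_pow
    omega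
  have hX1 : 1 ≤ X := by omega
  obtain ⟨R₁, hpar⟩ := zp_params (2 * (n + 1)) (2 * (n + 1)) K G X A₁ le_rfl
  refine ⟨R₁ + X + (2 ^ (2 * K + 3) * df K) * X ^ (2 * K - 1), 32 * G, by omega,
    fun R hR r D t u M m B hu huM huR hM hmu htD hB hRt hgain => ?_⟩
  obtain ⟨s, q, p, J, hW, hq, ha2, hRs, hp, hJ, hR1, hR2, hR4⟩ := hpar R (by omega)
  have hT1 : 1 ≤ (s + 1) ^ (2 * (n + 1)) := Nat.one_le_pow _ _ (Nat.succ_pos s)
  have hR0 : 1 ≤ R := by omega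
  have hRT : R ^ (n + 1) ≤ (s + 1) ^ (2 * (n + 1)) := by
    rw [pow_mul]
    exact Nat.pow_le_pow_left hRs _
  have huT : u ≤ (s + 1) ^ (2 * (n + 1)) :=
    huR.trans ((Nat.pow_le_pow_right hR0 (Nat.le_succ n)).trans hRT)
  have hRD : R * u ≤ D := hRt.trans htD
  refine rel_step (J := J) hC2 hW hT1 hq ha2 (by omega) hp (hG.ge.trans' (Nat.le_add_right _ _))
    (hG.ge.trans' (Nat.le_add_left _ _)) hX.ge ?_ hR2 hR4 ?_ hu huM hM hmu htD hB hRt ?_ ?_ hgain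
  · refine le_trans ?_ hR1
    calc 128 * J ≤ 128 * J * G := Nat.le_mul_of_pos_right _ hG1
      _ ≤ 10 ^ 6 * J * G := by
        apply Nat.mul_le_mul_right
        apply Nat.mul_le_mul_right
        norm_num
  · refine le_trans ?_ hJ
    have h1 : Nat.log 2 (u + 1) ≤ Nat.log 2 ((s + 1) ^ (2 * (n + 1)) + 1) :=
      Nat.log_mono_right (Nat.add_le_add_right huT 1)
    gcongr
  · -- `X u² ≤ T D`
    calc X * u ^ 2 = u * (X * u) := by ring
      _ ≤ (s + 1) ^ (2 * (n + 1)) * D :=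
        Nat.mul_le_mul huT ((Nat.mul_le_mul_right u (by omega)).trans hRD)
  · -- the power
    obtain ⟨k, hk⟩ : ∃ k, 2 * K = k + 1 := ⟨2 * K - 1, by omega⟩
    have hk1 : 2 * K - 1 = k := by omega
    rw [hk1] at hR ⊢
    have h1 : u ≤ R ^ (k - 1) := huR.trans (Nat.pow_le_pow_right hR0 (by omega))
    calc 2 ^ (2 * K + 3) * df K * u ^ (2 * K) * X ^ k
        = ((2 ^ (2 * K + 3) * df K) * X ^ k) * u * u ^ k := by
          rw [hk]
          ring
      _ ≤ R * R ^ (k - 1) * u ^ k := by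
          apply Nat.mul_le_mul_right
          exact Nat.mul_le_mul (by omega) h1
      _ = (R * u) ^ k := by
          rw [mul_pow, ← pow_succ']
          congr 2
          omega
      _ ≤ D ^ k := Nat.pow_le_pow_left hRD k

/-- **The relative theorem.** -/
theorem rel_all {ε : ℝ} (hε : 0 < ε) : ∃ C : ℝ, ∀ (r d t u M : ℕ) (m : Fin r → ℕ)
    (B : Finset (Fin r)), 1 ≤ u → (∀ i, m i ≤ M) → (∀ i, i ∉ B → m i ≤ u) → t ≤ d →
      Rg (d - t) (onB B m) → C * (u : ℝ) ^ (1 + ε) ≤ t → C * (u : ℝ) ^ 2 * M ≤ (t : ℝ) * d →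
      hPm d m = (d + 2).choose 2 - ∑ i, (m i + 1).choose 2 := by
  obtain ⟨n, hn⟩ := exists_nat_ge (1 / ε)
  have hn0 : 0 < n := by
    rcases Nat.eq_zero_or_pos n with h | h
    · rw [h, Nat.cast_zero] at hn
      have : 0 < 1 / ε := by positivity
      linarith
    · exact h
  have hnR : (0 : ℝ) < n := by exact_mod_cast hn0
  obtain ⟨R₀, G, hG, hlev⟩ := rel_level n
  refine ⟨R₀ + G + 2, fun r d t u M m B hu hM hmu htd hB ht hgain => ?_⟩
  have hu1 : (1 : ℝ) ≤ u := by exact_mod_cast hu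
  -- the root
  obtain ⟨z, hz⟩ : ∃ z, z = ⌈(u : ℝ) ^ ((1 : ℝ) / n)⌉₊ := ⟨_, rfl⟩
  have hroot1 : (1 : ℝ) ≤ (u : ℝ) ^ ((1 : ℝ) / n) := Real.one_le_rpow hu1 (by positivity)
  have hz1 : (u : ℝ) ^ ((1 : ℝ) / n) ≤ z := by
    rw [hz]
    exact Nat.le_ceil _
  have hz2 : (z : ℝ) ≤ (u : ℝ) ^ ((1 : ℝ) / n) + 1 := by
    rw [hz]
    exact (Nat.ceil_lt_add_one (by positivity)).le
  have huz : u ≤ z ^ n := by
    have h1 : (u : ℝ) ≤ (z : ℝ) ^ n := by
      calc (u : ℝ) = ((u : ℝ) ^ ((1 : ℝ) / n)) ^ n := by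
            rw [← Real.rpow_natCast, ← Real.rpow_mul (by positivity), one_div,
              inv_mul_cancel₀ hnR.ne', Real.rpow_one]
        _ ≤ (z : ℝ) ^ n := pow_le_pow_left₀ (by positivity) hz1 n
    exact_mod_cast h1
  have huR : u ≤ (R₀ + z) ^ n := huz.trans (Nat.pow_le_pow_left (by omega) n)
  have hRu : (((R₀ + z) * u : ℕ) : ℝ) ≤ t := by
    push_cast
    refine le_trans ?_ ht
    have h3 : (u : ℝ) ^ ((1 : ℝ) / n) ≤ (u : ℝ) ^ ε := by
      apply Real.rpow_le_rpow_of_exponent_le hu1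
      rw [div_le_iff₀ hnR]
      rw [div_le_iff₀ hε] at hn
      linarith
    have h4 : (u : ℝ) ^ (1 + ε) = u * (u : ℝ) ^ ε := by
      rw [Real.rpow_add (by positivity), Real.rpow_one]
    have h5 : (1 : ℝ) ≤ (u : ℝ) ^ ε := hroot1.trans h3
    rw [h4]
    have hG0 : (0 : ℝ) ≤ G := Nat.cast_nonneg G
    have h6 : ((R₀ : ℝ) + z) ≤ (R₀ + G + 2) * (u : ℝ) ^ ε := by
      have h7 : (R₀ : ℝ) ≤ R₀ * (u : ℝ) ^ ε := le_mul_of_one_le_right (by positivity) h5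
      nlinarith
    calc ((R₀ : ℝ) + z) * u ≤ ((R₀ + G + 2) * (u : ℝ) ^ ε) * u :=
          mul_le_mul_of_nonneg_right h6 (by positivity)
      _ = (R₀ + G + 2) * (u * (u : ℝ) ^ ε) := by ring
  have hRu' : (R₀ + z) * u ≤ t := by exact_mod_cast hRu
  have hz0 : 1 ≤ z := by
    by_contra h
    have h1 : z = 0 := by omega
    rw [h1, zero_pow (by omega)] at huz
    omega
  have hGt : G ≤ t := by
    have h1 : (G : ℝ) ≤ t := by
      refine le_trans ?_ ht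
      have h2 : (1 : ℝ) ≤ (u : ℝ) ^ (1 + ε) := Real.one_le_rpow hu1 (by positivity)
      have h3 : (0 : ℝ) ≤ R₀ := Nat.cast_nonneg _
      have h4 : (0 : ℝ) ≤ G := Nat.cast_nonneg _
      nlinarith
    exact_mod_cast h1
  have hgain' : G * u ^ 2 * M ≤ t * d := by
    have h1 : ((G * u ^ 2 * M : ℕ) : ℝ) ≤ ((t * d : ℕ) : ℝ) := by
      push_cast
      refine le_trans ?_ hgain
      have h3 : (0 : ℝ) ≤ R₀ := Nat.cast_nonneg _
      have h4 : (0 : ℝ) ≤ (u : ℝ) ^ 2 * M := by positivity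
      nlinarith
    exact_mod_cast h1
  rcases Nat.eq_zero_or_pos M with hM0 | hM0
  · -- all the multiplicities vanish
    refine hlev (R₀ + z) (by omega) r d t 1 1 m B le_rfl le_rfl (by
        exact Nat.one_le_pow _ _ (by omega)) (fun i => (hM i).trans (by omega))
      (fun i _ => (hM i).trans (by omega)) htd hB ?_ ?_
    · exact le_trans (Nat.mul_le_mul_left _ hu) hRu'
    · calc G * 1 ^ 2 * 1 = G := by ring
        _ ≤ t := hGt
        _ ≤ t * d := Nat.le_mul_of_pos_right _ (by omega)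
  · rcases Nat.le_total u M with huM | huM
    · exact hlev (R₀ + z) (by omega) r d t u M m B hu huM huR hM hmu htd hB hRu' hgain'
    · refine hlev (R₀ + z) (by omega) r d t M M m B hM0 le_rfl (huM.trans huR) hM
        (fun i _ => hM i) htd hB (le_trans (Nat.mul_le_mul_left _ huM) hRu') ?_
      exact le_trans (Nat.mul_le_mul_right _ (Nat.mul_le_mul_left _
        (Nat.pow_le_pow_left huM 2))) hgain'

end Pool.Agent.Work.MP_0421d9_ag.LD
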