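import Pool.Agent.Work.MP_0421d9_ag.ZPPath
import Pool.Agent.Work.MP_0421d9_ag.LGen
import Pool.Agent.Work.MP_0421d9_ag.KSqrt

/-!
The relative path: the points of large multiplicity impose independent conditions in degree `D - t`,
strips are taken from the other points, and the leaves are treated with the two-scale window.
-/

namespace Pool.Agent.Work.MP_0421d9_ag.LD

open MvPolynomial Module

/-- the indices of the multiplicities greater than `u` -/
noncomputable def bigs {r : ℕ} (u : ℕ) (m : Fin r → ℕ) : Finset (Fin r) :=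
  Finset.univ.filter (fun i => u < m i)

theorem mem_bigs {r u : ℕ} {m : Fin r → ℕ} {i : Fin r} : i ∈ bigs u m ↔ u < m i := by
  simp [bigs]

/-- the two-scale window -/
theorem zs_win {r D u M : ℕ} {y : Fin r → ℕ} {B : Finset (Fin r)} (huM : u ≤ M)
    (hM : ∀ i, y i ≤ M) (hu : ∀ i, i ∉ B → y i ≤ u) (hB : Rg D (onB B y)) (h0 : hPm D y ≠ 0)
    {S : ℕ} (hS : hPm D y + ∑ i, (y i + 1).choose 2 = (D + 2).choose 2 + S) (hS1 : 1 ≤ S) :
    hPm D y + S ≤ u * M := by
  have hne : linSys D (gpt r) y ≠ ⊥ := by
    intro h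
    apply h0
    unfold hPm
    rw [h, finrank_bot]
  obtain ⟨k, e, S', hk, he, hke, hS', hSe, hle⟩ := kq_window (gpt_generic r) huM hM B hu hB hne
    (by
      change hPm D y + _ ≠ _
      omega)
  change hPm D y + _ = _ at hSe
  change e * hPm D y + _ ≤ _ at hle
  have hSS : S' = S := by omega
  rw [hSS] at hle
  have h1 : hPm D y ≤ k * M := by
    have h2 : e * hPm D y ≤ e * (k * M) := by
      calc e * hPm D y ≤ k * e * M := le_trans (Nat.le_add_right _ _) hle
        _ = e * (k * M) := by ring
    exact Nat.le_of_mul_le_mul_left h2 he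
  have h3 : S ≤ e * M := by
    have h2 : k * S ≤ k * (e * M) := by
      calc k * S ≤ k * e * M := le_trans (Nat.le_add_left _ _) hle
        _ = k * (e * M) := by ring
    exact Nat.le_of_mul_le_mul_left h2 hk
  calc hPm D y + S ≤ k * M + e * M := Nat.add_le_add h1 h3
    _ = (k + e) * M := by ring
    _ = u * M := by rw [hke]

/-- the greatest multiplicity in a pool -/
theorem pool_max {r : ℕ} {P : ℕ → ℕ} {y : Fin r → ℕ} {B s : ℕ} (hB : 1 ≤ B)
    (h : B ≤ psum P y s) :
    ∃ v, 1 ≤ v ∧ P v = s ∧ (∀ i, P (y i) = s → y i ≤ v) := by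
  classical
  have hne : (Finset.univ.filter (fun i => P (y i) = s)).Nonempty := by
    rw [Finset.nonempty_iff_ne_empty]
    intro h1
    rw [psum_eq_filter, h1, Finset.sum_empty] at h
    omega
  obtain ⟨i, hi, hmax⟩ := Finset.exists_max_image _ y hne
  have hi' := (Finset.mem_filter.1 hi).2
  refine ⟨y i, ?_, hi', fun j hj => hmax j (Finset.mem_filter.2 ⟨Finset.mem_univ _, hj⟩)⟩
  by_contra h0
  have h1 : psum P y s = 0 := by
    rw [psum_eq_filter]
    refine Finset.sum_eq_zero fun j hj => ?_
    have := hmax j hj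
    omega
  omega

theorem path_rel {J G D t u M r p U : ℕ} {P : ℕ → ℕ}
    (hP : Pools P p U u J) (hPu : ∀ v, P v < J → v ≤ u) (hG : 1 ≤ G)
    {m : Fin r → ℕ} (hu : 1 ≤ u) (huM : u ≤ M) (hM : ∀ i, m i ≤ M)
    (hreg : Rg (D - t) (onB (bigs u m) m)) (htD : t ≤ D) (ht : 4 * u + 2 ≤ t)
    (hgain : 8 * G * u ^ 2 * M ≤ t * D)
    (hoff : 8 * J * D + G * u * M ≤ ∑ i, if m i ≤ u then m i else 0)
    (hstrip : ∀ (D' s v : ℕ) (y : Fin r → ℕ), D ≤ 2 * D' → D' ≤ D → 1 ≤ v → v ≤ u →
      P v = s → (∀ i, P (y i) = s → y i ≤ v) →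
      8 * D' ≤ ∑ i ∈ Finset.univ.filter (fun i => P (y i) = s), y i →
      StripGain D' G (Finset.univ.filter (fun i => P (y i) = s)) y v) :
    hPm D m = (D + 2).choose 2 - ∑ i, (m i + 1).choose 2 := by
  classical
  obtain ⟨cn, hcn⟩ : ∃ cn : (Fin r → ℕ) → ℕ, ∀ y, cn y = ∑ i, (y i + 1).choose 2 :=
    ⟨_, fun _ => rfl⟩
  obtain ⟨S₀, hS₀⟩ : ∃ S₀, S₀ = ∑ i, m i := ⟨_, rfl⟩
  -- the leaves
  have hleaf : ∀ (D' : ℕ) (y : Fin r → ℕ), D ≤ D' + t → (∀ i, y i = m i ∨ y i = 0) →
      (∀ i, y i ≠ m i → m i ≤ u) → ∑ i, y i + G * u * M ≤ S₀ →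
      ∀ U S : ℕ, S₀ ≤ G * (U + S) + ∑ i, y i →
      (hPm D' y : ℤ) ≤ max (U : ℤ)
        ((((D' + 2).choose 2 : ℕ) : ℤ) - (cn y : ℤ) + S) := by
    intro D' y h1 h3 h4 h5 U S h6
    by_contra hcon
    push Not at hcon
    rw [max_lt_iff] at hcon
    obtain ⟨hc1, hc2⟩ := hcon
    have hUS : u * M ≤ U + S := by
      have h7 : G * (u * M) ≤ G * (U + S) := by
        have h8 : G * u * M = G * (u * M) := Nat.mul_assoc _ _ _
        omega
      exact Nat.le_of_mul_le_mul_left h7 hG
    have hyM : ∀ i, y i ≤ M := by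
      intro i
      rcases h3 i with h | h
      · rw [h]; exact hM i
      · rw [h]; exact Nat.zero_le _
    have hyu : ∀ i, i ∉ bigs u m → y i ≤ u := by
      intro i hi
      rw [mem_bigs, not_lt] at hi
      rcases h3 i with h | h
      · rw [h]; exact hi
      · rw [h]; exact Nat.zero_le _
    have hB : Rg D' (onB (bigs u m) y) := by
      have h7 : onB (bigs u m) y = onB (bigs u m) m := by
        funext i
        unfold onB
        split_ifs with h
        · rw [mem_bigs] at h
          by_contra h8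
          have := h4 i h8
          omega
        · rfl
      rw [h7]
      exact hreg.mono (by omega)
    have hcnt := hcn y
    obtain ⟨S', hS'⟩ : ∃ S', hPm D' y + ∑ i, (y i + 1).choose 2 = (D' + 2).choose 2 + S' := by
      rw [← hcnt]
      exact ⟨hPm D' y + cn y - (D' + 2).choose 2, by omega⟩
    rw [← hcnt] at hS'
    have h8 := zs_win huM hyM hyu hB (by omega) (S := S') (by rw [← hcnt]; exact hS') (by omega)
    omega
  -- the main claim
  have key : ∀ (n D' : ℕ) (y : Fin r → ℕ), D' ≤ n → D ≤ D' + t → D' ≤ D →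
      (∀ i, y i = m i ∨ y i = 0) → (∀ i, y i ≠ m i → m i ≤ u) →
      (D + 2).choose 2 + 2 * cn y ≤ 2 * cn m + (D' + 2).choose 2 →
      ∀ U S : ℕ, S₀ ≤ G * (U + S) + ∑ i, y i →
      (hPm D' y : ℤ) ≤ max (U : ℤ)
        ((((D' + 2).choose 2 : ℕ) : ℤ) - (cn y : ℤ) + S) := by
    -- few used rows and a pool is available
    have hused : ∀ (D' : ℕ) (y : Fin r → ℕ), D' ≤ D → (∀ i, y i = m i ∨ y i = 0) →
        (∀ i, y i ≠ m i → m i ≤ u) →
        (D + 2).choose 2 + 2 * cn y ≤ 2 * cn m + (D' + 2).choose 2 → 2 * D' + t < 2 * D →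
        ∑ i, y i + G * u * M ≤ S₀ := by
      intro D' y h2 h3 h4 h5 h6
      obtain ⟨w, rfl⟩ : ∃ w, D = D' + w := ⟨D - D', by omega⟩
      have f1 := two_choose (D' + w + 1)
      have f2 := two_choose (D' + 1)
      have e1 : D' + w + 1 + 1 = D' + w + 2 := rfl
      have e2 : D' + 1 + 1 = D' + 2 := rfl
      rw [e1] at f1
      rw [e2] at f2
      have f3 : 2 * cn m + (u + 1) * ∑ i, y i ≤ 2 * cn y + (u + 1) * ∑ i, m i := by
        rw [hcn, hcn, Finset.mul_sum, Finset.mul_sum, Finset.mul_sum, Finset.mul_sum,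
          ← Finset.sum_add_distrib, ← Finset.sum_add_distrib]
        refine Finset.sum_le_sum fun i _ => ?_
        rw [two_choose, two_choose]
        rcases h3 i with h7 | h7
        · rw [h7]
        · by_cases h8 : y i = m i
          · rw [h8]
          · have h9 := h4 i h8
            rw [h7]
            nlinarith [Nat.zero_le (m i)]
      rw [← hS₀] at f3
      obtain ⟨Y, hY⟩ : ∃ Y, Y = ∑ i, y i := ⟨_, rfl⟩
      rw [← hY] at f3 ⊢
      -- `2 w (2 D' + w + 3) ≤ 4 (u + 1) (S₀ - Y)`
      have f4 : w * (2 * D' + w + 3) + 2 * ((u + 1) * Y) ≤ 2 * ((u + 1) * S₀) := by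
        have f5 : (D' + w + 1) ^ 2 + (D' + w + 1) =
            (D' + 1) ^ 2 + (D' + 1) + w * (2 * D' + w + 3) := by ring
        omega
      have f6 : t * (D' + w) ≤ 2 * (w * (2 * D' + w + 3)) := by
        calc t * (D' + w) ≤ (2 * w) * (2 * D' + w + 3) :=
              Nat.mul_le_mul (by omega) (by omega)
          _ = 2 * (w * (2 * D' + w + 3)) := by ring
      have f7 : 8 * G * u ^ 2 * M + 4 * ((u + 1) * Y) ≤ 4 * ((u + 1) * S₀) := by omega
      have f8 : Y ≤ S₀ := by
        by_contra h
        push Not at h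
        have : (u + 1) * S₀ < (u + 1) * Y := Nat.mul_lt_mul_of_pos_left h (Nat.succ_pos u)
        omega
      obtain ⟨Z, rfl⟩ : ∃ Z, S₀ = Y + Z := ⟨S₀ - Y, by omega⟩
      have f9 : 8 * G * u ^ 2 * M ≤ 4 * ((u + 1) * Z) := by
        rw [Nat.mul_add (u + 1)] at f7
        omega
      have f10 : 4 * ((u + 1) * Z) ≤ 8 * (u * Z) := by
        have : (u + 1) * Z ≤ (2 * u) * Z := Nat.mul_le_mul_right _ (by omega)
        have e3 : (2 * u) * Z = 2 * (u * Z) := by ring
        omega
      have f11 : u * (G * u * M) ≤ u * Z := by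
        have e4 : 8 * G * u ^ 2 * M = 8 * (u * (G * u * M)) := by ring
        omega
      have f12 := Nat.le_of_mul_le_mul_left f11 hu
      omega
    intro n
    induction n with
    | zero =>
      intro D' y h0 h1 h2 h3 h4 h5 U S hUS
      -- the degree is zero: all the rows are used
      refine hleaf D' y h1 h3 h4 (hused D' y h2 h3 h4 h5 ?_) U S hUS
      omega
    | succ n ih =>
      intro D' y hn h1 h2 h3 h4 h5 U S hUS
      have hYS : ∑ i, y i ≤ S₀ := by
        rw [hS₀]
        refine Finset.sum_le_sum fun i _ => ?_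
        rcases h3 i with h5 | h5
        · rw [h5]
        · rw [h5]; exact Nat.zero_le _
      by_cases hlf : 2 * D' + t < 2 * D
      · exact hleaf D' y h1 h3 h4 (hused D' y h2 h3 h4 h5 hlf) U S hUS
      push Not at hlf
      by_cases hav : ∃ s, s < J ∧ 8 * D ≤ psum P y s
      · obtain ⟨s, hsJ, hs⟩ := hav
        obtain ⟨v, hv1, hPv, hmax⟩ := pool_max (by omega) hs
        have hvu : v ≤ u := hPu v (by omega)
        have hQs : 8 * D' ≤ ∑ i ∈ Finset.univ.filter (fun i => P (y i) = s), y i := by
          rw [← psum_eq_filter]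
          omega
        obtain ⟨κ, A, y', Su, hst, hout, hSu, hκu, hSu1, e1, e2⟩ :=
          hstrip D' s v y (by omega) h2 hv1 hvu hPv hmax hQs
        obtain ⟨hκ1, hκ2, hAD, hyy, hcnt, hRR⟩ := hst.pstep
        have h3' : ∀ i, y' i = m i ∨ y' i = 0 := by
          intro i
          rcases hyy i with h6 | h6
          · rw [h6]; exact h3 i
          · exact Or.inr h6
        have h4' : ∀ i, y' i ≠ m i → m i ≤ u := by
          intro i hi
          by_cases h7 : y i = m i
          · have h8 : i ∈ Finset.univ.filter (fun i => P (y i) = s) := by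
              by_contra h9
              exact hi ((hout i h9).trans h7)
            have h9 := (Finset.mem_filter.1 h8).2
            rw [← h7]
            exact (hmax i h9).trans hvu
          · exact h4 i h7
        rw [← hcn, ← hcn] at hcnt
        obtain ⟨e, he⟩ : ∃ e, D' = e + κ + 1 := ⟨D' - κ - 1, by omega⟩
        have f1 : D' - κ = e + 1 := by omega
        have f2 : D' - κ + 1 - A = e + 2 - A := by omega
        rw [f1] at hAD
        rw [f2] at e2
        rw [f1] at hRR
        have f4 : e + 1 - 1 = e := rfl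
        rw [f4] at hRR
        have r1 := rows_choose e κ
        have r2 := row_choose e
        rw [he] at hcnt
        have hlow : D ≤ e + t := by omega
        obtain ⟨Y, hY⟩ : ∃ Y, Y = ∑ i, y i := ⟨_, rfl⟩
        obtain ⟨Y', hY'⟩ : ∃ Y', Y' = ∑ i, y' i := ⟨_, rfl⟩
        rw [← hY, ← hY'] at hSu
        rw [← hY] at hUS
        have hr3 : (e + 2).choose 2 + 2 * (e + 2) ≤ (e + κ + 1 + 2).choose 2 := by
          have h6 := row_choose (e + 1)
          have h7 : (e + 1 + 1 + 2).choose 2 ≤ (e + κ + 1 + 2).choose 2 :=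
            Nat.choose_le_choose 2 (by omega)
          have h8 : e + 1 + 2 = e + 3 := rfl
          omega
        rw [he] at h5
        have i1 := ih (e + 1) y' (by omega) (by omega) (by omega) h3' h4' (by omega) (U + A) S (by
          rw [← hY']
          have h6 : G * (U + A + S) = G * (U + S) + G * A := by ring
          omega)
        have i2 := ih e y' (by omega) hlow (by omega) h3' h4' (by omega) U (S + (e + 2 - A)) (by
          rw [← hY']
          have h6 : G * (U + (S + (e + 2 - A))) = G * (U + S) + G * (e + 2 - A) := by ring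
          omega)
        rw [he] at hRR ⊢
        generalize hPm (e + 1) y' = A1 at *
        generalize hPm e y' = A2 at *
        generalize hPm (e + κ + 1) y = A0 at *
        clear ih hleaf hused h4 h4' h3 h3' hyy hout hstrip
        push_cast at i1 i2 ⊢
        omega
      · -- no pool is available
        push Not at hav
        refine hleaf D' y h1 h3 h4 ?_ U S hUS
        have h6 := low_pools P y (s₀ := J) (B := 8 * D) (fun s hs => (hav s hs).le)
        have h7 : ∑ i, y i + (∑ i, if m i ≤ u then m i else 0) ≤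
            S₀ + ∑ i, if P (y i) < J then y i else 0 := by
          rw [hS₀, ← Finset.sum_add_distrib, ← Finset.sum_add_distrib]
          refine Finset.sum_le_sum fun i _ => ?_
          by_cases h8 : m i ≤ u
          · have h9 : y i ≤ u := by
              rcases h3 i with h | h
              · rw [h]; exact h8
              · rw [h]; exact Nat.zero_le _
            rw [if_pos h8, if_pos (hP.count _ h9)]
            omega
          · have h9 : y i = m i := by
              by_contra h10
              exact h8 (h4 i h10)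
            rw [if_neg h8, h9]
            omega
        have h8 : J * (8 * D) = 8 * J * D := by ring
        omega
  have h0 := key D D m le_rfl (by omega) le_rfl (fun i => Or.inl rfl) (fun i hi => absurd rfl hi)
    (by omega) 0 0 (by
      rw [hS₀]
      omega)
  have hcount := hPm_count D m
  rw [← hcn] at hcount ⊢
  push_cast at h0
  omega

end Pool.Agent.Work.MP_0421d9_ag.LD
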