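import Pool.Agent.Work.MP_0421d9_ag.ZSPath
import Pool.Agent.Work.MP_0421d9_ag.ZPStep

/-!
The relative theorem with explicit hypotheses on the parameters.
-/

namespace Pool.Agent.Work.MP_0421d9_ag.LD

open MvPolynomial Module

theorem rel_step {G₁ A₁ : ℕ}
    (hC2 : ∀ (p D r v : ℕ) (y : Fin r → ℕ) (P : Finset (Fin r)),
    (∀ i ∈ P, y i = v) → 4 * D ≤ ∑ i ∈ P, y i → 1 ≤ p → A₁ * p ^ 6 ≤ v → D ≤ 8 * v * (v + 1) →
      v ^ 2 ≤ 4 * p ^ 2 * D → StripGain D G₁ P y v)
    {T q a p K J G X R : ℕ} (hW : WinR T q a) (hT : 1 ≤ T) (hq : 2 ≤ q) (ha : 2 ≤ a)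
    (hK : 2 ≤ K) (hp : 40 * q + 2 ^ (2 * K + 20) ≤ p) (hG : 2 ^ (2 * K + 8) ≤ G) (hG1 : G₁ ≤ G)
    (hX : 1000 * G ≤ X) (hR1 : 128 * J ≤ R)
    (hR2 : 2 * X * (1000 * a * p + (16 * K * p) ^ 3) ≤ R) (hR4 : 20 * X * A₁ * p ^ 6 ≤ R)
    {D t u M r : ℕ} {m : Fin r → ℕ} {B : Finset (Fin r)}
    (hJ : 100 * p ^ 2 + 64 * p ^ 2 * (Nat.log 2 (u + 1) + 2) + 2 ≤ J)
    (hu : 1 ≤ u) (huM : u ≤ M) (hM : ∀ i, m i ≤ M)
    (hmu : ∀ i, i ∉ B → m i ≤ u) (htD : t ≤ D) (hB : Rg (D - t) (onB B m)) (hRt : R * u ≤ t)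
    (hτ1 : X * u ^ 2 ≤ T * D)
    (hτ2 : 2 ^ (2 * K + 3) * df K * u ^ (2 * K) * X ^ (2 * K - 1) ≤ D ^ (2 * K - 1))
    (hgain : 32 * G * u ^ 2 * M ≤ t * D) :
    hPm D m = (D + 2).choose 2 - ∑ i, (m i + 1).choose 2 := by
  classical
  have hG0 : 1 ≤ G := by
    have : 1 ≤ 2 ^ (2 * K + 8) := Nat.one_le_two_pow
    omega
  have hX0 : 1 ≤ X := by omega
  have h20 : 1 ≤ 2 ^ (2 * K + 20) := Nat.one_le_two_pow
  -- the large points
  have hreg : Rg (D - t) (onB (bigs u m) m) := by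
    refine hB.of_le fun i => ?_
    unfold onB
    split_ifs with h1 h2
    · exact le_rfl
    · rw [mem_bigs] at h1
      have := hmu i h2
      omega
    · exact Nat.zero_le _
    · exact le_rfl
  obtain ⟨N, hN⟩ : ∃ N, N = ∑ i, (if m i ≤ u then (m i + 1).choose 2 else 0) := ⟨_, rfl⟩
  obtain ⟨S, hS⟩ : ∃ S, S = ∑ i, (if m i ≤ u then m i else 0) := ⟨_, rfl⟩
  have hNS : 2 * N ≤ (u + 1) * S := by
    rw [hN, hS, Finset.mul_sum, Finset.mul_sum]
    refine Finset.sum_le_sum fun i _ => ?_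
    split_ifs with h
    · rw [two_choose]
      nlinarith
    · exact Nat.le_refl _
  have htot : ∑ i, (m i + 1).choose 2 = ∑ i, (onB (bigs u m) m i + 1).choose 2 + N := by
    rw [hN, ← Finset.sum_add_distrib]
    refine Finset.sum_congr rfl fun i _ => ?_
    unfold onB
    by_cases h : m i ≤ u
    · rw [if_neg (by rw [mem_bigs]; omega), if_pos h]
      simp
    · rw [if_pos (by rw [mem_bigs]; omega), if_neg h]
      omega
  have h128 : 128 * J * u ≤ t := (Nat.mul_le_mul_right u hR1).trans hRt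
  have hJ1 : 1 ≤ J := by omega
  have hu128 : 128 * u ≤ t := by
    refine le_trans ?_ h128
    exact Nat.mul_le_mul_right u (by omega)
  by_cases hcase : 8 * N ≤ t * D
  · -- few conditions
    have h1 := kq_nonspecial (d := D) (gpt_generic r) huM hM (bigs u m)
      (fun i hi => by
        rw [mem_bigs] at hi
        omega) (hreg.mono (by omega)) (Or.inr (by
        have h2 : ∑ i, (onB (bigs u m) m i + 1).choose 2 ≤ (D - t + 2).choose 2 := by
          unfold Rg at hreg
          omega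
        have h3 : (M - 1) * (u - 1) ≤ M * u := Nat.mul_le_mul (Nat.sub_le _ _) (Nat.sub_le _ _)
        obtain ⟨D', rfl⟩ : ∃ D', D = D' + t := ⟨D - t, by omega⟩
        have e1 : D' + t - t = D' := by omega
        rw [e1] at h2
        have f1 := two_choose (D' + t + 1)
        have f2 := two_choose (D' + 1)
        have e3 : D' + t + 1 + 1 = D' + t + 2 := rfl
        have e4 : D' + 1 + 1 = D' + 2 := rfl
        rw [e3] at f1
        rw [e4] at f2
        have h5 : (D' + t + 1) ^ 2 + (D' + t + 1) =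
            (D' + 1) ^ 2 + (D' + 1) + (t * (D' + t) + t * D' + 3 * t) := by ring
        have h6 : 32 * (M * u) ≤ t * (D' + t) := by
          refine le_trans ?_ hgain
          calc 32 * (M * u) ≤ 32 * (M * u) * (G * u) := Nat.le_mul_of_pos_right _
                (Nat.mul_pos hG0 hu)
            _ = 32 * G * u ^ 2 * M := by ring
        rw [htot]
        omega))
    exact h1
  · push Not at hcase
    obtain ⟨P, hP, hPu⟩ := cut_pools (p := 64 * p ^ 2) (U := 100 * p ^ 2) (τ := u) (J := J)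
      (Nat.mul_pos (by norm_num) (pow_pos (by omega) 2)) hJ
    refine path_rel hP hPu hG0 hu huM hM hreg htD (by omega) ?_ ?_ ?_
    · refine le_trans ?_ hgain
      calc 8 * G * u ^ 2 * M = 8 * (G * u ^ 2 * M) := by ring
        _ ≤ 32 * (G * u ^ 2 * M) := Nat.mul_le_mul_right _ (by norm_num)
        _ = 32 * G * u ^ 2 * M := by ring
    · rw [← hS]
      have h1 : t * D ≤ 8 * (u * S) := by
        have h2 : (u + 1) * S ≤ (2 * u) * S := Nat.mul_le_mul_right _ (by omega)
        have h3 : (2 * u) * S = 2 * (u * S) := by ring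
        omega
      have h4 : u * (8 * J * D + G * u * M) ≤ u * S := by
        have h5 : 128 * J * u * D ≤ t * D := Nat.mul_le_mul_right D h128
        have e1 : 128 * J * u * D = 16 * (u * (8 * J * D)) := by ring
        have e2 : 32 * G * u ^ 2 * M = 32 * (u * (G * u * M)) := by ring
        rw [Nat.mul_add]
        omega
      exact Nat.le_of_mul_le_mul_left h4 hu
    · intro D' s v y h1 h2 h3 h4 h5 h6 h7
      refine step_strip (X := X) (c := u) (D := D) hC2 hP hW hT hq ha hK hp hG hG1 hX hR2 hR4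
        (hRt.trans htD) ?_ ?_ D' s v y (h1.trans (Nat.mul_le_mul_right _ (by omega))) h3 h4 h4 h5
        h6 h7
      · intro w D'' hu1 _ hXD
        obtain ⟨k, hk⟩ : ∃ k, 2 * K = k + 1 := ⟨2 * K - 1, by omega⟩
        have hk1 : 2 * K - 1 = k := by omega
        rw [hk1] at hτ2 ⊢
        have g3 : (2 * w ^ 2) ^ K = 2 ^ K * w ^ (2 * K) := by
          rw [mul_pow, ← pow_mul]
        have g4 : X ^ k * (2 ^ (K + 3) * (df K * (2 * w ^ 2) ^ K)) ≤ X ^ k * D'' ^ k := by
          calc X ^ k * (2 ^ (K + 3) * (df K * (2 * w ^ 2) ^ K))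
              = 2 ^ (2 * K + 3) * df K * w ^ (2 * K) * X ^ k := by
                rw [g3]
                ring
            _ ≤ 2 ^ (2 * K + 3) * df K * u ^ (2 * K) * X ^ k :=
                Nat.mul_le_mul_right _ (Nat.mul_le_mul_left _ (Nat.pow_le_pow_left hu1 _))
            _ ≤ D ^ k := hτ2
            _ ≤ (X * D'') ^ k := Nat.pow_le_pow_left hXD k
            _ = X ^ k * D'' ^ k := mul_pow _ _ _
        exact Nat.le_of_mul_le_mul_left g4 (pow_pos hX0 k)
      · intro w D'' hu1 _ hXD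
        have g1 : X * w ^ 2 ≤ X * (T * D'') := by
          calc X * w ^ 2 ≤ X * u ^ 2 := Nat.mul_le_mul_left _ (Nat.pow_le_pow_left hu1 2)
            _ ≤ T * D := hτ1
            _ ≤ T * (X * D'') := Nat.mul_le_mul_left _ hXD
            _ = X * (T * D'') := by ring
        exact Nat.le_of_mul_le_mul_left g1 hX0

end Pool.Agent.Work.MP_0421d9_ag.LD
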