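import Pool.Agent.Work.MP_0421d9_ag.ZSLevel
import Pool.Agent.Work.MP_0421d9_ag.ZPWin2

/-!
Many conditions imposed by the points with `m i ^ (2 + 1 / A) ≤ d (M / d) ^ A`: the other points
impose independent conditions in a smaller degree.
-/

namespace Pool.Agent.Work.MP_0421d9_ag.LD

open MvPolynomial Module

theorem sw_a {c : ℝ} (hc : 1 ≤ c) : 40 * c ≤ (40 * c) ^ 2 ∧ 1600 ≤ (40 * c) ^ 2 := by
  constructor <;> nlinarith

theorem sw_b {y z : ℝ} (hy : 1600 ≤ y) (hz : z ≤ y) : z ≤ y ^ 2 := by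
  nlinarith

theorem sw_c {c y w : ℝ} (hy : (40 * c) ^ 2 ≤ y) (hw : y ≤ w) :
    (32 * c) ^ 2 ≤ w := by
  nlinarith

theorem small_data {A C : ℝ} (hA : 0 < A) : ∃ R : ℝ, ∀ (r d M : ℕ) (m : Fin r → ℕ),
    1 ≤ M → (∀ i, m i ≤ M) → R * M ≤ d → ((d : ℝ) / M) ^ A < M →
    |((d + 2).choose 2 : ℝ) - ∑ i, ((m i + 1).choose 2 : ℝ)| < (M : ℝ) ^ 2 * ((M : ℝ) / d) ^ A →
    (d : ℝ) ^ 2 * ((M : ℝ) / d) ^ A ≤
      ∑ i, (if (m i : ℝ) ^ (2 + 1 / A) ≤ d * ((M : ℝ) / d) ^ A then ((m i + 1).choose 2 : ℝ)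
        else 0) →
    ∃ (u t : ℕ) (B : Finset (Fin r)), 1 ≤ u ∧ (∀ i, i ∉ B → m i ≤ u) ∧ t ≤ d ∧
      Rg (d - t) (onB B m) ∧ C * (u : ℝ) ^ (1 + 1 / (2 * A)) ≤ t ∧
      C * (u : ℝ) ^ (2 + 1 / (2 * A)) * M ≤ (t : ℝ) * d := by
  classical
  obtain ⟨R₁, h1⟩ := all_windows hA
  obtain ⟨C', hC'⟩ : ∃ C' : ℝ, C' = max C 1 := ⟨_, rfl⟩
  have hCC' : C ≤ C' := hC' ▸ le_max_left _ _
  have hC'1 : 1 ≤ C' := hC' ▸ le_max_right _ _
  have h2A : (1 : ℝ) ≤ 2 ^ A := Real.one_le_rpow (by norm_num) hA.le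
  refine ⟨2 * |R₁| + (40 * C') ^ 2 + 8 * 2 ^ A, fun r d M m hM hm hd hx hW hS => ?_⟩
  have hM0 : (1 : ℝ) ≤ M := by exact_mod_cast hM
  have hM0' : (0 : ℝ) < M := by linarith
  have hR1 := abs_nonneg R₁
  have hR1' := le_abs_self R₁
  -- the ratio
  obtain ⟨y, hy⟩ : ∃ y : ℝ, y = (d : ℝ) / M := ⟨_, rfl⟩
  have hdy : (d : ℝ) = M * y := by
    rw [hy, mul_div_cancel₀ _ hM0'.ne']
  rw [← hy] at hx
  have hyR : 2 * |R₁| + (40 * C') ^ 2 + 8 * 2 ^ A ≤ y := by
    rw [hy, le_div_iff₀ hM0']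
    exact hd
  obtain ⟨hC2, hyC⟩ := sw_a hC'1
  have hy0 : 1600 ≤ y := by linarith
  have hy0' : 0 < y := by linarith
  have hd0 : (0 : ℝ) < d := by
    rw [hdy]
    positivity
  have hMd : ((M : ℝ) / d) ^ A = (y ^ A)⁻¹ := by
    rw [← Real.inv_rpow hy0'.le, hy, inv_div]
  obtain ⟨Y, hY⟩ : ∃ Y : ℝ, Y = y ^ A := ⟨_, rfl⟩
  rw [← hY] at hMd hx
  have hY1 : 1 ≤ Y := by
    rw [hY]
    exact Real.one_le_rpow (by linarith) hA.le
  have hY0 : 0 < Y := by linarith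
  rw [hMd] at hW hS
  -- the level
  obtain ⟨w, hw⟩ : ∃ w : ℝ, w = d * Y⁻¹ := ⟨_, rfl⟩
  have hwY : w * Y = d := by
    rw [hw, mul_assoc, inv_mul_cancel₀ hY0.ne', mul_one]
  have hwy : y ≤ w := by
    -- `w = M y / Y ≥ y`
    have h3 : y * Y ≤ w * Y := by
      rw [hwY, hdy, mul_comm (M : ℝ) y]
      exact mul_le_mul_of_nonneg_left hx.le hy0'.le
    exact le_of_mul_le_mul_right h3 hY0
  have hw0 : 0 < w := by linarith
  rw [← hw] at hS
  have hdw : (d : ℝ) ^ 2 * Y⁻¹ = d * w := by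
    rw [hw]
    ring
  rw [hdw] at hS
  have hwd : w ≤ d := by
    rw [← hwY]
    exact le_mul_of_one_le_right hw0.le hY1
  obtain ⟨θ, hθ⟩ : ∃ θ : ℝ, θ = 2 + 1 / A := ⟨_, rfl⟩
  have hθ0 : 0 < θ := by
    rw [hθ]
    positivity
  rw [← hθ] at hS
  obtain ⟨u, hu⟩ : ∃ u : ℕ, u = ⌊w ^ (1 / θ)⌋₊ := ⟨_, rfl⟩
  have hu2 : (u : ℝ) ≤ w ^ (1 / θ) := by
    rw [hu]
    exact Nat.floor_le (by positivity)
  have huw : (u : ℝ) ^ θ ≤ w := by
    calc (u : ℝ) ^ θ ≤ (w ^ (1 / θ)) ^ θ := Real.rpow_le_rpow (Nat.cast_nonneg _) hu2 hθ0.le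
      _ = w := by
        rw [← Real.rpow_mul hw0.le, one_div, inv_mul_cancel₀ hθ0.ne', Real.rpow_one]
  have hmu : ∀ i, (m i : ℝ) ^ θ ≤ w → m i ≤ u := by
    intro i hi
    rw [hu]
    apply Nat.le_floor
    calc (m i : ℝ) = ((m i : ℝ) ^ θ) ^ (1 / θ) := by
          rw [← Real.rpow_mul (Nat.cast_nonneg _), one_div, mul_inv_cancel₀ hθ0.ne',
            Real.rpow_one]
      _ ≤ w ^ (1 / θ) := Real.rpow_le_rpow (by positivity) hi (by positivity)
  have hu1 : 1 ≤ u := by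
    by_contra h0
    have h0' : u = 0 := by omega
    have h3 : ∑ i, (if (m i : ℝ) ^ θ ≤ w then ((m i + 1).choose 2 : ℝ) else 0) = 0 := by
      refine Finset.sum_eq_zero fun i _ => ?_
      split_ifs with h4
      · have h5 := hmu i h4
        have h6 : m i = 0 := by omega
        rw [h6]
        norm_num
      · rfl
    rw [h3] at hS
    have : 0 < (d : ℝ) * w := mul_pos hd0 hw0
    linarith
  have hu1' : (1 : ℝ) ≤ u := by exact_mod_cast hu1
  -- the degree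
  obtain ⟨t, ht⟩ : ∃ t : ℕ, t = ⌊w / 16⌋₊ := ⟨_, rfl⟩
  have ht1 : (t : ℝ) ≤ w / 16 := by
    rw [ht]
    exact Nat.floor_le (by positivity)
  have ht2 : w / 32 ≤ t := by
    have h3 := Nat.lt_floor_add_one (w / 16)
    rw [← ht] at h3
    linarith
  have htd : t ≤ d := by
    have h3 : (t : ℝ) ≤ d := by linarith
    exact_mod_cast h3
  refine ⟨u, t, bigs u m, hu1, fun i hi => ?_, htd, ?_, ?_, ?_⟩
  · rw [mem_bigs] at hi
    omega
  · -- independence
    obtain ⟨N, hN⟩ : ∃ N : ℕ, N = ∑ i, (onB (bigs u m) m i + 1).choose 2 := ⟨_, rfl⟩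
    have h3 : (N : ℝ) + ∑ i, (if (m i : ℝ) ^ θ ≤ w then ((m i + 1).choose 2 : ℝ) else 0) ≤
        ∑ i, ((m i + 1).choose 2 : ℝ) := by
      rw [hN]
      push_cast
      rw [← Finset.sum_add_distrib]
      refine Finset.sum_le_sum fun i _ => ?_
      unfold onB
      by_cases h4 : (m i : ℝ) ^ θ ≤ w
      · have h5 := hmu i h4
        rw [if_neg (by rw [mem_bigs]; omega), if_pos h4]
        simp
      · rw [if_neg h4, add_zero]
        split_ifs
        · exact le_rfl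
        · have : (0 : ℝ) ≤ ((m i + 1).choose 2 : ℝ) := Nat.cast_nonneg _
          simp
    have h4 := abs_lt.mp hW
    have h5 : (M : ℝ) ^ 2 * Y⁻¹ ≤ d * w / 4 := by
      have h6 : (M : ℝ) ^ 2 * (4 : ℝ) ≤ d ^ 2 := by
        rw [hdy]
        have h7 : (M : ℝ) ^ 2 * 4 ≤ (M : ℝ) ^ 2 * y ^ 2 :=
          mul_le_mul_of_nonneg_left (sw_b hy0 (by linarith)) (by positivity)
        rw [mul_pow]
        exact h7
      rw [← hdw]
      have h8 : (0 : ℝ) ≤ Y⁻¹ := inv_nonneg.mpr hY0.le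
      have h9 := mul_le_mul_of_nonneg_right h6 h8
      linarith
    -- `χ` of the large points in degree `d`
    have h6 : (3 / 4) * (d * w) ≤ ((d + 2).choose 2 : ℝ) - N := by
      linarith
    -- in degree `d - t`
    have hcz : ∀ n : ℕ, (2 : ℝ) * ((n + 2).choose 2 : ℕ) = (n + 1) * (n + 2) := by
      intro n
      have h7 := two_choose (n + 1)
      have h8 : n + 1 + 1 = n + 2 := rfl
      rw [h8] at h7
      have h9 : ((2 * (n + 2).choose 2 : ℕ) : ℝ) = (((n + 1) ^ 2 + (n + 1) : ℕ) : ℝ) := by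
        rw [h7]
      push_cast at h9
      rw [h9]
      ring
    have hc1 := hcz d
    have hc2 := hcz (d - t)
    have hdt : ((d - t : ℕ) : ℝ) = d - t := by
      rw [Nat.cast_sub htd]
    rw [hdt] at hc2
    have hd1600 : (1600 : ℝ) ≤ d := by linarith
    have h7 : ((d + 2).choose 2 : ℝ) - ((d - t + 2).choose 2 : ℕ) ≤ d * w / 8 := by
      have h8 : (2 : ℝ) * (((d + 2).choose 2 : ℕ) - ((d - t + 2).choose 2 : ℕ)) =
          t * (2 * d - t + 3) := by
        rw [mul_sub, hc1, hc2]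
        ring
      have h9 : (t : ℝ) * (2 * d - t + 3) ≤ w / 16 * (4 * d) := by
        refine mul_le_mul ht1 (by linarith [Nat.cast_nonneg (α := ℝ) t]) (by
          have : (t : ℝ) ≤ d := by exact_mod_cast htd
          linarith) (by positivity)
      linarith
    have h8 : (5 / 8) * (d * w) ≤ ((d - t + 2).choose 2 : ℕ) - (N : ℝ) := by
      linarith
    have hdt2 : (d : ℝ) / 2 ≤ ((d - t : ℕ) : ℝ) := by
      rw [hdt]
      linarith
    have h9 := h1 r (d - t) M (gpt r) (onB (bigs u m) m) (gpt_generic r) hM (fun i => by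
      unfold onB
      split_ifs
      · exact hm i
      · exact Nat.zero_le _) (by
      refine le_trans ?_ hdt2
      rw [hdy]
      have h10 : R₁ * M ≤ (y / 2) * M := mul_le_mul_of_nonneg_right (by linarith) hM0'.le
      linarith) (Or.inr (Or.inl (by
      -- the window
      have h10 : ((M : ℝ) / ((d - t : ℕ) : ℝ)) ^ A ≤ 2 ^ A * Y⁻¹ := by
        rw [hY, ← Real.inv_rpow hy0'.le, ← Real.mul_rpow (by norm_num) (by positivity)]
        refine Real.rpow_le_rpow (by positivity) ?_ hA.le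
        rw [hy, inv_div, div_le_iff₀ (by linarith)]
        calc (M : ℝ) = 2 * (M / d) * (d / 2) := by
              field_simp
          _ ≤ 2 * (M / d) * ((d - t : ℕ) : ℝ) :=
              mul_le_mul_of_nonneg_left hdt2 (by positivity)
      have h11 : (M : ℝ) ^ 2 * ((M : ℝ) / ((d - t : ℕ) : ℝ)) ^ A ≤ (5 / 8) * (d * w) := by
        have h12 : (M : ℝ) ^ 2 * ((M : ℝ) / ((d - t : ℕ) : ℝ)) ^ A ≤
            (M : ℝ) ^ 2 * (2 ^ A * Y⁻¹) := mul_le_mul_of_nonneg_left h10 (by positivity)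
        have h13 : (M : ℝ) ^ 2 * (8 * 2 ^ A) ≤ d ^ 2 := by
          rw [hdy]
          have h14 : (M : ℝ) ^ 2 * (8 * 2 ^ A) ≤ (M : ℝ) ^ 2 * y ^ 2 := by
            exact mul_le_mul_of_nonneg_left (sw_b hy0 (by linarith)) (by positivity)
          rw [mul_pow]
          exact h14
        have h15 : (0 : ℝ) ≤ Y⁻¹ := inv_nonneg.mpr hY0.le
        have h16 := mul_le_mul_of_nonneg_right h13 h15
        rw [hdw] at h16
        have h17 : (0 : ℝ) < d * w := mul_pos hd0 hw0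
        have h18 : (M : ℝ) ^ 2 * (8 * 2 ^ A) * Y⁻¹ = 8 * ((M : ℝ) ^ 2 * (2 ^ A * Y⁻¹)) := by
          ring
        rw [h18] at h16
        linarith
      refine h11.trans (h8.trans ?_)
      have h12 : (∑ i, ((onB (bigs u m) m i + 1).choose 2 : ℝ)) = N := by
        rw [hN]
        push_cast
        rfl
      rw [h12]
      exact le_abs_self _)))
    have h10 : N ≤ (d - t + 2).choose 2 := by
      have h11 : (N : ℝ) ≤ ((d - t + 2).choose 2 : ℕ) := by
        have : (0 : ℝ) < d * w := mul_pos hd0 hw0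
        linarith
      exact_mod_cast h11
    unfold Rg hPm
    rw [← hN] at h9 ⊢
    rw [h9]
    omega
  · -- `t ≥ C u ^ (1 + ε)`
    have h3 : (u : ℝ) ^ (1 + 1 / (2 * A)) * (u : ℝ) ^ (1 + 1 / (2 * A)) = (u : ℝ) ^ θ := by
      rw [← Real.rpow_add (by linarith), hθ]
      congr 1
      field_simp
      ring
    obtain ⟨x, hx'⟩ : ∃ x : ℝ, x = (u : ℝ) ^ (1 + 1 / (2 * A)) := ⟨_, rfl⟩
    rw [← hx'] at h3 ⊢
    have hx0 : 0 ≤ x := by
      rw [hx']
      positivity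
    have h4 : (32 * C' * x) ^ 2 ≤ w ^ 2 := by
      have h5 : (32 * C') ^ 2 ≤ w := sw_c (by linarith) hwy
      calc (32 * C' * x) ^ 2 = (32 * C') ^ 2 * (x * x) := by ring
        _ ≤ w * w := mul_le_mul h5 (h3.le.trans huw) (by positivity) hw0.le
        _ = w ^ 2 := by ring
    have h5 : 32 * C' * x ≤ w := by
      have := abs_le_of_sq_le_sq' h4 hw0.le
      exact this.2
    have h6 : C * x ≤ C' * x := mul_le_mul_of_nonneg_right hCC' hx0
    linarith
  · -- the gain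
    have h3 : (u : ℝ) ^ (2 + 1 / (2 * A)) ≤ w := by
      refine le_trans ?_ huw
      apply Real.rpow_le_rpow_of_exponent_le hu1'
      rw [hθ]
      have h4 : 1 / (2 * A) ≤ 1 / A := by
        apply one_div_le_one_div_of_le hA
        linarith
      linarith
    have h4 : 32 * C' * M ≤ d := by
      rw [hdy, mul_comm (M : ℝ) y]
      exact mul_le_mul_of_nonneg_right (by linarith) hM0'.le
    have h5 : C * (u : ℝ) ^ (2 + 1 / (2 * A)) * M ≤ C' * w * M := by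
      refine mul_le_mul_of_nonneg_right ?_ hM0'.le
      exact mul_le_mul hCC' h3 (by positivity) (by linarith)
    calc C * (u : ℝ) ^ (2 + 1 / (2 * A)) * M ≤ C' * w * M := h5
      _ = (w / 32) * (32 * C' * M) := by ring
      _ ≤ t * d := mul_le_mul ht2 h4 (by positivity) (Nat.cast_nonneg t)

end Pool.Agent.Work.MP_0421d9_ag.LD
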