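import Pool.Agent.Work.MP_0421d9_ag.ZGain

/-!
Strips of the plane with gain, in a form which does not depend on the dimension function: used for
the plane, and for the plane with further points on a line.
-/

namespace Pool.Agent.Work.MP_0421d9_ag.LD

open MvPolynomial Module

/-- peeling of strips for the dimension function `h` -/
def Peel {r : ℕ} (h : ℕ → (Fin r → ℕ) → ℕ) : Prop :=
  ∀ (δ κ N A : ℕ) (y : Fin r → ℕ) (e : Fin N → Fin r), Function.Injective e → 1 ≤ κ → A ≤ δ + 2 →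
    Killsm (δ + 1 + κ) (fun k => y (e k)) {α | α 2 < κ ∨ (α 2 = κ ∧ α 0 < A)} →
    h (δ + 1 + κ) y ≤ max (h (δ + 1) (rest e y) - A) (h δ (rest e y))

theorem peel_hPm (r : ℕ) : Peel (r := r) hPm := fun _ _ _ _ _ _ he hκ hA hk => peelm he hκ hA hk

/-- a strip for the dimension function `h`: `κ` rows and a further piece of `A` monomials are
filled -/
def PStepH {r : ℕ} (h : ℕ → (Fin r → ℕ) → ℕ) (D κ A : ℕ) (y y' : Fin r → ℕ) : Prop :=
  1 ≤ κ ∧ κ + 1 ≤ D ∧ A ≤ D - κ + 1 ∧ (∀ i, y' i = y i ∨ y' i = 0) ∧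
    A + κ * (D + 1) + ∑ i, (y' i + 1).choose 2 = ∑ i, (y i + 1).choose 2 + κ.choose 2 ∧
    h D y ≤ max (h (D - κ) y' - A) (h (D - κ - 1) y')

/-- a strip with gain for the dimension function `h` -/
def StripGainH {r : ℕ} (h : ℕ → (Fin r → ℕ) → ℕ) (D G : ℕ) (P : Finset (Fin r)) (y : Fin r → ℕ)
    (u : ℕ) : Prop :=
  ∃ (κ A : ℕ) (y' : Fin r → ℕ) (Su : ℕ), PStepH h D κ A y y' ∧ (∀ i, i ∉ P → y' i = y i) ∧
    Su + ∑ i, y' i = ∑ i, y i ∧ κ ≤ 2 * u ∧ 1 ≤ Su ∧ Su ≤ G * A ∧ Su ≤ G * (D - κ + 1 - A)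

/-- a strip with gain, without the dimension function -/
def StripKill {r : ℕ} (D G : ℕ) (P : Finset (Fin r)) (y : Fin r → ℕ) (u : ℕ) : Prop :=
  ∃ (κ A N : ℕ) (e : Fin N → Fin r), Function.Injective e ∧ (∀ k, e k ∈ P) ∧ 1 ≤ κ ∧
    κ + 1 ≤ D ∧ κ ≤ 2 * u ∧ A ≤ D - κ + 1 ∧
    A + κ * (D + 1) = ∑ k, (y (e k) + 1).choose 2 + κ.choose 2 ∧
    Killsm D (fun k => y (e k)) {α | α 2 < κ ∨ (α 2 = κ ∧ α 0 < A)} ∧
    1 ≤ ∑ k, y (e k) ∧ ∑ k, y (e k) ≤ G * A ∧ ∑ k, y (e k) ≤ G * (D - κ + 1 - A)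

theorem StripKill.gainH {r : ℕ} {h : ℕ → (Fin r → ℕ) → ℕ} (hp : Peel h) {D G u : ℕ}
    {P : Finset (Fin r)} {y : Fin r → ℕ} (hs : StripKill D G P y u) : StripGainH h D G P y u := by
  obtain ⟨κ, A, N, e, he, heP, hκ1, hκD, hκu, hA, hcount, hk, h1, h2, h3⟩ := hs
  refine ⟨κ, A, rest e y, ∑ k, y (e k), ⟨hκ1, hκD, hA, ?_, ?_, ?_⟩, ?_, ?_, hκu, h1, h2, h3⟩
  · intro i
    by_cases hi : i ∈ Set.range e
    · obtain ⟨k, rfl⟩ := hi
      exact Or.inr (rest_mem k)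
    · exact Or.inl (rest_not_mem hi)
  · have h4 := mp_sum_rest he y (fun a => (a + 1).choose 2) (by decide)
    omega
  · obtain ⟨δ, rfl⟩ : ∃ δ, D = δ + 1 + κ := ⟨D - κ - 1, by omega⟩
    have e1 : δ + 1 + κ - κ = δ + 1 := by omega
    have e2 : δ + 1 - 1 = δ := by omega
    rw [e1, e2]
    exact hp δ κ N A y e he hκ1 (by omega) hk
  · intro i hi
    apply rest_not_mem
    rintro ⟨k, rfl⟩
    exact hi (heP k)
  · have h4 := mp_sum_rest he y (fun a => a) rfl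
    omega

theorem StripKill.gain {r D G u : ℕ} {P : Finset (Fin r)} {y : Fin r → ℕ}
    (hs : StripKill D G P y u) : StripGain D G P y u := by
  obtain ⟨κ, A, N, e, he, heP, hκ1, hκD, hκu, hA, hcount, hk, h1, h2, h3⟩ := hs
  refine ⟨κ, A, rest e y, ∑ k, y (e k), ⟨N, e, he, hκ1, hκD, hA, hcount, hk, rfl⟩, ?_, ?_, hκu,
    h1, h2, h3⟩
  · intro i hi
    apply rest_not_mem
    rintro ⟨k, rfl⟩
    exact hi (heP k)
  · have h4 := mp_sum_rest he y (fun a => a) rfl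
    omega

theorem StripKill.mono {r D G G' u : ℕ} {P : Finset (Fin r)} {y : Fin r → ℕ} (h : G ≤ G')
    (hs : StripKill D G P y u) : StripKill D G' P y u := by
  obtain ⟨κ, A, N, e, he, heP, hκ1, hκD, hκu, hA, hcount, hk, h1, h2, h3⟩ := hs
  exact ⟨κ, A, N, e, he, heP, hκ1, hκD, hκu, hA, hcount, hk, h1,
    h2.trans (Nat.mul_le_mul_right _ h), h3.trans (Nat.mul_le_mul_right _ h)⟩

theorem StripKill.mono_all {r D G G' u u' : ℕ} {P P' : Finset (Fin r)} {y : Fin r → ℕ}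
    (hs : StripKill D G P y u) (hG : G ≤ G') (hP : P ⊆ P') (hu : u ≤ u') :
    StripKill D G' P' y u' := by
  obtain ⟨κ, A, N, e, he, heP, hκ1, hκD, hκu, hA, hcount, hk, h1, h2, h3⟩ := hs
  exact ⟨κ, A, N, e, he, fun k => hP (heP k), hκ1, hκD, by omega, hA, hcount, hk, h1,
    h2.trans (Nat.mul_le_mul_right _ hG), h3.trans (Nat.mul_le_mul_right _ hG)⟩

theorem kill_of {D G r u N κ A B : ℕ} {y : Fin r → ℕ} {P : Finset (Fin r)} (e : Fin N → Fin r)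
    (he : Function.Injective e) (heP : ∀ k, e k ∈ P) (hκ1 : 1 ≤ κ) (hκD : κ + 1 ≤ D)
    (hκu : κ ≤ 2 * u) (hAB : A + B = D - κ + 1)
    (hcount : A + κ * (D + 1) = ∑ k, (y (e k) + 1).choose 2 + κ.choose 2)
    (hk : Killsm D (fun k => y (e k)) {α | α 2 < κ ∨ (α 2 = κ ∧ α 0 < A)})
    (h1 : 1 ≤ ∑ k, y (e k)) (hA : ∑ k, y (e k) ≤ G * A) (hB : ∑ k, y (e k) ≤ G * B) :
    StripKill D G P y u := by
  refine ⟨κ, A, N, e, he, heP, hκ1, hκD, hκu, by omega, hcount, hk, h1, hA, ?_⟩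
  have h2 : D - κ + 1 - A = B := by omega
  rw [h2]
  exact hB

/-- the strip is given by two systems with few rows -/
theorem kill_of_hFm {D G r u N κ A B : ℕ} {y : Fin r → ℕ} {P : Finset (Fin r)} (e : Fin N → Fin r)
    (he : Function.Injective e) (heP : ∀ k, e k ∈ P) (hκ1 : 1 ≤ κ) (hκD : κ + 1 ≤ D)
    (hκu : κ ≤ 2 * u) (hAB : A + B = D - κ + 1)
    (hcount : A + κ * (D + 1) = ∑ k, (y (e k) + 1).choose 2 + κ.choose 2)
    (h1 : hFm D κ (y ∘ e) ≤ B) (h0 : hFm D (κ - 1) (y ∘ e) = 0)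
    (h2 : 1 ≤ ∑ k, y (e k)) (hA : ∑ k, y (e k) ≤ G * A) (hB : ∑ k, y (e k) ≤ G * B) :
    StripKill D G P y u := by
  refine kill_of e he heP hκ1 hκD hκu hAB hcount ?_ h2 hA hB
  have h3 := kills_of_hFm hκ1 (by omega) (B := B) (by omega) h1 h0
  have h4 : D - κ + 1 - B = A := by omega
  rwa [h4] at h3

end Pool.Agent.Work.MP_0421d9_ag.LD
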