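import Pool.Agent.Work.MP_0421d9_ag.ZPA
import Pool.Agent.Work.MP_0421d9_ag.ZXMid

/-!
Strips of the plane, large multiplicities (as `ZPA`), without the dimension function.
-/

namespace Pool.Agent.Work.MP_0421d9_ag.LD

theorem kill_A_of (hcube : CubeMiddle) {T q a p K D r u : ℕ} (hW : WinR T q a) (hT : 1 ≤ T)
    (hq : 2 ≤ q) (ha : 2 ≤ a) (hK : 2 ≤ K) (hp : 40 * q + 2 ^ (2 * K + 20) ≤ p)
    (hu : 100 * p ^ 2 ≤ u) (hD : (1000 * a * p + (16 * K * p) ^ 3) * u ≤ D)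
    (hσ : 4 * p ^ 2 * D ≤ u ^ 2)
    (hKD : 2 ^ (K + 3) * (df K * (2 * u ^ 2) ^ K) ≤ D ^ (2 * K - 1)) (hTu : u ^ 2 ≤ T * D)
    {y : Fin r → ℕ} (P : Finset (Fin r)) (hP : ∀ i ∈ P, y i ≤ u ∧ u ≤ y i + u / p)
    (hPs : 8 * D ≤ ∑ i ∈ P, y i) : StripKill D (2 ^ (2 * K + 8)) P y u := by
  rw [Nat.add_mul] at hD
  have hK2 : K < 2 ^ K := Nat.lt_two_pow_self
  have hK3 : 2 ^ K ≤ 2 ^ (2 * K + 20) := Nat.pow_le_pow_right (by norm_num) (by omega)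
  have hp4 : 2 ^ 20 ≤ 2 ^ (2 * K + 20) := Nat.pow_le_pow_right (by norm_num) (by omega)
  obtain ⟨k, t, κ, e, hk2, hkK, he, heP, h1, h2, h3, h4⟩ := zpa_select hcube hK (by omega)
    (by omega) hu (by omega) hσ hKD P hP hPs
  have h5 : 2 ^ 12 * 2 ^ (2 * k + 5) ≤ 2 ^ (2 * K + 20) := by
    rw [← pow_add]
    exact Nat.pow_le_pow_right (by norm_num) (by omega)
  have h6 := kill_middle (g := 2 ^ (2 * k + 5)) hW hT hq ha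
    (Nat.pow_pos (by norm_num : 0 < 2)) (by omega) hu (by omega) hTu P hP e he heP h1 h2 h3 h4
  refine h6.mono ?_
  have e1 : 8 * 2 ^ (2 * k + 5) = 2 ^ (2 * k + 8) := by ring
  rw [e1]
  exact Nat.pow_le_pow_right (by norm_num) (by omega)

theorem kill_A {T q a p K D r u : ℕ} (hW : WinR T q a) (hT : 1 ≤ T) (hq : 2 ≤ q) (ha : 2 ≤ a)
    (hK : 2 ≤ K) (hp : 40 * q + 2 ^ (2 * K + 20) ≤ p) (hu : 100 * p ^ 2 ≤ u)
    (hD : (1000 * a * p + (16 * K * p) ^ 3) * u ≤ D) (hσ : 4 * p ^ 2 * D ≤ u ^ 2)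
    (hKD : 2 ^ (K + 3) * (df K * (2 * u ^ 2) ^ K) ≤ D ^ (2 * K - 1)) (hTu : u ^ 2 ≤ T * D)
    {y : Fin r → ℕ} (P : Finset (Fin r)) (hP : ∀ i ∈ P, y i ≤ u ∧ u ≤ y i + u / p)
    (hPs : 8 * D ≤ ∑ i ∈ P, y i) : StripKill D (2 ^ (2 * K + 8)) P y u :=
  kill_A_of cube_middle_aux hW hT hq ha hK hp hu hD hσ hKD hTu P hP hPs

end Pool.Agent.Work.MP_0421d9_ag.LD
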