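import Pool.Agent.Work.MP_0421d9_ag.ZPB
import Pool.Agent.Work.MP_0421d9_ag.ZXMid

/-!
Strips of the plane, middle multiplicities (as `ZPB`), without the dimension function.
-/

namespace Pool.Agent.Work.MP_0421d9_ag.LD

open MvPolynomial Module

theorem kill_B {T q a p D r u : ℕ} (hW : WinR T q a) (hT : 1 ≤ T) (hq : 2 ≤ q) (ha : 2 ≤ a)
    (hp : 40 * q + 2 ^ 20 ≤ p) (hu : 100 * p ^ 2 ≤ u) (hD : 1000 * a * p * u ≤ D)
    (hσ : u ^ 2 ≤ 4 * p ^ 2 * D) (hTu : u ^ 2 ≤ T * D)
    {y : Fin r → ℕ} (P : Finset (Fin r)) (hP : ∀ i ∈ P, y i ≤ u ∧ u ≤ y i + u / (64 * p ^ 2))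
    (hcl : ∀ v, (P.filter (fun i => y i = v)).card * v ≤ 4 * D)
    (hPs : 8 * D ≤ ∑ i ∈ P, y i) : StripKill D 64 P y u := by
  classical
  have hp20 : 2 ^ 20 ≤ p := by omega
  have hp0 : 0 < p := by omega
  have hpp : 2 ^ 20 * p ≤ p ^ 2 := by
    rw [pow_two]
    exact Nat.mul_le_mul_right p hp20
  have hu0 : 0 < u := by omega
  obtain ⟨ω, hω⟩ : ∃ ω, ω = u / p := ⟨_, rfl⟩
  obtain ⟨η, hη⟩ : ∃ η, η = u / (64 * p ^ 2) := ⟨_, rfl⟩
  rw [← hη] at hP
  have hη1 : 64 * p ^ 2 * η ≤ u := by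
    rw [hη]
    exact Nat.mul_div_le u _
  have hω1 : p * ω ≤ u := by
    rw [hω]
    exact Nat.mul_div_le u p
  have hω2 : u < p * ω + p := by
    have h3 := Nat.div_add_mod u p
    have h4 := Nat.mod_lt u hp0
    rw [← hω] at h3
    omega
  have hηu : η < u := by
    have h1 : 64 * 1 * η ≤ 64 * p ^ 2 * η :=
      Nat.mul_le_mul_right η (Nat.mul_le_mul_left 64 (by omega))
    omega
  have hK0 : 0 < u * (u + 1) := by positivity
  obtain ⟨t, ht⟩ : ∃ t, t = ((u + 3 * ω) * D) / (u * (u + 1)) := ⟨_, rfl⟩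
  have ht1 : t * (u * (u + 1)) ≤ (u + 3 * ω) * D := by
    rw [ht]
    exact Nat.div_mul_le_self _ _
  have ht2 : (u + 3 * ω) * D < t * (u * (u + 1)) + u * (u + 1) := by
    have h3 := Nat.div_add_mod ((u + 3 * ω) * D) (u * (u + 1))
    have h4 := Nat.mod_lt ((u + 3 * ω) * D) hK0
    rw [← ht] at h3
    rw [mul_comm t]
    omega
  obtain ⟨n, hn⟩ : ∃ n, n = 4 * D / (u - η) := ⟨_, rfl⟩
  have hD0 : 2000 * (p * u) ≤ D := by
    have h1 : 1000 * 2 * p * u ≤ 1000 * a * p * u :=
      Nat.mul_le_mul_right u (Nat.mul_le_mul_right p (Nat.mul_le_mul_left 1000 ha))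
    have h2 : 1000 * 2 * p * u = 2000 * (p * u) := by ring
    omega
  obtain ⟨N, hN⟩ : ∃ N, N = 2 * t + 1 := ⟨_, rfl⟩
  have h : ZB p u D ω η N n := by
    refine ⟨hp20, hω1, hω2, hη1, hu, hD0, hσ, ?_, ?_, ?_, ?_⟩
    · have h1 : N * (u * (u + 1)) = 2 * (t * (u * (u + 1))) + u * (u + 1) := by
        rw [hN]
        ring
      omega
    · have h1 : N * (u * (u + 1)) = 2 * (t * (u * (u + 1))) + u * (u + 1) := by
        rw [hN]
        ring
      omega
    · rw [hn]
      exact Nat.div_mul_le_self _ _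
    · intro m hm
      rw [hn]
      exact (Nat.le_div_iff_mul_le (by omega)).2 hm
  have hcount : N + n ≤ P.card := by
    refine h.count (S := ∑ i ∈ P, y i) ?_ hPs
    have h1 := Finset.sum_le_card_nsmul P y u (fun i hi => (hP i hi).1)
    rwa [smul_eq_mul] at h1
  have hs : 0 < P.card := by omega
  have hfil : ∀ i ∈ P, (P.filter (fun j => y j = y i)).card ≤ n := by
    intro i hi
    refine h.n2 _ (le_trans ?_ (hcl (y i)))
    refine Nat.mul_le_mul_left _ ?_
    have := (hP i hi).2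
    omega
  obtain ⟨b, hb, hinj, hmono⟩ := zb_enum P y hs
  obtain ⟨c, hc⟩ : ∃ c : ℕ → ℕ, c = fun l => (y (b l) + 1).choose 2 := ⟨_, rfl⟩
  have hc2 : ∀ l, 2 * c l = y (b l) * (y (b l) + 1) := by
    intro l
    rw [hc]
    exact zm_two_choose _
  have hlo : ∀ l, l < P.card → u - η ≤ y (b l) := by
    intro l hl
    have := (hP _ (hb l hl)).2
    omega
  have hcu : ∀ l, l < P.card → 2 * c l ≤ u * (u + 1) := by
    intro l hl
    rw [hc2]
    have h1 := (hP _ (hb l hl)).1
    exact Nat.mul_le_mul h1 (by omega)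
  have hcl' : ∀ l, l < P.card → (u - η) * (u - η + 1) ≤ 2 * c l := by
    intro l hl
    rw [hc2]
    have h1 := hlo l hl
    exact Nat.mul_le_mul h1 (by omega)
  obtain ⟨C, hC⟩ : ∃ C : ℕ → ℕ, C = zbC N n c := ⟨_, rfl⟩
  have hC0 : C 0 = ∑ l ∈ Finset.range N, c l := by
    rw [hC]
    unfold zbC
    simp
  have hC0u : 2 * C 0 ≤ N * (u * (u + 1)) := by
    rw [hC0, Finset.mul_sum]
    have h1 := Finset.sum_le_card_nsmul (Finset.range N) (fun l => 2 * c l) (u * (u + 1))
      (fun l hl => hcu l (by have := Finset.mem_range.1 hl; omega))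
    rwa [smul_eq_mul, Finset.card_range] at h1
  have hC0l : N * ((u - η) * (u - η + 1)) ≤ 2 * C 0 := by
    rw [hC0, Finset.mul_sum]
    have h1 := Finset.card_nsmul_le_sum (Finset.range N) (fun l => 2 * c l)
      ((u - η) * (u - η + 1)) (fun l hl => hcl' l (by have := Finset.mem_range.1 hl; omega))
    rwa [smul_eq_mul, Finset.card_range] at h1
  have hsucc : ∀ k, k < N → C (k + 1) + c k = C k + c (k + n) := by
    intro k hk
    rw [hC]
    exact zbC_succ c hk
  -- the steps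
  have hstep : ∀ k, k < N → C (k + 1) ≤ C k + η * (2 * u + 1) / 2 := by
    intro k hk
    have h1 := hsucc k hk
    have h2 := hcu (k + n) (by omega)
    have h3 := hcl' k (by omega)
    have h4 := h.sq
    omega
  have hup : ∀ k, k < N → C k + (u - η) ≤ C (k + 1) := by
    intro k hk
    have h1 := hsucc k hk
    have h2 := zb_strict hb hinj hmono hfil (l := k) (by omega)
    have h3 := hc2 k
    have h4 := hc2 (k + n)
    have h5 := hlo k (by omega)
    have h6 : (y (b k) + 1) * (y (b k) + 1 + 1) ≤ y (b (k + n)) * (y (b (k + n)) + 1) :=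
      Nat.mul_le_mul (by omega) (by omega)
    have h7 : (y (b k) + 1) * (y (b k) + 1 + 1) =
        y (b k) * (y (b k) + 1) + 2 * (y (b k) + 1) := by ring
    omega
  have hacc : ∀ k, k ≤ N → C 0 + k * (u - η) ≤ C k := by
    intro k
    induction k with
    | zero => intro _; omega
    | succ k ih =>
      intro hk
      have h1 := ih (by omega)
      have h2 := hup k (by omega)
      rw [add_mul, one_mul]
      omega
  have hCN : C 0 + D ≤ C N := by
    have h1 := hacc N le_rfl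
    have h2 := h.tot
    omega
  -- the row
  have hex : ∃ κ, C 0 < Frow D κ := ⟨_, h.high hC0u⟩
  have hf1 := Nat.find_spec hex
  have hf2 : Nat.find hex ≤ u + 5 * ω := Nat.find_min' hex (h.high hC0u)
  have hf3 := h.lowrow hC0l hf1
  obtain ⟨κ₀, hκ₀⟩ : ∃ κ₀, Nat.find hex = κ₀ + 1 := ⟨Nat.find hex - 1, by omega⟩
  have hf4 : ¬ C 0 < Frow D κ₀ := Nat.find_min hex (by omega)
  rw [hκ₀] at hf1 hf2 hf3
  have hω3 := h.ω3
  have hDu := h.Du
  obtain ⟨k, κ, hk, hκ, h1, h2⟩ := zb_middle (C := C) (N := N) (D := D) (κ₀ := κ₀)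
    (δ := η * (2 * u + 1) / 2) (by omega) (by omega) (not_lt.1 hf4) hf1
    (by have := h.step; omega) hstep hCN
  have hκ1 : u + ω ≤ κ := by omega
  have hκ2 : κ ≤ u + 5 * ω := by omega
  -- the points
  have hidx : ∀ l, l < N → (if l < k then l + n else l) < P.card := by
    intro l hl
    split_ifs <;> omega
  have hNn := h.Nn
  have hsum : ∑ j : Fin (2 * t + 1),
      (y (b (if (j : ℕ) < k then (j : ℕ) + n else (j : ℕ))) + 1).choose 2 = C k := by
    rw [hC]
    unfold zbC
    rw [hc, hN]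
    exact Fin.sum_univ_eq_sum_range
      (fun l => (y (b (if l < k then l + n else l)) + 1).choose 2) (2 * t + 1)
  have hηω : η ≤ ω := by
    have h3 := h.ηω
    have h4 : 1 * η ≤ 64 * p * η := Nat.mul_le_mul_right η (by omega)
    omega
  have hfin := kill_middle (g := 8) (κ := κ) (t := t) hW hT hq ha (by norm_num) (by omega) hu hD
    hTu (y := y) P (fun i hi => ⟨(hP i hi).1, by
      have := (hP i hi).2
      rw [← hω]
      omega⟩)
    (fun j => b (if (j : ℕ) < k then (j : ℕ) + n else (j : ℕ)))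
    (by
      intro j j' hjj
      have hj := j.2
      have hj' := j'.2
      have h3 := hinj _ (hidx j (by omega)) _ (hidx j' (by omega)) hjj
      refine Fin.ext ?_
      by_cases h4 : (j : ℕ) < k
      · by_cases h5 : (j' : ℕ) < k
        · rw [if_pos h4, if_pos h5] at h3
          omega
        · rw [if_pos h4, if_neg h5] at h3
          omega
      · by_cases h5 : (j' : ℕ) < k
        · rw [if_neg h4, if_pos h5] at h3
          omega
        · rwa [if_neg h4, if_neg h5] at h3)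
    (fun j => hb _ (hidx j (by have := j.2; omega)))
    (by rw [← hω]; exact hκ1) (by rw [← hω]; exact hκ2)
    (by rw [hsum]; exact h1) (by rw [hsum]; exact h2)
  simpa using hfin

end Pool.Agent.Work.MP_0421d9_ag.LD
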