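import Pool.Agent.Work.MP_0421d9_ag.ZPC2
import Pool.Agent.Work.MP_0421d9_ag.ZXKill

/-!
Strips of the plane with equal multiplicities, the width is larger than the multiplicity (as
`ZPC2`), without the dimension function.
-/

namespace Pool.Agent.Work.MP_0421d9_ag.LD

open MvPolynomial Module

theorem kill_C2 : ∃ G A : ℕ, ∀ (p D r v : ℕ) (y : Fin r → ℕ) (P : Finset (Fin r)),
    (∀ i ∈ P, y i = v) → 4 * D ≤ ∑ i ∈ P, y i → 1 ≤ p → A * p ^ 6 ≤ v → D ≤ 8 * v * (v + 1) →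
      v ^ 2 ≤ 4 * p ^ 2 * D → StripKill D G P y v := by
  obtain ⟨η, C, hη, hC, hQ⟩ := QT_int
  refine ⟨256 * (200 * η) ^ 2, 10 ^ 7 * η ^ 3 * C, ?_⟩
  intro p D r v y P hP hPs hp hv hD hvD
  have hp6 : 1 ≤ p ^ 6 := Nat.one_le_pow _ _ hp
  have hη3 : 1 ≤ η ^ 3 := Nat.one_le_pow _ _ (by omega)
  have hv1 : 10 ^ 7 * η ^ 3 * p ^ 6 ≤ v := by
    refine le_trans ?_ hv
    exact Nat.mul_le_mul_right _ (Nat.le_mul_of_pos_right _ hC)
  have hv0 : 10 ^ 7 ≤ v := by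
    refine le_trans ?_ hv1
    calc 10 ^ 7 = 10 ^ 7 * 1 * 1 := by norm_num
      _ ≤ _ := Nat.mul_le_mul (Nat.mul_le_mul_left _ hη3) hp6
  obtain ⟨t, κ, e, ht, hk1, hκv, hk2, hκD, h1, h2, he⟩ := C2_position hη hp hv1 hD hvD
  obtain ⟨k, hκ⟩ : ∃ k, κ = v + k := ⟨κ - v, by omega⟩
  have hkk : κ - v = k := by omega
  obtain ⟨hD2, hN4⟩ := C2_points (by omega) hη ht hκv hk2 hκD h1 h2
  rw [hkk] at hk1 hk2
  obtain ⟨A, B, hA1, hB1, hAB, hA, hB, hcount⟩ := C2_sides (by omega) h1 h2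
  obtain ⟨H, hH, hH1, hH2⟩ := C2_H hη hC hp hv hvD ht hκ hk1 hk2 (by omega) hD2 hB
  have hk3 : 2 ≤ k := by
    by_contra h
    have h3 : 2 * η * k ≤ 2 * η * 1 := Nat.mul_le_mul_left _ (by omega)
    have h4 : η ≤ η ^ 3 * p ^ 6 := by
      calc η = η ^ 1 * 1 := by ring
        _ ≤ η ^ 3 * p ^ 6 := Nat.mul_le_mul (Nat.pow_le_pow_right (by omega) (by norm_num)) hp6
    have h5 : 10 ^ 7 * η ^ 3 * p ^ 6 = 10 ^ 7 * (η ^ 3 * p ^ 6) := by ring
    omega
  obtain ⟨hs1, hs2⟩ := strip_C2 (η := η) (C := C) hQ ht hk3 hκ (by omega) (by omega) hA hB hH hH1 hH2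
  -- the points
  have hcard : P.card * v = ∑ i ∈ P, y i := by
    rw [Finset.sum_congr rfl hP, Finset.sum_const, smul_eq_mul]
  have hN : 2 * t + 1 ≤ P.card := by
    refine Nat.le_of_mul_le_mul_right (c := v) ?_ (by omega)
    rw [hcard]
    exact hN4.trans hPs
  obtain ⟨f, hf, hfP⟩ := exists_enum P hN
  have hyf : ∀ k, y (f k) = v := fun k => hP _ (hfP k)
  have hye : y ∘ f = fun _ => v := funext hyf
  have hsum : ∑ k, y (f k) = (2 * t + 1) * v := by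
    rw [Finset.sum_congr rfl (fun k _ => hyf k), Finset.sum_const, Finset.card_univ,
      Fintype.card_fin, smul_eq_mul]
  have hk9 : 9 * k ≤ η * k := Nat.mul_le_mul_right _ hη
  refine kill_of_hFm (κ := κ) (A := A) (B := B) f hf hfP (by omega) (by omega) (by omega) hAB
    ?_ ?_ ?_ ?_ ?_ ?_
  · rw [hcount]
    congr 1
    rw [Finset.sum_congr rfl (fun k _ => by rw [hyf k]), Finset.sum_const, Finset.card_univ,
      Fintype.card_fin, smul_eq_mul]
  · rw [hye, hFm_const]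
    exact hs1
  · rw [hye, hFm_const]
    exact hs2
  · rw [hsum]
    exact Nat.mul_pos (by omega) (by omega)
  · rw [hsum]
    exact hN4.trans (he.trans (Nat.mul_le_mul_left _ hA1))
  · rw [hsum]
    exact hN4.trans (he.trans (Nat.mul_le_mul_left _ hB1))

end Pool.Agent.Work.MP_0421d9_ag.LD
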