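import Pool.Agent.Work.MP_0421d9_ag.ZPStrip
import Pool.Agent.Work.MP_0421d9_ag.ZXA
import Pool.Agent.Work.MP_0421d9_ag.ZXB
import Pool.Agent.Work.MP_0421d9_ag.ZXC1

/-!
A strip of the plane from a pool (as `ZPStrip`, `ZPStrip2`), without the dimension function; only
the points of `E` are used.
-/

namespace Pool.Agent.Work.MP_0421d9_ag.LD

open MvPolynomial Module

/-- the case distinction; `hA` and `hB` are the conclusions of `kill_A` and `kill_B` -/
theorem kill_strip_aux {G₁ A₁ : ℕ} (hC2 : ∀ (p D r v : ℕ) (y : Fin r → ℕ) (P : Finset (Fin r)),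
    (∀ i ∈ P, y i = v) → 4 * D ≤ ∑ i ∈ P, y i → 1 ≤ p → A₁ * p ^ 6 ≤ v → D ≤ 8 * v * (v + 1) →
      v ^ 2 ≤ 4 * p ^ 2 * D → StripKill D G₁ P y v)
    {a p K G D s u r : ℕ} {P : ℕ → ℕ} {τ J : ℕ}
    {E : Finset (Fin r)}
    (hP : Pools P (64 * p ^ 2) (100 * p ^ 2) τ J) (ha : 2 ≤ a) (hK : 2 ≤ K) (hp : 1 ≤ p)
    (hG : 2 ^ (2 * K + 8) ≤ G) (hG1 : G₁ ≤ G) {y : Fin r → ℕ} (hu : ∀ i, P (y i) = s → y i ≤ u)
    (hus : P u = s) (hu1 : 1 ≤ u) (hDu : (1000 * a * p + (16 * K * p) ^ 3) * u ≤ D)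
    (hDu2 : 16 * A₁ * p ^ 6 * u ≤ D)
    (hs : 8 * D ≤ ∑ i ∈ E.filter (fun i => P (y i) = s), y i)
    (hA : 100 * p ^ 2 ≤ u → 4 * p ^ 2 * D ≤ u ^ 2 →
      (∀ i ∈ E.filter (fun i => P (y i) = s), y i ≤ u ∧ u ≤ y i + u / p) →
      StripKill D (2 ^ (2 * K + 8)) (E.filter (fun i => P (y i) = s)) y u)
    (hB : 100 * p ^ 2 ≤ u → u ^ 2 ≤ 4 * p ^ 2 * D →
      (∀ i ∈ E.filter (fun i => P (y i) = s), y i ≤ u ∧ u ≤ y i + u / (64 * p ^ 2)) →
      (∀ v, ((E.filter (fun i => P (y i) = s)).filter (fun i => y i = v)).card * v ≤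
        4 * D) →
      StripKill D 64 (E.filter (fun i => P (y i) = s)) y u) :
    StripKill D G (E.filter (fun i => P (y i) = s)) y u := by
  set S := E.filter (fun i => P (y i) = s) with hS
  have hmem : ∀ i ∈ S, P (y i) = s := fun i hi => (Finset.mem_filter.1 hi).2
  have hle : ∀ i ∈ S, y i ≤ u := fun i hi => hu i (hmem i hi)
  have hw0 : ∀ i ∈ S, u ≤ y i + y i / (64 * p ^ 2) := fun i hi =>
    hP.width _ _ ((hmem i hi).trans hus.symm) (hle i hi)
  have hw : ∀ i ∈ S, u ≤ y i + u / (64 * p ^ 2) := fun i hi =>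
    (hw0 i hi).trans (Nat.add_le_add_left (Nat.div_le_div_right (hle i hi)) _)
  have hG32 : 64 ≤ G := by
    refine le_trans ?_ hG
    calc 64 = 2 ^ 6 := by norm_num
      _ ≤ 2 ^ (2 * K + 8) := Nat.pow_le_pow_right (by norm_num) (by omega)
  have hp2 : p ≤ 64 * p ^ 2 := by nlinarith
  have hap : 2000 * p ≤ 1000 * a * p := Nat.mul_le_mul_right _ (by omega)
  have hD1 : 1000 * a * p * u ≤ D := le_trans (Nat.mul_le_mul_right _ (by omega)) hDu
  have hD2 : 2000 * p * u ≤ D := (Nat.mul_le_mul_right _ hap).trans hD1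
  have hD3 : (32 * p) ^ 3 * u ≤ D := by
    refine le_trans (Nat.mul_le_mul_right _ ?_) hDu
    refine le_trans (Nat.pow_le_pow_left ?_ 3) (Nat.le_add_left _ _)
    exact Nat.mul_le_mul_right _ (by omega)
  rcases Nat.lt_or_ge (u ^ 2) (4 * p ^ 2 * D) with hcase | hcase
  · rcases Nat.lt_or_ge u (100 * p ^ 2) with hu100 | hu100
    · -- all multiplicities are equal and small
      have heq : ∀ i ∈ S, y i = u := fun i hi =>
        (hP.small u (y i) (hus.trans (hmem i hi).symm) hu100).symm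
      have hD8 : 8 * u * (u + 1) ≤ D := by
        have h1 : 8 * (u + 1) ≤ (32 * p) ^ 3 := by
          have h2 : p ^ 2 ≤ p ^ 3 := Nat.pow_le_pow_right hp (by norm_num)
          have h3 : (32 * p) ^ 3 = 32768 * p ^ 3 := by ring
          rw [h3]
          omega
        calc 8 * u * (u + 1) = 8 * (u + 1) * u := by ring
          _ ≤ (32 * p) ^ 3 * u := Nat.mul_le_mul_right _ h1
          _ ≤ D := hD3
      exact (kill_C1 S heq (by omega) hu1 hD8).mono_all (by omega) (Finset.Subset.refl _) le_rfl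
    · by_cases hcl : ∀ v, (S.filter (fun i => y i = v)).card * v ≤ 4 * D
      · refine (hB hu100 hcase.le (fun i hi => ⟨hle i hi, hw i hi⟩) hcl).mono_all hG32
          (Finset.Subset.refl _) le_rfl
      · push Not at hcl
        obtain ⟨v, hv⟩ := hcl
        set S' := S.filter (fun i => y i = v) with hS'
        have hv0 : 1 ≤ v := by
          rcases Nat.eq_zero_or_pos v with h | h
          · rw [h, Nat.mul_zero] at hv
            omega
          · exact h
        have hc0 : S'.Nonempty := by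
          rw [← Finset.card_pos]
          rcases Nat.eq_zero_or_pos S'.card with h | h
          · rw [h, Nat.zero_mul] at hv
            omega
          · exact h
        obtain ⟨i, hi⟩ := hc0
        have hiS := (Finset.mem_filter.1 hi).1
        have hiv := (Finset.mem_filter.1 hi).2
        have hvu : v ≤ u := by rw [← hiv]; exact hle i hiS
        have heq : ∀ i ∈ S', y i = v := fun i hi => (Finset.mem_filter.1 hi).2
        have hsum : ∑ i ∈ S', y i = S'.card * v := by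
          rw [Finset.sum_congr rfl heq, Finset.sum_const, smul_eq_mul]
        have hsub : S' ⊆ S := Finset.filter_subset _ _
        rcases Nat.lt_or_ge D (8 * v * (v + 1)) with hDv | hDv
        · refine (hC2 p D r v y S' heq (by omega) hp ?_ hDv.le ?_).mono_all hG1 hsub hvu
          · have h1 : 16 * (A₁ * p ^ 6) * v < 16 * v * v := by
              calc 16 * (A₁ * p ^ 6) * v = 16 * A₁ * p ^ 6 * v := by ring
                _ ≤ 16 * A₁ * p ^ 6 * u := Nat.mul_le_mul_left _ hvu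
                _ ≤ D := hDu2
                _ < 8 * v * (v + 1) := hDv
                _ ≤ 8 * v * (v + v) := Nat.mul_le_mul_left _ (by omega)
                _ = 16 * v * v := by ring
            have h2 := lt_of_mul_lt_mul_right h1 (Nat.zero_le v)
            omega
          · exact (Nat.pow_le_pow_left hvu 2).trans hcase.le
        · exact (kill_C1 S' heq (by omega) hv0 hDv).mono_all (by omega) hsub hvu
  · have hu100 : 100 * p ^ 2 ≤ u := by
      have h1 : 4 * p ^ 2 * (2000 * p) * u ≤ u * u := by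
        calc 4 * p ^ 2 * (2000 * p) * u = 4 * p ^ 2 * (2000 * p * u) := by ring
          _ ≤ 4 * p ^ 2 * D := Nat.mul_le_mul_left _ hD2
          _ ≤ u ^ 2 := hcase
          _ = u * u := sq u
      have h2 := le_of_mul_le_mul_right h1 hu1
      refine le_trans ?_ h2
      calc 100 * p ^ 2 = 4 * p ^ 2 * 25 := by ring
        _ ≤ 4 * p ^ 2 * (2000 * p) := Nat.mul_le_mul_left _ (by omega)
    refine (hA hu100 hcase (fun i hi => ⟨hle i hi, (hw i hi).trans ?_⟩)).mono_all hG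
      (Finset.Subset.refl _) le_rfl
    exact Nat.add_le_add_left (Nat.div_le_div_left hp2 hp) _

theorem kill_strip_pool {G₁ A₁ : ℕ} (hC2 : ∀ (p D r v : ℕ) (y : Fin r → ℕ) (P : Finset (Fin r)),
    (∀ i ∈ P, y i = v) → 4 * D ≤ ∑ i ∈ P, y i → 1 ≤ p → A₁ * p ^ 6 ≤ v → D ≤ 8 * v * (v + 1) →
      v ^ 2 ≤ 4 * p ^ 2 * D → StripKill D G₁ P y v)
    {T q a p K G D s u r : ℕ} {P : ℕ → ℕ} {τ J : ℕ}
    (E : Finset (Fin r))
    (hP : Pools P (64 * p ^ 2) (100 * p ^ 2) τ J) (hW : WinR T q a) (hT : 1 ≤ T) (hq : 2 ≤ q)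
    (ha : 2 ≤ a) (hK : 2 ≤ K) (hp : 40 * q + 2 ^ (2 * K + 20) ≤ p) (hG : 2 ^ (2 * K + 8) ≤ G)
    (hG1 : G₁ ≤ G) {y : Fin r → ℕ} (hu : ∀ i, P (y i) = s → y i ≤ u) (hus : P u = s)
    (hu1 : 1 ≤ u) (hDu : (1000 * a * p + (16 * K * p) ^ 3) * u ≤ D)
    (hDu2 : 16 * A₁ * p ^ 6 * u ≤ D)
    (hKD : 2 ^ (K + 3) * (df K * (2 * u ^ 2) ^ K) ≤ D ^ (2 * K - 1)) (hTu : u ^ 2 ≤ T * D)
    (hs : 8 * D ≤ ∑ i ∈ E.filter (fun i => P (y i) = s), y i) :
    StripKill D G (E.filter (fun i => P (y i) = s)) y u := by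
  have h20 : 2 ^ 20 ≤ 2 ^ (2 * K + 20) := Nat.pow_le_pow_right (by norm_num) (by omega)
  have hp1 : 1 ≤ p := by
    have h1 : 0 < 2 ^ (2 * K + 20) := by positivity
    omega
  refine kill_strip_aux hC2 hP ha hK hp1 hG hG1 hu hus hu1 hDu hDu2 hs
    (fun h1 h2 h3 => ?_) (fun h1 h2 h3 h4 => ?_)
  · exact kill_A hW hT hq ha hK hp h1 hDu h2 hKD hTu _ h3 hs
  · exact kill_B hW hT hq ha (by omega) h1
      (le_trans (Nat.mul_le_mul_right _ (Nat.le_add_right _ _)) hDu) h2 hTu _ h3 h4 hs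

end Pool.Agent.Work.MP_0421d9_ag.LD
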