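import Pool.Agent.Work.MP_0421d9_ag.ZBez

/-!
Xu's inequality for an irreducible polynomial at movable points.
-/

namespace Pool.Agent.Work.MP_0421d9_ag.LD

open MvPolynomial Module

section ZXu

variable {ι : Type} [Fintype ι] {q : ι → Fin 2 → ℂ}

/-- a derivation and the translation to a moving point -/
theorem cD_sh (Δ : Derivation ℚ ℂ ℂ) (x : Fin 2 → ℂ) (f : P2) :
    cD Δ (sh x f) = sh x (cD Δ f) + ∑ l, C (Δ (x l)) * pderiv l (sh x f) := by
  unfold sh
  induction f using MvPolynomial.induction_on with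
  | C c =>
    rw [algHom_C, algebraMap_eq, cD_C, algHom_C, algebraMap_eq]
    simp
  | add p q hp hq =>
    simp only [map_add, hp, hq, mul_add, Finset.sum_add_distrib]
    ring
  | mul_X p n hp =>
    rw [map_mul, aeval_X, cD_mul, hp, cD_mul, cD_X, map_add, cD_C, cD_X, mul_zero, add_zero,
      add_zero, map_mul, aeval_X]
    have h1 : ∀ l, C (Δ (x l)) * pderiv l (aeval (fun l => C (x l) + X l : Fin 2 → P2) p *
        (C (x n) + X n)) =
        (C (Δ (x l)) * pderiv l (aeval (fun l => C (x l) + X l : Fin 2 → P2) p)) *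
          (C (x n) + X n) +
        aeval (fun l => C (x l) + X l : Fin 2 → P2) p * (C (Δ (x l)) * pderiv l (X n)) := by
      intro l
      rw [pderiv_mul, map_add, pderiv_C, zero_add]
      ring
    rw [Finset.sum_congr rfl fun l _ => h1 l, Finset.sum_add_distrib, ← Finset.sum_mul,
      ← Finset.mul_sum]
    have h2 : ∑ l, C (Δ (x l)) * pderiv l (X n : P2) = C (Δ (x n)) := by
      rw [Finset.sum_eq_single n]
      · rw [pderiv_X_self, mul_one]
      · intro b _ hb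
        rw [pderiv_X_of_ne hb.symm, mul_zero]
      · simp
    rw [h2]
    ring

theorem coeff_sh_cD (Δ : Derivation ℚ ℂ ℂ) (x : Fin 2 → ℂ) (f : P2) (β : Fin 2 →₀ ℕ) :
    coeff β (sh x (cD Δ f)) = Δ (coeff β (sh x f)) -
      ∑ l, Δ (x l) * (coeff (β + Finsupp.single l 1) (sh x f) * (β l + 1)) := by
  have h := congrArg (coeff β) (cD_sh Δ x f)
  rw [coeff_cD, coeff_add, coeff_sum] at h
  rw [h]
  simp only [coeff_C_mul, coeff_pderiv]
  ring

theorem Vq.cD_fix {Δ : Derivation ℚ ℂ ℂ} {x : Fin 2 → ℂ} {f : P2} {m : ℕ}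
    (hx : ∀ l, Δ (x l) = 0) (h : Vq x f m) : Vq x (cD Δ f) m := by
  intro β hβ
  rw [coeff_sh_cD, h β hβ, map_zero]
  simp [hx]

theorem Vq.cD_move {Δ : Derivation ℚ ℂ ℂ} {x : Fin 2 → ℂ} {f : P2} {m : ℕ}
    (h : Vq x f m) : Vq x (cD Δ f) (m - 1) := by
  intro β hβ
  rw [coeff_sh_cD, h β (by omega), map_zero, zero_sub, neg_eq_zero]
  refine Finset.sum_eq_zero fun l _ => ?_
  rw [h (β + Finsupp.single l 1) (by rw [map_add, Finsupp.degree_single]; omega), zero_mul,
    mul_zero]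

theorem totalDegree_cD_le (Δ : Derivation ℚ ℂ ℂ) (f : P2) :
    (cD Δ f).totalDegree ≤ f.totalDegree := by
  unfold totalDegree
  apply Finset.sup_mono
  intro β hβ
  rw [MvPolynomial.mem_support_iff] at hβ ⊢
  intro h
  apply hβ
  rw [coeff_cD, h, map_zero]

theorem exists_mu_coeff {x : Fin 2 → ℂ} {f : P2} (hf : 1 ≤ mu x f) :
    ∃ β : Fin 2 →₀ ℕ, β.degree = mu x f ∧ coeff β (sh x f) ≠ 0 := by
  unfold mu at hf ⊢
  exact Nat.sInf_mem (Nat.nonempty_of_pos_sInf hf)

theorem Vq.C_mul {x : Fin 2 → ℂ} {f : P2} {m : ℕ} (h : Vq x f m) (c : ℂ) :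
    Vq x (C c * f) m := by
  intro β hβ
  have e1 : sh x (C c * f) = C c * sh x f := by
    unfold sh
    rw [map_mul, algHom_C, algebraMap_eq]
  rw [e1, coeff_C_mul, h β hβ, mul_zero]

theorem xu (hq : Function.Injective q) (hm : Movable q) {f : P2} (hf : Irreducible f) {i : ι}
    (hi : 1 ≤ mu (q i) f) : ∑ j, mu (q j) f ^ 2 ≤ f.totalDegree ^ 2 + mu (q i) f := by
  classical
  -- normalisation
  obtain ⟨α, hα⟩ := ne_zero_iff.mp hf.ne_zero
  obtain ⟨c, hc⟩ : ∃ c, c = (coeff α f)⁻¹ := ⟨_, rfl⟩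
  have hc0 : c ≠ 0 := by rw [hc]; exact inv_ne_zero hα
  obtain ⟨f₁, hf₁⟩ : ∃ f₁, f₁ = C c * f := ⟨_, rfl⟩
  have hα1 : coeff α f₁ = 1 := by rw [hf₁, coeff_C_mul, hc, inv_mul_cancel₀ hα]
  have hdvd : f₁ ∣ f := ⟨C c⁻¹, by
    rw [hf₁, mul_comm (C c * f), ← mul_assoc, ← C_mul, inv_mul_cancel₀ hc0, C_1, one_mul]⟩
  have hf₁0 : f₁ ≠ 0 := by
    intro h
    rw [h, coeff_zero] at hα1
    exact one_ne_zero hα1.symm
  have hdeg : f₁.totalDegree ≤ f.totalDegree := by
    rw [hf₁, C_mul']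
    exact totalDegree_smul_le _ _
  have hV : ∀ j, Vq (q j) f₁ (mu (q j) f) := by
    intro j
    rw [hf₁]
    exact Vq.C_mul ((vq_iff hf.ne_zero).mpr le_rfl) c
  -- the derivation
  obtain ⟨β, hβ, hβ0⟩ := exists_mu_coeff hi
  obtain ⟨l, hl⟩ : ∃ l, 1 ≤ β l := by
    by_contra hcon
    push Not at hcon
    have h0 : β = 0 := by
      ext l
      have := hcon l
      rw [Finsupp.coe_zero, Pi.zero_apply]
      omega
    rw [h0, map_zero] at hβ
    omega
  obtain ⟨Δ, hΔ1, hΔ2⟩ := hm i (Pi.single l 1)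
  obtain ⟨g, hg⟩ : ∃ g, g = cD Δ f₁ := ⟨_, rfl⟩
  have hg0 : g ≠ 0 := by
    intro h0
    obtain ⟨γ, hγ⟩ : ∃ γ, γ = β - Finsupp.single l 1 := ⟨_, rfl⟩
    have hγβ : γ + Finsupp.single l 1 = β := by
      rw [hγ]
      exact tsub_add_cancel_of_le (Finsupp.single_le_iff.mpr hl)
    have h1 := coeff_sh_cD Δ (q i) f₁ γ
    rw [← hg, h0] at h1
    have h2 : coeff γ (sh (q i) f₁) = 0 := by
      refine hV i γ ?_
      have h3 := congrArg Finsupp.degree hγβ
      rw [map_add, Finsupp.degree_single] at h3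
      omega
    rw [h2, map_zero, map_zero, coeff_zero, zero_sub, eq_comm, neg_eq_zero,
      Finset.sum_eq_single l] at h1
    · rw [hΔ2 l, Pi.single_eq_same, one_mul, hγβ] at h1
      have h4 : coeff β (sh (q i) f₁) = c * coeff β (sh (q i) f) := by
        rw [hf₁]
        unfold sh
        rw [map_mul, algHom_C, algebraMap_eq, coeff_C_mul]
      rw [h4] at h1
      have h5 : ((γ l : ℂ) + 1) ≠ 0 := by exact_mod_cast Nat.succ_ne_zero (γ l)
      exact (mul_ne_zero (mul_ne_zero hc0 hβ0) h5) h1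
    · intro b _ hb
      rw [hΔ2 b, Pi.single_eq_of_ne hb, zero_mul]
    · simp
  have hgα : coeff α g = 0 := by
    rw [hg, coeff_cD, hα1]
    simp
  have hgdeg : g.totalDegree ≤ f.totalDegree := by
    rw [hg]
    exact (totalDegree_cD_le Δ f₁).trans hdeg
  have hndvd : ¬ f ∣ g := by
    intro h
    obtain ⟨u, hu⟩ := hdvd.trans h
    have hu0 : u ≠ 0 := by
      rintro rfl
      rw [mul_zero] at hu
      exact hg0 hu
    have h1 : g.totalDegree = f₁.totalDegree + u.totalDegree := by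
      rw [hu]
      exact totalDegree_mul' hf₁0 hu0
    have h2 : g.totalDegree ≤ f₁.totalDegree := by
      rw [hg]
      exact totalDegree_cD_le Δ f₁
    have h3 : u.totalDegree = 0 := by omega
    obtain ⟨a, ha⟩ : ∃ a, u = C a := ⟨coeff 0 u, totalDegree_eq_zero_iff_eq_C.mp h3⟩
    rw [ha, mul_comm] at hu
    rw [hu, coeff_C_mul, hα1, mul_one] at hgα
    rw [hgα, C_0, zero_mul] at hu
    exact hg0 hu
  have hrel : IsRelPrime f g := by
    rw [hf.isRelPrime_iff_not_dvd]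
    exact hndvd
  have hbez := bezout hq hf.ne_zero hg0 hrel
  -- the multiplicities of `g`
  have hmu : ∀ j, j ≠ i → mu (q j) f ≤ mu (q j) g := by
    intro j hj
    rw [← vq_iff hg0, hg]
    exact Vq.cD_fix (hΔ1 j hj) (hV j)
  have hmui : mu (q i) f - 1 ≤ mu (q i) g := by
    rw [← vq_iff hg0, hg]
    exact Vq.cD_move (hV i)
  have h1 : ∑ j, mu (q j) f ^ 2 ≤ ∑ j, mu (q j) f * mu (q j) g + mu (q i) f := by
    rw [← Finset.add_sum_erase _ _ (Finset.mem_univ i),
      ← Finset.add_sum_erase (f := fun j => mu (q j) f * mu (q j) g) _ (Finset.mem_univ i)]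
    have h2 : ∑ j ∈ Finset.univ.erase i, mu (q j) f ^ 2 ≤
        ∑ j ∈ Finset.univ.erase i, mu (q j) f * mu (q j) g := by
      refine Finset.sum_le_sum fun j hj => ?_
      rw [pow_two]
      exact Nat.mul_le_mul_left _ (hmu j (Finset.ne_of_mem_erase hj))
    have h3 : mu (q i) f ^ 2 ≤ mu (q i) f * mu (q i) g + mu (q i) f := by
      obtain ⟨n, hn⟩ : ∃ n, mu (q i) f = n + 1 := ⟨mu (q i) f - 1, by omega⟩
      rw [hn] at hmui ⊢
      have h4 : n ≤ mu (q i) g := by omega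
      nlinarith
    omega
  have h2 : f.totalDegree * g.totalDegree ≤ f.totalDegree ^ 2 := by
    rw [pow_two]
    exact Nat.mul_le_mul_left _ hgdeg
  omega

end ZXu

end Pool.Agent.Work.MP_0421d9_ag.LD
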